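import Mathlib

set_option autoImplicit false

open Metric Set MeasureTheory Filter Topology

namespace Pool.Agent.Lib.MP_ca0fc2_an

variable {E : Type*} [NormedAddCommGroup E] [NormedSpace ℂ E]

/-- restriction of a holomorphic function to a complex line -/
theorem diff_line {f : E → ℂ} {z₀ v : E} {r R : ℝ}
    (hf : DifferentiableOn ℂ f (ball z₀ r)) (hR : R * ‖v‖ ≤ r) (hv : v ≠ 0) :
    DifferentiableOn ℂ (fun t : ℂ => f (z₀ + t • v)) (ball 0 R) := by
  have hmaps : MapsTo (fun t : ℂ => z₀ + t • v) (ball 0 R) (ball z₀ r) := by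
    intro t ht
    rw [mem_ball_zero_iff] at ht
    have h0 : 0 < ‖v‖ := norm_pos_iff.mpr hv
    simp only [mem_ball, dist_self_add_left, norm_smul]
    exact lt_of_lt_of_le (mul_lt_mul_of_pos_right ht h0) hR
  have hd : DifferentiableOn ℂ (fun t : ℂ => z₀ + t • v) (ball 0 R) := by
    fun_prop
  exact hf.comp hd hmaps

theorem norm_fderiv_apply_le {f : E → ℂ} {z₀ : E} {r M : ℝ} (hr : 0 < r)
    (hf : DifferentiableOn ℂ f (ball z₀ r)) (hM : ∀ z ∈ ball z₀ r, ‖f z‖ ≤ M) (v : E) :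
    ‖fderiv ℂ f z₀ v‖ ≤ 2 * M / r * ‖v‖ := by
  by_cases hv : v = 0
  · simp [hv]
  have h0 : 0 < ‖v‖ := norm_pos_iff.mpr hv
  set R : ℝ := r / ‖v‖ with hRdef
  have hRpos : 0 < R := by positivity
  have hRv : R * ‖v‖ = r := by rw [hRdef]; field_simp
  have hφ := diff_line hf hRv.le hv
  have hfd : HasFDerivAt f (fderiv ℂ f z₀) z₀ :=
    (hf.differentiableAt (ball_mem_nhds z₀ hr)).hasFDerivAt
  have hder : HasDerivAt (fun t : ℂ => f (z₀ + t • v)) (fderiv ℂ f z₀ v) 0 := by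
    have h1 : HasFDerivAt f (fderiv ℂ f z₀) (z₀ + (0 : ℂ) • v) := by simpa using hfd
    have h2 : HasDerivAt (fun t : ℂ => z₀ + t • v) v 0 := by
      simpa using ((hasDerivAt_id (0 : ℂ)).smul_const v).const_add z₀
    exact h1.comp_hasDerivAt (0 : ℂ) h2
  have hmaps : MapsTo (fun t : ℂ => f (z₀ + t • v)) (ball 0 R)
      (closedBall ((fun t : ℂ => f (z₀ + t • v)) 0) (2 * M)) := by
    intro t ht
    have hmem : ∀ t ∈ ball (0 : ℂ) R, z₀ + t • v ∈ ball z₀ r := by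
      intro t ht
      rw [mem_ball_zero_iff] at ht
      simp only [mem_ball, dist_self_add_left, norm_smul]
      calc ‖t‖ * ‖v‖ < R * ‖v‖ := mul_lt_mul_of_pos_right ht h0
        _ = r := hRv
    have h1 := hM _ (hmem t ht)
    have h2 := hM _ (hmem 0 (mem_ball_self hRpos))
    rw [mem_closedBall, dist_eq_norm]
    calc ‖f (z₀ + t • v) - f (z₀ + (0 : ℂ) • v)‖ ≤ _ := norm_sub_le _ _
      _ ≤ 2 * M := by linarith
  have h := Complex.norm_dslope_le_div_of_mapsTo_ball hφ hmaps (mem_ball_self hRpos)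
  rw [dslope_same, hder.deriv] at h
  calc ‖fderiv ℂ f z₀ v‖ ≤ 2 * M / R := h
    _ = 2 * M / r * ‖v‖ := by rw [hRdef]; field_simp

theorem taylor_two {f : E → ℂ} {z₀ : E} {r M : ℝ} (hr : 0 < r)
    (hf : DifferentiableOn ℂ f (ball z₀ r)) (hM : ∀ z ∈ ball z₀ r, ‖f z‖ ≤ M)
    {v : E} (hv : ‖v‖ < r) :
    ‖f (z₀ + v) - f z₀ - fderiv ℂ f z₀ v‖ ≤ 4 * M / r ^ 2 * ‖v‖ ^ 2 := by
  by_cases hv0 : v = 0
  · simp [hv0]
  have h0 : 0 < ‖v‖ := norm_pos_iff.mpr hv0
  set R : ℝ := r / ‖v‖ with hRdef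
  have hRpos : 0 < R := by positivity
  have hR1 : 1 < R := by rw [hRdef, lt_div_iff₀ h0]; linarith
  have hRv : R * ‖v‖ = r := by rw [hRdef]; field_simp
  have hφ := diff_line hf hRv.le hv0
  have hfd : HasFDerivAt f (fderiv ℂ f z₀) z₀ :=
    (hf.differentiableAt (ball_mem_nhds z₀ hr)).hasFDerivAt
  set φ : ℂ → ℂ := fun t : ℂ => f (z₀ + t • v) with hφdef
  have hder : HasDerivAt φ (fderiv ℂ f z₀ v) 0 := by
    have h1 : HasFDerivAt f (fderiv ℂ f z₀) (z₀ + (0 : ℂ) • v) := by simpa using hfd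
    have h2 : HasDerivAt (fun t : ℂ => z₀ + t • v) v 0 := by
      simpa using ((hasDerivAt_id (0 : ℂ)).smul_const v).const_add z₀
    exact h1.comp_hasDerivAt (0 : ℂ) h2
  have hmem : ∀ t ∈ ball (0 : ℂ) R, z₀ + t • v ∈ ball z₀ r := by
    intro t ht
    rw [mem_ball_zero_iff] at ht
    simp only [mem_ball, dist_self_add_left, norm_smul]
    calc ‖t‖ * ‖v‖ < R * ‖v‖ := mul_lt_mul_of_pos_right ht h0
      _ = r := hRv
  have hmaps : MapsTo φ (ball 0 R) (closedBall (φ 0) (2 * M)) := by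
    intro t ht
    have h1 := hM _ (hmem t ht)
    have h2 := hM _ (hmem 0 (mem_ball_self hRpos))
    rw [mem_closedBall, dist_eq_norm]
    calc ‖f (z₀ + t • v) - f (z₀ + (0 : ℂ) • v)‖ ≤ _ := norm_sub_le _ _
      _ ≤ 2 * M := by linarith
  have hd1 : ∀ t ∈ ball (0 : ℂ) R, ‖dslope φ 0 t‖ ≤ 2 * M / R := fun t ht =>
    Complex.norm_dslope_le_div_of_mapsTo_ball hφ hmaps ht
  have hD1 : DifferentiableOn ℂ (dslope φ 0) (ball 0 R) :=
    (Complex.differentiableOn_dslope (ball_mem_nhds 0 hRpos)).mpr hφ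
  have hmaps2 : MapsTo (dslope φ 0) (ball 0 R) (closedBall (dslope φ 0 0) (4 * M / R)) := by
    intro t ht
    have h1 := hd1 t ht
    have h2 := hd1 0 (mem_ball_self hRpos)
    rw [mem_closedBall, dist_eq_norm]
    calc ‖dslope φ 0 t - dslope φ 0 0‖ ≤ _ := norm_sub_le _ _
      _ ≤ 2 * M / R + 2 * M / R := by linarith
      _ = 4 * M / R := by ring
  have h1mem : (1 : ℂ) ∈ ball (0 : ℂ) R := by simpa using hR1
  have h := Complex.norm_dslope_le_div_of_mapsTo_ball hD1 hmaps2 h1mem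
  have e1 : dslope (dslope φ 0) 0 1 = f (z₀ + v) - f z₀ - fderiv ℂ f z₀ v := by
    rw [dslope_of_ne _ (one_ne_zero), slope_def_field, dslope_same, hder.deriv,
      dslope_of_ne _ (one_ne_zero), slope_def_field]
    simp [hφdef]
  rw [e1] at h
  calc ‖f (z₀ + v) - f z₀ - fderiv ℂ f z₀ v‖ ≤ 4 * M / R / R := h
    _ = 4 * M / r ^ 2 * ‖v‖ ^ 2 := by rw [hRdef]; field_simp

/-- Holomorphy of parameter integrals with holomorphic integrand. -/
theorem differentiableAt_integral {X : Type*} [MeasurableSpace X] {μ : Measure X}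
    {G : E → X → ℂ} {z₀ : E} {r : ℝ} (hr : 0 < r) {g : X → ℝ}
    (hG : ∀ᵐ x ∂μ, DifferentiableOn ℂ (fun z => G z x) (ball z₀ r))
    (hm : ∀ z ∈ ball z₀ r, AEStronglyMeasurable (G z) μ)
    (hg : Integrable g μ) (hb : ∀ᵐ x ∂μ, ∀ z ∈ ball z₀ r, ‖G z x‖ ≤ g x) :
    DifferentiableAt ℂ (fun z => ∫ x, G z x ∂μ) z₀ := by
  have hz₀ : z₀ ∈ ball z₀ r := mem_ball_self hr
  have hint : ∀ z ∈ ball z₀ r, Integrable (G z) μ := fun z hz =>
    hg.mono' (hm z hz) (hb.mono fun x hx => hx z hz)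
  -- measurability of the derivative
  have hLmeas : ∀ v : E, AEStronglyMeasurable (fun x => fderiv ℂ (fun z => G z x) z₀ v) μ := by
    intro v
    have hev : ∀ᶠ t : ℂ in 𝓝[≠] (0 : ℂ), z₀ + t • v ∈ ball z₀ r := by
      have : Tendsto (fun t : ℂ => z₀ + t • v) (𝓝 0) (𝓝 (z₀ + (0 : ℂ) • v)) := by
        apply Continuous.tendsto; fun_prop
      rw [zero_smul, add_zero] at this
      exact nhdsWithin_le_nhds (this (ball_mem_nhds z₀ hr))
    have hseq : Tendsto (fun n : ℕ => ((1 : ℂ) / ((n : ℂ) + 1))) atTop (𝓝[≠] (0 : ℂ)) := by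
      rw [tendsto_nhdsWithin_iff]
      refine ⟨tendsto_one_div_add_atTop_nhds_zero_nat, Eventually.of_forall fun n => ?_⟩
      have : ((n : ℂ) + 1) ≠ 0 := by exact_mod_cast Nat.succ_ne_zero n
      simpa using this
    have hevn := hseq.eventually hev
    obtain ⟨N, hN⟩ := eventually_atTop.mp hevn
    refine aestronglyMeasurable_of_tendsto_ae (atTop : Filter ℕ)
      (f := fun n x => ((1 : ℂ) / (((n + N : ℕ) : ℂ) + 1))⁻¹ •
        (G (z₀ + ((1 : ℂ) / (((n + N : ℕ) : ℂ) + 1)) • v) x - G z₀ x)) ?_ ?_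
    · intro n
      have := hN (n + N) (by omega)
      exact AEStronglyMeasurable.const_smul ((hm _ this).sub (hm _ hz₀))
        (((1 : ℂ) / (((n + N : ℕ) : ℂ) + 1))⁻¹)
    · filter_upwards [hG] with x hGx
      have hfd : HasFDerivAt (fun z => G z x) (fderiv ℂ (fun z => G z x) z₀) z₀ :=
        (hGx.differentiableAt (ball_mem_nhds z₀ hr)).hasFDerivAt
      have hder : HasDerivAt (fun t : ℂ => G (z₀ + t • v) x)
          (fderiv ℂ (fun z => G z x) z₀ v) 0 := by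
        have h1 : HasFDerivAt (fun z => G z x) (fderiv ℂ (fun z => G z x) z₀)
          (z₀ + (0 : ℂ) • v) := by simpa using hfd
        have h2 : HasDerivAt (fun t : ℂ => z₀ + t • v) v 0 := by
          simpa using ((hasDerivAt_id (0 : ℂ)).smul_const v).const_add z₀
        exact h1.comp_hasDerivAt (0 : ℂ) h2
      have hslope := hder.tendsto_slope_zero
      have hcomp := hslope.comp (hseq.comp (tendsto_add_atTop_nat N))
      simpa [Function.comp_def] using hcomp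
  have hLb : ∀ᵐ x ∂μ, ∀ v, ‖fderiv ℂ (fun z => G z x) z₀ v‖ ≤ 2 * g x / r * ‖v‖ := by
    filter_upwards [hG, hb] with x hGx hbx v
    exact norm_fderiv_apply_le hr hGx hbx v
  have hLint : ∀ v : E, Integrable (fun x => fderiv ℂ (fun z => G z x) z₀ v) μ := by
    intro v
    refine Integrable.mono' (g := fun x => 2 * g x / r * ‖v‖) ?_ (hLmeas v)
      (hLb.mono fun x hx => hx v)
    exact ((hg.const_mul 2).div_const r).mul_const _
  let L₀ : E →ₗ[ℂ] ℂ :=
    { toFun := fun v => ∫ x, fderiv ℂ (fun z => G z x) z₀ v ∂μ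
      map_add' := fun v w => by
        simp only [map_add]
        exact integral_add (hLint v) (hLint w)
      map_smul' := fun c v => by
        simp only [map_smul, smul_eq_mul, RingHom.id_apply]
        exact integral_const_mul _ _ }
  let L : E →L[ℂ] ℂ := L₀.mkContinuous (∫ x, 2 * g x / r ∂μ) (by
    intro v
    change ‖∫ x, fderiv ℂ (fun z => G z x) z₀ v ∂μ‖ ≤ _
    calc ‖∫ x, fderiv ℂ (fun z => G z x) z₀ v ∂μ‖ ≤ ∫ x, 2 * g x / r * ‖v‖ ∂μ :=
          norm_integral_le_of_norm_le (((hg.const_mul 2).div_const r).mul_const _)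
            (hLb.mono fun x hx => hx v)
      _ = (∫ x, 2 * g x / r ∂μ) * ‖v‖ := integral_mul_const _ _)
  have hL : HasFDerivAt (fun z => ∫ x, G z x ∂μ) L z₀ := by
    rw [hasFDerivAt_iff_isLittleO_nhds_zero]
    have hO : (fun v => (∫ x, G (z₀ + v) x ∂μ) - (∫ x, G z₀ x ∂μ) - L v) =O[𝓝 0]
        fun v => ‖v‖ ^ 2 := by
      refine Asymptotics.IsBigO.of_bound (∫ x, 4 * g x / r ^ 2 ∂μ) ?_
      filter_upwards [ball_mem_nhds (0 : E) hr] with v hv
      rw [mem_ball_zero_iff] at hv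
      have hmem : z₀ + v ∈ ball z₀ r := by simpa [mem_ball, dist_self_add_left] using hv
      have e1 : (∫ x, G (z₀ + v) x ∂μ) - (∫ x, G z₀ x ∂μ) - L v =
          ∫ x, (G (z₀ + v) x - G z₀ x - fderiv ℂ (fun z => G z x) z₀ v) ∂μ := by
        have hs : Integrable (fun x => G (z₀ + v) x - G z₀ x) μ := (hint _ hmem).sub (hint _ hz₀)
        rw [integral_sub hs (hLint v), integral_sub (hint _ hmem) (hint _ hz₀)]
        rfl
      rw [e1]
      calc ‖∫ x, (G (z₀ + v) x - G z₀ x - fderiv ℂ (fun z => G z x) z₀ v) ∂μ‖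
          ≤ ∫ x, 4 * g x / r ^ 2 * ‖v‖ ^ 2 ∂μ := by
            refine norm_integral_le_of_norm_le (((hg.const_mul 4).div_const _).mul_const _) ?_
            filter_upwards [hG, hb] with x hGx hbx
            exact taylor_two hr hGx hbx hv
        _ = (∫ x, 4 * g x / r ^ 2 ∂μ) * ‖v‖ ^ 2 := integral_mul_const _ _
        _ = (∫ x, 4 * g x / r ^ 2 ∂μ) * ‖‖v‖ ^ 2‖ := by simp
    refine hO.trans_isLittleO ?_
    simpa using (Asymptotics.isLittleO_norm_pow_id (E' := E) one_lt_two)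
  exact hL.differentiableAt

end Pool.Agent.Lib.MP_ca0fc2_an
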