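import Mathlib
import Pool.Agent.Lib.MP_ca0fc2_an.Holo

set_option autoImplicit false

open Metric Set MeasureTheory Filter Topology

namespace Pool.Agent.Lib.MP_ca0fc2_an

variable {F : Type*} [NormedAddCommGroup F] [NormedSpace ℂ F]

/-- A locally bounded function on an open subset of `ℂ × F` which is holomorphic in each of the two
variables separately is holomorphic. -/
theorem osgood {U : Set (ℂ × F)} (hU : IsOpen U) {q : ℂ × F → ℂ}
    (h1 : ∀ p ∈ U, DifferentiableAt ℂ (fun t : ℂ => q (t, p.2)) p.1)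
    (h2 : ∀ p ∈ U, DifferentiableAt ℂ (fun y : F => q (p.1, y)) p.2)
    (hb : ∀ p ∈ U, ∃ r > 0, ∃ M : ℝ, ∀ p' ∈ ball p r, ‖q p'‖ ≤ M) :
    DifferentiableOn ℂ q U := by
  intro p₀ hp₀
  obtain ⟨r₁, hr₁, M, hM⟩ := hb p₀ hp₀
  obtain ⟨r₂, hr₂, hsub⟩ := Metric.isOpen_iff.mp hU p₀ hp₀
  set r : ℝ := min r₁ r₂ / 3 with hr
  have hr0 : 0 < r := by positivity
  have h3r₁ : 3 * r ≤ r₁ := by rw [hr]; linarith [min_le_left r₁ r₂]
  have h3r₂ : 3 * r ≤ r₂ := by rw [hr]; linarith [min_le_right r₁ r₂]
  have hmemball : ∀ w y, w ∈ closedBall p₀.1 (2 * r) → y ∈ ball p₀.2 r →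
      (w, y) ∈ ball p₀ (3 * r) := by
    intro w y hw hy
    rw [mem_ball, Prod.dist_eq]
    rw [mem_closedBall] at hw
    rw [mem_ball] at hy
    exact max_lt (by simpa using lt_of_le_of_lt hw (by linarith)) (by simpa using lt_of_lt_of_le hy (by linarith))
  have hmemU : ∀ w y, w ∈ closedBall p₀.1 (2 * r) → y ∈ ball p₀.2 r → (w, y) ∈ U := fun w y hw hy =>
    hsub (ball_subset_ball h3r₂ (hmemball w y hw hy))
  have hmemM : ∀ w y, w ∈ closedBall p₀.1 (2 * r) → y ∈ ball p₀.2 r → ‖q (w, y)‖ ≤ M :=
    fun w y hw hy => hM _ (ball_subset_ball h3r₁ (hmemball w y hw hy))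
  have hM0 : 0 ≤ M := (norm_nonneg _).trans (hM p₀ (mem_ball_self hr₁))
  -- the Cauchy formula in the first variable
  have hcauchy : ∀ p ∈ ball p₀ r, q p = (2 * Real.pi * Complex.I)⁻¹ •
      ∮ w in C(p₀.1, 2 * r), (w - p.1)⁻¹ • q (w, p.2) := by
    intro p hp
    rw [mem_ball, Prod.dist_eq, max_lt_iff] at hp
    have hdiff : DifferentiableOn ℂ (fun t : ℂ => q (t, p.2)) (closedBall p₀.1 (2 * r)) := by
      intro w hw
      exact (h1 (w, p.2) (hmemU w p.2 hw (mem_ball.mpr hp.2))).differentiableWithinAt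
    have hc := DifferentiableOn.circleIntegral_sub_inv_smul hdiff
      (w := p.1) (mem_ball.mpr (lt_trans hp.1 (by linarith)))
    rw [hc, smul_smul, inv_mul_cancel₀, one_smul]
    simp [Real.pi_ne_zero, Complex.I_ne_zero]
  set c := p₀.1 with hc
  set G : ℂ × F → ℝ → ℂ := fun p θ => deriv (circleMap c (2 * r)) θ •
    ((circleMap c (2 * r) θ - p.1)⁻¹ • q (circleMap c (2 * r) θ, p.2)) with hGdef
  have hcirc : ∀ θ : ℝ, circleMap c (2 * r) θ ∈ closedBall c (2 * r) := fun θ =>
    circleMap_mem_closedBall c (by linarith) θ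
  have hcirc' : ∀ θ : ℝ, ∀ p ∈ ball p₀ r, r ≤ ‖circleMap c (2 * r) θ - p.1‖ := by
    intro θ p hp
    rw [mem_ball, Prod.dist_eq, max_lt_iff] at hp
    have h3 : ‖circleMap c (2 * r) θ - c‖ = 2 * r := by
      simp [circleMap, abs_of_pos hr0]
    have h4 : ‖p.1 - c‖ < r := by simpa [dist_eq_norm] using hp.1
    have h5 : circleMap c (2 * r) θ - c = (circleMap c (2 * r) θ - p.1) + (p.1 - c) := by ring
    have h6 := norm_add_le (circleMap c (2 * r) θ - p.1) (p.1 - c)
    rw [← h5, h3] at h6
    linarith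
  have key : DifferentiableAt ℂ (fun p => ∫ θ, G p θ ∂(volume.restrict (Ioc 0 (2 * Real.pi)))) p₀ := by
    refine differentiableAt_integral (r := r) hr0 (g := fun _ => 2 * r * (r⁻¹ * M)) ?_ ?_ ?_ ?_
    · refine Eventually.of_forall fun θ p hp => ?_
      have hp' := hp
      rw [mem_ball, Prod.dist_eq, max_lt_iff] at hp'
      have hne : circleMap c (2 * r) θ - p.1 ≠ 0 := by
        intro h0
        have := hcirc' θ p hp
        rw [h0, norm_zero] at this
        linarith
      have hq : DifferentiableAt ℂ (fun p : ℂ × F => q (circleMap c (2 * r) θ, p.2)) p :=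
        DifferentiableAt.comp (g := fun y : F => q (circleMap c (2 * r) θ, y))
          (f := fun p : ℂ × F => p.2) p
          (h2 (circleMap c (2 * r) θ, p.2) (hmemU _ _ (hcirc θ) (mem_ball.mpr hp'.2)))
          differentiableAt_snd
      have hinv : DifferentiableAt ℂ (fun p : ℂ × F => (circleMap c (2 * r) θ - p.1)⁻¹) p :=
        ((differentiableAt_const _).sub differentiableAt_fst).inv hne
      exact ((hinv.fun_smul hq).fun_const_smul _).differentiableWithinAt
    · intro p hp
      have hp' := hp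
      rw [mem_ball, Prod.dist_eq, max_lt_iff] at hp'
      apply Continuous.aestronglyMeasurable
      have c1 : Continuous (fun θ => deriv (circleMap c (2 * r)) θ) := by
        simp only [deriv_circleMap]
        exact (continuous_circleMap 0 (2 * r)).mul continuous_const
      have c2 : Continuous (fun θ => (circleMap c (2 * r) θ - p.1)⁻¹) := by
        refine Continuous.inv₀ ((continuous_circleMap c (2 * r)).sub continuous_const) ?_
        intro θ h0
        have := hcirc' θ p hp
        rw [h0, norm_zero] at this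
        linarith
      have c3 : Continuous (fun θ => q (circleMap c (2 * r) θ, p.2)) := by
        have hcont : ContinuousOn (fun t : ℂ => q (t, p.2)) (closedBall c (2 * r)) := by
          intro w hw
          exact (h1 (w, p.2) (hmemU w p.2 hw (mem_ball.mpr hp'.2))).continuousAt.continuousWithinAt
        exact hcont.comp_continuous (continuous_circleMap c (2 * r)) hcirc
      exact c1.smul (c2.smul c3)
    · exact integrable_const _
    · refine Eventually.of_forall fun θ p hp => ?_
      have hp' := hp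
      rw [mem_ball, Prod.dist_eq, max_lt_iff] at hp'
      have e1 : ‖deriv (circleMap c (2 * r)) θ‖ = 2 * r := by
        simp [deriv_circleMap, circleMap, abs_of_pos hr0]
      simp only [hGdef, norm_smul, e1, norm_inv]
      have e2 : ‖circleMap c (2 * r) θ - p.1‖⁻¹ ≤ r⁻¹ := by
        apply inv_anti₀ hr0 (hcirc' θ p hp)
      have e3 := hmemM _ _ (hcirc θ) (mem_ball.mpr hp'.2)
      gcongr
  have heq : q =ᶠ[𝓝 p₀] fun p => (2 * Real.pi * Complex.I)⁻¹ •
      ∫ θ, G p θ ∂(volume.restrict (Ioc 0 (2 * Real.pi))) := by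
    filter_upwards [ball_mem_nhds p₀ hr0] with p hp
    rw [hcauchy p hp, circleIntegral, intervalIntegral.integral_of_le Real.two_pi_pos.le]
  exact ((key.fun_const_smul _).congr_of_eventuallyEq heq).differentiableWithinAt

end Pool.Agent.Lib.MP_ca0fc2_an
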