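import Mathlib

/-! Strictly pseudoconvex domains with smooth boundary. -/

set_option autoImplicit false

open Metric Set
open scoped ContDiff

namespace Pool.Agent.Lib.MP_ca0fc2_an

variable {n : ℕ}

/-- The real directional derivative `dρ(z) X`. -/
noncomputable def dirDeriv (ρ : EuclideanSpace ℂ (Fin n) → ℝ) (z X : EuclideanSpace ℂ (Fin n)) : ℝ :=
  fderiv ℝ ρ z X

/-- The Levi form (complex Hessian) of the real function `ρ` at `z` in the direction `X`:
`∑ ∂²ρ/∂z_j∂z̄_k X_j X̄_k = (D²ρ(z)(X, X) + D²ρ(z)(iX, iX)) / 4`, where `D²ρ(z)(X, X)` is the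
derivative of `y ↦ dρ(y) X` at `z` in the direction `X`. -/
noncomputable def leviHessian (ρ : EuclideanSpace ℂ (Fin n) → ℝ)
    (z X : EuclideanSpace ℂ (Fin n)) : ℝ :=
  (dirDeriv (fun y => dirDeriv ρ y X) z X +
    dirDeriv (fun y => dirDeriv ρ y (Complex.I • X)) z (Complex.I • X)) / 4

/-- The function `ρ` is a strictly pseudoconvex defining function at `z`: `dρ(z) ≠ 0`, and the Levi
form of `ρ` at `z` is positive definite on the complex tangent space
`{X : dρ(z) X = dρ(z) (iX) = 0}`. -/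
def StrictlyPscAt (ρ : EuclideanSpace ℂ (Fin n) → ℝ) (z : EuclideanSpace ℂ (Fin n)) : Prop :=
  (∃ X, dirDeriv ρ z X ≠ 0) ∧ ∀ X : EuclideanSpace ℂ (Fin n), X ≠ 0 → dirDeriv ρ z X = 0 →
    dirDeriv ρ z (Complex.I • X) = 0 → 0 < leviHessian ρ z X

/-- `D` is a strictly pseudoconvex domain with smooth boundary: `D` is bounded and open,
`D = {z ∈ W | ρ z < 0}` with a real `C^∞` function `ρ` on a neighbourhood `W` of the closure of `D`,
and at every boundary point `dρ ≠ 0` and the Levi form of `ρ` is positive definite on the complex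
tangent space. (`D` need not be connected.) -/
def IsStrictlyPscDomain (D : Set (EuclideanSpace ℂ (Fin n))) : Prop :=
  Bornology.IsBounded D ∧ ∃ (W : Set (EuclideanSpace ℂ (Fin n)))
    (ρ : EuclideanSpace ℂ (Fin n) → ℝ), IsOpen W ∧ closure D ⊆ W ∧ ContDiffOn ℝ ∞ ρ W ∧
    D = {z | z ∈ W ∧ ρ z < 0} ∧ ∀ z ∈ frontier D, StrictlyPscAt ρ z

end Pool.Agent.Lib.MP_ca0fc2_an
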