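import Mathlib

set_option autoImplicit false

open Metric Set
open scoped InnerProductSpace

namespace Pool.Agent.Lib.MP_ca0fc2_an

variable {E : Type*} [NormedAddCommGroup E] [InnerProductSpace ℂ E]

/-- The equation `∑ j, f j * h j = 1` has a solution `h` that is holomorphic on `D` and bounded
by `C` there. -/
def SolvableOn {N : ℕ} (f : Fin N → E → ℂ) (D : Set E) (C : ℝ) : Prop :=
  ∃ h : Fin N → E → ℂ, (∀ j, DifferentiableOn ℂ (h j) D) ∧ (∀ j, ∀ z ∈ D, ‖h j z‖ ≤ C) ∧
    ∀ z ∈ D, ∑ j, f j z * h j z = 1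

/-- `φ` is a holomorphic automorphism of the open unit ball, and `ψ` is its inverse. -/
structure IsBallAut (φ ψ : E → E) : Prop where
  hol : DifferentiableOn ℂ φ (ball 0 1)
  hol' : DifferentiableOn ℂ ψ (ball 0 1)
  map : ∀ z ∈ ball (0 : E) 1, φ z ∈ ball (0 : E) 1
  map' : ∀ z ∈ ball (0 : E) 1, ψ z ∈ ball (0 : E) 1
  left : ∀ z ∈ ball (0 : E) 1, ψ (φ z) = z
  right : ∀ z ∈ ball (0 : E) 1, φ (ψ z) = z

/-- The cell of relative size `η` around `z₀`, with respect to the complex line which the
automorphism `φ` maps to the complex line through `0` and `e`. In the coordinates given by `φ` it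
is an anisotropic polydisc around `φ z₀`: its size is comparable with `1 - |⟨φ z₀, e⟩|` in the
direction of the line and with the square root of this number in the other directions. -/
def lineCell (e : E) (η : ℝ) (φ : E → E) (z₀ : E) : Set E :=
  {w | ‖⟪e, φ w - φ z₀⟫_ℂ‖ < η * (1 - ‖⟪e, φ z₀⟫_ℂ‖) ∧
    ‖φ w - φ z₀‖ ^ 2 < η * (1 - ‖⟪e, φ z₀⟫_ℂ‖)}

/-- Solvability after `k` successive subdivisions. `SolvableAtDepth f C η 0 D` says that the
equation is solvable on `D` with the bound `C`; and `SolvableAtDepth f C η (k + 1) D` says that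
there is a complex line such that all the pieces of `D` cut out by the cells of relative size `η`
with respect to this line satisfy `SolvableAtDepth f C η k`. (The line may depend on `D`, so at
the next step it may depend on the piece.) -/
def SolvableAtDepth {N : ℕ} (f : Fin N → E → ℂ) (C η : ℝ) : ℕ → Set E → Prop
  | 0, D => SolvableOn f D C
  | k + 1, D => ∃ (e : E) (φ ψ : E → E), ‖e‖ = 1 ∧ IsBallAut φ ψ ∧
      ∀ z₀ ∈ D, SolvableAtDepth f C η k (D ∩ lineCell e η φ z₀)

end Pool.Agent.Lib.MP_ca0fc2_an
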