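import Mathlib

set_option autoImplicit false

open Metric Set
open scoped InnerProductSpace

namespace Pool.Agent.Lib.MP_ca0fc2_an

variable {E : Type*} [NormedAddCommGroup E] [InnerProductSpace ℂ E]

/-- The kernel `(M² - u(z) conj (u(w))) / (1 - ⟨z, w⟩)` on the unit ball is positive semidefinite:
`u` is a multiplier of norm at most `M` of the Drury-Arveson space, the Hilbert space of holomorphic
functions on the unit ball with the reproducing kernel `1 / (1 - ⟨z, w⟩)`. -/
def DAMultiplier (M : ℝ) (u : E → ℂ) : Prop :=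
  DifferentiableOn ℂ u (ball 0 1) ∧ ∀ (k : ℕ) (z : Fin k → E) (c : Fin k → ℂ),
    (∀ i, z i ∈ ball (0 : E) 1) →
      0 ≤ (∑ i, ∑ j, c i * (starRingEnd ℂ) (c j) *
        (((M ^ 2 : ℝ) : ℂ) - u (z i) * (starRingEnd ℂ) (u (z j))) / (1 - ⟪z j, z i⟫_ℂ)).re

end Pool.Agent.Lib.MP_ca0fc2_an
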