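import Mathlib

/-!
# The algebras `H^∞(D)` and their characters
-/

set_option autoImplicit false

open Metric Set

namespace Pool.Agent.Lib.MP_ca0fc2_an

/-- `f` belongs to `H^∞(D)`: it is holomorphic and bounded on `D`. -/
def IsHinf {n : ℕ} (D : Set (EuclideanSpace ℂ (Fin n))) (f : EuclideanSpace ℂ (Fin n) → ℂ) :
    Prop :=
  DifferentiableOn ℂ f D ∧ ∃ M : ℝ, ∀ z ∈ D, ‖f z‖ ≤ M

/-- `m` is a character of the algebra `H^∞(D)`. It is given as a functional on functions on `ℂⁿ`,
whose values at the functions `f` in `H^∞(D)` depend only on the restrictions of `f` to `D`, and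
which is multiplicative, linear and unital on `H^∞(D)`; its values at other functions are of no
importance. -/
structure IsCharacter {n : ℕ} (D : Set (EuclideanSpace ℂ (Fin n)))
    (m : (EuclideanSpace ℂ (Fin n) → ℂ) → ℂ) : Prop where
  congr : ∀ f g, IsHinf D f → IsHinf D g → (∀ z ∈ D, f z = g z) → m f = m g
  one : m (fun _ => 1) = 1
  smul : ∀ (c : ℂ) (f), IsHinf D f → m (fun z => c * f z) = c * m f
  add : ∀ f g, IsHinf D f → IsHinf D g → m (fun z => f z + g z) = m f + m g
  mul : ∀ f g, IsHinf D f → IsHinf D g → m (fun z => f z * g z) = m f * m g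

end Pool.Agent.Lib.MP_ca0fc2_an
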