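import Mathlib
import Pool.Agent.Lib.MP_ca0fc2_an.Mg.G049
import Pool.Agent.Lib.MP_ca0fc2_an.Mg.G048
import Pool.Agent.Lib.MP_ca0fc2_an.Mg.G050

set_option autoImplicit false

open Metric Set MeasureTheory Filter Topology
open scoped InnerProductSpace ENNReal

namespace Pool.Agent.MPca0fc2.PT

variable {E : Type*} [NormedAddCommGroup E] [InnerProductSpace ℂ E]

theorem gd_chain {u : E → ℂ} (hu : DifferentiableOn ℂ u (ball 0 1)) {y x : E} (hy : ‖y‖ < 1)
    (hx : ‖x‖ < 1) (v : E) :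
    fderiv ℂ (fun x => u (gg y x)) x v = fderiv ℂ u (gg y x) (gg' y x v) := by
  have h1 : HasFDerivAt u (fderiv ℂ u (gg y x)) (gg y x) :=
    (hu.differentiableAt (isOpen_ball.mem_nhds
      (by rw [mem_ball_zero_iff]; exact gg_lt hy hx))).hasFDerivAt
  have h2 := h1.comp x (hasFDerivAt_gg hy hx.le)
  have h3 : fderiv ℂ (fun x => u (gg y x)) x = (fderiv ℂ u (gg y x)).comp (gg' y x) := h2.fderiv
  rw [h3]; rfl

theorem gd_diff {u : E → ℂ} (hu : DifferentiableOn ℂ u (ball 0 1)) {y : E} (hy : ‖y‖ < 1) :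
    DifferentiableOn ℂ (fun x => u (gg y x)) (ball 0 1) := by
  intro x hx
  rw [mem_ball_zero_iff] at hx
  have h1 : HasFDerivAt u (fderiv ℂ u (gg y x)) (gg y x) :=
    (hu.differentiableAt (isOpen_ball.mem_nhds
      (by rw [mem_ball_zero_iff]; exact gg_lt hy hx))).hasFDerivAt
  have h2 := h1.comp x (hasFDerivAt_gg hy hx.le)
  exact h2.differentiableAt.differentiableWithinAt

theorem gd_schwarz {F : E → ℂ} {M : ℝ} (hF : DifferentiableOn ℂ F (ball 0 1))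
    (hM : ∀ z ∈ ball (0 : E) 1, ‖F z‖ ≤ M) (v : E) : ‖fderiv ℂ F 0 v‖ ≤ M * ‖v‖ := by
  have hM0 : 0 ≤ M := (norm_nonneg _).trans (hM 0 (mem_ball_self one_pos))
  rcases eq_or_ne v 0 with hv | hv
  · simp [hv]
  have hv0 : 0 < ‖v‖ := norm_pos_iff.mpr hv
  have key : ∀ R : ℝ, 0 < R → R * ‖v‖ < 1 → ‖fderiv ℂ F 0 v‖ ≤ M / R := by
    intro R hR hRv
    have hmaps : ∀ t ∈ closedBall (0 : ℂ) R, t • v ∈ ball (0 : E) 1 := by
      intro t ht
      rw [mem_closedBall_zero_iff] at ht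
      rw [mem_ball_zero_iff, norm_smul]
      calc ‖t‖ * ‖v‖ ≤ R * ‖v‖ := by gcongr
        _ < 1 := hRv
    have hd : DifferentiableOn ℂ (fun t : ℂ => F (t • v)) (closedBall 0 R) := by
      apply hF.comp
      · exact (differentiable_id.smul_const v).differentiableOn
      · exact hmaps
    have hdc : DiffContOnCl ℂ (fun t : ℂ => F (t • v)) (ball 0 R) := by
      refine DifferentiableOn.diffContOnCl ?_
      rw [closure_ball _ hR.ne']
      exact hd
    have h := Complex.norm_deriv_le_of_forall_mem_sphere_norm_le hR hdc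
      (C := M) (fun z hz => hM _ (hmaps z (sphere_subset_closedBall hz)))
    have hder : HasDerivAt (fun t : ℂ => F (t • v)) (fderiv ℂ F 0 v) 0 := by
      have h1 : HasFDerivAt F (fderiv ℂ F 0) ((0 : ℂ) • v) := by
        rw [zero_smul]
        exact (hF.differentiableAt (ball_mem_nhds 0 one_pos)).hasFDerivAt
      have h2 : HasDerivAt (fun t : ℂ => t • v) v 0 := by
        simpa using ((hasDerivAt_id (0 : ℂ)).smul_const v)
      exact h1.comp_hasDerivAt (0 : ℂ) h2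
    rw [hder.deriv] at h
    exact h
  -- let `R → 1 / ‖v‖`
  by_contra hcon
  push Not at hcon
  have hpos : 0 < ‖fderiv ℂ F 0 v‖ := lt_of_le_of_lt (by positivity) hcon
  rcases hM0.eq_or_lt with h0 | h0
  · have := key (1 / (2 * ‖v‖)) (by positivity) (by field_simp; norm_num)
    rw [← h0, zero_div] at this
    linarith
  · set D := ‖fderiv ℂ F 0 v‖ with hD
    -- choose `R` with `M / D < R < 1/‖v‖`
    have h1 : M / D < 1 / ‖v‖ := by
      rw [div_lt_div_iff₀ hpos hv0]; linarith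
    obtain ⟨R, hR1, hR2⟩ := exists_between h1
    have hR0 : 0 < R := lt_trans (by positivity) hR1
    have h2 := key R hR0 (by rw [lt_div_iff₀ hv0] at hR2; exact hR2)
    rw [le_div_iff₀ hR0] at h2
    rw [div_lt_iff₀ hpos] at hR1
    linarith

variable [FiniteDimensional ℂ E]

theorem gd_IG {u : E → ℂ} {w : E} (hw : ‖w‖ < 1) (v : E) :
    ‖fderiv ℂ u w (gg' w 0 v)‖ ≤ Real.sqrt (IG2 u w) * ‖v‖ := by
  have hcomp : CompleteSpace E := FiniteDimensional.complete ℂ E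
  set L := fderiv ℂ u w with hL
  set a : E := (InnerProductSpace.toDual ℂ E).symm L with ha
  have hLa : ∀ x, L x = ⟪a, x⟫_ℂ := by
    intro x
    rw [ha, InnerProductSpace.toDual_symm_apply]
  have hLn : ‖L‖ = ‖a‖ := by rw [ha, LinearIsometryEquiv.norm_map]
  set s := ss w with hs
  have hs2 : s ^ 2 = 1 - ‖w‖ ^ 2 := by
    rw [hs, ss, Real.sq_sqrt]
    nlinarith [norm_nonneg w]
  have hs0 : 0 ≤ s := Real.sqrt_nonneg _
  set b : E := ((s : ℝ) : ℂ) • a - (((s / (1 + s) : ℝ) : ℂ) * ⟪w, a⟫_ℂ) • w with hb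
  have h1s : (1 + (s : ℂ)) ≠ 0 := by
    have : (1 + s) ≠ 0 := by positivity
    exact_mod_cast this
  have hgv : L (gg' w 0 v) = ⟪b, v⟫_ℂ := by
    rw [hLa, gg', AA, gg_zero]
    simp only [inner_zero_right, add_zero, inv_one, one_smul, ContinuousLinearMap.sub_apply,
      ContinuousLinearMap.add_apply, ContinuousLinearMap.smul_apply,
      ContinuousLinearMap.smulRight_apply, innerSL_apply_apply, ContinuousLinearMap.id_apply]
    rw [hb]
    simp only [inner_sub_right, inner_add_right, inner_smul_right, inner_sub_left, inner_smul_left,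
      map_mul, Complex.conj_ofReal, inner_conj_symm, ← hs]
    push_cast
    field_simp
    ring
  have hbn : ‖b‖ ^ 2 = IG2 u w := by
    rw [IG2, ← hL, hLn, hLa w]
    have h2 : ((‖b‖ ^ 2 : ℝ) : ℂ) = ⟪b, b⟫_ℂ := by
      rw [inner_self_eq_norm_sq_to_K]; norm_cast
    have h3 : ((‖a‖ ^ 2 : ℝ) : ℂ) = ⟪a, a⟫_ℂ := by
      rw [inner_self_eq_norm_sq_to_K]; norm_cast
    have h4 : ((‖w‖ ^ 2 : ℝ) : ℂ) = ⟪w, w⟫_ℂ := by
      rw [inner_self_eq_norm_sq_to_K]; norm_cast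
    have h5 : ((‖⟪a, w⟫_ℂ‖ ^ 2 : ℝ) : ℂ) = ⟪a, w⟫_ℂ * ⟪w, a⟫_ℂ := by
      rw [← Complex.normSq_eq_norm_sq, ← Complex.mul_conj, inner_conj_symm]
    have h6 : ((s : ℂ)) ^ 2 = 1 - ⟪w, w⟫_ℂ := by
      rw [← h4, ← Complex.ofReal_pow, hs2]; push_cast; ring
    apply Complex.ofReal_injective
    rw [h2]
    push_cast
    have h3' : ((‖a‖ : ℂ)) ^ 2 = ⟪a, a⟫_ℂ := by rw [← h3]; push_cast; ring
    have h4' : ((‖w‖ : ℂ)) ^ 2 = ⟪w, w⟫_ℂ := by rw [← h4]; push_cast; ring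
    have h5' : ((‖⟪a, w⟫_ℂ‖ : ℂ)) ^ 2 = ⟪a, w⟫_ℂ * ⟪w, a⟫_ℂ := by rw [← h5]; push_cast; ring
    rw [h3', h4', h5', hb]
    simp only [inner_sub_right, inner_smul_right, inner_sub_left, inner_smul_left,
      map_mul, Complex.conj_ofReal, inner_conj_symm]
    push_cast
    have hww : ⟪w, w⟫_ℂ = 1 - (s : ℂ) ^ 2 := by rw [h6]; ring
    rw [hww]
    field_simp
    ring
  have hb2 : Real.sqrt (IG2 u w) = ‖b‖ := by
    rw [← hbn, Real.sqrt_sq (norm_nonneg _)]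
  rw [hgv, hb2]
  exact norm_inner_le_norm b v

theorem gd_IG_nonneg {u : E → ℂ} {w : E} (hw : ‖w‖ < 1) : 0 ≤ IG2 u w := by
  unfold IG2
  apply mul_nonneg
  · nlinarith [norm_nonneg w]
  · have h := (fderiv ℂ u w).le_opNorm w
    have h2 : ‖fderiv ℂ u w w‖ ≤ ‖fderiv ℂ u w‖ := by
      calc ‖fderiv ℂ u w w‖ ≤ ‖fderiv ℂ u w‖ * ‖w‖ := h
        _ ≤ ‖fderiv ℂ u w‖ * 1 := by gcongr
        _ = _ := mul_one _
    have h3 := pow_le_pow_left₀ (norm_nonneg _) h2 2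
    linarith

variable [MeasurableSpace E] [BorelSpace E]

theorem grad_bounded {u : E → ℂ} {M : ℝ} (hu : DifferentiableOn ℂ u (ball 0 1))
    (hM : ∀ z ∈ ball (0 : E) 1, ‖u z‖ ≤ M) {y : E} (hy : ‖y‖ < 1) (X : E) :
    ‖fderiv ℂ u y X‖ ≤ 3 * M * gau (1 - ‖y‖ ^ 2) y X := by
  have hM0 : 0 ≤ M := (norm_nonneg _).trans (hM 0 (mem_ball_self one_pos))
  obtain ⟨v, hv, hvn⟩ := gg'_zero_surj hy X
  have h1 := gd_chain hu hy (x := 0) (by simp) v
  rw [gg_zero, hv] at h1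
  rw [← h1]
  have h2 := gd_schwarz (gd_diff hu hy) (M := M) (by
    intro z hz
    rw [mem_ball_zero_iff] at hz
    exact hM _ (by rw [mem_ball_zero_iff]; exact gg_lt hy hz)) v
  calc _ ≤ M * ‖v‖ := h2
    _ ≤ M * (3 * gau (1 - ‖y‖ ^ 2) y X) := by gcongr
    _ = _ := by ring

theorem gd_IG_meas (u : E → ℂ) : Measurable (IG2 u) := by
  have : ProperSpace E := FiniteDimensional.proper ℂ E
  have h1 : Measurable (fderiv ℂ u) := measurable_fderiv ℂ u
  have h2 : Measurable (fun z => fderiv ℂ u z z) :=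
    (ContinuousLinearMap.measurable_apply₂ (𝕜 := ℂ)).comp (h1.prodMk measurable_id)
  unfold IG2
  exact (measurable_const.sub (measurable_norm.pow_const 2)).mul
    ((h1.norm.pow_const 2).sub (h2.norm.pow_const 2))

theorem gd_HH_meas (y : E) : Measurable (HH y) := by
  unfold HH
  have h1 : Measurable (fun ξ : E => ‖1 - ⟪y, ξ⟫_ℂ‖) := by
    apply Continuous.measurable
    fun_prop
  exact (measurable_const.mul (measurable_const.sub (measurable_norm.pow_const 2))).div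
    (h1.pow_const 2)

theorem gd_EE (μ : Measure E) [μ.IsAddHaarMeasure] {m : ℕ}
    (hdim : Module.finrank ℂ E = m + 1) {p : ℝ} (u : E → ℂ) {A : ℝ}
    (hC : Carl (nu μ m p u) A) {y : E} (hy : ‖y‖ < 1) :
    ENNReal.ofReal (EE (nu μ m p u) y) = ∫⁻ x in ball (0 : E) 1,
      ENNReal.ofReal ((1 - ‖x‖ ^ 2) ^ 2 * (IG2 u (gg y x) ^ (p / 2) / (1 - ‖x‖ ^ 2) ^ (m + 2))) ∂μ := by
  rw [EE, ofReal_integral_eq_lintegral_ofReal (EE_integrable hC hy)
    (ae_of_all _ fun _ => sq_nonneg _), nu,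
    lintegral_withDensity_eq_lintegral_mul]
  rotate_left
  · apply ENNReal.measurable_ofReal.comp
    exact ((gd_IG_meas u).pow_const (p / 2)).div
      ((measurable_const.sub (measurable_norm.pow_const 2)).pow_const (m + 2))
  · exact ENNReal.measurable_ofReal.comp ((gd_HH_meas y).pow_const 2)
  rw [lintegral_gg μ hdim hy]
  apply setLIntegral_congr_fun measurableSet_ball
  intro x hx
  rw [mem_ball_zero_iff] at hx
  simp only [Pi.mul_apply]
  have hgx := gg_lt hy hx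
  have h1 : HH y (gg y x) = 1 - ‖x‖ ^ 2 := by
    have h2 := HH_gg hy (x := (0 : E)) (y := x) (by simp) hx
    rw [gg_zero] at h2
    rw [h2, HH]
    simp
  have h3 := norm_gg hy hx.le
  have hpos : 0 < 1 - ‖x‖ ^ 2 := by nlinarith [norm_nonneg x]
  have hpos2 : 0 < 1 - ‖y‖ ^ 2 := by nlinarith [norm_nonneg y]
  have hpos3 : 0 < ‖1 + ⟪y, x⟫_ℂ‖ := norm_pos_iff.mpr (one_add_ne hy hx.le)
  rw [h1, h3, ← ENNReal.ofReal_mul, ← ENNReal.ofReal_mul]
  · congr 1
    rw [div_pow, div_pow, mul_pow]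
    field_simp
  · positivity
  · apply div_nonneg (Real.rpow_nonneg (gd_IG_nonneg hgx) _)
    positivity

theorem gd_mean (μ : Measure E) [μ.IsAddHaarMeasure] {p : ℝ} (hp : 1 ≤ p) {F : E → ℂ}
    (hF : DifferentiableOn ℂ F (ball 0 1)) (v : E) :
    ENNReal.ofReal ‖fderiv ℂ F 0 v‖ ^ p * μ (ball 0 (1 / 2)) ≤
      ∫⁻ x in ball (0 : E) (1 / 2), ENNReal.ofReal ‖fderiv ℂ F x v‖ ^ p ∂μ := by
  have hprop : ProperSpace E := FiniteDimensional.proper ℂ E
  obtain ⟨M, hM⟩ := (isCompact_closedBall (0 : E) (3 / 4)).exists_bound_of_continuousOn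
      (hF.continuousOn.mono (closedBall_subset_ball (by norm_num)))
  have hG : DifferentiableOn ℂ (fun x => fderiv ℂ F x v) (ball 0 (3 / 4)) :=
    Pool.Agent.Lib.MP_ca0fc2_an.differentiableOn_fderiv_apply isOpen_ball
      (hF.mono (ball_subset_ball (by norm_num)))
      (fun z hz => hM z (ball_subset_closedBall hz)) v
  obtain ⟨M', hM'⟩ := (isCompact_closedBall (0 : E) (1 / 2)).exists_bound_of_continuousOn
      (hG.continuousOn.mono (closedBall_subset_ball (by norm_num)))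
  have hmean := SD.fiber_mean μ (hG.mono (ball_subset_ball (by norm_num : (1 : ℝ) / 2 ≤ 3 / 4)))
    (M := M') (fun z hz => hM' z (ball_subset_closedBall hz))
  set μ' := μ.restrict (ball (0 : E) (1 / 2)) with hμ'
  set V := μ (ball (0 : E) (1 / 2)) with hV
  have hV0 : V ≠ 0 := (measure_ball_pos μ 0 (by norm_num)).ne'
  have hVt : V ≠ ∞ := measure_ball_lt_top.ne
  have hGm : AEStronglyMeasurable (fun x => fderiv ℂ F x v) μ' :=
    (measurable_fderiv_apply_const ℂ F v).aestronglyMeasurable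
  have h1 : ENNReal.ofReal ‖fderiv ℂ F 0 v‖ * V ≤ eLpNorm (fun x => fderiv ℂ F x v) 1 μ' := by
    rw [eLpNorm_one_eq_lintegral_enorm]
    have h2 : ‖∫ x, fderiv ℂ F x v ∂μ'‖ₑ ≤ ∫⁻ x, ‖fderiv ℂ F x v‖ₑ ∂μ' :=
      enorm_integral_le_lintegral_enorm _
    rw [hmean, enorm_mul] at h2
    have h3 : ‖((μ.real (ball (0 : E) (1 / 2)) : ℝ) : ℂ)‖ₑ = V := by
      rw [← ofReal_norm_eq_enorm, Complex.norm_real, Real.norm_of_nonneg measureReal_nonneg,
        ofReal_measureReal]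
    rw [h3, ← ofReal_norm_eq_enorm, mul_comm] at h2
    exact h2
  have h4 := eLpNorm_le_eLpNorm_mul_rpow_measure_univ (p := 1) (q := ENNReal.ofReal p)
    (by rw [← ENNReal.ofReal_one]; exact ENNReal.ofReal_le_ofReal hp) hGm
  have hp0 : 0 < p := by linarith
  rw [ENNReal.toReal_one, ENNReal.toReal_ofReal hp0.le, hμ', Measure.restrict_apply_univ,
    ← hμ', ← hV] at h4
  have h5 : eLpNorm (fun x => fderiv ℂ F x v) (ENNReal.ofReal p) μ' =
      (∫⁻ x, ENNReal.ofReal ‖fderiv ℂ F x v‖ ^ p ∂μ') ^ (1 / p) := by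
    rw [eLpNorm_eq_lintegral_rpow_enorm_toReal (by simpa using hp0) ENNReal.ofReal_ne_top,
      ENNReal.toReal_ofReal hp0.le]
    simp only [ofReal_norm_eq_enorm]
  rw [h5] at h4
  have h6 := h1.trans h4
  have h7 := ENNReal.rpow_le_rpow h6 hp0.le
  rw [ENNReal.mul_rpow_of_nonneg _ _ hp0.le, ENNReal.mul_rpow_of_nonneg _ _ hp0.le,
    ← ENNReal.rpow_mul, ← ENNReal.rpow_mul, one_div, inv_mul_cancel₀ hp0.ne', ENNReal.rpow_one] at h7
  have h8 : (1 / 1 - p⁻¹) * p = p - 1 := by field_simp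
  rw [h8] at h7
  have h9 : V ^ p = V * V ^ (p - 1) := by
    have h9' := ENNReal.rpow_add 1 (p - 1) hV0 hVt
    rw [add_sub_cancel, ENNReal.rpow_one] at h9'
    exact h9'
  rw [h9, ← mul_assoc] at h7
  have h10 : V ^ (p - 1) ≠ 0 := by
    rw [Ne, ENNReal.rpow_eq_zero_iff]
    push Not
    exact ⟨fun h => absurd h hV0, fun h => absurd h hVt⟩
  have h11 : V ^ (p - 1) ≠ ∞ := ENNReal.rpow_ne_top_of_nonneg (by linarith) hVt
  exact (ENNReal.mul_le_mul_iff_left h10 h11).mp h7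

theorem grad_bound (μ : Measure E) [μ.IsAddHaarMeasure] {m : ℕ}
    (hdim : Module.finrank ℂ E = m + 1) {p : ℝ} (hp : 1 ≤ p) :
    ∃ C : ℝ, 0 < C ∧ ∀ (u : E → ℂ) (A : ℝ), DifferentiableOn ℂ u (ball 0 1) →
      Carl (nu μ m p u) A → ∀ y : E, ‖y‖ < 1 → ∀ X : E,
      ‖fderiv ℂ u y X‖ ≤ C * EE (nu μ m p u) y ^ (1 / p) * gau (1 - ‖y‖ ^ 2) y X := by
  have hprop : ProperSpace E := FiniteDimensional.proper ℂ E
  have hp0 : 0 < p := by linarith
  set V : ℝ := μ.real (ball (0 : E) (1 / 2)) with hV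
  have hV0 : 0 < V :=
    ENNReal.toReal_pos (measure_ball_pos μ 0 (by norm_num)).ne' measure_ball_lt_top.ne
  have hVV : μ (ball (0 : E) (1 / 2)) = ENNReal.ofReal V := by
    rw [hV, ofReal_measureReal]
  refine ⟨72 * (16 / (9 * V)) ^ (1 / p), by positivity, ?_⟩
  intro u A hu hC y hy X
  obtain ⟨v, hv, hvn⟩ := gg'_zero_surj hy X
  have hgau : 0 ≤ gau (1 - ‖y‖ ^ 2) y X := by
    unfold gau
    have : 0 < 1 - ‖y‖ ^ 2 := by nlinarith [norm_nonneg y]
    positivity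
  have hEE : 0 ≤ EE (nu μ m p u) y := EE_nonneg _ _
  set F : E → ℂ := fun x => u (gg y x) with hF
  have hFd : DifferentiableOn ℂ F (ball 0 1) := gd_diff hu hy
  have h0 : fderiv ℂ F 0 v = fderiv ℂ u y X := by
    have := gd_chain hu hy (x := 0) (by simp) v
    rw [gg_zero, hv] at this
    exact this
  have hmean := gd_mean μ hp hFd v
  rw [h0, hVV] at hmean
  have hpt : ∀ x ∈ ball (0 : E) (1 / 2), ENNReal.ofReal ‖fderiv ℂ F x v‖ ^ p ≤
      ENNReal.ofReal ((24 * ‖v‖) ^ p * (16 / 9)) *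
      ENNReal.ofReal ((1 - ‖x‖ ^ 2) ^ 2 *
        (IG2 u (gg y x) ^ (p / 2) / (1 - ‖x‖ ^ 2) ^ (m + 2))) := by
    intro x hx
    rw [mem_ball_zero_iff] at hx
    have hx1 : ‖x‖ < 1 := by linarith
    have hgx := gg_lt hy hx1
    have hIG := gd_IG_nonneg (u := u) hgx
    obtain ⟨v', hv', hvn'⟩ := gg'_zero_surj hgx (gg' y x v)
    have hx2 : ‖x‖ ^ 2 ≤ 1 / 4 := by nlinarith [norm_nonneg x]
    have h1 : ‖fderiv ℂ F x v‖ ≤ Real.sqrt (IG2 u (gg y x)) * (24 * ‖v‖) := by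
      rw [hF, gd_chain hu hy hx1 v, ← hv']
      calc _ ≤ Real.sqrt (IG2 u (gg y x)) * ‖v'‖ := gd_IG hgx v'
        _ ≤ Real.sqrt (IG2 u (gg y x)) * (24 * ‖v‖) := by
          gcongr
          calc ‖v'‖ ≤ 3 * gau (1 - ‖gg y x‖ ^ 2) (gg y x) (gg' y x v) := hvn'
            _ ≤ 3 * (6 * ‖v‖ / (1 - ‖x‖ ^ 2)) := by
              gcongr
              exact gau_gg hy hx1
            _ ≤ 3 * (6 * ‖v‖ / (3 / 4)) := by
              gcongr
              linarith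
            _ = 24 * ‖v‖ := by ring
    rw [ENNReal.ofReal_rpow_of_nonneg (norm_nonneg _) hp0.le, ← ENNReal.ofReal_mul (by positivity)]
    apply ENNReal.ofReal_le_ofReal
    have hq : 0 ≤ IG2 u (gg y x) ^ (p / 2) := Real.rpow_nonneg hIG _
    calc ‖fderiv ℂ F x v‖ ^ p ≤ (Real.sqrt (IG2 u (gg y x)) * (24 * ‖v‖)) ^ p := by
          gcongr
      _ = (24 * ‖v‖) ^ p * IG2 u (gg y x) ^ (p / 2) := by
          rw [Real.mul_rpow (Real.sqrt_nonneg _) (by positivity), Real.sqrt_eq_rpow,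
            ← Real.rpow_mul hIG, mul_comm]
          congr 2
          ring
      _ ≤ (24 * ‖v‖) ^ p * (16 / 9 * ((1 - ‖x‖ ^ 2) ^ 2 *
            (IG2 u (gg y x) ^ (p / 2) / (1 - ‖x‖ ^ 2) ^ (m + 2)))) := by
          gcongr
          have hd0 : 3 / 4 ≤ 1 - ‖x‖ ^ 2 := by linarith
          have hd1 : 1 - ‖x‖ ^ 2 ≤ 1 := by nlinarith [norm_nonneg x]
          have h2 : IG2 u (gg y x) ^ (p / 2) ≤
              IG2 u (gg y x) ^ (p / 2) / (1 - ‖x‖ ^ 2) ^ (m + 2) := by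
            rw [le_div_iff₀ (by positivity)]
            have : (1 - ‖x‖ ^ 2) ^ (m + 2) ≤ 1 := pow_le_one₀ (by linarith) hd1
            nlinarith
          have h3 : 1 ≤ 16 / 9 * (1 - ‖x‖ ^ 2) ^ 2 := by nlinarith
          calc IG2 u (gg y x) ^ (p / 2) ≤ IG2 u (gg y x) ^ (p / 2) / (1 - ‖x‖ ^ 2) ^ (m + 2) := h2
            _ = 1 * (IG2 u (gg y x) ^ (p / 2) / (1 - ‖x‖ ^ 2) ^ (m + 2)) := (one_mul _).symm
            _ ≤ (16 / 9 * (1 - ‖x‖ ^ 2) ^ 2) *
                (IG2 u (gg y x) ^ (p / 2) / (1 - ‖x‖ ^ 2) ^ (m + 2)) := by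
              gcongr
            _ = _ := by ring
      _ = _ := by ring
  have hint : ∫⁻ x in ball (0 : E) (1 / 2), ENNReal.ofReal ‖fderiv ℂ F x v‖ ^ p ∂μ ≤
      ENNReal.ofReal ((24 * ‖v‖) ^ p * (16 / 9)) * ENNReal.ofReal (EE (nu μ m p u) y) := by
    rw [gd_EE μ hdim u hC hy]
    calc _ ≤ ∫⁻ x in ball (0 : E) (1 / 2), ENNReal.ofReal ((24 * ‖v‖) ^ p * (16 / 9)) *
          ENNReal.ofReal ((1 - ‖x‖ ^ 2) ^ 2 *
            (IG2 u (gg y x) ^ (p / 2) / (1 - ‖x‖ ^ 2) ^ (m + 2))) ∂μ :=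
          setLIntegral_mono' measurableSet_ball hpt
      _ = ENNReal.ofReal ((24 * ‖v‖) ^ p * (16 / 9)) * ∫⁻ x in ball (0 : E) (1 / 2),
          ENNReal.ofReal ((1 - ‖x‖ ^ 2) ^ 2 *
            (IG2 u (gg y x) ^ (p / 2) / (1 - ‖x‖ ^ 2) ^ (m + 2))) ∂μ :=
          lintegral_const_mul' _ _ ENNReal.ofReal_ne_top
      _ ≤ _ := by
          gcongr
          norm_num
  have hfin := hmean.trans hint
  rw [ENNReal.ofReal_rpow_of_nonneg (norm_nonneg _) hp0.le, ← ENNReal.ofReal_mul (by positivity),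
    ← ENNReal.ofReal_mul (by positivity), ENNReal.ofReal_le_ofReal_iff (by positivity)] at hfin
  have h5 : ‖fderiv ℂ u y X‖ ^ p ≤
      (24 * ‖v‖ * (16 / (9 * V)) ^ (1 / p) * EE (nu μ m p u) y ^ (1 / p)) ^ p := by
    rw [Real.mul_rpow (by positivity) (by positivity), Real.mul_rpow (by positivity) (by positivity),
      ← Real.rpow_mul (by positivity), ← Real.rpow_mul hEE, one_div_mul_cancel hp0.ne',
      Real.rpow_one, Real.rpow_one]
    rw [← le_div_iff₀ hV0] at hfin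
    calc _ ≤ _ := hfin
      _ = _ := by field_simp
  have h6 := (Real.rpow_le_rpow_iff (norm_nonneg _) (by positivity) hp0).mp h5
  calc _ ≤ _ := h6
    _ ≤ 24 * (3 * gau (1 - ‖y‖ ^ 2) y X) * (16 / (9 * V)) ^ (1 / p) *
        EE (nu μ m p u) y ^ (1 / p) := by gcongr
    _ = _ := by ring

end Pool.Agent.MPca0fc2.PT
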