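import Mathlib
import Pool.Agent.Lib.MP_ca0fc2_an.Mg.G045
import Pool.Agent.Lib.MP_ca0fc2_an.PTGrad

set_option autoImplicit false

open Metric Set MeasureTheory Filter Topology
open scoped InnerProductSpace ENNReal

namespace Pool.Agent.MPca0fc2.PT

variable {E : Type*} [NormedAddCommGroup E] [InnerProductSpace ℂ E]

theorem inc_norm_smul {s : ℝ} (hs : 0 ≤ s) (w : E) : ‖(s : ℂ) • w‖ = s * ‖w‖ := by
  rw [norm_smul, Complex.norm_real, Real.norm_of_nonneg hs]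

theorem inc_mem_ball {s : ℝ} (hs : 0 ≤ s) {w : E} (h : s * ‖w‖ < 1) :
    (s : ℂ) • w ∈ ball (0 : E) 1 := by
  rw [mem_ball_zero_iff, inc_norm_smul hs]
  exact h

/-- mean value inequality on a radial segment -/
theorem inc_seg {u : E → ℂ} (hu : DifferentiableOn ℂ u (ball 0 1)) {w : E} {r r' K : ℝ}
    (hr0 : 0 ≤ r) (hrr : r ≤ r') (hr' : r' * ‖w‖ < 1)
    (hK : ∀ s ∈ Icc r r', ‖fderiv ℂ u ((s : ℂ) • w) w‖ ≤ K) :
    ‖u ((r' : ℂ) • w) - u ((r : ℂ) • w)‖ ≤ K * (r' - r) := by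
  have hder : ∀ s ∈ Icc r r', HasDerivWithinAt (fun s : ℝ => u ((s : ℂ) • w))
      (fderiv ℂ u ((s : ℂ) • w) w) (Icc r r') s := by
    intro s hs
    have hs0 : 0 ≤ s := hr0.trans hs.1
    have hsw : s * ‖w‖ < 1 := lt_of_le_of_lt (mul_le_mul_of_nonneg_right hs.2 (norm_nonneg _)) hr'
    have h1 : HasFDerivAt u (fderiv ℂ u ((s : ℂ) • w)) ((s : ℂ) • w) :=
      (hu.differentiableAt (isOpen_ball.mem_nhds (inc_mem_ball hs0 hsw))).hasFDerivAt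
    have h2 : HasDerivAt (fun ζ : ℂ => ζ • w) w (s : ℂ) := by
      simpa using (hasDerivAt_id (s : ℂ)).smul_const w
    have h3 : HasDerivAt (fun ζ : ℂ => u (ζ • w)) (fderiv ℂ u ((s : ℂ) • w) w) (s : ℂ) :=
      h1.comp_hasDerivAt (s : ℂ) h2
    exact h3.comp_ofReal.hasDerivWithinAt
  exact norm_image_sub_le_of_norm_deriv_le_segment' hder
    (fun s hs => hK s ⟨hs.1, hs.2.le⟩) r' ⟨hrr, le_rfl⟩

theorem inc_gau {w : E} {s : ℝ} (hs : 0 ≤ s) (hsw : s * ‖w‖ < 1) (hw : ‖w‖ ≤ 7 / 4) :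
    gau (1 - ‖(s : ℂ) • w‖ ^ 2) ((s : ℂ) • w) w ≤ 7 / 2 / (1 - s ^ 2 * ‖w‖ ^ 2) := by
  have hd : ‖(s : ℂ) • w‖ ^ 2 = s ^ 2 * ‖w‖ ^ 2 := by rw [inc_norm_smul hs]; ring
  rw [hd]
  have hsw0 : 0 ≤ s * ‖w‖ := by positivity
  have hdpos : 0 < 1 - s ^ 2 * ‖w‖ ^ 2 := by nlinarith
  have hd1 : 1 - s ^ 2 * ‖w‖ ^ 2 ≤ 1 := by nlinarith [sq_nonneg (s * ‖w‖)]
  have hsqrt : 1 - s ^ 2 * ‖w‖ ^ 2 ≤ Real.sqrt (1 - s ^ 2 * ‖w‖ ^ 2) := by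
    rw [Real.le_sqrt' hdpos]
    nlinarith
  have hin : ‖⟪(s : ℂ) • w, w⟫_ℂ‖ ≤ 7 / 4 := by
    calc ‖⟪(s : ℂ) • w, w⟫_ℂ‖ ≤ ‖(s : ℂ) • w‖ * ‖w‖ := norm_inner_le_norm _ _
      _ = s * ‖w‖ * ‖w‖ := by rw [inc_norm_smul hs]
      _ ≤ 1 * (7 / 4) := by
        apply mul_le_mul hsw.le hw (norm_nonneg _) (by norm_num)
      _ = 7 / 4 := by norm_num
  unfold gau
  have h1 : ‖⟪(s : ℂ) • w, w⟫_ℂ‖ / (1 - s ^ 2 * ‖w‖ ^ 2) ≤ 7 / 4 / (1 - s ^ 2 * ‖w‖ ^ 2) :=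
    div_le_div_of_nonneg_right hin hdpos.le
  have h2 : ‖w‖ / Real.sqrt (1 - s ^ 2 * ‖w‖ ^ 2) ≤ 7 / 4 / (1 - s ^ 2 * ‖w‖ ^ 2) :=
    div_le_div₀ (by norm_num) hw hdpos hsqrt
  calc _ ≤ 7 / 4 / (1 - s ^ 2 * ‖w‖ ^ 2) + 7 / 4 / (1 - s ^ 2 * ‖w‖ ^ 2) := add_le_add h1 h2
    _ = 7 / 2 / (1 - s ^ 2 * ‖w‖ ^ 2) := by ring

theorem inc_norm_le {θ : ℝ} (h0 : 0 < θ) (h1 : θ < 1) {i : ℕ} {w : E} (hw : ‖w‖ < RC θ i) :
    ‖w‖ ≤ 7 / 4 := by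
  have : θ ^ (i + 1) ≤ 1 := pow_le_one₀ h0.le h1.le
  unfold RC at hw
  linarith

theorem inc_rt_nonneg {θ : ℝ} (h0 : 0 < θ) (h1 : θ < 1) (i : ℕ) : 0 ≤ rt θ i := by
  have : θ ^ i ≤ 1 := pow_le_one₀ h0.le h1.le
  unfold rt
  linarith

theorem inc_rt_le_one {θ : ℝ} (h0 : 0 < θ) (i : ℕ) : rt θ i ≤ 1 := by
  have : 0 < θ ^ i := pow_pos h0 i
  unfold rt
  linarith

theorem inc_rt_mono {θ : ℝ} (h0 : 0 < θ) (h1 : θ < 1) (i : ℕ) : rt θ i ≤ rt θ (i + 1) := by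
  have : θ ^ (i + 1) ≤ θ ^ i := pow_le_pow_of_le_one h0.le h1.le (Nat.le_succ i)
  unfold rt
  linarith

theorem inc_dl_pos {θ : ℝ} (h0 : 0 < θ) (h1 : θ < 1) {i k : ℕ} (hik : i ≤ k + 1) {w : E}
    (hw : ‖w‖ < RC θ k) : 0 < dl θ i w := by
  have h2 := dl_ge h0 h1 hik hw
  have : 0 < θ ^ i := pow_pos h0 i
  linarith

/-- the depth on the segment -/
theorem inc_depth {θ : ℝ} (h0 : 0 < θ) (h1 : θ < 1) {i : ℕ} {w : E} (hw : ‖w‖ < RC θ i) {s : ℝ}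
    (hs0 : 0 ≤ s) (hs : s ≤ rt θ (i + 1)) :
    0 < 1 - s ^ 2 * ‖w‖ ^ 2 ∧ dl θ i w ≤ 32 / θ * (1 - s ^ 2 * ‖w‖ ^ 2) := by
  have h2 : 0 < dl θ (i + 1) w := inc_dl_pos h0 h1 le_rfl hw
  have h3 : dl θ (i + 1) w ≤ 1 - s ^ 2 * ‖w‖ ^ 2 := by
    have : s ^ 2 ≤ rt θ (i + 1) ^ 2 := pow_le_pow_left₀ hs0 hs 2
    have := mul_le_mul_of_nonneg_right this (sq_nonneg ‖w‖)
    unfold dl
    linarith
  have h4 := dl_succ h0 h1 hw
  refine ⟨lt_of_lt_of_le h2 h3, h4.trans ?_⟩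
  exact mul_le_mul_of_nonneg_left h3 (by positivity)

theorem inc_gau_seg {θ : ℝ} (h0 : 0 < θ) (h1 : θ < 1) {i : ℕ} {w : E} (hw : ‖w‖ < RC θ i) {s : ℝ}
    (hs0 : 0 ≤ s) (hs : s ≤ rt θ (i + 1)) :
    gau (1 - ‖(s : ℂ) • w‖ ^ 2) ((s : ℂ) • w) w ≤ 7 / 2 * (32 / θ) / dl θ i w := by
  obtain ⟨h2, h3⟩ := inc_depth h0 h1 hw hs0 hs
  have h4 : s * ‖w‖ < 1 :=
    lt_of_le_of_lt (mul_le_mul_of_nonneg_right hs (norm_nonneg _)) (rt_mul_lt h0 h1 le_rfl hw)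
  refine (inc_gau hs0 h4 (inc_norm_le h0 h1 hw)).trans ?_
  have h5 : 0 < dl θ i w := inc_dl_pos h0 h1 (Nat.le_succ i) hw
  rw [div_le_div_iff₀ h2 h5]
  have := mul_le_mul_of_nonneg_left h3 (show (0:ℝ) ≤ 7 / 2 by norm_num)
  linarith

variable [FiniteDimensional ℂ E] [MeasurableSpace E] [BorelSpace E]

/-- comparison of potentials on the segment -/
theorem inc_EE {θ : ℝ} (h0 : 0 < θ) (h1 : θ < 1) {ν : Measure E} {A : ℝ} (h : Carl ν A) {i : ℕ}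
    {w : E} (hw : ‖w‖ < RC θ i) {s : ℝ} (hs0 : rt θ i ≤ s) (hs : s ≤ rt θ (i + 1)) {p : ℝ}
    (hp : 1 ≤ p) :
    EE ν ((s : ℂ) • w) ^ (1 / p) ≤ 16 * (32 / θ) ^ 2 * EE ν ((rt θ i : ℂ) • w) ^ (1 / p) := by
  have hr0 := inc_rt_nonneg h0 h1 i
  have hs00 : 0 ≤ s := hr0.trans hs0
  obtain ⟨h2, h3⟩ := inc_depth h0 h1 hw hs00 hs
  have h4 : s * ‖w‖ < 1 :=
    lt_of_le_of_lt (mul_le_mul_of_nonneg_right hs (norm_nonneg _)) (rt_mul_lt h0 h1 le_rfl hw)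
  have h4' : rt θ i * ‖w‖ < 1 := rt_mul_lt h0 h1 (Nat.le_succ i) hw
  have h5 : 0 < dl θ i w := inc_dl_pos h0 h1 (Nat.le_succ i) hw
  have h6 := HH_radial' hr0 hs0 h4
  have h7 := EE_compare h (x := (s : ℂ) • w) (y := (rt θ i : ℂ) • w)
    (by rw [inc_norm_smul hs00]; exact h4) (by rw [inc_norm_smul hr0]; exact h4')
  rw [HH_comm] at h7
  have h8 : (32 / θ)⁻¹ ≤ HH ((rt θ i : ℂ) • w) ((s : ℂ) • w) := by
    refine le_trans ?_ h6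
    change _ ≤ (1 - s ^ 2 * ‖w‖ ^ 2) / dl θ i w
    rw [le_div_iff₀ h5, inv_mul_le_iff₀ (by positivity)]
    exact h3
  have hK : (1:ℝ) ≤ 32 / θ := by
    rw [le_div_iff₀ h0]
    linarith
  have h9 : ((32 / θ)⁻¹) ^ 2 ≤ HH ((rt θ i : ℂ) • w) ((s : ℂ) • w) ^ 2 :=
    pow_le_pow_left₀ (by positivity) h8 2
  have hE := EE_nonneg ν ((s : ℂ) • w)
  have hE' := EE_nonneg ν ((rt θ i : ℂ) • w)
  have h10 : EE ν ((s : ℂ) • w) ≤ 16 * (32 / θ) ^ 2 * EE ν ((rt θ i : ℂ) • w) := by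
    have h11 := (mul_le_mul_of_nonneg_left h9 hE).trans h7
    rw [inv_pow, mul_inv_le_iff₀ (by positivity)] at h11
    linarith
  have hK2 : (1:ℝ) ≤ 16 * (32 / θ) ^ 2 := by nlinarith
  have hp0 : 0 < p := by linarith
  calc EE ν ((s : ℂ) • w) ^ (1 / p)
      ≤ (16 * (32 / θ) ^ 2 * EE ν ((rt θ i : ℂ) • w)) ^ (1 / p) :=
        Real.rpow_le_rpow hE h10 (by positivity)
    _ = (16 * (32 / θ) ^ 2) ^ (1 / p) * EE ν ((rt θ i : ℂ) • w) ^ (1 / p) :=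
        Real.mul_rpow (by positivity) hE'
    _ ≤ (16 * (32 / θ) ^ 2) ^ (1 : ℝ) * EE ν ((rt θ i : ℂ) • w) ^ (1 / p) := by
        refine mul_le_mul_of_nonneg_right ?_ (Real.rpow_nonneg hE' _)
        refine Real.rpow_le_rpow_of_exponent_le hK2 ?_
        rw [div_le_one hp0]
        exact hp
    _ = _ := by rw [Real.rpow_one]

omit [FiniteDimensional ℂ E] [MeasurableSpace E] [BorelSpace E] in
/-- derivative of the dilation -/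
theorem inc_hasFDerivAt {u : E → ℂ} (hu : DifferentiableOn ℂ u (ball 0 1)) {θ : ℝ} {j : ℕ} {w : E}
    (h0 : 0 ≤ rt θ j) (hw : rt θ j * ‖w‖ < 1) :
    HasFDerivAt (uk u θ j) (((fderiv ℂ u ((rt θ j : ℂ) • w)).comp
      ((rt θ j : ℂ) • ContinuousLinearMap.id ℂ E)).restrictScalars ℝ) w := by
  have h1 : HasFDerivAt u (fderiv ℂ u ((rt θ j : ℂ) • w)) ((rt θ j : ℂ) • w) :=
    (hu.differentiableAt (isOpen_ball.mem_nhds (inc_mem_ball h0 hw))).hasFDerivAt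
  have h2 : HasFDerivAt (fun w : E => (rt θ j : ℂ) • w)
      ((rt θ j : ℂ) • ContinuousLinearMap.id ℂ E) w := (hasFDerivAt_id w).const_smul _
  have h3 : HasFDerivAt (uk u θ j) ((fderiv ℂ u ((rt θ j : ℂ) • w)).comp
      ((rt θ j : ℂ) • ContinuousLinearMap.id ℂ E)) w := HasFDerivAt.comp w h1 h2
  exact h3.restrictScalars ℝ

omit [FiniteDimensional ℂ E] [MeasurableSpace E] [BorelSpace E] in
theorem inc_gau_smul {r d : ℝ} (hr0 : 0 ≤ r) (hr1 : r ≤ 1) (hd : 0 < d) (w x : E) :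
    gau d ((r : ℂ) • w) ((r : ℂ) • x) ≤ gau d w x := by
  unfold gau
  rw [inner_smul_left, inner_smul_right, norm_mul, norm_mul, Complex.norm_conj, Complex.norm_real,
    Real.norm_of_nonneg hr0, inc_norm_smul hr0]
  have h1 : r * (r * ‖⟪w, x⟫_ℂ‖) ≤ ‖⟪w, x⟫_ℂ‖ := by
    have h2 : r * ‖⟪w, x⟫_ℂ‖ ≤ ‖⟪w, x⟫_ℂ‖ := mul_le_of_le_one_left (norm_nonneg _) hr1
    exact (mul_le_of_le_one_left (by positivity) hr1).trans h2
  have h2 : r * ‖x‖ ≤ ‖x‖ := mul_le_of_le_one_left (norm_nonneg _) hr1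
  exact add_le_add (div_le_div_of_nonneg_right h1 hd.le)
    (div_le_div_of_nonneg_right h2 (Real.sqrt_nonneg _))

omit [FiniteDimensional ℂ E] [MeasurableSpace E] [BorelSpace E] in
theorem inc_gau_nonneg {d : ℝ} (hd : 0 < d) (w x : E) : 0 ≤ gau d w x := by
  unfold gau
  positivity

omit [FiniteDimensional ℂ E] [MeasurableSpace E] [BorelSpace E] in
theorem inc_gau_succ {θ : ℝ} (h0 : 0 < θ) (h1 : θ < 1) {i : ℕ} {w : E} (hw : ‖w‖ < RC θ i)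
    (x : E) : gau (dl θ (i + 1) w) w x ≤ 32 / θ * gau (dl θ i w) w x := by
  have hd1 : 0 < dl θ (i + 1) w := inc_dl_pos h0 h1 le_rfl hw
  have hd0 : 0 < dl θ i w := inc_dl_pos h0 h1 (Nat.le_succ i) hw
  have hK : (1:ℝ) ≤ 32 / θ := by
    rw [le_div_iff₀ h0]
    linarith
  have h2 := gau_mul hd1 hK w x
  have h3 := gau_anti hd0 (dl_succ h0 h1 hw) w x
  have h4 : Real.sqrt (dl θ i w / (32 / θ * dl θ (i + 1) w)) ≤ 1 := by
    rw [← Real.sqrt_one]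
    exact Real.sqrt_le_sqrt (div_le_one_of_le₀ (dl_succ h0 h1 hw) (by positivity))
  have h5 : gau (32 / θ * dl θ (i + 1) w) w x ≤ gau (dl θ i w) w x :=
    h3.trans (mul_le_of_le_one_left (inc_gau_nonneg hd0 w x) h4)
  exact h2.trans (mul_le_mul_of_nonneg_left h5 (by positivity))

theorem d_bound {ϑ : ℝ} (h0 : 0 < ϑ) (h1 : ϑ < 1) {C₀ p : ℝ} (hC₀ : 0 < C₀) (hp : 1 ≤ p) :
    ∃ C : ℝ, 0 < C ∧ ∀ (ν : Measure E) (u : E → ℂ) (M A : ℝ), HU ν u M A p C₀ →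
      ∀ (i : ℕ) (w : E), ‖w‖ < RC (ϑ ^ 32) i →
        ‖uk u (ϑ ^ 32) (i + 1) w - uk u (ϑ ^ 32) i w‖ ≤ C * Ei ν (ϑ ^ 32) i w ^ (1 / p) ∧
        ∀ x : E, ‖fderiv ℝ (fun w => uk u (ϑ ^ 32) (i + 1) w - uk u (ϑ ^ 32) i w) w x‖ ≤
          C * Ei ν (ϑ ^ 32) i w ^ (1 / p) * gau (dl (ϑ ^ 32) i w) w x := by
  have hθ0 : 0 < ϑ ^ 32 := pow_pos h0 32
  have hθ1 : ϑ ^ 32 < 1 := pow_lt_one₀ h0.le h1 (by norm_num)
  generalize ϑ ^ 32 = θ at hθ0 hθ1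
  have hK : (32:ℝ) ≤ 32 / θ := by
    rw [le_div_iff₀ hθ0]
    nlinarith
  refine ⟨300 * C₀ * (32 / θ) ^ 3, by positivity, ?_⟩
  intro ν u M A hU i w hw
  have hr0 := inc_rt_nonneg hθ0 hθ1 i
  have hr1 := inc_rt_nonneg hθ0 hθ1 (i + 1)
  have hrm := inc_rt_mono hθ0 hθ1 i
  have hrw1 : rt θ (i + 1) * ‖w‖ < 1 := rt_mul_lt hθ0 hθ1 le_rfl hw
  have hrw0 : rt θ i * ‖w‖ < 1 := rt_mul_lt hθ0 hθ1 (Nat.le_succ i) hw
  have hd0 : 0 < dl θ i w := inc_dl_pos hθ0 hθ1 (Nat.le_succ i) hw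
  have hd1 : 0 < dl θ (i + 1) w := inc_dl_pos hθ0 hθ1 le_rfl hw
  have hE0 : 0 ≤ Ei ν θ i w ^ (1 / p) := Real.rpow_nonneg (EE_nonneg ν _) _
  have hgen : ∀ s ∈ Icc (rt θ i) (rt θ (i + 1)), ∀ X : E, ‖fderiv ℂ u ((s : ℂ) • w) X‖ ≤
      C₀ * (16 * (32 / θ) ^ 2 * Ei ν θ i w ^ (1 / p)) *
        gau (1 - ‖(s : ℂ) • w‖ ^ 2) ((s : ℂ) • w) X := by
    intro s hs X
    have hs0 : 0 ≤ s := hr0.trans hs.1
    have hsw : s * ‖w‖ < 1 :=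
      lt_of_le_of_lt (mul_le_mul_of_nonneg_right hs.2 (norm_nonneg _)) hrw1
    have h2 := hU.gr ((s : ℂ) • w) (by rw [inc_norm_smul hs0]; exact hsw) X
    refine h2.trans ?_
    have h3 := inc_EE hθ0 hθ1 hU.carl hw hs.1 hs.2 hp
    have h4 : 0 ≤ gau (1 - ‖(s : ℂ) • w‖ ^ 2) ((s : ℂ) • w) X := by
      refine inc_gau_nonneg ?_ _ _
      have := (inc_depth hθ0 hθ1 hw hs0 hs.2).1
      rw [inc_norm_smul hs0]
      nlinarith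
    exact mul_le_mul_of_nonneg_right (mul_le_mul_of_nonneg_left h3 hC₀.le) h4
  constructor
  · -- the increment
    have hseg := inc_seg hU.diff (w := w) (r := rt θ i) (r' := rt θ (i + 1))
      (K := C₀ * (16 * (32 / θ) ^ 2 * Ei ν θ i w ^ (1 / p)) * (7 / 2 * (32 / θ) / dl θ i w))
      hr0 hrm hrw1 (by
        intro s hs
        have hs0 : 0 ≤ s := hr0.trans hs.1
        refine (hgen s hs w).trans ?_
        exact mul_le_mul_of_nonneg_left (inc_gau_seg hθ0 hθ1 hw hs0 hs.2) (by positivity))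
    change ‖u ((rt θ (i + 1) : ℂ) • w) - u ((rt θ i : ℂ) • w)‖ ≤ _
    refine hseg.trans ?_
    have hdiff : rt θ (i + 1) - rt θ i ≤ 4 * dl θ i w := by
      have h2 := dl_ge hθ0 hθ1 (Nat.le_succ i) hw
      have h3 : 0 < θ ^ (i + 1) := pow_pos hθ0 _
      unfold rt
      linarith
    calc C₀ * (16 * (32 / θ) ^ 2 * Ei ν θ i w ^ (1 / p)) * (7 / 2 * (32 / θ) / dl θ i w) *
          (rt θ (i + 1) - rt θ i)
        ≤ C₀ * (16 * (32 / θ) ^ 2 * Ei ν θ i w ^ (1 / p)) * (7 / 2 * (32 / θ) / dl θ i w) *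
          (4 * dl θ i w) := mul_le_mul_of_nonneg_left hdiff (by positivity)
      _ = 224 * C₀ * (32 / θ) ^ 3 * Ei ν θ i w ^ (1 / p) := by
        field_simp
        ring
      _ ≤ 300 * C₀ * (32 / θ) ^ 3 * Ei ν θ i w ^ (1 / p) := by
        have : 0 ≤ C₀ * (32 / θ) ^ 3 * Ei ν θ i w ^ (1 / p) := by positivity
        nlinarith
  · -- the gradient
    intro x
    have hf1 := inc_hasFDerivAt hU.diff (θ := θ) (j := i + 1) (w := w) hr1 hrw1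
    have hf0 := inc_hasFDerivAt hU.diff (θ := θ) (j := i) (w := w) hr0 hrw0
    have hf : fderiv ℝ (fun w => uk u θ (i + 1) w - uk u θ i w) w = _ := (hf1.sub hf0).fderiv
    rw [hf]
    have hval : ((((fderiv ℂ u ((rt θ (i + 1) : ℂ) • w)).comp
        ((rt θ (i + 1) : ℂ) • ContinuousLinearMap.id ℂ E)).restrictScalars ℝ) -
        (((fderiv ℂ u ((rt θ i : ℂ) • w)).comp
        ((rt θ i : ℂ) • ContinuousLinearMap.id ℂ E)).restrictScalars ℝ)) x =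
        fderiv ℂ u ((rt θ (i + 1) : ℂ) • w) ((rt θ (i + 1) : ℂ) • x) -
          fderiv ℂ u ((rt θ i : ℂ) • w) ((rt θ i : ℂ) • x) := by
      simp
    rw [hval]
    have e1 := hgen (rt θ (i + 1)) ⟨hrm, le_rfl⟩ ((rt θ (i + 1) : ℂ) • x)
    have e0 := hgen (rt θ i) ⟨le_rfl, hrm⟩ ((rt θ i : ℂ) • x)
    have hn1 : 1 - ‖(rt θ (i + 1) : ℂ) • w‖ ^ 2 = dl θ (i + 1) w := by
      rw [inc_norm_smul hr1]
      unfold dl
      ring
    have hn0 : 1 - ‖(rt θ i : ℂ) • w‖ ^ 2 = dl θ i w := by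
      rw [inc_norm_smul hr0]
      unfold dl
      ring
    rw [hn1] at e1
    rw [hn0] at e0
    have g1 := (inc_gau_smul hr1 (inc_rt_le_one hθ0 (i + 1)) hd1 w x).trans
      (inc_gau_succ hθ0 hθ1 hw x)
    have g0 := inc_gau_smul hr0 (inc_rt_le_one hθ0 i) hd0 w x
    have hg := inc_gau_nonneg hd0 w x
    set S := C₀ * (16 * (32 / θ) ^ 2 * Ei ν θ i w ^ (1 / p)) with hS
    have hS0 : 0 ≤ S := by positivity
    calc ‖fderiv ℂ u ((rt θ (i + 1) : ℂ) • w) ((rt θ (i + 1) : ℂ) • x) -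
          fderiv ℂ u ((rt θ i : ℂ) • w) ((rt θ i : ℂ) • x)‖
        ≤ ‖fderiv ℂ u ((rt θ (i + 1) : ℂ) • w) ((rt θ (i + 1) : ℂ) • x)‖ +
          ‖fderiv ℂ u ((rt θ i : ℂ) • w) ((rt θ i : ℂ) • x)‖ := norm_sub_le _ _
      _ ≤ S * (32 / θ * gau (dl θ i w) w x) + S * gau (dl θ i w) w x :=
        add_le_add (e1.trans (mul_le_mul_of_nonneg_left g1 hS0))
          (e0.trans (mul_le_mul_of_nonneg_left g0 hS0))
      _ ≤ S * (32 / θ * gau (dl θ i w) w x) + S * (32 / θ * gau (dl θ i w) w x) := by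
        refine add_le_add le_rfl (mul_le_mul_of_nonneg_left ?_ hS0)
        exact le_mul_of_one_le_left hg (by linarith)
      _ = 32 * (C₀ * (32 / θ) ^ 3 * Ei ν θ i w ^ (1 / p) * gau (dl θ i w) w x) := by
        rw [hS]
        ring
      _ ≤ 300 * (C₀ * (32 / θ) ^ 3 * Ei ν θ i w ^ (1 / p) * gau (dl θ i w) w x) := by
        refine mul_le_mul_of_nonneg_right (by norm_num) (by positivity)
      _ = _ := by ring

theorem d_small {θ : ℝ} (h0 : 0 < θ) (h1 : θ < 1) {u : E → ℂ} {M : ℝ}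
    (hu : DifferentiableOn ℂ u (ball 0 1)) (hM : ∀ z ∈ ball (0 : E) 1, ‖u z‖ ≤ M) (k : ℕ) {w : E}
    (hw : ‖w‖ < RC θ k) :
    ‖uk u θ (k + 1) w - uk u θ k w‖ ≤ 500 * M / θ * (1 - θ) * (θ ^ k / dl θ k w) := by
  have hM0 : 0 ≤ M := (norm_nonneg _).trans (hM 0 (by simp))
  have hr0 := inc_rt_nonneg h0 h1 k
  have hrm := inc_rt_mono h0 h1 k
  have hrw1 : rt θ (k + 1) * ‖w‖ < 1 := rt_mul_lt h0 h1 le_rfl hw
  have hd0 : 0 < dl θ k w := inc_dl_pos h0 h1 (Nat.le_succ k) hw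
  have hseg := inc_seg hu (w := w) (r := rt θ k) (r' := rt θ (k + 1))
      (K := 3 * M * (7 / 2 * (32 / θ) / dl θ k w))
      hr0 hrm hrw1 (by
        intro s hs
        have hs0 : 0 ≤ s := hr0.trans hs.1
        have hsw : s * ‖w‖ < 1 :=
          lt_of_le_of_lt (mul_le_mul_of_nonneg_right hs.2 (norm_nonneg _)) hrw1
        refine (grad_bounded hu hM (y := (s : ℂ) • w) (by rw [inc_norm_smul hs0]; exact hsw)
          w).trans ?_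
        exact mul_le_mul_of_nonneg_left (inc_gau_seg h0 h1 hw hs0 hs.2) (by positivity))
  change ‖u ((rt θ (k + 1) : ℂ) • w) - u ((rt θ k : ℂ) • w)‖ ≤ _
  refine hseg.trans ?_
  have hdiff : rt θ (k + 1) - rt θ k = (1 - θ) * θ ^ k := by
    unfold rt
    ring
  rw [hdiff]
  have h1θ : 0 < 1 - θ := by linarith
  calc 3 * M * (7 / 2 * (32 / θ) / dl θ k w) * ((1 - θ) * θ ^ k)
      = 336 * (M / θ * (1 - θ) * (θ ^ k / dl θ k w)) := by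
        field_simp
        ring
    _ ≤ 500 * (M / θ * (1 - θ) * (θ ^ k / dl θ k w)) := by
        refine mul_le_mul_of_nonneg_right (by norm_num) (by positivity)
    _ = _ := by ring

end Pool.Agent.MPca0fc2.PT
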