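import Mathlib
import Pool.Agent.Lib.MP_ca0fc2_an.Mg.G055

set_option autoImplicit false

open Metric Set MeasureTheory Filter Topology
open scoped InnerProductSpace ENNReal

namespace Pool.Agent.MPca0fc2.TW

open Pool.Agent.MPca0fc2.PT
open Pool.Agent.MPca0fc2.QT

variable {E : Type*} [NormedAddCommGroup E] [InnerProductSpace ℂ E]
variable {V : Type*} [NormedAddCommGroup V] [NormedSpace ℂ V]

/-- the weight of exponent `τ + 4` -/
noncomputable def WW (τ : ℕ) (w : E) : ℝ := (1 - ‖w‖ ^ 2) ^ (τ + 4)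

/-- the pull back by an automorphism, with a factor, in a space of dimension `m + 1` -/
noncomputable def Pul (τ m : ℕ) {q : ℕ} (η : E → E [⋀^Fin q]→L[ℝ] V) (z x : E) :
    E [⋀^Fin q]→L[ℝ] V :=
  ((1 + ⟪z, x⟫_ℂ) ^ (m + (τ + 6)))⁻¹ •
    (η (gg z x)).compContinuousLinearMap ((gg' z x).restrictScalars ℝ)

section meas

variable [MeasurableSpace E]

/-- the mass of the weight -/
noncomputable def cW (τ : ℕ) (μ : Measure E) : ℝ := ∫ w in ball (0 : E) 1, WW τ w ∂μ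

/-- the value of the operator at the origin -/
noncomputable def T0 (τ : ℕ) (μ : Measure E) {q : ℕ} (η : E → E [⋀^Fin (q + 1)]→L[ℝ] V) :
    E [⋀^Fin q]→L[ℝ] V :=
  (-(2 / cW τ μ) : ℝ) • ∫ p in Icc (0 : ℝ) 1 ×ˢ ball (0 : E) 1,
    ((1 - p.1 ^ 2) ^ q * WW τ p.2) • (η ((p.1 : ℂ) • p.2)).curryLeft p.2 ∂(volume.prod μ)

/-- the weighted Koppelman operator of the unit ball, in a space of dimension `m + 1` -/
noncomputable def TT (τ : ℕ) (μ : Measure E) (m : ℕ) {q : ℕ}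
    (η : E → E [⋀^Fin (q + 1)]→L[ℝ] V) (z : E) : E [⋀^Fin q]→L[ℝ] V :=
  (T0 τ μ (Pul τ m η z)).compContinuousLinearMap ((gg' (-z) z).restrictScalars ℝ)

/-- the weighted Koppelman operator of the ball of radius `R` -/
noncomputable def TR (τ : ℕ) (μ : Measure E) (m : ℕ) (R : ℝ) {q : ℕ}
    (η : E → E [⋀^Fin (q + 1)]→L[ℝ] V) (z : E) : E [⋀^Fin q]→L[ℝ] V :=
  R • TT τ μ m (fun x => η ((R : ℂ) • x)) (((R⁻¹ : ℝ) : ℂ) • z)

end meas

end Pool.Agent.MPca0fc2.TW
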