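import Mathlib
import Pool.Agent.Lib.MP_ca0fc2_an.DADefs
import Pool.Agent.Lib.MP_ca0fc2_an.Mg.G045

set_option autoImplicit false
set_option linter.unusedSectionVars false

open Metric Set MeasureTheory Filter Topology
open scoped InnerProductSpace ENNReal

namespace Pool.Agent.MPca0fc2.DA

open Pool.Agent.Lib.MP_ca0fc2_an
open Pool.Agent.MPca0fc2.PT

/-- probability measures -/
lemma pos_avg_prob {Ω : Type*} [MeasurableSpace Ω] (ν : Measure Ω) [IsProbabilityMeasure ν]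
    {F : Ω × Ω → ℝ} (hF : Integrable F (ν.prod ν)) (hd : Integrable (fun z => F (z, z)) ν)
    {S : Set Ω} (hS : ∀ᵐ z ∂ν, z ∈ S)
    (hpos : ∀ (n : ℕ) (z : Fin n → Ω), (∀ i, z i ∈ S) → 0 ≤ ∑ i, ∑ j, F (z i, z j)) :
    0 ≤ ∫ p, F p ∂(ν.prod ν) := by
  set A := ∫ z, F (z, z) ∂ν with hA
  set B := ∫ p, F p ∂(ν.prod ν) with hB
  have key : ∀ n : ℕ, 0 ≤ (n : ℝ) * A + (n * (n - 1)) * B := by
    intro n
    set π : Measure (Fin n → Ω) := Measure.pi (fun _ => ν) with hπ
    have hmeas : ∀ i : Fin n, Measurable (fun z : Fin n → Ω => z i) := fun i =>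
      measurable_pi_apply i
    have hmap : ∀ i : Fin n, π.map (fun z : Fin n → Ω => z i) = ν := fun i =>
      (measurePreserving_eval (fun _ : Fin n => ν) i).map_eq
    have hmap2 : ∀ i j : Fin n, i ≠ j →
        π.map (fun z : Fin n → Ω => (z i, z j)) = ν.prod ν := by
      intro i j hij
      have h1 : ProbabilityTheory.iIndepFun (fun (i : Fin n) (z : Fin n → Ω) => z i) π :=
        ProbabilityTheory.iIndepFun_pi (X := fun _ => (id : Ω → Ω)) (fun i => aemeasurable_id)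
      have h2 := h1.indepFun hij
      have h3 := (ProbabilityTheory.indepFun_iff_map_prod_eq_prod_map_map
        (hmeas i).aemeasurable (hmeas j).aemeasurable).1 h2
      rw [h3, hmap, hmap]
    have hint : ∀ i j : Fin n, Integrable (fun z : Fin n → Ω => F (z i, z j)) π ∧
        ∫ z, F (z i, z j) ∂π = if i = j then A else B := by
      intro i j
      by_cases hij : i = j
      · subst hij
        rw [if_pos rfl]
        have h1 : Integrable (fun z => F (z, z)) (π.map (fun z : Fin n → Ω => z i)) := by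
          rw [hmap i]; exact hd
        refine ⟨h1.comp_aemeasurable (hmeas i).aemeasurable, ?_⟩
        have h2 := integral_map (hmeas i).aemeasurable h1.aestronglyMeasurable
        rw [hmap i] at h2
        exact h2.symm
      · rw [if_neg hij]
        have h1 : Integrable F (π.map (fun z : Fin n → Ω => (z i, z j))) := by
          rw [hmap2 i j hij]; exact hF
        have hm : AEMeasurable (fun z : Fin n → Ω => (z i, z j)) π :=
          ((hmeas i).prodMk (hmeas j)).aemeasurable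
        refine ⟨h1.comp_aemeasurable hm, ?_⟩
        have h2 := integral_map hm h1.aestronglyMeasurable
        rw [hmap2 i j hij] at h2
        exact h2.symm
    have h0 : 0 ≤ ∫ z, ∑ i, ∑ j, F (z i, z j) ∂π := by
      apply integral_nonneg_of_ae
      have h1 : ∀ᵐ z ∂π, ∀ i, z i ∈ S := by
        rw [ae_all_iff]
        intro i
        exact (Measure.tendsto_eval_ae_ae (μ := fun _ : Fin n => ν) (i := i)).eventually hS
      filter_upwards [h1] with z hz
      exact hpos n z hz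
    have h1 : ∫ z, ∑ i, ∑ j, F (z i, z j) ∂π = ∑ i : Fin n, ∑ j : Fin n, if i = j then A else B := by
      rw [integral_finsetSum _ fun i _ => integrable_finsetSum _ fun j _ => (hint i j).1]
      refine Finset.sum_congr rfl fun i _ => ?_
      rw [integral_finsetSum _ fun j _ => (hint i j).1]
      exact Finset.sum_congr rfl fun j _ => (hint i j).2
    have h2 : ∑ i : Fin n, ∑ j : Fin n, (if i = j then A else B) = n * A + (n * (n - 1)) * B := by
      have h3 : ∀ i : Fin n, ∑ j : Fin n, (if i = j then A else B) = A + (n - 1) * B := by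
        intro i
        have h4 : ∀ j : Fin n, (if i = j then A else B) = B + (if i = j then A - B else 0) := by
          intro j; split_ifs <;> ring
        rw [Finset.sum_congr rfl fun j _ => h4 j, Finset.sum_add_distrib, Finset.sum_const,
          Finset.sum_ite_eq, if_pos (Finset.mem_univ i), Finset.card_univ, Fintype.card_fin,
          nsmul_eq_mul]
        ring
      rw [Finset.sum_congr rfl fun i _ => h3 i, Finset.sum_const, Finset.card_univ,
        Fintype.card_fin, nsmul_eq_mul]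
      ring
    rw [h1, h2] at h0
    exact h0
  by_contra hcon
  push Not at hcon
  obtain ⟨n, hn⟩ := exists_nat_gt (|A| / (-B))
  have h1 := key (n + 2)
  push_cast at h1
  have h2 : |A| < n * (-B) := by rwa [div_lt_iff₀ (by linarith)] at hn
  have h3 : 0 ≤ A + (n + 2 - 1) * B := by
    have h4 : ((n : ℝ) + 2) * (A + (n + 2 - 1) * B) =
      (n + 2) * A + ((n + 2) * (n + 2 - 1)) * B := by ring
    rw [← h4] at h1
    exact nonneg_of_mul_nonneg_right h1 (by positivity)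
  have h5 := le_abs_self A
  nlinarith

/-- finite measures -/
lemma pos_avg {Ω : Type*} [MeasurableSpace Ω] (ν : Measure Ω) [IsFiniteMeasure ν]
    {F : Ω × Ω → ℝ} (hF : Integrable F (ν.prod ν)) (hd : Integrable (fun z => F (z, z)) ν)
    {S : Set Ω} (hS : ∀ᵐ z ∂ν, z ∈ S)
    (hpos : ∀ (n : ℕ) (z : Fin n → Ω), (∀ i, z i ∈ S) → 0 ≤ ∑ i, ∑ j, F (z i, z j)) :
    0 ≤ ∫ p, F p ∂(ν.prod ν) := by
  rcases eq_or_ne ν 0 with rfl | h0
  · simp
  have : NeZero ν := ⟨h0⟩
  set c : ℝ≥0∞ := (ν univ)⁻¹ with hc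
  have hc0 : c ≠ 0 := ENNReal.inv_ne_zero.2 (measure_ne_top _ _)
  have hct : c ≠ ∞ := ENNReal.inv_ne_top.2 (NeZero.ne _)
  have hprod : (c • ν).prod (c • ν) = (c * c) • ν.prod ν := by
    rw [Measure.prod_smul_left, Measure.prod_smul_right, smul_smul]
  have h1 := pos_avg_prob (c • ν) (F := F) (by
    rw [hprod]; exact hF.smul_measure (ENNReal.mul_ne_top hct hct)) (hd.smul_measure hct)
    (S := S) (Measure.ae_smul_measure hS c) hpos
  rw [hprod, integral_smul_measure, ENNReal.toReal_mul, smul_eq_mul] at h1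
  exact nonneg_of_mul_nonneg_right h1 (mul_pos (ENNReal.toReal_pos hc0 hct)
    (ENNReal.toReal_pos hc0 hct))

variable {E : Type*} [NormedAddCommGroup E] [InnerProductSpace ℂ E]
variable [FiniteDimensional ℂ E] [MeasurableSpace E] [BorelSpace E]

omit [FiniteDimensional ℂ E] [MeasurableSpace E] [BorelSpace E] in
lemma pos_WW_cont : Continuous (fun z : E => ((WW z : ℝ) : ℂ)) := by
  unfold WW
  fun_prop

lemma pos_int (μ : Measure E) [μ.IsAddHaarMeasure] {F : Type*} [NormedAddCommGroup F]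
    {f : E → F} (hf : ContinuousOn f (closedBall 0 1)) :
    Integrable f (μ.restrict (ball (0 : E) 1)) := by
  have := FiniteDimensional.proper ℂ E
  exact (hf.integrableOn_compact (isCompact_closedBall 0 1)).mono_set ball_subset_closedBall

lemma pos_int2 (μ : Measure E) [μ.IsAddHaarMeasure] {F : Type*} [NormedAddCommGroup F]
    {f : E × E → F}
    (hf : ContinuousOn f (closedBall 0 1 ×ˢ closedBall 0 1)) :
    Integrable f ((μ.restrict (ball (0 : E) 1)).prod (μ.restrict (ball (0 : E) 1))) := by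
  have := FiniteDimensional.proper ℂ E
  rw [Measure.prod_restrict]
  exact (hf.integrableOn_compact ((isCompact_closedBall 0 1).prod
    (isCompact_closedBall 0 1))).mono_set (prod_mono ball_subset_closedBall ball_subset_closedBall)

/-- the integrand -/
noncomputable def posF (φ : E → ℂ) (k : E → E → ℂ) (p : E × E) : ℂ :=
  (((WW p.1 : ℝ) : ℂ) * φ p.1) * (((WW p.2 : ℝ) : ℂ) * (starRingEnd ℂ) (φ p.2) * k p.1 p.2)

/-- the double integral -/
noncomputable def posJ (μ : Measure E) (φ : E → ℂ) (k : E → E → ℂ) : ℂ :=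
  ∫ z in ball (0 : E) 1, ((WW z : ℝ) : ℂ) * φ z *
      ∫ w in ball (0 : E) 1, ((WW w : ℝ) : ℂ) * (starRingEnd ℂ) (φ w) * k z w ∂μ ∂μ

omit [FiniteDimensional ℂ E] [MeasurableSpace E] [BorelSpace E] in
lemma posF_cont {φ : E → ℂ} (hφ : ContinuousOn φ (closedBall 0 1)) {k : E → E → ℂ}
    (hk : ContinuousOn (fun p : E × E => k p.1 p.2) (closedBall 0 1 ×ˢ closedBall 0 1)) :
    ContinuousOn (posF φ k) (closedBall 0 1 ×ˢ closedBall 0 1) := by
  unfold posF
  have h1 : ContinuousOn (fun p : E × E => φ p.1) (closedBall 0 1 ×ˢ closedBall 0 1) :=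
    hφ.comp continuousOn_fst fun p hp => hp.1
  have h2 : ContinuousOn (fun p : E × E => φ p.2) (closedBall 0 1 ×ˢ closedBall 0 1) :=
    hφ.comp continuousOn_snd fun p hp => hp.2
  have h3 : ContinuousOn (fun p : E × E => (starRingEnd ℂ) (φ p.2))
      (closedBall 0 1 ×ˢ closedBall 0 1) := Complex.continuous_conj.comp_continuousOn h2
  have h4 : ContinuousOn (fun p : E × E => ((WW p.1 : ℝ) : ℂ)) (closedBall 0 1 ×ˢ closedBall 0 1) :=
    (pos_WW_cont.comp continuous_fst).continuousOn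
  have h5 : ContinuousOn (fun p : E × E => ((WW p.2 : ℝ) : ℂ)) (closedBall 0 1 ×ˢ closedBall 0 1) :=
    (pos_WW_cont.comp continuous_snd).continuousOn
  exact (h4.mul h1).mul ((h5.mul h3).mul hk)

lemma posJ_eq (μ : Measure E) [μ.IsAddHaarMeasure] {φ : E → ℂ}
    (hφ : ContinuousOn φ (closedBall 0 1)) {k : E → E → ℂ}
    (hk : ContinuousOn (fun p : E × E => k p.1 p.2) (closedBall 0 1 ×ˢ closedBall 0 1)) :
    posJ μ φ k = ∫ p, posF φ k p
      ∂((μ.restrict (ball (0 : E) 1)).prod (μ.restrict (ball (0 : E) 1))) := by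
  rw [integral_prod _ (pos_int2 μ (posF_cont hφ hk))]
  unfold posJ posF
  refine integral_congr_ae (Eventually.of_forall fun z => ?_)
  simp only
  rw [← integral_const_mul]

lemma posJ_add (μ : Measure E) [μ.IsAddHaarMeasure] {φ : E → ℂ}
    (hφ : ContinuousOn φ (closedBall 0 1)) {k k' : E → E → ℂ}
    (hk : ContinuousOn (fun p : E × E => k p.1 p.2) (closedBall 0 1 ×ˢ closedBall 0 1))
    (hk' : ContinuousOn (fun p : E × E => k' p.1 p.2) (closedBall 0 1 ×ˢ closedBall 0 1)) :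
    posJ μ φ (fun z w => k z w + k' z w) = posJ μ φ k + posJ μ φ k' := by
  have hkk : ContinuousOn (fun p : E × E => k p.1 p.2 + k' p.1 p.2)
    (closedBall 0 1 ×ˢ closedBall 0 1) := hk.add hk'
  rw [posJ_eq μ hφ hk, posJ_eq μ hφ hk', posJ_eq (k := fun z w => k z w + k' z w) μ hφ hkk,
    ← integral_add (pos_int2 μ (posF_cont hφ hk)) (pos_int2 μ (posF_cont hφ hk'))]
  congr 1
  funext p
  unfold posF
  ring

omit [FiniteDimensional ℂ E] [BorelSpace E] in
lemma posJ_smul (μ : Measure E) {φ : E → ℂ} {k : E → E → ℂ} (c : ℂ) :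
    posJ μ φ (fun z w => c * k z w) = c * posJ μ φ k := by
  unfold posJ
  rw [← integral_const_mul]
  refine integral_congr_ae (Eventually.of_forall fun z => ?_)
  simp only
  have : ∫ w in ball (0 : E) 1, ((WW w : ℝ) : ℂ) * (starRingEnd ℂ) (φ w) * (c * k z w) ∂μ =
      c * ∫ w in ball (0 : E) 1, ((WW w : ℝ) : ℂ) * (starRingEnd ℂ) (φ w) * k z w ∂μ := by
    rw [← integral_const_mul]
    refine integral_congr_ae (Eventually.of_forall fun w => ?_)
    simp only
    ring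
  rw [this]
  ring

lemma posJ_sum (μ : Measure E) [μ.IsAddHaarMeasure] {φ : E → ℂ}
    (hφ : ContinuousOn φ (closedBall 0 1)) {ι : Type*} (s : Finset ι) (k : ι → E → E → ℂ)
    (hk : ∀ i, ContinuousOn (fun p : E × E => k i p.1 p.2) (closedBall 0 1 ×ˢ closedBall 0 1)) :
    posJ μ φ (fun z w => ∑ i ∈ s, k i z w) = ∑ i ∈ s, posJ μ φ (k i) := by
  classical
  induction s using Finset.induction_on with
  | empty =>
    simp only [Finset.sum_empty]
    unfold posJ
    simp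
  | insert i s hi ih =>
    simp only [Finset.sum_insert hi]
    rw [posJ_add μ hφ (hk i) (continuousOn_finsetSum _ fun j _ => hk j), ih]

/-- product kernels -/
lemma posJ_rank (μ : Measure E) [μ.IsAddHaarMeasure] {φ : E → ℂ} (a : E → ℂ) :
    posJ μ φ (fun z w => a z * (starRingEnd ℂ) (a w)) =
      ((‖∫ z in ball (0 : E) 1, ((WW z : ℝ) : ℂ) * (φ z * a z) ∂μ‖ ^ 2 : ℝ) : ℂ) := by
  unfold posJ
  set C := ∫ z in ball (0 : E) 1, ((WW z : ℝ) : ℂ) * (φ z * a z) ∂μ with hC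
  have h1 : ∀ z : E, ∫ w in ball (0 : E) 1, ((WW w : ℝ) : ℂ) * (starRingEnd ℂ) (φ w) *
      (a z * (starRingEnd ℂ) (a w)) ∂μ = a z * (starRingEnd ℂ) C := by
    intro z
    rw [hC, ← integral_conj, ← integral_const_mul]
    refine integral_congr_ae (Eventually.of_forall fun w => ?_)
    simp only [map_mul, Complex.conj_ofReal]
    ring
  simp only [h1]
  have h2 : ∀ z : E, ((WW z : ℝ) : ℂ) * φ z * (a z * (starRingEnd ℂ) C) =
      (((WW z : ℝ) : ℂ) * (φ z * a z)) * (starRingEnd ℂ) C := fun z => by ring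
  simp only [h2]
  rw [integral_mul_const, ← hC, Complex.mul_conj, Complex.normSq_eq_norm_sq]

omit [FiniteDimensional ℂ E] [MeasurableSpace E] [BorelSpace E] in
lemma pos_inner_cont : Continuous (fun p : E × E => ⟪p.2, p.1⟫_ℂ) :=
  continuous_snd.inner continuous_fst

/-- positivity of the powers of the inner product -/
theorem pow_pos_kernel (μ : Measure E) [μ.IsAddHaarMeasure] {φ : E → ℂ}
    (hφ : ContinuousOn φ (closedBall 0 1)) (l : ℕ) :
    0 ≤ (∫ z in ball (0 : E) 1, ((WW z : ℝ) : ℂ) * φ z *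
      ∫ w in ball (0 : E) 1, ((WW w : ℝ) : ℂ) * (starRingEnd ℂ) (φ w) * ⟪w, z⟫_ℂ ^ l ∂μ ∂μ).re := by
  change 0 ≤ (posJ μ φ (fun z w => ⟪w, z⟫_ℂ ^ l)).re
  set b := stdOrthonormalBasis ℂ E with hb
  have h1 : (fun z w : E => ⟪w, z⟫_ℂ ^ l) = fun z w =>
      ∑ a : Fin l → Fin (Module.finrank ℂ E),
        (∏ i, ⟪b (a i), z⟫_ℂ) * (starRingEnd ℂ) (∏ i, ⟪b (a i), w⟫_ℂ) := by
    funext z w
    rw [← b.sum_inner_mul_inner w z, Fintype.sum_pow]
    refine Finset.sum_congr rfl fun a _ => ?_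
    rw [map_prod, ← Finset.prod_mul_distrib]
    refine Finset.prod_congr rfl fun i _ => ?_
    rw [inner_conj_symm, mul_comm]
  rw [h1, posJ_sum μ hφ]
  · simp only [posJ_rank μ]
    rw [Complex.re_sum]
    refine Finset.sum_nonneg fun a _ => ?_
    rw [Complex.ofReal_re]
    positivity
  · intro a
    apply Continuous.continuousOn
    apply Continuous.mul
    · exact continuous_finsetProd _ fun i _ => continuous_const.inner continuous_fst
    · exact Complex.continuous_conj.comp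
        (continuous_finsetProd _ fun i _ => continuous_const.inner continuous_snd)

omit [FiniteDimensional ℂ E] [MeasurableSpace E] [BorelSpace E] in
lemma pos_ne {r : ℝ} (hr0 : 0 < r) (hr1 : r < 1) {p : E × E}
    (hp : p ∈ (closedBall (0 : E) 1 ×ˢ closedBall (0 : E) 1)) :
    ‖(r : ℂ) ^ 2 * ⟪p.2, p.1⟫_ℂ‖ ≤ r ^ 2 ∧ 1 - (r : ℂ) ^ 2 * ⟪p.2, p.1⟫_ℂ ≠ 0 := by
  have h1 : ‖p.1‖ ≤ 1 := mem_closedBall_zero_iff.1 hp.1
  have h2 : ‖p.2‖ ≤ 1 := mem_closedBall_zero_iff.1 hp.2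
  have h3 : ‖⟪p.2, p.1⟫_ℂ‖ ≤ 1 := (norm_inner_le_norm _ _).trans (by
    have := mul_le_mul h2 h1 (norm_nonneg _) zero_le_one
    linarith)
  have h4 : ‖(r : ℂ) ^ 2 * ⟪p.2, p.1⟫_ℂ‖ ≤ r ^ 2 := by
    rw [norm_mul, norm_pow, Complex.norm_real, Real.norm_of_nonneg hr0.le]
    exact mul_le_of_le_one_right (by positivity) h3
  refine ⟨h4, fun h => ?_⟩
  have h5 : (r : ℂ) ^ 2 * ⟪p.2, p.1⟫_ℂ = 1 := by linear_combination -h
  rw [h5, norm_one] at h4
  nlinarith

omit [FiniteDimensional ℂ E] [MeasurableSpace E] [BorelSpace E] in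
lemma pos_den_cont {r : ℝ} (hr0 : 0 < r) (hr1 : r < 1) :
    ContinuousOn (fun p : E × E => (1 - (r : ℂ) ^ 2 * ⟪p.2, p.1⟫_ℂ)⁻¹)
      (closedBall 0 1 ×ˢ closedBall 0 1) := by
  apply ContinuousOn.inv₀
  · exact (continuous_const.sub (continuous_const.mul pos_inner_cont)).continuousOn
  · exact fun p hp => (pos_ne hr0 hr1 hp).2

omit [FiniteDimensional ℂ E] [MeasurableSpace E] [BorelSpace E] in
lemma pos_smul_mem {r : ℝ} (hr0 : 0 < r) (hr1 : r < 1) {z : E} (hz : z ∈ closedBall (0 : E) 1) :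
    (r : ℂ) • z ∈ ball (0 : E) 1 := by
  rw [mem_closedBall_zero_iff] at hz
  rw [mem_ball_zero_iff, norm_smul, Complex.norm_real, Real.norm_of_nonneg hr0.le]
  nlinarith [norm_nonneg z]

omit [FiniteDimensional ℂ E] [MeasurableSpace E] [BorelSpace E] in
lemma pos_u_cont {M r : ℝ} (hr0 : 0 < r) (hr1 : r < 1) {u : E → ℂ} (hu : DAMultiplier M u) :
    ContinuousOn (fun z => u ((r : ℂ) • z)) (closedBall 0 1) := by
  apply hu.1.continuousOn.comp (continuous_const_smul _).continuousOn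
  exact fun z hz => pos_smul_mem hr0 hr1 hz

/-- the positive definite kernel, integrated -/
theorem DA_int (μ : Measure E) [μ.IsAddHaarMeasure] {M r : ℝ} (hr0 : 0 < r) (hr1 : r < 1)
    {u : E → ℂ} (hu : DAMultiplier M u) {φ : E → ℂ} (hφ : ContinuousOn φ (closedBall 0 1)) :
    0 ≤ (∫ z in ball (0 : E) 1, ((WW z : ℝ) : ℂ) * φ z *
      ∫ w in ball (0 : E) 1, ((WW w : ℝ) : ℂ) * (starRingEnd ℂ) (φ w) *
        ((((M ^ 2 : ℝ) : ℂ) - u ((r : ℂ) • z) * (starRingEnd ℂ) (u ((r : ℂ) • w))) /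
          (1 - (r : ℂ) ^ 2 * ⟪w, z⟫_ℂ)) ∂μ ∂μ).re := by
  set k : E → E → ℂ := fun z w =>
    (((M ^ 2 : ℝ) : ℂ) - u ((r : ℂ) • z) * (starRingEnd ℂ) (u ((r : ℂ) • w))) /
          (1 - (r : ℂ) ^ 2 * ⟪w, z⟫_ℂ) with hkdef
  change 0 ≤ (posJ μ φ k).re
  have huc := pos_u_cont hr0 hr1 hu
  have hk : ContinuousOn (fun p : E × E => k p.1 p.2) (closedBall 0 1 ×ˢ closedBall 0 1) := by
    simp only [hkdef, div_eq_mul_inv]
    refine ContinuousOn.mul ?_ (pos_den_cont hr0 hr1)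
    refine continuousOn_const.sub (ContinuousOn.mul ?_ ?_)
    · exact huc.comp continuousOn_fst fun p hp => hp.1
    · exact Complex.continuous_conj.comp_continuousOn
        (huc.comp continuousOn_snd fun p hp => hp.2)
  have hF := posF_cont hφ hk
  have hFi := pos_int2 μ hF
  rw [posJ_eq μ hφ hk]
  have hfin : IsFiniteMeasure (μ.restrict (ball (0 : E) 1)) := by
    have := FiniteDimensional.proper ℂ E
    exact ⟨by rw [Measure.restrict_apply_univ]; exact measure_ball_lt_top⟩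
  have hre : (∫ p, posF φ k p
      ∂((μ.restrict (ball (0 : E) 1)).prod (μ.restrict (ball (0 : E) 1)))).re =
      ∫ p, (posF φ k p).re
      ∂((μ.restrict (ball (0 : E) 1)).prod (μ.restrict (ball (0 : E) 1))) :=
    (integral_re hFi).symm
  rw [hre]
  refine pos_avg (μ.restrict (ball (0 : E) 1)) (F := fun p => (posF φ k p).re) hFi.re ?_
    (S := ball (0 : E) 1) (ae_restrict_mem measurableSet_ball) ?_
  · apply pos_int
    have h1 : ContinuousOn (fun z : E => posF φ k (z, z)) (closedBall 0 1) :=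
      hF.comp (continuous_id.prodMk continuous_id).continuousOn fun z hz => ⟨hz, hz⟩
    exact Complex.continuous_re.comp_continuousOn h1
  · intro n z hz
    have h1 := hu.2 n (fun i => (r : ℂ) • z i) (fun i => ((WW (z i) : ℝ) : ℂ) * φ (z i))
      (fun i => pos_smul_mem hr0 hr1 (ball_subset_closedBall (hz i)))
    rw [Complex.re_sum] at h1
    refine h1.trans_eq ?_
    refine Finset.sum_congr rfl fun i _ => ?_
    rw [Complex.re_sum]
    refine Finset.sum_congr rfl fun j _ => ?_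
    congr 1
    unfold posF
    simp only [hkdef, map_mul, Complex.conj_ofReal, inner_smul_left, inner_smul_right]
    ring

/-- The unit function is mapped to a function of norm at most `M` (dual form). -/
theorem DA_ineq (μ : Measure E) [μ.IsAddHaarMeasure] {M r : ℝ} (hr0 : 0 < r) (hr1 : r < 1)
    {u : E → ℂ} (hu : DAMultiplier M u) {φ : E → ℂ} (hφ : ContinuousOn φ (closedBall 0 1)) :
    ‖∫ z in ball (0 : E) 1, ((WW z : ℝ) : ℂ) * (φ z * u ((r : ℂ) • z)) ∂μ‖ ^ 2 ≤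
      M ^ 2 * (∫ z in ball (0 : E) 1, ((WW z : ℝ) : ℂ) * φ z *
        ∫ w in ball (0 : E) 1, ((WW w : ℝ) : ℂ) * (starRingEnd ℂ) (φ w) /
          (1 - (r : ℂ) ^ 2 * ⟪w, z⟫_ℂ) ∂μ ∂μ).re := by
  have huc := pos_u_cont hr0 hr1 hu
  set κ : E → E → ℂ := fun z w => (1 - (r : ℂ) ^ 2 * ⟪w, z⟫_ℂ)⁻¹ with hκdef
  have hκ : ContinuousOn (fun p : E × E => κ p.1 p.2) (closedBall 0 1 ×ˢ closedBall 0 1) :=
    pos_den_cont hr0 hr1
  set ψ : E → ℂ := fun z => φ z * u ((r : ℂ) • z) with hψdef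
  have hψ : ContinuousOn ψ (closedBall 0 1) := hφ.mul huc
  have hJφ : (∫ z in ball (0 : E) 1, ((WW z : ℝ) : ℂ) * φ z *
        ∫ w in ball (0 : E) 1, ((WW w : ℝ) : ℂ) * (starRingEnd ℂ) (φ w) /
          (1 - (r : ℂ) ^ 2 * ⟪w, z⟫_ℂ) ∂μ ∂μ) = posJ μ φ κ := by
    unfold posJ
    simp only [hκdef, div_eq_mul_inv]
  rw [hJφ]
  -- the two terms
  set v : E → E → ℂ := fun z w => u ((r : ℂ) • z) * (starRingEnd ℂ) (u ((r : ℂ) • w)) * κ z w
    with hvdef
  have hv : ContinuousOn (fun p : E × E => v p.1 p.2) (closedBall 0 1 ×ˢ closedBall 0 1) := by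
    refine ContinuousOn.mul (ContinuousOn.mul ?_ ?_) hκ
    · exact huc.comp continuousOn_fst fun p hp => hp.1
    · exact Complex.continuous_conj.comp_continuousOn
        (huc.comp continuousOn_snd fun p hp => hp.2)
  have h1 := DA_int μ hr0 hr1 hu hφ
  have h2 : (∫ z in ball (0 : E) 1, ((WW z : ℝ) : ℂ) * φ z *
      ∫ w in ball (0 : E) 1, ((WW w : ℝ) : ℂ) * (starRingEnd ℂ) (φ w) *
        ((((M ^ 2 : ℝ) : ℂ) - u ((r : ℂ) • z) * (starRingEnd ℂ) (u ((r : ℂ) • w))) /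
          (1 - (r : ℂ) ^ 2 * ⟪w, z⟫_ℂ)) ∂μ ∂μ) =
      ((M ^ 2 : ℝ) : ℂ) * posJ μ φ κ + (-1) * posJ μ φ v := by
    rw [← posJ_smul, ← posJ_smul, ← posJ_add μ hφ (k := fun z w => ((M ^ 2 : ℝ) : ℂ) * κ z w)
      (k' := fun z w => (-1) * v z w) (continuousOn_const.mul hκ) (continuousOn_const.mul hv)]
    unfold posJ
    simp only [hκdef, hvdef, div_eq_mul_inv]
    congr 1
    funext z
    congr 1
    refine integral_congr_ae (Eventually.of_forall fun w => ?_)
    simp only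
    ring
  rw [h2] at h1
  have h3 : posJ μ φ v = posJ μ ψ κ := by
    unfold posJ
    simp only [hvdef, hψdef]
    refine integral_congr_ae (Eventually.of_forall fun z => ?_)
    simp only
    have h4 : ∫ w in ball (0 : E) 1, ((WW w : ℝ) : ℂ) * (starRingEnd ℂ) (φ w) *
        (u ((r : ℂ) • z) * (starRingEnd ℂ) (u ((r : ℂ) • w)) * κ z w) ∂μ =
        u ((r : ℂ) • z) * ∫ w in ball (0 : E) 1, ((WW w : ℝ) : ℂ) *
          (starRingEnd ℂ) (φ w * u ((r : ℂ) • w)) * κ z w ∂μ := by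
      rw [← integral_const_mul]
      refine integral_congr_ae (Eventually.of_forall fun w => ?_)
      simp only [map_mul]
      ring
    rw [h4]
    ring
  -- lower bound of the second term
  have hx : ∀ l : ℕ, ContinuousOn (fun p : E × E => ((r : ℂ) ^ 2) ^ l * ⟪p.2, p.1⟫_ℂ ^ l)
      (closedBall 0 1 ×ˢ closedBall 0 1) := fun l =>
    (continuous_const.mul (pos_inner_cont.pow l)).continuousOn
  obtain ⟨C, hC0, hC⟩ : ∃ C : ℝ, 0 ≤ C ∧ ∀ L : ℕ,
      ‖posJ μ ψ (fun z w => ((r : ℂ) ^ 2 * ⟪w, z⟫_ℂ) ^ L * κ z w)‖ ≤ C * (r ^ 2) ^ L := by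
    refine ⟨∫ p, ‖posF ψ κ p‖ ∂((μ.restrict (ball (0 : E) 1)).prod (μ.restrict (ball (0 : E) 1))),
      integral_nonneg fun p => norm_nonneg _, fun L => ?_⟩
    have hkL : ContinuousOn (fun p : E × E => ((r : ℂ) ^ 2 * ⟪p.2, p.1⟫_ℂ) ^ L * κ p.1 p.2)
        (closedBall 0 1 ×ˢ closedBall 0 1) :=
      (((continuous_const.mul pos_inner_cont).pow L).continuousOn).mul hκ
    rw [posJ_eq μ hψ (k := fun z w => ((r : ℂ) ^ 2 * ⟪w, z⟫_ℂ) ^ L * κ z w) hkL]
    refine (norm_integral_le_integral_norm _).trans ?_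
    rw [← integral_mul_const]
    refine integral_mono_ae (pos_int2 μ (posF_cont hψ
      (k := fun z w => ((r : ℂ) ^ 2 * ⟪w, z⟫_ℂ) ^ L * κ z w) hkL)).norm
      ((pos_int2 μ (posF_cont hψ hκ)).norm.mul_const _) ?_
    rw [Measure.prod_restrict]
    filter_upwards [ae_restrict_mem (measurableSet_ball.prod measurableSet_ball)] with p hp
    have h5 := (pos_ne hr0 hr1 (p := p) ⟨ball_subset_closedBall hp.1,
      ball_subset_closedBall hp.2⟩).1
    have h6 : posF ψ (fun z w => ((r : ℂ) ^ 2 * ⟪w, z⟫_ℂ) ^ L * κ z w) p =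
        posF ψ κ p * ((r : ℂ) ^ 2 * ⟪p.2, p.1⟫_ℂ) ^ L := by
      unfold posF; ring
    rw [h6, norm_mul, norm_pow]
    exact mul_le_mul_of_nonneg_left (pow_le_pow_left₀ (norm_nonneg _) h5 L) (norm_nonneg _)
  have h5 : ∀ L : ℕ, ‖∫ z in ball (0 : E) 1, ((WW z : ℝ) : ℂ) * ψ z ∂μ‖ ^ 2 - C * (r ^ 2) ^ (L + 1) ≤
      (posJ μ ψ κ).re := by
    intro L
    have hrem : ContinuousOn (fun p : E × E => ((r : ℂ) ^ 2 * ⟪p.2, p.1⟫_ℂ) ^ (L + 1) * κ p.1 p.2)
        (closedBall 0 1 ×ˢ closedBall 0 1) :=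
      (((continuous_const.mul pos_inner_cont).pow (L + 1)).continuousOn).mul hκ
    have h6 : posJ μ ψ κ = posJ μ ψ (fun z w => (∑ l ∈ Finset.range (L + 1),
        ((r : ℂ) ^ 2) ^ l * ⟪w, z⟫_ℂ ^ l) + ((r : ℂ) ^ 2 * ⟪w, z⟫_ℂ) ^ (L + 1) * κ z w) := by
      have hsum : ContinuousOn (fun p : E × E => (∑ l ∈ Finset.range (L + 1),
          ((r : ℂ) ^ 2) ^ l * ⟪p.2, p.1⟫_ℂ ^ l) +
          ((r : ℂ) ^ 2 * ⟪p.2, p.1⟫_ℂ) ^ (L + 1) * κ p.1 p.2)
          (closedBall 0 1 ×ˢ closedBall 0 1) :=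
        (continuousOn_finsetSum _ fun l _ => hx l).add hrem
      rw [posJ_eq μ hψ hκ, posJ_eq μ hψ (k := fun z w => (∑ l ∈ Finset.range (L + 1),
        ((r : ℂ) ^ 2) ^ l * ⟪w, z⟫_ℂ ^ l) + ((r : ℂ) ^ 2 * ⟪w, z⟫_ℂ) ^ (L + 1) * κ z w) hsum]
      apply integral_congr_ae
      rw [Measure.prod_restrict]
      filter_upwards [ae_restrict_mem (measurableSet_ball.prod measurableSet_ball)] with p hp
      have h7 := (pos_ne hr0 hr1 (p := p) ⟨ball_subset_closedBall hp.1,
        ball_subset_closedBall hp.2⟩).2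
      unfold posF
      congr 2
      simp only [hκdef, ← mul_pow]
      have h8 := mul_neg_geom_sum ((r : ℂ) ^ 2 * ⟪p.2, p.1⟫_ℂ) (L + 1)
      field_simp
      linear_combination -h8
    rw [h6, posJ_add μ hψ (k := fun z w => ∑ l ∈ Finset.range (L + 1),
        ((r : ℂ) ^ 2) ^ l * ⟪w, z⟫_ℂ ^ l)
      (k' := fun z w => ((r : ℂ) ^ 2 * ⟪w, z⟫_ℂ) ^ (L + 1) * κ z w)
      (continuousOn_finsetSum _ fun l _ => hx l) hrem, posJ_sum μ hψ _ (fun l z w =>
      ((r : ℂ) ^ 2) ^ l * ⟪w, z⟫_ℂ ^ l) hx, Complex.add_re, Complex.re_sum, Finset.sum_range_succ']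
    have h7 : ∀ l, 0 ≤ (posJ μ ψ (fun z w => ((r : ℂ) ^ 2) ^ l * ⟪w, z⟫_ℂ ^ l)).re := by
      intro l
      rw [posJ_smul, ← Complex.ofReal_pow, ← Complex.ofReal_pow, Complex.re_ofReal_mul]
      exact mul_nonneg (by positivity) (pow_pos_kernel μ hψ l)
    have h8 : (posJ μ ψ (fun z w => ((r : ℂ) ^ 2) ^ 0 * ⟪w, z⟫_ℂ ^ 0)).re =
        ‖∫ z in ball (0 : E) 1, ((WW z : ℝ) : ℂ) * ψ z ∂μ‖ ^ 2 := by
      have h9 := posJ_rank μ (φ := ψ) (fun _ => (1 : ℂ))
      simp only [map_one, mul_one] at h9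
      simp only [pow_zero, mul_one]
      rw [h9, Complex.ofReal_re]
    have h9 := Finset.sum_nonneg fun l (_ : l ∈ Finset.range L) => h7 (l + 1)
    have h10 := (Complex.abs_re_le_norm _).trans (hC (L + 1))
    rw [abs_le] at h10
    rw [h8]
    linarith [h10.1]
  have h6 : ‖∫ z in ball (0 : E) 1, ((WW z : ℝ) : ℂ) * ψ z ∂μ‖ ^ 2 ≤ (posJ μ ψ κ).re := by
    have hr2 : r ^ 2 < 1 := by nlinarith
    have hlim : Tendsto (fun L : ℕ => ‖∫ z in ball (0 : E) 1, ((WW z : ℝ) : ℂ) * ψ z ∂μ‖ ^ 2 -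
        C * (r ^ 2) ^ (L + 1)) atTop
        (𝓝 (‖∫ z in ball (0 : E) 1, ((WW z : ℝ) : ℂ) * ψ z ∂μ‖ ^ 2 - C * 0)) := by
      refine tendsto_const_nhds.sub (tendsto_const_nhds.mul ?_)
      exact (tendsto_pow_atTop_nhds_zero_of_lt_one (by positivity) hr2).comp (tendsto_add_atTop_nat 1)
    rw [mul_zero, sub_zero] at hlim
    exact le_of_tendsto hlim (Eventually.of_forall h5)
  refine h6.trans ?_
  rw [← h3]
  rw [Complex.add_re, Complex.re_ofReal_mul, neg_one_mul, Complex.neg_re] at h1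
  linarith

end Pool.Agent.MPca0fc2.DA
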