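import Mathlib
import Pool.Agent.Lib.MP_ca0fc2_an.Mg.G049

set_option autoImplicit false

open Metric Set MeasureTheory Filter Topology
open scoped InnerProductSpace ENNReal

namespace Pool.Agent.MPca0fc2.QT

open Pool.Agent.MPca0fc2.PT

variable {E : Type*} [NormedAddCommGroup E] [InnerProductSpace ℂ E]

private theorem one_sub_ne {z : E} (hz : ‖z‖ < 1) : (1 : ℂ) - ⟪z, z⟫_ℂ ≠ 0 := by
  rw [geo_self, ← Complex.ofReal_one, ← Complex.ofReal_sub, Complex.ofReal_ne_zero]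
  nlinarith [norm_nonneg z]

private theorem gg_neg_self {z : E} (hz : ‖z‖ < 1) : gg (-z) z = 0 := by
  have := gg_neg_gg hz (x := 0) (by simp)
  rwa [gg_zero] at this

private theorem gg'_zero_apply (z v : E) : gg' z 0 v = AA z v - ⟪z, v⟫_ℂ • z := by
  simp [gg', gg_zero, innerSL_apply_apply]

private theorem gg'_neg_apply {z : E} (hz : ‖z‖ < 1) (u : E) :
    gg' (-z) z u = (1 - ⟪z, z⟫_ℂ)⁻¹ • AA z u := by
  rw [gg', gg_neg_self hz]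
  simp [geo_AA_neg, sub_eq_add_neg]

theorem gg'_inv {z : E} (hz : ‖z‖ < 1) (v : E) : gg' (-z) z (gg' z 0 v) = v := by
  rw [gg'_neg_apply hz, gg'_zero_apply, map_sub, map_smul, geo_AA_AA hz.le, AA_self hz.le,
    add_sub_cancel_right, smul_smul, inv_mul_cancel₀ (one_sub_ne hz), one_smul]

theorem gg'_inv' {z : E} (hz : ‖z‖ < 1) (v : E) : gg' z 0 (gg' (-z) z v) = v := by
  rw [gg'_neg_apply hz, map_smul, gg'_zero_apply, geo_AA_AA hz.le, geo_inner_AA hz.le,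
    add_sub_cancel_right, smul_smul, inv_mul_cancel₀ (one_sub_ne hz), one_smul]

/-- the composition of two automorphisms -/
theorem gg_comp [FiniteDimensional ℂ E] {a z : E} (ha : ‖a‖ < 1) (hz : ‖z‖ < 1) :
    ∃ U : E ≃ₗᵢ[ℂ] E,
      (∀ x : E, ‖x‖ ≤ 1 → gg a (gg z x) = gg (gg a z) (U x)) ∧
      (∀ x : E, ‖x‖ ≤ 1 → (1 + ⟪a, gg z x⟫_ℂ) * (1 + ⟪z, x⟫_ℂ) =
        (1 + ⟪a, z⟫_ℂ) * (1 + ⟪gg a z, U x⟫_ℂ)) ∧
      ∀ x : E, ‖x‖ < 1 → ∀ v : E, gg' a (gg z x) (gg' z x v) = gg' (gg a z) (U x) (U v) := by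
  have hZ : ‖gg a z‖ < 1 := gg_lt ha hz
  have hc : 1 + ⟪a, z⟫_ℂ ≠ 0 := one_add_ne ha hz.le
  have hc' : 1 + ⟪z, a⟫_ℂ ≠ 0 := geo_one_add_ne' ha hz.le
  have hA := one_sub_ne ha
  have hN := one_sub_ne hz
  have hZn := one_sub_ne hZ
  -- the linear map `L`
  let L : E →L[ℂ] E := (1 + ⟪a, z⟫_ℂ)⁻¹ • ((innerSL ℂ z).smulRight a + (AA a).comp (AA z))
  have hL : ∀ x, (1 + ⟪a, z⟫_ℂ) • L x = ⟪z, x⟫_ℂ • a + AA a (AA z x) := by
    intro x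
    simp only [L, ContinuousLinearMap.smul_apply, ContinuousLinearMap.add_apply,
      ContinuousLinearMap.smulRight_apply, ContinuousLinearMap.comp_apply, innerSL_apply_apply]
    rw [smul_smul, mul_inv_cancel₀ hc, one_smul]
  obtain ⟨Z, hZdef⟩ : ∃ Z, Z = gg a z := ⟨_, rfl⟩
  rw [← hZdef] at hZ hZn ⊢
  have hZs : (1 + ⟪a, z⟫_ℂ) • Z = a + AA a z := by
    rw [hZdef, gg, smul_smul, mul_inv_cancel₀ hc, one_smul]
  -- inner product of `Z` with `L x`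
  have hin : ∀ x, (1 + ⟪a, z⟫_ℂ) * ⟪Z, L x⟫_ℂ = ⟪z, x⟫_ℂ + ⟪a, AA z x⟫_ℂ := by
    intro x
    have e1 : (1 + ⟪z, a⟫_ℂ) * ((1 + ⟪a, z⟫_ℂ) * ⟪Z, L x⟫_ℂ) =
        ⟪(1 + ⟪a, z⟫_ℂ) • Z, (1 + ⟪a, z⟫_ℂ) • L x⟫_ℂ := by
      rw [inner_smul_left, inner_smul_right, map_add, map_one, inner_conj_symm]
    rw [hZs, hL, inner_add_left, inner_add_right, inner_add_right, inner_smul_right,
      inner_smul_right, geo_inner_AA ha.le, geo_inner_AA' ha.le, geo_inner_AA_AA ha.le,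
      geo_inner_AA hz.le] at e1
    apply mul_left_cancel₀ hc'
    linear_combination e1
  have hin' : ∀ x, (1 + ⟪z, a⟫_ℂ) * ⟪L x, Z⟫_ℂ = ⟪x, z⟫_ℂ + ⟪AA z x, a⟫_ℂ := by
    intro x
    have := congrArg (starRingEnd ℂ) (hin x)
    rw [map_mul, map_add, map_add, map_one, inner_conj_symm, inner_conj_symm, inner_conj_symm,
      inner_conj_symm] at this
    exact this
  -- the linear map `U`
  let U0 : E →L[ℂ] E := (1 - ⟪Z, Z⟫_ℂ)⁻¹ • ((AA Z).comp L - ((innerSL ℂ Z).comp L).smulRight Z)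
  have hU : ∀ x, U0 x = (1 - ⟪Z, Z⟫_ℂ)⁻¹ • (AA Z (L x) - ⟪Z, L x⟫_ℂ • Z) := by
    intro x
    simp only [U0, ContinuousLinearMap.smul_apply, ContinuousLinearMap.sub_apply,
      ContinuousLinearMap.smulRight_apply, ContinuousLinearMap.comp_apply, innerSL_apply_apply]
  have hAU : ∀ x, AA Z (U0 x) = L x := by
    intro x
    rw [hU, map_smul, map_sub, map_smul, geo_AA_AA hZ.le, AA_self hZ.le, add_sub_cancel_right,
      smul_smul, inv_mul_cancel₀ hZn, one_smul]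
  have hZU : ∀ x, ⟪Z, U0 x⟫_ℂ = ⟪Z, L x⟫_ℂ := by
    intro x
    rw [← geo_inner_AA hZ.le, hAU]
  have hUZ : ∀ x, ⟪U0 x, Z⟫_ℂ = ⟪L x, Z⟫_ℂ := by
    intro x
    rw [← geo_inner_AA' hZ.le, hAU]
  -- isometry
  have hZZ : (1 + ⟪z, a⟫_ℂ) * (1 + ⟪a, z⟫_ℂ) * (1 - ⟪Z, Z⟫_ℂ) =
      (1 - ⟪a, a⟫_ℂ) * (1 - ⟪z, z⟫_ℂ) := by
    have e1 := inner_gg ha hz.le hz.le
    rw [← hZdef] at e1
    rw [e1, geo_self a]
    push_cast
    field_simp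
  have hiso : ∀ x, ⟪U0 x, U0 x⟫_ℂ = ⟪x, x⟫_ℂ := by
    intro x
    have e1 := geo_inner_AA_AA hZ.le (U0 x) (U0 x)
    rw [hAU, hUZ, hZU] at e1
    have e2 : (1 + ⟪z, a⟫_ℂ) * ((1 + ⟪a, z⟫_ℂ) * ⟪L x, L x⟫_ℂ) =
        ⟪(1 + ⟪a, z⟫_ℂ) • L x, (1 + ⟪a, z⟫_ℂ) • L x⟫_ℂ := by
      rw [inner_smul_left, inner_smul_right, map_add, map_one, inner_conj_symm]
    rw [hL, inner_add_left, inner_add_right, inner_add_right, inner_smul_left, inner_smul_right,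
      inner_smul_left, inner_smul_right, inner_conj_symm, geo_inner_AA ha.le, geo_inner_AA' ha.le,
      geo_inner_AA_AA ha.le, geo_inner_AA_AA hz.le] at e2
    have e3 := hin x
    have e4 := hin' x
    apply mul_left_cancel₀ (mul_ne_zero hA hN)
    linear_combination (⟪U0 x, U0 x⟫_ℂ) * (-hZZ) + ((1 + ⟪z, a⟫_ℂ) * (1 + ⟪a, z⟫_ℂ)) * (-e1) + e2 -
      ((1 + ⟪z, a⟫_ℂ) * ⟪L x, Z⟫_ℂ) * e3 - (⟪z, x⟫_ℂ + ⟪a, AA z x⟫_ℂ) * e4
  have hnorm : ∀ x, ‖U0 x‖ = ‖x‖ := by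
    intro x
    have e1 := hiso x
    rw [geo_self, geo_self, Complex.ofReal_inj] at e1
    exact (sq_eq_sq₀ (norm_nonneg _) (norm_nonneg _)).mp e1
  let U1 : E →ₗᵢ[ℂ] E := ⟨U0.toLinearMap, hnorm⟩
  let U : E ≃ₗᵢ[ℂ] E := U1.toLinearIsometryEquiv rfl
  have hUU : ∀ x, U x = U0 x := fun x => rfl
  have h2 : ∀ x : E, ‖x‖ ≤ 1 → (1 + ⟪a, gg z x⟫_ℂ) * (1 + ⟪z, x⟫_ℂ) =
        (1 + ⟪a, z⟫_ℂ) * (1 + ⟪Z, U x⟫_ℂ) := by
    intro x hx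
    have hd := one_add_ne hz hx
    have e3 := hin x
    have e5 : ⟪a, gg z x⟫_ℂ * (1 + ⟪z, x⟫_ℂ) = ⟪a, z⟫_ℂ + ⟪a, AA z x⟫_ℂ := by
      rw [gg, inner_smul_right, inner_add_right]
      field_simp
    rw [hUU, hZU]
    linear_combination e5 - e3
  have h1 : ∀ x : E, ‖x‖ ≤ 1 → gg a (gg z x) = gg Z (U x) := by
    intro x hx
    have hd := one_add_ne hz hx
    have hd2 := one_add_ne ha (gg_le hz hx)
    have e2 := h2 x hx
    have hd3 : 1 + ⟪Z, U x⟫_ℂ ≠ 0 := by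
      intro h0
      rw [h0, mul_zero] at e2
      exact mul_ne_zero hd2 hd e2
    have e3 : (1 + ⟪a, z⟫_ℂ) • (Z + AA Z (U x)) =
        (1 + ⟪z, x⟫_ℂ) • (a + AA a (gg z x)) := by
      rw [smul_add, hZs, hUU, hAU, hL, smul_add, ← map_smul (AA a), gg, smul_smul,
        mul_inv_cancel₀ hd, one_smul, map_add, add_smul, one_smul]
      abel
    have e4 : (1 + ⟪Z, U x⟫_ℂ)⁻¹ = (1 + ⟪a, gg z x⟫_ℂ)⁻¹ * (1 + ⟪z, x⟫_ℂ)⁻¹ * (1 + ⟪a, z⟫_ℂ) := by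
      field_simp
      linear_combination e2
    rw [gg, gg.eq_1 Z (U x), e4, mul_smul, e3, smul_smul]
    congr 1
    field_simp
  refine ⟨U, h1, h2, ?_⟩
  intro x hx v
  have hgx : ‖gg z x‖ < 1 := gg_lt hz hx
  have d1 : HasFDerivAt (𝕜 := ℂ) (fun y => gg a (gg z y)) ((gg' a (gg z x)).comp (gg' z x)) x :=
    (hasFDerivAt_gg ha hgx.le).comp x (hasFDerivAt_gg hz hx.le)
  have hUx : ‖U x‖ ≤ 1 := by rw [U.norm_map]; exact hx.le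
  have d2 : HasFDerivAt (𝕜 := ℂ) (fun y => gg Z (U y)) ((gg' Z (U x)).comp U0) x :=
    (hasFDerivAt_gg hZ hUx).comp x U0.hasFDerivAt
  have hev : (fun y => gg a (gg z y)) =ᶠ[𝓝 x] (fun y => gg Z (U y)) := by
    have : ball (0 : E) 1 ∈ 𝓝 x := isOpen_ball.mem_nhds (by rwa [mem_ball_zero_iff])
    filter_upwards [this] with y hy
    rw [mem_ball_zero_iff] at hy
    exact h1 y hy.le
  have d3 := d2.congr_of_eventuallyEq hev
  have := DFunLike.congr_fun (d1.unique d3) v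
  exact this

end Pool.Agent.MPca0fc2.QT
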