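import Mathlib
import Pool.Agent.Lib.MP_ca0fc2_an.Mg.G063
import Pool.Agent.Lib.MP_ca0fc2_an.Mg.G062

/-! The construction of idempotents modulo `x` from families which are nearly idempotent in the
sense of the spectral radius. -/

set_option autoImplicit false

open Metric Set Filter Topology

namespace Pool.Agent.MPca0fc2.IND

open Pool.Agent.MPca0fc2.IN (rt rt_sq rt_sub_one rt_diff)

variable {E : Type*} [NormedAddCommGroup E] [NormedSpace ℂ E] {Δ : Set E}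

/-- The two halves of `1 = (x + (1 - x))^(2k+1)`. -/
theorem split_one {R : Type*} [CommRing R] (x : R) (k : ℕ) :
    (1 : R) = x ^ (k + 1) * (∑ j ∈ Finset.range (k + 1),
      x ^ j * (1 - x) ^ (k - j) * ((2 * k + 1).choose (k + 1 + j) : R)) +
    (1 - x) ^ (k + 1) * ∑ j ∈ Finset.range (k + 1),
      x ^ j * (1 - x) ^ (k - j) * ((2 * k + 1).choose j : R) := by
  have h1 : (1 : R) = (x + (1 - x)) ^ (2 * k + 1) := by
    rw [add_sub_cancel, one_pow]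
  rw [add_pow, show 2 * k + 1 + 1 = (k + 1) + (k + 1) by ring, Finset.sum_range_add] at h1
  refine h1.trans ?_
  rw [add_comm, Finset.mul_sum, Finset.mul_sum]
  congr 1
  · refine Finset.sum_congr rfl fun j hj => ?_
    rw [Finset.mem_range] at hj
    have e1 : 2 * k + 1 - (k + 1 + j) = k - j := by omega
    rw [e1, pow_add]
    ring
  · refine Finset.sum_congr rfl fun j hj => ?_
    rw [Finset.mem_range] at hj
    have e1 : 2 * k + 1 - j = (k - j) + (k + 1) := by omega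
    rw [e1, pow_add]
    ring

variable {𝓕 : Filter (Wd E)}

/-- The bounds for the two sums. -/
theorem half_bound (hg : Good Δ 𝓕) {x y : Fam E} (hx : BW 𝓕 x) (hy : BW 𝓕 y) {b C C' : ℝ}
    (hb : 0 ≤ b) (hC : 0 ≤ C) (hC' : 0 ≤ C') (h1 : ∀ p : ℕ, NB 𝓕 (x ^ p) (C * b ^ p))
    (h2 : ∀ p : ℕ, NB 𝓕 (y ^ p) (C' * b ^ p)) (k : ℕ) (f : ℕ → ℕ)
    (hf : ∑ j ∈ Finset.range (k + 1), f j ≤ 2 ^ (2 * k + 1)) :
    NB 𝓕 (∑ j ∈ Finset.range (k + 1), x ^ j * y ^ (k - j) * (f j : Fam E))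
      (2 * (C * C') * (4 * b) ^ k) := by
  have h3 : NB 𝓕 (∑ j ∈ Finset.range (k + 1), x ^ j * y ^ (k - j) * (f j : Fam E))
      (∑ j ∈ Finset.range (k + 1), C * b ^ j * (C' * b ^ (k - j)) * (f j : ℝ)) := by
    refine NB.sum fun j _ => ?_
    exact ((h1 j).mul hg (hx.pow j) (hy.pow (k - j)) (h2 (k - j)) (by positivity)).smul_nat (f j)
  refine h3.mono ?_
  have h4 : ∀ j ∈ Finset.range (k + 1), C * b ^ j * (C' * b ^ (k - j)) * (f j : ℝ) =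
      C * C' * b ^ k * (f j : ℝ) := by
    intro j hj
    rw [Finset.mem_range] at hj
    have : b ^ j * b ^ (k - j) = b ^ k := by
      rw [← pow_add]
      congr 1
      omega
    rw [← this]
    ring
  rw [Finset.sum_congr rfl h4, ← Finset.mul_sum]
  have h5 : (∑ j ∈ Finset.range (k + 1), (f j : ℝ)) ≤ 2 ^ (2 * k + 1) := by
    exact_mod_cast hf
  calc C * C' * b ^ k * ∑ j ∈ Finset.range (k + 1), (f j : ℝ) ≤
        C * C' * b ^ k * 2 ^ (2 * k + 1) := by gcongr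
    _ = 2 * (C * C') * (4 * b) ^ k := by
        rw [mul_pow, pow_succ, pow_mul]
        norm_num
        ring

theorem choose_half (k : ℕ) : ∑ j ∈ Finset.range (k + 1), (2 * k + 1).choose j ≤
    2 ^ (2 * k + 1) ∧
    ∑ j ∈ Finset.range (k + 1), (2 * k + 1).choose (k + 1 + j) ≤ 2 ^ (2 * k + 1) := by
  have h1 := Nat.sum_range_choose (2 * k + 1)
  rw [show 2 * k + 1 + 1 = (k + 1) + (k + 1) by ring, Finset.sum_range_add] at h1
  constructor <;> omega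

/-- The lifting of idempotents. -/
theorem idem_lift (hg : Good Δ 𝓕) {b ρ : ℝ} (hb : 1 ≤ b) (hρ : 0 < ρ) (hρ1 : ρ ≤ 1) :
    ∃ ε₁ : ℝ, 0 < ε₁ ∧ ∀ x₀ : Fam E, BW 𝓕 x₀ → Rad 𝓕 x₀ b → Rad 𝓕 (x₀ * (1 - x₀)) ε₁ →
      ∃ e U : Fam E, BW 𝓕 e ∧ BW 𝓕 U ∧ NB 𝓕 (e * (1 - e)) 0 ∧
        NB 𝓕 (1 - e - (1 - x₀) * U) 0 ∧ Rad 𝓕 (e * (1 - x₀)) ρ := by
  obtain ⟨b', hb'⟩ : ∃ b', b' = 1 + b := ⟨_, rfl⟩
  have hb'1 : 1 ≤ b' := by rw [hb']; linarith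
  have hb'0 : 0 < b' := by linarith
  obtain ⟨ε₁, hε₁⟩ : ∃ ε₁, ε₁ = ρ / (128 * b' ^ 5) := ⟨_, rfl⟩
  have hε₁0 : 0 < ε₁ := by rw [hε₁]; positivity
  have hlam : 64 * b' ^ 5 * ε₁ = ρ / 2 := by
    rw [hε₁]; field_simp; norm_num
  refine ⟨ε₁, hε₁0, fun x₀ hx hr hν => ?_⟩
  have hy : BW 𝓕 (1 - x₀) := BW.one.sub hx
  have hry : Rad 𝓕 (1 - x₀) b' := by
    rw [sub_eq_add_neg, hb']
    exact (Rad.of_NB hg BW.one NB.one zero_le_one).add hg BW.one hx.neg hr.neg zero_le_one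
      (by linarith)
  have hrx : Rad 𝓕 x₀ b' := hr.mono (by linarith) (by rw [hb']; linarith)
  obtain ⟨Cx, hCx, hx1⟩ := hrx
  obtain ⟨Cy, hCy, hy1⟩ := hry
  obtain ⟨Cn, hCn, hn1⟩ := hν
  obtain ⟨c₁, hc₁⟩ : ∃ c₁, c₁ = Cx * Cy := ⟨_, rfl⟩
  have hc₁0 : 0 ≤ c₁ := by rw [hc₁]; positivity
  obtain ⟨A₁, hA₁⟩ : ∃ A₁, A₁ = 2 * Cn * ε₁ * c₁ := ⟨_, rfl⟩
  obtain ⟨A₂, hA₂⟩ : ∃ A₂, A₂ = (2 * Cx * c₁ * b' + 1) * (32 * Cn * c₁ ^ 2 * ε₁ * Cy * b') :=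
    ⟨_, rfl⟩
  have hA₁0 : 0 ≤ A₁ := by rw [hA₁]; positivity
  have hA₂0 : 0 ≤ A₂ := by rw [hA₂]; positivity
  -- the choice of the exponent
  obtain ⟨k, hk1, hk2⟩ : ∃ k : ℕ, 4 * Cn * c₁ ^ 2 * ε₁ * (1 / 2) ^ k ≤ 1 / 16 ∧
      (A₁ + A₂) * (1 / 2) ^ k ≤ ρ / 2 := by
    have h1 : Tendsto (fun k : ℕ => 4 * Cn * c₁ ^ 2 * ε₁ * (1 / 2 : ℝ) ^ k) atTop (𝓝 0) := by
      have := (tendsto_pow_atTop_nhds_zero_of_lt_one (r := (1 / 2 : ℝ)) (by norm_num)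
        (by norm_num)).const_mul (4 * Cn * c₁ ^ 2 * ε₁)
      rwa [mul_zero] at this
    have h2 : Tendsto (fun k : ℕ => (A₁ + A₂) * (1 / 2 : ℝ) ^ k) atTop (𝓝 0) := by
      have := (tendsto_pow_atTop_nhds_zero_of_lt_one (r := (1 / 2 : ℝ)) (by norm_num)
        (by norm_num)).const_mul (A₁ + A₂)
      rwa [mul_zero] at this
    obtain ⟨k, h3, h4⟩ := ((h1.eventually (gt_mem_nhds (show (0 : ℝ) < 1 / 16 by norm_num))).and
      (h2.eventually (gt_mem_nhds (show (0 : ℝ) < ρ / 2 by positivity)))).exists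
    exact ⟨k, h3.le, h4.le⟩
  -- the two halves
  obtain ⟨U, hU⟩ : ∃ U : Fam E, U = ∑ j ∈ Finset.range (k + 1),
    x₀ ^ j * (1 - x₀) ^ (k - j) * (((2 * k + 1).choose (k + 1 + j) : ℕ) : Fam E) := ⟨_, rfl⟩
  obtain ⟨V, hV⟩ : ∃ V : Fam E, V = ∑ j ∈ Finset.range (k + 1),
    x₀ ^ j * (1 - x₀) ^ (k - j) * (((2 * k + 1).choose j : ℕ) : Fam E) := ⟨_, rfl⟩
  have hsplit : (1 : Fam E) = x₀ ^ (k + 1) * U + (1 - x₀) ^ (k + 1) * V := by
    rw [hU, hV]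
    exact split_one x₀ k
  have hBU : BW 𝓕 U := by
    rw [hU]
    exact BW.sum fun j _ => ((hx.pow j).mul (hy.pow _)).mul (BW.const _)
  have hBV : BW 𝓕 V := by
    rw [hV]
    exact BW.sum fun j _ => ((hx.pow j).mul (hy.pow _)).mul (BW.const _)
  have hNU : NB 𝓕 U (2 * c₁ * (4 * b') ^ k) := by
    rw [hU, hc₁]
    exact half_bound hg hx hy hb'0.le hCx hCy hx1 hy1 k _ (choose_half k).2
  have hNV : NB 𝓕 V (2 * c₁ * (4 * b') ^ k) := by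
    rw [hV, hc₁]
    exact half_bound hg hx hy hb'0.le hCx hCy hx1 hy1 k _ (choose_half k).1
  obtain ⟨e₁, he₁⟩ : ∃ e₁ : Fam E, e₁ = x₀ ^ (k + 1) * U := ⟨_, rfl⟩
  have hBe₁ : BW 𝓕 e₁ := by rw [he₁]; exact (hx.pow _).mul hBU
  have h1e₁ : 1 - e₁ = (1 - x₀) ^ (k + 1) * V := by
    rw [he₁]
    linear_combination hsplit
  have hprod : e₁ * (1 - e₁) = (x₀ * (1 - x₀)) ^ (k + 1) * (U * V) := by
    rw [h1e₁, he₁, mul_pow]
    ring
  have hxn : BW 𝓕 (x₀ * (1 - x₀)) := hx.mul hy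
  obtain ⟨θ₁, hθ₁⟩ : ∃ θ₁, θ₁ = 4 * Cn * c₁ ^ 2 * ε₁ * (16 * b' ^ 2 * ε₁) ^ k := ⟨_, rfl⟩
  have hθ₁0 : 0 ≤ θ₁ := by rw [hθ₁]; positivity
  have hb5 : b' ^ 2 ≤ b' ^ 5 := pow_le_pow_right₀ hb'1 (by norm_num)
  have hb1 : b' ≤ b' ^ 5 := by
    calc b' = b' ^ 1 := (pow_one _).symm
      _ ≤ b' ^ 5 := pow_le_pow_right₀ hb'1 (by norm_num)
  have hθ₁1 : θ₁ ≤ 1 / 16 := by
    have h1 : 16 * b' ^ 2 * ε₁ ≤ 1 / 2 := by
      have : 16 * b' ^ 2 * ε₁ ≤ 64 * b' ^ 5 * ε₁ := by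
        apply mul_le_mul_of_nonneg_right _ hε₁0.le
        nlinarith
      rw [hlam] at this
      linarith
    calc θ₁ = 4 * Cn * c₁ ^ 2 * ε₁ * (16 * b' ^ 2 * ε₁) ^ k := hθ₁
      _ ≤ 4 * Cn * c₁ ^ 2 * ε₁ * (1 / 2) ^ k := by gcongr
      _ ≤ 1 / 16 := hk1
  have hNp : NB 𝓕 (e₁ * (1 - e₁)) θ₁ := by
    rw [hprod]
    have h1 := (hn1 (k + 1)).mul hg (hxn.pow _) (hBU.mul hBV)
      (hNU.mul hg hBU hBV hNV (by positivity)) (by positivity)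
    refine h1.mono (le_of_eq ?_)
    rw [hθ₁]
    have e1 : (16 * b' ^ 2 * ε₁) ^ k = (4 * b') ^ k * (4 * b') ^ k * ε₁ ^ k := by
      rw [← mul_pow, ← mul_pow]
      congr 1
      ring
    rw [e1]
    ring
  have hNe₁ : NB 𝓕 e₁ (2 * Cx * c₁ * b' * (4 * b' ^ 2) ^ k) := by
    rw [he₁]
    have h1 := (hx1 (k + 1)).mul hg (hx.pow _) hBU hNU (by positivity)
    refine h1.mono (le_of_eq ?_)
    have e1 : (4 * b' ^ 2) ^ k = (4 * b') ^ k * b' ^ k := by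
      rw [← mul_pow]
      congr 1
      ring
    rw [e1]
    ring
  obtain ⟨Ψ, hΨ, herr⟩ := hNp
  -- the correction
  obtain ⟨r, hr⟩ : ∃ r : Fam E, r = e₁ * (1 - e₁) - xf * Ψ := ⟨_, rfl⟩
  have hrz : ∀ w z, r w z = e₁ w z * (1 - e₁ w z) - w.2 z * Ψ w z := by
    intro w z
    rw [hr]
    rfl
  have hBr : ∀ᶠ w in 𝓕, DifferentiableOn ℂ (r w) w.1 ∧ ∀ z ∈ w.1, ‖r w z‖ ≤ θ₁ := by
    obtain ⟨C, hC⟩ := hBe₁
    obtain ⟨C', hC'⟩ := hΨ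
    refine (((hC.and hC').and hg.diff).and herr).mono fun w hw => ⟨?_, fun z hz => ?_⟩
    · rw [hr]
      exact (hw.1.1.1.1.mul (hw.1.1.1.1.const_sub 1)).sub (hw.1.2.mul hw.1.1.2.1)
    · rw [hrz]
      exact hw.2 z hz
  have hBr' : BW 𝓕 r := ⟨θ₁, hBr⟩
  obtain ⟨s, hs⟩ : ∃ s : Fam E, s = fun w z => rt (4 * r w z) := ⟨_, rfl⟩
  have hs1 : ∀ᶠ w in 𝓕, DifferentiableOn ℂ (s w) w.1 ∧ ∀ z ∈ w.1,
      ‖s w z - 1‖ ≤ 8 * θ₁ ∧ s w z ^ 2 * (1 - 4 * r w z) = 1 := by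
    refine hBr.mono fun w hw => ⟨fun z hz => ?_, fun z hz => ?_⟩
    · have h1 : ‖4 * r w z‖ < 1 := by
        rw [norm_mul]
        have h4 : ‖(4 : ℂ)‖ = 4 := by norm_num
        rw [h4]
        linarith [hw.2 z hz]
      rw [hs]
      exact DifferentiableAt.comp_differentiableWithinAt (g := rt) (f := fun z => 4 * r w z) z
        (rt_diff h1) ((hw.1 z hz).const_mul 4)
    · have h1 : ‖4 * r w z‖ ≤ 4 * θ₁ := by
        rw [norm_mul]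
        have h4 : ‖(4 : ℂ)‖ = 4 := by norm_num
        rw [h4]
        linarith [hw.2 z hz]
      rw [hs]
      exact ⟨(rt_sub_one (by linarith)).trans (by linarith), rt_sq (by linarith)⟩
  have hBs : BW 𝓕 s := by
    refine ⟨2, hs1.mono fun w hw => ⟨hw.1, fun z hz => ?_⟩⟩
    calc ‖s w z‖ = ‖(s w z - 1) + 1‖ := by rw [sub_add_cancel]
      _ ≤ ‖s w z - 1‖ + ‖(1 : ℂ)‖ := norm_add_le _ _
      _ ≤ 2 := by rw [norm_one]; linarith [(hw.2 z hz).1]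
  have hNs : NB 𝓕 (s - 1) (8 * θ₁) := NB.of_bdd (hs1.mono fun w hw z hz => (hw.2 z hz).1)
  obtain ⟨κ, hκ⟩ : ∃ κ : Fam E, κ = fun w z => -(4 * s w z ^ 2) * (1 + s w z)⁻¹ := ⟨_, rfl⟩
  have hκ1 : ∀ᶠ w in 𝓕, DifferentiableOn ℂ (κ w) w.1 ∧ ∀ z ∈ w.1,
      ‖κ w z‖ ≤ 16 ∧ 1 - s w z = r w z * κ w z := by
    refine hs1.mono fun w hw => ?_
    have h1 : ∀ z ∈ w.1, 1 ≤ ‖1 + s w z‖ := by
      intro z hz
      have h2 : ‖s w z - 1‖ ≤ 1 := (hw.2 z hz).1.trans (by linarith)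
      have h3 : ‖(2 : ℂ)‖ ≤ ‖1 + s w z‖ + ‖s w z - 1‖ := by
        calc ‖(2 : ℂ)‖ = ‖(1 + s w z) - (s w z - 1)‖ := by congr 1; ring
          _ ≤ _ := norm_sub_le _ _
      have h4 : ‖(2 : ℂ)‖ = 2 := by norm_num
      rw [h4] at h3
      linarith
    have h0 : ∀ z ∈ w.1, 1 + s w z ≠ 0 := by
      intro z hz h
      have := h1 z hz
      rw [h, norm_zero] at this
      linarith
    refine ⟨?_, fun z hz => ⟨?_, ?_⟩⟩
    · rw [hκ]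
      exact ((hw.1.pow 2).const_mul 4).neg.mul ((hw.1.const_add 1).fun_inv h0)
    · rw [hκ]
      beta_reduce
      rw [norm_mul, norm_neg, norm_mul, norm_pow, norm_inv]
      have h4 : ‖(4 : ℂ)‖ = 4 := by norm_num
      rw [h4]
      have h5 : ‖s w z‖ ≤ 2 := by
        calc ‖s w z‖ = ‖(s w z - 1) + 1‖ := by rw [sub_add_cancel]
          _ ≤ ‖s w z - 1‖ + ‖(1 : ℂ)‖ := norm_add_le _ _
          _ ≤ 2 := by rw [norm_one]; linarith [(hw.2 z hz).1]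
      have h6 : ‖1 + s w z‖⁻¹ ≤ 1 := inv_le_one_of_one_le₀ (h1 z hz)
      have h7 : ‖s w z‖ ^ 2 ≤ 4 := by nlinarith [norm_nonneg (s w z)]
      calc 4 * ‖s w z‖ ^ 2 * ‖1 + s w z‖⁻¹ ≤ 4 * 4 * 1 := by gcongr
        _ = 16 := by norm_num
    · have h2 := (hw.2 z hz).2
      have h3 := h0 z hz
      rw [hκ]
      beta_reduce
      field_simp
      linear_combination -h2
  have hBκ : BW 𝓕 κ := ⟨16, hκ1.mono fun w hw => ⟨hw.1, fun z hz => (hw.2 z hz).1⟩⟩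
  obtain ⟨hf, hhf⟩ : ∃ hf : Fam E, hf = fun _ _ => (1 / 2 : ℂ) := ⟨_, rfl⟩
  have hBh : BW 𝓕 hf := by rw [hhf]; exact BW.const _
  obtain ⟨e, he⟩ : ∃ e : Fam E, e = hf + (e₁ - hf) * s := ⟨_, rfl⟩
  have hez : ∀ w z, e w z = 1 / 2 + (e₁ w z - 1 / 2) * s w z := by
    intro w z
    rw [he, hhf]
    rfl
  have hBe : BW 𝓕 e := by rw [he]; exact hBh.add ((hBe₁.sub hBh).mul hBs)
  have hid : NB 𝓕 (e * (1 - e)) 0 := by
    refine ⟨Ψ * s ^ 2, hΨ.mul (hBs.pow 2), hs1.mono fun w hw z hz => ?_⟩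
    have h1 : (e * (1 - e)) w z - w.2 z * (Ψ * s ^ 2) w z = 0 := by
      have h2 := (hw.2 z hz).2
      rw [hrz] at h2
      simp only [Pi.mul_apply, Pi.sub_apply, Pi.one_apply, Pi.pow_apply, hez]
      linear_combination (-(1 : ℂ) / 4) * h2
    rw [h1, norm_zero]
  have hNh : NB 𝓕 hf 1 := by
    rw [hhf]
    refine (NB.const _).mono ?_
    norm_num
  refine ⟨e, (1 - x₀) ^ k * V * (1 + (e₁ - hf) * κ * e₁), hBe, ?_, hid, ?_, ?_⟩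
  · exact ((hy.pow _).mul hBV).mul (BW.one.add (((hBe₁.sub hBh).mul hBκ).mul hBe₁))
  · refine ⟨-((e₁ - hf) * κ * Ψ), (((hBe₁.sub hBh).mul hBκ).mul hΨ).neg,
      hκ1.mono fun w hw z hz => ?_⟩
    have h2 := (hw.2 z hz).2
    have h3 : 1 - e₁ w z = (1 - x₀ w z) ^ (k + 1) * V w z := by
      have := congrFun (congrFun h1e₁ w) z
      simpa only [Pi.mul_apply, Pi.sub_apply, Pi.one_apply, Pi.pow_apply] using this
    have h4 : (1 - e - (1 - x₀) * ((1 - x₀) ^ k * V * (1 + (e₁ - hf) * κ * e₁))) w z -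
        w.2 z * (-((e₁ - hf) * κ * Ψ)) w z = 0 := by
      have h5 := hrz w z
      simp only [Pi.mul_apply, Pi.sub_apply, Pi.one_apply, Pi.pow_apply, Pi.add_apply,
        Pi.neg_apply, hez, hhf]
      have h6 : (1 - x₀ w z) * ((1 - x₀ w z) ^ k * V w z *
          (1 + (e₁ w z - 1 / 2) * κ w z * e₁ w z)) =
          (1 - e₁ w z) * (1 + (e₁ w z - 1 / 2) * κ w z * e₁ w z) := by
        rw [h3, pow_succ]
        ring
      rw [h6]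
      linear_combination (e₁ w z - 1 / 2) * h2 + (e₁ w z - 1 / 2) * κ w z * h5
    rw [h4, norm_zero]
  · refine Rad.of_pow hg (hBe.mul hy) (K := k + 1) (by omega) hρ ?_
    -- the estimate for the power
    have hY := hy1 (k + 1)
    have h1 : NB 𝓕 (e₁ * (1 - x₀) ^ (k + 1)) (A₁ * (ρ / 2) ^ k) := by
      have e1 : e₁ * (1 - x₀) ^ (k + 1) = (x₀ * (1 - x₀)) ^ (k + 1) * U := by
        rw [he₁, mul_pow]
        ring
      rw [e1]
      refine ((hn1 (k + 1)).mul hg (hxn.pow _) hBU hNU (by positivity)).mono ?_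
      calc Cn * ε₁ ^ (k + 1) * (2 * c₁ * (4 * b') ^ k) = A₁ * (4 * b' * ε₁) ^ k := by
            rw [hA₁, mul_pow (4 * b') ε₁ k, pow_succ]
            ring
        _ ≤ A₁ * (ρ / 2) ^ k := by
            rw [← hlam]
            gcongr
            · norm_num
    have h2 : NB 𝓕 ((e - e₁) * (1 - x₀) ^ (k + 1)) (A₂ * (ρ / 2) ^ k) := by
      have e1 : e - e₁ = (e₁ - hf) * (s - 1) := by rw [he]; ring
      rw [e1]
      have h3 : NB 𝓕 ((e₁ - hf) * (s - 1))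
          ((2 * Cx * c₁ * b' * (4 * b' ^ 2) ^ k + 1) * (8 * θ₁)) :=
        (hNe₁.sub hNh).mul hg (hBe₁.sub hBh) (hBs.sub BW.one) hNs (by positivity)
      refine (h3.mul hg ((hBe₁.sub hBh).mul (hBs.sub BW.one)) (hy.pow _) hY
        (by positivity)).mono ?_
      have h4 : 2 * Cx * c₁ * b' * (4 * b' ^ 2) ^ k + 1 ≤
          (2 * Cx * c₁ * b' + 1) * (4 * b' ^ 2) ^ k := by
        have : 1 ≤ (4 * b' ^ 2) ^ k := one_le_pow₀ (by nlinarith)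
        nlinarith
      calc (2 * Cx * c₁ * b' * (4 * b' ^ 2) ^ k + 1) * (8 * θ₁) * (Cy * b' ^ (k + 1)) ≤
            (2 * Cx * c₁ * b' + 1) * (4 * b' ^ 2) ^ k * (8 * θ₁) * (Cy * b' ^ (k + 1)) := by
            gcongr
        _ = A₂ * (64 * b' ^ 5 * ε₁) ^ k := by
            have e2 : (64 * b' ^ 5 * ε₁) ^ k =
                (4 * b' ^ 2) ^ k * (16 * b' ^ 2 * ε₁) ^ k * b' ^ k := by
              rw [← mul_pow, ← mul_pow]
              congr 1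
              ring
            rw [hθ₁, hA₂, e2, pow_succ]
            ring
        _ = A₂ * (ρ / 2) ^ k := by rw [hlam]
    have h3 : NB 𝓕 (e * (1 - x₀) ^ (k + 1)) ((A₁ + A₂) * (ρ / 2) ^ k) := by
      have e1 : e * (1 - x₀) ^ (k + 1) =
          e₁ * (1 - x₀) ^ (k + 1) + (e - e₁) * (1 - x₀) ^ (k + 1) := by ring
      rw [e1, add_mul]
      exact h1.add h2
    have h4 : N0 𝓕 ((e * (1 - x₀)) ^ (k + 1) - e * (1 - x₀) ^ (k + 1)) := by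
      have e1 : (e * (1 - x₀)) ^ (k + 1) - e * (1 - x₀) ^ (k + 1) =
          (e ^ (k + 1) - e) * (1 - x₀) ^ (k + 1) := by rw [mul_pow]; ring
      rw [e1]
      exact (idem_pow hg hBe (fun θ hθ => hid.mono hθ.le) k).mul hg ((hBe.pow _).sub hBe)
        (hy.pow _)
    have h5 : (A₁ + A₂) * (ρ / 2) ^ k < ρ ^ (k + 1) := by
      have e1 : (A₁ + A₂) * (ρ / 2) ^ k = (A₁ + A₂) * (1 / 2) ^ k * ρ ^ k := by
        rw [div_eq_mul_one_div, mul_pow]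
        ring
      rw [e1, pow_succ, mul_comm (ρ ^ k)]
      apply mul_lt_mul_of_pos_right _ (by positivity)
      linarith
    exact Rad.of_NB hg ((hBe.mul hy).pow _) (h3.of_N0 h4 h5) (by positivity)

end Pool.Agent.MPca0fc2.IND
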