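import Mathlib
import Pool.Agent.Lib.MP_ca0fc2_an.Mg.G064

/-! The functions with small oscillation on the components of the tame cells are in the class. -/

set_option autoImplicit false

open Metric Set MeasureTheory Filter Topology

namespace Pool.Agent.MPca0fc2.IND


open Pool.Agent.Lib.MP_ca0fc2_an (IsHinf cellOn HullOn)
open Pool.Agent.MPca0fc2.CXS (isOpen_cellOn)

variable {n : ℕ} {Δ : Set (EuclideanSpace ℂ (Fin n))}

/-- A function which on each component of an open set is one of two holomorphic functions. -/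
theorem diff_comps {E : Type*} [NormedAddCommGroup E] [InnerProductSpace ℂ E] {D A : Set E}
    (hD : IsOpen D) (hA : ∀ z ∈ D, ∀ w ∈ connectedComponentIn D z, (w ∈ A ↔ z ∈ A))
    {f g h : E → ℂ} (hf : ∀ z ∈ D, z ∈ A → h z = f z) (hg : ∀ z ∈ D, z ∉ A → h z = g z)
    (hfd : ∀ z ∈ D, z ∈ A → DifferentiableAt ℂ f z)
    (hgd : ∀ z ∈ D, z ∉ A → DifferentiableAt ℂ g z) : DifferentiableOn ℂ h D := by
  intro z hz
  have hopen : IsOpen (connectedComponentIn D z) := hD.connectedComponentIn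
  have hmem : z ∈ connectedComponentIn D z := mem_connectedComponentIn hz
  by_cases hzA : z ∈ A
  · refine ((hfd z hz hzA).congr_of_eventuallyEq ?_).differentiableWithinAt
    filter_upwards [hopen.mem_nhds hmem] with w hw
    exact hf w (connectedComponentIn_subset D z hw) ((hA z hz w hw).2 hzA)
  · refine ((hgd z hz hzA).congr_of_eventuallyEq ?_).differentiableWithinAt
    filter_upwards [hopen.mem_nhds hmem] with w hw
    exact hg w (connectedComponentIn_subset D z hw) fun h => hzA ((hA z hz w hw).1 h)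

theorem InT.of_hull (hΔ : IsOpen Δ) (Φ : Char Δ Unit) {S : Set (EuclideanSpace ℂ (Fin n) → ℂ)}
    (hS : ∀ a ∈ S, IsHinf Δ a) (F : EuclideanSpace ℂ (Fin n) → ℂ)
    {G : EuclideanSpace ℂ (Fin n) → ℂ} (hG : G ∈ HullOn Δ S) : InT Φ (flt Φ S F) G := by
  classical
  obtain ⟨⟨hGd, M, hM⟩, hosc⟩ := hG
  have hg := flt_good Φ S F
  have hB : BH Δ (cf G) := ⟨fun _ => hGd, M, fun _ z hz => hM z hz⟩
  refine ⟨hB, fun ε hε => ?_⟩
  obtain ⟨c, hc⟩ : ∃ c, c = Φ.φ (cf G) := ⟨_, rfl⟩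
  rw [← hc]
  obtain ⟨k, a, ρ, hρ, ha, hk⟩ := hosc (ε / 2) (by positivity)
  obtain ⟨D, hD⟩ : ∃ D, D = cellOn Δ a (fun i => Φ.φ (cf (a i))) ρ := ⟨_, rfl⟩
  have hDo : IsOpen D := by
    rw [hD]
    exact isOpen_cellOn hΔ (fun i => (hS _ (ha i)).1) (fun i => Φ.φ (cf (a i))) _
  have hDb : D ⊆ Δ := fun z hz => by rw [hD] at hz; exact hz.1
  obtain ⟨A, hA⟩ : ∃ A : Set (EuclideanSpace ℂ (Fin n)), A = {z | z ∈ D ∧
    ∃ w ∈ connectedComponentIn D z, ‖G w - c‖ < ε / 2} := ⟨_, rfl⟩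
  have hAc : ∀ z ∈ D, ∀ w ∈ connectedComponentIn D z, (w ∈ A ↔ z ∈ A) := by
    intro z hz w hw
    have h1 : connectedComponentIn D z = connectedComponentIn D w := connectedComponentIn_eq hw
    have hwD : w ∈ D := connectedComponentIn_subset D z hw
    rw [hA]
    simp only [mem_setOf_eq]
    rw [h1]
    exact ⟨fun h => ⟨hz, h.2⟩, fun h => ⟨hwD, h.2⟩⟩
  have hin : ∀ z ∈ A, ‖G z - c‖ ≤ ε := by
    intro z hz
    rw [hA] at hz
    obtain ⟨hz1, w, hw, hwc⟩ := hz
    rw [hD] at hz1 hw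
    have h1 := hk _ z z (mem_connectedComponentIn hz1) w hw
    calc ‖G z - c‖ = ‖(G z - G w) + (G w - c)‖ := by congr 1; ring
      _ ≤ ‖G z - G w‖ + ‖G w - c‖ := norm_add_le _ _
      _ ≤ ε := by linarith
  have hout : ∀ z ∈ D, z ∉ A → ε / 2 ≤ ‖G z - c‖ := by
    intro z hz hzA
    by_contra hcon
    push Not at hcon
    apply hzA
    rw [hA]
    exact ⟨hz, z, mem_connectedComponentIn hz, hcon⟩
  -- the small cells are in `D`
  have hev : ∀ᶠ w in flt Φ S F, w.1 ⊆ D := by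
    refine (mem_flt Φ S F).2 ⟨Finset.univ.image fun i => (⟨a i, ha i⟩ : S), ρ / 2,
      by positivity, ?_⟩
    rintro w ⟨h1, -, -, h4⟩ z hz
    rw [hD]
    refine ⟨h1 hz, fun i => ?_⟩
    have := h4 ⟨a i, ha i⟩ (Finset.mem_image_of_mem _ (Finset.mem_univ i)) z hz
    dsimp only at this
    linarith
  obtain ⟨e, he⟩ : ∃ e : Fam (EuclideanSpace ℂ (Fin n)), e = fun _ z => if z ∈ A then 1 else 0 :=
    ⟨_, rfl⟩
  obtain ⟨h, hh⟩ : ∃ h : Fam (EuclideanSpace ℂ (Fin n)), h = fun _ z =>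
    if z ∈ A then 0 else (G z - c)⁻¹ := ⟨_, rfl⟩
  have hed : ∀ w, DifferentiableOn ℂ (e w) D := by
    intro w
    rw [he]
    exact diff_comps hDo hAc (f := fun _ => 1) (g := fun _ => 0) (fun z _ h => if_pos h)
      (fun z _ h => if_neg h) (fun _ _ _ => differentiableAt_const _)
      (fun _ _ _ => differentiableAt_const _)
  have hhd : ∀ w, DifferentiableOn ℂ (h w) D := by
    intro w
    rw [hh]
    refine diff_comps hDo hAc (f := fun _ => 0) (g := fun z => (G z - c)⁻¹) (fun z _ h => if_pos h)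
      (fun z _ h => if_neg h) (fun _ _ _ => differentiableAt_const _) fun z hz hzA => ?_
    have h1 : DifferentiableAt ℂ G z := hGd.differentiableAt (hΔ.mem_nhds (hDb hz))
    have h2 := hout z hz hzA
    exact (h1.sub_const c).inv fun h0 => by
      rw [h0, norm_zero] at h2
      linarith
  have he1 : ∀ w z, ‖e w z‖ ≤ 1 := by
    intro w z
    rw [he]
    dsimp only
    split_ifs <;> simp
  have hh1 : ∀ w, ∀ z ∈ D, ‖h w z‖ ≤ 2 / ε := by
    intro w z hz
    rw [hh]
    dsimp only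
    split_ifs with hzA
    · rw [norm_zero]; positivity
    · have h2 := hout z hz hzA
      rw [norm_inv, inv_le_comm₀ (by linarith) (by positivity)]
      have : (2 / ε)⁻¹ = ε / 2 := by rw [inv_div]
      rw [this]
      exact h2
  have hbe : BW (flt Φ S F) e := ⟨1, hev.mono fun w hw => ⟨(hed w).mono hw, fun z _ => he1 w z⟩⟩
  have hbh : BW (flt Φ S F) h := ⟨2 / ε, hev.mono fun w hw => ⟨(hhd w).mono hw, fun z hz =>
    hh1 w z (hw hz)⟩⟩
  have hv : BH Δ (cf fun z => G z - c) := hB.sub (BH.const c)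
  have hv0 : Φ.φ (cf fun z => G z - c) = 0 := by
    have h1 := Char.map_sub Φ hB (BH.const c)
    rw [Φ.map_const] at h1
    refine Eq.trans h1 ?_
    rw [hc, sub_self]
  refine ⟨e, ⟨hbe, ?_, ?_⟩, ?_⟩
  · refine NB.of_bdd (Eventually.of_forall fun w z _ => ?_)
    show ‖e w z * (1 - e w z)‖ ≤ 0
    rw [he]
    dsimp only
    split_ifs <;> simp
  · refine (Ide.of_gl hg hv hv0 hbh).congr fun θ hθ => NB.of_bdd (hev.mono fun w hw z hz => ?_)
    show ‖(1 - e w z) - (G z - c) * h w z‖ ≤ θ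
    rw [he, hh]
    dsimp only
    split_ifs with hzA
    · simp [hθ.le]
    · have h2 := hout z (hw hz) hzA
      have h3 : G z - c ≠ 0 := fun h0 => by
        rw [h0, norm_zero] at h2
        linarith
      rw [mul_inv_cancel₀ h3]
      simp [hθ.le]
  · refine Rad.of_NB hg (hbe.mul ((bw_gl hg hB).sub (bw_cst c))) ?_ hε.le
    refine NB.of_bdd (Eventually.of_forall fun w z _ => ?_)
    show ‖e w z * (G z - c)‖ ≤ ε
    rw [he]
    dsimp only
    split_ifs with hzA
    · rw [one_mul]; exact hin z hzA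
    · rw [zero_mul, norm_zero]; exact hε.le

end Pool.Agent.MPca0fc2.IND
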