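import Mathlib
import Pool.Agent.Lib.MP_ca0fc2_an.Mg.G045

set_option autoImplicit false

open Metric Set MeasureTheory Filter Topology
open scoped InnerProductSpace ENNReal

namespace Pool.Agent.MPca0fc2.QT

open Pool.Agent.MPca0fc2.PT

variable {E : Type*} [NormedAddCommGroup E] [InnerProductSpace ℂ E]
variable [FiniteDimensional ℂ E] [MeasurableSpace E] [BorelSpace E]

private theorem cmp_t {θ : ℝ} (hθ0 : 0 < θ) (hθ1 : θ < 1) (k : ℕ) :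
    0 < θ ^ k ∧ θ ^ k ≤ 1 ∧ RC θ k ≤ 1 + 3 * θ ^ k / 4 := by
  have h0 : 0 < θ ^ k := pow_pos hθ0 k
  refine ⟨h0, pow_le_one₀ hθ0.le hθ1.le, ?_⟩
  have h1 : θ ^ (k + 1) ≤ θ ^ k := by
    rw [pow_succ]
    nlinarith
  rw [RC]
  linarith

/-- the elementary inequalities between the depths -/
private theorem cmp_real {t R s : ℝ} (ht0 : 0 < t) (ht1 : t ≤ 1) (hR1 : 1 ≤ R)
    (hR : R ≤ 1 + 3 * t / 4) (hs0 : 0 ≤ s) (hs : s < R) :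
    t ≤ 4 * (1 - (1 - t) ^ 2 * s ^ 2) ∧ R ^ 2 - s ^ 2 ≤ 13 * (1 - (1 - t) ^ 2 * s ^ 2) ∧
      1 - (1 - t) ^ 2 * s ^ 2 ≤ (R ^ 2 - s ^ 2) + 7 * t := by
  have hs2 : s ^ 2 ≤ R ^ 2 := by nlinarith
  have hR2 : R ^ 2 ≤ 1 + 33 * t / 16 := by nlinarith
  have h1t : 0 ≤ 1 - t := by linarith
  have hA : (1 - t) * s ≤ 1 - t / 4 := by
    have h1 : (1 - t) * s ≤ (1 - t) * (1 + 3 * t / 4) :=
      mul_le_mul_of_nonneg_left (by linarith) h1t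
    nlinarith
  have hA0 : 0 ≤ (1 - t) * s := mul_nonneg h1t hs0
  have hA2 : ((1 - t) * s) ^ 2 ≤ (1 - t / 4) ^ 2 := by nlinarith
  have hA3 : (1 - t) ^ 2 * s ^ 2 = ((1 - t) * s) ^ 2 := by ring
  have h4 : t ≤ 4 * (1 - (1 - t) ^ 2 * s ^ 2) := by
    rw [hA3]
    nlinarith
  refine ⟨h4, ?_, ?_⟩
  · have h5 : 1 - s ^ 2 ≤ 1 - (1 - t) ^ 2 * s ^ 2 := by
      have : (1 - t) ^ 2 ≤ 1 := by nlinarith
      have := mul_le_mul_of_nonneg_right this (sq_nonneg s)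
      linarith
    nlinarith
  · have h6 : 1 - (1 - t) ^ 2 * s ^ 2 = (1 - s ^ 2) + (2 * t - t ^ 2) * s ^ 2 := by ring
    have h7 : (2 * t - t ^ 2) * s ^ 2 ≤ 2 * t * (49 / 16) := by
      have h8 : s ^ 2 ≤ 49 / 16 := by nlinarith
      have h9 : 2 * t - t ^ 2 ≤ 2 * t := by nlinarith
      have h10 : 0 ≤ 2 * t - t ^ 2 := by nlinarith
      exact mul_le_mul h9 h8 (sq_nonneg s) (by linarith)
    rw [h6]
    nlinarith

private theorem gau_mono {E : Type*} [NormedAddCommGroup E] [InnerProductSpace ℂ E]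
    {a b C : ℝ} (ha : 0 < a) (hb : 0 < b) (hC : 1 ≤ C) (h : b ≤ C * a) (w x : E) :
    gau a w x ≤ C * gau b w x := by
  rw [gau, gau, mul_add]
  have h1 : 1 / a ≤ C / b := by
    rw [div_le_div_iff₀ ha hb]
    linarith
  have h2 : 1 / Real.sqrt a ≤ C / Real.sqrt b := by
    rw [div_le_div_iff₀ (Real.sqrt_pos.2 ha) (Real.sqrt_pos.2 hb)]
    have h3 : Real.sqrt b ≤ Real.sqrt (C * a) := Real.sqrt_le_sqrt h
    rw [Real.sqrt_mul (by linarith)] at h3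
    have h4 : Real.sqrt C ≤ C := by
      rw [Real.sqrt_le_left (by linarith)]
      nlinarith
    have h5 := mul_le_mul_of_nonneg_right h4 (Real.sqrt_nonneg a)
    linarith
  have h3 := mul_le_mul_of_nonneg_left h1 (norm_nonneg ⟪w, x⟫_ℂ)
  have h4 := mul_le_mul_of_nonneg_left h2 (norm_nonneg x)
  have e1 : ‖⟪w, x⟫_ℂ‖ * (1 / a) = ‖⟪w, x⟫_ℂ‖ / a := by ring
  have e2 : ‖⟪w, x⟫_ℂ‖ * (C / b) = C * (‖⟪w, x⟫_ℂ‖ / b) := by ring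
  have e3 : ‖x‖ * (1 / Real.sqrt a) = ‖x‖ / Real.sqrt a := by ring
  have e4 : ‖x‖ * (C / Real.sqrt b) = C * (‖x‖ / Real.sqrt b) := by ring
  rw [e1, e2] at h3
  rw [e3, e4] at h4
  linarith

omit [FiniteDimensional ℂ E] [MeasurableSpace E] [BorelSpace E] in
/-- the anisotropic lengths with the depths `dl θ k` and `R² - |.|²` -/
theorem gau_compare {θ : ℝ} (hθ0 : 0 < θ) (hθ1 : θ < 1) {c₀ : ℝ} (hc₀ : 0 < c₀) :
    ∃ C : ℝ, 0 < C ∧ ∀ (k : ℕ) (R : ℝ) (w x : E), 1 ≤ R → R ≤ RC θ k →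
      (‖w‖ < R → gau (dl θ k w) w x ≤ C * gau (R ^ 2 - ‖w‖ ^ 2) w x) ∧
      (‖w‖ + c₀ * θ ^ k ≤ R → gau (R ^ 2 - ‖w‖ ^ 2) w x ≤ C * gau (dl θ k w) w x) := by
  have hc7 : 0 < 7 / c₀ := by positivity
  refine ⟨13 + 7 / c₀, by positivity, ?_⟩
  intro k R w x hR1 hR
  obtain ⟨ht0, ht1, hRC⟩ := cmp_t hθ0 hθ1 k
  have hR' := hR.trans hRC
  have hwn := norm_nonneg w
  have hdl : ‖w‖ < R → 0 < dl θ k w ∧ R ^ 2 - ‖w‖ ^ 2 ≤ 13 * dl θ k w ∧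
      dl θ k w ≤ (R ^ 2 - ‖w‖ ^ 2) + 7 * θ ^ k ∧ 0 < R ^ 2 - ‖w‖ ^ 2 := by
    intro hw
    obtain ⟨w1, w2, w3⟩ := cmp_real ht0 ht1 hR1 hR' (norm_nonneg w) hw
    rw [dl, rt]
    exact ⟨by linarith, w2, w3, by nlinarith⟩
  constructor
  · intro hw
    obtain ⟨h0, h1, h2, h3⟩ := hdl hw
    apply gau_mono h0 h3 (by linarith)
    have : 0 ≤ 7 / c₀ * dl θ k w := by positivity
    linarith
  · intro hw
    have hct : 0 < c₀ * θ ^ k := by positivity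
    have hwR : ‖w‖ < R := by linarith
    obtain ⟨h0, h1, h2, h3⟩ := hdl hwR
    apply gau_mono h3 h0 (by linarith)
    have htd : c₀ * θ ^ k ≤ R ^ 2 - ‖w‖ ^ 2 := by nlinarith
    have h4 : θ ^ k ≤ (R ^ 2 - ‖w‖ ^ 2) / c₀ := by
      rw [le_div_iff₀ hc₀]
      linarith
    have h5 : (13 + 7 / c₀) * (R ^ 2 - ‖w‖ ^ 2) =
        13 * (R ^ 2 - ‖w‖ ^ 2) + 7 * ((R ^ 2 - ‖w‖ ^ 2) / c₀) := by ring
    rw [h5]
    linarith

end Pool.Agent.MPca0fc2.QT
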