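import Mathlib
import Pool.Agent.Lib.MP_ca0fc2_an.TWDefs
import Pool.Agent.Lib.MP_ca0fc2_an.Mg.G012

set_option autoImplicit false
set_option linter.unusedSectionVars false

open Metric Set MeasureTheory Filter Topology
open scoped InnerProductSpace ENNReal

namespace Pool.Agent.MPca0fc2.TW

open Pool.Agent.MPca0fc2.PT
open Pool.Agent.MPca0fc2.QT

variable {E : Type*} [NormedAddCommGroup E] [InnerProductSpace ℂ E]
variable [FiniteDimensional ℂ E] [MeasurableSpace E] [BorelSpace E]

theorem k4_cW_pos (τ : ℕ) (μ : Measure E) [μ.IsAddHaarMeasure] : 0 < cW τ μ := by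
  have hprop : ProperSpace E := FiniteDimensional.proper ℂ E
  have hfin : IsFiniteMeasure (μ.restrict (ball (0 : E) 1)) :=
    ⟨by rw [Measure.restrict_apply_univ]; exact measure_ball_lt_top⟩
  unfold cW
  rw [setIntegral_pos_iff_support_of_nonneg_ae]
  · have : Function.support (fun w : E => WW τ w) ∩ ball 0 1 = ball 0 1 := by
      apply inter_eq_right.mpr
      intro w hw
      rw [mem_ball_zero_iff] at hw
      have : 0 < 1 - ‖w‖ ^ 2 := by nlinarith [norm_nonneg w]
      rw [Function.mem_support]
      unfold WW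
      positivity
    rw [this]
    exact measure_ball_pos μ 0 one_pos
  · refine (ae_restrict_iff' measurableSet_ball).mpr (Eventually.of_forall fun w hw => ?_)
    rw [mem_ball_zero_iff] at hw
    have h1 : 0 ≤ 1 - ‖w‖ ^ 2 := by nlinarith [norm_nonneg w]
    unfold WW
    have : (0 : E → ℝ) w = 0 := rfl
    rw [this]
    positivity
  · refine Integrable.mono' (g := fun _ => (1 : ℝ)) (integrable_const _) ?_ ?_
    · apply Continuous.aestronglyMeasurable
      unfold WW
      fun_prop
    · refine (ae_restrict_iff' measurableSet_ball).mpr (Eventually.of_forall fun w hw => ?_)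
      rw [mem_ball_zero_iff] at hw
      have h1 : 0 ≤ 1 - ‖w‖ ^ 2 := by nlinarith [norm_nonneg w]
      have h2 : 1 - ‖w‖ ^ 2 ≤ 1 := by nlinarith [norm_nonneg w]
      unfold WW
      rw [Real.norm_of_nonneg (by positivity)]
      exact pow_le_one₀ h1 h2

end Pool.Agent.MPca0fc2.TW
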