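import Mathlib
import Pool.Agent.Lib.MP_ca0fc2_an.Mg.G055
import Pool.Agent.Lib.MP_ca0fc2_an.QTGrp

set_option autoImplicit false
set_option linter.unusedSectionVars false

open Metric Set MeasureTheory Filter Topology
open scoped InnerProductSpace ENNReal

namespace Pool.Agent.MPca0fc2.QT

open Pool.Agent.MPca0fc2.PT

variable {E : Type*} [NormedAddCommGroup E] [InnerProductSpace ℂ E]
variable {V : Type*} [NormedAddCommGroup V] [NormedSpace ℂ V]
variable [FiniteDimensional ℂ E] [MeasurableSpace E] [BorelSpace E]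

/-- unitary maps preserve additive Haar measures -/
theorem mp_isom (μ : Measure E) [μ.IsAddHaarMeasure] (U : E ≃ₗᵢ[ℂ] E) :
    MeasurePreserving U μ μ := by
  have : FiniteDimensional ℝ E := FiniteDimensional.complexToReal E
  have : ProperSpace E := FiniteDimensional.proper ℂ E
  refine ⟨U.continuous.measurable, ?_⟩
  have h1 : (μ.map U).IsAddHaarMeasure :=
    U.toContinuousLinearEquiv.isAddHaarMeasure_map μ
  have h2 := Measure.isAddLeftInvariant_eq_smul (μ.map U) μ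
  set c := Measure.addHaarScalarFactor (μ.map U) μ with hc
  have hb : (μ.map U) (ball 0 1) = μ (ball 0 1) := by
    rw [Measure.map_apply U.continuous.measurable measurableSet_ball]
    congr 1
    ext x
    simp
  rw [h2] at hb
  rw [Measure.smul_apply, ENNReal.smul_def, smul_eq_mul] at hb
  have h3 : μ (ball (0 : E) 1) ≠ 0 := (measure_ball_pos μ 0 one_pos).ne'
  have h4 : μ (ball (0 : E) 1) ≠ ∞ := measure_ball_lt_top.ne
  have h5 : (c : ℝ≥0∞) = 1 := by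
    have := (ENNReal.mul_eq_right h3 h4).mp hb
    exact this
  have h6 : c = 1 := by exact_mod_cast h5
  rw [h2, h6, one_smul]

/-- the pull back by a unitary map -/
noncomputable def uu {q : ℕ} (U : E ≃ₗᵢ[ℂ] E) (P : E [⋀^Fin q]→L[ℝ] V) : E [⋀^Fin q]→L[ℝ] V :=
  P.compContinuousLinearMap
    ((U.toContinuousLinearEquiv.toContinuousLinearMap).restrictScalars ℝ)

theorem uu_apply {q : ℕ} (U : E ≃ₗᵢ[ℂ] E) (P : E [⋀^Fin q]→L[ℝ] V) (v : Fin q → E) :
    uu U P v = P (fun i => U (v i)) := rfl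

/-- the integrand in the definition of `T0` transforms well -/
theorem T0_uu (μ : Measure E) [μ.IsAddHaarMeasure] {q : ℕ} (U : E ≃ₗᵢ[ℂ] E)
    (ζ : E → E [⋀^Fin (q + 1)]→L[ℝ] V) :
    T0 μ (fun x => uu U (ζ (U x))) = uu U (T0 μ ζ) := by
  have : FiniteDimensional ℝ E := FiniteDimensional.complexToReal E
  have : ProperSpace E := FiniteDimensional.proper ℂ E
  let e : E ≃L[ℝ] E := (U.symm.toContinuousLinearEquiv).restrictScalars ℝ
  let Φ : (E [⋀^Fin q]→L[ℝ] V) ≃L[ℝ] (E [⋀^Fin q]→L[ℝ] V) :=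
    e.continuousAlternatingMapCongrLeft
  have hΦ : ∀ P : E [⋀^Fin q]→L[ℝ] V, Φ P = uu U P := by
    intro P
    ext v
    rfl
  have hmp : MeasurePreserving (fun p : ℝ × E => (p.1, U p.2)) (volume.prod μ) (volume.prod μ) :=
    (MeasurePreserving.id volume).prod (mp_isom μ U)
  have hemb : MeasurableEmbedding (fun p : ℝ × E => (p.1, U p.2)) :=
    ((Homeomorph.refl ℝ).prodCongr U.toHomeomorph).measurableEmbedding
  let F : ℝ × E → E [⋀^Fin q]→L[ℝ] V := fun p =>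
    ((1 - p.1 ^ 2) ^ q * WW p.2) • (ζ ((p.1 : ℂ) • p.2)).curryLeft p.2
  have hF : ∀ p : ℝ × E, ((1 - p.1 ^ 2) ^ q * WW p.2) •
      (uu U (ζ (U ((p.1 : ℂ) • p.2)))).curryLeft p.2 = uu U (F (p.1, U p.2)) := by
    intro p
    ext v
    simp only [F, uu_apply, ContinuousAlternatingMap.smul_apply,
      ContinuousAlternatingMap.curryLeft_apply_apply, map_smul]
    have h1 : WW (U p.2) = WW p.2 := by simp [WW]
    rw [h1]
    congr 2
    ext i
    refine Fin.cases ?_ (fun j => ?_) i <;> rfl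
  have hset : (fun p : ℝ × E => (p.1, U p.2)) ⁻¹' (Icc (0 : ℝ) 1 ×ˢ ball (0 : E) 1) =
      Icc (0 : ℝ) 1 ×ˢ ball (0 : E) 1 := by
    ext p
    simp
  have hint : ∫ p in Icc (0 : ℝ) 1 ×ˢ ball (0 : E) 1, uu U (F (p.1, U p.2)) ∂(volume.prod μ) =
      uu U (∫ p in Icc (0 : ℝ) 1 ×ˢ ball (0 : E) 1, F p ∂(volume.prod μ)) := by
    have h1 : ∫ p in Icc (0 : ℝ) 1 ×ˢ ball (0 : E) 1, uu U (F (p.1, U p.2)) ∂(volume.prod μ) =
        ∫ p in Icc (0 : ℝ) 1 ×ˢ ball (0 : E) 1, Φ (F (p.1, U p.2)) ∂(volume.prod μ) := by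
      simp only [hΦ]
    rw [h1, Φ.integral_comp_comm, hΦ]
    congr 1
    conv_lhs => rw [← hset]
    exact hmp.setIntegral_preimage_emb hemb F _
  unfold T0
  simp only [hF]
  rw [hint]
  ext v
  simp only [uu_apply, ContinuousAlternatingMap.smul_apply]
  rfl

/-- the value at the origin only depends on the values in the unit ball -/
theorem T0_congr (μ : Measure E) [μ.IsAddHaarMeasure] {q : ℕ}
    {ζ ζ' : E → E [⋀^Fin (q + 1)]→L[ℝ] V} (h : ∀ x : E, ‖x‖ < 1 → ζ x = ζ' x) :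
    T0 μ ζ = T0 μ ζ' := by
  unfold T0
  congr 1
  refine setIntegral_congr_fun (measurableSet_Icc.prod measurableSet_ball) fun p hp => ?_
  obtain ⟨⟨h0, h1⟩, h2⟩ := hp
  have hn : ‖(p.1 : ℂ) • p.2‖ < 1 := by
    rw [norm_smul, Complex.norm_real, Real.norm_eq_abs, abs_of_nonneg h0]
    rw [mem_ball_zero_iff] at h2
    calc p.1 * ‖p.2‖ ≤ 1 * ‖p.2‖ := mul_le_mul_of_nonneg_right h1 (norm_nonneg _)
      _ < 1 := by simpa using h2
  simp only [h _ hn]

/-- linearity of the value at the origin -/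
theorem T0_smul (μ : Measure E) {q : ℕ} (c : ℂ)
    (ζ : E → E [⋀^Fin (q + 1)]→L[ℝ] V) :
    T0 μ (fun x => c • ζ x) = c • T0 μ ζ := by
  unfold T0
  have h : ∀ p : ℝ × E, ((1 - p.1 ^ 2) ^ q * WW p.2) • (c • ζ ((p.1 : ℂ) • p.2)).curryLeft p.2 =
      c • (((1 - p.1 ^ 2) ^ q * WW p.2) • (ζ ((p.1 : ℂ) • p.2)).curryLeft p.2) := by
    intro p
    ext v
    simp only [ContinuousAlternatingMap.smul_apply,
      ContinuousAlternatingMap.curryLeft_apply_apply]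
    rw [smul_comm]
  simp only [h]
  rw [integral_smul, smul_comm]

/-- the covariance of the Koppelman operator -/
theorem TT_cov (μ : Measure E) [μ.IsAddHaarMeasure] (m : ℕ) [FiniteDimensional ℂ V] {q : ℕ}
    (η : E → E [⋀^Fin (q + 1)]→L[ℝ] V) {a z : E} (ha : ‖a‖ < 1) (hz : ‖z‖ < 1) :
    (TT μ m η (gg a z)).compContinuousLinearMap ((gg' a z).restrictScalars ℝ) =
      ((1 + ⟪a, z⟫_ℂ) ^ (m + 6)) • TT μ m (Pul m η a) z := by
  obtain ⟨U, hU1, hU2, hU3⟩ := gg_comp ha hz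
  have hZ : ‖gg a z‖ < 1 := gg_lt ha hz
  have hc : 1 + ⟪a, z⟫_ℂ ≠ 0 := one_add_ne ha hz.le
  -- the derivative identity
  have hder : ∀ w : E, gg' (-(gg a z)) (gg a z) (gg' a z w) = U (gg' (-z) z w) := by
    intro w
    have h1 := hU3 0 (by simp) (gg' (-z) z w)
    rw [gg'_inv' hz, gg_zero, map_zero] at h1
    rw [h1, gg'_inv hZ]
  -- the integrand
  have hpul : ∀ x : E, ‖x‖ < 1 → Pul m (Pul m η a) z x =
      ((1 + ⟪a, z⟫_ℂ) ^ (m + 6))⁻¹ • uu U (Pul m η (gg a z) (U x)) := by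
    intro x hx
    ext v
    have h1 := hU1 x hx.le
    have h2 := hU2 x hx.le
    have h3 := hU3 x hx
    simp only [Pul, uu_apply, ContinuousAlternatingMap.smul_apply,
      ContinuousAlternatingMap.compContinuousLinearMap_apply]
    have h4 : (fun i => gg' a (gg z x) (gg' z x (v i))) = fun i => gg' (gg a z) (U x) (U (v i)) := by
      funext i
      exact h3 (v i)
    have h5 : η (gg a (gg z x)) (fun i => gg' a (gg z x) (gg' z x (v i))) =
        η (gg (gg a z) (U x)) (fun i => gg' (gg a z) (U x) (U (v i))) := by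
      rw [h4, h1]
    have h6 : ((1 + ⟪z, x⟫_ℂ) ^ (m + 6))⁻¹ * ((1 + ⟪a, gg z x⟫_ℂ) ^ (m + 6))⁻¹ =
        ((1 + ⟪a, z⟫_ℂ) ^ (m + 6))⁻¹ * ((1 + ⟪gg a z, U x⟫_ℂ) ^ (m + 6))⁻¹ := by
      rw [← mul_inv, ← mul_inv, ← mul_pow, ← mul_pow, mul_comm (1 + ⟪z, x⟫_ℂ), h2]
    calc ((1 + ⟪z, x⟫_ℂ) ^ (m + 6))⁻¹ • ((1 + ⟪a, gg z x⟫_ℂ) ^ (m + 6))⁻¹ •
          η (gg a (gg z x)) (fun i => gg' a (gg z x) (gg' z x (v i)))
        = (((1 + ⟪z, x⟫_ℂ) ^ (m + 6))⁻¹ * ((1 + ⟪a, gg z x⟫_ℂ) ^ (m + 6))⁻¹) •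
          η (gg a (gg z x)) (fun i => gg' a (gg z x) (gg' z x (v i))) := by rw [smul_smul]
      _ = (((1 + ⟪a, z⟫_ℂ) ^ (m + 6))⁻¹ * ((1 + ⟪gg a z, U x⟫_ℂ) ^ (m + 6))⁻¹) •
          η (gg (gg a z) (U x)) (fun i => gg' (gg a z) (U x) (U (v i))) := by rw [h6, h5]
      _ = ((1 + ⟪a, z⟫_ℂ) ^ (m + 6))⁻¹ • ((1 + ⟪gg a z, U x⟫_ℂ) ^ (m + 6))⁻¹ •
          η (gg (gg a z) (U x)) (fun i => gg' (gg a z) (U x) (U (v i))) := by rw [smul_smul]
  have hT : T0 μ (Pul m (Pul m η a) z) =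
      ((1 + ⟪a, z⟫_ℂ) ^ (m + 6))⁻¹ • uu U (T0 μ (Pul m η (gg a z))) := by
    rw [T0_congr μ hpul, T0_smul, T0_uu]
  ext v
  simp only [TT, ContinuousAlternatingMap.smul_apply,
    ContinuousAlternatingMap.compContinuousLinearMap_apply, hT, uu_apply]
  rw [smul_smul, mul_inv_cancel₀ (pow_ne_zero _ hc), one_smul]
  congr 1
  funext i
  exact hder (v i)

end Pool.Agent.MPca0fc2.QT
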