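import Mathlib
import Pool.Agent.Lib.MP_ca0fc2_an.TWDefs
import Pool.Agent.Lib.MP_ca0fc2_an.QTCov

set_option autoImplicit false
set_option linter.unusedSectionVars false



open Metric Set MeasureTheory Filter Topology

open scoped InnerProductSpace ENNReal

namespace Pool.Agent.MPca0fc2.TW

open Pool.Agent.MPca0fc2.QT

open Pool.Agent.MPca0fc2.PT

variable {τ : ℕ}

variable {E : Type*} [NormedAddCommGroup E] [InnerProductSpace ℂ E]

variable {V : Type*} [NormedAddCommGroup V] [NormedSpace ℂ V]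

variable [FiniteDimensional ℂ E] [MeasurableSpace E] [BorelSpace E]

/-- the integrand in the definition of `T0` transforms well -/
theorem T0_uu (μ : Measure E) [μ.IsAddHaarMeasure] {q : ℕ} (U : E ≃ₗᵢ[ℂ] E)
    (ζ : E → E [⋀^Fin (q + 1)]→L[ℝ] V) :
    T0 τ μ (fun x => uu U (ζ (U x))) = uu U (T0 τ μ ζ) := by
  have : FiniteDimensional ℝ E := FiniteDimensional.complexToReal E
  have : ProperSpace E := FiniteDimensional.proper ℂ E
  let e : E ≃L[ℝ] E := (U.symm.toContinuousLinearEquiv).restrictScalars ℝ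
  let Φ : (E [⋀^Fin q]→L[ℝ] V) ≃L[ℝ] (E [⋀^Fin q]→L[ℝ] V) :=
    e.continuousAlternatingMapCongrLeft
  have hΦ : ∀ P : E [⋀^Fin q]→L[ℝ] V, Φ P = uu U P := by
    intro P
    ext v
    rfl
  have hmp : MeasurePreserving (fun p : ℝ × E => (p.1, U p.2)) (volume.prod μ) (volume.prod μ) :=
    (MeasurePreserving.id volume).prod (mp_isom μ U)
  have hemb : MeasurableEmbedding (fun p : ℝ × E => (p.1, U p.2)) :=
    ((Homeomorph.refl ℝ).prodCongr U.toHomeomorph).measurableEmbedding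
  let F : ℝ × E → E [⋀^Fin q]→L[ℝ] V := fun p =>
    ((1 - p.1 ^ 2) ^ q * WW τ p.2) • (ζ ((p.1 : ℂ) • p.2)).curryLeft p.2
  have hF : ∀ p : ℝ × E, ((1 - p.1 ^ 2) ^ q * WW τ p.2) •
      (uu U (ζ (U ((p.1 : ℂ) • p.2)))).curryLeft p.2 = uu U (F (p.1, U p.2)) := by
    intro p
    ext v
    simp only [F, uu_apply, ContinuousAlternatingMap.smul_apply,
      ContinuousAlternatingMap.curryLeft_apply_apply, map_smul]
    have h1 : WW τ (U p.2) = WW τ p.2 := by simp [WW]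
    rw [h1]
    congr 2
    ext i
    refine Fin.cases ?_ (fun j => ?_) i <;> rfl
  have hset : (fun p : ℝ × E => (p.1, U p.2)) ⁻¹' (Icc (0 : ℝ) 1 ×ˢ ball (0 : E) 1) =
      Icc (0 : ℝ) 1 ×ˢ ball (0 : E) 1 := by
    ext p
    simp
  have hint : ∫ p in Icc (0 : ℝ) 1 ×ˢ ball (0 : E) 1, uu U (F (p.1, U p.2)) ∂(volume.prod μ) =
      uu U (∫ p in Icc (0 : ℝ) 1 ×ˢ ball (0 : E) 1, F p ∂(volume.prod μ)) := by
    have h1 : ∫ p in Icc (0 : ℝ) 1 ×ˢ ball (0 : E) 1, uu U (F (p.1, U p.2)) ∂(volume.prod μ) =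
        ∫ p in Icc (0 : ℝ) 1 ×ˢ ball (0 : E) 1, Φ (F (p.1, U p.2)) ∂(volume.prod μ) := by
      simp only [hΦ]
    rw [h1, Φ.integral_comp_comm, hΦ]
    congr 1
    conv_lhs => rw [← hset]
    exact hmp.setIntegral_preimage_emb hemb F _
  unfold T0
  simp only [hF]
  rw [hint]
  ext v
  simp only [uu_apply, ContinuousAlternatingMap.smul_apply]
  rfl

/-- the value at the origin only depends on the values in the unit ball -/
theorem T0_congr (μ : Measure E) [μ.IsAddHaarMeasure] {q : ℕ}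
    {ζ ζ' : E → E [⋀^Fin (q + 1)]→L[ℝ] V} (h : ∀ x : E, ‖x‖ < 1 → ζ x = ζ' x) :
    T0 τ μ ζ = T0 τ μ ζ' := by
  unfold T0
  congr 1
  refine setIntegral_congr_fun (measurableSet_Icc.prod measurableSet_ball) fun p hp => ?_
  obtain ⟨⟨h0, h1⟩, h2⟩ := hp
  have hn : ‖(p.1 : ℂ) • p.2‖ < 1 := by
    rw [norm_smul, Complex.norm_real, Real.norm_eq_abs, abs_of_nonneg h0]
    rw [mem_ball_zero_iff] at h2
    calc p.1 * ‖p.2‖ ≤ 1 * ‖p.2‖ := mul_le_mul_of_nonneg_right h1 (norm_nonneg _)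
      _ < 1 := by simpa using h2
  simp only [h _ hn]

/-- linearity of the value at the origin -/
theorem T0_smul (μ : Measure E) {q : ℕ} (c : ℂ)
    (ζ : E → E [⋀^Fin (q + 1)]→L[ℝ] V) :
    T0 τ μ (fun x => c • ζ x) = c • T0 τ μ ζ := by
  unfold T0
  have h : ∀ p : ℝ × E, ((1 - p.1 ^ 2) ^ q * WW τ p.2) • (c • ζ ((p.1 : ℂ) • p.2)).curryLeft p.2 =
      c • (((1 - p.1 ^ 2) ^ q * WW τ p.2) • (ζ ((p.1 : ℂ) • p.2)).curryLeft p.2) := by
    intro p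
    ext v
    simp only [ContinuousAlternatingMap.smul_apply,
      ContinuousAlternatingMap.curryLeft_apply_apply]
    rw [smul_comm]
  simp only [h]
  rw [integral_smul, smul_comm]

/-- the covariance of the Koppelman operator -/
theorem TT_cov (μ : Measure E) [μ.IsAddHaarMeasure] (m : ℕ) [FiniteDimensional ℂ V] {q : ℕ}
    (η : E → E [⋀^Fin (q + 1)]→L[ℝ] V) {a z : E} (ha : ‖a‖ < 1) (hz : ‖z‖ < 1) :
    (TT τ μ m η (gg a z)).compContinuousLinearMap ((gg' a z).restrictScalars ℝ) =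
      ((1 + ⟪a, z⟫_ℂ) ^ (m + (τ + 6))) • TT τ μ m (Pul τ m η a) z := by
  obtain ⟨U, hU1, hU2, hU3⟩ := gg_comp ha hz
  have hZ : ‖gg a z‖ < 1 := gg_lt ha hz
  have hc : 1 + ⟪a, z⟫_ℂ ≠ 0 := one_add_ne ha hz.le
  -- the derivative identity
  have hder : ∀ w : E, gg' (-(gg a z)) (gg a z) (gg' a z w) = U (gg' (-z) z w) := by
    intro w
    have h1 := hU3 0 (by simp) (gg' (-z) z w)
    rw [gg'_inv' hz, gg_zero, map_zero] at h1
    rw [h1, gg'_inv hZ]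
  -- the integrand
  have hpul : ∀ x : E, ‖x‖ < 1 → Pul τ m (Pul τ m η a) z x =
      ((1 + ⟪a, z⟫_ℂ) ^ (m + (τ + 6)))⁻¹ • uu U (Pul τ m η (gg a z) (U x)) := by
    intro x hx
    ext v
    have h1 := hU1 x hx.le
    have h2 := hU2 x hx.le
    have h3 := hU3 x hx
    simp only [Pul, uu_apply, ContinuousAlternatingMap.smul_apply,
      ContinuousAlternatingMap.compContinuousLinearMap_apply]
    have h4 : (fun i => gg' a (gg z x) (gg' z x (v i))) = fun i => gg' (gg a z) (U x) (U (v i)) := by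
      funext i
      exact h3 (v i)
    have h5 : η (gg a (gg z x)) (fun i => gg' a (gg z x) (gg' z x (v i))) =
        η (gg (gg a z) (U x)) (fun i => gg' (gg a z) (U x) (U (v i))) := by
      rw [h4, h1]
    have h6 : ((1 + ⟪z, x⟫_ℂ) ^ (m + (τ + 6)))⁻¹ * ((1 + ⟪a, gg z x⟫_ℂ) ^ (m + (τ + 6)))⁻¹ =
        ((1 + ⟪a, z⟫_ℂ) ^ (m + (τ + 6)))⁻¹ * ((1 + ⟪gg a z, U x⟫_ℂ) ^ (m + (τ + 6)))⁻¹ := by
      rw [← mul_inv, ← mul_inv, ← mul_pow, ← mul_pow, mul_comm (1 + ⟪z, x⟫_ℂ), h2]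
    calc ((1 + ⟪z, x⟫_ℂ) ^ (m + (τ + 6)))⁻¹ • ((1 + ⟪a, gg z x⟫_ℂ) ^ (m + (τ + 6)))⁻¹ •
          η (gg a (gg z x)) (fun i => gg' a (gg z x) (gg' z x (v i)))
        = (((1 + ⟪z, x⟫_ℂ) ^ (m + (τ + 6)))⁻¹ * ((1 + ⟪a, gg z x⟫_ℂ) ^ (m + (τ + 6)))⁻¹) •
          η (gg a (gg z x)) (fun i => gg' a (gg z x) (gg' z x (v i))) := by rw [smul_smul]
      _ = (((1 + ⟪a, z⟫_ℂ) ^ (m + (τ + 6)))⁻¹ * ((1 + ⟪gg a z, U x⟫_ℂ) ^ (m + (τ + 6)))⁻¹) •
          η (gg (gg a z) (U x)) (fun i => gg' (gg a z) (U x) (U (v i))) := by rw [h6, h5]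
      _ = ((1 + ⟪a, z⟫_ℂ) ^ (m + (τ + 6)))⁻¹ • ((1 + ⟪gg a z, U x⟫_ℂ) ^ (m + (τ + 6)))⁻¹ •
          η (gg (gg a z) (U x)) (fun i => gg' (gg a z) (U x) (U (v i))) := by rw [smul_smul]
  have hT : T0 τ μ (Pul τ m (Pul τ m η a) z) =
      ((1 + ⟪a, z⟫_ℂ) ^ (m + (τ + 6)))⁻¹ • uu U (T0 τ μ (Pul τ m η (gg a z))) := by
    rw [(T0_congr (τ := τ)) μ hpul, (T0_smul (τ := τ)), (T0_uu (τ := τ))]
  ext v
  simp only [TT, ContinuousAlternatingMap.smul_apply,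
    ContinuousAlternatingMap.compContinuousLinearMap_apply, hT, uu_apply]
  rw [smul_smul, mul_inv_cancel₀ (pow_ne_zero _ hc), one_smul]
  congr 1
  funext i
  exact hder (v i)

end Pool.Agent.MPca0fc2.TW

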