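import Mathlib
import Pool.Agent.Lib.MP_ca0fc2_an.TWDefs
import Pool.Agent.Lib.MP_ca0fc2_an.Mg.G017

set_option autoImplicit false
set_option linter.unusedSectionVars false



open Metric Set MeasureTheory Filter Topology

open scoped InnerProductSpace ENNReal

namespace Pool.Agent.MPca0fc2.TW

open Pool.Agent.MPca0fc2.QT

open Pool.Agent.MPca0fc2.PT

variable {τ : ℕ}

section aux

variable {X : Type*} [NormedAddCommGroup X] [NormedSpace ℝ X]

variable {E₁ E₂ V₁ : Type*} [NormedAddCommGroup E₁] [NormedSpace ℝ E₁] [NormedAddCommGroup E₂]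
  [NormedSpace ℝ E₂] [NormedAddCommGroup V₁] [NormedSpace ℝ V₁]

end aux

variable {E : Type*} [NormedAddCommGroup E] [InnerProductSpace ℂ E]

variable {V : Type*} [NormedAddCommGroup V] [NormedSpace ℂ V]

/-- the pull back is smooth, jointly in both variables -/
theorem Pul_c1_joint (m : ℕ) {q : ℕ} {η : E → E [⋀^Fin q]→L[ℝ] V} {U : Set E}
    (hη : ContDiffOn ℝ 1 η U) :
    ContDiffOn ℝ 1 (fun p : E × E => Pul τ m η p.1 p.2) (PU2 U) := by
  have hsub : PU2 U ⊆ {p : E × E | ‖p.1‖ < 1 ∧ 1 + ⟪p.1, p.2⟫_ℂ ≠ 0} :=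
    fun p hp => ⟨hp.1, hp.2.1⟩
  have h1 : ContDiffOn ℝ 1 (fun p : E × E => gg p.1 p.2) (PU2 U) :=
    (gg_smooth.mono hsub).of_le (by norm_num)
  have h2 : ContDiffOn ℝ 1 (fun p : E × E => (gg' p.1 p.2).restrictScalars ℝ) (PU2 U) :=
    (gg'_smooth.mono hsub).of_le (by norm_num)
  have h3 : ContDiffOn ℝ 1 (fun p : E × E => η (gg p.1 p.2)) (PU2 U) :=
    hη.comp h1 fun p hp => hp.2.2
  have h4 : ContDiffOn ℝ 1 (fun p : E × E => (1 + ⟪p.1, p.2⟫_ℂ : ℂ)) (PU2 U) := by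
    refine ContDiffOn.add contDiffOn_const ?_
    exact (contDiffOn_fst.inner ℂ contDiffOn_snd)
  have h5 : ContDiffOn ℝ 1 (fun p : E × E => ((1 + ⟪p.1, p.2⟫_ℂ) ^ (m + (τ + 6)))⁻¹) (PU2 U) :=
    (h4.pow _).inv fun p hp => pow_ne_zero _ hp.2.1
  exact h5.smul (contDiffOn_pull h3 h2)

variable [FiniteDimensional ℂ E] [MeasurableSpace E] [BorelSpace E]

theorem Pul_anti (m : ℕ) {q : ℕ} {η : E → E [⋀^Fin q]→L[ℝ] V} {z x : E} (h : Anti (η (gg z x))) :
    Anti (Pul τ m η z x) :=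
  (h.compHolo (gg' z x)).smul _

theorem Pul_c1 (m : ℕ) {q : ℕ} {η : E → E [⋀^Fin q]→L[ℝ] V} {U : Set E} (hU : IsOpen U)
    (hη : ContDiffOn ℝ 1 η U) {z : E} (hz : ‖z‖ < 1) : ContDiffOn ℝ 1 (Pul τ m η z) (PU z U) := by
  have hi : ContDiffOn ℝ 1 (fun x : E => ((z, x) : E × E)) (PU z U) :=
    (contDiff_const.prodMk contDiff_id).contDiffOn
  have hm : MapsTo (fun x : E => ((z, x) : E × E)) (PU z U) (PU2 U) :=
    fun x hx => ⟨hz, hx.1, hx.2⟩
  have h := ((Pul_c1_joint (τ := τ)) m hη).comp hi hm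
  have he : (fun p : E × E => Pul τ m η p.1 p.2) ∘ (fun x : E => ((z, x) : E × E)) = Pul τ m η z := rfl
  rw [he] at h
  exact h

/-- the operator commutes with the pull back -/
theorem Pul_db (m : ℕ) {q : ℕ} {ζ : E → E [⋀^Fin q]→L[ℝ] V} {z x : E} (hz : ‖z‖ < 1)
    (hx : 1 + ⟪z, x⟫_ℂ ≠ 0) (ha : ∀ᶠ y in 𝓝 (gg z x), Anti (ζ y))
    (hζ : DifferentiableAt ℝ ζ (gg z x)) : db (Pul τ m ζ z) x = Pul τ m (db ζ) z x := by
  have hgd : DifferentiableAt ℝ (gg z) x := (pul_gg_c2 hz hx).differentiableAt (by norm_num)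
  have hgd' : DifferentiableAt ℝ (fun y => (gg' z y).restrictScalars ℝ) x :=
    (pul_gg'_c2 hz hx).differentiableAt (by norm_num)
  have hω : DifferentiableAt ℝ
      (fun y => (ζ (gg z y)).compContinuousLinearMap ((gg' z y).restrictScalars ℝ)) x :=
    (hζ.comp x hgd).continuousAlternatingMapCompContinuousLinearMap hgd'
  have hX : DifferentiableAt ℂ (fun y : E => ((1 + ⟪z, y⟫_ℂ) ^ (m + (τ + 6)))⁻¹) x := by
    have h1 : DifferentiableAt ℂ (fun y : E => 1 + ⟪z, y⟫_ℂ) x :=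
      (((innerSL ℂ z).hasFDerivAt).const_add 1).differentiableAt
    exact (h1.pow _).inv (pow_ne_zero _ hx)
  have hA : ∀ᶠ y in 𝓝 x, Anti
      ((ζ (gg z y)).compContinuousLinearMap ((gg' z y).restrictScalars ℝ)) := by
    filter_upwards [hgd.continuousAt.eventually ha] with y hy using hy.compHolo (gg' z y)
  have h1 : db (Pul τ m ζ z) x = ((1 + ⟪z, x⟫_ℂ) ^ (m + (τ + 6)))⁻¹ •
      db (fun y => (ζ (gg z y)).compContinuousLinearMap ((gg' z y).restrictScalars ℝ)) x :=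
    db_smul hX hω
  have h2 : extDeriv (fun y => (ζ (gg z y)).compContinuousLinearMap
      ((gg' z y).restrictScalars ℝ)) x =
      (extDeriv ζ (gg z x)).compContinuousLinearMap ((gg' z x).restrictScalars ℝ) := by
    have h3 := extDeriv_pullback hζ (pul_gg_c2 hz hx) (by simp)
    rw [pul_fderiv hx] at h3
    rw [← h3]
    refine Filter.EventuallyEq.extDeriv_eq ?_
    filter_upwards [(pul_dom z).mem_nhds hx] with y hy
    rw [pul_fderiv hy]
  rw [h1, db_eq_ext hω hA, h2, Pul, db_eq_ext hζ ha]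
  congr 1
  ext v
  simp only [ContinuousAlternatingMap.smul_apply, ContinuousAlternatingMap.add_apply,
    ContinuousAlternatingMap.compContinuousLinearMap_apply, Function.comp_def, jI_apply,
    ContinuousLinearMap.coe_restrictScalars', map_smul]

/-- the pull back of a closed form is closed -/
theorem Pul_closed (m : ℕ) {q : ℕ} {η : E → E [⋀^Fin q]→L[ℝ] V} {U : Set E} (hU : IsOpen U)
    (hη : ContDiffOn ℝ 1 η U) (ha : ∀ w ∈ U, Anti (η w)) (hd : ∀ w ∈ U, db η w = 0) {z : E}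
    (hz : ‖z‖ < 1) {x : E} (hx : x ∈ PU z U) : db (Pul τ m η z) x = 0 := by
  have hn := hU.mem_nhds hx.2
  rw [(Pul_db (τ := τ)) m hz hx.1 (by filter_upwards [hn] with y hy using ha y hy)
    ((hη.contDiffAt hn).differentiableAt (by norm_num)), Pul, hd _ hx.2]
  ext v
  simp

end Pool.Agent.MPca0fc2.TW

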