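import Mathlib
import Pool.Agent.Lib.MP_ca0fc2_an.TWPul
import Pool.Agent.Lib.MP_ca0fc2_an.Mg.G013

set_option autoImplicit false
set_option linter.unusedSectionVars false



open Metric Set MeasureTheory Filter Topology

open scoped InnerProductSpace ENNReal

namespace Pool.Agent.MPca0fc2.TW

open Pool.Agent.MPca0fc2.QT

open Pool.Agent.MPca0fc2.PT

variable {τ : ℕ}

variable {E : Type*} [NormedAddCommGroup E] [InnerProductSpace ℂ E]

variable {V : Type*} [NormedAddCommGroup V] [NormedSpace ℂ V]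

variable [FiniteDimensional ℂ E] [MeasurableSpace E] [BorelSpace E]

/-- the integrand of the operator -/
noncomputable def regF (τ m : ℕ) {q : ℕ} (η : E → E [⋀^Fin (q + 1)]→L[ℝ] V)
    (x : E × (ℝ × E)) : E [⋀^Fin q]→L[ℝ] V :=
  ((1 - x.2.1 ^ 2) ^ q * WW τ x.2.2) • (Pul τ m η x.1 ((x.2.1 : ℂ) • x.2.2)).curryLeft x.2.2

theorem regF_c1 (m : ℕ) {q : ℕ} {η : E → E [⋀^Fin (q + 1)]→L[ℝ] V} {U : Set E}
    (hη : ContDiffOn ℝ 1 η U) : ContDiffOn ℝ 1 (regF τ m η) (regΩ U) := by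
  have hr : ContDiff ℝ 1 (fun x : E × (ℝ × E) => x.2.1) := contDiff_fst.comp contDiff_snd
  have hξ : ContDiff ℝ 1 (fun x : E × (ℝ × E) => x.2.2) := contDiff_snd.comp contDiff_snd
  have hrc : ContDiff ℝ 1 (fun x : E × (ℝ × E) => ((x.2.1 : ℝ) : ℂ)) :=
    Complex.ofRealCLM.contDiff.comp hr
  have h1 : ContDiff ℝ 1 (fun x : E × (ℝ × E) => (x.1, (x.2.1 : ℂ) • x.2.2)) :=
    contDiff_fst.prodMk (hrc.smul hξ)
  have h2 : ContDiffOn ℝ 1 (fun x : E × (ℝ × E) => Pul τ m η x.1 ((x.2.1 : ℂ) • x.2.2))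
      (regΩ U) := by
    have hm : MapsTo (fun x : E × (ℝ × E) => (x.1, (x.2.1 : ℂ) • x.2.2)) (regΩ U) (PU2 U) :=
      fun x hx => hx
    have h := ((Pul_c1_joint (τ := τ)) m hη).comp h1.contDiffOn hm
    have he : (fun p : E × E => Pul τ m η p.1 p.2) ∘
      (fun x : E × (ℝ × E) => (x.1, (x.2.1 : ℂ) • x.2.2)) =
        fun x : E × (ℝ × E) => Pul τ m η x.1 ((x.2.1 : ℂ) • x.2.2) := rfl
    rw [he] at h
    exact h
  have h3 : ContDiff ℝ 1 (fun x : E × (ℝ × E) => (1 - x.2.1 ^ 2) ^ q * WW τ x.2.2) := by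
    refine ContDiff.mul ((contDiff_const.sub (hr.pow 2)).pow q) ?_
    exact (contDiff_const.sub (hξ.norm_sq ℂ)).pow (τ + 4)
  have h4 : ContDiffOn ℝ 1 (fun x : E × (ℝ × E) =>
      regL E V q (Pul τ m η x.1 ((x.2.1 : ℂ) • x.2.2))) (regΩ U) :=
    (ContinuousLinearMap.contDiff _).comp_contDiffOn h2
  have h5 := h4.clm_apply hξ.contDiffOn
  have h6 := h3.contDiffOn.fun_smul h5
  exact h6

theorem T0_Pul_c1 (μ : Measure E) [μ.IsAddHaarMeasure] (m : ℕ) {q : ℕ}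
    {η : E → E [⋀^Fin (q + 1)]→L[ℝ] V} {U : Set E} (hU : IsOpen U)
    (hB : closedBall (0 : E) 1 ⊆ U) (hη : ContDiffOn ℝ 1 η U) :
    (∀ z ∈ ball (0 : E) 1, HasFDerivAt
      (fun z => ∫ p in Icc (0 : ℝ) 1 ×ˢ ball (0 : E) 1, regF τ m η (z, p) ∂(volume.prod μ))
      (∫ p in Icc (0 : ℝ) 1 ×ˢ ball (0 : E) 1, (fderiv ℝ (regF τ m η) (z, p)).comp
        (ContinuousLinearMap.inl ℝ E (ℝ × E)) ∂(volume.prod μ)) z) ∧
    ContDiffOn ℝ 1
      (fun z => ∫ p in Icc (0 : ℝ) 1 ×ˢ ball (0 : E) 1, regF τ m η (z, p) ∂(volume.prod μ))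
      (ball 0 1) := by
  have : ProperSpace E := FiniteDimensional.proper ℂ E
  have hK : IsCompact (Icc (0 : ℝ) 1 ×ˢ closedBall (0 : E) 1) :=
    isCompact_Icc.prod (isCompact_closedBall 0 1)
  have hSK : ∀ z ∈ ball (0 : E) 1, ∀ p ∈ Icc (0 : ℝ) 1 ×ˢ closedBall (0 : E) 1,
      (z, p) ∈ regΩ U := by
    rintro z hz ⟨r, ξ⟩ ⟨hr, hξ⟩
    have hz' : ‖z‖ < 1 := mem_ball_zero_iff.1 hz
    have h1 : ‖(r : ℂ) • ξ‖ ≤ 1 := by
      have h2 : ‖ξ‖ ≤ 1 := mem_closedBall_zero_iff.1 hξ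
      have h3 : 0 ≤ r ∧ r ≤ 1 := hr
      rw [norm_smul, Complex.norm_real, Real.norm_of_nonneg h3.1]
      nlinarith [norm_nonneg ξ]
    exact ⟨hz', one_add_ne hz' h1, hB (mem_closedBall_zero_iff.2 (gg_le hz' h1))⟩
  have hKK : Icc (0 : ℝ) 1 ×ˢ ball (0 : E) 1 ⊆ Icc (0 : ℝ) 1 ×ˢ closedBall (0 : E) 1 :=
    prod_mono_right ball_subset_closedBall
  have h := reg_param (f := regF τ m η) (Ω := regΩ U) (regΩ_open hU) ((regF_c1 (τ := τ)) m hη)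
    (S := ball (0 : E) 1) isOpen_ball hK
    (measurableSet_Icc.prod measurableSet_ball) hKK hSK
    (volume.prod μ) hK.measure_lt_top
  exact h

theorem TT_c1 (μ : Measure E) [μ.IsAddHaarMeasure] (m : ℕ) [FiniteDimensional ℂ V] {q : ℕ}
    {η : E → E [⋀^Fin (q + 1)]→L[ℝ] V} {U : Set E} (hU : IsOpen U)
    (hB : closedBall (0 : E) 1 ⊆ U) (hη : ContDiffOn ℝ 1 η U) :
    ContDiffOn ℝ 1 (TT τ μ m η) (ball 0 1) := by
  have h1 := ((T0_Pul_c1 (τ := τ)) μ m hU hB hη).2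
  have h2 : ContDiffOn ℝ 1 (fun z => T0 τ μ (Pul τ m η z)) (ball (0 : E) 1) := by
    have h := h1.const_smul (-(2 / cW τ μ) : ℝ)
    exact h
  have h3 : ContDiffOn ℝ 1 (fun z : E => (gg' (-z) z).restrictScalars ℝ) (ball (0 : E) 1) := by
    have h4 : ContDiff ℝ 1 (fun z : E => ((-z, z) : E × E)) := contDiff_neg.prodMk contDiff_id
    have h5 : ContDiffOn ℝ 1 (fun p : E × E => (gg' p.1 p.2).restrictScalars ℝ)
      {p : E × E | ‖p.1‖ < 1 ∧ 1 + ⟪p.1, p.2⟫_ℂ ≠ 0} := gg'_smooth.of_le (by norm_num)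
    have hm : MapsTo (fun z : E => ((-z, z) : E × E)) (ball (0 : E) 1)
        {p : E × E | ‖p.1‖ < 1 ∧ 1 + ⟪p.1, p.2⟫_ℂ ≠ 0} := by
      intro z hz
      have hz' : ‖z‖ < 1 := mem_ball_zero_iff.1 hz
      have hz'' : ‖-z‖ < 1 := by rwa [norm_neg]
      exact ⟨hz'', one_add_ne hz'' hz'.le⟩
    have h := h5.comp h4.contDiffOn hm
    have he : (fun p : E × E => (gg' p.1 p.2).restrictScalars ℝ) ∘
      (fun z : E => ((-z, z) : E × E)) = fun z : E => (gg' (-z) z).restrictScalars ℝ := rfl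
    rw [he] at h
    exact h
  have h6 := contDiffOn_pull h2 h3
  exact h6

end Pool.Agent.MPca0fc2.TW

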