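import Mathlib
import Pool.Agent.Lib.MP_ca0fc2_an.TWReg
import Pool.Agent.Lib.MP_ca0fc2_an.Mg.G019

set_option autoImplicit false
set_option linter.unusedSectionVars false



open Metric Set MeasureTheory Filter Topology

open scoped InnerProductSpace ENNReal

namespace Pool.Agent.MPca0fc2.TW

open Pool.Agent.MPca0fc2.QT

open Pool.Agent.MPca0fc2.PT

variable {τ : ℕ}

section path

variable {E : Type*} [NormedAddCommGroup E] [InnerProductSpace ℂ E]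

end path

section conj

variable {E : Type*} [NormedAddCommGroup E] [InnerProductSpace ℂ E]

variable {V : Type*} [NormedAddCommGroup V] [NormedSpace ℂ V]

/-- the derivative of the pull back at the origin, along a line -/
theorem d1p_Pul (m : ℕ) {q : ℕ} {η : E → E [⋀^Fin q]→L[ℝ] V} {U : Set E} (hU : IsOpen U)
    (hη : ContDiffOn ℝ 1 η U) {x : E} (hx : x ∈ U) (a : E) :
    ∃ N : E [⋀^Fin q]→L[ℝ] V, HasDerivAt (fun t : ℝ => Pul τ m η (t • a) x) N 0 ∧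
      ∀ w : Fin q → E, N w = -((((m + (τ + 6) : ℕ) : ℂ) * ⟪a, x⟫_ℂ) • η x w) +
        fderiv ℝ η x (a - ⟪a, x⟫_ℂ • x) w +
        ∑ i, η x (Function.update w i (-(⟪a, x⟫_ℂ • w i) - ⟪a, w i⟫_ℂ • x)) := by
  have h1 : HasDerivAt (fun t : ℝ => ((1 + ⟪t • a, x⟫_ℂ) ^ (m + (τ + 6)))⁻¹)
      (-(((m + (τ + 6) : ℕ) : ℂ) * ⟪a, x⟫_ℂ)) 0 := by
    have h2 := (((d1p_inner a x).const_add 1).fun_pow (m + (τ + 6))).fun_inv (by simp)
    refine h2.congr_deriv ?_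
    simp
  have h2 : HasDerivAt (fun t : ℝ => η (gg (t • a) x)) (fderiv ℝ η x (a - ⟪a, x⟫_ℂ • x)) 0 := by
    have h3 : HasFDerivAt η (fderiv ℝ η x) x :=
      ((hη.contDiffAt (hU.mem_nhds hx)).differentiableAt one_ne_zero).hasFDerivAt
    exact h3.comp_hasDerivAt_of_eq (0 : ℝ) (d1p_gg a x) (by simp [gg_at_zero])
  have h3 : DifferentiableAt ℝ (fun t : ℝ => (gg' (t • a) x).restrictScalars ℝ) 0 := by
    have h4 : ContDiffAt ℝ 2 (fun p : E × E => (gg' p.1 p.2).restrictScalars ℝ)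
        (((0 : ℝ) • a, x) : E × E) := by
      refine gg'_smooth.contDiffAt (isOpen_dom.mem_nhds ?_)
      simp
    have h5 : ContDiffAt ℝ 2 (fun t : ℝ => ((t • a, x) : E × E)) 0 :=
      (contDiffAt_id.smul contDiffAt_const).prodMk contDiffAt_const
    have h6 := h4.comp (0 : ℝ) h5
    exact h6.differentiableAt (by norm_num)
  obtain ⟨D, hD⟩ : ∃ D, HasDerivAt (fun t : ℝ => (gg' (t • a) x).restrictScalars ℝ) D 0 :=
    ⟨_, h3.hasDerivAt⟩
  have hDv : ∀ v : E, D v = -(⟪a, x⟫_ℂ • v) - ⟪a, v⟫_ℂ • x := by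
    intro v
    have h4 := hD.clm_apply (hasDerivAt_const (0 : ℝ) v)
    have h5 := h4.unique (d1p_gg' a x v)
    simpa using h5
  have h4 := (h2.hasFDerivAt.continuousAlternatingMapCompContinuousLinearMap
    hD.hasFDerivAt).hasDerivAt
  have h5 := h1.smul h4
  refine ⟨_, h5, ?_⟩
  intro w
  have e0 : ((0 : ℝ) • a : E) = 0 := zero_smul ℝ a
  simp only [e0, gg_at_zero, gg'_at_zero, inner_zero_left, add_zero, one_pow, inv_one, one_smul]
  have e1 : ((((1 : ℝ) • (fderiv ℝ η x (a - ⟪a, x⟫_ℂ • x))).compContinuousLinearMap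
      ((ContinuousLinearMap.id ℂ E).restrictScalars ℝ)) +
      (η x).fderivCompContinuousLinearMap ((ContinuousLinearMap.id ℂ E).restrictScalars ℝ)
        ((1 : ℝ) • D)) w = fderiv ℝ η x (a - ⟪a, x⟫_ℂ • x) w +
      ∑ i, η x (Function.update w i (-(⟪a, x⟫_ℂ • w i) - ⟪a, w i⟫_ℂ • x)) := by
    rw [one_smul, one_smul, ContinuousAlternatingMap.add_apply,
      ContinuousAlternatingMap.fderivCompContinuousLinearMap_apply]
    congr 1
    refine Finset.sum_congr rfl fun i _ => ?_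
    congr 1
    funext j
    by_cases hj : j = i
    · subst hj
      simp [hDv]
    · simp [Function.update_of_ne hj]
  have e2 : (-(((m + (τ + 6) : ℕ) : ℂ) * ⟪a, x⟫_ℂ) •
      (η x).compContinuousLinearMap ((ContinuousLinearMap.id ℂ E).restrictScalars ℝ)) w =
      -((((m + (τ + 6) : ℕ) : ℂ) * ⟪a, x⟫_ℂ) • η x w) := by
    rw [neg_smul]
    rfl
  rw [ContinuousAlternatingMap.add_apply, e2, ← neg_smul, add_comm, add_assoc, ← e1]
  rfl

/-- the conjugate linear part of the derivative of the pull back at the origin -/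
theorem d1p_conj (m : ℕ) {q : ℕ} {η : E → E [⋀^Fin q]→L[ℝ] V} {x : E} (ha : Anti (η x)) (a : E)
    {N N' : E [⋀^Fin q]→L[ℝ] V}
    (hN : ∀ w : Fin q → E, N w = -((((m + (τ + 6) : ℕ) : ℂ) * ⟪a, x⟫_ℂ) • η x w) +
        fderiv ℝ η x (a - ⟪a, x⟫_ℂ • x) w +
        ∑ i, η x (Function.update w i (-(⟪a, x⟫_ℂ • w i) - ⟪a, w i⟫_ℂ • x)))
    (hN' : ∀ w : Fin q → E, N' w = -((((m + (τ + 6) : ℕ) : ℂ) * ⟪Complex.I • a, x⟫_ℂ) • η x w) +
        fderiv ℝ η x (Complex.I • a - ⟪Complex.I • a, x⟫_ℂ • x) w +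
        ∑ i, η x (Function.update w i (-(⟪Complex.I • a, x⟫_ℂ • w i) -
          ⟪Complex.I • a, w i⟫_ℂ • x))) :
    (2⁻¹ : ℂ) • (N + Complex.I • N') =
      d1 η x a - ⟪a, x⟫_ℂ • (((m + (τ + 6) : ℕ) : ℂ) • η x + dh η x x) := by
  have hI : ∀ y : E, ⟪Complex.I • a, y⟫_ℂ = -Complex.I * ⟪a, y⟫_ℂ := by
    intro y
    rw [inner_smul_left, Complex.conj_I]
  have hsum : ∀ (b : E) (w : Fin q → E),
      ∑ i, η x (Function.update w i (-(⟪b, x⟫_ℂ • w i) - ⟪b, w i⟫_ℂ • x)) =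
        ∑ i, (-((starRingEnd ℂ ⟪b, x⟫_ℂ) • η x w) -
          (starRingEnd ℂ ⟪b, w i⟫_ℂ) • η x (Function.update w i x)) := by
    intro b w
    refine Finset.sum_congr rfl fun i _ => ?_
    have h1 : -(⟪b, x⟫_ℂ • w i) - ⟪b, w i⟫_ℂ • x = (-⟪b, x⟫_ℂ) • w i + (-⟪b, w i⟫_ℂ) • x := by
      rw [neg_smul, neg_smul, sub_eq_add_neg]
    rw [h1, ContinuousAlternatingMap.map_update_add, anti_conj ha, anti_conj ha,
      Function.update_eq_self, map_neg, map_neg, neg_smul, neg_smul, sub_eq_add_neg]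
  have hsum' : ∀ w : Fin q → E,
      ∑ i, η x (Function.update w i (-(⟪Complex.I • a, x⟫_ℂ • w i) -
          ⟪Complex.I • a, w i⟫_ℂ • x)) = Complex.I •
      ∑ i, η x (Function.update w i (-(⟪a, x⟫_ℂ • w i) - ⟪a, w i⟫_ℂ • x)) := by
    intro w
    rw [hsum, hsum, Finset.smul_sum]
    refine Finset.sum_congr rfl fun i _ => ?_
    rw [hI, hI, map_mul, map_mul, map_neg, Complex.conj_I, neg_neg, smul_sub, smul_neg,
      mul_smul, mul_smul]
  have hf1 : fderiv ℝ η x (a - ⟪a, x⟫_ℂ • x) =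
      fderiv ℝ η x a - fderiv ℝ η x (⟪a, x⟫_ℂ • x) := map_sub _ _ _
  have hf2 : fderiv ℝ η x (Complex.I • a - ⟪Complex.I • a, x⟫_ℂ • x) =
      fderiv ℝ η x (Complex.I • a) + fderiv ℝ η x (Complex.I • (⟪a, x⟫_ℂ • x)) := by
    rw [hI, neg_mul, neg_smul, sub_neg_eq_add, mul_smul]
    exact map_add _ _ _
  have hd : ⟪a, x⟫_ℂ • dh η x x = dh η x (⟪a, x⟫_ℂ • x) := (dh_smul η x x _).symm
  rw [smul_add ⟪a, x⟫_ℂ, hd]
  ext w
  simp only [ContinuousAlternatingMap.smul_apply, ContinuousAlternatingMap.add_apply,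
    ContinuousAlternatingMap.sub_apply, hN, hN', hsum' w, hf1, hf2, d1_apply, dh]
  rw [hI x]
  generalize (η x) w = A0
  generalize (fderiv ℝ η x a) w = A1
  generalize (fderiv ℝ η x (Complex.I • a)) w = A2
  generalize (fderiv ℝ η x (⟪a, x⟫_ℂ • x)) w = A3
  generalize (fderiv ℝ η x (Complex.I • (⟪a, x⟫_ℂ • x))) w = A4
  generalize (∑ i, η x (Function.update w i (-(⟪a, x⟫_ℂ • w i) - ⟪a, w i⟫_ℂ • x))) = A5
  generalize ⟪a, x⟫_ℂ = l
  match_scalars <;> ring_nf <;> (try rw [Complex.I_sq]) <;> (try ring_nf)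

end conj

variable {E : Type*} [NormedAddCommGroup E] [InnerProductSpace ℂ E]

variable {V : Type*} [NormedAddCommGroup V] [NormedSpace ℂ V]

variable [FiniteDimensional ℂ E] [MeasurableSpace E] [BorelSpace E]

/-- the integrand: the derivative at the origin -/
theorem d1p_regF (m : ℕ) {q : ℕ} {η : E → E [⋀^Fin (q + 1)]→L[ℝ] V} {U : Set E} (hU : IsOpen U)
    (hη : ContDiffOn ℝ 1 η U) (ha : ∀ w ∈ U, Anti (η w)) {r : ℝ} {ξ : E}
    (hx : (r : ℂ) • ξ ∈ U) (a : E) :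
    (2⁻¹ : ℂ) • (fderiv ℝ (regF τ m η) (0, (r, ξ)) (a, 0) +
      Complex.I • fderiv ℝ (regF τ m η) (0, (r, ξ)) (Complex.I • a, 0)) =
      ((1 - r ^ 2) ^ q * WW τ ξ) • ((d1 η ((r : ℂ) • ξ) a).curryLeft ξ -
          ((r : ℂ) * ⟪a, ξ⟫_ℂ) • (((m + (τ + 6) : ℕ) : ℂ) • (η ((r : ℂ) • ξ)).curryLeft ξ +
            (r : ℂ) • (dh η ((r : ℂ) • ξ) ξ).curryLeft ξ)) := by
  have hmem : ((0 : E), (r, ξ)) ∈ regΩ U := by
    refine ⟨by simp, by simp, ?_⟩
    simpa [gg_at_zero] using hx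
  have hF : HasFDerivAt (regF τ m η) (fderiv ℝ (regF τ m η) (0, (r, ξ))) (0, (r, ξ)) :=
    ((((regF_c1 (τ := τ)) m hη).contDiffAt ((regΩ_open hU).mem_nhds hmem)).differentiableAt
      one_ne_zero).hasFDerivAt
  have key : ∀ b : E, ∀ N : E [⋀^Fin (q + 1)]→L[ℝ] V,
      HasDerivAt (fun t : ℝ => Pul τ m η (t • b) ((r : ℂ) • ξ)) N 0 →
      fderiv ℝ (regF τ m η) (0, (r, ξ)) (b, 0) = ((1 - r ^ 2) ^ q * WW τ ξ) • N.curryLeft ξ := by
    intro b N hN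
    have h1 : HasDerivAt (fun t : ℝ => ((t • b, (r, ξ)) : E × (ℝ × E))) (b, 0) 0 :=
      (d1p_line b).prodMk (hasDerivAt_const (0 : ℝ) (r, ξ))
    have h2 : HasDerivAt (fun t : ℝ => regF τ m η (t • b, (r, ξ)))
        (fderiv ℝ (regF τ m η) (0, (r, ξ)) (b, 0)) 0 :=
      hF.comp_hasDerivAt_of_eq (0 : ℝ) h1 (by simp)
    have h3 : HasDerivAt (fun t : ℝ => regL E V q (Pul τ m η (t • b) ((r : ℂ) • ξ)))
        (regL E V q N) 0 := clm_deriv (F := E [⋀^Fin (q + 1)]→L[ℝ] V)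
          (G := E →L[ℝ] E [⋀^Fin q]→L[ℝ] V) (regL E V q) hN
    have h4 := (h3.clm_apply (hasDerivAt_const (0 : ℝ) ξ)).const_smul ((1 - r ^ 2) ^ q * WW τ ξ)
    have h5 := h2.unique h4
    rw [h5, map_zero, add_zero]
    rfl
  obtain ⟨N, hN, hNw⟩ := (d1p_Pul (τ := τ)) m hU hη hx a
  obtain ⟨N', hN', hNw'⟩ := (d1p_Pul (τ := τ)) m hU hη hx (Complex.I • a)
  have hc := (d1p_conj (τ := τ)) m (ha _ hx) a hNw hNw'
  rw [key a N hN, key (Complex.I • a) N' hN']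
  have h1 : (2⁻¹ : ℂ) • (((1 - r ^ 2) ^ q * WW τ ξ) • N.curryLeft ξ +
      Complex.I • ((1 - r ^ 2) ^ q * WW τ ξ) • N'.curryLeft ξ) =
      ((1 - r ^ 2) ^ q * WW τ ξ) • ((2⁻¹ : ℂ) • (N + Complex.I • N')).curryLeft ξ := by
    ext w
    simp only [ContinuousAlternatingMap.smul_apply, ContinuousAlternatingMap.add_apply,
      ContinuousAlternatingMap.curryLeft_apply_apply]
    rw [smul_comm Complex.I, ← smul_add, smul_comm]
  rw [h1, hc, inner_smul_right, dh_smul]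
  congr 1

/-- the conjugate linear part of the derivative at the origin -/
theorem d1_TT_zero (μ : Measure E) [μ.IsAddHaarMeasure] (m : ℕ) [FiniteDimensional ℂ V] {q : ℕ}
    {η : E → E [⋀^Fin (q + 1)]→L[ℝ] V} {U : Set E} (hU : IsOpen U)
    (hB : closedBall (0 : E) 1 ⊆ U) (hη : ContDiffOn ℝ 1 η U) (ha : ∀ w ∈ U, Anti (η w))
    (a : E) :
    d1 (TT τ μ m η) 0 a = (-(2 / cW τ μ) : ℝ) • ∫ p in Icc (0 : ℝ) 1 ×ˢ ball (0 : E) 1,
      ((1 - p.1 ^ 2) ^ q * WW τ p.2) •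
        ((d1 η ((p.1 : ℂ) • p.2) a).curryLeft p.2 -
          ((p.1 : ℂ) * ⟪a, p.2⟫_ℂ) • (((m + (τ + 6) : ℕ) : ℂ) • (η ((p.1 : ℂ) • p.2)).curryLeft p.2 +
            (p.1 : ℂ) • (dh η ((p.1 : ℂ) • p.2) p.2).curryLeft p.2)) ∂(volume.prod μ) := by
  have : ProperSpace E := FiniteDimensional.proper ℂ E
  obtain ⟨hT, -⟩ := (T0_Pul_c1 (τ := τ)) μ m hU hB hη
  have hT0 := hT 0 (mem_ball_self one_pos)
  set K : Set (ℝ × E) := Icc (0 : ℝ) 1 ×ˢ ball (0 : E) 1 with hK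
  have hmemU : ∀ p ∈ Icc (0 : ℝ) 1 ×ˢ closedBall (0 : E) 1, (p.1 : ℂ) • p.2 ∈ U := by
    rintro ⟨r, ξ⟩ ⟨hr, hξ⟩
    have h2 : ‖ξ‖ ≤ 1 := mem_closedBall_zero_iff.1 hξ
    have h3 : 0 ≤ r ∧ r ≤ 1 := hr
    have h1 : ‖(r : ℂ) • ξ‖ ≤ 1 := by
      rw [norm_smul, Complex.norm_real, Real.norm_of_nonneg h3.1]
      nlinarith [norm_nonneg ξ]
    exact hB (mem_closedBall_zero_iff.2 h1)
  -- the derivative
  have hline' : ∀ b : E, _ := fun b => reg_line (f := regF τ m η) (regΩ_open hU) ((regF_c1 (τ := τ)) m hη)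
    (K := Icc (0 : ℝ) 1 ×ˢ closedBall (0 : E) 1) (K₀ := K)
    (isCompact_Icc.prod (isCompact_closedBall 0 1))
    (prod_mono_right ball_subset_closedBall) (z := 0)
    (fun p hp => ⟨by simp, by simp, by simpa [gg_at_zero] using hmemU p hp⟩)
    (volume.prod μ) b
  have hTT : TT τ μ m η = fun z => ((-(2 / cW τ μ) : ℝ) • ∫ p in K, regF τ m η (z, p)
      ∂(volume.prod μ)).compContinuousLinearMap ((gg' (-z) z).restrictScalars ℝ) := rfl
  have hdiff : DifferentiableAt ℝ (TT τ μ m η) 0 :=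
    (((TT_c1 (τ := τ)) μ m hU hB hη).contDiffAt (isOpen_ball.mem_nhds
      (mem_ball_self one_pos))).differentiableAt one_ne_zero
  have hline : ∀ b : E, fderiv ℝ (TT τ μ m η) 0 b = (-(2 / cW τ μ) : ℝ) •
      ∫ p in K, fderiv ℝ (regF τ m η) (0, p) (b, 0) ∂(volume.prod μ) := by
    intro b
    have h1 : HasDerivAt (fun t : ℝ => TT τ μ m η (t • b)) (fderiv ℝ (TT τ μ m η) 0 b) 0 :=
      hdiff.hasFDerivAt.comp_hasDerivAt_of_eq (0 : ℝ) (d1p_line b) (by simp)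
    have h2 := (hT0.comp_hasDerivAt_of_eq (0 : ℝ) (d1p_line b) (by simp)).const_smul
      (-(2 / cW τ μ) : ℝ)
    have h3 := (h2.hasFDerivAt.continuousAlternatingMapCompContinuousLinearMap
      (d1p_g2 b).hasFDerivAt).hasDerivAt
    have h4 := h1.unique h3
    rw [h4]
    have e0 : ((0 : ℝ) • b : E) = 0 := zero_smul ℝ b
    rw [(hline' b).1]
    generalize (∫ p in K, fderiv ℝ (regF τ m η) (0, p) (b, 0) ∂(volume.prod μ)) = I₀
    have e2 : ∀ (A : E [⋀^Fin q]→L[ℝ] V) (T : E [⋀^Fin q]→L[ℝ] V),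
        ((1 : ℝ) • A).compContinuousLinearMap ((ContinuousLinearMap.id ℂ E).restrictScalars ℝ) +
        T.fderivCompContinuousLinearMap ((ContinuousLinearMap.id ℂ E).restrictScalars ℝ)
          ((1 : ℝ) • (0 : E →L[ℝ] E)) = A := by
      intro A T
      rw [smul_zero, map_zero, add_zero, one_smul]
      rfl
    have e3 : (gg' (-((0 : ℝ) • b)) ((0 : ℝ) • b)) = ContinuousLinearMap.id ℂ E := by
      rw [e0, neg_zero, gg'_at_zero]
    rw [e3]
    exact e2 _ _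
  have hd1 : d1 (TT τ μ m η) 0 a = (2⁻¹ : ℂ) • (fderiv ℝ (TT τ μ m η) 0 a +
      Complex.I • fderiv ℝ (TT τ μ m η) 0 (Complex.I • a)) := rfl
  rw [hd1, hline, hline]
  have h5 := half_int (F := E [⋀^Fin q]→L[ℝ] V) (hline' a).2 (hline' (Complex.I • a)).2
  have h6 : ∀ (A B : E [⋀^Fin q]→L[ℝ] V) (c : ℝ),
      (2⁻¹ : ℂ) • (c • A + Complex.I • c • B) = c • ((2⁻¹ : ℂ) • (A + Complex.I • B)) := by
    intro A B c
    rw [smul_comm Complex.I, ← smul_add, smul_comm]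
  rw [h6, h5]
  congr 1
  refine setIntegral_congr_fun (measurableSet_Icc.prod measurableSet_ball) ?_
  rintro ⟨r, ξ⟩ hp
  exact (d1p_regF (τ := τ)) m hU hη ha (hmemU (r, ξ) (prod_mono_right ball_subset_closedBall hp)) a

end Pool.Agent.MPca0fc2.TW

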