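import Mathlib
import Pool.Agent.Lib.MP_ca0fc2_an.TWDefs
import Pool.Agent.Lib.MP_ca0fc2_an.Mg.G020

set_option autoImplicit false
set_option linter.unusedSectionVars false



open Metric Set MeasureTheory Filter Topology

open scoped InnerProductSpace ENNReal

namespace Pool.Agent.MPca0fc2.TW

open Pool.Agent.MPca0fc2.QT

open Pool.Agent.MPca0fc2.PT

variable {τ : ℕ}

variable {E : Type*} [NormedAddCommGroup E] [InnerProductSpace ℂ E]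

variable [FiniteDimensional ℂ E] [MeasurableSpace E] [BorelSpace E]

variable {W : Type*} [NormedAddCommGroup W] [NormedSpace ℂ W] [CompleteSpace W]

/-- the cut off weight -/
noncomputable def cutW (τ : ℕ) (ξ : E) : ℝ := (max 0 (1 - ‖ξ‖ ^ 2)) ^ (τ + 4)

lemma max_pow_deriv (τ : ℕ) (x : ℝ) : HasDerivAt (fun x : ℝ => (max 0 x) ^ (τ + 4))
    (((τ : ℝ) + 4) * (max 0 x) ^ (τ + 3)) x := by
  rcases lt_trichotomy x 0 with h | h | h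
  · have h1 : (fun x : ℝ => (max 0 x) ^ (τ + 4)) =ᶠ[𝓝 x] fun _ => (0 : ℝ) := by
      filter_upwards [Iio_mem_nhds h] with y hy
      rw [max_eq_left (le_of_lt hy)]; simp
    rw [max_eq_left h.le]
    simpa using (hasDerivAt_const x (0 : ℝ)).congr_of_eventuallyEq h1
  · subst h
    simp only [max_self]
    rw [hasDerivAt_iff_isLittleO_nhds_zero]
    simp only [zero_add, max_self]
    rw [zero_pow (by omega), zero_pow (by omega)]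
    simp only [mul_zero, smul_zero, sub_zero]
    rw [Asymptotics.isLittleO_iff]
    intro c hc
    filter_upwards [Metric.ball_mem_nhds (0 : ℝ) (lt_min hc one_pos)] with y hy
    rw [mem_ball_zero_iff, Real.norm_eq_abs, lt_min_iff] at hy
    have h1 : |max 0 y| ≤ |y| := by
      rcases le_total 0 y with h | h
      · rw [max_eq_right h]
      · rw [max_eq_left h]; simp
    rw [Real.norm_eq_abs, Real.norm_eq_abs, abs_pow]
    calc |max 0 y| ^ (τ + 4) ≤ |y| ^ (τ + 4) := pow_le_pow_left₀ (abs_nonneg _) h1 _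
      _ = |y| * |y| ^ (τ + 3) := by ring
      _ ≤ c * |y| := by
        have h3 : |y| ^ (τ + 3) ≤ |y| := by
          calc |y| ^ (τ + 3) ≤ |y| ^ 1 := pow_le_pow_of_le_one (abs_nonneg _) hy.2.le (by omega)
            _ = |y| := pow_one _
        nlinarith [abs_nonneg y, hy.1]
  · have h1 : (fun x : ℝ => (max 0 x) ^ (τ + 4)) =ᶠ[𝓝 x] fun x => x ^ (τ + 4) := by
      filter_upwards [Ioi_mem_nhds h] with y hy
      rw [max_eq_right (le_of_lt hy)]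
    rw [max_eq_right h.le]
    have := (hasDerivAt_pow (τ + 4) x).congr_of_eventuallyEq h1
    refine this.congr_deriv ?_
    push_cast
    rfl

lemma max_pow_contDiff (τ : ℕ) : ContDiff ℝ 1 (fun x : ℝ => (max 0 x) ^ (τ + 4)) := by
  rw [contDiff_one_iff_deriv]
  refine ⟨fun x => (max_pow_deriv τ x).differentiableAt, ?_⟩
  have : deriv (fun x : ℝ => (max 0 x) ^ (τ + 4)) =
      fun x => ((τ : ℝ) + 4) * (max 0 x) ^ (τ + 3) := by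
    ext x; exact (max_pow_deriv τ x).deriv
  rw [this]
  fun_prop

omit [FiniteDimensional ℂ E] [MeasurableSpace E] [BorelSpace E] in
lemma cutW_contDiff : ContDiff ℝ 1 (cutW τ : E → ℝ) := by
  have h : ContDiff ℝ 1 (fun ξ : E => 1 - ‖ξ‖ ^ 2) := contDiff_const.sub (contDiff_norm_sq ℂ)
  exact (max_pow_contDiff τ).comp h

omit [FiniteDimensional ℂ E] [BorelSpace E] in
lemma cutW_eq {ξ : E} (h : ‖ξ‖ < 1) : cutW τ ξ = WW τ ξ := by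
  unfold cutW WW
  rw [max_eq_right]
  nlinarith [norm_nonneg ξ]

omit [FiniteDimensional ℂ E] [MeasurableSpace E] [BorelSpace E] in
lemma cutW_zero {ξ : E} (h : 1 ≤ ‖ξ‖) : cutW τ ξ = 0 := by
  unfold cutW
  rw [max_eq_left (by nlinarith [norm_nonneg ξ])]
  norm_num

theorem ibp_const (μ : Measure E) [μ.IsAddHaarMeasure] {G : E → W} {U : Set E} (hU : IsOpen U)
    (hB : closedBall (0 : E) 1 ⊆ U) (hG : ContDiffOn ℝ 1 G U) (v : E) :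
    ∫ ξ in ball (0 : E) 1, fderiv ℝ (fun ξ => WW τ ξ • G ξ) ξ v ∂μ = 0 := by
  classical
  have hprop : ProperSpace E := FiniteDimensional.proper ℂ E
  have hfin : FiniteDimensional ℝ E := FiniteDimensional.complexToReal E
  let F : E → W := fun ξ => cutW τ ξ • G ξ
  have hFU : ContDiffOn ℝ 1 F U := (cutW_contDiff (τ := τ)).contDiffOn.smul hG
  have hF0 : ∀ ξ : E, 1 ≤ ‖ξ‖ → F ξ = 0 := fun ξ h => by
    show cutW τ ξ • G ξ = 0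
    rw [(cutW_zero (τ := τ)) h, zero_smul]
  have hF : ContDiff ℝ 1 F := by
    rw [contDiff_iff_contDiffAt]
    intro ξ
    by_cases h : ξ ∈ closedBall (0 : E) 1
    · exact (hFU ξ (hB h)).contDiffAt (hU.mem_nhds (hB h))
    · have h1 : F =ᶠ[𝓝 ξ] fun _ => (0 : W) := by
        filter_upwards [isClosed_closedBall.isOpen_compl.mem_nhds h] with y hy
        apply hF0
        rw [mem_compl_iff, mem_closedBall_zero_iff, not_le] at hy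
        exact hy.le
      exact contDiffAt_const.congr_of_eventuallyEq h1
  have hsupp : HasCompactSupport F := by
    apply HasCompactSupport.intro (isCompact_closedBall (0 : E) 1)
    intro ξ hξ
    apply hF0
    rw [mem_closedBall_zero_iff, not_le] at hξ
    exact hξ.le
  have hd : Continuous (fun ξ => fderiv ℝ F ξ v) :=
    (hF.continuous_fderiv one_ne_zero).clm_apply continuous_const
  have hsuppd : HasCompactSupport (fun ξ => fderiv ℝ F ξ v) := hsupp.fderiv_apply (𝕜 := ℝ) v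
  have h0 : ∫ ξ, fderiv ℝ F ξ v ∂μ = 0 := by
    have := integral_smul_fderiv_eq_neg_fderiv_smul_of_integrable (μ := μ) (𝕜 := ℝ)
      (f := fun _ : E => (1 : ℝ)) (g := F) (v := v) (by simp)
      (by simpa using hd.integrable_of_hasCompactSupport hsuppd)
      (by simpa using hF.continuous.integrable_of_hasCompactSupport hsupp)
      (by simp) (fun x _ => (hF.differentiable one_ne_zero) x)
    simpa using this
  have h1 : ∫ ξ in ball (0 : E) 1, fderiv ℝ (fun ξ => WW τ ξ • G ξ) ξ v ∂μ =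
      ∫ ξ in ball (0 : E) 1, fderiv ℝ F ξ v ∂μ := by
    apply setIntegral_congr_fun measurableSet_ball
    intro ξ hξ
    have h2 : (fun ξ => WW τ ξ • G ξ) =ᶠ[𝓝 ξ] F := by
      filter_upwards [isOpen_ball.mem_nhds hξ] with y hy
      show WW τ y • G y = cutW τ y • G y
      rw [(cutW_eq (τ := τ)) (mem_ball_zero_iff.1 hy)]
    show fderiv ℝ (fun ξ => WW τ ξ • G ξ) ξ v = fderiv ℝ F ξ v
    rw [h2.fderiv_eq]
  have h2 : ball (0 : E) 1 =ᵐ[μ] closedBall (0 : E) 1 := by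
    rw [← ball_union_sphere]
    have h3 : μ (sphere (0 : E) 1) = 0 := Measure.addHaar_sphere_of_ne_zero μ 0 one_ne_zero
    exact (union_ae_eq_left_of_ae_eq_empty (ae_eq_empty.2 h3)).symm
  rw [h1, setIntegral_congr_set h2, ← h0]
  apply setIntegral_eq_integral_of_forall_compl_eq_zero
  intro ξ hξ
  have h1 : F =ᶠ[𝓝 ξ] fun _ => (0 : W) := by
    filter_upwards [isClosed_closedBall.isOpen_compl.mem_nhds hξ] with y hy
    apply hF0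
    rw [mem_compl_iff, mem_closedBall_zero_iff, not_le] at hy
    exact hy.le
  rw [h1.fderiv_eq]
  simp

omit [FiniteDimensional ℂ E] [BorelSpace E] in
lemma WW_hasFDerivAt (ξ : E) :
    HasFDerivAt (WW τ : E → ℝ) ((-(2 * ((τ : ℝ) + 4) * (1 - ‖ξ‖ ^ 2) ^ (τ + 3))) •
      (Complex.reCLM.comp ((innerSL ℂ ξ).restrictScalars ℝ))) ξ := by
  have h0 : HasFDerivAt (fun ξ : E => ‖ξ‖ ^ 2)
      ((2 : ℝ) • (Complex.reCLM.comp ((innerSL ℂ ξ).restrictScalars ℝ))) ξ := by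
    have hd : HasFDerivAt (fun x : E => ⟪x, x⟫_ℂ) _ ξ :=
      (hasFDerivAt_id ξ).inner ℂ (hasFDerivAt_id (𝕜 := ℝ) ξ)
    have h1 := Complex.reCLM.hasFDerivAt.comp ξ hd
    have h2 : (fun ξ : E => ‖ξ‖ ^ 2) = (Complex.reCLM ∘ fun x : E => ⟪x, x⟫_ℂ) := by
      ext x
      simp only [Function.comp_apply, Complex.reCLM_apply]
      rw [inner_self_eq_norm_sq_to_K]
      norm_cast
    rw [h2]
    refine h1.congr_fderiv ?_
    ext v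
    simp only [ContinuousLinearMap.comp_apply, fderivInnerCLM_apply, Complex.reCLM_apply,
      ContinuousLinearMap.prod_apply, ContinuousLinearMap.smul_apply,
      ContinuousLinearMap.coe_restrictScalars', innerSL_apply_apply, id_eq,
      ContinuousLinearMap.coe_id', smul_eq_mul, Complex.add_re]
    rw [← inner_conj_symm v ξ, Complex.conj_re]
    ring
  have h1 : HasFDerivAt (fun ξ : E => 1 - ‖ξ‖ ^ 2) (-((2 : ℝ) •
      (Complex.reCLM.comp ((innerSL ℂ ξ).restrictScalars ℝ)))) ξ := h0.const_sub 1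
  have h2 := h1.pow (τ + 4)
  refine HasFDerivAt.congr_fderiv (f' := _) h2 ?_
  ext v
  simp only [ContinuousLinearMap.smul_apply, ContinuousLinearMap.neg_apply, smul_eq_mul]
  rw [show τ + 4 - 1 = τ + 3 by omega]
  push_cast
  ring

/-- product rule -/
lemma fderiv_WW_smul {G : E → W} {ξ : E} (hG : DifferentiableAt ℝ G ξ) (v : E) :
    fderiv ℝ (fun ξ => WW τ ξ • G ξ) ξ v = WW τ ξ • fderiv ℝ G ξ v -
      (2 * ((τ : ℝ) + 4) * (1 - ‖ξ‖ ^ 2) ^ (τ + 3) * (⟪ξ, v⟫_ℂ).re) • G ξ := by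
  have h := ((WW_hasFDerivAt (τ := τ)) ξ).smul hG.hasFDerivAt
  rw [show (fun ξ => WW τ ξ • G ξ) = (WW τ : E → ℝ) • G from rfl, h.fderiv]
  simp only [ContinuousLinearMap.add_apply, ContinuousLinearMap.smul_apply,
    ContinuousLinearMap.smulRight_apply, ContinuousLinearMap.comp_apply, Complex.reCLM_apply,
    ContinuousLinearMap.coe_restrictScalars', innerSL_apply_apply, smul_eq_mul]
  rw [sub_eq_add_neg (WW τ ξ • (fderiv ℝ G ξ) v), ← neg_smul, neg_mul]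

omit [FiniteDimensional ℂ E] [MeasurableSpace E] [BorelSpace E] in
lemma WW_cont [MeasurableSpace E] : Continuous (WW τ : E → ℝ) := by
  unfold WW; fun_prop

/-- general first order identity: directions `v` and `i v` with a sign -/
lemma ibp_pair (μ : Measure E) [μ.IsAddHaarMeasure] {G : E → W} {U : Set E} (hU : IsOpen U)
    (hB : closedBall (0 : E) 1 ⊆ U) (hG : ContDiffOn ℝ 1 G U) (v : E) (s : ℂ) :
    ∫ ξ in ball (0 : E) 1, WW τ ξ • (2⁻¹ : ℂ) •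
        (fderiv ℝ G ξ v + s • fderiv ℝ G ξ (Complex.I • v)) ∂μ =
      ∫ ξ in ball (0 : E) 1, ((((τ : ℝ) + 4) * (1 - ‖ξ‖ ^ 2) ^ (τ + 3) : ℝ) : ℂ) •
        ((((⟪ξ, v⟫_ℂ).re : ℂ) + s * (⟪ξ, Complex.I • v⟫_ℂ).re)) • G ξ ∂μ := by
  have hd : ∀ ξ ∈ closedBall (0 : E) 1, DifferentiableAt ℝ G ξ := fun ξ hξ =>
    ((hG ξ (hB hξ)).contDiffAt (hU.mem_nhds (hB hξ))).differentiableAt one_ne_zero
  have hGc : ContinuousOn G (closedBall (0 : E) 1) := hG.continuousOn.mono hB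
  have hfc : ContinuousOn (fderiv ℝ G) (closedBall (0 : E) 1) :=
    (hG.continuousOn_fderiv_of_isOpen hU le_rfl).mono hB
  have h1 := (ibp_const (τ := τ)) μ hU hB hG v
  have h2 := (ibp_const (τ := τ)) μ hU hB hG (Complex.I • v)
  have hc : ∀ u : E, ContinuousOn (fun ξ => WW τ ξ • fderiv ℝ G ξ u -
      (2 * ((τ : ℝ) + 4) * (1 - ‖ξ‖ ^ 2) ^ (τ + 3) * (⟪ξ, u⟫_ℂ).re) • G ξ) (closedBall (0 : E) 1) := by
    intro u
    have e1 : Continuous (fun ξ : E => (2 * ((τ : ℝ) + 4) * (1 - ‖ξ‖ ^ 2) ^ (τ + 3) * (⟪ξ, u⟫_ℂ).re)) := by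
      have : Continuous (fun ξ : E => (⟪ξ, u⟫_ℂ).re) :=
        Complex.continuous_re.comp (continuous_id.inner continuous_const)
      fun_prop
    exact ((WW_cont (τ := τ)).continuousOn.smul (hfc.clm_apply continuousOn_const)).sub
      (e1.continuousOn.smul hGc)
  have e1 : ∀ u : E, ∫ ξ in ball (0 : E) 1, fderiv ℝ (fun ξ => WW τ ξ • G ξ) ξ u ∂μ =
      ∫ ξ in ball (0 : E) 1, (WW τ ξ • fderiv ℝ G ξ u -
      (2 * ((τ : ℝ) + 4) * (1 - ‖ξ‖ ^ 2) ^ (τ + 3) * (⟪ξ, u⟫_ℂ).re) • G ξ) ∂μ := by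
    intro u
    apply setIntegral_congr_fun measurableSet_ball
    intro ξ hξ
    exact (fderiv_WW_smul (τ := τ)) (hd ξ (ball_subset_closedBall hξ)) u
  rw [e1] at h1 h2
  have i1 := intOn μ (hc v)
  have i2 := intOn μ (hc (Complex.I • v))
  have h3 : ∫ ξ in ball (0 : E) 1, ((2⁻¹ : ℂ) • (WW τ ξ • fderiv ℝ G ξ v -
      (2 * ((τ : ℝ) + 4) * (1 - ‖ξ‖ ^ 2) ^ (τ + 3) * (⟪ξ, v⟫_ℂ).re) • G ξ) + ((2⁻¹ : ℂ) * s) •
      (WW τ ξ • fderiv ℝ G ξ (Complex.I • v) -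
      (2 * ((τ : ℝ) + 4) * (1 - ‖ξ‖ ^ 2) ^ (τ + 3) * (⟪ξ, Complex.I • v⟫_ℂ).re) • G ξ)) ∂μ = 0 := by
    have h4 := integral_add (i1.smul (2⁻¹ : ℂ)) (i2.smul ((2⁻¹ : ℂ) * s))
    simp only [Pi.smul_apply] at h4
    rw [h4, integral_smul, integral_smul, h1, h2, smul_zero, smul_zero, add_zero]
  have j1 : IntegrableOn (fun ξ => WW τ ξ • (2⁻¹ : ℂ) •
        (fderiv ℝ G ξ v + s • fderiv ℝ G ξ (Complex.I • v))) (ball (0 : E) 1) μ := by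
    apply intOn
    exact (WW_cont (τ := τ)).continuousOn.smul (((hfc.clm_apply continuousOn_const).add
      ((hfc.clm_apply continuousOn_const).const_smul s)).const_smul _)
  have j2 : IntegrableOn (fun ξ => ((((τ : ℝ) + 4) * (1 - ‖ξ‖ ^ 2) ^ (τ + 3) : ℝ) : ℂ) •
        ((((⟪ξ, v⟫_ℂ).re : ℂ) + s * (⟪ξ, Complex.I • v⟫_ℂ).re)) • G ξ) (ball (0 : E) 1) μ := by
    apply intOn
    have c1 : Continuous (fun ξ : E => ((((τ : ℝ) + 4) * (1 - ‖ξ‖ ^ 2) ^ (τ + 3) : ℝ) : ℂ)) := by fun_prop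
    have c3 : ∀ u : E, Continuous (fun ξ : E => (((⟪ξ, u⟫_ℂ).re : ℝ) : ℂ)) := fun u =>
      Complex.continuous_ofReal.comp
        (Complex.continuous_re.comp (continuous_id.inner continuous_const))
    exact c1.continuousOn.smul (((c3 v).add (continuous_const.mul (c3 _))).continuousOn.smul hGc)
  rw [← sub_eq_zero, ← integral_sub j1 j2, ← h3]
  apply setIntegral_congr_fun measurableSet_ball
  intro ξ _
  simp only [← Complex.coe_smul, smul_sub, smul_add, smul_smul]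
  have e5 : ∀ (a b c d : W), a + b - c = (a - d) + (b - (c - d)) := by intro a b c d; abel
  rw [e5 _ _ _ ((2⁻¹ * ((2 * ((τ : ℝ) + 4) * (1 - ‖ξ‖ ^ 2) ^ (τ + 3) * (⟪ξ, v⟫_ℂ).re : ℝ) : ℂ)) • G ξ), ← sub_smul]
  congr 2
  · rw [mul_comm]
  · congr 1
    ring
  · congr 1
    push_cast
    ring

/-- the conjugate linear part: `WW τ(ξ) = (1 - |ξ|²)⁴` -/
theorem ibp_bar (μ : Measure E) [μ.IsAddHaarMeasure] {G : E → W} {U : Set E} (hU : IsOpen U)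
    (hB : closedBall (0 : E) 1 ⊆ U) (hG : ContDiffOn ℝ 1 G U) (a : E) :
    ∫ ξ in ball (0 : E) 1, WW τ ξ • D01 G ξ a ∂μ =
      ∫ ξ in ball (0 : E) 1, ((((τ : ℝ) + 4) * (1 - ‖ξ‖ ^ 2) ^ (τ + 3) : ℝ) : ℂ) • ⟪a, ξ⟫_ℂ • G ξ ∂μ := by
  have h := (ibp_pair (τ := τ)) μ hU hB hG a Complex.I
  have e1 : ∀ ξ : E, (((⟪ξ, a⟫_ℂ).re : ℂ) + Complex.I * (⟪ξ, Complex.I • a⟫_ℂ).re) =
      ⟪a, ξ⟫_ℂ := by
    intro ξ
    rw [inner_smul_right, ← inner_conj_symm a ξ]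
    generalize ⟪ξ, a⟫_ℂ = c
    apply Complex.ext <;> simp
  simp only [e1] at h
  rw [← h]
  apply setIntegral_congr_fun measurableSet_ball
  intro ξ _
  show WW τ ξ • D01 G ξ a = _
  rw [D01_apply]

/-- the complex linear part -/
theorem ibp_holo (μ : Measure E) [μ.IsAddHaarMeasure] {G : E → W} {U : Set E} (hU : IsOpen U)
    (hB : closedBall (0 : E) 1 ⊆ U) (hG : ContDiffOn ℝ 1 G U) (a : E) :
    ∫ ξ in ball (0 : E) 1, WW τ ξ • D10 G ξ a ∂μ =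
      ∫ ξ in ball (0 : E) 1, ((((τ : ℝ) + 4) * (1 - ‖ξ‖ ^ 2) ^ (τ + 3) : ℝ) : ℂ) • ⟪ξ, a⟫_ℂ • G ξ ∂μ := by
  have h := (ibp_pair (τ := τ)) μ hU hB hG a (-Complex.I)
  have e1 : ∀ ξ : E, (((⟪ξ, a⟫_ℂ).re : ℂ) + -Complex.I * (⟪ξ, Complex.I • a⟫_ℂ).re) =
      ⟪ξ, a⟫_ℂ := by
    intro ξ
    rw [inner_smul_right]
    apply Complex.ext <;> simp
  simp only [e1] at h
  rw [← h]
  apply setIntegral_congr_fun measurableSet_ball
  intro ξ _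
  show WW τ ξ • D10 G ξ a =
    WW τ ξ • (2⁻¹ : ℂ) • (fderiv ℝ G ξ a + (-Complex.I) • fderiv ℝ G ξ (Complex.I • a))
  rw [D10, neg_smul, sub_eq_add_neg]

/-- the holomorphic Euler field, in a space of dimension `m + 1` -/
theorem ibp_euler (μ : Measure E) [μ.IsAddHaarMeasure] {m : ℕ}
    (hdim : Module.finrank ℂ E = m + 1) {G : E → W} {U : Set E} (hU : IsOpen U)
    (hB : closedBall (0 : E) 1 ⊆ U) (hG : ContDiffOn ℝ 1 G U) (a : E) :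
    ∫ ξ in ball (0 : E) 1, WW τ ξ • ⟪a, ξ⟫_ℂ • D10 G ξ ξ ∂μ =
      -∫ ξ in ball (0 : E) 1, ((((m : ℝ) + 2) * WW τ ξ - ((τ : ℝ) + 4) * ‖ξ‖ ^ 2 * (1 - ‖ξ‖ ^ 2) ^ (τ + 3) : ℝ) : ℂ) •
        ⟪a, ξ⟫_ℂ • G ξ ∂μ := by
  have hd : ∀ ξ ∈ closedBall (0 : E) 1, DifferentiableAt ℝ G ξ := fun ξ hξ =>
    ((hG ξ (hB hξ)).contDiffAt (hU.mem_nhds (hB hξ))).differentiableAt one_ne_zero
  have hGc : ContinuousOn G (closedBall (0 : E) 1) := hG.continuousOn.mono hB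
  have hfc : ContinuousOn (fderiv ℝ G) (closedBall (0 : E) 1) :=
    (hG.continuousOn_fderiv_of_isOpen hU le_rfl).mono hB
  have hDc : ∀ u : E, ContinuousOn (fun ξ => D10 G ξ u) (closedBall (0 : E) 1) := by
    intro u
    exact ((hfc.clm_apply continuousOn_const).sub
      ((hfc.clm_apply continuousOn_const).const_smul Complex.I)).const_smul _
  have hDξ : ContinuousOn (fun ξ => D10 G ξ ξ) (closedBall (0 : E) 1) := by
    have h1 : Continuous (fun ξ : E => Complex.I • ξ) := continuous_id.const_smul _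
    exact ((hfc.clm_apply continuousOn_id).sub
      ((hfc.clm_apply h1.continuousOn).const_smul Complex.I)).const_smul _
  -- orthonormal basis
  let b : OrthonormalBasis (Fin (m + 1)) ℂ E := (stdOrthonormalBasis ℂ E).reindex (finCongr hdim)
  have cin : ∀ u : E, Continuous (fun ξ : E => ⟪u, ξ⟫_ℂ) := fun u =>
    continuous_const.inner continuous_id
  have cin' : ∀ u : E, Continuous (fun ξ : E => ⟪ξ, u⟫_ℂ) := fun u =>
    continuous_id.inner continuous_const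
  -- the functions
  let H : Fin (m + 1) → E → W := fun j ξ => (⟪b j, ξ⟫_ℂ * ⟪a, ξ⟫_ℂ) • G ξ
  have hφ : ∀ j, ∀ ξ : E, HasFDerivAt (fun ξ : E => ⟪b j, ξ⟫_ℂ * ⟪a, ξ⟫_ℂ)
      (((⟪b j, ξ⟫_ℂ • innerSL ℂ a + ⟪a, ξ⟫_ℂ • innerSL ℂ (b j) : E →L[ℂ] ℂ)).restrictScalars ℝ)
      ξ := by
    intro j ξ
    have h1 : HasFDerivAt (fun ξ : E => ⟪b j, ξ⟫_ℂ) (innerSL ℂ (b j)) ξ :=
      (innerSL ℂ (b j)).hasFDerivAt
    have h2 : HasFDerivAt (fun ξ : E => ⟪a, ξ⟫_ℂ) (innerSL ℂ a) ξ := (innerSL ℂ a).hasFDerivAt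
    exact (h1.mul h2).restrictScalars ℝ
  have hφc : ∀ j, ContDiff ℝ 1 (fun ξ : E => ⟪b j, ξ⟫_ℂ * ⟪a, ξ⟫_ℂ) := by
    intro j
    have h1 : ContDiff ℂ 1 (fun ξ : E => ⟪b j, ξ⟫_ℂ * ⟪a, ξ⟫_ℂ) :=
      ((innerSL ℂ (b j)).contDiff).mul ((innerSL ℂ a).contDiff)
    exact h1.restrict_scalars ℝ
  have hH : ∀ j, ContDiffOn ℝ 1 (H j) U := fun j => (hφc j).contDiffOn.smul hG
  have hD : ∀ j, ∀ ξ ∈ closedBall (0 : E) 1, D10 (H j) ξ (b j) =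
      (⟪b j, ξ⟫_ℂ * ⟪a, b j⟫_ℂ + ⟪a, ξ⟫_ℂ) • G ξ +
        (⟪b j, ξ⟫_ℂ * ⟪a, ξ⟫_ℂ) • D10 G ξ (b j) := by
    intro j ξ hξ
    have h1 := ((hφ j ξ).smul (hd ξ hξ).hasFDerivAt).fderiv
    have h2 : fderiv ℝ (H j) ξ = _ := h1
    have h3 : ∀ u : E, fderiv ℝ (H j) ξ u = (⟪b j, ξ⟫_ℂ * ⟪a, ξ⟫_ℂ) • fderiv ℝ G ξ u +
        (⟪b j, ξ⟫_ℂ * ⟪a, u⟫_ℂ + ⟪a, ξ⟫_ℂ * ⟪b j, u⟫_ℂ) • G ξ := by
      intro u
      rw [h2]
      rfl
    have hbb : ⟪b j, b j⟫_ℂ = 1 := by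
      rw [inner_self_eq_norm_sq_to_K, b.orthonormal.1 j]; simp
    unfold D10
    rw [h3, h3, inner_smul_right, inner_smul_right, hbb]
    generalize fderiv ℝ G ξ (b j) = A
    generalize fderiv ℝ G ξ (Complex.I • b j) = B
    generalize ⟪a, b j⟫_ℂ = q
    generalize ⟪b j, ξ⟫_ℂ = p
    generalize ⟪a, ξ⟫_ℂ = r
    have e1 : Complex.I • ((p * (Complex.I * q) + r * (Complex.I * 1)) • G ξ) =
        (-(p * q + r)) • G ξ := by
      rw [smul_smul]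
      congr 1
      linear_combination (p * q + r) * Complex.I_mul_I
    rw [smul_add, e1]
    module
  have key : ∀ j, ∫ ξ in ball (0 : E) 1, WW τ ξ • D10 (H j) ξ (b j) ∂μ =
      ∫ ξ in ball (0 : E) 1, ((((τ : ℝ) + 4) * (1 - ‖ξ‖ ^ 2) ^ (τ + 3) : ℝ) : ℂ) • ⟪ξ, b j⟫_ℂ • H j ξ ∂μ :=
    fun j => (ibp_holo (τ := τ)) μ hU hB (hH j) (b j)
  have hsum := Finset.sum_congr (s₁ := Finset.univ) rfl fun j (_ : j ∈ Finset.univ) => key j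
  have iL : ∀ j, IntegrableOn (fun ξ => WW τ ξ • ((⟪b j, ξ⟫_ℂ * ⟪a, b j⟫_ℂ + ⟪a, ξ⟫_ℂ) • G ξ +
        (⟪b j, ξ⟫_ℂ * ⟪a, ξ⟫_ℂ) • D10 G ξ (b j))) (ball (0 : E) 1) μ := by
    intro j
    apply intOn
    have c1 : Continuous (fun ξ : E => ⟪b j, ξ⟫_ℂ * ⟪a, b j⟫_ℂ + ⟪a, ξ⟫_ℂ) :=
      ((cin _).mul continuous_const).add (cin _)
    have c2 : Continuous (fun ξ : E => ⟪b j, ξ⟫_ℂ * ⟪a, ξ⟫_ℂ) := (cin _).mul (cin _)
    exact (WW_cont (τ := τ)).continuousOn.smul ((c1.continuousOn.smul hGc).add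
      (c2.continuousOn.smul (hDc _)))
  have c4 : Continuous (fun ξ : E => ((((τ : ℝ) + 4) * (1 - ‖ξ‖ ^ 2) ^ (τ + 3) : ℝ) : ℂ)) := by fun_prop
  have iR : ∀ j, IntegrableOn (fun ξ => ((((τ : ℝ) + 4) * (1 - ‖ξ‖ ^ 2) ^ (τ + 3) : ℝ) : ℂ) •
      ⟪ξ, b j⟫_ℂ • H j ξ) (ball (0 : E) 1) μ := by
    intro j
    apply intOn
    exact c4.continuousOn.smul ((cin' _).continuousOn.smul ((hH j).continuousOn.mono hB))
  have hLj : ∀ j, ∫ ξ in ball (0 : E) 1, WW τ ξ • D10 (H j) ξ (b j) ∂μ =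
      ∫ ξ in ball (0 : E) 1, WW τ ξ • ((⟪b j, ξ⟫_ℂ * ⟪a, b j⟫_ℂ + ⟪a, ξ⟫_ℂ) • G ξ +
        (⟪b j, ξ⟫_ℂ * ⟪a, ξ⟫_ℂ) • D10 G ξ (b j)) ∂μ := by
    intro j
    apply setIntegral_congr_fun measurableSet_ball
    intro ξ hξ
    show WW τ ξ • D10 (H j) ξ (b j) = _
    rw [hD j ξ (ball_subset_closedBall hξ)]
  simp only [hLj] at hsum
  rw [← integral_finsetSum _ (fun j _ => iL j), ← integral_finsetSum _ (fun j _ => iR j)] at hsum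
  -- pointwise sums
  have s1 : ∀ ξ : E, ∑ j, ⟪b j, ξ⟫_ℂ • b j = ξ := fun ξ => b.sum_repr' ξ
  have s2 : ∀ ξ : E, ∑ j, ⟪b j, ξ⟫_ℂ * ⟪a, b j⟫_ℂ = ⟪a, ξ⟫_ℂ := by
    intro ξ
    conv_rhs => rw [← s1 ξ, inner_sum]
    exact Finset.sum_congr rfl fun j _ => by rw [inner_smul_right]
  have s3 : ∀ ξ : E, ∑ j, ⟪b j, ξ⟫_ℂ • D10 G ξ (b j) = D10 G ξ ξ := by
    intro ξ
    have hz : D10 G ξ 0 = 0 := by unfold D10; simp
    have hs : ∀ t : Finset (Fin (m + 1)), D10 G ξ (∑ j ∈ t, ⟪b j, ξ⟫_ℂ • b j) =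
        ∑ j ∈ t, ⟪b j, ξ⟫_ℂ • D10 G ξ (b j) := by
      intro t
      classical
      induction t using Finset.induction_on with
      | empty => simpa using hz
      | insert j t hj ih => rw [Finset.sum_insert hj, Finset.sum_insert hj, D10_add, D10_smul, ih]
    conv_rhs => rw [← s1 ξ]
    have := hs Finset.univ
    rw [s1 ξ] at this ⊢
    exact this.symm
  have s4 : ∀ ξ : E, ∑ j, ⟪ξ, b j⟫_ℂ * ⟪b j, ξ⟫_ℂ = ((‖ξ‖ ^ 2 : ℝ) : ℂ) := by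
    intro ξ
    rw [b.sum_inner_mul_inner, inner_self_eq_norm_sq_to_K]
    norm_cast
  have hL : ∫ ξ in ball (0 : E) 1, ∑ j, WW τ ξ • ((⟪b j, ξ⟫_ℂ * ⟪a, b j⟫_ℂ + ⟪a, ξ⟫_ℂ) • G ξ +
        (⟪b j, ξ⟫_ℂ * ⟪a, ξ⟫_ℂ) • D10 G ξ (b j)) ∂μ =
      ∫ ξ in ball (0 : E) 1, (WW τ ξ • ⟪a, ξ⟫_ℂ • D10 G ξ ξ +
        (((m : ℝ) + 2) * WW τ ξ : ℝ) • ⟪a, ξ⟫_ℂ • G ξ) ∂μ := by
    apply setIntegral_congr_fun measurableSet_ball
    intro ξ _
    show ∑ j, WW τ ξ • ((⟪b j, ξ⟫_ℂ * ⟪a, b j⟫_ℂ + ⟪a, ξ⟫_ℂ) • G ξ +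
        (⟪b j, ξ⟫_ℂ * ⟪a, ξ⟫_ℂ) • D10 G ξ (b j)) = _
    rw [← Finset.smul_sum, Finset.sum_add_distrib, ← Finset.sum_smul, Finset.sum_add_distrib, s2]
    have h5 : ∑ j, (⟪b j, ξ⟫_ℂ * ⟪a, ξ⟫_ℂ) • D10 G ξ (b j) = ⟪a, ξ⟫_ℂ • D10 G ξ ξ := by
      rw [← s3 ξ, Finset.smul_sum]
      exact Finset.sum_congr rfl fun j _ => by rw [smul_smul, mul_comm]
    rw [h5, Finset.sum_const, Finset.card_univ, Fintype.card_fin]
    have h6 : ⟪a, ξ⟫_ℂ + (m + 1) • ⟪a, ξ⟫_ℂ = (((m : ℝ) + 2 : ℝ) : ℂ) * ⟪a, ξ⟫_ℂ := by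
      rw [nsmul_eq_mul]; push_cast; ring
    rw [h6, smul_add, add_comm]
    congr 1
    simp only [← Complex.coe_smul, smul_smul]
    congr 1
    push_cast
    ring
  have hR : ∫ ξ in ball (0 : E) 1, ∑ j, ((((τ : ℝ) + 4) * (1 - ‖ξ‖ ^ 2) ^ (τ + 3) : ℝ) : ℂ) •
      ⟪ξ, b j⟫_ℂ • H j ξ ∂μ =
      ∫ ξ in ball (0 : E) 1, (((τ : ℝ) + 4) * ‖ξ‖ ^ 2 * (1 - ‖ξ‖ ^ 2) ^ (τ + 3) : ℝ) • ⟪a, ξ⟫_ℂ • G ξ ∂μ := by
    apply setIntegral_congr_fun measurableSet_ball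
    intro ξ _
    show ∑ j, ((((τ : ℝ) + 4) * (1 - ‖ξ‖ ^ 2) ^ (τ + 3) : ℝ) : ℂ) • ⟪ξ, b j⟫_ℂ • H j ξ = _
    rw [← Finset.smul_sum]
    have h5 : ∑ j, ⟪ξ, b j⟫_ℂ • H j ξ = ((‖ξ‖ ^ 2 : ℝ) : ℂ) • ⟪a, ξ⟫_ℂ • G ξ := by
      rw [← s4 ξ, Finset.sum_smul]
      refine Finset.sum_congr rfl fun j _ => ?_
      show ⟪ξ, b j⟫_ℂ • (⟪b j, ξ⟫_ℂ * ⟪a, ξ⟫_ℂ) • G ξ = _
      simp only [smul_smul, mul_assoc]
    rw [h5]
    simp only [← Complex.coe_smul, smul_smul]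
    congr 1
    push_cast
    ring
  rw [hL, hR] at hsum
  have k1 : IntegrableOn (fun ξ => WW τ ξ • ⟪a, ξ⟫_ℂ • D10 G ξ ξ) (ball (0 : E) 1) μ :=
    intOn μ ((WW_cont (τ := τ)).continuousOn.smul ((cin a).continuousOn.smul hDξ))
  have k2 : IntegrableOn (fun ξ => (((m : ℝ) + 2) * WW τ ξ : ℝ) • ⟪a, ξ⟫_ℂ • G ξ)
      (ball (0 : E) 1) μ :=
    intOn μ (((continuous_const.mul (WW_cont (τ := τ))).continuousOn).smul ((cin a).continuousOn.smul hGc))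
  have k3 : IntegrableOn (fun ξ => (((τ : ℝ) + 4) * ‖ξ‖ ^ 2 * (1 - ‖ξ‖ ^ 2) ^ (τ + 3) : ℝ) • ⟪a, ξ⟫_ℂ • G ξ)
      (ball (0 : E) 1) μ := by
    have : Continuous (fun ξ : E => (((τ : ℝ) + 4) * ‖ξ‖ ^ 2 * (1 - ‖ξ‖ ^ 2) ^ (τ + 3) : ℝ)) := by fun_prop
    exact intOn μ (this.continuousOn.smul ((cin a).continuousOn.smul hGc))
  rw [integral_add k1 k2] at hsum
  have h7 : ∫ ξ in ball (0 : E) 1, ((((m : ℝ) + 2) * WW τ ξ -
        ((τ : ℝ) + 4) * ‖ξ‖ ^ 2 * (1 - ‖ξ‖ ^ 2) ^ (τ + 3) : ℝ) : ℂ) • ⟪a, ξ⟫_ℂ • G ξ ∂μ =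
      ∫ ξ in ball (0 : E) 1, (((m : ℝ) + 2) * WW τ ξ : ℝ) • ⟪a, ξ⟫_ℂ • G ξ ∂μ -
      ∫ ξ in ball (0 : E) 1, (((τ : ℝ) + 4) * ‖ξ‖ ^ 2 * (1 - ‖ξ‖ ^ 2) ^ (τ + 3) : ℝ) • ⟪a, ξ⟫_ℂ • G ξ ∂μ := by
    rw [← integral_sub k2 k3]
    apply setIntegral_congr_fun measurableSet_ball
    intro ξ _
    show ((((m : ℝ) + 2) * WW τ ξ - ((τ : ℝ) + 4) * ‖ξ‖ ^ 2 * (1 - ‖ξ‖ ^ 2) ^ (τ + 3) : ℝ) : ℂ) • ⟪a, ξ⟫_ℂ • G ξ =
      (((m : ℝ) + 2) * WW τ ξ : ℝ) • ⟪a, ξ⟫_ℂ • G ξ -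
      (((τ : ℝ) + 4) * ‖ξ‖ ^ 2 * (1 - ‖ξ‖ ^ 2) ^ (τ + 3) : ℝ) • ⟪a, ξ⟫_ℂ • G ξ
    rw [← sub_smul, Complex.coe_smul]
  rw [h7, ← hsum]
  abel

end Pool.Agent.MPca0fc2.TW

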