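import Mathlib
import Pool.Agent.Lib.MP_ca0fc2_an.TWDefs
import Pool.Agent.Lib.MP_ca0fc2_an.Mg.G050
import Pool.Agent.Lib.MP_ca0fc2_an.Mg.G055

set_option autoImplicit false
set_option linter.unusedSectionVars false



open Metric Set MeasureTheory Filter Topology

open scoped InnerProductSpace ENNReal

namespace Pool.Agent.MPca0fc2.TW

open Pool.Agent.MPca0fc2.QT

open Pool.Agent.MPca0fc2.PT

variable {τ : ℕ}

variable {E : Type*} [NormedAddCommGroup E] [InnerProductSpace ℂ E]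

variable [FiniteDimensional ℂ E] [MeasurableSpace E] [BorelSpace E]

variable {W : Type*} [NormedAddCommGroup W] [NormedSpace ℂ W] [CompleteSpace W]

omit [FiniteDimensional ℂ E] [MeasurableSpace E] [BorelSpace E] in
theorem k3_WW_le {w : E} (hw : w ∈ ball (0 : E) 1) : |WW τ w| ≤ 1 := by
  rw [mem_ball_zero_iff] at hw
  have h1 : 0 ≤ 1 - ‖w‖ ^ 2 := by nlinarith [norm_nonneg w]
  have h2 : 1 - ‖w‖ ^ 2 ≤ 1 := by nlinarith [norm_nonneg w]
  unfold WW
  rw [abs_of_nonneg (by positivity)]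
  exact pow_le_one₀ h1 h2

/-- differentiation along a curve of complex multipliers -/
private theorem sca_curve (μ : Measure E) [μ.IsAddHaarMeasure] {G : E → W} {U : Set E}
    (hU : IsOpen U) (hBU : closedBall (0 : E) 1 ⊆ U) (hG : ContDiffOn ℝ 1 G U)
    {γ : ℝ → ℂ} {γ' : ℝ → ℂ} {t₀ L : ℝ} (ht₀ : ‖γ t₀‖ ≤ 1)
    (hγ : ∀ t, HasDerivAt γ (γ' t) t) (hL : ∀ t, ‖γ' t‖ ≤ L) :
    Integrable (fun ξ : E => WW τ ξ • fderiv ℝ G (γ t₀ • ξ) (γ' t₀ • ξ))
      (μ.restrict (ball 0 1)) ∧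
    HasDerivAt (fun t : ℝ => ∫ ξ in ball (0 : E) 1, WW τ ξ • G (γ t • ξ) ∂μ)
      (∫ ξ in ball (0 : E) 1, WW τ ξ • fderiv ℝ G (γ t₀ • ξ) (γ' t₀ • ξ) ∂μ) t₀ := by
  have hprop : ProperSpace E := FiniteDimensional.proper ℂ E
  have hfin : IsFiniteMeasure (μ.restrict (ball (0 : E) 1)) :=
    ⟨by rw [Measure.restrict_apply_univ]; exact measure_ball_lt_top⟩
  obtain ⟨δ, hδ, hδU⟩ := (isCompact_closedBall (0 : E) 1).exists_cthickening_subset_open hU hBU
  rw [cthickening_closedBall hδ.le zero_le_one] at hδU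
  have hcd : ContinuousOn (fderiv ℝ G) U := hG.continuousOn_fderiv_of_isOpen hU le_rfl
  have hcG : ContinuousOn G U := hG.continuousOn
  obtain ⟨B, hB⟩ := (isCompact_closedBall (0 : E) (δ + 1)).exists_bound_of_continuousOn
    (hcd.mono hδU)
  obtain ⟨B', hB'⟩ := (isCompact_closedBall (0 : E) (δ + 1)).exists_bound_of_continuousOn
    (hcG.mono hδU)
  have hγc : Continuous γ := continuous_iff_continuousAt.mpr fun t => (hγ t).continuousAt
  have hs : {t : ℝ | ‖γ t‖ < δ + 1} ∈ 𝓝 t₀ := by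
    apply (isOpen_lt hγc.norm continuous_const).mem_nhds
    show ‖γ t₀‖ < δ + 1
    linarith
  have hmemE : ∀ t, ‖γ t‖ < δ + 1 → ∀ ξ ∈ ball (0 : E) 1, γ t • ξ ∈ closedBall (0 : E) (δ + 1) := by
    intro t ht ξ hξ
    rw [mem_ball_zero_iff] at hξ
    rw [mem_closedBall_zero_iff, norm_smul]
    nlinarith [norm_nonneg (γ t), norm_nonneg ξ]
  have hWc : Continuous (fun ξ : E => WW τ ξ) := by
    unfold WW
    fun_prop
  have hmeas : ∀ c : ℂ, ‖c‖ < δ + 1 → AEStronglyMeasurable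
      (fun ξ : E => WW τ ξ • G (c • ξ)) (μ.restrict (ball 0 1)) := by
    intro c hc
    apply ContinuousOn.aestronglyMeasurable _ measurableSet_ball
    apply ContinuousOn.smul hWc.continuousOn
    apply hcG.comp (continuous_const_smul c).continuousOn
    intro ξ hξ
    apply hδU
    rw [mem_ball_zero_iff] at hξ
    rw [mem_closedBall_zero_iff, norm_smul]
    nlinarith [norm_nonneg c, norm_nonneg ξ]
  have hmeas' : AEStronglyMeasurable
      (fun ξ : E => WW τ ξ • fderiv ℝ G (γ t₀ • ξ) (γ' t₀ • ξ))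
      (μ.restrict (ball 0 1)) := by
    apply ContinuousOn.aestronglyMeasurable _ measurableSet_ball
    apply ContinuousOn.smul hWc.continuousOn
    apply ContinuousOn.clm_apply
    · apply hcd.comp (continuous_const_smul (γ t₀)).continuousOn
      intro ξ hξ
      apply hδU
      exact hmemE t₀ (by linarith) ξ hξ
    · exact (continuous_const_smul (γ' t₀)).continuousOn
  refine hasDerivAt_integral_of_dominated_loc_of_deriv_le (𝕜 := ℝ) (bound := fun _ => B * L)
    (F := fun (t : ℝ) (ξ : E) => WW τ ξ • G (γ t • ξ))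
    (F' := fun (t : ℝ) (ξ : E) => WW τ ξ • fderiv ℝ G (γ t • ξ) (γ' t • ξ))
    hs ?_ ?_ hmeas' ?_ (integrable_const _) ?_
  · filter_upwards [hs] with t ht using hmeas (γ t) ht
  · refine Integrable.mono' (g := fun _ => B') (integrable_const _)
      (hmeas (γ t₀) (by linarith)) ?_
    refine (ae_restrict_iff' measurableSet_ball).mpr (Eventually.of_forall fun ξ hξ => ?_)
    rw [norm_smul, Real.norm_eq_abs]
    have h1 := hB' _ (hmemE t₀ (by linarith) ξ hξ)
    have h2 := (k3_WW_le (τ := τ)) hξ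
    have h3 := norm_nonneg (G (γ t₀ • ξ))
    have h4 := abs_nonneg (WW τ ξ)
    nlinarith
  · refine (ae_restrict_iff' measurableSet_ball).mpr (Eventually.of_forall fun ξ hξ => ?_)
    intro t ht
    rw [norm_smul, Real.norm_eq_abs]
    have h1 := hB _ (hmemE t ht ξ hξ)
    have h2 := (k3_WW_le (τ := τ)) hξ
    have h3 : ‖fderiv ℝ G (γ t • ξ) (γ' t • ξ)‖ ≤ B * L := by
      refine (ContinuousLinearMap.le_opNorm _ _).trans ?_
      have h5 : ‖γ' t • ξ‖ ≤ L := by
        rw [norm_smul]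
        rw [mem_ball_zero_iff] at hξ
        nlinarith [hL t, norm_nonneg (γ' t), norm_nonneg ξ]
      have h6 := norm_nonneg (fderiv ℝ G (γ t • ξ))
      exact mul_le_mul h1 h5 (norm_nonneg _) (h6.trans h1)
    have h4 := abs_nonneg (WW τ ξ)
    have h7 := norm_nonneg (fderiv ℝ G (γ t • ξ) (γ' t • ξ))
    nlinarith
  · refine (ae_restrict_iff' measurableSet_ball).mpr (Eventually.of_forall fun ξ hξ => ?_)
    intro t ht
    have hd : DifferentiableAt ℝ G (γ t • ξ) :=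
      (hG.differentiableOn one_ne_zero).differentiableAt
        (hU.mem_nhds (hδU (hmemE t ht ξ hξ)))
    have h1 : HasDerivAt (fun t => γ t • ξ) (γ' t • ξ) t := (hγ t).smul_const ξ
    have h2 := hd.hasFDerivAt.comp_hasDerivAt t h1
    exact h2.const_smul _

/-- rotation invariance -/
private theorem sca_rot (μ : Measure E) [μ.IsAddHaarMeasure] (F : E → W) {c : ℂ} (hc : ‖c‖ = 1) :
    ∫ ξ in ball (0 : E) 1, WW τ ξ • F (c • ξ) ∂μ =
      ∫ ξ in ball (0 : E) 1, WW τ ξ • F ξ ∂μ := by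
  have hprop : ProperSpace E := FiniteDimensional.proper ℂ E
  have hmp := SD.mp_smul μ hc
  have hpre : (fun y : E => c • y) ⁻¹' (ball 0 1) = ball 0 1 := by
    ext y
    simp only [mem_preimage, mem_ball_zero_iff, norm_smul, hc, one_mul]
  have hemb : MeasurableEmbedding (fun y : E => c • y) := by
    have hc0 : c ≠ 0 := by
      intro h; rw [h, norm_zero] at hc; exact one_ne_zero hc.symm
    exact (Homeomorph.smulOfNeZero _ hc0 : E ≃ₜ E).measurableEmbedding
  have h := hmp.setIntegral_preimage_emb hemb (fun ξ => WW τ ξ • F ξ) (ball 0 1)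
  rw [hpre] at h
  rw [← h]
  congr 1
  funext ξ
  congr 1
  unfold WW
  rw [norm_smul, hc, one_mul]

/-- the rotational derivative has mean zero -/
private theorem sca_rot_zero (μ : Measure E) [μ.IsAddHaarMeasure] {G : E → W} {U : Set E}
    (hU : IsOpen U) (hBU : closedBall (0 : E) 1 ⊆ U) (hG : ContDiffOn ℝ 1 G U) {r : ℝ}
    (hr : r ∈ Icc (0 : ℝ) 1) :
    ∫ ξ in ball (0 : E) 1,
      WW τ ξ • fderiv ℝ G ((r : ℂ) • ξ) (Complex.I • ξ) ∂μ = 0 := by
  rcases eq_or_lt_of_le hr.1 with h0 | h0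
  · have h := (sca_rot (τ := τ)) μ (fun ξ => fderiv ℝ G ((r : ℂ) • ξ) (Complex.I • ξ)) (c := -1) (by simp)
    rw [← h0] at h ⊢
    simp only [Complex.ofReal_zero, zero_smul, neg_smul, one_smul, smul_neg, map_neg, neg_zero,
      integral_neg] at h ⊢
    have h5 : (2 : ℝ) • ∫ ξ in ball (0 : E) 1, WW τ ξ • fderiv ℝ G 0 (Complex.I • ξ) ∂μ = 0 := by
      rw [two_smul]
      nth_rewrite 1 [← h]
      exact neg_add_cancel _
    exact (smul_eq_zero.1 h5).resolve_left two_ne_zero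
  · set γ : ℝ → ℂ := fun θ => (r : ℂ) * Complex.exp ((θ : ℂ) * Complex.I) with hγ
    set γ' : ℝ → ℂ := fun θ => (r : ℂ) * (Complex.exp ((θ : ℂ) * Complex.I) * Complex.I) with hγ'
    have hd : ∀ t, HasDerivAt γ (γ' t) t := by
      intro t
      have h1 : HasDerivAt (fun θ : ℝ => (θ : ℂ) * Complex.I) Complex.I t := by
        simpa using (Complex.ofRealCLM.hasDerivAt (x := t)).mul_const Complex.I
      exact h1.cexp.const_mul _
    have hn : ∀ t, ‖γ' t‖ ≤ r := by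
      intro t
      rw [hγ']
      simp only [norm_mul, Complex.norm_real, Real.norm_of_nonneg hr.1, Complex.norm_I, mul_one,
        Complex.norm_exp_ofReal_mul_I]
      exact le_rfl
    have ht : ‖γ 0‖ ≤ 1 := by
      rw [hγ]
      simp only [norm_mul, Complex.norm_real, Real.norm_of_nonneg hr.1,
        Complex.norm_exp_ofReal_mul_I, mul_one]
      exact hr.2
    obtain ⟨-, h⟩ := (sca_curve (τ := τ)) μ hU hBU hG ht hd hn
    have hconst : (fun t : ℝ => ∫ ξ in ball (0 : E) 1, WW τ ξ • G (γ t • ξ) ∂μ) =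
        fun _ => ∫ ξ in ball (0 : E) 1, WW τ ξ • G ((r : ℂ) • ξ) ∂μ := by
      funext t
      have h1 := (sca_rot (τ := τ)) μ (fun ξ => G ((r : ℂ) • ξ)) (c := Complex.exp ((t : ℂ) * Complex.I))
        (Complex.norm_exp_ofReal_mul_I t)
      rw [← h1]
      congr 1
      funext ξ
      rw [hγ, smul_smul]
    rw [hconst] at h
    have h2 := h.unique (hasDerivAt_const (0 : ℝ) _)
    have h3 : ∀ ξ : E, WW τ ξ • fderiv ℝ G (γ 0 • ξ) (γ' 0 • ξ) =
        r • (WW τ ξ • fderiv ℝ G ((r : ℂ) • ξ) (Complex.I • ξ)) := by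
      intro ξ
      have e1 : γ 0 = r := by rw [hγ]; simp
      have e2 : γ' 0 • ξ = r • (Complex.I • ξ) := by
        rw [hγ', ← Complex.coe_smul, smul_smul]
        simp
      rw [e1, e2, map_smul, smul_comm]
    simp only [h3] at h2
    rw [integral_smul] at h2
    exact (smul_eq_zero.mp h2).resolve_left h0.ne'

/-- the scaling of the mean value -/
theorem scale_mean (μ : Measure E) [μ.IsAddHaarMeasure] {G : E → W} {U : Set E} (hU : IsOpen U)
    (hB : closedBall (0 : E) 1 ⊆ U) (hG : ContDiffOn ℝ 1 G U) {r : ℝ} (hr : r ∈ Icc (0 : ℝ) 1) :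
    HasDerivAt (fun r : ℝ => ∫ ξ in ball (0 : E) 1, WW τ ξ • G ((r : ℂ) • ξ) ∂μ)
      ((2 : ℂ) • ∫ ξ in ball (0 : E) 1, WW τ ξ • D01 G ((r : ℂ) • ξ) ξ ∂μ) r := by
  have hrn : ‖(r : ℂ)‖ ≤ 1 := by
    rw [Complex.norm_real, Real.norm_of_nonneg hr.1]; exact hr.2
  have hd1 : ∀ t : ℝ, HasDerivAt (fun t : ℝ => (t : ℂ)) ((fun _ => (1 : ℂ)) t) t := by
    intro t
    exact (hasDerivAt_id t).ofReal_comp
  obtain ⟨hi1, h1⟩ := (sca_curve (τ := τ)) μ hU hB hG (γ := fun t : ℝ => (t : ℂ)) (γ' := fun _ => 1)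
    (t₀ := r) (L := 1) hrn hd1 (by simp)
  have hd2 : ∀ t : ℝ, HasDerivAt (fun t : ℝ => (r : ℂ) + ((t - r : ℝ) : ℂ) * Complex.I)
      ((fun _ => Complex.I) t) t := by
    intro t
    have h3 : HasDerivAt (fun t : ℝ => ((t - r : ℝ) : ℂ)) 1 t := by
      simpa using ((hasDerivAt_id t).sub_const r).ofReal_comp
    simpa using (h3.mul_const Complex.I).const_add (r : ℂ)
  obtain ⟨hi2, -⟩ := (sca_curve (τ := τ)) μ hU hB hG
    (γ := fun t : ℝ => (r : ℂ) + ((t - r : ℝ) : ℂ) * Complex.I) (γ' := fun _ => Complex.I)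
    (t₀ := r) (L := 1) (by simpa using hrn) hd2 (by simp)
  simp only [sub_self, Complex.ofReal_zero, zero_mul, add_zero] at hi2
  simp only [one_smul] at hi1 h1
  have h0 := (sca_rot_zero (τ := τ)) μ hU hB hG hr
  have e : ∀ ξ : E, WW τ ξ • D01 G ((r : ℂ) • ξ) ξ =
      (2⁻¹ : ℂ) • (WW τ ξ • fderiv ℝ G ((r : ℂ) • ξ) ξ) +
        (2⁻¹ * Complex.I : ℂ) • (WW τ ξ • fderiv ℝ G ((r : ℂ) • ξ) (Complex.I • ξ)) := by
    intro ξ
    rw [D01_apply, smul_add, smul_smul, smul_add, smul_comm (WW τ ξ) (2⁻¹ : ℂ),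
      smul_comm (WW τ ξ) (2⁻¹ * Complex.I : ℂ)]
  have e2 : ∫ ξ in ball (0 : E) 1, WW τ ξ • D01 G ((r : ℂ) • ξ) ξ ∂μ =
      (2⁻¹ : ℂ) • ∫ ξ in ball (0 : E) 1, WW τ ξ • fderiv ℝ G ((r : ℂ) • ξ) ξ ∂μ := by
    simp only [e]
    have h6 := integral_add (hi1.smul (2⁻¹ : ℂ)) (hi2.smul (2⁻¹ * Complex.I : ℂ))
    simp only [Pi.smul_apply] at h6
    rw [h6, integral_smul, integral_smul, h0, smul_zero, add_zero]
  rw [e2, smul_smul]
  norm_num
  exact h1

end Pool.Agent.MPca0fc2.TW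

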