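import Mathlib
import Pool.Agent.Lib.MP_ca0fc2_an.TWKer
import Pool.Agent.Lib.MP_ca0fc2_an.TWD1
import Pool.Agent.Lib.MP_ca0fc2_an.TWIbp
import Pool.Agent.Lib.MP_ca0fc2_an.TWSca
import Pool.Agent.Lib.MP_ca0fc2_an.Mg.G019

set_option autoImplicit false
set_option linter.unusedSectionVars false



open Metric Set MeasureTheory Filter Topology

open scoped InnerProductSpace ENNReal

namespace Pool.Agent.MPca0fc2.TW

open Pool.Agent.MPca0fc2.QT

open Pool.Agent.MPca0fc2.PT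

variable {τ : ℕ}

variable {E : Type*} [NormedAddCommGroup E] [InnerProductSpace ℂ E]

variable {V : Type*} [NormedAddCommGroup V] [NormedSpace ℂ V]

/-! ### continuity -/

section cont

variable {X : Type*} [TopologicalSpace X]

end cont

/-- the integrand -/
noncomputable def kopF (τ m : ℕ) {q : ℕ} (η : E → E [⋀^Fin (q + 1)]→L[ℝ] V) (a : E)
    (p : ℝ × E) : E [⋀^Fin q]→L[ℝ] V :=
  ((1 - p.1 ^ 2) ^ q * (1 - ‖p.2‖ ^ 2) ^ (τ + 4)) •
        ((d1 η ((p.1 : ℂ) • p.2) a).curryLeft p.2 -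
          ((p.1 : ℂ) * ⟪a, p.2⟫_ℂ) • (((m + (τ + 6) : ℕ) : ℂ) • (η ((p.1 : ℂ) • p.2)).curryLeft p.2 +
            (p.1 : ℂ) • (dh η ((p.1 : ℂ) • p.2) p.2).curryLeft p.2))

theorem kopF_cont (m : ℕ) {q : ℕ} {η : E → E [⋀^Fin (q + 1)]→L[ℝ] V} {U : Set E} (hU : IsOpen U)
    (hB : closedBall (0 : E) 1 ⊆ U) (hη : ContDiffOn ℝ 1 η U) (a : E) :
    ContinuousOn (kopF τ m η a) (Icc (0 : ℝ) 1 ×ˢ closedBall (0 : E) 1) := by
  have h1 := kop_cont_comp hB (kop_d1_cont hU hη)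
  have h2 := kop_cont_comp hB hη.continuousOn
  have h3 := kop_cont_comp hB (hη.continuousOn_fderiv_of_isOpen hU le_rfl)
  have hsnd : ContinuousOn (fun p : ℝ × E => p.2) (Icc (0 : ℝ) 1 ×ˢ closedBall (0 : E) 1) :=
    continuous_snd.continuousOn
  have hc : ∀ {f : ℝ × E → E [⋀^Fin (q + 1)]→L[ℝ] V},
      ContinuousOn f (Icc (0 : ℝ) 1 ×ˢ closedBall (0 : E) 1) →
      ContinuousOn (fun p => (f p).curryLeft p.2) (Icc (0 : ℝ) 1 ×ˢ closedBall (0 : E) 1) := by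
    intro f hf
    exact ((kopC E V q).continuous.comp_continuousOn hf).clm_apply hsnd
  have h4 : ContinuousOn (fun p : ℝ × E => dh η ((p.1 : ℂ) • p.2) p.2)
      (Icc (0 : ℝ) 1 ×ˢ closedBall (0 : E) 1) := by
    unfold dh
    exact ((h3.clm_apply hsnd).sub
      ((h3.clm_apply (hsnd.const_smul Complex.I)).const_smul Complex.I)).const_smul (2⁻¹ : ℂ)
  have hs1 : ContinuousOn (fun p : ℝ × E => (1 - p.1 ^ 2) ^ q * (1 - ‖p.2‖ ^ 2) ^ (τ + 4))
      (Icc (0 : ℝ) 1 ×ˢ closedBall (0 : E) 1) := Continuous.continuousOn (by fun_prop)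
  have hs2 : ContinuousOn (fun p : ℝ × E => (p.1 : ℂ) * ⟪a, p.2⟫_ℂ)
      (Icc (0 : ℝ) 1 ×ˢ closedBall (0 : E) 1) := Continuous.continuousOn (by fun_prop)
  have hs3 : ContinuousOn (fun p : ℝ × E => (p.1 : ℂ))
      (Icc (0 : ℝ) 1 ×ˢ closedBall (0 : E) 1) := Continuous.continuousOn (by fun_prop)
  have e1 := hc (h1.clm_apply (g := fun _ => a) continuousOn_const)
  have e2 := (hc h2).const_smul (((m + (τ + 6) : ℕ) : ℂ))
  have e3 := hs3.smul (hc h4)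
  exact hs1.smul (e1.sub (hs2.smul (e2.add e3)))

variable [FiniteDimensional ℂ E] [MeasurableSpace E] [BorelSpace E]

/-- the two integrations by parts -/
theorem kop_parts (μ : Measure E) [μ.IsAddHaarMeasure] {m : ℕ}
    (hdim : Module.finrank ℂ E = m + 1) [FiniteDimensional ℂ V] {G : E → V} {U : Set E}
    (hU : IsOpen U) (hB : closedBall (0 : E) 1 ⊆ U) (hG : ContDiffOn ℝ 1 G U) (a : E) :
    ∫ ξ in ball (0 : E) 1, WW τ ξ • ⟪a, ξ⟫_ℂ • (((m + (τ + 6) : ℕ) : ℂ) • G ξ + D10 G ξ ξ) ∂μ =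
      ∫ ξ in ball (0 : E) 1, WW τ ξ • D01 G ξ a ∂μ := by
  have hcompl : CompleteSpace V := FiniteDimensional.complete ℂ V
  have cG : ContinuousOn G (closedBall 0 1) := hG.continuousOn.mono hB
  have cfG : ContinuousOn (fderiv ℝ G) (closedBall 0 1) :=
    (hG.continuousOn_fderiv_of_isOpen hU le_rfl).mono hB
  have cid : ContinuousOn (fun ξ : E => ξ) (closedBall 0 1) := continuousOn_id
  have cD : ContinuousOn (fun ξ => D10 G ξ ξ) (closedBall 0 1) := by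
    unfold D10
    exact ((cfG.clm_apply cid).sub
      ((cfG.clm_apply (cid.const_smul Complex.I)).const_smul Complex.I)).const_smul (2⁻¹ : ℂ)
  have cW : ContinuousOn (fun ξ : E => WW τ ξ) (closedBall 0 1) := by
    unfold WW
    exact Continuous.continuousOn (by fun_prop)
  have ca : ContinuousOn (fun ξ : E => ⟪a, ξ⟫_ℂ) (closedBall 0 1) :=
    Continuous.continuousOn (by fun_prop)
  have c3 : ContinuousOn (fun ξ : E => ((((m : ℝ) + 2) * WW τ ξ -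
      ((τ : ℝ) + 4) * ‖ξ‖ ^ 2 * (1 - ‖ξ‖ ^ 2) ^ (τ + 3) : ℝ) : ℂ)) (closedBall 0 1) := by
    unfold WW
    exact Continuous.continuousOn (by fun_prop)
  have i1 : IntegrableOn (fun ξ => WW τ ξ • ⟪a, ξ⟫_ℂ • ((m + (τ + 6) : ℕ) : ℂ) • G ξ) (ball 0 1) μ :=
    kop_int μ (cW.smul (ca.smul (cG.const_smul _)))
  have i2 : IntegrableOn (fun ξ => WW τ ξ • ⟪a, ξ⟫_ℂ • D10 G ξ ξ) (ball 0 1) μ :=
    kop_int μ (cW.smul (ca.smul cD))
  have i3 : IntegrableOn (fun ξ => ((((m : ℝ) + 2) * WW τ ξ -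
      ((τ : ℝ) + 4) * ‖ξ‖ ^ 2 * (1 - ‖ξ‖ ^ 2) ^ (τ + 3) : ℝ) : ℂ) • ⟪a, ξ⟫_ℂ • G ξ) (ball 0 1) μ :=
    kop_int μ (c3.smul (ca.smul cG))
  calc ∫ ξ in ball (0 : E) 1, WW τ ξ • ⟪a, ξ⟫_ℂ • (((m + (τ + 6) : ℕ) : ℂ) • G ξ + D10 G ξ ξ) ∂μ
      = ∫ ξ in ball (0 : E) 1, (WW τ ξ • ⟪a, ξ⟫_ℂ • ((m + (τ + 6) : ℕ) : ℂ) • G ξ +
          WW τ ξ • ⟪a, ξ⟫_ℂ • D10 G ξ ξ) ∂μ := by
        simp only [smul_add]
    _ = ∫ ξ in ball (0 : E) 1, WW τ ξ • ⟪a, ξ⟫_ℂ • ((m + (τ + 6) : ℕ) : ℂ) • G ξ ∂μ -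
          ∫ ξ in ball (0 : E) 1, ((((m : ℝ) + 2) * WW τ ξ -
            ((τ : ℝ) + 4) * ‖ξ‖ ^ 2 * (1 - ‖ξ‖ ^ 2) ^ (τ + 3) : ℝ) : ℂ) • ⟪a, ξ⟫_ℂ • G ξ ∂μ := by
        rw [integral_add i1 i2, (ibp_euler (τ := τ)) μ hdim hU hB hG a, sub_eq_add_neg]
    _ = ∫ ξ in ball (0 : E) 1, ((((τ : ℝ) + 4) * (1 - ‖ξ‖ ^ 2) ^ (τ + 3) : ℝ) : ℂ) • ⟪a, ξ⟫_ℂ • G ξ ∂μ := by
        rw [← integral_sub i1 i3]
        congr 1
        funext ξ
        rw [← Complex.coe_smul]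
        simp only [smul_smul, ← sub_smul]
        congr 1
        simp only [WW]
        push_cast
        ring
    _ = _ := ((ibp_bar (τ := τ)) μ hU hB hG a).symm

theorem kop_fix (μ : Measure E) [μ.IsAddHaarMeasure] {m : ℕ}
    (hdim : Module.finrank ℂ E = m + 1) [FiniteDimensional ℂ V] {q : ℕ}
    {η : E → E [⋀^Fin (q + 1)]→L[ℝ] V} {U : Set E} (hU : IsOpen U)
    (hB : closedBall (0 : E) 1 ⊆ U) (hη : ContDiffOn ℝ 1 η U) (ha : ∀ w ∈ U, Anti (η w))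
    (hd : ∀ w ∈ U, db η w = 0) {r : ℝ} (hr : r ∈ Icc (0 : ℝ) 1) (v : Fin (q + 1) → E) :
    ∫ ξ in ball (0 : E) 1, ∑ i : Fin (q + 1), (-1) ^ (i : ℕ) •
        kopF τ m η (v i) (r, ξ) (i.removeNth v) ∂μ =
      ((1 - r ^ 2) ^ q : ℝ) • ((1 - r ^ 2 : ℝ) •
        ∫ ξ in ball (0 : E) 1, WW τ ξ • D01 (fun w => η w v) ((r : ℂ) • ξ) ξ ∂μ -
        (((q : ℝ) + 1) * r) • ∫ ξ in ball (0 : E) 1, WW τ ξ • η ((r : ℂ) • ξ) v ∂μ) := by
  have hUr : IsOpen (kopS E r ⁻¹' U) := hU.preimage (kopS E r).continuous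
  have hBr : closedBall (0 : E) 1 ⊆ kopS E r ⁻¹' U := fun ξ hξ => hB (kop_smul_mem hr hξ)
  set G : Fin (q + 1) → E → V := fun i ξ => η ((r : ℂ) • ξ) (Matrix.vecCons ξ (i.removeNth v))
    with hGdef
  have hG : ∀ i, ContDiffOn ℝ 1 (G i) (kopS E r ⁻¹' U) := fun i => kop_G_c1 hη r _
  -- continuity
  have cG : ∀ i, ContinuousOn (G i) (closedBall 0 1) := fun i => (hG i).continuousOn.mono hBr
  have cfG : ∀ i, ContinuousOn (fderiv ℝ (G i)) (closedBall 0 1) :=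
    fun i => ((hG i).continuousOn_fderiv_of_isOpen hUr le_rfl).mono hBr
  have cid : ContinuousOn (fun ξ : E => ξ) (closedBall 0 1) := continuousOn_id
  have cD : ∀ i, ContinuousOn (fun ξ => D10 (G i) ξ ξ) (closedBall 0 1) := by
    intro i
    unfold D10
    exact (((cfG i).clm_apply cid).sub
      (((cfG i).clm_apply (cid.const_smul Complex.I)).const_smul Complex.I)).const_smul (2⁻¹ : ℂ)
  have cD' : ∀ i, ContinuousOn (fun ξ => D01 (G i) ξ (v i)) (closedBall 0 1) := by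
    intro i
    simp only [D01_apply]
    exact (((cfG i).clm_apply continuousOn_const).add
      (((cfG i).clm_apply continuousOn_const).const_smul Complex.I)).const_smul (2⁻¹ : ℂ)
  have cW : ContinuousOn (fun ξ : E => WW τ ξ) (closedBall 0 1) := by
    unfold WW
    exact Continuous.continuousOn (by fun_prop)
  have ca : ∀ a : E, ContinuousOn (fun ξ : E => ⟪a, ξ⟫_ℂ) (closedBall 0 1) := fun a =>
    Continuous.continuousOn (by fun_prop)
  have cs : ContinuousOn (fun ξ : E => (r : ℂ) • ξ) (closedBall 0 1) :=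
    Continuous.continuousOn (by fun_prop)
  have cη : ContinuousOn (fun ξ => η ((r : ℂ) • ξ) v) (closedBall 0 1) :=
    (kop_eval_c1 hη v).continuousOn.comp cs hBr
  have cT : ContinuousOn (fun ξ => d1 η ((r : ℂ) • ξ) ξ v) (closedBall 0 1) :=
    (ContinuousAlternatingMap.apply ℝ E V v).continuous.comp_continuousOn
      (((kop_d1_cont hU hη).comp cs hBr).clm_apply cid)
  -- the pointwise formula
  have hpt : ∀ ξ ∈ ball (0 : E) 1, ∑ i : Fin (q + 1), (-1) ^ (i : ℕ) •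
        kopF τ m η (v i) (r, ξ) (i.removeNth v) =
      ((1 - r ^ 2) ^ q : ℝ) • (WW τ ξ • d1 η ((r : ℂ) • ξ) ξ v - r • ∑ i : Fin (q + 1),
        (-1) ^ (i : ℕ) • (WW τ ξ • ⟪v i, ξ⟫_ℂ • (((m + (τ + 6) : ℕ) : ℂ) • G i ξ + D10 (G i) ξ ξ))) := by
    intro ξ hξ
    have hm : (r : ℂ) • ξ ∈ U := hBr (ball_subset_closedBall hξ)
    have h1 : ∀ i : Fin (q + 1), kopF τ m η (v i) (r, ξ) (i.removeNth v) =
        ((1 - r ^ 2) ^ q : ℝ) • (WW τ ξ • d1 η ((r : ℂ) • ξ) (v i)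
          (Matrix.vecCons ξ (i.removeNth v)) - r • (WW τ ξ • ⟪v i, ξ⟫_ℂ •
            (((m + (τ + 6) : ℕ) : ℂ) • G i ξ + D10 (G i) ξ ξ))) := by
      intro i
      rw [hGdef]
      simp only
      rw [kop_D10 hU hη ha hm]
      simp only [kopF, ContinuousAlternatingMap.smul_apply, ContinuousAlternatingMap.sub_apply,
        ContinuousAlternatingMap.add_apply, ContinuousAlternatingMap.curryLeft_apply_apply]
      rw [mul_smul, smul_sub]
      congr 2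
      rw [← Complex.coe_smul r, ← Complex.coe_smul (WW τ ξ), ← Complex.coe_smul]
      simp only [smul_smul]
      congr 1
      simp only [WW]
      push_cast
      ring
    simp only [h1]
    rw [← kop_closed (hd _ hm) ξ v]
    simp only [smul_sub, Finset.smul_sum, Finset.sum_sub_distrib, smul_comm ((-1 : ℤ) ^ _)]
  have hz : ∀ (i : ℕ) (x : V), ((-1 : ℤ) ^ i) • x = ((-1 : ℝ) ^ i) • x := by
    intro i x
    rw [← Int.cast_smul_eq_zsmul ℝ]
    push_cast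
    rfl
  have hT : ∀ ξ ∈ ball (0 : E) 1, D01 (fun w => η w v) ((r : ℂ) • ξ) ξ =
      d1 η ((r : ℂ) • ξ) ξ v := by
    intro ξ hξ
    exact kop_D01_eval ((hη.contDiffAt (hU.mem_nhds
      (hBr (ball_subset_closedBall hξ)))).differentiableAt one_ne_zero) v ξ
  have iT : IntegrableOn (fun ξ => WW τ ξ • d1 η ((r : ℂ) • ξ) ξ v) (ball 0 1) μ :=
    kop_int μ (cW.smul cT)
  have iη : IntegrableOn (fun ξ => WW τ ξ • η ((r : ℂ) • ξ) v) (ball 0 1) μ :=
    kop_int μ (cW.smul cη)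
  have iP : ∀ i : Fin (q + 1), IntegrableOn (fun ξ => (-1 : ℝ) ^ (i : ℕ) • (WW τ ξ • ⟪v i, ξ⟫_ℂ •
      (((m + (τ + 6) : ℕ) : ℂ) • G i ξ + D10 (G i) ξ ξ))) (ball 0 1) μ := fun i =>
    kop_int μ ((cW.smul ((ca (v i)).smul (((cG i).const_smul _).add (cD i)))).const_smul _)
  have iQ : ∀ i : Fin (q + 1), IntegrableOn (fun ξ => (-1 : ℝ) ^ (i : ℕ) • (WW τ ξ • D01 (G i) ξ (v i)))
      (ball 0 1) μ := fun i => kop_int μ ((cW.smul (cD' i)).const_smul _)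
  -- the sum of the boundary terms
  have hsum : ∑ i : Fin (q + 1), (-1 : ℝ) ^ (i : ℕ) • ∫ ξ in ball (0 : E) 1, WW τ ξ • ⟪v i, ξ⟫_ℂ •
        (((m + (τ + 6) : ℕ) : ℂ) • G i ξ + D10 (G i) ξ ξ) ∂μ =
      r • ∫ ξ in ball (0 : E) 1, WW τ ξ • d1 η ((r : ℂ) • ξ) ξ v ∂μ +
        ((q : ℝ) + 1) • ∫ ξ in ball (0 : E) 1, WW τ ξ • η ((r : ℂ) • ξ) v ∂μ := by
    calc ∑ i : Fin (q + 1), (-1 : ℝ) ^ (i : ℕ) • ∫ ξ in ball (0 : E) 1, WW τ ξ • ⟪v i, ξ⟫_ℂ •
        (((m + (τ + 6) : ℕ) : ℂ) • G i ξ + D10 (G i) ξ ξ) ∂μ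
        = ∑ i : Fin (q + 1), ∫ ξ in ball (0 : E) 1,
            (-1 : ℝ) ^ (i : ℕ) • (WW τ ξ • D01 (G i) ξ (v i)) ∂μ := by
          refine Finset.sum_congr rfl fun i _ => ?_
          rw [(kop_parts (τ := τ)) μ hdim hUr hBr (hG i) (v i), integral_smul]
      _ = ∫ ξ in ball (0 : E) 1, ∑ i : Fin (q + 1),
            (-1 : ℝ) ^ (i : ℕ) • (WW τ ξ • D01 (G i) ξ (v i)) ∂μ := by
          rw [integral_finsetSum]
          exact fun i _ => iQ i
      _ = ∫ ξ in ball (0 : E) 1, (r • (WW τ ξ • d1 η ((r : ℂ) • ξ) ξ v) +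
            ((q : ℝ) + 1) • (WW τ ξ • η ((r : ℂ) • ξ) v)) ∂μ := by
          refine setIntegral_congr_fun measurableSet_ball fun ξ hξ => ?_
          have hm : (r : ℂ) • ξ ∈ U := hBr (ball_subset_closedBall hξ)
          have h1 : ∀ i : Fin (q + 1), (-1 : ℝ) ^ (i : ℕ) • (WW τ ξ • D01 (G i) ξ (v i)) =
              WW τ ξ • η ((r : ℂ) • ξ) v + r • (WW τ ξ • ((-1 : ℤ) ^ (i : ℕ) •
                d1 η ((r : ℂ) • ξ) (v i) (Matrix.vecCons ξ (i.removeNth v)))) := by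
            intro i
            rw [hGdef]
            simp only
            rw [kop_D01 hU hη ha hm, ← kop_insert (η ((r : ℂ) • ξ)) v i, hz, hz]
            module
          simp only [h1]
          rw [Finset.sum_add_distrib, Finset.sum_const, Finset.card_univ, Fintype.card_fin,
            ← Finset.smul_sum, ← Finset.smul_sum, kop_closed (hd _ hm) ξ v, add_comm,
            ← Nat.cast_smul_eq_nsmul ℝ]
          push_cast
          rfl
      _ = _ := by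
          rw [integral_add (f := fun ξ => r • (WW τ ξ • d1 η ((r : ℂ) • ξ) ξ v))
            (g := fun ξ => ((q : ℝ) + 1) • (WW τ ξ • η ((r : ℂ) • ξ) v))
            (iT.smul r) (iη.smul ((q : ℝ) + 1)), integral_smul, integral_smul]
  rw [setIntegral_congr_fun measurableSet_ball hpt]
  simp only [hz]
  rw [integral_smul, integral_sub iT, integral_smul, integral_finsetSum]
  · simp only [integral_smul]
    have hTi : ∫ ξ in ball (0 : E) 1, WW τ ξ • D01 (fun w => η w v) ((r : ℂ) • ξ) ξ ∂μ =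
        ∫ ξ in ball (0 : E) 1, WW τ ξ • d1 η ((r : ℂ) • ξ) ξ v ∂μ :=
      setIntegral_congr_fun measurableSet_ball fun ξ hξ => by simp only [hT ξ hξ]
    rw [hsum, hTi]
    module
  · exact fun i _ => iP i
  · exact (integrable_finsetSum _ fun i _ => iP i).smul r

theorem kop_zero (μ : Measure E) [μ.IsAddHaarMeasure] {m : ℕ}
    (hdim : Module.finrank ℂ E = m + 1) [FiniteDimensional ℂ V] {q : ℕ}
    {η : E → E [⋀^Fin (q + 1)]→L[ℝ] V} {U : Set E} (hU : IsOpen U)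
    (hB : closedBall (0 : E) 1 ⊆ U) (hη : ContDiffOn ℝ 1 η U) (ha : ∀ w ∈ U, Anti (η w))
    (hd : ∀ w ∈ U, db η w = 0) : db (TT τ μ m η) 0 = η 0 := by
  have hcompl : CompleteSpace V := FiniteDimensional.complete ℂ V
  have hprop : ProperSpace E := FiniteDimensional.proper ℂ E
  ext v
  have hc := k4_cW_pos τ μ
  set A : ℝ → V := fun r => ∫ ξ in ball (0 : E) 1, WW τ ξ • D01 (fun w => η w v) ((r : ℂ) • ξ) ξ ∂μ
    with hA
  set H : ℝ → V := fun r => ∫ ξ in ball (0 : E) 1, WW τ ξ • η ((r : ℂ) • ξ) v ∂μ with hH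
  set X : ℝ → V := fun r => ((1 - r ^ 2) ^ q : ℝ) • ((1 - r ^ 2 : ℝ) • A r -
    (((q : ℝ) + 1) * r) • H r) with hX
  set I : ℝ × E → V := fun p => ∑ i : Fin (q + 1), (-1) ^ (i : ℕ) •
    kopF τ m η (v i) p (i.removeNth v) with hI
  have hz : ∀ (i : ℕ) (x : V), ((-1 : ℤ) ^ i) • x = ((-1 : ℝ) ^ i) • x := by
    intro i x
    rw [← Int.cast_smul_eq_zsmul ℝ]
    push_cast
    rfl
  have hFi : ∀ i : Fin (q + 1), IntegrableOn (kopF τ m η (v i)) (Icc (0 : ℝ) 1 ×ˢ ball (0 : E) 1)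
      (volume.prod μ) := fun i => kop_int2 μ ((kopF_cont (τ := τ)) m hU hB hη (v i))
  have hFe : ∀ i : Fin (q + 1), IntegrableOn (fun p => (-1) ^ (i : ℕ) •
      kopF τ m η (v i) p (i.removeNth v)) (Icc (0 : ℝ) 1 ×ˢ ball (0 : E) 1) (volume.prod μ) := by
    intro i
    simp only [hz]
    exact ((ContinuousAlternatingMap.apply ℝ E V (i.removeNth v)).integrable_comp (hFi i)).smul
      ((-1 : ℝ) ^ (i : ℕ))
  have hIint : IntegrableOn I (Icc (0 : ℝ) 1 ×ˢ ball (0 : E) 1) (volume.prod μ) := by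
    rw [hI]
    exact integrable_finsetSum _ fun i _ => hFe i
  -- step 1
  have h1 : db (TT τ μ m η) 0 v = (-(2 / cW τ μ) : ℝ) •
      ∫ p in Icc (0 : ℝ) 1 ×ˢ ball (0 : E) 1, I p ∂(volume.prod μ) := by
    rw [db, ContinuousAlternatingMap.alternatizeUncurryFin_apply, hI]
    rw [integral_finsetSum _ fun i _ => hFe i, Finset.smul_sum]
    refine Finset.sum_congr rfl fun i _ => ?_
    have e1 : d1 (TT τ μ m η) 0 (v i) = (-(2 / cW τ μ) : ℝ) •
        ∫ p in Icc (0 : ℝ) 1 ×ˢ ball (0 : E) 1, kopF τ m η (v i) p ∂(volume.prod μ) :=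
      (d1_TT_zero (τ := τ)) μ m hU hB hη ha (v i)
    have e2 : (∫ p in Icc (0 : ℝ) 1 ×ˢ ball (0 : E) 1, kopF τ m η (v i) p ∂(volume.prod μ))
        (i.removeNth v) = ∫ p in Icc (0 : ℝ) 1 ×ˢ ball (0 : E) 1,
          kopF τ m η (v i) p (i.removeNth v) ∂(volume.prod μ) :=
      ((ContinuousAlternatingMap.apply ℝ E V (i.removeNth v)).integral_comp_comm (hFi i)).symm
    rw [e1, ContinuousAlternatingMap.smul_apply, e2]
    simp only [hz]
    rw [integral_smul, smul_comm]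
  -- step 2
  have hfix : ∀ r ∈ Icc (0 : ℝ) 1, ∫ ξ in ball (0 : E) 1, I (r, ξ) ∂μ = X r := fun r hr =>
    (kop_fix (τ := τ)) μ hdim hU hB hη ha hd hr v
  have h2 : ∫ p in Icc (0 : ℝ) 1 ×ˢ ball (0 : E) 1, I p ∂(volume.prod μ) =
      ∫ r in (0 : ℝ)..1, X r := by
    rw [setIntegral_prod _ hIint, setIntegral_congr_fun measurableSet_Icc hfix,
      intervalIntegral.integral_of_le zero_le_one, integral_Icc_eq_integral_Ioc]
  have hXint : IntervalIntegrable X volume 0 1 := by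
    rw [intervalIntegrable_iff_integrableOn_Icc_of_le zero_le_one]
    have e1 : Integrable I ((volume.restrict (Icc (0 : ℝ) 1)).prod (μ.restrict (ball 0 1))) := by
      rw [Measure.prod_restrict]
      exact hIint
    refine (e1.integral_prod_left).congr ?_
    exact (ae_restrict_iff' measurableSet_Icc).2 (Eventually.of_forall hfix)
  -- step 3
  have hHd : ∀ r ∈ Icc (0 : ℝ) 1, HasDerivAt H ((2 : ℂ) • A r) r := fun r hr =>
    (scale_mean (τ := τ)) μ hU hB (kop_eval_c1 hη v) hr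
  have hΦ : ∀ r ∈ uIcc (0 : ℝ) 1, HasDerivAt (fun r : ℝ => ((1 - r ^ 2) ^ (q + 1) : ℝ) • H r)
      ((2 : ℝ) • X r) r := by
    intro r hr
    rw [uIcc_of_le zero_le_one] at hr
    have e1 : HasDerivAt (fun r : ℝ => ((1 - r ^ 2) ^ (q + 1) : ℝ))
        (((q + 1 : ℕ) : ℝ) * (1 - r ^ 2) ^ q * (-(2 * r))) r := by
      have e0 : HasDerivAt (fun r : ℝ => (1 - r ^ 2 : ℝ)) (-(2 * r)) r := by
        have := (hasDerivAt_pow 2 r).const_sub 1
        simpa using this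
      simpa using e0.fun_pow (q + 1)
    refine (e1.smul (hHd r hr)).congr_deriv ?_
    rw [hX]
    simp only
    push_cast
    module
  have h3 : ∫ r in (0 : ℝ)..1, (2 : ℝ) • X r = -H 0 := by
    rw [intervalIntegral.integral_eq_sub_of_hasDerivAt hΦ (hXint.smul (2 : ℝ))]
    simp
  have h4 : H 0 = cW τ μ • η 0 v := by
    rw [hH]
    simp only [Complex.ofReal_zero, zero_smul]
    rw [integral_smul_const]
    rfl
  rw [intervalIntegral.integral_smul, h4] at h3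
  rw [h1, h2]
  have h5 : ∫ r in (0 : ℝ)..1, X r = (2⁻¹ : ℝ) • -(cW τ μ • η 0 v) := by
    rw [← h3, smul_smul]
    norm_num
  rw [h5, smul_neg, smul_neg, neg_smul, neg_neg, smul_smul, smul_smul]
  have h6 : 2 / cW τ μ * (2⁻¹ * cW τ μ) = 1 := by
    field_simp
  rw [show (2 / cW τ μ * 2⁻¹ * cW τ μ : ℝ) = 1 by rw [mul_assoc]; exact h6, one_smul]

end Pool.Agent.MPca0fc2.TW

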