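import Mathlib
import Pool.Agent.Lib.MP_ca0fc2_an.Mg.G059
import Pool.Agent.Lib.MP_ca0fc2_an.PTGrad
import Pool.Agent.Lib.MP_ca0fc2_an.Mg.G130

set_option autoImplicit false

open Metric Set MeasureTheory Filter Topology
open scoped InnerProductSpace ENNReal

namespace Pool.Agent.MPca0fc2.CG

open Pool.Agent.Lib.MP_ca0fc2_an
open Pool.Agent.MPca0fc2.PT

variable {E : Type*} [NormedAddCommGroup E] [InnerProductSpace ℂ E]

theorem invKer_eq (w z : E) : invKer w z = HH w z := rfl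

theorem invGrad2_eq (u : E → ℂ) (z : E) : invGrad2 u z = IG2 u z := rfl

/-- the automorphism in the coordinates centered at `w` and `φ w` -/
noncomputable def VV (φ : E → E) (w : E) (x : E) : E := gg (-(φ w)) (φ (gg w x))

theorem VV_zero {φ ψ : E → E} (hφ : IsBallAut φ ψ) {w : E} (hw : ‖w‖ < 1) : VV φ w 0 = 0 := by
  unfold VV
  rw [gg_zero]
  have h1 : ‖φ w‖ < 1 := by
    have := hφ.map w (mem_ball_zero_iff.mpr hw)
    rwa [mem_ball_zero_iff] at this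
  have := gg_neg_gg h1 (x := 0) (by simp)
  rwa [gg_zero] at this

theorem nrm_map {φ ψ : E → E} (hφ : IsBallAut φ ψ) {w : E} (hw : ‖w‖ < 1) : ‖φ w‖ < 1 := by
  have := hφ.map w (mem_ball_zero_iff.mpr hw)
  rwa [mem_ball_zero_iff] at this

theorem gg_holo {z : E} (hz : ‖z‖ < 1) : DifferentiableOn ℂ (gg z) (ball 0 1) := by
  intro x hx
  rw [mem_ball_zero_iff] at hx
  exact (hasFDerivAt_gg hz hx.le).differentiableAt.differentiableWithinAt

theorem gg_maps {z : E} (hz : ‖z‖ < 1) {x : E} (hx : x ∈ ball (0 : E) 1) : gg z x ∈ ball (0 : E) 1 := by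
  rw [mem_ball_zero_iff] at *
  exact gg_lt hz hx

theorem gg_gg_neg {z x : E} (hz : ‖z‖ < 1) (hx : ‖x‖ ≤ 1) : gg z (gg (-z) x) = x := by
  have hz' : ‖-z‖ < 1 := by rwa [norm_neg]
  have := gg_neg_gg hz' hx
  rwa [neg_neg] at this

theorem VV_holo {φ ψ : E → E} (hφ : IsBallAut φ ψ) {w : E} (hw : ‖w‖ < 1) :
    DifferentiableOn ℂ (VV φ w) (ball 0 1) := by
  have h1 : ‖-(φ w)‖ < 1 := by rw [norm_neg]; exact nrm_map hφ hw
  exact (gg_holo h1).comp (hφ.hol.comp (gg_holo hw) fun x hx => gg_maps hw hx)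
    fun x hx => hφ.map _ (gg_maps hw hx)

theorem VV_maps {φ ψ : E → E} (hφ : IsBallAut φ ψ) {w : E} (hw : ‖w‖ < 1) {x : E}
    (hx : x ∈ ball (0 : E) 1) : VV φ w x ∈ ball (0 : E) 1 := by
  have h1 : ‖-(φ w)‖ < 1 := by rw [norm_neg]; exact nrm_map hφ hw
  exact gg_maps h1 (hφ.map _ (gg_maps hw hx))

theorem VV_norm {φ ψ : E → E} (hφ : IsBallAut φ ψ) {w : E} (hw : ‖w‖ < 1) {x : E}
    (hx : ‖x‖ < 1) : ‖VV φ w x‖ = ‖x‖ := by
  have hφw := nrm_map hφ hw
  have h1 : ‖-(φ w)‖ < 1 := by rwa [norm_neg]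
  have hw' : ‖-w‖ < 1 := by rwa [norm_neg]
  have hx' : x ∈ ball (0 : E) 1 := mem_ball_zero_iff.mpr hx
  have h2 := aut_isometry (V := VV φ w) (W := fun y => gg (-w) (ψ (gg (φ w) y)))
    (VV_holo hφ hw)
    ((gg_holo hw').comp (hφ.hol'.comp (gg_holo hφw) fun x hx => gg_maps hφw hx)
      fun x hx => hφ.map' _ (gg_maps hφw hx))
    (fun z hz => VV_maps hφ hw hz)
    (fun z hz => gg_maps hw' (hφ.map' _ (gg_maps hφw hz)))
    (fun z hz => by
      have hz1 : ‖z‖ < 1 := by rwa [mem_ball_zero_iff] at hz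
      have h3 : φ (gg w z) ∈ ball (0 : E) 1 := hφ.map _ (gg_maps hw hz)
      rw [mem_ball_zero_iff] at h3
      simp only [VV]
      rw [gg_gg_neg hφw h3.le, hφ.left _ (gg_maps hw hz), gg_neg_gg hw hz1.le])
    (VV_zero hφ hw) hx' (mem_ball_self one_pos)
  rwa [VV_zero hφ hw, sub_zero, sub_zero] at h2

/-- The kernel is invariant. -/
theorem HH_aut {φ ψ : E → E} (hφ : IsBallAut φ ψ) {w z : E} (hw : ‖w‖ < 1) (hz : ‖z‖ < 1) :
    HH (φ w) (φ z) = HH w z := by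
  have hφw := nrm_map hφ hw
  have hw' : ‖-w‖ < 1 := by rwa [norm_neg]
  obtain ⟨x, hx⟩ : ∃ x, x = gg (-w) z := ⟨_, rfl⟩
  have hx1 : ‖x‖ < 1 := by rw [hx]; exact gg_lt hw' hz
  have hzx : z = gg w x := by rw [hx, gg_gg_neg hw hz.le]
  have h3 : φ (gg w x) ∈ ball (0 : E) 1 := hφ.map _ (gg_maps hw (mem_ball_zero_iff.mpr hx1))
  rw [mem_ball_zero_iff] at h3
  have h1 : φ z = gg (φ w) (VV φ w x) := by
    rw [VV, gg_gg_neg hφw h3.le, ← hzx]
  have h2 : φ w = gg (φ w) 0 := by rw [gg_zero]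
  have hV : ‖VV φ w x‖ < 1 := by rw [VV_norm hφ hw hx1]; exact hx1
  calc HH (φ w) (φ z) = HH (gg (φ w) 0) (gg (φ w) (VV φ w x)) := by rw [← h1, ← h2]
    _ = HH 0 (VV φ w x) := HH_gg hφw (by simp) hV
    _ = HH 0 x := by rw [HH_comm, geo_HH_zero, HH_comm, geo_HH_zero, VV_norm hφ hw hx1]
    _ = HH (gg w 0) (gg w x) := (HH_gg hw (by simp) hx1).symm
    _ = HH w z := by rw [gg_zero, ← hzx]

variable [FiniteDimensional ℂ E]

/-- the invariant gradient is the gradient at the origin after moving the point there -/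
theorem IG_rep {u : E → ℂ} {w : E} (hw : ‖w‖ < 1) :
    ∃ b : E, (∀ v, fderiv ℂ u w (gg' w 0 v) = ⟪b, v⟫_ℂ) ∧ ‖b‖ ^ 2 = IG2 u w := by
  have hcomp : CompleteSpace E := FiniteDimensional.complete ℂ E
  set L := fderiv ℂ u w with hL
  set a : E := (InnerProductSpace.toDual ℂ E).symm L with ha
  have hLa : ∀ x, L x = ⟪a, x⟫_ℂ := by
    intro x
    rw [ha, InnerProductSpace.toDual_symm_apply]
  have hLn : ‖L‖ = ‖a‖ := by rw [ha, LinearIsometryEquiv.norm_map]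
  set s := ss w with hs
  have hs2 : s ^ 2 = 1 - ‖w‖ ^ 2 := by
    rw [hs, ss, Real.sq_sqrt]
    nlinarith [norm_nonneg w]
  have hs0 : 0 ≤ s := Real.sqrt_nonneg _
  set b : E := ((s : ℝ) : ℂ) • a - (((s / (1 + s) : ℝ) : ℂ) * ⟪w, a⟫_ℂ) • w with hb
  have h1s : (1 + (s : ℂ)) ≠ 0 := by
    have : (1 + s) ≠ 0 := by positivity
    exact_mod_cast this
  have hgv : ∀ v, L (gg' w 0 v) = ⟪b, v⟫_ℂ := by
    intro v
    rw [hLa, gg', AA, gg_zero]
    simp only [inner_zero_right, add_zero, inv_one, one_smul, sub_apply,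
      add_apply, smul_apply,
      ContinuousLinearMap.smulRight_apply, innerSL_apply_apply, ContinuousLinearMap.id_apply]
    rw [hb]
    simp only [inner_sub_right, inner_add_right, inner_smul_right, inner_sub_left, inner_smul_left,
      map_mul, Complex.conj_ofReal, inner_conj_symm, ← hs]
    push_cast
    field_simp
    ring
  have hbn : ‖b‖ ^ 2 = IG2 u w := by
    rw [IG2, ← hL, hLn, hLa w]
    have h2 : ((‖b‖ ^ 2 : ℝ) : ℂ) = ⟪b, b⟫_ℂ := by
      rw [inner_self_eq_norm_sq_to_K]; norm_cast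
    have h3 : ((‖a‖ ^ 2 : ℝ) : ℂ) = ⟪a, a⟫_ℂ := by
      rw [inner_self_eq_norm_sq_to_K]; norm_cast
    have h4 : ((‖w‖ ^ 2 : ℝ) : ℂ) = ⟪w, w⟫_ℂ := by
      rw [inner_self_eq_norm_sq_to_K]; norm_cast
    have h5 : ((‖⟪a, w⟫_ℂ‖ ^ 2 : ℝ) : ℂ) = ⟪a, w⟫_ℂ * ⟪w, a⟫_ℂ := by
      rw [← Complex.normSq_eq_norm_sq, ← Complex.mul_conj, inner_conj_symm]
    have h6 : ((s : ℂ)) ^ 2 = 1 - ⟪w, w⟫_ℂ := by
      rw [← h4, ← Complex.ofReal_pow, hs2]; push_cast; ring
    apply Complex.ofReal_injective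
    rw [h2]
    push_cast
    have h3' : ((‖a‖ : ℂ)) ^ 2 = ⟪a, a⟫_ℂ := by rw [← h3]; push_cast; ring
    have h4' : ((‖w‖ : ℂ)) ^ 2 = ⟪w, w⟫_ℂ := by rw [← h4]; push_cast; ring
    have h5' : ((‖⟪a, w⟫_ℂ‖ : ℂ)) ^ 2 = ⟪a, w⟫_ℂ * ⟪w, a⟫_ℂ := by rw [← h5]; push_cast; ring
    rw [h3', h4', h5', hb]
    simp only [inner_sub_right, inner_smul_right, inner_sub_left, inner_smul_left,
      map_mul, Complex.conj_ofReal, inner_conj_symm]
    push_cast
    have hww : ⟪w, w⟫_ℂ = 1 - (s : ℂ) ^ 2 := by rw [h6]; ring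
    rw [hww]
    field_simp
    ring
  exact ⟨b, hgv, hbn⟩

omit [FiniteDimensional ℂ E] in
/-- derivative at the origin of a self map of the ball fixing the origin -/
theorem VV_deriv {φ ψ : E → E} (hφ : IsBallAut φ ψ) {w : E} (hw : ‖w‖ < 1) (v : E) :
    ‖fderiv ℂ (VV φ w) 0 v‖ ≤ ‖v‖ := by
  obtain ⟨V, hV⟩ : ∃ V, V = VV φ w := ⟨_, rfl⟩
  rw [← hV]
  have hd : DifferentiableAt ℂ V 0 := by
    rw [hV]
    exact (VV_holo hφ hw).differentiableAt (ball_mem_nhds 0 one_pos)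
  have h0 : V 0 = 0 := by rw [hV]; exact VV_zero hφ hw
  rcases eq_or_ne v 0 with hv | hv
  · simp [hv]
  have hv0 : 0 < ‖v‖ := norm_pos_iff.mpr hv
  -- the real curve
  have h1 : HasDerivAt (fun t : ℝ => V ((t : ℂ) • v)) (fderiv ℂ V 0 v) 0 := by
    have h2 : HasFDerivAt V (fderiv ℂ V 0) (((0 : ℝ) : ℂ) • v) := by
      simpa using hd.hasFDerivAt
    have h3 : HasDerivAt (fun t : ℂ => t • v) v ((0 : ℝ) : ℂ) := by
      simpa using ((hasDerivAt_id (((0 : ℝ) : ℂ))).smul_const v)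
    exact (h2.comp_hasDerivAt ((0 : ℝ) : ℂ) h3).scomp_of_eq (0 : ℝ) Complex.ofRealCLM.hasDerivAt rfl |>.congr_deriv (by simp)
  have h4 := h1.tendsto_slope_zero
  refine le_of_tendsto h4.norm ?_
  have h5 : ∀ᶠ t in 𝓝[≠] (0 : ℝ), |t| < 1 / ‖v‖ := by
    apply nhdsWithin_le_nhds
    have : Ioo (-(1 / ‖v‖)) (1 / ‖v‖) ∈ 𝓝 (0 : ℝ) := Ioo_mem_nhds (by
      rw [neg_lt_zero]; positivity) (by positivity)
    filter_upwards [this] with t ht
    rw [abs_lt]; exact ht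
  filter_upwards [h5, self_mem_nhdsWithin] with t ht ht0
  have ht0' : t ≠ 0 := ht0
  have htv : ‖(t : ℂ) • v‖ < 1 := by
    rw [norm_smul, Complex.norm_real, Real.norm_eq_abs]
    rwa [lt_div_iff₀ hv0] at ht
  have h6 : ‖V ((t : ℂ) • v)‖ = ‖(t : ℂ) • v‖ := by rw [hV]; exact VV_norm hφ hw htv
  rw [zero_add, norm_smul, norm_inv, Real.norm_eq_abs]
  simp only [Complex.ofReal_zero, zero_smul, h0, sub_zero]
  rw [h6, norm_smul, Complex.norm_real, Real.norm_eq_abs]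
  have : 0 < |t| := abs_pos.mpr ht0'
  rw [inv_mul_cancel_left₀ this.ne']

/-- The invariant gradient is invariant. -/
theorem IG_aut {u : E → ℂ} (hu : DifferentiableOn ℂ u (ball 0 1)) {φ ψ : E → E}
    (hφ : IsBallAut φ ψ) {z : E} (hz : ‖z‖ < 1) : IG2 (fun x => u (φ x)) z ≤ IG2 u (φ z) := by
  have hφz := nrm_map hφ hz
  obtain ⟨b, hb1, hb2⟩ := IG_rep (u := fun x => u (φ x)) hz
  obtain ⟨b', hb1', hb2'⟩ := IG_rep (u := u) hφz
  have huφ : DifferentiableOn ℂ (fun x => u (φ x)) (ball 0 1) := hu.comp hφ.hol fun x hx => hφ.map x hx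
  have h0 : (0 : E) ∈ ball (0 : E) 1 := mem_ball_self one_pos
  have key : ∀ v, ⟪b, v⟫_ℂ = ⟪b', fderiv ℂ (VV φ z) 0 v⟫_ℂ := by
    intro v
    have h1 := gd_chain huφ hz (x := 0) (by simp) v
    rw [gg_zero, hb1] at h1
    rw [← h1]
    -- the factorization
    have h2 : (fun x => u (φ (gg z x))) =ᶠ[𝓝 0] fun x => (fun y => u (gg (φ z) y)) (VV φ z x) := by
      filter_upwards [ball_mem_nhds (0 : E) one_pos] with x hx
      have h3 : φ (gg z x) ∈ ball (0 : E) 1 := hφ.map _ (gg_maps hz hx)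
      rw [mem_ball_zero_iff] at h3
      simp only [VV]
      rw [gg_gg_neg hφz h3.le]
    rw [h2.fderiv_eq]
    have hd1 : DifferentiableAt ℂ (fun y => u (gg (φ z) y)) (VV φ z 0) := by
      rw [VV_zero hφ hz]
      exact (gd_diff hu hφz).differentiableAt (ball_mem_nhds 0 one_pos)
    have hd2 : DifferentiableAt ℂ (VV φ z) 0 :=
      (VV_holo hφ hz).differentiableAt (ball_mem_nhds 0 one_pos)
    have h4 := fderiv_comp (𝕜 := ℂ) (0 : E) hd1 hd2
    have h5 : (fun x => (fun y => u (gg (φ z) y)) (VV φ z x)) = (fun y => u (gg (φ z) y)) ∘ VV φ z := rfl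
    rw [h5, h4, VV_zero hφ hz, ContinuousLinearMap.comp_apply,
      gd_chain hu hφz (x := 0) (by simp), gg_zero, hb1']
  have h6 : ‖b‖ ^ 2 ≤ ‖b'‖ * ‖b‖ := by
    have h7 : ‖⟪b, b⟫_ℂ‖ = ‖b‖ ^ 2 := by
      rw [inner_self_eq_norm_sq_to_K, norm_pow]
      simp
    rw [← h7, key b]
    refine (norm_inner_le_norm _ _).trans ?_
    gcongr
    exact VV_deriv hφ hz b
  have h8 : ‖b‖ ≤ ‖b'‖ := by
    rcases (norm_nonneg b).eq_or_lt with h | h
    · rw [← h]; exact norm_nonneg _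
    · nlinarith
  rw [← hb2, ← hb2']
  gcongr

variable [MeasurableSpace E] [BorelSpace E]

/-- The class of functions is invariant. -/
theorem CG_comp_aut {u : E → ℂ} (hu : DifferentiableOn ℂ u (ball 0 1)) {p A : ℝ}
    (hp : 0 ≤ p) (h : CarlesonGradient p A u) {φ ψ : E → E} (hφ : IsBallAut φ ψ) :
    CarlesonGradient p A fun z => u (φ z) := by
  obtain ⟨ν, h1, h2⟩ := h
  have hψm : AEMeasurable ψ (ν.restrict (ball 0 1)) :=
    hφ.hol'.continuousOn.aemeasurable measurableSet_ball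
  have hme : ∀ z : E, Measurable fun ξ : E => invKer z ξ := fun z => gd_HH_meas z
  have hres : (Measure.map ψ (ν.restrict (ball 0 1))).restrict (ball 0 1) =
      Measure.map ψ (ν.restrict (ball 0 1)) := by
    apply Measure.restrict_eq_self_of_ae_mem
    rw [ae_map_iff (p := fun x => x ∈ ball (0 : E) 1) hψm measurableSet_ball]
    filter_upwards [ae_restrict_mem measurableSet_ball] with ξ hξ
    exact hφ.map' ξ hξ
  have hker : ∀ z ∈ ball (0 : E) 1, ∀ ξ ∈ ball (0 : E) 1, HH z (ψ ξ) = HH (φ z) ξ := by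
    intro z hz ξ hξ
    have hz' := hz
    have h3 := hφ.map' ξ hξ
    rw [mem_ball_zero_iff] at hz' h3
    rw [← HH_aut hφ hz' h3, hφ.right ξ hξ]
  refine ⟨Measure.map ψ (ν.restrict (ball 0 1)), ?_, ?_⟩
  · intro w hw
    rw [hres, lintegral_map' ((hme w).ennreal_ofReal.aemeasurable) hψm]
    refine le_trans (le_of_eq ?_) (h1 (φ w) (hφ.map w hw))
    apply setLIntegral_congr_fun measurableSet_ball
    intro ξ hξ
    simp only [invKer_eq]
    rw [hker w hw ξ hξ]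
  · intro z hz
    have hz' := hz
    rw [mem_ball_zero_iff] at hz'
    have h3 := h2 (φ z) (hφ.map z hz)
    rw [hres, integral_map hψm (((hme z).pow_const 2).aestronglyMeasurable)]
    have h4 : ∫ ξ in ball (0 : E) 1, invKer z (ψ ξ) ^ 2 ∂ν = ∫ ξ in ball (0 : E) 1, invKer (φ z) ξ ^ 2 ∂ν := by
      apply setIntegral_congr_fun measurableSet_ball
      intro ξ hξ
      simp only [invKer_eq]
      rw [hker z hz ξ hξ]
    rw [h4]
    refine le_trans ?_ h3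
    exact Real.rpow_le_rpow (gd_IG_nonneg hz') (IG_aut hu hφ hz') (by positivity)

end Pool.Agent.MPca0fc2.CG
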