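import Mathlib
import Pool.Agent.Lib.MP_ca0fc2_an.Mg.G009

open Complex MeasureTheory Metric Set
open scoped ComplexConjugate Real Interval

namespace Pool.Agent.MPca0fc2

noncomputable section

section L2
variable {ι : Type*} [Fintype ι] {R d : ℝ} {f : ι → ℂ → ℂ} {y : ℂ → ℂ} {κ v : ι → ℂ → ℂ}

/-- squared norm on the circle -/
def JJ (y : ℂ → ℂ) : ℝ := ∫ θ in (-π)..π, ‖y (ee θ)‖^2

lemma JJ_nonneg (y : ℂ → ℂ) : 0 ≤ JJ y :=
  intervalIntegral.integral_nonneg (by linarith [Real.pi_pos]) (fun _ _ => by positivity)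

lemma int_sum {κ' : Type*} (s : Finset κ') {F : κ' → ℂ → ℝ} (hR : 1 < R)
    (hF : ∀ i ∈ s, ContinuousOn (F i) (ball (0:ℂ) R)) :
    ∫ z in ball (0:ℂ) 1, (∑ i ∈ s, F i z) = ∑ i ∈ s, ∫ z in ball (0:ℂ) 1, F i z :=
  integral_finsetSum s fun i hi => integrableOn_ball hR (hF i hi)

lemma int_mono {F G : ℂ → ℝ} (hR : 1 < R) (hF : ContinuousOn F (ball (0:ℂ) R))
    (hG : ContinuousOn G (ball (0:ℂ) R)) (h : ∀ z ∈ ball (0:ℂ) 1, F z ≤ G z) :
    ∫ z in ball (0:ℂ) 1, F z ≤ ∫ z in ball (0:ℂ) 1, G z :=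
  setIntegral_mono_on (integrableOn_ball hR hF) (integrableOn_ball hR hG) measurableSet_ball h

lemma cont_weight : ContinuousOn (fun z : ℂ => 1 - ‖z‖^2) (ball 0 R) :=
  continuousOn_const.sub (continuousOn_id.norm.pow 2)

lemma int_AA (hR : 1 < R) (hf : ∀ j, DifferentiableOn ℂ (f j) (ball 0 R))
    (hb : ∀ j, ∀ z ∈ ball (0:ℂ) R, ‖f j z‖ ≤ 1) (hy : DifferentiableOn ℂ y (ball 0 R)) :
    ∫ z in ball (0:ℂ) 1, (1 - ‖z‖^2) * AA f y z ≤
      (6 * (Fintype.card ι : ℝ)^2 + 1/2) * JJ y := by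
  have cw := cont_weight (R := R)
  have cy := hy.continuousOn
  have cy' := (differentiableOn_deriv_ball hy).continuousOn
  have cf' := fun j => (differentiableOn_deriv_ball (hf j)).continuousOn
  have hsub : closedBall (0:ℂ) 1 ⊆ ball 0 R := closedBall_subset_ball hR
  have c1 : ∀ i, ContinuousOn (fun z => (1 - ‖z‖^2) * (‖deriv (f i) z‖^2 * ‖y z‖^2)) (ball (0:ℂ) R) :=
    fun i => cw.mul (((cf' i).norm.pow 2).mul (cy.norm.pow 2))
  have c2 : ContinuousOn (fun z => ∑ i, (1 - ‖z‖^2) * (‖deriv (f i) z‖^2 * ‖y z‖^2))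
      (ball (0:ℂ) R) := continuousOn_finsetSum _ fun i _ => c1 i
  have e : ∀ z : ℂ, (1 - ‖z‖^2) * AA f y z = 3 * (Fintype.card ι : ℝ) *
      (∑ i, (1 - ‖z‖^2) * (‖deriv (f i) z‖^2 * ‖y z‖^2)) + (1 - ‖z‖^2) * ‖deriv y z‖^2 := by
    intro z
    unfold AA
    rw [← Finset.mul_sum]
    ring
  simp only [e]
  rw [int_add hR (F := fun z => 3 * (Fintype.card ι : ℝ) *
      (∑ i, (1 - ‖z‖^2) * (‖deriv (f i) z‖^2 * ‖y z‖^2)))
      (G := fun z => (1 - ‖z‖^2) * ‖deriv y z‖^2) (continuousOn_const.mul c2)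
      (cw.mul (cy'.norm.pow 2)), integral_const_mul, int_sum _ hR (fun i _ => c1 i)]
  have h1 : ∑ i, ∫ z in ball (0:ℂ) 1, (1 - ‖z‖^2) * (‖deriv (f i) z‖^2 * ‖y z‖^2) ≤
      ∑ i : ι, 2 * JJ y :=
    Finset.sum_le_sum fun i _ => lp_three hR (hf i) hy (fun z hz => hb i z (hsub hz))
  have h2 := lp_two hR hy
  rw [Finset.sum_const, Finset.card_univ, nsmul_eq_mul] at h1
  have hN : (0:ℝ) ≤ Fintype.card ι := by positivity
  unfold JJ at *
  calc _ ≤ 3 * (Fintype.card ι : ℝ) * ((Fintype.card ι : ℝ) * (2 * ∫ θ in (-π)..π, ‖y (ee θ)‖^2))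
        + (1/2) * ∫ θ in (-π)..π, ‖y (ee θ)‖^2 := by gcongr
    _ = _ := by ring

lemma int_BB (hR : 1 < R) (hf : ∀ j, DifferentiableOn ℂ (f j) (ball 0 R))
    (hb : ∀ j, ∀ z ∈ ball (0:ℂ) R, ‖f j z‖ ≤ 1)
    (hκ : ∀ j, DifferentiableOn ℂ (κ j) (ball 0 R)) :
    ∫ z in ball (0:ℂ) 1, (1 - ‖z‖^2) * BB f κ z ≤
      ((Fintype.card ι : ℝ)^2 + 4 * (Fintype.card ι : ℝ)^4) *
        ∑ l, ∑ j, JJ (KK f κ l j) := by
  have cw := cont_weight (R := R)
  have cf' := fun j => (differentiableOn_deriv_ball (hf j)).continuousOn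
  have hK := fun l j => diff_KK hf hκ l j
  have cK := fun l j => (hK l j).continuousOn
  have cK' := fun l j => (differentiableOn_deriv_ball (hK l j)).continuousOn
  have hsub : closedBall (0:ℂ) 1 ⊆ ball 0 R := closedBall_subset_ball hR
  have c1 : ∀ l j, ContinuousOn (fun z => (1 - ‖z‖^2) * ‖KK f κ l j z‖^2) (ball (0:ℂ) R) :=
    fun l j => cw.mul ((cK l j).norm.pow 2)
  have c2 : ∀ l j, ContinuousOn (fun z => (1 - ‖z‖^2) * ‖deriv (KK f κ l j) z‖^2)
      (ball (0:ℂ) R) := fun l j => cw.mul ((cK' l j).norm.pow 2)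
  have c3 : ∀ i l j, ContinuousOn (fun z => (1 - ‖z‖^2) * (‖deriv (f i) z‖^2 *
      ‖KK f κ l j z‖^2)) (ball (0:ℂ) R) :=
    fun i l j => cw.mul (((cf' i).norm.pow 2).mul ((cK l j).norm.pow 2))
  have c1s : ContinuousOn (fun z => ∑ l, ∑ j, (1 - ‖z‖^2) * ‖KK f κ l j z‖^2) (ball (0:ℂ) R) :=
    continuousOn_finsetSum _ fun l _ => continuousOn_finsetSum _ fun j _ => c1 l j
  have c2s : ContinuousOn (fun z => ∑ l, ∑ j, (1 - ‖z‖^2) * ‖deriv (KK f κ l j) z‖^2)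
      (ball (0:ℂ) R) :=
    continuousOn_finsetSum _ fun l _ => continuousOn_finsetSum _ fun j _ => c2 l j
  have c3s : ContinuousOn (fun z => ∑ i, ∑ l, ∑ j, (1 - ‖z‖^2) * (‖deriv (f i) z‖^2 *
      ‖KK f κ l j z‖^2)) (ball (0:ℂ) R) :=
    continuousOn_finsetSum _ fun i _ => continuousOn_finsetSum _ fun l _ =>
      continuousOn_finsetSum _ fun j _ => c3 i l j
  have e : ∀ z : ℂ, (1 - ‖z‖^2) * BB f κ z =
      ((Fintype.card ι : ℝ)^2 * (∑ l, ∑ j, (1 - ‖z‖^2) * ‖KK f κ l j z‖^2) +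
      (Fintype.card ι : ℝ)^2 * (∑ l, ∑ j, (1 - ‖z‖^2) * ‖deriv (KK f κ l j) z‖^2)) +
      2 * (Fintype.card ι : ℝ)^3 * (∑ i, ∑ l, ∑ j, (1 - ‖z‖^2) * (‖deriv (f i) z‖^2 *
        ‖KK f κ l j z‖^2)) := by
    intro z
    unfold BB
    simp only [← Finset.mul_sum]
    ring
  simp only [e]
  rw [int_add hR (F := fun z => (Fintype.card ι : ℝ)^2 *
        (∑ l, ∑ j, (1 - ‖z‖^2) * ‖KK f κ l j z‖^2) +
      (Fintype.card ι : ℝ)^2 * (∑ l, ∑ j, (1 - ‖z‖^2) * ‖deriv (KK f κ l j) z‖^2))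
      (G := fun z => 2 * (Fintype.card ι : ℝ)^3 * (∑ i, ∑ l, ∑ j, (1 - ‖z‖^2) *
        (‖deriv (f i) z‖^2 * ‖KK f κ l j z‖^2)))
      ((continuousOn_const.mul c1s).add (continuousOn_const.mul c2s)) (continuousOn_const.mul c3s),
    int_add hR (F := fun z => (Fintype.card ι : ℝ)^2 *
        (∑ l, ∑ j, (1 - ‖z‖^2) * ‖KK f κ l j z‖^2))
      (G := fun z => (Fintype.card ι : ℝ)^2 *
        (∑ l, ∑ j, (1 - ‖z‖^2) * ‖deriv (KK f κ l j) z‖^2))
      (continuousOn_const.mul c1s) (continuousOn_const.mul c2s),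
    integral_const_mul, integral_const_mul, integral_const_mul]
  have h1 : ∫ z in ball (0:ℂ) 1, (∑ l, ∑ j, (1 - ‖z‖^2) * ‖KK f κ l j z‖^2) ≤
      (1/2) * ∑ l, ∑ j, JJ (KK f κ l j) := by
    rw [int_sum _ hR (fun l _ => continuousOn_finsetSum _ fun j _ => c1 l j), Finset.mul_sum]
    refine Finset.sum_le_sum fun l _ => ?_
    rw [int_sum _ hR (fun j _ => c1 l j), Finset.mul_sum]
    exact Finset.sum_le_sum fun j _ => lp_one hR (hK l j)
  have h2 : ∫ z in ball (0:ℂ) 1, (∑ l, ∑ j, (1 - ‖z‖^2) * ‖deriv (KK f κ l j) z‖^2) ≤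
      (1/2) * ∑ l, ∑ j, JJ (KK f κ l j) := by
    rw [int_sum _ hR (fun l _ => continuousOn_finsetSum _ fun j _ => c2 l j), Finset.mul_sum]
    refine Finset.sum_le_sum fun l _ => ?_
    rw [int_sum _ hR (fun j _ => c2 l j), Finset.mul_sum]
    exact Finset.sum_le_sum fun j _ => lp_two hR (hK l j)
  have h3 : ∫ z in ball (0:ℂ) 1, (∑ i, ∑ l, ∑ j, (1 - ‖z‖^2) *
        (‖deriv (f i) z‖^2 * ‖KK f κ l j z‖^2)) ≤
      (Fintype.card ι : ℝ) * (2 * ∑ l, ∑ j, JJ (KK f κ l j)) := by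
    rw [int_sum _ hR (fun i _ => continuousOn_finsetSum _ fun l _ =>
      continuousOn_finsetSum _ fun j _ => c3 i l j)]
    have : ∑ i : ι, (2 * ∑ l, ∑ j, JJ (KK f κ l j)) =
      (Fintype.card ι : ℝ) * (2 * ∑ l, ∑ j, JJ (KK f κ l j)) := by
      rw [Finset.sum_const, Finset.card_univ, nsmul_eq_mul]
    rw [← this]
    refine Finset.sum_le_sum fun i _ => ?_
    rw [int_sum _ hR (fun l _ => continuousOn_finsetSum _ fun j _ => c3 i l j), Finset.mul_sum]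
    refine Finset.sum_le_sum fun l _ => ?_
    rw [int_sum _ hR (fun j _ => c3 i l j), Finset.mul_sum]
    exact Finset.sum_le_sum fun j _ => lp_three hR (hf i) (hK l j) (fun z hz => hb i z (hsub hz))
  have hN : (0:ℝ) ≤ Fintype.card ι := by positivity
  calc _ ≤ (Fintype.card ι : ℝ)^2 * ((1/2) * ∑ l, ∑ j, JJ (KK f κ l j)) +
        (Fintype.card ι : ℝ)^2 * ((1/2) * ∑ l, ∑ j, JJ (KK f κ l j)) +
        2 * (Fintype.card ι : ℝ)^3 * ((Fintype.card ι : ℝ) * (2 * ∑ l, ∑ j, JJ (KK f κ l j))) := by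
        gcongr
    _ = _ := by ring

lemma JJ_KK_le (hR : 1 < R) (hf : ∀ j, DifferentiableOn ℂ (f j) (ball 0 R))
    (hb : ∀ j, ∀ z ∈ ball (0:ℂ) R, ‖f j z‖ ≤ 1)
    (hκ : ∀ j, DifferentiableOn ℂ (κ j) (ball 0 R))
    (hv : ∀ j, DifferentiableOn ℂ (v j) (ball 0 R))
    (hrel : ∀ j θ, f j (ee θ) * (starRingEnd ℂ) (y (ee θ)) =
      (starRingEnd ℂ) (v j (ee θ)) + ee θ * κ j (ee θ)) (l j : ι) :
    JJ (KK f κ l j) ≤ 2 * (JJ (v l) + JJ (v j)) := by
  unfold JJ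
  have cK := continuous_circ hR (diff_KK hf hκ l j).continuousOn
  have cvl := continuous_circ hR (hv l).continuousOn
  have cvj := continuous_circ hR (hv j).continuousOn
  rw [← intervalIntegral.integral_add, ← intervalIntegral.integral_const_mul]
  · apply intervalIntegral.integral_mono_on (by linarith [Real.pi_pos])
    · exact (cK.norm.pow 2).intervalIntegrable _ _
    · exact (continuous_const.mul ((cvl.norm.pow 2).add (cvj.norm.pow 2))).intervalIntegrable _ _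
    · intro θ _
      have mem : ee θ ∈ ball (0:ℂ) R := by simp [norm_ee, hR]
      have e1 : ee θ * KK f κ l j (ee θ) = f j (ee θ) * (starRingEnd ℂ) (v l (ee θ)) -
          f l (ee θ) * (starRingEnd ℂ) (v j (ee θ)) := by
        unfold KK
        linear_combination f j (ee θ) * hrel l θ - f l (ee θ) * hrel j θ
      have e2 : ‖KK f κ l j (ee θ)‖ ≤ ‖v l (ee θ)‖ + ‖v j (ee θ)‖ := by
        have h1 : ‖ee θ * KK f κ l j (ee θ)‖ = ‖KK f κ l j (ee θ)‖ := by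
          rw [norm_mul, norm_ee, one_mul]
        rw [← h1, e1]
        refine (norm_sub_le _ _).trans ?_
        rw [norm_mul, norm_mul, RCLike.norm_conj, RCLike.norm_conj]
        have b1 := hb j _ mem
        have b2 := hb l _ mem
        have n1 := norm_nonneg (v l (ee θ))
        have n2 := norm_nonneg (v j (ee θ))
        nlinarith
      have n0 := norm_nonneg (KK f κ l j (ee θ))
      nlinarith [sq_nonneg (‖v l (ee θ)‖ - ‖v j (ee θ)‖)]
  · exact (cvl.norm.pow 2).intervalIntegrable _ _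
  · exact (cvj.norm.pow 2).intervalIntegrable _ _

/-- bound for the circle integral of `PP` -/
lemma norm_integral_PP (hR : 1 < R) (hd : 0 < d)
    (hf : ∀ j, DifferentiableOn ℂ (f j) (ball 0 R))
    (hb : ∀ j, ∀ z ∈ ball (0:ℂ) R, ‖f j z‖ ≤ 1)
    (hs : ∀ z ∈ ball (0:ℂ) R, d ≤ ∑ j, ‖f j z‖^2) (hy : DifferentiableOn ℂ y (ball 0 R))
    (hκ : ∀ j, DifferentiableOn ℂ (κ j) (ball 0 R)) {ε : ℝ} (hε : 0 < ε) :
    ‖∫ θ in (-π)..π, PP f y κ (ee θ) * ee θ‖ ≤
      cd d / 2 * (ε * ((6 * (Fintype.card ι : ℝ)^2 + 1/2) * JJ y) +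
        ε⁻¹ * (((Fintype.card ι : ℝ)^2 + 4 * (Fintype.card ι : ℝ)^4) *
        ∑ l, ∑ j, JJ (KK f κ l j))) := by
  obtain ⟨β, hβ⟩ := cw_TT hd hf hs hy hκ
  have cw := cont_weight (R := R)
  have cy := hy.continuousOn
  have cy' := (differentiableOn_deriv_ball hy).continuousOn
  have cf' := fun j => (differentiableOn_deriv_ball (hf j)).continuousOn
  have hK := fun l j => diff_KK hf hκ l j
  have cK := fun l j => (hK l j).continuousOn
  have cK' := fun l j => (differentiableOn_deriv_ball (hK l j)).continuousOn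
  have cA : ContinuousOn (fun z => AA f y z) (ball (0:ℂ) R) :=
    (continuousOn_const.mul (continuousOn_finsetSum _ fun i _ =>
      ((cf' i).norm.pow 2).mul (cy.norm.pow 2))).add (cy'.norm.pow 2)
  have cB : ContinuousOn (fun z => BB f κ z) (ball (0:ℂ) R) :=
    ((continuousOn_const.mul (continuousOn_finsetSum _ fun l _ =>
      continuousOn_finsetSum _ fun j _ => (cK l j).norm.pow 2)).add
    (continuousOn_const.mul (continuousOn_finsetSum _ fun l _ =>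
      continuousOn_finsetSum _ fun j _ => (cK' l j).norm.pow 2))).add
    (continuousOn_const.mul (continuousOn_finsetSum _ fun i _ => continuousOn_finsetSum _ fun l _ =>
      continuousOn_finsetSum _ fun j _ => ((cf' i).norm.pow 2).mul ((cK l j).norm.pow 2)))
  rw [integral_PP hR hd hf hs hy hκ]
  have cT : ContinuousOn (TT f y κ) (ball (0:ℂ) R) := hβ.cont
  have cTa : ContinuousOn (TTa f y κ) (ball (0:ℂ) R) := hβ.contα
  have h1 : ‖∫ z in ball (0:ℂ) 1, (1 - z * (starRingEnd ℂ) z) *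
      (2 * TT f y κ z + z * TTa f y κ z)‖ ≤
      ∫ z in ball (0:ℂ) 1, (1 - ‖z‖^2) * (2 * ‖TT f y κ z‖ + ‖TTa f y κ z‖) := by
    refine (norm_integral_le_integral_norm _).trans ?_
    apply setIntegral_mono_on
    · apply Integrable.norm
      have hc : ContinuousOn (fun z : ℂ => (starRingEnd ℂ) z) (ball 0 R) :=
        Complex.continuous_conj.continuousOn
      exact integrableOn_ball hR ((continuousOn_const.sub (continuousOn_id.mul hc)).mul
        ((continuousOn_const.mul cT).add (continuousOn_id.mul cTa)))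
    · exact integrableOn_ball hR (cw.mul ((continuousOn_const.mul cT.norm).add cTa.norm))
    · exact measurableSet_ball
    · intro z hz
      have w := weight_nonneg hz
      have e : ‖(1 : ℂ) - z * (starRingEnd ℂ) z‖ = 1 - ‖z‖^2 := by
        rw [mul_conj, normSq_eq_norm_sq, ← ofReal_one, ← ofReal_sub, norm_real,
          Real.norm_eq_abs, abs_of_nonneg w]
      rw [norm_mul, e]
      have hz1 : ‖z‖ ≤ 1 := by simpa using (mem_ball_zero_iff.mp hz).le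
      have : ‖2 * TT f y κ z + z * TTa f y κ z‖ ≤ 2 * ‖TT f y κ z‖ + ‖TTa f y κ z‖ := by
        refine (norm_add_le _ _).trans ?_
        rw [norm_mul, norm_mul, Complex.norm_ofNat]
        have := norm_nonneg (TTa f y κ z)
        nlinarith
      gcongr
  refine h1.trans ?_
  have h2 : ∫ z in ball (0:ℂ) 1, (1 - ‖z‖^2) * (2 * ‖TT f y κ z‖ + ‖TTa f y κ z‖) ≤
      ∫ z in ball (0:ℂ) 1, (cd d / 2 * ε * ((1 - ‖z‖^2) * AA f y z) +
        cd d / 2 * ε⁻¹ * ((1 - ‖z‖^2) * BB f κ z)) := by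
    apply int_mono hR
    · exact cw.mul ((continuousOn_const.mul cT.norm).add cTa.norm)
    · exact (continuousOn_const.mul (cw.mul cA)).add (continuousOn_const.mul (cw.mul cB))
    · intro z hz
      have w := weight_nonneg hz
      have hz' : z ∈ ball (0:ℂ) R := ball_subset_ball hR.le hz
      have := pointwise (y := y) (κ := κ) hd (norm_sS_ge hs hz') (fun j => hb j z hz') hε
      calc (1 - ‖z‖^2) * (2 * ‖TT f y κ z‖ + ‖TTa f y κ z‖) ≤
          (1 - ‖z‖^2) * (cd d / 2 * (ε * AA f y z + ε⁻¹ * BB f κ z)) := by gcongr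
        _ = _ := by ring
  refine h2.trans ?_
  rw [int_add hR (F := fun z => cd d / 2 * ε * ((1 - ‖z‖^2) * AA f y z))
    (G := fun z => cd d / 2 * ε⁻¹ * ((1 - ‖z‖^2) * BB f κ z))
    (continuousOn_const.mul (cw.mul cA)) (continuousOn_const.mul (cw.mul cB)),
    integral_const_mul, integral_const_mul]
  have h3 := int_AA hR hf hb hy
  have h4 := int_BB hR hf hb hκ
  have c0 := cd_pos hd
  calc _ ≤ cd d / 2 * ε * ((6 * (Fintype.card ι : ℝ)^2 + 1/2) * JJ y) +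
        cd d / 2 * ε⁻¹ * (((Fintype.card ι : ℝ)^2 + 4 * (Fintype.card ι : ℝ)^4) *
        ∑ l, ∑ j, JJ (KK f κ l j)) := by gcongr
    _ = _ := by ring

/-- **Theorem A**: the `L²` estimate. -/
theorem l2_estimate (ι : Type*) [Fintype ι] {d : ℝ} (hd : 0 < d) : ∃ C : ℝ, 0 < C ∧
    ∀ (R : ℝ) (_ : 1 < R) (f : ι → ℂ → ℂ) (y : ℂ → ℂ) (v κ : ι → ℂ → ℂ)
    (_ : ∀ j, DifferentiableOn ℂ (f j) (ball 0 R))
    (_ : ∀ j, ∀ z ∈ ball (0:ℂ) R, ‖f j z‖ ≤ 1)
    (_ : ∀ z ∈ ball (0:ℂ) R, d ≤ ∑ j, ‖f j z‖^2)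
    (_ : DifferentiableOn ℂ y (ball 0 R))
    (_ : ∀ j, DifferentiableOn ℂ (v j) (ball 0 R))
    (_ : ∀ j, DifferentiableOn ℂ (κ j) (ball 0 R))
    (_ : ∀ j θ, f j (ee θ) * (starRingEnd ℂ) (y (ee θ)) =
      (starRingEnd ℂ) (v j (ee θ)) + ee θ * κ j (ee θ)),
    JJ y ≤ C * ∑ j, JJ (v j) := by
  set N : ℝ := (Fintype.card ι : ℝ) with hN
  have N0 : 0 ≤ N := by positivity
  set E : ℝ := cd d / 2 * (6 * N^2 + 1/2) with hE
  have c0 := cd_pos hd
  have E0 : 0 < E := by positivity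
  set ε : ℝ := 1 / (4 * E) with hεdef
  have ε0 : 0 < ε := by positivity
  refine ⟨2 * (N * (d⁻¹)^2 + cd d / 2 * (ε⁻¹ * ((N^2 + 4 * N^4) * (4 * N)))) + 1,
    by positivity, ?_⟩
  intro R hR f y v κ hf hb hs hy hv hκ hrel
  have cy := continuous_circ hR hy.continuousOn
  have cv := fun j => continuous_circ hR (hv j).continuousOn
  have cf := fun j => continuous_circ hR (hf j).continuousOn
  have cκ := fun j => continuous_circ hR (hκ j).continuousOn
  have csS := continuous_circ hR (cw_sS hf).cont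
  have mem : ∀ θ, ee θ ∈ ball (0:ℂ) R := fun θ => by simp [norm_ee, hR]
  have hne : ∀ θ, sS f (ee θ) ≠ 0 := fun θ => sS_ne hd hs (mem θ)
  have cinv : Continuous fun θ => (sS f (ee θ))⁻¹ := csS.inv₀ hne
  have ccf := fun j => Complex.continuous_conj.comp (cf j)
  have ccv := fun j => Complex.continuous_conj.comp (cv j)
  -- the splitting on the circle
  set A1 : ℝ → ℂ := fun θ => ∑ j, ((starRingEnd ℂ) (f j (ee θ)) * (sS f (ee θ))⁻¹) *
    (y (ee θ) * (starRingEnd ℂ) (v j (ee θ))) with hA1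
  have cA1 : Continuous A1 := by
    apply continuous_finsetSum
    intro j _
    exact ((ccf j).mul cinv).mul (cy.mul (ccv j))
  have cPP : Continuous fun θ => PP f y κ (ee θ) * ee θ := by
    refine Continuous.mul ?_ continuous_ee
    apply continuous_finsetSum
    intro j _
    exact ((ccf j).mul cinv).mul (cy.mul (cκ j))
  have hsplit : ∀ θ, ((‖y (ee θ)‖^2 : ℝ) : ℂ) = A1 θ + PP f y κ (ee θ) * ee θ := by
    intro θ
    have e1 : ((‖y (ee θ)‖^2 : ℝ) : ℂ) = y (ee θ) * (starRingEnd ℂ) (y (ee θ)) := by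
      rw [mul_conj, normSq_eq_norm_sq]
    have e2 : (1 : ℂ) = ∑ j, (starRingEnd ℂ) (f j (ee θ)) * (sS f (ee θ))⁻¹ * f j (ee θ) := by
      have : ∀ j, (starRingEnd ℂ) (f j (ee θ)) * (sS f (ee θ))⁻¹ * f j (ee θ) =
        (f j (ee θ) * (starRingEnd ℂ) (f j (ee θ))) * (sS f (ee θ))⁻¹ := fun j => by ring
      simp only [this]
      rw [← Finset.sum_mul, show ∑ j, f j (ee θ) * (starRingEnd ℂ) (f j (ee θ)) = sS f (ee θ)
        from rfl, mul_inv_cancel₀ (hne θ)]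
    rw [e1, hA1]
    simp only [PP]
    rw [Finset.sum_mul, ← Finset.sum_add_distrib, ← one_mul (y (ee θ) * _)]
    conv_lhs => rw [e2, Finset.sum_mul]
    refine Finset.sum_congr rfl fun j _ => ?_
    linear_combination ((starRingEnd ℂ) (f j (ee θ)) * (sS f (ee θ))⁻¹ * y (ee θ)) * hrel j θ
  have hJ : ((JJ y : ℝ) : ℂ) = (∫ θ in (-π)..π, A1 θ) +
      ∫ θ in (-π)..π, PP f y κ (ee θ) * ee θ := by
    unfold JJ
    rw [← intervalIntegral.integral_ofReal, ← intervalIntegral.integral_add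
      (cA1.intervalIntegrable _ _) (cPP.intervalIntegrable _ _)]
    congr 1
    ext θ
    exact hsplit θ
  have hJ2 : JJ y ≤ ‖∫ θ in (-π)..π, A1 θ‖ + ‖∫ θ in (-π)..π, PP f y κ (ee θ) * ee θ‖ := by
    have := norm_add_le (∫ θ in (-π)..π, A1 θ) (∫ θ in (-π)..π, PP f y κ (ee θ) * ee θ)
    rw [← hJ, norm_real, Real.norm_eq_abs, abs_of_nonneg (JJ_nonneg y)] at this
    exact this
  -- first part
  have hI1 : ‖∫ θ in (-π)..π, A1 θ‖ ≤ (1/4) * JJ y + N * (d⁻¹)^2 * ∑ j, JJ (v j) := by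
    have b1 : ‖∫ θ in (-π)..π, A1 θ‖ ≤ ∫ θ in (-π)..π, ‖A1 θ‖ :=
      intervalIntegral.norm_integral_le_integral_norm (by linarith [Real.pi_pos])
    have b2 : ∫ θ in (-π)..π, ‖A1 θ‖ ≤ ∫ θ in (-π)..π, ((1/4) * ‖y (ee θ)‖^2 +
        N * (d⁻¹)^2 * ∑ j, ‖v j (ee θ)‖^2) := by
      apply intervalIntegral.integral_mono_on (by linarith [Real.pi_pos])
      · exact cA1.norm.intervalIntegrable _ _
      · refine Continuous.intervalIntegrable ?_ _ _
        exact (continuous_const.mul (cy.norm.pow 2)).add (continuous_const.mul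
          (continuous_finsetSum _ fun j _ => (cv j).norm.pow 2))
      · intro θ _
        have hi := bound_inv hd (norm_sS_ge hs (mem θ))
        have hd1 : 0 ≤ d⁻¹ := by positivity
        have c1 : ‖A1 θ‖ ≤ ‖y (ee θ)‖ * (d⁻¹ * ∑ j, ‖v j (ee θ)‖) := by
          rw [hA1]
          simp only
          refine (norm_sum_le _ _).trans ?_
          rw [Finset.mul_sum, Finset.mul_sum]
          refine Finset.sum_le_sum fun j _ => ?_
          rw [norm_mul, norm_mul, norm_mul, RCLike.norm_conj, RCLike.norm_conj]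
          have := hb j _ (mem θ)
          have n1 := norm_nonneg (f j (ee θ))
          have n2 := norm_nonneg (y (ee θ))
          have n3 := norm_nonneg (v j (ee θ))
          calc ‖f j (ee θ)‖ * ‖(sS f (ee θ))⁻¹‖ * (‖y (ee θ)‖ * ‖v j (ee θ)‖) ≤
              1 * d⁻¹ * (‖y (ee θ)‖ * ‖v j (ee θ)‖) := by gcongr
            _ = _ := by ring
        have c2 : ‖y (ee θ)‖ * (d⁻¹ * ∑ j, ‖v j (ee θ)‖) ≤ (1/4) * ‖y (ee θ)‖^2 +
            (d⁻¹ * ∑ j, ‖v j (ee θ)‖)^2 := by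
          nlinarith [sq_nonneg (‖y (ee θ)‖ / 2 - (d⁻¹ * ∑ j, ‖v j (ee θ)‖))]
        have c3 : (d⁻¹ * ∑ j, ‖v j (ee θ)‖)^2 ≤ N * (d⁻¹)^2 * ∑ j, ‖v j (ee θ)‖^2 := by
          have := sq_sum_le Finset.univ (fun j => ‖v j (ee θ)‖)
          rw [Finset.card_univ] at this
          calc (d⁻¹ * ∑ j, ‖v j (ee θ)‖)^2 = (d⁻¹)^2 * (∑ j, ‖v j (ee θ)‖)^2 := by ring
            _ ≤ (d⁻¹)^2 * (N * ∑ j, ‖v j (ee θ)‖^2) := by gcongr
            _ = _ := by ring
        linarith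
    have b3 : ∫ θ in (-π)..π, ((1/4) * ‖y (ee θ)‖^2 +
        N * (d⁻¹)^2 * ∑ j, ‖v j (ee θ)‖^2) = (1/4) * JJ y + N * (d⁻¹)^2 * ∑ j, JJ (v j) := by
      rw [intervalIntegral.integral_add, intervalIntegral.integral_const_mul,
        intervalIntegral.integral_const_mul, intervalIntegral.integral_finsetSum]
      · rfl
      · intro j _
        exact ((cv j).norm.pow 2).intervalIntegrable _ _
      · exact (continuous_const.mul (cy.norm.pow 2)).intervalIntegrable _ _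
      · exact (continuous_const.mul
          (continuous_finsetSum _ fun j _ => (cv j).norm.pow 2)).intervalIntegrable _ _
    linarith
  -- second part
  have hI2 := norm_integral_PP hR hd hf hb hs hy hκ ε0
  have hW : ∑ l, ∑ j, JJ (KK f κ l j) ≤ 4 * N * ∑ j, JJ (v j) := by
    calc ∑ l, ∑ j, JJ (KK f κ l j) ≤ ∑ l, ∑ j, 2 * (JJ (v l) + JJ (v j)) :=
          Finset.sum_le_sum fun l _ => Finset.sum_le_sum fun j _ =>
            JJ_KK_le hR hf hb hκ hv hrel l j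
      _ = _ := by
          simp only [mul_add, Finset.sum_add_distrib, Finset.sum_const, Finset.card_univ,
            nsmul_eq_mul, ← Finset.mul_sum]
          ring
  have V0 : 0 ≤ ∑ j, JJ (v j) := Finset.sum_nonneg fun j _ => JJ_nonneg _
  have h5 : cd d / 2 * (ε * ((6 * N^2 + 1/2) * JJ y)) = (1/4) * JJ y := by
    have : cd d / 2 * (ε * ((6 * N^2 + 1/2) * JJ y)) = (ε * E) * JJ y := by
      rw [hE]; ring
    rw [this, hεdef]
    field_simp
  have h6 : cd d / 2 * (ε⁻¹ * ((N^2 + 4 * N^4) * ∑ l, ∑ j, JJ (KK f κ l j))) ≤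
      cd d / 2 * (ε⁻¹ * ((N^2 + 4 * N^4) * (4 * N * ∑ j, JJ (v j)))) := by
    have : 0 < ε⁻¹ := by positivity
    gcongr
  have h7 : cd d / 2 * (ε * ((6 * N^2 + 1/2) * JJ y) +
        ε⁻¹ * ((N^2 + 4 * N^4) * ∑ l, ∑ j, JJ (KK f κ l j))) =
        cd d / 2 * (ε * ((6 * N^2 + 1/2) * JJ y)) + cd d / 2 *
        (ε⁻¹ * ((N^2 + 4 * N^4) * ∑ l, ∑ j, JJ (KK f κ l j))) := by ring
  rw [h7, h5] at hI2
  have h8 : JJ y ≤ (1/4) * JJ y + N * (d⁻¹)^2 * ∑ j, JJ (v j) + ((1/4) * JJ y +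
      cd d / 2 * (ε⁻¹ * ((N^2 + 4 * N^4) * (4 * N * ∑ j, JJ (v j))))) := by linarith
  have h9 : (2 * (N * (d⁻¹)^2 + cd d / 2 * (ε⁻¹ * ((N^2 + 4 * N^4) * (4 * N)))) + 1) *
      ∑ j, JJ (v j) = 2 * (N * (d⁻¹)^2 * ∑ j, JJ (v j) +
      cd d / 2 * (ε⁻¹ * ((N^2 + 4 * N^4) * (4 * N * ∑ j, JJ (v j))))) + ∑ j, JJ (v j) := by ring
  rw [h9]
  linarith

end L2

end

end Pool.Agent.MPca0fc2
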