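import Mathlib
import Pool.Agent.Lib.MP_ca0fc2_an.L2c

open Complex MeasureTheory Metric Set
open scoped ComplexConjugate Real Interval Topology

namespace Pool.Agent.MPca0fc2

noncomputable section

lemma ee_eq_circleMap (θ : ℝ) : circleMap 0 1 θ = ee θ := by
  simp [circleMap, ee]

lemma ee_periodic (θ : ℝ) : ee (θ + 2 * π) = ee θ := by
  rw [← ee_eq_circleMap, ← ee_eq_circleMap, periodic_circleMap]

lemma cauchy_ee {g : ℂ → ℂ} {R : ℝ} (hR : 1 < R) (hg : DifferentiableOn ℂ g (ball 0 R)) {u : ℂ}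
    (hu : ‖u‖ < 1) :
    ∫ θ in (-π)..π, g (ee θ) * (ee θ * (ee θ - u)⁻¹) = 2 * π * g u := by
  have h1 : DiffContOnCl ℂ g (ball 0 1) := by
    refine DifferentiableOn.diffContOnCl ?_
    rw [closure_ball _ one_ne_zero]
    exact hg.mono (closedBall_subset_ball hR)
  have h2 := h1.circleIntegral_sub_inv_smul (w := u) (by simpa using hu)
  rw [circleIntegral] at h2
  have h3 : ∀ θ : ℝ, deriv (circleMap 0 1) θ • ((circleMap 0 1 θ - u)⁻¹ • g (circleMap 0 1 θ)) =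
      I * (g (ee θ) * (ee θ * (ee θ - u)⁻¹)) := by
    intro θ
    rw [deriv_circleMap, ee_eq_circleMap, smul_eq_mul, smul_eq_mul]
    ring
  simp only [h3] at h2
  rw [intervalIntegral.integral_const_mul] at h2
  have h4 : ∫ θ in (0:ℝ)..2 * π, g (ee θ) * (ee θ * (ee θ - u)⁻¹) = 2 * π * g u := by
    have : I * (∫ θ in (0:ℝ)..2 * π, g (ee θ) * (ee θ * (ee θ - u)⁻¹)) = I * (2 * π * g u) := by
      rw [h2, smul_eq_mul]; ring
    exact mul_left_cancel₀ I_ne_zero this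
  rw [← h4]
  have hp : Function.Periodic (fun θ => g (ee θ) * (ee θ * (ee θ - u)⁻¹)) (2 * π) := by
    intro θ
    simp only [ee_periodic]
  have := hp.intervalIntegral_add_eq (-π) 0
  rw [show -π + 2 * π = π by ring, zero_add] at this
  exact this

/-- the Szego kernel -/
def kk (w z : ℂ) : ℂ := (1 - (starRingEnd ℂ) w * z)⁻¹

lemma kk_ne {w z : ℂ} (h : ‖w‖ * ‖z‖ < 1) : 1 - (starRingEnd ℂ) w * z ≠ 0 := by
  intro h0
  have : (starRingEnd ℂ) w * z = 1 := by linear_combination -h0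
  have h1 := congrArg norm this
  rw [norm_mul, RCLike.norm_conj, norm_one] at h1
  linarith

lemma kk_diff {w : ℂ} {R : ℝ} (h : ‖w‖ * R < 1) : DifferentiableOn ℂ (kk w) (ball 0 R) := by
  intro z hz
  have hz' : ‖z‖ < R := by simpa using hz
  have : ‖w‖ * ‖z‖ < 1 := by
    have := norm_nonneg w
    nlinarith
  unfold kk
  apply DifferentiableAt.differentiableWithinAt
  exact ((differentiableAt_const _).sub (differentiableAt_id.const_mul _)).inv (kk_ne this)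

lemma conj_kk_ee {u : ℂ} (θ : ℝ) :
    (starRingEnd ℂ) (kk u (ee θ)) = ee θ * (ee θ - u)⁻¹ := by
  unfold kk
  rw [map_inv₀, map_sub, map_mul, conj_conj, map_one]
  have e : ee θ - u = ee θ * (1 - u * (starRingEnd ℂ) (ee θ)) := by
    rw [mul_sub, mul_one]
    have := ee_mul_conj θ
    linear_combination u * this
  have h0 : ee θ ≠ 0 := by
    intro h; have := norm_ee θ; rw [h, norm_zero] at this; exact zero_ne_one this
  rw [e, mul_inv, ← mul_assoc, mul_inv_cancel₀ h0, one_mul]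

lemma kk_cont_ee {w : ℂ} (hw : ‖w‖ < 1) : Continuous fun θ => kk w (ee θ) := by
  have : ∀ θ, 1 - (starRingEnd ℂ) w * ee θ ≠ 0 := fun θ => kk_ne (by rw [norm_ee]; simpa using hw)
  unfold kk
  exact (continuous_const.sub (continuous_const.mul continuous_ee)).inv₀ this

lemma exists_R {w : ℂ} (hw : ‖w‖ < 1) {R : ℝ} (hR : 1 < R) :
    ∃ R', 1 < R' ∧ R' ≤ R ∧ ‖w‖ * R' < 1 := by
  have h : Filter.Tendsto (fun t : ℝ => ‖w‖ * t) (𝓝[>] 1) (𝓝 (‖w‖ * 1)) :=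
    ((continuous_const.mul continuous_id).tendsto 1).mono_left nhdsWithin_le_nhds
  have h1 : ∀ᶠ t in 𝓝[>] (1:ℝ), ‖w‖ * t < 1 := h.eventually_lt_const (by simpa using hw)
  have h2 : ∀ᶠ t in 𝓝[>] (1:ℝ), t ∈ Ioo 1 R := Ioo_mem_nhdsGT hR
  obtain ⟨t, h3, h4⟩ := (h1.and h2).exists
  exact ⟨t, h4.1, h4.2.le, h3⟩

lemma integral_kk {w u : ℂ} (hw : ‖w‖ < 1) (hu : ‖u‖ < 1) :
    ∫ θ in (-π)..π, kk w (ee θ) * (starRingEnd ℂ) (kk u (ee θ)) = 2 * π * kk w u := by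
  obtain ⟨R, hR, -, h⟩ := exists_R hw one_lt_two
  simp only [conj_kk_ee]
  exact cauchy_ee hR (kk_diff h) hu

lemma JJ_sum_kk (s : Finset ℂ) (hw : ∀ i ∈ s, ‖i‖ < 1) (a : ℂ → ℂ) :
    ((JJ (fun z => ∑ i ∈ s, a i * kk i z) : ℝ) : ℂ) =
      2 * π * ∑ i ∈ s, ∑ l ∈ s, a i * (starRingEnd ℂ) (a l) * kk i l := by
  unfold JJ
  rw [← intervalIntegral.integral_ofReal]
  have e : ∀ θ : ℝ, ((‖∑ i ∈ s, a i * kk i (ee θ)‖ ^ 2 : ℝ) : ℂ) =
      ∑ i ∈ s, ∑ l ∈ s, a i * (starRingEnd ℂ) (a l) *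
        (kk i (ee θ) * (starRingEnd ℂ) (kk l (ee θ))) := by
    intro θ
    rw [← normSq_eq_norm_sq, ← mul_conj, map_sum, Finset.sum_mul_sum]
    refine Finset.sum_congr rfl fun i _ => Finset.sum_congr rfl fun l _ => ?_
    rw [map_mul]
    ring
  simp only [e]
  have hc : ∀ i ∈ s, ∀ l ∈ s, Continuous fun θ => a i * (starRingEnd ℂ) (a l) *
        (kk i (ee θ) * (starRingEnd ℂ) (kk l (ee θ))) := fun i hi l hl =>
    continuous_const.mul ((kk_cont_ee (hw i hi)).mul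
      (Complex.continuous_conj.comp (kk_cont_ee (hw l hl))))
  rw [intervalIntegral.integral_finsetSum, Finset.mul_sum]
  · refine Finset.sum_congr rfl fun i hi => ?_
    rw [intervalIntegral.integral_finsetSum, Finset.mul_sum]
    · refine Finset.sum_congr rfl fun l hl => ?_
      rw [intervalIntegral.integral_const_mul, integral_kk (hw i hi) (hw l hl)]
      ring
    · intro l hl
      exact (hc i hi l hl).intervalIntegrable _ _
  · intro i hi
    exact (continuous_finsetSum _ fun l hl => hc i hi l hl).intervalIntegrable _ _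

section
variable {ι : Type*} [Fintype ι]

/-- the kernel of the lurking isometry -/
def QK (f : ι → ℂ → ℂ) (c : ℝ) (z w : ℂ) : ℂ :=
  (∑ j, (starRingEnd ℂ) (f j z) * f j w - c) * kk z w

/-- positivity on a larger disc -/
theorem posK_aux {d : ℝ} (hd : 0 < d) : ∃ c : ℝ, 0 < c ∧
    ∀ (R : ℝ) (_ : 1 < R) (f : ι → ℂ → ℂ)
    (_ : ∀ j, DifferentiableOn ℂ (f j) (ball 0 R))
    (_ : ∀ j, ∀ z ∈ ball (0:ℂ) R, ‖f j z‖ ≤ 1)
    (_ : ∀ z ∈ ball (0:ℂ) R, d ≤ ∑ j, ‖f j z‖^2)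
    (s : Finset ℂ) (_ : ∀ i ∈ s, ‖i‖ < 1) (a : ℂ → ℂ),
    0 ≤ (∑ i ∈ s, ∑ l ∈ s, a i * (starRingEnd ℂ) (a l) * QK f c i l).re := by
  obtain ⟨C, hC, H⟩ := l2_estimate ι hd
  refine ⟨C⁻¹, by positivity, ?_⟩
  intro R hR f hf hb hs s hw a
  -- a smaller radius
  obtain ⟨R', hR', hR'R, hwR⟩ : ∃ R', 1 < R' ∧ R' ≤ R ∧ ∀ i ∈ s, ‖i‖ * R' < 1 := by
    have h1 : ∀ i ∈ s, ∀ᶠ t in 𝓝[>] (1:ℝ), ‖i‖ * t < 1 := by
      intro i hi
      have h : Filter.Tendsto (fun t : ℝ => ‖i‖ * t) (𝓝[>] 1) (𝓝 (‖i‖ * 1)) :=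
        ((continuous_const.mul continuous_id).tendsto 1).mono_left nhdsWithin_le_nhds
      exact h.eventually_lt_const (by simpa using hw i hi)
    have h2 : ∀ᶠ t in 𝓝[>] (1:ℝ), t ∈ Ioo 1 R := Ioo_mem_nhdsGT hR
    obtain ⟨t, h3, h4⟩ := (((Filter.eventually_all_finset s).2 h1).and h2).exists
    exact ⟨t, h4.1, h4.2.le, h3⟩
  have hsub : ball (0:ℂ) R' ⊆ ball 0 R := ball_subset_ball hR'R
  have hmem : ∀ i ∈ s, ball (0:ℂ) R' ∈ 𝓝 i := fun i hi =>
    isOpen_ball.mem_nhds (by simpa using (hw i hi).trans hR')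
  have key := H R' hR' f (fun z => ∑ i ∈ s, a i * kk i z)
    (fun j z => ∑ i ∈ s, (a i * (starRingEnd ℂ) (f j i)) * kk i z)
    (fun j z => ∑ i ∈ s, (starRingEnd ℂ) (a i) * dslope (f j) i z)
    (fun j => (hf j).mono hsub) (fun j z hz => hb j z (hsub hz)) (fun z hz => hs z (hsub hz))
    (DifferentiableOn.fun_sum fun i hi => (kk_diff (hwR i hi)).const_mul _)
    (fun j => DifferentiableOn.fun_sum fun i hi => (kk_diff (hwR i hi)).const_mul _)
    (fun j => DifferentiableOn.fun_sum fun i hi =>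
      (((Complex.differentiableOn_dslope (hmem i hi)).2 ((hf j).mono hsub))).const_mul _)
    (by
      intro j θ
      simp only [map_sum, map_mul, conj_conj, conj_kk_ee, Finset.mul_sum]
      rw [← Finset.sum_add_distrib]
      refine Finset.sum_congr rfl fun i hi => ?_
      have hne : ee θ ≠ i := by
        intro h
        have := norm_ee θ
        rw [h] at this
        linarith [hw i hi]
      rw [dslope_of_ne _ hne, slope_def_field]
      have h0 : ee θ - i ≠ 0 := sub_ne_zero.2 hne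
      field_simp
      ring)
  have k1 := JJ_sum_kk s hw a
  have k2 := fun j => JJ_sum_kk s hw (fun i => a i * (starRingEnd ℂ) (f j i))
  have k1' : JJ (fun z => ∑ i ∈ s, a i * kk i z) =
      2 * π * (∑ i ∈ s, ∑ l ∈ s, a i * (starRingEnd ℂ) (a l) * kk i l).re := by
    have := congrArg re k1
    rw [ofReal_re] at this
    rw [this, show (2 * π : ℂ) = ((2 * π : ℝ) : ℂ) by push_cast; ring, re_ofReal_mul]
  have k2' : ∀ j, JJ (fun z => ∑ i ∈ s, (a i * (starRingEnd ℂ) (f j i)) * kk i z) =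
      2 * π * (∑ i ∈ s, ∑ l ∈ s, a i * (starRingEnd ℂ) (f j i) *
        (starRingEnd ℂ) (a l * (starRingEnd ℂ) (f j l)) * kk i l).re := by
    intro j
    have := congrArg re (k2 j)
    rw [ofReal_re] at this
    rw [this, show (2 * π : ℂ) = ((2 * π : ℝ) : ℂ) by push_cast; ring, re_ofReal_mul]
  rw [k1'] at key
  simp only [k2'] at key
  rw [← Finset.mul_sum] at key
  have hπ : (0:ℝ) < 2 * π := by positivity
  have key2 : (∑ i ∈ s, ∑ l ∈ s, a i * (starRingEnd ℂ) (a l) * kk i l).re ≤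
      C * ∑ j, (∑ i ∈ s, ∑ l ∈ s, a i * (starRingEnd ℂ) (f j i) *
        (starRingEnd ℂ) (a l * (starRingEnd ℂ) (f j l)) * kk i l).re := by
    have : 2 * π * (∑ i ∈ s, ∑ l ∈ s, a i * (starRingEnd ℂ) (a l) * kk i l).re ≤
      2 * π * (C * ∑ j, (∑ i ∈ s, ∑ l ∈ s, a i * (starRingEnd ℂ) (f j i) *
        (starRingEnd ℂ) (a l * (starRingEnd ℂ) (f j l)) * kk i l).re) := by
      linarith
    exact le_of_mul_le_mul_left this hπ
  have e : (∑ i ∈ s, ∑ l ∈ s, a i * (starRingEnd ℂ) (a l) * QK f C⁻¹ i l) =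
      ∑ j, (∑ i ∈ s, ∑ l ∈ s, a i * (starRingEnd ℂ) (f j i) *
        (starRingEnd ℂ) (a l * (starRingEnd ℂ) (f j l)) * kk i l) -
      ((C⁻¹ : ℝ) : ℂ) * (∑ i ∈ s, ∑ l ∈ s, a i * (starRingEnd ℂ) (a l) * kk i l) := by
    have e' : ∑ j, (∑ i ∈ s, ∑ l ∈ s, a i * (starRingEnd ℂ) (f j i) *
        (starRingEnd ℂ) (a l * (starRingEnd ℂ) (f j l)) * kk i l) =
        ∑ i ∈ s, ∑ l ∈ s, ∑ j, a i * (starRingEnd ℂ) (f j i) *
        (starRingEnd ℂ) (a l * (starRingEnd ℂ) (f j l)) * kk i l := by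
      rw [Finset.sum_comm]
      exact Finset.sum_congr rfl fun i _ => Finset.sum_comm
    rw [e', Finset.mul_sum, ← Finset.sum_sub_distrib]
    refine Finset.sum_congr rfl fun i _ => ?_
    rw [Finset.mul_sum, ← Finset.sum_sub_distrib]
    refine Finset.sum_congr rfl fun l _ => ?_
    unfold QK
    rw [sub_mul, mul_sub, Finset.sum_mul, Finset.mul_sum]
    congr 1
    · refine Finset.sum_congr rfl fun j _ => ?_
      rw [map_mul, conj_conj]
      ring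
    · push_cast
      ring
  rw [e, sub_re, re_sum, re_ofReal_mul]
  have h3 : C⁻¹ * (∑ i ∈ s, ∑ l ∈ s, a i * (starRingEnd ℂ) (a l) * kk i l).re ≤
      C⁻¹ * (C * ∑ j, (∑ i ∈ s, ∑ l ∈ s, a i * (starRingEnd ℂ) (f j i) *
        (starRingEnd ℂ) (a l * (starRingEnd ℂ) (f j l)) * kk i l).re) := by gcongr
  rw [← mul_assoc, inv_mul_cancel₀ hC.ne', one_mul] at h3
  linarith

/-- positivity on the unit disc -/
theorem posK {d : ℝ} (hd : 0 < d) : ∃ c : ℝ, 0 < c ∧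
    ∀ (f : ι → ℂ → ℂ)
    (_ : ∀ j, DifferentiableOn ℂ (f j) (ball 0 1))
    (_ : ∀ j, ∀ z ∈ ball (0:ℂ) 1, ‖f j z‖ ≤ 1)
    (_ : ∀ z ∈ ball (0:ℂ) 1, d ≤ ∑ j, ‖f j z‖^2)
    (s : Finset ℂ) (_ : ∀ i ∈ s, ‖i‖ < 1) (a : ℂ → ℂ),
    0 ≤ (∑ i ∈ s, ∑ l ∈ s, a i * (starRingEnd ℂ) (a l) * QK f c i l).re := by
  obtain ⟨c, hc, H⟩ := posK_aux (ι := ι) hd
  refine ⟨c, hc, ?_⟩
  intro f hf hb hs s hw a
  have hmaps : ∀ ρ ∈ Ioo (0:ℝ) 1, ∀ z ∈ ball (0:ℂ) ρ⁻¹, (ρ:ℂ) * z ∈ ball (0:ℂ) 1 := by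
    intro ρ hρ z hz
    have hz' : ‖z‖ < ρ⁻¹ := by simpa using hz
    simp only [mem_ball_zero_iff, norm_mul, norm_real, Real.norm_eq_abs, abs_of_pos hρ.1]
    calc ρ * ‖z‖ < ρ * ρ⁻¹ := mul_lt_mul_of_pos_left hz' hρ.1
      _ = 1 := mul_inv_cancel₀ hρ.1.ne'
  have h1 : ∀ ρ ∈ Ioo (0:ℝ) 1, 0 ≤ (∑ i ∈ s, ∑ l ∈ s, a i * (starRingEnd ℂ) (a l) *
      QK (fun j z => f j (ρ * z)) c i l).re := by
    intro ρ hρ
    refine H ρ⁻¹ ((one_lt_inv₀ hρ.1).2 hρ.2) (fun j z => f j (ρ * z)) ?_ ?_ ?_ s hw a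
    · intro j
      exact (hf j).comp (differentiableOn_id.const_mul _) (hmaps ρ hρ)
    · intro j z hz
      exact hb j _ (hmaps ρ hρ z hz)
    · intro z hz
      exact hs _ (hmaps ρ hρ z hz)
  have h2 : Filter.Tendsto (fun ρ : ℝ => (∑ i ∈ s, ∑ l ∈ s, a i * (starRingEnd ℂ) (a l) *
      QK (fun j z => f j (ρ * z)) c i l).re) (𝓝[<] 1)
      (𝓝 (∑ i ∈ s, ∑ l ∈ s, a i * (starRingEnd ℂ) (a l) * QK f c i l).re) := by
    have hlim : ∀ j, ∀ i ∈ s, Filter.Tendsto (fun ρ : ℝ => f j (ρ * i)) (𝓝[<] 1) (𝓝 (f j i)) := by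
      intro j i hi
      have hc : ContinuousAt (f j) i :=
        ((hf j).differentiableAt (isOpen_ball.mem_nhds (by simpa using hw i hi))).continuousAt
      have h3 : Filter.Tendsto (fun ρ : ℝ => (ρ:ℂ) * i) (𝓝 1) (𝓝 (((1:ℝ):ℂ) * i)) :=
        ((Complex.continuous_ofReal.mul continuous_const).tendsto 1)
      rw [ofReal_one, one_mul] at h3
      exact hc.tendsto.comp (h3.mono_left nhdsWithin_le_nhds)
    apply (Complex.continuous_re.tendsto _).comp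
    refine tendsto_finsetSum _ fun i hi => tendsto_finsetSum _ fun l hl => ?_
    refine Filter.Tendsto.const_mul _ ?_
    unfold QK
    refine Filter.Tendsto.mul_const _ ?_
    refine Filter.Tendsto.sub_const ?_ _
    refine tendsto_finsetSum _ fun j _ => ?_
    exact ((Complex.continuous_conj.tendsto _).comp (hlim j i hi)).mul (hlim j l hl)
  refine ge_of_tendsto h2 ?_
  filter_upwards [Ioo_mem_nhdsLT (zero_lt_one (α := ℝ))] with ρ hρ
  exact h1 ρ hρ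

end

end

end Pool.Agent.MPca0fc2
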