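import Mathlib
import Pool.Agent.Lib.MP_ca0fc2_an.Kern
import Pool.Agent.Lib.MP_ca0fc2_an.Mg.G008

open scoped InnerProductSpace ComplexConjugate Topology
open Complex Metric Set

namespace Pool.Agent.MPca0fc2

noncomputable section

lemma conj_kk (z w : ℂ) : (starRingEnd ℂ) (kk z w) = kk w z := by
  unfold kk
  rw [map_inv₀, map_sub, map_mul, conj_conj, map_one, mul_comm]

lemma conj_QK {ι : Type*} [Fintype ι] (f : ι → ℂ → ℂ) (c : ℝ) (z w : ℂ) :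
    (starRingEnd ℂ) (QK f c z w) = QK f c w z := by
  unfold QK
  rw [map_mul, map_sub, conj_kk, map_sum, conj_ofReal]
  congr 2
  refine Finset.sum_congr rfl fun j _ => ?_
  rw [map_mul, conj_conj, mul_comm]

/-- quantitative corona theorem on the disc, normalised data -/
theorem corona_disc_unit {ι : Type*} [Fintype ι] {d : ℝ} (hd : 0 < d) : ∃ K : ℝ, 0 < K ∧
    ∀ (f : ι → ℂ → ℂ) (_ : ∀ j, DifferentiableOn ℂ (f j) (ball 0 1))
    (_ : ∀ j, ∀ z ∈ ball (0:ℂ) 1, ‖f j z‖ ≤ 1)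
    (_ : ∀ z ∈ ball (0:ℂ) 1, d ≤ ∑ j, ‖f j z‖^2),
    ∃ h : ι → ℂ → ℂ, (∀ j, DifferentiableOn ℂ (h j) (ball 0 1)) ∧
      (∀ j, ∀ z ∈ ball (0:ℂ) 1, ‖h j z‖ ≤ K) ∧
      ∀ z ∈ ball (0:ℂ) 1, ∑ j, f j z * h j z = 1 := by
  obtain ⟨c, hc, H⟩ := posK (ι := ι) hd
  have hsc : 0 < √c := Real.sqrt_pos.2 hc
  refine ⟨(√c)⁻¹, by positivity, ?_⟩
  intro f hf hb hs
  obtain ⟨E, i1, i2, i3, x, hx⟩ := exists_gram (X := ball (0:ℂ) 1)
    (fun z w => QK f c z w) (fun z w => conj_QK f c z w) (by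
      intro s a
      have h1 := H f hf hb hs (s.map (Function.Embedding.subtype _)) (by
        intro i hi
        obtain ⟨y, -, rfl⟩ := Finset.mem_map.1 hi
        exact mem_ball_zero_iff.1 y.2) (Function.extend Subtype.val a 0)
      simp only [Finset.sum_map, Function.Embedding.subtype_apply,
        Subtype.val_injective.extend_apply] at h1
      exact h1)
  obtain ⟨Θ, h1, h2, h3⟩ := transfer x f (√c) (by
    intro z w
    rw [hx, QK]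
    have hne : 1 - (starRingEnd ℂ) (z:ℂ) * (w:ℂ) ≠ 0 := by
      apply kk_ne
      have hz : ‖(z:ℂ)‖ < 1 := mem_ball_zero_iff.1 z.2
      have hw : ‖(w:ℂ)‖ < 1 := mem_ball_zero_iff.1 w.2
      nlinarith [norm_nonneg (z:ℂ), norm_nonneg (w:ℂ)]
    have hcc : ((√c : ℝ) : ℂ)^2 = c := by
      rw [← ofReal_pow, Real.sq_sqrt hc.le]
    rw [hcc, kk]
    field_simp)
  have hsc' : ((√c : ℝ) : ℂ) ≠ 0 := ofReal_ne_zero.2 hsc.ne'
  refine ⟨fun j z => ((√c : ℝ) : ℂ)⁻¹ * Θ j z, fun j => (h1 j).const_mul _, ?_, ?_⟩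
  · intro j z hz
    rw [norm_mul, norm_inv, norm_real, Real.norm_eq_abs, abs_of_pos hsc]
    have := h2 j z hz
    have : (0:ℝ) ≤ (√c)⁻¹ := by positivity
    nlinarith
  · intro z hz
    have : ∀ j, f j z * (((√c : ℝ) : ℂ)⁻¹ * Θ j z) = ((√c : ℝ) : ℂ)⁻¹ * (f j z * Θ j z) :=
      fun j => by ring
    simp only [this]
    rw [← Finset.mul_sum, h3 z hz, inv_mul_cancel₀ hsc']

/-- quantitative corona theorem on the disc: the bound depends only on the number of functions,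
`M` and `d` -/
theorem corona_disc_unif (ι : Type*) [Fintype ι] (M : ℝ) {d : ℝ} (hd : 0 < d) : ∃ K : ℝ, 0 < K ∧
    ∀ (f : ι → ℂ → ℂ) (_ : ∀ j, DifferentiableOn ℂ (f j) (ball 0 1))
    (_ : ∀ j, ∀ z ∈ ball (0:ℂ) 1, ‖f j z‖ ≤ M)
    (_ : ∀ z ∈ ball (0:ℂ) 1, d ≤ ∑ j, ‖f j z‖^2),
    ∃ h : ι → ℂ → ℂ, (∀ j, DifferentiableOn ℂ (h j) (ball 0 1)) ∧
      (∀ j, ∀ z ∈ ball (0:ℂ) 1, ‖h j z‖ ≤ K) ∧
      ∀ z ∈ ball (0:ℂ) 1, ∑ j, f j z * h j z = 1 := by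
  set m : ℝ := max M 1 with hm
  have hm1 : 1 ≤ m := le_max_right _ _
  have hm0 : 0 < m := by linarith
  have hd' : 0 < d / m^2 := by positivity
  obtain ⟨K, hK, H⟩ := corona_disc_unit (ι := ι) hd'
  have hmc : (m : ℂ) ≠ 0 := ofReal_ne_zero.2 hm0.ne'
  refine ⟨m⁻¹ * K, by positivity, ?_⟩
  intro f hf hb hs
  obtain ⟨h, h1, h2, h3⟩ := H (fun j z => (m:ℂ)⁻¹ * f j z) (fun j => (hf j).const_mul _)
    (by
      intro j z hz
      rw [norm_mul, norm_inv, norm_real, Real.norm_eq_abs, abs_of_pos hm0]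
      have h1 : ‖f j z‖ ≤ m := (hb j z hz).trans (le_max_left _ _)
      rw [inv_mul_le_iff₀ hm0, mul_one]
      exact h1)
    (by
      intro z hz
      have h1 := hs z hz
      simp only [norm_mul, norm_inv, norm_real, Real.norm_eq_abs, abs_of_pos hm0, mul_pow]
      rw [← Finset.mul_sum, div_eq_inv_mul, inv_pow]
      gcongr)
  refine ⟨fun j z => (m:ℂ)⁻¹ * h j z, fun j => (h1 j).const_mul _, ?_, ?_⟩
  · intro j z hz
    rw [norm_mul, norm_inv, norm_real, Real.norm_eq_abs, abs_of_pos hm0]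
    have := h2 j z hz
    gcongr
  · intro z hz
    rw [← h3 z hz]
    refine Finset.sum_congr rfl fun j _ => ?_
    ring

/-- **Carleson's corona theorem** on the unit disc. -/
theorem corona_disc {N : ℕ} (f : Fin N → ℂ → ℂ) (hf : ∀ j, DifferentiableOn ℂ (f j) (ball 0 1))
    (M : ℝ) (hb : ∀ j, ∀ z ∈ ball (0:ℂ) 1, ‖f j z‖ ≤ M) (d : ℝ) (hd : 0 < d)
    (hcor : ∀ z ∈ ball (0:ℂ) 1, d ≤ ∑ j, ‖f j z‖^2) :
    ∃ h : Fin N → ℂ → ℂ, (∀ j, DifferentiableOn ℂ (h j) (ball 0 1)) ∧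
      (∃ C : ℝ, ∀ j, ∀ z ∈ ball (0:ℂ) 1, ‖h j z‖ ≤ C) ∧
      ∀ z ∈ ball (0:ℂ) 1, ∑ j, f j z * h j z = 1 := by
  obtain ⟨K, -, H⟩ := corona_disc_unif (Fin N) M hd
  obtain ⟨h, h1, h2, h3⟩ := H f hf hb hcor
  exact ⟨h, h1, ⟨K, h2⟩, h3⟩

end

end Pool.Agent.MPca0fc2
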