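import Mathlib
import Pool.Agent.Lib.MP_ca0fc2_an.Mg.G055
import Pool.Agent.Lib.MP_ca0fc2_an.Mg.G018
import Pool.Agent.Lib.MP_ca0fc2_an.QTGrp
import Pool.Agent.Lib.MP_ca0fc2_an.Mg.G016
import Pool.Agent.Lib.MP_ca0fc2_an.Mg.G017
import Pool.Agent.Lib.MP_ca0fc2_an.Mg.G012
import Pool.Agent.Lib.MP_ca0fc2_an.Defs
import Pool.Agent.Lib.MP_ca0fc2_an.Mg.G129
import Pool.Agent.Lib.MP_ca0fc2_an.Mg.G023
import Pool.Agent.Lib.MP_ca0fc2_an.Mg.G008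

set_option autoImplicit false
set_option linter.unusedSectionVars false

open Metric Set MeasureTheory Filter Topology
open scoped InnerProductSpace ENNReal

namespace Pool.Agent.MPca0fc2.QS

open Pool.Agent.MPca0fc2.PT
open Pool.Agent.MPca0fc2.QT

variable {E : Type*} [NormedAddCommGroup E] [InnerProductSpace ℂ E]
variable {V : Type*} [NormedAddCommGroup V] [NormedSpace ℂ V]

/-- the invariance of the anisotropic length -/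
theorem gau_gg_inv [FiniteDimensional ℂ E] {z x v : E} (hz : ‖z‖ < 1) (hx : ‖x‖ < 1) :
    gau (1 - ‖gg z x‖ ^ 2) (gg z x) (gg' z x v) ≤ 6 * ‖gg' (-x) x v‖ := by
  obtain ⟨U, -, -, h3⟩ := gg_comp hz hx
  have h4 := h3 0 (by simp) (gg' (-x) x v)
  rw [gg_zero, gg'_inv' hx, map_zero] at h4
  have hw := gg_lt hz hx
  have h5 := gau_gg (z := gg z x) (x := 0) (v := U (gg' (-x) x v)) hw (by simp)
  rw [gg_zero, ← h4, LinearIsometryEquiv.norm_map] at h5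
  simpa using h5

theorem gg_neg_self' {z : E} (hz : ‖z‖ < 1) : gg (-z) z = 0 := by
  have := gg_neg_gg hz (x := 0) (by simp)
  rwa [gg_zero] at this

/-- vectors orthogonal to the radius -/
theorem gg'_neg_perp {x v : E} (hx : ‖x‖ < 1) (hv : ⟪x, v⟫_ℂ = 0) :
    ‖gg' (-x) x v‖ = ‖v‖ / Real.sqrt (1 - ‖x‖ ^ 2) := by
  have hx2 : 0 < 1 - ‖x‖ ^ 2 := by nlinarith [norm_nonneg x]
  have h1 : gg' (-x) x v = ((1 - ‖x‖ ^ 2 : ℝ) : ℂ)⁻¹ • AA x v := by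
    rw [gg', gg_neg_self' hx]
    have h2 : (1 : ℂ) + ⟪-x, x⟫_ℂ = ((1 - ‖x‖ ^ 2 : ℝ) : ℂ) := by
      rw [inner_neg_left, geo_self]
      push_cast
      ring
    rw [h2]
    simp [geo_AA_neg]
  rw [h1, norm_smul, norm_inv, Complex.norm_real, Real.norm_of_nonneg hx2.le]
  have h3 := geo_dist_sq hx.le v
  rw [hv, norm_zero] at h3
  have h4 : ‖AA x v‖ = Real.sqrt (1 - ‖x‖ ^ 2) * ‖v‖ := by
    have h5 : ‖AA x v‖ ^ 2 = (Real.sqrt (1 - ‖x‖ ^ 2) * ‖v‖) ^ 2 := by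
      rw [h3, mul_pow, Real.sq_sqrt hx2.le]
      ring
    exact (pow_left_inj₀ (norm_nonneg _) (by positivity) two_ne_zero).mp h5
  rw [h4]
  have hs : 0 < Real.sqrt (1 - ‖x‖ ^ 2) := Real.sqrt_pos.mpr hx2
  have hss : Real.sqrt (1 - ‖x‖ ^ 2) * Real.sqrt (1 - ‖x‖ ^ 2) = 1 - ‖x‖ ^ 2 :=
    Real.mul_self_sqrt hx2.le
  rw [eq_div_iff hs.ne']
  calc (1 - ‖x‖ ^ 2)⁻¹ * (Real.sqrt (1 - ‖x‖ ^ 2) * ‖v‖) * Real.sqrt (1 - ‖x‖ ^ 2)
      = (Real.sqrt (1 - ‖x‖ ^ 2) * Real.sqrt (1 - ‖x‖ ^ 2)) * (1 - ‖x‖ ^ 2)⁻¹ * ‖v‖ := by ring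
    _ = ‖v‖ := by rw [hss, mul_inv_cancel₀ hx2.ne', one_mul]

theorem gau_gg_perp [FiniteDimensional ℂ E] {z x v : E} (hz : ‖z‖ < 1) (hx : ‖x‖ < 1)
    (hv : ⟪x, v⟫_ℂ = 0) :
    gau (1 - ‖gg z x‖ ^ 2) (gg z x) (gg' z x v) ≤ 6 * ‖v‖ / Real.sqrt (1 - ‖x‖ ^ 2) := by
  refine (gau_gg_inv hz hx).trans (le_of_eq ?_)
  rw [gg'_neg_perp hx hv]
  ring

/-- the orthogonal part -/
theorem perp_part (ξ v : E) : ∃ (c : ℂ) (u : E), v = u + c • ξ ∧ ⟪ξ, u⟫_ℂ = 0 ∧ ‖u‖ ≤ ‖v‖ := by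
  by_cases hξ : ξ = 0
  · exact ⟨0, v, by simp, by simp [hξ], le_rfl⟩
  have hξ2 : ⟪ξ, ξ⟫_ℂ ≠ 0 := inner_self_ne_zero.mpr hξ
  refine ⟨⟪ξ, v⟫_ℂ / ⟪ξ, ξ⟫_ℂ, v - (⟪ξ, v⟫_ℂ / ⟪ξ, ξ⟫_ℂ) • ξ, by abel, ?_, ?_⟩
  · rw [inner_sub_right, inner_smul_right, div_mul_cancel₀ _ hξ2, sub_self]
  · obtain ⟨c, hc⟩ : ∃ c : ℂ, c = ⟪ξ, v⟫_ℂ / ⟪ξ, ξ⟫_ℂ := ⟨_, rfl⟩
    rw [← hc]
    have h0 : ⟪v - c • ξ, c • ξ⟫_ℂ = 0 := by
      rw [inner_smul_right, ← inner_conj_symm, inner_sub_right, inner_smul_right, hc,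
        div_mul_cancel₀ _ hξ2, sub_self, map_zero, mul_zero]
    have h1 := norm_add_sq_eq_norm_sq_add_norm_sq_of_inner_eq_zero (𝕜 := ℂ) _ _ h0
    rw [sub_add_cancel] at h1
    nlinarith [norm_nonneg (v - c • ξ), norm_nonneg v, norm_nonneg (c • ξ)]

/-- a conjugate linear form with two complex dependent entries -/
theorem anti_perp {q : ℕ} {P : E [⋀^Fin (q + 2)]→L[ℝ] V} (hP : Anti P) (ξ : E)
    (v : Fin (q + 1) → E) (c : ℂ) (u : E) (hu : v 0 = u + c • ξ) :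
    P.curryLeft ξ v = P.curryLeft ξ (Function.update v 0 u) := by
  have hQ : Anti (P.curryLeft ξ) := hP.curryLeft ξ
  have h1 : v = Function.update v 0 (u + c • ξ) := by rw [← hu, Function.update_eq_self]
  have h2 : P.curryLeft ξ (Function.update v 0 (u + c • ξ)) =
      P.curryLeft ξ (Function.update v 0 u) + P.curryLeft ξ (Function.update v 0 (c • ξ)) :=
    (P.curryLeft ξ).map_update_add v 0 u (c • ξ)
  have h3 : P.curryLeft ξ (Function.update v 0 ξ) = 0 := by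
    have h4 : P.curryLeft ξ (Function.update v 0 ξ) =
        P (Matrix.vecCons ξ (Function.update v 0 ξ)) := rfl
    rw [h4]
    refine P.map_eq_zero_of_eq _ (i := 0) (j := 1) ?_ (by simp)
    have h5 : (1 : Fin (q + 2)) = Fin.succ 0 := rfl
    rw [h5, Matrix.cons_val_zero, Matrix.cons_val_succ, Function.update_self]
  conv_lhs => rw [h1]
  rw [h2, hQ.smul_slot v 0 c ξ, h3, smul_zero, add_zero]

end Pool.Agent.MPca0fc2.QS
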