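import Mathlib
import Pool.Agent.Lib.MP_ca0fc2_an.QSa

set_option autoImplicit false
set_option linter.unusedSectionVars false

open Metric Set MeasureTheory Filter Topology
open scoped InnerProductSpace ENNReal

namespace Pool.Agent.MPca0fc2.QS

open Pool.Agent.MPca0fc2.PT
open Pool.Agent.MPca0fc2.QT

variable {E : Type*} [NormedAddCommGroup E] [InnerProductSpace ℂ E]
variable {V : Type*} [NormedAddCommGroup V] [NormedSpace ℂ V]

/-- the integral of the radial factor -/
theorem radial_34 :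
    ∫⁻ r in Icc (0 : ℝ) 1, ENNReal.ofReal ((1 / (1 - r)) ^ (3 / 4 : ℝ)) ≤ ENNReal.ofReal 4 := by
  have h0 : IntervalIntegrable (fun r : ℝ => (1 - r) ^ (-(3 / 4) : ℝ)) volume 0 1 := by
    have h := (intervalIntegral.intervalIntegrable_rpow' (a := 0) (b := 1)
      (r := (-(3 / 4) : ℝ)) (by norm_num)).comp_sub_left 1
    simpa using h.symm
  have h1 : ∫ r in (0 : ℝ)..1, (1 - r) ^ (-(3 / 4) : ℝ) = 4 := by
    rw [intervalIntegral.integral_comp_sub_left (fun x : ℝ => x ^ (-(3 / 4) : ℝ)) 1, sub_self,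
      sub_zero, integral_rpow (Or.inl (by norm_num))]
    norm_num
  rw [intervalIntegral.integral_of_le zero_le_one, ← integral_Icc_eq_integral_Ioc] at h1
  rw [intervalIntegrable_iff_integrableOn_Icc_of_le zero_le_one] at h0
  have h3 : ENNReal.ofReal 4 = ∫⁻ r in Icc (0 : ℝ) 1, ENNReal.ofReal ((1 - r) ^ (-(3 / 4) : ℝ)) := by
    rw [← ofReal_integral_eq_lintegral_ofReal h0, h1]
    refine (ae_restrict_iff' measurableSet_Icc).mpr (Eventually.of_forall fun r hr => ?_)
    have h2 : 0 ≤ 1 - r := by linarith [hr.2]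
    exact Real.rpow_nonneg h2 _
  rw [h3]
  refine setLIntegral_mono' measurableSet_Icc fun r hr => ?_
  apply ENNReal.ofReal_le_ofReal
  have h2 : 0 ≤ 1 - r := by linarith [hr.2]
  rw [Real.rpow_neg h2, one_div, Real.inv_rpow h2]

variable [FiniteDimensional ℂ E] [MeasurableSpace E] [BorelSpace E]

end Pool.Agent.MPca0fc2.QS
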