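import Mathlib
import Pool.Agent.Lib.MP_ca0fc2_an.Mg.G022
import Pool.Agent.Lib.MP_ca0fc2_an.Mg.G015
import Pool.Agent.Lib.MP_ca0fc2_an.Mg.G008
import Pool.Agent.Lib.MP_ca0fc2_an.Mg.G023
import Pool.Agent.Lib.MP_ca0fc2_an.QTCmp
import Pool.Agent.Lib.MP_ca0fc2_an.QTCov
import Pool.Agent.Lib.MP_ca0fc2_an.Mg.G019
import Pool.Agent.Lib.MP_ca0fc2_an.Mg.G016

set_option autoImplicit false

open Metric Set MeasureTheory Filter Topology
open scoped InnerProductSpace ENNReal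

namespace Pool.Agent.MPca0fc2.QT

open Pool.Agent.MPca0fc2.PT

variable {E : Type*} [NormedAddCommGroup E] [InnerProductSpace ℂ E]
variable [FiniteDimensional ℂ E] [MeasurableSpace E] [BorelSpace E]
variable {V : Type*} [NormedAddCommGroup V] [NormedSpace ℂ V]
variable {ι : Type} [Fintype ι] {d N m : ℕ}
variable {θ ϑ : ℝ} {P : ℕ} {c ρ C₀ p M A ρ₀ C₁ L : ℝ}

/-- the invariant of the recursion -/
structure Good (K : Car (Fin N → ℂ) V) (ν : Measure E) (f : Fin N → E → ℂ) (u : Fin d → E → ℂ)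
    (s : ι → E → Fin N → ℂ) (χ : ι → (Fin d → ℂ) → ℝ) (θ ϑ c ρ e : ℝ) (D : ℕ → ℝ) (k : ℕ)
    (W : (r : ℕ) → E → E [⋀^Fin r]→L[ℝ] V) : Prop where
  c1 : ∀ r, ContDiffOn ℝ 1 (W r) (ball 0 (RA θ k))
  anti : ∀ r, ∀ w ∈ ball (0 : E) (RA θ k), Anti (W r w)
  eq : ∀ r, ∀ w ∈ ball (0 : E) (RA θ k), db (W r) w =
    UU K (sk χ ν u θ ϑ c ρ s k k) (r + 1) w -
      opc E V (r + 1) (K.c (FF f θ k w)) (W (r + 1) w)
  bd : ∀ r, Bd ν θ ϑ k (RA θ k) (D (r + 1)) (-e) (W (r + 1))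

omit [FiniteDimensional ℂ E] [MeasurableSpace E] [BorelSpace E] in
theorem opc_c1 {q : ℕ} {G : E → V →L[ℂ] V} {η : E → E [⋀^Fin q]→L[ℝ] V} {w : E}
    (hG : ContDiffAt ℝ 1 G w) (hη : ContDiffAt ℝ 1 η w) :
    ContDiffAt ℝ 1 (fun w => opc E V q (G w) (η w)) w := by
  have h0 : ContDiff ℝ 1 (fun A : V →L[ℂ] V => opc E V q A) := by fun_prop
  have h2 : ContDiffAt ℝ 1 (fun w => opc E V q (G w)) w := h0.contDiffAt.comp w hG
  exact h2.clm_apply hη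

theorem holo_c1' {Y : Type*} [NormedAddCommGroup Y] [NormedSpace ℂ Y] [FiniteDimensional ℂ Y]
    {F : E → Y} {U : Set E} (hU : IsOpen U) (hF : DifferentiableOn ℂ F U) :
    ContDiffOn ℝ 1 F U := by
  have b := Module.finBasis ℂ Y
  have h1 : ∀ i, ContDiffOn ℝ 1 (fun w => b.equivFunL (F w) i) U := by
    intro i
    apply PT.holo_c1 hU
    have h2 : DifferentiableOn ℂ (fun w => b.equivFunL (F w)) U :=
      (b.equivFunL : Y →L[ℂ] (Fin (Module.finrank ℂ Y) → ℂ)).differentiable.comp_differentiableOn hF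
    exact (differentiableOn_pi.mp h2) i
  have h3 : ContDiffOn ℝ 1 (fun w => b.equivFunL (F w)) U := contDiffOn_pi.mpr h1
  have h4 : ContDiffOn ℝ 1 (fun w => b.equivFunL.symm (b.equivFunL (F w))) U :=
    ((b.equivFunL.symm : (Fin (Module.finrank ℂ Y) → ℂ) →L[ℂ] Y).restrictScalars
      ℝ).contDiff.comp_contDiffOn h3
  exact h4.congr fun w _ => by simp

end Pool.Agent.MPca0fc2.QT
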