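import Mathlib
import Pool.Agent.Lib.MP_ca0fc2_an.Mg.G022

set_option autoImplicit false

open Metric Set MeasureTheory Filter Topology
open scoped InnerProductSpace ENNReal

namespace Pool.Agent.MPca0fc2.QT

open Pool.Agent.MPca0fc2.PT

/-- dependent choice -/
theorem seq_of_step {α : Type*} (G : ℕ → α → Prop) (R : ℕ → α → α → Prop) (a0 : α) (h0 : G 0 a0)
    (hs : ∀ k a, G k a → ∃ a', G (k + 1) a' ∧ R k a a') :
    ∃ a : ℕ → α, a 0 = a0 ∧ ∀ k, G k (a k) ∧ R k (a k) (a (k + 1)) := by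
  choose! nx hnx using hs
  let a : ℕ → α := fun k => Nat.rec a0 (fun k b => nx k b) k
  have ha : ∀ k, G k (a k) := by
    intro k
    induction k with
    | zero => exact h0
    | succ k ih => exact (hnx k (a k) ih).1
  exact ⟨a, rfl, fun k => ⟨ha k, (hnx k (a k) (ha k)).2⟩⟩

section gen

variable {E : Type*} [NormedAddCommGroup E] [InnerProductSpace ℂ E]
variable {V : Type*} [NormedAddCommGroup V] [NormedSpace ℂ V]
variable {Y : Type*} [NormedAddCommGroup Y] [NormedSpace ℂ Y]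

/-- the form of degree `0` -/
noncomputable def Ph (K : Car Y V) (σ : E → Y) (F : E → Y →L[ℂ] ℂ)
    (W : (r : ℕ) → E → E [⋀^Fin r]→L[ℝ] V) (w : E) : E [⋀^Fin 0]→L[ℝ] V :=
  UU K σ 0 w - opc E V 0 (K.c (F w)) (W 0 w)

theorem db_Ph (K : Car Y V) {σ : E → Y} {F : E → Y →L[ℂ] ℂ}
    {W : (r : ℕ) → E → E [⋀^Fin r]→L[ℝ] V} {w : E} (h : SolAt σ F w)
    (hW : DifferentiableAt ℝ (W 0) w)
    (he : db (W 0) w = UU K σ 1 w - opc E V 1 (K.c (F w)) (W 1 w)) :
    db (Ph K σ F W) w = 0 := by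
  have e : Ph K σ F W = fun w => UU K σ 0 w - opc E V 0 (K.c (F w)) (W 0 w) := rfl
  rw [e, db_sub (UU_diffAt K h 0) (opc_diffAt (cF_hol K h.hol) hW),
    db_opc_holo (cF_hol K h.hol) hW, he, map_sub, db_UU K h.c2,
    c_UU K h.one h.zero, opcc_self]
  simp

theorem Ph_diff (K : Car Y V) {σ : E → Y} {F : E → Y →L[ℂ] ℂ}
    {W : (r : ℕ) → E → E [⋀^Fin r]→L[ℝ] V} {w : E} (h : SolAt σ F w)
    (hW : DifferentiableAt ℝ (W 0) w) : DifferentiableAt ℝ (Ph K σ F W) w :=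
  (UU_diffAt K h 0).sub (opc_diffAt (cF_hol K h.hol) hW)

theorem c_Ph (K : Car Y V) {σ : E → Y} {F : E → Y →L[ℂ] ℂ}
    {W : (r : ℕ) → E → E [⋀^Fin r]→L[ℝ] V} {w : E} (h : SolAt σ F w) (v : Fin 0 → E) :
    K.c (F w) (Ph K σ F W w v) = K.Ω := by
  have e1 : K.c (F w) (Ph K σ F W w v) = opc E V 0 (K.c (F w)) (Ph K σ F W w) v := by
    rw [opc_apply]
  have e2 : opc E V 0 (K.c (F w)) (Ph K σ F W w) = Pw K (D01 σ w) 0 := by
    unfold Ph
    rw [map_sub, c_UU K h.one h.zero, opcc_self, sub_zero]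
  rw [e1, e2]
  rfl

/-- evaluation of a form of degree `0` -/
noncomputable def evz (E : Type*) [NormedAddCommGroup E] [InnerProductSpace ℂ E]
    (V : Type*) [NormedAddCommGroup V] [NormedSpace ℂ V] : (E [⋀^Fin 0]→L[ℝ] V) →L[ℝ] V :=
  ContinuousAlternatingMap.apply ℝ E V (fun i : Fin 0 => i.elim0)

theorem evz_apply (η : E [⋀^Fin 0]→L[ℝ] V) (v : Fin 0 → E) : evz E V η = η v := by
  have : v = fun i : Fin 0 => i.elim0 := funext fun i => i.elim0
  rw [this]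
  rfl

theorem holo_of_db {η : E → E [⋀^Fin 0]→L[ℝ] V} {w : E} (h : DifferentiableAt ℝ η w)
    (h0 : db η w = 0) : DifferentiableAt ℂ (fun w => evz E V (η w)) w := by
  have h1 : HasFDerivAt (fun w => evz E V (η w)) ((evz E V).comp (fderiv ℝ η w)) w :=
    (evz E V).hasFDerivAt.comp w h.hasFDerivAt
  apply holo_of_D01 h1.differentiableAt
  ext v
  rw [D01_apply, h1.fderiv]
  have h2 : db η w (fun _ => v) = 0 := by rw [h0]; rfl
  unfold db at h2
  rw [ContinuousAlternatingMap.alternatizeUncurryFin_apply] at h2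
  rw [Fin.sum_univ_one, d1_apply] at h2
  have e : ∀ x : Fin 0 → E, x = fun i : Fin 0 => i.elim0 := fun x => funext fun i => i.elim0
  rw [e (Fin.removeNth 0 fun _ => v)] at h2
  have e2 : ((-1 : ℤ)) ^ (((0 : Fin (0 + 1))) : ℕ) = 1 := by simp
  rw [e2, one_smul] at h2
  exact h2

end gen

end Pool.Agent.MPca0fc2.QT
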