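import Mathlib
import Pool.Agent.Lib.MP_ca0fc2_an.Mg.G011

set_option autoImplicit false

open Metric Set MeasureTheory Filter Topology
open scoped InnerProductSpace ENNReal

namespace Pool.Agent.MPca0fc2.DA

open Pool.Agent.Lib.MP_ca0fc2_an
open Pool.Agent.MPca0fc2.PT

variable {E : Type*} [NormedAddCommGroup E] [InnerProductSpace ℂ E]
variable [FiniteDimensional ℂ E]

omit [FiniteDimensional ℂ E] in
theorem gg_isAut {w : E} (hw : ‖w‖ < 1) : IsBallAut (gg w) (gg (-w)) := by
  have hw' : ‖-w‖ < 1 := by rwa [norm_neg]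
  refine ⟨CG.gg_holo hw, CG.gg_holo hw', fun z hz => CG.gg_maps hw hz,
    fun z hz => CG.gg_maps hw' hz, ?_, ?_⟩
  · intro z hz
    exact gg_neg_gg hw (mem_ball_zero_iff.mp hz).le
  · intro z hz
    exact CG.gg_gg_neg hw (mem_ball_zero_iff.mp hz).le

/-- Moebius invariance of the invariant gradient -/
theorem IG_gg_le {u : E → ℂ} (hu : DifferentiableOn ℂ u (ball 0 1)) {w x : E} (hw : ‖w‖ < 1)
    (hx : ‖x‖ < 1) : IG2 u (gg w x) ≤ IG2 (fun y => u (gg w y)) x := by
  have hw' : ‖-w‖ < 1 := by rwa [norm_neg]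
  have h1 := CG.IG_aut (gd_diff hu hw) (gg_isAut hw') (z := gg w x) (gg_lt hw hx)
  rw [gg_neg_gg hw hx.le] at h1
  refine le_trans (le_of_eq ?_) h1
  have h2 : fderiv ℂ (fun x => u (gg w (gg (-w) x))) (gg w x) = fderiv ℂ u (gg w x) := by
    apply Filter.EventuallyEq.fderiv_eq
    filter_upwards [isOpen_ball.mem_nhds (mem_ball_zero_iff.mpr (gg_lt hw hx))] with y hy
    rw [CG.gg_gg_neg hw (mem_ball_zero_iff.mp hy).le]
  simp only [IG2]
  rw [h2]

variable [MeasurableSpace E] [BorelSpace E]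

theorem DA_carl (μ : Measure E) [μ.IsAddHaarMeasure] {m : ℕ}
    (hdim : Module.finrank ℂ E = m + 1) : ∃ A : ℝ, 0 < A ∧ ∀ u : E → ℂ, DAMultiplier 1 u →
    Carl (nu μ m (2 * (m + 7)) u) A := by
  obtain ⟨A, hA, h⟩ := DA_star μ hdim
  refine ⟨A, hA, fun u hu => ⟨hA.le, ?_, ?_⟩⟩
  · unfold nu
    rw [withDensity_apply _ measurableSet_ball.compl, Measure.restrict_restrict measurableSet_ball.compl,
      compl_inter_self, Measure.restrict_empty, lintegral_zero_measure]
  · intro w hw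
    have hw1 := mem_ball_zero_iff.mp hw
    have hd := hu.1
    rw [nu, lintegral_withDensity_eq_lintegral_mul]
    rotate_left
    · apply ENNReal.measurable_ofReal.comp
      exact ((gd_IG_meas u).pow_const _).div
        ((measurable_const.sub (measurable_norm.pow_const 2)).pow_const (m + 2))
    · exact ENNReal.measurable_ofReal.comp (gd_HH_meas w)
    rw [lintegral_gg μ hdim hw1]
    refine le_trans ?_ (h (fun y => u (gg w y)) (DAMultiplier_gg hu hw1))
    apply setLIntegral_mono' measurableSet_ball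
    intro x hx
    rw [mem_ball_zero_iff] at hx
    simp only [Pi.mul_apply]
    have hgx := gg_lt hw1 hx
    have h1 : HH w (gg w x) = 1 - ‖x‖ ^ 2 := by
      have h2 := HH_gg hw1 (x := (0 : E)) (y := x) (by simp) hx
      rw [gg_zero] at h2
      rw [h2, HH]
      simp
    have h3 := norm_gg hw1 hx.le
    have hpos : 0 < 1 - ‖x‖ ^ 2 := by nlinarith [norm_nonneg x]
    have hpos2 : 0 < 1 - ‖w‖ ^ 2 := by nlinarith [norm_nonneg w]
    have hpos3 : 0 < ‖1 + ⟪w, x⟫_ℂ‖ := norm_pos_iff.mpr (one_add_ne hw1 hx.le)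
    have hIG := IG_gg_le hd hw1 hx
    have hIG0 : 0 ≤ IG2 u (gg w x) := gd_IG_nonneg hgx
    have hpw : IG2 u (gg w x) ^ ((2 * (m + 7) : ℝ) / 2) = IG2 u (gg w x) ^ (m + 7) := by
      rw [← Real.rpow_natCast]
      congr 1
      push_cast; ring
    rw [h1, h3, hpw, ← ENNReal.ofReal_mul (by positivity), ← ENNReal.ofReal_mul (by positivity)]
    apply ENNReal.ofReal_le_ofReal
    calc _ = IG2 u (gg w x) ^ (m + 7) / (1 - ‖x‖ ^ 2) ^ (m + 1) := by
          rw [div_pow, div_pow, mul_pow]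
          field_simp
          ring
      _ ≤ _ := by gcongr

end Pool.Agent.MPca0fc2.DA
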