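import Mathlib
import Pool.Agent.Lib.MP_ca0fc2_an.Mg.G008
import Pool.Agent.Lib.MP_ca0fc2_an.Mg.G049
import Pool.Agent.Lib.MP_ca0fc2_an.Mg.G048

/-! The Schwarz-Pick lemma for holomorphic maps of balls. -/

set_option autoImplicit false

open Metric Set MeasureTheory Filter Topology
open scoped InnerProductSpace ENNReal

namespace Pool.Agent.MPca0fc2.CP

open Pool.Agent.MPca0fc2.PT

variable {E G : Type*} [NormedAddCommGroup E] [InnerProductSpace ℂ E]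
  [NormedAddCommGroup G] [InnerProductSpace ℂ G]

theorem one_sub_pos {y : E} (hy : ‖y‖ < 1) : 0 < 1 - ‖y‖ ^ 2 := by nlinarith [norm_nonneg y]

theorem BB_nonneg (y X : E) : 0 ≤ BB y X := Real.sqrt_nonneg _

theorem BB_sq {y : E} (hy : ‖y‖ < 1) (X : E) :
    BB y X ^ 2 = ‖X‖ ^ 2 / (1 - ‖y‖ ^ 2) + ‖⟪y, X⟫_ℂ‖ ^ 2 / (1 - ‖y‖ ^ 2) ^ 2 := by
  have := one_sub_pos hy
  unfold BB
  exact Real.sq_sqrt (by positivity)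

theorem gg'_zero {z v : E} : gg' z 0 v = AA z v - ⟪z, v⟫_ℂ • z := by
  simp [gg', gg_zero, innerSL_apply_apply]

theorem BB_gg {z v : E} (hz : ‖z‖ < 1) : BB z (gg' z 0 v) = ‖v‖ := by
  have h := one_sub_pos hz
  have h1 : ⟪z, gg' z 0 v⟫_ℂ = ((1 - ‖z‖ ^ 2 : ℝ) : ℂ) * ⟪z, v⟫_ℂ := by
    rw [gg'_zero, inner_sub_right, inner_smul_right, geo_inner_AA hz.le, geo_self]
    push_cast
    ring
  have h2 : ‖gg' z 0 v‖ ^ 2 = (1 - ‖z‖ ^ 2) * (‖v‖ ^ 2 - ‖⟪z, v⟫_ℂ‖ ^ 2) := by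
    have e1 : ⟪AA z v, ⟪z, v⟫_ℂ • z⟫_ℂ = ((‖⟪z, v⟫_ℂ‖ ^ 2 : ℝ) : ℂ) := by
      rw [inner_smul_right, geo_inner_AA' hz.le, ← inner_conj_symm v z, Complex.mul_conj,
        Complex.normSq_eq_norm_sq]
    have e2 : (⟪AA z v, ⟪z, v⟫_ℂ • z⟫_ℂ).re = ‖⟪z, v⟫_ℂ‖ ^ 2 := by
      rw [e1, Complex.ofReal_re]
    have e3 : ‖gg' z 0 v‖ ^ 2 = ‖AA z v‖ ^ 2 - 2 * (⟪AA z v, ⟪z, v⟫_ℂ • z⟫_ℂ).re +
        ‖⟪z, v⟫_ℂ • z‖ ^ 2 := by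
      rw [gg'_zero, @norm_sub_sq ℂ]
      rfl
    rw [e3, e2, geo_dist_sq hz.le, norm_smul, mul_pow]
    ring
  apply (sq_eq_sq₀ (BB_nonneg _ _) (norm_nonneg _)).mp
  rw [BB_sq hz, h1, h2, norm_mul, Complex.norm_real, Real.norm_eq_abs, abs_of_pos h, mul_pow]
  field_simp
  ring

end Pool.Agent.MPca0fc2.CP
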