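import Mathlib
import Pool.Agent.Lib.MP_ca0fc2_an.Mg.G080
import Pool.Agent.Lib.MP_ca0fc2_an.Mg.G084

/-!
Task CX KC: the kernel property.
PROOF. Let `q w = c₁ (‖A w z‖ + ‖A z w‖)`, `δ = -ρ`. Constants: `δ z ≤ C (1 - g z) ≤ C t / 8`, and
`1 - g w ≤ C δ w`, `δ w ≤ C (1 - g w)` (`g_comp`); `‖A w z‖ ≥ c δ z ≥ c t` (since `1 - g z ≥ t/40`); `q w ≤ C ‖A w z‖`
(`A_lower`). Let `Q` be a bound of `q` on `D × D`.
Case 1: `t X > Q`. Then `Φ` is holomorphic and bounded on `D`, `P Φ z = Φ z` (`repro`), and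
`‖P F z - P Φ z‖ ≤ C ∫_D G' √(t (q+t)) δ^(-1) δ^m ‖A‖^(-(m+n+1)) ≤ C G' √t ∫_{‖A‖ ≥ c t} ‖A‖^(-(n+1)-1/2) ≤ C G'`
(`ker_bound`, `δ w ≤ C ‖A‖`, `√(q + t) ≤ C ‖A‖^(1/2)`, `int_far` with `s = 1/2`).
Case 2: `t X ≤ Q`. Let `R = min (t X) 1`, `κ = 1/(4 c₁)`, `ε = ε₀` from `cut_near κ` made smaller so that
it also works; on `{h ≤ 9 ε²} ∩ D`: `q ≤ 2 c₁ δ z + 2 c₁ κ R ≤ (1 - g z) + R/2 ≤ t/8 + R/2 < t X` (`R ≤ t X`, `8 ≤ X`).
So `Φ` is holomorphic, bounded there. `kap * (P F z - Φ z) = ∫ (F - χ Φ) K + (∫ χ Φ K - kap Φ z)`,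
`F - χ Φ = χ (F - Φ) + (1 - χ) F`. First part as in case 1 (on the support of `χ`). Second part: `1 - χ`
vanishes for `h ≤ ε²`, outside `‖A w z‖ ≥ c R` (`cut_far`), so it is `≤ C G t ∫_{‖A‖ ≥ c R} ‖A‖^(-(n+1)-1) ≤
C G t / R`. Third part: `loc_err` with `Mb = C (G t + G' √(t R))` (`δ ‖Φ‖ ≤ C (1-g) (‖F‖ + ‖F - Φ‖)`,
`q + t ≤ C R` there), gives `C (G t / R + G' √(t/R))`. Finally `t/R ≤ max (1/X) t ≤ (1 + Q)/X ≤ C / √X`, `t ≤ R`
(so `K` in `loc_err`: `δ z ≤ C t ≤ C R`). Note `g z ≥ 1 - t/8 ≥ 7/8`.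
Measurability: `F`, the kernel, `χ` are continuous on `D`, `Φ` on the open slab.
-/

set_option autoImplicit false

open Metric Set MeasureTheory Filter Topology
open scoped ComplexOrder

namespace Pool.Agent.MPca0fc2.CX

namespace Dm

variable {n : ℕ} (𝓓 : Dm n)

theorem kC_pt {m : ℕ} (hm : 2 ≤ m) : ∃ C : ℝ, 0 < C ∧ ∀ (z w : En n) (Ψ : ℂ) (B : ℝ),
    𝓓.ρ z ≤ 0 → 𝓓.ρ w < 0 → (1 - 𝓓.g w) * ‖Ψ‖ ≤ B →
    ‖Ψ * (fp m 𝓓.th z w * Om 𝓓.th w)‖ ≤ C * B * ‖𝓓.A w z‖ ^ (-((n + 1 : ℝ) + 1)) := by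
  obtain ⟨m', rfl⟩ : ∃ m', m = m' + 1 := ⟨m - 1, by omega⟩
  obtain ⟨Cg, hCg, hg⟩ := 𝓓.g_comp
  obtain ⟨CA, hCA, hA⟩ := 𝓓.A_lower
  obtain ⟨CK, hCK, hK⟩ := 𝓓.ker_bound (m' + 1)
  have hCg0 : 0 < Cg := by linarith
  have hCA0 : 0 < CA := by linarith
  refine ⟨CK * Cg * CA ^ m', by positivity, ?_⟩
  intro z w Ψ B hz hw hB
  have h1 := hK w z hw hz
  have h2 := (hg w hw.le).2
  have h3 := (hA w z hw.le hz).1
  have hδ : 0 < -𝓓.ρ w := by linarith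
  have hg1 : 0 ≤ 1 - 𝓓.g w := by
    have := (𝓓.g_le_one w).mpr hw.le
    linarith
  have hB0 : 0 ≤ B := le_trans (mul_nonneg hg1 (norm_nonneg _)) hB
  set a : ℝ := ‖𝓓.A w z‖ with ha
  have ha0 : 0 < a := by
    by_contra h
    push Not at h
    have := mul_nonneg_iff_of_pos_left hCA0 |>.mpr (norm_nonneg (𝓓.A w z))
    nlinarith
  have e1 : (-𝓓.ρ w) * ‖Ψ‖ ≤ Cg * B := by
    calc (-𝓓.ρ w) * ‖Ψ‖ ≤ (Cg * (1 - 𝓓.g w)) * ‖Ψ‖ := mul_le_mul_of_nonneg_right h2 (norm_nonneg _)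
      _ = Cg * ((1 - 𝓓.g w) * ‖Ψ‖) := by ring
      _ ≤ _ := mul_le_mul_of_nonneg_left hB hCg0.le
  have e2 : a ^ (-((n + 1 : ℝ) + 1)) = (a ^ (n + 2))⁻¹ := by
    rw [Real.rpow_neg ha0.le]
    congr 1
    have : ((n + 1 : ℝ) + 1) = ((n + 2 : ℕ) : ℝ) := by push_cast; ring
    rw [this, Real.rpow_natCast]
  rw [e2, norm_mul]
  calc ‖Ψ‖ * ‖fp (m' + 1) 𝓓.th z w * Om 𝓓.th w‖
      ≤ ‖Ψ‖ * (CK * ((-𝓓.ρ w) ^ (m' + 1) / a ^ (m' + 1 + n + 1))) :=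
        mul_le_mul_of_nonneg_left h1 (norm_nonneg _)
    _ = CK * ((-𝓓.ρ w) * ‖Ψ‖) * (-𝓓.ρ w) ^ m' / a ^ (m' + 1 + n + 1) := by ring
    _ ≤ CK * (Cg * B) * (CA * a) ^ m' / a ^ (m' + 1 + n + 1) := by
        refine div_le_div_of_nonneg_right ?_ (by positivity)
        refine mul_le_mul ?_ (pow_le_pow_left₀ hδ.le h3 m') (by positivity) (by positivity)
        exact mul_le_mul_of_nonneg_left e1 hCK.le
    _ = CK * Cg * CA ^ m' * B * (a ^ (n + 2))⁻¹ := by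
        rw [mul_pow]
        have e3 : a ^ (m' + 1 + n + 1) = a ^ m' * a ^ (n + 2) := by ring
        rw [e3]
        field_simp

theorem kC_fin : volume 𝓓.D < ⊤ := by
  obtain ⟨R', _, hR'⟩ := 𝓓.exists_R
  refine lt_of_le_of_lt (measure_mono (fun w hw => ?_))
    (measure_closedBall_lt_top (x := (0 : En n)) (r := R'))
  rw [mem_closedBall, dist_zero_right]
  exact hR' w (le_of_lt hw)

theorem kC_int {z : En n} (hz : 𝓓.ρ z < 0) {s : ℝ} (hs : 0 ≤ s) :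
    IntegrableOn (fun w => ‖𝓓.A w z‖ ^ (-s)) 𝓓.D := by
  have hDm : MeasurableSet 𝓓.D := 𝓓.isOpen_D.measurableSet
  have hlow : ∀ w ∈ 𝓓.D, -𝓓.ρ z / 2 ≤ ‖𝓓.A w z‖ := by
    intro w hw
    have h1 := 𝓓.re_A w z
    have h3 : 0 ≤ 𝓓.c * ‖w - z‖ ^ 2 := mul_nonneg 𝓓.cpos.le (by positivity)
    have h4 : 𝓓.ρ w < 0 := hw
    have h5 := Complex.re_le_norm (𝓓.A w z)
    linarith
  have hp : 0 < -𝓓.ρ z / 2 := by linarith
  refine IntegrableOn.of_bound 𝓓.kC_fin ?_ ((-𝓓.ρ z / 2) ^ (-s)) ?_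
  · refine ContinuousOn.aestronglyMeasurable ?_ hDm
    refine ContinuousOn.rpow_const (𝓓.kA_A_cont z).norm.continuousOn fun w hw => ?_
    left
    have := hlow w hw
    linarith
  · refine (ae_restrict_iff' hDm).mpr (Eventually.of_forall fun w hw => ?_)
    rw [Real.norm_eq_abs, abs_of_nonneg (by positivity)]
    exact Real.rpow_le_rpow_of_nonpos hp (hlow w hw) (by linarith)

theorem kC_intF {m : ℕ} (hm : 2 ≤ m) {z : En n} (hz : 𝓓.ρ z < 0) {E : Set (En n)}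
    (hE : MeasurableSet E) (hED : E ⊆ 𝓓.D) {F : En n → ℂ} (hF : ContinuousOn F E) {B : ℝ}
    (hB : ∀ w ∈ E, (1 - 𝓓.g w) * ‖F w‖ ≤ B) :
    IntegrableOn (fun w => F w * (fp m 𝓓.th z w * Om 𝓓.th w)) E := by
  obtain ⟨C, hC, hpt⟩ := 𝓓.kC_pt hm
  have h1 : IntegrableOn (fun w => C * B * ‖𝓓.A w z‖ ^ (-((n + 1 : ℝ) + 1))) E :=
    ((𝓓.kC_int hz (by positivity)).mono_set hED).const_mul _
  refine Integrable.mono' h1 ?_ ?_
  · exact (hF.mul ((𝓓.ker_cont m hz).mono hED)).aestronglyMeasurable hE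
  · refine (ae_restrict_iff' hE).mpr (Eventually.of_forall fun w hw => ?_)
    exact hpt z w (F w) B hz.le (hED hw) (hB w hw)

theorem kC_part1 {m : ℕ} (hm : 2 ≤ m) {c₁ : ℝ} (hc₁ : 0 < c₁) : ∃ C : ℝ, 0 < C ∧
    ∀ (t : ℝ) (z : En n) (Ψ : En n → ℂ) (G' : ℝ), 0 < t → 𝓓.ρ z < 0 → 𝓓.g z ≤ 1 - t / 40 →
    0 ≤ G' → (∀ w ∈ 𝓓.D, (1 - 𝓓.g w) * ‖Ψ w‖ ≤
      G' * √(t * (c₁ * (‖𝓓.A w z‖ + ‖𝓓.A z w‖) + t))) →
    ‖∫ w in 𝓓.D, Ψ w * (fp m 𝓓.th z w * Om 𝓓.th w)‖ ≤ C * G' := by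
  obtain ⟨C, hC, hpt⟩ := 𝓓.kC_pt hm
  obtain ⟨Cg, hCg, hg⟩ := 𝓓.g_comp
  obtain ⟨CA, hCA, hA⟩ := 𝓓.A_lower
  obtain ⟨Ch, hCh, hfar⟩ := 𝓓.int_far (s := 1 / 2) (by norm_num)
  have hCg0 : 0 < Cg := by linarith
  have hCA0 : 0 < CA := by linarith
  set Ct : ℝ := 40 * Cg * CA with hCt
  have hCtp : 0 < Ct := by positivity
  set Cq : ℝ := c₁ * (1 + CA) + Ct with hCq
  have hCqp : 0 < Cq := by positivity
  refine ⟨C * √Cq * (Ch * √Ct), by positivity, ?_⟩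
  intro t z Ψ G' ht hz hgz hG' hΨ
  have hDm : MeasurableSet 𝓓.D := 𝓓.isOpen_D.measurableSet
  -- lower bound of A
  have hlow : ∀ w ∈ 𝓓.D, t / Ct ≤ ‖𝓓.A w z‖ := by
    intro w hw
    have h4 : 𝓓.ρ w < 0 := hw
    have h1 := (hg z hz.le).1
    have h2 := (hA w z h4.le hz.le).2.1
    rw [div_le_iff₀ hCtp, hCt]
    have h3 : Cg * (-𝓓.ρ z) ≤ Cg * (CA * ‖𝓓.A w z‖) := mul_le_mul_of_nonneg_left h2 hCg0.le
    nlinarith
  have htC : 0 < t / Ct := by positivity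
  have hb : ∀ w ∈ 𝓓.D, ‖Ψ w * (fp m 𝓓.th z w * Om 𝓓.th w)‖ ≤
      C * √Cq * G' * √t * ‖𝓓.A w z‖ ^ (-((n + 1 : ℝ) + 1 / 2)) := by
    intro w hw
    have h4 : 𝓓.ρ w < 0 := hw
    have h1 := hpt z w (Ψ w) _ hz.le h4 (hΨ w hw)
    refine h1.trans ?_
    set a : ℝ := ‖𝓓.A w z‖ with ha
    have hta := hlow w hw
    have ha0 : 0 < a := lt_of_lt_of_le htC hta
    have h2 : c₁ * (a + ‖𝓓.A z w‖) + t ≤ Cq * a := by
      have h5 := (hA w z h4.le hz.le).2.2.2.1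
      rw [div_le_iff₀ hCtp] at hta
      have h6 : c₁ * (a + ‖𝓓.A z w‖) ≤ c₁ * (a + CA * a) :=
        mul_le_mul_of_nonneg_left (by linarith) hc₁.le
      rw [hCq]
      nlinarith
    have h3 : √(t * (c₁ * (a + ‖𝓓.A z w‖) + t)) ≤ √t * √Cq * a ^ (1 / 2 : ℝ) := by
      have h7 : √(t * (c₁ * (a + ‖𝓓.A z w‖) + t)) ≤ √(t * (Cq * a)) :=
        Real.sqrt_le_sqrt (mul_le_mul_of_nonneg_left h2 ht.le)
      refine h7.trans (le_of_eq ?_)
      rw [Real.sqrt_mul ht.le, Real.sqrt_mul hCqp.le, ← Real.sqrt_eq_rpow, mul_assoc]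
    have h5 : a ^ (1 / 2 : ℝ) * a ^ (-((n + 1 : ℝ) + 1)) = a ^ (-((n + 1 : ℝ) + 1 / 2)) := by
      rw [← Real.rpow_add ha0]
      congr 1
      ring
    calc C * (G' * √(t * (c₁ * (a + ‖𝓓.A z w‖) + t))) * a ^ (-((n + 1 : ℝ) + 1))
        ≤ C * (G' * (√t * √Cq * a ^ (1 / 2 : ℝ))) * a ^ (-((n + 1 : ℝ) + 1)) := by
          refine mul_le_mul_of_nonneg_right ?_ (by positivity)
          refine mul_le_mul_of_nonneg_left ?_ hC.le
          exact mul_le_mul_of_nonneg_left h3 hG'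
      _ = C * √Cq * G' * √t * (a ^ (1 / 2 : ℝ) * a ^ (-((n + 1 : ℝ) + 1))) := by ring
      _ = _ := by rw [h5]
  have hI : IntegrableOn (fun w => C * √Cq * G' * √t *
      ‖𝓓.A w z‖ ^ (-((n + 1 : ℝ) + 1 / 2))) 𝓓.D :=
    (𝓓.kC_int hz (by positivity)).const_mul _
  refine (norm_integral_le_of_norm_le hI
    ((ae_restrict_iff' hDm).mpr (Eventually.of_forall hb))).trans ?_
  rw [integral_const_mul]
  have hset : 𝓓.D = 𝓓.D ∩ {w | t / Ct ≤ ‖𝓓.A w z‖} := by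
    ext w
    exact ⟨fun h => ⟨h, hlow w h⟩, fun h => h.1⟩
  have h8 := hfar z hz.le (t / Ct) htC
  rw [← hset] at h8
  have h9 : (t / Ct) ^ (-(1 / 2 : ℝ)) = √Ct / √t := by
    rw [Real.rpow_neg htC.le, ← Real.sqrt_eq_rpow, Real.sqrt_div' _ hCtp.le, inv_div]
  rw [h9] at h8
  have hst : 0 < √t := Real.sqrt_pos.mpr ht
  calc C * √Cq * G' * √t * ∫ w in 𝓓.D, ‖𝓓.A w z‖ ^ (-((n + 1 : ℝ) + 1 / 2))
      ≤ C * √Cq * G' * √t * (Ch * (√Ct / √t)) :=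
        mul_le_mul_of_nonneg_left h8 (by positivity)
    _ = _ := by field_simp

theorem kC_part2 {m : ℕ} (hm : 2 ≤ m) {cf : ℝ} (hcf : 0 < cf) : ∃ C : ℝ, 0 < C ∧
    ∀ (z : En n) (R : ℝ) (Ψ : En n → ℂ) (B : ℝ), 𝓓.ρ z < 0 → 0 < R → 0 ≤ B →
    (∀ w ∈ 𝓓.D, (1 - 𝓓.g w) * ‖Ψ w‖ ≤ B) → (∀ w ∈ 𝓓.D, ‖𝓓.A w z‖ < cf * R → Ψ w = 0) →
    ‖∫ w in 𝓓.D, Ψ w * (fp m 𝓓.th z w * Om 𝓓.th w)‖ ≤ C * (B / R) := by
  obtain ⟨C, hC, hpt⟩ := 𝓓.kC_pt hm
  obtain ⟨Ch, hCh, hfar⟩ := 𝓓.int_far (s := 1) (by norm_num)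
  refine ⟨C * Ch / cf, by positivity, ?_⟩
  intro z R Ψ B hz hR hB hΨ hΨ0
  have hDm : MeasurableSet 𝓓.D := 𝓓.isOpen_D.measurableSet
  have hSm : MeasurableSet {w | cf * R ≤ ‖𝓓.A w z‖} :=
    (isClosed_le continuous_const (𝓓.kA_A_cont z).norm).measurableSet
  have hint : ∫ w in 𝓓.D, Ψ w * (fp m 𝓓.th z w * Om 𝓓.th w) =
      ∫ w in 𝓓.D ∩ {w | cf * R ≤ ‖𝓓.A w z‖}, Ψ w * (fp m 𝓓.th z w * Om 𝓓.th w) := by
    refine setIntegral_eq_of_subset_of_forall_sdiff_eq_zero hDm inter_subset_left ?_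
    intro w hw
    have h1 : ¬ cf * R ≤ ‖𝓓.A w z‖ := fun h => hw.2 ⟨hw.1, h⟩
    rw [hΨ0 w hw.1 (lt_of_not_ge h1), zero_mul]
  rw [hint]
  have hI : IntegrableOn (fun w => C * B * ‖𝓓.A w z‖ ^ (-((n + 1 : ℝ) + 1)))
      (𝓓.D ∩ {w | cf * R ≤ ‖𝓓.A w z‖}) :=
    ((𝓓.kC_int hz (by positivity)).mono_set inter_subset_left).const_mul _
  refine (norm_integral_le_of_norm_le hI
    ((ae_restrict_iff' (hDm.inter hSm)).mpr (Eventually.of_forall fun w hw =>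
      hpt z w (Ψ w) B hz.le hw.1 (hΨ w hw.1)))).trans ?_
  rw [integral_const_mul]
  have h8 := hfar z hz.le (cf * R) (by positivity)
  rw [Real.rpow_neg_one] at h8
  calc C * B * ∫ w in 𝓓.D ∩ {w | cf * R ≤ ‖𝓓.A w z‖}, ‖𝓓.A w z‖ ^ (-((n + 1 : ℝ) + 1))
      ≤ C * B * (Ch * (cf * R)⁻¹) := mul_le_mul_of_nonneg_left h8 (by positivity)
    _ = _ := by field_simp

theorem kC_Q : ∃ Q : ℝ, 0 < Q ∧ ∀ w z : En n, 𝓓.ρ w ≤ 0 → 𝓓.ρ z ≤ 0 → ‖𝓓.A w z‖ ≤ Q := by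
  obtain ⟨R, hR1, hR⟩ := 𝓓.exists_R
  obtain ⟨L, hL1, hL⟩ := 𝓓.exists_L R
  refine ⟨-𝓓.ρ 0 + L * (2 * R), ?_, ?_⟩
  · have := 𝓓.unit 0 (by simp)
    have : 0 < L * (2 * R) := by positivity
    linarith
  · intro w z hw hz
    rw [𝓓.A_eq]
    have h1 := (hL w z (hR w hw) (hR z hz)).2.2.2.1 (w - z)
    have h2 : ‖w - z‖ ≤ 2 * R := by
      have := norm_sub_le w z
      have := hR w hw
      have := hR z hz
      linarith
    have h3 : ‖-(𝓓.ρ w : ℂ)‖ ≤ -𝓓.ρ 0 := by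
      rw [norm_neg, Complex.norm_real, Real.norm_eq_abs, abs_of_nonpos hw]
      have := 𝓓.min0 w
      linarith
    refine (norm_add_le _ _).trans (add_le_add h3 (h1.trans ?_))
    exact mul_le_mul_of_nonneg_left h2 (by linarith)

/-- The kernel property. -/
theorem ker1 {m : ℕ} (hm : 2 ≤ m) {c₁ : ℝ} (hc₁ : 0 < c₁)
    (hc : ∀ z, 𝓓.ρ z ≤ 0 → 2 * c₁ * (-𝓓.ρ z) ≤ 1 - 𝓓.g z) : ∃ CK : ℝ, 0 < CK ∧
    ∀ (t X : ℝ) (z : En n) (F Φ : En n → ℂ) (G G' MΦ : ℝ), 0 < t → t ≤ 1 → 8 ≤ X →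
    1 - t / 8 ≤ 𝓓.g z → 𝓓.g z ≤ 1 - t / 40 → 0 ≤ G → 0 ≤ G' → ContinuousOn F 𝓓.D →
    (∀ w ∈ 𝓓.D, (1 - 𝓓.g w) * ‖F w‖ ≤ G * t) →
    DifferentiableOn ℂ Φ {w | w ∈ 𝓓.D ∧ c₁ * (‖𝓓.A w z‖ + ‖𝓓.A z w‖) < t * X} →
    (∀ w ∈ 𝓓.D, c₁ * (‖𝓓.A w z‖ + ‖𝓓.A z w‖) < t * X → ‖Φ w‖ ≤ MΦ) →
    (∀ w ∈ 𝓓.D, c₁ * (‖𝓓.A w z‖ + ‖𝓓.A z w‖) < t * X →
      (1 - 𝓓.g w) * ‖F w - Φ w‖ ≤ G' * √(t * (c₁ * (‖𝓓.A w z‖ + ‖𝓓.A z w‖) + t))) →
    ‖𝓓.P m F z - Φ z‖ ≤ CK * (G' + G / √X) := by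
  obtain ⟨Cg, hCg, hg⟩ := 𝓓.g_comp
  obtain ⟨Q₀, hQ₀, hQ₀'⟩ := 𝓓.kC_Q
  obtain ⟨C₁, hC₁, hpart1⟩ := 𝓓.kC_part1 hm hc₁
  obtain ⟨ε, hε, hnear⟩ := 𝓓.cut_near (κ := 1 / (4 * c₁)) (by positivity)
  obtain ⟨cf, hcf, hfar⟩ := 𝓓.cut_far hε
  obtain ⟨C₂, hC₂, hpart2⟩ := 𝓓.kC_part2 hm hcf
  have hCg0 : 0 < Cg := by linarith
  obtain ⟨C₃, hC₃, hloc⟩ := 𝓓.loc_err hCg0 hε hm
  have hkap : 0 < kap n m := kap_pos n m
  set Q : ℝ := c₁ * (Q₀ + Q₀) with hQ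
  have hQp : 0 < Q := by positivity
  set S : ℝ := C₁ + (C₂ + C₃ * Cg) * (1 + Q) + 2 * C₃ * Cg with hS
  have hSp : 0 < S := by positivity
  refine ⟨(kap n m)⁻¹ * S, by positivity, ?_⟩
  intro t X z F Φ G G' MΦ ht ht1 hX hz1 hz2 hG hG' hF hFG hΦ hΦb hFΦ
  have hDm : MeasurableSet 𝓓.D := 𝓓.isOpen_D.measurableSet
  have hz : 𝓓.ρ z < 0 := (𝓓.g_lt_one z).mp (by linarith)
  have hX0 : 0 < X := by linarith
  have hsX : 0 < √X := Real.sqrt_pos.mpr hX0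
  have hg01 : ∀ w ∈ 𝓓.D, 0 ≤ 1 - 𝓓.g w ∧ 1 - 𝓓.g w ≤ 1 := by
    intro w hw
    have hw' : 𝓓.ρ w < 0 := hw
    have h1 := (𝓓.g_le_one w).mpr hw'.le
    have h2 := 𝓓.g_nonneg w
    constructor <;> linarith
  have hkC : ((kap n m : ℝ) : ℂ) ≠ 0 := by exact_mod_cast hkap.ne'
  have hIF := 𝓓.kC_intF hm hz hDm (subset_refl _) hF hFG
  have hred : ∀ T : ℝ, ‖(∫ w in 𝓓.D, F w * (fp m 𝓓.th z w * Om 𝓓.th w)) -
      ((kap n m : ℝ) : ℂ) * Φ z‖ ≤ T → ‖𝓓.P m F z - Φ z‖ ≤ (kap n m)⁻¹ * T := by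
    intro T hT
    have e1 : 𝓓.P m F z - Φ z = ((kap n m : ℝ) : ℂ)⁻¹ *
        ((∫ w in 𝓓.D, F w * (fp m 𝓓.th z w * Om 𝓓.th w)) - ((kap n m : ℝ) : ℂ) * Φ z) := by
      unfold P
      field_simp
    rw [e1, norm_mul, norm_inv, Complex.norm_real, Real.norm_eq_abs, abs_of_pos hkap]
    exact mul_le_mul_of_nonneg_left hT (by positivity)
  rw [mul_assoc]
  refine hred _ ?_
  rcases lt_or_ge Q (t * X) with hcase | hcase
  · -- the function Φ is defined everywhere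
    have hall : ∀ w ∈ 𝓓.D, c₁ * (‖𝓓.A w z‖ + ‖𝓓.A z w‖) < t * X := by
      intro w hw
      have hw' : 𝓓.ρ w < 0 := hw
      refine lt_of_le_of_lt ?_ hcase
      exact mul_le_mul_of_nonneg_left
        (add_le_add (hQ₀' w z hw'.le hz.le) (hQ₀' z w hz.le hw'.le)) hc₁.le
    have hΦD : DifferentiableOn ℂ Φ 𝓓.D := hΦ.mono fun w hw => ⟨hw, hall w hw⟩
    have hrep := 𝓓.repro hz hΦD ⟨MΦ, fun w hw => hΦb w hw (hall w hw)⟩ hm
    have hIΦ := 𝓓.kC_intF hm hz hDm (subset_refl _) hΦD.continuousOn (B := MΦ) (fun w hw => by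
      have h1 := hΦb w hw (hall w hw)
      have h2 := mul_le_mul_of_nonneg_right (hg01 w hw).2 (norm_nonneg (Φ w))
      linarith)
    have e2 : ((kap n m : ℝ) : ℂ) * Φ z = ∫ w in 𝓓.D, Φ w * (fp m 𝓓.th z w * Om 𝓓.th w) := by
      rw [← hrep]
      unfold P
      rw [← mul_assoc, mul_inv_cancel₀ hkC, one_mul]
    rw [e2, ← integral_sub hIF hIΦ]
    have h3 := hpart1 t z (fun w => F w - Φ w) G' ht hz hz2 hG'
      (fun w hw => hFΦ w hw (hall w hw))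
    have e3 : ∫ w in 𝓓.D, (F w * (fp m 𝓓.th z w * Om 𝓓.th w) -
        Φ w * (fp m 𝓓.th z w * Om 𝓓.th w)) =
        ∫ w in 𝓓.D, (F w - Φ w) * (fp m 𝓓.th z w * Om 𝓓.th w) := by
      congr 1
      funext w
      ring
    rw [e3]
    refine h3.trans ?_
    have h4 : C₁ ≤ S := by
      rw [hS]
      have : 0 ≤ (C₂ + C₃ * Cg) * (1 + Q) + 2 * C₃ * Cg := by positivity
      linarith
    have h5 : 0 ≤ G / √X := by positivity
    calc C₁ * G' ≤ S * G' := mul_le_mul_of_nonneg_right h4 hG'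
      _ ≤ S * (G' + G / √X) := mul_le_mul_of_nonneg_left (by linarith) hSp.le
  · -- the local case
    set R : ℝ := min (t * X) 1 with hR
    have htX : 0 < t * X := by positivity
    have hRp : 0 < R := lt_min htX one_pos
    have hR1 : R ≤ 1 := min_le_right _ _
    have hRX : R ≤ t * X := min_le_left _ _
    have htR : t ≤ R := le_min (by nlinarith) ht1
    have hδz : 2 * c₁ * (-𝓓.ρ z) ≤ t / 8 := (hc z hz.le).trans (by linarith)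
    -- the region of the cut-off
    have hq : ∀ w ∈ 𝓓.D, (hf (𝓓.HR z R) (w - z)).re ≤ 9 * ε ^ 2 →
        c₁ * (‖𝓓.A w z‖ + ‖𝓓.A z w‖) ≤ t / 8 + R / 2 := by
      intro w hw hw9
      have hw' : 𝓓.ρ w < 0 := hw
      have h1 := hnear ε hε le_rfl w z R hw'.le hz.le hRp hR1 hw9
      have h2 : c₁ * (‖𝓓.A w z‖ + ‖𝓓.A z w‖) ≤
          c₁ * ((-𝓓.ρ z + 1 / (4 * c₁) * R) + (-𝓓.ρ z + 1 / (4 * c₁) * R)) :=
        mul_le_mul_of_nonneg_left (add_le_add h1.1 h1.2.1) hc₁.le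
      refine h2.trans ?_
      have h3 : c₁ * ((-𝓓.ρ z + 1 / (4 * c₁) * R) + (-𝓓.ρ z + 1 / (4 * c₁) * R)) =
          2 * c₁ * (-𝓓.ρ z) + R / 2 := by
        field_simp
        ring
      rw [h3]
      linarith
    have hqX : ∀ w ∈ 𝓓.D, (hf (𝓓.HR z R) (w - z)).re ≤ 9 * ε ^ 2 →
        c₁ * (‖𝓓.A w z‖ + ‖𝓓.A z w‖) < t * X := by
      intro w hw hw9
      refine lt_of_le_of_lt (hq w hw hw9) ?_
      nlinarith
    have hε2 : 0 < ε ^ 2 := by positivity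
    obtain ⟨hcsm, hccpt, hc01, hc1', hc0', hcsupp, hcdb⟩ := 𝓓.cut_facts z hRp hε
    have hhc : Continuous fun w => (hf (𝓓.HR z R) (w - z)).re := by
      have h0 : (fun w => (hf (𝓓.HR z R) (w - z)).re) =
          fun w => ‖w - z‖ ^ 2 / R + ‖𝓓.pr z (w - z)‖ ^ 2 / R ^ 2 := by
        funext w
        rw [𝓓.hf_HR, Complex.ofReal_re]
      rw [h0]
      unfold pr
      have h1 : Continuous fun w : En n =>
          ∑ j, dz j (fun y => (𝓓.ρ y : ℂ)) z * (w - z).ofLp j := by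
        fun_prop
      fun_prop
    set V : Set (En n) := 𝓓.D ∩ {w | (hf (𝓓.HR z R) (w - z)).re < 5 * ε ^ 2} with hV
    have hVm : MeasurableSet V :=
      hDm.inter (isOpen_lt hhc continuous_const).measurableSet
    have hVq : ∀ w ∈ V, c₁ * (‖𝓓.A w z‖ + ‖𝓓.A z w‖) < t * X := by
      intro w hw
      have h1 : (hf (𝓓.HR z R) (w - z)).re < 5 * ε ^ 2 := hw.2
      exact hqX w hw.1 (by linarith)
    have hΦV : DifferentiableOn ℂ Φ V := hΦ.mono fun w hw => ⟨hw.1, hVq w hw⟩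
    have hΦVb : ∀ w ∈ V, ‖Φ w‖ ≤ MΦ := fun w hw => hΦb w hw.1 (hVq w hw)
    have hχc : Continuous (𝓓.cut z R ε) := hcsm.continuous
    -- the third part
    have hMb : 0 ≤ Cg * (G * t + 2 * G' * R) := by positivity
    have h3 := hloc z R Φ (Cg * (G * t + 2 * G' * R)) hz (by linarith) hRp hR1 (by
      have h1 := (hg z hz.le).2
      have h2 : Cg * (1 - 𝓓.g z) ≤ Cg * R :=
        mul_le_mul_of_nonneg_left (by linarith) hCg0.le
      linarith) hΦV ⟨MΦ, hΦVb⟩ (by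
      intro w hw hw4
      have hw' : 𝓓.ρ w < 0 := hw
      have hw9 : (hf (𝓓.HR z R) (w - z)).re ≤ 9 * ε ^ 2 := by linarith
      have h1 := (hg w hw'.le).2
      have h2 := hFΦ w hw (hqX w hw hw9)
      have h4 := hFG w hw
      have h5 := hq w hw hw9
      have h6 : √(t * (c₁ * (‖𝓓.A w z‖ + ‖𝓓.A z w‖) + t)) ≤ 2 * R := by
        rw [Real.sqrt_le_left (by positivity)]
        have h7 : c₁ * (‖𝓓.A w z‖ + ‖𝓓.A z w‖) + t ≤ 2 * R := by linarith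
        have h8 := mul_le_mul_of_nonneg_left h7 ht.le
        nlinarith
      have h7 : ‖Φ w‖ ≤ ‖F w‖ + ‖F w - Φ w‖ := by
        have h8 : Φ w = F w - (F w - Φ w) := by ring
        calc ‖Φ w‖ = ‖F w - (F w - Φ w)‖ := by rw [← h8]
          _ ≤ _ := norm_sub_le _ _
      have h8 : (1 - 𝓓.g w) * ‖Φ w‖ ≤ G * t + 2 * G' * R := by
        have h9 := mul_le_mul_of_nonneg_left h7 (hg01 w hw).1
        have h10 := mul_le_mul_of_nonneg_left h6 hG'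
        nlinarith
      calc (-𝓓.ρ w) * ‖Φ w‖ ≤ (Cg * (1 - 𝓓.g w)) * ‖Φ w‖ :=
            mul_le_mul_of_nonneg_right h1 (norm_nonneg _)
        _ = Cg * ((1 - 𝓓.g w) * ‖Φ w‖) := by ring
        _ ≤ _ := mul_le_mul_of_nonneg_left h8 hCg0.le) hMb
    -- the second part
    have h2 := hpart2 z R (fun w => (1 - (𝓓.cut z R ε w : ℂ)) * F w) (G * t) hz hRp
      (by positivity) (by
        intro w hw
        have h1 : ‖(1 - (𝓓.cut z R ε w : ℂ))‖ ≤ 1 := by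
          have h2 : (1 - (𝓓.cut z R ε w : ℂ)) = ((1 - 𝓓.cut z R ε w : ℝ) : ℂ) := by
            push_cast; rfl
          rw [h2, Complex.norm_real, Real.norm_eq_abs, abs_le]
          have := hc01 w
          constructor <;> linarith
        rw [norm_mul]
        have h4 := mul_le_mul_of_nonneg_right h1 (norm_nonneg (F w))
        rw [one_mul] at h4
        exact (mul_le_mul_of_nonneg_left h4 (hg01 w hw).1).trans (hFG w hw)) (by
        intro w hw hwA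
        have hw' : 𝓓.ρ w < 0 := hw
        have h1 : (hf (𝓓.HR z R) (w - z)).re ≤ ε ^ 2 := by
          by_contra h
          push Not at h
          have := hfar w z R hw'.le hz.le hRp hR1 h.le
          linarith
        rw [hc1' w h1]
        push_cast
        ring)
    -- the first part
    have h1 := hpart1 t z (fun w => (𝓓.cut z R ε w : ℂ) * (F w - Φ w)) G' ht hz hz2 hG' (by
      intro w hw
      by_cases hw4 : (hf (𝓓.HR z R) (w - z)).re ≤ 4 * ε ^ 2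
      · have h4 := hFΦ w hw (hqX w hw (by linarith))
        have h5 : ‖(𝓓.cut z R ε w : ℂ)‖ ≤ 1 := by
          rw [Complex.norm_real, Real.norm_eq_abs, abs_le]
          have := hc01 w
          constructor <;> linarith
        rw [norm_mul]
        have h6 := mul_le_mul_of_nonneg_right h5 (norm_nonneg (F w - Φ w))
        rw [one_mul] at h6
        exact (mul_le_mul_of_nonneg_left h6 (hg01 w hw).1).trans h4
      · push Not at hw4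
        rw [hc0' w hw4.le]
        push_cast
        rw [zero_mul, norm_zero, mul_zero]
        positivity)
    -- integrability
    have hI3 : IntegrableOn (fun w => (𝓓.cut z R ε w : ℂ) * Φ w *
        (fp m 𝓓.th z w * Om 𝓓.th w)) 𝓓.D := by
      have h4 : IntegrableOn (fun w => (𝓓.cut z R ε w : ℂ) * Φ w *
          (fp m 𝓓.th z w * Om 𝓓.th w)) V := by
        refine 𝓓.kC_intF hm hz hVm inter_subset_left (B := MΦ)
          ((Complex.continuous_ofReal.comp hχc).continuousOn.mul hΦV.continuousOn) fun w hw => ?_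
        have h5 : ‖(𝓓.cut z R ε w : ℂ)‖ ≤ 1 := by
          rw [Complex.norm_real, Real.norm_eq_abs, abs_le]
          have := hc01 w
          constructor <;> linarith
        rw [norm_mul]
        have h6 := mul_le_mul_of_nonneg_right h5 (norm_nonneg (Φ w))
        rw [one_mul] at h6
        have h7 := mul_le_mul_of_nonneg_left h6 (hg01 w hw.1).1
        have h8 := mul_le_mul_of_nonneg_right (hg01 w hw.1).2 (norm_nonneg (Φ w))
        have h9 := hΦVb w hw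
        linarith
      refine h4.of_forall_sdiff_eq_zero hDm fun w hw => ?_
      have h5 : 4 * ε ^ 2 ≤ (hf (𝓓.HR z R) (w - z)).re := by
        by_contra h
        push Not at h
        exact hw.2 ⟨hw.1, by
          show (hf (𝓓.HR z R) (w - z)).re < 5 * ε ^ 2
          linarith⟩
      rw [hc0' w h5]
      simp
    have hI2 : IntegrableOn (fun w => (1 - (𝓓.cut z R ε w : ℂ)) * F w *
        (fp m 𝓓.th z w * Om 𝓓.th w)) 𝓓.D := by
      refine 𝓓.kC_intF hm hz hDm (subset_refl _) (B := G * t)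
        ((continuous_const.sub (Complex.continuous_ofReal.comp hχc)).continuousOn.mul hF)
        fun w hw => ?_
      have h1 : ‖(1 - (𝓓.cut z R ε w : ℂ))‖ ≤ 1 := by
        have h2 : (1 - (𝓓.cut z R ε w : ℂ)) = ((1 - 𝓓.cut z R ε w : ℝ) : ℂ) := by
          push_cast; rfl
        rw [h2, Complex.norm_real, Real.norm_eq_abs, abs_le]
        have := hc01 w
        constructor <;> linarith
      show (1 - 𝓓.g w) * ‖(1 - (𝓓.cut z R ε w : ℂ)) * F w‖ ≤ G * t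
      rw [norm_mul]
      have h4 := mul_le_mul_of_nonneg_right h1 (norm_nonneg (F w))
      rw [one_mul] at h4
      exact (mul_le_mul_of_nonneg_left h4 (hg01 w hw).1).trans (hFG w hw)
    have hsum : ∫ w in 𝓓.D, F w * (fp m 𝓓.th z w * Om 𝓓.th w) =
        (∫ w in 𝓓.D, (𝓓.cut z R ε w : ℂ) * (F w - Φ w) * (fp m 𝓓.th z w * Om 𝓓.th w)) +
        (∫ w in 𝓓.D, (1 - (𝓓.cut z R ε w : ℂ)) * F w * (fp m 𝓓.th z w * Om 𝓓.th w)) +
        ∫ w in 𝓓.D, (𝓓.cut z R ε w : ℂ) * Φ w * (fp m 𝓓.th z w * Om 𝓓.th w) := by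
      have e1 : (fun w => (𝓓.cut z R ε w : ℂ) * (F w - Φ w) * (fp m 𝓓.th z w * Om 𝓓.th w)) =
          fun w => (F w * (fp m 𝓓.th z w * Om 𝓓.th w) -
            (1 - (𝓓.cut z R ε w : ℂ)) * F w * (fp m 𝓓.th z w * Om 𝓓.th w)) -
            (𝓓.cut z R ε w : ℂ) * Φ w * (fp m 𝓓.th z w * Om 𝓓.th w) := by
        funext w
        ring
      have hI12 : Integrable (fun w => F w * (fp m 𝓓.th z w * Om 𝓓.th w) -
          (1 - (𝓓.cut z R ε w : ℂ)) * F w * (fp m 𝓓.th z w * Om 𝓓.th w))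
          (volume.restrict 𝓓.D) := hIF.sub hI2
      rw [e1, integral_sub hI12 hI3, integral_sub hIF hI2]
      ring
    rw [hsum]
    have htot : ‖(∫ w in 𝓓.D, (𝓓.cut z R ε w : ℂ) * (F w - Φ w) *
          (fp m 𝓓.th z w * Om 𝓓.th w)) +
        (∫ w in 𝓓.D, (1 - (𝓓.cut z R ε w : ℂ)) * F w * (fp m 𝓓.th z w * Om 𝓓.th w)) +
        (∫ w in 𝓓.D, (𝓓.cut z R ε w : ℂ) * Φ w * (fp m 𝓓.th z w * Om 𝓓.th w)) -
        ((kap n m : ℝ) : ℂ) * Φ z‖ ≤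
        C₁ * G' + C₂ * (G * t / R) + C₃ * (Cg * (G * t + 2 * G' * R) / R) := by
      have e1 : ∀ a b c d : ℂ, a + b + c - d = a + b + (c - d) := fun a b c d => by ring
      rw [e1]
      refine (norm_add_le _ _).trans (add_le_add ((norm_add_le _ _).trans ?_) h3)
      exact add_le_add h1 h2
    refine htot.trans ?_
    -- the ratio t / R
    have hXs : √X ≤ X := by
      rw [Real.sqrt_le_left hX0.le]
      nlinarith
    have hratio : t / R ≤ (1 + Q) / √X := by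
      have h4 : t / R ≤ (1 + Q) / X := by
        rw [div_le_div_iff₀ hRp hX0]
        rcases min_choice (t * X) 1 with h | h
        · rw [hR, h]
          nlinarith
        · rw [hR, h]
          linarith
      refine h4.trans ?_
      exact div_le_div_of_nonneg_left (by positivity) hsX hXs
    have e4 : G * t / R ≤ (1 + Q) * (G / √X) := by
      have h5 := mul_le_mul_of_nonneg_left hratio hG
      calc G * t / R = G * (t / R) := by ring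
        _ ≤ G * ((1 + Q) / √X) := h5
        _ = _ := by ring
    have e5 : Cg * (G * t + 2 * G' * R) / R = Cg * (G * t / R) + 2 * Cg * G' := by
      field_simp
    rw [e5]
    have e6 : C₂ * (G * t / R) ≤ C₂ * ((1 + Q) * (G / √X)) :=
      mul_le_mul_of_nonneg_left e4 hC₂.le
    have e7 : C₃ * (Cg * (G * t / R) + 2 * Cg * G') ≤
        C₃ * (Cg * ((1 + Q) * (G / √X)) + 2 * Cg * G') := by
      refine mul_le_mul_of_nonneg_left ?_ hC₃.le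
      have := mul_le_mul_of_nonneg_left e4 hCg0.le
      linarith
    have hGX : 0 ≤ G / √X := by positivity
    calc C₁ * G' + C₂ * (G * t / R) + C₃ * (Cg * (G * t / R) + 2 * Cg * G')
        ≤ C₁ * G' + C₂ * ((1 + Q) * (G / √X)) +
          C₃ * (Cg * ((1 + Q) * (G / √X)) + 2 * Cg * G') := by linarith
      _ = (C₁ + 2 * C₃ * Cg) * G' + ((C₂ + C₃ * Cg) * (1 + Q)) * (G / √X) := by ring
      _ ≤ S * G' + S * (G / √X) := by
          refine add_le_add (mul_le_mul_of_nonneg_right ?_ hG')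
            (mul_le_mul_of_nonneg_right ?_ hGX)
          · rw [hS]
            have : 0 ≤ (C₂ + C₃ * Cg) * (1 + Q) := by positivity
            linarith
          · rw [hS]
            have : 0 ≤ 2 * C₃ * Cg := by positivity
            linarith
      _ = _ := by ring

end Dm

end Pool.Agent.MPca0fc2.CX
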