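import Mathlib
import Pool.Agent.Lib.MP_ca0fc2_an.CGInv

set_option autoImplicit false

open Metric Set MeasureTheory Filter Topology
open scoped InnerProductSpace ENNReal

namespace Pool.Agent.MPca0fc2.CG

open Pool.Agent.Lib.MP_ca0fc2_an
open Pool.Agent.MPca0fc2.PT

variable {E : Type*} [NormedAddCommGroup E] [InnerProductSpace ℂ E]
variable [FiniteDimensional ℂ E] [MeasurableSpace E] [BorelSpace E]

omit [FiniteDimensional ℂ E] in
/-- the restricted measure satisfies the Carleson condition -/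
theorem carl_of {ν : Measure E} {A : ℝ} (h : ∀ w ∈ ball (0 : E) 1,
    ∫⁻ ξ in ball (0 : E) 1, ENNReal.ofReal (invKer w ξ) ∂ν ≤ ENNReal.ofReal A) :
    Carl (ν.restrict (ball 0 1)) (max A 0) := by
  refine ⟨le_max_right _ _, ?_, ?_⟩
  · rw [Measure.restrict_apply measurableSet_ball.compl, compl_inter_self, measure_empty]
  · intro w hw
    exact (h w hw).trans (ENNReal.ofReal_le_ofReal (le_max_left _ _))

omit [FiniteDimensional ℂ E] [BorelSpace E] in
theorem CG_mono {u : E → ℂ} {p A A' : ℝ} (h : CarlesonGradient p A u) (hA : A ≤ A') :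
    CarlesonGradient p A' u := by
  obtain ⟨ν, h1, h2⟩ := h
  exact ⟨ν, fun w hw => (h1 w hw).trans (ENNReal.ofReal_le_ofReal hA), h2⟩

/-- change of the exponent -/
theorem CG_expo {u : E → ℂ} {p p' A : ℝ} (hp : 0 < p) (hpp : p ≤ p')
    (h : CarlesonGradient p A u) :
    CarlesonGradient p' (max A 1 ^ (p' / p - 1) * A) u := by
  obtain ⟨ν, h1, h2⟩ := h
  have hK1 : (1 : ℝ) ≤ max A 1 := le_max_right _ _
  have hq : 1 ≤ p' / p := by rwa [one_le_div hp]
  obtain ⟨K, hK⟩ : ∃ K, K = max A 1 ^ (p' / p - 1) := ⟨_, rfl⟩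
  have hK0 : 0 ≤ K := by rw [hK]; positivity
  rw [← hK]
  refine ⟨ENNReal.ofReal K • ν, ?_, ?_⟩
  · intro w hw
    rw [Measure.restrict_smul, lintegral_smul_measure, ENNReal.ofReal_mul hK0, smul_eq_mul]
    gcongr
    exact h1 w hw
  · intro z hz
    have hz' := hz
    rw [mem_ball_zero_iff] at hz'
    rw [Measure.restrict_smul, integral_smul_measure, ENNReal.toReal_ofReal hK0, smul_eq_mul]
    have hc := carl_of h1
    obtain ⟨e, he⟩ : ∃ e, e = ∫ ξ in ball (0 : E) 1, invKer z ξ ^ 2 ∂ν := ⟨_, rfl⟩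
    have h3 := h2 z hz
    rw [← he] at h3 ⊢
    have he0 : 0 ≤ e := by rw [he]; exact integral_nonneg fun _ => sq_nonneg _
    have heA : e ≤ max A 1 := by
      have h4 : e ≤ max A 0 := by rw [he]; exact EE_le hc hz'
      exact h4.trans (max_le_max le_rfl zero_le_one)
    have hIG : 0 ≤ invGrad2 u z := gd_IG_nonneg hz'
    have h5 : invGrad2 u z ^ (p' / 2) = (invGrad2 u z ^ (p / 2)) ^ (p' / p) := by
      rw [← Real.rpow_mul hIG]
      congr 1
      field_simp
    have h6 : e ^ (p' / p) ≤ K * e := by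
      rcases he0.eq_or_lt with h0 | h0
      · rw [← h0, Real.zero_rpow (by linarith), mul_zero]
      · have h7 : e ^ (p' / p) = e ^ (p' / p - 1) * e := by
          rw [← Real.rpow_add_one h0.ne']
          congr 1; ring
        rw [h7, hK]
        gcongr
    rw [h5]
    exact (Real.rpow_le_rpow (Real.rpow_nonneg hIG _) h3 (by linarith)).trans h6

/-- Linear functions are in the class. -/
theorem CG_inner {w : E} (hw : ‖w‖ ≤ 1) : CarlesonGradient 4 1 fun z : E => ⟪w, z⟫_ℂ := by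
  refine ⟨Measure.dirac 0, ?_, ?_⟩
  · intro z hz
    have hz' := hz
    rw [mem_ball_zero_iff] at hz'
    refine (setLIntegral_le_lintegral _ _).trans ?_
    rw [lintegral_dirac]
    apply ENNReal.ofReal_le_ofReal
    rw [invKer_eq, geo_HH_zero]
    nlinarith [norm_nonneg z]
  · intro z hz
    have hz' := hz
    rw [mem_ball_zero_iff] at hz'
    have h1 : (Measure.dirac (0 : E)).restrict (ball 0 1) = Measure.dirac 0 := by
      apply Measure.restrict_eq_self_of_ae_mem
      rw [ae_dirac_eq]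
      exact mem_ball_self one_pos
    rw [h1, integral_dirac, invKer_eq, geo_HH_zero]
    have h2 : fderiv ℂ (fun z : E => ⟪w, z⟫_ℂ) z = innerSL ℂ w :=
      (innerSL ℂ w).fderiv (x := z)
    have h3 : invGrad2 (fun z : E => ⟪w, z⟫_ℂ) z ≤ 1 - ‖z‖ ^ 2 := by
      unfold invGrad2
      rw [h2, innerSL_apply_norm]
      have h4 : 0 ≤ 1 - ‖z‖ ^ 2 := by nlinarith [norm_nonneg z]
      have h5 : ‖w‖ ^ 2 - ‖innerSL ℂ w z‖ ^ 2 ≤ 1 := by
        nlinarith [norm_nonneg w, sq_nonneg ‖innerSL ℂ w z‖]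
      nlinarith
    have h6 : 0 ≤ invGrad2 (fun z : E => ⟪w, z⟫_ℂ) z := gd_IG_nonneg hz'
    have h7 : (4 : ℝ) / 2 = ((2 : ℕ) : ℝ) := by norm_num
    rw [h7, Real.rpow_natCast]
    gcongr

omit [FiniteDimensional ℂ E] [BorelSpace E] in
theorem CG_zero {p A : ℝ} (hp : 0 < p) : CarlesonGradient p A fun _ : E => (0 : ℂ) := by
  refine ⟨0, ?_, ?_⟩
  · intro w hw; simp
  · intro z hz
    have : invGrad2 (fun _ : E => (0 : ℂ)) z = 0 := by simp [invGrad2]
    rw [this, Real.zero_rpow (by positivity)]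
    simp

omit [BorelSpace E] in
/-- the bound for the derivative -/
theorem CG_grad {ν : Measure E} {u : E → ℂ} {p : ℝ} (hp : 0 < p) {y : E} (hy : ‖y‖ < 1)
    (h : invGrad2 u y ^ (p / 2) ≤ EE ν y) (X : E) :
    ‖fderiv ℂ u y X‖ ≤ 3 * EE ν y ^ (1 / p) * gau (1 - ‖y‖ ^ 2) y X := by
  obtain ⟨v, hv, hvn⟩ := gg'_zero_surj hy X
  have h1 := gd_IG (u := u) hy v
  rw [hv] at h1
  have h3 : 0 ≤ IG2 u y := gd_IG_nonneg hy
  have h4 : Real.sqrt (IG2 u y) ≤ EE ν y ^ (1 / p) := by
    have h5 : IG2 u y ^ (p / 2) ≤ EE ν y := h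
    calc Real.sqrt (IG2 u y) = (IG2 u y ^ (p / 2)) ^ (1 / p) := by
          rw [← Real.rpow_mul h3, Real.sqrt_eq_rpow]
          congr 1
          field_simp
      _ ≤ _ := Real.rpow_le_rpow (Real.rpow_nonneg h3 _) h5 (by positivity)
  have h6 : 0 ≤ EE ν y ^ (1 / p) := (Real.sqrt_nonneg _).trans h4
  calc _ ≤ Real.sqrt (IG2 u y) * ‖v‖ := h1
    _ ≤ EE ν y ^ (1 / p) * (3 * gau (1 - ‖y‖ ^ 2) y X) := by gcongr
    _ = _ := by ring

/-- several functions of the class -/
theorem CG_vec {d : ℕ} {V : Fin d → E → ℂ} {p A : ℝ} (hp : 0 < p)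
    (h : ∀ j, CarlesonGradient p A (V j)) :
    ∃ ν : Measure E, Carl ν (d * max A 0) ∧ ∀ j, ∀ y : E, ‖y‖ < 1 → ∀ X : E,
      ‖fderiv ℂ (V j) y X‖ ≤ 3 * EE ν y ^ (1 / p) * gau (1 - ‖y‖ ^ 2) y X := by
  choose ν h1 h2 using h
  have hc : Carl (∑ j, (ν j).restrict (ball 0 1)) (d * max A 0) := by
    refine ⟨by positivity, ?_, ?_⟩
    · rw [Measure.finsetSum_apply]
      apply Finset.sum_eq_zero
      intro j _
      rw [Measure.restrict_apply measurableSet_ball.compl, compl_inter_self, measure_empty]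
    · intro w hw
      rw [lintegral_finsetSum_measure, ENNReal.ofReal_mul (Nat.cast_nonneg d), ENNReal.ofReal_natCast]
      calc ∑ j, ∫⁻ ξ, ENNReal.ofReal (HH w ξ) ∂((ν j).restrict (ball 0 1)) ≤
          ∑ _j : Fin d, ENNReal.ofReal (max A 0) := by
            apply Finset.sum_le_sum
            intro j _
            exact (carl_of (h1 j)).2.2 w hw
        _ = _ := by simp
  refine ⟨_, hc, ?_⟩
  intro j y hy X
  apply CG_grad hp hy
  refine (h2 j y (mem_ball_zero_iff.mpr hy)).trans ?_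
  apply integral_mono_measure
  · exact Finset.single_le_sum (f := fun j => (ν j).restrict (ball 0 1))
      (fun _ _ => Measure.zero_le _) (Finset.mem_univ j)
  · exact Eventually.of_forall fun _ => sq_nonneg _
  · exact EE_integrable hc hy

end Pool.Agent.MPca0fc2.CG
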