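import Mathlib
import Pool.Agent.Lib.MP_ca0fc2_an.Mg.G045
import Pool.Agent.Lib.MP_ca0fc2_an.Mg.G073

set_option autoImplicit false

open Metric Set MeasureTheory Filter Topology
open scoped InnerProductSpace ENNReal

namespace Pool.Agent.MPca0fc2.QT

open Pool.Agent.MPca0fc2.PT

variable {E : Type*} [NormedAddCommGroup E] [InnerProductSpace ℂ E]

/-- dilated solutions give a solution -/
theorem limit_N [FiniteDimensional ℂ E] {N : ℕ} {f : Fin N → E → ℂ} {θ C : ℝ} (h0 : 0 < θ)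
    (h1 : θ < 1) (hC : 0 ≤ C) (hf : ∀ j, DifferentiableOn ℂ (f j) (ball 0 1))
    (h : ∀ K : ℕ, ∃ g : Fin N → E → ℂ, (∀ j, DifferentiableOn ℂ (g j) (ball 0 1)) ∧
      (∀ j, ∀ z ∈ ball (0 : E) 1, ‖g j z‖ ≤ C) ∧
      ∀ z ∈ ball (0 : E) 1, ∑ j, uk (f j) θ K z * g j z = 1) :
    ∃ g : Fin N → E → ℂ, (∀ j, DifferentiableOn ℂ (g j) (ball 0 1)) ∧
      (∀ j, ∀ z ∈ ball (0 : E) 1, ‖g j z‖ ≤ C) ∧
      ∀ z ∈ ball (0 : E) 1, ∑ j, f j z * g j z = 1 := by
  choose H hH1 hH2 hH3 using h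
  set 𝒰 : Ultrafilter ℕ := Ultrafilter.of atTop with h𝒰
  have hle : (𝒰 : Filter ℕ) ≤ atTop := Ultrafilter.of_le _
  have key : ∀ j, ∃ g : E → ℂ, DifferentiableOn ℂ g (ball 0 1) ∧
      (∀ z ∈ ball (0 : E) 1, ‖g z‖ ≤ C) ∧
      ∀ z ∈ ball (0 : E) 1, Tendsto (fun i => H i j z) 𝒰 (𝓝 (g z)) := fun j =>
    Pool.Agent.MPca0fc2.SL.ultra_holo 𝒰 (G := fun i => H i j) isOpen_ball hC
      (fun i => hH1 i j) (fun i z hz => hH2 i j z hz)
  choose g hg1 hg2 hg3 using key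
  refine ⟨g, hg1, hg2, ?_⟩
  intro z hz
  have h1' : Tendsto (fun i => ∑ j, uk (f j) θ i z * H i j z) 𝒰
      (𝓝 (∑ j, f j z * g j z)) := by
    apply tendsto_finsetSum
    intro j _
    apply Tendsto.mul _ (hg3 j z hz)
    have h2 : Tendsto (fun i : ℕ => (rt θ i : ℂ) • z) atTop (𝓝 z) := by
      have h3 : Tendsto (fun i : ℕ => rt θ i) atTop (𝓝 1) := by
        have h4 := (tendsto_pow_atTop_nhds_zero_of_lt_one h0.le h1).const_sub 1
        rw [sub_zero] at h4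
        exact h4
      have h5 : Tendsto (fun i : ℕ => ((rt θ i : ℝ) : ℂ)) atTop (𝓝 ((1 : ℝ) : ℂ)) :=
        (Complex.continuous_ofReal.tendsto 1).comp h3
      have h6 := h5.smul_const z
      rwa [Complex.ofReal_one, one_smul] at h6
    have h5 : ContinuousAt (f j) z :=
      ((hf j).differentiableAt (isOpen_ball.mem_nhds hz)).continuousAt
    exact (h5.tendsto.comp h2).mono_left hle
  have h2' : Tendsto (fun i => ∑ j, uk (f j) θ i z * H i j z) 𝒰 (𝓝 1) := by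
    refine (tendsto_const_nhds).congr fun i => ?_
    exact (hH3 i z hz).symm
  exact tendsto_nhds_unique h1' h2'

end Pool.Agent.MPca0fc2.QT
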