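import Mathlib
import Pool.Agent.Lib.MP_ca0fc2_an.Mg.G130

set_option autoImplicit false

open Metric Set Filter Topology MeasureTheory
open scoped InnerProductSpace ComplexConjugate

namespace Pool.Agent.Lib.MP_ca0fc2_an

universe u

variable {E : Type*} [NormedAddCommGroup E] [InnerProductSpace ℂ E] {I J : Type*}

/-- the point `z` is close to prescribed boundary points in several coordinate systems -/
def Ctl (L : List (AutF I E × E)) (κ : ℝ) (i : I) (z : E) : Prop :=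
  ∀ c ∈ L, ‖c.1.fwd i z - c.2‖ < κ

theorem Ctl.mono {L : List (AutF I E × E)} {κ κ' : ℝ} (h : κ ≤ κ') {i : I} {z : E}
    (hc : Ctl L κ i z) : Ctl L κ' i z := fun c hcL => (hc c hcL).trans_le h

/-- the character lies over the prescribed boundary points -/
def Over (Φ : Char I E) (L : List (AutF I E × E)) : Prop :=
  ∀ c ∈ L, ‖c.2‖ = 1 ∧ ∀ w : E, Φ.φ (fun i z => ⟪w, c.1.fwd i z⟫_ℂ) = ⟪w, c.2⟫_ℂ

theorem norm_sub_sq_le {ν w : E} (hν : ‖ν‖ = 1) (hw : ‖w‖ ≤ 1) :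
    ‖w - ν‖ ^ 2 ≤ 2 * (1 - (⟪ν, w⟫_ℂ).re) := by
  rw [@norm_sub_sq ℂ, hν]
  have h1 : RCLike.re ⟪w, ν⟫_ℂ = (⟪ν, w⟫_ℂ).re := inner_re_symm (𝕜 := ℂ) w ν
  rw [h1]
  nlinarith [norm_nonneg w]

/-- peak functions -/
theorem peak (Φ : Char I E) (L : List (AutF I E × E)) (hL : Over Φ L) {κ : ℝ} (hκ : 0 < κ) :
    ∃ P : I → E → ℂ, BH P ∧ Φ.φ P = 1 ∧ (∀ i, ∀ z ∈ ball (0 : E) 1, ‖P i z‖ ≤ 1) ∧
      ∃ η : ℝ, 0 < η ∧ ∀ i, ∀ z ∈ ball (0 : E) 1, 1 - η < ‖P i z‖ → Ctl L κ i z := by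
  induction L with
  | nil =>
    refine ⟨fun _ _ => 1, BH.const 1, Φ.map_const 1, by simp, 1, one_pos, ?_⟩
    intro i z hz _ c hc
    simp at hc
  | cons c L ih =>
    obtain ⟨P, hP, hP1, hPb, η, hη, hPη⟩ := ih fun c' hc' => hL c' (List.mem_cons_of_mem _ hc')
    obtain ⟨hν, hc⟩ := hL c List.mem_cons_self
    set Q : I → E → ℂ := fun i z => (1 / 2 : ℂ) * (1 + ⟪c.2, c.1.fwd i z⟫_ℂ) with hQ
    have hQBH : BH Q := (BH.const _).mul ((BH.const 1).add (BH.innerAut c.2 c.1))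
    have hQ1 : Φ.φ Q = 1 := by
      rw [hQ, Φ.map_smul _ ((BH.const 1).add (BH.innerAut c.2 c.1)),
        Φ.map_add (BH.const 1) (BH.innerAut c.2 c.1), Φ.map_const, hc,
        inner_self_one hν]
      norm_num
    have hin : ∀ i, ∀ z ∈ ball (0 : E) 1, ‖⟪c.2, c.1.fwd i z⟫_ℂ‖ ≤ 1 := fun i z hz =>
      (norm_inner_lt hν (c.1.mfwd i z hz)).le
    have hQb : ∀ i, ∀ z ∈ ball (0 : E) 1, ‖Q i z‖ ≤ 1 := by
      intro i z hz
      simp only [hQ]
      rw [norm_mul]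
      have h1 := norm_add_le (1 : ℂ) ⟪c.2, c.1.fwd i z⟫_ℂ
      have h2 := hin i z hz
      rw [norm_one] at h1
      have h3 : ‖(1 / 2 : ℂ)‖ = 1 / 2 := by norm_num
      rw [h3]
      linarith
    set η' : ℝ := min (κ ^ 2 / 16) (1 / 2) with hη'
    have hη'0 : 0 < η' := lt_min (by positivity) (by norm_num)
    refine ⟨fun i z => P i z * Q i z, hP.mul hQBH, by rw [Φ.map_mul hP hQBH, hP1, hQ1, one_mul],
      ?_, min η η', lt_min hη hη'0, ?_⟩
    · intro i z hz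
      rw [norm_mul]
      exact mul_le_one₀ (hPb i z hz) (norm_nonneg _) (hQb i z hz)
    · intro i z hz h
      rw [norm_mul] at h
      have h1 := hPb i z hz
      have h2 := hQb i z hz
      have h3 : 1 - η < ‖P i z‖ := by
        have : ‖P i z‖ * ‖Q i z‖ ≤ ‖P i z‖ := by nlinarith [norm_nonneg (P i z)]
        have := min_le_left η η'
        linarith
      have h4 : 1 - η' < ‖Q i z‖ := by
        have : ‖P i z‖ * ‖Q i z‖ ≤ ‖Q i z‖ := by nlinarith [norm_nonneg (Q i z)]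
        have := min_le_right η η'
        linarith
      intro c' hc'
      rcases List.mem_cons.mp hc' with rfl | hc'
      · have h5 : 1 - η' < 1 / 2 * ‖1 + ⟪c'.2, c'.1.fwd i z⟫_ℂ‖ := by
          simp only [hQ] at h4
          rw [norm_mul] at h4
          have h6 : ‖(1 / 2 : ℂ)‖ = 1 / 2 := by norm_num
          rwa [h6] at h4
        set s : ℂ := ⟪c'.2, c'.1.fwd i z⟫_ℂ with hs
        have h6 : ‖s‖ ≤ 1 := hin i z hz
        have h7 : ‖1 + s‖ ^ 2 ≤ 2 + 2 * s.re := by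
          rw [← Complex.normSq_eq_norm_sq, Complex.normSq_apply]
          have h8 : s.re * s.re + s.im * s.im ≤ 1 := by
            have h9 : ‖s‖ ^ 2 ≤ 1 := by nlinarith [norm_nonneg s]
            rwa [← Complex.normSq_eq_norm_sq, Complex.normSq_apply] at h9
          simp only [Complex.add_re, Complex.one_re, Complex.add_im, Complex.one_im, zero_add]
          nlinarith
        have h8 : η' ≤ 1 / 2 := min_le_right _ _
        have h9 : η' ≤ κ ^ 2 / 16 := min_le_left _ _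
        have h10 : 4 * (1 - η') ^ 2 ≤ ‖1 + s‖ ^ 2 := by nlinarith
        have h11 := norm_sub_sq_le hν (w := c'.1.fwd i z) (by
          have := c'.1.mfwd i z hz
          rw [mem_ball_zero_iff] at this
          exact this.le)
        rw [← hs] at h11
        have h12 : ‖c'.1.fwd i z - c'.2‖ ^ 2 < κ ^ 2 := by nlinarith
        exact lt_of_pow_lt_pow_left₀ 2 hκ.le h12
      · exact hPη i z hz h3 c' hc'

theorem bound_near (Φ : Char I E) (L : List (AutF I E × E)) (hL : Over Φ L) {κ : ℝ}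
    (hκ : 0 < κ) {F : I → E → ℂ} (hF : BH F) {C : ℝ} (hC : 0 ≤ C)
    (h : ∀ᶠ i in Φ.filt, ∀ z ∈ ball (0 : E) 1, Ctl L κ i z → ‖F i z‖ ≤ C) : ‖Φ.φ F‖ ≤ C := by
  obtain ⟨P, hP, hP1, hPb, η, hη, hPη⟩ := peak Φ L hL hκ
  apply Φ.bound_loc hF hP hP1 hPb hη hC
  filter_upwards [h] with i hi z hz hp
  exact hi z hz (hPη i z hz hp)

theorem filt_comp (Φ : Char I E) (α : I → E → E) (hα : ∀ i, DifferentiableOn ℂ (α i) (ball 0 1))
    (hαm : ∀ i, ∀ z ∈ ball (0 : E) 1, α i z ∈ ball (0 : E) 1) :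
    (Φ.comp α hα hαm).filt = Φ.filt := Filter.ext fun _ => Iff.rfl

/-- If a family of automorphisms is uniformly Lipschitz near the point `ν`, then it is nearly
constant there. -/
theorem freeze [FiniteDimensional ℂ E] (Ψ : Char J E) {ν : E} (hν : ‖ν‖ = 1)
    (hΨ : ∀ w : E, Ψ.φ (fun _ z => ⟪w, z⟫_ℂ) = ⟪w, ν⟫_ℂ) (Θ : AutF J E) {ν' : E}
    (hΘ : ∀ w : E, Ψ.φ (fun j z => ⟪w, Θ.fwd j z⟫_ℂ) = ⟪w, ν'⟫_ℂ) {ρ : ℝ} (hρ : 0 < ρ)
    (hLip : ∀ᶠ j in Ψ.filt, ∀ z ∈ ball (0 : E) 1, ∀ w ∈ ball (0 : E) 1, ‖z - ν‖ < ρ →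
      ‖w - ν‖ < ρ → ‖Θ.fwd j z - Θ.fwd j w‖ ^ 2 ≤ 52 * ‖z - w‖ ^ 2) {κ : ℝ} (hκ : 0 < κ) :
    ∃ κ' : ℝ, 0 < κ' ∧ ∀ᶠ j in Ψ.filt, ∀ z ∈ ball (0 : E) 1, ‖z - ν‖ < κ' →
      ‖Θ.fwd j z - ν'‖ < κ := by
  set κ' : ℝ := min (min ρ 1) (κ / 64) with hκ'
  have hκ'0 : 0 < κ' := lt_min (lt_min hρ one_pos) (by positivity)
  have hκρ : κ' ≤ ρ := (min_le_left _ _).trans (min_le_left _ _)
  have hκ1 : κ' ≤ 1 := (min_le_left _ _).trans (min_le_right _ _)
  have hκκ : κ' ≤ κ / 64 := min_le_right _ _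
  set b : E := ((1 - κ' / 2 : ℝ) : ℂ) • ν with hb
  have hbmem : b ∈ ball (0 : E) 1 := by
    rw [mem_ball_zero_iff, hb, norm_smul, hν, mul_one, Complex.norm_real,
      Real.norm_of_nonneg (by linarith)]
    linarith
  have hbν : ‖b - ν‖ < κ' := by
    have : b - ν = ((-(κ' / 2) : ℝ) : ℂ) • ν := by
      rw [hb]
      nth_rw 2 [← one_smul ℂ ν]
      rw [← sub_smul]
      congr 1
      push_cast
      ring
    rw [this, norm_smul, hν, mul_one, Complex.norm_real, Real.norm_eq_abs, abs_neg,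
      abs_of_pos (by positivity)]
    linarith
  obtain ⟨u, -, hu, huw⟩ := Ψ.exists_lim (v := fun j => Θ.fwd j b) (by
    intro j
    have := Θ.mfwd j b hbmem
    rw [mem_ball_zero_iff] at this
    exact this.le)
  -- variation near `ν`
  have hvar : ∀ᶠ j in Ψ.filt, ∀ z ∈ ball (0 : E) 1, ‖z - ν‖ < κ' →
      ‖Θ.fwd j z - Θ.fwd j b‖ ≤ 16 * κ' := by
    filter_upwards [hLip] with j hj z hz hzν
    have h1 := hj z hz b hbmem (hzν.trans_le hκρ) (hbν.trans_le hκρ)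
    have h2 : ‖z - b‖ ≤ 2 * κ' := by
      calc ‖z - b‖ = ‖(z - ν) - (b - ν)‖ := by congr 1; abel
        _ ≤ ‖z - ν‖ + ‖b - ν‖ := norm_sub_le _ _
        _ ≤ 2 * κ' := by linarith
    have h3 : ‖Θ.fwd j z - Θ.fwd j b‖ ^ 2 ≤ (16 * κ') ^ 2 := by
      nlinarith [norm_nonneg (z - b)]
    exact le_of_sq_le_sq h3 (by positivity)
  have hνu : ‖ν' - u‖ ≤ 16 * κ' := by
    have hbd : ∀ w : E, ‖⟪w, ν' - u⟫_ℂ‖ ≤ 16 * κ' * ‖w‖ := by
      intro w
      have hBH1 := BH.innerAut w Θ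
      have hBH2 : BH fun (j : J) (_ : E) => ⟪w, Θ.fwd j b⟫_ℂ := by
        apply BH.constI
        refine ⟨‖w‖, fun j => ?_⟩
        have := Θ.mfwd j b hbmem
        rw [mem_ball_zero_iff] at this
        refine (norm_inner_le_norm w _).trans ?_
        nlinarith [norm_nonneg w]
      rw [inner_sub_right, ← hΘ w, ← huw w, ← Ψ.map_sub hBH1 hBH2]
      apply bound_near Ψ [(AutF.one J E, ν)] _ hκ'0 (hBH1.sub hBH2) (by positivity)
      · filter_upwards [hvar] with j hj z hz hctl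
        have h1 : ‖z - ν‖ < κ' := hctl (AutF.one J E, ν) (by simp)
        have h2 := hj z hz h1
        rw [← inner_sub_right]
        refine (norm_inner_le_norm w _).trans ?_
        nlinarith [norm_nonneg w]
      · intro c hc
        rw [List.mem_singleton] at hc
        subst hc
        exact ⟨hν, hΨ⟩
    have h1 := hbd (ν' - u)
    rw [inner_self_eq_norm_sq_to_K, norm_pow] at h1
    have h2 : ‖((‖ν' - u‖ : ℝ) : ℂ)‖ = ‖ν' - u‖ := by
      rw [Complex.norm_real, norm_norm]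
    have h3 : ‖ν' - u‖ ^ 2 ≤ 16 * κ' * ‖ν' - u‖ := by
      rw [← h2]
      rw [h2]
      exact_mod_cast (by simpa using h1)
    by_contra hcon
    push Not at hcon
    nlinarith [norm_nonneg (ν' - u)]
  refine ⟨κ', hκ'0, ?_⟩
  have hu' : ∀ᶠ j in Ψ.filt, ‖Θ.fwd j b - u‖ < κ / 4 := by
    have := hu.eventually (ball_mem_nhds u (show 0 < κ / 4 by positivity))
    filter_upwards [this] with j hj
    rwa [← dist_eq_norm]
  filter_upwards [hvar, hu'] with j h1 h2 z hz hzν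
  have h3 := h1 z hz hzν
  calc ‖Θ.fwd j z - ν'‖ = ‖(Θ.fwd j z - Θ.fwd j b) + (Θ.fwd j b - u) - (ν' - u)‖ := by
        congr 1; abel
    _ ≤ ‖Θ.fwd j z - Θ.fwd j b‖ + ‖Θ.fwd j b - u‖ + ‖ν' - u‖ :=
        (norm_sub_le _ _).trans (add_le_add (norm_add_le _ _) le_rfl)
    _ < κ := by linarith

end Pool.Agent.Lib.MP_ca0fc2_an
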