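import Mathlib
import Pool.Agent.Lib.MP_ca0fc2_an.Points
import Pool.Agent.Lib.MP_ca0fc2_an.Mg.G130

set_option autoImplicit false

open Metric Set Filter Topology MeasureTheory
open scoped InnerProductSpace ComplexConjugate

namespace Pool.Agent.Lib.MP_ca0fc2_an

universe u

variable {E : Type*} [NormedAddCommGroup E] [InnerProductSpace ℂ E]

/-- Events on the old index set are events on the new one. -/
theorem ev_fst {I : Type*} {Φ : Char I E} {Ψ : Char (I × ball (0 : ℂ) 1) E}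
    {S : AutF (I × ball (0 : ℂ) 1) E}
    (h : ∀ F : I → E → ℂ, BH F → Ψ.φ (fun p z => F p.1 (S.fwd p z)) = Φ.φ F) {P : I → Prop}
    (hP : ∀ᶠ i in Φ.filt, P i) : ∀ᶠ p in Ψ.filt, P p.1 := by
  have h1 : Φ.φ (Char.ind {i | P i}) = 1 := hP
  have h2 := h _ (Char.BH_ind {i | P i})
  rw [h1] at h2
  exact h2

/-- If the point of a character is an interior point, then values of the character are limits of
the values at this point. -/
theorem tendsto_of_interior {I : Type*} [FiniteDimensional ℂ E] (Ψ : Char I E) {ν : E}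
    (hν : ‖ν‖ < 1) (hΨ : ∀ w : E, Ψ.φ (fun _ z => ⟪w, z⟫_ℂ) = ⟪w, ν⟫_ℂ) {F : I → E → ℂ}
    (hF : BH F) : Tendsto (fun i => F i ν) Ψ.filt (𝓝 (Ψ.φ F)) := by
  rw [Ψ.gleason hν hΨ hF]
  obtain ⟨C, hC⟩ := hF.bdd
  exact Ψ.tendsto_constI ⟨C, fun i => hC i ν (by rwa [mem_ball_zero_iff])⟩

/-- The same for automorphisms. -/
theorem aut_of_interior {I : Type*} [FiniteDimensional ℂ E] (Ψ : Char I E) {ν : E}
    (hν : ‖ν‖ < 1) (hΨ : ∀ w : E, Ψ.φ (fun _ z => ⟪w, z⟫_ℂ) = ⟪w, ν⟫_ℂ) (Θ : AutF I E) {ν' : E}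
    (hΘ : ∀ w : E, Ψ.φ (fun i z => ⟪w, Θ.fwd i z⟫_ℂ) = ⟪w, ν'⟫_ℂ) {κ : ℝ} (hκ : 0 < κ) :
    ∀ᶠ i in Ψ.filt, ‖Θ.fwd i ν - ν'‖ < κ := by
  have hνm : ν ∈ ball (0 : E) 1 := by rwa [mem_ball_zero_iff]
  obtain ⟨u, -, hu, huw⟩ := Ψ.exists_lim (v := fun i => Θ.fwd i ν) (by
    intro i
    have := Θ.mfwd i ν hνm
    rw [mem_ball_zero_iff] at this
    exact this.le)
  have hun : u = ν' := by
    apply ext_inner_left ℂ
    intro w
    rw [← huw w, ← hΘ w, Ψ.gleason hν hΨ (BH.innerAut w Θ)]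
  subst hun
  filter_upwards [hu.eventually (ball_mem_nhds u hκ)] with i hi
  rwa [← dist_eq_norm]

theorem ctl_of_interior {I : Type*} [FiniteDimensional ℂ E] (Ψ : Char I E) {ν : E}
    (hν : ‖ν‖ < 1) (hΨ : ∀ w : E, Ψ.φ (fun _ z => ⟪w, z⟫_ℂ) = ⟪w, ν⟫_ℂ)
    {L : List (AutF I E × E)} (hL : Over Ψ L) {κ : ℝ} (hκ : 0 < κ) :
    ∀ᶠ i in Ψ.filt, Ctl L κ i ν := by
  induction L with
  | nil => exact Eventually.of_forall fun i c hc => by simp at hc
  | cons c L ih =>
    have h1 := ih fun c' hc' => hL c' (List.mem_cons_of_mem _ hc')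
    have h2 := aut_of_interior Ψ hν hΨ c.1 (hL c List.mem_cons_self).2 hκ
    filter_upwards [h1, h2] with i h1 h2 c' hc'
    rcases List.mem_cons.mp hc' with rfl | hc'
    · exact h2
    · exact h1 c' hc'

/-- transport of a list of controls -/
def mapL {I J : Type*} (τ : J → I) (S : AutF J E) (L : List (AutF I E × E)) :
    List (AutF J E × E) := L.map fun c => (c.1.comp τ S, c.2)

theorem ctl_mapL {I J : Type*} {τ : J → I} {S : AutF J E} {L : List (AutF I E × E)} {κ : ℝ}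
    {j : J} {z : E} : Ctl (mapL τ S L) κ j z ↔ Ctl L κ (τ j) (S.fwd j z) := by
  simp only [Ctl, mapL, List.mem_map]
  constructor
  · intro h c hc
    exact h _ ⟨c, hc, rfl⟩
  · rintro h _ ⟨c, hc, rfl⟩
    exact h c hc

theorem over_mapL {I : Type*} {Φ : Char I E} {Ψ : Char (I × ball (0 : ℂ) 1) E}
    {S : AutF (I × ball (0 : ℂ) 1) E}
    (h : ∀ F : I → E → ℂ, BH F → Ψ.φ (fun p z => F p.1 (S.fwd p z)) = Φ.φ F)
    {L : List (AutF I E × E)} (hL : Over Φ L) : Over Ψ (mapL Prod.fst S L) := by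
  intro c hc
  simp only [mapL, List.mem_map] at hc
  obtain ⟨c', hc', rfl⟩ := hc
  refine ⟨(hL c' hc').1, fun w => ?_⟩
  have h1 := h _ (BH.innerAut w c'.1)
  rw [(hL c' hc').2 w] at h1
  exact h1

/-- Cluster theorem for several boundary controls: a function that is bounded below where all the
controls are satisfied is not killed by the character. -/
theorem points_thm (hDC : DiscCorona) [FiniteDimensional ℂ E] : ∀ (n : ℕ) {I : Type u}
    (Φ : Char I E) (L : List (AutF I E × E)), L.length = n + 1 → Over Φ L →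
    ∀ {g : I → E → ℂ}, BH g → ∀ {κ δ : ℝ}, 0 < κ → 0 < δ →
    (∀ᶠ i in Φ.filt, ∀ z ∈ ball (0 : E) 1, Ctl L κ i z → δ ≤ ‖g i z‖) → Φ.φ g ≠ 0 := by
  intro n
  induction n with
  | zero =>
    intro I Φ L hlen hL g hg κ δ hκ hδ hlow
    obtain ⟨c, rfl⟩ : ∃ c, L = [c] := List.length_eq_one_iff.mp hlen
    obtain ⟨hν, hc⟩ := hL c (by simp)
    have hg' : BH fun i z => g i (c.1.bwd i z) := hg.compAut id c.1.symm
    have hval : (Φ.comp c.1.fwd c.1.dfwd c.1.mfwd).φ (fun i z => g i (c.1.bwd i z)) = Φ.φ g := by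
      change Φ.φ (fun i z => g i (c.1.bwd i (c.1.fwd i z))) = Φ.φ g
      apply Φ.congr hg
      intro i z hz
      rw [c.1.left i z hz]
    rw [← hval]
    have h1 : (Φ.comp c.1.fwd c.1.dfwd c.1.mfwd).φ (fun _ z => ⟪c.2, z⟫_ℂ) = 1 := by
      change Φ.φ (fun i z => ⟪c.2, c.1.fwd i z⟫_ℂ) = 1
      rw [hc, inner_self_one hν]
    refine Char.ne_zero_of_lower hDC _ hν h1 hg' (κ := κ ^ 2 / 2) (δ := δ) (by positivity) hδ ?_
    rw [filt_comp]
    filter_upwards [hlow] with i hi z hz hzk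
    apply hi _ (c.1.mbwd i z hz)
    intro c' hc'
    rw [List.mem_singleton] at hc'
    subst hc'
    rw [c'.1.right i z hz]
    have h2 := norm_sub_sq_le hν (w := z) (by
      rw [mem_ball_zero_iff] at hz
      exact hz.le)
    have h3 : 1 - (⟪c'.2, z⟫_ℂ).re ≤ ‖1 - ⟪c'.2, z⟫_ℂ‖ := by
      have := Complex.re_le_norm (1 - ⟪c'.2, z⟫_ℂ)
      simpa using this
    have h4 : ‖z - c'.2‖ ^ 2 < κ ^ 2 := by nlinarith
    exact lt_of_pow_lt_pow_left₀ 2 hκ.le h4
  | succ n ih =>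
    intro I Φ L hlen hL g hg κ δ hκ hδ hlow
    obtain ⟨c₁, c₂, L', rfl⟩ : ∃ c₁ c₂ L', L = c₁ :: c₂ :: L' := by
      match L, hlen with
      | c₁ :: c₂ :: L', _ => exact ⟨c₁, c₂, L', rfl⟩
    have hc₁ := hL c₁ (by simp)
    have hc₂ := hL c₂ (by simp)
    have h0mem : (0 : E) ∈ ball (0 : E) 1 := mem_ball_self one_pos
    -- the direction of the line through the two centres
    have hdir : ∀ i, ∃ (e : E) (t : ℂ), ‖e‖ = 1 ∧ c₁.1.fwd i (c₂.1.bwd i 0) = t • e := by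
      intro i
      by_cases h0 : c₁.1.fwd i (c₂.1.bwd i 0) = 0
      · exact ⟨c₁.2, 0, hc₁.1, by rw [h0, zero_smul]⟩
      · obtain ⟨e, he, h⟩ := exists_unit h0
        exact ⟨e, _, he, h⟩
    choose e t he ht using hdir
    obtain ⟨Ψ, hΨx, hΨF⟩ := mstepA hDC Φ c₁.1 he
    obtain ⟨S, hS⟩ : ∃ S, S = c₁.1.symm.comp Prod.fst (AutF.mobF he) := ⟨_, rfl⟩
    rw [← hS] at hΨF
    have hSf : ∀ p z, S.fwd p z = c₁.1.bwd p.1 (mob (e p.1) p.2 z) := by
      intro p z; rw [hS]; rfl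
    obtain ⟨ν, hν1, hΨν⟩ := Ψ.exists_point
    have hg' : BH fun p z => g p.1 (S.fwd p z) := hg.compAut Prod.fst S
    have hlow' := ev_fst hΨF hlow
    rw [← hΨF g hg]
    rcases lt_or_eq_of_le hν1 with hν | hν
    · -- interior case
      have hL2 := over_mapL hΨF hL
      have hctl := ctl_of_interior Ψ hν hΨν hL2 hκ
      have hνm : ν ∈ ball (0 : E) 1 := by rwa [mem_ball_zero_iff]
      have hlim := tendsto_of_interior Ψ hν hΨν hg'
      intro h0
      rw [h0] at hlim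
      have h1 : ∀ᶠ p in Ψ.filt, δ ≤ ‖g p.1 (S.fwd p ν)‖ := by
        filter_upwards [hctl, hlow'] with p hp1 hp2
        exact hp2 _ (S.mfwd p ν hνm) (ctl_mapL.mp hp1)
      have h2 := hlim.norm
      rw [norm_zero] at h2
      have h3 := ge_of_tendsto h2 h1
      linarith
    · -- boundary case
      have hx0 : Tendsto (fun p : I × ball (0 : ℂ) 1 => ⟪e p.1, ν⟫_ℂ) Ψ.filt (𝓝 0) := by
        have := Ψ.map_innerFam hΨν (e := fun p => e p.1) fun p => he p.1
        rwa [hΨx] at this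
      have hsmall : ∀ᶠ p in Ψ.filt, ‖⟪e p.1, ν⟫_ℂ‖ < 1 / 4 := by
        have := hx0.norm
        rw [norm_zero] at this
        exact this.eventually_lt_const (by norm_num)
      have hfr : ∀ c ∈ c₁ :: c₂ :: L', (c = c₁ ∨ c = c₂) → ∃ κ' : ℝ, 0 < κ' ∧
          ∀ᶠ p in Ψ.filt, ∀ z ∈ ball (0 : E) 1, ‖z - ν‖ < κ' →
            ‖c.1.fwd p.1 (S.fwd p z) - c.2‖ < κ := by
        intro c hcL hcc
        apply freeze Ψ hν hΨν (c.1.comp Prod.fst S) (ν' := c.2) _ (ρ := 1 / 4) (by norm_num) _ hκ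
        · intro w
          have h1 := hΨF _ (BH.innerAut w c.1)
          rw [(hL c hcL).2 w] at h1
          exact h1
        · filter_upwards [hsmall] with p hp z hz w hw hzν hwν
          have hin : ∀ z : E, ‖z - ν‖ < 1 / 4 → ‖⟪e p.1, z⟫_ℂ‖ ≤ 1 / 2 := by
            intro z hz
            have h1 : ⟪e p.1, z⟫_ℂ = ⟪e p.1, z - ν⟫_ℂ + ⟪e p.1, ν⟫_ℂ := by
              rw [inner_sub_right]; ring
            rw [h1]
            have h2 := norm_inner_le (he p.1) (z - ν)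
            refine (norm_add_le _ _).trans ?_
            linarith
          change ‖c.1.fwd p.1 (S.fwd p z) - c.1.fwd p.1 (S.fwd p w)‖ ^ 2 ≤ _
          rw [hSf, hSf]
          obtain ⟨t', ht'⟩ : ∃ t' : ℂ, (c.1.comp id c₁.1.symm).bwd p.1 0 = t' • e p.1 := by
            rcases hcc with rfl | rfl
            · refine ⟨0, ?_⟩
              change c.1.fwd p.1 (c.1.bwd p.1 0) = _
              rw [c.1.right p.1 0 h0mem, zero_smul]
            · exact ⟨t p.1, ht p.1⟩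
          exact aut_lip (c.1.comp id c₁.1.symm) p.1 (he p.1) (norm_coe_lt p.2) ht' hz hw
            (hin z hzν) (hin w hwν)
      obtain ⟨κ₁, hκ₁, hfr₁⟩ := hfr c₁ (by simp) (Or.inl rfl)
      obtain ⟨κ₂, hκ₂, hfr₂⟩ := hfr c₂ (by simp) (Or.inr rfl)
      have hover : Over Ψ ((AutF.one _ E, ν) :: mapL Prod.fst S L') := by
        intro c hc
        rcases List.mem_cons.mp hc with rfl | hc
        · exact ⟨hν, hΨν⟩
        · exact over_mapL hΨF (fun c' hc' => hL c' (by simp [hc'])) c hc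
      refine ih Ψ ((AutF.one _ E, ν) :: mapL Prod.fst S L') ?_ hover hg'
        (κ := min κ (min κ₁ κ₂)) (δ := δ) (lt_min hκ (lt_min hκ₁ hκ₂)) hδ ?_
      · simp only [List.length_cons, mapL, List.length_map] at hlen ⊢
        omega
      · filter_upwards [hfr₁, hfr₂, hlow'] with p h1 h2 h3 z hz hctl
        apply h3 _ (S.mfwd p z hz)
        have hzν : ‖z - ν‖ < min κ (min κ₁ κ₂) := hctl (AutF.one _ E, ν) (by simp)
        have hzν1 : ‖z - ν‖ < κ₁ := hzν.trans_le ((min_le_right _ _).trans (min_le_left _ _))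
        have hzν2 : ‖z - ν‖ < κ₂ := hzν.trans_le ((min_le_right _ _).trans (min_le_right _ _))
        intro c hc
        rcases List.mem_cons.mp hc with rfl | hc
        · exact h1 z hz hzν1
        rcases List.mem_cons.mp hc with rfl | hc
        · exact h2 z hz hzν2
        · have h4 : Ctl (mapL Prod.fst S L') (min κ (min κ₁ κ₂)) p z := fun c' hc' =>
            hctl c' (List.mem_cons_of_mem _ hc')
          exact (ctl_mapL.mp h4 c hc).trans_le (min_le_left _ _)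

end Pool.Agent.Lib.MP_ca0fc2_an
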