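import Mathlib
import Pool.Agent.Lib.MP_ca0fc2_an.PointsThm

set_option autoImplicit false

open Metric Set Filter Topology MeasureTheory
open scoped InnerProductSpace ComplexConjugate

namespace Pool.Agent.Lib.MP_ca0fc2_an

universe u

variable {E : Type*} [NormedAddCommGroup E] [InnerProductSpace ℂ E]

/-- `z` and `w` are close with respect to the complex line through the origin in the direction
`e`. -/
def Close (e : E) (η : ℝ) (z w : E) : Prop :=
  ‖⟪e, z - w⟫_ℂ‖ ≤ η * (1 - ‖⟪e, z⟫_ℂ‖) ∧ ‖z - w‖ ^ 2 ≤ η * (1 - ‖⟪e, z⟫_ℂ‖)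

theorem Close.mono {e : E} (he : ‖e‖ = 1) {η η' : ℝ} (h : η ≤ η') {z w : E}
    (hz : z ∈ ball (0 : E) 1) (hc : Close e η z w) : Close e η' z w := by
  have h1 : 0 ≤ 1 - ‖⟪e, z⟫_ℂ‖ := by
    have := norm_inner_lt he hz
    linarith
  exact ⟨hc.1.trans (mul_le_mul_of_nonneg_right h h1), hc.2.trans (mul_le_mul_of_nonneg_right h h1)⟩

/-- near the orthogonal complement of the line, the Moebius maps send close points to points that
are close with respect to the line -/
theorem close_mob {e : E} (he : ‖e‖ = 1) {ζ : ℂ} (hζ : ‖ζ‖ < 1) {z w : E}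
    (hz : z ∈ ball (0 : E) 1) (hw : w ∈ ball (0 : E) 1)
    (hz2 : ‖⟪e, z⟫_ℂ‖ ≤ 1 / 2) (hw2 : ‖⟪e, w⟫_ℂ‖ ≤ 1 / 2) {η : ℝ}
    (h : ‖z - w‖ ≤ η / 400) (h1 : ‖z - w‖ ≤ 1) : Close e η (mob e ζ z) (mob e ζ w) := by
  have hd := mob_depth he hζ hz hz2
  have h2 := mob_inner_sub he hζ hz2 hw2
  have h3 := mob_lip he hζ hw hz2 hw2
  have hs := sq_pos hζ
  have h4 : 0 ≤ 1 - ‖⟪e, mob e ζ z⟫_ℂ‖ := by
    have := norm_inner_lt he (mob_mem he hζ hz)
    linarith
  have hn := norm_nonneg (z - w)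
  have hη : 0 ≤ η := by linarith
  constructor
  · calc ‖⟪e, mob e ζ z - mob e ζ w⟫_ℂ‖ ≤ 4 * sq ζ ^ 2 * ‖z - w‖ := h2
      _ ≤ 4 * (6 * (1 - ‖⟪e, mob e ζ z⟫_ℂ‖)) * (η / 400) := by
          apply mul_le_mul _ h hn (by positivity)
          linarith
      _ ≤ η * (1 - ‖⟪e, mob e ζ z⟫_ℂ‖) := by nlinarith
  · have h5 : ‖z - w‖ ^ 2 ≤ η / 400 := by nlinarith
    calc ‖mob e ζ z - mob e ζ w‖ ^ 2 ≤ 52 * sq ζ ^ 2 * ‖z - w‖ ^ 2 := h3
      _ ≤ 52 * (6 * (1 - ‖⟪e, mob e ζ z⟫_ℂ‖)) * (η / 400) := by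
          apply mul_le_mul _ h5 (by positivity) (by positivity)
          linarith
      _ ≤ η * (1 - ‖⟪e, mob e ζ z⟫_ℂ‖) := by nlinarith

/-- Cluster theorem for functions that are tame with respect to finitely many lines. -/
theorem lines_thm (hDC : DiscCorona) [FiniteDimensional ℂ E] : ∀ (n : ℕ) {I : Type u}
    (Φ : Char I E) (Λ L : List (AutF I E × E)), Λ.length = n → (∀ c ∈ Λ, ‖c.2‖ = 1) →
    L ≠ [] → Over Φ L →
    ∀ {κ : Type} [Fintype κ] (F : κ → I → E → ℂ) (g : I → E → ℂ), (∀ j, BH (F j)) → BH g →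
    (∀ ε : ℝ, 0 < ε → ∃ η : ℝ, 0 < η ∧ ∀ᶠ i in Φ.filt, ∀ z ∈ ball (0 : E) 1,
      ∀ w ∈ ball (0 : E) 1, Ctl L η i z → Ctl L η i w →
      (∀ c ∈ Λ, Close c.2 η (c.1.fwd i z) (c.1.fwd i w)) → ∀ j, ‖F j i z - F j i w‖ ≤ ε) →
    ∀ {ρ δ : ℝ}, 0 < ρ → 0 < δ →
    (∀ᶠ i in Φ.filt, ∀ z ∈ ball (0 : E) 1, Ctl L ρ i z → (∃ j, δ ≤ ‖F j i z‖) ∨ δ ≤ ‖g i z‖) →
    (∃ j, Φ.φ (F j) ≠ 0) ∨ Φ.φ g ≠ 0 := by
  intro n
  induction n with
  | zero =>
    intro I Φ Λ L hΛ hΛ1 hLne hL κ _ F g hF hg H ρ δ hρ hδ hlow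
    by_contra hcon
    push Not at hcon
    obtain ⟨hF0, hg0⟩ := hcon
    have hΛnil : Λ = [] := List.eq_nil_of_length_eq_zero hΛ
    subst hΛnil
    obtain ⟨n, hn⟩ : ∃ n, L.length = n + 1 :=
      ⟨L.length - 1, by have := List.length_pos_iff.mpr hLne; omega⟩
    set ε : ℝ := δ / 3 with hε
    have hε0 : 0 < ε := by positivity
    obtain ⟨η, hη, hH⟩ := H ε hε0
    set κ₁ : ℝ := min η ρ with hκ₁
    have hκ₁0 : 0 < κ₁ := lt_min hη hρ
    -- the control sets are not empty
    have hne : ∀ᶠ i in Φ.filt, ∃ z ∈ ball (0 : E) 1, Ctl L κ₁ i z := by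
      by_contra hcon
      have h1 := Φ.not_eventually hcon
      have h2 := points_thm hDC n Φ L hn hL (BH.const 0) (κ := κ₁) (δ := 1) hκ₁0 one_pos (by
        filter_upwards [h1] with i hi z hz hctl
        exact absurd ⟨z, hz, hctl⟩ hi)
      exact h2 (Φ.map_const 0)
    classical
    set b : I → E := fun i => if h : ∃ z ∈ ball (0 : E) 1, Ctl L κ₁ i z then h.choose else 0 with hb
    have hbmem : ∀ i, b i ∈ ball (0 : E) 1 := by
      intro i
      simp only [hb]
      split_ifs with h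
      · exact h.choose_spec.1
      · exact mem_ball_self one_pos
    have hbctl : ∀ i, (∃ z ∈ ball (0 : E) 1, Ctl L κ₁ i z) → Ctl L κ₁ i (b i) := by
      intro i h
      simp only [hb, h, dif_pos]
      exact h.choose_spec.2
    have hcB : ∀ j, ∃ C : ℝ, ∀ i, ‖F j i (b i)‖ ≤ C := by
      intro j
      obtain ⟨C, hC⟩ := (hF j).bdd
      exact ⟨C, fun i => hC i _ (hbmem i)⟩
    have hcBH : ∀ j, BH fun i (_ : E) => F j i (b i) := fun j => BH.constI (hcB j)
    have hvar : ∀ᶠ i in Φ.filt, ∀ z ∈ ball (0 : E) 1, Ctl L κ₁ i z →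
        ∀ j, ‖F j i z - F j i (b i)‖ ≤ ε := by
      filter_upwards [hH, hne] with i h1 h2 z hz hctl
      exact h1 z hz (b i) (hbmem i) (hctl.mono (min_le_left _ _))
        ((hbctl i h2).mono (min_le_left _ _)) (by simp)
    have hsmall : ∀ j, ‖Φ.φ (fun i _ => F j i (b i))‖ ≤ ε := by
      intro j
      have h1 : ‖Φ.φ (fun i z => F j i z - F j i (b i))‖ ≤ ε := by
        apply bound_near Φ L hL hκ₁0 ((hF j).sub (hcBH j)) hε0.le
        filter_upwards [hvar] with i hi z hz hctl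
        exact hi z hz hctl j
      rw [Φ.map_sub (hF j) (hcBH j), hF0 j, zero_sub, norm_neg] at h1
      exact h1
    have hev : ∀ᶠ i in Φ.filt, ∀ j, ‖F j i (b i)‖ < 3 / 2 * ε := by
      rw [eventually_all]
      intro j
      have h1 := (Φ.tendsto_constI (hcB j)).norm
      exact h1.eventually_lt_const (by linarith [hsmall j])
    refine points_thm hDC n Φ L hn hL hg (κ := κ₁) (δ := δ) hκ₁0 hδ ?_ hg0
    filter_upwards [hlow, hvar, hev] with i h1 h2 h3 z hz hctl
    rcases h1 z hz (hctl.mono (min_le_right _ _)) with ⟨j, hj⟩ | h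
    · exfalso
      have h4 := h2 z hz hctl j
      have h5 := h3 j
      have h6 : ‖F j i z‖ ≤ ‖F j i z - F j i (b i)‖ + ‖F j i (b i)‖ := by
        calc ‖F j i z‖ = ‖(F j i z - F j i (b i)) + F j i (b i)‖ := by congr 1; ring
          _ ≤ _ := norm_add_le _ _
      rw [hε] at h4 h5
      linarith
    · exact h
  | succ n ih =>
    intro I Φ Λ L hΛ hΛ1 hLne hL κ _ F g hF hg H ρ δ hρ hδ hlow
    by_contra hcon
    push Not at hcon
    obtain ⟨hF0, hg0⟩ := hcon
    obtain ⟨c, Λ', rfl⟩ : ∃ c Λ', Λ = c :: Λ' := by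
      match Λ, hΛ with
      | c :: Λ', _ => exact ⟨c, Λ', rfl⟩
    have he : ‖c.2‖ = 1 := hΛ1 c (by simp)
    obtain ⟨Ψ, hΨx, hΨF⟩ := mstepA hDC Φ c.1 (e := fun _ => c.2) fun _ => he
    obtain ⟨S, hS⟩ : ∃ S, S = c.1.symm.comp Prod.fst (AutF.mobF (I := I) (e := fun _ => c.2)
      fun _ => he) := ⟨_, rfl⟩
    rw [← hS] at hΨF
    have hSf : ∀ p z, S.fwd p z = c.1.bwd p.1 (mob c.2 p.2 z) := by
      intro p z; rw [hS]; rfl
    obtain ⟨ν, hν1, hΨν⟩ := Ψ.exists_point
    have hg' : BH fun p z => g p.1 (S.fwd p z) := hg.compAut Prod.fst S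
    have hF' : ∀ j, BH fun p z => F j p.1 (S.fwd p z) := fun j => (hF j).compAut Prod.fst S
    have hlow' := ev_fst hΨF hlow
    have hgv := hΨF g hg
    rw [hg0] at hgv
    have hFv := fun j => hΨF (F j) (hF j)
    simp only [hF0] at hFv
    rcases lt_or_eq_of_le hν1 with hν | hν
    · -- interior case
      have hL2 := over_mapL hΨF hL
      have hctl := ctl_of_interior Ψ hν hΨν hL2 hρ
      have hνm : ν ∈ ball (0 : E) 1 := by rwa [mem_ball_zero_iff]
      have hlimg := (tendsto_of_interior Ψ hν hΨν hg').norm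
      have hlimF := fun j => (tendsto_of_interior Ψ hν hΨν (hF' j)).norm
      rw [hgv, norm_zero] at hlimg
      simp only [hFv, norm_zero] at hlimF
      have h1 : ∀ᶠ p in Ψ.filt, ‖g p.1 (S.fwd p ν)‖ < δ := hlimg.eventually_lt_const hδ
      have h2 : ∀ᶠ p in Ψ.filt, ∀ j, ‖F j p.1 (S.fwd p ν)‖ < δ := by
        rw [eventually_all]
        intro j
        exact (hlimF j).eventually_lt_const hδ
      obtain ⟨p, h1, h2, h3, h4⟩ := (h1.and (h2.and (hctl.and hlow'))).exists
      rcases h4 _ (S.mfwd p ν hνm) (ctl_mapL.mp h3) with ⟨j, hj⟩ | h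
      · linarith [h2 j]
      · linarith
    · -- boundary case
      have hx0 : ⟪c.2, ν⟫_ℂ = 0 := by rw [← hΨν]; exact hΨx
      have hover : Over Ψ ((AutF.one _ E, ν) :: mapL Prod.fst S L) := by
        intro c hc
        rcases List.mem_cons.mp hc with rfl | hc
        · exact ⟨hν, hΨν⟩
        · exact over_mapL hΨF hL c hc
      rcases ih Ψ (mapL Prod.fst S Λ') ((AutF.one _ E, ν) :: mapL Prod.fst S L) (by
          simp only [List.length_cons, mapL, List.length_map] at hΛ ⊢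
          omega) (by
          intro c' hc'
          simp only [mapL, List.mem_map] at hc'
          obtain ⟨c'', hc'', rfl⟩ := hc'
          exact hΛ1 c'' (by simp [hc''])) (by simp) hover
        (fun j p z => F j p.1 (S.fwd p z)) (fun p z => g p.1 (S.fwd p z)) hF' hg' (by
          intro ε hε
          obtain ⟨η, hη, hH⟩ := H ε hε
          refine ⟨min η (min (η / 800) (1 / 4)), by positivity, ?_⟩
          filter_upwards [ev_fst hΨF hH] with p hp z hz w hw hzc hwc hcl j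
          have hzν : ‖z - ν‖ < min η (min (η / 800) (1 / 4)) := hzc (AutF.one _ E, ν) (by simp)
          have hwν : ‖w - ν‖ < min η (min (η / 800) (1 / 4)) := hwc (AutF.one _ E, ν) (by simp)
          have hzc' : Ctl L η p.1 (S.fwd p z) := by
            have h0 : Ctl (mapL Prod.fst S L) (min η (min (η / 800) (1 / 4))) p z :=
              fun c' hc' => hzc c' (List.mem_cons_of_mem _ hc')
            exact (ctl_mapL.mp h0).mono (min_le_left _ _)
          have hwc' : Ctl L η p.1 (S.fwd p w) := by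
            have h0 : Ctl (mapL Prod.fst S L) (min η (min (η / 800) (1 / 4))) p w :=
              fun c' hc' => hwc c' (List.mem_cons_of_mem _ hc')
            exact (ctl_mapL.mp h0).mono (min_le_left _ _)
          apply hp _ (S.mfwd p z hz) _ (S.mfwd p w hw) hzc' hwc'
          intro c' hc'
          rcases List.mem_cons.mp hc' with rfl | hc'
          · rw [hSf, hSf, c'.1.right p.1 _ (mob_mem he (norm_coe_lt p.2) hz),
              c'.1.right p.1 _ (mob_mem he (norm_coe_lt p.2) hw)]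
            have h1 : min η (min (η / 800) (1 / 4)) ≤ η / 800 :=
              (min_le_right _ _).trans (min_le_left _ _)
            have h2 : min η (min (η / 800) (1 / 4)) ≤ 1 / 4 :=
              (min_le_right _ _).trans (min_le_right _ _)
            have hin : ∀ z : E, ‖z - ν‖ < min η (min (η / 800) (1 / 4)) →
                ‖⟪c'.2, z⟫_ℂ‖ ≤ 1 / 2 := by
              intro z hz
              have h3 : ⟪c'.2, z⟫_ℂ = ⟪c'.2, z - ν⟫_ℂ := by
                rw [inner_sub_right, hx0, sub_zero]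
              rw [h3]
              have h4 := norm_inner_le he (z - ν)
              linarith
            have hzw : ‖z - w‖ ≤ ‖z - ν‖ + ‖w - ν‖ := by
              calc ‖z - w‖ = ‖(z - ν) - (w - ν)‖ := by congr 1; abel
                _ ≤ _ := norm_sub_le _ _
            apply close_mob he (norm_coe_lt p.2) hz hw (hin z hzν) (hin w hwν)
            · linarith
            · linarith
          · have h1 := hcl (c'.1.comp Prod.fst S, c'.2) (by
              simp only [mapL, List.mem_map]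
              exact ⟨c', hc', rfl⟩)
            exact h1.mono (hΛ1 c' (by simp [hc'])) (min_le_left _ _)
              (c'.1.mfwd p.1 _ (S.mfwd p z hz)))
        (ρ := ρ) (δ := δ) hρ hδ (by
          filter_upwards [hlow'] with p hp z hz hctl
          apply hp _ (S.mfwd p z hz)
          refine ctl_mapL.mp fun c' hc' => ?_
          exact hctl c' (List.mem_cons_of_mem _ hc')) with ⟨j, hj⟩ | h
      · exact hj (hFv j)
      · exact h hgv

end Pool.Agent.Lib.MP_ca0fc2_an
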