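import Mathlib
import Pool.Agent.Lib.MP_ca0fc2_an.PointsThm
import Pool.Agent.Lib.MP_ca0fc2_an.Defs

set_option autoImplicit false

open Metric Set Filter Topology MeasureTheory
open scoped InnerProductSpace ComplexConjugate

namespace Pool.Agent.Lib.MP_ca0fc2_an

universe u

variable {E : Type*} [NormedAddCommGroup E] [InnerProductSpace ℂ E]

theorem SolvableOn.mono {N : ℕ} {f : Fin N → E → ℂ} {D D' : Set E} {C : ℝ} (h : SolvableOn f D C)
    (hD : D' ⊆ D) : SolvableOn f D' C := by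
  obtain ⟨h, h1, h2, h3⟩ := h
  exact ⟨h, fun j => (h1 j).mono hD, fun j z hz => h2 j z (hD hz), fun z hz => h3 z (hD hz)⟩

theorem SolvableOn.comp {N : ℕ} {f : Fin N → E → ℂ} {D D' : Set E} {C : ℝ} (h : SolvableOn f D C)
    {S : E → E} (hS : DifferentiableOn ℂ S D') (hm : ∀ z ∈ D', S z ∈ D) :
    SolvableOn (fun j z => f j (S z)) D' C := by
  obtain ⟨h, h1, h2, h3⟩ := h
  exact ⟨fun j z => h j (S z), fun j => (h1 j).comp hS hm, fun j z hz => h2 j _ (hm z hz),
    fun z hz => h3 _ (hm z hz)⟩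

theorem SolvableOn.lower {N : ℕ} {f : Fin N → E → ℂ} {D : Set E} {C : ℝ} (h : SolvableOn f D C) {z : E}
    (hz : z ∈ D) : 1 ≤ (∑ j, ‖f j z‖) * C := by
  obtain ⟨h, h1, h2, h3⟩ := h
  calc (1 : ℝ) = ‖∑ j, f j z * h j z‖ := by rw [h3 z hz, norm_one]
    _ ≤ ∑ j, ‖f j z‖ * ‖h j z‖ := by
        refine (norm_sum_le _ _).trans (le_of_eq ?_)
        simp only [norm_mul]
    _ ≤ ∑ j, ‖f j z‖ * C :=
        Finset.sum_le_sum fun j _ => mul_le_mul_of_nonneg_left (h2 j z hz) (norm_nonneg _)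
    _ = _ := by rw [Finset.sum_mul]

/-- If the data are uniformly solvable near a boundary point, then they are not killed by the
characters over that point. -/
theorem Char.exists_ne_zero_of_solv {I : Type*} (hDC : DiscCorona) (Φ : Char I E) {ν : E}
    (hν : ‖ν‖ = 1) (hΦ : Φ.φ (fun _ z => ⟪ν, z⟫_ℂ) = 1) {N : ℕ} {f : Fin N → I → E → ℂ}
    (hf : ∀ j, BH (f j)) {κ C : ℝ} (hκ : 0 < κ)
    (h : ∀ᶠ i in Φ.filt, SolvableOn (fun j => f j i) {z | z ∈ ball (0 : E) 1 ∧ ‖1 - ⟪ν, z⟫_ℂ‖ < κ} C) :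
    ∃ j, Φ.φ (f j) ≠ 0 := by
  classical
  by_contra hcon
  push Not at hcon
  set J : Set I := {i | SolvableOn (fun j => f j i)
    {z | z ∈ ball (0 : E) 1 ∧ ‖1 - ⟪ν, z⟫_ℂ‖ < κ} C} with hJ
  have hJ1 : Φ.φ (Char.ind J) = 1 := h
  have hP : BH fun (_ : I) (z : E) => 1 - ⟪ν, z⟫_ℂ := (BH.const 1).sub (BH.inner ν)
  set a : Fin (N + 2) → I → E → ℂ := Fin.cons (fun _ z => 1 - ⟪ν, z⟫_ℂ)
    (Fin.cons (Char.ind Jᶜ) fun j i z => f j i z * Char.ind J i z) with ha
  have haBH : ∀ k, BH (a k) := by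
    intro k
    refine Fin.cases ?_ (fun k => ?_) k
    · exact hP
    · refine Fin.cases ?_ (fun k => ?_) k
      · exact Char.BH_ind Jᶜ
      · exact (hf k).mul (Char.BH_ind J)
  have ha0 : ∀ k, Φ.φ (a k) = 0 := by
    intro k
    refine Fin.cases ?_ (fun k => ?_) k
    · change Φ.φ (fun _ z => 1 - ⟪ν, z⟫_ℂ) = 0
      rw [Φ.map_sub (BH.const 1) (BH.inner ν), Φ.map_const, hΦ, sub_self]
    · refine Fin.cases ?_ (fun k => ?_) k
      · change Φ.φ (Char.ind Jᶜ) = 0
        rw [Φ.ind_compl, hJ1, sub_self]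
      · change Φ.φ (fun i z => f k i z * Char.ind J i z) = 0
        rw [Φ.map_mul (hf k) (Char.BH_ind J), hcon k, zero_mul]
  set C₁ : ℝ := max C 0 + (4 / κ + 1) with hC₁
  have hC₁0 : 0 ≤ C₁ := by positivity
  have hCC₁ : C ≤ C₁ := by
    have : 0 < 4 / κ := by positivity
    have := le_max_left C 0
    linarith
  have hκC₁ : 4 / κ ≤ C₁ := by
    have := le_max_right C 0
    linarith
  have h1C₁ : 1 ≤ C₁ := by
    have : 0 < 4 / κ := by positivity
    have := le_max_right C 0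
    linarith
  obtain ⟨b, hb, hbs⟩ := unimod_of_tubes hDC (e := fun _ => ν) (fun _ => hν) haBH (r := 1 / 2)
    (C := C₁) (by norm_num) (by
    intro i ζ hζ
    have hζ1 : ‖ζ‖ < 1 := by simpa using hζ
    have h1ζ : 1 - ‖ζ‖ ≤ ‖1 - ζ‖ := by
      have := norm_sub_norm_le (1 : ℂ) ζ
      rwa [norm_one] at this
    have htube : ∀ z ∈ ball (0 : E) 1, ⟪ν, z⟫_ℂ ∈ ball ζ (1 / 2 * (1 - ‖ζ‖)) →
        ‖1 - ζ‖ / 2 ≤ ‖1 - ⟪ν, z⟫_ℂ‖ ∧ ‖1 - ⟪ν, z⟫_ℂ‖ ≤ 3 / 2 * ‖1 - ζ‖ := by
      intro z hz hzt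
      rw [mem_ball, dist_eq_norm] at hzt
      have h1 : ‖1 - ζ‖ ≤ ‖1 - ⟪ν, z⟫_ℂ‖ + ‖⟪ν, z⟫_ℂ - ζ‖ := by
        calc ‖1 - ζ‖ = ‖(1 - ⟪ν, z⟫_ℂ) + (⟪ν, z⟫_ℂ - ζ)‖ := by congr 1; ring
          _ ≤ _ := norm_add_le _ _
      have h2 : ‖1 - ⟪ν, z⟫_ℂ‖ ≤ ‖1 - ζ‖ + ‖⟪ν, z⟫_ℂ - ζ‖ := by
        calc ‖1 - ⟪ν, z⟫_ℂ‖ = ‖(1 - ζ) - (⟪ν, z⟫_ℂ - ζ)‖ := by congr 1; ring
          _ ≤ _ := norm_sub_le _ _
      constructor <;> linarith
    by_cases hi : i ∈ J
    · by_cases hcase : κ / 2 ≤ ‖1 - ζ‖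
      · -- the first function is invertible on the tube
        have hne : ∀ z ∈ ball (0 : E) 1, ⟪ν, z⟫_ℂ ∈ ball ζ (1 / 2 * (1 - ‖ζ‖)) →
            κ / 4 ≤ ‖1 - ⟪ν, z⟫_ℂ‖ := by
          intro z hz hzt
          have := (htube z hz hzt).1
          linarith
        refine ⟨Fin.cons (fun z => (1 - ⟪ν, z⟫_ℂ)⁻¹) fun _ _ => 0, ?_, ?_, ?_⟩
        · intro k
          refine Fin.cases ?_ (fun k => ?_) k
          · refine DifferentiableOn.inv ?_ ?_
            · exact (hP.holo i).mono fun z hz => hz.1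
            · intro z hz h0
              have := hne z hz.1 hz.2
              rw [show 1 - ⟪ν, z⟫_ℂ = 0 from h0, norm_zero] at this
              linarith
          · exact differentiableOn_const _
        · intro k z hz hzt
          refine Fin.cases ?_ (fun k => ?_) k
          · have h1 := hne z hz hzt
            simp only [Fin.cons_zero, norm_inv]
            refine le_trans ?_ hκC₁
            rw [inv_le_comm₀ (by linarith) (by positivity)]
            calc (4 / κ)⁻¹ = κ / 4 := by field_simp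
              _ ≤ _ := h1
          · simpa using hC₁0
        · intro z hz hzt
          have h1 := hne z hz hzt
          have h2 : (1 : ℂ) - ⟪ν, z⟫_ℂ ≠ 0 := by
            intro h0
            rw [h0, norm_zero] at h1
            linarith
          rw [Fin.sum_univ_succ]
          simp [ha, mul_inv_cancel₀ h2]
      · push Not at hcase
        obtain ⟨h, h1, h2, h3⟩ := hi
        have hin : ∀ z ∈ ball (0 : E) 1, ⟪ν, z⟫_ℂ ∈ ball ζ (1 / 2 * (1 - ‖ζ‖)) →
            z ∈ {z | z ∈ ball (0 : E) 1 ∧ ‖1 - ⟪ν, z⟫_ℂ‖ < κ} := by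
          intro z hz hzt
          have := (htube z hz hzt).2
          exact ⟨hz, by linarith⟩
        have hi : i ∈ J := ⟨h, h1, h2, h3⟩
        refine ⟨Fin.cons (fun _ => 0) (Fin.cons (fun _ => 0) h), ?_, ?_, ?_⟩
        · intro k
          refine Fin.cases ?_ (fun k => ?_) k
          · exact differentiableOn_const _
          · refine Fin.cases ?_ (fun k => ?_) k
            · exact differentiableOn_const _
            · exact (h1 k).mono fun z hz => hin z hz.1 hz.2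
        · intro k z hz hzt
          refine Fin.cases ?_ (fun k => ?_) k
          · simpa using hC₁0
          · refine Fin.cases ?_ (fun k => ?_) k
            · simpa using hC₁0
            · exact (h2 k z (hin z hz hzt)).trans hCC₁
        · intro z hz hzt
          rw [Fin.sum_univ_succ, Fin.sum_univ_succ]
          simp only [Fin.cons_zero, Fin.cons_succ, mul_zero, zero_add, ha]
          rw [← h3 z (hin z hz hzt)]
          apply Finset.sum_congr rfl
          intro k _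
          rw [Char.ind_mem hi, mul_one]
    · -- the second function is equal to one
      refine ⟨Fin.cons (fun _ => 0) (Fin.cons (fun _ => 1) fun _ _ => 0), ?_, ?_, ?_⟩
      · intro k
        refine Fin.cases ?_ (fun k => ?_) k
        · exact differentiableOn_const _
        · refine Fin.cases ?_ (fun k => ?_) k
          · exact differentiableOn_const _
          · exact differentiableOn_const _
      · intro k z hz hzt
        refine Fin.cases ?_ (fun k => ?_) k
        · simpa using hC₁0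
        · refine Fin.cases ?_ (fun k => ?_) k
          · simpa using h1C₁
          · simpa using hC₁0
      · intro z hz hzt
        rw [Fin.sum_univ_succ, Fin.sum_univ_succ]
        simp only [Fin.cons_zero, Fin.cons_succ, mul_zero, zero_add, ha, mul_one,
          Finset.sum_const_zero, add_zero]
        exact Char.ind_mem (by simpa using hi) z)
  obtain ⟨k, hk⟩ := Φ.not_of_unimod haBH hb hbs
  exact hk (ha0 k)

/-- the set where all the controls are satisfied -/
def ctlSet {I : Type*} (L : List (AutF I E × E)) (κ : ℝ) (i : I) : Set E :=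
  {z | z ∈ ball (0 : E) 1 ∧ Ctl L κ i z}

/-- Cluster theorem for several boundary controls, for tuples. -/
theorem points_solv (hDC : DiscCorona) [FiniteDimensional ℂ E] : ∀ (n : ℕ) {I : Type u}
    (Φ : Char I E) (L : List (AutF I E × E)), L.length = n + 1 → Over Φ L →
    ∀ {N : ℕ} {f : Fin N → I → E → ℂ}, (∀ j, BH (f j)) → ∀ {κ C : ℝ}, 0 < κ →
    (∀ᶠ i in Φ.filt, SolvableOn (fun j => f j i) (ctlSet L κ i) C) → ∃ j, Φ.φ (f j) ≠ 0 := by
  intro n
  induction n with
  | zero =>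
    intro I Φ L hlen hL N f hf κ C hκ hsol
    obtain ⟨c, rfl⟩ : ∃ c, L = [c] := List.length_eq_one_iff.mp hlen
    obtain ⟨hν, hc⟩ := hL c (by simp)
    have hf' : ∀ j, BH fun i z => f j i (c.1.bwd i z) := fun j => (hf j).compAut id c.1.symm
    have hval : ∀ j, (Φ.comp c.1.fwd c.1.dfwd c.1.mfwd).φ (fun i z => f j i (c.1.bwd i z)) =
        Φ.φ (f j) := by
      intro j
      change Φ.φ (fun i z => f j i (c.1.bwd i (c.1.fwd i z))) = Φ.φ (f j)
      apply Φ.congr (hf j)
      intro i z hz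
      rw [c.1.left i z hz]
    have h1 : (Φ.comp c.1.fwd c.1.dfwd c.1.mfwd).φ (fun _ z => ⟪c.2, z⟫_ℂ) = 1 := by
      change Φ.φ (fun i z => ⟪c.2, c.1.fwd i z⟫_ℂ) = 1
      rw [hc, inner_self_one hν]
    obtain ⟨j, hj⟩ := Char.exists_ne_zero_of_solv hDC _ hν h1 hf' (κ := κ ^ 2 / 2) (C := C)
      (by positivity) (by
      rw [filt_comp]
      filter_upwards [hsol] with i hi
      refine hi.comp (S := c.1.bwd i) ((c.1.dbwd i).mono fun z hz => hz.1) ?_
      rintro z ⟨hz, hzk⟩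
      refine ⟨c.1.mbwd i z hz, ?_⟩
      intro c' hc'
      rw [List.mem_singleton] at hc'
      subst hc'
      rw [c'.1.right i z hz]
      have h2 := norm_sub_sq_le hν (w := z) (by
        rw [mem_ball_zero_iff] at hz
        exact hz.le)
      have h3 : 1 - (⟪c'.2, z⟫_ℂ).re ≤ ‖1 - ⟪c'.2, z⟫_ℂ‖ := by
        have := Complex.re_le_norm (1 - ⟪c'.2, z⟫_ℂ)
        simpa using this
      have h4 : ‖z - c'.2‖ ^ 2 < κ ^ 2 := by nlinarith
      exact lt_of_pow_lt_pow_left₀ 2 hκ.le h4)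
    exact ⟨j, by rwa [hval] at hj⟩
  | succ n ih =>
    intro I Φ L hlen hL N f hf κ C hκ hsol
    obtain ⟨c₁, c₂, L', rfl⟩ : ∃ c₁ c₂ L', L = c₁ :: c₂ :: L' := by
      match L, hlen with
      | c₁ :: c₂ :: L', _ => exact ⟨c₁, c₂, L', rfl⟩
    have hc₁ := hL c₁ (by simp)
    have hc₂ := hL c₂ (by simp)
    have h0mem : (0 : E) ∈ ball (0 : E) 1 := mem_ball_self one_pos
    have hdir : ∀ i, ∃ (e : E) (t : ℂ), ‖e‖ = 1 ∧ c₁.1.fwd i (c₂.1.bwd i 0) = t • e := by
      intro i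
      by_cases h0 : c₁.1.fwd i (c₂.1.bwd i 0) = 0
      · exact ⟨c₁.2, 0, hc₁.1, by rw [h0, zero_smul]⟩
      · obtain ⟨e, he, h⟩ := exists_unit h0
        exact ⟨e, _, he, h⟩
    choose e t he ht using hdir
    obtain ⟨Ψ, hΨx, hΨF⟩ := mstepA hDC Φ c₁.1 he
    obtain ⟨S, hS⟩ : ∃ S, S = c₁.1.symm.comp Prod.fst (AutF.mobF he) := ⟨_, rfl⟩
    rw [← hS] at hΨF
    have hSf : ∀ p z, S.fwd p z = c₁.1.bwd p.1 (mob (e p.1) p.2 z) := by
      intro p z; rw [hS]; rfl
    obtain ⟨ν, hν1, hΨν⟩ := Ψ.exists_point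
    have hf' : ∀ j, BH fun p z => f j p.1 (S.fwd p z) := fun j => (hf j).compAut Prod.fst S
    have hsol' := ev_fst hΨF hsol
    have hfv := fun j => hΨF (f j) (hf j)
    simp_rw [← hfv]
    rcases lt_or_eq_of_le hν1 with hν | hν
    · -- interior case
      by_contra hcon
      push Not at hcon
      have hL2 := over_mapL hΨF hL
      have hctl := ctl_of_interior Ψ hν hΨν hL2 hκ
      have hνm : ν ∈ ball (0 : E) 1 := by rwa [mem_ball_zero_iff]
      have hlim := fun j => (tendsto_of_interior Ψ hν hΨν (hf' j)).norm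
      simp only [hcon, norm_zero] at hlim
      have hlim' : Tendsto (fun p : I × ball (0 : ℂ) 1 => (∑ j, ‖f j p.1 (S.fwd p ν)‖) * C)
          Ψ.filt (𝓝 ((∑ _j : Fin N, (0 : ℝ)) * C)) :=
        (tendsto_finsetSum _ fun j _ => hlim j).mul_const C
      rw [Finset.sum_const_zero, zero_mul] at hlim'
      have h1 : ∀ᶠ p in Ψ.filt, 1 ≤ (∑ j, ‖f j p.1 (S.fwd p ν)‖) * C := by
        filter_upwards [hctl, hsol'] with p hp1 hp2
        exact hp2.lower ⟨S.mfwd p ν hνm, ctl_mapL.mp hp1⟩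
      have h3 := ge_of_tendsto hlim' h1
      linarith
    · -- boundary case
      have hx0 : Tendsto (fun p : I × ball (0 : ℂ) 1 => ⟪e p.1, ν⟫_ℂ) Ψ.filt (𝓝 0) := by
        have := Ψ.map_innerFam hΨν (e := fun p => e p.1) fun p => he p.1
        rwa [hΨx] at this
      have hsmall : ∀ᶠ p in Ψ.filt, ‖⟪e p.1, ν⟫_ℂ‖ < 1 / 4 := by
        have := hx0.norm
        rw [norm_zero] at this
        exact this.eventually_lt_const (by norm_num)
      have hfr : ∀ c ∈ c₁ :: c₂ :: L', (c = c₁ ∨ c = c₂) → ∃ κ' : ℝ, 0 < κ' ∧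
          ∀ᶠ p in Ψ.filt, ∀ z ∈ ball (0 : E) 1, ‖z - ν‖ < κ' →
            ‖c.1.fwd p.1 (S.fwd p z) - c.2‖ < κ := by
        intro c hcL hcc
        apply freeze Ψ hν hΨν (c.1.comp Prod.fst S) (ν' := c.2) _ (ρ := 1 / 4) (by norm_num) _ hκ
        · intro w
          have h1 := hΨF _ (BH.innerAut w c.1)
          rw [(hL c hcL).2 w] at h1
          exact h1
        · filter_upwards [hsmall] with p hp z hz w hw hzν hwν
          have hin : ∀ z : E, ‖z - ν‖ < 1 / 4 → ‖⟪e p.1, z⟫_ℂ‖ ≤ 1 / 2 := by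
            intro z hz
            have h1 : ⟪e p.1, z⟫_ℂ = ⟪e p.1, z - ν⟫_ℂ + ⟪e p.1, ν⟫_ℂ := by
              rw [inner_sub_right]; ring
            rw [h1]
            have h2 := norm_inner_le (he p.1) (z - ν)
            refine (norm_add_le _ _).trans ?_
            linarith
          change ‖c.1.fwd p.1 (S.fwd p z) - c.1.fwd p.1 (S.fwd p w)‖ ^ 2 ≤ _
          rw [hSf, hSf]
          obtain ⟨t', ht'⟩ : ∃ t' : ℂ, (c.1.comp id c₁.1.symm).bwd p.1 0 = t' • e p.1 := by
            rcases hcc with rfl | rfl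
            · refine ⟨0, ?_⟩
              change c.1.fwd p.1 (c.1.bwd p.1 0) = _
              rw [c.1.right p.1 0 h0mem, zero_smul]
            · exact ⟨t p.1, ht p.1⟩
          exact aut_lip (c.1.comp id c₁.1.symm) p.1 (he p.1) (norm_coe_lt p.2) ht' hz hw
            (hin z hzν) (hin w hwν)
      obtain ⟨κ₁, hκ₁, hfr₁⟩ := hfr c₁ (by simp) (Or.inl rfl)
      obtain ⟨κ₂, hκ₂, hfr₂⟩ := hfr c₂ (by simp) (Or.inr rfl)
      have hover : Over Ψ ((AutF.one _ E, ν) :: mapL Prod.fst S L') := by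
        intro c hc
        rcases List.mem_cons.mp hc with rfl | hc
        · exact ⟨hν, hΨν⟩
        · exact over_mapL hΨF (fun c' hc' => hL c' (by simp [hc'])) c hc
      refine ih Ψ ((AutF.one _ E, ν) :: mapL Prod.fst S L') ?_ hover hf'
        (κ := min κ (min κ₁ κ₂)) (C := C) (lt_min hκ (lt_min hκ₁ hκ₂)) ?_
      · simp only [List.length_cons, mapL, List.length_map] at hlen ⊢
        omega
      · filter_upwards [hfr₁, hfr₂, hsol'] with p h1 h2 h3
        refine h3.comp (S := S.fwd p) ((S.dfwd p).mono fun z hz => hz.1) ?_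
        rintro z ⟨hz, hctl⟩
        have hzν : ‖z - ν‖ < min κ (min κ₁ κ₂) := hctl (AutF.one _ E, ν) (by simp)
        have hzν1 : ‖z - ν‖ < κ₁ := hzν.trans_le ((min_le_right _ _).trans (min_le_left _ _))
        have hzν2 : ‖z - ν‖ < κ₂ := hzν.trans_le ((min_le_right _ _).trans (min_le_right _ _))
        refine ⟨S.mfwd p z hz, ?_⟩
        intro c hc
        rcases List.mem_cons.mp hc with rfl | hc
        · exact h1 z hz hzν1
        rcases List.mem_cons.mp hc with rfl | hc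
        · exact h2 z hz hzν2
        · have h4 : Ctl (mapL Prod.fst S L') (min κ (min κ₁ κ₂)) p z := fun c' hc' =>
            hctl c' (List.mem_cons_of_mem _ hc')
          exact (ctl_mapL.mp h4 c hc).trans_le (min_le_left _ _)

/-- control sets are not empty -/
theorem ctlSet_nonempty (hDC : DiscCorona) [FiniteDimensional ℂ E] {I : Type u}
    (Φ : Char I E) (L : List (AutF I E × E)) (hne : L ≠ []) (hL : Over Φ L) {κ : ℝ} (hκ : 0 < κ) :
    ∀ᶠ i in Φ.filt, (ctlSet L κ i).Nonempty := by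
  by_contra hcon
  have h1 := Φ.not_eventually hcon
  obtain ⟨n, hn⟩ : ∃ n, L.length = n + 1 :=
    ⟨L.length - 1, by have := List.length_pos_iff.mpr hne; omega⟩
  obtain ⟨j, hj⟩ := points_solv hDC n Φ L hn hL (N := 1) (f := fun _ _ _ => 0)
    (fun _ => BH.const 0) (κ := κ) (C := 0) hκ (by
    filter_upwards [h1] with i hi
    rw [not_nonempty_iff_eq_empty] at hi
    rw [hi]
    exact ⟨fun _ _ => 0, fun j => differentiableOn_const _, by simp, by simp⟩)
  exact hj (Φ.map_const 0)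

end Pool.Agent.Lib.MP_ca0fc2_an
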