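import Mathlib
import Pool.Agent.Lib.MP_ca0fc2_an.Solv
import Pool.Agent.Lib.MP_ca0fc2_an.LinesThm

set_option autoImplicit false

open Metric Set Filter Topology MeasureTheory
open scoped InnerProductSpace ComplexConjugate

namespace Pool.Agent.Lib.MP_ca0fc2_an

universe u

variable {E : Type*} [NormedAddCommGroup E] [InnerProductSpace ℂ E]

theorem SolvableAtDepth.mono {N : ℕ} {f : Fin N → E → ℂ} {C η : ℝ} : ∀ {k : ℕ} {D D' : Set E},
    SolvableAtDepth f C η k D → D' ⊆ D → SolvableAtDepth f C η k D' := by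
  intro k
  induction k with
  | zero => intro D D' h hD; exact SolvableOn.mono h hD
  | succ k ih =>
    rintro D D' ⟨e, φ, ψ, he, hφ, h⟩ hD
    exact ⟨e, φ, ψ, he, hφ, fun z₀ hz₀ => ih (h z₀ (hD hz₀)) (inter_subset_inter_left _ hD)⟩

theorem SolvableAtDepth.comp {N : ℕ} {f : Fin N → E → ℂ} {C η : ℝ} {S R : E → E} (hS : IsBallAut S R) :
    ∀ {k : ℕ} {D : Set E}, SolvableAtDepth f C η k D →
    SolvableAtDepth (fun j z => f j (S z)) C η k {z | z ∈ ball (0 : E) 1 ∧ S z ∈ D} := by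
  intro k
  induction k with
  | zero =>
    intro D h
    exact SolvableOn.comp h (hS.hol.mono fun z hz => hz.1) fun z hz => hz.2
  | succ k ih =>
    rintro D ⟨e, φ, ψ, he, hφ, h⟩
    refine ⟨e, fun z => φ (S z), fun z => R (ψ z), he, ?_, ?_⟩
    · exact ⟨hφ.hol.comp hS.hol hS.map, hS.hol'.comp hφ.hol' hφ.map',
        fun z hz => hφ.map _ (hS.map z hz), fun z hz => hS.map' _ (hφ.map' z hz),
        fun z hz => by rw [hφ.left _ (hS.map z hz), hS.left z hz],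
        fun z hz => by rw [hS.right _ (hφ.map' z hz), hφ.right z hz]⟩
    · rintro z₀ ⟨hz₀, hz₀D⟩
      refine (ih (h _ hz₀D)).mono ?_
      rintro z ⟨⟨hz, hzD⟩, hzc⟩
      exact ⟨hz, hzD, hzc⟩

theorem SolvableAtDepth.lower {N : ℕ} {f : Fin N → E → ℂ} {C η : ℝ} (hη : 0 < η) : ∀ {k : ℕ} {D : Set E},
    D ⊆ ball (0 : E) 1 → SolvableAtDepth f C η k D → ∀ {z : E}, z ∈ D → 1 ≤ (∑ j, ‖f j z‖) * C := by
  intro k
  induction k with
  | zero => intro D _ h z hz; exact SolvableOn.lower h hz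
  | succ k ih =>
    rintro D hD ⟨e, φ, ψ, he, hφ, h⟩ z hz
    refine ih (inter_subset_left.trans hD) (h z hz) ⟨hz, ?_⟩
    have h1 : 0 < 1 - ‖⟪e, φ z⟫_ℂ‖ := by
      have := norm_inner_lt he (hφ.map z (hD hz))
      linarith
    have h2 : 0 < η * (1 - ‖⟪e, φ z⟫_ℂ‖) := by positivity
    constructor <;> simpa using h2

/-- Finite depth localization for families. -/
theorem depth_thm (hDC : DiscCorona) [FiniteDimensional ℂ E] : ∀ (k : ℕ) {I : Type u}
    (Φ : Char I E) (L : List (AutF I E × E)), L ≠ [] → Over Φ L →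
    ∀ {N : ℕ} {f : Fin N → I → E → ℂ}, (∀ j, BH (f j)) → ∀ {κ C η : ℝ}, 0 < κ → 0 < η →
    (∀ᶠ i in Φ.filt, SolvableAtDepth (fun j => f j i) C η k (ctlSet L κ i)) → ∃ j, Φ.φ (f j) ≠ 0 := by
  intro k
  induction k with
  | zero =>
    intro I Φ L hne hL N f hf κ C η hκ _ hsol
    obtain ⟨n, hn⟩ : ∃ n, L.length = n + 1 :=
      ⟨L.length - 1, by have := List.length_pos_iff.mpr hne; omega⟩
    exact points_solv hDC n Φ L hn hL hf hκ hsol
  | succ k ih =>
    intro I Φ L hne hL N f hf κ C η hκ hη hsol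
    classical
    obtain ⟨c₀, hc₀⟩ := List.exists_mem_of_ne_nil L hne
    have he₀ := (hL c₀ hc₀).1
    -- choice of the lines
    have hch : ∀ i, ∃ (e : E) (φ ψ : E → E), ‖e‖ = 1 ∧ IsBallAut φ ψ ∧
        (SolvableAtDepth (fun j => f j i) C η (k + 1) (ctlSet L κ i) →
          ∀ z₀ ∈ ctlSet L κ i, SolvableAtDepth (fun j => f j i) C η k (ctlSet L κ i ∩ lineCell e η φ z₀)) := by
      intro i
      by_cases h : SolvableAtDepth (fun j => f j i) C η (k + 1) (ctlSet L κ i)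
      · obtain ⟨e, φ, ψ, he, hφ, h'⟩ := h
        exact ⟨e, φ, ψ, he, hφ, fun _ => h'⟩
      · exact ⟨c₀.2, id, id, he₀, ⟨differentiableOn_id, differentiableOn_id, fun _ hz => hz,
          fun _ hz => hz, fun _ _ => rfl, fun _ _ => rfl⟩, fun h' => absurd h' h⟩
    choose e φ ψ he hφ hch using hch
    obtain ⟨B, hB⟩ : ∃ B : AutF I E, B = ⟨φ, ψ, fun i => (hφ i).hol, fun i => (hφ i).hol',
      fun i => (hφ i).map, fun i => (hφ i).map', fun i => (hφ i).left, fun i => (hφ i).right⟩ :=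
      ⟨_, rfl⟩
    have hBf : ∀ i, B.fwd i = φ i := fun i => by rw [hB]
    obtain ⟨Ψ, hΨx, hΨF⟩ := mstepA hDC Φ B he
    obtain ⟨S, hS⟩ : ∃ S, S = B.symm.comp Prod.fst (AutF.mobF he) := ⟨_, rfl⟩
    rw [← hS] at hΨF
    have hSf : ∀ p z, S.fwd p z = B.bwd p.1 (mob (e p.1) p.2 z) := by
      intro p z; rw [hS]; rfl
    have hSaut : ∀ p, IsBallAut (S.fwd p) (S.bwd p) := fun p =>
      ⟨S.dfwd p, S.dbwd p, S.mfwd p, S.mbwd p, S.left p, S.right p⟩
    obtain ⟨ν, hν1, hΨν⟩ := Ψ.exists_point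
    have hf' : ∀ j, BH fun p z => f j p.1 (S.fwd p z) := fun j => (hf j).compAut Prod.fst S
    have hsol' := ev_fst hΨF hsol
    have hfv := fun j => hΨF (f j) (hf j)
    simp_rw [← hfv]
    rcases lt_or_eq_of_le hν1 with hν | hν
    · -- interior case
      by_contra hcon
      push Not at hcon
      have hL2 := over_mapL hΨF hL
      have hctl := ctl_of_interior Ψ hν hΨν hL2 hκ
      have hνm : ν ∈ ball (0 : E) 1 := by rwa [mem_ball_zero_iff]
      have hlim := fun j => (tendsto_of_interior Ψ hν hΨν (hf' j)).norm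
      simp only [hcon, norm_zero] at hlim
      have hlim' : Tendsto (fun p : I × ball (0 : ℂ) 1 => (∑ j, ‖f j p.1 (S.fwd p ν)‖) * C)
          Ψ.filt (𝓝 ((∑ _j : Fin N, (0 : ℝ)) * C)) :=
        (tendsto_finsetSum _ fun j _ => hlim j).mul_const C
      rw [Finset.sum_const_zero, zero_mul] at hlim'
      have h1 : ∀ᶠ p in Ψ.filt, 1 ≤ (∑ j, ‖f j p.1 (S.fwd p ν)‖) * C := by
        filter_upwards [hctl, hsol'] with p hp1 hp2
        exact hp2.lower hη (fun z hz => hz.1) ⟨S.mfwd p ν hνm, ctl_mapL.mp hp1⟩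
      have h3 := ge_of_tendsto hlim' h1
      linarith
    · -- boundary case
      have hx0 : Tendsto (fun p : I × ball (0 : ℂ) 1 => ⟪e p.1, ν⟫_ℂ) Ψ.filt (𝓝 0) := by
        have := Ψ.map_innerFam hΨν (e := fun p => e p.1) fun p => he p.1
        rwa [hΨx] at this
      have hsmall : ∀ᶠ p in Ψ.filt, ‖⟪e p.1, ν⟫_ℂ‖ < 1 / 4 := by
        have := hx0.norm
        rw [norm_zero] at this
        exact this.eventually_lt_const (by norm_num)
      have hover : Over Ψ ((AutF.one _ E, ν) :: mapL Prod.fst S L) := by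
        intro c hc
        rcases List.mem_cons.mp hc with rfl | hc
        · exact ⟨hν, hΨν⟩
        · exact over_mapL hΨF hL c hc
      set κ' : ℝ := min κ (min (η / 1600) (1 / 8)) with hκ'
      have hκ'0 : 0 < κ' := by positivity
      have hκ'κ : κ' ≤ κ := min_le_left _ _
      have hκ'η : κ' ≤ η / 1600 := (min_le_right _ _).trans (min_le_left _ _)
      have hκ'8 : κ' ≤ 1 / 8 := (min_le_right _ _).trans (min_le_right _ _)
      have hnon := ctlSet_nonempty hDC Ψ _ (by simp) hover hκ'0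
      refine ih Ψ ((AutF.one _ E, ν) :: mapL Prod.fst S L) (by simp) hover hf' (κ := κ') (C := C)
        (η := η) hκ'0 hη ?_
      filter_upwards [hsmall, hnon, hsol'] with p hp1 hp2 hp3
      obtain ⟨z₀, hz₀⟩ := hp2
      have hsub : ∀ z ∈ ctlSet ((AutF.one _ E, ν) :: mapL Prod.fst S L) κ' p,
          S.fwd p z ∈ ctlSet L κ p.1 := by
        rintro z ⟨hz, hzc⟩
        refine ⟨S.mfwd p z hz, ?_⟩
        have h1 : Ctl (mapL Prod.fst S L) κ' p z := fun c hc =>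
          hzc c (List.mem_cons_of_mem _ hc)
        exact (ctl_mapL.mp h1).mono hκ'κ
      have h1 := hch p.1 hp3 _ (hsub z₀ hz₀)
      refine (h1.comp (hSaut p)).mono ?_
      intro z hz
      refine ⟨hz.1, hsub z hz, ?_⟩
      -- the cell
      have hin : ∀ z : E, ‖z - ν‖ < κ' → ‖⟪e p.1, z⟫_ℂ‖ ≤ 1 / 2 := by
        intro z hz
        have h1 : ⟪e p.1, z⟫_ℂ = ⟪e p.1, z - ν⟫_ℂ + ⟪e p.1, ν⟫_ℂ := by
          rw [inner_sub_right]; ring
        rw [h1]
        have h2 := norm_inner_le (he p.1) (z - ν)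
        refine (norm_add_le _ _).trans ?_
        linarith
      have hzν : ‖z - ν‖ < κ' := hz.2 (AutF.one _ E, ν) (by simp)
      have hz₀ν : ‖z₀ - ν‖ < κ' := hz₀.2 (AutF.one _ E, ν) (by simp)
      have hzz : ‖z₀ - z‖ < 2 * κ' := by
        calc ‖z₀ - z‖ = ‖(z₀ - ν) - (z - ν)‖ := by congr 1; abel
          _ ≤ ‖z₀ - ν‖ + ‖z - ν‖ := norm_sub_le _ _
          _ < 2 * κ' := by linarith
      have hcm := close_mob (he p.1) (norm_coe_lt p.2) hz₀.1 hz.1 (hin z₀ hz₀ν) (hin z hzν)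
        (η := η / 2) (by linarith) (by linarith)
      have hφS : ∀ z ∈ ball (0 : E) 1, φ p.1 (S.fwd p z) = mob (e p.1) p.2 z := by
        intro z hz
        rw [hSf, ← hBf, B.right p.1 _ (mob_mem (he p.1) (norm_coe_lt p.2) hz)]
      have hpos : 0 < 1 - ‖⟪e p.1, mob (e p.1) p.2 z₀⟫_ℂ‖ := by
        have := norm_inner_lt (he p.1) (mob_mem (he p.1) (norm_coe_lt p.2) hz₀.1)
        linarith
      have hlt : η / 2 * (1 - ‖⟪e p.1, mob (e p.1) p.2 z₀⟫_ℂ‖) <
          η * (1 - ‖⟪e p.1, mob (e p.1) p.2 z₀⟫_ℂ‖) := by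
        apply mul_lt_mul_of_pos_right _ hpos
        linarith
      constructor
      · rw [hφS z hz.1, hφS z₀ hz₀.1, ← neg_sub, inner_neg_right, norm_neg]
        exact hcm.1.trans_lt hlt
      · rw [hφS z hz.1, hφS z₀ hz₀.1, norm_sub_rev]
        exact hcm.2.trans_lt hlt

/-- A criterion for unimodularity of families in terms of characters. -/
theorem unimod_of_chars {I : Type*} {N : ℕ} {F : Fin N → I → E → ℂ} (hF : ∀ j, BH (F j))
    (h : ∀ Φ : Char I E, ∃ j, Φ.φ (F j) ≠ 0) :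
    ∃ G : Fin N → I → E → ℂ, (∀ j, BH (G j)) ∧
      ∀ i, ∀ z ∈ ball (0 : E) 1, ∑ j, F j i z * G j i z = 1 := by
  classical
  by_contra hcon
  obtain ⟨Φ, hΦ⟩ := exists_char (S := Set.range F) (by rintro _ ⟨j, rfl⟩; exact hF j) (by
    rintro ⟨n, a, b, ha, hb, hs⟩
    apply hcon
    choose s hs' using ha
    refine ⟨fun j i z => ∑ k with s k = j, b k i z, fun j => BH.sum fun k _ => hb k, ?_⟩
    intro i z hz
    rw [← hs i z hz]
    simp_rw [Finset.mul_sum]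
    have h1 : ∀ j, ∑ k with s k = j, F j i z * b k i z = ∑ k with s k = j, a k i z * b k i z := by
      intro j
      apply Finset.sum_congr rfl
      intro k hk
      rw [Finset.mem_filter] at hk
      rw [← hk.2, hs' k]
    simp_rw [h1]
    exact Finset.sum_fiberwise Finset.univ s fun k => a k i z * b k i z)
  obtain ⟨j, hj⟩ := h Φ
  exact hj (hΦ _ ⟨j, rfl⟩)

/-- Finite depth localization, with uniform bounds. -/
theorem finite_depth (hDC : DiscCorona) [FiniteDimensional ℂ E] (N : ℕ) (M δ : ℝ) (hδ : 0 < δ)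
    (k : E → ℕ) (η ρ C : E → ℝ) (hη : ∀ l, 0 < η l) (hρ : ∀ l, 0 < ρ l) :
    ∃ C' : ℝ, ∀ f : Fin N → E → ℂ, (∀ j, DifferentiableOn ℂ (f j) (ball 0 1)) →
      (∀ j, ∀ z ∈ ball (0 : E) 1, ‖f j z‖ ≤ M) →
      (∀ z ∈ ball (0 : E) 1, δ ≤ ∑ j, ‖f j z‖ ^ 2) →
      (∀ l ∈ sphere (0 : E) 1, SolvableAtDepth f (C l) (η l) (k l) (ball 0 1 ∩ ball l (ρ l))) →
      ∃ h : Fin N → E → ℂ, (∀ j, DifferentiableOn ℂ (h j) (ball 0 1)) ∧
        (∀ j, ∀ z ∈ ball (0 : E) 1, ‖h j z‖ ≤ C') ∧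
        ∀ z ∈ ball (0 : E) 1, ∑ j, f j z * h j z = 1 := by
  classical
  obtain ⟨I, hI⟩ : ∃ I : Type _, I = {f : Fin N → E → ℂ //
      (∀ j, DifferentiableOn ℂ (f j) (ball 0 1)) ∧ (∀ j, ∀ z ∈ ball (0 : E) 1, ‖f j z‖ ≤ M) ∧
      (∀ z ∈ ball (0 : E) 1, δ ≤ ∑ j, ‖f j z‖ ^ 2) ∧
      (∀ l ∈ sphere (0 : E) 1, SolvableAtDepth f (C l) (η l) (k l) (ball 0 1 ∩ ball l (ρ l)))} := ⟨_, rfl⟩
  subst hI
  set I := {f : Fin N → E → ℂ //
      (∀ j, DifferentiableOn ℂ (f j) (ball 0 1)) ∧ (∀ j, ∀ z ∈ ball (0 : E) 1, ‖f j z‖ ≤ M) ∧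
      (∀ z ∈ ball (0 : E) 1, δ ≤ ∑ j, ‖f j z‖ ^ 2) ∧
      (∀ l ∈ sphere (0 : E) 1, SolvableAtDepth f (C l) (η l) (k l) (ball 0 1 ∩ ball l (ρ l)))}
  set F : Fin N → I → E → ℂ := fun j i => i.1 j with hFdef
  have hF : ∀ j, BH (F j) := fun j => ⟨fun i => i.2.1 j, M, fun i z hz => i.2.2.1 j z hz⟩
  obtain ⟨G, hG, hs⟩ := unimod_of_chars hF (by
    intro Φ
    obtain ⟨l, hl1, hΦl⟩ := Φ.exists_point
    rcases lt_or_eq_of_le hl1 with hl | hl
    · by_contra hcon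
      push Not at hcon
      have hlm : l ∈ ball (0 : E) 1 := by rwa [mem_ball_zero_iff]
      have hlim := fun j => ((tendsto_of_interior Φ hl hΦl (hF j)).norm).pow 2
      simp only [hcon, norm_zero] at hlim
      have hlim' : Tendsto (fun i : I => ∑ j, ‖F j i l‖ ^ 2) Φ.filt
          (𝓝 (∑ _j : Fin N, (0 : ℝ) ^ 2)) := tendsto_finsetSum _ fun j _ => hlim j
      have h1 : ∀ᶠ i in Φ.filt, δ ≤ ∑ j, ‖F j i l‖ ^ 2 :=
        Eventually.of_forall fun i => i.2.2.2.1 l hlm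
      have h2 := ge_of_tendsto hlim' h1
      simp at h2
      linarith
    · refine depth_thm hDC (k l) Φ [(AutF.one I E, l)] (by simp) ?_ hF (κ := ρ l) (C := C l)
        (η := η l) (hρ l) (hη l) (Eventually.of_forall fun i => ?_)
      · intro c hc
        rw [List.mem_singleton] at hc
        subst hc
        exact ⟨hl, hΦl⟩
      · refine (i.2.2.2.2 l (by rwa [mem_sphere_zero_iff_norm])).mono ?_
        rintro z ⟨hz, hzc⟩
        refine ⟨hz, ?_⟩
        rw [mem_ball, dist_eq_norm]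
        exact hzc (AutF.one I E, l) (by simp))
  choose B hB using fun j => (hG j).bdd
  refine ⟨∑ j, |B j|, ?_⟩
  intro f h1 h2 h3 h4
  refine ⟨fun j => G j ⟨f, h1, h2, h3, h4⟩, fun j => (hG j).holo _, ?_, hs ⟨f, h1, h2, h3, h4⟩⟩
  intro j z hz
  refine (hB j _ z hz).trans ((le_abs_self _).trans ?_)
  exact Finset.single_le_sum (f := fun j => |B j|) (fun k _ => abs_nonneg _) (Finset.mem_univ j)

end Pool.Agent.Lib.MP_ca0fc2_an
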