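import Mathlib

set_option autoImplicit false

open Metric Set MeasureTheory Filter Topology

namespace Pool.Agent.Lib.MP_ca0fc2_an

/-- the singularity `1/|x-ζ|` is integrable on the disc -/
theorem integrableOn_inv_norm_sub (x : ℂ) :
    IntegrableOn (fun ζ : ℂ => ‖x - ζ‖⁻¹) (ball 0 1) := by
  have h1 : IntegrableOn (fun w : ℂ => ‖w‖⁻¹) (ball 0 (1 + ‖x‖)) := by
    rw [integrableOn_fun_norm_addHaar (volume : Measure ℂ) (f := fun t : ℝ => t⁻¹)]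
    rw [Complex.finrank_real_complex]
    refine (integrableOn_congr_fun (g := fun _ => (1 : ℝ)) ?_ measurableSet_Ioo).mpr ?_
    · intro y hy
      have : y ≠ 0 := hy.1.ne'
      simp [this]
    · exact integrableOn_const (by simp) (by simp)
  have hmp := Measure.measurePreserving_sub_left (volume : Measure ℂ) x
  have hme : MeasurableEmbedding (fun t : ℂ => x - t) :=
    (Homeomorph.subLeft x).measurableEmbedding
  have h2 := (hmp.integrableOn_comp_preimage hme).mpr h1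
  refine h2.mono_set ?_
  intro ζ hζ
  rw [mem_ball_zero_iff] at hζ
  rw [mem_preimage, mem_ball_zero_iff]
  calc ‖x - ζ‖ ≤ ‖x‖ + ‖ζ‖ := norm_sub_le _ _
    _ < 1 + ‖x‖ := by linarith

/-- the radial majorant -/
noncomputable def Phi (a : ℝ) (w : ℂ) : ℝ := ‖w‖⁻¹ * (2 / (a ^ 2 + ‖w‖ ^ 2))

theorem Phi_integrand {a : ℝ} (ha : 0 < a) {y : ℝ} (hy : y ∈ Ioi (0 : ℝ)) :
    y ^ (Module.finrank ℝ ℂ - 1) • (y⁻¹ * (2 / (a ^ 2 + y ^ 2))) =
      2 / a ^ 2 * (1 + (a⁻¹ * y) ^ 2)⁻¹ := by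
  have hy0 : y ≠ 0 := (mem_Ioi.mp hy).ne'
  rw [Complex.finrank_real_complex]
  simp only [smul_eq_mul]
  have h1 : a ^ 2 + y ^ 2 ≠ 0 := by positivity
  have h2 : 1 + (a⁻¹ * y) ^ 2 ≠ 0 := by positivity
  field_simp
  simp

theorem Phi_integrable {a : ℝ} (ha : 0 < a) : Integrable (Phi a) := by
  have h := (integrable_fun_norm_addHaar (volume : Measure ℂ)
    (f := fun y : ℝ => y⁻¹ * (2 / (a ^ 2 + y ^ 2)))).mpr ?_
  · exact h
  · refine (integrableOn_congr_fun (fun y hy => Phi_integrand ha hy) measurableSet_Ioi).mpr ?_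
    have h1 : Integrable (fun y : ℝ => (1 + (a⁻¹ * y) ^ 2)⁻¹) :=
      (integrable_inv_one_add_sq).comp_mul_left' (inv_ne_zero ha.ne')
    exact (h1.const_mul _).integrableOn

theorem Phi_integral {a : ℝ} (ha : 0 < a) : ∫ w, Phi a w = 2 * Real.pi ^ 2 / a := by
  have h := integral_fun_norm_addHaar (volume : Measure ℂ)
    (f := fun y : ℝ => y⁻¹ * (2 / (a ^ 2 + y ^ 2)))
  rw [setIntegral_congr_fun measurableSet_Ioi (fun y hy => Phi_integrand ha hy),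
    integral_const_mul, integral_comp_mul_left_Ioi (fun t => (1 + t ^ 2)⁻¹) 0 (inv_pos.mpr ha),
    mul_zero, integral_Ioi_inv_one_add_sq, Real.arctan_zero] at h
  have hvol : (volume : Measure ℂ).real (ball 0 1) = Real.pi := by
    simp [measureReal_def, Complex.volume_ball]
  rw [hvol, Complex.finrank_real_complex] at h
  change ∫ w : ℂ, ‖w‖⁻¹ * (2 / (a ^ 2 + ‖w‖ ^ 2)) = _
  rw [h]
  simp only [smul_eq_mul, inv_inv, nsmul_eq_mul]
  field_simp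
  push_cast
  ring

/-- lower bounds for `1 - conj ζ * x` -/
theorem one_sub_conj_mul_lower {x ζ : ℂ} (hx : ‖x‖ < 1) (hζ : ‖ζ‖ < 1) :
    ((1 - ‖x‖) ^ 2 + ‖x - ζ‖ ^ 2) / 2 ≤ ‖1 - (starRingEnd ℂ) ζ * x‖ ^ 2 := by
  have h1 : 1 - ‖x‖ ≤ ‖1 - (starRingEnd ℂ) ζ * x‖ := by
    have h := norm_sub_norm_le (1 : ℂ) ((starRingEnd ℂ) ζ * x)
    rw [norm_one, norm_mul, RCLike.norm_conj] at h
    have : ‖ζ‖ * ‖x‖ ≤ ‖x‖ := by
      have := mul_le_mul_of_nonneg_right hζ.le (norm_nonneg x)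
      linarith
    linarith
  have h2 : ‖x - ζ‖ ^ 2 ≤ ‖1 - (starRingEnd ℂ) ζ * x‖ ^ 2 := by
    have e : ‖1 - (starRingEnd ℂ) ζ * x‖ ^ 2 - ‖x - ζ‖ ^ 2 = (1 - ‖x‖ ^ 2) * (1 - ‖ζ‖ ^ 2) := by
      simp only [← Complex.normSq_eq_norm_sq, Complex.normSq_apply]
      simp
      ring
    have : 0 ≤ (1 - ‖x‖ ^ 2) * (1 - ‖ζ‖ ^ 2) := by
      apply mul_nonneg <;> nlinarith [norm_nonneg x, norm_nonneg ζ]
    linarith
  have h3 : (1 - ‖x‖) ^ 2 ≤ ‖1 - (starRingEnd ℂ) ζ * x‖ ^ 2 :=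
    pow_le_pow_left₀ (by linarith) h1 2
  linarith

/-- The basic integral estimate. -/
theorem kernel_bound {x : ℂ} (hx : ‖x‖ < 1) {H : ℂ → ℂ} {A : ℝ} (hA : 0 ≤ A)
    (hH : ∀ ζ ∈ ball (0 : ℂ) 1, ‖H ζ‖ ≤ A * (1 - ‖x‖) / ‖1 - (starRingEnd ℂ) ζ * x‖ ^ 2) :
    ‖∫ ζ in ball (0 : ℂ) 1, H ζ / (x - ζ)‖ ≤ 2 * Real.pi ^ 2 * A := by
  have ha : 0 < 1 - ‖x‖ := by linarith
  have hPhi : Integrable (fun ζ => A * (1 - ‖x‖) * Phi (1 - ‖x‖) (x - ζ)) := by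
    apply Integrable.const_mul
    exact (Phi_integrable ha).comp_sub_left x
  have hpt : ∀ ζ ∈ ball (0 : ℂ) 1, ‖H ζ / (x - ζ)‖ ≤ A * (1 - ‖x‖) * Phi (1 - ‖x‖) (x - ζ) := by
    intro ζ hζ
    have hζ' : ‖ζ‖ < 1 := by simpa using hζ
    rw [norm_div, Phi]
    have h1 := hH ζ hζ
    have h2 := one_sub_conj_mul_lower hx hζ'
    have h3 : 0 < (1 - ‖x‖) ^ 2 + ‖x - ζ‖ ^ 2 := by positivity
    have h4 : A * (1 - ‖x‖) / ‖1 - (starRingEnd ℂ) ζ * x‖ ^ 2 ≤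
        A * (1 - ‖x‖) * (2 / ((1 - ‖x‖) ^ 2 + ‖x - ζ‖ ^ 2)) := by
      rw [div_eq_mul_inv]
      apply mul_le_mul_of_nonneg_left _ (by positivity)
      rw [inv_le_comm₀ (by linarith) (by positivity), inv_div]
      exact h2
    calc ‖H ζ‖ / ‖x - ζ‖ = ‖x - ζ‖⁻¹ * ‖H ζ‖ := by rw [div_eq_inv_mul]
      _ ≤ ‖x - ζ‖⁻¹ * (A * (1 - ‖x‖) * (2 / ((1 - ‖x‖) ^ 2 + ‖x - ζ‖ ^ 2))) :=
          mul_le_mul_of_nonneg_left (h1.trans h4) (by positivity)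
      _ = _ := by ring
  calc ‖∫ ζ in ball (0 : ℂ) 1, H ζ / (x - ζ)‖
      ≤ ∫ ζ in ball (0 : ℂ) 1, A * (1 - ‖x‖) * Phi (1 - ‖x‖) (x - ζ) := by
        apply norm_integral_le_of_norm_le hPhi.integrableOn
        exact (ae_restrict_iff' measurableSet_ball).mpr (Eventually.of_forall hpt)
    _ ≤ ∫ ζ, A * (1 - ‖x‖) * Phi (1 - ‖x‖) (x - ζ) := by
        apply setIntegral_le_integral hPhi
        refine Eventually.of_forall fun ζ => ?_
        have : 0 ≤ Phi (1 - ‖x‖) (x - ζ) := by unfold Phi; positivity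
        exact mul_nonneg (mul_nonneg hA ha.le) this
    _ = 2 * Real.pi ^ 2 * A := by
        rw [integral_const_mul, integral_sub_left_eq_self (Phi (1 - ‖x‖)) volume x,
          Phi_integral ha]
        field_simp

end Pool.Agent.Lib.MP_ca0fc2_an
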