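import Mathlib
import Pool.Agent.Lib.MP_ca0fc2_an.Holo
import Pool.Agent.Lib.MP_ca0fc2_an.Kernel
import Pool.Agent.Lib.MP_ca0fc2_an.Pompeiu

set_option autoImplicit false

open Metric Set MeasureTheory Filter Topology

namespace Pool.Agent.Lib.MP_ca0fc2_an

theorem dbar_congr {F G : ℂ → ℂ} {z : ℂ} (h : F =ᶠ[𝓝 z] G) : dbar F z = dbar G z := by
  rw [dbar, dbar, h.fderiv_eq]

theorem continuous_dbar {F : ℂ → ℂ} (hF : ContDiff ℝ 1 F) : Continuous (dbar F) := by
  have h := hF.continuous_fderiv one_ne_zero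
  unfold dbar
  exact continuous_const.mul ((h.clm_apply continuous_const).add
    (continuous_const.mul (h.clm_apply continuous_const)))

theorem dbar_const_zero (z : ℂ) : dbar (fun _ => (0 : ℂ)) z = 0 := by
  simp [dbar]

/-- The function `G - (1/π) ∫ K(ζ,x)/(x-ζ)` is holomorphic when `dbar G ζ = K ζ ζ` and `K ζ` is
holomorphic for every `ζ`. -/
theorem dbar_correction {U : Set ℂ} (hU : IsOpen U) (hUD : U ⊆ ball 0 1) {G : ℂ → ℂ}
    {K : ℂ → ℂ → ℂ} (hG : ContDiffOn ℝ 1 G U) (hdbar : ∀ ζ ∈ U, dbar G ζ = K ζ ζ)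
    (hKm : ∀ x ∈ U, AEStronglyMeasurable (fun ζ => K ζ x) (volume.restrict (ball (0 : ℂ) 1)))
    (hKh : ∀ ζ ∈ ball (0 : ℂ) 1, DifferentiableOn ℂ (K ζ) U)
    (hKb : ∀ x₀ ∈ U, ∃ r > 0, ∃ M : ℝ, ∀ x ∈ ball x₀ r, ∀ ζ ∈ ball (0 : ℂ) 1, ‖K ζ x‖ ≤ M) :
    DifferentiableOn ℂ (fun x => G x - (1 / Real.pi : ℂ) *
      ∫ ζ in ball (0 : ℂ) 1, K ζ x / (x - ζ)) U := by
  classical
  intro x₀ hx₀
  obtain ⟨r₁, hr₁, M, hM⟩ := hKb x₀ hx₀
  obtain ⟨r₂, hr₂, hsub⟩ := Metric.isOpen_iff.mp hU x₀ hx₀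
  set r : ℝ := min r₁ r₂ / 2 with hrdef
  have hr : 0 < r := by positivity
  have h2r₁ : 2 * r ≤ r₁ := by rw [hrdef]; linarith [min_le_left r₁ r₂]
  have h2r₂ : 2 * r ≤ r₂ := by rw [hrdef]; linarith [min_le_right r₁ r₂]
  have hUr : ball x₀ (2 * r) ⊆ U := (ball_subset_ball h2r₂).trans hsub
  have hMr : ∀ x ∈ ball x₀ (2 * r), ∀ ζ ∈ ball (0 : ℂ) 1, ‖K ζ x‖ ≤ M :=
    fun x hx => hM x (ball_subset_ball h2r₁ hx)
  have hx₀D : x₀ ∈ ball (0 : ℂ) 1 := hUD hx₀
  have hM0 : 0 ≤ M := (norm_nonneg _).trans (hMr x₀ (mem_ball_self (by linarith)) x₀ hx₀D)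
  -- the cut-off function
  let θ : ContDiffBump x₀ := ⟨r / 2, r, by positivity, by linarith⟩
  set F : ℂ → ℂ := fun ζ => (θ ζ : ℂ) * G ζ with hFdef
  have hclosed : closedBall x₀ r ⊆ U := fun z hz =>
    hUr (lt_of_le_of_lt (mem_closedBall.mp hz) (by linarith))
  have hFzero : ∀ ζ, ζ ∉ closedBall x₀ r → F =ᶠ[𝓝 ζ] fun _ => 0 := by
    intro ζ hζ
    have : (closedBall x₀ r)ᶜ ∈ 𝓝 ζ := isClosed_closedBall.isOpen_compl.mem_nhds hζ
    filter_upwards [this] with w hw
    have hw' : r ≤ dist w x₀ := (not_le.mp (fun h => hw (mem_closedBall.mpr h))).le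
    simp [hFdef, θ.zero_of_le_dist hw']
  have hFsmooth : ContDiff ℝ 1 F := by
    rw [contDiff_iff_contDiffAt]
    intro ζ
    by_cases hζ : ζ ∈ closedBall x₀ r
    · have h1 : ContDiffAt ℝ 1 G ζ := hG.contDiffAt (hU.mem_nhds (hclosed hζ))
      have h2 : ContDiffAt ℝ 1 (fun w => (θ w : ℂ)) ζ :=
        Complex.ofRealCLM.contDiff.contDiffAt.comp ζ θ.contDiffAt
      exact h2.mul h1
    · exact contDiffAt_const.congr_of_eventuallyEq (hFzero ζ hζ)
  have hFcpt : HasCompactSupport F := by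
    apply HasCompactSupport.of_support_subset_isCompact (isCompact_closedBall x₀ r)
    intro ζ hζ
    by_contra h
    exact hζ ((hFzero ζ h).self_of_nhds)
  have hFnear : ∀ ζ ∈ ball x₀ (r / 2), F =ᶠ[𝓝 ζ] G := by
    intro ζ hζ
    filter_upwards [isOpen_ball.mem_nhds hζ] with w hw
    have : θ w = 1 := θ.one_of_mem_closedBall (ball_subset_closedBall hw)
    simp [hFdef, this]
  have hdbarF0 : ∀ ζ, ζ ∉ closedBall x₀ r → dbar F ζ = 0 := fun ζ hζ => by
    rw [dbar_congr (hFzero ζ hζ)]; exact dbar_const_zero ζ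
  have hdbarFnear : ∀ ζ ∈ ball x₀ (r / 2), dbar F ζ = K ζ ζ := fun ζ hζ => by
    rw [dbar_congr (hFnear ζ hζ)]
    exact hdbar ζ (hclosed (ball_subset_closedBall (ball_subset_ball (by linarith) hζ)))
  have hdc : Continuous (dbar F) := continuous_dbar hFsmooth
  obtain ⟨MF, hMF⟩ : ∃ MF : ℝ, ∀ ζ, ‖dbar F ζ‖ ≤ MF := by
    obtain ⟨C, hC⟩ := (isCompact_closedBall x₀ r).exists_bound_of_continuousOn hdc.continuousOn
    refine ⟨max C 0, fun ζ => ?_⟩
    by_cases hζ : ζ ∈ closedBall x₀ r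
    · exact (hC ζ hζ).trans (le_max_left _ _)
    · rw [hdbarF0 ζ hζ, norm_zero]; exact le_max_right _ _
  have hMF0 : 0 ≤ MF := (norm_nonneg _).trans (hMF 0)
  -- integrability of the two pieces
  have hmeas_sub : ∀ x : ℂ, AEStronglyMeasurable (fun ζ : ℂ => (x - ζ)⁻¹)
      (volume.restrict (ball (0 : ℂ) 1)) := fun x =>
    ((measurable_const.sub measurable_id).inv).aestronglyMeasurable
  have hint1 : ∀ x : ℂ, IntegrableOn (fun ζ => dbar F ζ / (x - ζ)) (ball 0 1) := by
    intro x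
    refine Integrable.mono' ((integrableOn_inv_norm_sub x).const_mul MF) ?_ ?_
    · simp_rw [div_eq_mul_inv]
      exact hdc.aestronglyMeasurable.mul (hmeas_sub x)
    · refine Eventually.of_forall fun ζ => ?_
      rw [norm_div, div_eq_mul_inv]
      exact mul_le_mul_of_nonneg_right (hMF ζ) (by positivity)
  have hint2 : ∀ x ∈ ball x₀ (2 * r), IntegrableOn (fun ζ => K ζ x / (x - ζ)) (ball 0 1) := by
    intro x hx
    refine Integrable.mono' ((integrableOn_inv_norm_sub x).const_mul M) ?_ ?_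
    · simp_rw [div_eq_mul_inv]
      exact (hKm x (hUr hx)).mul (hmeas_sub x)
    · refine (ae_restrict_iff' measurableSet_ball).mpr (Eventually.of_forall fun ζ hζ => ?_)
      rw [norm_div, div_eq_mul_inv]
      exact mul_le_mul_of_nonneg_right (hMr x hx ζ hζ) (by positivity)
  -- the regularised integrand
  set W : ℂ → ℂ → ℂ := fun x ζ => if ζ ∈ ball x₀ (r / 2) then -(dslope (K ζ) ζ x)
    else (dbar F ζ - K ζ x) / (x - ζ) with hWdef
  have hrep : ∀ x ∈ ball x₀ (r / 4), G x - (1 / Real.pi : ℂ) *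
      ∫ ζ in ball (0 : ℂ) 1, K ζ x / (x - ζ) = (1 / Real.pi : ℂ) * ∫ ζ in ball (0 : ℂ) 1, W x ζ := by
    intro x hx
    have hxF : G x = F x := ((hFnear x (ball_subset_ball (by linarith) hx)).self_of_nhds).symm
    have hcp := cauchy_pompeiu hFsmooth hFcpt x
    have hres : ∫ ζ in ball (0 : ℂ) 1, dbar F ζ / (x - ζ) = ∫ ζ : ℂ, dbar F ζ / (x - ζ) := by
      apply setIntegral_eq_integral_of_forall_compl_eq_zero
      intro ζ hζ
      have : ζ ∉ closedBall x₀ r := fun h => hζ (hUD (hclosed h))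
      rw [hdbarF0 ζ this, zero_div]
    have hpi : (Real.pi : ℂ) ≠ 0 := by exact_mod_cast Real.pi_ne_zero
    have hG' : G x = (1 / Real.pi : ℂ) * ∫ ζ in ball (0 : ℂ) 1, dbar F ζ / (x - ζ) := by
      rw [hres, hcp, hxF]; field_simp
    have hx2 : x ∈ ball x₀ (2 * r) := ball_subset_ball (by linarith) hx
    rw [hG', ← mul_sub, ← integral_sub (hint1 x) (hint2 x hx2)]
    congr 1
    apply integral_congr_ae
    have hne : ∀ᵐ ζ ∂(volume.restrict (ball (0 : ℂ) 1)), ζ ≠ x := by
      apply ae_restrict_of_ae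
      exact Measure.ae_ne volume x
    filter_upwards [hne] with ζ hζx
    simp only [hWdef]
    split_ifs with hζ
    · rw [hdbarFnear ζ hζ, dslope_of_ne _ hζx.symm, slope_def_field]
      ring
    · rw [sub_div]
  have hWd : DifferentiableAt ℂ (fun x => ∫ ζ in ball (0 : ℂ) 1, W x ζ) x₀ := by
    refine differentiableAt_integral (r := r / 4) (by positivity)
      (g := fun _ => max (2 * M / r) ((MF + M) * (4 / r))) ?_ ?_ ?_ ?_
    · refine (ae_restrict_iff' measurableSet_ball).mpr (Eventually.of_forall fun ζ hζ => ?_)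
      by_cases hζ2 : ζ ∈ ball x₀ (r / 2)
      · simp only [hWdef, hζ2, if_true]
        have hsubU : ball x₀ (r / 4) ⊆ U := (ball_subset_ball (by linarith)).trans hUr
        have h1 : DifferentiableOn ℂ (dslope (K ζ) ζ) U :=
          (Complex.differentiableOn_dslope (hU.mem_nhds
            (hUr (ball_subset_ball (by linarith) hζ2)))).mpr (hKh ζ hζ)
        exact (h1.mono hsubU).neg
      · simp only [hWdef, hζ2, if_false]
        have hsubU : ball x₀ (r / 4) ⊆ U := (ball_subset_ball (by linarith)).trans hUr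
        refine DifferentiableOn.div ?_ ?_ ?_
        · exact (differentiableOn_const _).sub ((hKh ζ hζ).mono hsubU)
        · fun_prop
        · intro x hx h0
          apply hζ2
          rw [← sub_eq_zero.mp h0]
          exact ball_subset_ball (by linarith) hx
    · intro x hx
      have hx2 : x ∈ ball x₀ (2 * r) := ball_subset_ball (by linarith) hx
      have h1 : AEStronglyMeasurable (fun ζ => (dbar F ζ - K ζ x) / (x - ζ))
          (volume.restrict (ball (0 : ℂ) 1)) := by
        simp_rw [div_eq_mul_inv]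
        exact (hdc.aestronglyMeasurable.sub (hKm x (hUr hx2))).mul (hmeas_sub x)
      refine h1.congr ?_
      have hne : ∀ᵐ ζ ∂(volume.restrict (ball (0 : ℂ) 1)), ζ ≠ x := by
        apply ae_restrict_of_ae
        exact Measure.ae_ne volume x
      filter_upwards [hne] with ζ hζx
      simp only [hWdef]
      split_ifs with hζ
      · rw [hdbarFnear ζ hζ, dslope_of_ne _ hζx.symm, slope_def_field]
        ring
      · rfl
    · exact integrableOn_const (by simp) (by simp)
    · refine (ae_restrict_iff' measurableSet_ball).mpr (Eventually.of_forall fun ζ hζ x hx => ?_)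
      by_cases hζ2 : ζ ∈ ball x₀ (r / 2)
      · simp only [hWdef, hζ2, if_true, norm_neg]
        refine le_trans ?_ (le_max_left _ _)
        have hsubb : ball ζ r ⊆ ball x₀ (2 * r) := by
          intro w hw
          rw [mem_ball] at *
          calc dist w x₀ ≤ dist w ζ + dist ζ x₀ := dist_triangle _ _ _
            _ < 2 * r := by linarith
        have hd : DifferentiableOn ℂ (K ζ) (ball ζ r) := (hKh ζ hζ).mono (hsubb.trans hUr)
        have hmaps : MapsTo (K ζ) (ball ζ r) (closedBall (K ζ ζ) (2 * M)) := by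
          intro w hw
          rw [mem_closedBall, dist_eq_norm]
          have h1 := hMr w (hsubb hw) ζ hζ
          have h2 := hMr ζ (hsubb (mem_ball_self hr)) ζ hζ
          calc ‖K ζ w - K ζ ζ‖ ≤ _ := norm_sub_le _ _
            _ ≤ 2 * M := by linarith
        refine Complex.norm_dslope_le_div_of_mapsTo_ball hd hmaps ?_
        rw [mem_ball] at *
        calc dist x ζ ≤ dist x x₀ + dist x₀ ζ := dist_triangle _ _ _
          _ < r := by rw [dist_comm x₀ ζ]; linarith
      · simp only [hWdef, hζ2, if_false]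
        refine le_trans ?_ (le_max_right _ _)
        have h1 : r / 4 ≤ ‖x - ζ‖ := by
          rw [mem_ball, not_lt] at hζ2
          rw [mem_ball] at hx
          rw [← dist_eq_norm]
          have := dist_triangle ζ x x₀
          rw [dist_comm ζ x] at this
          linarith
        have h2 : ‖dbar F ζ - K ζ x‖ ≤ MF + M :=
          (norm_sub_le _ _).trans (add_le_add (hMF ζ) (hMr x (ball_subset_ball (by linarith) hx) ζ hζ))
        rw [norm_div, div_eq_mul_inv]
        have h3 : ‖x - ζ‖⁻¹ ≤ 4 / r := by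
          rw [inv_le_comm₀ (by linarith) (by positivity), inv_div]
          exact h1
        exact mul_le_mul h2 h3 (by positivity) (by positivity)
  have hfin : DifferentiableAt ℂ (fun x => (1 / Real.pi : ℂ) * ∫ ζ in ball (0 : ℂ) 1, W x ζ) x₀ :=
    hWd.const_mul _
  refine (hfin.congr_of_eventuallyEq ?_).differentiableWithinAt
  filter_upwards [ball_mem_nhds x₀ (show 0 < r / 4 by positivity)] with x hx
  exact hrep x hx

end Pool.Agent.Lib.MP_ca0fc2_an
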