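import Mathlib
import Pool.Agent.Lib.MP_ca0fc2_an.Pompeiu

set_option autoImplicit false

open Metric Set MeasureTheory Filter Topology

namespace Pool.Agent.Lib.MP_ca0fc2_an

/-- a smooth bump whose integer translates add up to one -/
noncomputable def bt (t : ℝ) : ℝ := Real.smoothTransition (t + 1) - Real.smoothTransition t

theorem bt_contDiff : ContDiff ℝ 1 bt := by
  unfold bt
  exact (Real.smoothTransition.contDiff.comp (contDiff_id.add contDiff_const)).sub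
    Real.smoothTransition.contDiff

theorem bt_nonneg (t : ℝ) : 0 ≤ bt t := by
  unfold bt
  exact sub_nonneg.mpr (Real.smoothTransition.monotone (by linarith))

theorem bt_le_one (t : ℝ) : bt t ≤ 1 := by
  unfold bt
  linarith [Real.smoothTransition.le_one (t + 1), Real.smoothTransition.nonneg t]

theorem bt_zero_of_abs {t : ℝ} (h : 1 ≤ |t|) : bt t = 0 := by
  unfold bt
  rcases le_abs.mp h with h | h
  · rw [Real.smoothTransition.one_of_one_le h, Real.smoothTransition.one_of_one_le (by linarith),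
      sub_self]
  · rw [Real.smoothTransition.zero_of_nonpos (by linarith),
      Real.smoothTransition.zero_of_nonpos (by linarith), sub_self]

theorem abs_lt_of_bt_ne {t : ℝ} (h : bt t ≠ 0) : |t| < 1 := by
  by_contra hc
  exact h (bt_zero_of_abs (not_lt.mp hc))

theorem bt_pair {s : ℝ} (h0 : 0 ≤ s) (h1 : s ≤ 1) : bt s + bt (s - 1) = 1 := by
  unfold bt
  rw [Real.smoothTransition.one_of_one_le (show 1 ≤ s + 1 by linarith),
    Real.smoothTransition.zero_of_nonpos (show s - 1 ≤ 0 by linarith), sub_add_cancel]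
  ring

theorem bt_deriv_bound : ∃ L : ℝ, 0 ≤ L ∧ ∀ t, |deriv bt t| ≤ L := by
  have hc : Continuous (deriv bt) := bt_contDiff.continuous_deriv le_rfl
  obtain ⟨C, hC⟩ := (isCompact_Icc (a := (-2 : ℝ)) (b := 2)).exists_bound_of_continuousOn
    hc.continuousOn
  refine ⟨max C 0, le_max_right _ _, fun t => ?_⟩
  by_cases ht : t ∈ Icc (-2 : ℝ) 2
  · exact (hC t ht).trans (le_max_left _ _)
  · have : bt =ᶠ[𝓝 t] fun _ => 0 := by
      have h2 : (Icc (-1 : ℝ) 1)ᶜ ∈ 𝓝 t := by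
        apply isClosed_Icc.isOpen_compl.mem_nhds
        intro h
        exact ht ⟨by linarith [h.1], by linarith [h.2]⟩
      filter_upwards [h2] with s hs
      apply bt_zero_of_abs
      by_contra hc
      apply hs
      rw [not_le, abs_lt] at hc
      exact ⟨hc.1.le, hc.2.le⟩
    rw [this.deriv_eq, deriv_const, abs_zero]
    exact le_max_right _ _

noncomputable def tau (x : ℂ) : ℝ := -Real.log (1 - ‖x‖ ^ 2)

theorem one_sub_sq_pos {x : ℂ} (hx : x ∈ ball (0 : ℂ) 1) : 0 < 1 - ‖x‖ ^ 2 := by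
  have : ‖x‖ < 1 := by simpa using hx
  nlinarith [norm_nonneg x]

theorem exp_neg_tau {x : ℂ} (hx : x ∈ ball (0 : ℂ) 1) : Real.exp (-tau x) = 1 - ‖x‖ ^ 2 := by
  rw [tau, neg_neg, Real.exp_log (one_sub_sq_pos hx)]

theorem tau_contDiffOn : ContDiffOn ℝ 1 tau (ball 0 1) := by
  unfold tau
  apply ContDiffOn.neg
  apply ContDiffOn.log
  · exact (contDiff_const.sub (contDiff_norm_sq ℝ)).contDiffOn
  · intro x hx
    exact (one_sub_sq_pos hx).ne'

theorem tau_fderiv_bound {x : ℂ} (hx : x ∈ ball (0 : ℂ) 1) :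
    ‖fderiv ℝ tau x‖ ≤ 2 / (1 - ‖x‖ ^ 2) := by
  have hpos := one_sub_sq_pos hx
  have h1 : HasFDerivAt (fun x : ℂ => 1 - ‖x‖ ^ 2) (-(2 • (innerSL ℝ x))) x := by
    have := (hasStrictFDerivAt_norm_sq x).hasFDerivAt
    exact this.const_sub 1
  have h2 : HasFDerivAt tau
      (-((1 - ‖x‖ ^ 2)⁻¹ • (-(2 • (innerSL ℝ x)) : ℂ →L[ℝ] ℝ)) : ℂ →L[ℝ] ℝ) x :=
    (h1.log hpos.ne').neg
  rw [h2.fderiv, norm_neg, norm_smul, norm_neg, norm_inv, Real.norm_of_nonneg hpos.le]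
  have h3 : ‖(2 • (innerSL ℝ x) : ℂ →L[ℝ] ℝ)‖ ≤ 2 := by
    have hx1 : ‖x‖ ≤ 1 := by
      have : ‖x‖ < 1 := by simpa using hx
      exact this.le
    calc ‖(2 • (innerSL ℝ x) : ℂ →L[ℝ] ℝ)‖ ≤ 2 * ‖innerSL ℝ x‖ := by
          rw [two_smul, two_mul]; exact norm_add_le _ _
      _ = 2 * ‖x‖ := by rw [innerSL_apply_norm]
      _ ≤ 2 := by linarith
  rw [div_eq_inv_mul]
  exact mul_le_mul_of_nonneg_left h3 (by positivity)

/-- the partition functions -/
noncomputable def psi (b : ℝ) (i : ℤ × ℤ × ℤ) (x : ℂ) : ℝ :=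
  bt (tau x - i.1) * (bt (x.re / (b * Real.exp (-i.1)) - i.2.1) *
    bt (x.im / (b * Real.exp (-i.1)) - i.2.2))

theorem psi_nonneg (b : ℝ) (i : ℤ × ℤ × ℤ) (x : ℂ) : 0 ≤ psi b i x :=
  mul_nonneg (bt_nonneg _) (mul_nonneg (bt_nonneg _) (bt_nonneg _))

theorem psi_contDiffOn (b : ℝ) (i : ℤ × ℤ × ℤ) : ContDiffOn ℝ 1 (psi b i) (ball 0 1) := by
  unfold psi
  refine ContDiffOn.mul ?_ (ContDiffOn.mul ?_ ?_)
  · exact bt_contDiff.comp_contDiffOn (tau_contDiffOn.sub contDiffOn_const)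
  · refine bt_contDiff.comp_contDiffOn (ContDiffOn.sub ?_ contDiffOn_const)
    exact (Complex.reCLM.contDiff.contDiffOn).div_const _
  · refine bt_contDiff.comp_contDiffOn (ContDiffOn.sub ?_ contDiffOn_const)
    exact (Complex.imCLM.contDiff.contDiffOn).div_const _

theorem psi_ne {b : ℝ} {i : ℤ × ℤ × ℤ} {x : ℂ} (h : psi b i x ≠ 0) :
    |tau x - i.1| < 1 ∧ |x.re / (b * Real.exp (-i.1)) - i.2.1| < 1 ∧
      |x.im / (b * Real.exp (-i.1)) - i.2.2| < 1 := by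
  unfold psi at h
  have h1 := left_ne_zero_of_mul h
  have h2 := right_ne_zero_of_mul h
  exact ⟨abs_lt_of_bt_ne h1, abs_lt_of_bt_ne (left_ne_zero_of_mul h2),
    abs_lt_of_bt_ne (right_ne_zero_of_mul h2)⟩

/-- the at most eight indices which matter at `x` -/
noncomputable def idx (b : ℝ) (x : ℂ) (e : Fin 2 × Fin 2 × Fin 2) : ℤ × ℤ × ℤ :=
  (⌊tau x⌋ + (e.1.val : ℤ),
    ⌊x.re / (b * Real.exp (-((⌊tau x⌋ + (e.1.val : ℤ) : ℤ) : ℝ)))⌋ + (e.2.1.val : ℤ),
    ⌊x.im / (b * Real.exp (-((⌊tau x⌋ + (e.1.val : ℤ) : ℤ) : ℝ)))⌋ + (e.2.2.val : ℤ))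

theorem idx_injective (b : ℝ) (x : ℂ) : Function.Injective (idx b x) := by
  rintro ⟨e1, e2, e3⟩ ⟨e1', e2', e3'⟩ h
  simp only [idx, Prod.mk.injEq] at h
  obtain ⟨h1, h2, h3⟩ := h
  have h1' : e1 = e1' := by
    have : (e1.val : ℤ) = e1'.val := by linarith
    exact Fin.ext (by exact_mod_cast this)
  subst h1'
  have h2' : e2 = e2' := by
    have : (e2.val : ℤ) = e2'.val := by linarith
    exact Fin.ext (by exact_mod_cast this)
  have h3' : e3 = e3' := by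
    have : (e3.val : ℤ) = e3'.val := by linarith
    exact Fin.ext (by exact_mod_cast this)
  rw [h2', h3']

theorem floor_cases {t : ℝ} {m : ℤ} (h : |t - m| < 1) : ∃ e : Fin 2, m = ⌊t⌋ + (e.val : ℤ) := by
  rw [abs_lt] at h
  have h1 : ⌊t⌋ ≤ m := by
    have : (⌊t⌋ : ℝ) < m + 1 := lt_of_le_of_lt (Int.floor_le t) (by linarith)
    exact Int.lt_add_one_iff.mp (by exact_mod_cast this)
  have h2 : m ≤ ⌊t⌋ + 1 := by
    have : (m : ℝ) < ⌊t⌋ + 1 + 1 := by linarith [Int.lt_floor_add_one t]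
    exact Int.lt_add_one_iff.mp (by exact_mod_cast this)
  rcases eq_or_lt_of_le h1 with h3 | h3
  · exact ⟨0, by simp [h3]⟩
  · exact ⟨1, by simp; omega⟩

theorem mem_idx {b : ℝ} {i : ℤ × ℤ × ℤ} {x : ℂ} (h : psi b i x ≠ 0) : ∃ e, idx b x e = i := by
  obtain ⟨h1, h2, h3⟩ := psi_ne h
  obtain ⟨e1, he1⟩ := floor_cases h1
  obtain ⟨e2, he2⟩ := floor_cases h2
  obtain ⟨e3, he3⟩ := floor_cases h3
  refine ⟨(e1, e2, e3), ?_⟩
  obtain ⟨m, k, l⟩ := i
  simp only [idx, Prod.mk.injEq] at *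
  subst he1
  exact ⟨rfl, he2.symm, he3.symm⟩

theorem sum_bt_floor (t : ℝ) : ∑ e : Fin 2, bt (t - ((⌊t⌋ + (e.val : ℤ) : ℤ) : ℝ)) = 1 := by
  rw [Fin.sum_univ_two]
  have h0 : 0 ≤ t - ⌊t⌋ := sub_nonneg.mpr (Int.floor_le t)
  have h1 : t - ⌊t⌋ ≤ 1 := by linarith [Int.lt_floor_add_one t]
  have := bt_pair h0 h1
  push_cast
  simp only [Fin.val_zero, Fin.val_one]
  convert this using 2 <;> congr 1 <;> push_cast <;> ring

theorem sum_psi_idx (b : ℝ) (x : ℂ) : ∑ e, psi b (idx b x e) x = 1 := by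
  rw [Fintype.sum_prod_type]
  have h : ∀ e1 : Fin 2, ∑ y : Fin 2 × Fin 2, psi b (idx b x (e1, y)) x =
      bt (tau x - ((⌊tau x⌋ + (e1.val : ℤ) : ℤ) : ℝ)) := by
    intro e1
    rw [Fintype.sum_prod_type]
    simp only [psi, idx]
    simp_rw [← Finset.mul_sum]
    rw [sum_bt_floor]
    simp_rw [mul_one]
    rw [sum_bt_floor, mul_one]
  simp_rw [h]
  exact sum_bt_floor _

/-- conversion of the finite sums -/
theorem finsum_eq_idx {M : Type*} [AddCommMonoid M] {b : ℝ} {x : ℂ} {t : ℤ × ℤ × ℤ → M}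
    (ht : ∀ i, psi b i x = 0 → t i = 0) : ∑ᶠ i, t i = ∑ e, t (idx b x e) := by
  classical
  rw [finsum_eq_sum_of_support_subset (s := Finset.univ.image (idx b x))]
  · rw [Finset.sum_image]
    intro a _ a' _ h
    exact idx_injective b x h
  · intro i hi
    have : psi b i x ≠ 0 := fun h => hi (ht i h)
    obtain ⟨e, he⟩ := mem_idx this
    simp only [Finset.coe_image, Finset.coe_univ, image_univ, mem_range]
    exact ⟨e, he⟩

theorem finsum_psi (b : ℝ) (x : ℂ) : ∑ᶠ i, psi b i x = 1 := by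
  rw [finsum_eq_idx (b := b) (x := x) (fun i h => h), sum_psi_idx]

theorem psi_fderiv_zero {b : ℝ} {i : ℤ × ℤ × ℤ} {x : ℂ} (h : psi b i x = 0) :
    fderiv ℝ (psi b i) x = 0 := by
  have : IsLocalMin (psi b i) x := Eventually.of_forall fun y => by
    rw [h]; exact psi_nonneg b i y
  exact this.fderiv_eq_zero

theorem dbar_ofReal {φ : ℂ → ℝ} {x : ℂ} (h : DifferentiableAt ℝ φ x) :
    dbar (fun x => (φ x : ℂ)) x =
      (1 / 2) * ((fderiv ℝ φ x 1 : ℝ) + Complex.I * (fderiv ℝ φ x Complex.I : ℝ)) := by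
  have h1 : HasFDerivAt (fun x => (φ x : ℂ)) (Complex.ofRealCLM.comp (fderiv ℝ φ x)) x :=
    Complex.ofRealCLM.hasFDerivAt.comp x h.hasFDerivAt
  rw [dbar, h1.fderiv]
  simp

theorem norm_dbar_ofReal_le {φ : ℂ → ℝ} {x : ℂ} (h : DifferentiableAt ℝ φ x) :
    ‖dbar (fun x => (φ x : ℂ)) x‖ ≤ ‖fderiv ℝ φ x‖ := by
  rw [dbar_ofReal h]
  have h1 : |fderiv ℝ φ x 1| ≤ ‖fderiv ℝ φ x‖ := by
    have := (fderiv ℝ φ x).le_opNorm 1
    simpa using this
  have h2 : |fderiv ℝ φ x Complex.I| ≤ ‖fderiv ℝ φ x‖ := by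
    have := (fderiv ℝ φ x).le_opNorm Complex.I
    simpa using this
  rw [norm_mul]
  have h3 : ‖((fderiv ℝ φ x 1 : ℝ) : ℂ) + Complex.I * ((fderiv ℝ φ x Complex.I : ℝ) : ℂ)‖ ≤
      2 * ‖fderiv ℝ φ x‖ := by
    refine (norm_add_le _ _).trans ?_
    rw [norm_mul, Complex.norm_I, one_mul, Complex.norm_real, Complex.norm_real]
    simp only [Real.norm_eq_abs]
    linarith
  have h4 : ‖(1 / 2 : ℂ)‖ = 1 / 2 := by norm_num
  rw [h4]
  linarith

theorem psi_fderiv_bound {b : ℝ} (hb : 0 < b) {L : ℝ} (hL0 : 0 ≤ L)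
    (hL : ∀ t, |deriv bt t| ≤ L) {i : ℤ × ℤ × ℤ} {x : ℂ} (hx : x ∈ ball (0 : ℂ) 1)
    (h : psi b i x ≠ 0) :
    ‖fderiv ℝ (psi b i) x‖ ≤ L * (2 + 2 * Real.exp 1 / b) / (1 - ‖x‖ ^ 2) := by
  have hpos := one_sub_sq_pos hx
  obtain ⟨h1, -, -⟩ := psi_ne h
  rw [abs_lt] at h1
  set s : ℝ := b * Real.exp (-i.1) with hs
  have hs0 : 0 < s := by positivity
  have hsinv : s⁻¹ ≤ Real.exp 1 / b / (1 - ‖x‖ ^ 2) := by
    have e1 : s⁻¹ = Real.exp i.1 / b := by
      rw [hs, mul_inv, Real.exp_neg, inv_inv]; field_simp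
    have e2 : Real.exp i.1 ≤ Real.exp 1 * Real.exp (tau x) := by
      rw [← Real.exp_add]
      exact Real.exp_le_exp.mpr (by linarith)
    have e3 : Real.exp (tau x) = (1 - ‖x‖ ^ 2)⁻¹ := by
      rw [← exp_neg_tau hx, Real.exp_neg, inv_inv]
    rw [e1]
    calc Real.exp i.1 / b ≤ Real.exp 1 * Real.exp (tau x) / b :=
          div_le_div_of_nonneg_right e2 hb.le
      _ = Real.exp 1 / b / (1 - ‖x‖ ^ 2) := by rw [e3]; field_simp
  have hbd : ∀ t, HasDerivAt bt (deriv bt t) t := fun t =>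
    (bt_contDiff.differentiable one_ne_zero t).hasDerivAt
  have hτ : HasFDerivAt (fun x => tau x - i.1) (fderiv ℝ tau x) x :=
    ((tau_contDiffOn.contDiffAt (isOpen_ball.mem_nhds hx)).differentiableAt
      one_ne_zero).hasFDerivAt.sub_const _
  have hre : HasFDerivAt (fun x : ℂ => x.re / s - i.2.1) (s⁻¹ • Complex.reCLM) x := by
    have := (Complex.reCLM.hasFDerivAt (x := x)).const_smul (s⁻¹)
    have h2 := this.sub_const (i.2.1 : ℝ)
    refine h2.congr_of_eventuallyEq (Eventually.of_forall fun y => ?_)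
    simp [div_eq_inv_mul]
  have him : HasFDerivAt (fun x : ℂ => x.im / s - i.2.2) (s⁻¹ • Complex.imCLM) x := by
    have := (Complex.imCLM.hasFDerivAt (x := x)).const_smul (s⁻¹)
    have h2 := this.sub_const (i.2.2 : ℝ)
    refine h2.congr_of_eventuallyEq (Eventually.of_forall fun y => ?_)
    simp [div_eq_inv_mul]
  set A := bt (tau x - i.1) with hA
  set B := bt (x.re / s - i.2.1) with hB
  set C := bt (x.im / s - i.2.2) with hC
  have dA : HasFDerivAt (fun x => bt (tau x - i.1))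
      (deriv bt (tau x - i.1) • fderiv ℝ tau x) x := (hbd _).comp_hasFDerivAt x hτ
  have dB : HasFDerivAt (fun x : ℂ => bt (x.re / s - i.2.1))
      (deriv bt (x.re / s - i.2.1) • (s⁻¹ • Complex.reCLM)) x := (hbd _).comp_hasFDerivAt x hre
  have dC : HasFDerivAt (fun x : ℂ => bt (x.im / s - i.2.2))
      (deriv bt (x.im / s - i.2.2) • (s⁻¹ • Complex.imCLM)) x := (hbd _).comp_hasFDerivAt x him
  have dBC := dB.mul dC
  have dABC := dA.mul dBC
  have hfd : fderiv ℝ (psi b i) x = _ := dABC.fderiv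
  rw [hfd]
  have hA0 : |A| ≤ 1 := by rw [abs_of_nonneg (bt_nonneg _)]; exact bt_le_one _
  have hB0 : |B| ≤ 1 := by rw [abs_of_nonneg (bt_nonneg _)]; exact bt_le_one _
  have hC0 : |C| ≤ 1 := by rw [abs_of_nonneg (bt_nonneg _)]; exact bt_le_one _
  have nA : ‖deriv bt (tau x - i.1) • fderiv ℝ tau x‖ ≤ L * (2 / (1 - ‖x‖ ^ 2)) := by
    rw [norm_smul]
    exact mul_le_mul (hL _) (tau_fderiv_bound hx) (norm_nonneg _) hL0
  have hre1 : ‖Complex.reCLM‖ ≤ 1 := by simp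
  have him1 : ‖Complex.imCLM‖ ≤ 1 := by simp
  have nB : ‖deriv bt (x.re / s - i.2.1) • (s⁻¹ • Complex.reCLM)‖ ≤ L * s⁻¹ := by
    rw [norm_smul, norm_smul, Real.norm_of_nonneg (inv_pos.mpr hs0).le]
    refine mul_le_mul (hL _) ?_ (by positivity) hL0
    exact mul_le_of_le_one_right (by positivity) hre1
  have nC : ‖deriv bt (x.im / s - i.2.2) • (s⁻¹ • Complex.imCLM)‖ ≤ L * s⁻¹ := by
    rw [norm_smul, norm_smul, Real.norm_of_nonneg (inv_pos.mpr hs0).le]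
    refine mul_le_mul (hL _) ?_ (by positivity) hL0
    exact mul_le_of_le_one_right (by positivity) him1
  have nBC : ‖B • (deriv bt (x.im / s - i.2.2) • (s⁻¹ • Complex.imCLM)) +
      C • (deriv bt (x.re / s - i.2.1) • (s⁻¹ • Complex.reCLM))‖ ≤ 2 * (L * s⁻¹) := by
    refine (norm_add_le _ _).trans ?_
    rw [norm_smul B, norm_smul C, Real.norm_eq_abs, Real.norm_eq_abs]
    have e1 := mul_le_mul hB0 nC (norm_nonneg _) zero_le_one
    have e2 := mul_le_mul hC0 nB (norm_nonneg _) zero_le_one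
    linarith
  have hBC0 : |B * C| ≤ 1 := by
    rw [abs_mul]
    calc |B| * |C| ≤ 1 * 1 := mul_le_mul hB0 hC0 (abs_nonneg _) zero_le_one
      _ = 1 := one_mul 1
  calc ‖A • (B • (deriv bt (x.im / s - i.2.2) • (s⁻¹ • Complex.imCLM)) +
      C • (deriv bt (x.re / s - i.2.1) • (s⁻¹ • Complex.reCLM))) +
        (B * C) • (deriv bt (tau x - i.1) • fderiv ℝ tau x)‖
      ≤ 1 * (2 * (L * s⁻¹)) + 1 * (L * (2 / (1 - ‖x‖ ^ 2))) := by
        refine (norm_add_le _ _).trans ?_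
        rw [norm_smul A, norm_smul (B * C), Real.norm_eq_abs, Real.norm_eq_abs]
        exact add_le_add (mul_le_mul hA0 nBC (norm_nonneg _) zero_le_one)
          (mul_le_mul hBC0 nA (norm_nonneg _) zero_le_one)
    _ ≤ 1 * (2 * (L * (Real.exp 1 / b / (1 - ‖x‖ ^ 2)))) + 1 * (L * (2 / (1 - ‖x‖ ^ 2))) := by
        gcongr
    _ = L * (2 + 2 * Real.exp 1 / b) / (1 - ‖x‖ ^ 2) := by ring

theorem psi_diam {b : ℝ} (hb : 0 < b) {i : ℤ × ℤ × ℤ} {x x' : ℂ} (hx : x ∈ ball (0 : ℂ) 1)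
    (h : psi b i x ≠ 0) (h' : psi b i x' ≠ 0) :
    ‖x - x'‖ ≤ 8 * Real.exp 1 * b * (1 - ‖x‖) := by
  obtain ⟨h1, h2, h3⟩ := psi_ne h
  obtain ⟨-, h2', h3'⟩ := psi_ne h'
  set s : ℝ := b * Real.exp (-i.1) with hs
  have hs0 : 0 < s := by positivity
  have hs1 : s ≤ Real.exp 1 * b * (1 - ‖x‖ ^ 2) := by
    rw [abs_lt] at h1
    have e2 : Real.exp (-i.1) ≤ Real.exp 1 * Real.exp (-tau x) := by
      rw [← Real.exp_add]
      exact Real.exp_le_exp.mpr (by linarith)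
    rw [exp_neg_tau hx] at e2
    calc s = b * Real.exp (-i.1) := hs
      _ ≤ b * (Real.exp 1 * (1 - ‖x‖ ^ 2)) := mul_le_mul_of_nonneg_left e2 hb.le
      _ = _ := by ring
  have key : ∀ (u v : ℝ) (k : ℤ), |u / s - k| < 1 → |v / s - k| < 1 → |u - v| ≤ 2 * s := by
    intro u v k hu hv
    have : |u / s - v / s| ≤ 2 := by
      have e : u / s - v / s = (u / s - k) - (v / s - k) := by ring
      rw [e]
      exact (abs_sub _ _).trans (by linarith)
    rw [← sub_div, abs_div, abs_of_pos hs0, div_le_iff₀ hs0] at this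
    exact this
  have hr := key _ _ _ h2 h2'
  have hi := key _ _ _ h3 h3'
  have hn : ‖x - x'‖ ≤ |(x - x').re| + |(x - x').im| := Complex.norm_le_abs_re_add_abs_im _
  rw [Complex.sub_re, Complex.sub_im] at hn
  have hxn : ‖x‖ < 1 := by simpa using hx
  have hle : 1 - ‖x‖ ^ 2 ≤ 2 * (1 - ‖x‖) := by nlinarith [norm_nonneg x]
  calc ‖x - x'‖ ≤ 4 * s := by linarith
    _ ≤ 4 * (Real.exp 1 * b * (1 - ‖x‖ ^ 2)) := by linarith
    _ ≤ 4 * (Real.exp 1 * b * (2 * (1 - ‖x‖))) := by gcongr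
    _ = _ := by ring

theorem psi_locallyFinite {b : ℝ} (hb : 0 < b) {x₀ : ℂ} (hx₀ : x₀ ∈ ball (0 : ℂ) 1) :
    ∃ V : Set ℂ, IsOpen V ∧ x₀ ∈ V ∧ V ⊆ ball 0 1 ∧ ∃ S : Finset (ℤ × ℤ × ℤ),
      ∀ x ∈ V, ∀ i, i ∉ S → psi b i x = 0 := by
  set K : ℤ := ⌈Real.exp (tau x₀ + 2) / b + 1⌉ with hK
  refine ⟨ball 0 1 ∩ tau ⁻¹' (Ioo (tau x₀ - 1) (tau x₀ + 1)), ?_, ?_, inter_subset_left,
    Finset.Icc (⌊tau x₀⌋ - 3) (⌊tau x₀⌋ + 3) ×ˢ (Finset.Icc (-K) K ×ˢ Finset.Icc (-K) K), ?_⟩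
  · exact tau_contDiffOn.continuousOn.isOpen_inter_preimage isOpen_ball isOpen_Ioo
  · exact ⟨hx₀, by simp⟩
  · intro x hx i hi
    by_contra hne
    apply hi
    obtain ⟨h1, h2, h3⟩ := psi_ne hne
    have hτ : tau x ∈ Ioo (tau x₀ - 1) (tau x₀ + 1) := hx.2
    rw [abs_lt] at h1
    have hx1 : ‖x‖ < 1 := by simpa using hx.1
    have hm1 : (i.1 : ℝ) < tau x₀ + 2 := by linarith [hτ.2]
    have hm2 : tau x₀ - 2 < i.1 := by linarith [hτ.1]
    set s : ℝ := b * Real.exp (-i.1) with hs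
    have hs0 : 0 < s := by positivity
    have hsinv : s⁻¹ ≤ Real.exp (tau x₀ + 2) / b := by
      have e1 : s⁻¹ = Real.exp i.1 / b := by
        rw [hs, mul_inv, Real.exp_neg, inv_inv]; field_simp
      rw [e1]
      exact div_le_div_of_nonneg_right (Real.exp_le_exp.mpr hm1.le) hb.le
    have key : ∀ (u : ℝ) (k : ℤ), |u| ≤ 1 → |u / s - k| < 1 → k ∈ Finset.Icc (-K) K := by
      intro u k hu hk
      have h4 : |(k : ℝ)| < s⁻¹ + 1 := by
        have e : (k : ℝ) = u / s - (u / s - k) := by ring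
        rw [e]
        refine lt_of_le_of_lt (abs_sub _ _) ?_
        have : |u / s| ≤ s⁻¹ := by
          rw [abs_div, abs_of_pos hs0, div_eq_mul_inv]
          exact mul_le_of_le_one_left (by positivity) hu
        linarith
      have h5 : |(k : ℝ)| ≤ K := by
        have : Real.exp (tau x₀ + 2) / b + 1 ≤ K := Int.le_ceil _
        linarith
      rw [abs_le] at h5
      rw [Finset.mem_Icc]
      exact ⟨by exact_mod_cast h5.1, by exact_mod_cast h5.2⟩
    rw [Finset.mem_product, Finset.mem_product]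
    refine ⟨?_, key x.re _ ?_ h2, key x.im _ ?_ h3⟩
    · rw [Finset.mem_Icc]
      constructor
      · have : ((⌊tau x₀⌋ - 3 : ℤ) : ℝ) ≤ i.1 := by
          push_cast; linarith [Int.floor_le (tau x₀)]
        exact_mod_cast this
      · have : (i.1 : ℝ) ≤ ((⌊tau x₀⌋ + 3 : ℤ) : ℝ) := by
          push_cast; linarith [Int.lt_floor_add_one (tau x₀)]
        exact_mod_cast this
    · exact (Complex.abs_re_le_norm x).trans hx1.le
    · exact (Complex.abs_im_le_norm x).trans hx1.le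

end Pool.Agent.Lib.MP_ca0fc2_an
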