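import Mathlib
import Pool.Agent.Lib.MP_ca0fc2_an.Glue

set_option autoImplicit false

open Metric Set Filter Topology
open scoped InnerProductSpace

namespace Pool.Agent.Lib.MP_ca0fc2_an

/-- The corona theorem on the unit disc, with a bound that depends only on the number of
functions and on the two constants. -/
def DiscCorona : Prop := ∀ (N : ℕ) (M d : ℝ), 0 < d → ∃ C : ℝ, ∀ f : Fin N → ℂ → ℂ,
  (∀ j, DifferentiableOn ℂ (f j) (ball 0 1)) → (∀ j, ∀ z ∈ ball (0 : ℂ) 1, ‖f j z‖ ≤ M) →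
  (∀ z ∈ ball (0 : ℂ) 1, d ≤ ∑ j, ‖f j z‖ ^ 2) →
  ∃ h : Fin N → ℂ → ℂ, (∀ j, DifferentiableOn ℂ (h j) (ball 0 1)) ∧
    (∀ j, ∀ z ∈ ball (0 : ℂ) 1, ‖h j z‖ ≤ C) ∧ ∀ z ∈ ball (0 : ℂ) 1, ∑ j, f j z * h j z = 1

variable {E : Type*} [NormedAddCommGroup E] [InnerProductSpace ℂ E]

/-- the projection onto the orthogonal complement of `e` -/
noncomputable def prj (e : E) : E →L[ℂ] E :=
  ContinuousLinearMap.id ℂ E - (innerSL ℂ e).smulRight e

theorem prj_apply (e z : E) : prj e z = z - ⟪e, z⟫_ℂ • e := rfl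

theorem inner_prj {e : E} (he : ‖e‖ = 1) (z : E) : ⟪e, prj e z⟫_ℂ = 0 := by
  rw [prj_apply, inner_sub_right, inner_smul_right, inner_self_eq_norm_sq_to_K, he]
  simp

theorem norm_smul_add_prj {e : E} (he : ‖e‖ = 1) (x : ℂ) (z : E) :
    ‖x • e + prj e z‖ ^ 2 = ‖x‖ ^ 2 + ‖prj e z‖ ^ 2 := by
  have h : ⟪x • e, prj e z⟫_ℂ = 0 := by rw [inner_smul_left, inner_prj he, mul_zero]
  have := norm_add_sq_eq_norm_sq_add_norm_sq_of_inner_eq_zero (x • e) (prj e z) h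
  rw [norm_smul, he, mul_one] at this
  linarith only [this, sq ‖x • e + prj e z‖, sq ‖x‖, sq ‖prj e z‖]

theorem dec_eq {e : E} (z : E) : ⟪e, z⟫_ℂ • e + prj e z = z := by
  rw [prj_apply]; abel

theorem norm_sq_dec {e : E} (he : ‖e‖ = 1) (z : E) :
    ‖z‖ ^ 2 = ‖⟪e, z⟫_ℂ‖ ^ 2 + ‖prj e z‖ ^ 2 := by
  rw [← norm_smul_add_prj he, dec_eq]

theorem norm_prj_le {e : E} (he : ‖e‖ = 1) (z : E) : ‖prj e z‖ ≤ ‖z‖ := by
  have := norm_sq_dec he z
  exact (sq_le_sq₀ (norm_nonneg _) (norm_nonneg _)).mp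
    (by linarith only [this, sq_nonneg ‖⟪e, z⟫_ℂ‖])

theorem inner_smul_add_prj {e : E} (he : ‖e‖ = 1) (x : ℂ) (z : E) :
    ⟪e, x • e + prj e z⟫_ℂ = x := by
  rw [inner_add_right, inner_prj he, add_zero, inner_smul_right, inner_self_eq_norm_sq_to_K, he]
  simp

theorem prj_prj {e : E} (he : ‖e‖ = 1) (z : E) : prj e (prj e z) = prj e z := by
  rw [prj_apply e (prj e z), inner_prj he, zero_smul, sub_zero]

/-- the map from the model ball -/
noncomputable def asm (e : E) (p : ℂ × E) : E := p.1 • e + prj e p.2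

theorem asm_mem {e : E} (he : ‖e‖ = 1) {p : ℂ × E} (hp : p ∈ Bl E) : asm e p ∈ ball (0 : E) 1 := by
  rw [mem_ball_zero_iff, asm]
  have h1 := norm_smul_add_prj he p.1 p.2
  have h2 := norm_prj_le he p.2
  rw [mem_Bl] at hp
  have h3 : ‖prj e p.2‖ ^ 2 ≤ ‖p.2‖ ^ 2 := pow_le_pow_left₀ (norm_nonneg _) h2 2
  exact (sq_lt_one_iff₀ (norm_nonneg _)).mp (by linarith only [h1, h3, hp])

theorem inner_asm {e : E} (he : ‖e‖ = 1) (p : ℂ × E) : ⟪e, asm e p⟫_ℂ = p.1 :=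
  inner_smul_add_prj he _ _

theorem differentiable_asm (e : E) : Differentiable ℂ (asm e) := by
  unfold asm
  fun_prop

theorem dec_mem {e : E} (he : ‖e‖ = 1) {z : E} (hz : z ∈ ball (0 : E) 1) :
    (⟪e, z⟫_ℂ, prj e z) ∈ Bl E := by
  rw [mem_Bl]
  simp only
  rw [← norm_sq_dec he]
  rw [mem_ball_zero_iff] at hz
  exact pow_lt_one₀ (norm_nonneg _) hz two_ne_zero

theorem asm_dec {e : E} (he : ‖e‖ = 1) (z : E) : asm e (⟪e, z⟫_ℂ, prj e z) = z := by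
  rw [asm]
  simp only
  rw [prj_prj he, dec_eq]

/-- Localization theorem on the ball along the direction `e`, with uniform bounds. -/
theorem master (hDC : DiscCorona) {N : ℕ} {C₀ r C : ℝ} (hr : 0 < r) :
    ∃ C' : ℝ, ∀ e : E, ‖e‖ = 1 → ∀ f : Fin N → E → ℂ,
    (∀ j, DifferentiableOn ℂ (f j) (ball 0 1)) → (∀ j, ∀ z ∈ ball (0 : E) 1, ‖f j z‖ ≤ C₀) →
    (∀ ζ ∈ ball (0 : ℂ) 1, ∃ h : Fin N → E → ℂ,
      (∀ j, DifferentiableOn ℂ (h j)
        {z | z ∈ ball (0 : E) 1 ∧ ⟪e, z⟫_ℂ ∈ ball ζ (r * (1 - ‖ζ‖))}) ∧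
      (∀ j, ∀ z ∈ ball (0 : E) 1, ⟪e, z⟫_ℂ ∈ ball ζ (r * (1 - ‖ζ‖)) → ‖h j z‖ ≤ C) ∧
      ∀ z ∈ ball (0 : E) 1, ⟪e, z⟫_ℂ ∈ ball ζ (r * (1 - ‖ζ‖)) → ∑ j, f j z * h j z = 1) →
    ∃ h : Fin N → E → ℂ, (∀ j, DifferentiableOn ℂ (h j) (ball 0 1)) ∧
      (∀ j, ∀ z ∈ ball (0 : E) 1, ‖h j z‖ ≤ C') ∧
      ∀ z ∈ ball (0 : E) 1, ∑ j, f j z * h j z = 1 := by
  set d : ℝ := 1 / (N * C ^ 2 + 1) with hd
  have hd0 : 0 < d := by positivity
  obtain ⟨CH, hCH⟩ := hDC N C₀ d hd0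
  obtain ⟨C', hC'⟩ := localization_unif (F := E) (ι := Fin N) (C₀ := C₀) (r := r) (C := C)
    (CH := CH) hr
  refine ⟨C', ?_⟩
  intro e he f hf hfb hloc
  have hzmem : ∀ ζ ∈ ball (0 : ℂ) 1, ζ • e ∈ ball (0 : E) 1 := by
    intro ζ hζ
    rw [mem_ball_zero_iff, norm_smul, he, mul_one]
    simpa using hζ
  have hze : ∀ ζ : ℂ, ⟪e, ζ • e⟫_ℂ = ζ := by
    intro ζ
    rw [inner_smul_right, inner_self_eq_norm_sq_to_K, he]; simp
  have key := hC' (fun j p => f j (asm e p)) ?_ ?_ ?_ ?_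
  · obtain ⟨h, h1, h2, h3⟩ := key
    refine ⟨fun j z => h j (⟪e, z⟫_ℂ, prj e z), ?_, ?_, ?_⟩
    · intro j
      refine (h1 j).comp (t := Bl E) (f := fun z : E => (⟪e, z⟫_ℂ, prj e z)) ?_ ?_
      · apply Differentiable.differentiableOn
        exact ((innerSL ℂ e).differentiable).prodMk (prj e).differentiable
      · intro z hz
        exact dec_mem he hz
    · intro j z hz
      exact h2 j _ (dec_mem he hz)
    · intro z hz
      have := h3 _ (dec_mem he hz)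
      simpa only [asm_dec he] using this
  · intro j
    exact (hf j).comp (differentiable_asm e).differentiableOn fun p hp => asm_mem he hp
  · intro j p hp
    exact hfb j _ (asm_mem he hp)
  · intro ζ hζ
    obtain ⟨h, h1, h2, h3⟩ := hloc ζ hζ
    refine ⟨fun j p => h j (asm e p), ?_, ?_, ?_⟩
    · intro j
      refine (h1 j).comp (differentiable_asm e).differentiableOn ?_
      intro p hp
      refine ⟨asm_mem he hp.1, ?_⟩
      rw [inner_asm he]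
      exact hp.2
    · intro j p hp hpz
      exact h2 j _ (asm_mem he hp) (by rwa [inner_asm he])
    · intro p hp hpz
      exact h3 _ (asm_mem he hp) (by rwa [inner_asm he])
  · have hasm : ∀ ζ : ℂ, asm e (ζ, 0) = ζ • e := by
      intro ζ; simp [asm]
    have key := hCH (fun j ζ => f j (ζ • e)) ?_ ?_ ?_
    · obtain ⟨H, H1, H2, H3⟩ := key
      refine ⟨H, H1, H2, ?_⟩
      intro ζ hζ
      simp only [hasm]
      exact H3 ζ hζ
    · intro j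
      exact (hf j).comp ((differentiable_id.smul_const e).differentiableOn) hzmem
    · intro j ζ hζ
      exact hfb j _ (hzmem ζ hζ)
    · intro ζ hζ
      obtain ⟨h, h1, h2, h3⟩ := hloc ζ hζ
      have hζ1 : 0 < 1 - ‖ζ‖ := by
        have : ‖ζ‖ < 1 := by simpa using hζ
        linarith
      have hmem : ⟪e, ζ • e⟫_ℂ ∈ ball ζ (r * (1 - ‖ζ‖)) := by
        rw [hze]
        exact mem_ball_self (by positivity)
      have hs := h3 _ (hzmem ζ hζ) hmem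
      have hb := fun j => h2 j _ (hzmem ζ hζ) hmem
      -- Cauchy-Schwarz
      have e1 : (1 : ℝ) ≤ ∑ j, ‖f j (ζ • e)‖ * ‖h j (ζ • e)‖ := by
        calc (1 : ℝ) = ‖∑ j, f j (ζ • e) * h j (ζ • e)‖ := by rw [hs, norm_one]
          _ ≤ ∑ j, ‖f j (ζ • e)‖ * ‖h j (ζ • e)‖ := by
            refine (norm_sum_le _ _).trans (le_of_eq ?_)
            simp only [norm_mul]
      have e2 := Finset.sum_mul_sq_le_sq_mul_sq Finset.univ (fun j => ‖f j (ζ • e)‖)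
        (fun j => ‖h j (ζ • e)‖)
      have e3 : ∑ j, ‖h j (ζ • e)‖ ^ 2 ≤ N * C ^ 2 := by
        calc ∑ j, ‖h j (ζ • e)‖ ^ 2 ≤ ∑ _j : Fin N, C ^ 2 :=
              Finset.sum_le_sum fun j _ => pow_le_pow_left₀ (norm_nonneg _) (hb j) 2
          _ = N * C ^ 2 := by simp
      have e4 : (0 : ℝ) ≤ ∑ j, ‖f j (ζ • e)‖ ^ 2 := Finset.sum_nonneg fun j _ => by positivity
      rw [hd, div_le_iff₀ (by positivity)]
      have e5 : (1 : ℝ) ≤ (∑ j, ‖f j (ζ • e)‖ * ‖h j (ζ • e)‖) ^ 2 := one_le_pow₀ e1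
      have e6 := mul_le_mul_of_nonneg_left e3 e4
      linarith only [e2, e5, e6, e4]

end Pool.Agent.Lib.MP_ca0fc2_an
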