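import Mathlib
import Pool.Agent.Lib.MP_ca0fc2_an.CoronaDisc
import Pool.Agent.Lib.MP_ca0fc2_an.Tube

set_option autoImplicit false

open Metric Set

namespace Pool.Agent.Lib.MP_ca0fc2_an

/-- The corona theorem on the disc. -/
theorem discCorona : DiscCorona := by
  intro N M d hd
  obtain ⟨K, -, H⟩ := Pool.Agent.MPca0fc2.corona_disc_unif (Fin N) M hd
  exact ⟨K, fun f hf hb hs => H f hf hb hs⟩

end Pool.Agent.Lib.MP_ca0fc2_an
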