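import Mathlib
import Pool.Agent.Lib.MP_ca0fc2_an.Defs

set_option autoImplicit false

open Metric Set Filter Topology MeasureTheory
open scoped InnerProductSpace

namespace Pool.Agent.MPca0fc2.SL

open Pool.Agent.Lib.MP_ca0fc2_an

variable {E : Type*} [NormedAddCommGroup E] [InnerProductSpace ℂ E]

theorem solvableOn_one_div {N : ℕ} {f : Fin N → E → ℂ} {D : Set E} {C σ : ℝ} (j : Fin N)
    (hf : DifferentiableOn ℂ (f j) D) (hσ : 0 < σ) (h : ∀ z ∈ D, σ ≤ ‖f j z‖)
    (hC : 1 / σ ≤ C) : SolvableOn f D C := by
  classical
  have hne : ∀ z ∈ D, f j z ≠ 0 := fun z hz h0 => by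
    have := h z hz
    rw [h0, norm_zero] at this
    linarith
  have hC0 : 0 ≤ C := (by positivity : (0 : ℝ) ≤ 1 / σ).trans hC
  refine ⟨fun i => if i = j then fun z => (f j z)⁻¹ else fun _ => 0, ?_, ?_, ?_⟩
  · intro i
    by_cases hij : i = j
    · simp only [hij, if_true]
      exact hf.inv hne
    · simp only [hij, if_false]
      exact differentiableOn_const _
  · intro i z hz
    by_cases hij : i = j
    · simp only [hij, if_true, norm_inv]
      rw [← one_div]
      exact (one_div_le_one_div_of_le hσ (h z hz)).trans hC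
    · simp only [hij, if_false, norm_zero]
      exact hC0
  · intro z hz
    rw [Finset.sum_eq_single j]
    · simp only [if_true]
      exact mul_inv_cancel₀ (hne z hz)
    · intro i _ hij
      simp only [hij, if_false, mul_zero]
    · intro hj
      exact absurd (Finset.mem_univ j) hj

end Pool.Agent.MPca0fc2.SL
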