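import Mathlib
import Pool.Agent.Lib.MP_ca0fc2_an.Mg.G045
import Pool.Agent.Lib.MP_ca0fc2_an.Depth
import Pool.Agent.Lib.MP_ca0fc2_an.DiscCor
import Pool.Agent.Lib.MP_ca0fc2_an.SLCor0
import Pool.Agent.Lib.MP_ca0fc2_an.Mg.G073

set_option autoImplicit false

open Metric Set MeasureTheory Filter Topology
open scoped InnerProductSpace ENNReal

namespace Pool.Agent.MPca0fc2.PT

open Pool.Agent.Lib.MP_ca0fc2_an

variable {E : Type*} [NormedAddCommGroup E] [InnerProductSpace ℂ E]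
variable [FiniteDimensional ℂ E]

/-- qualitative solutions on smaller balls -/
theorem qual {f u : E → ℂ} {M δ s : ℝ} (hf : DifferentiableOn ℂ f (ball 0 1))
    (hu : DifferentiableOn ℂ u (ball 0 1)) (hfM : ∀ z ∈ ball (0 : E) 1, ‖f z‖ ≤ M)
    (huM : ∀ z ∈ ball (0 : E) 1, ‖u z‖ ≤ M) (hδ : 0 < δ)
    (hc : ∀ z ∈ ball (0 : E) 1, δ ≤ ‖f z‖ ∨ δ ≤ ‖u z‖) (hs0 : 0 < s) (hs : s < 1) :
    ∃ a b : E → ℂ, DifferentiableOn ℂ a (ball 0 s) ∧ DifferentiableOn ℂ b (ball 0 s) ∧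
      ∀ z ∈ ball (0 : E) s, f z * a z + u z * b z = 1 := by
  classical
  have hmem : ∀ z : E, ‖z‖ ≤ 1 → (s : ℂ) • z ∈ ball (0 : E) 1 := by
    intro z hz
    rw [mem_ball_zero_iff, norm_smul, Complex.norm_real, Real.norm_eq_abs, abs_of_pos hs0]
    nlinarith [norm_nonneg z]
  have hmemb : ∀ z ∈ ball (0 : E) 1, (s : ℂ) • z ∈ ball (0 : E) 1 := fun z hz =>
    hmem z (mem_ball_zero_iff.mp hz).le
  set F : Fin 2 → E → ℂ := ![fun z => f ((s : ℂ) • z), fun z => u ((s : ℂ) • z)] with hF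
  have hFd : ∀ j, ∀ z : E, ‖z‖ ≤ 1 → DifferentiableAt ℂ (F j) z := by
    intro j z hz
    fin_cases j
    · exact (hf.differentiableAt (isOpen_ball.mem_nhds (hmem z hz))).comp z (by fun_prop)
    · exact (hu.differentiableAt (isOpen_ball.mem_nhds (hmem z hz))).comp z (by fun_prop)
  have hFdo : ∀ j, DifferentiableOn ℂ (F j) (ball 0 1) := fun j z hz =>
    (hFd j z (mem_ball_zero_iff.mp hz).le).differentiableWithinAt
  have hFM : ∀ j, ∀ z ∈ ball (0 : E) 1, ‖F j z‖ ≤ M := by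
    intro j z hz
    fin_cases j
    · exact hfM _ (hmemb z hz)
    · exact huM _ (hmemb z hz)
  have hor : ∀ z : E, ‖z‖ ≤ 1 → ∃ j, δ ≤ ‖F j z‖ := by
    intro z hz
    rcases hc _ (hmem z hz) with h | h
    · exact ⟨0, h⟩
    · exact ⟨1, h⟩
  have hsum : ∀ z ∈ ball (0 : E) 1, δ ^ 2 ≤ ∑ j, ‖F j z‖ ^ 2 := by
    intro z hz
    obtain ⟨j, hj⟩ := hor z (mem_ball_zero_iff.mp hz).le
    calc δ ^ 2 ≤ ‖F j z‖ ^ 2 := by gcongr
      _ ≤ _ := Finset.single_le_sum (f := fun j => ‖F j z‖ ^ 2) (fun i _ => by positivity)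
          (Finset.mem_univ j)
  -- near a boundary point
  have hloc : ∀ l : E, ∃ ρ : ℝ, 0 < ρ ∧ (l ∈ sphere (0 : E) 1 →
      SolvableOn F (ball 0 1 ∩ ball l ρ) (1 / (δ / 2))) := by
    intro l
    by_cases hl : l ∈ sphere (0 : E) 1
    · have hl1 : ‖l‖ = 1 := mem_sphere_zero_iff_norm.mp hl
      obtain ⟨j, hj⟩ := hor l hl1.le
      have hcont := (hFd j l hl1.le).continuousAt.norm
      have hev := hcont.eventually_const_lt (show δ / 2 < ‖F j l‖ by linarith)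
      obtain ⟨ρ, hρ, hρ'⟩ := Metric.eventually_nhds_iff_ball.mp hev
      refine ⟨ρ, hρ, fun _ => ?_⟩
      exact Pool.Agent.MPca0fc2.SL.solvableOn_one_div j ((hFdo j).mono inter_subset_left)
        (by positivity) (fun z hz => (hρ' z hz.2).le) le_rfl
    · exact ⟨1, one_pos, fun h => absurd h hl⟩
  choose ρ hρ hρ' using hloc
  obtain ⟨C', hC'⟩ := finite_depth (E := E) discCorona 2 M (δ ^ 2) (by positivity) (fun _ => 0)
    (fun _ => 1) ρ (fun _ => 1 / (δ / 2)) (fun _ => one_pos) hρ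
  obtain ⟨h, hh1, -, hh3⟩ := hC' F hFdo hFM hsum (fun l hl => hρ' l hl)
  have hmem' : ∀ z ∈ ball (0 : E) s, ((s⁻¹ : ℝ) : ℂ) • z ∈ ball (0 : E) 1 := by
    intro z hz
    rw [mem_ball_zero_iff] at hz
    rw [mem_ball_zero_iff, norm_smul, Complex.norm_real, Real.norm_eq_abs,
      abs_of_pos (inv_pos.mpr hs0), ← div_eq_inv_mul, div_lt_one hs0]
    exact hz
  refine ⟨fun z => h 0 (((s⁻¹ : ℝ) : ℂ) • z), fun z => h 1 (((s⁻¹ : ℝ) : ℂ) • z), ?_, ?_, ?_⟩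
  · exact (hh1 0).comp (by fun_prop) hmem'
  · exact (hh1 1).comp (by fun_prop) hmem'
  · intro z hz
    have h1 := hh3 _ (hmem' z hz)
    rw [Fin.sum_univ_two] at h1
    have e : (s : ℂ) • (((s⁻¹ : ℝ) : ℂ) • z) = z := by
      rw [smul_smul, ← Complex.ofReal_mul, mul_inv_cancel₀ hs0.ne', Complex.ofReal_one, one_smul]
    have e0 : F 0 (((s⁻¹ : ℝ) : ℂ) • z) = f z := by
      change f ((s : ℂ) • (((s⁻¹ : ℝ) : ℂ) • z)) = f z
      rw [e]
    have e1 : F 1 (((s⁻¹ : ℝ) : ℂ) • z) = u z := by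
      change u ((s : ℂ) • (((s⁻¹ : ℝ) : ℂ) • z)) = u z
      rw [e]
    rw [e0, e1] at h1
    exact h1

/-- maximum principle -/
theorem max_shell {F : E → ℂ} {r C : ℝ} (hr : r < 1) (hF : DifferentiableOn ℂ F (ball 0 1))
    (hC : ∀ z : E, r ≤ ‖z‖ → ‖z‖ < 1 → ‖F z‖ ≤ C) [Nontrivial E] {z : E} (hz : ‖z‖ < 1) :
    ‖F z‖ ≤ C := by
  obtain ⟨t, ht1, ht2⟩ := exists_between (max_lt (max_lt hr hz) one_pos)
  have ht0 : 0 < t := lt_of_le_of_lt (le_max_right _ _) ht1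
  have htr : r ≤ t := ((le_max_left _ _).trans (le_max_left _ _)).trans ht1.le
  have htz : ‖z‖ ≤ t := ((le_max_right _ _).trans (le_max_left _ _)).trans ht1.le
  have hd : DiffContOnCl ℂ F (ball (0 : E) t) := by
    apply DifferentiableOn.diffContOnCl
    apply hF.mono
    rw [closure_ball 0 ht0.ne']
    exact closedBall_subset_ball ht2
  refine Complex.norm_le_of_forall_mem_frontier_norm_le isBounded_ball hd (C := C) ?_ ?_
  · intro w hw
    rw [frontier_ball 0 ht0.ne', mem_sphere_zero_iff_norm] at hw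
    exact hC w (by rw [hw]; exact htr) (by rw [hw]; exact ht2)
  · rw [closure_ball 0 ht0.ne', mem_closedBall_zero_iff]
    exact htz

/-- dilated solutions give a solution -/
theorem limit_pair {f u : E → ℂ} {θ C : ℝ} (h0 : 0 < θ) (h1 : θ < 1) (hC : 0 ≤ C)
    (hf : DifferentiableOn ℂ f (ball 0 1)) (hu : DifferentiableOn ℂ u (ball 0 1))
    (h : ∀ K : ℕ, ∃ a b : E → ℂ, DifferentiableOn ℂ a (ball 0 1) ∧
      DifferentiableOn ℂ b (ball 0 1) ∧ (∀ z ∈ ball (0 : E) 1, ‖a z‖ ≤ C ∧ ‖b z‖ ≤ C) ∧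
      ∀ z ∈ ball (0 : E) 1, uk f θ K z * a z + uk u θ K z * b z = 1) :
    ∃ a b : E → ℂ, DifferentiableOn ℂ a (ball 0 1) ∧
      DifferentiableOn ℂ b (ball 0 1) ∧ (∀ z ∈ ball (0 : E) 1, ‖a z‖ ≤ C ∧ ‖b z‖ ≤ C) ∧
      ∀ z ∈ ball (0 : E) 1, f z * a z + u z * b z = 1 := by
  choose a b ha hb hab hs using h
  set 𝒰 : Ultrafilter ℕ := Ultrafilter.of atTop with h𝒰
  have hle : (𝒰 : Filter ℕ) ≤ atTop := Ultrafilter.of_le _
  obtain ⟨a', ha1, ha2, ha3⟩ := Pool.Agent.MPca0fc2.SL.ultra_holo 𝒰 (G := a) isOpen_ball hC ha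
    (fun i z hz => (hab i z hz).1)
  obtain ⟨b', hb1, hb2, hb3⟩ := Pool.Agent.MPca0fc2.SL.ultra_holo 𝒰 (G := b) isOpen_ball hC hb
    (fun i z hz => (hab i z hz).2)
  refine ⟨a', b', ha1, hb1, fun z hz => ⟨ha2 z hz, hb2 z hz⟩, ?_⟩
  intro z hz
  have hrt : Tendsto (fun K : ℕ => rt θ K) atTop (𝓝 1) := by
    have := (tendsto_pow_atTop_nhds_zero_of_lt_one h0.le h1).const_sub 1
    rw [sub_zero] at this
    exact this
  have hz1 : Tendsto (fun K : ℕ => (rt θ K : ℂ) • z) atTop (𝓝 z) := by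
    have h3 : Tendsto (fun i : ℕ => ((rt θ i : ℝ) : ℂ)) atTop (𝓝 ((1 : ℝ) : ℂ)) :=
      (Complex.continuous_ofReal.tendsto 1).comp hrt
    have h4 := h3.smul_const z
    rwa [Complex.ofReal_one, one_smul] at h4
  have hfz : Tendsto (fun K => uk f θ K z) 𝒰 (𝓝 (f z)) := by
    have h5 : ContinuousAt f z := (hf.differentiableAt (isOpen_ball.mem_nhds hz)).continuousAt
    exact (h5.tendsto.comp hz1).mono_left hle
  have huz : Tendsto (fun K => uk u θ K z) 𝒰 (𝓝 (u z)) := by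
    have h5 : ContinuousAt u z := (hu.differentiableAt (isOpen_ball.mem_nhds hz)).continuousAt
    exact (h5.tendsto.comp hz1).mono_left hle
  have h6 := (hfz.mul (ha3 z hz)).add (huz.mul (hb3 z hz))
  have h7 : Tendsto (fun K => uk f θ K z * a K z + uk u θ K z * b K z) 𝒰 (𝓝 1) :=
    tendsto_const_nhds.congr fun K => (hs K z hz).symm
  exact tendsto_nhds_unique h6 h7

end Pool.Agent.MPca0fc2.PT
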