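import Mathlib
import Pool.Agent.Lib.MP_ca0fc2_an.PTQual
import Pool.Agent.Lib.MP_ca0fc2_an.QTX6
import Pool.Agent.Lib.MP_ca0fc2_an.QTX7a

set_option autoImplicit false

open Metric Set MeasureTheory Filter Topology
open scoped InnerProductSpace ENNReal

namespace Pool.Agent.MPca0fc2.QT

open Pool.Agent.MPca0fc2.PT

variable {E : Type*} [NormedAddCommGroup E] [InnerProductSpace ℂ E]
variable [FiniteDimensional ℂ E] [MeasurableSpace E] [BorelSpace E]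
variable {V : Type*} [NormedAddCommGroup V] [NormedSpace ℂ V]
variable {ι : Type} [Fintype ι] {d N m : ℕ}
variable {θ ϑ : ℝ} {P : ℕ} {c ρ C₀ p M A ρ₀ C₁ L : ℝ}

theorem good_zero (h : ParQ E m θ ϑ P c ρ C₀ p M A) (K : Car (Fin N → ℂ) V) (ν : Measure E)
    (f : Fin N → E → ℂ) (u : Fin d → E → ℂ) (s : ι → E → Fin N → ℂ) (χ : ι → (Fin d → ℂ) → ℝ)
    {e : ℝ} {D : ℕ → ℝ} (hD : ∀ r, 0 ≤ D r) :
    Good K ν f u s χ θ ϑ c ρ e D 0 (fun _ _ => 0) where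
  c1 _ := contDiffOn_const
  anti _ _ _ := Anti.zero
  eq r w _ := by
    have e1 : sk χ ν u θ ϑ c ρ s 0 0 = fun _ => sk χ ν u θ ϑ c ρ s 0 0 0 := by
      funext w
      simp [sk, sg, bv, sl, rt, bq]
    have e2 : D01 (sk χ ν u θ ϑ c ρ s 0 0) w = 0 := by
      rw [e1]
      ext v
      rw [D01_apply]
      simp
    have e3 : UU K (sk χ ν u θ ϑ c ρ s 0 0) (r + 1) w = 0 := by
      unfold UU
      rw [e2, Pw_zero, map_zero]
    have e4 : db (fun _ : E => (0 : E [⋀^Fin r]→L[ℝ] V)) w = 0 := by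
      unfold db
      have : d1 (fun _ : E => (0 : E [⋀^Fin r]→L[ℝ] V)) w = 0 := by
        unfold d1
        simp
      rw [this]
      ext v
      simp [ContinuousAlternatingMap.alternatizeUncurryFin_apply]
    rw [e3, e4, map_zero, sub_zero]
  bd r := Bd.zero h.θ0 h.θ1 h.h0 (RA_lt_RC h.θ0 0).le (hD _)

theorem level_Q (μ : Measure E) [μ.IsAddHaarMeasure] (hm : 1 ≤ m)
    (hdim : Module.finrank ℂ E = m + 1) [FiniteDimensional ℂ V]
    (h : ParQ E m θ ϑ P c ρ C₀ p M A) (hρρ : 64 * ρ ≤ ρ₀) (hL : 0 ≤ L)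
    (hC₁ : 0 ≤ C₁) (K : Car (Fin N → ℂ) V) (cc : ι → Fin d → ℂ) (χ : ι → (Fin d → ℂ) → ℝ) :
    ∃ C : ℝ, 0 ≤ C ∧ ∀ (ν : Measure E) (f : Fin N → E → ℂ)
      (u : Fin d → E → ℂ) (s : ι → E → Fin N → ℂ), Dat ν f u s cc χ M A p C₀ ρ₀ C₁ L → ∀ n : ℕ,
      ∃ g : Fin N → E → ℂ, (∀ j, DifferentiableOn ℂ (g j) (ball 0 1)) ∧
        (∀ j, ∀ z ∈ ball (0 : E) 1, ‖g j z‖ ≤ C) ∧
        ∀ z ∈ ball (0 : E) 1, ∑ j, uk (f j) θ n z * g j z = 1 := by
  obtain ⟨κ, C₄, hC₄, hprod⟩ := prodQ_est μ hm hdim h d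
  obtain ⟨D, C, hC, hD, hstep⟩ := step_thm μ hm hdim h hρρ hL hC₁ K cc χ κ (V := V)
  have hθ0 := h.θ0
  have hθ1 := h.θ1
  have hM := h.hM
  have hρ := h.hρ
  have hq := nonneg_q h
  have : Nontrivial E := by
    apply Module.nontrivial_of_finrank_pos (R := ℂ)
    rw [hdim]; omega
  obtain ⟨CW, hCW⟩ : ∃ CW, CW = C * C₄ * Real.exp (1 * (d * (10 * M) + |A| / (1 - ϑ ^ 2))) / 1 :=
    ⟨_, rfl⟩
  have hCW0 : 0 ≤ CW := by rw [hCW]; positivity
  obtain ⟨CH, hCH⟩ : ∃ CH, CH = ‖K.a‖ * (Fintype.card ι * C₁) * ‖K.Ω‖ + ‖K.c‖ * (N * M) * CW :=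
    ⟨_, rfl⟩
  have hCH0 : 0 ≤ CH := by
    rw [hCH]
    have h1 := norm_nonneg K.a
    have h2 := norm_nonneg K.c
    positivity
  refine ⟨‖K.ω‖ * (‖K.c‖ * 1 * CH), by
    have h2 := norm_nonneg K.c
    positivity, ?_⟩
  intro ν f u s Da n
  obtain ⟨W, hW0, hW⟩ := seq_of_step
    (fun k W => Good K ν f u s χ θ ϑ c ρ (ee m P) D k W)
    (fun k W W' => ∀ z : E, ‖z‖ < 1 → ∀ v : Fin 0 → E,
          ‖W' 0 z v‖ ≤ ‖XQ μ m ν u θ ϑ c ρ κ k z‖ * ‖W 0 z v‖ +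
            C * (∑ j, ‖bq ν (u j) θ ϑ c ρ (k + 1) z - bq ν (u j) θ ϑ c ρ k z‖ +
              SQ ν θ ϑ k z)) (fun _ _ => 0) (good_zero h K ν f u s χ hD)
    (fun k W hW => hstep ν f u s Da k W hW)
  have hone : 1 < RA θ n := (one_lt_RB hθ0 _).trans (RB_lt_RA hθ0 _)
  have hAC := RA_lt_RC hθ0 n
  have hzC : ∀ (z : E), ‖z‖ < 1 → ∀ i, ‖z‖ < RC θ i := by
    intro z hz i
    have := one_lt_RB hθ0 i
    have := RB_lt_RA hθ0 i
    have := RA_lt_RC hθ0 i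
    linarith
  -- the bound of the last form
  have hWn : ∀ z : E, 1 - θ ^ n ≤ ‖z‖ → ‖z‖ < 1 → ∀ v : Fin 0 → E, ‖W n 0 z v‖ ≤ CW := by
    intro z hz1 hz2 v
    rw [hCW]
    refine seq_sum (x := fun i => ‖XQ μ m ν u θ ϑ c ρ κ i z‖)
      (s := fun i => ∑ j, ‖bq ν (u j) θ ϑ c ρ (i + 1) z - bq ν (u j) θ ϑ c ρ i z‖ +
        SQ ν θ ϑ i z) (w := fun i => ‖W i 0 z v‖) (K := n) one_pos hC.le hC₄.le ?_ ?_ ?_ ?_ ?_ ?_
    · intro i _
      have := SQ_nonneg (θ := θ) h.h0 ν i z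
      positivity
    · intro i _
      have a1 := h.SQ_le' Da.carl (hzC z hz2 i)
      have a2 : ∑ j, ‖bq ν (u j) θ ϑ c ρ (i + 1) z - bq ν (u j) θ ϑ c ρ i z‖ ≤
          ∑ _j : Fin d, 10 * M := by
        apply Finset.sum_le_sum
        intro j _
        have b1 := h.b_le (Da.hu j) (hzC z hz2 i)
        have b2 := h.b_le (Da.hu j) (hzC z hz2 (i + 1))
        have b3 := norm_sub_le (bq ν (u j) θ ϑ c ρ (i + 1) z) (bq ν (u j) θ ϑ c ρ i z)
        linarith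
      rw [Finset.sum_const, Finset.card_univ, Fintype.card_fin, nsmul_eq_mul] at a2
      linarith
    · intro i _
      exact norm_nonneg _
    · simp only [hW0]
      simp
    · intro i _
      exact (hW i).2 z hz2 v
    · intro j k hjk hkK
      exact hprod ν u Da.hu Da.carl n z hz1 hz2 j k hjk hkK
  -- the solution
  obtain ⟨σ, hσ⟩ : ∃ σ, σ = sk χ ν u θ ϑ c ρ s n n := ⟨_, rfl⟩
  obtain ⟨F, hF⟩ : ∃ F, F = FF f θ n := ⟨_, rfl⟩
  have hsol : ∀ w ∈ ball (0 : E) 1, SolAt σ F w := fun w hw => by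
    rw [hσ, hF]
    exact sol_at h hρρ Da (Or.inl rfl) (hzC w (mem_ball_zero_iff.mp hw) n)
  obtain ⟨H, hH⟩ : ∃ H : E → V, H = fun w => evz E V (Ph K σ F (W n) w) := ⟨_, rfl⟩
  have hHd : ∀ w ∈ ball (0 : E) 1, DifferentiableAt ℂ H w := by
    intro w hw
    have hwA : w ∈ ball (0 : E) (RA θ n) := ball_subset_ball hone.le hw
    have hWd : DifferentiableAt ℝ (W n 0) w :=
      (((hW n).1.c1 0).contDiffAt (isOpen_ball.mem_nhds hwA)).differentiableAt (by norm_num)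
    rw [hH]
    apply holo_of_db (Ph_diff K (hsol w hw) hWd)
    apply db_Ph K (hsol w hw) hWd
    have := (hW n).1.eq 0 w hwA
    rw [← hσ, ← hF] at this
    exact this
  have hHc : ∀ w ∈ ball (0 : E) 1, K.c (F w) (H w) = K.Ω := by
    intro w hw
    rw [hH]
    have := c_Ph K (W := W n) (hsol w hw) (fun i : Fin 0 => i.elim0)
    exact this
  have hHb : ∀ w : E, 1 - θ ^ n ≤ ‖w‖ → ‖w‖ < 1 → ‖H w‖ ≤ CH := by
    intro w h1 h2
    have e1 : H w = K.a (σ w) K.Ω - K.c (F w) (W n 0 w (fun i : Fin 0 => i.elim0)) := by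
      rw [hH]
      rfl
    rw [e1, hCH]
    refine (norm_sub_le _ _).trans (add_le_add ?_ ?_)
    · have a1 := sk_norm h hρρ Da (k := n) (l := n) (Or.inl rfl) (hzC w h2 n)
      rw [← hσ] at a1
      have a2 := (K.a (σ w)).le_opNorm K.Ω
      have a3 := K.a.le_opNorm (σ w)
      calc _ ≤ ‖K.a (σ w)‖ * ‖K.Ω‖ := a2
        _ ≤ ‖K.a‖ * ‖σ w‖ * ‖K.Ω‖ := by gcongr
        _ ≤ _ := by
            have := norm_nonneg K.a
            gcongr
    · have a1 := FF_norm h Da (k := n) (l := n) (by omega) (hzC w h2 n)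
      rw [← hF] at a1
      have a2 := (K.c (F w)).le_opNorm (W n 0 w (fun i : Fin 0 => i.elim0))
      have a3 := K.c.le_opNorm (F w)
      have a4 := hWn w h1 h2 (fun i : Fin 0 => i.elim0)
      calc _ ≤ ‖K.c (F w)‖ * ‖W n 0 w (fun i : Fin 0 => i.elim0)‖ := a2
        _ ≤ (‖K.c‖ * ‖F w‖) * CW := by
            have := norm_nonneg K.c
            gcongr
        _ ≤ _ := by
            have := norm_nonneg K.c
            gcongr
  obtain ⟨g, hg⟩ : ∃ g : Fin N → E → ℂ, g = fun j w =>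
      K.ω (K.c (ContinuousLinearMap.proj j : (Fin N → ℂ) →L[ℂ] ℂ) (H w)) := ⟨_, rfl⟩
  have hgd : ∀ j, DifferentiableOn ℂ (g j) (ball 0 1) := by
    intro j w hw
    apply DifferentiableAt.differentiableWithinAt
    rw [hg]
    exact K.ω.differentiableAt.comp w ((K.c _).differentiableAt.comp w (hHd w hw))
  refine ⟨g, hgd, ?_, ?_⟩
  · intro j z hz
    refine max_shell (r := 1 - θ ^ n) (by
      have : 0 < θ ^ n := by positivity
      linarith) (hgd j) ?_ (mem_ball_zero_iff.mp hz)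
    intro w h1 h2
    rw [hg]
    have a1 : ‖(ContinuousLinearMap.proj j : (Fin N → ℂ) →L[ℂ] ℂ)‖ ≤ 1 := by
      apply ContinuousLinearMap.opNorm_le_bound _ zero_le_one
      intro x
      rw [one_mul]
      exact norm_le_pi_norm x j
    have a2 := hHb w h1 h2
    calc ‖K.ω (K.c (ContinuousLinearMap.proj j : (Fin N → ℂ) →L[ℂ] ℂ) (H w))‖ ≤
        ‖K.ω‖ * ‖K.c (ContinuousLinearMap.proj j : (Fin N → ℂ) →L[ℂ] ℂ) (H w)‖ :=
          K.ω.le_opNorm _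
      _ ≤ ‖K.ω‖ * (‖K.c (ContinuousLinearMap.proj j : (Fin N → ℂ) →L[ℂ] ℂ)‖ * ‖H w‖) := by
          gcongr
          exact ContinuousLinearMap.le_opNorm _ _
      _ ≤ ‖K.ω‖ * (‖K.c‖ * ‖(ContinuousLinearMap.proj j : (Fin N → ℂ) →L[ℂ] ℂ)‖ * ‖H w‖) := by
          gcongr
          exact K.c.le_opNorm _
      _ ≤ _ := by
          have := norm_nonneg K.c
          gcongr
  · intro z hz
    have e1 : ∑ j, uk (f j) θ n z * g j z = K.ω (K.c (F z) (H z)) := by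
      rw [hF, hg]
      unfold FF
      rw [map_sum]
      simp only [_root_.sum_apply, map_smul, _root_.smul_apply, map_sum,
        smul_eq_mul]
    rw [e1, hHc z hz, K.ωΩ]

end Pool.Agent.MPca0fc2.QT
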