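import Mathlib
import Pool.Agent.Lib.MP_ca0fc2_an.CGCls
import Pool.Agent.Lib.MP_ca0fc2_an.QTX8

set_option autoImplicit false

open Metric Set MeasureTheory Filter Topology
open scoped InnerProductSpace ENNReal

namespace Pool.Agent.MPca0fc2.CG

open Pool.Agent.Lib.MP_ca0fc2_an
open Pool.Agent.MPca0fc2.PT

variable {E : Type*} [NormedAddCommGroup E] [InnerProductSpace ℂ E]
variable [FiniteDimensional ℂ E] [MeasurableSpace E] [BorelSpace E]

/-- Cluster theorem: data which are solvable where finitely many functions of the class are close to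
the values of the character are not killed by the character. -/
theorem ne_zero_cells {m : ℕ} (hm : 1 ≤ m) (hdim : Module.finrank ℂ E = m + 1) {I : Type*}
    (Φ : Char I E) {p A : ℝ} (hp : 1 ≤ p) {d : ℕ} {V : Fin d → I → E → ℂ} (hV : ∀ j, BH (V j))
    (hVc : ∀ j i, CarlesonGradient p A (V j i)) {N : ℕ} {F : Fin N → I → E → ℂ}
    (hF : ∀ j, BH (F j)) {κ C : ℝ} (hκ : 0 < κ)
    (hsol : ∀ᶠ i in Φ.filt, SolvableOn (fun j => F j i)
      {z | z ∈ ball (0 : E) 1 ∧ ∀ j, ‖V j i z - Φ.φ (V j)‖ < κ} C) : ∃ j, Φ.φ (F j) ≠ 0 := by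
  classical
  obtain ⟨a, ha⟩ : ∃ a : Fin (N + d) → I → E → ℂ,
    a = Fin.append F (fun j i z => V j i z - Φ.φ (V j)) := ⟨_, rfl⟩
  have ha1 : ∀ j, a (Fin.castAdd d j) = F j := fun j => by rw [ha, Fin.append_left]
  have ha2 : ∀ j, a (Fin.natAdd N j) = fun i z => V j i z - Φ.φ (V j) := fun j => by
    rw [ha, Fin.append_right]
  have haB : ∀ j, BH (a j) := by
    intro j
    refine Fin.addCases (fun j => ?_) (fun j => ?_) j
    · rw [ha1]; exact hF j
    · rw [ha2]; exact (hV j).sub (BH.const _)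
  choose B hB0 hB using fun j => (haB j).bdd'
  choose D hD0 hD using fun j => (hV j).bdd'
  obtain ⟨M, hM⟩ : ∃ M, M = ∑ j, B j + ∑ j, D j := ⟨_, rfl⟩
  have hBM : ∀ j, B j ≤ M := by
    intro j
    have h1 := Finset.single_le_sum (f := B) (fun k _ => (hB0 k).le) (Finset.mem_univ j)
    have h2 : 0 ≤ ∑ j, D j := Finset.sum_nonneg fun k _ => (hD0 k).le
    linarith
  have hDM : ∀ j, D j ≤ M := by
    intro j
    have h1 := Finset.single_le_sum (f := D) (fun k _ => (hD0 k).le) (Finset.mem_univ j)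
    have h2 : 0 ≤ ∑ j, B j := Finset.sum_nonneg fun k _ => (hB0 k).le
    linarith
  obtain ⟨C', hC'⟩ := Pool.Agent.MPca0fc2.QT.Q_gen (E := E) hm hdim (N + d) d (M := M)
    (A := d * max A 0) (p := p) (C₀ := 3) (ρ₀ := κ / 4) (C₁ := max |C| (4 / κ)) hp (by positivity)
    (by norm_num)
  have hC10 : 0 ≤ max |C| (4 / κ) := le_max_of_le_left (abs_nonneg _)
  have hall : ∀ᶠ i in Φ.filt, SolvableOn (fun j => a j i) (ball 0 1) C' := by
    filter_upwards [hsol] with i hi
    obtain ⟨ν, hν1, hν2⟩ := CG_vec (V := fun j => V j i) (by linarith) (fun j => hVc j i)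
    refine hC' (fun j => a j i) (fun j => V j i) ν (fun j => (haB j).holo i)
      (fun j z hz => (hB j i z hz).trans (hBM j)) (fun j => (hV j).holo i)
      (fun j z hz => (hD j i z hz).trans (hDM j)) hν1 hν2 ?_
    intro c
    by_cases hc : ∃ j, κ / 2 ≤ ‖c j - Φ.φ (V j)‖
    · -- far away
      obtain ⟨j₀, hj₀⟩ := hc
      have hlow : ∀ z ∈ {z | z ∈ ball (0 : E) 1 ∧ ∀ j, ‖V j i z - c j‖ < κ / 4},
          κ / 4 ≤ ‖a (Fin.natAdd N j₀) i z‖ := by
        intro z hz
        have h1 := hz.2 j₀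
        rw [ha2]
        have h2 : c j₀ - Φ.φ (V j₀) = (V j₀ i z - Φ.φ (V j₀)) - (V j₀ i z - c j₀) := by ring
        rw [h2] at hj₀
        have h3 := norm_sub_le (V j₀ i z - Φ.φ (V j₀)) (V j₀ i z - c j₀)
        linarith
      refine ⟨fun j z => if j = Fin.natAdd N j₀ then (a (Fin.natAdd N j₀) i z)⁻¹ else 0, ?_, ?_, ?_⟩
      · intro j
        by_cases hj : j = Fin.natAdd N j₀
        · simp only [hj, if_true]
          refine (((haB (Fin.natAdd N j₀)).holo i).mono fun z hz => hz.1).inv ?_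
          intro z hz h0
          have := hlow z hz
          rw [h0, norm_zero] at this
          linarith
        · simp only [hj, if_false]
          exact differentiableOn_const _
      · intro j z hz
        by_cases hj : j = Fin.natAdd N j₀
        · simp only [hj, if_true]
          rw [norm_inv]
          refine le_trans ?_ (le_max_right _ _)
          have h4 := hlow z hz
          calc ‖a (Fin.natAdd N j₀) i z‖⁻¹ ≤ (κ / 4)⁻¹ := inv_anti₀ (by positivity) h4
            _ = 4 / κ := by rw [inv_div]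
        · simp only [hj, if_false, norm_zero]
          exact hC10
      · intro z hz
        have h4 := hlow z hz
        have h5 : a (Fin.natAdd N j₀) i z ≠ 0 := by
          intro h0
          rw [h0, norm_zero] at h4
          linarith
        rw [Finset.sum_eq_single (Fin.natAdd N j₀)]
        · simp only [if_true]
          exact mul_inv_cancel₀ h5
        · intro j _ hj
          simp [hj]
        · intro h; exact absurd (Finset.mem_univ _) h
    · -- near
      push Not at hc
      obtain ⟨h, h1, h2, h3⟩ := hi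
      have hsub : {z | z ∈ ball (0 : E) 1 ∧ ∀ j, ‖V j i z - c j‖ < κ / 4} ⊆
          {z | z ∈ ball (0 : E) 1 ∧ ∀ j, ‖V j i z - Φ.φ (V j)‖ < κ} := by
        rintro z ⟨hz, hz2⟩
        refine ⟨hz, fun j => ?_⟩
        have e1 : V j i z - Φ.φ (V j) = (V j i z - c j) + (c j - Φ.φ (V j)) := by ring
        rw [e1]
        have e2 := norm_add_le (V j i z - c j) (c j - Φ.φ (V j))
        have e3 := hz2 j
        have e4 := hc j
        linarith
      refine ⟨Fin.append (fun j => h j) (fun _ _ => 0), ?_, ?_, ?_⟩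
      · intro j
        refine Fin.addCases (fun j => ?_) (fun j => ?_) j
        · rw [Fin.append_left]; exact (h1 j).mono hsub
        · rw [Fin.append_right]; exact differentiableOn_const _
      · intro j z hz
        refine Fin.addCases (fun j => ?_) (fun j => ?_) j
        · rw [Fin.append_left]
          exact (h2 j z (hsub hz)).trans ((le_abs_self _).trans (le_max_left _ _))
        · rw [Fin.append_right, norm_zero]; exact hC10
      · intro z hz
        rw [Fin.sum_univ_add]
        simp only [Fin.append_left, Fin.append_right, mul_zero, Finset.sum_const_zero, add_zero,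
          ha1]
        exact h3 z (hsub hz)
  by_contra hcon
  push Not at hcon
  have ha0 : ∀ j, Φ.φ (a j) = 0 := by
    intro j
    refine Fin.addCases (fun j => ?_) (fun j => ?_) j
    · rw [ha1]; exact hcon j
    · rw [ha2, Φ.map_sub (hV j) (BH.const _), Φ.map_const, sub_self]
  have hch : ∀ i, ∃ h : Fin (N + d) → E → ℂ, (∀ j, DifferentiableOn ℂ (h j) (ball 0 1)) ∧
      (∀ j, ∀ z ∈ ball (0 : E) 1, ‖h j z‖ ≤ |C'|) ∧
      (SolvableOn (fun j => a j i) (ball 0 1) C' → ∀ z ∈ ball (0 : E) 1, ∑ j, a j i z * h j z = 1) := by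
    intro i
    by_cases hi : SolvableOn (fun j => a j i) (ball 0 1) C'
    · obtain ⟨h, h1, h2, h3⟩ := hi
      exact ⟨h, h1, fun j z hz => (h2 j z hz).trans (le_abs_self _), fun _ => h3⟩
    · exact ⟨fun _ _ => 0, fun j => differentiableOn_const _, fun j z hz => by
        rw [norm_zero]; exact abs_nonneg _, fun h => absurd h hi⟩
  choose h h1 h2 h3 using hch
  have hhB : ∀ j, BH fun i => h i j := fun j => ⟨fun i => h1 i j, |C'|, fun i z hz => h2 i j z hz⟩
  have e1 : Φ.φ (fun i z => ∑ j, a j i z * h i j z) = 1 := by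
    rw [← Φ.map_const 1]
    apply Φ.congr_ev (BH.const 1) (BH.sum fun j _ => (haB j).mul (hhB j))
    filter_upwards [hall] with i hi z hz
    exact h3 i hi z hz
  rw [Φ.map_sum (fun j _ => (haB j).mul (hhB j))] at e1
  have e2 : ∀ j, Φ.φ (fun i z => a j i z * h i j z) = 0 := by
    intro j
    rw [Φ.map_mul (haB j) (hhB j), ha0 j, zero_mul]
  simp [e2] at e1

/-- the control set of a list of functions -/
def cset {I : Type*} (Φ : Char I E) (L : List (I → E → ℂ)) (κ : ℝ) (i : I) : Set E :=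
  {z | z ∈ ball (0 : E) 1 ∧ ∀ V ∈ L, ‖V i z - Φ.φ V‖ < κ}

/-- The same for a list. -/
theorem ne_zero_list {m : ℕ} (hm : 1 ≤ m) (hdim : Module.finrank ℂ E = m + 1) {I : Type*}
    (Φ : Char I E) {p A : ℝ} (hp : 1 ≤ p) {L : List (I → E → ℂ)}
    (hL : ∀ V ∈ L, BH V ∧ ∀ i, CarlesonGradient p A (V i)) {N : ℕ} {F : Fin N → I → E → ℂ}
    (hF : ∀ j, BH (F j)) {κ C : ℝ} (hκ : 0 < κ)
    (hsol : ∀ᶠ i in Φ.filt, SolvableOn (fun j => F j i) (cset Φ L κ i) C) :
    ∃ j, Φ.φ (F j) ≠ 0 := by
  refine ne_zero_cells hm hdim Φ hp (V := fun j : Fin L.length => L.get j)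
    (fun j => (hL _ (L.get_mem j)).1) (fun j => (hL _ (L.get_mem j)).2) hF hκ (C := C) ?_
  filter_upwards [hsol] with i hi
  refine hi.mono ?_
  rintro z ⟨hz, hz2⟩
  refine ⟨hz, fun V hV => ?_⟩
  obtain ⟨j, hj⟩ := List.get_of_mem hV
  have := hz2 j
  rw [hj] at this
  exact this

/-- control sets are not empty -/
theorem cset_nonempty {m : ℕ} (hm : 1 ≤ m) (hdim : Module.finrank ℂ E = m + 1) {I : Type*}
    (Φ : Char I E) {p A : ℝ} (hp : 1 ≤ p) {L : List (I → E → ℂ)}
    (hL : ∀ V ∈ L, BH V ∧ ∀ i, CarlesonGradient p A (V i)) {κ : ℝ} (hκ : 0 < κ) :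
    ∀ᶠ i in Φ.filt, (cset Φ L κ i).Nonempty := by
  by_contra hcon
  have h1 := Φ.not_eventually hcon
  obtain ⟨j, hj⟩ := ne_zero_list hm hdim Φ hp hL (N := 1) (F := fun _ _ _ => 0)
    (fun _ => BH.const 0) (κ := κ) (C := 0) hκ (by
    filter_upwards [h1] with i hi
    rw [not_nonempty_iff_eq_empty] at hi
    rw [hi]
    exact ⟨fun _ _ => 0, fun j => differentiableOn_const _, by simp, by simp⟩)
  exact hj (Φ.map_const 0)

end Pool.Agent.MPca0fc2.CG
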