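import Mathlib
import Pool.Agent.Lib.MP_ca0fc2_an.CGLem

set_option autoImplicit false

open Metric Set MeasureTheory Filter Topology
open scoped InnerProductSpace ENNReal

namespace Pool.Agent.MPca0fc2.CG

open Pool.Agent.Lib.MP_ca0fc2_an
open Pool.Agent.MPca0fc2.PT

universe u

variable {E : Type*} [NormedAddCommGroup E] [InnerProductSpace ℂ E]
variable [MeasurableSpace E]

theorem CS_mono {N : ℕ} {f : Fin N → E → ℂ} {C η p A : ℝ} : ∀ {k : ℕ} {D D' : Set E},
    CutSolvable f C η p A k D → D' ⊆ D → CutSolvable f C η p A k D' := by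
  intro k
  induction k with
  | zero => intro D D' h hD; exact SolvableOn.mono h hD
  | succ k ih =>
    rintro D D' (⟨e, φ, ψ, he, hφ, h⟩ | ⟨u, h1, h2, h3, h⟩) hD
    · exact Or.inl ⟨e, φ, ψ, he, hφ, fun z₀ hz₀ => ih (h z₀ (hD hz₀)) (inter_subset_inter_left _ hD)⟩
    · exact Or.inr ⟨u, h1, h2, h3, fun z₀ hz₀ => ih (h z₀ (hD hz₀)) (inter_subset_inter_left _ hD)⟩

theorem CS_lower {N : ℕ} {f : Fin N → E → ℂ} {C η p A : ℝ} (hη : 0 < η) :
    ∀ {k : ℕ} {D : Set E}, D ⊆ ball (0 : E) 1 → CutSolvable f C η p A k D → ∀ {z : E}, z ∈ D →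
    1 ≤ (∑ j, ‖f j z‖) * C := by
  intro k
  induction k with
  | zero => intro D _ h z hz; exact SolvableOn.lower h hz
  | succ k ih =>
    rintro D hD (⟨e, φ, ψ, he, hφ, h⟩ | ⟨u, h1, h2, h3, h⟩) z hz
    · refine ih (inter_subset_left.trans hD) (h z hz) ⟨hz, ?_⟩
      have h1 : 0 < 1 - ‖⟪e, φ z⟫_ℂ‖ := by
        have := norm_inner_lt he (hφ.map z (hD hz))
        linarith
      have h2 : 0 < η * (1 - ‖⟪e, φ z⟫_ℂ‖) := by positivity
      constructor <;> simpa using h2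
    · refine ih (inter_subset_left.trans hD) (h z hz) ⟨hz, ?_⟩
      simpa using hη

variable [FiniteDimensional ℂ E] [BorelSpace E]

theorem CS_comp {N : ℕ} {f : Fin N → E → ℂ} {C η p A : ℝ} (hp : 0 ≤ p) {S R : E → E}
    (hS : IsBallAut S R) : ∀ {k : ℕ} {D : Set E}, CutSolvable f C η p A k D →
    CutSolvable (fun j z => f j (S z)) C η p A k {z | z ∈ ball (0 : E) 1 ∧ S z ∈ D} := by
  intro k
  induction k with
  | zero =>
    intro D h
    exact SolvableOn.comp h (hS.hol.mono fun z hz => hz.1) fun z hz => hz.2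
  | succ k ih =>
    rintro D (⟨e, φ, ψ, he, hφ, h⟩ | ⟨u, h1, h2, h3, h⟩)
    · refine Or.inl ⟨e, fun z => φ (S z), fun z => R (ψ z), he, ?_, ?_⟩
      · exact ⟨hφ.hol.comp hS.hol hS.map, hS.hol'.comp hφ.hol' hφ.map',
          fun z hz => hφ.map _ (hS.map z hz), fun z hz => hS.map' _ (hφ.map' z hz),
          fun z hz => by rw [hφ.left _ (hS.map z hz), hS.left z hz],
          fun z hz => by rw [hS.right _ (hφ.map' z hz), hφ.right z hz]⟩
      · rintro z₀ ⟨hz₀, hz₀D⟩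
        refine CS_mono (ih (h _ hz₀D)) ?_
        rintro z ⟨⟨hz, hzD⟩, hzc⟩
        exact ⟨hz, hzD, hzc⟩
    · refine Or.inr ⟨fun z => u (S z), h1.comp hS.hol hS.map, fun z hz => h2 _ (hS.map z hz),
        CG_comp_aut h1 hp h3 hS, ?_⟩
      rintro z₀ ⟨hz₀, hz₀D⟩
      refine CS_mono (ih (h _ hz₀D)) ?_
      rintro z ⟨⟨hz, hzD⟩, hzc⟩
      exact ⟨hz, hzD, hzc⟩

theorem CS_expo {N : ℕ} {f : Fin N → E → ℂ} {C η p p' A A' : ℝ} (hp : 0 < p)
    (hpp : p ≤ p') (hA : max A 1 ^ (p' / p - 1) * A ≤ A') : ∀ {k : ℕ} {D : Set E},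
    CutSolvable f C η p A k D → CutSolvable f C η p' A' k D := by
  intro k
  induction k with
  | zero => intro D h; exact h
  | succ k ih =>
    rintro D (⟨e, φ, ψ, he, hφ, h⟩ | ⟨u, h1, h2, h3, h⟩)
    · exact Or.inl ⟨e, φ, ψ, he, hφ, fun z₀ hz₀ => ih (h z₀ hz₀)⟩
    · exact Or.inr ⟨u, h1, h2, CG_mono (CG_expo hp hpp h3) hA, fun z₀ hz₀ => ih (h z₀ hz₀)⟩

omit [FiniteDimensional ℂ E] [MeasurableSpace E] [BorelSpace E] in
/-- a list of coordinate functions -/
theorem exists_coord [FiniteDimensional ℂ E] {m : ℕ} (hdim : Module.finrank ℂ E = m + 1) (I : Type*) :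
    ∃ L : List (I → E → ℂ), (∀ V ∈ L, ∃ w : E, ‖w‖ ≤ 1 ∧ V = fun _ z => ⟪w, z⟫_ℂ) ∧
      ∀ κ : ℝ, 0 < κ → ∀ z ν : E, (∀ V ∈ L, ∀ i, ‖V i z - V i ν‖ < κ / (m + 1)) → Nonempty I →
        ‖z - ν‖ < κ := by
  classical
  obtain ⟨b, hb⟩ : ∃ b : OrthonormalBasis (Fin (Module.finrank ℂ E)) ℂ E,
    b = stdOrthonormalBasis ℂ E := ⟨_, rfl⟩
  refine ⟨List.ofFn fun j => fun (_ : I) z => ⟪b j, z⟫_ℂ, ?_, ?_⟩
  · intro V hV
    rw [List.mem_ofFn] at hV
    obtain ⟨j, rfl⟩ := hV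
    exact ⟨b j, (b.orthonormal.1 j).le, rfl⟩
  · intro κ hκ z ν h hI
    obtain ⟨i⟩ := hI
    have h1 : z - ν = ∑ j, ⟪b j, z - ν⟫_ℂ • b j := (b.sum_repr' (z - ν)).symm
    have hpos : (Finset.univ : Finset (Fin (Module.finrank ℂ E))).Nonempty := by
      rw [Finset.univ_nonempty_iff, hdim]
      exact ⟨0⟩
    calc ‖z - ν‖ = ‖∑ j, ⟪b j, z - ν⟫_ℂ • b j‖ := by rw [← h1]
      _ ≤ ∑ j, ‖⟪b j, z - ν⟫_ℂ • b j‖ := norm_sum_le _ _
      _ < ∑ _j : Fin (Module.finrank ℂ E), κ / (m + 1) := by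
          apply Finset.sum_lt_sum_of_nonempty hpos
          intro j _
          rw [norm_smul, b.orthonormal.1 j, mul_one, inner_sub_right]
          exact h _ (by rw [List.mem_ofFn]; exact ⟨j, rfl⟩) i
      _ = κ := by
          rw [Finset.sum_const, Finset.card_univ, Fintype.card_fin, hdim, nsmul_eq_mul]
          push_cast
          field_simp

/-- transport of a list of functions -/
def pull {I J : Type*} (τ : J → I) (S : AutF J E) (L : List (I → E → ℂ)) : List (J → E → ℂ) :=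
  L.map fun V j z => V (τ j) (S.fwd j z)

/-- Localization for families, with cuts by lines and by functions of the class. -/
theorem cut_thm (hDC : DiscCorona) {m : ℕ} (hm : 1 ≤ m) (hdim : Module.finrank ℂ E = m + 1)
    {p A : ℝ} (hp : 4 ≤ p) (hA : 1 ≤ A) : ∀ (k : ℕ) {I : Type u}
    (Φ : Char I E) (L : List (I → E → ℂ)), (∀ V ∈ L, BH V ∧ ∀ i, CarlesonGradient p A (V i)) →
    ∀ {N : ℕ} {f : Fin N → I → E → ℂ}, (∀ j, BH (f j)) → ∀ {κ C η : ℝ}, 0 < κ → 0 < η →
    (∀ᶠ i in Φ.filt, CutSolvable (fun j => f j i) C η p A k (cset Φ L κ i)) →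
    ∃ j, Φ.φ (f j) ≠ 0 := by
  have hp0 : 0 < p := by linarith
  have hp1 : 1 ≤ p := by linarith
  have hcoord : ∀ w : E, ‖w‖ ≤ 1 → CarlesonGradient p A fun z : E => ⟪w, z⟫_ℂ := by
    intro w hw
    refine CG_mono (CG_expo (by norm_num) hp (CG_inner hw)) ?_
    rw [max_self, Real.one_rpow, one_mul]
    exact hA
  intro k
  induction k with
  | zero =>
    intro I Φ L hL N f hf κ C η hκ _ hsol
    exact ne_zero_list hm hdim Φ hp1 hL hf hκ hsol
  | succ k ih =>
    intro I Φ L hL N f hf κ C η hκ hη hsol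
    classical
    by_cases hP : ∀ᶠ i in Φ.filt, ∃ (e : E) (φ ψ : E → E), ‖e‖ = 1 ∧ IsBallAut φ ψ ∧
        ∀ z₀ ∈ cset Φ L κ i, CutSolvable (fun j => f j i) C η p A k
          (cset Φ L κ i ∩ lineCell e η φ z₀)
    · -- lines
      obtain ⟨e₀, he₀⟩ : ∃ e₀ : E, ‖e₀‖ = 1 := by
        have : Nontrivial E := Module.nontrivial_of_finrank_pos (R := ℂ) (by omega)
        obtain ⟨x, hx⟩ := exists_ne (0 : E)
        obtain ⟨e, he, -⟩ := exists_unit hx
        exact ⟨e, he⟩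
      have hch : ∀ i, ∃ (e : E) (φ ψ : E → E), ‖e‖ = 1 ∧ IsBallAut φ ψ ∧
          ((∃ (e : E) (φ ψ : E → E), ‖e‖ = 1 ∧ IsBallAut φ ψ ∧
            ∀ z₀ ∈ cset Φ L κ i, CutSolvable (fun j => f j i) C η p A k
              (cset Φ L κ i ∩ lineCell e η φ z₀)) →
            ∀ z₀ ∈ cset Φ L κ i, CutSolvable (fun j => f j i) C η p A k
              (cset Φ L κ i ∩ lineCell e η φ z₀)) := by
        intro i
        by_cases h : (∃ (e : E) (φ ψ : E → E), ‖e‖ = 1 ∧ IsBallAut φ ψ ∧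
            ∀ z₀ ∈ cset Φ L κ i, CutSolvable (fun j => f j i) C η p A k
              (cset Φ L κ i ∩ lineCell e η φ z₀))
        · obtain ⟨e, φ, ψ, he, hφ, h'⟩ := h
          exact ⟨e, φ, ψ, he, hφ, fun _ => h'⟩
        · exact ⟨e₀, id, id, he₀, ⟨differentiableOn_id, differentiableOn_id, fun _ hz => hz,
            fun _ hz => hz, fun _ _ => rfl, fun _ _ => rfl⟩, fun h' => absurd h' h⟩
      choose e φ ψ he hφ hch using hch
      obtain ⟨B, hB⟩ : ∃ B : AutF I E, B = ⟨φ, ψ, fun i => (hφ i).hol, fun i => (hφ i).hol',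
        fun i => (hφ i).map, fun i => (hφ i).map', fun i => (hφ i).left, fun i => (hφ i).right⟩ :=
        ⟨_, rfl⟩
      have hBf : ∀ i, B.fwd i = φ i := fun i => by rw [hB]
      obtain ⟨Ψ, hΨx, hΨF⟩ := mstepA hDC Φ B he
      obtain ⟨S, hS⟩ : ∃ S, S = B.symm.comp Prod.fst (AutF.mobF he) := ⟨_, rfl⟩
      rw [← hS] at hΨF
      have hSf : ∀ p z, S.fwd p z = B.bwd p.1 (mob (e p.1) p.2 z) := by
        intro p z; rw [hS]; rfl
      have hSaut : ∀ p, IsBallAut (S.fwd p) (S.bwd p) := fun p =>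
        ⟨S.dfwd p, S.dbwd p, S.mfwd p, S.mbwd p, S.left p, S.right p⟩
      obtain ⟨ν, hν1, hΨν⟩ := Ψ.exists_point
      have hf' : ∀ j, BH fun p z => f j p.1 (S.fwd p z) := fun j => (hf j).compAut Prod.fst S
      have hsol' := ev_fst hΨF hP
      have hsol'' := ev_fst hΨF hsol
      have hfv := fun j => hΨF (f j) (hf j)
      simp_rw [← hfv]
      -- the transported list
      have hpull : ∀ V' ∈ pull Prod.fst S L, BH V' ∧ ∀ q, CarlesonGradient p A (V' q) := by
        intro V' hV'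
        rw [pull, List.mem_map] at hV'
        obtain ⟨V, hV, rfl⟩ := hV'
        refine ⟨(hL V hV).1.compAut Prod.fst S, fun q => ?_⟩
        exact CG_comp_aut ((hL V hV).1.holo q.1) hp0.le ((hL V hV).2 q.1) (hSaut q)
      have hcs : ∀ (κ' : ℝ), κ' ≤ κ → ∀ p z, z ∈ cset Ψ (pull Prod.fst S L) κ' p →
          S.fwd p z ∈ cset Φ L κ p.1 := by
        rintro κ' hκ' p z ⟨hz, hz2⟩
        refine ⟨S.mfwd p z hz, fun V hV => ?_⟩
        have h1 := hz2 (fun q z => V q.1 (S.fwd q z)) (by rw [pull, List.mem_map]; exact ⟨V, hV, rfl⟩)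
        rw [hΨF V (hL V hV).1] at h1
        exact h1.trans_le hκ'
      rcases lt_or_eq_of_le hν1 with hν | hν
      · -- interior case
        by_contra hcon
        push Not at hcon
        have hνm : ν ∈ ball (0 : E) 1 := by rwa [mem_ball_zero_iff]
        have hctl : ∀ᶠ p in Ψ.filt, ∀ V' ∈ pull Prod.fst S L, ‖V' p ν - Ψ.φ V'‖ < κ := by
          have : ∀ L' : List (I × ball (0 : ℂ) 1 → E → ℂ), (∀ V' ∈ L', BH V') →
              ∀ᶠ p in Ψ.filt, ∀ V' ∈ L', ‖V' p ν - Ψ.φ V'‖ < κ := by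
            intro L'
            induction L' with
            | nil => intro _; exact Eventually.of_forall fun p V' hV' => by simp at hV'
            | cons V₁ L₁ ih₁ =>
              intro hL₁
              have g1 := ih₁ fun V' hV' => hL₁ V' (List.mem_cons_of_mem _ hV')
              have g2 := tendsto_of_interior Ψ hν hΨν (hL₁ V₁ List.mem_cons_self)
              filter_upwards [g1, g2.eventually (ball_mem_nhds _ hκ)] with p h1 h2 V' hV'
              rcases List.mem_cons.mp hV' with rfl | hV'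
              · rwa [← dist_eq_norm]
              · exact h1 V' hV'
          exact this _ fun V' hV' => (hpull V' hV').1
        have hlim := fun j => (tendsto_of_interior Ψ hν hΨν (hf' j)).norm
        simp only [hcon, norm_zero] at hlim
        have hlim' : Tendsto (fun p : I × ball (0 : ℂ) 1 => (∑ j, ‖f j p.1 (S.fwd p ν)‖) * C)
            Ψ.filt (𝓝 ((∑ _j : Fin N, (0 : ℝ)) * C)) :=
          (tendsto_finsetSum _ fun j _ => hlim j).mul_const C
        rw [Finset.sum_const_zero, zero_mul] at hlim'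
        have h1 : ∀ᶠ p in Ψ.filt, 1 ≤ (∑ j, ‖f j p.1 (S.fwd p ν)‖) * C := by
          filter_upwards [hctl, hsol''] with p hp1 hp2
          exact CS_lower hη (fun z hz => hz.1) hp2 (hcs κ le_rfl p ν ⟨hνm, hp1⟩)
        have h3 := ge_of_tendsto hlim' h1
        linarith
      · -- boundary case
        have hx0 : Tendsto (fun p : I × ball (0 : ℂ) 1 => ⟪e p.1, ν⟫_ℂ) Ψ.filt (𝓝 0) := by
          have := Ψ.map_innerFam hΨν (e := fun p => e p.1) fun p => he p.1
          rwa [hΨx] at this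
        have hsmall : ∀ᶠ p in Ψ.filt, ‖⟪e p.1, ν⟫_ℂ‖ < 1 / 4 := by
          have := hx0.norm
          rw [norm_zero] at this
          exact this.eventually_lt_const (by norm_num)
        obtain ⟨Lc, hLc1, hLc2⟩ := exists_coord hdim (I × ball (0 : ℂ) 1)
        obtain ⟨κ', hκ'⟩ : ∃ κ', κ' = min κ (min (η / 1600) (1 / 8)) := ⟨_, rfl⟩
        have hκ'0 : 0 < κ' := by rw [hκ']; positivity
        have hκ'κ : κ' ≤ κ := by rw [hκ']; exact min_le_left _ _
        have hκ'η : κ' ≤ η / 1600 := by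
          rw [hκ']; exact (min_le_right _ _).trans (min_le_left _ _)
        have hκ'8 : κ' ≤ 1 / 8 := by
          rw [hκ']; exact (min_le_right _ _).trans (min_le_right _ _)
        obtain ⟨κ'', hκ''⟩ : ∃ κ'' : ℝ, κ'' = κ' / (m + 1) := ⟨_, rfl⟩
        have hκ''0 : 0 < κ'' := by rw [hκ'']; positivity
        have hκ''' : κ'' ≤ κ' := by
          rw [hκ'']
          exact div_le_self hκ'0.le (by
            have : (0 : ℝ) ≤ m := Nat.cast_nonneg m
            linarith)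
        have hnew : ∀ V' ∈ Lc ++ pull Prod.fst S L, BH V' ∧ ∀ q, CarlesonGradient p A (V' q) := by
          intro V' hV'
          rcases List.mem_append.mp hV' with h | h
          · obtain ⟨w, hw, rfl⟩ := hLc1 V' h
            exact ⟨BH.inner w, fun _ => hcoord w hw⟩
          · exact hpull V' h
        have hnon := cset_nonempty hm hdim Ψ hp1 hnew hκ''0
        refine ih Ψ (Lc ++ pull Prod.fst S L) hnew hf' (κ := κ'') (C := C)
          (η := η) hκ''0 hη ?_
        filter_upwards [hsmall, hnon, hsol'] with q hp1 hp2 hp3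
        obtain ⟨z₀, hz₀⟩ := hp2
        have hsub : ∀ z ∈ cset Ψ (Lc ++ pull Prod.fst S L) κ'' q, S.fwd q z ∈ cset Φ L κ q.1 := by
          rintro z ⟨hz, hzc⟩
          apply hcs κ'' (hκ'''.trans hκ'κ) q z
          exact ⟨hz, fun V hV => hzc V (List.mem_append_right _ hV)⟩
        have hnear : ∀ z ∈ cset Ψ (Lc ++ pull Prod.fst S L) κ'' q, ‖z - ν‖ < κ' := by
          rintro z ⟨hz, hzc⟩
          refine hLc2 κ' hκ'0 z ν ?_ ⟨q⟩
          intro V hV i
          have h1 := hzc V (List.mem_append_left _ hV)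
          obtain ⟨w, hw, rfl⟩ := hLc1 V hV
          rw [hΨν, hκ''] at h1
          exact h1
        have h1 := hch q.1 hp3 _ (hsub z₀ hz₀)
        refine CS_mono (CS_comp hp0.le (hSaut q) h1) ?_
        intro z hz
        refine ⟨hz.1, hsub z hz, ?_⟩
        -- the cell
        have hin : ∀ z : E, ‖z - ν‖ < κ' → ‖⟪e q.1, z⟫_ℂ‖ ≤ 1 / 2 := by
          intro z hz
          have h1 : ⟪e q.1, z⟫_ℂ = ⟪e q.1, z - ν⟫_ℂ + ⟪e q.1, ν⟫_ℂ := by
            rw [inner_sub_right]; ring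
          rw [h1]
          have h2 := norm_inner_le (he q.1) (z - ν)
          refine (norm_add_le _ _).trans ?_
          linarith
        have hzν : ‖z - ν‖ < κ' := hnear z hz
        have hz₀ν : ‖z₀ - ν‖ < κ' := hnear z₀ hz₀
        have hzz : ‖z₀ - z‖ < 2 * κ' := by
          calc ‖z₀ - z‖ = ‖(z₀ - ν) - (z - ν)‖ := by congr 1; abel
            _ ≤ ‖z₀ - ν‖ + ‖z - ν‖ := norm_sub_le _ _
            _ < 2 * κ' := by linarith
        have hcm := close_mob (he q.1) (norm_coe_lt q.2) hz₀.1 hz.1 (hin z₀ hz₀ν) (hin z hzν)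
          (η := η / 2) (by linarith) (by linarith)
        have hφS : ∀ z ∈ ball (0 : E) 1, φ q.1 (S.fwd q z) = mob (e q.1) q.2 z := by
          intro z hz
          rw [hSf, ← hBf, B.right q.1 _ (mob_mem (he q.1) (norm_coe_lt q.2) hz)]
        have hpos : 0 < 1 - ‖⟪e q.1, mob (e q.1) q.2 z₀⟫_ℂ‖ := by
          have := norm_inner_lt (he q.1) (mob_mem (he q.1) (norm_coe_lt q.2) hz₀.1)
          linarith
        have hlt : η / 2 * (1 - ‖⟪e q.1, mob (e q.1) q.2 z₀⟫_ℂ‖) <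
            η * (1 - ‖⟪e q.1, mob (e q.1) q.2 z₀⟫_ℂ‖) := by
          apply mul_lt_mul_of_pos_right _ hpos
          linarith
        constructor
        · rw [hφS z hz.1, hφS z₀ hz₀.1, ← neg_sub, inner_neg_right, norm_neg]
          exact hcm.1.trans_lt hlt
        · rw [hφS z hz.1, hφS z₀ hz₀.1, norm_sub_rev]
          exact hcm.2.trans_lt hlt
    · -- functions
      have hQ : ∀ᶠ i in Φ.filt, ∃ u : E → ℂ, DifferentiableOn ℂ u (ball 0 1) ∧
          (∀ z ∈ ball (0 : E) 1, ‖u z‖ ≤ 1) ∧ CarlesonGradient p A u ∧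
          ∀ z₀ ∈ cset Φ L κ i, CutSolvable (fun j => f j i) C η p A k
            (cset Φ L κ i ∩ {z | ‖u z - u z₀‖ < η}) := by
        filter_upwards [hsol, Φ.not_eventually hP] with i h1 h2
        rcases h1 with h1 | h1
        · exact absurd h1 h2
        · exact h1
      have hch : ∀ i, ∃ u : E → ℂ, DifferentiableOn ℂ u (ball 0 1) ∧
          (∀ z ∈ ball (0 : E) 1, ‖u z‖ ≤ 1) ∧ CarlesonGradient p A u ∧
          ((∃ u : E → ℂ, DifferentiableOn ℂ u (ball 0 1) ∧
            (∀ z ∈ ball (0 : E) 1, ‖u z‖ ≤ 1) ∧ CarlesonGradient p A u ∧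
            ∀ z₀ ∈ cset Φ L κ i, CutSolvable (fun j => f j i) C η p A k
              (cset Φ L κ i ∩ {z | ‖u z - u z₀‖ < η})) →
            ∀ z₀ ∈ cset Φ L κ i, CutSolvable (fun j => f j i) C η p A k
              (cset Φ L κ i ∩ {z | ‖u z - u z₀‖ < η})) := by
        intro i
        by_cases h : (∃ u : E → ℂ, DifferentiableOn ℂ u (ball 0 1) ∧
            (∀ z ∈ ball (0 : E) 1, ‖u z‖ ≤ 1) ∧ CarlesonGradient p A u ∧
            ∀ z₀ ∈ cset Φ L κ i, CutSolvable (fun j => f j i) C η p A k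
              (cset Φ L κ i ∩ {z | ‖u z - u z₀‖ < η}))
        · obtain ⟨u, h1, h2, h3, h4⟩ := h
          exact ⟨u, h1, h2, h3, fun _ => h4⟩
        · exact ⟨fun _ => 0, differentiableOn_const _, by simp, CG_zero hp0, fun h' => absurd h' h⟩
      choose u hu1 hu2 hu3 hch using hch
      have huB : BH u := ⟨hu1, 1, hu2⟩
      obtain ⟨κ', hκ'⟩ : ∃ κ', κ' = min κ (η / 2) := ⟨_, rfl⟩
      have hκ'0 : 0 < κ' := by rw [hκ']; positivity
      have hκ'κ : κ' ≤ κ := by rw [hκ']; exact min_le_left _ _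
      have hκ'η : κ' ≤ η / 2 := by rw [hκ']; exact min_le_right _ _
      have hnew : ∀ V' ∈ u :: L, BH V' ∧ ∀ i, CarlesonGradient p A (V' i) := by
        intro V' hV'
        rcases List.mem_cons.mp hV' with rfl | h
        · exact ⟨huB, hu3⟩
        · exact hL V' h
      have hnon := cset_nonempty hm hdim Φ hp1 hnew hκ'0
      refine ih Φ (u :: L) hnew hf (κ := κ') (C := C) (η := η) hκ'0 hη ?_
      filter_upwards [hnon, hQ] with i h1 h2
      obtain ⟨z₀, hz₀⟩ := h1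
      have hsub : ∀ z ∈ cset Φ (u :: L) κ' i, z ∈ cset Φ L κ i := by
        rintro z ⟨hz, hzc⟩
        exact ⟨hz, fun V hV => (hzc V (List.mem_cons_of_mem _ hV)).trans_le hκ'κ⟩
      refine CS_mono (hch i h2 z₀ (hsub z₀ hz₀)) ?_
      intro z hz
      refine ⟨hsub z hz, ?_⟩
      have g1 := hz.2 u List.mem_cons_self
      have g2 := hz₀.2 u List.mem_cons_self
      show ‖u i z - u i z₀‖ < η
      calc ‖u i z - u i z₀‖ = ‖(u i z - Φ.φ u) - (u i z₀ - Φ.φ u)‖ := by congr 1; ring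
        _ ≤ ‖u i z - Φ.φ u‖ + ‖u i z₀ - Φ.φ u‖ := norm_sub_le _ _
        _ < η := by linarith

end Pool.Agent.MPca0fc2.CG
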