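import Mathlib
import Pool.Agent.Lib.MP_ca0fc2_an.CGDepth

set_option autoImplicit false

open Metric Set MeasureTheory Filter Topology
open scoped InnerProductSpace ENNReal

namespace Pool.Agent.MPca0fc2.CG

open Pool.Agent.Lib.MP_ca0fc2_an
open Pool.Agent.MPca0fc2.PT

variable {E : Type*} [NormedAddCommGroup E] [InnerProductSpace ℂ E]
variable [FiniteDimensional ℂ E] [MeasurableSpace E] [BorelSpace E]

/-- Localization with cuts by lines and by functions with Carleson gradients, with bounds. -/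
theorem cut_main (hDC : DiscCorona) {m : ℕ} (hm : 1 ≤ m) (hdim : Module.finrank ℂ E = m + 1)
    (N : ℕ) (M δ : ℝ) (hδ : 0 < δ)
    (k : E → ℕ) (η ρ C p A : E → ℝ) (hη : ∀ l, 0 < η l) (hρ : ∀ l, 0 < ρ l) (hp : ∀ l, 0 < p l) :
    ∃ C' : ℝ, ∀ f : Fin N → E → ℂ, (∀ j, DifferentiableOn ℂ (f j) (ball 0 1)) →
      (∀ j, ∀ z ∈ ball (0 : E) 1, ‖f j z‖ ≤ M) →
      (∀ z ∈ ball (0 : E) 1, δ ≤ ∑ j, ‖f j z‖ ^ 2) →
      (∀ l ∈ sphere (0 : E) 1,
        CutSolvable f (C l) (η l) (p l) (A l) (k l) (ball 0 1 ∩ ball l (ρ l))) →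
      SolvableOn f (ball 0 1) C' := by
  classical
  set I := {f : Fin N → E → ℂ //
      (∀ j, DifferentiableOn ℂ (f j) (ball 0 1)) ∧ (∀ j, ∀ z ∈ ball (0 : E) 1, ‖f j z‖ ≤ M) ∧
      (∀ z ∈ ball (0 : E) 1, δ ≤ ∑ j, ‖f j z‖ ^ 2) ∧
      (∀ l ∈ sphere (0 : E) 1,
        CutSolvable f (C l) (η l) (p l) (A l) (k l) (ball 0 1 ∩ ball l (ρ l)))} with hI
  set F : Fin N → I → E → ℂ := fun j i => i.1 j with hFdef
  have hF : ∀ j, BH (F j) := fun j => ⟨fun i => i.2.1 j, M, fun i z hz => i.2.2.1 j z hz⟩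
  obtain ⟨G, hG, hs⟩ := unimod_of_chars hF (by
    intro Φ
    obtain ⟨l, hl1, hΦl⟩ := Φ.exists_point
    rcases lt_or_eq_of_le hl1 with hl | hl
    · by_contra hcon
      push Not at hcon
      have hlm : l ∈ ball (0 : E) 1 := by rwa [mem_ball_zero_iff]
      have hlim := fun j => ((tendsto_of_interior Φ hl hΦl (hF j)).norm).pow 2
      simp only [hcon, norm_zero] at hlim
      have hlim' : Tendsto (fun i : I => ∑ j, ‖F j i l‖ ^ 2) Φ.filt
          (𝓝 (∑ _j : Fin N, (0 : ℝ) ^ 2)) := tendsto_finsetSum _ fun j _ => hlim j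
      have h1 : ∀ᶠ i in Φ.filt, δ ≤ ∑ j, ‖F j i l‖ ^ 2 :=
        Eventually.of_forall fun i => i.2.2.2.1 l hlm
      have h2 := ge_of_tendsto hlim' h1
      simp at h2
      linarith
    · obtain ⟨Lc, hLc1, hLc2⟩ := exists_coord hdim I
      obtain ⟨p', hp'⟩ : ∃ p', p' = max (p l) 4 := ⟨_, rfl⟩
      obtain ⟨A', hA'⟩ : ∃ A', A' = max (max (A l) 1 ^ (p' / p l - 1) * A l) 1 := ⟨_, rfl⟩
      have hp4 : 4 ≤ p' := by rw [hp']; exact le_max_right _ _
      have hpp : p l ≤ p' := by rw [hp']; exact le_max_left _ _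
      have hA1 : 1 ≤ A' := by rw [hA']; exact le_max_right _ _
      have hAA : max (A l) 1 ^ (p' / p l - 1) * A l ≤ A' := by rw [hA']; exact le_max_left _ _
      have hcoord : ∀ w : E, ‖w‖ ≤ 1 → CarlesonGradient p' A' fun z : E => ⟪w, z⟫_ℂ := by
        intro w hw
        refine CG_mono (CG_expo (by norm_num) hp4 (CG_inner hw)) ?_
        rw [max_self, Real.one_rpow, one_mul]
        exact hA1
      have hρ' : 0 < ρ l / (m + 1) := by have := hρ l; positivity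
      refine cut_thm hDC hm hdim hp4 hA1 (k l) Φ Lc ?_ hF (κ := ρ l / (m + 1)) (C := C l)
        (η := η l) hρ' (hη l) (Eventually.of_forall fun i => ?_)
      · intro V hV
        obtain ⟨w, hw, rfl⟩ := hLc1 V hV
        exact ⟨BH.inner w, fun _ => hcoord w hw⟩
      · refine CS_expo (hp l) hpp hAA
          (CS_mono (i.2.2.2.2 l (by rwa [mem_sphere_zero_iff_norm])) ?_)
        rintro z ⟨hz, hzc⟩
        refine ⟨hz, ?_⟩
        rw [mem_ball, dist_eq_norm]
        refine hLc2 (ρ l) (hρ l) z l ?_ ⟨i⟩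
        intro V hV j
        have h1 := hzc V hV
        obtain ⟨w, hw, rfl⟩ := hLc1 V hV
        rw [hΦl] at h1
        exact h1)
  choose B hB using fun j => (hG j).bdd
  refine ⟨∑ j, |B j|, ?_⟩
  intro f h1 h2 h3 h4
  refine ⟨fun j => G j ⟨f, h1, h2, h3, h4⟩, fun j => (hG j).holo _, ?_, hs ⟨f, h1, h2, h3, h4⟩⟩
  intro j z hz
  refine (hB j _ z hz).trans ((le_abs_self _).trans ?_)
  exact Finset.single_le_sum (f := fun j => |B j|) (fun k _ => abs_nonneg _) (Finset.mem_univ j)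

end Pool.Agent.MPca0fc2.CG
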