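import Mathlib
import Pool.Agent.Lib.MP_ca0fc2_an.Mg.G059

set_option autoImplicit false

namespace Pool.Agent.MPca0fc2.PT
end Pool.Agent.MPca0fc2.PT

open Metric Set MeasureTheory Filter Topology
open scoped InnerProductSpace ENNReal

namespace Pool.Agent.MPca0fc2.DA

open Pool.Agent.Lib.MP_ca0fc2_an
open Pool.Agent.MPca0fc2.PT

variable {E : Type*} [NormedAddCommGroup E] [InnerProductSpace ℂ E]
variable [MeasurableSpace E]

omit [MeasurableSpace E] in
theorem cut_sub {N : ℕ} {f : Fin N → E → ℂ} {C : ℝ} {D D' : Set E} (h : SolvableOn f D C)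
    (hD : D' ⊆ D) : SolvableOn f D' C := by
  obtain ⟨h₁, h1, h2, h3⟩ := h
  exact ⟨h₁, fun j => (h1 j).mono hD, fun j z hz => h2 j z (hD hz), fun z hz => h3 z (hD hz)⟩

omit [MeasurableSpace E] in
theorem cut_empty {N : ℕ} {f : Fin N → E → ℂ} {C : ℝ} : SolvableOn f ∅ C := by
  refine ⟨fun _ _ => 0, fun j => differentiableOn_empty, ?_, ?_⟩
  · intro j z hz; exact absurd hz (notMem_empty z)
  · intro z hz; exact absurd hz (notMem_empty z)

/-- from joint cells to successive cuts -/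
theorem cut_of_cells {N : ℕ} {f : Fin N → E → ℂ} {C η p A : ℝ} : ∀ {k : ℕ} {D : Set E}
    (u : Fin k → E → ℂ), (∀ i, DifferentiableOn ℂ (u i) (ball 0 1)) →
    (∀ i, ∀ z ∈ ball (0 : E) 1, ‖u i z‖ ≤ 1) → (∀ i, CarlesonGradient p A (u i)) →
    (∀ b ∈ D, SolvableOn f (D ∩ {z | ∀ i, ‖u i z - u i b‖ < 2 * η}) C) →
    CutSolvable f C η p A k D := by
  intro k
  induction k with
  | zero =>
    intro D u _ _ _ h
    rcases D.eq_empty_or_nonempty with hD | ⟨b, hb⟩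
    · rw [hD]; exact cut_empty
    · refine cut_sub (h b hb) ?_
      intro z hz
      exact ⟨hz, fun i => i.elim0⟩
  | succ k ih =>
    intro D u h1 h2 h3 h
    refine Or.inr ⟨u 0, h1 0, h2 0, h3 0, ?_⟩
    intro z₀ hz₀
    apply ih (fun i => u i.succ) (fun i => h1 _) (fun i => h2 _) (fun i => h3 _)
    intro b hb
    refine cut_sub (h b hb.1) ?_
    intro z hz
    refine ⟨hz.1.1, ?_⟩
    intro i
    refine Fin.cases ?_ (fun i => hz.2 i) i
    have h4 : ‖u 0 z - u 0 z₀‖ < η := hz.1.2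
    have h5 : ‖u 0 b - u 0 z₀‖ < η := hb.2
    calc ‖u 0 z - u 0 b‖ = ‖(u 0 z - u 0 z₀) - (u 0 b - u 0 z₀)‖ := by congr 1; ring
      _ ≤ ‖u 0 z - u 0 z₀‖ + ‖u 0 b - u 0 z₀‖ := norm_sub_le _ _
      _ < 2 * η := by linarith

end Pool.Agent.MPca0fc2.DA
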