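import Mathlib
import Pool.Agent.Lib.MP_ca0fc2_an.Tube

set_option autoImplicit false

open Metric Set Filter Topology
open scoped InnerProductSpace ComplexConjugate

namespace Pool.Agent.Lib.MP_ca0fc2_an

variable {E : Type*} [NormedAddCommGroup E] [InnerProductSpace ℂ E]

theorem ext_dec {e z w : E} (h1 : ⟪e, z⟫_ℂ = ⟪e, w⟫_ℂ) (h2 : prj e z = prj e w) : z = w := by
  rw [← dec_eq (e := e) z, h1, h2, dec_eq]

theorem norm_inner_le {e : E} (he : ‖e‖ = 1) (z : E) : ‖⟪e, z⟫_ℂ‖ ≤ ‖z‖ := by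
  have := norm_inner_le_norm (𝕜 := ℂ) e z
  rwa [he, one_mul] at this

theorem norm_inner_lt {e : E} (he : ‖e‖ = 1) {z : E} (hz : z ∈ ball (0 : E) 1) :
    ‖⟪e, z⟫_ℂ‖ < 1 := by
  rw [mem_ball_zero_iff] at hz
  exact (norm_inner_le he z).trans_lt hz

/-- the square root of `1 - |ζ|^2` -/
noncomputable def sq (ζ : ℂ) : ℝ := Real.sqrt (1 - ‖ζ‖ ^ 2)

theorem sq_pos {ζ : ℂ} (hζ : ‖ζ‖ < 1) : 0 < sq ζ := by
  apply Real.sqrt_pos.mpr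
  exact sub_pos.mpr (pow_lt_one₀ (norm_nonneg _) hζ two_ne_zero)

theorem sq_sq {ζ : ℂ} (hζ : ‖ζ‖ < 1) : sq ζ ^ 2 = 1 - ‖ζ‖ ^ 2 := by
  apply Real.sq_sqrt
  exact (sub_pos.mpr (pow_lt_one₀ (norm_nonneg _) hζ two_ne_zero)).le

theorem sq_neg (ζ : ℂ) : sq (-ζ) = sq ζ := by rw [sq, sq, norm_neg]

/-- The automorphism of the ball that moves `0` to `ζ e`. -/
noncomputable def mob (e : E) (ζ : ℂ) (z : E) : E :=
  (1 + conj ζ * ⟪e, z⟫_ℂ)⁻¹ • ((⟪e, z⟫_ℂ + ζ) • e + (sq ζ : ℂ) • prj e z)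

theorem den_ne {ζ x : ℂ} (hζ : ‖ζ‖ < 1) (hx : ‖x‖ < 1) : 1 + conj ζ * x ≠ 0 := by
  have := den_ne_zero (x := -x) (ζ := ζ) (by rwa [norm_neg]) hζ
  simpa using this

theorem inner_self_one {e : E} (he : ‖e‖ = 1) : ⟪e, e⟫_ℂ = 1 := by
  rw [inner_self_eq_norm_sq_to_K, he]; simp

theorem prj_self {e : E} (he : ‖e‖ = 1) : prj e e = 0 := by
  rw [prj_apply, inner_self_one he, one_smul, sub_self]

theorem inner_mob {e : E} (he : ‖e‖ = 1) (ζ : ℂ) (z : E) :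
    ⟪e, mob e ζ z⟫_ℂ = (⟪e, z⟫_ℂ + ζ) / (1 + conj ζ * ⟪e, z⟫_ℂ) := by
  rw [mob, inner_smul_right, inner_add_right, inner_smul_right, inner_smul_right,
    inner_self_one he, inner_prj he]
  field_simp
  ring

theorem prj_mob {e : E} (he : ‖e‖ = 1) (ζ : ℂ) (z : E) :
    prj e (mob e ζ z) = ((sq ζ : ℂ) / (1 + conj ζ * ⟪e, z⟫_ℂ)) • prj e z := by
  rw [mob, map_smul, map_add, map_smul, map_smul, prj_self he, prj_prj he, smul_zero, zero_add,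
    smul_smul]
  congr 1
  field_simp

theorem mob_norm {e : E} (he : ‖e‖ = 1) {ζ : ℂ} (hζ : ‖ζ‖ < 1) {z : E}
    (hz : z ∈ ball (0 : E) 1) :
    (1 - ‖mob e ζ z‖ ^ 2) * ‖1 + conj ζ * ⟪e, z⟫_ℂ‖ ^ 2 = (1 - ‖ζ‖ ^ 2) * (1 - ‖z‖ ^ 2) := by
  have hx := norm_inner_lt he hz
  have hd := den_ne hζ hx
  have hd' : 0 < ‖1 + conj ζ * ⟪e, z⟫_ℂ‖ := norm_pos_iff.mpr hd
  rw [norm_sq_dec he (mob e ζ z), norm_sq_dec he z, inner_mob he, prj_mob he, norm_div, norm_smul,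
    norm_div, Complex.norm_real, Real.norm_of_nonneg (sq_pos hζ).le, div_pow, mul_pow, div_pow,
    sq_sq hζ]
  have hid := mobius_identity (-⟪e, z⟫_ℂ) ζ
  simp only [mul_neg, sub_neg_eq_add, norm_neg] at hid
  have e1 : ‖⟪e, z⟫_ℂ + ζ‖ = ‖-⟪e, z⟫_ℂ - ζ‖ := by
    rw [← norm_neg]; congr 1; ring
  rw [e1]
  set d : ℝ := ‖1 + conj ζ * ⟪e, z⟫_ℂ‖ with hdd
  have e2 : (1 - (‖-⟪e, z⟫_ℂ - ζ‖ ^ 2 / d ^ 2 + (1 - ‖ζ‖ ^ 2) / d ^ 2 * ‖prj e z‖ ^ 2)) * d ^ 2 =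
      d ^ 2 - ‖-⟪e, z⟫_ℂ - ζ‖ ^ 2 - (1 - ‖ζ‖ ^ 2) * ‖prj e z‖ ^ 2 := by
    field_simp
    ring
  rw [e2, hid]
  ring

theorem mob_mem {e : E} (he : ‖e‖ = 1) {ζ : ℂ} (hζ : ‖ζ‖ < 1) {z : E}
    (hz : z ∈ ball (0 : E) 1) : mob e ζ z ∈ ball (0 : E) 1 := by
  have hx := norm_inner_lt he hz
  have hd := den_ne hζ hx
  have hd' : 0 < ‖1 + conj ζ * ⟪e, z⟫_ℂ‖ := norm_pos_iff.mpr hd
  have h1 := mob_norm he hζ hz
  have h2 : 0 < (1 - ‖ζ‖ ^ 2) * (1 - ‖z‖ ^ 2) := by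
    rw [mem_ball_zero_iff] at hz
    exact mul_pos (sub_pos.mpr (pow_lt_one₀ (norm_nonneg _) hζ two_ne_zero))
      (sub_pos.mpr (pow_lt_one₀ (norm_nonneg _) hz two_ne_zero))
  rw [← h1] at h2
  have h3 : 0 < 1 - ‖mob e ζ z‖ ^ 2 := by
    by_contra hcon
    push Not at hcon
    exact absurd h2 (not_lt.mpr (mul_nonpos_of_nonpos_of_nonneg hcon (sq_nonneg _)))
  rw [mem_ball_zero_iff]
  exact (sq_lt_one_iff₀ (norm_nonneg _)).mp (by linarith only [h3])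

theorem mob_diff {e : E} (he : ‖e‖ = 1) {ζ : ℂ} (hζ : ‖ζ‖ < 1) :
    DifferentiableOn ℂ (mob e ζ) (ball 0 1) := by
  have hin : Differentiable ℂ fun z : E => ⟪e, z⟫_ℂ := (innerSL ℂ e).differentiable
  unfold mob
  refine DifferentiableOn.smul ?_ ?_
  · refine DifferentiableOn.inv ?_ ?_
    · exact ((hin.const_mul _).const_add _).differentiableOn
    · intro z hz
      exact den_ne hζ (norm_inner_lt he hz)
  · exact (((hin.add_const ζ).smul_const e).add ((prj e).differentiable.const_smul _)).differentiableOn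

theorem mob_inv {e : E} (he : ‖e‖ = 1) {ζ : ℂ} (hζ : ‖ζ‖ < 1) {z : E}
    (hz : z ∈ ball (0 : E) 1) : mob e (-ζ) (mob e ζ z) = z := by
  have hx := norm_inner_lt he hz
  have hd := den_ne hζ hx
  have h1 : (1 - ‖ζ‖ ^ 2 : ℂ) ≠ 0 := by
    have : (1 - ‖ζ‖ ^ 2 : ℝ) ≠ 0 :=
      (sub_pos.mpr (pow_lt_one₀ (norm_nonneg _) hζ two_ne_zero)).ne'
    exact_mod_cast this
  have hcz : conj ζ * ζ = (‖ζ‖ : ℂ) ^ 2 := by
    rw [Complex.conj_mul']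
  have h2 : 1 + conj (-ζ) * ((⟪e, z⟫_ℂ + ζ) / (1 + conj ζ * ⟪e, z⟫_ℂ)) =
      (1 - ‖ζ‖ ^ 2 : ℂ) / (1 + conj ζ * ⟪e, z⟫_ℂ) := by
    rw [map_neg, ← hcz]
    field_simp
    ring
  apply ext_dec (e := e)
  · rw [inner_mob he, inner_mob he, h2, div_add' _ _ _ hd, div_div_div_cancel_right₀ hd,
      div_eq_iff h1, ← hcz]
    ring
  · rw [prj_mob he, prj_mob he, inner_mob he, h2, sq_neg, smul_smul]
    have h3 : (sq ζ : ℂ) * (sq ζ : ℂ) = 1 - ‖ζ‖ ^ 2 := by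
      have := sq_sq hζ
      rw [pow_two] at this
      exact_mod_cast this
    have h4 : (sq ζ : ℂ) / ((1 - ‖ζ‖ ^ 2 : ℂ) / (1 + conj ζ * ⟪e, z⟫_ℂ)) *
        ((sq ζ : ℂ) / (1 + conj ζ * ⟪e, z⟫_ℂ)) = 1 := by
      field_simp
      rw [pow_two, h3]
    rw [h4, one_smul]

theorem mob_inv' {e : E} (he : ‖e‖ = 1) {ζ : ℂ} (hζ : ‖ζ‖ < 1) {z : E}
    (hz : z ∈ ball (0 : E) 1) : mob e ζ (mob e (-ζ) z) = z := by
  have := mob_inv he (ζ := -ζ) (by rwa [norm_neg]) hz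
  rwa [neg_neg] at this

theorem mob_zero {e : E} (ζ : ℂ) : mob e ζ 0 = ζ • e := by
  simp [mob]

end Pool.Agent.Lib.MP_ca0fc2_an
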