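import Mathlib
import Pool.Agent.Lib.MP_ca0fc2_an.Mg.G049
import Pool.Agent.Lib.MP_ca0fc2_an.Mob

set_option autoImplicit false

open Metric Set Filter Topology MeasureTheory
open scoped InnerProductSpace ComplexConjugate

namespace Pool.Agent.Lib.MP_ca0fc2_an

variable {E : Type*} [NormedAddCommGroup E] [InnerProductSpace ℂ E]

/-- Cauchy estimate in complex tangential directions -/
theorem norm_fderiv_tangential {F : E → ℂ} {M : ℝ} (hF : DifferentiableOn ℂ F (ball 0 1))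
    (hM : ∀ z ∈ ball (0 : E) 1, ‖F z‖ ≤ M) {w u : E} (hw : w ∈ ball (0 : E) 1)
    (hwu : ⟪w, u⟫_ℂ = 0) : ‖fderiv ℂ F w u‖ * Real.sqrt (1 - ‖w‖ ^ 2) ≤ 2 * M * ‖u‖ := by
  by_cases hu : u = 0
  · simp [hu]
  have hu0 : 0 < ‖u‖ := norm_pos_iff.mpr hu
  have hw1 : ‖w‖ < 1 := by simpa using hw
  have hpos : 0 < 1 - ‖w‖ ^ 2 := by nlinarith [norm_nonneg w]
  have hsq : 0 < Real.sqrt (1 - ‖w‖ ^ 2) := Real.sqrt_pos.mpr hpos
  set R : ℝ := Real.sqrt (1 - ‖w‖ ^ 2) / ‖u‖ with hR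
  have hR0 : 0 < R := by positivity
  have hmem : ∀ t ∈ ball (0 : ℂ) R, w + t • u ∈ ball (0 : E) 1 := by
    intro t ht
    rw [mem_ball_zero_iff] at *
    have h1 : ⟪w, t • u⟫_ℂ = 0 := by rw [inner_smul_right, hwu, mul_zero]
    have h2 := norm_add_sq_eq_norm_sq_add_norm_sq_of_inner_eq_zero w (t • u) h1
    rw [norm_smul] at h2
    have h3 : ‖t‖ * ‖u‖ < Real.sqrt (1 - ‖w‖ ^ 2) := by
      rw [hR, lt_div_iff₀ hu0] at ht
      exact ht
    have h4 : (‖t‖ * ‖u‖) ^ 2 < 1 - ‖w‖ ^ 2 := by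
      calc (‖t‖ * ‖u‖) ^ 2 < Real.sqrt (1 - ‖w‖ ^ 2) ^ 2 :=
            pow_lt_pow_left₀ h3 (by positivity) two_ne_zero
        _ = 1 - ‖w‖ ^ 2 := Real.sq_sqrt hpos.le
    nlinarith [norm_nonneg (w + t • u)]
  have hder : HasDerivAt (fun t : ℂ => F (w + t • u)) (fderiv ℂ F w u) 0 := by
    have h1 : HasFDerivAt F (fderiv ℂ F w) (w + (0 : ℂ) • u) := by
      simpa using (hF.differentiableAt (isOpen_ball.mem_nhds hw)).hasFDerivAt
    have h2 : HasDerivAt (fun t : ℂ => w + t • u) u 0 := by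
      simpa using ((hasDerivAt_id (0 : ℂ)).smul_const u).const_add w
    exact h1.comp_hasDerivAt (0 : ℂ) h2
  have hd : DifferentiableOn ℂ (fun t : ℂ => F (w + t • u)) (ball 0 R) :=
    hF.comp ((differentiable_id.smul_const u).const_add w).differentiableOn hmem
  have hmaps : MapsTo (fun t : ℂ => F (w + t • u)) (ball 0 R)
      (closedBall ((fun t : ℂ => F (w + t • u)) 0) (2 * M)) := by
    intro t ht
    have h1 := hM _ (hmem t ht)
    have h2 := hM _ (hmem 0 (mem_ball_self hR0))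
    rw [mem_closedBall, dist_eq_norm]
    calc ‖F (w + t • u) - F (w + (0 : ℂ) • u)‖ ≤ _ := norm_sub_le _ _
      _ ≤ 2 * M := by linarith
  have h := Complex.norm_deriv_le_div_of_mapsTo_ball hd hmaps hR0
  rw [hder.deriv, le_div_iff₀ hR0, hR, mul_div_assoc', div_le_iff₀ hu0] at h
  exact h

/-- The Leibenzon integral. -/
noncomputable def leib (F : E → ℂ) (v z : E) : ℂ := ∫ t in (0 : ℝ)..1, fderiv ℂ F ((t : ℂ) • z) v

theorem smul_mem_ball {z : E} (hz : z ∈ ball (0 : E) 1) {t : ℝ} (ht : t ∈ Icc (0 : ℝ) 1) :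
    (t : ℂ) • z ∈ ball (0 : E) 1 := by
  rw [mem_ball_zero_iff] at *
  rw [norm_smul, Complex.norm_real, Real.norm_of_nonneg ht.1]
  nlinarith [norm_nonneg z, ht.2]

theorem leib_cont {F : E → ℂ} {M : ℝ} (hF : DifferentiableOn ℂ F (ball 0 1))
    (hM : ∀ z ∈ ball (0 : E) 1, ‖F z‖ ≤ M) (v : E) {z : E} (hz : z ∈ ball (0 : E) 1) :
    ContinuousOn (fun t : ℝ => fderiv ℂ F ((t : ℂ) • z) v) (Icc 0 1) := by
  have h1 := (differentiableOn_fderiv_apply isOpen_ball hF hM v).continuousOn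
  refine h1.comp (f := fun t : ℝ => (t : ℂ) • z) ?_ ?_
  · exact (Complex.continuous_ofReal.smul continuous_const).continuousOn
  · intro t ht
    exact smul_mem_ball hz ht

theorem leib_int {F : E → ℂ} {M : ℝ} (hF : DifferentiableOn ℂ F (ball 0 1))
    (hM : ∀ z ∈ ball (0 : E) 1, ‖F z‖ ≤ M) (v : E) {z : E} (hz : z ∈ ball (0 : E) 1) :
    IntervalIntegrable (fun t : ℝ => fderiv ℂ F ((t : ℂ) • z) v) volume 0 1 := by
  apply ContinuousOn.intervalIntegrable
  rw [uIcc_of_le zero_le_one]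
  exact leib_cont hF hM v hz

theorem leib_self {F : E → ℂ} {M : ℝ} (hF : DifferentiableOn ℂ F (ball 0 1))
    (hM : ∀ z ∈ ball (0 : E) 1, ‖F z‖ ≤ M) {z : E} (hz : z ∈ ball (0 : E) 1) :
    leib F z z = F z - F 0 := by
  have h1 : ∀ t ∈ uIcc (0 : ℝ) 1, HasDerivAt (fun t : ℝ => F ((t : ℂ) • z))
      (fderiv ℂ F ((t : ℂ) • z) z) t := by
    intro t ht
    rw [uIcc_of_le zero_le_one] at ht
    have h2 : HasFDerivAt F (fderiv ℂ F ((t : ℂ) • z)) ((t : ℂ) • z) :=
      (hF.differentiableAt (isOpen_ball.mem_nhds (smul_mem_ball hz ht))).hasFDerivAt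
    have h3 : HasDerivAt (fun s : ℂ => s • z) z (t : ℂ) := by
      simpa using (hasDerivAt_id (t : ℂ)).smul_const z
    have h4 : HasDerivAt (fun s : ℂ => F (s • z)) (fderiv ℂ F ((t : ℂ) • z) z) (t : ℂ) :=
      h2.comp_hasDerivAt (t : ℂ) h3
    exact h4.comp_ofReal
  have h5 := intervalIntegral.integral_eq_sub_of_hasDerivAt h1 (leib_int hF hM z hz)
  rw [leib, h5]
  simp

theorem leib_sum {F : E → ℂ} {M : ℝ} (hF : DifferentiableOn ℂ F (ball 0 1))
    (hM : ∀ z ∈ ball (0 : E) 1, ‖F z‖ ≤ M) {κ : Type*} (s : Finset κ) (c : κ → ℂ) (v : κ → E)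
    {z : E} (hz : z ∈ ball (0 : E) 1) :
    leib F (∑ k ∈ s, c k • v k) z = ∑ k ∈ s, c k * leib F (v k) z := by
  simp only [leib]
  rw [← Finset.sum_congr rfl fun k _ => intervalIntegral.integral_const_mul (c k) _]
  rw [← intervalIntegral.integral_finsetSum fun k _ => (leib_int hF hM (v k) hz).const_mul (c k)]
  congr 1
  ext t
  rw [map_sum]
  simp only [map_smul, smul_eq_mul]

theorem integral_inv_sqrt : ∫ t in (0 : ℝ)..1, (1 - t) ^ (-(1 / 2) : ℝ) = 2 := by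
  rw [intervalIntegral.integral_comp_sub_left (fun x => x ^ (-(1 / 2) : ℝ)) 1]
  rw [integral_rpow (Or.inl (by norm_num))]
  norm_num

theorem intervalIntegrable_inv_sqrt :
    IntervalIntegrable (fun t : ℝ => (1 - t) ^ (-(1 / 2) : ℝ)) volume 0 1 := by
  have h := (intervalIntegral.intervalIntegrable_rpow' (a := 1) (b := 0)
    (r := (-(1 / 2) : ℝ)) (by norm_num)).comp_sub_left 1
  simpa using h

/-- the bound for tangential directions -/
theorem leib_tangential {F : E → ℂ} {M : ℝ} (hF : DifferentiableOn ℂ F (ball 0 1))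
    (hM : ∀ z ∈ ball (0 : E) 1, ‖F z‖ ≤ M) {z u : E} (hz : z ∈ ball (0 : E) 1)
    (hzu : ⟪z, u⟫_ℂ = 0) : ‖leib F u z‖ ≤ 4 * M * ‖u‖ := by
  have hM0 : 0 ≤ M := (norm_nonneg _).trans (hM z hz)
  have hz1 : ‖z‖ < 1 := by simpa using hz
  have h1 : ∀ t ∈ Ioo (0 : ℝ) 1,
      ‖fderiv ℂ F ((t : ℂ) • z) u‖ ≤ 2 * M * ‖u‖ * (1 - t) ^ (-(1 / 2) : ℝ) := by
    intro t ht
    have ht' : t ∈ Icc (0 : ℝ) 1 := ⟨ht.1.le, ht.2.le⟩
    have h2 := norm_fderiv_tangential hF hM (smul_mem_ball hz ht') (u := u)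
      (by rw [inner_smul_left, hzu, mul_zero])
    have h1t : 0 < 1 - t := by linarith [ht.2]
    have h3 : Real.sqrt (1 - t) ≤ Real.sqrt (1 - ‖(t : ℂ) • z‖ ^ 2) := by
      apply Real.sqrt_le_sqrt
      rw [norm_smul, Complex.norm_real, Real.norm_of_nonneg ht'.1]
      have h4 : t * ‖z‖ ≤ t := by nlinarith [ht.1]
      have h5 : 0 ≤ t * ‖z‖ := mul_nonneg ht'.1 (norm_nonneg z)
      nlinarith [ht.2]
    have h4 : ‖fderiv ℂ F ((t : ℂ) • z) u‖ * Real.sqrt (1 - t) ≤ 2 * M * ‖u‖ :=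
      (mul_le_mul_of_nonneg_left h3 (norm_nonneg _)).trans h2
    have h5 : (1 - t) ^ (-(1 / 2) : ℝ) = (Real.sqrt (1 - t))⁻¹ := by
      rw [Real.rpow_neg h1t.le, Real.sqrt_eq_rpow]
    rw [h5, ← div_eq_mul_inv, le_div_iff₀ (Real.sqrt_pos.mpr h1t)]
    exact h4
  have h2 : ‖leib F u z‖ ≤ ∫ t in (0 : ℝ)..1, 2 * M * ‖u‖ * (1 - t) ^ (-(1 / 2) : ℝ) := by
    apply intervalIntegral.norm_integral_le_of_norm_le zero_le_one
    · have h3 : ∀ᵐ t : ℝ, t ≠ 1 := by
        simp [ae_iff, measure_singleton]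
      filter_upwards [h3] with t ht1 ht
      exact h1 t ⟨ht.1, lt_of_le_of_ne ht.2 ht1⟩
    · exact intervalIntegrable_inv_sqrt.const_mul _
  rw [intervalIntegral.integral_const_mul, integral_inv_sqrt] at h2
  linarith

theorem leib_bound {F : E → ℂ} {M : ℝ} (hF : DifferentiableOn ℂ F (ball 0 1))
    (hM : ∀ z ∈ ball (0 : E) 1, ‖F z‖ ≤ M) {z : E} (hz : z ∈ ball (0 : E) 1) (v : E) :
    ‖leib F v z‖ ≤ 6 * M * ‖v‖ := by
  have hM0 : 0 ≤ M := (norm_nonneg _).trans (hM z hz)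
  have hz1 : ‖z‖ < 1 := by simpa using hz
  by_cases hz0 : z = 0
  · have := leib_tangential hF hM (z := z) (u := v) hz (by rw [hz0, inner_zero_left])
    nlinarith [norm_nonneg v, mul_nonneg hM0 (norm_nonneg v)]
  have hzn : 0 < ‖z‖ := norm_pos_iff.mpr hz0
  set e : E := ((‖z‖ : ℂ))⁻¹ • z with he
  have he1 : ‖e‖ = 1 := by
    rw [he, norm_smul, norm_inv, Complex.norm_real, Real.norm_of_nonneg hzn.le]
    field_simp
  have hze : z = (‖z‖ : ℂ) • e := by
    rw [he, smul_smul, mul_inv_cancel₀ (by exact_mod_cast hzn.ne'), one_smul]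
  -- decomposition
  set α : ℂ := ⟪e, v⟫_ℂ * ((‖z‖ : ℂ))⁻¹ with hα
  have hv : v = α • z + prj e v := by
    conv_lhs => rw [← dec_eq (e := e) v]
    congr 1
    rw [hα, mul_smul, ← he]
  have hlin : leib F v z = α * leib F z z + leib F (prj e v) z := by
    have h := leib_sum hF hM (Finset.univ : Finset (Fin 2)) ![α, 1] ![z, prj e v] hz
    simp only [Fin.sum_univ_two, Matrix.cons_val_zero, Matrix.cons_val_one, one_smul,
      one_mul] at h
    rw [← hv] at h
    exact h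
  have hα' : ‖α‖ * ‖z‖ ≤ ‖v‖ := by
    rw [hα, norm_mul, norm_inv, Complex.norm_real, Real.norm_of_nonneg hzn.le, mul_assoc,
      inv_mul_cancel₀ hzn.ne', mul_one]
    exact norm_inner_le he1 v
  -- Schwarz lemma
  have hS : ‖F z - F 0‖ ≤ 2 * M * ‖z‖ := by
    have hd : DifferentiableOn ℂ (fun t : ℂ => F (t • e)) (ball 0 1) := by
      refine hF.comp (differentiable_id.smul_const e).differentiableOn ?_
      intro t ht
      rw [mem_ball_zero_iff] at *
      rwa [norm_smul, he1, mul_one]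
    have hmaps : MapsTo (fun t : ℂ => F (t • e)) (ball 0 1)
        (closedBall ((fun t : ℂ => F (t • e)) 0) (2 * M)) := by
      intro t ht
      rw [mem_ball_zero_iff] at ht
      have h1 := hM (t • e) (by rw [mem_ball_zero_iff, norm_smul, he1, mul_one]; exact ht)
      have h2 := hM ((0 : ℂ) • e) (by simp)
      rw [mem_closedBall, dist_eq_norm]
      calc ‖F (t • e) - F ((0 : ℂ) • e)‖ ≤ _ := norm_sub_le _ _
        _ ≤ 2 * M := by linarith
    have hzb : ((‖z‖ : ℂ)) ∈ ball (0 : ℂ) 1 := by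
      rw [mem_ball_zero_iff, Complex.norm_real, Real.norm_of_nonneg hzn.le]
      exact hz1
    have h := Complex.norm_dslope_le_div_of_mapsTo_ball hd hmaps hzb
    rw [dslope_of_ne _ (by exact_mod_cast hzn.ne'), slope_def_field, ← hze, zero_smul, sub_zero,
      norm_div, Complex.norm_real, Real.norm_of_nonneg hzn.le, div_le_iff₀ hzn] at h
    simpa using h
  have hT := leib_tangential hF hM hz (u := prj e v) (by
    rw [hze, inner_smul_left, inner_prj he1, mul_zero])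
  rw [hlin]
  calc ‖α * leib F z z + leib F (prj e v) z‖ ≤ ‖α‖ * ‖F z - F 0‖ + ‖leib F (prj e v) z‖ := by
        refine (norm_add_le _ _).trans ?_
        rw [norm_mul, leib_self hF hM hz]
    _ ≤ ‖α‖ * (2 * M * ‖z‖) + 4 * M * ‖prj e v‖ := by
        apply add_le_add _ hT
        exact mul_le_mul_of_nonneg_left hS (norm_nonneg _)
    _ ≤ 2 * M * ‖v‖ + 4 * M * ‖v‖ := by
        apply add_le_add
        · calc ‖α‖ * (2 * M * ‖z‖) = 2 * M * (‖α‖ * ‖z‖) := by ring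
            _ ≤ 2 * M * ‖v‖ := mul_le_mul_of_nonneg_left hα' (by positivity)
        · exact mul_le_mul_of_nonneg_left (norm_prj_le he1 v) (by positivity)
    _ = 6 * M * ‖v‖ := by ring

theorem leib_holo {F : E → ℂ} {M : ℝ} (hF : DifferentiableOn ℂ F (ball 0 1))
    (hM : ∀ z ∈ ball (0 : E) 1, ‖F z‖ ≤ M) (v : E) :
    DifferentiableOn ℂ (leib F v) (ball 0 1) := by
  intro z₀ hz₀
  have hM0 : 0 ≤ M := (norm_nonneg _).trans (hM z₀ hz₀)
  have hz1 : ‖z₀‖ < 1 := by simpa using hz₀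
  set r : ℝ := (1 - ‖z₀‖) / 2 with hr
  have hr0 : 0 < r := by rw [hr]; linarith
  have hsub : ∀ z ∈ ball z₀ r, z ∈ ball (0 : E) 1 ∧ ‖z‖ ≤ 1 - r := by
    intro z hz
    rw [mem_ball, dist_eq_norm] at hz
    have h1 : ‖z‖ ≤ ‖z₀‖ + ‖z - z₀‖ := by
      calc ‖z‖ = ‖z₀ + (z - z₀)‖ := by congr 1; abel
        _ ≤ _ := norm_add_le _ _
    rw [mem_ball_zero_iff]
    constructor <;> linarith
  have hder := differentiableOn_fderiv_apply isOpen_ball hF hM v
  apply DifferentiableAt.differentiableWithinAt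
  have key : DifferentiableAt ℂ (fun z => ∫ t in Ioc (0 : ℝ) 1, fderiv ℂ F ((t : ℂ) • z) v) z₀ := by
    refine differentiableAt_integral (r := r) hr0 (g := fun _ => 2 * M / r * ‖v‖) ?_ ?_ ?_ ?_
    · refine (ae_restrict_iff' measurableSet_Ioc).mpr (Eventually.of_forall fun t ht => ?_)
      refine hder.comp (f := fun z => (t : ℂ) • z) (differentiable_id.const_smul _).differentiableOn
        ?_
      intro z hz
      exact smul_mem_ball (hsub z hz).1 ⟨ht.1.le, ht.2⟩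
    · intro z hz
      exact ((leib_cont hF hM v (hsub z hz).1).mono Ioc_subset_Icc_self).aestronglyMeasurable
        measurableSet_Ioc
    · exact (integrableOn_const (by simp)).integrable
    · refine (ae_restrict_iff' measurableSet_Ioc).mpr (Eventually.of_forall fun t ht z hz => ?_)
      have h1 : ball ((t : ℂ) • z) r ⊆ ball (0 : E) 1 := by
        intro w hw
        rw [mem_ball, dist_eq_norm] at hw
        have h2 : ‖w‖ ≤ ‖(t : ℂ) • z‖ + ‖w - (t : ℂ) • z‖ := by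
          calc ‖w‖ = ‖(t : ℂ) • z + (w - (t : ℂ) • z)‖ := by congr 1; abel
            _ ≤ _ := norm_add_le _ _
        have h3 : ‖(t : ℂ) • z‖ ≤ ‖z‖ := by
          rw [norm_smul, Complex.norm_real, Real.norm_of_nonneg ht.1.le]
          nlinarith [norm_nonneg z, ht.2]
        have h4 := (hsub z hz).2
        rw [mem_ball_zero_iff]
        linarith
      exact norm_fderiv_apply_le hr0 (hF.mono h1) (fun w hw => hM w (h1 hw)) v
  have heq : leib F v = fun z => ∫ t in Ioc (0 : ℝ) 1, fderiv ℂ F ((t : ℂ) • z) v := by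
    ext z
    rw [leib, intervalIntegral.integral_of_le zero_le_one]
  rw [heq]
  exact key

end Pool.Agent.Lib.MP_ca0fc2_an
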