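import Mathlib

set_option autoImplicit false

open Metric Set Filter Topology
open scoped InnerProductSpace

namespace Pool.Agent.MPca0fc2.SD

variable {E : Type*} [NormedAddCommGroup E] [InnerProductSpace ℂ E]
variable {V : Type*} [NormedAddCommGroup V] [NormedSpace ℂ V]

/-- the nonisotropic quantity controls the depth -/
theorem one_sub_norm_le {a b : E} (hb : ‖b‖ ≤ 1) : 1 - ‖a‖ ≤ ‖1 - ⟪a, b⟫_ℂ‖ := by
  have h1 : ‖⟪a, b⟫_ℂ‖ ≤ ‖a‖ * ‖b‖ := norm_inner_le_norm a b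
  have h2 : ‖(1 : ℂ)‖ - ‖⟪a, b⟫_ℂ‖ ≤ ‖1 - ⟪a, b⟫_ℂ‖ := norm_sub_norm_le _ _
  rw [norm_one] at h2
  nlinarith [norm_nonneg a, norm_nonneg b]

theorem norm_sub_sq_le_two {a b : E} (ha : ‖a‖ ≤ 1) (hb : ‖b‖ ≤ 1) :
    ‖b - a‖ ^ 2 ≤ 2 * ‖1 - ⟪a, b⟫_ℂ‖ := by
  have h1 := norm_sub_sq (𝕜 := ℂ) a b
  have h2 : RCLike.re (1 - ⟪a, b⟫_ℂ) ≤ ‖1 - ⟪a, b⟫_ℂ‖ := RCLike.re_le_norm _
  rw [map_sub, RCLike.one_re] at h2
  rw [norm_sub_rev, h1]
  nlinarith [norm_nonneg a, norm_nonneg b]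

theorem line_bound {a b : E} (ha : ‖a‖ ≤ 1) (hb : ‖b‖ ≤ 1) (l : ℂ) :
    ‖a + l • (b - a)‖ ^ 2 ≤ 1 + 6 * ‖1 - ⟪a, b⟫_ℂ‖ * ‖l‖ + 2 * ‖1 - ⟪a, b⟫_ℂ‖ * ‖l‖ ^ 2 := by
  set u := ‖1 - ⟪a, b⟫_ℂ‖ with hu
  have h1 := norm_add_sq (𝕜 := ℂ) a (l • (b - a))
  have h2 : RCLike.re ⟪a, l • (b - a)⟫_ℂ ≤ 3 * u * ‖l‖ := by
    refine (RCLike.re_le_norm _).trans ?_
    rw [inner_smul_right, norm_mul, mul_comm]
    apply mul_le_mul_of_nonneg_right _ (norm_nonneg _)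
    rw [inner_sub_right, inner_self_eq_norm_sq_to_K]
    have h3 : 1 - ‖a‖ ≤ u := one_sub_norm_le hb
    calc ‖⟪a, b⟫_ℂ - ((‖a‖ : ℝ) : ℂ) ^ 2‖ = ‖-(1 - ⟪a, b⟫_ℂ) + ((1 - ‖a‖ ^ 2 : ℝ) : ℂ)‖ := by
          congr 1; push_cast; ring
      _ ≤ ‖-(1 - ⟪a, b⟫_ℂ)‖ + ‖((1 - ‖a‖ ^ 2 : ℝ) : ℂ)‖ := norm_add_le _ _
      _ ≤ u + 2 * u := by
          rw [norm_neg, Complex.norm_real, Real.norm_of_nonneg (by nlinarith [norm_nonneg a])]
          nlinarith [norm_nonneg a]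
      _ = 3 * u := by ring
  have h4 : ‖l • (b - a)‖ ^ 2 ≤ 2 * u * ‖l‖ ^ 2 := by
    rw [norm_smul, mul_pow]
    have := norm_sub_sq_le_two ha hb
    nlinarith [sq_nonneg ‖l‖]
  rw [h1]
  nlinarith [norm_nonneg a]

/-- Oscillation of a bounded holomorphic function on a slightly larger ball. -/
theorem osc_bound {G : E → V} {t B : ℝ} (ht : 0 < t) (hB : 0 ≤ B)
    (hG : DifferentiableOn ℂ G (ball 0 (1 + t / 16)))
    (hGB : ∀ z ∈ ball (0 : E) (1 + t / 16), ‖G z‖ ≤ B) {a b : E} (ha : ‖a‖ ≤ 1) (hb : ‖b‖ ≤ 1) :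
    ‖G a - G b‖ ≤ 24 * B * (‖1 - ⟪a, b⟫_ℂ‖ / t) ^ (1 / 4 : ℝ) := by
  set u := ‖1 - ⟪a, b⟫_ℂ‖ with hu
  have hu0 : 0 ≤ u := norm_nonneg _
  have hat : a ∈ ball (0 : E) (1 + t / 16) := by rw [mem_ball_zero_iff]; linarith
  have hbt : b ∈ ball (0 : E) (1 + t / 16) := by rw [mem_ball_zero_iff]; linarith
  rcases eq_or_lt_of_le hu0 with h0 | h0
  · have h1 := norm_sub_sq_le_two ha hb
    rw [← hu, ← h0, mul_zero] at h1
    have h2 : ‖b - a‖ = 0 := by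
      have := sq_nonneg ‖b - a‖
      exact pow_eq_zero_iff (two_ne_zero) |>.mp (le_antisymm h1 this)
    rw [norm_eq_zero, sub_eq_zero] at h2
    rw [h2, sub_self, norm_zero]
    positivity
  rcases le_or_gt (t / 64) u with h1 | h1
  · have h2 : (1 / 64 : ℝ) ≤ u / t := by
      rw [le_div_iff₀ ht]; linarith
    have h3 : (1 / 64 : ℝ) ^ (1 / 4 : ℝ) ≤ (u / t) ^ (1 / 4 : ℝ) :=
      Real.rpow_le_rpow (by norm_num) h2 (by norm_num)
    have h4 : (1 / 12 : ℝ) ≤ (1 / 64 : ℝ) ^ (1 / 4 : ℝ) := by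
      have h5 : ((1 / 12 : ℝ) ^ (4 : ℝ)) ^ (1 / 4 : ℝ) = 1 / 12 := by
        rw [← Real.rpow_mul (by norm_num)]; norm_num
      rw [← h5]
      apply Real.rpow_le_rpow (by positivity) _ (by norm_num)
      rw [show (4 : ℝ) = ((4 : ℕ) : ℝ) by norm_num, Real.rpow_natCast]
      norm_num
    calc ‖G a - G b‖ ≤ ‖G a‖ + ‖G b‖ := norm_sub_le _ _
      _ ≤ 2 * B := by linarith [hGB a hat, hGB b hbt]
      _ = 24 * B * (1 / 12) := by ring
      _ ≤ _ := by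
        apply mul_le_mul_of_nonneg_left (h4.trans h3) (by positivity)
  · -- small distance: Schwarz lemma on a complex line
    set R : ℝ := Real.sqrt (t / (64 * u)) with hR
    have hRsq : R ^ 2 = t / (64 * u) := Real.sq_sqrt (by positivity)
    have hR1 : 1 < R := by
      rw [hR]
      rw [Real.lt_sqrt (by norm_num), one_pow, lt_div_iff₀ (by positivity)]
      linarith
    have hmem : ∀ l ∈ ball (0 : ℂ) R, a + l • (b - a) ∈ ball (0 : E) (1 + t / 16) := by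
      intro l hl
      rw [mem_ball_zero_iff] at hl ⊢
      have h2 := line_bound ha hb l
      rw [← hu] at h2
      have h3 : 6 * u * ‖l‖ + 2 * u * ‖l‖ ^ 2 ≤ 8 * (u * R ^ 2) := by
        have h4 : ‖l‖ ^ 2 ≤ R ^ 2 := by
          apply pow_le_pow_left₀ (norm_nonneg _) hl.le
        have h5 : ‖l‖ ≤ R ^ 2 := by nlinarith [norm_nonneg l]
        nlinarith
      have h4 : u * R ^ 2 = t / 64 := by
        rw [hRsq]; field_simp
      rw [h4] at h3
      have h5 : ‖a + l • (b - a)‖ ^ 2 < (1 + t / 16) ^ 2 := by nlinarith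
      exact lt_of_pow_lt_pow_left₀ 2 (by positivity) h5
    set φ : ℂ → V := fun l => G (a + l • (b - a)) with hφ
    have hφd : DifferentiableOn ℂ φ (ball 0 R) := by
      apply hG.comp _ hmem
      apply Differentiable.differentiableOn
      exact (differentiable_const _).add (differentiable_id.smul_const _)
    have hφ0 : φ 0 = G a := by simp [hφ]
    have hφ1 : φ 1 = G b := by simp [hφ]
    have hmaps : MapsTo φ (ball 0 R) (closedBall (φ 0) (3 * B)) := by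
      intro l hl
      rw [mem_closedBall, dist_eq_norm]
      calc ‖φ l - φ 0‖ ≤ ‖φ l‖ + ‖φ 0‖ := norm_sub_le _ _
        _ ≤ 2 * B := by
          have h6 := hGB _ (hmem l hl)
          have h7 : ‖φ 0‖ ≤ B := by rw [hφ0]; exact hGB a hat
          have h8 : ‖φ l‖ ≤ B := h6
          linarith
        _ ≤ 3 * B := by linarith
    have h1mem : (1 : ℂ) ∈ ball (0 : ℂ) R := by simpa using hR1
    have h := Complex.dist_le_div_mul_dist_of_mapsTo_ball hφd hmaps h1mem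
    rw [hφ0, hφ1, dist_eq_norm, norm_sub_rev] at h
    have h9 : dist (1 : ℂ) 0 = 1 := by simp
    rw [h9, mul_one] at h
    have h10 : 1 / R = 8 * Real.sqrt (u / t) := by
      have h11 : Real.sqrt (t / (64 * u)) * (8 * Real.sqrt (u / t)) = 1 := by
        have h12 : (8 : ℝ) = Real.sqrt 64 := by
          rw [show (64 : ℝ) = 8 ^ 2 by norm_num, Real.sqrt_sq (by norm_num)]
        rw [h12, ← Real.sqrt_mul (by norm_num), ← Real.sqrt_mul (by positivity)]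
        have : t / (64 * u) * (64 * (u / t)) = 1 := by field_simp
        rw [this, Real.sqrt_one]
      rw [hR, div_eq_iff (by positivity), mul_comm]
      exact h11.symm
    have h13 : Real.sqrt (u / t) ≤ (u / t) ^ (1 / 4 : ℝ) := by
      rw [Real.sqrt_eq_rpow]
      apply Real.rpow_le_rpow_of_exponent_ge (by positivity) _ (by norm_num)
      rw [div_le_one ht]; linarith
    calc ‖G a - G b‖ ≤ 3 * B / R := h
      _ = 3 * B * (1 / R) := by ring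
      _ = 24 * B * Real.sqrt (u / t) := by rw [h10]; ring
      _ ≤ _ := mul_le_mul_of_nonneg_left h13 (by positivity)

end Pool.Agent.MPca0fc2.SD
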