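import Mathlib

set_option autoImplicit false

open Filter Topology

namespace Pool.Agent.MPca0fc2.SD

/-- one-sided regularization -/
theorem forward_reg (w : ℕ → ℝ) (hw : ∀ k, 0 ≤ w k) (hs : Summable w) :
    ∃ A : ℕ → ℝ, (∀ k, w k ≤ A k) ∧ (∀ k, A k ≤ (6 / 5) * A (k + 1)) ∧ Summable A := by
  let A : ℕ → ℝ := fun k => Nat.rec (w 0) (fun n a => w (n + 1) + (5 / 6) * a) k
  have hA0 : A 0 = w 0 := rfl
  have hAs : ∀ n, A (n + 1) = w (n + 1) + (5 / 6) * A n := fun n => rfl
  have hAnn : ∀ n, 0 ≤ A n := by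
    intro n
    induction n with
    | zero => rw [hA0]; exact hw 0
    | succ n ih => rw [hAs]; have := hw (n + 1); positivity
  refine ⟨A, ?_, ?_, ?_⟩
  · intro k
    cases k with
    | zero => exact hA0.ge
    | succ n => rw [hAs]; linarith [hAnn n]
  · intro k
    rw [hAs]
    linarith [hw (k + 1)]
  · -- partial sums
    have hpart : ∀ n, ∑ k ∈ Finset.range (n + 1), A k + 5 * A n ≤
        6 * ∑ k ∈ Finset.range (n + 1), w k := by
      intro n
      induction n with
      | zero => simp [hA0]; linarith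
      | succ n ih =>
        rw [Finset.sum_range_succ, Finset.sum_range_succ _ (n + 1), hAs]
        linarith [hAnn n]
    apply summable_of_sum_range_le (c := 6 * ∑' k, w k) hAnn
    intro n
    cases n with
    | zero => simp; exact tsum_nonneg hw
    | succ n =>
      have h1 := hpart n
      have h2 := hs.sum_le_tsum (Finset.range (n + 1)) (fun i _ => hw i)
      linarith [hAnn n]

/-- two-sided regularization -/
theorem regularize (w : ℕ → ℝ) (hw : ∀ k, 0 ≤ w k) (hs : Summable w) :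
    ∃ B : ℕ → ℝ, (∀ k, w k ≤ B k) ∧ (∀ k, B k ≤ (6 / 5) * B (k + 1)) ∧
      (∀ k, B (k + 1) ≤ (6 / 5) * B k) ∧ Summable B := by
  obtain ⟨A, hwA, hAr, hAs⟩ := forward_reg w hw hs
  have hAnn : ∀ k, 0 ≤ A k := fun k => (hw k).trans (hwA k)
  have hgeo : Summable (fun i : ℕ => (5 / 6 : ℝ) ^ i) :=
    summable_geometric_of_lt_one (by norm_num) (by norm_num)
  have hbd : ∀ k, A k ≤ ∑' i, A i := fun k => hAs.le_tsum k (fun i _ => hAnn i)
  have hsum : ∀ k, Summable (fun i : ℕ => (5 / 6 : ℝ) ^ i * A (k + i)) := by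
    intro k
    apply Summable.of_nonneg_of_le (fun i => mul_nonneg (by positivity) (hAnn _))
      (fun i => mul_le_mul_of_nonneg_left (hbd (k + i)) (by positivity))
    exact hgeo.mul_right _
  let B : ℕ → ℝ := fun k => ∑' i : ℕ, (5 / 6 : ℝ) ^ i * A (k + i)
  have hBrec : ∀ k, B k = A k + (5 / 6) * B (k + 1) := by
    intro k
    have h1 := (hsum k).tsum_eq_zero_add
    have h2 : ∑' i : ℕ, (5 / 6 : ℝ) ^ (i + 1) * A (k + (i + 1)) = (5 / 6) * B (k + 1) := by
      rw [← tsum_mul_left]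
      congr 1
      funext i
      rw [show k + (i + 1) = k + 1 + i by ring]
      ring
    simp only [pow_zero, one_mul, add_zero] at h1
    rw [h2] at h1
    exact h1
  have hBnn : ∀ k, 0 ≤ B k := fun k => tsum_nonneg fun i => mul_nonneg (by positivity) (hAnn _)
  refine ⟨B, ?_, ?_, ?_, ?_⟩
  · intro k
    have := hBrec k
    have h2 := hwA k
    linarith [hBnn (k + 1)]
  · intro k
    have h1 : B k ≤ ∑' i : ℕ, (6 / 5) * ((5 / 6 : ℝ) ^ i * A (k + 1 + i)) := by
      apply Summable.tsum_le_tsum _ (hsum k) ((hsum (k + 1)).mul_left _)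
      intro i
      have h2 := hAr (k + i)
      rw [show k + i + 1 = k + 1 + i by ring] at h2
      calc (5 / 6 : ℝ) ^ i * A (k + i) ≤ (5 / 6 : ℝ) ^ i * (6 / 5 * A (k + 1 + i)) :=
            mul_le_mul_of_nonneg_left h2 (by positivity)
        _ = _ := by ring
    rw [tsum_mul_left] at h1
    exact h1
  · intro k
    have := hBrec k
    linarith [hAnn k]
  · have hfin : ∀ i n, ∑ k ∈ Finset.range n, A (k + i) ≤ ∑' k, A k := by
      intro i n
      have h1 : ∑ k ∈ Finset.range n, A (k + i) ≤ ∑' k, A (k + i) :=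
        ((summable_nat_add_iff i).mpr hAs).sum_le_tsum _ (fun k _ => hAnn _)
      have h2 := hAs.sum_add_tsum_nat_add i
      have h3 : 0 ≤ ∑ k ∈ Finset.range i, A k := Finset.sum_nonneg fun k _ => hAnn k
      linarith
    apply summable_of_sum_range_le (c := 6 * ∑' k, A k) hBnn
    intro n
    have h1 : ∑ k ∈ Finset.range n, B k =
        ∑' i : ℕ, ∑ k ∈ Finset.range n, (5 / 6 : ℝ) ^ i * A (k + i) :=
      (Summable.tsum_finsetSum (fun k _ => hsum k)).symm
    rw [h1]
    have h2 : ∑' i : ℕ, ∑ k ∈ Finset.range n, (5 / 6 : ℝ) ^ i * A (k + i) ≤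
        ∑' i : ℕ, (5 / 6 : ℝ) ^ i * ∑' k, A k := by
      apply Summable.tsum_le_tsum
      · intro i
        rw [← Finset.mul_sum]
        exact mul_le_mul_of_nonneg_left (hfin i n) (by positivity)
      · exact summable_sum fun k _ => hsum k
      · exact hgeo.mul_right _
    refine h2.trans (le_of_eq ?_)
    rw [tsum_mul_right, tsum_geometric_of_lt_one (by norm_num) (by norm_num)]
    norm_num

/-- A slowly varying positive sequence. -/
structure Slow (e : ℕ → ℝ) : Prop where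
  nonneg : ∀ k, 0 ≤ e k
  up : ∀ k, e (k + 1) ≤ (11 / 10) * e k
  down : ∀ k, e k ≤ (11 / 10) * e (k + 1)

/-- square summable sequences have slowly varying square summable majorants -/
theorem exists_slow (w : ℕ → ℝ) (hw : ∀ k, 0 ≤ w k) (hs : Summable (fun k => w k ^ 2)) :
    ∃ e : ℕ → ℝ, Slow e ∧ (∀ k, w k ≤ e k) ∧ Summable (fun k => e k ^ 2) := by
  obtain ⟨B, hwB, hB1, hB2, hBs⟩ := regularize (fun k => w k ^ 2) (fun k => sq_nonneg _) hs
  have hBnn : ∀ k, 0 ≤ B k := fun k => (sq_nonneg (w k)).trans (hwB k)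
  have hsq : Real.sqrt (6 / 5) ≤ 11 / 10 := by
    rw [Real.sqrt_le_left (by norm_num)]; norm_num
  refine ⟨fun k => Real.sqrt (B k), ⟨fun k => Real.sqrt_nonneg _, ?_, ?_⟩, ?_, ?_⟩
  · intro k
    calc Real.sqrt (B (k + 1)) ≤ Real.sqrt (6 / 5 * B k) := Real.sqrt_le_sqrt (hB2 k)
      _ = Real.sqrt (6 / 5) * Real.sqrt (B k) := Real.sqrt_mul (by norm_num) _
      _ ≤ _ := mul_le_mul_of_nonneg_right hsq (Real.sqrt_nonneg _)
  · intro k
    calc Real.sqrt (B k) ≤ Real.sqrt (6 / 5 * B (k + 1)) := Real.sqrt_le_sqrt (hB1 k)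
      _ = Real.sqrt (6 / 5) * Real.sqrt (B (k + 1)) := Real.sqrt_mul (by norm_num) _
      _ ≤ _ := mul_le_mul_of_nonneg_right hsq (Real.sqrt_nonneg _)
  · intro k
    exact Real.le_sqrt_of_sq_le (hwB k)
  · simp only [Real.sq_sqrt (hBnn _)]
    exact hBs

/-- the Hölder weight at level `k` -/
noncomputable def hwt (u : ℝ) (k : ℕ) : ℝ := (u / (1 / 2) ^ k) ^ (1 / 4 : ℝ)

theorem hwt_nonneg {u : ℝ} (hu : 0 ≤ u) (k : ℕ) : 0 ≤ hwt u k := by
  unfold hwt; positivity

theorem hwt_succ {u : ℝ} (hu : 0 ≤ u) (k : ℕ) : hwt u k ≤ (19 / 22) * hwt u (k + 1) := by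
  unfold hwt
  have h1 : u / (1 / 2) ^ k = (1 / 2) * (u / (1 / 2) ^ (k + 1)) := by
    rw [pow_succ]; field_simp
  rw [h1, Real.mul_rpow (by norm_num) (by positivity)]
  apply mul_le_mul_of_nonneg_right _ (by positivity)
  have h2 : (19 / 22 : ℝ) = ((19 / 22 : ℝ) ^ (4 : ℝ)) ^ (1 / 4 : ℝ) := by
    rw [← Real.rpow_mul (by norm_num)]; norm_num
  rw [h2]
  apply Real.rpow_le_rpow (by norm_num) _ (by norm_num)
  rw [show (4 : ℝ) = ((4 : ℕ) : ℝ) by norm_num, Real.rpow_natCast]
  norm_num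

/-- the geometric summation -/
theorem sum_slow {e : ℕ → ℝ} (he : Slow e) {u : ℝ} (hu : 0 ≤ u) (k : ℕ) :
    ∑ j ∈ Finset.range k, e j * hwt u j ≤ 19 * (e k * hwt u k) := by
  induction k with
  | zero =>
    simp only [Finset.range_zero, Finset.sum_empty]
    have := he.nonneg 0
    have := hwt_nonneg hu 0
    positivity
  | succ k ih =>
    rw [Finset.sum_range_succ]
    have h1 : e k * hwt u k ≤ (11 / 10 * e (k + 1)) * (19 / 22 * hwt u (k + 1)) := by
      apply mul_le_mul (he.down k) (hwt_succ hu k) (hwt_nonneg hu k)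
      have := he.nonneg (k + 1)
      positivity
    nlinarith

end Pool.Agent.MPca0fc2.SD
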