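import Mathlib
import Pool.Agent.Lib.MP_ca0fc2_an.SDOsc
import Pool.Agent.Lib.MP_ca0fc2_an.SDSeq

set_option autoImplicit false

open Metric Set Filter Topology
open scoped InnerProductSpace

namespace Pool.Agent.MPca0fc2.SD

variable {E : Type*} [NormedAddCommGroup E] [InnerProductSpace ℂ E]

/-- the radii -/
noncomputable def rr (k : ℕ) : ℝ := 1 - (1 / 2) ^ k

theorem rr_zero : rr 0 = 0 := by simp [rr]

theorem half_pow_pos (k : ℕ) : (0 : ℝ) < (1 / 2) ^ k := by positivity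

theorem half_pow_le_one (k : ℕ) : ((1 : ℝ) / 2) ^ k ≤ 1 := pow_le_one₀ (by norm_num) (by norm_num)

theorem rr_nonneg (k : ℕ) : 0 ≤ rr k := by
  unfold rr; linarith [half_pow_le_one k]

theorem rr_lt_one (k : ℕ) : rr k < 1 := by
  unfold rr; linarith [half_pow_pos k]

theorem rr_succ (k : ℕ) : rr (k + 1) = rr k + (1 / 2) ^ k / 2 := by
  unfold rr; rw [pow_succ]; ring

/-- Control of the gradient at dyadic depths. -/
structure Grad (f : E → ℂ) (e : ℕ → ℝ) : Prop where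
  hol : DifferentiableOn ℂ f (ball 0 1)
  grad : ∀ k : ℕ, ∀ z : E, ‖z‖ ≤ rr k → ‖fderiv ℂ f z‖ * (1 / 2) ^ k ≤ e k

theorem Grad.radial {f : E → ℂ} {e : ℕ → ℝ} (hf : Grad f e) {k : ℕ} {s s' : ℝ} (hs : 0 ≤ s)
    (hss : s ≤ s') {z : E} (hz : s' * ‖z‖ ≤ rr k) :
    ‖f ((s' : ℂ) • z) - f ((s : ℂ) • z)‖ ≤ (s' - s) * ‖z‖ * (e k / (1 / 2) ^ k) := by
  have hpos := half_pow_pos k
  have hsub : closedBall (0 : E) (rr k) ⊆ ball 0 1 := closedBall_subset_ball (rr_lt_one k)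
  have h1 : ∀ x ∈ closedBall (0 : E) (rr k), DifferentiableAt ℂ f x := fun x hx =>
    hf.hol.differentiableAt (isOpen_ball.mem_nhds (hsub hx))
  have h2 : ∀ x ∈ closedBall (0 : E) (rr k), ‖fderiv ℂ f x‖ ≤ e k / (1 / 2) ^ k := by
    intro x hx
    rw [le_div_iff₀ hpos]
    exact hf.grad k x (mem_closedBall_zero_iff.mp hx)
  have h3 : (s : ℂ) • z ∈ closedBall (0 : E) (rr k) := by
    rw [mem_closedBall_zero_iff, norm_smul, Complex.norm_real, Real.norm_of_nonneg hs]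
    exact (mul_le_mul_of_nonneg_right hss (norm_nonneg _)).trans hz
  have h4 : (s' : ℂ) • z ∈ closedBall (0 : E) (rr k) := by
    rw [mem_closedBall_zero_iff, norm_smul, Complex.norm_real, Real.norm_of_nonneg (hs.trans hss)]
    exact hz
  have h5 := (convex_closedBall (0 : E) (rr k)).norm_image_sub_le_of_norm_fderiv_le h1 h2 h3 h4
  rw [← sub_smul, norm_smul, ← Complex.ofReal_sub, Complex.norm_real,
    Real.norm_of_nonneg (sub_nonneg.mpr hss)] at h5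
  linarith

theorem Grad.nonneg {f : E → ℂ} {e : ℕ → ℝ} (hf : Grad f e) (k : ℕ) : 0 ≤ e k := by
  refine le_trans ?_ (hf.grad k 0 (by rw [norm_zero]; exact rr_nonneg k))
  positivity

theorem diffOn_dil {f : E → ℂ} (hf : DifferentiableOn ℂ f (ball 0 1)) {r R : ℝ} (hr : 0 ≤ r)
    (h : r * R ≤ 1) (hR : 0 < R) (hr1 : r < 1 ∨ r * R < 1 ∨ True) :
    DifferentiableOn ℂ (fun z : E => f ((r : ℂ) • z)) (ball 0 R) := by
  apply hf.comp
  · exact (differentiable_id.const_smul _).differentiableOn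
  · intro z hz
    rw [mem_ball_zero_iff] at hz ⊢
    rw [norm_smul, Complex.norm_real, Real.norm_of_nonneg hr]
    rcases eq_or_lt_of_le hr with h0 | h0
    · rw [← h0]; simp
    · calc r * ‖z‖ < r * R := mul_lt_mul_of_pos_left hz h0
        _ ≤ 1 := h

/-- the oscillation of one dyadic block -/
theorem Grad.block {f : E → ℂ} {e : ℕ → ℝ} (hf : Grad f e) (he : Slow e) (j : ℕ) {a b : E}
    (ha : ‖a‖ ≤ 1) (hb : ‖b‖ ≤ 1) :
    ‖(f ((rr (j + 1) : ℂ) • a) - f ((rr j : ℂ) • a)) -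
      (f ((rr (j + 1) : ℂ) • b) - f ((rr j : ℂ) • b))‖ ≤
      88 * (e j * hwt (‖1 - ⟪a, b⟫_ℂ‖) j) := by
  set t : ℝ := (1 / 2) ^ j with ht
  have ht0 : 0 < t := half_pow_pos j
  have ht1 : t ≤ 1 := half_pow_le_one j
  have hr1 : rr (j + 1) = 1 - t / 2 := by rw [rr_succ, rr, ← ht]; ring
  have hr0 : rr j = 1 - t := by rw [rr, ← ht]
  have hr2 : rr (j + 2) = 1 - t / 4 := by rw [rr_succ, hr1, pow_succ, ← ht]; ring
  have hle1 : rr (j + 1) * (1 + t / 16) ≤ 1 := by rw [hr1]; nlinarith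
  have hle0 : rr j * (1 + t / 16) ≤ 1 := by rw [hr0]; nlinarith
  have hG : DifferentiableOn ℂ (fun z : E => f ((rr (j + 1) : ℂ) • z) - f ((rr j : ℂ) • z))
      (ball 0 (1 + t / 16)) :=
    (diffOn_dil hf.hol (rr_nonneg _) hle1 (by positivity) (by simp)).sub
      (diffOn_dil hf.hol (rr_nonneg _) hle0 (by positivity) (by simp))
  have hGB : ∀ z ∈ ball (0 : E) (1 + t / 16),
      ‖f ((rr (j + 1) : ℂ) • z) - f ((rr j : ℂ) • z)‖ ≤ 3 * e (j + 2) := by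
    intro z hz
    rw [mem_ball_zero_iff] at hz
    have h1 := hf.radial (k := j + 2) (rr_nonneg j) (s' := rr (j + 1))
      (by rw [hr0, hr1]; linarith) (z := z) (by
        rw [hr2]
        calc rr (j + 1) * ‖z‖ ≤ rr (j + 1) * (1 + t / 16) :=
              mul_le_mul_of_nonneg_left hz.le (rr_nonneg _)
          _ ≤ _ := by rw [hr1]; nlinarith)
    refine h1.trans ?_
    have h2 : ((1 : ℝ) / 2) ^ (j + 2) = t / 4 := by rw [pow_add, ← ht]; ring
    rw [hr1, hr0, h2]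
    have h3 : 0 ≤ e (j + 2) := he.nonneg _
    have h4 : (1 - t / 2 - (1 - t)) * ‖z‖ * (e (j + 2) / (t / 4)) = 2 * ‖z‖ * e (j + 2) := by
      field_simp; ring
    rw [h4]
    apply mul_le_mul_of_nonneg_right _ h3
    linarith
  have h := osc_bound ht0 (B := 3 * e (j + 2)) (by have := he.nonneg (j + 2); positivity)
    hG hGB ha hb
  refine h.trans ?_
  have h1 : e (j + 2) ≤ (11 / 10) * ((11 / 10) * e j) :=
    (he.up (j + 1)).trans (mul_le_mul_of_nonneg_left (he.up j) (by norm_num))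
  have h2 : (‖1 - ⟪a, b⟫_ℂ‖ / t) ^ (1 / 4 : ℝ) = hwt (‖1 - ⟪a, b⟫_ℂ‖) j := by rw [hwt, ht]
  rw [h2]
  have h3 := hwt_nonneg (norm_nonneg (1 - ⟪a, b⟫_ℂ)) j
  have h4 := he.nonneg j
  calc 24 * (3 * e (j + 2)) * hwt (‖1 - ⟪a, b⟫_ℂ‖) j
      ≤ 24 * (3 * ((11 / 10) * ((11 / 10) * e j))) * hwt (‖1 - ⟪a, b⟫_ℂ‖) j := by gcongr
    _ ≤ _ := by nlinarith [mul_nonneg h4 h3]

/-- the oscillation of the dilates of `f` -/
theorem Grad.osc {f : E → ℂ} {e : ℕ → ℝ} (hf : Grad f e) (he : Slow e) (k : ℕ) {a b : E}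
    (ha : ‖a‖ ≤ 1) (hb : ‖b‖ ≤ 1) :
    ‖f ((rr k : ℂ) • a) - f ((rr k : ℂ) • b)‖ ≤ 1672 * (e k * hwt (‖1 - ⟪a, b⟫_ℂ‖) k) := by
  have htel : f ((rr k : ℂ) • a) - f ((rr k : ℂ) • b) = ∑ j ∈ Finset.range k,
      ((f ((rr (j + 1) : ℂ) • a) - f ((rr j : ℂ) • a)) -
      (f ((rr (j + 1) : ℂ) • b) - f ((rr j : ℂ) • b))) := by
    rw [Finset.sum_sub_distrib, Finset.sum_range_sub (fun j => f ((rr j : ℂ) • a)),
      Finset.sum_range_sub (fun j => f ((rr j : ℂ) • b)), rr_zero]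
    simp
  rw [htel]
  calc _ ≤ ∑ j ∈ Finset.range k, 88 * (e j * hwt (‖1 - ⟪a, b⟫_ℂ‖) j) :=
        norm_sum_le_of_le _ fun j _ => hf.block he j ha hb
    _ = 88 * ∑ j ∈ Finset.range k, e j * hwt (‖1 - ⟪a, b⟫_ℂ‖) j := by rw [Finset.mul_sum]
    _ ≤ 88 * (19 * (e k * hwt (‖1 - ⟪a, b⟫_ℂ‖) k)) :=
        mul_le_mul_of_nonneg_left (sum_slow he (norm_nonneg _) k) (by norm_num)
    _ = _ := by ring

/-- the difference used in the kernel estimates -/
theorem Grad.cross {f : E → ℂ} {e : ℕ → ℝ} (hf : Grad f e) (he : Slow e) (k : ℕ) {w z : E}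
    (hw : ‖w‖ ≤ 1) (hz : ‖z‖ ≤ 1) {η : ℝ} (hη1 : 1 ≤ η) (hη2 : η ≤ 1 + (1 / 2) ^ k / 16) :
    ‖f ((rr (k + 2) : ℂ) • w) - f (((rr k * η : ℝ) : ℂ) • z)‖ ≤
      1700 * (e k * hwt (‖1 - ⟪w, z⟫_ℂ‖ + (1 / 2) ^ k) k) := by
  set t : ℝ := (1 / 2) ^ k with ht
  have ht0 : 0 < t := half_pow_pos k
  have ht1 : t ≤ 1 := half_pow_le_one k
  have hr1 : rr (k + 1) = 1 - t / 2 := by rw [rr_succ, rr, ← ht]; ring
  have hr0 : rr k = 1 - t := by rw [rr, ← ht]
  have hr2 : rr (k + 2) = 1 - t / 4 := by rw [rr_succ, hr1, pow_succ, ← ht]; ring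
  have hek := he.nonneg k
  have he1 : e (k + 1) ≤ (11 / 10) * e k := he.up k
  have he2 : e (k + 2) ≤ (11 / 10) * ((11 / 10) * e k) :=
    (he.up (k + 1)).trans (mul_le_mul_of_nonneg_left he1 (by norm_num))
  set u := ‖1 - ⟪w, z⟫_ℂ‖ with hu
  have hu0 : 0 ≤ u := norm_nonneg _
  have hone : 1 ≤ hwt (u + t) k := by
    rw [hwt, ← ht]
    apply Real.one_le_rpow _ (by norm_num)
    rw [one_le_div ht0]; linarith
  have hmono : hwt u k ≤ hwt (u + t) k := by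
    rw [hwt, hwt, ← ht]
    apply Real.rpow_le_rpow (by positivity) _ (by norm_num)
    gcongr; linarith
  have A1 : ‖f ((rr (k + 2) : ℂ) • w) - f ((rr k : ℂ) • w)‖ ≤ 4 * e k := by
    have h1 := hf.radial (k := k + 2) (rr_nonneg k) (s' := rr (k + 2))
      (by rw [hr0, hr2]; linarith) (z := w) (by
        nlinarith [rr_nonneg (k + 2)])
    refine h1.trans ?_
    have h2 : ((1 : ℝ) / 2) ^ (k + 2) = t / 4 := by rw [pow_add, ← ht]; ring
    have h4 : (rr (k + 2) - rr k) * ‖w‖ * (e (k + 2) / (t / 4)) = 3 * ‖w‖ * e (k + 2) := by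
      rw [hr2, hr0]; field_simp; ring
    rw [h2, h4]
    have h5 := he.nonneg (k + 2)
    nlinarith [norm_nonneg w]
  have A2 : ‖f ((rr k : ℂ) • w) - f ((rr k : ℂ) • z)‖ ≤ 1672 * (e k * hwt u k) :=
    hf.osc he k hw hz
  have A3 : ‖f (((rr k * η : ℝ) : ℂ) • z) - f ((rr k : ℂ) • z)‖ ≤ 2 * e k := by
    have h1 := hf.radial (k := k + 1) (rr_nonneg k) (s' := rr k * η)
      (by nlinarith [rr_nonneg k]) (z := z) (by
        calc rr k * η * ‖z‖ ≤ rr k * η * 1 :=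
              mul_le_mul_of_nonneg_left hz (mul_nonneg (rr_nonneg k) (by linarith))
          _ ≤ rr k * (1 + t / 16) * 1 := by
              have := rr_nonneg k
              gcongr
          _ ≤ rr (k + 1) := by rw [hr1, hr0]; nlinarith)
    refine h1.trans ?_
    have h2 : ((1 : ℝ) / 2) ^ (k + 1) = t / 2 := by rw [pow_add, ← ht]; ring
    rw [h2]
    have h5 := he.nonneg (k + 1)
    have h6 : rr k * η - rr k ≤ t / 16 := by nlinarith [rr_nonneg k, rr_lt_one k]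
    have h7 : 0 ≤ rr k * η - rr k := by nlinarith [rr_nonneg k]
    calc (rr k * η - rr k) * ‖z‖ * (e (k + 1) / (t / 2))
        ≤ (t / 16) * 1 * (e (k + 1) / (t / 2)) := by gcongr
      _ = e (k + 1) / 8 := by field_simp; ring
      _ ≤ _ := by linarith
  have e1 : f ((rr (k + 2) : ℂ) • w) - f (((rr k * η : ℝ) : ℂ) • z) =
      (f ((rr (k + 2) : ℂ) • w) - f ((rr k : ℂ) • w)) +
      (f ((rr k : ℂ) • w) - f ((rr k : ℂ) • z)) -
      (f (((rr k * η : ℝ) : ℂ) • z) - f ((rr k : ℂ) • z)) := by ring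
  rw [e1]
  have B1 := norm_sub_le ((f ((rr (k + 2) : ℂ) • w) - f ((rr k : ℂ) • w)) +
      (f ((rr k : ℂ) • w) - f ((rr k : ℂ) • z)))
      (f (((rr k * η : ℝ) : ℂ) • z) - f ((rr k : ℂ) • z))
  have B2 := norm_add_le (f ((rr (k + 2) : ℂ) • w) - f ((rr k : ℂ) • w))
      (f ((rr k : ℂ) • w) - f ((rr k : ℂ) • z))
  have B3 : e k * hwt u k ≤ e k * hwt (u + t) k := mul_le_mul_of_nonneg_left hmono hek
  have B4 : e k * 1 ≤ e k * hwt (u + t) k := mul_le_mul_of_nonneg_left hone hek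
  linarith

end Pool.Agent.MPca0fc2.SD
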