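import Mathlib
import Pool.Agent.Lib.MP_ca0fc2_an.Mg.G073
import Pool.Agent.Lib.MP_ca0fc2_an.SDData

set_option autoImplicit false

open Metric Set MeasureTheory Filter Topology
open scoped InnerProductSpace

namespace Pool.Agent.MPca0fc2.SD

theorem norm_pow_sub_pow_le' {x y : ℂ} {c : ℝ} (hx : ‖x‖ ≤ c) (hy : ‖y‖ ≤ c) (n : ℕ) :
    ‖x ^ (n + 1) - y ^ (n + 1)‖ ≤ (n + 1) * c ^ n * ‖x - y‖ := by
  have hc : 0 ≤ c := (norm_nonneg _).trans hx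
  induction n with
  | zero => simp
  | succ n ih =>
    have e : x ^ (n + 1 + 1) - y ^ (n + 1 + 1) = x ^ (n + 1) * (x - y) +
        (x ^ (n + 1) - y ^ (n + 1)) * y := by ring
    rw [e]
    calc _ ≤ ‖x ^ (n + 1) * (x - y)‖ + ‖(x ^ (n + 1) - y ^ (n + 1)) * y‖ := norm_add_le _ _
      _ = ‖x‖ ^ (n + 1) * ‖x - y‖ + ‖x ^ (n + 1) - y ^ (n + 1)‖ * ‖y‖ := by
        rw [norm_mul, norm_mul, norm_pow]
      _ ≤ c ^ (n + 1) * ‖x - y‖ + ((n + 1) * c ^ n * ‖x - y‖) * c := by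
        gcongr
      _ = _ := by push_cast; ring

/-- the Bergman kernel as a function of the inner product -/
noncomputable def kap (m : ℕ) (x : ℂ) : ℂ := 1 / (1 - x) ^ (m + 2)

theorem kap_sub {m : ℕ} {a b : ℂ} {q : ℝ} (hq : 0 < q) (ha : q ≤ ‖1 - a‖) (hb : q ≤ ‖1 - b‖) :
    ‖kap m a - kap m b‖ ≤ (m + 2) * ‖a - b‖ / q ^ (m + 3) := by
  have ha0 : 1 - a ≠ 0 := by
    intro h; rw [h, norm_zero] at ha; linarith
  have hb0 : 1 - b ≠ 0 := by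
    intro h; rw [h, norm_zero] at hb; linarith
  have h1 : ‖(1 - a)⁻¹‖ ≤ 1 / q := by
    rw [norm_inv, ← one_div]; exact one_div_le_one_div_of_le hq ha
  have h2 : ‖(1 - b)⁻¹‖ ≤ 1 / q := by
    rw [norm_inv, ← one_div]; exact one_div_le_one_div_of_le hq hb
  have h3 := norm_pow_sub_pow_le' h1 h2 (m + 1)
  have h4 : ‖(1 - a)⁻¹ - (1 - b)⁻¹‖ ≤ ‖a - b‖ * (1 / q) ^ 2 := by
    rw [inv_sub_inv ha0 hb0, norm_div, norm_mul]
    have e : (1 - b) - (1 - a) = a - b := by ring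
    rw [e]
    rw [div_eq_mul_one_div]
    apply mul_le_mul_of_nonneg_left _ (norm_nonneg _)
    rw [one_div_pow]
    apply one_div_le_one_div_of_le (by positivity)
    rw [sq]
    exact mul_le_mul ha hb hq.le (norm_nonneg _)
  have e : kap m a - kap m b = ((1 - a)⁻¹) ^ (m + 1 + 1) - ((1 - b)⁻¹) ^ (m + 1 + 1) := by
    unfold kap
    rw [inv_pow, inv_pow, one_div, one_div]
  rw [e]
  calc _ ≤ ((m + 1 : ℕ) + 1 : ℝ) * (1 / q) ^ (m + 1) * ‖(1 - a)⁻¹ - (1 - b)⁻¹‖ := h3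
    _ ≤ ((m + 1 : ℕ) + 1 : ℝ) * (1 / q) ^ (m + 1) * (‖a - b‖ * (1 / q) ^ 2) := by gcongr
    _ = _ := by
      push_cast
      rw [div_eq_mul_one_div ((m + 2 : ℝ) * ‖a - b‖), ← one_div_pow,
        show m + 3 = (m + 1) + 2 by ring, pow_add]
      ring

theorem one_sub_comp {x : ℂ} (hx : ‖x‖ ≤ 1) {σ t : ℝ} (hσ : 0 ≤ σ) (ht : 0 < t)
    (h : σ ≤ 1 - 3 * t / 16) : (‖1 - x‖ + t) / 8 ≤ ‖1 - (σ : ℂ) * x‖ := by
  have h1 : 1 - σ ≤ ‖1 - (σ : ℂ) * x‖ := by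
    have h2 : ‖(σ : ℂ) * x‖ ≤ σ := by
      rw [norm_mul, Complex.norm_real, Real.norm_of_nonneg hσ]
      nlinarith
    calc 1 - σ ≤ ‖(1 : ℂ)‖ - ‖(σ : ℂ) * x‖ := by rw [norm_one]; linarith
      _ ≤ _ := norm_sub_norm_le _ _
  have h3 : ‖1 - x‖ ≤ ‖1 - (σ : ℂ) * x‖ + (1 - σ) := by
    have e : 1 - x = (1 - (σ : ℂ) * x) - ((1 - σ : ℝ) : ℂ) * x := by push_cast; ring
    rw [e]
    refine (norm_sub_le _ _).trans ?_
    gcongr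
    rw [norm_mul, Complex.norm_real, Real.norm_of_nonneg (by linarith)]
    nlinarith [norm_nonneg x]
  linarith

/-- the two dilation factors -/
noncomputable def sk (k : ℕ) : ℝ := rr k / rr (k + 2)
noncomputable def sk' (k : ℕ) : ℝ := rr (k + 1) / rr (k + 2)

section Dil

variable (k : ℕ)

theorem rr_eqs : rr k = 1 - (1 / 2) ^ k ∧ rr (k + 1) = 1 - (1 / 2) ^ k / 2 ∧
    rr (k + 2) = 1 - (1 / 2) ^ k / 4 := by
  refine ⟨rfl, ?_, ?_⟩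
  · rw [rr_succ, rr]; ring
  · rw [rr_succ, rr_succ, rr, pow_succ]; ring

theorem rr_two_pos : 0 < rr (k + 2) := by
  rw [(rr_eqs k).2.2]; linarith [half_pow_le_one k]

theorem sk_nonneg : 0 ≤ sk k := div_nonneg (rr_nonneg _) (rr_nonneg _)
theorem sk'_nonneg : 0 ≤ sk' k := div_nonneg (rr_nonneg _) (rr_nonneg _)

theorem sk_mul : sk k * rr (k + 2) = rr k := div_mul_cancel₀ _ (rr_two_pos k).ne'
theorem sk'_mul : sk' k * rr (k + 2) = rr (k + 1) := div_mul_cancel₀ _ (rr_two_pos k).ne'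

theorem sk_le_sk' : sk k ≤ sk' k := by
  unfold sk sk'
  have := rr_two_pos k
  gcongr
  rw [rr_succ]
  linarith [half_pow_pos k]

theorem sk'_le : sk' k ≤ 1 - (1 / 2) ^ k / 4 := by
  unfold sk'
  rw [div_le_iff₀ (rr_two_pos k), (rr_eqs k).2.1, (rr_eqs k).2.2]
  nlinarith [half_pow_pos k, half_pow_le_one k]

theorem sk'_sub : sk' k - sk k ≤ 2 / 3 * (1 / 2) ^ k := by
  unfold sk sk'
  rw [← sub_div, div_le_iff₀ (rr_two_pos k), (rr_eqs k).1, (rr_eqs k).2.1, (rr_eqs k).2.2]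
  nlinarith [half_pow_pos k, half_pow_le_one k]

variable {k}

theorem sk'_eta {η : ℝ} (hη0 : 0 ≤ η) (hη : η ≤ 1 + (1 / 2) ^ k / 16) :
    sk' k * η ≤ 1 - 3 * (1 / 2) ^ k / 16 := by
  calc sk' k * η ≤ (1 - (1 / 2) ^ k / 4) * (1 + (1 / 2) ^ k / 16) := by
        apply mul_le_mul (sk'_le k) hη hη0
        linarith [half_pow_le_one k]
    _ ≤ _ := by nlinarith [half_pow_pos k, half_pow_le_one k]

theorem sk_eta {η : ℝ} (hη0 : 0 ≤ η) (hη : η ≤ 1 + (1 / 2) ^ k / 16) :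
    sk k * η ≤ 1 - 3 * (1 / 2) ^ k / 16 :=
  (mul_le_mul_of_nonneg_right (sk_le_sk' k) hη0).trans (sk'_eta hη0 hη)

end Dil

variable {E : Type*} [NormedAddCommGroup E] [InnerProductSpace ℂ E]

/-- the difference of two dilated Bergman kernels -/
noncomputable def dK (m k : ℕ) (w z : E) : ℂ :=
  kap m ((sk' k : ℂ) * ⟪w, z⟫_ℂ) - kap m ((sk k : ℂ) * ⟪w, z⟫_ℂ)

theorem dK_bound (m k : ℕ) {w z : E} (hw : ‖w‖ ≤ 1) (hz : ‖z‖ ≤ 1) {η : ℝ} (hη1 : 1 ≤ η)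
    (hη2 : η ≤ 1 + (1 / 2) ^ k / 16) :
    ‖dK m k w ((η : ℂ) • z)‖ ≤ ((m + 2) * 8 ^ (m + 3)) *
      ((1 / 2) ^ k / (‖1 - ⟪w, z⟫_ℂ‖ + (1 / 2) ^ k) ^ (m + 3)) := by
  set t : ℝ := (1 / 2) ^ k with ht
  have ht0 : 0 < t := half_pow_pos k
  have ht1 : t ≤ 1 := half_pow_le_one k
  set x := ⟪w, z⟫_ℂ with hx
  have hx1 : ‖x‖ ≤ 1 := norm_inner_le_one hw hz
  have hη0 : 0 ≤ η := by linarith
  have e1 : ⟪w, (η : ℂ) • z⟫_ℂ = (η : ℂ) * x := by rw [inner_smul_right]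
  have a1 : (sk' k : ℂ) * ⟪w, (η : ℂ) • z⟫_ℂ = ((sk' k * η : ℝ) : ℂ) * x := by
    rw [e1]; push_cast; ring
  have a2 : (sk k : ℂ) * ⟪w, (η : ℂ) • z⟫_ℂ = ((sk k * η : ℝ) : ℂ) * x := by
    rw [e1]; push_cast; ring
  set Q := ‖1 - x‖ + t with hQ
  have hQ0 : 0 < Q := by positivity
  have b1 : Q / 8 ≤ ‖1 - ((sk' k * η : ℝ) : ℂ) * x‖ :=
    one_sub_comp hx1 (mul_nonneg (sk'_nonneg k) hη0) ht0 (sk'_eta hη0 hη2)
  have b2 : Q / 8 ≤ ‖1 - ((sk k * η : ℝ) : ℂ) * x‖ :=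
    one_sub_comp hx1 (mul_nonneg (sk_nonneg k) hη0) ht0 (sk_eta hη0 hη2)
  have h := kap_sub (m := m) (q := Q / 8) (by positivity) b1 b2
  rw [dK, a1, a2]
  refine h.trans ?_
  have h2 : ‖((sk' k * η : ℝ) : ℂ) * x - ((sk k * η : ℝ) : ℂ) * x‖ ≤ t := by
    rw [← sub_mul, ← Complex.ofReal_sub, norm_mul, Complex.norm_real]
    have h3 : 0 ≤ sk' k * η - sk k * η := by
      rw [← sub_mul]
      exact mul_nonneg (sub_nonneg.mpr (sk_le_sk' k)) hη0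
    rw [Real.norm_of_nonneg h3]
    have h4 : sk' k * η - sk k * η ≤ t := by
      rw [← sub_mul]
      calc (sk' k - sk k) * η ≤ (2 / 3 * t) * (1 + t / 16) := by
            apply mul_le_mul (sk'_sub k) hη2 hη0 (by positivity)
        _ ≤ t := by nlinarith
    nlinarith [norm_nonneg x]
  calc ((m : ℝ) + 2) * ‖((sk' k * η : ℝ) : ℂ) * x - ((sk k * η : ℝ) : ℂ) * x‖ / (Q / 8) ^ (m + 3)
      ≤ ((m : ℝ) + 2) * t / (Q / 8) ^ (m + 3) := by gcongr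
    _ = _ := by
      rw [div_pow]
      field_simp

/-- the integrand of the basic kernel integral -/
noncomputable def kint (m : ℕ) (t : ℝ) (w z : E) : ℝ :=
  Real.sqrt t * (1 / (‖1 - ⟪w, z⟫_ℂ‖ + t)) ^ ((m + 2 : ℝ) + 1 / 2)

theorem kint_nonneg (m : ℕ) {t : ℝ} (ht : 0 ≤ t) (w z : E) : 0 ≤ kint m t w z := by
  unfold kint; positivity

theorem hwt_sq_kernel (m k : ℕ) (w z : E) :
    hwt (‖1 - ⟪w, z⟫_ℂ‖ + (1 / 2) ^ k) k * hwt (‖1 - ⟪w, z⟫_ℂ‖ + (1 / 2) ^ k) k *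
      ((1 / 2) ^ k / (‖1 - ⟪w, z⟫_ℂ‖ + (1 / 2) ^ k) ^ (m + 3)) = kint m ((1 / 2) ^ k) w z := by
  unfold hwt kint
  set t : ℝ := (1 / 2) ^ k with ht
  have ht0 : 0 < t := half_pow_pos k
  set Q := ‖1 - ⟪w, z⟫_ℂ‖ + t with hQ
  have hQ0 : 0 < Q := by positivity
  rw [← Real.rpow_add (by positivity)]
  norm_num
  rw [Real.div_rpow hQ0.le ht0.le, ← Real.sqrt_eq_rpow, Real.sqrt_eq_rpow t,
    Real.inv_rpow hQ0.le, Real.rpow_add hQ0, Real.sqrt_eq_rpow]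
  have e1 : Q ^ ((m : ℝ) + 2) = Q ^ (m + 2) := by
    rw [show ((m : ℝ) + 2) = ((m + 2 : ℕ) : ℝ) by push_cast; ring, Real.rpow_natCast]
  have e2 : Q ^ (m + 3) = Q ^ (m + 2) * (Q ^ (1 / 2 : ℝ) * Q ^ (1 / 2 : ℝ)) := by
    rw [← Real.rpow_add hQ0]
    norm_num
    ring
  have e3 : t = t ^ (1 / 2 : ℝ) * t ^ (1 / 2 : ℝ) := by
    rw [← Real.rpow_add ht0]
    norm_num
  rw [e1, e2]
  have p1 : 0 < Q ^ (1 / 2 : ℝ) := by positivity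
  have p2 : 0 < t ^ (1 / 2 : ℝ) := by positivity
  have p3 : 0 < Q ^ (m + 2) := by positivity
  nth_rewrite 2 [e3]
  field_simp

theorem hwt_ge_one (k : ℕ) (w z : E) : 1 ≤ hwt (‖1 - ⟪w, z⟫_ℂ‖ + (1 / 2) ^ k) k := by
  unfold hwt
  have := half_pow_pos k
  apply Real.one_le_rpow _ (by norm_num)
  rw [one_le_div this]
  linarith [norm_nonneg (1 - ⟪w, z⟫_ℂ)]

theorem hwt_mono (k : ℕ) (w z : E) :
    hwt (‖1 - ⟪w, z⟫_ℂ‖) k ≤ hwt (‖1 - ⟪w, z⟫_ℂ‖ + (1 / 2) ^ k) k := by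
  unfold hwt
  have := half_pow_pos k
  apply Real.rpow_le_rpow (by positivity) _ (by norm_num)
  gcongr
  linarith

end Pool.Agent.MPca0fc2.SD
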