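import Mathlib

set_option autoImplicit false

open Metric Set Filter Topology

namespace Pool.Agent.MPca0fc2.SD

section Calculus

variable {X : Type*} [PseudoMetricSpace X] {K : Set X}

/-- bounded and Lipschitz on a set -/
def LB (K : Set X) {F : Type*} [NormedAddCommGroup F] (φ : X → F) : Prop :=
  ∃ C : ℝ, 0 ≤ C ∧ ∀ x ∈ K, ‖φ x‖ ≤ C ∧ ∀ y ∈ K, ‖φ x - φ y‖ ≤ C * dist x y

theorem LB.const {F : Type*} [NormedAddCommGroup F] (c : F) : LB K (fun _ : X => c) :=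
  ⟨‖c‖, norm_nonneg _, fun x _ => ⟨le_rfl, fun y _ => by
    simp only [sub_self, norm_zero]; positivity⟩⟩

theorem LB.add {F : Type*} [NormedAddCommGroup F] {φ ψ : X → F} (h : LB K φ) (h' : LB K ψ) :
    LB K (fun x => φ x + ψ x) := by
  obtain ⟨C, hC, h⟩ := h
  obtain ⟨C', hC', h'⟩ := h'
  refine ⟨C + C', by positivity, fun x hx => ⟨?_, fun y hy => ?_⟩⟩
  · exact (norm_add_le _ _).trans (add_le_add (h x hx).1 (h' x hx).1)
  · have e : φ x + ψ x - (φ y + ψ y) = (φ x - φ y) + (ψ x - ψ y) := by abel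
    rw [e, add_mul]
    exact (norm_add_le _ _).trans (add_le_add ((h x hx).2 y hy) ((h' x hx).2 y hy))

theorem LB.neg {F : Type*} [NormedAddCommGroup F] {φ : X → F} (h : LB K φ) :
    LB K (fun x => - φ x) := by
  obtain ⟨C, hC, h⟩ := h
  refine ⟨C, hC, fun x hx => ⟨by rw [norm_neg]; exact (h x hx).1, fun y hy => ?_⟩⟩
  have e : - φ x - - φ y = -(φ x - φ y) := by abel
  rw [e, norm_neg]
  exact (h x hx).2 y hy

theorem LB.sub {F : Type*} [NormedAddCommGroup F] {φ ψ : X → F} (h : LB K φ) (h' : LB K ψ) :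
    LB K (fun x => φ x - ψ x) := by
  have := h.add h'.neg
  simpa only [← sub_eq_add_neg] using this

theorem LB.mul {F : Type*} [NormedRing F] {φ ψ : X → F} (h : LB K φ) (h' : LB K ψ) :
    LB K (fun x => φ x * ψ x) := by
  obtain ⟨C, hC, h⟩ := h
  obtain ⟨C', hC', h'⟩ := h'
  refine ⟨2 * (C * C'), by positivity, fun x hx => ⟨?_, fun y hy => ?_⟩⟩
  · calc ‖φ x * ψ x‖ ≤ ‖φ x‖ * ‖ψ x‖ := norm_mul_le _ _
      _ ≤ C * C' := mul_le_mul (h x hx).1 (h' x hx).1 (norm_nonneg _) hC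
      _ ≤ _ := by nlinarith [mul_nonneg hC hC']
  · have e : φ x * ψ x - φ y * ψ y = φ x * (ψ x - ψ y) + (φ x - φ y) * ψ y := by noncomm_ring
    rw [e]
    have hd : 0 ≤ dist x y := dist_nonneg
    calc _ ≤ ‖φ x * (ψ x - ψ y)‖ + ‖(φ x - φ y) * ψ y‖ := norm_add_le _ _
      _ ≤ ‖φ x‖ * ‖ψ x - ψ y‖ + ‖φ x - φ y‖ * ‖ψ y‖ :=
        add_le_add (norm_mul_le _ _) (norm_mul_le _ _)
      _ ≤ C * (C' * dist x y) + (C * dist x y) * C' := by
        apply add_le_add
        · exact mul_le_mul (h x hx).1 ((h' x hx).2 y hy) (norm_nonneg _) hC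
        · exact mul_le_mul ((h x hx).2 y hy) (h' y hy).1 (norm_nonneg _) (by positivity)
      _ = _ := by ring

theorem LB.sum {F : Type*} [NormedAddCommGroup F] {ι : Type*} {s : Finset ι} {φ : ι → X → F}
    (h : ∀ i ∈ s, LB K (φ i)) : LB K (fun x => ∑ i ∈ s, φ i x) := by
  classical
  induction s using Finset.induction_on with
  | empty => simpa using LB.const (K := K) (0 : F)
  | insert a s ha ih =>
    simp only [Finset.sum_insert ha]
    exact (h a (Finset.mem_insert_self a s)).add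
      (ih fun i hi => h i (Finset.mem_insert_of_mem hi))

theorem LB.norm {F : Type*} [NormedAddCommGroup F] {φ : X → F} (h : LB K φ) :
    LB K (fun x => ‖φ x‖) := by
  obtain ⟨C, hC, h⟩ := h
  refine ⟨C, hC, fun x hx => ⟨by rw [norm_norm]; exact (h x hx).1, fun y hy => ?_⟩⟩
  exact (abs_norm_sub_norm_le _ _).trans ((h x hx).2 y hy)

theorem LB.conj {φ : X → ℂ} (h : LB K φ) : LB K (fun x => (starRingEnd ℂ) (φ x)) := by
  obtain ⟨C, hC, h⟩ := h
  refine ⟨C, hC, fun x hx => ⟨by rw [RCLike.norm_conj]; exact (h x hx).1, fun y hy => ?_⟩⟩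
  rw [← map_sub, RCLike.norm_conj]
  exact (h x hx).2 y hy

theorem LB.ofReal {φ : X → ℝ} (h : LB K φ) : LB K (fun x => ((φ x : ℝ) : ℂ)) := by
  obtain ⟨C, hC, h⟩ := h
  refine ⟨C, hC, fun x hx => ⟨by rw [Complex.norm_real]; exact (h x hx).1, fun y hy => ?_⟩⟩
  rw [← Complex.ofReal_sub, Complex.norm_real]
  exact (h x hx).2 y hy

theorem LB.comp {φ : X → ℝ} (h : LB K φ) {ψ : ℝ → ℝ} {L : ℝ} (hL : 0 ≤ L)
    (hψ : ∀ s, |ψ s| ≤ L) (hψ' : ∀ s s', |ψ s - ψ s'| ≤ L * |s - s'|) :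
    LB K (fun x => ψ (φ x)) := by
  obtain ⟨C, hC, h⟩ := h
  refine ⟨L * (C + 1), by positivity, fun x hx => ⟨?_, fun y hy => ?_⟩⟩
  · rw [Real.norm_eq_abs]
    exact (hψ _).trans (by nlinarith)
  · rw [Real.norm_eq_abs]
    have h1 := (h x hx).2 y hy
    rw [Real.norm_eq_abs] at h1
    have hd : 0 ≤ dist x y := dist_nonneg
    calc _ ≤ L * |φ x - φ y| := hψ' _ _
      _ ≤ L * (C * dist x y) := mul_le_mul_of_nonneg_left h1 hL
      _ ≤ _ := by
        have := mul_nonneg hL hd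
        nlinarith

end Calculus

section Vec

variable {J : Type*} [Fintype J]

/-- the bilinear product `f · h` -/
noncomputable def gg (x : (J → ℂ) × (J → ℂ)) : ℂ := ∑ j, x.1 j * x.2 j

/-- `|f|²` -/
noncomputable def sf (x : (J → ℂ) × (J → ℂ)) : ℝ := ∑ j, ‖x.1 j‖ ^ 2

/-- `|h|²` -/
noncomputable def sh (x : (J → ℂ) × (J → ℂ)) : ℝ := ∑ j, ‖x.2 j‖ ^ 2

/-- `|f|²|h|² - |f·h|²` -/
noncomputable def dd (x : (J → ℂ) × (J → ℂ)) : ℝ := sf x * sh x - ‖gg x‖ ^ 2

/-- the cut-off -/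
noncomputable def chi (s : ℝ) : ℝ := max 0 (min 1 (2 - 4 * s))

theorem chi_nonneg (s : ℝ) : 0 ≤ chi s := le_max_left _ _

theorem chi_le_one (s : ℝ) : chi s ≤ 1 := max_le zero_le_one (min_le_left _ _)

theorem chi_eq_one {s : ℝ} (hs : s ≤ 1 / 4) : chi s = 1 := by
  unfold chi
  rw [min_eq_left (by linarith), max_eq_right zero_le_one]

theorem chi_lip (s s' : ℝ) : |chi s - chi s'| ≤ 4 * |s - s'| := by
  unfold chi
  calc |max 0 (min 1 (2 - 4 * s)) - max 0 (min 1 (2 - 4 * s'))|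
      ≤ |min 1 (2 - 4 * s) - min 1 (2 - 4 * s')| := by
        have := abs_max_sub_max_le_max (0 : ℝ) (min 1 (2 - 4 * s)) 0 (min 1 (2 - 4 * s'))
        simpa using this
    _ ≤ |(2 - 4 * s) - (2 - 4 * s')| := by
        have := abs_min_sub_min_le_max (1 : ℝ) (2 - 4 * s) 1 (2 - 4 * s')
        simpa using this
    _ = 4 * |s - s'| := by
        rw [show (2 - 4 * s) - (2 - 4 * s') = -(4 * (s - s')) by ring, abs_neg, abs_mul]
        norm_num

/-- the inverse of the truncated denominator -/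
noncomputable def ivm (s : ℝ) : ℝ := (max 1 s)⁻¹

theorem ivm_nonneg (s : ℝ) : 0 ≤ ivm s := by
  unfold ivm; positivity

theorem ivm_le_one (s : ℝ) : ivm s ≤ 1 := inv_le_one_of_one_le₀ (le_max_left _ _)

theorem ivm_lip (s s' : ℝ) : |ivm s - ivm s'| ≤ |s - s'| := by
  unfold ivm
  have h1 : (1 : ℝ) ≤ max 1 s := le_max_left _ _
  have h2 : (1 : ℝ) ≤ max 1 s' := le_max_left _ _
  rw [inv_sub_inv (by positivity) (by positivity), abs_div]
  have h3 : |max 1 s' - max 1 s| ≤ |s - s'| := by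
    have := abs_max_sub_max_le_max (1 : ℝ) s' 1 s
    rw [abs_sub_comm s s']
    simpa using this
  have h4 : 1 ≤ |max 1 s * max 1 s'| := by
    rw [abs_of_pos (by positivity)]
    nlinarith
  calc |max 1 s' - max 1 s| / |max 1 s * max 1 s'| ≤ |max 1 s' - max 1 s| / 1 := by
        gcongr
    _ ≤ _ := by rw [div_one]; exact h3

/-- the direction of the flow -/
noncomputable def mm (x : (J → ℂ) × (J → ℂ)) (j : J) : ℂ :=
  -((chi ‖gg x - 1‖ * ivm (dd x) : ℝ) : ℂ) *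
    ((sh x : ℂ) * (starRingEnd ℂ) (x.1 j) - (starRingEnd ℂ) (gg x) * x.2 j)

theorem sum_f_mm (x : (J → ℂ) × (J → ℂ)) :
    ∑ j, x.1 j * mm x j = -((chi ‖gg x - 1‖ * ivm (dd x) * dd x : ℝ) : ℂ) := by
  have h1 : ∑ j, x.1 j * mm x j = -((chi ‖gg x - 1‖ * ivm (dd x) : ℝ) : ℂ) *
      ((sh x : ℂ) * ∑ j, x.1 j * (starRingEnd ℂ) (x.1 j) -
        (starRingEnd ℂ) (gg x) * ∑ j, x.1 j * x.2 j) := by
    rw [Finset.mul_sum, Finset.mul_sum, ← Finset.sum_sub_distrib, Finset.mul_sum]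
    refine Finset.sum_congr rfl fun j _ => ?_
    unfold mm
    ring
  have h2 : ∑ j, x.1 j * (starRingEnd ℂ) (x.1 j) = (sf x : ℂ) := by
    unfold sf
    push_cast
    refine Finset.sum_congr rfl fun j _ => ?_
    rw [Complex.mul_conj']
  have h3 : (starRingEnd ℂ) (gg x) * ∑ j, x.1 j * x.2 j = ((‖gg x‖ ^ 2 : ℝ) : ℂ) := by
    rw [show ∑ j, x.1 j * x.2 j = gg x from rfl, Complex.conj_mul']
    push_cast; rfl
  rw [h1, h2, h3, dd]
  push_cast
  ring

theorem sum_mm_conj (x : (J → ℂ) × (J → ℂ)) :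
    ∑ j, mm x j * (starRingEnd ℂ) (x.2 j) = 0 := by
  have h1 : ∑ j, mm x j * (starRingEnd ℂ) (x.2 j) = -((chi ‖gg x - 1‖ * ivm (dd x) : ℝ) : ℂ) *
      ((sh x : ℂ) * ∑ j, (starRingEnd ℂ) (x.1 j * x.2 j) -
        (starRingEnd ℂ) (gg x) * ∑ j, x.2 j * (starRingEnd ℂ) (x.2 j)) := by
    rw [Finset.mul_sum, Finset.mul_sum, ← Finset.sum_sub_distrib, Finset.mul_sum]
    refine Finset.sum_congr rfl fun j _ => ?_
    unfold mm
    rw [map_mul]
    ring
  have h2 : ∑ j, x.2 j * (starRingEnd ℂ) (x.2 j) = (sh x : ℂ) := by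
    unfold sh
    push_cast
    refine Finset.sum_congr rfl fun j _ => ?_
    rw [Complex.mul_conj']
  have h3 : ∑ j, (starRingEnd ℂ) (x.1 j * x.2 j) = (starRingEnd ℂ) (gg x) := by
    rw [gg, map_sum]
  rw [h1, h2, h3]
  ring

/-- the coefficient of the flow -/
noncomputable def Phi (x : (J → ℂ) × (J → ℂ)) (i j : J) : ℂ := x.2 i * mm x j

/-- the domain of the coefficients -/
def KK (J : Type*) (M H : ℝ) : Set ((J → ℂ) × (J → ℂ)) :=
  {x | (∀ j, ‖x.1 j‖ ≤ M) ∧ ∀ j, ‖x.2 j‖ ≤ H}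

theorem LB_fst (M H : ℝ) (j : J) : LB (KK J M H) (fun x => x.1 j) := by
  refine ⟨max 1 M, by positivity, fun x hx => ⟨(hx.1 j).trans (le_max_right _ _), fun y _ => ?_⟩⟩
  have h1 : ‖x.1 j - y.1 j‖ ≤ dist x y := by
    rw [← dist_eq_norm]
    exact (dist_le_pi_dist _ _ j).trans (le_max_left _ _)
  calc _ ≤ 1 * dist x y := by rw [one_mul]; exact h1
    _ ≤ _ := mul_le_mul_of_nonneg_right (le_max_left _ _) dist_nonneg

theorem LB_snd (M H : ℝ) (j : J) : LB (KK J M H) (fun x => x.2 j) := by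
  refine ⟨max 1 H, by positivity, fun x hx => ⟨(hx.2 j).trans (le_max_right _ _), fun y _ => ?_⟩⟩
  have h1 : ‖x.2 j - y.2 j‖ ≤ dist x y := by
    rw [← dist_eq_norm]
    exact (dist_le_pi_dist _ _ j).trans (le_max_right _ _)
  calc _ ≤ 1 * dist x y := by rw [one_mul]; exact h1
    _ ≤ _ := mul_le_mul_of_nonneg_right (le_max_left _ _) dist_nonneg

theorem LB_gg (M H : ℝ) : LB (KK J M H) gg := by
  unfold gg
  exact LB.sum fun j _ => (LB_fst M H j).mul (LB_snd M H j)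

theorem LB.sq_norm {X : Type*} [PseudoMetricSpace X] {K : Set X} {φ : X → ℂ} (h : LB K φ) :
    LB K (fun x => ‖φ x‖ ^ 2) := by
  have := h.norm.mul h.norm
  simpa only [← sq] using this

theorem LB_sf (M H : ℝ) : LB (KK J M H) sf := by
  unfold sf
  exact LB.sum fun j _ => (LB_fst M H j).sq_norm

theorem LB_sh (M H : ℝ) : LB (KK J M H) sh := by
  unfold sh
  exact LB.sum fun j _ => (LB_snd M H j).sq_norm

theorem LB_dd (M H : ℝ) : LB (KK J M H) dd := by
  unfold dd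
  exact ((LB_sf M H).mul (LB_sh M H)).sub (LB_gg M H).sq_norm

theorem LB_mm (M H : ℝ) (j : J) : LB (KK J M H) (fun x => mm x j) := by
  unfold mm
  apply LB.mul
  · apply LB.neg
    apply LB.ofReal
    apply LB.mul
    · apply LB.comp (((LB_gg M H).sub (LB.const 1)).norm) (L := 4) (by norm_num)
      · intro s
        rw [abs_of_nonneg (chi_nonneg s)]
        linarith [chi_le_one s]
      · exact chi_lip
    · apply LB.comp (LB_dd M H) (L := 1) (by norm_num)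
      · intro s
        rw [abs_of_nonneg (ivm_nonneg s)]
        exact ivm_le_one s
      · intro s s'
        rw [one_mul]
        exact ivm_lip s s'
  · exact (((LB_sh M H).ofReal).mul (LB_fst M H j).conj).sub ((LB_gg M H).conj.mul (LB_snd M H j))

/-- The coefficients are bounded and Lipschitz on bounded sets. -/
theorem Phi_lip (J : Type*) [Fintype J] (M H : ℝ) : ∃ L : ℝ, 0 ≤ L ∧ ∀ x ∈ KK J M H, ∀ i j,
    ‖Phi x i j‖ ≤ L ∧ ∀ y ∈ KK J M H, ‖Phi x i j - Phi y i j‖ ≤ L * dist x y := by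
  classical
  have h : ∀ i j : J, LB (KK J M H) (fun x => Phi x i j) := fun i j =>
    (LB_snd M H i).mul (LB_mm M H j)
  choose C hC hC2 using h
  refine ⟨∑ i, ∑ j, C i j, Finset.sum_nonneg fun i _ => Finset.sum_nonneg fun j _ => hC i j,
    fun x hx i j => ?_⟩
  have h1 : C i j ≤ ∑ i, ∑ j, C i j := by
    calc C i j ≤ ∑ j, C i j := Finset.single_le_sum (fun j _ => hC i j) (Finset.mem_univ j)
      _ ≤ _ := Finset.single_le_sum (f := fun i => ∑ j, C i j)
        (fun i _ => Finset.sum_nonneg fun j _ => hC i j) (Finset.mem_univ i)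
  refine ⟨((hC2 i j x hx).1).trans h1, fun y hy => ((hC2 i j x hx).2 y hy).trans ?_⟩
  exact mul_le_mul_of_nonneg_right h1 dist_nonneg

end Vec

end Pool.Agent.MPca0fc2.SD
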