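import Mathlib
import Pool.Agent.Lib.MP_ca0fc2_an.SDKer2
import Pool.Agent.Lib.MP_ca0fc2_an.SDVec
import Pool.Agent.Lib.MP_ca0fc2_an.Holo

set_option autoImplicit false

open Metric Set MeasureTheory Filter Topology
open scoped InnerProductSpace

namespace Pool.Agent.MPca0fc2.SD

open Pool.Agent.Lib.MP_ca0fc2_an

variable {J : Type*} [Fintype J]
variable {E : Type*} [NormedAddCommGroup E] [InnerProductSpace ℂ E]

/-- the point `(f(r_k w), h(w))` -/
noncomputable def pt (f h : J → E → ℂ) (k : ℕ) (w : E) : (J → ℂ) × (J → ℂ) :=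
  (fun j => f j ((rr k : ℂ) • w), fun j => h j w)

/-- the standing assumptions on the data -/
structure Dat (f : J → E → ℂ) (e : ℕ → ℝ) (M : ℝ) : Prop where
  grad : ∀ j, Grad (f j) e
  slow : Slow e
  bd : ∀ j, ∀ z ∈ ball (0 : E) 1, ‖f j z‖ ≤ M

/-- the standing assumptions on the approximate solution at level `k` -/
structure Sol (h : J → E → ℂ) (e : ℕ → ℝ) (k : ℕ) (H C : ℝ) : Prop where
  hol : ∀ j, DifferentiableOn ℂ (h j) (ball 0 (1 + (1 / 2) ^ k / 8))
  bd : ∀ j, ∀ z : E, ‖z‖ ≤ 1 → ‖h j z‖ ≤ H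
  osc : ∀ j, ∀ a b : E, ‖a‖ ≤ 1 → ‖b‖ ≤ 1 →
    ‖h j a - h j b‖ ≤ C * (e k * hwt (‖1 - ⟪a, b⟫_ℂ‖) k)

theorem smul_mem_ball_of {r : ℝ} (hr0 : 0 ≤ r) (hr1 : r < 1) {w : E} (hw : ‖w‖ ≤ 1) :
    (r : ℂ) • w ∈ ball (0 : E) 1 := by
  rw [mem_ball_zero_iff, norm_smul, Complex.norm_real, Real.norm_of_nonneg hr0]
  nlinarith [norm_nonneg w]

theorem pt_mem {f h : J → E → ℂ} {e e' : ℕ → ℝ} {M H C : ℝ} {k : ℕ} (hf : Dat f e M)
    (hh : Sol h e' k H C) {w : E} (hw : ‖w‖ ≤ 1) : pt f h k w ∈ KK J M H :=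
  ⟨fun j => hf.bd j _ (smul_mem_ball_of (rr_nonneg k) (rr_lt_one k) hw), fun j => hh.bd j w hw⟩

theorem continuous_gg : Continuous (gg : (J → ℂ) × (J → ℂ) → ℂ) := by
  unfold gg; fun_prop

theorem continuous_dd : Continuous (dd : (J → ℂ) × (J → ℂ) → ℝ) := by
  unfold dd sf sh
  have := continuous_gg (J := J)
  fun_prop

theorem continuous_chi : Continuous chi := by
  unfold chi; fun_prop

theorem continuous_ivm : Continuous ivm := by
  unfold ivm
  apply Continuous.inv₀ (by fun_prop)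
  intro x
  have : (1 : ℝ) ≤ max 1 x := le_max_left _ _
  linarith

theorem continuous_mm (j : J) : Continuous (fun x : (J → ℂ) × (J → ℂ) => mm x j) := by
  unfold mm
  have h1 := continuous_gg (J := J)
  have h2 := continuous_dd (J := J)
  have h3 : Continuous (sh : (J → ℂ) × (J → ℂ) → ℝ) := by unfold sh; fun_prop
  have h4 := continuous_chi.comp ((h1.sub continuous_const).norm (f := fun x => gg x - 1))
  have h5 := continuous_ivm.comp h2
  apply Continuous.mul
  · apply Continuous.neg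
    exact Complex.continuous_ofReal.comp (h4.mul h5)
  · apply Continuous.sub
    · exact (Complex.continuous_ofReal.comp h3).mul
        (Complex.continuous_conj.comp ((continuous_apply j).comp continuous_fst))
    · exact (Complex.continuous_conj.comp h1).mul ((continuous_apply j).comp continuous_snd)

theorem continuous_Phi (i j : J) : Continuous (fun x : (J → ℂ) × (J → ℂ) => Phi x i j) := by
  unfold Phi
  exact ((continuous_apply i).comp continuous_snd).mul (continuous_mm j)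

/-- the integrand of the increment -/
noncomputable def itg (f h : J → E → ℂ) (m k : ℕ) (j : J) (z w : E) : ℂ :=
  (∑ i, (f i ((rr (k + 2) : ℂ) • w) - f i ((rr k : ℂ) • z)) * Phi (pt f h k w) i j) * dK m k w z

theorem dist_pt {f h : J → E → ℂ} {e e' : ℕ → ℝ} {M H C : ℝ} {k : ℕ} (hf : Dat f e M)
    (hh : Sol h e' k H C) (hC : 0 ≤ C) (hee : e k ≤ e' k) {w z : E} (hw : ‖w‖ ≤ 1)
    (hz : ‖z‖ ≤ 1) :
    dist (pt f h k w) (pt f h k z) ≤ (1672 + C) * (e' k * hwt (‖1 - ⟪w, z⟫_ℂ‖) k) := by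
  have hek := hf.slow.nonneg k
  have hq := hwt_nonneg (norm_nonneg (1 - ⟪w, z⟫_ℂ)) k
  have h0 : 0 ≤ e k * hwt (‖1 - ⟪w, z⟫_ℂ‖) k := mul_nonneg hek hq
  have h1 : e k * hwt (‖1 - ⟪w, z⟫_ℂ‖) k ≤ e' k * hwt (‖1 - ⟪w, z⟫_ℂ‖) k :=
    mul_le_mul_of_nonneg_right hee hq
  have h2 : 0 ≤ (1672 + C) * (e' k * hwt (‖1 - ⟪w, z⟫_ℂ‖) k) :=
    mul_nonneg (by positivity) (h0.trans h1)
  rw [Prod.dist_eq]
  apply max_le
  · rw [dist_pi_le_iff h2]
    intro j
    rw [dist_eq_norm]
    refine ((hf.grad j).osc hf.slow k hw hz).trans ?_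
    nlinarith
  · rw [dist_pi_le_iff h2]
    intro j
    rw [dist_eq_norm]
    refine (hh.osc j w z hw hz).trans ?_
    nlinarith

/-- pointwise bound of the integrand -/
theorem itg_bound {f h : J → E → ℂ} {e e' : ℕ → ℝ} {M H C L : ℝ} {m k : ℕ} (hf : Dat f e M)
    (hh : Sol h e' k H C) (hL0 : 0 ≤ L) (hL : ∀ x ∈ KK J M H, ∀ i j, ‖Phi x i j‖ ≤ L)
    (j : J) {w z : E} (hw : ‖w‖ ≤ 1) (hz : ‖z‖ ≤ 1) {η : ℝ} (hη1 : 1 ≤ η)
    (hη2 : η ≤ 1 + (1 / 2) ^ k / 16) :
    ‖itg f h m k j ((η : ℂ) • z) w‖ ≤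
      (Fintype.card J * 1700 * L * ((m + 2) * 8 ^ (m + 3))) * e k * kint m ((1 / 2) ^ k) w z := by
  set W := hwt (‖1 - ⟪w, z⟫_ℂ‖ + (1 / 2) ^ k) k with hW
  have hW1 : 1 ≤ W := hwt_ge_one k w z
  have hek := hf.slow.nonneg k
  have hsmul : (rr k : ℂ) • ((η : ℂ) • z) = ((rr k * η : ℝ) : ℂ) • z := by
    rw [smul_smul]; push_cast; rfl
  rw [itg, norm_mul]
  have h1 : ‖∑ i, (f i ((rr (k + 2) : ℂ) • w) - f i ((rr k : ℂ) • ((η : ℂ) • z))) *
      Phi (pt f h k w) i j‖ ≤ Fintype.card J * (1700 * (e k * W) * L) := by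
    calc _ ≤ ∑ i : J, 1700 * (e k * W) * L := by
          apply norm_sum_le_of_le
          intro i _
          rw [norm_mul]
          apply mul_le_mul _ (hL _ (pt_mem hf hh hw) i j) (norm_nonneg _) (by positivity)
          rw [hsmul]
          exact (hf.grad i).cross hf.slow k hw hz hη1 hη2
      _ = _ := by rw [Finset.sum_const, Finset.card_univ, nsmul_eq_mul]
  have h2 := dK_bound m k hw hz hη1 hη2
  set D : ℝ := (1 / 2) ^ k / (‖1 - ⟪w, z⟫_ℂ‖ + (1 / 2) ^ k) ^ (m + 3) with hD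
  have hD0 : 0 ≤ D := by rw [hD]; positivity
  have hk := hwt_sq_kernel m k w z
  rw [← hW, ← hD] at hk
  calc _ ≤ (Fintype.card J * (1700 * (e k * W) * L)) * (((m + 2) * 8 ^ (m + 3)) * D) := by
        apply mul_le_mul h1 h2 (norm_nonneg _) (by positivity)
    _ = (Fintype.card J * 1700 * L * ((m + 2) * 8 ^ (m + 3))) * e k * (W * D) := by ring
    _ ≤ (Fintype.card J * 1700 * L * ((m + 2) * 8 ^ (m + 3))) * e k * (W * W * D) := by
        apply mul_le_mul_of_nonneg_left _ (by positivity)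
        apply mul_le_mul_of_nonneg_right _ hD0
        nlinarith
    _ = _ := by rw [hk]

theorem itg_cont {f h : J → E → ℂ} {e e' : ℕ → ℝ} {M H C : ℝ} {m k : ℕ} (hf : Dat f e M)
    (hh : Sol h e' k H C) (j : J) {z : E} (hz : ‖z‖ ≤ 1 + (1 / 2) ^ k / 16) :
    ContinuousOn (itg f h m k j z) (ball 0 1) := by
  unfold itg
  have hpow := half_pow_pos k
  apply ContinuousOn.mul
  · apply continuousOn_finsetSum
    intro i _
    apply ContinuousOn.mul
    · apply ContinuousOn.sub _ continuousOn_const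
      apply (hf.grad i).hol.continuousOn.comp (by fun_prop)
      intro w hw
      exact smul_mem_ball_of (rr_nonneg _) (rr_lt_one _) (mem_ball_zero_iff.mp hw).le
    · apply (continuous_Phi i j).comp_continuousOn
      unfold pt
      apply ContinuousOn.prodMk
      · rw [continuousOn_pi]
        intro l
        apply (hf.grad l).hol.continuousOn.comp (by fun_prop)
        intro w hw
        exact smul_mem_ball_of (rr_nonneg _) (rr_lt_one _) (mem_ball_zero_iff.mp hw).le
      · rw [continuousOn_pi]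
        intro l
        apply (hh.hol l).continuousOn.mono
        apply ball_subset_ball
        linarith
  · unfold dK
    have key : ∀ s : ℝ, 0 ≤ s → s * (1 + (1 / 2) ^ k / 16) ≤ 1 - 3 * (1 / 2) ^ k / 16 →
        ContinuousOn (fun w : E => kap m ((s : ℂ) * ⟪w, z⟫_ℂ)) (ball 0 1) := by
      intro s hs0 hs1
      unfold kap
      apply ContinuousOn.div continuousOn_const (by fun_prop)
      intro w hw
      rw [mem_ball_zero_iff] at hw
      apply pow_ne_zero
      intro h0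
      have h1 : (s : ℂ) * ⟪w, z⟫_ℂ = 1 := (sub_eq_zero.mp h0).symm
      have h2 : ‖(s : ℂ) * ⟪w, z⟫_ℂ‖ = 1 := by rw [h1]; simp
      rw [norm_mul, Complex.norm_real, Real.norm_of_nonneg hs0] at h2
      have h3 := norm_inner_le_norm (𝕜 := ℂ) w z
      have h4 : ‖w‖ * ‖z‖ ≤ 1 * (1 + (1 / 2) ^ k / 16) :=
        mul_le_mul hw.le hz (norm_nonneg _) (by norm_num)
      nlinarith
    exact (key _ (sk'_nonneg k) (sk'_eta (by positivity) le_rfl)).sub
      (key _ (sk_nonneg k) (sk_eta (by positivity) le_rfl))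

variable [FiniteDimensional ℂ E] [MeasurableSpace E] [BorelSpace E]

/-- the increment -/
noncomputable def Dl (μ : Measure E) (f h : J → E → ℂ) (m k : ℕ) (j : J) (z : E) : ℂ :=
  ((μ.real (ball 0 1))⁻¹ : ℝ) * ∫ w in ball (0 : E) 1, itg f h m k j z w ∂μ

theorem vol_pos (μ : Measure E) [μ.IsAddHaarMeasure] : 0 < μ.real (ball (0 : E) 1) := by
  have hprop : ProperSpace E := FiniteDimensional.proper ℂ E
  rw [measureReal_def]
  exact ENNReal.toReal_pos (measure_ball_pos μ 0 one_pos).ne' measure_ball_lt_top.ne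

/-- scaling into the closed ball -/
theorem exists_scale {t : ℝ} (ht : 0 ≤ t) {z : E} (hz : ‖z‖ ≤ 1 + t / 16) :
    ∃ z' : E, ‖z'‖ ≤ 1 ∧ z = ((1 + t / 16 : ℝ) : ℂ) • z' := by
  have h0 : (0 : ℝ) < 1 + t / 16 := by positivity
  refine ⟨(((1 + t / 16)⁻¹ : ℝ) : ℂ) • z, ?_, ?_⟩
  · rw [norm_smul, Complex.norm_real, Real.norm_of_nonneg (by positivity), inv_mul_le_iff₀ h0,
      mul_one]
    exact hz
  · rw [smul_smul, ← Complex.ofReal_mul, mul_inv_cancel₀ h0.ne', Complex.ofReal_one, one_smul]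

/-- size and integrability of the increment -/
theorem Dl_bound (J : Type*) [Fintype J] (μ : Measure E) [μ.IsAddHaarMeasure] (m : ℕ) (hm : 1 ≤ m)
    (hdim : Module.finrank ℂ E = m + 1) (M H : ℝ) : ∃ CD : ℝ, 0 < CD ∧
    ∀ (f h : J → E → ℂ) (e e' : ℕ → ℝ) (C : ℝ) (k : ℕ), Dat f e M → Sol h e' k H C →
      ∀ (j : J) (z : E), ‖z‖ ≤ 1 + (1 / 2) ^ k / 16 →
        IntegrableOn (itg f h m k j z) (ball 0 1) μ ∧ ‖Dl μ f h m k j z‖ ≤ CD * e k := by
  obtain ⟨L, hL0, hL⟩ := Phi_lip J M H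
  obtain ⟨CI, hCI0, hCI⟩ := kernel_int μ m hm hdim
  have hv := vol_pos μ
  set A : ℝ := Fintype.card J * 1700 * L * ((m + 2) * 8 ^ (m + 3)) with hA
  have hA0 : 0 ≤ A := by rw [hA]; positivity
  refine ⟨(μ.real (ball (0 : E) 1))⁻¹ * (A * CI) + 1, by positivity, ?_⟩
  intro f h e e' C k hf hh j z hz
  have hek := hf.slow.nonneg k
  have hpow := half_pow_pos k
  obtain ⟨z', hz', hzz'⟩ := exists_scale hpow.le hz
  have hb : ∀ w ∈ ball (0 : E) 1, ‖itg f h m k j z w‖ ≤ A * e k * kint m ((1 / 2) ^ k) w z' := by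
    intro w hw
    rw [hzz']
    exact itg_bound hf hh hL0 (fun x hx i j => (hL x hx i j).1) j (mem_ball_zero_iff.mp hw).le hz'
      (by linarith) le_rfl
  obtain ⟨hi1, hi2⟩ := hCI z' hz' ((1 / 2) ^ k) hpow
  have hi3 : IntegrableOn (fun w => A * e k * kint m ((1 / 2) ^ k) w z') (ball 0 1) μ :=
    hi1.const_mul _
  have hint : IntegrableOn (itg f h m k j z) (ball 0 1) μ := by
    refine Integrable.mono' hi3
      ((itg_cont hf hh j hz).aestronglyMeasurable measurableSet_ball) ?_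
    exact (ae_restrict_iff' measurableSet_ball).mpr (Eventually.of_forall hb)
  refine ⟨hint, ?_⟩
  have h1 : ‖∫ w in ball (0 : E) 1, itg f h m k j z w ∂μ‖ ≤ A * e k * CI := by
    calc _ ≤ ∫ w in ball (0 : E) 1, A * e k * kint m ((1 / 2) ^ k) w z' ∂μ := by
          apply norm_integral_le_of_norm_le hi3
          exact (ae_restrict_iff' measurableSet_ball).mpr (Eventually.of_forall hb)
      _ = A * e k * ∫ w in ball (0 : E) 1, kint m ((1 / 2) ^ k) w z' ∂μ := integral_const_mul _ _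
      _ ≤ _ := mul_le_mul_of_nonneg_left hi2 (by positivity)
  rw [Dl, norm_mul, Complex.norm_real, Real.norm_of_nonneg (by positivity)]
  calc _ ≤ (μ.real (ball (0 : E) 1))⁻¹ * (A * e k * CI) :=
        mul_le_mul_of_nonneg_left h1 (by positivity)
    _ ≤ _ := by nlinarith

/-- the increment is holomorphic -/
theorem Dl_hol (μ : Measure E) [μ.IsAddHaarMeasure] {m : ℕ} (hm : 1 ≤ m)
    (hdim : Module.finrank ℂ E = m + 1) {f h : J → E → ℂ} {e e' : ℕ → ℝ} {M H C : ℝ} {k : ℕ}
    (hf : Dat f e M) (hh : Sol h e' k H C) (j : J) :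
    DifferentiableOn ℂ (Dl μ f h m k j) (ball 0 (1 + (1 / 2) ^ k / 16)) := by
  have hprop : ProperSpace E := FiniteDimensional.proper ℂ E
  obtain ⟨L, hL0, hL⟩ := Phi_lip J M H
  have hpow := half_pow_pos k
  have hpow1 := half_pow_le_one k
  intro z₀ hz₀
  apply DifferentiableAt.differentiableWithinAt
  obtain ⟨r, hr, hsub⟩ := Metric.isOpen_iff.mp isOpen_ball z₀ hz₀
  unfold Dl
  apply DifferentiableAt.const_mul
  set A : ℝ := Fintype.card J * 1700 * L * ((m + 2) * 8 ^ (m + 3)) with hA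
  have hA0 : 0 ≤ A := by rw [hA]; positivity
  set B : ℝ := A * e k * (Real.sqrt ((1 / 2) ^ k) *
    (1 / (1 / 2) ^ k) ^ ((m + 2 : ℝ) + 1 / 2)) with hB
  have hfin : IsFiniteMeasure (μ.restrict (ball (0 : E) 1)) :=
    ⟨by rw [Measure.restrict_apply_univ]; exact measure_ball_lt_top⟩
  apply differentiableAt_integral hr (g := fun _ => B)
  · refine (ae_restrict_iff' measurableSet_ball).mpr (Eventually.of_forall fun w hw => ?_)
    rw [mem_ball_zero_iff] at hw
    intro z hz
    apply DifferentiableAt.differentiableWithinAt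
    have hz' := mem_ball_zero_iff.mp (hsub hz)
    unfold itg
    apply DifferentiableAt.mul
    · apply DifferentiableAt.fun_sum
      intro i _
      apply DifferentiableAt.mul_const
      apply (differentiableAt_const _).sub
      have h1 : (rr k : ℂ) • z ∈ ball (0 : E) 1 := by
        rw [mem_ball_zero_iff, norm_smul, Complex.norm_real, Real.norm_of_nonneg (rr_nonneg k)]
        have : rr k = 1 - (1 / 2) ^ k := rfl
        nlinarith [rr_nonneg k, norm_nonneg z]
      have h2 := (hf.grad i).hol.differentiableAt (isOpen_ball.mem_nhds h1)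
      exact DifferentiableAt.comp z (f := fun z : E => (rr k : ℂ) • z) h2
        (differentiableAt_id.const_smul _)
    · unfold dK
      have key : ∀ s : ℝ, 0 ≤ s → s * (1 + (1 / 2) ^ k / 16) ≤ 1 - 3 * (1 / 2) ^ k / 16 →
          DifferentiableAt ℂ (fun z : E => kap m ((s : ℂ) * ⟪w, z⟫_ℂ)) z := by
        intro s hs0 hs1
        unfold kap
        have h3 : DifferentiableAt ℂ (fun z : E => (1 - (s : ℂ) * ⟪w, z⟫_ℂ) ^ (m + 2)) z := by
          apply DifferentiableAt.pow
          apply (differentiableAt_const _).sub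
          apply DifferentiableAt.const_mul
          exact (innerSL ℂ w).differentiableAt
        have h4 : (1 - (s : ℂ) * ⟪w, z⟫_ℂ) ^ (m + 2) ≠ 0 := by
          apply pow_ne_zero
          intro h0
          have h1 : (s : ℂ) * ⟪w, z⟫_ℂ = 1 := (sub_eq_zero.mp h0).symm
          have h2 : ‖(s : ℂ) * ⟪w, z⟫_ℂ‖ = 1 := by rw [h1]; simp
          rw [norm_mul, Complex.norm_real, Real.norm_of_nonneg hs0] at h2
          have h3 := norm_inner_le_norm (𝕜 := ℂ) w z
          have h4 : ‖w‖ * ‖z‖ ≤ 1 * (1 + (1 / 2) ^ k / 16) :=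
            mul_le_mul hw.le hz'.le (norm_nonneg _) (by norm_num)
          nlinarith
        have h5 := h3.inv h4
        refine h5.congr_of_eventuallyEq (Eventually.of_forall fun b => ?_)
        simp
      exact (key _ (sk'_nonneg k) (sk'_eta (by positivity) le_rfl)).sub
        (key _ (sk_nonneg k) (sk_eta (by positivity) le_rfl))
  · intro z hz
    have hz' := mem_ball_zero_iff.mp (hsub hz)
    exact (itg_cont hf hh j hz'.le).aestronglyMeasurable measurableSet_ball
  · exact integrable_const _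
  · refine (ae_restrict_iff' measurableSet_ball).mpr (Eventually.of_forall fun w hw z hz => ?_)
    have hz1 := mem_ball_zero_iff.mp (hsub hz)
    obtain ⟨z', hz', hzz'⟩ := exists_scale hpow.le hz1.le
    rw [hzz']
    refine (itg_bound hf hh hL0 (fun x hx i j => (hL x hx i j).1) j
      (mem_ball_zero_iff.mp hw).le hz' (by linarith) le_rfl).trans ?_
    have hek := hf.slow.nonneg k
    rw [hB]
    apply mul_le_mul_of_nonneg_left _ (by positivity)
    unfold kint
    apply mul_le_mul_of_nonneg_left _ (Real.sqrt_nonneg _)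
    apply Real.rpow_le_rpow (by positivity) _ (by positivity)
    apply one_div_le_one_div_of_le hpow
    linarith [norm_nonneg (1 - ⟪w, z'⟫_ℂ)]

end Pool.Agent.MPca0fc2.SD
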