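import Mathlib
import Pool.Agent.Lib.MP_ca0fc2_an.SDStep

set_option autoImplicit false

open Metric Set MeasureTheory Filter Topology
open scoped InnerProductSpace

namespace Pool.Agent.MPca0fc2.SD

open Pool.Agent.Lib.MP_ca0fc2_an

variable {J : Type*} [Fintype J]
variable {E : Type*} [NormedAddCommGroup E] [InnerProductSpace ℂ E]
variable [FiniteDimensional ℂ E] [MeasurableSpace E] [BorelSpace E]

theorem kap_int (μ : Measure E) [μ.IsAddHaarMeasure] (m : ℕ) (hm : 1 ≤ m)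
    (hdim : Module.finrank ℂ E = m + 1) {F : E → ℂ} {R : ℝ} (hR : 1 < R)
    (hF : DifferentiableOn ℂ F (ball 0 R)) {s : ℝ} (hs0 : 0 ≤ s) (hs1 : s < 1) {z : E}
    (hz : ‖z‖ ≤ 1) :
    IntegrableOn (fun w => F w * kap m ((s : ℂ) * ⟪w, z⟫_ℂ)) (ball 0 1) μ ∧
    ∫ w in ball (0 : E) 1, F w * kap m ((s : ℂ) * ⟪w, z⟫_ℂ) ∂μ =
      (μ.real (ball 0 1) : ℂ) * F ((s : ℂ) • z) := by
  have hprop : ProperSpace E := FiniteDimensional.proper ℂ E
  constructor
  · have h1 : ContinuousOn (fun w => F w * kap m ((s : ℂ) * ⟪w, z⟫_ℂ)) (closedBall 0 1) := by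
      apply ContinuousOn.mul (hF.continuousOn.mono (closedBall_subset_ball hR))
      unfold kap
      apply ContinuousOn.div continuousOn_const (by fun_prop)
      intro w hw
      rw [mem_closedBall_zero_iff] at hw
      apply pow_ne_zero
      intro h0
      have h1 : (s : ℂ) * ⟪w, z⟫_ℂ = 1 := (sub_eq_zero.mp h0).symm
      have h2 : ‖(s : ℂ) * ⟪w, z⟫_ℂ‖ = 1 := by rw [h1]; simp
      rw [norm_mul, Complex.norm_real, Real.norm_of_nonneg hs0] at h2
      have h3 := norm_inner_le_one hw hz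
      nlinarith
    exact (h1.integrableOn_compact (isCompact_closedBall _ _)).mono_set ball_subset_closedBall
  · have hzs : ‖(s : ℂ) • z‖ < 1 := by
      rw [norm_smul, Complex.norm_real, Real.norm_of_nonneg hs0]
      nlinarith [norm_nonneg z]
    have h := bergman_ball μ m hm hdim hR hF hzs
    rw [← h]
    apply setIntegral_congr_fun measurableSet_ball
    intro w _
    simp only [kap, inner_smul_right]
    rw [mul_one_div]

theorem repro (μ : Measure E) [μ.IsAddHaarMeasure] (m : ℕ) (hm : 1 ≤ m)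
    (hdim : Module.finrank ℂ E = m + 1) {g : E → ℂ} (hg : DifferentiableOn ℂ g (ball 0 1))
    (k : ℕ) {z : E} (hz : ‖z‖ ≤ 1) :
    IntegrableOn (fun w => (g ((rr (k + 2) : ℂ) • w) - g ((rr k : ℂ) • z)) * dK m k w z)
      (ball 0 1) μ ∧
    ∫ w in ball (0 : E) 1, (g ((rr (k + 2) : ℂ) • w) - g ((rr k : ℂ) • z)) * dK m k w z ∂μ =
      (μ.real (ball 0 1) : ℂ) * (g ((rr (k + 1) : ℂ) • z) - g ((rr k : ℂ) • z)) := by
  have hρ0 := rr_two_pos k
  have hρ1 := rr_lt_one (k + 2)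
  have hR : 1 < 1 / rr (k + 2) := by rw [lt_div_iff₀ hρ0]; linarith
  have hF : DifferentiableOn ℂ (fun w : E => g ((rr (k + 2) : ℂ) • w))
      (ball 0 (1 / rr (k + 2))) :=
    diffOn_dil hg hρ0.le (by rw [mul_one_div_cancel hρ0.ne']) (by positivity) (by simp)
  have h1 : DifferentiableOn ℂ (fun _ : E => (1 : ℂ)) (ball 0 (1 / rr (k + 2))) :=
    differentiableOn_const _
  have hpow := half_pow_pos k
  have hs'1 : sk' k < 1 := by linarith [sk'_le k]
  have hs1 : sk k < 1 := lt_of_le_of_lt (sk_le_sk' k) hs'1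
  obtain ⟨i1, e1⟩ := kap_int μ m hm hdim hR hF (sk'_nonneg k) hs'1 hz
  obtain ⟨i2, e2⟩ := kap_int μ m hm hdim hR hF (sk_nonneg k) hs1 hz
  obtain ⟨i3, e3⟩ := kap_int μ m hm hdim hR h1 (sk'_nonneg k) hs'1 hz
  obtain ⟨i4, e4⟩ := kap_int μ m hm hdim hR h1 (sk_nonneg k) hs1 hz
  set c := g ((rr k : ℂ) • z) with hc
  have hfun : (fun w => (g ((rr (k + 2) : ℂ) • w) - c) * dK m k w z) = fun w : E =>
      (g ((rr (k + 2) : ℂ) • w) * kap m ((sk' k : ℂ) * ⟪w, z⟫_ℂ) -
      g ((rr (k + 2) : ℂ) • w) * kap m ((sk k : ℂ) * ⟪w, z⟫_ℂ)) -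
      (c * (1 * kap m ((sk' k : ℂ) * ⟪w, z⟫_ℂ)) - c * (1 * kap m ((sk k : ℂ) * ⟪w, z⟫_ℂ))) := by
    funext w
    rw [dK]; ring
  have j1 : IntegrableOn (fun w : E => g ((rr (k + 2) : ℂ) • w) *
      kap m ((sk' k : ℂ) * ⟪w, z⟫_ℂ) -
      g ((rr (k + 2) : ℂ) • w) * kap m ((sk k : ℂ) * ⟪w, z⟫_ℂ)) (ball 0 1) μ := i1.sub i2
  have j2 : IntegrableOn (fun w : E => c * (1 * kap m ((sk' k : ℂ) * ⟪w, z⟫_ℂ)) -
      c * (1 * kap m ((sk k : ℂ) * ⟪w, z⟫_ℂ))) (ball 0 1) μ :=
    (i3.const_mul c).sub (i4.const_mul c)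
  constructor
  · rw [hfun]
    exact j1.sub j2
  · rw [hfun]
    have c3 : ∫ w in ball (0 : E) 1, c * (1 * kap m ((sk' k : ℂ) * ⟪w, z⟫_ℂ)) ∂μ =
        c * ((μ.real (ball 0 1) : ℂ) * 1) := by
      rw [← e3]; exact integral_const_mul _ _
    have c4 : ∫ w in ball (0 : E) 1, c * (1 * kap m ((sk k : ℂ) * ⟪w, z⟫_ℂ)) ∂μ =
        c * ((μ.real (ball 0 1) : ℂ) * 1) := by
      rw [← e4]; exact integral_const_mul _ _
    rw [integral_sub j1 j2, integral_sub i1 i2, integral_sub (i3.const_mul c) (i4.const_mul c),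
      c3, c4, e1, e2]
    have k1 : (rr (k + 2) : ℂ) • (sk' k : ℂ) • z = (rr (k + 1) : ℂ) • z := by
      rw [smul_smul, ← Complex.ofReal_mul, mul_comm, sk'_mul]
    have k2 : (rr (k + 2) : ℂ) • (sk k : ℂ) • z = (rr k : ℂ) • z := by
      rw [smul_smul, ← Complex.ofReal_mul, mul_comm, sk_mul]
    simp only [k1, k2]
    ring

/-- The increment agrees with the frozen coefficient increment up to second order. -/
theorem Dl_err (J : Type*) [Fintype J] (μ : Measure E) [μ.IsAddHaarMeasure] (m : ℕ) (hm : 1 ≤ m)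
    (hdim : Module.finrank ℂ E = m + 1) (M H C : ℝ) (hC : 0 ≤ C) : ∃ CE : ℝ, 0 < CE ∧
    ∀ (f h : J → E → ℂ) (e e' : ℕ → ℝ) (k : ℕ), Dat f e M → Sol h e' k H C → e k ≤ e' k →
      ∀ (j : J) (z : E), ‖z‖ ≤ 1 →
        ‖Dl μ f h m k j z - ∑ i, (f i ((rr (k + 1) : ℂ) • z) - f i ((rr k : ℂ) • z)) *
          Phi (pt f h k z) i j‖ ≤ CE * (e k * e' k) := by
  obtain ⟨L, hL0, hL⟩ := Phi_lip J M H
  obtain ⟨CI, hCI0, hCI⟩ := kernel_int μ m hm hdim
  have hv := vol_pos μ
  set A : ℝ := Fintype.card J * 1700 * (L * (1672 + C)) * ((m + 2) * 8 ^ (m + 3)) with hA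
  have hA0 : 0 ≤ A := by rw [hA]; positivity
  refine ⟨(μ.real (ball (0 : E) 1))⁻¹ * (A * CI) + 1, by positivity, ?_⟩
  intro f h e e' k hf hh hee j z hz
  have hek := hf.slow.nonneg k
  have hek' : 0 ≤ e' k := hek.trans hee
  have hpow := half_pow_pos k
  obtain ⟨CD, hCD0, hCD⟩ := Dl_bound J μ m hm hdim M H
  have hint := (hCD f h e e' C k hf hh j z (by linarith)).1
  -- the frozen increment as an integral
  have hrep : ∀ i : J, IntegrableOn (fun w => (f i ((rr (k + 2) : ℂ) • w) -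
      f i ((rr k : ℂ) • z)) * dK m k w z) (ball 0 1) μ ∧ _ :=
    fun i => repro μ m hm hdim (hf.grad i).hol k hz
  have hfro : ((μ.real (ball (0 : E) 1))⁻¹ : ℝ) * ∫ w in ball (0 : E) 1, (∑ i,
      (f i ((rr (k + 2) : ℂ) • w) - f i ((rr k : ℂ) • z)) * dK m k w z *
        Phi (pt f h k z) i j) ∂μ =
      ∑ i, (f i ((rr (k + 1) : ℂ) • z) - f i ((rr k : ℂ) • z)) * Phi (pt f h k z) i j := by
    rw [integral_finsetSum _ (fun i _ => ((hrep i).1.mul_const _))]
    simp only [integral_mul_const, (hrep _).2]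
    rw [Finset.mul_sum]
    refine Finset.sum_congr rfl fun i _ => ?_
    have hv' : ((μ.real (ball (0 : E) 1) : ℝ) : ℂ) ≠ 0 := by exact_mod_cast hv.ne'
    rw [Complex.ofReal_inv]
    field_simp
  have hintf : IntegrableOn (fun w => ∑ i, (f i ((rr (k + 2) : ℂ) • w) - f i ((rr k : ℂ) • z)) *
      dK m k w z * Phi (pt f h k z) i j) (ball 0 1) μ :=
    integrable_finsetSum _ fun i _ => ((hrep i).1.mul_const _)
  rw [← hfro, Dl, ← mul_sub, ← integral_sub hint hintf]
  -- pointwise bound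
  have hb : ∀ w ∈ ball (0 : E) 1, ‖itg f h m k j z w - ∑ i, (f i ((rr (k + 2) : ℂ) • w) -
      f i ((rr k : ℂ) • z)) * dK m k w z * Phi (pt f h k z) i j‖ ≤
      A * (e k * e' k) * kint m ((1 / 2) ^ k) w z := by
    intro w hw
    have hw1 := (mem_ball_zero_iff.mp hw).le
    set W := hwt (‖1 - ⟪w, z⟫_ℂ‖ + (1 / 2) ^ k) k with hW
    have hW1 : 1 ≤ W := hwt_ge_one k w z
    have e1 : itg f h m k j z w - ∑ i, (f i ((rr (k + 2) : ℂ) • w) -
        f i ((rr k : ℂ) • z)) * dK m k w z * Phi (pt f h k z) i j =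
        (∑ i, (f i ((rr (k + 2) : ℂ) • w) - f i ((rr k : ℂ) • z)) *
          (Phi (pt f h k w) i j - Phi (pt f h k z) i j)) * dK m k w z := by
      rw [itg, Finset.sum_mul, Finset.sum_mul, ← Finset.sum_sub_distrib]
      refine Finset.sum_congr rfl fun i _ => ?_
      ring
    rw [e1, norm_mul]
    have h1 : ‖∑ i, (f i ((rr (k + 2) : ℂ) • w) - f i ((rr k : ℂ) • z)) *
        (Phi (pt f h k w) i j - Phi (pt f h k z) i j)‖ ≤
        Fintype.card J * (1700 * (e k * W) * (L * (1672 + C) * (e' k * W))) := by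
      calc _ ≤ ∑ i : J, 1700 * (e k * W) * (L * (1672 + C) * (e' k * W)) := by
            apply norm_sum_le_of_le
            intro i _
            rw [norm_mul]
            apply mul_le_mul _ _ (norm_nonneg _) (by positivity)
            · have := (hf.grad i).cross hf.slow k hw1 hz (η := 1) le_rfl (by linarith)
              rw [mul_one] at this
              exact this
            · refine ((hL _ (pt_mem hf hh hw1) i j).2 _ (pt_mem hf hh hz)).trans ?_
              rw [mul_assoc]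
              apply mul_le_mul_of_nonneg_left _ hL0
              refine (dist_pt hf hh hC hee hw1 hz).trans ?_
              apply mul_le_mul_of_nonneg_left _ (by positivity)
              exact mul_le_mul_of_nonneg_left (hwt_mono k w z) hek'
        _ = _ := by rw [Finset.sum_const, Finset.card_univ, nsmul_eq_mul]
    have h2 := dK_bound m k hw1 hz (η := 1) le_rfl (by linarith)
    rw [Complex.ofReal_one, one_smul] at h2
    set D : ℝ := (1 / 2) ^ k / (‖1 - ⟪w, z⟫_ℂ‖ + (1 / 2) ^ k) ^ (m + 3) with hD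
    have hD0 : 0 ≤ D := by rw [hD]; positivity
    have hk := hwt_sq_kernel m k w z
    rw [← hW, ← hD] at hk
    calc _ ≤ (Fintype.card J * (1700 * (e k * W) * (L * (1672 + C) * (e' k * W)))) *
          (((m + 2) * 8 ^ (m + 3)) * D) := by
          apply mul_le_mul h1 h2 (norm_nonneg _) (by positivity)
      _ = (Fintype.card J * 1700 * (L * (1672 + C)) * ((m + 2) * 8 ^ (m + 3))) * (e k * e' k) *
          (W * W * D) := by ring
      _ = _ := by rw [hk]
  obtain ⟨hi1, hi2⟩ := hCI z hz ((1 / 2) ^ k) hpow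
  have hi3 : IntegrableOn (fun w => A * (e k * e' k) * kint m ((1 / 2) ^ k) w z)
      (ball 0 1) μ := hi1.const_mul _
  rw [norm_mul, Complex.norm_real, Real.norm_of_nonneg (by positivity)]
  have h1 : ‖∫ w in ball (0 : E) 1, (itg f h m k j z w - ∑ i, (f i ((rr (k + 2) : ℂ) • w) -
      f i ((rr k : ℂ) • z)) * dK m k w z * Phi (pt f h k z) i j) ∂μ‖ ≤
      A * (e k * e' k) * CI := by
    calc _ ≤ ∫ w in ball (0 : E) 1, A * (e k * e' k) * kint m ((1 / 2) ^ k) w z ∂μ := by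
          apply norm_integral_le_of_norm_le hi3
          exact (ae_restrict_iff' measurableSet_ball).mpr (Eventually.of_forall hb)
      _ = A * (e k * e' k) * ∫ w in ball (0 : E) 1, kint m ((1 / 2) ^ k) w z ∂μ :=
        integral_const_mul _ _
      _ ≤ _ := mul_le_mul_of_nonneg_left hi2 (by positivity)
  calc _ ≤ (μ.real (ball (0 : E) 1))⁻¹ * (A * (e k * e' k) * CI) :=
        mul_le_mul_of_nonneg_left h1 (by positivity)
    _ ≤ _ := by nlinarith [mul_nonneg hek hek']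

end Pool.Agent.MPca0fc2.SD
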