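import Mathlib
import Pool.Agent.Lib.MP_ca0fc2_an.SDErr

set_option autoImplicit false

open Metric Set MeasureTheory Filter Topology
open scoped InnerProductSpace

namespace Pool.Agent.MPca0fc2.SD

open Pool.Agent.Lib.MP_ca0fc2_an

/-- the algebra of the first order part of the increment -/
theorem first_order {J : Type*} [Fintype J] (x : (J → ℂ) × (J → ℂ)) (d : J → ℂ) (j : J) :
    ∑ i, d i * Phi x i j = (∑ i, d i * x.2 i) * mm x j := by
  rw [Finset.sum_mul]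
  refine Finset.sum_congr rfl fun i _ => ?_
  rw [Phi]; ring

theorem sh_change {J : Type*} [Fintype J] (x : (J → ℂ) × (J → ℂ)) (d y : J → ℂ) {H D R : ℝ}
    (hH : ∀ j, ‖x.2 j‖ ≤ H) (hD : ∀ j, ‖y j‖ ≤ D)
    (hR : ∀ j, ‖y j - ∑ i, d i * Phi x i j‖ ≤ R) :
    |∑ j, ‖x.2 j + y j‖ ^ 2 - ∑ j, ‖x.2 j‖ ^ 2| ≤ Fintype.card J * (2 * H * R + D ^ 2) := by
  have h1 : ∑ j, ‖x.2 j + y j‖ ^ 2 - ∑ j, ‖x.2 j‖ ^ 2 =
      2 * (∑ j, (starRingEnd ℂ) (x.2 j) * (y j - ∑ i, d i * Phi x i j)).re +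
        ∑ j, ‖y j‖ ^ 2 := by
    have h2 : ∑ j, (starRingEnd ℂ) (x.2 j) * (y j - ∑ i, d i * Phi x i j) =
        ∑ j, (starRingEnd ℂ) (x.2 j) * y j := by
      simp only [mul_sub, Finset.sum_sub_distrib]
      have h3 : ∑ j, (starRingEnd ℂ) (x.2 j) * ∑ i, d i * Phi x i j = 0 := by
        simp only [first_order]
        calc ∑ j, (starRingEnd ℂ) (x.2 j) * ((∑ i, d i * x.2 i) * mm x j)
            = (∑ i, d i * x.2 i) * ∑ j, mm x j * (starRingEnd ℂ) (x.2 j) := by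
              rw [Finset.mul_sum]
              refine Finset.sum_congr rfl fun j _ => ?_
              ring
          _ = 0 := by rw [sum_mm_conj, mul_zero]
      rw [h3, sub_zero]
    rw [h2, ← Finset.sum_sub_distrib, Complex.re_sum, Finset.mul_sum, ← Finset.sum_add_distrib]
    refine Finset.sum_congr rfl fun j _ => ?_
    simp only [Complex.sq_norm, Complex.normSq_apply, Complex.add_re, Complex.add_im,
      Complex.mul_re, Complex.conj_re, Complex.conj_im]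
    ring
  rw [h1]
  have h4 : ‖∑ j, (starRingEnd ℂ) (x.2 j) * (y j - ∑ i, d i * Phi x i j)‖ ≤
      Fintype.card J * (H * R) := by
    calc _ ≤ ∑ j : J, H * R := by
          apply norm_sum_le_of_le
          intro j _
          rw [norm_mul, RCLike.norm_conj]
          exact mul_le_mul (hH j) (hR j) (norm_nonneg _) ((norm_nonneg _).trans (hH j))
      _ = _ := by rw [Finset.sum_const, Finset.card_univ, nsmul_eq_mul]
  have h5 : ∑ j, ‖y j‖ ^ 2 ≤ Fintype.card J * D ^ 2 := by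
    calc ∑ j, ‖y j‖ ^ 2 ≤ ∑ j : J, D ^ 2 :=
          Finset.sum_le_sum fun j _ => pow_le_pow_left₀ (norm_nonneg _) (hD j) 2
      _ = _ := by rw [Finset.sum_const, Finset.card_univ, nsmul_eq_mul]
  have h6 : 0 ≤ ∑ j, ‖y j‖ ^ 2 := Finset.sum_nonneg fun j _ => sq_nonneg _
  have h7 := Complex.abs_re_le_norm
    (∑ j, (starRingEnd ℂ) (x.2 j) * (y j - ∑ i, d i * Phi x i j))
  rw [abs_le] at h7 ⊢
  constructor <;> nlinarith [h7.1, h7.2]

theorem gg_change {J : Type*} [Fintype J] (x : (J → ℂ) × (J → ℂ)) (d y : J → ℂ) {M D R S : ℝ}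
    (hM : ∀ j, ‖x.1 j‖ ≤ M) (hD : ∀ j, ‖y j‖ ≤ D) (hS : ∀ j, ‖d j‖ ≤ S)
    (hR : ∀ j, ‖y j - ∑ i, d i * Phi x i j‖ ≤ R) (h1 : ‖gg x - 1‖ ≤ 1 / 4) (h2 : 1 ≤ dd x) :
    ‖∑ j, (x.1 j + d j) * (x.2 j + y j) - gg x‖ ≤ Fintype.card J * (M * R + S * D) := by
  have h3 : ∑ j, x.1 j * mm x j = -1 := by
    rw [sum_f_mm, chi_eq_one h1]
    have : ivm (dd x) = (dd x)⁻¹ := by unfold ivm; rw [max_eq_right h2]
    rw [this, one_mul, inv_mul_cancel₀ (by linarith)]
    simp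
  have h4 : ∑ j, x.1 j * ∑ i, d i * Phi x i j = - ∑ i, d i * x.2 i := by
    simp only [first_order]
    calc ∑ j, x.1 j * ((∑ i, d i * x.2 i) * mm x j)
        = (∑ i, d i * x.2 i) * ∑ j, x.1 j * mm x j := by
          rw [Finset.mul_sum]
          refine Finset.sum_congr rfl fun j _ => ?_
          ring
      _ = _ := by rw [h3]; ring
  have h5 : ∑ j, (x.1 j + d j) * (x.2 j + y j) - gg x =
      ∑ j, (x.1 j * (y j - ∑ i, d i * Phi x i j) + d j * y j) := by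
    have e1 : ∑ j, (x.1 j * (y j - ∑ i, d i * Phi x i j) + d j * y j) =
        ∑ j, x.1 j * y j - ∑ j, x.1 j * ∑ i, d i * Phi x i j + ∑ j, d j * y j := by
      rw [← Finset.sum_sub_distrib, ← Finset.sum_add_distrib]
      refine Finset.sum_congr rfl fun j _ => ?_
      ring
    rw [e1, h4, gg, ← Finset.sum_sub_distrib, sub_neg_eq_add, ← Finset.sum_add_distrib,
      ← Finset.sum_add_distrib]
    refine Finset.sum_congr rfl fun j _ => ?_
    ring
  rw [h5]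
  calc _ ≤ ∑ j : J, (M * R + S * D) := by
        apply norm_sum_le_of_le
        intro j _
        refine (norm_add_le _ _).trans ?_
        rw [norm_mul, norm_mul]
        apply add_le_add
        · exact mul_le_mul (hM j) (hR j) (norm_nonneg _) ((norm_nonneg _).trans (hM j))
        · exact mul_le_mul (hS j) (hD j) (norm_nonneg _) ((norm_nonneg _).trans (hS j))
    _ = _ := by rw [Finset.sum_const, Finset.card_univ, nsmul_eq_mul]

theorem dd_ge {J : Type*} [Fintype J] (x : (J → ℂ) × (J → ℂ)) {δ : ℝ} (hδ : 0 < δ)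
    (h1 : δ ≤ sf x) (h2 : 4 / δ ≤ sh x) (h3 : ‖gg x - 1‖ ≤ 1 / 4) : 1 ≤ dd x := by
  have h4 : ‖gg x‖ ≤ 5 / 4 := by
    calc ‖gg x‖ = ‖(gg x - 1) + 1‖ := by congr 1; ring
      _ ≤ ‖gg x - 1‖ + ‖(1 : ℂ)‖ := norm_add_le _ _
      _ ≤ _ := by rw [norm_one]; linarith
  have h5 : 4 ≤ sf x * sh x := by
    calc (4 : ℝ) = δ * (4 / δ) := by field_simp
      _ ≤ _ := mul_le_mul h1 h2 (by positivity) (hδ.le.trans h1)
  unfold dd
  nlinarith [norm_nonneg (gg x)]

variable {E : Type*} [NormedAddCommGroup E] [InnerProductSpace ℂ E]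
variable [FiniteDimensional ℂ E] [MeasurableSpace E] [BorelSpace E]

/-- one step of the flow -/
noncomputable def nx {J : Type*} [Fintype J] (μ : Measure E) (f h : J → E → ℂ) (m k : ℕ)
    (j : J) (z : E) : ℂ := h j z + Dl μ f h m k j z

/-- the constants of one step of the flow -/
theorem step (J : Type*) [Fintype J] (μ : Measure E) [μ.IsAddHaarMeasure] (m : ℕ) (hm : 1 ≤ m)
    (hdim : Module.finrank ℂ E = m + 1) (M H C0 : ℝ) : ∃ C C1 : ℝ, C0 ≤ C ∧ 0 < C ∧ 0 < C1 ∧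
    ∀ (f h : J → E → ℂ) (e e' : ℕ → ℝ) (k : ℕ), Dat f e M → Slow e' → (∀ k, e k ≤ e' k) →
      Sol h e' k H C →
      (∀ j, DifferentiableOn ℂ (nx μ f h m k j) (ball 0 (1 + (1 / 2) ^ (k + 1) / 8))) ∧
      (∀ j, ∀ a b : E, ‖a‖ ≤ 1 → ‖b‖ ≤ 1 →
        ‖nx μ f h m k j a - nx μ f h m k j b‖ ≤
          C * (e' (k + 1) * hwt (‖1 - ⟪a, b⟫_ℂ‖) (k + 1))) ∧
      (∀ z : E, ‖z‖ ≤ 1 → |∑ j, ‖nx μ f h m k j z‖ ^ 2 - ∑ j, ‖h j z‖ ^ 2| ≤
        C1 * (e k * e' k)) ∧
      (∀ z : E, ‖z‖ ≤ 1 → ‖gg (pt f h k z) - 1‖ ≤ 1 / 4 → 1 ≤ dd (pt f h k z) →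
        ‖gg (pt f (nx μ f h m k) (k + 1) z) - gg (pt f h k z)‖ ≤ C1 * (e k * e' k)) := by
  obtain ⟨CD, hCD0, hCD⟩ := Dl_bound J μ m hm hdim M H
  set C : ℝ := max C0 (456 * CD) with hC
  have hC456 : 456 * CD ≤ C := le_max_right _ _
  have hCpos : 0 < C := lt_of_lt_of_le (by positivity) hC456
  obtain ⟨CE, hCE0, hCE⟩ := Dl_err J μ m hm hdim M H C hCpos.le
  set C1 : ℝ := Fintype.card J * (2 * |H| * CE + CD ^ 2) +
    Fintype.card J * (|M| * CE + 2 * CD) + 1 with hC1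
  refine ⟨C, C1, le_max_left _ _, hCpos, by positivity, ?_⟩
  intro f h e e' k hf hs' hee hh
  have hpow := half_pow_pos k
  have hek := hf.slow.nonneg k
  have hek' := hs'.nonneg k
  have heek := hee k
  have hrad : (1 + (1 / 2) ^ (k + 1) / 8 : ℝ) = 1 + (1 / 2) ^ k / 16 := by
    rw [pow_succ]; ring
  have hhol : ∀ j, DifferentiableOn ℂ (Dl μ f h m k j) (ball 0 (1 + (1 / 2) ^ k / 16)) :=
    fun j => Dl_hol μ hm hdim hf hh j
  have hb : ∀ j, ∀ z : E, ‖z‖ ≤ 1 + (1 / 2) ^ k / 16 → ‖Dl μ f h m k j z‖ ≤ CD * e k :=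
    fun j z hz => (hCD f h e e' _ k hf hh j z hz).2
  have hd : ∀ j, ∀ z : E, ‖z‖ ≤ 1 →
      ‖f j ((rr (k + 1) : ℂ) • z) - f j ((rr k : ℂ) • z)‖ ≤ 2 * e k := by
    intro j z hz
    have hss : rr k ≤ rr (k + 1) := by rw [rr_succ]; linarith
    have h1 := (hf.grad j).radial (k := k + 1) (rr_nonneg k) hss (z := z)
      (by nlinarith [rr_nonneg (k + 1), norm_nonneg z])
    have h2 : (rr (k + 1) - rr k) * ‖z‖ * (e (k + 1) / (1 / 2) ^ (k + 1)) =
        ‖z‖ * e (k + 1) := by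
      rw [rr_succ, pow_succ]; field_simp; ring
    rw [h2] at h1
    have h3 := hf.slow.up k
    have h4 := hf.slow.nonneg (k + 1)
    nlinarith [norm_nonneg z]
  refine ⟨?_, ?_, ?_, ?_⟩
  · intro j
    rw [hrad]
    unfold nx
    apply DifferentiableOn.add _ (hhol j)
    apply (hh.hol j).mono
    apply ball_subset_ball
    linarith
  · intro j a b ha hb'
    have h1 := hh.osc j a b ha hb'
    have h2 := osc_bound hpow (B := CD * e k) (by positivity) (hhol j)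
      (fun z hz => hb j z (mem_ball_zero_iff.mp hz).le) ha hb'
    have h3 : (‖1 - ⟪a, b⟫_ℂ‖ / (1 / 2) ^ k) ^ (1 / 4 : ℝ) = hwt (‖1 - ⟪a, b⟫_ℂ‖) k := rfl
    rw [h3] at h2
    have h4 := hwt_succ (norm_nonneg (1 - ⟪a, b⟫_ℂ)) k
    have h5 := hs'.down k
    have h6 := hwt_nonneg (norm_nonneg (1 - ⟪a, b⟫_ℂ)) k
    have h6' := hwt_nonneg (norm_nonneg (1 - ⟪a, b⟫_ℂ)) (k + 1)
    have h5' := hs'.nonneg (k + 1)
    have h7 : e' k * hwt (‖1 - ⟪a, b⟫_ℂ‖) k ≤
        (11 / 10 * e' (k + 1)) * (19 / 22 * hwt (‖1 - ⟪a, b⟫_ℂ‖) (k + 1)) := by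
      apply mul_le_mul h5 h4 h6
      positivity
    have h7' : e k * hwt (‖1 - ⟪a, b⟫_ℂ‖) k ≤ e' k * hwt (‖1 - ⟪a, b⟫_ℂ‖) k :=
      mul_le_mul_of_nonneg_right heek h6
    have h8 : ‖nx μ f h m k j a - nx μ f h m k j b‖ ≤
        (C + 24 * CD) * (e' k * hwt (‖1 - ⟪a, b⟫_ℂ‖) k) := by
      have e1 : nx μ f h m k j a - nx μ f h m k j b =
          (h j a - h j b) + (Dl μ f h m k j a - Dl μ f h m k j b) := by
        unfold nx; ring
      rw [e1]
      refine (norm_add_le _ _).trans ?_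
      have h9 : 24 * (CD * e k) * hwt (‖1 - ⟪a, b⟫_ℂ‖) k ≤
          24 * CD * (e' k * hwt (‖1 - ⟪a, b⟫_ℂ‖) k) := by
        calc _ = 24 * CD * (e k * hwt (‖1 - ⟪a, b⟫_ℂ‖) k) := by ring
          _ ≤ _ := mul_le_mul_of_nonneg_left h7' (by positivity)
      rw [add_mul]
      exact add_le_add h1 (h2.trans h9)
    refine h8.trans ?_
    have h10 : 0 ≤ e' (k + 1) * hwt (‖1 - ⟪a, b⟫_ℂ‖) (k + 1) := mul_nonneg h5' h6'
    calc (C + 24 * CD) * (e' k * hwt (‖1 - ⟪a, b⟫_ℂ‖) k) ≤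
          (C + 24 * CD) * ((11 / 10 * e' (k + 1)) *
            (19 / 22 * hwt (‖1 - ⟪a, b⟫_ℂ‖) (k + 1))) :=
          mul_le_mul_of_nonneg_left h7 (by positivity)
      _ = (19 / 20 * (C + 24 * CD)) * (e' (k + 1) * hwt (‖1 - ⟪a, b⟫_ℂ‖) (k + 1)) := by ring
      _ ≤ _ := mul_le_mul_of_nonneg_right (by linarith) h10
  · intro z hz
    have h1 := sh_change (pt f h k z)
      (fun i => f i ((rr (k + 1) : ℂ) • z) - f i ((rr k : ℂ) • z))
      (fun j => Dl μ f h m k j z) (H := |H|) (D := CD * e k) (R := CE * (e k * e' k))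
      (fun j => (hh.bd j z hz).trans (le_abs_self H))
      (fun j => hb j z (by linarith)) (fun j => hCE f h e e' k hf hh heek j z hz)
    refine h1.trans ?_
    have hsq : (CD * e k) ^ 2 ≤ CD ^ 2 * (e k * e' k) := by
      rw [mul_pow]
      apply mul_le_mul_of_nonneg_left _ (by positivity)
      nlinarith
    calc (Fintype.card J : ℝ) * (2 * |H| * (CE * (e k * e' k)) + (CD * e k) ^ 2)
        ≤ (Fintype.card J : ℝ) * (2 * |H| * (CE * (e k * e' k)) + CD ^ 2 * (e k * e' k)) := by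
          gcongr
      _ = (Fintype.card J * (2 * |H| * CE + CD ^ 2)) * (e k * e' k) := by ring
      _ ≤ C1 * (e k * e' k) := by
          apply mul_le_mul_of_nonneg_right _ (mul_nonneg hek hek')
          rw [hC1]
          have : 0 ≤ (Fintype.card J : ℝ) * (|M| * CE + 2 * CD) := by positivity
          linarith
  · intro z hz hg1 hg2
    have h1 := gg_change (pt f h k z)
      (fun i => f i ((rr (k + 1) : ℂ) • z) - f i ((rr k : ℂ) • z))
      (fun j => Dl μ f h m k j z) (M := |M|) (D := CD * e k) (R := CE * (e k * e' k))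
      (S := 2 * e k)
      (fun j => ((pt_mem hf hh hz).1 j).trans (le_abs_self M))
      (fun j => hb j z (by linarith)) (fun j => hd j z hz)
      (fun j => hCE f h e e' k hf hh heek j z hz) hg1 hg2
    have e2 : gg (pt f (nx μ f h m k) (k + 1) z) =
        ∑ j, ((pt f h k z).1 j + (f j ((rr (k + 1) : ℂ) • z) - f j ((rr k : ℂ) • z))) *
          ((pt f h k z).2 j + Dl μ f h m k j z) := by
      rw [gg]
      refine Finset.sum_congr rfl fun j _ => ?_
      simp only [pt, nx]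
      ring
    rw [e2]
    refine h1.trans ?_
    have hsq : e k * e k ≤ e k * e' k := mul_le_mul_of_nonneg_left heek hek
    calc (Fintype.card J : ℝ) * (|M| * (CE * (e k * e' k)) + 2 * e k * (CD * e k))
        = (Fintype.card J : ℝ) * (|M| * (CE * (e k * e' k)) + 2 * CD * (e k * e k)) := by ring
      _ ≤ (Fintype.card J : ℝ) * (|M| * (CE * (e k * e' k)) + 2 * CD * (e k * e' k)) := by
          gcongr
      _ = (Fintype.card J * (|M| * CE + 2 * CD)) * (e k * e' k) := by ring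
      _ ≤ C1 * (e k * e' k) := by
          apply mul_le_mul_of_nonneg_right _ (mul_nonneg hek hek')
          rw [hC1]
          have : 0 ≤ (Fintype.card J : ℝ) * (2 * |H| * CE + CD ^ 2) := by positivity
          linarith

end Pool.Agent.MPca0fc2.SD
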