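import Mathlib
import Pool.Agent.Lib.MP_ca0fc2_an.SDFlow

set_option autoImplicit false

open Metric Set MeasureTheory Filter Topology
open scoped InnerProductSpace

namespace Pool.Agent.MPca0fc2.SD

open Pool.Agent.Lib.MP_ca0fc2_an

theorem max_ball {E : Type*} [NormedAddCommGroup E] [NormedSpace ℂ E] [Nontrivial E]
    {F : E → ℂ} {R C : ℝ} (hR : 1 < R) (hF : DifferentiableOn ℂ F (ball 0 R))
    (hC : ∀ z : E, ‖z‖ = 1 → ‖F z‖ ≤ C) {z : E} (hz : ‖z‖ ≤ 1) : ‖F z‖ ≤ C := by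
  have h1 : closure (ball (0 : E) 1) ⊆ ball 0 R := by
    rw [closure_ball 0 one_ne_zero]
    exact closedBall_subset_ball hR
  have hd : DiffContOnCl ℂ F (ball (0 : E) 1) := by
    apply DifferentiableOn.diffContOnCl
    exact hF.mono h1
  refine Complex.norm_le_of_forall_mem_frontier_norm_le isBounded_ball hd (C := C) ?_ ?_
  · intro w hw
    rw [frontier_ball 0 one_ne_zero, mem_sphere_zero_iff_norm] at hw
    exact hC w hw
  · rw [closure_ball 0 one_ne_zero, mem_closedBall_zero_iff]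
    exact hz

variable {E : Type*} [NormedAddCommGroup E] [InnerProductSpace ℂ E]
variable [FiniteDimensional ℂ E] [MeasurableSpace E] [BorelSpace E]

/-- the flow -/
noncomputable def flow {J : Type*} [Fintype J] (μ : Measure E) (f h₀ : J → E → ℂ) (m k₀ : ℕ) :
    ℕ → J → E → ℂ
  | 0 => h₀
  | (i + 1) => nx μ f (flow μ f h₀ m k₀ i) m (k₀ + i)

/-- the invariants of the flow -/
theorem flow_inv (J : Type*) [Fintype J] (μ : Measure E) [μ.IsAddHaarMeasure] (m : ℕ)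
    (hm : 1 ≤ m) (hdim : Module.finrank ℂ E = m + 1) (M δ H C0 : ℝ) (hδ : 0 < δ) (hH0 : 0 ≤ H) :
    ∃ ε C : ℝ, 0 < ε ∧ C0 ≤ C ∧ 0 < C ∧
    ∀ (f h₀ : J → E → ℂ) (e e' : ℕ → ℝ) (k₀ : ℕ) (R : Set E),
      Dat f e M → Slow e' → (∀ k, e k ≤ e' k) →
      (∀ z ∈ R, ‖z‖ = 1 → ∀ k, k₀ ≤ k → δ ≤ ∑ j, ‖f j ((rr k : ℂ) • z)‖ ^ 2) →
      Sol h₀ e' k₀ H C →
      (∀ z : E, ‖z‖ = 1 → 1 + 4 / δ ≤ ∑ j, ‖h₀ j z‖ ^ 2 ∧ ∑ j, ‖h₀ j z‖ ^ 2 + 1 ≤ H ^ 2) →
      (∀ z ∈ R, ‖z‖ = 1 → ‖gg (pt f h₀ k₀ z) - 1‖ ≤ 1 / 16) →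
      (∀ n, ∑ i ∈ Finset.range n, e (k₀ + i) * e' (k₀ + i) ≤ ε) → ∀ i,
        Sol (flow μ f h₀ m k₀ i) e' (k₀ + i) H C ∧
        ∀ z ∈ R, ‖z‖ = 1 → ‖gg (pt f (flow μ f h₀ m k₀ i) (k₀ + i) z) - 1‖ ≤ 1 / 8 := by
  have hnt : Nontrivial E := Module.nontrivial_of_finrank_pos (R := ℂ) (by omega)
  obtain ⟨C, C1, hC0C, hC0, hC10, hstep⟩ := step J μ m hm hdim M H C0
  refine ⟨1 / (16 * C1), C, by positivity, hC0C, hC0, ?_⟩
  intro f h₀ e e' k₀ R hf hs' hee hfδ hsol hsh hgg hε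
  have hε1 : ∀ n, C1 * ∑ i ∈ Finset.range n, e (k₀ + i) * e' (k₀ + i) ≤ 1 / 16 := by
    intro n
    calc C1 * ∑ i ∈ Finset.range n, e (k₀ + i) * e' (k₀ + i) ≤ C1 * (1 / (16 * C1)) :=
          mul_le_mul_of_nonneg_left (hε n) hC10.le
      _ = 1 / 16 := by field_simp
  -- the induction
  have key : ∀ i, Sol (flow μ f h₀ m k₀ i) e' (k₀ + i) H C ∧
      (∀ z : E, ‖z‖ = 1 → |∑ j, ‖flow μ f h₀ m k₀ i j z‖ ^ 2 - ∑ j, ‖h₀ j z‖ ^ 2| ≤
        C1 * ∑ i' ∈ Finset.range i, e (k₀ + i') * e' (k₀ + i')) ∧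
      (∀ z ∈ R, ‖z‖ = 1 →
        ‖gg (pt f (flow μ f h₀ m k₀ i) (k₀ + i) z) - 1‖ ≤
          1 / 16 + C1 * ∑ i' ∈ Finset.range i, e (k₀ + i') * e' (k₀ + i')) := by
    intro i
    induction i with
    | zero =>
      refine ⟨hsol, fun z _ => ?_, fun z hzR hz => ?_⟩
      · simp only [flow, sub_self, abs_zero, Finset.range_zero, Finset.sum_empty, mul_zero,
          le_refl]
      · simp only [Finset.range_zero, Finset.sum_empty, mul_zero, add_zero]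
        exact hgg z hzR hz
    | succ i ih =>
      obtain ⟨ih1, ih2, ih3⟩ := ih
      obtain ⟨s1, s2, s3, s4⟩ := hstep f (flow μ f h₀ m k₀ i) e e' (k₀ + i) hf hs' hee ih1
      have hfl : flow μ f h₀ m k₀ (i + 1) = nx μ f (flow μ f h₀ m k₀ i) m (k₀ + i) := rfl
      have hki : k₀ + (i + 1) = k₀ + i + 1 := rfl
      have hI2 : ∀ z : E, ‖z‖ = 1 →
          |∑ j, ‖flow μ f h₀ m k₀ (i + 1) j z‖ ^ 2 - ∑ j, ‖h₀ j z‖ ^ 2| ≤
          C1 * ∑ i' ∈ Finset.range (i + 1), e (k₀ + i') * e' (k₀ + i') := by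
        intro z hz
        have h1 := s3 z hz.le
        have h2 := ih2 z hz
        rw [Finset.sum_range_succ, mul_add, hfl]
        rw [abs_le] at h1 h2 ⊢
        constructor <;> linarith [h1.1, h1.2, h2.1, h2.2]
      refine ⟨⟨?_, ?_, ?_⟩, hI2, ?_⟩
      · intro j
        rw [hfl, hki]
        exact s1 j
      · intro j z hz
        have hR : (1 : ℝ) < 1 + (1 / 2) ^ (k₀ + i + 1) / 8 := by
          have := half_pow_pos (k₀ + i + 1); linarith
        refine max_ball hR (s1 j) ?_ hz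
        intro w hw
        apply le_of_sq_le_sq _ hH0
        have h1 : ‖nx μ f (flow μ f h₀ m k₀ i) m (k₀ + i) j w‖ ^ 2 ≤
            ∑ j, ‖nx μ f (flow μ f h₀ m k₀ i) m (k₀ + i) j w‖ ^ 2 :=
          Finset.single_le_sum
            (f := fun j => ‖nx μ f (flow μ f h₀ m k₀ i) m (k₀ + i) j w‖ ^ 2)
            (fun j _ => sq_nonneg _) (Finset.mem_univ j)
        have h2 := hI2 w hw
        rw [hfl, abs_le] at h2
        have h3 := hε1 (i + 1)
        linarith [h2.2, (hsh w hw).2]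
      · intro j b c hb hc
        rw [hfl, hki]
        exact s2 j b c hb hc
      · intro z hzR hz
        have h1 := ih3 z hzR hz
        have h2 := ih2 z hz
        have h3 := hε1 i
        have h4 : ‖gg (pt f (flow μ f h₀ m k₀ i) (k₀ + i) z) - 1‖ ≤ 1 / 4 := by linarith
        have h5 : 1 ≤ dd (pt f (flow μ f h₀ m k₀ i) (k₀ + i) z) := by
          apply dd_ge _ hδ _ _ h4
          · exact hfδ z hzR hz (k₀ + i) (Nat.le_add_right _ _)
          · rw [abs_le] at h2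
            have h6 : sh (pt f (flow μ f h₀ m k₀ i) (k₀ + i) z) =
                ∑ j, ‖flow μ f h₀ m k₀ i j z‖ ^ 2 := rfl
            rw [h6]
            linarith [h2.1, (hsh z hz).1]
        have h6 := s4 z hz.le h4 h5
        rw [hfl, hki, Finset.sum_range_succ, mul_add]
        calc _ = ‖(gg (pt f (nx μ f (flow μ f h₀ m k₀ i) m (k₀ + i)) (k₀ + i + 1) z) -
              gg (pt f (flow μ f h₀ m k₀ i) (k₀ + i) z)) +
              (gg (pt f (flow μ f h₀ m k₀ i) (k₀ + i) z) - 1)‖ := by congr 1; ring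
          _ ≤ _ := norm_add_le _ _
          _ ≤ _ := by linarith
  intro i
  obtain ⟨k1, -, k3⟩ := key i
  refine ⟨k1, fun z hzR hz => (k3 z hzR hz).trans ?_⟩
  linarith [hε1 i]

end Pool.Agent.MPca0fc2.SD
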