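import Mathlib
import Pool.Agent.Lib.MP_ca0fc2_an.Mg.G049
import Pool.Agent.Lib.MP_ca0fc2_an.SDInv

set_option autoImplicit false

open Metric Set MeasureTheory Filter Topology
open scoped InnerProductSpace

namespace Pool.Agent.MPca0fc2.SD

open Pool.Agent.Lib.MP_ca0fc2_an

/-- maximum principle for the gradient -/
theorem grad_max {E : Type*} [NormedAddCommGroup E] [InnerProductSpace ℂ E] [Nontrivial E]
    {f : E → ℂ} (hf : DifferentiableOn ℂ f (ball 0 1)) {M : ℝ}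
    (hM : ∀ z ∈ ball (0 : E) 1, ‖f z‖ ≤ M) {s B : ℝ} (hs0 : 0 < s) (hs1 : s < 1)
    (hB : ∀ w : E, ‖w‖ = s → ‖fderiv ℂ f w‖ ≤ B) {z : E} (hz : ‖z‖ ≤ s) :
    ‖fderiv ℂ f z‖ ≤ B := by
  have hB0 : 0 ≤ B := by
    obtain ⟨w, hw⟩ := (NormedSpace.sphere_nonempty (x := (0 : E)) (r := s)).mpr hs0.le
    exact (norm_nonneg _).trans (hB w (mem_sphere_zero_iff_norm.mp hw))
  apply ContinuousLinearMap.opNorm_le_bound _ hB0
  intro v
  have h1 : DifferentiableOn ℂ (fun z : E => fderiv ℂ f ((s : ℂ) • z) v) (ball 0 (1 / s)) :=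
    diffOn_dil (f := fun z => fderiv ℂ f z v) (differentiableOn_fderiv_apply isOpen_ball hf hM v)
      hs0.le (by rw [mul_one_div_cancel hs0.ne']) (by positivity) (by simp)
  have hR : 1 < 1 / s := by rw [lt_div_iff₀ hs0]; linarith
  have h2 : ∀ w : E, ‖w‖ = 1 → ‖fderiv ℂ f ((s : ℂ) • w) v‖ ≤ B * ‖v‖ := by
    intro w hw
    refine (ContinuousLinearMap.le_opNorm _ _).trans ?_
    apply mul_le_mul_of_nonneg_right _ (norm_nonneg _)
    apply hB
    rw [norm_smul, Complex.norm_real, Real.norm_of_nonneg hs0.le, hw, mul_one]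
  have h3 : z = (s : ℂ) • (((s⁻¹ : ℝ) : ℂ) • z) := by
    rw [smul_smul, ← Complex.ofReal_mul, mul_inv_cancel₀ hs0.ne', Complex.ofReal_one, one_smul]
  have h4 : ‖((s⁻¹ : ℝ) : ℂ) • z‖ ≤ 1 := by
    rw [norm_smul, Complex.norm_real, Real.norm_of_nonneg (by positivity), inv_mul_le_iff₀ hs0,
      mul_one]
    exact hz
  have h5 := max_ball hR h1 h2 h4
  rw [← h3] at h5
  exact h5

section Weights

variable (ω : ℝ → ℝ)

/-- the best bound of `2⁻ᵏ ‖∇ f‖` at depth `2⁻ᵏ` -/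
noncomputable def wk (k : ℕ) : ℝ :=
  (1 / 2) ^ k * sInf ((fun t => |ω t| / t) '' Ioo 0 ((1 / 2) ^ k))

theorem bddBelow_wk (k : ℕ) : BddBelow ((fun t => |ω t| / t) '' Ioo (0 : ℝ) ((1 / 2) ^ k)) := by
  refine ⟨0, ?_⟩
  rintro _ ⟨t, ht, rfl⟩
  have := ht.1
  positivity

theorem nonempty_wk (k : ℕ) : ((fun t => |ω t| / t) '' Ioo (0 : ℝ) ((1 / 2) ^ k)).Nonempty := by
  apply Set.Nonempty.image
  exact nonempty_Ioo.mpr (half_pow_pos k)

theorem wk_nonneg (k : ℕ) : 0 ≤ wk ω k := by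
  unfold wk
  have hp := half_pow_pos k
  have h1 : 0 ≤ sInf ((fun t => |ω t| / t) '' Ioo (0 : ℝ) ((1 / 2) ^ k)) := by
    apply le_csInf (nonempty_wk ω k)
    rintro _ ⟨t, ht, rfl⟩
    have := ht.1
    positivity
  positivity

theorem wk_le {k : ℕ} {t : ℝ} (ht : t ∈ Ioo (0 : ℝ) ((1 / 2) ^ k)) :
    wk ω k ≤ (1 / 2) ^ k * (|ω t| / t) := by
  unfold wk
  apply mul_le_mul_of_nonneg_left _ (half_pow_pos k).le
  exact csInf_le (bddBelow_wk ω k) ⟨t, ht, rfl⟩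

/-- the piece of the integral -/
theorem wk_sq_le (hω : IntegrableOn (fun t => ω t ^ 2 / t) (Ioo 0 1)) (k : ℕ) :
    wk ω k ^ 2 ≤ 4 * ∫ t in Ioo ((1 / 2 : ℝ) ^ (k + 1)) ((1 / 2) ^ k), ω t ^ 2 / t := by
  have hp := half_pow_pos k
  have hp1 := half_pow_pos (k + 1)
  have hple := half_pow_le_one k
  have hsub : Ioo ((1 / 2 : ℝ) ^ (k + 1)) ((1 / 2) ^ k) ⊆ Ioo 0 1 :=
    Ioo_subset_Ioo hp1.le hple
  have hvol : volume.real (Ioo ((1 / 2 : ℝ) ^ (k + 1)) ((1 / 2) ^ k)) = (1 / 2) ^ k / 2 := by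
    rw [Real.volume_real_Ioo_of_le]
    · rw [pow_succ]; ring
    · rw [pow_succ]; linarith
  have h1 : ∫ _t in Ioo ((1 / 2 : ℝ) ^ (k + 1)) ((1 / 2) ^ k), wk ω k ^ 2 / (2 * (1 / 2) ^ k) ≤
      ∫ t in Ioo ((1 / 2 : ℝ) ^ (k + 1)) ((1 / 2) ^ k), ω t ^ 2 / t := by
    apply setIntegral_mono_on _ (hω.mono_set hsub) measurableSet_Ioo
    · intro t ht
      have ht0 : 0 < t := hp1.trans ht.1
      have h2 := wk_le ω (k := k) ⟨ht0, ht.2⟩
      have h3 := wk_nonneg ω k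
      have h4 : wk ω k ^ 2 ≤ ((1 / 2) ^ k) ^ 2 * (ω t ^ 2 / t ^ 2) := by
        calc wk ω k ^ 2 ≤ ((1 / 2) ^ k * (|ω t| / t)) ^ 2 := pow_le_pow_left₀ h3 h2 2
          _ = _ := by rw [mul_pow, div_pow |ω t|, sq_abs]
      have h5 : (1 / 2 : ℝ) ^ k < 2 * t := by
        have := ht.1
        rw [pow_succ] at this
        linarith
      rw [div_le_div_iff₀ (by positivity) ht0]
      have h6 : wk ω k ^ 2 * t ^ 2 ≤ ((1 / 2) ^ k) ^ 2 * ω t ^ 2 := by
        calc wk ω k ^ 2 * t ^ 2 ≤ (((1 / 2) ^ k) ^ 2 * (ω t ^ 2 / t ^ 2)) * t ^ 2 :=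
              mul_le_mul_of_nonneg_right h4 (by positivity)
          _ = _ := by field_simp
      have h7 : wk ω k ^ 2 * t * t ≤ ω t ^ 2 * (2 * (1 / 2) ^ k) * t := by
        calc wk ω k ^ 2 * t * t = wk ω k ^ 2 * t ^ 2 := by ring
          _ ≤ ((1 / 2) ^ k) ^ 2 * ω t ^ 2 := h6
          _ = (1 / 2) ^ k * ((1 / 2) ^ k * ω t ^ 2) := by ring
          _ ≤ (2 * t) * ((1 / 2) ^ k * ω t ^ 2) :=
              mul_le_mul_of_nonneg_right h5.le (by positivity)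
          _ = _ := by ring
      exact le_of_mul_le_mul_right h7 ht0
    · exact integrableOn_const (by simp) (by simp)
  rw [setIntegral_const, hvol, smul_eq_mul] at h1
  have h2 : (1 / 2 : ℝ) ^ k / 2 * (wk ω k ^ 2 / (2 * (1 / 2) ^ k)) = wk ω k ^ 2 / 4 := by
    field_simp; ring
  rw [h2] at h1
  linarith

theorem wk_summable (hω : IntegrableOn (fun t => ω t ^ 2 / t) (Ioo 0 1)) :
    Summable fun k => wk ω k ^ 2 := by
  have hnn : ∀ s : Set ℝ, s ⊆ Ioo 0 1 → MeasurableSet s → 0 ≤ ∫ t in s, ω t ^ 2 / t := by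
    intro s hs hm
    apply setIntegral_nonneg hm
    intro t ht
    have := (hs ht).1
    positivity
  have key : ∀ n, ∑ k ∈ Finset.range n,
      (∫ t in Ioo ((1 / 2 : ℝ) ^ (k + 1)) ((1 / 2) ^ k), ω t ^ 2 / t) +
      ∫ t in Ioo (0 : ℝ) ((1 / 2) ^ n), ω t ^ 2 / t ≤ ∫ t in Ioo (0 : ℝ) 1, ω t ^ 2 / t := by
    intro n
    induction n with
    | zero => simp
    | succ n ih =>
      rw [Finset.sum_range_succ]
      have hp := half_pow_pos (n + 1)
      have hpn := half_pow_pos n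
      have hpn1 := half_pow_le_one n
      have hlt : ((1 : ℝ) / 2) ^ (n + 1) ≤ (1 / 2) ^ n := by rw [pow_succ]; linarith
      have hs1 : Ioo ((1 / 2 : ℝ) ^ (n + 1)) ((1 / 2) ^ n) ⊆ Ioo 0 1 :=
        Ioo_subset_Ioo hp.le hpn1
      have hs2 : Ioo (0 : ℝ) ((1 / 2) ^ (n + 1)) ⊆ Ioo 0 1 :=
        Ioo_subset_Ioo le_rfl (hlt.trans hpn1)
      have hd : Disjoint (Ioo ((1 / 2 : ℝ) ^ (n + 1)) ((1 / 2) ^ n))
          (Ioo (0 : ℝ) ((1 / 2) ^ (n + 1))) := by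
        rw [Set.disjoint_left]
        intro x hx hx'
        exact lt_asymm hx.1 hx'.2
      have h1 := setIntegral_union hd measurableSet_Ioo (hω.mono_set hs1) (hω.mono_set hs2)
      have h2 : ∫ t in Ioo ((1 / 2 : ℝ) ^ (n + 1)) ((1 / 2) ^ n) ∪
          Ioo (0 : ℝ) ((1 / 2) ^ (n + 1)), ω t ^ 2 / t ≤
          ∫ t in Ioo (0 : ℝ) ((1 / 2) ^ n), ω t ^ 2 / t := by
        apply setIntegral_mono_set (hω.mono_set (Ioo_subset_Ioo le_rfl hpn1))
        · refine (ae_restrict_iff' measurableSet_Ioo).mpr (Eventually.of_forall fun t ht => ?_)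
          have := ht.1
          simp only [Pi.zero_apply]
          positivity
        · apply LE.le.eventuallyLE
          apply union_subset
          · exact Ioo_subset_Ioo hp.le le_rfl
          · exact Ioo_subset_Ioo le_rfl hlt
      linarith
  apply summable_of_sum_range_le (c := 4 * ∫ t in Ioo (0 : ℝ) 1, ω t ^ 2 / t)
    (fun k => sq_nonneg _)
  intro n
  have h1 := key n
  have h2 := hnn (Ioo (0 : ℝ) ((1 / 2) ^ n))
    (Ioo_subset_Ioo le_rfl (half_pow_le_one n)) measurableSet_Ioo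
  calc ∑ k ∈ Finset.range n, wk ω k ^ 2
      ≤ ∑ k ∈ Finset.range n,
        4 * ∫ t in Ioo ((1 / 2 : ℝ) ^ (k + 1)) ((1 / 2) ^ k), ω t ^ 2 / t :=
        Finset.sum_le_sum fun k _ => wk_sq_le ω hω k
    _ = 4 * ∑ k ∈ Finset.range n,
        ∫ t in Ioo ((1 / 2 : ℝ) ^ (k + 1)) ((1 / 2) ^ k), ω t ^ 2 / t := by
        rw [Finset.mul_sum]
    _ ≤ _ := by linarith

end Weights

section Output

theorem exists_level {t : ℝ} (ht : 0 < t) : ∃ k : ℕ, (1 / 2 : ℝ) ^ k ≤ t := by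
  obtain ⟨k, hk⟩ := exists_pow_lt_of_lt_one ht (show (1 / 2 : ℝ) < 1 by norm_num)
  exact ⟨k, hk.le⟩

open Classical in
/-- the level of a depth -/
noncomputable def lev (t : ℝ) : ℕ := if ht : 0 < t then Nat.find (exists_level ht) else 0

theorem lev_le {t : ℝ} (ht : 0 < t) : (1 / 2 : ℝ) ^ lev t ≤ t := by
  classical
  unfold lev
  rw [dif_pos ht]
  exact Nat.find_spec (exists_level ht)

theorem lev_lt {t : ℝ} (ht : 0 < t) (ht1 : t ≤ 1) : t < 2 * (1 / 2 : ℝ) ^ lev t := by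
  classical
  unfold lev
  rw [dif_pos ht]
  rcases Nat.eq_zero_or_pos (Nat.find (exists_level ht)) with h | h
  · rw [h, pow_zero]; linarith
  · have h1 := Nat.find_min (exists_level ht) (m := Nat.find (exists_level ht) - 1) (by omega)
    obtain ⟨m, hm⟩ : ∃ m, Nat.find (exists_level ht) = m + 1 :=
      ⟨Nat.find (exists_level ht) - 1, by omega⟩
    rw [hm] at h1 ⊢
    simp only [add_tsub_cancel_right] at h1
    push Not at h1
    rw [pow_succ]
    linarith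

theorem lev_eq {t : ℝ} {k : ℕ} (h1 : (1 / 2 : ℝ) ^ (k + 1) ≤ t) (h2 : t < (1 / 2) ^ k) :
    lev t = k + 1 := by
  classical
  have ht : 0 < t := (half_pow_pos (k + 1)).trans_le h1
  unfold lev
  rw [dif_pos ht, Nat.find_eq_iff]
  refine ⟨h1, fun n hn => ?_⟩
  push Not
  refine h2.trans_le ?_
  exact pow_le_pow_of_le_one (by norm_num) (by norm_num) (by omega)

/-- the majorant as a function of the depth -/
noncomputable def om (b : ℕ → ℝ) (t : ℝ) : ℝ := 2 * b (lev t)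

theorem om_integrable {b : ℕ → ℝ} (hbs : Summable fun k => b k ^ 2) :
    IntegrableOn (fun t => om b t ^ 2 / t) (Ioo 0 1) := by
  have hcov : Ioo (0 : ℝ) 1 ⊆ ⋃ k : ℕ, Ico ((1 / 2 : ℝ) ^ (k + 1)) ((1 / 2) ^ k) := by
    intro t ht
    rw [mem_iUnion]
    have h1 := lev_le ht.1
    have h2 := lev_lt ht.1 ht.2.le
    have h3 : lev t ≠ 0 := by
      intro h
      rw [h, pow_zero] at h1
      linarith [ht.2]
    obtain ⟨m, hm⟩ : ∃ m, lev t = m + 1 := ⟨lev t - 1, by omega⟩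
    refine ⟨m, ?_, ?_⟩
    · rw [hm] at h1; exact h1
    · rw [hm, pow_succ] at h2; linarith
  refine IntegrableOn.mono_set ?_ hcov
  have hfeq : ∀ k : ℕ, ∀ t ∈ Ico ((1 / 2 : ℝ) ^ (k + 1)) ((1 / 2) ^ k),
      om b t ^ 2 / t = (2 * b (k + 1)) ^ 2 / t := by
    intro k t ht
    rw [om, lev_eq ht.1 ht.2]
  have hint : ∀ k : ℕ, IntegrableOn (fun t : ℝ => (2 * b (k + 1)) ^ 2 / t)
      (Ico ((1 / 2 : ℝ) ^ (k + 1)) ((1 / 2) ^ k)) := by
    intro k
    have hp := half_pow_pos (k + 1)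
    have h1 : ContinuousOn (fun t : ℝ => (2 * b (k + 1)) ^ 2 / t)
        (Icc ((1 / 2 : ℝ) ^ (k + 1)) ((1 / 2) ^ k)) := by
      apply ContinuousOn.div continuousOn_const continuousOn_id
      intro t ht
      exact (hp.trans_le ht.1).ne'
    exact h1.integrableOn_Icc.mono_set Ico_subset_Icc_self
  apply integrableOn_iUnion_of_summable_integral_norm
  · intro k
    exact (hint k).congr_fun (fun t ht => (hfeq k t ht).symm) measurableSet_Ico
  · have hs : Summable fun k => 4 * b (k + 1) ^ 2 :=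
      ((summable_nat_add_iff (f := fun k => b k ^ 2) 1).mpr hbs).mul_left 4
    apply Summable.of_nonneg_of_le (fun k => integral_nonneg fun t => norm_nonneg _) _ hs
    intro k
    have hp := half_pow_pos (k + 1)
    have hpk := half_pow_pos k
    have hvol : volume.real (Ico ((1 / 2 : ℝ) ^ (k + 1)) ((1 / 2) ^ k)) = (1 / 2) ^ (k + 1) := by
      rw [Real.volume_real_Ico_of_le]
      · rw [pow_succ]; ring
      · rw [pow_succ]; linarith
    have hbd : ∀ t ∈ Ico ((1 / 2 : ℝ) ^ (k + 1)) ((1 / 2) ^ k), ‖‖om b t ^ 2 / t‖‖ ≤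
        4 * b (k + 1) ^ 2 / (1 / 2) ^ (k + 1) := by
      intro t ht
      have ht0 : 0 < t := hp.trans_le ht.1
      rw [hfeq k t ht, norm_norm, Real.norm_of_nonneg (by positivity), mul_pow]
      norm_num only
      exact div_le_div_of_nonneg_left (by positivity) hp ht.1
    have h1 := norm_setIntegral_le_of_norm_le_const (μ := volume)
      (s := Ico ((1 / 2 : ℝ) ^ (k + 1)) ((1 / 2) ^ k)) (by simp) hbd
    rw [hvol, div_mul_cancel₀ _ hp.ne'] at h1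
    exact (le_abs_self _).trans h1

end Output

section Final

variable {E : Type*} [NormedAddCommGroup E] [InnerProductSpace ℂ E]

/-- the gradient condition in terms of a sequence -/
theorem grad_of_omega [Nontrivial E] {ω : ℝ → ℝ} {e : ℕ → ℝ} (hwe : ∀ k, wk ω k ≤ e k) {M : ℝ}
    {f : E → ℂ} (hf : DifferentiableOn ℂ f (ball 0 1)) (hfM : ∀ z ∈ ball (0 : E) 1, ‖f z‖ ≤ M)
    (hfω : ∀ z ∈ ball (0 : E) 1, (1 - ‖z‖) * ‖fderiv ℂ f z‖ ≤ ω (1 - ‖z‖)) : Grad f e := by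
  refine ⟨hf, fun k z hz => ?_⟩
  refine le_trans ?_ (hwe k)
  unfold wk
  rw [mul_comm]
  apply mul_le_mul_of_nonneg_left _ (half_pow_pos k).le
  apply le_csInf (nonempty_wk ω k)
  rintro _ ⟨t, ht, rfl⟩
  have ht1 : t < 1 := ht.2.trans_le (half_pow_le_one k)
  apply grad_max hf hfM (s := 1 - t) (by linarith) (by linarith [ht.1])
  · intro w hw
    have hw1 : w ∈ ball (0 : E) 1 := by
      rw [mem_ball_zero_iff, hw]; linarith [ht.1]
    have h1 := hfω w hw1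
    rw [hw, sub_sub_cancel] at h1
    rw [le_div_iff₀ ht.1, mul_comm]
    exact h1.trans (le_abs_self _)
  · have : rr k = 1 - (1 / 2) ^ k := rfl
    linarith [ht.2]

theorem lower_perturb {N : ℕ} {a b : Fin N → ℂ} {η δ : ℝ} (h1 : 12 * N * η ^ 2 ≤ δ)
    (hab : ∀ j, ‖a j - b j‖ ≤ η) (ha : δ ≤ ∑ j, ‖a j‖ ^ 2) : δ / 2 ≤ ∑ j, ‖b j‖ ^ 2 := by
  have h2 : ∀ j, ‖a j‖ ^ 2 ≤ 4 / 3 * ‖b j‖ ^ 2 + 4 * η ^ 2 := by
    intro j
    have h3 : ‖a j‖ ≤ ‖b j‖ + η := by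
      calc ‖a j‖ = ‖(a j - b j) + b j‖ := by rw [sub_add_cancel]
        _ ≤ ‖a j - b j‖ + ‖b j‖ := norm_add_le _ _
        _ ≤ _ := by linarith [hab j]
    have h4 : ‖a j‖ ^ 2 ≤ (‖b j‖ + η) ^ 2 := pow_le_pow_left₀ (norm_nonneg _) h3 2
    nlinarith [sq_nonneg (‖b j‖ - 3 * η)]
  have h3 : ∑ j, ‖a j‖ ^ 2 ≤ 4 / 3 * ∑ j, ‖b j‖ ^ 2 + N * (4 * η ^ 2) := by
    calc ∑ j, ‖a j‖ ^ 2 ≤ ∑ j, (4 / 3 * ‖b j‖ ^ 2 + 4 * η ^ 2) :=
          Finset.sum_le_sum fun j _ => h2 j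
      _ = _ := by
          rw [Finset.sum_add_distrib, ← Finset.mul_sum, Finset.sum_const, Finset.card_univ,
            nsmul_eq_mul, Fintype.card_fin]
  linarith

end Final

end Pool.Agent.MPca0fc2.SD
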