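import Mathlib
import Pool.Agent.Lib.MP_ca0fc2_an.SDInv
import Pool.Agent.Lib.MP_ca0fc2_an.Mg.G049

set_option autoImplicit false

open Metric Set MeasureTheory Filter Topology
open scoped InnerProductSpace

namespace Pool.Agent.MPca0fc2.SD

open Pool.Agent.Lib.MP_ca0fc2_an

/-- two constants: a small bound near `l` on the sphere gives a small bound near `l` inside -/
theorem near_bound {E : Type*} [NormedAddCommGroup E] [InnerProductSpace ℂ E] [Nontrivial E]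
    {F : E → ℂ} {R t G : ℝ} {p : ℕ} (hR : 1 < R) (hF : DifferentiableOn ℂ F (ball 0 R))
    (ht : 0 < t) {l : E} (hl : ‖l‖ = 1) (hG : ∀ z : E, ‖z‖ = 1 → ‖F z‖ ≤ G)
    (hp : (1 / 2) ^ p * G ≤ 1 / 8) (hp1 : 1 ≤ p)
    (hloc : ∀ z : E, ‖z‖ = 1 → ‖1 - ⟪z, l⟫_ℂ‖ ≤ t → ‖F z‖ ≤ 1 / 8) {z : E} (hz : ‖z‖ < 1)
    (hzl : ‖z - l‖ < t / (4 * p)) : ‖F z‖ ≤ 1 / 4 := by
  set q : E → ℂ := fun z => (t : ℂ) / ((t : ℂ) + (1 - ⟪l, z⟫_ℂ)) with hq
  have hden : ∀ z : E, ‖z‖ < 1 + t → (t : ℂ) + (1 - ⟪l, z⟫_ℂ) ≠ 0 := by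
    intro z hz h0
    have h1 : ⟪l, z⟫_ℂ = ((1 + t : ℝ) : ℂ) := by
      push_cast
      linear_combination -h0
    have h2 : ‖⟪l, z⟫_ℂ‖ ≤ ‖l‖ * ‖z‖ := norm_inner_le_norm l z
    rw [h1, Complex.norm_real, Real.norm_of_nonneg (by positivity), hl] at h2
    linarith
  set R' := min R (1 + t) with hR'
  have hR'1 : 1 < R' := lt_min hR (by linarith)
  have hqd : DifferentiableOn ℂ q (ball 0 R') := by
    intro z hz
    rw [mem_ball_zero_iff] at hz
    apply DifferentiableAt.differentiableWithinAt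
    have h1 : DifferentiableAt ℂ (fun z : E => (t : ℂ) + (1 - ⟪l, z⟫_ℂ)) z := by
      apply (differentiableAt_const _).add
      apply (differentiableAt_const _).sub
      exact (innerSL ℂ l).differentiableAt
    have h2 := ((differentiableAt_const (t : ℂ)).mul
      (h1.inv (hden z (hz.trans_le (min_le_right _ _)))))
    refine h2.congr_of_eventuallyEq (Eventually.of_forall fun b => ?_)
    simp only [hq, Pi.mul_apply, Pi.inv_apply, div_eq_mul_inv]
  have hFd : DifferentiableOn ℂ (fun z => F z * q z ^ (2 * p)) (ball 0 R') := by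
    apply DifferentiableOn.mul
    · exact hF.mono (ball_subset_ball (min_le_left _ _))
    · exact hqd.pow _
  have hre : ∀ z : E, ‖z‖ ≤ 1 → 0 ≤ (1 - ⟪l, z⟫_ℂ).re := by
    intro z hz
    have h1 : (⟪l, z⟫_ℂ).re ≤ ‖⟪l, z⟫_ℂ‖ := Complex.re_le_norm _
    have h2 : ‖⟪l, z⟫_ℂ‖ ≤ ‖l‖ * ‖z‖ := norm_inner_le_norm l z
    rw [Complex.sub_re, Complex.one_re]
    rw [hl] at h2
    linarith
  have hden2 : ∀ z : E, ‖z‖ ≤ 1 → t ^ 2 + ‖1 - ⟪l, z⟫_ℂ‖ ^ 2 ≤
      ‖(t : ℂ) + (1 - ⟪l, z⟫_ℂ)‖ ^ 2 := by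
    intro z hz
    have h1 := hre z hz
    rw [Complex.sq_norm, Complex.sq_norm, Complex.normSq_apply, Complex.normSq_apply]
    rw [Complex.add_re, Complex.add_im, Complex.ofReal_re, Complex.ofReal_im]
    nlinarith
  have hqle : ∀ z : E, ‖z‖ ≤ 1 → ‖q z‖ ≤ 1 := by
    intro z hz
    rw [hq]
    simp only
    rw [norm_div, Complex.norm_real, Real.norm_of_nonneg ht.le]
    apply div_le_one_of_le₀ _ (norm_nonneg _)
    apply le_of_sq_le_sq _ (norm_nonneg _)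
    have := hden2 z hz
    nlinarith [sq_nonneg ‖1 - ⟪l, z⟫_ℂ‖]
  have hbd : ∀ z : E, ‖z‖ = 1 → ‖F z * q z ^ (2 * p)‖ ≤ 1 / 8 := by
    intro z hz
    rw [norm_mul, norm_pow]
    have hsym : ‖1 - ⟪z, l⟫_ℂ‖ = ‖1 - ⟪l, z⟫_ℂ‖ := by
      rw [← RCLike.norm_conj (1 - ⟪l, z⟫_ℂ), map_sub, map_one, inner_conj_symm]
    rcases le_total (‖1 - ⟪z, l⟫_ℂ‖) t with h | h
    · have h1 := hloc z hz h
      have h2 : ‖q z‖ ^ (2 * p) ≤ 1 := pow_le_one₀ (norm_nonneg _) (hqle z hz.le)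
      calc ‖F z‖ * ‖q z‖ ^ (2 * p) ≤ 1 / 8 * 1 :=
            mul_le_mul h1 h2 (by positivity) (by norm_num)
        _ = _ := by ring
    · have h1 := hG z hz
      have h2 : ‖q z‖ ^ 2 ≤ 1 / 2 := by
        rw [hq]
        simp only
        rw [norm_div, Complex.norm_real, Real.norm_of_nonneg ht.le, div_pow]
        rw [hsym] at h
        have h3 := hden2 z hz.le
        have h4 : t ^ 2 ≤ ‖1 - ⟪l, z⟫_ℂ‖ ^ 2 := pow_le_pow_left₀ ht.le h 2
        rw [div_le_iff₀ (by nlinarith)]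
        linarith
      have h3 : ‖q z‖ ^ (2 * p) ≤ (1 / 2) ^ p := by
        rw [pow_mul]
        exact pow_le_pow_left₀ (sq_nonneg _) h2 p
      calc ‖F z‖ * ‖q z‖ ^ (2 * p) ≤ G * (1 / 2) ^ p :=
            mul_le_mul h1 h3 (by positivity) ((norm_nonneg _).trans h1)
        _ ≤ _ := by rw [mul_comm]; exact hp
  have hmax := max_ball hR'1 hFd hbd hz.le
  have hp0 : (0 : ℝ) < p := by exact_mod_cast hp1
  have hql : 1 / 2 ≤ ‖q z‖ ^ (2 * p) := by
    have h1 : ‖(t : ℂ) + (1 - ⟪l, z⟫_ℂ)‖ ≤ t + t / (4 * p) := by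
      have h2 : (1 : ℂ) - ⟪l, z⟫_ℂ = ⟪l, l - z⟫_ℂ := by
        rw [inner_sub_right, inner_self_eq_norm_sq_to_K, hl]
        simp
      rw [h2]
      refine (norm_add_le _ _).trans ?_
      rw [Complex.norm_real, Real.norm_of_nonneg ht.le]
      have h3 : ‖⟪l, l - z⟫_ℂ‖ ≤ ‖l‖ * ‖l - z‖ := norm_inner_le_norm _ _
      rw [hl, one_mul, norm_sub_rev] at h3
      linarith
    have h2 : 1 - 1 / (4 * p) ≤ ‖q z‖ := by
      rw [hq]
      simp only
      rw [norm_div, Complex.norm_real, Real.norm_of_nonneg ht.le]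
      have h3 : 0 < ‖(t : ℂ) + (1 - ⟪l, z⟫_ℂ)‖ := norm_pos_iff.mpr (hden z (by linarith))
      rw [le_div_iff₀ h3]
      have h5 : (1 : ℝ) / (4 * p) ≤ 1 := by
        rw [div_le_one (by positivity)]
        have : (1 : ℝ) ≤ p := by exact_mod_cast hp1
        linarith
      calc (1 - 1 / (4 * p)) * ‖(t : ℂ) + (1 - ⟪l, z⟫_ℂ)‖
          ≤ (1 - 1 / (4 * p)) * (t + t / (4 * p)) :=
            mul_le_mul_of_nonneg_left h1 (by linarith)
        _ = t * (1 - (1 / (4 * p)) ^ 2) := by field_simp; ring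
        _ ≤ t := by nlinarith [sq_nonneg ((1 : ℝ) / (4 * p))]
    have h3 : (1 : ℝ) / (4 * p) ≤ 1 := by
      rw [div_le_one (by positivity)]
      have : (1 : ℝ) ≤ p := by exact_mod_cast hp1
      linarith
    have h4 : (1 : ℝ) + ((2 * p : ℕ) : ℝ) * (-(1 / (4 * p))) ≤ (1 + -(1 / (4 * p))) ^ (2 * p) :=
      one_add_mul_le_pow (by linarith) _
    have h5 : (1 : ℝ) + ((2 * p : ℕ) : ℝ) * (-(1 / (4 * p))) = 1 / 2 := by
      push_cast
      field_simp
      ring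
    rw [h5] at h4
    refine h4.trans ?_
    apply pow_le_pow_left₀ (by linarith)
    linarith
  rw [norm_mul, norm_pow] at hmax
  nlinarith [norm_nonneg (F z)]

variable {E : Type*} [NormedAddCommGroup E] [InnerProductSpace ℂ E]
variable [FiniteDimensional ℂ E] [MeasurableSpace E] [BorelSpace E]

omit [FiniteDimensional ℂ E] [MeasurableSpace E] [BorelSpace E] in
/-- comparison of the kernels of two scales in the interior -/
theorem kint_le {m : ℕ} {t s : ℝ} (ht : 0 < t) (hts : t ≤ s) {w z : E} (hw : ‖w‖ ≤ 1)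
    (hz : ‖z‖ ≤ 1 - s) :
    kint m t w z ≤ (2 ^ ((m + 2 : ℝ) + 1 / 2) * Real.sqrt (t / s)) * kint m s w z := by
  have hs : 0 < s := ht.trans_le hts
  have h3 : 1 - ‖z‖ ≤ ‖1 - ⟪z, w⟫_ℂ‖ := one_sub_norm_le hw
  have hsym : ‖1 - ⟪w, z⟫_ℂ‖ = ‖1 - ⟪z, w⟫_ℂ‖ := by
    rw [← RCLike.norm_conj (1 - ⟪z, w⟫_ℂ), map_sub, map_one, inner_conj_symm]
  unfold kint
  set u := ‖1 - ⟪w, z⟫_ℂ‖ with hu
  have hus : s ≤ u := by linarith
  have hu0 : 0 < u := hs.trans_le hus
  have h1 : 1 / (u + t) ≤ 2 * (1 / (u + s)) := by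
    rw [mul_one_div, div_le_div_iff₀ (by positivity) (by positivity)]
    linarith
  have h2 : (1 / (u + t)) ^ ((m + 2 : ℝ) + 1 / 2) ≤
      2 ^ ((m + 2 : ℝ) + 1 / 2) * (1 / (u + s)) ^ ((m + 2 : ℝ) + 1 / 2) := by
    rw [← Real.mul_rpow (by norm_num) (by positivity)]
    exact Real.rpow_le_rpow (by positivity) h1 (by positivity)
  have h4 : Real.sqrt t = Real.sqrt (t / s) * Real.sqrt s := by
    rw [← Real.sqrt_mul (by positivity), div_mul_cancel₀ _ hs.ne']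
  rw [h4]
  calc Real.sqrt (t / s) * Real.sqrt s * (1 / (u + t)) ^ ((m + 2 : ℝ) + 1 / 2)
      ≤ Real.sqrt (t / s) * Real.sqrt s *
        (2 ^ ((m + 2 : ℝ) + 1 / 2) * (1 / (u + s)) ^ ((m + 2 : ℝ) + 1 / 2)) :=
        mul_le_mul_of_nonneg_left h2 (by positivity)
    _ = _ := by ring

/-- the increments decay in the interior -/
theorem Dl_decay (J : Type*) [Fintype J] (μ : Measure E) [μ.IsAddHaarMeasure] (m : ℕ)
    (hm : 1 ≤ m) (hdim : Module.finrank ℂ E = m + 1) (M H : ℝ) : ∃ CL : ℝ, 0 ≤ CL ∧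
    ∀ (f h : J → E → ℂ) (e e' : ℕ → ℝ) (C : ℝ) (k : ℕ),
    Dat f e M → Sol h e' k H C → ∀ (j : J) (s : ℝ) (z : E), (1 / 2) ^ k ≤ s → ‖z‖ ≤ 1 - s →
      ‖Dl μ f h m k j z‖ ≤ CL * (e k * Real.sqrt ((1 / 2) ^ k / s)) := by
  obtain ⟨L, hL0, hL⟩ := Phi_lip J M H
  obtain ⟨CI, hCI0, hCI⟩ := kernel_int μ m hm hdim
  have hv := vol_pos μ
  set A : ℝ := Fintype.card J * 1700 * L * ((m + 2) * 8 ^ (m + 3)) with hA
  have hA0 : 0 ≤ A := by rw [hA]; positivity
  set B : ℝ := 2 ^ ((m + 2 : ℝ) + 1 / 2) with hB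
  have hB0 : 0 ≤ B := by rw [hB]; positivity
  refine ⟨(μ.real (ball (0 : E) 1))⁻¹ * (A * B * CI), by positivity, ?_⟩
  intro f h e e' C k hf hh j s z hs hz
  have hek := hf.slow.nonneg k
  have hpow := half_pow_pos k
  have hs0 : 0 < s := hpow.trans_le hs
  have hz1 : ‖z‖ ≤ 1 := by linarith
  have hb : ∀ w ∈ ball (0 : E) 1, ‖itg f h m k j z w‖ ≤
      A * e k * (B * Real.sqrt ((1 / 2) ^ k / s)) * kint m s w z := by
    intro w hw
    have hw1 := (mem_ball_zero_iff.mp hw).le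
    have h1 := itg_bound (m := m) hf hh hL0 (fun x hx i j => (hL x hx i j).1) j hw1 hz1
      (η := 1) le_rfl (by linarith)
    rw [Complex.ofReal_one, one_smul] at h1
    refine h1.trans ?_
    rw [← hA, mul_assoc]
    have h2 := kint_le (m := m) hpow hs hw1 hz
    rw [← hB] at h2
    calc A * (e k * kint m ((1 / 2) ^ k) w z)
        ≤ A * (e k * ((B * Real.sqrt ((1 / 2) ^ k / s)) * kint m s w z)) := by gcongr
      _ = _ := by ring
  obtain ⟨hi1, hi2⟩ := hCI z hz1 s hs0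
  have hi3 : IntegrableOn (fun w => A * e k * (B * Real.sqrt ((1 / 2) ^ k / s)) * kint m s w z)
      (ball 0 1) μ := hi1.const_mul _
  have h1 : ‖∫ w in ball (0 : E) 1, itg f h m k j z w ∂μ‖ ≤
      A * e k * (B * Real.sqrt ((1 / 2) ^ k / s)) * CI := by
    calc _ ≤ ∫ w in ball (0 : E) 1, A * e k * (B * Real.sqrt ((1 / 2) ^ k / s)) *
          kint m s w z ∂μ := by
          apply norm_integral_le_of_norm_le hi3
          exact (ae_restrict_iff' measurableSet_ball).mpr (Eventually.of_forall hb)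
      _ = A * e k * (B * Real.sqrt ((1 / 2) ^ k / s)) *
          ∫ w in ball (0 : E) 1, kint m s w z ∂μ := integral_const_mul _ _
      _ ≤ _ := mul_le_mul_of_nonneg_left hi2 (by positivity)
  rw [Dl, norm_mul, Complex.norm_real, Real.norm_of_nonneg (by positivity)]
  calc _ ≤ (μ.real (ball (0 : E) 1))⁻¹ * (A * e k * (B * Real.sqrt ((1 / 2) ^ k / s)) * CI) :=
        mul_le_mul_of_nonneg_left h1 (by positivity)
    _ = _ := by ring

theorem Slow.iter {e : ℕ → ℝ} (he : Slow e) (k d : ℕ) :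
    e k ≤ (11 / 10) ^ d * e (k + d) ∧ e (k + d) ≤ (11 / 10) ^ d * e k := by
  induction d with
  | zero => simp
  | succ d ih =>
    have h1 := he.up (k + d)
    have h2 := he.down (k + d)
    have h3 : (0 : ℝ) ≤ (11 / 10) ^ d := by positivity
    rw [← add_assoc, pow_succ]
    constructor
    · calc e k ≤ (11 / 10) ^ d * e (k + d) := ih.1
        _ ≤ (11 / 10) ^ d * (11 / 10 * e (k + d + 1)) := mul_le_mul_of_nonneg_left h2 h3
        _ = _ := by ring
    · calc e (k + d + 1) ≤ 11 / 10 * e (k + d) := h1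
        _ ≤ 11 / 10 * ((11 / 10) ^ d * e k) := mul_le_mul_of_nonneg_left ih.2 (by norm_num)
        _ = _ := by ring

theorem sqrt_half_pow (d : ℕ) : Real.sqrt ((1 / 2) ^ d) ≤ (8 / 11) ^ d := by
  rw [Real.sqrt_le_left (by positivity), ← pow_mul, mul_comm, pow_mul]
  exact pow_le_pow_left₀ (by norm_num) (by norm_num) d

/-- convergence of the flow in the interior -/
theorem flow_limit {J : Type*} [Fintype J] (μ : Measure E) [μ.IsAddHaarMeasure] {m : ℕ}
    (hm : 1 ≤ m) (hdim : Module.finrank ℂ E = m + 1)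
    {M H C : ℝ} {f h₀ : J → E → ℂ} {e e' : ℕ → ℝ} {k₀ : ℕ} (hf : Dat f e M)
    (hs : ∀ i, Sol (flow μ f h₀ m k₀ i) e' (k₀ + i) H C) :
    ∃ h : J → E → ℂ, (∀ j, DifferentiableOn ℂ (h j) (ball 0 1)) ∧
      (∀ j, ∀ z ∈ ball (0 : E) 1, ‖h j z‖ ≤ H) ∧
      ∀ j, ∀ z ∈ ball (0 : E) 1,
        Tendsto (fun i => flow μ f h₀ m k₀ i j z) atTop (𝓝 (h j z)) := by
  obtain ⟨CL, hCL0, hCL⟩ := Dl_decay J μ m hm hdim M H
  -- geometric decay of the increments, at the levels `k₀ + p + i`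
  have hdist : ∀ (j : J) (p : ℕ) (z : E), ‖z‖ ≤ 1 - (1 / 2) ^ (k₀ + p) → ∀ i,
      dist (flow μ f h₀ m k₀ (p + i) j z) (flow μ f h₀ m k₀ (p + i + 1) j z) ≤
        CL * e (k₀ + p) * (4 / 5) ^ i := by
    intro j p z hz i
    have hk : k₀ + (p + i) = k₀ + p + i := by ring
    have hle : ((1 : ℝ) / 2) ^ (k₀ + (p + i)) ≤ (1 / 2) ^ (k₀ + p) :=
      pow_le_pow_of_le_one (by norm_num) (by norm_num) (by omega)
    have h1 := hCL f _ e e' C (k₀ + (p + i)) hf (hs (p + i)) j ((1 / 2) ^ (k₀ + p)) z hle hz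
    have e1 : flow μ f h₀ m k₀ (p + i + 1) j z = flow μ f h₀ m k₀ (p + i) j z +
        Dl μ f (flow μ f h₀ m k₀ (p + i)) m (k₀ + (p + i)) j z := rfl
    rw [e1, dist_self_add_right]
    refine h1.trans ?_
    rw [mul_assoc]
    apply mul_le_mul_of_nonneg_left _ hCL0
    have h2 : ((1 : ℝ) / 2) ^ (k₀ + (p + i)) / (1 / 2) ^ (k₀ + p) = (1 / 2) ^ i := by
      rw [hk, pow_add _ (k₀ + p) i]
      field_simp
    rw [h2, hk]
    have h3 := (hf.slow.iter (k₀ + p) i).2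
    have h4 := sqrt_half_pow i
    have h5 := hf.slow.nonneg (k₀ + p)
    calc e (k₀ + p + i) * Real.sqrt ((1 / 2) ^ i)
        ≤ ((11 / 10) ^ i * e (k₀ + p)) * (8 / 11) ^ i :=
          mul_le_mul h3 h4 (Real.sqrt_nonneg _) (by positivity)
      _ = e (k₀ + p) * ((11 / 10) ^ i * (8 / 11) ^ i) := by ring
      _ = _ := by rw [← mul_pow]; norm_num
  have hex : ∀ r : ℝ, r < 1 → ∃ p : ℕ, r ≤ 1 - (1 / 2) ^ (k₀ + p) := by
    intro r hr
    obtain ⟨p, hp⟩ := exists_pow_lt_of_lt_one (show (0 : ℝ) < 1 - r by linarith)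
      (show (1 / 2 : ℝ) < 1 by norm_num)
    refine ⟨p, ?_⟩
    have : ((1 : ℝ) / 2) ^ (k₀ + p) ≤ (1 / 2) ^ p :=
      pow_le_pow_of_le_one (by norm_num) (by norm_num) (by omega)
    linarith
  have hlim : ∀ (j : J) (z : E), ∃ L : ℂ, z ∈ ball (0 : E) 1 →
      Tendsto (fun i => flow μ f h₀ m k₀ i j z) atTop (𝓝 L) := by
    intro j z
    by_cases hz : z ∈ ball (0 : E) 1
    · rw [mem_ball_zero_iff] at hz
      obtain ⟨p, hp⟩ := hex _ hz
      have hcau : CauchySeq (fun i => flow μ f h₀ m k₀ (p + i) j z) :=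
        cauchySeq_of_le_geometric (4 / 5) (CL * e (k₀ + p)) (by norm_num) (hdist j p z hp)
      obtain ⟨L, hL⟩ := cauchySeq_tendsto_of_complete hcau
      refine ⟨L, fun _ => ?_⟩
      rw [← tendsto_add_atTop_iff_nat p]
      refine hL.congr fun i => ?_
      rw [add_comm]
    · exact ⟨0, fun h => absurd h hz⟩
  choose h hh using hlim
  have hbd : ∀ j, ∀ z ∈ ball (0 : E) 1, ‖h j z‖ ≤ H := by
    intro j z hz
    refine le_of_tendsto (hh j z hz).norm (Eventually.of_forall fun i => ?_)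
    exact (hs i).bd j z (mem_ball_zero_iff.mp hz).le
  refine ⟨h, ?_, hbd, hh⟩
  intro j z₀ hz₀
  have hz₀' := mem_ball_zero_iff.mp hz₀
  obtain ⟨p, hp⟩ := hex ((1 + ‖z₀‖) / 2) (by linarith)
  set s : ℝ := (1 / 2) ^ (k₀ + p) with hsdef
  have hs0 : 0 < s := half_pow_pos _
  have hsub : ball (0 : E) (1 - s) ⊆ ball 0 1 := ball_subset_ball (by linarith)
  have hd : DifferentiableOn ℂ (h j) (ball 0 (1 - s)) := by
    apply differentiableOn_of_unif_limit isOpen_ball (G := fun i => flow μ f h₀ m k₀ (p + i) j)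
      (ε := fun i => CL * e (k₀ + p) * (4 / 5) ^ i / (1 - 4 / 5)) (M := H)
    · intro i
      apply ((hs (p + i)).hol j).mono
      apply ball_subset_ball
      have := half_pow_pos (k₀ + (p + i))
      linarith
    · have h1 : Tendsto (fun i : ℕ => ((4 : ℝ) / 5) ^ i) atTop (𝓝 0) :=
        tendsto_pow_atTop_nhds_zero_of_lt_one (by norm_num) (by norm_num)
      have h2 := (h1.const_mul (CL * e (k₀ + p))).div_const (1 - 4 / 5)
      simpa using h2
    · intro i z hz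
      have hz' := (mem_ball_zero_iff.mp hz).le
      have hlim' : Tendsto (fun i => flow μ f h₀ m k₀ (p + i) j z) atTop (𝓝 (h j z)) := by
        have := (tendsto_add_atTop_iff_nat p).mpr (hh j z (hsub hz))
        refine this.congr fun i => ?_
        rw [add_comm]
      have h1 := dist_le_of_le_geometric_of_tendsto (4 / 5) _ (by norm_num)
        (hdist j p z hz') hlim' i
      rw [dist_eq_norm] at h1
      exact h1
    · intro z hz
      exact hbd j z (hsub hz)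
  have hmem : z₀ ∈ ball (0 : E) (1 - s) := by
    rw [mem_ball_zero_iff]
    linarith
  exact (hd.differentiableAt (isOpen_ball.mem_nhds hmem)).differentiableWithinAt

end Pool.Agent.MPca0fc2.SD
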