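import Mathlib
import Pool.Agent.Lib.MP_ca0fc2_an.SDLocal

set_option autoImplicit false

open Metric Set MeasureTheory Filter Topology
open scoped InnerProductSpace

namespace Pool.Agent.MPca0fc2.SD

open Pool.Agent.Lib.MP_ca0fc2_an

/-- two-sided geometric sums -/
theorem two_sided (k n : ℕ) :
    ∑ p ∈ Finset.range n, (4 / 5 : ℝ) ^ ((k - p) + (p - k)) ≤ 9 := by
  have key : ∀ n, (n ≤ k → ∑ p ∈ Finset.range n, (4 / 5 : ℝ) ^ ((k - p) + (p - k)) ≤
      4 * (4 / 5) ^ (k - n)) ∧ (k ≤ n → ∑ p ∈ Finset.range n, (4 / 5 : ℝ) ^ ((k - p) + (p - k)) ≤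
      9 - 5 * (4 / 5) ^ (n - k)) := by
    intro n
    induction n with
    | zero =>
      constructor
      · intro _
        simp only [Finset.range_zero, Finset.sum_empty]
        positivity
      · intro h
        have : k = 0 := by omega
        subst this
        norm_num
    | succ n ih =>
      rw [Finset.sum_range_succ]
      constructor
      · intro h
        have h1 := ih.1 (by omega)
        have h2 : k - n + (n - k) = (k - (n + 1)) + 1 := by omega
        have h3 : k - n = (k - (n + 1)) + 1 := by omega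
        rw [h2]
        rw [h3] at h1
        rw [pow_succ] at h1 ⊢
        linarith
      · intro h
        rcases Nat.lt_or_ge n k with h1 | h1
        · have h2 : n + 1 = k := by omega
          have h3 := ih.1 (by omega)
          have h4 : k - n + (n - k) = 1 := by omega
          have h5 : k - n = 1 := by omega
          have h6 : n + 1 - k = 0 := by omega
          rw [h4, h6]
          rw [h5] at h3
          norm_num at h3 ⊢
          linarith
        · have h3 := ih.2 h1
          have h4 : k - n + (n - k) = n - k := by omega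
          have h5 : n + 1 - k = (n - k) + 1 := by omega
          rw [h4, h5, pow_succ]
          linarith
  rcases le_total n k with h | h
  · have h1 := (key n).1 h
    have h2 : (4 / 5 : ℝ) ^ (k - n) ≤ 1 := pow_le_one₀ (by norm_num) (by norm_num)
    linarith
  · have h1 := (key n).2 h
    have h2 : (0 : ℝ) ≤ (4 / 5) ^ (n - k) := by positivity
    linarith

variable {E : Type*} [NormedAddCommGroup E] [InnerProductSpace ℂ E]

/-- Lipschitz bound for functions that are holomorphic in a slightly bigger ball -/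
theorem lip_ball {G : E → ℂ} {t B : ℝ} (ht : 0 < t)
    (hG : DifferentiableOn ℂ G (ball 0 (1 + t / 16)))
    (hGB : ∀ z ∈ ball (0 : E) (1 + t / 16), ‖G z‖ ≤ B) {a b : E} (ha : ‖a‖ ≤ 1) (hb : ‖b‖ ≤ 1) :
    ‖G a - G b‖ ≤ 32 * B / t * ‖a - b‖ := by
  have hsub : ∀ x ∈ closedBall (0 : E) 1, ball x (t / 16) ⊆ ball 0 (1 + t / 16) := by
    intro x hx y hy
    rw [mem_closedBall_zero_iff] at hx
    rw [mem_ball, dist_eq_norm] at hy
    rw [mem_ball_zero_iff]
    calc ‖y‖ = ‖(y - x) + x‖ := by rw [sub_add_cancel]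
      _ ≤ ‖y - x‖ + ‖x‖ := norm_add_le _ _
      _ < 1 + t / 16 := by linarith
  have hB : 0 ≤ B := (norm_nonneg _).trans (hGB 0 (mem_ball_self (by positivity)))
  have h1 : ∀ x ∈ closedBall (0 : E) 1, DifferentiableAt ℂ G x := fun x hx =>
    hG.differentiableAt (isOpen_ball.mem_nhds (hsub x hx (mem_ball_self (by positivity))))
  have h2 : ∀ x ∈ closedBall (0 : E) 1, ‖fderiv ℂ G x‖ ≤ 32 * B / t := by
    intro x hx
    apply ContinuousLinearMap.opNorm_le_bound _ (by positivity)
    intro v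
    have h3 := norm_fderiv_apply_le (show 0 < t / 16 by positivity) (hG.mono (hsub x hx))
      (fun z hz => hGB z (hsub x hx hz)) v
    refine h3.trans (le_of_eq ?_)
    field_simp
    ring
  have h5 := (convex_closedBall (0 : E) 1).norm_image_sub_le_of_norm_fderiv_le h1 h2
    (mem_closedBall_zero_iff.mpr hb) (mem_closedBall_zero_iff.mpr ha)
  exact h5

/-- oscillation at the hyperbolic scale -/
def HOsc (h : E → ℂ) (e' : ℕ → ℝ) (K : ℝ) : Prop :=
  ∀ (k : ℕ) (z w : E), ‖z‖ ≤ rr k → ‖w - z‖ ≤ (1 / 2) ^ k / 2 → ‖h w - h z‖ ≤ K * e' k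

variable [FiniteDimensional ℂ E] [MeasurableSpace E] [BorelSpace E]

omit [FiniteDimensional ℂ E] [BorelSpace E] in
theorem flow_sum {J : Type*} [Fintype J] (μ : Measure E) (f h₀ : J → E → ℂ) (m k₀ i : ℕ)
    (j : J) (z : E) : flow μ f h₀ m k₀ i j z =
      h₀ j z + ∑ l ∈ Finset.range i, Dl μ f (flow μ f h₀ m k₀ l) m (k₀ + l) j z := by
  induction i with
  | zero => simp [flow]
  | succ i ih =>
    rw [Finset.sum_range_succ, ← add_assoc, ← ih]
    rfl

/-- oscillation of the flow in the interior -/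
theorem flow_osc (J : Type*) [Fintype J] (μ : Measure E) [μ.IsAddHaarMeasure] (m : ℕ)
    (hm : 1 ≤ m) (hdim : Module.finrank ℂ E = m + 1) (M H : ℝ) : ∃ Cg : ℝ, 0 ≤ Cg ∧
    ∀ (f h₀ : J → E → ℂ) (e e' : ℕ → ℝ) (C K : ℝ) (k₀ : ℕ), Dat f e M → Slow e' →
      (∀ k, e k ≤ e' k) → (∀ i, Sol (flow μ f h₀ m k₀ i) e' (k₀ + i) H C) →
      (∀ j, HOsc (h₀ j) e' K) → ∀ i j, HOsc (flow μ f h₀ m k₀ i j) e' (K + Cg) := by
  obtain ⟨CD, hCD0, hCD⟩ := Dl_bound J μ m hm hdim M H
  obtain ⟨CL, hCL0, hCL⟩ := Dl_decay J μ m hm hdim M H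
  refine ⟨9 * (16 * CD + 3 * CL), by positivity, ?_⟩
  intro f h₀ e e' C K k₀ hf hs' hee hs h0 i j k z w hz hw
  have hek' := hs'.nonneg k
  have hpk := half_pow_pos k
  have hz1 : ‖z‖ ≤ 1 := by
    have := rr_lt_one k; linarith
  have hwz : ‖w‖ ≤ 1 - (1 / 2) ^ k / 2 := by
    have h1 : ‖w‖ ≤ ‖w - z‖ + ‖z‖ := by
      calc ‖w‖ = ‖(w - z) + z‖ := by rw [sub_add_cancel]
        _ ≤ _ := norm_add_le _ _
    have h2 : rr k = 1 - (1 / 2) ^ k := rfl
    linarith
  have hzs : ‖z‖ ≤ 1 - (1 / 2) ^ k / 2 := by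
    have h2 : rr k = 1 - (1 / 2) ^ k := rfl
    linarith
  have hw1 : ‖w‖ ≤ 1 := by linarith
  have key : ∀ l, ‖Dl μ f (flow μ f h₀ m k₀ l) m (k₀ + l) j w -
      Dl μ f (flow μ f h₀ m k₀ l) m (k₀ + l) j z‖ ≤
      (16 * CD + 3 * CL) * e' k * (4 / 5) ^ ((k - (k₀ + l)) + ((k₀ + l) - k)) := by
    intro l
    set p := k₀ + l with hp
    have hpp := half_pow_pos p
    have hep := hf.slow.nonneg p
    rcases Nat.lt_or_ge p k with hpk' | hpk'
    · obtain ⟨d, hd⟩ : ∃ d, k = p + d := ⟨k - p, by omega⟩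
      have h1 := lip_ball hpp (Dl_hol μ hm hdim hf (hs l) j)
        (fun x hx => (hCD f _ e e' C p hf (hs l) j x (mem_ball_zero_iff.mp hx).le).2) hw1 hz1
      have h2 : (k - p) + (p - k) = d := by omega
      rw [h2]
      have h3 := (hs'.iter p d).1
      rw [← hd] at h3
      have h4 : e p ≤ (11 / 10) ^ d * e' k := (hee p).trans h3
      have h5 : ((1 : ℝ) / 2) ^ k = (1 / 2) ^ p * (1 / 2) ^ d := by rw [hd, pow_add]
      calc _ ≤ 32 * (CD * e p) / (1 / 2) ^ p * ‖w - z‖ := h1
        _ ≤ 32 * (CD * ((11 / 10) ^ d * e' k)) / (1 / 2) ^ p * ((1 / 2) ^ k / 2) := by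
            gcongr
        _ = 16 * CD * e' k * ((11 / 10) ^ d * (1 / 2) ^ d) := by
            rw [h5]; field_simp; ring
        _ = 16 * CD * e' k * (11 / 20) ^ d := by rw [← mul_pow]; norm_num
        _ ≤ (16 * CD + 3 * CL) * e' k * (4 / 5) ^ d := by
            have ha : (11 / 20 : ℝ) ^ d ≤ (4 / 5) ^ d :=
              pow_le_pow_left₀ (by norm_num) (by norm_num) d
            have hb : 16 * CD * e' k ≤ (16 * CD + 3 * CL) * e' k :=
              mul_le_mul_of_nonneg_right (by linarith) hek'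
            exact mul_le_mul hb ha (by positivity) (by positivity)
    · obtain ⟨d, hd⟩ : ∃ d, p = k + d := ⟨p - k, by omega⟩
      have h2 : (k - p) + (p - k) = d := by omega
      rw [h2]
      have h3 := (hs'.iter k d).2
      rw [← hd] at h3
      have h4 : e p ≤ (11 / 10) ^ d * e' k := (hee p).trans h3
      have hsle : ((1 : ℝ) / 2) ^ (p + 1) ≤ (1 / 2) ^ k / 2 := by
        rw [pow_succ, hd, pow_add]
        have : ((1 : ℝ) / 2) ^ d ≤ 1 := pow_le_one₀ (by norm_num) (by norm_num)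
        nlinarith
      rcases Nat.eq_zero_or_pos d with hd0 | hd0
      · -- same level: use the global bound
        have e1 := (hCD f _ e e' C p hf (hs l) j w (by linarith)).2
        have e2 := (hCD f _ e e' C p hf (hs l) j z (by linarith)).2
        rw [hd0] at h4 ⊢
        simp only [pow_zero, one_mul] at h4
        calc _ ≤ CD * e p + CD * e p := (norm_sub_le _ _).trans (add_le_add e1 e2)
          _ = 2 * CD * e p := by ring
          _ ≤ 2 * CD * e' k := by gcongr
          _ ≤ (16 * CD + 3 * CL) * e' k * (4 / 5) ^ 0 := by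
              rw [pow_zero, mul_one]
              apply mul_le_mul_of_nonneg_right _ hek'
              linarith
      · have hps : ((1 : ℝ) / 2) ^ p ≤ (1 / 2) ^ k / 2 := by
          obtain ⟨d', hd'⟩ : ∃ d', d = d' + 1 := ⟨d - 1, by omega⟩
          rw [hd, hd', ← add_assoc, pow_succ, pow_add]
          have : ((1 : ℝ) / 2) ^ d' ≤ 1 := pow_le_one₀ (by norm_num) (by norm_num)
          nlinarith
        have e1 := hCL f _ e e' C p hf (hs l) j ((1 / 2) ^ k / 2) w hps hwz
        have e2 := hCL f _ e e' C p hf (hs l) j ((1 / 2) ^ k / 2) z hps hzs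
        have e3 : Real.sqrt ((1 / 2) ^ p / ((1 / 2) ^ k / 2)) ≤ 3 / 2 * (8 / 11) ^ d := by
          have h5 : ((1 : ℝ) / 2) ^ p / ((1 / 2) ^ k / 2) = 2 * (1 / 2) ^ d := by
            rw [hd, pow_add]; field_simp
          rw [h5, Real.sqrt_mul (by norm_num)]
          apply mul_le_mul _ (sqrt_half_pow d) (Real.sqrt_nonneg _) (by norm_num)
          rw [Real.sqrt_le_left (by norm_num)]
          norm_num
        calc _ ≤ _ := (norm_sub_le _ _).trans (add_le_add e1 e2)
          _ = 2 * CL * (e p * Real.sqrt ((1 / 2) ^ p / ((1 / 2) ^ k / 2))) := by ring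
          _ ≤ 2 * CL * (((11 / 10) ^ d * e' k) * (3 / 2 * (8 / 11) ^ d)) := by
              apply mul_le_mul_of_nonneg_left _ (by positivity)
              exact mul_le_mul h4 e3 (Real.sqrt_nonneg _) (by positivity)
          _ = 3 * CL * e' k * ((11 / 10) ^ d * (8 / 11) ^ d) := by ring
          _ = 3 * CL * e' k * (4 / 5) ^ d := by rw [← mul_pow]; norm_num
          _ ≤ _ := by
              gcongr
              linarith
  rw [flow_sum, flow_sum]
  have e1 : h₀ j w + ∑ l ∈ Finset.range i, Dl μ f (flow μ f h₀ m k₀ l) m (k₀ + l) j w -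
      (h₀ j z + ∑ l ∈ Finset.range i, Dl μ f (flow μ f h₀ m k₀ l) m (k₀ + l) j z) =
      (h₀ j w - h₀ j z) + ∑ l ∈ Finset.range i, (Dl μ f (flow μ f h₀ m k₀ l) m (k₀ + l) j w -
        Dl μ f (flow μ f h₀ m k₀ l) m (k₀ + l) j z) := by
    rw [Finset.sum_sub_distrib]; ring
  rw [e1, add_mul]
  refine (norm_add_le _ _).trans (add_le_add (h0 j k z w hz hw) ?_)
  calc _ ≤ ∑ l ∈ Finset.range i, (16 * CD + 3 * CL) * e' k *
        (4 / 5) ^ ((k - (k₀ + l)) + ((k₀ + l) - k)) := norm_sum_le_of_le _ fun l _ => key l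
    _ = (16 * CD + 3 * CL) * e' k * ∑ l ∈ Finset.range i,
        (4 / 5 : ℝ) ^ ((k - (k₀ + l)) + ((k₀ + l) - k)) := by rw [Finset.mul_sum]
    _ ≤ (16 * CD + 3 * CL) * e' k * 9 := by
        apply mul_le_mul_of_nonneg_left _ (by positivity)
        calc ∑ l ∈ Finset.range i, (4 / 5 : ℝ) ^ ((k - (k₀ + l)) + ((k₀ + l) - k))
            = ∑ p ∈ Finset.Ico k₀ (k₀ + i), (4 / 5 : ℝ) ^ ((k - p) + (p - k)) := by
              rw [Finset.sum_Ico_eq_sum_range]; simp
          _ ≤ ∑ p ∈ Finset.range (k₀ + i), (4 / 5 : ℝ) ^ ((k - p) + (p - k)) := by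
              apply Finset.sum_le_sum_of_subset_of_nonneg
              · intro p hp
                rw [Finset.mem_Ico] at hp
                exact Finset.mem_range.mpr hp.2
              · intro p _ _
                positivity
          _ ≤ 9 := two_sided k _
    _ = _ := by ring

end Pool.Agent.MPca0fc2.SD
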