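import Mathlib
import Pool.Agent.Lib.MP_ca0fc2_an.SDReg
import Pool.Agent.Lib.MP_ca0fc2_an.Defs
import Pool.Agent.Lib.MP_ca0fc2_an.SDLocal

set_option autoImplicit false

open Metric Set MeasureTheory Filter Topology
open scoped InnerProductSpace

namespace Pool.Agent.MPca0fc2.SD

open Pool.Agent.Lib.MP_ca0fc2_an

variable {E : Type*} [NormedAddCommGroup E] [InnerProductSpace ℂ E]
variable [FiniteDimensional ℂ E] [MeasurableSpace E] [BorelSpace E]

/-- the initial vector -/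
theorem exists_init {J : Type*} [Fintype J] (v : J → ℂ) (j₀ : J) (hv : v j₀ = 0) {δ : ℝ}
    (hδ : 0 < δ) (h : δ ≤ ∑ j, ‖v j‖ ^ 2) :
    ∃ a : J → ℂ, ∑ j, ‖a j‖ ^ 2 = 1 + 4 / δ ∧ ∑ j, v j * a j = 1 := by
  classical
  set S : ℝ := ∑ j, ‖v j‖ ^ 2 with hS
  have hS0 : 0 < S := hδ.trans_le h
  have h1 : 1 / S ≤ 1 / δ := one_div_le_one_div_of_le hδ h
  have h2 : 1 / δ ≤ 4 / δ := by gcongr; norm_num
  set c : ℝ := Real.sqrt (1 + 4 / δ - 1 / S) with hc
  have hc2 : c ^ 2 = 1 + 4 / δ - 1 / S := Real.sq_sqrt (by linarith)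
  refine ⟨fun j => (starRingEnd ℂ) (v j) / (S : ℂ) + if j = j₀ then (c : ℂ) else 0, ?_, ?_⟩
  · have e1 : ∀ j, ‖(starRingEnd ℂ) (v j) / (S : ℂ) + if j = j₀ then (c : ℂ) else 0‖ ^ 2 =
        ‖v j‖ ^ 2 / S ^ 2 + if j = j₀ then c ^ 2 else 0 := by
      intro j
      split_ifs with hj
      · rw [hj, hv]
        simp only [map_zero, zero_div, zero_add, norm_zero]
        rw [Complex.norm_real, Real.norm_eq_abs, sq_abs]
        norm_num
      · rw [add_zero, add_zero, norm_div, RCLike.norm_conj, Complex.norm_real,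
          Real.norm_of_nonneg hS0.le, div_pow]
    simp only [e1]
    rw [Finset.sum_add_distrib, ← Finset.sum_div, Finset.sum_ite_eq' Finset.univ j₀, ← hS,
      if_pos (Finset.mem_univ _), hc2]
    field_simp
    ring
  · have e1 : ∀ j, v j * ((starRingEnd ℂ) (v j) / (S : ℂ) + if j = j₀ then (c : ℂ) else 0) =
        ((‖v j‖ ^ 2 : ℝ) : ℂ) / (S : ℂ) := by
      intro j
      split_ifs with hj
      · rw [hj, hv]; simp
      · rw [add_zero, mul_div_assoc', Complex.mul_conj']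
        push_cast; rfl
    simp only [e1]
    rw [← Finset.sum_div, ← Complex.ofReal_sum, ← hS, div_self]
    exact_mod_cast hS0.ne'

theorem rr_tendsto (k₀ : ℕ) : Tendsto (fun i : ℕ => rr (k₀ + i)) atTop (𝓝 1) := by
  have h2 : Tendsto (fun i : ℕ => ((1 : ℝ) / 2) ^ (k₀ + i)) atTop (𝓝 0) := by
    have := (tendsto_pow_atTop_nhds_zero_of_lt_one (r := (1 : ℝ) / 2) (by norm_num)
      (by norm_num)).comp (tendsto_add_atTop_nat k₀)
    refine this.congr fun i => ?_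
    simp only [Function.comp, add_comm]
  have h3 := h2.const_sub 1
  rw [sub_zero] at h3
  exact h3

omit [MeasurableSpace E] [BorelSpace E] [FiniteDimensional ℂ E] in
/-- the product function of a level is holomorphic in a slightly bigger ball -/
theorem gg_hol {J : Type*} [Fintype J] {f h : J → E → ℂ} {e e' : ℕ → ℝ} {M H C : ℝ} {k : ℕ}
    (hf : Dat f e M) (hS : Sol h e' k H C) :
    DifferentiableOn ℂ (fun z => gg (pt f h k z) - 1) (ball 0 (1 + (1 / 2) ^ k / 8)) := by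
  have hpw := half_pow_pos k
  have hpw1 := half_pow_le_one k
  have hr := rr_nonneg k
  apply DifferentiableOn.sub_const
  have : DifferentiableOn ℂ (fun z => ∑ j, f j ((rr k : ℂ) • z) *
      h j z) (ball 0 (1 + (1 / 2) ^ k / 8)) := by
    apply DifferentiableOn.fun_sum
    intro j _
    apply DifferentiableOn.mul _ (hS.hol j)
    apply (hf.grad j).hol.comp
    · exact (differentiable_id.const_smul _).differentiableOn
    · intro w hw
      rw [mem_ball_zero_iff] at hw ⊢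
      rw [norm_smul, Complex.norm_real, Real.norm_of_nonneg hr]
      have : rr k = 1 - (1 / 2) ^ k := rfl
      nlinarith [norm_nonneg w]
  exact this

omit [MeasurableSpace E] [BorelSpace E] [FiniteDimensional ℂ E] in
theorem gg_bd {J : Type*} [Fintype J] {f h : J → E → ℂ} {e e' : ℕ → ℝ} {M H C : ℝ} {k : ℕ}
    (hf : Dat f e M) (hS : Sol h e' k H C) {w : E} (hw : ‖w‖ ≤ 1) :
    ‖gg (pt f h k w) - 1‖ ≤ Fintype.card J * (|M| * H) + 1 := by
  refine (norm_sub_le _ _).trans ?_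
  rw [norm_one]
  apply add_le_add _ le_rfl
  calc _ ≤ ∑ j : J, |M| * H := by
        apply norm_sum_le_of_le
        intro j _
        rw [norm_mul]
        apply mul_le_mul _ (hS.bd j w hw) (norm_nonneg _) (abs_nonneg _)
        exact ((pt_mem hf hS hw).1 j).trans (le_abs_self M)
    _ = _ := by rw [Finset.sum_const, Finset.card_univ, nsmul_eq_mul]

omit [FiniteDimensional ℂ E] [BorelSpace E] in
/-- passage to the limit in the products -/
theorem gg_limit {J : Type*} [Fintype J] (μ : Measure E) {m k₀ : ℕ} {f h₀ h : J → E → ℂ}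
    {e : ℕ → ℝ} {M : ℝ} (hf : Dat f e M)
    (hh : ∀ j, ∀ z ∈ ball (0 : E) 1,
        Tendsto (fun i => flow μ f h₀ m k₀ i j z) atTop (𝓝 (h j z)))
    {z : E} (hz : z ∈ ball (0 : E) 1) :
    Tendsto (fun i => gg (pt f (flow μ f h₀ m k₀ i) (k₀ + i) z) - 1) atTop
      (𝓝 (∑ j, f j z * h j z - 1)) := by
  apply Tendsto.sub _ tendsto_const_nhds
  unfold gg
  apply tendsto_finsetSum
  intro j _
  simp only [pt]
  apply Tendsto.mul _ (hh j z hz)
  have hcont : ContinuousAt (f j) z :=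
    ((hf.grad j).hol.differentiableAt (isOpen_ball.mem_nhds hz)).continuousAt
  have h2 : Tendsto (fun i : ℕ => (rr (k₀ + i) : ℂ) • z) atTop (𝓝 z) := by
    have h3 := ((Complex.continuous_ofReal.tendsto 1).comp (rr_tendsto k₀)).smul_const z
    rw [Complex.ofReal_one, one_smul] at h3
    exact h3
  exact hcont.tendsto.comp h2

theorem exists_tail {e : ℕ → ℝ} (hes : Summable fun k => e k ^ 2) {ε : ℝ} (hε0 : 0 < ε)
    (K : ℕ) : ∃ k₀, K ≤ k₀ ∧ ∀ n, ∑ i ∈ Finset.range n, e (k₀ + i) ^ 2 ≤ ε := by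
  have h1 := tendsto_sum_nat_add (fun k => e k ^ 2)
  obtain ⟨k₀, hk₀, hK⟩ := ((h1.eventually_lt_const hε0).and (eventually_ge_atTop K)).exists
  refine ⟨k₀, hK, fun n => ?_⟩
  have h2 : Summable fun i => e (i + k₀) ^ 2 :=
    (summable_nat_add_iff (f := fun k => e k ^ 2) k₀).mpr hes
  have h3 := h2.sum_le_tsum (Finset.range n) (fun i _ => sq_nonneg _)
  have h4 : ∑ i ∈ Finset.range n, e (k₀ + i) ^ 2 = ∑ i ∈ Finset.range n, e (i + k₀) ^ 2 := by
    simp only [add_comm]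
  rw [h4]
  exact h3.trans hk₀.le

omit [MeasurableSpace E] [BorelSpace E] [FiniteDimensional ℂ E] in
/-- the points above a small cap are close to its centre -/
theorem near_of_cap {l z : E} (hl : ‖l‖ = 1) (hz : ‖z‖ = 1) {k₀ k : ℕ} (hk : k₀ ≤ k) {ρ₁ : ℝ}
    (hρ₁ : 0 < ρ₁) (h1 : ((1 : ℝ) / 2) ^ k₀ ≤ ρ₁ ^ 2 / 16) (h2 : ((1 : ℝ) / 2) ^ k₀ ≤ ρ₁ / 4)
    (hzl : ‖1 - ⟪z, l⟫_ℂ‖ ≤ (1 / 2) ^ k₀) : (rr k : ℂ) • z ∈ ball (0 : E) 1 ∩ ball l ρ₁ := by
  refine ⟨smul_mem_ball_of (rr_nonneg _) (rr_lt_one _) hz.le, ?_⟩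
  rw [mem_ball, dist_eq_norm]
  have h3 := norm_sub_sq_le_two hz.le hl.le
  have h4 : ‖l - z‖ ≤ ρ₁ / 2 := by
    apply le_of_sq_le_sq _ (by positivity)
    nlinarith
  have h5 : ‖(rr k : ℂ) • z - z‖ = (1 / 2) ^ k := by
    have : (rr k : ℂ) • z - z = ((-((1 / 2) ^ k) : ℝ) : ℂ) • z := by
      have h6 : ((-((1 / 2) ^ k) : ℝ) : ℂ) = (rr k : ℂ) - 1 := by
        unfold rr; push_cast; ring
      rw [h6, sub_smul, one_smul]
    rw [this, norm_smul, Complex.norm_real, hz, mul_one, norm_neg,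
      Real.norm_of_nonneg (half_pow_pos k).le]
  have h6 : ((1 : ℝ) / 2) ^ k ≤ (1 / 2) ^ k₀ :=
    pow_le_pow_of_le_one (by norm_num) (by norm_num) hk
  calc ‖(rr k : ℂ) • z - l‖ = ‖((rr k : ℂ) • z - z) + (z - l)‖ := by congr 1; abel
    _ ≤ ‖(rr k : ℂ) • z - z‖ + ‖z - l‖ := norm_add_le _ _
    _ < ρ₁ := by rw [h5, norm_sub_rev z l]; linarith

/-- Local solvability near each boundary point. -/
theorem local_thm (J : Type*) [Fintype J] (μ : Measure E) [μ.IsAddHaarMeasure] (m : ℕ)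
    (hm : 1 ≤ m) (hdim : Module.finrank ℂ E = m + 1) (M δ ρ₁ : ℝ) (hδ : 0 < δ) (hρ₁ : 0 < ρ₁)
    (e : ℕ → ℝ) (hes : Summable fun k => e k ^ 2) :
    ∃ ρ : ℝ, 0 < ρ ∧ ∀ f : J → E → ℂ, Dat f e M → (∃ j₀, ∀ z, f j₀ z = 0) →
      ∀ l : E, ‖l‖ = 1 → (∀ z ∈ ball (0 : E) 1 ∩ ball l ρ₁, δ ≤ ∑ j, ‖f j z‖ ^ 2) →
      ∃ h : J → E → ℂ, (∀ j, DifferentiableOn ℂ (h j) (ball 0 1)) ∧
        (∀ j, ∀ z ∈ ball (0 : E) 1, ‖h j z‖ ≤ Real.sqrt (2 + 4 / δ)) ∧
        ∀ z ∈ ball (0 : E) 1 ∩ ball l ρ, ‖∑ j, f j z * h j z - 1‖ ≤ 1 / 4 := by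
  have hnt : Nontrivial E := Module.nontrivial_of_finrank_pos (R := ℂ) (by omega)
  set H : ℝ := Real.sqrt (2 + 4 / δ) with hH
  have hHsq : H ^ 2 = 2 + 4 / δ := Real.sq_sqrt (by positivity)
  have hH0 : 0 ≤ H := Real.sqrt_nonneg _
  obtain ⟨ε, C, hε0, -, hC0, hinv⟩ := flow_inv J μ m hm hdim M δ H 0 hδ hH0
  set D : ℝ := 16 * (1672 * Fintype.card J * H + 1) with hD
  have hD0 : 0 < D := by positivity
  -- the starting level
  obtain ⟨K, hK⟩ := exists_pow_lt_of_lt_one (show 0 < min (ρ₁ ^ 2 / 16) (ρ₁ / 4) by positivity)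
    (show (1 / 2 : ℝ) < 1 by norm_num)
  obtain ⟨k₀, hKk, hk₀⟩ := exists_tail hes (show 0 < min ε ((1 / D) ^ 2) by positivity) K
  have hkK : ((1 : ℝ) / 2) ^ k₀ ≤ min (ρ₁ ^ 2 / 16) (ρ₁ / 4) :=
    (pow_le_pow_of_le_one (by norm_num) (by norm_num) hKk).trans hK.le
  have hek0 : e k₀ ≤ 1 / D := by
    have h1 := (hk₀ 1).trans (min_le_right _ _)
    simp only [Finset.range_one, Finset.sum_singleton, add_zero] at h1
    exact le_of_sq_le_sq h1 (by positivity)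
  -- the exponent
  set G : ℝ := Fintype.card J * (|M| * H) + 1 with hG
  have hG0 : 0 < G := by positivity
  obtain ⟨p, hp1, hp⟩ : ∃ p : ℕ, 1 ≤ p ∧ (1 / 2 : ℝ) ^ p * G ≤ 1 / 8 := by
    obtain ⟨p, hp⟩ := exists_pow_lt_of_lt_one (show (0 : ℝ) < 1 / 8 / G by positivity)
      (show (1 / 2 : ℝ) < 1 by norm_num)
    refine ⟨p + 1, by omega, ?_⟩
    rw [lt_div_iff₀ hG0] at hp
    rw [pow_succ]
    have : 0 < (1 / 2 : ℝ) ^ p * G := by positivity
    linarith
  have ht0 := half_pow_pos k₀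
  refine ⟨(1 / 2) ^ k₀ / (4 * p), by positivity, ?_⟩
  intro f hf ⟨j₀, hj₀⟩ l hl hfδ
  have hcap : ∀ z : E, ‖z‖ = 1 → ‖1 - ⟪z, l⟫_ℂ‖ ≤ (1 / 2) ^ k₀ → ∀ k, k₀ ≤ k →
      δ ≤ ∑ j, ‖f j ((rr k : ℂ) • z)‖ ^ 2 := fun z hz hzl k hk =>
    hfδ _ (near_of_cap hl hz hk hρ₁ (hkK.trans (min_le_left _ _)) (hkK.trans (min_le_right _ _))
      hzl)
  have hll : ‖1 - ⟪l, l⟫_ℂ‖ ≤ (1 / 2) ^ k₀ := by
    rw [inner_self_eq_norm_sq_to_K, hl]
    simp
  obtain ⟨a, ha1, ha2⟩ := exists_init (fun j => f j ((rr k₀ : ℂ) • l)) j₀ (hj₀ _) hδ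
    (hcap l hl hll k₀ le_rfl)
  have haH : ∀ j, ‖a j‖ ≤ H := by
    intro j
    apply le_of_sq_le_sq _ hH0
    rw [hHsq]
    have h1 : ‖a j‖ ^ 2 ≤ ∑ j, ‖a j‖ ^ 2 :=
      Finset.single_le_sum (f := fun j => ‖a j‖ ^ 2) (fun j _ => sq_nonneg _)
        (Finset.mem_univ j)
    linarith
  have hsol0 : Sol (fun j (_ : E) => a j) e k₀ H C := by
    refine ⟨fun j => differentiableOn_const _, fun j z _ => haH j, fun j b c _ _ => ?_⟩
    simp only [sub_self, norm_zero]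
    have := hf.slow.nonneg k₀
    have := hwt_nonneg (norm_nonneg (1 - ⟪b, c⟫_ℂ)) k₀
    positivity
  have hI := hinv f (fun j _ => a j) e e k₀ {z | ‖1 - ⟪z, l⟫_ℂ‖ ≤ (1 / 2) ^ k₀} hf hf.slow
    (fun k => le_rfl) (fun z hzl hz k hk => hcap z hz hzl k hk) hsol0
    (fun z _ => ⟨ha1.ge, by rw [hHsq, ha1]; linarith⟩) (by
    intro z hzl hz
    have hzl' : ‖1 - ⟪z, l⟫_ℂ‖ ≤ (1 / 2) ^ k₀ := hzl
    have e1 : gg (pt f (fun j (_ : E) => a j) k₀ z) - 1 =
        ∑ j, (f j ((rr k₀ : ℂ) • z) - f j ((rr k₀ : ℂ) • l)) * a j := by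
      rw [← ha2, gg, ← Finset.sum_sub_distrib]
      refine Finset.sum_congr rfl fun j _ => ?_
      simp only [pt]
      ring
    rw [e1]
    have hq : hwt (‖1 - ⟪z, l⟫_ℂ‖) k₀ ≤ 1 := by
      unfold hwt
      apply Real.rpow_le_one (by positivity) _ (by norm_num)
      rw [div_le_one (half_pow_pos k₀)]
      exact hzl'
    have hek := hf.slow.nonneg k₀
    have hq0 := hwt_nonneg (norm_nonneg (1 - ⟪z, l⟫_ℂ)) k₀
    calc _ ≤ ∑ j : J, 1672 * (1 / D) * H := by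
          apply norm_sum_le_of_le
          intro j _
          rw [norm_mul]
          apply mul_le_mul _ (haH j) (norm_nonneg _) (by positivity)
          refine ((hf.grad j).osc hf.slow k₀ hz.le hl.le).trans ?_
          nlinarith
      _ = 1672 * Fintype.card J * H / D := by
          rw [Finset.sum_const, Finset.card_univ, nsmul_eq_mul]; ring
      _ ≤ 1 / 16 := by
          rw [div_le_iff₀ hD0, hD]
          linarith) (by
    intro n
    have h1 := (hk₀ n).trans (min_le_left _ _)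
    simpa only [sq] using h1)
  obtain ⟨h, hh1, hh2, hh3⟩ := flow_limit μ hm hdim hf (fun i => (hI i).1)
  refine ⟨h, hh1, hh2, ?_⟩
  intro z ⟨hz1, hz2⟩
  have hz1' := mem_ball_zero_iff.mp hz1
  rw [mem_ball, dist_eq_norm] at hz2
  -- bound for each level
  have hlev : ∀ i, ‖gg (pt f (flow μ f (fun j _ => a j) m k₀ i) (k₀ + i) z) - 1‖ ≤ 1 / 4 := by
    intro i
    obtain ⟨hS, hloc⟩ := hI i
    have hpw := half_pow_pos (k₀ + i)
    have hR : (1 : ℝ) < 1 + (1 / 2) ^ (k₀ + i) / 8 := by linarith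
    exact near_bound (F := fun z => gg (pt f (flow μ f (fun j _ => a j) m k₀ i) (k₀ + i) z) - 1)
      (G := G) hR (gg_hol hf hS) ht0 hl (fun w hw => gg_bd hf hS hw.le) hp hp1
      (fun w hw hwl => hloc w hwl hw) hz1' hz2
  exact le_of_tendsto (gg_limit μ hf hh3 hz1).norm (Eventually.of_forall hlev)

/-- Local solvability, for families indexed by `Fin N`. -/
theorem local_fin (N : ℕ) (μ : Measure E) [μ.IsAddHaarMeasure] (m : ℕ)
    (hm : 1 ≤ m) (hdim : Module.finrank ℂ E = m + 1) (M δ ρ₁ : ℝ) (hδ : 0 < δ) (hρ₁ : 0 < ρ₁)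
    (e : ℕ → ℝ) (hes : Summable fun k => e k ^ 2) (he : Slow e) :
    ∃ ρ : ℝ, 0 < ρ ∧ ρ ≤ ρ₁ ∧ ∀ f : Fin N → E → ℂ, (∀ j, Grad (f j) e) →
      (∀ j, ∀ z ∈ ball (0 : E) 1, ‖f j z‖ ≤ M) → ∀ l : E, ‖l‖ = 1 →
      (∀ z ∈ ball (0 : E) 1 ∩ ball l ρ₁, δ ≤ ∑ j, ‖f j z‖ ^ 2) →
      SolvableOn f (ball 0 1 ∩ ball l ρ) (2 * Real.sqrt (2 + 4 / δ)) := by
  obtain ⟨ρ, hρ, H⟩ := local_thm (Option (Fin N)) μ m hm hdim |M| δ ρ₁ hδ hρ₁ e hes
  refine ⟨min ρ ρ₁, lt_min hρ hρ₁, min_le_right _ _, ?_⟩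
  intro f hf hM l hl hfδ
  set F : Option (Fin N) → E → ℂ := fun o => o.elim (fun _ => 0) f with hF
  have hdat : Dat F e |M| := by
    refine ⟨?_, he, ?_⟩
    · intro o
      cases o with
      | none =>
        refine ⟨differentiableOn_const _, fun k z _ => ?_⟩
        have h1 : fderiv ℂ (F none) z = 0 := by
          simp only [hF, Option.elim]
          exact fderiv_const_apply _
        rw [h1, norm_zero, zero_mul]
        exact he.nonneg k
      | some j => exact hf j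
    · intro o z hz
      cases o with
      | none => simp [hF]
      | some j => exact (hM j z hz).trans (le_abs_self M)
  obtain ⟨h, hh1, hh2, hh3'⟩ := H F hdat ⟨none, fun z => rfl⟩ l hl (by
    intro z hz
    rw [Fintype.sum_option]
    have := hfδ z hz
    have h1 : 0 ≤ ‖F none z‖ ^ 2 := sq_nonneg _
    simp only [hF, Option.elim] at h1 ⊢
    linarith)
  have hh3 : ∀ z ∈ ball (0 : E) 1 ∩ ball l (min ρ ρ₁), ‖∑ j, F j z * h j z - 1‖ ≤ 1 / 4 :=
    fun z hz => hh3' z ⟨hz.1, ball_subset_ball (min_le_left _ _) hz.2⟩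
  have hsum : ∀ z, ∑ o, F o z * h o z = ∑ j, f j z * h (some j) z := by
    intro z
    rw [Fintype.sum_option]
    simp [hF]
  have hg : ∀ z ∈ ball (0 : E) 1 ∩ ball l (min ρ ρ₁),
      3 / 4 ≤ ‖∑ j, f j z * h (some j) z‖ := by
    intro z hz
    have h1 := hh3 z hz
    rw [hsum] at h1
    have h2 : ‖(1 : ℂ)‖ ≤ ‖∑ j, f j z * h (some j) z‖ + ‖∑ j, f j z * h (some j) z - 1‖ := by
      calc ‖(1 : ℂ)‖ = ‖(∑ j, f j z * h (some j) z) - (∑ j, f j z * h (some j) z - 1)‖ := by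
            congr 1; ring
        _ ≤ _ := norm_sub_le _ _
    rw [norm_one] at h2
    linarith
  have hg0 : ∀ z ∈ ball (0 : E) 1 ∩ ball l (min ρ ρ₁), ∑ j, f j z * h (some j) z ≠ 0 := by
    intro z hz h0
    have := hg z hz
    rw [h0, norm_zero] at this
    norm_num at this
  have hgd : DifferentiableOn ℂ (fun z => ∑ j, f j z * h (some j) z)
      (ball (0 : E) 1 ∩ ball l (min ρ ρ₁)) := by
    apply DifferentiableOn.fun_sum
    intro j _
    exact ((hf j).hol.mono inter_subset_left).mul ((hh1 (some j)).mono inter_subset_left)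
  refine ⟨fun j z => h (some j) z * (∑ j, f j z * h (some j) z)⁻¹, ?_, ?_, ?_⟩
  · intro j
    exact ((hh1 (some j)).mono inter_subset_left).mul (hgd.inv hg0)
  · intro j z hz
    rw [norm_mul, norm_inv]
    have h1 := hg z hz
    have h2 := hh2 (some j) z hz.1
    have h3 : ‖∑ j, f j z * h (some j) z‖⁻¹ ≤ 2 := by
      calc _ ≤ (3 / 4 : ℝ)⁻¹ := inv_anti₀ (by norm_num) h1
        _ ≤ _ := by norm_num
    calc ‖h (some j) z‖ * ‖∑ j, f j z * h (some j) z‖⁻¹ ≤ Real.sqrt (2 + 4 / δ) * 2 :=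
          mul_le_mul h2 h3 (by positivity) (Real.sqrt_nonneg _)
      _ = _ := by ring
  · intro z hz
    have h1 : ∑ j, f j z * (h (some j) z * (∑ j, f j z * h (some j) z)⁻¹) =
        (∑ j, f j z * h (some j) z) * (∑ j, f j z * h (some j) z)⁻¹ := by
      rw [Finset.sum_mul]
      refine Finset.sum_congr rfl fun j _ => ?_
      ring
    rw [h1, mul_inv_cancel₀ (hg0 z hz)]

/-- Solvability is stable under small perturbations. -/
theorem solvable_perturb {E : Type*} [NormedAddCommGroup E] [InnerProductSpace ℂ E] {N : ℕ}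
    {f g : Fin N → E → ℂ} {D : Set E} {B η : ℝ}
    (hf : ∀ j, DifferentiableOn ℂ (f j) D) (hfg : ∀ j, ∀ z ∈ D, ‖f j z - g j z‖ ≤ η)
    (hη : N * (η * B) ≤ 1 / 2) (hg : SolvableOn g D B) :
    SolvableOn f D (2 * B) := by
  obtain ⟨h, hh1, hh2, hh3⟩ := hg
  have key : ∀ z ∈ D, ‖∑ j, f j z * h j z - 1‖ ≤ 1 / 2 := by
    intro z hz
    have e1 : ∑ j, f j z * h j z - 1 = ∑ j, (f j z - g j z) * h j z := by
      rw [← hh3 z hz, ← Finset.sum_sub_distrib]
      refine Finset.sum_congr rfl fun j _ => ?_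
      ring
    rw [e1]
    calc _ ≤ ∑ _j : Fin N, η * B := by
          apply norm_sum_le_of_le
          intro j _
          rw [norm_mul]
          exact mul_le_mul (hfg j z hz) (hh2 j z hz) (norm_nonneg _)
            ((norm_nonneg _).trans (hfg j z hz))
      _ = N * (η * B) := by
          rw [Finset.sum_const, Finset.card_univ, nsmul_eq_mul, Fintype.card_fin]
      _ ≤ _ := hη
  have hge : ∀ z ∈ D, 1 / 2 ≤ ‖∑ j, f j z * h j z‖ := by
    intro z hz
    have h1 := key z hz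
    have h2 : ‖(1 : ℂ)‖ ≤ ‖∑ j, f j z * h j z‖ + ‖∑ j, f j z * h j z - 1‖ := by
      calc ‖(1 : ℂ)‖ = ‖(∑ j, f j z * h j z) - (∑ j, f j z * h j z - 1)‖ := by congr 1; ring
        _ ≤ _ := norm_sub_le _ _
    rw [norm_one] at h2
    linarith
  have hne : ∀ z ∈ D, ∑ j, f j z * h j z ≠ 0 := by
    intro z hz h0
    have := hge z hz
    rw [h0, norm_zero] at this
    norm_num at this
  have hd : DifferentiableOn ℂ (fun z => ∑ j, f j z * h j z) D := by
    apply DifferentiableOn.fun_sum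
    intro j _
    exact (hf j).mul (hh1 j)
  refine ⟨fun j z => h j z * (∑ j, f j z * h j z)⁻¹, fun j => (hh1 j).mul (hd.inv hne), ?_, ?_⟩
  · intro j z hz
    rw [norm_mul, norm_inv, mul_comm]
    have h2 := hh2 j z hz
    have h3 : ‖∑ j, f j z * h j z‖⁻¹ ≤ 2 := by
      calc _ ≤ (1 / 2 : ℝ)⁻¹ := inv_anti₀ (by norm_num) (hge z hz)
        _ = _ := by norm_num
    exact mul_le_mul h3 h2 (norm_nonneg _) (by norm_num)
  · intro z hz
    have h1 : ∑ j, f j z * (h j z * (∑ j, f j z * h j z)⁻¹) =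
        (∑ j, f j z * h j z) * (∑ j, f j z * h j z)⁻¹ := by
      rw [Finset.sum_mul]
      refine Finset.sum_congr rfl fun j _ => ?_
      ring
    rw [h1, mul_inv_cancel₀ (hne z hz)]

end Pool.Agent.MPca0fc2.SD
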