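import Mathlib
import Pool.Agent.Lib.MP_ca0fc2_an.SDMain
import Pool.Agent.Lib.MP_ca0fc2_an.SDReg

set_option autoImplicit false

open Metric Set MeasureTheory Filter Topology
open scoped InnerProductSpace

namespace Pool.Agent.MPca0fc2.SD

open Pool.Agent.Lib.MP_ca0fc2_an

section Osc

variable {E : Type*} [NormedAddCommGroup E] [InnerProductSpace ℂ E]
variable {u v : E → ℂ} {e' : ℕ → ℝ}

theorem mem_of_osc {k : ℕ} {z w : E} (hz : ‖z‖ ≤ rr k) (hw : ‖w - z‖ ≤ (1 / 2) ^ k / 2) :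
    z ∈ ball (0 : E) 1 ∧ w ∈ ball (0 : E) 1 := by
  have hpk := half_pow_pos k
  have h2 : rr k = 1 - (1 / 2) ^ k := rfl
  constructor
  · rw [mem_ball_zero_iff]; linarith
  · rw [mem_ball_zero_iff]
    have h1 : ‖w‖ ≤ ‖w - z‖ + ‖z‖ := by
      calc ‖w‖ = ‖(w - z) + z‖ := by rw [sub_add_cancel]
        _ ≤ _ := norm_add_le _ _
    linarith

theorem HOsc.sum {ι : Type*} {s : Finset ι} {F : ι → E → ℂ} {K : ι → ℝ}
    (h : ∀ i ∈ s, HOsc (F i) e' (K i)) : HOsc (fun z => ∑ i ∈ s, F i z) e' (∑ i ∈ s, K i) := by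
  intro k z w hz hw
  rw [← Finset.sum_sub_distrib, Finset.sum_mul]
  exact norm_sum_le_of_le _ fun i hi => h i hi k z w hz hw

theorem HOsc.mul {Bu Bv Ku Kv : ℝ} (he' : ∀ k, 0 ≤ e' k) (hu : HOsc u e' Ku) (hv : HOsc v e' Kv)
    (hub : ∀ z ∈ ball (0 : E) 1, ‖u z‖ ≤ Bu) (hvb : ∀ z ∈ ball (0 : E) 1, ‖v z‖ ≤ Bv) :
    HOsc (fun z => u z * v z) e' (Bu * Kv + Ku * Bv) := by
  intro k z w hz hw
  obtain ⟨hz1, hw1⟩ := mem_of_osc hz hw
  have h1 := hu k z w hz hw
  have h2 := hv k z w hz hw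
  have h3 := hub w hw1
  have h4 := hvb z hz1
  have e1 : u w * v w - u z * v z = u w * (v w - v z) + (u w - u z) * v z := by ring
  rw [e1]
  calc _ ≤ ‖u w‖ * ‖v w - v z‖ + ‖u w - u z‖ * ‖v z‖ := by
        refine (norm_add_le _ _).trans ?_
        rw [norm_mul, norm_mul]
    _ ≤ Bu * (Kv * e' k) + (Ku * e' k) * Bv := by
        apply add_le_add
        · exact mul_le_mul h3 h2 (norm_nonneg _) ((norm_nonneg _).trans h3)
        · exact mul_le_mul h1 h4 (norm_nonneg _) ((norm_nonneg _).trans h1)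
    _ = _ := by ring

theorem HOsc.inv {K : ℝ} (hu : HOsc u e' K) (hub : ∀ z ∈ ball (0 : E) 1, 1 / 2 ≤ ‖u z‖) :
    HOsc (fun z => (u z)⁻¹) e' (4 * K) := by
  intro k z w hz hw
  obtain ⟨hz1, hw1⟩ := mem_of_osc hz hw
  have h1 := hu k z w hz hw
  have h3 := hub w hw1
  have h4 := hub z hz1
  have hz0 : u z ≠ 0 := fun h => by rw [h, norm_zero] at h4; norm_num at h4
  have hw0 : u w ≠ 0 := fun h => by rw [h, norm_zero] at h3; norm_num at h3
  have e1 : (u w)⁻¹ - (u z)⁻¹ = -(u w - u z) * ((u w)⁻¹ * (u z)⁻¹) := by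
    field_simp
    ring
  rw [e1, norm_mul, norm_neg, norm_mul, norm_inv, norm_inv]
  have h5 : ‖u w‖⁻¹ ≤ 2 := by
    calc _ ≤ (1 / 2 : ℝ)⁻¹ := inv_anti₀ (by norm_num) h3
      _ = 2 := by norm_num
  have h6 : ‖u z‖⁻¹ ≤ 2 := by
    calc _ ≤ (1 / 2 : ℝ)⁻¹ := inv_anti₀ (by norm_num) h4
      _ = 2 := by norm_num
  calc ‖u w - u z‖ * (‖u w‖⁻¹ * ‖u z‖⁻¹) ≤ (K * e' k) * (2 * 2) := by
        apply mul_le_mul h1 _ (by positivity) ((norm_nonneg _).trans h1)
        exact mul_le_mul h5 h6 (by positivity) (by norm_num)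
    _ = _ := by ring

theorem HOsc.mono {e'' : ℕ → ℝ} {K K' : ℝ} (hK : 0 ≤ K) (hKK : K ≤ K') (he : ∀ k, e' k ≤ e'' k)
    (he0 : ∀ k, 0 ≤ e'' k) (hu : HOsc u e' K) : HOsc u e'' K' := by
  intro k z w hz hw
  refine (hu k z w hz hw).trans ?_
  exact (mul_le_mul_of_nonneg_left (he k) hK).trans (mul_le_mul_of_nonneg_right hKK (he0 k))

theorem HOsc.limit {U : ℕ → E → ℂ} {K : ℝ} (hU : ∀ i, HOsc (U i) e' K)
    (hlim : ∀ z ∈ ball (0 : E) 1, Tendsto (fun i => U i z) atTop (𝓝 (u z))) :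
    HOsc u e' K := by
  intro k z w hz hw
  obtain ⟨hz1, hw1⟩ := mem_of_osc hz hw
  exact le_of_tendsto ((hlim w hw1).sub (hlim z hz1)).norm
    (Eventually.of_forall fun i => hU i k z w hz hw)

/-- functions with controlled gradient have controlled oscillation -/
theorem Grad.hosc {f : E → ℂ} {e : ℕ → ℝ} (hf : Grad f e) (he : Slow e) : HOsc f e 2 := by
  intro k z w hz hw
  have hpk := half_pow_pos k
  have hz' : ‖z‖ ≤ rr (k + 1) := by
    have := rr_succ k; linarith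
  have hw' : ‖w‖ ≤ rr (k + 1) := by
    have h1 : ‖w‖ ≤ ‖w - z‖ + ‖z‖ := by
      calc ‖w‖ = ‖(w - z) + z‖ := by rw [sub_add_cancel]
        _ ≤ _ := norm_add_le _ _
    have := rr_succ k; linarith
  have hsub : closedBall (0 : E) (rr (k + 1)) ⊆ ball 0 1 :=
    closedBall_subset_ball (rr_lt_one (k + 1))
  have h1 : ∀ x ∈ closedBall (0 : E) (rr (k + 1)), DifferentiableAt ℂ f x := fun x hx =>
    hf.hol.differentiableAt (isOpen_ball.mem_nhds (hsub hx))
  have h2 : ∀ x ∈ closedBall (0 : E) (rr (k + 1)),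
      ‖fderiv ℂ f x‖ ≤ e (k + 1) / (1 / 2) ^ (k + 1) := by
    intro x hx
    rw [le_div_iff₀ (half_pow_pos (k + 1))]
    exact hf.grad (k + 1) x (mem_closedBall_zero_iff.mp hx)
  have h5 := (convex_closedBall (0 : E) (rr (k + 1))).norm_image_sub_le_of_norm_fderiv_le h1 h2
    (mem_closedBall_zero_iff.mpr hz') (mem_closedBall_zero_iff.mpr hw')
  refine h5.trans ?_
  have h6 := he.up k
  have h7 := he.nonneg (k + 1)
  have h8 := he.nonneg k
  calc e (k + 1) / (1 / 2) ^ (k + 1) * ‖w - z‖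
      ≤ e (k + 1) / (1 / 2) ^ (k + 1) * ((1 / 2) ^ k / 2) := by gcongr
    _ = e (k + 1) := by rw [pow_succ]; field_simp
    _ ≤ 2 * e k := by linarith

/-- and conversely -/
theorem HOsc.grad {K : ℝ} (hu : HOsc u e' K) (hd : DifferentiableOn ℂ u (ball 0 1)) {k : ℕ}
    {z : E} (hz : ‖z‖ ≤ rr k) : ‖fderiv ℂ u z‖ * (1 / 2) ^ k ≤ 4 * K * e' k := by
  have hpk := half_pow_pos k
  have hr : 0 < ((1 : ℝ) / 2) ^ k / 2 := by positivity
  have hsub : ball z ((1 / 2) ^ k / 2) ⊆ ball (0 : E) 1 := by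
    intro w hw
    rw [mem_ball, dist_eq_norm] at hw
    exact (mem_of_osc hz hw.le).2
  have h0 : 0 ≤ K * e' k := (norm_nonneg _).trans
    (hu k z z hz (by rw [sub_self, norm_zero]; exact hr.le))
  have hfd : fderiv ℂ (fun w => u w - u z) z = fderiv ℂ u z := fderiv_sub_const _
  have h1 : ‖fderiv ℂ u z‖ ≤ 2 * (K * e' k) / ((1 / 2) ^ k / 2) := by
    apply ContinuousLinearMap.opNorm_le_bound _ (by positivity)
    intro v
    have h2 := norm_fderiv_apply_le hr ((hd.mono hsub).sub_const (u z))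
      (fun w hw => hu k z w hz (by rw [mem_ball, dist_eq_norm] at hw; exact hw.le)) v
    rw [hfd] at h2
    exact h2
  calc ‖fderiv ℂ u z‖ * (1 / 2) ^ k ≤ 2 * (K * e' k) / ((1 / 2) ^ k / 2) * (1 / 2) ^ k :=
        mul_le_mul_of_nonneg_right h1 hpk.le
    _ = _ := by field_simp; ring

end Osc

/-- the majorant of the oscillation of the flow started at a bounded solution -/
noncomputable def maj (e : ℕ → ℝ) (k₀ k : ℕ) : ℝ := e k + (11 / 10) ^ k₀ * (10 / 11) ^ k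

theorem maj_slow {e : ℕ → ℝ} (he : Slow e) (k₀ : ℕ) : Slow (maj e k₀) := by
  have hq : ∀ k : ℕ, (0 : ℝ) ≤ (11 / 10) ^ k₀ * (10 / 11) ^ k := fun k => by positivity
  refine ⟨fun k => ?_, fun k => ?_, fun k => ?_⟩
  · unfold maj
    have := he.nonneg k
    have := hq k
    positivity
  · unfold maj
    have h1 := he.up k
    have h2 := hq k
    rw [pow_succ, ← mul_assoc]
    linarith
  · unfold maj
    have h1 := he.down k
    have h2 := hq k
    rw [pow_succ, ← mul_assoc]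
    linarith

theorem le_maj {e : ℕ → ℝ} (k₀ k : ℕ) : e k ≤ maj e k₀ k := by
  unfold maj
  have : (0 : ℝ) ≤ (11 / 10) ^ k₀ * (10 / 11) ^ k := by positivity
  linarith

theorem maj_add {e : ℕ → ℝ} (k₀ i : ℕ) : maj e k₀ (k₀ + i) = e (k₀ + i) + (10 / 11) ^ i := by
  unfold maj
  rw [pow_add, ← mul_assoc, ← mul_pow]
  norm_num

theorem one_le_maj {e : ℕ → ℝ} (he : Slow e) {k₀ k : ℕ} (hk : k ≤ k₀) : 1 ≤ maj e k₀ k := by
  obtain ⟨d, hd⟩ : ∃ d, k₀ = k + d := ⟨k₀ - k, by omega⟩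
  unfold maj
  have h1 := he.nonneg k
  have h2 : ((11 : ℝ) / 10) ^ k₀ * (10 / 11) ^ k = (11 / 10) ^ d := by
    rw [hd, pow_add, mul_right_comm, ← mul_pow]
    norm_num
  have h3 : (1 : ℝ) ≤ (11 / 10) ^ d := one_le_pow₀ (by norm_num)
  linarith

theorem maj_summable {e : ℕ → ℝ} (hes : Summable fun k => e k ^ 2) (k₀ : ℕ) :
    Summable fun k => maj e k₀ k ^ 2 := by
  have h1 : Summable fun k : ℕ => (((11 : ℝ) / 10) ^ k₀ * (10 / 11) ^ k) ^ 2 := by
    have h2 : Summable fun k : ℕ => (((10 : ℝ) / 11) ^ 2) ^ k :=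
      summable_geometric_of_lt_one (by norm_num) (by norm_num)
    refine (h2.mul_left ((((11 : ℝ) / 10) ^ k₀) ^ 2)).congr fun k => ?_
    rw [mul_pow, ← pow_mul, ← pow_mul, ← pow_mul, mul_comm 2 k]
  apply Summable.of_nonneg_of_le (fun k => sq_nonneg _) _ ((hes.mul_left 2).add (h1.mul_left 2))
  intro k
  unfold maj
  nlinarith [sq_nonneg (e k - (11 / 10) ^ k₀ * (10 / 11) ^ k)]

theorem geom_le (n : ℕ) : ∑ i ∈ Finset.range n, (10 / 11 : ℝ) ^ i ≤ 11 := by
  have key : ∀ n, ∑ i ∈ Finset.range n, (10 / 11 : ℝ) ^ i = 11 - 11 * (10 / 11) ^ n := by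
    intro n
    induction n with
    | zero => simp
    | succ n ih => rw [Finset.sum_range_succ, ih, pow_succ]; ring
  rw [key]
  have : (0 : ℝ) ≤ (10 / 11) ^ n := by positivity
  linarith

variable {E : Type*} [NormedAddCommGroup E] [InnerProductSpace ℂ E]
variable [FiniteDimensional ℂ E] [MeasurableSpace E] [BorelSpace E]

/-- the flow started at a bounded solution: a bounded solution can be improved -/
theorem global_thm (N : ℕ) (μ : Measure E) [μ.IsAddHaarMeasure] (m : ℕ)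
    (hm : 1 ≤ m) (hdim : Module.finrank ℂ E = m + 1) (M δ C0 : ℝ) (hδ : 0 < δ) (hM : 0 ≤ M)
    (hC0 : 0 ≤ C0) (e : ℕ → ℝ) (hes : Summable fun k => e k ^ 2) (he : Slow e) :
    ∃ (C : ℝ) (b : ℕ → ℝ), (∀ k, 0 ≤ b k) ∧ Summable (fun k => b k ^ 2) ∧
      ∀ f G : Fin N → E → ℂ, (∀ j, Grad (f j) e) →
      (∀ j, ∀ z ∈ ball (0 : E) 1, ‖f j z‖ ≤ M) →
      (∀ z ∈ ball (0 : E) 1, δ ≤ ∑ j, ‖f j z‖ ^ 2) →
      (∀ j, DifferentiableOn ℂ (G j) (ball 0 1)) →
      (∀ j, ∀ z ∈ ball (0 : E) 1, ‖G j z‖ ≤ C0) →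
      (∀ z ∈ ball (0 : E) 1, ∑ j, f j z * G j z = 1) →
      ∃ h : Fin N → E → ℂ, (∀ j, DifferentiableOn ℂ (h j) (ball 0 1)) ∧
        (∀ j, ∀ z ∈ ball (0 : E) 1, ‖h j z‖ ≤ C) ∧
        (∀ j (k : ℕ) (z : E), ‖z‖ ≤ rr k → ‖fderiv ℂ (h j) z‖ * (1 / 2) ^ k ≤ b k) ∧
        ∀ z ∈ ball (0 : E) 1, ∑ j, f j z * h j z = 1 := by
  have hnt : Nontrivial E := Module.nontrivial_of_finrank_pos (R := ℂ) (by omega)
  set H : ℝ := Real.sqrt (2 + 4 / δ + N * C0 ^ 2) with hH
  have hHsq : H ^ 2 = 2 + 4 / δ + N * C0 ^ 2 := Real.sq_sqrt (by positivity)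
  have hH0 : 0 ≤ H := Real.sqrt_nonneg _
  obtain ⟨ε, C, hε0, hC24, hCpos, hinv⟩ :=
    flow_inv (Option (Fin N)) μ m hm hdim M δ H (24 * C0) hδ hH0
  obtain ⟨Cg, hCg0, hosc⟩ := flow_osc (Option (Fin N)) μ m hm hdim M H
  obtain ⟨k₀, -, hk₀⟩ :=
    exists_tail hes (show 0 < min (ε / 2) ((ε / 22) ^ 2) by positivity) 0
  have hs' := maj_slow he k₀
  have hee : ∀ k, e k ≤ maj e k₀ k := fun k => le_maj k₀ k
  have hsmall : ∀ n, ∑ i ∈ Finset.range n, e (k₀ + i) * maj e k₀ (k₀ + i) ≤ ε := by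
    intro n
    have h1 : ∀ i, e (k₀ + i) ≤ ε / 22 := by
      intro i
      have h2 := (hk₀ (i + 1)).trans (min_le_right _ _)
      have h3 : e (k₀ + i) ^ 2 ≤ ∑ i' ∈ Finset.range (i + 1), e (k₀ + i') ^ 2 :=
        Finset.single_le_sum (f := fun i' => e (k₀ + i') ^ 2) (fun _ _ => sq_nonneg _)
          (Finset.mem_range.mpr (Nat.lt_succ_self i))
      exact le_of_sq_le_sq (h3.trans h2) (by positivity)
    calc ∑ i ∈ Finset.range n, e (k₀ + i) * maj e k₀ (k₀ + i)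
        ≤ ∑ i ∈ Finset.range n, (e (k₀ + i) ^ 2 + ε / 22 * (10 / 11) ^ i) := by
          apply Finset.sum_le_sum
          intro i _
          rw [maj_add]
          have h2 := h1 i
          have h3 : (0 : ℝ) ≤ (10 / 11) ^ i := by positivity
          nlinarith
      _ = ∑ i ∈ Finset.range n, e (k₀ + i) ^ 2 +
          ε / 22 * ∑ i ∈ Finset.range n, (10 / 11 : ℝ) ^ i := by
          rw [Finset.sum_add_distrib, Finset.mul_sum]
      _ ≤ ε / 2 + ε / 22 * 11 := by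
          apply add_le_add ((hk₀ n).trans (min_le_left _ _))
          exact mul_le_mul_of_nonneg_left (geom_le n) (by positivity)
      _ = ε := by ring
  set K : ℝ := 16 * C0 + Cg with hK
  have hK0 : 0 ≤ K := by positivity
  set Kg : ℝ := ∑ _o : Option (Fin N), (M * K + 2 * H) with hKg
  have hKg0 : 0 ≤ Kg := Finset.sum_nonneg fun _ _ => by positivity
  refine ⟨H * 2, fun k => 4 * (H * (4 * Kg) + K * 2) * maj e k₀ k, ?_, ?_, ?_⟩
  · intro k
    have := hs'.nonneg k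
    positivity
  · have := (maj_summable hes k₀).mul_left ((4 * (H * (4 * Kg) + K * 2)) ^ 2)
    refine this.congr fun k => ?_
    rw [← mul_pow]
  intro f G hf hfM hfδ hGd hGb hGs
  -- data with a dummy function
  set F : Option (Fin N) → E → ℂ := fun o => o.elim (fun _ => 0) f with hF
  have hdat : Dat F e M := by
    refine ⟨?_, he, ?_⟩
    · intro o
      cases o with
      | none =>
        refine ⟨differentiableOn_const _, fun k z _ => ?_⟩
        have h1 : fderiv ℂ (F none) z = 0 := by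
          simp only [hF, Option.elim]
          exact fderiv_const_apply _
        rw [h1, norm_zero, zero_mul]
        exact he.nonneg k
      | some j => exact hf j
    · intro o z hz
      cases o with
      | none => simpa [hF] using hM
      | some j => exact hfM j z hz
  have hFδ : ∀ z ∈ ball (0 : E) 1, δ ≤ ∑ o, ‖F o z‖ ^ 2 := by
    intro z hz
    rw [Fintype.sum_option]
    have := hfδ z hz
    have h1 : 0 ≤ ‖F none z‖ ^ 2 := sq_nonneg _
    simp only [hF, Option.elim] at h1 ⊢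
    linarith
  -- the start
  set c : ℝ := Real.sqrt (1 + 4 / δ) with hc
  have hcsq : c ^ 2 = 1 + 4 / δ := Real.sq_sqrt (by positivity)
  have hc0 : 0 ≤ c := Real.sqrt_nonneg _
  set h₀ : Option (Fin N) → E → ℂ :=
    fun o => o.elim (fun _ => (c : ℂ)) (fun j z => G j ((rr k₀ : ℂ) • z)) with hh₀
  have hpk := half_pow_pos k₀
  have hpk1 := half_pow_le_one k₀
  have hrk : rr k₀ = 1 - (1 / 2) ^ k₀ := rfl
  have hr0 := rr_nonneg k₀
  have hmaps : ∀ w : E, ‖w‖ ≤ 1 + (1 / 2) ^ k₀ / 8 → (rr k₀ : ℂ) • w ∈ ball (0 : E) 1 := by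
    intro w hw
    rw [mem_ball_zero_iff, norm_smul, Complex.norm_real, Real.norm_of_nonneg hr0]
    nlinarith [norm_nonneg w]
  have hGhol : ∀ j, DifferentiableOn ℂ (fun z => G j ((rr k₀ : ℂ) • z))
      (ball (0 : E) (1 + (1 / 2) ^ k₀ / 8)) := by
    intro j
    apply (hGd j).comp
    · exact (differentiable_id.const_smul _).differentiableOn
    · intro w hw
      exact hmaps w (mem_ball_zero_iff.mp hw).le
  have hGhol' : ∀ j, DifferentiableOn ℂ (fun z => G j ((rr k₀ : ℂ) • z))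
      (ball (0 : E) (1 + (1 / 2) ^ k₀ / 16)) := fun j =>
    (hGhol j).mono (ball_subset_ball (by linarith))
  have hGbd : ∀ j, ∀ z : E, ‖z‖ ≤ 1 + (1 / 2) ^ k₀ / 8 → ‖G j ((rr k₀ : ℂ) • z)‖ ≤ C0 :=
    fun j z hz => hGb j _ (hmaps z hz)
  have hGbd' : ∀ j, ∀ z ∈ ball (0 : E) (1 + (1 / 2) ^ k₀ / 16),
      ‖G j ((rr k₀ : ℂ) • z)‖ ≤ C0 := fun j z hz =>
    hGbd j z (by rw [mem_ball_zero_iff] at hz; linarith)
  have hmk0 : 1 ≤ maj e k₀ k₀ := one_le_maj he le_rfl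
  have hsol0 : Sol h₀ (maj e k₀) k₀ H C := by
    refine ⟨?_, ?_, ?_⟩
    · intro o
      cases o with
      | none => exact differentiableOn_const _
      | some j => exact hGhol j
    · intro o z hz
      cases o with
      | none =>
        simp only [hh₀, Option.elim]
        rw [Complex.norm_real, Real.norm_of_nonneg hc0]
        apply le_of_sq_le_sq _ hH0
        rw [hcsq, hHsq]
        have : 0 ≤ (N : ℝ) * C0 ^ 2 := by positivity
        linarith
      | some j =>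
        refine (hGbd j z (by linarith)).trans ?_
        apply le_of_sq_le_sq _ hH0
        rw [hHsq]
        have hN : (1 : ℝ) ≤ N := by
          have : 0 < N := lt_of_le_of_lt (Nat.zero_le _) j.2
          exact_mod_cast this
        have h1 : 0 < 4 / δ := by positivity
        nlinarith [sq_nonneg C0]
    · intro o a b ha hb
      have hq := hwt_nonneg (norm_nonneg (1 - ⟪a, b⟫_ℂ)) k₀
      cases o with
      | none =>
        simp only [hh₀, Option.elim, sub_self, norm_zero]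
        positivity
      | some j =>
        have h1 := osc_bound hpk hC0 (hGhol' j) (hGbd' j) ha hb
        refine h1.trans ?_
        have h3 : (‖1 - ⟪a, b⟫_ℂ‖ / (1 / 2) ^ k₀) ^ (1 / 4 : ℝ) =
          hwt (‖1 - ⟪a, b⟫_ℂ‖) k₀ := rfl
        rw [h3]
        have h4 : hwt (‖1 - ⟪a, b⟫_ℂ‖) k₀ ≤ maj e k₀ k₀ * hwt (‖1 - ⟪a, b⟫_ℂ‖) k₀ := by
          nlinarith
        exact mul_le_mul hC24 h4 hq hCpos.le
  have hsh : ∀ z : E, ‖z‖ = 1 → 1 + 4 / δ ≤ ∑ o, ‖h₀ o z‖ ^ 2 ∧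
      ∑ o, ‖h₀ o z‖ ^ 2 + 1 ≤ H ^ 2 := by
    intro z hz
    rw [Fintype.sum_option]
    have h1 : ‖h₀ none z‖ ^ 2 = 1 + 4 / δ := by
      simp only [hh₀, Option.elim]
      rw [Complex.norm_real, Real.norm_of_nonneg hc0, hcsq]
    have h2 : ∑ j : Fin N, ‖h₀ (some j) z‖ ^ 2 ≤ N * C0 ^ 2 := by
      calc _ ≤ ∑ j : Fin N, C0 ^ 2 := Finset.sum_le_sum fun j _ =>
            pow_le_pow_left₀ (norm_nonneg _) (hGbd j z (by linarith)) 2
        _ = _ := by rw [Finset.sum_const, Finset.card_univ, nsmul_eq_mul, Fintype.card_fin]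
    have h3 : 0 ≤ ∑ j : Fin N, ‖h₀ (some j) z‖ ^ 2 := Finset.sum_nonneg fun _ _ => sq_nonneg _
    rw [h1, hHsq]
    constructor <;> linarith
  have hgg : ∀ z ∈ (Set.univ : Set E), ‖z‖ = 1 → ‖gg (pt F h₀ k₀ z) - 1‖ ≤ 1 / 16 := by
    intro z _ hz
    have h1 : gg (pt F h₀ k₀ z) = 1 := by
      rw [gg, Fintype.sum_option]
      simp only [pt, hF, hh₀, Option.elim, zero_mul, zero_add]
      exact hGs _ (hmaps z (by linarith))
    rw [h1, sub_self, norm_zero]
    norm_num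
  have hI := hinv F h₀ e (maj e k₀) k₀ Set.univ hdat hs' hee
    (fun z _ hz k _ => hFδ _ (smul_mem_ball_of (rr_nonneg _) (rr_lt_one _) hz.le))
    hsol0 hsh hgg hsmall
  obtain ⟨h, hh1, hh2, hh3⟩ := flow_limit μ hm hdim hdat (fun i => (hI i).1)
  -- oscillation
  have hosc0 : ∀ o, HOsc (h₀ o) (maj e k₀) (16 * C0) := by
    intro o k z w hz hw
    have hmk := hs'.nonneg k
    cases o with
    | none =>
      simp only [hh₀, Option.elim, sub_self, norm_zero]
      positivity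
    | some j =>
      obtain ⟨hz1, hw1⟩ := mem_of_osc hz hw
      rw [mem_ball_zero_iff] at hz1 hw1
      rcases le_total k k₀ with hk | hk
      · have h1 := one_le_maj he hk
        calc _ ≤ C0 + C0 := (norm_sub_le _ _).trans
              (add_le_add (hGbd j w (by linarith)) (hGbd j z (by linarith)))
          _ ≤ 16 * C0 * maj e k₀ k := by nlinarith
      · obtain ⟨d, hd⟩ : ∃ d, k = k₀ + d := ⟨k - k₀, by omega⟩
        have h1 := lip_ball hpk (hGhol' j) (hGbd' j) hw1.le hz1.le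
        have h2 : ((1 : ℝ) / 2) ^ k = (1 / 2) ^ k₀ * (1 / 2) ^ d := by rw [hd, pow_add]
        have h3 : ((1 : ℝ) / 2) ^ d ≤ maj e k₀ k := by
          rw [hd, maj_add]
          have h4 : ((1 : ℝ) / 2) ^ d ≤ (10 / 11) ^ d :=
            pow_le_pow_left₀ (by norm_num) (by norm_num) d
          have := he.nonneg (k₀ + d)
          linarith
        calc _ ≤ 32 * C0 / (1 / 2) ^ k₀ * ‖w - z‖ := h1
          _ ≤ 32 * C0 / (1 / 2) ^ k₀ * ((1 / 2) ^ k / 2) := by gcongr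
          _ = 16 * C0 * (1 / 2) ^ d := by rw [h2]; field_simp; ring
          _ ≤ _ := by gcongr
  have hoscF := hosc F h₀ e (maj e k₀) C (16 * C0) k₀ hdat hs' hee (fun i => (hI i).1) hosc0
  have hosch : ∀ o, HOsc (h o) (maj e k₀) K := fun o =>
    HOsc.limit (fun i => hoscF i o) (hh3 o)
  have hoscf : ∀ o, HOsc (F o) (maj e k₀) 2 := fun o =>
    ((hdat.grad o).hosc he).mono (by norm_num) le_rfl hee hs'.nonneg
  set g : E → ℂ := fun z => ∑ o, F o z * h o z with hg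
  have hgd : DifferentiableOn ℂ g (ball 0 1) := by
    apply DifferentiableOn.fun_sum
    intro o _
    exact (hdat.grad o).hol.mul (hh1 o)
  have hosg : HOsc g (maj e k₀) Kg :=
    HOsc.sum fun o _ => HOsc.mul hs'.nonneg (hoscf o) (hosch o) (hdat.bd o) (hh2 o)
  have hg1 : ∀ z ∈ ball (0 : E) 1, ‖g z - 1‖ ≤ 1 / 8 := by
    intro z hz
    refine le_of_tendsto (gg_limit μ hdat hh3 hz).norm (Eventually.of_forall fun i => ?_)
    have hpw := half_pow_pos (k₀ + i)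
    exact max_ball (show (1 : ℝ) < 1 + (1 / 2) ^ (k₀ + i) / 8 by linarith)
      (gg_hol hdat (hI i).1) (fun w hw => (hI i).2 w (Set.mem_univ _) hw)
      (mem_ball_zero_iff.mp hz).le
  have hg2 : ∀ z ∈ ball (0 : E) 1, 1 / 2 ≤ ‖g z‖ := by
    intro z hz
    have h1 := hg1 z hz
    have h2 : ‖(1 : ℂ)‖ ≤ ‖g z‖ + ‖g z - 1‖ := by
      calc ‖(1 : ℂ)‖ = ‖g z - (g z - 1)‖ := by congr 1; ring
        _ ≤ _ := norm_sub_le _ _
    rw [norm_one] at h2
    linarith
  have hg0 : ∀ z ∈ ball (0 : E) 1, g z ≠ 0 := by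
    intro z hz h0
    have := hg2 z hz
    rw [h0, norm_zero] at this
    norm_num at this
  have hginv : ∀ z ∈ ball (0 : E) 1, ‖(g z)⁻¹‖ ≤ 2 := by
    intro z hz
    rw [norm_inv]
    calc _ ≤ (1 / 2 : ℝ)⁻¹ := inv_anti₀ (by norm_num) (hg2 z hz)
      _ = 2 := by norm_num
  have hgid : DifferentiableOn ℂ (fun z => (g z)⁻¹) (ball 0 1) := hgd.inv hg0
  have hfin : ∀ j, HOsc (fun z => h (some j) z * (g z)⁻¹) (maj e k₀) (H * (4 * Kg) + K * 2) :=
    fun j => HOsc.mul hs'.nonneg (hosch (some j)) (HOsc.inv hosg hg2) (hh2 (some j)) hginv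
  refine ⟨fun j z => h (some j) z * (g z)⁻¹, fun j => (hh1 (some j)).mul hgid, ?_, ?_, ?_⟩
  · intro j z hz
    rw [norm_mul]
    exact mul_le_mul (hh2 (some j) z hz) (hginv z hz) (norm_nonneg _) hH0
  · intro j k z hz
    exact (hfin j).grad ((hh1 (some j)).mul hgid) hz
  · intro z hz
    have h1 : ∑ j, f j z * (h (some j) z * (g z)⁻¹) = (∑ j, f j z * h (some j) z) * (g z)⁻¹ := by
      rw [Finset.sum_mul]
      refine Finset.sum_congr rfl fun j _ => ?_
      ring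
    have h2 : g z = ∑ j, f j z * h (some j) z := by
      simp only [hg]
      rw [Fintype.sum_option]
      simp [hF]
    rw [h1, ← h2, mul_inv_cancel₀ (hg0 z hz)]

end Pool.Agent.MPca0fc2.SD
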