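import Mathlib
import Pool.Agent.Lib.MP_ca0fc2_an.SDFin0
import Pool.Agent.Lib.MP_ca0fc2_an.SDGlob
import Pool.Agent.Lib.MP_ca0fc2_an.Depth
import Pool.Agent.Lib.MP_ca0fc2_an.DiscCor

set_option autoImplicit false

open Metric Set MeasureTheory Filter Topology
open scoped InnerProductSpace

namespace Pool.Agent.MPca0fc2.SD

open Pool.Agent.Lib.MP_ca0fc2_an

section Final

variable {E : Type*} [NormedAddCommGroup E] [InnerProductSpace ℂ E]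

variable [FiniteDimensional ℂ E]

/-- The corona theorem for data that are near square-Dini data at each boundary point. -/
theorem mainA (hn : 2 ≤ Module.finrank ℂ E) (N : ℕ) (M δ η : ℝ) (hδ : 0 < δ)
    (hη1 : 12 * N * η ^ 2 ≤ δ) (hη2 : N * (η * (2 * Real.sqrt (2 + 8 / δ))) ≤ 1 / 2)
    (ω : E → ℝ → ℝ) (ρ : E → ℝ) (hω : ∀ l, IntegrableOn (fun t => ω l t ^ 2 / t) (Ioo 0 1))
    (hρ : ∀ l, 0 < ρ l) :
    ∃ C : ℝ, ∀ f : Fin N → E → ℂ,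
        (∀ j, DifferentiableOn ℂ (f j) (ball 0 1)) →
        (∀ j, ∀ z ∈ ball (0 : E) 1, ‖f j z‖ ≤ M) →
        (∀ z ∈ ball (0 : E) 1, δ ≤ ∑ j, ‖f j z‖ ^ 2) →
        (∀ l ∈ sphere (0 : E) 1, ∃ g : Fin N → E → ℂ,
          (∀ j, DifferentiableOn ℂ (g j) (ball 0 1)) ∧
          (∀ j, ∀ z ∈ ball (0 : E) 1, ‖g j z‖ ≤ M) ∧
          (∀ j, ∀ z ∈ ball (0 : E) 1, (1 - ‖z‖) * ‖fderiv ℂ (g j) z‖ ≤ ω l (1 - ‖z‖)) ∧
          (∀ j, ∀ z ∈ ball (0 : E) 1 ∩ ball l (ρ l), ‖f j z - g j z‖ ≤ η)) →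
        ∃ h : Fin N → E → ℂ,
          (∀ j, DifferentiableOn ℂ (h j) (ball 0 1)) ∧
          (∀ j, ∀ z ∈ ball (0 : E) 1, ‖h j z‖ ≤ C) ∧
          ∀ z ∈ ball (0 : E) 1, ∑ j, f j z * h j z = 1 := by
  obtain ⟨m, hdim⟩ : ∃ m, Module.finrank ℂ E = m + 1 := ⟨Module.finrank ℂ E - 1, by omega⟩
  have hm : 1 ≤ m := by omega
  let _ : MeasurableSpace E := borel E
  have _ : BorelSpace E := ⟨rfl⟩
  have hnt : Nontrivial E := Module.nontrivial_of_finrank_pos (R := ℂ) (by omega)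
  set μ : Measure E := Measure.addHaar with hμ
  have hδ2 : 0 < δ / 2 := by positivity
  choose e he hwe hes using fun l => exists_slow (wk (ω l)) (wk_nonneg (ω l))
    (wk_summable (ω l) (hω l))
  choose ρ' hρ' hρle hloc using fun l =>
    local_fin N μ m hm hdim M (δ / 2) (ρ l) hδ2 (hρ l) (e l) (hes l) (he l)
  obtain ⟨C2, hfd⟩ := finite_depth (E := E) discCorona N M δ hδ (fun _ => 0) (fun _ => 1)
    ρ' (fun _ => 2 * (2 * Real.sqrt (2 + 8 / δ))) (fun _ => one_pos) hρ'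
  refine ⟨C2, ?_⟩
  intro f hf hfM hfδ hfl
  apply hfd f hf hfM hfδ
  intro l hl
  obtain ⟨g, hg1, hg2, hg3, hg4⟩ := hfl l hl
  have h1 := hloc l g (fun j => grad_of_omega (hwe l) (hg1 j) (hg2 j) (hg3 j)) hg2 l
    (mem_sphere_zero_iff_norm.mp hl) (fun z hz =>
      lower_perturb hη1 (fun j => hg4 j z hz) (hfδ z hz.1))
  have h8 : 4 / (δ / 2) = 8 / δ := by field_simp; ring
  rw [h8] at h1
  have hsub : ball (0 : E) 1 ∩ ball l (ρ' l) ⊆ ball (0 : E) 1 ∩ ball l (ρ l) :=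
    inter_subset_inter_right _ (ball_subset_ball (hρle l))
  exact solvable_perturb (fun j => (hf j).mono inter_subset_left)
    (fun j z hz => hg4 j z (hsub hz)) hη2 h1

/-- The corona theorem for square-Dini data. -/
theorem mainB (hn : 2 ≤ Module.finrank ℂ E) (N : ℕ) (M δ : ℝ) (hδ : 0 < δ) (ω : ℝ → ℝ)
    (hω : IntegrableOn (fun t => ω t ^ 2 / t) (Ioo 0 1)) :
    ∃ (C : ℝ) (ω' : ℝ → ℝ), IntegrableOn (fun t => ω' t ^ 2 / t) (Ioo 0 1) ∧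
      ∀ f : Fin N → E → ℂ,
        (∀ j, DifferentiableOn ℂ (f j) (ball 0 1)) →
        (∀ j, ∀ z ∈ ball (0 : E) 1, ‖f j z‖ ≤ M) →
        (∀ z ∈ ball (0 : E) 1, δ ≤ ∑ j, ‖f j z‖ ^ 2) →
        (∀ j, ∀ z ∈ ball (0 : E) 1, (1 - ‖z‖) * ‖fderiv ℂ (f j) z‖ ≤ ω (1 - ‖z‖)) →
        ∃ h : Fin N → E → ℂ,
          (∀ j, DifferentiableOn ℂ (h j) (ball 0 1)) ∧
          (∀ j, ∀ z ∈ ball (0 : E) 1, ‖h j z‖ ≤ C) ∧
          (∀ j, ∀ z ∈ ball (0 : E) 1, (1 - ‖z‖) * ‖fderiv ℂ (h j) z‖ ≤ ω' (1 - ‖z‖)) ∧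
          ∀ z ∈ ball (0 : E) 1, ∑ j, f j z * h j z = 1 := by
  obtain ⟨C2, hA⟩ := mainA hn N M δ 0 hδ (by simpa using hδ.le) (by simp) (fun _ => ω)
    (fun _ => 1) (fun _ => hω) (fun _ => one_pos)
  obtain ⟨m, hdim⟩ : ∃ m, Module.finrank ℂ E = m + 1 := ⟨Module.finrank ℂ E - 1, by omega⟩
  have hm : 1 ≤ m := by omega
  let _ : MeasurableSpace E := borel E
  have _ : BorelSpace E := ⟨rfl⟩
  have hnt : Nontrivial E := Module.nontrivial_of_finrank_pos (R := ℂ) (by omega)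
  set μ : Measure E := Measure.addHaar with hμ
  obtain ⟨e, he, hwe, hes⟩ := exists_slow (wk ω) (wk_nonneg ω) (wk_summable ω hω)
  obtain ⟨C, b, hb0, hbs, hglob⟩ := global_thm N μ m hm hdim |M| δ |C2| hδ (abs_nonneg _)
    (abs_nonneg _) e hes he
  refine ⟨C, om b, om_integrable hbs, ?_⟩
  intro f hf hfM hfδ hfω
  obtain ⟨G, hG1, hG2, hG3⟩ := hA f hf hfM hfδ
    (fun l _ => ⟨f, hf, hfM, hfω, fun j z _ => by rw [sub_self, norm_zero]⟩)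
  obtain ⟨h, hh1, hh2, hh3, hh4⟩ := hglob f G
    (fun j => grad_of_omega hwe (hf j) (hfM j) (hfω j))
    (fun j z hz => (hfM j z hz).trans (le_abs_self M)) hfδ hG1
    (fun j z hz => (hG2 j z hz).trans (le_abs_self C2)) hG3
  refine ⟨h, hh1, hh2, ?_, hh4⟩
  intro j z hz
  rw [mem_ball_zero_iff] at hz
  have ht : 0 < 1 - ‖z‖ := by linarith
  have ht1 : 1 - ‖z‖ ≤ 1 := by linarith [norm_nonneg z]
  have h1 := lev_le ht
  have h2 := lev_lt ht ht1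
  have h3 := hh3 j (lev (1 - ‖z‖)) z (by
    have : rr (lev (1 - ‖z‖)) = 1 - (1 / 2) ^ lev (1 - ‖z‖) := rfl
    linarith)
  unfold om
  have h4 : 0 ≤ ‖fderiv ℂ (h j) z‖ := norm_nonneg _
  nlinarith

/-- the constant of the perturbation -/
theorem exists_eta (N : ℕ) {δ : ℝ} (hδ : 0 < δ) : ∃ η : ℝ, 0 < η ∧ 12 * N * η ^ 2 ≤ δ ∧
    N * (η * (2 * Real.sqrt (2 + 8 / δ))) ≤ 1 / 2 := by
  set S := Real.sqrt (2 + 8 / δ) with hS
  have hS2 : S ^ 2 = 2 + 8 / δ := Real.sq_sqrt (by positivity)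
  have hS0 : 0 < S := Real.sqrt_pos.mpr (by positivity)
  refine ⟨1 / (4 * (N + 1) * S), by positivity, ?_, ?_⟩
  · have h1 : (1 / (4 * ((N : ℝ) + 1) * S)) ^ 2 = 1 / (16 * (N + 1) ^ 2 * (2 + 8 / δ)) := by
      rw [div_pow, one_pow, mul_pow, mul_pow, hS2]; norm_num
    rw [h1, mul_one_div, div_le_iff₀ (by positivity)]
    have h2 : δ * (16 * ((N : ℝ) + 1) ^ 2 * (2 + 8 / δ)) =
        16 * ((N : ℝ) + 1) ^ 2 * (2 * δ + 8) := by field_simp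
    rw [h2]
    have h3 : (0 : ℝ) ≤ N := Nat.cast_nonneg N
    have h4 : 12 * (N : ℝ) ≤ 16 * ((N : ℝ) + 1) ^ 2 * 8 := by nlinarith
    have h5 : 0 ≤ 16 * ((N : ℝ) + 1) ^ 2 * (2 * δ) := by positivity
    linarith
  · have h1 : (N : ℝ) * (1 / (4 * (N + 1) * S) * (2 * S)) = N / (2 * (N + 1)) := by
      field_simp; norm_num
    rw [h1, div_le_div_iff₀ (by positivity) (by norm_num)]
    linarith

end Final

end Pool.Agent.MPca0fc2.SD
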