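import Mathlib

set_option autoImplicit false

open Filter Topology

namespace Pool.Agent.MPca0fc2.SL

/-- the rate of the moving base -/
noncomputable def kp (a ρ e s : ℝ) : ℝ := 3 * e / ρ * Real.exp (-(a / e) * (ρ - s))

/-- regularity of a modulus: positive, small, with Lipschitz inverse -/
structure SE (e : ℕ → ℝ) (ε : ℝ) : Prop where
  pos : ∀ j, 0 < e j
  le : ∀ j, e j ≤ 1 / 100
  lip : ∀ j, |1 / e (j + 1) - 1 / e j| ≤ ε

namespace SE

variable {e : ℕ → ℝ} {ε : ℝ}

theorem aux {x y : ℝ} (hx : 0 < x) (hy : 0 < y) (hy1 : y ≤ 1 / 100) (hε : ε ≤ 1)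
    (hε0 : 0 ≤ ε) (h : 1 / y - ε ≤ 1 / x) : x ≤ y * (1 + 2 * ε * y) := by
  have h1 : 0 < 1 - ε * y := by nlinarith only [mul_le_mul hε hy1 hy.le zero_le_one]
  have h2 : (1 - ε * y) / y ≤ 1 / x := by
    have : (1 - ε * y) / y = 1 / y - ε := by field_simp
    rw [this]; exact h
  rw [div_le_div_iff₀ hy hx] at h2
  have h3 : 1 ≤ (1 - ε * y) * (1 + 2 * ε * y) := by
    have h4 : 0 ≤ ε * y := by positivity
    have h5 : ε * y ≤ 1 / 100 := by linarith only [mul_le_mul hε hy1 hy.le zero_le_one]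
    nlinarith only [h4, h5, mul_nonneg h4 (sub_nonneg.mpr h5)]
  calc x = x * 1 := by ring
    _ ≤ x * ((1 - ε * y) * (1 + 2 * ε * y)) := by gcongr
    _ = ((1 - ε * y) * x) * (1 + 2 * ε * y) := by ring
    _ ≤ (1 * y) * (1 + 2 * ε * y) := by
        have : 0 ≤ 1 + 2 * ε * y := by positivity
        gcongr
    _ = _ := by ring

theorem eps_nonneg (h : SE e ε) : 0 ≤ ε := (abs_nonneg _).trans (h.lip 0)

theorem up' (h : SE e ε) (hε : ε ≤ 1) (j : ℕ) : e (j + 1) ≤ e j * (1 + 2 * ε * e j) := by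
  apply aux (h.pos _) (h.pos _) (h.le _) hε h.eps_nonneg
  have := (abs_le.mp (h.lip j)).1
  linarith

theorem down' (h : SE e ε) (hε : ε ≤ 1) (j : ℕ) :
    e j ≤ e (j + 1) * (1 + 2 * ε * e (j + 1)) := by
  apply aux (h.pos _) (h.pos _) (h.le _) hε h.eps_nonneg
  have := (abs_le.mp (h.lip j)).2
  linarith

theorem up (h : SE e ε) (hε : ε ≤ 1) (j : ℕ) : e (j + 1) ≤ 1.02 * e j := by
  have h1 := h.up' hε j
  have h2 := h.pos j
  have h3 := h.le j
  have h4 := h.eps_nonneg
  have : 2 * ε * e j ≤ 0.02 := by linarith only [mul_le_mul hε h3 h2.le zero_le_one]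
  linarith only [h1, mul_le_mul_of_nonneg_left this h2.le]

theorem down (h : SE e ε) (hε : ε ≤ 1) (j : ℕ) : e j ≤ 1.02 * e (j + 1) := by
  have h1 := h.down' hε j
  have h2 := h.pos (j + 1)
  have h3 := h.le (j + 1)
  have h4 := h.eps_nonneg
  have : 2 * ε * e (j + 1) ≤ 0.02 := by linarith only [mul_le_mul hε h3 h2.le zero_le_one]
  linarith only [h1, mul_le_mul_of_nonneg_left this h2.le]

end SE

theorem kp_pos {a ρ e s : ℝ} (hρ : 0 < ρ) (he : 0 < e) : 0 < kp a ρ e s := by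
  unfold kp; positivity

theorem kp_le {a ρ e s : ℝ} (ha : 0 ≤ a) (hρ : 0 < ρ) (he : 0 < e) (hs : s ≤ ρ) :
    kp a ρ e s ≤ 3 * e / ρ := by
  unfold kp
  have h1 : Real.exp (-(a / e) * (ρ - s)) ≤ 1 := by
    rw [Real.exp_le_one_iff]
    have : 0 ≤ a / e := by positivity
    nlinarith only [mul_nonneg this (sub_nonneg.mpr hs)]
  have h2 : 0 ≤ 3 * e / ρ := by positivity
  linarith only [mul_le_mul_of_nonneg_left h1 h2]

variable {W : Type*} [NormedAddCommGroup W] [NormedSpace ℝ W]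

/-- the moving base -/
noncomputable def bs (a ρ : ℝ) (e : ℕ → ℝ) (v : ℕ → W) (b0 : W) : ℕ → W
  | 0 => b0
  | j + 1 => bs a ρ e v b0 j + kp a ρ (e j) ‖v (j + 1) - bs a ρ e v b0 j‖ •
      (v (j + 1) - bs a ρ e v b0 j)

/-- the distance of the base -/
noncomputable def ds (a ρ : ℝ) (e : ℕ → ℝ) (v : ℕ → W) (b0 : W) (j : ℕ) : ℝ :=
  ‖v (j + 1) - bs a ρ e v b0 j‖

theorem bs_succ (a ρ : ℝ) (e : ℕ → ℝ) (v : ℕ → W) (b0 : W) (j : ℕ) :
    bs a ρ e v b0 (j + 1) = bs a ρ e v b0 j + kp a ρ (e j) (ds a ρ e v b0 j) •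
      (v (j + 1) - bs a ρ e v b0 j) := rfl

theorem ds_nonneg (a ρ : ℝ) (e : ℕ → ℝ) (v : ℕ → W) (b0 : W) (j : ℕ) :
    0 ≤ ds a ρ e v b0 j := norm_nonneg _

section Step

variable {a ρ ε : ℝ} {e : ℕ → ℝ} {v : ℕ → W} {b0 : W} {j : ℕ}

theorem kp_le_one (ha : 0 ≤ a) (hρ : 0 < ρ) (he : SE e ε) (heρ : ∀ j, e j ≤ ρ / 100) {s : ℝ}
    (hs : s ≤ ρ) : kp a ρ (e j) s ≤ 1 := by
  refine (kp_le ha hρ (he.pos j) hs).trans ?_
  rw [div_le_one hρ]
  have := heρ j
  linarith

/-- the step of the base is short -/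
theorem bs_step_le (ha : 0 ≤ a) (hρ : 0 < ρ) (he : SE e ε) (hs : ds a ρ e v b0 j ≤ ρ) :
    ‖bs a ρ e v b0 (j + 1) - bs a ρ e v b0 j‖ = kp a ρ (e j) (ds a ρ e v b0 j) * ds a ρ e v b0 j ∧
    kp a ρ (e j) (ds a ρ e v b0 j) * ds a ρ e v b0 j ≤ 3 * e j := by
  constructor
  · rw [bs_succ, add_sub_cancel_left, norm_smul, Real.norm_of_nonneg (kp_pos hρ (he.pos j)).le]
    rfl
  · have h1 := kp_le ha hρ (he.pos j) hs
    have h2 := ds_nonneg a ρ e v b0 j
    have h3 := he.pos j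
    calc _ ≤ 3 * e j / ρ * ρ := by gcongr
      _ = _ := by field_simp

theorem ds_succ_le (hk : kp a ρ (e j) (ds a ρ e v b0 j) ≤ 1)
    (hv : ‖v (j + 2) - v (j + 1)‖ ≤ e (j + 1)) :
    ds a ρ e v b0 (j + 1) ≤ e (j + 1) + (1 - kp a ρ (e j) (ds a ρ e v b0 j)) *
      ds a ρ e v b0 j := by
  have e1 : v (j + 1 + 1) - bs a ρ e v b0 (j + 1) = (v (j + 2) - v (j + 1)) +
      (1 - kp a ρ (e j) (ds a ρ e v b0 j)) • (v (j + 1) - bs a ρ e v b0 j) := by
    rw [bs_succ, sub_smul, one_smul]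
    abel
  rw [ds, e1]
  refine (norm_add_le _ _).trans ?_
  rw [norm_smul, Real.norm_of_nonneg (by linarith)]
  exact add_le_add hv le_rfl

/-- the base stays within `ρ` -/
theorem ds_succ_le_rho (ha : 0 ≤ a) (ha1 : a ≤ 1 / 1000) (hρ : 0 < ρ) (he : SE e ε)
    (hε : ε ≤ 1) (heρ : ∀ j, e j ≤ ρ / 100) (hs : ds a ρ e v b0 j ≤ ρ)
    (hv : ‖v (j + 2) - v (j + 1)‖ ≤ e (j + 1)) :
    ds a ρ e v b0 (j + 1) ≤ ρ := by
  have hk1 := kp_le_one (j := j) ha hρ he heρ hs
  have h0 := ds_nonneg a ρ e v b0 j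
  have hk0 := (kp_pos (a := a) (s := ds a ρ e v b0 j) hρ (he.pos j)).le
  refine (ds_succ_le hk1 hv).trans ?_
  rcases le_or_gt (ds a ρ e v b0 j) (ρ - e (j + 1)) with h | h
  · nlinarith only [h, mul_nonneg hk0 h0]
  · have hup := he.up hε j
    have hej := he.pos j
    have hej1 := he.pos (j + 1)
    have h1 : 3 * e j / ρ * (1 - 0.0011) ≤ kp a ρ (e j) (ds a ρ e v b0 j) := by
      unfold kp
      apply mul_le_mul_of_nonneg_left _ (by positivity)
      have h2 : -(0.0011 : ℝ) ≤ -(a / e j) * (ρ - ds a ρ e v b0 j) := by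
        have h3 : ρ - ds a ρ e v b0 j ≤ 1.02 * e j := by linarith
        have h4 : a / e j * (ρ - ds a ρ e v b0 j) ≤ a / e j * (1.02 * e j) := by
          apply mul_le_mul_of_nonneg_left h3 (by positivity)
        have h5 : a / e j * (1.02 * e j) = 1.02 * a := by field_simp
        linarith only [h4, h5, ha1]
      calc (1 - 0.0011 : ℝ) = -0.0011 + 1 := by ring
        _ ≤ Real.exp (-0.0011) := Real.add_one_le_exp _
        _ ≤ _ := Real.exp_le_exp.mpr h2
    have h3 : 1.1 * e j ≤ kp a ρ (e j) (ds a ρ e v b0 j) * ds a ρ e v b0 j := by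
      have hd : 0.98 * ρ ≤ ds a ρ e v b0 j := by
        have := heρ (j + 1)
        linarith
      calc 1.1 * e j ≤ (3 * e j / ρ * (1 - 0.0011)) * (0.98 * ρ) := by
            have : (3 * e j / ρ * (1 - 0.0011)) * (0.98 * ρ) = 2.936766 * e j := by
              field_simp; norm_num
            rw [this]; linarith
        _ ≤ _ := by gcongr
    linarith only [h3, hup, hs, hej]

/-- comparison of consecutive rates -/
theorem kp_succ (ha : 0 ≤ a) (ha1 : a ≤ 1 / 1000) (hρ : 0 < ρ) (he : SE e ε)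
    (hε : ε ≤ 1) (hερ : ε * ρ ≤ 1) (heρ : ∀ j, e j ≤ ρ / 100) (hs : ds a ρ e v b0 j ≤ ρ)
    (hv : ‖v (j + 2) - v (j + 1)‖ ≤ e (j + 1)) :
    0.96 * kp a ρ (e j) (ds a ρ e v b0 j) ≤ kp a ρ (e (j + 1)) (ds a ρ e v b0 (j + 1)) := by
  have hs1 := ds_succ_le_rho ha ha1 hρ he hε heρ hs hv
  have hk1 := kp_le_one (j := j) ha hρ he heρ hs
  have h0 := ds_nonneg a ρ e v b0 j
  have h01 := ds_nonneg a ρ e v b0 (j + 1)
  have hej := he.pos j
  have hej1 := he.pos (j + 1)
  have hdown := he.down hε j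
  have hup := he.up hε j
  -- the distances change little
  have hd : ds a ρ e v b0 j ≤ ds a ρ e v b0 (j + 1) + 4.1 * e j := by
    have h1 : ds a ρ e v b0 j ≤ ‖v (j + 1 + 1) - bs a ρ e v b0 (j + 1)‖ +
        ‖v (j + 2) - v (j + 1)‖ + ‖bs a ρ e v b0 (j + 1) - bs a ρ e v b0 j‖ := by
      have e1 : v (j + 1) - bs a ρ e v b0 j = ((v (j + 1 + 1) - bs a ρ e v b0 (j + 1)) -
          (v (j + 2) - v (j + 1))) + (bs a ρ e v b0 (j + 1) - bs a ρ e v b0 j) := by abel
      calc ds a ρ e v b0 j = ‖v (j + 1) - bs a ρ e v b0 j‖ := rfl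
        _ ≤ _ := by
          rw [e1]
          exact (norm_add_le _ _).trans (add_le_add (norm_sub_le _ _) le_rfl)
    have h2 := bs_step_le (v := v) (b0 := b0) ha hρ he hs
    rw [h2.1] at h1
    have h3 : ds a ρ e v b0 (j + 1) = ‖v (j + 1 + 1) - bs a ρ e v b0 (j + 1)‖ := rfl
    rw [h3]
    linarith [h2.2]
  -- exponents
  have hexp : -(a / e j) * (ρ - ds a ρ e v b0 j) - 0.0052 ≤
      -(a / e (j + 1)) * (ρ - ds a ρ e v b0 (j + 1)) := by
    have h1 : a / e (j + 1) ≤ a / e j + a * ε := by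
      have h2 := (abs_le.mp (he.lip j)).2
      have h3 : a / e (j + 1) - a / e j = a * (1 / e (j + 1) - 1 / e j) := by ring
      have h4 : a * (1 / e (j + 1) - 1 / e j) ≤ a * ε := mul_le_mul_of_nonneg_left h2 ha
      linarith
    have h5 : 0 ≤ ρ - ds a ρ e v b0 (j + 1) := by linarith
    have h6 : a / e (j + 1) * (ρ - ds a ρ e v b0 (j + 1)) ≤
        (a / e j + a * ε) * (ρ - ds a ρ e v b0 (j + 1)) := mul_le_mul_of_nonneg_right h1 h5
    have h7 : a * ε * (ρ - ds a ρ e v b0 (j + 1)) ≤ a := by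
      have h8 : ε * (ρ - ds a ρ e v b0 (j + 1)) ≤ 1 := by
        have := he.eps_nonneg
        nlinarith only [mul_nonneg this h01, hερ]
      nlinarith only [mul_le_mul_of_nonneg_left h8 ha]
    have h9 : a / e j * (ds a ρ e v b0 j - ds a ρ e v b0 (j + 1)) ≤ 4.1 * a := by
      calc _ ≤ a / e j * (4.1 * e j) := mul_le_mul_of_nonneg_left (by linarith) (by positivity)
        _ = _ := by field_simp
    linarith only [h6, h7, h9, ha1]
  have hE : Real.exp (-(a / e j) * (ρ - ds a ρ e v b0 j)) * 0.994 ≤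
      Real.exp (-(a / e (j + 1)) * (ρ - ds a ρ e v b0 (j + 1))) := by
    calc _ ≤ Real.exp (-(a / e j) * (ρ - ds a ρ e v b0 j)) * Real.exp (-0.0052) := by
          gcongr
          have := Real.add_one_le_exp (-0.0052)
          linarith
      _ = Real.exp (-(a / e j) * (ρ - ds a ρ e v b0 j) - 0.0052) := by
          rw [← Real.exp_add]; ring_nf
      _ ≤ _ := Real.exp_le_exp.mpr hexp
  unfold kp
  have h3 : 0.98 * e j ≤ e (j + 1) := by linarith only [hdown, hej]
  calc 0.96 * (3 * e j / ρ * Real.exp (-(a / e j) * (ρ - ds a ρ e v b0 j)))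
      ≤ (3 * (0.98 * e j) / ρ) * (Real.exp (-(a / e j) * (ρ - ds a ρ e v b0 j)) * 0.994) := by
        have hx : 0 ≤ 3 * e j / ρ * Real.exp (-(a / e j) * (ρ - ds a ρ e v b0 j)) := by positivity
        have e2 : (3 * (0.98 * e j) / ρ) *
            (Real.exp (-(a / e j) * (ρ - ds a ρ e v b0 j)) * 0.994) = 0.98 * 0.994 *
            (3 * e j / ρ * Real.exp (-(a / e j) * (ρ - ds a ρ e v b0 j))) := by ring
        rw [e2]
        apply mul_le_mul_of_nonneg_right _ hx
        norm_num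
    _ ≤ _ := by gcongr

end Step

/-- the change of the exponential factor -/
theorem kp_diff {a ρ e s s' : ℝ} (ha : 0 ≤ a) (hρ : 0 < ρ) (he : 0 < e) {g : ℝ}
    (hg : Real.exp (a / e * |s - s'|) - 1 ≤ g) :
    |kp a ρ e s - kp a ρ e s'| ≤ kp a ρ e s * g := by
  have h1 : kp a ρ e s' = kp a ρ e s * Real.exp (a / e * (s' - s)) := by
    unfold kp
    rw [mul_assoc, ← Real.exp_add]
    ring_nf
  have hk := (kp_pos (a := a) (s := s) hρ he).le
  have hae : 0 ≤ a / e := by positivity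
  have e1 : kp a ρ e s - kp a ρ e s' = kp a ρ e s * (1 - Real.exp (a / e * (s' - s))) := by
    rw [h1]; ring
  rw [e1, abs_mul, abs_of_nonneg hk]
  apply mul_le_mul_of_nonneg_left _ hk
  refine le_trans ?_ hg
  set x := a / e * |s - s'| with hx
  have hx0 : 0 ≤ x := by positivity
  have h2 : a / e * (s' - s) ≤ x := by
    apply mul_le_mul_of_nonneg_left _ hae
    rw [abs_sub_comm]; exact le_abs_self _
  have h3 : -x ≤ a / e * (s' - s) := by
    have : a / e * -|s - s'| ≤ a / e * (s' - s) := by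
      apply mul_le_mul_of_nonneg_left _ hae
      have := neg_abs_le (s' - s)
      rw [abs_sub_comm]; exact this
    rw [hx]; linarith
  have h4 : Real.exp (a / e * (s' - s)) ≤ Real.exp x := Real.exp_le_exp.mpr h2
  have h5 : Real.exp (-x) ≤ Real.exp (a / e * (s' - s)) := Real.exp_le_exp.mpr h3
  have h6 : 1 - Real.exp (-x) ≤ Real.exp x - 1 := by
    have h7 := Real.add_one_le_exp x
    have h8 := Real.add_one_le_exp (-x)
    linarith
  rw [abs_le]
  constructor <;> linarith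

theorem exp_quarter_log_two : 1.18 ≤ Real.exp (Real.log 2 / 4) ∧
    Real.exp (Real.log 2 / 4) ≤ 1.19 := by
  have h : Real.exp (Real.log 2 / 4) ^ 4 = 2 := by
    rw [← Real.exp_nat_mul]
    push_cast
    rw [mul_div_cancel₀ _ (by norm_num : (4 : ℝ) ≠ 0), Real.exp_log (by norm_num)]
  have h0 := Real.exp_pos (Real.log 2 / 4)
  constructor
  · apply le_of_not_gt
    intro hlt
    have := pow_lt_pow_left₀ hlt h0.le (n := 4) (by norm_num)
    rw [h] at this
    norm_num at this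
  · apply le_of_not_gt
    intro hlt
    have := pow_lt_pow_left₀ hlt (by norm_num) (n := 4) (by norm_num)
    rw [h] at this
    norm_num at this

/-- one step of the comparison of two bases -/
theorem pair_step {a ρ ε Cu C4 Dm lam : ℝ} {e : ℕ → ℝ} {v v' : ℕ → W} {b0 b0' : W} {j : ℕ}
    (ha : 0 ≤ a) (ha1 : a ≤ 1 / 1000) (haC : a * (1.3 * Cu + 100) ≤ 1 / 4)
    (haC2 : a * (2 * Cu + C4) ≤ 1 / 8) (hC4 : 110 ≤ C4) (hCu : 0 ≤ Cu) (hρ : 0 < ρ) (he : SE e ε)
    (hε : ε ≤ 1) (hερ : ε * ρ ≤ 1) (hεD : 8 * ε * Dm ≤ C4) (heρ : ∀ j, e j ≤ ρ / 100)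
    (heC : ∀ j, Cu * e j ≤ ρ / 2)
    (hv : ‖v (j + 2) - v (j + 1)‖ ≤ e (j + 1)) 
    (hV : ‖v (j + 1) - v' (j + 1)‖ ≤ Cu * (e (j + 1) * Real.exp ((lam + Real.log 2) / 4)))
    (hV2 : 0 ≤ lam → ‖v (j + 1) - v' (j + 1)‖ ≤ Cu * (e (j + 1) * (1 + (lam + Real.log 2))))
    (hDm : ‖bs a ρ e v b0 (j + 1) - bs a ρ e v' b0' (j + 1)‖ ≤ Dm)
    (hs : ds a ρ e v b0 j ≤ ρ) (hs' : ds a ρ e v' b0' j ≤ ρ)
    (hP : ‖bs a ρ e v b0 j - bs a ρ e v' b0' j‖ ≤
      32 * ρ * (kp a ρ (e j) (ds a ρ e v b0 j) * Real.exp (lam / 4)))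
    (hQ : 0 ≤ lam → ‖bs a ρ e v b0 j - bs a ρ e v' b0' j‖ ≤ C4 * (e j * (1 + lam))) :
    ‖bs a ρ e v b0 (j + 1) - bs a ρ e v' b0' (j + 1)‖ ≤
      32 * ρ * (kp a ρ (e (j + 1)) (ds a ρ e v b0 (j + 1)) *
        Real.exp ((lam + Real.log 2) / 4)) ∧
    (0 ≤ lam + Real.log 2 → ‖bs a ρ e v b0 (j + 1) - bs a ρ e v' b0' (j + 1)‖ ≤
      C4 * (e (j + 1) * (1 + (lam + Real.log 2)))) := by
  set B := bs a ρ e v b0 j with hB
  set B' := bs a ρ e v' b0' j with hB'
  set κ := kp a ρ (e j) (ds a ρ e v b0 j) with hκ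
  set κ' := kp a ρ (e j) (ds a ρ e v' b0' j) with hκ'
  set s := ds a ρ e v b0 j with hsdef
  set s' := ds a ρ e v' b0' j with hsdef'
  have hej := he.pos j
  have hej1 := he.pos (j + 1)
  have hup := he.up hε j
  have hdown := he.down hε j
  have hκ0 : 0 < κ := kp_pos hρ hej
  have hκ'0 : 0 < κ' := kp_pos hρ hej
  have hκ1 : κ ≤ 1 := kp_le_one ha hρ he heρ hs
  have hκ'1 : κ' ≤ 1 := kp_le_one ha hρ he heρ hs'
  have hκe : κ ≤ 3 * e j / ρ := kp_le ha hρ hej hs
  have hκe' : κ' ≤ 3 * e j / ρ := kp_le ha hρ hej hs'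
  have hs0 : 0 ≤ s := ds_nonneg _ _ _ _ _ _
  have hs0' : 0 ≤ s' := ds_nonneg _ _ _ _ _ _
  have hl2 : 0.69 ≤ Real.log 2 := by have := Real.log_two_gt_d9; linarith
  have hl2' : Real.log 2 ≤ 0.7 := by have := Real.log_two_lt_d9; linarith
  have hC40 : 0 ≤ C4 := by linarith only [hC4]
  have hl20 : 0 ≤ Real.log 2 := by linarith only [hl2]
  obtain ⟨hq1, hq2⟩ := exp_quarter_log_two
  set h := Real.exp (lam / 4) with hh
  have hh0 : 0 < h := Real.exp_pos _
  have hh1 : Real.exp ((lam + Real.log 2) / 4) = h * Real.exp (Real.log 2 / 4) := by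
    rw [hh, ← Real.exp_add]; ring_nf
  have hκρ : ρ * κ ≤ 3 * e j := by
    calc ρ * κ ≤ ρ * (3 * e j / ρ) := by gcongr
      _ = _ := by field_simp
  -- difference of the distances
  have hss : |s - s'| ≤ ‖v (j + 1) - v' (j + 1)‖ + ‖B - B'‖ := by
    have e1 : (v (j + 1) - B) - (v' (j + 1) - B') = (v (j + 1) - v' (j + 1)) - (B - B') := by
      abel
    calc |s - s'| ≤ ‖(v (j + 1) - B) - (v' (j + 1) - B')‖ := abs_norm_sub_norm_le _ _
      _ ≤ _ := by rw [e1]; exact norm_sub_le _ _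
  -- exponential factor
  have hg : Real.exp (a / e j * |s - s'|) - 1 ≤ 2 * h := by
    have hae : 0 ≤ a / e j := by positivity
    rcases le_or_gt lam 0 with hl | hl
    · have hh' : h ≤ 1 := by rw [hh, Real.exp_le_one_iff]; linarith
      have h1 : |s - s'| ≤ (1.3 * Cu + 100) * (e j * h) := by
        refine hss.trans ?_
        have h2 : Cu * (e (j + 1) * Real.exp ((lam + Real.log 2) / 4)) ≤
            1.3 * Cu * (e j * h) := by
          rw [hh1]
          calc Cu * (e (j + 1) * (h * Real.exp (Real.log 2 / 4)))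
              ≤ Cu * ((1.02 * e j) * (h * 1.19)) := by gcongr
            _ = (1.02 * 1.19) * (Cu * (e j * h)) := by ring
            _ ≤ 1.3 * (Cu * (e j * h)) := by
                apply mul_le_mul_of_nonneg_right (by norm_num); positivity
            _ = _ := by ring
        have h3 : 32 * ρ * (κ * h) ≤ 96 * (e j * h) := by
          calc 32 * ρ * (κ * h) = 32 * (ρ * κ) * h := by ring
            _ ≤ 32 * (3 * e j) * h := by gcongr
            _ = _ := by ring
        have h4 : 0 ≤ e j * h := by positivity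
        linarith [hV, hP]
      have h5 : a / e j * |s - s'| ≤ h / 4 := by
        calc a / e j * |s - s'| ≤ a / e j * ((1.3 * Cu + 100) * (e j * h)) := by gcongr
          _ = a * (1.3 * Cu + 100) * h := by field_simp
          _ ≤ 1 / 4 * h := by gcongr
          _ = _ := by ring
      have h6 : Real.exp (a / e j * |s - s'|) ≤ Real.exp (h / 4) := Real.exp_le_exp.mpr h5
      have h7 : Real.exp (h / 4) ≤ 1 + h := by
        have h8 : |Real.exp (h / 4) - 1| ≤ 2 * |h / 4| := by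
          apply Real.abs_exp_sub_one_le
          rw [abs_of_nonneg (by positivity)]
          linarith
        rw [abs_of_nonneg (by positivity : 0 ≤ h / 4)] at h8
        have := le_abs_self (Real.exp (h / 4) - 1)
        linarith
      linarith
    · have h1 : |s - s'| ≤ (2 * Cu + C4) * (e j * (1 + lam)) := by
        refine hss.trans ?_
        have h2 : Cu * (e (j + 1) * (1 + (lam + Real.log 2))) ≤ 2 * Cu * (e j * (1 + lam)) := by
          calc Cu * (e (j + 1) * (1 + (lam + Real.log 2)))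
              ≤ Cu * ((1.02 * e j) * (1.7 * (1 + lam))) := by
                gcongr
                linarith
            _ = (1.02 * 1.7) * (Cu * (e j * (1 + lam))) := by ring
            _ ≤ 2 * (Cu * (e j * (1 + lam))) := by
                apply mul_le_mul_of_nonneg_right (by norm_num); positivity
            _ = _ := by ring
        linarith [hV2 hl.le, hQ hl.le]
      have h5 : a / e j * |s - s'| ≤ (1 + lam) / 8 := by
        calc a / e j * |s - s'| ≤ a / e j * ((2 * Cu + C4) * (e j * (1 + lam))) := by gcongr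
          _ = a * (2 * Cu + C4) * (1 + lam) := by field_simp
          _ ≤ 1 / 8 * (1 + lam) := by gcongr
          _ = _ := by ring
      have h6 : Real.exp (a / e j * |s - s'|) ≤ Real.exp ((1 + lam) / 8) :=
        Real.exp_le_exp.mpr h5
      have h7 : Real.exp ((1 + lam) / 8) ≤ 2 * h := by
        have h8 : Real.exp ((1 + lam) / 8) = Real.exp (1 / 8) * Real.exp (lam / 8) := by
          rw [← Real.exp_add]; ring_nf
        have h9 : Real.exp (1 / 8 : ℝ) ≤ 2 := by
          have h10 : |Real.exp (1 / 8) - 1| ≤ 2 * |(1 / 8 : ℝ)| := by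
            apply Real.abs_exp_sub_one_le
            rw [abs_of_nonneg (by norm_num)]; norm_num
          rw [abs_of_nonneg (by norm_num : (0 : ℝ) ≤ 1 / 8)] at h10
          have := le_abs_self (Real.exp (1 / 8 : ℝ) - 1)
          linarith
        have h11 : Real.exp (lam / 8) ≤ h := by
          rw [hh]; apply Real.exp_le_exp.mpr; linarith
        rw [h8]
        gcongr
      linarith
  have hκd := kp_diff (s := s) (s' := s') ha hρ hej hg
  -- the recursion
  have hrec : ‖bs a ρ e v b0 (j + 1) - bs a ρ e v' b0' (j + 1)‖ ≤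
      ‖B - B'‖ + κ * ‖v (j + 1) - v' (j + 1)‖ + |κ - κ'| * s' := by
    have e1 : bs a ρ e v b0 (j + 1) - bs a ρ e v' b0' (j + 1) = (1 - κ) • (B - B') +
        κ • (v (j + 1) - v' (j + 1)) + (κ - κ') • (v' (j + 1) - B') := by
      rw [bs_succ, bs_succ]
      module
    rw [e1]
    refine (norm_add₃_le).trans ?_
    rw [norm_smul, norm_smul, norm_smul, Real.norm_of_nonneg (by linarith),
      Real.norm_of_nonneg hκ0.le, Real.norm_eq_abs]
    have h1 : (1 - κ) * ‖B - B'‖ ≤ ‖B - B'‖ := by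
      have := norm_nonneg (B - B')
      nlinarith only [mul_nonneg hκ0.le this]
    have h2 : ‖v' (j + 1) - B'‖ = s' := rfl
    rw [h2]
    linarith
  have hks := kp_succ (v := v) (b0 := b0) ha ha1 hρ he hε hερ heρ hs hv
  constructor
  · refine hrec.trans ?_
    have h1 : κ * ‖v (j + 1) - v' (j + 1)‖ ≤ 0.6 * (ρ * (κ * h)) := by
      calc κ * ‖v (j + 1) - v' (j + 1)‖
          ≤ κ * (Cu * (e (j + 1) * Real.exp ((lam + Real.log 2) / 4))) := by gcongr
        _ = (Cu * e (j + 1)) * Real.exp (Real.log 2 / 4) * (κ * h) := by rw [hh1]; ring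
        _ ≤ (ρ / 2) * 1.19 * (κ * h) := by
            have := heC (j + 1)
            gcongr
        _ = 0.595 * (ρ * (κ * h)) := by ring
        _ ≤ _ := by apply mul_le_mul_of_nonneg_right (by norm_num); positivity
    have h2 : |κ - κ'| * s' ≤ 2 * (ρ * (κ * h)) := by
      calc |κ - κ'| * s' ≤ (κ * (2 * h)) * ρ := by gcongr
        _ = _ := by ring
    have h3 : 0.96 * κ * (1.18 * h) ≤ kp a ρ (e (j + 1)) (ds a ρ e v b0 (j + 1)) *
        Real.exp ((lam + Real.log 2) / 4) := by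
      rw [hh1]
      have : 1.18 * h ≤ h * Real.exp (Real.log 2 / 4) := by linarith only [mul_le_mul_of_nonneg_left hq1 hh0.le]
      have hk1 := (kp_pos (a := a) (s := ds a ρ e v b0 (j + 1)) hρ hej1).le
      gcongr
    have h4 : 32 * ρ * (0.96 * κ * (1.18 * h)) ≤ 32 * ρ *
        (kp a ρ (e (j + 1)) (ds a ρ e v b0 (j + 1)) * Real.exp ((lam + Real.log 2) / 4)) := by
      gcongr
    have h5 : 0 < ρ * (κ * h) := by positivity
    have h6 : 32 * ρ * (0.96 * κ * (1.18 * h)) = 36.2496 * (ρ * (κ * h)) := by ring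
    have h7 : 32 * ρ * (κ * h) = 32 * (ρ * (κ * h)) := by ring
    rw [h7] at hP
    linarith
  · intro hl
    -- crude growth
    have hcr : ‖bs a ρ e v b0 (j + 1) - bs a ρ e v' b0' (j + 1)‖ ≤ ‖B - B'‖ + 6 * e j := by
      have h1 := bs_step_le (v := v) (b0 := b0) (j := j) ha hρ he hs
      have h2 := bs_step_le (v := v') (b0 := b0') (j := j) ha hρ he hs'
      have e1 : bs a ρ e v b0 (j + 1) - bs a ρ e v' b0' (j + 1) = (B - B') +
          (bs a ρ e v b0 (j + 1) - B) - (bs a ρ e v' b0' (j + 1) - B') := by abel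
      rw [e1]
      refine (norm_sub_le _ _).trans ?_
      have h3 := norm_add_le (B - B') (bs a ρ e v b0 (j + 1) - B)
      rw [h1.1] at h3
      rw [h2.1]
      linarith [h1.2, h2.2]
    rcases le_or_gt 0 lam with hl0 | hl0
    · rcases le_or_gt 1 (8 * ε * (e (j + 1) * (1 + (lam + Real.log 2)))) with hc | hc
      · -- trivial bound
        have hε0 : 0 < ε := by
          rcases he.eps_nonneg.lt_or_eq with h | h
          · exact h
          · rw [← h] at hc; norm_num at hc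
        have h1 : Dm ≤ C4 * (e (j + 1) * (1 + (lam + Real.log 2))) := by
          have h2 : 8 * ε * Dm ≤ 8 * ε * (C4 * (e (j + 1) * (1 + (lam + Real.log 2)))) := by
            calc 8 * ε * Dm ≤ C4 := hεD
              _ ≤ C4 * (8 * ε * (e (j + 1) * (1 + (lam + Real.log 2)))) := le_mul_of_one_le_right (by linarith only [hC4]) hc
              _ = _ := by ring
          exact le_of_mul_le_mul_left h2 (by positivity)
        exact hDm.trans h1
      · have h1 := hQ hl0
        have h2 := he.down' hε j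
        set y := e (j + 1) with hy
        have h3 : e j * (C4 * (1 + lam) + 6) ≤ y * (C4 * (1 + lam) + 6) +
            2 * ε * y * (y * (C4 * (1 + lam) + 6)) := by
          have h4 : 0 ≤ C4 * (1 + lam) + 6 := by nlinarith only [mul_nonneg hC40 hl0, hC40]
          calc e j * (C4 * (1 + lam) + 6) ≤ (y * (1 + 2 * ε * y)) * (C4 * (1 + lam) + 6) :=
                mul_le_mul_of_nonneg_right h2 h4
            _ = _ := by ring
        have h5 : 2 * ε * y * (y * (C4 * (1 + lam) + 6)) ≤ (C4 + 6) / 4 * y := by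
          have h6 : C4 * (1 + lam) + 6 ≤ (C4 + 6) * (1 + (lam + Real.log 2)) := by
            nlinarith only [mul_nonneg hC40 hl20, hl0, hl20]
          have h7 : 0 ≤ 2 * ε * y * y := by have := he.eps_nonneg; positivity
          calc 2 * ε * y * (y * (C4 * (1 + lam) + 6)) = (2 * ε * y * y) *
                (C4 * (1 + lam) + 6) := by ring
            _ ≤ (2 * ε * y * y) * ((C4 + 6) * (1 + (lam + Real.log 2))) :=
                mul_le_mul_of_nonneg_left h6 h7
            _ = (C4 + 6) / 4 * y * (8 * ε * (y * (1 + (lam + Real.log 2)))) := by ring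
            _ ≤ (C4 + 6) / 4 * y * 1 := by gcongr
            _ = _ := by ring
        have g1 : 0.69 * (C4 * y) ≤ C4 * y * Real.log 2 := by
          have : 0 ≤ C4 * y := by positivity
          linarith only [mul_le_mul_of_nonneg_left hl2 this]
        have g2 : 110 * y ≤ C4 * y := mul_le_mul_of_nonneg_right hC4 hej1.le
        have g3 : ‖B - B'‖ + 6 * e j ≤ e j * (C4 * (1 + lam) + 6) := by
          linarith only [h1]
        have g4 : C4 * (y * (1 + (lam + Real.log 2))) = y * (C4 * (1 + lam)) +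
          C4 * y * Real.log 2 := by ring
        rw [g4]
        linarith only [hcr, g3, h3, h5, g1, g2, hej1]
    · have hh' : h ≤ 1 := by rw [hh, Real.exp_le_one_iff]; linarith
      have h1 : 32 * ρ * (κ * h) ≤ 96 * e j := by
        calc 32 * ρ * (κ * h) = 32 * (ρ * κ) * h := by ring
          _ ≤ 32 * (3 * e j) * 1 := by gcongr
          _ = _ := by ring
      have h2 : 0 ≤ e (j + 1) * (lam + Real.log 2) := by positivity
      have h3 : 110 * e (j + 1) ≤ C4 * e (j + 1) := mul_le_mul_of_nonneg_right hC4 hej1.le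
      have h4 : 0 ≤ C4 * (e (j + 1) * (lam + Real.log 2)) := mul_nonneg hC40 h2
      linarith only [hcr, hP, h1, hdown, h3, h4, hej1, hej]

/-- comparison of two bases -/
theorem pair_est {a ρ ε Cu C4 Dm lam : ℝ} {e : ℕ → ℝ} {v v' : ℕ → W} {b0 b0' : W} {J : ℕ}
    (ha : 0 ≤ a) (ha1 : a ≤ 1 / 1000) (haC : a * (1.3 * Cu + 100) ≤ 1 / 4)
    (haC2 : a * (2 * Cu + C4) ≤ 1 / 8) (hC4 : 110 ≤ C4) (hCu : 0 ≤ Cu) (hρ : 0 < ρ) (he : SE e ε)
    (hε : ε ≤ 1) (hερ : ε * ρ ≤ 1) (hεD : 8 * ε * Dm ≤ C4) (heρ : ∀ j, e j ≤ ρ / 100)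
    (heC : ∀ j, Cu * e j ≤ ρ / 2)
    (hv : ∀ j ≤ J, ‖v (j + 1) - v j‖ ≤ e j) (hv' : ∀ j ≤ J, ‖v' (j + 1) - v' j‖ ≤ e j)
    (hV : ∀ j ≤ J, ‖v j - v' j‖ ≤ Cu * (e j * Real.exp ((lam + j * Real.log 2) / 4)))
    (hV2 : ∀ j ≤ J, 0 ≤ lam + j * Real.log 2 →
      ‖v j - v' j‖ ≤ Cu * (e j * (1 + (lam + j * Real.log 2))))
    (hDm : ∀ j ≤ J, ‖bs a ρ e v b0 j - bs a ρ e v' b0' j‖ ≤ Dm)
    (hs : ds a ρ e v b0 0 ≤ ρ) (hs' : ds a ρ e v' b0' 0 ≤ ρ)
    (hP : ‖b0 - b0'‖ ≤ 32 * ρ * (kp a ρ (e 0) (ds a ρ e v b0 0) * Real.exp (lam / 4)))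
    (hQ : 0 ≤ lam → ‖b0 - b0'‖ ≤ C4 * (e 0 * (1 + lam))) :
    ∀ j ≤ J, ds a ρ e v b0 j ≤ ρ ∧ ds a ρ e v' b0' j ≤ ρ ∧
      ‖bs a ρ e v b0 j - bs a ρ e v' b0' j‖ ≤ 32 * ρ * (kp a ρ (e j) (ds a ρ e v b0 j) *
        Real.exp ((lam + j * Real.log 2) / 4)) ∧
      (0 ≤ lam + j * Real.log 2 → ‖bs a ρ e v b0 j - bs a ρ e v' b0' j‖ ≤
        C4 * (e j * (1 + (lam + j * Real.log 2)))) := by
  intro j
  induction j with
  | zero =>
    intro _
    refine ⟨hs, hs', ?_, ?_⟩
    · simpa [bs] using hP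
    · simpa [bs] using hQ
  | succ j ih =>
    intro hj
    obtain ⟨h1, h2, h3, h4⟩ := ih (by omega)
    have hvj := hv (j + 1) hj
    have hvj' := hv' (j + 1) hj
    have h5 := ds_succ_le_rho ha ha1 hρ he hε heρ h1 hvj
    have h6 := ds_succ_le_rho ha ha1 hρ he hε heρ h2 hvj'
    have hlog : 0 ≤ Real.log 2 := Real.log_nonneg (by norm_num)
    have e1 : lam + ((j + 1 : ℕ) : ℝ) * Real.log 2 = (lam + j * Real.log 2) + Real.log 2 := by
      push_cast; ring
    have hVj := hV (j + 1) hj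
    have hV2j := hV2 (j + 1) hj
    rw [e1] at hVj hV2j ⊢
    obtain ⟨h7, h8⟩ := pair_step (lam := lam + j * Real.log 2) ha ha1 haC haC2 hC4 hCu hρ he hε hερ
      hεD heρ heC hvj hVj (fun h => hV2j (by linarith)) (hDm (j + 1) hj) h1 h2 h3 h4
    exact ⟨h5, h6, h7, h8⟩

/-- logarithmic growth -/
theorem log_growth {e : ℕ → ℝ} {ε : ℝ} (he : SE e ε) (hε : ε ≤ 1) {V : ℕ → ℝ}
    {lam C c1 c2 Dm : ℝ} {J : ℕ} (hc1 : 0 ≤ c1) (hC1 : 3 * c1 ≤ C) (hC2 : 1.19 * c2 ≤ C)
    (hc2 : 0 ≤ c2) (hD : 8 * ε * Dm ≤ C) (hC : 0 < C)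
    (hV1 : ∀ j < J, V (j + 1) ≤ V j + c1 * e j) (hVD : ∀ j ≤ J, V j ≤ Dm)
    (hV2 : ∀ j ≤ J, V j ≤ c2 * (e j * Real.exp ((lam + j * Real.log 2) / 4)))
    (hlam : lam < 0) :
    ∀ j ≤ J, 0 ≤ lam + j * Real.log 2 → V j ≤ C * (e j * (1 + (lam + j * Real.log 2))) := by
  have hl2 : 0.69 ≤ Real.log 2 := by have := Real.log_two_gt_d9; linarith
  have hl20 : 0 ≤ Real.log 2 := by linarith only [hl2]
  intro j
  induction j with
  | zero => intro _ h; simp at h; linarith
  | succ j ih =>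
    intro hj hl
    have e1 : lam + ((j + 1 : ℕ) : ℝ) * Real.log 2 = (lam + j * Real.log 2) + Real.log 2 := by
      push_cast; ring
    have h0 := hV2 (j + 1) hj
    rw [e1] at hl h0 ⊢
    set L := lam + j * Real.log 2 with hL
    have hej := he.pos j
    have hej1 := he.pos (j + 1)
    rcases le_or_gt 0 L with hl0 | hl0
    · have h1 := ih (by omega) hl0
      have h2 := hV1 j (by omega)
      have h3 := he.down' hε j
      set y := e (j + 1) with hy
      rcases le_or_gt 1 (8 * ε * (y * (1 + (L + Real.log 2)))) with hc | hc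
      · have hε0 : 0 < ε := by
          rcases he.eps_nonneg.lt_or_eq with h | h
          · exact h
          · rw [← h] at hc; norm_num at hc
        have h4 : 8 * ε * Dm ≤ 8 * ε * (C * (y * (1 + (L + Real.log 2)))) := by
          calc 8 * ε * Dm ≤ C := hD
            _ ≤ C * (8 * ε * (y * (1 + (L + Real.log 2)))) := le_mul_of_one_le_right hC.le hc
            _ = _ := by ring
        exact (hVD (j + 1) hj).trans (le_of_mul_le_mul_left h4 (by positivity))
      · have h4 : 0 ≤ C * (1 + L) + c1 := by nlinarith only [mul_nonneg hC.le hl0, hC, hc1]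
        have h5 : e j * (C * (1 + L) + c1) ≤ y * (C * (1 + L) + c1) +
            2 * ε * y * (y * (C * (1 + L) + c1)) := by
          calc e j * (C * (1 + L) + c1) ≤ (y * (1 + 2 * ε * y)) * (C * (1 + L) + c1) :=
                mul_le_mul_of_nonneg_right h3 h4
            _ = _ := by ring
        have h6 : 2 * ε * y * (y * (C * (1 + L) + c1)) ≤ (C + c1) / 4 * y := by
          have h7 : C * (1 + L) + c1 ≤ (C + c1) * (1 + (L + Real.log 2)) := by
            nlinarith only [mul_nonneg hC.le hl20, mul_nonneg hc1 hl0, mul_nonneg hc1 hl20]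
          have h8 : 0 ≤ 2 * ε * y * y := by have := he.eps_nonneg; positivity
          calc 2 * ε * y * (y * (C * (1 + L) + c1)) = (2 * ε * y * y) *
                (C * (1 + L) + c1) := by ring
            _ ≤ (2 * ε * y * y) * ((C + c1) * (1 + (L + Real.log 2))) :=
                mul_le_mul_of_nonneg_left h7 h8
            _ = (C + c1) / 4 * y * (8 * ε * (y * (1 + (L + Real.log 2)))) := by ring
            _ ≤ (C + c1) / 4 * y * 1 := by gcongr
            _ = _ := by ring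
        have g1 : 0.69 * (C * y) ≤ C * y * Real.log 2 := by
          have : 0 ≤ C * y := by positivity
          linarith only [mul_le_mul_of_nonneg_left hl2 this]
        have g2 : 3 * c1 * y ≤ C * y := mul_le_mul_of_nonneg_right hC1 hej1.le
        have g5 : 0 < C * y := by positivity
        have g6 : (C + c1) / 4 * y = C * y / 4 + c1 * y / 4 := by ring
        rw [g6] at h6
        have g3 : V j + c1 * e j ≤ e j * (C * (1 + L) + c1) := by linarith
        have g4 : C * (y * (1 + (L + Real.log 2))) = y * (C * (1 + L)) +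
          C * y * Real.log 2 := by ring
        rw [g4]
        linarith only [h2, g3, h5, h6, g1, g2, g5]
    · have h1 : Real.exp ((L + Real.log 2) / 4) ≤ 1.19 := by
        refine le_trans ?_ exp_quarter_log_two.2
        apply Real.exp_le_exp.mpr
        linarith
      calc V (j + 1) ≤ c2 * (e (j + 1) * Real.exp ((L + Real.log 2) / 4)) := h0
        _ ≤ c2 * (e (j + 1) * 1.19) := by gcongr
        _ = 1.19 * c2 * (e (j + 1) * 1) := by ring
        _ ≤ C * (e (j + 1) * (1 + (L + Real.log 2))) := by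
            gcongr
            linarith

end Pool.Agent.MPca0fc2.SL
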