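import Mathlib
import Pool.Agent.Lib.MP_ca0fc2_an.SLSeq
import Pool.Agent.Lib.MP_ca0fc2_an.SDData

set_option autoImplicit false

open Metric Set Filter Topology
open scoped InnerProductSpace

namespace Pool.Agent.MPca0fc2.SL

open Pool.Agent.MPca0fc2.SD

/-- the radii of the balls carrying the state at level `k` -/
noncomputable def RR (k : ℕ) : ℝ := 1 + (1 / 2) ^ k / 16

/-- the fourth root of `2 ^ j q` -/
noncomputable def hx (q : ℝ) (j : ℕ) : ℝ := Real.exp ((Real.log q + j * Real.log 2) / 4)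

theorem hx_pos (q : ℝ) (j : ℕ) : 0 < hx q j := Real.exp_pos _

theorem hx_eq {q : ℝ} (hq : 0 < q) (j : ℕ) : hx q j = (q / (1 / 2) ^ j) ^ (1 / 4 : ℝ) := by
  rw [hx, Real.rpow_def_of_pos (by positivity), Real.log_div hq.ne' (by positivity),
    Real.log_pow, Real.log_div (by norm_num) (by norm_num), Real.log_one]
  congr 1
  ring

theorem RR_pos (k : ℕ) : 0 < RR k := by
  unfold RR; have := half_pow_pos k; positivity

theorem one_lt_RR (k : ℕ) : 1 < RR k := by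
  unfold RR; have := half_pow_pos k; linarith

theorem rr_mul_RR {j k : ℕ} (hjk : j ≤ k + 1) : rr j * RR k ≤ rr (j + 2) := by
  have h1 : ((1 : ℝ) / 2) ^ k ≤ 2 * (1 / 2) ^ j := by
    have h2 : ((1 : ℝ) / 2) ^ (k + 1) ≤ (1 / 2) ^ j :=
      pow_le_pow_of_le_one (by norm_num) (by norm_num) hjk
    rw [pow_succ] at h2
    linarith
  have h3 : rr (j + 2) = 1 - (1 / 2) ^ j / 4 := by unfold rr; rw [pow_add]; ring
  rw [h3]
  unfold rr RR
  nlinarith [half_pow_pos j, half_pow_pos k, half_pow_le_one j, mul_pos (half_pow_pos j) (half_pow_pos k)]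

variable {E : Type*} [NormedAddCommGroup E] [InnerProductSpace ℂ E]

theorem scal1 {f : E → ℂ} {e : ℕ → ℝ} (hf : Grad f e) (he : Slow e) (j : ℕ) {z : E}
    (hz : ‖z‖ ≤ 1 + (1 / 2) ^ j / 16) :
    ‖f ((rr (j + 1) : ℂ) • z) - f ((rr j : ℂ) • z)‖ ≤ 3 * e j := by
  set t : ℝ := (1 / 2) ^ j with ht
  have ht0 : 0 < t := half_pow_pos j
  have ht1 : t ≤ 1 := half_pow_le_one j
  have hr1 : rr (j + 1) = 1 - t / 2 := by rw [rr_succ, rr, ← ht]; ring
  have hr0 : rr j = 1 - t := by rw [rr, ← ht]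
  have hr2 : rr (j + 2) = 1 - t / 4 := by rw [rr_succ, hr1, pow_succ, ← ht]; ring
  have h1 := hf.radial (k := j + 2) (rr_nonneg j) (s' := rr (j + 1))
    (by rw [hr0, hr1]; linarith) (z := z) (by
      rw [hr2]
      calc rr (j + 1) * ‖z‖ ≤ rr (j + 1) * (1 + t / 16) :=
            mul_le_mul_of_nonneg_left hz (rr_nonneg _)
        _ ≤ _ := by rw [hr1]; nlinarith)
  refine h1.trans ?_
  have h2 : ((1 : ℝ) / 2) ^ (j + 2) = t / 4 := by rw [pow_add, ← ht]; ring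
  rw [hr1, hr0, h2]
  have h3 : 0 ≤ e (j + 2) := he.nonneg _
  have h4 : (1 - t / 2 - (1 - t)) * ‖z‖ * (e (j + 2) / (t / 4)) = 2 * ‖z‖ * e (j + 2) := by
    field_simp; ring
  rw [h4]
  have h5 := he.up j
  have h6 := he.up (j + 1)
  have h7 := he.nonneg j
  have h8 : e (j + 2) ≤ 1.21 * e j := by linarith
  have h9 : ‖z‖ ≤ 17 / 16 := by linarith
  calc 2 * ‖z‖ * e (j + 2) ≤ 2 * (17 / 16) * (1.21 * e j) := by gcongr
    _ ≤ _ := by linarith

theorem scal2 {f : E → ℂ} {e : ℕ → ℝ} (hf : Grad f e) (he : Slow e) {j k : ℕ}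
    (hjk : j ≤ k + 1) {a b : E} (ha : ‖a‖ ≤ 1) (hb : ‖b‖ ≤ 1) :
    ‖f (((rr j * RR k : ℝ) : ℂ) • a) - f (((rr j * RR k : ℝ) : ℂ) • b)‖ ≤
      2100 * (e j * hx (‖1 - ⟪a, b⟫_ℂ‖ + (1 / 2) ^ k) j) := by
  set q := ‖1 - ⟪a, b⟫_ℂ‖ + (1 / 2) ^ k with hq
  have htk := half_pow_pos k
  have htj := half_pow_pos j
  have hq0 : 0 < q := by positivity
  have hej := he.nonneg j
  -- radial parts
  have hrad : ∀ c : E, ‖c‖ ≤ 1 → ‖f (((rr j * RR k : ℝ) : ℂ) • c) - f ((rr j : ℂ) • c)‖ ≤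
      e j * hx q j := by
    intro c hc
    have h1 := hf.radial (k := j + 2) (rr_nonneg j) (s' := rr j * RR k)
      (by nlinarith [rr_nonneg j, one_lt_RR k]) (z := c) (by
        have := rr_mul_RR hjk
        have := mul_nonneg (rr_nonneg j) (RR_pos k).le
        nlinarith [norm_nonneg c])
    refine h1.trans ?_
    set x : ℝ := (1 / 2) ^ k / (1 / 2) ^ j with hxdef
    have hx0 : 0 < x := by positivity
    have hx2 : x ≤ 2 := by
      rw [hxdef, div_le_iff₀ htj]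
      have h2 : ((1 : ℝ) / 2) ^ (k + 1) ≤ (1 / 2) ^ j :=
        pow_le_pow_of_le_one (by norm_num) (by norm_num) hjk
      rw [pow_succ] at h2
      linarith
    have h2 : (rr j * RR k - rr j) * ‖c‖ * (e (j + 2) / (1 / 2) ^ (j + 2)) ≤
        x / 4 * (1.21 * e j) := by
      have h3 : rr j * RR k - rr j ≤ (1 / 2) ^ k / 16 := by
        unfold RR
        nlinarith [rr_nonneg j, rr_lt_one j]
      have h3' : 0 ≤ rr j * RR k - rr j := by nlinarith [rr_nonneg j, one_lt_RR k]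
      have h4 : e (j + 2) ≤ 1.21 * e j := by
        have h5 := he.up j
        have h6 := he.up (j + 1)
        linarith
      have h5 : ((1 : ℝ) / 2) ^ (j + 2) = (1 / 2) ^ j / 4 := by rw [pow_add]; ring
      have h6 := he.nonneg (j + 2)
      rw [h5]
      calc _ ≤ ((1 / 2) ^ k / 16) * 1 * ((1.21 * e j) / ((1 / 2) ^ j / 4)) := by gcongr
        _ = _ := by rw [hxdef]; field_simp; ring
    refine h2.trans ?_
    have h3 : x / 2 ≤ hx q j := by
      rw [hx_eq hq0]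
      have h4 : x ≤ q / (1 / 2) ^ j := by
        rw [hxdef, hq]
        gcongr
        linarith [norm_nonneg (1 - ⟪a, b⟫_ℂ)]
      have h5 : (x / 2) ^ (1 / 4 : ℝ) ≤ (q / (1 / 2) ^ j) ^ (1 / 4 : ℝ) := by
        apply Real.rpow_le_rpow (by positivity) _ (by norm_num)
        linarith
      refine le_trans ?_ h5
      calc x / 2 = (x / 2) ^ (1 : ℝ) := by rw [Real.rpow_one]
        _ ≤ (x / 2) ^ (1 / 4 : ℝ) :=
          Real.rpow_le_rpow_of_exponent_ge (by positivity) (by linarith) (by norm_num)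
    calc x / 4 * (1.21 * e j) = (1.21 / 2) * (e j * (x / 2)) := by ring
      _ ≤ 1 * (e j * hx q j) := by
        have := (hx_pos q j).le
        gcongr
        norm_num
      _ = _ := one_mul _
  have h1 := hf.osc he j ha hb
  have h2 : hwt ‖1 - ⟪a, b⟫_ℂ‖ j ≤ hx q j := by
    rw [hx_eq hq0]
    unfold hwt
    apply Real.rpow_le_rpow (by positivity) _ (by norm_num)
    gcongr
    rw [hq]; linarith
  have h3 := hrad a ha
  have h4 := hrad b hb
  have e1 : f (((rr j * RR k : ℝ) : ℂ) • a) - f (((rr j * RR k : ℝ) : ℂ) • b) =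
      (f (((rr j * RR k : ℝ) : ℂ) • a) - f ((rr j : ℂ) • a)) +
      (f ((rr j : ℂ) • a) - f ((rr j : ℂ) • b)) -
      (f (((rr j * RR k : ℝ) : ℂ) • b) - f ((rr j : ℂ) • b)) := by ring
  rw [e1]
  have h5 := norm_sub_le ((f (((rr j * RR k : ℝ) : ℂ) • a) - f ((rr j : ℂ) • a)) +
      (f ((rr j : ℂ) • a) - f ((rr j : ℂ) • b)))
      (f (((rr j * RR k : ℝ) : ℂ) • b) - f ((rr j : ℂ) • b))
  have h6 := norm_add_le (f (((rr j * RR k : ℝ) : ℂ) • a) - f ((rr j : ℂ) • a))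
      (f ((rr j : ℂ) • a) - f ((rr j : ℂ) • b))
  have h7 : e j * hwt ‖1 - ⟪a, b⟫_ℂ‖ j ≤ e j * hx q j := mul_le_mul_of_nonneg_left h2 hej
  have h8 : 0 ≤ e j * hx q j := mul_nonneg hej (hx_pos q j).le
  linarith

variable {W : Type*} [NormedAddCommGroup W] [InnerProductSpace ℂ W]

theorem norm_le_of_inner {x : W} {C : ℝ} (hC : 0 ≤ C) (h : ∀ v : W, ‖v‖ ≤ 1 → ‖⟪v, x⟫_ℂ‖ ≤ C) :
    ‖x‖ ≤ C := by
  rcases eq_or_ne x 0 with h0 | h0
  · rw [h0, norm_zero]; exact hC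
  · have hpos : 0 < ‖x‖ := norm_pos_iff.mpr h0
    have h1 := h (((‖x‖⁻¹ : ℝ) : ℂ) • x) (by
      rw [norm_smul, Complex.norm_real, norm_inv, norm_norm, inv_mul_cancel₀ hpos.ne'])
    rw [inner_smul_left, inner_self_eq_norm_sq_to_K, norm_mul, RCLike.norm_conj,
      Complex.norm_real] at h1
    have h2 : ‖((‖x‖ : ℂ)) ^ 2‖ = ‖x‖ ^ 2 := by
      rw [norm_pow, Complex.norm_real, norm_norm]
    have h3 : ‖‖x‖⁻¹‖ * ‖x‖ ^ 2 = ‖x‖ := by
      rw [Real.norm_of_nonneg (by positivity)]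
      field_simp
    calc ‖x‖ = ‖‖x‖⁻¹‖ * ‖x‖ ^ 2 := h3.symm
      _ ≤ C := by
        have : ‖‖x‖⁻¹‖ * ‖((‖x‖ : ℂ)) ^ 2‖ ≤ C := h1
        rwa [h2] at this

/-- the oscillation bounds used in the flow -/
structure Osc (u : E → W) (e : ℕ → ℝ) : Prop where
  hol : DifferentiableOn ℂ u (ball 0 1)
  o1 : ∀ j, ∀ z : E, ‖z‖ ≤ 1 + (1 / 2) ^ j / 16 →
    ‖u ((rr (j + 1) : ℂ) • z) - u ((rr j : ℂ) • z)‖ ≤ e j
  o2 : ∀ k j, j ≤ k + 1 → ∀ a b : E, ‖a‖ ≤ 1 → ‖b‖ ≤ 1 →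
    ‖u (((rr j * RR k : ℝ) : ℂ) • a) - u (((rr j * RR k : ℝ) : ℂ) • b)‖ ≤
      700 * (e j * hx (‖1 - ⟪a, b⟫_ℂ‖ + (1 / 2) ^ k) j)

theorem Osc.of_grad {u : E → W} {e : ℕ → ℝ} (hu : DifferentiableOn ℂ u (ball 0 1))
    (hg : ∀ v : W, ‖v‖ ≤ 1 → Grad (fun z => ⟪v, u z⟫_ℂ) e) (he : Slow e) :
    Osc u (fun j => 3 * e j) := by
  refine ⟨hu, ?_, ?_⟩
  · intro j z hz
    apply norm_le_of_inner (by have := he.nonneg j; positivity)
    intro v hv
    rw [inner_sub_right]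
    exact scal1 (hg v hv) he j hz
  · intro k j hjk a b ha hb
    have h0 := he.nonneg j
    have h1 := (hx_pos (‖1 - ⟪a, b⟫_ℂ‖ + (1 / 2) ^ k) j).le
    apply norm_le_of_inner (by positivity)
    intro v hv
    rw [inner_sub_right]
    refine (scal2 (hg v hv) he hjk ha hb).trans (le_of_eq ?_)
    ring

/-- the logarithmic oscillation bound -/
theorem Osc.log {e : ℕ → ℝ} {ε M : ℝ} {ks : ℕ} (he : SE (fun j => e (ks + j)) ε)
    (hε : ε ≤ 1) (hε0 : 0 < ε) (hM : 0 ≤ M) (hεM : ε * M ≤ 20) : ∃ j₁ : ℕ, ∀ u : E → W, Osc u e →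
    (∀ z ∈ ball (0 : E) 1, ‖u z‖ ≤ M) → ∀ k j, ks + j₁ ≤ j → j ≤ k + 1 →
    ∀ a b : E, ‖a‖ ≤ 1 → ‖b‖ ≤ 1 →
    0 ≤ Real.log (‖1 - ⟪a, b⟫_ℂ‖ + (1 / 2) ^ k) + j * Real.log 2 →
    ‖u (((rr j * RR k : ℝ) : ℂ) • a) - u (((rr j * RR k : ℝ) : ℂ) • b)‖ ≤
      900 * (e j * (1 + (Real.log (‖1 - ⟪a, b⟫_ℂ‖ + (1 / 2) ^ k) + j * Real.log 2))) := by
  have he0 := he.pos 0
  simp only [add_zero] at he0
  obtain ⟨j₁, hj₁⟩ := exists_nat_ge (1 / (ε * e ks))
  refine ⟨j₁, ?_⟩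
  intro u hu huM k j hj hjk a b ha hb hl
  obtain ⟨i, rfl⟩ : ∃ i, j = ks + i := ⟨j - ks, by omega⟩
  have hi : j₁ ≤ i := by omega
  set q := ‖1 - ⟪a, b⟫_ℂ‖ + (1 / 2) ^ k with hq
  have hl2 : 0.69 ≤ Real.log 2 := by have := Real.log_two_gt_d9; linarith
  have hmem : ∀ c : E, ‖c‖ ≤ 1 → ∀ l, l ≤ k + 1 → ((rr l * RR k : ℝ) : ℂ) • c ∈ ball (0 : E) 1 := by
    intro c hc l hl
    have h1 := rr_mul_RR hl
    have h2 := rr_lt_one (l + 2)
    have h3 := mul_nonneg (rr_nonneg l) (RR_pos k).le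
    rw [mem_ball_zero_iff, norm_smul, Complex.norm_real, Real.norm_of_nonneg h3]
    nlinarith [norm_nonneg c]
  have h2M : ∀ l, l ≤ k + 1 → ‖u (((rr l * RR k : ℝ) : ℂ) • a) -
      u (((rr l * RR k : ℝ) : ℂ) • b)‖ ≤ 2 * M := by
    intro l hl
    refine (norm_sub_le _ _).trans ?_
    linarith [huM _ (hmem a ha l hl), huM _ (hmem b hb l hl)]
  rcases lt_or_ge (Real.log q + ks * Real.log 2) 0 with hn | hf
  · -- near pairs
    have hlg := log_growth he hε (V := fun i => ‖u (((rr (ks + i) * RR k : ℝ) : ℂ) • a) -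
      u (((rr (ks + i) * RR k : ℝ) : ℂ) • b)‖) (lam := Real.log q + ks * Real.log 2)
      (C := 900) (c1 := 2) (c2 := 700) (Dm := 2 * M) (J := i) (by norm_num) (by norm_num)
      (by norm_num) (by norm_num) (by nlinarith) (by norm_num) ?_ ?_ ?_ hn i le_rfl ?_
    · refine hlg.trans (le_of_eq ?_)
      push_cast
      ring
    · intro l hl
      have hlk : ks + l ≤ k := by omega
      have hb1 : ∀ c : E, ‖c‖ ≤ 1 → ‖u (((rr (ks + l + 1) * RR k : ℝ) : ℂ) • c) -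
          u (((rr (ks + l) * RR k : ℝ) : ℂ) • c)‖ ≤ e (ks + l) := by
        intro c hc
        have h1 := hu.o1 (ks + l) ((RR k : ℂ) • c) (by
          rw [norm_smul, Complex.norm_real, Real.norm_of_nonneg (RR_pos k).le]
          have h2 : ((1 : ℝ) / 2) ^ k ≤ (1 / 2) ^ (ks + l) :=
            pow_le_pow_of_le_one (by norm_num) (by norm_num) hlk
          have h3 := half_pow_pos k
          unfold RR
          nlinarith [norm_nonneg c])
        simpa only [smul_smul, ← Complex.ofReal_mul] using h1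
      have h1 := hb1 a ha
      have h2 := hb1 b hb
      have e1 : u (((rr (ks + l + 1) * RR k : ℝ) : ℂ) • a) -
          u (((rr (ks + l + 1) * RR k : ℝ) : ℂ) • b) =
          (u (((rr (ks + l) * RR k : ℝ) : ℂ) • a) - u (((rr (ks + l) * RR k : ℝ) : ℂ) • b)) +
          (u (((rr (ks + l + 1) * RR k : ℝ) : ℂ) • a) - u (((rr (ks + l) * RR k : ℝ) : ℂ) • a)) -
          (u (((rr (ks + l + 1) * RR k : ℝ) : ℂ) • b) -
            u (((rr (ks + l) * RR k : ℝ) : ℂ) • b)) := by abel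
      show ‖u (((rr (ks + l + 1) * RR k : ℝ) : ℂ) • a) -
          u (((rr (ks + l + 1) * RR k : ℝ) : ℂ) • b)‖ ≤ _
      rw [e1]
      refine (norm_sub_le _ _).trans ?_
      have h3 := norm_add_le
        (u (((rr (ks + l) * RR k : ℝ) : ℂ) • a) - u (((rr (ks + l) * RR k : ℝ) : ℂ) • b))
        (u (((rr (ks + l + 1) * RR k : ℝ) : ℂ) • a) - u (((rr (ks + l) * RR k : ℝ) : ℂ) • a))
      linarith
    · intro l hl
      exact h2M _ (by omega)
    · intro l hl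
      have h1 := hu.o2 k (ks + l) (by omega) a b ha hb
      refine h1.trans (le_of_eq ?_)
      rw [hx, ← hq]
      push_cast
      ring_nf
    · push_cast at hl
      linarith
  · -- far pairs
    have hi0 : (j₁ : ℝ) ≤ i := by exact_mod_cast hi
    have hei : 0 < e (ks + i) := he.pos i
    -- linear growth of the inverse
    have hlin : ∀ l : ℕ, 1 / e (ks + l) ≤ 1 / e ks + ε * l := by
      intro l
      induction l with
      | zero => simp
      | succ l ih =>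
        have h1 : 1 / e (ks + (l + 1)) - 1 / e (ks + l) ≤ ε := (abs_le.mp (he.lip l)).2
        have h2 : ks + (l + 1) = ks + l + 1 := by ring
        rw [h2] at h1 ⊢
        push_cast
        linarith
    have h1 : 1 / e (ks + i) ≤ 2 * ε * i := by
      have h2 : 1 / e ks ≤ ε * i := by
        have h3 : 1 / (ε * e ks) ≤ i := hj₁.trans hi0
        rw [div_le_iff₀ (by positivity)] at h3
        rw [div_le_iff₀ he0]
        linarith
      linarith [hlin i]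
    have h2 : 1 ≤ 2 * ε * i * e (ks + i) := by
      rw [div_le_iff₀ hei] at h1
      exact h1
    have h3 := h2M (ks + i) hjk
    have h4 : (i : ℝ) * 0.69 ≤ Real.log q + ((ks + i : ℕ) : ℝ) * Real.log 2 := by
      push_cast
      have : (0 : ℝ) ≤ i := by positivity
      nlinarith
    have hi00 : (0 : ℝ) ≤ i := by positivity
    calc _ ≤ 2 * M := h3
      _ ≤ 2 * M * (2 * ε * i * e (ks + i)) := by nlinarith
      _ = 4 * (ε * M) * (i * e (ks + i)) := by ring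
      _ ≤ 4 * 20 * (i * e (ks + i)) := by gcongr
      _ = (80 / 0.69) * (e (ks + i) * (i * 0.69)) := by ring
      _ ≤ 900 * (e (ks + i) * (1 + (Real.log q + ((ks + i : ℕ) : ℝ) * Real.log 2))) := by
          gcongr
          · norm_num
          · linarith

end Pool.Agent.MPca0fc2.SL
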