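import Mathlib
import Pool.Agent.Lib.MP_ca0fc2_an.SLOsc

set_option autoImplicit false

open Metric Set Filter Topology
open scoped InnerProductSpace

namespace Pool.Agent.MPca0fc2.SL

open Pool.Agent.MPca0fc2.SD

/-- a small power of `2 ^ k u` -/
noncomputable def ZZ (α : ℝ) (k : ℕ) (u : ℂ) : ℂ :=
  Complex.exp ((α : ℂ) * (((k * Real.log 2 : ℝ) : ℂ) + Complex.log u))

theorem norm_ZZ (α : ℝ) (k : ℕ) {u : ℂ} (hu : u ≠ 0) :
    ‖ZZ α k u‖ = (2 ^ k * ‖u‖) ^ α := by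
  have hu' : 0 < ‖u‖ := norm_pos_iff.mpr hu
  rw [ZZ, Complex.norm_exp, Complex.re_ofReal_mul, Complex.add_re, Complex.ofReal_re,
    Complex.log_re, Real.rpow_def_of_pos (by positivity), Real.log_mul (by positivity) hu'.ne',
    Real.log_pow]
  congr 1
  ring

theorem re_ZZ {α : ℝ} (hα0 : 0 ≤ α) (hα1 : α ≤ 1) (k : ℕ) {u : ℂ} (hu : 0 < u.re) :
    0 ≤ (ZZ α k u).re := by
  rw [ZZ, Complex.exp_re]
  apply mul_nonneg (Real.exp_pos _).le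
  rw [Complex.im_ofReal_mul, Complex.add_im, Complex.ofReal_im, zero_add, Complex.log_im]
  have h1 : |u.arg| ≤ Real.pi / 2 := Complex.abs_arg_le_pi_div_two_iff.mpr hu.le
  have h2 : |α * u.arg| ≤ Real.pi / 2 := by
    rw [abs_mul, abs_of_nonneg hα0]
    nlinarith [abs_nonneg u.arg, Real.pi_pos]
  exact Real.cos_nonneg_of_mem_Icc ⟨by linarith [(abs_le.mp h2).1], (abs_le.mp h2).2⟩

theorem one_add_facts {Z : ℂ} (hZ : 0 ≤ Z.re) :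
    1 ≤ ‖1 + Z‖ ∧ ‖Z‖ ≤ ‖1 + Z‖ ∧ 2 * ‖Z‖ ≤ ‖1 + Z‖ ^ 2 := by
  have h1 : ‖1 + Z‖ ^ 2 = 1 + 2 * Z.re + ‖Z‖ ^ 2 := by
    rw [← Complex.normSq_eq_norm_sq, ← Complex.normSq_eq_norm_sq, Complex.normSq_apply,
      Complex.normSq_apply]
    simp
    ring
  have h0 := norm_nonneg Z
  have h00 := norm_nonneg (1 + Z)
  refine ⟨?_, ?_, ?_⟩
  · nlinarith
  · apply le_of_sq_le_sq _ h00
    nlinarith
  · nlinarith [sq_nonneg (‖Z‖ - 1)]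

/-- the auxiliary function of one variable -/
noncomputable def gg (α : ℝ) (k : ℕ) (u : ℂ) : ℂ := 2 * ZZ α k u / (1 + ZZ α k u)

theorem norm_gg {α : ℝ} {k : ℕ} {u : ℂ} :
    ‖gg α k u‖ = 2 * (‖ZZ α k u‖ / ‖1 + ZZ α k u‖) := by
  rw [gg, norm_div, norm_mul]
  simp
  ring

theorem gg_deriv {α : ℝ} (hα0 : 0 ≤ α) (hα1 : α ≤ 1) (k : ℕ) {u : ℂ} (hu : 0 < u.re) :
    HasDerivAt (gg α k) (2 * (α * ZZ α k u) / (u * (1 + ZZ α k u) ^ 2)) u := by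
  have hu0 : u ≠ 0 := by intro h; rw [h] at hu; simp at hu
  have hsl : u ∈ Complex.slitPlane := Or.inl hu
  have h1 : HasDerivAt (ZZ α k) (ZZ α k u * ((α : ℂ) * (0 + u⁻¹))) u :=
    (((hasDerivAt_const u _).add (Complex.hasDerivAt_log hsl)).const_mul (α : ℂ)).cexp
  have hf := one_add_facts (re_ZZ hα0 hα1 k hu)
  have hne : 1 + ZZ α k u ≠ 0 := by
    rw [← norm_pos_iff]; linarith [hf.1]
  have h2 : HasDerivAt (fun v => 2 * ZZ α k v) (2 * (ZZ α k u * ((α : ℂ) * (0 + u⁻¹)))) u :=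
    h1.const_mul 2
  have h3 : HasDerivAt (fun v => 1 + ZZ α k v) (ZZ α k u * ((α : ℂ) * (0 + u⁻¹))) u :=
    h1.const_add 1
  have h4 := h2.div h3 hne
  refine h4.congr_deriv ?_
  field_simp
  ring

theorem gg_deriv_norm {α : ℝ} (hα0 : 0 ≤ α) (hα1 : α ≤ 1) (k : ℕ) {u : ℂ} (hu : 0 < u.re) :
    ‖2 * (α * ZZ α k u) / (u * (1 + ZZ α k u) ^ 2)‖ ≤
      α * min 1 (2 * ‖ZZ α k u‖) / ‖u‖ := by
  have hu0 : u ≠ 0 := by intro h; rw [h] at hu; simp at hu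
  have hup : 0 < ‖u‖ := norm_pos_iff.mpr hu0
  have hf := one_add_facts (re_ZZ hα0 hα1 k hu)
  rw [norm_div, norm_mul, norm_mul, norm_mul, norm_pow, Complex.norm_real,
    Real.norm_of_nonneg hα0]
  have h2 : ‖(2 : ℂ)‖ = 2 := by simp
  rw [h2]
  set y := ‖ZZ α k u‖ with hy
  set x := ‖1 + ZZ α k u‖ with hx
  have hx2 : 0 < x ^ 2 := by nlinarith [hf.1]
  have hy0 : 0 ≤ y := norm_nonneg _
  have h3 : 2 * y / x ^ 2 ≤ min 1 (2 * y) := by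
    apply le_min
    · rw [div_le_one hx2]; exact hf.2.2
    · apply div_le_self (by positivity)
      nlinarith [hf.1]
  calc 2 * (α * y) / (‖u‖ * x ^ 2) = α * (2 * y / x ^ 2) / ‖u‖ := by
        field_simp
    _ ≤ _ := by gcongr

variable {E : Type*} [NormedAddCommGroup E] [InnerProductSpace ℂ E]

/-- the auxiliary datum -/
noncomputable def ff (α : ℝ) (k : ℕ) (l z : E) : ℂ := gg α k (1 - ⟪l, z⟫_ℂ)

theorem re_pos_of_mem {l z : E} (hl : ‖l‖ = 1) (hz : ‖z‖ < 1) : 0 < (1 - ⟪l, z⟫_ℂ).re := by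
  have h1 : ‖⟪l, z⟫_ℂ‖ < 1 := by
    refine (norm_inner_le_norm l z).trans_lt ?_
    rw [hl, one_mul]; exact hz
  have h2 := Complex.re_le_norm ⟪l, z⟫_ℂ
  rw [Complex.sub_re, Complex.one_re]
  linarith

theorem dist_le_inner {l z : E} (hl : ‖l‖ = 1) : 1 - ‖z‖ ≤ ‖1 - ⟪l, z⟫_ℂ‖ := by
  have h1 : ‖⟪l, z⟫_ℂ‖ ≤ ‖z‖ := by
    refine (norm_inner_le_norm l z).trans ?_
    rw [hl, one_mul]
  calc 1 - ‖z‖ ≤ ‖(1 : ℂ)‖ - ‖⟪l, z⟫_ℂ‖ := by rw [norm_one]; linarith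
    _ ≤ _ := norm_sub_norm_le _ _

theorem ff_fderiv {α : ℝ} (hα0 : 0 ≤ α) (hα1 : α ≤ 1) (k : ℕ) {l z : E} (hl : ‖l‖ = 1)
    (hz : ‖z‖ < 1) : DifferentiableAt ℂ (ff α k l) z ∧
    ‖fderiv ℂ (ff α k l) z‖ ≤
      α * min 1 (2 * (2 ^ k * ‖1 - ⟪l, z⟫_ℂ‖) ^ α) / ‖1 - ⟪l, z⟫_ℂ‖ := by
  have hre := re_pos_of_mem hl hz
  have h1 := gg_deriv hα0 hα1 k hre
  have h2 : HasFDerivAt (fun z : E => 1 - ⟪l, z⟫_ℂ) (0 - innerSL ℂ l) z :=
    (hasFDerivAt_const (1 : ℂ) z).sub (innerSL ℂ l).hasFDerivAt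
  have h3 := h1.comp_hasFDerivAt z h2
  have h4 : HasFDerivAt (ff α k l) _ z := h3
  refine ⟨h4.differentiableAt, ?_⟩
  rw [h4.fderiv, norm_smul]
  have hne : (1 - ⟪l, z⟫_ℂ) ≠ 0 := by
    intro h; rw [h] at hre; simp at hre
  have h5 := gg_deriv_norm hα0 hα1 k hre
  rw [norm_ZZ α k hne] at h5
  have h6 : ‖(0 : E →L[ℂ] ℂ) - innerSL ℂ l‖ = 1 := by
    rw [zero_sub, norm_neg, innerSL_apply_norm, hl]
  rw [h6, mul_one]
  exact h5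

theorem exists_alpha {e : ℕ → ℝ} (hpos : ∀ k, 0 < e k) (k₁ : ℕ) :
    ∃ α : ℝ, 0 < α ∧ α ≤ 1 / 8 ∧ ∀ k ≤ k₁, α ≤ e k / 8 := by
  induction k₁ with
  | zero =>
    refine ⟨min (1 / 8) (e 0 / 8), lt_min (by norm_num) (by have := hpos 0; positivity),
      min_le_left _ _, fun k hk => ?_⟩
    rw [Nat.le_zero.mp hk]
    exact min_le_right _ _
  | succ n ih =>
    obtain ⟨α, h0, h1, h2⟩ := ih
    refine ⟨min α (e (n + 1) / 8), lt_min h0 (by have := hpos (n + 1); positivity),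
      (min_le_left _ _).trans h1, fun k hk => ?_⟩
    rcases Nat.le_succ_iff.mp hk with h | h
    · exact (min_le_left _ _).trans (h2 k h)
    · rw [h]; exact min_le_right _ _

theorem inv_growth {e : ℕ → ℝ} {ε : ℝ} (hlip : ∀ k, |1 / e (k + 1) - 1 / e k| ≤ ε) (k₁ n : ℕ) :
    1 / e (k₁ + n) ≤ 1 / e k₁ + n * ε := by
  induction n with
  | zero => simp
  | succ n ih =>
    have h1 := (abs_le.mp (hlip (k₁ + n))).2
    rw [← add_assoc]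
    push_cast
    linarith

theorem aug_fn {e : ℕ → ℝ} {ε : ℝ} (hpos : ∀ k, 0 < e k)
    (hlip : ∀ k, |1 / e (k + 1) - 1 / e k| ≤ ε) (hε : ε ≤ 1 / 8) (k₁ : ℕ) :
    ∃ F0 : E → E → ℂ, (∀ l, ‖l‖ = 1 → Grad (F0 l) e ∧ (∀ z ∈ ball (0 : E) 1, ‖F0 l z‖ ≤ 2) ∧
      (∀ z, ‖z‖ < RR k₁ → 1 / 2 ≤ ‖F0 l ((rr k₁ : ℂ) • z)‖) ∧
      (∀ z ∈ ball (0 : E) 1, ‖F0 l z‖ < 3 / 4 → ‖1 - ⟪l, z⟫_ℂ‖ < (1 / 2) ^ k₁)) ∧
      ∀ η > 0, ∃ r > 0, ∀ l, ‖l‖ = 1 → ∀ z ∈ ball (0 : E) 1, z ∈ ball l r → ‖F0 l z‖ ≤ η := by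
  obtain ⟨α, hα0, hα8, hαe⟩ := exists_alpha hpos k₁
  have hα1 : α ≤ 1 := by linarith
  refine ⟨ff α k₁, fun l hl => ⟨⟨?_, ?_⟩, ?_, ?_, ?_⟩, ?_⟩
  · intro z hz
    exact (ff_fderiv hα0.le hα1 k₁ hl (by simpa using hz)).1.differentiableWithinAt
  · intro k z hz
    have hz1 : ‖z‖ < 1 := hz.trans_lt (rr_lt_one k)
    have h1 := (ff_fderiv hα0.le hα1 k₁ hl hz1).2
    have hlow : (1 / 2 : ℝ) ^ k ≤ ‖1 - ⟪l, z⟫_ℂ‖ := by
      have := dist_le_inner (z := z) hl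
      unfold rr at hz
      linarith
    have hk := half_pow_pos k
    set x := ‖1 - ⟪l, z⟫_ℂ‖ with hx
    have hx0 : 0 < x := hk.trans_le hlow
    have h2 : ‖fderiv ℂ (ff α k₁ l) z‖ * (1 / 2) ^ k ≤
        α * (min 1 (2 * (2 ^ k₁ * x) ^ α) * ((1 / 2) ^ k / x)) := by
      calc ‖fderiv ℂ (ff α k₁ l) z‖ * (1 / 2) ^ k ≤
            (α * min 1 (2 * (2 ^ k₁ * x) ^ α) / x) * (1 / 2) ^ k := by gcongr
        _ = _ := by ring
    refine h2.trans ?_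
    have hr1 : (1 / 2 : ℝ) ^ k / x ≤ 1 := by rw [div_le_one hx0]; exact hlow
    have hr0 : 0 ≤ (1 / 2 : ℝ) ^ k / x := by positivity
    rcases le_total k k₁ with hkk | hkk
    · have h3 : min 1 (2 * (2 ^ k₁ * x) ^ α) * ((1 / 2) ^ k / x) ≤ 1 * 1 :=
        mul_le_mul (min_le_left _ _) hr1 hr0 zero_le_one
      calc α * (min 1 (2 * (2 ^ k₁ * x) ^ α) * ((1 / 2) ^ k / x)) ≤ α * (1 * 1) := by gcongr
        _ ≤ e k / 8 := by rw [one_mul, mul_one]; exact hαe k hkk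
        _ ≤ e k := by linarith [hpos k]
    · obtain ⟨n, rfl⟩ := Nat.exists_eq_add_of_le hkk
      -- the decay
      have h3 : (2 ^ k₁ * x) ^ α * ((1 / 2) ^ (k₁ + n) / x) ≤ ((2 : ℝ) ^ (n * α))⁻¹ := by
        set y := 2 ^ (k₁ + n) * x with hy
        have hy1 : 1 ≤ y := by
          rw [hy]
          have : (1 : ℝ) = 2 ^ (k₁ + n) * (1 / 2) ^ (k₁ + n) := by
            rw [← mul_pow]; norm_num
          rw [this]
          gcongr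
        have hy0 : 0 < y := by linarith
        have e1 : (2 : ℝ) ^ k₁ * x = y * (2 ^ n)⁻¹ := by
          rw [hy, pow_add]
          field_simp
        have e2 : (1 / 2 : ℝ) ^ (k₁ + n) / x = 1 / y := by
          rw [hy, one_div_pow, div_div]
        rw [e1, e2, Real.mul_rpow hy0.le (by positivity), Real.inv_rpow (by positivity),
          ← Real.rpow_natCast 2 n, ← Real.rpow_mul (by norm_num)]
        have h4 : y ^ α ≤ y := by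
          calc y ^ α ≤ y ^ (1 : ℝ) := Real.rpow_le_rpow_of_exponent_le hy1 hα1
            _ = y := Real.rpow_one y
        have h5 : 0 < ((2 : ℝ) ^ ((n : ℝ) * α))⁻¹ := by positivity
        calc y ^ α * ((2 : ℝ) ^ ((n : ℝ) * α))⁻¹ * (1 / y)
            = (y ^ α / y) * ((2 : ℝ) ^ ((n : ℝ) * α))⁻¹ := by ring
          _ ≤ 1 * ((2 : ℝ) ^ ((n : ℝ) * α))⁻¹ := by
            gcongr
            rw [div_le_one hy0]; exact h4
          _ = _ := one_mul _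
      have h6 : α * (min 1 (2 * (2 ^ k₁ * x) ^ α) * ((1 / 2) ^ (k₁ + n) / x)) ≤
          2 * α * ((2 : ℝ) ^ (n * α))⁻¹ := by
        calc α * (min 1 (2 * (2 ^ k₁ * x) ^ α) * ((1 / 2) ^ (k₁ + n) / x)) ≤
              α * ((2 * (2 ^ k₁ * x) ^ α) * ((1 / 2) ^ (k₁ + n) / x)) := by
                gcongr
                exact min_le_right _ _
          _ = 2 * α * ((2 ^ k₁ * x) ^ α * ((1 / 2) ^ (k₁ + n) / x)) := by ring
          _ ≤ _ := by gcongr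
      refine h6.trans ?_
      have h7 := inv_growth hlip k₁ n
      have hek := hpos (k₁ + n)
      have hek1 := hpos k₁
      have h8 : 1 / e k₁ ≤ 1 / (8 * α) := by
        apply one_div_le_one_div_of_le (by positivity)
        linarith [hαe k₁ le_rfl]
      have h9 : 1 / e (k₁ + n) ≤ 1 / (8 * α) + n * (1 / 8) := by
        have : (n : ℝ) * ε ≤ n * (1 / 8) := by gcongr
        linarith
      have h10 : 1 / (8 * α) + n * (1 / 8) = (1 + n * α) / (8 * α) := by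
        field_simp
      rw [h10, div_le_div_iff₀ hek (by positivity), one_mul] at h9
      -- 8 α ≤ (1 + nα) e
      have h11 : 1 + n * α ≤ 4 * (2 : ℝ) ^ ((n : ℝ) * α) := by
        have h12 : (n : ℝ) * α * Real.log 2 + 1 ≤ (2 : ℝ) ^ ((n : ℝ) * α) := by
          rw [Real.rpow_def_of_pos (by norm_num), mul_comm (Real.log 2)]
          exact Real.add_one_le_exp _
        have h13 : 0.6931471803 < Real.log 2 := Real.log_two_gt_d9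
        have h14 : 0 ≤ (n : ℝ) * α := by positivity
        nlinarith
      have h15 : 0 < (2 : ℝ) ^ ((n : ℝ) * α) := by positivity
      rw [← div_eq_mul_inv, div_le_iff₀ h15]
      nlinarith [mul_le_mul_of_nonneg_right h11 hek.le]
  · intro z hz
    rw [mem_ball_zero_iff] at hz
    have hf := one_add_facts (re_ZZ hα0.le hα1 k₁ (re_pos_of_mem hl hz))
    rw [ff, norm_gg]
    have h1 : ‖ZZ α k₁ (1 - ⟪l, z⟫_ℂ)‖ / ‖1 + ZZ α k₁ (1 - ⟪l, z⟫_ℂ)‖ ≤ 1 := by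
      rw [div_le_one (by linarith [hf.1])]
      exact hf.2.1
    linarith
  · intro z hz
    have hk := half_pow_pos k₁
    have hk1 := half_pow_le_one k₁
    have hn : ‖(rr k₁ : ℂ) • z‖ ≤ 1 - 15 / 16 * (1 / 2) ^ k₁ := by
      rw [norm_smul, Complex.norm_real, Real.norm_of_nonneg (rr_nonneg _)]
      calc rr k₁ * ‖z‖ ≤ rr k₁ * RR k₁ := mul_le_mul_of_nonneg_left hz.le (rr_nonneg _)
        _ ≤ _ := by unfold rr RR; nlinarith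
    have hn1 : ‖(rr k₁ : ℂ) • z‖ < 1 := by linarith
    have hre := re_pos_of_mem hl hn1
    have hlow : 15 / 16 * (1 / 2) ^ k₁ ≤ ‖1 - ⟪l, (rr k₁ : ℂ) • z⟫_ℂ‖ := by
      have := dist_le_inner (z := (rr k₁ : ℂ) • z) hl
      linarith
    have hne : (1 - ⟪l, (rr k₁ : ℂ) • z⟫_ℂ) ≠ 0 := by
      intro h; rw [h] at hre; simp at hre
    have h1 : 15 / 16 ≤ ‖ZZ α k₁ (1 - ⟪l, (rr k₁ : ℂ) • z⟫_ℂ)‖ := by
      rw [norm_ZZ _ _ hne]
      have h2 : (15 / 16 : ℝ) ≤ 2 ^ k₁ * ‖1 - ⟪l, (rr k₁ : ℂ) • z⟫_ℂ‖ := by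
        calc (15 / 16 : ℝ) = 2 ^ k₁ * (15 / 16 * (1 / 2) ^ k₁) := by
              rw [mul_left_comm, ← mul_pow]; norm_num
          _ ≤ _ := by gcongr
      calc (15 / 16 : ℝ) = (15 / 16 : ℝ) ^ (1 : ℝ) := (Real.rpow_one _).symm
        _ ≤ (15 / 16 : ℝ) ^ α :=
          Real.rpow_le_rpow_of_exponent_ge (by norm_num) (by norm_num) hα1
        _ ≤ _ := Real.rpow_le_rpow (by norm_num) h2 hα0.le
    rw [ff, norm_gg]
    set Z := ZZ α k₁ (1 - ⟪l, (rr k₁ : ℂ) • z⟫_ℂ) with hZ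
    have h3 : ‖1 + Z‖ ≤ 1 + ‖Z‖ := by
      calc ‖1 + Z‖ ≤ ‖(1 : ℂ)‖ + ‖Z‖ := norm_add_le _ _
        _ = _ := by rw [norm_one]
    have h4 := (one_add_facts (re_ZZ hα0.le hα1 k₁ hre)).1
    rw [← hZ] at h4
    have h5 : 1 / 4 ≤ ‖Z‖ / ‖1 + Z‖ := by
      rw [le_div_iff₀ (by linarith)]
      linarith
    linarith
  · intro z hz
    contrapose!
    intro hle
    rw [mem_ball_zero_iff] at hz
    have hre := re_pos_of_mem hl hz
    have hne : (1 - ⟪l, z⟫_ℂ) ≠ 0 := by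
      intro h; rw [h] at hre; simp at hre
    have h1 : 1 ≤ ‖ZZ α k₁ (1 - ⟪l, z⟫_ℂ)‖ := by
      rw [norm_ZZ _ _ hne]
      apply Real.one_le_rpow _ hα0.le
      calc (1 : ℝ) = 2 ^ k₁ * (1 / 2) ^ k₁ := by rw [← mul_pow]; norm_num
        _ ≤ _ := by gcongr
    rw [ff, norm_gg]
    set Z := ZZ α k₁ (1 - ⟪l, z⟫_ℂ) with hZ
    have h3 : ‖1 + Z‖ ≤ 1 + ‖Z‖ := by
      calc ‖1 + Z‖ ≤ ‖(1 : ℂ)‖ + ‖Z‖ := norm_add_le _ _
        _ = _ := by rw [norm_one]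
    have h4 := (one_add_facts (re_ZZ hα0.le hα1 k₁ hre)).1
    rw [← hZ] at h4
    have h5 : 1 / 2 ≤ ‖Z‖ / ‖1 + Z‖ := by
      rw [le_div_iff₀ (by linarith)]
      linarith
    linarith
  · intro η hη
    refine ⟨(1 / 2) ^ k₁ * (η / 2) ^ (1 / α), by positivity, fun l hl z hz hzl => ?_⟩
    rw [mem_ball_zero_iff] at hz
    have hre := re_pos_of_mem hl hz
    have hne : (1 - ⟪l, z⟫_ℂ) ≠ 0 := by
      intro h; rw [h] at hre; simp at hre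
    have hf := one_add_facts (re_ZZ hα0.le hα1 k₁ hre)
    rw [mem_ball, dist_eq_norm] at hzl
    have h1 : ‖1 - ⟪l, z⟫_ℂ‖ ≤ (1 / 2) ^ k₁ * (η / 2) ^ (1 / α) := by
      have e1 : 1 - ⟪l, z⟫_ℂ = ⟪l, l - z⟫_ℂ := by
        rw [inner_sub_right, inner_self_eq_norm_sq_to_K, hl]; simp
      rw [e1]
      calc ‖⟪l, l - z⟫_ℂ‖ ≤ ‖l‖ * ‖l - z‖ := norm_inner_le_norm _ _
        _ = ‖z - l‖ := by rw [hl, one_mul, norm_sub_rev]
        _ ≤ _ := hzl.le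
    have h2 : ‖ZZ α k₁ (1 - ⟪l, z⟫_ℂ)‖ ≤ η / 2 := by
      rw [norm_ZZ _ _ hne]
      have h3 : 2 ^ k₁ * ‖1 - ⟪l, z⟫_ℂ‖ ≤ (η / 2) ^ (1 / α) := by
        calc 2 ^ k₁ * ‖1 - ⟪l, z⟫_ℂ‖ ≤ 2 ^ k₁ * ((1 / 2) ^ k₁ * (η / 2) ^ (1 / α)) := by gcongr
          _ = _ := by rw [← mul_assoc, ← mul_pow]; norm_num
      calc (2 ^ k₁ * ‖1 - ⟪l, z⟫_ℂ‖) ^ α ≤ ((η / 2) ^ (1 / α)) ^ α :=
            Real.rpow_le_rpow (by positivity) h3 hα0.le
        _ = η / 2 := by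
          rw [← Real.rpow_mul (by positivity), one_div_mul_cancel hα0.ne', Real.rpow_one]
    rw [ff, norm_gg]
    have h4 : ‖ZZ α k₁ (1 - ⟪l, z⟫_ℂ)‖ / ‖1 + ZZ α k₁ (1 - ⟪l, z⟫_ℂ)‖ ≤
        ‖ZZ α k₁ (1 - ⟪l, z⟫_ℂ)‖ := div_le_self (norm_nonneg _) hf.1
    linarith

end Pool.Agent.MPca0fc2.SL
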