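import Mathlib
import Pool.Agent.Lib.MP_ca0fc2_an.SLOsc

set_option autoImplicit false

open Metric Set Filter Topology
open scoped InnerProductSpace

namespace Pool.Agent.MPca0fc2.SL

open Pool.Agent.MPca0fc2.SD

/-- the small constant in the exponents -/
noncomputable def a₀ : ℝ := 1 / 40000

theorem ds_le_rho {W : Type*} [NormedAddCommGroup W] [NormedSpace ℝ W] {a ρ ε : ℝ} {e : ℕ → ℝ}
    {v : ℕ → W} {b0 : W} {J : ℕ} (ha : 0 ≤ a) (ha1 : a ≤ 1 / 1000) (hρ : 0 < ρ) (he : SE e ε)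
    (hε : ε ≤ 1) (heρ : ∀ j, e j ≤ ρ / 100) (hv : ∀ j ≤ J, ‖v (j + 1) - v j‖ ≤ e j)
    (hs : ds a ρ e v b0 0 ≤ ρ) : ∀ j ≤ J, ds a ρ e v b0 j ≤ ρ := by
  intro j
  induction j with
  | zero => intro _; exact hs
  | succ j ih =>
    intro hj
    exact ds_succ_le_rho ha ha1 hρ he hε heρ (ih (by omega)) (hv (j + 1) hj)

theorem bs_continuousOn {X : Type*} [TopologicalSpace X] {W : Type*} [NormedAddCommGroup W]
    [NormedSpace ℝ W] {a ρ : ℝ} {e : ℕ → ℝ} {v : X → ℕ → W} {b0 : X → W} {S : Set X} {J : ℕ}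
    (hv : ∀ j ≤ J, ContinuousOn (fun x => v x j) S) (hb : ContinuousOn b0 S) :
    ∀ j ≤ J, ContinuousOn (fun x => bs a ρ e (v x) (b0 x) j) S := by
  intro j
  induction j with
  | zero => intro _; simpa only [bs] using hb
  | succ j ih =>
    intro hj
    have h1 := ih (by omega)
    have h2 := hv (j + 1) hj
    have h3 : ContinuousOn (fun x => v x (j + 1) - bs a ρ e (v x) (b0 x) j) S := h2.sub h1
    simp only [bs]
    apply h1.add
    apply ContinuousOn.smul _ h3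
    have h4 : Continuous (fun s : ℝ => kp a ρ (e j) s) := by unfold kp; fun_prop
    exact h4.comp_continuousOn h3.norm

variable {E : Type*} [NormedAddCommGroup E] [InnerProductSpace ℂ E]
variable {W : Type*} [NormedAddCommGroup W] [InnerProductSpace ℂ W]

/-- the base field -/
noncomputable def bf (ρ : ℝ) (e : ℕ → ℝ) (u : E → W) (kb L i : ℕ) (w : E) : W :=
  bs a₀ ρ (fun j => e (kb + L + j)) (fun j => u ((rr (kb + L + j) : ℂ) • w))
    (u ((rr kb : ℂ) • w)) i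

/-- the distance of the base field -/
noncomputable def sf (ρ : ℝ) (e : ℕ → ℝ) (u : E → W) (kb L i : ℕ) (w : E) : ℝ :=
  ds a₀ ρ (fun j => e (kb + L + j)) (fun j => u ((rr (kb + L + j) : ℂ) • w))
    (u ((rr kb : ℂ) • w)) i

/-- the rate of the base field -/
noncomputable def kf (ρ : ℝ) (e : ℕ → ℝ) (u : E → W) (kb L i : ℕ) (w : E) : ℝ :=
  kp a₀ ρ (e (kb + L + i)) (sf ρ e u kb L i w)

theorem bf_succ (ρ : ℝ) (e : ℕ → ℝ) (u : E → W) (kb L i : ℕ) (w : E) :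
    bf ρ e u kb L (i + 1) w = bf ρ e u kb L i w + kf ρ e u kb L i w •
      (u ((rr (kb + L + i + 1) : ℂ) • w) - bf ρ e u kb L i w) := rfl

theorem sf_eq (ρ : ℝ) (e : ℕ → ℝ) (u : E → W) (kb L i : ℕ) (w : E) :
    sf ρ e u kb L i w = ‖u ((rr (kb + L + i + 1) : ℂ) • w) - bf ρ e u kb L i w‖ := rfl

/-- the conditions on the parameters of the base field -/
structure FC (e : ℕ → ℝ) (ε ρ M : ℝ) (ks kb L j₁ : ℕ) : Prop where
  se : SE (fun j => e (ks + j)) ε
  ε1 : ε ≤ 1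
  εM : ε * (M + ρ) ≤ 1
  ρ0 : 0 < ρ
  M0 : 0 ≤ M
  hkb : ks + j₁ ≤ kb
  small : ∀ j, kb ≤ j → e j ≤ ρ / 10000
  i0 : ∑ l ∈ Finset.range (L + 1), e (kb + l) ≤ ρ
  i1 : 700 * (e kb * Real.exp (-(L * Real.log 2) / 4)) ≤
    96 * (e (kb + L) * Real.exp (-(a₀ / e (kb + L)) * ρ))
  i2 : e kb ≤ 2 * e (kb + L)

namespace FC

variable {e : ℕ → ℝ} {ε ρ M : ℝ} {ks kb L j₁ : ℕ}

theorem pos (h : FC e ε ρ M ks kb L j₁) {j : ℕ} (hj : kb ≤ j) : 0 < e j := by
  obtain ⟨i, rfl⟩ : ∃ i, j = ks + i := ⟨j - ks, by have := h.hkb; omega⟩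
  exact h.se.pos i

theorem se' (h : FC e ε ρ M ks kb L j₁) {k : ℕ} (hk : kb ≤ k) : SE (fun j => e (k + j)) ε := by
  obtain ⟨i, rfl⟩ : ∃ i, k = ks + i := ⟨k - ks, by have := h.hkb; omega⟩
  refine ⟨fun j => ?_, fun j => ?_, fun j => ?_⟩
  · have := h.se.pos (i + j); simpa [add_assoc] using this
  · have := h.se.le (i + j); simpa [add_assoc] using this
  · have := h.se.lip (i + j); simpa [add_assoc] using this

theorem mem_ball (k l : ℕ) (hl : l ≤ k + 1) {c : E} (hc : ‖c‖ ≤ RR k) :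
    (rr l : ℂ) • c ∈ ball (0 : E) 1 := by
  have h1 := rr_mul_RR hl
  have h2 := rr_lt_one (l + 2)
  have h3 := rr_nonneg l
  rw [mem_ball_zero_iff, norm_smul, Complex.norm_real, Real.norm_of_nonneg h3]
  nlinarith [norm_nonneg c]

theorem tele {u : E → W} (hu : Osc u e) {k : ℕ} {z : E} (hz : ‖z‖ ≤ RR k) (i n : ℕ)
    (hn : i + n ≤ k + 1) :
    ‖u ((rr (i + n) : ℂ) • z) - u ((rr i : ℂ) • z)‖ ≤ ∑ l ∈ Finset.range n, e (i + l) := by
  induction n with
  | zero => simp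
  | succ n ih =>
    rw [Finset.sum_range_succ]
    have h1 := ih (by omega)
    have h2 := hu.o1 (i + n) z (hz.trans (by
      unfold RR
      have : ((1 : ℝ) / 2) ^ k ≤ (1 / 2) ^ (i + n) :=
        pow_le_pow_of_le_one (by norm_num) (by norm_num) (by omega)
      linarith))
    have e1 : u ((rr (i + (n + 1)) : ℂ) • z) - u ((rr i : ℂ) • z) =
        (u ((rr (i + n) : ℂ) • z) - u ((rr i : ℂ) • z)) +
        (u ((rr (i + n + 1) : ℂ) • z) - u ((rr (i + n) : ℂ) • z)) := by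
      rw [← add_assoc]; abel
    rw [e1]
    exact (norm_add_le _ _).trans (add_le_add h1 h2)

/-- the base field stays near -/
theorem sf_le (h : FC e ε ρ M ks kb L j₁) {u : E → W} (hu : Osc u e) {k i : ℕ}
    (hi : kb + L + i ≤ k) {z : E} (hz : ‖z‖ ≤ RR k) : sf ρ e u kb L i z ≤ ρ := by
  have ha : (0 : ℝ) ≤ a₀ := by norm_num [a₀]
  have ha1 : a₀ ≤ 1 / 1000 := by norm_num [a₀]
  refine ds_le_rho ha ha1 h.ρ0 (h.se' (k := kb + L) (by omega)) h.ε1
    (J := i) ?_ ?_ ?_ i le_rfl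
  · intro j
    have := h.small (kb + L + j) (by omega)
    have := h.ρ0
    linarith
  · intro j hj
    refine hu.o1 (kb + L + j) z (hz.trans ?_)
    unfold RR
    have : ((1 : ℝ) / 2) ^ k ≤ (1 / 2) ^ (kb + L + j) :=
      pow_le_pow_of_le_one (by norm_num) (by norm_num) (by omega)
    linarith
  · have h1 := tele hu hz kb (L + 1) (by omega)
    have h2 : kb + (L + 1) = kb + L + 1 := by ring
    rw [h2] at h1
    exact h1.trans h.i0

theorem norm_bf_le (h : FC e ε ρ M ks kb L j₁) {u : E → W} (hu : Osc u e)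
    (hM : ∀ z ∈ ball (0 : E) 1, ‖u z‖ ≤ M) {k i : ℕ}
    (hi : kb + L + i ≤ k) {z : E} (hz : ‖z‖ ≤ RR k) : ‖bf ρ e u kb L i z‖ ≤ M + ρ := by
  have h1 := h.sf_le hu hi hz
  rw [sf_eq] at h1
  have h2 := hM _ (mem_ball k (kb + L + i + 1) (by omega) hz)
  calc ‖bf ρ e u kb L i z‖ = ‖u ((rr (kb + L + i + 1) : ℂ) • z) -
        (u ((rr (kb + L + i + 1) : ℂ) • z) - bf ρ e u kb L i z)‖ := by congr 1; abel
    _ ≤ _ := (norm_sub_le _ _).trans (add_le_add h2 h1)

theorem kf_pos (h : FC e ε ρ M ks kb L j₁) (u : E → W) (i : ℕ) (z : E) :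
    0 < kf ρ e u kb L i z := kp_pos h.ρ0 (h.pos (by omega))

theorem kf_le (h : FC e ε ρ M ks kb L j₁) {u : E → W} (hu : Osc u e) {k i : ℕ}
    (hi : kb + L + i ≤ k) {z : E} (hz : ‖z‖ ≤ RR k) :
    kf ρ e u kb L i z ≤ 3 * e (kb + L + i) / ρ :=
  kp_le (by norm_num [a₀]) h.ρ0 (h.pos (by omega)) (h.sf_le hu hi hz)

/-- comparison of the base field at two points -/
theorem pair (h : FC e ε ρ M ks kb L j₁) {u : E → W} (hu : Osc u e)
    (hM : ∀ z ∈ ball (0 : E) 1, ‖u z‖ ≤ M)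
    (hlog : ∀ k j, ks + j₁ ≤ j → j ≤ k + 1 → ∀ a b : E, ‖a‖ ≤ 1 → ‖b‖ ≤ 1 →
      0 ≤ Real.log (‖1 - ⟪a, b⟫_ℂ‖ + (1 / 2) ^ k) + j * Real.log 2 →
      ‖u (((rr j * RR k : ℝ) : ℂ) • a) - u (((rr j * RR k : ℝ) : ℂ) • b)‖ ≤
      900 * (e j * (1 + (Real.log (‖1 - ⟪a, b⟫_ℂ‖ + (1 / 2) ^ k) + j * Real.log 2))))
    {k i : ℕ} (hi : kb + L + i ≤ k) {x y : E} (hx1 : ‖x‖ ≤ 1) (hy1 : ‖y‖ ≤ 1) :
    ‖bf ρ e u kb L i ((RR k : ℂ) • x) - bf ρ e u kb L i ((RR k : ℂ) • y)‖ ≤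
      32 * ρ * (kf ρ e u kb L i ((RR k : ℂ) • y) *
        hx (‖1 - ⟪x, y⟫_ℂ‖ + (1 / 2) ^ k) (kb + L + i)) := by
  set q := ‖1 - ⟪x, y⟫_ℂ‖ + (1 / 2) ^ k with hq
  have hsym : ‖1 - ⟪y, x⟫_ℂ‖ = ‖1 - ⟪x, y⟫_ℂ‖ := by
    rw [← RCLike.norm_conj (1 - ⟪y, x⟫_ℂ), map_sub, map_one, inner_conj_symm]
  have hRx : ‖(RR k : ℂ) • x‖ ≤ RR k := by
    rw [norm_smul, Complex.norm_real, Real.norm_of_nonneg (RR_pos k).le]
    nlinarith [RR_pos k, norm_nonneg x]
  have hRy : ‖(RR k : ℂ) • y‖ ≤ RR k := by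
    rw [norm_smul, Complex.norm_real, Real.norm_of_nonneg (RR_pos k).le]
    nlinarith [RR_pos k, norm_nonneg y]
  have ha : (0 : ℝ) ≤ a₀ := by norm_num [a₀]
  have ha1 : a₀ ≤ 1 / 1000 := by norm_num [a₀]
  have hρ := h.ρ0
  have hM0 := h.M0
  have hεM := h.εM
  have hε0 := h.se.eps_nonneg
  have he0 : 0 < e (kb + L) := h.pos (by omega)
  have hekb : 0 < e kb := h.pos le_rfl
  have hsm : ∀ (l : ℕ) (c : E), (rr l : ℂ) • (RR k : ℂ) • c = ((rr l * RR k : ℝ) : ℂ) • c := by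
    intro l c
    rw [smul_smul, ← Complex.ofReal_mul]
  have hstep : ∀ z : E, ‖z‖ ≤ RR k → ∀ j ≤ i,
      ‖u ((rr (kb + L + (j + 1)) : ℂ) • z) - u ((rr (kb + L + j) : ℂ) • z)‖ ≤ e (kb + L + j) := by
    intro z hz j hj
    refine hu.o1 (kb + L + j) z (hz.trans ?_)
    unfold RR
    have : ((1 : ℝ) / 2) ^ k ≤ (1 / 2) ^ (kb + L + j) :=
      pow_le_pow_of_le_one (by norm_num) (by norm_num) (by omega)
    linarith
  have hlam : ∀ j : ℕ, Real.log q + ((kb + L : ℕ) : ℝ) * Real.log 2 + (j : ℝ) * Real.log 2 =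
      Real.log q + ((kb + L + j : ℕ) : ℝ) * Real.log 2 := by
    intro j; push_cast; ring
  have hV : ∀ j ≤ i, ‖u ((rr (kb + L + j) : ℂ) • (RR k : ℂ) • y) -
      u ((rr (kb + L + j) : ℂ) • (RR k : ℂ) • x)‖ ≤
      900 * (e (kb + L + j) * Real.exp ((Real.log q + ((kb + L : ℕ) : ℝ) * Real.log 2 +
        (j : ℝ) * Real.log 2) / 4)) := by
    intro j hj
    have h1 := hu.o2 k (kb + L + j) (by omega) x y hx1 hy1
    rw [hsm, hsm, norm_sub_rev]
    refine h1.trans ?_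
    rw [hlam, hx, ← hq]
    have := h.pos (j := kb + L + j) (by omega)
    gcongr
    norm_num
  have hV2 : ∀ j ≤ i, 0 ≤ Real.log q + ((kb + L : ℕ) : ℝ) * Real.log 2 +
      (j : ℝ) * Real.log 2 → ‖u ((rr (kb + L + j) : ℂ) • (RR k : ℂ) • y) -
      u ((rr (kb + L + j) : ℂ) • (RR k : ℂ) • x)‖ ≤
      900 * (e (kb + L + j) * (1 + (Real.log q + ((kb + L : ℕ) : ℝ) * Real.log 2 +
        (j : ℝ) * Real.log 2))) := by
    intro j hj hl
    rw [hlam] at hl ⊢
    have h1 := hlog k (kb + L + j) (by have := h.hkb; omega) (by omega) x y hx1 hy1 hl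
    rw [hsm, hsm, norm_sub_rev]
    exact h1
  have hD0 : ‖u ((rr kb : ℂ) • (RR k : ℂ) • y) - u ((rr kb : ℂ) • (RR k : ℂ) • x)‖ ≤
      700 * (e kb * hx q kb) := by
    rw [hsm, hsm, norm_sub_rev]
    exact hu.o2 k kb (by omega) x y hx1 hy1
  have hsy : ds a₀ ρ (fun j => e (kb + L + j)) (fun j => u ((rr (kb + L + j) : ℂ) •
      (RR k : ℂ) • y)) (u ((rr kb : ℂ) • (RR k : ℂ) • y)) 0 ≤ ρ :=
    h.sf_le hu (k := k) (i := 0) (by omega) hRy
  have hsx : ds a₀ ρ (fun j => e (kb + L + j)) (fun j => u ((rr (kb + L + j) : ℂ) •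
      (RR k : ℂ) • x)) (u ((rr kb : ℂ) • (RR k : ℂ) • x)) 0 ≤ ρ :=
    h.sf_le hu (k := k) (i := 0) (by omega) hRx
  have hmain := pair_est (a := a₀) (ρ := ρ) (ε := ε) (Cu := 900) (C4 := 2000)
    (Dm := 2 * (M + ρ)) (lam := Real.log q + ((kb + L : ℕ) : ℝ) * Real.log 2)
    (e := fun j => e (kb + L + j)) (v := fun j => u ((rr (kb + L + j) : ℂ) • (RR k : ℂ) • y))
    (v' := fun j => u ((rr (kb + L + j) : ℂ) • (RR k : ℂ) • x))
    (b0 := u ((rr kb : ℂ) • (RR k : ℂ) • y)) (b0' := u ((rr kb : ℂ) • (RR k : ℂ) • x))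
    (J := i) ha ha1 (by norm_num [a₀]) (by norm_num [a₀]) (by norm_num) (by norm_num) hρ
    (h.se' (k := kb + L) (by omega)) h.ε1 (by nlinarith) (by nlinarith)
    (fun j => by have := h.small (kb + L + j) (by omega); linarith)
    (fun j => by have := h.small (kb + L + j) (by omega); linarith)
    (hstep _ hRy) (hstep _ hRx) hV hV2 ?_ hsy hsx ?_ ?_ i le_rfl
  · obtain ⟨-, -, h3, -⟩ := hmain
    rw [norm_sub_rev]
    refine h3.trans (le_of_eq ?_)
    rw [hlam, hx]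
    rfl
  · intro j hj
    have h1 := h.norm_bf_le hu hM (k := k) (i := j) (by omega) hRy
    have h2 := h.norm_bf_le hu hM (k := k) (i := j) (by omega) hRx
    have h3 := norm_sub_le (bf ρ e u kb L j ((RR k : ℂ) • y)) (bf ρ e u kb L j ((RR k : ℂ) • x))
    exact h3.trans (by linarith)
  · refine hD0.trans ?_
    have h1 : hx q kb = Real.exp (-(L * Real.log 2) / 4) *
        Real.exp ((Real.log q + ((kb + L : ℕ) : ℝ) * Real.log 2) / 4) := by
      rw [hx, ← Real.exp_add]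
      congr 1
      push_cast
      ring
    rw [h1]
    have h2 : 96 * (e (kb + L) * Real.exp (-(a₀ / e (kb + L)) * ρ)) ≤ 32 * ρ *
        kp a₀ ρ (e (kb + L)) (sf ρ e u kb L 0 ((RR k : ℂ) • y)) := by
      unfold kp
      have h3 : Real.exp (-(a₀ / e (kb + L)) * ρ) ≤
          Real.exp (-(a₀ / e (kb + L)) * (ρ - sf ρ e u kb L 0 ((RR k : ℂ) • y))) := by
        apply Real.exp_le_exp.mpr
        have h4 : 0 ≤ a₀ / e (kb + L) := by positivity
        have h5 : 0 ≤ sf ρ e u kb L 0 ((RR k : ℂ) • y) := ds_nonneg _ _ _ _ _ _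
        nlinarith
      calc 96 * (e (kb + L) * Real.exp (-(a₀ / e (kb + L)) * ρ))
          = 32 * ρ * (3 * e (kb + L) / ρ * Real.exp (-(a₀ / e (kb + L)) * ρ)) := by
            field_simp; ring
        _ ≤ _ := by gcongr
    have h4 := (Real.exp_pos ((Real.log q + ((kb + L : ℕ) : ℝ) * Real.log 2) / 4)).le
    calc 700 * (e kb * (Real.exp (-(L * Real.log 2) / 4) *
          Real.exp ((Real.log q + ((kb + L : ℕ) : ℝ) * Real.log 2) / 4)))
        = 700 * (e kb * Real.exp (-(L * Real.log 2) / 4)) *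
          Real.exp ((Real.log q + ((kb + L : ℕ) : ℝ) * Real.log 2) / 4) := by ring
      _ ≤ 96 * (e (kb + L) * Real.exp (-(a₀ / e (kb + L)) * ρ)) *
          Real.exp ((Real.log q + ((kb + L : ℕ) : ℝ) * Real.log 2) / 4) :=
          mul_le_mul_of_nonneg_right h.i1 h4
      _ ≤ (32 * ρ * kp a₀ ρ (e (kb + L)) (sf ρ e u kb L 0 ((RR k : ℂ) • y))) *
          Real.exp ((Real.log q + ((kb + L : ℕ) : ℝ) * Real.log 2) / 4) :=
          mul_le_mul_of_nonneg_right h2 h4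
      _ = _ := by
          simp only [add_zero, sf]
          ring
  · intro hl
    simp only [add_zero]
    have hL2 : 0 ≤ (L : ℝ) * Real.log 2 := by
      have := Real.log_nonneg (show (1 : ℝ) ≤ 2 by norm_num)
      positivity
    have hi2 := h.i2
    have hl' : Real.log q + ((kb + L : ℕ) : ℝ) * Real.log 2 =
      (Real.log q + (kb : ℝ) * Real.log 2) + L * Real.log 2 := by push_cast; ring
    rcases le_or_gt 0 (Real.log q + (kb : ℝ) * Real.log 2) with hc | hc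
    · have h1 := hlog k kb h.hkb (by omega) x y hx1 hy1 hc
      rw [hsm, hsm, norm_sub_rev]
      refine h1.trans ?_
      rw [← hq, hl']
      generalize hT : Real.log q + (kb : ℝ) * Real.log 2 = T at hc ⊢
      generalize hT2 : (L : ℝ) * Real.log 2 = T2 at hL2 ⊢
      calc 900 * (e kb * (1 + T))
          ≤ 900 * ((2 * e (kb + L)) * (1 + (T + T2))) := by
            gcongr
            linarith
        _ = 1800 * (e (kb + L) * (1 + (T + T2))) := by ring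
        _ ≤ _ := by
            gcongr
            norm_num
    · refine hD0.trans ?_
      have h1 : hx q kb ≤ 1 := by
        rw [hx, Real.exp_le_one_iff]; linarith
      calc 700 * (e kb * hx q kb) ≤ 700 * ((2 * e (kb + L)) * 1) := by
            have := (hx_pos q kb).le
            gcongr
        _ = 1400 * (e (kb + L) * 1) := by ring
        _ ≤ _ := by
            gcongr
            · norm_num
            · linarith

/-- continuity of the base field -/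
theorem bf_cont {u : E → W} (hu : DifferentiableOn ℂ u (ball 0 1)) {k i : ℕ}
    (hi : kb + L + i ≤ k) : ContinuousOn (bf ρ e u kb L i) (closedBall 0 (RR k)) := by
  have h1 : ∀ l, l ≤ k + 1 → ContinuousOn (fun w : E => u ((rr l : ℂ) • w))
      (closedBall 0 (RR k)) := by
    intro l hl
    apply hu.continuousOn.comp (by fun_prop)
    intro w hw
    exact mem_ball k l hl (mem_closedBall_zero_iff.mp hw)
  unfold bf
  exact bs_continuousOn (J := i) (fun j hj => h1 (kb + L + j) (by omega)) (h1 kb (by omega))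
    i le_rfl

end FC

end Pool.Agent.MPca0fc2.SL
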