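import Mathlib
import Pool.Agent.Lib.MP_ca0fc2_an.SLField

set_option autoImplicit false

open Metric Set Filter Topology
open scoped InnerProductSpace

namespace Pool.Agent.MPca0fc2.SL

open Pool.Agent.MPca0fc2.SD

/-- the choice of the length of the first period -/
theorem exists_L {e : ℕ → ℝ} {ε ρ : ℝ} {kb : ℕ} (he : SE (fun j => e (kb + j)) ε)
    (hε1 : ε ≤ 1) (hρ : 0 < ρ) (hερ : ε * ρ ≤ 1) (hsm : e kb ≤ ρ / 10000) :
    ∃ L : ℕ, (∑ l ∈ Finset.range (L + 1), e (kb + l) ≤ ρ) ∧
      700 * (e kb * Real.exp (-(L * Real.log 2) / 4)) ≤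
        96 * (e (kb + L) * Real.exp (-(a₀ / e (kb + L)) * ρ)) ∧ e kb ≤ 2 * e (kb + L) := by
  have he0 : 0 < e kb := he.pos 0
  have he1 : e kb ≤ 1 / 100 := he.le 0
  have hε0 := he.eps_nonneg
  have ha : a₀ = 1 / 40000 := rfl
  set L : ℕ := ⌈6 * a₀ * ρ / e kb + 16⌉₊ with hL
  have hx0 : 0 ≤ 6 * a₀ * ρ / e kb + 16 := by rw [ha]; positivity
  have hL1 : 6 * a₀ * ρ / e kb + 16 ≤ L := Nat.le_ceil _
  have hL2 : (L : ℝ) < 6 * a₀ * ρ / e kb + 17 := by
    have := Nat.ceil_lt_add_one hx0
    linarith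
  -- differences of inverses
  have hinv : ∀ l : ℕ, |1 / e (kb + l) - 1 / e kb| ≤ ε * l := by
    intro l
    induction l with
    | zero => simp
    | succ l ih =>
      have h1 := he.lip l
      have e1 : 1 / e (kb + (l + 1)) - 1 / e kb = (1 / e (kb + (l + 1)) - 1 / e (kb + l)) +
          (1 / e (kb + l) - 1 / e kb) := by ring
      rw [e1]
      refine (abs_add_le _ _).trans ?_
      push_cast
      linarith
  have hεL : ε * L ≤ 1 / (2 * e kb) := by
    have h1 : ε * L ≤ ε * (6 * a₀ * ρ / e kb + 17) := by gcongr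
    refine h1.trans ?_
    rw [le_div_iff₀ (by positivity)]
    have h2 : ε * (6 * a₀ * ρ / e kb + 17) * (2 * e kb) = 12 * a₀ * (ε * ρ) + 34 * (ε * e kb) := by
      field_simp
      ring
    rw [h2, ha]
    have h3 : ε * e kb ≤ 1 / 100 := by
      have h4 := mul_le_mul hε1 he1 he0.le (by norm_num : (0 : ℝ) ≤ 1)
      linarith only [h4]
    linarith only [h3, hερ]
  have hup : ∀ l ≤ L, e (kb + l) ≤ 2 * e kb := by
    intro l hl
    have h1 := (abs_le.mp (hinv l)).1
    have h2 : ε * l ≤ ε * L := by gcongr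
    have h3 : 1 / (2 * e kb) ≤ 1 / e (kb + l) := by
      have : 1 / e kb - 1 / (2 * e kb) = 1 / (2 * e kb) := by field_simp; norm_num
      linarith
    have h4 : 0 < e (kb + l) := he.pos l
    rw [div_le_div_iff₀ (by positivity) h4] at h3
    linarith
  have hdn : e kb ≤ 2 * e (kb + L) := by
    have h1 := (abs_le.mp (hinv L)).2
    have h4 : 0 < e (kb + L) := he.pos L
    have h3 : 1 / e (kb + L) ≤ 2 / e kb := by
      have : 1 / e kb + 1 / (2 * e kb) ≤ 2 / e kb := by
        have : 2 / e kb - (1 / e kb + 1 / (2 * e kb)) = 1 / (2 * e kb) := by field_simp; norm_num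
        have h5 : 0 < 1 / (2 * e kb) := by positivity
        linarith
      linarith
    rw [div_le_div_iff₀ h4 he0] at h3
    linarith
  refine ⟨L, ?_, ?_, hdn⟩
  · have h1 : ∑ l ∈ Finset.range (L + 1), e (kb + l) ≤ ∑ l ∈ Finset.range (L + 1), 2 * e kb :=
      Finset.sum_le_sum fun l hl => hup l (by have := Finset.mem_range.mp hl; omega)
    refine h1.trans ?_
    rw [Finset.sum_const, Finset.card_range, nsmul_eq_mul]
    push_cast
    calc ((L : ℝ) + 1) * (2 * e kb) ≤ (6 * a₀ * ρ / e kb + 17 + 1) * (2 * e kb) := by gcongr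
      _ = 12 * a₀ * ρ + 36 * e kb := by field_simp; ring
      _ ≤ ρ := by rw [ha]; linarith
  · have h4 : 0 < e (kb + L) := he.pos L
    have hlog2 : 0.6931 ≤ Real.log 2 := by have := Real.log_two_gt_d9; linarith
    have h1 := (abs_le.mp (hinv L)).2
    have h5 : Real.log (1400 / 96) ≤ 2.7 := by
      rw [Real.log_le_iff_le_exp (by norm_num)]
      have h6 : Real.exp 2.7 = Real.exp 1 ^ 2 * Real.exp 0.7 := by
        rw [← Real.exp_nat_mul, ← Real.exp_add]; norm_num
      have h7 := Real.exp_one_gt_d9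
      have h8 : (2.0074 : ℝ) ≤ Real.exp 0.7 := by
        have := Real.quadratic_le_exp_of_nonneg (x := 0.7) (by norm_num)
        have h9 : Real.exp 0.7 = Real.exp 0.35 ^ 2 := by
          rw [← Real.exp_nat_mul]; norm_num
        have h10 := Real.quadratic_le_exp_of_nonneg (x := 0.35) (by norm_num)
        have h11 : Real.exp 0.35 = Real.exp 0.175 ^ 2 := by
          rw [← Real.exp_nat_mul]; norm_num
        have h12 := Real.quadratic_le_exp_of_nonneg (x := 0.175) (by norm_num)
        have h13 : (1.19031 : ℝ) ≤ Real.exp 0.175 := by norm_num at h12 ⊢; linarith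
        have h14 : (1.41683 : ℝ) ≤ Real.exp 0.35 := by
          rw [h11]; nlinarith only [h13]
        rw [h9]; nlinarith only [h14]
      rw [h6]
      have h9 : (7.389 : ℝ) ≤ Real.exp 1 ^ 2 := by nlinarith only [h7]
      nlinarith only [h8, h9]
    have h6 : Real.exp (-(L * Real.log 2) / 4) ≤ 96 / 1400 *
        Real.exp (-(a₀ / e (kb + L)) * ρ) := by
      have h7 : (96 : ℝ) / 1400 = Real.exp (-Real.log (1400 / 96)) := by
        rw [Real.exp_neg, Real.exp_log (by norm_num)]; norm_num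
      rw [h7, ← Real.exp_add]
      apply Real.exp_le_exp.mpr
      have h8 : a₀ / e (kb + L) * ρ ≤ a₀ * ρ * (1 / e kb + ε * L) := by
        calc a₀ / e (kb + L) * ρ = a₀ * ρ * (1 / e (kb + L)) := by ring
          _ ≤ _ := by
              have : 0 ≤ a₀ * ρ := by rw [ha]; positivity
              gcongr
              linarith
      have h9 : a₀ * ρ * (1 / e kb + ε * L) = a₀ * ρ / e kb + a₀ * (ε * ρ) * L := by ring
      have h10 : a₀ * (ε * ρ) * L ≤ a₀ * 1 * L := by
        have : (0 : ℝ) ≤ a₀ := by rw [ha]; norm_num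
        gcongr
      have h11 : 0.6931 * (L : ℝ) ≤ L * Real.log 2 := by
        have : (0 : ℝ) ≤ L := Nat.cast_nonneg _
        nlinarith only [this, hlog2]
      have h12 : a₀ * ρ / e kb ≤ ((L : ℝ) - 16) / 6 := by
        have : 6 * a₀ * ρ / e kb = 6 * (a₀ * ρ / e kb) := by ring
        rw [this] at hL1
        linarith
      have hL16 : (16 : ℝ) ≤ L := by
        have : 0 ≤ 6 * a₀ * ρ / e kb := by rw [ha]; positivity
        linarith
      have h13 : -(a₀ / e (kb + L)) * ρ = -(a₀ / e (kb + L) * ρ) := by ring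
      have h14 : a₀ * 1 * L = L / 40000 := by rw [ha]; ring
      rw [h14] at h10
      rw [h9] at h8
      rw [h13]
      linarith
    calc 700 * (e kb * Real.exp (-(L * Real.log 2) / 4))
        ≤ 700 * ((2 * e (kb + L)) * (96 / 1400 * Real.exp (-(a₀ / e (kb + L)) * ρ))) := by
          gcongr
      _ = _ := by ring

/-- the tail of the kernel is negligible -/
theorem tail_ok {e : ℕ → ℝ} {ε ρ : ℝ} {kb K : ℕ} (he : SE (fun j => e (kb + j)) ε)
    (hρ : 0 < ρ) (hερ : ε * ρ ≤ 1)
    (hsm : ∀ j, kb ≤ j → e j ≤ ρ ^ 2 * Real.exp (-(K : ℝ)) / 10 ^ 9) (hsm' : ∀ j, kb ≤ j → e j ≤ ρ / 10000) :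
    ∀ j, kb ≤ j → 1 / √(Real.exp (ρ / (1200 * e (j + K))) - 1) ≤
      3 * e j * Real.exp (-(a₀ / e j) * ρ) * Real.exp (-(K * Real.log 2) / 4) := by
  intro j hj
  have ha : a₀ = 1 / 40000 := rfl
  have hpos : ∀ i, kb ≤ i → 0 < e i := by
    intro i hi
    have := he.pos (i - kb)
    rwa [Nat.add_sub_cancel' hi] at this
  have hej := hpos j hj
  have hek := hpos (j + K) (by omega)
  have hinv : ∀ l : ℕ, |1 / e (j + l) - 1 / e j| ≤ ε * l := by
    intro l
    induction l with
    | zero => simp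
    | succ l ih =>
      have h1 := he.lip (j - kb + l)
      have e2 : kb + (j - kb + l + 1) = j + (l + 1) := by omega
      have e3 : kb + (j - kb + l) = j + l := by omega
      rw [e2, e3] at h1
      have e1 : 1 / e (j + (l + 1)) - 1 / e j = (1 / e (j + (l + 1)) - 1 / e (j + l)) +
          (1 / e (j + l) - 1 / e j) := by ring
      rw [e1]
      refine (abs_add_le _ _).trans ?_
      push_cast
      linarith
  have h1 := (abs_le.mp (hinv K)).1
  set y := ρ / (1200 * e (j + K)) with hy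
  have hy1 : 8 ≤ y := by
    have := hsm' (j + K) (by omega)
    rw [hy, le_div_iff₀ (by positivity)]
    linarith
  have hy2 : ρ / (1200 * e j) - K / 1200 ≤ y := by
    have h2 : y = ρ / 1200 * (1 / e (j + K)) := by rw [hy]; field_simp
    have h3 : ρ / (1200 * e j) = ρ / 1200 * (1 / e j) := by field_simp
    rw [h2, h3]
    have h4 : ρ / 1200 * (1 / e j - ε * K) ≤ ρ / 1200 * (1 / e (j + K)) := by
      gcongr
      linarith
    have h5 : ρ / 1200 * (ε * K) ≤ K / 1200 := by
      have hK0 : (0 : ℝ) ≤ K := Nat.cast_nonneg _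
      nlinarith only [hK0, hερ, mul_nonneg hK0 (sub_nonneg.mpr hερ)]
    linarith only [h1, h4, h5, mul_sub (ρ / 1200) (1 / e j) (ε * K)]
  -- the square root
  have h2 : Real.exp (y / 2) / 2 ≤ √(Real.exp y - 1) := by
    apply Real.le_sqrt_of_sq_le
    have h3 : (Real.exp (y / 2) / 2) ^ 2 = Real.exp y / 4 := by
      rw [div_pow, ← Real.exp_nat_mul]
      push_cast
      rw [mul_div_cancel₀ _ (by norm_num : (2 : ℝ) ≠ 0)]
      norm_num
    rw [h3]
    have := Real.add_one_le_exp y
    linarith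
  have h3 : 1 / √(Real.exp y - 1) ≤ 2 * Real.exp (-(y / 2)) := by
    have h4 : 0 < Real.exp (y / 2) / 2 := by positivity
    calc 1 / √(Real.exp y - 1) ≤ 1 / (Real.exp (y / 2) / 2) := one_div_le_one_div_of_le h4 h2
      _ = _ := by rw [Real.exp_neg]; field_simp
  refine h3.trans ?_
  have hK0 : (0 : ℝ) ≤ K := Nat.cast_nonneg _
  have hlog2 : Real.log 2 ≤ 0.6932 := by have := Real.log_two_lt_d9; linarith
  -- compare the exponents
  set x := ρ / e j with hx
  have hx0 : 0 < x := by positivity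
  have h4 : -(y / 2) ≤ -(x / 2400) + K / 2400 := by
    have : ρ / (1200 * e j) = x / 1200 := by rw [hx]; field_simp
    rw [this] at hy2
    linarith
  have h5 : a₀ / e j * ρ = x / 40000 := by rw [hx, ha]; field_simp
  have h6 : (x / 10000) ^ 2 ≤ Real.exp (x / 5000) := by
    have h7 : Real.exp (x / 5000) = Real.exp (x / 10000) ^ 2 := by
      rw [← Real.exp_nat_mul]; congr 1; push_cast; ring
    rw [h7]
    apply pow_le_pow_left₀ (by positivity)
    have := Real.add_one_le_exp (x / 10000)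
    linarith
  have h7 : 2 * Real.exp (-(y / 2)) ≤ 2 * (Real.exp (-(x / 40000)) * Real.exp (-(x / 5000)) *
      Real.exp (K / 2400)) := by
    rw [← Real.exp_add, ← Real.exp_add]
    gcongr
    linarith
  refine h7.trans ?_
  have h8 : -(a₀ / e j) * ρ = -(x / 40000) := by rw [neg_mul, h5]
  rw [h8]
  have h9 : 2 * (Real.exp (-(x / 5000)) * Real.exp (K / 2400)) ≤
      3 * e j * Real.exp (-(K * Real.log 2) / 4) := by
    have hs := hsm j hj
    have h10 : Real.exp (-(x / 5000)) ≤ 10 ^ 8 / x ^ 2 := by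
      rw [Real.exp_neg, inv_le_comm₀ (Real.exp_pos _) (by positivity)]
      refine le_trans (le_of_eq ?_) h6
      field_simp
      norm_num
    have h11 : (10 : ℝ) ^ 8 / x ^ 2 ≤ e j * Real.exp (-(K : ℝ)) / 10 := by
      rw [hx]
      have e1 : (10 : ℝ) ^ 8 / (ρ / e j) ^ 2 = e j * (e j * 10 ^ 8 / ρ ^ 2) := by field_simp
      have e2 : e j * 10 ^ 8 / ρ ^ 2 ≤ Real.exp (-(K : ℝ)) / 10 := by
        rw [div_le_iff₀ (by positivity)]
        linarith
      rw [e1]
      calc e j * (e j * 10 ^ 8 / ρ ^ 2) ≤ e j * (Real.exp (-(K : ℝ)) / 10) := by gcongr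
        _ = _ := by ring
    have h12 : Real.exp (-(K : ℝ)) * Real.exp (K / 2400) ≤ Real.exp (-(K * Real.log 2) / 4) := by
      rw [← Real.exp_add]
      apply Real.exp_le_exp.mpr
      have hK0 : (0 : ℝ) ≤ K := Nat.cast_nonneg _
      have hl2 : Real.log 2 ≤ 1 := by have := Real.log_two_lt_d9; linarith only [this]
      nlinarith only [hK0, hl2, mul_nonneg hK0 (sub_nonneg.mpr hl2)]
    calc 2 * (Real.exp (-(x / 5000)) * Real.exp (K / 2400))
        ≤ 2 * ((e j * Real.exp (-(K : ℝ)) / 10) * Real.exp (K / 2400)) := by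
          gcongr
          exact h10.trans h11
      _ = e j / 5 * (Real.exp (-(K : ℝ)) * Real.exp (K / 2400)) := by ring
      _ ≤ e j / 5 * Real.exp (-(K * Real.log 2) / 4) := by gcongr
      _ ≤ _ := by
          have := Real.exp_pos (-(K * Real.log 2) / 4)
          linarith only [mul_pos hej this]
  have h10 := Real.exp_pos (-(x / 40000))
  calc 2 * (Real.exp (-(x / 40000)) * Real.exp (-(x / 5000)) * Real.exp (K / 2400))
      = Real.exp (-(x / 40000)) * (2 * (Real.exp (-(x / 5000)) * Real.exp (K / 2400))) := by ring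
    _ ≤ Real.exp (-(x / 40000)) * (3 * e j * Real.exp (-(K * Real.log 2) / 4)) := by gcongr
    _ = _ := by ring

end Pool.Agent.MPca0fc2.SL
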