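import Mathlib
import Pool.Agent.Lib.MP_ca0fc2_an.Mg.G073
import Pool.Agent.Lib.MP_ca0fc2_an.SLPar

set_option autoImplicit false

open Metric Set Filter Topology
open scoped InnerProductSpace

namespace Pool.Agent.MPca0fc2.SL

open Pool.Agent.MPca0fc2.SD

/-- small tails -/
theorem exists_tail' {F : ℕ → ℝ} (hF : Summable F) (h0 : ∀ k, 0 ≤ F k) {τ : ℝ} (hτ : 0 < τ) :
    ∀ᶠ k₀ in atTop, ∀ n, ∑ i ∈ Finset.range n, F (k₀ + i) ≤ τ := by
  have h1 := tendsto_sum_nat_add F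
  filter_upwards [h1.eventually_lt_const hτ] with k₀ hk₀ n
  have h2 : Summable fun i => F (i + k₀) := (summable_nat_add_iff (f := F) k₀).mpr hF
  have h3 := h2.sum_le_tsum (Finset.range n) (fun i _ => h0 _)
  have h4 : ∑ i ∈ Finset.range n, F (k₀ + i) = ∑ i ∈ Finset.range n, F (i + k₀) := by
    simp only [add_comm]
  rw [h4]
  linarith

theorem e_small {e : ℕ → ℝ} {ks : ℕ} {c : ℝ} (hc : 0 < c) (hpos : ∀ k, ks ≤ k → 0 < e k)
    (hsum : Summable fun k => Real.exp (-(c / e k))) {δ : ℝ} (hδ : 0 < δ) :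
    ∀ᶠ k in atTop, e k ≤ δ := by
  have h1 := hsum.tendsto_atTop_zero
  have h2 := h1.eventually_lt_const (Real.exp_pos (-(c / δ)))
  filter_upwards [h2, eventually_ge_atTop ks] with k hk hks
  have hek := hpos k hks
  rw [Real.exp_lt_exp, neg_lt_neg_iff, div_lt_div_iff₀ hδ hek] at hk
  nlinarith

/-- the main theorem of the flow -/
theorem core (J I E W : Type*) [Fintype J] [Fintype I] [NormedAddCommGroup E]
    [InnerProductSpace ℂ E] [FiniteDimensional ℂ E] [Nontrivial E] [NormedAddCommGroup W]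
    [InnerProductSpace ℂ W] {P : (E → ℂ) → E → ℂ} {CK : ℝ} (hker : Ker P CK)
    (M ρ B Lc ε : ℝ) (hρ : 0 < ρ) (hM : 0 ≤ M) (hB : 0 ≤ B) (hL : 0 ≤ Lc) (hε : 0 < ε)
    (hε1 : ε ≤ 1) (hεM : ε * (M + ρ) ≤ 1) {e : ℕ → ℝ} {ks : ℕ}
    (he : SE (fun j => e (ks + j)) ε)
    (hsum : Summable fun k => Real.exp (-(a₀ * ρ / 2 / e k))) :
    ∃ (k₁ : ℕ) (Pm : ℝ), ks ≤ k₁ ∧ ∀ (f : J → E → ℂ) (u : E → W) (χ : I → W → ℝ) (c : I → W)
      (s : I → J → E → ℂ), Lev f u ρ M B Lc (M + ρ) χ c s → Osc u e →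
      (∃ H₀ : J → E → ℂ, (∀ j, DifferentiableOn ℂ (H₀ j) (ball 0 (RR k₁))) ∧
        (∀ z ∈ ball (0 : E) (RR k₁), ‖(fun j => H₀ j z)‖ ≤ 2) ∧
        ∀ z ∈ ball (0 : E) (RR k₁), dot (fv f k₁ z) (fun j => H₀ j z) = 1) →
      ∃ g : J → E → ℂ, (∀ j, DifferentiableOn ℂ (g j) (ball 0 1)) ∧
        (∀ j, ∀ z ∈ ball (0 : E) 1, ‖g j z‖ ≤ Pm) ∧
        ∀ z ∈ ball (0 : E) 1, ∑ j, f j z * g j z = 1 := by
  have hCK := hker.pos
  have ha0 : (0 : ℝ) < a₀ := by norm_num [a₀]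
  have hpos : ∀ k, ks ≤ k → 0 < e k := by
    intro k hk
    have := he.pos (k - ks)
    rwa [Nat.add_sub_cancel' hk] at this
  -- the constants
  obtain ⟨N, hN⟩ : ∃ N : ℝ, N = (Fintype.card J : ℝ) := ⟨_, rfl⟩
  set Lm : ℝ := Fintype.card I * (Lc * B) with hLm
  set c₂ : ℝ := N * M * Lm with hc₂
  set C₁ : ℝ := 8 * (c₂ + 1) / ρ with hC₁
  set Γ : ℝ := Real.exp (C₁ * ρ ^ 2) with hΓ
  set Smax : ℝ := 3 * (Γ * (1 + Lm + 2 + B)) with hSmax
  set Um : ℝ := Smax * Real.exp (C₁ * M ^ 2) with hUm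
  set Pm : ℝ := Um + (1 + N * M * Um) * B + N * M * Um + 2 with hPm
  have hN0 : 0 ≤ N := by rw [hN]; positivity
  have hLm0 : 0 ≤ Lm := by rw [hLm]; positivity
  have hc₂0 : 0 ≤ c₂ := by rw [hc₂]; positivity
  have hC₁0 : 0 ≤ C₁ := by rw [hC₁]; positivity
  have hΓ0 : 0 < Γ := Real.exp_pos _
  have hSmax0 : 0 ≤ Smax := by rw [hSmax]; positivity
  have hUm0 : 0 ≤ Um := by rw [hUm]; positivity
  have hPm0 : 0 ≤ Pm := by rw [hPm]; positivity
  obtain ⟨CE, hCE0, hCE⟩ := exists_CE J I E W ρ M B Lc (M + ρ) Pm C₁ hC₁0 hPm0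
  set P₂ : ℝ := Real.exp (C₁ * ((M + ρ) * (2 * M))) * (Pm + (1 + Pm) * B) + (1 + N * (M *
        (Real.exp (C₁ * ((M + ρ) * (2 * M))) * (Pm + (1 + Pm) * B)))) * B with hP₂
  have hP₂0 : 0 ≤ P₂ := by rw [hP₂]; positivity
  -- the delay
  obtain ⟨K, hK1, hK2, hK3⟩ : ∃ K : ℕ, 1 ≤ K ∧
      (1 + B) * ((2 + 2 * (N * M * P₂)) * (33 * CK * CE * ρ *
        Real.exp (-(K * Real.log 2) / 4))) ≤ ρ / 2 ∧
      N * M * (33 * CK * CE * ρ * Real.exp (-(K * Real.log 2) / 4)) ≤ 1 := by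
    have h1 : Tendsto (fun K : ℕ => Real.exp (-(K * Real.log 2) / 4)) atTop (𝓝 0) := by
      have h2 : ∀ K : ℕ, Real.exp (-(K * Real.log 2) / 4) = (Real.exp (-(Real.log 2) / 4)) ^ K := by
        intro K
        rw [← Real.exp_nat_mul]; congr 1; ring
      simp only [h2]
      apply tendsto_pow_atTop_nhds_zero_of_lt_one (Real.exp_pos _).le
      rw [Real.exp_lt_one_iff]
      have := Real.log_two_gt_d9
      linarith
    have h2 : Tendsto (fun K : ℕ => (1 + B) * ((2 + 2 * (N * M * P₂)) * (33 * CK * CE * ρ *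
        Real.exp (-(K * Real.log 2) / 4)))) atTop (𝓝 0) := by
      have := (((h1.const_mul (33 * CK * CE * ρ)).const_mul (2 + 2 * (N * M * P₂))).const_mul
        (1 + B))
      simpa using this
    have h3 : Tendsto (fun K : ℕ => N * M * (33 * CK * CE * ρ *
        Real.exp (-(K * Real.log 2) / 4))) atTop (𝓝 0) := by
      have := ((h1.const_mul (33 * CK * CE * ρ)).const_mul (N * M))
      simpa using this
    obtain ⟨K, hK⟩ := ((eventually_ge_atTop 1).and ((h2.eventually_lt_const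
      (show (0 : ℝ) < ρ / 2 by positivity)).and (h3.eventually_lt_const one_pos))).exists
    exact ⟨K, hK.1, hK.2.1.le, hK.2.2.le⟩
  have hKpos : (0 : ℝ) < K := by exact_mod_cast hK1
  obtain ⟨j₁, hj₁⟩ := Osc.log (E := E) (W := W) (M := M) he hε1 hε hM
    (by have h := mul_pos hε hρ; rw [mul_add] at hεM; linarith only [h, hεM])
  -- the smallness conditions
  have hc0 : 0 < a₀ * ρ / 2 := by positivity
  have hsm : ∀ {δ : ℝ}, 0 < δ → ∀ᶠ k in atTop, ∀ j, k ≤ j → e j ≤ δ := by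
    intro δ hδ
    obtain ⟨k₀, hk₀⟩ := eventually_atTop.mp (e_small hc0 hpos hsum hδ)
    filter_upwards [eventually_ge_atTop k₀] with k hk j hj
    exact hk₀ j (hk.trans hj)
  set C₅ : ℝ := C₁ * ρ ^ 2 + c₂ * ρ + ρ with hC₅
  have hC₅0 : 0 < C₅ := by rw [hC₅]; positivity
  have ht := exists_tail' hsum (fun k => (Real.exp_pos _).le) (τ := 1 / C₅) (by positivity)
  obtain ⟨kb, hkb0, hkb1, hkb2, hkb3, hkb4, hkb5⟩ := ((eventually_ge_atTop (ks + j₁)).and
    ((hsm (δ := ρ / 10000) (by positivity)).and ((hsm (δ := ρ / 8 / K) (by positivity)).and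
    ((hsm (δ := 1 / (6 * (c₂ + 1))) (by positivity)).and
    ((hsm (δ := ρ ^ 2 * Real.exp (-(K : ℝ)) / 10 ^ 9) (by positivity)).and ht))))).exists
  have hse : ∀ k, ks ≤ k → SE (fun j => e (k + j)) ε := by
    intro k hk
    obtain ⟨i, rfl⟩ : ∃ i, k = ks + i := ⟨k - ks, by omega⟩
    refine ⟨fun j => ?_, fun j => ?_, fun j => ?_⟩
    · have := he.pos (i + j); simpa [add_assoc] using this
    · have := he.le (i + j); simpa [add_assoc] using this
    · have := he.lip (i + j); simpa [add_assoc] using this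
  have hερ : ε * ρ ≤ 1 := by
    have h := mul_nonneg hε.le hM
    have h' := hεM
    rw [mul_add] at h'
    linarith only [h, h']
  obtain ⟨L, hL0, hL1, hL2⟩ := exists_L (hse kb (by omega)) hε1 hρ hερ (hkb1 kb le_rfl)
  refine ⟨kb + L + K, Pm, by omega, ?_⟩
  intro f u χ c s hlev hosc hinit
  obtain ⟨H₀, hH1, hH2, hH3⟩ := hinit
  have hFH : FH P f u χ c s e ρ M B Lc ε CK CE (33 * CK * CE * ρ *
      Real.exp (-(K * Real.log 2) / 4)) N Lm c₂ C₁ Γ P₂ Um Pm Smax ks kb L K j₁ := by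
    refine ⟨⟨hlev.ubd, ⟨he, hε1, hεM, hρ, hM, hkb0, hkb1, hL0, hL1, hL2⟩, hosc,
      hj₁ u hosc hlev.ubd, hker, hCE0, hK1, ?_, ?_, rfl⟩, hlev, ?_, hN, rfl, rfl, rfl, ?_, rfl,
      rfl, hK2, hK3, le_rfl, ?_, ?_, hPm0⟩
    · intro j hj
      have := hkb2 j hj
      rw [le_div_iff₀ hKpos] at this
      linarith
    · intro i k hk
      have h1 := tail_ok (hse kb (by omega)) hρ hερ (K := K) hkb4 hkb1 (kb + L + i) (by omega)
      have e1 : kb + L + i + K = k := by omega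
      rw [e1] at h1
      exact h1
    · exact hCE f u χ c s hlev
    · intro j hj
      have h1 := hkb3 j hj
      rw [le_div_iff₀ (by positivity)] at h1
      have h2 := (hpos j (by omega)).le
      have h3 : c₂ * (3 * e j) = (e j * (6 * (c₂ + 1)) - 6 * e j) / 2 := by ring
      rw [h3]
      linarith only [h1, h2]
    · rw [hPm]
      have h1 : 0 ≤ (1 + N * M * Um) * B := by positivity
      linarith
    · rw [hPm]
      have h1 : 0 ≤ N * M * Um := by positivity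
      linarith
  refine hFH.solve (Pi := 2) ?_ le_rfl ?_ hH1 hH2 hH3
  · rw [hPm]
    have h1 : 0 ≤ (1 + N * M * Um) * B := by positivity
    have h2 : 0 ≤ N * M * Um := by positivity
    linarith
  · intro n
    have h1 : ∑ i ∈ Finset.range n, FH.kh ρ e (kb + L + i) ≤
        ∑ i ∈ Finset.range n, Real.exp (-(a₀ * ρ / 2 / e (kb + (L + i)))) := by
      apply Finset.sum_le_sum
      intro i _
      unfold FH.kh
      have h2 := hkb1 (kb + L + i) (by omega)
      have h3 := hpos (kb + L + i) (by omega)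
      have h4 : 3 * e (kb + L + i) / ρ ≤ 1 := by
        rw [div_le_one hρ]; linarith
      have h5 : -(a₀ / e (kb + L + i)) * (ρ / 2) = -(a₀ * ρ / 2 / e (kb + (L + i))) := by
        rw [← add_assoc]; ring
      rw [h5]
      exact mul_le_of_le_one_left (Real.exp_pos (-(a₀ * ρ / 2 / e (kb + (L + i))))).le h4
    have h2 : ∑ i ∈ Finset.range n, Real.exp (-(a₀ * ρ / 2 / e (kb + (L + i)))) ≤
        ∑ i ∈ Finset.range (L + n), Real.exp (-(a₀ * ρ / 2 / e (kb + i))) := by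
      rw [Finset.sum_range_add]
      have : 0 ≤ ∑ i ∈ Finset.range L, Real.exp (-(a₀ * ρ / 2 / e (kb + i))) :=
        Finset.sum_nonneg fun i _ => (Real.exp_pos _).le
      linarith
    have h3 := hkb5 (L + n)
    calc C₅ * ∑ i ∈ Finset.range n, FH.kh ρ e (kb + L + i) ≤ C₅ * (1 / C₅) := by
          gcongr
          linarith
      _ = 1 := by field_simp

end Pool.Agent.MPca0fc2.SL
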