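import Mathlib
import Pool.Agent.Lib.MP_ca0fc2_an.Mg.G050
import Pool.Agent.Lib.MP_ca0fc2_an.Glue

set_option autoImplicit false

open Metric Set MeasureTheory Filter Topology

namespace Pool.Agent.MPca0fc2.SL

open Pool.Agent.Lib.MP_ca0fc2_an Pool.Agent.MPca0fc2.SD

/-- conjugate derivative of a real function composed with a real function -/
theorem dbar_comp_real {T : ℂ → ℝ} {ψ : ℝ → ℝ} {ψ' : ℝ} {a : ℂ} (hT : DifferentiableAt ℝ T a)
    (hψ : HasDerivAt ψ ψ' (T a)) :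
    dbar (fun b => (ψ (T b) : ℂ)) a = ψ' * dbar (fun b => (T b : ℂ)) a := by
  have h1 : HasFDerivAt (fun b => ψ (T b)) (ψ' • fderiv ℝ T a) a :=
    hψ.comp_hasFDerivAt a hT.hasFDerivAt
  have h2 : HasFDerivAt (fun b => (ψ (T b) : ℂ)) (Complex.ofRealCLM.comp (ψ' • fderiv ℝ T a)) a :=
    Complex.ofRealCLM.hasFDerivAt.comp a h1
  have h3 : HasFDerivAt (fun b => (T b : ℂ)) (Complex.ofRealCLM.comp (fderiv ℝ T a)) a :=
    Complex.ofRealCLM.hasFDerivAt.comp a hT.hasFDerivAt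
  rw [dbar, dbar, h2.fderiv, h3.fderiv]
  simp
  ring

/-- the function `1 - |φ_x(a)|²` -/
noncomputable def tau (x : ℝ) (a : ℂ) : ℝ :=
  (1 - x ^ 2) * (1 - ‖a‖ ^ 2) / ‖1 - (x : ℂ) * (starRingEnd ℂ) a‖ ^ 2

/-- the cut-off -/
noncomputable def cut (M : ℕ) (τ₁ : ℝ) (x : ℝ) (a : ℂ) : ℝ :=
  (max (tau x a - τ₁) 0 / tau x a) ^ M

theorem tau_cast {x : ℝ} {a : ℂ} :
    (tau x a : ℂ) = (1 - (x : ℂ) ^ 2) * (1 - a * (starRingEnd ℂ) a) /
      ((1 - (x : ℂ) * (starRingEnd ℂ) a) * (1 - (x : ℂ) * a)) := by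
  have h1 : ((1 - ‖a‖ ^ 2 : ℝ) : ℂ) = 1 - a * (starRingEnd ℂ) a := by
    rw [Complex.mul_conj, Complex.normSq_eq_norm_sq]; push_cast; ring
  have h2 : ((‖1 - (x : ℂ) * (starRingEnd ℂ) a‖ ^ 2 : ℝ) : ℂ) =
      (1 - (x : ℂ) * (starRingEnd ℂ) a) * (1 - (x : ℂ) * a) := by
    rw [← Complex.normSq_eq_norm_sq, ← Complex.mul_conj]
    simp
  rw [tau, Complex.ofReal_div, h2, Complex.ofReal_mul, h1]
  push_cast
  rfl

theorem dbar_tau {x : ℝ} (hx0 : 0 ≤ x) (hx : x < 1) {a : ℂ} (ha : ‖a‖ < 1) :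
    dbar (fun b => (tau x b : ℂ)) a = (1 - (x : ℂ) ^ 2) * ((x : ℂ) - a) /
      ((1 - (x : ℂ) * a) * (1 - (x : ℂ) * (starRingEnd ℂ) a) ^ 2) := by
  have hxa : ‖(x : ℂ)‖ * ‖a‖ < 1 := by
    rw [Complex.norm_real, Real.norm_of_nonneg hx0]
    nlinarith [norm_nonneg a]
  have hne := one_sub_mul_conj_ne hxa
  have hxa' : ‖(x : ℂ)‖ * ‖(starRingEnd ℂ) a‖ < 1 := by rwa [RCLike.norm_conj]
  have hne' := one_sub_mul_conj_ne hxa'
  rw [Complex.conj_conj] at hne'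
  set P : ℂ × ℂ → ℂ := fun p => (1 - (x : ℂ) ^ 2) * (1 - p.1 * p.2) /
    ((1 - (x : ℂ) * p.2) * (1 - (x : ℂ) * p.1)) with hP
  have hPd : DifferentiableAt ℂ P (a, (starRingEnd ℂ) a) := by
    have k1 : DifferentiableAt ℂ (fun p : ℂ × ℂ => (1 - (x : ℂ) ^ 2) * (1 - p.1 * p.2))
        (a, (starRingEnd ℂ) a) := by fun_prop
    have k2 : DifferentiableAt ℂ (fun p : ℂ × ℂ => (1 - (x : ℂ) * p.2) * (1 - (x : ℂ) * p.1))
        (a, (starRingEnd ℂ) a) := by fun_prop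
    have k3 := k1.mul (k2.inv (mul_ne_zero hne hne'))
    refine k3.congr_of_eventuallyEq (Eventually.of_forall fun b => ?_)
    simp only [hP, Pi.mul_apply, Pi.inv_apply, div_eq_mul_inv]
  have e1 : (fun b => (tau x b : ℂ)) = fun b => P (b, (starRingEnd ℂ) b) := by
    funext b
    rw [tau_cast]
  rw [e1, dbar_two_var hPd]
  have hpart : fderiv ℂ P (a, (starRingEnd ℂ) a) (0, 1) =
      deriv (fun b => P (a, b)) ((starRingEnd ℂ) a) := by
    have h7 : HasFDerivAt (fun b : ℂ => (a, b)) ((0 : ℂ →L[ℂ] ℂ).prod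
        (ContinuousLinearMap.id ℂ ℂ)) ((starRingEnd ℂ) a) :=
      (hasFDerivAt_const a _).prodMk (hasFDerivAt_id _)
    have h8 := hPd.hasFDerivAt.comp ((starRingEnd ℂ) a) h7
    have h9 := h8.hasDerivAt.deriv
    rw [show (fun b => P (a, b)) = P ∘ fun b : ℂ => (a, b) from rfl, h9]
    simp
  rw [hpart]
  have hder : HasDerivAt (fun b => P (a, b))
      ((((1 - (x : ℂ) ^ 2) * (0 - a * 1)) * ((1 - (x : ℂ) * (starRingEnd ℂ) a) * (1 - (x : ℂ) * a)) -
        ((1 - (x : ℂ) ^ 2) * (1 - a * (starRingEnd ℂ) a)) * ((0 - (x : ℂ) * 1) * (1 - (x : ℂ) * a))) /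
        ((1 - (x : ℂ) * (starRingEnd ℂ) a) * (1 - (x : ℂ) * a)) ^ 2) ((starRingEnd ℂ) a) := by
    have k1 : HasDerivAt (fun b : ℂ => (1 - (x : ℂ) ^ 2) * (1 - a * b))
        ((1 - (x : ℂ) ^ 2) * (0 - a * 1)) ((starRingEnd ℂ) a) :=
      ((hasDerivAt_const _ (1 : ℂ)).sub ((hasDerivAt_id _).const_mul a)).const_mul _
    have k2 : HasDerivAt (fun b : ℂ => (1 - (x : ℂ) * b) * (1 - (x : ℂ) * a))
        ((0 - (x : ℂ) * 1) * (1 - (x : ℂ) * a)) ((starRingEnd ℂ) a) :=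
      ((hasDerivAt_const _ (1 : ℂ)).sub ((hasDerivAt_id _).const_mul (x : ℂ))).mul_const _
    exact k1.div k2 (mul_ne_zero hne hne')
  rw [hder.deriv]
  field_simp
  ring

theorem tau_pos {x : ℝ} (hx0 : 0 ≤ x) (hx : x < 1) {a : ℂ} (ha : ‖a‖ < 1) : 0 < tau x a := by
  have hxa : ‖(x : ℂ)‖ * ‖a‖ < 1 := by
    rw [Complex.norm_real, Real.norm_of_nonneg hx0]
    nlinarith [norm_nonneg a]
  have hne := norm_pos_iff.mpr (one_sub_mul_conj_ne hxa)
  unfold tau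
  have h1 : 0 < 1 - x ^ 2 := by nlinarith
  have h2 : 0 < 1 - ‖a‖ ^ 2 := by nlinarith [norm_nonneg a]
  positivity

theorem tau_self {x : ℝ} (hx0 : 0 ≤ x) (hx : x < 1) : tau x (x : ℂ) = 1 := by
  have h1 : 0 < 1 - x ^ 2 := by nlinarith
  unfold tau
  rw [Complex.norm_real, Real.norm_of_nonneg hx0, Complex.conj_ofReal]
  have : ‖1 - (x : ℂ) * (x : ℂ)‖ = 1 - x ^ 2 := by
    rw [show (1 - (x : ℂ) * (x : ℂ)) = ((1 - x ^ 2 : ℝ) : ℂ) by push_cast; ring,
      Complex.norm_real, Real.norm_of_nonneg h1.le]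
  rw [this]
  field_simp

theorem tau_contDiffAt {x : ℝ} (hx0 : 0 ≤ x) (hx : x < 1) {a : ℂ} (ha : ‖a‖ ≤ 1) :
    ContDiffAt ℝ 1 (tau x) a := by
  have hxa : ‖(x : ℂ)‖ * ‖a‖ < 1 := by
    rw [Complex.norm_real, Real.norm_of_nonneg hx0]
    nlinarith [norm_nonneg a]
  have hne := one_sub_mul_conj_ne hxa
  unfold tau
  apply ContDiffAt.div
  · exact contDiffAt_const.mul (contDiffAt_const.sub (contDiff_norm_sq ℝ).contDiffAt)
  · have h1 : ContDiff ℝ 1 (fun a : ℂ => 1 - (x : ℂ) * (starRingEnd ℂ) a) :=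
      contDiff_const.sub (contDiff_const.mul Complex.conjCLE.contDiff)
    exact ((contDiff_norm_sq ℝ).comp h1).contDiffAt
  · exact pow_ne_zero _ (norm_ne_zero_iff.mpr hne)

/-- The weighted Bergman reproducing formula with a pseudo-hyperbolic cut-off. -/
theorem cut_disc (M : ℕ) (hM : 1 ≤ M) {φ : ℂ → ℂ} {x τ₀ τ₁ : ℝ} (hx0 : 0 ≤ x) (hx : x < 1)
    (hτ₀ : 0 < τ₀) (hτ : τ₀ < τ₁) (hτ₁ : τ₁ < 1)
    (hφ : DifferentiableOn ℂ φ {a | ‖a‖ < 1 ∧ τ₀ < tau x a}) :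
    ∫ a in ball (0 : ℂ) 1, φ a * (cut M τ₁ x a : ℂ) * ((1 - ‖a‖ ^ 2 : ℝ) : ℂ) ^ M /
      (1 - (x : ℂ) * (starRingEnd ℂ) a) ^ (M + 2) =
      Real.pi / (M + 1) * (((1 - τ₁) ^ (M + 1) : ℝ) : ℂ) * φ x := by
  set ψ : ℝ → ℝ := fun t => (max t 0) ^ (M + 1) with hψ
  have h1x : 0 < 1 - x ^ 2 := by nlinarith
  have h1xc : (1 - (x : ℂ) ^ 2) ≠ 0 := by
    have : ((1 - x ^ 2 : ℝ) : ℂ) ≠ 0 := by exact_mod_cast h1x.ne'
    simpa using this
  set G : ℂ → ℂ := fun a => (ψ (tau x a - τ₁) : ℂ) *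
    (φ a * ((1 - (x : ℂ) * a) / (1 - (x : ℂ) ^ 2)) ^ (M + 1)) with hG
  set U : Set ℂ := {a | ‖a‖ < 1 ∧ τ₀ < tau x a} with hU
  have hUmem : ∀ a ∈ U, U ∈ 𝓝 a := by
    intro a ha
    have h1 : ∀ᶠ b in 𝓝 a, ‖b‖ < 1 := (continuous_norm.continuousAt).eventually_lt_const ha.1
    have h2 : ∀ᶠ b in 𝓝 a, τ₀ < tau x b :=
      (tau_contDiffAt hx0 hx ha.1.le).continuousAt.eventually_const_lt ha.2
    filter_upwards [h1, h2] with b hb1 hb2 using ⟨hb1, hb2⟩
  have hGzero' : ∀ b : ℂ, tau x b ≤ τ₁ → G b = 0 := by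
    intro b hb
    simp only [hG, hψ, max_eq_right (sub_nonpos.mpr hb)]
    rw [zero_pow (by omega)]
    simp
  have htle : ∀ b : ℂ, 1 ≤ ‖b‖ → tau x b ≤ 0 := by
    intro b hb
    unfold tau
    apply div_nonpos_of_nonpos_of_nonneg _ (by positivity)
    apply mul_nonpos_of_nonneg_of_nonpos h1x.le
    nlinarith
  have hGzero : ∀ a : ℂ, a ∉ U → G =ᶠ[𝓝 a] fun _ => 0 := by
    intro a ha
    rcases le_or_gt ‖a‖ 1 with h1 | h1
    · have h2 : tau x a ≤ τ₀ := by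
        by_contra hcon
        rw [not_le] at hcon
        apply ha
        refine ⟨lt_of_le_of_ne h1 ?_, hcon⟩
        intro h3
        have := htle a h3.ge
        linarith
      have h3 : ∀ᶠ b in 𝓝 a, tau x b < τ₁ :=
        (tau_contDiffAt hx0 hx h1).continuousAt.eventually_lt_const (by linarith)
      filter_upwards [h3] with b hb
      exact hGzero' b hb.le
    · have h2 : ∀ᶠ b in 𝓝 a, 1 < ‖b‖ := (continuous_norm.continuousAt).eventually_const_lt h1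
      filter_upwards [h2] with b hb
      apply hGzero'
      linarith [htle b hb.le]
  have hτd : ∀ a ∈ U, ContDiffAt ℝ 1 (fun a : ℂ => (ψ (tau x a - τ₁) : ℂ)) a := by
    intro a ha
    have h2 : ContDiffAt ℝ 1 (fun a : ℂ => ψ (tau x a - τ₁)) a :=
      (contDiff_posPow M hM).contDiffAt.comp a ((tau_contDiffAt hx0 hx ha.1.le).sub contDiffAt_const)
    exact Complex.ofRealCLM.contDiff.contDiffAt.comp a h2
  have hUopen : IsOpen U := isOpen_iff_mem_nhds.mpr hUmem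
  have hhol : ∀ a ∈ U, DifferentiableAt ℂ
      (fun a => φ a * ((1 - (x : ℂ) * a) / (1 - (x : ℂ) ^ 2)) ^ (M + 1)) a := by
    intro a ha
    apply DifferentiableAt.mul (hφ.differentiableAt (hUmem a ha))
    fun_prop
  have hhol' : ∀ a ∈ U, ContDiffAt ℝ 1
      (fun a => φ a * ((1 - (x : ℂ) * a) / (1 - (x : ℂ) ^ 2)) ^ (M + 1)) a := by
    intro a ha
    have hd : DifferentiableOn ℂ
      (fun a => φ a * ((1 - (x : ℂ) * a) / (1 - (x : ℂ) ^ 2)) ^ (M + 1)) U :=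
      fun b hb => (hhol b hb).differentiableWithinAt
    have h4 : ContDiffAt ℂ 1
      (fun a => φ a * ((1 - (x : ℂ) * a) / (1 - (x : ℂ) ^ 2)) ^ (M + 1)) a :=
          (hd.analyticAt (hUmem a ha)).contDiffAt
    exact h4.restrict_scalars ℝ
  have hGsm : ContDiff ℝ 1 G := by
    rw [contDiff_iff_contDiffAt]
    intro a
    by_cases ha : a ∈ U
    · exact (hτd a ha).mul (hhol' a ha)
    · exact contDiffAt_const.congr_of_eventuallyEq (hGzero a ha)
  have hGc : HasCompactSupport G := by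
    apply HasCompactSupport.of_support_subset_isCompact (isCompact_closedBall (0 : ℂ) 1)
    intro a ha
    rw [mem_closedBall_zero_iff]
    by_contra hcon
    apply ha
    apply hGzero'
    linarith [htle a (not_le.mp hcon).le]
  have hP := cauchy_pompeiu hGsm hGc x
  have hGx : G x = (((1 - τ₁) ^ (M + 1) : ℝ) : ℂ) * φ x := by
    simp only [hG, hψ, tau_self hx0 hx, max_eq_left (sub_nonneg.mpr hτ₁.le)]
    rw [show (1 - (x : ℂ) * (x : ℂ)) = 1 - (x : ℂ) ^ 2 by ring, div_self h1xc, one_pow, mul_one]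
  rw [hGx] at hP
  have hint : ∀ᵐ a : ℂ, dbar G a / (x - a) = (ball (0 : ℂ) 1).indicator (fun a =>
      ((M + 1 : ℕ) : ℂ) * (φ a * (cut M τ₁ x a : ℂ) * ((1 - ‖a‖ ^ 2 : ℝ) : ℂ) ^ M /
      (1 - (x : ℂ) * (starRingEnd ℂ) a) ^ (M + 2))) a := by
    have hx0' : ∀ᵐ a : ℂ, a ≠ x := by
      rw [ae_iff]
      simp
    filter_upwards [hx0'] with a hax
    by_cases haU : a ∈ U
    · have ha : a ∈ ball (0 : ℂ) 1 := by rw [mem_ball_zero_iff]; exact haU.1
      rw [indicator_of_mem ha]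
      rw [mem_ball_zero_iff] at ha
      have hxa : ‖(x : ℂ)‖ * ‖a‖ < 1 := by
        rw [Complex.norm_real, Real.norm_of_nonneg hx0]
        nlinarith [norm_nonneg a]
      have hne := one_sub_mul_conj_ne hxa
      have hxa' : ‖(x : ℂ)‖ * ‖(starRingEnd ℂ) a‖ < 1 := by rwa [RCLike.norm_conj]
      have hne' := one_sub_mul_conj_ne hxa'
      rw [Complex.conj_conj] at hne'
      have hd1 : DifferentiableAt ℝ (fun a : ℂ => (ψ (tau x a - τ₁) : ℂ)) a :=
        (hτd a haU).differentiableAt one_ne_zero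
      have hd2 : DifferentiableAt ℝ
          (fun a => φ a * ((1 - (x : ℂ) * a) / (1 - (x : ℂ) ^ 2)) ^ (M + 1)) a :=
        (hhol a haU).restrictScalars ℝ
      have hTd : DifferentiableAt ℝ (tau x) a :=
        (tau_contDiffAt hx0 hx ha.le).differentiableAt one_ne_zero
      have hdb : dbar (fun a : ℂ => (ψ (tau x a - τ₁) : ℂ)) a =
          (((M + 1 : ℕ) * (max (tau x a - τ₁) 0) ^ M : ℝ) : ℂ) * dbar (fun b => (tau x b : ℂ)) a := by
        have k1 : HasDerivAt (fun t => ψ (t - τ₁)) ((M + 1 : ℕ) * (max (tau x a - τ₁) 0) ^ M)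
            (tau x a) := by
          have k2 := hasDerivAt_posPow M hM (tau x a - τ₁)
          have k3 := k2.comp_sub_const (tau x a) τ₁
          exact k3
        exact dbar_comp_real (T := tau x) (ψ := fun t => ψ (t - τ₁)) hTd k1
      rw [show dbar G a = dbar (fun a : ℂ => (ψ (tau x a - τ₁) : ℂ)) a *
          (φ a * ((1 - (x : ℂ) * a) / (1 - (x : ℂ) ^ 2)) ^ (M + 1)) +
          (ψ (tau x a - τ₁) : ℂ) * dbar (fun a => φ a * ((1 - (x : ℂ) * a) /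
          (1 - (x : ℂ) ^ 2)) ^ (M + 1)) a from dbar_mul hd1 hd2,
        dbar_eq_zero_of_differentiableAt (hhol a haU), mul_zero, add_zero, hdb,
        dbar_tau hx0 hx ha]
      have hxa2 : (x : ℂ) - a ≠ 0 := sub_ne_zero.mpr (Ne.symm hax)
      have htp := tau_pos hx0 hx ha
      have htc : (tau x a : ℂ) ≠ 0 := by exact_mod_cast htp.ne'
      have h2 : ((1 - ‖a‖ ^ 2 : ℝ) : ℂ) = (tau x a : ℂ) *
          ((1 - (x : ℂ) * (starRingEnd ℂ) a) * (1 - (x : ℂ) * a)) / (1 - (x : ℂ) ^ 2) := by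
        have h1 : ((1 - ‖a‖ ^ 2 : ℝ) : ℂ) = 1 - a * (starRingEnd ℂ) a := by
          rw [Complex.mul_conj, Complex.normSq_eq_norm_sq]; push_cast; ring
        rw [h1, tau_cast, div_mul_cancel₀ _ (mul_ne_zero hne hne'), mul_div_cancel_left₀ _ h1xc]
      rw [h2]
      unfold cut
      push_cast
      rw [div_pow, div_pow, div_pow, mul_pow, mul_pow]
      field_simp
      ring
    · have hd : dbar G a = 0 := by
        have := (hGzero a haU).fderiv_eq (𝕜 := ℝ)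
        rw [dbar, this]
        simp
      rw [hd, zero_div]
      symm
      apply indicator_apply_eq_zero.mpr
      intro ha
      rw [mem_ball_zero_iff] at ha
      have h2 : tau x a ≤ τ₁ := by
        by_contra hcon
        rw [not_le] at hcon
        exact haU ⟨ha, by linarith⟩
      have h3 : cut M τ₁ x a = 0 := by
        unfold cut
        rw [max_eq_right (sub_nonpos.mpr h2), zero_div, zero_pow (by omega)]
      rw [h3]
      simp
  rw [integral_congr_ae hint, integral_indicator measurableSet_ball, integral_const_mul] at hP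
  have hm1 : ((M : ℂ) + 1) ≠ 0 := by exact_mod_cast Nat.succ_ne_zero M
  have hm2 : (((M + 1 : ℕ)) : ℂ) = (M : ℂ) + 1 := by push_cast; ring
  rw [hm2] at hP
  rw [div_mul_eq_mul_div, div_mul_eq_mul_div, eq_div_iff hm1, mul_comm, hP]
  ring

end Pool.Agent.MPca0fc2.SL
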