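import Mathlib
import Pool.Agent.Lib.MP_ca0fc2_an.Mg.G050

set_option autoImplicit false

open Metric Set MeasureTheory Filter Topology
open scoped InnerProductSpace ENNReal NNReal

namespace Pool.Agent.MPca0fc2.SL

open Pool.Agent.Lib.MP_ca0fc2_an Pool.Agent.MPca0fc2.SD

section Rot

variable {K : Type*} [NormedAddCommGroup K] [NormedSpace ℂ K] [FiniteDimensional ℂ K]
  [MeasurableSpace K] [BorelSpace K]

/-- The weighted mean value property of holomorphic functions. -/
theorem fiber_mean_w (ν : Measure K) [ν.IsAddHaarMeasure] {ψ : K → ℂ} {r M : ℝ} {W : ℝ → ℝ}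
    (hW : Continuous W)
    (hψ : DifferentiableOn ℂ ψ (ball 0 r)) (hM : ∀ y ∈ ball (0 : K) r, ‖ψ y‖ ≤ M) :
    ∫ y in ball (0 : K) r, ψ y * (W ‖y‖ : ℂ) ∂ν =
      ((∫ y in ball (0 : K) r, W ‖y‖ ∂ν : ℝ) : ℂ) * ψ 0 := by
  have : ProperSpace K := FiniteDimensional.proper ℂ K
  rcases le_or_gt r 0 with hr0 | hr0
  · rw [ball_eq_empty.mpr hr0]; simp
  have hM0 : 0 ≤ M := (norm_nonneg _).trans (hM 0 (mem_ball_self hr0))
  obtain ⟨MW, hMW⟩ : ∃ MW, ∀ s ∈ Icc 0 r, ‖W s‖ ≤ MW :=
    isCompact_Icc.exists_bound_of_continuousOn hW.continuousOn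
  have hMW' : ∀ y ∈ ball (0 : K) r, ‖W ‖y‖‖ ≤ MW := by
    intro y hy
    rw [mem_ball_zero_iff] at hy
    exact hMW _ ⟨norm_nonneg _, hy.le⟩
  have hrot : ∀ θ : ℝ, ∫ y in ball (0 : K) r, ψ (circleMap 0 1 θ • y) * (W ‖y‖ : ℂ) ∂ν =
      ∫ y in ball (0 : K) r, ψ y * (W ‖y‖ : ℂ) ∂ν := by
    intro θ
    have hc : ‖circleMap 0 1 θ‖ = 1 := by simp [circleMap]
    have hmp := mp_smul ν hc
    have hpre : (fun y : K => circleMap 0 1 θ • y) ⁻¹' (ball 0 r) = ball 0 r := by
      ext y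
      simp only [mem_preimage, mem_ball_zero_iff, norm_smul, hc, one_mul]
    have hemb : MeasurableEmbedding (fun y : K => circleMap 0 1 θ • y) := by
      have hc0 : circleMap 0 1 θ ≠ 0 := by
        intro h; rw [h, norm_zero] at hc; exact one_ne_zero hc.symm
      exact (Homeomorph.smulOfNeZero _ hc0 : K ≃ₜ K).measurableEmbedding
    have := hmp.setIntegral_preimage_emb hemb (fun y => ψ y * (W ‖y‖ : ℂ)) (ball 0 r)
    rw [hpre] at this
    rw [← this]
    apply setIntegral_congr_fun measurableSet_ball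
    intro y _
    simp only [norm_smul, hc, one_mul]
  have hswap : ∫ θ in (0 : ℝ)..(2 * Real.pi), ∫ y in ball (0 : K) r,
      ψ (circleMap 0 1 θ • y) * (W ‖y‖ : ℂ) ∂ν =
      ∫ y in ball (0 : K) r, (∫ θ in (0 : ℝ)..(2 * Real.pi),
        ψ (circleMap 0 1 θ • y) * (W ‖y‖ : ℂ)) ∂ν := by
    have h2pi : (0 : ℝ) ≤ 2 * Real.pi := by positivity
    simp only [intervalIntegral.integral_of_le h2pi]
    apply integral_integral_swap
    have hfin : IsFiniteMeasure ((volume.restrict (Ioc (0 : ℝ) (2 * Real.pi))).prod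
        (ν.restrict (ball (0 : K) r))) := by
      have : IsFiniteMeasure (volume.restrict (Ioc (0 : ℝ) (2 * Real.pi))) :=
        ⟨by rw [Measure.restrict_apply_univ]; exact measure_Ioc_lt_top⟩
      have : IsFiniteMeasure (ν.restrict (ball (0 : K) r)) :=
        ⟨by rw [Measure.restrict_apply_univ]; exact measure_ball_lt_top⟩
      infer_instance
    have hmap : ∀ θ : ℝ, ∀ y ∈ ball (0 : K) r, circleMap 0 1 θ • y ∈ ball (0 : K) r := by
      intro θ y hy
      rw [mem_ball_zero_iff] at hy ⊢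
      rw [norm_smul]; simpa [circleMap] using hy
    have hcont : ContinuousOn (Function.uncurry fun (θ : ℝ) (y : K) =>
        ψ (circleMap 0 1 θ • y) * (W ‖y‖ : ℂ))
        (Ioc (0 : ℝ) (2 * Real.pi) ×ˢ ball (0 : K) r) := by
      apply ContinuousOn.mul
      · apply hψ.continuousOn.comp
        · apply Continuous.continuousOn
          exact ((continuous_circleMap 0 1).comp continuous_fst).smul continuous_snd
        · rintro ⟨θ, y⟩ ⟨_, hy⟩
          exact hmap θ y hy
      · apply Continuous.continuousOn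
        fun_prop
    rw [Measure.prod_restrict]
    rw [Measure.prod_restrict] at hfin
    refine Integrable.mono' (g := fun _ => M * MW) (integrable_const _)
      (hcont.aestronglyMeasurable (measurableSet_Ioc.prod measurableSet_ball)) ?_
    refine (ae_restrict_iff' (measurableSet_Ioc.prod measurableSet_ball)).mpr
      (Eventually.of_forall ?_)
    rintro ⟨θ, y⟩ ⟨_, hy⟩
    show ‖ψ (circleMap 0 1 θ • y) * (W ‖y‖ : ℂ)‖ ≤ M * MW
    rw [norm_mul, Complex.norm_real]
    exact mul_le_mul (hM _ (hmap θ y hy)) (hMW' y hy) (norm_nonneg _) hM0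
  have hmean : ∀ y ∈ ball (0 : K) r, ∫ θ in (0 : ℝ)..(2 * Real.pi),
      ψ (circleMap 0 1 θ • y) * (W ‖y‖ : ℂ) = (2 * Real.pi : ℝ) • ((W ‖y‖ : ℂ) * ψ 0) := by
    intro y hy
    have hd : DiffContOnCl ℂ (fun t : ℂ => ψ (t • y)) (ball 0 |1|) := by
      rw [abs_one]
      obtain ⟨R, hR1, hRy⟩ : ∃ R : ℝ, 1 < R ∧ R * ‖y‖ < r := by
        rw [mem_ball_zero_iff] at hy
        rcases eq_or_ne ‖y‖ 0 with h0 | h0
        · refine ⟨2, by norm_num, ?_⟩
          rw [h0, mul_zero]; linarith [norm_nonneg y]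
        · have hpos : 0 < ‖y‖ := lt_of_le_of_ne (norm_nonneg _) (Ne.symm h0)
          refine ⟨(1 + r / ‖y‖) / 2, ?_, ?_⟩
          · have : 1 < r / ‖y‖ := by rw [lt_div_iff₀ hpos]; linarith
            linarith
          · have : (1 + r / ‖y‖) / 2 * ‖y‖ = (‖y‖ + r) / 2 := by
              field_simp
            rw [this]; linarith
      have hd' : DifferentiableOn ℂ (fun t : ℂ => ψ (t • y)) (ball 0 R) := by
        apply hψ.comp
        · exact (differentiable_id.smul_const y).differentiableOn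
        · intro t ht
          rw [mem_ball_zero_iff] at ht ⊢
          rw [norm_smul]
          calc ‖t‖ * ‖y‖ ≤ R * ‖y‖ := mul_le_mul_of_nonneg_right ht.le (norm_nonneg _)
            _ < r := hRy
      exact (hd'.mono (closedBall_subset_ball hR1)).diffContOnCl_ball
        (subset_refl _)
    have h := hd.circleAverage
    rw [Real.circleAverage_def] at h
    simp only [zero_smul] at h
    rw [← h, intervalIntegral.integral_mul_const, Complex.real_smul, Complex.real_smul]
    have hp : (Real.pi : ℂ) ≠ 0 := by exact_mod_cast Real.pi_ne_zero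
    push_cast
    field_simp
  have h1 : ∫ θ in (0 : ℝ)..(2 * Real.pi), ∫ y in ball (0 : K) r,
      ψ (circleMap 0 1 θ • y) * (W ‖y‖ : ℂ) ∂ν =
      (2 * Real.pi : ℝ) • ∫ y in ball (0 : K) r, ψ y * (W ‖y‖ : ℂ) ∂ν := by
    simp only [hrot, intervalIntegral.integral_const, sub_zero]
  rw [h1, setIntegral_congr_fun measurableSet_ball hmean, integral_smul] at hswap
  have h2 : (2 * Real.pi : ℝ) ≠ 0 := by positivity
  have h3 := congrArg (fun t => (2 * Real.pi : ℝ)⁻¹ • t) hswap
  simp only [smul_smul, inv_mul_cancel₀ h2, one_smul] at h3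
  rw [h3, integral_mul_const, integral_complex_ofReal]

theorem weight_scale (ν : Measure K) [ν.IsAddHaarMeasure] {m : ℕ}
    (hdim : Module.finrank ℂ K = m) {r : ℝ} (hr : 0 < r) :
    ∫ y in ball (0 : K) r, (r ^ 2 - ‖y‖ ^ 2) ^ 2 ∂ν =
      (r ^ 2) ^ (m + 2) * ∫ y in ball (0 : K) 1, (1 - ‖y‖ ^ 2) ^ 2 ∂ν := by
  have h := Measure.setIntegral_comp_smul_of_pos ν (fun y : K => (r ^ 2 - ‖y‖ ^ 2) ^ 2)
    (ball 0 1) hr
  rw [smul_unitBall_of_pos hr] at h
  have hdimR : Module.finrank ℝ K = 2 * m := by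
    rw [finrank_real_of_complex, hdim]
  rw [hdimR, smul_eq_mul, inv_mul_eq_div, eq_div_iff (by positivity)] at h
  rw [← h]
  have e : ∀ y : K, (r ^ 2 - ‖r • y‖ ^ 2) ^ 2 = r ^ 4 * (1 - ‖y‖ ^ 2) ^ 2 := by
    intro y
    rw [norm_smul, Real.norm_of_nonneg hr.le]
    ring
  simp only [e]
  rw [integral_const_mul]
  ring

end Rot

section BallInt

variable {E : Type*} [NormedAddCommGroup E] [InnerProductSpace ℂ E] [FiniteDimensional ℂ E]
  [MeasurableSpace E] [BorelSpace E]

/-- Weighted integrals over the ball of functions holomorphic in a slab times functions of one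
coordinate. -/
theorem ball_integral_w (μ : Measure E) [μ.IsAddHaarMeasure] (e : E) (he : ‖e‖ = 1) (m : ℕ)
    (hm : 1 ≤ m) (hdim : Module.finrank ℂ E = m + 1) :
    ∃ C : ℝ, ∀ (S : Set ℂ) (F : E → ℂ) (κ : ℂ → ℂ) (M M' : ℝ), IsOpen S →
      DifferentiableOn ℂ F {w | ‖w‖ < 1 ∧ ⟪e, w⟫_ℂ ∈ S} →
      (∀ w, ‖w‖ < 1 → ⟪e, w⟫_ℂ ∈ S → ‖F w‖ ≤ M) → ContinuousOn κ (ball 0 1) →
      (∀ a ∈ ball (0 : ℂ) 1, ‖κ a‖ ≤ M') → (∀ a, a ∉ S → κ a = 0) →
      ∫ w in ball (0 : E) 1, F w * κ (⟪e, w⟫_ℂ) * (((1 - ‖w‖ ^ 2) ^ 2 : ℝ) : ℂ) ∂μ =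
        C * ∫ a in ball (0 : ℂ) 1, F (a • e) * κ a * ((1 - ‖a‖ ^ 2 : ℝ) : ℂ) ^ (m + 2) := by
  have hprop : ProperSpace E := FiniteDimensional.proper ℂ E
  set K := (ℂ ∙ e)ᗮ with hK
  have hpropK : ProperSpace K := FiniteDimensional.proper ℂ K
  have he0 : e ≠ 0 := by intro h; rw [h, norm_zero] at he; exact zero_ne_one he
  have hdimK : Module.finrank ℂ K = m := by
    have h1 := Submodule.finrank_add_finrank_orthogonal (ℂ ∙ e)
    rw [finrank_span_singleton he0, hdim, ← hK] at h1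
    omega
  have hnt : Nontrivial K := by
    apply Module.nontrivial_of_finrank_pos (R := ℂ)
    rw [hdimK]; omega
  let ν : Measure K := Measure.addHaar
  let T : E ≃L[ℂ] ℂ × K := (splitE e he).toContinuousLinearEquiv
  have hTs : ∀ p : ℂ × K, T.symm p = p.1 • e + (p.2 : E) := fun p => rfl
  have hT1 : ∀ w : E, (T w).1 = ⟪e, w⟫_ℂ := fun w => rfl
  have hT1' : ∀ p : ℂ × K, ⟪e, p.1 • e + (p.2 : E)⟫_ℂ = p.1 := by
    intro p
    rw [← hTs, ← hT1, T.apply_symm_apply]
  have hmap : (μ.map T).IsAddHaarMeasure := T.isAddHaarMeasure_map μ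
  have hpr : ((volume : Measure ℂ).prod ν).IsAddHaarMeasure := inferInstance
  set c : ℝ≥0 := Measure.addHaarScalarFactor (μ.map T) ((volume : Measure ℂ).prod ν) with hc
  have hmapeq : μ.map T = c • ((volume : Measure ℂ).prod ν) :=
    Measure.isAddLeftInvariant_eq_smul _ _
  refine ⟨(c : ℝ) * ∫ y in ball (0 : K) 1, (1 - ‖y‖ ^ 2) ^ 2 ∂ν,
    fun S F κ M M' hS hF hM hκ hM' hκ0 => ?_⟩
  rcases (eq_empty_or_nonempty {w : E | ‖w‖ < 1 ∧ ⟪e, w⟫_ℂ ∈ S}) with hemp | hne
  · -- the slab is empty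
    have hz : ∀ a ∈ ball (0 : ℂ) 1, κ a = 0 := by
      intro a ha
      apply hκ0
      intro haS
      have : a • e ∈ {w : E | ‖w‖ < 1 ∧ ⟪e, w⟫_ℂ ∈ S} := by
        refine ⟨?_, ?_⟩
        · rw [norm_smul, he, mul_one]; rwa [mem_ball_zero_iff] at ha
        · rw [inner_smul_right, inner_self_eq_norm_sq_to_K, he]; simpa using haS
      rw [hemp] at this
      exact this
    have l1 : ∫ w in ball (0 : E) 1, F w * κ (⟪e, w⟫_ℂ) * (((1 - ‖w‖ ^ 2) ^ 2 : ℝ) : ℂ) ∂μ = 0 := by
      apply setIntegral_eq_zero_of_forall_eq_zero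
      intro w hw
      have : ⟪e, w⟫_ℂ ∈ ball (0 : ℂ) 1 := by
        rw [mem_ball_zero_iff] at hw ⊢
        refine (norm_inner_le_norm e w).trans_lt ?_
        rw [he, one_mul]; exact hw
      rw [hz _ this]; simp
    have l2 : ∫ a in ball (0 : ℂ) 1, F (a • e) * κ a * ((1 - ‖a‖ ^ 2 : ℝ) : ℂ) ^ (m + 2) = 0 := by
      apply setIntegral_eq_zero_of_forall_eq_zero
      intro a ha
      rw [hz _ ha]; simp
    rw [l1, l2, mul_zero]
  obtain ⟨w₀, hw₀⟩ := hne
  have hM0 : 0 ≤ M := (norm_nonneg _).trans (hM w₀ hw₀.1 hw₀.2)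
  have hM'0 : 0 ≤ M' := (norm_nonneg _).trans (hM' 0 (mem_ball_self one_pos))
  set Bs : Set (ℂ × K) := {p | ‖p.1‖ ^ 2 + ‖p.2‖ ^ 2 < 1 ∧ p.1 ∈ S} with hBs
  have hBsopen : IsOpen Bs := by
    have h1 : IsOpen {p : ℂ × K | ‖p.1‖ ^ 2 + ‖p.2‖ ^ 2 < 1} :=
      isOpen_lt (by fun_prop) continuous_const
    exact h1.inter (hS.preimage continuous_fst)
  have hBsmeas : MeasurableSet Bs := hBsopen.measurableSet
  have hmemB : ∀ p : ℂ × K, (‖T.symm p‖ < 1 ∧ ⟪e, T.symm p⟫_ℂ ∈ S) ↔ p ∈ Bs := by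
    intro p
    rw [hTs, hBs, mem_ofPred_eq, ← norm_split e he, hT1', sq_lt_one_iff₀ (norm_nonneg _)]
  set G : ℂ × K → ℂ := fun p => F (p.1 • e + (p.2 : E)) * κ p.1 *
    (((1 - (‖p.1‖ ^ 2 + ‖p.2‖ ^ 2)) ^ 2 : ℝ) : ℂ) with hG
  have hballS : ∫ w in ball (0 : E) 1, F w * κ (⟪e, w⟫_ℂ) * (((1 - ‖w‖ ^ 2) ^ 2 : ℝ) : ℂ) ∂μ =
      ∫ w in {w : E | ‖w‖ < 1 ∧ ⟪e, w⟫_ℂ ∈ S},
        F w * κ (⟪e, w⟫_ℂ) * (((1 - ‖w‖ ^ 2) ^ 2 : ℝ) : ℂ) ∂μ := by
    apply setIntegral_eq_of_subset_of_forall_sdiff_eq_zero measurableSet_ball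
    · intro w hw
      rw [mem_ball_zero_iff]; exact hw.1
    · intro w hw
      rw [hκ0, mul_zero, zero_mul]
      intro h
      exact hw.2 ⟨by simpa using hw.1, h⟩
  have hstep1 : ∫ w in ball (0 : E) 1, F w * κ (⟪e, w⟫_ℂ) * (((1 - ‖w‖ ^ 2) ^ 2 : ℝ) : ℂ) ∂μ =
      ∫ p in Bs, G p ∂(μ.map T) := by
    have hemb : MeasurableEmbedding T := T.toHomeomorph.measurableEmbedding
    rw [hballS, hemb.setIntegral_map]
    have hpre : T ⁻¹' Bs = {w : E | ‖w‖ < 1 ∧ ⟪e, w⟫_ℂ ∈ S} := by
      ext w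
      rw [mem_preimage, ← hmemB, T.symm_apply_apply]; rfl
    rw [hpre]
    apply setIntegral_congr_fun (hpre ▸ hBsmeas.preimage T.continuous.measurable)
    intro w _
    simp only [hG]
    rw [← norm_split e he, ← hTs (T w), T.symm_apply_apply, hT1]
  have hGb : ∀ p ∈ Bs, ‖G p‖ ≤ M * M' := by
    intro p hp
    have h1 : ‖p.1‖ ^ 2 + ‖p.2‖ ^ 2 < 1 := hp.1
    rw [hG, norm_mul, norm_mul, Complex.norm_real]
    have h2 : ‖(1 - (‖p.1‖ ^ 2 + ‖p.2‖ ^ 2)) ^ 2‖ ≤ 1 := by
      rw [Real.norm_of_nonneg (by positivity)]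
      apply pow_le_one₀ (by linarith)
      nlinarith [sq_nonneg ‖p.1‖, sq_nonneg ‖p.2‖]
    have h3 : ‖F (p.1 • e + (p.2 : E))‖ * ‖κ p.1‖ ≤ M * M' := by
      apply mul_le_mul _ _ (norm_nonneg _) hM0
      · rw [← hTs]
        exact hM _ ((hmemB p).mpr hp).1 ((hmemB p).mpr hp).2
      · apply hM'
        rw [mem_ball_zero_iff, ← sq_lt_one_iff₀ (norm_nonneg _)]
        nlinarith [sq_nonneg ‖p.2‖]
    calc _ ≤ (M * M') * 1 := mul_le_mul h3 h2 (norm_nonneg _) (by positivity)
      _ = _ := mul_one _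
  have hGc : ContinuousOn G Bs := by
    apply ContinuousOn.mul
    · apply ContinuousOn.mul
      · apply hF.continuousOn.comp (by fun_prop)
        intro p hp
        have h0 := (hmemB p).mpr hp
        rwa [hTs] at h0
      · apply hκ.comp continuous_fst.continuousOn
        intro p hp
        rw [mem_ball_zero_iff, ← sq_lt_one_iff₀ (norm_nonneg _)]
        have : ‖p.1‖ ^ 2 + ‖p.2‖ ^ 2 < 1 := hp.1
        nlinarith [sq_nonneg ‖p.2‖]
    · apply Continuous.continuousOn
      fun_prop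
  have hBsfin : ((volume : Measure ℂ).prod ν) Bs < ∞ := by
    apply (measure_mono (t := closedBall 0 1) _).trans_lt
    · exact (isCompact_closedBall (0 : ℂ × K) 1).measure_lt_top
    · intro p hp
      have hp' : ‖p.1‖ ^ 2 + ‖p.2‖ ^ 2 < 1 := hp.1
      rw [mem_closedBall_zero_iff, Prod.norm_def, max_le_iff]
      constructor <;> nlinarith [norm_nonneg p.1, norm_nonneg p.2]
  have hGi : Integrable (Bs.indicator G) ((volume : Measure ℂ).prod ν) := by
    rw [integrable_indicator_iff hBsmeas]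
    have : IsFiniteMeasure (((volume : Measure ℂ).prod ν).restrict Bs) :=
      ⟨by rw [Measure.restrict_apply_univ]; exact hBsfin⟩
    refine Integrable.mono' (g := fun _ => M * M') (integrable_const _)
      (hGc.aestronglyMeasurable hBsmeas) ?_
    exact (ae_restrict_iff' hBsmeas).mpr (Eventually.of_forall hGb)
  rw [hstep1, hmapeq, Measure.restrict_smul, integral_smul_nnreal_measure,
    ← integral_indicator hBsmeas, integral_prod _ hGi]
  -- inner integral
  have hinner : ∀ a : ℂ, ∫ y, Bs.indicator G (a, y) ∂ν =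
      (ball (0 : ℂ) 1).indicator (fun a =>
        ((∫ y in ball (0 : K) 1, (1 - ‖y‖ ^ 2) ^ 2 ∂ν : ℝ) : ℂ) *
        (F (a • e) * κ a * ((1 - ‖a‖ ^ 2 : ℝ) : ℂ) ^ (m + 2))) a := by
    intro a
    by_cases haS : a ∈ S
    · by_cases ha : a ∈ ball (0 : ℂ) 1
      · rw [indicator_of_mem ha]
        rw [mem_ball_zero_iff] at ha
        have hpos : 0 < 1 - ‖a‖ ^ 2 := by nlinarith [norm_nonneg a]
        set r : ℝ := Real.sqrt (1 - ‖a‖ ^ 2) with hr
        have hrpos : 0 < r := Real.sqrt_pos.mpr hpos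
        have hrsq : r ^ 2 = 1 - ‖a‖ ^ 2 := Real.sq_sqrt hpos.le
        have hmem : ∀ y : K, (a, y) ∈ Bs ↔ y ∈ ball (0 : K) r := by
          intro y
          rw [mem_ball_zero_iff, hBs, mem_ofPred_eq]
          constructor
          · intro h
            have h' : ‖y‖ ^ 2 < r ^ 2 := by rw [hrsq]; linarith [h.1]
            exact lt_of_pow_lt_pow_left₀ 2 hrpos.le h'
          · intro h
            have : ‖y‖ ^ 2 < r ^ 2 := pow_lt_pow_left₀ h (norm_nonneg _) two_ne_zero
            rw [hrsq] at this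
            refine ⟨?_, haS⟩
            show ‖a‖ ^ 2 + ‖y‖ ^ 2 < 1
            linarith
        have h1 : (fun y : K => Bs.indicator G (a, y)) =
            (ball (0 : K) r).indicator (fun y => G (a, y)) := by
          funext y
          by_cases hy : y ∈ ball (0 : K) r
          · rw [indicator_of_mem hy, indicator_of_mem ((hmem y).mpr hy)]
          · rw [indicator_of_notMem hy, indicator_of_notMem (fun h => hy ((hmem y).mp h))]
        rw [h1, integral_indicator measurableSet_ball]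
        have h2 := fiber_mean_w ν (ψ := fun y : K => F (a • e + (y : E)) * κ a) (r := r)
          (M := M * M') (W := fun s => (r ^ 2 - s ^ 2) ^ 2) (by fun_prop) ?_ ?_
        · have h3 := weight_scale ν hdimK hrpos
          simp only [hG]
          rw [h3] at h2
          have h4 : ∀ y : K, (((1 - (‖a‖ ^ 2 + ‖y‖ ^ 2)) ^ 2 : ℝ) : ℂ) =
              (((r ^ 2 - ‖y‖ ^ 2) ^ 2 : ℝ) : ℂ) := by
            intro y
            rw [hrsq]
            congr 1
            ring
          simp only [h4]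
          rw [h2, hrsq]
          simp only [ZeroMemClass.coe_zero, add_zero]
          push_cast
          ring
        · apply DifferentiableOn.mul_const
          apply hF.comp
          · apply Differentiable.differentiableOn
            exact (differentiable_const _).add K.subtypeL.differentiable
          · intro y hy
            have h0 := (hmemB _).mpr ((hmem y).mpr hy)
            rwa [hTs] at h0
        · intro y hy
          have hp := (hmem y).mpr hy
          rw [norm_mul]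
          apply mul_le_mul _ _ (norm_nonneg _) hM0
          · have := (hmemB _).mpr hp
            rw [hTs] at this
            exact hM _ this.1 this.2
          · exact hM' _ (by rw [mem_ball_zero_iff]; exact ha)
      · rw [indicator_of_notMem ha]
        rw [mem_ball_zero_iff, not_lt] at ha
        have h1 : (fun y : K => Bs.indicator G (a, y)) = fun _ => 0 := by
          funext y
          apply indicator_of_notMem
          intro h
          have h' : ‖a‖ ^ 2 + ‖y‖ ^ 2 < 1 := h.1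
          nlinarith [sq_nonneg ‖y‖]
        rw [h1, integral_zero]
    · have h1 : (fun y : K => Bs.indicator G (a, y)) = fun _ => 0 := by
        funext y
        apply indicator_of_notMem
        intro h
        exact haS h.2
      rw [h1, integral_zero]
      symm
      apply indicator_apply_eq_zero.mpr
      intro _
      rw [hκ0 a haS]
      simp
  simp only [hinner]
  rw [integral_indicator measurableSet_ball, integral_const_mul]
  rw [NNReal.smul_def, Complex.real_smul]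
  push_cast
  ring

end BallInt

end Pool.Agent.MPca0fc2.SL
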