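import Mathlib
import Pool.Agent.Lib.MP_ca0fc2_an.SDKer2
import Pool.Agent.Lib.MP_ca0fc2_an.SLKer1
import Pool.Agent.Lib.MP_ca0fc2_an.SLKer2

set_option autoImplicit false

open Metric Set MeasureTheory Filter Topology
open scoped InnerProductSpace ENNReal NNReal

namespace Pool.Agent.MPca0fc2.SL

open Pool.Agent.Lib.MP_ca0fc2_an Pool.Agent.MPca0fc2.SD

variable {E : Type*} [NormedAddCommGroup E] [InnerProductSpace ℂ E]

section Cut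

theorem tau_le_of_one_le {x : ℝ} (hx0 : 0 ≤ x) (hx : x < 1) {b : ℂ} (hb : 1 ≤ ‖b‖) :
    tau x b ≤ 0 := by
  unfold tau
  apply div_nonpos_of_nonpos_of_nonneg _ (by positivity)
  apply mul_nonpos_of_nonneg_of_nonpos (by nlinarith)
  nlinarith

theorem isOpen_slab {x : ℝ} (hx0 : 0 ≤ x) (hx : x < 1) (τ₀ : ℝ) :
    IsOpen {a : ℂ | ‖a‖ < 1 ∧ τ₀ < tau x a} := by
  rw [isOpen_iff_mem_nhds]
  intro a ha
  have h1 : ∀ᶠ b in 𝓝 a, ‖b‖ < 1 := (continuous_norm.continuousAt).eventually_lt_const ha.1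
  have h2 : ∀ᶠ b in 𝓝 a, τ₀ < tau x b :=
    (tau_contDiffAt hx0 hx ha.1.le).continuousAt.eventually_const_lt ha.2
  filter_upwards [h1, h2] with b hb1 hb2 using ⟨hb1, hb2⟩

theorem cut_zero {M : ℕ} (hM : 1 ≤ M) {τ₁ x : ℝ} {a : ℂ} (h : tau x a ≤ τ₁) :
    cut M τ₁ x a = 0 := by
  unfold cut
  rw [max_eq_right (sub_nonpos.mpr h), zero_div, zero_pow (by omega)]

theorem cut_nonneg {M : ℕ} {τ₁ x : ℝ} {a : ℂ} (h : 0 < tau x a) : 0 ≤ cut M τ₁ x a := by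
  unfold cut
  positivity

theorem cut_le_one {M : ℕ} {τ₁ x : ℝ} {a : ℂ} (hτ₁ : 0 ≤ τ₁) (h : 0 < tau x a) :
    cut M τ₁ x a ≤ 1 := by
  unfold cut
  apply pow_le_one₀ (by positivity)
  rw [div_le_one h]
  exact max_le (by linarith) h.le

theorem one_sub_cut_le {M : ℕ} (hM : 1 ≤ M) {τ₁ x : ℝ} {a : ℂ} (hτ₁ : 0 < τ₁)
    (h : 0 < tau x a) : 1 - cut M τ₁ x a ≤ Real.sqrt (M * τ₁ / tau x a) := by
  have hM' : (1 : ℝ) ≤ M := by exact_mod_cast hM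
  have h0 := cut_nonneg (M := M) (τ₁ := τ₁) h
  rcases le_or_gt 1 (M * τ₁ / tau x a) with h1 | h1
  · have : 1 ≤ Real.sqrt (M * τ₁ / tau x a) := by
      rw [Real.one_le_sqrt]; exact h1
    linarith
  · have h2 : τ₁ < tau x a := by
      rw [div_lt_one h] at h1
      nlinarith
    have h3 : cut M τ₁ x a = (1 + (-(τ₁ / tau x a))) ^ M := by
      unfold cut
      rw [max_eq_left (by linarith)]
      congr 1
      field_simp
      ring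
    have h4 : 1 + (M : ℝ) * (-(τ₁ / tau x a)) ≤ (1 + (-(τ₁ / tau x a))) ^ M := by
      apply one_add_mul_le_pow
      have : τ₁ / tau x a ≤ 1 := by rw [div_le_one h]; exact h2.le
      linarith
    have h5 : 0 ≤ M * τ₁ / tau x a := by positivity
    have h6 : M * τ₁ / tau x a ≤ Real.sqrt (M * τ₁ / tau x a) := by
      apply Real.le_sqrt_of_sq_le
      nlinarith
    rw [h3]
    have h7 : (M : ℝ) * (-(τ₁ / tau x a)) = -(M * τ₁ / tau x a) := by ring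
    rw [h7] at h4
    linarith

theorem cut_continuousOn (M : ℕ) {τ₁ x : ℝ} (hx0 : 0 ≤ x) (hx : x < 1) :
    ContinuousOn (cut M τ₁ x) (ball 0 1) := by
  have h1 : ContinuousOn (tau x) (ball (0 : ℂ) 1) := by
    intro a ha
    rw [mem_ball_zero_iff] at ha
    exact (tau_contDiffAt hx0 hx ha.le).continuousAt.continuousWithinAt
  unfold cut
  apply ContinuousOn.pow
  apply ContinuousOn.div _ h1
  · intro a ha
    rw [mem_ball_zero_iff] at ha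
    exact (tau_pos hx0 hx ha).ne'
  · exact (h1.sub continuousOn_const).sup continuousOn_const

end Cut

section Def

variable [MeasurableSpace E]

/-- the total mass of the weight `(1 - ‖w‖²)²` -/
noncomputable def cw (μ : Measure E) : ℝ := ∫ w in ball (0 : E) 1, (1 - ‖w‖ ^ 2) ^ 2 ∂μ

/-- the weighted Bergman projection -/
noncomputable def PP (μ : Measure E) (m : ℕ) (F : E → ℂ) (z : E) : ℂ :=
  (cw μ : ℂ)⁻¹ * ∫ w in ball (0 : E) 1, F w * (((1 - ‖w‖ ^ 2) ^ 2 : ℝ) : ℂ) /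
    (1 - ⟪w, z⟫_ℂ) ^ (m + 4) ∂μ

end Def

theorem exists_unit (m : ℕ) (hdim : Module.finrank ℂ E = m + 1) (z : E) :
    ∃ e : E, ‖e‖ = 1 ∧ z = (‖z‖ : ℂ) • e := by
  have hnt : Nontrivial E := by
    apply Module.nontrivial_of_finrank_pos (R := ℂ)
    rw [hdim]; omega
  rcases eq_or_ne z 0 with h0 | h0
  · obtain ⟨v, hv⟩ := exists_ne (0 : E)
    refine ⟨((‖v‖⁻¹ : ℝ) : ℂ) • v, ?_, ?_⟩
    · rw [norm_smul, Complex.norm_real, Real.norm_of_nonneg (by positivity),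
        inv_mul_cancel₀ (norm_ne_zero_iff.mpr hv)]
    · rw [h0]; simp
  · have h1 : (‖z‖ : ℂ) ≠ 0 := by exact_mod_cast norm_ne_zero_iff.mpr h0
    refine ⟨((‖z‖⁻¹ : ℝ) : ℂ) • z, ?_, ?_⟩
    · rw [norm_smul, Complex.norm_real, Real.norm_of_nonneg (by positivity),
        inv_mul_cancel₀ (norm_ne_zero_iff.mpr h0)]
    · rw [smul_smul, Complex.ofReal_inv, mul_inv_cancel₀ h1, one_smul]

theorem inner_eq {e z : E} (hz : z = (‖z‖ : ℂ) • e) (w : E) :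
    ⟪w, z⟫_ℂ = (‖z‖ : ℂ) * (starRingEnd ℂ) ⟪e, w⟫_ℂ := by
  rw [inner_conj_symm]
  conv_lhs => rw [hz]
  rw [inner_smul_right]

/-! ### estimates -/

theorem one_sub_sq_le {w z : E} (hw : ‖w‖ < 1) (hz : ‖z‖ ≤ 1) :
    1 - ‖w‖ ^ 2 ≤ 2 * ‖1 - ⟪w, z⟫_ℂ‖ := by
  have h1 : 1 - ‖w‖ ≤ ‖1 - ⟪w, z⟫_ℂ‖ := by
    have h2 : ‖⟪w, z⟫_ℂ‖ ≤ ‖w‖ := by
      refine (norm_inner_le_norm w z).trans ?_
      nlinarith [norm_nonneg w, norm_nonneg z]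
    calc 1 - ‖w‖ ≤ ‖(1 : ℂ)‖ - ‖⟪w, z⟫_ℂ‖ := by rw [norm_one]; linarith
      _ ≤ _ := norm_sub_norm_le _ _
  nlinarith [norm_nonneg w]

theorem inner_low {w z : E} {t : ℝ} (hw : ‖w‖ < 1) (hz : ‖z‖ ≤ 1 - t / 40) :
    ‖1 - ⟪w, z⟫_ℂ‖ + t ≤ 41 * ‖1 - ⟪w, z⟫_ℂ‖ := by
  have h1 : 1 - ‖z‖ ≤ ‖1 - ⟪w, z⟫_ℂ‖ := by
    have h2 : ‖⟪w, z⟫_ℂ‖ ≤ ‖z‖ := by
      refine (norm_inner_le_norm w z).trans ?_
      nlinarith [norm_nonneg w, norm_nonneg z]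
    calc 1 - ‖z‖ ≤ ‖(1 : ℂ)‖ - ‖⟪w, z⟫_ℂ‖ := by rw [norm_one]; linarith
      _ ≤ _ := norm_sub_norm_le _ _
  linarith

theorem kint_eq (m : ℕ) {t : ℝ} (ht : 0 < t) (w z : E) :
    kint m t w z = Real.sqrt t * Real.sqrt (‖1 - ⟪w, z⟫_ℂ‖ + t) /
      (‖1 - ⟪w, z⟫_ℂ‖ + t) ^ (m + 3) := by
  unfold kint
  set Q := ‖1 - ⟪w, z⟫_ℂ‖ + t with hQ
  have hQ0 : 0 < Q := by positivity
  rw [one_div, Real.inv_rpow hQ0.le, Real.rpow_add hQ0,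
    show ((m : ℝ) + 2) = ((m + 2 : ℕ) : ℝ) by push_cast; ring, Real.rpow_natCast,
    ← Real.sqrt_eq_rpow]
  have h1 : Real.sqrt Q * Real.sqrt Q = Q := Real.mul_self_sqrt hQ0.le
  have h2 : 0 < Real.sqrt Q := Real.sqrt_pos.mpr hQ0
  have h4 : (Real.sqrt Q)⁻¹ = Real.sqrt Q / Q := by
    rw [eq_div_iff hQ0.ne']
    nth_rewrite 2 [← h1]
    field_simp
  rw [mul_inv, h4, pow_succ Q (m + 2)]
  field_simp

theorem kint_ge (m : ℕ) {t : ℝ} (ht : 0 < t) {w z : E} (hw : ‖w‖ < 1) (hz : ‖z‖ ≤ 1 - t / 40) :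
    Real.sqrt t * Real.sqrt (‖1 - ⟪w, z⟫_ℂ‖ + t) / ‖1 - ⟪w, z⟫_ℂ‖ ^ (m + 3) ≤
      41 ^ (m + 3) * kint m t w z := by
  rw [kint_eq m ht]
  have h1 := inner_low hw hz
  set D := ‖1 - ⟪w, z⟫_ℂ‖ with hD
  have hD0 : 0 < D := by
    have : 0 ≤ D := norm_nonneg _
    nlinarith
  have h2 : (D + t) ^ (m + 3) ≤ 41 ^ (m + 3) * D ^ (m + 3) := by
    rw [← mul_pow]
    exact pow_le_pow_left₀ (by positivity) h1 _
  rw [← mul_div_assoc, div_le_div_iff₀ (by positivity) (by positivity)]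
  calc Real.sqrt t * Real.sqrt (D + t) * (D + t) ^ (m + 3)
      ≤ Real.sqrt t * Real.sqrt (D + t) * (41 ^ (m + 3) * D ^ (m + 3)) := by gcongr
    _ = _ := by ring

/-- the three pointwise bounds -/
theorem bound_G' (m : ℕ) {t G' : ℝ} (ht : 0 < t) {w z : E} (hw : ‖w‖ < 1)
    (hz : ‖z‖ ≤ 1 - t / 40) {u : ℂ} (hG' : 0 ≤ G')
    (hu : (1 - ‖w‖ ^ 2) * ‖u‖ ≤ G' * Real.sqrt (t * (‖1 - ⟪w, z⟫_ℂ‖ + t))) :
    ‖u * (((1 - ‖w‖ ^ 2) ^ 2 : ℝ) : ℂ) / (1 - ⟪w, z⟫_ℂ) ^ (m + 4)‖ ≤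
      2 * 41 ^ (m + 3) * G' * kint m t w z := by
  have hz1 : ‖z‖ ≤ 1 := by linarith
  have h1 := one_sub_sq_le hw hz1
  have h2 := kint_ge m ht hw hz
  have h3 := inner_low hw hz
  have hw2 : 0 < 1 - ‖w‖ ^ 2 := by nlinarith [norm_nonneg w]
  rw [norm_div, norm_mul, Complex.norm_real, norm_pow (1 - ⟪w, z⟫_ℂ)]
  set D := ‖1 - ⟪w, z⟫_ℂ‖ with hD
  have hD0 : 0 < D := by
    have : 0 ≤ D := norm_nonneg _
    nlinarith
  rw [Real.norm_of_nonneg (by positivity)]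
  rw [Real.sqrt_mul ht.le] at hu
  calc ‖u‖ * (1 - ‖w‖ ^ 2) ^ 2 / D ^ (m + 4)
      = ((1 - ‖w‖ ^ 2) * ‖u‖) * (1 - ‖w‖ ^ 2) / D ^ (m + 4) := by ring
    _ ≤ (G' * (Real.sqrt t * Real.sqrt (D + t))) * (2 * D) / D ^ (m + 4) := by gcongr
    _ = 2 * G' * (Real.sqrt t * Real.sqrt (D + t) / D ^ (m + 3)) := by
        rw [pow_succ D (m + 3)]
        field_simp
    _ ≤ 2 * G' * (41 ^ (m + 3) * kint m t w z) := by gcongr
    _ = _ := by ring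

theorem bound_G (m : ℕ) {t G : ℝ} (ht : 0 < t) {w z : E} (hw : ‖w‖ < 1)
    (hz : ‖z‖ ≤ 1 - t / 40) {u : ℂ} (hG : 0 ≤ G)
    (hu : (1 - ‖w‖ ^ 2) * ‖u‖ ≤ G * t) :
    ‖u * (((1 - ‖w‖ ^ 2) ^ 2 : ℝ) : ℂ) / (1 - ⟪w, z⟫_ℂ) ^ (m + 4)‖ ≤
      2 * 41 ^ (m + 3) * G * kint m t w z := by
  apply bound_G' m ht hw hz hG
  refine hu.trans ?_
  apply mul_le_mul_of_nonneg_left _ hG
  apply Real.le_sqrt_of_sq_le
  nlinarith [norm_nonneg (1 - ⟪w, z⟫_ℂ)]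

theorem bound_cut (m : ℕ) {t G τ₁ : ℝ} (ht : 0 < t) {w z e : E} (he : ‖e‖ = 1)
    (hze : z = (‖z‖ : ℂ) • e) (hw : ‖w‖ < 1) (hz : ‖z‖ ≤ 1 - t / 40) {u : ℂ} (hG : 0 ≤ G)
    (hτ₁ : 0 < τ₁) (hu : (1 - ‖w‖ ^ 2) * ‖u‖ ≤ G * t) :
    ‖u * (1 - (cut (m + 2) τ₁ ‖z‖ ⟪e, w⟫_ℂ : ℂ)) * (((1 - ‖w‖ ^ 2) ^ 2 : ℝ) : ℂ) /
      (1 - ⟪w, z⟫_ℂ) ^ (m + 4)‖ ≤
      41 ^ (m + 3) * Real.sqrt (80 * (m + 2) * τ₁) * G * kint m t w z := by
  have hz1 : ‖z‖ < 1 := by linarith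
  have hz0 := norm_nonneg z
  have h1 := one_sub_sq_le hw hz1.le
  have h2 := kint_ge m ht hw hz
  have h3 := inner_low hw hz
  have hw2 : 0 < 1 - ‖w‖ ^ 2 := by nlinarith [norm_nonneg w]
  have haw : ‖⟪e, w⟫_ℂ‖ ≤ ‖w‖ := by
    refine (norm_inner_le_norm e w).trans ?_
    rw [he, one_mul]
  set a := ⟪e, w⟫_ℂ with ha
  have ha1 : ‖a‖ < 1 := haw.trans_lt hw
  have hτp := tau_pos hz0 hz1 ha1
  have hDa : ‖1 - (‖z‖ : ℂ) * (starRingEnd ℂ) a‖ = ‖1 - ⟪w, z⟫_ℂ‖ := by rw [inner_eq hze]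
  have hcut0 := cut_nonneg (M := m + 2) (τ₁ := τ₁) hτp
  have hcut1 := cut_le_one (M := m + 2) hτ₁.le hτp
  have hcut := one_sub_cut_le (M := m + 2) (by omega) hτ₁ hτp
  have hnc : ‖1 - (cut (m + 2) τ₁ ‖z‖ a : ℂ)‖ = 1 - cut (m + 2) τ₁ ‖z‖ a := by
    rw [show (1 - (cut (m + 2) τ₁ ‖z‖ a : ℂ)) = ((1 - cut (m + 2) τ₁ ‖z‖ a : ℝ) : ℂ) by
      push_cast; ring, Complex.norm_real, Real.norm_of_nonneg (by linarith)]
  rw [norm_div, norm_mul, norm_mul, hnc, Complex.norm_real, norm_pow (1 - ⟪w, z⟫_ℂ),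
    Real.norm_of_nonneg (by positivity)]
  set D := ‖1 - ⟪w, z⟫_ℂ‖ with hD
  have hD0 : 0 < D := by
    have : 0 ≤ D := norm_nonneg _
    nlinarith
  -- key inequality
  have hkey : (1 - cut (m + 2) τ₁ ‖z‖ a) * (1 - ‖w‖ ^ 2) ≤
      Real.sqrt (80 * (m + 2) * τ₁) * (Real.sqrt (D + t) * D / Real.sqrt t) := by
    have e1 : Real.sqrt (80 * (m + 2) * τ₁) * (Real.sqrt (D + t) * D / Real.sqrt t) =
        Real.sqrt (80 * (m + 2) * τ₁ * ((D + t) * D ^ 2 / t)) := by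
      rw [Real.sqrt_mul (x := 80 * (m + 2) * τ₁) (by positivity) ((D + t) * D ^ 2 / t),
        Real.sqrt_div (by positivity), Real.sqrt_mul (by positivity) (D ^ 2), Real.sqrt_sq hD0.le]
    have e2 : Real.sqrt (((m + 2 : ℕ) : ℝ) * τ₁ / tau ‖z‖ a) * (1 - ‖w‖ ^ 2) =
        Real.sqrt (((m + 2 : ℕ) : ℝ) * τ₁ / tau ‖z‖ a * (1 - ‖w‖ ^ 2) ^ 2) := by
      rw [Real.sqrt_mul (by positivity), Real.sqrt_sq hw2.le]
    calc _ ≤ Real.sqrt (((m + 2 : ℕ) : ℝ) * τ₁ / tau ‖z‖ a) * (1 - ‖w‖ ^ 2) := by gcongr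
      _ = _ := e2
      _ ≤ Real.sqrt (80 * (m + 2) * τ₁ * ((D + t) * D ^ 2 / t)) := by
        apply Real.sqrt_le_sqrt
        have e3 : ((m + 2 : ℕ) : ℝ) * τ₁ / tau ‖z‖ a * (1 - ‖w‖ ^ 2) ^ 2 =
            ((m + 2 : ℝ)) * τ₁ * (D ^ 2 * ((1 - ‖w‖ ^ 2) ^ 2 /
              ((1 - ‖z‖ ^ 2) * (1 - ‖a‖ ^ 2)))) := by
          unfold tau
          rw [hDa]
          push_cast
          field_simp
        rw [e3]
        have e4 : (1 - ‖w‖ ^ 2) ^ 2 / ((1 - ‖z‖ ^ 2) * (1 - ‖a‖ ^ 2)) ≤ 80 * (D + t) / t := by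
          have k1 : 1 - ‖w‖ ^ 2 ≤ 1 - ‖a‖ ^ 2 := by
            have : ‖a‖ ^ 2 ≤ ‖w‖ ^ 2 := pow_le_pow_left₀ (norm_nonneg _) haw 2
            linarith
          have k2 : t / 40 ≤ 1 - ‖z‖ ^ 2 := by nlinarith
          have k3 : 0 < 1 - ‖a‖ ^ 2 := by linarith
          have k4 : 0 < t / 40 := by positivity
          have k5 : 0 < 1 - ‖z‖ ^ 2 := by linarith
          rw [div_le_div_iff₀ (by positivity) ht]
          calc (1 - ‖w‖ ^ 2) ^ 2 * t = (1 - ‖w‖ ^ 2) * (1 - ‖w‖ ^ 2) * (40 * (t / 40)) := by ring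
            _ ≤ (2 * D) * (1 - ‖a‖ ^ 2) * (40 * (1 - ‖z‖ ^ 2)) := by gcongr
            _ = 80 * D * ((1 - ‖z‖ ^ 2) * (1 - ‖a‖ ^ 2)) := by ring
            _ ≤ 80 * (D + t) * ((1 - ‖z‖ ^ 2) * (1 - ‖a‖ ^ 2)) := by
              gcongr
              linarith
        calc ((m + 2 : ℝ)) * τ₁ * (D ^ 2 * ((1 - ‖w‖ ^ 2) ^ 2 /
              ((1 - ‖z‖ ^ 2) * (1 - ‖a‖ ^ 2)))) ≤ ((m + 2 : ℝ)) * τ₁ * (D ^ 2 *
              (80 * (D + t) / t)) := by gcongr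
          _ = _ := by ring
      _ = _ := e1.symm
  have hst : 0 < Real.sqrt t := Real.sqrt_pos.mpr ht
  have hst2 : Real.sqrt t * Real.sqrt t = t := Real.mul_self_sqrt ht.le
  calc ‖u‖ * (1 - cut (m + 2) τ₁ ‖z‖ a) * (1 - ‖w‖ ^ 2) ^ 2 / D ^ (m + 4)
      = ((1 - ‖w‖ ^ 2) * ‖u‖) * ((1 - cut (m + 2) τ₁ ‖z‖ a) * (1 - ‖w‖ ^ 2)) / D ^ (m + 4) := by
        ring
    _ ≤ (G * t) * (Real.sqrt (80 * (m + 2) * τ₁) * (Real.sqrt (D + t) * D / Real.sqrt t)) /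
        D ^ (m + 4) := by
        gcongr
    _ = Real.sqrt (80 * (m + 2) * τ₁) * G * (Real.sqrt t * Real.sqrt (D + t) / D ^ (m + 3)) := by
        rw [pow_succ D (m + 3)]
        nth_rewrite 1 [← hst2]
        field_simp
    _ ≤ Real.sqrt (80 * (m + 2) * τ₁) * G * (41 ^ (m + 3) * kint m t w z) := by gcongr
    _ = _ := by ring

variable [FiniteDimensional ℂ E] [MeasurableSpace E] [BorelSpace E]

theorem cw_pos (μ : Measure E) [μ.IsAddHaarMeasure] : 0 < cw μ := by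
  have : ProperSpace E := FiniteDimensional.proper ℂ E
  unfold cw
  rw [setIntegral_pos_iff_support_of_nonneg_ae]
  · have h1 : ball (0 : E) 1 ⊆ Function.support (fun w : E => (1 - ‖w‖ ^ 2) ^ 2) ∩ ball 0 1 := by
      intro w hw
      refine ⟨?_, hw⟩
      rw [mem_ball_zero_iff] at hw
      rw [Function.mem_support]
      have : 0 < 1 - ‖w‖ ^ 2 := by nlinarith [norm_nonneg w]
      positivity
    exact (measure_ball_pos μ 0 one_pos).trans_le (measure_mono h1)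
  · exact Eventually.of_forall fun w => by positivity
  · have hc : Continuous (fun w : E => (1 - ‖w‖ ^ 2) ^ 2) := by fun_prop
    exact (hc.continuousOn.integrableOn_compact (isCompact_closedBall 0 1)).mono_set
      ball_subset_closedBall

/-- Reproduction of functions holomorphic in a slab. -/
theorem cut_ball (μ : Measure E) [μ.IsAddHaarMeasure] (m : ℕ)
    (hm : 1 ≤ m) (hdim : Module.finrank ℂ E = m + 1) {Φ : E → ℂ} {z e : E} {τ₀ τ₁ B : ℝ}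
    (he : ‖e‖ = 1) (hze : z = (‖z‖ : ℂ) • e) (hz : ‖z‖ < 1) (hτ₀ : 0 < τ₀) (hτ : τ₀ < τ₁)
    (hτ₁ : τ₁ < 1) (hΦ : DifferentiableOn ℂ Φ {w | ‖w‖ < 1 ∧ τ₀ < tau ‖z‖ ⟪e, w⟫_ℂ})
    (hB : ∀ w, ‖w‖ < 1 → τ₀ < tau ‖z‖ ⟪e, w⟫_ℂ → ‖Φ w‖ ≤ B) :
    IntegrableOn (fun w => Φ w * (cut (m + 2) τ₁ ‖z‖ ⟪e, w⟫_ℂ : ℂ) *
      (((1 - ‖w‖ ^ 2) ^ 2 : ℝ) : ℂ) / (1 - ⟪w, z⟫_ℂ) ^ (m + 4)) (ball 0 1) μ ∧
    ∫ w in ball (0 : E) 1, Φ w * (cut (m + 2) τ₁ ‖z‖ ⟪e, w⟫_ℂ : ℂ) *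
      (((1 - ‖w‖ ^ 2) ^ 2 : ℝ) : ℂ) / (1 - ⟪w, z⟫_ℂ) ^ (m + 4) ∂μ =
      (cw μ : ℂ) * (((1 - τ₁) ^ (m + 3) : ℝ) : ℂ) * Φ z := by
  have hprop : ProperSpace E := FiniteDimensional.proper ℂ E
  have hz0 : 0 ≤ ‖z‖ := norm_nonneg z
  have hlt : ∀ w : E, ‖w‖ < 1 → ‖⟪e, w⟫_ℂ‖ < 1 := by
    intro w hw
    refine (norm_inner_le_norm e w).trans_lt ?_
    rw [he, one_mul]; exact hw
  have hlow : ∀ a : ℂ, ‖a‖ < 1 → 1 - ‖z‖ ≤ ‖1 - (‖z‖ : ℂ) * (starRingEnd ℂ) a‖ := by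
    intro a ha
    have h3 : ‖(‖z‖ : ℂ) * (starRingEnd ℂ) a‖ ≤ ‖z‖ := by
      rw [norm_mul, RCLike.norm_conj, Complex.norm_real, norm_norm]
      nlinarith
    calc 1 - ‖z‖ ≤ ‖(1 : ℂ)‖ - ‖(‖z‖ : ℂ) * (starRingEnd ℂ) a‖ := by rw [norm_one]; linarith
      _ ≤ _ := norm_sub_norm_le _ _
  set κ : ℂ → ℂ := fun a => (cut (m + 2) τ₁ ‖z‖ a : ℂ) /
    (1 - (‖z‖ : ℂ) * (starRingEnd ℂ) a) ^ (m + 4) with hκ
  have hκc : ContinuousOn κ (ball 0 1) := by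
    apply ContinuousOn.div
    · exact Complex.continuous_ofReal.comp_continuousOn (cut_continuousOn (m + 2) hz0 hz)
    · apply Continuous.continuousOn
      fun_prop
    · intro a ha
      rw [mem_ball_zero_iff] at ha
      apply pow_ne_zero
      rw [← norm_pos_iff]
      linarith [hlow a ha]
  have hκb : ∀ a ∈ ball (0 : ℂ) 1, ‖κ a‖ ≤ 1 / (1 - ‖z‖) ^ (m + 4) := by
    intro a ha
    rw [mem_ball_zero_iff] at ha
    rw [hκ, norm_div, Complex.norm_real, norm_pow]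
    have hp := tau_pos hz0 hz ha
    rw [Real.norm_of_nonneg (cut_nonneg hp)]
    apply div_le_div₀ zero_le_one (cut_le_one (hτ₀.trans hτ).le hp) (pow_pos (by linarith) _)
    exact pow_le_pow_left₀ (by linarith) (hlow a ha) _
  set S : Set ℂ := {a : ℂ | ‖a‖ < 1 ∧ τ₀ < tau ‖z‖ a} with hS
  have hSo : IsOpen S := isOpen_slab hz0 hz τ₀
  have hκ0 : ∀ a, a ∉ S → κ a = 0 := by
    intro a ha
    have h1 : tau ‖z‖ a ≤ τ₁ := by
      by_contra hcon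
      rw [not_le] at hcon
      apply ha
      refine ⟨?_, by linarith⟩
      by_contra h2
      have := tau_le_of_one_le hz0 hz (not_lt.mp h2)
      linarith
    simp only [hκ]
    rw [cut_zero (by omega) h1]
    simp
  have hset : {w : E | ‖w‖ < 1 ∧ ⟪e, w⟫_ℂ ∈ S} = {w | ‖w‖ < 1 ∧ τ₀ < tau ‖z‖ ⟪e, w⟫_ℂ} := by
    ext w
    constructor
    · exact fun h => ⟨h.1, h.2.2⟩
    · exact fun h => ⟨h.1, hlt w h.1, h.2⟩
  have hfun : ∀ w : E, Φ w * (cut (m + 2) τ₁ ‖z‖ ⟪e, w⟫_ℂ : ℂ) *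
      (((1 - ‖w‖ ^ 2) ^ 2 : ℝ) : ℂ) / (1 - ⟪w, z⟫_ℂ) ^ (m + 4) =
      Φ w * κ ⟪e, w⟫_ℂ * (((1 - ‖w‖ ^ 2) ^ 2 : ℝ) : ℂ) := by
    intro w
    rw [inner_eq hze]
    simp only [hκ]
    ring
  simp only [hfun]
  obtain ⟨C, hC⟩ := ball_integral_w μ e he m hm hdim
  constructor
  · -- integrability
    have hslabo : IsOpen {w : E | ‖w‖ < 1 ∧ ⟪e, w⟫_ℂ ∈ S} := by
      have h1 : IsOpen {w : E | ‖w‖ < 1} := isOpen_lt continuous_norm continuous_const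
      exact h1.inter (hSo.preimage (innerSL ℂ e).continuous)
    have hcont : ContinuousOn (fun w => Φ w * κ ⟪e, w⟫_ℂ * (((1 - ‖w‖ ^ 2) ^ 2 : ℝ) : ℂ))
        {w : E | ‖w‖ < 1 ∧ ⟪e, w⟫_ℂ ∈ S} := by
      apply ContinuousOn.mul
      · apply ContinuousOn.mul
        · rw [hset]; exact hΦ.continuousOn
        · apply hκc.comp (innerSL ℂ e).continuous.continuousOn
          intro w hw
          rw [mem_ball_zero_iff]
          exact hlt w hw.1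
      · apply Continuous.continuousOn
        fun_prop
    have hbd : ∀ w ∈ {w : E | ‖w‖ < 1 ∧ ⟪e, w⟫_ℂ ∈ S},
        ‖Φ w * κ ⟪e, w⟫_ℂ * (((1 - ‖w‖ ^ 2) ^ 2 : ℝ) : ℂ)‖ ≤ B * (1 / (1 - ‖z‖) ^ (m + 4)) * 1 := by
      intro w hw
      have hB0 : 0 ≤ B := (norm_nonneg _).trans (hB w hw.1 hw.2.2)
      have h1z : 0 < 1 - ‖z‖ := by linarith
      rw [norm_mul, norm_mul, Complex.norm_real]
      apply mul_le_mul _ _ (norm_nonneg _) (by positivity)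
      · apply mul_le_mul (hB w hw.1 hw.2.2) _ (norm_nonneg _) hB0
        exact hκb _ (by rw [mem_ball_zero_iff]; exact hlt w hw.1)
      · rw [Real.norm_of_nonneg (by positivity)]
        have : 0 ≤ 1 - ‖w‖ ^ 2 := by nlinarith [norm_nonneg w, hw.1]
        apply pow_le_one₀ this
        nlinarith [sq_nonneg ‖w‖]
    have hint : IntegrableOn (fun w => Φ w * κ ⟪e, w⟫_ℂ * (((1 - ‖w‖ ^ 2) ^ 2 : ℝ) : ℂ))
        {w : E | ‖w‖ < 1 ∧ ⟪e, w⟫_ℂ ∈ S} μ := by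
      have hfin : IsFiniteMeasure (μ.restrict {w : E | ‖w‖ < 1 ∧ ⟪e, w⟫_ℂ ∈ S}) := by
        refine ⟨?_⟩
        rw [Measure.restrict_apply_univ]
        refine (measure_mono (t := ball 0 1) ?_).trans_lt measure_ball_lt_top
        intro w hw
        rw [mem_ball_zero_iff]; exact hw.1
      refine Integrable.mono' (g := fun _ => B * (1 / (1 - ‖z‖) ^ (m + 4)) * 1)
        (integrable_const _) (hcont.aestronglyMeasurable hslabo.measurableSet) ?_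
      exact (ae_restrict_iff' hslabo.measurableSet).mpr (Eventually.of_forall hbd)
    have hint2 := hint.integrable_indicator hslabo.measurableSet
    have e1 : (fun w => Φ w * κ ⟪e, w⟫_ℂ * (((1 - ‖w‖ ^ 2) ^ 2 : ℝ) : ℂ)) =ᵐ[μ.restrict (ball 0 1)]
        {w : E | ‖w‖ < 1 ∧ ⟪e, w⟫_ℂ ∈ S}.indicator
        (fun w => Φ w * κ ⟪e, w⟫_ℂ * (((1 - ‖w‖ ^ 2) ^ 2 : ℝ) : ℂ)) := by
      refine (ae_restrict_iff' measurableSet_ball).mpr (Eventually.of_forall fun w hw => ?_)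
      by_cases hwS : ⟪e, w⟫_ℂ ∈ S
      · rw [indicator_of_mem]
        exact ⟨by simpa using hw, hwS⟩
      · have h0 : Φ w * κ ⟪e, w⟫_ℂ * (((1 - ‖w‖ ^ 2) ^ 2 : ℝ) : ℂ) = 0 := by
          rw [hκ0 _ hwS, mul_zero, zero_mul]
        rw [indicator_of_notMem (fun h => hwS h.2)]
        exact h0
    exact (hint2.integrableOn).congr e1.symm
  · have h1 := hC S Φ κ B (1 / (1 - ‖z‖) ^ (m + 4)) hSo (by rw [hset]; exact hΦ)
      (fun w hw hwS => hB w hw hwS.2) hκc hκb hκ0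
    rw [h1]
    have h2 := hC univ (fun _ => 1) (fun _ => 1) 1 1 isOpen_univ (differentiableOn_const _)
      (fun _ _ _ => by simp) continuousOn_const (fun _ _ => by simp)
      (fun a ha => absurd (mem_univ a) ha)
    have h3 : ∫ w in ball (0 : E) 1, (1 : ℂ) * 1 * (((1 - ‖w‖ ^ 2) ^ 2 : ℝ) : ℂ) ∂μ =
        (cw μ : ℂ) := by
      unfold cw
      rw [← integral_complex_ofReal]
      simp
    rw [h3] at h2
    have h4 := bergman_disc (m + 2) (by omega) (φ := fun _ => 1) (R := 2) one_lt_two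
      (differentiableOn_const _) (x := 0) (by simp)
    have h5 : ∫ a in ball (0 : ℂ) 1, (1 : ℂ) * 1 * ((1 - ‖a‖ ^ 2 : ℝ) : ℂ) ^ (m + 2) =
        Real.pi / ((m + 2 : ℕ) + 1) := by
      rw [mul_one] at h4
      rw [← h4]
      apply setIntegral_congr_fun measurableSet_ball
      intro a _
      simp
    rw [h5] at h2
    have h6 := cut_disc (m + 2) (by omega) (φ := fun a => Φ (a • e)) hz0 hz hτ₀ hτ hτ₁ (by
      apply hΦ.comp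
      · exact (differentiable_id.smul_const e).differentiableOn
      · intro a ha
        refine ⟨?_, ?_⟩
        · rw [norm_smul, he, mul_one]; exact ha.1
        · rw [inner_smul_right, inner_self_eq_norm_sq_to_K, he]; simpa using ha.2)
    have h7 : ∫ a in ball (0 : ℂ) 1, Φ (a • e) * κ a * ((1 - ‖a‖ ^ 2 : ℝ) : ℂ) ^ (m + 2) =
        ∫ a in ball (0 : ℂ) 1, Φ (a • e) * (cut (m + 2) τ₁ ‖z‖ a : ℂ) *
          ((1 - ‖a‖ ^ 2 : ℝ) : ℂ) ^ (m + 2) / (1 - (‖z‖ : ℂ) * (starRingEnd ℂ) a) ^ (m + 2 + 2) := by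
      apply setIntegral_congr_fun measurableSet_ball
      intro a _
      simp only [hκ]
      ring
    rw [h7, h6, h2, ← hze]
    ring

/-- boundedness of the weighted Bergman projection -/
theorem PP_bound (μ : Measure E) [μ.IsAddHaarMeasure] (m : ℕ)
    (hm : 1 ≤ m) (hdim : Module.finrank ℂ E = m + 1) :
    ∃ CK : ℝ, 0 < CK ∧ ∀ (t G : ℝ) (z : E) (F : E → ℂ), 0 < t → ‖z‖ ≤ 1 - t / 40 → 0 ≤ G →
      (∀ w ∈ ball (0 : E) 1, (1 - ‖w‖ ^ 2) * ‖F w‖ ≤ G * t) → ‖PP μ m F z‖ ≤ CK * G := by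
  obtain ⟨C, hC0, hC⟩ := kernel_int μ m hm hdim
  have hcw := cw_pos μ
  refine ⟨(cw μ)⁻¹ * (2 * 41 ^ (m + 3) * C), by positivity, fun t G z F ht hz hG hF => ?_⟩
  have hz1 : ‖z‖ ≤ 1 := by linarith
  obtain ⟨hki, hkb⟩ := hC z hz1 t ht
  unfold PP
  rw [norm_mul, norm_inv, Complex.norm_real, Real.norm_of_nonneg hcw.le]
  have h1 : ‖∫ w in ball (0 : E) 1, F w * (((1 - ‖w‖ ^ 2) ^ 2 : ℝ) : ℂ) /
      (1 - ⟪w, z⟫_ℂ) ^ (m + 4) ∂μ‖ ≤ ∫ w in ball (0 : E) 1, 2 * 41 ^ (m + 3) * G * kint m t w z ∂μ := by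
    apply norm_integral_le_of_norm_le (hki.const_mul _)
    refine (ae_restrict_iff' measurableSet_ball).mpr (Eventually.of_forall fun w hw => ?_)
    exact bound_G m ht (by simpa using hw) hz hG (hF w hw)
  rw [integral_const_mul] at h1
  calc _ ≤ (cw μ)⁻¹ * (2 * 41 ^ (m + 3) * G * C) := by
        gcongr
        refine h1.trans ?_
        gcongr
        exact hkb
    _ = _ := by ring

/-- holomorphy of the weighted Bergman projection -/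
theorem PP_holo (μ : Measure E) [μ.IsAddHaarMeasure] (m : ℕ) {F : E → ℂ} {B : ℝ}
    (hF : AEStronglyMeasurable F (μ.restrict (ball 0 1))) (hB : ∀ w ∈ ball (0 : E) 1, ‖F w‖ ≤ B) :
    DifferentiableOn ℂ (PP μ m F) (ball 0 1) := by
  have hprop : ProperSpace E := FiniteDimensional.proper ℂ E
  intro z₀ hz₀
  apply DifferentiableAt.differentiableWithinAt
  rw [mem_ball_zero_iff] at hz₀
  have hB0 : 0 ≤ B := (norm_nonneg _).trans (hB 0 (mem_ball_self one_pos))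
  set r : ℝ := (1 - ‖z₀‖) / 2 with hr
  have hr0 : 0 < r := by rw [hr]; linarith
  have hlow : ∀ z ∈ ball z₀ r, ∀ w ∈ ball (0 : E) 1, r ≤ ‖1 - ⟪w, z⟫_ℂ‖ := by
    intro z hz w hw
    rw [mem_ball_zero_iff] at hw
    rw [mem_ball, dist_eq_norm] at hz
    have h1 : ‖z‖ ≤ 1 - r := by
      have := norm_le_insert' z z₀
      linarith
    have h2 : ‖⟪w, z⟫_ℂ‖ ≤ ‖z‖ := by
      refine (norm_inner_le_norm w z).trans ?_
      nlinarith [norm_nonneg w, norm_nonneg z]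
    calc r ≤ ‖(1 : ℂ)‖ - ‖⟪w, z⟫_ℂ‖ := by rw [norm_one]; linarith
      _ ≤ _ := norm_sub_norm_le _ _
  unfold PP
  apply DifferentiableAt.const_mul
  have hfin : IsFiniteMeasure (μ.restrict (ball (0 : E) 1)) :=
    ⟨by rw [Measure.restrict_apply_univ]; exact measure_ball_lt_top⟩
  refine differentiableAt_integral (G := fun z w => F w * (((1 - ‖w‖ ^ 2) ^ 2 : ℝ) : ℂ) /
    (1 - ⟪w, z⟫_ℂ) ^ (m + 4)) hr0 (g := fun _ => B * 1 / r ^ (m + 4)) ?_ ?_ (integrable_const _) ?_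
  · refine (ae_restrict_iff' measurableSet_ball).mpr (Eventually.of_forall fun w hw => ?_)
    intro z hz
    apply DifferentiableAt.differentiableWithinAt
    have h1 : DifferentiableAt ℂ (fun z : E => (1 - ⟪w, z⟫_ℂ) ^ (m + 4)) z := by
      apply DifferentiableAt.pow
      apply (differentiableAt_const _).sub
      exact (innerSL ℂ w).differentiableAt
    have hne : (1 - ⟪w, z⟫_ℂ) ^ (m + 4) ≠ 0 := by
      apply pow_ne_zero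
      rw [← norm_pos_iff]
      linarith [hlow z hz w hw]
    have h2 := (h1.inv hne).const_mul (F w * (((1 - ‖w‖ ^ 2) ^ 2 : ℝ) : ℂ))
    refine h2.congr_of_eventuallyEq (Eventually.of_forall fun b => ?_)
    simp only [div_eq_mul_inv, Pi.inv_apply]
  · intro z hz
    have hc : ContinuousOn (fun w : E => (((1 - ‖w‖ ^ 2) ^ 2 : ℝ) : ℂ) /
        (1 - ⟪w, z⟫_ℂ) ^ (m + 4)) (ball 0 1) := by
      apply ContinuousOn.div
      · apply Continuous.continuousOn; fun_prop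
      · apply Continuous.continuousOn; fun_prop
      · intro w hw
        apply pow_ne_zero
        rw [← norm_pos_iff]
        linarith [hlow z hz w hw]
    have := hF.mul (hc.aestronglyMeasurable measurableSet_ball)
    refine this.congr (Eventually.of_forall fun w => ?_)
    simp only [Pi.mul_apply, mul_div_assoc]
  · refine (ae_restrict_iff' measurableSet_ball).mpr (Eventually.of_forall fun w hw => ?_)
    intro z hz
    have h1 := hlow z hz w hw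
    rw [norm_div, norm_mul, Complex.norm_real, norm_pow (1 - ⟪w, z⟫_ℂ)]
    have h2 : ‖(1 - ‖w‖ ^ 2) ^ 2‖ ≤ 1 := by
      rw [mem_ball_zero_iff] at hw
      rw [Real.norm_of_nonneg (by positivity)]
      have : 0 ≤ 1 - ‖w‖ ^ 2 := by nlinarith [norm_nonneg w]
      apply pow_le_one₀ this
      nlinarith [sq_nonneg ‖w‖]
    have h3 := hB w hw
    gcongr

/-- The weighted Bergman projection of a function that is nearly holomorphic near `z`. -/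
theorem PP_local (μ : Measure E) [μ.IsAddHaarMeasure] (m : ℕ)
    (hm : 1 ≤ m) (hdim : Module.finrank ℂ E = m + 1) :
    ∃ CK : ℝ, 0 < CK ∧ ∀ (t X G G' MΦ : ℝ) (z : E) (F Φ : E → ℂ), 0 < t → t ≤ 1 → 20 ≤ X →
      1 - 4 * t ≤ ‖z‖ → ‖z‖ ≤ 1 - t / 40 → 0 ≤ G → 0 ≤ G' →
      AEStronglyMeasurable F (μ.restrict (ball 0 1)) →
      (∀ w ∈ ball (0 : E) 1, (1 - ‖w‖ ^ 2) * ‖F w‖ ≤ G * t) →
      DifferentiableOn ℂ Φ {w ∈ ball (0 : E) 1 | ‖1 - ⟪w, z⟫_ℂ‖ < t * X} →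
      (∀ w ∈ ball (0 : E) 1, ‖1 - ⟪w, z⟫_ℂ‖ < t * X → ‖Φ w‖ ≤ MΦ) →
      (∀ w ∈ ball (0 : E) 1, ‖1 - ⟪w, z⟫_ℂ‖ < t * X →
        (1 - ‖w‖ ^ 2) * ‖F w - Φ w‖ ≤ G' * Real.sqrt (t * (‖1 - ⟪w, z⟫_ℂ‖ + t))) →
      ‖PP μ m F z - Φ z‖ ≤ CK * (G' + G / Real.sqrt X) := by
  obtain ⟨C, hC0, hC⟩ := kernel_int μ m hm hdim
  have hcw := cw_pos μ
  set A : ℝ := (cw μ)⁻¹ * (41 ^ (m + 3) * C * (2 + Real.sqrt (1360 * (m + 2)))) with hA
  have hA0 : 0 < A := by positivity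
  refine ⟨A + 680 * (m + 3), by positivity, fun t X G G' MΦ z F Φ ht ht1 hX hz1 hz2 hG hG' hFm hF
    hΦ hΦb hdiff => ?_⟩
  have hX0 : 0 < X := by linarith
  have hz : ‖z‖ < 1 := by linarith
  have hz0 := norm_nonneg z
  obtain ⟨e, he, hze⟩ := exists_unit m hdim z
  set τ₀ : ℝ := 33 / 2 / X with hτ₀
  set τ₁ : ℝ := 17 / X with hτ₁
  have hτ₀0 : 0 < τ₀ := by positivity
  have hτ₁0 : 0 < τ₁ := by positivity
  have hτ : τ₀ < τ₁ := by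
    rw [hτ₀, hτ₁]
    gcongr
    norm_num
  have hτ₁1 : τ₁ < 1 := by
    rw [hτ₁, div_lt_one hX0]; linarith
  have hlt : ∀ w : E, ‖w‖ < 1 → ‖⟪e, w⟫_ℂ‖ < 1 := by
    intro w hw
    refine (norm_inner_le_norm e w).trans_lt ?_
    rw [he, one_mul]; exact hw
  have hDpos : ∀ w : E, ‖w‖ < 1 → 0 < ‖1 - ⟪w, z⟫_ℂ‖ := by
    intro w hw
    have h3 := inner_low hw hz2
    have : 0 ≤ ‖1 - ⟪w, z⟫_ℂ‖ := norm_nonneg _
    nlinarith
  have hregion : ∀ w : E, ‖w‖ < 1 → τ₀ < tau ‖z‖ ⟪e, w⟫_ℂ → ‖1 - ⟪w, z⟫_ℂ‖ < t * X := by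
    intro w hw hτw
    have hD0 := hDpos w hw
    have hDa : ‖1 - (‖z‖ : ℂ) * (starRingEnd ℂ) ⟪e, w⟫_ℂ‖ = ‖1 - ⟪w, z⟫_ℂ‖ := by rw [inner_eq hze]
    unfold tau at hτw
    rw [hDa, lt_div_iff₀ (by positivity)] at hτw
    have ha1 := hlt w hw
    set D := ‖1 - ⟪w, z⟫_ℂ‖ with hD
    set a := ⟪e, w⟫_ℂ with ha
    have h1 : 1 - ‖a‖ ^ 2 ≤ 2 * D := by
      have h2 : ‖(‖z‖ : ℂ) * (starRingEnd ℂ) a‖ ≤ ‖a‖ := by
        rw [norm_mul, RCLike.norm_conj, Complex.norm_real, norm_norm]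
        nlinarith [norm_nonneg a]
      have h3 : 1 - ‖a‖ ≤ D := by
        rw [← hDa]
        calc 1 - ‖a‖ ≤ ‖(1 : ℂ)‖ - ‖(‖z‖ : ℂ) * (starRingEnd ℂ) a‖ := by rw [norm_one]; linarith
          _ ≤ _ := norm_sub_norm_le _ _
      nlinarith [norm_nonneg a]
    have h4 : 1 - ‖z‖ ^ 2 ≤ 8 * t := by nlinarith
    have h5 : 0 < 1 - ‖a‖ ^ 2 := by nlinarith [norm_nonneg a]
    have h6 : τ₀ * D ^ 2 < 16 * t * D := by
      calc τ₀ * D ^ 2 < (1 - ‖z‖ ^ 2) * (1 - ‖a‖ ^ 2) := hτw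
        _ ≤ 8 * t * (2 * D) := by
          apply mul_le_mul h4 h1 h5.le (by positivity)
        _ = 16 * t * D := by ring
    have h7 : τ₀ * D < 16 * t := by
      by_contra hcon
      rw [not_lt] at hcon
      nlinarith
    rw [hτ₀, div_mul_eq_mul_div, div_lt_iff₀ hX0] at h7
    nlinarith
  have hzball : z ∈ ball (0 : E) 1 := by rw [mem_ball_zero_iff]; exact hz
  have hzz : ‖1 - ⟪z, z⟫_ℂ‖ = 1 - ‖z‖ ^ 2 := by
    rw [inner_self_eq_norm_sq_to_K]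
    have : (1 - ((‖z‖ : ℝ) : ℂ) ^ 2) = ((1 - ‖z‖ ^ 2 : ℝ) : ℂ) := by push_cast; ring
    have h2 : 0 < 1 - ‖z‖ ^ 2 := by nlinarith
    calc ‖1 - ((‖z‖ : ℝ) : ℂ) ^ 2‖ = ‖((1 - ‖z‖ ^ 2 : ℝ) : ℂ)‖ := by rw [this]
      _ = _ := by rw [Complex.norm_real, Real.norm_of_nonneg h2.le]
  have hz8 : 1 - ‖z‖ ^ 2 ≤ 8 * t := by nlinarith
  have hzlt : ‖1 - ⟪z, z⟫_ℂ‖ < t * X := by
    rw [hzz]; nlinarith
  -- bound for Φ z
  have hΦz : ‖Φ z‖ ≤ 40 * (G + 3 * G') := by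
    have h1 := hF z hzball
    have h2 := hdiff z hzball hzlt
    rw [hzz] at h2
    have h3 : Real.sqrt (t * (1 - ‖z‖ ^ 2 + t)) ≤ 3 * t := by
      rw [Real.sqrt_le_left (by positivity)]
      nlinarith
    have h4 : t / 40 ≤ 1 - ‖z‖ ^ 2 := by nlinarith
    have h5 : ‖Φ z‖ ≤ ‖F z‖ + ‖F z - Φ z‖ := by
      have := norm_sub_le (F z) (F z - Φ z)
      simpa using this
    have h6 : (1 - ‖z‖ ^ 2) * ‖Φ z‖ ≤ G * t + G' * (3 * t) := by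
      calc (1 - ‖z‖ ^ 2) * ‖Φ z‖ ≤ (1 - ‖z‖ ^ 2) * (‖F z‖ + ‖F z - Φ z‖) := by
            apply mul_le_mul_of_nonneg_left h5; linarith
        _ ≤ G * t + G' * Real.sqrt (t * (1 - ‖z‖ ^ 2 + t)) := by linarith
        _ ≤ _ := by gcongr
    have h7 : t / 40 * ‖Φ z‖ ≤ (1 - ‖z‖ ^ 2) * ‖Φ z‖ := by gcongr
    have h8 : t / 40 * ‖Φ z‖ ≤ t / 40 * (40 * (G + 3 * G')) := by linarith
    exact le_of_mul_le_mul_left h8 (by positivity)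
  -- the reproducing formula
  obtain ⟨hcI, hcV⟩ := cut_ball μ m hm hdim he hze hz hτ₀0 hτ hτ₁1
    (hΦ.mono fun w hw => ⟨by simpa using hw.1, hregion w hw.1 hw.2⟩)
    (fun w hw hwτ => hΦb w (by simpa using hw) (hregion w hw hwτ))
  obtain ⟨hki, hkb⟩ := hC z hz.le t ht
  have hkb' : ∫ w in ball (0 : E) 1, kint m t w z ∂μ ≤ C := hkb
  -- integrability of the first integrand
  have hFI : IntegrableOn (fun w => F w * (((1 - ‖w‖ ^ 2) ^ 2 : ℝ) : ℂ) /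
      (1 - ⟪w, z⟫_ℂ) ^ (m + 4)) (ball 0 1) μ := by
    refine Integrable.mono' (hki.const_mul (2 * 41 ^ (m + 3) * G)) ?_ ?_
    · have hc : ContinuousOn (fun w : E => (((1 - ‖w‖ ^ 2) ^ 2 : ℝ) : ℂ) /
          (1 - ⟪w, z⟫_ℂ) ^ (m + 4)) (ball 0 1) := by
        apply ContinuousOn.div
        · apply Continuous.continuousOn; fun_prop
        · apply Continuous.continuousOn; fun_prop
        · intro w hw
          apply pow_ne_zero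
          rw [← norm_pos_iff]
          exact hDpos w (by simpa using hw)
      have := hFm.mul (hc.aestronglyMeasurable measurableSet_ball)
      refine this.congr (Eventually.of_forall fun w => ?_)
      simp only [Pi.mul_apply, mul_div_assoc]
    · refine (ae_restrict_iff' measurableSet_ball).mpr (Eventually.of_forall fun w hw => ?_)
      exact bound_G m ht (by simpa using hw) hz2 hG (hF w hw)
  have hdiffint : PP μ m F z - (((1 - τ₁) ^ (m + 3) : ℝ) : ℂ) * Φ z = (cw μ : ℂ)⁻¹ *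
      ∫ w in ball (0 : E) 1, (F w * (((1 - ‖w‖ ^ 2) ^ 2 : ℝ) : ℂ) / (1 - ⟪w, z⟫_ℂ) ^ (m + 4) -
        Φ w * (cut (m + 2) τ₁ ‖z‖ ⟪e, w⟫_ℂ : ℂ) *
      (((1 - ‖w‖ ^ 2) ^ 2 : ℝ) : ℂ) / (1 - ⟪w, z⟫_ℂ) ^ (m + 4)) ∂μ := by
    rw [integral_sub hFI hcI, hcV, mul_sub]
    unfold PP
    have hcw' : (cw μ : ℂ) ≠ 0 := by exact_mod_cast hcw.ne'
    congr 1
    field_simp
  have hmain : ‖∫ w in ball (0 : E) 1, (F w * (((1 - ‖w‖ ^ 2) ^ 2 : ℝ) : ℂ) /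
      (1 - ⟪w, z⟫_ℂ) ^ (m + 4) - Φ w * (cut (m + 2) τ₁ ‖z‖ ⟪e, w⟫_ℂ : ℂ) *
      (((1 - ‖w‖ ^ 2) ^ 2 : ℝ) : ℂ) / (1 - ⟪w, z⟫_ℂ) ^ (m + 4)) ∂μ‖ ≤
      ∫ w in ball (0 : E) 1, (2 * 41 ^ (m + 3) * G' +
        41 ^ (m + 3) * Real.sqrt (80 * (m + 2) * τ₁) * G) * kint m t w z ∂μ := by
    apply norm_integral_le_of_norm_le (hki.const_mul _)
    refine (ae_restrict_iff' measurableSet_ball).mpr (Eventually.of_forall fun w hw => ?_)
    have hwb := hw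
    rw [mem_ball_zero_iff] at hw
    have ha1 := hlt w hw
    have hτp := tau_pos hz0 hz ha1
    have e1 : F w * (((1 - ‖w‖ ^ 2) ^ 2 : ℝ) : ℂ) / (1 - ⟪w, z⟫_ℂ) ^ (m + 4) -
        Φ w * (cut (m + 2) τ₁ ‖z‖ ⟪e, w⟫_ℂ : ℂ) *
        (((1 - ‖w‖ ^ 2) ^ 2 : ℝ) : ℂ) / (1 - ⟪w, z⟫_ℂ) ^ (m + 4) =
        ((cut (m + 2) τ₁ ‖z‖ ⟪e, w⟫_ℂ : ℂ) * (F w - Φ w)) * (((1 - ‖w‖ ^ 2) ^ 2 : ℝ) : ℂ) /
          (1 - ⟪w, z⟫_ℂ) ^ (m + 4) +
        F w * (1 - (cut (m + 2) τ₁ ‖z‖ ⟪e, w⟫_ℂ : ℂ)) * (((1 - ‖w‖ ^ 2) ^ 2 : ℝ) : ℂ) /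
          (1 - ⟪w, z⟫_ℂ) ^ (m + 4) := by ring
    rw [e1]
    have b2 := bound_cut m ht he hze hw hz2 hG hτ₁0 (hF w hwb)
    have b1 : ‖((cut (m + 2) τ₁ ‖z‖ ⟪e, w⟫_ℂ : ℂ) * (F w - Φ w)) *
        (((1 - ‖w‖ ^ 2) ^ 2 : ℝ) : ℂ) / (1 - ⟪w, z⟫_ℂ) ^ (m + 4)‖ ≤
        2 * 41 ^ (m + 3) * G' * kint m t w z := by
      apply bound_G' m ht hw hz2 hG'
      rcases le_or_gt (tau ‖z‖ ⟪e, w⟫_ℂ) τ₁ with hcase | hcase
      · rw [cut_zero (by omega) hcase]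
        simp only [Complex.ofReal_zero, zero_mul, norm_zero, mul_zero]
        positivity
      · have hreg := hregion w hw (hτ.trans hcase)
        refine le_trans ?_ (hdiff w hwb hreg)
        have hw2 : 0 ≤ 1 - ‖w‖ ^ 2 := by nlinarith [norm_nonneg w]
        apply mul_le_mul_of_nonneg_left _ hw2
        rw [norm_mul, Complex.norm_real, Real.norm_of_nonneg (cut_nonneg hτp)]
        have := cut_le_one (M := m + 2) hτ₁0.le hτp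
        nlinarith [norm_nonneg (F w - Φ w)]
    calc _ ≤ _ := norm_add_le _ _
      _ ≤ 2 * 41 ^ (m + 3) * G' * kint m t w z +
          41 ^ (m + 3) * Real.sqrt (80 * (m + 2) * τ₁) * G * kint m t w z := add_le_add b1 b2
      _ = (2 * 41 ^ (m + 3) * G' +
        41 ^ (m + 3) * Real.sqrt (80 * (m + 2) * τ₁) * G) * kint m t w z := by ring
  rw [integral_const_mul] at hmain
  have hsq : Real.sqrt (80 * (m + 2) * τ₁) = Real.sqrt (1360 * (m + 2)) / Real.sqrt X := by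
    rw [← Real.sqrt_div (by positivity), hτ₁]
    congr 1
    ring
  have hX1 : 1 ≤ Real.sqrt X := by rw [Real.one_le_sqrt]; linarith
  have hfirst : ‖PP μ m F z - (((1 - τ₁) ^ (m + 3) : ℝ) : ℂ) * Φ z‖ ≤
      A * (G' + G / Real.sqrt X) := by
    rw [hdiffint, norm_mul, norm_inv, Complex.norm_real, Real.norm_of_nonneg hcw.le]
    calc _ ≤ (cw μ)⁻¹ * ((2 * 41 ^ (m + 3) * G' +
        41 ^ (m + 3) * Real.sqrt (80 * (m + 2) * τ₁) * G) * C) := by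
          gcongr
          refine hmain.trans ?_
          gcongr
      _ = (cw μ)⁻¹ * (41 ^ (m + 3) * C * (2 * G' + Real.sqrt (1360 * (m + 2)) *
          (G / Real.sqrt X))) := by rw [hsq]; ring
      _ ≤ (cw μ)⁻¹ * (41 ^ (m + 3) * C * ((2 + Real.sqrt (1360 * (m + 2))) *
          (G' + G / Real.sqrt X))) := by
          have h0 : 0 ≤ G / Real.sqrt X := by positivity
          have h1 : 0 ≤ Real.sqrt (1360 * ((m : ℝ) + 2)) := Real.sqrt_nonneg _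
          gcongr
          nlinarith [mul_nonneg h1 hG']
      _ = _ := by rw [hA]; ring
  have hsecond : ‖(((1 - τ₁) ^ (m + 3) : ℝ) : ℂ) * Φ z - Φ z‖ ≤
      680 * (m + 3) * (G' + G / Real.sqrt X) := by
    have h1 : 1 + ((m + 3 : ℕ) : ℝ) * (-τ₁) ≤ (1 + (-τ₁)) ^ (m + 3) :=
      one_add_mul_le_pow (by linarith) _
    have h2 : (1 - τ₁) ^ (m + 3) ≤ 1 := pow_le_one₀ (by linarith) (by linarith)
    have h3 : ‖(((1 - τ₁) ^ (m + 3) : ℝ) : ℂ) * Φ z - Φ z‖ = (1 - (1 - τ₁) ^ (m + 3)) * ‖Φ z‖ := by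
      rw [show (((1 - τ₁) ^ (m + 3) : ℝ) : ℂ) * Φ z - Φ z =
        -(((1 - (1 - τ₁) ^ (m + 3) : ℝ) : ℂ) * Φ z) by push_cast; ring, norm_neg, norm_mul,
        Complex.norm_real, Real.norm_of_nonneg (by linarith)]
    have h4 : 1 - (1 - τ₁) ^ (m + 3) ≤ (m + 3) * τ₁ := by
      have e : (1 + (-τ₁)) ^ (m + 3) = (1 - τ₁) ^ (m + 3) := by ring
      rw [e] at h1
      push_cast at h1
      linarith
    have h5 : τ₁ ≤ 17 / Real.sqrt X := by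
      rw [hτ₁]
      have : Real.sqrt X ≤ X := by
        rw [Real.sqrt_le_left hX0.le]
        nlinarith
      gcongr
    rw [h3]
    calc (1 - (1 - τ₁) ^ (m + 3)) * ‖Φ z‖ ≤ ((m + 3) * τ₁) * (40 * (G + 3 * G')) := by
          apply mul_le_mul h4 hΦz (norm_nonneg _) (by positivity)
      _ = 40 * (m + 3) * (τ₁ * G) + 120 * (m + 3) * (τ₁ * G') := by ring
      _ ≤ 40 * (m + 3) * (17 / Real.sqrt X * G) + 120 * (m + 3) * (1 * G') := by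
          gcongr
      _ = 680 * (m + 3) * (G / Real.sqrt X) + 120 * (m + 3) * G' := by ring
      _ ≤ _ := by
          have : 0 ≤ ((m : ℝ) + 3) * G' := by positivity
          nlinarith
  calc ‖PP μ m F z - Φ z‖ ≤ ‖PP μ m F z - (((1 - τ₁) ^ (m + 3) : ℝ) : ℂ) * Φ z‖ +
        ‖(((1 - τ₁) ^ (m + 3) : ℝ) : ℂ) * Φ z - Φ z‖ := norm_sub_le_norm_sub_add_norm_sub _ _ _
    _ ≤ A * (G' + G / Real.sqrt X) + 680 * (m + 3) * (G' + G / Real.sqrt X) :=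
        add_le_add hfirst hsecond
    _ = _ := by ring

/-- The same for all `X ≥ 8`. -/
theorem PP_local8 (μ : Measure E) [μ.IsAddHaarMeasure] (m : ℕ)
    (hm : 1 ≤ m) (hdim : Module.finrank ℂ E = m + 1) :
    ∃ CK : ℝ, 0 < CK ∧ ∀ (t X G G' MΦ : ℝ) (z : E) (F Φ : E → ℂ), 0 < t → t ≤ 1 → 8 ≤ X →
      1 - t / 8 ≤ ‖z‖ → ‖z‖ ≤ 1 - t / 40 → 0 ≤ G → 0 ≤ G' →
      AEStronglyMeasurable F (μ.restrict (ball 0 1)) →
      (∀ w ∈ ball (0 : E) 1, (1 - ‖w‖ ^ 2) * ‖F w‖ ≤ G * t) →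
      DifferentiableOn ℂ Φ {w ∈ ball (0 : E) 1 | ‖1 - ⟪w, z⟫_ℂ‖ < t * X} →
      (∀ w ∈ ball (0 : E) 1, ‖1 - ⟪w, z⟫_ℂ‖ < t * X → ‖Φ w‖ ≤ MΦ) →
      (∀ w ∈ ball (0 : E) 1, ‖1 - ⟪w, z⟫_ℂ‖ < t * X →
        (1 - ‖w‖ ^ 2) * ‖F w - Φ w‖ ≤ G' * Real.sqrt (t * (‖1 - ⟪w, z⟫_ℂ‖ + t))) →
      ‖PP μ m F z - Φ z‖ ≤ CK * (G' + G / Real.sqrt X) := by
  obtain ⟨CK, hCK0, hCK⟩ := PP_local μ m hm hdim
  obtain ⟨C3, hC30, hC3⟩ := PP_bound μ m hm hdim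
  refine ⟨CK + 5 * (C3 + 40) + 120, by positivity, fun t X G G' MΦ z F Φ ht ht1 hX hz1 hz2 hG hG'
    hFm hF hΦ hΦb hdiff => ?_⟩
  have hX0 : 0 < X := by linarith
  have hX1 : 0 < Real.sqrt X := Real.sqrt_pos.mpr hX0
  have hGX : 0 ≤ G / Real.sqrt X := by positivity
  rcases le_or_gt 20 X with h20 | h20
  · refine (hCK t X G G' MΦ z F Φ ht ht1 h20 (by linarith) hz2 hG hG' hFm hF hΦ hΦb hdiff).trans ?_
    have : 0 ≤ G' + G / Real.sqrt X := by positivity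
    nlinarith
  · have hz : ‖z‖ < 1 := by linarith
    have hz0 := norm_nonneg z
    have hzball : z ∈ ball (0 : E) 1 := by rw [mem_ball_zero_iff]; exact hz
    have hzz : ‖1 - ⟪z, z⟫_ℂ‖ = 1 - ‖z‖ ^ 2 := by
      rw [inner_self_eq_norm_sq_to_K]
      have : (1 - ((‖z‖ : ℝ) : ℂ) ^ 2) = ((1 - ‖z‖ ^ 2 : ℝ) : ℂ) := by push_cast; ring
      have h2 : 0 < 1 - ‖z‖ ^ 2 := by nlinarith
      calc ‖1 - ((‖z‖ : ℝ) : ℂ) ^ 2‖ = ‖((1 - ‖z‖ ^ 2 : ℝ) : ℂ)‖ := by rw [this]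
        _ = _ := by rw [Complex.norm_real, Real.norm_of_nonneg h2.le]
    have hz8 : 1 - ‖z‖ ^ 2 ≤ 8 * t := by nlinarith
    have hzlt : ‖1 - ⟪z, z⟫_ℂ‖ < t * X := by
      rw [hzz]; nlinarith
    have hΦz : ‖Φ z‖ ≤ 40 * (G + 3 * G') := by
      have h1 := hF z hzball
      have h2 := hdiff z hzball hzlt
      rw [hzz] at h2
      have h3 : Real.sqrt (t * (1 - ‖z‖ ^ 2 + t)) ≤ 3 * t := by
        rw [Real.sqrt_le_left (by positivity)]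
        nlinarith
      have h4 : t / 40 ≤ 1 - ‖z‖ ^ 2 := by nlinarith
      have h5 : ‖Φ z‖ ≤ ‖F z‖ + ‖F z - Φ z‖ := by
        have := norm_sub_le (F z) (F z - Φ z)
        simpa using this
      have h6 : (1 - ‖z‖ ^ 2) * ‖Φ z‖ ≤ G * t + G' * (3 * t) := by
        calc (1 - ‖z‖ ^ 2) * ‖Φ z‖ ≤ (1 - ‖z‖ ^ 2) * (‖F z‖ + ‖F z - Φ z‖) := by
              apply mul_le_mul_of_nonneg_left h5; linarith
          _ ≤ G * t + G' * Real.sqrt (t * (1 - ‖z‖ ^ 2 + t)) := by linarith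
          _ ≤ _ := by gcongr
      have h7 : t / 40 * ‖Φ z‖ ≤ (1 - ‖z‖ ^ 2) * ‖Φ z‖ := by gcongr
      have h8 : t / 40 * ‖Φ z‖ ≤ t / 40 * (40 * (G + 3 * G')) := by linarith
      exact le_of_mul_le_mul_left h8 (by positivity)
    have h9 := hC3 t G z F ht hz2 hG hF
    have h10 : G ≤ 5 * (G / Real.sqrt X) := by
      have h11 : Real.sqrt X ≤ 5 := by
        rw [Real.sqrt_le_left (by norm_num)]; linarith
      rw [← mul_div_assoc, le_div_iff₀ hX1]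
      nlinarith
    calc ‖PP μ m F z - Φ z‖ ≤ ‖PP μ m F z‖ + ‖Φ z‖ := norm_sub_le _ _
      _ ≤ C3 * G + 40 * (G + 3 * G') := add_le_add h9 hΦz
      _ = (C3 + 40) * G + 120 * G' := by ring
      _ ≤ (C3 + 40) * (5 * (G / Real.sqrt X)) + 120 * G' := by gcongr
      _ ≤ _ := by
        have h12 : 0 ≤ CK * (G' + G / Real.sqrt X) := by positivity
        have h13 : 0 ≤ (C3 + 40) * G' := by positivity
        nlinarith

end Pool.Agent.MPca0fc2.SL
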