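import Mathlib

set_option autoImplicit false

open Metric Set Filter Topology
open scoped InnerProductSpace

namespace Pool.Agent.MPca0fc2.SL

/-- a Lipschitz partition of unity on a ball of a finite dimensional space -/
theorem exists_part (W : Type*) [NormedAddCommGroup W] [InnerProductSpace ℂ W]
    [FiniteDimensional ℂ W] (G : ℝ) {ρ : ℝ} (hρ : 0 < ρ) :
    ∃ (n : ℕ) (Lc : ℝ) (c : Fin n → W) (χ : Fin n → W → ℝ), 0 ≤ Lc ∧ (∀ i β, 0 ≤ χ i β) ∧
      (∀ β, ‖β‖ ≤ G → ∑ i, χ i β = 1) ∧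
      (∀ i β β', |χ i β - χ i β'| ≤ Lc * ‖β - β'‖) ∧
      ∀ i β, χ i β ≠ 0 → ‖β - c i‖ < ρ / 2 := by
  have hp : ProperSpace W := FiniteDimensional.proper ℂ W
  obtain ⟨t, -, ht, hcov⟩ := (isCompact_closedBall (0 : W) G).finite_cover_balls
    (show (0 : ℝ) < ρ / 4 by positivity)
  obtain ⟨n, c, hc⟩ : ∃ (n : ℕ) (c : Fin n → W), range c = t := by
    obtain ⟨n, c, hc⟩ := ht.fin_param
    exact ⟨n, c, hc.2⟩
  set ψ : Fin n → W → ℝ := fun i β => max 0 (1 - 2 * ‖β - c i‖ / ρ) with hψ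
  have hψ0 : ∀ i β, 0 ≤ ψ i β := fun i β => le_max_left _ _
  have hψ1 : ∀ i β, ψ i β ≤ 1 := by
    intro i β
    apply max_le zero_le_one
    have : 0 ≤ 2 * ‖β - c i‖ / ρ := by positivity
    linarith
  have hψl : ∀ i β β', |ψ i β - ψ i β'| ≤ 2 / ρ * ‖β - β'‖ := by
    intro i β β'
    have h1 : |ψ i β - ψ i β'| ≤ |(1 - 2 * ‖β - c i‖ / ρ) - (1 - 2 * ‖β' - c i‖ / ρ)| := by
      simp only [hψ]
      have := abs_max_sub_max_le_abs (1 - 2 * ‖β - c i‖ / ρ) (1 - 2 * ‖β' - c i‖ / ρ) 0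
      rw [max_comm 0, max_comm 0]
      exact this
    refine h1.trans ?_
    have h2 : (1 - 2 * ‖β - c i‖ / ρ) - (1 - 2 * ‖β' - c i‖ / ρ) =
        2 / ρ * (‖β' - c i‖ - ‖β - c i‖) := by ring
    rw [h2, abs_mul, abs_of_pos (show 0 < 2 / ρ by positivity)]
    apply mul_le_mul_of_nonneg_left _ (by positivity)
    have h3 := abs_norm_sub_norm_le (β' - c i) (β - c i)
    have h4 : (β' - c i) - (β - c i) = β' - β := by abel
    rw [h4, norm_sub_rev β' β] at h3
    exact h3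
  set D : W → ℝ := fun β => max (1 / 2) (∑ i, ψ i β) with hD
  have hD0 : ∀ β, 1 / 2 ≤ D β := fun β => le_max_left _ _
  have hDl : ∀ β β', |D β - D β'| ≤ n * (2 / ρ * ‖β - β'‖) := by
    intro β β'
    have h1 : |D β - D β'| ≤ |∑ i, ψ i β - ∑ i, ψ i β'| := by
      have := abs_max_sub_max_le_abs (∑ i, ψ i β) (∑ i, ψ i β') (1 / 2)
      simp only [hD]
      rw [max_comm (1 / 2), max_comm (1 / 2)]
      exact this
    refine h1.trans ?_
    rw [← Finset.sum_sub_distrib]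
    calc |∑ i, (ψ i β - ψ i β')| ≤ ∑ i, |ψ i β - ψ i β'| := Finset.abs_sum_le_sum_abs _ _
      _ ≤ ∑ _i : Fin n, 2 / ρ * ‖β - β'‖ := Finset.sum_le_sum fun i _ => hψl i β β'
      _ = _ := by rw [Finset.sum_const, Finset.card_univ, Fintype.card_fin, nsmul_eq_mul]
  refine ⟨n, 4 / ρ + 4 * (n * (2 / ρ)), c, fun i β => ψ i β / D β, by positivity, ?_, ?_, ?_, ?_⟩
  · intro i β
    have := hD0 β
    have := hψ0 i β
    positivity
  · intro β hβ
    have h1 := hcov (mem_closedBall_zero_iff.mpr hβ)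
    simp only [mem_iUnion, mem_ball, exists_prop] at h1
    obtain ⟨y, hy, hβy⟩ := h1
    rw [← hc] at hy
    obtain ⟨i, rfl⟩ := hy
    have h2 : 1 / 2 ≤ ψ i β := by
      simp only [hψ]
      apply le_max_of_le_right
      rw [dist_eq_norm] at hβy
      have : 2 * ‖β - c i‖ / ρ ≤ 1 / 2 := by
        rw [div_le_iff₀ hρ]; linarith
      linarith
    have h3 : 1 / 2 ≤ ∑ i, ψ i β :=
      h2.trans (Finset.single_le_sum (f := fun i => ψ i β) (fun j _ => hψ0 j β)
        (Finset.mem_univ i))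
    have h4 : D β = ∑ i, ψ i β := max_eq_right h3
    simp only []
    rw [← Finset.sum_div, h4, div_self (by linarith)]
  · intro i β β'
    have h1 := hψl i β β'
    have h2 := hDl β β'
    have h3 := hD0 β
    have h4 := hD0 β'
    have h5 := hψ0 i β'
    have h6 := hψ1 i β'
    have e1 : ψ i β / D β - ψ i β' / D β' = (ψ i β - ψ i β') / D β +
        ψ i β' * (D β' - D β) / (D β * D β') := by
      field_simp
      ring
    simp only []
    rw [e1]
    refine (abs_add_le _ _).trans ?_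
    have h7 : |(ψ i β - ψ i β') / D β| ≤ 2 / ρ * ‖β - β'‖ * 2 := by
      rw [abs_div, abs_of_pos (show 0 < D β by linarith), div_le_iff₀ (by linarith)]
      have h8 : 0 ≤ 2 / ρ * ‖β - β'‖ := by positivity
      nlinarith
    have h8 : |ψ i β' * (D β' - D β) / (D β * D β')| ≤ n * (2 / ρ * ‖β - β'‖) * 4 := by
      have hDD : 1 / 4 ≤ D β * D β' := by nlinarith
      rw [abs_div, abs_of_pos (show 0 < D β * D β' by linarith), div_le_iff₀ (by linarith),
        abs_mul, abs_of_nonneg h5, abs_sub_comm]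
      have h9 : 0 ≤ (n : ℝ) * (2 / ρ * ‖β - β'‖) := by positivity
      calc ψ i β' * |D β - D β'| ≤ 1 * (n * (2 / ρ * ‖β - β'‖)) :=
            mul_le_mul h6 h2 (abs_nonneg _) zero_le_one
        _ = (n * (2 / ρ * ‖β - β'‖)) * 4 * (1 / 4) := by ring
        _ ≤ _ := by gcongr
    calc _ ≤ 2 / ρ * ‖β - β'‖ * 2 + n * (2 / ρ * ‖β - β'‖) * 4 := add_le_add h7 h8
      _ = _ := by ring
  · intro i β hne
    have h1 : ψ i β ≠ 0 := by
      intro h0
      apply hne
      simp only [h0, zero_div]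
    by_contra hcon
    rw [not_lt] at hcon
    apply h1
    simp only [hψ]
    apply max_eq_left
    have : 1 ≤ 2 * ‖β - c i‖ / ρ := by
      rw [le_div_iff₀ hρ]; linarith
    linarith

end Pool.Agent.MPca0fc2.SL
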