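import Mathlib
import Pool.Agent.Lib.MP_ca0fc2_an.SLCore
import Pool.Agent.Lib.MP_ca0fc2_an.SLPart
import Pool.Agent.Lib.MP_ca0fc2_an.SLKer
import Pool.Agent.Lib.MP_ca0fc2_an.Defs

set_option autoImplicit false

open Metric Set Filter Topology MeasureTheory
open scoped InnerProductSpace

namespace Pool.Agent.MPca0fc2.SL

open Pool.Agent.MPca0fc2.SD
open Pool.Agent.Lib.MP_ca0fc2_an

/-- the extra datum that vanishes at one boundary point -/
def AugProp (E : Type*) [NormedAddCommGroup E] [InnerProductSpace ℂ E] (e : ℕ → ℝ)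
    (k₁ : ℕ) : Prop :=
  ∃ F₀ : E → E → ℂ, (∀ l : E, ‖l‖ = 1 → Grad (F₀ l) e ∧
    (∀ z ∈ ball (0 : E) 1, ‖F₀ l z‖ ≤ 2) ∧
    (∀ z, ‖z‖ < RR k₁ → 1 / 2 ≤ ‖F₀ l ((rr k₁ : ℂ) • z)‖) ∧
    (∀ z ∈ ball (0 : E) 1, ‖F₀ l z‖ < 3 / 4 → ‖1 - ⟪l, z⟫_ℂ‖ < (1 / 2) ^ k₁)) ∧
    ∀ η > 0, ∃ r > 0, ∀ l : E, ‖l‖ = 1 → ∀ z ∈ ball (0 : E) 1, z ∈ ball l r → ‖F₀ l z‖ ≤ η

section Grads

variable {E : Type*} [NormedAddCommGroup E] [InnerProductSpace ℂ E]

theorem Grad.add' {f g : E → ℂ} {e : ℕ → ℝ} (hf : Grad f e) (hg : Grad g e) :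
    Grad (fun z => f z + g z) (fun k => 2 * e k) := by
  refine ⟨hf.hol.add hg.hol, fun k z hz => ?_⟩
  have hz1 : z ∈ ball (0 : E) 1 := mem_ball_zero_iff.mpr (hz.trans_lt (rr_lt_one k))
  have h1 := hf.grad k z hz
  have h2 := hg.grad k z hz
  rw [fderiv_fun_add (hf.hol.differentiableAt (isOpen_ball.mem_nhds hz1))
    (hg.hol.differentiableAt (isOpen_ball.mem_nhds hz1))]
  have h3 := norm_add_le (fderiv ℂ f z) (fderiv ℂ g z)
  have h4 := half_pow_pos k
  nlinarith

theorem Grad.cmul {f : E → ℂ} {e : ℕ → ℝ} (hf : Grad f e) {c : ℂ} (hc : ‖c‖ ≤ 1) :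
    Grad (fun z => c * f z) e := by
  refine ⟨hf.hol.const_mul c, fun k z hz => ?_⟩
  have hz1 : z ∈ ball (0 : E) 1 := mem_ball_zero_iff.mpr (hz.trans_lt (rr_lt_one k))
  have h1 := hf.grad k z hz
  rw [fderiv_const_mul (hf.hol.differentiableAt (isOpen_ball.mem_nhds hz1)), norm_smul]
  have h4 := half_pow_pos k
  have h5 := norm_nonneg (fderiv ℂ f z)
  calc ‖c‖ * ‖fderiv ℂ f z‖ * (1 / 2) ^ k ≤ 1 * ‖fderiv ℂ f z‖ * (1 / 2) ^ k := by gcongr
    _ ≤ _ := by rw [one_mul]; exact h1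

end Grads

section Aug

variable {E : Type*} [NormedAddCommGroup E] [InnerProductSpace ℂ E]
variable {W : Type*} [NormedAddCommGroup W] [InnerProductSpace ℂ W]

/-- the map with the extra component -/
noncomputable def ua (u : E → W) (f₀ : E → ℂ) (z : E) : WithLp 2 (W × ℂ) :=
  WithLp.toLp 2 (u z, f₀ z)

theorem ua_diff {u : E → W} {f₀ : E → ℂ} {S : Set E} (hu : DifferentiableOn ℂ u S)
    (hf : DifferentiableOn ℂ f₀ S) : DifferentiableOn ℂ (ua u f₀) S :=
  (WithLp.prodContinuousLinearEquiv 2 ℂ W ℂ).symm.differentiable.comp_differentiableOn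
    (hu.prodMk hf)

theorem ua_norm_le (u : E → W) (f₀ : E → ℂ) (z : E) : ‖ua u f₀ z‖ ≤ ‖u z‖ + ‖f₀ z‖ := by
  apply le_of_sq_le_sq _ (by positivity)
  rw [WithLp.prod_norm_sq_eq_of_L2]
  have h1 : (ua u f₀ z).fst = u z := rfl
  have h2 : (ua u f₀ z).snd = f₀ z := rfl
  rw [h1, h2]
  have := mul_nonneg (norm_nonneg (u z)) (norm_nonneg (f₀ z))
  nlinarith

theorem le_norm_sub_fst (u : E → W) (f₀ : E → ℂ) (z : E) (c : WithLp 2 (W × ℂ)) :
    ‖u z - c.fst‖ ≤ ‖ua u f₀ z - c‖ ∧ ‖f₀ z - c.snd‖ ≤ ‖ua u f₀ z - c‖ := by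
  have h := WithLp.prod_norm_sq_eq_of_L2 (ua u f₀ z - c)
  have h1 : (ua u f₀ z - c).fst = u z - c.fst := rfl
  have h2 : (ua u f₀ z - c).snd = f₀ z - c.snd := rfl
  rw [h1, h2] at h
  constructor
  · apply le_of_sq_le_sq _ (norm_nonneg _)
    rw [h]; nlinarith [sq_nonneg ‖f₀ z - c.snd‖]
  · apply le_of_sq_le_sq _ (norm_nonneg _)
    rw [h]; nlinarith [sq_nonneg ‖u z - c.fst‖]

theorem ua_grad {u : E → W} {f₀ : E → ℂ} {e : ℕ → ℝ}
    (hu : ∀ v : W, ‖v‖ ≤ 1 → Grad (fun z => ⟪v, u z⟫_ℂ) e) (hf : Grad f₀ e) :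
    ∀ v : WithLp 2 (W × ℂ), ‖v‖ ≤ 1 → Grad (fun z => ⟪v, ua u f₀ z⟫_ℂ) (fun k => 2 * e k) := by
  intro v hv
  have h := WithLp.prod_norm_sq_eq_of_L2 v
  have hv1 : ‖v.fst‖ ≤ 1 := by
    apply le_of_sq_le_sq _ zero_le_one
    nlinarith [sq_nonneg ‖v.snd‖, norm_nonneg v]
  have hv2 : ‖v.snd‖ ≤ 1 := by
    apply le_of_sq_le_sq _ zero_le_one
    nlinarith [sq_nonneg ‖v.fst‖, norm_nonneg v]
  have e1 : (fun z => ⟪v, ua u f₀ z⟫_ℂ) = fun z => ⟪v.fst, u z⟫_ℂ +
      (starRingEnd ℂ) v.snd * f₀ z := by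
    funext z
    rw [WithLp.prod_inner_apply]
    simp only [ua]
    congr 1
    rw [RCLike.inner_apply, mul_comm]
    rfl
  rw [e1]
  exact Grad.add' (hu _ hv1) (Grad.cmul hf (by rw [RCLike.norm_conj]; exact hv2))

end Aug

/-- the kernel -/
theorem exists_ker (E : Type*) [NormedAddCommGroup E] [InnerProductSpace ℂ E]
    [FiniteDimensional ℂ E] [MeasurableSpace E] [BorelSpace E] (m : ℕ)
    (hm : 1 ≤ m) (hdim : Module.finrank ℂ E = m + 1) :
    ∃ (P : (E → ℂ) → E → ℂ) (CK : ℝ), Ker P CK := by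
  obtain ⟨CK, hCK0, hCK⟩ := PP_local8 (Measure.addHaar : Measure E) m hm hdim
  refine ⟨PP Measure.addHaar m, CK, hCK0, ?_, ?_⟩
  · intro t X z F Φ G G' MΦ ht ht1 hX hz1 hz2 hG hG' hF h1 h2 h3 h4
    exact hCK t X G G' MΦ z F Φ ht ht1 hX hz1 hz2 hG hG'
      (hF.aestronglyMeasurable measurableSet_ball) h1 h2 h3 h4
  · intro F C hF hC
    exact PP_holo Measure.addHaar m (hF.aestronglyMeasurable measurableSet_ball) hC

/-- localization with respect to a slow map near a boundary point -/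
theorem local_slow (E W : Type*) [NormedAddCommGroup E] [InnerProductSpace ℂ E]
    [FiniteDimensional ℂ E] [NormedAddCommGroup W] [InnerProductSpace ℂ W]
    [FiniteDimensional ℂ W] (hdim : 2 ≤ Module.finrank ℂ E) (N : ℕ) (M C ρ₀ r₀ ρ ε : ℝ)
    (hM : 2 ≤ M) (hρ : 0 < ρ) (hρ₀ : 8 * ρ ≤ ρ₀) (hρ1 : ρ ≤ 1 / 16) (hr₀ : 0 < r₀)
    (hε : 0 < ε) (hε1 : ε ≤ 1) (hεM : ε * (M + 2 + ρ) ≤ 1)
    (e : ℕ → ℝ) (hpos : ∀ k, 0 < e k) (hslow : Slow e) (hlip : ∀ k, |1 / e (k + 1) - 1 / e k| ≤ ε)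
    (hsum : Summable fun k => Real.exp (-(a₀ * ρ / 12 / e k)))
    (haug : ∀ k₁ : ℕ, AugProp E e k₁) :
    ∃ r C' : ℝ, 0 < r ∧ ∀ l : E, ‖l‖ = 1 → ∀ (f : Fin N → E → ℂ) (u : E → W),
      (∀ j, DifferentiableOn ℂ (f j) (ball 0 1)) → (∀ j, ∀ z ∈ ball (0 : E) 1, ‖f j z‖ ≤ M) →
      DifferentiableOn ℂ u (ball 0 1) → (∀ z ∈ ball (0 : E) 1, ‖u z‖ ≤ M) →
      (∀ v : W, ‖v‖ ≤ 1 → Grad (fun z => ⟪v, u z⟫_ℂ) e) →
      (∀ b ∈ ball (0 : E) 1 ∩ ball l r₀,
        SolvableOn f (ball 0 1 ∩ ball l r₀ ∩ {z | ‖u z - u b‖ < ρ₀}) C) →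
      SolvableOn f (ball 0 1 ∩ ball l r) C' := by
  classical
  obtain ⟨m, hdim'⟩ : ∃ m, Module.finrank ℂ E = m + 1 := ⟨Module.finrank ℂ E - 1, by omega⟩
  have hm : 1 ≤ m := by omega
  let _ : MeasurableSpace E := borel E
  have _ : BorelSpace E := ⟨rfl⟩
  have hnt : Nontrivial E := Module.nontrivial_of_finrank_pos (R := ℂ) (by omega)
  obtain ⟨P, CK, hker⟩ := exists_ker E m hm hdim'
  have ha0 : (0 : ℝ) < a₀ := by norm_num [a₀]
  set B : ℝ := max 4 |C| with hB
  have hB0 : 0 ≤ B := le_trans (by norm_num) (le_max_left _ _)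
  obtain ⟨n, Lc, c, χ, hLc, hχ0, hχ1, hχl, hχs⟩ := exists_part (WithLp 2 (W × ℂ)) (M + 2 + ρ) hρ
  -- the shifted sequence
  have hsum' : Summable fun k => Real.exp (-(a₀ * ρ / 2 / (3 * (2 * e k)))) := by
    refine hsum.congr fun k => ?_
    congr 1
    have := hpos k
    field_simp
    norm_num
  have hpos' : ∀ k, 0 ≤ k → 0 < 3 * (2 * e k) := fun k _ => by have := hpos k; positivity
  have hev := e_small (e := fun k => 3 * (2 * e k)) (ks := 0) (c := a₀ * ρ / 2) (by positivity)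
    hpos' hsum' (δ := 1 / 100) (by norm_num)
  have htend : Tendsto (fun k : ℕ => ((1 : ℝ) / 2) ^ k) atTop (𝓝 0) :=
    tendsto_pow_atTop_nhds_zero_of_lt_one (by norm_num) (by norm_num)
  obtain ⟨ks₁, hks₁⟩ := eventually_atTop.mp hev
  obtain ⟨ks₂, hks₂⟩ := eventually_atTop.mp (htend.eventually_lt_const
    (show (0 : ℝ) < r₀ ^ 2 / 2 by positivity))
  set ks := max ks₁ ks₂ with hks
  have hse : SE (fun j => 3 * (2 * e (ks + j))) ε := by
    refine ⟨fun j => hpos' _ (Nat.zero_le _), fun j => hks₁ _ (by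
      have := le_max_left ks₁ ks₂; omega), fun j => ?_⟩
    have h1 := hlip (ks + j)
    have h2 : 1 / (3 * (2 * e (ks + (j + 1)))) - 1 / (3 * (2 * e (ks + j))) =
        (1 / e (ks + j + 1) - 1 / e (ks + j)) / 6 := by
      have := hpos (ks + j)
      have := hpos (ks + j + 1)
      rw [← add_assoc]
      field_simp
      ring
    rw [h2, abs_div]
    have h3 : |(6 : ℝ)| = 6 := by norm_num
    rw [h3]
    linarith
  obtain ⟨k₁, Pm, hk₁, hcore⟩ := core (Option (Fin N)) (Fin n) E (WithLp 2 (W × ℂ)) hker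
    (M + 2) ρ B Lc ε hρ (by linarith) hB0 hLc hε hε1 hεM (e := fun k => 3 * (2 * e k)) hse hsum'
  obtain ⟨F₀, hF₀, hF₀r⟩ := haug k₁
  obtain ⟨r, hr, hF₀r⟩ := hF₀r (1 / (2 * (|Pm| + 1))) (by positivity)
  refine ⟨r, 2 * Pm, hr, ?_⟩
  intro l hl f u hf hfM hu huM hug hloc
  obtain ⟨hg, hb, hinit, hfar⟩ := hF₀ l hl
  set f₀ := F₀ l with hf₀
  have hk₁' : ((1 : ℝ) / 2) ^ k₁ < r₀ ^ 2 / 2 :=
    hks₂ k₁ ((le_max_right ks₁ ks₂).trans hk₁)
  -- the local solutions
  set R : Fin n → Set E := fun i => {x | x ∈ ball (0 : E) 1 ∧ ‖ua u f₀ x - c i‖ < 4 * ρ} with hR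
  have hsol : ∀ i, ∃ s : Option (Fin N) → E → ℂ, (∀ j, DifferentiableOn ℂ (s j) (R i)) ∧
      (∀ j, ∀ x ∈ R i, ‖s j x‖ ≤ B) ∧
      ∀ x ∈ R i, f₀ x * s none x + ∑ j, f j x * s (some j) x = 1 := by
    intro i
    by_cases hci : 1 / 2 ≤ ‖(c i).snd‖
    · have hlow : ∀ x ∈ R i, 1 / 4 ≤ ‖f₀ x‖ := by
        intro x hx
        have h1 := (le_norm_sub_fst u f₀ x (c i)).2
        have h2 := hx.2
        have h3 : ‖(c i).snd‖ ≤ ‖f₀ x - (c i).snd‖ + ‖f₀ x‖ := by
          calc ‖(c i).snd‖ = ‖(f₀ x) - (f₀ x - (c i).snd)‖ := by congr 1; abel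
            _ ≤ ‖f₀ x‖ + ‖f₀ x - (c i).snd‖ := norm_sub_le _ _
            _ = _ := add_comm _ _
        linarith
      have hne : ∀ x ∈ R i, f₀ x ≠ 0 := by
        intro x hx h0
        have := hlow x hx
        rw [h0, norm_zero] at this
        norm_num at this
      refine ⟨fun o => o.elim (fun x => (f₀ x)⁻¹) (fun _ _ => 0), ?_, ?_, ?_⟩
      · intro j
        cases j with
        | none => exact (hg.hol.mono fun x hx => hx.1).inv hne
        | some j => exact differentiableOn_const _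
      · intro j x hx
        cases j with
        | none =>
          simp only [Option.elim, norm_inv]
          have h1 := hlow x hx
          refine le_trans ?_ (le_max_left _ _)
          rw [inv_le_comm₀ (by linarith) (by norm_num)]
          linarith
        | some j => simp only [Option.elim, norm_zero]; exact hB0
      · intro x hx
        simp only [Option.elim, mul_zero, Finset.sum_const_zero, add_zero]
        exact mul_inv_cancel₀ (hne x hx)
    · rw [not_le] at hci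
      have hin : ∀ x ∈ R i, x ∈ ball (0 : E) 1 ∩ ball l r₀ := by
        intro x hx
        refine ⟨hx.1, ?_⟩
        have h1 := (le_norm_sub_fst u f₀ x (c i)).2
        have h2 := hx.2
        have h3 : ‖f₀ x‖ < 3 / 4 := by
          calc ‖f₀ x‖ = ‖(f₀ x - (c i).snd) + (c i).snd‖ := by congr 1; abel
            _ ≤ ‖f₀ x - (c i).snd‖ + ‖(c i).snd‖ := norm_add_le _ _
            _ < _ := by linarith
        have h4 := hfar x hx.1 h3
        have h5 := norm_sub_sq_le_two (a := l) (b := x) hl.le (mem_ball_zero_iff.mp hx.1).le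
        rw [mem_ball, dist_eq_norm]
        apply lt_of_pow_lt_pow_left₀ 2 hr₀.le
        linarith
      by_cases hne : (R i).Nonempty
      · obtain ⟨b, hb'⟩ := hne
        obtain ⟨h, hh1, hh2, hh3⟩ := hloc b (hin b hb')
        have hsub : R i ⊆ ball 0 1 ∩ ball l r₀ ∩ {z | ‖u z - u b‖ < ρ₀} := by
          intro x hx
          refine ⟨hin x hx, ?_⟩
          have h1 := (le_norm_sub_fst u f₀ x (c i)).1
          have h2 := (le_norm_sub_fst u f₀ b (c i)).1
          have h3 := hx.2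
          have h4 := hb'.2
          have e1 : u x - u b = (u x - (c i).fst) - (u b - (c i).fst) := by abel
          rw [Set.mem_ofPred_eq, e1]
          refine (norm_sub_le _ _).trans_lt ?_
          linarith
        refine ⟨fun o => o.elim (fun _ => 0) h, ?_, ?_, ?_⟩
        · intro j
          cases j with
          | none => exact differentiableOn_const _
          | some j => exact (hh1 j).mono hsub
        · intro j x hx
          cases j with
          | none => simp only [Option.elim, norm_zero]; exact hB0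
          | some j =>
            exact (hh2 j x (hsub hx)).trans ((le_abs_self C).trans (le_max_right _ _))
        · intro x hx
          simp only [Option.elim, mul_zero, zero_add]
          exact hh3 x (hsub hx)
      · rw [Set.not_nonempty_iff_eq_empty] at hne
        refine ⟨fun _ _ => 0, ?_, ?_, ?_⟩
        · intro j; exact differentiableOn_const _
        · intro j x hx; rw [hne] at hx; exact hx.elim
        · intro x hx; rw [hne] at hx; exact hx.elim
  choose s hs1 hs2 hs3 using hsol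
  set f' : Option (Fin N) → E → ℂ := fun o => o.elim f₀ f with hf'
  have hlev : Lev f' (ua u f₀) ρ (M + 2) B Lc (M + 2 + ρ) χ c s := by
    refine ⟨?_, ?_, ua_diff hu hg.hol, ?_, hρ, by linarith, hB0, hLc, by linarith, hχ0, hχ1,
      hχl, hχs, hs1, ?_, ?_⟩
    · intro j
      cases j with
      | none => exact hg.hol
      | some j => exact hf j
    · intro j z hz
      cases j with
      | none => exact (hb z hz).trans (by linarith)
      | some j => exact (hfM j z hz).trans (by linarith)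
    · intro z hz
      exact (ua_norm_le u f₀ z).trans (add_le_add (huM z hz) (hb z hz))
    · intro i j x hx hx'
      exact hs2 i j x ⟨hx, hx'⟩
    · intro i x hx hx'
      rw [Fintype.sum_option]
      exact hs3 i x ⟨hx, hx'⟩
  have hosc : Osc (ua u f₀) (fun k => 3 * (2 * e k)) := by
    refine Osc.of_grad (ua_diff hu hg.hol) (ua_grad hug hg) ?_
    refine ⟨fun k => ?_, fun k => ?_, fun k => ?_⟩
    · have := hslow.nonneg k; positivity
    · have := hslow.up k; linarith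
    · have := hslow.down k; linarith
  have hrr0 := rr_nonneg k₁
  have hmem : ∀ z ∈ ball (0 : E) (RR k₁), (rr k₁ : ℂ) • z ∈ ball (0 : E) 1 := fun z hz =>
    FC.mem_ball k₁ k₁ (by omega) (mem_ball_zero_iff.mp hz).le
  obtain ⟨g, hg1, hg2, hg3⟩ := hcore f' (ua u f₀) χ c s hlev hosc (by
    refine ⟨fun o => o.elim (fun z => (f₀ ((rr k₁ : ℂ) • z))⁻¹) (fun _ _ => 0), ?_, ?_, ?_⟩
    · intro j
      cases j with
      | none =>
        simp only [Option.elim]
        apply DifferentiableOn.inv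
        · apply hg.hol.comp
          · exact (differentiable_id.const_smul (rr k₁ : ℂ)).differentiableOn
          · exact hmem
        · intro z hz h0
          have := hinit z (mem_ball_zero_iff.mp hz)
          rw [h0, norm_zero] at this
          norm_num at this
      | some j => exact differentiableOn_const _
    · intro z hz
      rw [pi_norm_le_iff_of_nonneg (by norm_num)]
      intro j
      cases j with
      | none =>
        simp only [Option.elim, norm_inv]
        have h1 := hinit z (mem_ball_zero_iff.mp hz)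
        rw [inv_le_comm₀ (by linarith) (by norm_num)]
        linarith
      | some j => simp only [Option.elim, norm_zero]; norm_num
    · intro z hz
      rw [dot, Fintype.sum_option]
      simp only [Option.elim, mul_zero, Finset.sum_const_zero, add_zero, fv, hf']
      apply mul_inv_cancel₀
      intro h0
      have := hinit z (mem_ball_zero_iff.mp hz)
      rw [h0, norm_zero] at this
      norm_num at this)
  -- the solution near `l`
  have hPm0 : 0 ≤ Pm := (norm_nonneg _).trans (hg2 none 0 (mem_ball_self one_pos))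
  have hsig : ∀ z ∈ ball (0 : E) 1 ∩ ball l r, ‖∑ j, f j z * g (some j) z - 1‖ ≤ 1 / 2 := by
    intro z hz
    have h1 := hg3 z hz.1
    rw [Fintype.sum_option] at h1
    simp only [hf', Option.elim] at h1
    have h2 : ∑ j, f j z * g (some j) z - 1 = -(f₀ z * g none z) := by rw [← h1]; ring
    rw [h2, norm_neg, norm_mul]
    have h3 := hF₀r l hl z hz.1 hz.2
    have h4 := hg2 none z hz.1
    rw [abs_of_nonneg hPm0] at h3
    calc ‖f₀ z‖ * ‖g none z‖ ≤ 1 / (2 * (Pm + 1)) * Pm := by gcongr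
      _ ≤ 1 / (2 * (Pm + 1)) * (Pm + 1) := by gcongr; linarith
      _ = 1 / 2 := by field_simp
  have hlow : ∀ z ∈ ball (0 : E) 1 ∩ ball l r, 1 / 2 ≤ ‖∑ j, f j z * g (some j) z‖ := by
    intro z hz
    have h1 := hsig z hz
    set σ := ∑ j, f j z * g (some j) z
    have : ‖(1 : ℂ)‖ ≤ ‖σ‖ + ‖σ - 1‖ := by
      calc ‖(1 : ℂ)‖ = ‖σ - (σ - 1)‖ := by congr 1; ring
        _ ≤ _ := norm_sub_le _ _
    rw [norm_one] at this
    linarith
  have hne : ∀ z ∈ ball (0 : E) 1 ∩ ball l r, ∑ j, f j z * g (some j) z ≠ 0 := by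
    intro z hz h0
    have := hlow z hz
    rw [h0, norm_zero] at this
    norm_num at this
  have hsub : ball (0 : E) 1 ∩ ball l r ⊆ ball 0 1 := inter_subset_left
  refine ⟨fun j z => g (some j) z / ∑ i, f i z * g (some i) z, ?_, ?_, ?_⟩
  · intro j
    simp only [div_eq_mul_inv]
    refine ((hg1 (some j)).mono hsub).mul (DifferentiableOn.inv ?_ hne)
    apply DifferentiableOn.fun_sum
    intro i _
    exact ((hf i).mono hsub).mul ((hg1 (some i)).mono hsub)
  · intro j z hz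
    rw [norm_div, div_le_iff₀ (by have := hlow z hz; linarith)]
    have h1 := hlow z hz
    have h2 := hg2 (some j) z hz.1
    nlinarith
  · intro z hz
    have h1 : ∀ j, f j z * (g (some j) z / ∑ i, f i z * g (some i) z) =
        (f j z * g (some j) z) / ∑ i, f i z * g (some i) z := fun j => by ring
    simp only [h1]
    rw [← Finset.sum_div, div_self (hne z hz)]

end Pool.Agent.MPca0fc2.SL
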