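import Mathlib
import Pool.Agent.Lib.MP_ca0fc2_an.SDFin0

set_option autoImplicit false

open Metric Set MeasureTheory Filter Topology
open scoped InnerProductSpace

namespace Pool.Agent.MPca0fc2.SL

open Pool.Agent.MPca0fc2.SD

/-- one-sided regularization -/
theorem forward_reg' {θ : ℝ} (hθ0 : 0 < θ) (hθ1 : θ < 1) (w : ℕ → ℝ) (hw : ∀ k, 0 ≤ w k)
    (hs : Summable w) :
    ∃ A : ℕ → ℝ, (∀ k, w k ≤ A k) ∧ (∀ k, θ * A k ≤ A (k + 1)) ∧ Summable A := by
  let A : ℕ → ℝ := fun k => Nat.rec (w 0) (fun n a => w (n + 1) + θ * a) k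
  have hA0 : A 0 = w 0 := rfl
  have hAs : ∀ n, A (n + 1) = w (n + 1) + θ * A n := fun n => rfl
  have hAnn : ∀ n, 0 ≤ A n := by
    intro n
    induction n with
    | zero => rw [hA0]; exact hw 0
    | succ n ih => rw [hAs]; have := hw (n + 1); positivity
  have h1θ : 0 < 1 - θ := by linarith
  refine ⟨A, ?_, ?_, ?_⟩
  · intro k
    cases k with
    | zero => exact hA0.ge
    | succ n =>
      rw [hAs]
      have := mul_nonneg hθ0.le (hAnn n)
      linarith
  · intro k
    rw [hAs]
    linarith [hw (k + 1)]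
  · -- partial sums
    have hpart : ∀ n, (1 - θ) * ∑ k ∈ Finset.range (n + 1), A k + θ * A n ≤
        ∑ k ∈ Finset.range (n + 1), w k := by
      intro n
      induction n with
      | zero => simp [hA0]; linarith
      | succ n ih =>
        rw [Finset.sum_range_succ, Finset.sum_range_succ _ (n + 1), hAs]
        nlinarith [hAnn n]
    apply summable_of_sum_range_le (c := (∑' k, w k) / (1 - θ)) hAnn
    intro n
    rw [le_div_iff₀ h1θ]
    cases n with
    | zero => simp; exact tsum_nonneg hw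
    | succ n =>
      have h1 := hpart n
      have h2 := hs.sum_le_tsum (Finset.range (n + 1)) (fun i _ => hw i)
      have := mul_nonneg hθ0.le (hAnn n)
      linarith

/-- two-sided regularization -/
theorem regularize' {θ : ℝ} (hθ0 : 0 < θ) (hθ1 : θ < 1) (w : ℕ → ℝ) (hw : ∀ k, 0 ≤ w k)
    (hs : Summable w) :
    ∃ B : ℕ → ℝ, (∀ k, w k ≤ B k) ∧ (∀ k, θ * B k ≤ B (k + 1)) ∧
      (∀ k, θ * B (k + 1) ≤ B k) ∧ Summable B := by
  obtain ⟨A, hwA, hAr, hAs⟩ := forward_reg' hθ0 hθ1 w hw hs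
  have hAnn : ∀ k, 0 ≤ A k := fun k => (hw k).trans (hwA k)
  have hgeo : Summable (fun i : ℕ => θ ^ i) :=
    summable_geometric_of_lt_one hθ0.le hθ1
  have hbd : ∀ k, A k ≤ ∑' i, A i := fun k => hAs.le_tsum k (fun i _ => hAnn i)
  have hsum : ∀ k, Summable (fun i : ℕ => θ ^ i * A (k + i)) := by
    intro k
    apply Summable.of_nonneg_of_le (fun i => mul_nonneg (by positivity) (hAnn _))
      (fun i => mul_le_mul_of_nonneg_left (hbd (k + i)) (by positivity))
    exact hgeo.mul_right _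
  let B : ℕ → ℝ := fun k => ∑' i : ℕ, θ ^ i * A (k + i)
  have hBrec : ∀ k, B k = A k + θ * B (k + 1) := by
    intro k
    have h1 := (hsum k).tsum_eq_zero_add
    have h2 : ∑' i : ℕ, θ ^ (i + 1) * A (k + (i + 1)) = θ * B (k + 1) := by
      rw [← tsum_mul_left]
      congr 1
      funext i
      rw [show k + (i + 1) = k + 1 + i by ring]
      ring
    simp only [pow_zero, one_mul, add_zero] at h1
    rw [h2] at h1
    exact h1
  have hBnn : ∀ k, 0 ≤ B k := fun k => tsum_nonneg fun i => mul_nonneg (by positivity) (hAnn _)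
  refine ⟨B, ?_, ?_, ?_, ?_⟩
  · intro k
    have := hBrec k
    have h2 := hwA k
    have := mul_nonneg hθ0.le (hBnn (k + 1))
    linarith
  · intro k
    have h1 : ∑' i : ℕ, θ * (θ ^ i * A (k + i)) ≤ B (k + 1) := by
      apply Summable.tsum_le_tsum _ ((hsum k).mul_left _) (hsum (k + 1))
      intro i
      have h2 := hAr (k + i)
      rw [show k + i + 1 = k + 1 + i by ring] at h2
      calc θ * (θ ^ i * A (k + i)) = θ ^ i * (θ * A (k + i)) := by ring
        _ ≤ _ := mul_le_mul_of_nonneg_left h2 (by positivity)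
    rw [tsum_mul_left] at h1
    exact h1
  · intro k
    have := hBrec k
    linarith [hAnn k]
  · have hfin : ∀ i n, ∑ k ∈ Finset.range n, A (k + i) ≤ ∑' k, A k := by
      intro i n
      have h1 : ∑ k ∈ Finset.range n, A (k + i) ≤ ∑' k, A (k + i) :=
        ((summable_nat_add_iff i).mpr hAs).sum_le_tsum _ (fun k _ => hAnn _)
      have h2 := hAs.sum_add_tsum_nat_add i
      have h3 : 0 ≤ ∑ k ∈ Finset.range i, A k := Finset.sum_nonneg fun k _ => hAnn k
      linarith
    apply summable_of_sum_range_le (c := (1 - θ)⁻¹ * ∑' k, A k) hBnn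
    intro n
    have h1 : ∑ k ∈ Finset.range n, B k =
        ∑' i : ℕ, ∑ k ∈ Finset.range n, θ ^ i * A (k + i) :=
      (Summable.tsum_finsetSum (fun k _ => hsum k)).symm
    rw [h1]
    have h2 : ∑' i : ℕ, ∑ k ∈ Finset.range n, θ ^ i * A (k + i) ≤
        ∑' i : ℕ, θ ^ i * ∑' k, A k := by
      apply Summable.tsum_le_tsum
      · intro i
        rw [← Finset.mul_sum]
        exact mul_le_mul_of_nonneg_left (hfin i n) (by positivity)
      · exact summable_sum fun k _ => hsum k
      · exact hgeo.mul_right _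
    refine h2.trans (le_of_eq ?_)
    rw [tsum_mul_right, tsum_geometric_of_lt_one hθ0.le hθ1]

/-- the summability of the dyadic values -/
theorem exp_wk_summable {ω : ℝ → ℝ} (h0 : ∀ t ∈ Ioo (0 : ℝ) 1, 0 < ω t) {c : ℝ} (hc : 0 < c)
    (hom : IntegrableOn (fun t => Real.exp (-(c / ω t)) / t) (Ioo 0 1)) :
    Summable fun k => if 0 < wk ω k then Real.exp (-(2 * c / wk ω k)) else 0 := by
  set a : ℕ → ℝ := fun k => if 0 < wk ω k then Real.exp (-(2 * c / wk ω k)) else 0 with ha
  have hann : ∀ k, 0 ≤ a k := by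
    intro k
    simp only [ha]
    split_ifs
    · positivity
    · exact le_rfl
  have hpiece : ∀ k, a k ≤ 2 * ∫ t in Ioo ((1 / 2 : ℝ) ^ (k + 1)) ((1 / 2) ^ k),
      Real.exp (-(c / ω t)) / t := by
    intro k
    have hp := half_pow_pos k
    have hp1 := half_pow_pos (k + 1)
    have hple := half_pow_le_one k
    have hsub : Ioo ((1 / 2 : ℝ) ^ (k + 1)) ((1 / 2) ^ k) ⊆ Ioo 0 1 :=
      Ioo_subset_Ioo hp1.le hple
    have hvol : volume.real (Ioo ((1 / 2 : ℝ) ^ (k + 1)) ((1 / 2) ^ k)) = (1 / 2) ^ k / 2 := by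
      rw [Real.volume_real_Ioo_of_le]
      · rw [pow_succ]; ring
      · rw [pow_succ]; linarith
    have h1 : ∫ _t in Ioo ((1 / 2 : ℝ) ^ (k + 1)) ((1 / 2) ^ k), a k / (1 / 2) ^ k ≤
        ∫ t in Ioo ((1 / 2 : ℝ) ^ (k + 1)) ((1 / 2) ^ k), Real.exp (-(c / ω t)) / t := by
      apply setIntegral_mono_on _ (hom.mono_set hsub) measurableSet_Ioo
      · intro t ht
        have ht0 : 0 < t := hp1.trans ht.1
        have hω := h0 t (hsub ht)
        have h2 := wk_le ω (k := k) ⟨ht0, ht.2⟩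
        have h5 : (1 / 2 : ℝ) ^ k < 2 * t := by
          have := ht.1
          rw [pow_succ] at this
          linarith
        have h3 : a k ≤ Real.exp (-(c / ω t)) := by
          simp only [ha]
          split_ifs with hw
          · apply Real.exp_le_exp.mpr
            rw [neg_le_neg_iff]
            have h6 : wk ω k ≤ 2 * ω t := by
              calc wk ω k ≤ (1 / 2) ^ k * (|ω t| / t) := h2
                _ ≤ (2 * t) * (|ω t| / t) := by gcongr
                _ = 2 * |ω t| := by field_simp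
                _ = 2 * ω t := by rw [abs_of_pos hω]
            rw [div_le_div_iff₀ hω hw]
            nlinarith
          · positivity
        calc a k / (1 / 2) ^ k ≤ Real.exp (-(c / ω t)) / (1 / 2) ^ k := by gcongr
          _ ≤ _ := by
            apply div_le_div_of_nonneg_left (Real.exp_pos _).le ht0 ht.2.le
      · exact (continuousOn_const.integrableOn_Icc).mono_set Ioo_subset_Icc_self
    rw [setIntegral_const, hvol, smul_eq_mul] at h1
    have h2 : (1 / 2 : ℝ) ^ k / 2 * (a k / (1 / 2) ^ k) = a k / 2 := by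
      field_simp
    rw [h2] at h1
    linarith
  have hnn : ∀ s : Set ℝ, s ⊆ Ioo 0 1 → MeasurableSet s →
      0 ≤ ∫ t in s, Real.exp (-(c / ω t)) / t := by
    intro s hs hm
    apply setIntegral_nonneg hm
    intro t ht
    have := (hs ht).1
    positivity
  have key : ∀ n, ∑ k ∈ Finset.range n,
      (∫ t in Ioo ((1 / 2 : ℝ) ^ (k + 1)) ((1 / 2) ^ k), Real.exp (-(c / ω t)) / t) +
      ∫ t in Ioo (0 : ℝ) ((1 / 2) ^ n), Real.exp (-(c / ω t)) / t ≤
      ∫ t in Ioo (0 : ℝ) 1, Real.exp (-(c / ω t)) / t := by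
    intro n
    induction n with
    | zero => simp
    | succ n ih =>
      rw [Finset.sum_range_succ]
      have hp := half_pow_pos (n + 1)
      have hpn := half_pow_pos n
      have hpn1 := half_pow_le_one n
      have hlt : ((1 : ℝ) / 2) ^ (n + 1) ≤ (1 / 2) ^ n := by rw [pow_succ]; linarith
      have hs1 : Ioo ((1 / 2 : ℝ) ^ (n + 1)) ((1 / 2) ^ n) ⊆ Ioo 0 1 :=
        Ioo_subset_Ioo hp.le hpn1
      have hs2 : Ioo (0 : ℝ) ((1 / 2) ^ (n + 1)) ⊆ Ioo 0 1 :=
        Ioo_subset_Ioo le_rfl (hlt.trans hpn1)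
      have hd : Disjoint (Ioo ((1 / 2 : ℝ) ^ (n + 1)) ((1 / 2) ^ n))
          (Ioo (0 : ℝ) ((1 / 2) ^ (n + 1))) := by
        rw [Set.disjoint_left]
        intro x hx hx'
        exact lt_asymm hx.1 hx'.2
      have h1 := setIntegral_union hd measurableSet_Ioo (hom.mono_set hs1) (hom.mono_set hs2)
      have h2 : ∫ t in Ioo ((1 / 2 : ℝ) ^ (n + 1)) ((1 / 2) ^ n) ∪
          Ioo (0 : ℝ) ((1 / 2) ^ (n + 1)), Real.exp (-(c / ω t)) / t ≤
          ∫ t in Ioo (0 : ℝ) ((1 / 2) ^ n), Real.exp (-(c / ω t)) / t := by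
        apply setIntegral_mono_set (hom.mono_set (Ioo_subset_Ioo le_rfl hpn1))
        · refine (ae_restrict_iff' measurableSet_Ioo).mpr (Eventually.of_forall fun t ht => ?_)
          have := ht.1
          simp only [Pi.zero_apply]
          positivity
        · apply LE.le.eventuallyLE
          apply union_subset
          · exact Ioo_subset_Ioo hp.le le_rfl
          · exact Ioo_subset_Ioo le_rfl hlt
      linarith
  apply summable_of_sum_range_le (c := 2 * ∫ t in Ioo (0 : ℝ) 1, Real.exp (-(c / ω t)) / t) hann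
  intro n
  have h1 := key n
  have h2 := hnn (Ioo (0 : ℝ) ((1 / 2) ^ n))
    (Ioo_subset_Ioo le_rfl (half_pow_le_one n)) measurableSet_Ioo
  calc ∑ k ∈ Finset.range n, a k
      ≤ ∑ k ∈ Finset.range n,
        2 * ∫ t in Ioo ((1 / 2 : ℝ) ^ (k + 1)) ((1 / 2) ^ k), Real.exp (-(c / ω t)) / t :=
        Finset.sum_le_sum fun k _ => hpiece k
    _ = 2 * ∑ k ∈ Finset.range n,
        ∫ t in Ioo ((1 / 2 : ℝ) ^ (k + 1)) ((1 / 2) ^ k), Real.exp (-(c / ω t)) / t := by
        rw [Finset.mul_sum]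
    _ ≤ _ := by linarith

/-- a slowly varying majorant with summable exponentials -/
theorem seq_of_w {w : ℕ → ℝ} (hw0 : ∀ k, 0 < w k) {A c ε : ℝ} (hA : 0 < A) (hwA : ∀ k, w k ≤ A)
    (hc : 0 < c) (hε : 0 < ε) (hεA : ε * A ≤ 1 / 20)
    (hs : Summable fun k => Real.exp (-(2 * c / w k))) :
    ∃ e : ℕ → ℝ, (∀ k, 0 < e k) ∧ Slow e ∧ (∀ k, |1 / e (k + 1) - 1 / e k| ≤ ε) ∧
      (Summable fun k => Real.exp (-(2 * c / e k))) ∧ (∀ k, w k ≤ e k) ∧ ∀ k, e k ≤ A := by
  set θ : ℝ := Real.exp (-(2 * c * ε)) with hθ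
  have hθ0 : 0 < θ := Real.exp_pos _
  have hθ1 : θ < 1 := by rw [hθ, Real.exp_lt_one_iff]; have : 0 < 2 * c * ε := by positivity
                         linarith
  obtain ⟨B, hB, hB1, hB2, hBs⟩ := regularize' hθ0 hθ1 _ (fun k => (Real.exp_pos _).le) hs
  have hBpos : ∀ k, 0 < B k := fun k => (Real.exp_pos _).trans_le (hB k)
  set V : ℕ → ℝ := fun k => max (-(Real.log (B k)) / (2 * c)) (1 / A) with hV
  have hVA : ∀ k, 1 / A ≤ V k := fun k => le_max_right _ _
  have hVpos : ∀ k, 0 < V k := fun k => (by positivity : 0 < 1 / A).trans_le (hVA k)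
  have hlog : ∀ a b : ℝ, 0 < a → 0 < b → θ * a ≤ b →
      -(Real.log b) / (2 * c) ≤ -(Real.log a) / (2 * c) + ε := by
    intro a b ha hb hab
    have h1 : Real.log (θ * a) ≤ Real.log b := Real.log_le_log (by positivity) hab
    rw [Real.log_mul hθ0.ne' ha.ne', hθ, Real.log_exp] at h1
    rw [div_add' _ _ _ (by positivity), div_le_div_iff_of_pos_right (by positivity)]
    linarith
  have hV1 : ∀ k, V (k + 1) ≤ V k + ε := by
    intro k
    apply max_le
    · exact (hlog _ _ (hBpos k) (hBpos (k + 1)) (hB1 k)).trans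
        (add_le_add_left (le_max_left _ _) _)
    · linarith [hVA k]
  have hV2 : ∀ k, V k ≤ V (k + 1) + ε := by
    intro k
    apply max_le
    · exact (hlog _ _ (hBpos (k + 1)) (hBpos k) (hB2 k)).trans
        (add_le_add_left (le_max_left _ _) _)
    · linarith [hVA (k + 1)]
  have hεV : ∀ k, ε ≤ V k / 10 := by
    intro k
    have h1 : ε ≤ 1 / A / 20 := by
      rw [div_div, le_div_iff₀ (by positivity)]
      linarith
    linarith [hVA k, hVpos k]
  have hVw : ∀ k, V k ≤ 1 / w k := by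
    intro k
    apply max_le
    · rw [div_le_iff₀ (by positivity)]
      have h1 := Real.log_le_log (Real.exp_pos _) (hB k)
      rw [Real.log_exp] at h1
      have h2 : 1 / w k * (2 * c) = 2 * c / w k := by ring
      rw [h2]
      linarith
    · exact one_div_le_one_div_of_le (hw0 k) (hwA k)
  refine ⟨fun k => 1 / V k, fun k => by have := hVpos k; positivity, ⟨?_, ?_, ?_⟩, ?_, ?_, ?_, ?_⟩
  · intro k; have := hVpos k; positivity
  · intro k
    have h1 := hVpos k
    have h2 := hVpos (k + 1)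
    rw [mul_one_div, div_le_div_iff₀ h2 h1]
    linarith [hV2 k, hεV (k + 1)]
  · intro k
    have h1 := hVpos k
    have h2 := hVpos (k + 1)
    rw [mul_one_div, div_le_div_iff₀ h1 h2]
    linarith [hV1 k, hεV k]
  · intro k
    simp only [one_div_one_div]
    rw [abs_le]
    constructor
    · linarith [hV2 k]
    · linarith [hV1 k]
  · apply Summable.of_nonneg_of_le (fun k => (Real.exp_pos _).le) _ hBs
    intro k
    have h1 : -(Real.log (B k)) / (2 * c) ≤ V k := le_max_left _ _
    rw [div_le_iff₀ (by positivity)] at h1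
    calc Real.exp (-(2 * c / (1 / V k))) ≤ Real.exp (Real.log (B k)) := by
          apply Real.exp_le_exp.mpr
          rw [div_div_eq_mul_div, div_one]
          linarith
      _ = B k := Real.exp_log (hBpos k)
  · intro k
    have := hVpos k
    rw [le_div_iff₀ this]
    have h1 := hVw k
    rw [le_div_iff₀ (hw0 k)] at h1
    linarith
  · intro k
    have := hVpos k
    rw [div_le_iff₀ this]
    have h1 := hVA k
    rw [div_le_iff₀ hA] at h1
    linarith

theorem seq_of_omega {ω : ℝ → ℝ} (h0 : ∀ t ∈ Ioo (0 : ℝ) 1, 0 < ω t) {c : ℝ} (hc : 0 < c)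
    (hom : IntegrableOn (fun t => Real.exp (-(c / ω t)) / t) (Ioo 0 1)) {A ε : ℝ} (hA : 0 < A)
    (hε : 0 < ε) (hεA : ε * A ≤ 1 / 20) :
    ∃ e : ℕ → ℝ, (∀ k, 0 < e k) ∧ Slow e ∧ (∀ k, |1 / e (k + 1) - 1 / e k| ≤ ε) ∧
      (Summable fun k => Real.exp (-(2 * c / e k))) ∧ (∀ k, min (wk ω k) A ≤ e k) ∧
      ∀ k, e k ≤ A := by
  set w : ℕ → ℝ := fun k => max (min (wk ω k) A) (min A ((1 / 2) ^ k)) with hw
  have hw0 : ∀ k, 0 < w k := fun k => lt_max_of_lt_right (lt_min hA (half_pow_pos k))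
  have hwA : ∀ k, w k ≤ A := fun k => max_le (min_le_right _ _) (min_le_left _ _)
  have hs2 : Summable fun k : ℕ => Real.exp (-(2 * c * 2 ^ k)) := by
    have h1 : Summable fun k : ℕ => (Real.exp (-(2 * c))) ^ k := by
      apply summable_geometric_of_lt_one (Real.exp_pos _).le
      rw [Real.exp_lt_one_iff]; linarith
    apply Summable.of_nonneg_of_le (fun k => (Real.exp_pos _).le) _ h1
    intro k
    rw [← Real.exp_nat_mul]
    apply Real.exp_le_exp.mpr
    have h2 : (k : ℝ) ≤ 2 ^ k := by exact_mod_cast (Nat.lt_two_pow_self (n := k)).le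
    nlinarith
  have hs : Summable fun k => Real.exp (-(2 * c / w k)) := by
    apply Summable.of_nonneg_of_le (fun k => (Real.exp_pos _).le) _
      ((exp_wk_summable h0 hc hom).add hs2)
    intro k
    have hwk := wk_nonneg ω k
    rcases le_total (min (wk ω k) A) (min A ((1 / 2) ^ k)) with hcase | hcase
    · have h1 : w k = min A ((1 / 2) ^ k) := max_eq_right hcase
      have h2 : w k ≤ (1 / 2) ^ k := by rw [h1]; exact min_le_right _ _
      have h3 : Real.exp (-(2 * c / w k)) ≤ Real.exp (-(2 * c * 2 ^ k)) := by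
        apply Real.exp_le_exp.mpr
        rw [neg_le_neg_iff, le_div_iff₀ (hw0 k)]
        have h4 : (2 : ℝ) ^ k * w k ≤ 1 := by
          calc (2 : ℝ) ^ k * w k ≤ 2 ^ k * (1 / 2) ^ k := by gcongr
            _ = 1 := by rw [← mul_pow]; norm_num
        nlinarith
      have h4 : 0 ≤ (if 0 < wk ω k then Real.exp (-(2 * c / wk ω k)) else 0) := by
        split_ifs
        · positivity
        · exact le_rfl
      linarith
    · have h1 : w k = min (wk ω k) A := max_eq_left hcase
      have hpos : 0 < wk ω k := by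
        have h2 := hw0 k
        rw [h1] at h2
        exact h2.trans_le (min_le_left _ _)
      rw [if_pos hpos]
      have h2 : w k ≤ wk ω k := by rw [h1]; exact min_le_left _ _
      have h3 : Real.exp (-(2 * c / w k)) ≤ Real.exp (-(2 * c / wk ω k)) := by
        apply Real.exp_le_exp.mpr
        rw [neg_le_neg_iff]
        have := hw0 k
        gcongr
      have := Real.exp_pos (-(2 * c * 2 ^ k))
      linarith
  obtain ⟨e, he1, he2, he3, he4, he5, he6⟩ := seq_of_w hw0 hA hwA hc hε hεA hs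
  exact ⟨e, he1, he2, he3, he4, fun k => (le_max_left _ _).trans (he5 k), he6⟩

variable {E : Type*} [NormedAddCommGroup E] [InnerProductSpace ℂ E]

/-- the gradient condition in terms of a sequence -/
theorem grad_of_omega' [Nontrivial E] {ω : ℝ → ℝ} {e : ℕ → ℝ} {A M : ℝ} (hAM : 2 * M ≤ A)
    (hwe : ∀ k, min (wk ω k) A ≤ e k)
    {f : E → ℂ} (hf : DifferentiableOn ℂ f (ball 0 1)) (hfM : ∀ z ∈ ball (0 : E) 1, ‖f z‖ ≤ M)
    (hfω : ∀ z ∈ ball (0 : E) 1, (1 - ‖z‖) * ‖fderiv ℂ f z‖ ≤ ω (1 - ‖z‖)) : Grad f e := by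
  have h1 : Grad f (wk ω) := grad_of_omega (fun k => le_rfl) hf hfM hfω
  refine ⟨hf, fun k z hz => ?_⟩
  refine le_trans (le_min (h1.grad k z hz) ?_) (hwe k)
  refine le_trans ?_ hAM
  have hM0 : 0 ≤ M := (norm_nonneg _).trans (hfM 0 (mem_ball_self one_pos))
  have hk := half_pow_pos k
  have hsub : ball z ((1 / 2) ^ k) ⊆ ball (0 : E) 1 := by
    intro w hw
    rw [mem_ball, dist_eq_norm] at hw
    rw [mem_ball_zero_iff]
    have := norm_le_insert' w z
    unfold rr at hz
    linarith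
  have h2 : ‖fderiv ℂ f z‖ ≤ 2 * M / (1 / 2) ^ k := by
    apply ContinuousLinearMap.opNorm_le_bound _ (by positivity)
    intro v
    exact Pool.Agent.Lib.MP_ca0fc2_an.norm_fderiv_apply_le hk (hf.mono hsub)
      (fun w hw => hfM w (hsub hw)) v
  rwa [le_div_iff₀ hk] at h2

end Pool.Agent.MPca0fc2.SL
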