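import Mathlib
import Pool.Agent.Lib.MP_ca0fc2_an.SLLoc
import Pool.Agent.Lib.MP_ca0fc2_an.SLAug
import Pool.Agent.Lib.MP_ca0fc2_an.SLSeq2
import Pool.Agent.Lib.MP_ca0fc2_an.Depth
import Pool.Agent.Lib.MP_ca0fc2_an.DiscCor

set_option autoImplicit false

open Metric Set Filter Topology MeasureTheory
open scoped InnerProductSpace

namespace Pool.Agent.MPca0fc2.SL

open Pool.Agent.MPca0fc2.SD
open Pool.Agent.Lib.MP_ca0fc2_an

variable {E : Type*} [NormedAddCommGroup E] [InnerProductSpace ℂ E]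

theorem Grad.add2 {f g : E → ℂ} {e e' : ℕ → ℝ} (hf : Grad f e) (hg : Grad g e') :
    Grad (fun z => f z + g z) (fun k => e k + e' k) := by
  refine ⟨hf.hol.add hg.hol, fun k z hz => ?_⟩
  have hz1 : z ∈ ball (0 : E) 1 := mem_ball_zero_iff.mpr (hz.trans_lt (rr_lt_one k))
  have h1 := hf.grad k z hz
  have h2 := hg.grad k z hz
  rw [fderiv_fun_add (hf.hol.differentiableAt (isOpen_ball.mem_nhds hz1))
    (hg.hol.differentiableAt (isOpen_ball.mem_nhds hz1))]
  have h3 := norm_add_le (fderiv ℂ f z) (fderiv ℂ g z)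
  have h4 := half_pow_pos k
  nlinarith

theorem Grad.zero' {e : ℕ → ℝ} (he : ∀ k, 0 ≤ e k) : Grad (fun _ : E => (0 : ℂ)) e := by
  refine ⟨differentiableOn_const _, fun k z _ => ?_⟩
  simp only [fderiv_fun_const, Pi.zero_apply, norm_zero, zero_mul]
  exact he k

theorem Grad.sum' {d : ℕ} {u : Fin d → E → ℂ} {e : ℕ → ℝ}
    (hu : ∀ i, Grad (u i) e) {c : Fin d → ℂ} (hc : ∀ i, ‖c i‖ ≤ 1) (s : Finset (Fin d)) :
    Grad (fun z => ∑ i ∈ s, c i * u i z) (fun k => s.card * e k) := by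
  classical
  induction s using Finset.induction with
  | empty =>
    simp only [Finset.sum_empty, Finset.card_empty, Nat.cast_zero, zero_mul]
    exact Grad.zero' fun k => le_rfl
  | insert a s ha ih =>
    simp only [Finset.sum_insert ha, Finset.card_insert_of_notMem ha]
    have h := Grad.add2 (Grad.cmul (hu a) (hc a)) ih
    refine ⟨h.hol, fun k z hz => (h.grad k z hz).trans (le_of_eq ?_)⟩
    push_cast
    ring

theorem Grad.mono' {f : E → ℂ} {e e' : ℕ → ℝ} (hf : Grad f e) (h : ∀ k, e k ≤ e' k) :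
    Grad f e' := ⟨hf.hol, fun k z hz => (hf.grad k z hz).trans (h k)⟩

/-- Localization with respect to slow maps. -/
theorem slow_main [FiniteDimensional ℂ E] (hn : 2 ≤ Module.finrank ℂ E) (N : ℕ) (M δ : ℝ)
    (hδ : 0 < δ) (d : E → ℕ) (r ρ C : E → ℝ) (ω : E → ℝ → ℝ) (hr : ∀ l, 0 < r l)
    (hρ : ∀ l, 0 < ρ l) (hρ1 : ∀ l, ρ l ≤ 1)
    (hω0 : ∀ l, ∀ t ∈ Ioo (0 : ℝ) 1, 0 < ω l t)
    (hω : ∀ l, IntegrableOn (fun t => Real.exp (-(ρ l / (10 ^ 8 * (d l + 1)) / ω l t)) / t)
      (Ioo 0 1)) :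
    ∃ C' : ℝ, ∀ f : Fin N → E → ℂ,
      (∀ j, DifferentiableOn ℂ (f j) (ball 0 1)) →
      (∀ j, ∀ z ∈ ball (0 : E) 1, ‖f j z‖ ≤ M) →
      (∀ z ∈ ball (0 : E) 1, δ ≤ ∑ j, ‖f j z‖ ^ 2) →
      (∀ l ∈ sphere (0 : E) 1, ∃ u : Fin (d l) → E → ℂ,
        (∀ i, DifferentiableOn ℂ (u i) (ball 0 1)) ∧ (∀ i, ∀ z ∈ ball (0 : E) 1, ‖u i z‖ ≤ M) ∧
        (∀ i, ∀ z ∈ ball (0 : E) 1, (1 - ‖z‖) * ‖fderiv ℂ (u i) z‖ ≤ ω l (1 - ‖z‖)) ∧
        ∀ b ∈ ball (0 : E) 1 ∩ ball l (r l),
          SolvableOn f {z | z ∈ ball (0 : E) 1 ∩ ball l (r l) ∧ ∀ i, ‖u i z - u i b‖ < ρ l}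
            (C l)) →
      SolvableOn f (ball 0 1) C' := by
  have hnt : Nontrivial E := Module.nontrivial_of_finrank_pos (R := ℂ) (by omega)
  have ha0 : (0 : ℝ) < a₀ := by norm_num [a₀]
  -- the local theorem
  have hloc : ∀ l : E, ∃ r' C' : ℝ, 0 < r' ∧ (‖l‖ = 1 → ∀ f : Fin N → E → ℂ,
      (∀ j, DifferentiableOn ℂ (f j) (ball 0 1)) →
      (∀ j, ∀ z ∈ ball (0 : E) 1, ‖f j z‖ ≤ M) →
      (∃ u : Fin (d l) → E → ℂ,
        (∀ i, DifferentiableOn ℂ (u i) (ball 0 1)) ∧ (∀ i, ∀ z ∈ ball (0 : E) 1, ‖u i z‖ ≤ M) ∧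
        (∀ i, ∀ z ∈ ball (0 : E) 1, (1 - ‖z‖) * ‖fderiv ℂ (u i) z‖ ≤ ω l (1 - ‖z‖)) ∧
        ∀ b ∈ ball (0 : E) 1 ∩ ball l (r l),
          SolvableOn f {z | z ∈ ball (0 : E) 1 ∩ ball l (r l) ∧ ∀ i, ‖u i z - u i b‖ < ρ l}
            (C l)) →
      SolvableOn f (ball 0 1 ∩ ball l r') C') := by
    intro l
    obtain ⟨D, hD⟩ : ∃ D : ℝ, D = d l + 1 := ⟨_, rfl⟩
    have hD1 : 1 ≤ D := by rw [hD]; have : (0 : ℝ) ≤ d l := Nat.cast_nonneg _; linarith
    have hρl := hρ l
    obtain ⟨M', hM'⟩ : ∃ M', M' = D * (|M| + 1) + 2 := ⟨_, rfl⟩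
    have hM'2 : 2 ≤ M' := by rw [hM']; have : 0 ≤ D * (|M| + 1) := by positivity
                             linarith
    obtain ⟨A, hA⟩ : ∃ A, A = 2 * (|M| + 1) := ⟨_, rfl⟩
    have hA0 : 0 < A := by rw [hA]; positivity
    obtain ⟨ε, hε⟩ : ∃ ε : ℝ, ε = min (1 / 8) (min (1 / (20 * A)) (1 / (M' + 3))) := ⟨_, rfl⟩
    have hε0 : 0 < ε := by rw [hε]; positivity
    have hε8 : ε ≤ 1 / 8 := by rw [hε]; exact min_le_left _ _
    have hεA : ε * A ≤ 1 / 20 := by
      have h1 : ε ≤ 1 / (20 * A) := by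
        rw [hε]; exact (min_le_right _ _).trans (min_le_left _ _)
      calc ε * A ≤ 1 / (20 * A) * A := by gcongr
        _ = 1 / 20 := by field_simp
    have hεM : ε * (M' + 2 + ρ l / 16) ≤ 1 := by
      have h1 : ε ≤ 1 / (M' + 3) := by
        rw [hε]; exact (min_le_right _ _).trans (min_le_right _ _)
      have h2 := hρ1 l
      calc ε * (M' + 2 + ρ l / 16) ≤ 1 / (M' + 3) * (M' + 3) :=
            mul_le_mul h1 (by linarith) (by linarith) (by positivity)
        _ = 1 := by field_simp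
    obtain ⟨e, he0, heS, hel, hes, hew, -⟩ := seq_of_omega (hω0 l)
      (c := ρ l / (10 ^ 8 * (d l + 1))) (by positivity) (hω l) hA0 hε0 hεA
    rw [← hD] at hes
    -- the sequence of the vector valued map
    have he0' : ∀ k, 0 < D * e k := fun k => by have := he0 k; positivity
    have heS' : Slow fun k => D * e k := by
      refine ⟨fun k => (he0' k).le, fun k => ?_, fun k => ?_⟩
      · have := heS.up k; nlinarith
      · have := heS.down k; nlinarith
    have hel' : ∀ k, |1 / (D * e (k + 1)) - 1 / (D * e k)| ≤ ε := by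
      intro k
      have h1 := hel k
      have h2 : 1 / (D * e (k + 1)) - 1 / (D * e k) = (1 / e (k + 1) - 1 / e k) / D := by
        have := he0 k
        have := he0 (k + 1)
        field_simp
      rw [h2, abs_div, abs_of_pos (show 0 < D by linarith), div_le_iff₀ (by linarith)]
      nlinarith
    have hes' : Summable fun k => Real.exp (-(a₀ * (ρ l / 16) / 12 / (D * e k))) := by
      refine Summable.of_nonneg_of_le (fun k => (Real.exp_pos _).le) (fun k => ?_) hes
      apply Real.exp_le_exp.mpr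
      have h1 := he0 k
      rw [neg_le_neg_iff]
      have h2 : a₀ * (ρ l / 16) / 12 / (D * e k) = (ρ l / (D * e k)) * (1 / 7680000) := by
        rw [show a₀ = 1 / 40000 from rfl]; field_simp; norm_num
      have h3 : 2 * (ρ l / (10 ^ 8 * D)) / e k = (ρ l / (D * e k)) * (1 / 50000000) := by
        field_simp; norm_num
      rw [h2, h3]
      have h4 : 0 ≤ ρ l / (D * e k) := by positivity
      nlinarith
    obtain ⟨r', C', hr', hC'⟩ := local_slow E (EuclideanSpace ℂ (Fin (d l))) hn N M' (C l) (ρ l)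
      (r l) (ρ l / 16) ε hM'2 (by positivity) (by linarith) (by have := hρ1 l; linarith) (hr l)
      hε0 (by linarith) hεM (fun k => D * e k) he0' heS' hel' hes'
      (fun k₁ => aug_fn he0' hel' hε8 k₁)
    refine ⟨r', C', hr', ?_⟩
    intro hl f hf hfM hu
    obtain ⟨u, hu1, hu2, hu3, hu4⟩ := hu
    have hMM : |M| ≤ M' := by
      rw [hM']
      nlinarith [abs_nonneg M]
    refine hC' l hl f (fun z => WithLp.toLp 2 fun i => u i z) hf
      (fun j z hz => (hfM j z hz).trans ((le_abs_self M).trans hMM)) ?_ ?_ ?_ ?_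
    · have h1 : DifferentiableOn ℂ (fun z => (fun i => u i z)) (ball (0 : E) 1) :=
        differentiableOn_pi.mpr hu1
      exact (PiLp.continuousLinearEquiv 2 ℂ (fun _ : Fin (d l) => ℂ)).symm.differentiable.comp_differentiableOn h1
    · intro z hz
      have h1 : ‖(WithLp.toLp 2 fun i => u i z : EuclideanSpace ℂ (Fin (d l)))‖ ≤
          D * (|M| + 1) := by
        apply le_of_sq_le_sq _ (by positivity)
        rw [EuclideanSpace.norm_sq_eq]
        calc ∑ i, ‖u i z‖ ^ 2 ≤ ∑ _i : Fin (d l), (|M| + 1) ^ 2 := by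
              apply Finset.sum_le_sum
              intro i _
              apply pow_le_pow_left₀ (norm_nonneg _)
              exact (hu2 i z hz).trans ((le_abs_self M).trans (by linarith))
          _ = d l * (|M| + 1) ^ 2 := by
              rw [Finset.sum_const, Finset.card_univ, Fintype.card_fin, nsmul_eq_mul]
          _ ≤ D ^ 2 * (|M| + 1) ^ 2 := by
              apply mul_le_mul_of_nonneg_right _ (by positivity)
              rw [hD]
              have : (0 : ℝ) ≤ d l := Nat.cast_nonneg _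
              nlinarith
          _ = _ := by ring
      rw [hM']; linarith
    · intro v hv
      have hg : ∀ i, Grad (u i) e := fun i =>
        grad_of_omega' (A := A) (M := M) (by rw [hA]; have := le_abs_self M; linarith) hew
          (hu1 i) (hu2 i) (hu3 i)
      have hv' : ∀ i, ‖(starRingEnd ℂ) (v i)‖ ≤ 1 := by
        intro i
        rw [RCLike.norm_conj]
        exact (PiLp.norm_apply_le v i).trans hv
      have h1 := Grad.sum' hg hv' Finset.univ
      have h2 : (fun z => ⟪v, (WithLp.toLp 2 fun i => u i z : EuclideanSpace ℂ (Fin (d l)))⟫_ℂ) =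
          fun z => ∑ i, (starRingEnd ℂ) (v i) * u i z := by
        funext z
        rw [PiLp.inner_apply]
        refine Finset.sum_congr rfl fun i _ => ?_
        rw [RCLike.inner_apply, mul_comm]
      rw [h2]
      refine Grad.mono' h1 fun k => ?_
      rw [Finset.card_univ, Fintype.card_fin, hD]
      have := (he0 k).le
      nlinarith
    · intro b hb
      refine (hu4 b hb).mono ?_
      rintro z ⟨hz1, hz2⟩
      refine ⟨hz1, fun i => lt_of_le_of_lt ?_ hz2⟩
      exact PiLp.norm_apply_le ((WithLp.toLp 2 fun i => u i z : EuclideanSpace ℂ (Fin (d l))) -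
        (WithLp.toLp 2 fun i => u i b : EuclideanSpace ℂ (Fin (d l)))) i
  choose r' C' hr' hC' using hloc
  obtain ⟨C₂, hfd⟩ := finite_depth (E := E) discCorona N M δ hδ (fun _ => 0) (fun _ => 1)
    r' C' (fun _ => one_pos) hr'
  refine ⟨C₂, ?_⟩
  intro f hf hfM hfδ hfl
  exact hfd f hf hfM hfδ fun l hl => hC' l (mem_sphere_zero_iff_norm.mp hl) f hf hfM (hfl l hl)

end Pool.Agent.MPca0fc2.SL
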