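import Mathlib
import Pool.Agent.Lib.MP_ca0fc2_an.SLMain
import Pool.Agent.Lib.MP_ca0fc2_an.Gleason
import Pool.Agent.Lib.MP_ca0fc2_an.SLCor0
import Pool.Agent.Lib.MP_ca0fc2_an.SDFin

set_option autoImplicit false

open Metric Set Filter Topology MeasureTheory
open scoped InnerProductSpace

namespace Pool.Agent.MPca0fc2.SL

open Pool.Agent.MPca0fc2.SD
open Pool.Agent.Lib.MP_ca0fc2_an

variable {E : Type*} [NormedAddCommGroup E] [InnerProductSpace ℂ E]

/-- One arbitrary function, the others locally uniformly close to slow functions. -/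
theorem all_but_one_slow [FiniteDimensional ℂ E] (hn : 2 ≤ Module.finrank ℂ E) (N : ℕ) (M δ : ℝ)
    (hδ : 0 < δ) : ∃ η : ℝ, 0 < η ∧ ∀ (r : E → ℝ) (ω : E → ℝ → ℝ), (∀ l, 0 < r l) →
    (∀ l, ∀ t ∈ Ioo (0 : ℝ) 1, 0 < ω l t) →
    (∀ l, IntegrableOn (fun t => Real.exp (-(η / (10 ^ 8 * (N + 1)) / ω l t)) / t)
      (Ioo 0 1)) →
    ∃ C' : ℝ, ∀ f : Fin N → E → ℂ,
      (∀ j, DifferentiableOn ℂ (f j) (ball 0 1)) →
      (∀ j, ∀ z ∈ ball (0 : E) 1, ‖f j z‖ ≤ M) →
      (∀ z ∈ ball (0 : E) 1, δ ≤ ∑ j, ‖f j z‖ ^ 2) →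
      (∀ l ∈ sphere (0 : E) 1, ∃ j₀ : Fin N, ∀ j ≠ j₀, ∃ g : E → ℂ,
        DifferentiableOn ℂ g (ball 0 1) ∧ (∀ z ∈ ball (0 : E) 1, ‖g z‖ ≤ M) ∧
        (∀ z ∈ ball (0 : E) 1, (1 - ‖z‖) * ‖fderiv ℂ g z‖ ≤ ω l (1 - ‖z‖)) ∧
        ∀ z ∈ ball (0 : E) 1 ∩ ball l (r l), ‖f j z - g z‖ ≤ η) →
      SolvableOn f (ball 0 1) C' := by
  classical
  obtain ⟨σ, hσd⟩ : ∃ σ, σ = Real.sqrt (δ / (8 * (N + 1))) := ⟨_, rfl⟩
  have hσ : 0 < σ := by rw [hσd]; exact Real.sqrt_pos.mpr (by positivity)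
  have hσ2 : σ ^ 2 = δ / (8 * (N + 1)) := by rw [hσd]; exact Real.sq_sqrt (by positivity)
  obtain ⟨η, hη⟩ : ∃ η, η = min (σ / 4) 1 := ⟨_, rfl⟩
  have hη0 : 0 < η := by rw [hη]; positivity
  have hη1 : η ≤ 1 := by rw [hη]; exact min_le_right _ _
  have hησ : η ≤ σ / 4 := by rw [hη]; exact min_le_left _ _
  refine ⟨η, hη0, ?_⟩
  intro r ω hr hω0 hω
  obtain ⟨C', hC'⟩ := slow_main (E := E) hn N M δ hδ (fun _ => N) r (fun _ => η)
    (fun _ => max (1 / (σ / 2)) (1 / Real.sqrt (δ / 2))) (fun l t => max (ω l t) 0) hr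
    (fun _ => hη0) (fun _ => hη1) (fun l t ht => lt_max_of_lt_left (hω0 l t ht)) (fun l => by
      refine (hω l).congr_fun (fun t ht => ?_) measurableSet_Ioo
      simp only [max_eq_left (hω0 l t ht).le])
  refine ⟨C', ?_⟩
  intro f hf hfM hfδ hfg
  apply hC' f hf hfM hfδ
  intro l hl
  obtain ⟨j₀, hj₀⟩ := hfg l hl
  have hM0 : 0 ≤ M := (norm_nonneg _).trans (hfM j₀ 0 (mem_ball_self one_pos))
  choose! g hg1 hg2 hg3 hg4 using hj₀
  refine ⟨fun j => if j = j₀ then fun _ => 0 else g j, ?_, ?_, ?_, ?_⟩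
  · intro j
    by_cases hj : j = j₀
    · simp only [hj, if_true]; exact differentiableOn_const _
    · simp only [hj, if_false]; exact hg1 j hj
  · intro j z hz
    by_cases hj : j = j₀
    · simp only [hj, if_true, norm_zero]; exact hM0
    · simp only [hj, if_false]; exact hg2 j hj z hz
  · intro j z hz
    by_cases hj : j = j₀
    · simp only [hj, if_true, fderiv_fun_const, Pi.zero_apply, norm_zero, mul_zero]
      exact le_max_right _ _
    · simp only [hj, if_false]; exact (hg3 j hj z hz).trans (le_max_left _ _)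
  · intro b hb
    by_cases hcase : ∃ j, j ≠ j₀ ∧ σ ≤ ‖g j b‖
    · obtain ⟨j, hj, hjb⟩ := hcase
      apply solvableOn_one_div j ((hf j).mono fun z hz => hz.1.1) (σ := σ / 2) (by positivity)
      · rintro z ⟨hz1, hz2⟩
        have h1 := hz2 j
        simp only [hj, if_false] at h1
        have h2 := hg4 j hj z hz1
        have h3 : ‖g j b‖ ≤ ‖f j z‖ + ‖f j z - g j z‖ + ‖g j z - g j b‖ := by
          calc ‖g j b‖ = ‖f j z - (f j z - g j z) - (g j z - g j b)‖ := by congr 1; ring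
            _ ≤ ‖f j z - (f j z - g j z)‖ + ‖g j z - g j b‖ := norm_sub_le _ _
            _ ≤ _ := by gcongr; exact norm_sub_le _ _
        linarith
      · exact le_max_left _ _
    · push Not at hcase
      have hδ2 : 0 < Real.sqrt (δ / 2) := Real.sqrt_pos.mpr (by positivity)
      apply solvableOn_one_div j₀ ((hf j₀).mono fun z hz => hz.1.1) hδ2
      · rintro z ⟨hz1, hz2⟩
        apply Real.sqrt_le_iff.mpr
        refine ⟨norm_nonneg _, ?_⟩
        have h1 := hfδ z hz1.1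
        rw [← Finset.add_sum_erase _ _ (Finset.mem_univ j₀)] at h1
        have h2 : ∑ j ∈ Finset.univ.erase j₀, ‖f j z‖ ^ 2 ≤ N * (3 / 2 * σ) ^ 2 := by
          calc ∑ j ∈ Finset.univ.erase j₀, ‖f j z‖ ^ 2 ≤
                ∑ _j ∈ Finset.univ.erase j₀, (3 / 2 * σ) ^ 2 := by
                apply Finset.sum_le_sum
                intro j hj
                have hj' : j ≠ j₀ := (Finset.mem_erase.mp hj).1
                apply pow_le_pow_left₀ (norm_nonneg _)
                have h3 := hz2 j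
                simp only [hj', if_false] at h3
                have h4 := hg4 j hj' z hz1
                have h5 := hcase j hj'
                have h6 : ‖f j z‖ ≤ ‖f j z - g j z‖ + ‖g j z - g j b‖ + ‖g j b‖ := by
                  calc ‖f j z‖ = ‖(f j z - g j z) + (g j z - g j b) + g j b‖ := by
                        congr 1; ring
                    _ ≤ _ := norm_add₃_le
                linarith
            _ = (Finset.univ.erase j₀).card * (3 / 2 * σ) ^ 2 := by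
                rw [Finset.sum_const, nsmul_eq_mul]
            _ ≤ N * (3 / 2 * σ) ^ 2 := by
                gcongr
                calc (Finset.univ.erase j₀).card ≤ (Finset.univ : Finset (Fin N)).card :=
                      Finset.card_le_card (Finset.erase_subset _ _)
                  _ = N := by rw [Finset.card_univ, Fintype.card_fin]
        have h3 : N * (3 / 2 * σ) ^ 2 ≤ δ / 2 := by
          rw [mul_pow, hσ2]
          have hN0 : (0 : ℝ) ≤ N := Nat.cast_nonneg _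
          rw [show (N : ℝ) * ((3 / 2) ^ 2 * (δ / (8 * (N + 1)))) =
            (N / (N + 1)) * (9 / 32 * δ) by field_simp; ring]
          have h4 : (N : ℝ) / (N + 1) ≤ 1 := by rw [div_le_one (by positivity)]; linarith
          nlinarith
        linarith
      · exact le_max_right _ _

/-- For a bounded holomorphic function the radial derivative controls the whole gradient, up to
an error which is harmless for the flow. -/
theorem radial_grad {g : E → ℂ} {M : ℝ} {ω : ℝ → ℝ} (hg : DifferentiableOn ℂ g (ball 0 1))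
    (hM : ∀ z ∈ ball (0 : E) 1, ‖g z‖ ≤ M)
    (hR : ∀ z ∈ ball (0 : E) 1, (1 - ‖z‖) * ‖fderiv ℂ g z z‖ ≤ ω (1 - ‖z‖)) :
    ∀ z ∈ ball (0 : E) 1, (1 - ‖z‖) * ‖fderiv ℂ g z‖ ≤
      max (4 * ω (1 - ‖z‖)) (8 * M * Real.sqrt (1 - ‖z‖)) := by
  intro z hz
  have hz1 : ‖z‖ < 1 := mem_ball_zero_iff.mp hz
  have hM0 : 0 ≤ M := (norm_nonneg _).trans (hM z hz)
  have ht : 0 < 1 - ‖z‖ := by linarith
  have hω0 : 0 ≤ ω (1 - ‖z‖) := le_trans (by positivity) (hR z hz)
  obtain ⟨s, hs⟩ : ∃ s, s = Real.sqrt (1 - ‖z‖) := ⟨_, rfl⟩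
  have hs0 : 0 < s := by rw [hs]; exact Real.sqrt_pos.mpr ht
  have hs2 : s ^ 2 = 1 - ‖z‖ := by rw [hs]; exact Real.sq_sqrt ht.le
  have hmain : (1 - ‖z‖) * ‖fderiv ℂ g z‖ ≤ 2 * ω (1 - ‖z‖) + 4 * M * s := by
    rw [mul_comm, ← le_div_iff₀ ht]
    apply ContinuousLinearMap.opNorm_le_bound _ (by positivity)
    intro v
    rcases le_or_gt (1 / 2) ‖z‖ with h2 | h2
    · have hzn : 0 < ‖z‖ := by linarith
      set e : E := ((‖z‖ : ℂ))⁻¹ • z with he
      have he1 : ‖e‖ = 1 := by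
        rw [he, norm_smul, norm_inv, Complex.norm_real, Real.norm_of_nonneg hzn.le]
        field_simp
      have hze : z = (‖z‖ : ℂ) • e := by
        rw [he, smul_smul, mul_inv_cancel₀ (by exact_mod_cast hzn.ne'), one_smul]
      set α : ℂ := ⟪e, v⟫_ℂ * ((‖z‖ : ℂ))⁻¹ with hα
      have hv : v = α • z + prj e v := by
        conv_lhs => rw [← dec_eq (e := e) v]
        congr 1
        rw [hα, mul_smul, ← he]
      have hα' : ‖α‖ ≤ 2 * ‖v‖ := by
        rw [hα, norm_mul, norm_inv, Complex.norm_real, Real.norm_of_nonneg hzn.le]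
        have h3 := norm_inner_le he1 v
        have h4 : ‖z‖⁻¹ ≤ 2 := by
          rw [inv_le_comm₀ hzn (by norm_num)]; linarith
        calc ‖⟪e, v⟫_ℂ‖ * ‖z‖⁻¹ ≤ ‖v‖ * 2 := by gcongr
          _ = 2 * ‖v‖ := by ring
      have hT := norm_fderiv_tangential hg hM hz (u := prj e v) (by
        rw [hze, inner_smul_left, inner_prj he1, mul_zero])
      have h5 : s ≤ Real.sqrt (1 - ‖z‖ ^ 2) := by
        rw [hs]; apply Real.sqrt_le_sqrt; nlinarith [norm_nonneg z]
      have h6 : ‖fderiv ℂ g z (prj e v)‖ * s ≤ 2 * M * ‖v‖ := by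
        calc ‖fderiv ℂ g z (prj e v)‖ * s ≤ ‖fderiv ℂ g z (prj e v)‖ * Real.sqrt (1 - ‖z‖ ^ 2) :=
              by gcongr
          _ ≤ 2 * M * ‖prj e v‖ := hT
          _ ≤ 2 * M * ‖v‖ := by gcongr; exact norm_prj_le he1 v
      have h7 : ‖fderiv ℂ g z v‖ ≤ ‖α‖ * ‖fderiv ℂ g z z‖ + ‖fderiv ℂ g z (prj e v)‖ := by
        conv_lhs => rw [hv]
        rw [map_add, map_smul, smul_eq_mul]
        exact (norm_add_le _ _).trans (by rw [norm_mul])
      have h8 := hR z hz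
      rw [div_mul_eq_mul_div, le_div_iff₀ ht]
      have h9 : ‖α‖ * ‖fderiv ℂ g z z‖ * (1 - ‖z‖) ≤ 2 * ‖v‖ * ω (1 - ‖z‖) := by
        calc ‖α‖ * ‖fderiv ℂ g z z‖ * (1 - ‖z‖) = ‖α‖ * ((1 - ‖z‖) * ‖fderiv ℂ g z z‖) := by ring
          _ ≤ 2 * ‖v‖ * ω (1 - ‖z‖) := by gcongr
      have h10 : ‖fderiv ℂ g z (prj e v)‖ * (1 - ‖z‖) ≤ 2 * M * ‖v‖ * s := by
        rw [← hs2]
        calc ‖fderiv ℂ g z (prj e v)‖ * s ^ 2 = ‖fderiv ℂ g z (prj e v)‖ * s * s := by ring
          _ ≤ 2 * M * ‖v‖ * s := by gcongr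
      have h11 : 0 ≤ M * ‖v‖ * s := by positivity
      calc ‖fderiv ℂ g z v‖ * (1 - ‖z‖) ≤
            (‖α‖ * ‖fderiv ℂ g z z‖ + ‖fderiv ℂ g z (prj e v)‖) * (1 - ‖z‖) := by gcongr
        _ ≤ 2 * ‖v‖ * ω (1 - ‖z‖) + 2 * M * ‖v‖ * s := by linarith
        _ ≤ _ := by linarith
    · have hsub : ball z (1 - ‖z‖) ⊆ ball (0 : E) 1 := by
        intro w hw
        rw [mem_ball, dist_eq_norm] at hw
        rw [mem_ball_zero_iff]
        calc ‖w‖ = ‖z + (w - z)‖ := by congr 1; abel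
          _ ≤ ‖z‖ + ‖w - z‖ := norm_add_le _ _
          _ < 1 := by linarith
      have h3 := norm_fderiv_apply_le ht (hg.mono hsub) (fun w hw => hM w (hsub hw)) v
      refine h3.trans ?_
      gcongr
      have h4 : 1 / 2 ≤ s := by
        rw [hs]; apply Real.le_sqrt_of_sq_le; nlinarith
      nlinarith
  rw [← hs]
  refine hmain.trans ?_
  rcases le_total (2 * ω (1 - ‖z‖)) (4 * M * s) with h | h
  · exact le_trans (by linarith) (le_max_right _ _)
  · exact le_trans (by linarith) (le_max_left _ _)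

theorem integrableOn_exp_sqrt {c K : ℝ} (hc : 0 < c) (hK : 0 < K) :
    IntegrableOn (fun t => Real.exp (-(c / (K * Real.sqrt t))) / t) (Ioo 0 1) := by
  refine Measure.integrableOn_of_bounded (M := 2 * (K / c) ^ 2) (by simp)
    (Measurable.aestronglyMeasurable (by fun_prop)) ?_
  · refine (ae_restrict_iff' measurableSet_Ioo).mpr (Eventually.of_forall fun t ht => ?_)
    have ht0 := ht.1
    have hs : 0 < Real.sqrt t := Real.sqrt_pos.mpr ht0
    rw [Real.norm_of_nonneg (by positivity), div_le_iff₀ ht0]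
    obtain ⟨x, hx⟩ : ∃ x, x = c / (K * Real.sqrt t) := ⟨_, rfl⟩
    have hx0 : 0 < x := by rw [hx]; positivity
    rw [← hx]
    have h1 : x ^ 2 / 2 ≤ Real.exp x := by
      have := Real.quadratic_le_exp_of_nonneg hx0.le
      linarith
    have h2 : Real.exp (-x) ≤ 2 / x ^ 2 := by
      rw [Real.exp_neg, ← one_div, div_le_div_iff₀ (Real.exp_pos _) (by positivity)]
      linarith
    refine h2.trans (le_of_eq ?_)
    rw [hx]
    have h3 : t = Real.sqrt t ^ 2 := (Real.sq_sqrt ht0.le).symm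
    conv_rhs => rw [h3]
    field_simp

theorem integrableOn_max {ω : ℝ → ℝ} {c K : ℝ} (hω0 : ∀ t ∈ Ioo (0 : ℝ) 1, 0 < ω t) (hc : 0 < c)
    (hK : 0 < K)
    (hω : IntegrableOn (fun t => Real.exp (-(c / 4 / ω t)) / t) (Ioo 0 1)) :
    IntegrableOn (fun t => Real.exp (-(c / max (4 * ω t) (K * Real.sqrt t))) / t) (Ioo 0 1) := by
  have h1 := hω.sup (integrableOn_exp_sqrt hc hK)
  refine IntegrableOn.congr_fun h1 (fun t ht => ?_) measurableSet_Ioo
  have ht0 := ht.1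
  have hs : 0 < Real.sqrt t := Real.sqrt_pos.mpr ht0
  have h0 := hω0 t ht
  simp only [Pi.sup_apply]
  rcases le_total (4 * ω t) (K * Real.sqrt t) with h | h
  · rw [max_eq_right h]
    apply max_eq_right
    apply div_le_div_of_nonneg_right _ ht0.le
    apply Real.exp_le_exp.mpr
    rw [neg_le_neg_iff, div_div]
    gcongr
  · rw [max_eq_left h]
    rw [show c / (4 * ω t) = c / 4 / ω t by rw [div_div]]
    apply max_eq_left
    apply div_le_div_of_nonneg_right _ ht0.le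
    apply Real.exp_le_exp.mpr
    rw [neg_le_neg_iff, div_div]
    gcongr

/-- One arbitrary function, the others locally uniformly close to functions whose radial
derivative is small. -/
theorem all_but_one_slow_radial [FiniteDimensional ℂ E] (hn : 2 ≤ Module.finrank ℂ E) (N : ℕ)
    (M δ : ℝ) (hδ : 0 < δ) : ∃ η : ℝ, 0 < η ∧ ∀ (r : E → ℝ) (ω : E → ℝ → ℝ), (∀ l, 0 < r l) →
    (∀ l, ∀ t ∈ Ioo (0 : ℝ) 1, 0 < ω l t) →
    (∀ l, IntegrableOn (fun t => Real.exp (-(η / (10 ^ 8 * (N + 1)) / 4 / ω l t)) / t)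
      (Ioo 0 1)) →
    ∃ C' : ℝ, ∀ f : Fin N → E → ℂ,
      (∀ j, DifferentiableOn ℂ (f j) (ball 0 1)) →
      (∀ j, ∀ z ∈ ball (0 : E) 1, ‖f j z‖ ≤ M) →
      (∀ z ∈ ball (0 : E) 1, δ ≤ ∑ j, ‖f j z‖ ^ 2) →
      (∀ l ∈ sphere (0 : E) 1, ∃ j₀ : Fin N, ∀ j ≠ j₀, ∃ g : E → ℂ,
        DifferentiableOn ℂ g (ball 0 1) ∧ (∀ z ∈ ball (0 : E) 1, ‖g z‖ ≤ M) ∧
        (∀ z ∈ ball (0 : E) 1, (1 - ‖z‖) * ‖fderiv ℂ g z z‖ ≤ ω l (1 - ‖z‖)) ∧
        ∀ z ∈ ball (0 : E) 1 ∩ ball l (r l), ‖f j z - g z‖ ≤ η) →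
      SolvableOn f (ball 0 1) C' := by
  obtain ⟨η, hη, h⟩ := all_but_one_slow (E := E) hn N M δ hδ
  refine ⟨η, hη, fun r ω hr hω0 hω => ?_⟩
  have hK : 0 < 8 * (|M| + 1) := by positivity
  obtain ⟨C', hC'⟩ := h r (fun l t => max (4 * ω l t) (8 * (|M| + 1) * Real.sqrt t)) hr
    (fun l t ht => lt_max_of_lt_left (by have := hω0 l t ht; positivity))
    (fun l => integrableOn_max (hω0 l) (by positivity) hK (hω l))
  refine ⟨C', fun f hf hfM hfδ hfl => hC' f hf hfM hfδ fun l hl => ?_⟩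
  obtain ⟨j₀, hj₀⟩ := hfl l hl
  refine ⟨j₀, fun j hj => ?_⟩
  obtain ⟨g, hg1, hg2, hg3, hg4⟩ := hj₀ j hj
  refine ⟨g, hg1, hg2, fun z hz => ?_, hg4⟩
  refine (radial_grad hg1 hg2 hg3 z hz).trans (max_le_max le_rfl ?_)
  gcongr
  have := le_abs_self M
  linarith

end Pool.Agent.MPca0fc2.SL
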