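import Mathlib
import Pool.Agent.Lib.MP_ca0fc2_an.CGMain
import Pool.Agent.Lib.MP_ca0fc2_an.DiscCor
import Pool.Agent.Lib.MP_ca0fc2_an.DACut
import Pool.Agent.Lib.MP_ca0fc2_an.DACls
import Pool.Agent.Lib.MP_ca0fc2_an.SLCor

set_option autoImplicit false

open Metric Set MeasureTheory Filter Topology
open scoped InnerProductSpace ENNReal

namespace Pool.Agent.MPca0fc2.CGCor

open Pool.Agent.Lib.MP_ca0fc2_an
open Pool.Agent.MPca0fc2.DA (cut_of_cells)

variable {E : Type*} [NormedAddCommGroup E] [InnerProductSpace ℂ E]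
variable [MeasurableSpace E]

omit [MeasurableSpace E] in
theorem solvableOn_one_div {N : ℕ} {f : Fin N → E → ℂ} {D : Set E} {C σ : ℝ} (j : Fin N)
    (hf : DifferentiableOn ℂ (f j) D) (hσ : 0 < σ) (h : ∀ z ∈ D, σ ≤ ‖f j z‖)
    (hC : 1 / σ ≤ C) : SolvableOn f D C := by
  classical
  have hne : ∀ z ∈ D, f j z ≠ 0 := fun z hz h0 => by
    have := h z hz
    rw [h0, norm_zero] at this
    linarith
  have hC0 : 0 ≤ C := (by positivity : (0 : ℝ) ≤ 1 / σ).trans hC
  refine ⟨fun i => if i = j then fun z => (f j z)⁻¹ else fun _ => 0, ?_, ?_, ?_⟩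
  · intro i
    by_cases hij : i = j
    · simp only [hij, if_true]
      exact hf.inv hne
    · simp only [hij, if_false]
      exact differentiableOn_const _
  · intro i z hz
    by_cases hij : i = j
    · simp only [hij, if_true, norm_inv]
      rw [← one_div]
      exact (one_div_le_one_div_of_le hσ (h z hz)).trans hC
    · simp only [hij, if_false, norm_zero]
      exact hC0
  · intro z hz
    rw [Finset.sum_eq_single j]
    · simp only [if_true]
      exact mul_inv_cancel₀ (hne z hz)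
    · intro i _ hij
      simp only [hij, if_false, mul_zero]
    · intro hj
      exact absurd (Finset.mem_univ j) hj

theorem cut_space (n : ℕ) (hn : 2 ≤ n) (N : ℕ) (M δ : ℝ) (hδ : 0 < δ)
    (k : EuclideanSpace ℂ (Fin n) → ℕ) (η ρ C p A : EuclideanSpace ℂ (Fin n) → ℝ)
    (hη : ∀ l, 0 < η l) (hρ : ∀ l, 0 < ρ l) (hp : ∀ l, 0 < p l) :
    ∃ C' : ℝ, ∀ f : Fin N → EuclideanSpace ℂ (Fin n) → ℂ,
      (∀ j, DifferentiableOn ℂ (f j) (ball 0 1)) →
      (∀ j, ∀ z ∈ ball (0 : EuclideanSpace ℂ (Fin n)) 1, ‖f j z‖ ≤ M) →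
      (∀ z ∈ ball (0 : EuclideanSpace ℂ (Fin n)) 1, δ ≤ ∑ j, ‖f j z‖ ^ 2) →
      (∀ l ∈ sphere (0 : EuclideanSpace ℂ (Fin n)) 1,
        CutSolvable f (C l) (η l) (p l) (A l) (k l) (ball 0 1 ∩ ball l (ρ l))) →
      SolvableOn f (ball 0 1) C' := by
  obtain ⟨m, hm⟩ : ∃ m, n = m + 1 := ⟨n - 1, by omega⟩
  subst hm
  exact Pool.Agent.MPca0fc2.CG.cut_main discCorona (by omega) finrank_euclideanSpace_fin N M δ hδ
    k η ρ C p A hη hρ hp

/-- The zero function has a Carleson gradient. -/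
theorem CG_zero {p A : ℝ} (hp : 0 < p) : CarlesonGradient p A fun _ : E => (0 : ℂ) := by
  refine ⟨0, fun w _ => by simp, fun z _ => ?_⟩
  have h1 : fderiv ℂ (fun _ : E => (0 : ℂ)) z = 0 := by simp
  have h2 : invGrad2 (fun _ : E => (0 : ℂ)) z = 0 := by
    unfold invGrad2
    rw [h1]
    simp
  rw [h2, Real.zero_rpow (by positivity)]
  simp

/-- A multiple of a function with a Carleson gradient by a constant of modulus at most `1`. -/
theorem CG_smul {p A : ℝ} (hp : 0 < p) {u : E → ℂ} (hu : DifferentiableOn ℂ u (ball 0 1))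
    (h : CarlesonGradient p A u) {c : ℂ} (hc : ‖c‖ ≤ 1) :
    CarlesonGradient p A fun z => c * u z := by
  obtain ⟨ν, h1, h2⟩ := h
  refine ⟨ν, h1, fun z hz => le_trans ?_ (h2 z hz)⟩
  have hd : DifferentiableAt ℂ u z := (hu z hz).differentiableAt (isOpen_ball.mem_nhds hz)
  have h3 : fderiv ℂ (fun z => c * u z) z = c • fderiv ℂ u z := fderiv_const_mul hd c
  have hz1 : ‖z‖ < 1 := by simpa using hz
  have hb : ‖fderiv ℂ u z z‖ ≤ ‖fderiv ℂ u z‖ := by
    calc ‖fderiv ℂ u z z‖ ≤ ‖fderiv ℂ u z‖ * ‖z‖ := ContinuousLinearMap.le_opNorm _ _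
      _ ≤ ‖fderiv ℂ u z‖ * 1 := by gcongr
      _ = _ := mul_one _
  have hnn : 0 ≤ ‖fderiv ℂ u z‖ ^ 2 - ‖fderiv ℂ u z z‖ ^ 2 := by
    have := pow_le_pow_left₀ (norm_nonneg _) hb 2
    linarith
  have h0 : 0 ≤ invGrad2 u z := by
    unfold invGrad2
    have : 0 ≤ 1 - ‖z‖ ^ 2 := by nlinarith [norm_nonneg z]
    exact mul_nonneg this hnn
  have h4 : invGrad2 (fun z => c * u z) z = ‖c‖ ^ 2 * invGrad2 u z := by
    unfold invGrad2
    rw [h3, norm_smul, ContinuousLinearMap.smul_apply, norm_smul]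
    ring
  rw [h4]
  refine Real.rpow_le_rpow (by positivity) ?_ (by positivity)
  have h5 : ‖c‖ ^ 2 ≤ 1 := pow_le_one₀ (norm_nonneg _) hc
  nlinarith

/-- The corona theorem on the ball for one arbitrary bounded holomorphic function and functions
with Carleson gradients. -/
theorem all_but_one_carleson (n : ℕ) (hn : 2 ≤ n) (N : ℕ) (M δ p A : ℝ) (hδ : 0 < δ)
    (hp : 0 < p) :
    ∃ C' : ℝ, ∀ f : Fin N → EuclideanSpace ℂ (Fin n) → ℂ,
      (∀ j, DifferentiableOn ℂ (f j) (ball 0 1)) →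
      (∀ j, ∀ z ∈ ball (0 : EuclideanSpace ℂ (Fin n)) 1, ‖f j z‖ ≤ M) →
      (∀ z ∈ ball (0 : EuclideanSpace ℂ (Fin n)) 1, δ ≤ ∑ j, ‖f j z‖ ^ 2) →
      (∃ j₀, ∀ j, j ≠ j₀ → CarlesonGradient p A (f j)) →
      SolvableOn f (ball 0 1) C' := by
  classical
  obtain ⟨M', hM'⟩ : ∃ M', M' = max M 1 := ⟨_, rfl⟩
  have hM1 : 1 ≤ M' := by rw [hM']; exact le_max_right _ _
  have hMM : M ≤ M' := by rw [hM']; exact le_max_left _ _
  obtain ⟨ε, hε⟩ : ∃ ε, ε = Real.sqrt (δ / (12 * (N + 1))) := ⟨_, rfl⟩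
  have hε0 : 0 < ε := by rw [hε]; exact Real.sqrt_pos.2 (by positivity)
  have hε2 : ε ^ 2 * (12 * (N + 1)) = δ := by
    rw [hε, Real.sq_sqrt (by positivity)]
    field_simp
  obtain ⟨C, hC⟩ : ∃ C, C = max (1 / ε) (1 / (Real.sqrt δ / 2)) := ⟨_, rfl⟩
  obtain ⟨C', hC'⟩ := cut_space n hn N M δ hδ (fun _ => N) (fun _ => ε / (2 * M')) (fun _ => 1)
    (fun _ => C) (fun _ => p) (fun _ => A) (fun _ => by positivity) (fun _ => one_pos)
    (fun _ => hp)
  refine ⟨C', fun f hf hfM hfδ hj => hC' f hf hfM hfδ fun l _ => ?_⟩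
  obtain ⟨j₀, hj₀⟩ := hj
  have hcM : ‖((M' : ℂ))⁻¹‖ ≤ 1 := by
    rw [norm_inv, Complex.norm_real, Real.norm_eq_abs, abs_of_pos (by linarith)]
    exact inv_le_one_of_one_le₀ hM1
  refine cut_of_cells (fun j z => if j = j₀ then 0 else ((M' : ℂ))⁻¹ * f j z) ?_ ?_ ?_ ?_
  · intro j
    by_cases h : j = j₀
    · simp only [h, if_true]; exact differentiableOn_const _
    · simp only [h, if_false]; exact (hf j).const_mul _
  · intro j z hz
    by_cases h : j = j₀
    · simp [h]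
    · simp only [h, if_false]
      rw [norm_mul, norm_inv, Complex.norm_real, Real.norm_eq_abs, abs_of_pos (by linarith),
        inv_mul_le_iff₀ (by linarith), mul_one]
      exact (hfM j z hz).trans hMM
  · intro j
    by_cases h : j = j₀
    · simp only [h, if_true]; exact CG_zero hp
    · simp only [h, if_false]; exact CG_smul hp (hf j) (hj₀ j h) hcM
  · intro b hb
    have hcell : ∀ j, j ≠ j₀ → ∀ z ∈ (ball 0 1 ∩ ball l 1) ∩ {z | ∀ i : Fin N,
        ‖(if i = j₀ then 0 else ((M' : ℂ))⁻¹ * f i z) -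
          (if i = j₀ then 0 else ((M' : ℂ))⁻¹ * f i b)‖ < 2 * (ε / (2 * M'))},
        ‖f j z - f j b‖ < ε := by
      intro j hj z hz
      have h1 := hz.2 j
      simp only [hj, if_false] at h1
      rw [← mul_sub, norm_mul, norm_inv, Complex.norm_real, Real.norm_eq_abs,
        abs_of_pos (by linarith), inv_mul_lt_iff₀ (by linarith)] at h1
      calc ‖f j z - f j b‖ < M' * (2 * (ε / (2 * M'))) := h1
        _ = ε := by
          have : M' ≠ 0 := by linarith
          field_simp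
    by_cases hcase : ∃ j, j ≠ j₀ ∧ 2 * ε ≤ ‖f j b‖
    · obtain ⟨j, hj, hjb⟩ := hcase
      refine solvableOn_one_div j ((hf j).mono fun z hz => hz.1.1) hε0 ?_
        (by rw [hC]; exact le_max_left _ _)
      intro z hz
      have h1 := hcell j hj z hz
      have h2 : ‖f j b‖ ≤ ‖f j z‖ + ‖f j z - f j b‖ := by
        calc ‖f j b‖ = ‖f j z - (f j z - f j b)‖ := by congr 1; ring
          _ ≤ _ := norm_sub_le _ _
      linarith
    · push Not at hcase
      have hs0 : 0 < Real.sqrt δ := Real.sqrt_pos.2 hδ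
      refine solvableOn_one_div j₀ ((hf j₀).mono fun z hz => hz.1.1)
        (σ := Real.sqrt δ / 2) (by positivity) ?_ (by rw [hC]; exact le_max_right _ _)
      intro z hz
      have h1 := hfδ z hz.1.1
      have h2 : ∀ j, j ≠ j₀ → ‖f j z‖ ^ 2 ≤ 9 * ε ^ 2 := by
        intro j hj
        have h3 := hcell j hj z hz
        have h4 := hcase j hj
        have h5 : ‖f j z‖ ≤ ‖f j z - f j b‖ + ‖f j b‖ := by
          calc ‖f j z‖ = ‖(f j z - f j b) + f j b‖ := by congr 1; ring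
            _ ≤ _ := norm_add_le _ _
        have h6 : ‖f j z‖ ≤ 3 * ε := by linarith
        calc ‖f j z‖ ^ 2 ≤ (3 * ε) ^ 2 := pow_le_pow_left₀ (norm_nonneg _) h6 2
          _ = 9 * ε ^ 2 := by ring
      rw [← Finset.add_sum_erase _ _ (Finset.mem_univ j₀)] at h1
      have h3 : ∑ j ∈ Finset.univ.erase j₀, ‖f j z‖ ^ 2 ≤ N * (9 * ε ^ 2) := by
        calc ∑ j ∈ Finset.univ.erase j₀, ‖f j z‖ ^ 2
            ≤ ∑ _j ∈ Finset.univ.erase j₀, 9 * ε ^ 2 :=
              Finset.sum_le_sum fun j hj => h2 j (Finset.ne_of_mem_erase hj)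
          _ = (Finset.univ.erase j₀).card * (9 * ε ^ 2) := by
              rw [Finset.sum_const, nsmul_eq_mul]
          _ ≤ N * (9 * ε ^ 2) := by
              gcongr
              calc (Finset.univ.erase j₀).card ≤ (Finset.univ : Finset (Fin N)).card :=
                    Finset.card_erase_le
                _ = N := by simp
      have h4 : (N : ℝ) * (9 * ε ^ 2) ≤ 3 / 4 * δ := by
        rw [← hε2]
        nlinarith [sq_nonneg ε, (Nat.cast_nonneg N : (0 : ℝ) ≤ N)]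
      have h5 : (Real.sqrt δ / 2) ^ 2 ≤ ‖f j₀ z‖ ^ 2 := by
        rw [div_pow, Real.sq_sqrt hδ.le]
        linarith
      exact le_of_sq_le_sq h5 (norm_nonneg _)

end Pool.Agent.MPca0fc2.CGCor
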