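import Mathlib
import Pool.Agent.Lib.MP_ca0fc2_an.CGMain
import Pool.Agent.Lib.MP_ca0fc2_an.DiscCor

set_option autoImplicit false

open Metric Set MeasureTheory
open Pool.Agent.Lib.MP_ca0fc2_an

namespace Pool.Agent.MPca0fc2.CG

/-- Localization of the corona problem on the unit ball of `ℂⁿ`, `n ≥ 2`, by adaptive cuts along
complex lines and along functions with Carleson gradients. Given are numbers `n`, `N`, `M`, `δ > 0`
and, for each boundary point `l`, numbers `k l` (the number of cuts), `η l > 0` (the relative size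
of the pieces), `ρ l > 0`, `C l`, `p l > 0` and `A l`. Then there is a constant `C'` such that the
following holds. Let `f_1, ..., f_N` be holomorphic on the ball, with `|f_j| ≤ M` and
`∑ |f_j|² ≥ δ`. Assume that for each boundary point `l` the part of the ball in `ball l (ρ l)` can be
cut `k l` times, each time by the cells of a complex line or of a function `u` with `|u| ≤ 1` and
`CarlesonGradient (p l) (A l) u`, chosen separately for each piece, in such a way that on the final
pieces the equation `∑ f_j h_j = 1` can be solved with the bound `C l`. Then it can be solved on the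
whole ball with the bound `C'`. -/
theorem carleson_localization (n : ℕ) (hn : 2 ≤ n) (N : ℕ) (M δ : ℝ) (hδ : 0 < δ)
    (k : EuclideanSpace ℂ (Fin n) → ℕ) (η ρ C p A : EuclideanSpace ℂ (Fin n) → ℝ)
    (hη : ∀ l, 0 < η l) (hρ : ∀ l, 0 < ρ l) (hp : ∀ l, 0 < p l) :
    ∃ C' : ℝ, ∀ f : Fin N → EuclideanSpace ℂ (Fin n) → ℂ,
      (∀ j, DifferentiableOn ℂ (f j) (ball 0 1)) →
      (∀ j, ∀ z ∈ ball (0 : EuclideanSpace ℂ (Fin n)) 1, ‖f j z‖ ≤ M) →
      (∀ z ∈ ball (0 : EuclideanSpace ℂ (Fin n)) 1, δ ≤ ∑ j, ‖f j z‖ ^ 2) →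
      (∀ l ∈ sphere (0 : EuclideanSpace ℂ (Fin n)) 1,
        CutSolvable f (C l) (η l) (p l) (A l) (k l) (ball 0 1 ∩ ball l (ρ l))) →
      SolvableOn f (ball 0 1) C' := by
  obtain ⟨m, hm⟩ : ∃ m, n = m + 1 := ⟨n - 1, by omega⟩
  subst hm
  exact cut_main discCorona (by omega) finrank_euclideanSpace_fin N M δ hδ
    k η ρ C p A hη hρ hp

end Pool.Agent.MPca0fc2.CG
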