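import Mathlib
import Pool.Agent.Lib.MP_ca0fc2_an.Mg.G048

set_option autoImplicit false

open Metric Set MeasureTheory Filter Topology
open scoped InnerProductSpace ENNReal

namespace Pool.Agent.MPca0fc2.PT

variable {E : Type*} [NormedAddCommGroup E] [InnerProductSpace ℂ E]

/-! ### the logarithmic derivative of `HH` -/

theorem Ed_re (x y : E) : (⟪x, y⟫_ℂ).re = (⟪y, x⟫_ℂ).re := by
  have := congrArg Complex.re (inner_conj_symm x y)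
  rw [Complex.conj_re] at this
  exact this.symm

theorem Ed_im (x y : E) : (⟪x, y⟫_ℂ).im = -(⟪y, x⟫_ℂ).im := by
  have := congrArg Complex.im (inner_conj_symm x y)
  rw [Complex.conj_im] at this
  exact this.symm

/-- the real linear functional `x ↦ Re (c * ⟪ξ, x⟫)` -/
noncomputable def Ed_R (c : ℂ) (ξ : E) : E →L[ℝ] ℝ :=
  Complex.reCLM.comp ((c • (innerSL ℂ ξ)).restrictScalars ℝ)

theorem Ed_R_apply (c : ℂ) (ξ x : E) : Ed_R c ξ x = (c * ⟪ξ, x⟫_ℂ).re := by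
  simp [Ed_R]

/-- the real derivative of `y ↦ ‖y‖ ^ 2` -/
theorem Ed_normSq (y : E) :
    HasFDerivAt (fun y : E => ‖y‖ ^ 2) ((2 : ℝ) • Ed_R 1 y) y := by
  have h1 : HasFDerivAt (fun y : E => ⟪y, y⟫_ℂ)
      ((fderivInnerCLM ℂ (y, y)).comp
        ((ContinuousLinearMap.id ℝ E).prod (ContinuousLinearMap.id ℝ E))) y :=
    HasFDerivAt.inner ℂ (hasFDerivAt_id y) (hasFDerivAt_id y)
  have h2 := Complex.reCLM.hasFDerivAt.comp y h1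
  have h3 : (fun y : E => ‖y‖ ^ 2) = Complex.reCLM ∘ fun y : E => ⟪y, y⟫_ℂ := by
    funext y
    have := inner_self_eq_norm_sq_to_K (𝕜 := ℂ) y
    simp only [Function.comp_apply, this]
    simp [← Complex.ofReal_pow]
  rw [h3]
  refine h2.congr_fderiv ?_
  ext x
  have e1 := Ed_re x y
  simp only [smul_apply, Ed_R_apply, smul_eq_mul, one_mul, ContinuousLinearMap.comp_apply,
    ContinuousLinearMap.prod_apply, fderivInnerCLM_apply, Complex.reCLM_apply, Complex.add_re,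
    ContinuousLinearMap.coe_id', id_eq]
  rw [e1]
  ring

theorem Ed_normC (y ξ : E) : ‖1 - ⟪y, ξ⟫_ℂ‖ = ‖1 - ⟪ξ, y⟫_ℂ‖ := by
  rw [← inner_conj_symm ξ y, ← Complex.norm_conj (1 - ⟪y, ξ⟫_ℂ)]
  simp

theorem Ed_den (y ξ : E) :
    HasFDerivAt (fun y : E => ‖1 - ⟪y, ξ⟫_ℂ‖ ^ 2) ((-2 : ℝ) • Ed_R (1 - ⟪y, ξ⟫_ℂ) ξ) y := by
  have h2 : HasFDerivAt (fun y : E => 1 - ⟪ξ, y⟫_ℂ)
      (-((innerSL ℂ ξ).restrictScalars ℝ)) y := by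
    have h3 : HasFDerivAt (fun y : E => ⟪ξ, y⟫_ℂ) ((innerSL ℂ ξ).restrictScalars ℝ) y :=
      ((innerSL ℂ ξ).restrictScalars ℝ).hasFDerivAt
    exact h3.const_sub 1
  have h4 := (hasStrictFDerivAt_norm_sq (F := ℂ) (1 - ⟪ξ, y⟫_ℂ)).hasFDerivAt
  have h5 := h4.comp y h2
  have h6 : (fun y : E => ‖1 - ⟪y, ξ⟫_ℂ‖ ^ 2) = (fun x : ℂ => ‖x‖ ^ 2) ∘ fun y : E => 1 - ⟪ξ, y⟫_ℂ := by
    funext y
    rw [Ed_normC]
    rfl
  rw [h6]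
  refine h5.congr_fderiv ?_
  ext x
  simp only [smul_apply, Ed_R_apply, smul_eq_mul, ContinuousLinearMap.comp_apply,
    neg_apply, ContinuousLinearMap.coe_restrictScalars', innerSL_apply_apply]
  simp [Complex.mul_re, Complex.inner]
  ring

/-- the logarithmic derivative of `HH · ξ` at `y` -/
noncomputable def Ed_L (y ξ : E) : E →L[ℝ] ℝ :=
  (2 / ‖1 - ⟪y, ξ⟫_ℂ‖ ^ 2) • Ed_R (1 - ⟪y, ξ⟫_ℂ) ξ - (2 / (1 - ‖y‖ ^ 2)) • Ed_R 1 y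

theorem Ed_HH {y ξ : E} (hy : ‖y‖ < 1) (hn : 1 - ⟪y, ξ⟫_ℂ ≠ 0) :
    HasFDerivAt (fun y : E => HH y ξ) (HH y ξ • Ed_L y ξ) y := by
  have h1 : HasFDerivAt (fun y : E => (1 - ‖y‖ ^ 2) * (1 - ‖ξ‖ ^ 2))
      ((1 - ‖ξ‖ ^ 2) • (-((2 : ℝ) • Ed_R 1 y))) y :=
    ((Ed_normSq y).const_sub 1).mul_const (1 - ‖ξ‖ ^ 2)
  have hn' : ‖1 - ⟪y, ξ⟫_ℂ‖ ^ 2 ≠ 0 := by positivity
  have h2 := (hasDerivAt_inv hn').comp_hasFDerivAt y (Ed_den y ξ)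
  have h4 := h1.mul h2
  have h3 : (1 - ‖y‖ ^ 2) ≠ 0 := by nlinarith [norm_nonneg y]
  have h5 : (fun y : E => HH y ξ) = fun y : E => ((1 - ‖y‖ ^ 2) * (1 - ‖ξ‖ ^ 2)) *
      (‖1 - ⟪y, ξ⟫_ℂ‖ ^ 2)⁻¹ := by
    funext y
    rw [HH, div_eq_mul_inv]
  rw [h5]
  refine (h4.congr_fderiv ?_)
  ext x
  simp only [HH, Ed_L, smul_apply, sub_apply, neg_apply, add_apply, smul_eq_mul,
    Function.comp_apply]
  field_simp
  ring

theorem Ed_HHsq {y ξ : E} (hy : ‖y‖ < 1) (hn : 1 - ⟪y, ξ⟫_ℂ ≠ 0) :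
    HasFDerivAt (fun y : E => HH y ξ ^ 2) ((2 * HH y ξ ^ 2) • Ed_L y ξ) y := by
  have h := (Ed_HH hy hn).pow 2
  refine h.congr_fderiv ?_
  ext x
  simp only [smul_apply, smul_eq_mul]
  simp
  ring

theorem Ed_lower {y ξ : E} (hξ : ‖ξ‖ < 1) {r : ℝ} (hr : ‖y‖ ≤ r) :
    1 - r ≤ ‖1 - ⟪y, ξ⟫_ℂ‖ := by
  have h1 : ‖⟪y, ξ⟫_ℂ‖ ≤ ‖y‖ * ‖ξ‖ := norm_inner_le_norm y ξ
  have h2 : ‖(1 : ℂ)‖ - ‖⟪y, ξ⟫_ℂ‖ ≤ ‖1 - ⟪y, ξ⟫_ℂ‖ := norm_sub_norm_le _ _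
  have h3 : ‖y‖ * ‖ξ‖ ≤ ‖y‖ * 1 := mul_le_mul_of_nonneg_left hξ.le (norm_nonneg _)
  rw [norm_one] at h2
  linarith

theorem Ed_ne {y ξ : E} (hy : ‖y‖ < 1) (hξ : ‖ξ‖ < 1) : 1 - ⟪y, ξ⟫_ℂ ≠ 0 := by
  have := Ed_lower (y := y) hξ le_rfl
  have h : 0 < ‖1 - ⟪y, ξ⟫_ℂ‖ := by linarith
  exact norm_pos_iff.1 h

theorem Ed_dist {y ξ : E} (hy : ‖y‖ < 1) (hξ : ‖ξ‖ < 1) :
    ‖ξ - y‖ ^ 2 ≤ 2 * ‖1 - ⟪y, ξ⟫_ℂ‖ := by
  have h1 : ‖ξ - y‖ ^ 2 = ‖ξ‖ ^ 2 - 2 * (⟪ξ, y⟫_ℂ).re + ‖y‖ ^ 2 := by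
    exact norm_sub_sq (𝕜 := ℂ) ξ y
  have h2 : (1 - ⟪y, ξ⟫_ℂ).re ≤ ‖1 - ⟪y, ξ⟫_ℂ‖ := Complex.re_le_norm _
  have h3 := Ed_re ξ y
  have h4 : (1 - ⟪y, ξ⟫_ℂ).re = 1 - (⟪y, ξ⟫_ℂ).re := by simp
  have h5 : ‖ξ‖ ^ 2 ≤ 1 := by nlinarith [norm_nonneg ξ]
  have h6 : ‖y‖ ^ 2 ≤ 1 := by nlinarith [norm_nonneg y]
  rw [h1, h3]
  linarith

theorem Ed_bound {y ξ : E} (hy : ‖y‖ < 1) (hξ : ‖ξ‖ < 1) (x : E) :
    |Ed_L y ξ x| ≤ 6 * gau (1 - ‖y‖ ^ 2) y x := by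
  have hN0 : 0 < ‖1 - ⟪y, ξ⟫_ℂ‖ := norm_pos_iff.2 (Ed_ne hy hξ)
  have hN1 := Ed_lower (y := y) hξ le_rfl
  have hd := Ed_dist hy hξ
  have hin : ‖⟪ξ, x⟫_ℂ‖ ≤ ‖⟪y, x⟫_ℂ‖ + ‖ξ - y‖ * ‖x‖ := by
    have e : ⟪ξ, x⟫_ℂ = ⟪y, x⟫_ℂ + ⟪ξ - y, x⟫_ℂ := by
      rw [inner_sub_left]; ring
    rw [e]
    exact (norm_add_le _ _).trans (add_le_add le_rfl (norm_inner_le_norm _ _))
  have hre1 : |((1 - ⟪y, ξ⟫_ℂ) * ⟪ξ, x⟫_ℂ).re| ≤ ‖1 - ⟪y, ξ⟫_ℂ‖ * ‖⟪ξ, x⟫_ℂ‖ := by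
    rw [← norm_mul]
    exact Complex.abs_re_le_norm _
  have hre2 : |(1 * ⟪y, x⟫_ℂ).re| ≤ ‖⟪y, x⟫_ℂ‖ := by
    rw [one_mul]
    exact Complex.abs_re_le_norm _
  have hL : Ed_L y ξ x = (2 / ‖1 - ⟪y, ξ⟫_ℂ‖ ^ 2) * ((1 - ⟪y, ξ⟫_ℂ) * ⟪ξ, x⟫_ℂ).re -
      (2 / (1 - ‖y‖ ^ 2)) * (1 * ⟪y, x⟫_ℂ).re := by
    simp only [Ed_L, smul_apply, sub_apply, smul_eq_mul, Ed_R_apply]
  rw [hL]
  set N := ‖1 - ⟪y, ξ⟫_ℂ‖ with hNdef
  set D := 1 - ‖y‖ ^ 2 with hD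
  set a := ‖⟪y, x⟫_ℂ‖ with ha
  set b := ‖x‖ with hb
  set t := ‖ξ - y‖ with ht
  have hD0 : 0 < D := by rw [hD]; nlinarith [norm_nonneg y]
  have hND : D ≤ 2 * N := by rw [hD]; nlinarith [norm_nonneg y]
  have ha0 : 0 ≤ a := norm_nonneg _
  have hb0 : 0 ≤ b := norm_nonneg _
  have ht0 : 0 ≤ t := norm_nonneg _
  have hs0 : 0 < Real.sqrt D := Real.sqrt_pos.2 hD0
  have hss : Real.sqrt D ^ 2 = D := Real.sq_sqrt hD0.le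
  have hts : t * Real.sqrt D ≤ 2 * N := by
    have : (t * Real.sqrt D) ^ 2 ≤ (2 * N) ^ 2 := by
      rw [mul_pow, hss]
      nlinarith [mul_le_mul_of_nonneg_right hd hD0.le, mul_le_mul_of_nonneg_left hND hN0.le]
    exact (pow_le_pow_iff_left₀ (by positivity) (by positivity) two_ne_zero).1 this
  have h1 : |(2 / N ^ 2) * ((1 - ⟪y, ξ⟫_ℂ) * ⟪ξ, x⟫_ℂ).re| ≤ 4 * (a / D) + 4 * (b / Real.sqrt D) := by
    rw [abs_mul, abs_of_pos (by positivity : (0 : ℝ) < 2 / N ^ 2)]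
    calc (2 / N ^ 2) * |((1 - ⟪y, ξ⟫_ℂ) * ⟪ξ, x⟫_ℂ).re| ≤ (2 / N ^ 2) * (N * (a + t * b)) := by
          gcongr
          exact hre1.trans (mul_le_mul_of_nonneg_left hin hN0.le)
      _ = 2 * a / N + 2 * b * (t / N) := by field_simp
      _ ≤ 4 * (a / D) + 4 * (b / Real.sqrt D) := by
          have e1 : 2 * a / N ≤ 4 * (a / D) := by
            rw [← mul_div_assoc, div_le_div_iff₀ hN0 hD0]
            nlinarith
          have e2 : t / N ≤ 2 / Real.sqrt D := by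
            rw [div_le_div_iff₀ hN0 hs0]
            linarith
          have e3 : 2 * b * (t / N) ≤ 4 * (b / Real.sqrt D) := by
            calc 2 * b * (t / N) ≤ 2 * b * (2 / Real.sqrt D) := by gcongr
              _ = 4 * (b / Real.sqrt D) := by ring
          linarith
  have h2 : |(2 / D) * (1 * ⟪y, x⟫_ℂ).re| ≤ 2 * (a / D) := by
    rw [abs_mul, abs_of_pos (by positivity : (0 : ℝ) < 2 / D)]
    calc (2 / D) * |(1 * ⟪y, x⟫_ℂ).re| ≤ (2 / D) * a := by gcongr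
      _ = 2 * (a / D) := by ring
  have h3 : 0 ≤ b / Real.sqrt D := by positivity
  have h4 := abs_sub ((2 / N ^ 2) * ((1 - ⟪y, ξ⟫_ℂ) * ⟪ξ, x⟫_ℂ).re) ((2 / D) * (1 * ⟪y, x⟫_ℂ).re)
  have h5 : gau D y x = a / D + b / Real.sqrt D := rfl
  rw [h5]
  linarith

/-! ### the integral -/

theorem Ed_gau_le {y : E} {r : ℝ} (hr1 : r < 1) (hr : ‖y‖ ≤ r) (x : E) :
    gau (1 - ‖y‖ ^ 2) y x ≤ 2 / (1 - r ^ 2) * ‖x‖ := by
  have hy0 := norm_nonneg y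
  have hr0 : 0 ≤ r := hy0.trans hr
  have hd0 : 0 < 1 - r ^ 2 := by nlinarith
  have hD : 1 - r ^ 2 ≤ 1 - ‖y‖ ^ 2 := by nlinarith
  have hD0 : 0 < 1 - ‖y‖ ^ 2 := by linarith
  have hD1 : 1 - ‖y‖ ^ 2 ≤ 1 := by nlinarith
  have hs : 1 - r ^ 2 ≤ Real.sqrt (1 - ‖y‖ ^ 2) := by
    refine hD.trans ?_
    exact Real.le_sqrt_of_sq_le (by nlinarith)
  have hin : ‖⟪y, x⟫_ℂ‖ ≤ ‖x‖ := by
    have h1 := norm_inner_le_norm (𝕜 := ℂ) y x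
    nlinarith [norm_nonneg x]
  have e1 : ‖⟪y, x⟫_ℂ‖ / (1 - ‖y‖ ^ 2) ≤ ‖x‖ / (1 - r ^ 2) :=
    div_le_div₀ (norm_nonneg _) hin hd0 hD
  have e2 : ‖x‖ / Real.sqrt (1 - ‖y‖ ^ 2) ≤ ‖x‖ / (1 - r ^ 2) :=
    div_le_div₀ (norm_nonneg _) le_rfl hd0 hs
  have e3 : gau (1 - ‖y‖ ^ 2) y x =
      ‖⟪y, x⟫_ℂ‖ / (1 - ‖y‖ ^ 2) + ‖x‖ / Real.sqrt (1 - ‖y‖ ^ 2) := rfl
  rw [e3]
  calc _ ≤ ‖x‖ / (1 - r ^ 2) + ‖x‖ / (1 - r ^ 2) := add_le_add e1 e2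
    _ = 2 / (1 - r ^ 2) * ‖x‖ := by ring

theorem Ed_HHsq_le {y ξ : E} (hξ : ‖ξ‖ < 1) {r : ℝ} (hr1 : r < 1) (hr : ‖y‖ ≤ r) :
    HH y ξ ^ 2 ≤ (1 - ‖ξ‖ ^ 2) / (1 - r) ^ 2 := by
  have hy0 := norm_nonneg y
  have hy : ‖y‖ < 1 := by linarith
  have h0 := (HH_pos hy hξ).le
  have h1 := HH_le_one hy hξ
  have h2 : HH y ξ ≤ (1 - ‖ξ‖ ^ 2) / (1 - r) ^ 2 := by
    have hN := Ed_lower (y := y) hξ hr
    have hξ0 : 0 ≤ 1 - ‖ξ‖ ^ 2 := by nlinarith [norm_nonneg ξ]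
    have hD1 : 1 - ‖y‖ ^ 2 ≤ 1 := by nlinarith
    unfold HH
    have hr2 : 0 < 1 - r := by linarith
    apply div_le_div₀ hξ0 _ (by positivity) (by gcongr)
    calc (1 - ‖y‖ ^ 2) * (1 - ‖ξ‖ ^ 2) ≤ 1 * (1 - ‖ξ‖ ^ 2) := by gcongr
      _ = _ := one_mul _
  nlinarith

/-- the derivative of the integrand -/
noncomputable def Ed_F (y ξ : E) : E →L[ℝ] ℝ := (2 * HH y ξ ^ 2) • Ed_L y ξ

theorem Ed_F_apply {y ξ : E} (hy : ‖y‖ < 1) (hξ : ‖ξ‖ < 1) (x : E) :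
    |Ed_F y ξ x| ≤ 12 * (HH y ξ ^ 2) * gau (1 - ‖y‖ ^ 2) y x := by
  have h1 := Ed_bound hy hξ x
  have h2 : Ed_F y ξ x = (2 * HH y ξ ^ 2) * Ed_L y ξ x := by
    simp only [Ed_F, smul_apply, smul_eq_mul]
  rw [h2, abs_mul, abs_of_nonneg (by positivity : (0 : ℝ) ≤ 2 * HH y ξ ^ 2)]
  calc 2 * HH y ξ ^ 2 * |Ed_L y ξ x| ≤ 2 * HH y ξ ^ 2 * (6 * gau (1 - ‖y‖ ^ 2) y x) := by
        gcongr
    _ = _ := by ring

theorem Ed_F_norm {y ξ : E} (hξ : ‖ξ‖ < 1) {r : ℝ} (hr1 : r < 1) (hr : ‖y‖ ≤ r) :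
    ‖Ed_F y ξ‖ ≤ 24 / ((1 - r) ^ 2 * (1 - r ^ 2)) * (1 - ‖ξ‖ ^ 2) := by
  have hy0 := norm_nonneg y
  have hr0 : 0 ≤ r := hy0.trans hr
  have hy : ‖y‖ < 1 := by linarith
  have hd0 : 0 < 1 - r ^ 2 := by nlinarith
  have hd1 : 0 < 1 - r := by linarith
  have hξ0 : 0 ≤ 1 - ‖ξ‖ ^ 2 := by nlinarith [norm_nonneg ξ]
  refine ContinuousLinearMap.opNorm_le_bound _ (by positivity) fun x => ?_
  rw [Real.norm_eq_abs]
  calc |Ed_F y ξ x| ≤ 12 * (HH y ξ ^ 2) * gau (1 - ‖y‖ ^ 2) y x := Ed_F_apply hy hξ x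
    _ ≤ 12 * ((1 - ‖ξ‖ ^ 2) / (1 - r) ^ 2) * (2 / (1 - r ^ 2) * ‖x‖) := by
        have hg0 : 0 ≤ gau (1 - ‖y‖ ^ 2) y x := by
          have : 0 ≤ 1 - ‖y‖ ^ 2 := by nlinarith
          unfold gau
          positivity
        gcongr
        · exact Ed_HHsq_le hξ hr1 hr
        · exact Ed_gau_le hr1 hr x
    _ = _ := by
        field_simp
        ring

theorem Ed_R_cont : Continuous fun p : ℂ × E => Ed_R p.1 p.2 := by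
  unfold Ed_R
  refine continuous_const.clm_comp ?_
  exact (ContinuousLinearMap.restrictScalarsL ℂ E ℂ ℝ ℝ).continuous.comp
    (continuous_fst.smul ((innerSL ℂ).continuous.comp continuous_snd))

variable [FiniteDimensional ℂ E] [MeasurableSpace E] [BorelSpace E]

omit [FiniteDimensional ℂ E] in
theorem Ed_meas (ν : Measure E) (y : E) : AEStronglyMeasurable (fun ξ => HH y ξ ^ 2) ν := by
  have h : Measurable fun ξ : E => HH y ξ ^ 2 := by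
    unfold HH
    refine Measurable.pow_const ?_ 2
    refine Measurable.div ?_ ?_
    · exact Continuous.measurable (by fun_prop)
    · exact Continuous.measurable (by fun_prop)
  exact h.aestronglyMeasurable

theorem Ed_measF (ν : Measure E) (y : E) : AEStronglyMeasurable (fun ξ => Ed_F y ξ) ν := by
  have : ProperSpace E := FiniteDimensional.proper ℂ E
  unfold Ed_F Ed_L
  have h1 : Measurable fun ξ : E => HH y ξ := by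
    unfold HH
    refine Measurable.div ?_ ?_
    · exact Continuous.measurable (by fun_prop)
    · exact Continuous.measurable (by fun_prop)
  have h2 : Continuous fun ξ : E => Ed_R (1 - ⟪y, ξ⟫_ℂ) ξ :=
    Ed_R_cont.comp (by fun_prop : Continuous fun ξ : E => ((1 - ⟪y, ξ⟫_ℂ), ξ))
  have h3 : Measurable fun ξ : E => 2 / ‖1 - ⟪y, ξ⟫_ℂ‖ ^ 2 :=
    Measurable.div measurable_const (Continuous.measurable (by fun_prop))
  have h4 : AEStronglyMeasurable (fun ξ : E => 2 / ‖1 - ⟪y, ξ⟫_ℂ‖ ^ 2) ν :=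
    h3.aestronglyMeasurable
  have h5 : AEStronglyMeasurable (fun ξ : E => Ed_R (1 - ⟪y, ξ⟫_ℂ) ξ) ν :=
    h2.aestronglyMeasurable
  have h6 : AEStronglyMeasurable
      (fun ξ : E => (2 / ‖1 - ⟪y, ξ⟫_ℂ‖ ^ 2) • Ed_R (1 - ⟪y, ξ⟫_ℂ) ξ) ν := h4.smul h5
  have h7 : AEStronglyMeasurable (fun ξ : E => (2 / ‖1 - ⟪y, ξ⟫_ℂ‖ ^ 2) • Ed_R (1 - ⟪y, ξ⟫_ℂ) ξ -
      (2 / (1 - ‖y‖ ^ 2)) • Ed_R 1 y) ν := h6.sub aestronglyMeasurable_const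
  have h8 : AEStronglyMeasurable (fun ξ : E => 2 * HH y ξ ^ 2) ν :=
    ((h1.pow_const 2).const_mul 2).aestronglyMeasurable
  exact h8.smul h7

omit [FiniteDimensional ℂ E] [BorelSpace E] in
theorem Ed_ae {ν : Measure E} {A : ℝ} (h : Carl ν A) : ∀ᵐ ξ ∂ν, ‖ξ‖ < 1 := by
  have h1 := measure_eq_zero_iff_ae_notMem.1 h.2.1
  filter_upwards [h1] with ξ hξ
  simpa using hξ

omit [FiniteDimensional ℂ E] in
theorem Ed_int {ν : Measure E} {A : ℝ} (h : Carl ν A) :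
    Integrable (fun ξ : E => 1 - ‖ξ‖ ^ 2) ν := by
  refine ⟨(Continuous.measurable (by fun_prop)).aestronglyMeasurable, ?_⟩
  rw [hasFiniteIntegral_iff_ofReal]
  · have h1 := h.2.2 0 (by simp)
    simp only [HH, norm_zero, inner_zero_left, sub_zero, norm_one] at h1
    simp only [ne_eq, OfNat.ofNat_ne_zero, not_false_eq_true, zero_pow, sub_zero, one_mul,
      one_pow, div_one] at h1
    exact lt_of_le_of_lt h1 ENNReal.ofReal_lt_top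
  · filter_upwards [Ed_ae h] with ξ hξ
    simp only [Pi.zero_apply]
    nlinarith [norm_nonneg ξ]

theorem Ed_fderiv {ν : Measure E} {A : ℝ} (h : Carl ν A) {y : E} (hy : ‖y‖ < 1) :
    HasFDerivAt (EE ν) (∫ ξ, Ed_F y ξ ∂ν) y := by
  have hr1 : (1 + ‖y‖) / 2 < 1 := by linarith
  have hyr : ‖y‖ < (1 + ‖y‖) / 2 := by linarith
  set r := (1 + ‖y‖) / 2 with hr
  have hs : ball (0 : E) r ∈ 𝓝 y := isOpen_ball.mem_nhds (by simpa using hyr)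
  unfold EE
  refine hasFDerivAt_integral_of_dominated_of_fderiv_le (F := fun y ξ => HH y ξ ^ 2)
    (F' := fun y ξ => Ed_F y ξ) (bound := fun ξ => 24 / ((1 - r) ^ 2 * (1 - r ^ 2)) * (1 - ‖ξ‖ ^ 2))
    hs ?_ ?_ ?_ ?_ ?_ ?_
  · exact Eventually.of_forall fun y => Ed_meas ν y
  · exact EE_integrable h hy
  · exact Ed_measF ν y
  · filter_upwards [Ed_ae h] with ξ hξ z hz
    rw [mem_ball_zero_iff] at hz
    exact Ed_F_norm hξ hr1 hz.le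
  · exact (Ed_int h).const_mul _
  · filter_upwards [Ed_ae h] with ξ hξ z hz
    rw [mem_ball_zero_iff] at hz
    exact Ed_HHsq (hz.trans hr1) (Ed_ne (hz.trans hr1) hξ)

theorem Ed_cont {ν : Measure E} {A : ℝ} (h : Carl ν A) {y : E} (hy : ‖y‖ < 1) :
    ContinuousAt (fun y => ∫ ξ, Ed_F y ξ ∂ν) y := by
  have hr1 : (1 + ‖y‖) / 2 < 1 := by linarith
  have hyr : ‖y‖ < (1 + ‖y‖) / 2 := by linarith
  set r := (1 + ‖y‖) / 2 with hr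
  have hs : ball (0 : E) r ∈ 𝓝 y := isOpen_ball.mem_nhds (by simpa using hyr)
  refine continuousAt_of_dominated
    (bound := fun ξ => 24 / ((1 - r) ^ 2 * (1 - r ^ 2)) * (1 - ‖ξ‖ ^ 2)) ?_ ?_ ?_ ?_
  · exact Eventually.of_forall fun y => Ed_measF ν y
  · filter_upwards [hs] with z hz
    filter_upwards [Ed_ae h] with ξ hξ
    rw [mem_ball_zero_iff] at hz
    exact Ed_F_norm hξ hr1 hz.le
  · exact (Ed_int h).const_mul _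
  · filter_upwards [Ed_ae h] with ξ hξ
    unfold Ed_F Ed_L
    have h1 : ContinuousAt (fun y : E => HH y ξ) y := (Ed_HH hy (Ed_ne hy hξ)).continuousAt
    have h2 : Continuous fun y : E => Ed_R (1 - ⟪y, ξ⟫_ℂ) ξ :=
      Ed_R_cont.comp (by fun_prop : Continuous fun y : E => ((1 - ⟪y, ξ⟫_ℂ), ξ))
    have h3 : Continuous fun y : E => Ed_R 1 y :=
      Ed_R_cont.comp (by fun_prop : Continuous fun y : E => ((1 : ℂ), y))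
    have h4 : ContinuousAt (fun y : E => 2 / ‖1 - ⟪y, ξ⟫_ℂ‖ ^ 2) y := by
      refine ContinuousAt.div continuousAt_const (by fun_prop) ?_
      have := norm_pos_iff.2 (Ed_ne hy hξ)
      positivity
    have h5 : ContinuousAt (fun y : E => 2 / (1 - ‖y‖ ^ 2)) y := by
      refine ContinuousAt.div continuousAt_const (by fun_prop) ?_
      nlinarith [norm_nonneg y]
    exact ((h1.pow 2).const_mul 2).smul
      ((h4.smul h2.continuousAt).sub (h5.smul h3.continuousAt))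

theorem EE_contDiff {ν : Measure E} {A : ℝ} (h : Carl ν A) :
    ContDiffOn ℝ 1 (EE ν) (ball 0 1) := by
  have hd : ∀ y ∈ ball (0 : E) 1, HasFDerivAt (EE ν) (∫ ξ, Ed_F y ξ ∂ν) y := by
    intro y hy
    rw [mem_ball_zero_iff] at hy
    exact Ed_fderiv h hy
  have h1 : ContDiffOn ℝ (0 + 1) (EE ν) (ball 0 1) := by
    rw [contDiffOn_succ_iff_fderiv_of_isOpen isOpen_ball]
    refine ⟨fun y hy => (hd y hy).differentiableAt.differentiableWithinAt, by simp, ?_⟩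
    rw [contDiffOn_zero]
    have h2 : ContinuousOn (fun y => ∫ ξ, Ed_F y ξ ∂ν) (ball (0 : E) 1) := by
      intro y hy
      rw [mem_ball_zero_iff] at hy
      exact (Ed_cont h hy).continuousWithinAt
    exact h2.congr fun y hy => (hd y hy).fderiv
  simpa using h1

theorem EE_fderiv {ν : Measure E} {A : ℝ} (h : Carl ν A) {y : E} (hy : ‖y‖ < 1) (x : E) :
    |fderiv ℝ (EE ν) y x| ≤ 12 * EE ν y * gau (1 - ‖y‖ ^ 2) y x := by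
  rw [(Ed_fderiv h hy).fderiv]
  have hint : Integrable (fun ξ => Ed_F y ξ) ν := by
    refine Integrable.mono' ((Ed_int h).const_mul (24 / ((1 - ‖y‖) ^ 2 * (1 - ‖y‖ ^ 2))))
      (Ed_measF ν y) ?_
    filter_upwards [Ed_ae h] with ξ hξ
    exact Ed_F_norm hξ hy le_rfl
  rw [ContinuousLinearMap.integral_apply hint]
  have h1 : |∫ ξ, Ed_F y ξ x ∂ν| ≤ ∫ ξ, 12 * (HH y ξ ^ 2) * gau (1 - ‖y‖ ^ 2) y x ∂ν := by
    rw [← Real.norm_eq_abs]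
    refine norm_integral_le_of_norm_le ?_ ?_
    · exact ((EE_integrable h hy).const_mul 12).mul_const _
    · filter_upwards [Ed_ae h] with ξ hξ
      exact Ed_F_apply hy hξ x
  refine h1.trans (le_of_eq ?_)
  rw [integral_mul_const, integral_const_mul]
  rfl

end Pool.Agent.MPca0fc2.PT
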