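import Mathlib
import Pool.Agent.Lib.MP_ca0fc2_an.PTEd

set_option autoImplicit false

open Metric Set MeasureTheory Filter Topology
open scoped InnerProductSpace ENNReal

namespace Pool.Agent.MPca0fc2.QT

open Pool.Agent.MPca0fc2.PT

variable {E : Type*} [NormedAddCommGroup E] [InnerProductSpace ℂ E]
variable [FiniteDimensional ℂ E] [MeasurableSpace E] [BorelSpace E]

section param

variable {F : Type*} [NormedAddCommGroup F] [NormedSpace ℝ F]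

/-- the parametric integral with the weight `(1 - |ξ|²)²` -/
noncomputable def EdI (ν : Measure E) (Ψ : E × E → F) (y : E) : F :=
  ∫ ξ, ((1 - ‖ξ‖ ^ 2) ^ 2 : ℝ) • Ψ (y, ξ) ∂ν

omit [FiniteDimensional ℂ E] [MeasurableSpace E] [BorelSpace E] in
theorem EdI_w {ξ : E} (hξ : ‖ξ‖ < 1) : (1 - ‖ξ‖ ^ 2) ^ 2 ≤ 1 - ‖ξ‖ ^ 2 := by
  have h0 : 0 ≤ ‖ξ‖ ^ 2 := by positivity
  have h1 : ‖ξ‖ ^ 2 ≤ 1 := by nlinarith [norm_nonneg ξ]
  nlinarith

theorem EdI_meas {ν : Measure E} {A : ℝ} (h : Carl ν A) {Ψ : E × E → F} {U : Set (E × E)}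
    (hUb : ball (0 : E) 1 ×ˢ closedBall (0 : E) 1 ⊆ U) (hΨ : ContinuousOn Ψ U)
    {y : E} (hy : ‖y‖ < 1) :
    AEStronglyMeasurable (fun ξ => ((1 - ‖ξ‖ ^ 2) ^ 2 : ℝ) • Ψ (y, ξ)) ν := by
  have : ProperSpace E := FiniteDimensional.proper ℂ E
  have hr : ν.restrict (closedBall 0 1) = ν := by
    rw [Measure.restrict_eq_self_of_ae_mem]
    filter_upwards [Ed_ae h] with ξ hξ
    simpa using hξ.le
  rw [← hr]
  have hc : ContinuousOn (fun ξ : E => ((1 - ‖ξ‖ ^ 2) ^ 2 : ℝ) • Ψ (y, ξ)) (closedBall 0 1) := by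
    refine ContinuousOn.smul (by fun_prop) ?_
    refine hΨ.comp (by fun_prop) ?_
    intro ξ hξ
    exact hUb ⟨by simpa using hy, hξ⟩
  exact hc.aestronglyMeasurable isClosed_closedBall.measurableSet

/-- a bound on compact sets -/
theorem EdI_bd {Ψ : E × E → F} {U : Set (E × E)}
    (hUb : ball (0 : E) 1 ×ˢ closedBall (0 : E) 1 ⊆ U) (hΨ : ContinuousOn Ψ U)
    {r : ℝ} (hr : r < 1) :
    ∃ C : ℝ, ∀ y ξ : E, ‖y‖ ≤ r → ‖ξ‖ < 1 →
      ‖((1 - ‖ξ‖ ^ 2) ^ 2 : ℝ) • Ψ (y, ξ)‖ ≤ C * (1 - ‖ξ‖ ^ 2) := by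
  have : ProperSpace E := FiniteDimensional.proper ℂ E
  have hK : IsCompact (closedBall (0 : E) r ×ˢ closedBall (0 : E) 1) :=
    (isCompact_closedBall _ _).prod (isCompact_closedBall _ _)
  have hs : closedBall (0 : E) r ×ˢ closedBall (0 : E) 1 ⊆ U :=
    (prod_mono (closedBall_subset_ball hr) subset_rfl).trans hUb
  obtain ⟨C, hC⟩ := hK.exists_bound_of_continuousOn (hΨ.mono hs)
  refine ⟨C, fun y ξ hy hξ => ?_⟩
  have h1 := hC (y, ξ) ⟨by simpa using hy, by simpa using hξ.le⟩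
  have h2 := EdI_w hξ
  have h3 : 0 ≤ 1 - ‖ξ‖ ^ 2 := by nlinarith [norm_nonneg ξ]
  rw [norm_smul, Real.norm_of_nonneg (by positivity)]
  calc (1 - ‖ξ‖ ^ 2) ^ 2 * ‖Ψ (y, ξ)‖ ≤ (1 - ‖ξ‖ ^ 2) * C := by
        gcongr
    _ = C * (1 - ‖ξ‖ ^ 2) := mul_comm _ _

theorem EdI_cont {ν : Measure E} {A : ℝ} (h : Carl ν A) {Ψ : E × E → F} {U : Set (E × E)}
    (hU : IsOpen U) (hUb : ball (0 : E) 1 ×ˢ closedBall (0 : E) 1 ⊆ U) (hΨ : ContinuousOn Ψ U) :
    ContinuousOn (EdI ν Ψ) (ball 0 1) := by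
  intro y hy
  rw [mem_ball_zero_iff] at hy
  refine ContinuousAt.continuousWithinAt ?_
  have hr1 : (1 + ‖y‖) / 2 < 1 := by linarith
  have hyr : ‖y‖ < (1 + ‖y‖) / 2 := by linarith
  set r := (1 + ‖y‖) / 2 with hr
  have hs : ball (0 : E) r ∈ 𝓝 y := isOpen_ball.mem_nhds (by simpa using hyr)
  obtain ⟨C, hC⟩ := EdI_bd hUb hΨ hr1
  unfold EdI
  refine continuousAt_of_dominated (bound := fun ξ => C * (1 - ‖ξ‖ ^ 2)) ?_ ?_ ?_ ?_
  · filter_upwards [hs] with z hz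
    rw [mem_ball_zero_iff] at hz
    exact EdI_meas h hUb hΨ (hz.trans hr1)
  · filter_upwards [hs] with z hz
    filter_upwards [Ed_ae h] with ξ hξ
    rw [mem_ball_zero_iff] at hz
    exact hC z ξ hz.le hξ
  · exact (Ed_int h).const_mul _
  · filter_upwards [Ed_ae h] with ξ hξ
    refine ContinuousAt.smul continuousAt_const ?_
    have h1 : ContinuousAt Ψ (y, ξ) :=
      hΨ.continuousAt (hU.mem_nhds (hUb ⟨by simpa using hy, by simpa using hξ.le⟩))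
    exact ContinuousAt.comp (f := fun z : E => (z, ξ)) h1 (by fun_prop)

/-- the partial derivative in the first variable -/
noncomputable def EdP (Ψ : E × E → F) (p : E × E) : E →L[ℝ] F :=
  (fderiv ℝ Ψ p).comp (ContinuousLinearMap.inl ℝ E E)

theorem EdI_deriv {ν : Measure E} {A : ℝ} (h : Carl ν A) {Ψ : E × E → F}
    {U : Set (E × E)}
    (hU : IsOpen U) (hUb : ball (0 : E) 1 ×ˢ closedBall (0 : E) 1 ⊆ U) (hΨ : ContDiffOn ℝ 1 Ψ U)
    {y : E} (hy : ‖y‖ < 1) :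
    HasFDerivAt (EdI ν Ψ) (EdI ν (EdP Ψ) y) y := by
  have hr1 : (1 + ‖y‖) / 2 < 1 := by linarith
  have hyr : ‖y‖ < (1 + ‖y‖) / 2 := by linarith
  set r := (1 + ‖y‖) / 2 with hr
  have hs : ball (0 : E) r ∈ 𝓝 y := isOpen_ball.mem_nhds (by simpa using hyr)
  have hc : ContinuousOn (fderiv ℝ Ψ) U := hΨ.continuousOn_fderiv_of_isOpen hU le_rfl
  have hP : ContinuousOn (EdP Ψ) U := by
    unfold EdP
    exact hc.clm_comp continuousOn_const
  obtain ⟨C, hC⟩ := EdI_bd hUb hP hr1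
  obtain ⟨C0, hC0⟩ := EdI_bd hUb hΨ.continuousOn hr1
  unfold EdI
  refine hasFDerivAt_integral_of_dominated_of_fderiv_le
    (F := fun y ξ => ((1 - ‖ξ‖ ^ 2) ^ 2 : ℝ) • Ψ (y, ξ))
    (F' := fun y ξ => ((1 - ‖ξ‖ ^ 2) ^ 2 : ℝ) • EdP Ψ (y, ξ))
    (bound := fun ξ => C * (1 - ‖ξ‖ ^ 2)) hs ?_ ?_ ?_ ?_ ?_ ?_
  · filter_upwards [hs] with z hz
    rw [mem_ball_zero_iff] at hz
    exact EdI_meas h hUb hΨ.continuousOn (hz.trans hr1)
  · refine Integrable.mono' ((Ed_int h).const_mul C0) (EdI_meas h hUb hΨ.continuousOn hy) ?_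
    filter_upwards [Ed_ae h] with ξ hξ
    exact hC0 y ξ hyr.le hξ
  · exact EdI_meas h hUb hP hy
  · filter_upwards [Ed_ae h] with ξ hξ z hz
    rw [mem_ball_zero_iff] at hz
    exact hC z ξ hz.le hξ
  · exact (Ed_int h).const_mul _
  · filter_upwards [Ed_ae h] with ξ hξ z hz
    rw [mem_ball_zero_iff] at hz
    have hzξ : (z, ξ) ∈ U := hUb ⟨by simpa using hz.trans hr1, by simpa using hξ.le⟩
    have h1 : HasFDerivAt Ψ (fderiv ℝ Ψ (z, ξ)) (z, ξ) :=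
      ((hΨ.contDiffAt (hU.mem_nhds hzξ)).differentiableAt one_ne_zero).hasFDerivAt
    have h2 : HasFDerivAt (fun z : E => (z, ξ)) (ContinuousLinearMap.inl ℝ E E) z :=
      hasFDerivAt_prodMk_left z ξ
    exact (h1.comp z h2).const_smul _

end param

/-- the smooth factor of the integrand of `EE` -/
noncomputable def EdPhi (p : E × E) : ℝ :=
  (1 - ‖p.1‖ ^ 2) ^ 2 * ((‖1 - ⟪p.1, p.2⟫_ℂ‖ ^ 2) ^ 2)⁻¹

/-- the domain -/
def EdU (E : Type*) [NormedAddCommGroup E] [InnerProductSpace ℂ E] : Set (E × E) :=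
  {p | 1 - ⟪p.1, p.2⟫_ℂ ≠ 0}

omit [FiniteDimensional ℂ E] [MeasurableSpace E] [BorelSpace E] in
theorem EdU_open : IsOpen (EdU E) :=
  isOpen_ne_fun (by fun_prop) continuous_const

omit [FiniteDimensional ℂ E] [MeasurableSpace E] [BorelSpace E] in
theorem EdU_sub : ball (0 : E) 1 ×ˢ closedBall (0 : E) 1 ⊆ EdU E := by
  rintro ⟨y, ξ⟩ ⟨hy, hξ⟩ h0
  simp only [mem_ball_zero_iff, mem_closedBall_zero_iff] at hy hξ
  have h1 : ‖⟪y, ξ⟫_ℂ‖ ≤ ‖y‖ * ‖ξ‖ := norm_inner_le_norm y ξ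
  have h2 : ⟪y, ξ⟫_ℂ = 1 := (sub_eq_zero.1 h0).symm
  rw [h2, norm_one] at h1
  nlinarith [norm_nonneg y, norm_nonneg ξ]

omit [FiniteDimensional ℂ E] [MeasurableSpace E] [BorelSpace E] in
theorem EdPhi_smooth {n : WithTop ℕ∞} : ContDiffOn ℝ n (EdPhi (E := E)) (EdU E) := by
  have h1 : ContDiff ℝ n fun p : E × E => ⟪p.1, p.2⟫_ℂ := contDiff_fst.inner ℂ contDiff_snd
  have h2 : ContDiff ℝ n fun p : E × E => ‖1 - ⟪p.1, p.2⟫_ℂ‖ ^ 2 :=
    (contDiff_const.sub h1).norm_sq ℝ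
  have h3 : ContDiff ℝ n fun p : E × E => ‖p.1‖ ^ 2 := by
    have e : (fun p : E × E => ‖p.1‖ ^ 2) = fun p : E × E => Complex.reCLM ⟪p.1, p.1⟫_ℂ := by
      funext p
      have := inner_self_eq_norm_sq_to_K (𝕜 := ℂ) p.1
      rw [this]
      simp [← Complex.ofReal_pow]
    rw [e]
    exact Complex.reCLM.contDiff.comp (contDiff_fst.inner ℂ contDiff_fst)
  refine ContDiffOn.mul ((contDiff_const.sub h3).pow 2).contDiffOn ?_
  refine ContDiffOn.inv (h2.pow 2).contDiffOn ?_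
  intro p hp
  have : 0 < ‖1 - ⟪p.1, p.2⟫_ℂ‖ := norm_pos_iff.2 hp
  positivity

omit [FiniteDimensional ℂ E] [BorelSpace E] in
theorem EE_eq_EdI (ν : Measure E) : EE ν = EdI ν EdPhi := by
  funext y
  unfold EE EdI EdPhi
  refine integral_congr_ae (Eventually.of_forall fun ξ => ?_)
  simp only [HH, smul_eq_mul]
  rw [div_pow, mul_pow, div_eq_mul_inv]
  ring

theorem EE_c2 {ν : Measure E} {A : ℝ} (h : Carl ν A) : ContDiffOn ℝ 2 (EE ν) (ball 0 1) := by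
  have hP1 : ContDiffOn ℝ 1 (EdP (EdPhi (E := E))) (EdU E) := by
    unfold EdP
    refine ContDiffOn.clm_comp ?_ contDiffOn_const
    exact (EdPhi_smooth (n := 2)).fderiv_of_isOpen EdU_open (by norm_num)
  have hP2 : ContinuousOn (EdP (EdP (EdPhi (E := E)))) (EdU E) := by
    unfold EdP at hP1 ⊢
    exact (hP1.continuousOn_fderiv_of_isOpen EdU_open le_rfl).clm_comp continuousOn_const
  have hd : ∀ y ∈ ball (0 : E) 1, HasFDerivAt (EE ν) (EdI ν (EdP EdPhi) y) y := by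
    intro y hy
    rw [mem_ball_zero_iff] at hy
    rw [EE_eq_EdI]
    exact EdI_deriv h EdU_open EdU_sub EdPhi_smooth hy
  have hd1 : ∀ y ∈ ball (0 : E) 1,
      HasFDerivAt (EdI ν (EdP EdPhi)) (EdI ν (EdP (EdP EdPhi)) y) y := by
    intro y hy
    rw [mem_ball_zero_iff] at hy
    exact EdI_deriv h EdU_open EdU_sub hP1 hy
  have h2 : ContDiffOn ℝ (0 + 1) (EdI ν (EdP EdPhi)) (ball 0 1) := by
    rw [contDiffOn_succ_iff_fderiv_of_isOpen isOpen_ball]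
    refine ⟨fun y hy => (hd1 y hy).differentiableAt.differentiableWithinAt, by simp, ?_⟩
    rw [contDiffOn_zero]
    exact (EdI_cont h EdU_open EdU_sub hP2).congr fun y hy => (hd1 y hy).fderiv
  have h3 : ContDiffOn ℝ (1 + 1) (EE ν) (ball 0 1) := by
    rw [contDiffOn_succ_iff_fderiv_of_isOpen isOpen_ball]
    refine ⟨fun y hy => (hd y hy).differentiableAt.differentiableWithinAt, by simp, ?_⟩
    rw [zero_add] at h2
    exact h2.congr fun y hy => (hd y hy).fderiv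
  have e : (1 + 1 : WithTop ℕ∞) = 2 := by norm_num
  rwa [e] at h3

end Pool.Agent.MPca0fc2.QT
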