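import Mathlib
import Pool.Agent.Lib.MP_ca0fc2_an.CPSP
import Pool.Agent.Lib.MP_ca0fc2_an.Mg.G048
import Pool.Agent.Lib.MP_ca0fc2_an.PTEd
import Pool.Agent.Lib.MP_ca0fc2_an.QTEd

/-! The potential with the exponent `3 / 2`. -/

set_option autoImplicit false

open Metric Set MeasureTheory Filter Topology
open scoped InnerProductSpace ENNReal

namespace Pool.Agent.MPca0fc2.CP

open Pool.Agent.MPca0fc2.PT
open Pool.Agent.MPca0fc2.QT (EdP)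

variable {E : Type*} [NormedAddCommGroup E] [InnerProductSpace ℂ E]

/-! ### powers with the exponent `3 / 2` -/

theorem e3_pow_le {x : ℝ} (h0 : 0 ≤ x) (h1 : x ≤ 1) : x ^ (3 / 2 : ℝ) ≤ x := by
  calc x ^ (3 / 2 : ℝ) ≤ x ^ (1 : ℝ) :=
        Real.rpow_le_rpow_of_exponent_ge' h0 h1 zero_le_one (by norm_num)
    _ = x := Real.rpow_one x

theorem e3_sq_le {x : ℝ} (h0 : 0 ≤ x) (h1 : x ≤ 1) : x ^ 2 ≤ x ^ (3 / 2 : ℝ) := by
  calc x ^ 2 = x ^ (2 : ℝ) := by rw [← Real.rpow_natCast x 2]; norm_num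
    _ ≤ x ^ (3 / 2 : ℝ) := Real.rpow_le_rpow_of_exponent_ge' h0 h1 (by norm_num) (by norm_num)

theorem e3_four : (4 : ℝ) ^ (3 / 2 : ℝ) = 8 := by
  have h : (4 : ℝ) = 2 ^ (2 : ℝ) := by norm_num
  rw [h, ← Real.rpow_mul (by norm_num)]
  norm_num

/-! ### the parametric integral with a general weight -/

section param

variable [FiniteDimensional ℂ E] [MeasurableSpace E] [BorelSpace E]
variable {F : Type*} [NormedAddCommGroup F] [NormedSpace ℝ F]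

/-- the parametric integral with the weight `W` -/
noncomputable def EJ (ν : Measure E) (W : E → ℝ) (Ψ : E × E → F) (y : E) : F :=
  ∫ ξ, W ξ • Ψ (y, ξ) ∂ν

theorem EJ_meas {ν : Measure E} {A : ℝ} (h : Carl ν A) {W : E → ℝ} (hW : Measurable W)
    {Ψ : E × E → F} {U : Set (E × E)}
    (hUb : ball (0 : E) 1 ×ˢ closedBall (0 : E) 1 ⊆ U) (hΨ : ContinuousOn Ψ U)
    {y : E} (hy : ‖y‖ < 1) :
    AEStronglyMeasurable (fun ξ => W ξ • Ψ (y, ξ)) ν := by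
  have : ProperSpace E := FiniteDimensional.proper ℂ E
  have hr : ν.restrict (closedBall 0 1) = ν := by
    rw [Measure.restrict_eq_self_of_ae_mem]
    filter_upwards [Ed_ae h] with ξ hξ
    simpa using hξ.le
  rw [← hr]
  have hc : ContinuousOn (fun ξ : E => Ψ (y, ξ)) (closedBall 0 1) := by
    refine hΨ.comp (by fun_prop) ?_
    intro ξ hξ
    exact hUb ⟨by simpa using hy, hξ⟩
  exact (hW.aestronglyMeasurable).smul (hc.aestronglyMeasurable isClosed_closedBall.measurableSet)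

omit [MeasurableSpace E] [BorelSpace E] in
/-- a bound on compact sets -/
theorem EJ_bd {W : E → ℝ} (hWb : ∀ ξ : E, ‖ξ‖ < 1 → |W ξ| ≤ 1 - ‖ξ‖ ^ 2)
    {Ψ : E × E → F} {U : Set (E × E)}
    (hUb : ball (0 : E) 1 ×ˢ closedBall (0 : E) 1 ⊆ U) (hΨ : ContinuousOn Ψ U)
    {r : ℝ} (hr : r < 1) :
    ∃ C : ℝ, ∀ y ξ : E, ‖y‖ ≤ r → ‖ξ‖ < 1 →
      ‖W ξ • Ψ (y, ξ)‖ ≤ C * (1 - ‖ξ‖ ^ 2) := by
  have : ProperSpace E := FiniteDimensional.proper ℂ E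
  have hK : IsCompact (closedBall (0 : E) r ×ˢ closedBall (0 : E) 1) :=
    (isCompact_closedBall _ _).prod (isCompact_closedBall _ _)
  have hs : closedBall (0 : E) r ×ˢ closedBall (0 : E) 1 ⊆ U :=
    (prod_mono (closedBall_subset_ball hr) subset_rfl).trans hUb
  obtain ⟨C, hC⟩ := hK.exists_bound_of_continuousOn (hΨ.mono hs)
  refine ⟨C, fun y ξ hy hξ => ?_⟩
  have h1 := hC (y, ξ) ⟨by simpa using hy, by simpa using hξ.le⟩
  have h2 := hWb ξ hξ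
  have h3 : 0 ≤ 1 - ‖ξ‖ ^ 2 := by nlinarith [norm_nonneg ξ]
  rw [norm_smul, Real.norm_eq_abs]
  calc |W ξ| * ‖Ψ (y, ξ)‖ ≤ (1 - ‖ξ‖ ^ 2) * C := by
        gcongr
    _ = C * (1 - ‖ξ‖ ^ 2) := mul_comm _ _

theorem EJ_int {ν : Measure E} {A : ℝ} (h : Carl ν A) {W : E → ℝ} (hW : Measurable W)
    (hWb : ∀ ξ : E, ‖ξ‖ < 1 → |W ξ| ≤ 1 - ‖ξ‖ ^ 2) {Ψ : E × E → F} {U : Set (E × E)}
    (hUb : ball (0 : E) 1 ×ˢ closedBall (0 : E) 1 ⊆ U) (hΨ : ContinuousOn Ψ U)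
    {y : E} (hy : ‖y‖ < 1) : Integrable (fun ξ => W ξ • Ψ (y, ξ)) ν := by
  obtain ⟨C, hC⟩ := EJ_bd hWb hUb hΨ hy
  refine Integrable.mono' ((Ed_int h).const_mul C) (EJ_meas h hW hUb hΨ hy) ?_
  filter_upwards [Ed_ae h] with ξ hξ
  exact hC y ξ le_rfl hξ

theorem EJ_cont {ν : Measure E} {A : ℝ} (h : Carl ν A) {W : E → ℝ} (hW : Measurable W)
    (hWb : ∀ ξ : E, ‖ξ‖ < 1 → |W ξ| ≤ 1 - ‖ξ‖ ^ 2) {Ψ : E × E → F} {U : Set (E × E)}
    (hU : IsOpen U) (hUb : ball (0 : E) 1 ×ˢ closedBall (0 : E) 1 ⊆ U) (hΨ : ContinuousOn Ψ U) :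
    ContinuousOn (EJ ν W Ψ) (ball 0 1) := by
  intro y hy
  rw [mem_ball_zero_iff] at hy
  refine ContinuousAt.continuousWithinAt ?_
  have hr1 : (1 + ‖y‖) / 2 < 1 := by linarith
  have hyr : ‖y‖ < (1 + ‖y‖) / 2 := by linarith
  set r := (1 + ‖y‖) / 2 with hr
  have hs : ball (0 : E) r ∈ 𝓝 y := isOpen_ball.mem_nhds (by simpa using hyr)
  obtain ⟨C, hC⟩ := EJ_bd hWb hUb hΨ hr1
  unfold EJ
  refine continuousAt_of_dominated (bound := fun ξ => C * (1 - ‖ξ‖ ^ 2)) ?_ ?_ ?_ ?_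
  · filter_upwards [hs] with z hz
    rw [mem_ball_zero_iff] at hz
    exact EJ_meas h hW hUb hΨ (hz.trans hr1)
  · filter_upwards [hs] with z hz
    filter_upwards [Ed_ae h] with ξ hξ
    rw [mem_ball_zero_iff] at hz
    exact hC z ξ hz.le hξ
  · exact (Ed_int h).const_mul _
  · filter_upwards [Ed_ae h] with ξ hξ
    refine ContinuousAt.smul continuousAt_const ?_
    have h1 : ContinuousAt Ψ (y, ξ) :=
      hΨ.continuousAt (hU.mem_nhds (hUb ⟨by simpa using hy, by simpa using hξ.le⟩))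
    exact ContinuousAt.comp (f := fun z : E => (z, ξ)) h1 (by fun_prop)

theorem EJ_deriv {ν : Measure E} {A : ℝ} (h : Carl ν A) {W : E → ℝ} (hW : Measurable W)
    (hWb : ∀ ξ : E, ‖ξ‖ < 1 → |W ξ| ≤ 1 - ‖ξ‖ ^ 2) {Ψ : E × E → F} {U : Set (E × E)}
    (hU : IsOpen U) (hUb : ball (0 : E) 1 ×ˢ closedBall (0 : E) 1 ⊆ U) (hΨ : ContDiffOn ℝ 1 Ψ U)
    {y : E} (hy : ‖y‖ < 1) :
    HasFDerivAt (EJ ν W Ψ) (EJ ν W (EdP Ψ) y) y := by
  have hr1 : (1 + ‖y‖) / 2 < 1 := by linarith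
  have hyr : ‖y‖ < (1 + ‖y‖) / 2 := by linarith
  set r := (1 + ‖y‖) / 2 with hr
  have hs : ball (0 : E) r ∈ 𝓝 y := isOpen_ball.mem_nhds (by simpa using hyr)
  have hc : ContinuousOn (fderiv ℝ Ψ) U := hΨ.continuousOn_fderiv_of_isOpen hU le_rfl
  have hP : ContinuousOn (EdP Ψ) U := by
    unfold EdP
    exact hc.clm_comp continuousOn_const
  obtain ⟨C, hC⟩ := EJ_bd hWb hUb hP hr1
  unfold EJ
  refine hasFDerivAt_integral_of_dominated_of_fderiv_le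
    (F := fun y ξ => W ξ • Ψ (y, ξ))
    (F' := fun y ξ => W ξ • EdP Ψ (y, ξ))
    (bound := fun ξ => C * (1 - ‖ξ‖ ^ 2)) hs ?_ ?_ ?_ ?_ ?_ ?_
  · filter_upwards [hs] with z hz
    rw [mem_ball_zero_iff] at hz
    exact EJ_meas h hW hUb hΨ.continuousOn (hz.trans hr1)
  · exact EJ_int h hW hWb hUb hΨ.continuousOn hy
  · exact EJ_meas h hW hUb hP hy
  · filter_upwards [Ed_ae h] with ξ hξ z hz
    rw [mem_ball_zero_iff] at hz
    exact hC z ξ hz.le hξ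
  · exact (Ed_int h).const_mul _
  · filter_upwards [Ed_ae h] with ξ hξ z hz
    rw [mem_ball_zero_iff] at hz
    have hzξ : (z, ξ) ∈ U := hUb ⟨by simpa using hz.trans hr1, by simpa using hξ.le⟩
    have h1 : HasFDerivAt Ψ (fderiv ℝ Ψ (z, ξ)) (z, ξ) :=
      ((hΨ.contDiffAt (hU.mem_nhds hzξ)).differentiableAt one_ne_zero).hasFDerivAt
    have h2 : HasFDerivAt (fun z : E => (z, ξ)) (ContinuousLinearMap.inl ℝ E E) z :=
      hasFDerivAt_prodMk_left z ξ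
    exact (h1.comp z h2).const_smul _

/-- the parametric integral is twice continuously differentiable -/
theorem EJ_c2 {ν : Measure E} {A : ℝ} (h : Carl ν A) {W : E → ℝ} (hW : Measurable W)
    (hWb : ∀ ξ : E, ‖ξ‖ < 1 → |W ξ| ≤ 1 - ‖ξ‖ ^ 2) {Ψ : E × E → F} {U : Set (E × E)}
    (hU : IsOpen U) (hUb : ball (0 : E) 1 ×ˢ closedBall (0 : E) 1 ⊆ U) (hΨ : ContDiffOn ℝ 2 Ψ U) :
    ContDiffOn ℝ 2 (EJ ν W Ψ) (ball 0 1) := by
  have hP1 : ContDiffOn ℝ 1 (EdP Ψ) U := by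
    unfold EdP
    refine ContDiffOn.clm_comp ?_ contDiffOn_const
    exact hΨ.fderiv_of_isOpen hU (by norm_num)
  have hP2 : ContinuousOn (EdP (EdP Ψ)) U := by
    unfold EdP at hP1 ⊢
    exact (hP1.continuousOn_fderiv_of_isOpen hU le_rfl).clm_comp continuousOn_const
  have hd : ∀ y ∈ ball (0 : E) 1, HasFDerivAt (EJ ν W Ψ) (EJ ν W (EdP Ψ) y) y := by
    intro y hy
    rw [mem_ball_zero_iff] at hy
    exact EJ_deriv h hW hWb hU hUb (hΨ.of_le (by norm_num)) hy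
  have hd1 : ∀ y ∈ ball (0 : E) 1,
      HasFDerivAt (EJ ν W (EdP Ψ)) (EJ ν W (EdP (EdP Ψ)) y) y := by
    intro y hy
    rw [mem_ball_zero_iff] at hy
    exact EJ_deriv h hW hWb hU hUb hP1 hy
  have h2 : ContDiffOn ℝ (0 + 1) (EJ ν W (EdP Ψ)) (ball 0 1) := by
    rw [contDiffOn_succ_iff_fderiv_of_isOpen isOpen_ball]
    refine ⟨fun y hy => (hd1 y hy).differentiableAt.differentiableWithinAt, by simp, ?_⟩
    rw [contDiffOn_zero]
    exact (EJ_cont h hW hWb hU hUb hP2).congr fun y hy => (hd1 y hy).fderiv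
  have h3 : ContDiffOn ℝ (1 + 1) (EJ ν W Ψ) (ball 0 1) := by
    rw [contDiffOn_succ_iff_fderiv_of_isOpen isOpen_ball]
    refine ⟨fun y hy => (hd y hy).differentiableAt.differentiableWithinAt, by simp, ?_⟩
    rw [zero_add] at h2
    exact h2.congr fun y hy => (hd y hy).fderiv
  have e : (1 + 1 : WithTop ℕ∞) = 2 := by norm_num
  rwa [e] at h3

end param

/-! ### the smooth factor -/

/-- the smooth factor of the integrand of `E3` -/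
noncomputable def Phi3 (p : E × E) : ℝ :=
  (1 - ‖p.1‖ ^ 2) ^ (3 / 2 : ℝ) * ((‖1 - ⟪p.1, p.2⟫_ℂ‖ ^ 2) ^ (3 / 2 : ℝ))⁻¹

/-- the weight -/
noncomputable def W3 (ξ : E) : ℝ := (1 - ‖ξ‖ ^ 2) ^ (3 / 2 : ℝ)

/-- the domain -/
def U3 (E : Type*) [NormedAddCommGroup E] [InnerProductSpace ℂ E] : Set (E × E) :=
  {p | ‖p.1‖ < 1} ∩ {p | 1 - ⟪p.1, p.2⟫_ℂ ≠ 0}

theorem U3_open : IsOpen (U3 E) :=
  (isOpen_lt (by fun_prop) continuous_const).inter (isOpen_ne_fun (by fun_prop) continuous_const)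

theorem U3_sub : ball (0 : E) 1 ×ˢ closedBall (0 : E) 1 ⊆ U3 E := by
  rintro ⟨y, ξ⟩ ⟨hy, hξ⟩
  simp only [mem_ball_zero_iff, mem_closedBall_zero_iff] at hy hξ
  refine ⟨hy, fun h0 => ?_⟩
  have h1 : ‖⟪y, ξ⟫_ℂ‖ ≤ ‖y‖ * ‖ξ‖ := norm_inner_le_norm y ξ
  have h2 : ⟪y, ξ⟫_ℂ = 1 := (sub_eq_zero.1 h0).symm
  rw [h2, norm_one] at h1
  nlinarith [norm_nonneg y, norm_nonneg ξ]

theorem Phi3_smooth {n : WithTop ℕ∞} : ContDiffOn ℝ n (Phi3 (E := E)) (U3 E) := by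
  have h1 : ContDiff ℝ n fun p : E × E => ⟪p.1, p.2⟫_ℂ := contDiff_fst.inner ℂ contDiff_snd
  have h2 : ContDiff ℝ n fun p : E × E => ‖1 - ⟪p.1, p.2⟫_ℂ‖ ^ 2 :=
    (contDiff_const.sub h1).norm_sq ℝ
  have h3 : ContDiff ℝ n fun p : E × E => ‖p.1‖ ^ 2 := by
    have e : (fun p : E × E => ‖p.1‖ ^ 2) = fun p : E × E => Complex.reCLM ⟪p.1, p.1⟫_ℂ := by
      funext p
      have := inner_self_eq_norm_sq_to_K (𝕜 := ℂ) p.1
      rw [this]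
      simp [← Complex.ofReal_pow]
    rw [e]
    exact Complex.reCLM.contDiff.comp (contDiff_fst.inner ℂ contDiff_fst)
  have hpos : ∀ p ∈ U3 E, 0 < ‖1 - ⟪p.1, p.2⟫_ℂ‖ ^ 2 := by
    intro p hp
    have : 0 < ‖1 - ⟪p.1, p.2⟫_ℂ‖ := norm_pos_iff.2 hp.2
    positivity
  refine ContDiffOn.mul ?_ (ContDiffOn.inv ?_ ?_)
  · refine ContDiffOn.rpow_const_of_ne (contDiff_const.sub h3).contDiffOn ?_
    intro p hp
    have : ‖p.1‖ < 1 := hp.1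
    nlinarith [norm_nonneg p.1]
  · refine ContDiffOn.rpow_const_of_ne h2.contDiffOn ?_
    intro p hp
    exact (hpos p hp).ne'
  · intro p hp
    exact (Real.rpow_pos_of_pos (hpos p hp) _).ne'

omit [InnerProductSpace ℂ E] in
theorem W3_bd (ξ : E) (hξ : ‖ξ‖ < 1) : |W3 ξ| ≤ 1 - ‖ξ‖ ^ 2 := by
  have h0 : 0 ≤ 1 - ‖ξ‖ ^ 2 := by nlinarith [norm_nonneg ξ]
  have h1 : 1 - ‖ξ‖ ^ 2 ≤ 1 := by nlinarith [norm_nonneg ξ]
  unfold W3
  rw [abs_of_nonneg (Real.rpow_nonneg h0 _)]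
  exact e3_pow_le h0 h1

theorem HH3_eq {y ξ : E} (hy : ‖y‖ < 1) (hξ : ‖ξ‖ < 1) :
    HH y ξ ^ (3 / 2 : ℝ) = W3 ξ • Phi3 (y, ξ) := by
  have h0 : 0 ≤ 1 - ‖y‖ ^ 2 := by nlinarith [norm_nonneg y]
  have h1 : 0 ≤ 1 - ‖ξ‖ ^ 2 := by nlinarith [norm_nonneg ξ]
  unfold HH W3 Phi3
  rw [Real.div_rpow (by positivity) (by positivity), Real.mul_rpow h0 h1, smul_eq_mul,
    div_eq_mul_inv]
  ring

/-- the derivative of the power of `HH` -/
theorem HH3_deriv {y ξ : E} (hy : ‖y‖ < 1) (hξ : ‖ξ‖ < 1) :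
    HasFDerivAt (fun y : E => HH y ξ ^ (3 / 2 : ℝ)) ((3 / 2 * HH y ξ ^ (3 / 2 : ℝ)) • Ed_L y ξ) y := by
  have h1 := Ed_HH hy (Ed_ne hy hξ)
  have h2 : HH y ξ ≠ 0 := (HH_pos hy hξ).ne'
  have h3 := h1.rpow_const (p := (3 / 2 : ℝ)) (Or.inl h2)
  refine h3.congr_fderiv ?_
  have h4 : HH y ξ ^ (3 / 2 - 1 : ℝ) * HH y ξ = HH y ξ ^ (3 / 2 : ℝ) := by
    rw [← Real.rpow_add_one h2]
    norm_num
  ext x
  simp only [smul_apply, smul_eq_mul]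
  rw [← h4]
  ring

theorem W3_EdP {y ξ : E} (hy : ‖y‖ < 1) (hξ : ‖ξ‖ < 1) :
    W3 ξ • EdP Phi3 (y, ξ) = (3 / 2 * HH y ξ ^ (3 / 2 : ℝ)) • Ed_L y ξ := by
  have hzξ : (y, ξ) ∈ U3 E := U3_sub ⟨by simpa using hy, by simpa using hξ.le⟩
  have h1 : HasFDerivAt (Phi3 (E := E)) (fderiv ℝ Phi3 (y, ξ)) (y, ξ) :=
    (((Phi3_smooth (n := 1)).contDiffAt (U3_open.mem_nhds hzξ)).differentiableAt
      one_ne_zero).hasFDerivAt
  have h2 : HasFDerivAt (fun z : E => (z, ξ)) (ContinuousLinearMap.inl ℝ E E) y :=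
    hasFDerivAt_prodMk_left y ξ
  have h3 : HasFDerivAt (fun z : E => W3 ξ • Phi3 (z, ξ)) (W3 ξ • EdP Phi3 (y, ξ)) y :=
    (h1.comp y h2).const_smul (W3 ξ)
  refine h3.unique ((HH3_deriv hy hξ).congr_of_eventuallyEq ?_)
  filter_upwards [isOpen_ball.mem_nhds (mem_ball_zero_iff.2 hy)] with z hz
  exact (HH3_eq (mem_ball_zero_iff.1 hz) hξ).symm

/-! ### the potential -/

section meas

variable [FiniteDimensional ℂ E] [MeasurableSpace E] [BorelSpace E]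

omit [InnerProductSpace ℂ E] [FiniteDimensional ℂ E] in
theorem W3_meas : Measurable (W3 (E := E)) := by
  unfold W3
  exact (Continuous.measurable (by fun_prop : Continuous fun ξ : E => 1 - ‖ξ‖ ^ 2)).pow_const _

theorem E3_integrable {ν : Measure E} {A : ℝ} (h : Carl ν A) {y : E} (hy : ‖y‖ < 1) :
    Integrable (fun ξ => HH y ξ ^ (3 / 2 : ℝ)) ν := by
  refine (EJ_int h W3_meas W3_bd U3_sub (Phi3_smooth (n := 0)).continuousOn hy).congr ?_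
  filter_upwards [Ed_ae h] with ξ hξ
  exact (HH3_eq hy hξ).symm

theorem E3_nonneg {ν : Measure E} {A : ℝ} (h : Carl ν A) {y : E} (hy : ‖y‖ < 1) :
    0 ≤ E3 ν y := by
  refine integral_nonneg_of_ae ?_
  filter_upwards [Ed_ae h] with ξ hξ
  exact Real.rpow_nonneg (pot_HH_nonneg hy hξ) _

theorem E3_le {ν : Measure E} {A : ℝ} (h : Carl ν A) {y : E} (hy : ‖y‖ < 1) :
    E3 ν y ≤ A := by
  obtain ⟨h1, h2⟩ := pot_HH_int h hy
  refine le_trans (integral_mono_ae (E3_integrable h hy) h1 ?_) h2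
  filter_upwards [Ed_ae h] with ξ hξ
  exact e3_pow_le (pot_HH_nonneg hy hξ) (HH_le_one hy hξ)

theorem EE_le_E3 {ν : Measure E} {A : ℝ} (h : Carl ν A) {y : E} (hy : ‖y‖ < 1) :
    EE ν y ≤ E3 ν y := by
  refine integral_mono_ae (EE_integrable h hy) (E3_integrable h hy) ?_
  filter_upwards [Ed_ae h] with ξ hξ
  exact e3_sq_le (pot_HH_nonneg hy hξ) (HH_le_one hy hξ)

theorem E3_compare {ν : Measure E} {A : ℝ} (h : Carl ν A) {x y : E} (hx : ‖x‖ < 1)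
    (hy : ‖y‖ < 1) : E3 ν x * HH x y ^ (3 / 2 : ℝ) ≤ 8 * E3 ν y := by
  unfold E3
  rw [← integral_mul_const, ← integral_const_mul]
  refine integral_mono_ae ((E3_integrable h hx).mul_const _) ((E3_integrable h hy).const_mul _) ?_
  filter_upwards [Ed_ae h] with ξ hξ
  show HH x ξ ^ (3 / 2 : ℝ) * HH x y ^ (3 / 2 : ℝ) ≤ 8 * HH y ξ ^ (3 / 2 : ℝ)
  have h1 : HH y x * HH x ξ ≤ 4 * HH y ξ := HH_mul hy hx hξ
  rw [HH_comm y x] at h1
  have h2 := pot_HH_nonneg hx hξ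
  have h3 := pot_HH_nonneg hx hy
  have h4 := pot_HH_nonneg hy hξ
  calc HH x ξ ^ (3 / 2 : ℝ) * HH x y ^ (3 / 2 : ℝ) = (HH x y * HH x ξ) ^ (3 / 2 : ℝ) := by
        rw [Real.mul_rpow h3 h2]; ring
    _ ≤ (4 * HH y ξ) ^ (3 / 2 : ℝ) := Real.rpow_le_rpow (mul_nonneg h3 h2) h1 (by norm_num)
    _ = 8 * HH y ξ ^ (3 / 2 : ℝ) := by rw [Real.mul_rpow (by norm_num) h4, e3_four]

omit [FiniteDimensional ℂ E] [BorelSpace E] in
theorem E3_eq_EJ {ν : Measure E} {A : ℝ} (h : Carl ν A) {y : E} (hy : ‖y‖ < 1) :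
    E3 ν y = EJ ν W3 Phi3 y := by
  refine integral_congr_ae ?_
  filter_upwards [Ed_ae h] with ξ hξ
  exact HH3_eq hy hξ

theorem E3_c2 {ν : Measure E} {A : ℝ} (h : Carl ν A) : ContDiffOn ℝ 2 (E3 ν) (ball 0 1) :=
  (EJ_c2 h W3_meas W3_bd U3_open U3_sub Phi3_smooth).congr fun _ hy =>
    E3_eq_EJ h (mem_ball_zero_iff.1 hy)

/-- the derivative of the potential -/
theorem E3_hasFDerivAt {ν : Measure E} {A : ℝ} (h : Carl ν A) {y : E} (hy : ‖y‖ < 1) :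
    HasFDerivAt (E3 ν) (EJ ν W3 (EdP Phi3) y) y := by
  refine (EJ_deriv h W3_meas W3_bd U3_open U3_sub (Phi3_smooth (n := 1)) hy).congr_of_eventuallyEq ?_
  filter_upwards [isOpen_ball.mem_nhds (mem_ball_zero_iff.2 hy)] with z hz
  exact E3_eq_EJ h (mem_ball_zero_iff.1 hz)

/-- the bound of the derivative, from the bound of the logarithmic derivative of the kernel -/
theorem E3_fderiv' {ν : Measure E} {A : ℝ} (h : Carl ν A) {y : E} (hy : ‖y‖ < 1) (X : E)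
    (hL : ∀ ξ : E, ‖ξ‖ < 1 → |Ed_L y ξ X| ≤ 2 * BB y X) :
    |fderiv ℝ (E3 ν) y X| ≤ 3 * E3 ν y * BB y X := by
  rw [(E3_hasFDerivAt h hy).fderiv]
  have hc : ContinuousOn (EdP (Phi3 (E := E))) (U3 E) := by
    unfold EdP
    exact ((Phi3_smooth (n := 1)).continuousOn_fderiv_of_isOpen U3_open le_rfl).clm_comp
      continuousOn_const
  have hint : Integrable (fun ξ => W3 ξ • EdP Phi3 (y, ξ)) ν :=
    EJ_int h W3_meas W3_bd U3_sub hc hy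
  unfold EJ
  rw [ContinuousLinearMap.integral_apply hint]
  have h1 : |∫ ξ, (W3 ξ • EdP Phi3 (y, ξ)) X ∂ν| ≤ ∫ ξ, 3 * BB y X * HH y ξ ^ (3 / 2 : ℝ) ∂ν := by
    rw [← Real.norm_eq_abs]
    refine norm_integral_le_of_norm_le ((E3_integrable h hy).const_mul _) ?_
    filter_upwards [Ed_ae h] with ξ hξ
    have h2 : 0 ≤ HH y ξ ^ (3 / 2 : ℝ) := Real.rpow_nonneg (pot_HH_nonneg hy hξ) _
    rw [W3_EdP hy hξ, Real.norm_eq_abs]
    show |(3 / 2 * HH y ξ ^ (3 / 2 : ℝ)) * Ed_L y ξ X| ≤ _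
    rw [abs_mul, abs_of_nonneg (by positivity)]
    calc 3 / 2 * HH y ξ ^ (3 / 2 : ℝ) * |Ed_L y ξ X|
        ≤ 3 / 2 * HH y ξ ^ (3 / 2 : ℝ) * (2 * BB y X) := by
          gcongr
          exact hL ξ hξ
      _ = 3 * BB y X * HH y ξ ^ (3 / 2 : ℝ) := by ring
  refine h1.trans (le_of_eq ?_)
  rw [integral_const_mul]
  unfold E3
  ring

theorem E3_fderiv {ν : Measure E} {A : ℝ} (h : Carl ν A) {y : E} (hy : ‖y‖ < 1) (X : E) :
    |fderiv ℝ (E3 ν) y X| ≤ 3 * E3 ν y * BB y X :=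
  E3_fderiv' h hy X fun _ hξ => Ed_L_BB hy hξ X

end meas

end Pool.Agent.MPca0fc2.CP
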