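import Mathlib

/-! The function `2 x - x ^ (3/2)` on the disc with the diameter `(0, 2)`. -/

set_option autoImplicit false

open Metric Set Filter Topology

namespace Pool.Agent.MPca0fc2.CP

/-- the function `2 x - x ^ (3/2)` -/
noncomputable def phi (x : ℂ) : ℂ := 2 * x - x ^ ((3 / 2 : ℝ) : ℂ)

/-- the domain -/
def Dphi : Set ℂ := {x | x ≠ 0 ∧ ‖x‖ ^ 2 ≤ 2 * x.re}

theorem Dphi_re {x : ℂ} (hx : x ∈ Dphi) : 0 < x.re := by
  have h1 : 0 < ‖x‖ := norm_pos_iff.mpr hx.1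
  have h2 := hx.2
  nlinarith [sq_pos_of_pos h1]

theorem Dphi_norm {x : ℂ} (hx : x ∈ Dphi) : ‖x‖ ≤ 2 := by
  have h1 := Complex.re_le_norm x
  have h2 := hx.2
  have h3 : 0 < ‖x‖ := norm_pos_iff.mpr hx.1
  nlinarith

theorem phi_norm {x : ℂ} (hx : x ∈ Dphi) : ‖phi x‖ ≤ 5 * ‖x‖ := by
  have h2 := Dphi_norm hx
  have h0 : 0 < ‖x‖ := norm_pos_iff.mpr hx.1
  have h3 : ‖x ^ ((3 / 2 : ℝ) : ℂ)‖ ≤ 2 * ‖x‖ := by
    rw [Complex.norm_cpow_real]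
    have h4 : ‖x‖ ^ (3 / 2 : ℝ) = ‖x‖ * ‖x‖ ^ (1 / 2 : ℝ) := by
      rw [show (3 / 2 : ℝ) = 1 + 1 / 2 by norm_num, Real.rpow_add h0, Real.rpow_one]
    have h5 : ‖x‖ ^ (1 / 2 : ℝ) ≤ 2 := by
      rw [← Real.sqrt_eq_rpow]
      rw [Real.sqrt_le_left (by norm_num)]
      linarith
    rw [h4]
    nlinarith
  unfold phi
  refine (norm_sub_le _ _).trans ?_
  rw [norm_mul, Complex.norm_ofNat]
  linarith

theorem phi_hasDerivAt {x : ℂ} (hx : 0 < x.re) :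
    HasDerivAt phi (2 - ((3 / 2 : ℝ) : ℂ) * x ^ (((3 / 2 : ℝ) : ℂ) - 1)) x := by
  unfold phi
  have h1 : HasDerivAt (fun x : ℂ => 2 * x) 2 x := by
    simpa using (hasDerivAt_id x).const_mul (2 : ℂ)
  have h2 : HasDerivAt (fun x : ℂ => x ^ ((3 / 2 : ℝ) : ℂ))
      (((3 / 2 : ℝ) : ℂ) * x ^ (((3 / 2 : ℝ) : ℂ) - 1)) x := by
    simpa using (hasDerivAt_id x).cpow_const (c := ((3 / 2 : ℝ) : ℂ))
      (Complex.mem_slitPlane_iff.mpr (Or.inl hx))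
  exact h1.sub h2

theorem phi_deriv_le {x : ℂ} (hx : 0 < x.re) (hx3 : ‖x‖ ≤ 3) :
    ‖(2 : ℂ) - ((3 / 2 : ℝ) : ℂ) * x ^ (((3 / 2 : ℝ) : ℂ) - 1)‖ ≤ 5 := by
  have h1 : ‖x ^ (((3 / 2 : ℝ) : ℂ) - 1)‖ ≤ 2 := by
    have : (((3 / 2 : ℝ) : ℂ) - 1) = ((1 / 2 : ℝ) : ℂ) := by push_cast; ring
    rw [this, Complex.norm_cpow_real, ← Real.sqrt_eq_rpow, Real.sqrt_le_left (by norm_num)]
    linarith
  refine (norm_sub_le _ _).trans ?_
  rw [norm_mul, Complex.norm_real, Complex.norm_ofNat, Real.norm_of_nonneg (by norm_num)]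
  linarith

theorem phi_lip {x y : ℂ} (hx : 0 < x.re) (hx3 : ‖x‖ ≤ 2) (hy : 0 < y.re) (hy3 : ‖y‖ ≤ 2) :
    ‖phi x - phi y‖ ≤ 5 * ‖x - y‖ := by
  obtain ⟨S, hS⟩ : ∃ S : Set ℂ, S = {x : ℂ | 0 < x.re} ∩ closedBall 0 2 := ⟨_, rfl⟩
  have hSc : Convex ℝ S := by
    rw [hS]
    exact (convex_halfSpace_re_gt 0).inter (convex_closedBall 0 2)
  refine hSc.norm_image_sub_le_of_norm_hasDerivWithin_le (f := phi)
    (f' := fun x => 2 - ((3 / 2 : ℝ) : ℂ) * x ^ (((3 / 2 : ℝ) : ℂ) - 1)) (C := 5) ?_ ?_ ?_ ?_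
  · intro x hx
    rw [hS] at hx
    exact (phi_hasDerivAt hx.1).hasDerivWithinAt
  · intro x hx
    rw [hS] at hx
    have := mem_closedBall_zero_iff.mp hx.2
    exact phi_deriv_le hx.1 (by linarith)
  · rw [hS]; exact ⟨hy, mem_closedBall_zero_iff.mpr hy3⟩
  · rw [hS]; exact ⟨hx, mem_closedBall_zero_iff.mpr hx3⟩

theorem phi_alg {c R : ℝ} (hc0 : 0 < c) (hc1 : c ≤ 1) (hR : 0 < R) (h : R ^ 2 ≤ 4 * c ^ 2 - 2) :
    R / 3 ≤ 4 * c ^ 2 - 2 - R * (4 * c ^ 3 - 3 * c) := by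
  have hc7 : 7 / 10 ≤ c := by nlinarith
  obtain ⟨T, hT⟩ : ∃ T, T = 4 * c ^ 2 - 2 := ⟨_, rfl⟩
  have e1 : 4 * c ^ 3 - 3 * c = c * (T - 1) := by rw [hT]; ring
  have hT2 : T ≤ 2 := by rw [hT]; nlinarith
  rw [e1]
  rw [← hT] at h ⊢
  rcases le_or_gt T 1 with h1 | h1
  · have h2 : R * (7 / 10 * (1 - T)) ≤ R * (c * (1 - T)) := by
      apply mul_le_mul_of_nonneg_left _ hR.le
      apply mul_le_mul_of_nonneg_right hc7
      linarith
    have hR1 : R ≤ 1 := by nlinarith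
    rcases le_or_gt T (1 / 2) with h3 | h3
    · nlinarith
    · nlinarith
  · have h2 : R * (c * (T - 1)) ≤ R * (1 * (T - 1)) := by
      apply mul_le_mul_of_nonneg_left _ hR.le
      apply mul_le_mul_of_nonneg_right hc1
      linarith
    obtain ⟨q, hq⟩ : ∃ q, q = Real.sqrt T := ⟨_, rfl⟩
    have hq0 : 0 ≤ q := by rw [hq]; exact Real.sqrt_nonneg _
    have hq2 : q ^ 2 = T := by rw [hq]; exact Real.sq_sqrt (by linarith)
    have hRq : R ≤ q := by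
      apply le_of_sq_le_sq _ hq0
      rw [hq2]; exact h
    have hq1 : q ≤ 1.4143 := by nlinarith
    have hq11 : 1 ≤ q := by nlinarith
    have h3 : R * ((T - 1) + 1 / 3) ≤ q * ((T - 1) + 1 / 3) := by
      apply mul_le_mul_of_nonneg_right hRq
      linarith
    have h4 : q * ((T - 1) + 1 / 3) ≤ T := by
      rw [← hq2]
      nlinarith
    nlinarith

theorem phi_re {x : ℂ} (hx : x ∈ Dphi) : ‖x‖ ^ (3 / 2 : ℝ) ≤ 3 * (phi x).re := by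
  have h0 : 0 < ‖x‖ := norm_pos_iff.mpr hx.1
  have hre := Dphi_re hx
  obtain ⟨s, hs⟩ : ∃ s : ℂ, s = x ^ ((1 / 2 : ℝ) : ℂ) := ⟨_, rfl⟩
  have hs2 : s ^ 2 = x := by
    rw [hs, ← Complex.cpow_nat_mul]
    have : ((2 : ℕ) : ℂ) * ((1 / 2 : ℝ) : ℂ) = 1 := by push_cast; norm_num
    rw [this, Complex.cpow_one]
  have hs3 : s ^ 3 = x ^ ((3 / 2 : ℝ) : ℂ) := by
    rw [hs, ← Complex.cpow_nat_mul]
    congr 1
    push_cast
    norm_num
  have hsn : ‖s‖ ^ 2 = ‖x‖ := by rw [← norm_pow, hs2]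
  have hs0 : 0 < ‖s‖ := by
    rcases (norm_nonneg s).eq_or_lt with h | h
    · rw [← h] at hsn
      rw [← hsn] at h0
      norm_num at h0
    · exact h
  have hsre : 0 < s.re := by
    rw [hs, Complex.cpow_def_of_ne_zero hx.1, Complex.exp_re]
    have h1 : (Complex.log x * ((1 / 2 : ℝ) : ℂ)).im = x.arg * (1 / 2) := by
      rw [Complex.im_mul_ofReal, Complex.log_im]
    rw [h1]
    apply mul_pos (Real.exp_pos _)
    have h2 := Complex.arg_le_pi x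
    have h3 := Complex.neg_pi_lt_arg x
    have h4 : x.arg < Real.pi := by
      refine lt_of_le_of_ne h2 fun h => ?_
      rw [Complex.arg_eq_pi_iff] at h
      linarith
    apply Real.cos_pos_of_mem_Ioo
    constructor <;> linarith
  -- real coordinates
  obtain ⟨a, ha⟩ : ∃ a, a = s.re := ⟨_, rfl⟩
  obtain ⟨b, hb⟩ : ∃ b, b = s.im := ⟨_, rfl⟩
  obtain ⟨R, hR⟩ : ∃ R, R = ‖s‖ := ⟨_, rfl⟩
  rw [← ha] at hsre
  rw [← hR] at hs0 hsn
  have hRab : R ^ 2 = a ^ 2 + b ^ 2 := by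
    rw [hR, ha, hb, ← Complex.normSq_eq_norm_sq, Complex.normSq_apply]; ring
  have hxre : x.re = a ^ 2 - b ^ 2 := by
    rw [← hs2, sq, Complex.mul_re, ha, hb]; ring
  have hx3re : (x ^ ((3 / 2 : ℝ) : ℂ)).re = a ^ 3 - 3 * a * b ^ 2 := by
    rw [← hs3, show s ^ 3 = s * s * s by ring, Complex.mul_re, Complex.mul_re, Complex.mul_im,
      ha, hb]
    ring
  have haR : a ≤ R := by rw [ha, hR]; exact Complex.re_le_norm s
  have h1 := hx.2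
  rw [← hsn, hxre] at h1
  have h2 : (a / R) ≤ 1 := by rw [div_le_one hs0]; exact haR
  have h3 : 0 < a / R := by positivity
  have h4 : R ^ 2 ≤ 4 * (a / R) ^ 2 - 2 := by
    rw [div_pow, ← mul_div_assoc, le_sub_iff_add_le, le_div_iff₀ (by positivity)]
    nlinarith
  have key := phi_alg h3 h2 hs0 h4
  have h5 : ‖x‖ ^ (3 / 2 : ℝ) = R ^ 3 := by
    rw [← hsn, ← Real.rpow_natCast R 2, ← Real.rpow_mul hs0.le, ← Real.rpow_natCast R 3]
    norm_num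
  have h6 : (phi x).re = R ^ 2 * (4 * (a / R) ^ 2 - 2 - R * (4 * (a / R) ^ 3 - 3 * (a / R))) := by
    unfold phi
    rw [Complex.sub_re, hx3re]
    have : (2 * x).re = 2 * x.re := by simp
    rw [this, hxre]
    have hb2 : b ^ 2 = R ^ 2 - a ^ 2 := by linarith
    rw [hb2]
    field_simp
    ring
  rw [h5, h6]
  nlinarith [mul_le_mul_of_nonneg_left key (sq_nonneg R)]

theorem phi_re_nonneg {x : ℂ} (hx : x ∈ Dphi) : 0 ≤ (phi x).re := by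
  have := phi_re hx
  have h2 : 0 ≤ ‖x‖ ^ (3 / 2 : ℝ) := Real.rpow_nonneg (norm_nonneg _) _
  linarith

end Pool.Agent.MPca0fc2.CP
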