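import Mathlib
import Pool.Agent.Lib.MP_ca0fc2_an.CPPhi

/-! The path lemma for curves: numbers. -/

set_option autoImplicit false

open Metric Set Filter Topology

namespace Pool.Agent.MPca0fc2.CP

theorem sum_mu {ϑ μ : ℝ} (h0 : 0 < ϑ) (h1 : ϑ < 1) (hμ : 0 < μ) (j : ℕ) : ∀ k : ℕ, j ≤ k →
    (1 - ϑ) * ∑ i ∈ Finset.Ioc j k, μ * ϑ ^ i / (μ + ϑ ^ i) ^ 2 ≤
      ϑ ^ (j + 1) / (μ + ϑ ^ (j + 1)) - ϑ ^ (k + 1) / (μ + ϑ ^ (k + 1)) := by
  intro k hk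
  induction k, hk using Nat.le_induction with
  | base => simp
  | succ k hk ih =>
    rw [Finset.sum_Ioc_succ_top (by omega), mul_add]
    have hx : 0 < ϑ ^ (k + 1) := by positivity
    have hs : ϑ ^ (k + 1 + 1) = ϑ * ϑ ^ (k + 1) := by ring
    rw [hs]
    set x := ϑ ^ (k + 1) with hxd
    have h2 : (1 - ϑ) * (μ * x / (μ + x) ^ 2) ≤ x / (μ + x) - ϑ * x / (μ + ϑ * x) := by
      have h3 : 0 < μ + ϑ * x := by positivity
      have h4 : 0 < μ + x := by positivity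
      have h5 : x / (μ + x) - ϑ * x / (μ + ϑ * x) = (1 - ϑ) * (μ * x) / ((μ + x) * (μ + ϑ * x)) := by
        field_simp
        ring
      rw [h5, ← mul_div_assoc]
      apply div_le_div_of_nonneg_left _ (by positivity)
      · rw [sq]
        apply mul_le_mul_of_nonneg_left _ h4.le
        nlinarith
      · have : 0 ≤ 1 - ϑ := by linarith
        positivity
    linarith

theorem sum_mu' {ϑ μ : ℝ} (h0 : 0 < ϑ) (h1 : ϑ < 1) (hμ : 0 < μ) {j k : ℕ} (hjk : j ≤ k) :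
    (1 - ϑ) * ∑ i ∈ Finset.Ioc j k, μ * ϑ ^ i / (μ + ϑ ^ i) ^ 2 ≤ 1 := by
  refine (sum_mu h0 h1 hμ j k hjk).trans ?_
  have hx : 0 < ϑ ^ (k + 1) := by positivity
  have hy : 0 < ϑ ^ (j + 1) := by positivity
  have h2 : 0 ≤ ϑ ^ (k + 1) / (μ + ϑ ^ (k + 1)) := by positivity
  have h3 : ϑ ^ (j + 1) / (μ + ϑ ^ (j + 1)) ≤ 1 := by
    rw [div_le_one (by positivity)]
    linarith
  linarith

theorem sum_geo {ϑ : ℝ} (h0 : 0 < ϑ) (h1 : ϑ < 1) (j : ℕ) : ∀ k : ℕ, j ≤ k →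
    (1 - ϑ) * ∑ i ∈ Finset.Ioc j k, ϑ ^ (i - j) ≤ 1 - ϑ ^ (k - j) := by
  intro k hk
  induction k, hk using Nat.le_induction with
  | base => simp
  | succ k hk ih =>
    rw [Finset.sum_Ioc_succ_top (by omega), mul_add]
    have hs : k + 1 - j = (k - j) + 1 := by omega
    rw [hs, pow_succ]
    have hx : 0 < ϑ ^ (k - j) := by positivity
    nlinarith [mul_pos h0 hx, mul_pos hx (sub_pos.mpr h1)]

theorem sum_geo' {ϑ : ℝ} (h0 : 0 < ϑ) (h1 : ϑ < 1) {j k : ℕ} (hjk : j ≤ k) :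
    (1 - ϑ) * ∑ i ∈ Finset.Ioc j k, ϑ ^ (i - j) ≤ 1 := by
  refine (sum_geo h0 h1 j k hjk).trans ?_
  have hx : 0 < ϑ ^ (k - j) := by positivity
  linarith

/-- the term of the path sum -/
noncomputable def tm (L s d w m : ℝ) : ℝ := (d * s / m ^ 2) ^ (3 / 2 : ℝ) * (w / (2 * L * d)) ^ (1 / 4 : ℝ)

theorem tm_pow {L s d w m : ℝ} (hL : 1 ≤ L) (hs : 0 < s) (hd : 0 < d) (hw : 0 ≤ w) (hm : 0 < m) :
    tm L s d w m ^ 4 = (d * s / m ^ 2) ^ 5 * (s * w / (2 * L * m ^ 2)) := by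
  have hL0 : 0 < L := by linarith
  unfold tm
  rw [mul_pow, ← Real.rpow_natCast ((d * s / m ^ 2) ^ (3 / 2 : ℝ)) 4,
    ← Real.rpow_natCast ((w / (2 * L * d)) ^ (1 / 4 : ℝ)) 4, ← Real.rpow_mul (by positivity),
    ← Real.rpow_mul (by positivity)]
  have e1 : (3 / 2 : ℝ) * ((4 : ℕ) : ℝ) = ((6 : ℕ) : ℝ) := by norm_num
  have e2 : (1 / 4 : ℝ) * ((4 : ℕ) : ℝ) = 1 := by norm_num
  rw [e1, e2, Real.rpow_natCast, Real.rpow_one]
  field_simp

theorem tm_nonneg {L s d w m : ℝ} (hL : 1 ≤ L) (hs : 0 < s) (hd : 0 < d) (hw : 0 ≤ w) :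
    0 ≤ tm L s d w m := by
  have hL0 : 0 < L := by linarith
  unfold tm
  positivity

/-- the term, far from the end -/
theorem tm_far {L s d w m M μ x : ℝ} (hL : 1 ≤ L) (hs : 0 < s) (hd : 0 < d) (hw : 0 ≤ w)
    (hm : 0 < m) (hμ : 0 < μ) (hx : 0 < x) (hM : M = μ ^ 4) (hdm : d ≤ 2 * m)
    (hwx : w ≤ 4 * x ^ 4) (hxd : x ^ 4 ≤ 2 * L * d) (hMm : M ≤ m + L * x ^ 4) :
    tm L s d w m ≤ 5184 * L ^ 4 * (s / M) ^ (3 / 2 : ℝ) * (μ * x / (μ + x) ^ 2) := by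
  have hL0 : 0 < L := by linarith
  have hM0 : 0 < M := by rw [hM]; positivity
  have hx4 : x ^ 4 ≤ 4 * L * m := by nlinarith
  have h1 : M + x ^ 4 ≤ 9 * L ^ 2 * m := by
    have h2 : L * x ^ 4 ≤ L * (4 * L * m) := mul_le_mul_of_nonneg_left hx4 hL0.le
    have h3 : m ≤ L ^ 2 * m := by nlinarith [mul_pos hL0 hm]
    have h4 : 4 * L * m ≤ 4 * L ^ 2 * m := by nlinarith [mul_pos hL0 hm]
    nlinarith
  have h2 : (μ + x) ^ 4 ≤ 8 * (M + x ^ 4) := by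
    rw [hM]
    have h3 : (μ + x) ^ 2 ≤ 2 * (μ ^ 2 + x ^ 2) := by nlinarith [sq_nonneg (μ - x)]
    have h4 : ((μ + x) ^ 2) ^ 2 ≤ (2 * (μ ^ 2 + x ^ 2)) ^ 2 := by gcongr
    have h5 : (2 * (μ ^ 2 + x ^ 2)) ^ 2 ≤ 8 * (μ ^ 4 + x ^ 4) := by
      nlinarith [sq_nonneg (μ ^ 2 - x ^ 2)]
    calc (μ + x) ^ 4 = ((μ + x) ^ 2) ^ 2 := by ring
      _ ≤ _ := h4.trans h5
  have h3 : (μ + x) ^ 4 ≤ 72 * L ^ 2 * m := by nlinarith
  have hR0 : 0 ≤ 5184 * L ^ 4 * (s / M) ^ (3 / 2 : ℝ) * (μ * x / (μ + x) ^ 2) := by positivity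
  rw [← pow_le_pow_iff_left₀ (tm_nonneg hL hs hd hw) hR0 (n := 4) (by norm_num),
    tm_pow hL hs hd hw hm]
  have e1 : (5184 * L ^ 4 * (s / M) ^ (3 / 2 : ℝ) * (μ * x / (μ + x) ^ 2)) ^ 4 =
      (5184 * L ^ 4) ^ 4 * (s / M) ^ 6 * (μ * x / (μ + x) ^ 2) ^ 4 := by
    rw [mul_pow, mul_pow, ← Real.rpow_natCast ((s / M) ^ (3 / 2 : ℝ)) 4,
      ← Real.rpow_mul (by positivity)]
    have e1 : (3 / 2 : ℝ) * ((4 : ℕ) : ℝ) = ((6 : ℕ) : ℝ) := by norm_num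
    rw [e1, Real.rpow_natCast]
  rw [e1]
  have h4 : d * s / m ^ 2 ≤ 2 * s / m := by
    rw [div_le_div_iff₀ (by positivity) hm]
    nlinarith [mul_pos hs hm]
  have h5 : s * w / (2 * L * m ^ 2) ≤ 2 * s * x ^ 4 / m ^ 2 := by
    rw [div_le_div_iff₀ (by positivity) (by positivity)]
    have h6 : s * w ≤ s * (4 * x ^ 4) := mul_le_mul_of_nonneg_left hwx hs.le
    have h7 : s * (4 * x ^ 4) ≤ s * (4 * x ^ 4) * L := by
      have : 0 ≤ s * (4 * x ^ 4) := by positivity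
      nlinarith
    have h8 : s * w ≤ s * (4 * x ^ 4) * L := h6.trans h7
    have h9 := mul_le_mul_of_nonneg_right h8 (sq_nonneg m)
    nlinarith
  calc (d * s / m ^ 2) ^ 5 * (s * w / (2 * L * m ^ 2)) ≤ (2 * s / m) ^ 5 * (2 * s * x ^ 4 / m ^ 2) := by
        gcongr
    _ = 64 * s ^ 6 * x ^ 4 * (1 / m) ^ 7 := by field_simp; ring
    _ ≤ 64 * s ^ 6 * x ^ 4 * (72 * L ^ 2 / (μ + x) ^ 4) ^ 7 := by
        have h6 : 1 / m ≤ 72 * L ^ 2 / (μ + x) ^ 4 := by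
          rw [div_le_div_iff₀ hm (by positivity)]
          linarith
        gcongr
    _ = 64 * 72 ^ 7 * L ^ 14 * (s ^ 6 * x ^ 4 / (μ + x) ^ 8) * (1 / (μ + x)) ^ 20 := by
        field_simp
    _ ≤ 64 * 72 ^ 7 * L ^ 14 * (s ^ 6 * x ^ 4 / (μ + x) ^ 8) * (1 / μ) ^ 20 := by
        have h6 : 1 / (μ + x) ≤ 1 / μ := one_div_le_one_div_of_le hμ (by linarith)
        gcongr
    _ ≤ (5184 ^ 4 * L ^ 16) * (s ^ 6 * x ^ 4 / (μ + x) ^ 8) * (1 / μ) ^ 20 := by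
        have h6 : 64 * 72 ^ 7 * L ^ 14 ≤ 5184 ^ 4 * L ^ 16 := by
          have h7 : L ^ 14 ≤ L ^ 16 := pow_le_pow_right₀ hL (by norm_num)
          calc 64 * 72 ^ 7 * L ^ 14 ≤ 5184 ^ 4 * L ^ 14 := by
                apply mul_le_mul_of_nonneg_right _ (by positivity)
                norm_num
            _ ≤ _ := by gcongr
        gcongr
    _ = _ := by
        rw [hM]
        field_simp

/-- the term, near the end -/
theorem tm_near {L s d w m dj mj H τ τj : ℝ} (hL : 1 ≤ L) (hs : 0 < s) (hd : 0 < d) (hw : 0 ≤ w)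
    (hm : 0 < m) (hmj : 0 < mj) (hdj : 0 < dj) (hH : H = dj * s / mj ^ 2)
    (hd5 : d ≤ 5 * L ^ 2 * dj) (hm10 : mj ≤ 10 * L ^ 3 * m) (hwτ : w ≤ 4 * (τ * τj))
    (hτ : 0 < τ) (hτj : 0 < τj)
    (hτd : τj ≤ 2 * L * dj) (hH4 : H ≤ 4) {x : ℝ} (hx : 0 < x) (hxτ : x ^ 4 = τ) :
    tm L s d w m ≤ 23000 * L ^ 12 * H * x := by
  have hL0 : 0 < L := by linarith
  have hH0 : 0 < H := by rw [hH]; positivity
  have h1 : d * s / m ^ 2 ≤ 500 * L ^ 8 * H := by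
    rw [hH, mul_div_assoc', div_le_div_iff₀ (by positivity) (by positivity)]
    have h2 : mj ^ 2 ≤ (10 * L ^ 3 * m) ^ 2 := by gcongr
    calc d * s * mj ^ 2 ≤ (5 * L ^ 2 * dj) * s * (10 * L ^ 3 * m) ^ 2 := by gcongr
      _ = _ := by ring
  have h2 : s * w / (2 * L * m ^ 2) ≤ 400 * L ^ 6 * H * τ := by
    have h3 : s * w / (2 * L * m ^ 2) ≤ s * (4 * (τ * τj)) * (100 * L ^ 6) / (2 * L * mj ^ 2) := by
      rw [div_le_div_iff₀ (by positivity) (by positivity)]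
      have h2 : mj ^ 2 ≤ (10 * L ^ 3 * m) ^ 2 := by gcongr
      calc s * w * (2 * L * mj ^ 2) ≤ s * (4 * (τ * τj)) * (2 * L * (10 * L ^ 3 * m) ^ 2) := by
            gcongr
        _ = _ := by ring
    refine h3.trans ?_
    rw [hH, mul_div_assoc', div_mul_eq_mul_div, div_le_div_iff₀ (by positivity) (by positivity)]
    calc s * (4 * (τ * τj)) * (100 * L ^ 6) * mj ^ 2 ≤
        s * (4 * (τ * (2 * L * dj))) * (100 * L ^ 6) * mj ^ 2 := by gcongr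
      _ = _ := by ring
  have hR0 : 0 ≤ 23000 * L ^ 12 * H * x := by positivity
  rw [← pow_le_pow_iff_left₀ (tm_nonneg hL hs hd hw) hR0 (n := 4) (by norm_num),
    tm_pow hL hs hd hw hm]
  calc (d * s / m ^ 2) ^ 5 * (s * w / (2 * L * m ^ 2)) ≤
      (500 * L ^ 8 * H) ^ 5 * (400 * L ^ 6 * H * τ) := by gcongr
    _ = (500 ^ 5 * 400) * L ^ 46 * (H ^ 2) * (H ^ 4 * τ) := by ring
    _ ≤ (500 ^ 5 * 400) * L ^ 48 * (16) * (H ^ 4 * τ) := by
        have h3 : L ^ 46 ≤ L ^ 48 := pow_le_pow_right₀ hL (by norm_num)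
        have h4 : H ^ 2 ≤ 16 := by nlinarith
        gcongr
    _ ≤ 23000 ^ 4 * L ^ 48 * (H ^ 4 * τ) := by
        have h3 : (500 ^ 5 * 400) * L ^ 48 * 16 ≤ 23000 ^ 4 * L ^ 48 := by
          have : 0 < L ^ 48 := by positivity
          nlinarith
        gcongr
    _ = _ := by rw [← hxτ]; ring

/-- the point `s / g` of the disc -/
theorem Dphi_of {s : ℝ} {g : ℂ} (hs : 0 < s) (hg : s / 2 ≤ g.re) : (s : ℂ) / g ∈ Dphi := by
  have hg0 : g ≠ 0 := by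
    intro h
    rw [h, Complex.zero_re] at hg
    linarith
  have hn : 0 < ‖g‖ := norm_pos_iff.mpr hg0
  refine ⟨div_ne_zero (Complex.ofReal_ne_zero.mpr hs.ne') hg0, ?_⟩
  rw [norm_div, Complex.norm_real, Real.norm_of_nonneg hs.le, div_eq_mul_inv (s : ℂ),
    Complex.re_ofReal_mul, Complex.inv_re, Complex.normSq_eq_norm_sq, div_pow]
  have h1 : 2 * (s * (g.re / ‖g‖ ^ 2)) = (2 * s * g.re) / ‖g‖ ^ 2 := by ring
  rw [h1]
  apply div_le_div_of_nonneg_right _ (by positivity)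
  nlinarith

theorem rpow_quarter_pow {θ : ℝ} (h0 : 0 < θ) (i : ℕ) :
    ((θ ^ (1 / 4 : ℝ)) ^ i) ^ 4 = θ ^ i := by
  rw [← pow_mul, mul_comm, pow_mul, ← Real.rpow_natCast (θ ^ (1 / 4 : ℝ)) 4,
    ← Real.rpow_mul h0.le]
  norm_num

/-- The path lemma, for numbers. -/
theorem path_abs {θ L s : ℝ} (h0 : 0 < θ) (h1 : θ < 1) (hL : 1 ≤ L) (hs : 0 < s) {j k : ℕ}
    (hjk : j ≤ k) (g : ℕ → ℂ) (d w : ℕ → ℝ)
    (hgs : ∀ i, j ≤ i → i ≤ k → s / 2 ≤ (g i).re)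
    (hgd : ∀ i, j ≤ i → i ≤ k → d i / 2 ≤ (g i).re)
    (hd : ∀ i, j ≤ i → i ≤ k → θ ^ i ≤ 2 * L * d i)
    (hg : ∀ i, j ≤ i → i ≤ k → ‖g k - g i‖ ≤ L * θ ^ i)
    (hdd : ∀ i, j ≤ i → i ≤ k → d i ≤ d j + 2 * L * θ ^ j)
    (hw0 : ∀ i, j ≤ i → i ≤ k → 0 ≤ w i) (hw : ∀ i, j ≤ i → i ≤ k → w i ≤ 4 * θ ^ i) :
    (1 - θ) * ∑ i ∈ Finset.Ioc j k, tm L s (d i) (w i) ‖g i‖ ≤
      62208 * L ^ 4 * ((phi ((s : ℂ) / g k)).re - (phi ((s : ℂ) / g j)).re) +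
        1400000 * L ^ 12 * (d j * s / ‖g j‖ ^ 2) := by
  have hL0 : 0 < L := by linarith
  obtain ⟨ϑ, hϑ⟩ : ∃ ϑ : ℝ, ϑ = θ ^ (1 / 4 : ℝ) := ⟨_, rfl⟩
  have hϑ0 : 0 < ϑ := by rw [hϑ]; positivity
  have hϑ1 : ϑ < 1 := by rw [hϑ]; exact Real.rpow_lt_one h0.le h1 (by norm_num)
  have hϑ4 : ϑ ^ 4 = θ := by
    have := rpow_quarter_pow h0 1
    rw [pow_one, pow_one] at this
    rw [hϑ]; exact this
  have hϑi : ∀ i, (ϑ ^ i) ^ 4 = θ ^ i := fun i => by rw [hϑ]; exact rpow_quarter_pow h0 i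
  have h14 : 1 - θ ≤ 4 * (1 - ϑ) := by
    rw [← hϑ4]
    have : 1 - ϑ ^ 4 = (1 - ϑ) * (1 + ϑ + ϑ ^ 2 + ϑ ^ 3) := by ring
    rw [this, mul_comm 4]
    apply mul_le_mul_of_nonneg_left _ (by linarith)
    have h2 : ϑ ^ 2 ≤ 1 := pow_le_one₀ hϑ0.le hϑ1.le
    have h3 : ϑ ^ 3 ≤ 1 := pow_le_one₀ hϑ0.le hϑ1.le
    linarith
  have ht0 : ∀ i, 0 < θ ^ i := fun i => by positivity
  have hd0 : ∀ i, j ≤ i → i ≤ k → 0 < d i := by
    intro i hi1 hi2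
    have h2 := hd i hi1 hi2
    have h3 := ht0 i
    by_contra hc
    push Not at hc
    nlinarith
  have hm0 : ∀ i, j ≤ i → i ≤ k → 0 < ‖g i‖ := by
    intro i hi1 hi2
    have h2 := hgs i hi1 hi2
    have h3 := Complex.re_le_norm (g i)
    linarith
  have hdm : ∀ i, j ≤ i → i ≤ k → d i ≤ 2 * ‖g i‖ := by
    intro i hi1 hi2
    have h2 := hgd i hi1 hi2
    have h3 := Complex.re_le_norm (g i)
    linarith
  have hsm : ∀ i, j ≤ i → i ≤ k → s ≤ 2 * ‖g i‖ := by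
    intro i hi1 hi2
    have h2 := hgs i hi1 hi2
    have h3 := Complex.re_le_norm (g i)
    linarith
  have hMm : ∀ i, j ≤ i → i ≤ k → ‖g k‖ ≤ ‖g i‖ + L * θ ^ i := by
    intro i hi1 hi2
    have h2 := hg i hi1 hi2
    calc ‖g k‖ = ‖g i + (g k - g i)‖ := by congr 1; ring
      _ ≤ ‖g i‖ + ‖g k - g i‖ := norm_add_le _ _
      _ ≤ _ := by linarith
  have hmM : ‖g j‖ ≤ ‖g k‖ + L * θ ^ j := by
    have h2 := hg j le_rfl hjk
    calc ‖g j‖ = ‖g k - (g k - g j)‖ := by congr 1; ring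
      _ ≤ ‖g k‖ + ‖g k - g j‖ := norm_sub_le _ _
      _ ≤ _ := by linarith
  have hjj := hd0 j le_rfl hjk
  have hmj := hm0 j le_rfl hjk
  have hmk := hm0 k hjk le_rfl
  have hxj : (s : ℂ) / g j ∈ Dphi := Dphi_of hs (hgs j le_rfl hjk)
  have hxk : (s : ℂ) / g k ∈ Dphi := Dphi_of hs (hgs k hjk le_rfl)
  obtain ⟨H, hH⟩ : ∃ H, H = d j * s / ‖g j‖ ^ 2 := ⟨_, rfl⟩
  have hH0 : 0 < H := by rw [hH]; positivity
  rw [← hH]
  have hL3 : L ^ 3 ≤ L ^ 8 := pow_le_pow_right₀ hL (by norm_num)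
  have hL2 : L ^ 2 ≤ L ^ 8 := pow_le_pow_right₀ hL (by norm_num)
  rcases lt_or_ge ‖g k‖ (θ ^ j) with hc | hc
  · -- far from the end
    obtain ⟨μ, hμ⟩ : ∃ μ : ℝ, μ = ‖g k‖ ^ (1 / 4 : ℝ) := ⟨_, rfl⟩
    have hμ0 : 0 < μ := by rw [hμ]; positivity
    have hμ4 : ‖g k‖ = μ ^ 4 := by
      have := rpow_quarter_pow hmk 1
      rw [pow_one, pow_one] at this
      rw [hμ]; exact this.symm
    have hterm : ∀ i ∈ Finset.Ioc j k, tm L s (d i) (w i) ‖g i‖ ≤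
        5184 * L ^ 4 * (s / ‖g k‖) ^ (3 / 2 : ℝ) * (μ * ϑ ^ i / (μ + ϑ ^ i) ^ 2) := by
      intro i hi
      obtain ⟨hi1, hi2⟩ := Finset.mem_Ioc.mp hi
      refine tm_far hL hs (hd0 i hi1.le hi2) (hw0 i hi1.le hi2) (hm0 i hi1.le hi2) hμ0
        (by positivity) hμ4 (hdm i hi1.le hi2) ?_ ?_ ?_
      · rw [hϑi]; exact hw i hi1.le hi2
      · rw [hϑi]; exact hd i hi1.le hi2
      · rw [hϑi]; exact hMm i hi1.le hi2
    have hsum := Finset.sum_le_sum hterm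
    rw [← Finset.mul_sum] at hsum
    obtain ⟨S, hS⟩ : ∃ S, S = ∑ i ∈ Finset.Ioc j k, μ * ϑ ^ i / (μ + ϑ ^ i) ^ 2 := ⟨_, rfl⟩
    rw [← hS] at hsum
    have hS0 : 0 ≤ S := by
      rw [hS]
      exact Finset.sum_nonneg fun i _ => by positivity
    have hS1 : (1 - ϑ) * S ≤ 1 := by rw [hS]; exact sum_mu' hϑ0 hϑ1 hμ0 hjk
    have hS4 : (1 - θ) * S ≤ 4 := by nlinarith
    obtain ⟨X, hX⟩ : ∃ X, X = (s / ‖g k‖) ^ (3 / 2 : ℝ) := ⟨_, rfl⟩
    have hX0 : 0 ≤ X := by rw [hX]; positivity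
    have hXphi : X ≤ 3 * (phi ((s : ℂ) / g k)).re := by
      have h2 := phi_re hxk
      rw [norm_div, Complex.norm_real, Real.norm_of_nonneg hs.le] at h2
      rw [hX]; exact h2
    rw [← hX] at hsum
    have h5 : (1 - θ) * ∑ i ∈ Finset.Ioc j k, tm L s (d i) (w i) ‖g i‖ ≤
        20736 * L ^ 4 * X := by
      calc (1 - θ) * ∑ i ∈ Finset.Ioc j k, tm L s (d i) (w i) ‖g i‖
          ≤ (1 - θ) * (5184 * L ^ 4 * X * S) := by
            apply mul_le_mul_of_nonneg_left hsum (by linarith)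
        _ = 5184 * L ^ 4 * X * ((1 - θ) * S) := by ring
        _ ≤ 5184 * L ^ 4 * X * 4 := by gcongr
        _ = _ := by ring
    have h6 : (phi ((s : ℂ) / g j)).re ≤ 20 * L ^ 2 * H := by
      have h7 := (Complex.re_le_norm _).trans (phi_norm hxj)
      refine h7.trans ?_
      rw [norm_div, Complex.norm_real, Real.norm_of_nonneg hs.le, hH]
      have h8 : ‖g j‖ ≤ 4 * L ^ 2 * d j := by
        have h9 := hd j le_rfl hjk
        have h10 := ht0 j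
        nlinarith
      have h9 : s / ‖g j‖ ≤ 4 * L ^ 2 * (d j * s / ‖g j‖ ^ 2) := by
        rw [mul_div_assoc', div_le_div_iff₀ hmj (by positivity)]
        calc s * ‖g j‖ ^ 2 = s * ‖g j‖ * ‖g j‖ := by ring
          _ ≤ s * (4 * L ^ 2 * d j) * ‖g j‖ := by gcongr
          _ = _ := by ring
      linarith
    have hL46 : L ^ 6 ≤ L ^ 12 := pow_le_pow_right₀ hL (by norm_num)
    calc (1 - θ) * ∑ i ∈ Finset.Ioc j k, tm L s (d i) (w i) ‖g i‖ ≤ 20736 * L ^ 4 * X := h5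
      _ ≤ 20736 * L ^ 4 * (3 * (phi ((s : ℂ) / g k)).re) := by gcongr
      _ = 62208 * L ^ 4 * ((phi ((s : ℂ) / g k)).re - (phi ((s : ℂ) / g j)).re) +
          62208 * L ^ 4 * (phi ((s : ℂ) / g j)).re := by ring
      _ ≤ 62208 * L ^ 4 * ((phi ((s : ℂ) / g k)).re - (phi ((s : ℂ) / g j)).re) +
          62208 * L ^ 4 * (20 * L ^ 2 * H) := by gcongr
      _ = 62208 * L ^ 4 * ((phi ((s : ℂ) / g k)).re - (phi ((s : ℂ) / g j)).re) +
          1244160 * L ^ 6 * H := by ring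
      _ ≤ _ := by
          have : 1244160 * L ^ 6 * H ≤ 1400000 * L ^ 12 * H := by gcongr; norm_num
          linarith
  · -- near the end
    have hmj2 : ‖g j‖ ≤ 2 * L * ‖g k‖ := by nlinarith
    have hH4 : H ≤ 4 := by
      rw [hH, div_le_iff₀ (by positivity)]
      have h2 := hdm j le_rfl hjk
      have h3 := hsm j le_rfl hjk
      calc d j * s ≤ (2 * ‖g j‖) * (2 * ‖g j‖) := by gcongr
        _ = _ := by ring
    have hterm : ∀ i ∈ Finset.Ioc j k, tm L s (d i) (w i) ‖g i‖ ≤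
        23000 * L ^ 12 * H * ϑ ^ (i - j) := by
      intro i hi
      obtain ⟨hi1, hi2⟩ := Finset.mem_Ioc.mp hi
      have hij : θ ^ i = θ ^ (i - j) * θ ^ j := by
        rw [← pow_add]; congr 1; omega
      refine tm_near (dj := d j) (mj := ‖g j‖) (τ := θ ^ (i - j)) (τj := θ ^ j) hL hs
        (hd0 i hi1.le hi2) (hw0 i hi1.le hi2) (hm0 i hi1.le hi2) hmj hjj hH ?_ ?_ ?_ (ht0 _) (ht0 _)
        (hd j le_rfl hjk) hH4 (by positivity) (hϑi _)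
      · have h2 := hdd i hi1.le hi2
        have h3 := hd j le_rfl hjk
        have h4 : 2 * L * θ ^ j ≤ 2 * L * (2 * L * d j) :=
          mul_le_mul_of_nonneg_left h3 (by positivity)
        have h5 : d j ≤ L ^ 2 * d j := by
          have : 1 ≤ L ^ 2 := one_le_pow₀ hL
          nlinarith
        nlinarith
      · have h2 := hMm i hi1.le hi2
        have h3 := hd i hi1.le hi2
        have h4 := hdm i hi1.le hi2
        have h5 := hm0 i hi1.le hi2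
        have h6 : ‖g k‖ ≤ 5 * L ^ 2 * ‖g i‖ := by
          have h7 : L * θ ^ i ≤ L * (2 * L * (2 * ‖g i‖)) := by
            apply mul_le_mul_of_nonneg_left _ hL0.le
            refine h3.trans ?_
            apply mul_le_mul_of_nonneg_left h4 (by positivity)
          have h8 : ‖g i‖ ≤ L ^ 2 * ‖g i‖ := by
            have : 1 ≤ L ^ 2 := one_le_pow₀ hL
            nlinarith
          nlinarith
        calc ‖g j‖ ≤ 2 * L * ‖g k‖ := hmj2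
          _ ≤ 2 * L * (5 * L ^ 2 * ‖g i‖) := by gcongr
          _ = _ := by ring
      · rw [← hij]; exact hw i hi1.le hi2
    have hsum := Finset.sum_le_sum hterm
    rw [← Finset.mul_sum] at hsum
    obtain ⟨S, hS⟩ : ∃ S, S = ∑ i ∈ Finset.Ioc j k, ϑ ^ (i - j) := ⟨_, rfl⟩
    rw [← hS] at hsum
    have hS0 : 0 ≤ S := by
      rw [hS]
      exact Finset.sum_nonneg fun i _ => by positivity
    have hS1 : (1 - ϑ) * S ≤ 1 := by rw [hS]; exact sum_geo' hϑ0 hϑ1 hjk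
    have hS4 : (1 - θ) * S ≤ 4 := by nlinarith
    have h5 : (1 - θ) * ∑ i ∈ Finset.Ioc j k, tm L s (d i) (w i) ‖g i‖ ≤
        92000 * L ^ 12 * H := by
      calc (1 - θ) * ∑ i ∈ Finset.Ioc j k, tm L s (d i) (w i) ‖g i‖
          ≤ (1 - θ) * (23000 * L ^ 12 * H * S) := by
            apply mul_le_mul_of_nonneg_left hsum (by linarith)
        _ = 23000 * L ^ 12 * H * ((1 - θ) * S) := by ring
        _ ≤ 23000 * L ^ 12 * H * 4 := by gcongr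
        _ = _ := by ring
    have h6 : -(20 * L ^ 3 * H) ≤ (phi ((s : ℂ) / g k)).re - (phi ((s : ℂ) / g j)).re := by
      have h7 := phi_lip (Dphi_re hxk) (Dphi_norm hxk) (Dphi_re hxj) (Dphi_norm hxj)
      have h8 := (Complex.abs_re_le_norm _).trans h7
      rw [Complex.sub_re] at h8
      have h9 : ‖(s : ℂ) / g k - (s : ℂ) / g j‖ ≤ 4 * L ^ 3 * H := by
        have hgk : g k ≠ 0 := norm_pos_iff.mp hmk
        have hgj : g j ≠ 0 := norm_pos_iff.mp hmj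
        have e1 : (s : ℂ) / g k - (s : ℂ) / g j = -(s * (g k - g j)) / (g k * g j) := by
          field_simp
          ring
        rw [e1, norm_div, norm_neg, norm_mul, norm_mul, Complex.norm_real,
          Real.norm_of_nonneg hs.le, hH, mul_div_assoc', div_le_div_iff₀ (by positivity)
          (by positivity)]
        have h10 := hg j le_rfl hjk
        have h11 := hd j le_rfl hjk
        calc s * ‖g k - g j‖ * ‖g j‖ ^ 2 ≤ s * (L * (2 * L * d j)) * ‖g j‖ ^ 2 := by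
              gcongr
              exact h10.trans (mul_le_mul_of_nonneg_left h11 hL0.le)
          _ = s * (L * (2 * L * d j)) * ‖g j‖ * ‖g j‖ := by ring
          _ ≤ s * (L * (2 * L * d j)) * (2 * L * ‖g k‖) * ‖g j‖ := by gcongr
          _ = _ := by ring
      have h12 := neg_abs_le ((phi ((s : ℂ) / g k)).re - (phi ((s : ℂ) / g j)).re)
      nlinarith
    have hL47 : L ^ 7 ≤ L ^ 12 := pow_le_pow_right₀ hL (by norm_num)
    have h8 : 62208 * L ^ 4 * -(20 * L ^ 3 * H) ≤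
        62208 * L ^ 4 * ((phi ((s : ℂ) / g k)).re - (phi ((s : ℂ) / g j)).re) := by
      apply mul_le_mul_of_nonneg_left h6 (by positivity)
    have h9 : 1244160 * L ^ 7 * H ≤ 1244160 * L ^ 12 * H := by gcongr
    have h10 : 0 ≤ L ^ 12 * H := by positivity
    nlinarith

end Pool.Agent.MPca0fc2.CP
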