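import Mathlib
import Pool.Agent.Lib.MP_ca0fc2_an.CPPath
import Pool.Agent.Lib.MP_ca0fc2_an.CPSP

/-! Smooth maps of balls: elementary estimates, and the path lemma for the images of radii. -/

set_option autoImplicit false

open Metric Set MeasureTheory Filter Topology
open scoped InnerProductSpace ENNReal

namespace Pool.Agent.MPca0fc2.CP

open Pool.Agent.MPca0fc2.PT Pool.Agent.Lib.MP_ca0fc2_an

variable {E G : Type*} [NormedAddCommGroup E] [InnerProductSpace ℂ E]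
  [NormedAddCommGroup G] [InnerProductSpace ℂ G] {L : ℝ} {Q : E → G}

theorem sm_lt (h : SmoothMap L Q) {y : E} (hy : ‖y‖ < 1) : ‖Q y‖ < 1 :=
  mem_ball_zero_iff.mp (h.2.2.1 y (mem_ball_zero_iff.mpr hy))

theorem sm_pos (h : SmoothMap L Q) {y : E} (hy : ‖y‖ < 1) : 0 < 1 - ‖Q y‖ ^ 2 := by
  nlinarith [norm_nonneg (Q y), sm_lt h hy]

theorem sm_lip (h : SmoothMap L Q) {x y : E} (hx : ‖x‖ < 1) (hy : ‖y‖ < 1) :
    ‖Q x - Q y‖ ≤ L * ‖x - y‖ := by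
  obtain ⟨hL, hd, hm, h0, h1, h2⟩ := h
  exact (convex_ball (0 : E) 1).norm_image_sub_le_of_norm_fderiv_le (𝕜 := ℂ)
    (fun z hz => hd.differentiableAt (isOpen_ball.mem_nhds hz)) h1
    (mem_ball_zero_iff.mpr hy) (mem_ball_zero_iff.mpr hx)

theorem sm_taylor (h : SmoothMap L Q) {x y : E} (hx : ‖x‖ < 1) (hy : ‖y‖ < 1) :
    ‖Q x - Q y - fderiv ℂ Q y (x - y)‖ ≤ L * ‖x - y‖ ^ 2 := by
  obtain ⟨hL, hd, hm, h0, h1, h2⟩ := h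
  have hL0 : 0 ≤ L := by linarith
  have hyb : y ∈ ball (0 : E) 1 := mem_ball_zero_iff.mpr hy
  have hxb : x ∈ ball (0 : E) 1 := mem_ball_zero_iff.mpr hx
  have hseg : segment ℝ y x ⊆ ball (0 : E) 1 := (convex_ball (0 : E) 1).segment_subset hyb hxb
  have := (convex_segment (𝕜 := ℝ) y x).norm_image_sub_le_of_norm_fderiv_le' (𝕜 := ℂ) (f := Q)
    (φ := fderiv ℂ Q y) (C := L * ‖x - y‖) (x := y) (y := x)
    (fun z hz => hd.differentiableAt (isOpen_ball.mem_nhds (hseg hz))) (fun z hz => ?_)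
    (left_mem_segment ℝ y x) (right_mem_segment ℝ y x)
  · calc _ ≤ L * ‖x - y‖ * ‖x - y‖ := this
      _ = _ := by ring
  · refine (h2 z (hseg hz) y hyb).trans ?_
    apply mul_le_mul_of_nonneg_left _ hL0
    rw [segment_eq_image'] at hz
    obtain ⟨t, ⟨ht0, ht1⟩, rfl⟩ := hz
    rw [add_sub_cancel_left, norm_smul, Real.norm_of_nonneg ht0]
    exact mul_le_of_le_one_left (norm_nonneg _) ht1

theorem sm_F (h : SmoothMap L Q) {y : E} (hy : ‖y‖ < 1) :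
    1 - ‖y‖ ^ 2 ≤ 2 * L * (1 - ‖Q y‖ ^ 2) := by
  have hlt := sm_lt h hy
  have hpos := sm_pos h hy
  have hlt0 := sm_lt h (y := (0 : E)) (by simp)
  obtain ⟨hL, hd, hm, h0, h1, h2⟩ := h
  have hL0 : 0 < L := by linarith
  have key := HH_schwarz hd hm (x := 0) (by simp) hy
  rw [HH_comm, geo_HH_zero] at key
  refine key.trans ?_
  unfold HH
  obtain ⟨a, ha⟩ : ∃ a, a = ‖Q 0‖ := ⟨_, rfl⟩
  obtain ⟨b, hb⟩ : ∃ b, b = ‖Q y‖ := ⟨_, rfl⟩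
  have ha0 : 0 ≤ a := by rw [ha]; exact norm_nonneg _
  have hb0 : 0 ≤ b := by rw [hb]; exact norm_nonneg _
  have hn : 1 - a ≤ ‖1 - ⟪Q 0, Q y⟫_ℂ‖ := by
    have g1 := (geo_one_sub hlt0 hlt).2
    rw [← ha, ← hb] at g1
    rw [← ha] at hlt0
    rw [← hb] at hlt
    nlinarith
  rw [← ha] at h0 hlt0 ⊢
  rw [← hb] at hlt hpos ⊢
  have ha1 : 0 < 1 - a := by linarith
  have hn0 : 0 < ‖1 - ⟪Q 0, Q y⟫_ℂ‖ := by linarith
  rw [div_le_iff₀ (by positivity)]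
  have h3 : (1 - a) ^ 2 ≤ ‖1 - ⟪Q 0, Q y⟫_ℂ‖ ^ 2 := by gcongr
  have h4 : 1 - a ^ 2 ≤ 2 * L * (1 - a) ^ 2 := by
    have h5 : 1 / L ≤ 1 - a := by linarith
    have h6 : 1 ≤ L * (1 - a) := by
      rw [div_le_iff₀ hL0] at h5
      linarith
    have h7 : (1 - a) * 1 ≤ (1 - a) * (L * (1 - a)) := mul_le_mul_of_nonneg_left h6 ha1.le
    nlinarith
  calc (1 - a ^ 2) * (1 - b ^ 2) ≤ (2 * L * (1 - a) ^ 2) * (1 - b ^ 2) := by gcongr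
    _ ≤ (2 * L * ‖1 - ⟪Q 0, Q y⟫_ℂ‖ ^ 2) * (1 - b ^ 2) := by gcongr
    _ = _ := by ring

/-- the point of the disc -/
noncomputable def xx (ξ y : G) : ℂ := ((1 - ‖ξ‖ ^ 2 : ℝ) : ℂ) / (1 - ⟪ξ, y⟫_ℂ)

theorem re_one_sub {ξ y : G} (hξ : ‖ξ‖ < 1) (hy : ‖y‖ < 1) :
    (1 - ‖ξ‖ ^ 2) / 2 ≤ (1 - ⟪ξ, y⟫_ℂ).re ∧ (1 - ‖y‖ ^ 2) / 2 ≤ (1 - ⟪ξ, y⟫_ℂ).re := by
  have h1 := norm_inner_le_norm (𝕜 := ℂ) ξ y
  have h2 := Complex.re_le_norm ⟪ξ, y⟫_ℂ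
  have h3 := norm_nonneg ξ
  have h4 := norm_nonneg y
  rw [Complex.sub_re, Complex.one_re]
  constructor
  · nlinarith
  · nlinarith

theorem xx_mem {ξ y : G} (hξ : ‖ξ‖ < 1) (hy : ‖y‖ < 1) : xx ξ y ∈ Dphi := by
  have h1 : 0 < 1 - ‖ξ‖ ^ 2 := by nlinarith [norm_nonneg ξ]
  exact Dphi_of h1 (re_one_sub hξ hy).1

/-- the ratio of the depths -/
noncomputable def FF (L : ℝ) (Q : E → G) (y : E) : ℝ := (1 - ‖y‖ ^ 2) / (2 * L * (1 - ‖Q y‖ ^ 2))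

theorem FF_pos (h : SmoothMap L Q) {y : E} (hy : ‖y‖ < 1) : 0 < FF L Q y := by
  have h1 := sm_pos h hy
  have h2 : 0 < L := by linarith [h.1]
  have h3 : 0 < 1 - ‖y‖ ^ 2 := by nlinarith [norm_nonneg y]
  unfold FF
  positivity

theorem FF_le (h : SmoothMap L Q) {y : E} (hy : ‖y‖ < 1) : FF L Q y ≤ 1 := by
  have h1 := sm_pos h hy
  have h2 : 0 < L := by linarith [h.1]
  unfold FF
  rw [div_le_one (by positivity)]
  exact sm_F h hy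

/-- The path lemma for the image of a radius. -/
theorem path_map (h : SmoothMap L Q) {θ : ℝ} (hθ0 : 0 < θ) (hθ : θ < 1) (z : E) (ξ : G) (j k : ℕ)
    (hjk : j ≤ k) (hzk : 1 - θ ^ k ≤ ‖z‖) (hz : ‖z‖ < 1) (hξ : ‖ξ‖ < 1) :
    (1 - θ) * ∑ i ∈ Finset.Ioc j k, HH (Q ((rt θ i : ℂ) • z)) ξ ^ (3 / 2 : ℝ) *
        FF L Q ((rt θ i : ℂ) • z) ^ (1 / 4 : ℝ) ≤
      62208 * L ^ 4 * ((phi (xx ξ (Q ((rt θ k : ℂ) • z)))).re -
        (phi (xx ξ (Q ((rt θ j : ℂ) • z)))).re) +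
      1400000 * L ^ 12 * HH (Q ((rt θ j : ℂ) • z)) ξ := by
  have hL := h.1
  have hL0 : 0 < L := by linarith
  have hs0 : 0 < 1 - ‖ξ‖ ^ 2 := by nlinarith [norm_nonneg ξ]
  have ht0 : ∀ i, 0 < θ ^ i := fun i => by positivity
  have ht1 : ∀ i, θ ^ i ≤ 1 := fun i => pow_le_one₀ hθ0.le hθ.le
  have hr0 : ∀ i, 0 ≤ rt θ i := fun i => by rw [rt]; linarith [ht1 i]
  have hr1 : ∀ i, rt θ i ≤ 1 := fun i => by rw [rt]; linarith [ht0 i]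
  obtain ⟨y, hy⟩ : ∃ y : ℕ → E, y = fun i => (rt θ i : ℂ) • z := ⟨_, rfl⟩
  have hyn : ∀ i, ‖y i‖ = rt θ i * ‖z‖ := by
    intro i
    rw [hy, norm_smul, Complex.norm_real, Real.norm_of_nonneg (hr0 i)]
  have hy1 : ∀ i, ‖y i‖ < 1 := by
    intro i
    rw [hyn]
    nlinarith [hr0 i, hr1 i, norm_nonneg z]
  have hydist : ∀ i l, i ≤ l → ‖y l - y i‖ ≤ θ ^ i := by
    intro i l hil
    have e1 : y l - y i = ((rt θ l - rt θ i : ℝ) : ℂ) • z := by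
      rw [hy, ← sub_smul]; push_cast; rfl
    have h2 : rt θ l - rt θ i = θ ^ i - θ ^ l := by rw [rt, rt]; ring
    have h3 : θ ^ l ≤ θ ^ i := pow_le_pow_of_le_one hθ0.le hθ.le hil
    rw [e1, norm_smul, Complex.norm_real, h2, Real.norm_of_nonneg (by linarith)]
    have := ht0 l
    nlinarith [norm_nonneg z]
  have hup : ∀ i, i ≤ k → 1 - ‖y i‖ ^ 2 ≤ 4 * θ ^ i := by
    intro i hi
    have htk : θ ^ k ≤ θ ^ i := pow_le_pow_of_le_one hθ0.le hθ.le hi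
    have h2 : rt θ i ≤ ‖z‖ := by
      refine le_trans ?_ hzk
      rw [rt]; linarith
    have h3 : rt θ i * rt θ i ≤ ‖y i‖ := by
      rw [hyn]
      exact mul_le_mul_of_nonneg_left h2 (hr0 i)
    have h4 : (rt θ i * rt θ i) ^ 2 ≤ ‖y i‖ ^ 2 :=
      pow_le_pow_left₀ (mul_nonneg (hr0 i) (hr0 i)) h3 2
    have h5 : 1 - 4 * θ ^ i ≤ (rt θ i * rt θ i) ^ 2 := by
      rw [rt]
      have e1 := ht0 i
      have e2 := ht1 i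
      set t := θ ^ i
      nlinarith [sq_nonneg ((1 - t) * (1 - t) - 1), sq_nonneg t, mul_nonneg e1.le
        (mul_nonneg (sub_nonneg.mpr e2) (sub_nonneg.mpr e2)), mul_nonneg e1.le (sub_nonneg.mpr e2)]
    linarith
  have hlo : ∀ i, θ ^ i ≤ 1 - ‖y i‖ ^ 2 := by
    intro i
    have h2 : ‖y i‖ ≤ rt θ i := by
      rw [hyn]
      exact mul_le_of_le_one_right (hr0 i) hz.le
    have h3 : ‖y i‖ ^ 2 ≤ rt θ i ^ 2 := pow_le_pow_left₀ (norm_nonneg _) h2 2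
    have h4 : rt θ i ^ 2 ≤ rt θ i := by nlinarith [hr0 i, hr1 i]
    have h5 : rt θ i = 1 - θ ^ i := rfl
    linarith
  have hQ1 : ∀ i, ‖Q (y i)‖ < 1 := fun i => sm_lt h (hy1 i)
  have hQd : ∀ i l, i ≤ l → ‖Q (y l) - Q (y i)‖ ≤ L * θ ^ i := fun i l hil =>
    (sm_lip h (hy1 l) (hy1 i)).trans (mul_le_mul_of_nonneg_left (hydist i l hil) hL0.le)
  have hHH : ∀ i, HH (Q (y i)) ξ = (1 - ‖Q (y i)‖ ^ 2) * (1 - ‖ξ‖ ^ 2) /
      ‖1 - ⟪ξ, Q (y i)⟫_ℂ‖ ^ 2 := by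
    intro i
    rw [HH, Ed_normC]
  have key := path_abs hθ0 hθ hL hs0 hjk (fun i => 1 - ⟪ξ, Q (y i)⟫_ℂ)
    (fun i => 1 - ‖Q (y i)‖ ^ 2) (fun i => 1 - ‖y i‖ ^ 2)
    (fun i _ _ => (re_one_sub hξ (hQ1 i)).1) (fun i _ _ => (re_one_sub hξ (hQ1 i)).2)
    (fun i _ _ => (hlo i).trans (sm_F h (hy1 i))) ?_ ?_ (fun i _ _ => (ht0 i).le.trans (hlo i))
    (fun i _ hi => hup i hi)
  · have e1 : ∀ i, HH (Q ((rt θ i : ℂ) • z)) ξ ^ (3 / 2 : ℝ) *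
        FF L Q ((rt θ i : ℂ) • z) ^ (1 / 4 : ℝ) =
        tm L (1 - ‖ξ‖ ^ 2) (1 - ‖Q (y i)‖ ^ 2) (1 - ‖y i‖ ^ 2) ‖1 - ⟪ξ, Q (y i)⟫_ℂ‖ := by
      intro i
      have e2 : (rt θ i : ℂ) • z = y i := by rw [hy]
      rw [e2, hHH, tm, FF]
    have e3 : ∀ i, (rt θ i : ℂ) • z = y i := fun i => by rw [hy]
    rw [Finset.sum_congr rfl fun i _ => e1 i, e3, e3, hHH]
    exact key
  · intro i _ hi
    have e1 : (1 - ⟪ξ, Q (y k)⟫_ℂ) - (1 - ⟪ξ, Q (y i)⟫_ℂ) = -⟪ξ, Q (y k) - Q (y i)⟫_ℂ := by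
      rw [inner_sub_right]; ring
    show ‖(1 - ⟪ξ, Q (y k)⟫_ℂ) - (1 - ⟪ξ, Q (y i)⟫_ℂ)‖ ≤ L * θ ^ i
    rw [e1, norm_neg]
    refine (norm_inner_le_norm _ _).trans ?_
    refine le_trans ?_ (hQd i k hi)
    exact mul_le_of_le_one_left (norm_nonneg _) hξ.le
  · intro i hi _
    show 1 - ‖Q (y i)‖ ^ 2 ≤ 1 - ‖Q (y j)‖ ^ 2 + 2 * L * θ ^ j
    have h2 := hQd j i hi
    have h3 : ‖Q (y j)‖ ≤ ‖Q (y i)‖ + L * θ ^ j := by
      have h4 := norm_sub_norm_le (Q (y j)) (Q (y i))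
      rw [norm_sub_rev] at h4
      linarith
    have h4 := hQ1 i
    have h5 := hQ1 j
    have h6 := norm_nonneg (Q (y i))
    have h7 := norm_nonneg (Q (y j))
    have h8 : 0 < L * θ ^ j := mul_pos hL0 (ht0 j)
    nlinarith

end Pool.Agent.MPca0fc2.CP
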