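import Mathlib
import Pool.Agent.Lib.MP_ca0fc2_an.CPMap
import Pool.Agent.Lib.MP_ca0fc2_an.CPE3

/-! The holomorphic potential. -/

set_option autoImplicit false

open Metric Set MeasureTheory Filter Topology
open scoped InnerProductSpace ENNReal

namespace Pool.Agent.MPca0fc2.CP

open Pool.Agent.MPca0fc2.PT Pool.Agent.Lib.MP_ca0fc2_an

variable {G : Type*} [NormedAddCommGroup G] [InnerProductSpace ℂ G]
variable [FiniteDimensional ℂ G] [MeasurableSpace G] [BorelSpace G]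

/-- the holomorphic potential -/
noncomputable def D3 (ν : Measure G) (y : G) : ℂ := ∫ ξ, phi (xx ξ y) ∂ν

theorem phi_meas (y : G) : Measurable fun ξ : G => phi (xx ξ y) := by
  have h1 : Measurable fun ξ : G => xx ξ y := by
    unfold xx
    exact Measurable.div (Continuous.measurable (by fun_prop)) (Continuous.measurable (by fun_prop))
  unfold phi
  exact (h1.const_mul 2).sub (h1.pow_const _)

theorem xx_norm {ξ y : G} (hξ : ‖ξ‖ < 1) {r : ℝ} (hr0 : 0 ≤ r) (hr : r < 1) (hy : ‖y‖ ≤ r) :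
    ‖xx ξ y‖ ≤ (1 - ‖ξ‖ ^ 2) * (1 - r)⁻¹ := by
  have h1 := pot_den hξ hr0 hy
  have h2 : 0 < 1 - r := by linarith
  have h3 : 0 ≤ 1 - ‖ξ‖ ^ 2 := by nlinarith [norm_nonneg ξ]
  unfold xx
  rw [norm_div, Complex.norm_real, Real.norm_eq_abs, abs_of_nonneg h3, div_eq_mul_inv]
  exact mul_le_mul_of_nonneg_left (inv_anti₀ h2 h1) h3

theorem D3_int {ν : Measure G} {A : ℝ} (h : Carl ν A) {y : G} (hy : ‖y‖ < 1) :
    Integrable (fun ξ : G => phi (xx ξ y)) ν := by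
  refine ((pot_depth h).1.mul_const (5 * (1 - ‖y‖)⁻¹)).mono' (phi_meas y).aestronglyMeasurable ?_
  filter_upwards [pot_ae h] with ξ hξ
  have h1 := xx_norm hξ (norm_nonneg y) hy le_rfl
  have h2 := phi_norm (xx_mem hξ hy)
  linarith

theorem D3_diff {ν : Measure G} {A : ℝ} (h : Carl ν A) :
    DifferentiableOn ℂ (D3 ν) (ball 0 1) := by
  intro y₀ hy₀
  rw [mem_ball_zero_iff] at hy₀
  obtain ⟨r, hr1, hr2⟩ := exists_between hy₀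
  have hr0 : 0 ≤ r := (norm_nonneg _).trans hr1.le
  have hs : ball (0 : G) r ∈ 𝓝 y₀ := isOpen_ball.mem_nhds (by rwa [mem_ball_zero_iff])
  have hne : ∀ ξ : G, ‖ξ‖ < 1 → ∀ y ∈ ball (0 : G) r, 1 - ⟪ξ, y⟫_ℂ ≠ 0 := by
    intro ξ hξ y hy h0
    rw [mem_ball_zero_iff] at hy
    have h1 := pot_den hξ hr0 hy.le
    rw [h0, norm_zero] at h1
    linarith
  let p' : ℂ → ℂ := fun x => 2 - ((3 / 2 : ℝ) : ℂ) * x ^ (((3 / 2 : ℝ) : ℂ) - 1)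
  let F' : G → G → G →L[ℂ] ℂ := fun y ξ =>
    (p' (xx ξ y) * (((1 - ‖ξ‖ ^ 2 : ℝ) : ℂ) / (1 - ⟪ξ, y⟫_ℂ) ^ 2)) • innerSL ℂ ξ
  have hmF' : AEStronglyMeasurable (F' y₀) ν := by
    have h1 : Continuous fun ξ : G => ((1 - ‖ξ‖ ^ 2 : ℝ) : ℂ) := by fun_prop
    have h2 : Continuous fun ξ : G => (1 - ⟪ξ, y₀⟫_ℂ) ^ 2 := by fun_prop
    have h3 : Continuous fun ξ : G => innerSL ℂ ξ := (innerSL ℂ).continuous
    have h4 : Measurable fun ξ : G => ((1 - ‖ξ‖ ^ 2 : ℝ) : ℂ) / (1 - ⟪ξ, y₀⟫_ℂ) ^ 2 :=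
      h1.measurable.div h2.measurable
    have h5 : Measurable fun ξ : G => xx ξ y₀ := by
      unfold xx
      exact Measurable.div (Continuous.measurable (by fun_prop))
        (Continuous.measurable (by fun_prop))
    have h6 : Measurable fun ξ : G => p' (xx ξ y₀) :=
      measurable_const.sub ((h5.pow_const _).const_mul _)
    have : ProperSpace G := FiniteDimensional.proper ℂ G
    exact (h6.mul h4).aestronglyMeasurable.smul h3.aestronglyMeasurable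
  have key := hasFDerivAt_integral_of_dominated_of_fderiv_le (μ := ν) (𝕜 := ℂ)
    (F := fun y ξ => phi (xx ξ y)) (F' := F')
    (bound := fun ξ => (1 - ‖ξ‖ ^ 2) * (5 * ((1 - r) ^ 2)⁻¹)) hs
    (Eventually.of_forall fun y => (phi_meas y).aestronglyMeasurable)
    (D3_int h hy₀) hmF' ?_ ((pot_depth h).1.mul_const _) ?_
  · exact key.differentiableAt.differentiableWithinAt
  · filter_upwards [pot_ae h] with ξ hξ y hy
    rw [mem_ball_zero_iff] at hy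
    have h1 := pot_den hξ hr0 hy.le
    have h2 : 0 < 1 - r := by linarith
    have h3 : 0 ≤ 1 - ‖ξ‖ ^ 2 := by nlinarith [norm_nonneg ξ]
    have hx := xx_mem hξ (hy.trans hr2)
    have hp : ‖p' (xx ξ y)‖ ≤ 5 :=
      phi_deriv_le (Dphi_re hx) ((Dphi_norm hx).trans (by norm_num))
    show ‖(p' (xx ξ y) * (((1 - ‖ξ‖ ^ 2 : ℝ) : ℂ) / (1 - ⟪ξ, y⟫_ℂ) ^ 2)) • innerSL ℂ ξ‖ ≤ _
    rw [norm_smul, norm_mul, norm_div, Complex.norm_real, Real.norm_eq_abs, abs_of_nonneg h3,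
      norm_pow, innerSL_apply_norm, div_eq_mul_inv]
    have h4 : (‖1 - ⟪ξ, y⟫_ℂ‖ ^ 2)⁻¹ ≤ ((1 - r) ^ 2)⁻¹ :=
      inv_anti₀ (by positivity) (pow_le_pow_left₀ h2.le h1 2)
    have h5 : (1 - ‖ξ‖ ^ 2) * (‖1 - ⟪ξ, y⟫_ℂ‖ ^ 2)⁻¹ ≤ (1 - ‖ξ‖ ^ 2) * ((1 - r) ^ 2)⁻¹ :=
      mul_le_mul_of_nonneg_left h4 h3
    have h6 : 0 ≤ (1 - ‖ξ‖ ^ 2) * (‖1 - ⟪ξ, y⟫_ℂ‖ ^ 2)⁻¹ := by positivity
    calc ‖p' (xx ξ y)‖ * ((1 - ‖ξ‖ ^ 2) * (‖1 - ⟪ξ, y⟫_ℂ‖ ^ 2)⁻¹) * ‖ξ‖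
        ≤ 5 * ((1 - ‖ξ‖ ^ 2) * ((1 - r) ^ 2)⁻¹) * 1 := by gcongr
      _ = _ := by ring
  · filter_upwards [pot_ae h] with ξ hξ y hy
    have h0 := hne ξ hξ y hy
    have hx := xx_mem hξ ((mem_ball_zero_iff.mp hy).trans hr2)
    have h1 : HasFDerivAt (fun y : G => 1 - ⟪ξ, y⟫_ℂ) (-(innerSL ℂ ξ)) y := by
      have := ((innerSL ℂ ξ).hasFDerivAt (x := y)).const_sub 1
      simpa using this
    have h2 := (hasDerivAt_inv h0).comp_hasFDerivAt y h1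
    have h3 := h2.const_mul ((1 - ‖ξ‖ ^ 2 : ℝ) : ℂ)
    have e1 : (fun y : G => xx ξ y) = fun y =>
        ((1 - ‖ξ‖ ^ 2 : ℝ) : ℂ) * ((fun z : ℂ => z⁻¹) ∘ fun y : G => 1 - ⟪ξ, y⟫_ℂ) y := by
      funext y
      rw [xx, div_eq_mul_inv]; rfl
    have h4 : HasFDerivAt (fun y : G => xx ξ y)
        ((((1 - ‖ξ‖ ^ 2 : ℝ) : ℂ) / (1 - ⟪ξ, y⟫_ℂ) ^ 2) • innerSL ℂ ξ) y := by
      rw [e1]
      refine h3.congr_fderiv ?_
      ext v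
      show ((1 - ‖ξ‖ ^ 2 : ℝ) : ℂ) * (-((1 - ⟪ξ, y⟫_ℂ) ^ 2)⁻¹ * -⟪ξ, v⟫_ℂ) =
        ((1 - ‖ξ‖ ^ 2 : ℝ) : ℂ) / (1 - ⟪ξ, y⟫_ℂ) ^ 2 * ⟪ξ, v⟫_ℂ
      rw [div_eq_mul_inv]
      ring
    have h5 := (phi_hasDerivAt (Dphi_re hx)).comp_hasFDerivAt y h4
    refine h5.congr_fderiv ?_
    show p' (xx ξ y) • ((((1 - ‖ξ‖ ^ 2 : ℝ) : ℂ) / (1 - ⟪ξ, y⟫_ℂ) ^ 2) • innerSL ℂ ξ) = _
    rw [smul_smul]

theorem D3_re {ν : Measure G} {A : ℝ} (h : Carl ν A) {y : G} (hy : ‖y‖ < 1) :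
    (D3 ν y).re = ∫ ξ, (phi (xx ξ y)).re ∂ν := by
  unfold D3
  exact (Complex.reCLM.integral_comp_comm (D3_int h hy)).symm

theorem D3_re_int {ν : Measure G} {A : ℝ} (h : Carl ν A) {y : G} (hy : ‖y‖ < 1) :
    Integrable (fun ξ => (phi (xx ξ y)).re) ν := (D3_int h hy).re

/-- the increments of the holomorphic potential -/
theorem D3_sub {ν : Measure G} {A : ℝ} (h : Carl ν A) {y y' : G} (hy : ‖y‖ < 1) (hy' : ‖y'‖ < 1)
    {c : ℝ} (hc : ∀ ξ : G, ‖ξ‖ < 1 → ‖xx ξ y' - xx ξ y‖ ≤ c * HH y ξ) (hc0 : 0 ≤ c) :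
    ‖D3 ν y' - D3 ν y‖ ≤ 5 * c * A := by
  obtain ⟨hi, hA⟩ := pot_HH_int h hy
  unfold D3
  rw [← integral_sub (D3_int h hy') (D3_int h hy)]
  have hbound : ∀ᵐ ξ ∂ν, ‖phi (xx ξ y') - phi (xx ξ y)‖ ≤ 5 * c * HH y ξ := by
    filter_upwards [pot_ae h] with ξ hξ
    have h1 := xx_mem hξ hy
    have h2 := xx_mem hξ hy'
    have h3 := phi_lip (Dphi_re h2) (Dphi_norm h2) (Dphi_re h1) (Dphi_norm h1)
    have h4 := hc ξ hξ
    linarith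
  refine (norm_integral_le_of_norm_le (hi.const_mul _) hbound).trans ?_
  rw [integral_const_mul]
  exact mul_le_mul_of_nonneg_left hA (by positivity)

end Pool.Agent.MPca0fc2.CP
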