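import Mathlib
import Pool.Agent.Lib.MP_ca0fc2_an.Mg.G045

set_option autoImplicit false

open Metric Set MeasureTheory Filter Topology
open scoped InnerProductSpace ENNReal

namespace Pool.Agent.MPca0fc2.MX

open Pool.Agent.MPca0fc2.PT

/-- A local potential together with a holomorphic potential. -/
structure Ptl (E : Type*) where
  /-- the local potential -/
  e : E → ℝ
  /-- the holomorphic potential -/
  d : E → ℂ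
  nn : ∀ y, 0 ≤ e y

/-- the local potential -/
def EE {E : Type*} (ν : Ptl E) (y : E) : ℝ := ν.e y

/-- the holomorphic potential -/
def DD {E : Type*} (ν : Ptl E) (y : E) : ℂ := ν.d y

theorem EE_nonneg {E : Type*} (ν : Ptl E) (y : E) : 0 ≤ EE ν y := ν.nn y

/-- the constant of the path lemma -/
noncomputable def pc (θ : ℝ) : ℝ := (1 - θ) / 7776

theorem pc_pos {θ : ℝ} (h : θ < 1) : 0 < pc θ := by
  unfold pc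
  have : 0 < 1 - θ := by linarith
  positivity

variable {E : Type*} [NormedAddCommGroup E] [InnerProductSpace ℂ E]

/-- the dilated local potential -/
noncomputable def Ei (ν : Ptl E) (θ : ℝ) (i : ℕ) (w : E) : ℝ := EE ν ((rt θ i : ℂ) • w)

/-- The properties of a potential which are used in the construction. -/
structure Carl (ν : Ptl E) (A : ℝ) : Prop where
  A0 : 0 ≤ A
  le : ∀ y : E, ‖y‖ < 1 → EE ν y ≤ A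
  cmp : ∀ x y : E, ‖x‖ < 1 → ‖y‖ < 1 → EE ν x * HH x y ^ 2 ≤ 16 * EE ν y
  c2 : ContDiffOn ℝ 2 (EE ν) (ball 0 1)
  fd : ∀ y : E, ‖y‖ < 1 → ∀ x : E, |fderiv ℝ (EE ν) y x| ≤ 12 * EE ν y * gau (1 - ‖y‖ ^ 2) y x
  dd : DifferentiableOn ℂ (DD ν) (ball 0 1)
  ds : ∀ (w : E) (r r' κ : ℝ), 0 ≤ r → r ≤ r' → r' * ‖w‖ < 1 →
    1 - r * ‖w‖ ≤ κ * (1 - r' * ‖w‖) →
    ‖DD ν ((r' : ℂ) • w) - DD ν ((r : ℂ) • w)‖ ≤
      κ * A * ((r' - r) * ‖w‖) / (1 - r ^ 2 * ‖w‖ ^ 2)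
  path : ∀ θ : ℝ, 0 < θ → θ < 1 → ∀ (z : E) (j k : ℕ), j ≤ k →
      1 - θ ^ k ≤ ‖z‖ → ‖z‖ < 1 →
      pc θ * ∑ i ∈ Finset.Ioc j k, EE ν ((rt θ i : ℂ) • z) ≤
        (DD ν ((rt θ k : ℂ) • z)).re - (DD ν ((rt θ j : ℂ) • z)).re + 3 * A

theorem EE_le {ν : Ptl E} {A : ℝ} (h : Carl ν A) {y : E} (hy : ‖y‖ < 1) :
    EE ν y ≤ A := h.le y hy

theorem EE_compare {ν : Ptl E} {A : ℝ} (h : Carl ν A) {x y : E} (hx : ‖x‖ < 1)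
    (hy : ‖y‖ < 1) : EE ν x * HH x y ^ 2 ≤ 16 * EE ν y := h.cmp x y hx hy

theorem DD_diff {ν : Ptl E} {A : ℝ} (h : Carl ν A) :
    DifferentiableOn ℂ (DD ν) (ball 0 1) := h.dd

theorem DD_sub {ν : Ptl E} {A : ℝ} (h : Carl ν A) {w : E} {r r' κ : ℝ} (hr0 : 0 ≤ r)
    (hr : r ≤ r') (hr' : r' * ‖w‖ < 1) (hκ : 1 - r * ‖w‖ ≤ κ * (1 - r' * ‖w‖)) :
    ‖DD ν ((r' : ℂ) • w) - DD ν ((r : ℂ) • w)‖ ≤
      κ * A * ((r' - r) * ‖w‖) / (1 - r ^ 2 * ‖w‖ ^ 2) := h.ds w r r' κ hr0 hr hr' hκ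

theorem EE_c2 {ν : Ptl E} {A : ℝ} (h : Carl ν A) : ContDiffOn ℝ 2 (EE ν) (ball 0 1) := h.c2

theorem EE_contDiff {ν : Ptl E} {A : ℝ} (h : Carl ν A) :
    ContDiffOn ℝ 1 (EE ν) (ball 0 1) := h.c2.of_le (by norm_num)

theorem EE_fderiv {ν : Ptl E} {A : ℝ} (h : Carl ν A) {y : E} (hy : ‖y‖ < 1) (x : E) :
    |fderiv ℝ (EE ν) y x| ≤ 12 * EE ν y * gau (1 - ‖y‖ ^ 2) y x := h.fd y hy x

theorem path_lemma {θ : ℝ} (hθ0 : 0 < θ) (hθ : θ < 1) :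
    ∃ c : ℝ, 0 < c ∧ ∀ (ν : Ptl E) (A : ℝ), Carl ν A → ∀ (z : E) (j k : ℕ), j ≤ k →
      1 - θ ^ k ≤ ‖z‖ → ‖z‖ < 1 →
      c * ∑ i ∈ Finset.Ioc j k, EE ν ((rt θ i : ℂ) • z) ≤
        (DD ν ((rt θ k : ℂ) • z)).re - (DD ν ((rt θ j : ℂ) • z)).re + 3 * A :=
  ⟨pc θ, pc_pos hθ, fun _ _ h z j k hjk h1 h2 => h.path θ hθ0 hθ z j k hjk h1 h2⟩

/-- The hypotheses on `u`. -/
structure HU (ν : Ptl E) (u : E → ℂ) (M A p C₀ : ℝ) : Prop where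
  hp : 1 ≤ p
  hM : 1 ≤ M
  hC : 0 < C₀
  diff : DifferentiableOn ℂ u (ball 0 1)
  bd : ∀ z ∈ ball (0 : E) 1, ‖u z‖ ≤ M
  carl : Carl ν A
  gr : ∀ y : E, ‖y‖ < 1 → ∀ X : E,
    ‖fderiv ℂ u y X‖ ≤ C₀ * EE ν y ^ (1 / p) * gau (1 - ‖y‖ ^ 2) y X

end Pool.Agent.MPca0fc2.MX
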