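import Mathlib
import Pool.Agent.Lib.MP_ca0fc2_an.CPD3
import Pool.Agent.Lib.MP_ca0fc2_an.MXBase
import Pool.Agent.Lib.MP_ca0fc2_an.Mg.G051

/-! The pulled back potential has the properties which are used in the construction. -/

set_option autoImplicit false

open Metric Set MeasureTheory Filter Topology
open scoped InnerProductSpace ENNReal

namespace Pool.Agent.MPca0fc2.CP

open Pool.Agent.MPca0fc2.PT Pool.Agent.Lib.MP_ca0fc2_an

variable {E G : Type*} [NormedAddCommGroup E] [InnerProductSpace ℂ E]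
  [NormedAddCommGroup G] [InnerProductSpace ℂ G] [MeasurableSpace G]

/-- the local potential -/
noncomputable def e0 (L : ℝ) (Q : E → G) (ν : Measure G) (y : E) : ℝ :=
  E3 ν (Q y) * FF L Q y ^ (1 / 4 : ℝ)

/-- the holomorphic potential -/
noncomputable def d0 (L : ℝ) (Q : E → G) (ν : Measure G) (y : E) : ℂ :=
  ((8 * L ^ 4 : ℝ) : ℂ) * D3 ν (Q y)

/-- the pulled back potential -/
noncomputable def ptC (L : ℝ) (Q : E → G) (ν : Measure G) : MX.Ptl E :=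
  ⟨fun y => |e0 L Q ν y|, d0 L Q ν, fun _ => abs_nonneg _⟩

variable [FiniteDimensional ℂ E] [FiniteDimensional ℂ G] [BorelSpace G]
variable {L A : ℝ} {Q : E → G} {ν : Measure G}

omit [FiniteDimensional ℂ E] in
theorem e0_nonneg (h : SmoothMap L Q) (hν : PT.Carl ν A) {y : E} (hy : ‖y‖ < 1) :
    0 ≤ e0 L Q ν y :=
  mul_nonneg (E3_nonneg hν (sm_lt h hy)) (Real.rpow_nonneg (FF_pos h hy).le _)

omit [FiniteDimensional ℂ E] in
theorem ptC_e (h : SmoothMap L Q) (hν : PT.Carl ν A) {y : E} (hy : ‖y‖ < 1) :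
    MX.EE (ptC L Q ν) y = e0 L Q ν y := abs_of_nonneg (e0_nonneg h hν hy)

omit [FiniteDimensional ℂ E] in
theorem e0_le (h : SmoothMap L Q) (hν : PT.Carl ν A) {y : E} (hy : ‖y‖ < 1) :
    e0 L Q ν y ≤ A := by
  have h1 := E3_le hν (sm_lt h hy)
  have h2 := E3_nonneg hν (sm_lt h hy)
  have h3 : FF L Q y ^ (1 / 4 : ℝ) ≤ 1 :=
    Real.rpow_le_one (FF_pos h hy).le (FF_le h hy) (by norm_num)
  unfold e0
  calc E3 ν (Q y) * FF L Q y ^ (1 / 4 : ℝ) ≤ E3 ν (Q y) * 1 := mul_le_mul_of_nonneg_left h3 h2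
    _ ≤ A := by rw [mul_one]; exact h1

omit [MeasurableSpace G] [FiniteDimensional ℂ E] [FiniteDimensional ℂ G] [BorelSpace G] in
theorem depth_HH {x y : E} (hx : ‖x‖ < 1) (hy : ‖y‖ < 1) :
    (1 - ‖x‖ ^ 2) * HH x y ≤ 4 * (1 - ‖y‖ ^ 2) := by
  have := HH_mul (x := y) (y := x) (w := (0 : E)) hy hx (by simp)
  rw [geo_HH_zero, geo_HH_zero, HH_comm y x] at this
  linarith

omit [MeasurableSpace G] [FiniteDimensional ℂ E] [FiniteDimensional ℂ G] [BorelSpace G] in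
theorem FF_compare (h : SmoothMap L Q) {x y : E} (hx : ‖x‖ < 1) (hy : ‖y‖ < 1) :
    FF L Q x * HH x y ^ 2 ≤ 16 * FF L Q y := by
  have hL0 : 0 < L := by linarith [h.1]
  have h1 := depth_HH hx hy
  have h2 := depth_HH (sm_lt h hy) (sm_lt h hx)
  rw [HH_comm] at h2
  have h3 := HH_schwarz h.2.1 h.2.2.1 hx hy
  have h4 := sm_pos h hx
  have h5 := sm_pos h hy
  have h6 := (HH_pos hx hy).le
  have h7 : 0 < 1 - ‖x‖ ^ 2 := by nlinarith [norm_nonneg x]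
  have h8 : 0 < 1 - ‖y‖ ^ 2 := by nlinarith [norm_nonneg y]
  have h9 : (1 - ‖Q y‖ ^ 2) * HH x y ≤ 4 * (1 - ‖Q x‖ ^ 2) :=
    (mul_le_mul_of_nonneg_left h3 h5.le).trans h2
  unfold FF
  rw [mul_div_assoc', div_mul_eq_mul_div, div_le_div_iff₀ (by positivity) (by positivity)]
  calc (1 - ‖x‖ ^ 2) * HH x y ^ 2 * (2 * L * (1 - ‖Q y‖ ^ 2)) =
      2 * L * (((1 - ‖x‖ ^ 2) * HH x y) * ((1 - ‖Q y‖ ^ 2) * HH x y)) := by ring
    _ ≤ 2 * L * ((4 * (1 - ‖y‖ ^ 2)) * (4 * (1 - ‖Q x‖ ^ 2))) := by gcongr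
    _ = _ := by ring

omit [FiniteDimensional ℂ E] in
theorem e0_compare (h : SmoothMap L Q) (hν : PT.Carl ν A) {x y : E} (hx : ‖x‖ < 1)
    (hy : ‖y‖ < 1) : e0 L Q ν x * HH x y ^ 2 ≤ 16 * e0 L Q ν y := by
  have h1 := E3_compare hν (sm_lt h hx) (sm_lt h hy)
  have h2 := HH_schwarz h.2.1 h.2.2.1 hx hy
  have h3 := HH_pos hx hy
  have h4 := E3_nonneg hν (sm_lt h hx)
  have h4' := E3_nonneg hν (sm_lt h hy)
  have h5 : E3 ν (Q x) * HH x y ^ (3 / 2 : ℝ) ≤ 8 * E3 ν (Q y) := by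
    refine le_trans (mul_le_mul_of_nonneg_left ?_ h4) h1
    exact Real.rpow_le_rpow h3.le h2 (by norm_num)
  have hFx := FF_pos h hx
  have hFy := FF_pos h hy
  have h6 : FF L Q x ^ (1 / 4 : ℝ) * HH x y ^ (1 / 2 : ℝ) ≤ 2 * FF L Q y ^ (1 / 4 : ℝ) := by
    have h7 := Real.rpow_le_rpow (by positivity) (FF_compare h hx hy)
      (show (0 : ℝ) ≤ 1 / 4 by norm_num)
    rw [Real.mul_rpow hFx.le (by positivity), Real.mul_rpow (by norm_num) hFy.le,
      ← Real.rpow_natCast (HH x y) 2, ← Real.rpow_mul h3.le] at h7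
    have e1 : ((2 : ℕ) : ℝ) * (1 / 4) = 1 / 2 := by norm_num
    have e2 : (16 : ℝ) ^ (1 / 4 : ℝ) = 2 := by
      rw [show (16 : ℝ) = 2 ^ (4 : ℝ) by norm_num, ← Real.rpow_mul (by norm_num)]
      norm_num
    rw [e1, e2] at h7
    exact h7
  have e3 : HH x y ^ 2 = HH x y ^ (3 / 2 : ℝ) * HH x y ^ (1 / 2 : ℝ) := by
    rw [← Real.rpow_add h3, ← Real.rpow_natCast]
    norm_num
  unfold e0
  rw [e3]
  calc E3 ν (Q x) * FF L Q x ^ (1 / 4 : ℝ) * (HH x y ^ (3 / 2 : ℝ) * HH x y ^ (1 / 2 : ℝ)) =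
      (E3 ν (Q x) * HH x y ^ (3 / 2 : ℝ)) * (FF L Q x ^ (1 / 4 : ℝ) * HH x y ^ (1 / 2 : ℝ)) := by
        ring
    _ ≤ (8 * E3 ν (Q y)) * (2 * FF L Q y ^ (1 / 4 : ℝ)) := by gcongr
    _ = _ := by ring

/-! ### smoothness -/

omit [MeasurableSpace G] [BorelSpace G] in
theorem Q_c2 (hQ : DifferentiableOn ℂ Q (ball 0 1)) : ContDiffOn ℝ 2 Q (ball 0 1) := by
  let b := stdOrthonormalBasis ℂ G
  have h1 : Q = fun y => ∑ i, ⟪b i, Q y⟫_ℂ • b i := by
    funext y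
    exact (b.sum_repr' (Q y)).symm
  rw [h1]
  refine ContDiffOn.sum fun i _ => ?_
  refine ContDiffOn.smul ?_ contDiffOn_const
  refine QT.age_hol_c2 isOpen_ball ?_
  exact ((innerSL ℂ (b i)).differentiable.comp_differentiableOn hQ)

omit [FiniteDimensional ℂ E] in
theorem normSq_smooth {n : WithTop ℕ∞} : ContDiff ℝ n fun y : E => ‖y‖ ^ 2 := by
  have e : (fun p : E => ‖p‖ ^ 2) = fun p : E => Complex.reCLM ⟪p, p⟫_ℂ := by
    funext p
    have := inner_self_eq_norm_sq_to_K (𝕜 := ℂ) p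
    rw [this]
    simp [← Complex.ofReal_pow]
  rw [e]
  exact Complex.reCLM.contDiff.comp (contDiff_id.inner ℂ contDiff_id)

omit [MeasurableSpace G] [BorelSpace G] in
theorem FF_c2 (h : SmoothMap L Q) : ContDiffOn ℝ 2 (FF L Q) (ball 0 1) := by
  have hL0 : 0 < L := by linarith [h.1]
  have hQ := Q_c2 h.2.1
  unfold FF
  refine ContDiffOn.div ?_ ?_ ?_
  · exact (contDiff_const.sub normSq_smooth).contDiffOn
  · exact contDiffOn_const.mul (contDiffOn_const.sub (normSq_smooth.comp_contDiffOn hQ))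
  · intro y hy
    have := sm_pos h (mem_ball_zero_iff.mp hy)
    positivity

theorem e0_c2 (h : SmoothMap L Q) (hν : PT.Carl ν A) : ContDiffOn ℝ 2 (e0 L Q ν) (ball 0 1) := by
  unfold e0
  refine ContDiffOn.mul ?_ ?_
  · exact (E3_c2 hν).comp (Q_c2 h.2.1) h.2.2.1
  · refine (FF_c2 h).rpow_const_of_ne ?_
    intro y hy
    exact (FF_pos h (mem_ball_zero_iff.mp hy)).ne'

end Pool.Agent.MPca0fc2.CP
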