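import Mathlib
import Pool.Agent.Lib.MP_ca0fc2_an.CPCarl

/-! The pulled back potential has the properties which are used in the construction, second part. -/

set_option autoImplicit false

open Metric Set MeasureTheory Filter Topology
open scoped InnerProductSpace ENNReal

namespace Pool.Agent.MPca0fc2.CP

open Pool.Agent.MPca0fc2.PT Pool.Agent.Lib.MP_ca0fc2_an

section ld

variable {E : Type*} [NormedAddCommGroup E] [NormedSpace ℝ E]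

/-- a bound for the logarithmic derivative -/
def LD (f : E → ℝ) (y X : E) (α : ℝ) : Prop :=
  0 < f y ∧ ∃ f' : E →L[ℝ] ℝ, HasFDerivAt f f' y ∧ |f' X| ≤ α * f y

theorem LD.mul {f g : E → ℝ} {y X : E} {α β : ℝ} (hf : LD f y X α) (hg : LD g y X β) :
    LD (fun y => f y * g y) y X (α + β) := by
  obtain ⟨f0, f', hf', hfb⟩ := hf
  obtain ⟨g0, g', hg', hgb⟩ := hg
  refine ⟨mul_pos f0 g0, f y • g' + g y • f', hf'.mul hg', ?_⟩
  show |f y * g' X + g y * f' X| ≤ _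
  refine (abs_add_le _ _).trans ?_
  rw [abs_mul, abs_mul, abs_of_pos f0, abs_of_pos g0]
  nlinarith [mul_le_mul_of_nonneg_left hgb f0.le, mul_le_mul_of_nonneg_left hfb g0.le]

theorem LD.inv {f : E → ℝ} {y X : E} {α : ℝ} (hf : LD f y X α) :
    LD (fun y => (f y)⁻¹) y X α := by
  obtain ⟨f0, f', hf', hfb⟩ := hf
  refine ⟨inv_pos.mpr f0, -(f y ^ 2)⁻¹ • f', ?_, ?_⟩
  · exact (hasDerivAt_inv f0.ne').comp_hasFDerivAt y hf'
  · show |-(f y ^ 2)⁻¹ * f' X| ≤ _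
    rw [abs_mul, abs_neg, abs_of_pos (by positivity)]
    have : α * (f y)⁻¹ = (f y ^ 2)⁻¹ * (α * f y) := by field_simp
    rw [this]
    exact mul_le_mul_of_nonneg_left hfb (by positivity)

theorem LD.rpow {f : E → ℝ} {y X : E} {α p : ℝ} (hf : LD f y X α) (hp : 0 ≤ p) :
    LD (fun y => f y ^ p) y X (p * α) := by
  obtain ⟨f0, f', hf', hfb⟩ := hf
  refine ⟨Real.rpow_pos_of_pos f0 _, (p * f y ^ (p - 1)) • f', hf'.rpow_const (Or.inl f0.ne'), ?_⟩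
  show |(p * f y ^ (p - 1)) * f' X| ≤ _
  rw [abs_mul, abs_of_nonneg (by positivity)]
  have : p * α * f y ^ p = (p * f y ^ (p - 1)) * (α * f y) := by
    rw [Real.rpow_sub_one f0.ne']
    field_simp
  rw [this]
  exact mul_le_mul_of_nonneg_left hfb (by positivity)

theorem LD.mono {f : E → ℝ} {y X : E} {α β : ℝ} (hf : LD f y X α) (h : α ≤ β) : LD f y X β := by
  obtain ⟨f0, f', hf', hfb⟩ := hf
  exact ⟨f0, f', hf', hfb.trans (mul_le_mul_of_nonneg_right h f0.le)⟩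

end ld

variable {E G : Type*} [NormedAddCommGroup E] [InnerProductSpace ℂ E]
  [NormedAddCommGroup G] [InnerProductSpace ℂ G]
variable {L A : ℝ} {Q : E → G}

theorem hasReal (h : SmoothMap L Q) {y : E} (hy : ‖y‖ < 1) :
    HasFDerivAt Q ((fderiv ℂ Q y).restrictScalars ℝ) y :=
  ((h.2.1.differentiableAt (isOpen_ball.mem_nhds (mem_ball_zero_iff.mpr hy))).hasFDerivAt).restrictScalars ℝ

theorem LD_depth {y : E} (hy : ‖y‖ < 1) (X : E) : LD (fun y : E => 1 - ‖y‖ ^ 2) y X (2 * BB y X) := by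
  have h0 : 0 < 1 - ‖y‖ ^ 2 := by nlinarith [norm_nonneg y]
  refine ⟨h0, -((2 : ℝ) • Ed_R 1 y), (Ed_normSq y).const_sub 1, ?_⟩
  have h1 := inner_le_BB hy X
  show |-(2 * Ed_R 1 y X)| ≤ _
  rw [Ed_R_apply, one_mul, abs_neg, abs_mul, abs_two]
  have h2 := Complex.abs_re_le_norm ⟪y, X⟫_ℂ
  nlinarith

theorem LD_depthQ (h : SmoothMap L Q) {y : E} (hy : ‖y‖ < 1) (X : E) :
    LD (fun y : E => 1 - ‖Q y‖ ^ 2) y X (2 * BB y X) := by
  have hQ := sm_lt h hy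
  obtain ⟨h0, f', hf', hfb⟩ := LD_depth hQ (fderiv ℂ Q y X)
  refine ⟨h0, f'.comp ((fderiv ℂ Q y).restrictScalars ℝ), hf'.comp y (hasReal h hy), ?_⟩
  show |f' (fderiv ℂ Q y X)| ≤ _
  refine hfb.trans ?_
  have h1 := BB_schwarz h.2.1 h.2.2.1 hy X
  exact mul_le_mul_of_nonneg_right (by linarith) h0.le

theorem LD_FF (h : SmoothMap L Q) {y : E} (hy : ‖y‖ < 1) (X : E) :
    LD (FF L Q) y X (4 * BB y X) := by
  have hL0 : 0 < L := by linarith [h.1]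
  have h1 := LD_depth hy X
  have h2 := (LD_depthQ h hy X).inv
  have h3 : LD (fun _ : E => (2 * L)⁻¹) y X 0 := by
    refine ⟨by positivity, 0, hasFDerivAt_const _ _, ?_⟩
    show |(0 : ℝ)| ≤ _
    simp
  have h4 := (h3.mul (h1.mul h2)).mono (β := 4 * BB y X) (by linarith)
  have e : FF L Q = fun y => (2 * L)⁻¹ * ((1 - ‖y‖ ^ 2) * (1 - ‖Q y‖ ^ 2)⁻¹) := by
    funext y
    unfold FF
    rw [div_eq_mul_inv, mul_inv]
    ring
  rw [e]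
  exact h4

variable [MeasurableSpace G] [FiniteDimensional ℂ G] [BorelSpace G] {ν : Measure G}

theorem E3_pos_or {y : G} (hν : PT.Carl ν A) (hy : ‖y‖ < 1) : 0 < E3 ν y ∨ ν = 0 := by
  rcases (E3_nonneg hν hy).eq_or_lt with h | h
  · right
    have h1 := (integral_eq_zero_iff_of_nonneg_ae ?_ (E3_integrable hν hy)).mp h.symm
    · have h2 : ∀ᵐ ξ ∂ν, False := by
        filter_upwards [h1, pot_ae hν] with ξ h3 h4
        have h5 := Real.rpow_pos_of_pos (HH_pos hy h4) (3 / 2)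
        simp only [Pi.zero_apply] at h3
        linarith
      rw [ae_iff] at h2
      simpa using h2
    · filter_upwards [pot_ae hν] with ξ hξ
      exact Real.rpow_nonneg (HH_pos hy hξ).le _
  · exact Or.inl h

theorem e0_fderiv (h : SmoothMap L Q) (hν : PT.Carl ν A) {y : E} (hy : ‖y‖ < 1) (X : E) :
    |fderiv ℝ (e0 L Q ν) y X| ≤ 4 * e0 L Q ν y * BB y X := by
  have hQ := sm_lt h hy
  rcases E3_pos_or hν hQ with hp | hp
  · have h1 : LD (E3 ν) (Q y) (fderiv ℂ Q y X) (3 * BB (Q y) (fderiv ℂ Q y X)) := by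
      refine ⟨hp, fderiv ℝ (E3 ν) (Q y), ?_, ?_⟩
      · exact (((E3_c2 hν).contDiffAt (isOpen_ball.mem_nhds
          (mem_ball_zero_iff.mpr hQ))).differentiableAt (by norm_num)).hasFDerivAt
      · refine (E3_fderiv hν hQ _).trans (le_of_eq ?_)
        ring
    have h2 : LD (fun y => E3 ν (Q y)) y X (3 * BB y X) := by
      obtain ⟨h0, f', hf', hfb⟩ := h1
      refine ⟨h0, f'.comp ((fderiv ℂ Q y).restrictScalars ℝ), hf'.comp y (hasReal h hy), ?_⟩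
      show |f' (fderiv ℂ Q y X)| ≤ _
      refine hfb.trans ?_
      have h1 := BB_schwarz h.2.1 h.2.2.1 hy X
      exact mul_le_mul_of_nonneg_right (by linarith) h0.le
    have h3 := (LD_FF h hy X).rpow (p := 1 / 4) (by norm_num)
    obtain ⟨h0, f', hf', hfb⟩ := (h2.mul h3).mono (β := 4 * BB y X) (by linarith)
    have h4 : HasFDerivAt (e0 L Q ν) f' y := hf'
    rw [h4.fderiv]
    refine hfb.trans (le_of_eq ?_)
    show 4 * BB y X * (e0 L Q ν y) = _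
    ring
  · have h1 : e0 L Q ν = fun _ => 0 := by
      funext y
      unfold e0 E3
      rw [hp]
      simp
    rw [h1]
    simp

/-- the increments of the holomorphic potential along radii -/
theorem xx_inc (h : SmoothMap L Q) {w : E} {r r' κ : ℝ} (hr0 : 0 ≤ r) (hr : r ≤ r')
    (hr' : r' * ‖w‖ < 1) (hκ : 1 - r * ‖w‖ ≤ κ * (1 - r' * ‖w‖)) {ξ : G} (hξ : ‖ξ‖ < 1) :
    ‖xx ξ (Q ((r' : ℂ) • w)) - xx ξ (Q ((r : ℂ) • w))‖ ≤
      8 * L ^ 4 * κ * ((r' - r) * ‖w‖) / (1 - r ^ 2 * ‖w‖ ^ 2) * HH (Q ((r : ℂ) • w)) ξ := by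
  have hL := h.1
  have hL0 : 0 < L := by linarith
  have hr0' : 0 ≤ r' := hr0.trans hr
  have hw0 := norm_nonneg w
  have hrw : r * ‖w‖ ≤ r' * ‖w‖ := mul_le_mul_of_nonneg_right hr hw0
  have n1 : ‖(r' : ℂ) • w‖ = r' * ‖w‖ := by
    rw [norm_smul, Complex.norm_real, Real.norm_eq_abs, abs_of_nonneg hr0']
  have n2 : ‖(r : ℂ) • w‖ = r * ‖w‖ := by
    rw [norm_smul, Complex.norm_real, Real.norm_eq_abs, abs_of_nonneg hr0]
  have hy' : ‖(r' : ℂ) • w‖ < 1 := by rw [n1]; exact hr'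
  have hy : ‖(r : ℂ) • w‖ < 1 := by rw [n2]; linarith
  have hκ1 : 1 ≤ κ := by
    by_contra hc
    push Not at hc
    have : κ * (1 - r' * ‖w‖) < 1 * (1 - r' * ‖w‖) := by
      apply mul_lt_mul_of_pos_right hc; linarith
    linarith
  have hrw0 : 0 ≤ r * ‖w‖ := mul_nonneg hr0 hw0
  have hrw0' : 0 ≤ r' * ‖w‖ := mul_nonneg hr0' hw0
  have hF := sm_F h hy
  have hF' := sm_F h hy'
  rw [n2, mul_pow] at hF
  rw [n1, mul_pow] at hF'
  have hD : 0 < 1 - r ^ 2 * ‖w‖ ^ 2 := by nlinarith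
  have hdist : ‖Q ((r' : ℂ) • w) - Q ((r : ℂ) • w)‖ ≤ L * ((r' - r) * ‖w‖) := by
    refine (sm_lip h hy' hy).trans (le_of_eq ?_)
    rw [← sub_smul, norm_smul, ← Complex.ofReal_sub, Complex.norm_real,
      Real.norm_of_nonneg (sub_nonneg.mpr hr)]
  obtain ⟨q, hq⟩ : ∃ q, q = Q ((r : ℂ) • w) := ⟨_, rfl⟩
  obtain ⟨q', hq'⟩ : ∃ q', q' = Q ((r' : ℂ) • w) := ⟨_, rfl⟩
  have hq1 : ‖q‖ < 1 := by rw [hq]; exact sm_lt h hy
  have hq1' : ‖q'‖ < 1 := by rw [hq']; exact sm_lt h hy'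
  rw [← hq, ← hq'] at hdist
  rw [← hq] at hF ⊢
  rw [← hq'] at hF' ⊢
  have hs0 : 0 < 1 - ‖ξ‖ ^ 2 := by nlinarith [norm_nonneg ξ]
  obtain ⟨s, hs⟩ : ∃ s, s = 1 - ‖ξ‖ ^ 2 := ⟨_, rfl⟩
  obtain ⟨D, hDd⟩ : ∃ D, D = (r' - r) * ‖w‖ := ⟨_, rfl⟩
  have hD0 : 0 ≤ D := by rw [hDd]; exact mul_nonneg (sub_nonneg.mpr hr) hw0
  obtain ⟨m, hm⟩ : ∃ m, m = ‖1 - ⟪ξ, q⟫_ℂ‖ := ⟨_, rfl⟩
  obtain ⟨m', hm'⟩ : ∃ m', m' = ‖1 - ⟪ξ, q'⟫_ℂ‖ := ⟨_, rfl⟩
  have hre := re_one_sub hξ hq1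
  have hre' := re_one_sub hξ hq1'
  have hn := Complex.re_le_norm (1 - ⟪ξ, q⟫_ℂ)
  have hn' := Complex.re_le_norm (1 - ⟪ξ, q'⟫_ℂ)
  rw [← hm] at hn
  rw [← hm'] at hn'
  have hm0 : 0 < m := by linarith [hre.1]
  have hm0' : 0 < m' := by linarith [hre'.1]
  have hdq' : 1 - ‖q'‖ ^ 2 ≤ 2 * m' := by linarith [hre'.2]
  have hdiff : ‖(1 - ⟪ξ, q'⟫_ℂ) - (1 - ⟪ξ, q⟫_ℂ)‖ ≤ L * D := by
    have e1 : (1 - ⟪ξ, q'⟫_ℂ) - (1 - ⟪ξ, q⟫_ℂ) = -⟪ξ, q' - q⟫_ℂ := by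
      rw [inner_sub_right]; ring
    rw [e1, norm_neg]
    refine (norm_inner_le_norm _ _).trans ?_
    rw [hDd]
    refine le_trans ?_ hdist
    exact mul_le_of_le_one_left (norm_nonneg _) hξ.le
  have hmm' : m ≤ m' + L * D := by
    have e1 : (1 - ⟪ξ, q⟫_ℂ) = (1 - ⟪ξ, q'⟫_ℂ) - ((1 - ⟪ξ, q'⟫_ℂ) - (1 - ⟪ξ, q⟫_ℂ)) := by ring
    rw [hm, e1]
    refine (norm_sub_le _ _).trans ?_
    rw [← hm']
    linarith
  have hDκ : D ≤ (κ - 1) * (4 * L * m') := by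
    have h1 : D ≤ (κ - 1) * (1 - r' * ‖w‖) := by rw [hDd]; linarith
    refine h1.trans ?_
    apply mul_le_mul_of_nonneg_left _ (by linarith)
    have h2 : 1 - r' * ‖w‖ ≤ 1 - r' ^ 2 * ‖w‖ ^ 2 := by nlinarith
    have h3 : 2 * L * (1 - ‖q'‖ ^ 2) ≤ 2 * L * (2 * m') :=
      mul_le_mul_of_nonneg_left hdq' (by positivity)
    linarith
  have hmk : m ≤ 4 * L ^ 2 * κ * m' := by
    have h1 : L * D ≤ L * ((κ - 1) * (4 * L * m')) := mul_le_mul_of_nonneg_left hDκ hL0.le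
    have h2 : m' ≤ 4 * L ^ 2 * m' := by
      have : 1 ≤ L ^ 2 := one_le_pow₀ hL
      nlinarith
    nlinarith
  have hHH : HH q ξ = (1 - ‖q‖ ^ 2) * s / m ^ 2 := by
    rw [HH, Ed_normC, hs, hm]
  have hne : (1 - ⟪ξ, q⟫_ℂ) ≠ 0 := norm_pos_iff.mp (by rw [← hm]; exact hm0)
  have hne' : (1 - ⟪ξ, q'⟫_ℂ) ≠ 0 := norm_pos_iff.mp (by rw [← hm']; exact hm0')
  have e1 : xx ξ q' - xx ξ q =
      -(((s : ℝ) : ℂ) * ((1 - ⟪ξ, q'⟫_ℂ) - (1 - ⟪ξ, q⟫_ℂ))) /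
        ((1 - ⟪ξ, q'⟫_ℂ) * (1 - ⟪ξ, q⟫_ℂ)) := by
    unfold xx
    rw [← hs]
    field_simp
    ring
  rw [e1, norm_div, norm_neg, norm_mul, norm_mul, Complex.norm_real,
    Real.norm_of_nonneg (by rw [hs]; exact hs0.le), ← hm, ← hm', hHH, ← hDd]
  rw [← hs] at hs0
  rw [div_mul_div_comm, div_le_div_iff₀ (by positivity) (by positivity)]
  calc s * ‖(1 - ⟪ξ, q'⟫_ℂ) - (1 - ⟪ξ, q⟫_ℂ)‖ * ((1 - r ^ 2 * ‖w‖ ^ 2) * m ^ 2) ≤
      s * (L * D) * ((2 * L * (1 - ‖q‖ ^ 2)) * m ^ 2) := by gcongr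
    _ = s * (L * D) * ((2 * L * (1 - ‖q‖ ^ 2)) * m) * m := by ring
    _ ≤ s * (L * D) * ((2 * L * (1 - ‖q‖ ^ 2)) * m) * (4 * L ^ 2 * κ * m') := by
        have : 0 ≤ 1 - ‖q‖ ^ 2 := by nlinarith [norm_nonneg q]
        gcongr
    _ = _ := by ring

end Pool.Agent.MPca0fc2.CP
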