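import Mathlib
import Pool.Agent.Lib.MP_ca0fc2_an.CPCarl2

/-! The pulled back potential has the properties which are used in the construction, end. -/

set_option autoImplicit false

open Metric Set MeasureTheory Filter Topology
open scoped InnerProductSpace ENNReal

namespace Pool.Agent.MPca0fc2.CP

open Pool.Agent.MPca0fc2.PT Pool.Agent.Lib.MP_ca0fc2_an

variable {E G : Type*} [NormedAddCommGroup E] [InnerProductSpace ℂ E]
  [NormedAddCommGroup G] [InnerProductSpace ℂ G]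
variable [MeasurableSpace G] [FiniteDimensional ℂ G] [BorelSpace G]
variable {L A : ℝ} {Q : E → G} {ν : Measure G}

theorem path_e0 (h : SmoothMap L Q) (hν : PT.Carl ν A) {θ : ℝ} (hθ0 : 0 < θ) (hθ : θ < 1)
    (z : E) (j k : ℕ) (hjk : j ≤ k) (hzk : 1 - θ ^ k ≤ ‖z‖) (hz : ‖z‖ < 1) :
    (1 - θ) * ∑ i ∈ Finset.Ioc j k, e0 L Q ν ((rt θ i : ℂ) • z) ≤
      62208 * L ^ 4 * ((D3 ν (Q ((rt θ k : ℂ) • z))).re - (D3 ν (Q ((rt θ j : ℂ) • z))).re) +
      1400000 * L ^ 12 * A := by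
  have hL0 : 0 < L := by linarith [h.1]
  have hball : ∀ i, ‖(rt θ i : ℂ) • z‖ < 1 := by
    intro i
    have ht0 : 0 < θ ^ i := by positivity
    have ht1 : θ ^ i ≤ 1 := pow_le_one₀ hθ0.le hθ.le
    rw [norm_smul, Complex.norm_real, Real.norm_eq_abs, rt, abs_of_nonneg (by linarith)]
    nlinarith [norm_nonneg z]
  have hQ : ∀ i, ‖Q ((rt θ i : ℂ) • z)‖ < 1 := fun i => sm_lt h (hball i)
  obtain ⟨hiH, hHA⟩ := pot_HH_int hν (hQ j)
  have hEI : ∀ i, Integrable (fun ξ => HH (Q ((rt θ i : ℂ) • z)) ξ ^ (3 / 2 : ℝ) *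
      FF L Q ((rt θ i : ℂ) • z) ^ (1 / 4 : ℝ)) ν :=
    fun i => (E3_integrable hν (hQ i)).mul_const _
  have h1 : (1 - θ) * ∑ i ∈ Finset.Ioc j k, e0 L Q ν ((rt θ i : ℂ) • z) =
      ∫ ξ, (1 - θ) * ∑ i ∈ Finset.Ioc j k, HH (Q ((rt θ i : ℂ) • z)) ξ ^ (3 / 2 : ℝ) *
        FF L Q ((rt θ i : ℂ) • z) ^ (1 / 4 : ℝ) ∂ν := by
    rw [integral_const_mul, integral_finsetSum _ (fun i _ => hEI i)]
    congr 1
    refine Finset.sum_congr rfl fun i _ => ?_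
    rw [integral_mul_const]
    rfl
  have h2 : ∫ ξ, (1 - θ) * ∑ i ∈ Finset.Ioc j k, HH (Q ((rt θ i : ℂ) • z)) ξ ^ (3 / 2 : ℝ) *
        FF L Q ((rt θ i : ℂ) • z) ^ (1 / 4 : ℝ) ∂ν ≤
      ∫ ξ, (62208 * L ^ 4 * ((phi (xx ξ (Q ((rt θ k : ℂ) • z)))).re -
        (phi (xx ξ (Q ((rt θ j : ℂ) • z)))).re) +
      1400000 * L ^ 12 * HH (Q ((rt θ j : ℂ) • z)) ξ) ∂ν := by
    apply integral_mono_ae
    · exact (integrable_finsetSum _ (fun i _ => hEI i)).const_mul _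
    · exact (((D3_re_int hν (hQ k)).sub (D3_re_int hν (hQ j))).const_mul _).add (hiH.const_mul _)
    · filter_upwards [pot_ae hν] with ξ hξ
      exact path_map h hθ0 hθ z ξ j k hjk hzk hz hξ
  rw [h1]
  refine h2.trans ?_
  have e1 : ∫ ξ, (62208 * L ^ 4 * ((phi (xx ξ (Q ((rt θ k : ℂ) • z)))).re -
        (phi (xx ξ (Q ((rt θ j : ℂ) • z)))).re) +
      1400000 * L ^ 12 * HH (Q ((rt θ j : ℂ) • z)) ξ) ∂ν =
      62208 * L ^ 4 * ((D3 ν (Q ((rt θ k : ℂ) • z))).re - (D3 ν (Q ((rt θ j : ℂ) • z))).re) +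
      1400000 * L ^ 12 * ∫ ξ, HH (Q ((rt θ j : ℂ) • z)) ξ ∂ν := by
    rw [D3_re hν (hQ k), D3_re hν (hQ j), ← integral_sub (D3_re_int hν (hQ k))
      (D3_re_int hν (hQ j)), ← integral_const_mul, ← integral_const_mul]
    exact integral_add (((D3_re_int hν (hQ k)).sub (D3_re_int hν (hQ j))).const_mul _)
      (hiH.const_mul _)
  rw [e1]
  have h3 : 1400000 * L ^ 12 * ∫ ξ, HH (Q ((rt θ j : ℂ) • z)) ξ ∂ν ≤ 1400000 * L ^ 12 * A :=
    mul_le_mul_of_nonneg_left hHA (by positivity)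
  linarith

theorem ds_d0 (h : SmoothMap L Q) (hν : PT.Carl ν A) {w : E} {r r' κ : ℝ} (hr0 : 0 ≤ r)
    (hr : r ≤ r') (hr' : r' * ‖w‖ < 1) (hκ : 1 - r * ‖w‖ ≤ κ * (1 - r' * ‖w‖)) :
    ‖d0 L Q ν ((r' : ℂ) • w) - d0 L Q ν ((r : ℂ) • w)‖ ≤
      κ * (320 * L ^ 12 * A) * ((r' - r) * ‖w‖) / (1 - r ^ 2 * ‖w‖ ^ 2) := by
  have hL := h.1
  have hL0 : 0 < L := by linarith
  have hr0' : 0 ≤ r' := hr0.trans hr
  have hw0 := norm_nonneg w
  have hrw : r * ‖w‖ ≤ r' * ‖w‖ := mul_le_mul_of_nonneg_right hr hw0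
  have n1 : ‖(r' : ℂ) • w‖ = r' * ‖w‖ := by
    rw [norm_smul, Complex.norm_real, Real.norm_eq_abs, abs_of_nonneg hr0']
  have n2 : ‖(r : ℂ) • w‖ = r * ‖w‖ := by
    rw [norm_smul, Complex.norm_real, Real.norm_eq_abs, abs_of_nonneg hr0]
  have hy' : ‖(r' : ℂ) • w‖ < 1 := by rw [n1]; exact hr'
  have hy : ‖(r : ℂ) • w‖ < 1 := by rw [n2]; linarith
  have hκ1 : 1 ≤ κ := by
    by_contra hc
    push Not at hc
    have : κ * (1 - r' * ‖w‖) < 1 * (1 - r' * ‖w‖) := by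
      apply mul_lt_mul_of_pos_right hc; linarith
    linarith
  have hrw0 : 0 ≤ r * ‖w‖ := mul_nonneg hr0 hw0
  have hD : 0 < 1 - r ^ 2 * ‖w‖ ^ 2 := by nlinarith
  have hA0 : 0 ≤ A := hν.1
  have hr'' : 0 ≤ r' - r := sub_nonneg.mpr hr
  have key := D3_sub hν (sm_lt h hy) (sm_lt h hy')
    (c := 8 * L ^ 4 * κ * ((r' - r) * ‖w‖) / (1 - r ^ 2 * ‖w‖ ^ 2))
    (fun ξ hξ => xx_inc h hr0 hr hr' hκ hξ) (by positivity)
  unfold d0
  rw [← mul_sub, norm_mul, Complex.norm_real, Real.norm_of_nonneg (by positivity)]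
  calc 8 * L ^ 4 * ‖D3 ν (Q ((r' : ℂ) • w)) - D3 ν (Q ((r : ℂ) • w))‖ ≤
      8 * L ^ 4 * (5 * (8 * L ^ 4 * κ * ((r' - r) * ‖w‖) / (1 - r ^ 2 * ‖w‖ ^ 2)) * A) := by
        gcongr
    _ = κ * (320 * L ^ 8 * A) * ((r' - r) * ‖w‖) / (1 - r ^ 2 * ‖w‖ ^ 2) := by ring
    _ ≤ _ := by
        have : L ^ 8 ≤ L ^ 12 := pow_le_pow_right₀ hL (by norm_num)
        gcongr

variable [FiniteDimensional ℂ E]

/-- The pulled back potential. -/
theorem carl_ptC (h : SmoothMap L Q) (hν : PT.Carl ν A) :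
    MX.Carl (ptC L Q ν) (320 * L ^ 12 * A) where
  A0 := by
    have := hν.1
    have hL0 : 0 < L := by linarith [h.1]
    positivity
  le := fun y hy => by
    rw [ptC_e h hν hy]
    refine (e0_le h hν hy).trans ?_
    have h1 := hν.1
    have h2 : 1 ≤ L ^ 12 := one_le_pow₀ h.1
    nlinarith
  cmp := fun x y hx hy => by
    rw [ptC_e h hν hx, ptC_e h hν hy]
    exact e0_compare h hν hx hy
  c2 := by
    refine (e0_c2 h hν).congr fun y hy => ?_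
    exact ptC_e h hν (mem_ball_zero_iff.mp hy)
  fd := fun y hy x => by
    have h1 : MX.EE (ptC L Q ν) =ᶠ[𝓝 y] e0 L Q ν := by
      filter_upwards [isOpen_ball.mem_nhds (mem_ball_zero_iff.mpr hy)] with x hx
      exact ptC_e h hν (mem_ball_zero_iff.mp hx)
    rw [h1.fderiv_eq, ptC_e h hν hy]
    refine (e0_fderiv h hν hy x).trans ?_
    have h2 := BB_le_gau hy x
    have h3 := e0_nonneg h hν hy
    have h4 : 0 ≤ BB y x := Real.sqrt_nonneg _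
    nlinarith [mul_le_mul_of_nonneg_left h2 h3, mul_nonneg h3 h4]
  dd := by
    show DifferentiableOn ℂ (d0 L Q ν) (ball 0 1)
    unfold d0
    exact ((D3_diff hν).comp h.2.1 h.2.2.1).const_mul _
  ds := fun w r r' κ h1 h2 h3 h4 => ds_d0 h hν h1 h2 h3 h4
  path := fun θ h0 h1 z j k hjk h2 h3 => by
    have hball : ∀ i, ‖(rt θ i : ℂ) • z‖ < 1 := by
      intro i
      have ht0 : 0 < θ ^ i := by positivity
      have ht1 : θ ^ i ≤ 1 := pow_le_one₀ h0.le h1.le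
      rw [norm_smul, Complex.norm_real, Real.norm_eq_abs, rt, abs_of_nonneg (by linarith)]
      nlinarith [norm_nonneg z]
    have key := path_e0 h hν h0 h1 z j k hjk h2 h3
    rw [Finset.sum_congr rfl fun i _ => ptC_e h hν (hball i)]
    have e1 : ∀ y, (MX.DD (ptC L Q ν) y).re = 8 * L ^ 4 * (D3 ν (Q y)).re := by
      intro y
      show (d0 L Q ν y).re = _
      unfold d0
      rw [Complex.re_ofReal_mul]
    rw [e1, e1]
    unfold MX.pc
    have hA := hν.1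
    have hL0 : 0 < L := by linarith [h.1]
    have hLA : 0 ≤ L ^ 12 * A := by positivity
    rw [div_mul_eq_mul_div, div_le_iff₀ (by norm_num)]
    nlinarith

end Pool.Agent.MPca0fc2.CP
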