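import Mathlib
import Pool.Agent.Lib.MP_ca0fc2_an.Defs
import Pool.Agent.Lib.MP_ca0fc2_an.Mg.G059

/-! The generators of the larger algebra: multipliers, functions with Carleson gradients, slow
functions, and functions which are tame with respect to a complex line. -/

set_option autoImplicit false

open Metric Set MeasureTheory
open scoped InnerProductSpace

namespace Pool.Agent.Lib.MP_ca0fc2_an

/-- `u = g ∘ φ`, where `φ` is an automorphism of the unit ball and `g` is holomorphic on the ball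
with `|dg(z) v| ≤ K (|⟨e, v⟩| / (1 - |⟨e, z⟩|) + |v| / (1 - |⟨e, z⟩|)^(1/2))` for a unit vector
`e`. For example, `g` may be any bounded holomorphic function on an ellipsoid which contains the
unit ball and touches the sphere only along the circle where `|⟨e, z⟩| = 1`. -/
def LineTame {E : Type*} [NormedAddCommGroup E] [InnerProductSpace ℂ E] (K : ℝ) (u : E → ℂ) :
    Prop :=
  ∃ (e : E) (φ ψ : E → E) (g : E → ℂ), ‖e‖ = 1 ∧ IsBallAut φ ψ ∧
    DifferentiableOn ℂ g (ball 0 1) ∧
    (∀ z ∈ ball (0 : E) 1, ∀ v : E, ‖fderiv ℂ g z v‖ ≤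
      K * (‖⟪e, v⟫_ℂ‖ / (1 - ‖⟪e, z⟫_ℂ‖) + ‖v‖ / Real.sqrt (1 - ‖⟪e, z⟫_ℂ‖))) ∧
    ∀ z ∈ ball (0 : E) 1, u z = g (φ z)

/-- `u` is a multiplier of the Drury-Arveson space, or a function with a Carleson gradient, or a
slow function, or a bounded function which is tame with respect to a complex line, with the
constants `K`, `p` and `ω`. -/
def Gen4 {n : ℕ} (K p : ℝ) (ω : ℝ → ℝ) (u : EuclideanSpace ℂ (Fin n) → ℂ) : Prop :=
  Gen K p ω u ∨ ((∀ z ∈ ball (0 : EuclideanSpace ℂ (Fin n)) 1, ‖u z‖ ≤ K) ∧ LineTame K u)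

/-- All multipliers of the Drury-Arveson space, all functions with `GradCarleson p K` for some `p`
and `K`, all slow functions, and all bounded functions which are tame with respect to a complex
line. -/
def Gens4 (n : ℕ) : Set (EuclideanSpace ℂ (Fin n) → ℂ) :=
  {u | ∃ (K p : ℝ) (ω : ℝ → ℝ), 1 ≤ p ∧ Rate ω ∧ Gen4 K p ω u}

/-- The closed subalgebra of `H^∞` of the unit ball generated by `Gens4 n`. -/
def Alg4 (n : ℕ) : Set (EuclideanSpace ℂ (Fin n) → ℂ) := ClosedAlg (Gens4 n)

end Pool.Agent.Lib.MP_ca0fc2_an
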