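import Mathlib
import Pool.Agent.Lib.MP_ca0fc2_an.Mg.G008
import Pool.Agent.Lib.MP_ca0fc2_an.LTDefs

/-! The generators of the algebra which is closed under composition with smooth maps of balls. -/

set_option autoImplicit false

open Metric Set MeasureTheory
open scoped InnerProductSpace

namespace Pool.Agent.Lib.MP_ca0fc2_an

/-- `u = v ∘ Q` on the unit ball of `ℂⁿ`, where `Q` is a smooth map of this ball into the unit ball
of `ℂᵏ`, `1 ≤ k ≤ K`, and `v` is a multiplier of the Drury-Arveson space of the unit ball of `ℂᵏ`,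
of norm at most `K`, or `GradCarleson p K v`. -/
def CompMult {n : ℕ} (K p : ℝ) (u : EuclideanSpace ℂ (Fin n) → ℂ) : Prop :=
  ∃ (k : ℕ) (Q : EuclideanSpace ℂ (Fin n) → EuclideanSpace ℂ (Fin k))
    (v : EuclideanSpace ℂ (Fin k) → ℂ), 1 ≤ k ∧ (k : ℝ) ≤ K ∧ SmoothMap K Q ∧
    (DAMultiplier K v ∨ GradCarleson p K v) ∧
    ∀ z ∈ ball (0 : EuclideanSpace ℂ (Fin n)) 1, u z = v (Q z)

/-- The generators with the constants `K`, `p` and `ω`, without the functions which are tame with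
respect to a complex line. -/
def Gen5 {n : ℕ} (K p : ℝ) (ω : ℝ → ℝ) (u : EuclideanSpace ℂ (Fin n) → ℂ) : Prop :=
  CompMult K p u ∨ PullCarleson p K u ∨ Slow K ω u

/-- The generators with the constants `K`, `p` and `ω`: `CompMult K p u`, or `PullCarleson p K u`,
or `u` is a slow function, or `u` is bounded by `K` and tame with respect to a complex line. -/
def Gen6 {n : ℕ} (K p : ℝ) (ω : ℝ → ℝ) (u : EuclideanSpace ℂ (Fin n) → ℂ) : Prop :=
  Gen5 K p ω u ∨ ((∀ z ∈ ball (0 : EuclideanSpace ℂ (Fin n)) 1, ‖u z‖ ≤ K) ∧ LineTame K u)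

/-- All the generators. -/
def Gens6 (n : ℕ) : Set (EuclideanSpace ℂ (Fin n) → ℂ) :=
  {u | ∃ (K p : ℝ) (ω : ℝ → ℝ), 1 ≤ p ∧ Rate ω ∧ Gen6 K p ω u}

/-- The closed subalgebra of `H^∞` of the unit ball generated by `Gens6 n`. -/
def Alg6 (n : ℕ) : Set (EuclideanSpace ℂ (Fin n) → ℂ) := ClosedAlg (Gens6 n)

end Pool.Agent.Lib.MP_ca0fc2_an
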