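import Mathlib
import Pool.Agent.Lib.MP_ca0fc2_an.CPGDefs
import Pool.Agent.Lib.MP_ca0fc2_an.Mg.G024

set_option autoImplicit false

open Metric Set MeasureTheory
open scoped InnerProductSpace

namespace Pool.Agent.MPca0fc2.CP

open Pool.Agent.Lib.MP_ca0fc2_an

theorem comp_pull {n k : ℕ} (K : ℝ) {p : ℝ} (hp : 1 ≤ p) : ∃ p' K' : ℝ, 1 ≤ p' ∧
    ∀ (Q : EuclideanSpace ℂ (Fin n) → EuclideanSpace ℂ (Fin k))
    (v : EuclideanSpace ℂ (Fin k) → ℂ), SmoothMap K Q → (DAMultiplier K v ∨ GradCarleson p K v) →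
    PullCarleson p' K' (fun z => v (Q z)) := by
  obtain ⟨K', q, hq, h⟩ := pull_comp n k (K := K) hp
  exact ⟨q, K', hq, h⟩

end Pool.Agent.MPca0fc2.CP
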