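import Mathlib
import Pool.Agent.Lib.MP_ca0fc2_an.MXBase

set_option autoImplicit false

open Metric Set MeasureTheory Filter Topology
open scoped InnerProductSpace ENNReal

namespace Pool.Agent.MPca0fc2.MX

open Pool.Agent.MPca0fc2.PT

variable {E : Type*} [NormedAddCommGroup E] [InnerProductSpace ℂ E]

/-- the sum of two potentials -/
def Ptl.add {E : Type*} (ν ν' : Ptl E) : Ptl E :=
  ⟨fun y => ν.e y + ν'.e y, fun y => ν.d y + ν'.d y, fun y => add_nonneg (ν.nn y) (ν'.nn y)⟩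

theorem add_EE (ν ν' : Ptl E) (y : E) : EE (ν.add ν') y = EE ν y + EE ν' y := rfl

theorem add_DD (ν ν' : Ptl E) (y : E) : DD (ν.add ν') y = DD ν y + DD ν' y := rfl

theorem Carl.mono {ν : Ptl E} {A A' : ℝ} (h : Carl ν A) (hA : A ≤ A') : Carl ν A' where
  A0 := h.A0.trans hA
  le := fun y hy => (h.le y hy).trans hA
  cmp := h.cmp
  c2 := h.c2
  fd := h.fd
  dd := h.dd
  ds := by
    intro w r r' κ h1 h2 h3 h4
    have hw := norm_nonneg w
    have h5 : r * ‖w‖ ≤ r' * ‖w‖ := by gcongr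
    have h6 : 0 < κ := by
      by_contra hcon
      push Not at hcon
      nlinarith
    have h7 : 0 ≤ r * ‖w‖ := by positivity
    have h8 : 0 ≤ 1 - r ^ 2 * ‖w‖ ^ 2 := by nlinarith
    have h9 : 0 ≤ r' - r := by linarith
    refine (h.ds w r r' κ h1 h2 h3 h4).trans ?_
    gcongr
  path := fun θ h0 h1 z j k hjk h2 h3 => (h.path θ h0 h1 z j k hjk h2 h3).trans (by linarith)

theorem Carl.add {ν ν' : Ptl E} {A A' : ℝ} (h : Carl ν A) (h' : Carl ν' A') :
    Carl (ν.add ν') (A + A') where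
  A0 := add_nonneg h.A0 h'.A0
  le := fun y hy => add_le_add (h.le y hy) (h'.le y hy)
  cmp := by
    intro x y hx hy
    rw [add_EE, add_EE, add_mul, mul_add]
    exact add_le_add (h.cmp x y hx hy) (h'.cmp x y hx hy)
  c2 := h.c2.add h'.c2
  fd := by
    intro y hy x
    have hb : ball (0 : E) 1 ∈ 𝓝 y := isOpen_ball.mem_nhds (mem_ball_zero_iff.mpr hy)
    have h1 : DifferentiableAt ℝ (EE ν) y := (h.c2.contDiffAt hb).differentiableAt (by norm_num)
    have h2 : DifferentiableAt ℝ (EE ν') y := (h'.c2.contDiffAt hb).differentiableAt (by norm_num)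
    have e : fderiv ℝ (EE (ν.add ν')) y = fderiv ℝ (EE ν) y + fderiv ℝ (EE ν') y :=
      fderiv_add h1 h2
    rw [e, add_EE, ContinuousLinearMap.add_apply, mul_add, add_mul]
    exact (abs_add_le _ _).trans (add_le_add (h.fd y hy x) (h'.fd y hy x))
  dd := h.dd.add h'.dd
  ds := by
    intro w r r' κ h1 h2 h3 h4
    have e : DD (ν.add ν') ((r' : ℂ) • w) - DD (ν.add ν') ((r : ℂ) • w) =
        (DD ν ((r' : ℂ) • w) - DD ν ((r : ℂ) • w)) + (DD ν' ((r' : ℂ) • w) - DD ν' ((r : ℂ) • w)) := by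
      rw [add_DD, add_DD]; ring
    rw [e]
    refine (norm_add_le _ _).trans
      ((add_le_add (h.ds w r r' κ h1 h2 h3 h4) (h'.ds w r r' κ h1 h2 h3 h4)).trans (le_of_eq ?_))
    rw [← add_div]
    ring
  path := by
    intro θ h0 h1 z j k hjk h2 h3
    simp only [add_EE, add_DD, Finset.sum_add_distrib, Complex.add_re, mul_add]
    have e1 := h.path θ h0 h1 z j k hjk h2 h3
    have e2 := h'.path θ h0 h1 z j k hjk h2 h3
    linarith

/-- a multiple of a potential -/
def Ptl.smul {E : Type*} (a : ℝ) (ha : 0 ≤ a) (ν : Ptl E) : Ptl E :=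
  ⟨fun y => a * ν.e y, fun y => (a : ℂ) * ν.d y, fun y => mul_nonneg ha (ν.nn y)⟩

theorem smul_EE {a : ℝ} (ha : 0 ≤ a) (ν : Ptl E) (y : E) : EE (ν.smul a ha) y = a * EE ν y := rfl

theorem smul_DD {a : ℝ} (ha : 0 ≤ a) (ν : Ptl E) (y : E) : DD (ν.smul a ha) y = a * DD ν y := rfl

theorem Carl.smul {ν : Ptl E} {A a : ℝ} (ha : 0 ≤ a) (h : Carl ν A) :
    Carl (ν.smul a ha) (a * A) where
  A0 := mul_nonneg ha h.A0
  le := fun y hy => mul_le_mul_of_nonneg_left (h.le y hy) ha
  cmp := by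
    intro x y hx hy
    rw [smul_EE, smul_EE]
    have := mul_le_mul_of_nonneg_left (h.cmp x y hx hy) ha
    linarith
  c2 := contDiffOn_const.mul h.c2
  fd := by
    intro y hy x
    have hb : ball (0 : E) 1 ∈ 𝓝 y := isOpen_ball.mem_nhds (mem_ball_zero_iff.mpr hy)
    have h1 : DifferentiableAt ℝ (EE ν) y := (h.c2.contDiffAt hb).differentiableAt (by norm_num)
    have e : fderiv ℝ (EE (ν.smul a ha)) y = a • fderiv ℝ (EE ν) y := fderiv_const_mul h1 a
    rw [e, smul_EE, ContinuousLinearMap.smul_apply, smul_eq_mul, abs_mul, abs_of_nonneg ha]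
    have := mul_le_mul_of_nonneg_left (h.fd y hy x) ha
    linarith
  dd := (differentiableOn_const _).mul h.dd
  ds := by
    intro w r r' κ h1 h2 h3 h4
    rw [smul_DD, smul_DD, ← mul_sub, norm_mul, Complex.norm_real, Real.norm_of_nonneg ha]
    refine (mul_le_mul_of_nonneg_left (h.ds w r r' κ h1 h2 h3 h4) ha).trans (le_of_eq ?_)
    ring
  path := by
    intro θ h0 h1 z j k hjk h2 h3
    simp only [smul_EE, smul_DD, ← Finset.mul_sum, Complex.re_ofReal_mul]
    have e1 := mul_le_mul_of_nonneg_left (h.path θ h0 h1 z j k hjk h2 h3) ha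
    linarith

/-- the zero potential -/
def zer (E : Type*) : Ptl E := ⟨fun _ => 0, fun _ => 0, fun _ => le_rfl⟩

theorem zer_EE (y : E) : EE (zer E) y = 0 := rfl

theorem Carl.zer : Carl (MX.zer E) 0 where
  A0 := le_rfl
  le := fun y hy => le_rfl
  cmp := by intro x y hx hy; rw [zer_EE, zer_EE]; simp
  c2 := contDiffOn_const
  fd := by
    intro y hy x
    have e : EE (MX.zer E) = fun _ => (0 : ℝ) := rfl
    rw [e]
    simp
  dd := differentiableOn_const _
  ds := by
    intro w r r' κ h1 h2 h3 h4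
    have e : ∀ y : E, DD (MX.zer E) y = 0 := fun _ => rfl
    rw [e, e]
    simp
  path := by
    intro θ h0 h1 z j k hjk h2 h3
    have e : ∀ y : E, DD (MX.zer E) y = 0 := fun _ => rfl
    simp [zer_EE, e]

/-- finite sums of potentials -/
def Ptl.sum {E : Type*} {ι : Type*} (s : Finset ι) (ν : ι → Ptl E) : Ptl E :=
  ⟨fun y => ∑ i ∈ s, (ν i).e y, fun y => ∑ i ∈ s, (ν i).d y,
    fun y => Finset.sum_nonneg fun i _ => (ν i).nn y⟩

theorem sum_EE {ι : Type*} (s : Finset ι) (ν : ι → Ptl E) (y : E) :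
    EE (Ptl.sum s ν) y = ∑ i ∈ s, EE (ν i) y := rfl

theorem Carl.sum {ι : Type*} (s : Finset ι) {ν : ι → Ptl E} {A : ι → ℝ}
    (h : ∀ i ∈ s, Carl (ν i) (A i)) : Carl (Ptl.sum s ν) (∑ i ∈ s, A i) := by
  classical
  induction s using Finset.induction_on with
  | empty =>
    rw [Finset.sum_empty]
    have e : Ptl.sum (∅ : Finset ι) ν = MX.zer E := by
      unfold Ptl.sum MX.zer
      simp
    rw [e]
    exact Carl.zer
  | insert a s ha ih =>
    rw [Finset.sum_insert ha]
    have e : Ptl.sum (insert a s) ν = (ν a).add (Ptl.sum s ν) := by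
      unfold Ptl.sum Ptl.add
      simp [Finset.sum_insert ha]
    rw [e]
    exact (h a (Finset.mem_insert_self _ _)).add (ih fun i hi => h i (Finset.mem_insert_of_mem hi))

end Pool.Agent.MPca0fc2.MX
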