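import Mathlib
import Pool.Agent.Lib.MP_ca0fc2_an.Mg.G048

set_option autoImplicit false

open Metric Set MeasureTheory Filter Topology
open scoped InnerProductSpace ENNReal

namespace Pool.Agent.MPca0fc2.PT

variable {E : Type*} [NormedAddCommGroup E] [InnerProductSpace ℂ E]

variable [FiniteDimensional ℂ E] [MeasurableSpace E] [BorelSpace E]

/-- telescoping sum -/
lemma pp_tele {θ : ℝ} (hθ0 : 0 < θ) (hθ : θ < 1) {m : ℝ} (hm : 0 < m) (j k : ℕ) (hjk : j ≤ k) :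
    ∑ i ∈ Finset.Ioc j k, θ ^ i * m / (m + θ ^ i) ^ 2 ≤
      (1 - θ)⁻¹ * (m / (m + θ ^ (k + 1)) - m / (m + θ ^ (j + 1))) := by
  have h1 : 0 < 1 - θ := by linarith
  induction k, hjk using Nat.le_induction with
  | base => simp
  | succ k hk ih =>
    rw [Finset.sum_Ioc_succ_top hk]
    have ht : 0 < θ ^ (k + 1) := by positivity
    set t := θ ^ (k + 1) with htd
    have ht2 : θ ^ (k + 1 + 1) = θ * t := by rw [pow_succ, mul_comm]
    rw [ht2]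
    have h2 : t * m / (m + t) ^ 2 ≤ (1 - θ)⁻¹ * (m / (m + θ * t) - m / (m + t)) := by
      have h3 : m / (m + θ * t) - m / (m + t) = (1 - θ) * (t * m / ((m + θ * t) * (m + t))) := by
        have e1 : m + θ * t ≠ 0 := by positivity
        have e2 : m + t ≠ 0 := by positivity
        field_simp
        ring
      rw [h3, ← mul_assoc, inv_mul_cancel₀ h1.ne', one_mul]
      apply div_le_div_of_nonneg_left (by positivity) (by positivity)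
      have h4 : m + θ * t ≤ m + t := by nlinarith
      nlinarith [mul_le_mul_of_nonneg_right h4 (by positivity : 0 ≤ m + t)]
    calc _ ≤ (1 - θ)⁻¹ * (m / (m + t) - m / (m + θ ^ (j + 1))) +
          (1 - θ)⁻¹ * (m / (m + θ * t) - m / (m + t)) := add_le_add ih h2
      _ = _ := by ring

lemma pp_sum {θ : ℝ} (hθ0 : 0 < θ) (hθ : θ < 1) {m : ℝ} (hm : 0 < m) (j k : ℕ) (hjk : j ≤ k) :
    ∑ i ∈ Finset.Ioc j k, (θ ^ i) ^ 2 / (m + θ ^ i) ^ 4 ≤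
      (1 - θ)⁻¹ * (θ ^ j / (m ^ 2 * (m + θ ^ j))) := by
  have h1 : 0 < 1 - θ := by linarith
  have h2 : ∀ i ∈ Finset.Ioc j k, (θ ^ i) ^ 2 / (m + θ ^ i) ^ 4 ≤
      (m ^ 2)⁻¹ * (θ ^ i * m / (m + θ ^ i) ^ 2) := by
    intro i _
    have ht : 0 < θ ^ i := by positivity
    set t := θ ^ i
    have e1 : (m ^ 2)⁻¹ * (t * m / (m + t) ^ 2) = t / (m * (m + t) ^ 2) := by
      field_simp
    rw [e1, div_le_div_iff₀ (by positivity) (by positivity)]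
    have e2 : t * m ≤ (m + t) ^ 2 := by nlinarith [sq_nonneg (m - t)]
    calc t ^ 2 * (m * (m + t) ^ 2) = (t * (m + t) ^ 2) * (t * m) := by ring
      _ ≤ (t * (m + t) ^ 2) * (m + t) ^ 2 := mul_le_mul_of_nonneg_left e2 (by positivity)
      _ = t * (m + t) ^ 4 := by ring
  refine (Finset.sum_le_sum h2).trans ?_
  rw [← Finset.mul_sum]
  have h3 := pp_tele hθ0 hθ hm j k hjk
  have h4 : m / (m + θ ^ (k + 1)) - m / (m + θ ^ (j + 1)) ≤ θ ^ j / (m + θ ^ j) := by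
    have a1 : m / (m + θ ^ (k + 1)) ≤ 1 := by
      rw [div_le_one (by positivity)]
      have : 0 < θ ^ (k + 1) := by positivity
      linarith
    have a2 : 1 - m / (m + θ ^ (j + 1)) = θ ^ (j + 1) / (m + θ ^ (j + 1)) := by
      have : m + θ ^ (j + 1) ≠ 0 := by positivity
      field_simp
      ring
    have a3 : θ ^ (j + 1) / (m + θ ^ (j + 1)) ≤ θ ^ j / (m + θ ^ j) := by
      rw [div_le_div_iff₀ (by positivity) (by positivity)]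
      have : θ ^ (j + 1) ≤ θ ^ j := pow_le_pow_of_le_one hθ0.le hθ.le (Nat.le_succ j)
      nlinarith
    linarith
  calc (m ^ 2)⁻¹ * ∑ i ∈ Finset.Ioc j k, θ ^ i * m / (m + θ ^ i) ^ 2
      ≤ (m ^ 2)⁻¹ * ((1 - θ)⁻¹ * (θ ^ j / (m + θ ^ j))) := by
        apply mul_le_mul_of_nonneg_left _ (by positivity)
        exact h3.trans (mul_le_mul_of_nonneg_left h4 (by positivity))
    _ = (1 - θ)⁻¹ * (θ ^ j / (m ^ 2 * (m + θ ^ j))) := by
        field_simp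

/-- the final case distinction, real numbers only -/
lemma pp_real {s mk mj tj Fk Fj Hj S K : ℝ} (hs : 0 < s) (hmk : 0 < mk) (hmj : 0 < mj)
    (htj : 0 < tj) (hK : 0 < K) (h2mk : s / 2 ≤ mk) (h3 : mj ≤ mk + tj) (h4 : tj ≤ mj)
    (hH : tj * s / mj ^ 2 ≤ Hj)
    (hFk0 : s ^ 2 / (2 * mk ^ 2) ≤ Fk) (hFj : Fj ≤ s / mj)
    (hdiff : Fj - Fk ≤ s * tj / (mk * mj)) (hFk : 0 ≤ Fk)
    (hS : S ≤ K * (s ^ 2 * tj / (mk ^ 2 * (mk + tj)))) :
    (6 * K)⁻¹ * S ≤ Fk - Fj + 3 * Hj := by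
  have hHj0 : 0 ≤ Hj := le_trans (by positivity) hH
  -- (B)
  have hB : -(2 * Hj) ≤ Fk - Fj := by
    by_cases hc : mj / 2 ≤ mk
    · have e1 : s * tj / (mk * mj) ≤ 2 * (tj * s / mj ^ 2) := by
        rw [← mul_div_assoc, div_le_div_iff₀ (by positivity) (by positivity)]
        have : mj ^ 2 ≤ 2 * (mk * mj) := by nlinarith
        nlinarith [mul_le_mul_of_nonneg_left this (by positivity : 0 ≤ s * tj)]
      linarith
    · push Not at hc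
      have h5 : mj ≤ 2 * tj := by linarith
      have e1 : s / mj ≤ 2 * (tj * s / mj ^ 2) := by
        rw [← mul_div_assoc, div_le_div_iff₀ (by positivity) (by positivity)]
        nlinarith [mul_le_mul_of_nonneg_left h5 (by positivity : 0 ≤ s * mj)]
      linarith
  have hinv : (6 * K)⁻¹ * S ≤ (6 * K)⁻¹ * (K * (s ^ 2 * tj / (mk ^ 2 * (mk + tj)))) :=
    mul_le_mul_of_nonneg_left hS (by positivity)
  have hinv2 : (6 * K)⁻¹ * (K * (s ^ 2 * tj / (mk ^ 2 * (mk + tj)))) =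
      s ^ 2 * tj / (6 * (mk ^ 2 * (mk + tj))) := by
    field_simp
  rw [hinv2] at hinv
  by_cases hF : Fj ≤ Fk / 2
  · -- (C)
    have e1 : s ^ 2 * tj / (6 * (mk ^ 2 * (mk + tj))) ≤ s ^ 2 / (2 * mk ^ 2) / 2 := by
      rw [div_div, div_le_div_iff₀ (by positivity) (by positivity)]
      have : tj ≤ mk + tj := by linarith
      nlinarith [mul_le_mul_of_nonneg_left this (by positivity : 0 ≤ s ^ 2 * mk ^ 2),
        (by positivity : 0 ≤ s ^ 2 * mk ^ 2 * tj)]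
    linarith
  · push Not at hF
    have h6 : s * tj ≤ 4 * mk ^ 2 := by
      have e1 : s ^ 2 / (2 * mk ^ 2) < 2 * (s / tj) := by
        have : s / mj ≤ s / tj := div_le_div_of_nonneg_left hs.le htj h4
        linarith
      rw [← mul_div_assoc, div_lt_div_iff₀ (by positivity) htj] at e1
      have e2 : s * (s * tj) < s * (4 * mk ^ 2) := by nlinarith
      exact (lt_of_mul_lt_mul_left e2 hs.le).le
    have h7 : s * (mk + tj) ≤ 6 * mk ^ 2 := by nlinarith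
    have e1 : s ^ 2 * tj / (6 * (mk ^ 2 * (mk + tj))) ≤ tj * s / mj ^ 2 := by
      have e2 : s ^ 2 * tj / (6 * (mk ^ 2 * (mk + tj))) ≤ tj * s / (mk + tj) ^ 2 := by
        rw [div_le_div_iff₀ (by positivity) (by positivity)]
        nlinarith [mul_le_mul_of_nonneg_left h7 (by positivity : 0 ≤ tj * s * (mk + tj))]
      refine e2.trans ?_
      apply div_le_div_of_nonneg_left (by positivity) (by positivity)
      exact pow_le_pow_left₀ hmj.le h3 2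
    linarith

lemma pp_div (S p q : ℂ) (hp : p ≠ 0) (hq : q ≠ 0) :
    S / p - S / q = -(S * (p - q)) / (q * p) := by
  field_simp
  ring

omit [FiniteDimensional ℂ E] [MeasurableSpace E] [BorelSpace E] in
theorem path_point {θ : ℝ} (hθ0 : 0 < θ) (hθ : θ < 1) :
    ∃ c : ℝ, 0 < c ∧ ∀ (z ξ : E) (j k : ℕ), j ≤ k → 1 - θ ^ k ≤ ‖z‖ → ‖z‖ < 1 → ‖ξ‖ < 1 →
      c * ∑ i ∈ Finset.Ioc j k, HH ((rt θ i : ℂ) • z) ξ ^ 2 ≤
        (((1 - ‖ξ‖ ^ 2 : ℝ) : ℂ) / (1 - ⟪ξ, (rt θ k : ℂ) • z⟫_ℂ)).re -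
        (((1 - ‖ξ‖ ^ 2 : ℝ) : ℂ) / (1 - ⟪ξ, (rt θ j : ℂ) • z⟫_ℂ)).re +
        3 * HH ((rt θ j : ℂ) • z) ξ := by
  have h1 : 0 < 1 - θ := by linarith
  set K : ℝ := 1296 * (1 - θ)⁻¹ with hKd
  have hK : 0 < K := by positivity
  refine ⟨(6 * K)⁻¹, by positivity, ?_⟩
  intro z ξ j k hjk hzk hz hξ
  set s : ℝ := 1 - ‖ξ‖ ^ 2 with hs
  set b : ℂ := ⟪ξ, z⟫_ℂ with hb
  have hx0 : 0 ≤ ‖ξ‖ := norm_nonneg _
  have hz0 : 0 ≤ ‖z‖ := norm_nonneg _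
  have hs0 : 0 < s := by rw [hs]; nlinarith
  have hbn : ‖b‖ ≤ ‖ξ‖ := by
    calc ‖b‖ ≤ ‖ξ‖ * ‖z‖ := norm_inner_le_norm _ _
      _ ≤ ‖ξ‖ * 1 := mul_le_mul_of_nonneg_left hz.le hx0
      _ = ‖ξ‖ := mul_one _
  have hsx : s / 2 ≤ 1 - ‖ξ‖ := by rw [hs]; nlinarith
  have ht0 : ∀ i, 0 < θ ^ i := fun i => by positivity
  have ht1 : ∀ i, θ ^ i ≤ 1 := fun i => pow_le_one₀ hθ0.le hθ.le
  have hr0 : ∀ i, 0 ≤ rt θ i := fun i => by rw [rt]; linarith [ht1 i]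
  have hr1 : ∀ i, rt θ i ≤ 1 := fun i => by rw [rt]; linarith [ht0 i]
  set m : ℕ → ℝ := fun i => ‖1 - (rt θ i : ℂ) * b‖ with hm
  have hin1 : ∀ i, ⟪ξ, (rt θ i : ℂ) • z⟫_ℂ = (rt θ i : ℂ) * b := by
    intro i; rw [inner_smul_right]
  have hin2 : ∀ i, ‖1 - ⟪(rt θ i : ℂ) • z, ξ⟫_ℂ‖ = m i := by
    intro i
    have : (1 : ℂ) - ⟪(rt θ i : ℂ) • z, ξ⟫_ℂ = (starRingEnd ℂ) (1 - (rt θ i : ℂ) * b) := by
      rw [inner_smul_left, map_sub, map_one, map_mul, hb, inner_conj_symm]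
    rw [this, Complex.norm_conj]
  have hre : ∀ i, 1 - rt θ i * ‖b‖ ≤ (1 - (rt θ i : ℂ) * b).re := by
    intro i
    rw [Complex.sub_re, Complex.one_re, Complex.re_ofReal_mul]
    have : b.re ≤ ‖b‖ := Complex.re_le_norm b
    nlinarith [hr0 i]
  have hrem : ∀ i, (1 - (rt θ i : ℂ) * b).re ≤ m i := fun i => Complex.re_le_norm _
  have hre1 : ∀ i, θ ^ i ≤ (1 - (rt θ i : ℂ) * b).re := by
    intro i
    refine le_trans ?_ (hre i)
    have h2 : rt θ i * ‖b‖ ≤ rt θ i * 1 :=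
      mul_le_mul_of_nonneg_left (hbn.trans hξ.le) (hr0 i)
    rw [rt] at h2 ⊢
    linarith
  have hre2 : ∀ i, s / 2 ≤ (1 - (rt θ i : ℂ) * b).re := by
    intro i
    refine le_trans hsx (le_trans ?_ (hre i))
    have h2 : rt θ i * ‖b‖ ≤ 1 * ‖ξ‖ := mul_le_mul (hr1 i) hbn (norm_nonneg _) zero_le_one
    linarith
  have hmt : ∀ i, θ ^ i ≤ m i := fun i => (hre1 i).trans (hrem i)
  have hms : ∀ i, s / 2 ≤ m i := fun i => (hre2 i).trans (hrem i)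
  have hm0 : ∀ i, 0 < m i := fun i => (ht0 i).trans_le (hmt i)
  have htk : ∀ i, i ≤ k → θ ^ k ≤ θ ^ i := fun i hi => pow_le_pow_of_le_one hθ0.le hθ.le hi
  have hdist : ∀ i, i ≤ k → ‖(rt θ k : ℂ) * b - (rt θ i : ℂ) * b‖ ≤ θ ^ i := by
    intro i hi
    rw [← sub_mul, norm_mul, ← Complex.ofReal_sub, Complex.norm_real, Real.norm_eq_abs]
    have h2 : rt θ k - rt θ i = θ ^ i - θ ^ k := by rw [rt, rt]; ring
    rw [h2, abs_of_nonneg (by linarith [htk i hi])]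
    calc (θ ^ i - θ ^ k) * ‖b‖ ≤ (θ ^ i - θ ^ k) * 1 := by
          apply mul_le_mul_of_nonneg_left (hbn.trans hξ.le)
          linarith [htk i hi]
      _ ≤ θ ^ i := by linarith [ht0 k]
  have hmi1 : ∀ i, i ≤ k → m i ≤ m k + θ ^ i := by
    intro i hi
    have : (1 : ℂ) - (rt θ i : ℂ) * b = (1 - (rt θ k : ℂ) * b) + ((rt θ k : ℂ) * b - (rt θ i : ℂ) * b) := by
      ring
    calc m i = ‖(1 - (rt θ k : ℂ) * b) + ((rt θ k : ℂ) * b - (rt θ i : ℂ) * b)‖ := by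
          rw [hm]; simp only; rw [← this]
      _ ≤ m k + θ ^ i := (norm_add_le _ _).trans (add_le_add le_rfl (hdist i hi))
  have hmi2 : ∀ i, i ≤ k → m k ≤ m i + θ ^ i := by
    intro i hi
    have : (1 : ℂ) - (rt θ k : ℂ) * b = (1 - (rt θ i : ℂ) * b) - ((rt θ k : ℂ) * b - (rt θ i : ℂ) * b) := by
      ring
    calc m k = ‖(1 - (rt θ i : ℂ) * b) - ((rt θ k : ℂ) * b - (rt θ i : ℂ) * b)‖ := by
          rw [hm]; simp only; rw [← this]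
      _ ≤ m i + θ ^ i := (norm_sub_le _ _).trans (add_le_add le_rfl (hdist i hi))
  -- HH
  have hHH : ∀ i, HH ((rt θ i : ℂ) • z) ξ = (1 - rt θ i ^ 2 * ‖z‖ ^ 2) * s / m i ^ 2 := by
    intro i
    rw [HH, hin2, norm_smul, Complex.norm_real, Real.norm_eq_abs, mul_pow, sq_abs]
  have hup : ∀ i, i ≤ k → 1 - rt θ i ^ 2 * ‖z‖ ^ 2 ≤ 4 * θ ^ i := by
    intro i hi
    have h2 : rt θ i ≤ ‖z‖ := by
      refine le_trans ?_ hzk
      rw [rt]; linarith [htk i hi]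
    have h3 : rt θ i ^ 2 ≤ ‖z‖ ^ 2 := pow_le_pow_left₀ (hr0 i) h2 2
    have h4 : rt θ i ^ 2 * rt θ i ^ 2 ≤ rt θ i ^ 2 * ‖z‖ ^ 2 :=
      mul_le_mul_of_nonneg_left h3 (by positivity)
    have h5 : 1 - 4 * θ ^ i ≤ rt θ i ^ 2 * rt θ i ^ 2 := by
      rw [rt]
      have e1 := ht0 i
      have e2 := ht1 i
      set t := θ ^ i
      have e3 : 1 - 2 * t ≤ (1 - t) ^ 2 := by nlinarith
      by_cases hc : 0 ≤ 1 - 2 * t
      · have : (1 - 2 * t) * (1 - 2 * t) ≤ (1 - t) ^ 2 * (1 - t) ^ 2 :=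
          mul_le_mul e3 e3 hc (by positivity)
        nlinarith
      · push Not at hc
        have : 0 ≤ (1 - t) ^ 2 * (1 - t) ^ 2 := by positivity
        linarith
    linarith
  have hlo : ∀ i, θ ^ i ≤ 1 - rt θ i ^ 2 * ‖z‖ ^ 2 := by
    intro i
    have h2 : ‖z‖ ^ 2 ≤ 1 := pow_le_one₀ hz0 hz.le
    have h3 : rt θ i ^ 2 * ‖z‖ ^ 2 ≤ rt θ i ^ 2 * 1 := mul_le_mul_of_nonneg_left h2 (by positivity)
    have h4 : rt θ i ^ 2 ≤ rt θ i := by nlinarith [hr0 i, hr1 i]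
    have h5 : rt θ i = 1 - θ ^ i := rfl
    linarith
  -- the sum
  have hS : ∑ i ∈ Finset.Ioc j k, HH ((rt θ i : ℂ) • z) ξ ^ 2 ≤
      K * (s ^ 2 * θ ^ j / (m k ^ 2 * (m k + θ ^ j))) := by
    have h2 : ∀ i ∈ Finset.Ioc j k, HH ((rt θ i : ℂ) • z) ξ ^ 2 ≤
        1296 * s ^ 2 * ((θ ^ i) ^ 2 / (m k + θ ^ i) ^ 4) := by
      intro i hi
      have hik := (Finset.mem_Ioc.mp hi).2
      have e1 : HH ((rt θ i : ℂ) • z) ξ ≤ 36 * s * (θ ^ i / (m k + θ ^ i) ^ 2) := by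
        rw [hHH, ← mul_div_assoc, div_le_div_iff₀ (by have := hm0 i; positivity)
          (by have := hm0 k; have := ht0 i; positivity)]
        have e3 : m k + θ ^ i ≤ 3 * m i := by linarith [hmi2 i hik, hmt i]
        have e4 : (m k + θ ^ i) ^ 2 ≤ 9 * m i ^ 2 := by
          have := pow_le_pow_left₀ (by have := hm0 k; have := ht0 i; positivity) e3 2
          nlinarith
        calc (1 - rt θ i ^ 2 * ‖z‖ ^ 2) * s * (m k + θ ^ i) ^ 2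
            ≤ (4 * θ ^ i) * s * (9 * m i ^ 2) := by
              apply mul_le_mul _ e4 (by positivity) (by have := ht0 i; positivity)
              exact mul_le_mul_of_nonneg_right (hup i hik) hs0.le
          _ = 36 * s * θ ^ i * m i ^ 2 := by ring
      have e0 : 0 ≤ HH ((rt θ i : ℂ) • z) ξ := by
        rw [hHH]
        have := hlo i
        have := ht0 i
        have : 0 ≤ 1 - rt θ i ^ 2 * ‖z‖ ^ 2 := by linarith
        positivity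
      calc HH ((rt θ i : ℂ) • z) ξ ^ 2 ≤ (36 * s * (θ ^ i / (m k + θ ^ i) ^ 2)) ^ 2 :=
            pow_le_pow_left₀ e0 e1 2
        _ = 1296 * s ^ 2 * ((θ ^ i) ^ 2 / (m k + θ ^ i) ^ 4) := by
            rw [mul_pow, div_pow, ← pow_mul]; ring
    refine (Finset.sum_le_sum h2).trans ?_
    rw [← Finset.mul_sum]
    calc 1296 * s ^ 2 * ∑ i ∈ Finset.Ioc j k, (θ ^ i) ^ 2 / (m k + θ ^ i) ^ 4
        ≤ 1296 * s ^ 2 * ((1 - θ)⁻¹ * (θ ^ j / (m k ^ 2 * (m k + θ ^ j)))) :=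
          mul_le_mul_of_nonneg_left (pp_sum hθ0 hθ (hm0 k) j k hjk) (by positivity)
      _ = K * (s ^ 2 * θ ^ j / (m k ^ 2 * (m k + θ ^ j))) := by
          rw [hKd]; ring
  -- the functions F
  have hF : ∀ i, (((1 - ‖ξ‖ ^ 2 : ℝ) : ℂ) / (1 - ⟪ξ, (rt θ i : ℂ) • z⟫_ℂ)).re
      = s * ((1 - (rt θ i : ℂ) * b).re / m i ^ 2) := by
    intro i
    rw [hin1, div_eq_mul_inv, Complex.re_ofReal_mul, Complex.inv_re, Complex.normSq_eq_norm_sq]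
  have hFdiff : (((1 - ‖ξ‖ ^ 2 : ℝ) : ℂ) / (1 - ⟪ξ, (rt θ j : ℂ) • z⟫_ℂ)).re
      - (((1 - ‖ξ‖ ^ 2 : ℝ) : ℂ) / (1 - ⟪ξ, (rt θ k : ℂ) • z⟫_ℂ)).re ≤ s * θ ^ j / (m k * m j) := by
    rw [hin1, hin1, ← Complex.sub_re]
    have hne : ∀ i, (1 : ℂ) - (rt θ i : ℂ) * b ≠ 0 := by
      intro i h
      have h2 := hm0 i
      rw [hm] at h2
      simp only at h2
      rw [h, norm_zero] at h2
      exact lt_irrefl _ h2
    refine (Complex.re_le_norm _).trans ?_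
    have e1 : ((1 - ‖ξ‖ ^ 2 : ℝ) : ℂ) / (1 - (rt θ j : ℂ) * b) - ((1 - ‖ξ‖ ^ 2 : ℝ) : ℂ) / (1 - (rt θ k : ℂ) * b)
        = - ((s : ℂ) * ((rt θ k : ℂ) * b - (rt θ j : ℂ) * b)) / ((1 - (rt θ k : ℂ) * b) * (1 - (rt θ j : ℂ) * b)) := by
      rw [pp_div _ _ _ (hne j) (hne k)]
      congr 3
      ring
    rw [e1, norm_div, norm_neg, norm_mul, norm_mul, Complex.norm_real, Real.norm_eq_abs,
      abs_of_pos hs0]
    apply div_le_div_of_nonneg_right _ (by have := hm0 j; have := hm0 k; positivity)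
    exact mul_le_mul_of_nonneg_left (hdist j hjk) hs0.le
  refine pp_real (s := s) (mk := m k) (mj := m j) (tj := θ ^ j) hs0 (hm0 k) (hm0 j) (ht0 j) hK
    (hms k) (hmi1 j hjk) (hmt j) ?_ ?_ ?_ hFdiff ?_ hS
  · rw [hHH]
    apply div_le_div_of_nonneg_right _ (by have := hm0 j; positivity)
    exact mul_le_mul_of_nonneg_right (hlo j) hs0.le
  · rw [hF]
    have h2 := hre2 k
    have h3 := hm0 k
    have e1 : s ^ 2 / (2 * m k ^ 2) = s * ((s / 2) / m k ^ 2) := by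
      field_simp
    rw [e1]
    apply mul_le_mul_of_nonneg_left _ hs0.le
    exact div_le_div_of_nonneg_right h2 (by positivity)
  · rw [hF]
    have h3 := hm0 j
    have e1 : s / m j = s * (m j / m j ^ 2) := by
      field_simp
    rw [e1]
    apply mul_le_mul_of_nonneg_left _ hs0.le
    exact div_le_div_of_nonneg_right (hrem j) (by positivity)
  · rw [hF]
    have h2 := hre2 k
    have h4 : 0 ≤ (1 - (rt θ k : ℂ) * b).re := by linarith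
    positivity

omit [FiniteDimensional ℂ E] in
lemma pp_HH_measurable (y : E) : Measurable (fun ξ : E => HH y ξ) := by
  unfold HH
  fun_prop

omit [FiniteDimensional ℂ E] [MeasurableSpace E] [BorelSpace E] in
lemma pp_HH_nonneg {y ξ : E} (hy : ‖y‖ < 1) (hξ : ‖ξ‖ < 1) : 0 ≤ HH y ξ := by
  unfold HH
  have h1 : 0 ≤ 1 - ‖y‖ ^ 2 := by nlinarith [norm_nonneg y]
  have h2 : 0 ≤ 1 - ‖ξ‖ ^ 2 := by nlinarith [norm_nonneg ξ]
  positivity

omit [FiniteDimensional ℂ E] [BorelSpace E] in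
lemma pp_ae {ν : Measure E} {A : ℝ} (h : Carl ν A) : ∀ᵐ ξ ∂ν, ‖ξ‖ < 1 := by
  have h1 : ball (0 : E) 1 ∈ ae ν := by rw [mem_ae_iff]; exact h.2.1
  filter_upwards [h1] with ξ hξ
  simpa using hξ

omit [FiniteDimensional ℂ E] in
lemma pp_HH_integrable {ν : Measure E} {A : ℝ} (h : Carl ν A) {y : E} (hy : ‖y‖ < 1) :
    Integrable (fun ξ => HH y ξ) ν := by
  refine ⟨(pp_HH_measurable y).aestronglyMeasurable, ?_⟩
  rw [hasFiniteIntegral_iff_norm]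
  have h1 : ∫⁻ ξ, ENNReal.ofReal ‖HH y ξ‖ ∂ν = ∫⁻ ξ, ENNReal.ofReal (HH y ξ) ∂ν := by
    apply lintegral_congr_ae
    filter_upwards [pp_ae h] with ξ hξ
    rw [Real.norm_of_nonneg (pp_HH_nonneg hy hξ)]
  rw [h1]
  exact (h.2.2 y (by simpa using hy)).trans_lt ENNReal.ofReal_lt_top

omit [FiniteDimensional ℂ E] in
lemma pp_HH_integral {ν : Measure E} {A : ℝ} (h : Carl ν A) {y : E} (hy : ‖y‖ < 1) :
    ∫ ξ, HH y ξ ∂ν ≤ A := by
  rw [integral_eq_lintegral_of_nonneg_ae]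
  · have h1 := h.2.2 y (by simpa using hy)
    have h2 := ENNReal.toReal_mono ENNReal.ofReal_ne_top h1
    rwa [ENNReal.toReal_ofReal h.1] at h2
  · filter_upwards [pp_ae h] with ξ hξ
    exact pp_HH_nonneg hy hξ
  · exact (pp_HH_measurable y).aestronglyMeasurable

omit [FiniteDimensional ℂ E] in
lemma pp_DD_integrable {ν : Measure E} {A : ℝ} (h : Carl ν A) {y : E} (hy : ‖y‖ < 1) :
    Integrable (fun ξ => ((1 - ‖ξ‖ ^ 2 : ℝ) : ℂ) / (1 - ⟪ξ, y⟫_ℂ)) ν := by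
  have h0 : ‖(0 : E)‖ < 1 := by simp
  have h1 := (pp_HH_integrable h h0).const_mul ((1 - ‖y‖)⁻¹)
  refine h1.mono' ?_ ?_
  · have : Measurable (fun ξ : E => ((1 - ‖ξ‖ ^ 2 : ℝ) : ℂ) / (1 - ⟪ξ, y⟫_ℂ)) := by
      fun_prop
    exact this.aestronglyMeasurable
  · filter_upwards [pp_ae h] with ξ hξ
    have hs : 0 ≤ 1 - ‖ξ‖ ^ 2 := by nlinarith [norm_nonneg ξ]
    rw [norm_div, Complex.norm_real, Real.norm_of_nonneg hs]
    have h2 : HH (0 : E) ξ = 1 - ‖ξ‖ ^ 2 := by simp [HH]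
    rw [h2, div_eq_mul_inv, mul_comm]
    apply mul_le_mul_of_nonneg_right _ hs
    have h3 : 1 - ‖y‖ ≤ ‖1 - ⟪ξ, y⟫_ℂ‖ := by
      have e1 : ‖⟪ξ, y⟫_ℂ‖ ≤ ‖y‖ := by
        calc ‖⟪ξ, y⟫_ℂ‖ ≤ ‖ξ‖ * ‖y‖ := norm_inner_le_norm _ _
          _ ≤ 1 * ‖y‖ := mul_le_mul_of_nonneg_right hξ.le (norm_nonneg _)
          _ = ‖y‖ := one_mul _
      have e2 := norm_sub_norm_le (1 : ℂ) ⟪ξ, y⟫_ℂ
      rw [norm_one] at e2
      linarith
    exact inv_anti₀ (by linarith) h3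

theorem path_lemma {θ : ℝ} (hθ0 : 0 < θ) (hθ : θ < 1) :
    ∃ c : ℝ, 0 < c ∧ ∀ (ν : Measure E) (A : ℝ), Carl ν A → ∀ (z : E) (j k : ℕ), j ≤ k →
      1 - θ ^ k ≤ ‖z‖ → ‖z‖ < 1 →
      c * ∑ i ∈ Finset.Ioc j k, EE ν ((rt θ i : ℂ) • z) ≤
        (DD ν ((rt θ k : ℂ) • z)).re - (DD ν ((rt θ j : ℂ) • z)).re + 3 * A := by
  obtain ⟨c, hc, hpt⟩ := path_point (E := E) hθ0 hθ
  refine ⟨c, hc, ?_⟩
  intro ν A hν z j k hjk hzk hz
  have hball : ∀ i, ‖(rt θ i : ℂ) • z‖ < 1 := by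
    intro i
    have ht0 : 0 < θ ^ i := by positivity
    have ht1 : θ ^ i ≤ 1 := pow_le_one₀ hθ0.le hθ.le
    rw [norm_smul, Complex.norm_real, Real.norm_eq_abs, rt, abs_of_nonneg (by linarith)]
    nlinarith [norm_nonneg z]
  have hre : ∀ i, (DD ν ((rt θ i : ℂ) • z)).re =
      ∫ ξ, (((1 - ‖ξ‖ ^ 2 : ℝ) : ℂ) / (1 - ⟪ξ, (rt θ i : ℂ) • z⟫_ℂ)).re ∂ν := by
    intro i
    have := Complex.reCLM.integral_comp_comm (pp_DD_integrable hν (hball i))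
    simp only [Complex.reCLM_apply] at this
    rw [this]
    rfl
  have hreI : ∀ i, Integrable
      (fun ξ => (((1 - ‖ξ‖ ^ 2 : ℝ) : ℂ) / (1 - ⟪ξ, (rt θ i : ℂ) • z⟫_ℂ)).re) ν := by
    intro i
    exact (pp_DD_integrable hν (hball i)).re
  have hEI : ∀ i, Integrable (fun ξ => HH ((rt θ i : ℂ) • z) ξ ^ 2) ν :=
    fun i => EE_integrable hν (hball i)
  have h1 : c * ∑ i ∈ Finset.Ioc j k, EE ν ((rt θ i : ℂ) • z) =
      ∫ ξ, c * ∑ i ∈ Finset.Ioc j k, HH ((rt θ i : ℂ) • z) ξ ^ 2 ∂ν := by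
    rw [integral_const_mul, integral_finsetSum _ (fun i _ => hEI i)]
    rfl
  have h2 : ∫ ξ, c * ∑ i ∈ Finset.Ioc j k, HH ((rt θ i : ℂ) • z) ξ ^ 2 ∂ν ≤
      ∫ ξ, ((((1 - ‖ξ‖ ^ 2 : ℝ) : ℂ) / (1 - ⟪ξ, (rt θ k : ℂ) • z⟫_ℂ)).re -
        (((1 - ‖ξ‖ ^ 2 : ℝ) : ℂ) / (1 - ⟪ξ, (rt θ j : ℂ) • z⟫_ℂ)).re +
        3 * HH ((rt θ j : ℂ) • z) ξ) ∂ν := by
    apply integral_mono_ae
    · exact (integrable_finsetSum _ (fun i _ => hEI i)).const_mul c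
    · exact ((hreI k).sub (hreI j)).add ((pp_HH_integrable hν (hball j)).const_mul 3)
    · filter_upwards [pp_ae hν] with ξ hξ
      exact hpt z ξ j k hjk hzk hz hξ
  rw [h1]
  refine h2.trans ?_
  rw [show ∫ ξ, ((((1 - ‖ξ‖ ^ 2 : ℝ) : ℂ) / (1 - ⟪ξ, (rt θ k : ℂ) • z⟫_ℂ)).re -
        (((1 - ‖ξ‖ ^ 2 : ℝ) : ℂ) / (1 - ⟪ξ, (rt θ j : ℂ) • z⟫_ℂ)).re +
        3 * HH ((rt θ j : ℂ) • z) ξ) ∂ν =
      ∫ ξ, ((((1 - ‖ξ‖ ^ 2 : ℝ) : ℂ) / (1 - ⟪ξ, (rt θ k : ℂ) • z⟫_ℂ)).re -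
        (((1 - ‖ξ‖ ^ 2 : ℝ) : ℂ) / (1 - ⟪ξ, (rt θ j : ℂ) • z⟫_ℂ)).re) ∂ν +
        ∫ ξ, 3 * HH ((rt θ j : ℂ) • z) ξ ∂ν from
      integral_add ((hreI k).sub (hreI j)) ((pp_HH_integrable hν (hball j)).const_mul 3),
    integral_sub (hreI k) (hreI j), integral_const_mul, ← hre, ← hre]
  have := pp_HH_integral hν (hball j)
  linarith

end Pool.Agent.MPca0fc2.PT
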