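import Mathlib
import Pool.Agent.Lib.MP_ca0fc2_an.MXBase
import Pool.Agent.Lib.MP_ca0fc2_an.PTPath
import Pool.Agent.Lib.MP_ca0fc2_an.QTEd

set_option autoImplicit false

open Metric Set MeasureTheory Filter Topology
open scoped InnerProductSpace ENNReal

namespace Pool.Agent.MPca0fc2.MX

open Pool.Agent.MPca0fc2.PT

variable {E : Type*} [NormedAddCommGroup E] [InnerProductSpace ℂ E]

theorem path_point' {θ : ℝ} (hθ0 : 0 < θ) (hθ : θ < 1) (z ξ : E) (j k : ℕ) (hjk : j ≤ k)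
    (hzk : 1 - θ ^ k ≤ ‖z‖) (hz : ‖z‖ < 1) (hξ : ‖ξ‖ < 1) :
    pc θ * ∑ i ∈ Finset.Ioc j k, HH ((rt θ i : ℂ) • z) ξ ^ 2 ≤
        (((1 - ‖ξ‖ ^ 2 : ℝ) : ℂ) / (1 - ⟪ξ, (rt θ k : ℂ) • z⟫_ℂ)).re -
        (((1 - ‖ξ‖ ^ 2 : ℝ) : ℂ) / (1 - ⟪ξ, (rt θ j : ℂ) • z⟫_ℂ)).re +
        3 * HH ((rt θ j : ℂ) • z) ξ := by
  have h1 : 0 < 1 - θ := by linarith
  set K : ℝ := 1296 * (1 - θ)⁻¹ with hKd
  have hK : 0 < K := by positivity
  have hpc : pc θ = (6 * K)⁻¹ := by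
    unfold pc
    rw [hKd]
    field_simp
    norm_num
  rw [hpc]
  set s : ℝ := 1 - ‖ξ‖ ^ 2 with hs
  set b : ℂ := ⟪ξ, z⟫_ℂ with hb
  have hx0 : 0 ≤ ‖ξ‖ := norm_nonneg _
  have hz0 : 0 ≤ ‖z‖ := norm_nonneg _
  have hs0 : 0 < s := by rw [hs]; nlinarith
  have hbn : ‖b‖ ≤ ‖ξ‖ := by
    calc ‖b‖ ≤ ‖ξ‖ * ‖z‖ := norm_inner_le_norm _ _
      _ ≤ ‖ξ‖ * 1 := mul_le_mul_of_nonneg_left hz.le hx0
      _ = ‖ξ‖ := mul_one _
  have hsx : s / 2 ≤ 1 - ‖ξ‖ := by rw [hs]; nlinarith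
  have ht0 : ∀ i, 0 < θ ^ i := fun i => by positivity
  have ht1 : ∀ i, θ ^ i ≤ 1 := fun i => pow_le_one₀ hθ0.le hθ.le
  have hr0 : ∀ i, 0 ≤ rt θ i := fun i => by rw [rt]; linarith [ht1 i]
  have hr1 : ∀ i, rt θ i ≤ 1 := fun i => by rw [rt]; linarith [ht0 i]
  set m : ℕ → ℝ := fun i => ‖1 - (rt θ i : ℂ) * b‖ with hm
  have hin1 : ∀ i, ⟪ξ, (rt θ i : ℂ) • z⟫_ℂ = (rt θ i : ℂ) * b := by
    intro i; rw [inner_smul_right]
  have hin2 : ∀ i, ‖1 - ⟪(rt θ i : ℂ) • z, ξ⟫_ℂ‖ = m i := by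
    intro i
    have : (1 : ℂ) - ⟪(rt θ i : ℂ) • z, ξ⟫_ℂ = (starRingEnd ℂ) (1 - (rt θ i : ℂ) * b) := by
      rw [inner_smul_left, map_sub, map_one, map_mul, hb, inner_conj_symm]
    rw [this, Complex.norm_conj]
  have hre : ∀ i, 1 - rt θ i * ‖b‖ ≤ (1 - (rt θ i : ℂ) * b).re := by
    intro i
    rw [Complex.sub_re, Complex.one_re, Complex.re_ofReal_mul]
    have : b.re ≤ ‖b‖ := Complex.re_le_norm b
    nlinarith [hr0 i]
  have hrem : ∀ i, (1 - (rt θ i : ℂ) * b).re ≤ m i := fun i => Complex.re_le_norm _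
  have hre1 : ∀ i, θ ^ i ≤ (1 - (rt θ i : ℂ) * b).re := by
    intro i
    refine le_trans ?_ (hre i)
    have h2 : rt θ i * ‖b‖ ≤ rt θ i * 1 :=
      mul_le_mul_of_nonneg_left (hbn.trans hξ.le) (hr0 i)
    rw [rt] at h2 ⊢
    linarith
  have hre2 : ∀ i, s / 2 ≤ (1 - (rt θ i : ℂ) * b).re := by
    intro i
    refine le_trans hsx (le_trans ?_ (hre i))
    have h2 : rt θ i * ‖b‖ ≤ 1 * ‖ξ‖ := mul_le_mul (hr1 i) hbn (norm_nonneg _) zero_le_one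
    linarith
  have hmt : ∀ i, θ ^ i ≤ m i := fun i => (hre1 i).trans (hrem i)
  have hms : ∀ i, s / 2 ≤ m i := fun i => (hre2 i).trans (hrem i)
  have hm0 : ∀ i, 0 < m i := fun i => (ht0 i).trans_le (hmt i)
  have htk : ∀ i, i ≤ k → θ ^ k ≤ θ ^ i := fun i hi => pow_le_pow_of_le_one hθ0.le hθ.le hi
  have hdist : ∀ i, i ≤ k → ‖(rt θ k : ℂ) * b - (rt θ i : ℂ) * b‖ ≤ θ ^ i := by
    intro i hi
    rw [← sub_mul, norm_mul, ← Complex.ofReal_sub, Complex.norm_real, Real.norm_eq_abs]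
    have h2 : rt θ k - rt θ i = θ ^ i - θ ^ k := by rw [rt, rt]; ring
    rw [h2, abs_of_nonneg (by linarith [htk i hi])]
    calc (θ ^ i - θ ^ k) * ‖b‖ ≤ (θ ^ i - θ ^ k) * 1 := by
          apply mul_le_mul_of_nonneg_left (hbn.trans hξ.le)
          linarith [htk i hi]
      _ ≤ θ ^ i := by linarith [ht0 k]
  have hmi1 : ∀ i, i ≤ k → m i ≤ m k + θ ^ i := by
    intro i hi
    have : (1 : ℂ) - (rt θ i : ℂ) * b = (1 - (rt θ k : ℂ) * b) + ((rt θ k : ℂ) * b - (rt θ i : ℂ) * b) := by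
      ring
    calc m i = ‖(1 - (rt θ k : ℂ) * b) + ((rt θ k : ℂ) * b - (rt θ i : ℂ) * b)‖ := by
          rw [hm]; simp only; rw [← this]
      _ ≤ m k + θ ^ i := (norm_add_le _ _).trans (add_le_add le_rfl (hdist i hi))
  have hmi2 : ∀ i, i ≤ k → m k ≤ m i + θ ^ i := by
    intro i hi
    have : (1 : ℂ) - (rt θ k : ℂ) * b = (1 - (rt θ i : ℂ) * b) - ((rt θ k : ℂ) * b - (rt θ i : ℂ) * b) := by
      ring
    calc m k = ‖(1 - (rt θ i : ℂ) * b) - ((rt θ k : ℂ) * b - (rt θ i : ℂ) * b)‖ := by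
          rw [hm]; simp only; rw [← this]
      _ ≤ m i + θ ^ i := (norm_sub_le _ _).trans (add_le_add le_rfl (hdist i hi))
  -- HH
  have hHH : ∀ i, HH ((rt θ i : ℂ) • z) ξ = (1 - rt θ i ^ 2 * ‖z‖ ^ 2) * s / m i ^ 2 := by
    intro i
    rw [HH, hin2, norm_smul, Complex.norm_real, Real.norm_eq_abs, mul_pow, sq_abs]
  have hup : ∀ i, i ≤ k → 1 - rt θ i ^ 2 * ‖z‖ ^ 2 ≤ 4 * θ ^ i := by
    intro i hi
    have h2 : rt θ i ≤ ‖z‖ := by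
      refine le_trans ?_ hzk
      rw [rt]; linarith [htk i hi]
    have h3 : rt θ i ^ 2 ≤ ‖z‖ ^ 2 := pow_le_pow_left₀ (hr0 i) h2 2
    have h4 : rt θ i ^ 2 * rt θ i ^ 2 ≤ rt θ i ^ 2 * ‖z‖ ^ 2 :=
      mul_le_mul_of_nonneg_left h3 (by positivity)
    have h5 : 1 - 4 * θ ^ i ≤ rt θ i ^ 2 * rt θ i ^ 2 := by
      rw [rt]
      have e1 := ht0 i
      have e2 := ht1 i
      set t := θ ^ i
      have e3 : 1 - 2 * t ≤ (1 - t) ^ 2 := by nlinarith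
      by_cases hc : 0 ≤ 1 - 2 * t
      · have : (1 - 2 * t) * (1 - 2 * t) ≤ (1 - t) ^ 2 * (1 - t) ^ 2 :=
          mul_le_mul e3 e3 hc (by positivity)
        nlinarith
      · push Not at hc
        have : 0 ≤ (1 - t) ^ 2 * (1 - t) ^ 2 := by positivity
        linarith
    linarith
  have hlo : ∀ i, θ ^ i ≤ 1 - rt θ i ^ 2 * ‖z‖ ^ 2 := by
    intro i
    have h2 : ‖z‖ ^ 2 ≤ 1 := pow_le_one₀ hz0 hz.le
    have h3 : rt θ i ^ 2 * ‖z‖ ^ 2 ≤ rt θ i ^ 2 * 1 := mul_le_mul_of_nonneg_left h2 (by positivity)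
    have h4 : rt θ i ^ 2 ≤ rt θ i := by nlinarith [hr0 i, hr1 i]
    have h5 : rt θ i = 1 - θ ^ i := rfl
    linarith
  -- the sum
  have hS : ∑ i ∈ Finset.Ioc j k, HH ((rt θ i : ℂ) • z) ξ ^ 2 ≤
      K * (s ^ 2 * θ ^ j / (m k ^ 2 * (m k + θ ^ j))) := by
    have h2 : ∀ i ∈ Finset.Ioc j k, HH ((rt θ i : ℂ) • z) ξ ^ 2 ≤
        1296 * s ^ 2 * ((θ ^ i) ^ 2 / (m k + θ ^ i) ^ 4) := by
      intro i hi
      have hik := (Finset.mem_Ioc.mp hi).2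
      have e1 : HH ((rt θ i : ℂ) • z) ξ ≤ 36 * s * (θ ^ i / (m k + θ ^ i) ^ 2) := by
        rw [hHH, ← mul_div_assoc, div_le_div_iff₀ (by have := hm0 i; positivity)
          (by have := hm0 k; have := ht0 i; positivity)]
        have e3 : m k + θ ^ i ≤ 3 * m i := by linarith [hmi2 i hik, hmt i]
        have e4 : (m k + θ ^ i) ^ 2 ≤ 9 * m i ^ 2 := by
          have := pow_le_pow_left₀ (by have := hm0 k; have := ht0 i; positivity) e3 2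
          nlinarith
        calc (1 - rt θ i ^ 2 * ‖z‖ ^ 2) * s * (m k + θ ^ i) ^ 2
            ≤ (4 * θ ^ i) * s * (9 * m i ^ 2) := by
              apply mul_le_mul _ e4 (by positivity) (by have := ht0 i; positivity)
              exact mul_le_mul_of_nonneg_right (hup i hik) hs0.le
          _ = 36 * s * θ ^ i * m i ^ 2 := by ring
      have e0 : 0 ≤ HH ((rt θ i : ℂ) • z) ξ := by
        rw [hHH]
        have := hlo i
        have := ht0 i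
        have : 0 ≤ 1 - rt θ i ^ 2 * ‖z‖ ^ 2 := by linarith
        positivity
      calc HH ((rt θ i : ℂ) • z) ξ ^ 2 ≤ (36 * s * (θ ^ i / (m k + θ ^ i) ^ 2)) ^ 2 :=
            pow_le_pow_left₀ e0 e1 2
        _ = 1296 * s ^ 2 * ((θ ^ i) ^ 2 / (m k + θ ^ i) ^ 4) := by
            rw [mul_pow, div_pow, ← pow_mul]; ring
    refine (Finset.sum_le_sum h2).trans ?_
    rw [← Finset.mul_sum]
    calc 1296 * s ^ 2 * ∑ i ∈ Finset.Ioc j k, (θ ^ i) ^ 2 / (m k + θ ^ i) ^ 4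
        ≤ 1296 * s ^ 2 * ((1 - θ)⁻¹ * (θ ^ j / (m k ^ 2 * (m k + θ ^ j)))) :=
          mul_le_mul_of_nonneg_left (pp_sum hθ0 hθ (hm0 k) j k hjk) (by positivity)
      _ = K * (s ^ 2 * θ ^ j / (m k ^ 2 * (m k + θ ^ j))) := by
          rw [hKd]; ring
  -- the functions F
  have hF : ∀ i, (((1 - ‖ξ‖ ^ 2 : ℝ) : ℂ) / (1 - ⟪ξ, (rt θ i : ℂ) • z⟫_ℂ)).re
      = s * ((1 - (rt θ i : ℂ) * b).re / m i ^ 2) := by
    intro i
    rw [hin1, div_eq_mul_inv, Complex.re_ofReal_mul, Complex.inv_re, Complex.normSq_eq_norm_sq]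
  have hFdiff : (((1 - ‖ξ‖ ^ 2 : ℝ) : ℂ) / (1 - ⟪ξ, (rt θ j : ℂ) • z⟫_ℂ)).re
      - (((1 - ‖ξ‖ ^ 2 : ℝ) : ℂ) / (1 - ⟪ξ, (rt θ k : ℂ) • z⟫_ℂ)).re ≤ s * θ ^ j / (m k * m j) := by
    rw [hin1, hin1, ← Complex.sub_re]
    have hne : ∀ i, (1 : ℂ) - (rt θ i : ℂ) * b ≠ 0 := by
      intro i h
      have h2 := hm0 i
      rw [hm] at h2
      simp only at h2
      rw [h, norm_zero] at h2
      exact lt_irrefl _ h2
    refine (Complex.re_le_norm _).trans ?_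
    have e1 : ((1 - ‖ξ‖ ^ 2 : ℝ) : ℂ) / (1 - (rt θ j : ℂ) * b) - ((1 - ‖ξ‖ ^ 2 : ℝ) : ℂ) / (1 - (rt θ k : ℂ) * b)
        = - ((s : ℂ) * ((rt θ k : ℂ) * b - (rt θ j : ℂ) * b)) / ((1 - (rt θ k : ℂ) * b) * (1 - (rt θ j : ℂ) * b)) := by
      rw [pp_div _ _ _ (hne j) (hne k)]
      congr 3
      ring
    rw [e1, norm_div, norm_neg, norm_mul, norm_mul, Complex.norm_real, Real.norm_eq_abs,
      abs_of_pos hs0]
    apply div_le_div_of_nonneg_right _ (by have := hm0 j; have := hm0 k; positivity)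
    exact mul_le_mul_of_nonneg_left (hdist j hjk) hs0.le
  refine pp_real (s := s) (mk := m k) (mj := m j) (tj := θ ^ j) hs0 (hm0 k) (hm0 j) (ht0 j) hK
    (hms k) (hmi1 j hjk) (hmt j) ?_ ?_ ?_ hFdiff ?_ hS
  · rw [hHH]
    apply div_le_div_of_nonneg_right _ (by have := hm0 j; positivity)
    exact mul_le_mul_of_nonneg_right (hlo j) hs0.le
  · rw [hF]
    have h2 := hre2 k
    have h3 := hm0 k
    have e1 : s ^ 2 / (2 * m k ^ 2) = s * ((s / 2) / m k ^ 2) := by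
      field_simp
    rw [e1]
    apply mul_le_mul_of_nonneg_left _ hs0.le
    exact div_le_div_of_nonneg_right h2 (by positivity)
  · rw [hF]
    have h3 := hm0 j
    have e1 : s / m j = s * (m j / m j ^ 2) := by
      field_simp
    rw [e1]
    apply mul_le_mul_of_nonneg_left _ hs0.le
    exact div_le_div_of_nonneg_right (hrem j) (by positivity)
  · rw [hF]
    have h2 := hre2 k
    have h4 : 0 ≤ (1 - (rt θ k : ℂ) * b).re := by linarith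
    positivity

variable [FiniteDimensional ℂ E] [MeasurableSpace E] [BorelSpace E]

theorem path_meas {θ : ℝ} (hθ0 : 0 < θ) (hθ : θ < 1) (ν : Measure E) (A : ℝ) (hν : PT.Carl ν A)
    (z : E) (j k : ℕ) (hjk : j ≤ k) (hzk : 1 - θ ^ k ≤ ‖z‖) (hz : ‖z‖ < 1) :
      pc θ * ∑ i ∈ Finset.Ioc j k, PT.EE ν ((rt θ i : ℂ) • z) ≤
        (PT.DD ν ((rt θ k : ℂ) • z)).re - (PT.DD ν ((rt θ j : ℂ) • z)).re + 3 * A := by
  have hball : ∀ i, ‖(rt θ i : ℂ) • z‖ < 1 := by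
    intro i
    have ht0 : 0 < θ ^ i := by positivity
    have ht1 : θ ^ i ≤ 1 := pow_le_one₀ hθ0.le hθ.le
    rw [norm_smul, Complex.norm_real, Real.norm_eq_abs, rt, abs_of_nonneg (by linarith)]
    nlinarith [norm_nonneg z]
  have hre : ∀ i, (PT.DD ν ((rt θ i : ℂ) • z)).re =
      ∫ ξ, (((1 - ‖ξ‖ ^ 2 : ℝ) : ℂ) / (1 - ⟪ξ, (rt θ i : ℂ) • z⟫_ℂ)).re ∂ν := by
    intro i
    have := Complex.reCLM.integral_comp_comm (pp_DD_integrable hν (hball i))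
    simp only [Complex.reCLM_apply] at this
    rw [this]
    rfl
  have hreI : ∀ i, Integrable
      (fun ξ => (((1 - ‖ξ‖ ^ 2 : ℝ) : ℂ) / (1 - ⟪ξ, (rt θ i : ℂ) • z⟫_ℂ)).re) ν := by
    intro i
    exact (pp_DD_integrable hν (hball i)).re
  have hEI : ∀ i, Integrable (fun ξ => HH ((rt θ i : ℂ) • z) ξ ^ 2) ν :=
    fun i => PT.EE_integrable hν (hball i)
  have h1 : pc θ * ∑ i ∈ Finset.Ioc j k, PT.EE ν ((rt θ i : ℂ) • z) =
      ∫ ξ, pc θ * ∑ i ∈ Finset.Ioc j k, HH ((rt θ i : ℂ) • z) ξ ^ 2 ∂ν := by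
    rw [integral_const_mul, integral_finsetSum _ (fun i _ => hEI i)]
    rfl
  have h2 : ∫ ξ, pc θ * ∑ i ∈ Finset.Ioc j k, HH ((rt θ i : ℂ) • z) ξ ^ 2 ∂ν ≤
      ∫ ξ, ((((1 - ‖ξ‖ ^ 2 : ℝ) : ℂ) / (1 - ⟪ξ, (rt θ k : ℂ) • z⟫_ℂ)).re -
        (((1 - ‖ξ‖ ^ 2 : ℝ) : ℂ) / (1 - ⟪ξ, (rt θ j : ℂ) • z⟫_ℂ)).re +
        3 * HH ((rt θ j : ℂ) • z) ξ) ∂ν := by
    apply integral_mono_ae
    · exact (integrable_finsetSum _ (fun i _ => hEI i)).const_mul _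
    · exact ((hreI k).sub (hreI j)).add ((pp_HH_integrable hν (hball j)).const_mul 3)
    · filter_upwards [pp_ae hν] with ξ hξ
      exact path_point' hθ0 hθ z ξ j k hjk hzk hz hξ
  rw [h1]
  refine h2.trans ?_
  rw [show ∫ ξ, ((((1 - ‖ξ‖ ^ 2 : ℝ) : ℂ) / (1 - ⟪ξ, (rt θ k : ℂ) • z⟫_ℂ)).re -
        (((1 - ‖ξ‖ ^ 2 : ℝ) : ℂ) / (1 - ⟪ξ, (rt θ j : ℂ) • z⟫_ℂ)).re +
        3 * HH ((rt θ j : ℂ) • z) ξ) ∂ν =
      ∫ ξ, ((((1 - ‖ξ‖ ^ 2 : ℝ) : ℂ) / (1 - ⟪ξ, (rt θ k : ℂ) • z⟫_ℂ)).re -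
        (((1 - ‖ξ‖ ^ 2 : ℝ) : ℂ) / (1 - ⟪ξ, (rt θ j : ℂ) • z⟫_ℂ)).re) ∂ν +
        ∫ ξ, 3 * HH ((rt θ j : ℂ) • z) ξ ∂ν from
      integral_add ((hreI k).sub (hreI j)) ((pp_HH_integrable hν (hball j)).const_mul 3),
    integral_sub (hreI k) (hreI j), integral_const_mul, ← hre, ← hre]
  have := pp_HH_integral hν (hball j)
  linarith


/-- the potential of a measure -/
noncomputable def ofM (ν : Measure E) : Ptl E := ⟨PT.EE ν, PT.DD ν, PT.EE_nonneg ν⟩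

theorem Carl.ofM {ν : Measure E} {A : ℝ} (h : PT.Carl ν A) : Carl (ofM ν) A where
  A0 := h.1
  le := fun y hy => PT.EE_le h hy
  cmp := fun x y hx hy => PT.EE_compare h hx hy
  c2 := QT.EE_c2 h
  fd := fun y hy x => PT.EE_fderiv h hy x
  dd := PT.DD_diff h
  ds := fun w r r' κ h1 h2 h3 h4 => PT.DD_sub h h1 h2 h3 h4
  path := fun θ h0 h1 z j k hjk h2 h3 => path_meas h0 h1 ν A h z j k hjk h2 h3

end Pool.Agent.MPca0fc2.MX
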