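import Mathlib
import Pool.Agent.Lib.MP_ca0fc2_an.MXMeas

set_option autoImplicit false

open Metric Set MeasureTheory Filter Topology
open scoped InnerProductSpace ENNReal

namespace Pool.Agent.MPca0fc2.MX

open Pool.Agent.MPca0fc2.PT

variable {E : Type*} [NormedAddCommGroup E] [InnerProductSpace ℂ E]

/-- the holomorphic cut-off -/
noncomputable def phi (a : E) (R : ℝ) (z : E) : ℂ := (R : ℂ) / (1 + R - ⟪a, z⟫_ℂ)

section

variable {a : E} {R : ℝ} {z : E}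

theorem phi_re (ha : ‖a‖ = 1) (R : ℝ) (z : E) : 1 - ‖z‖ + R ≤ (1 + R - ⟪a, z⟫_ℂ : ℂ).re := by
  have e1 := norm_inner_le_norm (𝕜 := ℂ) a z
  rw [ha, one_mul] at e1
  have e2 := (Complex.re_le_norm ⟪a, z⟫_ℂ).trans e1
  simp only [Complex.sub_re, Complex.add_re, Complex.one_re, Complex.ofReal_re]
  linarith

theorem phi_v1 (ha : ‖a‖ = 1) (R : ℝ) (z : E) : 1 - ‖z‖ + R ≤ ‖(1 + R - ⟪a, z⟫_ℂ : ℂ)‖ :=
  (phi_re ha R z).trans (Complex.re_le_norm _)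

theorem phi_v0 (ha : ‖a‖ = 1) (hR : 0 < R) (hz : ‖z‖ < 1) : 0 < ‖(1 + R - ⟪a, z⟫_ℂ : ℂ)‖ :=
  lt_of_lt_of_le (by linarith) (phi_v1 ha R z)

theorem phi_ne (ha : ‖a‖ = 1) (hR : 0 < R) (hz : ‖z‖ < 1) : (1 + R - ⟪a, z⟫_ℂ : ℂ) ≠ 0 :=
  norm_pos_iff.mp (phi_v0 ha hR hz)

theorem phi_norm (hR : 0 < R) : ‖phi a R z‖ = R / ‖(1 + R - ⟪a, z⟫_ℂ : ℂ)‖ := by
  unfold phi
  rw [norm_div, Complex.norm_real, Real.norm_of_nonneg hR.le]

theorem phi_le_one (ha : ‖a‖ = 1) (hR : 0 < R) (hz : ‖z‖ < 1) : ‖phi a R z‖ ≤ 1 := by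
  rw [phi_norm hR, div_le_one (phi_v0 ha hR hz)]
  have := phi_v1 ha R z
  linarith

theorem phi_le_depth (ha : ‖a‖ = 1) (hR : 0 < R) (hz : ‖z‖ < 1) :
    ‖phi a R z‖ ≤ R / (1 - ‖z‖) := by
  rw [phi_norm hR]
  apply div_le_div_of_nonneg_left hR.le (by linarith)
  have := phi_v1 ha R z
  linarith

theorem one_sub_phi (ha : ‖a‖ = 1) (hR : 0 < R) (hz : ‖z‖ < 1) :
    1 - phi a R z = (1 - ⟪a, z⟫_ℂ) / (1 + R - ⟪a, z⟫_ℂ) := by
  unfold phi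
  have := phi_ne ha hR hz
  field_simp
  ring

theorem one_sub_phi_le (ha : ‖a‖ = 1) (hR : 0 < R) (hz : ‖z‖ < 1) :
    ‖1 - phi a R z‖ ≤ ‖1 - ⟪a, z⟫_ℂ‖ / R := by
  rw [one_sub_phi ha hR hz, norm_div]
  apply div_le_div_of_nonneg_left (norm_nonneg _) hR
  have := phi_v1 ha R z
  linarith

theorem phi_hasFDerivAt (ha : ‖a‖ = 1) (hR : 0 < R) (hz : ‖z‖ < 1) :
    HasFDerivAt (phi a R) (((R : ℂ) / (1 + R - ⟪a, z⟫_ℂ) ^ 2) • innerSL ℂ a) z := by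
  have h0 := phi_ne ha hR hz
  have h1 : HasFDerivAt (fun z : E => (1 + R - ⟪a, z⟫_ℂ : ℂ)) (-(innerSL ℂ a)) z :=
    ((innerSL ℂ a).hasFDerivAt (x := z)).const_sub (1 + (R : ℂ))
  have h2 : HasDerivAt (fun w : ℂ => (R : ℂ) / w) (-(R : ℂ) / (1 + R - ⟪a, z⟫_ℂ) ^ 2)
      (1 + R - ⟪a, z⟫_ℂ) := by
    have := (hasDerivAt_inv h0).const_mul (R : ℂ)
    simp only [← div_eq_mul_inv] at this
    refine this.congr_deriv ?_
    field_simp
  have h3 := h2.comp_hasFDerivAt z h1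
  refine h3.congr_fderiv ?_
  ext X
  simp
  ring

theorem phi_diff (ha : ‖a‖ = 1) (hR : 0 < R) : DifferentiableOn ℂ (phi a R) (ball 0 1) :=
  fun z hz => (phi_hasFDerivAt ha hR (mem_ball_zero_iff.mp hz)).differentiableAt.differentiableWithinAt

/-- the centre of the potential of `phi` -/
noncomputable def cen (a : E) (R : ℝ) : E := (((1 + R)⁻¹ : ℝ) : ℂ) • a

theorem cen_norm (ha : ‖a‖ = 1) (hR : 0 < R) : ‖cen a R‖ = (1 + R)⁻¹ := by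
  unfold cen
  rw [norm_smul, ha, mul_one, Complex.norm_real, Real.norm_of_nonneg (by positivity)]

theorem cen_mem (ha : ‖a‖ = 1) (hR : 0 < R) : ‖cen a R‖ < 1 := by
  rw [cen_norm ha hR]
  exact inv_lt_one_of_one_lt₀ (by linarith)

theorem cen_HH (ha : ‖a‖ = 1) (hR : 0 < R) (hz : ‖z‖ < 1) :
    HH z (cen a R) = (1 - ‖z‖ ^ 2) * (R * (2 + R)) / ‖(1 + R - ⟪a, z⟫_ℂ : ℂ)‖ ^ 2 := by
  have h1R : (0 : ℝ) < 1 + R := by linarith
  have e1 : ‖1 - ⟪z, cen a R⟫_ℂ‖ = ‖(1 + R - ⟪a, z⟫_ℂ : ℂ)‖ / (1 + R) := by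
    rw [← Complex.norm_conj, map_sub, map_one, inner_conj_symm]
    unfold cen
    rw [inner_smul_left, Complex.conj_ofReal]
    have e2 : (1 : ℂ) - (((1 + R)⁻¹ : ℝ) : ℂ) * ⟪a, z⟫_ℂ =
        (((1 + R)⁻¹ : ℝ) : ℂ) * (1 + R - ⟪a, z⟫_ℂ) := by
      have : (1 : ℂ) + (R : ℂ) ≠ 0 := by
        have h : ((1 + R : ℝ) : ℂ) ≠ 0 := Complex.ofReal_ne_zero.mpr h1R.ne'
        push_cast at h
        exact h
      push_cast
      field_simp
    rw [e2, norm_mul, Complex.norm_real, Real.norm_of_nonneg (by positivity)]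
    ring
  unfold HH
  rw [e1, cen_norm ha hR]
  have hv := phi_v0 ha hR hz
  field_simp
  ring

/-- the bound of the derivative of `phi` -/
theorem phi_grad (ha : ‖a‖ = 1) (hR : 0 < R) (hz : ‖z‖ < 1) {p : ℝ} (hp : 4 ≤ p) (X : E) :
    ‖fderiv ℂ (phi a R) z X‖ ≤
      2 * (HH z (cen a R) ^ 2) ^ (1 / p) * gau (1 - ‖z‖ ^ 2) z X := by
  rw [(phi_hasFDerivAt ha hR hz).fderiv]
  obtain ⟨v, hv⟩ : ∃ v, v = ‖(1 + R - ⟪a, z⟫_ℂ : ℂ)‖ := ⟨_, rfl⟩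
  have hv0 : 0 < v := by rw [hv]; exact phi_v0 ha hR hz
  have hv1 : 1 - ‖z‖ + R ≤ v := by rw [hv]; exact phi_v1 ha R z
  obtain ⟨t, ht⟩ : ∃ t, t = 1 - ‖z‖ ^ 2 := ⟨_, rfl⟩
  have ht0 : 0 < t := by rw [ht]; nlinarith [norm_nonneg z]
  have htv : t ≤ 2 * v := by rw [ht]; nlinarith [norm_nonneg z]
  have haz : ‖a - z‖ ^ 2 ≤ 2 * v := by
    have e1 : ‖a - z‖ ^ 2 = ‖a‖ ^ 2 - 2 * (⟪a, z⟫_ℂ).re + ‖z‖ ^ 2 := by
      have := norm_sub_sq (𝕜 := ℂ) a z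
      simpa using this
    have e2 : (1 + R - ⟪a, z⟫_ℂ : ℂ).re ≤ v := by rw [hv]; exact Complex.re_le_norm _
    simp only [Complex.sub_re, Complex.add_re, Complex.one_re, Complex.ofReal_re] at e2
    rw [e1, ha]
    nlinarith [norm_nonneg z]
  have haz' : ‖a - z‖ ≤ Real.sqrt (2 * v) := Real.le_sqrt_of_sq_le haz
  have hg : gau t z X = ‖⟪z, X⟫_ℂ‖ / t + ‖X‖ / Real.sqrt t := rfl
  have hst : 0 < Real.sqrt t := Real.sqrt_pos.mpr ht0
  have hs2v : Real.sqrt t ≤ Real.sqrt (2 * v) := Real.sqrt_le_sqrt htv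
  have hX : ‖⟪a, X⟫_ℂ‖ ≤ Real.sqrt (2 * v) * Real.sqrt t * gau t z X := by
    have e1 : ⟪a, X⟫_ℂ = ⟪z, X⟫_ℂ + ⟪a - z, X⟫_ℂ := by rw [inner_sub_left]; ring
    rw [e1]
    refine (norm_add_le _ _).trans ?_
    have e2 : ‖⟪a - z, X⟫_ℂ‖ ≤ Real.sqrt (2 * v) * ‖X‖ :=
      (norm_inner_le_norm _ _).trans (mul_le_mul_of_nonneg_right haz' (norm_nonneg _))
    rw [hg, mul_add]
    apply add_le_add
    · have e3 : ‖⟪z, X⟫_ℂ‖ = Real.sqrt t * Real.sqrt t * (‖⟪z, X⟫_ℂ‖ / t) := by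
        rw [Real.mul_self_sqrt ht0.le]; field_simp
      calc ‖⟪z, X⟫_ℂ‖ = Real.sqrt t * Real.sqrt t * (‖⟪z, X⟫_ℂ‖ / t) := e3
        _ ≤ Real.sqrt (2 * v) * Real.sqrt t * (‖⟪z, X⟫_ℂ‖ / t) := by gcongr
    · refine e2.trans (le_of_eq ?_)
      field_simp
  have hgn : 0 ≤ gau t z X := by rw [hg]; positivity
  obtain ⟨x, hx⟩ : ∃ x, x = R / v := ⟨_, rfl⟩
  obtain ⟨y, hy⟩ : ∃ y, y = t / (2 * v) := ⟨_, rfl⟩
  have hx0 : 0 < x := by rw [hx]; positivity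
  have hy0 : 0 < y := by rw [hy]; positivity
  have hx1 : x ≤ 1 := by
    rw [hx, div_le_one hv0]
    have := hz
    linarith
  have hy1 : y ≤ 1 := by rw [hy, div_le_one (by positivity)]; exact htv
  have hHH : 4 * (x * y) ≤ HH z (cen a R) := by
    rw [cen_HH ha hR hz, ← hv, ← ht, hx, hy, le_div_iff₀ (by positivity)]
    have : 4 * (R / v * (t / (2 * v))) * v ^ 2 = 2 * (t * R) := by field_simp; ring
    rw [this]
    nlinarith [mul_pos ht0 hR, mul_pos (mul_pos ht0 hR) hR]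
  have hp0 : 0 < p := by linarith
  have h3 : x * y ^ (1 / 2 : ℝ) ≤ (HH z (cen a R) ^ 2) ^ (1 / p) := by
    have e1 : x ^ (1 : ℝ) ≤ x ^ (2 / p) := by
      apply Real.rpow_le_rpow_of_exponent_ge hx0 hx1
      rw [div_le_one hp0]; linarith
    have e2 : y ^ (1 / 2 : ℝ) ≤ y ^ (2 / p) := by
      apply Real.rpow_le_rpow_of_exponent_ge hy0 hy1
      rw [div_le_div_iff₀ hp0 (by norm_num)]; linarith
    have e3 : x ^ (2 / p) * y ^ (2 / p) = ((x * y) ^ 2) ^ (1 / p) := by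
      rw [← Real.mul_rpow hx0.le hy0.le, ← Real.rpow_natCast (x * y) 2, ← Real.rpow_mul (by positivity)]
      congr 1
      push_cast
      ring
    rw [Real.rpow_one] at e1
    calc x * y ^ (1 / 2 : ℝ) ≤ x ^ (2 / p) * y ^ (2 / p) := by gcongr
      _ = ((x * y) ^ 2) ^ (1 / p) := e3
      _ ≤ (HH z (cen a R) ^ 2) ^ (1 / p) := by
          apply Real.rpow_le_rpow (by positivity) _ (by positivity)
          apply pow_le_pow_left₀ (by positivity)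
          nlinarith [mul_pos hx0 hy0]
  have h4 : R / v ^ 2 * (Real.sqrt (2 * v) * Real.sqrt t) = 2 * (x * y ^ (1 / 2 : ℝ)) := by
    rw [← Real.sqrt_eq_rpow, hx, hy, Real.sqrt_div ht0.le]
    have e1 : Real.sqrt (2 * v) * Real.sqrt (2 * v) = 2 * v := Real.mul_self_sqrt (by positivity)
    have e2 : 0 < Real.sqrt (2 * v) := Real.sqrt_pos.mpr (by positivity)
    rw [div_mul_div_comm, ← mul_div_assoc, div_mul_eq_mul_div, div_eq_div_iff (by positivity) (by positivity)]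
    calc R * (Real.sqrt (2 * v) * Real.sqrt t) * (v * Real.sqrt (2 * v)) =
          R * Real.sqrt t * v * (Real.sqrt (2 * v) * Real.sqrt (2 * v)) := by ring
      _ = _ := by rw [e1]; ring
  rw [← ht]
  have e5 : (((R : ℂ) / (1 + R - ⟪a, z⟫_ℂ) ^ 2) • innerSL ℂ a) X =
      (R : ℂ) / (1 + R - ⟪a, z⟫_ℂ) ^ 2 * ⟪a, X⟫_ℂ := by simp
  rw [e5, norm_mul, norm_div, norm_pow, ← hv, Complex.norm_real, Real.norm_of_nonneg hR.le]
  calc R / v ^ 2 * ‖⟪a, X⟫_ℂ‖ ≤ R / v ^ 2 * (Real.sqrt (2 * v) * Real.sqrt t * gau t z X) := by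
        gcongr
    _ = 2 * (x * y ^ (1 / 2 : ℝ)) * gau t z X := by rw [← h4]; ring
    _ ≤ 2 * (HH z (cen a R) ^ 2) ^ (1 / p) * gau t z X := by gcongr

end

section meas

variable [FiniteDimensional ℂ E] [MeasurableSpace E] [BorelSpace E]

/-- the Dirac measure satisfies the Carleson condition -/
theorem carl_dirac {x : E} (hx : ‖x‖ < 1) : PT.Carl (Measure.dirac x) 1 := by
  refine ⟨zero_le_one, ?_, ?_⟩
  · rw [Measure.dirac_apply' _ measurableSet_ball.compl, Set.indicator_of_notMem]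
    simpa using hx
  · intro w hw
    rw [lintegral_dirac]
    exact ENNReal.ofReal_le_ofReal (HH_le_one (mem_ball_zero_iff.mp hw) hx)

/-- the potential of the Dirac measure -/
noncomputable def dir (x : E) : Ptl E := ofM (Measure.dirac x)

theorem dir_EE (x y : E) : EE (dir x) y = HH y x ^ 2 := by
  change ∫ ξ, HH y ξ ^ 2 ∂(Measure.dirac x) = _
  rw [integral_dirac]

theorem Carl.dir {x : E} (hx : ‖x‖ < 1) : Carl (MX.dir x) 1 := Carl.ofM (carl_dirac hx)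

end meas

end Pool.Agent.MPca0fc2.MX
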