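import Mathlib
import Pool.Agent.Lib.MP_ca0fc2_an.SLOsc
import Pool.Agent.Lib.MP_ca0fc2_an.Mg.G049
import Pool.Agent.Lib.MP_ca0fc2_an.Holo

set_option autoImplicit false

open Metric Set Filter Topology MeasureTheory
open scoped InnerProductSpace ComplexConjugate

namespace Pool.Agent.MPca0fc2.VL

open Pool.Agent.MPca0fc2.SD
open Pool.Agent.MPca0fc2.SL
open Pool.Agent.Lib.MP_ca0fc2_an

theorem two_rpow_le : (2 : ℝ) ^ (1 / 8 : ℝ) ≤ 11 / 10 := by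
  have h : (2 : ℝ) ≤ (11 / 10) ^ (8 : ℝ) := by
    rw [show (8 : ℝ) = ((8 : ℕ) : ℝ) by norm_num, Real.rpow_natCast]; norm_num
  calc (2 : ℝ) ^ (1 / 8 : ℝ) ≤ ((11 / 10 : ℝ) ^ (8 : ℝ)) ^ (1 / 8 : ℝ) :=
        Real.rpow_le_rpow (by norm_num) h (by norm_num)
    _ = 11 / 10 := by
        rw [← Real.rpow_mul (by norm_num)]
        norm_num

/-- a modulus of slow variation -/
def Mod (ω : ℝ → ℝ) : Prop :=
  (∀ t ∈ Ioc (0 : ℝ) 1, 0 < ω t) ∧ ∀ s ∈ Ioc (0 : ℝ) 1, ∀ t ∈ Ioc (0 : ℝ) 1, s ≤ t →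
    ω s ≤ ω t * (t / s) ^ (1 / 8 : ℝ) ∧ ω t ≤ ω s * (t / s) ^ (1 / 8 : ℝ)

theorem half_mem (k : ℕ) : ((1 : ℝ) / 2) ^ k ∈ Ioc (0 : ℝ) 1 :=
  ⟨half_pow_pos k, half_pow_le_one k⟩

theorem Mod.slow {ω : ℝ → ℝ} (h : Mod ω) : Slow fun k => ω ((1 / 2) ^ k) := by
  have h1 : ∀ k : ℕ, ((1 : ℝ) / 2) ^ k / (1 / 2) ^ (k + 1) = 2 := by
    intro k
    rw [pow_succ]
    have := half_pow_pos k
    field_simp
  have h2 : ∀ k : ℕ, ((1 : ℝ) / 2) ^ (k + 1) ≤ (1 / 2) ^ k := by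
    intro k
    rw [pow_succ]
    have := half_pow_pos k
    linarith
  refine ⟨fun k => (h.1 _ (half_mem k)).le, fun k => ?_, fun k => ?_⟩
  · have h3 := (h.2 _ (half_mem (k + 1)) _ (half_mem k) (h2 k)).1
    rw [h1] at h3
    have := (h.1 _ (half_mem k)).le
    have := mul_le_mul_of_nonneg_left two_rpow_le this
    linarith
  · have h3 := (h.2 _ (half_mem (k + 1)) _ (half_mem k) (h2 k)).2
    rw [h1] at h3
    have := (h.1 _ (half_mem (k + 1))).le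
    have := mul_le_mul_of_nonneg_left two_rpow_le this
    linarith

theorem Mod.grad {E : Type*} [NormedAddCommGroup E] [InnerProductSpace ℂ E] {ω : ℝ → ℝ}
    (h : Mod ω) {g : E → ℂ} (hg : DifferentiableOn ℂ g (ball 0 1))
    (hgr : ∀ z ∈ ball (0 : E) 1, (1 - ‖z‖) * ‖fderiv ℂ g z‖ ≤ ω (1 - ‖z‖)) :
    Grad g fun k => ω ((1 / 2) ^ k) := by
  refine ⟨hg, fun k z hz => ?_⟩
  have hz1 : ‖z‖ < 1 := hz.trans_lt (rr_lt_one k)
  have h1 := hgr z (mem_ball_zero_iff.mpr hz1)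
  have hs := half_pow_pos k
  obtain ⟨t, ht⟩ : ∃ t, t = 1 - ‖z‖ := ⟨_, rfl⟩
  rw [← ht] at h1
  have ht0 : 0 < t := by rw [ht]; linarith
  have ht1 : t ≤ 1 := by rw [ht]; linarith [norm_nonneg z]
  have hst : (1 / 2 : ℝ) ^ k ≤ t := by rw [ht]; unfold rr at hz; linarith
  obtain ⟨s, hs'⟩ : ∃ s : ℝ, s = (1 / 2) ^ k := ⟨_, rfl⟩
  rw [← hs'] at hst hs ⊢
  have h2 := (h.2 s ⟨hs, hst.trans ht1⟩ t ⟨ht0, ht1⟩ hst).2
  have h3 : (t / s) ^ (1 / 8 : ℝ) ≤ t / s := by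
    have h4 : (1 : ℝ) ≤ t / s := by rw [le_div_iff₀ hs]; linarith
    calc (t / s) ^ (1 / 8 : ℝ) ≤ (t / s) ^ (1 : ℝ) := Real.rpow_le_rpow_of_exponent_le h4 (by norm_num)
      _ = t / s := Real.rpow_one _
  have h5 : 0 < ω s := h.1 s ⟨hs, hst.trans ht1⟩
  have h6 : t * ‖fderiv ℂ g z‖ ≤ ω s * (t / s) := h1.trans (h2.trans (by gcongr))
  have h7 : ω s * (t / s) = t * (ω s / s) := by field_simp
  rw [h7] at h6
  have h8 : ‖fderiv ℂ g z‖ ≤ ω s / s := le_of_mul_le_mul_left h6 ht0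
  rwa [le_div_iff₀ hs] at h8

end Pool.Agent.MPca0fc2.VL

namespace Pool.Agent.MPca0fc2.VP

open Pool.Agent.MPca0fc2.SD
open Pool.Agent.MPca0fc2.SL
open Pool.Agent.Lib.MP_ca0fc2_an

variable {E : Type*} [NormedAddCommGroup E] [InnerProductSpace ℂ E]

theorem pre_cmul {f : E → ℂ} {e : ℕ → ℝ} (hf : Grad f e) {c : ℂ} (hc : ‖c‖ ≤ 1) :
    Grad (fun z => c * f z) e := by
  refine ⟨hf.hol.const_mul c, fun k z hz => ?_⟩
  have hz1 : z ∈ ball (0 : E) 1 := mem_ball_zero_iff.mpr (hz.trans_lt (rr_lt_one k))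
  have h1 := hf.grad k z hz
  rw [fderiv_const_mul (hf.hol.differentiableAt (isOpen_ball.mem_nhds hz1)), norm_smul]
  have h4 := half_pow_pos k
  have h5 := norm_nonneg (fderiv ℂ f z)
  calc ‖c‖ * ‖fderiv ℂ f z‖ * (1 / 2) ^ k ≤ 1 * ‖fderiv ℂ f z‖ * (1 / 2) ^ k := by gcongr
    _ ≤ _ := by rw [one_mul]; exact h1

/-- the oscillation of a scalar function -/
theorem osc_pt {g : E → ℂ} {e : ℕ → ℝ} (he : Slow e) (hg : Grad g e) {j : ℕ} (hj : 1 ≤ j) {A : ℝ}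
    (hA : 0 ≤ A) {p p' : E} (hp : ‖p‖ ≤ rr j) (hp' : ‖p'‖ ≤ rr j)
    (hpp : ‖1 - ⟪p, p'⟫_ℂ‖ ≤ A * (1 / 2) ^ j) : ‖g p - g p'‖ ≤ 2100 * (A + 3) * e j := by
  have hosc : Osc g (fun k => 3 * e k) := by
    apply Osc.of_grad hg.hol _ he
    intro v hv
    have h1 : (fun z => ⟪v, g z⟫_ℂ) = fun z => (starRingEnd ℂ) v * g z := by
      funext z
      rw [RCLike.inner_apply, mul_comm]
    rw [h1]
    exact pre_cmul hg (by rw [RCLike.norm_conj]; exact hv)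
  obtain ⟨q, hq⟩ : ∃ q : ℝ, q = (1 / 2) ^ j := ⟨_, rfl⟩
  have hq0 : 0 < q := by rw [hq]; exact half_pow_pos j
  have hq1 : q ≤ 1 / 2 := by
    rw [hq]
    calc (1 / 2 : ℝ) ^ j ≤ (1 / 2) ^ 1 := pow_le_pow_of_le_one (by norm_num) (by norm_num) hj
      _ = 1 / 2 := pow_one _
  obtain ⟨s, hs⟩ : ∃ s : ℝ, s = rr j * RR j := ⟨_, rfl⟩
  have hrr : rr j = 1 - q := by rw [hq]; rfl
  have hRR : RR j = 1 + q / 16 := by rw [hq]; rfl
  have hs1 : 1 - q ≤ s := by rw [hs, hrr, hRR]; nlinarith only [hq0, hq1]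
  have hs2 : s ≤ 1 := by rw [hs, hrr, hRR]; nlinarith only [hq0, hq1]
  have hs0 : 0 < s := by linarith
  have hsc : (s : ℂ) ≠ 0 := by exact_mod_cast hs0.ne'
  have hsm : ∀ u : E, ‖u‖ ≤ rr j → ‖((s⁻¹ : ℝ) : ℂ) • u‖ ≤ 1 := by
    intro u hu
    rw [norm_smul, Complex.norm_real, Real.norm_of_nonneg (by positivity), inv_mul_le_iff₀ hs0,
      mul_one]
    rw [hrr] at hu; linarith
  have h1 := hosc.o2 j j (by omega) (((s⁻¹ : ℝ) : ℂ) • p) (((s⁻¹ : ℝ) : ℂ) • p') (hsm p hp)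
    (hsm p' hp')
  rw [← hs, smul_smul, smul_smul, ← Complex.ofReal_mul, mul_inv_cancel₀ hs0.ne',
    Complex.ofReal_one, one_smul, one_smul] at h1
  refine h1.trans ?_
  have hin : ⟪((s⁻¹ : ℝ) : ℂ) • p, ((s⁻¹ : ℝ) : ℂ) • p'⟫_ℂ = ((s⁻¹ ^ 2 : ℝ) : ℂ) * ⟪p, p'⟫_ℂ := by
    rw [inner_smul_left, inner_smul_right, Complex.conj_ofReal]
    push_cast
    ring
  have h2 : ‖1 - ⟪((s⁻¹ : ℝ) : ℂ) • p, ((s⁻¹ : ℝ) : ℂ) • p'⟫_ℂ‖ ≤ (A + 2) * q := by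
    rw [hin]
    have e1 : 1 - ((s⁻¹ ^ 2 : ℝ) : ℂ) * ⟪p, p'⟫_ℂ = (1 - ⟪p, p'⟫_ℂ) -
        ((s⁻¹ ^ 2 - 1 : ℝ) : ℂ) * ⟪p, p'⟫_ℂ := by
      push_cast; ring
    rw [e1]
    refine (norm_sub_le _ _).trans ?_
    rw [norm_mul, Complex.norm_real]
    have h3 : 0 ≤ s⁻¹ ^ 2 - 1 := by
      have : 1 ≤ s⁻¹ := (one_le_inv₀ hs0).mpr hs2
      nlinarith only [this]
    rw [Real.norm_of_nonneg h3]
    have h4 : ‖⟪p, p'⟫_ℂ‖ ≤ (1 - q) * (1 - q) := by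
      refine (norm_inner_le_norm _ _).trans ?_
      rw [hrr] at hp hp'
      exact mul_le_mul hp hp' (norm_nonneg _) (by linarith)
    have h5 : (s⁻¹ ^ 2 - 1) * ‖⟪p, p'⟫_ℂ‖ ≤ 2 * q := by
      have h6 : (1 - q) * (1 - q) ≤ s ^ 2 := by nlinarith only [hs1, hq0, hq1]
      calc (s⁻¹ ^ 2 - 1) * ‖⟪p, p'⟫_ℂ‖ ≤ (s⁻¹ ^ 2 - 1) * s ^ 2 := by
            apply mul_le_mul_of_nonneg_left _ h3
            linarith
        _ = 1 - s ^ 2 := by field_simp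
        _ ≤ 2 * q := by nlinarith only [h6, sq_nonneg q]
    rw [← hq] at hpp
    linarith
  have h3 : hx (‖1 - ⟪((s⁻¹ : ℝ) : ℂ) • p, ((s⁻¹ : ℝ) : ℂ) • p'⟫_ℂ‖ + (1 / 2) ^ j) j ≤ A + 3 := by
    rw [← hq]
    have hX0 : 0 < ‖1 - ⟪((s⁻¹ : ℝ) : ℂ) • p, ((s⁻¹ : ℝ) : ℂ) • p'⟫_ℂ‖ + q := by
      have := norm_nonneg (1 - ⟪((s⁻¹ : ℝ) : ℂ) • p, ((s⁻¹ : ℝ) : ℂ) • p'⟫_ℂ)
      linarith
    rw [hx_eq hX0, ← hq]
    have h4 : (‖1 - ⟪((s⁻¹ : ℝ) : ℂ) • p, ((s⁻¹ : ℝ) : ℂ) • p'⟫_ℂ‖ + q) / q ≤ A + 3 := by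
      rw [div_le_iff₀ hq0]
      linarith
    calc _ ≤ (A + 3) ^ (1 / 4 : ℝ) := Real.rpow_le_rpow (by positivity) h4 (by norm_num)
      _ ≤ (A + 3) ^ (1 : ℝ) := Real.rpow_le_rpow_of_exponent_le (by linarith) (by norm_num)
      _ = A + 3 := Real.rpow_one _
  have he0 := he.nonneg j
  calc 700 * (3 * e j * hx (‖1 - ⟪((s⁻¹ : ℝ) : ℂ) • p, ((s⁻¹ : ℝ) : ℂ) • p'⟫_ℂ‖ + (1 / 2) ^ j) j)
      ≤ 700 * (3 * e j * (A + 3)) := by gcongr
    _ = _ := by ring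

end Pool.Agent.MPca0fc2.VP

namespace Pool.Agent.MPca0fc2.QS

open Pool.Agent.MPca0fc2.PT
open Pool.Agent.MPca0fc2.VL (Mod half_mem)
open Pool.Agent.Lib.MP_ca0fc2_an

variable {E : Type*} [NormedAddCommGroup E] [InnerProductSpace ℂ E]

/-- monotonicity of `ω` up to powers -/
theorem om_le {ω : ℝ → ℝ} (hω : Mod ω) {s t A : ℝ} (hs : s ∈ Ioc (0 : ℝ) 1)
    (ht : t ∈ Ioc (0 : ℝ) 1) (hA : 1 ≤ A) (h1 : s ≤ A * t) (h2 : t ≤ A * s) :
    ω s ≤ ω t * A ^ (1 / 8 : ℝ) := by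
  have h0 := (hω.1 t ht).le
  rcases le_total s t with h | h
  · refine (hω.2 s hs t ht h).1.trans ?_
    apply mul_le_mul_of_nonneg_left _ h0
    apply Real.rpow_le_rpow (div_nonneg ht.1.le hs.1.le) _ (by norm_num)
    rwa [div_le_iff₀ hs.1]
  · refine (hω.2 t ht s hs h).2.trans ?_
    apply mul_le_mul_of_nonneg_left _ h0
    apply Real.rpow_le_rpow (div_nonneg hs.1.le ht.1.le) _ (by norm_num)
    rwa [div_le_iff₀ ht.1]

/-- the anisotropic gradient -/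
theorem gu_of {ω : ℝ → ℝ} (hω : Mod ω) {u : E → ℂ} (hu : DifferentiableOn ℂ u (ball 0 1))
    (hgr : ∀ z ∈ ball (0 : E) 1, (1 - ‖z‖) * ‖fderiv ℂ u z‖ ≤ ω (1 - ‖z‖)) {y : E} (hy : ‖y‖ < 1)
    (X : E) : ‖fderiv ℂ u y X‖ ≤ 10 ^ 7 * ω (1 - ‖y‖ ^ 2) * gau (1 - ‖y‖ ^ 2) y X := by
  obtain ⟨h, hh⟩ : ∃ h, h = 1 - ‖y‖ ^ 2 := ⟨_, rfl⟩
  have hy0 := norm_nonneg y
  have hh0 : 0 < h := by rw [hh]; nlinarith
  have hh1 : h ≤ 1 := by rw [hh]; nlinarith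
  obtain ⟨j, hj1, hj2⟩ := exists_nat_pow_near_of_lt_one (show 0 < h / 12 by positivity)
    (by linarith) (y := (1 / 2 : ℝ)) (by norm_num) (by norm_num)
  have hjj : (1 / 2 : ℝ) ^ (j + 1) * 2 = (1 / 2) ^ j := by rw [pow_succ]; ring
  obtain ⟨q, hq⟩ : ∃ q : ℝ, q = (1 / 2) ^ (j + 1) := ⟨_, rfl⟩
  rw [← hq] at hj1 hjj
  have hq0 : 0 < q := by rw [hq]; positivity
  have hωh := (hω.1 h ⟨hh0, hh1⟩).le
  have hωj : ω q ≤ 2 * ω h := by
    have h1 := om_le hω (s := q) (t := h) (A := 24) ⟨hq0, by linarith⟩ ⟨hh0, hh1⟩ (by norm_num)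
      (by linarith) (by linarith)
    have h2 : (24 : ℝ) ^ (1 / 8 : ℝ) ≤ 2 := by
      calc (24 : ℝ) ^ (1 / 8 : ℝ) ≤ (256 : ℝ) ^ (1 / 8 : ℝ) :=
            Real.rpow_le_rpow (by norm_num) (by norm_num) (by norm_num)
        _ = 2 := by
            rw [show (256 : ℝ) = 2 ^ (8 : ℝ) by norm_num, ← Real.rpow_mul (by norm_num)]
            norm_num
    nlinarith
  have hslow := hω.slow
  have hgrad := hω.grad hu hgr
  have hbd : ∀ v ∈ ball (0 : E) (1 / 2), ‖u (gg y v) - u y‖ ≤ 214200 * ω h := by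
    intro v hv
    rw [mem_ball_zero_iff] at hv
    have hv1 : ‖v‖ < 1 := by linarith
    have hv0 := norm_nonneg v
    have hw := gg_lt hy hv1
    have hD := geo_den_pos hy hv1.le
    have hDn : ‖⟪y, v⟫_ℂ‖ ≤ 1 / 2 := by
      refine (norm_inner_le_norm (𝕜 := ℂ) y v).trans ?_
      nlinarith
    have hD1 : 1 / 2 ≤ ‖1 + ⟪y, v⟫_ℂ‖ := by
      have h2 := norm_sub_norm_le (1 : ℂ) (-⟪y, v⟫_ℂ)
      rw [norm_neg, norm_one, sub_neg_eq_add] at h2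
      linarith
    have hD2 : ‖1 + ⟪y, v⟫_ℂ‖ ≤ 3 / 2 := by
      refine (norm_add_le _ _).trans ?_
      rw [norm_one]
      linarith
    have e1 := norm_gg hy hv1.le
    rw [← hh] at e1
    have e2 : h / 3 ≤ 1 - ‖gg y v‖ ^ 2 := by
      rw [e1, le_div_iff₀ (by positivity)]
      have h3 : ‖1 + ⟪y, v⟫_ℂ‖ ^ 2 ≤ 9 / 4 := by nlinarith
      have h4 : 3 / 4 ≤ 1 - ‖v‖ ^ 2 := by nlinarith
      calc h / 3 * ‖1 + ⟪y, v⟫_ℂ‖ ^ 2 ≤ h / 3 * (9 / 4) := by gcongr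
        _ = h * (3 / 4) := by ring
        _ ≤ _ := by gcongr
    have e3 : ‖1 - ⟪gg y v, y⟫_ℂ‖ ≤ 2 * h := by
      have h1 : 1 - ⟪gg y v, y⟫_ℂ = (starRingEnd ℂ) (1 - ⟪y, gg y v⟫_ℂ) := by
        rw [map_sub, map_one, inner_conj_symm]
      rw [h1, inner_gg_self hy hv1.le, RCLike.norm_conj, norm_div, Complex.norm_real, ← hh,
        Real.norm_of_nonneg hh0.le, div_le_iff₀ hD]
      nlinarith
    have hrr : SD.rr (j + 1) = 1 - q := by rw [hq]; rfl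
    have h5 := VP.osc_pt hslow hgrad (j := j + 1) (by omega) (A := 48) (by norm_num)
      (p := gg y v) (p' := y)
      (by rw [hrr]; nlinarith [norm_nonneg (gg y v)])
      (by rw [hrr]; nlinarith) (by rw [← hq]; linarith)
    rw [← hq] at h5
    calc _ ≤ _ := h5
      _ ≤ 2100 * (48 + 3) * (2 * ω h) := by gcongr
      _ = _ := by ring
  have hsub : ball (0 : E) (1 / 2) ⊆ ball 0 1 := ball_subset_ball (by norm_num)
  have hdiff : DifferentiableOn ℂ (fun v => u (gg y v)) (ball 0 (1 / 2)) := by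
    intro v hv
    have hv1 : ‖v‖ < 1 := mem_ball_zero_iff.mp (hsub hv)
    have h1 : DifferentiableAt ℂ u (gg y v) :=
      hu.differentiableAt (isOpen_ball.mem_nhds (by rw [mem_ball_zero_iff]; exact gg_lt hy hv1))
    exact (h1.comp v (hasFDerivAt_gg hy hv1.le).differentiableAt).differentiableWithinAt
  obtain ⟨v, hv1, hv2⟩ := gg'_zero_surj hy X
  have hfd := Pool.Agent.Lib.MP_ca0fc2_an.norm_fderiv_apply_le
    (f := fun v => u (gg y v) - u y) (z₀ := (0 : E)) (r := 1 / 2) (by norm_num)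
    (hdiff.sub_const _) hbd v
  rw [fderiv_sub_const] at hfd
  have hc : HasFDerivAt (fun v => u (gg y v)) ((fderiv ℂ u y).comp (gg' y 0)) 0 := by
    have h1 : HasFDerivAt u (fderiv ℂ u y) (gg y 0) := by
      rw [gg_zero]
      exact (hu.differentiableAt (isOpen_ball.mem_nhds (by rwa [mem_ball_zero_iff]))).hasFDerivAt
    exact h1.comp 0 (hasFDerivAt_gg hy (by simp))
  rw [hc.fderiv, ContinuousLinearMap.comp_apply, hv1] at hfd
  rw [← hh] at hv2 ⊢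
  have hg0 : 0 ≤ gau h y X := by unfold gau; positivity
  calc ‖fderiv ℂ u y X‖ ≤ 2 * (214200 * ω h) / (1 / 2) * ‖v‖ := hfd
    _ ≤ 2 * (214200 * ω h) / (1 / 2) * (3 * gau h y X) := by gcongr
    _ = 2570400 * (ω h * gau h y X) := by ring
    _ ≤ 10 ^ 7 * (ω h * gau h y X) := by
        apply mul_le_mul_of_nonneg_right (by norm_num) (by positivity)
    _ = _ := by ring

theorem gau_smul_le {d : ℝ} (hd : 0 < d) {r : ℝ} (hr : 0 ≤ r) (hr1 : r ≤ 1) (w v : E) :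
    gau d ((r : ℂ) • w) ((r : ℂ) • v) ≤ gau d w v := by
  unfold gau
  rw [inner_smul_left, inner_smul_right, Complex.conj_ofReal, norm_mul, norm_mul, norm_smul,
    Complex.norm_real, Real.norm_of_nonneg hr]
  have h1 : r * (r * ‖⟪w, v⟫_ℂ‖) ≤ ‖⟪w, v⟫_ℂ‖ := by
    have := norm_nonneg ⟪w, v⟫_ℂ
    nlinarith [mul_nonneg hr this]
  have h2 : r * ‖v‖ ≤ ‖v‖ := by nlinarith [norm_nonneg v]
  have hs : 0 < Real.sqrt d := Real.sqrt_pos.mpr hd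
  gcongr

/-- the Cauchy bound of the gradient -/
theorem grad_cauchy {f : E → ℂ} (hf : DifferentiableOn ℂ f (ball 0 1)) {M : ℝ} (hM : 0 ≤ M)
    (hfM : ∀ z ∈ ball (0 : E) 1, ‖f z‖ ≤ M) {z : E} (hz : z ∈ ball (0 : E) 1) :
    (1 - ‖z‖) * ‖fderiv ℂ f z‖ ≤ 2 * M := by
  have hz1 := mem_ball_zero_iff.mp hz
  have hr : 0 < 1 - ‖z‖ := by linarith
  have hsub : ball z (1 - ‖z‖) ⊆ ball (0 : E) 1 := by
    intro w hw
    rw [mem_ball, dist_eq_norm] at hw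
    rw [mem_ball_zero_iff]
    calc ‖w‖ = ‖(w - z) + z‖ := by rw [sub_add_cancel]
      _ ≤ ‖w - z‖ + ‖z‖ := norm_add_le _ _
      _ < 1 := by linarith
  have h1 : ‖fderiv ℂ f z‖ ≤ 2 * M / (1 - ‖z‖) := by
    apply ContinuousLinearMap.opNorm_le_bound _ (by positivity)
    intro v
    exact norm_fderiv_apply_le hr (hf.mono hsub) (fun w hw => hfM w (hsub hw)) v
  calc (1 - ‖z‖) * ‖fderiv ℂ f z‖ ≤ (1 - ‖z‖) * (2 * M / (1 - ‖z‖)) := by gcongr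
    _ = 2 * M := by field_simp

/-- the cells of the data but one are solvable -/
theorem data_cells {N : ℕ} {δ ρ : ℝ} (hρ : 0 < ρ) (hρδ : (9 * N + 1) * ρ ^ 2 ≤ δ)
    {F : Fin (N + 1) → E → ℂ} (hF : ∀ j, DifferentiableOn ℂ (F j) (ball 0 1))
    (hFδ : ∀ z ∈ ball (0 : E) 1, δ ≤ ∑ j, ‖F j z‖ ^ 2) (c : Fin N → ℂ) :
    ∃ s : E → Fin (N + 1) → ℂ,
      DifferentiableOn ℂ s {z | z ∈ ball (0 : E) 1 ∧ ∀ j : Fin N, ‖F j.succ z - c j‖ < ρ} ∧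
      (∀ z ∈ ball (0 : E) 1, (∀ j : Fin N, ‖F j.succ z - c j‖ < ρ) → ‖s z‖ ≤ 1 / ρ) ∧
      ∀ z ∈ ball (0 : E) 1, (∀ j : Fin N, ‖F j.succ z - c j‖ < ρ) → ∑ l, F l z * s z l = 1 := by
  classical
  -- it is enough to find an index at which the function is large
  suffices h : ∃ i : Fin (N + 1), ∀ z ∈ ball (0 : E) 1, (∀ j : Fin N, ‖F j.succ z - c j‖ < ρ) →
      ρ ≤ ‖F i z‖ by
    obtain ⟨i, hi⟩ := h
    refine ⟨fun z => Pi.single i (F i z)⁻¹, ?_, ?_, ?_⟩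
    · rw [differentiableOn_pi]
      intro l
      by_cases hl : l = i
      · subst hl
        simp only [Pi.single_eq_same]
        apply ((hF l).mono fun z hz => hz.1).inv
        intro z hz
        have := hi z hz.1 hz.2
        exact norm_pos_iff.mp (by linarith)
      · have e : (fun z => (Pi.single i (F i z)⁻¹ : Fin (N + 1) → ℂ) l) = fun _ => 0 :=
          funext fun z => Pi.single_eq_of_ne hl _
        rw [e]
        exact differentiableOn_const _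
    · intro z hz hc
      have h1 := hi z hz hc
      rw [pi_norm_le_iff_of_nonneg (by positivity)]
      intro l
      simp only
      by_cases hl : l = i
      · subst hl
        rw [Pi.single_eq_same, norm_inv, one_div]
        exact inv_anti₀ hρ h1
      · rw [Pi.single_eq_of_ne hl, norm_zero]
        positivity
    · intro z hz hc
      have h1 := hi z hz hc
      have h2 : F i z ≠ 0 := norm_pos_iff.mp (by linarith)
      simp only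
      rw [Finset.sum_eq_single i]
      · rw [Pi.single_eq_same, mul_inv_cancel₀ h2]
      · intro l _ hl
        rw [Pi.single_eq_of_ne hl, mul_zero]
      · intro h; exact absurd (Finset.mem_univ i) h
  by_cases hbig : ∃ j, 2 * ρ ≤ ‖c j‖
  · obtain ⟨j, hj⟩ := hbig
    refine ⟨j.succ, fun z _ hc => ?_⟩
    have h1 := hc j
    have h2 := norm_sub_norm_le (c j) (c j - F j.succ z)
    rw [sub_sub_cancel] at h2
    rw [norm_sub_rev] at h1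
    linarith
  · push Not at hbig
    refine ⟨0, fun z hz hc => ?_⟩
    have h1 := hFδ z hz
    rw [Fin.sum_univ_succ] at h1
    have h2 : ∑ j : Fin N, ‖F j.succ z‖ ^ 2 ≤ ∑ _j : Fin N, 9 * ρ ^ 2 := by
      apply Finset.sum_le_sum
      intro j _
      have h3 := hc j
      have h4 := hbig j
      have h5 : ‖F j.succ z‖ ≤ 3 * ρ := by
        calc ‖F j.succ z‖ = ‖(F j.succ z - c j) + c j‖ := by rw [sub_add_cancel]
          _ ≤ ‖F j.succ z - c j‖ + ‖c j‖ := norm_add_le _ _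
          _ ≤ 3 * ρ := by linarith
      have h6 := norm_nonneg (F j.succ z)
      nlinarith
    have h3 : ∑ _j : Fin N, 9 * ρ ^ 2 = 9 * N * ρ ^ 2 := by
      rw [Finset.sum_const, Finset.card_univ, Fintype.card_fin, nsmul_eq_mul]; ring
    have h4 : ρ ^ 2 ≤ ‖F 0 z‖ ^ 2 := by
      have h5 : (9 * N + 1) * ρ ^ 2 = 9 * N * ρ ^ 2 + ρ ^ 2 := by ring
      linarith
    exact le_of_pow_le_pow_left₀ two_ne_zero (norm_nonneg _) h4

end Pool.Agent.MPca0fc2.QS
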