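import Mathlib
import Pool.Agent.Lib.MP_ca0fc2_an.PTEd
import Pool.Agent.Lib.MP_ca0fc2_an.MXBase

set_option autoImplicit false

open Metric Set MeasureTheory Filter Topology
open scoped InnerProductSpace ENNReal

namespace Pool.Agent.MPca0fc2.MX

open Pool.Agent.MPca0fc2.PT

/-- the profile -/
noncomputable def ph (x : ℝ) : ℝ := x ^ 2 / (1 + x ^ 4)

theorem ph_nonneg (x : ℝ) : 0 ≤ ph x := by unfold ph; positivity

theorem ph_le (x : ℝ) : ph x ≤ 1 := by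
  unfold ph
  rw [div_le_one (by positivity)]
  nlinarith [sq_nonneg (x ^ 2 - 1)]

theorem ph_smooth : ContDiff ℝ 2 ph := by
  unfold ph
  refine ContDiff.div (by fun_prop) (by fun_prop) fun x => ?_
  positivity

theorem ph_deriv (x : ℝ) : HasDerivAt ph ((2 * x - 2 * x ^ 5) / (1 + x ^ 4) ^ 2) x := by
  have h0 : (1 : ℝ) + x ^ 4 ≠ 0 := by positivity
  have h1 : HasDerivAt (fun x : ℝ => x ^ 2) (2 * x) x := by
    have := hasDerivAt_pow 2 x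
    simpa using this
  have h2 : HasDerivAt (fun x : ℝ => 1 + x ^ 4) (4 * x ^ 3) x := by
    have := (hasDerivAt_pow 4 x).const_add 1
    simpa using this
  have h3 := h1.div h2 h0
  refine h3.congr_deriv ?_
  congr 1
  ring

theorem ph_deriv_le {x : ℝ} (hx : 0 ≤ x) :
    |(2 * x - 2 * x ^ 5) / (1 + x ^ 4) ^ 2| * x ≤ 2 * ph x := by
  unfold ph
  rw [abs_div, abs_of_pos (show (0 : ℝ) < (1 + x ^ 4) ^ 2 by positivity), div_mul_eq_mul_div,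
    ← mul_div_assoc, div_le_div_iff₀ (by positivity) (by positivity)]
  have h1 : |2 * x - 2 * x ^ 5| ≤ 2 * x * (1 + x ^ 4) := by
    rw [abs_le]
    have : 0 ≤ x ^ 5 := by positivity
    constructor <;> nlinarith
  calc |2 * x - 2 * x ^ 5| * x * (1 + x ^ 4) ≤ 2 * x * (1 + x ^ 4) * x * (1 + x ^ 4) := by gcongr
    _ = 2 * x ^ 2 * (1 + x ^ 4) ^ 2 := by ring

theorem ph_cmp {a b h : ℝ} (ha : 0 < a) (hb : 0 < b) (h0 : 0 ≤ h) (h1 : h * b ≤ 4 * a)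
    (h2 : h * a ≤ 4 * b) : ph a * h ^ 2 ≤ 16 * ph b := by
  unfold ph
  rw [div_mul_eq_mul_div, ← mul_div_assoc, div_le_div_iff₀ (by positivity) (by positivity)]
  rcases le_total a b with hab | hab
  · have h3 : (h * b) ^ 2 ≤ (4 * a) ^ 2 := pow_le_pow_left₀ (by positivity) h1 2
    have h4 : a ^ 4 ≤ b ^ 4 := pow_le_pow_left₀ ha.le hab 4
    have h5 : a ^ 2 * h ^ 2 * (1 + b ^ 4) * b ^ 2 ≤ 16 * b ^ 2 * (1 + a ^ 4) * b ^ 2 := by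
      calc a ^ 2 * h ^ 2 * (1 + b ^ 4) * b ^ 2 = a ^ 2 * (1 + b ^ 4) * (h * b) ^ 2 := by ring
        _ ≤ a ^ 2 * (1 + b ^ 4) * (4 * a) ^ 2 := by gcongr
        _ = 16 * (a ^ 4 + a ^ 4 * b ^ 4) := by ring
        _ ≤ 16 * (b ^ 4 + a ^ 4 * b ^ 4) := by gcongr
        _ = 16 * b ^ 2 * (1 + a ^ 4) * b ^ 2 := by ring
    exact le_of_mul_le_mul_right h5 (by positivity)
  · have h3 : (h * a) ^ 2 ≤ (4 * b) ^ 2 := pow_le_pow_left₀ (by positivity) h2 2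
    have h4 : b ^ 4 ≤ a ^ 4 := pow_le_pow_left₀ hb.le hab 4
    calc a ^ 2 * h ^ 2 * (1 + b ^ 4) = (h * a) ^ 2 * (1 + b ^ 4) := by ring
      _ ≤ (4 * b) ^ 2 * (1 + a ^ 4) := by gcongr
      _ = 16 * b ^ 2 * (1 + a ^ 4) := by ring

variable {E : Type*} [NormedAddCommGroup E] [InnerProductSpace ℂ E]

/-- the elementary radial potential of the depth `c` -/
noncomputable def rad (E : Type*) [NormedAddCommGroup E] [InnerProductSpace ℂ E] (c : ℝ) : Ptl E :=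
  ⟨fun y => ph ((1 - ‖y‖ ^ 2) / c), fun _ => 0, fun _ => ph_nonneg _⟩

theorem rad_EE (c : ℝ) (y : E) : EE (rad E c) y = ph ((1 - ‖y‖ ^ 2) / c) := rfl

theorem rad_DD (c : ℝ) (y : E) : DD (rad E c) y = 0 := rfl

theorem HH_mul_le {x y : E} (hx : ‖x‖ < 1) (hy : ‖y‖ < 1) :
    HH x y * (1 - ‖y‖ ^ 2) ≤ 4 * (1 - ‖x‖ ^ 2) := by
  have h1 : 1 - ‖y‖ ≤ ‖1 - ⟪x, y⟫_ℂ‖ := by
    have e1 := norm_inner_le_norm (𝕜 := ℂ) x y
    have e2 := norm_sub_norm_le (1 : ℂ) ⟪x, y⟫_ℂ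
    rw [norm_one] at e2
    have e3 : ‖x‖ * ‖y‖ ≤ 1 * ‖y‖ := mul_le_mul_of_nonneg_right hx.le (norm_nonneg _)
    linarith
  have hx0 : 0 < 1 - ‖x‖ ^ 2 := by nlinarith [norm_nonneg x]
  have hy0 : 0 < 1 - ‖y‖ ^ 2 := by nlinarith [norm_nonneg y]
  have h2 : 0 < 1 - ‖y‖ := by linarith
  have h3 : 0 < ‖1 - ⟪x, y⟫_ℂ‖ := h2.trans_le h1
  have h4 : 1 - ‖y‖ ^ 2 ≤ 2 * ‖1 - ⟪x, y⟫_ℂ‖ := by nlinarith [norm_nonneg y]
  have h5 : (1 - ‖y‖ ^ 2) ^ 2 ≤ (2 * ‖1 - ⟪x, y⟫_ℂ‖) ^ 2 := pow_le_pow_left₀ hy0.le h4 2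
  unfold HH
  rw [div_mul_eq_mul_div, div_le_iff₀ (by positivity)]
  nlinarith

/-- telescoping -/
theorem rad_tele {θ : ℝ} (hθ0 : 0 < θ) (hθ : θ < 1) {y : ℝ} (hy : 0 < y) (j k : ℕ) (hjk : j ≤ k) :
    (1 - θ ^ 2) * ∑ i ∈ Finset.Ioc j k, (θ ^ i * y) ^ 2 / (1 + (θ ^ i * y) ^ 2) ^ 2 ≤
      (θ ^ (j + 1) * y) ^ 2 / (1 + (θ ^ (j + 1) * y) ^ 2) -
        (θ ^ (k + 1) * y) ^ 2 / (1 + (θ ^ (k + 1) * y) ^ 2) := by
  induction k, hjk using Nat.le_induction with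
  | base => simp
  | succ k hjk ih =>
    rw [← Finset.insert_Ioc_right_eq_Ioc_add_one (by omega), Finset.sum_insert (by simp), mul_add]
    have key : (1 - θ ^ 2) * ((θ ^ (k + 1) * y) ^ 2 / (1 + (θ ^ (k + 1) * y) ^ 2) ^ 2) ≤
        (θ ^ (k + 1) * y) ^ 2 / (1 + (θ ^ (k + 1) * y) ^ 2) -
          (θ ^ (k + 1 + 1) * y) ^ 2 / (1 + (θ ^ (k + 1 + 1) * y) ^ 2) := by
      obtain ⟨x, hx⟩ : ∃ x, x = (θ ^ (k + 1) * y) ^ 2 := ⟨_, rfl⟩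
      have hx0 : 0 < x := by rw [hx]; positivity
      have e1 : (θ ^ (k + 1 + 1) * y) ^ 2 = θ ^ 2 * x := by rw [hx]; ring
      rw [e1, ← hx]
      have e2 : x / (1 + x) - θ ^ 2 * x / (1 + θ ^ 2 * x) =
          (1 - θ ^ 2) * x / ((1 + x) * (1 + θ ^ 2 * x)) := by
        field_simp
        ring
      rw [e2, ← mul_div_assoc]
      apply div_le_div_of_nonneg_left
      · have : θ ^ 2 ≤ 1 := pow_le_one₀ hθ0.le hθ.le
        have : 0 ≤ 1 - θ ^ 2 := by linarith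
        positivity
      · positivity
      · have h1 : θ ^ 2 * x ≤ x := by
          have : θ ^ 2 ≤ 1 := pow_le_one₀ hθ0.le hθ.le
          nlinarith
        calc (1 + x) * (1 + θ ^ 2 * x) ≤ (1 + x) * (1 + x) := by gcongr
          _ = _ := by ring
    linarith

theorem ph_le_of {x y : ℝ} (hy : 0 < y) (h1 : y ≤ x) (h2 : x ≤ 4 * y) :
    ph x ≤ 32 * (y ^ 2 / (1 + y ^ 2) ^ 2) := by
  unfold ph
  have hx : 0 < x := by linarith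
  rw [← mul_div_assoc, div_le_div_iff₀ (by positivity) (by positivity)]
  have e1 : x ^ 2 ≤ 16 * y ^ 2 := by nlinarith
  have e2 : y ^ 2 ≤ x ^ 2 := by nlinarith
  have e3 : (1 + y ^ 2) ^ 2 ≤ (1 + x ^ 2) ^ 2 := by gcongr
  have e4 : (1 + x ^ 2) ^ 2 ≤ 2 * (1 + x ^ 4) := by nlinarith [sq_nonneg (x ^ 2 - 1)]
  calc x ^ 2 * (1 + y ^ 2) ^ 2 ≤ (16 * y ^ 2) * (2 * (1 + x ^ 4)) :=
        mul_le_mul e1 (e3.trans e4) (by positivity) (by positivity)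
    _ = _ := by ring

/-- the depth on a ray -/
theorem ray_depth {θ : ℝ} (hθ0 : 0 < θ) (hθ : θ < 1) {z : E} {i k : ℕ} (hik : i ≤ k)
    (hzk : 1 - θ ^ k ≤ ‖z‖) (hz : ‖z‖ < 1) :
    θ ^ i ≤ 1 - ‖(rt θ i : ℂ) • z‖ ^ 2 ∧ 1 - ‖(rt θ i : ℂ) • z‖ ^ 2 ≤ 4 * θ ^ i := by
  have ht0 : 0 < θ ^ i := by positivity
  have ht1 : θ ^ i ≤ 1 := pow_le_one₀ hθ0.le hθ.le
  have htk : θ ^ k ≤ θ ^ i := pow_le_pow_of_le_one hθ0.le hθ.le hik
  have hr0 : 0 ≤ rt θ i := by rw [rt]; linarith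
  have hn : ‖(rt θ i : ℂ) • z‖ = rt θ i * ‖z‖ := by
    rw [norm_smul, Complex.norm_real, Real.norm_eq_abs, abs_of_nonneg hr0]
  have hz0 := norm_nonneg z
  rw [hn]
  have h1 : 1 - θ ^ i ≤ ‖z‖ := by linarith
  have h2 : rt θ i = 1 - θ ^ i := rfl
  rw [h2] at hr0 ⊢
  set t := θ ^ i
  constructor
  · have h3 : (1 - t) * ‖z‖ ≤ 1 - t := by nlinarith
    have h4 : 0 ≤ (1 - t) * ‖z‖ := by positivity
    nlinarith
  · have h3 : (1 - t) * (1 - t) ≤ (1 - t) * ‖z‖ := by gcongr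
    have h4 : 1 - 2 * t ≤ (1 - t) * ‖z‖ := by nlinarith
    nlinarith [sq_nonneg (1 - (1 - t) * ‖z‖)]

theorem Carl.rad {c : ℝ} (hc : 0 < c) : Carl (MX.rad E c) 1 where
  A0 := zero_le_one
  le := fun y hy => ph_le _
  cmp := by
    intro x y hx hy
    rw [rad_EE, rad_EE]
    have hx0 : 0 < 1 - ‖x‖ ^ 2 := by nlinarith [norm_nonneg x]
    have hy0 : 0 < 1 - ‖y‖ ^ 2 := by nlinarith [norm_nonneg y]
    have h1 := HH_mul_le hx hy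
    have h2 := HH_mul_le hy hx
    rw [HH_comm] at h2
    apply ph_cmp (by positivity) (by positivity) (HH_pos hx hy).le
    · rw [← mul_div_assoc, ← mul_div_assoc]
      gcongr
    · rw [← mul_div_assoc, ← mul_div_assoc]
      gcongr
  c2 := by
    have h1 : ContDiff ℝ 2 fun y : E => (1 - ‖y‖ ^ 2) / c := by
      have h3 : ContDiff ℝ 2 fun p : E => ‖p‖ ^ 2 := by
        have e : (fun p : E => ‖p‖ ^ 2) = fun p : E => Complex.reCLM ⟪p, p⟫_ℂ := by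
          funext p
          have := inner_self_eq_norm_sq_to_K (𝕜 := ℂ) p
          rw [this]
          simp [← Complex.ofReal_pow]
        rw [e]
        exact Complex.reCLM.contDiff.comp (contDiff_id.inner ℂ contDiff_id)
      exact (contDiff_const.sub h3).div_const c
    exact (ph_smooth.comp h1).contDiffOn
  fd := by
    intro y hy x
    have ht0 : 0 < 1 - ‖y‖ ^ 2 := by nlinarith [norm_nonneg y]
    obtain ⟨s, hs⟩ : ∃ s, s = (1 - ‖y‖ ^ 2) / c := ⟨_, rfl⟩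
    have hs0 : 0 < s := by rw [hs]; positivity
    have h1 : HasFDerivAt (fun y : E => (1 - ‖y‖ ^ 2) / c) (c⁻¹ • -((2 : ℝ) • Ed_R 1 y)) y := by
      have := ((Ed_normSq y).const_sub 1).mul_const c⁻¹
      simpa [div_eq_mul_inv] using this
    have h2 : HasFDerivAt (EE (MX.rad E c))
        (((2 * s - 2 * s ^ 5) / (1 + s ^ 4) ^ 2) • (c⁻¹ • -((2 : ℝ) • Ed_R 1 y))) y := by
      rw [hs]
      exact (ph_deriv ((1 - ‖y‖ ^ 2) / c)).comp_hasFDerivAt y h1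
    rw [h2.fderiv, rad_EE, ← hs]
    have h3 := ph_deriv_le hs0.le
    have e1 : ((((2 * s - 2 * s ^ 5) / (1 + s ^ 4) ^ 2) • (c⁻¹ • -((2 : ℝ) • Ed_R 1 y))) :
        E →L[ℝ] ℝ) x = -(((2 * s - 2 * s ^ 5) / (1 + s ^ 4) ^ 2) * c⁻¹ * 2 * (⟪y, x⟫_ℂ).re) := by
      simp [Ed_R_apply]
      ring
    rw [e1, abs_neg, abs_mul, abs_mul, abs_mul, abs_of_pos (inv_pos.mpr hc),
      abs_of_pos (show (0 : ℝ) < 2 by norm_num)]
    have h4 : |(⟪y, x⟫_ℂ).re| ≤ ‖⟪y, x⟫_ℂ‖ := Complex.abs_re_le_norm _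
    have h5 : c⁻¹ = s / (1 - ‖y‖ ^ 2) := by rw [hs]; field_simp
    have h6 : ‖⟪y, x⟫_ℂ‖ / (1 - ‖y‖ ^ 2) ≤ gau (1 - ‖y‖ ^ 2) y x := by
      unfold gau
      have : 0 ≤ ‖x‖ / Real.sqrt (1 - ‖y‖ ^ 2) := by positivity
      linarith
    have h7 : 0 ≤ gau (1 - ‖y‖ ^ 2) y x := le_trans (by positivity) h6
    have h8 := ph_nonneg s
    rw [h5]
    calc |(2 * s - 2 * s ^ 5) / (1 + s ^ 4) ^ 2| * (s / (1 - ‖y‖ ^ 2)) * 2 * |(⟪y, x⟫_ℂ).re|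
        ≤ |(2 * s - 2 * s ^ 5) / (1 + s ^ 4) ^ 2| * (s / (1 - ‖y‖ ^ 2)) * 2 * ‖⟪y, x⟫_ℂ‖ := by gcongr
      _ = (|(2 * s - 2 * s ^ 5) / (1 + s ^ 4) ^ 2| * s) * 2 * (‖⟪y, x⟫_ℂ‖ / (1 - ‖y‖ ^ 2)) := by
          ring
      _ ≤ (2 * ph s) * 2 * gau (1 - ‖y‖ ^ 2) y x := by gcongr
      _ ≤ 12 * ph s * gau (1 - ‖y‖ ^ 2) y x := by nlinarith [mul_nonneg h8 h7]
  dd := differentiableOn_const _
  ds := by
    intro w r r' κ h1 h2 h3 h4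
    rw [rad_DD, rad_DD, sub_zero, norm_zero]
    have hw := norm_nonneg w
    have h5 : r * ‖w‖ ≤ r' * ‖w‖ := by gcongr
    have h6 : 0 < κ := by
      by_contra hcon
      push Not at hcon
      nlinarith
    have h7 : 0 ≤ r * ‖w‖ := by positivity
    have h8 : 0 ≤ 1 - r ^ 2 * ‖w‖ ^ 2 := by nlinarith
    have h9 : 0 ≤ r' - r := by linarith
    positivity
  path := by
    intro θ hθ0 hθ z j k hjk hzk hz
    simp only [rad_DD, rad_EE, Complex.zero_re, sub_zero, zero_add]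
    have h1 : ∑ i ∈ Finset.Ioc j k, ph ((1 - ‖(rt θ i : ℂ) • z‖ ^ 2) / c) ≤
        ∑ i ∈ Finset.Ioc j k, 32 * ((θ ^ i * c⁻¹) ^ 2 / (1 + (θ ^ i * c⁻¹) ^ 2) ^ 2) := by
      apply Finset.sum_le_sum
      intro i hi
      obtain ⟨h2, h3⟩ := ray_depth hθ0 hθ (Finset.mem_Ioc.mp hi).2 hzk hz
      have hci : 0 < c⁻¹ := inv_pos.mpr hc
      apply ph_le_of (by positivity)
      · rw [div_eq_mul_inv]
        gcongr
      · rw [div_eq_mul_inv, ← mul_assoc]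
        gcongr
    rw [← Finset.mul_sum] at h1
    have h2 := rad_tele hθ0 hθ (inv_pos.mpr hc) j k hjk
    obtain ⟨S, hS⟩ : ∃ S, S = ∑ i ∈ Finset.Ioc j k,
        (θ ^ i * c⁻¹) ^ 2 / (1 + (θ ^ i * c⁻¹) ^ 2) ^ 2 := ⟨_, rfl⟩
    rw [← hS] at h1 h2
    have h3 : (θ ^ (j + 1) * c⁻¹) ^ 2 / (1 + (θ ^ (j + 1) * c⁻¹) ^ 2) ≤ 1 := by
      rw [div_le_one (by positivity)]
      linarith
    have h4 : 0 ≤ (θ ^ (k + 1) * c⁻¹) ^ 2 / (1 + (θ ^ (k + 1) * c⁻¹) ^ 2) := by positivity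
    have h5 : 0 ≤ S := by rw [hS]; exact Finset.sum_nonneg fun i _ => by positivity
    have h6 : (1 - θ) * S ≤ (1 - θ ^ 2) * S := by
      apply mul_le_mul_of_nonneg_right _ h5
      nlinarith
    have h7 : 0 < 1 - θ := by linarith
    calc pc θ * ∑ i ∈ Finset.Ioc j k, ph ((1 - ‖(rt θ i : ℂ) • z‖ ^ 2) / c)
        ≤ pc θ * (32 * S) := by
          apply mul_le_mul_of_nonneg_left h1 (pc_pos hθ).le
      _ = 32 / 7776 * ((1 - θ) * S) := by unfold pc; ring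
      _ ≤ 3 * 1 := by nlinarith

end Pool.Agent.MPca0fc2.MX
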