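import Mathlib
import Pool.Agent.Lib.MP_ca0fc2_an.Defs
import Pool.Agent.Lib.MP_ca0fc2_an.MXPhi
import Pool.Agent.Lib.MP_ca0fc2_an.MXPre
import Pool.Agent.Lib.MP_ca0fc2_an.MXRad
import Pool.Agent.Lib.MP_ca0fc2_an.Mg.G008
import Pool.Agent.Lib.MP_ca0fc2_an.Mg.G045

set_option autoImplicit false

open Metric Set MeasureTheory Filter Topology
open scoped InnerProductSpace ENNReal

namespace Pool.Agent.MPca0fc2.MX

open Pool.Agent.MPca0fc2.PT
open Pool.Agent.MPca0fc2.VL (Mod half_mem)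
open Pool.Agent.Lib.MP_ca0fc2_an

variable {E : Type*} [NormedAddCommGroup E] [InnerProductSpace ℂ E]

/-- dilation of the potential -/
theorem dil_pot {ν : Ptl E} {A p : ℝ} (hν : Carl ν A) (hp : 4 ≤ p) {r : ℝ} (hr0 : 0 ≤ r)
    (hr1 : r ≤ 1) {z : E} (hz : ‖z‖ < 1) (X : E) :
    EE ν ((r : ℂ) • z) ^ (1 / p) * gau (1 - ‖(r : ℂ) • z‖ ^ 2) ((r : ℂ) • z) ((r : ℂ) • X) ≤
      2 * EE ν z ^ (1 / p) * gau (1 - ‖z‖ ^ 2) z X := by
  have hp0 : 0 < p := by linarith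
  have hn0 := norm_nonneg z
  have hrz : ‖(r : ℂ) • z‖ = r * ‖z‖ := by
    rw [norm_smul, Complex.norm_real, Real.norm_of_nonneg hr0]
  have hrz1 : r * ‖z‖ < 1 := lt_of_le_of_lt (mul_le_of_le_one_left hn0 hr1) hz
  obtain ⟨t, ht⟩ : ∃ t, t = 1 - ‖z‖ ^ 2 := ⟨_, rfl⟩
  obtain ⟨t', ht'⟩ : ∃ t', t' = 1 - ‖(r : ℂ) • z‖ ^ 2 := ⟨_, rfl⟩
  have ht0 : 0 < t := by rw [ht]; nlinarith only [hn0, hz]
  have htt : t ≤ t' := by
    rw [ht, ht', hrz]
    have : (r * ‖z‖) ^ 2 ≤ ‖z‖ ^ 2 := by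
      apply pow_le_pow_left₀ (mul_nonneg hr0 hn0)
      exact mul_le_of_le_one_left hn0 hr1
    linarith only [this]
  have ht'0 : 0 < t' := by linarith
  obtain ⟨q, hq⟩ : ∃ q, q = t / t' := ⟨_, rfl⟩
  have hq0 : 0 < q := by rw [hq]; positivity
  have hq1 : q ≤ 1 := by rw [hq, div_le_one ht'0]; exact htt
  have hg : gau t' ((r : ℂ) • z) ((r : ℂ) • X) ≤ q ^ (1 / 2 : ℝ) * gau t z X := by
    rw [← Real.sqrt_eq_rpow, hq]
    exact (Pool.Agent.MPca0fc2.QS.gau_smul_le ht'0 hr0 hr1 z X).trans (gau_anti ht0 htt z X)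
  have hH : q ≤ PT.HH ((r : ℂ) • z) z := by
    have h1 := PT.HH_radial' (w := z) hr0 hr1 (by linarith)
    rw [Complex.ofReal_one, one_smul] at h1
    rw [hq, ht, ht', hrz, mul_pow]
    have h2 : (1 : ℝ) - 1 ^ 2 * ‖z‖ ^ 2 = 1 - ‖z‖ ^ 2 := by ring
    rw [h2] at h1
    exact h1
  have he0 := EE_nonneg ν ((r : ℂ) • z)
  have he0' := EE_nonneg ν z
  have hE : EE ν ((r : ℂ) • z) * q ^ 2 ≤ 16 * EE ν z := by
    refine le_trans ?_ (hν.cmp ((r : ℂ) • z) z (by rw [hrz]; exact hrz1) hz)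
    gcongr
  have hgn : 0 ≤ gau t z X := PT.gau_nonneg ht0.le z X
  have h1 : EE ν ((r : ℂ) • z) ^ (1 / p) * q ^ (1 / 2 : ℝ) ≤ 2 * EE ν z ^ (1 / p) := by
    have e1 : q ^ (1 / 2 : ℝ) ≤ (q ^ 2) ^ (1 / p) := by
      rw [← Real.rpow_natCast q 2, ← Real.rpow_mul hq0.le]
      apply Real.rpow_le_rpow_of_exponent_ge hq0 hq1
      push_cast
      rw [mul_one_div, div_le_div_iff₀ hp0 (by norm_num)]
      linarith
    have e2 : (16 : ℝ) ^ (1 / p) ≤ 2 := by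
      calc (16 : ℝ) ^ (1 / p) ≤ (16 : ℝ) ^ (1 / 4 : ℝ) := by
            apply Real.rpow_le_rpow_of_exponent_le (by norm_num)
            exact one_div_le_one_div_of_le (by norm_num) hp
        _ = 2 := by
            rw [show (16 : ℝ) = 2 ^ (4 : ℝ) by norm_num, ← Real.rpow_mul (by norm_num)]
            norm_num
    calc _ ≤ EE ν ((r : ℂ) • z) ^ (1 / p) * (q ^ 2) ^ (1 / p) := by gcongr
      _ = (EE ν ((r : ℂ) • z) * q ^ 2) ^ (1 / p) := (Real.mul_rpow he0 (by positivity)).symm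
      _ ≤ (16 * EE ν z) ^ (1 / p) := Real.rpow_le_rpow (by positivity) hE (by positivity)
      _ = (16 : ℝ) ^ (1 / p) * EE ν z ^ (1 / p) := Real.mul_rpow (by norm_num) he0'
      _ ≤ 2 * EE ν z ^ (1 / p) := by gcongr
  rw [← ht, ← ht']
  calc _ ≤ EE ν ((r : ℂ) • z) ^ (1 / p) * (q ^ (1 / 2 : ℝ) * gau t z X) := by gcongr
    _ = EE ν ((r : ℂ) • z) ^ (1 / p) * q ^ (1 / 2 : ℝ) * gau t z X := by ring
    _ ≤ 2 * EE ν z ^ (1 / p) * gau t z X := by gcongr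

/-- the cut-off is small near the centre -/
theorem far_phi {a : E} {R p : ℝ} {z : E} (ha : ‖a‖ = 1) (hR : 0 < R) (hz : ‖z‖ < 1)
    (hfar : R ≤ 1 - ‖z‖) (hp : 4 ≤ p) : ‖phi a R z‖ ≤ 4 * EE (rad E R) z ^ (1 / p) := by
  rw [rad_EE]
  have hp0 : 0 < p := by linarith
  have hn0 := norm_nonneg z
  obtain ⟨t, ht⟩ : ∃ t, t = 1 - ‖z‖ ^ 2 := ⟨_, rfl⟩
  rw [← ht]
  have ht1 : 1 - ‖z‖ ≤ t := by rw [ht]; nlinarith only [hn0, hz]
  have ht2 : t ≤ 2 * (1 - ‖z‖) := by rw [ht]; nlinarith only [sq_nonneg (‖z‖ - 1)]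
  obtain ⟨x, hx⟩ : ∃ x, x = t / R := ⟨_, rfl⟩
  rw [← hx]
  have hx1 : 1 ≤ x := by rw [hx, le_div_iff₀ hR]; linarith
  have hx0 : 0 < x := by linarith
  have h1 : ‖phi a R z‖ ≤ 2 / x := by
    refine (phi_le_depth ha hR hz).trans ?_
    rw [hx, div_div_eq_mul_div, div_le_div_iff₀ (by linarith) (by linarith)]
    nlinarith only [hR, ht2, hfar]
  obtain ⟨y, hy⟩ : ∃ y, y = 1 / (2 * x ^ 2) := ⟨_, rfl⟩
  have hy0 : 0 < y := by rw [hy]; positivity
  have hy1 : y ≤ 1 := by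
    rw [hy, div_le_one (by positivity)]
    nlinarith only [hx1]
  have hyp : y ≤ ph x := by
    unfold ph
    rw [hy, div_le_div_iff₀ (by positivity) (by positivity)]
    have : 1 ≤ x ^ 4 := one_le_pow₀ hx1
    nlinarith only [this, hx1]
  have h2 : 1 / (2 * x) ≤ y ^ (1 / 2 : ℝ) := by
    rw [← Real.sqrt_eq_rpow]
    apply Real.le_sqrt_of_sq_le
    rw [hy, div_pow, one_pow, mul_pow]
    apply one_div_le_one_div_of_le (by positivity)
    nlinarith only [sq_nonneg x]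
  have h3 : y ^ (1 / 2 : ℝ) ≤ y ^ (1 / p) := by
    apply Real.rpow_le_rpow_of_exponent_ge hy0 hy1
    exact one_div_le_one_div_of_le (by norm_num) (by linarith)
  have h4 : y ^ (1 / p) ≤ ph x ^ (1 / p) := Real.rpow_le_rpow hy0.le hyp (by positivity)
  calc ‖phi a R z‖ ≤ 2 / x := h1
    _ = 4 * (1 / (2 * x)) := by field_simp; norm_num
    _ ≤ 4 * ph x ^ (1 / p) := by gcongr; exact h2.trans (h3.trans h4)

/-- constant moduli -/
theorem mod_const {c : ℝ} (hc : 0 < c) : Mod fun _ => c := by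
  refine ⟨fun _ _ => hc, fun s hs t ht hst => ?_⟩
  have hq : 1 ≤ (t / s) ^ (1 / 8 : ℝ) := by
    apply Real.one_le_rpow _ (by norm_num)
    rw [le_div_iff₀ hs.1]
    linarith
  constructor <;> nlinarith only [hc, hq]

/-- the invariant Cauchy estimate -/
theorem cauchy_gau {g : E → ℂ} (hg : DifferentiableOn ℂ g (ball 0 1)) {M : ℝ} (hM : 0 ≤ M)
    (hgM : ∀ z ∈ ball (0 : E) 1, ‖g z‖ ≤ M) [FiniteDimensional ℂ E] {z : E} (hz : ‖z‖ < 1) (X : E) :
    ‖fderiv ℂ g z X‖ ≤ 10 ^ 7 * (2 * M + 1) * gau (1 - ‖z‖ ^ 2) z X := by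
  apply Pool.Agent.MPca0fc2.QS.gu_of (ω := fun _ => 2 * M + 1) (mod_const (by positivity)) hg _ hz X
  intro y hy
  have := Pool.Agent.MPca0fc2.QS.grad_cauchy hg hM hgM hy
  linarith

/-- the gradient of the product with the cut-off -/
theorem prod_grad [FiniteDimensional ℂ E] {g : E → ℂ} (hg : DifferentiableOn ℂ g (ball 0 1))
    {M : ℝ} (hM : 0 ≤ M) (hgM : ∀ z ∈ ball (0 : E) 1, ‖g z‖ ≤ M) {a : E} {R : ℝ} (ha : ‖a‖ = 1)
    (hR : 0 < R) {z : E} (hz : ‖z‖ < 1) {p : ℝ} (hp : 4 ≤ p) {e : ℝ} (he : 0 ≤ e) (X : E)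
    (hc : R ≤ 1 - ‖z‖ ∨ ‖fderiv ℂ g z X‖ ≤ 6 * e ^ (1 / p) * gau (1 - ‖z‖ ^ 2) z X) :
    ‖fderiv ℂ (fun z => phi a R z * g z) z X‖ ≤ (6 + 4 * (10 ^ 7 * (2 * M + 1)) + 2 * M) *
      (e + EE (rad E R) z + PT.HH z (cen a R) ^ 2) ^ (1 / p) * gau (1 - ‖z‖ ^ 2) z X := by
  have hp0 : 0 < p := by linarith
  have hb : ball (0 : E) 1 ∈ 𝓝 z := isOpen_ball.mem_nhds (mem_ball_zero_iff.mpr hz)
  have d1 : DifferentiableAt ℂ (phi a R) z := (phi_hasFDerivAt ha hR hz).differentiableAt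
  have d2 : DifferentiableAt ℂ g z := hg.differentiableAt hb
  have e1 : fderiv ℂ (fun z => phi a R z * g z) z X =
      phi a R z * fderiv ℂ g z X + g z * fderiv ℂ (phi a R) z X := by
    have := fderiv_mul d1 d2
    have e : (phi a R * g) = fun z => phi a R z * g z := rfl
    rw [e] at this
    rw [this]
    simp
  rw [e1]
  refine (norm_add_le _ _).trans ?_
  rw [norm_mul, norm_mul]
  obtain ⟨G, hG⟩ : ∃ G, G = gau (1 - ‖z‖ ^ 2) z X := ⟨_, rfl⟩
  have ht0 : 0 ≤ 1 - ‖z‖ ^ 2 := by nlinarith only [norm_nonneg z, hz]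
  have hG0 : 0 ≤ G := by rw [hG]; exact PT.gau_nonneg ht0 z X
  obtain ⟨W, hW⟩ : ∃ W, W = e + EE (rad E R) z + PT.HH z (cen a R) ^ 2 := ⟨_, rfl⟩
  have hrad := EE_nonneg (rad E R) z
  have hHH := sq_nonneg (PT.HH z (cen a R))
  have hW1 : e ≤ W := by rw [hW]; linarith only [hHH, hrad]
  have hW2 : EE (rad E R) z ≤ W := by rw [hW]; linarith only [hHH, he]
  have hW3 : PT.HH z (cen a R) ^ 2 ≤ W := by rw [hW]; linarith only [he, hrad]
  have hW0 : 0 ≤ W := he.trans hW1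
  have k1 : e ^ (1 / p) ≤ W ^ (1 / p) := Real.rpow_le_rpow he hW1 (by positivity)
  have k2 : EE (rad E R) z ^ (1 / p) ≤ W ^ (1 / p) := Real.rpow_le_rpow hrad hW2 (by positivity)
  have k3 : (PT.HH z (cen a R) ^ 2) ^ (1 / p) ≤ W ^ (1 / p) :=
    Real.rpow_le_rpow (sq_nonneg _) hW3 (by positivity)
  have k0 : 0 ≤ W ^ (1 / p) := by positivity
  rw [← hG] at hc ⊢
  rw [← hW]
  have hphi1 := phi_le_one ha hR hz
  have a1 : ‖phi a R z‖ * ‖fderiv ℂ g z X‖ ≤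
      (6 + 4 * (10 ^ 7 * (2 * M + 1))) * W ^ (1 / p) * G := by
    have hCM : 0 ≤ 10 ^ 7 * (2 * M + 1) := by positivity
    rcases hc with hc | hc
    · have h1 := far_phi ha hR hz hc hp
      have h2 := cauchy_gau hg hM hgM hz X
      rw [← hG] at h2
      calc _ ≤ (4 * EE (rad E R) z ^ (1 / p)) * (10 ^ 7 * (2 * M + 1) * G) := by gcongr
        _ ≤ (4 * W ^ (1 / p)) * (10 ^ 7 * (2 * M + 1) * G) := by gcongr
        _ = (4 * (10 ^ 7 * (2 * M + 1))) * W ^ (1 / p) * G := by ring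
        _ ≤ _ := by gcongr; linarith
    · calc _ ≤ 1 * (6 * e ^ (1 / p) * G) := by gcongr
        _ ≤ 1 * (6 * W ^ (1 / p) * G) := by gcongr
        _ = 6 * W ^ (1 / p) * G := by ring
        _ ≤ _ := by gcongr; linarith
  have a2 : ‖g z‖ * ‖fderiv ℂ (phi a R) z X‖ ≤ 2 * M * W ^ (1 / p) * G := by
    have h1 := hgM z (mem_ball_zero_iff.mpr hz)
    have h2 := phi_grad ha hR hz hp X
    rw [← hG] at h2
    calc _ ≤ M * (2 * (PT.HH z (cen a R) ^ 2) ^ (1 / p) * G) := by gcongr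
      _ ≤ M * (2 * W ^ (1 / p) * G) := by gcongr
      _ = _ := by ring
  calc _ ≤ (6 + 4 * (10 ^ 7 * (2 * M + 1))) * W ^ (1 / p) * G + 2 * M * W ^ (1 / p) * G :=
        add_le_add a1 a2
    _ = _ := by ring

/-- the cells of the block are solvable -/
theorem block_cells {N : ℕ} {δ ρ M : ℝ} (hM : 0 ≤ M) (hρ : 0 < ρ) (hρ1 : ρ ≤ 1)
    (hρδ : (9 * N + 1) * ρ ^ 2 ≤ δ)
    {G : Fin (N + 1) → E → ℂ} (hG : ∀ j, DifferentiableOn ℂ (G j) (ball 0 1))
    (hGM : ∀ j, ∀ z ∈ ball (0 : E) 1, ‖G j z‖ ≤ M)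
    (hGδ : ∀ z ∈ ball (0 : E) 1, δ ≤ ∑ j, ‖G j z‖ ^ 2) {φ : E → ℂ}
    (hφ : DifferentiableOn ℂ φ (ball 0 1)) (c : Fin (N + 1) → ℂ) :
    SolvableOn (Fin.cons (fun z => 1 - φ z) G : Fin (N + 2) → E → ℂ)
      {z | z ∈ ball (0 : E) 1 ∧ ∀ j : Fin (N + 1),
        ‖(Fin.cons φ (fun j : Fin N => fun z => φ z * G j.succ z) : Fin (N + 1) → E → ℂ) j z - c j‖ <
          ρ / (4 * (M + 1))} (4 + 1 / ρ) := by
  have hρ4 : ρ / (4 * (M + 1)) ≤ 1 / 4 := by
    rw [div_le_div_iff₀ (by positivity) (by norm_num)]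
    linarith only [hρ1, hM]
  have h1ρ : 0 < 1 / ρ := by positivity
  by_cases hc : ‖c 0‖ ≤ 1 / 2
  · -- the cut-off is small
    have key : ∀ z ∈ {z | z ∈ ball (0 : E) 1 ∧ ∀ j : Fin (N + 1),
        ‖(Fin.cons φ (fun j : Fin N => fun z => φ z * G j.succ z) : Fin (N + 1) → E → ℂ) j z - c j‖ <
          ρ / (4 * (M + 1))}, 1 / 4 ≤ ‖1 - φ z‖ := by
      rintro z ⟨-, hz⟩
      have h1 := hz 0
      rw [Fin.cons_zero] at h1
      have h2 : ‖φ z‖ ≤ 3 / 4 := by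
        calc ‖φ z‖ = ‖(φ z - c 0) + c 0‖ := by rw [sub_add_cancel]
          _ ≤ ‖φ z - c 0‖ + ‖c 0‖ := norm_add_le _ _
          _ ≤ 3 / 4 := by linarith
      have h3 := norm_sub_norm_le (1 : ℂ) (φ z)
      rw [norm_one] at h3
      linarith
    refine ⟨Fin.cons (fun z => (1 - φ z)⁻¹) (fun _ _ => 0), ?_, ?_, ?_⟩
    · intro j
      refine Fin.cases ?_ (fun i => ?_) j
      · rw [Fin.cons_zero]
        apply DifferentiableOn.inv
        · exact (differentiableOn_const _).sub (hφ.mono fun z hz => hz.1)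
        · intro z hz
          have := key z hz
          exact norm_pos_iff.mp (by linarith)
      · rw [Fin.cons_succ]
        exact differentiableOn_const _
    · intro j z hz
      refine Fin.cases ?_ (fun i => ?_) j
      · rw [Fin.cons_zero, norm_inv]
        have := key z hz
        calc ‖1 - φ z‖⁻¹ ≤ (1 / 4 : ℝ)⁻¹ := inv_anti₀ (by norm_num) this
          _ ≤ _ := by norm_num; positivity
      · rw [Fin.cons_succ, norm_zero]
        positivity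
    · intro z hz
      rw [Fin.sum_univ_succ]
      simp only [Fin.cons_zero, Fin.cons_succ, mul_zero, Finset.sum_const_zero, add_zero]
      apply mul_inv_cancel₀
      have := key z hz
      exact norm_pos_iff.mp (by linarith)
  · push Not at hc
    have hc0 : c 0 ≠ 0 := norm_pos_iff.mp (by linarith)
    obtain ⟨s, s1, s2, s3⟩ := Pool.Agent.MPca0fc2.QS.data_cells hρ hρδ hG hGδ
      (fun j => c j.succ / c 0)
    have key : ∀ z ∈ {z | z ∈ ball (0 : E) 1 ∧ ∀ j : Fin (N + 1),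
        ‖(Fin.cons φ (fun j : Fin N => fun z => φ z * G j.succ z) : Fin (N + 1) → E → ℂ) j z - c j‖ <
          ρ / (4 * (M + 1))}, ∀ j : Fin N, ‖G j.succ z - c j.succ / c 0‖ < ρ := by
      rintro z ⟨hzb, hz⟩ j
      have h1 := hz 0
      rw [Fin.cons_zero] at h1
      have h2 := hz j.succ
      rw [Fin.cons_succ] at h2
      have h3 : G j.succ z - c j.succ / c 0 =
          ((φ z * G j.succ z - c j.succ) - G j.succ z * (φ z - c 0)) / c 0 := by
        field_simp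
        ring
      rw [h3, norm_div, div_lt_iff₀ (by linarith)]
      have h4 : ‖G j.succ z * (φ z - c 0)‖ ≤ M * (ρ / (4 * (M + 1))) := by
        rw [norm_mul]
        exact mul_le_mul (hGM _ z hzb) h1.le (norm_nonneg _) hM
      have h5 : ‖(φ z * G j.succ z - c j.succ) - G j.succ z * (φ z - c 0)‖ <
          (M + 1) * (ρ / (4 * (M + 1))) := by
        refine (norm_sub_le _ _).trans_lt ?_
        linarith
      have h6 : (M + 1) * (ρ / (4 * (M + 1))) = ρ / 4 := by field_simp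
      rw [h6] at h5
      nlinarith only [h5, hc, hρ]
    refine ⟨Fin.cons (fun _ => 0) (fun j z => s z j), ?_, ?_, ?_⟩
    · intro j
      refine Fin.cases ?_ (fun i => ?_) j
      · rw [Fin.cons_zero]
        exact differentiableOn_const _
      · rw [Fin.cons_succ]
        rw [differentiableOn_pi] at s1
        exact (s1 i).mono fun z hz => ⟨hz.1, key z hz⟩
    · intro j z hz
      refine Fin.cases ?_ (fun i => ?_) j
      · rw [Fin.cons_zero, norm_zero]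
        positivity
      · rw [Fin.cons_succ]
        have h1 := s2 z hz.1 (key z hz)
        have h2 := norm_le_pi_norm (s z) i
        linarith
    · intro z hz
      rw [Fin.sum_univ_succ]
      simp only [Fin.cons_zero, Fin.cons_succ, mul_zero, zero_add]
      exact s3 z hz.1 (key z hz)

end Pool.Agent.MPca0fc2.MX
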