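import Mathlib
import Pool.Agent.Lib.MP_ca0fc2_an.MXBase
import Pool.Agent.Lib.MP_ca0fc2_an.Mg.G023

set_option autoImplicit false

open Metric Set MeasureTheory Filter Topology

open scoped InnerProductSpace ENNReal

namespace Pool.Agent.MPca0fc2.MX

open Pool.Agent.MPca0fc2.PT

variable {E : Type*} [NormedAddCommGroup E] [InnerProductSpace ℂ E]

variable [FiniteDimensional ℂ E] [MeasurableSpace E] [BorelSpace E]

theorem age_Ei_contDiff {θ : ℝ} (h0 : 0 < θ) (h1 : θ < 1) {ν : Ptl E} {A : ℝ}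
    (hν : Carl ν A) {i k : ℕ} (h : i ≤ k) :
    ContDiffOn ℝ 1 (Ei ν θ i) (ball (0 : E) (RC θ (k - 1))) := by
  have hl : ContDiff ℝ 1 (fun w : E => (rt θ i : ℂ) • w) := contDiff_const_smul _
  refine (EE_contDiff hν).comp hl.contDiffOn ?_
  intro w hw
  exact age_maps h0 h1 h (by omega) w hw

theorem age_Ei_fderiv {θ : ℝ} (h0 : 0 < θ) (h1 : θ < 1) {ν : Ptl E} {A : ℝ}
    (hν : Carl ν A) {i : ℕ} {w : E} (hw : ‖w‖ < RC θ i) (x : E) :
    |fderiv ℝ (Ei ν θ i) w x| ≤ 12 * Ei ν θ i w * gau (dl θ i w) w x := by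
  have hb : ‖(rt θ i : ℂ) • w‖ < 1 := by
    rw [age_norm_smul h0 h1]
    exact rt_mul_lt h0 h1 (by omega) hw
  have hdl : 0 < dl θ i w := by
    have h2 : 0 < θ ^ i / 4 := by positivity
    exact h2.trans_le (dl_ge h0 h1 (by omega) hw)
  have hd : DifferentiableAt ℝ (EE ν) ((rt θ i : ℂ) • w) :=
    ((EE_contDiff hν).contDiffAt (isOpen_ball.mem_nhds (mem_ball_zero_iff.2 hb))).differentiableAt
      (by norm_num)
  have hl : HasFDerivAt (fun w : E => (rt θ i : ℂ) • w)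
      ((rt θ i : ℂ) • ContinuousLinearMap.id ℝ E) w := (hasFDerivAt_id w).const_smul _
  have h3 : HasFDerivAt (Ei ν θ i) _ w := hd.hasFDerivAt.comp w hl
  rw [h3.fderiv]
  have h4 := EE_fderiv hν hb ((rt θ i : ℂ) • x)
  have h5 : (fderiv ℝ (EE ν) ((rt θ i : ℂ) • w) ∘SL ((rt θ i : ℂ) • ContinuousLinearMap.id ℝ E)) x
      = fderiv ℝ (EE ν) ((rt θ i : ℂ) • w) ((rt θ i : ℂ) • x) := by
    simp
  rw [h5]
  refine h4.trans ?_
  have h6 := age_gau_le h0 h1 i w x hdl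
  have h7 : 0 ≤ EE ν ((rt θ i : ℂ) • w) := EE_nonneg _ _
  have h8 : EE ν ((rt θ i : ℂ) • w) = Ei ν θ i w := rfl
  rw [← h8]
  gcongr

end Pool.Agent.MPca0fc2.MX
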