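import Mathlib
import Pool.Agent.Lib.MP_ca0fc2_an.PTInc
import Pool.Agent.Lib.MP_ca0fc2_an.MXBase

set_option autoImplicit false

open Metric Set MeasureTheory Filter Topology

open scoped InnerProductSpace ENNReal

namespace Pool.Agent.MPca0fc2.MX

open Pool.Agent.MPca0fc2.PT

variable {E : Type*} [NormedAddCommGroup E] [InnerProductSpace ℂ E]

variable [FiniteDimensional ℂ E] [MeasurableSpace E] [BorelSpace E]

/-- comparison of potentials on the segment -/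
theorem inc_EE {θ : ℝ} (h0 : 0 < θ) (h1 : θ < 1) {ν : Ptl E} {A : ℝ} (h : Carl ν A) {i : ℕ}
    {w : E} (hw : ‖w‖ < RC θ i) {s : ℝ} (hs0 : rt θ i ≤ s) (hs : s ≤ rt θ (i + 1)) {p : ℝ}
    (hp : 1 ≤ p) :
    EE ν ((s : ℂ) • w) ^ (1 / p) ≤ 16 * (32 / θ) ^ 2 * EE ν ((rt θ i : ℂ) • w) ^ (1 / p) := by
  have hr0 := inc_rt_nonneg h0 h1 i
  have hs00 : 0 ≤ s := hr0.trans hs0
  obtain ⟨h2, h3⟩ := inc_depth h0 h1 hw hs00 hs
  have h4 : s * ‖w‖ < 1 :=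
    lt_of_le_of_lt (mul_le_mul_of_nonneg_right hs (norm_nonneg _)) (rt_mul_lt h0 h1 le_rfl hw)
  have h4' : rt θ i * ‖w‖ < 1 := rt_mul_lt h0 h1 (Nat.le_succ i) hw
  have h5 : 0 < dl θ i w := inc_dl_pos h0 h1 (Nat.le_succ i) hw
  have h6 := HH_radial' hr0 hs0 h4
  have h7 := EE_compare h (x := (s : ℂ) • w) (y := (rt θ i : ℂ) • w)
    (by rw [inc_norm_smul hs00]; exact h4) (by rw [inc_norm_smul hr0]; exact h4')
  rw [HH_comm] at h7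
  have h8 : (32 / θ)⁻¹ ≤ HH ((rt θ i : ℂ) • w) ((s : ℂ) • w) := by
    refine le_trans ?_ h6
    change _ ≤ (1 - s ^ 2 * ‖w‖ ^ 2) / dl θ i w
    rw [le_div_iff₀ h5, inv_mul_le_iff₀ (by positivity)]
    exact h3
  have hK : (1:ℝ) ≤ 32 / θ := by
    rw [le_div_iff₀ h0]
    linarith
  have h9 : ((32 / θ)⁻¹) ^ 2 ≤ HH ((rt θ i : ℂ) • w) ((s : ℂ) • w) ^ 2 :=
    pow_le_pow_left₀ (by positivity) h8 2
  have hE := EE_nonneg ν ((s : ℂ) • w)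
  have hE' := EE_nonneg ν ((rt θ i : ℂ) • w)
  have h10 : EE ν ((s : ℂ) • w) ≤ 16 * (32 / θ) ^ 2 * EE ν ((rt θ i : ℂ) • w) := by
    have h11 := (mul_le_mul_of_nonneg_left h9 hE).trans h7
    rw [inv_pow, mul_inv_le_iff₀ (by positivity)] at h11
    linarith
  have hK2 : (1:ℝ) ≤ 16 * (32 / θ) ^ 2 := by nlinarith
  have hp0 : 0 < p := by linarith
  calc EE ν ((s : ℂ) • w) ^ (1 / p)
      ≤ (16 * (32 / θ) ^ 2 * EE ν ((rt θ i : ℂ) • w)) ^ (1 / p) :=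
        Real.rpow_le_rpow hE h10 (by positivity)
    _ = (16 * (32 / θ) ^ 2) ^ (1 / p) * EE ν ((rt θ i : ℂ) • w) ^ (1 / p) :=
        Real.mul_rpow (by positivity) hE'
    _ ≤ (16 * (32 / θ) ^ 2) ^ (1 : ℝ) * EE ν ((rt θ i : ℂ) • w) ^ (1 / p) := by
        refine mul_le_mul_of_nonneg_right ?_ (Real.rpow_nonneg hE' _)
        refine Real.rpow_le_rpow_of_exponent_le hK2 ?_
        rw [div_le_one hp0]
        exact hp
    _ = _ := by rw [Real.rpow_one]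

theorem d_bound {ϑ : ℝ} (h0 : 0 < ϑ) (h1 : ϑ < 1) {C₀ p : ℝ} (hC₀ : 0 < C₀) (hp : 1 ≤ p) :
    ∃ C : ℝ, 0 < C ∧ ∀ (ν : Ptl E) (u : E → ℂ) (M A : ℝ), HU ν u M A p C₀ →
      ∀ (i : ℕ) (w : E), ‖w‖ < RC (ϑ ^ 32) i →
        ‖uk u (ϑ ^ 32) (i + 1) w - uk u (ϑ ^ 32) i w‖ ≤ C * Ei ν (ϑ ^ 32) i w ^ (1 / p) ∧
        ∀ x : E, ‖fderiv ℝ (fun w => uk u (ϑ ^ 32) (i + 1) w - uk u (ϑ ^ 32) i w) w x‖ ≤
          C * Ei ν (ϑ ^ 32) i w ^ (1 / p) * gau (dl (ϑ ^ 32) i w) w x := by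
  have hθ0 : 0 < ϑ ^ 32 := pow_pos h0 32
  have hθ1 : ϑ ^ 32 < 1 := pow_lt_one₀ h0.le h1 (by norm_num)
  generalize ϑ ^ 32 = θ at hθ0 hθ1
  have hK : (32:ℝ) ≤ 32 / θ := by
    rw [le_div_iff₀ hθ0]
    nlinarith
  refine ⟨300 * C₀ * (32 / θ) ^ 3, by positivity, ?_⟩
  intro ν u M A hU i w hw
  have hr0 := inc_rt_nonneg hθ0 hθ1 i
  have hr1 := inc_rt_nonneg hθ0 hθ1 (i + 1)
  have hrm := inc_rt_mono hθ0 hθ1 i
  have hrw1 : rt θ (i + 1) * ‖w‖ < 1 := rt_mul_lt hθ0 hθ1 le_rfl hw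
  have hrw0 : rt θ i * ‖w‖ < 1 := rt_mul_lt hθ0 hθ1 (Nat.le_succ i) hw
  have hd0 : 0 < dl θ i w := inc_dl_pos hθ0 hθ1 (Nat.le_succ i) hw
  have hd1 : 0 < dl θ (i + 1) w := inc_dl_pos hθ0 hθ1 le_rfl hw
  have hE0 : 0 ≤ Ei ν θ i w ^ (1 / p) := Real.rpow_nonneg (EE_nonneg ν _) _
  have hgen : ∀ s ∈ Icc (rt θ i) (rt θ (i + 1)), ∀ X : E, ‖fderiv ℂ u ((s : ℂ) • w) X‖ ≤
      C₀ * (16 * (32 / θ) ^ 2 * Ei ν θ i w ^ (1 / p)) *
        gau (1 - ‖(s : ℂ) • w‖ ^ 2) ((s : ℂ) • w) X := by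
    intro s hs X
    have hs0 : 0 ≤ s := hr0.trans hs.1
    have hsw : s * ‖w‖ < 1 :=
      lt_of_le_of_lt (mul_le_mul_of_nonneg_right hs.2 (norm_nonneg _)) hrw1
    have h2 := hU.gr ((s : ℂ) • w) (by rw [inc_norm_smul hs0]; exact hsw) X
    refine h2.trans ?_
    have h3 := inc_EE hθ0 hθ1 hU.carl hw hs.1 hs.2 hp
    have h4 : 0 ≤ gau (1 - ‖(s : ℂ) • w‖ ^ 2) ((s : ℂ) • w) X := by
      refine inc_gau_nonneg ?_ _ _
      have := (inc_depth hθ0 hθ1 hw hs0 hs.2).1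
      rw [inc_norm_smul hs0]
      nlinarith
    exact mul_le_mul_of_nonneg_right (mul_le_mul_of_nonneg_left h3 hC₀.le) h4
  constructor
  · -- the increment
    have hseg := inc_seg hU.diff (w := w) (r := rt θ i) (r' := rt θ (i + 1))
      (K := C₀ * (16 * (32 / θ) ^ 2 * Ei ν θ i w ^ (1 / p)) * (7 / 2 * (32 / θ) / dl θ i w))
      hr0 hrm hrw1 (by
        intro s hs
        have hs0 : 0 ≤ s := hr0.trans hs.1
        refine (hgen s hs w).trans ?_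
        exact mul_le_mul_of_nonneg_left (inc_gau_seg hθ0 hθ1 hw hs0 hs.2) (by positivity))
    change ‖u ((rt θ (i + 1) : ℂ) • w) - u ((rt θ i : ℂ) • w)‖ ≤ _
    refine hseg.trans ?_
    have hdiff : rt θ (i + 1) - rt θ i ≤ 4 * dl θ i w := by
      have h2 := dl_ge hθ0 hθ1 (Nat.le_succ i) hw
      have h3 : 0 < θ ^ (i + 1) := pow_pos hθ0 _
      unfold rt
      linarith
    calc C₀ * (16 * (32 / θ) ^ 2 * Ei ν θ i w ^ (1 / p)) * (7 / 2 * (32 / θ) / dl θ i w) *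
          (rt θ (i + 1) - rt θ i)
        ≤ C₀ * (16 * (32 / θ) ^ 2 * Ei ν θ i w ^ (1 / p)) * (7 / 2 * (32 / θ) / dl θ i w) *
          (4 * dl θ i w) := mul_le_mul_of_nonneg_left hdiff (by positivity)
      _ = 224 * C₀ * (32 / θ) ^ 3 * Ei ν θ i w ^ (1 / p) := by
        field_simp
        ring
      _ ≤ 300 * C₀ * (32 / θ) ^ 3 * Ei ν θ i w ^ (1 / p) := by
        have : 0 ≤ C₀ * (32 / θ) ^ 3 * Ei ν θ i w ^ (1 / p) := by positivity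
        nlinarith
  · -- the gradient
    intro x
    have hf1 := inc_hasFDerivAt hU.diff (θ := θ) (j := i + 1) (w := w) hr1 hrw1
    have hf0 := inc_hasFDerivAt hU.diff (θ := θ) (j := i) (w := w) hr0 hrw0
    have hf : fderiv ℝ (fun w => uk u θ (i + 1) w - uk u θ i w) w = _ := (hf1.sub hf0).fderiv
    rw [hf]
    have hval : ((((fderiv ℂ u ((rt θ (i + 1) : ℂ) • w)).comp
        ((rt θ (i + 1) : ℂ) • ContinuousLinearMap.id ℂ E)).restrictScalars ℝ) -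
        (((fderiv ℂ u ((rt θ i : ℂ) • w)).comp
        ((rt θ i : ℂ) • ContinuousLinearMap.id ℂ E)).restrictScalars ℝ)) x =
        fderiv ℂ u ((rt θ (i + 1) : ℂ) • w) ((rt θ (i + 1) : ℂ) • x) -
          fderiv ℂ u ((rt θ i : ℂ) • w) ((rt θ i : ℂ) • x) := by
      simp
    rw [hval]
    have e1 := hgen (rt θ (i + 1)) ⟨hrm, le_rfl⟩ ((rt θ (i + 1) : ℂ) • x)
    have e0 := hgen (rt θ i) ⟨le_rfl, hrm⟩ ((rt θ i : ℂ) • x)
    have hn1 : 1 - ‖(rt θ (i + 1) : ℂ) • w‖ ^ 2 = dl θ (i + 1) w := by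
      rw [inc_norm_smul hr1]
      unfold dl
      ring
    have hn0 : 1 - ‖(rt θ i : ℂ) • w‖ ^ 2 = dl θ i w := by
      rw [inc_norm_smul hr0]
      unfold dl
      ring
    rw [hn1] at e1
    rw [hn0] at e0
    have g1 := (inc_gau_smul hr1 (inc_rt_le_one hθ0 (i + 1)) hd1 w x).trans
      (inc_gau_succ hθ0 hθ1 hw x)
    have g0 := inc_gau_smul hr0 (inc_rt_le_one hθ0 i) hd0 w x
    have hg := inc_gau_nonneg hd0 w x
    set S := C₀ * (16 * (32 / θ) ^ 2 * Ei ν θ i w ^ (1 / p)) with hS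
    have hS0 : 0 ≤ S := by positivity
    calc ‖fderiv ℂ u ((rt θ (i + 1) : ℂ) • w) ((rt θ (i + 1) : ℂ) • x) -
          fderiv ℂ u ((rt θ i : ℂ) • w) ((rt θ i : ℂ) • x)‖
        ≤ ‖fderiv ℂ u ((rt θ (i + 1) : ℂ) • w) ((rt θ (i + 1) : ℂ) • x)‖ +
          ‖fderiv ℂ u ((rt θ i : ℂ) • w) ((rt θ i : ℂ) • x)‖ := norm_sub_le _ _
      _ ≤ S * (32 / θ * gau (dl θ i w) w x) + S * gau (dl θ i w) w x :=
        add_le_add (e1.trans (mul_le_mul_of_nonneg_left g1 hS0))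
          (e0.trans (mul_le_mul_of_nonneg_left g0 hS0))
      _ ≤ S * (32 / θ * gau (dl θ i w) w x) + S * (32 / θ * gau (dl θ i w) w x) := by
        refine add_le_add le_rfl (mul_le_mul_of_nonneg_left ?_ hS0)
        exact le_mul_of_one_le_left hg (by linarith)
      _ = 32 * (C₀ * (32 / θ) ^ 3 * Ei ν θ i w ^ (1 / p) * gau (dl θ i w) w x) := by
        rw [hS]
        ring
      _ ≤ 300 * (C₀ * (32 / θ) ^ 3 * Ei ν θ i w ^ (1 / p) * gau (dl θ i w) w x) := by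
        refine mul_le_mul_of_nonneg_right (by norm_num) (by positivity)
      _ = _ := by ring

end Pool.Agent.MPca0fc2.MX
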