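import Mathlib
import Pool.Agent.Lib.MP_ca0fc2_an.MXPTInc

set_option autoImplicit false

namespace Pool.Agent.MPca0fc2.QT
end Pool.Agent.MPca0fc2.QT

open Metric Set MeasureTheory Filter Topology

open scoped InnerProductSpace ENNReal

namespace Pool.Agent.MPca0fc2.MX.Q

open Pool.Agent.MPca0fc2.PT Pool.Agent.MPca0fc2.QT

variable {E : Type*} [NormedAddCommGroup E] [InnerProductSpace ℂ E]

variable [FiniteDimensional ℂ E] [MeasurableSpace E] [BorelSpace E]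

theorem d_bound' {θ : ℝ} (h0 : 0 < θ) (h1 : θ < 1) {C₀ p : ℝ} (hC₀ : 0 < C₀) (hp : 1 ≤ p) :
    ∃ C : ℝ, 0 < C ∧ ∀ (ν : Ptl E) (u : E → ℂ) (M A : ℝ), HU ν u M A p C₀ →
      ∀ (i : ℕ) (w : E), ‖w‖ < RC θ i →
        ‖uk u θ (i + 1) w - uk u θ i w‖ ≤ C * Ei ν θ i w ^ (1 / p) ∧
        ∀ x : E, ‖fderiv ℝ (fun w => uk u θ (i + 1) w - uk u θ i w) w x‖ ≤
          C * Ei ν θ i w ^ (1 / p) * gau (dl θ i w) w x := by
  obtain ⟨t, ht0, ht1, ht⟩ : ∃ t : ℝ, 0 < t ∧ t < 1 ∧ t ^ 32 = θ := by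
    refine ⟨θ ^ ((1 : ℝ) / 32), Real.rpow_pos_of_pos h0 _,
      Real.rpow_lt_one h0.le h1 (by norm_num), ?_⟩
    rw [← Real.rpow_natCast, ← Real.rpow_mul h0.le]
    norm_num
  have h := d_bound (E := E) ht0 ht1 hC₀ hp
  rw [ht] at h
  exact h

end Pool.Agent.MPca0fc2.MX.Q
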