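import Mathlib
import Pool.Agent.Lib.MP_ca0fc2_an.MXBase
import Pool.Agent.Lib.MP_ca0fc2_an.Mg.G055

set_option autoImplicit false

open Metric Set MeasureTheory Filter Topology

open scoped InnerProductSpace ENNReal

namespace Pool.Agent.MPca0fc2.MX.Q

open Pool.Agent.MPca0fc2.PT Pool.Agent.MPca0fc2.QT

variable {E : Type*} [NormedAddCommGroup E] [InnerProductSpace ℂ E]

variable {V : Type*} [NormedAddCommGroup V] [NormedSpace ℂ V]

variable {Y : Type*} [NormedAddCommGroup Y] [NormedSpace ℂ Y]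

section meas

variable [MeasurableSpace E]

/-- the aged approximation of `u` at stage `k` -/
noncomputable def vq (ν : Ptl E) (u : E → ℂ) (θ ϑ c : ℝ) (k : ℕ) (w : E) : ℂ :=
  u 0 + ∑ i ∈ Finset.range k, ((psi (Ei ν θ i w / (c * ϑ ^ (k - i))) : ℝ) : ℂ) *
    (uk u θ (i + 1) w - uk u θ i w)

/-- the base -/
noncomputable def bq (ν : Ptl E) (u : E → ℂ) (θ ϑ c ρ : ℝ) : ℕ → E → ℂ
  | 0 => fun _ => u 0
  | k + 1 => fun w => bq ν u θ ϑ c ρ k w + tau3 ρ (vq ν u θ ϑ c (k + 1) w - bq ν u θ ϑ c ρ k w)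

/-- the sum of the weighted local potentials -/
noncomputable def SQ (ν : Ptl E) (θ ϑ : ℝ) (k : ℕ) (w : E) : ℝ :=
  ∑ i ∈ Finset.range (k + 1), ϑ ^ (2 * (k - i)) * Ei ν θ i w

/-- the size of a form on the ball of radius `R`, at the level `k` -/
def Bd {q : ℕ} (ν : Ptl E) (θ ϑ : ℝ) (k : ℕ) (R B γ : ℝ)
    (η : E → E [⋀^Fin q]→L[ℝ] V) : Prop :=
  ∀ w : E, ‖w‖ < R → ∀ v : Fin q → E,
    ‖η w v‖ ≤ B * xk θ k w ^ γ * SQ ν θ ϑ k w * ∏ i, gau (dl θ k w) w (v i)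

end meas

end Pool.Agent.MPca0fc2.MX.Q
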