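import Mathlib
import Pool.Agent.Lib.MP_ca0fc2_an.MXQTDefs
import Pool.Agent.Lib.MP_ca0fc2_an.Mg.G021

set_option autoImplicit false

open Metric Set MeasureTheory Filter Topology

open scoped InnerProductSpace ENNReal

namespace Pool.Agent.MPca0fc2.MX.Q

open Pool.Agent.MPca0fc2.PT Pool.Agent.MPca0fc2.QT

variable {E : Type*} [NormedAddCommGroup E] [InnerProductSpace ℂ E]

section meas

variable [MeasurableSpace E]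

/-- the parameters, in a space of dimension `m + 1` -/
structure ParQ (E : Type*) [NormedAddCommGroup E] [InnerProductSpace ℂ E] [MeasurableSpace E]
    (m : ℕ) (θ ϑ : ℝ) (P : ℕ) (c ρ C₀ p M A : ℝ) : Prop where
  h0 : 0 < ϑ
  h1 : ϑ < 1
  hP : θ = ϑ ^ P
  hPm : 12 * (m + 1) + 18 ≤ P
  hC₀ : 0 < C₀
  hp : 1 ≤ p
  hc : 0 < c
  hc1 : c ≤ 1
  hρ : 0 < ρ
  hρM : ρ ≤ M
  hM : 1 ≤ M
  small : 2000 * M / θ * (1 - θ) ≤ ρ / 2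
  close : ∀ (ν : Ptl E) (u : E → ℂ), HU ν u M A p C₀ → ∀ (k : ℕ) (w : E),
    ‖w‖ < RC θ (k - 1) → ‖uk u θ k w - vq ν u θ ϑ c k w‖ ≤ ρ / 2

/-- the data of the exponent -/
noncomputable def NQ (ν : Ptl E) (u : E → ℂ) (θ ϑ c ρ : ℝ) (k : ℕ) (w : E) : ℂ :=
  (starRingEnd ℂ) (bq ν u θ ϑ c ρ k w) * (uk u θ (k + 1) w - uk u θ k w)

/-- the exponent -/
noncomputable def LQ (μ : Measure E) (m : ℕ) (ν : Ptl E) (u : E → ℂ) (θ ϑ c ρ : ℝ) (k : ℕ) :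
    E → ℂ := PR μ m (RL θ k) (NQ ν u θ ϑ c ρ k)

/-- the factor -/
noncomputable def XQ (μ : Measure E) (m : ℕ) (ν : Ptl E) {d : ℕ} (u : Fin d → E → ℂ)
    (θ ϑ c ρ κ : ℝ) (k : ℕ) (w : E) : ℂ :=
  Complex.exp (((2 / ρ : ℝ) : ℂ) * ∑ j, LQ μ m ν (u j) θ ϑ c ρ k w -
    κ * (DD ν ((rt θ (k + 1) : ℂ) • w) - DD ν ((rt θ k : ℂ) • w)))

/-- the bases -/
noncomputable def bv (ν : Ptl E) {d : ℕ} (u : Fin d → E → ℂ) (θ ϑ c ρ : ℝ) (k : ℕ) :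
    Fin d → E → ℂ := fun j => bq ν (u j) θ ϑ c ρ k

/-- the smooth solution with the base of level `k` and the data of level `l` -/
noncomputable def sk {ι : Type} [Fintype ι] {d N : ℕ} (χ : ι → (Fin d → ℂ) → ℝ)
    (ν : Ptl E) (u : Fin d → E → ℂ) (θ ϑ c ρ : ℝ) (s : ι → E → Fin N → ℂ) (k l : ℕ) :
    E → Fin N → ℂ := sg χ (bv ν u θ ϑ c ρ k) (sl s θ l)

/-- the hypotheses -/
structure Dat {ι : Type} [Fintype ι] {d N : ℕ} (ν : Ptl E) (f : Fin N → E → ℂ)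
    (u : Fin d → E → ℂ) (s : ι → E → Fin N → ℂ) (cc : ι → Fin d → ℂ)
    (χ : ι → (Fin d → ℂ) → ℝ) (M A p C₀ ρ₀ C₁ L : ℝ) : Prop where
  hC₁ : 0 ≤ C₁
  hρ₀ : 0 < ρ₀
  carl : Carl ν A
  hu : ∀ j, HU ν (u j) M A p C₀
  hf : ∀ j, DifferentiableOn ℂ (f j) (ball 0 1)
  hfM : ∀ j, ∀ z ∈ ball (0 : E) 1, ‖f j z‖ ≤ M
  hs : ∀ i, DifferentiableOn ℂ (s i) {z | z ∈ ball (0 : E) 1 ∧ ∀ j, ‖u j z - cc i j‖ < ρ₀}
  hsb : ∀ i, ∀ z ∈ ball (0 : E) 1, (∀ j, ‖u j z - cc i j‖ < ρ₀) → ‖s i z‖ ≤ C₁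
  hsf : ∀ i, ∀ z ∈ ball (0 : E) 1, (∀ j, ‖u j z - cc i j‖ < ρ₀) → ∑ l, f l z * s i z l = 1
  hχ : PU' cc χ (ρ₀ / 8) L
  hsum : ∀ z : Fin d → ℂ, ‖z‖ ≤ 5 * M → ∑ i, χ i z = 1

end meas

end Pool.Agent.MPca0fc2.MX.Q
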