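import Mathlib
import Pool.Agent.Lib.MP_ca0fc2_an.MXPTInc
import Pool.Agent.Lib.MP_ca0fc2_an.MXQTXDefs
import Pool.Agent.Lib.MP_ca0fc2_an.PTInc
import Pool.Agent.Lib.MP_ca0fc2_an.Mg.G045

set_option autoImplicit false

open Metric Set MeasureTheory Filter Topology

open scoped InnerProductSpace ENNReal

namespace Pool.Agent.MPca0fc2.MX.Q.T

open Pool.Agent.MPca0fc2.PT Pool.Agent.MPca0fc2.QT

variable {E : Type*} [NormedAddCommGroup E] [InnerProductSpace ℂ E]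

/-- The hypotheses on `u`: the invariant gradient is bounded and the pair of the potential and `u`
belongs to the class `cls`. -/
structure HU (ν : Ptl E) (u : E → ℂ) (M A : ℝ) (cls : Ptl E → (E → ℂ) → Prop) (C₀ : ℝ) :
    Prop where
  hM : 1 ≤ M
  hC : 0 < C₀
  diff : DifferentiableOn ℂ u (ball 0 1)
  bd : ∀ z ∈ ball (0 : E) 1, ‖u z‖ ≤ M
  carl : Carl ν A
  cl : cls ν u
  gr : ∀ y : E, ‖y‖ < 1 → ∀ X : E, ‖fderiv ℂ u y X‖ ≤ C₀ * gau (1 - ‖y‖ ^ 2) y X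

/-- the parameters, in a space of dimension `m + 1` -/
structure ParQ (E : Type*) [NormedAddCommGroup E] [InnerProductSpace ℂ E] [MeasurableSpace E]
    (m : ℕ) (θ ϑ : ℝ) (P : ℕ) (c ρ C₀ : ℝ) (cls : Ptl E → (E → ℂ) → Prop) (M A : ℝ) : Prop where
  h0 : 0 < ϑ
  h1 : ϑ < 1
  hP : θ = ϑ ^ P
  hPm : 12 * (m + 1) + 18 ≤ P
  hC₀ : 0 < C₀
  hc : 0 < c
  hc1 : c ≤ 1
  hρ : 0 < ρ
  hρM : ρ ≤ M
  hM : 1 ≤ M
  small : 2000 * M / θ * (1 - θ) ≤ ρ / 2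
  close : ∀ (ν : Ptl E) (u : E → ℂ), HU ν u M A cls C₀ → ∀ (k : ℕ) (w : E),
    ‖w‖ < RC θ (k - 1) → ‖uk u θ k w - vq ν u θ ϑ c k w‖ ≤ ρ / 2

/-- the hypotheses -/
structure Dat {ι : Type} [Fintype ι] {d N : ℕ} (ν : Ptl E) (f : Fin N → E → ℂ)
    (u : Fin d → E → ℂ) (s : ι → E → Fin N → ℂ) (cc : ι → Fin d → ℂ)
    (χ : ι → (Fin d → ℂ) → ℝ) (M A : ℝ) (cls : Ptl E → (E → ℂ) → Prop) (C₀ ρ₀ C₁ L : ℝ) :
    Prop where
  hC₁ : 0 ≤ C₁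
  hρ₀ : 0 < ρ₀
  carl : Carl ν A
  hu : ∀ j, HU ν (u j) M A cls C₀
  hf : ∀ j, DifferentiableOn ℂ (f j) (ball 0 1)
  hfM : ∀ j, ∀ z ∈ ball (0 : E) 1, ‖f j z‖ ≤ M
  hs : ∀ i, DifferentiableOn ℂ (s i) {z | z ∈ ball (0 : E) 1 ∧ ∀ j, ‖u j z - cc i j‖ < ρ₀}
  hsb : ∀ i, ∀ z ∈ ball (0 : E) 1, (∀ j, ‖u j z - cc i j‖ < ρ₀) → ‖s i z‖ ≤ C₁
  hsf : ∀ i, ∀ z ∈ ball (0 : E) 1, (∀ j, ‖u j z - cc i j‖ < ρ₀) → ∑ l, f l z * s i z l = 1
  hχ : PU' cc χ (ρ₀ / 8) L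
  hsum : ∀ z : Fin d → ℂ, ‖z‖ ≤ 5 * M → ∑ i, χ i z = 1

variable [FiniteDimensional ℂ E] [MeasurableSpace E] [BorelSpace E]

variable {cls : Ptl E → (E → ℂ) → Prop}

/-- the increments and their gradients -/
theorem d_bound' {θ : ℝ} (hθ0 : 0 < θ) (hθ1 : θ < 1) {C₀ : ℝ} (hC₀ : 0 < C₀) :
    ∃ C : ℝ, 0 < C ∧ ∀ (ν : Ptl E) (u : E → ℂ) (M A : ℝ), HU ν u M A cls C₀ →
      ∀ (i : ℕ) (w : E), ‖w‖ < RC θ i →
        ‖uk u θ (i + 1) w - uk u θ i w‖ ≤ C ∧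
        ∀ x : E, ‖fderiv ℝ (fun w => uk u θ (i + 1) w - uk u θ i w) w x‖ ≤
          C * gau (dl θ i w) w x := by
  have hK : (32:ℝ) ≤ 32 / θ := by
    rw [le_div_iff₀ hθ0]
    nlinarith
  refine ⟨300 * C₀ * (32 / θ) ^ 3, by positivity, ?_⟩
  intro ν u M A hU i w hw
  have hr0 := inc_rt_nonneg hθ0 hθ1 i
  have hr1 := inc_rt_nonneg hθ0 hθ1 (i + 1)
  have hrm := inc_rt_mono hθ0 hθ1 i
  have hrw1 : rt θ (i + 1) * ‖w‖ < 1 := rt_mul_lt hθ0 hθ1 le_rfl hw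
  have hrw0 : rt θ i * ‖w‖ < 1 := rt_mul_lt hθ0 hθ1 (Nat.le_succ i) hw
  have hd0 : 0 < dl θ i w := inc_dl_pos hθ0 hθ1 (Nat.le_succ i) hw
  have hd1 : 0 < dl θ (i + 1) w := inc_dl_pos hθ0 hθ1 le_rfl hw
  have hgen : ∀ s ∈ Icc (rt θ i) (rt θ (i + 1)), ∀ X : E, ‖fderiv ℂ u ((s : ℂ) • w) X‖ ≤
      C₀ * gau (1 - ‖(s : ℂ) • w‖ ^ 2) ((s : ℂ) • w) X := by
    intro s hs X
    have hs0 : 0 ≤ s := hr0.trans hs.1
    have hsw : s * ‖w‖ < 1 :=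
      lt_of_le_of_lt (mul_le_mul_of_nonneg_right hs.2 (norm_nonneg _)) hrw1
    exact hU.gr ((s : ℂ) • w) (by rw [inc_norm_smul hs0]; exact hsw) X
  constructor
  · -- the increment
    have hseg := inc_seg hU.diff (w := w) (r := rt θ i) (r' := rt θ (i + 1))
      (K := C₀ * (7 / 2 * (32 / θ) / dl θ i w))
      hr0 hrm hrw1 (by
        intro s hs
        have hs0 : 0 ≤ s := hr0.trans hs.1
        refine (hgen s hs w).trans ?_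
        exact mul_le_mul_of_nonneg_left (inc_gau_seg hθ0 hθ1 hw hs0 hs.2) (by positivity))
    change ‖u ((rt θ (i + 1) : ℂ) • w) - u ((rt θ i : ℂ) • w)‖ ≤ _
    refine hseg.trans ?_
    have hdiff : rt θ (i + 1) - rt θ i ≤ 4 * dl θ i w := by
      have h2 := dl_ge hθ0 hθ1 (Nat.le_succ i) hw
      have h3 : 0 < θ ^ (i + 1) := pow_pos hθ0 _
      unfold rt
      linarith
    calc C₀ * (7 / 2 * (32 / θ) / dl θ i w) * (rt θ (i + 1) - rt θ i)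
        ≤ C₀ * (7 / 2 * (32 / θ) / dl θ i w) * (4 * dl θ i w) :=
          mul_le_mul_of_nonneg_left hdiff (by positivity)
      _ = 14 * C₀ * (32 / θ) := by
        field_simp
        ring
      _ ≤ 300 * C₀ * (32 / θ) ^ 3 := by
        have h1 : (32 / θ) ≤ (32 / θ) ^ 3 := by nlinarith [sq_nonneg (32 / θ)]
        have h2 : 0 ≤ C₀ * (32 / θ) ^ 3 := by positivity
        calc 14 * C₀ * (32 / θ) ≤ 14 * C₀ * (32 / θ) ^ 3 := by gcongr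
          _ ≤ _ := by nlinarith
  · -- the gradient
    intro x
    have hf1 := inc_hasFDerivAt hU.diff (θ := θ) (j := i + 1) (w := w) hr1 hrw1
    have hf0 := inc_hasFDerivAt hU.diff (θ := θ) (j := i) (w := w) hr0 hrw0
    have hf : fderiv ℝ (fun w => uk u θ (i + 1) w - uk u θ i w) w = _ := (hf1.sub hf0).fderiv
    rw [hf]
    have hval : ((((fderiv ℂ u ((rt θ (i + 1) : ℂ) • w)).comp
        ((rt θ (i + 1) : ℂ) • ContinuousLinearMap.id ℂ E)).restrictScalars ℝ) -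
        (((fderiv ℂ u ((rt θ i : ℂ) • w)).comp
        ((rt θ i : ℂ) • ContinuousLinearMap.id ℂ E)).restrictScalars ℝ)) x =
        fderiv ℂ u ((rt θ (i + 1) : ℂ) • w) ((rt θ (i + 1) : ℂ) • x) -
          fderiv ℂ u ((rt θ i : ℂ) • w) ((rt θ i : ℂ) • x) := by
      simp
    rw [hval]
    have e1 := hgen (rt θ (i + 1)) ⟨hrm, le_rfl⟩ ((rt θ (i + 1) : ℂ) • x)
    have e0 := hgen (rt θ i) ⟨le_rfl, hrm⟩ ((rt θ i : ℂ) • x)
    have hn1 : 1 - ‖(rt θ (i + 1) : ℂ) • w‖ ^ 2 = dl θ (i + 1) w := by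
      rw [inc_norm_smul hr1]
      unfold dl
      ring
    have hn0 : 1 - ‖(rt θ i : ℂ) • w‖ ^ 2 = dl θ i w := by
      rw [inc_norm_smul hr0]
      unfold dl
      ring
    rw [hn1] at e1
    rw [hn0] at e0
    have g1 := (inc_gau_smul hr1 (inc_rt_le_one hθ0 (i + 1)) hd1 w x).trans
      (inc_gau_succ hθ0 hθ1 hw x)
    have g0 := inc_gau_smul hr0 (inc_rt_le_one hθ0 i) hd0 w x
    have hg := inc_gau_nonneg hd0 w x
    calc ‖fderiv ℂ u ((rt θ (i + 1) : ℂ) • w) ((rt θ (i + 1) : ℂ) • x) -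
          fderiv ℂ u ((rt θ i : ℂ) • w) ((rt θ i : ℂ) • x)‖
        ≤ ‖fderiv ℂ u ((rt θ (i + 1) : ℂ) • w) ((rt θ (i + 1) : ℂ) • x)‖ +
          ‖fderiv ℂ u ((rt θ i : ℂ) • w) ((rt θ i : ℂ) • x)‖ := norm_sub_le _ _
      _ ≤ C₀ * (32 / θ * gau (dl θ i w) w x) + C₀ * gau (dl θ i w) w x :=
        add_le_add (e1.trans (mul_le_mul_of_nonneg_left g1 hC₀.le))
          (e0.trans (mul_le_mul_of_nonneg_left g0 hC₀.le))
      _ ≤ C₀ * (32 / θ * gau (dl θ i w) w x) + C₀ * (32 / θ * gau (dl θ i w) w x) := by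
        refine add_le_add le_rfl (mul_le_mul_of_nonneg_left ?_ hC₀.le)
        exact le_mul_of_one_le_left hg (by linarith)
      _ = 2 * (C₀ * (32 / θ) * gau (dl θ i w) w x) := by ring
      _ ≤ 300 * (C₀ * (32 / θ) ^ 3 * gau (dl θ i w) w x) := by
        have h1 : (32 / θ) ≤ (32 / θ) ^ 3 := by nlinarith [sq_nonneg (32 / θ)]
        have h2 : 0 ≤ C₀ * (32 / θ) ^ 3 * gau (dl θ i w) w x := by positivity
        calc 2 * (C₀ * (32 / θ) * gau (dl θ i w) w x)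
            ≤ 2 * (C₀ * (32 / θ) ^ 3 * gau (dl θ i w) w x) := by gcongr
          _ ≤ _ := by linarith
      _ = _ := by ring

end Pool.Agent.MPca0fc2.MX.Q.T
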