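import Mathlib
import Pool.Agent.Lib.MP_ca0fc2_an.Mg.G023
import Pool.Agent.Lib.MP_ca0fc2_an.Mg.G045
import Pool.Agent.Lib.MP_ca0fc2_an.SDData
import Pool.Agent.Lib.MP_ca0fc2_an.TMBase

set_option autoImplicit false

open Metric Set MeasureTheory Filter Topology

open scoped InnerProductSpace ENNReal

namespace Pool.Agent.MPca0fc2.MX.Q.T

open Pool.Agent.MPca0fc2.PT Pool.Agent.MPca0fc2.QT

variable {E : Type*} [NormedAddCommGroup E] [InnerProductSpace ℂ E]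

theorem clo_depth {D : ℝ} (h0 : 0 < D) (h1 : D ≤ 1) :
    ∃ j : ℕ, (1 / 2 : ℝ) ^ j ≤ D ∧ D ≤ 2 * (1 / 2 : ℝ) ^ j := by
  obtain ⟨n, hn1, hn2⟩ := exists_nat_pow_near_of_lt_one h0 h1 (y := (1 / 2 : ℝ)) (by norm_num)
    (by norm_num)
  refine ⟨n + 1, hn1.le, ?_⟩
  rw [pow_succ]
  linarith

theorem clo_lip {V : ℕ → ℝ} (hV : ∀ k, |V (k + 1) - V k| ≤ 1) (j : ℕ) :
    ∀ m : ℕ, |V (j + m) - V j| ≤ m := by
  intro m
  induction m with
  | zero => simp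
  | succ m ih =>
    have h := hV (j + m)
    rw [abs_le] at h ih ⊢
    push_cast
    rw [← add_assoc]
    constructor <;> linarith [h.1, h.2, ih.1, ih.2]

theorem clo_lip' {V : ℕ → ℝ} (hV : ∀ k, |V (k + 1) - V k| ≤ 1) (i j : ℕ) :
    V i - |(i : ℝ) - j| ≤ V j := by
  rcases le_total i j with h | h
  · obtain ⟨m, rfl⟩ := Nat.exists_eq_add_of_le h
    have h1 := clo_lip hV i m
    rw [abs_le] at h1
    have h2 : |(i : ℝ) - ((i + m : ℕ) : ℝ)| = m := by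
      push_cast
      rw [show (i : ℝ) - (i + m) = -m by ring, abs_neg, abs_of_nonneg (by positivity)]
    rw [h2]
    linarith [h1.1]
  · obtain ⟨m, rfl⟩ := Nat.exists_eq_add_of_le h
    have h1 := clo_lip hV j m
    rw [abs_le] at h1
    have h2 : |((j + m : ℕ) : ℝ) - (j : ℝ)| = m := by
      push_cast
      rw [show (j : ℝ) + m - j = m by ring, abs_of_nonneg (by positivity)]
    rw [h2]
    linarith [h1.2]

/-- comparison of the dyadic depths -/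
theorem clo_jj {D D' x : ℝ} {j j' : ℕ} (hD' : 0 < D') (hx : 0 ≤ x)
    (h1 : (1 / 2 : ℝ) ^ j ≤ D) (h2 : D ≤ 2 * (1 / 2 : ℝ) ^ j)
    (h1' : (1 / 2 : ℝ) ^ j' ≤ D') (h2' : D' ≤ 2 * (1 / 2 : ℝ) ^ j')
    (hDD : D' ≤ D) (hex : D ≤ Real.exp x * D') :
    |(j : ℝ) - (j' + 2 : ℕ)| ≤ 3 + 3 / 2 * x := by
  have hL := Real.log_two_gt_d9
  have hL2 := Real.log_two_lt_d9
  have hlog : ∀ j : ℕ, Real.log ((1 / 2 : ℝ) ^ j) = -(j * Real.log 2) := by
    intro j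
    rw [Real.log_pow, one_div, Real.log_inv]
    ring
  have hlog2 : ∀ j : ℕ, Real.log (2 * (1 / 2 : ℝ) ^ j) = Real.log 2 - j * Real.log 2 := by
    intro j
    rw [Real.log_mul (by norm_num) (by positivity), hlog]
    ring
  have hD : 0 < D := hD'.trans_le hDD
  have e1 := Real.log_le_log (by positivity) h1
  have e2 := Real.log_le_log hD h2
  have e1' := Real.log_le_log (by positivity) h1'
  have e2' := Real.log_le_log hD' h2'
  have e3 := Real.log_le_log hD' hDD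
  have e4 := Real.log_le_log hD hex
  rw [Real.log_mul (Real.exp_pos _).ne' hD'.ne', Real.log_exp] at e4
  rw [hlog] at e1 e1'
  rw [hlog2] at e2 e2'
  generalize Real.log 2 = L at *
  generalize Real.log D = a at *
  generalize Real.log D' = b at *
  push_cast
  have hj : (j : ℝ) ≤ j' + 1 := by
    -- - j' L ≤ b ≤ a ≤ L - j L
    by_contra hcon
    push Not at hcon
    nlinarith
  have hj' : (j' : ℝ) ≤ j + 1 + 3 / 2 * x := by
    by_contra hcon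
    push Not at hcon
    nlinarith
  rw [abs_le]
  constructor <;> linarith

/-- the variation of the depth along the dilates -/
theorem clo_dl {θ : ℝ} (hθ0 : 0 < θ) (hθ1 : θ < 1) {i : ℕ} {w : E} (hw : ‖w‖ < RC θ i) :
    dl θ i w - dl θ (i + 1) w ≤ 14 * (1 - θ) * dl θ i w := by
  have h1 := dl_ge hθ0 hθ1 (Nat.le_succ i) hw
  have h2 : θ ^ i ≤ 1 := pow_le_one₀ hθ0.le hθ1.le
  have h3 : 0 < θ ^ i := pow_pos hθ0 i
  have h2' : θ ^ (i + 1) ≤ 1 := pow_le_one₀ hθ0.le hθ1.le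
  have h3' : 0 < θ ^ (i + 1) := pow_pos hθ0 _
  have h4 : ‖w‖ ≤ 7 / 4 := by
    unfold RC at hw
    linarith
  have hr1 : rt θ (i + 1) * ‖w‖ < 1 := rt_mul_lt hθ0 hθ1 le_rfl hw
  have hr0 : rt θ i * ‖w‖ < 1 := rt_mul_lt hθ0 hθ1 (Nat.le_succ i) hw
  have h5 : rt θ (i + 1) - rt θ i = θ ^ i * (1 - θ) := by
    unfold rt
    rw [pow_succ]
    ring
  have h6 : dl θ i w - dl θ (i + 1) w =
      θ ^ i * (1 - θ) * ((rt θ (i + 1) * ‖w‖ + rt θ i * ‖w‖) * ‖w‖) := by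
    unfold dl
    rw [← h5]
    ring
  have h7 : (rt θ (i + 1) * ‖w‖ + rt θ i * ‖w‖) * ‖w‖ ≤ 7 / 2 := by
    calc (rt θ (i + 1) * ‖w‖ + rt θ i * ‖w‖) * ‖w‖ ≤ 2 * ‖w‖ :=
          mul_le_mul_of_nonneg_right (by linarith) (norm_nonneg _)
      _ ≤ 7 / 2 := by linarith
  rw [h6]
  calc θ ^ i * (1 - θ) * ((rt θ (i + 1) * ‖w‖ + rt θ i * ‖w‖) * ‖w‖)
      ≤ θ ^ i * (1 - θ) * (7 / 2) :=
        mul_le_mul_of_nonneg_left h7 (mul_nonneg h3.le (by linarith))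
    _ = 14 * (1 - θ) * (θ ^ i / 4) := by ring
    _ ≤ _ := mul_le_mul_of_nonneg_left h1 (by linarith)

theorem clo_dl_exp {θ : ℝ} (hθ0 : 0 < θ) (hθ1 : θ < 1) (hθ : 1 - θ ≤ 1 / 1000) {k : ℕ} {w : E}
    (hw : ‖w‖ < RC θ (k - 1)) {i : ℕ} : ∀ n : ℕ, i + n < k + 1 →
    dl θ i w ≤ Real.exp (15 * (1 - θ) * n) * dl θ (i + n) w := by
  intro n
  induction n with
  | zero => intro _; simp
  | succ n ih =>
    intro hn
    have h1 := ih (by omega)
    have hwi : ‖w‖ < RC θ (i + n) := hw.trans_le (age_RC_anti hθ0 hθ1 (by omega))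
    have h2 := clo_dl hθ0 hθ1 hwi
    have h3 : 0 < dl θ (i + n) w := by
      have h4 := dl_ge hθ0 hθ1 (Nat.le_succ (i + n)) hwi
      have h5 : 0 < θ ^ (i + n) := pow_pos hθ0 _
      linarith
    have h4 : dl θ (i + n) w ≤ Real.exp (15 * (1 - θ)) * dl θ (i + n + 1) w := by
      have h5 : (1 - 14 * (1 - θ)) * dl θ (i + n) w ≤ dl θ (i + n + 1) w := by linarith
      have h6 : 1 ≤ Real.exp (15 * (1 - θ)) * (1 - 14 * (1 - θ)) := by
        have h7 := Real.add_one_le_exp (15 * (1 - θ))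
        have h8 : 0 ≤ 1 - 14 * (1 - θ) := by linarith
        have h9 : 0 < 1 - θ := by linarith
        calc (1 : ℝ) ≤ (15 * (1 - θ) + 1) * (1 - 14 * (1 - θ)) := by nlinarith
          _ ≤ _ := mul_le_mul_of_nonneg_right h7 h8
      calc dl θ (i + n) w = 1 * dl θ (i + n) w := (one_mul _).symm
        _ ≤ Real.exp (15 * (1 - θ)) * (1 - 14 * (1 - θ)) * dl θ (i + n) w :=
          mul_le_mul_of_nonneg_right h6 h3.le
        _ = Real.exp (15 * (1 - θ)) * ((1 - 14 * (1 - θ)) * dl θ (i + n) w) := by ring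
        _ ≤ _ := mul_le_mul_of_nonneg_left h5 (Real.exp_pos _).le
    calc dl θ i w ≤ Real.exp (15 * (1 - θ) * n) * dl θ (i + n) w := h1
      _ ≤ Real.exp (15 * (1 - θ) * n) * (Real.exp (15 * (1 - θ)) * dl θ (i + n + 1) w) :=
        mul_le_mul_of_nonneg_left h4 (Real.exp_pos _).le
      _ = _ := by
        rw [← mul_assoc, ← Real.exp_add]
        push_cast
        rw [← add_assoc i n 1]
        congr 2
        ring

/-- the size of an increment in terms of the depth -/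
theorem clo_inc {θ : ℝ} (hθ0 : 0 < θ) (hθ1 : θ < 1) (hθ : 1 - θ ≤ 1 / 1000) {u : E → ℂ}
    {e : ℕ → ℝ} (hu : SD.Grad u e) {i : ℕ} {w : E} (hw : ‖w‖ < RC θ i) {j : ℕ}
    (h1 : (1 / 2 : ℝ) ^ j ≤ dl θ i w) (h2 : dl θ i w ≤ 2 * (1 / 2 : ℝ) ^ j) :
    ‖uk u θ (i + 1) w - uk u θ i w‖ ≤ 56 * (1 - θ) * e (j + 2) := by
  have hd := clo_dl hθ0 hθ1 hw
  have hg := dl_ge hθ0 hθ1 (Nat.le_succ i) hw
  have h3 : 0 < θ ^ i := pow_pos hθ0 i
  have h2i : θ ^ i ≤ 1 := pow_le_one₀ hθ0.le hθ1.le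
  have h2' : θ ^ (i + 1) ≤ 1 := pow_le_one₀ hθ0.le hθ1.le
  have h4 : ‖w‖ ≤ 7 / 4 := by
    unfold RC at hw
    linarith
  have hr1 : rt θ (i + 1) * ‖w‖ < 1 := rt_mul_lt hθ0 hθ1 le_rfl hw
  have hr0 := PTDl_rt_nonneg hθ0 hθ1 i
  have hr0' := PTDl_rt_nonneg hθ0 hθ1 (i + 1)
  have hj := SD.half_pow_pos j
  have h5 : rt θ (i + 1) - rt θ i = θ ^ i * (1 - θ) := by
    unfold rt
    rw [pow_succ]
    ring
  have hrr : rt θ (i + 1) * ‖w‖ ≤ SD.rr (j + 2) := by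
    have h6 : dl θ (i + 1) w = (1 - rt θ (i + 1) * ‖w‖) * (1 + rt θ (i + 1) * ‖w‖) := by
      unfold dl; ring
    have h7 : dl θ (i + 1) w ≤ (1 - rt θ (i + 1) * ‖w‖) * 2 := by
      rw [h6]
      exact mul_le_mul_of_nonneg_left (by linarith) (by linarith)
    have h8 : dl θ i w / 2 ≤ dl θ (i + 1) w := by
      have h9 : 0 < dl θ i w := by linarith
      nlinarith
    unfold SD.rr
    rw [pow_add]
    norm_num
    norm_num at hj h1 h2
    linarith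
  have hmain := hu.radial (k := j + 2) hr0 (PTDl_rt_mono hθ0 hθ1 (Nat.le_succ i)) (z := w) hrr
  refine hmain.trans ?_
  have he := hu.nonneg (j + 2)
  rw [h5]
  have h9 : ((1 : ℝ) / 2) ^ (j + 2) = (1 / 2) ^ j / 4 := by rw [pow_add]; ring
  rw [h9]
  have h10 : θ ^ i ≤ 8 * (1 / 2) ^ j := by linarith
  calc θ ^ i * (1 - θ) * ‖w‖ * (e (j + 2) / ((1 / 2) ^ j / 4))
      ≤ (8 * (1 / 2) ^ j) * (1 - θ) * (7 / 4) * (e (j + 2) / ((1 / 2) ^ j / 4)) := by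
        have : 0 ≤ 1 - θ := by linarith
        gcongr
    _ = _ := by
        field_simp
        ring

end Pool.Agent.MPca0fc2.MX.Q.T
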