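import Mathlib
import Pool.Agent.Lib.MP_ca0fc2_an.MXQTVq
import Pool.Agent.Lib.MP_ca0fc2_an.Mg.G051
import Pool.Agent.Lib.MP_ca0fc2_an.TMClo1

set_option autoImplicit false

open Metric Set MeasureTheory Filter Topology

open scoped InnerProductSpace ENNReal

namespace Pool.Agent.MPca0fc2.MX.Q.T

open Pool.Agent.MPca0fc2.PT Pool.Agent.MPca0fc2.QT

variable {E : Type*} [NormedAddCommGroup E] [InnerProductSpace ℂ E]

variable [FiniteDimensional ℂ E] [MeasurableSpace E] [BorelSpace E]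

/-- the aged approximation is close: the power type -/
theorem vq_close_all {θ ϑ : ℝ} (hθ0 : 0 < θ) (hθ1 : θ < 1) (h0 : 0 < ϑ) (h1 : ϑ < 1)
    {C₀ p ρ : ℝ} (hC₀ : 0 < C₀) (hp : 1 ≤ p) (hρ : 0 < ρ) :
    ∃ c₀ : ℝ, 0 < c₀ ∧ c₀ ≤ 1 ∧ ∀ c : ℝ, 0 < c → c ≤ c₀ →
      ∀ (ν : Ptl E) (u : E → ℂ) (M A : ℝ), MX.HU ν u M A p C₀ →
      ∀ (k : ℕ) (w : E), ‖w‖ < RC θ (k - 1) →
        ‖uk u θ k w - vq ν u θ ϑ c k w‖ ≤ ρ := by
  obtain ⟨C, hC, hd⟩ := MX.Q.d_bound' (E := E) hθ0 hθ1 hC₀ hp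
  obtain ⟨q, hq⟩ : ∃ q, q = ϑ ^ (1 / p) := ⟨_, rfl⟩
  have hp0 : 0 < p := by linarith
  have hq0 : 0 < q := by rw [hq]; exact Real.rpow_pos_of_pos h0 _
  have hq1 : q < 1 := by rw [hq]; exact Real.rpow_lt_one h0.le h1 (by positivity)
  obtain ⟨η, hη⟩ : ∃ η, η = ρ * (1 - q) / C := ⟨_, rfl⟩
  have hη0 : 0 < η := by
    rw [hη]
    have : 0 < 1 - q := by linarith
    positivity
  refine ⟨min 1 (η ^ p / 2), lt_min one_pos (by positivity), min_le_left _ _, ?_⟩
  intro c hc0 hcc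
  have hc2 : (2 * c) ^ (1 / p) ≤ η := by
    have h3 : 2 * c ≤ η ^ p := by
      have : c ≤ η ^ p / 2 := hcc.trans (min_le_right _ _)
      linarith
    calc (2 * c) ^ (1 / p) ≤ (η ^ p) ^ (1 / p) := by
          apply Real.rpow_le_rpow (by positivity) h3 (by positivity)
      _ = η := by
          rw [← Real.rpow_mul hη0.le, mul_one_div_cancel hp0.ne', Real.rpow_one]
  intro ν u M A hu k w hw
  have hth := And.intro hθ0 hθ1
  have e1 : uk u θ k w - vq ν u θ ϑ c k w =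
      ∑ i ∈ Finset.range k, (((1 - psi (Ei ν θ i w / (c * ϑ ^ (k - i))) : ℝ) : ℂ) *
        (uk u θ (i + 1) w - uk u θ i w)) := by
    rw [age_telescope, vq, add_sub_add_left_eq_sub, ← Finset.sum_sub_distrib]
    apply Finset.sum_congr rfl
    intro i _
    push_cast
    ring
  rw [e1]
  refine (norm_sum_le _ _).trans ?_
  have e2 : ∀ i ∈ Finset.range k, ‖(((1 - psi (Ei ν θ i w / (c * ϑ ^ (k - i))) : ℝ) : ℂ) *
        (uk u θ (i + 1) w - uk u θ i w))‖ ≤ C * η * q ^ (k - i) := by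
    intro i hi
    rw [Finset.mem_range] at hi
    have hwi : ‖w‖ < RC θ i := hw.trans_le (age_RC_anti hth.1 hth.2 hi)
    obtain ⟨hd1, -⟩ := hd ν u M A hu i w hwi
    have hE0 : 0 ≤ Ei ν θ i w := EE_nonneg _ _
    have ha : 0 < c * ϑ ^ (k - i) := by positivity
    have hpm := psi_mem (Ei ν θ i w / (c * ϑ ^ (k - i)))
    rw [norm_mul, Complex.norm_real, Real.norm_of_nonneg (by linarith)]
    by_cases h2 : 2 ≤ Ei ν θ i w / (c * ϑ ^ (k - i))
    · rw [psi_one h2]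
      simp only [sub_self, zero_mul]
      positivity
    push Not at h2
    rw [div_lt_iff₀ ha] at h2
    have h3 : Ei ν θ i w ^ (1 / p) ≤ η * q ^ (k - i) := by
      calc Ei ν θ i w ^ (1 / p) ≤ (2 * c * ϑ ^ (k - i)) ^ (1 / p) := by
            apply Real.rpow_le_rpow hE0 (by linarith) (by positivity)
        _ = (2 * c) ^ (1 / p) * (ϑ ^ (k - i)) ^ (1 / p) := by
            rw [Real.mul_rpow (by positivity) (by positivity)]
        _ = (2 * c) ^ (1 / p) * q ^ (k - i) := by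
            rw [hq, ← Real.rpow_natCast, ← Real.rpow_natCast, ← Real.rpow_mul h0.le,
              ← Real.rpow_mul h0.le, mul_comm (((k - i : ℕ) : ℝ))]
        _ ≤ η * q ^ (k - i) := by gcongr
    calc _ ≤ 1 * (C * Ei ν θ i w ^ (1 / p)) := by
          apply mul_le_mul (by linarith) hd1 (norm_nonneg _) (by norm_num)
      _ ≤ 1 * (C * (η * q ^ (k - i))) := by gcongr
      _ = _ := by ring
  refine (Finset.sum_le_sum e2).trans ?_
  rw [← Finset.mul_sum]
  calc C * η * ∑ i ∈ Finset.range k, q ^ (k - i) ≤ C * η * (1 - q)⁻¹ := by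
        apply mul_le_mul_of_nonneg_left (age_geom hq0.le hq1 k) (by positivity)
    _ = ρ := by
        rw [hη]
        have : (1 - q) ≠ 0 := by linarith
        field_simp

omit [FiniteDimensional ℂ E] [MeasurableSpace E] [BorelSpace E] in
/-- the aged approximation is close: the slow type -/
theorem slow_close {θ ϑ : ℝ} {P : ℕ} (h0 : 0 < ϑ) (h1 : ϑ < 1) (hP : θ = ϑ ^ P) (hP0 : P ≠ 0)
    (hθ : 1 - θ ≤ 1 / 1000) {ρ Am c' c : ℝ} (hρ1 : ρ ≤ 1) (hAm : 1 ≤ Am)
    (hc' : 0 < c') (hsm : 10000 * P * Am * c' ≤ ρ) (hc : 0 < c) (hc1 : c ≤ 1 / 10)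
    {e : ℕ → ℝ} (he : ∀ j, 0 < e j) (hV : ∀ k, |1 / e (k + 1) - 1 / e k| ≤ 1)
    (heA : ∀ k, e k ≤ Am) {ν : Ptl E}
    (hν : ∀ y : E, ‖y‖ < 1 → ∀ j : ℕ, (1 / 2 : ℝ) ^ j ≤ 1 - ‖y‖ ^ 2 →
      1 - ‖y‖ ^ 2 ≤ 2 * (1 / 2 : ℝ) ^ j → Real.exp (-(c' / e j)) / 5 ≤ EE ν y)
    {u : E → ℂ} (hu : SD.Grad u e) (k : ℕ) (w : E) (hw : ‖w‖ < RC θ (k - 1)) :
    ‖uk u θ k w - vq ν u θ ϑ c k w‖ ≤ ρ / 2 := by
  have hθ0 : 0 < θ := by rw [hP]; positivity
  have hθ1 : θ < 1 := by rw [hP]; exact pow_lt_one₀ h0.le h1 hP0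
  have hPp : (0 : ℝ) < P := by exact_mod_cast Nat.pos_of_ne_zero hP0
  have hP1 : (1 : ℝ) ≤ P := by exact_mod_cast Nat.pos_of_ne_zero hP0
  obtain ⟨l, hl⟩ : ∃ l, l = -Real.log ϑ := ⟨_, rfl⟩
  have hl0 : 0 < l := by rw [hl]; have := Real.log_neg h0 h1; linarith
  have hth : 1 - θ ≤ P * l := by
    have h3 : θ = Real.exp (-(P * l)) := by
      rw [hP, hl, ← Real.exp_log (pow_pos h0 P), Real.log_pow]
      congr 1
      ring
    have h4 := Real.add_one_le_exp (-(P * l))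
    rw [← h3] at h4
    linarith
  have h1θ : 0 < 1 - θ := by linarith
  -- the depths
  have hdep : ∀ i, i < k → ∃ j : ℕ, (1 / 2 : ℝ) ^ j ≤ dl θ i w ∧ dl θ i w ≤ 2 * (1 / 2 : ℝ) ^ j := by
    intro i hi
    have hwi : ‖w‖ < RC θ i := hw.trans_le (age_RC_anti hθ0 hθ1 hi)
    have h2 := dl_ge hθ0 hθ1 (Nat.le_succ i) hwi
    have h3 : 0 < θ ^ i := pow_pos hθ0 i
    exact clo_depth (by linarith) (dl_le_one i w)
  choose! J hJ1 hJ2 using hdep
  have e1 : uk u θ k w - vq ν u θ ϑ c k w =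
      ∑ i ∈ Finset.range k, (((1 - psi (Ei ν θ i w / (c * ϑ ^ (k - i))) : ℝ) : ℂ) *
        (uk u θ (i + 1) w - uk u θ i w)) := by
    rw [age_telescope, vq, add_sub_add_left_eq_sub, ← Finset.sum_sub_distrib]
    apply Finset.sum_congr rfl
    intro i _
    push_cast
    ring
  rw [e1]
  refine (norm_sum_le _ _).trans ?_
  obtain ⟨W, hW⟩ : ∃ W : Finset ℕ, W = (Finset.range k).filter
    (fun i => Ei ν θ i w < 2 * c * ϑ ^ (k - i)) := ⟨_, rfl⟩
  have hterm : ∀ i ∈ Finset.range k, ‖(((1 - psi (Ei ν θ i w / (c * ϑ ^ (k - i))) : ℝ) : ℂ) *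
        (uk u θ (i + 1) w - uk u θ i w))‖ ≤
        if i ∈ W then 56 * (1 - θ) * e (J i + 2) else 0 := by
    intro i hi
    have hi' := Finset.mem_range.1 hi
    have hwi : ‖w‖ < RC θ i := hw.trans_le (age_RC_anti hθ0 hθ1 hi')
    have hpm := psi_mem (Ei ν θ i w / (c * ϑ ^ (k - i)))
    rw [norm_mul, Complex.norm_real, Real.norm_of_nonneg (by linarith)]
    by_cases hiW : i ∈ W
    · rw [if_pos hiW]
      calc _ ≤ 1 * (56 * (1 - θ) * e (J i + 2)) :=
            mul_le_mul (by linarith) (clo_inc hθ0 hθ1 hθ hu hwi (hJ1 i hi') (hJ2 i hi'))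
              (norm_nonneg _) (by norm_num)
        _ = _ := one_mul _
    · rw [if_neg hiW]
      rw [hW, Finset.mem_filter, not_and] at hiW
      have h2 := hiW hi
      push Not at h2
      rw [psi_one]
      · simp
      · rw [le_div_iff₀ (by positivity)]
        linarith
  refine (Finset.sum_le_sum hterm).trans ?_
  rw [← Finset.sum_filter]
  have hfW : (Finset.range k).filter (fun i => i ∈ W) = W := by
    ext i
    rw [Finset.mem_filter, hW, Finset.mem_filter]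
    tauto
  rw [hfW]
  rcases W.eq_empty_or_nonempty with hWe | hWn
  · rw [hWe, Finset.sum_empty]
    have : 0 ≤ 10000 * P * Am * c' := by positivity
    linarith
  obtain ⟨i0, hi0⟩ : ∃ i0, i0 = W.min' hWn := ⟨_, rfl⟩
  have hi0W : i0 ∈ W := by rw [hi0]; exact W.min'_mem hWn
  have hi0k : i0 < k := by
    rw [hW, Finset.mem_filter] at hi0W
    exact Finset.mem_range.1 hi0W.1
  obtain ⟨n, hn⟩ : ∃ n, n = k - i0 := ⟨_, rfl⟩
  have hn1 : 1 ≤ n := by omega
  have hnp : (1 : ℝ) ≤ n := by exact_mod_cast hn1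
  have hWsub : W ⊆ Finset.Ico i0 k := by
    intro i hi
    rw [Finset.mem_Ico]
    refine ⟨?_, ?_⟩
    · rw [hi0]; exact W.min'_le i hi
    · rw [hW, Finset.mem_filter] at hi
      exact Finset.mem_range.1 hi.1
  have hcard : (W.card : ℝ) ≤ n := by
    have h2 := Finset.card_le_card hWsub
    rw [Nat.card_Ico, ← hn] at h2
    exact_mod_cast h2
  -- the value at `i0`
  have hval : l * n / c' ≤ 1 / e (J i0) := by
    have hwi : ‖w‖ < RC θ i0 := hw.trans_le (age_RC_anti hθ0 hθ1 hi0k)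
    have hlt : Ei ν θ i0 w < 2 * c * ϑ ^ n := by
      rw [hW, Finset.mem_filter] at hi0W
      rw [hn]
      exact hi0W.2
    have hnm := age_norm_smul hθ0 hθ1 i0 w
    have hy1 : ‖(rt θ i0 : ℂ) • w‖ < 1 := by
      rw [hnm]
      exact rt_mul_lt hθ0 hθ1 (Nat.le_succ i0) hwi
    have hdl : 1 - ‖(rt θ i0 : ℂ) • w‖ ^ 2 = dl θ i0 w := by
      rw [hnm]
      unfold dl
      ring
    have h2 := hν _ hy1 (J i0) (by rw [hdl]; exact hJ1 i0 hi0k) (by rw [hdl]; exact hJ2 i0 hi0k)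
    have h3 : Real.exp (-(c' / e (J i0))) ≤ ϑ ^ n := by
      have h4 : Real.exp (-(c' / e (J i0))) / 5 < 2 * c * ϑ ^ n := h2.trans_lt hlt
      have h5 : 0 < ϑ ^ n := by positivity
      have h6 : c * ϑ ^ n ≤ 1 / 10 * ϑ ^ n := mul_le_mul_of_nonneg_right hc1 h5.le
      linarith
    have h4 := Real.log_le_log (Real.exp_pos _) h3
    rw [Real.log_exp, Real.log_pow] at h4
    have h5 : l * n ≤ c' / e (J i0) := by
      rw [hl]
      linarith
    rw [div_le_iff₀ hc', one_div_mul_eq_div]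
    exact h5
  have hPc : 120 * P * c' ≤ 1 := by
    have h2 : (P : ℝ) * c' ≤ P * Am * c' := by
      have : (P : ℝ) * 1 * c' ≤ P * Am * c' := by gcongr
      linarith
    have h3 : 0 < (P : ℝ) * c' := by positivity
    nlinarith
  -- the values in the window
  have hwin : ∀ i ∈ W, 3 / 4 * (l * n / c') - 3 ≤ 1 / e (J i + 2) := by
    intro i hi
    have hi2 := Finset.mem_Ico.1 (hWsub hi)
    obtain ⟨m, hm⟩ : ∃ m, i = i0 + m := ⟨i - i0, by omega⟩
    have hmn : (m : ℝ) ≤ n := by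
      have : m ≤ n := by omega
      exact_mod_cast this
    have hwi : ‖w‖ < RC θ i := hw.trans_le (age_RC_anti hθ0 hθ1 hi2.2)
    have hDi : 0 < dl θ i w := by
      have h4 := dl_ge hθ0 hθ1 (Nat.le_succ i) hwi
      have h5 : 0 < θ ^ i := pow_pos hθ0 _
      linarith
    have hex := clo_dl_exp hθ0 hθ1 hθ hw (i := i0) m (by omega)
    rw [← hm] at hex
    have hjj := clo_jj hDi (by positivity) (hJ1 i0 hi0k) (hJ2 i0 hi0k) (hJ1 i hi2.2) (hJ2 i hi2.2)
      (dl_anti hθ0 hθ1 hi2.1 w) hex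
    have hlip := clo_lip' (V := fun k => 1 / e k) hV (J i0) (J i + 2)
    have h2 : 3 / 2 * (15 * (1 - θ) * m) ≤ 1 / 4 * (l * n / c') := by
      have h3 : 3 / 2 * (15 * (1 - θ) * m) ≤ 3 / 2 * (15 * (P * l) * n) := by gcongr
      refine h3.trans ?_
      rw [← mul_div_assoc, le_div_iff₀ hc']
      have h4 : 0 < l * n := by positivity
      nlinarith
    linarith
  have he0 : ∀ i, 0 < e i := he
  have hsum : ∀ B : ℝ, (∀ i ∈ W, e (J i + 2) ≤ B) → 0 ≤ B →
      ∑ i ∈ W, 56 * (1 - θ) * e (J i + 2) ≤ 56 * (P * l) * n * B := by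
    intro B hB hB0
    calc ∑ i ∈ W, 56 * (1 - θ) * e (J i + 2) ≤ ∑ _i ∈ W, 56 * (P * l) * B := by
          refine Finset.sum_le_sum fun i hi => ?_
          have := hB i hi
          have := (he0 (J i + 2)).le
          gcongr
      _ = W.card * (56 * (P * l) * B) := by rw [Finset.sum_const, nsmul_eq_mul]
      _ ≤ n * (56 * (P * l) * B) := by gcongr
      _ = _ := by ring
  by_cases hcase : l * n / c' ≤ 8
  · refine (hsum Am (fun i _ => heA _) (by linarith)).trans ?_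
    have h2 : l * n ≤ 8 * c' := by
      rwa [div_le_iff₀ hc'] at hcase
    calc 56 * (P * l) * n * Am = 56 * P * Am * (l * n) := by ring
      _ ≤ 56 * P * Am * (8 * c') := by gcongr
      _ ≤ ρ / 2 := by
        have : 0 < P * Am * c' := by positivity
        nlinarith
  · push Not at hcase
    have hx : 0 < l * n / c' := by positivity
    refine (hsum (8 / 3 / (l * n / c')) ?_ (by positivity)).trans ?_
    · intro i hi
      have h2 := hwin i hi
      have h3 : 3 / 8 * (l * n / c') ≤ 1 / e (J i + 2) := by linarith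
      rw [le_div_iff₀ (he0 _)] at h3
      rw [le_div_iff₀ hx]
      linarith
    · have h4 : 56 * (P * l) * n * (8 / 3 / (l * n / c')) = 56 * 8 / 3 * P * c' := by
        field_simp
      rw [h4]
      have h5 : (P : ℝ) * c' ≤ P * Am * c' := by
        have : (P : ℝ) * 1 * c' ≤ P * Am * c' := by gcongr
        linarith
      have h6 : 0 < (P : ℝ) * c' := by positivity
      nlinarith

end Pool.Agent.MPca0fc2.MX.Q.T
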