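import Mathlib
import Pool.Agent.Lib.MP_ca0fc2_an.MXQTDefs

set_option autoImplicit false

open Metric Set MeasureTheory Filter Topology

open scoped InnerProductSpace ENNReal

namespace Pool.Agent.MPca0fc2.MX.Q

open Pool.Agent.MPca0fc2.PT Pool.Agent.MPca0fc2.QT

variable {E : Type*} [NormedAddCommGroup E] [InnerProductSpace ℂ E]

variable [FiniteDimensional ℂ E] [MeasurableSpace E] [BorelSpace E]

theorem SQ_nonneg {θ ϑ : ℝ} (h0 : 0 < ϑ) (ν : Ptl E) (k : ℕ) (w : E) :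
    0 ≤ SQ ν θ ϑ k w := by
  unfold SQ
  exact Finset.sum_nonneg fun i _ => mul_nonneg (pow_nonneg h0.le _) (EE_nonneg ν _)

theorem SQ_le {θ ϑ : ℝ} (hθ0 : 0 < θ) (hθ1 : θ < 1) (h0 : 0 < ϑ) (h1 : ϑ < 1) {ν : Ptl E}
    {A : ℝ} (h : Carl ν A) {k : ℕ} {w : E} (hw : ‖w‖ < RC θ k) :
    SQ ν θ ϑ k w ≤ A / (1 - ϑ ^ 2) := by
  have hϑ : ϑ ^ 2 < 1 := pow_lt_one₀ h0.le h1 (by norm_num)
  have e1 : SQ ν θ ϑ k w ≤ ∑ i ∈ Finset.range (k + 1), ϑ ^ (2 * (k - i)) * A := by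
    unfold SQ
    refine Finset.sum_le_sum fun i hi => mul_le_mul_of_nonneg_left ?_ (pow_nonneg h0.le _)
    have hi' : i ≤ k := Nat.lt_succ_iff.mp (Finset.mem_range.mp hi)
    have h2 := rt_smul_mem hθ0 hθ1 (i := i) (k := k) (by omega) hw
    rw [mem_ball_zero_iff] at h2
    exact EE_le h h2
  have e2 : ∑ i ∈ Finset.range (k + 1), ϑ ^ (2 * (k - i)) =
      ∑ j ∈ Finset.range (k + 1), (ϑ ^ 2) ^ j := by
    rw [← Finset.sum_range_reflect (fun j => (ϑ ^ 2) ^ j) (k + 1)]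
    refine Finset.sum_congr rfl fun i _ => ?_
    rw [← pow_mul]
    congr 1
  have e3 : ∑ j ∈ Finset.range (k + 1), (ϑ ^ 2) ^ j ≤ 1 / (1 - ϑ ^ 2) := by
    rw [le_div_iff₀ (by linarith)]
    have e4 := geom_sum_mul_neg (ϑ ^ 2) (k + 1)
    have e5 : (∑ j ∈ Finset.range (k + 1), (ϑ ^ 2) ^ j) * (1 - ϑ ^ 2) =
        1 - (ϑ ^ 2) ^ (k + 1) := e4
    have e6 : 0 ≤ (ϑ ^ 2) ^ (k + 1) := by positivity
    linarith
  rw [← Finset.sum_mul, e2] at e1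
  calc SQ ν θ ϑ k w ≤ (∑ j ∈ Finset.range (k + 1), (ϑ ^ 2) ^ j) * A := e1
    _ ≤ 1 / (1 - ϑ ^ 2) * A := mul_le_mul_of_nonneg_right e3 h.1
    _ = A / (1 - ϑ ^ 2) := by ring

theorem SQ_succ (ν : Ptl E) (θ ϑ : ℝ) (k : ℕ) (w : E) :
    SQ ν θ ϑ (k + 1) w = ϑ ^ 2 * SQ ν θ ϑ k w + Ei ν θ (k + 1) w := by
  unfold SQ
  rw [Finset.sum_range_succ _ (k + 1), Finset.mul_sum]
  congr 1
  · refine Finset.sum_congr rfl fun i hi => ?_
    have hi' : i ≤ k := Nat.lt_succ_iff.mp (Finset.mem_range.mp hi)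
    have e1 : 2 * (k + 1 - i) = 2 + 2 * (k - i) := by omega
    rw [e1, pow_add, mul_assoc]
  · rw [Nat.sub_self, mul_zero, pow_zero, one_mul]

theorem SQ_sum (ν : Ptl E) (θ ϑ : ℝ) (w : E) {j k : ℕ} (hjk : j ≤ k) :
    (1 - ϑ ^ 2) * ∑ i ∈ Finset.Ico j k, SQ ν θ ϑ i w + SQ ν θ ϑ k w =
      SQ ν θ ϑ j w + ∑ i ∈ Finset.Ioc j k, Ei ν θ i w := by
  induction k, hjk using Nat.le_induction with
  | base => simp
  | succ k hjk ih =>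
    rw [Finset.sum_Ico_succ_top hjk, SQ_succ, Finset.sum_Ioc_succ_top hjk]
    linarith

end Pool.Agent.MPca0fc2.MX.Q
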