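import Mathlib
import Pool.Agent.Lib.MP_ca0fc2_an.MXQTSQ
import Pool.Agent.Lib.MP_ca0fc2_an.Mg.G015

set_option autoImplicit false

open Metric Set MeasureTheory Filter Topology

open scoped InnerProductSpace ENNReal

namespace Pool.Agent.MPca0fc2.MX.Q

open Pool.Agent.MPca0fc2.PT Pool.Agent.MPca0fc2.QT

variable {E : Type*} [NormedAddCommGroup E] [InnerProductSpace ℂ E]

variable [FiniteDimensional ℂ E] [MeasurableSpace E] [BorelSpace E]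

/-- the comparison of the local potentials, from a lower bound of the kernel -/
theorem cmq_EE {ν : Ptl E} {A : ℝ} (h : Carl ν A) {x y : E} (hx : ‖x‖ < 1)
    (hy : ‖y‖ < 1) {κ : ℝ} (hκ : 0 < κ) (hH : κ ≤ HH x y) :
    EE ν x ≤ 16 * (κ⁻¹) ^ 2 * EE ν y := by
  have h1 := EE_compare h hx hy
  have h2 := EE_nonneg ν x
  have h3 : κ ^ 2 ≤ HH x y ^ 2 := pow_le_pow_left₀ hκ.le hH 2
  have h4 : EE ν x * κ ^ 2 ≤ 16 * EE ν y := le_trans (by gcongr) h1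
  calc EE ν x = (κ⁻¹) ^ 2 * (EE ν x * κ ^ 2) := by field_simp
    _ ≤ (κ⁻¹) ^ 2 * (16 * EE ν y) := by gcongr
    _ = _ := by ring

theorem cmq_term {θ : ℝ} (h0 : 0 < θ) (h1 : θ < 1) {ν : Ptl E} {A : ℝ} (h : Carl ν A)
    {k : ℕ} {R : ℝ} (hR1 : 1 ≤ R) (hR : R ≤ RC θ k) {z w : E} (hz : ‖z‖ < R) (hw : ‖w‖ < R)
    {i : ℕ} (hik : i ≤ k) :
    (‖((R ^ 2 : ℝ) : ℂ) - ⟪w, z⟫_ℂ‖ ≤ θ ^ i →
      Ei ν θ i w ≤ 16 * 1600 ^ 2 * Ei ν θ i z) ∧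
    (∀ j, j ≤ i → ‖((R ^ 2 : ℝ) : ℂ) - ⟪w, z⟫_ℂ‖ ≤ 7 * θ ^ j →
      θ * θ ^ j ≤ ‖((R ^ 2 : ℝ) : ℂ) - ⟪w, z⟫_ℂ‖ →
      Ei ν θ i w ≤ 16 * (17408 / θ) ^ 2 *
        (‖((R ^ 2 : ℝ) : ℂ) - ⟪w, z⟫_ℂ‖ / (R ^ 2 - ‖w‖ ^ 2)) ^ 2 * Ei ν θ j z) := by
  have hwR := lt_of_lt_of_le hw hR
  have hzR := lt_of_lt_of_le hz hR
  have hwi : ‖(rt θ i : ℂ) • w‖ < 1 := by
    have := rt_smul_mem h0 h1 (by omega : i ≤ k + 1) hwR
    rwa [mem_ball_zero_iff] at this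
  have hnorm : ∀ (j : ℕ) (v : E), 1 - ‖(rt θ j : ℂ) • v‖ ^ 2 = dl θ j v := by
    intro j v
    rw [norm_smul, Complex.norm_real, Real.norm_eq_abs, mul_pow, sq_abs]
    rfl
  constructor
  · intro hD
    have hzi : ‖(rt θ i : ℂ) • z‖ < 1 := by
      have := rt_smul_mem h0 h1 (by omega : i ≤ k + 1) hzR
      rwa [mem_ball_zero_iff] at this
    have hi0 : 0 < θ ^ i := by positivity
    have hden := cmq_den h0 h1 hR1 hR hz.le hw.le (le_refl i) hik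
    have hden0 : 0 < ‖1 - ⟪(rt θ i : ℂ) • w, (rt θ i : ℂ) • z⟫_ℂ‖ := by
      obtain ⟨a1, a2⟩ := geo_one_sub hwi hzi
      linarith
    have hk : (1600 : ℝ)⁻¹ ≤ HH ((rt θ i : ℂ) • w) ((rt θ i : ℂ) • z) := by
      unfold HH
      rw [hnorm, hnorm, inv_eq_one_div, div_le_div_iff₀ (by norm_num) (by positivity)]
      have d1 := dl_ge h0 h1 (by omega : i ≤ k + 1) hwR
      have d2 := dl_ge h0 h1 (by omega : i ≤ k + 1) hzR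
      have d0 : 0 ≤ dl θ i w := by linarith
      have d3 : (θ ^ i / 4) * (θ ^ i / 4) ≤ dl θ i w * dl θ i z := by gcongr
      have d4 : ‖1 - ⟪(rt θ i : ℂ) • w, (rt θ i : ℂ) • z⟫_ℂ‖ ^ 2 ≤ (10 * θ ^ i) ^ 2 :=
        pow_le_pow_left₀ hden0.le (by linarith) 2
      nlinarith
    have := cmq_EE h hwi hzi (by norm_num) hk
    rw [inv_inv] at this
    exact this
  · intro j hji hD7 hDθ
    have hzj : ‖(rt θ j : ℂ) • z‖ < 1 := by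
      have := rt_smul_mem h0 h1 (by omega : j ≤ k + 1) hzR
      rwa [mem_ball_zero_iff] at this
    have hj0 : 0 < θ ^ j := by positivity
    have hden := cmq_den h0 h1 hR1 hR hz.le hw.le hji hik
    set D := ‖((R ^ 2 : ℝ) : ℂ) - ⟪w, z⟫_ℂ‖ with hDdef
    have hD0 : 0 < D := lt_of_lt_of_le (by positivity) hDθ
    have he0 : 0 < R ^ 2 - ‖w‖ ^ 2 := by
      have := norm_nonneg w
      nlinarith
    set e := R ^ 2 - ‖w‖ ^ 2 with hedef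
    have hden0 : 0 < ‖1 - ⟪(rt θ i : ℂ) • w, (rt θ j : ℂ) • z⟫_ℂ‖ := by
      obtain ⟨a1, a2⟩ := geo_one_sub hwi hzj
      linarith
    have hk : e * θ / (17408 * D) ≤ HH ((rt θ i : ℂ) • w) ((rt θ j : ℂ) • z) := by
      unfold HH
      rw [hnorm, hnorm, div_le_div_iff₀ (by positivity) (by positivity)]
      have d1 : e ≤ 17 * dl θ i w := cmq_dlw h0 h1 hR1 hR hw hik
      have d2 := dl_ge h0 h1 (by omega : j ≤ k + 1) hzR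
      have d3 : (e / 17) * (θ ^ j / 4) ≤ dl θ i w * dl θ j z := by
        have h17 : e / 17 ≤ dl θ i w := by linarith
        have d0 : 0 ≤ dl θ i w := by linarith
        gcongr
      have d4 : ‖1 - ⟪(rt θ i : ℂ) • w, (rt θ j : ℂ) • z⟫_ℂ‖ ^ 2 ≤ (16 * θ ^ j) ^ 2 :=
        pow_le_pow_left₀ hden0.le (by linarith) 2
      calc e * θ * ‖1 - ⟪(rt θ i : ℂ) • w, (rt θ j : ℂ) • z⟫_ℂ‖ ^ 2
          ≤ e * θ * (16 * θ ^ j) ^ 2 := by gcongr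
        _ = 256 * e * θ ^ j * (θ * θ ^ j) := by ring
        _ ≤ 256 * e * θ ^ j * D := by gcongr
        _ = ((e / 17) * (θ ^ j / 4)) * (17408 * D) := by ring
        _ ≤ dl θ i w * dl θ j z * (17408 * D) := by gcongr
    have := cmq_EE h hwi hzj (by positivity) hk
    have e5 : (e * θ / (17408 * D))⁻¹ = (17408 / θ) * (D / e) := by
      field_simp
    rw [e5, mul_pow, ← mul_assoc] at this
    exact this

theorem SQ_compare {θ ϑ : ℝ} (h0 : 0 < ϑ) (h1 : ϑ < 1) {P : ℕ} (hP : θ = ϑ ^ P) (hP4 : 4 ≤ P)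
    {c₀ : ℝ} (hc₀ : 0 < c₀) {γ : ℝ} (hγ : 1 / 2 + 2 / P ≤ γ) (hγ1 : γ ≤ 1) :
    ∃ C : ℝ, 0 < C ∧ ∀ (ν : Ptl E) (A : ℝ), Carl ν A → ∀ (k : ℕ) (R : ℝ) (z w : E),
      1 ≤ R → R ≤ RC θ k → ‖z‖ + c₀ * θ ^ k ≤ R → ‖w‖ < R →
      xk θ k w ^ γ * SQ ν θ ϑ k w ≤ C * (xk θ k z ^ (γ - 2 / P) * SQ ν θ ϑ k z) *
        (‖((R ^ 2 : ℝ) : ℂ) - ⟪w, z⟫_ℂ‖ / (R ^ 2 - ‖w‖ ^ 2)) ^ 3 *
          Real.sqrt ((R ^ 2 - ‖z‖ ^ 2) / ‖((R ^ 2 : ℝ) : ℂ) - ⟪w, z⟫_ℂ‖) := by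
  have hP0 : (0 : ℝ) < P := by
    have : 0 < P := by omega
    exact_mod_cast this
  have hθ0 : 0 < θ := by rw [hP]; positivity
  have hθ1 : θ < 1 := by rw [hP]; exact pow_lt_one₀ h0.le h1 (by omega)
  obtain ⟨s, hs⟩ : ∃ s : ℝ, s = 2 / P := ⟨_, rfl⟩
  have hs0 : 0 ≤ s := by rw [hs]; positivity
  rw [← hs] at hγ ⊢
  have hq1 : ϑ ^ 2 < 1 := pow_lt_one₀ h0.le h1 (by norm_num)
  have hq2 : 0 < (1 - ϑ ^ 2)⁻¹ := inv_pos.2 (by linarith)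
  obtain ⟨K1, hK1⟩ : ∃ K1 : ℝ, K1 = 4 * (16 * 1600 ^ 2) + 16 * (17408 / θ) ^ 2 := ⟨_, rfl⟩
  obtain ⟨K2, hK2⟩ : ∃ K2 : ℝ, K2 = (c₀⁻¹) ^ s + (1 - ϑ ^ 2)⁻¹ * (θ⁻¹) ^ s := ⟨_, rfl⟩
  obtain ⟨c, hc⟩ : ∃ c : ℝ, c = (1 + 7 / c₀)⁻¹ := ⟨_, rfl⟩
  obtain ⟨C4, hC4⟩ : ∃ C4 : ℝ, C4 = 2 + c₀⁻¹ := ⟨_, rfl⟩
  have hK1p : 0 < K1 := by rw [hK1]; positivity
  have hK2p : 0 < K2 := by rw [hK2]; positivity
  have hcp : 0 < c := by rw [hc]; positivity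
  have hc1 : c ≤ 1 := by
    rw [hc]; apply inv_le_one_of_one_le₀
    have : 0 < 7 / c₀ := by positivity
    linarith
  have hC41 : 1 ≤ C4 := by
    have : 0 < c₀⁻¹ := by positivity
    linarith
  refine ⟨K1 * K2 * (34 * C4 / c), by positivity, ?_⟩
  intro ν A hν k R z w hR1 hR hz hw
  have hk0 : 0 < θ ^ k := by positivity
  have hk1 : θ ^ k ≤ 1 := pow_le_one₀ hθ0.le hθ1.le
  have hck : 0 < c₀ * θ ^ k := by positivity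
  have hzR : ‖z‖ < R := by linarith
  have hSz := SQ_nonneg (θ := θ) h0 ν k z
  have hSw := SQ_nonneg (θ := θ) h0 ν k w
  have hterm := fun (i : ℕ) (hik : i ≤ k) => cmq_term hθ0 hθ1 hν hR1 hR hzR hw hik
  have hdlw : R ^ 2 - ‖w‖ ^ 2 ≤ 17 * dl θ k w := cmq_dlw hθ0 hθ1 hR1 hR hw le_rfl
  have hdlw' := dl_ge hθ0 hθ1 (by omega : k ≤ k + 1) (lt_of_lt_of_le hw hR)
  have hdlz := cmq_dlz hθ0 hθ1 hc₀ hR1 hR hz
  have hdlz0 := dl_pos hθ0 hθ1 (lt_of_lt_of_le hzR hR)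
  have hxw := xk_pos hθ0 hθ1 (lt_of_lt_of_le hw hR)
  have hxz := xk_pos hθ0 hθ1 (lt_of_lt_of_le hzR hR)
  obtain ⟨hD7, he0, hd0, he2, hd2, hDc⟩ := cmq_elem hθ0 hθ1 hc₀ hR1 hR hz hw
  obtain ⟨D, hD⟩ : ∃ D : ℝ, D = ‖((R ^ 2 : ℝ) : ℂ) - ⟪w, z⟫_ℂ‖ := ⟨_, rfl⟩
  obtain ⟨e, he⟩ : ∃ e : ℝ, e = R ^ 2 - ‖w‖ ^ 2 := ⟨_, rfl⟩
  obtain ⟨d, hd⟩ : ∃ d : ℝ, d = R ^ 2 - ‖z‖ ^ 2 := ⟨_, rfl⟩
  simp only [← hD, ← he, ← hd] at *
  have hD0 : 0 < D := by linarith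
  have hDe : 1 / 2 ≤ D / e := by rw [div_le_div_iff₀ (by norm_num) he0]; linarith
  have hDe0 : 0 < D / e := by positivity
  obtain ⟨t, ht⟩ : ∃ t : ℝ, t = θ ^ k / D := ⟨_, rfl⟩
  have ht0 : 0 < t := by rw [ht]; positivity
  -- the comparison of the sums
  obtain ⟨G, hG⟩ : ∃ G : ℝ, G = (D / (θ * θ ^ k)) ^ s := ⟨_, rfl⟩
  have hG0 : 0 ≤ G := by rw [hG]; positivity
  have hSe : ∀ (j : ℕ), j ≤ k → ϑ ^ (2 * (k - j)) * Ei ν θ j z ≤ SQ ν θ ϑ k z := by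
    intro j hj
    unfold SQ
    refine Finset.single_le_sum (f := fun i => ϑ ^ (2 * (k - i)) * Ei ν θ i z) ?_
      (Finset.mem_range.2 (by omega))
    intro i _
    exact mul_nonneg (by positivity) (EE_nonneg _ _)
  have hper : ∀ i ∈ Finset.range (k + 1), ϑ ^ (2 * (k - i)) * Ei ν θ i w ≤
      K1 * (D / e) ^ 2 * (ϑ ^ (2 * (k - i)) * Ei ν θ i z +
        (ϑ ^ 2) ^ (k - i) * (G * SQ ν θ ϑ k z)) := by
    intro i hi
    have hik : i ≤ k := by have := Finset.mem_range.1 hi; omega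
    obtain ⟨tA, tB⟩ := hterm i hik
    have hEz : 0 ≤ Ei ν θ i z := EE_nonneg _ _
    have hpw : ϑ ^ (2 * (k - i)) = (ϑ ^ 2) ^ (k - i) := by rw [pow_mul]
    have hq : 0 < (ϑ ^ 2) ^ (k - i) := by positivity
    rw [hpw]
    have hDe2 : 1 / 4 ≤ (D / e) ^ 2 := by
      calc (1 / 4 : ℝ) = (1 / 2) ^ 2 := by norm_num
        _ ≤ (D / e) ^ 2 := pow_le_pow_left₀ (by norm_num) hDe 2
    rcases lt_or_ge (θ ^ i) D with hlt | hge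
    · obtain ⟨j, hji, hj7, hjD⟩ := cmq_pick hθ0 hθ1 hD7 i hlt
      have hB := tB j hji hj7 hjD
      have hp := cmq_pow h0 hP hP4 (by omega : j ≤ k) hjD hθ0
      rw [← hs, ← hG] at hp
      have hEj : 0 ≤ Ei ν θ j z := EE_nonneg _ _
      have hEj2 : Ei ν θ j z ≤ G * SQ ν θ ϑ k z := by
        calc Ei ν θ j z = 1 * Ei ν θ j z := (one_mul _).symm
          _ ≤ (ϑ ^ (2 * (k - j)) * G) * Ei ν θ j z := by gcongr
          _ = G * (ϑ ^ (2 * (k - j)) * Ei ν θ j z) := by ring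
          _ ≤ G * SQ ν θ ϑ k z := by gcongr; exact hSe j (by omega)
      have hKB : 16 * (17408 / θ) ^ 2 ≤ K1 := by rw [hK1]; linarith
      calc (ϑ ^ 2) ^ (k - i) * Ei ν θ i w
          ≤ (ϑ ^ 2) ^ (k - i) * (16 * (17408 / θ) ^ 2 * (D / e) ^ 2 * Ei ν θ j z) := by gcongr
        _ ≤ (ϑ ^ 2) ^ (k - i) * (K1 * (D / e) ^ 2 * (G * SQ ν θ ϑ k z)) := by gcongr
        _ = K1 * (D / e) ^ 2 * (0 + (ϑ ^ 2) ^ (k - i) * (G * SQ ν θ ϑ k z)) := by ring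
        _ ≤ _ := by
            have : 0 ≤ (ϑ ^ 2) ^ (k - i) * Ei ν θ i z := by positivity
            gcongr
    · have hA := tA hge
      have hKA : 16 * 1600 ^ 2 ≤ K1 * (D / e) ^ 2 := by
        have : 4 * (16 * 1600 ^ 2) ≤ K1 := by
          rw [hK1]
          have : 0 < 16 * (17408 / θ) ^ 2 := by positivity
          linarith
        calc (16 * 1600 ^ 2 : ℝ) = 4 * (16 * 1600 ^ 2) * (1 / 4) := by norm_num
          _ ≤ K1 * (D / e) ^ 2 := mul_le_mul this hDe2 (by norm_num) hK1p.le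
      calc (ϑ ^ 2) ^ (k - i) * Ei ν θ i w
          ≤ (ϑ ^ 2) ^ (k - i) * (16 * 1600 ^ 2 * Ei ν θ i z) := by gcongr
        _ ≤ (ϑ ^ 2) ^ (k - i) * (K1 * (D / e) ^ 2 * Ei ν θ i z) := by gcongr
        _ = K1 * (D / e) ^ 2 * ((ϑ ^ 2) ^ (k - i) * Ei ν θ i z + 0) := by ring
        _ ≤ _ := by
            have : 0 ≤ (ϑ ^ 2) ^ (k - i) * (G * SQ ν θ ϑ k z) := by positivity
            gcongr
  have hSS : SQ ν θ ϑ k w ≤ K1 * K2 * (D / e) ^ 2 * (t ^ s)⁻¹ * SQ ν θ ϑ k z := by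
    have hsum : SQ ν θ ϑ k w ≤ K1 * (D / e) ^ 2 * (SQ ν θ ϑ k z +
        (1 - ϑ ^ 2)⁻¹ * (G * SQ ν θ ϑ k z)) := by
      calc SQ ν θ ϑ k w ≤ ∑ i ∈ Finset.range (k + 1), K1 * (D / e) ^ 2 *
            (ϑ ^ (2 * (k - i)) * Ei ν θ i z + (ϑ ^ 2) ^ (k - i) * (G * SQ ν θ ϑ k z)) :=
            Finset.sum_le_sum hper
        _ = K1 * (D / e) ^ 2 * (SQ ν θ ϑ k z +
            (∑ i ∈ Finset.range (k + 1), (ϑ ^ 2) ^ (k - i)) * (G * SQ ν θ ϑ k z)) := by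
            rw [← Finset.mul_sum, Finset.sum_add_distrib, ← Finset.sum_mul]
            rfl
        _ ≤ _ := by
            have := cmq_geom (q := ϑ ^ 2) (by positivity) hq1 k
            have h3 : 0 ≤ G * SQ ν θ ϑ k z := by positivity
            gcongr
    have g1 : 1 ≤ (c₀⁻¹) ^ s * (t ^ s)⁻¹ := by
      rw [← Real.inv_rpow ht0.le, ← Real.mul_rpow (by positivity) (by positivity)]
      apply Real.one_le_rpow _ hs0
      rw [ht, inv_div, ← one_div, div_mul_div_comm, one_mul, le_div_iff₀ (by positivity)]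
      linarith
    have g2 : G = (θ⁻¹) ^ s * (t ^ s)⁻¹ := by
      rw [← Real.inv_rpow ht0.le, ← Real.mul_rpow (by positivity) (by positivity), hG]
      congr 1
      rw [ht]; field_simp
    have g3 : SQ ν θ ϑ k z + (1 - ϑ ^ 2)⁻¹ * (G * SQ ν θ ϑ k z) ≤
        K2 * (t ^ s)⁻¹ * SQ ν θ ϑ k z := by
      calc SQ ν θ ϑ k z + (1 - ϑ ^ 2)⁻¹ * (G * SQ ν θ ϑ k z)
          = 1 * SQ ν θ ϑ k z + (1 - ϑ ^ 2)⁻¹ * (G * SQ ν θ ϑ k z) := by ring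
        _ ≤ (c₀⁻¹) ^ s * (t ^ s)⁻¹ * SQ ν θ ϑ k z +
            (1 - ϑ ^ 2)⁻¹ * (G * SQ ν θ ϑ k z) := by gcongr
        _ = K2 * (t ^ s)⁻¹ * SQ ν θ ϑ k z := by rw [g2, hK2]; ring
    calc SQ ν θ ϑ k w ≤ _ := hsum
      _ ≤ K1 * (D / e) ^ 2 * (K2 * (t ^ s)⁻¹ * SQ ν θ ϑ k z) := by gcongr
      _ = _ := by ring
  -- the exponents
  obtain ⟨f, hf⟩ : ∃ f : ℝ, f = max e (θ ^ k) := ⟨_, rfl⟩
  have hf0 : 0 < f := by rw [hf]; exact lt_of_lt_of_le he0 (le_max_left _ _)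
  have hfe : e ≤ f := by rw [hf]; exact le_max_left _ _
  have hfw : f ≤ 17 * dl θ k w := by
    rw [hf]; exact max_le hdlw (by linarith)
  have hdlw0 : 0 < dl θ k w := by linarith
  have hfD : f ≤ C4 * D := by
    have a1 : 0 < c₀⁻¹ := by positivity
    have a2 : θ ^ k ≤ c₀⁻¹ * D := by
      rw [inv_mul_eq_div, le_div_iff₀ hc₀]; linarith
    have a3 : 0 < c₀⁻¹ * D := by positivity
    rw [hf, hC4, add_mul]
    exact max_le (by linarith) (by linarith)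
  have hX1 : xk θ k w ≤ 17 * (t / (f / D)) := by
    have : t / (f / D) = θ ^ k / f := by rw [ht]; field_simp
    rw [this]
    unfold xk
    rw [mul_div_assoc', div_le_div_iff₀ hdlw0 hf0]
    calc θ ^ k * f ≤ θ ^ k * (17 * dl θ k w) := by gcongr
      _ = 17 * θ ^ k * dl θ k w := by ring
  have hY1 : c * (t / (d / D)) ≤ xk θ k z := by
    have : t / (d / D) = θ ^ k / d := by rw [ht]; field_simp
    rw [this, hc]
    unfold xk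
    rw [inv_mul_eq_div, div_div, div_le_div_iff₀ (by positivity) hdlz0]
    have h5 := hdlz.2
    calc θ ^ k * dl θ k z ≤ θ ^ k * ((1 + 7 / c₀) * d) := by gcongr
      _ = θ ^ k * (d * (1 + 7 / c₀)) := by ring
  have hfin := cmq_real hs0 hγ hγ1 hcp hc1 hC41 ht0 (by positivity : 0 < f / D)
    (by positivity : 0 < d / D) (by rw [div_le_iff₀ hD0]; exact hfD)
    (by rw [div_le_iff₀ hD0]; linarith) hxw.le hX1 hY1
  have hDf : 1 / (f / D) ≤ D / e := by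
    rw [one_div_div]; gcongr
  have hxg : 0 ≤ xk θ k w ^ γ := by positivity
  have hxz' : 0 ≤ xk θ k z ^ (γ - s) := by positivity
  have hts : 0 < t ^ s := by positivity
  calc xk θ k w ^ γ * SQ ν θ ϑ k w
      ≤ xk θ k w ^ γ * (K1 * K2 * (D / e) ^ 2 * (t ^ s)⁻¹ * SQ ν θ ϑ k z) := by gcongr
    _ = K1 * K2 * (D / e) ^ 2 * SQ ν θ ϑ k z * (xk θ k w ^ γ * (t ^ s)⁻¹) := by ring
    _ ≤ K1 * K2 * (D / e) ^ 2 * SQ ν θ ϑ k z *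
        (34 * C4 / c * xk θ k z ^ (γ - s) * (1 / (f / D)) * Real.sqrt (d / D)) := by gcongr
    _ ≤ K1 * K2 * (D / e) ^ 2 * SQ ν θ ϑ k z *
        (34 * C4 / c * xk θ k z ^ (γ - s) * (D / e) * Real.sqrt (d / D)) := by gcongr
    _ = _ := by ring

end Pool.Agent.MPca0fc2.MX.Q
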