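import Mathlib
import Pool.Agent.Lib.MP_ca0fc2_an.MXQTDefs
import Pool.Agent.Lib.MP_ca0fc2_an.QTXb

set_option autoImplicit false

open Metric Set MeasureTheory Filter Topology

open scoped InnerProductSpace ENNReal

namespace Pool.Agent.MPca0fc2.MX.Q

open Pool.Agent.MPca0fc2.PT Pool.Agent.MPca0fc2.QT

variable {E : Type*} [NormedAddCommGroup E] [InnerProductSpace ℂ E]

variable {V : Type*} [NormedAddCommGroup V] [NormedSpace ℂ V]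

variable [MeasurableSpace E]

variable {ν : Ptl E} {θ ϑ : ℝ} {k q : ℕ} {R B B' γ γ' : ℝ} {η η' : E → E [⋀^Fin q]→L[ℝ] V}

theorem QTXb_SQ_nonneg (h0 : 0 < ϑ) (ν : Ptl E) (k : ℕ) (w : E) : 0 ≤ SQ ν θ ϑ k w := by
  unfold SQ
  refine Finset.sum_nonneg fun i _ => mul_nonneg (by positivity) ?_
  unfold Ei
  exact EE_nonneg _ _

theorem QTXb_SQ_level (h0 : 0 < ϑ) (ν : Ptl E) (k : ℕ) (w : E) :
    SQ ν θ ϑ k w ≤ (ϑ ^ 2)⁻¹ * SQ ν θ ϑ (k + 1) w := by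
  rw [inv_mul_eq_div, le_div_iff₀ (by positivity)]
  unfold SQ
  rw [Finset.sum_range_succ (n := k + 1), Finset.sum_mul]
  have h1 : ∀ i ∈ Finset.range (k + 1), ϑ ^ (2 * (k - i)) * Ei ν θ i w * ϑ ^ 2 =
      ϑ ^ (2 * (k + 1 - i)) * Ei ν θ i w := by
    intro i hi
    have hi' : i ≤ k := Nat.lt_succ_iff.mp (Finset.mem_range.mp hi)
    have e : 2 * (k + 1 - i) = 2 * (k - i) + 2 := by omega
    rw [e, pow_add]
    ring
  rw [Finset.sum_congr rfl h1]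
  have h2 : 0 ≤ ϑ ^ (2 * (k + 1 - (k + 1))) * Ei ν θ (k + 1) w := by
    refine mul_nonneg (by positivity) ?_
    unfold Ei
    exact EE_nonneg _ _
  linarith

/-- the right side is nonnegative -/
theorem QTXb_rhs (hθ0 : 0 < θ) (hθ1 : θ < 1) (h0 : 0 < ϑ) {w : E} (hw : ‖w‖ < RC θ k) (γ : ℝ)
    (v : Fin q → E) :
    0 ≤ xk θ k w ^ γ * SQ ν θ ϑ k w * ∏ i, gau (dl θ k w) w (v i) := by
  have h1 := (xk_pos hθ0 hθ1 hw).le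
  have h2 := QTXb_SQ_nonneg (θ := θ) h0 ν k w
  have h3 : 0 ≤ ∏ i, gau (dl θ k w) w (v i) :=
    Finset.prod_nonneg fun i _ => QTXb_gau_nonneg (dl_pos hθ0 hθ1 hw).le _ _
  positivity

theorem Bd.ball (h : Bd ν θ ϑ k R B γ η) {R' : ℝ} (hR : R' ≤ R) : Bd ν θ ϑ k R' B γ η :=
  fun w hw v => h w (lt_of_lt_of_le hw hR) v

theorem Bd.congr (h : Bd ν θ ϑ k R B γ η) (h' : ∀ w : E, ‖w‖ < R → η' w = η w) :
    Bd ν θ ϑ k R B γ η' := by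
  intro w hw v
  rw [h' w hw]
  exact h w hw v

theorem Bd.mono (hθ0 : 0 < θ) (hθ1 : θ < 1) (h0 : 0 < ϑ) (hR : R ≤ RC θ k)
    (h : Bd ν θ ϑ k R B γ η) (hB : B ≤ B') : Bd ν θ ϑ k R B' γ η := by
  intro w hw v
  have h1 := h w hw v
  have h2 := QTXb_rhs (ν := ν) hθ0 hθ1 h0 (lt_of_lt_of_le hw hR) γ v
  have h3 := mul_le_mul_of_nonneg_right hB h2
  calc ‖η w v‖ ≤ B * xk θ k w ^ γ * SQ ν θ ϑ k w * ∏ i, gau (dl θ k w) w (v i) := h1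
    _ = B * (xk θ k w ^ γ * SQ ν θ ϑ k w * ∏ i, gau (dl θ k w) w (v i)) := by ring
    _ ≤ B' * (xk θ k w ^ γ * SQ ν θ ϑ k w * ∏ i, gau (dl θ k w) w (v i)) := h3
    _ = B' * xk θ k w ^ γ * SQ ν θ ϑ k w * ∏ i, gau (dl θ k w) w (v i) := by ring

theorem Bd.zero (hθ0 : 0 < θ) (hθ1 : θ < 1) (h0 : 0 < ϑ) (hR : R ≤ RC θ k) (hB : 0 ≤ B) :
    Bd ν θ ϑ k R B γ (fun _ => (0 : E [⋀^Fin q]→L[ℝ] V)) := by
  intro w hw v
  have h2 := QTXb_rhs (ν := ν) hθ0 hθ1 h0 (lt_of_lt_of_le hw hR) γ v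
  have h3 := mul_nonneg hB h2
  have h4 : (0 : E [⋀^Fin q]→L[ℝ] V) v = 0 := rfl
  simp only [h4, norm_zero]
  calc (0 : ℝ) ≤ B * (xk θ k w ^ γ * SQ ν θ ϑ k w * ∏ i, gau (dl θ k w) w (v i)) := h3
    _ = B * xk θ k w ^ γ * SQ ν θ ϑ k w * ∏ i, gau (dl θ k w) w (v i) := by ring

/-- smaller exponents -/
theorem Bd.exp (hθ0 : 0 < θ) (hθ1 : θ < 1) (h0 : 0 < ϑ) (hR : R ≤ RC θ k) (hB : 0 ≤ B)
    (h : Bd ν θ ϑ k R B γ η) (hγ : γ' ≤ γ) : Bd ν θ ϑ k R ((4 : ℝ) ^ (γ - γ') * B) γ' η := by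
  intro w hw v
  have hw' := lt_of_lt_of_le hw hR
  have hx := xk_pos hθ0 hθ1 hw'
  have hx4 := xk_le hθ0 hθ1 hw'
  have h1 := h w hw v
  have e : xk θ k w ^ γ = xk θ k w ^ (γ - γ') * xk θ k w ^ γ' := by
    rw [← Real.rpow_add hx]; ring_nf
  have h4 : xk θ k w ^ (γ - γ') ≤ (4 : ℝ) ^ (γ - γ') :=
    Real.rpow_le_rpow hx.le hx4 (by linarith)
  have h2 := QTXb_rhs (ν := ν) hθ0 hθ1 h0 hw' γ' v
  have h3 := mul_le_mul_of_nonneg_right h4 (mul_nonneg hB h2)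
  calc ‖η w v‖ ≤ B * xk θ k w ^ γ * SQ ν θ ϑ k w * ∏ i, gau (dl θ k w) w (v i) := h1
    _ = xk θ k w ^ (γ - γ') *
        (B * (xk θ k w ^ γ' * SQ ν θ ϑ k w * ∏ i, gau (dl θ k w) w (v i))) := by
        rw [e]; ring
    _ ≤ (4 : ℝ) ^ (γ - γ') *
        (B * (xk θ k w ^ γ' * SQ ν θ ϑ k w * ∏ i, gau (dl θ k w) w (v i))) := h3
    _ = (4 : ℝ) ^ (γ - γ') * B * xk θ k w ^ γ' * SQ ν θ ϑ k w *
        ∏ i, gau (dl θ k w) w (v i) := by ring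

theorem Bd.add (h : Bd ν θ ϑ k R B γ η) (h' : Bd ν θ ϑ k R B' γ η') :
    Bd ν θ ϑ k R (B + B') γ (fun w => η w + η' w) := by
  intro w hw v
  calc ‖(η w + η' w) v‖ = ‖η w v + η' w v‖ := by rw [ContinuousAlternatingMap.add_apply]
    _ ≤ ‖η w v‖ + ‖η' w v‖ := norm_add_le _ _
    _ ≤ B * xk θ k w ^ γ * SQ ν θ ϑ k w * ∏ i, gau (dl θ k w) w (v i) +
        B' * xk θ k w ^ γ * SQ ν θ ϑ k w * ∏ i, gau (dl θ k w) w (v i) :=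
        add_le_add (h w hw v) (h' w hw v)
    _ = (B + B') * xk θ k w ^ γ * SQ ν θ ϑ k w * ∏ i, gau (dl θ k w) w (v i) := by ring

theorem Bd.sub (h : Bd ν θ ϑ k R B γ η) (h' : Bd ν θ ϑ k R B' γ η') :
    Bd ν θ ϑ k R (B + B') γ (fun w => η w - η' w) := by
  intro w hw v
  calc ‖(η w - η' w) v‖ = ‖η w v - η' w v‖ := by rw [ContinuousAlternatingMap.sub_apply]
    _ ≤ ‖η w v‖ + ‖η' w v‖ := norm_sub_le _ _
    _ ≤ B * xk θ k w ^ γ * SQ ν θ ϑ k w * ∏ i, gau (dl θ k w) w (v i) +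
        B' * xk θ k w ^ γ * SQ ν θ ϑ k w * ∏ i, gau (dl θ k w) w (v i) :=
        add_le_add (h w hw v) (h' w hw v)
    _ = (B + B') * xk θ k w ^ γ * SQ ν θ ϑ k w * ∏ i, gau (dl θ k w) w (v i) := by ring

theorem Bd.smul (hθ0 : 0 < θ) (hθ1 : θ < 1) (h0 : 0 < ϑ) (hR : R ≤ RC θ k) (hB : 0 ≤ B)
    (h : Bd ν θ ϑ k R B γ η) {X : E → ℂ} {a t : ℝ}
    (hX : ∀ w : E, ‖w‖ < R → ‖X w‖ ≤ a * xk θ k w ^ t) :
    Bd ν θ ϑ k R (a * B) (γ + t) (fun w => X w • η w) := by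
  intro w hw v
  have hw' := lt_of_lt_of_le hw hR
  have hx := xk_pos hθ0 hθ1 hw'
  have h2 := QTXb_rhs (ν := ν) hθ0 hθ1 h0 hw' γ v
  have h3 : 0 ≤ B * (xk θ k w ^ γ * SQ ν θ ϑ k w * ∏ i, gau (dl θ k w) w (v i)) :=
    mul_nonneg hB h2
  calc ‖(X w • η w) v‖ = ‖X w‖ * ‖η w v‖ := by
        rw [ContinuousAlternatingMap.smul_apply, norm_smul]
    _ ≤ ‖X w‖ * (B * (xk θ k w ^ γ * SQ ν θ ϑ k w * ∏ i, gau (dl θ k w) w (v i))) := by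
        refine mul_le_mul_of_nonneg_left ?_ (norm_nonneg _)
        refine (h w hw v).trans (le_of_eq ?_)
        ring
    _ ≤ (a * xk θ k w ^ t) *
        (B * (xk θ k w ^ γ * SQ ν θ ϑ k w * ∏ i, gau (dl θ k w) w (v i))) :=
        mul_le_mul_of_nonneg_right (hX w hw) h3
    _ = (a * B) * xk θ k w ^ (γ + t) * SQ ν θ ϑ k w * ∏ i, gau (dl θ k w) w (v i) := by
        rw [Real.rpow_add hx]; ring

theorem Bd.opc (hθ0 : 0 < θ) (hθ1 : θ < 1) (h0 : 0 < ϑ) (hR : R ≤ RC θ k) (hB : 0 ≤ B)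
    (h : Bd ν θ ϑ k R B γ η) {G : E → V →L[ℂ] V} {a t : ℝ}
    (hG : ∀ w : E, ‖w‖ < R → ‖G w‖ ≤ a * xk θ k w ^ t) :
    Bd ν θ ϑ k R (a * B) (γ + t) (fun w => opc E V q (G w) (η w)) := by
  intro w hw v
  have hw' := lt_of_lt_of_le hw hR
  have hx := xk_pos hθ0 hθ1 hw'
  have h2 := QTXb_rhs (ν := ν) hθ0 hθ1 h0 hw' γ v
  have h3 : 0 ≤ B * (xk θ k w ^ γ * SQ ν θ ϑ k w * ∏ i, gau (dl θ k w) w (v i)) :=
    mul_nonneg hB h2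
  calc ‖(QT.opc E V q (G w) (η w)) v‖ = ‖G w (η w v)‖ := by rw [opc_apply]
    _ ≤ ‖G w‖ * ‖η w v‖ := (G w).le_opNorm _
    _ ≤ ‖G w‖ * (B * (xk θ k w ^ γ * SQ ν θ ϑ k w * ∏ i, gau (dl θ k w) w (v i))) := by
        refine mul_le_mul_of_nonneg_left ?_ (norm_nonneg _)
        refine (h w hw v).trans (le_of_eq ?_)
        ring
    _ ≤ (a * xk θ k w ^ t) *
        (B * (xk θ k w ^ γ * SQ ν θ ϑ k w * ∏ i, gau (dl θ k w) w (v i))) :=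
        mul_le_mul_of_nonneg_right (hG w hw) h3
    _ = (a * B) * xk θ k w ^ (γ + t) * SQ ν θ ϑ k w * ∏ i, gau (dl θ k w) w (v i) := by
        rw [Real.rpow_add hx]; ring

/-- the change of the level, one argument -/
theorem level_le (h0 : 0 < ϑ) (h1 : ϑ < 1) {P : ℕ} (hP : θ = ϑ ^ P) {a : ℝ}
    (ha : 2 ≤ P * a) (ha2 : a ≤ 1 / 2) {w : E} (hw : ‖w‖ < RC θ (k + 1)) (v : E) :
    xk θ k w ^ (-a) * SQ ν θ ϑ k w * gau (dl θ k w) w v ≤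
      ϑ ^ (P * a - 2) * (xk θ (k + 1) w ^ (-a) * SQ ν θ ϑ (k + 1) w *
        gau (dl θ (k + 1) w) w v) := by
  have ha0 : 0 < a := by
    have hP0 : (0 : ℝ) ≤ P := Nat.cast_nonneg _
    by_contra hcon
    push Not at hcon
    nlinarith
  have hPn : P ≠ 0 := by
    rintro rfl
    simp at ha
    linarith
  have hθ0 : 0 < θ := by rw [hP]; positivity
  have hθ1 : θ < 1 := by rw [hP]; exact pow_lt_one₀ h0.le h1 hPn
  have hRR : RC θ (k + 1) ≤ RC θ k := by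
    unfold RC
    have : θ ^ (k + 1 + 1) ≤ θ ^ (k + 1) :=
      pow_le_pow_of_le_one hθ0.le hθ1.le (Nat.le_succ (k + 1))
    linarith
  have hwk : ‖w‖ < RC θ k := lt_of_lt_of_le hw hRR
  have hD : 0 < dl θ k w := dl_pos hθ0 hθ1 hwk
  have hD' : 0 < dl θ (k + 1) w := dl_pos hθ0 hθ1 hw
  have hDD : dl θ (k + 1) w ≤ dl θ k w := dl_anti hθ0 hθ1 (Nat.le_succ k) w
  have hx := xk_pos hθ0 hθ1 hwk
  have hx' := xk_pos hθ0 hθ1 hw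
  have hg := gau_anti hD' hDD w v
  have hg0 : 0 ≤ gau (dl θ (k + 1) w) w v := QTXb_gau_nonneg hD'.le _ _
  have hS := QTXb_SQ_level (θ := θ) h0 ν k w
  have hS0 := QTXb_SQ_nonneg (θ := θ) h0 ν k w
  set Q : ℝ := dl θ k w / dl θ (k + 1) w with hQ
  have hQ1 : 1 ≤ Q := by rw [hQ, le_div_iff₀ hD']; linarith
  have hQ0 : 0 < Q := by linarith
  have hxx : xk θ (k + 1) w = θ * Q * xk θ k w := by
    unfold xk
    rw [hQ, pow_succ]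
    field_simp
  have e1 : xk θ k w ^ (-a) = θ ^ a * Q ^ a * xk θ (k + 1) w ^ (-a) := by
    rw [hxx, Real.mul_rpow (by positivity) hx.le, Real.mul_rpow hθ0.le hQ0.le,
      Real.rpow_neg hθ0.le, Real.rpow_neg hQ0.le]
    have h5 : θ ^ a ≠ 0 := (Real.rpow_pos_of_pos hθ0 a).ne'
    have h6 : Q ^ a ≠ 0 := (Real.rpow_pos_of_pos hQ0 a).ne'
    field_simp
  have e2 : θ ^ a = ϑ ^ ((P : ℝ) * a) := by
    rw [hP, ← Real.rpow_natCast, ← Real.rpow_mul h0.le]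
  have e3 : Real.sqrt (dl θ (k + 1) w / dl θ k w) = Q ^ (-(1 / 2) : ℝ) := by
    have : dl θ (k + 1) w / dl θ k w = Q⁻¹ := by rw [hQ, inv_div]
    rw [this, Real.sqrt_eq_rpow, Real.inv_rpow hQ0.le, Real.rpow_neg hQ0.le]
  have e4 : Q ^ a * Q ^ (-(1 / 2) : ℝ) ≤ 1 := by
    rw [← Real.rpow_add hQ0]
    exact Real.rpow_le_one_of_one_le_of_nonpos hQ1 (by linarith)
  have e5 : ϑ ^ ((P : ℝ) * a) * (ϑ ^ 2)⁻¹ = ϑ ^ ((P : ℝ) * a - 2) := by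
    rw [Real.rpow_sub h0]
    norm_num [div_eq_mul_inv]
  rw [e3] at hg
  have hxa : 0 < xk θ (k + 1) w ^ (-a) := Real.rpow_pos_of_pos hx' _
  have hQa : 0 < Q ^ a := Real.rpow_pos_of_pos hQ0 _
  have hQh : 0 < Q ^ (-(1 / 2) : ℝ) := Real.rpow_pos_of_pos hQ0 _
  have hta : 0 < ϑ ^ ((P : ℝ) * a) := Real.rpow_pos_of_pos h0 _
  have hS1 := QTXb_SQ_nonneg (θ := θ) h0 ν (k + 1) w
  rw [e1, e2]
  calc ϑ ^ ((P : ℝ) * a) * Q ^ a * xk θ (k + 1) w ^ (-a) * SQ ν θ ϑ k w * gau (dl θ k w) w v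
      ≤ ϑ ^ ((P : ℝ) * a) * Q ^ a * xk θ (k + 1) w ^ (-a) *
        ((ϑ ^ 2)⁻¹ * SQ ν θ ϑ (k + 1) w) *
        (Q ^ (-(1 / 2) : ℝ) * gau (dl θ (k + 1) w) w v) := by
        refine mul_le_mul (mul_le_mul_of_nonneg_left hS (by positivity)) hg
          (QTXb_gau_nonneg hD.le _ _) (by positivity)
    _ = (Q ^ a * Q ^ (-(1 / 2) : ℝ)) * (ϑ ^ ((P : ℝ) * a) * (ϑ ^ 2)⁻¹ *
        (xk θ (k + 1) w ^ (-a) * SQ ν θ ϑ (k + 1) w * gau (dl θ (k + 1) w) w v)) := by ring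
    _ ≤ 1 * (ϑ ^ ((P : ℝ) * a) * (ϑ ^ 2)⁻¹ *
        (xk θ (k + 1) w ^ (-a) * SQ ν θ ϑ (k + 1) w * gau (dl θ (k + 1) w) w v)) := by
        refine mul_le_mul_of_nonneg_right e4 (by positivity)
    _ = ϑ ^ ((P : ℝ) * a - 2) * (xk θ (k + 1) w ^ (-a) * SQ ν θ ϑ (k + 1) w *
        gau (dl θ (k + 1) w) w v) := by rw [one_mul, e5]

/-- the change of the level -/
theorem Bd.level (h0 : 0 < ϑ) (h1 : ϑ < 1) {P : ℕ} (hP : θ = ϑ ^ P) {a : ℝ}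
    (ha : 2 ≤ P * a) (ha2 : a ≤ 1 / 2) {η : E → E [⋀^Fin (q + 1)]→L[ℝ] V}
    (hR : R ≤ RC θ (k + 1)) (hB : 0 ≤ B) (h : Bd ν θ ϑ k R B (-a) η) :
    Bd ν θ ϑ (k + 1) R (ϑ ^ (P * a - 2) * B) (-a) η := by
  intro w hw v
  have hPn : P ≠ 0 := by
    rintro rfl
    simp at ha
    linarith
  have hθ0 : 0 < θ := by rw [hP]; positivity
  have hθ1 : θ < 1 := by rw [hP]; exact pow_lt_one₀ h0.le h1 hPn
  have hRR : RC θ (k + 1) ≤ RC θ k := by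
    unfold RC
    have : θ ^ (k + 1 + 1) ≤ θ ^ (k + 1) :=
      pow_le_pow_of_le_one hθ0.le hθ1.le (Nat.le_succ (k + 1))
    linarith
  have hw' : ‖w‖ < RC θ (k + 1) := lt_of_lt_of_le hw hR
  have hwk : ‖w‖ < RC θ k := lt_of_lt_of_le hw' hRR
  have hD : 0 < dl θ k w := dl_pos hθ0 hθ1 hwk
  have hD' : 0 < dl θ (k + 1) w := dl_pos hθ0 hθ1 hw'
  have hDD : dl θ (k + 1) w ≤ dl θ k w := dl_anti hθ0 hθ1 (Nat.le_succ k) w
  have hx := xk_pos hθ0 hθ1 hwk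
  have hx' := xk_pos hθ0 hθ1 hw'
  have hL := level_le (ν := ν) h0 h1 hP ha ha2 hw' (v 0)
  have hgg : ∀ x : E, gau (dl θ k w) w x ≤ gau (dl θ (k + 1) w) w x := by
    intro x
    refine (gau_anti hD' hDD w x).trans ?_
    have h5 : Real.sqrt (dl θ (k + 1) w / dl θ k w) ≤ 1 := by
      rw [Real.sqrt_le_one]
      exact div_le_one_of_le₀ hDD hD.le
    have h6 := QTXb_gau_nonneg hD'.le w x
    nlinarith
  have hprod : ∏ i : Fin q, gau (dl θ k w) w (v i.succ) ≤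
      ∏ i : Fin q, gau (dl θ (k + 1) w) w (v i.succ) :=
    Finset.prod_le_prod (fun i _ => QTXb_gau_nonneg hD.le _ _) fun i _ => hgg _
  have hp0 : 0 ≤ ∏ i : Fin q, gau (dl θ k w) w (v i.succ) :=
    Finset.prod_nonneg fun i _ => QTXb_gau_nonneg hD.le _ _
  have hS1 := QTXb_SQ_nonneg (θ := θ) h0 ν (k + 1) w
  have hg0 : 0 ≤ gau (dl θ (k + 1) w) w (v 0) := QTXb_gau_nonneg hD'.le _ _
  have hxa : 0 < xk θ (k + 1) w ^ (-a) := Real.rpow_pos_of_pos hx' _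
  have hta : 0 < ϑ ^ ((P : ℝ) * a - 2) := Real.rpow_pos_of_pos h0 _
  have h3 := h w hw v
  rw [Fin.prod_univ_succ] at h3 ⊢
  calc ‖η w v‖ ≤ B * xk θ k w ^ (-a) * SQ ν θ ϑ k w *
        (gau (dl θ k w) w (v 0) * ∏ i : Fin q, gau (dl θ k w) w (v i.succ)) := h3
    _ = B * ((xk θ k w ^ (-a) * SQ ν θ ϑ k w * gau (dl θ k w) w (v 0)) *
        ∏ i : Fin q, gau (dl θ k w) w (v i.succ)) := by ring
    _ ≤ B * ((ϑ ^ (P * a - 2) * (xk θ (k + 1) w ^ (-a) * SQ ν θ ϑ (k + 1) w *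
        gau (dl θ (k + 1) w) w (v 0))) * ∏ i : Fin q, gau (dl θ (k + 1) w) w (v i.succ)) := by
        refine mul_le_mul_of_nonneg_left ?_ hB
        refine mul_le_mul hL hprod hp0 (by positivity)
    _ = (ϑ ^ (P * a - 2) * B) * xk θ (k + 1) w ^ (-a) * SQ ν θ ϑ (k + 1) w *
        (gau (dl θ (k + 1) w) w (v 0) * ∏ i : Fin q, gau (dl θ (k + 1) w) w (v i.succ)) := by
        ring

end Pool.Agent.MPca0fc2.MX.Q
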