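import Mathlib
import Pool.Agent.Lib.MP_ca0fc2_an.Mg.G017

set_option autoImplicit false

open Metric Set MeasureTheory Filter Topology
open scoped InnerProductSpace ENNReal

namespace Pool.Agent.MPca0fc2.QT

open Pool.Agent.MPca0fc2.PT

variable {E : Type*} [NormedAddCommGroup E] [InnerProductSpace ℂ E]
variable {V : Type*} [NormedAddCommGroup V] [NormedSpace ℂ V]
variable [FiniteDimensional ℂ E] [MeasurableSpace E] [BorelSpace E]

theorem TT_anti (μ : Measure E) [μ.IsAddHaarMeasure] (m : ℕ) [FiniteDimensional ℂ V] {q : ℕ}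
    {η : E → E [⋀^Fin (q + 1)]→L[ℝ] V} {z : E} (hz : ‖z‖ < 1)
    (ha : ∀ w : E, ‖w‖ < 1 → Anti (η w)) : Anti (TT μ m η z) := by
  have : CompleteSpace V := FiniteDimensional.complete ℂ V
  have hs : ∀ {r : ℕ} {ζ : E [⋀^Fin r]→L[ℝ] V}, Anti ζ → ∀ c : ℝ, Anti (c • ζ) := by
    intro r ζ h c
    have := h.smul (c : ℂ)
    rwa [Complex.coe_smul] at this
  refine Anti.compHolo ?_ _
  refine hs ?_ _
  refine Anti.integral ?_
  refine (ae_restrict_iff' (measurableSet_Icc.prod measurableSet_ball)).2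
    (Filter.Eventually.of_forall fun p hp => ?_)
  have h1 : ‖((p.1 : ℂ)) • p.2‖ < 1 := by
    have h2 : ‖p.2‖ < 1 := mem_ball_zero_iff.1 hp.2
    have h3 : 0 ≤ p.1 ∧ p.1 ≤ 1 := hp.1
    rw [norm_smul, Complex.norm_real, Real.norm_of_nonneg h3.1]
    nlinarith [norm_nonneg p.2]
  exact hs ((Pul_anti m (ha _ (gg_lt hz h1))).curryLeft _) _

end Pool.Agent.MPca0fc2.QT
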