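import Mathlib
import Pool.Agent.Lib.MP_ca0fc2_an.QTCov
import Pool.Agent.Lib.MP_ca0fc2_an.Mg.G019
import Pool.Agent.Lib.MP_ca0fc2_an.QTTan

set_option autoImplicit false
set_option linter.unusedSectionVars false

open Metric Set MeasureTheory Filter Topology
open scoped InnerProductSpace ENNReal

namespace Pool.Agent.MPca0fc2.QT

open Pool.Agent.MPca0fc2.PT

variable {E : Type*} [NormedAddCommGroup E] [InnerProductSpace ℂ E]
variable {V : Type*} [NormedAddCommGroup V] [NormedSpace ℂ V]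
variable [FiniteDimensional ℂ E] [MeasurableSpace E] [BorelSpace E]

theorem kop_one (μ : Measure E) [μ.IsAddHaarMeasure] {m : ℕ}
    (hdim : Module.finrank ℂ E = m + 1) [FiniteDimensional ℂ V] {q : ℕ}
    {η : E → E [⋀^Fin (q + 1)]→L[ℝ] V} {U : Set E} (hU : IsOpen U)
    (hB : closedBall (0 : E) 1 ⊆ U) (hη : ContDiffOn ℝ 1 η U) (ha : ∀ w ∈ U, Anti (η w))
    (hd : ∀ w ∈ U, db η w = 0) {z : E} (hz : ‖z‖ < 1) : db (TT μ m η) z = η z := by
  have h1 : db (TT μ m (Pul m η z)) 0 = Pul m η z 0 :=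
    kop_zero μ hdim (PU_open hz hU) (PU_sub hz hB) (Pul_c1 m hU hη hz)
      (fun w hw => Pul_anti m (ha _ hw.2)) (fun w hw => Pul_closed m hU hη ha hd hz hw)
  have h2 : TT μ m (Pul m η z) =ᶠ[𝓝 0] Pul m (TT μ m η) z := by
    filter_upwards [ball_mem_nhds (0 : E) one_pos] with x hx
    rw [mem_ball_zero_iff] at hx
    have hc : (1 + ⟪z, x⟫_ℂ) ^ (m + 6) ≠ 0 := pow_ne_zero _ (one_add_ne hz hx.le)
    have h3 := TT_cov μ m η hz hx
    rw [Pul, h3, smul_smul, inv_mul_cancel₀ hc, one_smul]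
  have h4 : db (Pul m (TT μ m η) z) 0 = Pul m η z 0 := by
    rw [← db_congr h2, h1]
  have hc1 : ContDiffOn ℝ 1 (TT μ m η) (ball 0 1) := TT_c1 μ m hU hB hη
  have hzb : z ∈ ball (0 : E) 1 := by rwa [mem_ball_zero_iff]
  have hanti : ∀ᶠ y in 𝓝 (gg z 0), Anti (TT μ m η y) := by
    rw [gg_zero]
    filter_upwards [isOpen_ball.mem_nhds hzb] with y hy
    rw [mem_ball_zero_iff] at hy
    exact TT_anti μ m hy fun w hw =>
      ha w (hB (by rw [mem_closedBall_zero_iff]; exact hw.le))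
  have hdiff : DifferentiableAt ℝ (TT μ m η) (gg z 0) := by
    rw [gg_zero]
    exact ((hc1.contDiffAt (isOpen_ball.mem_nhds hzb)).differentiableAt (by norm_num))
  have h5 := Pul_db m hz (x := (0 : E)) (by simp) hanti hdiff
  rw [h4] at h5
  ext v
  have h6 : Pul m η z 0 (fun i => gg' (-z) z (v i)) =
      Pul m (db (TT μ m η)) z 0 (fun i => gg' (-z) z (v i)) := by rw [h5]
  simp only [Pul, ContinuousAlternatingMap.compContinuousLinearMap_apply, gg_zero,
    inner_zero_right, add_zero, one_pow, inv_one, one_smul] at h6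
  have h7 : ∀ i, ((gg' z 0).restrictScalars ℝ : E →L[ℝ] E) (gg' (-z) z (v i)) = v i :=
    fun i => gg'_inv' hz (v i)
  have h8 : (fun i => ((gg' z 0).restrictScalars ℝ : E →L[ℝ] E) (gg' (-z) z (v i))) = v :=
    funext h7
  have h9 := h6
  change η z (fun i => ((gg' z 0).restrictScalars ℝ : E →L[ℝ] E) (gg' (-z) z (v i))) =
    db (TT μ m η) z (fun i => ((gg' z 0).restrictScalars ℝ : E →L[ℝ] E) (gg' (-z) z (v i))) at h9
  rw [h8] at h9
  exact h9.symm

theorem TR_main (μ : Measure E) [μ.IsAddHaarMeasure] {m : ℕ}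
    (hdim : Module.finrank ℂ E = m + 1) [FiniteDimensional ℂ V] {q : ℕ} {R : ℝ} (hR : 0 < R)
    {η : E → E [⋀^Fin (q + 1)]→L[ℝ] V} {U : Set E} (hU : IsOpen U)
    (hB : closedBall (0 : E) R ⊆ U) (hη : ContDiffOn ℝ 1 η U) (ha : ∀ w ∈ U, Anti (η w))
    (hd : ∀ w ∈ U, db η w = 0) :
    ContDiffOn ℝ 1 (TR μ m R η) (ball 0 R) ∧ (∀ z ∈ ball (0 : E) R, Anti (TR μ m R η z)) ∧
      ∀ z ∈ ball (0 : E) R, db (TR μ m R η) z = η z := by
  have hRc : (R : ℂ) ≠ 0 := by exact_mod_cast hR.ne'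
  set ηR : E → E [⋀^Fin (q + 1)]→L[ℝ] V := fun x => η ((R : ℂ) • x) with hηR
  set UR : Set E := (fun x : E => (R : ℂ) • x) ⁻¹' U with hURd
  have hcont : Continuous fun x : E => (R : ℂ) • x := continuous_const_smul _
  have hUR : IsOpen UR := hU.preimage hcont
  have hBR : closedBall (0 : E) 1 ⊆ UR := by
    intro x hx
    apply hB
    rw [mem_closedBall_zero_iff] at hx ⊢
    rw [norm_smul, Complex.norm_real, Real.norm_eq_abs, abs_of_pos hR]
    nlinarith
  have hsm : ContDiff ℝ 1 fun x : E => (R : ℂ) • x := contDiff_const_smul _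
  have hηRc : ContDiffOn ℝ 1 ηR UR := hη.comp hsm.contDiffOn (fun x hx => hx)
  have haR : ∀ w ∈ UR, Anti (ηR w) := fun w hw => ha _ hw
  have hdiffη : ∀ w ∈ U, DifferentiableAt ℝ η w := fun w hw =>
    (hη.contDiffAt (hU.mem_nhds hw)).differentiableAt (by norm_num)
  have hdR : ∀ w ∈ UR, db ηR w = 0 := by
    intro w hw
    rw [hηR, db_scale (hdiffη _ hw), hd _ hw, smul_zero]
  have hTc : ContDiffOn ℝ 1 (TT μ m ηR) (ball 0 1) := TT_c1 μ m hUR hBR hηRc
  have hball : ∀ z ∈ ball (0 : E) R, (((R⁻¹ : ℝ) : ℂ) • z) ∈ ball (0 : E) 1 := by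
    intro z hz
    rw [mem_ball_zero_iff] at hz ⊢
    rw [norm_smul, Complex.norm_real, Real.norm_eq_abs, abs_of_pos (inv_pos.mpr hR)]
    rw [inv_mul_lt_iff₀ hR]
    simpa using hz
  have hsm' : ContDiff ℝ 1 fun x : E => ((R⁻¹ : ℝ) : ℂ) • x := contDiff_const_smul _
  have hcomp : ContDiffOn ℝ 1 (fun z => TT μ m ηR (((R⁻¹ : ℝ) : ℂ) • z)) (ball 0 R) :=
    hTc.comp hsm'.contDiffOn hball
  refine ⟨?_, ?_, ?_⟩
  · exact hcomp.const_smul R
  · intro z hz v i
    have h1 := TT_anti μ m (η := ηR) (mem_ball_zero_iff.mp (hball z hz))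
      (fun w hw => haR w (hBR (by rw [mem_closedBall_zero_iff]; exact hw.le))) v i
    simp only [TR, ContinuousAlternatingMap.smul_apply]
    change R • TT μ m ηR (((R⁻¹ : ℝ) : ℂ) • z) (Function.update v i (Complex.I • v i)) =
      -(Complex.I • R • TT μ m ηR (((R⁻¹ : ℝ) : ℂ) • z) v)
    rw [h1, smul_neg, smul_comm]
  · intro z hz
    have hz' := hball z hz
    have hdT : DifferentiableAt ℝ (TT μ m ηR) (((R⁻¹ : ℝ) : ℂ) • z) :=
      (hTc.contDiffAt (isOpen_ball.mem_nhds hz')).differentiableAt (by norm_num)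
    have h1 : db (fun x => TT μ m ηR (((R⁻¹ : ℝ) : ℂ) • x)) z =
        ((R⁻¹ : ℝ) : ℂ) • db (TT μ m ηR) (((R⁻¹ : ℝ) : ℂ) • z) := db_scale hdT
    have h2 : db (TT μ m ηR) (((R⁻¹ : ℝ) : ℂ) • z) = ηR (((R⁻¹ : ℝ) : ℂ) • z) :=
      kop_one μ hdim hUR hBR hηRc haR hdR (mem_ball_zero_iff.mp hz')
    have h3 : ηR (((R⁻¹ : ℝ) : ℂ) • z) = η z := by
      simp only [hηR, smul_smul]
      rw [Complex.ofReal_inv, mul_inv_cancel₀ hRc, one_smul]
    have h4 : TR μ m R η = fun w => (fun _ => (R : ℂ)) w • TT μ m ηR (((R⁻¹ : ℝ) : ℂ) • w) := by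
      funext w
      ext v
      simp only [TR, ContinuousAlternatingMap.smul_apply]
      exact (Complex.coe_smul R _).symm
    have hdc : DifferentiableAt ℝ (fun x => TT μ m ηR (((R⁻¹ : ℝ) : ℂ) • x)) z :=
      (hcomp.contDiffAt (isOpen_ball.mem_nhds hz)).differentiableAt (by norm_num)
    rw [h4, db_smul (differentiableAt_const _) hdc, h1, h2, h3, smul_smul, Complex.ofReal_inv,
      mul_inv_cancel₀ hRc, one_smul]

end Pool.Agent.MPca0fc2.QT
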