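import Mathlib
import Pool.Agent.Lib.MP_ca0fc2_an.Mg.G008
import Pool.Agent.Lib.MP_ca0fc2_an.QTCmp
import Pool.Agent.Lib.MP_ca0fc2_an.Mg.G015
import Pool.Agent.Lib.MP_ca0fc2_an.Mg.G016

set_option autoImplicit false

open Metric Set MeasureTheory Filter Topology
open scoped InnerProductSpace ENNReal

namespace Pool.Agent.MPca0fc2.QT

open Pool.Agent.MPca0fc2.PT

variable {E : Type*} [NormedAddCommGroup E] [InnerProductSpace ℂ E]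
variable {V : Type*} [NormedAddCommGroup V] [NormedSpace ℂ V]
variable [FiniteDimensional ℂ E] [MeasurableSpace E] [BorelSpace E]

/-- the weighted estimate of the Koppelman operator -/
theorem TR_w (μ : Measure E) [μ.IsAddHaarMeasure] {m : ℕ} (hm : 1 ≤ m)
    (hdim : Module.finrank ℂ E = m + 1) [FiniteDimensional ℂ V] (q : ℕ) {θ ϑ : ℝ} (h0 : 0 < ϑ)
    (h1 : ϑ < 1) {P : ℕ} (hP : θ = ϑ ^ P) (hP4 : 4 ≤ P) {c₀ : ℝ} (hc₀ : 0 < c₀) {γ : ℝ}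
    (hγ : 1 / 2 + 2 / P ≤ γ) (hγ1 : γ ≤ 1) :
    ∃ C : ℝ, 0 < C ∧ ∀ (ν : Measure E) (A : ℝ), Carl ν A → ∀ (k : ℕ) (R R' B : ℝ)
      (η : E → E [⋀^Fin (q + 1)]→L[ℝ] V) (U : Set E), 1 ≤ R → R ≤ RC θ k →
      R' + c₀ * θ ^ k ≤ R → IsOpen U → closedBall (0 : E) R ⊆ U → ContDiffOn ℝ 1 η U → 0 ≤ B →
      Bd ν θ ϑ k R B γ η → Bd ν θ ϑ k R' (C * B) (γ - 2 / P) (TR μ m R η) := by
  have hθ0 : 0 < θ := by rw [hP]; positivity
  have hθ1 : θ < 1 := by rw [hP]; exact pow_lt_one₀ h0.le h1 (by omega)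
  obtain ⟨CT, hCT, hT⟩ := TR_sub (V := V) μ hm hdim q
  obtain ⟨CS, hCS, hS⟩ := SQ_compare (E := E) h0 h1 hP hP4 hc₀ hγ hγ1
  obtain ⟨CG, hCG, hG⟩ := gau_compare (E := E) hθ0 hθ1 hc₀
  refine ⟨CT * CS * CG ^ (q + 1) * CG ^ q, by positivity, ?_⟩
  intro ν A hA k R R' B η U hR1 hRC hR' hU hRU hη hB hBd z hz v
  have hθk : 0 < c₀ * θ ^ k := by positivity
  have hzR' : ‖z‖ + c₀ * θ ^ k ≤ R := by linarith
  have hzR : ‖z‖ < R := by linarith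
  have hzC : ‖z‖ < RC θ k := hzR.trans_le hRC
  have hR0 : 0 < R := by linarith
  have hx := xk_pos hθ0 hθ1 hzC
  have hSQ := SQ_nonneg (θ := θ) h0 ν k z
  have hX : 0 ≤ xk θ k z ^ (γ - 2 / P) * SQ ν θ ϑ k z :=
    mul_nonneg (Real.rpow_nonneg hx.le _) hSQ
  have key := hT R η U z (B * CS * (xk θ k z ^ (γ - 2 / P) * SQ ν θ ϑ k z) * CG ^ (q + 1))
    hR0 hU hRU hη hzR (by positivity) ?_ v
  · refine key.trans ?_
    have hprod : ∏ i, gau (R ^ 2 - ‖z‖ ^ 2) z (v i) ≤ CG ^ q * ∏ i, gau (dl θ k z) z (v i) := by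
      have e : CG ^ q * ∏ i, gau (dl θ k z) z (v i) = ∏ i : Fin q, (CG * gau (dl θ k z) z (v i)) := by
        rw [Finset.prod_mul_distrib]
        simp
      rw [e]
      refine Finset.prod_le_prod (fun i _ => ?_) (fun i _ => (hG k R z (v i) hR1 hRC).2 hzR')
      exact gau_nonneg (by nlinarith [norm_nonneg z]) z (v i)
    have hΦ : 0 ≤ CT * (B * CS * (xk θ k z ^ (γ - 2 / P) * SQ ν θ ϑ k z) * CG ^ (q + 1)) := by
      positivity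
    calc _ ≤ CT * (B * CS * (xk θ k z ^ (γ - 2 / P) * SQ ν θ ϑ k z) * CG ^ (q + 1)) *
          (CG ^ q * ∏ i, gau (dl θ k z) z (v i)) := mul_le_mul_of_nonneg_left hprod hΦ
      _ = _ := by ring
  · intro w hw x
    have hwR : ‖w‖ < R := mem_ball_zero_iff.mp hw
    have hwC : ‖w‖ < RC θ k := hwR.trans_le hRC
    have hxw := xk_pos hθ0 hθ1 hwC
    have a1 := hBd w hwR x
    have a2 := hS ν A hA k R z w hR1 hRC hzR' hwR
    have hprod : ∏ i, gau (dl θ k w) w (x i) ≤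
        CG ^ (q + 1) * ∏ i, gau (R ^ 2 - ‖w‖ ^ 2) w (x i) := by
      have e : CG ^ (q + 1) * ∏ i, gau (R ^ 2 - ‖w‖ ^ 2) w (x i) =
          ∏ i : Fin (q + 1), (CG * gau (R ^ 2 - ‖w‖ ^ 2) w (x i)) := by
        rw [Finset.prod_mul_distrib]
        simp
      rw [e]
      refine Finset.prod_le_prod (fun i _ => ?_) (fun i _ => (hG k R w (x i) hR1 hRC).1 hwR)
      exact gau_nonneg (dl_pos hθ0 hθ1 hwC).le w (x i)
    have hSQw := SQ_nonneg (θ := θ) h0 ν k w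
    have hXw : 0 ≤ xk θ k w ^ γ * SQ ν θ ϑ k w := mul_nonneg (Real.rpow_nonneg hxw.le _) hSQw
    have hG0 : 0 ≤ ∏ i, gau (dl θ k w) w (x i) :=
      Finset.prod_nonneg fun i _ => gau_nonneg (dl_pos hθ0 hθ1 hwC).le w (x i)
    calc ‖η w x‖ ≤ B * xk θ k w ^ γ * SQ ν θ ϑ k w * ∏ i, gau (dl θ k w) w (x i) := a1
      _ = B * (xk θ k w ^ γ * SQ ν θ ϑ k w) * ∏ i, gau (dl θ k w) w (x i) := by ring
      _ ≤ B * (CS * (xk θ k z ^ (γ - 2 / P) * SQ ν θ ϑ k z) *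
        (‖((R ^ 2 : ℝ) : ℂ) - ⟪w, z⟫_ℂ‖ / (R ^ 2 - ‖w‖ ^ 2)) ^ 3 *
          Real.sqrt ((R ^ 2 - ‖z‖ ^ 2) / ‖((R ^ 2 : ℝ) : ℂ) - ⟪w, z⟫_ℂ‖)) *
            (CG ^ (q + 1) * ∏ i, gau (R ^ 2 - ‖w‖ ^ 2) w (x i)) := by
          apply mul_le_mul (mul_le_mul_of_nonneg_left a2 hB) hprod hG0
          exact mul_nonneg hB (hXw.trans a2)
      _ = _ := by ring

end Pool.Agent.MPca0fc2.QT
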