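import Mathlib
import Pool.Agent.Lib.MP_ca0fc2_an.Mg.G049
import Pool.Agent.Lib.MP_ca0fc2_an.QTKop2
import Pool.Agent.Lib.MP_ca0fc2_an.Mg.G021
import Pool.Agent.Lib.MP_ca0fc2_an.QTKw
import Pool.Agent.Lib.MP_ca0fc2_an.QTXb

set_option autoImplicit false
set_option linter.unusedSectionVars false

open Metric Set MeasureTheory Filter Topology
open scoped InnerProductSpace ENNReal

namespace Pool.Agent.MPca0fc2.QT

open Pool.Agent.MPca0fc2.PT

variable {E : Type*} [NormedAddCommGroup E] [InnerProductSpace ℂ E]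
variable {V : Type*} [NormedAddCommGroup V] [NormedSpace ℂ V]
variable {Y : Type*} [NormedAddCommGroup Y] [NormedSpace ℂ Y]
variable [FiniteDimensional ℂ E] [MeasurableSpace E] [BorelSpace E]

omit [MeasurableSpace E] [BorelSpace E] in
/-- holomorphic functions are continuously differentiable -/
theorem QTDesc_hol {g : E → ℂ} {U : Set E} (hU : IsOpen U) (hg : DifferentiableOn ℂ g U) :
    ContDiffOn ℂ 1 g U := by
  have hd : ∀ v : E, DifferentiableOn ℂ (fun z => fderiv ℂ g z v) U := by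
    intro v z hz
    apply DifferentiableAt.differentiableWithinAt
    have hO : IsOpen (U ∩ g ⁻¹' ball (g z) 1) := hg.continuousOn.isOpen_inter_preimage hU isOpen_ball
    have hzO : z ∈ U ∩ g ⁻¹' ball (g z) 1 := ⟨hz, by simp⟩
    refine (Pool.Agent.Lib.MP_ca0fc2_an.differentiableOn_fderiv_apply hO
      (hg.mono inter_subset_left) (M := ‖g z‖ + 1) ?_ v).differentiableAt (hO.mem_nhds hzO)
    intro x hx
    have h1 : ‖g x - g z‖ < 1 := by
      have := hx.2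
      rwa [mem_preimage, mem_ball, dist_eq_norm] at this
    calc ‖g x‖ = ‖g z + (g x - g z)‖ := by congr 1; ring
      _ ≤ ‖g z‖ + ‖g x - g z‖ := norm_add_le _ _
      _ ≤ ‖g z‖ + 1 := by linarith
  rw [show (1 : WithTop ℕ∞) = 0 + 1 by norm_num, contDiffOn_succ_iff_fderiv_of_isOpen hU]
  refine ⟨hg, by simp, ?_⟩
  rw [contDiffOn_clm_apply]
  intro v
  rw [contDiffOn_zero]
  exact (hd v).continuousOn

omit [MeasurableSpace E] [BorelSpace E] in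
/-- holomorphic functions with values in the dual are continuously differentiable -/
theorem QTDesc_holF [FiniteDimensional ℂ Y] {F : E → Y →L[ℂ] ℂ} {U : Set E} (hU : IsOpen U)
    (hF : DifferentiableOn ℂ F U) : ContDiffOn ℝ 1 F U := by
  have h1 : ContDiffOn ℂ 1 F U := by
    rw [contDiffOn_clm_apply]
    intro y
    refine QTDesc_hol hU ?_
    intro w hw
    exact (hF w hw).clm_apply (differentiableWithinAt_const y)
  exact h1.restrict_scalars ℝ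

omit [FiniteDimensional ℂ E] [MeasurableSpace E] [BorelSpace E] in
theorem QTDesc_opc (K : Car Y V) {F : E → Y →L[ℂ] ℂ} {U : Set E} (hF : ContDiffOn ℝ 1 F U) {q : ℕ}
    {P : E → E [⋀^Fin q]→L[ℝ] V} (hP : ContDiffOn ℝ 1 P U) :
    ContDiffOn ℝ 1 (fun w => opc E V q (K.c (F w)) (P w)) U := by
  have h1 : ContDiffOn ℝ 1 (fun w => (K.c.restrictScalars ℝ) (F w)) U :=
    (ContinuousLinearMap.contDiff (K.c.restrictScalars ℝ)).comp_contDiffOn hF
  have h0 : ContDiff ℝ 1 (fun A : V →L[ℂ] V => opc E V q A) := by fun_prop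
  have h2 : ContDiffOn ℝ 1 (fun w => opc E V q ((K.c.restrictScalars ℝ) (F w))) U :=
    h0.comp_contDiffOn h1
  exact h2.clm_apply hP

/-- one step -/
theorem QTDesc_step (μ : Measure E) [μ.IsAddHaarMeasure] {m : ℕ} (hm : 1 ≤ m)
    (hdim : Module.finrank ℂ E = m + 1) [FiniteDimensional ℂ V] [FiniteDimensional ℂ Y]
    (K : Car Y V) {θ ϑ : ℝ} (h0 : 0 < ϑ) (h1 : ϑ < 1) {P : ℕ} (hP : θ = ϑ ^ P) (hP4 : 4 ≤ P)
    {δ : ℝ} (hδ : 0 < δ) {γ MF : ℝ} (hγ : 1 / 2 + 2 * (m + 2) / P ≤ γ) (hγ1 : γ ≤ 1)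
    (hMF : 0 ≤ MF) (j : ℕ) (hj : j ≤ m + 1) :
    ∃ C : ℝ, 0 < C ∧ ∀ (ν : Measure E) (A : ℝ), Carl ν A → ∀ (k : ℕ) (R : ℝ)
      (B : ℕ → ℝ) (F : E → Y →L[ℂ] ℂ) (Ψ : (r : ℕ) → E → E [⋀^Fin r]→L[ℝ] V),
      1 ≤ R - 2 * j * (δ * θ ^ k) → R ≤ RC θ k → Antitone B → (∀ r, 0 ≤ B r) →
      DifferentiableOn ℂ F (ball 0 R) → (∀ w ∈ ball (0 : E) R, ‖F w‖ ≤ MF) →
      (∀ r, 1 ≤ r → ContDiffOn ℝ 1 (Ψ r) (ball 0 R) ∧ (∀ w ∈ ball (0 : E) R, Anti (Ψ r w)) ∧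
        (∀ w ∈ ball (0 : E) R, db (Ψ r) w = opc E V (r + 1) (K.c (F w)) (Ψ (r + 1) w)) ∧
        Bd ν θ ϑ k R (B r) γ (Ψ r)) →
      ∃ S : (r : ℕ) → E → E [⋀^Fin r]→L[ℝ] V, ∀ r, m + 1 ≤ r + j →
        ContDiffOn ℝ 1 (S r) (ball 0 (R - 2 * j * (δ * θ ^ k))) ∧
        (∀ w ∈ ball (0 : E) (R - 2 * j * (δ * θ ^ k)), Anti (S r w)) ∧
        (∀ w ∈ ball (0 : E) (R - 2 * j * (δ * θ ^ k)), db (S r) w = Ψ (r + 1) w -
          opc E V (r + 1) (K.c (F w)) (S (r + 1) w)) ∧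
        Bd ν θ ϑ k (R - 2 * j * (δ * θ ^ k)) (C * B (r + 1)) (γ - 2 * j / P) (S r) := by
  have hθ0 : 0 < θ := by rw [hP]; positivity
  have hθ1 : θ < 1 := by rw [hP]; exact pow_lt_one₀ h0.le h1 (by omega)
  have hP0 : (0 : ℝ) < P := by
    have : 0 < P := by omega
    exact_mod_cast this
  induction j with
  | zero =>
    refine ⟨1, one_pos, ?_⟩
    intro ν A hA k R B F Ψ hR1 hRC hBa hB0 hF hFM hΨ
    refine ⟨fun r _ => 0, ?_⟩
    intro r hr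
    simp only [Nat.cast_zero, mul_zero, zero_mul, sub_zero, zero_div] at *
    refine ⟨contDiffOn_const, fun w _ => Anti.zero, fun w hw => ?_, ?_⟩
    · have h2 : Ψ (r + 1) w = 0 := by
        refine Anti.eq_zero ?_ ((hΨ (r + 1) (by omega)).2.1 w hw)
        rw [hdim]
        omega
      have h3 : db (fun _ : E => (0 : E [⋀^Fin r]→L[ℝ] V)) w = 0 := by
        have h4 : d1 (fun _ : E => (0 : E [⋀^Fin r]→L[ℝ] V)) w = 0 := by
          ext v x
          rw [d1_apply]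
          simp
        rw [db, h4]
        exact map_zero (ContinuousAlternatingMap.alternatizeUncurryFinCLM ℝ E V)
      rw [h2, h3, map_zero, sub_zero]
    · exact Bd.zero hθ0 hθ1 h0 hRC (by rw [one_mul]; exact hB0 _)
  | succ j ih =>
    obtain ⟨Cj, hCj, hS⟩ := ih (by omega)
    have hjm : j ≤ m := by omega
    obtain ⟨r0, hr0⟩ : ∃ r0, r0 + j = m := ⟨m - j, by omega⟩
    set γj : ℝ := γ - 2 * j / P with hγj
    have hjP : (0 : ℝ) ≤ 2 * j / P := by positivity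
    have hγj1 : γj ≤ 1 := by rw [hγj]; linarith
    have hγj2 : 1 / 2 + 2 / (P : ℝ) ≤ γj := by
      have h5 : (j : ℝ) ≤ m := by exact_mod_cast hjm
      have h6 : 2 / (P : ℝ) + 2 * j / P ≤ 2 * (m + 2) / P := by
        rw [← add_div]
        gcongr
        linarith
      rw [hγj]
      linarith
    obtain ⟨CT, hCT, hT⟩ := TR_w (V := V) μ hm hdim r0 h0 h1 hP hP4 hδ hγj2 hγj1
    have hKc : 0 ≤ ‖K.c‖ := K.c.opNorm_nonneg
    set D : ℝ := (4 : ℝ) ^ (γ - γj) + ‖K.c‖ * MF * Cj with hD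
    have hD0 : 0 < D := by positivity
    have hγs : γj - 2 / P = γ - 2 * ((j + 1 : ℕ) : ℝ) / P := by
      rw [hγj]
      push_cast
      ring
    refine ⟨CT * D + (4 : ℝ) ^ (γj - (γj - 2 / P)) * Cj, by positivity, ?_⟩
    intro ν A hA k R B F Ψ hR1 hRC hBa hB0 hF hFM hΨ
    have ht : 0 < δ * θ ^ k := by positivity
    set Rj : ℝ := R - 2 * j * (δ * θ ^ k) with hRj
    have hRj0 : (0 : ℝ) ≤ 2 * j * (δ * θ ^ k) := by positivity
    have hRs : R - 2 * ((j + 1 : ℕ) : ℝ) * (δ * θ ^ k) = Rj - 2 * (δ * θ ^ k) := by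
      rw [hRj]
      push_cast
      ring
    rw [hRs] at hR1
    simp only [hRs, ← hγs]
    have hRj1 : 1 ≤ Rj := by linarith
    have hRjR : Rj ≤ R := by rw [hRj]; linarith
    obtain ⟨S, hS'⟩ := hS ν A hA k R B F Ψ (by rw [← hRj]; exact hRj1) hRC hBa hB0 hF hFM hΨ
    rw [← hRj] at hS'
    have hsub : ball (0 : E) Rj ⊆ ball 0 R := ball_subset_ball hRjR
    -- the right side
    set η : E → E [⋀^Fin (r0 + 1)]→L[ℝ] V := fun w => Ψ (r0 + 1) w -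
      opc E V (r0 + 1) (K.c (F w)) (S (r0 + 1) w) with hη
    have hFc : ContDiffOn ℝ 1 F (ball 0 Rj) := (QTDesc_holF isOpen_ball hF).mono hsub
    obtain ⟨Ψ1, Ψ2, Ψ3, Ψ4⟩ := hΨ (r0 + 1) (by omega)
    obtain ⟨S1, S2, S3, S4⟩ := hS' (r0 + 1) (by omega)
    have hηc : ContDiffOn ℝ 1 η (ball 0 Rj) := (Ψ1.mono hsub).sub (QTDesc_opc K hFc S1)
    have hηa : ∀ w ∈ ball (0 : E) Rj, Anti (η w) := fun w hw =>
      (Ψ2 w (hsub hw)).sub ((S2 w hw).opc _)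
    have hFd : ∀ w ∈ ball (0 : E) Rj, DifferentiableAt ℂ (fun w => K.c (F w)) w := fun w hw =>
      K.c.differentiableAt.comp w ((hF w (hsub hw)).differentiableAt (isOpen_ball.mem_nhds (hsub hw)))
    have hSd : ∀ w ∈ ball (0 : E) Rj, DifferentiableAt ℝ (S (r0 + 1)) w := fun w hw =>
      (S1.contDiffAt (isOpen_ball.mem_nhds hw)).differentiableAt (by norm_num)
    have hΨd : ∀ w ∈ ball (0 : E) Rj, DifferentiableAt ℝ (Ψ (r0 + 1)) w := fun w hw =>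
      (Ψ1.contDiffAt (isOpen_ball.mem_nhds (hsub hw))).differentiableAt (by norm_num)
    have hopd : ∀ w ∈ ball (0 : E) Rj,
        DifferentiableAt ℝ (fun w => opc E V (r0 + 1) (K.c (F w)) (S (r0 + 1) w)) w := fun w hw =>
      ((QTDesc_opc K hFc S1).contDiffAt (isOpen_ball.mem_nhds hw)).differentiableAt (by norm_num)
    have hηd : ∀ w ∈ ball (0 : E) Rj, db η w = 0 := by
      intro w hw
      rw [hη, db_sub (hΨd w hw) (hopd w hw), db_opc_holo (hFd w hw) (hSd w hw), Ψ3 w (hsub hw),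
        S3 w hw, map_sub, opcc_self, sub_zero, sub_self]
    have hηb : Bd ν θ ϑ k Rj (D * B (r0 + 1)) γj η := by
      have a1 := Bd.exp hθ0 hθ1 h0 (hRjR.trans hRC) (hB0 _) (Ψ4.ball hRjR)
        (γ' := γj) (by rw [hγj]; linarith)
      have a2 := Bd.opc hθ0 hθ1 h0 (hRjR.trans hRC) (mul_nonneg hCj.le (hB0 _)) S4
        (G := fun w => K.c (F w)) (a := ‖K.c‖ * MF) (t := 0) (by
          intro w hw
          rw [Real.rpow_zero, mul_one]
          refine (K.c.le_opNorm _).trans (mul_le_mul_of_nonneg_left (hFM w ?_) hKc)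
          exact hsub (mem_ball_zero_iff.mpr hw))
      rw [add_zero] at a2
      refine Bd.mono hθ0 hθ1 h0 (hRjR.trans hRC) (a1.sub a2) ?_
      have h7 : B (r0 + 1 + 1) ≤ B (r0 + 1) := hBa (Nat.le_succ _)
      have h8 : ‖K.c‖ * MF * (Cj * B (r0 + 1 + 1)) ≤ ‖K.c‖ * MF * Cj * B (r0 + 1) := by
        rw [← mul_assoc]
        exact mul_le_mul_of_nonneg_left h7 (by positivity)
      calc (4 : ℝ) ^ (γ - γj) * B (r0 + 1) + ‖K.c‖ * MF * (Cj * B (r0 + 1 + 1)) ≤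
            (4 : ℝ) ^ (γ - γj) * B (r0 + 1) + ‖K.c‖ * MF * Cj * B (r0 + 1) :=
            add_le_add le_rfl h8
        _ = D * B (r0 + 1) := by rw [hD]; ring
    -- the operator
    set Ro : ℝ := Rj - δ * θ ^ k with hRo
    have hRo1 : 1 ≤ Ro := by rw [hRo]; linarith
    have hRoj : Ro < Rj := by rw [hRo]; linarith
    have hclo : closedBall (0 : E) Ro ⊆ ball 0 Rj := closedBall_subset_ball hRoj
    obtain ⟨T1, T2, T3⟩ := TR_main μ hdim (by linarith : 0 < Ro) isOpen_ball hclo hηc hηa hηd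
    have T4 := hT ν A hA k Ro (Rj - 2 * (δ * θ ^ k)) (D * B (r0 + 1)) η (ball 0 Rj) hRo1
      (hRoj.le.trans (hRjR.trans hRC)) (by rw [hRo]; linarith) isOpen_ball hclo hηc
      (mul_nonneg hD0.le (hB0 _)) (hηb.ball hRoj.le)
    have hRn : Rj - 2 * (δ * θ ^ k) ≤ Ro := by rw [hRo]; linarith
    have hsn : ball (0 : E) (Rj - 2 * (δ * θ ^ k)) ⊆ ball 0 Ro := ball_subset_ball hRn
    have hsn2 : ball (0 : E) (Rj - 2 * (δ * θ ^ k)) ⊆ ball 0 Rj := ball_subset_ball (by linarith)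
    have hRnC : Rj - 2 * (δ * θ ^ k) ≤ RC θ k := by linarith
    refine ⟨Function.update S r0 (TR μ m Ro η), ?_⟩
    intro r hr
    have hrr : r0 ≤ r := by omega
    have e1 : Function.update S r0 (TR μ m Ro η) (r + 1) = S (r + 1) :=
      Function.update_of_ne (by omega) _ _
    rcases Nat.eq_or_lt_of_le hrr with h | h
    · subst h
      have e0 : Function.update S r0 (TR μ m Ro η) r0 = TR μ m Ro η := Function.update_self _ _ _
      rw [e0, e1]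
      refine ⟨T1.mono hsn, fun w hw => T2 w (hsn hw), fun w hw => T3 w (hsn hw), ?_⟩
      refine Bd.mono hθ0 hθ1 h0 hRnC T4 ?_
      have h9 := hB0 (r0 + 1)
      have h10 : 0 ≤ (4 : ℝ) ^ (γj - (γj - 2 / P)) * Cj * B (r0 + 1) := by positivity
      calc CT * (D * B (r0 + 1)) ≤ CT * (D * B (r0 + 1)) +
            (4 : ℝ) ^ (γj - (γj - 2 / P)) * Cj * B (r0 + 1) := le_add_of_nonneg_right h10
        _ = (CT * D + (4 : ℝ) ^ (γj - (γj - 2 / P)) * Cj) * B (r0 + 1) := by ring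
    · have e0 : Function.update S r0 (TR μ m Ro η) r = S r :=
        Function.update_of_ne (by omega) _ _
      rw [e0, e1]
      obtain ⟨U1, U2, U3, U4⟩ := hS' r (by omega)
      refine ⟨U1.mono hsn2, fun w hw => U2 w (hsn2 hw), fun w hw => U3 w (hsn2 hw), ?_⟩
      have a1 := Bd.exp hθ0 hθ1 h0 hRnC (mul_nonneg hCj.le (hB0 _)) (U4.ball (by linarith))
        (γ' := γj - 2 / P) (by have : 0 ≤ 2 / (P : ℝ) := by positivity
                               linarith)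
      refine Bd.mono hθ0 hθ1 h0 hRnC a1 ?_
      have h9 := hB0 (r + 1)
      have h10 : 0 ≤ CT * D * B (r + 1) := by positivity
      calc (4 : ℝ) ^ (γj - (γj - 2 / P)) * (Cj * B (r + 1)) ≤ CT * D * B (r + 1) +
            (4 : ℝ) ^ (γj - (γj - 2 / P)) * (Cj * B (r + 1)) := le_add_of_nonneg_left h10
        _ = (CT * D + (4 : ℝ) ^ (γj - (γj - 2 / P)) * Cj) * B (r + 1) := by ring

/-- Solution of the equations `∂̄ S_r = Ψ_{r+1} - F ⌟ S_{r+1}` with estimates. -/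
theorem descent (μ : Measure E) [μ.IsAddHaarMeasure] {m : ℕ} (hm : 1 ≤ m)
    (hdim : Module.finrank ℂ E = m + 1) [FiniteDimensional ℂ V] [FiniteDimensional ℂ Y]
    (K : Car Y V) {θ ϑ : ℝ} (h0 : 0 < ϑ) (h1 : ϑ < 1) {P : ℕ} (hP : θ = ϑ ^ P) (hP4 : 4 ≤ P)
    {c₀ : ℝ} (hc₀ : 0 < c₀) {γ MF : ℝ} (hγ : 1 / 2 + 2 * (m + 2) / P ≤ γ) (hγ1 : γ ≤ 1)
    (hMF : 0 ≤ MF) :
    ∃ C : ℝ, 0 < C ∧ ∀ (ν : Measure E) (A : ℝ), Carl ν A → ∀ (k : ℕ) (R R' : ℝ)
      (B : ℕ → ℝ) (F : E → Y →L[ℂ] ℂ) (Ψ : (r : ℕ) → E → E [⋀^Fin r]→L[ℝ] V),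
      1 ≤ R' → R' + c₀ * θ ^ k ≤ R → R ≤ RC θ k → Antitone B → (∀ r, 0 ≤ B r) →
      DifferentiableOn ℂ F (ball 0 R) → (∀ w ∈ ball (0 : E) R, ‖F w‖ ≤ MF) →
      (∀ r, 1 ≤ r → ContDiffOn ℝ 1 (Ψ r) (ball 0 R) ∧ (∀ w ∈ ball (0 : E) R, Anti (Ψ r w)) ∧
        (∀ w ∈ ball (0 : E) R, db (Ψ r) w = opc E V (r + 1) (K.c (F w)) (Ψ (r + 1) w)) ∧
        Bd ν θ ϑ k R (B r) γ (Ψ r)) →
      ∃ S : (r : ℕ) → E → E [⋀^Fin r]→L[ℝ] V, ∀ r, ContDiffOn ℝ 1 (S r) (ball 0 R') ∧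
        (∀ w ∈ ball (0 : E) R', Anti (S r w)) ∧
        (∀ w ∈ ball (0 : E) R', db (S r) w = Ψ (r + 1) w -
          opc E V (r + 1) (K.c (F w)) (S (r + 1) w)) ∧
        Bd ν θ ϑ k R' (C * B (r + 1)) (1 / 2) (S r) := by
  have hθ0 : 0 < θ := by rw [hP]; positivity
  have hθ1 : θ < 1 := by rw [hP]; exact pow_lt_one₀ h0.le h1 (by omega)
  have hP0 : (0 : ℝ) < P := by
    have : 0 < P := by omega
    exact_mod_cast this
  set δ : ℝ := c₀ / (2 * (m + 2)) with hδ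
  have hδ0 : 0 < δ := by positivity
  obtain ⟨C, hC, hS⟩ := QTDesc_step μ hm hdim K h0 h1 hP hP4 hδ0 hγ hγ1 hMF (m + 1) le_rfl
  set γ' : ℝ := γ - 2 * ((m + 1 : ℕ) : ℝ) / P with hγ'
  refine ⟨(4 : ℝ) ^ (γ' - 1 / 2) * C, by positivity, ?_⟩
  intro ν A hA k R R' B F Ψ hR'1 hR'R hRC hBa hB0 hF hFM hΨ
  have hθk : 0 < θ ^ k := by positivity
  set Rm : ℝ := R - 2 * ((m + 1 : ℕ) : ℝ) * (δ * θ ^ k) with hRm
  have h2 : R' ≤ Rm := by
    have h3 : 2 * ((m + 1 : ℕ) : ℝ) * (δ * θ ^ k) ≤ c₀ * θ ^ k := by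
      have h4 : 2 * ((m + 1 : ℕ) : ℝ) * δ ≤ c₀ := by
        rw [hδ]
        push_cast
        rw [mul_div_assoc', div_le_iff₀ (by positivity)]
        nlinarith
      calc 2 * ((m + 1 : ℕ) : ℝ) * (δ * θ ^ k) = (2 * ((m + 1 : ℕ) : ℝ) * δ) * θ ^ k := by ring
        _ ≤ c₀ * θ ^ k := mul_le_mul_of_nonneg_right h4 hθk.le
    rw [hRm]
    linarith
  obtain ⟨S, hS'⟩ := hS ν A hA k R B F Ψ (by rw [← hRm]; linarith) hRC hBa hB0 hF hFM hΨ
  refine ⟨S, fun r => ?_⟩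
  rw [← hRm] at hS'
  obtain ⟨U1, U2, U3, U4⟩ := hS' r (by omega)
  have hsub : ball (0 : E) R' ⊆ ball 0 Rm := ball_subset_ball h2
  refine ⟨U1.mono hsub, fun w hw => U2 w (hsub hw), fun w hw => U3 w (hsub hw), ?_⟩
  have hR'C : R' ≤ RC θ k := by
    have : 0 < c₀ * θ ^ k := by positivity
    linarith
  have h5 : 1 / 2 ≤ γ' := by
    have h6 : 2 * ((m + 1 : ℕ) : ℝ) / P ≤ 2 * (m + 2) / P := by
      gcongr
      push_cast
      linarith
    rw [hγ']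
    linarith
  have a1 := Bd.exp hθ0 hθ1 h0 hR'C (mul_nonneg hC.le (hB0 _)) (U4.ball h2) h5
  rw [← mul_assoc] at a1
  exact a1

end Pool.Agent.MPca0fc2.QT
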