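import Mathlib
import Pool.Agent.Lib.MP_ca0fc2_an.Mg.G023
import Pool.Agent.Lib.MP_ca0fc2_an.Mg.G018

set_option autoImplicit false

open Metric Set MeasureTheory Filter Topology
open scoped InnerProductSpace ENNReal

namespace Pool.Agent.MPca0fc2.PT

variable {E : Type*} [NormedAddCommGroup E] [InnerProductSpace ℂ E]

variable [FiniteDimensional ℂ E] [MeasurableSpace E] [BorelSpace E]

theorem PB_RC_anti {ϑ : ℝ} (h0 : 0 < ϑ) (h1 : ϑ < 1) {i j : ℕ} (hij : i ≤ j) :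
    RC (ϑ ^ 32) j ≤ RC (ϑ ^ 32) i := by
  unfold RC
  have h2 : 0 ≤ ϑ ^ 32 := by positivity
  have h3 : ϑ ^ 32 ≤ 1 := pow_le_one₀ h0.le h1.le
  have h4 : (ϑ ^ 32) ^ (j + 1) ≤ (ϑ ^ 32) ^ (i + 1) := pow_le_pow_of_le_one h2 h3 (by omega)
  linarith

theorem b_contDiff {ϑ c ρ : ℝ} (h0 : 0 < ϑ) (h1 : ϑ < 1) (hc : 0 < c) (hρ : 0 < ρ)
    {ν : Measure E} {u : E → ℂ} {M A p C₀ : ℝ} (hu : HU ν u M A p C₀) (k : ℕ) :
    ContDiffOn ℝ 1 (bb ν u ϑ c ρ k) (ball 0 (RC (ϑ ^ 32) (k - 1))) := by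
  induction k with
  | zero => exact contDiffOn_const
  | succ k ih =>
    have h2 : ContDiffOn ℝ 1 (bb ν u ϑ c ρ k) (ball 0 (RC (ϑ ^ 32) (k + 1 - 1))) :=
      ih.mono (ball_subset_ball (PB_RC_anti h0 h1 (by omega)))
    have h3 := v_contDiff h0 h1 hc hu (k + 1)
    have h4 : bb ν u ϑ c ρ (k + 1) = fun w => bb ν u ϑ c ρ k w +
      tau ρ (vv ν u ϑ c (k + 1) w - bb ν u ϑ c ρ k w) := rfl
    rw [h4]
    exact h2.add ((tau_contDiff hρ).comp_contDiffOn (h3.sub h2))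

theorem b_close {ϑ c ρ : ℝ} (hρ : 0 < ρ) (ν : Measure E) (u : E → ℂ) (k : ℕ) (w : E) :
    ‖vv ν u ϑ c k w - bb ν u ϑ c ρ k w‖ ≤ 2 * ρ := by
  cases k with
  | zero =>
    have h : vv ν u ϑ c 0 w - bb ν u ϑ c ρ 0 w = 0 := by
      simp [vv, bb]
    rw [h, norm_zero]
    positivity
  | succ k =>
    have h : vv ν u ϑ c (k + 1) w - bb ν u ϑ c ρ (k + 1) w =
        (vv ν u ϑ c (k + 1) w - bb ν u ϑ c ρ k w) -
          tau ρ (vv ν u ϑ c (k + 1) w - bb ν u ϑ c ρ k w) := by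
      have h4 : bb ν u ϑ c ρ (k + 1) w = bb ν u ϑ c ρ k w +
        tau ρ (vv ν u ϑ c (k + 1) w - bb ν u ϑ c ρ k w) := rfl
      rw [h4]
      ring
    rw [h]
    exact tau_rest hρ _

theorem PB_Ei_nonneg (ν : Measure E) (θ : ℝ) (i : ℕ) (w : E) : 0 ≤ Ei ν θ i w :=
  EE_nonneg ν _

theorem SE_nonneg {ϑ : ℝ} (h0 : 0 < ϑ) (ν : Measure E) (k : ℕ) (w : E) : 0 ≤ SE ν ϑ k w := by
  unfold SE
  exact Finset.sum_nonneg fun i _ => mul_nonneg (by positivity) (PB_Ei_nonneg _ _ _ _)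

theorem PB_geom {x : ℝ} (h0 : 0 ≤ x) (h1 : x < 1) (n : ℕ) :
    ∑ i ∈ Finset.range n, x ^ i ≤ 1 / (1 - x) := by
  rw [le_div_iff₀ (by linarith), mul_comm, mul_neg_geom_sum]
  have : 0 ≤ x ^ n := by positivity
  linarith

theorem PB_nat_pow {x : ℝ} (h0 : 0 ≤ x) (h1 : x < 1) (n : ℕ) :
    (n : ℝ) * x ^ n ≤ 1 / (1 - x) := by
  refine le_trans ?_ (PB_geom h0 h1 n)
  have h2 : ∑ i ∈ Finset.range n, x ^ n ≤ ∑ i ∈ Finset.range n, x ^ i := by
    apply Finset.sum_le_sum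
    intro i hi
    rw [Finset.mem_range] at hi
    exact pow_le_pow_of_le_one h0 h1.le hi.le
  simpa using h2

theorem PB_rpow {c d e p : ℝ} (hc : 0 < c) (hc1 : c ≤ 1) (hd : 0 < d) (hd1 : d ≤ 1) (hp : 1 ≤ p)
    (he : c * d < e) : e ^ (1 / p) ≤ e / (c * d) := by
  have hcd : 0 < c * d := by positivity
  have hcd1 : c * d ≤ 1 := mul_le_one₀ hc1 hd.le hd1
  have he0 : 0 < e := by linarith
  have hp1 : 1 / p ≤ 1 := by
    rw [div_le_one (by linarith)]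
    exact hp
  rcases le_or_gt 1 e with h | h
  · calc e ^ (1 / p) ≤ e ^ (1 : ℝ) := Real.rpow_le_rpow_of_exponent_le h hp1
      _ = e := Real.rpow_one e
      _ ≤ e / (c * d) := by
        rw [le_div_iff₀ hcd]
        nlinarith
  · calc e ^ (1 / p) ≤ 1 := Real.rpow_le_one he0.le h.le (by positivity)
      _ ≤ e / (c * d) := by
        rw [le_div_iff₀ hcd]
        linarith

theorem PB_swap (F : ℕ → ℝ) (k : ℕ) :
    ∑ l ∈ Finset.range k, ∑ i ∈ Finset.range (l + 1), F i =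
      ∑ i ∈ Finset.range k, ((k - i : ℕ) : ℝ) * F i := by
  induction k with
  | zero => simp
  | succ k ih =>
    rw [Finset.sum_range_succ, ih, Finset.sum_range_succ _ k, Finset.sum_range_succ _ k,
      ← add_assoc, ← Finset.sum_add_distrib]
    congr 1
    · apply Finset.sum_congr rfl
      intro i hi
      rw [Finset.mem_range] at hi
      have h1 : k + 1 - i = (k - i) + 1 := by omega
      rw [h1]
      push_cast
      ring
    · simp

theorem PB_exps {X Y ϑ : ℝ} {n : ℕ} (h0 : 0 < ϑ) (hY : 0 < Y) (hYX : Y ≤ X)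
    (hYn : Y ≤ 4 * ϑ ^ (32 * n)) :
    X ^ (7 / 8 : ℝ) * Real.sqrt (Y / X) ≤ 2 * ϑ ^ (4 * n) * X ^ (3 / 4 : ℝ) := by
  have hX : 0 < X := by linarith
  have h1 : Y ^ (1 / 8 : ℝ) ≤ 2 * ϑ ^ (4 * n) := by
    have h2 : Y ≤ (2 * ϑ ^ (4 * n)) ^ 8 := by
      rw [mul_pow, ← pow_mul, show 4 * n * 8 = 32 * n by ring]
      have : 0 ≤ ϑ ^ (32 * n) := by positivity
      linarith
    calc Y ^ (1 / 8 : ℝ) ≤ ((2 * ϑ ^ (4 * n)) ^ 8) ^ (1 / 8 : ℝ) :=
          Real.rpow_le_rpow hY.le h2 (by norm_num)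
      _ = 2 * ϑ ^ (4 * n) := by
          rw [← Real.rpow_natCast, ← Real.rpow_mul (by positivity)]
          norm_num
  have h3 : Real.sqrt (Y / X) = Y ^ (1 / 2 : ℝ) / X ^ (1 / 2 : ℝ) := by
    rw [Real.sqrt_eq_rpow, Real.div_rpow hY.le hX.le]
  have h4 : X ^ (7 / 8 : ℝ) = X ^ (3 / 8 : ℝ) * X ^ (1 / 2 : ℝ) := by
    rw [← Real.rpow_add hX]
    norm_num
  have h5 : Y ^ (1 / 2 : ℝ) = Y ^ (3 / 8 : ℝ) * Y ^ (1 / 8 : ℝ) := by
    rw [← Real.rpow_add hY]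
    norm_num
  have h6 : X ^ (3 / 4 : ℝ) = X ^ (3 / 8 : ℝ) * X ^ (3 / 8 : ℝ) := by
    rw [← Real.rpow_add hX]
    norm_num
  have h7 : 0 < X ^ (1 / 2 : ℝ) := by positivity
  have h8 : 0 < X ^ (3 / 8 : ℝ) := by positivity
  have h9 : Y ^ (3 / 8 : ℝ) ≤ X ^ (3 / 8 : ℝ) := Real.rpow_le_rpow hY.le hYX (by norm_num)
  have h10 : 0 ≤ Y ^ (1 / 8 : ℝ) := by positivity
  have h11 : 0 ≤ Y ^ (3 / 8 : ℝ) := by positivity
  calc X ^ (7 / 8 : ℝ) * Real.sqrt (Y / X) = X ^ (3 / 8 : ℝ) * (Y ^ (3 / 8 : ℝ) * Y ^ (1 / 8 : ℝ)) := by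
        rw [h3, h4, h5]
        field_simp
    _ ≤ X ^ (3 / 8 : ℝ) * (X ^ (3 / 8 : ℝ) * (2 * ϑ ^ (4 * n))) := by
        apply mul_le_mul_of_nonneg_left _ h8.le
        exact mul_le_mul h9 h1 h10 h8.le
    _ = 2 * ϑ ^ (4 * n) * X ^ (3 / 4 : ℝ) := by
        rw [h6]
        ring

theorem SE_le {ϑ : ℝ} (h0 : 0 < ϑ) (h1 : ϑ < 1) {ν : Measure E} {A : ℝ} (h : Carl ν A) {k : ℕ}
    {w : E} (hw : ‖w‖ < RC (ϑ ^ 32) k) : SE ν ϑ k w ≤ A / (1 - ϑ ^ 2) := by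
  have hθ0 : 0 < ϑ ^ 32 := by positivity
  have hθ1 : ϑ ^ 32 < 1 := pow_lt_one₀ h0.le h1 (by norm_num)
  have hϑ2 : ϑ ^ 2 < 1 := pow_lt_one₀ h0.le h1 (by norm_num)
  have hA := h.1
  unfold SE
  calc ∑ i ∈ Finset.range (k + 1), ϑ ^ (2 * (k - i)) * Ei ν (ϑ ^ 32) i w
      ≤ ∑ i ∈ Finset.range (k + 1), (ϑ ^ 2) ^ (k - i) * A := by
        apply Finset.sum_le_sum
        intro i hi
        rw [Finset.mem_range] at hi
        rw [pow_mul]
        apply mul_le_mul_of_nonneg_left _ (by positivity)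
        apply EE_le h
        rw [norm_smul, Complex.norm_real, Real.norm_eq_abs, abs_of_nonneg]
        · exact rt_mul_lt hθ0 hθ1 (by omega) hw
        · unfold rt
          linarith [pow_le_one₀ (n := i) hθ0.le hθ1.le]
    _ = (∑ i ∈ Finset.range (k + 1), (ϑ ^ 2) ^ (k - i)) * A := by rw [Finset.sum_mul]
    _ ≤ (1 / (1 - ϑ ^ 2)) * A := by
        apply mul_le_mul_of_nonneg_right _ hA
        have h2 : ∑ i ∈ Finset.range (k + 1), (ϑ ^ 2) ^ (k - i) =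
            ∑ i ∈ Finset.range (k + 1), (ϑ ^ 2) ^ i := by
          rw [← Finset.sum_range_reflect]
          apply Finset.sum_congr rfl
          intro i hi
          rw [Finset.mem_range] at hi
          congr 1
          omega
        rw [h2]
        exact PB_geom (by positivity) hϑ2 _
    _ = A / (1 - ϑ ^ 2) := by ring

/-- the gradient of the base is at most the sum of the gradients of the approximations -/
theorem PB_sum {ϑ c ρ : ℝ} (h0 : 0 < ϑ) (h1 : ϑ < 1) (hc : 0 < c) (hρ : 0 < ρ)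
    {ν : Measure E} {u : E → ℂ} {M A p C₀ : ℝ} (hu : HU ν u M A p C₀) (w x : E) (k : ℕ)
    (hw : ‖w‖ < RC (ϑ ^ 32) (k - 1)) :
    ‖fderiv ℝ (bb ν u ϑ c ρ k) w x‖ ≤
      ∑ l ∈ Finset.range k, ‖fderiv ℝ (vv ν u ϑ c (l + 1)) w x‖ := by
  induction k with
  | zero =>
    have h : bb ν u ϑ c ρ 0 = fun _ => u 0 := rfl
    rw [h, fderiv_fun_const]
    simp
  | succ k ih =>
    have hw1 : ‖w‖ < RC (ϑ ^ 32) (k - 1) :=
      lt_of_lt_of_le hw (PB_RC_anti h0 h1 (by omega))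
    have hb : DifferentiableAt ℝ (bb ν u ϑ c ρ k) w := by
      have h2 := (b_contDiff h0 h1 hc hρ hu k).differentiableOn one_ne_zero
      exact h2.differentiableAt (isOpen_ball.mem_nhds (by rwa [mem_ball_zero_iff]))
    have hv : DifferentiableAt ℝ (vv ν u ϑ c (k + 1)) w := by
      have h2 := (v_contDiff h0 h1 hc hu (k + 1)).differentiableOn one_ne_zero
      exact h2.differentiableAt (isOpen_ball.mem_nhds (by rwa [mem_ball_zero_iff]))
    have ht : DifferentiableAt ℝ (tau ρ) (vv ν u ϑ c (k + 1) w - bb ν u ϑ c ρ k w) :=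
      ((tau_contDiff hρ).differentiable one_ne_zero).differentiableAt
    have h4 : bb ν u ϑ c ρ (k + 1) = fun w => bb ν u ϑ c ρ k w +
      tau ρ (vv ν u ϑ c (k + 1) w - bb ν u ϑ c ρ k w) := rfl
    have h5 := (hb.hasFDerivAt.add
      (ht.hasFDerivAt.comp w (hv.hasFDerivAt.sub hb.hasFDerivAt))).fderiv
    have h6 : fderiv ℝ (bb ν u ϑ c ρ (k + 1)) w x = fderiv ℝ (bb ν u ϑ c ρ k) w x +
        fderiv ℝ (tau ρ) (vv ν u ϑ c (k + 1) w - bb ν u ϑ c ρ k w)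
          (fderiv ℝ (vv ν u ϑ c (k + 1)) w x - fderiv ℝ (bb ν u ϑ c ρ k) w x) := by
      have h7 : fderiv ℝ (bb ν u ϑ c ρ (k + 1)) w = _ := h5
      rw [h7]
      rfl
    rw [h6, Finset.sum_range_succ]
    refine (tau_fderiv hρ _ _ _).trans ?_
    linarith [ih hw1]

/-- the gradient of the base, against the local potentials -/
theorem b_grad {ϑ : ℝ} (h0 : 0 < ϑ) (h1 : ϑ < 1) {C₀ p c : ℝ} (hC₀ : 0 < C₀) (hp : 1 ≤ p)
    (hc : 0 < c) (hc1 : c ≤ 1) :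
    ∃ C : ℝ, 0 < C ∧ ∀ (ν : Measure E) (u : E → ℂ) (M A ρ : ℝ), HU ν u M A p C₀ → 0 < ρ →
      ∀ (k : ℕ) (w : E), ‖w‖ < RC (ϑ ^ 32) k → ∀ x : E,
        ((ϑ ^ 32) ^ k / dl (ϑ ^ 32) k w) ^ (7 / 8 : ℝ) * ‖fderiv ℝ (bb ν u ϑ c ρ k) w x‖ ≤
          C * ((ϑ ^ 32) ^ k / dl (ϑ ^ 32) k w) ^ (3 / 4 : ℝ) * SE ν ϑ k w *
            gau (dl (ϑ ^ 32) k w) w x ∧
        ((ϑ ^ 32) ^ k / dl (ϑ ^ 32) k w) * ‖fderiv ℝ (bb ν u ϑ c ρ k) w x‖ ≤
          C * ((ϑ ^ 32) ^ k / dl (ϑ ^ 32) k w) ^ (7 / 8 : ℝ) * SE ν ϑ k w *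
            gau (dl (ϑ ^ 32) k w) w x := by
  obtain ⟨C₁, hC₁, hv⟩ := v_grad (E := E) h0 h1 hC₀ hp
  have h1ϑ : 0 < 1 - ϑ := by linarith
  refine ⟨2 * C₁ / c * (1 / (1 - ϑ)), by positivity, ?_⟩
  intro ν u M A ρ hu hρ k w hw x
  have hθ0 : 0 < ϑ ^ 32 := by positivity
  have hθ1 : ϑ ^ 32 < 1 := pow_lt_one₀ h0.le h1 (by norm_num)
  set θ := ϑ ^ 32 with hθdef
  have hdl : ∀ i ≤ k, 0 < dl θ i w := fun i hi =>
    lt_of_lt_of_le (by positivity) (dl_ge hθ0 hθ1 (by omega : i ≤ k + 1) hw)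
  have hdk := hdl k le_rfl
  set X := θ ^ k / dl θ k w with hX
  have hX0 : 0 < X := by positivity
  set g := gau (dl θ k w) w x with hg
  have hg0 : 0 ≤ g := by
    rw [hg]
    unfold gau
    positivity
  -- the first inequality
  have key : X ^ (7 / 8 : ℝ) * ‖fderiv ℝ (bb ν u ϑ c ρ k) w x‖ ≤
      2 * C₁ / c * (1 / (1 - ϑ)) * X ^ (3 / 4 : ℝ) * SE ν ϑ k w * g := by
    have hwk : ‖w‖ < RC (ϑ ^ 32) (k - 1) := lt_of_lt_of_le hw (PB_RC_anti h0 h1 (by omega))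
    have hsum := PB_sum h0 h1 hc hρ hu w x k hwk
    set F : ℕ → ℝ := fun i => Ei ν θ i w / (c * ϑ ^ (k - i)) * gau (dl θ i w) w x with hF
    have hgi : ∀ i ≤ k, 0 ≤ gau (dl θ i w) w x := by
      intro i hi
      have := hdl i hi
      unfold gau
      positivity
    have h2 : ‖fderiv ℝ (bb ν u ϑ c ρ k) w x‖ ≤
        C₁ * ∑ i ∈ Finset.range k, ((k - i : ℕ) : ℝ) * F i := by
      rw [← PB_swap, Finset.mul_sum]
      refine hsum.trans (Finset.sum_le_sum ?_)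
      intro l hl
      rw [Finset.mem_range] at hl
      have hwl : ‖w‖ < RC (ϑ ^ 32) (l + 1 - 1) :=
        lt_of_lt_of_le hw (PB_RC_anti h0 h1 (by omega))
      refine (hv ν u M A c hu hc (l + 1) w hwl x).trans ?_
      apply mul_le_mul_of_nonneg_left _ hC₁.le
      apply Finset.sum_le_sum
      intro i hi
      rw [Finset.mem_range] at hi
      rw [hF]
      apply mul_le_mul_of_nonneg_right _ (hgi i (by omega))
      have hE := PB_Ei_nonneg ν θ i w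
      split_ifs with hif
      · apply PB_rpow hc hc1 (by positivity) (pow_le_one₀ h0.le h1.le) hp
        refine lt_of_le_of_lt ?_ hif
        apply mul_le_mul_of_nonneg_left _ hc.le
        exact pow_le_pow_of_le_one h0.le h1.le (by omega)
      · positivity
    have h3 : ∀ i ∈ Finset.range k, X ^ (7 / 8 : ℝ) * (((k - i : ℕ) : ℝ) * F i) ≤
        2 / c * (1 / (1 - ϑ)) * X ^ (3 / 4 : ℝ) * (ϑ ^ (2 * (k - i)) * Ei ν θ i w) * g := by
      intro i hi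
      rw [Finset.mem_range] at hi
      have hE := PB_Ei_nonneg ν θ i w
      have hdi := hdl i hi.le
      have hanti : dl θ k w ≤ dl θ i w := dl_anti hθ0 hθ1 hi.le w
      have h4 : gau (dl θ i w) w x ≤ Real.sqrt (dl θ k w / dl θ i w) * g :=
        gau_anti hdk hanti w x
      set n := k - i with hn
      have hY : θ ^ k / dl θ i w ≤ 4 * ϑ ^ (32 * n) := by
        have h5 : θ ^ i / 4 ≤ dl θ i w := dl_ge hθ0 hθ1 (by omega) hw
        rw [div_le_iff₀ hdi]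
        have h6 : θ ^ k = ϑ ^ (32 * n) * θ ^ i := by
          rw [hθdef, ← pow_mul, ← pow_mul, ← pow_add]
          congr 1
          omega
        rw [h6]
        have h7 : 0 < ϑ ^ (32 * n) := by positivity
        nlinarith
      have hYX : θ ^ k / dl θ i w ≤ X := by
        rw [hX]
        exact div_le_div_of_nonneg_left (by positivity) hdk hanti
      have hY0 : 0 < θ ^ k / dl θ i w := by positivity
      have h8 := PB_exps h0 hY0 hYX hY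
      have h9 : θ ^ k / dl θ i w / X = dl θ k w / dl θ i w := by
        rw [hX]
        field_simp
      rw [h9] at h8
      have h10 := PB_nat_pow h0.le h1 n
      have h11 : X ^ (7 / 8 : ℝ) * gau (dl θ i w) w x ≤
          2 * ϑ ^ (4 * n) * X ^ (3 / 4 : ℝ) * g := by
        calc X ^ (7 / 8 : ℝ) * gau (dl θ i w) w x ≤
            X ^ (7 / 8 : ℝ) * (Real.sqrt (dl θ k w / dl θ i w) * g) :=
              mul_le_mul_of_nonneg_left h4 (by positivity)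
          _ = (X ^ (7 / 8 : ℝ) * Real.sqrt (dl θ k w / dl θ i w)) * g := by ring
          _ ≤ _ := mul_le_mul_of_nonneg_right h8 hg0
      calc X ^ (7 / 8 : ℝ) * ((n : ℝ) * F i)
          = ((n : ℝ) * (Ei ν θ i w / (c * ϑ ^ n))) * (X ^ (7 / 8 : ℝ) * gau (dl θ i w) w x) := by
            rw [hF]
            ring
        _ ≤ ((n : ℝ) * (Ei ν θ i w / (c * ϑ ^ n))) * (2 * ϑ ^ (4 * n) * X ^ (3 / 4 : ℝ) * g) := by
            apply mul_le_mul_of_nonneg_left h11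
            positivity
        _ = ((n : ℝ) * ϑ ^ n) * (2 / c * X ^ (3 / 4 : ℝ) * (ϑ ^ (2 * n) * Ei ν θ i w) * g) := by
            have h12 : ϑ ^ (4 * n) = ϑ ^ n * ϑ ^ n * ϑ ^ (2 * n) := by
              rw [← pow_add, ← pow_add]
              congr 1
              omega
            rw [h12]
            field_simp
        _ ≤ (1 / (1 - ϑ)) * (2 / c * X ^ (3 / 4 : ℝ) * (ϑ ^ (2 * n) * Ei ν θ i w) * g) := by
            apply mul_le_mul_of_nonneg_right h10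
            positivity
        _ = _ := by ring
    calc X ^ (7 / 8 : ℝ) * ‖fderiv ℝ (bb ν u ϑ c ρ k) w x‖
        ≤ X ^ (7 / 8 : ℝ) * (C₁ * ∑ i ∈ Finset.range k, ((k - i : ℕ) : ℝ) * F i) :=
          mul_le_mul_of_nonneg_left h2 (by positivity)
      _ = C₁ * ∑ i ∈ Finset.range k, X ^ (7 / 8 : ℝ) * (((k - i : ℕ) : ℝ) * F i) := by
          rw [← Finset.mul_sum]
          ring
      _ ≤ C₁ * ∑ i ∈ Finset.range k,
          2 / c * (1 / (1 - ϑ)) * X ^ (3 / 4 : ℝ) * (ϑ ^ (2 * (k - i)) * Ei ν θ i w) * g :=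
          mul_le_mul_of_nonneg_left (Finset.sum_le_sum h3) hC₁.le
      _ = C₁ * (2 / c * (1 / (1 - ϑ)) * X ^ (3 / 4 : ℝ) *
          (∑ i ∈ Finset.range k, ϑ ^ (2 * (k - i)) * Ei ν θ i w) * g) := by
          rw [← Finset.sum_mul, ← Finset.mul_sum]
      _ ≤ C₁ * (2 / c * (1 / (1 - ϑ)) * X ^ (3 / 4 : ℝ) * SE ν ϑ k w * g) := by
          apply mul_le_mul_of_nonneg_left _ hC₁.le
          apply mul_le_mul_of_nonneg_right _ hg0
          apply mul_le_mul_of_nonneg_left _ (by positivity)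
          unfold SE
          rw [Finset.sum_range_succ]
          have := PB_Ei_nonneg ν θ k w
          have h13 : 0 ≤ ϑ ^ (2 * (k - k)) * Ei ν (ϑ ^ 32) k w := by positivity
          linarith
      _ = _ := by ring
  refine ⟨key, ?_⟩
  have h14 : X = X ^ (1 / 8 : ℝ) * X ^ (7 / 8 : ℝ) := by
    rw [← Real.rpow_add hX0]
    norm_num
  have h15 : X ^ (7 / 8 : ℝ) = X ^ (1 / 8 : ℝ) * X ^ (3 / 4 : ℝ) := by
    rw [← Real.rpow_add hX0]
    norm_num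
  calc X * ‖fderiv ℝ (bb ν u ϑ c ρ k) w x‖
      = X ^ (1 / 8 : ℝ) * (X ^ (7 / 8 : ℝ) * ‖fderiv ℝ (bb ν u ϑ c ρ k) w x‖) := by
        rw [← mul_assoc, ← h14]
    _ ≤ X ^ (1 / 8 : ℝ) * (2 * C₁ / c * (1 / (1 - ϑ)) * X ^ (3 / 4 : ℝ) * SE ν ϑ k w * g) :=
        mul_le_mul_of_nonneg_left key (by positivity)
    _ = 2 * C₁ / c * (1 / (1 - ϑ)) * X ^ (7 / 8 : ℝ) * SE ν ϑ k w * g := by
        rw [h15]
        ring

end Pool.Agent.MPca0fc2.PT
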