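import Mathlib
import Pool.Agent.Lib.MP_ca0fc2_an.Mg.G023
import Pool.Agent.Lib.MP_ca0fc2_an.Mg.G051
import Pool.Agent.Lib.MP_ca0fc2_an.Mg.G055
import Pool.Agent.Lib.MP_ca0fc2_an.QTEd

set_option autoImplicit false

open Metric Set MeasureTheory Filter Topology
open scoped InnerProductSpace ENNReal

namespace Pool.Agent.MPca0fc2.QT

open Pool.Agent.MPca0fc2.PT

variable {E : Type*} [NormedAddCommGroup E] [InnerProductSpace ℂ E]
variable [FiniteDimensional ℂ E] [MeasurableSpace E] [BorelSpace E]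

theorem vq_close {θ ϑ : ℝ} (hθ0 : 0 < θ) (hθ1 : θ < 1) (h0 : 0 < ϑ) (h1 : ϑ < 1)
    {C₀ p ρ : ℝ} (hC₀ : 0 < C₀) (hp : 1 ≤ p) (hρ : 0 < ρ) :
    ∃ c : ℝ, 0 < c ∧ c ≤ 1 ∧ ∀ (ν : Measure E) (u : E → ℂ) (M A : ℝ), HU ν u M A p C₀ →
      ∀ (k : ℕ) (w : E), ‖w‖ < RC θ (k - 1) →
        ‖uk u θ k w - vq ν u θ ϑ c k w‖ ≤ ρ := by
  obtain ⟨C, hC, hd⟩ := d_bound' (E := E) hθ0 hθ1 hC₀ hp
  obtain ⟨q, hq⟩ : ∃ q, q = ϑ ^ (1 / p) := ⟨_, rfl⟩
  have hp0 : 0 < p := by linarith
  have hq0 : 0 < q := by rw [hq]; exact Real.rpow_pos_of_pos h0 _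
  have hq1 : q < 1 := by rw [hq]; exact Real.rpow_lt_one h0.le h1 (by positivity)
  obtain ⟨η, hη⟩ : ∃ η, η = ρ * (1 - q) / C := ⟨_, rfl⟩
  have hη0 : 0 < η := by
    rw [hη]
    have : 0 < 1 - q := by linarith
    positivity
  refine ⟨min 1 (η ^ p / 2), lt_min one_pos (by positivity), min_le_left _ _, ?_⟩
  obtain ⟨c, hc⟩ : ∃ c, c = min 1 (η ^ p / 2) := ⟨_, rfl⟩
  rw [← hc]
  have hc0 : 0 < c := by rw [hc]; exact lt_min one_pos (by positivity)
  have hc2 : (2 * c) ^ (1 / p) ≤ η := by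
    have h3 : 2 * c ≤ η ^ p := by
      have : c ≤ η ^ p / 2 := by rw [hc]; exact min_le_right _ _
      linarith
    calc (2 * c) ^ (1 / p) ≤ (η ^ p) ^ (1 / p) := by
          apply Real.rpow_le_rpow (by positivity) h3 (by positivity)
      _ = η := by
          rw [← Real.rpow_mul hη0.le, mul_one_div_cancel hp0.ne', Real.rpow_one]
  intro ν u M A hu k w hw
  have hth := And.intro hθ0 hθ1
  have e1 : uk u θ k w - vq ν u θ ϑ c k w =
      ∑ i ∈ Finset.range k, (((1 - psi (Ei ν θ i w / (c * ϑ ^ (k - i))) : ℝ) : ℂ) *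
        (uk u θ (i + 1) w - uk u θ i w)) := by
    rw [age_telescope, vq, add_sub_add_left_eq_sub, ← Finset.sum_sub_distrib]
    apply Finset.sum_congr rfl
    intro i _
    push_cast
    ring
  rw [e1]
  refine (norm_sum_le _ _).trans ?_
  have e2 : ∀ i ∈ Finset.range k, ‖(((1 - psi (Ei ν θ i w / (c * ϑ ^ (k - i))) : ℝ) : ℂ) *
        (uk u θ (i + 1) w - uk u θ i w))‖ ≤ C * η * q ^ (k - i) := by
    intro i hi
    rw [Finset.mem_range] at hi
    have hwi : ‖w‖ < RC θ i := hw.trans_le (age_RC_anti hth.1 hth.2 hi)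
    obtain ⟨hd1, -⟩ := hd ν u M A hu i w hwi
    have hE0 : 0 ≤ Ei ν θ i w := EE_nonneg _ _
    have ha : 0 < c * ϑ ^ (k - i) := by positivity
    have hpm := psi_mem (Ei ν θ i w / (c * ϑ ^ (k - i)))
    rw [norm_mul, Complex.norm_real, Real.norm_of_nonneg (by linarith)]
    by_cases h2 : 2 ≤ Ei ν θ i w / (c * ϑ ^ (k - i))
    · rw [psi_one h2]
      simp only [sub_self, zero_mul]
      positivity
    push Not at h2
    rw [div_lt_iff₀ ha] at h2
    have h3 : Ei ν θ i w ^ (1 / p) ≤ η * q ^ (k - i) := by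
      calc Ei ν θ i w ^ (1 / p) ≤ (2 * c * ϑ ^ (k - i)) ^ (1 / p) := by
            apply Real.rpow_le_rpow hE0 (by linarith) (by positivity)
        _ = (2 * c) ^ (1 / p) * (ϑ ^ (k - i)) ^ (1 / p) := by
            rw [Real.mul_rpow (by positivity) (by positivity)]
        _ = (2 * c) ^ (1 / p) * q ^ (k - i) := by
            rw [hq, ← Real.rpow_natCast, ← Real.rpow_natCast, ← Real.rpow_mul h0.le,
              ← Real.rpow_mul h0.le, mul_comm (((k - i : ℕ) : ℝ))]
        _ ≤ η * q ^ (k - i) := by gcongr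
    calc _ ≤ 1 * (C * Ei ν θ i w ^ (1 / p)) := by
          apply mul_le_mul (by linarith) hd1 (norm_nonneg _) (by norm_num)
      _ ≤ 1 * (C * (η * q ^ (k - i))) := by gcongr
      _ = _ := by ring
  refine (Finset.sum_le_sum e2).trans ?_
  rw [← Finset.mul_sum]
  calc C * η * ∑ i ∈ Finset.range k, q ^ (k - i) ≤ C * η * (1 - q)⁻¹ := by
        apply mul_le_mul_of_nonneg_left (age_geom hq0.le hq1 k) (by positivity)
    _ = ρ := by
        rw [hη]
        have : (1 - q) ≠ 0 := by linarith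
        field_simp

theorem vq_c2 {θ ϑ c : ℝ} (hθ0 : 0 < θ) (hθ1 : θ < 1) (h0 : 0 < ϑ) (hc : 0 < c)
    {ν : Measure E} {u : E → ℂ} {M A p C₀ : ℝ} (hu : HU ν u M A p C₀) (k : ℕ) :
    ContDiffOn ℝ 2 (vq ν u θ ϑ c k) (ball 0 (RC θ (k - 1))) := by
  have hpsi : ContDiff ℝ 2 psi :=
    Real.smoothTransition.contDiff.comp (contDiff_id.sub contDiff_const)
  unfold vq
  refine contDiffOn_const.add (ContDiffOn.sum ?_)
  intro i hi
  rw [Finset.mem_range] at hi
  refine ContDiffOn.mul ?_ ?_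
  · have hEi : ContDiffOn ℝ 2 (Ei ν θ i) (ball (0 : E) (RC θ (k - 1))) := by
      have hl : ContDiff ℝ 2 (fun w : E => (rt θ i : ℂ) • w) := contDiff_const_smul _
      refine (EE_c2 hu.carl).comp hl.contDiffOn ?_
      intro w hw
      exact age_maps hθ0 hθ1 hi.le (by omega) w hw
    have h3 : ContDiffOn ℝ 2 (fun w : E => psi (Ei ν θ i w / (c * ϑ ^ (k - i))))
        (ball 0 (RC θ (k - 1))) :=
      hpsi.comp_contDiffOn (hEi.div_const _)
    exact Complex.ofRealCLM.contDiff.comp_contDiffOn h3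
  · exact (uk_c2 hθ0 hθ1 hu.diff (by omega)).sub (uk_c2 hθ0 hθ1 hu.diff (by omega))

theorem vq_grad {θ ϑ : ℝ} (hθ0 : 0 < θ) (hθ1 : θ < 1) (h0 : 0 < ϑ) (h1 : ϑ < 1)
    {C₀ p : ℝ} (hC₀ : 0 < C₀) (hp : 1 ≤ p) :
    ∃ C : ℝ, 0 < C ∧ ∀ (ν : Measure E) (u : E → ℂ) (M A c : ℝ), HU ν u M A p C₀ → 0 < c →
      ∀ (k : ℕ) (w : E), ‖w‖ < RC θ (k - 1) → ∀ x : E,
        ‖fderiv ℝ (vq ν u θ ϑ c k) w x‖ ≤ C * ∑ i ∈ Finset.range k,
          (if c * ϑ ^ (k - i) < Ei ν θ i w then Ei ν θ i w ^ (1 / p) else 0) *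
            gau (dl θ i w) w x := by
  obtain ⟨C, hC, hd⟩ := d_bound' (E := E) hθ0 hθ1 hC₀ hp
  obtain ⟨K, hK, hpsi⟩ := age_psi_bound
  refine ⟨24 * K * C + C, by positivity, ?_⟩
  intro ν u M A c hu hc k w hw x
  have hth := And.intro hθ0 hθ1
  have hwb : w ∈ ball (0 : E) (RC θ (k - 1)) := mem_ball_zero_iff.2 hw
  have hnb := isOpen_ball.mem_nhds hwb
  -- derivative of one term
  have hterm : ∀ i ∈ Finset.range k,
      ∃ L : E →L[ℝ] ℂ, HasFDerivAt (fun w : E =>
        ((psi (Ei ν θ i w / (c * ϑ ^ (k - i))) : ℝ) : ℂ) *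
          (uk u θ (i + 1) w - uk u θ i w)) L w ∧
        ‖L x‖ ≤ (24 * K * C + C) * ((if c * ϑ ^ (k - i) < Ei ν θ i w
          then Ei ν θ i w ^ (1 / p) else 0) * gau (dl θ i w) w x) := by
    intro i hi
    rw [Finset.mem_range] at hi
    have hwi : ‖w‖ < RC θ i := hw.trans_le (age_RC_anti hth.1 hth.2 hi)
    obtain ⟨hd1, hd2⟩ := hd ν u M A hu i w hwi
    have hd2 := hd2 x
    have hE0 : 0 ≤ Ei ν θ i w := EE_nonneg _ _
    have ha : 0 < c * ϑ ^ (k - i) := by positivity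
    have hdl : 0 < dl θ i w := by
      have h2 : 0 < θ ^ i / 4 := by positivity
      exact h2.trans_le (dl_ge hth.1 hth.2 (by omega) hwi)
    have hg0 : 0 ≤ gau (dl θ i w) w x := age_gau_nonneg hdl.le w x
    have hEd : DifferentiableAt ℝ (Ei ν θ i) w :=
      ((age_Ei_contDiff hth.1 hth.2 hu.carl hi.le).contDiffAt hnb).differentiableAt (by norm_num)
    have hEf := age_Ei_fderiv hth.1 hth.2 hu.carl hwi x
    have hud : DifferentiableAt ℝ
        (fun w : E => uk u θ (i + 1) w - uk u θ i w) w :=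
      (((age_uk_contDiff hth.1 hth.2 hu.diff (k := k) (by omega)).sub
        (age_uk_contDiff hth.1 hth.2 hu.diff hi.le)).contDiffAt hnb).differentiableAt
        (by norm_num)
    have h3 : HasFDerivAt (fun w : E => psi (Ei ν θ i w / (c * ϑ ^ (k - i))))
        (deriv psi (Ei ν θ i w / (c * ϑ ^ (k - i))) •
          ((c * ϑ ^ (k - i))⁻¹ • fderiv ℝ (Ei ν θ i) w)) w := by
      have h4 : HasFDerivAt (fun w : E => Ei ν θ i w / (c * ϑ ^ (k - i)))
          ((c * ϑ ^ (k - i))⁻¹ • fderiv ℝ (Ei ν θ i) w) w := by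
        have h5 := hEd.hasFDerivAt.const_mul ((c * ϑ ^ (k - i))⁻¹)
        refine h5.congr_of_eventuallyEq ?_
        apply Filter.Eventually.of_forall
        intro y
        simp only [div_eq_inv_mul]
      exact (age_psi_hasDerivAt _).comp_hasFDerivAt w h4
    have h3' := (Complex.ofRealCLM.hasFDerivAt
      (x := psi (Ei ν θ i w / (c * ϑ ^ (k - i))))).comp w h3
    have h4 := h3'.mul hud.hasFDerivAt
    refine ⟨_, h4, ?_⟩
    simp only [Function.comp_apply, Complex.ofRealCLM_apply, add_apply, smul_apply,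
      ContinuousLinearMap.comp_apply, smul_eq_mul]
    generalize hee : Ei ν θ i w = e at *
    generalize haa : c * ϑ ^ (k - i) = a at *
    generalize hgg : gau (dl θ i w) w x = g at *
    have hpm := psi_mem (e / a)
    have hrp : 0 ≤ e ^ (1 / p) := Real.rpow_nonneg hE0 _
    by_cases hae : a < e
    · rw [if_pos hae]
      have b1 : ‖((psi (e / a) : ℝ) : ℂ) *
          (fderiv ℝ (fun w : E => uk u θ (i + 1) w - uk u θ i w) w) x‖
          ≤ C * e ^ (1 / p) * g := by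
        rw [norm_mul, Complex.norm_real, Real.norm_of_nonneg hpm.1]
        calc _ ≤ 1 * (C * e ^ (1 / p) * g) := mul_le_mul hpm.2 hd2 (norm_nonneg _) (by norm_num)
          _ = _ := by ring
      have b2 : ‖(uk u θ (i + 1) w - uk u θ i w) *
          ((deriv psi (e / a) * (a⁻¹ * (fderiv ℝ (Ei ν θ i) w) x) : ℝ) : ℂ)‖
          ≤ 24 * K * C * e ^ (1 / p) * g := by
        rw [norm_mul, Complex.norm_real, Real.norm_eq_abs, abs_mul, abs_mul,
          abs_of_pos (inv_pos.2 ha)]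
        by_cases h2 : 2 ≤ e / a
        · rw [age_psi_deriv_one h2]
          simp only [abs_zero, zero_mul, mul_zero]
          positivity
        push Not at h2
        rw [div_lt_iff₀ ha] at h2
        calc _ ≤ (C * e ^ (1 / p)) * (K * (a⁻¹ * (12 * e * g))) := by
              gcongr
              exact hpsi _
          _ ≤ (C * e ^ (1 / p)) * (K * (a⁻¹ * (12 * (2 * a) * g))) := by
              gcongr
          _ = _ := by
              field_simp
              ring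
      refine (norm_add_le _ _).trans ?_
      calc _ ≤ C * e ^ (1 / p) * g + 24 * K * C * e ^ (1 / p) * g := add_le_add b1 b2
        _ = _ := by ring
    · rw [if_neg hae]
      push Not at hae
      have h5 : e / a ≤ 1 := by rw [div_le_one₀ ha]; exact hae
      rw [psi_zero h5, age_psi_deriv_zero h5]
      simp
  choose! L hL1 hL2 using hterm
  have hsum : HasFDerivAt (vq ν u θ ϑ c k) (∑ i ∈ Finset.range k, L i) w := by
    have h6 := (HasFDerivAt.fun_sum (u := Finset.range k) hL1).const_add (u 0)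
    exact h6
  rw [hsum.fderiv, ContinuousLinearMap.sum_apply]
  refine (norm_sum_le _ _).trans ?_
  rw [Finset.mul_sum]
  exact Finset.sum_le_sum hL2

end Pool.Agent.MPca0fc2.QT
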