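import Mathlib
import Pool.Agent.Lib.MP_ca0fc2_an.Mg.G020
import Pool.Agent.Lib.MP_ca0fc2_an.QTVq

set_option autoImplicit false

open Metric Set MeasureTheory Filter Topology
open scoped InnerProductSpace ENNReal

namespace Pool.Agent.MPca0fc2.QT

open Pool.Agent.MPca0fc2.PT

variable {E : Type*} [NormedAddCommGroup E] [InnerProductSpace ℂ E]
variable [FiniteDimensional ℂ E] [MeasurableSpace E] [BorelSpace E]

theorem QTBase_RC_anti {θ : ℝ} (hθ0 : 0 < θ) (hθ1 : θ < 1) {i j : ℕ} (hij : i ≤ j) :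
    RC θ j ≤ RC θ i := by
  unfold RC
  have h4 : θ ^ (j + 1) ≤ θ ^ (i + 1) := pow_le_pow_of_le_one hθ0.le hθ1.le (by omega)
  linarith

theorem bq_c2 {θ ϑ c ρ : ℝ} (hθ0 : 0 < θ) (hθ1 : θ < 1) (h0 : 0 < ϑ) (hc : 0 < c) (hρ : 0 < ρ)
    {ν : Measure E} {u : E → ℂ} {M A p C₀ : ℝ} (hu : HU ν u M A p C₀) (k : ℕ) :
    ContDiffOn ℝ 2 (bq ν u θ ϑ c ρ k) (ball 0 (RC θ (k - 1))) := by
  induction k with
  | zero => exact contDiffOn_const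
  | succ k ih =>
    have h2 : ContDiffOn ℝ 2 (bq ν u θ ϑ c ρ k) (ball 0 (RC θ (k + 1 - 1))) :=
      ih.mono (ball_subset_ball (QTBase_RC_anti hθ0 hθ1 (by omega)))
    have h3 := vq_c2 hθ0 hθ1 h0 hc hu (k + 1)
    have h4 : bq ν u θ ϑ c ρ (k + 1) = fun w => bq ν u θ ϑ c ρ k w +
      tau3 ρ (vq ν u θ ϑ c (k + 1) w - bq ν u θ ϑ c ρ k w) := rfl
    rw [h4]
    exact h2.add ((tau3_c2 hρ).comp_contDiffOn (h3.sub h2))

theorem bq_close {θ ϑ c ρ : ℝ} (hρ : 0 < ρ) (ν : Measure E) (u : E → ℂ) (k : ℕ) (w : E) :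
    ‖vq ν u θ ϑ c k w - bq ν u θ ϑ c ρ k w‖ ≤ 3 * ρ := by
  cases k with
  | zero =>
    have h : vq ν u θ ϑ c 0 w - bq ν u θ ϑ c ρ 0 w = 0 := by
      simp [vq, bq]
    rw [h, norm_zero]
    positivity
  | succ k =>
    have h : vq ν u θ ϑ c (k + 1) w - bq ν u θ ϑ c ρ (k + 1) w =
        (vq ν u θ ϑ c (k + 1) w - bq ν u θ ϑ c ρ k w) -
          tau3 ρ (vq ν u θ ϑ c (k + 1) w - bq ν u θ ϑ c ρ k w) := by
      have h4 : bq ν u θ ϑ c ρ (k + 1) w = bq ν u θ ϑ c ρ k w +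
        tau3 ρ (vq ν u θ ϑ c (k + 1) w - bq ν u θ ϑ c ρ k w) := rfl
      rw [h4]
      ring
    rw [h]
    exact tau3_rest hρ _

end Pool.Agent.MPca0fc2.QT
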