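import Mathlib
import Pool.Agent.Lib.MP_ca0fc2_an.Mg.G045
import Pool.Agent.Lib.MP_ca0fc2_an.Holo

set_option autoImplicit false

open Metric Set MeasureTheory Filter Topology
open scoped InnerProductSpace ENNReal

namespace Pool.Agent.MPca0fc2.PT

variable {E : Type*} [NormedAddCommGroup E] [InnerProductSpace ℂ E]

variable [FiniteDimensional ℂ E] [MeasurableSpace E] [BorelSpace E]

/-- holomorphy of the weighted Bergman projection of the unit ball -/
theorem k5_PQ_diff (μ : Measure E) [μ.IsAddHaarMeasure] (m : ℕ) {F : E → ℂ} {B : ℝ}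
    (hF : AEStronglyMeasurable F (μ.restrict (ball 0 1))) (hB : ∀ w ∈ ball (0 : E) 1, ‖F w‖ ≤ B) :
    DifferentiableOn ℂ (PQ μ m F) (ball 0 1) := by
  have hprop : ProperSpace E := FiniteDimensional.proper ℂ E
  intro z₀ hz₀
  apply DifferentiableAt.differentiableWithinAt
  rw [mem_ball_zero_iff] at hz₀
  have hB0 : 0 ≤ B := (norm_nonneg _).trans (hB 0 (mem_ball_self one_pos))
  set r : ℝ := (1 - ‖z₀‖) / 2 with hr
  have hr0 : 0 < r := by rw [hr]; linarith
  have hlow : ∀ z ∈ ball z₀ r, ∀ w ∈ ball (0 : E) 1, r ≤ ‖1 - ⟪w, z⟫_ℂ‖ := by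
    intro z hz w hw
    rw [mem_ball_zero_iff] at hw
    rw [mem_ball, dist_eq_norm] at hz
    have h1 : ‖z‖ ≤ 1 - r := by
      have := norm_le_insert' z z₀
      linarith
    have h2 : ‖⟪w, z⟫_ℂ‖ ≤ ‖z‖ := by
      refine (norm_inner_le_norm w z).trans ?_
      nlinarith [norm_nonneg w, norm_nonneg z]
    calc r ≤ ‖(1 : ℂ)‖ - ‖⟪w, z⟫_ℂ‖ := by rw [norm_one]; linarith
      _ ≤ _ := norm_sub_norm_le _ _
  unfold PQ
  apply DifferentiableAt.const_mul
  have hfin : IsFiniteMeasure (μ.restrict (ball (0 : E) 1)) :=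
    ⟨by rw [Measure.restrict_apply_univ]; exact measure_ball_lt_top⟩
  refine Pool.Agent.Lib.MP_ca0fc2_an.differentiableAt_integral
    (G := fun z w => ((WW w : ℝ) : ℂ) * F w / (1 - ⟪w, z⟫_ℂ) ^ (m + 6)) hr0
    (g := fun _ => 1 * B / r ^ (m + 6)) ?_ ?_ (integrable_const _) ?_
  · refine (ae_restrict_iff' measurableSet_ball).mpr (Eventually.of_forall fun w hw => ?_)
    intro z hz
    apply DifferentiableAt.differentiableWithinAt
    have h1 : DifferentiableAt ℂ (fun z : E => (1 - ⟪w, z⟫_ℂ) ^ (m + 6)) z := by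
      apply DifferentiableAt.pow
      apply (differentiableAt_const _).sub
      exact (innerSL ℂ w).differentiableAt
    have hne : (1 - ⟪w, z⟫_ℂ) ^ (m + 6) ≠ 0 := by
      apply pow_ne_zero
      rw [← norm_pos_iff]
      linarith [hlow z hz w hw]
    have h2 := (h1.inv hne).const_mul (((WW w : ℝ) : ℂ) * F w)
    refine h2.congr_of_eventuallyEq (Eventually.of_forall fun b => ?_)
    simp only [div_eq_mul_inv, Pi.inv_apply]
  · intro z hz
    have hc : ContinuousOn (fun w : E => ((WW w : ℝ) : ℂ) /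
        (1 - ⟪w, z⟫_ℂ) ^ (m + 6)) (ball 0 1) := by
      apply ContinuousOn.div
      · apply Continuous.continuousOn
        unfold WW
        fun_prop
      · apply Continuous.continuousOn; fun_prop
      · intro w hw
        apply pow_ne_zero
        rw [← norm_pos_iff]
        linarith [hlow z hz w hw]
    have := hF.mul (hc.aestronglyMeasurable measurableSet_ball)
    refine this.congr (Eventually.of_forall fun w => ?_)
    simp only [Pi.mul_apply]
    ring
  · refine (ae_restrict_iff' measurableSet_ball).mpr (Eventually.of_forall fun w hw => ?_)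
    intro z hz
    have h1 := hlow z hz w hw
    rw [norm_div, norm_mul, Complex.norm_real, norm_pow (1 - ⟪w, z⟫_ℂ)]
    have h2 : ‖WW w‖ ≤ 1 := by
      rw [mem_ball_zero_iff] at hw
      unfold WW
      rw [Real.norm_of_nonneg (by positivity)]
      have : 0 ≤ 1 - ‖w‖ ^ 2 := by nlinarith [norm_nonneg w]
      apply pow_le_one₀ this
      nlinarith [sq_nonneg ‖w‖]
    have h3 := hB w hw
    gcongr

theorem PR_diff (μ : Measure E) [μ.IsAddHaarMeasure] {m : ℕ} {R : ℝ} (hR : 0 < R) {N : E → ℂ}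
    (hN : ContinuousOn N (closedBall 0 R)) :
    DifferentiableOn ℂ (PR μ m R N) (ball 0 R) := by
  have hprop : ProperSpace E := FiniteDimensional.proper ℂ E
  obtain ⟨B, hB⟩ := (isCompact_closedBall (0 : E) R).exists_bound_of_continuousOn hN
  have hRn : ‖(R : ℂ)‖ = R := by rw [Complex.norm_real, Real.norm_of_nonneg hR.le]
  have hmaps : MapsTo (fun w : E => (R : ℂ) • w) (ball 0 1) (closedBall 0 R) := by
    intro w hw
    rw [mem_ball_zero_iff] at hw
    rw [mem_closedBall_zero_iff, norm_smul, hRn]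
    nlinarith
  have hF : AEStronglyMeasurable (fun w : E => N ((R : ℂ) • w)) (μ.restrict (ball 0 1)) := by
    apply ContinuousOn.aestronglyMeasurable _ measurableSet_ball
    exact hN.comp (continuous_const_smul (R : ℂ)).continuousOn hmaps
  have hQ := k5_PQ_diff μ m hF (B := B) (fun w hw => hB _ (hmaps hw))
  have hs : DifferentiableOn ℂ (fun z : E => ((R⁻¹ : ℝ) : ℂ) • z) (ball 0 R) :=
    (differentiable_id.const_smul _).differentiableOn
  refine hQ.comp hs ?_
  intro z hz
  rw [mem_ball_zero_iff] at hz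
  rw [mem_ball_zero_iff, norm_smul, Complex.norm_real, Real.norm_of_nonneg (by positivity)]
  rw [inv_mul_lt_iff₀ hR]
  linarith

end Pool.Agent.MPca0fc2.PT
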