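import Mathlib
import Pool.Agent.Lib.MP_ca0fc2_an.Mg.G012
import Pool.Agent.Lib.MP_ca0fc2_an.Mg.G045
import Pool.Agent.Lib.MP_ca0fc2_an.Mg.G048

set_option autoImplicit false

open Metric Set MeasureTheory Filter Topology
open scoped InnerProductSpace ENNReal

namespace Pool.Agent.MPca0fc2.PT

variable {E : Type*} [NormedAddCommGroup E] [InnerProductSpace ℂ E]

/-! ### real inequalities -/

theorem stg_sq_sub {a R : ℝ} (ha : 0 ≤ a) (h : a < R) : 0 < R ^ 2 - a ^ 2 := by nlinarith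

theorem stg_one_sub_sq {t : ℝ} (h0 : 0 ≤ t) : 1 - (1 - t) ^ 2 ≤ 2 * t := by nlinarith

theorem stg_mul_le_one {r a : ℝ} (hr1 : r ≤ 1) (ha : 0 ≤ a) (ha1 : a ≤ 1) :
    r * a ≤ 1 := by nlinarith

theorem stg_mul_lt_one {r a : ℝ} (hr1 : r ≤ 1) (ha : 0 ≤ a) (ha1 : a < 1) :
    r * a < 1 := by nlinarith

theorem stg_prod_lt_one {a b : ℝ} (ha : 0 ≤ a) (ha1 : a < 1) (hb1 : b ≤ 1) :
    a * b < 1 := by nlinarith

theorem stg_one_le_sq {R : ℝ} (h : 1 ≤ R) : 1 ≤ R ^ 2 := by nlinarith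

theorem stg_sq_le {a : ℝ} (h0 : 0 ≤ a) (h : a ≤ 3 / 2) : a ^ 2 ≤ 9 / 4 := by nlinarith

theorem stg_sq_le' {a : ℝ} (h0 : 0 ≤ a) (h : a ≤ 5 / 4) : a ^ 2 ≤ 25 / 16 := by nlinarith

theorem stg_depth_le {t W X c : ℝ} (h0 : 0 ≤ t) (hW0 : 0 ≤ W) (hW : W ≤ c) (hX : 1 - W ≤ X) :
    1 - (1 - t) ^ 2 * W ≤ X + 2 * c * t := by
  have h1 : 0 ≤ t * (c - W) := mul_nonneg h0 (by linarith)
  have h2 : 0 ≤ t ^ 2 * W := by positivity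
  nlinarith

theorem stg_mul_theta {θ a : ℝ} (h1 : θ < 1) (ha : 0 ≤ a) : 2 * a * θ ≤ 2 * a := by
  nlinarith

theorem stg_pow_fact {θ a b c Q : ℝ} (ha : 0 < a) (h : θ * b < Q) (hc : c = a * b) :
    c * θ ≤ a * Q := by
  subst hc
  nlinarith

theorem stg_lin1 {a b u : ℝ} (hb : 0 ≤ b) (hab : b < 1) (hu : 0 < u) (ha : 1 + u / 4 ≤ a) :
    u / 2 ≤ a ^ 2 - b ^ 2 := by nlinarith

theorem stg_lin2 {R z T u Q : ℝ} (hR : 1 < R) (hz : z < 1) (hu : u / 4 ≤ R - 1)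
    (hT : T = u) (hQ : R * (R - z) ≤ Q) (hz0 : 0 ≤ z) : T ≤ 4 * Q := by
  subst hT
  nlinarith

theorem stg_lin3 {z b u R : ℝ} (hz0 : 0 ≤ z) (hz : z ≤ b) (hb : b = 1 + u / 4)
    (hR : R = 1 + u / 2) (hu : 0 < u) : u / 2 ≤ R ^ 2 - z ^ 2 := by
  subst hb hR
  have h5 : z ^ 2 ≤ (1 + u / 4) ^ 2 := pow_le_pow_left₀ hz0 hz 2
  nlinarith

/-! ### radii -/

theorem stg_pow_pos {θ : ℝ} (h0 : 0 < θ) (k : ℕ) : 0 < θ ^ k := pow_pos h0 k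

theorem stg_radii {θ : ℝ} (h0 : 0 < θ) (h1 : θ < 1) (k : ℕ) :
    1 + θ * θ ^ k / 4 = RB θ k ∧ 1 + θ * θ ^ k / 2 = RA θ k ∧ RB θ k < RA θ k ∧
      RA θ k < RC θ k ∧ 1 < RB θ k ∧ RA θ k ≤ 3 / 2 ∧ RA θ k ^ 2 ≤ 1 + 5 / 4 * θ ^ k := by
  have hT0 : 0 < θ ^ k := pow_pos h0 k
  have hT1 : θ ^ k ≤ 1 := pow_le_one₀ h0.le h1.le
  have hs0 : 0 < θ * θ ^ k := by positivity
  have hs1 : θ * θ ^ k ≤ θ ^ k := by nlinarith
  have e : θ ^ (k + 1) = θ * θ ^ k := by rw [pow_succ]; ring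
  unfold RA RB RC
  rw [e]
  refine ⟨rfl, rfl, by linarith, by linarith, by linarith, by linarith, ?_⟩
  nlinarith

/-- the basic comparison of depths -/
theorem stg_depth {θ : ℝ} (h0 : 0 < θ) (h1 : θ < 1) {k : ℕ} {R : ℝ}
    (hB : RB θ k ≤ R) (hA : R ≤ RA θ k) {w : E} (hw : ‖w‖ < R) :
    R ^ 2 - ‖w‖ ^ 2 ≤ 6 * dl θ k w := by
  obtain ⟨_, _, _, hAC, hB1, _, hA2⟩ := stg_radii h0 h1 k
  have hT0 : 0 < θ ^ k := pow_pos h0 k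
  have hT1 : θ ^ k ≤ 1 := pow_le_one₀ h0.le h1.le
  have h2 := dl_ge h0 h1 (i := k) (k := k) (by omega) (w := w) (by linarith)
  have h3 : R ^ 2 ≤ 1 + 5 / 4 * θ ^ k := by
    have : R ^ 2 ≤ RA θ k ^ 2 := pow_le_pow_left₀ (by linarith) hA 2
    linarith
  have h4 : 1 - ‖w‖ ^ 2 ≤ dl θ k w := by
    unfold dl rt
    have h5 : (1 - θ ^ k) ^ 2 ≤ 1 := by nlinarith
    nlinarith [sq_nonneg ‖w‖]
  linarith

theorem gau_nonneg {d : ℝ} (hd : 0 ≤ d) (w x : E) : 0 ≤ gau d w x := by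
  unfold gau
  positivity

theorem stg_gau {θ : ℝ} (h0 : 0 < θ) (h1 : θ < 1) {k : ℕ} {R : ℝ}
    (hB : RB θ k ≤ R) (hA : R ≤ RA θ k) {w : E} (hw : ‖w‖ < R) (x : E) :
    gau (dl θ k w) w x ≤ 6 * gau (R ^ 2 - ‖w‖ ^ 2) w x := by
  obtain ⟨_, _, _, hAC, hB1, _, _⟩ := stg_radii h0 h1 k
  have hT0 : 0 < θ ^ k := pow_pos h0 k
  have h2 := dl_ge h0 h1 (i := k) (k := k) (by omega) (w := w) (by linarith)
  have hdl : 0 < dl θ k w := by linarith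
  have hd : 0 < R ^ 2 - ‖w‖ ^ 2 := stg_sq_sub (norm_nonneg w) hw
  have h3 := stg_depth h0 h1 hB hA hw
  have h4 := gau_mul hdl (show (1 : ℝ) ≤ 6 by norm_num) w x
  have h5 := gau_anti hd h3 w x
  have h6 : Real.sqrt ((R ^ 2 - ‖w‖ ^ 2) / (6 * dl θ k w)) ≤ 1 := by
    rw [Real.sqrt_le_iff, one_pow, div_le_one (by linarith)]
    exact ⟨zero_le_one, h3⟩
  have h7 := gau_nonneg hd.le w x
  have h8 : gau (6 * dl θ k w) w x ≤ gau (R ^ 2 - ‖w‖ ^ 2) w x := by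
    calc _ ≤ _ := h5
      _ ≤ 1 * gau (R ^ 2 - ‖w‖ ^ 2) w x := mul_le_mul_of_nonneg_right h6 h7
      _ = _ := one_mul _
  linarith

/-! ### the distance `Q` -/

theorem stg_Q {R : ℝ} (hR : 1 < R) {w z : E} (hw : ‖w‖ < R) (hz : ‖z‖ ≤ R) :
    R * (R - ‖w‖) ≤ ‖((R ^ 2 : ℝ) : ℂ) - ⟪w, z⟫_ℂ‖ ∧
    R * (R - ‖z‖) ≤ ‖((R ^ 2 : ℝ) : ℂ) - ⟪w, z⟫_ℂ‖ ∧
    ‖((R ^ 2 : ℝ) : ℂ) - ⟪w, z⟫_ℂ‖ ≤ 2 * R ^ 2 := by
  have h1 : ‖⟪w, z⟫_ℂ‖ ≤ ‖w‖ * ‖z‖ := norm_inner_le_norm w z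
  have h2 : ‖((R ^ 2 : ℝ) : ℂ)‖ = R ^ 2 := by
    rw [Complex.norm_real, Real.norm_of_nonneg (by positivity)]
  have h3 := norm_sub_norm_le ((R ^ 2 : ℝ) : ℂ) (⟪w, z⟫_ℂ)
  have h4 := norm_sub_le ((R ^ 2 : ℝ) : ℂ) (⟪w, z⟫_ℂ)
  rw [h2] at h3 h4
  have hw0 := norm_nonneg w
  have hz0 := norm_nonneg z
  refine ⟨?_, ?_, ?_⟩
  · nlinarith
  · nlinarith
  · nlinarith

theorem stg_Q2 {R : ℝ} (hR : 1 < R) {w z : E} (hw : ‖w‖ < R) (hz : ‖z‖ ≤ R) :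
    0 < ‖((R ^ 2 : ℝ) : ℂ) - ⟪w, z⟫_ℂ‖ ∧
    R ^ 2 - ‖w‖ ^ 2 ≤ 2 * ‖((R ^ 2 : ℝ) : ℂ) - ⟪w, z⟫_ℂ‖ ∧
    R ^ 2 - ‖z‖ ^ 2 ≤ 2 * ‖((R ^ 2 : ℝ) : ℂ) - ⟪w, z⟫_ℂ‖ := by
  obtain ⟨h1, h2, _⟩ := stg_Q hR hw hz
  have hw0 := norm_nonneg w
  have hz0 := norm_nonneg z
  refine ⟨?_, ?_, ?_⟩
  · nlinarith
  · nlinarith
  · nlinarith

theorem HH_same (r : ℝ) (w z : E) :
    HH ((r : ℂ) • w) ((r : ℂ) • z) =
      (1 - r ^ 2 * ‖w‖ ^ 2) * (1 - r ^ 2 * ‖z‖ ^ 2) / ‖1 - ((r ^ 2 : ℝ) : ℂ) * ⟪w, z⟫_ℂ‖ ^ 2 := by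
  unfold HH
  rw [norm_smul, norm_smul, Complex.norm_real, mul_pow, mul_pow, Real.norm_eq_abs, sq_abs,
    inner_smul_left, inner_smul_right]
  congr 3
  rw [Complex.conj_ofReal]
  push_cast
  ring

theorem stg_near {R r : ℝ} {w z : E} (hr0 : 0 ≤ r) (hr1 : r ≤ 1) (hR : 1 ≤ R) (hw : ‖w‖ ≤ R)
    (hz : ‖z‖ ≤ 1) :
    ‖1 - ((r ^ 2 : ℝ) : ℂ) * ⟪w, z⟫_ℂ‖ ≤ ‖((R ^ 2 : ℝ) : ℂ) - ⟪w, z⟫_ℂ‖ + (R ^ 2 - 1) +
      (1 - r ^ 2) * R := by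
  have h1 : ‖⟪w, z⟫_ℂ‖ ≤ R := by
    calc ‖⟪w, z⟫_ℂ‖ ≤ ‖w‖ * ‖z‖ := norm_inner_le_norm w z
      _ ≤ R * 1 := mul_le_mul hw hz (norm_nonneg z) (by linarith)
      _ = R := mul_one R
  have e : 1 - ((r ^ 2 : ℝ) : ℂ) * ⟪w, z⟫_ℂ = (((R ^ 2 : ℝ) : ℂ) - ⟪w, z⟫_ℂ) +
      ((1 - R ^ 2 : ℝ) : ℂ) + ((1 - r ^ 2 : ℝ) : ℂ) * ⟪w, z⟫_ℂ := by
    push_cast
    ring
  rw [e]
  have h2 : ‖((1 - R ^ 2 : ℝ) : ℂ)‖ = R ^ 2 - 1 := by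
    rw [Complex.norm_real, Real.norm_eq_abs, abs_of_nonpos (by nlinarith)]
    ring
  have h3 : ‖((1 - r ^ 2 : ℝ) : ℂ) * ⟪w, z⟫_ℂ‖ ≤ (1 - r ^ 2) * R := by
    rw [norm_mul, Complex.norm_real, Real.norm_of_nonneg (by nlinarith)]
    exact mul_le_mul_of_nonneg_left h1 (by nlinarith)
  calc _ ≤ ‖(((R ^ 2 : ℝ) : ℂ) - ⟪w, z⟫_ℂ) + ((1 - R ^ 2 : ℝ) : ℂ)‖ +
        ‖((1 - r ^ 2 : ℝ) : ℂ) * ⟪w, z⟫_ℂ‖ := norm_add_le _ _
    _ ≤ (‖((R ^ 2 : ℝ) : ℂ) - ⟪w, z⟫_ℂ‖ + ‖((1 - R ^ 2 : ℝ) : ℂ)‖) + (1 - r ^ 2) * R :=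
        add_le_add (norm_add_le _ _) h3
    _ = _ := by rw [h2]

variable [FiniteDimensional ℂ E] [MeasurableSpace E] [BorelSpace E]

/-- comparison of the potentials at `w` and `z` -/
theorem stg_compare {θ : ℝ} (h0 : 0 < θ) (h1 : θ < 1) {ν : Measure E} {A : ℝ} (hν : Carl ν A)
    {k i i' : ℕ} (hii : i' ≤ i) (hik : i ≤ k) {R : ℝ}
    (hB : RB θ k ≤ R) (hA : R ≤ RA θ k) {w z : E} (hw : ‖w‖ < R) (hz : ‖z‖ < 1)
    (hQ : ‖((R ^ 2 : ℝ) : ℂ) - ⟪w, z⟫_ℂ‖ ≤ 5 * θ ^ i')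
    (hor : i' = i ∨ θ * θ ^ i' < ‖((R ^ 2 : ℝ) : ℂ) - ⟪w, z⟫_ℂ‖) :
    Ei ν θ i w ≤ 16 * (6400 * (42 / θ)) ^ 2 *
      (‖((R ^ 2 : ℝ) : ℂ) - ⟪w, z⟫_ℂ‖ / (R ^ 2 - ‖w‖ ^ 2)) ^ 2 * Ei ν θ i' z := by
  obtain ⟨_, _, _, hAC, hB1, hA32, hA2⟩ := stg_radii h0 h1 k
  have hR1 : 1 < R := lt_of_lt_of_le hB1 hB
  obtain ⟨hQ0, hQw, hQz⟩ := stg_Q2 (w := w) (z := z) hR1 hw (by linarith)
  set Q : ℝ := ‖((R ^ 2 : ℝ) : ℂ) - ⟪w, z⟫_ℂ‖ with hQdef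
  have ht0 : 0 < θ ^ i' := pow_pos h0 i'
  have ht1 : θ ^ i' ≤ 1 := pow_le_one₀ h0.le h1.le
  have htk : θ ^ k ≤ θ ^ i' := pow_le_pow_of_le_one h0.le h1.le (by omega)
  have hR2 : R ^ 2 ≤ 1 + 5 / 4 * θ ^ i' := by
    have : R ^ 2 ≤ RA θ k ^ 2 := pow_le_pow_left₀ (by linarith) hA 2
    linarith
  have hwC : ‖w‖ < RC θ k := by linarith
  have hzC : ‖z‖ < RC θ k := by linarith
  have hD := dl_ge h0 h1 (i := i') (k := k) (by omega) hwC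
  have hDz := dl_ge h0 h1 (i := i') (k := k) (by omega) hzC
  have hd6 : R ^ 2 - ‖w‖ ^ 2 ≤ 6 * dl θ i w :=
    (stg_depth h0 h1 hB hA hw).trans
      (mul_le_mul_of_nonneg_left (dl_anti h0 h1 hik w) (by norm_num))
  have hρ : 0 < R ^ 2 - ‖w‖ ^ 2 := stg_sq_sub (norm_nonneg w) hw
  have hd : 0 < dl θ i w := by linarith
  have hDpos : 0 < dl θ i' w := by linarith
  have hDzpos : 0 < dl θ i' z := by linarith
  have hrt0 : 0 ≤ rt θ i' := by unfold rt; linarith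
  have hrt1 : rt θ i' ≤ 1 := by unfold rt; linarith
  -- the distance at level `i'`
  have hn := stg_near (R := R) (r := rt θ i') (w := w) (z := z) hrt0 hrt1 hR1.le hw.le hz.le
  rw [← hQdef] at hn
  have hn2 : ‖1 - ((rt θ i' ^ 2 : ℝ) : ℂ) * ⟪w, z⟫_ℂ‖ ≤ 10 * θ ^ i' := by
    have h3 : 1 - rt θ i' ^ 2 ≤ 2 * θ ^ i' := stg_one_sub_sq ht0.le
    have h4 : (1 - rt θ i' ^ 2) * R ≤ (2 * θ ^ i') * (3 / 2) := by
      apply mul_le_mul h3 (by linarith) (by linarith) (by positivity)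
    linarith
  have hlower : (1 : ℝ) / 1600 ≤ HH ((rt θ i' : ℂ) • w) ((rt θ i' : ℂ) • z) := by
    rw [HH_same]
    have h3 : 0 < ‖1 - ((rt θ i' ^ 2 : ℝ) : ℂ) * ⟪w, z⟫_ℂ‖ := by
      have h4 : ‖((rt θ i' ^ 2 : ℝ) : ℂ) * ⟪w, z⟫_ℂ‖ < 1 := by
        rw [norm_mul, Complex.norm_real, Real.norm_of_nonneg (by positivity)]
        have h5 : ‖⟪w, z⟫_ℂ‖ ≤ ‖w‖ * ‖z‖ := norm_inner_le_norm w z
        have h6 := rt_mul_lt h0 h1 (i := i') (k := k) (by omega) hwC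
        have h7 : rt θ i' * ‖z‖ ≤ 1 := stg_mul_le_one hrt1 (norm_nonneg z) hz.le
        have h8 : rt θ i' ^ 2 * ‖⟪w, z⟫_ℂ‖ ≤ (rt θ i' * ‖w‖) * (rt θ i' * ‖z‖) := by
          calc rt θ i' ^ 2 * ‖⟪w, z⟫_ℂ‖ ≤ rt θ i' ^ 2 * (‖w‖ * ‖z‖) :=
                mul_le_mul_of_nonneg_left h5 (by positivity)
            _ = _ := by ring
        have h9 : 0 ≤ rt θ i' * ‖w‖ := by positivity
        exact h8.trans_lt (stg_prod_lt_one h9 h6 h7)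
      rw [norm_pos_iff]
      intro h5
      have h6 : ((rt θ i' ^ 2 : ℝ) : ℂ) * ⟪w, z⟫_ℂ = 1 := (sub_eq_zero.1 h5).symm
      rw [h6, norm_one] at h4
      exact lt_irrefl _ h4
    rw [div_le_div_iff₀ (by norm_num) (by positivity), one_mul]
    have h5 : ‖1 - ((rt θ i' ^ 2 : ℝ) : ℂ) * ⟪w, z⟫_ℂ‖ ^ 2 ≤ (10 * θ ^ i') ^ 2 :=
      pow_le_pow_left₀ h3.le hn2 2
    have h6 : (θ ^ i' / 4) * (θ ^ i' / 4) ≤
        (1 - rt θ i' ^ 2 * ‖w‖ ^ 2) * (1 - rt θ i' ^ 2 * ‖z‖ ^ 2) :=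
      mul_le_mul hD hDz (by positivity) (le_trans (by positivity) hD)
    calc ‖1 - ((rt θ i' ^ 2 : ℝ) : ℂ) * ⟪w, z⟫_ℂ‖ ^ 2 ≤ (10 * θ ^ i') ^ 2 := h5
      _ = (θ ^ i' / 4) * (θ ^ i' / 4) * 1600 := by ring
      _ ≤ _ := mul_le_mul_of_nonneg_right h6 (by norm_num)
  -- the chain
  have hwi := rt_mul_lt h0 h1 (i := i) (k := k) (by omega) hwC
  have hwi' := rt_mul_lt h0 h1 (i := i') (k := k) (by omega) hwC
  have hrti0 : 0 ≤ rt θ i := by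
    unfold rt
    have := pow_le_one₀ (n := i) h0.le h1.le
    linarith
  have n1 : ‖(rt θ i : ℂ) • w‖ < 1 := by
    rw [norm_smul, Complex.norm_real, Real.norm_of_nonneg hrti0]; exact hwi
  have n2 : ‖(rt θ i' : ℂ) • w‖ < 1 := by
    rw [norm_smul, Complex.norm_real, Real.norm_of_nonneg hrt0]; exact hwi'
  have n3 : ‖(rt θ i' : ℂ) • z‖ < 1 := by
    rw [norm_smul, Complex.norm_real, Real.norm_of_nonneg hrt0]
    exact stg_mul_lt_one hrt1 (norm_nonneg z) hz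
  have hrad := HH_radial h0 h1 hii hwi
  rw [HH_comm] at hrad
  have hmul := HH_mul n1 n2 n3
  have hchain : dl θ i w / dl θ i' w * (1 / 6400) ≤ HH ((rt θ i : ℂ) • w) ((rt θ i' : ℂ) • z) := by
    have h3 : dl θ i w / dl θ i' w * (1 / 1600) ≤
        HH ((rt θ i : ℂ) • w) ((rt θ i' : ℂ) • w) * HH ((rt θ i' : ℂ) • w) ((rt θ i' : ℂ) • z) :=
      mul_le_mul hrad hlower (by norm_num) (HH_pos n1 n2).le
    linarith
  have hEE := EE_compare hν n1 n3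
  -- the ratio of the depths
  have hratio : dl θ i' w / dl θ i w ≤ 42 / θ * (Q / (R ^ 2 - ‖w‖ ^ 2)) := by
    rw [div_le_iff₀ hd, mul_assoc]
    have h3 : dl θ i' w ≤ 7 / θ * Q ∨ i' = i := by
      rcases hor with h | h
      · exact Or.inr h
      · left
        have h4 : dl θ i' w ≤ 2 * Q + 9 / 2 * θ ^ i' := by
          have h5 : ‖w‖ ^ 2 ≤ 9 / 4 := stg_sq_le (norm_nonneg w) (by linarith)
          have h6 : 1 ≤ R ^ 2 := stg_one_le_sq hR1.le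
          have h7 := stg_depth_le ht0.le (sq_nonneg ‖w‖) h5 (X := 2 * Q) (by linarith)
          unfold dl rt
          linarith
        have h5 : θ ^ i' ≤ Q / θ := by
          rw [le_div_iff₀ h0]; linarith
        have h6 : 2 * Q ≤ 2 * Q / θ := by
          rw [le_div_iff₀ h0]
          exact stg_mul_theta h1 hQ0.le
        calc dl θ i' w ≤ 2 * Q / θ + 9 / 2 * (Q / θ) := by linarith
          _ ≤ 7 / θ * Q := by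
              have : 7 / θ * Q = 7 * (Q / θ) := by ring
              rw [this]
              have h8 : 0 ≤ Q / θ := by positivity
              have h9 : 2 * Q / θ = 2 * (Q / θ) := by ring
              rw [h9]
              linarith
    rcases h3 with h3 | h3
    · calc dl θ i' w ≤ 7 / θ * Q := h3
        _ = 42 / θ * (Q / (R ^ 2 - ‖w‖ ^ 2) * ((R ^ 2 - ‖w‖ ^ 2) / 6)) := by
            field_simp
            ring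
        _ ≤ 42 / θ * (Q / (R ^ 2 - ‖w‖ ^ 2) * dl θ i w) := by
            have h4 : (R ^ 2 - ‖w‖ ^ 2) / 6 ≤ dl θ i w := by linarith
            gcongr
    · rw [h3]
      have h4 : (1 : ℝ) ≤ 42 / θ * (Q / (R ^ 2 - ‖w‖ ^ 2)) := by
        have h5 : 1 / 2 ≤ Q / (R ^ 2 - ‖w‖ ^ 2) := by
          rw [le_div_iff₀ hρ]
          linarith
        have h6 : 2 ≤ 42 / θ := by
          rw [le_div_iff₀ h0]
          linarith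
        calc (1 : ℝ) = 2 * (1 / 2) := by norm_num
          _ ≤ 42 / θ * (Q / (R ^ 2 - ‖w‖ ^ 2)) :=
              mul_le_mul h6 h5 (by norm_num) (by positivity)
      calc dl θ i w = 1 * dl θ i w := (one_mul _).symm
        _ ≤ (42 / θ * (Q / (R ^ 2 - ‖w‖ ^ 2))) * dl θ i w :=
            mul_le_mul_of_nonneg_right h4 hd.le
        _ = _ := by ring
  have hE0 : 0 ≤ Ei ν θ i w := EE_nonneg ν _
  have hEz : 0 ≤ Ei ν θ i' z := EE_nonneg ν _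
  have hkey : Ei ν θ i w * (dl θ i w / dl θ i' w * (1 / 6400)) ^ 2 ≤ 16 * Ei ν θ i' z := by
    refine le_trans ?_ hEE
    apply mul_le_mul_of_nonneg_left _ hE0
    exact pow_le_pow_left₀ (by positivity) hchain 2
  have hinv : dl θ i w / dl θ i' w * (1 / 6400) * (6400 * (dl θ i' w / dl θ i w)) = 1 := by
    field_simp
  calc Ei ν θ i w = Ei ν θ i w * (dl θ i w / dl θ i' w * (1 / 6400)) ^ 2 *
        (6400 * (dl θ i' w / dl θ i w)) ^ 2 := by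
        rw [mul_assoc, ← mul_pow, hinv, one_pow, mul_one]
    _ ≤ 16 * Ei ν θ i' z * (6400 * (dl θ i' w / dl θ i w)) ^ 2 :=
        mul_le_mul_of_nonneg_right hkey (by positivity)
    _ ≤ 16 * Ei ν θ i' z * (6400 * (42 / θ * (Q / (R ^ 2 - ‖w‖ ^ 2)))) ^ 2 := by
        apply mul_le_mul_of_nonneg_left _ (by positivity)
        apply pow_le_pow_left₀ (by positivity)
        exact mul_le_mul_of_nonneg_left hratio (by norm_num)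
    _ = _ := by ring

/-- the factor `(t_k / dl_k)^(3/4)` -/
theorem stg_factor {θ : ℝ} (h0 : 0 < θ) (h1 : θ < 1) {k : ℕ} {R : ℝ}
    (hB : RB θ k ≤ R) (hA : R ≤ RA θ k) {w z : E} (hw : ‖w‖ < R) (hz : ‖z‖ < 1) :
    (θ ^ k / dl θ k w) ^ (3 / 4 : ℝ) ≤
      (θ ^ k / ‖((R ^ 2 : ℝ) : ℂ) - ⟪w, z⟫_ℂ‖) ^ (1 / 4 : ℝ) *
        (Real.sqrt (2 / θ) * Real.sqrt ((R ^ 2 - ‖z‖ ^ 2) / ‖((R ^ 2 : ℝ) : ℂ) - ⟪w, z⟫_ℂ‖)) *
        (6 * (‖((R ^ 2 : ℝ) : ℂ) - ⟪w, z⟫_ℂ‖ / (R ^ 2 - ‖w‖ ^ 2))) := by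
  obtain ⟨eB, _, _, hAC, hB1, hA32, hA2⟩ := stg_radii h0 h1 k
  have hR1 : 1 < R := lt_of_lt_of_le hB1 hB
  obtain ⟨hQ0, hQw, hQz⟩ := stg_Q2 (w := w) (z := z) hR1 hw (by linarith)
  set Q : ℝ := ‖((R ^ 2 : ℝ) : ℂ) - ⟪w, z⟫_ℂ‖ with hQdef
  have hT0 : 0 < θ ^ k := pow_pos h0 k
  have hρ : 0 < R ^ 2 - ‖w‖ ^ 2 := stg_sq_sub (norm_nonneg w) hw
  have hd6 := stg_depth h0 h1 hB hA hw
  have hd : 0 < dl θ k w := by linarith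
  set q : ℝ := Q / (R ^ 2 - ‖w‖ ^ 2) with hq
  have hq2 : 1 / 2 ≤ q := by
    rw [hq, le_div_iff₀ hρ]; linarith
  set a : ℝ := θ ^ k / Q with ha
  have ha0 : 0 < a := by positivity
  have h2 : θ ^ k / dl θ k w ≤ a * (6 * q) := by
    rw [div_le_iff₀ hd]
    calc θ ^ k = a * (6 * q) * ((R ^ 2 - ‖w‖ ^ 2) / 6) := by
          rw [ha, hq]
          field_simp
      _ ≤ a * (6 * q) * dl θ k w := by
          apply mul_le_mul_of_nonneg_left _ (by positivity)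
          linarith
  have h3 : (θ ^ k / dl θ k w) ^ (3 / 4 : ℝ) ≤ a ^ (3 / 4 : ℝ) * (6 * q) ^ (3 / 4 : ℝ) := by
    rw [← Real.mul_rpow ha0.le (by positivity)]
    exact Real.rpow_le_rpow (by positivity) h2 (by norm_num)
  have h4 : (6 * q) ^ (3 / 4 : ℝ) ≤ 6 * q := by
    calc (6 * q) ^ (3 / 4 : ℝ) ≤ (6 * q) ^ (1 : ℝ) :=
          Real.rpow_le_rpow_of_exponent_le (by linarith) (by norm_num)
      _ = 6 * q := Real.rpow_one _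
  have h5 : a ^ (3 / 4 : ℝ) = a ^ (1 / 4 : ℝ) * Real.sqrt a := by
    rw [Real.sqrt_eq_rpow, ← Real.rpow_add ha0]
    norm_num
  have h6 : Real.sqrt a ≤ Real.sqrt (2 / θ) * Real.sqrt ((R ^ 2 - ‖z‖ ^ 2) / Q) := by
    rw [← Real.sqrt_mul (by positivity)]
    apply Real.sqrt_le_sqrt
    rw [ha, ← mul_div_assoc]
    apply div_le_div_of_nonneg_right _ hQ0.le
    have h7 : θ * θ ^ k / 2 ≤ R ^ 2 - ‖z‖ ^ 2 := by
      have h8 : 1 + θ * θ ^ k / 4 ≤ R := by rw [eB]; exact hB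
      have h9 : (0 : ℝ) < θ * θ ^ k := by positivity
      exact stg_lin1 (norm_nonneg z) hz h9 h8
    rw [div_mul_eq_mul_div, le_div_iff₀ h0]
    linarith
  have ha14 : 0 ≤ a ^ (1 / 4 : ℝ) := Real.rpow_nonneg ha0.le _
  have ha34 : 0 ≤ a ^ (3 / 4 : ℝ) := Real.rpow_nonneg ha0.le _
  calc (θ ^ k / dl θ k w) ^ (3 / 4 : ℝ) ≤ a ^ (3 / 4 : ℝ) * (6 * q) ^ (3 / 4 : ℝ) := h3
    _ ≤ a ^ (3 / 4 : ℝ) * (6 * q) := mul_le_mul_of_nonneg_left h4 ha34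
    _ = a ^ (1 / 4 : ℝ) * Real.sqrt a * (6 * q) := by rw [h5]
    _ ≤ _ := by gcongr

/-- the index of the distance `Q` -/
theorem stg_index {θ : ℝ} (h0 : 0 < θ) (h1 : θ < 1) (k : ℕ) {Q : ℝ} (hQ : Q ≤ 5) :
    ∃ j ≤ k, (∀ i ≤ j, Q ≤ 5 * θ ^ i) ∧ (j < k → θ * θ ^ j < Q) := by
  classical
  refine ⟨Nat.findGreatest (fun j => Q ≤ θ ^ j) k, Nat.findGreatest_le k, ?_, ?_⟩
  · intro i hi
    have hj : Q ≤ 5 * θ ^ (Nat.findGreatest (fun j => Q ≤ θ ^ j) k) := by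
      by_cases h : Q ≤ θ ^ 0
      · have h2 := Nat.findGreatest_spec (P := fun j => Q ≤ θ ^ j) (Nat.zero_le k) h
        have h3 := pow_pos h0 (Nat.findGreatest (fun j => Q ≤ θ ^ j) k)
        linarith
      · have h2 : Nat.findGreatest (fun j => Q ≤ θ ^ j) k = 0 := by
          rw [Nat.findGreatest_eq_zero_iff]
          intro j _ _ h3
          apply h
          have h4 : θ ^ j ≤ 1 := pow_le_one₀ h0.le h1.le
          rw [pow_zero]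
          linarith
        rw [h2, pow_zero]
        linarith
    have h2 : θ ^ (Nat.findGreatest (fun j => Q ≤ θ ^ j) k) ≤ θ ^ i :=
      pow_le_pow_of_le_one h0.le h1.le hi
    linarith
  · intro hjk
    have h2 := Nat.findGreatest_is_greatest (P := fun j => Q ≤ θ ^ j) (n := k)
      (k := Nat.findGreatest (fun j => Q ≤ θ ^ j) k + 1) (by omega) (by omega)
    rw [not_le, pow_succ, mul_comm] at h2
    exact h2

theorem stg_geom {ϑ : ℝ} (h0 : 0 < ϑ) (h1 : ϑ < 1) (k : ℕ) :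
    ∑ i ∈ Finset.range (k + 1), ϑ ^ (2 * (k - i)) ≤ 1 / (1 - ϑ ^ 2) := by
  have h2 : ∑ i ∈ Finset.range (k + 1), ϑ ^ (2 * (k - i)) =
      ∑ i ∈ Finset.range (k + 1), (ϑ ^ 2) ^ i := by
    rw [← Finset.sum_range_reflect (fun i => (ϑ ^ 2) ^ i) (k + 1)]
    apply Finset.sum_congr rfl
    intro i _
    rw [Nat.add_sub_cancel, pow_mul]
  have h3 : ϑ ^ 2 < 1 := by nlinarith
  have h4 : 0 < 1 - ϑ ^ 2 := by linarith
  rw [h2, le_div_iff₀ h4]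
  have h5 := geom_sum_mul_neg (ϑ ^ 2) (k + 1)
  have h6 : 0 < (ϑ ^ 2) ^ (k + 1) := by positivity
  linarith

theorem stg_rpow_le {a v : ℝ} (ha : 0 ≤ a) (hv : 0 ≤ v) (h : a ≤ v ^ 4) :
    a ^ (1 / 4 : ℝ) ≤ v := by
  calc a ^ (1 / 4 : ℝ) ≤ (v ^ 4) ^ (1 / 4 : ℝ) := Real.rpow_le_rpow ha h (by norm_num)
    _ = v := by
        have := Real.pow_rpow_inv_natCast hv (n := 4) (by norm_num)
        rw [show (1 / 4 : ℝ) = ((4 : ℕ) : ℝ)⁻¹ by norm_num]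
        exact this

/-- the main estimate of the shell -/
theorem stg_main {ϑ : ℝ} (h0 : 0 < ϑ) (h1 : ϑ < 1) {ν : Measure E} {A : ℝ} (hν : Carl ν A)
    {k : ℕ} {R : ℝ} (hB : RB (ϑ ^ 32) k ≤ R) (hA : R ≤ RA (ϑ ^ 32) k) {w z : E}
    (hw : ‖w‖ < R) (hz : ‖z‖ < 1) :
    SE ν ϑ k w * ((ϑ ^ 32) ^ k / dl (ϑ ^ 32) k w) ^ (3 / 4 : ℝ) ≤
      (16 * (6400 * (42 / ϑ ^ 32)) ^ 2 * 6 * Real.sqrt (2 / ϑ ^ 32) *
        ((4 / ϑ ^ 32) ^ (1 / 4 : ℝ) + 1 / ϑ ^ 8 * (1 / (1 - ϑ ^ 2)))) *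
      ((‖((R ^ 2 : ℝ) : ℂ) - ⟪w, z⟫_ℂ‖ / (R ^ 2 - ‖w‖ ^ 2)) ^ 3 *
        Real.sqrt ((R ^ 2 - ‖z‖ ^ 2) / ‖((R ^ 2 : ℝ) : ℂ) - ⟪w, z⟫_ℂ‖)) * SE ν ϑ k z := by
  have hθ0 : 0 < ϑ ^ 32 := by positivity
  have hθ1 : ϑ ^ 32 < 1 := pow_lt_one₀ h0.le h1 (by norm_num)
  obtain ⟨θ, hθ⟩ : ∃ θ : ℝ, θ = ϑ ^ 32 := ⟨_, rfl⟩
  rw [← hθ] at hθ0 hθ1 hB hA ⊢
  obtain ⟨eB, _, _, hAC, hB1, hA32, hA2⟩ := stg_radii hθ0 hθ1 k
  have hR1 : 1 < R := lt_of_lt_of_le hB1 hB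
  obtain ⟨hQ0, hQw, hQz⟩ := stg_Q2 (w := w) (z := z) hR1 hw (by linarith)
  obtain ⟨_, hQz', hQ9⟩ := stg_Q (w := w) (z := z) hR1 hw (by linarith)
  have hfac := stg_factor hθ0 hθ1 hB hA hw hz
  have hQ5 : ‖((R ^ 2 : ℝ) : ℂ) - ⟪w, z⟫_ℂ‖ ≤ 5 := by
    have := stg_sq_le (a := R) (by linarith) (by linarith)
    linarith
  obtain ⟨j, hjk, hj1, hj2⟩ := stg_index hθ0 hθ1 k hQ5
  have hρ : 0 < R ^ 2 - ‖w‖ ^ 2 := stg_sq_sub (norm_nonneg w) hw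
  have hρz : 0 < R ^ 2 - ‖z‖ ^ 2 := stg_sq_sub (norm_nonneg z) (by linarith)
  have hcmp1 : ∀ i ≤ j, Ei ν θ i w ≤ 16 * (6400 * (42 / θ)) ^ 2 *
      (‖((R ^ 2 : ℝ) : ℂ) - ⟪w, z⟫_ℂ‖ / (R ^ 2 - ‖w‖ ^ 2)) ^ 2 * Ei ν θ i z := fun i hi =>
    stg_compare hθ0 hθ1 hν le_rfl (hi.trans hjk) hB hA hw hz (hj1 i hi) (Or.inl rfl)
  have hcmp2 : ∀ i, j < i → i ≤ k → Ei ν θ i w ≤ 16 * (6400 * (42 / θ)) ^ 2 *
      (‖((R ^ 2 : ℝ) : ℂ) - ⟪w, z⟫_ℂ‖ / (R ^ 2 - ‖w‖ ^ 2)) ^ 2 * Ei ν θ j z := fun i hi hik =>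
    stg_compare hθ0 hθ1 hν hi.le hik hB hA hw hz (hj1 j le_rfl) (Or.inr (hj2 (by omega)))
  set Q : ℝ := ‖((R ^ 2 : ℝ) : ℂ) - ⟪w, z⟫_ℂ‖ with hQdef
  obtain ⟨q, hq⟩ : ∃ q : ℝ, q = Q / (R ^ 2 - ‖w‖ ^ 2) := ⟨_, rfl⟩
  obtain ⟨Y, hY⟩ : ∃ Y : ℝ, Y = Real.sqrt ((R ^ 2 - ‖z‖ ^ 2) / Q) := ⟨_, rfl⟩
  obtain ⟨x, hx⟩ : ∃ x : ℝ, x = (θ ^ k / dl θ k w) ^ (3 / 4 : ℝ) := ⟨_, rfl⟩
  obtain ⟨K1, hK1⟩ : ∃ K1 : ℝ, K1 = 16 * (6400 * (42 / θ)) ^ 2 := ⟨_, rfl⟩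
  obtain ⟨K2, hK2⟩ : ∃ K2 : ℝ, K2 = Real.sqrt (2 / θ) := ⟨_, rfl⟩
  obtain ⟨K3, hK3⟩ : ∃ K3 : ℝ, K3 = (4 / θ) ^ (1 / 4 : ℝ) := ⟨_, rfl⟩
  rw [← hq, ← hY, ← hx, ← hK1, ← hK2, ← hK3]
  rw [← hq, ← hY, ← hx, ← hK2] at hfac
  simp only [← hq, ← hK1] at hcmp1 hcmp2
  have hq0 : 0 < q := by rw [hq]; positivity
  have hY0 : 0 ≤ Y := by rw [hY]; exact Real.sqrt_nonneg _
  have hK10 : 0 < K1 := by rw [hK1]; positivity
  have hK20 : 0 ≤ K2 := by rw [hK2]; exact Real.sqrt_nonneg _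
  have hK30 : 0 ≤ K3 := by rw [hK3]; positivity
  have hT0 : 0 < θ ^ k := pow_pos hθ0 k
  have hx0 : 0 ≤ x := by
    rw [hx]
    apply Real.rpow_nonneg
    have := stg_depth hθ0 hθ1 hB hA hw
    apply div_nonneg hT0.le
    linarith
  have hEz : ∀ i, 0 ≤ Ei ν θ i z := fun i => EE_nonneg ν _
  have hEw : ∀ i, 0 ≤ Ei ν θ i w := fun i => EE_nonneg ν _
  -- bounds of the power 1/4
  have ha0 : 0 ≤ θ ^ k / Q := by positivity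
  have hx1 : x ≤ K3 * (K2 * Y) * (6 * q) := by
    refine hfac.trans ?_
    have h2 : (θ ^ k / Q) ^ (1 / 4 : ℝ) ≤ K3 := by
      rw [hK3]
      apply Real.rpow_le_rpow ha0 _ (by norm_num)
      rw [div_le_div_iff₀ hQ0 hθ0]
      have h3 : θ * θ ^ k / 4 ≤ R - 1 := by linarith
      exact stg_lin2 hR1 hz h3 (by ring) hQz' (norm_nonneg z)
    gcongr
  have hx2 : j < k → x ≤ (1 / ϑ ^ 8 * ϑ ^ (2 * (k - j))) * (K2 * Y) * (6 * q) := by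
    intro hlt
    refine hfac.trans ?_
    have h2 : (θ ^ k / Q) ^ (1 / 4 : ℝ) ≤ 1 / ϑ ^ 8 * ϑ ^ (2 * (k - j)) := by
      have h3 : (θ ^ k / Q) ^ (1 / 4 : ℝ) ≤ 1 / ϑ ^ 8 * ϑ ^ (8 * (k - j)) := by
        apply stg_rpow_le ha0 (by positivity)
        have h4 := hj2 hlt
        have h5 : (1 / ϑ ^ 8 * ϑ ^ (8 * (k - j))) ^ 4 = θ ^ (k - j) / θ := by
          rw [hθ, mul_pow, div_pow, ← pow_mul, ← pow_mul, ← pow_mul]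
          rw [show 8 * (k - j) * 4 = 32 * (k - j) by ring]
          norm_num
          ring
        rw [h5, div_le_div_iff₀ hQ0 hθ0]
        have h6 : θ ^ k = θ ^ (k - j) * θ ^ j := by
          rw [← pow_add, Nat.sub_add_cancel hjk]
        have h7 : 0 < θ ^ (k - j) := pow_pos hθ0 _
        exact stg_pow_fact h7 h4 h6
      refine h3.trans ?_
      apply mul_le_mul_of_nonneg_left _ (by positivity)
      exact pow_le_pow_of_le_one h0.le h1.le (by omega)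
    gcongr
  -- termwise bound
  have hterm : ∀ i ∈ Finset.range (k + 1), ϑ ^ (2 * (k - i)) * Ei ν θ i w * x ≤
      K1 * 6 * K2 * (q ^ 3 * Y) * (K3 * (ϑ ^ (2 * (k - i)) * Ei ν θ i z) +
        1 / ϑ ^ 8 * (ϑ ^ (2 * (k - j)) * Ei ν θ j z) * ϑ ^ (2 * (k - i))) := by
    intro i hi
    have hik : i ≤ k := by
      have := Finset.mem_range.1 hi
      omega
    have hp : 0 < ϑ ^ (2 * (k - i)) := by positivity
    rcases le_or_gt i j with hij | hij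
    · have h2 := hcmp1 i hij
      have h3 : ϑ ^ (2 * (k - i)) * Ei ν θ i w * x ≤
          ϑ ^ (2 * (k - i)) * (K1 * q ^ 2 * Ei ν θ i z) * (K3 * (K2 * Y) * (6 * q)) := by
        apply mul_le_mul _ hx1 hx0
        · have := hEz i
          positivity
        · exact mul_le_mul_of_nonneg_left h2 hp.le
      refine h3.trans ?_
      have h4 : 0 ≤ K1 * 6 * K2 * (q ^ 3 * Y) *
          (1 / ϑ ^ 8 * (ϑ ^ (2 * (k - j)) * Ei ν θ j z) * ϑ ^ (2 * (k - i))) := by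
        have := hEz j
        positivity
      calc _ = K1 * 6 * K2 * (q ^ 3 * Y) * (K3 * (ϑ ^ (2 * (k - i)) * Ei ν θ i z)) := by ring
        _ ≤ _ := by rw [mul_add]; linarith
    · have h2 := hcmp2 i hij hik
      have h3 : ϑ ^ (2 * (k - i)) * Ei ν θ i w * x ≤
          ϑ ^ (2 * (k - i)) * (K1 * q ^ 2 * Ei ν θ j z) *
            ((1 / ϑ ^ 8 * ϑ ^ (2 * (k - j))) * (K2 * Y) * (6 * q)) := by
        apply mul_le_mul _ (hx2 (by omega)) hx0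
        · have := hEz j
          positivity
        · exact mul_le_mul_of_nonneg_left h2 hp.le
      refine h3.trans ?_
      have h4 : 0 ≤ K1 * 6 * K2 * (q ^ 3 * Y) * (K3 * (ϑ ^ (2 * (k - i)) * Ei ν θ i z)) := by
        have := hEz i
        positivity
      calc _ = K1 * 6 * K2 * (q ^ 3 * Y) *
          (1 / ϑ ^ 8 * (ϑ ^ (2 * (k - j)) * Ei ν θ j z) * ϑ ^ (2 * (k - i))) := by ring
        _ ≤ _ := by rw [mul_add]; linarith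
  have hSEz : ϑ ^ (2 * (k - j)) * Ei ν θ j z ≤ SE ν ϑ k z := by
    unfold SE
    rw [← hθ]
    exact Finset.single_le_sum (f := fun i => ϑ ^ (2 * (k - i)) * Ei ν θ i z)
      (fun i _ => mul_nonneg (by positivity) (hEz i)) (Finset.mem_range.2 (by omega))
  have hSE0 : 0 ≤ SE ν ϑ k z := by
    unfold SE
    rw [← hθ]
    exact Finset.sum_nonneg (fun i _ => mul_nonneg (by positivity) (hEz i))
  have hgeom := stg_geom h0 h1 k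
  have hS0 : 0 < 1 - ϑ ^ 2 := by nlinarith
  calc SE ν ϑ k w * x = ∑ i ∈ Finset.range (k + 1), ϑ ^ (2 * (k - i)) * Ei ν θ i w * x := by
        unfold SE
        rw [← hθ, Finset.sum_mul]
    _ ≤ ∑ i ∈ Finset.range (k + 1), K1 * 6 * K2 * (q ^ 3 * Y) *
          (K3 * (ϑ ^ (2 * (k - i)) * Ei ν θ i z) +
            1 / ϑ ^ 8 * (ϑ ^ (2 * (k - j)) * Ei ν θ j z) * ϑ ^ (2 * (k - i))) :=
        Finset.sum_le_sum hterm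
    _ = K1 * 6 * K2 * (q ^ 3 * Y) * (K3 * SE ν ϑ k z +
          1 / ϑ ^ 8 * (ϑ ^ (2 * (k - j)) * Ei ν θ j z) *
            ∑ i ∈ Finset.range (k + 1), ϑ ^ (2 * (k - i))) := by
        unfold SE
        rw [← hθ, ← Finset.mul_sum, Finset.sum_add_distrib, ← Finset.mul_sum, ← Finset.mul_sum]
    _ ≤ K1 * 6 * K2 * (q ^ 3 * Y) * (K3 * SE ν ϑ k z +
          1 / ϑ ^ 8 * SE ν ϑ k z * (1 / (1 - ϑ ^ 2))) := by
        have hg0 : 0 ≤ ∑ i ∈ Finset.range (k + 1), ϑ ^ (2 * (k - i)) :=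
          Finset.sum_nonneg (fun i _ => by positivity)
        gcongr
    _ = _ := by ring

theorem P_shell (μ : Measure E) [μ.IsAddHaarMeasure] {m : ℕ} (hm : 1 ≤ m)
    (hdim : Module.finrank ℂ E = m + 1) {ϑ : ℝ} (h0 : 0 < ϑ) (h1 : ϑ < 1) :
    ∃ C : ℝ, 0 < C ∧ ∀ (ν : Measure E) (A : ℝ), Carl ν A → ∀ (k : ℕ) (R B : ℝ) (N : E → ℂ)
      (U : Set E) (z : E), RB (ϑ ^ 32) k ≤ R → R ≤ RA (ϑ ^ 32) k → IsOpen U →
      closedBall (0 : E) R ⊆ U → ContDiffOn ℝ 1 N U → ‖z‖ < 1 → 0 ≤ B →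
      (∀ w ∈ ball (0 : E) R, ∀ x : E, ‖dbE N w x‖ ≤
        B * ((ϑ ^ 32) ^ k / dl (ϑ ^ 32) k w) ^ (3 / 4 : ℝ) * SE ν ϑ k w *
          gau (dl (ϑ ^ 32) k w) w x) →
      ‖PR μ m R N z - N z‖ ≤ C * B * SE ν ϑ k z := by
  obtain ⟨C1, hC1, hsub⟩ := PR_sub μ hm hdim
  have hθ0 : 0 < ϑ ^ 32 := by positivity
  have hθ1 : ϑ ^ 32 < 1 := pow_lt_one₀ h0.le h1 (by norm_num)
  have hS0 : 0 < 1 - ϑ ^ 2 := by nlinarith
  obtain ⟨K, hK⟩ : ∃ K : ℝ, K = (16 * (6400 * (42 / ϑ ^ 32)) ^ 2 * 6 * Real.sqrt (2 / ϑ ^ 32) *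
        ((4 / ϑ ^ 32) ^ (1 / 4 : ℝ) + 1 / ϑ ^ 8 * (1 / (1 - ϑ ^ 2)))) := ⟨_, rfl⟩
  have hK0 : 0 < K := by
    rw [hK]
    have h2 : 0 < Real.sqrt (2 / ϑ ^ 32) := Real.sqrt_pos.2 (by positivity)
    positivity
  refine ⟨C1 * (6 * K), by positivity, ?_⟩
  intro ν A hν k R B N U z hB hA hU hBU hN hz hB0 hdb
  obtain ⟨eB, _, _, hAC, hB1, hA32, hA2⟩ := stg_radii hθ0 hθ1 k
  have hR1 : 1 < R := lt_of_lt_of_le hB1 hB
  have hSE0 : ∀ y, 0 ≤ SE ν ϑ k y := by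
    intro y
    unfold SE
    exact Finset.sum_nonneg (fun i _ => mul_nonneg (by positivity) (EE_nonneg ν _))
  have h2 := hsub R N U z (6 * K * B * SE ν ϑ k z) (by linarith) hU hBU hN (by linarith)
    (by have := hSE0 z; positivity) ?_
  · refine h2.trans (le_of_eq ?_)
    ring
  · intro w hw x
    rw [mem_ball_zero_iff] at hw
    have h3 := hdb w (by rwa [mem_ball_zero_iff]) x
    have h4 := stg_main h0 h1 hν hB hA hw hz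
    rw [← hK] at h4
    have h5 := stg_gau hθ0 hθ1 hB hA hw x
    have hρ : 0 < R ^ 2 - ‖w‖ ^ 2 := stg_sq_sub (norm_nonneg w) hw
    have h6 := gau_nonneg hρ.le w x
    have hdl : 0 < dl (ϑ ^ 32) k w := by
      have := stg_depth hθ0 hθ1 hB hA hw
      linarith
    have h7 : 0 ≤ ((ϑ ^ 32) ^ k / dl (ϑ ^ 32) k w) ^ (3 / 4 : ℝ) := by positivity
    have h8 := gau_nonneg hdl.le w x
    calc ‖dbE N w x‖ ≤ B * ((ϑ ^ 32) ^ k / dl (ϑ ^ 32) k w) ^ (3 / 4 : ℝ) * SE ν ϑ k w *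
          gau (dl (ϑ ^ 32) k w) w x := h3
      _ = B * (SE ν ϑ k w * ((ϑ ^ 32) ^ k / dl (ϑ ^ 32) k w) ^ (3 / 4 : ℝ)) *
          gau (dl (ϑ ^ 32) k w) w x := by ring
      _ ≤ B * (K * ((‖((R ^ 2 : ℝ) : ℂ) - ⟪w, z⟫_ℂ‖ / (R ^ 2 - ‖w‖ ^ 2)) ^ 3 *
            Real.sqrt ((R ^ 2 - ‖z‖ ^ 2) / ‖((R ^ 2 : ℝ) : ℂ) - ⟪w, z⟫_ℂ‖)) * SE ν ϑ k z) *
          (6 * gau (R ^ 2 - ‖w‖ ^ 2) w x) := by
          apply mul_le_mul _ h5 h8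
          · have := hSE0 z
            positivity
          · exact mul_le_mul_of_nonneg_left h4 hB0
      _ = _ := by ring

theorem P_deep (μ : Measure E) [μ.IsAddHaarMeasure] {m : ℕ} (hm : 1 ≤ m)
    (hdim : Module.finrank ℂ E = m + 1) {ϑ : ℝ} (h0 : 0 < ϑ) (h1 : ϑ < 1) :
    ∃ C : ℝ, 0 < C ∧ ∀ (k : ℕ) (B : ℝ) (N : E → ℂ)
      (U : Set E) (z : E), IsOpen U → closedBall (0 : E) (RA (ϑ ^ 32) k) ⊆ U →
      ContDiffOn ℝ 1 N U → ‖z‖ ≤ RB (ϑ ^ 32) k → 0 ≤ B →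
      (∀ w ∈ ball (0 : E) (RA (ϑ ^ 32) k), ∀ x : E, ‖dbE N w x‖ ≤
        B * ((ϑ ^ 32) ^ k / dl (ϑ ^ 32) k w) ^ (7 / 8 : ℝ) * gau (dl (ϑ ^ 32) k w) w x) →
      ‖PR μ m (RA (ϑ ^ 32) k) N z - N z‖ ≤
        C * B * ((ϑ ^ 32) ^ k / dl (ϑ ^ 32) k z) ^ (7 / 8 : ℝ) := by
  obtain ⟨C1, hC1, hsub⟩ := PR_sub μ hm hdim
  have hθ0 : 0 < ϑ ^ 32 := by positivity
  have hθ1 : ϑ ^ 32 < 1 := pow_lt_one₀ h0.le h1 (by norm_num)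
  obtain ⟨θ, hθ⟩ : ∃ θ : ℝ, θ = ϑ ^ 32 := ⟨_, rfl⟩
  rw [← hθ] at hθ0 hθ1 ⊢
  refine ⟨C1 * (6 * (48 / θ * 8 * 2)), by positivity, ?_⟩
  intro k B N U z hU hBU hN hz hB0 hdb
  obtain ⟨eB, eA, hBA, hAC, hB1, hA32, hA2⟩ := stg_radii hθ0 hθ1 k
  set R : ℝ := RA θ k with hR
  have hR1 : 1 < R := by linarith
  have hzR : ‖z‖ < R := by linarith
  have hT0 : 0 < θ ^ k := pow_pos hθ0 k
  have hT1 : θ ^ k ≤ 1 := pow_le_one₀ hθ0.le hθ1.le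
  have hs0 : 0 < θ * θ ^ k := by positivity
  have hdlz := dl_ge hθ0 hθ1 (i := k) (k := k) (by omega) (w := z) (by linarith)
  have hdlz0 : 0 < dl θ k z := by linarith
  have hρz : 0 < R ^ 2 - ‖z‖ ^ 2 := stg_sq_sub (norm_nonneg z) (by linarith)
  have hz8 : dl θ k z ≤ 8 / θ * (R ^ 2 - ‖z‖ ^ 2) := by
    have h2 : θ * θ ^ k / 2 ≤ R ^ 2 - ‖z‖ ^ 2 := by
      exact stg_lin3 (norm_nonneg z) hz eB.symm eA.symm hs0
    have h3 : ‖z‖ ^ 2 ≤ 25 / 16 := by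
      have h4 : ‖z‖ ≤ 5 / 4 := by
        have : θ * θ ^ k ≤ 1 := stg_mul_le_one hθ1.le hT0.le hT1
        linarith
      exact stg_sq_le' (norm_nonneg z) h4
    have h4 : dl θ k z ≤ (R ^ 2 - ‖z‖ ^ 2) + 25 / 8 * θ ^ k := by
      have h6 : 1 ≤ R ^ 2 := stg_one_le_sq hR1.le
      have h7 := stg_depth_le hT0.le (sq_nonneg ‖z‖) h3 (X := R ^ 2 - ‖z‖ ^ 2) (by linarith)
      unfold dl rt
      linarith
    have h5 : θ ^ k ≤ 2 / θ * (R ^ 2 - ‖z‖ ^ 2) := by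
      rw [div_mul_eq_mul_div, le_div_iff₀ hθ0]
      linarith
    have h6 : (R ^ 2 - ‖z‖ ^ 2) ≤ 1 / θ * (R ^ 2 - ‖z‖ ^ 2) := by
      apply le_mul_of_one_le_left hρz.le
      rw [one_le_div hθ0]
      exact hθ1.le
    have h7 : 0 ≤ 1 / θ * (R ^ 2 - ‖z‖ ^ 2) := by positivity
    have h8 : 2 / θ * (R ^ 2 - ‖z‖ ^ 2) = 2 * (1 / θ * (R ^ 2 - ‖z‖ ^ 2)) := by ring
    have h9 : 8 / θ * (R ^ 2 - ‖z‖ ^ 2) = 8 * (1 / θ * (R ^ 2 - ‖z‖ ^ 2)) := by ring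
    rw [h9]
    rw [h8] at h5
    linarith
  obtain ⟨xz, hxz⟩ : ∃ xz : ℝ, xz = (θ ^ k / dl θ k z) ^ (7 / 8 : ℝ) := ⟨_, rfl⟩
  have hxz0 : 0 ≤ xz := by rw [hxz]; positivity
  rw [← hxz]
  have h2 := hsub R N U z (6 * (48 / θ * 8 * 2) * B * xz) (by linarith) hU hBU hN hzR
    (by positivity) ?_
  · refine h2.trans (le_of_eq ?_)
    ring
  · intro w hw x
    rw [mem_ball_zero_iff] at hw
    have h3 := hdb w (by rwa [mem_ball_zero_iff]) x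
    have h5 := stg_gau hθ0 hθ1 hBA.le le_rfl hw x
    have hρ : 0 < R ^ 2 - ‖w‖ ^ 2 := stg_sq_sub (norm_nonneg w) hw
    have h6 := gau_nonneg hρ.le w x
    have hdep := stg_depth hθ0 hθ1 hBA.le le_rfl hw
    have hdl : 0 < dl θ k w := by linarith
    have h8 := gau_nonneg hdl.le w x
    obtain ⟨hQ0, hQw, hQz⟩ := stg_Q2 (w := w) (z := z) hR1 hw hzR.le
    obtain ⟨Q, hQ⟩ : ∃ Q : ℝ, Q = ‖((R ^ 2 : ℝ) : ℂ) - ⟪w, z⟫_ℂ‖ := ⟨_, rfl⟩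
    rw [← hQ] at hQ0 hQw hQz ⊢
    obtain ⟨q, hq⟩ : ∃ q : ℝ, q = Q / (R ^ 2 - ‖w‖ ^ 2) := ⟨_, rfl⟩
    obtain ⟨y, hy⟩ : ∃ y : ℝ, y = (R ^ 2 - ‖z‖ ^ 2) / Q := ⟨_, rfl⟩
    have hq2 : 1 / 2 ≤ q := by rw [hq, le_div_iff₀ hρ]; linarith
    have hq0 : 0 < q := by linarith
    have hy0 : 0 < y := by rw [hy]; positivity
    have hy2 : y ≤ 2 := by rw [hy, div_le_iff₀ hQ0]; exact hQz
    have hratio : θ ^ k / dl θ k w ≤ (θ ^ k / dl θ k z) * ((48 / θ) * y * q) := by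
      rw [div_le_iff₀ hdl]
      have e1 : (48 / θ) * y * q = 8 / θ * (R ^ 2 - ‖z‖ ^ 2) * (6 / (R ^ 2 - ‖w‖ ^ 2)) := by
        rw [hy, hq]
        field_simp
        ring
      rw [e1]
      have e2 : 1 ≤ 6 / (R ^ 2 - ‖w‖ ^ 2) * dl θ k w := by
        rw [div_mul_eq_mul_div, le_div_iff₀ hρ, one_mul]
        exact hdep
      have e3 : 1 ≤ 8 / θ * (R ^ 2 - ‖z‖ ^ 2) / dl θ k z := by
        rw [le_div_iff₀ hdlz0, one_mul]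
        exact hz8
      calc θ ^ k = θ ^ k * (1 * 1) := by ring
        _ ≤ θ ^ k * ((8 / θ * (R ^ 2 - ‖z‖ ^ 2) / dl θ k z) *
            (6 / (R ^ 2 - ‖w‖ ^ 2) * dl θ k w)) := by
            apply mul_le_mul_of_nonneg_left _ hT0.le
            exact mul_le_mul e3 e2 zero_le_one (le_trans zero_le_one e3)
        _ = _ := by ring
    have hpow : (θ ^ k / dl θ k w) ^ (7 / 8 : ℝ) ≤
        xz * (48 / θ * 8 * 2 * (q ^ 3 * Real.sqrt y)) := by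
      have g0 : (0 : ℝ) < 48 / θ := by positivity
      have g1 : (θ ^ k / dl θ k w) ^ (7 / 8 : ℝ) ≤
          ((θ ^ k / dl θ k z) * ((48 / θ) * y * q)) ^ (7 / 8 : ℝ) :=
        Real.rpow_le_rpow (by positivity) hratio (by norm_num)
      rw [Real.mul_rpow (by positivity) (by positivity), ← hxz,
        Real.mul_rpow (by positivity) hq0.le, Real.mul_rpow g0.le hy0.le] at g1
      refine g1.trans ?_
      apply mul_le_mul_of_nonneg_left _ hxz0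
      have g2 : (48 / θ) ^ (7 / 8 : ℝ) ≤ 48 / θ := by
        calc (48 / θ) ^ (7 / 8 : ℝ) ≤ (48 / θ) ^ (1 : ℝ) := by
              apply Real.rpow_le_rpow_of_exponent_le _ (by norm_num)
              rw [le_div_iff₀ hθ0]; linarith
          _ = 48 / θ := Real.rpow_one _
      have g3 : y ^ (7 / 8 : ℝ) ≤ 2 * Real.sqrt y := by
        have e1 : y ^ (7 / 8 : ℝ) = y ^ (3 / 8 : ℝ) * Real.sqrt y := by
          rw [Real.sqrt_eq_rpow, ← Real.rpow_add hy0]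
          norm_num
        rw [e1]
        apply mul_le_mul_of_nonneg_right _ (Real.sqrt_nonneg _)
        calc y ^ (3 / 8 : ℝ) ≤ 2 ^ (3 / 8 : ℝ) := Real.rpow_le_rpow hy0.le hy2 (by norm_num)
          _ ≤ 2 ^ (1 : ℝ) := Real.rpow_le_rpow_of_exponent_le (by norm_num) (by norm_num)
          _ = 2 := Real.rpow_one _
      have g4 : q ^ (7 / 8 : ℝ) ≤ 8 * q ^ 3 := by
        have e1 : q ^ (7 / 8 : ℝ) ≤ (2 * q) ^ (7 / 8 : ℝ) :=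
          Real.rpow_le_rpow hq0.le (by linarith) (by norm_num)
        have e2 : (2 * q) ^ (7 / 8 : ℝ) ≤ (2 * q) ^ (3 : ℝ) :=
          Real.rpow_le_rpow_of_exponent_le (by linarith) (by norm_num)
        have e3 : (2 * q) ^ (3 : ℝ) = 8 * q ^ 3 := by
          rw [show (3 : ℝ) = ((3 : ℕ) : ℝ) by norm_num, Real.rpow_natCast]
          ring
        exact e1.trans (e2.trans (le_of_eq e3))
      calc (48 / θ) ^ (7 / 8 : ℝ) * y ^ (7 / 8 : ℝ) * q ^ (7 / 8 : ℝ) ≤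
          (48 / θ) * (2 * Real.sqrt y) * (8 * q ^ 3) := by gcongr
        _ = _ := by ring
    rw [← hq, ← hy]
    calc ‖dbE N w x‖ ≤ B * (θ ^ k / dl θ k w) ^ (7 / 8 : ℝ) * gau (dl θ k w) w x := h3
      _ ≤ B * (xz * (48 / θ * 8 * 2 * (q ^ 3 * Real.sqrt y))) *
          (6 * gau (R ^ 2 - ‖w‖ ^ 2) w x) := by
          apply mul_le_mul _ h5 h8 (by positivity)
          exact mul_le_mul_of_nonneg_left hpow hB0
      _ = _ := by ring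

end Pool.Agent.MPca0fc2.PT
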