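import Mathlib
import Pool.Agent.Lib.MP_ca0fc2_an.PTBase
import Pool.Agent.Lib.MP_ca0fc2_an.Mg.G008
import Pool.Agent.Lib.MP_ca0fc2_an.Mg.G045

set_option autoImplicit false

open Metric Set MeasureTheory Filter Topology
open scoped InnerProductSpace ENNReal

namespace Pool.Agent.MPca0fc2.PT

variable {E : Type*} [NormedAddCommGroup E] [InnerProductSpace ℂ E]

variable [FiniteDimensional ℂ E] [MeasurableSpace E] [BorelSpace E]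

/-- the parameters -/
structure Par (E : Type*) [NormedAddCommGroup E] [InnerProductSpace ℂ E]
    [MeasurableSpace E] (ϑ c ρ C₀ p M A : ℝ) : Prop where
  h0 : 0 < ϑ
  h1 : ϑ < 1
  hC₀ : 0 < C₀
  hp : 1 ≤ p
  hc : 0 < c
  hc1 : c ≤ 1
  hρ : 0 < ρ
  hρM : ρ ≤ M
  hM : 1 ≤ M
  small : 2000 * M / ϑ ^ 32 * (1 - ϑ ^ 32) ≤ ρ / 2
  close : ∀ (ν : Measure E) (u : E → ℂ), HU ν u M A p C₀ → ∀ (k : ℕ) (w : E),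
    ‖w‖ < RC (ϑ ^ 32) (k - 1) → ‖uk u (ϑ ^ 32) k w - vv ν u ϑ c k w‖ ≤ ρ / 2

section par

variable {ϑ c ρ C₀ p M A : ℝ} {ν : Measure E} {u : E → ℂ}

theorem Par.θ0 (h : Par E ϑ c ρ C₀ p M A) : 0 < ϑ ^ 32 := pow_pos h.h0 _

theorem Par.θ1 (h : Par E ϑ c ρ C₀ p M A) : ϑ ^ 32 < 1 := pow_lt_one₀ h.h0.le h.h1 (by norm_num)

theorem Par.uk_le (h : Par E ϑ c ρ C₀ p M A) (hu : HU ν u M A p C₀) {i k : ℕ} (hik : i ≤ k + 1)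
    {w : E} (hw : ‖w‖ < RC (ϑ ^ 32) k) : ‖uk u (ϑ ^ 32) i w‖ ≤ M :=
  hu.bd _ (rt_smul_mem h.θ0 h.θ1 hik hw)

theorem Par.step (h : Par E ϑ c ρ C₀ p M A) {f : E → ℂ} (hf : DifferentiableOn ℂ f (ball 0 1))
    (hM : ∀ z ∈ ball (0 : E) 1, ‖f z‖ ≤ M) {k : ℕ}
    {w : E} (hw : ‖w‖ < RC (ϑ ^ 32) k) :
    ‖uk f (ϑ ^ 32) (k + 1) w - uk f (ϑ ^ 32) k w‖ ≤ ρ / 8 * xk (ϑ ^ 32) k w ∧
    ‖uk f (ϑ ^ 32) (k + 1) w - uk f (ϑ ^ 32) k w‖ ≤ ρ / 2 := by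
  have h2 := d_small h.θ0 h.θ1 hf hM k hw
  have hx := xk_pos h.θ0 h.θ1 hw
  have hx4 := xk_le h.θ0 h.θ1 hw
  have hs := h.small
  have h3 : 500 * M / ϑ ^ 32 * (1 - ϑ ^ 32) ≤ ρ / 8 := by
    have : 2000 * M / ϑ ^ 32 * (1 - ϑ ^ 32) = 4 * (500 * M / ϑ ^ 32 * (1 - ϑ ^ 32)) := by ring
    linarith
  have h4 : ‖uk f (ϑ ^ 32) (k + 1) w - uk f (ϑ ^ 32) k w‖ ≤ ρ / 8 * xk (ϑ ^ 32) k w :=
    h2.trans (mul_le_mul_of_nonneg_right h3 hx.le)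
  refine ⟨h4, h4.trans ?_⟩
  have := h.hρ
  nlinarith

theorem Par.b_near (h : Par E ϑ c ρ C₀ p M A) (hu : HU ν u M A p C₀) {k : ℕ} {w : E}
    (hw : ‖w‖ < RC (ϑ ^ 32) (k - 1)) :
    ‖bb ν u ϑ c ρ k w - uk u (ϑ ^ 32) k w‖ ≤ 3 * ρ := by
  have h1 := h.close ν u hu k w hw
  have h2 := b_close (ϑ := ϑ) (c := c) h.hρ ν u k w
  have hρ := h.hρ
  calc ‖bb ν u ϑ c ρ k w - uk u (ϑ ^ 32) k w‖ =
        ‖(uk u (ϑ ^ 32) k w - vv ν u ϑ c k w) + (vv ν u ϑ c k w - bb ν u ϑ c ρ k w)‖ := by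
        rw [← norm_neg]; congr 1; ring
    _ ≤ ‖uk u (ϑ ^ 32) k w - vv ν u ϑ c k w‖ + ‖vv ν u ϑ c k w - bb ν u ϑ c ρ k w‖ :=
        norm_add_le _ _
    _ ≤ 3 * ρ := by linarith

theorem Par.b_near' (h : Par E ϑ c ρ C₀ p M A) (hu : HU ν u M A p C₀) {k : ℕ} {w : E}
    (hw : ‖w‖ < RC (ϑ ^ 32) k) :
    ‖bb ν u ϑ c ρ k w - uk u (ϑ ^ 32) (k + 1) w‖ ≤ 3 * ρ := by
  have hw' := hw.trans_le (RC_succ_le h.θ0 h.θ1 k)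
  have h1 := h.close ν u hu k w hw'
  have h2 := b_close (ϑ := ϑ) (c := c) h.hρ ν u k w
  have h3 := (h.step hu.diff hu.bd hw).2
  have hρ := h.hρ
  have e : bb ν u ϑ c ρ k w - uk u (ϑ ^ 32) (k + 1) w = -((uk u (ϑ ^ 32) (k + 1) w -
      uk u (ϑ ^ 32) k w) + (uk u (ϑ ^ 32) k w - vv ν u ϑ c k w) +
      (vv ν u ϑ c k w - bb ν u ϑ c ρ k w)) := by ring
  rw [e, norm_neg]
  refine (norm_add_le _ _).trans ?_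
  have := norm_add_le (uk u (ϑ ^ 32) (k + 1) w - uk u (ϑ ^ 32) k w)
    (uk u (ϑ ^ 32) k w - vv ν u ϑ c k w)
  linarith

theorem Par.b_le (h : Par E ϑ c ρ C₀ p M A) (hu : HU ν u M A p C₀) {k : ℕ} {w : E}
    (hw : ‖w‖ < RC (ϑ ^ 32) k) : ‖bb ν u ϑ c ρ k w‖ ≤ 4 * M := by
  have h1 := h.b_near hu (hw.trans_le (RC_succ_le h.θ0 h.θ1 k))
  have h2 := h.uk_le hu (Nat.le_succ k) hw
  have := h.hρM
  calc ‖bb ν u ϑ c ρ k w‖ = ‖(bb ν u ϑ c ρ k w - uk u (ϑ ^ 32) k w) + uk u (ϑ ^ 32) k w‖ := by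
        rw [sub_add_cancel]
    _ ≤ _ := norm_add_le _ _
    _ ≤ 4 * M := by linarith

/-- the data of the exponent -/
noncomputable def NL (ν : Measure E) (u : E → ℂ) (ϑ c ρ : ℝ) (k : ℕ) (w : E) : ℂ :=
  (starRingEnd ℂ) (bb ν u ϑ c ρ k w) * (uk u (ϑ ^ 32) (k + 1) w - uk u (ϑ ^ 32) k w)

/-- the exponent -/
noncomputable def La (μ : Measure E) (m : ℕ) (ν : Measure E) (u : E → ℂ) (ϑ c ρ : ℝ) (k : ℕ) :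
    E → ℂ := PR μ m (RA (ϑ ^ 32) k) (NL ν u ϑ c ρ k)

/-- the factor -/
noncomputable def XX (μ : Measure E) (m : ℕ) (ν : Measure E) (u : E → ℂ) (ϑ c ρ cX κ : ℝ) (k : ℕ)
    (w : E) : ℂ :=
  Complex.exp (cX * La μ m ν u ϑ c ρ k w -
    κ * (DD ν ((rt (ϑ ^ 32) (k + 1) : ℂ) • w) - DD ν ((rt (ϑ ^ 32) k : ℂ) • w)))

theorem b_c1 (h : Par E ϑ c ρ C₀ p M A) (hu : HU ν u M A p C₀) (k : ℕ) :
    ContDiffOn ℝ 1 (bb ν u ϑ c ρ k) (ball 0 (RC (ϑ ^ 32) k)) :=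
  (b_contDiff h.h0 h.h1 h.hc h.hρ hu k).mono (ball_subset_ball (RC_succ_le h.θ0 h.θ1 k))

theorem du_diff (h : Par E ϑ c ρ C₀ p M A) (hu : HU ν u M A p C₀) (k : ℕ) :
    DifferentiableOn ℂ (fun w => uk u (ϑ ^ 32) (k + 1) w - uk u (ϑ ^ 32) k w)
      (ball 0 (RC (ϑ ^ 32) k)) :=
  (uk_diff h.θ0 h.θ1 hu.diff le_rfl).sub (uk_diff h.θ0 h.θ1 hu.diff (Nat.le_succ k))

theorem NL_c1 (h : Par E ϑ c ρ C₀ p M A) (hu : HU ν u M A p C₀) (k : ℕ) :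
    ContDiffOn ℝ 1 (NL ν u ϑ c ρ k) (ball 0 (RC (ϑ ^ 32) k)) := by
  have h1 := b_c1 h hu k
  have h2 : ContDiffOn ℝ 1 (fun w => (starRingEnd ℂ) (bb ν u ϑ c ρ k w))
      (ball 0 (RC (ϑ ^ 32) k)) := (Complex.conjCLE : ℂ →L[ℝ] ℂ).contDiff.comp_contDiffOn h1
  exact h2.mul (holo_c1 isOpen_ball (du_diff h hu k))

theorem b_diffAt (h : Par E ϑ c ρ C₀ p M A) (hu : HU ν u M A p C₀) {k : ℕ} {w : E}
    (hw : ‖w‖ < RC (ϑ ^ 32) k) : DifferentiableAt ℝ (bb ν u ϑ c ρ k) w :=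
  ((b_c1 h hu k).contDiffAt (isOpen_ball.mem_nhds (mem_ball_zero_iff.mpr hw))).differentiableAt
    (by norm_num)

theorem NL_dbE (h : Par E ϑ c ρ C₀ p M A) (hu : HU ν u M A p C₀) {k : ℕ} {w : E}
    (hw : ‖w‖ < RC (ϑ ^ 32) k) (x : E) : ‖dbE (NL ν u ϑ c ρ k) w x‖ ≤
      ρ * (xk (ϑ ^ 32) k w * ((‖fderiv ℝ (bb ν u ϑ c ρ k) w x‖ +
        ‖fderiv ℝ (bb ν u ϑ c ρ k) w (Complex.I • x)‖) / 2)) := by
  have hb := b_diffAt h hu hw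
  have hb' : DifferentiableAt ℝ (fun w => (starRingEnd ℂ) (bb ν u ϑ c ρ k w)) w :=
    (Complex.conjCLE : ℂ →L[ℝ] ℂ).differentiableAt.comp w hb
  have hd := (du_diff h hu k).differentiableAt (isOpen_ball.mem_nhds (mem_ball_zero_iff.mpr hw))
  have e : NL ν u ϑ c ρ k = fun w => (starRingEnd ℂ) (bb ν u ϑ c ρ k w) *
    (uk u (ϑ ^ 32) (k + 1) w - uk u (ϑ ^ 32) k w) := rfl
  rw [e, dbE_mul_holo hb' hd, norm_mul]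
  have h1 := dbE_conj_le hb x
  have h2 := (h.step hu.diff hu.bd hw).1
  have hx := xk_pos h.θ0 h.θ1 hw
  have hρ := h.hρ
  calc _ ≤ ((‖fderiv ℝ (bb ν u ϑ c ρ k) w x‖ +
        ‖fderiv ℝ (bb ν u ϑ c ρ k) w (Complex.I • x)‖) / 2) * (ρ / 8 * xk (ϑ ^ 32) k w) := by
        gcongr
    _ = (ρ / 8) * (xk (ϑ ^ 32) k w * ((‖fderiv ℝ (bb ν u ϑ c ρ k) w x‖ +
        ‖fderiv ℝ (bb ν u ϑ c ρ k) w (Complex.I • x)‖) / 2)) := by ring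
    _ ≤ _ := by
        gcongr
        linarith

end par

end Pool.Agent.MPca0fc2.PT
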