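import Mathlib
import Pool.Agent.Lib.MP_ca0fc2_an.PTHol
import Pool.Agent.Lib.MP_ca0fc2_an.PTStage
import Pool.Agent.Lib.MP_ca0fc2_an.PTX1

set_option autoImplicit false

open Metric Set MeasureTheory Filter Topology
open scoped InnerProductSpace ENNReal

namespace Pool.Agent.MPca0fc2.PT

variable {E : Type*} [NormedAddCommGroup E] [InnerProductSpace ℂ E]

variable [FiniteDimensional ℂ E] [MeasurableSpace E] [BorelSpace E]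

theorem SE_mono {ϑ : ℝ} (h0 : 0 < ϑ) (h1 : ϑ < 1) {ν : Measure E} {A : ℝ} (h : Carl ν A) {k : ℕ}
    {w : E} (hw : ‖w‖ < RC (ϑ ^ 32) k) : SE ν ϑ k w ≤ A / (1 - ϑ ^ 2) := SE_le h0 h1 h hw

/-- the two bounds of the gradient of the base, symmetrized -/
theorem b_grad2 {ϑ : ℝ} (h0 : 0 < ϑ) (h1 : ϑ < 1) {C₀ p c : ℝ} (hC₀ : 0 < C₀) (hp : 1 ≤ p)
    (hc : 0 < c) (hc1 : c ≤ 1) :
    ∃ C : ℝ, 0 < C ∧ ∀ (ν : Measure E) (u : E → ℂ) (M A ρ : ℝ), HU ν u M A p C₀ → 0 < ρ →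
      ∀ (k : ℕ) (w : E), ‖w‖ < RC (ϑ ^ 32) k → ∀ x : E,
        xk (ϑ ^ 32) k w ^ (7 / 8 : ℝ) * ((‖fderiv ℝ (bb ν u ϑ c ρ k) w x‖ +
          ‖fderiv ℝ (bb ν u ϑ c ρ k) w (Complex.I • x)‖) / 2) ≤
          C * xk (ϑ ^ 32) k w ^ (3 / 4 : ℝ) * SE ν ϑ k w * gau (dl (ϑ ^ 32) k w) w x ∧
        xk (ϑ ^ 32) k w * ((‖fderiv ℝ (bb ν u ϑ c ρ k) w x‖ +
          ‖fderiv ℝ (bb ν u ϑ c ρ k) w (Complex.I • x)‖) / 2) ≤
          C * xk (ϑ ^ 32) k w ^ (7 / 8 : ℝ) * SE ν ϑ k w * gau (dl (ϑ ^ 32) k w) w x := by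
  obtain ⟨C, hC, hb⟩ := b_grad (E := E) h0 h1 hC₀ hp hc hc1
  refine ⟨C, hC, ?_⟩
  intro ν u M A ρ hu hρ k w hw x
  have a1 := hb ν u M A ρ hu hρ k w hw x
  have a2 := hb ν u M A ρ hu hρ k w hw (Complex.I • x)
  rw [gau_I] at a2
  unfold xk
  constructor
  · have e := add_le_add a1.1 a2.1
    linarith
  · have e := add_le_add a1.2 a2.2
    linarith

theorem La_est (μ : Measure E) [μ.IsAddHaarMeasure] {m : ℕ} (hm : 1 ≤ m)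
    (hdim : Module.finrank ℂ E = m + 1) {ϑ c ρ C₀ p M A : ℝ} (h : Par E ϑ c ρ C₀ p M A) :
    ∃ C : ℝ, 0 < C ∧ ∀ (ν : Measure E) (u : E → ℂ), HU ν u M A p C₀ → ∀ (k : ℕ),
      DifferentiableOn ℂ (La μ m ν u ϑ c ρ k) (ball 0 (RA (ϑ ^ 32) k)) ∧
      (∀ z : E, ‖z‖ < 1 → ‖La μ m ν u ϑ c ρ k z - NL ν u ϑ c ρ k z‖ ≤ C * SE ν ϑ k z) ∧
      ∀ z : E, ‖z‖ ≤ RB (ϑ ^ 32) k →
        ‖La μ m ν u ϑ c ρ k z‖ ≤ C * xk (ϑ ^ 32) k z ^ (7 / 8 : ℝ) := by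
  obtain ⟨C₁, hC₁, hb⟩ := b_grad2 (E := E) h.h0 h.h1 h.hC₀ h.hp h.hc h.hc1
  obtain ⟨C₂, hC₂, hs⟩ := P_shell μ hm hdim h.h0 h.h1
  obtain ⟨C₃, hC₃, hd⟩ := P_deep μ hm hdim h.h0 h.h1
  have hρ := h.hρ
  have hM := h.hM
  have h2 : 0 < 1 - ϑ ^ 2 := by
    have := pow_lt_one₀ h.h0.le h.h1 (two_ne_zero)
    linarith
  refine ⟨C₂ * (2 * ρ * C₁) + (C₃ * (ρ * C₁ * (|A| / (1 - ϑ ^ 2))) + 4 * M * (2 * ρ)), by
    positivity, ?_⟩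
  intro ν u hu k
  have hA : 0 ≤ A := hu.carl.1
  rw [abs_of_nonneg hA]
  have hRA : 0 < RA (ϑ ^ 32) k := by
    have := one_lt_RB h.θ0 k
    have := RB_lt_RA h.θ0 k
    linarith
  have hRC := RA_lt_RC h.θ0 k
  have hsub : closedBall (0 : E) (RA (ϑ ^ 32) k) ⊆ ball 0 (RC (ϑ ^ 32) k) :=
    closedBall_subset_ball hRC
  have hc1 := NL_c1 h hu k
  have hdb : ∀ w ∈ ball (0 : E) (RA (ϑ ^ 32) k), ∀ x : E, ‖dbE (NL ν u ϑ c ρ k) w x‖ ≤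
      ρ * (C₁ * xk (ϑ ^ 32) k w ^ (7 / 8 : ℝ) * SE ν ϑ k w * gau (dl (ϑ ^ 32) k w) w x) := by
    intro w hw x
    have hw' : ‖w‖ < RC (ϑ ^ 32) k := (mem_ball_zero_iff.mp hw).trans hRC
    refine (NL_dbE h hu hw' x).trans ?_
    exact mul_le_mul_of_nonneg_left (hb ν u M A ρ hu hρ k w hw' x).2 hρ.le
  refine ⟨PR_diff μ hRA (hc1.continuousOn.mono hsub), ?_, ?_⟩
  · intro z hz
    refine (hs ν A hu.carl k (RA (ϑ ^ 32) k) (2 * ρ * C₁) (NL ν u ϑ c ρ k) _ z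
      (RB_lt_RA h.θ0 k).le le_rfl isOpen_ball hsub hc1 hz (by positivity) ?_).trans ?_
    · intro w hw x
      have hw' : ‖w‖ < RC (ϑ ^ 32) k := (mem_ball_zero_iff.mp hw).trans hRC
      refine (hdb w hw x).trans ?_
      have h5 := (xk_le_pow h.θ0 h.θ1 hw').2.1
      have h6 := SE_nonneg h.h0 ν k w
      have h7 := gau_nonneg (dl_pos h.θ0 h.θ1 hw').le w x
      change _ ≤ 2 * ρ * C₁ * xk (ϑ ^ 32) k w ^ (3 / 4 : ℝ) * SE ν ϑ k w *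
        gau (dl (ϑ ^ 32) k w) w x
      calc ρ * (C₁ * xk (ϑ ^ 32) k w ^ (7 / 8 : ℝ) * SE ν ϑ k w * gau (dl (ϑ ^ 32) k w) w x) ≤
          ρ * (C₁ * (2 * xk (ϑ ^ 32) k w ^ (3 / 4 : ℝ)) * SE ν ϑ k w *
            gau (dl (ϑ ^ 32) k w) w x) := by gcongr
        _ = _ := by ring
    · have h6 := SE_nonneg h.h0 ν k z
      apply mul_le_mul_of_nonneg_right _ h6
      have : 0 ≤ C₃ * (ρ * C₁ * (A / (1 - ϑ ^ 2))) + 4 * M * (2 * ρ) := by positivity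
      linarith
  · intro z hz
    have hzC : ‖z‖ < RC (ϑ ^ 32) k := hz.trans_lt ((RB_lt_RA h.θ0 k).trans hRC)
    have h8 := hd k (ρ * C₁ * (A / (1 - ϑ ^ 2))) (NL ν u ϑ c ρ k) _ z isOpen_ball hsub hc1 hz
      (by positivity) (by
        intro w hw x
        have hw' : ‖w‖ < RC (ϑ ^ 32) k := (mem_ball_zero_iff.mp hw).trans hRC
        refine (hdb w hw x).trans ?_
        have h6 := SE_le h.h0 h.h1 hu.carl hw'
        have h7 := gau_nonneg (dl_pos h.θ0 h.θ1 hw').le w x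
        have h9 := xk_pos h.θ0 h.θ1 hw'
        change _ ≤ ρ * C₁ * (A / (1 - ϑ ^ 2)) * xk (ϑ ^ 32) k w ^ (7 / 8 : ℝ) *
          gau (dl (ϑ ^ 32) k w) w x
        calc ρ * (C₁ * xk (ϑ ^ 32) k w ^ (7 / 8 : ℝ) * SE ν ϑ k w *
              gau (dl (ϑ ^ 32) k w) w x) ≤
            ρ * (C₁ * xk (ϑ ^ 32) k w ^ (7 / 8 : ℝ) * (A / (1 - ϑ ^ 2)) *
              gau (dl (ϑ ^ 32) k w) w x) := by gcongr
          _ = _ := by ring)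
    change _ ≤ C₃ * (ρ * C₁ * (A / (1 - ϑ ^ 2))) * xk (ϑ ^ 32) k z ^ (7 / 8 : ℝ) at h8
    have h9 : ‖NL ν u ϑ c ρ k z‖ ≤ 4 * M * (2 * ρ) * xk (ϑ ^ 32) k z ^ (7 / 8 : ℝ) := by
      unfold NL
      rw [norm_mul, RCLike.norm_conj]
      have a1 := h.b_le hu hzC
      have a2 := (h.step hu.diff hu.bd hzC).1
      have a3 := (xk_le_pow h.θ0 h.θ1 hzC).1
      have a4 := xk_pos h.θ0 h.θ1 hzC
      calc _ ≤ 4 * M * (ρ / 8 * xk (ϑ ^ 32) k z) := by gcongr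
        _ ≤ 4 * M * (ρ / 8 * (2 * xk (ϑ ^ 32) k z ^ (7 / 8 : ℝ))) := by gcongr
        _ = 4 * M * (ρ / 4) * xk (ϑ ^ 32) k z ^ (7 / 8 : ℝ) := by ring
        _ ≤ _ := by gcongr; linarith
    have h10 : ‖La μ m ν u ϑ c ρ k z‖ ≤ ‖La μ m ν u ϑ c ρ k z - NL ν u ϑ c ρ k z‖ +
        ‖NL ν u ϑ c ρ k z‖ := by
      calc ‖La μ m ν u ϑ c ρ k z‖ = ‖(La μ m ν u ϑ c ρ k z - NL ν u ϑ c ρ k z) +
            NL ν u ϑ c ρ k z‖ := by rw [sub_add_cancel]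
        _ ≤ _ := norm_add_le _ _
    have hxx : 0 ≤ xk (ϑ ^ 32) k z ^ (7 / 8 : ℝ) := by
      have := xk_pos h.θ0 h.θ1 hzC
      positivity
    calc ‖La μ m ν u ϑ c ρ k z‖ ≤ C₃ * (ρ * C₁ * (A / (1 - ϑ ^ 2))) *
          xk (ϑ ^ 32) k z ^ (7 / 8 : ℝ) + 4 * M * (2 * ρ) * xk (ϑ ^ 32) k z ^ (7 / 8 : ℝ) := by
          unfold La at h10 ⊢
          linarith
      _ = (C₃ * (ρ * C₁ * (A / (1 - ϑ ^ 2))) + 4 * M * (2 * ρ)) *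
          xk (ϑ ^ 32) k z ^ (7 / 8 : ℝ) := by ring
      _ ≤ _ := by
          apply mul_le_mul_of_nonneg_right _ hxx
          have : 0 ≤ C₂ * (2 * ρ * C₁) := by positivity
          linarith

omit [FiniteDimensional ℂ E] [MeasurableSpace E] [BorelSpace E] in
theorem one_sub_rt {θ : ℝ} (h0 : 0 < θ) (h1 : θ < 1) {k : ℕ} {w : E} (hw : ‖w‖ < RC θ k) :
    1 - rt θ k * ‖w‖ ≤ 64 / θ * (1 - rt θ (k + 1) * ‖w‖) := by
  have a1 := dl_succ h0 h1 (i := k) hw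
  have a2 := rt_mul_lt h0 h1 (le_refl (k + 1)) hw
  have a3 := rt_nonneg h0 h1 k
  have a4 := rt_nonneg h0 h1 (k + 1)
  have a5 := rt_mul_lt h0 h1 (Nat.le_succ k) hw
  have a6 := norm_nonneg w
  have e1 : dl θ k w = (1 - rt θ k * ‖w‖) * (1 + rt θ k * ‖w‖) := by unfold dl; ring
  have e2 : dl θ (k + 1) w = (1 - rt θ (k + 1) * ‖w‖) * (1 + rt θ (k + 1) * ‖w‖) := by
    unfold dl; ring
  have b1 : 1 - rt θ k * ‖w‖ ≤ dl θ k w := by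
    rw [e1]
    have : 0 ≤ rt θ k * ‖w‖ := by positivity
    nlinarith
  have b2 : dl θ (k + 1) w ≤ 2 * (1 - rt θ (k + 1) * ‖w‖) := by
    rw [e2]
    have : 0 ≤ rt θ (k + 1) * ‖w‖ := by positivity
    nlinarith
  calc 1 - rt θ k * ‖w‖ ≤ dl θ k w := b1
    _ ≤ 32 / θ * dl θ (k + 1) w := a1
    _ ≤ 32 / θ * (2 * (1 - rt θ (k + 1) * ‖w‖)) := by gcongr
    _ = _ := by ring

theorem DD_est {θ : ℝ} (h0 : 0 < θ) (h1 : θ < 1) {ν : Measure E} {A : ℝ} (h : Carl ν A) {k : ℕ}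
    {w : E} (hw : ‖w‖ < RC θ k) :
    ‖DD ν ((rt θ (k + 1) : ℂ) • w) - DD ν ((rt θ k : ℂ) • w)‖ ≤
      64 / θ * A * 2 * xk θ k w := by
  have a3 := rt_nonneg h0 h1 k
  have hr : rt θ k ≤ rt θ (k + 1) := by
    unfold rt
    have : θ ^ (k + 1) ≤ θ ^ k := pow_le_pow_of_le_one h0.le h1.le (Nat.le_succ k)
    linarith
  have h2 := DD_sub h a3 hr (rt_mul_lt h0 h1 le_rfl hw) (one_sub_rt h0 h1 hw)
  refine h2.trans ?_
  have hA := h.1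
  have hd := dl_pos h0 h1 hw
  have e : 1 - rt θ k ^ 2 * ‖w‖ ^ 2 = dl θ k w := rfl
  rw [e]
  unfold xk
  have hw2 : ‖w‖ ≤ 2 := by
    have : RC θ k ≤ 2 := by
      unfold RC
      have := pow_le_one₀ (n := k + 1) h0.le h1.le
      linarith
    linarith
  have h3 : (rt θ (k + 1) - rt θ k) * ‖w‖ ≤ θ ^ k * 2 := by
    have : rt θ (k + 1) - rt θ k ≤ θ ^ k := by
      unfold rt
      have : 0 < θ ^ (k + 1) := by positivity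
      linarith
    have h4 : 0 ≤ rt θ (k + 1) - rt θ k := by linarith
    exact mul_le_mul this hw2 (norm_nonneg _) (by positivity)
  calc 64 / θ * A * ((rt θ (k + 1) - rt θ k) * ‖w‖) / dl θ k w ≤
      64 / θ * A * (θ ^ k * 2) / dl θ k w := by gcongr
    _ = _ := by ring

theorem exp_sub_one_le (y : ℂ) : ‖Complex.exp y - 1‖ ≤ ‖y‖ * Real.exp ‖y‖ := by
  have h := Complex.norm_exp_sub_sum_le_norm_mul_exp y 1
  simpa using h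

theorem XX_est (μ : Measure E) [μ.IsAddHaarMeasure] {m : ℕ} (hm : 1 ≤ m)
    (hdim : Module.finrank ℂ E = m + 1) {ϑ c ρ C₀ p M A : ℝ} (h : Par E ϑ c ρ C₀ p M A)
    (cX κ : ℝ) :
    ∃ C : ℝ, 0 < C ∧ ∀ (ν : Measure E) (u : E → ℂ), HU ν u M A p C₀ → ∀ (k : ℕ),
      DifferentiableOn ℂ (XX μ m ν u ϑ c ρ cX κ k) (ball 0 (RA (ϑ ^ 32) k)) ∧
      ∀ z : E, ‖z‖ ≤ RB (ϑ ^ 32) k →
        ‖XX μ m ν u ϑ c ρ cX κ k z - 1‖ ≤ C * xk (ϑ ^ 32) k z ^ (7 / 8 : ℝ) := by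
  obtain ⟨C₁, hC₁, hb⟩ := La_est μ hm hdim h
  obtain ⟨C₂, hC₂⟩ : ∃ C₂, C₂ = |cX| * C₁ + |κ| * (64 / ϑ ^ 32 * |A| * 2 * 2) := ⟨_, rfl⟩
  have hC₂0 : 0 ≤ C₂ := by rw [hC₂]; have := h.θ0; positivity
  refine ⟨C₂ * Real.exp (C₂ * 4) + 1, by positivity, ?_⟩
  intro ν u hu k
  obtain ⟨hdL, -, hL⟩ := hb ν u hu k
  have hA : 0 ≤ A := hu.carl.1
  have hRC := RA_lt_RC h.θ0 k
  constructor
  · have hmem : ∀ i ≤ k + 1, MapsTo (fun w : E => (rt (ϑ ^ 32) i : ℂ) • w)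
        (ball 0 (RA (ϑ ^ 32) k)) (ball 0 1) := by
      intro i hi w hw
      exact rt_smul_mem h.θ0 h.θ1 hi ((mem_ball_zero_iff.mp hw).trans hRC)
    have hD : ∀ i ≤ k + 1, DifferentiableOn ℂ (fun w : E => DD ν ((rt (ϑ ^ 32) i : ℂ) • w))
        (ball 0 (RA (ϑ ^ 32) k)) := by
      intro i hi
      exact (DD_diff hu.carl).comp (by fun_prop) (hmem i hi)
    unfold XX
    exact ((hdL.const_mul _).sub (((hD _ le_rfl).sub (hD _ (Nat.le_succ k))).const_mul _)).cexp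
  · intro z hz
    have hzC : ‖z‖ < RC (ϑ ^ 32) k := hz.trans_lt ((RB_lt_RA h.θ0 k).trans hRC)
    have a1 := hL z hz
    have a2 := DD_est h.θ0 h.θ1 hu.carl hzC
    obtain ⟨a3, -, a4⟩ := xk_le_pow h.θ0 h.θ1 hzC
    have a5 := xk_pos h.θ0 h.θ1 hzC
    have hθ := h.θ0
    have hy : ‖(cX : ℂ) * La μ m ν u ϑ c ρ k z - (κ : ℂ) *
        (DD ν ((rt (ϑ ^ 32) (k + 1) : ℂ) • z) - DD ν ((rt (ϑ ^ 32) k : ℂ) • z))‖ ≤
        C₂ * xk (ϑ ^ 32) k z ^ (7 / 8 : ℝ) := by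
      refine (norm_sub_le _ _).trans ?_
      rw [norm_mul, norm_mul, Complex.norm_real, Complex.norm_real, Real.norm_eq_abs,
        Real.norm_eq_abs, hC₂, abs_of_nonneg hA]
      calc |cX| * ‖La μ m ν u ϑ c ρ k z‖ + |κ| *
            ‖DD ν ((rt (ϑ ^ 32) (k + 1) : ℂ) • z) - DD ν ((rt (ϑ ^ 32) k : ℂ) • z)‖ ≤
          |cX| * (C₁ * xk (ϑ ^ 32) k z ^ (7 / 8 : ℝ)) + |κ| *
            (64 / ϑ ^ 32 * A * 2 * (2 * xk (ϑ ^ 32) k z ^ (7 / 8 : ℝ))) := by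
            gcongr
            exact a2.trans (by gcongr)
        _ = _ := by ring
    have hy4 : C₂ * xk (ϑ ^ 32) k z ^ (7 / 8 : ℝ) ≤ C₂ * 4 := by gcongr
    unfold XX
    refine (exp_sub_one_le _).trans ?_
    calc _ ≤ C₂ * xk (ϑ ^ 32) k z ^ (7 / 8 : ℝ) * Real.exp (C₂ * 4) := by
          apply mul_le_mul hy (Real.exp_le_exp.mpr (hy.trans hy4)) (Real.exp_pos _).le
            (by positivity)
      _ = C₂ * Real.exp (C₂ * 4) * xk (ϑ ^ 32) k z ^ (7 / 8 : ℝ) := by ring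
      _ ≤ _ := by
          gcongr
          linarith

end Pool.Agent.MPca0fc2.PT
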