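import Mathlib
import Pool.Agent.Lib.MP_ca0fc2_an.PTX2

set_option autoImplicit false

open Metric Set MeasureTheory Filter Topology
open scoped InnerProductSpace ENNReal

namespace Pool.Agent.MPca0fc2.QT

open Pool.Agent.MPca0fc2.PT

variable {E : Type*} [NormedAddCommGroup E] [InnerProductSpace ℂ E]
variable {Y : Type*} [NormedAddCommGroup Y] [NormedSpace ℂ Y]

/-- a mean value inequality on a real segment of the complex plane, from Cauchy estimates -/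
theorem QTLoc_seg {g : ℂ → Y} {a b R K : ℝ} (hab : a ≤ b) (hR : 0 < R)
    (hd : ∀ t ∈ Icc a b, ∀ ζ : ℂ, ‖ζ - (t : ℂ)‖ ≤ R → DifferentiableAt ℂ g ζ ∧ ‖g ζ‖ ≤ K)
    {t : ℝ} (ht : t ∈ Icc a b) : ‖g (t : ℂ) - g (a : ℂ)‖ ≤ K / R * (t - a) := by
  have hconv : Convex ℝ ((fun x : ℝ => (x : ℂ)) '' Icc a b) := by
    have := (convex_Icc a b).linear_image (Complex.ofRealLI.toLinearMap)
    exact this
  have key := Convex.norm_image_sub_le_of_norm_deriv_le (𝕜 := ℂ) (f := g) (C := K / R)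
    (s := (fun x : ℝ => (x : ℂ)) '' Icc a b) (x := (a : ℂ)) (y := (t : ℂ)) ?_ ?_ hconv
    ⟨a, ⟨le_rfl, hab⟩, rfl⟩ ⟨t, ht, rfl⟩
  · refine key.trans (le_of_eq ?_)
    rw [← Complex.ofReal_sub, Complex.norm_real, Real.norm_eq_abs,
      abs_of_nonneg (by linarith [ht.1])]
  · rintro _ ⟨x, hx, rfl⟩
    exact (hd x hx _ (by simpa using hR.le)).1
  · rintro _ ⟨x, hx, rfl⟩
    refine Complex.norm_deriv_le_of_forall_mem_sphere_norm_le hR ?_ ?_
    · refine DifferentiableOn.diffContOnCl ?_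
      intro ζ hζ
      rw [closure_ball _ hR.ne'] at hζ
      exact (hd x hx ζ (by simpa [dist_eq_norm] using hζ)).1.differentiableWithinAt
    · intro ζ hζ
      exact (hd x hx ζ (by
        have : ‖ζ - (x : ℂ)‖ = R := by simpa [dist_eq_norm] using hζ
        exact this.le)).2

/-- Lipschitz estimate for bounded holomorphic maps on the cells of bounded functions -/
theorem cell_lip {θ : ℝ} (h0 : 0 < θ) (h1 : θ < 1) (d : ℕ) {M ρ₀ C₁ : ℝ} (hM : 1 ≤ M)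
    (hρ₀ : 0 < ρ₀) (hC₁ : 0 ≤ C₁) (hs : 2000 * M / θ * (1 - θ) ≤ ρ₀ / 8) :
    ∃ C : ℝ, 0 < C ∧ ∀ (u : Fin d → E → ℂ) (c : Fin d → ℂ) (s : E → Y),
      (∀ j, DifferentiableOn ℂ (u j) (ball 0 1)) → (∀ j, ∀ z ∈ ball (0 : E) 1, ‖u j z‖ ≤ M) →
      DifferentiableOn ℂ s {z | z ∈ ball (0 : E) 1 ∧ ∀ j, ‖u j z - c j‖ < ρ₀} →
      (∀ z ∈ ball (0 : E) 1, (∀ j, ‖u j z - c j‖ < ρ₀) → ‖s z‖ ≤ C₁) →
      ∀ (k : ℕ) (w : E), ‖w‖ < RC θ k → (∀ j, ‖uk (u j) θ k w - c j‖ < ρ₀ / 2) →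
        ‖s ((rt θ (k + 1) : ℂ) • w) - s ((rt θ k : ℂ) • w)‖ ≤ C * xk θ k w := by
  obtain ⟨a, ha⟩ : ∃ a : ℝ, a = min (1 / 2) (ρ₀ / (12 * M)) := ⟨_, rfl⟩
  have ha0 : 0 < a := by
    rw [ha]
    exact lt_min (by norm_num) (by positivity)
  have ha2 : a ≤ 1 / 2 := by rw [ha]; exact min_le_left _ _
  have ha3 : 3 * M * a ≤ ρ₀ / 4 := by
    have : a ≤ ρ₀ / (12 * M) := by rw [ha]; exact min_le_right _ _
    calc 3 * M * a ≤ 3 * M * (ρ₀ / (12 * M)) := by gcongr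
      _ = ρ₀ / 4 := by field_simp; ring
  refine ⟨256 * C₁ / (a * θ) + 1, by positivity, ?_⟩
  intro u c s hu hub hsd hsb k w hw hk
  have hrt := rt_nonneg h0 h1 k
  have hrk : rt θ (k + 1) - rt θ k = θ ^ k * (1 - θ) := by unfold rt; ring
  have hθk : 0 < θ ^ k := by positivity
  have h1θ : 0 < 1 - θ := by linarith
  have hrr : rt θ k ≤ rt θ (k + 1) := by
    have : 0 ≤ θ ^ k * (1 - θ) := by positivity
    linarith
  have hw2 : ‖w‖ ≤ 7 / 4 := by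
    have : RC θ k ≤ 7 / 4 := by
      unfold RC
      have := pow_le_one₀ (n := k + 1) h0.le h1.le
      linarith
    linarith
  have hwn := norm_nonneg w
  have hδ : 0 < 1 - rt θ (k + 1) * ‖w‖ := by
    have := rt_mul_lt h0 h1 (le_refl (k + 1)) hw
    linarith
  obtain ⟨R, hR⟩ : ∃ R : ℝ, R = (1 - rt θ (k + 1) * ‖w‖) / 2 := ⟨_, rfl⟩
  have hR0 : 0 < R := by rw [hR]; linarith
  -- the depth
  have hdl : dl θ k w ≤ 256 / θ * R := by
    have h := one_sub_rt h0 h1 hw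
    have e1 : dl θ k w = (1 - rt θ k * ‖w‖) * (1 + rt θ k * ‖w‖) := by unfold dl; ring
    have h5 := rt_mul_lt h0 h1 (Nat.le_succ k) hw
    have h6 : 0 ≤ rt θ k * ‖w‖ := by positivity
    have h7 : dl θ k w ≤ 2 * (1 - rt θ k * ‖w‖) := by
      rw [e1]
      nlinarith
    calc dl θ k w ≤ 2 * (64 / θ * (1 - rt θ (k + 1) * ‖w‖)) := by linarith
      _ = 256 / θ * R := by rw [hR]; ring
  have hdl0 := dl_pos h0 h1 hw
  have hxk0 := xk_pos h0 h1 hw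
  have hxk4 := xk_le h0 h1 hw
  have hxR : θ ^ k / R ≤ 256 / θ * xk θ k w := by
    unfold xk
    rw [div_le_iff₀ hR0, mul_assoc, div_mul_eq_mul_div (θ ^ k), mul_div_assoc']
    rw [le_div_iff₀ hdl0]
    nlinarith [mul_le_mul_of_nonneg_left hdl hθk.le]
  -- points of the discs
  have hball : ∀ t ∈ Icc (rt θ k) (rt θ (k + 1)), ∀ ζ : ℂ, ‖ζ - (t : ℂ)‖ ≤ R →
      ζ • w ∈ ball (0 : E) 1 := by
    intro t ht ζ hζ
    rw [mem_ball_zero_iff, norm_smul]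
    have ht0 : 0 ≤ t := hrt.trans ht.1
    have : ‖ζ‖ ≤ t + R := by
      calc ‖ζ‖ = ‖(t : ℂ) + (ζ - (t : ℂ))‖ := by congr 1; ring
        _ ≤ ‖(t : ℂ)‖ + ‖ζ - (t : ℂ)‖ := norm_add_le _ _
        _ ≤ t + R := by
          rw [Complex.norm_real, Real.norm_eq_abs, abs_of_nonneg ht0]
          linarith
    calc ‖ζ‖ * ‖w‖ ≤ (t + R) * ‖w‖ := by gcongr
      _ ≤ (rt θ (k + 1) + R) * ‖w‖ := by gcongr; exact ht.2
      _ = rt θ (k + 1) * ‖w‖ + R * ‖w‖ := by ring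
      _ ≤ rt θ (k + 1) * ‖w‖ + R * (7 / 4) := by gcongr
      _ < 1 := by rw [hR]; linarith
  have hf : ∀ j, ∀ t ∈ Icc (rt θ k) (rt θ (k + 1)), ∀ ζ : ℂ, ‖ζ - (t : ℂ)‖ ≤ R →
      DifferentiableAt ℂ (fun ζ : ℂ => u j (ζ • w)) ζ ∧ ‖u j (ζ • w)‖ ≤ M := by
    intro j t ht ζ hζ
    have hb := hball t ht ζ hζ
    refine ⟨?_, hub j _ hb⟩
    exact DifferentiableAt.comp ζ ((hu j).differentiableAt (isOpen_ball.mem_nhds hb))
      (by fun_prop)
  -- on the segment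
  have hseg : ∀ j, ∀ t ∈ Icc (rt θ k) (rt θ (k + 1)),
      ‖u j ((t : ℂ) • w) - c j‖ < ρ₀ / 2 + ρ₀ / 8 := by
    intro j t ht
    have h3 : ‖u j ((t : ℂ) • w) - u j ((rt θ k : ℂ) • w)‖ ≤ M / R * (t - rt θ k) :=
      QTLoc_seg (g := fun ζ : ℂ => u j (ζ • w)) hrr hR0 (hf j) ht
    have h4 : M / R * (t - rt θ k) ≤ ρ₀ / 8 := by
      have h5 : t - rt θ k ≤ θ ^ k * (1 - θ) := by rw [← hrk]; linarith [ht.2]
      calc M / R * (t - rt θ k) ≤ M / R * (θ ^ k * (1 - θ)) := by gcongr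
        _ = M * (1 - θ) * (θ ^ k / R) := by ring
        _ ≤ M * (1 - θ) * (256 / θ * xk θ k w) := by gcongr
        _ ≤ M * (1 - θ) * (256 / θ * 4) := by gcongr
        _ ≤ 2000 * M / θ * (1 - θ) := by
          have : 0 ≤ M / θ * (1 - θ) := by positivity
          calc M * (1 - θ) * (256 / θ * 4) = 1024 * (M / θ * (1 - θ)) := by ring
            _ ≤ 2000 * (M / θ * (1 - θ)) := by linarith
            _ = _ := by ring
        _ ≤ ρ₀ / 8 := hs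
    have h6 := hk j
    unfold uk at h6
    calc ‖u j ((t : ℂ) • w) - c j‖ =
        ‖(u j ((rt θ k : ℂ) • w) - c j) + (u j ((t : ℂ) • w) - u j ((rt θ k : ℂ) • w))‖ := by
          congr 1; ring
      _ ≤ ‖u j ((rt θ k : ℂ) • w) - c j‖ + ‖u j ((t : ℂ) • w) - u j ((rt θ k : ℂ) • w)‖ :=
          norm_add_le _ _
      _ < _ := by linarith
  -- on the small discs
  have hdisc : ∀ t ∈ Icc (rt θ k) (rt θ (k + 1)), ∀ ζ : ℂ, ‖ζ - (t : ℂ)‖ ≤ a * R →
      ∀ j, ‖u j (ζ • w) - c j‖ < ρ₀ := by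
    intro t ht ζ hζ j
    have h3 : dist (u j (ζ • w)) (u j ((t : ℂ) • w)) ≤ 3 * M / R * dist ζ (t : ℂ) := by
      refine Complex.dist_le_div_mul_dist_of_mapsTo_ball
        (f := fun ζ : ℂ => u j (ζ • w)) (c := (t : ℂ)) (R₁ := R) (R₂ := 3 * M) ?_ ?_ ?_
      · intro x hx
        exact (hf j t ht x (by
          have := mem_ball_iff_norm.mp hx
          exact this.le)).1.differentiableWithinAt
      · intro x hx
        have b1 := (hf j t ht x (mem_ball_iff_norm.mp hx).le).2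
        have b2 := (hf j t ht (t : ℂ) (by simpa using hR0.le)).2
        rw [mem_closedBall_iff_norm]
        calc _ ≤ _ := norm_sub_le _ _
          _ ≤ M + M := add_le_add b1 b2
          _ ≤ 3 * M := by linarith
      · rw [mem_ball_iff_norm]
        nlinarith
    rw [dist_eq_norm, dist_eq_norm] at h3
    have h4 : 3 * M / R * ‖ζ - (t : ℂ)‖ ≤ ρ₀ / 4 := by
      calc 3 * M / R * ‖ζ - (t : ℂ)‖ ≤ 3 * M / R * (a * R) := by gcongr
        _ = 3 * M * a := by field_simp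
        _ ≤ _ := ha3
    have h5 := hseg j t ht
    calc ‖u j (ζ • w) - c j‖ =
        ‖(u j ((t : ℂ) • w) - c j) + (u j (ζ • w) - u j ((t : ℂ) • w))‖ := by
          congr 1; ring
      _ ≤ ‖u j ((t : ℂ) • w) - c j‖ + ‖u j (ζ • w) - u j ((t : ℂ) • w)‖ := norm_add_le _ _
      _ < _ := by linarith
  have hopen : IsOpen {z : E | z ∈ ball (0 : E) 1 ∧ ∀ j, ‖u j z - c j‖ < ρ₀} := by
    have e : {z : E | z ∈ ball (0 : E) 1 ∧ ∀ j, ‖u j z - c j‖ < ρ₀} =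
        ball (0 : E) 1 ∩ ⋂ j, {z : E | z ∈ ball (0 : E) 1 ∧ u j z ∈ ball (c j) ρ₀} := by
      ext z
      simp only [mem_ofPred_eq, mem_inter_iff, mem_iInter, mem_ball_iff_norm]
      constructor
      · rintro ⟨hz, hz2⟩
        exact ⟨hz, fun j => ⟨hz, hz2 j⟩⟩
      · rintro ⟨hz, hz2⟩
        exact ⟨hz, fun j => (hz2 j).2⟩
    rw [e]
    refine isOpen_ball.inter (isOpen_iInter_of_finite fun j => ?_)
    exact (hu j).continuousOn.isOpen_inter_preimage isOpen_ball isOpen_ball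
  have haR : 0 < a * R := by positivity
  have hg := QTLoc_seg (g := fun ζ : ℂ => s (ζ • w)) (K := C₁) hrr haR (by
    intro t ht ζ hζ
    have hζR : ‖ζ - (t : ℂ)‖ ≤ R := hζ.trans (by nlinarith)
    have b1 := hball t ht ζ hζR
    have b2 := hdisc t ht ζ hζ
    refine ⟨?_, hsb _ b1 b2⟩
    exact DifferentiableAt.comp ζ (hsd.differentiableAt (hopen.mem_nhds ⟨b1, b2⟩))
      (by fun_prop)) (right_mem_Icc.mpr hrr)
  refine hg.trans ?_
  rw [hrk]
  have hC : C₁ / (a * R) * (θ ^ k * (1 - θ)) ≤ 256 * C₁ / (a * θ) * xk θ k w := by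
    calc C₁ / (a * R) * (θ ^ k * (1 - θ)) ≤ C₁ / (a * R) * (θ ^ k * 1) := by
          gcongr; linarith
      _ = C₁ / a * (θ ^ k / R) := by field_simp
      _ ≤ C₁ / a * (256 / θ * xk θ k w) := by gcongr
      _ = _ := by field_simp
  nlinarith

end Pool.Agent.MPca0fc2.QT
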