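import Mathlib
import Pool.Agent.Lib.MP_ca0fc2_an.Mg.G016
import Pool.Agent.Lib.MP_ca0fc2_an.Mg.G015
import Pool.Agent.Lib.MP_ca0fc2_an.QTXb
import Pool.Agent.Lib.MP_ca0fc2_an.QTXd

set_option autoImplicit false

open Metric Set MeasureTheory Filter Topology
open scoped InnerProductSpace ENNReal

namespace Pool.Agent.MPca0fc2.QT

open Pool.Agent.MPca0fc2.PT

/-- the exponent of the forms -/
noncomputable def ee (m P : ℕ) : ℝ := (4 * (m + 1) + 3) / P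

variable {E : Type*} [NormedAddCommGroup E] [InnerProductSpace ℂ E]
variable [FiniteDimensional ℂ E] [MeasurableSpace E] [BorelSpace E]
variable {V : Type*} [NormedAddCommGroup V] [NormedSpace ℂ V]
variable {ι : Type} [Fintype ι] {d N m : ℕ}
variable {θ ϑ : ℝ} {P : ℕ} {c ρ C₀ p M A ρ₀ C₁ L : ℝ}

theorem ParQ.Ppos (h : ParQ E m θ ϑ P c ρ C₀ p M A) : (0 : ℝ) < P := by
  have := h.P0
  positivity

theorem ParQ.P42 (h : ParQ E m θ ϑ P c ρ C₀ p M A) : (12 : ℝ) * (m + 1) + 18 ≤ P := by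
  have := h.hPm
  exact_mod_cast this

theorem ParQ.ee_nonneg (h : ParQ E m θ ϑ P c ρ C₀ p M A) : 0 ≤ ee m P := by
  have := h.Ppos
  unfold ee
  positivity

theorem ParQ.mul_ee (h : ParQ E m θ ϑ P c ρ C₀ p M A) : (P : ℝ) * ee m P = 4 * (m + 1) + 3 := by
  have := h.Ppos
  unfold ee
  field_simp

theorem ParQ.ee_le (h : ParQ E m θ ϑ P c ρ C₀ p M A) : ee m P ≤ 1 / 3 := by
  have h1 := h.Ppos
  have h2 := h.P42
  unfold ee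
  rw [div_le_iff₀ h1]
  have : (0 : ℝ) ≤ m := Nat.cast_nonneg m
  linarith

theorem ParQ.s_le (h : ParQ E m θ ϑ P c ρ C₀ p M A) : ((m + 1 : ℕ) : ℝ) * (4 / P) ≤ ee m P := by
  have h1 := h.Ppos
  unfold ee
  rw [← mul_div_assoc]
  gcongr
  push_cast
  linarith

theorem ParQ.s_le' (h : ParQ E m θ ϑ P c ρ C₀ p M A) : (4 / P : ℝ) ≤ 1 / 7 := by
  have h1 := h.Ppos
  have h2 := h.P42
  rw [div_le_iff₀ h1]
  have : (0 : ℝ) ≤ m := Nat.cast_nonneg m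
  linarith

/-- the bound of `SQ` -/
theorem ParQ.SQ_le' (h : ParQ E m θ ϑ P c ρ C₀ p M A) {ν : Measure E} (hc : Carl ν A) {k : ℕ}
    {w : E} (hw : ‖w‖ < RC θ k) : SQ ν θ ϑ k w ≤ |A| / (1 - ϑ ^ 2) := by
  rw [abs_of_nonneg hc.1]
  exact SQ_le h.θ0 h.θ1 h.h0 h.h1 hc hw

/-- products -/
theorem ParQ.prod (h : ParQ E m θ ϑ P c ρ C₀ p M A) {ν : Measure E} (hc : Carl ν A) {k : ℕ}
    {w : E} (hw : ‖w‖ < RC θ k) {G : ℝ} (hG : 0 ≤ G) {r : ℕ} (hr : r + 1 ≤ m + 1)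
    (v : Fin (r + 1) → E) :
    ∏ i, (G * (xk θ k w ^ (-(4 / P : ℝ)) * SQ ν θ ϑ k w * gau (dl θ k w) w (v i))) ≤
      (G ^ (r + 1) * (|A| / (1 - ϑ ^ 2)) ^ r * (4 : ℝ) ^ ee m P) * xk θ k w ^ (-ee m P) *
        SQ ν θ ϑ k w * ∏ i, gau (dl θ k w) w (v i) := by
  have h1 := h.Ppos
  exact prod_level (xk_pos h.θ0 h.θ1 hw) (xk_le h.θ0 h.θ1 hw) (by positivity) hG
    (SQ_nonneg h.h0 ν k w) (h.SQ_le' hc hw) hr h.s_le _
    (fun i => PT.gau_nonneg (dl_pos h.θ0 h.θ1 hw).le w (v i))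

theorem nonneg_q (h : ParQ E m θ ϑ P c ρ C₀ p M A) : 0 < 1 - ϑ ^ 2 := by
  have := pow_lt_one₀ h.h0.le h.h1 (two_ne_zero)
  linarith

theorem UU_zero (hdim : Module.finrank ℂ E = m + 1) (K : Car (Fin N → ℂ) V) (σ : E → Fin N → ℂ)
    (w : E) {r : ℕ} (hr : m + 1 < r) : UU K σ r w = 0 :=
  Anti.eq_zero (by rw [hdim]; exact hr) (Anti.UU K σ w r)

theorem JJ_zero (hdim : Module.finrank ℂ E = m + 1) (K : Car (Fin N → ℂ) V)
    (σ σ' : E → Fin N → ℂ) (w : E) {r : ℕ} (hr : m + 1 < r) : JJ K σ σ' r w = 0 :=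
  Anti.eq_zero (by rw [hdim]; exact hr) (Anti.JJ K σ σ' w r)

/-- uniform constants -/
theorem unif {Q : ℕ → ℝ → Prop} {n : ℕ} (h : ∀ r, r ≤ n → ∃ C, Q r C)
    (hm : ∀ r C C', Q r C → C ≤ C' → Q r C') : ∃ C, 0 < C ∧ ∀ r, r ≤ n → Q r C := by
  choose! C hC using h
  refine ⟨∑ r ∈ Finset.range (n + 1), |C r| + 1, by positivity, ?_⟩
  intro r hr
  refine hm r _ _ (hC r hr) ?_
  have : |C r| ≤ ∑ r ∈ Finset.range (n + 1), |C r| :=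
    Finset.single_le_sum (f := fun r => |C r|) (fun i _ => abs_nonneg _)
      (Finset.mem_range.mpr (by omega))
  have := le_abs_self (C r)
  linarith

theorem Ud_bd (h : ParQ E m θ ϑ P c ρ C₀ p M A) (hρρ : 64 * ρ ≤ ρ₀) (hL : 0 ≤ L)
    (hC₁ : 0 ≤ C₁) (hdim : Module.finrank ℂ E = m + 1) (K : Car (Fin N → ℂ) V)
    (cc : ι → Fin d → ℂ) (χ : ι → (Fin d → ℂ) → ℝ) :
    ∃ C : ℝ, 0 < C ∧ ∀ (ν : Measure E) (f : Fin N → E → ℂ) (u : Fin d → E → ℂ)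
      (s : ι → E → Fin N → ℂ), Dat ν f u s cc χ M A p C₀ ρ₀ C₁ L → ∀ (k r : ℕ),
      Bd ν θ ϑ k (RC θ k) C (1 - ee m P) (fun w =>
        UU K (sk χ ν u θ ϑ c ρ s k (k + 1)) (r + 1) w - UU K (sk χ ν u θ ϑ c ρ s k k) (r + 1) w) := by
  obtain ⟨G1, hG1, h1⟩ := sk_D01 (N := N) h hρρ hL hC₁ cc χ
  obtain ⟨G2, hG2, h2⟩ := sk_data (N := N) h hρρ hL hC₁ cc χ
  have hq := nonneg_q h
  have key : ∀ r, r ≤ m → ∃ C : ℝ, ∀ (ν : Measure E) (f : Fin N → E → ℂ) (u : Fin d → E → ℂ)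
      (s : ι → E → Fin N → ℂ), Dat ν f u s cc χ M A p C₀ ρ₀ C₁ L → ∀ (k : ℕ),
      Bd ν θ ϑ k (RC θ k) C (1 - ee m P) (fun w =>
        UU K (sk χ ν u θ ϑ c ρ s k (k + 1)) (r + 1) w -
          UU K (sk χ ν u θ ϑ c ρ s k k) (r + 1) w) := by
    intro r hr
    obtain ⟨C, hC, hU⟩ := UU_diff (E := E) K (r + 1)
    refine ⟨C * G2 * (Fintype.card ι * C₁ + 1) *
      ((G1 + 1) ^ (r + 1) * (|A| / (1 - ϑ ^ 2)) ^ r * (4 : ℝ) ^ ee m P), ?_⟩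
    intro ν f u s D k w hw v
    have hx := xk_pos h.θ0 h.θ1 hw
    have hS := SQ_nonneg (θ := θ) h.h0 ν k w
    have hg : ∀ v, 0 ≤ gau (dl θ k w) w v := fun v => PT.gau_nonneg (dl_pos h.θ0 h.θ1 hw).le w v
    have hz : ∀ v, 0 ≤ xk θ k w ^ (-(4 / P : ℝ)) * SQ ν θ ϑ k w * gau (dl θ k w) w v := fun v => by
      have := hg v
      positivity
    obtain ⟨a1, a2⟩ := h2 ν f u s D k w hw
    have b1 := hU (sk χ ν u θ ϑ c ρ s k k) (sk χ ν u θ ϑ c ρ s k (k + 1)) w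
      (fun v => (G1 + 1) * (xk θ k w ^ (-(4 / P : ℝ)) * SQ ν θ ϑ k w * gau (dl θ k w) w v))
      (G2 * xk θ k w) (Fintype.card ι * C₁ + 1)
      (fun v => (h1 ν f u s D k k (Or.inl rfl) w hw v).trans
        (mul_le_mul_of_nonneg_right (by linarith) (hz v)))
      (fun v => (h1 ν f u s D k (k + 1) (Or.inr rfl) w hw v).trans
        (mul_le_mul_of_nonneg_right (by linarith) (hz v)))
      (fun v => (a2 v).trans (by
        apply mul_le_mul_of_nonneg_left _ (by positivity)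
        have := hz v
        nlinarith))
      ((sk_norm h hρρ D (Or.inl rfl) hw).trans (by linarith))
      ((sk_norm h hρρ D (Or.inr rfl) hw).trans (by linarith))
      (a1.trans (by
        have : 0 ≤ (Fintype.card ι : ℝ) * C₁ := by positivity
        have : 0 ≤ G2 * xk θ k w := by positivity
        nlinarith))
      (by positivity) v
    refine b1.trans ?_
    have b2 := h.prod D.carl hw (G := G1 + 1) (by linarith) (r := r) (by omega) v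
    have hxe : xk θ k w ^ (1 - ee m P) = xk θ k w * xk θ k w ^ (-ee m P) := by
      rw [sub_eq_add_neg, Real.rpow_add hx, Real.rpow_one]
    calc _ ≤ C * (G2 * xk θ k w) * (Fintype.card ι * C₁ + 1) *
          (((G1 + 1) ^ (r + 1) * (|A| / (1 - ϑ ^ 2)) ^ r * (4 : ℝ) ^ ee m P) *
            xk θ k w ^ (-ee m P) * SQ ν θ ϑ k w * ∏ i, gau (dl θ k w) w (v i)) := by
          apply mul_le_mul_of_nonneg_left b2 (by positivity)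
      _ = _ := by rw [hxe]; ring
  obtain ⟨C, hC, hk⟩ := unif (Q := fun r C => ∀ (ν : Measure E) (f : Fin N → E → ℂ)
      (u : Fin d → E → ℂ) (s : ι → E → Fin N → ℂ), Dat ν f u s cc χ M A p C₀ ρ₀ C₁ L → ∀ (k : ℕ),
      Bd ν θ ϑ k (RC θ k) C (1 - ee m P) (fun w =>
        UU K (sk χ ν u θ ϑ c ρ s k (k + 1)) (r + 1) w -
          UU K (sk χ ν u θ ϑ c ρ s k k) (r + 1) w)) key
    (fun r C C' hC hCC ν f u s D k => (hC ν f u s D k).mono h.θ0 h.θ1 h.h0 le_rfl hCC)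
  refine ⟨C, hC, ?_⟩
  intro ν f u s D k r
  rcases le_or_gt r m with hr | hr
  · exact hk r hr ν f u s D k
  · apply (Bd.zero h.θ0 h.θ1 h.h0 le_rfl hC.le).congr
    intro w hw
    rw [UU_zero hdim K _ w (by omega), UU_zero hdim K _ w (by omega), sub_zero]

theorem U_bd (h : ParQ E m θ ϑ P c ρ C₀ p M A) (hρρ : 64 * ρ ≤ ρ₀) (hL : 0 ≤ L)
    (hC₁ : 0 ≤ C₁) (K : Car (Fin N → ℂ) V)
    (cc : ι → Fin d → ℂ) (χ : ι → (Fin d → ℂ) → ℝ) :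
    ∃ C : ℝ, 0 < C ∧ ∀ (ν : Measure E) (f : Fin N → E → ℂ) (u : Fin d → E → ℂ)
      (s : ι → E → Fin N → ℂ), Dat ν f u s cc χ M A p C₀ ρ₀ C₁ L → ∀ (k : ℕ),
      Bd ν θ ϑ k (RC θ k) C (-ee m P) (fun w => UU K (sk χ ν u θ ϑ c ρ s k k) 1 w) := by
  obtain ⟨G1, hG1, h1⟩ := sk_D01 (N := N) h hρρ hL hC₁ cc χ
  have hq := nonneg_q h
  obtain ⟨C, hC, hU⟩ := UU_bound (E := E) K 1
  refine ⟨C * (Fintype.card ι * C₁ + 1) * (G1 ^ (0 + 1) * (|A| / (1 - ϑ ^ 2)) ^ 0 *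
    (4 : ℝ) ^ ee m P), by positivity, ?_⟩
  intro ν f u s D k w hw v
  have hx := xk_pos h.θ0 h.θ1 hw
  have hS := SQ_nonneg (θ := θ) h.h0 ν k w
  have hg : ∀ v, 0 ≤ gau (dl θ k w) w v := fun v => PT.gau_nonneg (dl_pos h.θ0 h.θ1 hw).le w v
  have b1 := hU (sk χ ν u θ ϑ c ρ s k k) w
    (fun v => G1 * (xk θ k w ^ (-(4 / P : ℝ)) * SQ ν θ ϑ k w * gau (dl θ k w) w v))
    (fun v => h1 ν f u s D k k (Or.inl rfl) w hw v) v
  refine b1.trans ?_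
  have b2 := h.prod D.carl hw (G := G1) hG1.le (r := 0) (by omega) v
  have b3 := (sk_norm h hρρ D (Or.inl rfl) hw).trans
    (show (Fintype.card ι : ℝ) * C₁ ≤ Fintype.card ι * C₁ + 1 by linarith)
  have b4 : 0 ≤ ∏ i, (G1 * (xk θ k w ^ (-(4 / P : ℝ)) * SQ ν θ ϑ k w * gau (dl θ k w) w (v i))) :=
    Finset.prod_nonneg fun i _ => by have := hg (v i); positivity
  calc _ ≤ C * (Fintype.card ι * C₁ + 1) *
        ∏ i, (G1 * (xk θ k w ^ (-(4 / P : ℝ)) * SQ ν θ ϑ k w * gau (dl θ k w) w (v i))) := by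
        gcongr
    _ ≤ C * (Fintype.card ι * C₁ + 1) * ((G1 ^ (0 + 1) * (|A| / (1 - ϑ ^ 2)) ^ 0 *
        (4 : ℝ) ^ ee m P) * xk θ k w ^ (-ee m P) * SQ ν θ ϑ k w *
          ∏ i, gau (dl θ k w) w (v i)) := by
        apply mul_le_mul_of_nonneg_left b2 (by positivity)
    _ = _ := by ring

theorem J_D01 (h : ParQ E m θ ϑ P c ρ C₀ p M A) (hρρ : 64 * ρ ≤ ρ₀) (hL : 0 ≤ L)
    (hC₁ : 0 ≤ C₁) (cc : ι → Fin d → ℂ) (χ : ι → (Fin d → ℂ) → ℝ) :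
    ∃ G : ℝ, 0 < G ∧ ∀ (ν : Measure E) (f : Fin N → E → ℂ) (u : Fin d → E → ℂ)
      (s : ι → E → Fin N → ℂ), Dat ν f u s cc χ M A p C₀ ρ₀ C₁ L → ∀ (k : ℕ) (w : E),
      ‖w‖ < RC θ (k + 1) → ∀ v : E,
      ‖D01 (sk χ ν u θ ϑ c ρ s k (k + 1)) w v‖ ≤ G * (xk θ (k + 1) w ^ (-(4 / P : ℝ)) *
        SQ ν θ ϑ (k + 1) w * gau (dl θ (k + 1) w) w v) ∧
      ‖D01 (sk χ ν u θ ϑ c ρ s (k + 1) (k + 1)) w v‖ ≤ G * (xk θ (k + 1) w ^ (-(4 / P : ℝ)) *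
        SQ ν θ ϑ (k + 1) w * gau (dl θ (k + 1) w) w v) := by
  obtain ⟨G1, hG1, h1⟩ := sk_D01 (N := N) h hρρ hL hC₁ cc χ
  refine ⟨G1, hG1, ?_⟩
  intro ν f u s D k w hw v
  have hw' : ‖w‖ < RC θ k := hw.trans_le (by simpa using RC_succ_le h.θ0 h.θ1 (k + 1))
  refine ⟨?_, h1 ν f u s D (k + 1) (k + 1) (Or.inl rfl) w hw v⟩
  refine (h1 ν f u s D k (k + 1) (Or.inr rfl) w hw' v).trans ?_
  apply mul_le_mul_of_nonneg_left _ hG1.le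
  have hP := h.Ppos
  have e1 : (P : ℝ) * (4 / P) = 4 := by field_simp
  refine (level_le (ν := ν) h.h0 h.h1 h.hP (a := 4 / P) (by rw [e1]; norm_num)
    (h.s_le'.trans (by norm_num)) hw v).trans ?_
  have hx := xk_pos h.θ0 h.θ1 hw
  have hS := SQ_nonneg (θ := θ) h.h0 ν (k + 1) w
  have hg := PT.gau_nonneg (dl_pos h.θ0 h.θ1 hw).le w v
  have h2 : ϑ ^ ((P : ℝ) * (4 / P) - 2) ≤ 1 := by
    rw [e1]
    exact Real.rpow_le_one h.h0.le h.h1.le (by norm_num)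
  calc _ ≤ 1 * (xk θ (k + 1) w ^ (-(4 / P : ℝ)) * SQ ν θ ϑ (k + 1) w *
        gau (dl θ (k + 1) w) w v) := by
        apply mul_le_mul_of_nonneg_right h2 (by positivity)
    _ = _ := one_mul _

theorem J_bd (h : ParQ E m θ ϑ P c ρ C₀ p M A) (hρρ : 64 * ρ ≤ ρ₀) (hL : 0 ≤ L)
    (hC₁ : 0 ≤ C₁) (hdim : Module.finrank ℂ E = m + 1) (K : Car (Fin N → ℂ) V)
    (cc : ι → Fin d → ℂ) (χ : ι → (Fin d → ℂ) → ℝ) :
    ∃ C : ℝ, 0 < C ∧ ∀ (ν : Measure E) (f : Fin N → E → ℂ) (u : Fin d → E → ℂ)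
      (s : ι → E → Fin N → ℂ), Dat ν f u s cc χ M A p C₀ ρ₀ C₁ L → ∀ (k r : ℕ),
      Bd ν θ ϑ (k + 1) (RC θ (k + 1)) C (-ee m P)
        (JJ K (sk χ ν u θ ϑ c ρ s k (k + 1)) (sk χ ν u θ ϑ c ρ s (k + 1) (k + 1)) (r + 1)) := by
  obtain ⟨G, hG, h1⟩ := J_D01 (N := N) h hρρ hL hC₁ cc χ
  have hq := nonneg_q h
  have key : ∀ r, r ≤ m → ∃ C : ℝ, ∀ (ν : Measure E) (f : Fin N → E → ℂ) (u : Fin d → E → ℂ)
      (s : ι → E → Fin N → ℂ), Dat ν f u s cc χ M A p C₀ ρ₀ C₁ L → ∀ (k : ℕ),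
      Bd ν θ ϑ (k + 1) (RC θ (k + 1)) C (-ee m P)
        (JJ K (sk χ ν u θ ϑ c ρ s k (k + 1)) (sk χ ν u θ ϑ c ρ s (k + 1) (k + 1)) (r + 1)) := by
    intro r hr
    obtain ⟨C, hC, hU⟩ := JJ_bound (E := E) K (r + 1)
    refine ⟨C * (Fintype.card ι * C₁ + 1) * (2 * (Fintype.card ι * C₁)) *
      (G ^ (r + 1) * (|A| / (1 - ϑ ^ 2)) ^ r * (4 : ℝ) ^ ee m P), ?_⟩
    intro ν f u s D k w hw v
    have hw' : ‖w‖ < RC θ k := hw.trans_le (by simpa using RC_succ_le h.θ0 h.θ1 (k + 1))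
    have hx := xk_pos h.θ0 h.θ1 hw
    have hS := SQ_nonneg (θ := θ) h.h0 ν (k + 1) w
    have hg : ∀ v, 0 ≤ gau (dl θ (k + 1) w) w v := fun v =>
      PT.gau_nonneg (dl_pos h.θ0 h.θ1 hw).le w v
    have n1 := sk_norm h hρρ D (k := k) (l := k + 1) (Or.inr rfl) hw'
    have n2 := sk_norm h hρρ D (k := k + 1) (l := k + 1) (Or.inl rfl) hw
    have b1 := hU (sk χ ν u θ ϑ c ρ s k (k + 1)) (sk χ ν u θ ϑ c ρ s (k + 1) (k + 1)) w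
      (fun v => G * (xk θ (k + 1) w ^ (-(4 / P : ℝ)) * SQ ν θ ϑ (k + 1) w *
        gau (dl θ (k + 1) w) w v)) (Fintype.card ι * C₁ + 1)
      (fun v => (h1 ν f u s D k w hw v).1) (fun v => (h1 ν f u s D k w hw v).2)
      (n1.trans (by linarith)) v
    refine b1.trans ?_
    have b2 := h.prod D.carl hw (G := G) hG.le (r := r) (by omega) v
    have b3 : ‖sk χ ν u θ ϑ c ρ s (k + 1) (k + 1) w - sk χ ν u θ ϑ c ρ s k (k + 1) w‖ ≤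
        2 * (Fintype.card ι * C₁) := (norm_sub_le _ _).trans (by linarith)
    have b4 : 0 ≤ ∏ i, (G * (xk θ (k + 1) w ^ (-(4 / P : ℝ)) * SQ ν θ ϑ (k + 1) w *
        gau (dl θ (k + 1) w) w (v i))) :=
      Finset.prod_nonneg fun i _ => by have := hg (v i); positivity
    calc _ ≤ C * (Fintype.card ι * C₁ + 1) * (2 * (Fintype.card ι * C₁)) *
          ∏ i, (G * (xk θ (k + 1) w ^ (-(4 / P : ℝ)) * SQ ν θ ϑ (k + 1) w *
            gau (dl θ (k + 1) w) w (v i))) := by gcongr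
      _ ≤ C * (Fintype.card ι * C₁ + 1) * (2 * (Fintype.card ι * C₁)) *
          ((G ^ (r + 1) * (|A| / (1 - ϑ ^ 2)) ^ r * (4 : ℝ) ^ ee m P) *
            xk θ (k + 1) w ^ (-ee m P) * SQ ν θ ϑ (k + 1) w *
              ∏ i, gau (dl θ (k + 1) w) w (v i)) := by
          apply mul_le_mul_of_nonneg_left b2 (by positivity)
      _ = _ := by ring
  obtain ⟨C, hC, hk⟩ := unif (Q := fun r C => ∀ (ν : Measure E) (f : Fin N → E → ℂ)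
      (u : Fin d → E → ℂ) (s : ι → E → Fin N → ℂ), Dat ν f u s cc χ M A p C₀ ρ₀ C₁ L → ∀ (k : ℕ),
      Bd ν θ ϑ (k + 1) (RC θ (k + 1)) C (-ee m P)
        (JJ K (sk χ ν u θ ϑ c ρ s k (k + 1)) (sk χ ν u θ ϑ c ρ s (k + 1) (k + 1)) (r + 1))) key
    (fun r C C' hC hCC ν f u s D k => (hC ν f u s D k).mono h.θ0 h.θ1 h.h0 le_rfl hCC)
  refine ⟨C, hC, ?_⟩
  intro ν f u s D k r
  rcases le_or_gt r m with hr | hr
  · exact hk r hr ν f u s D k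
  · apply (Bd.zero h.θ0 h.θ1 h.h0 le_rfl hC.le).congr
    intro w hw
    exact JJ_zero hdim K _ _ w (by omega)

theorem J0_bd (h : ParQ E m θ ϑ P c ρ C₀ p M A) (hρρ : 64 * ρ ≤ ρ₀) (hL : 0 ≤ L)
    (hC₁ : 0 ≤ C₁) (K : Car (Fin N → ℂ) V)
    (cc : ι → Fin d → ℂ) (χ : ι → (Fin d → ℂ) → ℝ) :
    ∃ C : ℝ, 0 < C ∧ ∀ (ν : Measure E) (f : Fin N → E → ℂ) (u : Fin d → E → ℂ)
      (s : ι → E → Fin N → ℂ), Dat ν f u s cc χ M A p C₀ ρ₀ C₁ L → ∀ (k : ℕ) (w : E),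
      ‖w‖ < RC θ (k + 1) → ∀ v : Fin 0 → E,
      ‖JJ K (sk χ ν u θ ϑ c ρ s k (k + 1)) (sk χ ν u θ ϑ c ρ s (k + 1) (k + 1)) 0 w v‖ ≤
        C * ∑ j, ‖bq ν (u j) θ ϑ c ρ (k + 1) w - bq ν (u j) θ ϑ c ρ k w‖ := by
  obtain ⟨G, hG, h1⟩ := J_D01 (N := N) h hρρ hL hC₁ cc χ
  obtain ⟨G', hG', h2⟩ := sk_base (N := N) h hρρ hL hC₁ cc χ
  obtain ⟨C, hC, hU⟩ := JJ_bound (E := E) K 0
  refine ⟨C * (Fintype.card ι * C₁ + 1) * G', by positivity, ?_⟩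
  intro ν f u s D k w hw v
  have hw' : ‖w‖ < RC θ k := hw.trans_le (by simpa using RC_succ_le h.θ0 h.θ1 (k + 1))
  have n1 := sk_norm h hρρ D (k := k) (l := k + 1) (Or.inr rfl) hw'
  have b1 := hU (sk χ ν u θ ϑ c ρ s k (k + 1)) (sk χ ν u θ ϑ c ρ s (k + 1) (k + 1)) w
    (fun v => G * (xk θ (k + 1) w ^ (-(4 / P : ℝ)) * SQ ν θ ϑ (k + 1) w *
      gau (dl θ (k + 1) w) w v)) (Fintype.card ι * C₁ + 1)
    (fun v => (h1 ν f u s D k w hw v).1) (fun v => (h1 ν f u s D k w hw v).2)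
    (n1.trans (by linarith)) v
  have b2 := h2 ν f u s D k w hw'
  rw [Finset.univ_eq_empty, Finset.prod_empty, mul_one] at b1
  refine b1.trans ?_
  calc _ ≤ C * (Fintype.card ι * C₁ + 1) *
        (G' * ∑ j, ‖bq ν (u j) θ ϑ c ρ (k + 1) w - bq ν (u j) θ ϑ c ρ k w‖) := by gcongr
    _ = _ := by ring

end Pool.Agent.MPca0fc2.QT
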