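import Mathlib
import Pool.Agent.Lib.MP_ca0fc2_an.MXBase
import Pool.Agent.Lib.MP_ca0fc2_an.PTX2

set_option autoImplicit false

open Metric Set MeasureTheory Filter Topology

open scoped InnerProductSpace ENNReal

namespace Pool.Agent.MPca0fc2.MX

open Pool.Agent.MPca0fc2.PT

variable {E : Type*} [NormedAddCommGroup E] [InnerProductSpace ℂ E]

variable [FiniteDimensional ℂ E] [MeasurableSpace E] [BorelSpace E]

theorem DD_est {θ : ℝ} (h0 : 0 < θ) (h1 : θ < 1) {ν : Ptl E} {A : ℝ} (h : Carl ν A) {k : ℕ}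
    {w : E} (hw : ‖w‖ < RC θ k) :
    ‖DD ν ((rt θ (k + 1) : ℂ) • w) - DD ν ((rt θ k : ℂ) • w)‖ ≤
      64 / θ * A * 2 * xk θ k w := by
  have a3 := rt_nonneg h0 h1 k
  have hr : rt θ k ≤ rt θ (k + 1) := by
    unfold rt
    have : θ ^ (k + 1) ≤ θ ^ k := pow_le_pow_of_le_one h0.le h1.le (Nat.le_succ k)
    linarith
  have h2 := DD_sub h a3 hr (rt_mul_lt h0 h1 le_rfl hw) (one_sub_rt h0 h1 hw)
  refine h2.trans ?_
  have hA := h.1
  have hd := dl_pos h0 h1 hw
  have e : 1 - rt θ k ^ 2 * ‖w‖ ^ 2 = dl θ k w := rfl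
  rw [e]
  unfold xk
  have hw2 : ‖w‖ ≤ 2 := by
    have : RC θ k ≤ 2 := by
      unfold RC
      have := pow_le_one₀ (n := k + 1) h0.le h1.le
      linarith
    linarith
  have h3 : (rt θ (k + 1) - rt θ k) * ‖w‖ ≤ θ ^ k * 2 := by
    have : rt θ (k + 1) - rt θ k ≤ θ ^ k := by
      unfold rt
      have : 0 < θ ^ (k + 1) := by positivity
      linarith
    have h4 : 0 ≤ rt θ (k + 1) - rt θ k := by linarith
    exact mul_le_mul this hw2 (norm_nonneg _) (by positivity)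
  calc 64 / θ * A * ((rt θ (k + 1) - rt θ k) * ‖w‖) / dl θ k w ≤
      64 / θ * A * (θ ^ k * 2) / dl θ k w := by gcongr
    _ = _ := by ring

end Pool.Agent.MPca0fc2.MX
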