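import Mathlib
import Pool.Agent.Lib.MP_ca0fc2_an.MXBase

set_option autoImplicit false

open Metric Set MeasureTheory Filter Topology

open scoped InnerProductSpace ENNReal

namespace Pool.Agent.MPca0fc2.MX

open Pool.Agent.MPca0fc2.PT

variable {E : Type*} [NormedAddCommGroup E] [InnerProductSpace ℂ E]

variable [FiniteDimensional ℂ E] [MeasurableSpace E] [BorelSpace E]

theorem PB_Ei_nonneg (ν : Ptl E) (θ : ℝ) (i : ℕ) (w : E) : 0 ≤ Ei ν θ i w :=
  EE_nonneg ν _

end Pool.Agent.MPca0fc2.MX
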