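import Mathlib
import Pool.Agent.Lib.MP_ca0fc2_an.MXQTVq
import Pool.Agent.Lib.MP_ca0fc2_an.QTBase

set_option autoImplicit false

open Metric Set MeasureTheory Filter Topology

open scoped InnerProductSpace ENNReal

namespace Pool.Agent.MPca0fc2.MX.Q

open Pool.Agent.MPca0fc2.PT Pool.Agent.MPca0fc2.QT

variable {E : Type*} [NormedAddCommGroup E] [InnerProductSpace ℂ E]

variable [FiniteDimensional ℂ E] [MeasurableSpace E] [BorelSpace E]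

theorem bq_c2 {θ ϑ c ρ : ℝ} (hθ0 : 0 < θ) (hθ1 : θ < 1) (h0 : 0 < ϑ) (hc : 0 < c) (hρ : 0 < ρ)
    {ν : Ptl E} {u : E → ℂ} {M A p C₀ : ℝ} (hu : HU ν u M A p C₀) (k : ℕ) :
    ContDiffOn ℝ 2 (bq ν u θ ϑ c ρ k) (ball 0 (RC θ (k - 1))) := by
  induction k with
  | zero => exact contDiffOn_const
  | succ k ih =>
    have h2 : ContDiffOn ℝ 2 (bq ν u θ ϑ c ρ k) (ball 0 (RC θ (k + 1 - 1))) :=
      ih.mono (ball_subset_ball (QTBase_RC_anti hθ0 hθ1 (by omega)))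
    have h3 := vq_c2 hθ0 hθ1 h0 hc hu (k + 1)
    have h4 : bq ν u θ ϑ c ρ (k + 1) = fun w => bq ν u θ ϑ c ρ k w +
      tau3 ρ (vq ν u θ ϑ c (k + 1) w - bq ν u θ ϑ c ρ k w) := rfl
    rw [h4]
    exact h2.add ((tau3_c2 hρ).comp_contDiffOn (h3.sub h2))

theorem bq_close {θ ϑ c ρ : ℝ} (hρ : 0 < ρ) (ν : Ptl E) (u : E → ℂ) (k : ℕ) (w : E) :
    ‖vq ν u θ ϑ c k w - bq ν u θ ϑ c ρ k w‖ ≤ 3 * ρ := by
  cases k with
  | zero =>
    have h : vq ν u θ ϑ c 0 w - bq ν u θ ϑ c ρ 0 w = 0 := by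
      simp [vq, bq]
    rw [h, norm_zero]
    positivity
  | succ k =>
    have h : vq ν u θ ϑ c (k + 1) w - bq ν u θ ϑ c ρ (k + 1) w =
        (vq ν u θ ϑ c (k + 1) w - bq ν u θ ϑ c ρ k w) -
          tau3 ρ (vq ν u θ ϑ c (k + 1) w - bq ν u θ ϑ c ρ k w) := by
      have h4 : bq ν u θ ϑ c ρ (k + 1) w = bq ν u θ ϑ c ρ k w +
        tau3 ρ (vq ν u θ ϑ c (k + 1) w - bq ν u θ ϑ c ρ k w) := rfl
      rw [h4]
      ring
    rw [h]
    exact tau3_rest hρ _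

end Pool.Agent.MPca0fc2.MX.Q
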