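import Mathlib
import Pool.Agent.Lib.MP_ca0fc2_an.MXPTBase
import Pool.Agent.Lib.MP_ca0fc2_an.MXQTBg
import Pool.Agent.Lib.MP_ca0fc2_an.QTBg
import Pool.Agent.Lib.MP_ca0fc2_an.TMVq

set_option autoImplicit false

open Metric Set MeasureTheory Filter Topology

open scoped InnerProductSpace ENNReal

namespace Pool.Agent.MPca0fc2.MX.Q.T

open Pool.Agent.MPca0fc2.PT Pool.Agent.MPca0fc2.QT

variable {E : Type*} [NormedAddCommGroup E] [InnerProductSpace ℂ E]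

variable [FiniteDimensional ℂ E] [MeasurableSpace E] [BorelSpace E]

variable {cls : Ptl E → (E → ℂ) → Prop}

theorem bq_c2 {θ ϑ c ρ : ℝ} (hθ0 : 0 < θ) (hθ1 : θ < 1) (h0 : 0 < ϑ) (hc : 0 < c) (hρ : 0 < ρ)
    {ν : Ptl E} {u : E → ℂ} {M A C₀ : ℝ} (hu : HU ν u M A cls C₀) (k : ℕ) :
    ContDiffOn ℝ 2 (bq ν u θ ϑ c ρ k) (ball 0 (RC θ (k - 1))) := by
  induction k with
  | zero => exact contDiffOn_const
  | succ k ih =>
    have h2 : ContDiffOn ℝ 2 (bq ν u θ ϑ c ρ k) (ball 0 (RC θ (k + 1 - 1))) :=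
      ih.mono (ball_subset_ball (QTBase_RC_anti hθ0 hθ1 (by omega)))
    have h3 := vq_c2 hθ0 hθ1 h0 hc hu (k + 1)
    have h4 : bq ν u θ ϑ c ρ (k + 1) = fun w => bq ν u θ ϑ c ρ k w +
      tau3 ρ (vq ν u θ ϑ c (k + 1) w - bq ν u θ ϑ c ρ k w) := rfl
    rw [h4]
    exact h2.add ((tau3_c2 hρ).comp_contDiffOn (h3.sub h2))

/-- the gradient of the base is at most the sum of the gradients of the approximations -/
theorem QTBg_sum {θ ϑ c ρ : ℝ} (hθ0 : 0 < θ) (hθ1 : θ < 1) (h0 : 0 < ϑ) (hc : 0 < c)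
    (hρ : 0 < ρ) {ν : Ptl E} {u : E → ℂ} {M A C₀ : ℝ} (hu : HU ν u M A cls C₀) (w x : E)
    (k : ℕ) (hw : ‖w‖ < RC θ (k - 1)) :
    ‖fderiv ℝ (bq ν u θ ϑ c ρ k) w x‖ ≤
      ∑ l ∈ Finset.range k, ‖fderiv ℝ (vq ν u θ ϑ c (l + 1)) w x‖ := by
  induction k with
  | zero =>
    have h : bq ν u θ ϑ c ρ 0 = fun _ => u 0 := rfl
    rw [h, fderiv_fun_const]
    simp
  | succ k ih =>
    have hw1 : ‖w‖ < RC θ (k - 1) :=
      lt_of_lt_of_le hw (QTBg_RC_anti hθ0 hθ1 (by omega))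
    have hb : DifferentiableAt ℝ (bq ν u θ ϑ c ρ k) w := by
      have h2 := (bq_c2 hθ0 hθ1 h0 hc hρ hu k).differentiableOn two_ne_zero
      exact h2.differentiableAt (isOpen_ball.mem_nhds (by rwa [mem_ball_zero_iff]))
    have hv : DifferentiableAt ℝ (vq ν u θ ϑ c (k + 1)) w := by
      have h2 := (vq_c2 hθ0 hθ1 h0 hc hu (k + 1)).differentiableOn two_ne_zero
      exact h2.differentiableAt (isOpen_ball.mem_nhds (by rwa [mem_ball_zero_iff]))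
    have ht : DifferentiableAt ℝ (tau3 ρ) (vq ν u θ ϑ c (k + 1) w - bq ν u θ ϑ c ρ k w) :=
      ((tau3_c2 hρ).differentiable two_ne_zero).differentiableAt
    have h5 := (hb.hasFDerivAt.add
      (ht.hasFDerivAt.comp w (hv.hasFDerivAt.sub hb.hasFDerivAt))).fderiv
    have h6 : fderiv ℝ (bq ν u θ ϑ c ρ (k + 1)) w x = fderiv ℝ (bq ν u θ ϑ c ρ k) w x +
        fderiv ℝ (tau3 ρ) (vq ν u θ ϑ c (k + 1) w - bq ν u θ ϑ c ρ k w)
          (fderiv ℝ (vq ν u θ ϑ c (k + 1)) w x - fderiv ℝ (bq ν u θ ϑ c ρ k) w x) := by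
      have h7 : fderiv ℝ (bq ν u θ ϑ c ρ (k + 1)) w = _ := h5
      rw [h7]
      rfl
    rw [h6, Finset.sum_range_succ]
    refine (tau3_fderiv hρ _ _ _).trans ?_
    linarith [ih hw1]

theorem bq_grad {θ ϑ : ℝ} (h0 : 0 < ϑ) (h1 : ϑ < 1) {P : ℕ} (hP : θ = ϑ ^ P) (hP8 : 8 ≤ P)
    {C₀ c : ℝ} (hC₀ : 0 < C₀) (hc : 0 < c) (hc1 : c ≤ 1) :
    ∃ C : ℝ, 0 < C ∧ ∀ (ν : Ptl E) (u : E → ℂ) (M A ρ : ℝ), HU ν u M A cls C₀ → 0 < ρ →
      ∀ (k : ℕ) (w : E), ‖w‖ < RC θ k → ∀ x : E,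
        ‖fderiv ℝ (bq ν u θ ϑ c ρ k) w x‖ ≤
          C * xk θ k w ^ (-(4 / P : ℝ)) * SQ ν θ ϑ k w * gau (dl θ k w) w x := by
  have hθ0 : 0 < θ := by rw [hP]; positivity
  have hθ1 : θ < 1 := by rw [hP]; exact pow_lt_one₀ h0.le h1 (by omega)
  obtain ⟨C₁, hC₁, hv⟩ := vq_grad (E := E) (cls := cls) hθ0 hθ1 h0 h1 hC₀
  have h1ϑ : 0 < 1 - ϑ := by linarith
  refine ⟨2 * C₁ / c * (1 / (1 - ϑ)), by positivity, ?_⟩
  intro ν u M A ρ hu hρ k w hw x
  have hX0 : 0 < xk θ k w := xk_pos hθ0 hθ1 hw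
  have hdl : ∀ i ≤ k, 0 < dl θ i w := fun i hi =>
    lt_of_lt_of_le (by positivity) (dl_ge hθ0 hθ1 (by omega : i ≤ k + 1) hw)
  set g := gau (dl θ k w) w x with hg
  have hg0 : 0 ≤ g := by
    have := hdl k le_rfl
    rw [hg]
    unfold gau
    positivity
  set Z : ℝ := xk θ k w ^ (-(4 / P : ℝ)) with hZ
  have hZ0 : 0 < Z := by positivity
  have hwk : ‖w‖ < RC θ (k - 1) := lt_of_lt_of_le hw (QTBg_RC_anti hθ0 hθ1 (by omega))
  have hsum := QTBg_sum hθ0 hθ1 h0 hc hρ hu w x k hwk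
  set F : ℕ → ℝ := fun i => Ei ν θ i w / (c * ϑ ^ (k - i)) * gau (dl θ i w) w x with hF
  have hgi : ∀ i ≤ k, 0 ≤ gau (dl θ i w) w x := by
    intro i hi
    have := hdl i hi
    unfold gau
    positivity
  have h2 : ‖fderiv ℝ (bq ν u θ ϑ c ρ k) w x‖ ≤
      C₁ * ∑ i ∈ Finset.range k, ((k - i : ℕ) : ℝ) * F i := by
    rw [← PB_swap, Finset.mul_sum]
    refine hsum.trans (Finset.sum_le_sum ?_)
    intro l hl
    rw [Finset.mem_range] at hl
    have hwl : ‖w‖ < RC θ (l + 1 - 1) :=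
      lt_of_lt_of_le hw (QTBg_RC_anti hθ0 hθ1 (by omega))
    refine (hv ν u M A c hu hc (l + 1) w hwl x).trans ?_
    apply mul_le_mul_of_nonneg_left _ hC₁.le
    apply Finset.sum_le_sum
    intro i hi
    rw [Finset.mem_range] at hi
    rw [hF]
    apply mul_le_mul_of_nonneg_right _ (hgi i (by omega))
    have hE := PB_Ei_nonneg ν θ i w
    split_ifs with hif
    · rw [one_le_div (by positivity)]
      refine le_trans ?_ hif.le
      apply mul_le_mul_of_nonneg_left _ hc.le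
      exact pow_le_pow_of_le_one h0.le h1.le (by omega)
    · positivity
  have h3 : ∀ i ∈ Finset.range k, (((k - i : ℕ) : ℝ) * F i) ≤
      2 / c * (1 / (1 - ϑ)) * Z * (ϑ ^ (2 * (k - i)) * Ei ν θ i w) * g := by
    intro i hi
    rw [Finset.mem_range] at hi
    have hE := PB_Ei_nonneg ν θ i w
    have h11 : gau (dl θ i w) w x ≤ 2 * ϑ ^ (4 * (k - i)) * Z * g :=
      QTBg_gau h0 h1 hP hP8 hi.le hw x
    set n := k - i with hn
    have h10 := PB_nat_pow h0.le h1 n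
    calc ((n : ℝ) * F i)
        = ((n : ℝ) * (Ei ν θ i w / (c * ϑ ^ n))) * gau (dl θ i w) w x := by
          rw [hF]
          ring
      _ ≤ ((n : ℝ) * (Ei ν θ i w / (c * ϑ ^ n))) * (2 * ϑ ^ (4 * n) * Z * g) := by
          apply mul_le_mul_of_nonneg_left h11
          positivity
      _ = ((n : ℝ) * ϑ ^ n) * (2 / c * Z * (ϑ ^ (2 * n) * Ei ν θ i w) * g) := by
          have h12 : ϑ ^ (4 * n) = ϑ ^ n * ϑ ^ n * ϑ ^ (2 * n) := by
            rw [← pow_add, ← pow_add]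
            congr 1
            omega
          rw [h12]
          field_simp
      _ ≤ (1 / (1 - ϑ)) * (2 / c * Z * (ϑ ^ (2 * n) * Ei ν θ i w) * g) := by
          apply mul_le_mul_of_nonneg_right h10
          positivity
      _ = _ := by ring
  calc ‖fderiv ℝ (bq ν u θ ϑ c ρ k) w x‖
      ≤ C₁ * ∑ i ∈ Finset.range k, ((k - i : ℕ) : ℝ) * F i := h2
    _ ≤ C₁ * ∑ i ∈ Finset.range k,
        2 / c * (1 / (1 - ϑ)) * Z * (ϑ ^ (2 * (k - i)) * Ei ν θ i w) * g :=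
        mul_le_mul_of_nonneg_left (Finset.sum_le_sum h3) hC₁.le
    _ = C₁ * (2 / c * (1 / (1 - ϑ)) * Z *
        (∑ i ∈ Finset.range k, ϑ ^ (2 * (k - i)) * Ei ν θ i w) * g) := by
        rw [← Finset.sum_mul, ← Finset.mul_sum]
    _ ≤ C₁ * (2 / c * (1 / (1 - ϑ)) * Z * SQ ν θ ϑ k w * g) := by
        apply mul_le_mul_of_nonneg_left _ hC₁.le
        apply mul_le_mul_of_nonneg_right _ hg0
        apply mul_le_mul_of_nonneg_left _ (by positivity)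
        unfold SQ
        rw [Finset.sum_range_succ]
        have := PB_Ei_nonneg ν θ k w
        have h13 : 0 ≤ ϑ ^ (2 * (k - k)) * Ei ν θ k w := by positivity
        linarith
    _ = _ := by ring

end Pool.Agent.MPca0fc2.MX.Q.T
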