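import Mathlib
import Pool.Agent.Lib.MP_ca0fc2_an.QTXp
import Pool.Agent.Lib.MP_ca0fc2_an.TMBg

set_option autoImplicit false

open Metric Set MeasureTheory Filter Topology

open scoped InnerProductSpace ENNReal

namespace Pool.Agent.MPca0fc2.MX.Q.T

open Pool.Agent.MPca0fc2.PT Pool.Agent.MPca0fc2.QT

variable {E : Type*} [NormedAddCommGroup E] [InnerProductSpace ℂ E]

variable [FiniteDimensional ℂ E] [MeasurableSpace E] [BorelSpace E]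

variable {cls : Ptl E → (E → ℂ) → Prop}

variable {m : ℕ} {θ ϑ : ℝ} {P : ℕ} {c ρ C₀ M A : ℝ} {ν : Ptl E} {u : E → ℂ}

theorem ParQ.P0 (h : ParQ E m θ ϑ P c ρ C₀ cls M A) : P ≠ 0 := by
  have := h.hPm
  omega

theorem ParQ.θ0 (h : ParQ E m θ ϑ P c ρ C₀ cls M A) : 0 < θ := by
  rw [h.hP]; exact pow_pos h.h0 _

theorem ParQ.θ1 (h : ParQ E m θ ϑ P c ρ C₀ cls M A) : θ < 1 := by
  rw [h.hP]; exact pow_lt_one₀ h.h0.le h.h1 h.P0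

theorem ParQ.uk_le (h : ParQ E m θ ϑ P c ρ C₀ cls M A) (hu : HU ν u M A cls C₀) {i k : ℕ}
    (hik : i ≤ k + 1) {w : E} (hw : ‖w‖ < RC θ k) : ‖uk u θ i w‖ ≤ M :=
  hu.bd _ (rt_smul_mem h.θ0 h.θ1 hik hw)

theorem ParQ.step (h : ParQ E m θ ϑ P c ρ C₀ cls M A) {f : E → ℂ}
    (hf : DifferentiableOn ℂ f (ball 0 1))
    (hM : ∀ z ∈ ball (0 : E) 1, ‖f z‖ ≤ M) {k : ℕ}
    {w : E} (hw : ‖w‖ < RC θ k) :
    ‖uk f θ (k + 1) w - uk f θ k w‖ ≤ ρ / 8 * xk θ k w ∧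
    ‖uk f θ (k + 1) w - uk f θ k w‖ ≤ ρ / 2 := by
  have h2 := d_small h.θ0 h.θ1 hf hM k hw
  have hx := xk_pos h.θ0 h.θ1 hw
  have hx4 := xk_le h.θ0 h.θ1 hw
  have hs := h.small
  have h3 : 500 * M / θ * (1 - θ) ≤ ρ / 8 := by
    have : 2000 * M / θ * (1 - θ) = 4 * (500 * M / θ * (1 - θ)) := by ring
    linarith
  have h4 : ‖uk f θ (k + 1) w - uk f θ k w‖ ≤ ρ / 8 * xk θ k w :=
    h2.trans (mul_le_mul_of_nonneg_right h3 hx.le)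
  refine ⟨h4, h4.trans ?_⟩
  have := h.hρ
  nlinarith

theorem ParQ.b_near (h : ParQ E m θ ϑ P c ρ C₀ cls M A) (hu : HU ν u M A cls C₀) {k : ℕ} {w : E}
    (hw : ‖w‖ < RC θ (k - 1)) :
    ‖bq ν u θ ϑ c ρ k w - uk u θ k w‖ ≤ 7 / 2 * ρ := by
  have h1 := h.close ν u hu k w hw
  have h2 := bq_close (θ := θ) (ϑ := ϑ) (c := c) h.hρ ν u k w
  calc ‖bq ν u θ ϑ c ρ k w - uk u θ k w‖ =
        ‖(uk u θ k w - vq ν u θ ϑ c k w) + (vq ν u θ ϑ c k w - bq ν u θ ϑ c ρ k w)‖ := by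
        rw [← norm_neg]; congr 1; ring
    _ ≤ ‖uk u θ k w - vq ν u θ ϑ c k w‖ + ‖vq ν u θ ϑ c k w - bq ν u θ ϑ c ρ k w‖ :=
        norm_add_le _ _
    _ ≤ 7 / 2 * ρ := by linarith

theorem ParQ.b_near' (h : ParQ E m θ ϑ P c ρ C₀ cls M A) (hu : HU ν u M A cls C₀) {k : ℕ} {w : E}
    (hw : ‖w‖ < RC θ k) :
    ‖bq ν u θ ϑ c ρ k w - uk u θ (k + 1) w‖ ≤ 4 * ρ := by
  have h1 := h.b_near hu (hw.trans_le (RC_succ_le h.θ0 h.θ1 k))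
  have h3 := (h.step hu.diff hu.bd hw).2
  calc ‖bq ν u θ ϑ c ρ k w - uk u θ (k + 1) w‖ = ‖(bq ν u θ ϑ c ρ k w - uk u θ k w) -
        (uk u θ (k + 1) w - uk u θ k w)‖ := by congr 1; ring
    _ ≤ _ := norm_sub_le _ _
    _ ≤ 4 * ρ := by linarith

theorem ParQ.b_le' (h : ParQ E m θ ϑ P c ρ C₀ cls M A) (hu : HU ν u M A cls C₀) {k : ℕ} {w : E}
    (hw : ‖w‖ < RC θ (k - 1)) : ‖bq ν u θ ϑ c ρ k w‖ ≤ 5 * M := by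
  have h1 := h.b_near hu hw
  have h2 := h.uk_le hu (i := k) (k := k - 1) (by omega) hw
  have := h.hρM
  have := h.hM
  calc ‖bq ν u θ ϑ c ρ k w‖ = ‖(bq ν u θ ϑ c ρ k w - uk u θ k w) + uk u θ k w‖ := by
        rw [sub_add_cancel]
    _ ≤ _ := norm_add_le _ _
    _ ≤ 5 * M := by linarith

theorem ParQ.b_le (h : ParQ E m θ ϑ P c ρ C₀ cls M A) (hu : HU ν u M A cls C₀) {k : ℕ} {w : E}
    (hw : ‖w‖ < RC θ k) : ‖bq ν u θ ϑ c ρ k w‖ ≤ 5 * M :=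
  h.b_le' hu (hw.trans_le (RC_succ_le h.θ0 h.θ1 k))

theorem ParQ.b_c2' (h : ParQ E m θ ϑ P c ρ C₀ cls M A) (hu : HU ν u M A cls C₀) (k : ℕ) :
    ContDiffOn ℝ 2 (bq ν u θ ϑ c ρ k) (ball 0 (RC θ (k - 1))) :=
  bq_c2 h.θ0 h.θ1 h.h0 h.hc h.hρ hu k

theorem ParQ.b_c2 (h : ParQ E m θ ϑ P c ρ C₀ cls M A) (hu : HU ν u M A cls C₀) (k : ℕ) :
    ContDiffOn ℝ 2 (bq ν u θ ϑ c ρ k) (ball 0 (RC θ k)) :=
  (h.b_c2' hu k).mono (ball_subset_ball (RC_succ_le h.θ0 h.θ1 k))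

end Pool.Agent.MPca0fc2.MX.Q.T
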