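import Mathlib
import Pool.Agent.Lib.MP_ca0fc2_an.MXBase

set_option autoImplicit false

open Metric Set MeasureTheory Filter Topology

open scoped InnerProductSpace ENNReal

namespace Pool.Agent.MPca0fc2.MX

open Pool.Agent.MPca0fc2.PT

variable {E : Type*} [NormedAddCommGroup E] [InnerProductSpace ℂ E]

variable [FiniteDimensional ℂ E] [MeasurableSpace E] [BorelSpace E]

omit [FiniteDimensional ℂ E] [BorelSpace E] in
theorem DD_tele (ν : Ptl E) (θ : ℝ) (z : E) {j k : ℕ} (hjk : j ≤ k) :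
    ∑ i ∈ Finset.Ico j k, ((DD ν ((rt θ (i + 1) : ℂ) • z)).re - (DD ν ((rt θ i : ℂ) • z)).re) =
      (DD ν ((rt θ k : ℂ) • z)).re - (DD ν ((rt θ j : ℂ) • z)).re := by
  induction k, hjk using Nat.le_induction with
  | base => simp
  | succ k hjk ih =>
    rw [Finset.sum_Ico_succ_top hjk, ih]
    ring

end Pool.Agent.MPca0fc2.MX
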