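import Mathlib
import Pool.Agent.Lib.MP_ca0fc2_an.PTX2

set_option autoImplicit false

open Metric Set MeasureTheory Filter Topology
open scoped InnerProductSpace ENNReal

namespace Pool.Agent.MPca0fc2.PT

variable {E : Type*} [NormedAddCommGroup E] [InnerProductSpace ℂ E]

/-- local solutions and a qualitative global one, on all levels -/
structure Fam (u : E → ℂ) (θ ε : ℝ) (K : ℕ) (G₀ g₀ g : ℕ → E → ℂ) (Cg Dg : ℝ) : Prop where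
  hG : ∀ k ≤ K, DifferentiableOn ℂ (G₀ k) (ball 0 (RC θ (k - 1)))
  hg : ∀ k ≤ K, ∀ w : E, ‖w‖ < RC θ (k - 1) → ‖uk u θ k w‖ < 4 * ε →
    DifferentiableAt ℂ (g₀ k) w
  hb : ∀ k ≤ K, ∀ w : E, ‖w‖ < RC θ (k - 1) → ‖uk u θ k w‖ < 4 * ε → ‖g k w‖ ≤ Cg
  hrel : ∀ k ≤ K, ∀ w : E, ‖w‖ < RC θ (k - 1) → ‖uk u θ k w‖ < 4 * ε →
    G₀ k w - g k w = uk u θ k w * g₀ k w
  hdiff : ∀ k < K, ∀ w : E, ‖w‖ < RC θ k → ‖uk u θ k w‖ < 4 * ε → ‖uk u θ (k + 1) w‖ < 4 * ε →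
    ‖g (k + 1) w - g k w‖ ≤ Dg * xk θ k w

theorem Fam.pc {u : E → ℂ} {θ ε : ℝ} {K : ℕ} {G₀ g₀ g : ℕ → E → ℂ} {Cg Dg : ℝ}
    (hF : Fam u θ ε K G₀ g₀ g Cg Dg) (h0 : 0 < θ) (h1 : θ < 1)
    (hu : DifferentiableOn ℂ u (ball 0 1)) {k i : ℕ} (hk : k ≤ K) (hi : k ≤ i + 1) {w : E}
    (hw : ‖w‖ < RC θ i) : PC ε (G₀ k) (uk u θ k) (g₀ k) (g k) w := by
  have hRC : RC θ i ≤ RC θ (k - 1) := by
    unfold RC
    have : θ ^ (i + 1) ≤ θ ^ (k - 1 + 1) := pow_le_pow_of_le_one h0.le h1.le (by omega)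
    linarith
  have hwb : w ∈ ball (0 : E) (RC θ (k - 1)) := mem_ball_zero_iff.mpr (hw.trans_le hRC)
  have hwn : ‖w‖ < RC θ (k - 1) := hw.trans_le hRC
  have hU : DifferentiableOn ℂ (uk u θ k) (ball 0 (RC θ (k - 1))) :=
    uk_diff h0 h1 hu (by omega)
  have hnb : ∀ᶠ w' in 𝓝 w, w' ∈ ball (0 : E) (RC θ (k - 1)) := isOpen_ball.mem_nhds hwb
  refine ⟨?_, ?_, ?_, hF.hrel k hk w hwn⟩
  · filter_upwards [hnb] with w' hw'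
    exact hU.differentiableAt (isOpen_ball.mem_nhds hw')
  · filter_upwards [hnb] with w' hw'
    exact (hF.hG k hk).differentiableAt (isOpen_ball.mem_nhds hw')
  · intro hlt
    have hcont : ContinuousAt (uk u θ k) w :=
      (hU.differentiableAt (isOpen_ball.mem_nhds hwb)).continuousAt
    filter_upwards [hnb, hcont.norm.eventually_lt_const hlt] with w' hw' hlt'
    exact hF.hg k hk w' (mem_ball_zero_iff.mp hw') hlt'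

/-- the difference of the quotients -/
theorem quot_est {U U' g g' X : ℂ} {ε Cg Dg CX ρ x : ℝ} (hε : 0 < ε) (hCg : 0 ≤ Cg) (hDg : 0 ≤ Dg)
    (hCX : 0 ≤ CX) (hρε : ρ ≤ ε) (hx : 0 ≤ x) (hU : ε / 2 ≤ ‖U‖) (hU' : ε / 2 ≤ ‖U'‖)
    (hd : ‖U' - U‖ ≤ ρ / 8 * (2 * x)) (hg : ‖g‖ ≤ Cg) (hgg : ‖g' - g‖ ≤ Dg * (2 * x))
    (hX : ‖X - 1‖ ≤ CX * x) :
    ‖g' / U' - X * (g / U)‖ ≤ (4 * Dg / ε + Cg / ε + 2 * CX * Cg / ε) * x := by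
  have hU0 : U ≠ 0 := fun h => by rw [h, norm_zero] at hU; linarith
  have hU0' : U' ≠ 0 := fun h => by rw [h, norm_zero] at hU'; linarith
  have e : g' / U' - X * (g / U) = (g' - g) / U' - g * ((U' - U) / (U * U')) -
      (X - 1) * (g / U) := by
    field_simp
    ring
  have hUp : 0 < ‖U‖ := norm_pos_iff.mpr hU0
  have hUp' : 0 < ‖U'‖ := norm_pos_iff.mpr hU0'
  rw [e]
  have b1 : ‖(g' - g) / U'‖ ≤ 4 * Dg / ε * x := by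
    rw [norm_div, div_le_iff₀ hUp']
    calc ‖g' - g‖ ≤ Dg * (2 * x) := hgg
      _ = 4 * Dg / ε * x * (ε / 2) := by field_simp; ring
      _ ≤ _ := by gcongr
  have b2 : ‖g * ((U' - U) / (U * U'))‖ ≤ Cg / ε * x := by
    rw [norm_mul, norm_div, norm_mul]
    have : ‖U' - U‖ / (‖U‖ * ‖U'‖) ≤ 1 / ε * x := by
      rw [div_le_iff₀ (by positivity)]
      calc ‖U' - U‖ ≤ ρ / 8 * (2 * x) := hd
        _ ≤ ε / 8 * (2 * x) := by gcongr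
        _ = 1 / ε * x * ((ε / 2) * (ε / 2)) := by field_simp; ring
        _ ≤ _ := by gcongr
    calc ‖g‖ * (‖U' - U‖ / (‖U‖ * ‖U'‖)) ≤ Cg * (1 / ε * x) := by gcongr
      _ = _ := by ring
  have b3 : ‖(X - 1) * (g / U)‖ ≤ 2 * CX * Cg / ε * x := by
    rw [norm_mul, norm_div]
    have : ‖g‖ / ‖U‖ ≤ 2 * Cg / ε := by
      rw [div_le_iff₀ hUp]
      calc ‖g‖ ≤ Cg := hg
        _ = 2 * Cg / ε * (ε / 2) := by field_simp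
        _ ≤ _ := by gcongr
    calc ‖X - 1‖ * (‖g‖ / ‖U‖) ≤ CX * x * (2 * Cg / ε) := by gcongr
      _ = _ := by ring
  calc _ ≤ ‖(g' - g) / U' - g * ((U' - U) / (U * U'))‖ + ‖(X - 1) * (g / U)‖ := norm_sub_le _ _
    _ ≤ ‖(g' - g) / U'‖ + ‖g * ((U' - U) / (U * U'))‖ + ‖(X - 1) * (g / U)‖ := by
        gcongr; exact norm_sub_le _ _
    _ ≤ 4 * Dg / ε * x + Cg / ε * x + 2 * CX * Cg / ε * x := by gcongr
    _ = _ := by ring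

variable [FiniteDimensional ℂ E] [MeasurableSpace E] [BorelSpace E]

/-- the data of one step -/
noncomputable def NN (μ : Measure E) (m : ℕ) (ν : Measure E) (u : E → ℂ) (ϑ c ρ cX κ : ℝ)
    (χ : ℂ → ℝ) (G₀ g₀ : ℕ → E → ℂ) (k : ℕ) (w : E) : ℂ :=
  VQ χ (G₀ (k + 1)) (uk u (ϑ ^ 32) (k + 1)) (g₀ (k + 1)) (bb ν u ϑ c ρ k) w -
    XX μ m ν u ϑ c ρ cX κ k w * VQ χ (G₀ k) (uk u (ϑ ^ 32) k) (g₀ k) (bb ν u ϑ c ρ k) w

theorem NN_est (μ : Measure E) [μ.IsAddHaarMeasure] {m : ℕ} (hm : 1 ≤ m)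
    (hdim : Module.finrank ℂ E = m + 1) {ϑ c ρ C₀ p M A : ℝ} (h : Par E ϑ c ρ C₀ p M A)
    (cX κ : ℝ) {χ : ℂ → ℝ} {ε L : ℝ} (hχ : Bump χ ε L) (hρε : 6 * ρ ≤ ε) {Cg Dg : ℝ}
    (hCg : 0 ≤ Cg) (hDg : 0 ≤ Dg) :
    ∃ C : ℝ, 0 < C ∧ ∀ (ν : Measure E) (u : E → ℂ), HU ν u M A p C₀ → ∀ (K : ℕ)
      (G₀ g₀ g : ℕ → E → ℂ), Fam u (ϑ ^ 32) ε K G₀ g₀ g Cg Dg → ∀ k < K,
      DifferentiableOn ℂ (PR μ m (RB (ϑ ^ 32) k) (NN μ m ν u ϑ c ρ cX κ χ G₀ g₀ k)) (ball 0 1) ∧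
      DifferentiableOn ℂ (PR μ m (RB (ϑ ^ 32) k) (NN μ m ν u ϑ c ρ cX κ χ G₀ g₀ k))
        (ball 0 (RB (ϑ ^ 32) k)) ∧
      (∀ z : E, ‖z‖ < 1 → ‖PR μ m (RB (ϑ ^ 32) k) (NN μ m ν u ϑ c ρ cX κ χ G₀ g₀ k) z -
        NN μ m ν u ϑ c ρ cX κ χ G₀ g₀ k z‖ ≤ C * SE ν ϑ k z) := by
  obtain ⟨C₁, hC₁, hb⟩ := b_grad2 (E := E) h.h0 h.h1 h.hC₀ h.hp h.hc h.hc1
  obtain ⟨C₂, hC₂, hs⟩ := P_shell μ hm hdim h.h0 h.h1
  obtain ⟨C₃, hC₃, hX⟩ := XX_est μ hm hdim h cX κ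
  have hρ := h.hρ
  have hε : 0 < ε := by linarith
  have hL := hχ.L_nonneg
  have hθ0 := h.θ0
  have hθ1 := h.θ1
  obtain ⟨C₄, hC₄⟩ : ∃ C₄, C₄ = 4 * Dg / ε + Cg / ε + 2 * C₃ * Cg / ε := ⟨_, rfl⟩
  have hC₄0 : 0 ≤ C₄ := by rw [hC₄]; positivity
  refine ⟨C₂ * (L * C₄ * C₁) + 1, by positivity, ?_⟩
  intro ν u hu K G₀ g₀ g hF k hk
  obtain ⟨hXd, hX1⟩ := hX ν u hu k
  have hAB := RB_lt_RA hθ0 k
  have hAC := RA_lt_RC hθ0 k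
  have hRB1 := one_lt_RB hθ0 k
  have hsub : closedBall (0 : E) (RB (ϑ ^ 32) k) ⊆ ball 0 (RA (ϑ ^ 32) k) :=
    closedBall_subset_ball hAB
  have hbw : ∀ w : E, ‖w‖ < RC (ϑ ^ 32) k → ‖bb ν u ϑ c ρ k w - uk u (ϑ ^ 32) k w‖ ≤ ε / 2 :=
    fun w hw => (h.b_near hu (hw.trans_le (RC_succ_le hθ0 hθ1 k))).trans (by linarith)
  have hbw' : ∀ w : E, ‖w‖ < RC (ϑ ^ 32) k →
      ‖bb ν u ϑ c ρ k w - uk u (ϑ ^ 32) (k + 1) w‖ ≤ ε / 2 :=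
    fun w hw => (h.b_near' hu hw).trans (by linarith)
  have hbc : ∀ w : E, ‖w‖ < RC (ϑ ^ 32) k → ContDiffAt ℝ 1 (bb ν u ϑ c ρ k) w := fun w hw =>
    (b_c1 h hu k).contDiffAt (isOpen_ball.mem_nhds (mem_ball_zero_iff.mpr hw))
  have hpc : ∀ w : E, ‖w‖ < RC (ϑ ^ 32) k →
      PC ε (G₀ k) (uk u (ϑ ^ 32) k) (g₀ k) (g k) w := fun w hw =>
    hF.pc hθ0 hθ1 hu.diff hk.le (Nat.le_succ k) hw
  have hpc' : ∀ w : E, ‖w‖ < RC (ϑ ^ 32) k →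
      PC ε (G₀ (k + 1)) (uk u (ϑ ^ 32) (k + 1)) (g₀ (k + 1)) (g (k + 1)) w := fun w hw =>
    hF.pc hθ0 hθ1 hu.diff hk le_rfl hw
  have hXat : ∀ w : E, ‖w‖ < RA (ϑ ^ 32) k →
      DifferentiableAt ℂ (XX μ m ν u ϑ c ρ cX κ k) w := fun w hw =>
    hXd.differentiableAt (isOpen_ball.mem_nhds (mem_ball_zero_iff.mpr hw))
  have hc1 : ContDiffOn ℝ 1 (NN μ m ν u ϑ c ρ cX κ χ G₀ g₀ k) (ball 0 (RA (ϑ ^ 32) k)) := by
    intro w hw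
    have hwA := mem_ball_zero_iff.mp hw
    have hwC := hwA.trans hAC
    apply ContDiffAt.contDiffWithinAt
    have a1 := VQ_c1 hχ hε (hpc' w hwC) (hbc w hwC) (hbw' w hwC)
    have a2 := VQ_c1 hχ hε (hpc w hwC) (hbc w hwC) (hbw w hwC)
    have a3 := (holo_c1 isOpen_ball hXd).contDiffAt (isOpen_ball.mem_nhds hw)
    exact a1.sub (a3.mul a2)
  have hdb : ∀ w ∈ ball (0 : E) (RB (ϑ ^ 32) k), ∀ x : E,
      ‖dbE (NN μ m ν u ϑ c ρ cX κ χ G₀ g₀ k) w x‖ ≤ L * C₄ * C₁ *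
        xk (ϑ ^ 32) k w ^ (3 / 4 : ℝ) * SE ν ϑ k w * gau (dl (ϑ ^ 32) k w) w x := by
    intro w hw x
    have hwB := mem_ball_zero_iff.mp hw
    have hwA := hwB.trans hAB
    have hwC := hwA.trans hAC
    have a1 := VQ_c1 hχ hε (hpc' w hwC) (hbc w hwC) (hbw' w hwC)
    have a2 := VQ_c1 hχ hε (hpc w hwC) (hbc w hwC) (hbw w hwC)
    have d1 := VQ_dbE hχ hε (hpc' w hwC) (hbc w hwC) (hbw' w hwC) x
    have d2 := VQ_dbE hχ hε (hpc w hwC) (hbc w hwC) (hbw w hwC) x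
    have a1' := a1.differentiableAt (by norm_num)
    have a2' := a2.differentiableAt (by norm_num)
    have a3 := hXat w hwA
    have e1 : dbE (NN μ m ν u ϑ c ρ cX κ χ G₀ g₀ k) w x =
        -dbE (fun w => ((χ (bb ν u ϑ c ρ k w) : ℝ) : ℂ)) w x *
          (g (k + 1) w / uk u (ϑ ^ 32) (k + 1) w - XX μ m ν u ϑ c ρ cX κ k w *
            (g k w / uk u (ϑ ^ 32) k w)) := by
      have e2 : NN μ m ν u ϑ c ρ cX κ χ G₀ g₀ k = fun w =>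
        VQ χ (G₀ (k + 1)) (uk u (ϑ ^ 32) (k + 1)) (g₀ (k + 1)) (bb ν u ϑ c ρ k) w -
          XX μ m ν u ϑ c ρ cX κ k w *
            VQ χ (G₀ k) (uk u (ϑ ^ 32) k) (g₀ k) (bb ν u ϑ c ρ k) w := rfl
      have e3 : dbE (fun w => XX μ m ν u ϑ c ρ cX κ k w *
            VQ χ (G₀ k) (uk u (ϑ ^ 32) k) (g₀ k) (bb ν u ϑ c ρ k) w) w x =
          XX μ m ν u ϑ c ρ cX κ k w *
            dbE (VQ χ (G₀ k) (uk u (ϑ ^ 32) k) (g₀ k) (bb ν u ϑ c ρ k)) w x := by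
        rw [dbE_mul (a3.restrictScalars ℝ) a2', dbE_holo a3, zero_mul, add_zero]
      have a4 : DifferentiableAt ℝ (fun w => XX μ m ν u ϑ c ρ cX κ k w *
            VQ χ (G₀ k) (uk u (ϑ ^ 32) k) (g₀ k) (bb ν u ϑ c ρ k) w) w :=
        (a3.restrictScalars ℝ).mul a2'
      rw [e2, dbE_sub a1' a4, e3, d1, d2]
      ring
    have hxpos := xk_pos hθ0 hθ1 hwC
    obtain ⟨hx1, hx2, hx3⟩ := xk_le_pow hθ0 hθ1 hwC
    have hbd := b_diffAt h hu hwC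
    have hSE := SE_nonneg h.h0 ν k w
    have hga := gau_nonneg (dl_pos hθ0 hθ1 hwC).le w x
    rw [e1, norm_mul, norm_neg]
    by_cases hz : dbE (fun w => ((χ (bb ν u ϑ c ρ k w) : ℝ) : ℂ)) w x = 0
    · rw [hz, norm_zero, zero_mul]
      positivity
    -- the support
    have hb1 : ε ≤ ‖bb ν u ϑ c ρ k w‖ := by
      by_contra hlt
      push Not at hlt
      apply hz
      rw [dbE_congr (PC.near (G₀ := G₀ k) (U := uk u (ϑ ^ 32) k) (g₀ := g₀ k) hχ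
        (hbc w hwC).continuousAt hlt).2, dbE_const]
    have hb2 : ‖bb ν u ϑ c ρ k w‖ ≤ 2 * ε := by
      by_contra hlt
      push Not at hlt
      apply hz
      rw [dbE_congr (PC.far (G₀ := G₀ k) (U := uk u (ϑ ^ 32) k) (g₀ := g₀ k) hχ
        (hbc w hwC).continuousAt hlt).2, dbE_const]
    have u1 := (PC.U_ne hε (hbw w hwC) hb1).1
    have u2 := PC.U_le (hbw w hwC) hb2
    have u1' := (PC.U_ne hε (hbw' w hwC) hb1).1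
    have u2' := PC.U_le (hbw' w hwC) hb2
    have hwC' : ‖w‖ < RC (ϑ ^ 32) (k - 1) := hwC.trans_le (RC_succ_le hθ0 hθ1 k)
    have q1 := quot_est (U := uk u (ϑ ^ 32) k w) (U' := uk u (ϑ ^ 32) (k + 1) w) (g := g k w)
      (g' := g (k + 1) w) (X := XX μ m ν u ϑ c ρ cX κ k w) (ρ := ρ)
      (x := xk (ϑ ^ 32) k w ^ (7 / 8 : ℝ)) hε hCg hDg hC₃.le (by linarith) (by positivity)
      u1 u1' (((h.step hu.diff hu.bd hwC).1).trans (by gcongr))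
      (hF.hb k hk.le w hwC' (by linarith))
      ((hF.hdiff k hk w hwC (by linarith) (by linarith)).trans (by gcongr))
      (hX1 w hwB.le)
    rw [← hC₄] at q1
    have q2 := hχ.dbE_le hbd x
    have q3 := (hb ν u M A ρ hu hρ k w hwC x).1
    calc _ ≤ L * ((‖fderiv ℝ (bb ν u ϑ c ρ k) w x‖ +
          ‖fderiv ℝ (bb ν u ϑ c ρ k) w (Complex.I • x)‖) / 2) *
          (C₄ * xk (ϑ ^ 32) k w ^ (7 / 8 : ℝ)) := by
          apply mul_le_mul q2 q1 (norm_nonneg _) (by positivity)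
      _ = L * C₄ * (xk (ϑ ^ 32) k w ^ (7 / 8 : ℝ) * ((‖fderiv ℝ (bb ν u ϑ c ρ k) w x‖ +
          ‖fderiv ℝ (bb ν u ϑ c ρ k) w (Complex.I • x)‖) / 2)) := by ring
      _ ≤ L * C₄ * (C₁ * xk (ϑ ^ 32) k w ^ (3 / 4 : ℝ) * SE ν ϑ k w *
          gau (dl (ϑ ^ 32) k w) w x) := by gcongr
      _ = _ := by ring
  have hdiffB : DifferentiableOn ℂ (PR μ m (RB (ϑ ^ 32) k)
      (NN μ m ν u ϑ c ρ cX κ χ G₀ g₀ k)) (ball 0 (RB (ϑ ^ 32) k)) :=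
    PR_diff μ (by linarith) (hc1.continuousOn.mono hsub)
  refine ⟨hdiffB.mono (ball_subset_ball hRB1.le), hdiffB, ?_⟩
  intro z hz
  refine (hs ν A hu.carl k (RB (ϑ ^ 32) k) (L * C₄ * C₁) _ _ z le_rfl hAB.le isOpen_ball hsub hc1
    hz (by positivity) hdb).trans ?_
  have hSE := SE_nonneg h.h0 ν k z
  nlinarith

end Pool.Agent.MPca0fc2.PT
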