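import Mathlib
import Pool.Agent.Lib.MP_ca0fc2_an.PTPath
import Pool.Agent.Lib.MP_ca0fc2_an.Mg.G018
import Pool.Agent.Lib.MP_ca0fc2_an.PTX3

set_option autoImplicit false

open Metric Set MeasureTheory Filter Topology
open scoped InnerProductSpace ENNReal

namespace Pool.Agent.MPca0fc2.PT

variable {E : Type*} [NormedAddCommGroup E] [InnerProductSpace ℂ E]
variable [FiniteDimensional ℂ E] [MeasurableSpace E] [BorelSpace E]

omit [FiniteDimensional ℂ E] [BorelSpace E] in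
theorem SE_succ (ν : Measure E) (ϑ : ℝ) (k : ℕ) (w : E) :
    SE ν ϑ (k + 1) w = ϑ ^ 2 * SE ν ϑ k w + Ei ν (ϑ ^ 32) (k + 1) w := by
  unfold SE
  rw [Finset.sum_range_succ _ (k + 1), Finset.mul_sum]
  congr 1
  · apply Finset.sum_congr rfl
    intro i hi
    rw [Finset.mem_range] at hi
    have : 2 * (k + 1 - i) = 2 + 2 * (k - i) := by omega
    rw [this, pow_add]
    ring
  · simp

omit [FiniteDimensional ℂ E] [BorelSpace E] in
theorem SE_sum (ν : Measure E) (ϑ : ℝ) (w : E) {j k : ℕ} (hjk : j ≤ k) :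
    (1 - ϑ ^ 2) * ∑ i ∈ Finset.Ico j k, SE ν ϑ i w + SE ν ϑ k w =
      SE ν ϑ j w + ∑ i ∈ Finset.Ioc j k, Ei ν (ϑ ^ 32) i w := by
  induction k, hjk using Nat.le_induction with
  | base => simp
  | succ k hjk ih =>
    rw [Finset.sum_Ico_succ_top hjk, Finset.sum_Ioc_succ_top hjk, SE_succ]
    linear_combination ih

omit [FiniteDimensional ℂ E] [BorelSpace E] in
theorem DD_tele (ν : Measure E) (θ : ℝ) (z : E) {j k : ℕ} (hjk : j ≤ k) :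
    ∑ i ∈ Finset.Ico j k, ((DD ν ((rt θ (i + 1) : ℂ) • z)).re - (DD ν ((rt θ i : ℂ) • z)).re) =
      (DD ν ((rt θ k : ℂ) • z)).re - (DD ν ((rt θ j : ℂ) • z)).re := by
  induction k, hjk using Nat.le_induction with
  | base => simp
  | succ k hjk ih =>
    rw [Finset.sum_Ico_succ_top hjk, ih]
    ring

/-- the product of the factors -/
theorem prod_est (μ : Measure E) [μ.IsAddHaarMeasure] {m : ℕ} (hm : 1 ≤ m)
    (hdim : Module.finrank ℂ E = m + 1) {ϑ c ρ C₀ p M A : ℝ} (h : Par E ϑ c ρ C₀ p M A) :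
    ∃ (κ C : ℝ), 0 < C ∧ ∀ (ν : Measure E) (u : E → ℂ), HU ν u M A p C₀ → ∀ (K : ℕ) (z : E),
      1 - (ϑ ^ 32) ^ K ≤ ‖z‖ → ‖z‖ < 1 → ∀ j k : ℕ, j ≤ k → k ≤ K →
      ∏ i ∈ Finset.Ico j k, ‖XX μ m ν u ϑ c ρ (2 / ρ) κ i z‖ ≤
        C * Real.exp (-(1 * ∑ i ∈ Finset.Ico j k,
          (‖bb ν u ϑ c ρ (i + 1) z - bb ν u ϑ c ρ i z‖ + SE ν ϑ i z))) := by
  obtain ⟨C₁, hC₁, hL⟩ := La_est μ hm hdim h
  obtain ⟨cP, hcP, hP⟩ := path_lemma (E := E) h.θ0 h.θ1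
  have hρ := h.hρ
  have hM := h.hM
  have h2 : 0 < 1 - ϑ ^ 2 := by
    have := pow_lt_one₀ h.h0.le h.h1 (two_ne_zero)
    linarith
  obtain ⟨κ, hκ⟩ : ∃ κ, κ = (2 / ρ * C₁ + 1) / ((1 - ϑ ^ 2) * cP) := ⟨_, rfl⟩
  have hκ0 : 0 < κ := by rw [hκ]; positivity
  have hκ1 : κ * cP * (1 - ϑ ^ 2) = 2 / ρ * C₁ + 1 := by rw [hκ]; field_simp
  refine ⟨κ, Real.exp (96 * M ^ 2 / ρ + 3 * κ * A + κ * cP * (A / (1 - ϑ ^ 2))),
    Real.exp_pos _, ?_⟩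
  intro ν u hu K z hz1 hz2 j k hjk hkK
  have hθ0 := h.θ0
  have hθ1 := h.θ1
  have hzC : ∀ i, ‖z‖ < RC (ϑ ^ 32) i := by
    intro i
    have := one_lt_RB hθ0 i
    have := RB_lt_RA hθ0 i
    have := RA_lt_RC hθ0 i
    linarith
  have e1 : ∀ i, ‖XX μ m ν u ϑ c ρ (2 / ρ) κ i z‖ =
      Real.exp (2 / ρ * (La μ m ν u ϑ c ρ i z).re - κ * ((DD ν ((rt (ϑ ^ 32) (i + 1) : ℂ) • z)).re -
        (DD ν ((rt (ϑ ^ 32) i : ℂ) • z)).re)) := by
    intro i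
    unfold XX
    rw [Complex.norm_exp]
    congr 1
    simp only [Complex.sub_re, Complex.mul_re, Complex.ofReal_re, Complex.ofReal_im, zero_mul,
      sub_zero]
  rw [Finset.prod_congr rfl fun i _ => e1 i, ← Real.exp_sum, ← Real.exp_add]
  apply Real.exp_le_exp.mpr
  rw [Finset.sum_sub_distrib, ← Finset.mul_sum, ← Finset.mul_sum, DD_tele ν _ z hjk]
  -- the exponents
  have a1 : ∑ i ∈ Finset.Ico j k, (La μ m ν u ϑ c ρ i z).re ≤
      ∑ i ∈ Finset.Ico j k, ((NL ν u ϑ c ρ i z).re + C₁ * SE ν ϑ i z) := by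
    apply Finset.sum_le_sum
    intro i _
    have b1 := (hL ν u hu i).2.1 z hz2
    have b2 := (Complex.abs_re_le_norm (La μ m ν u ϑ c ρ i z - NL ν u ϑ c ρ i z)).trans b1
    rw [Complex.sub_re] at b2
    have b3 := le_abs_self ((La μ m ν u ϑ c ρ i z).re - (NL ν u ϑ c ρ i z).re)
    linarith
  rw [Finset.sum_add_distrib, ← Finset.mul_sum] at a1
  have a2 := seq_gauge (u := fun i => uk u (ϑ ^ 32) i z) (v := fun i => vv ν u ϑ c i z)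
    (b := fun i => bb ν u ϑ c ρ i z) (ρ := ρ) (B := 4 * M) hρ (by have := h.hρM; linarith)
    (fun i => rfl)
    (fun i => h.close ν u hu i z ((hzC i).trans_le (RC_succ_le hθ0 hθ1 i)))
    (fun i => h.b_le hu (hzC i))
    (fun i => by
      have b1 := h.close ν u hu i z ((hzC i).trans_le (RC_succ_le hθ0 hθ1 i))
      have b2 := h.uk_le hu (Nat.le_succ i) (hzC i)
      have b3 := h.hρM
      calc ‖vv ν u ϑ c i z‖ = ‖uk u (ϑ ^ 32) i z - (uk u (ϑ ^ 32) i z - vv ν u ϑ c i z)‖ := by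
            rw [sub_sub_cancel]
        _ ≤ ‖uk u (ϑ ^ 32) i z‖ + ‖uk u (ϑ ^ 32) i z - vv ν u ϑ c i z‖ := norm_sub_le _ _
        _ ≤ 4 * M := by linarith) hjk
  have a2' : ∑ i ∈ Finset.Ico j k, 2 * ((starRingEnd ℂ) (bb ν u ϑ c ρ i z) *
      (uk u (ϑ ^ 32) (i + 1) z - uk u (ϑ ^ 32) i z)).re =
      2 * ∑ i ∈ Finset.Ico j k, (NL ν u ϑ c ρ i z).re := by
    rw [Finset.mul_sum]
    rfl
  rw [a2'] at a2
  have a3 := hP ν A hu.carl z j k hjk (by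
    have : (ϑ ^ 32) ^ K ≤ (ϑ ^ 32) ^ k := pow_le_pow_of_le_one hθ0.le hθ1.le hkK
    linarith) hz2
  have a4 := SE_sum ν ϑ z hjk
  have a5 := SE_le h.h0 h.h1 hu.carl (hzC j)
  have a6 := SE_nonneg h.h0 ν k z
  have a7 : ∑ i ∈ Finset.Ioc j k, Ei ν (ϑ ^ 32) i z =
      ∑ i ∈ Finset.Ioc j k, EE ν ((rt (ϑ ^ 32) i : ℂ) • z) := rfl
  rw [a7] at a4
  rw [Finset.sum_add_distrib]
  set SL := ∑ i ∈ Finset.Ico j k, (La μ m ν u ϑ c ρ i z).re with hSL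
  set SN := ∑ i ∈ Finset.Ico j k, (NL ν u ϑ c ρ i z).re with hSN
  set SS := ∑ i ∈ Finset.Ico j k, SE ν ϑ i z with hSS
  set SI := ∑ i ∈ Finset.Ioc j k, EE ν ((rt (ϑ ^ 32) i : ℂ) • z) with hSI
  set SB := ∑ i ∈ Finset.Ico j k, ‖bb ν u ϑ c ρ (i + 1) z - bb ν u ϑ c ρ i z‖ with hSB
  set Dk := (DD ν ((rt (ϑ ^ 32) k : ℂ) • z)).re - (DD ν ((rt (ϑ ^ 32) j : ℂ) • z)).re with hDk
  have a8 : 2 / ρ * SN ≤ 96 * M ^ 2 / ρ - SB := by
    have : 2 * SN ≤ 96 * M ^ 2 - ρ * SB := by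
      calc 2 * SN ≤ 6 * (4 * M) ^ 2 - ρ * SB := a2
        _ = _ := by ring
    calc 2 / ρ * SN = (2 * SN) / ρ := by ring
      _ ≤ (96 * M ^ 2 - ρ * SB) / ρ := by gcongr
      _ = _ := by field_simp
  have a9 : (2 / ρ * C₁ + 1) * SS ≤ κ * cP * (A / (1 - ϑ ^ 2)) + κ * cP * SI := by
    rw [← hκ1]
    calc κ * cP * (1 - ϑ ^ 2) * SS = κ * cP * ((1 - ϑ ^ 2) * SS) := by ring
      _ ≤ κ * cP * (A / (1 - ϑ ^ 2) + SI) := by
          apply mul_le_mul_of_nonneg_left _ (by positivity)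
          linarith
      _ = _ := by ring
  have a10 : κ * cP * SI ≤ κ * Dk + 3 * κ * A := by
    calc κ * cP * SI = κ * (cP * SI) := by ring
      _ ≤ κ * (Dk + 3 * A) := mul_le_mul_of_nonneg_left a3 hκ0.le
      _ = _ := by ring
  have a11 : 2 / ρ * SL ≤ 2 / ρ * SN + 2 / ρ * C₁ * SS := by
    calc 2 / ρ * SL ≤ 2 / ρ * (SN + C₁ * SS) := mul_le_mul_of_nonneg_left a1 (by positivity)
      _ = _ := by ring
  linarith

/-- the holomorphic parts -/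
noncomputable def AS (μ : Measure E) (m : ℕ) (ν : Measure E) (u : E → ℂ) (ϑ c ρ cX κ : ℝ)
    (χ : ℂ → ℝ) (G₀ g₀ : ℕ → E → ℂ) : ℕ → E → ℂ
  | 0 => VQ χ (G₀ 0) (uk u (ϑ ^ 32) 0) (g₀ 0) (bb ν u ϑ c ρ 0)
  | k + 1 => fun w => XX μ m ν u ϑ c ρ cX κ k w * AS μ m ν u ϑ c ρ cX κ χ G₀ g₀ k w +
      PR μ m (RB (ϑ ^ 32) k) (NN μ m ν u ϑ c ρ cX κ χ G₀ g₀ k) w

theorem level_thm (μ : Measure E) [μ.IsAddHaarMeasure] {m : ℕ} (hm : 1 ≤ m)
    (hdim : Module.finrank ℂ E = m + 1) {ϑ c ρ C₀ p M A : ℝ} (h : Par E ϑ c ρ C₀ p M A)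
    {χ : ℂ → ℝ} {ε L : ℝ} (hχ : Bump χ ε L) (hρε : 6 * ρ ≤ ε) {Cg Dg : ℝ}
    (hCg : 0 ≤ Cg) (hDg : 0 ≤ Dg) :
    ∃ C : ℝ, 0 < C ∧ ∀ (ν : Measure E) (u : E → ℂ), HU ν u M A p C₀ → ∀ (K : ℕ)
      (G₀ g₀ g : ℕ → E → ℂ), Fam u (ϑ ^ 32) ε K G₀ g₀ g Cg Dg →
      ∃ 𝒜 : E → ℂ, DifferentiableOn ℂ 𝒜 (ball 0 1) ∧ ∀ z : E, 1 - (ϑ ^ 32) ^ K ≤ ‖z‖ → ‖z‖ < 1 →
        ‖VQ χ (G₀ K) (uk u (ϑ ^ 32) K) (g₀ K) (bb ν u ϑ c ρ K) z - 𝒜 z‖ ≤ C := by
  obtain ⟨κ, C₄, hC₄, hprod⟩ := prod_est μ hm hdim h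
  obtain ⟨C₁, hC₁, hN⟩ := NN_est μ hm hdim h (2 / ρ) κ hχ hρε hCg hDg
  obtain ⟨C₂, hC₂, hX⟩ := XX_est μ hm hdim h (2 / ρ) κ
  have hρ := h.hρ
  have hM := h.hM
  have hε : 0 < ε := by linarith
  have hL := hχ.L_nonneg
  have hθ0 := h.θ0
  have hθ1 := h.θ1
  have h2 : 0 < 1 - ϑ ^ 2 := by
    have := pow_lt_one₀ h.h0.le h.h1 (two_ne_zero)
    linarith
  obtain ⟨Ct, hCt⟩ : ∃ Ct, Ct = L * (Cg * (2 / ε)) + C₁ := ⟨_, rfl⟩
  have hCt0 : 0 ≤ Ct := by rw [hCt]; positivity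
  refine ⟨Ct * C₄ * Real.exp (1 * (8 * M + A / (1 - ϑ ^ 2))) / 1 + 1, by positivity, ?_⟩
  intro ν u hu K G₀ g₀ g hF
  refine ⟨AS μ m ν u ϑ c ρ (2 / ρ) κ χ G₀ g₀ K, ?_, ?_⟩
  · -- holomorphy
    have key : ∀ k ≤ K, DifferentiableOn ℂ (AS μ m ν u ϑ c ρ (2 / ρ) κ χ G₀ g₀ k) (ball 0 1) := by
      intro k
      induction k with
      | zero =>
        intro _ w hw
        apply DifferentiableAt.differentiableWithinAt
        have hwC : ‖w‖ < RC (ϑ ^ 32) 0 := by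
          have := one_lt_RB hθ0 0
          have := RB_lt_RA hθ0 0
          have := RA_lt_RC hθ0 0
          have := mem_ball_zero_iff.mp hw
          linarith
        have hp := hF.pc hθ0 hθ1 hu.diff (Nat.zero_le K) (Nat.zero_le 1) hwC
        have hu0 : ∀ w : E, uk u (ϑ ^ 32) 0 w = u 0 := by
          intro w; simp [uk, rt]
        have e : AS μ m ν u ϑ c ρ (2 / ρ) κ χ G₀ g₀ 0 = fun w =>
            (1 - ((χ (u 0) : ℝ) : ℂ)) * (G₀ 0 w / u 0) + ((χ (u 0) : ℝ) : ℂ) * g₀ 0 w := by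
          funext w
          simp only [AS, VQ, hu0]
          rfl
        rw [e]
        have hG := hp.dG.self_of_nhds
        by_cases h4 : ‖u 0‖ < 4 * ε
        · have hg := (hp.dg (by rw [hu0]; exact h4)).self_of_nhds
          simp only [div_eq_mul_inv]
          exact ((hG.mul_const _).const_mul _).add (hg.const_mul _)
        · push Not at h4
          rw [hχ.zero _ (by linarith)]
          simp only [Complex.ofReal_zero, zero_mul, add_zero, div_eq_mul_inv]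
          exact (hG.mul_const _).const_mul _
      | succ k ih =>
        intro hk
        have h1 := ih (by omega)
        have h3 : ball (0 : E) 1 ⊆ ball 0 (RA (ϑ ^ 32) k) := by
          apply ball_subset_ball
          have := one_lt_RB hθ0 k
          have := RB_lt_RA hθ0 k
          linarith
        exact (((hX ν u hu k).1.mono h3).mul h1).add (hN ν u hu K G₀ g₀ g hF k (by omega)).1
    exact key K le_rfl
  · intro z hz1 hz2
    have hA : 0 ≤ A := hu.carl.1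
    have hzC : ∀ i, ‖z‖ < RC (ϑ ^ 32) i := by
      intro i
      have := one_lt_RB hθ0 i
      have := RB_lt_RA hθ0 i
      have := RA_lt_RC hθ0 i
      linarith
    have key := seq_sum (x := fun i => ‖XX μ m ν u ϑ c ρ (2 / ρ) κ i z‖)
      (s := fun i => ‖bb ν u ϑ c ρ (i + 1) z - bb ν u ϑ c ρ i z‖ + SE ν ϑ i z)
      (w := fun i => ‖VQ χ (G₀ i) (uk u (ϑ ^ 32) i) (g₀ i) (bb ν u ϑ c ρ i) z -
        AS μ m ν u ϑ c ρ (2 / ρ) κ χ G₀ g₀ i z‖) (C := Ct) (C₄ := C₄) (c := 1)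
      (S := 8 * M + A / (1 - ϑ ^ 2)) (K := K) one_pos hCt0 hC₄.le
      (fun i _ => by
        have := SE_nonneg h.h0 ν i z
        positivity)
      (fun i _ => by
        have b1 := h.b_le hu (hzC i)
        have b2 := h.b_le hu (hzC (i + 1))
        have b3 := SE_le h.h0 h.h1 hu.carl (hzC i)
        have b4 := norm_sub_le (bb ν u ϑ c ρ (i + 1) z) (bb ν u ϑ c ρ i z)
        linarith)
      (fun i _ => norm_nonneg _)
      (by simp [AS])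
      (fun i hi => by
        have hUi : ‖bb ν u ϑ c ρ i z - uk u (ϑ ^ 32) (i + 1) z‖ ≤ ε / 2 :=
          (h.b_near' hu (hzC i)).trans (by linarith)
        have hUi' : ‖bb ν u ϑ c ρ (i + 1) z - uk u (ϑ ^ 32) (i + 1) z‖ ≤ ε / 2 :=
          (h.b_near hu (k := i + 1) (by simpa using hzC i)).trans (by linarith)
        have b1 := VQ_move hχ hε (hF.pc hθ0 hθ1 hu.diff (k := i + 1) hi le_rfl (hzC i)) hUi hUi'
          hCg (hF.hb (i + 1) hi z (by simpa using hzC i))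
        have b2 := (hN ν u hu K G₀ g₀ g hF i hi).2.2 z hz2
        have e : VQ χ (G₀ (i + 1)) (uk u (ϑ ^ 32) (i + 1)) (g₀ (i + 1)) (bb ν u ϑ c ρ (i + 1)) z -
            AS μ m ν u ϑ c ρ (2 / ρ) κ χ G₀ g₀ (i + 1) z =
            XX μ m ν u ϑ c ρ (2 / ρ) κ i z * (VQ χ (G₀ i) (uk u (ϑ ^ 32) i) (g₀ i)
              (bb ν u ϑ c ρ i) z - AS μ m ν u ϑ c ρ (2 / ρ) κ χ G₀ g₀ i z) +
            ((VQ χ (G₀ (i + 1)) (uk u (ϑ ^ 32) (i + 1)) (g₀ (i + 1)) (bb ν u ϑ c ρ (i + 1)) z -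
              VQ χ (G₀ (i + 1)) (uk u (ϑ ^ 32) (i + 1)) (g₀ (i + 1)) (bb ν u ϑ c ρ i) z) -
            (PR μ m (RB (ϑ ^ 32) i) (NN μ m ν u ϑ c ρ (2 / ρ) κ χ G₀ g₀ i) z -
              NN μ m ν u ϑ c ρ (2 / ρ) κ χ G₀ g₀ i z)) := by
          simp only [AS, NN]
          ring
        have hs1 := SE_nonneg h.h0 ν i z
        rw [e]
        refine (norm_add_le _ _).trans ?_
        rw [norm_mul]
        apply add_le_add le_rfl
        refine (norm_sub_le _ _).trans ?_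
        rw [hCt]
        have b3 := norm_nonneg (bb ν u ϑ c ρ (i + 1) z - bb ν u ϑ c ρ i z)
        have b4 : 0 ≤ L * (Cg * (2 / ε)) := by positivity
        nlinarith [mul_nonneg hC₁.le b3, mul_nonneg b4 hs1])
      (fun j k hjk hkK => hprod ν u hu K z hz1 hz2 j k hjk hkK)
    linarith

end Pool.Agent.MPca0fc2.PT
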