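import Mathlib
import Pool.Agent.Lib.MP_ca0fc2_an.PTX4
import Pool.Agent.Lib.MP_ca0fc2_an.QTXa

set_option autoImplicit false

open Metric Set MeasureTheory Filter Topology
open scoped InnerProductSpace ENNReal

namespace Pool.Agent.MPca0fc2.QT

open Pool.Agent.MPca0fc2.PT

theorem xe_pow {x s : ℝ} (hx : 0 < x) (hx4 : x ≤ 4) (hs0 : 0 ≤ s) (hs1 : s ≤ 1) :
    x ≤ 4 * x ^ s ∧ x ^ s ≤ 4 := by
  have h1 : x ^ s ≤ 4 := by
    calc x ^ s ≤ (4 : ℝ) ^ s := Real.rpow_le_rpow hx.le hx4 hs0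
      _ ≤ (4 : ℝ) ^ (1 : ℝ) := Real.rpow_le_rpow_of_exponent_le (by norm_num) hs1
      _ = 4 := Real.rpow_one 4
  have h2 : x ^ (1 - s) ≤ 4 := by
    calc x ^ (1 - s) ≤ (4 : ℝ) ^ (1 - s) := Real.rpow_le_rpow hx.le hx4 (by linarith)
      _ ≤ (4 : ℝ) ^ (1 : ℝ) := Real.rpow_le_rpow_of_exponent_le (by norm_num) (by linarith)
      _ = 4 := Real.rpow_one 4
  refine ⟨?_, h1⟩
  have h3 : x = x ^ (1 - s) * x ^ s := by
    rw [← Real.rpow_add hx, sub_add_cancel, Real.rpow_one]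
  have h4 : 0 ≤ x ^ s := Real.rpow_nonneg hx.le s
  calc x = x ^ (1 - s) * x ^ s := h3
    _ ≤ 4 * x ^ s := mul_le_mul_of_nonneg_right h2 h4

variable {E : Type*} [NormedAddCommGroup E] [InnerProductSpace ℂ E]
variable [FiniteDimensional ℂ E] [MeasurableSpace E] [BorelSpace E]

theorem XQ_est (μ : Measure E) [μ.IsAddHaarMeasure] {m : ℕ} (hm : 1 ≤ m)
    (hdim : Module.finrank ℂ E = m + 1) {θ ϑ : ℝ} {P : ℕ} {c ρ C₀ p M A : ℝ}
    (h : ParQ E m θ ϑ P c ρ C₀ p M A) (d : ℕ) (κ : ℝ) :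
    ∃ C : ℝ, 0 < C ∧ ∀ (ν : Measure E) (u : Fin d → E → ℂ), (∀ j, HU ν (u j) M A p C₀) →
      Carl ν A → ∀ (k : ℕ),
      DifferentiableOn ℂ (XQ μ m ν u θ ϑ c ρ κ k) (ball 0 (RL θ k)) ∧
      ∀ z : E, ‖z‖ ≤ RA θ k → ‖XQ μ m ν u θ ϑ c ρ κ k z - 1‖ ≤ C * xk θ k z ^ (1 - 4 / P : ℝ) := by
  obtain ⟨C₁, hC₁, hb⟩ := LQ_est μ hm hdim h
  have hρ := h.hρ
  have hθ := h.θ0
  have hθ1 := h.θ1
  have hP : (42 : ℝ) ≤ P := by
    have : 42 ≤ P := by have := h.hPm; omega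
    exact_mod_cast this
  have hs0 : (0 : ℝ) ≤ 1 - 4 / P := by
    have : (4 : ℝ) / P ≤ 1 := by
      rw [div_le_one (by linarith)]
      linarith
    linarith
  have hs1 : (1 : ℝ) - 4 / P ≤ 1 := by
    have : (0 : ℝ) ≤ 4 / P := by positivity
    linarith
  obtain ⟨C₂, hC₂⟩ : ∃ C₂, C₂ = 2 / ρ * (d * C₁) + |κ| * (64 / θ * |A| * 2 * 4) := ⟨_, rfl⟩
  have hC₂0 : 0 ≤ C₂ := by rw [hC₂]; positivity
  refine ⟨C₂ * Real.exp (C₂ * 4) + 1, by positivity, ?_⟩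
  intro ν u hu hcarl k
  have hA : 0 ≤ A := hcarl.1
  have hpk : 0 < θ ^ (k + 1) := by positivity
  have hLC : RL θ k < RC θ k := by
    unfold RL RC
    linarith
  have hAC := RA_lt_RC hθ k
  constructor
  · have hmem : ∀ i ≤ k + 1, MapsTo (fun w : E => (rt θ i : ℂ) • w)
        (ball 0 (RL θ k)) (ball 0 1) := by
      intro i hi w hw
      exact rt_smul_mem hθ hθ1 hi ((mem_ball_zero_iff.mp hw).trans hLC)
    have hD : ∀ i ≤ k + 1, DifferentiableOn ℂ (fun w : E => DD ν ((rt θ i : ℂ) • w))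
        (ball 0 (RL θ k)) := by
      intro i hi
      exact (DD_diff hcarl).comp (by fun_prop) (hmem i hi)
    have hS : DifferentiableOn ℂ (fun w : E => ∑ j, LQ μ m ν (u j) θ ϑ c ρ k w)
        (ball 0 (RL θ k)) :=
      DifferentiableOn.fun_sum fun j _ => (hb ν (u j) (hu j) k).1
    unfold XQ
    exact ((hS.const_mul _).sub (((hD _ le_rfl).sub (hD _ (Nat.le_succ k))).const_mul _)).cexp
  · intro z hz
    have hzC : ‖z‖ < RC θ k := hz.trans_lt hAC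
    have a2 := DD_est hθ hθ1 hcarl hzC
    have a5 := xk_pos hθ hθ1 hzC
    obtain ⟨a3, a4⟩ := xe_pow a5 (xk_le hθ hθ1 hzC) hs0 hs1
    have a1 : ‖∑ j, LQ μ m ν (u j) θ ϑ c ρ k z‖ ≤ d * (C₁ * xk θ k z ^ (1 - 4 / P : ℝ)) := by
      refine (norm_sum_le _ _).trans ?_
      refine (Finset.sum_le_sum fun j _ => (hb ν (u j) (hu j) k).2.2 z hz).trans ?_
      simp
    have hy : ‖((2 / ρ : ℝ) : ℂ) * ∑ j, LQ μ m ν (u j) θ ϑ c ρ k z - (κ : ℂ) *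
        (DD ν ((rt θ (k + 1) : ℂ) • z) - DD ν ((rt θ k : ℂ) • z))‖ ≤
        C₂ * xk θ k z ^ (1 - 4 / P : ℝ) := by
      refine (norm_sub_le _ _).trans ?_
      rw [norm_mul, norm_mul, Complex.norm_real, Complex.norm_real, Real.norm_eq_abs,
        Real.norm_eq_abs, hC₂, abs_of_nonneg hA, abs_of_nonneg (by positivity : (0 : ℝ) ≤ 2 / ρ)]
      calc 2 / ρ * ‖∑ j, LQ μ m ν (u j) θ ϑ c ρ k z‖ + |κ| *
            ‖DD ν ((rt θ (k + 1) : ℂ) • z) - DD ν ((rt θ k : ℂ) • z)‖ ≤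
          2 / ρ * (d * (C₁ * xk θ k z ^ (1 - 4 / P : ℝ))) + |κ| *
            (64 / θ * A * 2 * (4 * xk θ k z ^ (1 - 4 / P : ℝ))) := by
            gcongr
            exact a2.trans (by gcongr)
        _ = _ := by ring
    have hy4 : C₂ * xk θ k z ^ (1 - 4 / P : ℝ) ≤ C₂ * 4 := by gcongr
    unfold XQ
    refine (exp_sub_one_le _).trans ?_
    calc _ ≤ C₂ * xk θ k z ^ (1 - 4 / P : ℝ) * Real.exp (C₂ * 4) := by
          apply mul_le_mul hy (Real.exp_le_exp.mpr (hy.trans hy4)) (Real.exp_pos _).le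
            (by positivity)
      _ = C₂ * Real.exp (C₂ * 4) * xk θ k z ^ (1 - 4 / P : ℝ) := by ring
      _ ≤ _ := by
          gcongr
          linarith

/-- the product of the factors -/
theorem prodQ_est (μ : Measure E) [μ.IsAddHaarMeasure] {m : ℕ} (hm : 1 ≤ m)
    (hdim : Module.finrank ℂ E = m + 1) {θ ϑ : ℝ} {P : ℕ} {c ρ C₀ p M A : ℝ}
    (h : ParQ E m θ ϑ P c ρ C₀ p M A) (d : ℕ) :
    ∃ (κ C : ℝ), 0 < C ∧ ∀ (ν : Measure E) (u : Fin d → E → ℂ), (∀ j, HU ν (u j) M A p C₀) →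
      Carl ν A → ∀ (K : ℕ) (z : E),
      1 - θ ^ K ≤ ‖z‖ → ‖z‖ < 1 → ∀ j k : ℕ, j ≤ k → k ≤ K →
      ∏ i ∈ Finset.Ico j k, ‖XQ μ m ν u θ ϑ c ρ κ i z‖ ≤
        C * Real.exp (-(1 * ∑ i ∈ Finset.Ico j k,
          (∑ l, ‖bq ν (u l) θ ϑ c ρ (i + 1) z - bq ν (u l) θ ϑ c ρ i z‖ + SQ ν θ ϑ i z))) := by
  obtain ⟨C₁, hC₁, hL⟩ := LQ_est μ hm hdim h
  obtain ⟨cP, hcP, hP⟩ := path_lemma (E := E) h.θ0 h.θ1
  have hρ := h.hρ
  have hM := h.hM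
  have h2 : 0 < 1 - ϑ ^ 2 := by
    have := pow_lt_one₀ h.h0.le h.h1 (two_ne_zero)
    linarith
  obtain ⟨κ, hκ⟩ : ∃ κ, κ = (2 / ρ * (d * C₁) + 1) / ((1 - ϑ ^ 2) * cP) := ⟨_, rfl⟩
  have hκ0 : 0 < κ := by rw [hκ]; positivity
  have hκ1 : κ * cP * (1 - ϑ ^ 2) = 2 / ρ * (d * C₁) + 1 := by rw [hκ]; field_simp
  refine ⟨κ, Real.exp (d * (150 * M ^ 2 / ρ) + 3 * κ * A + κ * cP * (A / (1 - ϑ ^ 2))),
    Real.exp_pos _, ?_⟩
  intro ν u hu hcarl K z hz1 hz2 j k hjk hkK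
  have hθ0 := h.θ0
  have hθ1 := h.θ1
  have hzC : ∀ i, ‖z‖ < RC θ i := by
    intro i
    have := one_lt_RB hθ0 i
    have := RB_lt_RA hθ0 i
    have := RA_lt_RC hθ0 i
    linarith
  have hzA : ∀ i, ‖z‖ ≤ RA θ i := by
    intro i
    have := one_lt_RB hθ0 i
    have := RB_lt_RA hθ0 i
    linarith
  have e1 : ∀ i, ‖XQ μ m ν u θ ϑ c ρ κ i z‖ =
      Real.exp (2 / ρ * (∑ l, (LQ μ m ν (u l) θ ϑ c ρ i z).re) -
        κ * ((DD ν ((rt θ (i + 1) : ℂ) • z)).re - (DD ν ((rt θ i : ℂ) • z)).re)) := by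
    intro i
    unfold XQ
    rw [Complex.norm_exp]
    congr 1
    simp only [Complex.sub_re, Complex.mul_re, Complex.ofReal_re, Complex.ofReal_im, zero_mul,
      sub_zero, Complex.re_sum]
  rw [Finset.prod_congr rfl fun i _ => e1 i, ← Real.exp_sum, ← Real.exp_add]
  apply Real.exp_le_exp.mpr
  rw [Finset.sum_sub_distrib, ← Finset.mul_sum, ← Finset.mul_sum, DD_tele ν _ z hjk]
  -- the exponents
  have a8 : ∀ l, 2 / ρ * ∑ i ∈ Finset.Ico j k, (LQ μ m ν (u l) θ ϑ c ρ i z).re ≤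
      150 * M ^ 2 / ρ - ∑ i ∈ Finset.Ico j k,
        ‖bq ν (u l) θ ϑ c ρ (i + 1) z - bq ν (u l) θ ϑ c ρ i z‖ +
      2 / ρ * C₁ * ∑ i ∈ Finset.Ico j k, SQ ν θ ϑ i z := by
    intro l
    have a1 : ∑ i ∈ Finset.Ico j k, (LQ μ m ν (u l) θ ϑ c ρ i z).re ≤
        ∑ i ∈ Finset.Ico j k, ((NQ ν (u l) θ ϑ c ρ i z).re + C₁ * SQ ν θ ϑ i z) := by
      apply Finset.sum_le_sum
      intro i _
      have b1 := (hL ν (u l) (hu l) i).2.1 z (hzA i)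
      have b2 := (Complex.abs_re_le_norm (LQ μ m ν (u l) θ ϑ c ρ i z -
        NQ ν (u l) θ ϑ c ρ i z)).trans b1
      rw [Complex.sub_re] at b2
      have b3 := le_abs_self ((LQ μ m ν (u l) θ ϑ c ρ i z).re - (NQ ν (u l) θ ϑ c ρ i z).re)
      linarith
    rw [Finset.sum_add_distrib, ← Finset.mul_sum] at a1
    have a2 := seq_gauge3 (u := fun i => uk (u l) θ i z) (v := fun i => vq ν (u l) θ ϑ c i z)
      (b := fun i => bq ν (u l) θ ϑ c ρ i z) (ρ := ρ) (B := 5 * M) hρ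
      (by have := h.hρM; linarith)
      (fun i => rfl)
      (fun i => h.close ν (u l) (hu l) i z ((hzC i).trans_le (RC_succ_le hθ0 hθ1 i)))
      (fun i => h.b_le (hu l) (hzC i))
      (fun i => by
        have b1 := h.close ν (u l) (hu l) i z ((hzC i).trans_le (RC_succ_le hθ0 hθ1 i))
        have b2 := h.uk_le (hu l) (Nat.le_succ i) (hzC i)
        have b3 := h.hρM
        calc ‖vq ν (u l) θ ϑ c i z‖ =
              ‖uk (u l) θ i z - (uk (u l) θ i z - vq ν (u l) θ ϑ c i z)‖ := by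
              rw [sub_sub_cancel]
          _ ≤ ‖uk (u l) θ i z‖ + ‖uk (u l) θ i z - vq ν (u l) θ ϑ c i z‖ := norm_sub_le _ _
          _ ≤ 5 * M := by linarith) hjk
    have a2' : ∑ i ∈ Finset.Ico j k, 2 * ((starRingEnd ℂ) (bq ν (u l) θ ϑ c ρ i z) *
        (uk (u l) θ (i + 1) z - uk (u l) θ i z)).re =
        2 * ∑ i ∈ Finset.Ico j k, (NQ ν (u l) θ ϑ c ρ i z).re := by
      rw [Finset.mul_sum]
      rfl
    rw [a2'] at a2
    set SL := ∑ i ∈ Finset.Ico j k, (LQ μ m ν (u l) θ ϑ c ρ i z).re with hSL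
    set SN := ∑ i ∈ Finset.Ico j k, (NQ ν (u l) θ ϑ c ρ i z).re with hSN
    set SS := ∑ i ∈ Finset.Ico j k, SQ ν θ ϑ i z with hSS
    set SB := ∑ i ∈ Finset.Ico j k,
      ‖bq ν (u l) θ ϑ c ρ (i + 1) z - bq ν (u l) θ ϑ c ρ i z‖ with hSB
    have a8 : 2 / ρ * SN ≤ 150 * M ^ 2 / ρ - SB := by
      have : 2 * SN ≤ 150 * M ^ 2 - ρ * SB := by
        calc 2 * SN ≤ 6 * (5 * M) ^ 2 - ρ * SB := a2
          _ = _ := by ring
      calc 2 / ρ * SN = (2 * SN) / ρ := by ring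
        _ ≤ (150 * M ^ 2 - ρ * SB) / ρ := by gcongr
        _ = _ := by field_simp
    have a11 : 2 / ρ * SL ≤ 2 / ρ * SN + 2 / ρ * C₁ * SS := by
      calc 2 / ρ * SL ≤ 2 / ρ * (SN + C₁ * SS) := mul_le_mul_of_nonneg_left a1 (by positivity)
        _ = _ := by ring
    linarith
  have a3 := hP ν A hcarl z j k hjk (by
    have : θ ^ K ≤ θ ^ k := pow_le_pow_of_le_one hθ0.le hθ1.le hkK
    linarith) hz2
  have a4 := SQ_sum ν θ ϑ z hjk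
  have a5 := SQ_le hθ0 hθ1 h.h0 h.h1 hcarl (hzC j)
  have a6 := SQ_nonneg (θ := θ) h.h0 ν k z
  have a7 : ∑ i ∈ Finset.Ioc j k, Ei ν θ i z =
      ∑ i ∈ Finset.Ioc j k, EE ν ((rt θ i : ℂ) • z) := rfl
  rw [a7] at a4
  have b0 : ∑ i ∈ Finset.Ico j k, (∑ l, (LQ μ m ν (u l) θ ϑ c ρ i z).re) =
      ∑ l, ∑ i ∈ Finset.Ico j k, (LQ μ m ν (u l) θ ϑ c ρ i z).re := Finset.sum_comm
  have b1 : ∑ i ∈ Finset.Ico j k,
      (∑ l, ‖bq ν (u l) θ ϑ c ρ (i + 1) z - bq ν (u l) θ ϑ c ρ i z‖) =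
      ∑ l, ∑ i ∈ Finset.Ico j k, ‖bq ν (u l) θ ϑ c ρ (i + 1) z - bq ν (u l) θ ϑ c ρ i z‖ :=
    Finset.sum_comm
  have b2 : 2 / ρ * ∑ l, ∑ i ∈ Finset.Ico j k, (LQ μ m ν (u l) θ ϑ c ρ i z).re ≤
      d * (150 * M ^ 2 / ρ) - ∑ l, ∑ i ∈ Finset.Ico j k,
        ‖bq ν (u l) θ ϑ c ρ (i + 1) z - bq ν (u l) θ ϑ c ρ i z‖ +
      2 / ρ * (d * C₁) * ∑ i ∈ Finset.Ico j k, SQ ν θ ϑ i z := by
    rw [Finset.mul_sum]
    refine (Finset.sum_le_sum fun l _ => a8 l).trans ?_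
    rw [Finset.sum_add_distrib, Finset.sum_sub_distrib]
    simp only [Finset.sum_const, Finset.card_univ, Fintype.card_fin, nsmul_eq_mul]
    apply le_of_eq
    ring
  rw [Finset.sum_add_distrib, b0, b1]
  set SL := ∑ l, ∑ i ∈ Finset.Ico j k, (LQ μ m ν (u l) θ ϑ c ρ i z).re with hSL
  set SS := ∑ i ∈ Finset.Ico j k, SQ ν θ ϑ i z with hSS
  set SI := ∑ i ∈ Finset.Ioc j k, EE ν ((rt θ i : ℂ) • z) with hSI
  set SB := ∑ l, ∑ i ∈ Finset.Ico j k,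
    ‖bq ν (u l) θ ϑ c ρ (i + 1) z - bq ν (u l) θ ϑ c ρ i z‖ with hSB
  set Dk := (DD ν ((rt θ k : ℂ) • z)).re - (DD ν ((rt θ j : ℂ) • z)).re with hDk
  have a9 : (2 / ρ * (d * C₁) + 1) * SS ≤ κ * cP * (A / (1 - ϑ ^ 2)) + κ * cP * SI := by
    rw [← hκ1]
    calc κ * cP * (1 - ϑ ^ 2) * SS = κ * cP * ((1 - ϑ ^ 2) * SS) := by ring
      _ ≤ κ * cP * (A / (1 - ϑ ^ 2) + SI) := by
          apply mul_le_mul_of_nonneg_left _ (by positivity)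
          linarith
      _ = _ := by ring
  have a10 : κ * cP * SI ≤ κ * Dk + 3 * κ * A := by
    calc κ * cP * SI = κ * (cP * SI) := by ring
      _ ≤ κ * (Dk + 3 * A) := mul_le_mul_of_nonneg_left a3 hκ0.le
      _ = _ := by ring
  linarith

end Pool.Agent.MPca0fc2.QT
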