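import Mathlib
import Pool.Agent.Lib.MP_ca0fc2_an.MXQTCmq
import Pool.Agent.Lib.MP_ca0fc2_an.QTProj

set_option autoImplicit false

open Metric Set MeasureTheory Filter Topology

open scoped InnerProductSpace ENNReal

namespace Pool.Agent.MPca0fc2.MX.Q

open Pool.Agent.MPca0fc2.PT Pool.Agent.MPca0fc2.QT

variable {E : Type*} [NormedAddCommGroup E] [InnerProductSpace ℂ E]

variable [FiniteDimensional ℂ E] [MeasurableSpace E] [BorelSpace E]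

theorem PR_w (μ : Measure E) [μ.IsAddHaarMeasure] {m : ℕ} (hm : 1 ≤ m)
    (hdim : Module.finrank ℂ E = m + 1) {θ ϑ : ℝ} (h0 : 0 < ϑ) (h1 : ϑ < 1) {P : ℕ}
    (hP : θ = ϑ ^ P) (hP4 : 4 ≤ P) {c₀ : ℝ} (hc₀ : 0 < c₀) {γ : ℝ} (hγ : 1 / 2 + 2 / P ≤ γ)
    (hγ1 : γ ≤ 1) :
    ∃ C : ℝ, 0 < C ∧ ∀ (ν : Ptl E) (A : ℝ), Carl ν A → ∀ (k : ℕ) (R B : ℝ) (N : E → ℂ)
      (U : Set E) (z : E), 1 ≤ R → R ≤ RC θ k → IsOpen U → closedBall (0 : E) R ⊆ U →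
      ContDiffOn ℝ 1 N U → ‖z‖ + c₀ * θ ^ k ≤ R → 0 ≤ B →
      (∀ w ∈ ball (0 : E) R, ∀ x : E, ‖dbE N w x‖ ≤
        B * xk θ k w ^ γ * SQ ν θ ϑ k w * gau (dl θ k w) w x) →
      ‖PR μ m R N z - N z‖ ≤ C * B * xk θ k z ^ (γ - 2 / P) * SQ ν θ ϑ k z := by
  have hθ0 : 0 < θ := by rw [hP]; exact pow_pos h0 _
  have hθ1 : θ < 1 := by rw [hP]; exact pow_lt_one₀ h0.le h1 (by omega)
  obtain ⟨C, hC, hPR⟩ := PR_sub μ hm hdim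
  obtain ⟨C1, hC1, hS⟩ := SQ_compare (E := E) h0 h1 hP hP4 hc₀ hγ hγ1
  obtain ⟨C2, hC2, hG⟩ := gau_compare (E := E) hθ0 hθ1 hc₀
  refine ⟨C * (C1 * C2), by positivity, ?_⟩
  intro ν A hA k R B N U z hR hRC hU hsub hN hz hB hyp
  have hθk : 0 < θ ^ k := pow_pos hθ0 _
  have hzR : ‖z‖ < R := by nlinarith [mul_pos hc₀ hθk]
  have hx : 0 < xk θ k z := xk_pos hθ0 hθ1 (hzR.trans_le hRC)
  have hT : 0 ≤ xk θ k z ^ (γ - 2 / P) * SQ ν θ ϑ k z :=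
    mul_nonneg (Real.rpow_nonneg hx.le _) (SQ_nonneg h0 ν k z)
  have hmain := hPR R N U z (B * (C1 * C2) * (xk θ k z ^ (γ - 2 / P) * SQ ν θ ϑ k z))
    (by linarith) hU hsub hN hzR (by positivity) ?_
  · refine hmain.trans (le_of_eq ?_)
    ring
  · intro w hw x
    have hw' : ‖w‖ < R := by simpa using hw
    have h2 := hS ν A hA k R z w hR hRC hz hw'
    have h3 := (hG k R w x hR hRC).1 hw'
    have hw2 : 0 ≤ R ^ 2 - ‖w‖ ^ 2 := by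
      have := norm_nonneg w
      nlinarith
    have hg0 : 0 ≤ gau (R ^ 2 - ‖w‖ ^ 2) w x := qtp_gau_nonneg hw2 w x
    have hg1 : 0 ≤ gau (dl θ k w) w x :=
      qtp_gau_nonneg (dl_pos hθ0 hθ1 (hw'.trans_le hRC)).le w x
    set q : ℝ := (‖((R ^ 2 : ℝ) : ℂ) - ⟪w, z⟫_ℂ‖ / (R ^ 2 - ‖w‖ ^ 2)) ^ 3 with hq
    set s : ℝ := Real.sqrt ((R ^ 2 - ‖z‖ ^ 2) / ‖((R ^ 2 : ℝ) : ℂ) - ⟪w, z⟫_ℂ‖) with hs
    have hq0 : 0 ≤ q := by rw [hq]; positivity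
    have hs0 : 0 ≤ s := Real.sqrt_nonneg _
    set T : ℝ := xk θ k z ^ (γ - 2 / P) * SQ ν θ ϑ k z with hTdef
    have hx' : 0 < xk θ k w := xk_pos hθ0 hθ1 (hw'.trans_le hRC)
    have hS0 : 0 ≤ xk θ k w ^ γ * SQ ν θ ϑ k w :=
      mul_nonneg (Real.rpow_nonneg hx'.le _) (SQ_nonneg h0 ν k w)
    calc ‖dbE N w x‖ ≤ B * xk θ k w ^ γ * SQ ν θ ϑ k w * gau (dl θ k w) w x := hyp w hw x
      _ = B * (xk θ k w ^ γ * SQ ν θ ϑ k w) * gau (dl θ k w) w x := by ring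
      _ ≤ B * (C1 * T * q * s) * (C2 * gau (R ^ 2 - ‖w‖ ^ 2) w x) := by
          apply mul_le_mul _ h3 hg1 (by positivity)
          exact mul_le_mul_of_nonneg_left h2 hB
      _ = B * (C1 * C2) * T * q * s * gau (R ^ 2 - ‖w‖ ^ 2) w x := by ring

end Pool.Agent.MPca0fc2.MX.Q
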