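import Mathlib
import Pool.Agent.Lib.MP_ca0fc2_an.MXPTX2
import Pool.Agent.Lib.MP_ca0fc2_an.MXQTBg
import Pool.Agent.Lib.MP_ca0fc2_an.MXQTProj
import Pool.Agent.Lib.MP_ca0fc2_an.QTXa
import Pool.Agent.Lib.MP_ca0fc2_an.TMXp

set_option autoImplicit false

open Metric Set MeasureTheory Filter Topology

open scoped InnerProductSpace ENNReal

namespace Pool.Agent.MPca0fc2.MX.Q.T

open Pool.Agent.MPca0fc2.PT Pool.Agent.MPca0fc2.QT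

variable {E : Type*} [NormedAddCommGroup E] [InnerProductSpace ℂ E]

variable [FiniteDimensional ℂ E] [MeasurableSpace E] [BorelSpace E]

variable {cls : Ptl E → (E → ℂ) → Prop}

theorem NQ_c1 {m : ℕ} {θ ϑ : ℝ} {P : ℕ} {c ρ C₀ M A : ℝ} {ν : Ptl E} {u : E → ℂ}
    (h : ParQ E m θ ϑ P c ρ C₀ cls M A) (hu : HU ν u M A cls C₀) (k : ℕ) :
    ContDiffOn ℝ 1 (NQ ν u θ ϑ c ρ k) (ball 0 (RC θ k)) := by
  have h1 : ContDiffOn ℝ 1 (bq ν u θ ϑ c ρ k) (ball 0 (RC θ k)) :=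
    (h.b_c2 hu k).of_le (by norm_num)
  have h2 : ContDiffOn ℝ 1 (fun w => (starRingEnd ℂ) (bq ν u θ ϑ c ρ k w))
      (ball 0 (RC θ k)) := (Complex.conjCLE : ℂ →L[ℝ] ℂ).contDiff.comp_contDiffOn h1
  exact h2.mul (holo_c1 isOpen_ball ((uk_diff h.θ0 h.θ1 hu.diff le_rfl).sub
    (uk_diff h.θ0 h.θ1 hu.diff (Nat.le_succ k))))

theorem NQ_dbE {m : ℕ} {θ ϑ : ℝ} {P : ℕ} {c ρ C₀ M A : ℝ} {ν : Ptl E} {u : E → ℂ}
    (h : ParQ E m θ ϑ P c ρ C₀ cls M A) (hu : HU ν u M A cls C₀) {k : ℕ} {w : E}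
    (hw : ‖w‖ < RC θ k) (x : E) : ‖dbE (NQ ν u θ ϑ c ρ k) w x‖ ≤
      ρ * (xk θ k w * ((‖fderiv ℝ (bq ν u θ ϑ c ρ k) w x‖ +
        ‖fderiv ℝ (bq ν u θ ϑ c ρ k) w (Complex.I • x)‖) / 2)) := by
  have hb : DifferentiableAt ℝ (bq ν u θ ϑ c ρ k) w :=
    ((h.b_c2 hu k).contDiffAt (isOpen_ball.mem_nhds
      (mem_ball_zero_iff.mpr hw))).differentiableAt (by norm_num)
  have hb' : DifferentiableAt ℝ (fun w => (starRingEnd ℂ) (bq ν u θ ϑ c ρ k w)) w :=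
    (Complex.conjCLE : ℂ →L[ℝ] ℂ).differentiableAt.comp w hb
  have hd := ((uk_diff h.θ0 h.θ1 hu.diff (le_refl (k + 1))).sub
    (uk_diff h.θ0 h.θ1 hu.diff (Nat.le_succ k))).differentiableAt
      (isOpen_ball.mem_nhds (mem_ball_zero_iff.mpr hw))
  have e : NQ ν u θ ϑ c ρ k = fun w => (starRingEnd ℂ) (bq ν u θ ϑ c ρ k w) *
    (uk u θ (k + 1) w - uk u θ k w) := rfl
  rw [e]
  have e2 := dbE_mul_holo hb' hd x
  refine (le_of_eq (congrArg norm e2)).trans ?_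
  rw [norm_mul]
  have h1 := dbE_conj_le hb x
  have h2 := (h.step hu.diff hu.bd hw).1
  have hx := xk_pos h.θ0 h.θ1 hw
  have hρ := h.hρ
  calc _ ≤ ((‖fderiv ℝ (bq ν u θ ϑ c ρ k) w x‖ +
        ‖fderiv ℝ (bq ν u θ ϑ c ρ k) w (Complex.I • x)‖) / 2) * (ρ / 8 * xk θ k w) := by
        apply mul_le_mul h1 h2 (norm_nonneg _) (by positivity)
    _ = (ρ / 8) * (xk θ k w * ((‖fderiv ℝ (bq ν u θ ϑ c ρ k) w x‖ +
        ‖fderiv ℝ (bq ν u θ ϑ c ρ k) w (Complex.I • x)‖) / 2)) := by ring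
    _ ≤ _ := by
        gcongr
        linarith

theorem LQ_est (μ : Measure E) [μ.IsAddHaarMeasure] {m : ℕ} (hm : 1 ≤ m)
    (hdim : Module.finrank ℂ E = m + 1) {θ ϑ : ℝ} {P : ℕ} {c ρ C₀ M A : ℝ}
    (h : ParQ E m θ ϑ P c ρ C₀ cls M A) :
    ∃ C : ℝ, 0 < C ∧ ∀ (ν : Ptl E) (u : E → ℂ), HU ν u M A cls C₀ → ∀ (k : ℕ),
      DifferentiableOn ℂ (LQ μ m ν u θ ϑ c ρ k) (ball 0 (RL θ k)) ∧
      (∀ z : E, ‖z‖ ≤ RA θ k → ‖LQ μ m ν u θ ϑ c ρ k z - NQ ν u θ ϑ c ρ k z‖ ≤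
        C * SQ ν θ ϑ k z) ∧
      ∀ z : E, ‖z‖ ≤ RA θ k → ‖LQ μ m ν u θ ϑ c ρ k z‖ ≤ C * xk θ k z ^ (1 - 4 / P : ℝ) := by
  have hPm := h.hPm
  have hP30 : (30 : ℝ) ≤ (P : ℝ) := by
    have : 30 ≤ P := by omega
    exact_mod_cast this
  have hP0 : (0 : ℝ) < P := by linarith
  have hθ0 := h.θ0
  have hθ1 := h.θ1
  have h4P : (4 / P : ℝ) ≤ 4 / 30 := by gcongr
  have h2P : (2 / P : ℝ) ≤ 2 / 30 := by gcongr
  have h4P0 : (0 : ℝ) < 4 / P := by positivity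
  have h2P0 : (0 : ℝ) < 2 / P := by positivity
  have hc₀ : (0 : ℝ) < θ / 8 := by positivity
  obtain ⟨C₁, hC₁, hb⟩ := bq_grad (E := E) (cls := cls) h.h0 h.h1 h.hP (by omega) h.hC₀ h.hc h.hc1
  obtain ⟨C₂, hC₂, hs⟩ := PR_w μ hm hdim h.h0 h.h1 h.hP (by omega) hc₀
    (γ := 1 - 4 / P) (by linarith) (by linarith)
  obtain ⟨C₃, hC₃, hd⟩ := PR_x μ hm hdim hθ0 hθ1 hc₀ (γ := 1 - 4 / P) (by linarith) (by linarith)
  have hρ := h.hρ
  have hM := h.hM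
  have h2 : 0 < 1 - ϑ ^ 2 := by
    have := pow_lt_one₀ h.h0.le h.h1 (two_ne_zero)
    linarith
  refine ⟨C₂ * (ρ * C₁) * 4 + (C₃ * (ρ * C₁ * (|A| / (1 - ϑ ^ 2))) + 5 * M * ρ), by
    positivity, ?_⟩
  intro ν u hu k
  have hA : 0 ≤ A := hu.carl.1
  rw [abs_of_nonneg hA]
  have hθk : 0 < θ ^ (k + 1) := by positivity
  have hRL1 : 1 ≤ RL θ k := by unfold RL; linarith
  have hRLC : RL θ k < RC θ k := by unfold RL RC; linarith
  have hRAL : RA θ k + θ / 8 * θ ^ k ≤ RL θ k := by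
    unfold RL RA
    have : θ ^ (k + 1) = θ * θ ^ k := pow_succ' θ k
    rw [this]
    linarith
  have hRAC : RA θ k < RC θ k := RA_lt_RC hθ0 k
  have hsub : closedBall (0 : E) (RL θ k) ⊆ ball 0 (RC θ k) :=
    closedBall_subset_ball hRLC
  have hc1 := NQ_c1 h hu k
  have hdb : ∀ w : E, ‖w‖ < RC θ k → ∀ x : E, ‖dbE (NQ ν u θ ϑ c ρ k) w x‖ ≤
      ρ * C₁ * xk θ k w ^ (1 - 4 / P : ℝ) * SQ ν θ ϑ k w * gau (dl θ k w) w x := by
    intro w hw x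
    refine (NQ_dbE h hu hw x).trans ?_
    have a1 := hb ν u M A ρ hu hρ k w hw x
    have a2 := hb ν u M A ρ hu hρ k w hw (Complex.I • x)
    rw [gau_I] at a2
    have hx := xk_pos hθ0 hθ1 hw
    have e1 : xk θ k w ^ (1 - 4 / P : ℝ) = xk θ k w * xk θ k w ^ (-(4 / P : ℝ)) := by
      rw [sub_eq_add_neg, Real.rpow_add hx, Real.rpow_one]
    rw [e1]
    calc ρ * (xk θ k w * ((‖fderiv ℝ (bq ν u θ ϑ c ρ k) w x‖ +
          ‖fderiv ℝ (bq ν u θ ϑ c ρ k) w (Complex.I • x)‖) / 2)) ≤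
        ρ * (xk θ k w * (C₁ * xk θ k w ^ (-(4 / P : ℝ)) * SQ ν θ ϑ k w *
          gau (dl θ k w) w x)) := by
          gcongr
          linarith
      _ = _ := by ring
  refine ⟨PR_diff μ (by linarith) (hc1.continuousOn.mono hsub), ?_, ?_⟩
  · intro z hz
    have hzC : ‖z‖ < RC θ k := hz.trans_lt hRAC
    have h5 := hs ν A hu.carl k (RL θ k) (ρ * C₁) (NQ ν u θ ϑ c ρ k) _ z hRL1 hRLC.le
      isOpen_ball hsub hc1 (by linarith) (by positivity)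
      (fun w hw x => hdb w ((mem_ball_zero_iff.mp hw).trans hRLC) x)
    have h6 := SQ_nonneg (θ := θ) h.h0 ν k z
    have h7 := xk_rpow_le_four hθ0 hθ1 hzC (e := 1 - 4 / P - 2 / P) (by linarith) (by linarith)
    refine h5.trans ?_
    calc C₂ * (ρ * C₁) * xk θ k z ^ (1 - 4 / P - 2 / P : ℝ) * SQ ν θ ϑ k z ≤
        C₂ * (ρ * C₁) * 4 * SQ ν θ ϑ k z := by gcongr
      _ ≤ _ := by
        apply mul_le_mul_of_nonneg_right _ h6
        have : 0 ≤ C₃ * (ρ * C₁ * (A / (1 - ϑ ^ 2))) + 5 * M * ρ := by positivity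
        linarith
  · intro z hz
    have hzC : ‖z‖ < RC θ k := hz.trans_lt hRAC
    have hxz := xk_pos hθ0 hθ1 hzC
    have h8 := hd k (RL θ k) (ρ * C₁ * (A / (1 - ϑ ^ 2))) (NQ ν u θ ϑ c ρ k) _ z hRL1 hRLC.le
      isOpen_ball hsub hc1 (by linarith) (by positivity) (by
        intro w hw x
        have hw' : ‖w‖ < RC θ k := (mem_ball_zero_iff.mp hw).trans hRLC
        refine (hdb w hw' x).trans ?_
        have h6 := SQ_le hθ0 hθ1 h.h0 h.h1 hu.carl hw'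
        have h7 := gau_nonneg (dl_pos hθ0 hθ1 hw').le w x
        have h9 := xk_pos hθ0 hθ1 hw'
        calc ρ * C₁ * xk θ k w ^ (1 - 4 / P : ℝ) * SQ ν θ ϑ k w * gau (dl θ k w) w x ≤
            ρ * C₁ * xk θ k w ^ (1 - 4 / P : ℝ) * (A / (1 - ϑ ^ 2)) *
              gau (dl θ k w) w x := by gcongr
          _ = _ := by ring)
    have h9 : ‖NQ ν u θ ϑ c ρ k z‖ ≤ 5 * M * ρ * xk θ k z ^ (1 - 4 / P : ℝ) := by
      unfold NQ
      rw [norm_mul, RCLike.norm_conj]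
      have a1 := h.b_le hu hzC
      have a2 := (h.step hu.diff hu.bd hzC).1
      have a3 := xk_rpow_le_four hθ0 hθ1 hzC (e := 4 / P) h4P0.le (by linarith)
      have e1 : xk θ k z = xk θ k z ^ (4 / P : ℝ) * xk θ k z ^ (1 - 4 / P : ℝ) := by
        rw [← Real.rpow_add hxz, add_sub_cancel, Real.rpow_one]
      have a4 : xk θ k z ≤ 4 * xk θ k z ^ (1 - 4 / P : ℝ) := by
        conv_lhs => rw [e1]
        gcongr
      calc _ ≤ 5 * M * (ρ / 8 * xk θ k z) := by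
            apply mul_le_mul a1 a2 (norm_nonneg _) (by positivity)
        _ ≤ 5 * M * (ρ / 8 * (4 * xk θ k z ^ (1 - 4 / P : ℝ))) := by gcongr
        _ = 5 * M * (ρ / 2) * xk θ k z ^ (1 - 4 / P : ℝ) := by ring
        _ ≤ _ := by gcongr; linarith
    have h10 : ‖LQ μ m ν u θ ϑ c ρ k z‖ ≤ ‖LQ μ m ν u θ ϑ c ρ k z - NQ ν u θ ϑ c ρ k z‖ +
        ‖NQ ν u θ ϑ c ρ k z‖ := by
      calc ‖LQ μ m ν u θ ϑ c ρ k z‖ = ‖(LQ μ m ν u θ ϑ c ρ k z - NQ ν u θ ϑ c ρ k z) +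
            NQ ν u θ ϑ c ρ k z‖ := by rw [sub_add_cancel]
        _ ≤ _ := norm_add_le _ _
    have hxx : 0 ≤ xk θ k z ^ (1 - 4 / P : ℝ) := by positivity
    calc ‖LQ μ m ν u θ ϑ c ρ k z‖ ≤ C₃ * (ρ * C₁ * (A / (1 - ϑ ^ 2))) *
          xk θ k z ^ (1 - 4 / P : ℝ) + 5 * M * ρ * xk θ k z ^ (1 - 4 / P : ℝ) := by
          unfold LQ at h10 ⊢
          linarith
      _ = (C₃ * (ρ * C₁ * (A / (1 - ϑ ^ 2))) + 5 * M * ρ) *
          xk θ k z ^ (1 - 4 / P : ℝ) := by ring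
      _ ≤ _ := by
          apply mul_le_mul_of_nonneg_right _ hxx
          have : 0 ≤ C₂ * (ρ * C₁) * 4 := by positivity
          linarith

end Pool.Agent.MPca0fc2.MX.Q.T
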