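import Mathlib
import Pool.Agent.Lib.MP_ca0fc2_an.CGCls
import Pool.Agent.Lib.MP_ca0fc2_an.MXAdd
import Pool.Agent.Lib.MP_ca0fc2_an.MXBlockA
import Pool.Agent.Lib.MP_ca0fc2_an.MXMeas
import Pool.Agent.Lib.MP_ca0fc2_an.Mg.G055
import Pool.Agent.Lib.MP_ca0fc2_an.QTLim
import Pool.Agent.Lib.MP_ca0fc2_an.Mg.G059
import Pool.Agent.Lib.MP_ca0fc2_an.SLSeq2
import Pool.Agent.Lib.MP_ca0fc2_an.TMClo2
import Pool.Agent.Lib.MP_ca0fc2_an.TMPot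
import Pool.Agent.Lib.MP_ca0fc2_an.TMX7

set_option autoImplicit false

open Metric Set MeasureTheory Filter Topology

open scoped InnerProductSpace ENNReal

namespace Pool.Agent.MPca0fc2.MX.Q.T

open Pool.Agent.MPca0fc2.PT Pool.Agent.MPca0fc2.QT

open Pool.Agent.Lib.MP_ca0fc2_an

variable {E : Type*} [NormedAddCommGroup E] [InnerProductSpace ℂ E]

/-- the class: power type or slow type -/
def Cls (p c' : ℝ) (e : ℕ → ℝ) (ν : Ptl E) (u : E → ℂ) : Prop :=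
  (∀ y : E, ‖y‖ < 1 → ∀ X : E,
    ‖fderiv ℂ u y X‖ ≤ 3 * EE ν y ^ (1 / p) * gau (1 - ‖y‖ ^ 2) y X) ∨
  (SD.Grad u e ∧ ∀ y : E, ‖y‖ < 1 → ∀ j : ℕ, (1 / 2 : ℝ) ^ j ≤ 1 - ‖y‖ ^ 2 →
    1 - ‖y‖ ^ 2 ≤ 2 * (1 / 2 : ℝ) ^ j → Real.exp (-(c' / e j)) / 5 ≤ EE ν y)

variable [FiniteDimensional ℂ E] [MeasurableSpace E] [BorelSpace E]

/-- the choice of the parameters -/
theorem exists_parT (m : ℕ) {p ρ M C₀ Am c' : ℝ} (A : ℝ) (hp : 1 ≤ p) (hρ : 0 < ρ)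
    (hρ1 : ρ ≤ 1) (hρM : ρ ≤ M) (hM : 1 ≤ M) (hC₀ : 0 < C₀) (hAm : 1 ≤ Am) (hc' : 0 < c')
    (hsm : 10000 * ((12 * (m + 1) + 18 : ℕ) : ℝ) * Am * c' ≤ ρ)
    {e : ℕ → ℝ} (he : ∀ j, 0 < e j) (hV : ∀ k, |1 / e (k + 1) - 1 / e k| ≤ 1)
    (heA : ∀ k, e k ≤ Am) :
    ∃ (θ ϑ : ℝ) (P : ℕ) (c : ℝ), ParQ E m θ ϑ P c ρ C₀ (Cls p c' e) M A := by
  obtain ⟨η, hη⟩ : ∃ η, η = min (1 / 1000) (ρ / (8000 * M)) := ⟨_, rfl⟩
  have hη0 : 0 < η := by rw [hη]; positivity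
  have hη1 : η ≤ 1 / 1000 := by rw [hη]; exact min_le_left _ _
  have hη2 : η ≤ ρ / (8000 * M) := by rw [hη]; exact min_le_right _ _
  obtain ⟨P, hP⟩ : ∃ P : ℕ, P = 12 * (m + 1) + 18 := ⟨_, rfl⟩
  have hP0 : P ≠ 0 := by omega
  have hPp : (0 : ℝ) < P := by positivity
  obtain ⟨ϑ, hϑ⟩ : ∃ ϑ : ℝ, ϑ = (1 - η) ^ (((P : ℕ) : ℝ)⁻¹) := ⟨_, rfl⟩
  have h1η : 0 < 1 - η := by linarith
  have hpow : ϑ ^ P = 1 - η := by
    rw [hϑ]; exact Real.rpow_inv_natCast_pow h1η.le hP0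
  have hϑ0 : 0 < ϑ := by rw [hϑ]; exact Real.rpow_pos_of_pos h1η _
  have hϑ1 : ϑ < 1 := by
    rw [hϑ]; exact Real.rpow_lt_one h1η.le (by linarith) (by positivity)
  have hθ0 : (0 : ℝ) < 1 - η := h1η
  have hθ1 : (1 : ℝ) - η < 1 := by linarith
  obtain ⟨c₀, hc00, hc01, hcl⟩ := vq_close_all (E := E) hθ0 hθ1 hϑ0 hϑ1 (C₀ := 3) (by norm_num) hp
    (half_pos hρ)
  obtain ⟨c, hc⟩ : ∃ c, c = min c₀ (1 / 10) := ⟨_, rfl⟩
  have hc0 : 0 < c := by rw [hc]; positivity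
  have hcc : c ≤ c₀ := by rw [hc]; exact min_le_left _ _
  have hc1 : c ≤ 1 / 10 := by rw [hc]; exact min_le_right _ _
  refine ⟨1 - η, ϑ, P, c, ⟨hϑ0, hϑ1, hpow.symm, hP.ge, hC₀, hc0, by linarith, hρ, hρM, hM,
    ?_, ?_⟩⟩
  · have h2 : 2000 * M / (1 - η) * (1 - (1 - η)) = 2000 * M * η / (1 - η) := by ring
    rw [h2, div_le_iff₀ h1η]
    have h3 : 2000 * M * η ≤ ρ / 4 := by
      calc 2000 * M * η ≤ 2000 * M * (ρ / (8000 * M)) := by gcongr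
        _ = ρ / 4 := by field_simp; ring
    nlinarith
  · intro ν u hu k w hw
    rcases hu.cl with h1 | ⟨h1, h2⟩
    · exact hcl c hc0 hcc ν u M A ⟨hp, hM, by norm_num, hu.diff, hu.bd, hu.carl, h1⟩ k w hw
    · exact slow_close hϑ0 hϑ1 hpow.symm hP0 (by linarith) hρ1 hAm hc' (by rw [hP]; exact hsm) hc0
        hc1 he hV heA h2 h1 k w hw

/-- the localization theorem for potentials -/
theorem T_ptl {m : ℕ} (hm : 1 ≤ m) (hdim : Module.finrank ℂ E = m + 1) (N d : ℕ)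
    {M A p ρ₀ C₁ Am c' : ℝ} (hp : 1 ≤ p) (hρ₀ : 0 < ρ₀) (hAm : 1 ≤ Am) (hc' : 0 < c')
    (hsm : 10000 * ((12 * (m + 1) + 18 : ℕ) : ℝ) * Am * c' ≤ min ρ₀ 1 / 64)
    {e : ℕ → ℝ} (he : ∀ j, 0 < e j) (hV : ∀ k, |1 / e (k + 1) - 1 / e k| ≤ 1)
    (heA : ∀ k, e k ≤ Am) :
    ∃ C : ℝ, ∀ (f : Fin N → E → ℂ) (u : Fin d → E → ℂ) (ν : Ptl E),
      (∀ j, DifferentiableOn ℂ (f j) (ball 0 1)) → (∀ j, ∀ z ∈ ball (0 : E) 1, ‖f j z‖ ≤ M) →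
      (∀ j, DifferentiableOn ℂ (u j) (ball 0 1)) → (∀ j, ∀ z ∈ ball (0 : E) 1, ‖u j z‖ ≤ M) →
      Carl ν A → (∀ j, Cls p c' e ν (u j)) →
      (∀ c : Fin d → ℂ,
        SolvableOn f {z | z ∈ ball (0 : E) 1 ∧ ∀ j, ‖u j z - c j‖ < ρ₀} C₁) →
      SolvableOn f (ball 0 1) C := by
  obtain ⟨M₁, hM₁⟩ : ∃ M₁, M₁ = max M 1 := ⟨_, rfl⟩
  have hM1 : 1 ≤ M₁ := by rw [hM₁]; exact le_max_right _ _
  have hMM : M ≤ M₁ := by rw [hM₁]; exact le_max_left _ _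
  obtain ⟨ρ, hρ⟩ : ∃ ρ, ρ = min ρ₀ 1 / 64 := ⟨_, rfl⟩
  have hρ0 : 0 < ρ := by rw [hρ]; positivity
  have hρ1 : ρ ≤ 1 / 64 := by
    rw [hρ]
    have := min_le_right ρ₀ 1
    linarith
  have hρ2 : 64 * ρ ≤ ρ₀ := by
    rw [hρ]
    have := min_le_left ρ₀ 1
    linarith
  rw [← hρ] at hsm
  obtain ⟨C₀, hC₀⟩ : ∃ C₀ : ℝ, C₀ = 10 ^ 7 * (2 * M₁ + 1) := ⟨_, rfl⟩
  have hC₀0 : 0 < C₀ := by rw [hC₀]; positivity
  obtain ⟨θ, ϑ, P, c, hpar⟩ := exists_parT (E := E) m A hp hρ0 (by linarith) (by linarith) hM1 hC₀0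
    hAm hc' hsm he hV heA
  obtain ⟨ι, hι, cc, χ, L, hL, k1, k2, k3, k4, k5, k6⟩ := exists_part d (5 * M₁) (ρ₀ / 8)
    (by positivity)
  obtain ⟨V, iV1, iV2, iV3, ⟨K⟩⟩ := exists_car N
  obtain ⟨C, hC, hlev⟩ := level_Q (V := V) (MeasureTheory.Measure.addHaar : Measure E) hm hdim hpar
    hρ2 hL (abs_nonneg C₁) K cc χ
  refine ⟨C, ?_⟩
  intro f u ν hf hfM hu huM hcarl hcls hloc
  have hloc' := fun i => hloc (cc i)
  choose s hs hsb hsf using hloc'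
  have Da : Dat ν f u (fun i z j => s i j z) cc χ M₁ A (Cls p c' e) C₀ ρ₀ |C₁| L := by
    refine ⟨abs_nonneg _, hρ₀, hcarl, ?_, hf, ?_, ?_, ?_, ?_, ?_, ?_⟩
    · intro j
      refine ⟨hM1, hC₀0, hu j, fun z hz => (huM j z hz).trans hMM, hcarl, hcls j, ?_⟩
      intro y hy X
      rw [hC₀]
      exact cauchy_gau (hu j) (by linarith) (fun z hz => (huM j z hz).trans hMM) hy X
    · intro j z hz
      exact (hfM j z hz).trans hMM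
    · intro i
      rw [differentiableOn_pi]
      exact fun j => hs i j
    · intro i z hz hz2
      rw [pi_norm_le_iff_of_nonneg (abs_nonneg _)]
      intro j
      exact (hsb i j z ⟨hz, hz2⟩).trans (le_abs_self _)
    · intro i z hz hz2
      exact hsf i z ⟨hz, hz2⟩
    · exact ⟨hL, k1, k2, k3, k5, k6⟩
    · exact k4
  exact limit_N hpar.θ0 hpar.θ1 hC hf (fun n => hlev ν f u _ Da n)

/-- the localization theorem: Carleson type and slow type -/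
theorem T_cg {m : ℕ} (hm : 1 ≤ m) (hdim : Module.finrank ℂ E = m + 1) (N d : ℕ)
    {M A p ρ₀ C₁ : ℝ} (ω : ℝ → ℝ) (hp : 1 ≤ p) (hρ₀ : 0 < ρ₀)
    (hω0 : ∀ t ∈ Ioo (0 : ℝ) 1, 0 < ω t)
    (hω : ∀ c > 0, IntegrableOn (fun t => Real.exp (-(c / ω t)) / t) (Ioo 0 1)) :
    ∃ C : ℝ, ∀ (f : Fin N → E → ℂ) (u : Fin d → E → ℂ),
      (∀ j, DifferentiableOn ℂ (f j) (ball 0 1)) → (∀ j, ∀ z ∈ ball (0 : E) 1, ‖f j z‖ ≤ M) →
      (∀ j, DifferentiableOn ℂ (u j) (ball 0 1)) → (∀ j, ∀ z ∈ ball (0 : E) 1, ‖u j z‖ ≤ M) →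
      (∀ j, CarlesonGradient p A (u j) ∨
        ∀ z ∈ ball (0 : E) 1, (1 - ‖z‖) * ‖fderiv ℂ (u j) z‖ ≤ ω (1 - ‖z‖)) →
      (∀ c : Fin d → ℂ,
        SolvableOn f {z | z ∈ ball (0 : E) 1 ∧ ∀ j, ‖u j z - c j‖ < ρ₀} C₁) →
      SolvableOn f (ball 0 1) C := by
  have hnt : Nontrivial E := by
    apply Module.nontrivial_of_finrank_pos (R := ℂ)
    rw [hdim]; omega
  have hp0 : 0 < p := by linarith
  obtain ⟨Am, hAmd⟩ : ∃ Am, Am = max (2 * M) 1 := ⟨_, rfl⟩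
  have hAm : 1 ≤ Am := by rw [hAmd]; exact le_max_right _ _
  have hAmM : 2 * M ≤ Am := by rw [hAmd]; exact le_max_left _ _
  have hAm0 : 0 < Am := by linarith
  obtain ⟨P, hP⟩ : ∃ P : ℝ, P = ((12 * (m + 1) + 18 : ℕ) : ℝ) := ⟨_, rfl⟩
  have hP0 : 0 < P := by rw [hP]; positivity
  obtain ⟨c', hc'⟩ : ∃ c', c' = min ρ₀ 1 / 64 / (10000 * P * Am) := ⟨_, rfl⟩
  have hc'0 : 0 < c' := by rw [hc']; positivity
  have hsm : 10000 * ((12 * (m + 1) + 18 : ℕ) : ℝ) * Am * c' ≤ min ρ₀ 1 / 64 := by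
    rw [← hP, hc']
    apply le_of_eq
    field_simp
  obtain ⟨e, he0, -, he1, he2, he3, he4⟩ := SL.seq_of_omega hω0 (c := c' / 2) (by positivity)
    (hω (c' / 2) (by positivity)) hAm0 (ε := 1 / (20 * Am)) (by positivity)
    (le_of_eq (by field_simp))
  have hV : ∀ k, |1 / e (k + 1) - 1 / e k| ≤ 1 := by
    intro k
    refine (he1 k).trans ?_
    rw [div_le_one (by positivity)]
    linarith
  have hsum : Summable fun j => |Real.exp (-(c' / e j))| := by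
    have h2 : (fun j => |Real.exp (-(c' / e j))|) = fun k => Real.exp (-(2 * (c' / 2) / e k)) := by
      funext j
      rw [abs_of_pos (Real.exp_pos _)]
      congr 3
      ring
    rw [h2]
    exact he2
  obtain ⟨B, hB⟩ : ∃ B, B = d * max A 0 + ∑' j, |Real.exp (-(c' / e j))| := ⟨_, rfl⟩
  obtain ⟨C, hC⟩ := T_ptl (E := E) hm hdim N d (M := M) (A := B) (p := p) (ρ₀ := ρ₀) (C₁ := C₁)
    hp hρ₀ hAm hc'0 hsm he0 hV he4
  refine ⟨C, ?_⟩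
  intro f u hf hfM hu huM hcl hloc
  classical
  obtain ⟨V, hVd⟩ : ∃ V : Fin d → E → ℂ, V = fun j =>
    if CarlesonGradient p A (u j) then u j else fun _ => 0 := ⟨_, rfl⟩
  have hVc : ∀ j, CarlesonGradient p A (V j) := by
    intro j
    rw [hVd]
    by_cases h : CarlesonGradient p A (u j)
    · simp only [if_pos h]; exact h
    · simp only [if_neg h]; exact CG.CG_zero hp0
  obtain ⟨ν₀, hν1, hν2⟩ := CG.CG_vec hp0 hVc
  have hcarl : Carl ((ofM ν₀).add (rads E fun j => Real.exp (-(c' / e j)))) B := by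
    rw [hB]
    exact (Carl.ofM hν1).add (Carl.rads hsum)
  refine hC f u _ hf hfM hu huM hcarl ?_ hloc
  intro j
  by_cases h : CarlesonGradient p A (u j)
  · left
    intro y hy X
    have h1 := hν2 j y hy X
    rw [hVd] at h1
    simp only [if_pos h] at h1
    refine h1.trans ?_
    have h2 : PT.EE ν₀ y ≤ EE ((ofM ν₀).add (rads E fun j => Real.exp (-(c' / e j)))) y := by
      rw [add_EE]
      have := EE_nonneg (rads E fun j => Real.exp (-(c' / e j))) y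
      have h3 : EE (ofM ν₀) y = PT.EE ν₀ y := rfl
      rw [h3]
      linarith
    have h0 := PT.EE_nonneg ν₀ y
    have ht0 : 0 ≤ 1 - ‖y‖ ^ 2 := by nlinarith [norm_nonneg y]
    have hg := age_gau_nonneg ht0 y X
    gcongr
  · right
    have h1 := (hcl j).resolve_left h
    refine ⟨SL.grad_of_omega' hAmM he3 (hu j) (huM j) h1, ?_⟩
    intro y hy i hi1 hi2
    have h2 := rads_ge (E := E) hsum hy hi1 hi2
    rw [abs_of_pos (Real.exp_pos _)] at h2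
    rw [add_EE]
    have := EE_nonneg (ofM ν₀) y
    linarith

end Pool.Agent.MPca0fc2.MX.Q.T
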