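import Mathlib
import Pool.Agent.Lib.MP_ca0fc2_an.TMGen
import Pool.Agent.Lib.MP_ca0fc2_an.CPCarl3

/-! The localization theorem for functions whose gradients are dominated by potentials, and for slow
functions. -/

set_option autoImplicit false

open Metric Set MeasureTheory Filter Topology

open scoped InnerProductSpace ENNReal

namespace Pool.Agent.MPca0fc2.MX.Q.T

open Pool.Agent.MPca0fc2.PT Pool.Agent.MPca0fc2.QT

open Pool.Agent.Lib.MP_ca0fc2_an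

variable {E : Type*} [NormedAddCommGroup E] [InnerProductSpace ℂ E]

/-- the gradient of `u` is dominated by a potential -/
def Dom (p A : ℝ) (u : E → ℂ) : Prop :=
  ∃ ν : Ptl E, Carl ν A ∧ ∀ y : E, ‖y‖ < 1 → ∀ X : E,
    ‖fderiv ℂ u y X‖ ≤ 3 * EE ν y ^ (1 / p) * gau (1 - ‖y‖ ^ 2) y X

theorem Dom.mono {p A A' : ℝ} {u : E → ℂ} (h : Dom p A u) (hA : A ≤ A') : Dom p A' u := by
  obtain ⟨ν, h1, h2⟩ := h
  exact ⟨ν, h1.mono hA, h2⟩

/-- change of the exponent -/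
theorem Dom.expo {p q A : ℝ} {u : E → ℂ} (hp : 0 < p) (hpq : p ≤ q) (hA : 1 ≤ A) (h : Dom p A u) :
    Dom q (A ^ (q / p - 1) * A) u := by
  obtain ⟨ν, h1, h2⟩ := h
  have hq0 : 0 < q := by linarith
  have hq : 1 ≤ q / p := by rwa [one_le_div hp]
  obtain ⟨K, hK⟩ : ∃ K, K = A ^ (q / p - 1) := ⟨_, rfl⟩
  have hK0 : 0 ≤ K := by rw [hK]; positivity
  rw [← hK]
  refine ⟨ν.smul K hK0, h1.smul hK0, fun y hy X => ?_⟩
  refine (h2 y hy X).trans ?_
  rw [smul_EE]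
  have he0 := EE_nonneg ν y
  have heA := h1.le y hy
  have ht0 : 0 ≤ 1 - ‖y‖ ^ 2 := by nlinarith [norm_nonneg y]
  have hg := age_gau_nonneg ht0 y X
  have h3 : EE ν y ^ (q / p) ≤ K * EE ν y := by
    rcases he0.eq_or_lt with h0 | h0
    · rw [← h0, Real.zero_rpow (by linarith), mul_zero]
    · have h7 : EE ν y ^ (q / p) = EE ν y ^ (q / p - 1) * EE ν y := by
        rw [← Real.rpow_add_one h0.ne']
        congr 1; ring
      rw [h7, hK]
      gcongr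
  have h4 : EE ν y ^ (1 / p) ≤ (K * EE ν y) ^ (1 / q) := by
    have h5 := Real.rpow_le_rpow (Real.rpow_nonneg he0 _) h3 (show 0 ≤ 1 / q by positivity)
    rw [← Real.rpow_mul he0] at h5
    have e : q / p * (1 / q) = 1 / p := by field_simp
    rwa [e] at h5
  gcongr

variable [FiniteDimensional ℂ E] [MeasurableSpace E] [BorelSpace E]

/-- functions with a Carleson gradient are dominated -/
theorem dom_of_cg {p A : ℝ} {u : E → ℂ} (hp : 0 < p) (h : CarlesonGradient p A u) :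
    Dom p (max A 0) u := by
  obtain ⟨ν, h1, h2⟩ := CG.CG_vec (d := 1) hp (V := fun _ => u) (fun _ => h)
  refine ⟨ofM ν, (Carl.ofM h1).mono (by simp), fun y hy X => h2 0 y hy X⟩

/-- the localization theorem: dominated type and slow type -/
theorem T_dom {m : ℕ} (hm : 1 ≤ m) (hdim : Module.finrank ℂ E = m + 1) (N d : ℕ)
    {M A p ρ₀ C₁ : ℝ} (ω : ℝ → ℝ) (hp : 1 ≤ p) (hρ₀ : 0 < ρ₀)
    (hω0 : ∀ t ∈ Ioo (0 : ℝ) 1, 0 < ω t)
    (hω : ∀ c > 0, IntegrableOn (fun t => Real.exp (-(c / ω t)) / t) (Ioo 0 1)) :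
    ∃ C : ℝ, ∀ (f : Fin N → E → ℂ) (u : Fin d → E → ℂ),
      (∀ j, DifferentiableOn ℂ (f j) (ball 0 1)) → (∀ j, ∀ z ∈ ball (0 : E) 1, ‖f j z‖ ≤ M) →
      (∀ j, DifferentiableOn ℂ (u j) (ball 0 1)) → (∀ j, ∀ z ∈ ball (0 : E) 1, ‖u j z‖ ≤ M) →
      (∀ j, Dom p A (u j) ∨
        ∀ z ∈ ball (0 : E) 1, (1 - ‖z‖) * ‖fderiv ℂ (u j) z‖ ≤ ω (1 - ‖z‖)) →
      (∀ c : Fin d → ℂ,
        SolvableOn f {z | z ∈ ball (0 : E) 1 ∧ ∀ j, ‖u j z - c j‖ < ρ₀} C₁) →
      SolvableOn f (ball 0 1) C := by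
  have hnt : Nontrivial E := by
    apply Module.nontrivial_of_finrank_pos (R := ℂ)
    rw [hdim]; omega
  have hp0 : 0 < p := by linarith
  obtain ⟨Am, hAmd⟩ : ∃ Am, Am = max (2 * M) 1 := ⟨_, rfl⟩
  have hAm : 1 ≤ Am := by rw [hAmd]; exact le_max_right _ _
  have hAmM : 2 * M ≤ Am := by rw [hAmd]; exact le_max_left _ _
  have hAm0 : 0 < Am := by linarith
  obtain ⟨P, hP⟩ : ∃ P : ℝ, P = ((12 * (m + 1) + 18 : ℕ) : ℝ) := ⟨_, rfl⟩
  have hP0 : 0 < P := by rw [hP]; positivity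
  obtain ⟨c', hc'⟩ : ∃ c', c' = min ρ₀ 1 / 64 / (10000 * P * Am) := ⟨_, rfl⟩
  have hc'0 : 0 < c' := by rw [hc']; positivity
  have hsm : 10000 * ((12 * (m + 1) + 18 : ℕ) : ℝ) * Am * c' ≤ min ρ₀ 1 / 64 := by
    rw [← hP, hc']
    apply le_of_eq
    field_simp
  obtain ⟨e, he0, -, he1, he2, he3, he4⟩ := SL.seq_of_omega hω0 (c := c' / 2) (by positivity)
    (hω (c' / 2) (by positivity)) hAm0 (ε := 1 / (20 * Am)) (by positivity)
    (le_of_eq (by field_simp))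
  have hV : ∀ k, |1 / e (k + 1) - 1 / e k| ≤ 1 := by
    intro k
    refine (he1 k).trans ?_
    rw [div_le_one (by positivity)]
    linarith
  have hsum : Summable fun j => |Real.exp (-(c' / e j))| := by
    have h2 : (fun j => |Real.exp (-(c' / e j))|) = fun k => Real.exp (-(2 * (c' / 2) / e k)) := by
      funext j
      rw [abs_of_pos (Real.exp_pos _)]
      congr 3
      ring
    rw [h2]
    exact he2
  obtain ⟨B, hB⟩ : ∃ B, B = (∑ _j : Fin d, max A 0) + ∑' j, |Real.exp (-(c' / e j))| := ⟨_, rfl⟩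
  obtain ⟨C, hC⟩ := T_ptl (E := E) hm hdim N d (M := M) (A := B) (p := p) (ρ₀ := ρ₀) (C₁ := C₁)
    hp hρ₀ hAm hc'0 hsm he0 hV he4
  refine ⟨C, ?_⟩
  intro f u hf hfM hu huM hcl hloc
  classical
  have hex : ∀ j, ∃ ν : Ptl E, Carl ν (max A 0) ∧ (Dom p A (u j) → ∀ y : E, ‖y‖ < 1 → ∀ X : E,
      ‖fderiv ℂ (u j) y X‖ ≤ 3 * EE ν y ^ (1 / p) * gau (1 - ‖y‖ ^ 2) y X) := by
    intro j
    by_cases h : Dom p A (u j)
    · obtain ⟨ν, h1, h2⟩ := h
      exact ⟨ν, h1.mono (le_max_left _ _), fun _ => h2⟩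
    · exact ⟨MX.zer E, Carl.zer.mono (le_max_right _ _), fun h' => absurd h' h⟩
  choose ν hν1 hν2 using hex
  obtain ⟨ν₀, hν₀⟩ : ∃ ν₀, ν₀ = Ptl.sum Finset.univ ν := ⟨_, rfl⟩
  have hcarl : Carl (ν₀.add (rads E fun j => Real.exp (-(c' / e j)))) B := by
    rw [hB, hν₀]
    exact (Carl.sum _ fun j _ => hν1 j).add (Carl.rads hsum)
  have hle : ∀ j y, EE (ν j) y ≤ EE (ν₀.add (rads E fun j => Real.exp (-(c' / e j)))) y := by
    intro j y
    rw [add_EE, hν₀, sum_EE]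
    have h1 := EE_nonneg (rads E fun j => Real.exp (-(c' / e j))) y
    have h2 : EE (ν j) y ≤ ∑ i, EE (ν i) y :=
      Finset.single_le_sum (f := fun i => EE (ν i) y) (fun i _ => EE_nonneg _ _)
        (Finset.mem_univ j)
    linarith
  refine hC f u _ hf hfM hu huM hcarl ?_ hloc
  intro j
  by_cases h : Dom p A (u j)
  · left
    intro y hy X
    refine (hν2 j h y hy X).trans ?_
    have h0 := EE_nonneg (ν j) y
    have ht0 : 0 ≤ 1 - ‖y‖ ^ 2 := by nlinarith [norm_nonneg y]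
    have hg := age_gau_nonneg ht0 y X
    have h2 := hle j y
    gcongr
  · right
    have h1 := (hcl j).resolve_left h
    refine ⟨SL.grad_of_omega' hAmM he3 (hu j) (huM j) h1, ?_⟩
    intro y hy i hi1 hi2
    have h2 := rads_ge (E := E) hsum hy hi1 hi2
    rw [abs_of_pos (Real.exp_pos _)] at h2
    rw [add_EE]
    have := EE_nonneg ν₀ y
    linarith

end Pool.Agent.MPca0fc2.MX.Q.T
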