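import Mathlib
import Pool.Agent.Lib.MP_ca0fc2_an.Mg.G024

/-! Functions which are tame with respect to the peak set of a smooth map into the disc. -/

set_option autoImplicit false

open Metric Set MeasureTheory Filter Topology
open scoped InnerProductSpace ENNReal

namespace Pool.Agent.MPca0fc2.CP

open Pool.Agent.Lib.MP_ca0fc2_an
open Pool.Agent.MPca0fc2.PT

/-! ### the measure on the radius -/

/-- the points of the radius -/
noncomputable def ray (r : ℝ) : EuclideanSpace ℂ (Fin 1) :=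
  (r : ℂ) • EuclideanSpace.single 0 (1 : ℂ)

/-- the measure `dr / (1 - r)` -/
noncomputable def rho : Measure ℝ :=
  (volume.restrict (Ico (0 : ℝ) 1)).withDensity fun r => ENNReal.ofReal (1 / (1 - r))

/-- the measure `dr / (1 - r)` on the radius of the disc -/
noncomputable def nuR : Measure (EuclideanSpace ℂ (Fin 1)) := rho.map ray

theorem ray_cont : Continuous ray := by
  unfold ray
  fun_prop

theorem norm_one_dim (w : EuclideanSpace ℂ (Fin 1)) : ‖w‖ = ‖w 0‖ := by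
  rw [EuclideanSpace.norm_eq, Fin.sum_univ_one, Real.sqrt_sq (norm_nonneg _)]

theorem norm_ray (r : ℝ) : ‖ray r‖ = |r| := by
  rw [norm_one_dim, ray]
  simp

theorem inner_ray (w : EuclideanSpace ℂ (Fin 1)) (r : ℝ) :
    ⟪w, ray r⟫_ℂ = (r : ℂ) * (starRingEnd ℂ) (w 0) := by
  rw [ray, inner_smul_right, EuclideanSpace.inner_single_right]
  simp

theorem ker_ray (w : EuclideanSpace ℂ (Fin 1)) (r : ℝ) :
    PT.HH w (ray r) = (1 - ‖w‖ ^ 2) * (1 - r ^ 2) / ‖1 - (r : ℂ) * w 0‖ ^ 2 := by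
  unfold PT.HH
  rw [inner_ray, norm_ray, sq_abs]
  congr 2
  rw [← Complex.norm_conj]
  congr 1
  simp

theorem ray_low {w : EuclideanSpace ℂ (Fin 1)} {r : ℝ} (hr0 : 0 ≤ r) :
    1 - r * ‖w‖ ≤ ‖1 - (r : ℂ) * w 0‖ := by
  have h1 := norm_sub_norm_le (1 : ℂ) ((r : ℂ) * w 0)
  rw [norm_one, norm_mul, Complex.norm_real, Real.norm_of_nonneg hr0, ← norm_one_dim] at h1
  exact h1

theorem dens_meas : Measurable fun r : ℝ => ENNReal.ofReal (1 / (1 - r)) := by
  apply ENNReal.measurable_ofReal.comp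
  exact measurable_const.div (measurable_const.sub measurable_id)

theorem nuR_upper {w : EuclideanSpace ℂ (Fin 1)} (hw : ‖w‖ < 1) :
    ∫⁻ ξ, ENNReal.ofReal (PT.HH w ξ) ∂nuR ≤ ENNReal.ofReal 4 := by
  have hm : Measurable fun ξ : EuclideanSpace ℂ (Fin 1) => ENNReal.ofReal (PT.HH w ξ) :=
    ENNReal.measurable_ofReal.comp (pot_HH_meas w)
  have hm' : Measurable fun r : ℝ => ENNReal.ofReal (PT.HH w (ray r)) :=
    hm.comp ray_cont.measurable
  unfold nuR
  rw [lintegral_map hm ray_cont.measurable]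
  unfold rho
  rw [lintegral_withDensity_eq_lintegral_mul _ dens_meas hm']
  obtain ⟨a, ha⟩ : ∃ a, a = ‖w‖ := ⟨_, rfl⟩
  have ha0 : 0 ≤ a := by rw [ha]; exact norm_nonneg _
  have ha1 : a < 1 := by rw [ha]; exact hw
  have hpos : ∀ r ∈ Icc (0 : ℝ) 1, 0 < 1 - r * a := by
    intro r hr
    nlinarith [hr.1, hr.2]
  have hbound : ∀ r ∈ Ico (0 : ℝ) 1, ((fun r : ℝ => ENNReal.ofReal (1 / (1 - r))) *
      fun r => ENNReal.ofReal (PT.HH w (ray r))) r ≤
      ENNReal.ofReal (2 * (1 - a ^ 2) / (1 - r * a) ^ 2) := by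
    intro r hr
    have h1r : 0 < 1 - r := by linarith [hr.2]
    rw [Pi.mul_apply, ← ENNReal.ofReal_mul (by positivity)]
    apply ENNReal.ofReal_le_ofReal
    rw [ker_ray, ← ha]
    have h2 := ray_low (w := w) hr.1
    rw [← ha] at h2
    have h3 := hpos r ⟨hr.1, hr.2.le⟩
    have ha2 : 0 < 1 - a ^ 2 := by nlinarith
    have h4 : (1 - r * a) ^ 2 ≤ ‖1 - (r : ℂ) * w 0‖ ^ 2 := pow_le_pow_left₀ h3.le h2 2
    have h5 : 1 / (1 - r) * ((1 - a ^ 2) * (1 - r ^ 2) / ‖1 - (r : ℂ) * w 0‖ ^ 2) =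
        (1 - a ^ 2) * (1 + r) / ‖1 - (r : ℂ) * w 0‖ ^ 2 := by
      have : 1 - r ^ 2 = (1 - r) * (1 + r) := by ring
      rw [this]
      field_simp
    rw [h5]
    apply div_le_div₀ (by positivity) _ (by positivity) h4
    nlinarith [hr.2]
  refine (setLIntegral_mono' measurableSet_Ico hbound).trans ?_
  have hcont : ContinuousOn (fun r : ℝ => 2 * (1 - a ^ 2) / (1 - r * a) ^ 2) (Icc 0 1) := by
    apply ContinuousOn.div continuousOn_const (by fun_prop)
    intro r hr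
    have := hpos r hr
    positivity
  have hint : IntegrableOn (fun r : ℝ => 2 * (1 - a ^ 2) / (1 - r * a) ^ 2) (Icc 0 1) :=
    hcont.integrableOn_Icc
  have hnn : 0 ≤ᵐ[volume.restrict (Ico (0 : ℝ) 1)] fun r : ℝ =>
      2 * (1 - a ^ 2) / (1 - r * a) ^ 2 := by
    filter_upwards with r
    have : 0 ≤ 1 - a ^ 2 := by nlinarith
    simp only [Pi.zero_apply]
    positivity
  rw [← ofReal_integral_eq_lintegral_ofReal (hint.mono_set Ico_subset_Icc_self) hnn]
  apply ENNReal.ofReal_le_ofReal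
  have hval : ∫ r in (0 : ℝ)..1, 2 * (1 - a ^ 2) / (1 - r * a) ^ 2 = 2 * (1 - a ^ 2) / (1 - a) := by
    have hd : ∀ r ∈ uIcc (0 : ℝ) 1, HasDerivAt (fun r : ℝ => 2 * (1 - a ^ 2) * (r / (1 - r * a)))
        (2 * (1 - a ^ 2) / (1 - r * a) ^ 2) r := by
      intro r hr
      rw [uIcc_of_le zero_le_one] at hr
      have h1 := (hpos r hr).ne'
      have h2 : HasDerivAt (fun r : ℝ => 1 - r * a) (-(1 * a)) r :=
        ((hasDerivAt_id r).mul_const a).const_sub 1
      have h3 := ((hasDerivAt_id r).div h2 h1).const_mul (2 * (1 - a ^ 2))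
      refine h3.congr_deriv ?_
      simp only [id]
      field_simp
      ring
    rw [intervalIntegral.integral_eq_sub_of_hasDerivAt hd]
    · simp
      ring
    · rw [intervalIntegrable_iff_integrableOn_Ioc_of_le zero_le_one]
      exact hint.mono_set Ioc_subset_Icc_self
  rw [integral_Ico_eq_integral_Ioo, ← integral_Ioc_eq_integral_Ioo,
    ← intervalIntegral.integral_of_le zero_le_one, hval, div_le_iff₀ (by linarith)]
  nlinarith

theorem nuR_carl : Carl (nuR.restrict (ball 0 1)) 4 := by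
  refine ⟨by norm_num, ?_, ?_⟩
  · rw [Measure.restrict_apply measurableSet_ball.compl, compl_inter_self, measure_empty]
  · intro w hw
    exact (setLIntegral_le_lintegral _ _).trans (nuR_upper (mem_ball_zero_iff.1 hw))

/-- the mass of the middle interval -/
theorem rho_mid {d : ℝ} (hd : 0 < d) (hd1 : d < 1 / 2) :
    ENNReal.ofReal (1 / 2) ≤ rho (Icc (1 - 2 * d) (1 - d)) := by
  unfold rho
  rw [withDensity_apply _ measurableSet_Icc, Measure.restrict_restrict measurableSet_Icc]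
  have hsub : Icc (1 - 2 * d) (1 - d) ∩ Ico (0 : ℝ) 1 = Icc (1 - 2 * d) (1 - d) := by
    apply inter_eq_left.2
    intro r hr
    exact ⟨by linarith [hr.1], by linarith [hr.2]⟩
  rw [hsub]
  have h1 : ∀ r ∈ Icc (1 - 2 * d) (1 - d), ENNReal.ofReal (1 / (2 * d)) ≤
      ENNReal.ofReal (1 / (1 - r)) := by
    intro r hr
    apply ENNReal.ofReal_le_ofReal
    exact one_div_le_one_div_of_le (by linarith [hr.2]) (by linarith [hr.1])
  have h2 := setLIntegral_mono' (μ := volume) measurableSet_Icc h1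
  refine le_trans (le_of_eq ?_) h2
  rw [setLIntegral_const, Real.volume_Icc, ← ENNReal.ofReal_mul (by positivity)]
  congr 1
  field_simp
  ring

theorem nuR_lower {x : EuclideanSpace ℂ (Fin 1)} (hx : ‖x‖ < 1) :
    1 / 162 * ((1 - ‖x‖ ^ 2) / ‖1 - x 0‖) ^ 2 ≤
      ∫ ξ in ball (0 : EuclideanSpace ℂ (Fin 1)) 1, invKer x ξ ^ 2 ∂nuR := by
  have hx0 : ‖x 0‖ < 1 := by rw [← norm_one_dim]; exact hx
  obtain ⟨y, hy⟩ : ∃ y, y = ‖1 - x 0‖ := ⟨_, rfl⟩
  have hy0 : 0 < y := by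
    have h1 := norm_sub_norm_le (1 : ℂ) (x 0)
    rw [norm_one] at h1
    rw [hy]; linarith
  have hy2 : y < 2 := by
    have h1 := norm_sub_le (1 : ℂ) (x 0)
    rw [norm_one] at h1
    rw [hy]; linarith
  obtain ⟨d, hd⟩ : ∃ d, d = y / 4 := ⟨_, rfl⟩
  have hd0 : 0 < d := by rw [hd]; positivity
  have hd1 : d < 1 / 2 := by rw [hd]; linarith
  obtain ⟨T, hT⟩ : ∃ T, T = 1 - ‖x‖ ^ 2 := ⟨_, rfl⟩
  have hT0 : 0 < T := by rw [hT]; nlinarith [norm_nonneg x]
  rw [← hy, ← hT]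
  obtain ⟨c, hc⟩ : ∃ c, c = (T / (36 * d)) ^ 2 := ⟨_, rfl⟩
  have hc0 : 0 < c := by rw [hc]; positivity
  -- the lower bound of the integrand
  have hlow : ∀ r ∈ Icc (1 - 2 * d) (1 - d), c ≤ PT.HH x (ray r) ^ 2 := by
    intro r hr
    rw [hc]
    apply pow_le_pow_left₀ (by positivity)
    have hr0 : 0 ≤ r := by linarith [hr.1]
    have hr1 : r < 1 := by linarith [hr.2]
    rw [ker_ray, ← hT]
    have h1 : ‖1 - (r : ℂ) * x 0‖ ≤ 6 * d := by
      have e1 : 1 - (r : ℂ) * x 0 = (1 - x 0) + ((1 - r : ℝ) : ℂ) * x 0 := by push_cast; ring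
      rw [e1]
      refine (norm_add_le _ _).trans ?_
      rw [norm_mul, Complex.norm_real, Real.norm_of_nonneg (by linarith), ← hy]
      have : (1 - r) * ‖x 0‖ ≤ 2 * d * 1 :=
        mul_le_mul (by linarith [hr.1]) hx0.le (norm_nonneg _) (by positivity)
      rw [hd] at this ⊢
      linarith
    have h2 : 0 < ‖1 - (r : ℂ) * x 0‖ := by
      have := ray_low (w := x) hr0
      have h3 : r * ‖x‖ < 1 := by nlinarith [norm_nonneg x]
      linarith
    have h3 : ‖1 - (r : ℂ) * x 0‖ ^ 2 ≤ (6 * d) ^ 2 := pow_le_pow_left₀ h2.le h1 2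
    have h4 : d ≤ 1 - r ^ 2 := by nlinarith [hr.2]
    calc T / (36 * d) = T * d / (6 * d) ^ 2 := by field_simp; ring
      _ ≤ T * (1 - r ^ 2) / ‖1 - (r : ℂ) * x 0‖ ^ 2 := by
          have h5 : 0 ≤ 1 - r ^ 2 := by linarith
          apply div_le_div₀ (by positivity) (by gcongr) (by positivity) h3
  -- the integral
  have hint : Integrable (fun ξ => PT.HH x ξ ^ 2) (nuR.restrict (ball 0 1)) :=
    EE_integrable nuR_carl hx
  have hnn : 0 ≤ᵐ[nuR.restrict (ball 0 1)] fun ξ => PT.HH x ξ ^ 2 :=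
    Eventually.of_forall fun ξ => sq_nonneg _
  have hgoal : ENNReal.ofReal (c * (1 / 2)) ≤
      ENNReal.ofReal (∫ ξ in ball (0 : EuclideanSpace ℂ (Fin 1)) 1, PT.HH x ξ ^ 2 ∂nuR) := by
    rw [ofReal_integral_eq_lintegral_ofReal hint hnn]
    have hm : Measurable fun ξ : EuclideanSpace ℂ (Fin 1) => ENNReal.ofReal (PT.HH x ξ ^ 2) :=
      ENNReal.measurable_ofReal.comp ((pot_HH_meas x).pow_const 2)
    unfold nuR
    rw [setLIntegral_map measurableSet_ball hm ray_cont.measurable]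
    have hsub : Icc (1 - 2 * d) (1 - d) ⊆ ray ⁻¹' ball (0 : EuclideanSpace ℂ (Fin 1)) 1 := by
      intro r hr
      rw [mem_preimage, mem_ball_zero_iff, norm_ray, abs_of_nonneg (by linarith [hr.1])]
      linarith [hr.2]
    refine le_trans ?_ (lintegral_mono_set hsub)
    have h1 : ∀ r ∈ Icc (1 - 2 * d) (1 - d), ENNReal.ofReal c ≤
        ENNReal.ofReal (PT.HH x (ray r) ^ 2) := fun r hr => ENNReal.ofReal_le_ofReal (hlow r hr)
    refine le_trans ?_ (setLIntegral_mono' (μ := rho) measurableSet_Icc h1)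
    rw [setLIntegral_const, ENNReal.ofReal_mul hc0.le]
    gcongr
    exact rho_mid hd0 hd1
  have hI0 : 0 ≤ ∫ ξ in ball (0 : EuclideanSpace ℂ (Fin 1)) 1, PT.HH x ξ ^ 2 ∂nuR :=
    integral_nonneg fun _ => sq_nonneg _
  have h5 := (ENNReal.ofReal_le_ofReal_iff hI0).1 hgoal
  refine le_trans (le_of_eq ?_) h5
  rw [hc, hd]
  field_simp
  norm_num

/-- Functions which are tame with respect to the peak set of a smooth map into the disc. -/
theorem pull_peak (n : ℕ) {L K : ℝ} :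
    ∃ K' : ℝ, ∀ (Q : EuclideanSpace ℂ (Fin n) → EuclideanSpace ℂ (Fin 1))
      (u : EuclideanSpace ℂ (Fin n) → ℂ), SmoothMap L Q → DifferentiableOn ℂ u (ball 0 1) →
      (∀ z ∈ ball (0 : EuclideanSpace ℂ (Fin n)) 1, ‖u z‖ ≤ K) →
      (∀ z ∈ ball (0 : EuclideanSpace ℂ (Fin n)) 1,
        invGrad2 u z * ‖1 - Q z 0‖ ≤ K * (1 - ‖z‖ ^ 2)) →
      PullCarleson 4 K' u := by
  by_cases hL : 1 ≤ L
  swap
  · exact ⟨0, fun Q v hQ => absurd hQ.1 hL⟩
  obtain ⟨c, hc⟩ : ∃ c : ℝ, c = 162 * (K ^ 2 + 1) * (2 * L) ^ (7 / 4 : ℝ) := ⟨_, rfl⟩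
  have hc0 : 0 < c := by rw [hc]; positivity
  refine ⟨max (max K L) (c * 4), fun Q u hQ hu huK hg => ?_⟩
  refine ⟨hu, fun z hz => (huK z hz).trans ((le_max_left _ _).trans (le_max_left _ _)), 1, Q,
    ENNReal.ofReal c • nuR, SmoothMap_mono hQ ((le_max_right _ _).trans (le_max_left _ _)),
    ?_, ?_⟩
  · intro w hw
    rw [Measure.restrict_smul, lintegral_smul_measure]
    calc ENNReal.ofReal c • ∫⁻ ξ in ball (0 : EuclideanSpace ℂ (Fin 1)) 1,
          ENNReal.ofReal (invKer w ξ) ∂nuR ≤ ENNReal.ofReal c • ENNReal.ofReal 4 := by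
          simp only [smul_eq_mul]
          gcongr
          exact nuR_carl.2.2 w hw
      _ = ENNReal.ofReal (c * 4) := by rw [smul_eq_mul, ENNReal.ofReal_mul hc0.le]
      _ ≤ _ := ENNReal.ofReal_le_ofReal (le_max_right _ _)
  · intro z hz
    have hz' := mem_ball_zero_iff.1 hz
    have hQz := exa_lt hQ hz'
    have hs := one_sub_pos hz'
    have ht := one_sub_pos hQz
    have h4 : 0 ≤ invGrad2 u z := gd_IG_nonneg hz'
    have hst := sm_dist hQ hz'
    have hlow := nuR_lower hQz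
    have h1 := hg z hz
    obtain ⟨s, hsd⟩ : ∃ s, s = 1 - ‖z‖ ^ 2 := ⟨_, rfl⟩
    obtain ⟨t, htd⟩ : ∃ t, t = 1 - ‖Q z‖ ^ 2 := ⟨_, rfl⟩
    obtain ⟨y, hy⟩ : ∃ y, y = ‖1 - Q z 0‖ := ⟨_, rfl⟩
    have hy0 : 0 < y := by
      have e1 := norm_sub_norm_le (1 : ℂ) (Q z 0)
      rw [norm_one, ← norm_one_dim] at e1
      rw [hy]; linarith
    rw [← hsd] at hs hst h1 ⊢
    rw [← htd] at ht hst hlow ⊢
    rw [← hy] at hlow h1
    rw [Measure.restrict_smul, integral_smul_measure, ENNReal.toReal_ofReal hc0.le, smul_eq_mul]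
    obtain ⟨q, hq⟩ : ∃ q, q = s / t := ⟨_, rfl⟩
    have hq0 : 0 < q := by rw [hq]; positivity
    have hqL : q ≤ 2 * L := by rw [hq, div_le_iff₀ ht]; exact hst
    rw [← hq]
    have h5 : invGrad2 u z ≤ K * s / y := by rwa [le_div_iff₀ hy0]
    have h6 : invGrad2 u z ^ (4 / 2 : ℝ) = invGrad2 u z ^ 2 := by
      rw [← Real.rpow_natCast]; norm_num
    have h7 : q ^ 2 ≤ q ^ (1 / 4 : ℝ) * (2 * L) ^ (7 / 4 : ℝ) := by
      have e1 : q ^ 2 = q ^ (1 / 4 : ℝ) * q ^ (7 / 4 : ℝ) := by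
        rw [← Real.rpow_add hq0, ← Real.rpow_natCast]; norm_num
      rw [e1]
      exact mul_le_mul_of_nonneg_left (Real.rpow_le_rpow hq0.le hqL (by norm_num))
        (Real.rpow_nonneg hq0.le _)
    have hK2 : K ^ 2 ≤ K ^ 2 + 1 := by linarith
    rw [h6]
    calc invGrad2 u z ^ 2 ≤ (K * s / y) ^ 2 := pow_le_pow_left₀ h4 h5 2
      _ = K ^ 2 * q ^ 2 * (t / y) ^ 2 := by
          rw [hq]; field_simp
      _ ≤ (K ^ 2 + 1) * (q ^ (1 / 4 : ℝ) * (2 * L) ^ (7 / 4 : ℝ)) * (t / y) ^ 2 := by gcongr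
      _ = q ^ (1 / 4 : ℝ) * (c * (1 / 162 * (t / y) ^ 2)) := by rw [hc]; ring
      _ ≤ q ^ (1 / 4 : ℝ) * (c * ∫ ξ in ball (0 : EuclideanSpace ℂ (Fin 1)) 1,
            invKer (Q z) ξ ^ 2 ∂nuR) := by gcongr

end Pool.Agent.MPca0fc2.CP
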