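import Mathlib
import Pool.Agent.Lib.MP_ca0fc2_an.Kern
import Pool.Agent.Lib.MP_ca0fc2_an.DADefs

/-!
# Functions of one variable are multipliers of the Drury-Arveson space
-/

set_option autoImplicit false

open Metric Set MeasureTheory Filter Topology
open scoped InnerProductSpace Real ComplexOrder

namespace Pool.Agent.MPca0fc2.CV

open Pool.Agent.Lib.MP_ca0fc2_an
open Pool.Agent.MPca0fc2

/-- positivity of the Pick kernel, on a larger disc -/
theorem pick_aux {R K : ℝ} (hR : 1 < R) {g : ℂ → ℂ} (hg : DifferentiableOn ℂ g (ball 0 R))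
    (hK : ∀ θ : ℝ, ‖g (ee θ)‖ ≤ K) {k : ℕ} (z : Fin k → ℂ) (hz : ∀ i, ‖z i‖ < 1)
    (c : Fin k → ℂ) :
    0 ≤ (∑ i, ∑ j, c i * (starRingEnd ℂ) (c j) *
      ((((K ^ 2 : ℝ) : ℂ) - g (z i) * (starRingEnd ℂ) (g (z j))) * kk (z j) (z i))).re := by
  have hK0 : 0 ≤ K := (norm_nonneg _).trans (hK 0)
  obtain ⟨Ψ, hΨ⟩ : ∃ Ψ : ℝ → ℂ, Ψ = fun θ => ∑ i, ∑ j, (c i * (starRingEnd ℂ) (c j) *
      (((K ^ 2 : ℝ) : ℂ) + g (z i) * (starRingEnd ℂ) (g (z j))) *
        (kk (z j) (ee θ) * (starRingEnd ℂ) (kk (z i) (ee θ))) -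
      2 * (c i * (starRingEnd ℂ) (c j) * (starRingEnd ℂ) (g (z j))) *
        ((g (ee θ) * kk (z j) (ee θ)) * (starRingEnd ℂ) (kk (z i) (ee θ)))) := ⟨_, rfl⟩
  -- the integral of the function `Ψ`
  have hgee : Continuous fun θ => g (ee θ) := by
    refine ContinuousOn.comp_continuous (s := ball 0 R) hg.continuousOn continuous_ee fun θ => ?_
    rw [mem_ball_zero_iff, norm_ee]
    exact hR
  have hc1 : ∀ i j, Continuous fun θ => (c i * (starRingEnd ℂ) (c j) *
      (((K ^ 2 : ℝ) : ℂ) + g (z i) * (starRingEnd ℂ) (g (z j)))) *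
        (kk (z j) (ee θ) * (starRingEnd ℂ) (kk (z i) (ee θ))) := fun i j =>
    continuous_const.mul ((kk_cont_ee (hz j)).mul
      (Complex.continuous_conj.comp (kk_cont_ee (hz i))))
  have hc2 : ∀ i j, Continuous fun θ => 2 * (c i * (starRingEnd ℂ) (c j) *
      (starRingEnd ℂ) (g (z j))) *
        ((g (ee θ) * kk (z j) (ee θ)) * (starRingEnd ℂ) (kk (z i) (ee θ))) := fun i j =>
    continuous_const.mul ((hgee.mul (kk_cont_ee (hz j))).mul
      (Complex.continuous_conj.comp (kk_cont_ee (hz i))))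
  have hi3 : ∀ i j, ∫ θ in (-π)..π, (g (ee θ) * kk (z j) (ee θ)) *
      (starRingEnd ℂ) (kk (z i) (ee θ)) = 2 * π * (g (z i) * kk (z j) (z i)) := by
    intro i j
    obtain ⟨R', hR', hRR, h⟩ := exists_R (hz j) hR
    simp only [conj_kk_ee]
    exact cauchy_ee hR' ((hg.mono (ball_subset_ball hRR)).mul (kk_diff h)) (hz i)
  have hint : ∫ θ in (-π)..π, Ψ θ = 2 * π * ∑ i, ∑ j, c i * (starRingEnd ℂ) (c j) *
      ((((K ^ 2 : ℝ) : ℂ) - g (z i) * (starRingEnd ℂ) (g (z j))) * kk (z j) (z i)) := by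
    rw [hΨ, intervalIntegral.integral_finsetSum, Finset.mul_sum]
    · refine Finset.sum_congr rfl fun i _ => ?_
      rw [intervalIntegral.integral_finsetSum, Finset.mul_sum]
      · refine Finset.sum_congr rfl fun j _ => ?_
        rw [intervalIntegral.integral_sub ((hc1 i j).intervalIntegrable _ _)
          ((hc2 i j).intervalIntegrable _ _), intervalIntegral.integral_const_mul,
          intervalIntegral.integral_const_mul, hi3, integral_kk (hz j) (hz i)]
        ring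
      · intro j _
        exact ((hc1 i j).sub (hc2 i j)).intervalIntegrable _ _
    · intro i _
      exact (continuous_finsetSum _ fun j _ => (hc1 i j).sub (hc2 i j)).intervalIntegrable _ _
  have hΨc : Continuous Ψ := by
    rw [hΨ]
    exact continuous_finsetSum _ fun i _ => continuous_finsetSum _ fun j _ =>
      (hc1 i j).sub (hc2 i j)
  -- positivity
  have hpos : ∀ θ, 0 ≤ (Ψ θ).re := by
    intro θ
    obtain ⟨h, hh⟩ : ∃ h : ℂ, h = ∑ j, (starRingEnd ℂ) (c j) * kk (z j) (ee θ) := ⟨_, rfl⟩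
    obtain ⟨q, hq⟩ : ∃ q : ℂ, q = ∑ j, (starRingEnd ℂ) (c j) * (starRingEnd ℂ) (g (z j)) *
      kk (z j) (ee θ) := ⟨_, rfl⟩
    have e1 : Ψ θ = ((K ^ 2 : ℝ) : ℂ) * (h * (starRingEnd ℂ) h) + q * (starRingEnd ℂ) q -
        2 * (g (ee θ) * q * (starRingEnd ℂ) h) := by
      rw [hΨ, hh, hq, map_sum, map_sum]
      simp only [Finset.sum_sub_distrib]
      congr 1
      · rw [Finset.sum_mul_sum, Finset.sum_mul_sum, Finset.mul_sum, ← Finset.sum_add_distrib,
          Finset.sum_comm]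
        refine Finset.sum_congr rfl fun j _ => ?_
        rw [Finset.mul_sum, ← Finset.sum_add_distrib]
        refine Finset.sum_congr rfl fun i _ => ?_
        simp only [map_mul, Complex.conj_conj]
        ring
      · rw [Finset.mul_sum, Finset.mul_sum]
        refine Finset.sum_congr rfl fun i _ => ?_
        rw [Finset.mul_sum, Finset.sum_mul, Finset.mul_sum]
        refine Finset.sum_congr rfl fun j _ => ?_
        simp only [map_mul, Complex.conj_conj]
        ring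
    have e2 : (Ψ θ).re = K ^ 2 * ‖h‖ ^ 2 + ‖q‖ ^ 2 - 2 * (g (ee θ) * q * (starRingEnd ℂ) h).re := by
      rw [e1, Complex.mul_conj, Complex.mul_conj, Complex.normSq_eq_norm_sq,
        Complex.normSq_eq_norm_sq, Complex.sub_re, Complex.add_re]
      have e3 : (((K ^ 2 : ℝ) : ℂ) * ((‖h‖ ^ 2 : ℝ) : ℂ)).re = K ^ 2 * ‖h‖ ^ 2 := by
        rw [← Complex.ofReal_mul, Complex.ofReal_re]
      have e4 : ∀ w : ℂ, (2 * w).re = 2 * w.re := fun w => by simp
      rw [e3, Complex.ofReal_re, e4]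
    have e5 : (g (ee θ) * q * (starRingEnd ℂ) h).re ≤ K * ‖q‖ * ‖h‖ := by
      refine (Complex.re_le_norm _).trans ?_
      rw [norm_mul, norm_mul, RCLike.norm_conj]
      have := hK θ
      gcongr
    rw [e2]
    nlinarith [sq_nonneg (K * ‖h‖ - ‖q‖)]
  have h1 : (∫ θ in (-π)..π, Ψ θ).re = ∫ θ in (-π)..π, (Ψ θ).re := by
    have h0 : IntervalIntegrable Ψ volume (-π) π := hΨc.intervalIntegrable (-π) π
    have := Complex.reCLM.intervalIntegral_comp_comm h0
    simpa using this.symm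
  have h2 : 0 ≤ ∫ θ in (-π)..π, (Ψ θ).re :=
    intervalIntegral.integral_nonneg (by linarith [Real.pi_pos]) fun θ _ => hpos θ
  rw [← h1, hint] at h2
  have h3 : ∀ w : ℂ, (2 * (π : ℂ) * w).re = 2 * π * w.re := by
    intro w
    have : (2 * (π : ℂ)) = ((2 * π : ℝ) : ℂ) := by push_cast; ring
    rw [this, Complex.re_ofReal_mul]
  rw [h3] at h2
  have := Real.pi_pos
  exact nonneg_of_mul_nonneg_right h2 (by positivity)

/-- positivity of the Pick kernel -/
theorem pick {K : ℝ} {g : ℂ → ℂ} (hg : DifferentiableOn ℂ g (ball 0 1))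
    (hK : ∀ w ∈ ball (0 : ℂ) 1, ‖g w‖ ≤ K) {k : ℕ} (z : Fin k → ℂ) (hz : ∀ i, ‖z i‖ < 1)
    (c : Fin k → ℂ) :
    0 ≤ (∑ i, ∑ j, c i * (starRingEnd ℂ) (c j) *
      ((((K ^ 2 : ℝ) : ℂ) - g (z i) * (starRingEnd ℂ) (g (z j))) * kk (z j) (z i))).re := by
  have hlim : ∀ i, Tendsto (fun r : ℝ => g ((r : ℂ) * z i)) (𝓝[<] 1) (𝓝 (g (z i))) := by
    intro i
    have h1 : ContinuousAt g (z i) :=
      (hg.differentiableAt (isOpen_ball.mem_nhds (mem_ball_zero_iff.mpr (hz i)))).continuousAt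
    have h2 : Tendsto (fun r : ℝ => (r : ℂ) * z i) (𝓝[<] 1) (𝓝 (z i)) := by
      have h3 : Continuous fun r : ℝ => (r : ℂ) * z i := by fun_prop
      have h4 := (h3.tendsto 1).mono_left (nhdsWithin_le_nhds (s := Iio 1))
      simpa using h4
    exact h1.tendsto.comp h2
  have hlim2 : Tendsto (fun r : ℝ => (∑ i, ∑ j, c i * (starRingEnd ℂ) (c j) *
      ((((K ^ 2 : ℝ) : ℂ) - g ((r : ℂ) * z i) * (starRingEnd ℂ) (g ((r : ℂ) * z j))) *
        kk (z j) (z i))).re) (𝓝[<] 1) (𝓝 (∑ i, ∑ j, c i * (starRingEnd ℂ) (c j) *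
      ((((K ^ 2 : ℝ) : ℂ) - g (z i) * (starRingEnd ℂ) (g (z j))) * kk (z j) (z i))).re) := by
    refine (Complex.continuous_re.tendsto _).comp ?_
    refine tendsto_finsetSum _ fun i _ => tendsto_finsetSum _ fun j _ => ?_
    exact ((tendsto_const_nhds.sub ((hlim i).mul
      ((Complex.continuous_conj.tendsto _).comp (hlim j)))).mul_const _).const_mul _
  refine ge_of_tendsto hlim2 ?_
  have hev : ∀ᶠ r : ℝ in 𝓝[<] 1, r ∈ Ioo (0 : ℝ) 1 := Ioo_mem_nhdsLT one_pos
  filter_upwards [hev] with r hr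
  have hr0 : 0 < r := hr.1
  refine pick_aux (R := r⁻¹) (g := fun ζ => g ((r : ℂ) * ζ)) (one_lt_inv₀ hr0 |>.mpr hr.2) ?_ ?_
    z hz c
  · refine hg.comp (differentiableOn_id.const_mul _) fun ζ hζ => ?_
    rw [mem_ball_zero_iff] at hζ ⊢
    rw [norm_mul, Complex.norm_real, Real.norm_eq_abs, abs_of_pos hr0]
    calc r * ‖ζ‖ < r * r⁻¹ := by gcongr
      _ = 1 := mul_inv_cancel₀ hr0.ne'
  · intro θ
    apply hK
    rw [mem_ball_zero_iff, norm_mul, Complex.norm_real, Real.norm_eq_abs, abs_of_pos hr0, norm_ee,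
      mul_one]
    exact hr.2

theorem psd_of_re {k : ℕ} {A : Matrix (Fin k) (Fin k) ℂ} (hA : A.IsHermitian)
    (h : ∀ c : Fin k → ℂ, 0 ≤ (∑ i, ∑ j, c i * (starRingEnd ℂ) (c j) * A i j).re) :
    A.PosSemidef := by
  rw [Matrix.posSemidef_iff_dotProduct_mulVec]
  refine ⟨hA, fun x => ?_⟩
  have h1 : star x ⬝ᵥ A.mulVec x =
      ∑ i, ∑ j, (starRingEnd ℂ) (x i) * (starRingEnd ℂ) ((starRingEnd ℂ) (x j)) * A i j := by
    simp only [dotProduct, Matrix.mulVec, Pi.star_apply, RCLike.star_def, Complex.conj_conj]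
    refine Finset.sum_congr rfl fun i _ => ?_
    rw [Finset.mul_sum]
    refine Finset.sum_congr rfl fun j _ => ?_
    ring
  have h2 := h fun i => (starRingEnd ℂ) (x i)
  rw [← h1] at h2
  have h3 : (star x ⬝ᵥ A.mulVec x).im = 0 := by
    have := hA.im_star_dotProduct_mulVec_self x
    exact this
  rw [Complex.le_def]
  exact ⟨by simpa using h2, by rw [h3]; rfl⟩

theorem re_of_psd {k : ℕ} {A : Matrix (Fin k) (Fin k) ℂ} (hA : A.PosSemidef) (c : Fin k → ℂ) :
    0 ≤ (∑ i, ∑ j, c i * (starRingEnd ℂ) (c j) * A i j).re := by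
  have h := (Matrix.posSemidef_iff_dotProduct_mulVec.mp hA).2 fun i => (starRingEnd ℂ) (c i)
  have h1 : star (fun i => (starRingEnd ℂ) (c i)) ⬝ᵥ A.mulVec (fun i => (starRingEnd ℂ) (c i)) =
      ∑ i, ∑ j, c i * (starRingEnd ℂ) (c j) * A i j := by
    simp only [dotProduct, Matrix.mulVec, Pi.star_apply, RCLike.star_def, Complex.conj_conj]
    refine Finset.sum_congr rfl fun i _ => ?_
    rw [Finset.mul_sum]
    refine Finset.sum_congr rfl fun j _ => ?_
    ring
  rw [h1] at h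
  exact (Complex.le_def.mp h).1

variable {E : Type*} [NormedAddCommGroup E] [InnerProductSpace ℂ E]

theorem gram_psd {k : ℕ} (v : Fin k → E) :
    (Matrix.of fun i j => ⟪v j, v i⟫_ℂ : Matrix (Fin k) (Fin k) ℂ).PosSemidef := by
  apply psd_of_re
  · ext i j
    rw [Matrix.conjTranspose_apply, Matrix.of_apply, Matrix.of_apply, RCLike.star_def,
      inner_conj_symm]
  · intro c
    have h1 : ∑ i, ∑ j, c i * (starRingEnd ℂ) (c j) * (Matrix.of fun i j => ⟪v j, v i⟫_ℂ) i j =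
        ⟪∑ j, c j • v j, ∑ i, c i • v i⟫_ℂ := by
      rw [sum_inner, Finset.sum_comm]
      refine Finset.sum_congr rfl fun j _ => ?_
      rw [inner_sum]
      refine Finset.sum_congr rfl fun i _ => ?_
      rw [inner_smul_left, inner_smul_right, Matrix.of_apply]
      ring
    rw [h1]
    exact inner_self_nonneg (𝕜 := ℂ)

theorem pick_psd {K : ℝ} {g : ℂ → ℂ} (hg : DifferentiableOn ℂ g (ball 0 1))
    (hK : ∀ w ∈ ball (0 : ℂ) 1, ‖g w‖ ≤ K) {k : ℕ} (z : Fin k → ℂ) (hz : ∀ i, ‖z i‖ < 1) :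
    (Matrix.of fun i j => (((K ^ 2 : ℝ) : ℂ) - g (z i) * (starRingEnd ℂ) (g (z j))) *
      kk (z j) (z i) : Matrix (Fin k) (Fin k) ℂ).PosSemidef := by
  apply psd_of_re
  · ext i j
    rw [Matrix.conjTranspose_apply, Matrix.of_apply, Matrix.of_apply, RCLike.star_def]
    unfold kk
    simp only [map_mul, map_sub, map_inv₀, map_one, Complex.conj_conj, Complex.conj_ofReal]
    ring
  · exact fun c => pick hg hK z hz c

/-- A bounded holomorphic function of one variable `⟨z, e⟩` is a multiplier of the Drury-Arveson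
space. -/
theorem DAMultiplier_line {K : ℝ} {g : ℂ → ℂ} (hg : DifferentiableOn ℂ g (ball 0 1))
    (hK : ∀ w ∈ ball (0 : ℂ) 1, ‖g w‖ ≤ K) {e : E} (he : ‖e‖ = 1) :
    DAMultiplier K fun z : E => g ⟪e, z⟫_ℂ := by
  have hin : ∀ z ∈ ball (0 : E) 1, ‖⟪e, z⟫_ℂ‖ < 1 := by
    intro z hz
    have h1 := norm_inner_le_norm (𝕜 := ℂ) e z
    rw [he, one_mul] at h1
    exact lt_of_le_of_lt h1 (mem_ball_zero_iff.mp hz)
  refine ⟨?_, ?_⟩
  · refine hg.comp ?_ fun z hz => mem_ball_zero_iff.mpr (hin z hz)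
    exact (innerSL ℂ e).differentiable.differentiableOn
  intro k z c hz
  obtain ⟨x, hx⟩ : ∃ x : Fin k → ℂ, x = fun i => ⟪e, z i⟫_ℂ := ⟨_, rfl⟩
  obtain ⟨z', hz'⟩ : ∃ z' : Fin k → E, z' = fun i => z i - x i • e := ⟨_, rfl⟩
  have hx1 : ∀ i, ‖x i‖ < 1 := fun i => by rw [hx]; exact hin _ (hz i)
  have hee : ⟪e, e⟫_ℂ = 1 := by
    rw [inner_self_eq_norm_sq_to_K, he]
    norm_num
  have hdec : ∀ i j, ⟪z j, z i⟫_ℂ = (starRingEnd ℂ) (x j) * x i + ⟪z' j, z' i⟫_ℂ := by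
    intro i j
    have h1 : ⟪z j, e⟫_ℂ = (starRingEnd ℂ) (x j) := by rw [hx, inner_conj_symm]
    have h2 : ⟪e, z i⟫_ℂ = x i := by rw [hx]
    rw [hz']
    simp only [inner_sub_left, inner_sub_right, inner_smul_left, inner_smul_right, h1, h2, hee]
    ring
  have hn : ∀ i, ‖z' i‖ ^ 2 < 1 - ‖x i‖ ^ 2 := by
    intro i
    have h1 := hdec i i
    rw [inner_self_eq_norm_sq_to_K, inner_self_eq_norm_sq_to_K, mul_comm, Complex.mul_conj,
      Complex.normSq_eq_norm_sq] at h1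
    have h2 : ‖z i‖ ^ 2 = ‖x i‖ ^ 2 + ‖z' i‖ ^ 2 := by
      have := congrArg Complex.re h1
      simp only [Complex.coe_algebraMap] at this
      rw [← Complex.ofReal_pow, ← Complex.ofReal_pow, Complex.add_re, Complex.ofReal_re,
        Complex.ofReal_re, Complex.ofReal_re] at this
      exact this
    have h3 : ‖z i‖ < 1 := mem_ball_zero_iff.mp (hz i)
    nlinarith [norm_nonneg (z i)]
  have hkn : ∀ i j, 1 - (starRingEnd ℂ) (x j) * x i ≠ 0 := fun i j => kk_ne (by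
    have h1 := hx1 i
    have h2 := hx1 j
    nlinarith [norm_nonneg (x i), norm_nonneg (x j)])
  obtain ⟨T, hT⟩ : ∃ T : Matrix (Fin k) (Fin k) ℂ, T = Matrix.of fun i j =>
    ⟪z' j, z' i⟫_ℂ * kk (x j) (x i) := ⟨_, rfl⟩
  have hT1 : ∀ i j, ‖T i j‖ < 1 := by
    intro i j
    rw [hT, Matrix.of_apply, norm_mul]
    unfold kk
    rw [norm_inv, mul_inv_lt_iff₀ (norm_pos_iff.mpr (hkn i j)), one_mul]
    have h1 : ‖⟪z' j, z' i⟫_ℂ‖ ≤ ‖z' j‖ * ‖z' i‖ := norm_inner_le_norm _ _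
    have h2 : 1 - ‖x j‖ * ‖x i‖ ≤ ‖1 - (starRingEnd ℂ) (x j) * x i‖ := by
      have := norm_sub_norm_le (1 : ℂ) ((starRingEnd ℂ) (x j) * x i)
      rwa [norm_one, norm_mul, RCLike.norm_conj] at this
    refine lt_of_le_of_lt h1 (lt_of_lt_of_le ?_ h2)
    have h3 := hn i
    have h4 := hn j
    have h5 := hx1 i
    have h6 := hx1 j
    have h7 : 0 < 1 - ‖x j‖ * ‖x i‖ := by nlinarith [norm_nonneg (x i), norm_nonneg (x j)]
    apply lt_of_pow_lt_pow_left₀ 2 h7.le
    have h8 : (‖z' j‖ * ‖z' i‖) ^ 2 < (1 - ‖x j‖ ^ 2) * (1 - ‖x i‖ ^ 2) := by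
      rw [mul_pow]
      exact mul_lt_mul'' h4 h3 (by positivity) (by positivity)
    nlinarith [sq_nonneg (‖x j‖ - ‖x i‖)]
  have hTpsd : T.PosSemidef := by
    have h0 : DifferentiableOn ℂ (fun _ : ℂ => (0 : ℂ)) (ball 0 1) := differentiableOn_const 0
    have h1 := (gram_psd z').hadamard (pick_psd (K := 1) h0 (fun w _ => by simp) x hx1)
    have h2 : T = (Matrix.of fun i j => ⟪z' j, z' i⟫_ℂ).hadamard
        (Matrix.of fun i j => (((1 ^ 2 : ℝ) : ℂ) - (fun _ : ℂ => (0 : ℂ)) (x i) *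
          (starRingEnd ℂ) ((fun _ : ℂ => (0 : ℂ)) (x j))) * kk (x j) (x i)) := by
      ext i j
      rw [hT, Matrix.hadamard_apply, Matrix.of_apply, Matrix.of_apply, Matrix.of_apply]
      simp
    rw [h2]
    exact h1
  obtain ⟨A, hA⟩ : ∃ A : Matrix (Fin k) (Fin k) ℂ, A = Matrix.of fun i j =>
    (((K ^ 2 : ℝ) : ℂ) - g (x i) * (starRingEnd ℂ) (g (x j))) * kk (x j) (x i) := ⟨_, rfl⟩
  have hApsd : A.PosSemidef := by
    rw [hA]
    exact pick_psd hg hK x hx1
  have hm : ∀ m : ℕ, (Matrix.of fun i j => A i j * T i j ^ m : Matrix (Fin k) (Fin k) ℂ).PosSemidef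
      := by
    intro m
    induction m with
    | zero =>
      have h1 : (Matrix.of fun i j => A i j * T i j ^ 0 : Matrix (Fin k) (Fin k) ℂ) = A := by
        ext i j
        simp
      rw [h1]
      exact hApsd
    | succ m ih =>
      have h1 : (Matrix.of fun i j => A i j * T i j ^ (m + 1) : Matrix (Fin k) (Fin k) ℂ) =
          (Matrix.of fun i j => A i j * T i j ^ m : Matrix (Fin k) (Fin k) ℂ).hadamard T := by
        ext i j
        rw [Matrix.hadamard_apply, Matrix.of_apply, Matrix.of_apply]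
        ring
      rw [h1]
      exact ih.hadamard hTpsd
  have hsum : HasSum (fun m : ℕ => ∑ i, ∑ j, c i * (starRingEnd ℂ) (c j) * (A i j * T i j ^ m))
      (∑ i, ∑ j, c i * (starRingEnd ℂ) (c j) * (A i j * (1 - T i j)⁻¹)) := by
    refine hasSum_sum fun i _ => hasSum_sum fun j _ => ?_
    exact ((hasSum_geometric_of_norm_lt_one (hT1 i j)).mul_left _).mul_left _
  have hre := Complex.reCLM.hasSum hsum
  have hnn : 0 ≤ (∑ i, ∑ j, c i * (starRingEnd ℂ) (c j) * (A i j * (1 - T i j)⁻¹)).re := by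
    refine HasSum.nonneg (fun m => ?_) hre
    exact re_of_psd (hm m) c
  refine hnn.trans (le_of_eq (congrArg Complex.re ?_))
  refine Finset.sum_congr rfl fun i _ => Finset.sum_congr rfl fun j _ => ?_
  have hD := hkn i j
  have hT2 : 1 - T i j ≠ 0 := by
    intro h0
    have h1 := hT1 i j
    have h2 : T i j = 1 := by linear_combination -h0
    rw [h2, norm_one] at h1
    exact lt_irrefl _ h1
  have hTij : T i j = ⟪z' j, z' i⟫_ℂ / (1 - (starRingEnd ℂ) (x j) * x i) := by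
    rw [hT, Matrix.of_apply]
    rfl
  have hDt : 1 - ⟪z j, z i⟫_ℂ = (1 - T i j) * (1 - (starRingEnd ℂ) (x j) * x i) := by
    rw [hTij, hdec i j]
    field_simp
    ring
  have hgx : ∀ i, g ⟪e, z i⟫_ℂ = g (x i) := fun i => by rw [hx]
  have hAij : A i j = (((K ^ 2 : ℝ) : ℂ) - g (x i) * (starRingEnd ℂ) (g (x j))) *
      kk (x j) (x i) := by rw [hA, Matrix.of_apply]
  rw [hDt, hAij]
  simp only [hgx]
  unfold kk
  field_simp

end Pool.Agent.MPca0fc2.CV
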