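import Mathlib
import Pool.Agent.Lib.MP_ca0fc2_an.Mg.G008
import Pool.Agent.Lib.MP_ca0fc2_an.CVLine

/-! Holomorphic maps which extend to a larger ball, such as polynomials, are smooth maps. -/

set_option autoImplicit false

open Metric Set MeasureTheory Filter Topology
open scoped InnerProductSpace

namespace Pool.Agent.MPca0fc2.CP

open Pool.Agent.Lib.MP_ca0fc2_an

variable {E G : Type*} [NormedAddCommGroup E] [InnerProductSpace ℂ E]
  [NormedAddCommGroup G] [InnerProductSpace ℂ G]

/-- Cauchy's estimate for the derivative in a direction. -/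
theorem cauchy_dir {Q : E → G} {R B r : ℝ} (hr : 0 < r) {z : E}
    (hQ : DifferentiableOn ℂ Q (ball 0 R)) (hz : ‖z‖ + r ≤ R)
    (hB : ∀ w ∈ ball (0 : E) R, ‖w - z‖ < r → ‖Q w - Q z‖ ≤ B) (v : E) :
    ‖fderiv ℂ Q z v‖ ≤ B / r * ‖v‖ := by
  rcases eq_or_ne v 0 with rfl | hv0
  · simp
  have hv : 0 < ‖v‖ := norm_pos_iff.mpr hv0
  have hin : ∀ x ∈ ball (0 : ℂ) (r / ‖v‖), z + x • v ∈ ball (0 : E) R ∧ ‖z + x • v - z‖ < r := by
    intro x hx
    rw [mem_ball_zero_iff, lt_div_iff₀ hv] at hx
    have h1 : ‖x • v‖ < r := by rwa [norm_smul]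
    have h2 := norm_add_le z (x • v)
    refine ⟨?_, ?_⟩
    · rw [mem_ball_zero_iff]; linarith
    · rwa [add_sub_cancel_left]
  obtain ⟨F, hF⟩ : ∃ F : ℂ → G, F = fun x => Q (z + x • v) := ⟨_, rfl⟩
  have hFd : DifferentiableOn ℂ F (ball 0 (r / ‖v‖)) := by
    rw [hF]
    exact hQ.comp ((differentiable_id.smul_const v).const_add z).differentiableOn
      fun x hx => (hin x hx).1
  have hF0 : F 0 = Q z := by rw [hF]; simp
  have hmaps : MapsTo F (ball 0 (r / ‖v‖)) (closedBall (F 0) B) := by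
    intro x hx
    rw [mem_closedBall, dist_eq_norm, hF0, hF]
    exact hB _ (hin x hx).1 (hin x hx).2
  have hder := Complex.norm_deriv_le_div_of_mapsTo_ball hFd hmaps (by positivity)
  have hzR : z ∈ ball (0 : E) R := by rw [mem_ball_zero_iff]; linarith
  have hfd : deriv F 0 = fderiv ℂ Q z v := by
    have h1 : HasFDerivAt Q (fderiv ℂ Q z) (z + (0 : ℂ) • v) := by
      rw [zero_smul, add_zero]
      exact (hQ.differentiableAt (isOpen_ball.mem_nhds hzR)).hasFDerivAt
    have h2 : HasDerivAt (fun x : ℂ => z + x • v) v 0 := by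
      simpa using ((hasDerivAt_id (0 : ℂ)).smul_const v).const_add z
    have h3 := h1.comp_hasDerivAt (0 : ℂ) h2
    rw [hF]
    exact h3.deriv
  rw [hfd] at hder
  refine hder.trans (le_of_eq ?_)
  field_simp

/-- A bounded holomorphic map on a ball of radius `R > 1`, which maps the unit ball into the unit
ball, is a smooth map. -/
theorem smoothMap_of_bounded {Q : E → G} {R M : ℝ} (hR : 1 < R)
    (hQ : DifferentiableOn ℂ Q (ball 0 R)) (hM : ∀ z ∈ ball (0 : E) R, ‖Q z‖ ≤ M)
    (hm : ∀ z ∈ ball (0 : E) 1, Q z ∈ ball (0 : G) 1) : ∃ L, SmoothMap L Q := by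
  obtain ⟨r, hr⟩ : ∃ r, r = (R - 1) / 2 := ⟨_, rfl⟩
  have hr0 : 0 < r := by rw [hr]; linarith
  have hM0 : 0 ≤ M := (norm_nonneg _).trans (hM 0 (mem_ball_self (by linarith)))
  -- the derivative is bounded on a larger ball
  have h1 : ∀ z ∈ ball (0 : E) (1 + r), ‖fderiv ℂ Q z‖ ≤ 2 * M / r := by
    intro z hz
    rw [mem_ball_zero_iff] at hz
    apply ContinuousLinearMap.opNorm_le_bound _ (by positivity)
    intro v
    apply cauchy_dir hr0 hQ (by rw [hr] at hz ⊢; linarith)
    intro w hw _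
    refine (norm_sub_le _ _).trans ?_
    have h2 := hM w hw
    have h3 := hM z (by rw [mem_ball_zero_iff]; rw [hr] at hz; linarith)
    linarith
  have hsub : ball (0 : E) (1 + r) ⊆ ball 0 R := ball_subset_ball (by rw [hr]; linarith)
  have hlip : ∀ z ∈ ball (0 : E) (1 + r), ∀ w ∈ ball (0 : E) (1 + r),
      ‖Q w - Q z‖ ≤ 2 * M / r * ‖w - z‖ := by
    intro z hz w hw
    apply Convex.norm_image_sub_le_of_norm_fderiv_le (𝕜 := ℂ) (s := ball (0 : E) (1 + r)) _ h1
      (convex_ball _ _) hz hw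
    intro x hx
    exact hQ.differentiableAt (isOpen_ball.mem_nhds (hsub hx))
  -- the derivative is Lipschitz
  have h2 : ∀ z ∈ ball (0 : E) 1, ∀ w ∈ ball (0 : E) 1,
      ‖fderiv ℂ Q z - fderiv ℂ Q w‖ ≤ 2 * (2 * M / r) / r * ‖z - w‖ := by
    intro z hz w hw
    rw [mem_ball_zero_iff] at hz hw
    apply ContinuousLinearMap.opNorm_le_bound _ (by positivity)
    intro v
    -- the difference of two translates
    obtain ⟨H, hH⟩ : ∃ H : E → G, H = fun x => Q (z + x) - Q (w + x) := ⟨_, rfl⟩
    have hin : ∀ y : E, ‖y‖ < 1 → ∀ x ∈ ball (0 : E) r, y + x ∈ ball (0 : E) (1 + r) := by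
      intro y hy x hx
      rw [mem_ball_zero_iff] at hx ⊢
      have := norm_add_le y x
      linarith
    have hHd : DifferentiableOn ℂ H (ball 0 r) := by
      rw [hH]
      apply DifferentiableOn.sub
      · exact hQ.comp (differentiable_id.const_add z).differentiableOn
          fun x hx => hsub (hin z hz x hx)
      · exact hQ.comp (differentiable_id.const_add w).differentiableOn
          fun x hx => hsub (hin w hw x hx)
    have hHb : ∀ x ∈ ball (0 : E) r, ‖H x‖ ≤ 2 * M / r * ‖z - w‖ := by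
      intro x hx
      rw [hH]
      have := hlip (w + x) (hin w hw x hx) (z + x) (hin z hz x hx)
      rwa [add_sub_add_right_eq_sub] at this
    have h3 := cauchy_dir (z := (0 : E)) (B := 2 * (2 * M / r * ‖z - w‖)) hr0 hHd
      (by rw [norm_zero, zero_add]) (fun y hy _ => by
        refine (norm_sub_le _ _).trans ?_
        have g1 := hHb y hy
        have g2 := hHb 0 (mem_ball_self hr0)
        linarith) v
    have h4 : HasFDerivAt H (fderiv ℂ Q z - fderiv ℂ Q w) 0 := by
      rw [hH]
      apply HasFDerivAt.sub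
      · have h5 : HasFDerivAt Q (fderiv ℂ Q z) (z + (0 : E)) := by
          rw [add_zero]
          exact (hQ.differentiableAt (isOpen_ball.mem_nhds (by
            rw [mem_ball_zero_iff]; linarith))).hasFDerivAt
        have h6 : HasFDerivAt (fun x : E => z + x) (ContinuousLinearMap.id ℂ E) 0 :=
          (hasFDerivAt_id (0 : E)).const_add z
        exact h5.comp (0 : E) h6
      · have h5 : HasFDerivAt Q (fderiv ℂ Q w) (w + (0 : E)) := by
          rw [add_zero]
          exact (hQ.differentiableAt (isOpen_ball.mem_nhds (by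
            rw [mem_ball_zero_iff]; linarith))).hasFDerivAt
        have h6 : HasFDerivAt (fun x : E => w + x) (ContinuousLinearMap.id ℂ E) 0 :=
          (hasFDerivAt_id (0 : E)).const_add w
        exact h5.comp (0 : E) h6
    rw [h4.fderiv] at h3
    refine h3.trans (le_of_eq ?_)
    ring
  have hQ0 : ‖Q 0‖ < 1 := by
    have := hm 0 (mem_ball_self one_pos)
    rwa [mem_ball_zero_iff] at this
  obtain ⟨L, hL⟩ : ∃ L, L = 1 + 2 * M / r + 2 * (2 * M / r) / r + 1 / (1 - ‖Q 0‖) := ⟨_, rfl⟩
  have hp : 0 < 1 - ‖Q 0‖ := by linarith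
  have hL1 : 1 ≤ L := by
    rw [hL]
    have : 0 ≤ 2 * M / r := by positivity
    have : 0 ≤ 2 * (2 * M / r) / r := by positivity
    have : 0 ≤ 1 / (1 - ‖Q 0‖) := by positivity
    linarith
  refine ⟨L, hL1, hQ.mono (ball_subset_ball hR.le), hm, ?_, ?_, ?_⟩
  · have h3 : 1 / (1 - ‖Q 0‖) ≤ L := by
      rw [hL]
      have : 0 ≤ 2 * M / r := by positivity
      have : 0 ≤ 2 * (2 * M / r) / r := by positivity
      linarith
    have h4 : 1 / L ≤ 1 - ‖Q 0‖ := by
      rw [div_le_iff₀ (by linarith)]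
      rw [div_le_iff₀ hp] at h3
      linarith
    linarith
  · intro z hz
    rw [mem_ball_zero_iff] at hz
    refine (h1 z (by rw [mem_ball_zero_iff]; linarith)).trans ?_
    rw [hL]
    have : 0 ≤ 2 * (2 * M / r) / r := by positivity
    have : 0 ≤ 1 / (1 - ‖Q 0‖) := by positivity
    linarith
  · intro z hz w hw
    refine (h2 z hz w hw).trans ?_
    apply mul_le_mul_of_nonneg_right _ (norm_nonneg _)
    rw [hL]
    have : 0 ≤ 2 * M / r := by positivity
    have : 0 ≤ 1 / (1 - ‖Q 0‖) := by positivity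
    linarith

/-- The same in finite dimensions; no bound is needed. -/
theorem smoothMap_of_extends [FiniteDimensional ℂ E] {Q : E → G} {R : ℝ} (hR : 1 < R)
    (hQ : DifferentiableOn ℂ Q (ball 0 R))
    (hm : ∀ z ∈ ball (0 : E) 1, Q z ∈ ball (0 : G) 1) : ∃ L, SmoothMap L Q := by
  obtain ⟨S, hS⟩ : ∃ S, S = (1 + R) / 2 := ⟨_, rfl⟩
  have hS1 : 1 < S := by rw [hS]; linarith
  have hSR : S < R := by rw [hS]; linarith
  have : ProperSpace E := FiniteDimensional.proper ℂ E
  have hc : ContinuousOn Q (closedBall (0 : E) S) :=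
    hQ.continuousOn.mono (closedBall_subset_ball hSR)
  obtain ⟨M, hM⟩ := (isCompact_closedBall (0 : E) S).exists_bound_of_continuousOn hc
  exact smoothMap_of_bounded hS1 (hQ.mono (ball_subset_ball hSR.le))
    (fun z hz => hM z (ball_subset_closedBall hz)) hm

/-- A polynomial map into the unit ball is a smooth map. -/
theorem smoothMap_poly {n k : ℕ} (q : Fin k → MvPolynomial (Fin n) ℂ)
    (hm : ∀ z ∈ ball (0 : EuclideanSpace ℂ (Fin n)) 1,
      WithLp.toLp 2 (fun i => MvPolynomial.eval (fun j => z j) (q i)) ∈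
        ball (0 : EuclideanSpace ℂ (Fin k)) 1) :
    ∃ L, SmoothMap L fun z : EuclideanSpace ℂ (Fin n) =>
      (WithLp.toLp 2 (fun i => MvPolynomial.eval (fun j => z j) (q i)) :
        EuclideanSpace ℂ (Fin k)) := by
  refine smoothMap_of_extends (R := 2) (by norm_num) ?_ hm
  apply Differentiable.differentiableOn
  rw [differentiable_euclidean]
  intro i
  have hco : ∀ j, Differentiable ℂ fun z : EuclideanSpace ℂ (Fin n) => z j := fun j =>
    (EuclideanSpace.proj (𝕜 := ℂ) j).differentiable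
  show Differentiable ℂ fun z : EuclideanSpace ℂ (Fin n) => MvPolynomial.eval (fun j => z j) (q i)
  induction q i using MvPolynomial.induction_on with
  | C a => simp
  | add p q hp hq =>
    simp only [map_add]
    exact hp.add hq
  | mul_X p j hp =>
    simp only [map_mul, MvPolynomial.eval_X]
    exact hp.mul (hco j)

/-- If `g` is a bounded holomorphic function on the disc and `q` is a polynomial with `|q| < 1` on
the unit ball, then `g ∘ q` is the composition of a multiplier of the Drury-Arveson space of one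
variable and a smooth map. -/
theorem disc_poly {n : ℕ} {K : ℝ} {g : ℂ → ℂ} (hg : DifferentiableOn ℂ g (ball 0 1))
    (hK : ∀ w ∈ ball (0 : ℂ) 1, ‖g w‖ ≤ K) (q : MvPolynomial (Fin n) ℂ)
    (hq : ∀ z ∈ ball (0 : EuclideanSpace ℂ (Fin n)) 1,
      ‖MvPolynomial.eval (fun j => z j) q‖ < 1) :
    ∃ (L : ℝ) (Q : EuclideanSpace ℂ (Fin n) → EuclideanSpace ℂ (Fin 1))
      (v : EuclideanSpace ℂ (Fin 1) → ℂ), SmoothMap L Q ∧ DAMultiplier K v ∧
      ∀ z, g (MvPolynomial.eval (fun j => z j) q) = v (Q z) := by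
  obtain ⟨L, hL⟩ := smoothMap_poly (n := n) (k := 1) (fun _ => q) (by
    intro z hz
    rw [mem_ball_zero_iff, EuclideanSpace.norm_eq, Fin.sum_univ_one, Real.sqrt_sq (norm_nonneg _)]
    exact hq z hz)
  have he : ‖(EuclideanSpace.single (0 : Fin 1) (1 : ℂ))‖ = 1 := by
    rw [PiLp.norm_single, norm_one]
  refine ⟨L, _, _, hL, Pool.Agent.MPca0fc2.CV.DAMultiplier_line hg hK he, fun z => ?_⟩
  rw [EuclideanSpace.inner_single_left, map_one, one_mul]

end Pool.Agent.MPca0fc2.CP
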