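import Mathlib
import Pool.Agent.Lib.MP_ca0fc2_an.CPPeak
import Pool.Agent.Lib.MP_ca0fc2_an.CPPol
import Pool.Agent.Lib.MP_ca0fc2_an.CPMap

/-! The bounded holomorphic functions on the domain `|z|² < 1 + c |1 - q(z)|`, where `q` is
holomorphic on a neighbourhood of the closed ball, with `|q| < 1` on the open ball. This domain
touches the unit sphere along the peak set of `q`. -/

set_option autoImplicit false

open Metric Set MeasureTheory Filter Topology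
open scoped InnerProductSpace ENNReal

namespace Pool.Agent.MPca0fc2.CP

open Pool.Agent.Lib.MP_ca0fc2_an
open Pool.Agent.MPca0fc2.PT

variable {n : ℕ}

/-- the domain `|z|² < 1 + c |1 - q(z)|` -/
def peakDom {E : Type*} [NormedAddCommGroup E] (R c : ℝ) (q : E → ℂ) : Set E :=
  {z | z ∈ ball 0 R ∧ ‖z‖ ^ 2 < 1 + c * ‖1 - q z‖}

/-- Taylor's formula near the closed ball -/
theorem taylor_nbhd {E : Type*} [NormedAddCommGroup E] [InnerProductSpace ℂ E]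
    [FiniteDimensional ℂ E] {q : E → ℂ} {R : ℝ} (hR : 1 < R)
    (hq : DifferentiableOn ℂ q (ball 0 R)) :
    ∃ S A : ℝ, 1 < S ∧ S < R ∧ 0 ≤ A ∧ ∀ z ∈ ball (0 : E) S, ∀ w ∈ ball (0 : E) S,
      ‖q w - q z - fderiv ℂ q z (w - z)‖ ≤ A * ‖w - z‖ ^ 2 := by
  obtain ⟨S, hS⟩ : ∃ S, S = (1 + R) / 2 := ⟨_, rfl⟩
  have hS1 : 1 < S := by rw [hS]; linarith
  have hSR : S < R := by rw [hS]; linarith
  have hS0 : 0 < S := by linarith
  have : ProperSpace E := FiniteDimensional.proper ℂ E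
  have hcq : ContinuousOn q (closedBall (0 : E) S) :=
    hq.continuousOn.mono (closedBall_subset_ball hSR)
  obtain ⟨M, hM⟩ := (isCompact_closedBall (0 : E) S).exists_bound_of_continuousOn hcq
  have hM0 : 0 ≤ M := (norm_nonneg _).trans (hM 0 (mem_closedBall_self hS0.le))
  have hM1 : 0 < M + 1 := by linarith
  obtain ⟨q1, hq1⟩ : ∃ q1 : E → ℂ, q1 = fun z => ((M + 1 : ℝ) : ℂ)⁻¹ * q ((S : ℂ) • z) := ⟨_, rfl⟩
  have hmaps : ∀ z ∈ ball (0 : E) (R / S), (S : ℂ) • z ∈ ball (0 : E) R := by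
    intro z hz
    rw [mem_ball_zero_iff] at hz ⊢
    rw [norm_smul, Complex.norm_real, Real.norm_of_nonneg hS0.le]
    rw [lt_div_iff₀ hS0] at hz
    linarith
  have hd1 : DifferentiableOn ℂ q1 (ball 0 (R / S)) := by
    rw [hq1]
    exact (hq.comp (by fun_prop) hmaps).const_mul _
  have hm1 : ∀ z ∈ ball (0 : E) 1, q1 z ∈ ball (0 : ℂ) 1 := by
    intro z hz
    rw [mem_ball_zero_iff] at hz ⊢
    rw [hq1]
    simp only
    rw [norm_mul, norm_inv, Complex.norm_real, Real.norm_of_nonneg hM1.le, inv_mul_eq_div,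
      div_lt_one hM1]
    have h1 := hM ((S : ℂ) • z) (by
      rw [mem_closedBall_zero_iff, norm_smul, Complex.norm_real, Real.norm_of_nonneg hS0.le]
      nlinarith)
    linarith
  obtain ⟨L, hL⟩ := smoothMap_of_extends (by rwa [one_lt_div hS0]) hd1 hm1
  have hL0 : 0 < L := by linarith [hL.1]
  have hSC : (S : ℂ) ≠ 0 := by exact_mod_cast hS0.ne'
  have hMC : ((M + 1 : ℝ) : ℂ) ≠ 0 := by exact_mod_cast hM1.ne'
  refine ⟨S, (M + 1) * L / S ^ 2, hS1, hSR, by positivity, fun z hz w hw => ?_⟩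
  have hsc : ∀ x ∈ ball (0 : E) S, ‖(S : ℂ)⁻¹ • x‖ < 1 := by
    intro x hx
    rw [mem_ball_zero_iff] at hx
    rw [norm_smul, norm_inv, Complex.norm_real, Real.norm_of_nonneg hS0.le, inv_mul_eq_div,
      div_lt_one hS0]
    exact hx
  have h1 := sm_taylor hL (hsc w hw) (hsc z hz)
  have hval : ∀ x : E, q1 ((S : ℂ)⁻¹ • x) = ((M + 1 : ℝ) : ℂ)⁻¹ * q x := by
    intro x
    rw [hq1]
    simp only
    rw [smul_smul, mul_inv_cancel₀ hSC, one_smul]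
  have hder : fderiv ℂ q1 ((S : ℂ)⁻¹ • z) ((S : ℂ)⁻¹ • w - (S : ℂ)⁻¹ • z) =
      ((M + 1 : ℝ) : ℂ)⁻¹ * fderiv ℂ q z (w - z) := by
    have hz' : z ∈ ball (0 : E) R := ball_subset_ball hSR.le hz
    have e1 : HasFDerivAt q (fderiv ℂ q z) ((S : ℂ) • (S : ℂ)⁻¹ • z) := by
      rw [smul_smul, mul_inv_cancel₀ hSC, one_smul]
      exact (hq.differentiableAt (isOpen_ball.mem_nhds hz')).hasFDerivAt
    have e2 : HasFDerivAt (fun x : E => (S : ℂ) • x) ((S : ℂ) • ContinuousLinearMap.id ℂ E)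
        ((S : ℂ)⁻¹ • z) := (hasFDerivAt_id _).const_smul _
    have e3 : HasFDerivAt q1 (((M + 1 : ℝ) : ℂ)⁻¹ •
        (fderiv ℂ q z).comp ((S : ℂ) • ContinuousLinearMap.id ℂ E)) ((S : ℂ)⁻¹ • z) := by
      rw [hq1]
      exact (e1.comp _ e2).const_mul _
    rw [e3.fderiv, ← smul_sub]
    simp only [smul_apply, ContinuousLinearMap.comp_apply, ContinuousLinearMap.id_apply,
      smul_eq_mul]
    rw [smul_smul, mul_inv_cancel₀ hSC, one_smul]
  rw [hval, hval, hder, ← mul_sub, ← mul_sub, norm_mul, norm_inv, Complex.norm_real,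
    Real.norm_of_nonneg hM1.le, ← smul_sub, norm_smul, norm_inv, Complex.norm_real,
    Real.norm_of_nonneg hS0.le, inv_mul_le_iff₀ hM1] at h1
  refine h1.trans (le_of_eq ?_)
  field_simp

/-- the derivative of a smooth map into the disc -/
theorem grad_one {L : ℝ} {Q : EuclideanSpace ℂ (Fin n) → EuclideanSpace ℂ (Fin 1)}
    (hQ : SmoothMap L Q) {z : EuclideanSpace ℂ (Fin n)} (hz : ‖z‖ < 1)
    (X : EuclideanSpace ℂ (Fin n)) :
    ‖fderiv ℂ Q z X‖ ≤ 22 * L ^ 2 * (‖⟪z, X⟫_ℂ‖ + Real.sqrt (1 - ‖Q z‖ ^ 2) * ‖X‖) := by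
  have hL := hQ.1
  have hL0 : 0 < L := by linarith
  have hQz := exa_lt hQ hz
  have ht := one_sub_pos hQz
  obtain ⟨x, hx⟩ : ∃ x, x = 1 - ‖Q z‖ ^ 2 := ⟨_, rfl⟩
  rw [← hx] at ht ⊢
  have hx1 : x ≤ 1 := by rw [hx]; nlinarith [norm_nonneg (Q z)]
  have hsx : x ≤ Real.sqrt x := by
    apply Real.le_sqrt_of_sq_le
    nlinarith
  have hX := norm_nonneg X
  have hzX := norm_nonneg ⟪z, X⟫_ℂ
  have htriv : ‖fderiv ℂ Q z X‖ ≤ L * ‖X‖ := by
    refine ((fderiv ℂ Q z).le_opNorm X).trans ?_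
    exact mul_le_mul_of_nonneg_right (hQ.2.2.2.2.1 z (mem_ball_zero_iff.2 hz)) hX
  have hLL : L ≤ L ^ 2 := by nlinarith
  have hs0 := Real.sqrt_nonneg x
  -- the trivial bound is enough if `x` is large
  have key : 1 ≤ 22 * L * Real.sqrt x →
      ‖fderiv ℂ Q z X‖ ≤ 22 * L ^ 2 * (‖⟪z, X⟫_ℂ‖ + Real.sqrt x * ‖X‖) := by
    intro h
    calc ‖fderiv ℂ Q z X‖ ≤ L * ‖X‖ * 1 := by rw [mul_one]; exact htriv
      _ ≤ L * ‖X‖ * (22 * L * Real.sqrt x) := by gcongr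
      _ = 22 * L ^ 2 * (0 + Real.sqrt x * ‖X‖) := by ring
      _ ≤ _ := by gcongr
  rcases lt_or_ge ‖z‖ (1 / 2) with h1 | h1
  · apply key
    have h2 := sm_dist hQ hz
    rw [← hx] at h2
    have h3 : 3 / 4 ≤ 2 * L * x := by nlinarith [norm_nonneg z]
    nlinarith
  rcases lt_or_ge ‖Q z‖ (1 / 2) with h2 | h2
  · apply key
    have h3 : 3 / 4 ≤ x := by rw [hx]; nlinarith [norm_nonneg (Q z)]
    nlinarith
  have h3 := sm_normal hQ hz h1 X
  rw [← hx] at h3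
  have h4 : ‖⟪Q z, fderiv ℂ Q z X⟫_ℂ‖ = ‖Q z‖ * ‖fderiv ℂ Q z X‖ := by
    rw [PiLp.inner_apply, Fin.sum_univ_one, norm_one_dim, norm_one_dim (fderiv ℂ Q z X),
      RCLike.inner_apply, norm_mul, RCLike.norm_conj, mul_comm]
  rw [h4] at h3
  have h5 : 1 / 2 * ‖fderiv ℂ Q z X‖ ≤ ‖Q z‖ * ‖fderiv ℂ Q z X‖ := by gcongr
  calc ‖fderiv ℂ Q z X‖ ≤ 2 * (2 * L * ‖⟪z, X⟫_ℂ‖ + 11 * L * Real.sqrt x * ‖X‖) := by linarith
    _ = 4 * L * ‖⟪z, X⟫_ℂ‖ + 22 * L * (Real.sqrt x * ‖X‖) := by ring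
    _ ≤ 22 * L ^ 2 * ‖⟪z, X⟫_ℂ‖ + 22 * L ^ 2 * (Real.sqrt x * ‖X‖) := by
        apply add_le_add
        · apply mul_le_mul_of_nonneg_right _ hzX
          nlinarith
        · apply mul_le_mul_of_nonneg_right _ (by positivity)
          nlinarith
    _ = _ := by ring

/-- discs in the domain -/
theorem dom_room {R c : ℝ} {q : EuclideanSpace ℂ (Fin n) → ℂ} (hR : 1 < R)
    (hq : DifferentiableOn ℂ q (ball 0 R)) (hq1 : ∀ z ∈ ball (0 : EuclideanSpace ℂ (Fin n)) 1,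
      ‖q z‖ < 1) (hc : 0 < c) (hc1 : c ≤ 1) :
    ∃ ε : ℝ, 0 < ε ∧ ∀ z X : EuclideanSpace ℂ (Fin n), ∀ (t : ℂ) (τ : ℝ), ‖z‖ < 1 →
      τ = 1 - ‖z‖ ^ 2 + c * ‖1 - q z‖ → ‖t‖ * ‖⟪z, X⟫_ℂ‖ ≤ ε * τ →
      ‖t‖ * ‖X‖ ≤ ε * Real.sqrt τ → z + t • X ∈ peakDom R c q := by
  have hmaps : ∀ z ∈ ball (0 : EuclideanSpace ℂ (Fin n)) 1,
      (EuclideanSpace.single 0 (q z) : EuclideanSpace ℂ (Fin 1)) ∈ ball 0 1 := by
    intro z hz
    rw [mem_ball_zero_iff, PiLp.norm_single]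
    exact hq1 z hz
  have hQd : DifferentiableOn ℂ (fun z : EuclideanSpace ℂ (Fin n) =>
      (EuclideanSpace.single 0 (q z) : EuclideanSpace ℂ (Fin 1))) (ball 0 R) := by
    have e1 : (fun z : EuclideanSpace ℂ (Fin n) =>
        (EuclideanSpace.single 0 (q z) : EuclideanSpace ℂ (Fin 1))) = fun z =>
        q z • (EuclideanSpace.single 0 (1 : ℂ) : EuclideanSpace ℂ (Fin 1)) := by
      funext z
      ext i
      fin_cases i
      simp
    rw [e1]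
    exact hq.smul_const _
  obtain ⟨L, hL⟩ := smoothMap_of_extends hR hQd hmaps
  obtain ⟨S, A, hS1, hSR, hA, hT⟩ := taylor_nbhd hR hq
  have hL1 := hL.1
  have hL0 : 0 < L := by linarith
  obtain ⟨B, hB⟩ : ∃ B, B = 60 * L ^ 2 + A + 4 := ⟨_, rfl⟩
  have hB0 : 0 < B := by rw [hB]; positivity
  obtain ⟨ε, hε⟩ : ∃ ε, ε = min (1 / (2 * B)) ((S - 1) / 2) := ⟨_, rfl⟩
  have hε0 : 0 < ε := by
    rw [hε]
    exact lt_min (by positivity) (by linarith)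
  have hεB : ε * B ≤ 1 / 2 := by
    have : ε ≤ 1 / (2 * B) := by rw [hε]; exact min_le_left _ _
    calc ε * B ≤ 1 / (2 * B) * B := by gcongr
      _ = 1 / 2 := by field_simp
  have hεS : ε * 2 ≤ S - 1 := by
    have : ε ≤ (S - 1) / 2 := by rw [hε]; exact min_le_right _ _
    linarith
  refine ⟨ε, hε0, fun z X t τ hz hτ h1 h2 => ?_⟩
  have hzb := mem_ball_zero_iff.2 hz
  obtain ⟨lam, hlam⟩ : ∃ l, l = ‖1 - q z‖ := ⟨_, rfl⟩
  obtain ⟨a, ha⟩ : ∃ a, a = ‖t‖ * ‖⟪z, X⟫_ℂ‖ := ⟨_, rfl⟩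
  obtain ⟨b, hb⟩ : ∃ b, b = ‖t‖ * ‖X‖ := ⟨_, rfl⟩
  rw [← hlam] at hτ
  rw [← ha] at h1
  rw [← hb] at h2
  have hl0 : 0 ≤ lam := by rw [hlam]; exact norm_nonneg _
  have hl2 : lam ≤ 2 := by
    rw [hlam]
    have := norm_sub_le (1 : ℂ) (q z)
    rw [norm_one] at this
    linarith [hq1 z hzb]
  have ha0 : 0 ≤ a := by rw [ha]; positivity
  have hb0 : 0 ≤ b := by rw [hb]; positivity
  have hτ0 : 0 < τ := by
    rw [hτ]
    nlinarith [norm_nonneg z, mul_nonneg hc.le hl0]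
  have hτ3 : τ ≤ 4 := by
    rw [hτ]
    nlinarith [norm_nonneg z]
  have hlτ : c * lam ≤ τ := by
    rw [hτ]
    nlinarith [norm_nonneg z]
  have hsq2 : Real.sqrt τ ≤ 2 := by
    rw [Real.sqrt_le_left (by norm_num)]
    linarith
  have hb2 : b ^ 2 ≤ ε ^ 2 * τ := by
    have e1 : b ^ 2 ≤ (ε * Real.sqrt τ) ^ 2 := pow_le_pow_left₀ hb0 h2 2
    rwa [mul_pow, Real.sq_sqrt hτ0.le] at e1
  have hbS : b ≤ S - 1 := by
    calc b ≤ ε * Real.sqrt τ := h2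
      _ ≤ ε * 2 := by gcongr
      _ ≤ S - 1 := hεS
  have hε1 : ε ≤ 1 := by
    have : 1 ≤ B := by rw [hB]; nlinarith
    nlinarith
  have hε2 : ε ^ 2 ≤ ε := by nlinarith
  have htX : ‖t • X‖ = b := by rw [norm_smul, hb]
  have hball : z + t • X ∈ ball (0 : EuclideanSpace ℂ (Fin n)) S := by
    rw [mem_ball_zero_iff]
    calc ‖z + t • X‖ ≤ ‖z‖ + ‖t • X‖ := norm_add_le _ _
      _ < S := by rw [htX]; linarith
  -- the norm
  have hn : ‖z + t • X‖ ^ 2 ≤ ‖z‖ ^ 2 + 2 * a + b ^ 2 := by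
    have e1 := norm_add_sq (𝕜 := ℂ) z (t • X)
    have e2 : RCLike.re ⟪z, t • X⟫_ℂ ≤ a := by
      refine (RCLike.re_le_norm _).trans (le_of_eq ?_)
      rw [inner_smul_right, norm_mul, ha]
    rw [htX] at e1
    linarith
  -- the function q
  have hder : ‖fderiv ℂ q z X‖ ≤ 22 * L ^ 2 * (‖⟪z, X⟫_ℂ‖ + Real.sqrt (2 * lam) * ‖X‖) := by
    have e1 := grad_one hL hz X
    have e2 : HasFDerivAt q (fderiv ℂ q z) z := (hq.differentiableAt (isOpen_ball.mem_nhds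
      (ball_subset_ball hR.le hzb))).hasFDerivAt
    have e3 : HasFDerivAt (fun z : EuclideanSpace ℂ (Fin n) =>
        (EuclideanSpace.single 0 (q z) : EuclideanSpace ℂ (Fin 1)))
        ((fderiv ℂ q z).smulRight (EuclideanSpace.single 0 (1 : ℂ))) z := by
      have e4 : (fun z : EuclideanSpace ℂ (Fin n) =>
        (EuclideanSpace.single 0 (q z) : EuclideanSpace ℂ (Fin 1))) = fun z =>
        q z • (EuclideanSpace.single 0 (1 : ℂ) : EuclideanSpace ℂ (Fin 1)) := by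
        funext z
        ext i
        fin_cases i
        simp
      rw [e4]
      exact e2.smul_const _
    rw [e3.fderiv, ContinuousLinearMap.smulRight_apply, norm_smul, PiLp.norm_single,
      norm_one, mul_one, PiLp.norm_single] at e1
    refine e1.trans ?_
    have e5 : 1 - ‖q z‖ ^ 2 ≤ 2 * lam := by
      have e6 := norm_sub_norm_le (1 : ℂ) (q z)
      rw [norm_one, ← hlam] at e6
      nlinarith [norm_nonneg (q z), hq1 z hzb]
    have e7 := Real.sqrt_le_sqrt e5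
    gcongr
  have hqq : lam - (22 * L ^ 2 * (a + Real.sqrt (2 * lam) * b) + A * b ^ 2) ≤
      ‖1 - q (z + t • X)‖ := by
    have e1 := hT z (ball_subset_ball hS1.le hzb) (z + t • X) hball
    rw [add_sub_cancel_left, htX, map_smul, smul_eq_mul] at e1
    have e2 : 1 - q (z + t • X) = (1 - q z) - (t * fderiv ℂ q z X +
        (q (z + t • X) - q z - t * fderiv ℂ q z X)) := by ring
    rw [e2]
    have e3 := norm_sub_norm_le (1 - q z) (t * fderiv ℂ q z X +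
        (q (z + t • X) - q z - t * fderiv ℂ q z X))
    have e4 : ‖t * fderiv ℂ q z X + (q (z + t • X) - q z - t * fderiv ℂ q z X)‖ ≤
        22 * L ^ 2 * (a + Real.sqrt (2 * lam) * b) + A * b ^ 2 := by
      refine (norm_add_le _ _).trans (add_le_add ?_ e1)
      rw [norm_mul]
      calc ‖t‖ * ‖fderiv ℂ q z X‖ ≤
          ‖t‖ * (22 * L ^ 2 * (‖⟪z, X⟫_ℂ‖ + Real.sqrt (2 * lam) * ‖X‖)) := by gcongr
        _ = _ := by rw [ha, hb]; ring
    rw [← hlam] at e3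
    linarith
  have hsq : c * (Real.sqrt (2 * lam) * b) ≤ 3 / 2 * (ε * τ) := by
    have e1 : (c * (Real.sqrt (2 * lam) * b)) ^ 2 ≤ (3 / 2 * (ε * τ)) ^ 2 := by
      have e2 : (c * (Real.sqrt (2 * lam) * b)) ^ 2 = c * (c * lam) * (2 * b ^ 2) := by
        rw [mul_pow, mul_pow, Real.sq_sqrt (by positivity)]
        ring
      rw [e2]
      calc c * (c * lam) * (2 * b ^ 2) ≤ 1 * τ * (2 * (ε ^ 2 * τ)) := by gcongr
        _ ≤ (3 / 2 * (ε * τ)) ^ 2 := by nlinarith [sq_nonneg (ε * τ)]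
    have e3 : 0 ≤ c * (Real.sqrt (2 * lam) * b) := by positivity
    exact (pow_le_pow_iff_left₀ e3 (by positivity) two_ne_zero).1 e1
  refine ⟨ball_subset_ball hSR.le hball, ?_⟩
  have hq' := mul_le_mul_of_nonneg_left hqq hc.le
  have hετ : 0 < ε * τ := by positivity
  have hb2' : b ^ 2 ≤ ε * τ := hb2.trans (by gcongr)
  have hca : c * a ≤ ε * τ := by
    calc c * a ≤ 1 * (ε * τ) := by gcongr
      _ = _ := one_mul _
  have hcb : c * (A * b ^ 2) ≤ A * (ε * τ) := by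
    calc c * (A * b ^ 2) ≤ 1 * (A * (ε * τ)) := by gcongr
      _ = _ := one_mul _
  have h5 : c * (22 * L ^ 2 * (a + Real.sqrt (2 * lam) * b)) ≤ 55 * L ^ 2 * (ε * τ) := by
    calc c * (22 * L ^ 2 * (a + Real.sqrt (2 * lam) * b)) =
        22 * L ^ 2 * (c * a + c * (Real.sqrt (2 * lam) * b)) := by ring
      _ ≤ 22 * L ^ 2 * (ε * τ + 3 / 2 * (ε * τ)) := by gcongr
      _ = _ := by ring
  have h6 : ε * B * τ ≤ 1 / 2 * τ := by gcongr
  have h7 : 0 ≤ L ^ 2 * (ε * τ) := by positivity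
  have h8 : ε * B * τ = 60 * (L ^ 2 * (ε * τ)) + A * (ε * τ) + 4 * (ε * τ) := by
    rw [hB]; ring
  have h9 : c * (lam - (22 * L ^ 2 * (a + Real.sqrt (2 * lam) * b) + A * b ^ 2)) =
      c * lam - c * (22 * L ^ 2 * (a + Real.sqrt (2 * lam) * b)) - c * (A * b ^ 2) := by ring
  rw [h9] at hq'
  linarith

/-- the derivative of a bounded function, if there is room -/
theorem room_grad {M ε τ : ℝ} {u : EuclideanSpace ℂ (Fin n) → ℂ}
    {D : Set (EuclideanSpace ℂ (Fin n))} (hu : DifferentiableOn ℂ u D)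
    (huM : ∀ z ∈ D, ‖u z‖ ≤ M) (hD : ball (0 : EuclideanSpace ℂ (Fin n)) 1 ⊆ D)
    {z : EuclideanSpace ℂ (Fin n)} (hz : ‖z‖ < 1) (hε : 0 < ε) (hτ0 : 0 < τ)
    (X : EuclideanSpace ℂ (Fin n))
    (hroom : ∀ t : ℂ, ‖t‖ * ‖⟪z, X⟫_ℂ‖ ≤ ε * τ → ‖t‖ * ‖X‖ ≤ ε * Real.sqrt τ → z + t • X ∈ D) :
    ‖fderiv ℂ u z X‖ ≤ M / ε * (‖⟪z, X⟫_ℂ‖ / τ + ‖X‖ / Real.sqrt τ) := by
  have hs0 : 0 < Real.sqrt τ := Real.sqrt_pos.2 hτ0
  by_cases hX : X = 0
  · rw [hX]; simp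
  have hX0 : 0 < ‖X‖ := norm_pos_iff.2 hX
  obtain ⟨g, hg⟩ : ∃ g, g = ‖⟪z, X⟫_ℂ‖ / τ + ‖X‖ / Real.sqrt τ := ⟨_, rfl⟩
  have hg0 : 0 < g := by rw [hg]; positivity
  obtain ⟨r, hr⟩ : ∃ r, r = ε / g := ⟨_, rfl⟩
  have hr0 : 0 < r := by rw [hr]; positivity
  have hin : ∀ t : ℂ, ‖t‖ ≤ r → z + t • X ∈ D := by
    intro t ht
    have h1 : ‖t‖ * g ≤ ε := by
      calc ‖t‖ * g ≤ r * g := by gcongr
        _ = ε := by rw [hr]; field_simp
    have h2 : ‖t‖ * (‖⟪z, X⟫_ℂ‖ / τ) ≤ ε := by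
      refine le_trans ?_ h1
      apply mul_le_mul_of_nonneg_left _ (norm_nonneg _)
      rw [hg]
      have : 0 ≤ ‖X‖ / Real.sqrt τ := by positivity
      linarith
    have h3 : ‖t‖ * (‖X‖ / Real.sqrt τ) ≤ ε := by
      refine le_trans ?_ h1
      apply mul_le_mul_of_nonneg_left _ (norm_nonneg _)
      rw [hg]
      have : 0 ≤ ‖⟪z, X⟫_ℂ‖ / τ := by positivity
      linarith
    apply hroom
    · rwa [← mul_div_assoc, div_le_iff₀ hτ0] at h2
    · rwa [← mul_div_assoc, div_le_iff₀ hs0] at h3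
  have hF : DifferentiableOn ℂ (fun t : ℂ => u (z + t • X)) (closedBall 0 r) := by
    refine hu.comp (by fun_prop) ?_
    intro t ht
    exact hin t (by simpa using ht)
  have hd : HasDerivAt (fun t : ℂ => u (z + t • X)) (fderiv ℂ u z X) 0 := by
    have h1 : HasFDerivAt u (fderiv ℂ u z) (z + (0 : ℂ) • X) := by
      rw [zero_smul, add_zero]
      exact ((hu.mono hD).differentiableAt (isOpen_ball.mem_nhds
        (mem_ball_zero_iff.2 hz))).hasFDerivAt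
    have h2 : HasDerivAt (fun t : ℂ => z + t • X) X 0 := by
      have := ((hasDerivAt_id (0 : ℂ)).smul_const X).const_add z
      simpa using this
    exact h1.comp_hasDerivAt 0 h2
  have h4 := Complex.norm_deriv_le_of_forall_mem_sphere_norm_le (f := fun t : ℂ => u (z + t • X))
    (c := 0) (C := M) hr0 (hF.diffContOnCl_ball subset_rfl) (fun t ht => huM _ (hin t (by
      rw [mem_sphere_zero_iff_norm] at ht
      exact ht.le)))
  rw [hd.deriv] at h4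
  refine h4.trans (le_of_eq ?_)
  rw [hr, ← hg]
  field_simp

/-- All bounded holomorphic functions on the domain `|z|² < 1 + c |1 - q(z)|`, where `q` is
holomorphic near the closed ball, with `|q| < 1` on the open ball. -/
theorem pull_dom {R c M : ℝ} {q : EuclideanSpace ℂ (Fin n) → ℂ} (hR : 1 < R)
    (hq : DifferentiableOn ℂ q (ball 0 R)) (hq1 : ∀ z ∈ ball (0 : EuclideanSpace ℂ (Fin n)) 1,
      ‖q z‖ < 1) (hc : 0 < c) (hc1 : c ≤ 1) :
    ∃ K' : ℝ, ∀ u : EuclideanSpace ℂ (Fin n) → ℂ, DifferentiableOn ℂ u (peakDom R c q) →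
      (∀ z ∈ peakDom R c q, ‖u z‖ ≤ M) → PullCarleson 4 K' u := by
  obtain ⟨ε, hε, hroom⟩ := dom_room hR hq hq1 hc hc1
  have hmaps : ∀ z ∈ ball (0 : EuclideanSpace ℂ (Fin n)) 1,
      (EuclideanSpace.single 0 (q z) : EuclideanSpace ℂ (Fin 1)) ∈ ball 0 1 := by
    intro z hz
    rw [mem_ball_zero_iff, PiLp.norm_single]
    exact hq1 z hz
  have hQd : DifferentiableOn ℂ (fun z : EuclideanSpace ℂ (Fin n) =>
      (EuclideanSpace.single 0 (q z) : EuclideanSpace ℂ (Fin 1))) (ball 0 R) := by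
    have e1 : (fun z : EuclideanSpace ℂ (Fin n) =>
        (EuclideanSpace.single 0 (q z) : EuclideanSpace ℂ (Fin 1))) = fun z =>
        q z • (EuclideanSpace.single 0 (1 : ℂ) : EuclideanSpace ℂ (Fin 1)) := by
      funext z
      ext i
      fin_cases i
      simp
    rw [e1]
    exact hq.smul_const _
  obtain ⟨L, hL⟩ := smoothMap_of_extends hR hQd hmaps
  obtain ⟨K₀, hK₀⟩ : ∃ K₀, K₀ = 2 * (M / ε) ^ 2 := ⟨_, rfl⟩
  have hK₀0 : 0 ≤ K₀ := by rw [hK₀]; positivity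
  obtain ⟨K', hK'⟩ := pull_peak n (L := L) (K := max M (K₀ / c))
  refine ⟨K', fun u hu huM => ?_⟩
  have hsub : ball (0 : EuclideanSpace ℂ (Fin n)) 1 ⊆ peakDom R c q := by
    intro z hz
    refine ⟨ball_subset_ball hR.le hz, ?_⟩
    rw [mem_ball_zero_iff] at hz
    have : 0 ≤ c * ‖1 - q z‖ := by positivity
    nlinarith [norm_nonneg z]
  refine hK' _ u hL (hu.mono hsub)
    (fun z hz => (huM z (hsub hz)).trans (le_max_left _ _)) ?_
  intro z hz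
  have hz' := mem_ball_zero_iff.1 hz
  have hs := one_sub_pos hz'
  obtain ⟨τ, hτ⟩ : ∃ τ, τ = 1 - ‖z‖ ^ 2 + c * ‖1 - q z‖ := ⟨_, rfl⟩
  obtain ⟨s, hsd⟩ : ∃ s, s = 1 - ‖z‖ ^ 2 := ⟨_, rfl⟩
  have hl0 : 0 ≤ c * ‖1 - q z‖ := by positivity
  have hsτ : s ≤ τ := by rw [hτ, hsd]; linarith
  rw [← hsd] at hs
  have hτ0 : 0 < τ := by linarith
  have hIG : IG2 u z ≤ K₀ * (s / τ) := by
    apply IG_le_of_BB hz' (by positivity)
    intro X
    have h1 := room_grad hu huM hsub hz' hε hτ0 X fun t => hroom z X t τ hz' hτ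
    obtain ⟨a, ha⟩ : ∃ a, a = ‖⟪z, X⟫_ℂ‖ := ⟨_, rfl⟩
    obtain ⟨b, hb⟩ : ∃ b, b = ‖X‖ := ⟨_, rfl⟩
    rw [BB_sq hz', ← hsd, ← ha, ← hb]
    rw [← ha, ← hb] at h1
    have hsq : Real.sqrt τ ^ 2 = τ := Real.sq_sqrt hτ0.le
    have h2 : ‖fderiv ℂ u z X‖ ^ 2 ≤ (M / ε * (a / τ + b / Real.sqrt τ)) ^ 2 :=
      pow_le_pow_left₀ (norm_nonneg _) h1 2
    have h3 : (a / τ + b / Real.sqrt τ) ^ 2 ≤ 2 * (a ^ 2 / τ ^ 2 + b ^ 2 / τ) := by
      have e1 : (a / τ + b / Real.sqrt τ) ^ 2 ≤ 2 * (a / τ) ^ 2 + 2 * (b / Real.sqrt τ) ^ 2 := by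
        nlinarith [sq_nonneg (a / τ - b / Real.sqrt τ)]
      rw [div_pow, div_pow, hsq] at e1
      linarith
    have h4 : a ^ 2 / τ ^ 2 + b ^ 2 / τ ≤ (s / τ) * (b ^ 2 / s + a ^ 2 / s ^ 2) := by
      have e1 : (s / τ) * (b ^ 2 / s + a ^ 2 / s ^ 2) = b ^ 2 / τ + a ^ 2 / (τ * s) := by
        field_simp
      rw [e1]
      have e2 : a ^ 2 / τ ^ 2 ≤ a ^ 2 / (τ * s) := by
        apply div_le_div_of_nonneg_left (sq_nonneg _) (by positivity)
        nlinarith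
      linarith
    calc ‖fderiv ℂ u z X‖ ^ 2 ≤ (M / ε) ^ 2 * (a / τ + b / Real.sqrt τ) ^ 2 := by
          refine h2.trans (le_of_eq ?_)
          ring
      _ ≤ (M / ε) ^ 2 * (2 * (a ^ 2 / τ ^ 2 + b ^ 2 / τ)) := by gcongr
      _ ≤ (M / ε) ^ 2 * (2 * ((s / τ) * (b ^ 2 / s + a ^ 2 / s ^ 2))) := by gcongr
      _ = _ := by rw [hK₀]; ring
  have hQ0 : (EuclideanSpace.single 0 (q z) : EuclideanSpace ℂ (Fin 1)) 0 = q z := by simp
  rw [hQ0, ← hsd]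
  have hct : c * ‖1 - q z‖ ≤ τ := by
    rw [hτ, ← hsd]; linarith
  have h5 : IG2 u z * ‖1 - q z‖ ≤ K₀ / c * s := by
    calc IG2 u z * ‖1 - q z‖ ≤ K₀ * (s / τ) * ‖1 - q z‖ := by gcongr
      _ ≤ K₀ * (s / τ) * (τ / c) := by
          gcongr
          rw [le_div_iff₀ hc]
          linarith
      _ = _ := by field_simp
  refine h5.trans ?_
  exact mul_le_mul_of_nonneg_right (le_max_right _ _) hs.le

end Pool.Agent.MPca0fc2.CP
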