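import Mathlib
import Pool.Agent.Lib.MP_ca0fc2_an.CPDom

/-! Functions which are controlled by Carleson measures through maps are dominated by potentials. -/

set_option autoImplicit false

open Metric Set MeasureTheory Filter Topology

open scoped InnerProductSpace ENNReal

namespace Pool.Agent.MPca0fc2.CP

open Pool.Agent.MPca0fc2.PT
open Pool.Agent.Lib.MP_ca0fc2_an
open Pool.Agent.MPca0fc2.MX.Q.T (Dom)

variable {E : Type*} [NormedAddCommGroup E] [InnerProductSpace ℂ E] [FiniteDimensional ℂ E]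

/-- the bound for the derivative -/
theorem grad_T {u : E → ℂ} {p T : ℝ} (hp : 0 < p) {y : E} (hy : ‖y‖ < 1)
    (h : invGrad2 u y ^ (p / 2) ≤ T) (X : E) :
    ‖fderiv ℂ u y X‖ ≤ 3 * T ^ (1 / p) * gau (1 - ‖y‖ ^ 2) y X := by
  obtain ⟨v, hv, hvn⟩ := gg'_zero_surj hy X
  have h1 := gd_IG (u := u) hy v
  rw [hv] at h1
  have h3 : 0 ≤ IG2 u y := gd_IG_nonneg hy
  have h4 : Real.sqrt (IG2 u y) ≤ T ^ (1 / p) := by
    have h5 : IG2 u y ^ (p / 2) ≤ T := h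
    calc Real.sqrt (IG2 u y) = (IG2 u y ^ (p / 2)) ^ (1 / p) := by
          rw [← Real.rpow_mul h3, Real.sqrt_eq_rpow]
          congr 1
          field_simp
      _ ≤ _ := Real.rpow_le_rpow (Real.rpow_nonneg h3 _) h5 (by positivity)
  have h6 : 0 ≤ T ^ (1 / p) := (Real.sqrt_nonneg _).trans h4
  calc _ ≤ Real.sqrt (IG2 u y) * ‖v‖ := h1
    _ ≤ T ^ (1 / p) * (3 * gau (1 - ‖y‖ ^ 2) y X) := by gcongr
    _ = _ := by ring

/-- controlled functions are dominated -/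
theorem dom_of_pull {n : ℕ} {p K : ℝ} (hp : 0 < p) {u : EuclideanSpace ℂ (Fin n) → ℂ}
    (h : PullCarleson p K u) : Dom p (640 * K ^ 14) u := by
  obtain ⟨hu, hub, k, Q, ν, hQ, hν, hg⟩ := h
  have hK1 := hQ.1
  have hK0 : 0 < K := by linarith
  have hc := CG.carl_of hν
  rw [max_eq_left hK0.le] at hc
  have hcarl := (carl_ptC hQ hc).smul (a := 2 * K) (by positivity)
  refine ⟨_, hcarl.mono (le_of_eq (by ring)), fun y hy X => ?_⟩
  rw [MX.smul_EE, ptC_e hQ hc hy]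
  have h1 := hg y (mem_ball_zero_iff.mpr hy)
  have h2 : (1 - ‖y‖ ^ 2) / (1 - ‖Q y‖ ^ 2) = 2 * K * FF K Q y := by
    have := sm_pos hQ hy
    unfold FF
    field_simp
  have hF := FF_pos hQ hy
  have hE := EE_le_E3 hc (sm_lt hQ hy)
  have hE0 := PT.EE_nonneg (ν.restrict (ball 0 1)) (Q y)
  have h3 : ((1 - ‖y‖ ^ 2) / (1 - ‖Q y‖ ^ 2)) ^ (1 / 4 : ℝ) *
      ∫ ξ in ball (0 : EuclideanSpace ℂ (Fin k)) 1, invKer (Q y) ξ ^ 2 ∂ν ≤
      2 * K * e0 K Q (ν.restrict (ball 0 1)) y := by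
    have e1 : ∫ ξ in ball (0 : EuclideanSpace ℂ (Fin k)) 1, invKer (Q y) ξ ^ 2 ∂ν =
      PT.EE (ν.restrict (ball 0 1)) (Q y) := rfl
    rw [e1, h2, Real.mul_rpow (by positivity) hF.le]
    have h4 : (2 * K) ^ (1 / 4 : ℝ) ≤ 2 * K := by
      calc (2 * K) ^ (1 / 4 : ℝ) ≤ (2 * K) ^ (1 : ℝ) :=
            Real.rpow_le_rpow_of_exponent_le (by linarith) (by norm_num)
        _ = _ := Real.rpow_one _
    unfold e0
    have h5 : 0 ≤ FF K Q y ^ (1 / 4 : ℝ) := by positivity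
    calc (2 * K) ^ (1 / 4 : ℝ) * FF K Q y ^ (1 / 4 : ℝ) *
          PT.EE (ν.restrict (ball 0 1)) (Q y) ≤
        2 * K * FF K Q y ^ (1 / 4 : ℝ) * E3 (ν.restrict (ball 0 1)) (Q y) := by gcongr
      _ = _ := by ring
  exact grad_T hp hy (h1.trans h3) X

end Pool.Agent.MPca0fc2.CP
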