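import Mathlib
import Pool.Agent.Lib.MP_ca0fc2_an.CPPull
import Pool.Agent.Lib.MP_ca0fc2_an.CPComp
import Pool.Agent.Lib.MP_ca0fc2_an.Mg.G024

/-! The localization theorem for the cells of the generators `Gen5`. -/

set_option autoImplicit false

open Metric Set MeasureTheory Filter Topology

open scoped InnerProductSpace ENNReal

namespace Pool.Agent.MPca0fc2.CP

open Pool.Agent.MPca0fc2.PT
open Pool.Agent.Lib.MP_ca0fc2_an
open Pool.Agent.MPca0fc2.MX.Q.T (Dom T_dom)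

variable {n : ℕ}

/-- compositions are controlled, uniformly -/
theorem comp_unif (K : ℝ) {p : ℝ} (hp : 1 ≤ p) : ∃ q A : ℝ, 1 ≤ q ∧
    ∀ u : EuclideanSpace ℂ (Fin n) → ℂ, CompMult K p u →
      DifferentiableOn ℂ u (ball 0 1) ∧ (∀ z ∈ ball (0 : EuclideanSpace ℂ (Fin n)) 1, ‖u z‖ ≤ A) ∧
      Dom q A u := by
  have h1 : ∀ k : ℕ, ∃ q A : ℝ, 1 ≤ q ∧ 1 ≤ A ∧ (1 ≤ k →
      ∀ (Q : EuclideanSpace ℂ (Fin n) → EuclideanSpace ℂ (Fin k))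
      (v : EuclideanSpace ℂ (Fin k) → ℂ), SmoothMap K Q →
      (DAMultiplier K v ∨ GradCarleson p K v) →
      DifferentiableOn ℂ (fun z => v (Q z)) (ball 0 1) ∧
      (∀ z ∈ ball (0 : EuclideanSpace ℂ (Fin n)) 1, ‖v (Q z)‖ ≤ A) ∧
      Dom q A (fun z => v (Q z))) := by
    intro k
    by_cases hk : 1 ≤ k
    · obtain ⟨p', K', hp', h⟩ := comp_pull (n := n) (k := k) K hp
      refine ⟨p', max (max K' 1) (640 * K' ^ 14), hp',
        (le_max_right _ _).trans (le_max_left _ _), fun _ Q v hQ hv => ?_⟩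
      have h2 := h Q v hQ hv
      refine ⟨h2.1, fun z hz => (h2.2.1 z hz).trans ((le_max_left _ _).trans (le_max_left _ _)),
        (dom_of_pull (by linarith) h2).mono (le_max_right _ _)⟩
    · exact ⟨1, 1, le_rfl, le_rfl, fun h => absurd h hk⟩
  choose q A hq hA h using h1
  obtain ⟨s, hs⟩ : ∃ s : Finset ℕ, s = Finset.range (⌊K⌋₊ + 1) := ⟨_, rfl⟩
  obtain ⟨q₀, hq₀⟩ : ∃ q₀, ∀ k ∈ s, q k ≤ q₀ := by
    obtain ⟨M, hM⟩ := (s.image q).exists_le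
    exact ⟨M, fun k hk => hM _ (Finset.mem_image_of_mem _ hk)⟩
  obtain ⟨q₁, hq₁⟩ : ∃ q₁, q₁ = max q₀ 1 := ⟨_, rfl⟩
  obtain ⟨A₀, hA₀⟩ : ∃ A₀, ∀ k ∈ s, max (A k) (A k ^ (q₁ / q k - 1) * A k) ≤ A₀ := by
    obtain ⟨M, hM⟩ := (s.image fun k => max (A k) (A k ^ (q₁ / q k - 1) * A k)).exists_le
    exact ⟨M, fun k hk => hM _ (Finset.mem_image_of_mem _ hk)⟩
  refine ⟨q₁, A₀, by rw [hq₁]; exact le_max_right _ _, fun u hu => ?_⟩
  obtain ⟨k, Q, v, hk, hkK, hQ, hv, huv⟩ := hu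
  have hks : k ∈ s := by
    rw [hs, Finset.mem_range]
    have := Nat.le_floor hkK
    omega
  obtain ⟨h1, h2, h3⟩ := h k hk Q v hQ hv
  have hqk : q k ≤ q₁ := (hq₀ k hks).trans (by rw [hq₁]; exact le_max_left _ _)
  have hAk := hA₀ k hks
  refine ⟨h1.congr huv, fun z hz => ?_, ?_⟩
  · rw [huv z hz]
    exact (h2 z hz).trans ((le_max_left _ _).trans hAk)
  · have h4 := (h3.expo (by linarith [hq k]) hqk (hA k)).mono ((le_max_right _ _).trans hAk)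
    obtain ⟨ν, h5, h6⟩ := h4
    refine ⟨ν, h5, fun y hy X => ?_⟩
    have h7 : u =ᶠ[𝓝 y] fun z => v (Q z) := by
      filter_upwards [isOpen_ball.mem_nhds (mem_ball_zero_iff.mpr hy)] with z hz
      exact huv z hz
    rw [h7.fderiv_eq]
    exact h6 y hy X

/-- the generators are dominated or slow, uniformly -/
theorem gen5_dom (K : ℝ) {p : ℝ} (hp : 1 ≤ p) : ∃ q A : ℝ, 1 ≤ q ∧
    ∀ (ω : ℝ → ℝ) (u : EuclideanSpace ℂ (Fin n) → ℂ), Gen5 K p ω u →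
      DifferentiableOn ℂ u (ball 0 1) ∧ (∀ z ∈ ball (0 : EuclideanSpace ℂ (Fin n)) 1, ‖u z‖ ≤ A) ∧
      (Dom q A u ∨ ∀ z ∈ ball (0 : EuclideanSpace ℂ (Fin n)) 1,
        (1 - ‖z‖) * ‖fderiv ℂ u z‖ ≤ ω (1 - ‖z‖)) := by
  obtain ⟨q₁, A₁, hq₁, h1⟩ := comp_unif (n := n) K hp
  obtain ⟨q, hq⟩ : ∃ q, q = max q₁ p := ⟨_, rfl⟩
  have hqq : q₁ ≤ q := by rw [hq]; exact le_max_left _ _
  have hqp : p ≤ q := by rw [hq]; exact le_max_right _ _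
  obtain ⟨B₁, hB₁⟩ : ∃ B, B = max A₁ 1 := ⟨_, rfl⟩
  obtain ⟨B₂, hB₂⟩ : ∃ B, B = max (640 * K ^ 14) 1 := ⟨_, rfl⟩
  have hB₁1 : 1 ≤ B₁ := by rw [hB₁]; exact le_max_right _ _
  have hB₂1 : 1 ≤ B₂ := by rw [hB₂]; exact le_max_right _ _
  obtain ⟨A, hA⟩ : ∃ A, A = max (max A₁ K) (max (B₁ ^ (q / q₁ - 1) * B₁)
    (B₂ ^ (q / p - 1) * B₂)) := ⟨_, rfl⟩
  have hA1 : A₁ ≤ A := by rw [hA]; exact (le_max_left _ _).trans (le_max_left _ _)
  have hAK : K ≤ A := by rw [hA]; exact (le_max_right _ _).trans (le_max_left _ _)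
  have hA2 : B₁ ^ (q / q₁ - 1) * B₁ ≤ A := by
    rw [hA]; exact (le_max_left _ _).trans (le_max_right _ _)
  have hA3 : B₂ ^ (q / p - 1) * B₂ ≤ A := by
    rw [hA]; exact (le_max_right _ _).trans (le_max_right _ _)
  refine ⟨q, A, by linarith, fun ω u hu => ?_⟩
  rcases hu with h | h | h
  · obtain ⟨ha, hb, hc⟩ := h1 u h
    refine ⟨ha, fun z hz => (hb z hz).trans hA1, Or.inl ?_⟩
    have hc' : Dom q₁ B₁ u := hc.mono (by rw [hB₁]; exact le_max_left _ _)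
    exact (hc'.expo (by linarith) hqq hB₁1).mono hA2
  · refine ⟨h.1, fun z hz => (h.2.1 z hz).trans hAK, Or.inl ?_⟩
    have hc : Dom p B₂ u := (dom_of_pull (by linarith) h).mono (by rw [hB₂]; exact le_max_left _ _)
    exact (hc.expo (by linarith) hqp hB₂1).mono hA3
  · exact ⟨h.1, fun z hz => (h.2.1 z hz).trans hAK, Or.inr h.2.2⟩

/-- The localization theorem for the cells of the generators. -/
theorem T_gen5 (hn : 2 ≤ n) (N d : ℕ) {M C₁ ρ₀ K p : ℝ} (ω : ℝ → ℝ) (hρ : 0 < ρ₀)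
    (hp : 1 ≤ p) (hω : Rate ω) :
    ∃ C, ∀ (f : Fin N → EuclideanSpace ℂ (Fin n) → ℂ)
      (u : Fin d → EuclideanSpace ℂ (Fin n) → ℂ),
      (∀ j, DifferentiableOn ℂ (f j) (ball 0 1)) →
      (∀ j, ∀ z ∈ ball (0 : EuclideanSpace ℂ (Fin n)) 1, ‖f j z‖ ≤ M) →
      (∀ i, Gen5 K p ω (u i)) →
      (∀ c : Fin d → ℂ, SolvableOn f {z | z ∈ ball 0 1 ∧ ∀ i, ‖u i z - c i‖ < ρ₀} C₁) →
      SolvableOn f (ball 0 1) C := by
  obtain ⟨m, hm⟩ : ∃ m, n = m + 1 := ⟨n - 1, by omega⟩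
  subst hm
  have hdim : Module.finrank ℂ (EuclideanSpace ℂ (Fin (m + 1))) = m + 1 :=
    finrank_euclideanSpace_fin
  obtain ⟨q, A, hq, h⟩ := gen5_dom (n := m + 1) K hp
  obtain ⟨C, hC⟩ := T_dom (E := EuclideanSpace ℂ (Fin (m + 1))) (m := m) (by omega) hdim N d
    (M := max M A) (A := A) (p := q) (ρ₀ := ρ₀) (C₁ := C₁) ω hq hρ hω.1 hω.2
  exact ⟨C, fun f u hf hfM hu hs => hC f u hf (fun j z hz => (hfM j z hz).trans (le_max_left _ _))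
    (fun i => (h ω _ (hu i)).1) (fun i z hz => ((h ω _ (hu i)).2.1 z hz).trans (le_max_right _ _))
    (fun i => (h ω _ (hu i)).2.2) hs⟩

end Pool.Agent.MPca0fc2.CP
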