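import Mathlib
import Pool.Agent.Lib.MP_ca0fc2_an.Defs

/-!
# Characters of algebras of bounded holomorphic functions and cluster values
-/

set_option autoImplicit false

open Metric Set Filter Topology

namespace Pool.Agent.Lib.MP_ca0fc2_an

/-- The algebra `H^∞(B)` of the bounded holomorphic functions on the open unit ball `B` of `ℂⁿ`.
Its elements are functions on `B`. -/
def Hinf (n : ℕ) : Subalgebra ℂ (ball (0 : EuclideanSpace ℂ (Fin n)) 1 → ℂ) where
  carrier := {f | (∃ g : EuclideanSpace ℂ (Fin n) → ℂ, DifferentiableOn ℂ g (ball 0 1) ∧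
    ∀ z, f z = g z) ∧ ∃ M : ℝ, ∀ z, ‖f z‖ ≤ M}
  mul_mem' := by
    rintro f g ⟨⟨F, hF, hF'⟩, M, hM⟩ ⟨⟨G, hG, hG'⟩, K, hK⟩
    refine ⟨⟨fun z => F z * G z, hF.mul hG, fun z => ?_⟩, M * K, fun z => ?_⟩
    · rw [Pi.mul_apply, hF', hG']
    · rw [Pi.mul_apply, norm_mul]
      exact mul_le_mul (hM z) (hK z) (norm_nonneg _) ((norm_nonneg _).trans (hM z))
  add_mem' := by
    rintro f g ⟨⟨F, hF, hF'⟩, M, hM⟩ ⟨⟨G, hG, hG'⟩, K, hK⟩
    refine ⟨⟨fun z => F z + G z, hF.add hG, fun z => ?_⟩, M + K, fun z => ?_⟩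
    · rw [Pi.add_apply, hF', hG']
    · rw [Pi.add_apply]
      exact (norm_add_le _ _).trans (add_le_add (hM z) (hK z))
  algebraMap_mem' := fun c =>
    ⟨⟨fun _ => c, differentiableOn_const c, fun _ => rfl⟩, ‖c‖, fun _ => le_rfl⟩

end Pool.Agent.Lib.MP_ca0fc2_an

namespace Pool.Agent.MPca0fc2.CV

open Pool.Agent.Lib.MP_ca0fc2_an

/-- Characters and cluster values: if the Bezout equation is solvable for the data `a - m a`
whenever these are corona data, then the values `m a` are cluster values. -/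
theorem cluster_gen {X : Type*} (R : Subalgebra ℂ (X → ℂ)) (m : R →ₐ[ℂ] ℂ) (S : Set R)
    (H : ∀ s : Finset R, (∀ a ∈ s, a ∈ S) → ∀ δ : ℝ, 0 < δ →
      (∀ x, δ ≤ ∑ a ∈ s, ‖a.1 x - m a‖ ^ 2) →
      ∃ h : R → R, ∑ a ∈ s, (a - algebraMap ℂ R (m a)) * h a = 1) :
    ∃ U : Ultrafilter X, ∀ a ∈ S, Tendsto a.1 U (𝓝 (m a)) := by
  classical
  obtain ⟨Φ, hΦ⟩ : ∃ Φ : X → S → ℂ, Φ = fun x a => a.1.1 x := ⟨_, rfl⟩
  obtain ⟨p, hp⟩ : ∃ p : S → ℂ, p = fun a => m a.1 := ⟨_, rfl⟩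
  have hcl : p ∈ closure (range Φ) := by
    rw [mem_closure_iff_nhds_basis (by
      rw [nhds_pi]
      exact hasBasis_pi fun a => Metric.nhds_basis_ball)]
    rintro ⟨I, r⟩ ⟨hI, hr⟩
    by_contra hcon
    push Not at hcon
    simp only at hI hr hcon
    -- the least radius
    obtain ⟨δ, hδ, hδr⟩ : ∃ δ : ℝ, 0 < δ ∧ ∀ i ∈ I, δ ≤ r i := by
      rcases I.eq_empty_or_nonempty with h0 | h0
      · exact ⟨1, one_pos, fun i hi => by rw [h0] at hi; exact absurd hi (notMem_empty _)⟩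
      · obtain ⟨j, hj, hmin⟩ := hI.exists_minimalFor r I h0
        refine ⟨r j, hr j hj, fun i hi => ?_⟩
        by_contra hlt
        push Not at hlt
        exact absurd (hmin hi hlt.le) (not_le.mpr hlt)
    obtain ⟨s, hs⟩ : ∃ s : Finset R, s = hI.toFinset.image Subtype.val := ⟨_, rfl⟩
    have hsS : ∀ a ∈ s, a ∈ S := by
      intro a ha
      rw [hs, Finset.mem_image] at ha
      obtain ⟨b, -, rfl⟩ := ha
      exact b.2
    obtain ⟨h, hh⟩ := H s hsS (δ ^ 2) (by positivity) (by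
      intro x
      have h1 := hcon (Φ x) (mem_range_self x)
      rw [Set.mem_pi] at h1
      push Not at h1
      obtain ⟨i, hi, h2⟩ := h1
      have h3 : δ ≤ ‖i.1.1 x - m i.1‖ := by
        have : ¬ (Φ x i ∈ ball (p i) (r i)) := h2
        rw [mem_ball, dist_eq_norm, not_lt, hΦ, hp] at this
        exact (hδr i hi).trans this
      have h4 : i.1 ∈ s := by
        rw [hs, Finset.mem_image]
        exact ⟨i, hI.mem_toFinset.mpr hi, rfl⟩
      calc δ ^ 2 ≤ ‖i.1.1 x - m i.1‖ ^ 2 := by gcongr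
        _ ≤ _ := Finset.single_le_sum (f := fun a : R => ‖a.1 x - m a‖ ^ 2)
          (fun _ _ => by positivity) h4)
    have h5 := congrArg m hh
    rw [map_sum, map_one] at h5
    have h6 : ∀ a ∈ s, m ((a - algebraMap ℂ R (m a)) * h a) = 0 := by
      intro a _
      rw [map_mul, map_sub, AlgHom.commutes, Algebra.algebraMap_self, RingHom.id_apply, sub_self,
        zero_mul]
    rw [Finset.sum_eq_zero h6] at h5
    exact zero_ne_one h5
  have hne : (comap Φ (𝓝 p)).NeBot := by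
    rw [comap_neBot_iff_frequently]
    exact mem_closure_iff_frequently.mp hcl
  refine ⟨Ultrafilter.of (comap Φ (𝓝 p)), fun a ha => ?_⟩
  have h1 : Tendsto Φ (Ultrafilter.of (comap Φ (𝓝 p))) (𝓝 p) :=
    tendsto_comap.mono_left (Ultrafilter.of_le _)
  have h2 := (tendsto_pi_nhds.mp h1) ⟨a, ha⟩
  have h3 : (fun x => Φ x ⟨a, ha⟩) = a.1 := by rw [hΦ]
  have h4 : p ⟨a, ha⟩ = m a := by rw [hp]
  rw [h3, h4] at h2
  exact h2

end Pool.Agent.MPca0fc2.CV
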