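import Mathlib
import Pool.Agent.Lib.MP_ca0fc2_an.CVBase

/-!
# The Bezout equation in the algebra of bounded holomorphic functions
-/

set_option autoImplicit false

open Metric Set Filter Topology

namespace Pool.Agent.MPca0fc2.CV

open Pool.Agent.Lib.MP_ca0fc2_an

variable {n : ℕ}

/-- an extension of an element of `Hinf n` to the whole space -/
noncomputable def ext (f : Hinf n) : EuclideanSpace ℂ (Fin n) → ℂ := f.2.1.choose

theorem ext_hol (f : Hinf n) : DifferentiableOn ℂ (ext f) (ball 0 1) := f.2.1.choose_spec.1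

theorem ext_eq (f : Hinf n) (z : ball (0 : EuclideanSpace ℂ (Fin n)) 1) : ext f z = f.1 z :=
  (f.2.1.choose_spec.2 z).symm

theorem ext_bdd (f : Hinf n) : ∃ M : ℝ, ∀ z ∈ ball (0 : EuclideanSpace ℂ (Fin n)) 1,
    ‖ext f z‖ ≤ M := by
  obtain ⟨M, hM⟩ := f.2.2
  exact ⟨M, fun z hz => by rw [ext_eq f ⟨z, hz⟩]; exact hM _⟩

/-- an element of `Hinf n` made from a function on the whole space -/
def mk (g : EuclideanSpace ℂ (Fin n) → ℂ) (hg : DifferentiableOn ℂ g (ball 0 1)) (M : ℝ)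
    (hM : ∀ z ∈ ball (0 : EuclideanSpace ℂ (Fin n)) 1, ‖g z‖ ≤ M) : Hinf n :=
  ⟨fun z => g z, ⟨⟨g, hg, fun _ => rfl⟩, M, fun z => hM z z.2⟩⟩

/-- The Bezout equation for elements of `Hinf n`, from solvability on the ball. -/
theorem solve_finset (s : Finset (Hinf n)) (b : Hinf n → ℂ)
    (h : ∃ C : ℝ, SolvableOn (fun (j : Fin s.card) z =>
      ext (s.equivFin.symm j).1 z - b (s.equivFin.symm j).1) (ball 0 1) C) :
    ∃ h : Hinf n → Hinf n, ∑ a ∈ s, (a - algebraMap ℂ (Hinf n) (b a)) * h a = 1 := by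
  classical
  obtain ⟨C, h, h1, h2, h3⟩ := h
  obtain ⟨k, hk⟩ : ∃ k : Hinf n → Hinf n, k = fun a =>
    if ha : a ∈ s then mk (h (s.equivFin ⟨a, ha⟩)) (h1 _) C (h2 _) else 0 := ⟨_, rfl⟩
  refine ⟨k, ?_⟩
  rw [← Finset.sum_attach]
  apply Subtype.ext
  funext z
  have h4 := h3 z z.2
  rw [← Equiv.sum_comp s.equivFin] at h4
  simp only [Equiv.symm_apply_apply] at h4
  rw [AddSubmonoidClass.coe_finsetSum, Finset.sum_apply, OneMemClass.coe_one, Pi.one_apply, ← h4]
  refine Finset.sum_congr rfl fun a _ => ?_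
  have h5 : k a.1 = mk (h (s.equivFin a)) (h1 _) C (h2 _) := by
    rw [hk]
    exact dif_pos a.2
  rw [h5, MulMemClass.coe_mul, Pi.mul_apply, AddSubgroupClass.coe_sub, Pi.sub_apply, ext_eq]
  rfl

end Pool.Agent.MPca0fc2.CV
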