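import Mathlib
import Pool.Agent.Lib.MP_ca0fc2_an.Mg.G024
import Pool.Agent.Lib.MP_ca0fc2_an.SLCor

/-!
# Data in a closed algebra

The closed subalgebra of `H^∞` of the unit ball of `ℂⁿ` generated by the multipliers of the
Drury-Arveson space and by the bounded functions whose invariant gradients satisfy a Carleson
condition; the corona theorem for polynomials in one arbitrary bounded holomorphic function with
coefficients in this algebra.
-/

set_option autoImplicit false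

open Metric Set MeasureTheory

namespace Pool.Agent.Lib.MP_ca0fc2_an

/-- The closed subalgebra of `H^∞` of the unit ball of `ℂⁿ` (uniform limits on the ball) generated by
all multipliers of the Drury-Arveson space and all functions with `GradCarleson p A` for some `p` and
`A`. -/
def MultAlg (n : ℕ) : Set (EuclideanSpace ℂ (Fin n) → ℂ) :=
  {g | DifferentiableOn ℂ g (ball 0 1) ∧ ∀ ε : ℝ, 0 < ε →
    ∃ q ∈ Algebra.adjoin ℂ {u : EuclideanSpace ℂ (Fin n) → ℂ | (∃ K : ℝ, DAMultiplier K u) ∨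
      ∃ p A : ℝ, 1 ≤ p ∧ GradCarleson p A u},
    ∀ z ∈ ball (0 : EuclideanSpace ℂ (Fin n)) 1, ‖g z - q z‖ ≤ ε}

end Pool.Agent.Lib.MP_ca0fc2_an

namespace Pool.Agent.MPca0fc2.DA

open Pool.Agent.Lib.MP_ca0fc2_an
open Pool.Agent.MPca0fc2.PT

variable {n : ℕ}

/-- the generators of `MultAlg` -/
def Gens (n : ℕ) : Set (EuclideanSpace ℂ (Fin n) → ℂ) :=
  {u | (∃ K : ℝ, DAMultiplier K u) ∨ ∃ p A : ℝ, 1 ≤ p ∧ GradCarleson p A u}

theorem DAMultiplier_neg {K : ℝ} {u : EuclideanSpace ℂ (Fin n) → ℂ} (h : DAMultiplier K u) :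
    DAMultiplier |K| u := by
  refine ⟨h.1, ?_⟩
  rw [sq_abs]
  exact h.2

theorem gens_bounded {u : EuclideanSpace ℂ (Fin n) → ℂ} (hu : u ∈ Gens n) :
    ∃ A : ℝ, 0 ≤ A ∧ ∀ z ∈ ball (0 : EuclideanSpace ℂ (Fin n)) 1, ‖u z‖ ≤ A := by
  rcases hu with ⟨K, hK⟩ | ⟨p, A, -, h⟩
  · exact ⟨|K|, abs_nonneg K, fun z hz => DAMultiplier_bound (abs_nonneg K) (DAMultiplier_neg hK) hz⟩
  · exact ⟨A, (norm_nonneg _).trans (h.2.1 0 (mem_ball_self one_pos)), h.2.1⟩

/-- clamping of real numbers -/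
noncomputable def clampR (A t : ℝ) : ℝ := max (-A) (min A t)

theorem clampR_eq {A t : ℝ} (h : |t| ≤ A) : clampR A t = t := by
  rw [abs_le] at h
  rw [clampR, min_eq_right h.2, max_eq_right h.1]

theorem clampR_le {A : ℝ} (hA : 0 ≤ A) (t : ℝ) : |clampR A t| ≤ A := by
  rw [abs_le, clampR]
  exact ⟨le_max_left _ _, max_le (by linarith) (min_le_left _ _)⟩

theorem clampR_lip (A s t : ℝ) : |clampR A s - clampR A t| ≤ |s - t| := by
  unfold clampR
  rw [max_comm (-A), max_comm (-A), min_comm A, min_comm A]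
  refine (abs_max_sub_max_le_abs _ _ _).trans ?_
  have := abs_min_sub_min_le_max s A t A
  rwa [sub_self, abs_zero, max_eq_left (abs_nonneg _)] at this

/-- clamping of complex numbers -/
noncomputable def clampC (A : ℝ) (w : ℂ) : ℂ := ⟨clampR A w.re, clampR A w.im⟩

theorem clampC_eq {A : ℝ} {w : ℂ} (h : ‖w‖ ≤ A) : clampC A w = w := by
  rw [clampC, clampR_eq ((Complex.abs_re_le_norm w).trans h),
    clampR_eq ((Complex.abs_im_le_norm w).trans h)]

theorem clampC_le {A : ℝ} (hA : 0 ≤ A) (w : ℂ) : ‖clampC A w‖ ≤ 2 * A := by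
  refine (Complex.norm_le_abs_re_add_abs_im _).trans ?_
  have h1 := clampR_le hA w.re
  have h2 := clampR_le hA w.im
  rw [clampC]
  simp only
  linarith

theorem clampC_lip (A : ℝ) (v w : ℂ) : ‖clampC A v - clampC A w‖ ≤ 2 * ‖v - w‖ := by
  refine (Complex.norm_le_abs_re_add_abs_im _).trans ?_
  have h1 := (clampR_lip A v.re w.re).trans (Complex.abs_re_le_norm (v - w))
  have h2 := (clampR_lip A v.im w.im).trans (Complex.abs_im_le_norm (v - w))
  rw [clampC, clampC, Complex.sub_re, Complex.sub_im]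
  simp only
  linarith

/-- `g` is a bounded Lipschitz function of the elements of the finite set `s` -/
def Rep (s : Finset (EuclideanSpace ℂ (Fin n) → ℂ)) (g : EuclideanSpace ℂ (Fin n) → ℂ) : Prop :=
  ∃ (ψ : (s → ℂ) → ℂ) (L : ℝ), 0 ≤ L ∧ (∀ x y, ‖ψ x - ψ y‖ ≤ L * ‖x - y‖) ∧ (∀ x, ‖ψ x‖ ≤ L) ∧
    ∀ z ∈ ball (0 : EuclideanSpace ℂ (Fin n)) 1, g z = ψ fun t => t.1 z

theorem Rep.mono {s t : Finset (EuclideanSpace ℂ (Fin n) → ℂ)} {g : EuclideanSpace ℂ (Fin n) → ℂ}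
    (h : Rep s g) (hst : s ⊆ t) : Rep t g := by
  obtain ⟨ψ, L, hL, h1, h2, h3⟩ := h
  refine ⟨fun x => ψ fun u => x ⟨u.1, hst u.2⟩, L, hL, fun x y => (h1 _ _).trans ?_,
    fun x => h2 _, h3⟩
  apply mul_le_mul_of_nonneg_left _ hL
  rw [pi_norm_le_iff_of_nonneg (norm_nonneg _)]
  intro u
  exact norm_le_pi_norm (x - y) ⟨u.1, hst u.2⟩

theorem Rep.add {s : Finset (EuclideanSpace ℂ (Fin n) → ℂ)} {g h : EuclideanSpace ℂ (Fin n) → ℂ}
    (hg : Rep s g) (hh : Rep s h) : Rep s (g + h) := by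
  obtain ⟨ψ, L, hL, h1, h2, h3⟩ := hg
  obtain ⟨ψ', L', hL', h1', h2', h3'⟩ := hh
  refine ⟨fun x => ψ x + ψ' x, L + L', add_nonneg hL hL', fun x y => ?_, fun x => ?_,
    fun z hz => ?_⟩
  · rw [add_sub_add_comm, add_mul]
    exact (norm_add_le _ _).trans (add_le_add (h1 x y) (h1' x y))
  · exact (norm_add_le _ _).trans (add_le_add (h2 x) (h2' x))
  · rw [Pi.add_apply, h3 z hz, h3' z hz]

theorem Rep.mul {s : Finset (EuclideanSpace ℂ (Fin n) → ℂ)} {g h : EuclideanSpace ℂ (Fin n) → ℂ}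
    (hg : Rep s g) (hh : Rep s h) : Rep s (g * h) := by
  obtain ⟨ψ, L, hL, h1, h2, h3⟩ := hg
  obtain ⟨ψ', L', hL', h1', h2', h3'⟩ := hh
  have hLL : 0 ≤ L * L' := mul_nonneg hL hL'
  refine ⟨fun x => ψ x * ψ' x, 2 * (L * L'), by linarith, fun x y => ?_, fun x => ?_,
    fun z hz => ?_⟩
  · have e : ψ x * ψ' x - ψ y * ψ' y = ψ x * (ψ' x - ψ' y) + (ψ x - ψ y) * ψ' y := by ring
    rw [e]
    refine (norm_add_le _ _).trans ?_
    rw [norm_mul, norm_mul]
    have e1 : ‖ψ x‖ * ‖ψ' x - ψ' y‖ ≤ L * (L' * ‖x - y‖) :=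
      mul_le_mul (h2 x) (h1' x y) (norm_nonneg _) hL
    have e2 : ‖ψ x - ψ y‖ * ‖ψ' y‖ ≤ (L * ‖x - y‖) * L' :=
      mul_le_mul (h1 x y) (h2' y) (norm_nonneg _) (mul_nonneg hL (norm_nonneg _))
    linarith
  · rw [norm_mul]
    have e1 : ‖ψ x‖ * ‖ψ' x‖ ≤ L * L' := mul_le_mul (h2 x) (h2' x) (norm_nonneg _) hL
    linarith
  · rw [Pi.mul_apply, h3 z hz, h3' z hz]

theorem Rep.const (s : Finset (EuclideanSpace ℂ (Fin n) → ℂ)) (c : ℂ) :
    Rep s (fun _ => c) :=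
  ⟨fun _ => c, ‖c‖, norm_nonneg c, fun x y => by
    rw [sub_self, norm_zero]
    positivity, fun _ => le_rfl, fun _ _ => rfl⟩

theorem Rep.gen {s : Finset (EuclideanSpace ℂ (Fin n) → ℂ)} {u : EuclideanSpace ℂ (Fin n) → ℂ}
    (hu : u ∈ s) {A : ℝ} (hA : 0 ≤ A) (h : ∀ z ∈ ball (0 : EuclideanSpace ℂ (Fin n)) 1, ‖u z‖ ≤ A) :
    Rep s u := by
  refine ⟨fun x => clampC A (x ⟨u, hu⟩), 2 * A + 2, by linarith, fun x y => ?_, fun x => ?_,
    fun z hz => ?_⟩
  · have h1 := clampC_lip A (x ⟨u, hu⟩) (y ⟨u, hu⟩)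
    have h2 : ‖x ⟨u, hu⟩ - y ⟨u, hu⟩‖ ≤ ‖x - y‖ := norm_le_pi_norm (x - y) ⟨u, hu⟩
    have h3 : 2 * ‖x - y‖ ≤ (2 * A + 2) * ‖x - y‖ :=
      mul_le_mul_of_nonneg_right (by linarith) (norm_nonneg _)
    linarith
  · have := clampC_le hA (x ⟨u, hu⟩)
    simp only
    linarith
  · simp only
    rw [clampC_eq (h z hz)]

open Classical in
theorem adjoin_rep {q : EuclideanSpace ℂ (Fin n) → ℂ} (hq : q ∈ Algebra.adjoin ℂ (Gens n)) :
    ∃ s : Finset (EuclideanSpace ℂ (Fin n) → ℂ), (∀ u ∈ s, u ∈ Gens n) ∧ Rep s q := by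
  induction hq using Algebra.adjoin_induction with
  | mem u hu =>
    obtain ⟨A, hA, h⟩ := gens_bounded hu
    exact ⟨{u}, fun v hv => by rwa [Finset.mem_singleton.mp hv], Rep.gen (by simp) hA h⟩
  | algebraMap c => exact ⟨∅, by simp, Rep.const ∅ c⟩
  | add f g _ _ hf hg =>
    obtain ⟨s, hs, h1⟩ := hf
    obtain ⟨t, ht, h2⟩ := hg
    refine ⟨s ∪ t, fun u hu => ?_, (h1.mono Finset.subset_union_left).add
      (h2.mono Finset.subset_union_right)⟩
    rcases Finset.mem_union.mp hu with h | h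
    · exact hs u h
    · exact ht u h
  | mul f g _ _ hf hg =>
    obtain ⟨s, hs, h1⟩ := hf
    obtain ⟨t, ht, h2⟩ := hg
    refine ⟨s ∪ t, fun u hu => ?_, (h1.mono Finset.subset_union_left).mul
      (h2.mono Finset.subset_union_right)⟩
    rcases Finset.mem_union.mp hu with h | h
    · exact hs u h
    · exact ht u h

/-- `GradCarleson` is monotone in the exponent -/
theorem GradCarleson_mono' {p q A : ℝ} (hp : 1 ≤ p) (hpq : p ≤ q)
    {u : EuclideanSpace ℂ (Fin n) → ℂ} (h : GradCarleson p A u) :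
    ∃ B : ℝ, ∀ B' ≥ B, GradCarleson q B' u := by
  obtain ⟨h1, h2, h3⟩ := h
  have hA : 0 ≤ A := (norm_nonneg _).trans (h2 0 (mem_ball_self one_pos))
  refine ⟨max A (A ^ (q - p) * A), fun B' hB' => ⟨h1, fun z hz => (h2 z hz).trans
    ((le_max_left _ _).trans hB'), fun w hw => ?_⟩⟩
  have hAq : 0 ≤ A ^ (q - p) := Real.rpow_nonneg hA _
  calc ∫⁻ z in ball (0 : EuclideanSpace ℂ (Fin n)) 1,
        ENNReal.ofReal (invKer w z * invGrad2 u z ^ (q / 2) / (1 - ‖z‖ ^ 2) ^ (n + 1))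
      ≤ ∫⁻ z in ball (0 : EuclideanSpace ℂ (Fin n)) 1, ENNReal.ofReal (A ^ (q - p)) *
        ENNReal.ofReal (invKer w z * invGrad2 u z ^ (p / 2) / (1 - ‖z‖ ^ 2) ^ (n + 1)) := by
        apply setLIntegral_mono' measurableSet_ball
        intro z hz
        have hz' := mem_ball_zero_iff.mp hz
        have hw' := mem_ball_zero_iff.mp hw
        rw [← ENNReal.ofReal_mul hAq]
        apply ENNReal.ofReal_le_ofReal
        have hpos : 0 < 1 - ‖z‖ ^ 2 := by nlinarith [norm_nonneg z]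
        have hposw : 0 < 1 - ‖w‖ ^ 2 := by nlinarith [norm_nonneg w]
        have h0 : 0 ≤ invGrad2 u z := by
          rw [CG.invGrad2_eq]; exact gd_IG_nonneg hz'
        have hk : 0 ≤ invKer w z := by
          unfold invKer
          positivity
        have h5 : Real.sqrt (invGrad2 u z) ≤ A := by
          rw [CG.invGrad2_eq]
          exact sIG_bound h1 h2 hz'
        have h6 : invGrad2 u z ^ (q / 2) ≤ A ^ (q - p) * invGrad2 u z ^ (p / 2) := by
          rcases h0.eq_or_lt with h7 | h7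
          · rw [← h7, Real.zero_rpow (by linarith : q / 2 ≠ 0),
              Real.zero_rpow (by linarith : p / 2 ≠ 0), mul_zero]
          · have h8 : invGrad2 u z ^ (q / 2) =
                Real.sqrt (invGrad2 u z) ^ (q - p) * invGrad2 u z ^ (p / 2) := by
              rw [Real.sqrt_eq_rpow, ← Real.rpow_mul h0, ← Real.rpow_add h7]
              congr 1
              ring
            rw [h8]
            exact mul_le_mul_of_nonneg_right
              (Real.rpow_le_rpow (Real.sqrt_nonneg _) h5 (by linarith)) (Real.rpow_nonneg h0 _)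
        calc invKer w z * invGrad2 u z ^ (q / 2) / (1 - ‖z‖ ^ 2) ^ (n + 1)
            ≤ invKer w z * (A ^ (q - p) * invGrad2 u z ^ (p / 2)) / (1 - ‖z‖ ^ 2) ^ (n + 1) := by
              gcongr
          _ = _ := by ring
    _ = ENNReal.ofReal (A ^ (q - p)) * ∫⁻ z in ball (0 : EuclideanSpace ℂ (Fin n)) 1,
        ENNReal.ofReal (invKer w z * invGrad2 u z ^ (p / 2) / (1 - ‖z‖ ^ 2) ^ (n + 1)) :=
        lintegral_const_mul' _ _ ENNReal.ofReal_ne_top
    _ ≤ ENNReal.ofReal (A ^ (q - p)) * ENNReal.ofReal A := by gcongr; exact h3 w hw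
    _ = ENNReal.ofReal (A ^ (q - p) * A) := (ENNReal.ofReal_mul hAq).symm
    _ ≤ ENNReal.ofReal B' := ENNReal.ofReal_le_ofReal ((le_max_right _ _).trans hB')

theorem GradCarleson_zero {p A : ℝ} (hp : 1 ≤ p) (hA : 0 ≤ A)
    {u : EuclideanSpace ℂ (Fin n) → ℂ} (h : DifferentiableOn ℂ u (ball 0 1))
    (hu : ∀ z ∈ ball (0 : EuclideanSpace ℂ (Fin n)) 1, u z = 0) : GradCarleson p A u := by
  refine ⟨h, fun z hz => by rw [hu z hz, norm_zero]; exact hA, fun w _ => ?_⟩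
  have h1 : ∀ z ∈ ball (0 : EuclideanSpace ℂ (Fin n)) 1, ENNReal.ofReal
      (invKer w z * invGrad2 u z ^ (p / 2) / (1 - ‖z‖ ^ 2) ^ (n + 1)) = 0 := by
    intro z hz
    have h2 : fderiv ℂ u z = 0 := by
      have h3 : u =ᶠ[nhds z] fun _ => 0 := by
        filter_upwards [isOpen_ball.mem_nhds hz] with y hy
        exact hu y hy
      rw [h3.fderiv_eq, fderiv_fun_const]
      rfl
    have h3 : invGrad2 u z = 0 := by
      rw [invGrad2, h2]
      simp
    rw [h3, Real.zero_rpow (by linarith : p / 2 ≠ 0), mul_zero, zero_div, ENNReal.ofReal_zero]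
  rw [setLIntegral_congr_fun measurableSet_ball h1]
  simp

/-- a multiple of a generator satisfies the conditions with all large parameters -/
theorem gens_scaled {u : EuclideanSpace ℂ (Fin n) → ℂ} (hu : u ∈ Gens n) :
    ∃ p₀ : ℝ, ∀ p : ℝ, 1 ≤ p → p₀ ≤ p → ∃ K₀ : ℝ, ∀ K : ℝ, K₀ ≤ K → ∃ c : ℝ, 1 ≤ c ∧
      (DAMultiplier K (fun z => (c : ℂ) * u z) ∨ GradCarleson p K (fun z => (c : ℂ) * u z)) := by
  rcases hu with ⟨K₁, hK₁⟩ | ⟨p₁, A, hp₁, h⟩
  · refine ⟨1, fun p hp _ => ⟨|K₁|, fun K hK => ?_⟩⟩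
    have h1 := DAMultiplier_neg hK₁
    rcases (abs_nonneg K₁).eq_or_lt with h0 | h0
    · refine ⟨1, le_rfl, Or.inr ?_⟩
      have hu0 : ∀ z ∈ ball (0 : EuclideanSpace ℂ (Fin n)) 1, u z = 0 := by
        intro z hz
        have := DAMultiplier_bound (abs_nonneg K₁) h1 hz
        rw [← h0] at this
        exact norm_le_zero_iff.mp this
      simp only [Complex.ofReal_one, one_mul]
      exact GradCarleson_zero hp (by linarith) h1.1 hu0
    · refine ⟨K / |K₁|, by rwa [one_le_div h0], Or.inl ?_⟩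
      have h2 := DAMultiplier_smul (c := K / |K₁|) (div_nonneg (by linarith) h0.le) h1
      rwa [div_mul_cancel₀ _ h0.ne'] at h2
  · refine ⟨p₁, fun p _ hp => ?_⟩
    obtain ⟨B, hB⟩ := GradCarleson_mono' hp₁ hp h
    refine ⟨B, fun K hK => ⟨1, le_rfl, Or.inr ?_⟩⟩
    simp only [Complex.ofReal_one, one_mul]
    exact hB K hK

open Classical in
theorem alg_closed_one (hDC : DiscCorona) (hn : 2 ≤ n) (N d : ℕ) (δ : ℝ) (hδ : 0 < δ)
    (F : EuclideanSpace ℂ (Fin n) → ℂ) (hF : DifferentiableOn ℂ F (ball 0 1))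
    (hF1 : ∀ z ∈ ball (0 : EuclideanSpace ℂ (Fin n)) 1, ‖F z‖ ≤ 1)
    (a : Fin N → Fin d → EuclideanSpace ℂ (Fin n) → ℂ) (ha : ∀ j i, a j i ∈ MultAlg n)
    (h : ∀ z ∈ ball (0 : EuclideanSpace ℂ (Fin n)) 1,
      δ ≤ ∑ j, ‖∑ i, a j i z * F z ^ (i : ℕ)‖ ^ 2) :
    ∃ C : ℝ, SolvableOn (fun j z => ∑ i, a j i z * F z ^ (i : ℕ)) (ball 0 1) C := by
  -- bounds for the coefficients
  have hbd : ∀ j i, ∃ A : ℝ, 0 ≤ A ∧ ∀ z ∈ ball (0 : EuclideanSpace ℂ (Fin n)) 1,
      ‖a j i z‖ ≤ A := by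
    intro j i
    obtain ⟨q, hq, hq2⟩ := (ha j i).2 1 one_pos
    obtain ⟨s, -, ψ, L, hL, -, hψ, hqz⟩ := adjoin_rep hq
    refine ⟨L + 1, by linarith, fun z hz => ?_⟩
    have h1 : a j i z = (a j i z - q z) + q z := by ring
    rw [h1]
    refine (norm_add_le _ _).trans ?_
    have h2 := hq2 z hz
    have h3 : ‖q z‖ ≤ L := by rw [hqz z hz]; exact hψ _
    linarith
  choose A hA0 hA using hbd
  obtain ⟨M, hM⟩ : ∃ M : ℝ, M = (∑ j, ∑ i, A j i) + 1 := ⟨_, rfl⟩
  have hrow : ∀ j, ∑ i, A j i ≤ M := by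
    intro j
    have := Finset.single_le_sum (f := fun j => ∑ i, A j i)
      (fun j _ => Finset.sum_nonneg fun i _ => hA0 j i) (Finset.mem_univ j)
    linarith
  have hent : ∀ j i, A j i + 1 ≤ M := by
    intro j i
    have h1 := Finset.single_le_sum (f := fun j => ∑ i, A j i)
      (fun j _ => Finset.sum_nonneg fun i _ => hA0 j i) (Finset.mem_univ j)
    have h2 := Finset.single_le_sum (f := fun i => A j i) (fun i _ => hA0 j i) (Finset.mem_univ i)
    linarith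
  obtain ⟨η, hη, H⟩ := alg_space hDC n hn N d M δ hδ
  obtain ⟨ε, hε⟩ : ∃ ε : ℝ, ε = min 1 (η / (d + 1)) := ⟨_, rfl⟩
  have hd0 : (0 : ℝ) ≤ d := Nat.cast_nonneg d
  have hε0 : 0 < ε := by rw [hε]; positivity
  have hε1 : ε ≤ 1 := by rw [hε]; exact min_le_left _ _
  have hεη : ε ≤ η / (d + 1) := by rw [hε]; exact min_le_right _ _
  have hq : ∀ j i, ∃ q ∈ Algebra.adjoin ℂ (Gens n),
      ∀ z ∈ ball (0 : EuclideanSpace ℂ (Fin n)) 1, ‖a j i z - q z‖ ≤ ε :=
    fun j i => (ha j i).2 ε hε0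
  choose q hq hqa using hq
  have hs : ∀ j i, ∃ s : Finset (EuclideanSpace ℂ (Fin n) → ℂ), (∀ u ∈ s, u ∈ Gens n) ∧
      Rep s (q j i) := fun j i => adjoin_rep (hq j i)
  choose s hs hrep using hs
  obtain ⟨t, ht⟩ : ∃ t : Finset (EuclideanSpace ℂ (Fin n) → ℂ),
      t = Finset.univ.biUnion fun j => Finset.univ.biUnion fun i => s j i := ⟨_, rfl⟩
  have hst : ∀ j i, s j i ⊆ t := by
    intro j i u hu
    rw [ht, Finset.mem_biUnion]
    exact ⟨j, Finset.mem_univ j, Finset.mem_biUnion.mpr ⟨i, Finset.mem_univ i, hu⟩⟩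
  have htG : ∀ u ∈ t, u ∈ Gens n := by
    intro u hu
    rw [ht, Finset.mem_biUnion] at hu
    obtain ⟨j, -, hu⟩ := hu
    obtain ⟨i, -, hu⟩ := Finset.mem_biUnion.mp hu
    exact hs j i u hu
  have hrept : ∀ j i, Rep t (q j i) := fun j i => (hrep j i).mono (hst j i)
  choose ψ L hL0 hL1 hL2 hL3 using hrept
  -- common parameters
  have hp : ∀ u : t, ∃ p₀ : ℝ, ∀ p : ℝ, 1 ≤ p → p₀ ≤ p → ∃ K₀ : ℝ, ∀ K : ℝ, K₀ ≤ K →
      ∃ c : ℝ, 1 ≤ c ∧ (DAMultiplier K (fun z => (c : ℂ) * u.1 z) ∨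
        GradCarleson p K (fun z => (c : ℂ) * u.1 z)) := fun u => gens_scaled (htG u.1 u.2)
  choose p₀ hp₀ using hp
  obtain ⟨p, hp1, hpp⟩ : ∃ p : ℝ, 1 ≤ p ∧ ∀ u, p₀ u ≤ p := by
    obtain ⟨p, hp⟩ := (Finset.univ.image p₀).exists_le
    exact ⟨max 1 p, le_max_left _ _, fun u => (hp _ (Finset.mem_image_of_mem _
      (Finset.mem_univ u))).trans (le_max_right _ _)⟩
  have hK : ∀ u : t, ∃ K₀ : ℝ, ∀ K : ℝ, K₀ ≤ K →
      ∃ c : ℝ, 1 ≤ c ∧ (DAMultiplier K (fun z => (c : ℂ) * u.1 z) ∨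
        GradCarleson p K (fun z => (c : ℂ) * u.1 z)) := fun u => hp₀ u p hp1 (hpp u)
  choose K₀ hK₀ using hK
  obtain ⟨K, hK1, hKu, hKL⟩ : ∃ K : ℝ, 1 ≤ K ∧ (∀ u, K₀ u ≤ K) ∧ ∀ j i, L j i ≤ K := by
    obtain ⟨K, hK⟩ := (Finset.univ.image K₀).exists_le
    obtain ⟨K', hK'⟩ := (Finset.univ.image fun x : Fin N × Fin d => L x.1 x.2).exists_le
    exact ⟨max 1 (max K K'), le_max_left _ _, fun u => (hK _ (Finset.mem_image_of_mem _
      (Finset.mem_univ u))).trans ((le_max_left _ _).trans (le_max_right _ _)),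
      fun j i => (hK' _ (Finset.mem_image_of_mem (fun x : Fin N × Fin d => L x.1 x.2)
        (Finset.mem_univ (j, i)))).trans ((le_max_right _ _).trans (le_max_right _ _))⟩
  have hc : ∀ u : t, ∃ c : ℝ, 1 ≤ c ∧ (DAMultiplier K (fun z => (c : ℂ) * u.1 z) ∨
      GradCarleson p K (fun z => (c : ℂ) * u.1 z)) := fun u => hK₀ u K (hKu u)
  choose c hc1 hc using hc
  obtain ⟨e⟩ : Nonempty (t ≃ Fin t.card) := ⟨t.equivFin⟩
  obtain ⟨C', hC'⟩ := H (fun _ => t.card) (fun _ => 1) (fun _ => K) (fun _ => p)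
    (fun _ => one_pos) (fun _ => hK1) (fun _ => hp1)
  refine ⟨C', hC' _ ?_ ?_ h ?_⟩
  · intro j
    apply DifferentiableOn.fun_sum
    intro i _
    exact (ha j i).1.mul (hF.pow _)
  · intro j z hz
    refine (norm_sum_le _ _).trans (le_trans (Finset.sum_le_sum fun i _ => ?_) (hrow j))
    rw [norm_mul, norm_pow]
    calc ‖a j i z‖ * ‖F z‖ ^ (i : ℕ) ≤ A j i * 1 :=
          mul_le_mul (hA j i z hz) (pow_le_one₀ (norm_nonneg _) (hF1 z hz)) (by positivity)
            (hA0 j i)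
      _ = A j i := mul_one _
  · intro l _
    refine ⟨F, fun r z => (c (e.symm r) : ℂ) * (e.symm r).1 z,
      fun j i x => ψ j i fun u => x (e u) / c u, hF.mono inter_subset_left, fun r => hc _,
      fun j i x y => ?_, fun z hz => ?_⟩
    · refine (hL1 j i _ _).trans ?_
      apply mul_le_mul (hKL j i) _ (norm_nonneg _) (by linarith)
      rw [pi_norm_le_iff_of_nonneg (norm_nonneg _)]
      intro u
      have h1 : ((fun u => x (e u) / (c u : ℂ)) - fun u => y (e u) / (c u : ℂ)) u =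
          (x - y) (e u) / (c u : ℂ) := by
        simp only [Pi.sub_apply]
        ring
      rw [h1, norm_div, Complex.norm_real, Real.norm_eq_abs,
        abs_of_pos (lt_of_lt_of_le one_pos (hc1 u))]
      exact (div_le_self (norm_nonneg _) (hc1 u)).trans (norm_le_pi_norm (x - y) (e u))
    · have hz1 := hz.1
      have hψq : ∀ j i, (ψ j i fun u => (c (e.symm (e u)) : ℂ) * (e.symm (e u)).1 z /
          (c u : ℂ)) = q j i z := by
        intro j i
        rw [hL3 j i z hz1]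
        congr 1
        funext u
        rw [Equiv.symm_apply_apply]
        have h1 : (c u : ℂ) ≠ 0 := by
          have := lt_of_lt_of_le one_pos (hc1 u)
          exact_mod_cast this.ne'
        rw [mul_div_cancel_left₀ _ h1]
      refine ⟨hF1 z hz1, fun j i => ?_, fun j => ?_⟩
      · change ‖ψ j i fun u => (c (e.symm (e u)) : ℂ) * (e.symm (e u)).1 z / (c u : ℂ)‖ ≤ M
        rw [hψq]
        have h1 : q j i z = a j i z - (a j i z - q j i z) := by ring
        rw [h1]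
        refine (norm_sub_le _ _).trans ?_
        have h2 := hqa j i z hz1
        have h3 := hA j i z hz1
        have h4 := hent j i
        linarith
      · change ‖∑ i, a j i z * F z ^ (i : ℕ) - ∑ i, (ψ j i fun u => (c (e.symm (e u)) : ℂ) *
          (e.symm (e u)).1 z / (c u : ℂ)) * F z ^ (i : ℕ)‖ ≤ η
        simp only [hψq]
        rw [← Finset.sum_sub_distrib]
        refine (norm_sum_le _ _).trans ?_
        calc ∑ i, ‖a j i z * F z ^ (i : ℕ) - q j i z * F z ^ (i : ℕ)‖ ≤ ∑ _i : Fin d, ε := by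
              apply Finset.sum_le_sum
              intro i _
              rw [← sub_mul, norm_mul, norm_pow]
              calc ‖a j i z - q j i z‖ * ‖F z‖ ^ (i : ℕ) ≤ ε * 1 :=
                    mul_le_mul (hqa j i z hz1) (pow_le_one₀ (norm_nonneg _) (hF1 z hz1))
                      (by positivity) hε0.le
                _ = ε := mul_one _
          _ = d * ε := by
              rw [Finset.sum_const, nsmul_eq_mul, Finset.card_univ, Fintype.card_fin]
          _ ≤ d * (η / (d + 1)) := mul_le_mul_of_nonneg_left hεη hd0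
          _ ≤ η := by
              rw [mul_div_assoc', div_le_iff₀ (by positivity)]
              nlinarith

theorem MultAlg_smul {g : EuclideanSpace ℂ (Fin n) → ℂ} (hg : g ∈ MultAlg n) (r : ℂ) :
    (fun z => r * g z) ∈ MultAlg n := by
  refine ⟨hg.1.const_mul r, fun ε hε => ?_⟩
  obtain ⟨q, hq, h⟩ := hg.2 (ε / (‖r‖ + 1)) (by positivity)
  refine ⟨r • q, Subalgebra.smul_mem _ hq r, fun z hz => ?_⟩
  rw [Pi.smul_apply, smul_eq_mul, ← mul_sub, norm_mul]
  have h1 := h z hz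
  have h2 : ‖r‖ * ‖g z - q z‖ ≤ ‖r‖ * (ε / (‖r‖ + 1)) :=
    mul_le_mul_of_nonneg_left h1 (norm_nonneg r)
  refine h2.trans ?_
  rw [mul_div_assoc', div_le_iff₀ (by positivity)]
  nlinarith [norm_nonneg r]

/-- Corona data which are polynomials in one arbitrary bounded holomorphic function, with
coefficients in the closed algebra `MultAlg n`. -/
theorem alg_closed (hDC : DiscCorona) (hn : 2 ≤ n) (N d : ℕ) (δ R : ℝ) (hδ : 0 < δ)
    (F : EuclideanSpace ℂ (Fin n) → ℂ) (hF : DifferentiableOn ℂ F (ball 0 1))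
    (hFR : ∀ z ∈ ball (0 : EuclideanSpace ℂ (Fin n)) 1, ‖F z‖ ≤ R)
    (a : Fin N → Fin d → EuclideanSpace ℂ (Fin n) → ℂ) (ha : ∀ j i, a j i ∈ MultAlg n)
    (h : ∀ z ∈ ball (0 : EuclideanSpace ℂ (Fin n)) 1,
      δ ≤ ∑ j, ‖∑ i, a j i z * F z ^ (i : ℕ)‖ ^ 2) :
    ∃ C : ℝ, SolvableOn (fun j z => ∑ i, a j i z * F z ^ (i : ℕ)) (ball 0 1) C := by
  obtain ⟨r, hr⟩ : ∃ r : ℝ, r = max R 1 := ⟨_, rfl⟩
  have hr1 : 1 ≤ r := by rw [hr]; exact le_max_right _ _
  have hr0 : 0 < r := lt_of_lt_of_le one_pos hr1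
  have hrc : (r : ℂ) ≠ 0 := by exact_mod_cast hr0.ne'
  have hsum : ∀ j z, ∑ i : Fin d, ((r : ℂ) ^ (i : ℕ) * a j i z) * (F z / r) ^ (i : ℕ) =
      ∑ i : Fin d, a j i z * F z ^ (i : ℕ) := by
    intro j z
    apply Finset.sum_congr rfl
    intro i _
    rw [div_pow]
    field_simp
  have h1 := alg_closed_one hDC hn N d δ hδ (fun z => F z / r)
    (by simpa only [div_eq_mul_inv] using hF.mul_const _) (by
      intro z hz
      rw [norm_div, Complex.norm_real, Real.norm_eq_abs, abs_of_pos hr0, div_le_one hr0, hr]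
      exact (hFR z hz).trans (le_max_left _ _))
    (fun j i z => (r : ℂ) ^ (i : ℕ) * a j i z) (fun j i => MultAlg_smul (ha j i) _) (by
      intro z hz
      simp only [hsum]
      exact h z hz)
  simp only [hsum] at h1
  exact h1

end Pool.Agent.MPca0fc2.DA
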