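import Mathlib
import Pool.Agent.Lib.MP_ca0fc2_an.DAClosed
import Pool.Agent.Lib.MP_ca0fc2_an.Mg.G059

/-! Common parameters for finitely many generators. -/

set_option autoImplicit false

open Metric Set Filter Topology MeasureTheory

namespace Pool.Agent.MPca0fc2.SG

open Pool.Agent.Lib.MP_ca0fc2_an
open Pool.Agent.MPca0fc2.PT
open Pool.Agent.MPca0fc2.DA

variable {n : ℕ}

theorem rate_id : Rate (fun t => t) := by
  refine ⟨fun t ht => ht.1, fun c hc => ?_⟩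
  refine Measure.integrableOn_of_bounded (M := 1 / c) (by simp) ?_ ?_
  · have h1 : Measurable fun t : ℝ => Real.exp (-(c / t)) / t := by fun_prop
    exact h1.aestronglyMeasurable
  · rw [ae_restrict_iff' measurableSet_Ioo]
    refine Eventually.of_forall fun t ht => ?_
    have ht0 : 0 < t := ht.1
    rw [Real.norm_eq_abs, abs_of_pos (by positivity), div_le_iff₀ ht0, one_div_mul_eq_div,
      Real.exp_neg, inv_eq_one_div, div_le_iff₀ (Real.exp_pos _)]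
    have h1 : c / t ≤ Real.exp (c / t) := by
      have := Real.add_one_le_exp (c / t)
      linarith
    calc (1 : ℝ) = t / c * (c / t) := by field_simp
      _ ≤ t / c * Real.exp (c / t) := mul_le_mul_of_nonneg_left h1 (by positivity)

theorem rate_max {ω ω' : ℝ → ℝ} (h : Rate ω) (h' : Rate ω') : Rate fun t => max (ω t) (ω' t) := by
  refine ⟨fun t ht => lt_max_of_lt_left (h.1 t ht), fun c hc => ?_⟩
  have h1 : IntegrableOn ((fun t => Real.exp (-(c / ω t)) / t) ⊔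
      fun t => Real.exp (-(c / ω' t)) / t) (Ioo 0 1) := (h.2 c hc).sup (h'.2 c hc)
  refine h1.congr_fun (fun t ht => ?_) measurableSet_Ioo
  have ht0 : 0 < t := ht.1
  have a1 := h.1 t ht
  have a2 := h'.1 t ht
  show Real.exp (-(c / ω t)) / t ⊔ Real.exp (-(c / ω' t)) / t =
    Real.exp (-(c / max (ω t) (ω' t))) / t
  rcases le_total (ω t) (ω' t) with h2 | h2
  · rw [max_eq_right h2]
    apply sup_eq_right.mpr
    gcongr
  · rw [max_eq_left h2]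
    apply sup_eq_left.mpr
    gcongr

theorem slow_mono {E : Type*} [NormedAddCommGroup E] [InnerProductSpace ℂ E] {K K' : ℝ}
    {ω ω' : ℝ → ℝ} {u : E → ℂ} (h : Slow K ω u) (hK : K ≤ K') (hω : ∀ t, ω t ≤ ω' t) :
    Slow K' ω' u :=
  ⟨h.1, fun z hz => (h.2.1 z hz).trans hK, fun z hz => (h.2.2 z hz).trans (hω _)⟩

theorem gens3_bounded {u : EuclideanSpace ℂ (Fin n) → ℂ} (hu : u ∈ Gens3 n) :
    ∃ A : ℝ, 0 ≤ A ∧ ∀ z ∈ ball (0 : EuclideanSpace ℂ (Fin n)) 1, ‖u z‖ ≤ A := by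
  obtain ⟨K, p, ω, hp, -, h⟩ := hu
  rcases h with h | h | h
  · exact gens_bounded (Or.inl ⟨K, h⟩)
  · exact gens_bounded (Or.inr ⟨p, K, hp, h⟩)
  · exact ⟨K, (norm_nonneg _).trans (h.2.1 0 (mem_ball_self one_pos)), h.2.1⟩

/-- A multiple of a generator satisfies the conditions with all large parameters. -/
theorem gens3_scaled {u : EuclideanSpace ℂ (Fin n) → ℂ} (hu : u ∈ Gens3 n) :
    ∃ (p₀ : ℝ) (ω₀ : ℝ → ℝ), Rate ω₀ ∧ ∀ p : ℝ, 1 ≤ p → p₀ ≤ p → ∃ K₀ : ℝ, ∀ K : ℝ, K₀ ≤ K →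
      ∃ c : ℝ, 1 ≤ c ∧ ∀ ω : ℝ → ℝ, (∀ t, ω₀ t ≤ ω t) → Gen K p ω (fun z => (c : ℂ) * u z) := by
  obtain ⟨K₁, p₁, ω₁, hp₁, hω₁, h⟩ := hu
  by_cases h' : DAMultiplier K₁ u ∨ GradCarleson p₁ K₁ u
  · have hg : u ∈ Gens n := by
      rcases h' with h' | h'
      · exact Or.inl ⟨K₁, h'⟩
      · exact Or.inr ⟨p₁, K₁, hp₁, h'⟩
    obtain ⟨p₀, h1⟩ := gens_scaled hg
    refine ⟨p₀, ω₁, hω₁, fun p hp hpp => ?_⟩
    obtain ⟨K₀, h2⟩ := h1 p hp hpp
    refine ⟨K₀, fun K hK => ?_⟩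
    obtain ⟨c, hc, h3⟩ := h2 K hK
    refine ⟨c, hc, fun ω _ => ?_⟩
    rcases h3 with h3 | h3
    · exact Or.inl h3
    · exact Or.inr (Or.inl h3)
  · have hs : Slow K₁ ω₁ u := by
      rcases h with h | h | h
      · exact absurd (Or.inl h) h'
      · exact absurd (Or.inr h) h'
      · exact h
    refine ⟨0, ω₁, hω₁, fun p _ _ => ⟨K₁, fun K hK => ⟨1, le_rfl, fun ω hω => Or.inr (Or.inr ?_)⟩⟩⟩
    simp only [Complex.ofReal_one, one_mul]
    exact slow_mono hs hK hω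

/-- Common parameters for a finite family. -/
theorem gens3_common {ι : Type} [Fintype ι] (u : ι → EuclideanSpace ℂ (Fin n) → ℂ)
    (hu : ∀ i, u i ∈ Gens3 n) : ∃ (K p : ℝ) (ω : ℝ → ℝ) (c : ι → ℝ), 1 ≤ p ∧ Rate ω ∧
      (∀ i, 1 ≤ c i) ∧ ∀ i, Gen K p ω (fun z => (c i : ℂ) * u i z) := by
  classical
  choose p₀ ω₀ hω₀ h using fun i => gens3_scaled (hu i)
  obtain ⟨p, hp1, hpp⟩ : ∃ p : ℝ, 1 ≤ p ∧ ∀ u, p₀ u ≤ p := by
    obtain ⟨p, hp⟩ := (Finset.univ.image p₀).exists_le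
    exact ⟨max 1 p, le_max_left _ _, fun u => (hp _ (Finset.mem_image_of_mem _
      (Finset.mem_univ u))).trans (le_max_right _ _)⟩
  choose K₀ hK₀ using fun i => h i p hp1 (hpp i)
  obtain ⟨K, hK⟩ : ∃ K : ℝ, ∀ u, K₀ u ≤ K := by
    obtain ⟨K, hK⟩ := (Finset.univ.image K₀).exists_le
    exact ⟨K, fun u => hK _ (Finset.mem_image_of_mem _ (Finset.mem_univ u))⟩
  choose c hc1 hc using fun i => hK₀ i K (hK i)
  have hω : ∀ s : Finset ι, ∃ ω : ℝ → ℝ, Rate ω ∧ ∀ i ∈ s, ∀ t, ω₀ i t ≤ ω t := by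
    intro s
    induction s using Finset.induction_on with
    | empty => exact ⟨_, rate_id, fun i hi => absurd hi (Finset.notMem_empty i)⟩
    | insert a s _ ih =>
      obtain ⟨ω, h1, h2⟩ := ih
      refine ⟨fun t => max (ω₀ a t) (ω t), rate_max (hω₀ a) h1, fun i hi t => ?_⟩
      rcases Finset.mem_insert.mp hi with rfl | hi
      · exact le_max_left _ _
      · exact (h2 i hi t).trans (le_max_right _ _)
  obtain ⟨ω, h1, h2⟩ := hω Finset.univ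
  exact ⟨K, p, ω, c, hp1, h1, hc1, fun i => hc i ω (h2 i (Finset.mem_univ i))⟩

open Classical in
theorem adjoin_rep' {S : Set (EuclideanSpace ℂ (Fin n) → ℂ)} (hS : ∀ u ∈ S, ∃ A : ℝ, 0 ≤ A ∧
      ∀ z ∈ ball (0 : EuclideanSpace ℂ (Fin n)) 1, ‖u z‖ ≤ A)
    {q : EuclideanSpace ℂ (Fin n) → ℂ} (hq : q ∈ Algebra.adjoin ℂ S) :
    ∃ s : Finset (EuclideanSpace ℂ (Fin n) → ℂ), (∀ u ∈ s, u ∈ S) ∧ Rep s q := by
  induction hq using Algebra.adjoin_induction with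
  | mem u hu =>
    obtain ⟨A, hA, h⟩ := hS u hu
    exact ⟨{u}, fun v hv => by rwa [Finset.mem_singleton.mp hv], Rep.gen (by simp) hA h⟩
  | algebraMap c => exact ⟨∅, by simp, Rep.const ∅ c⟩
  | add f g _ _ hf hg =>
    obtain ⟨s, hs, h1⟩ := hf
    obtain ⟨t, ht, h2⟩ := hg
    refine ⟨s ∪ t, fun u hu => ?_, (h1.mono Finset.subset_union_left).add
      (h2.mono Finset.subset_union_right)⟩
    rcases Finset.mem_union.mp hu with h | h
    · exact hs u h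
    · exact ht u h
  | mul f g _ _ hf hg =>
    obtain ⟨s, hs, h1⟩ := hf
    obtain ⟨t, ht, h2⟩ := hg
    refine ⟨s ∪ t, fun u hu => ?_, (h1.mono Finset.subset_union_left).mul
      (h2.mono Finset.subset_union_right)⟩
    rcases Finset.mem_union.mp hu with h | h
    · exact hs u h
    · exact ht u h

theorem closedAlg_bdd {S : Set (EuclideanSpace ℂ (Fin n) → ℂ)} (hS : ∀ u ∈ S, ∃ A : ℝ, 0 ≤ A ∧
      ∀ z ∈ ball (0 : EuclideanSpace ℂ (Fin n)) 1, ‖u z‖ ≤ A)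
    {a : EuclideanSpace ℂ (Fin n) → ℂ} (ha : a ∈ ClosedAlg S) :
    ∃ M : ℝ, ∀ z ∈ ball (0 : EuclideanSpace ℂ (Fin n)) 1, ‖a z‖ ≤ M := by
  obtain ⟨q, hq, hq2⟩ := ha.2 1 one_pos
  obtain ⟨s, -, ψ, L, hL, -, hψ, hqz⟩ := adjoin_rep' hS hq
  refine ⟨L + 1, fun z hz => ?_⟩
  have h1 : a z = (a z - q z) + q z := by ring
  rw [h1]
  refine (norm_add_le _ _).trans ?_
  have h2 := hq2 z hz
  have h3 : ‖q z‖ ≤ L := by rw [hqz z hz]; exact hψ _
  linarith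

end Pool.Agent.MPca0fc2.SG
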