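import Mathlib
import Pool.Agent.Lib.MP_ca0fc2_an.DAClosed
import Pool.Agent.Lib.MP_ca0fc2_an.Mg.G059
import Pool.Agent.Lib.MP_ca0fc2_an.TMGen

set_option autoImplicit false

open Metric Set MeasureTheory Filter Topology

open scoped InnerProductSpace ENNReal

namespace Pool.Agent.MPca0fc2.TM

open Pool.Agent.Lib.MP_ca0fc2_an

open Pool.Agent.MPca0fc2.PT Pool.Agent.MPca0fc2.DA Pool.Agent.MPca0fc2.MX.Q.T

/-- the multiples of the functions of the class -/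
theorem gen_norm {m : ℕ} {K p : ℝ} (hp : 1 ≤ p) (ω : ℝ → ℝ) (hω0 : ∀ t ∈ Ioo (0 : ℝ) 1, 0 < ω t) :
    ∃ A q : ℝ, 1 ≤ q ∧ ∀ u : EuclideanSpace ℂ (Fin (m + 1)) → ℂ, Gen K p ω u →
      DifferentiableOn ℂ (fun z => ((1 / max |K| 1 : ℝ) : ℂ) * u z) (ball 0 1) ∧
      (∀ z ∈ ball (0 : EuclideanSpace ℂ (Fin (m + 1))) 1,
        ‖((1 / max |K| 1 : ℝ) : ℂ) * u z‖ ≤ 1) ∧
      (CarlesonGradient q A (fun z => ((1 / max |K| 1 : ℝ) : ℂ) * u z) ∨
        ∀ z ∈ ball (0 : EuclideanSpace ℂ (Fin (m + 1))) 1,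
          (1 - ‖z‖) * ‖fderiv ℂ (fun z => ((1 / max |K| 1 : ℝ) : ℂ) * u z) z‖ ≤ ω (1 - ‖z‖)) := by
  have hdim : Module.finrank ℂ (EuclideanSpace ℂ (Fin (m + 1))) = m + 1 :=
    finrank_euclideanSpace_fin
  obtain ⟨k, hk⟩ : ∃ k, k = max |K| 1 := ⟨_, rfl⟩
  have hk1 : 1 ≤ k := by rw [hk]; exact le_max_right _ _
  have hkK : |K| ≤ k := by rw [hk]; exact le_max_left _ _
  have hk0 : 0 < k := by linarith
  rw [← hk]
  obtain ⟨A₀, hA₀⟩ := gradCarleson_of_multiplier (n := m + 1) (by omega)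
  have hq : (1 : ℝ) ≤ 2 * (m + 1 : ℕ) + 12 := by
    have : (0 : ℝ) ≤ (m + 1 : ℕ) := Nat.cast_nonneg _
    linarith
  obtain ⟨B, hB, hBc⟩ := carl_class (volume : Measure (EuclideanSpace ℂ (Fin (m + 1)))) hdim hp
  obtain ⟨B', hB', hBc'⟩ := carl_class (volume : Measure (EuclideanSpace ℂ (Fin (m + 1)))) hdim hq
  obtain ⟨q, hqd⟩ : ∃ q : ℝ, q = max p (2 * (m + 1 : ℕ) + 12) := ⟨_, rfl⟩
  have hqp : p ≤ q := by rw [hqd]; exact le_max_left _ _
  have hqm : 2 * ((m + 1 : ℕ) : ℝ) + 12 ≤ q := by rw [hqd]; exact le_max_right _ _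
  refine ⟨max (B * |K|) (B' * max A₀ 0), q, by linarith, ?_⟩
  have h1k0 : 0 ≤ 1 / k := by positivity
  have h1k1 : 1 / k ≤ 1 := by rw [div_le_one hk0]; exact hk1
  intro u hu
  rcases hu with h | h | ⟨h1, h2, h3⟩
  · have h := DAMultiplier_neg h
    have hub : ∀ z ∈ ball (0 : EuclideanSpace ℂ (Fin (m + 1))) 1, ‖u z‖ ≤ |K| := fun z hz =>
      DAMultiplier_bound (abs_nonneg K) h hz
    have hvb : ∀ z ∈ ball (0 : EuclideanSpace ℂ (Fin (m + 1))) 1,
        ‖((1 / k : ℝ) : ℂ) * u z‖ ≤ 1 := by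
      intro z hz
      rw [norm_mul, Complex.norm_real, Real.norm_eq_abs, abs_of_nonneg h1k0,
        one_div_mul_eq_div, div_le_one hk0]
      exact (hub z hz).trans hkK
    refine ⟨h.1.const_mul _, hvb, ?_⟩
    rcases (abs_nonneg K).eq_or_lt with h0 | h0
    · left
      refine ⟨0, by simp, fun z hz => ?_⟩
      have heq : (fun z => ((1 / k : ℝ) : ℂ) * u z) =ᶠ[𝓝 z] fun _ => 0 := by
        filter_upwards [isOpen_ball.mem_nhds hz] with y hy
        have h4 := hub y hy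
        rw [← h0] at h4
        rw [norm_le_zero_iff.mp h4, mul_zero]
      have h5 : invGrad2 (fun z => ((1 / k : ℝ) : ℂ) * u z) z = 0 := by
        unfold invGrad2
        rw [heq.fderiv_eq]
        simp
      rw [h5, Real.zero_rpow (by linarith)]
      simp
    · left
      have h4 := DAMultiplier_smul (c := 1 / |K|) (by positivity) h
      rw [one_div_mul_cancel h0.ne'] at h4
      have h5 := hA₀ _ h4
      have h6 : GradCarl (volume : Measure (EuclideanSpace ℂ (Fin (m + 1)))) m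
          (2 * (m + 1 : ℕ) + 12) A₀ (fun z => ((1 / |K| : ℝ) : ℂ) * u z) := ⟨h5.1, h5.2.2⟩
      have h7 := gradCarl_smul _ (by linarith) (c := |K| / k) (by positivity)
        (by rw [div_le_one hk0]; exact hkK) h6
      have hfun : (fun z => ((|K| / k : ℝ) : ℂ) * (((1 / |K| : ℝ) : ℂ) * u z)) =
          fun z => ((1 / k : ℝ) : ℂ) * u z := by
        funext z
        have h8 : |K| / k * (1 / |K|) = 1 / k := by field_simp
        rw [← mul_assoc, ← Complex.ofReal_mul, h8]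
      rw [hfun] at h7
      have h8 : GradCarl (volume : Measure (EuclideanSpace ℂ (Fin (m + 1)))) m
          (2 * (m + 1 : ℕ) + 12) (max A₀ 0) (fun z => ((1 / k : ℝ) : ℂ) * u z) :=
        ⟨h7.1, fun w hw => (h7.2 w hw).trans (ENNReal.ofReal_le_ofReal (le_max_left _ _))⟩
      exact cg_mono h7.1 hvb (by linarith) hqm (le_max_right _ _)
        (hBc' _ _ h7.1 (carl_of_gradCarl _ (le_max_right _ _) h8))
  · obtain ⟨h1, h2, h3⟩ := h
    have hK0 : 0 ≤ K := (norm_nonneg _).trans (h2 0 (mem_ball_self one_pos))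
    rw [abs_of_nonneg hK0] at hkK ⊢
    have hvb : ∀ z ∈ ball (0 : EuclideanSpace ℂ (Fin (m + 1))) 1,
        ‖((1 / k : ℝ) : ℂ) * u z‖ ≤ 1 := by
      intro z hz
      rw [norm_mul, Complex.norm_real, Real.norm_eq_abs, abs_of_nonneg h1k0,
        one_div_mul_eq_div, div_le_one hk0]
      exact (h2 z hz).trans hkK
    refine ⟨h1.const_mul _, hvb, Or.inl ?_⟩
    have h6 : GradCarl (volume : Measure (EuclideanSpace ℂ (Fin (m + 1)))) m p K u := ⟨h1, h3⟩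
    have h7 := gradCarl_smul _ (by linarith) h1k0 h1k1 h6
    exact cg_mono h7.1 hvb (by linarith) hqp (le_max_left _ _)
      (hBc _ _ h7.1 (carl_of_gradCarl _ hK0 h7))
  · have hK0 : 0 ≤ K := (norm_nonneg _).trans (h2 0 (mem_ball_self one_pos))
    rw [abs_of_nonneg hK0] at hkK ⊢
    have hvb : ∀ z ∈ ball (0 : EuclideanSpace ℂ (Fin (m + 1))) 1,
        ‖((1 / k : ℝ) : ℂ) * u z‖ ≤ 1 := by
      intro z hz
      rw [norm_mul, Complex.norm_real, Real.norm_eq_abs, abs_of_nonneg h1k0,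
        one_div_mul_eq_div, div_le_one hk0]
      exact (h2 z hz).trans hkK
    refine ⟨h1.const_mul _, hvb, Or.inr ?_⟩
    intro z hz
    have hd : DifferentiableAt ℂ u z := h1.differentiableAt (isOpen_ball.mem_nhds hz)
    have h4 : fderiv ℂ (fun z => ((1 / k : ℝ) : ℂ) * u z) z = ((1 / k : ℝ) : ℂ) • fderiv ℂ u z :=
      fderiv_const_mul hd _
    rw [h4, norm_smul, Complex.norm_real, Real.norm_eq_abs, abs_of_nonneg h1k0]
    have h5 := h3 z hz
    have hz1 := mem_ball_zero_iff.1 hz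
    have h6 : 0 ≤ (1 - ‖z‖) * ‖fderiv ℂ u z‖ := mul_nonneg (by linarith) (norm_nonneg _)
    calc (1 - ‖z‖) * (1 / k * ‖fderiv ℂ u z‖) = 1 / k * ((1 - ‖z‖) * ‖fderiv ℂ u z‖) := by ring
      _ ≤ 1 * ((1 - ‖z‖) * ‖fderiv ℂ u z‖) := mul_le_mul_of_nonneg_right h1k1 h6
      _ ≤ _ := by rw [one_mul]; exact h5

/-- Localization with respect to multipliers of the Drury-Arveson space, bounded functions with
a Carleson condition for the invariant gradient, and functions of slow oscillation. -/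
theorem T_gen {n : ℕ} (hn : 2 ≤ n) (N d : ℕ) {M C₁ ρ₀ K p : ℝ} (ω : ℝ → ℝ) (hρ₀ : 0 < ρ₀)
    (hp : 1 ≤ p) (hω0 : ∀ t ∈ Ioo (0 : ℝ) 1, 0 < ω t)
    (hω : ∀ c > 0, IntegrableOn (fun t => Real.exp (-(c / ω t)) / t) (Ioo 0 1)) :
    ∃ C : ℝ, ∀ (f : Fin N → EuclideanSpace ℂ (Fin n) → ℂ)
      (u : Fin d → EuclideanSpace ℂ (Fin n) → ℂ),
      (∀ j, DifferentiableOn ℂ (f j) (ball 0 1)) →
      (∀ j, ∀ z ∈ ball (0 : EuclideanSpace ℂ (Fin n)) 1, ‖f j z‖ ≤ M) →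
      (∀ i, Gen K p ω (u i)) →
      (∀ c : Fin d → ℂ, SolvableOn f {z | z ∈ ball (0 : EuclideanSpace ℂ (Fin n)) 1 ∧
        ∀ i, ‖u i z - c i‖ < ρ₀} C₁) →
      SolvableOn f (ball 0 1) C := by
  obtain ⟨m, hm⟩ : ∃ m, n = m + 1 := ⟨n - 1, by omega⟩
  subst hm
  have hdim : Module.finrank ℂ (EuclideanSpace ℂ (Fin (m + 1))) = m + 1 :=
    finrank_euclideanSpace_fin
  obtain ⟨A, q, hq, hg⟩ := gen_norm (m := m) (K := K) hp ω hω0
  obtain ⟨k, hk⟩ : ∃ k, k = max |K| 1 := ⟨_, rfl⟩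
  have hk1 : 1 ≤ k := by rw [hk]; exact le_max_right _ _
  have hk0 : 0 < k := by linarith
  rw [← hk] at hg
  obtain ⟨C, hC⟩ := T_cg (E := EuclideanSpace ℂ (Fin (m + 1))) (m := m) (by omega) hdim N d
    (M := max M 1) (A := A) (p := q) (ρ₀ := ρ₀ / k) (C₁ := C₁) ω hq (by positivity) hω0 hω
  refine ⟨C, fun f u hf hfM hu hloc => hC f (fun i z => ((1 / k : ℝ) : ℂ) * u i z) hf
    (fun j z hz => (hfM j z hz).trans (le_max_left _ _)) (fun i => (hg _ (hu i)).1)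
    (fun i z hz => ((hg _ (hu i)).2.1 z hz).trans (le_max_right _ _))
    (fun i => (hg _ (hu i)).2.2) ?_⟩
  intro c
  have h1 := hloc fun i => (k : ℂ) * c i
  have h2 : {z | z ∈ ball (0 : EuclideanSpace ℂ (Fin (m + 1))) 1 ∧
      ∀ i, ‖((1 / k : ℝ) : ℂ) * u i z - c i‖ < ρ₀ / k} =
      {z | z ∈ ball (0 : EuclideanSpace ℂ (Fin (m + 1))) 1 ∧
      ∀ i, ‖u i z - (k : ℂ) * c i‖ < ρ₀} := by
    ext z
    have h3 : ∀ i, ‖((1 / k : ℝ) : ℂ) * u i z - c i‖ = ‖u i z - (k : ℂ) * c i‖ / k := by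
      intro i
      have h4 : ((1 / k : ℝ) : ℂ) * u i z - c i = ((1 / k : ℝ) : ℂ) * (u i z - (k : ℂ) * c i) := by
        have : (k : ℂ) ≠ 0 := by exact_mod_cast hk0.ne'
        push_cast
        field_simp
      rw [h4, norm_mul, Complex.norm_real, Real.norm_of_nonneg (by positivity), one_div_mul_eq_div]
    simp only [mem_setOf_eq, h3, div_lt_div_iff_of_pos_right hk0]
  rw [h2]
  exact h1

end Pool.Agent.MPca0fc2.TM
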