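import Mathlib
import Pool.Agent.Lib.MP_ca0fc2_an.Mg.G059
import Pool.Agent.Lib.MP_ca0fc2_an.TMMain

/-! Interface: the localization theorem for cells of multipliers, of functions with Carleson
gradients and of slow functions. -/

set_option autoImplicit false

open Metric Set MeasureTheory

namespace Pool.Agent.MPca0fc2.SG

open Pool.Agent.Lib.MP_ca0fc2_an

theorem T_gen {m : ℕ} (hm : 1 ≤ m) (N d : ℕ) {M C₁ ρ₀ K p : ℝ} (ω : ℝ → ℝ) (hρ : 0 < ρ₀)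
    (hp : 1 ≤ p) (hω : Rate ω) :
    ∃ C, ∀ (f : Fin N → EuclideanSpace ℂ (Fin (m + 1)) → ℂ)
      (u : Fin d → EuclideanSpace ℂ (Fin (m + 1)) → ℂ),
      (∀ j, DifferentiableOn ℂ (f j) (ball 0 1)) →
      (∀ j, ∀ z ∈ ball (0 : EuclideanSpace ℂ (Fin (m + 1))) 1, ‖f j z‖ ≤ M) →
      (∀ i, Gen K p ω (u i)) →
      (∀ c : Fin d → ℂ, SolvableOn f {z | z ∈ ball 0 1 ∧ ∀ i, ‖u i z - c i‖ < ρ₀} C₁) →
      SolvableOn f (ball 0 1) C :=
  Pool.Agent.MPca0fc2.TM.T_gen (n := m + 1) (by omega) N d ω hρ hp hω.1 hω.2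

end Pool.Agent.MPca0fc2.SG
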