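import Mathlib

/-! Neighbourhoods of the characters of an algebra of functions on the unit ball which are limits of
point evaluations. -/

set_option autoImplicit false

open Metric Set Filter Topology

namespace Pool.Agent.Lib.MP_ca0fc2_an

variable {E : Type*} [NormedAddCommGroup E]

/-- An ultrafilter `U` on the unit ball defines the character `a ↦ lim_U a` on each algebra `A` of
bounded functions on the ball. `IsNhd A U D` says that the subset `D` of the ball is a neighbourhood
of this character: there are finitely many `a_i` in `A` and `ε > 0` such that `D` contains all the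
points `z` of the ball with `|a_i (z) - lim_U a_i| < ε` for all `i`. -/
def IsNhd (A : Set (E → ℂ)) (U : Ultrafilter E) (D : Set E) : Prop :=
  D ⊆ ball 0 1 ∧ ∃ (k : ℕ) (a : Fin k → E → ℂ) (c : Fin k → ℂ) (ε : ℝ), 0 < ε ∧
    (∀ i, a i ∈ A ∧ Tendsto (a i) U (𝓝 (c i))) ∧
    ∀ z ∈ ball (0 : E) 1, (∀ i, ‖a i z - c i‖ < ε) → z ∈ D

end Pool.Agent.Lib.MP_ca0fc2_an
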