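import Mathlib
import Pool.Agent.Lib.MP_ca0fc2_an.SPNhdDefs

/-! Compactness of the space of ultrafilters. -/

set_option autoImplicit false

open Metric Set Filter Topology

namespace Pool.Agent.MPca0fc2.SP

open Pool.Agent.Lib.MP_ca0fc2_an

variable {E : Type*} [NormedAddCommGroup E]

theorem nhd_ball (A : Set (E → ℂ)) (U : Ultrafilter E) : IsNhd A U (ball 0 1) :=
  ⟨Subset.rfl, 0, fun i => i.elim0, fun i => i.elim0, 1, one_pos, fun i => i.elim0,
    fun _ hz _ => hz⟩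

theorem nhd_inter {A : Set (E → ℂ)} {U : Ultrafilter E} {D D' : Set E} (h : IsNhd A U D)
    (h' : IsNhd A U D') : IsNhd A U (D ∩ D') := by
  obtain ⟨h1, k, a, c, ε, hε, ha, hD⟩ := h
  obtain ⟨-, k', a', c', ε', hε', ha', hD'⟩ := h'
  refine ⟨inter_subset_left.trans h1, k + k', Fin.append a a', Fin.append c c', min ε ε',
    lt_min hε hε', ?_, ?_⟩
  · intro i
    refine Fin.addCases (fun i => ?_) (fun i => ?_) i
    · rw [Fin.append_left, Fin.append_left]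
      exact ha i
    · rw [Fin.append_right, Fin.append_right]
      exact ha' i
  · intro z hz h
    refine ⟨hD z hz fun i => ?_, hD' z hz fun i => ?_⟩
    · have := h (Fin.castAdd k' i)
      rw [Fin.append_left, Fin.append_left] at this
      exact this.trans_le (min_le_left _ _)
    · have := h (Fin.natAdd k i)
      rw [Fin.append_right, Fin.append_right] at this
      exact this.trans_le (min_le_right _ _)

theorem nhd_mono {A : Set (E → ℂ)} {U : Ultrafilter E} {D D' : Set E} (h : IsNhd A U D)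
    (hD : D ⊆ D') (hD' : D' ⊆ ball 0 1) : IsNhd A U D' := by
  obtain ⟨-, k, a, c, ε, hε, ha, h2⟩ := h
  exact ⟨hD', k, a, c, ε, hε, ha, fun z hz h3 => hD (h2 z hz h3)⟩

theorem nhd_mem {A : Set (E → ℂ)} {U : Ultrafilter E} (hU : ball 0 1 ∈ U) {D : Set E}
    (h : IsNhd A U D) : D ∈ U := by
  obtain ⟨-, k, a, c, ε, hε, ha, h2⟩ := h
  have h3 : ∀ i, ∀ᶠ z in (U : Filter E), ‖a i z - c i‖ < ε := by
    intro i
    have h4 := ((ha i).2.sub_const (c i)).norm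
    rw [sub_self, norm_zero] at h4
    exact h4.eventually (gt_mem_nhds hε)
  have h4 : ∀ᶠ z in (U : Filter E), ∀ i, ‖a i z - c i‖ < ε := eventually_all.mpr h3
  have h5 : ∀ᶠ z in (U : Filter E), z ∈ ball (0 : E) 1 := hU
  have h6 : ∀ᶠ z in (U : Filter E), z ∈ D := by
    filter_upwards [h4, h5] with z hz hz'
    exact h2 z hz' hz
  exact h6

/-- From neighbourhoods to a cover by finitely many of them, with a Lebesgue number. -/
theorem cover_of_nhds (A : Set (E → ℂ)) (P : Set E → Prop)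
    (h : ∀ U : Ultrafilter E, ball 0 1 ∈ U → ∃ D, IsNhd A U D ∧ P D) :
    ∃ (k : ℕ) (a : Fin k → E → ℂ) (ε : ℝ) (Ds : Set (Set E)), (∀ i, a i ∈ A) ∧ 0 < ε ∧
      Ds.Finite ∧ (∀ D ∈ Ds, P D) ∧
      ∀ b ∈ ball (0 : E) 1, ∃ D ∈ Ds, ∀ z ∈ ball (0 : E) 1, (∀ i, ‖a i z - a i b‖ < ε) → z ∈ D := by
  classical
  choose! D hD hP using h
  have hD2 : ∀ U : Ultrafilter E, ball 0 1 ∈ U → ∃ (k : ℕ) (a : Fin k → E → ℂ) (c : Fin k → ℂ)
      (ε : ℝ), 0 < ε ∧ (∀ i, a i ∈ A ∧ Tendsto (a i) U (𝓝 (c i))) ∧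
      ∀ z ∈ ball (0 : E) 1, (∀ i, ‖a i z - c i‖ < ε) → z ∈ D U := fun U hU => (hD U hU).2
  choose! k a c ε hε ha hz using hD2
  have hS : ∀ U : Ultrafilter E, ball 0 1 ∈ U →
      {z | z ∈ ball (0 : E) 1 ∧ ∀ i, ‖a U i z - c U i‖ < ε U / 2} ∈ U := by
    intro U hU
    exact nhd_mem (A := A) hU ⟨fun z hz => hz.1, k U, a U, c U, ε U / 2, half_pos (hε U hU),
      ha U hU, fun z hz h => ⟨hz, h⟩⟩
  have hc : IsCompact {U : Ultrafilter E | ball 0 1 ∈ U} := (ultrafilter_isClosed_basic _).isCompact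
  obtain ⟨t, ht, hcov⟩ := hc.elim_nhds_subcover
    (fun U => {W | {z | z ∈ ball (0 : E) 1 ∧ ∀ i, ‖a U i z - c U i‖ < ε U / 2} ∈ W})
    (fun U hU => (ultrafilter_isOpen_basic _).mem_nhds (hS U hU))
  obtain ⟨ε', hε', hεle⟩ : ∃ ε' : ℝ, 0 < ε' ∧ ∀ U ∈ t, ε' ≤ ε U / 2 := by
    rcases t.eq_empty_or_nonempty with h0 | h0
    · exact ⟨1, one_pos, fun U hU => by rw [h0] at hU; simp at hU⟩
    · refine ⟨t.inf' h0 fun U => ε U / 2, ?_, fun U hU => Finset.inf'_le _ hU⟩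
      rw [Finset.lt_inf'_iff]
      exact fun U hU => half_pos (hε U (ht U hU))
  obtain ⟨e⟩ : Nonempty ((Σ U : t, Fin (k U.1)) ≃ Fin (Fintype.card (Σ U : t, Fin (k U.1)))) :=
    ⟨Fintype.equivFin _⟩
  obtain ⟨a', ha'⟩ : ∃ a' : (Σ U : t, Fin (k U.1)) → E → ℂ, a' = fun x => a x.1.1 x.2 := ⟨_, rfl⟩
  refine ⟨_, fun i => a' (e.symm i), ε', D '' (t : Set (Ultrafilter E)),
    fun i => by rw [ha']; exact (ha _ (ht _ (e.symm i).1.2) _).1, hε',
    (Finset.finite_toSet t).image _, ?_, ?_⟩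
  · rintro _ ⟨U, hU, rfl⟩
    exact hP U (ht U hU)
  · intro b hb
    have h1 : (pure b : Ultrafilter E) ∈ {U : Ultrafilter E | ball 0 1 ∈ U} := by
      rw [mem_setOf_eq, Ultrafilter.mem_pure]
      exact hb
    have h2 := hcov h1
    simp only [mem_iUnion, mem_setOf_eq, Ultrafilter.mem_pure] at h2
    obtain ⟨U, hU, -, hbU⟩ := h2
    refine ⟨D U, ⟨U, hU, rfl⟩, fun z hzb h3 => hz U (ht U hU) z hzb fun i => ?_⟩
    have h4 : ‖a U i z - a U i b‖ < ε' := by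
      have h5 : ‖a' (e.symm (e ⟨⟨U, hU⟩, i⟩)) z - a' (e.symm (e ⟨⟨U, hU⟩, i⟩)) b‖ < ε' :=
        h3 (e ⟨⟨U, hU⟩, i⟩)
      rw [Equiv.symm_apply_apply, ha'] at h5
      exact h5
    have h5 := hbU i
    have h6 := hεle U hU
    calc ‖a U i z - c U i‖ = ‖(a U i z - a U i b) + (a U i b - c U i)‖ := by congr 1; ring
      _ ≤ ‖a U i z - a U i b‖ + ‖a U i b - c U i‖ := norm_add_le _ _
      _ < ε U := by linarith

end Pool.Agent.MPca0fc2.SP
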