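import Mathlib
import Pool.Agent.Lib.MP_ca0fc2_an.SGGen
import Pool.Agent.Lib.MP_ca0fc2_an.SGTgen
import Pool.Agent.Lib.MP_ca0fc2_an.SPCov

/-! Localization with respect to finitely many functions of the closed algebra generated by
`Gens3 n`. -/

set_option autoImplicit false

open Metric Set Filter Topology MeasureTheory

namespace Pool.Agent.MPca0fc2.SG

open Pool.Agent.Lib.MP_ca0fc2_an
open Pool.Agent.MPca0fc2.PT
open Pool.Agent.MPca0fc2.DA

open Classical in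
/-- The cells of finitely many functions of the algebra contain the cells of finitely many
generators. -/
theorem gens3_cells {n k : ℕ} (a : Fin k → EuclideanSpace ℂ (Fin n) → ℂ)
    (ha : ∀ i, a i ∈ ClosedAlg (Gens3 n)) {ε : ℝ} (hε : 0 < ε) :
    ∃ (d : ℕ) (v : Fin d → EuclideanSpace ℂ (Fin n) → ℂ) (K p ρ : ℝ) (ω : ℝ → ℝ), 1 ≤ p ∧
      Rate ω ∧ 0 < ρ ∧ (∀ i, Gen K p ω (v i)) ∧
      ∀ z ∈ ball (0 : EuclideanSpace ℂ (Fin n)) 1, ∀ b ∈ ball (0 : EuclideanSpace ℂ (Fin n)) 1,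
        (∀ i, ‖v i z - v i b‖ < 2 * ρ) → ∀ j, ‖a j z - a j b‖ < ε := by
  have h1 : ∀ j, ∃ q ∈ Algebra.adjoin ℂ (Gens3 n),
      ∀ z ∈ ball (0 : EuclideanSpace ℂ (Fin n)) 1, ‖a j z - q z‖ ≤ ε / 4 :=
    fun j => (ha j).2 (ε / 4) (by positivity)
  choose q hq hqa using h1
  have hs : ∀ j, ∃ s : Finset (EuclideanSpace ℂ (Fin n) → ℂ), (∀ u ∈ s, u ∈ Gens3 n) ∧
      Rep s (q j) := fun j => adjoin_rep' (fun u hu => gens3_bounded hu) (hq j)
  choose s hs hrep using hs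
  obtain ⟨t, ht⟩ : ∃ t : Finset (EuclideanSpace ℂ (Fin n) → ℂ),
      t = Finset.univ.biUnion fun j => s j := ⟨_, rfl⟩
  have hst : ∀ j, s j ⊆ t := by
    intro j u hu
    rw [ht, Finset.mem_biUnion]
    exact ⟨j, Finset.mem_univ j, hu⟩
  have htG : ∀ u ∈ t, u ∈ Gens3 n := by
    intro u hu
    rw [ht, Finset.mem_biUnion] at hu
    obtain ⟨j, -, hu⟩ := hu
    exact hs j u hu
  have hrept : ∀ j, Rep t (q j) := fun j => (hrep j).mono (hst j)
  choose ψ L hL0 hL1 hL2 hL3 using hrept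
  obtain ⟨K, p, ω, c, hp, hω, hc1, hG⟩ := gens3_common (fun u : t => u.1) fun u => htG u.1 u.2
  obtain ⟨L', hL'0, hLL⟩ : ∃ L' : ℝ, 0 < L' ∧ ∀ j, L j ≤ L' := by
    obtain ⟨L', h⟩ := (Finset.univ.image L).exists_le
    exact ⟨max 1 L', lt_of_lt_of_le one_pos (le_max_left _ _), fun u => (h _
      (Finset.mem_image_of_mem _ (Finset.mem_univ u))).trans (le_max_right _ _)⟩
  obtain ⟨ρ, hρ⟩ : ∃ ρ : ℝ, ρ = ε / (8 * L') := ⟨_, rfl⟩
  have hρ0 : 0 < ρ := by rw [hρ]; positivity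
  obtain ⟨e⟩ : Nonempty (t ≃ Fin t.card) := ⟨t.equivFin⟩
  refine ⟨t.card, fun i z => (c (e.symm i) : ℂ) * (e.symm i).1 z, K, p, ρ, ω, hp, hω, hρ0,
    fun i => hG _, ?_⟩
  intro z hz b hb' h j
  have hu : ∀ u : t, ‖u.1 z - u.1 b‖ ≤ 2 * ρ := by
    intro u
    have h2 : ‖(c (e.symm (e u)) : ℂ) * (e.symm (e u)).1 z -
        (c (e.symm (e u)) : ℂ) * (e.symm (e u)).1 b‖ < 2 * ρ := h (e u)
    have hc0 : 0 < c u := by linarith [hc1 u]
    rw [Equiv.symm_apply_apply, ← mul_sub, norm_mul, Complex.norm_real, Real.norm_eq_abs,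
      abs_of_pos hc0] at h2
    have h3 : ‖u.1 z - u.1 b‖ ≤ c u * ‖u.1 z - u.1 b‖ :=
      le_mul_of_one_le_left (norm_nonneg _) (hc1 u)
    exact h3.trans h2.le
  have h2 : ‖q j z - q j b‖ ≤ ε / 4 := by
    rw [hL3 j z hz, hL3 j b hb']
    refine (hL1 j _ _).trans ?_
    calc L j * ‖(fun t_1 : t => t_1.1 z) - fun t_1 : t => t_1.1 b‖ ≤ L' * (2 * ρ) := by
          apply mul_le_mul (hLL j) _ (norm_nonneg _) hL'0.le
          rw [pi_norm_le_iff_of_nonneg (by positivity)]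
          exact hu
      _ = ε / 4 := by
          rw [hρ]
          field_simp
          ring
  have h3 := hqa j z hz
  have h4 := hqa j b hb'
  calc ‖a j z - a j b‖ = ‖(a j z - q j z) + (q j z - q j b) - (a j b - q j b)‖ := by
        congr 1; ring
    _ ≤ ‖a j z - q j z‖ + ‖q j z - q j b‖ + ‖a j b - q j b‖ :=
        (norm_sub_le _ _).trans (add_le_add (norm_add_le _ _) le_rfl)
    _ < ε := by linarith

/-- The functions of `A` are bounded on the ball, and the corona problem can be localized to the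
cells of finitely many functions of `A`. -/
def LocAlg {E : Type*} [NormedAddCommGroup E] [InnerProductSpace ℂ E] (A : Set (E → ℂ)) : Prop :=
  (∀ a ∈ A, ∃ M : ℝ, ∀ z ∈ ball (0 : E) 1, ‖a z‖ ≤ M) ∧
  ∀ (N k : ℕ) (f : Fin N → E → ℂ) (a : Fin k → E → ℂ) (C ε : ℝ),
    (∀ j, DifferentiableOn ℂ (f j) (ball 0 1)) →
    (∀ j, ∃ M : ℝ, ∀ z ∈ ball (0 : E) 1, ‖f j z‖ ≤ M) → (∀ i, a i ∈ A) → 0 < ε →
    (∀ b ∈ ball (0 : E) 1, SolvableOn f {z | z ∈ ball 0 1 ∧ ∀ i, ‖a i z - a i b‖ < ε} C) →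
    ∃ C', SolvableOn f (ball 0 1) C'

theorem locAlg3 {n : ℕ} (hn : 2 ≤ n) : LocAlg (ClosedAlg (Gens3 n)) := by
  refine ⟨fun a ha => closedAlg_bdd (fun u hu => gens3_bounded hu) ha, ?_⟩
  intro N k f a C ε hf hb ha hε h
  obtain ⟨m, hm⟩ : ∃ m, n = m + 1 := ⟨n - 1, by omega⟩
  subst hm
  obtain ⟨d, v, K, p, ρ, ω, hp, hω, hρ, hG, h4⟩ := gens3_cells a ha hε
  choose M hM using hb
  obtain ⟨C', hC'⟩ := T_gen (m := m) (by omega) N d (M := ∑ j, |M j|) (C₁ := C) (K := K) ω hρ hp hω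
  refine ⟨C', hC' f v hf (fun j z hz => ?_) hG fun c => ?_⟩
  · refine (hM j z hz).trans ((le_abs_self _).trans ?_)
    exact Finset.single_le_sum (f := fun j => |M j|) (fun j _ => abs_nonneg _) (Finset.mem_univ j)
  · rcases Set.eq_empty_or_nonempty {z | z ∈ ball (0 : EuclideanSpace ℂ (Fin (m + 1))) 1 ∧
      ∀ i, ‖v i z - c i‖ < ρ} with h0 | ⟨b, hb, hbc⟩
    · rw [h0]
      exact cut_empty
    · refine cut_sub (h b hb) ?_
      rintro z ⟨hz, hzc⟩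
      refine ⟨hz, h4 z hz b hb fun i => ?_⟩
      calc ‖v i z - v i b‖ = ‖(v i z - c i) - (v i b - c i)‖ := by congr 1; ring
        _ ≤ ‖v i z - c i‖ + ‖v i b - c i‖ := norm_sub_le _ _
        _ < 2 * ρ := by linarith [hzc i, hbc i]

end Pool.Agent.MPca0fc2.SG
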