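import Mathlib

/-! The algebra of the uniform limits, on a compact plane set `K`, of the functions holomorphic near
`K`: its characters are the point evaluations. -/

set_option autoImplicit false

open Set Filter Topology Metric WeakDual

namespace Pool.Agent.MPca0fc2.SP

/-- The algebra of the restrictions to `K` of the functions holomorphic near `K`. -/
noncomputable def holAlg (K : Set ℂ) : Subalgebra ℂ C(K, ℂ) where
  carrier := {φ | ∃ (V : Set ℂ) (g : ℂ → ℂ), IsOpen V ∧ K ⊆ V ∧ DifferentiableOn ℂ g V ∧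
    ∀ w : K, φ w = g w}
  mul_mem' := by
    rintro φ ψ ⟨V, g, h1, h2, h3, h4⟩ ⟨W, h, k1, k2, k3, k4⟩
    exact ⟨V ∩ W, fun w => g w * h w, h1.inter k1, subset_inter h2 k2,
      (h3.mono inter_subset_left).mul (k3.mono inter_subset_right), fun w => by
        rw [ContinuousMap.mul_apply, h4, k4]⟩
  add_mem' := by
    rintro φ ψ ⟨V, g, h1, h2, h3, h4⟩ ⟨W, h, k1, k2, k3, k4⟩
    exact ⟨V ∩ W, fun w => g w + h w, h1.inter k1, subset_inter h2 k2,
      (h3.mono inter_subset_left).add (k3.mono inter_subset_right), fun w => by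
        rw [ContinuousMap.add_apply, h4, k4]⟩
  algebraMap_mem' := by
    intro r
    exact ⟨univ, fun _ => r, isOpen_univ, subset_univ _, differentiableOn_const _, fun w => rfl⟩

/-- The coordinate function. -/
noncomputable def idK (K : Set ℂ) : C(K, ℂ) := ⟨Subtype.val, continuous_subtype_val⟩

theorem idK_mem (K : Set ℂ) : idK K ∈ holAlg K :=
  ⟨univ, fun w => w, isOpen_univ, subset_univ _, differentiableOn_id, fun _ => rfl⟩

/-- The restriction to `K` of a function holomorphic near `K`. -/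
noncomputable def resK (K : Set ℂ) (g : ℂ → ℂ) {V : Set ℂ} (hV : K ⊆ V)
    (hg : DifferentiableOn ℂ g V) : C(K, ℂ) :=
  ⟨fun w => g w, (hg.continuousOn.mono hV).domRestrict⟩

theorem resK_mem (K : Set ℂ) (g : ℂ → ℂ) {V : Set ℂ} (hVo : IsOpen V) (hV : K ⊆ V)
    (hg : DifferentiableOn ℂ g V) : resK K g hV hg ∈ holAlg K :=
  ⟨V, g, hVo, hV, hg, fun _ => rfl⟩

/-- The characters are the point evaluations. -/
theorem char_eq (K : Set ℂ) [CompactSpace K] (χ : characterSpace ℂ (holAlg K).topologicalClosure) :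
    ∃ a : K, ∀ φ : (holAlg K).topologicalClosure, χ φ = φ.1 a := by
  have hle : ∀ φ ∈ holAlg K, φ ∈ (holAlg K).topologicalClosure :=
    fun φ hφ => (holAlg K).le_topologicalClosure hφ
  obtain ⟨a, ha⟩ : ∃ a : ℂ, a = χ ⟨idK K, hle _ (idK_mem K)⟩ := ⟨_, rfl⟩
  have haK : a ∈ K := by
    by_contra hcon
    have hV : K ⊆ {a}ᶜ := fun w hw h => hcon (by rwa [mem_singleton_iff.mp h] at hw)
    have hd : DifferentiableOn ℂ (fun w : ℂ => (w - a)⁻¹) {a}ᶜ := by
      intro w hw
      have : w - a ≠ 0 := sub_ne_zero.mpr hw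
      exact ((differentiableAt_id.sub_const a).inv this).differentiableWithinAt
    have hr := hle _ (resK_mem K _ isOpen_compl_singleton hV hd)
    have h1 : ((⟨idK K, hle _ (idK_mem K)⟩ : (holAlg K).topologicalClosure) -
        algebraMap ℂ _ a) * ⟨resK K _ hV hd, hr⟩ = 1 := by
      apply Subtype.ext
      apply ContinuousMap.ext
      intro w
      show ((w : ℂ) - a) * ((w : ℂ) - a)⁻¹ = 1
      have : (w : ℂ) - a ≠ 0 := sub_ne_zero.mpr (hV w.2)
      exact mul_inv_cancel₀ this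
    have h2 := congrArg χ h1
    rw [map_mul, map_sub, ← ha, map_one, AlgHomClass.commutes, Algebra.algebraMap_self_apply,
      sub_self, zero_mul] at h2
    exact zero_ne_one h2
  refine ⟨⟨a, haK⟩, ?_⟩
  have h0 : ∀ (φ : C(K, ℂ)) (hφ : φ ∈ holAlg K), χ ⟨φ, hle _ hφ⟩ = φ ⟨a, haK⟩ := by
    intro φ hφ
    obtain ⟨V, g, h1, h2, h3, h4⟩ := hφ
    have hd : DifferentiableOn ℂ (dslope g a) V :=
      (Complex.differentiableOn_dslope (h1.mem_nhds (h2 haK))).mpr h3
    have hr := hle _ (resK_mem K _ h1 h2 hd)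
    have h5 : (⟨φ, hle _ ⟨V, g, h1, h2, h3, h4⟩⟩ : (holAlg K).topologicalClosure) -
        algebraMap ℂ _ (g a) = ((⟨idK K, hle _ (idK_mem K)⟩ : (holAlg K).topologicalClosure) -
        algebraMap ℂ _ a) * ⟨resK K _ h2 hd, hr⟩ := by
      apply Subtype.ext
      apply ContinuousMap.ext
      intro w
      show φ w - g a = ((w : ℂ) - a) * dslope g a w
      rw [h4]
      exact (sub_smul_dslope g a w).symm
    have h6 := congrArg χ h5
    rw [map_mul, map_sub, map_sub, ← ha, AlgHomClass.commutes, AlgHomClass.commutes,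
      Algebra.algebraMap_self_apply, Algebra.algebraMap_self_apply, sub_self, zero_mul,
      sub_eq_zero] at h6
    rw [h6, h4]
  rintro ⟨φ, hφ⟩
  have hφ' : φ ∈ closure (holAlg K : Set C(K, ℂ)) := hφ
  obtain ⟨ψ, hψ, hlim⟩ := mem_closure_iff_seq_limit.mp hφ'
  have h1 : Tendsto (fun n => (⟨ψ n, hle _ (hψ n)⟩ : (holAlg K).topologicalClosure)) atTop
      (𝓝 ⟨φ, hφ⟩) := tendsto_subtype_rng.mpr hlim
  have hc : Continuous χ := map_continuous χ
  have h2 := (hc.tendsto _).comp h1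
  have h3 : Tendsto (fun n => ψ n ⟨a, haK⟩) atTop (𝓝 (φ ⟨a, haK⟩)) :=
    ((continuous_eval_const (⟨a, haK⟩ : K)).tendsto φ).comp hlim
  refine tendsto_nhds_unique h2 ?_
  refine h3.congr fun n => ?_
  exact (h0 _ (hψ n)).symm

/-- Uniform limits of holomorphic functions without common zeros on the compact set `K`. -/
theorem planar_corona (K : Set ℂ) [CompactSpace K] {N : ℕ} (φ : Fin N → C(K, ℂ))
    (hφ : ∀ j, φ j ∈ (holAlg K).topologicalClosure) (hz : ∀ w : K, ∃ j, φ j w ≠ 0) :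
    ∃ ψ : Fin N → C(K, ℂ), (∀ j, ψ j ∈ holAlg K) ∧ ∀ w, ‖∑ j, φ j w * ψ j w - 1‖ ≤ 1 / 4 := by
  classical
  have : CompleteSpace (holAlg K).topologicalClosure :=
    ((holAlg K).isClosed_topologicalClosure).completeSpace_coe
  obtain ⟨I, hI⟩ : ∃ I : Ideal (holAlg K).topologicalClosure,
    I = Ideal.span (range fun j => (⟨φ j, hφ j⟩ : (holAlg K).topologicalClosure)) := ⟨_, rfl⟩
  by_cases hT : I = ⊤
  · have h1 : (1 : (holAlg K).topologicalClosure) ∈
        Ideal.span (range fun j => (⟨φ j, hφ j⟩ : (holAlg K).topologicalClosure)) := by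
      rw [← hI, hT]
      trivial
    obtain ⟨c, hc⟩ := (Ideal.mem_span_range_iff_exists_fun).mp h1
    obtain ⟨ε, hε⟩ : ∃ ε : ℝ, ε = 1 / (4 * (∑ j, ‖φ j‖ + 1)) := ⟨_, rfl⟩
    have hs : 0 ≤ ∑ j, ‖φ j‖ := Finset.sum_nonneg fun j _ => norm_nonneg _
    have hε0 : 0 < ε := by rw [hε]; positivity
    have h2 : ∀ j, ∃ ψ ∈ holAlg K, ‖(c j).1 - ψ‖ < ε := by
      intro j
      have h3 : (c j).1 ∈ closure (holAlg K : Set C(K, ℂ)) := (c j).2
      obtain ⟨ψ, hψ, h⟩ := Metric.mem_closure_iff.mp h3 ε hε0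
      exact ⟨ψ, hψ, by rwa [← dist_eq_norm]⟩
    choose ψ hψ hψc using h2
    refine ⟨ψ, hψ, fun w => ?_⟩
    have h3 : ∑ j, (c j).1 w * φ j w = 1 := by
      have h4 := congrArg (fun s : (holAlg K).topologicalClosure => s.1 w) hc
      simpa using h4
    have h4 : ∑ j, φ j w * ψ j w - 1 = ∑ j, φ j w * (ψ j w - (c j).1 w) := by
      rw [← h3, ← Finset.sum_sub_distrib]
      exact Finset.sum_congr rfl fun j _ => by ring
    rw [h4]
    calc ‖∑ j, φ j w * (ψ j w - (c j).1 w)‖ ≤ ∑ j, ‖φ j‖ * ε := by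
          refine (norm_sum_le _ _).trans (Finset.sum_le_sum fun j _ => ?_)
          rw [norm_mul]
          refine mul_le_mul ((φ j).norm_coe_le_norm w) ?_ (norm_nonneg _) (norm_nonneg _)
          rw [norm_sub_rev]
          exact (((c j).1 - ψ j).norm_coe_le_norm w).trans (hψc j).le
      _ = (∑ j, ‖φ j‖) * ε := by rw [Finset.sum_mul]
      _ ≤ 1 / 4 := by
          rw [hε, mul_one_div, div_le_div_iff₀ (by positivity) (by norm_num)]
          linarith
  · exfalso
    obtain ⟨m, hm, hIm⟩ := Ideal.exists_le_maximal I hT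
    obtain ⟨a, ha⟩ := char_eq K m.toCharacterSpace
    obtain ⟨j, hj⟩ := hz a
    apply hj
    have h1 : (⟨φ j, hφ j⟩ : (holAlg K).topologicalClosure) ∈ m := by
      apply hIm
      rw [hI]
      exact Ideal.subset_span (mem_range_self j)
    have h2 := m.toCharacterSpace_apply_eq_zero_of_mem h1
    rw [ha] at h2
    exact h2

end Pool.Agent.MPca0fc2.SP
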