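import Mathlib
import Pool.Agent.Lib.MP_ca0fc2_an.SPGel
import Pool.Agent.Lib.MP_ca0fc2_an.SPCov
import Pool.Agent.Lib.MP_ca0fc2_an.Defs

/-! Local solvability for functions which are nearly holomorphic functions of one function. -/

set_option autoImplicit false

open Metric Set Filter Topology

namespace Pool.Agent.Lib.MP_ca0fc2_an

variable {E : Type*} [NormedAddCommGroup E] [InnerProductSpace ℂ E]

/-- Near the character defined by `U` the functions `f_j` are, up to an arbitrarily small error,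
holomorphic functions of one and the same function `F`, which is bounded and holomorphic in a
neighbourhood of the character and arbitrary otherwise: for each `ε > 0` there are a neighbourhood
`D'` and functions `g_j`, holomorphic in a neighbourhood of the closure of `F (D')`, with
`|f_j - g_j (F)| ≤ ε` on `D'`. -/
def OneFunAt {N : ℕ} (A : Set (E → ℂ)) (U : Ultrafilter E) (f : Fin N → E → ℂ) : Prop :=
  ∃ (D : Set E) (F : E → ℂ) (R : ℝ), IsNhd A U D ∧ DifferentiableOn ℂ F D ∧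
    (∀ z ∈ D, ‖F z‖ ≤ R) ∧ ∀ ε : ℝ, 0 < ε → ∃ D' ⊆ D, IsNhd A U D' ∧
      ∃ (V : Set ℂ) (g : Fin N → ℂ → ℂ), IsOpen V ∧ closure (F '' D') ⊆ V ∧
        (∀ j, DifferentiableOn ℂ (g j) V) ∧ ∀ z ∈ D', ∀ j, ‖f j z - g j (F z)‖ ≤ ε

end Pool.Agent.Lib.MP_ca0fc2_an

namespace Pool.Agent.MPca0fc2.SP

open Pool.Agent.Lib.MP_ca0fc2_an

variable {E : Type*} [NormedAddCommGroup E] [InnerProductSpace ℂ E]

/-- the cluster set of `F` -/
def clus (A : Set (E → ℂ)) (U : Ultrafilter E) (D : Set E) (F : E → ℂ) : Set ℂ :=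
  {w | ∀ D', IsNhd A U D' → w ∈ closure (F '' (D' ∩ D))}

omit [InnerProductSpace ℂ E] in
theorem clus_sub {A : Set (E → ℂ)} {U : Ultrafilter E} {D : Set E} {F : E → ℂ} {R : ℝ}
    (hFR : ∀ z ∈ D, ‖F z‖ ≤ R) : clus A U D F ⊆ closedBall 0 R := by
  intro w hw
  have h := hw _ (nhd_ball A U)
  refine closure_minimal ?_ isClosed_closedBall h
  rintro _ ⟨z, hz, rfl⟩
  rw [mem_closedBall_zero_iff]
  exact hFR z hz.2

omit [InnerProductSpace ℂ E] in
theorem clus_closed (A : Set (E → ℂ)) (U : Ultrafilter E) (D : Set E) (F : E → ℂ) :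
    IsClosed (clus A U D F) := by
  have h : clus A U D F = ⋂ D' : {D' // IsNhd A U D'}, closure (F '' (D'.1 ∩ D)) := by
    ext w
    simp [clus]
  rw [h]
  exact isClosed_iInter fun _ => isClosed_closure

omit [InnerProductSpace ℂ E] in
/-- The images of small neighbourhoods are in a given neighbourhood of the cluster set. -/
theorem clus_nhd {A : Set (E → ℂ)} {U : Ultrafilter E} {D : Set E} (hD : IsNhd A U D) {F : E → ℂ}
    {R : ℝ} (hFR : ∀ z ∈ D, ‖F z‖ ≤ R) {V : Set ℂ} (hV : IsOpen V) (h : clus A U D F ⊆ V) :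
    ∃ D', IsNhd A U D' ∧ D' ⊆ D ∧ ∀ z ∈ D', F z ∈ V := by
  by_contra hcon
  push Not at hcon
  have hne : ∀ D' : {D' // IsNhd A U D'}, (closure (F '' (D'.1 ∩ D)) ∩ Vᶜ).Nonempty := by
    rintro ⟨D', hD'⟩
    obtain ⟨z, hz, hzV⟩ := hcon (D' ∩ D) (nhd_inter hD' hD) inter_subset_right
    exact ⟨F z, subset_closure ⟨z, hz, rfl⟩, hzV⟩
  have : Nonempty {D' // IsNhd A U D'} := ⟨⟨D, hD⟩⟩
  have h1 := IsCompact.nonempty_iInter_of_directed_nonempty_isCompact_isClosed
    (fun D' : {D' // IsNhd A U D'} => closure (F '' (D'.1 ∩ D)) ∩ Vᶜ) (by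
      rintro ⟨D₁, h₁⟩ ⟨D₂, h₂⟩
      refine ⟨⟨D₁ ∩ D₂, nhd_inter h₁ h₂⟩, ?_, ?_⟩
      · exact inter_subset_inter_left _ (closure_mono (image_mono
          (inter_subset_inter_left _ inter_subset_left)))
      · exact inter_subset_inter_left _ (closure_mono (image_mono
          (inter_subset_inter_left _ inter_subset_right)))) hne (by
      rintro ⟨D', hD'⟩
      refine IsCompact.of_isClosed_subset (isCompact_closedBall 0 R)
        (isClosed_closure.inter hV.isClosed_compl) ?_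
      refine inter_subset_left.trans (closure_minimal ?_ isClosed_closedBall)
      rintro _ ⟨z, hz, rfl⟩
      rw [mem_closedBall_zero_iff]
      exact hFR z hz.2) (fun _ => isClosed_closure.inter hV.isClosed_compl)
  obtain ⟨w, hw⟩ := h1
  rw [mem_iInter] at hw
  have h2 : w ∈ clus A U D F := fun D' hD' => (hw ⟨D', hD'⟩).1
  exact (hw ⟨D, hD⟩).2 (h h2)

omit [NormedAddCommGroup E] [InnerProductSpace ℂ E] in
/-- Passing to the closure. -/
theorem clos_bound {F : E → ℂ} {S : Set E} {w : ℂ} (hw : w ∈ closure (F '' S)) {ψ : ℂ → ℂ}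
    {V : Set ℂ} (hV : IsOpen V) (hwV : w ∈ V) (hψ : ContinuousOn ψ V) {b : ℝ}
    (h : ∀ z ∈ S, ‖ψ (F z)‖ ≤ b) : ‖ψ w‖ ≤ b := by
  have h1 : ContinuousAt ψ w := hψ.continuousAt (hV.mem_nhds hwV)
  have h2 := (h1.continuousWithinAt (s := F '' S)).mem_closure hw (t := closedBall 0 b) (by
    rintro _ ⟨z, hz, rfl⟩
    rw [mem_closedBall_zero_iff]
    exact h z hz)
  rw [isClosed_closedBall.closure_eq, mem_closedBall_zero_iff] at h2
  exact h2

theorem one_fun {A : Set (E → ℂ)} {U : Ultrafilter E} {N : ℕ} (f : Fin N → E → ℂ)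
    (hf : ∀ j, DifferentiableOn ℂ (f j) (ball 0 1)) {δ : ℝ} (hδ : 0 < δ)
    (hfδ : ∀ z ∈ ball (0 : E) 1, δ ≤ ∑ j, ‖f j z‖ ^ 2) (h : OneFunAt A U f) :
    ∃ D, IsNhd A U D ∧ ∃ C, SolvableOn f D C := by
  classical
  obtain ⟨D, F, R, hD, hF, hFR, happ⟩ := h
  obtain ⟨K, hK⟩ : ∃ K : Set ℂ, K = clus A U D F := ⟨_, rfl⟩
  have hKc : IsCompact K := by
    rw [hK]
    exact IsCompact.of_isClosed_subset (isCompact_closedBall 0 R) (clus_closed _ _ _ _)
      (clus_sub hFR)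
  have : CompactSpace K := isCompact_iff_compactSpace.mp hKc
  have hε : ∀ n : ℕ, (0 : ℝ) < 1 / (n + 1) := fun n => by positivity
  choose D' hD'D hD' V g hV hcl hg hfg using fun n : ℕ => happ (1 / (n + 1)) (hε n)
  have hKV : ∀ n, K ⊆ V n := by
    intro n w hw
    rw [hK] at hw
    refine hcl n (closure_mono (image_mono ?_) (hw _ (hD' n)))
    exact inter_subset_left
  obtain ⟨G, hG⟩ : ∃ G : ℕ → Fin N → C(K, ℂ), G = fun n j => resK K (g n j) (hKV n) (hg n j) :=
    ⟨_, rfl⟩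
  have hGv : ∀ n j (w : K), G n j w = g n j w := by
    intro n j w
    rw [hG]
    rfl
  have hGm : ∀ n j, G n j ∈ holAlg K := by
    intro n j
    rw [hG]
    exact resK_mem K _ (hV n) _ _
  have hGG : ∀ n m j, ‖G n j - G m j‖ ≤ 1 / (n + 1) + 1 / (m + 1) := by
    intro n m j
    rw [ContinuousMap.norm_le _ (by positivity)]
    intro w
    rw [ContinuousMap.sub_apply, hGv, hGv]
    have hw : (w : ℂ) ∈ closure (F '' ((D' n ∩ D' m) ∩ D)) := by
      have h0 : (w : ℂ) ∈ clus A U D F := hK ▸ w.2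
      exact h0 _ (nhd_inter (hD' n) (hD' m))
    refine clos_bound hw (ψ := fun w => g n j w - g m j w) ((hV n).inter (hV m))
      ⟨hKV n w.2, hKV m w.2⟩ (((hg n j).continuousOn.mono inter_subset_left).sub
        ((hg m j).continuousOn.mono inter_subset_right)) ?_
    rintro z ⟨⟨hz1, hz2⟩, -⟩
    have h1 := hfg n z hz1 j
    have h2 := hfg m z hz2 j
    calc ‖g n j (F z) - g m j (F z)‖ = ‖(f j z - g m j (F z)) - (f j z - g n j (F z))‖ := by
          congr 1; ring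
      _ ≤ ‖f j z - g m j (F z)‖ + ‖f j z - g n j (F z)‖ := norm_sub_le _ _
      _ ≤ _ := by linarith
  have hlim0 : Tendsto (fun n : ℕ => (1 : ℝ) / (n + 1)) atTop (𝓝 0) :=
    tendsto_one_div_add_atTop_nhds_zero_nat
  have hcau : ∀ j, CauchySeq fun n => G n j := by
    intro j
    rw [Metric.cauchySeq_iff]
    intro ε hε
    obtain ⟨n₀, hn₀⟩ := eventually_atTop.mp (hlim0.eventually (gt_mem_nhds (half_pos hε)))
    refine ⟨n₀, fun m hm n hn => ?_⟩
    rw [dist_eq_norm]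
    exact (hGG m n j).trans_lt (by linarith [hn₀ m hm, hn₀ n hn])
  choose φ hφ using fun j => cauchySeq_tendsto_of_complete (hcau j)
  have hφm : ∀ j, φ j ∈ (holAlg K).topologicalClosure := by
    intro j
    exact mem_closure_of_tendsto (hφ j) (Eventually.of_forall fun n => hGm n j)
  have hGφ : ∀ n j, ‖G n j - φ j‖ ≤ 1 / (n + 1) := by
    intro n j
    have h1 : Tendsto (fun m => ‖G n j - G m j‖) atTop (𝓝 ‖G n j - φ j‖) :=
      (tendsto_const_nhds.sub (hφ j)).norm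
    have h2 : Tendsto (fun m : ℕ => (1 : ℝ) / (n + 1) + 1 / (m + 1)) atTop
        (𝓝 (1 / (n + 1) + 0)) := tendsto_const_nhds.add hlim0
    rw [add_zero] at h2
    exact le_of_tendsto_of_tendsto' h1 h2 fun m => hGG n m j
  have hz : ∀ w : K, ∃ j, φ j w ≠ 0 := by
    intro w
    by_contra hcon
    push Not at hcon
    have key : ∀ n : ℕ, δ ≤ N * (3 * (1 / (n + 1))) ^ 2 := by
      intro n
      have h1 : ∀ j, ‖g n j w‖ ≤ 1 / (n + 1) := by
        intro j
        have h2 := ((G n j - φ j).norm_coe_le_norm w).trans (hGφ n j)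
        rwa [ContinuousMap.sub_apply, hcon j, sub_zero, hGv] at h2
      have hw : (w : ℂ) ∈ closure (F '' (D' n ∩ D)) := by
        have h0 : (w : ℂ) ∈ clus A U D F := hK ▸ w.2
        exact h0 _ (hD' n)
      have h2 : ∀ᶠ v in 𝓝 (w : ℂ), ∀ j, ‖g n j v - g n j w‖ < 1 / (n + 1) := by
        rw [eventually_all]
        intro j
        have h3 : ContinuousAt (g n j) w :=
          (hg n j).continuousOn.continuousAt ((hV n).mem_nhds (hKV n w.2))
        have h4 := (h3.tendsto.sub_const (g n j w)).norm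
        rw [sub_self, norm_zero] at h4
        exact h4.eventually (gt_mem_nhds (hε n))
      obtain ⟨v, hv, z, hz, rfl⟩ := mem_closure_iff_nhds.mp hw _ h2
      have h5 : ∀ j, ‖f j z‖ ≤ 3 * (1 / (n + 1)) := by
        intro j
        have h6 := hfg n z hz.1 j
        have h7 : ‖g n j (F z) - g n j w‖ < 1 / (n + 1) := hv j
        have h8 := h1 j
        calc ‖f j z‖ = ‖(f j z - g n j (F z)) + (g n j (F z) - g n j w) + g n j w‖ := by
              congr 1; ring
          _ ≤ ‖f j z - g n j (F z)‖ + ‖g n j (F z) - g n j w‖ + ‖g n j w‖ := norm_add₃_le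
          _ ≤ _ := by linarith
      have h6 := hfδ z (hD.1 hz.2)
      refine h6.trans ?_
      calc ∑ j, ‖f j z‖ ^ 2 ≤ ∑ _j : Fin N, (3 * (1 / ((n : ℝ) + 1))) ^ 2 :=
            Finset.sum_le_sum fun j _ => pow_le_pow_left₀ (norm_nonneg _) (h5 j) 2
        _ = _ := by rw [Finset.sum_const, nsmul_eq_mul, Finset.card_univ, Fintype.card_fin]
    have h1 : Tendsto (fun n : ℕ => (N : ℝ) * (3 * (1 / ((n : ℝ) + 1))) ^ 2) atTop
        (𝓝 ((N : ℝ) * (3 * 0) ^ 2)) := ((hlim0.const_mul 3).pow 2).const_mul _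
    have h2 := ge_of_tendsto' h1 key
    norm_num at h2
    linarith
  obtain ⟨ψ, hψ, hsum⟩ := planar_corona K φ hφm hz
  choose W H hW hKW hH hψH using hψ
  obtain ⟨B, hB0, hB⟩ : ∃ B : ℝ, 0 ≤ B ∧ ∀ j, ‖ψ j‖ ≤ B :=
    ⟨∑ j, ‖ψ j‖, Finset.sum_nonneg fun j _ => norm_nonneg _, fun j =>
      Finset.single_le_sum (f := fun j => ‖ψ j‖) (fun j _ => norm_nonneg _) (Finset.mem_univ j)⟩
  obtain ⟨n, hn⟩ : ∃ n : ℕ, (N : ℝ) * (B + 1) * (1 / (n + 1)) < 1 / 8 := by
    have h1 : Tendsto (fun n : ℕ => (N : ℝ) * (B + 1) * (1 / ((n : ℝ) + 1))) atTop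
        (𝓝 (N * (B + 1) * 0)) := hlim0.const_mul _
    rw [mul_zero] at h1
    exact (h1.eventually (gt_mem_nhds (by norm_num))).exists
  obtain ⟨W₀, hW₀⟩ : ∃ W₀ : Set ℂ, W₀ = V n ∩ ⋂ j, W j := ⟨_, rfl⟩
  have hW₀o : IsOpen W₀ := by
    rw [hW₀]
    exact (hV n).inter (isOpen_iInter_of_finite hW)
  have hKW₀ : K ⊆ W₀ := by
    rw [hW₀]
    exact subset_inter (hKV n) (subset_iInter hKW)
  have hgc : ∀ j, ContinuousOn (g n j) W₀ := fun j => (hg n j).continuousOn.mono (by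
    rw [hW₀]; exact inter_subset_left)
  have hHc : ∀ j, ContinuousOn (H j) W₀ := fun j => (hH j).continuousOn.mono (by
    rw [hW₀]; exact inter_subset_right.trans (iInter_subset _ j))
  have hN0 : (0 : ℝ) ≤ N := Nat.cast_nonneg _
  obtain ⟨V₁, hV₁⟩ : ∃ V₁ : Set ℂ, V₁ =
      (W₀ ∩ (fun w => ‖∑ j, g n j w * H j w - 1‖) ⁻¹' Iio (3 / 8)) ∩
        ⋂ j, (W₀ ∩ (fun w => ‖H j w‖) ⁻¹' Iio (B + 1)) := ⟨_, rfl⟩
  have hV₁o : IsOpen V₁ := by
    rw [hV₁]
    refine IsOpen.inter ?_ (isOpen_iInter_of_finite fun j => ?_)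
    · refine ContinuousOn.isOpen_inter_preimage ?_ hW₀o isOpen_Iio
      exact ((continuousOn_finsetSum _ fun j _ => (hgc j).mul (hHc j)).sub
        continuousOn_const).norm
    · exact (hHc j).norm.isOpen_inter_preimage hW₀o isOpen_Iio
  have hKV₁ : K ⊆ V₁ := by
    intro w hw
    have hψw : ∀ j, ‖H j w‖ ≤ B := by
      intro j
      have h1 := ((ψ j).norm_coe_le_norm ⟨w, hw⟩).trans (hB j)
      rwa [hψH j ⟨w, hw⟩] at h1
    rw [hV₁]
    refine ⟨⟨hKW₀ hw, ?_⟩, ?_⟩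
    · show ‖∑ j, g n j w * H j w - 1‖ < 3 / 8
      have h1 := hsum ⟨w, hw⟩
      simp only [hψH] at h1
      have h2 : ‖∑ j, g n j w * H j w - ∑ j, φ j ⟨w, hw⟩ * H j w‖ ≤ N * (B * (1 / (n + 1))) := by
        rw [← Finset.sum_sub_distrib]
        refine (norm_sum_le _ _).trans ?_
        calc ∑ j, ‖g n j w * H j w - φ j ⟨w, hw⟩ * H j w‖ ≤
            ∑ _j : Fin N, (B * (1 / ((n : ℝ) + 1))) := by
              refine Finset.sum_le_sum fun j _ => ?_
              rw [← sub_mul, norm_mul, mul_comm]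
              refine mul_le_mul (hψw j) ?_ (norm_nonneg _) hB0
              have h3 := ((G n j - φ j).norm_coe_le_norm ⟨w, hw⟩).trans (hGφ n j)
              rwa [ContinuousMap.sub_apply, hGv] at h3
          _ = _ := by rw [Finset.sum_const, nsmul_eq_mul, Finset.card_univ, Fintype.card_fin]
      have h3 : (N : ℝ) * (B * (1 / (n + 1))) ≤ N * (B + 1) * (1 / (n + 1)) := by
        have := (hε n).le
        nlinarith [mul_nonneg hN0 this]
      calc ‖∑ j, g n j w * H j w - 1‖ = ‖(∑ j, g n j w * H j w - ∑ j, φ j ⟨w, hw⟩ * H j w) +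
            (∑ j, φ j ⟨w, hw⟩ * H j w - 1)‖ := by congr 1; ring
        _ ≤ _ := norm_add_le _ _
        _ < 3 / 8 := by linarith
    · rw [mem_iInter]
      intro j
      refine ⟨hKW₀ hw, ?_⟩
      show ‖H j w‖ < B + 1
      linarith [hψw j]
  obtain ⟨D₁, hD₁, hD₁D, hD₁V⟩ := clus_nhd hD hFR hV₁o (by rw [← hK]; exact hKV₁)
  obtain ⟨D₂, hD₂⟩ : ∃ D₂ : Set E, D₂ = D₁ ∩ D' n := ⟨_, rfl⟩
  have hD₂n : IsNhd A U D₂ := by rw [hD₂]; exact nhd_inter hD₁ (hD' n)
  have hD₂D : D₂ ⊆ D := by rw [hD₂]; exact inter_subset_left.trans hD₁D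
  have hD₂V : ∀ z ∈ D₂, F z ∈ V₁ := fun z hz => hD₁V z (by rw [hD₂] at hz; exact hz.1)
  have hb : ∀ z ∈ D₂, ∀ j, ‖H j (F z)‖ ≤ B + 1 := by
    intro z hz j
    have h1 := hD₂V z hz
    rw [hV₁] at h1
    exact (mem_iInter.mp h1.2 j).2.le
  have hdH : ∀ j, DifferentiableOn ℂ (fun z => H j (F z)) D₂ := by
    intro j z hz
    have h1 := hD₂V z hz
    rw [hV₁] at h1
    have h2 : F z ∈ W j := by
      have h3 := h1.1.1
      rw [hW₀] at h3
      exact mem_iInter.mp h3.2 j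
    exact ((hH j).differentiableAt ((hW j).mem_nhds h2)).comp_differentiableWithinAt z
      ((hF z (hD₂D hz)).mono hD₂D)
  obtain ⟨s, hs⟩ : ∃ s : E → ℂ, s = fun z => ∑ j, f j z * H j (F z) := ⟨_, rfl⟩
  have hs1 : ∀ z ∈ D₂, ‖s z - 1‖ ≤ 1 / 2 := by
    intro z hz
    have h1 := hD₂V z hz
    rw [hV₁] at h1
    have h2 : ‖∑ j, g n j (F z) * H j (F z) - 1‖ < 3 / 8 := h1.1.2
    have h3 : ‖s z - ∑ j, g n j (F z) * H j (F z)‖ ≤ N * ((1 / (n + 1)) * (B + 1)) := by
      rw [hs]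
      simp only
      rw [← Finset.sum_sub_distrib]
      refine (norm_sum_le _ _).trans ?_
      calc ∑ j, ‖f j z * H j (F z) - g n j (F z) * H j (F z)‖ ≤
          ∑ _j : Fin N, ((1 / ((n : ℝ) + 1)) * (B + 1)) := by
            refine Finset.sum_le_sum fun j _ => ?_
            rw [← sub_mul, norm_mul]
            exact mul_le_mul (hfg n z (by rw [hD₂] at hz; exact hz.2) j) (hb z hz j)
              (norm_nonneg _) (hε n).le
        _ = _ := by rw [Finset.sum_const, nsmul_eq_mul, Finset.card_univ, Fintype.card_fin]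
    calc ‖s z - 1‖ = ‖(s z - ∑ j, g n j (F z) * H j (F z)) +
          (∑ j, g n j (F z) * H j (F z) - 1)‖ := by congr 1; ring
      _ ≤ _ := norm_add_le _ _
      _ ≤ 1 / 2 := by nlinarith
  have hs2 : ∀ z ∈ D₂, 1 / 2 ≤ ‖s z‖ := by
    intro z hz
    have h1 := hs1 z hz
    have h2 := norm_sub_norm_le (1 : ℂ) (1 - s z)
    rw [norm_one, sub_sub_cancel, norm_sub_rev] at h2
    linarith
  have hne : ∀ z ∈ D₂, s z ≠ 0 := fun z hz => norm_pos_iff.mp (by linarith [hs2 z hz])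
  have hsd : DifferentiableOn ℂ s D₂ := by
    rw [hs]
    apply DifferentiableOn.fun_sum
    intro j _
    exact ((hf j).mono (hD₂D.trans hD.1)).mul (hdH j)
  refine ⟨D₂, hD₂n, 2 * (B + 1), fun j z => H j (F z) / s z, fun j => ?_, ?_, ?_⟩
  · simp only [div_eq_mul_inv]
    exact (hdH j).mul (hsd.inv hne)
  · intro j z hz
    have h1 := hb z hz j
    have h2 := hs2 z hz
    rw [norm_div, div_le_iff₀ (by linarith)]
    nlinarith
  · intro z hz
    have h5 : ∑ j, f j z * (H j (F z) / s z) = s z / s z := by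
      conv_rhs => rw [hs]
      simp only
      rw [Finset.sum_div]
      refine Finset.sum_congr rfl fun j _ => ?_
      rw [hs]
      ring
    rw [h5, div_self (hne z hz)]

end Pool.Agent.MPca0fc2.SP
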