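import Mathlib
import Pool.Agent.Lib.MP_ca0fc2_an.SGCell
import Pool.Agent.Lib.MP_ca0fc2_an.SPOne
import Pool.Agent.Lib.MP_ca0fc2_an.CVSolve

/-! The corona problem is local over the spectrum of an algebra with `LocAlg`. -/

set_option autoImplicit false

open Metric Set Filter Topology MeasureTheory

namespace Pool.Agent.MPca0fc2.SG

open Pool.Agent.Lib.MP_ca0fc2_an
open Pool.Agent.MPca0fc2.SP

section

variable {E : Type*} [NormedAddCommGroup E] [InnerProductSpace ℂ E]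

theorem solv_mono {N : ℕ}
    {f : Fin N → E → ℂ} {D D' : Set E} {C C' : ℝ} (h : SolvableOn f D C) (hD : D' ⊆ D)
    (hC : C ≤ C') : SolvableOn f D' C' := by
  obtain ⟨h₁, h1, h2, h3⟩ := h
  exact ⟨h₁, fun j => (h1 j).mono hD, fun j z hz => (h2 j z (hD hz)).trans hC,
    fun z hz => h3 z (hD hz)⟩

/-- The corona problem is local over the spectrum of the algebra. -/
theorem spec_loc {A : Set (E → ℂ)} (hA : LocAlg A) {N : ℕ}
    (f : Fin N → E → ℂ) (hf : ∀ j, DifferentiableOn ℂ (f j) (ball 0 1))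
    (hb : ∀ j, ∃ M : ℝ, ∀ z ∈ ball (0 : E) 1, ‖f j z‖ ≤ M)
    (h : ∀ U : Ultrafilter E, ball 0 1 ∈ U → ∃ D, IsNhd A U D ∧ ∃ C, SolvableOn f D C) :
    ∃ C, SolvableOn f (ball 0 1) C := by
  classical
  obtain ⟨k, a, ε, Ds, ha, hε, hfin, hP, hcov⟩ := cover_of_nhds A
    (fun D => ∃ C, SolvableOn f D C) h
  choose! c hc using hP
  obtain ⟨C, hC⟩ : ∃ C : ℝ, ∀ D ∈ Ds, c D ≤ C := by
    obtain ⟨C, h⟩ := (hfin.image c).bddAbove
    exact ⟨C, fun D hD => h (mem_image_of_mem _ hD)⟩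
  refine hA.2 N k f a C ε hf hb ha hε fun b hb => ?_
  obtain ⟨D, hD, hDb⟩ := hcov b hb
  exact solv_mono (hc D hD) (fun z hz => hDb z hz.1 hz.2) (hC D hD)

/-- Data which are near each character nearly functions of one function. -/
theorem spec_one {A : Set (E → ℂ)} (hA : LocAlg A) {N : ℕ}
    (f : Fin N → E → ℂ) (hf : ∀ j, DifferentiableOn ℂ (f j) (ball 0 1))
    (hb : ∀ j, ∃ M : ℝ, ∀ z ∈ ball (0 : E) 1, ‖f j z‖ ≤ M) {δ : ℝ}
    (hδ : 0 < δ) (hfδ : ∀ z ∈ ball (0 : E) 1, δ ≤ ∑ j, ‖f j z‖ ^ 2)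
    (h : ∀ U : Ultrafilter E, ball 0 1 ∈ U → OneFunAt A U f) :
    ∃ C, SolvableOn f (ball 0 1) C :=
  spec_loc hA f hf hb fun U hU => one_fun f hf hδ hfδ (h U hU)

omit [InnerProductSpace ℂ E] in
theorem ultra_lim {U : Ultrafilter E} (hU : ball 0 1 ∈ U)
    {a : E → ℂ} {M : ℝ} (hM : ∀ z ∈ ball (0 : E) 1, ‖a z‖ ≤ M) :
    ∃ c, Tendsto a U (𝓝 c) := by
  have h1 : closedBall (0 : ℂ) M ∈ U.map a := by
    rw [Ultrafilter.mem_map]
    refine mem_of_superset hU fun z hz => ?_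
    rw [mem_preimage, mem_closedBall_zero_iff]
    exact hM z hz
  obtain ⟨c, -, hc⟩ := (isCompact_closedBall (0 : ℂ) M).ultrafilter_le_nhds (U.map a)
    (le_principal_iff.mpr h1)
  exact ⟨c, hc⟩

omit [InnerProductSpace ℂ E] in
theorem nhd_finset {A : Set (E → ℂ)} {U : Ultrafilter E}
    {ι : Type*} (s : Finset ι) (D : ι → Set E) (h : ∀ i ∈ s, IsNhd A U (D i)) :
    IsNhd A U (ball 0 1 ∩ ⋂ i ∈ s, D i) := by
  classical
  induction s using Finset.induction_on with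
  | empty => simpa using nhd_ball A U
  | insert i s _ ih =>
    rw [Finset.set_biInter_insert]
    have h1 := ih fun j hj => h j (Finset.mem_insert_of_mem hj)
    have h2 := nhd_inter (h i (Finset.mem_insert_self i s)) h1
    refine nhd_mono h2 ?_ inter_subset_left
    rintro z ⟨hz1, hz2, hz3⟩
    exact ⟨hz2, hz1, hz3⟩

end

variable {n : ℕ}

/-- The cluster value theorem over the spectrum of `A`. -/
theorem cluster_value {A : Set (EuclideanSpace ℂ (Fin n) → ℂ)} (hA : LocAlg A)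
    (m : Hinf n →ₐ[ℂ] ℂ) (F : Hinf n) :
    ∃ U : Ultrafilter (ball (0 : EuclideanSpace ℂ (Fin n)) 1), Tendsto F.1 U (𝓝 (m F)) ∧
      ∀ a : Hinf n, (∃ g ∈ A, ∀ z : ball (0 : EuclideanSpace ℂ (Fin n)) 1, a.1 z = g z) →
        Tendsto a.1 U (𝓝 (m a)) := by
  classical
  suffices hex : ∃ U : Ultrafilter (ball (0 : EuclideanSpace ℂ (Fin n)) 1),
      ∀ a ∈ insert F {a : Hinf n | ∃ g ∈ A, ∀ z : ball (0 : EuclideanSpace ℂ (Fin n)) 1,
        a.1 z = g z}, Tendsto a.1 U (𝓝 (m a)) by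
    obtain ⟨U, hU⟩ := hex
    exact ⟨U, hU F (mem_insert _ _), fun a ha => hU a (mem_insert_of_mem _ ha)⟩
  refine CV.cluster_gen (Hinf n) m _ fun s hs δ hδ hlow => ?_
  refine CV.solve_finset s (fun a => m a) ?_
  refine spec_one hA _ (fun j => (CV.ext_hol _).sub_const _) (fun j => ?_) hδ (fun z hz => ?_)
    fun U hU => ?_
  · obtain ⟨M, hM⟩ := CV.ext_bdd (s.equivFin.symm j).1
    exact ⟨M + ‖m (s.equivFin.symm j).1‖, fun z hz => (norm_sub_le _ _).trans
      (add_le_add (hM z hz) le_rfl)⟩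
  · refine (hlow ⟨z, hz⟩).trans (le_of_eq ?_)
    rw [← Finset.sum_attach, ← Equiv.sum_comp s.equivFin]
    refine Finset.sum_congr rfl fun a _ => ?_
    rw [Equiv.symm_apply_apply, CV.ext_eq a.1 ⟨z, hz⟩]
  · obtain ⟨R, hR⟩ := CV.ext_bdd F
    refine ⟨ball 0 1, CV.ext F, R, nhd_ball _ _, CV.ext_hol F, hR, fun ε hε => ?_⟩
    have key : ∀ j : Fin s.card, ∃ D, IsNhd A U D ∧ ∃ g : ℂ → ℂ, DifferentiableOn ℂ g univ ∧
        ∀ z ∈ D, ‖(CV.ext (s.equivFin.symm j).1 z - m (s.equivFin.symm j).1) -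
          g (CV.ext F z)‖ ≤ ε := by
      intro j
      obtain ⟨a, ha⟩ : ∃ a : Hinf n, a = (s.equivFin.symm j).1 := ⟨_, rfl⟩
      rw [← ha]
      have haS : a ∈ insert F {a | ∃ g ∈ A, ∀ z : ball (0 : EuclideanSpace ℂ (Fin n)) 1,
          a.1 z = g z} := by
        rw [ha]
        exact hs _ (s.equivFin.symm j).2
      rcases haS with haF | ⟨g, hg, hag⟩
      · refine ⟨ball 0 1, nhd_ball _ _, fun w => w - m a, ?_, fun z _ => ?_⟩
        · exact differentiableOn_id.sub_const _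
        · rw [haF, sub_self, norm_zero]
          exact hε.le
      · obtain ⟨M, hM⟩ := hA.1 g hg
        obtain ⟨c, hc⟩ := ultra_lim hU hM
        refine ⟨{z | z ∈ ball 0 1 ∧ ‖g z - c‖ < ε}, ⟨fun z hz => hz.1, 1, fun _ => g,
          fun _ => c, ε, hε, fun _ => ⟨hg, hc⟩, fun z hz h => ⟨hz, h 0⟩⟩, fun _ => c - m a,
          differentiableOn_const _, ?_⟩
        rintro z ⟨hz, hz2⟩
        have h1 : CV.ext a z = g z := by
          rw [CV.ext_eq a ⟨z, hz⟩]
          exact hag _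
        rw [h1, sub_sub_sub_cancel_right]
        exact hz2.le
    choose D hD g hg hgz using key
    refine ⟨ball 0 1 ∩ ⋂ j ∈ Finset.univ, D j, inter_subset_left,
      nhd_finset Finset.univ D fun j _ => hD j, univ, g, isOpen_univ,
      subset_univ _, hg, fun z hz j => hgz j z ?_⟩
    have h2 := hz.2
    simp only [mem_iInter] at h2
    exact h2 j (Finset.mem_univ j)

end Pool.Agent.MPca0fc2.SG
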