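import Mathlib
import Pool.Agent.Lib.MP_ca0fc2_an.CPGen
import Pool.Agent.Lib.MP_ca0fc2_an.SGMain

/-! Monotonicity of the classes of generators, uniformly in the functions. -/

set_option autoImplicit false

open Metric Set MeasureTheory Filter Topology
open scoped InnerProductSpace ENNReal

namespace Pool.Agent.MPca0fc2.CP

open Pool.Agent.MPca0fc2.PT
open Pool.Agent.Lib.MP_ca0fc2_an

theorem sm_mono {E G : Type*} [NormedAddCommGroup E] [InnerProductSpace ℂ E]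
    [NormedAddCommGroup G] [InnerProductSpace ℂ G] {L L' : ℝ} {Q : E → G} (h : SmoothMap L Q)
    (hL : L ≤ L') : SmoothMap L' Q := by
  obtain ⟨h1, h2, h3, h4, h5, h6⟩ := h
  refine ⟨h1.trans hL, h2, h3, h4.trans ?_, fun z hz => (h5 z hz).trans hL,
    fun z hz w hw => (h6 z hz w hw).trans (mul_le_mul_of_nonneg_right hL (norm_nonneg _))⟩
  have : 1 / L' ≤ 1 / L := one_div_le_one_div_of_le (by linarith) hL
  linarith

theorem sm_id {E : Type*} [NormedAddCommGroup E] [InnerProductSpace ℂ E] {L : ℝ} (hL : 1 ≤ L) :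
    SmoothMap L (id : E → E) := by
  refine ⟨hL, differentiableOn_id, fun z hz => hz, ?_, fun z _ => ?_, fun z _ w _ => ?_⟩
  · have : 1 / L ≤ 1 := by rw [div_le_one (by linarith)]; exact hL
    simp only [id, norm_zero]
    linarith
  · rw [fderiv_id]
    exact ContinuousLinearMap.norm_id_le.trans hL
  · rw [fderiv_id, fderiv_id, sub_self, norm_zero]
    exact mul_nonneg (by linarith) (norm_nonneg _)

variable {n : ℕ}

theorem pull_unif {p q K : ℝ} (hp : 1 ≤ p) (hpq : p ≤ q) :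
    ∃ B : ℝ, ∀ B' ≥ B, ∀ u : EuclideanSpace ℂ (Fin n) → ℂ, PullCarleson p K u →
      PullCarleson q B' u := by
  obtain ⟨R, hR⟩ : ∃ R, R = (2 * |K| ^ 2 + 1) ^ (q / p - 1) := ⟨_, rfl⟩
  have hR0 : 0 ≤ R := by rw [hR]; positivity
  refine ⟨max |K| (R * |K|), fun B' hB' u hu => ?_⟩
  have hB1 : |K| ≤ B' := (le_max_left _ _).trans hB'
  have hB2 : R * |K| ≤ B' := (le_max_right _ _).trans hB'
  have hKB : K ≤ B' := (le_abs_self K).trans hB1
  obtain ⟨h1, h2, k, Q, ν, hQ, hν, hg⟩ := hu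
  have hK1 := hQ.1
  have hK0 : 0 < K := by linarith
  rw [abs_of_pos hK0] at hR hB1 hB2
  refine ⟨h1, fun z hz => (h2 z hz).trans hKB, k, Q, ENNReal.ofReal R • ν, sm_mono hQ hKB,
    fun w hw => ?_, fun z hz => ?_⟩
  · rw [Measure.restrict_smul, lintegral_smul_measure, smul_eq_mul]
    refine (mul_le_mul_right (hν w hw) _).trans ?_
    rw [← ENNReal.ofReal_mul hR0]
    exact ENNReal.ofReal_le_ofReal hB2
  · have hz' := mem_ball_zero_iff.mp hz
    rw [Measure.restrict_smul, integral_smul_measure, ENNReal.toReal_ofReal hR0, smul_eq_mul]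
    have hc := CG.carl_of hν
    rw [max_eq_left hK0.le] at hc
    obtain ⟨e, he⟩ : ∃ e, e = ∫ ξ in ball (0 : EuclideanSpace ℂ (Fin k)) 1,
      invKer (Q z) ξ ^ 2 ∂ν := ⟨_, rfl⟩
    obtain ⟨F, hF⟩ : ∃ F, F = ((1 - ‖z‖ ^ 2) / (1 - ‖Q z‖ ^ 2)) ^ (1 / 4 : ℝ) := ⟨_, rfl⟩
    have h3 := hg z hz
    rw [← he, ← hF] at h3 ⊢
    have he0 : 0 ≤ e := by rw [he]; exact integral_nonneg fun _ => sq_nonneg _
    have heA : e ≤ K := by rw [he]; exact PT.EE_le hc (sm_lt hQ hz')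
    have hpos := sm_pos hQ hz'
    have hposz : 0 < 1 - ‖z‖ ^ 2 := by nlinarith [norm_nonneg z]
    have hF0 : 0 ≤ F := by rw [hF]; positivity
    have hFK : F ≤ 2 * K := by
      have h4 : (1 - ‖z‖ ^ 2) / (1 - ‖Q z‖ ^ 2) ≤ 2 * K := by
        rw [div_le_iff₀ hpos]
        exact sm_F hQ hz'
      rw [hF]
      calc ((1 - ‖z‖ ^ 2) / (1 - ‖Q z‖ ^ 2)) ^ (1 / 4 : ℝ) ≤ (2 * K) ^ (1 / 4 : ℝ) :=
            Real.rpow_le_rpow (by positivity) h4 (by norm_num)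
        _ ≤ (2 * K) ^ (1 : ℝ) :=
            Real.rpow_le_rpow_of_exponent_le (by linarith) (by norm_num)
        _ = _ := Real.rpow_one _
    obtain ⟨T, hT⟩ : ∃ T, T = F * e := ⟨_, rfl⟩
    have hT0 : 0 ≤ T := by rw [hT]; positivity
    have hTK : T ≤ 2 * K ^ 2 + 1 := by
      rw [hT]
      calc F * e ≤ 2 * K * K := by gcongr
        _ ≤ _ := by nlinarith
    rw [← hT] at h3
    have hIG : 0 ≤ invGrad2 u z := gd_IG_nonneg hz'
    have hq0 : 0 < q := by linarith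
    have hp0 : 0 < p := by linarith
    have hqp : 1 ≤ q / p := by rwa [one_le_div hp0]
    have h5 : invGrad2 u z ^ (q / 2) = (invGrad2 u z ^ (p / 2)) ^ (q / p) := by
      rw [← Real.rpow_mul hIG]
      congr 1
      field_simp
    have h6 : T ^ (q / p) ≤ R * T := by
      rcases hT0.eq_or_lt with h0 | h0
      · rw [← h0, Real.zero_rpow (by linarith), mul_zero]
      · have h7 : T ^ (q / p) = T ^ (q / p - 1) * T := by
          rw [← Real.rpow_add_one h0.ne']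
          congr 1; ring
        rw [h7, hR]
        gcongr
    rw [h5]
    refine (Real.rpow_le_rpow (Real.rpow_nonneg hIG _) h3 (by linarith)).trans (h6.trans ?_)
    rw [hT]
    exact le_of_eq (by ring)

theorem comp_mono {p q K : ℝ} (hp : 1 ≤ p) (hpq : p ≤ q) :
    ∃ B : ℝ, ∀ B' ≥ B, ∀ u : EuclideanSpace ℂ (Fin n) → ℂ, CompMult K p u →
      CompMult B' q u := by
  choose B hB using fun k : ℕ => UG.GradCarleson_unif (n := k) (A := K) hp hpq
  obtain ⟨s, hs⟩ : ∃ s : Finset ℕ, s = Finset.range (⌊K⌋₊ + 1) := ⟨_, rfl⟩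
  obtain ⟨B₀, hB₀⟩ : ∃ B₀, ∀ k ∈ s, B k ≤ B₀ := by
    obtain ⟨M, hM⟩ := (s.image B).exists_le
    exact ⟨M, fun k hk => hM _ (Finset.mem_image_of_mem _ hk)⟩
  refine ⟨max B₀ |K|, fun B' hB' u hu => ?_⟩
  have h1 : B₀ ≤ B' := (le_max_left _ _).trans hB'
  have h2 : |K| ≤ B' := (le_max_right _ _).trans hB'
  have h3 : K ≤ B' := (le_abs_self K).trans h2
  obtain ⟨k, Q, v, hk, hkK, hQ, hv, huv⟩ := hu
  have hks : k ∈ s := by
    rw [hs, Finset.mem_range]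
    have := Nat.le_floor hkK
    omega
  refine ⟨k, Q, v, hk, hkK.trans h3, sm_mono hQ h3, ?_, huv⟩
  rcases hv with h | h
  · exact Or.inl (UG.DAMultiplier_mono (e := EuclideanSpace.single (⟨0, hk⟩ : Fin k) (1 : ℂ))
      (by simp) h2 h)
  · exact Or.inr (hB k v h B' ((hB₀ k hks).trans h1))

/-- The generators, with larger parameters. -/
theorem Gen5_unif {p q K : ℝ} (hp : 1 ≤ p) (hpq : p ≤ q) :
    ∃ B : ℝ, ∀ B' ≥ B, ∀ (ω ω' : ℝ → ℝ), (∀ t, ω t ≤ ω' t) →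
      ∀ u : EuclideanSpace ℂ (Fin n) → ℂ, Gen5 K p ω u → Gen5 B' q ω' u := by
  obtain ⟨B₁, hB₁⟩ := pull_unif (n := n) (K := K) hp hpq
  obtain ⟨B₂, hB₂⟩ := comp_mono (n := n) (K := K) hp hpq
  refine ⟨max (max B₁ B₂) K, fun B' hB' ω ω' hω u hu => ?_⟩
  have h1 : B₁ ≤ B' := ((le_max_left _ _).trans (le_max_left _ _)).trans hB'
  have h2 : B₂ ≤ B' := ((le_max_right _ _).trans (le_max_left _ _)).trans hB'
  have h3 : K ≤ B' := (le_max_right _ _).trans hB'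
  rcases hu with h | h | ⟨ha, hb, hc⟩
  · exact Or.inl (hB₂ B' h2 u h)
  · exact Or.inr (Or.inl (hB₁ B' h1 u h))
  · exact Or.inr (Or.inr ⟨ha, fun z hz => (hb z hz).trans h3,
      fun z hz => (hc z hz).trans (hω _)⟩)

/-- multipliers are generators -/
theorem gen5_mult (hn : 1 ≤ n) {K K' p : ℝ} {ω : ℝ → ℝ} (h1 : 1 ≤ K') (h2 : (n : ℝ) ≤ K')
    (h3 : |K| ≤ K') {u : EuclideanSpace ℂ (Fin n) → ℂ} (hu : DAMultiplier K u) : Gen5 K' p ω u :=
  Or.inl ⟨n, id, u, hn, h2, sm_id h1, Or.inl (UG.DAMultiplier_mono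
    (e := EuclideanSpace.single (⟨0, hn⟩ : Fin n) (1 : ℂ)) (by simp) h3 hu), fun _ _ => rfl⟩

theorem gen5_hol {K p : ℝ} (hp : 1 ≤ p) {ω : ℝ → ℝ} {u : EuclideanSpace ℂ (Fin n) → ℂ}
    (hu : Gen5 K p ω u) : DifferentiableOn ℂ u (ball 0 1) := by
  obtain ⟨q, A, -, h⟩ := gen5_dom (n := n) K hp
  exact (h ω u hu).1

theorem gen5_bdd {K p : ℝ} (hp : 1 ≤ p) {ω : ℝ → ℝ} {u : EuclideanSpace ℂ (Fin n) → ℂ}
    (hu : Gen5 K p ω u) : ∃ A, ∀ z ∈ ball (0 : EuclideanSpace ℂ (Fin n)) 1, ‖u z‖ ≤ A := by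
  obtain ⟨q, A, -, h⟩ := gen5_dom (n := n) K hp
  exact ⟨A, (h ω u hu).2.1⟩

end Pool.Agent.MPca0fc2.CP
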