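import Mathlib
import Pool.Agent.Lib.MP_ca0fc2_an.CGInv
import Pool.Agent.Lib.MP_ca0fc2_an.Mg.G012

/-! Composition of multipliers of the Drury-Arveson space with automorphisms of the ball. -/

set_option autoImplicit false

open Metric Set Filter Topology
open scoped InnerProductSpace ComplexConjugate

namespace Pool.Agent.MPca0fc2.LT

open Pool.Agent.Lib.MP_ca0fc2_an
open Pool.Agent.MPca0fc2.PT

variable {E : Type*} [NormedAddCommGroup E] [InnerProductSpace ℂ E]

/-- Cartan's theorem for the ball: an automorphism that fixes the origin is linear and isometric. -/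
theorem aut_linear {V W : E → E} (hV : DifferentiableOn ℂ V (ball 0 1))
    (hW : DifferentiableOn ℂ W (ball 0 1))
    (hmV : ∀ z ∈ ball (0 : E) 1, V z ∈ ball (0 : E) 1)
    (hmW : ∀ z ∈ ball (0 : E) 1, W z ∈ ball (0 : E) 1)
    (hWV : ∀ z ∈ ball (0 : E) 1, W (V z) = z) (h0 : V 0 = 0) :
    ∃ L : E →ₗᵢ[ℂ] E, ∀ z ∈ ball (0 : E) 1, V z = L z := by
  have huc : UniformConvexSpace E := uniformConvex E
  have h0mem : (0 : E) ∈ ball (0 : E) 1 := mem_ball_self one_pos
  have hW0 : W 0 = 0 := by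
    have := hWV 0 h0mem
    rwa [h0] at this
  have hnorm : ∀ z ∈ ball (0 : E) 1, ‖V z‖ = ‖z‖ := by
    intro z hz
    apply le_antisymm (schwarz_ball hV hmV h0 hz)
    calc ‖z‖ = ‖W (V z)‖ := by rw [hWV z hz]
      _ ≤ ‖V z‖ := schwarz_ball hW hmW hW0 (hmV z hz)
  have hlin : ∀ z ∈ ball (0 : E) 1, V z = fderiv ℂ V 0 z := by
    intro z hz
    by_cases hz0 : z = 0
    · rw [hz0, h0, map_zero]
    obtain ⟨e, he, hze⟩ := exists_unit hz0
    have hpn : 0 < ‖z‖ := norm_pos_iff.mpr hz0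
    have hd : DifferentiableOn ℂ (fun t : ℂ => V (t • e)) (ball 0 1) :=
      hV.comp (differentiable_id.smul_const e).differentiableOn fun t ht => smul_mem_ball' he ht
    have hmaps : MapsTo (fun t : ℂ => V (t • e)) (ball 0 1)
        (closedBall ((fun t : ℂ => V (t • e)) 0) 1) := by
      intro t ht
      simp only [zero_smul, h0]
      exact ball_subset_closedBall (hmV _ (smul_mem_ball' he ht))
    have hzb : ((‖z‖ : ℂ)) ∈ ball (0 : ℂ) 1 := by
      rw [mem_ball_zero_iff] at *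
      rwa [Complex.norm_real, Real.norm_of_nonneg hpn.le]
    have hone : ‖dslope (fun t : ℂ => V (t • e)) 0 (‖z‖ : ℂ)‖ = 1 / 1 := by
      rw [dslope_of_ne _ (by exact_mod_cast hpn.ne'), slope, vsub_eq_sub, zero_smul, h0, sub_zero,
        sub_zero, ← hze, norm_smul, norm_inv, Complex.norm_real, Real.norm_of_nonneg hpn.le,
        hnorm z hz]
      field_simp
    have haff := Complex.affine_of_mapsTo_ball_of_norm_dslope_eq_div hd hmaps hzb hone
    set c : E := dslope (fun t : ℂ => V (t • e)) 0 (‖z‖ : ℂ) with hc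
    have haff' : ∀ t ∈ ball (0 : ℂ) 1, V (t • e) = t • c := by
      intro t ht
      have := haff ht
      simpa [h0] using this
    have h1 : HasDerivAt (fun t : ℂ => V (t • e)) (fderiv ℂ V 0 e) 0 := by
      have h2 : HasFDerivAt V (fderiv ℂ V 0) ((0 : ℂ) • e) := by
        rw [zero_smul]
        exact (hV.differentiableAt (isOpen_ball.mem_nhds h0mem)).hasFDerivAt
      have h3 : HasDerivAt (fun t : ℂ => t • e) e 0 := by
        simpa using (hasDerivAt_id (0 : ℂ)).smul_const e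
      exact h2.comp_hasDerivAt (0 : ℂ) h3
    have h2 : HasDerivAt (fun t : ℂ => V (t • e)) c 0 := by
      have h3 : HasDerivAt (fun t : ℂ => t • c) c 0 := by
        simpa using (hasDerivAt_id (0 : ℂ)).smul_const c
      apply h3.congr_of_eventuallyEq
      filter_upwards [isOpen_ball.mem_nhds (mem_ball_self (one_pos : (0 : ℝ) < 1))] with t ht
      exact haff' t ht
    have h3 : fderiv ℂ V 0 e = c := h1.unique h2
    calc V z = V ((‖z‖ : ℂ) • e) := by rw [← hze]
      _ = (‖z‖ : ℂ) • c := haff' _ hzb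
      _ = fderiv ℂ V 0 ((‖z‖ : ℂ) • e) := by rw [map_smul, h3]
      _ = fderiv ℂ V 0 z := by rw [← hze]
  have hiso : ∀ u : E, ‖fderiv ℂ V 0 u‖ = ‖u‖ := by
    intro u
    set s : ℝ := (2 * (‖u‖ + 1))⁻¹ with hs
    have hs0 : 0 < s := by positivity
    have hsu : (s : ℂ) • u ∈ ball (0 : E) 1 := by
      rw [mem_ball_zero_iff, norm_smul, Complex.norm_real, Real.norm_of_nonneg hs0.le, hs,
        inv_mul_lt_iff₀ (by positivity)]
      nlinarith [norm_nonneg u]
    have h1 := hnorm _ hsu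
    rw [hlin _ hsu, map_smul, norm_smul, norm_smul, Complex.norm_real,
      Real.norm_of_nonneg hs0.le] at h1
    exact mul_left_cancel₀ hs0.ne' h1
  exact ⟨⟨(fderiv ℂ V 0).toLinearMap, hiso⟩, hlin⟩

theorem DAMultiplier_congr {K : ℝ} {u v : E → ℂ} (h : DAMultiplier K u)
    (huv : ∀ z ∈ ball (0 : E) 1, v z = u z) : DAMultiplier K v := by
  refine ⟨h.1.congr huv, fun k z c hz => ?_⟩
  have h1 := h.2 k z c hz
  have key : ∀ i, v (z i) = u (z i) := fun i => huv _ (hz i)
  simp only [key]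
  exact h1

theorem DAMultiplier_isom {K : ℝ} {u : E → ℂ} (h : DAMultiplier K u) (L : E →ₗᵢ[ℂ] E) :
    DAMultiplier K fun z => u (L z) := by
  have hmap : ∀ z ∈ ball (0 : E) 1, L z ∈ ball (0 : E) 1 := by
    intro z hz
    rw [mem_ball_zero_iff] at *
    rwa [L.norm_map]
  refine ⟨h.1.comp L.toContinuousLinearMap.differentiable.differentiableOn hmap,
    fun k z c hz => ?_⟩
  have h1 := h.2 k (fun i => L (z i)) c fun i => hmap _ (hz i)
  simpa only [L.inner_map_map] using h1

/-- Multipliers composed with automorphisms of the ball. -/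
theorem DAMultiplier_aut {K : ℝ} {u : E → ℂ} (h : DAMultiplier K u) {φ ψ : E → E}
    (hφ : IsBallAut φ ψ) : DAMultiplier K fun z => u (φ z) := by
  have h0 : (0 : E) ∈ ball (0 : E) 1 := mem_ball_self one_pos
  obtain ⟨a, ha⟩ : ∃ a, a = ψ 0 := ⟨_, rfl⟩
  have hab : a ∈ ball (0 : E) 1 := by rw [ha]; exact hφ.map' 0 h0
  have ha1 : ‖a‖ < 1 := mem_ball_zero_iff.mp hab
  have ha1' : ‖-a‖ < 1 := by rwa [norm_neg]
  have hφa : φ a = 0 := by rw [ha]; exact hφ.right 0 h0
  obtain ⟨L, hL⟩ := aut_linear (V := fun x => φ (gg a x)) (W := fun x => gg (-a) (ψ x))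
    (hφ.hol.comp (CG.gg_holo ha1) fun z hz => CG.gg_maps ha1 hz)
    ((CG.gg_holo ha1').comp hφ.hol' fun z hz => hφ.map' z hz)
    (fun z hz => hφ.map _ (CG.gg_maps ha1 hz))
    (fun z hz => CG.gg_maps ha1' (hφ.map' z hz))
    (fun z hz => by
      rw [hφ.left _ (CG.gg_maps ha1 hz), gg_neg_gg ha1 (mem_ball_zero_iff.mp hz).le])
    (by rw [gg_zero, hφa])
  refine DAMultiplier_congr (DA.DAMultiplier_gg (DAMultiplier_isom h L) ha1') fun z hz => ?_
  have h1 := hL (gg (-a) z) (CG.gg_maps ha1' hz)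
  rw [CG.gg_gg_neg ha1 (mem_ball_zero_iff.mp hz).le] at h1
  rw [h1]

end Pool.Agent.MPca0fc2.LT
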