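import Mathlib
import Pool.Agent.Lib.MP_ca0fc2_an.LTDefs
import Pool.Agent.Lib.MP_ca0fc2_an.Mg.G130

/-! The cells of a complex line, in the coordinates in which the projection of one of their points
to the line is the origin. -/

set_option autoImplicit false

open Metric Set Filter Topology
open scoped InnerProductSpace ComplexConjugate

namespace Pool.Agent.MPca0fc2.LT

open Pool.Agent.Lib.MP_ca0fc2_an

variable {E : Type*} [NormedAddCommGroup E] [InnerProductSpace ℂ E]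

/-- the gradient bound of the class `LineTame` controls the variation on the cells -/
theorem line_var {K : ℝ} (hK : 0 < K) {e : E} (he : ‖e‖ = 1) {g : E → ℂ}
    (hg : DifferentiableOn ℂ g (ball 0 1))
    (hd : ∀ z ∈ ball (0 : E) 1, ∀ v : E, ‖fderiv ℂ g z v‖ ≤
      K * (‖⟪e, v⟫_ℂ‖ / (1 - ‖⟪e, z⟫_ℂ‖) + ‖v‖ / Real.sqrt (1 - ‖⟪e, z⟫_ℂ‖)))
    {η : ℝ} (hη0 : 0 < η) (hη : η ≤ 1 / 2) {x y : E} (hx : x ∈ ball (0 : E) 1)
    (hy : y ∈ ball (0 : E) 1) (h1 : ‖⟪e, y - x⟫_ℂ‖ < η * (1 - ‖⟪e, x⟫_ℂ‖))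
    (h2 : ‖y - x‖ ^ 2 < η * (1 - ‖⟪e, x⟫_ℂ‖)) :
    ‖g y - g x‖ ≤ 4 * K * Real.sqrt η := by
  obtain ⟨t, ht⟩ : ∃ t, t = 1 - ‖⟪e, x⟫_ℂ‖ := ⟨_, rfl⟩
  have hin : ∀ z ∈ ball (0 : E) 1, ‖⟪e, z⟫_ℂ‖ < 1 := by
    intro z hz
    rw [mem_ball_zero_iff] at hz
    calc ‖⟪e, z⟫_ℂ‖ ≤ ‖e‖ * ‖z‖ := norm_inner_le_norm _ _
      _ < 1 := by rw [he, one_mul]; exact hz
  have ht0 : 0 < t := by rw [ht]; linarith [hin x hx]
  rw [← ht] at h1 h2
  have hseg : ∀ s ∈ Icc (0 : ℝ) 1, x + s • (y - x) ∈ ball (0 : E) 1 := by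
    intro s hs
    have := (convex_ball (0 : E) 1).add_smul_sub_mem hx hy hs
    exact this
  have hder : ∀ s ∈ Icc (0 : ℝ) 1, HasDerivWithinAt (fun s : ℝ => g (x + s • (y - x)))
      (fderiv ℂ g (x + s • (y - x)) (y - x)) (Icc 0 1) s := by
    intro s hs
    have h3 : HasFDerivAt g (fderiv ℂ g (x + s • (y - x))) (x + s • (y - x)) :=
      ((hg _ (hseg s hs)).differentiableAt (isOpen_ball.mem_nhds (hseg s hs))).hasFDerivAt
    have h4 : HasDerivAt (fun s : ℝ => x + s • (y - x)) (y - x) s := by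
      have := ((hasDerivAt_id s).smul_const (y - x)).const_add x
      simpa using this
    exact ((h3.restrictScalars ℝ).comp_hasDerivAt s h4).hasDerivWithinAt
  have hsq0 : 0 < Real.sqrt η := Real.sqrt_pos.2 hη0
  have hsq : Real.sqrt η * Real.sqrt η = η := Real.mul_self_sqrt hη0.le
  have hsq1 : Real.sqrt η ≤ 1 := by
    rw [Real.sqrt_le_one]; linarith
  have hbd : ∀ s ∈ Ico (0 : ℝ) 1, ‖fderiv ℂ g (x + s • (y - x)) (y - x)‖ ≤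
      4 * K * Real.sqrt η := by
    intro s hs
    have hs' : s ∈ Icc (0 : ℝ) 1 := ⟨hs.1, hs.2.le⟩
    refine (hd _ (hseg s hs') _).trans ?_
    have h3 : t / 2 ≤ 1 - ‖⟪e, x + s • (y - x)⟫_ℂ‖ := by
      have h4 : ⟪e, x + s • (y - x)⟫_ℂ = ⟪e, x⟫_ℂ + (s : ℂ) * ⟪e, y - x⟫_ℂ := by
        rw [inner_add_right]
        congr 1
        have : s • (y - x) = (s : ℂ) • (y - x) := (Complex.coe_smul s (y - x)).symm
        rw [this, inner_smul_right]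
      have h5 : ‖⟪e, x + s • (y - x)⟫_ℂ‖ ≤ ‖⟪e, x⟫_ℂ‖ + η * t := by
        rw [h4]
        refine (norm_add_le _ _).trans ?_
        rw [norm_mul, Complex.norm_real, Real.norm_eq_abs, abs_of_nonneg hs.1]
        have h6 : s * ‖⟪e, y - x⟫_ℂ‖ ≤ 1 * (η * t) :=
          mul_le_mul hs'.2 h1.le (norm_nonneg _) zero_le_one
        linarith
      have h6 : η * t ≤ 1 / 2 * t := mul_le_mul_of_nonneg_right hη ht0.le
      have h7 : ‖⟪e, x⟫_ℂ‖ = 1 - t := by rw [ht]; ring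
      linarith
    have ht2 : 0 < t / 2 := by linarith
    have h4 : ‖⟪e, y - x⟫_ℂ‖ / (1 - ‖⟪e, x + s • (y - x)⟫_ℂ‖) ≤ 2 * Real.sqrt η := by
      rw [div_le_iff₀ (ht2.trans_le h3)]
      calc ‖⟪e, y - x⟫_ℂ‖ ≤ η * t := h1.le
        _ = 2 * (Real.sqrt η * Real.sqrt η) * (t / 2) := by rw [hsq]; ring
        _ ≤ 2 * (Real.sqrt η * 1) * (t / 2) := by gcongr
        _ ≤ 2 * Real.sqrt η * (1 - ‖⟪e, x + s • (y - x)⟫_ℂ‖) := by
          rw [mul_one]; gcongr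
    have h5 : ‖y - x‖ / Real.sqrt (1 - ‖⟪e, x + s • (y - x)⟫_ℂ‖) ≤ 2 * Real.sqrt η := by
      rw [div_le_iff₀ (Real.sqrt_pos.2 (ht2.trans_le h3))]
      apply le_of_sq_le_sq _ (by positivity)
      rw [mul_pow, mul_pow, Real.sq_sqrt hη0.le, Real.sq_sqrt (ht2.le.trans h3)]
      calc ‖y - x‖ ^ 2 ≤ η * t := h2.le
        _ = 2 * η * (t / 2) := by ring
        _ ≤ 2 ^ 2 * η * (t / 2) := by
          apply mul_le_mul_of_nonneg_right _ ht2.le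
          linarith
        _ ≤ _ := by gcongr
    calc _ ≤ K * (2 * Real.sqrt η + 2 * Real.sqrt η) := by gcongr
      _ = _ := by ring
  have := norm_image_sub_le_of_norm_deriv_le_segment_01' hder hbd
  simpa using this

theorem lineTame_diff {K : ℝ} {u : E → ℂ} (hu : LineTame K u) :
    DifferentiableOn ℂ u (ball 0 1) := by
  obtain ⟨e, φ, ψ, g, he, hφ, hg, hd, hug⟩ := hu
  exact (hg.comp hφ.hol hφ.map).congr hug

theorem lineTame_mono {K K' : ℝ} (hK : K ≤ K') {u : E → ℂ} (hu : LineTame K u) :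
    LineTame K' u := by
  obtain ⟨e, φ, ψ, g, he, hφ, hg, hd, hug⟩ := hu
  refine ⟨e, φ, ψ, g, he, hφ, hg, fun z hz v => (hd z hz v).trans ?_, hug⟩
  have h1 := norm_inner_lt he hz
  apply mul_le_mul_of_nonneg_right hK
  have h2 : 0 ≤ 1 - ‖⟪e, z⟫_ℂ‖ := by linarith
  positivity

/-- the coordinates at `b` along the line -/
noncomputable def chi (e : E) (S : E → E) (b z : E) : E := mob e (-⟪e, S b⟫_ℂ) (S z)

/-- a small ball in these coordinates is contained in the cell -/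
theorem mem_cell_of_chi {e : E} (he : ‖e‖ = 1) {S : E → E} {η σ : ℝ} (hσ : σ ≤ 1 / 13)
    (hη : 24 * σ < η) {b z : E} (hb : S b ∈ ball (0 : E) 1) (hz : S z ∈ ball (0 : E) 1)
    (h : ‖chi e S b z - chi e S b b‖ ≤ σ) : z ∈ lineCell e η S b := by
  obtain ⟨ζ, hζ⟩ : ∃ ζ, ζ = ⟪e, S b⟫_ℂ := ⟨_, rfl⟩
  have hζ1 : ‖ζ‖ < 1 := by rw [hζ]; exact norm_inner_lt he hb
  have hζ1' : ‖-ζ‖ < 1 := by rwa [norm_neg]
  obtain ⟨y, hy⟩ : ∃ y, y = mob e (-ζ) (S z) := ⟨_, rfl⟩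
  obtain ⟨x, hx⟩ : ∃ x, x = mob e (-ζ) (S b) := ⟨_, rfl⟩
  have h1 : ‖y - x‖ ≤ σ := by
    rw [hy, hx, hζ]
    exact h
  have hσ0 : 0 ≤ σ := (norm_nonneg _).trans h1
  have hyb : y ∈ ball (0 : E) 1 := by rw [hy]; exact mob_mem he hζ1' hz
  have hxb : x ∈ ball (0 : E) 1 := by rw [hx]; exact mob_mem he hζ1' hb
  have hSz : S z = mob e ζ y := by
    have := mob_inv he hζ1' hz
    rw [neg_neg] at this
    rw [hy, this]
  have hSb : S b = mob e ζ x := by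
    have := mob_inv he hζ1' hb
    rw [neg_neg] at this
    rw [hx, this]
  have hx0 : ⟪e, x⟫_ℂ = 0 := by
    rw [hx, inner_mob he, ← hζ, add_neg_cancel, zero_div]
  have hy0 : ‖⟪e, y⟫_ℂ‖ ≤ 1 / 2 := by
    have h2 : ⟪e, y⟫_ℂ = ⟪e, y - x⟫_ℂ := by rw [inner_sub_right, hx0, sub_zero]
    rw [h2]
    have := norm_inner_le he (y - x)
    linarith
  have hx0' : ‖⟪e, x⟫_ℂ‖ ≤ 1 / 2 := by rw [hx0, norm_zero]; norm_num
  have a1 := mob_inner_sub (ζ := ζ) he hζ1 hy0 hx0'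
  have a2 := mob_lip (ζ := ζ) he hζ1 hxb hy0 hx0'
  have a3 := mob_depth (ζ := ζ) he hζ1 hxb hx0'
  rw [← hSz, ← hSb] at a1 a2
  rw [← hSb] at a3
  have hs := sq_pos hζ1
  have hs2 : 0 < Pool.Agent.Lib.MP_ca0fc2_an.sq ζ ^ 2 := by positivity
  have hd : 0 < 1 - ‖⟪e, S b⟫_ℂ‖ := by linarith
  constructor
  · calc ‖⟪e, S z - S b⟫_ℂ‖ ≤ 4 * Pool.Agent.Lib.MP_ca0fc2_an.sq ζ ^ 2 * ‖y - x‖ := a1
      _ ≤ 4 * (6 * (1 - ‖⟪e, S b⟫_ℂ‖)) * σ := by gcongr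
      _ = 24 * σ * (1 - ‖⟪e, S b⟫_ℂ‖) := by ring
      _ < η * (1 - ‖⟪e, S b⟫_ℂ‖) := mul_lt_mul_of_pos_right hη hd
  · calc ‖S z - S b‖ ^ 2 ≤ 52 * Pool.Agent.Lib.MP_ca0fc2_an.sq ζ ^ 2 * ‖y - x‖ ^ 2 := a2
      _ ≤ 52 * (6 * (1 - ‖⟪e, S b⟫_ℂ‖)) * σ ^ 2 := by gcongr
      _ = 312 * σ ^ 2 * (1 - ‖⟪e, S b⟫_ℂ‖) := by ring
      _ ≤ 24 * σ * (1 - ‖⟪e, S b⟫_ℂ‖) := by
        apply mul_le_mul_of_nonneg_right _ hd.le
        nlinarith
      _ < η * (1 - ‖⟪e, S b⟫_ℂ‖) := mul_lt_mul_of_pos_right hη hd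

/-- A function which is tame with respect to a line varies little on the small balls in the
coordinates along the line. -/
theorem lineTame_var {K ε : ℝ} (hK : 0 < K) (hε : 0 < ε) :
    ∃ σ : ℝ, 0 < σ ∧ ∀ u : E → ℂ, LineTame K u → ∃ (e : E) (φ ψ : E → E), ‖e‖ = 1 ∧
      IsBallAut φ ψ ∧ ∀ b ∈ ball (0 : E) 1, ∀ z ∈ ball (0 : E) 1,
        ‖chi e φ b z - chi e φ b b‖ ≤ σ → ‖u z - u b‖ < ε := by
  obtain ⟨η, hη⟩ : ∃ η, η = min (1 / 2) ((ε / (8 * K)) ^ 2) := ⟨_, rfl⟩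
  have hη0 : 0 < η := by rw [hη]; positivity
  have hη2 : η ≤ 1 / 2 := by rw [hη]; exact min_le_left _ _
  have hη3 : η ≤ (ε / (8 * K)) ^ 2 := by rw [hη]; exact min_le_right _ _
  have hε' : 4 * K * Real.sqrt η < ε := by
    have h2 : Real.sqrt η ≤ ε / (8 * K) := by
      rw [← Real.sqrt_sq (by positivity : 0 ≤ ε / (8 * K))]
      exact Real.sqrt_le_sqrt hη3
    calc 4 * K * Real.sqrt η ≤ 4 * K * (ε / (8 * K)) := by gcongr
      _ = ε / 2 := by field_simp; norm_num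
      _ < ε := by linarith
  refine ⟨min (1 / 13) (η / 25), by positivity, fun u hu => ?_⟩
  obtain ⟨e, φ, ψ, g, he, hφ, hg, hd, hug⟩ := hu
  refine ⟨e, φ, ψ, he, hφ, fun b hb z hz h => ?_⟩
  have h1 : 24 * min (1 / 13) (η / 25) < η := by
    have := min_le_right (1 / 13 : ℝ) (η / 25)
    linarith
  have hc := mem_cell_of_chi he (min_le_left _ _) h1 (hφ.map b hb) (hφ.map z hz) h
  rw [hug z hz, hug b hb]
  exact (line_var hK he hg hd hη0 hη2 (hφ.map b hb) (hφ.map z hz) hc.1 hc.2).trans_lt hε'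

/-- The map `chi e φ b` is an automorphism of the ball. -/
theorem chi_aut {e : E} (he : ‖e‖ = 1) {φ ψ : E → E} (hφ : IsBallAut φ ψ) {b : E}
    (hb : b ∈ ball (0 : E) 1) :
    IsBallAut (chi e φ b) (fun z => ψ (mob e ⟪e, φ b⟫_ℂ z)) := by
  have hζ1 : ‖⟪e, φ b⟫_ℂ‖ < 1 := norm_inner_lt he (hφ.map b hb)
  have hζ1' : ‖-⟪e, φ b⟫_ℂ‖ < 1 := by rwa [norm_neg]
  refine ⟨(mob_diff he hζ1').comp hφ.hol hφ.map, hφ.hol'.comp (mob_diff he hζ1)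
    fun z hz => mob_mem he hζ1 hz, fun z hz => mob_mem he hζ1' (hφ.map z hz),
    fun z hz => hφ.map' _ (mob_mem he hζ1 hz), fun z hz => ?_, fun z hz => ?_⟩
  · have := mob_inv he hζ1' (hφ.map z hz)
    rw [neg_neg] at this
    show ψ (mob e ⟪e, φ b⟫_ℂ (mob e (-⟪e, φ b⟫_ℂ) (φ z))) = z
    rw [this, hφ.left z hz]
  · show mob e (-⟪e, φ b⟫_ℂ) (φ (ψ (mob e ⟪e, φ b⟫_ℂ z))) = z
    rw [hφ.right _ (mob_mem he hζ1 hz), mob_inv he hζ1 hz]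

end Pool.Agent.MPca0fc2.LT
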