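import Mathlib
import Pool.Agent.Lib.MP_ca0fc2_an.Mg.G130
import Pool.Agent.Lib.MP_ca0fc2_an.Defs

set_option autoImplicit false

open Metric Set
open scoped InnerProductSpace ComplexConjugate

namespace Pool.Agent.MPca0fc2.SK

open Pool.Agent.Lib.MP_ca0fc2_an

variable {E : Type*} [NormedAddCommGroup E] [InnerProductSpace ℂ E]

/-- An automorphism of the ball together with the two properties which are used: the behaviour of
`1 - ⟨z, w⟩` and the fact that complex lines are mapped to complex lines. -/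
structure GAut (T T' : E → E) : Prop where
  aut : IsBallAut T T'
  co : ∃ c : E → ℂ, ∀ z ∈ ball (0 : E) 1, ∀ w ∈ ball (0 : E) 1,
    1 - ⟪T z, T w⟫_ℂ = conj (c z) * c w * (1 - ⟪z, w⟫_ℂ)
  co' : ∃ c : E → ℂ, ∀ z ∈ ball (0 : E) 1, ∀ w ∈ ball (0 : E) 1,
    1 - ⟪T' z, T' w⟫_ℂ = conj (c z) * c w * (1 - ⟪z, w⟫_ℂ)
  line : ∀ z ∈ ball (0 : E) 1, ∀ w ∈ ball (0 : E) 1, ∀ s : ℂ, z + s • (w - z) ∈ ball (0 : E) 1 →
    ∃ s' : ℂ, T (z + s • (w - z)) = T z + s' • (T w - T z)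
  line' : ∀ z ∈ ball (0 : E) 1, ∀ w ∈ ball (0 : E) 1, ∀ s : ℂ, z + s • (w - z) ∈ ball (0 : E) 1 →
    ∃ s' : ℂ, T' (z + s • (w - z)) = T' z + s' • (T' w - T' z)

theorem GAut.symm {T T' : E → E} (h : GAut T T') : GAut T' T :=
  ⟨⟨h.aut.hol', h.aut.hol, h.aut.map', h.aut.map, h.aut.right, h.aut.left⟩, h.co', h.co, h.line',
    h.line⟩

theorem GAut.id : GAut (_root_.id : E → E) _root_.id :=
  ⟨⟨differentiableOn_id, differentiableOn_id, fun _ hz => hz, fun _ hz => hz, fun _ _ => rfl,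
    fun _ _ => rfl⟩, ⟨fun _ => 1, fun z _ w _ => by simp⟩, ⟨fun _ => 1, fun z _ w _ => by simp⟩,
    fun z _ w _ s _ => ⟨s, rfl⟩, fun z _ w _ s _ => ⟨s, rfl⟩⟩

theorem co_comp {T S T' : E → E} (hT : IsBallAut T T')
    (h1 : ∃ c : E → ℂ, ∀ z ∈ ball (0 : E) 1, ∀ w ∈ ball (0 : E) 1,
      1 - ⟪T z, T w⟫_ℂ = conj (c z) * c w * (1 - ⟪z, w⟫_ℂ))
    (h2 : ∃ c : E → ℂ, ∀ z ∈ ball (0 : E) 1, ∀ w ∈ ball (0 : E) 1,
      1 - ⟪S z, S w⟫_ℂ = conj (c z) * c w * (1 - ⟪z, w⟫_ℂ)) :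
    ∃ c : E → ℂ, ∀ z ∈ ball (0 : E) 1, ∀ w ∈ ball (0 : E) 1,
      1 - ⟪S (T z), S (T w)⟫_ℂ = conj (c z) * c w * (1 - ⟪z, w⟫_ℂ) := by
  obtain ⟨c, hc⟩ := h1
  obtain ⟨d, hd⟩ := h2
  refine ⟨fun z => d (T z) * c z, fun z hz w hw => ?_⟩
  rw [hd _ (hT.map z hz) _ (hT.map w hw), hc z hz w hw, map_mul]
  ring

theorem line_comp {T S T' : E → E} (hT : IsBallAut T T')
    (h1 : ∀ z ∈ ball (0 : E) 1, ∀ w ∈ ball (0 : E) 1, ∀ s : ℂ, z + s • (w - z) ∈ ball (0 : E) 1 →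
      ∃ s' : ℂ, T (z + s • (w - z)) = T z + s' • (T w - T z))
    (h2 : ∀ z ∈ ball (0 : E) 1, ∀ w ∈ ball (0 : E) 1, ∀ s : ℂ, z + s • (w - z) ∈ ball (0 : E) 1 →
      ∃ s' : ℂ, S (z + s • (w - z)) = S z + s' • (S w - S z)) :
    ∀ z ∈ ball (0 : E) 1, ∀ w ∈ ball (0 : E) 1, ∀ s : ℂ, z + s • (w - z) ∈ ball (0 : E) 1 →
      ∃ s' : ℂ, S (T (z + s • (w - z))) = S (T z) + s' • (S (T w) - S (T z)) := by
  intro z hz w hw s hs
  obtain ⟨s', hs'⟩ := h1 z hz w hw s hs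
  have h3 := hT.map _ hs
  rw [hs'] at h3
  obtain ⟨s'', hs''⟩ := h2 _ (hT.map z hz) _ (hT.map w hw) s' h3
  exact ⟨s'', by rw [hs', hs'']⟩

theorem GAut.comp {T T' S S' : E → E} (hT : GAut T T') (hS : GAut S S') :
    GAut (fun z => S (T z)) (fun z => T' (S' z)) := by
  refine ⟨⟨hS.aut.hol.comp hT.aut.hol hT.aut.map, hT.aut.hol'.comp hS.aut.hol' hS.aut.map',
    fun z hz => hS.aut.map _ (hT.aut.map z hz), fun z hz => hT.aut.map' _ (hS.aut.map' z hz),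
    fun z hz => by rw [hS.aut.left _ (hT.aut.map z hz), hT.aut.left z hz],
    fun z hz => by rw [hT.aut.right _ (hS.aut.map' z hz), hS.aut.right z hz]⟩, ?_, ?_, ?_, ?_⟩
  · exact co_comp hT.aut hT.co hS.co
  · exact co_comp hS.symm.aut hS.co' hT.co'
  · exact line_comp hT.aut hT.line hS.line
  · exact line_comp hS.symm.aut hS.line' hT.line'

theorem inner_dec {e : E} (he : ‖e‖ = 1) (z w : E) :
    ⟪z, w⟫_ℂ = conj ⟪e, z⟫_ℂ * ⟪e, w⟫_ℂ + ⟪prj e z, prj e w⟫_ℂ := by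
  have h0 : ⟪prj e z, e⟫_ℂ = 0 := by rw [← inner_conj_symm, inner_prj he, map_zero]
  conv_lhs => rw [← dec_eq (e := e) z, ← dec_eq (e := e) w]
  rw [inner_add_left, inner_add_right, inner_add_right, inner_smul_left, inner_smul_right,
    inner_self_one he, inner_smul_left, inner_smul_right, inner_prj he, h0]
  ring

theorem mob_co {e : E} (he : ‖e‖ = 1) {ζ : ℂ} (hζ : ‖ζ‖ < 1) :
    ∃ c : E → ℂ, ∀ z ∈ ball (0 : E) 1, ∀ w ∈ ball (0 : E) 1,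
      1 - ⟪mob e ζ z, mob e ζ w⟫_ℂ = conj (c z) * c w * (1 - ⟪z, w⟫_ℂ) := by
  refine ⟨fun z => (sq ζ : ℂ) / (1 + conj ζ * ⟪e, z⟫_ℂ), fun z hz w hw => ?_⟩
  have hz1 := den_ne hζ (norm_inner_lt he hz)
  have hw1 := den_ne hζ (norm_inner_lt he hw)
  have hz2 : conj (1 + conj ζ * ⟪e, z⟫_ℂ) ≠ 0 := by
    rw [Ne, map_eq_zero]; exact hz1
  have hsq : (sq ζ : ℂ) * (sq ζ : ℂ) = 1 - conj ζ * ζ := by
    have := sq_sq hζ
    rw [pow_two] at this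
    rw [Complex.conj_mul']
    exact_mod_cast this
  rw [inner_dec he (mob e ζ z) (mob e ζ w), inner_dec he z w, inner_mob he, inner_mob he,
    prj_mob he, prj_mob he, inner_smul_left, inner_smul_right]
  simp only [map_div₀, Complex.conj_ofReal]
  simp only [map_add, map_mul, map_one, Complex.conj_conj] at hz2 ⊢
  obtain ⟨q, hq⟩ : ∃ q, q = ⟪prj e z, prj e w⟫_ℂ := ⟨_, rfl⟩
  obtain ⟨x, hx⟩ : ∃ x, x = conj ⟪e, z⟫_ℂ := ⟨_, rfl⟩
  obtain ⟨y, hy⟩ : ∃ y, y = ⟪e, w⟫_ℂ := ⟨_, rfl⟩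
  obtain ⟨t, ht⟩ : ∃ t, t = conj ζ := ⟨_, rfl⟩
  rw [← hq, ← hx, ← hy, ← ht]
  rw [← hx] at hz2
  rw [← hy, ← ht] at hw1
  rw [← ht] at hsq
  obtain ⟨A, hA⟩ : ∃ A, A = 1 + ζ * x := ⟨_, rfl⟩
  obtain ⟨B, hB⟩ : ∃ B, B = 1 + t * y := ⟨_, rfl⟩
  obtain ⟨S, hS⟩ : ∃ S : ℂ, S = (sq ζ : ℂ) := ⟨_, rfl⟩
  rw [← hA, ← hB, ← hS]
  rw [← hA] at hz2
  rw [← hB] at hw1
  rw [← hS] at hsq
  field_simp
  rw [hA, hB]
  linear_combination (-(1 - x * y)) * hsq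

theorem mob_line {e : E} (he : ‖e‖ = 1) {ζ : ℂ} (hζ : ‖ζ‖ < 1) :
    ∀ z ∈ ball (0 : E) 1, ∀ w ∈ ball (0 : E) 1, ∀ s : ℂ, z + s • (w - z) ∈ ball (0 : E) 1 →
    ∃ s' : ℂ, mob e ζ (z + s • (w - z)) = mob e ζ z + s' • (mob e ζ w - mob e ζ z) := by
  intro z hz w hw s hs
  obtain ⟨d, hd⟩ : ∃ d : E → ℂ, d = fun z => 1 + conj ζ * ⟪e, z⟫_ℂ := ⟨_, rfl⟩
  obtain ⟨L, hL⟩ : ∃ L : E → E, L = fun x => (⟪e, x⟫_ℂ + ζ) • e + (sq ζ : ℂ) • prj e x := ⟨_, rfl⟩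
  have hm : ∀ x, mob e ζ x = (d x)⁻¹ • L x := fun x => by rw [hd, hL]; rfl
  have hdz : d z ≠ 0 := by rw [hd]; exact den_ne hζ (norm_inner_lt he hz)
  have hdw : d w ≠ 0 := by rw [hd]; exact den_ne hζ (norm_inner_lt he hw)
  have hds : d (z + s • (w - z)) ≠ 0 := by rw [hd]; exact den_ne hζ (norm_inner_lt he hs)
  have hd1 : d (z + s • (w - z)) = (1 - s) * d z + s * d w := by
    rw [hd]
    simp only [inner_add_right, inner_smul_right, inner_sub_right]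
    ring
  have hL1 : L (z + s • (w - z)) = (1 - s) • L z + s • L w := by
    rw [hL]
    simp only [inner_add_right, inner_smul_right, inner_sub_right, map_add, map_smul, map_sub]
    module
  refine ⟨s * d w / d (z + s • (w - z)), ?_⟩
  rw [hm, hm, hm, hL1]
  have e1 : (1 - s) • L z = ((1 - s) * d z) • ((d z)⁻¹ • L z) := by
    rw [smul_smul, mul_assoc, mul_inv_cancel₀ hdz, mul_one]
  have e2 : s • L w = (s * d w) • ((d w)⁻¹ • L w) := by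
    rw [smul_smul, mul_assoc, mul_inv_cancel₀ hdw, mul_one]
  rw [e1, e2]
  have e3 : (1 - s) * d z = d (z + s • (w - z)) - s * d w := by rw [hd1]; ring
  rw [e3]
  obtain ⟨A, hA⟩ : ∃ A, A = (d z)⁻¹ • L z := ⟨_, rfl⟩
  obtain ⟨B, hB⟩ : ∃ B, B = (d w)⁻¹ • L w := ⟨_, rfl⟩
  obtain ⟨D, hD⟩ : ∃ D, D = d (z + s • (w - z)) := ⟨_, rfl⟩
  rw [← hA, ← hB, ← hD]
  rw [← hD] at hds
  have e4 : D⁻¹ • D • A = A := by rw [smul_smul, inv_mul_cancel₀ hds, one_smul]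
  calc D⁻¹ • ((D - s * d w) • A + (s * d w) • B) =
        D⁻¹ • D • A + (s * d w / D) • (B - A) := by
        rw [div_eq_inv_mul]
        module
    _ = A + (s * d w / D) • (B - A) := by rw [e4]

theorem GAut.mob {e : E} (he : ‖e‖ = 1) {ζ : ℂ} (hζ : ‖ζ‖ < 1) :
    GAut (mob e ζ) (mob e (-ζ)) := by
  have hζ' : ‖-ζ‖ < 1 := by rwa [norm_neg]
  exact ⟨⟨mob_diff he hζ, mob_diff he hζ', fun z hz => mob_mem he hζ hz,
    fun z hz => mob_mem he hζ' hz, fun z hz => mob_inv he hζ hz, fun z hz => mob_inv' he hζ hz⟩,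
    mob_co he hζ, mob_co he hζ', mob_line he hζ, mob_line he hζ'⟩

theorem zero_mem : (0 : E) ∈ ball (0 : E) 1 := mem_ball_self one_pos

/-- There is an automorphism which moves a given point to the origin. -/
theorem exists_gaut {a : E} (ha : a ∈ ball (0 : E) 1) : ∃ T T' : E → E, GAut T T' ∧ T a = 0 ∧
    T' 0 = a := by
  by_cases h0 : a = 0
  · exact ⟨_root_.id, _root_.id, GAut.id, h0, h0.symm⟩
  · obtain ⟨e, he, hae⟩ := exists_unit h0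
    have h1 : ‖(‖a‖ : ℂ)‖ < 1 := by
      rw [Complex.norm_real, norm_norm]; exact mem_ball_zero_iff.mp ha
    have h2 : mob e (‖a‖ : ℂ) 0 = a := by rw [mob_zero, ← hae]
    refine ⟨mob e (-(‖a‖ : ℂ)), mob e (‖a‖ : ℂ), ?_, ?_, h2⟩
    · exact (GAut.mob he h1).symm
    · have h3 := mob_inv he h1 (zero_mem (E := E))
      rwa [h2] at h3

theorem one_sub_ne {z w : E} (hz : z ∈ ball (0 : E) 1) (hw : w ∈ ball (0 : E) 1) :
    1 - ⟪z, w⟫_ℂ ≠ 0 := by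
  intro h
  rw [mem_ball_zero_iff] at hz hw
  have h1 : ‖⟪z, w⟫_ℂ‖ = 1 := by rw [← sub_eq_zero.mp h, norm_one]
  have h2 := norm_inner_le_norm (𝕜 := ℂ) z w
  nlinarith [norm_nonneg z, norm_nonneg w]

/-- Invariance of the cross ratio. -/
theorem GAut.cross {T T' : E → E} (h : GAut T T') {z w a b : E} (hz : z ∈ ball (0 : E) 1)
    (hw : w ∈ ball (0 : E) 1) (ha : a ∈ ball (0 : E) 1) (hb : b ∈ ball (0 : E) 1) :
    (1 - ⟪T z, T a⟫_ℂ) * (1 - ⟪T w, T b⟫_ℂ) * ((1 - ⟪z, b⟫_ℂ) * (1 - ⟪w, a⟫_ℂ)) =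
      (1 - ⟪z, a⟫_ℂ) * (1 - ⟪w, b⟫_ℂ) * ((1 - ⟪T z, T b⟫_ℂ) * (1 - ⟪T w, T a⟫_ℂ)) := by
  obtain ⟨c, hc⟩ := h.co
  rw [hc z hz a ha, hc w hw b hb, hc z hz b hb, hc w hw a ha]
  ring

/-- `1 - |φ_a (z)|²` -/
noncomputable def sg (z a : E) : ℝ := (1 - ‖z‖ ^ 2) * (1 - ‖a‖ ^ 2) / ‖1 - ⟪z, a⟫_ℂ‖ ^ 2

theorem inner_self_ball (z : E) : ⟪z, z⟫_ℂ = (‖z‖ : ℂ) ^ 2 := by
  rw [inner_self_eq_norm_sq_to_K]; rfl

theorem sq_lt_one {z : E} (hz : z ∈ ball (0 : E) 1) : 0 < 1 - ‖z‖ ^ 2 := by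
  rw [mem_ball_zero_iff] at hz
  nlinarith [norm_nonneg z]

theorem GAut.sg {T T' : E → E} (h : GAut T T') {z a : E} (hz : z ∈ ball (0 : E) 1)
    (ha : a ∈ ball (0 : E) 1) : sg (T z) (T a) = sg z a := by
  obtain ⟨c, hc⟩ := h.co
  have h1 := hc z hz z hz
  have h2 := hc a ha a ha
  have h3 := hc z hz a ha
  rw [inner_self_ball, inner_self_ball, Complex.conj_mul'] at h1 h2
  have h1' : 1 - ‖T z‖ ^ 2 = ‖c z‖ ^ 2 * (1 - ‖z‖ ^ 2) := by exact_mod_cast h1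
  have h2' : 1 - ‖T a‖ ^ 2 = ‖c a‖ ^ 2 * (1 - ‖a‖ ^ 2) := by exact_mod_cast h2
  have hcz : ‖c z‖ ≠ 0 := by
    intro h0
    rw [h0] at h1'
    have := sq_lt_one (h.aut.map z hz)
    linarith [sq_nonneg ‖z‖]
  have hca : ‖c a‖ ≠ 0 := by
    intro h0
    rw [h0] at h2'
    have := sq_lt_one (h.aut.map a ha)
    linarith [sq_nonneg ‖a‖]
  have h4 : ‖1 - ⟪z, a⟫_ℂ‖ ≠ 0 := norm_ne_zero_iff.mpr (one_sub_ne hz ha)
  rw [SK.sg, SK.sg, h1', h2', h3, norm_mul, norm_mul, RCLike.norm_conj]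
  field_simp

theorem sg_zero (z : E) : sg z 0 = 1 - ‖z‖ ^ 2 := by
  simp [sg]

theorem sg_comm (z a : E) : sg z a = sg a z := by
  rw [sg, sg, ← inner_conj_symm, ← map_one (starRingEnd ℂ), ← map_sub, RCLike.norm_conj]
  rw [mul_comm (1 - ‖z‖ ^ 2), map_one]

/-- The value for an arbitrary automorphism. -/
theorem sg_of_aut {φ ψ : E → E} (h : IsBallAut φ ψ) {z a : E} (hφ : φ 0 = z)
    (ha : a ∈ ball (0 : E) 1) : 1 - ‖ψ a‖ ^ 2 = sg z a := by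
  have hz : z ∈ ball (0 : E) 1 := by rw [← hφ]; exact h.map 0 zero_mem
  obtain ⟨S, S', hS, hSz, hS0⟩ := exists_gaut hz
  have hψ0 : ψ z = 0 := by rw [← hφ]; exact h.left 0 zero_mem
  have h1 : ‖ψ a‖ = ‖S a‖ := by
    apply le_antisymm
    · have h2 := schwarz_ball (V := fun w => ψ (S' w))
        (h.hol'.comp hS.aut.hol' hS.aut.map') (fun w hw => h.map' _ (hS.aut.map' w hw))
        (by rw [hS0, hψ0]) (hS.aut.map a ha)
      rwa [hS.aut.left a ha] at h2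
    · have h2 := schwarz_ball (V := fun w => S (φ w))
        (hS.aut.hol.comp h.hol h.map) (fun w hw => hS.aut.map _ (h.map w hw))
        (by rw [hφ, hSz]) (h.map' a ha)
      rwa [h.right a ha] at h2
  rw [h1, ← sg_zero (S a), ← hS.sg hz ha, hSz, sg_comm]

/-- An automorphism which fixes the origin preserves the inner product. -/
theorem aut_inner {V W : E → E} (h : IsBallAut V W) (h0 : V 0 = 0) {z w : E}
    (hz : z ∈ ball (0 : E) 1) (hw : w ∈ ball (0 : E) 1) : ⟪V z, V w⟫_ℂ = ⟪z, w⟫_ℂ := by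
  have hiso : ∀ z ∈ ball (0 : E) 1, ∀ w ∈ ball (0 : E) 1, ‖V z - V w‖ = ‖z - w‖ :=
    fun z hz w hw => aut_isometry h.hol h.hol' h.map h.map' h.left h0 hz hw
  have hn : ∀ z ∈ ball (0 : E) 1, ‖V z‖ = ‖z‖ := by
    intro z hz
    have := hiso z hz 0 zero_mem
    rwa [h0, sub_zero, sub_zero] at this
  have hre : ∀ w ∈ ball (0 : E) 1, (⟪V z, V w⟫_ℂ - ⟪z, w⟫_ℂ).re = 0 := by
    intro w hw
    have h1 := norm_sub_sq (𝕜 := ℂ) (V z) (V w)
    have h2 := norm_sub_sq (𝕜 := ℂ) z w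
    rw [hiso z hz w hw, h2, hn z hz, hn w hw] at h1
    have h3 : RCLike.re ⟪V z, V w⟫_ℂ = (⟪V z, V w⟫_ℂ).re := rfl
    have h4 : RCLike.re ⟪z, w⟫_ℂ = (⟪z, w⟫_ℂ).re := rfl
    rw [h3, h4] at h1
    rw [Complex.sub_re]
    linarith
  obtain ⟨H, hH⟩ : ∃ H : E → ℂ, H = fun w => ⟪V z, V w⟫_ℂ - ⟪z, w⟫_ℂ := ⟨_, rfl⟩
  have hHd : DifferentiableOn ℂ H (ball 0 1) := by
    rw [hH]
    apply DifferentiableOn.sub
    · exact (innerSL ℂ (V z)).differentiable.comp_differentiableOn h.hol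
    · exact (innerSL ℂ z).differentiable.differentiableOn
  have hHre : ∀ w ∈ ball (0 : E) 1, (H w).re = 0 := by rw [hH]; exact hre
  have hge : ∀ w ∈ ball (0 : E) 1, 1 ≤ ‖1 - H w‖ := by
    intro w hw
    have h1 := Complex.abs_re_le_norm (1 - H w)
    rw [Complex.sub_re, hHre w hw, Complex.one_re, sub_zero, abs_one] at h1
    exact h1
  have hne : ∀ w ∈ ball (0 : E) 1, 1 - H w ≠ 0 := fun w hw =>
    norm_pos_iff.mp (one_pos.trans_le (hge w hw))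
  have hH0 : H 0 = 0 := by rw [hH]; simp [h0]
  have hmax : IsMaxOn (norm ∘ fun w => (1 - H w)⁻¹) (ball (0 : E) 1) 0 := by
    intro w hw
    simp only [mem_ofPred_eq, Function.comp_apply, hH0, sub_zero, inv_one, norm_one, norm_inv]
    exact inv_le_one_of_one_le₀ (hge w hw)
  have huniq := Complex.eqOn_of_isPreconnected_of_isMaxOn_norm
    (convex_ball (0 : E) 1).isPreconnected isOpen_ball
    ((hHd.const_sub 1).inv hne) zero_mem hmax hw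
  simp only [Function.const_apply, Pi.inv_apply, hH0, sub_zero, inv_one] at huniq
  have h1 : H w = 0 := by
    have h2 : 1 - H w = 1 := by rw [← inv_inv (1 - H w), huniq, inv_one]
    linear_combination -h2
  rw [hH] at h1
  exact sub_eq_zero.mp h1

theorem fix_line {V W : E → E} (h : IsBallAut V W) (h0 : V 0 = 0) : ∀ z ∈ ball (0 : E) 1,
    ∀ w ∈ ball (0 : E) 1, ∀ s : ℂ, z + s • (w - z) ∈ ball (0 : E) 1 →
    ∃ s' : ℂ, V (z + s • (w - z)) = V z + s' • (V w - V z) := by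
  intro z hz w hw s hs
  refine ⟨s, ?_⟩
  obtain ⟨y, hy⟩ : ∃ y, y = z + s • (w - z) := ⟨_, rfl⟩
  rw [← hy] at hs ⊢
  have hin := fun {a b : E} (ha : a ∈ ball (0 : E) 1) (hb : b ∈ ball (0 : E) 1) =>
    aut_inner h h0 ha hb
  rw [← sub_eq_zero, ← inner_self_eq_zero (𝕜 := ℂ)]
  have e1 : ⟪V y - (V z + s • (V w - V z)), V y - (V z + s • (V w - V z))⟫_ℂ =
      ⟪y - (z + s • (w - z)), y - (z + s • (w - z))⟫_ℂ := by
    simp only [inner_sub_left, inner_sub_right, inner_add_left, inner_add_right,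
      inner_smul_left, inner_smul_right, hin hs hs, hin hs hz, hin hs hw, hin hz hs, hin hz hz,
      hin hz hw, hin hw hs, hin hw hz, hin hw hw]
  rw [e1, ← hy, sub_self, inner_zero_left]

/-- Every automorphism of the ball has the two properties. -/
theorem gaut_of_aut {φ ψ : E → E} (h : IsBallAut φ ψ) : GAut φ ψ := by
  have ha : ψ 0 ∈ ball (0 : E) 1 := h.map' 0 zero_mem
  obtain ⟨S, S', hS, hSa, hS0⟩ := exists_gaut ha
  have hV : IsBallAut (fun z => φ (S' z)) (fun z => S (ψ z)) :=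
    ⟨h.hol.comp hS.aut.hol' hS.aut.map', hS.aut.hol.comp h.hol' h.map',
      fun z hz => h.map _ (hS.aut.map' z hz), fun z hz => hS.aut.map _ (h.map' z hz),
      fun z hz => by rw [h.left _ (hS.aut.map' z hz), hS.aut.right z hz],
      fun z hz => by rw [hS.aut.left _ (h.map' z hz), h.right z hz]⟩
  have hV0 : (fun z => φ (S' z)) 0 = 0 := by
    simp only; rw [hS0]; exact h.right 0 zero_mem
  have hW0 : (fun z => S (ψ z)) 0 = 0 := hSa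
  have hVs : IsBallAut (fun z => S (ψ z)) (fun z => φ (S' z)) :=
    ⟨hV.hol', hV.hol, hV.map', hV.map, hV.right, hV.left⟩
  have hG : GAut (fun z => φ (S' z)) (fun z => S (ψ z)) :=
    ⟨hV, ⟨fun _ => 1, fun z hz w hw => by
      rw [aut_inner hV hV0 hz hw]; simp⟩, ⟨fun _ => 1, fun z hz w hw => by
      rw [aut_inner hVs hW0 hz hw]; simp⟩, fix_line hV hV0, fix_line hVs hW0⟩
  have hc := hS.comp hG
  refine ⟨h, ?_, ?_, ?_, ?_⟩
  · obtain ⟨c, hc⟩ := hc.co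
    refine ⟨c, fun z hz w hw => ?_⟩
    have := hc z hz w hw
    rwa [hS.aut.left z hz, hS.aut.left w hw] at this
  · obtain ⟨c, hc⟩ := hc.co'
    refine ⟨c, fun z hz w hw => ?_⟩
    have := hc z hz w hw
    rwa [hS.aut.left _ (h.map' z hz), hS.aut.left _ (h.map' w hw)] at this
  · intro z hz w hw s hs
    have := hc.line z hz w hw s hs
    rwa [hS.aut.left _ hs, hS.aut.left z hz, hS.aut.left w hw] at this
  · intro z hz w hw s hs
    have := hc.line' z hz w hw s hs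
    rwa [hS.aut.left _ (h.map' _ hs), hS.aut.left _ (h.map' z hz),
      hS.aut.left _ (h.map' w hw)] at this

end Pool.Agent.MPca0fc2.SK
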