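import Mathlib
import Pool.Agent.Lib.MP_ca0fc2_an.SkGeo

set_option autoImplicit false

open Metric Set
open scoped InnerProductSpace ComplexConjugate

namespace Pool.Agent.MPca0fc2.SK

open Pool.Agent.Lib.MP_ca0fc2_an

variable {E : Type*} [NormedAddCommGroup E] [InnerProductSpace ℂ E]

theorem mob_smul {e : E} (he : ‖e‖ = 1) (ζ t : ℂ) :
    mob e ζ (t • e) = ((t + ζ) / (1 + conj ζ * t)) • e := by
  rw [mob, inner_smul_right, inner_self_one he, mul_one, map_smul, prj_self he, smul_zero,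
    smul_zero, add_zero, smul_smul, div_eq_inv_mul]

/-- The radial derivative is controlled by the invariant gradient. -/
theorem grad_inv {φ ψ T T' : E → E} {g : E → ℂ} (hφ : IsBallAut φ ψ) (hT : GAut T T')
    (hg : DifferentiableOn ℂ g (ball 0 1)) {z : E} (h0 : φ 0 = z) :
    (1 - ‖T z‖) * ‖fderiv ℂ (fun w => g (T' w)) (T z) (T z)‖ ≤ ‖fderiv ℂ (g ∘ φ) 0‖ := by
  have hz : z ∈ ball (0 : E) 1 := by rw [← h0]; exact hφ.map 0 zero_mem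
  have hy : T z ∈ ball (0 : E) 1 := hT.aut.map z hz
  by_cases hy0 : T z = 0
  · rw [hy0, map_zero, norm_zero, norm_zero, mul_zero]
    exact norm_nonneg _
  obtain ⟨e, he, hye⟩ := exists_unit hy0
  obtain ⟨y, hyd⟩ : ∃ y, y = T z := ⟨_, rfl⟩
  rw [← hyd] at hy hy0 hye ⊢
  obtain ⟨u, hu⟩ : ∃ u : E → ℂ, u = fun w => g (T' w) := ⟨_, rfl⟩
  rw [← hu]
  have hyn := mem_ball_zero_iff.mp hy
  have hud : DifferentiableOn ℂ u (ball 0 1) := by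
    rw [hu]; exact hg.comp hT.aut.hol' hT.aut.map'
  have hζ : ‖(‖y‖ : ℂ)‖ < 1 := by rwa [Complex.norm_real, norm_norm]
  have hS0 : mob e (‖y‖ : ℂ) ((0 : ℂ) • e) = y := by rw [zero_smul, mob_zero, ← hye]
  have h1 : HasFDerivAt u (fderiv ℂ u y) y :=
    (hud.differentiableAt (isOpen_ball.mem_nhds hy)).hasFDerivAt
  have h2 : HasDerivAt (fun t : ℂ => mob e (‖y‖ : ℂ) (t • e))
      (((1 - ‖y‖ ^ 2 : ℝ) : ℂ) • e) 0 := by
    have h3 : HasDerivAt (fun t : ℂ => (t + ‖y‖) / (1 + conj (‖y‖ : ℂ) * t))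
        ((1 - ‖y‖ ^ 2 : ℝ) : ℂ) 0 := by
      have h4 : HasDerivAt (fun t : ℂ => t + (‖y‖ : ℂ)) 1 0 := (hasDerivAt_id 0).add_const _
      have h5 : HasDerivAt (fun t : ℂ => 1 + conj (‖y‖ : ℂ) * t) (conj (‖y‖ : ℂ) * 1) 0 :=
        ((hasDerivAt_id 0).const_mul _).const_add _
      refine (h4.div h5 (by simp)).congr_deriv ?_
      rw [Complex.conj_ofReal]
      push_cast
      ring
    have h4 := h3.smul_const e
    refine h4.congr_of_eventuallyEq (Filter.Eventually.of_forall fun t => ?_)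
    exact mob_smul he _ t
  have h3 : HasDerivAt (fun t : ℂ => u (mob e (‖y‖ : ℂ) (t • e)))
      (fderiv ℂ u y (((1 - ‖y‖ ^ 2 : ℝ) : ℂ) • e)) 0 := by
    refine HasFDerivAt.comp_hasDerivAt (x := (0 : ℂ)) (f := fun t : ℂ => mob e (‖y‖ : ℂ) (t • e)) ?_ h2
    rw [hS0]
    exact h1
  -- the other side
  obtain ⟨V, hV⟩ : ∃ V : ℂ → E, V = fun t => ψ (T' (mob e (‖y‖ : ℂ) (t • e))) := ⟨_, rfl⟩
  have hsm : ∀ t ∈ ball (0 : ℂ) 1, t • e ∈ ball (0 : E) 1 := fun t ht => smul_mem_ball' he ht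
  have hVd : DifferentiableOn ℂ V (ball 0 1) := by
    rw [hV]
    refine hφ.hol'.comp (hT.aut.hol'.comp ((mob_diff he hζ).comp
      (differentiable_id.smul_const e).differentiableOn hsm) ?_) ?_
    · intro t ht; exact mob_mem he hζ (hsm t ht)
    · intro t ht; exact hT.aut.map' _ (mob_mem he hζ (hsm t ht))
  have hT'y : T' y = z := by rw [hyd]; exact hT.aut.left z hz
  have hV0 : V 0 = 0 := by
    rw [hV]
    simp only
    rw [hS0, hT'y, ← h0]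
    exact hφ.left 0 zero_mem
  have hVm : MapsTo V (ball 0 1) (closedBall (V 0) 1) := by
    intro t ht
    rw [hV0]
    apply ball_subset_closedBall
    rw [hV]
    exact hφ.map' _ (hT.aut.map' _ (mob_mem he hζ (hsm t ht)))
  have hV1 : ‖deriv V 0‖ ≤ 1 := by
    have := Complex.norm_deriv_le_div_of_mapsTo_ball hVd hVm one_pos
    simpa using this
  have h4 : HasDerivAt V (deriv V 0) 0 :=
    (hVd.differentiableAt (isOpen_ball.mem_nhds (mem_ball_self one_pos))).hasDerivAt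
  have h5 : HasFDerivAt (g ∘ φ) (fderiv ℂ (g ∘ φ) 0) 0 :=
    ((hg.comp hφ.hol hφ.map).differentiableAt (isOpen_ball.mem_nhds zero_mem)).hasFDerivAt
  have h6 : HasDerivAt (fun t : ℂ => (g ∘ φ) (V t)) (fderiv ℂ (g ∘ φ) 0 (deriv V 0)) 0 := by
    have h5' : HasFDerivAt (g ∘ φ) (fderiv ℂ (g ∘ φ) 0) (V 0) := by
      rw [hV0]
      exact h5
    exact HasFDerivAt.comp_hasDerivAt (x := (0 : ℂ)) (f := V) h5' h4
  have h7 : (fun t : ℂ => u (mob e (‖y‖ : ℂ) (t • e))) =ᶠ[nhds 0] fun t : ℂ => (g ∘ φ) (V t) := by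
    filter_upwards [isOpen_ball.mem_nhds (mem_ball_self (x := (0 : ℂ)) one_pos)] with t ht
    have h8 : T' (mob e (‖y‖ : ℂ) (t • e)) ∈ ball (0 : E) 1 :=
      hT.aut.map' _ (mob_mem he hζ (hsm t ht))
    rw [Function.comp_apply, hV, hu]
    simp only
    rw [hφ.right _ h8]
  have h8 := (h6.congr_of_eventuallyEq h7).unique h3
  have h9 : ‖fderiv ℂ (g ∘ φ) 0 (deriv V 0)‖ ≤ ‖fderiv ℂ (g ∘ φ) 0‖ := by
    refine (ContinuousLinearMap.le_opNorm _ _).trans ?_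
    exact mul_le_of_le_one_right (norm_nonneg _) hV1
  rw [h8, map_smul, norm_smul, Complex.norm_real,
    Real.norm_of_nonneg (by nlinarith [norm_nonneg y])] at h9
  have h10 : fderiv ℂ u y y = (‖y‖ : ℂ) * fderiv ℂ u y e := by
    conv_lhs => rw [hye]
    rw [map_smul, smul_eq_mul, ← hye]
  rw [h10, norm_mul, Complex.norm_real, norm_norm]
  refine le_trans ?_ h9
  rw [← mul_assoc]
  apply mul_le_mul_of_nonneg_right _ (norm_nonneg _)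
  nlinarith [norm_nonneg y]

theorem add_prj_norm {e : E} (z : E) : ‖z‖ ≤ ‖⟪e, z⟫_ℂ • e‖ + ‖prj e z‖ := by
  conv_lhs => rw [← dec_eq (e := e) z]
  exact norm_add_le _ _

/-- In the coordinates in which the projection of one of its points is the origin, the cell is
small. -/
theorem cell_small {e : E} (he : ‖e‖ = 1) {S : E → E} {η ε : ℝ}
    (hη0 : 0 < η) (hη : η < 1 / 4) (hε : 0 < ε) (h : 144 * η ≤ ε ^ 2) {z₀ w w' : E}
    (hw : S w ∈ ball (0 : E) 1) (hw' : S w' ∈ ball (0 : E) 1)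
    (h₀ : w ∈ lineCell e η S z₀) (h₁ : w' ∈ lineCell e η S z₀) :
    ‖mob e (-⟪e, S w⟫_ℂ) (S w') - mob e (-⟪e, S w⟫_ℂ) (S w)‖ < ε := by
  obtain ⟨h1, h2⟩ := h₀
  obtain ⟨h3, h4⟩ := h₁
  rw [inner_sub_right] at h1 h3
  obtain ⟨v, hv⟩ : ∃ v, v = S w := ⟨_, rfl⟩
  obtain ⟨v', hv'⟩ : ∃ v', v' = S w' := ⟨_, rfl⟩
  rw [← hv] at h1 h2 hw ⊢
  rw [← hv'] at h3 h4 hw' ⊢
  obtain ⟨x, hx⟩ : ∃ x, x = ⟪e, v⟫_ℂ := ⟨_, rfl⟩
  obtain ⟨x', hx'⟩ : ∃ x', x' = ⟪e, v'⟫_ℂ := ⟨_, rfl⟩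
  obtain ⟨x₀, hx₀⟩ : ∃ x₀, x₀ = ⟪e, S z₀⟫_ℂ := ⟨_, rfl⟩
  rw [← hx, ← hx₀] at h1
  rw [← hx₀] at h2 h4
  rw [← hx', ← hx₀] at h3
  rw [← hx]
  have hx1 : ‖x‖ < 1 := by rw [hx]; exact norm_inner_lt he hw
  have hx1' : ‖x'‖ < 1 := by rw [hx']; exact norm_inner_lt he hw'
  have hr0 : 0 < 1 - ‖x₀‖ := by
    by_contra hcon
    push Not at hcon
    have : ‖x - x₀‖ < 0 := h1.trans_le (mul_nonpos_of_nonneg_of_nonpos hη0.le hcon)
    linarith [norm_nonneg (x - x₀)]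
  obtain ⟨r, hr⟩ : ∃ r, r = 1 - ‖x‖ := ⟨_, rfl⟩
  have hrp : 0 < r := by rw [hr]; linarith
  have hr2 : 1 - ‖x₀‖ ≤ 2 * r := by
    have a1 := norm_le_norm_add_norm_sub x₀ x
    rw [norm_sub_rev] at a1
    rw [hr]
    nlinarith
  have hd1 : ‖x' - x‖ ≤ 4 * η * r := by
    have a1 := norm_sub_le (x' - x₀) (x - x₀)
    rw [sub_sub_sub_cancel_right] at a1
    nlinarith
  have hd2 : ‖v' - v‖ ^ 2 ≤ 8 * η * r := by
    have a1 := norm_sub_le (v' - S z₀) (v - S z₀)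
    rw [sub_sub_sub_cancel_right] at a1
    have a3 : ‖v' - v‖ ^ 2 ≤ 2 * (‖v' - S z₀‖ ^ 2 + ‖v - S z₀‖ ^ 2) := by
      have := pow_le_pow_left₀ (norm_nonneg _) a1 2
      nlinarith [sq_nonneg (‖v' - S z₀‖ - ‖v - S z₀‖)]
    nlinarith
  have hζ : ‖-x‖ < 1 := by rwa [norm_neg]
  have hden : ∀ y : ℂ, ‖y‖ < 1 → r ≤ ‖1 + conj (-x) * y‖ := by
    intro y hy
    have a1 : ‖(1 : ℂ)‖ - ‖-(conj (-x) * y)‖ ≤ ‖1 - -(conj (-x) * y)‖ :=
      norm_sub_norm_le _ _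
    rw [sub_neg_eq_add, norm_neg, norm_mul, RCLike.norm_conj, norm_neg, norm_one] at a1
    have a2 : ‖x‖ * ‖y‖ ≤ ‖x‖ * 1 := mul_le_mul_of_nonneg_left hy.le (norm_nonneg _)
    linarith
  have hdx' := hden x' hx1'
  have hne : 1 + conj (-x) * x' ≠ 0 := norm_pos_iff.mp (hrp.trans_le hdx')
  have hxx : 1 + conj (-x) * x = ((1 - ‖x‖ ^ 2 : ℝ) : ℂ) := by
    rw [map_neg, neg_mul, Complex.conj_mul']
    push_cast
    ring
  have hq0 : 0 < 1 - ‖x‖ ^ 2 := by nlinarith [norm_nonneg x]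
  have hne2 : 1 + conj (-x) * x ≠ 0 := by
    rw [hxx]; exact_mod_cast hq0.ne'
  -- the component along e
  have hc1 : ⟪e, mob e (-x) v' - mob e (-x) v⟫_ℂ = (x' - x) / (1 + conj (-x) * x') := by
    rw [inner_sub_right, inner_mob he, inner_mob he, ← hx, ← hx', add_neg_cancel, zero_div,
      sub_zero, sub_eq_add_neg]
  have hc1' : ‖⟪e, mob e (-x) v' - mob e (-x) v⟫_ℂ • e‖ ≤ 4 * η := by
    rw [hc1, norm_smul, he, mul_one, norm_div, div_le_iff₀ (hrp.trans_le hdx')]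
    calc ‖x' - x‖ ≤ 4 * η * r := hd1
      _ ≤ _ := by gcongr
  -- the other component
  have hc2 : prj e (mob e (-x) v' - mob e (-x) v) =
      ((Lib.MP_ca0fc2_an.sq (-x) : ℂ) / (1 + conj (-x) * x')) • prj e (v' - v) +
      ((Lib.MP_ca0fc2_an.sq (-x) : ℂ) * ((1 + conj (-x) * x) - (1 + conj (-x) * x')) /
        ((1 + conj (-x) * x') * (1 + conj (-x) * x))) • prj e v := by
    rw [map_sub, prj_mob he, prj_mob he, ← hx, ← hx', map_sub, smul_sub]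
    have a1 : (Lib.MP_ca0fc2_an.sq (-x) : ℂ) * ((1 + conj (-x) * x) - (1 + conj (-x) * x')) /
        ((1 + conj (-x) * x') * (1 + conj (-x) * x)) =
        (Lib.MP_ca0fc2_an.sq (-x) : ℂ) / (1 + conj (-x) * x') - (Lib.MP_ca0fc2_an.sq (-x) : ℂ) / (1 + conj (-x) * x) := by
      rw [div_sub_div _ _ hne hne2]
      congr 1
      ring
    rw [a1, sub_smul]
    abel
  have hsq0 : 0 ≤ Lib.MP_ca0fc2_an.sq (-x) := (sq_pos hζ).le
  have hsq2 : Lib.MP_ca0fc2_an.sq (-x) ^ 2 = 1 - ‖x‖ ^ 2 := by rw [sq_sq hζ, norm_neg]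
  have hsη : Real.sqrt η ^ 2 = η := Real.sq_sqrt hη0.le
  have hsη0 : 0 < Real.sqrt η := Real.sqrt_pos.mpr hη0
  have hb1 : ‖((Lib.MP_ca0fc2_an.sq (-x) : ℂ) / (1 + conj (-x) * x')) • prj e (v' - v)‖ ≤ 4 * Real.sqrt η := by
    rw [norm_smul, norm_div, Complex.norm_real, Real.norm_of_nonneg hsq0, div_mul_eq_mul_div,
      div_le_iff₀ (hrp.trans_le hdx')]
    have a1 : Lib.MP_ca0fc2_an.sq (-x) * ‖prj e (v' - v)‖ ≤ 4 * Real.sqrt η * r := by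
      apply le_of_sq_le_sq _ (by positivity)
      have a2 := norm_prj_le he (v' - v)
      have a3 : ‖prj e (v' - v)‖ ^ 2 ≤ 8 * η * r :=
        (pow_le_pow_left₀ (norm_nonneg _) a2 2).trans hd2
      calc (Lib.MP_ca0fc2_an.sq (-x) * ‖prj e (v' - v)‖) ^ 2 = (1 - ‖x‖ ^ 2) * ‖prj e (v' - v)‖ ^ 2 := by
            rw [mul_pow, hsq2]
        _ ≤ (2 * r) * (8 * η * r) := by
            apply mul_le_mul _ a3 (sq_nonneg _) (by positivity)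
            rw [hr]; nlinarith [norm_nonneg x]
        _ = (4 * Real.sqrt η * r) ^ 2 := by rw [mul_pow, mul_pow, hsη]; ring
    calc Lib.MP_ca0fc2_an.sq (-x) * ‖prj e (v' - v)‖ ≤ 4 * Real.sqrt η * r := a1
      _ ≤ _ := by gcongr
  have hb2 : ‖((Lib.MP_ca0fc2_an.sq (-x) : ℂ) * ((1 + conj (-x) * x) - (1 + conj (-x) * x')) /
        ((1 + conj (-x) * x') * (1 + conj (-x) * x))) • prj e v‖ ≤ 4 * η := by
    have a1 : (1 + conj (-x) * x) - (1 + conj (-x) * x') = conj x * (x' - x) := by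
      rw [map_neg]; ring
    have a2 : ‖prj e v‖ ≤ Lib.MP_ca0fc2_an.sq (-x) := by
      apply le_of_sq_le_sq _ hsq0
      have a3 := norm_sq_dec he v
      rw [← hx] at a3
      have a4 := sq_lt_one hw
      rw [hsq2]
      linarith
    rw [a1, norm_smul, norm_div, norm_mul, norm_mul, norm_mul, Complex.norm_real,
      Real.norm_of_nonneg hsq0, RCLike.norm_conj, hxx, Complex.norm_real,
      Real.norm_of_nonneg hq0.le, div_mul_eq_mul_div,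
      div_le_iff₀ (mul_pos (hrp.trans_le hdx') hq0)]
    calc Lib.MP_ca0fc2_an.sq (-x) * (‖x‖ * ‖x' - x‖) * ‖prj e v‖ ≤
          Lib.MP_ca0fc2_an.sq (-x) * (1 * (4 * η * r)) * Lib.MP_ca0fc2_an.sq (-x) := by gcongr
      _ = 4 * η * (r * (Lib.MP_ca0fc2_an.sq (-x) ^ 2)) := by ring
      _ = 4 * η * (r * (1 - ‖x‖ ^ 2)) := by rw [hsq2]
      _ ≤ _ := by gcongr
  have h5 := add_prj_norm (e := e) (mob e (-x) v' - mob e (-x) v)
  have h6 : ‖prj e (mob e (-x) v' - mob e (-x) v)‖ ≤ 4 * Real.sqrt η + 4 * η := by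
    rw [hc2]
    exact (norm_add_le _ _).trans (add_le_add hb1 hb2)
  have h7 : 12 * Real.sqrt η ≤ ε := by
    apply le_of_sq_le_sq _ hε.le
    rw [mul_pow, hsη]
    linarith
  have h8 : η < Real.sqrt η := by
    have : Real.sqrt η < 1 := by
      rw [Real.sqrt_lt' one_pos]; linarith
    nlinarith
  linarith

/-- A cell is contained in a slightly larger cell around each of its points. -/
theorem cell_cell {e : E} {S : E → E} {η ρ : ℝ} (hη0 : 0 < η) (hη : η < 1 / 4)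
    (hρ : 16 * η ≤ ρ) {z₀ w w' : E} (h₀ : w ∈ lineCell e η S z₀) (h₁ : w' ∈ lineCell e η S z₀) :
    w' ∈ lineCell e ρ S w := by
  obtain ⟨h1, h2⟩ := h₀
  obtain ⟨h3, h4⟩ := h₁
  rw [inner_sub_right] at h1 h3
  obtain ⟨x, hx⟩ : ∃ x, x = ⟪e, S w⟫_ℂ := ⟨_, rfl⟩
  obtain ⟨x', hx'⟩ : ∃ x', x' = ⟪e, S w'⟫_ℂ := ⟨_, rfl⟩
  obtain ⟨x₀, hx₀⟩ : ∃ x₀, x₀ = ⟪e, S z₀⟫_ℂ := ⟨_, rfl⟩
  rw [← hx, ← hx₀] at h1
  rw [← hx₀] at h2 h4
  rw [← hx', ← hx₀] at h3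
  have hr0 : 0 < 1 - ‖x₀‖ := by
    by_contra hcon
    push Not at hcon
    have : ‖x - x₀‖ < 0 := h1.trans_le (mul_nonpos_of_nonneg_of_nonpos hη0.le hcon)
    linarith [norm_nonneg (x - x₀)]
  have hr2 : 1 - ‖x₀‖ < 2 * (1 - ‖x‖) := by
    have a1 := norm_le_norm_add_norm_sub x₀ x
    rw [norm_sub_rev] at a1
    nlinarith
  have hpos : 0 < 1 - ‖x‖ := by linarith
  constructor
  · rw [inner_sub_right, ← hx, ← hx']
    have a1 := norm_sub_le (x' - x₀) (x - x₀)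
    rw [sub_sub_sub_cancel_right] at a1
    calc ‖x' - x‖ ≤ ‖x' - x₀‖ + ‖x - x₀‖ := a1
      _ < 2 * η * (1 - ‖x₀‖) := by linarith
      _ ≤ 16 * η * (1 - ‖x‖) := by nlinarith
      _ ≤ ρ * (1 - ‖x‖) := by gcongr
  · rw [← hx]
    have a1 := norm_sub_le (S w' - S z₀) (S w - S z₀)
    rw [sub_sub_sub_cancel_right] at a1
    have a3 : ‖S w' - S w‖ ^ 2 ≤ 2 * (‖S w' - S z₀‖ ^ 2 + ‖S w - S z₀‖ ^ 2) := by
      have := pow_le_pow_left₀ (norm_nonneg _) a1 2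
      nlinarith [sq_nonneg (‖S w' - S z₀‖ - ‖S w - S z₀‖)]
    calc ‖S w' - S w‖ ^ 2 ≤ 2 * (‖S w' - S z₀‖ ^ 2 + ‖S w - S z₀‖ ^ 2) := a3
      _ < 4 * η * (1 - ‖x₀‖) := by linarith
      _ ≤ 16 * η * (1 - ‖x‖) := by nlinarith
      _ ≤ ρ * (1 - ‖x‖) := by gcongr

/-- A Lipschitz bound for an automorphism away from the point where it is large. -/
theorem lip_away {T T' : E → E} (h : GAut T T') {o : E} (ho : o ∈ ball (0 : E) 1)
    (hTo : T o = 0) {c : ℝ} (hc : 0 < c) (hc1 : c ≤ 1) {z w : E} (hz : z ∈ ball (0 : E) 1)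
    (hw : w ∈ ball (0 : E) 1) (hcz : c ≤ ‖1 - ⟪o, z⟫_ℂ‖) (hcw : c ≤ ‖1 - ⟪o, w⟫_ℂ‖) :
    ‖T z - T w‖ ≤ 2 / c ^ 2 * ‖z - w‖ := by
  obtain ⟨k, hk⟩ := h.co
  have h1 := hk o ho o ho
  have h2 := hk o ho z hz
  have h3 := hk o ho w hw
  rw [hTo, inner_zero_left, sub_zero] at h1 h2 h3
  have hko : conj (k o) ≠ 0 := by
    intro h0
    rw [h0, zero_mul, zero_mul] at h1
    exact one_ne_zero h1
  obtain ⟨κ, hκ⟩ : ∃ κ : ℂ, κ = k o * (1 - ⟪o, o⟫_ℂ) := ⟨_, rfl⟩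
  have hkz : k z * (1 - ⟪o, z⟫_ℂ) = κ := by
    rw [hκ]
    apply mul_left_cancel₀ hko
    rw [← mul_assoc, ← mul_assoc, ← h1, ← h2]
  have hkw : k w * (1 - ⟪o, w⟫_ℂ) = κ := by
    rw [hκ]
    apply mul_left_cancel₀ hko
    rw [← mul_assoc, ← mul_assoc, ← h1, ← h3]
  have hκ1 : ‖κ‖ ≤ 1 := by
    have a1 : 1 = ‖k o‖ ^ 2 * (1 - ‖o‖ ^ 2) := by
      have := h1
      rw [inner_self_ball, Complex.conj_mul'] at this
      exact_mod_cast this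
    have a2 : ‖κ‖ ^ 2 ≤ 1 := by
      have a3 : ‖κ‖ = ‖k o‖ * (1 - ‖o‖ ^ 2) := by
        rw [hκ, norm_mul, inner_self_ball]
        have : (1 - (‖o‖ : ℂ) ^ 2) = ((1 - ‖o‖ ^ 2 : ℝ) : ℂ) := by push_cast; ring
        rw [this, Complex.norm_real, Real.norm_of_nonneg (sq_lt_one ho).le]
      rw [a3, mul_pow]
      calc ‖k o‖ ^ 2 * (1 - ‖o‖ ^ 2) ^ 2 = (‖k o‖ ^ 2 * (1 - ‖o‖ ^ 2)) * (1 - ‖o‖ ^ 2) := by ring
        _ = 1 - ‖o‖ ^ 2 := by rw [← a1, one_mul]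
        _ ≤ 1 := by nlinarith [norm_nonneg o]
    nlinarith [norm_nonneg κ]
  have hz0 : 0 < ‖1 - ⟪o, z⟫_ℂ‖ := hc.trans_le hcz
  have hw0 : 0 < ‖1 - ⟪o, w⟫_ℂ‖ := hc.trans_le hcw
  have hkz' : k z = κ / (1 - ⟪o, z⟫_ℂ) := by
    rw [eq_div_iff (norm_pos_iff.mp hz0)]; exact hkz
  have hkw' : k w = κ / (1 - ⟪o, w⟫_ℂ) := by
    rw [eq_div_iff (norm_pos_iff.mp hw0)]; exact hkw
  have hkzn : ‖k z‖ ≤ 1 / c := by
    rw [hkz', norm_div]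
    apply div_le_div₀ zero_le_one hκ1 hc hcz
  have hkd : ‖k z - k w‖ ≤ 1 / c ^ 2 * ‖z - w‖ := by
    rw [hkz', hkw', div_sub_div _ _ (norm_pos_iff.mp hz0) (norm_pos_iff.mp hw0), norm_div,
      norm_mul]
    have a1 : κ * (1 - ⟪o, w⟫_ℂ) - (1 - ⟪o, z⟫_ℂ) * κ = κ * ⟪o, z - w⟫_ℂ := by
      rw [inner_sub_right]; ring
    rw [a1, norm_mul, div_le_iff₀ (by positivity)]
    have a2 : ‖⟪o, z - w⟫_ℂ‖ ≤ ‖z - w‖ := by
      have := norm_inner_le_norm (𝕜 := ℂ) o (z - w)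
      have ho1 := mem_ball_zero_iff.mp ho
      nlinarith [norm_nonneg (z - w)]
    have a3 : c ^ 2 ≤ ‖1 - ⟪o, z⟫_ℂ‖ * ‖1 - ⟪o, w⟫_ℂ‖ := by
      rw [pow_two]; exact mul_le_mul hcz hcw hc.le hz0.le
    calc ‖κ‖ * ‖⟪o, z - w⟫_ℂ‖ ≤ 1 * ‖z - w‖ := by gcongr
      _ = 1 / c ^ 2 * ‖z - w‖ * c ^ 2 := by field_simp
      _ ≤ _ := by gcongr
  have hid : ‖T z - T w‖ ^ 2 + ‖k z - k w‖ ^ 2 = ‖k z • z - k w • w‖ ^ 2 := by
    have a1 := hk z hz z hz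
    have a2 := hk w hw w hw
    have a3 := hk z hz w hw
    rw [inner_self_ball, inner_self_ball, Complex.conj_mul'] at a1 a2
    have a1' : 1 - ‖T z‖ ^ 2 = ‖k z‖ ^ 2 * (1 - ‖z‖ ^ 2) := by exact_mod_cast a1
    have a2' : 1 - ‖T w‖ ^ 2 = ‖k w‖ ^ 2 * (1 - ‖w‖ ^ 2) := by exact_mod_cast a2
    rw [norm_sub_sq (𝕜 := ℂ), norm_sub_sq (𝕜 := ℂ) (k z • z)]
    have a4 : ‖k z - k w‖ ^ 2 = ‖k z‖ ^ 2 - 2 * (conj (k z) * k w).re + ‖k w‖ ^ 2 := by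
      have := norm_sub_sq (𝕜 := ℂ) (k z) (k w)
      rw [this, RCLike.inner_apply, mul_comm (k w)]
      rfl
    have a5 : ⟪k z • z, k w • w⟫_ℂ = conj (k z) * k w * ⟪z, w⟫_ℂ := by
      rw [inner_smul_left, inner_smul_right]; ring
    have a6 : RCLike.re ⟪T z, T w⟫_ℂ = 1 - (conj (k z) * k w).re +
        RCLike.re (conj (k z) * k w * ⟪z, w⟫_ℂ) := by
      have : ⟪T z, T w⟫_ℂ = 1 - conj (k z) * k w * (1 - ⟪z, w⟫_ℂ) := by rw [← a3]; ring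
      rw [this]
      simp only [RCLike.re_to_complex, Complex.sub_re, Complex.one_re, mul_sub, mul_one]
      ring
    rw [a4, a5, a6, norm_smul, norm_smul, mul_pow, mul_pow]
    linarith
  have hfin : ‖k z • z - k w • w‖ ≤ 2 / c ^ 2 * ‖z - w‖ := by
    have a1 : k z • z - k w • w = k z • (z - w) + (k z - k w) • w := by module
    rw [a1]
    refine (norm_add_le _ _).trans ?_
    rw [norm_smul, norm_smul]
    have hw1 := mem_ball_zero_iff.mp hw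
    have a2 : 1 / c ≤ 1 / c ^ 2 := by
      apply one_div_le_one_div_of_le (by positivity)
      nlinarith
    calc ‖k z‖ * ‖z - w‖ + ‖k z - k w‖ * ‖w‖ ≤
          1 / c * ‖z - w‖ + 1 / c ^ 2 * ‖z - w‖ * 1 := by gcongr
      _ ≤ 1 / c ^ 2 * ‖z - w‖ + 1 / c ^ 2 * ‖z - w‖ * 1 := by gcongr
      _ = _ := by ring
  refine le_trans ?_ hfin
  apply le_of_sq_le_sq _ (norm_nonneg _)
  rw [← hid]
  linarith [sq_nonneg ‖k z - k w‖]

/-- The point where the lines separate. -/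
theorem sep_of_max {x α β y : E} (hx : ‖x‖ ≤ 1) (hα : ‖α‖ ≤ 1) (hβ : ‖β‖ ≤ 1)
    (hxβ : ⟪x, β⟫_ℂ = 0) (hy : y = β + ((9 / 10 : ℂ)) • (α - β))
    (hmax : 1 - ‖y‖ ^ 2 ≤ ‖1 - ⟪x, y⟫_ℂ‖ ^ 2) : 1 / 100 ≤ ‖1 - ⟪x, α⟫_ℂ‖ := by
  by_contra hcon
  push Not at hcon
  have h1 : ‖1 - ⟪x, y⟫_ℂ‖ ≤ 11 / 100 := by
    have a1 : 1 - ⟪x, y⟫_ℂ = 1 / 10 + (9 / 10) * (1 - ⟪x, α⟫_ℂ) := by
      rw [hy, inner_add_right, inner_smul_right, inner_sub_right, hxβ]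
      ring
    rw [a1]
    refine (norm_add_le _ _).trans ?_
    rw [norm_mul]
    have a2 : ‖(1 / 10 : ℂ)‖ = 1 / 10 := by norm_num
    have a3 : ‖(9 / 10 : ℂ)‖ = 9 / 10 := by norm_num
    rw [a2, a3]
    linarith
  have h2 : ‖α - x‖ ^ 2 ≤ 1 / 50 := by
    rw [norm_sub_rev, norm_sub_sq (𝕜 := ℂ)]
    have a1 : 1 - (⟪x, α⟫_ℂ).re ≤ ‖1 - ⟪x, α⟫_ℂ‖ := by
      have := Complex.re_le_norm (1 - ⟪x, α⟫_ℂ)
      simpa using this
    have a2 : RCLike.re ⟪x, α⟫_ℂ = (⟪x, α⟫_ℂ).re := rfl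
    rw [a2]
    have a3 : ‖x‖ ^ 2 ≤ 1 := by nlinarith [norm_nonneg x]
    have a4 : ‖α‖ ^ 2 ≤ 1 := by nlinarith [norm_nonneg α]
    linarith
  have h3 : ‖α - x‖ ≤ 15 / 100 := by nlinarith [norm_nonneg (α - x)]
  have h4 : ‖⟪α, β⟫_ℂ‖ ≤ 15 / 100 := by
    have a1 : ⟪α, β⟫_ℂ = ⟪α - x, β⟫_ℂ := by rw [inner_sub_left, hxβ, sub_zero]
    rw [a1]
    refine (norm_inner_le_norm _ _).trans ?_
    nlinarith [norm_nonneg (α - x)]
  have h5 : ‖y‖ ^ 2 ≤ 85 / 100 := by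
    have a1 : y = ((9 / 10 : ℝ) : ℂ) • α + ((1 / 10 : ℝ) : ℂ) • β := by
      rw [hy]; push_cast; module
    rw [a1, norm_add_sq (𝕜 := ℂ), norm_smul, norm_smul, Complex.norm_real, Complex.norm_real,
      inner_smul_left, inner_smul_right, Complex.conj_ofReal, Real.norm_of_nonneg (by norm_num),
      Real.norm_of_nonneg (by norm_num), mul_pow, mul_pow]
    have a2 : RCLike.re (((9 / 10 : ℝ) : ℂ) * (((1 / 10 : ℝ) : ℂ) * ⟪α, β⟫_ℂ)) =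
        9 / 100 * (⟪α, β⟫_ℂ).re := by
      rw [RCLike.re_to_complex, Complex.re_ofReal_mul, Complex.re_ofReal_mul]
      ring
    rw [a2]
    have a3 := Complex.re_le_norm ⟪α, β⟫_ℂ
    have a4 : ‖β‖ ^ 2 ≤ 1 := by nlinarith [norm_nonneg β]
    have a5 : ‖α‖ ^ 2 ≤ 1 := by nlinarith [norm_nonneg α]
    linarith
  have h6 : ‖1 - ⟪x, y⟫_ℂ‖ ^ 2 ≤ (11 / 100) ^ 2 := pow_le_pow_left₀ (norm_nonneg _) h1 2
  linarith

/-- From the projection to all the points of the line. -/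
theorem sep_line {T T' W W' : E → E} (hT : GAut T T') (hW : GAut W W') {t b z a : E}
    (ht : t ∈ ball (0 : E) 1) (hb : b ∈ ball (0 : E) 1) (hz : z ∈ ball (0 : E) 1)
    (ha : a ∈ ball (0 : E) 1) (hTt : T t = 0) (hWb : W b = 0) (hza : ‖⟪W z, W a⟫_ℂ‖ ≤ 1 / 2) :
    1 / 4 * ‖1 - ⟪T z, T b⟫_ℂ‖ ≤ ‖1 - ⟪T z, T a⟫_ℂ‖ := by
  have h1 := hT.cross hz ht ha hb
  have h2 := hW.cross hz ht ha hb
  rw [hTt, inner_zero_left, inner_zero_left, sub_zero, mul_one, mul_one] at h1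
  rw [hWb, inner_zero_right, inner_zero_right, sub_zero, mul_one, one_mul] at h2
  have n1 := one_sub_ne hz hb
  have n2 := one_sub_ne ht ha
  have h3 : (1 - ⟪T z, T a⟫_ℂ) * (1 - ⟪W t, W a⟫_ℂ) =
      (1 - ⟪W z, W a⟫_ℂ) * (1 - ⟪T z, T b⟫_ℂ) := by
    apply mul_right_cancel₀ (mul_ne_zero n1 n2)
    linear_combination (1 - ⟪W t, W a⟫_ℂ) * h1 - (1 - ⟪T z, T b⟫_ℂ) * h2
  have h4 : ‖1 - ⟪W t, W a⟫_ℂ‖ ≤ 2 := by
    refine (norm_sub_le _ _).trans ?_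
    rw [norm_one]
    have := norm_inner_le_norm (𝕜 := ℂ) (W t) (W a)
    have a1 := mem_ball_zero_iff.mp (hW.aut.map t ht)
    have a2 := mem_ball_zero_iff.mp (hW.aut.map a ha)
    nlinarith [norm_nonneg (W t), norm_nonneg (W a)]
  have h5 : 1 / 2 ≤ ‖1 - ⟪W z, W a⟫_ℂ‖ := by
    have := norm_sub_norm_le (1 : ℂ) ⟪W z, W a⟫_ℂ
    rw [norm_one] at this
    linarith
  have h6 := congrArg norm h3
  rw [norm_mul, norm_mul] at h6
  nlinarith [norm_nonneg (1 - ⟪T z, T a⟫_ℂ), norm_nonneg (1 - ⟪T z, T b⟫_ℂ)]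

end Pool.Agent.MPca0fc2.SK
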