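import Mathlib
import Pool.Agent.Lib.MP_ca0fc2_an.LTAut
import Pool.Agent.Lib.MP_ca0fc2_an.LTCell
import Pool.Agent.Lib.MP_ca0fc2_an.SGTgen
import Pool.Agent.Lib.MP_ca0fc2_an.Mg.G024
import Pool.Agent.Lib.MP_ca0fc2_an.SkCell
import Pool.Agent.Lib.MP_ca0fc2_an.Depth
import Pool.Agent.Lib.MP_ca0fc2_an.DiscCor

/-! The localization theorem for cells of multipliers, of functions with Carleson gradients, of slow
functions and of functions which are tame with respect to complex lines. -/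

set_option autoImplicit false

open Metric Set MeasureTheory Filter Topology
open scoped InnerProductSpace ComplexConjugate

namespace Pool.Agent.MPca0fc2.LT

open Pool.Agent.Lib.MP_ca0fc2_an

section

variable {E : Type*} [NormedAddCommGroup E] [InnerProductSpace ℂ E]

theorem solv_empty {N : ℕ} {f : Fin N → E → ℂ} {C : ℝ} : SolvableOn f (∅ : Set E) C :=
  ⟨fun _ _ => 0, fun _ => differentiableOn_empty, fun _ _ h => absurd h (notMem_empty _),
    fun _ h => absurd h (notMem_empty _)⟩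

theorem solv_sub {N : ℕ} {f : Fin N → E → ℂ} {D D' : Set E} {C C' : ℝ} (h : SolvableOn f D C)
    (hD : D' ⊆ D) (hC : C ≤ C') : SolvableOn f D' C' := by
  obtain ⟨h₁, h1, h2, h3⟩ := h
  exact ⟨h₁, fun j => (h1 j).mono hD, fun j z hz => (h2 j z (hD hz)).trans hC,
    fun z hz => h3 z (hD hz)⟩

/-- the equation, for data indexed by a finite type -/
def SolvF {Y : Type*} [Fintype Y] (F : Y → E → ℂ) (D : Set E) (C : ℝ) : Prop :=
  ∃ h : Y → E → ℂ, (∀ j, DifferentiableOn ℂ (h j) D) ∧ (∀ j, ∀ z ∈ D, ‖h j z‖ ≤ C) ∧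
    ∀ z ∈ D, ∑ j, F j z * h j z = 1

theorem solvF_to {Y : Type*} [Fintype Y] {N : ℕ} (e : Y ≃ Fin N) {F : Y → E → ℂ} {D : Set E}
    {C : ℝ} (h : SolvF F D C) : SolvableOn (fun i => F (e.symm i)) D C := by
  obtain ⟨h₁, h1, h2, h3⟩ := h
  refine ⟨fun i => h₁ (e.symm i), fun i => h1 _, fun i => h2 _, fun z hz => ?_⟩
  rw [← h3 z hz]
  exact Equiv.sum_comp e.symm fun y => F y z * h₁ y z

theorem solvF_of {Y : Type*} [Fintype Y] {N : ℕ} (e : Y ≃ Fin N) {F : Y → E → ℂ} {D : Set E}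
    {C : ℝ} (h : SolvableOn (fun i => F (e.symm i)) D C) : SolvF F D C := by
  obtain ⟨h₁, h1, h2, h3⟩ := h
  refine ⟨fun y => h₁ (e y), fun y => h1 _, fun y => h2 _, fun z hz => ?_⟩
  rw [← h3 z hz, ← Equiv.sum_comp e]
  simp only [Equiv.symm_apply_apply]

theorem solvF_single {Y : Type*} [Fintype Y] {F : Y → E → ℂ} {D : Set E} {C σ : ℝ} (j : Y)
    (hf : DifferentiableOn ℂ (F j) D) (hσ : 0 < σ) (h : ∀ z ∈ D, σ ≤ ‖F j z‖)
    (hC : 1 / σ ≤ C) : SolvF F D C := by
  classical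
  have hne : ∀ z ∈ D, F j z ≠ 0 := fun z hz h0 => by
    have := h z hz
    rw [h0, norm_zero] at this
    linarith
  have hC0 : 0 ≤ C := (by positivity : (0 : ℝ) ≤ 1 / σ).trans hC
  refine ⟨fun i => if i = j then fun z => (F j z)⁻¹ else fun _ => 0, ?_, ?_, ?_⟩
  · intro i
    by_cases hij : i = j
    · simp only [hij, if_true]
      exact hf.inv hne
    · simp only [hij, if_false]
      exact differentiableOn_const _
  · intro i z hz
    by_cases hij : i = j
    · simp only [hij, if_true, norm_inv]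
      rw [← one_div]
      exact (one_div_le_one_div_of_le hσ (h z hz)).trans hC
    · simp only [hij, if_false, norm_zero]
      exact hC0
  · intro z hz
    rw [Finset.sum_eq_single j]
    · simp only [if_true]
      exact mul_inv_cancel₀ (hne z hz)
    · intro i _ hij
      simp only [hij, if_false, mul_zero]
    · intro hj
      exact absurd (Finset.mem_univ j) hj

theorem solvF_inl {Y : Type*} [Fintype Y] {N : ℕ} {f : Fin N → E → ℂ} {G : Y → E → ℂ} {D : Set E}
    {C C' : ℝ} (h : SolvableOn f D C) (hC : C ≤ C') (hC0 : 0 ≤ C') :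
    SolvF (Sum.elim f G) D C' := by
  obtain ⟨h₁, h1, h2, h3⟩ := h
  refine ⟨Sum.elim h₁ fun _ _ => 0, ?_, ?_, ?_⟩
  · rintro (j | y)
    · exact h1 j
    · exact differentiableOn_const _
  · rintro (j | y) z hz
    · exact (h2 j z hz).trans hC
    · simpa using hC0
  · intro z hz
    rw [Fintype.sum_sum_type]
    simp only [Sum.elim_inl, Sum.elim_inr, mul_zero, Finset.sum_const_zero, add_zero]
    exact h3 z hz

/-- Dropping data which are small. -/
theorem solvF_drop {Y : Type*} [Fintype Y] {N : ℕ} {f : Fin N → E → ℂ} {G : Y → E → ℂ}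
    {D D' : Set E} {C σ : ℝ} (h : SolvF (Sum.elim f G) D C) (hD : D' ⊆ D)
    (hf : ∀ j, DifferentiableOn ℂ (f j) D') (hG : ∀ y, ∀ z ∈ D', ‖G y z‖ ≤ σ) (hC0 : 0 ≤ C)
    (hσ0 : 0 ≤ σ)
    (hσ : Fintype.card Y * (σ * C) ≤ 1 / 2) : SolvableOn f D' (2 * C) := by
  obtain ⟨h₁, h1, h2, h3⟩ := h
  obtain ⟨g, hg⟩ : ∃ g : E → ℂ, g = fun z => ∑ j, f j z * h₁ (Sum.inl j) z := ⟨_, rfl⟩
  have hgd : DifferentiableOn ℂ g D' := by
    rw [hg]
    exact DifferentiableOn.fun_sum fun j _ => (hf j).mul ((h1 _).mono hD)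
  have hlow : ∀ z ∈ D', 1 / 2 ≤ ‖g z‖ := by
    intro z hz
    have h4 := h3 z (hD hz)
    rw [Fintype.sum_sum_type] at h4
    simp only [Sum.elim_inl, Sum.elim_inr] at h4
    have h5 : ‖∑ y, G y z * h₁ (Sum.inr y) z‖ ≤ 1 / 2 := by
      refine (norm_sum_le _ _).trans (le_trans (Finset.sum_le_sum (g := fun _ => σ * C)
        fun y _ => ?_) ?_)
      · rw [norm_mul]
        exact mul_le_mul (hG y z hz) (h2 _ z (hD hz)) (norm_nonneg _) hσ0
      · rw [Finset.sum_const, Finset.card_univ, nsmul_eq_mul]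
        exact hσ
    have h6 : g z = 1 - ∑ y, G y z * h₁ (Sum.inr y) z := by
      rw [hg, ← h4]
      simp only []
      ring
    rw [h6]
    have h7 := norm_sub_norm_le (1 : ℂ) (∑ y, G y z * h₁ (Sum.inr y) z)
    rw [norm_one] at h7
    linarith
  have hne : ∀ z ∈ D', g z ≠ 0 := fun z hz h0 => by
    have := hlow z hz
    rw [h0, norm_zero] at this
    linarith
  refine ⟨fun j z => h₁ (Sum.inl j) z * (g z)⁻¹, fun j => ((h1 _).mono hD).mul (hgd.inv hne),
    fun j z hz => ?_, fun z hz => ?_⟩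
  · rw [norm_mul, norm_inv]
    have h4 := h2 (Sum.inl j) z (hD hz)
    have h5 : ‖g z‖⁻¹ ≤ 2 := by
      rw [inv_le_comm₀ (by linarith [hlow z hz]) (by norm_num)]
      linarith [hlow z hz]
    calc ‖h₁ (Sum.inl j) z‖ * ‖g z‖⁻¹ ≤ C * 2 :=
          mul_le_mul h4 h5 (inv_nonneg.mpr (norm_nonneg _)) hC0
      _ = 2 * C := by ring
  · have h4 : ∑ j, f j z * (h₁ (Sum.inl j) z * (g z)⁻¹) = g z * (g z)⁻¹ := by
      rw [hg]
      simp only []
      rw [Finset.sum_mul]
      exact Finset.sum_congr rfl fun j _ => by ring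
    rw [h4, mul_inv_cancel₀ (hne z hz)]

/-- Cutting by finitely many lines. -/
theorem depth_fin {N : ℕ} {f : Fin N → E → ℂ} {C η : ℝ} : ∀ {d : ℕ} (e : Fin d → E)
    (φ ψ : Fin d → E → E), (∀ i, ‖e i‖ = 1 ∧ IsBallAut (φ i) (ψ i)) → ∀ D : Set E,
    (∀ D' ⊆ D, (∀ i, ∃ z₀, D' ⊆ lineCell (e i) η (φ i) z₀) → SolvableOn f D' C) →
    SolvableAtDepth f C η d D := by
  intro d
  induction d with
  | zero =>
    intro e φ ψ _ D h
    exact h D Subset.rfl fun i => i.elim0
  | succ d ih =>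
    intro e φ ψ he D h
    refine ⟨e 0, φ 0, ψ 0, (he 0).1, (he 0).2, fun z₀ _ => ?_⟩
    refine ih (fun i => e i.succ) (fun i => φ i.succ) (fun i => ψ i.succ) (fun i => he _) _ ?_
    intro D' hD' hcell
    refine h D' (hD'.trans inter_subset_left) fun i => ?_
    refine Fin.cases ⟨z₀, hD'.trans inter_subset_right⟩ (fun i => hcell i) i

end

variable {n : ℕ}

theorem norm_le_coord (z : EuclideanSpace ℂ (Fin n)) : ‖z‖ ≤ ∑ i, ‖z i‖ := by
  have h1 : ‖z‖ ^ 2 ≤ (∑ i, ‖z i‖) ^ 2 := by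
    rw [EuclideanSpace.norm_sq_eq]
    exact Finset.sum_sq_le_sq_sum_of_nonneg fun i _ => norm_nonneg _
  exact le_of_sq_le_sq h1 (Finset.sum_nonneg fun i _ => norm_nonneg _)

/-- the coordinates of an automorphism are multipliers -/
theorem coord_mult {φ ψ : EuclideanSpace ℂ (Fin n) → EuclideanSpace ℂ (Fin n)}
    (hφ : IsBallAut φ ψ) (k : Fin n) : DAMultiplier 1 fun z => φ z k := by
  have h1 : DAMultiplier 1 fun z : EuclideanSpace ℂ (Fin n) =>
      (fun w : ℂ => w) ⟪EuclideanSpace.single k (1 : ℂ), z⟫_ℂ :=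
    CV.DAMultiplier_line (g := fun w => w) differentiableOn_id
      (fun w hw => (mem_ball_zero_iff.mp hw).le) (by simp)
  refine DAMultiplier_congr (DAMultiplier_aut h1 hφ) fun z _ => ?_
  simp [EuclideanSpace.inner_single_left]

end Pool.Agent.MPca0fc2.LT
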