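import Mathlib
import Pool.Agent.Lib.MP_ca0fc2_an.LTGen
import Pool.Agent.Lib.MP_ca0fc2_an.CPUnif

/-! The localization theorem for the cells of the generators `Gen6`. -/

set_option autoImplicit false

open Metric Set MeasureTheory Filter Topology
open scoped InnerProductSpace ComplexConjugate

namespace Pool.Agent.MPca0fc2.CP

open Pool.Agent.Lib.MP_ca0fc2_an
open Pool.Agent.MPca0fc2.LT (chi SolvF solvF_of solvF_to solvF_single solvF_inl solvF_drop solv_sub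
  solv_empty norm_le_coord coord_mult lineTame_var lineTame_mono chi_aut depth_fin)

variable {n : ℕ}

/-- the localizing functions for given coordinates along the lines -/
noncomputable def locv {d : ℕ} (w : Fin d → EuclideanSpace ℂ (Fin n) → ℂ)
    (χ : Fin d → EuclideanSpace ℂ (Fin n) → EuclideanSpace ℂ (Fin n)) :
    (Fin d ⊕ Fin d × Fin n) → EuclideanSpace ℂ (Fin n) → ℂ :=
  Sum.elim w fun x z => χ x.1 z x.2

/-- Step 1: the data which express the distance to the centres of the cells are added to the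
data. -/
theorem step_one (hn : 2 ≤ n) (N d : ℕ) {M C₁ ρ₀ K p σ : ℝ} (ω : ℝ → ℝ) (hρ : 0 < ρ₀) (hσ : 0 < σ)
    (hp : 1 ≤ p) (hω : Rate ω) (hK : 1 ≤ K) (hnK : (n : ℝ) ≤ K) :
    ∃ C, 1 ≤ C ∧ ∀ (f : Fin N → EuclideanSpace ℂ (Fin n) → ℂ)
      (w : Fin d → EuclideanSpace ℂ (Fin n) → ℂ)
      (χ χ' : Fin d → EuclideanSpace ℂ (Fin n) → EuclideanSpace ℂ (Fin n))
      (q : Fin d → EuclideanSpace ℂ (Fin n)),
      (∀ j, DifferentiableOn ℂ (f j) (ball 0 1)) →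
      (∀ j, ∀ z ∈ ball (0 : EuclideanSpace ℂ (Fin n)) 1, ‖f j z‖ ≤ M) →
      (∀ i, Gen5 K p ω (w i)) → (∀ i, IsBallAut (χ i) (χ' i)) →
      (∀ i, q i ∈ ball (0 : EuclideanSpace ℂ (Fin n)) 1) →
      (∀ c : Fin d → ℂ, SolvableOn f {z | z ∈ ball 0 1 ∧ (∀ i, ‖w i z - c i‖ < ρ₀) ∧
        ∀ i, ‖χ i z - q i‖ ≤ σ} C₁) →
      SolvF (Sum.elim f fun (x : Fin d × Fin n) z => χ x.1 z x.2 - q x.1 x.2) (ball 0 1) C := by
  have hn0 : (0 : ℝ) < n := by
    have : 0 < n := by omega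
    exact_mod_cast this
  obtain ⟨e⟩ : Nonempty ((Fin N ⊕ Fin d × Fin n) ≃ Fin (Fintype.card (Fin N ⊕ Fin d × Fin n))) :=
    ⟨Fintype.equivFin _⟩
  obtain ⟨e'⟩ : Nonempty ((Fin d ⊕ Fin d × Fin n) ≃ Fin (Fintype.card (Fin d ⊕ Fin d × Fin n))) :=
    ⟨Fintype.equivFin _⟩
  obtain ⟨m, hm⟩ : ∃ m, n = m + 1 := ⟨n - 1, by omega⟩
  obtain ⟨C, hC⟩ : ∃ C, ∀ (F : Fin (Fintype.card (Fin N ⊕ Fin d × Fin n)) →
      EuclideanSpace ℂ (Fin n) → ℂ)
      (v : Fin (Fintype.card (Fin d ⊕ Fin d × Fin n)) → EuclideanSpace ℂ (Fin n) → ℂ),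
      (∀ j, DifferentiableOn ℂ (F j) (ball 0 1)) →
      (∀ j, ∀ z ∈ ball (0 : EuclideanSpace ℂ (Fin n)) 1, ‖F j z‖ ≤ max M 2) →
      (∀ i, Gen5 K p ω (v i)) →
      (∀ c : Fin (Fintype.card (Fin d ⊕ Fin d × Fin n)) → ℂ,
        SolvableOn F {z | z ∈ ball 0 1 ∧ ∀ i, ‖v i z - c i‖ < min ρ₀ (σ / (4 * n))}
          (max C₁ (2 * n / σ))) →
      SolvableOn F (ball 0 1) C := by
    exact T_gen5 hn _ _ ω (by positivity) hp hω
  refine ⟨max C 1, le_max_right _ _, fun f w χ χ' q hf hfM hw hχ hq hs => ?_⟩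
  obtain ⟨G, hG⟩ : ∃ G : (Fin d × Fin n) → EuclideanSpace ℂ (Fin n) → ℂ,
    G = fun (x : Fin d × Fin n) z => χ x.1 z x.2 - q x.1 x.2 := ⟨_, rfl⟩
  rw [← hG]
  have hcoord : ∀ (i : Fin d) (k : Fin n), DAMultiplier 1 fun z => χ i z k :=
    fun i k => coord_mult (hχ i) k
  have hcoordb : ∀ (i : Fin d) (k : Fin n), ∀ z ∈ ball (0 : EuclideanSpace ℂ (Fin n)) 1,
      ‖χ i z k‖ ≤ 1 := fun i k z hz => DA.DAMultiplier_bound zero_le_one (hcoord i k) hz
  have hqb : ∀ (i : Fin d) (k : Fin n), ‖q i k‖ ≤ 1 := by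
    intro i k
    have h1 := PiLp.norm_apply_le (q i) k
    have h2 := mem_ball_zero_iff.mp (hq i)
    linarith
  have hGd : ∀ x, DifferentiableOn ℂ (G x) (ball 0 1) := by
    intro x
    rw [hG]
    exact (hcoord x.1 x.2).1.sub_const _
  have hGb : ∀ x, ∀ z ∈ ball (0 : EuclideanSpace ℂ (Fin n)) 1, ‖G x z‖ ≤ 2 := by
    intro x z hz
    rw [hG]
    refine (norm_sub_le _ _).trans ?_
    have h1 := hcoordb x.1 x.2 z hz
    have h2 := hqb x.1 x.2
    linarith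
  have hcen : ∀ i z, ‖χ i z - q i‖ ≤ ∑ k, ‖G (i, k) z‖ := by
    intro i z
    refine (norm_le_coord _).trans (le_of_eq ?_)
    refine Finset.sum_congr rfl fun k _ => ?_
    rw [hG, PiLp.sub_apply]
  have key := hC (fun y => Sum.elim f G (e.symm y)) (fun y => locv w χ (e'.symm y)) ?_ ?_ ?_ ?_
  · obtain ⟨h, h1, h2, h3⟩ := solvF_of e key
    exact ⟨h, h1, fun j z hz => (h2 j z hz).trans (le_max_left _ _), h3⟩
  · intro y
    rcases e.symm y with j | x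
    · exact hf j
    · exact hGd x
  · intro y z hz
    rcases e.symm y with j | x
    · exact (hfM j z hz).trans (le_max_left _ _)
    · exact (hGb x z hz).trans (le_max_right _ _)
  · intro y
    rcases e'.symm y with j | x
    · exact hw j
    · exact gen5_mult (by omega) (K := 1) hK hnK (by rw [abs_one]; exact hK) (hcoord x.1 x.2)
  · intro c
    apply solvF_to e
    obtain ⟨D, hD⟩ : ∃ D : Set (EuclideanSpace ℂ (Fin n)), D = {z | z ∈ ball 0 1 ∧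
        ∀ i, ‖locv w χ (e'.symm i) z - c i‖ < min ρ₀ (σ / (4 * n))} := ⟨_, rfl⟩
    rw [← hD]
    have hDm : ∀ z ∈ D, z ∈ ball (0 : EuclideanSpace ℂ (Fin n)) 1 ∧
        ∀ x, ‖locv w χ x z - c (e' x)‖ < min ρ₀ (σ / (4 * n)) := by
      intro z hz
      rw [hD] at hz
      refine ⟨hz.1, fun x => ?_⟩
      have := hz.2 (e' x)
      rwa [Equiv.symm_apply_apply] at this
    by_cases hall : ∀ z ∈ D, ∀ i, ‖χ i z - q i‖ ≤ σ
    · refine solvF_inl (C := C₁) (solv_sub (hs fun i => c (e' (Sum.inl i))) ?_ le_rfl)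
        (le_max_left _ _) (le_max_of_le_right (by positivity))
      intro z hz
      exact ⟨(hDm z hz).1, fun i => ((hDm z hz).2 (Sum.inl i)).trans_le (min_le_left _ _),
        hall z hz⟩
    · push Not at hall
      obtain ⟨z₀, hz₀, i, hi⟩ := hall
      obtain ⟨k, hk⟩ : ∃ k, σ / n < ‖G (i, k) z₀‖ := by
        by_contra hcon
        push Not at hcon
        have h1 := hcen i z₀
        have h2 : ∑ k, ‖G (i, k) z₀‖ ≤ ∑ _k : Fin n, σ / n := Finset.sum_le_sum fun k _ => hcon k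
        rw [Finset.sum_const, Finset.card_univ, Fintype.card_fin, nsmul_eq_mul,
          mul_div_cancel₀ _ hn0.ne'] at h2
        linarith
      refine solvF_single (σ := σ / (2 * n)) (Sum.inr (i, k)) ((hGd (i, k)).mono fun z hz =>
        (hDm z hz).1) (by positivity) (fun z hz => ?_)
        (le_trans (le_of_eq (by field_simp)) (le_max_right _ _))
      have h1 := (hDm z hz).2 (Sum.inr (i, k))
      have h2 := (hDm z₀ hz₀).2 (Sum.inr (i, k))
      have h3 : ‖G (i, k) z₀ - G (i, k) z‖ ≤ σ / (2 * n) := by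
        have h4 : G (i, k) z₀ - G (i, k) z = (locv w χ (Sum.inr (i, k)) z₀ - c (e' (Sum.inr (i, k)))) -
            (locv w χ (Sum.inr (i, k)) z - c (e' (Sum.inr (i, k)))) := by
          rw [hG]
          simp only [locv, Sum.elim_inr]
          ring
        rw [h4]
        refine (norm_sub_le _ _).trans ?_
        have h5 := h1.trans_le (min_le_right _ _)
        have h6 := h2.trans_le (min_le_right _ _)
        have h7 : σ / (2 * n) = σ / (4 * n) + σ / (4 * n) := by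
          field_simp
          norm_num
        rw [h7]
        exact (add_le_add h6.le h5.le)
      have h4 : ‖G (i, k) z₀‖ ≤ ‖G (i, k) z‖ + ‖G (i, k) z₀ - G (i, k) z‖ := by
        have := norm_add_le (G (i, k) z) (G (i, k) z₀ - G (i, k) z)
        rwa [add_sub_cancel] at this
      have h5 : σ / n = σ / (2 * n) + σ / (2 * n) := by
        field_simp
        norm_num
      show σ / (2 * n) ≤ ‖G (i, k) z‖
      linarith

/-- Localization to the cells of the generators. -/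
theorem T_gen6 (hn : 2 ≤ n) (N d : ℕ) {M C₁ ρ₀ K p : ℝ} (ω : ℝ → ℝ) (hρ : 0 < ρ₀)
    (hp : 1 ≤ p) (hω : Rate ω) :
    ∃ C, ∀ (f : Fin N → EuclideanSpace ℂ (Fin n) → ℂ)
      (u : Fin d → EuclideanSpace ℂ (Fin n) → ℂ),
      (∀ j, DifferentiableOn ℂ (f j) (ball 0 1)) →
      (∀ j, ∀ z ∈ ball (0 : EuclideanSpace ℂ (Fin n)) 1, ‖f j z‖ ≤ M) →
      (∀ i, Gen6 K p ω (u i)) →
      (∀ c : Fin d → ℂ, SolvableOn f {z | z ∈ ball 0 1 ∧ ∀ i, ‖u i z - c i‖ < ρ₀} C₁) →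
      SolvableOn f (ball 0 1) C := by
  classical
  have hn0 : (0 : ℝ) < n := by
    have : 0 < n := by omega
    exact_mod_cast this
  obtain ⟨B, hB⟩ := Gen5_unif (n := n) (K := K) hp (le_refl p)
  obtain ⟨K₂, hK₂⟩ : ∃ K₂, K₂ = max (max B 1) n := ⟨_, rfl⟩
  have hK₂1 : 1 ≤ K₂ := by rw [hK₂]; exact (le_max_right _ _).trans (le_max_left _ _)
  have hBK : B ≤ K₂ := by rw [hK₂]; exact (le_max_left _ _).trans (le_max_left _ _)
  have hnK₂ : (n : ℝ) ≤ K₂ := by rw [hK₂]; exact le_max_right _ _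
  obtain ⟨K₁, hK₁⟩ : ∃ K₁, K₁ = max K 1 := ⟨_, rfl⟩
  have hK₁0 : 0 < K₁ := by rw [hK₁]; exact lt_max_of_lt_right one_pos
  have hKK : K ≤ K₁ := by rw [hK₁]; exact le_max_left _ _
  obtain ⟨σ, hσ, hvar⟩ := lineTame_var (E := EuclideanSpace ℂ (Fin n)) hK₁0 hρ
  obtain ⟨C₂, hC₂1, hC₂⟩ := step_one hn N d (M := M) (C₁ := C₁) ω hρ hσ hp hω hK₂1 hnK₂
  have hC₂0 : 0 < C₂ := by linarith
  obtain ⟨X, hX⟩ : ∃ X : ℝ, X = Fintype.card (Fin d × Fin n) := ⟨_, rfl⟩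
  have hX0 : 0 ≤ X := by rw [hX]; positivity
  obtain ⟨σ₂, hσ₂⟩ : ∃ σ₂ : ℝ, σ₂ = 1 / (2 * (X + 1) * C₂) := ⟨_, rfl⟩
  have hσ₂0 : 0 < σ₂ := by rw [hσ₂]; positivity
  have hσ₂1 : X * (σ₂ * C₂) ≤ 1 / 2 := by
    rw [hσ₂]
    have h1 : 1 / (2 * (X + 1) * C₂) * C₂ = 1 / (2 * (X + 1)) := by field_simp
    rw [h1, mul_one_div, div_le_iff₀ (by positivity)]
    linarith
  obtain ⟨η₂, hη₂⟩ : ∃ η₂ : ℝ, η₂ = min (1 / 5) (σ₂ ^ 2 / 144) := ⟨_, rfl⟩
  have hη₂0 : 0 < η₂ := by rw [hη₂]; positivity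
  have hη₂1 : η₂ < 1 / 4 := by
    have : η₂ ≤ 1 / 5 := by rw [hη₂]; exact min_le_left _ _
    linarith
  have hη₂2 : 144 * η₂ ≤ σ₂ ^ 2 := by
    have : η₂ ≤ σ₂ ^ 2 / 144 := by rw [hη₂]; exact min_le_right _ _
    linarith
  obtain ⟨C₁', hC₁'⟩ : ∃ C₁', C₁' = max C₁ 1 := ⟨_, rfl⟩
  have hC₁'1 : 1 ≤ C₁' := by rw [hC₁']; exact le_max_right _ _
  have hCC : C₁ ≤ C₁' := by rw [hC₁']; exact le_max_left _ _
  obtain ⟨C', hC'⟩ := finite_depth (E := EuclideanSpace ℂ (Fin n)) discCorona N M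
    (1 / ((N + 1) * C₁' ^ 2)) (by positivity) (fun _ => d) (fun _ => η₂) (fun _ => 3)
    (fun _ => 2 * C₂) (fun _ => hη₂0) (fun _ => by norm_num)
  refine ⟨C', fun f u hf hfM hu hs => ?_⟩
  -- the lines
  obtain ⟨o, ho⟩ : ∃ o : EuclideanSpace ℂ (Fin n), o = EuclideanSpace.single ⟨0, by omega⟩ 1 :=
    ⟨_, rfl⟩
  have ho1 : ‖o‖ = 1 := by rw [ho]; simp
  have hline : ∀ i, ∃ (e : EuclideanSpace ℂ (Fin n))
      (φ ψ : EuclideanSpace ℂ (Fin n) → EuclideanSpace ℂ (Fin n))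
      (w : EuclideanSpace ℂ (Fin n) → ℂ), ‖e‖ = 1 ∧ IsBallAut φ ψ ∧ Gen5 K₂ p ω w ∧
      ∀ b ∈ ball (0 : EuclideanSpace ℂ (Fin n)) 1, ∀ c : ℂ, ∃ c' : ℂ,
        ∀ z ∈ ball (0 : EuclideanSpace ℂ (Fin n)) 1, ‖w z - c‖ < ρ₀ →
        ‖chi e φ b z - chi e φ b b‖ ≤ σ → ‖u i z - c'‖ < ρ₀ := by
    intro i
    rcases hu i with h | ⟨h, h'⟩
    · refine ⟨o, id, id, u i, ho1, ⟨differentiableOn_id, differentiableOn_id, fun z hz => hz,
        fun z hz => hz, fun z _ => rfl, fun z _ => rfl⟩, hB K₂ hBK ω ω (fun _ => le_rfl) _ h, ?_⟩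
      intro b _ c
      exact ⟨c, fun z _ h1 _ => h1⟩
    · obtain ⟨e, φ, ψ, he, hφ, h1⟩ := hvar (u i) (lineTame_mono hKK h')
      refine ⟨e, φ, ψ, fun _ => 0, he, hφ, ?_, ?_⟩
      · refine gen5_mult (by omega) (K := 1) hK₂1 hnK₂ (by rw [abs_one]; exact hK₂1) ?_
        exact CV.DAMultiplier_line (g := fun _ => 0) (differentiableOn_const _)
          (fun w _ => by simp) ho1
      · intro b hb c
        exact ⟨u i b, fun z hz _ h2 => h1 b hb z hz h2⟩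
  choose e φ ψ w he hφ hw hc using hline
  -- solutions on the sets of points near the centres
  have hcells : ∀ b ∈ ball (0 : EuclideanSpace ℂ (Fin n)) 1, ∀ D' ⊆ ball (0 : EuclideanSpace ℂ
      (Fin n)) 1, (∀ z ∈ D', ∀ i, ‖chi (e i) (φ i) b z - chi (e i) (φ i) b b‖ ≤ σ₂) →
      SolvableOn f D' (2 * C₂) := by
    intro b hb D' hD' hnear
    have h1 := hC₂ f w (fun i => chi (e i) (φ i) b)
      (fun i z => ψ i (mob (e i) ⟪e i, φ i b⟫_ℂ z)) (fun i => chi (e i) (φ i) b b) hf hfM hw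
      (fun i => chi_aut (he i) (hφ i) hb)
      (fun i => (chi_aut (he i) (hφ i) hb).map b hb) ?_
    · refine solvF_drop h1 hD' (fun j => (hf j).mono hD') (σ := σ₂) ?_ hC₂0.le hσ₂0.le ?_
      · intro x z hz
        have h2 := hnear z hz x.1
        have h3 := PiLp.norm_apply_le (chi (e x.1) (φ x.1) b z - chi (e x.1) (φ x.1) b b) x.2
        rw [PiLp.sub_apply] at h3
        exact h3.trans h2
      · rw [← hX]
        exact hσ₂1
    · intro c
      have h2 := fun i => hc i b hb (c i)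
      choose c' hc' using h2
      refine solv_sub (hs c') ?_ le_rfl
      rintro z ⟨hz, hz1, hz2⟩
      exact ⟨hz, fun i => hc' i z hz (hz1 i) (hz2 i)⟩
  refine hC' f hf hfM ?_ ?_
  · -- the lower bound
    intro z hz
    have h1 := SolvableOn.lower (hs fun i => u i z) (z := z) ⟨hz, fun i => by simpa using hρ⟩
    have h2 : (1 : ℝ) ≤ (∑ j, ‖f j z‖) * C₁' :=
      h1.trans (mul_le_mul_of_nonneg_left hCC (Finset.sum_nonneg fun _ _ => norm_nonneg _))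
    have h6 : (∑ j, ‖f j z‖) ^ 2 ≤ N * ∑ j, ‖f j z‖ ^ 2 := by
      have := sq_sum_le_card_mul_sum_sq (s := (Finset.univ : Finset (Fin N)))
        (f := fun j => ‖f j z‖)
      simpa using this
    have hS0 : 0 ≤ ∑ j, ‖f j z‖ ^ 2 := Finset.sum_nonneg fun _ _ => sq_nonneg _
    rw [div_le_iff₀ (by positivity)]
    calc (1 : ℝ) ≤ ((∑ j, ‖f j z‖) * C₁') ^ 2 := by nlinarith
      _ = (∑ j, ‖f j z‖) ^ 2 * C₁' ^ 2 := by ring
      _ ≤ (N * ∑ j, ‖f j z‖ ^ 2) * C₁' ^ 2 := by gcongr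
      _ ≤ ((N + 1) * ∑ j, ‖f j z‖ ^ 2) * C₁' ^ 2 := by gcongr; linarith
      _ = _ := by ring
  · intro l _
    refine depth_fin e φ ψ (fun i => ⟨he i, hφ i⟩) _ fun D' hD' hcell => ?_
    rcases D'.eq_empty_or_nonempty with h0 | ⟨b, hb⟩
    · rw [h0]; exact solv_empty
    have hDb : D' ⊆ ball (0 : EuclideanSpace ℂ (Fin n)) 1 := hD'.trans inter_subset_left
    refine hcells b (hDb hb) D' hDb fun z hz i => ?_
    obtain ⟨z₀, hz₀⟩ := hcell i
    exact (SK.cell_small (he i) hη₂0 hη₂1 hσ₂0 hη₂2 ((hφ i).map b (hDb hb)) ((hφ i).map z (hDb hz))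
      (hz₀ hb) (hz₀ hz)).le

end Pool.Agent.MPca0fc2.CP
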