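import Mathlib
import Pool.Agent.Lib.MP_ca0fc2_an.Defs

set_option autoImplicit false

open Metric Set
open scoped InnerProductSpace

namespace Pool.Agent.Lib.MP_ca0fc2_an

variable {E : Type*} [NormedAddCommGroup E] [InnerProductSpace ℂ E]

/-- The invariant gradient of `g` at the point `z` of the unit ball is bounded by
`ω (1 - |a'|²)`, where `a'` is the point which corresponds to some point `a` of `F` in the
coordinates in which `z` is the origin: there is an automorphism `φ` of the ball, with inverse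
`ψ`, such that `φ 0 = z` and `‖D (g ∘ φ) (0)‖ ≤ ω (1 - |ψ a|²)`. Here `1 - |ψ a|²` is comparable
with `exp (- 2 d)`, where `d` is the hyperbolic distance of `z` and `a`. -/
def DecayBound (ω : ℝ → ℝ) (F : Set E) (g : E → ℂ) (z : E) : Prop :=
  ∃ φ ψ : E → E, IsBallAut φ ψ ∧ φ 0 = z ∧
    ∃ a ∈ F ∩ ball 0 1, ‖fderiv ℂ (g ∘ φ) 0‖ ≤ ω (1 - ‖ψ a‖ ^ 2)

/-- The union of the complex lines (complex geodesics) which the automorphisms `φ i` map to the
lines through `0` and `e i`. -/
def skeleton {m : ℕ} (φ : Fin m → E → E) (e : Fin m → E) : Set E :=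
  {a | ∃ (i : Fin m) (t : ℂ), φ i a = t • e i}

/-- The piece around `b` of relative size `ρ` cut out by the complex lines which the automorphisms
`φ i` map to the lines through `0` and `e i`, and by the functions `g k`. -/
def skelPiece {m K : ℕ} (φ : Fin m → E → E) (e : Fin m → E) (g : Fin K → E → ℂ) (ρ : ℝ) (b : E) :
    Set E :=
  {w | (∀ i, w ∈ lineCell (e i) ρ (φ i) b) ∧ ∀ k, ‖g k w - g k b‖ < ρ}

/-- On `D`, and up to the error `η`, the functions `f j` are polynomials of degree less than `d` in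
one and the same holomorphic function `F` with `|F| ≤ 1`, which is arbitrary otherwise; the
coefficients are constants bounded by `M`. -/
def NearlyOneDim {N : ℕ} (f : Fin N → E → ℂ) (D : Set E) (d : ℕ) (M η : ℝ) : Prop :=
  ∃ (F : E → ℂ) (c : Fin N → Fin d → ℂ), DifferentiableOn ℂ F D ∧ (∀ z ∈ D, ‖F z‖ ≤ 1) ∧
    (∀ j k, ‖c j k‖ ≤ M) ∧ ∀ j, ∀ z ∈ D, ‖f j z - ∑ k : Fin d, c j k * F z ^ (k : ℕ)‖ ≤ η

end Pool.Agent.Lib.MP_ca0fc2_an
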