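import Mathlib
import Pool.Agent.Lib.MP_ca0fc2_an.SkDefs

set_option autoImplicit false

open Metric Set Filter Topology
open scoped InnerProductSpace ComplexConjugate

namespace Pool.Agent.MPca0fc2.SK

open Pool.Agent.Lib.MP_ca0fc2_an

variable {E : Type*} [NormedAddCommGroup E] [InnerProductSpace ℂ E]

/-- the value of the polynomial with the coefficients `c` -/
noncomputable def pv {d : ℕ} (c : Fin d → ℂ) (w : ℂ) : ℂ := ∑ k : Fin d, c k * w ^ (k : ℕ)

theorem pv_sub_le {d : ℕ} {c c' : Fin d → ℂ} {w : ℂ} (hw : ‖w‖ ≤ 1) {ε : ℝ}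
    (h : ∀ k, ‖c k - c' k‖ ≤ ε) : ‖pv c w - pv c' w‖ ≤ d * ε := by
  rw [pv, pv, ← Finset.sum_sub_distrib]
  refine (norm_sum_le _ _).trans ?_
  calc ∑ k : Fin d, ‖c k * w ^ (k : ℕ) - c' k * w ^ (k : ℕ)‖ ≤ ∑ _k : Fin d, ε := by
        apply Finset.sum_le_sum
        intro k _
        rw [← sub_mul, norm_mul, norm_pow]
        calc ‖c k - c' k‖ * ‖w‖ ^ (k : ℕ) ≤ ε * 1 := by
              apply mul_le_mul (h k) (pow_le_one₀ (norm_nonneg _) hw) (by positivity)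
                ((norm_nonneg _).trans (h k))
          _ = ε := mul_one _
    _ = d * ε := by rw [Finset.sum_const, nsmul_eq_mul, Finset.card_univ, Fintype.card_fin]

theorem pv_cont {d : ℕ} (c : Fin d → ℂ) : Continuous (pv c) := by
  unfold pv
  fun_prop

/-- Solutions which are rational functions, for one tuple of polynomials. -/
theorem poly_one {N d : ℕ} (c : Fin N → Fin d → ℂ) {δ : ℝ} (hδ : 0 < δ) :
    ∃ (C : ℝ) (h : Fin N → ℂ → ℂ), 0 < C ∧ ∀ w : ℂ, ‖w‖ ≤ 1 → δ ≤ ∑ j, ‖pv (c j) w‖ ^ 2 →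
      (∀ j, DifferentiableAt ℂ (h j) w ∧ ‖h j w‖ ≤ C) ∧ ∑ j, pv (c j) w * h j w = 1 := by
  classical
  obtain ⟨P, hP⟩ : ∃ P : Fin N → Polynomial ℂ, P = fun j =>
      ∑ k : Fin d, Polynomial.C (c j k) * Polynomial.X ^ (k : ℕ) := ⟨_, rfl⟩
  have hPe : ∀ j w, (P j).eval w = pv (c j) w := by
    intro j w
    rw [hP]
    simp [pv, Polynomial.eval_finsetSum]
  obtain ⟨G, hG⟩ := IsPrincipalIdealRing.principal (Ideal.span (range P))
  have hGm : G ∈ Ideal.span (range P) := by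
    rw [hG]; exact Submodule.mem_span_singleton_self G
  obtain ⟨R, hR⟩ := (Ideal.mem_span_range_iff_exists_fun (x := G) (v := P)).mp hGm
  have hdvd : ∀ j, G ∣ P j := by
    intro j
    have : P j ∈ Ideal.span (range P) := Ideal.subset_span (mem_range_self j)
    rw [hG] at this
    exact Ideal.mem_span_singleton.mp this
  have hne : ∀ w : ℂ, δ ≤ ∑ j, ‖pv (c j) w‖ ^ 2 → G.eval w ≠ 0 := by
    intro w hw h0
    have h1 : ∀ j, pv (c j) w = 0 := by
      intro j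
      obtain ⟨Q, hQ⟩ := hdvd j
      rw [← hPe, hQ, Polynomial.eval_mul, h0, zero_mul]
    have h2 : ∑ j, ‖pv (c j) w‖ ^ 2 = 0 := by
      apply Finset.sum_eq_zero
      intro j _
      rw [h1 j, norm_zero]
      norm_num
    linarith
  obtain ⟨K, hK⟩ : ∃ K : Set ℂ, K = {w | ‖w‖ ≤ 1 ∧ δ ≤ ∑ j, ‖pv (c j) w‖ ^ 2} := ⟨_, rfl⟩
  have hKc : IsCompact K := by
    have h1 : K = closedBall 0 1 ∩ {w | δ ≤ ∑ j, ‖pv (c j) w‖ ^ 2} := by
      rw [hK]; ext w; simp
    rw [h1]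
    apply (isCompact_closedBall _ _).inter_right
    apply isClosed_le continuous_const
    exact continuous_finsetSum _ fun j _ => (pv_cont (c j)).norm.pow 2
  obtain ⟨h, hh⟩ : ∃ h : Fin N → ℂ → ℂ, h = fun j w => (R j).eval w / G.eval w := ⟨_, rfl⟩
  have hcont : ContinuousOn (fun w => ∑ j, ‖h j w‖) K := by
    apply continuousOn_finsetSum
    intro j _
    apply ContinuousOn.norm
    rw [hh]
    apply ContinuousOn.div (R j).continuous.continuousOn G.continuous.continuousOn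
    intro w hw
    rw [hK] at hw
    exact hne w hw.2
  obtain ⟨C, hC⟩ := hKc.bddAbove_image hcont
  refine ⟨max C 1, h, lt_max_of_lt_right one_pos, fun w hw hwδ => ⟨fun j => ⟨?_, ?_⟩, ?_⟩⟩
  · rw [hh]
    exact (R j).differentiable.differentiableAt.div G.differentiable.differentiableAt (hne w hwδ)
  · have h1 : w ∈ K := by rw [hK]; exact ⟨hw, hwδ⟩
    have h2 := hC (mem_image_of_mem _ h1)
    refine le_trans ?_ (h2.trans (le_max_left _ _))
    exact Finset.single_le_sum (f := fun j => ‖h j w‖) (fun i _ => norm_nonneg _)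
      (Finset.mem_univ j)
  · have h1 : ∑ j, pv (c j) w * h j w = (∑ j, (R j * P j)).eval w / G.eval w := by
      rw [Polynomial.eval_finsetSum, Finset.sum_div]
      refine Finset.sum_congr rfl fun j _ => ?_
      rw [Polynomial.eval_mul, hPe, hh]
      ring
    rw [h1]
    have h2 : ∑ j, R j * P j = G := by simpa [smul_eq_mul] using hR
    rw [h2, div_self (hne w hwδ)]

/-- Solutions with a uniform bound, for all tuples of polynomials. -/
theorem poly_bez (N d : ℕ) (M δ : ℝ) (hδ : 0 < δ) : ∃ C : ℝ, 0 < C ∧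
    ∀ c : Fin N → Fin d → ℂ, (∀ j k, ‖c j k‖ ≤ M) → ∃ h : Fin N → ℂ → ℂ,
      ∀ w : ℂ, ‖w‖ ≤ 1 → δ ≤ ∑ j, ‖pv (c j) w‖ ^ 2 →
      (∀ j, DifferentiableAt ℂ (h j) w ∧ ‖h j w‖ ≤ C) ∧ ∑ j, pv (c j) w * h j w = 1 := by
  classical
  obtain ⟨X, hX⟩ : ∃ X : Set (Fin N → Fin d → ℂ), X = closedBall 0 (max M 0) := ⟨_, rfl⟩
  have hXc : IsCompact X := by rw [hX]; exact isCompact_closedBall _ _
  choose C₀ h₀ hC₀ hh₀ using fun c : Fin N → Fin d → ℂ => poly_one c (half_pos hδ)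
  -- the radius
  obtain ⟨B, hB⟩ : ∃ B : ℝ, B = d * max M 0 + d + 1 := ⟨_, rfl⟩
  have hM0 : 0 ≤ max M 0 := le_max_right _ _
  have hd0 : (0 : ℝ) ≤ d := Nat.cast_nonneg _
  have hN0 : (0 : ℝ) ≤ N := Nat.cast_nonneg _
  have hB0 : 0 < B := by rw [hB]; positivity
  obtain ⟨ε, hε⟩ : ∃ ε : (Fin N → Fin d → ℂ) → ℝ, ε = fun c =>
      min 1 (min (δ / 2 / (N * (2 * B * (d + 1)) + 1)) (1 / (2 * (N * (d * C₀ c) + 1)))) := ⟨_, rfl⟩
  have hε0 : ∀ c, 0 < ε c := by
    intro c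
    rw [hε]
    have := hC₀ c
    positivity
  obtain ⟨t, htX, ht⟩ := hXc.elim_nhds_subcover (fun c => ball c (ε c)) fun c _ =>
    ball_mem_nhds c (hε0 c)
  refine ⟨∑ c ∈ t, 2 * C₀ c + 1, ?_, ?_⟩
  · have : 0 ≤ ∑ c ∈ t, 2 * C₀ c := Finset.sum_nonneg fun c _ => by
      have := hC₀ c
      positivity
    linarith
  intro c' hc'
  have hc'X : c' ∈ X := by
    rw [hX, mem_closedBall_zero_iff, pi_norm_le_iff_of_nonneg hM0]
    intro j
    rw [pi_norm_le_iff_of_nonneg hM0]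
    exact fun k => (hc' j k).trans (le_max_left _ _)
  obtain ⟨c, hct, hc⟩ : ∃ c ∈ t, c' ∈ ball c (ε c) := by
    have := ht hc'X
    simpa using this
  have hcX := htX c hct
  have hcM : ∀ j k, ‖c j k‖ ≤ max M 0 := by
    intro j k
    rw [hX, mem_closedBall_zero_iff, pi_norm_le_iff_of_nonneg hM0] at hcX
    have := hcX j
    rw [pi_norm_le_iff_of_nonneg hM0] at this
    exact this k
  have hcc : ∀ j k, ‖c' j k - c j k‖ ≤ ε c := by
    intro j k
    rw [mem_ball, dist_eq_norm] at hc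
    calc ‖c' j k - c j k‖ = ‖(c' - c) j k‖ := rfl
      _ ≤ ‖(c' - c) j‖ := norm_le_pi_norm _ k
      _ ≤ ‖c' - c‖ := norm_le_pi_norm _ j
      _ ≤ ε c := hc.le
  have hε1 : ε c ≤ 1 := by rw [hε]; exact min_le_left _ _
  have hε2 : N * (2 * B * (d * ε c)) ≤ δ / 2 := by
    have h1 : ε c ≤ δ / 2 / (N * (2 * B * (d + 1)) + 1) := by
      rw [hε]; exact (min_le_right _ _).trans (min_le_left _ _)
    rw [le_div_iff₀ (by positivity)] at h1
    calc N * (2 * B * (d * ε c)) ≤ ε c * (N * (2 * B * (d + 1)) + 1) := by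
          have h2 := (hε0 c).le
          have h3 : 0 ≤ N * (2 * B) * ε c := by positivity
          nlinarith
      _ ≤ δ / 2 := h1
  have hCc := hC₀ c
  have hε3 : N * (d * ε c * C₀ c) ≤ 1 / 2 := by
    have h1 : ε c ≤ 1 / (2 * (N * (d * C₀ c) + 1)) := by
      rw [hε]; exact (min_le_right _ _).trans (min_le_right _ _)
    rw [le_div_iff₀ (by positivity)] at h1
    nlinarith [(hε0 c).le]
  -- the values
  have hval : ∀ w : ℂ, ‖w‖ ≤ 1 → ∀ j, ‖pv (c' j) w - pv (c j) w‖ ≤ d * ε c := fun w hw j =>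
    pv_sub_le hw (hcc j)
  have hbd : ∀ w : ℂ, ‖w‖ ≤ 1 → ∀ j, ‖pv (c j) w‖ ≤ d * max M 0 := by
    intro w hw j
    have h1 := pv_sub_le (c := c j) (c' := 0) hw (ε := max M 0) (fun k => by
      rw [Pi.zero_apply, sub_zero]; exact hcM j k)
    have h2 : pv (0 : Fin d → ℂ) w = 0 := by simp [pv]
    rwa [h2, sub_zero] at h1
  have hlow : ∀ w : ℂ, ‖w‖ ≤ 1 → δ ≤ ∑ j, ‖pv (c' j) w‖ ^ 2 → δ / 2 ≤ ∑ j, ‖pv (c j) w‖ ^ 2 := by
    intro w hw hwδ
    have h1 : ∑ j, ‖pv (c' j) w‖ ^ 2 ≤ ∑ j, (‖pv (c j) w‖ ^ 2 + 2 * B * (d * ε c)) := by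
      apply Finset.sum_le_sum
      intro j _
      have h2 := hval w hw j
      have h3 := hbd w hw j
      have h4 : ‖pv (c' j) w‖ ≤ ‖pv (c j) w‖ + d * ε c := by
        have := norm_add_le (pv (c j) w) (pv (c' j) w - pv (c j) w)
        rw [add_sub_cancel] at this
        linarith
      have h5 : d * ε c ≤ d := mul_le_of_le_one_right hd0 hε1
      have h6 : 0 ≤ d * ε c := mul_nonneg hd0 (hε0 c).le
      have h7 : ‖pv (c' j) w‖ ^ 2 ≤ (‖pv (c j) w‖ + d * ε c) ^ 2 :=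
        pow_le_pow_left₀ (norm_nonneg _) h4 2
      have h8 : 2 * ‖pv (c j) w‖ + d * ε c ≤ 2 * B := by rw [hB]; linarith
      nlinarith
    rw [Finset.sum_add_distrib, Finset.sum_const, nsmul_eq_mul, Finset.card_univ,
      Fintype.card_fin] at h1
    linarith
  obtain ⟨s, hs⟩ : ∃ s : ℂ → ℂ, s = fun w => ∑ j, pv (c' j) w * h₀ c j w := ⟨_, rfl⟩
  have hs1 : ∀ w : ℂ, ‖w‖ ≤ 1 → δ ≤ ∑ j, ‖pv (c' j) w‖ ^ 2 → ‖s w - 1‖ ≤ 1 / 2 := by
    intro w hw hwδ
    obtain ⟨h1, h2⟩ := hh₀ c w hw (hlow w hw hwδ)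
    rw [hs]
    simp only
    rw [← h2, ← Finset.sum_sub_distrib]
    refine (norm_sum_le _ _).trans ?_
    calc ∑ j, ‖pv (c' j) w * h₀ c j w - pv (c j) w * h₀ c j w‖ ≤
          ∑ _j : Fin N, (d * ε c * C₀ c) := by
          apply Finset.sum_le_sum
          intro j _
          rw [← sub_mul, norm_mul]
          exact mul_le_mul (hval w hw j) (h1 j).2 (norm_nonneg _)
            (mul_nonneg hd0 (hε0 c).le)
      _ = N * (d * ε c * C₀ c) := by
          rw [Finset.sum_const, nsmul_eq_mul, Finset.card_univ, Fintype.card_fin]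
      _ ≤ 1 / 2 := hε3
  have hs2 : ∀ w : ℂ, ‖w‖ ≤ 1 → δ ≤ ∑ j, ‖pv (c' j) w‖ ^ 2 → 1 / 2 ≤ ‖s w‖ := by
    intro w hw hwδ
    have h1 := hs1 w hw hwδ
    have h2 := norm_sub_norm_le (1 : ℂ) (1 - s w)
    rw [norm_one, sub_sub_cancel, norm_sub_rev] at h2
    linarith
  refine ⟨fun j w => h₀ c j w / s w, fun w hw hwδ => ?_⟩
  obtain ⟨h1, h2⟩ := hh₀ c w hw (hlow w hw hwδ)
  have h3 := hs2 w hw hwδ
  have h4 : s w ≠ 0 := norm_pos_iff.mp (by linarith)
  have hsd : DifferentiableAt ℂ s w := by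
    rw [hs]
    apply DifferentiableAt.fun_sum
    intro j _
    refine DifferentiableAt.mul ?_ (h1 j).1
    unfold pv
    fun_prop
  refine ⟨fun j => ⟨(h1 j).1.div hsd h4, ?_⟩, ?_⟩
  · rw [norm_div, div_le_iff₀ (by linarith)]
    have h5 : 2 * C₀ c ≤ ∑ c ∈ t, 2 * C₀ c :=
      Finset.single_le_sum (f := fun c => 2 * C₀ c) (fun c _ => by
        have := hC₀ c
        positivity) hct
    have h6 := (h1 j).2
    nlinarith
  · have h5 : ∑ j, pv (c' j) w * (h₀ c j w / s w) = s w / s w := by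
      conv_rhs => rw [hs]
      simp only
      rw [Finset.sum_div]
      refine Finset.sum_congr rfl fun j _ => ?_
      rw [hs]
      ring
    rw [h5, div_self h4]

/-- The pieces on which the coefficients oscillate little. -/
theorem piece_poly (N d : ℕ) (M δ : ℝ) (hδ : 0 < δ) : ∃ η : ℝ, 0 < η ∧ ∃ C : ℝ,
    ∀ (f : Fin N → E → ℂ) (D : Set E), (∀ j, DifferentiableOn ℂ (f j) D) →
      (∀ z ∈ D, δ ≤ ∑ j, ‖f j z‖ ^ 2) → NearlyOneDim f D d M η → SolvableOn f D C := by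
  obtain ⟨C, hC, hbez⟩ := poly_bez N d M (δ / 4) (by positivity)
  have hd0 : (0 : ℝ) ≤ d := Nat.cast_nonneg _
  have hN0 : (0 : ℝ) ≤ N := Nat.cast_nonneg _
  obtain ⟨η, hη⟩ : ∃ η : ℝ, η = min 1 (min (δ / 4 / (N * (d + 1) ^ 2 + 1))
      (1 / (2 * (N * ((d + 1) * C) + 1)))) := ⟨_, rfl⟩
  have hη0 : 0 < η := by rw [hη]; positivity
  have hη1 : η ≤ 1 := by rw [hη]; exact min_le_left _ _
  have hη2 : N * ((d + 1) * η) ^ 2 ≤ δ / 4 := by
    have h1 : η ≤ δ / 4 / (N * (d + 1) ^ 2 + 1) := by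
      rw [hη]; exact (min_le_right _ _).trans (min_le_left _ _)
    rw [le_div_iff₀ (by positivity)] at h1
    have h2 : 0 ≤ N * ((d : ℝ) + 1) ^ 2 := by positivity
    calc N * ((d + 1) * η) ^ 2 = (N * (d + 1) ^ 2) * (η * η) := by ring
      _ ≤ (N * (d + 1) ^ 2) * (η * 1) := by gcongr
      _ ≤ η * (N * (d + 1) ^ 2 + 1) := by nlinarith
      _ ≤ δ / 4 := h1
  have hη3 : N * ((d + 1) * η * C) ≤ 1 / 2 := by
    have h1 : η ≤ 1 / (2 * (N * ((d + 1) * C) + 1)) := by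
      rw [hη]; exact (min_le_right _ _).trans (min_le_right _ _)
    rw [le_div_iff₀ (by positivity)] at h1
    nlinarith
  refine ⟨η, hη0, 2 * C, ?_⟩
  rintro f D hf hfδ ⟨F, c, hF, hF1, hgM, hfg⟩
  obtain ⟨h, hh⟩ := hbez c hgM
  have hdiff : ∀ j, ∀ z ∈ D, ‖f j z - pv (c j) (F z)‖ ≤ (d + 1) * η := by
    intro j z hz
    refine (hfg j z hz).trans ?_
    nlinarith
  have hlow : ∀ z ∈ D, δ / 4 ≤ ∑ j, ‖pv (c j) (F z)‖ ^ 2 := by
    intro z hz
    have h1 : ∑ j, ‖f j z‖ ^ 2 ≤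
        ∑ j, (2 * ‖pv (c j) (F z)‖ ^ 2 + 2 * ((d + 1) * η) ^ 2) := by
      apply Finset.sum_le_sum
      intro j _
      have h2 := hdiff j z hz
      have h3 : ‖f j z‖ ≤ ‖pv (c j) (F z)‖ + (d + 1) * η := by
        have := norm_add_le (pv (c j) (F z)) (f j z - pv (c j) (F z))
        rw [add_sub_cancel] at this
        linarith
      have h4 := pow_le_pow_left₀ (norm_nonneg _) h3 2
      nlinarith [sq_nonneg (‖pv (c j) (F z)‖ - (d + 1) * η)]
    rw [Finset.sum_add_distrib, ← Finset.mul_sum, Finset.sum_const, nsmul_eq_mul,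
      Finset.card_univ, Fintype.card_fin] at h1
    have h2 := hfδ z hz
    linarith
  obtain ⟨s, hs⟩ : ∃ s : E → ℂ, s = fun z => ∑ j, f j z * h j (F z) := ⟨_, rfl⟩
  have hs1 : ∀ z ∈ D, ‖s z - 1‖ ≤ 1 / 2 := by
    intro z hz
    obtain ⟨h1, h2⟩ := hh (F z) (hF1 z hz) (hlow z hz)
    rw [hs]
    simp only
    rw [← h2, ← Finset.sum_sub_distrib]
    refine (norm_sum_le _ _).trans ?_
    calc ∑ j, ‖f j z * h j (F z) - pv (c j) (F z) * h j (F z)‖ ≤
          ∑ _j : Fin N, ((d + 1) * η * C) := by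
          apply Finset.sum_le_sum
          intro j _
          rw [← sub_mul, norm_mul]
          exact mul_le_mul (hdiff j z hz) (h1 j).2 (norm_nonneg _) (by positivity)
      _ = N * ((d + 1) * η * C) := by
          rw [Finset.sum_const, nsmul_eq_mul, Finset.card_univ, Fintype.card_fin]
      _ ≤ 1 / 2 := hη3
  have hs2 : ∀ z ∈ D, 1 / 2 ≤ ‖s z‖ := by
    intro z hz
    have h1 := hs1 z hz
    have h2 := norm_sub_norm_le (1 : ℂ) (1 - s z)
    rw [norm_one, sub_sub_cancel, norm_sub_rev] at h2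
    linarith
  have hhd : ∀ j, DifferentiableOn ℂ (fun z => h j (F z)) D := by
    intro j z hz
    exact ((hh (F z) (hF1 z hz) (hlow z hz)).1 j).1.comp_differentiableWithinAt z (hF z hz)
  have hsd : DifferentiableOn ℂ s D := by
    rw [hs]
    apply DifferentiableOn.fun_sum
    intro j _
    exact (hf j).mul (hhd j)
  have hne : ∀ z ∈ D, s z ≠ 0 := fun z hz => norm_pos_iff.mp (by linarith [hs2 z hz])
  refine ⟨fun j z => h j (F z) / s z, fun j => ?_, ?_, ?_⟩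
  · simp only [div_eq_mul_inv]
    exact (hhd j).mul (hsd.inv hne)
  · intro j z hz
    have h1 := ((hh (F z) (hF1 z hz) (hlow z hz)).1 j).2
    have h2 := hs2 z hz
    rw [norm_div, div_le_iff₀ (by linarith)]
    nlinarith
  · intro z hz
    have h5 : ∑ j, f j z * (h j (F z) / s z) = s z / s z := by
      conv_rhs => rw [hs]
      simp only
      rw [Finset.sum_div]
      refine Finset.sum_congr rfl fun j _ => ?_
      rw [hs]
      ring
    rw [h5, div_self (hne z hz)]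

end Pool.Agent.MPca0fc2.SK
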