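import Mathlib
import Pool.Agent.Lib.MP_ca0fc2_an.Mg.G024
import Pool.Agent.Lib.MP_ca0fc2_an.TMMain
import Pool.Agent.Lib.MP_ca0fc2_an.SkPoly
import Pool.Agent.Lib.MP_ca0fc2_an.SLCor0

/-!
# Localization near the boundary points, with bounds
-/

set_option autoImplicit false

open Metric Set MeasureTheory Filter Topology
open scoped InnerProductSpace

namespace Pool.Agent.MPca0fc2.UG

open Pool.Agent.Lib.MP_ca0fc2_an

variable {n : ℕ}

theorem cover (ρ : EuclideanSpace ℂ (Fin n) → ℝ) (hρ : ∀ l, 0 < ρ l) :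
    ∃ (T : Finset (EuclideanSpace ℂ (Fin n))) (r : ℝ), 0 < r ∧ r ≤ 1 ∧
      (∀ l ∈ T, l ∈ sphere (0 : EuclideanSpace ℂ (Fin n)) 1) ∧
      ∀ z : EuclideanSpace ℂ (Fin n), ‖z‖ < 1 → 1 - r < ‖z‖ → ∃ l ∈ T, z ∈ ball l (ρ l / 2) := by
  obtain ⟨T, hT, hcov⟩ := (isCompact_sphere (0 : EuclideanSpace ℂ (Fin n)) 1).elim_nhds_subcover
    (fun l => ball l (ρ l / 2)) (fun l _ => ball_mem_nhds l (half_pos (hρ l)))
  obtain ⟨K, hK⟩ : ∃ K : Set (EuclideanSpace ℂ (Fin n)),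
      K = closedBall 0 1 \ ⋃ l ∈ T, ball l (ρ l / 2) := ⟨_, rfl⟩
  have hKc : IsCompact K := by
    rw [hK]
    exact (isCompact_closedBall _ _).diff (isOpen_biUnion fun _ _ => isOpen_ball)
  rcases K.eq_empty_or_nonempty with h0 | h0
  · refine ⟨T, 1, one_pos, le_rfl, hT, fun z hz _ => ?_⟩
    by_contra hcon
    push Not at hcon
    have : z ∈ K := by
      rw [hK]
      refine ⟨mem_closedBall_zero_iff.mpr hz.le, ?_⟩
      simp only [mem_iUnion, not_exists]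
      exact fun l hl => hcon l hl
    rw [h0] at this
    exact this
  · obtain ⟨z₀, hz₀, hmax⟩ := hKc.exists_isMaxOn h0 continuous_norm.continuousOn
    have hz₀1 : ‖z₀‖ < 1 := by
      rw [hK] at hz₀
      refine lt_of_le_of_ne (mem_closedBall_zero_iff.mp hz₀.1) fun h1 => ?_
      exact hz₀.2 (hcov (mem_sphere_zero_iff_norm.mpr h1))
    refine ⟨T, 1 - ‖z₀‖, by linarith, by linarith [norm_nonneg z₀], hT, fun z hz hz2 => ?_⟩
    by_contra hcon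
    push Not at hcon
    have h1 : z ∈ K := by
      rw [hK]
      refine ⟨mem_closedBall_zero_iff.mpr hz.le, ?_⟩
      simp only [mem_iUnion, not_exists]
      exact fun l hl => hcon l hl
    have h2 : ‖z‖ ≤ ‖z₀‖ := hmax h1
    linarith

theorem rate_finset (T : Finset (EuclideanSpace ℂ (Fin n))) (ω : EuclideanSpace ℂ (Fin n) → ℝ → ℝ)
    (h1 : ∀ l, ∀ t ∈ Ioo (0 : ℝ) 1, 0 < ω l t)
    (h2 : ∀ l, ∀ c > 0, IntegrableOn (fun t => Real.exp (-(c / ω l t)) / t) (Ioo 0 1)) :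
    ∃ ω' : ℝ → ℝ, (∀ t ∈ Ioo (0 : ℝ) 1, 0 < ω' t) ∧
      (∀ c > 0, IntegrableOn (fun t => Real.exp (-(c / ω' t)) / t) (Ioo 0 1)) ∧
      ∀ l ∈ T, ∀ t, ω l t ≤ ω' t := by
  classical
  induction T using Finset.induction_on with
  | empty => exact ⟨ω 0, h1 0, h2 0, fun l hl => absurd hl (Finset.notMem_empty l)⟩
  | insert a T _ ih =>
    obtain ⟨ω', h3, h4, h5⟩ := ih
    refine ⟨fun t => max (ω a t) (ω' t), fun t ht => lt_max_of_lt_left (h1 a t ht),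
      fun c hc => ?_, fun l hl t => ?_⟩
    · have h6 := (h2 a c hc).sup (h4 c hc)
      refine IntegrableOn.congr_fun h6 (fun t ht => ?_) measurableSet_Ioo
      have ht0 := ht.1
      have a1 := h1 a t ht
      have a2 := h3 t ht
      simp only [Pi.sup_apply]
      rcases le_total (ω a t) (ω' t) with h | h
      · rw [max_eq_right h]
        apply sup_eq_right.mpr
        gcongr
      · rw [max_eq_left h]
        apply sup_eq_left.mpr
        gcongr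
    · rcases Finset.mem_insert.mp hl with rfl | hl
      · exact le_max_left _ _
      · exact (h5 l hl t).trans (le_max_right _ _)

theorem finset_bd {ι : Type*} (T : Finset ι) (a : ι → ℝ) : ∃ A : ℝ, ∀ i ∈ T, a i ≤ A := by
  classical
  obtain ⟨A, hA⟩ := (T.image a).exists_le
  exact ⟨A, fun i hi => hA _ (Finset.mem_image_of_mem _ hi)⟩

theorem finset_lb {ι : Type*} (T : Finset ι) (a : ι → ℝ) (h : ∀ i, 0 < a i) :
    ∃ A : ℝ, 0 < A ∧ ∀ i ∈ T, A ≤ a i := by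
  classical
  induction T using Finset.induction_on with
  | empty => exact ⟨1, one_pos, fun i hi => absurd hi (Finset.notMem_empty i)⟩
  | insert b T _ ih =>
    obtain ⟨A, hA, h1⟩ := ih
    refine ⟨min (a b) A, lt_min (h b) hA, fun i hi => ?_⟩
    rcases Finset.mem_insert.mp hi with rfl | hi
    · exact min_le_left _ _
    · exact (min_le_right _ _).trans (h1 i hi)

theorem solv_mono {E : Type*} [NormedAddCommGroup E] [InnerProductSpace ℂ E] {N : ℕ}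
    {f : Fin N → E → ℂ} {D D' : Set E} {C C' : ℝ} (h : SolvableOn f D C) (hD : D' ⊆ D)
    (hC : C ≤ C') : SolvableOn f D' C' := by
  obtain ⟨h₁, h1, h2, h3⟩ := h
  exact ⟨h₁, fun j => (h1 j).mono hD, fun j z hz => (h2 j z (hD hz)).trans hC,
    fun z hz => h3 z (hD hz)⟩

theorem norm_le_coord (z : EuclideanSpace ℂ (Fin n)) : ‖z‖ ≤ ∑ i, ‖z i‖ := by
  have h1 : ‖z‖ ^ 2 ≤ (∑ i, ‖z i‖) ^ 2 := by
    rw [EuclideanSpace.norm_sq_eq]
    exact Finset.sum_sq_le_sq_sum_of_nonneg fun i _ => norm_nonneg _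
  exact le_of_sq_le_sq h1 (Finset.sum_nonneg fun i _ => norm_nonneg _)

/-- Small cells far from the boundary. -/
theorem inner_cell {N : ℕ} {M δ r : ℝ} (hM : 1 ≤ M) (hδ : 0 < δ) (hr : 0 < r) :
    ∃ (s C : ℝ), 0 < s ∧ ∀ (f : Fin N → EuclideanSpace ℂ (Fin n) → ℂ),
      (∀ j, DifferentiableOn ℂ (f j) (ball 0 1)) →
      (∀ j, ∀ z ∈ ball (0 : EuclideanSpace ℂ (Fin n)) 1, ‖f j z‖ ≤ M) →
      (∀ z ∈ ball (0 : EuclideanSpace ℂ (Fin n)) 1, δ ≤ ∑ j, ‖f j z‖ ^ 2) →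
      ∀ (D : Set (EuclideanSpace ℂ (Fin n))) (b : EuclideanSpace ℂ (Fin n)), D ⊆ ball 0 1 →
      ‖b‖ ≤ 1 - r → (∀ z ∈ D, ‖z - b‖ ≤ s) → SolvableOn f D C := by
  obtain ⟨σ, hσ⟩ : ∃ σ : ℝ, σ = Real.sqrt (δ / (N + 1)) := ⟨_, rfl⟩
  have hσ0 : 0 < σ := by rw [hσ]; exact Real.sqrt_pos.mpr (by positivity)
  have hσ2 : σ ^ 2 = δ / (N + 1) := by rw [hσ]; exact Real.sq_sqrt (by positivity)
  refine ⟨min (r / 2) (σ * r / (4 * M)), 2 / σ, by positivity, ?_⟩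
  intro f hf hfM hfδ D b hD hb hDb
  have hbb : b ∈ ball (0 : EuclideanSpace ℂ (Fin n)) 1 := by
    rw [mem_ball_zero_iff]
    linarith
  obtain ⟨j, hj⟩ : ∃ j, σ ≤ ‖f j b‖ := by
    by_contra hcon
    push Not at hcon
    have h1 := hfδ b hbb
    have h2 : ∑ j, ‖f j b‖ ^ 2 ≤ ∑ _j : Fin N, σ ^ 2 :=
      Finset.sum_le_sum fun j _ => pow_le_pow_left₀ (norm_nonneg _) (hcon j).le 2
    rw [Finset.sum_const, Finset.card_univ, Fintype.card_fin, nsmul_eq_mul, hσ2] at h2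
    have h3 : (N : ℝ) * (δ / (N + 1)) < δ := by
      rw [mul_div_assoc', div_lt_iff₀ (by positivity)]
      nlinarith
    linarith
  refine SL.solvableOn_one_div (σ := σ / 2) j ((hf j).mono hD) (by positivity) (fun z hz => ?_)
    (by rw [one_div_div])
  have hzb := hDb z hz
  have hz1 : ‖z - b‖ ≤ r / 2 := hzb.trans (min_le_left _ _)
  have hz2 : ‖z - b‖ ≤ σ * r / (4 * M) := hzb.trans (min_le_right _ _)
  have hsub : ball b r ⊆ ball (0 : EuclideanSpace ℂ (Fin n)) 1 := by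
    intro w hw
    rw [mem_ball_zero_iff]
    rw [mem_ball, dist_eq_norm] at hw
    have : ‖w‖ ≤ ‖w - b‖ + ‖b‖ := by
      have := norm_add_le (w - b) b
      rwa [sub_add_cancel] at this
    linarith
  have h4 : dist (f j z) (f j b) ≤ 2 * M / r * dist z b := by
    refine Complex.dist_le_div_mul_dist_of_mapsTo_ball ((hf j).mono hsub) (fun w hw => ?_) ?_
    · rw [mem_closedBall, dist_eq_norm]
      refine (norm_sub_le _ _).trans ?_
      have h5 := hfM j w (hsub hw)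
      have h6 := hfM j b hbb
      linarith
    · rw [mem_ball, dist_eq_norm]
      linarith
  rw [dist_eq_norm, dist_eq_norm] at h4
  have h5 : 2 * M / r * ‖z - b‖ ≤ σ / 2 := by
    calc 2 * M / r * ‖z - b‖ ≤ 2 * M / r * (σ * r / (4 * M)) := by gcongr
      _ = σ / 2 := by field_simp; ring
  have h6 : ‖f j b‖ ≤ ‖f j z‖ + ‖f j z - f j b‖ := by
    have := norm_sub_le (f j z) (f j z - f j b)
    rwa [sub_sub_cancel] at this
  linarith

/-- Localization near the boundary points and over the values of finitely many generators, with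
bounds. -/
theorem gen_loc (hn : 2 ≤ n) (N : ℕ) (M δ : ℝ) (hδ : 0 < δ)
    (k : EuclideanSpace ℂ (Fin n) → ℕ) (ρ K p C : EuclideanSpace ℂ (Fin n) → ℝ)
    (ω : EuclideanSpace ℂ (Fin n) → ℝ → ℝ) (hρ : ∀ l, 0 < ρ l) (hp : ∀ l, 1 ≤ p l)
    (hω0 : ∀ l, ∀ t ∈ Ioo (0 : ℝ) 1, 0 < ω l t)
    (hω : ∀ l, ∀ c > 0, IntegrableOn (fun t => Real.exp (-(c / ω l t)) / t) (Ioo 0 1)) :
    ∃ C' : ℝ, ∀ f : Fin N → EuclideanSpace ℂ (Fin n) → ℂ,
      (∀ j, DifferentiableOn ℂ (f j) (ball 0 1)) →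
      (∀ j, ∀ z ∈ ball (0 : EuclideanSpace ℂ (Fin n)) 1, ‖f j z‖ ≤ M) →
      (∀ z ∈ ball (0 : EuclideanSpace ℂ (Fin n)) 1, δ ≤ ∑ j, ‖f j z‖ ^ 2) →
      (∀ l ∈ sphere (0 : EuclideanSpace ℂ (Fin n)) 1,
        ∃ u : Fin (k l) → EuclideanSpace ℂ (Fin n) → ℂ, (∀ i, Gen (K l) (p l) (ω l) (u i)) ∧
        ∀ c : Fin (k l) → ℂ, SolvableOn f
          {z | z ∈ ball (0 : EuclideanSpace ℂ (Fin n)) 1 ∩ ball l (ρ l) ∧
            ∀ i, ‖u i z - c i‖ < ρ l} (C l)) →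
      SolvableOn f (ball 0 1) C' := by
  classical
  obtain ⟨T, r, hr, hr1, hT, hcov⟩ := cover ρ hρ
  obtain ⟨s, C₀, hs, hin⟩ := inner_cell (n := n) (N := N) (M := max M 1) (le_max_right _ _) hδ hr
  obtain ⟨ω', hω'0, hω', hωω⟩ := rate_finset T ω hω0 hω
  obtain ⟨q₀, hq₀⟩ := finset_bd T p
  obtain ⟨q, hq⟩ : ∃ q, q = max q₀ 1 := ⟨_, rfl⟩
  have hq1 : 1 ≤ q := by rw [hq]; exact le_max_right _ _
  have hpq : ∀ l ∈ T, p l ≤ q := fun l hl => (hq₀ l hl).trans (by rw [hq]; exact le_max_left _ _)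
  have hB : ∀ l, ∃ B : ℝ, l ∈ T → ∀ B' ≥ B, ∀ u : EuclideanSpace ℂ (Fin n) → ℂ,
      Gen (K l) (p l) (ω l) u → Gen B' q ω' u := by
    intro l
    by_cases hl : l ∈ T
    · obtain ⟨B, hB⟩ := Gen_unif (n := n) (by omega) (K := K l) (hp l) (hpq l hl)
      exact ⟨B, fun _ B' hB' u hu => hB B' hB' (ω l) ω' (hωω l hl) u hu⟩
    · exact ⟨0, fun h => absurd h hl⟩
  choose B hB using hB
  obtain ⟨B₀, hB₀⟩ := finset_bd T B
  obtain ⟨K', hK'⟩ : ∃ K', K' = max B₀ 1 := ⟨_, rfl⟩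
  have hK'1 : 1 ≤ K' := by rw [hK']; exact le_max_right _ _
  have hBK : ∀ l ∈ T, B l ≤ K' := fun l hl => (hB₀ l hl).trans (by rw [hK']; exact le_max_left _ _)
  obtain ⟨C₁, hC₁⟩ := finset_bd T C
  obtain ⟨ρ₁, hρ₁, hρT⟩ := finset_lb T ρ hρ
  have hn0 : (0 : ℝ) < n := by
    have : 0 < n := by omega
    exact_mod_cast this
  obtain ⟨ρ₀, hρ₀⟩ : ∃ ρ₀ : ℝ, ρ₀ = min ρ₁ (min (ρ₁ / 2) s / (2 * n)) := ⟨_, rfl⟩
  have hρ₀0 : 0 < ρ₀ := by rw [hρ₀]; positivity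
  have hρ₀1 : ρ₀ ≤ ρ₁ := by rw [hρ₀]; exact min_le_left _ _
  have hρ₀2 : n * (2 * ρ₀) ≤ min (ρ₁ / 2) s := by
    have h1 : ρ₀ ≤ min (ρ₁ / 2) s / (2 * n) := by rw [hρ₀]; exact min_le_right _ _
    rw [le_div_iff₀ (by positivity)] at h1
    linarith
  -- the index set
  obtain ⟨e⟩ : Nonempty ((Fin n ⊕ Σ l : T, Fin (k l.1)) ≃
      Fin (Fintype.card (Fin n ⊕ Σ l : T, Fin (k l.1)))) := ⟨Fintype.equivFin _⟩
  obtain ⟨C', hC'⟩ := TM.T_gen hn N (Fintype.card (Fin n ⊕ Σ l : T, Fin (k l.1))) (M := M)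
    (C₁ := max C₀ C₁) (ρ₀ := ρ₀) (K := K') (p := q) ω' hρ₀0 hq1 hω'0 hω'
  refine ⟨C', fun f hf hfM hfδ hloc => ?_⟩
  have hloc' : ∀ l, ∃ u : Fin (k l) → EuclideanSpace ℂ (Fin n) → ℂ, l ∈ T →
      (∀ i, Gen (K l) (p l) (ω l) (u i)) ∧
        ∀ c : Fin (k l) → ℂ, SolvableOn f
          {z | z ∈ ball (0 : EuclideanSpace ℂ (Fin n)) 1 ∩ ball l (ρ l) ∧
            ∀ i, ‖u i z - c i‖ < ρ l} (C l) := by
    intro l
    by_cases hl : l ∈ T
    · obtain ⟨u, hu⟩ := hloc l (hT l hl)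
      exact ⟨u, fun _ => hu⟩
    · exact ⟨fun _ _ => 0, fun h => absurd h hl⟩
  choose u hu using hloc'
  obtain ⟨v, hv⟩ : ∃ v : (Fin n ⊕ Σ l : T, Fin (k l.1)) → EuclideanSpace ℂ (Fin n) → ℂ,
      v = Sum.elim (fun i z => ⟪EuclideanSpace.single i (1 : ℂ), z⟫_ℂ)
        (fun x z => u x.1.1 x.2 z) := ⟨_, rfl⟩
  have hvG : ∀ x, Gen K' q ω' (v x) := by
    rintro (i | ⟨l, i⟩)
    · rw [hv]
      left
      refine DAMultiplier_mono (e := EuclideanSpace.single i (1 : ℂ)) (by simp) (K := 1)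
        (by rw [abs_one]; exact hK'1) ?_
      exact CV.DAMultiplier_line (g := fun w => w) differentiableOn_id
        (fun w hw => (mem_ball_zero_iff.mp hw).le) (by simp)
    · rw [hv]
      exact hB l.1 l.2 K' (hBK l.1 l.2) _ ((hu l.1 l.2).1 i)
  refine hC' f (fun i => v (e.symm i)) hf hfM (fun i => hvG _) fun c => ?_
  obtain ⟨D, hD⟩ : ∃ D : Set (EuclideanSpace ℂ (Fin n)), D =
    {z | z ∈ ball (0 : EuclideanSpace ℂ (Fin n)) 1 ∧ ∀ i, ‖v (e.symm i) z - c i‖ < ρ₀} := ⟨_, rfl⟩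
  rw [← hD]
  have hDmem : ∀ z ∈ D, z ∈ ball (0 : EuclideanSpace ℂ (Fin n)) 1 ∧
      ∀ x, ‖v x z - c (e x)‖ < ρ₀ := by
    intro z hz
    rw [hD] at hz
    refine ⟨hz.1, fun x => ?_⟩
    have := hz.2 (e x)
    rwa [Equiv.symm_apply_apply] at this
  rcases D.eq_empty_or_nonempty with h0 | ⟨b, hb⟩
  · rw [h0]
    exact ⟨fun _ _ => 0, fun _ => differentiableOn_empty, fun _ _ h => absurd h (notMem_empty _),
      fun _ h => absurd h (notMem_empty _)⟩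
  have hDb : ∀ z ∈ D, ‖z - b‖ ≤ min (ρ₁ / 2) s := by
    intro z hz
    refine (norm_le_coord (z - b)).trans (le_trans (Finset.sum_le_sum (g := fun _ => 2 * ρ₀)
      fun i _ => ?_) ?_)
    · have h1 := (hDmem z hz).2 (Sum.inl i)
      have h2 := (hDmem b hb).2 (Sum.inl i)
      rw [hv] at h1 h2
      simp only [Sum.elim_inl, EuclideanSpace.inner_single_left, map_one, one_mul] at h1 h2
      have h3 : (z - b) i = (z i - c (e (Sum.inl i))) - (b i - c (e (Sum.inl i))) := by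
        rw [PiLp.sub_apply]
        ring
      rw [h3]
      refine (norm_sub_le _ _).trans ?_
      linarith
    · rw [Finset.sum_const, Finset.card_univ, Fintype.card_fin, nsmul_eq_mul]
      exact hρ₀2
  have hb1 := (hDmem b hb).1
  by_cases hbr : ‖b‖ ≤ 1 - r
  · refine solv_mono (hin f hf (fun j z hz => (hfM j z hz).trans (le_max_left _ _)) hfδ D b
      (fun z hz => (hDmem z hz).1) hbr fun z hz => (hDb z hz).trans (min_le_right _ _))
      Subset.rfl (le_max_left _ _)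
  · push Not at hbr
    obtain ⟨l, hl, hbl⟩ := hcov b (mem_ball_zero_iff.mp hb1) hbr
    refine solv_mono ((hu l hl).2 fun i => c (e (Sum.inr ⟨⟨l, hl⟩, i⟩))) ?_
      ((hC₁ l hl).trans (le_max_right _ _))
    intro z hz
    refine ⟨⟨(hDmem z hz).1, ?_⟩, fun i => ?_⟩
    · rw [mem_ball, dist_eq_norm] at hbl ⊢
      have h1 := (hDb z hz).trans (min_le_left _ _)
      have h2 := hρT l hl
      have h3 : z - l = (z - b) + (b - l) := by abel
      rw [h3]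
      refine lt_of_le_of_lt (norm_add_le _ _) ?_
      linarith
    · have h1 := (hDmem z hz).2 (Sum.inr ⟨⟨l, hl⟩, i⟩)
      rw [hv] at h1
      exact h1.trans_le (hρ₀1.trans (hρT l hl))

/-- The unconditional theorem: data which on each cell are nearly polynomials in one function. -/
theorem gen_poly (hn : 2 ≤ n) (N d : ℕ) (M δ : ℝ) (hδ : 0 < δ) :
    ∃ η : ℝ, 0 < η ∧ ∀ (k : EuclideanSpace ℂ (Fin n) → ℕ)
      (ρ K p : EuclideanSpace ℂ (Fin n) → ℝ) (ω : EuclideanSpace ℂ (Fin n) → ℝ → ℝ),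
    (∀ l, 0 < ρ l) → (∀ l, 1 ≤ p l) → (∀ l, ∀ t ∈ Ioo (0 : ℝ) 1, 0 < ω l t) →
    (∀ l, ∀ c > 0, IntegrableOn (fun t => Real.exp (-(c / ω l t)) / t) (Ioo 0 1)) →
    ∃ C' : ℝ, ∀ f : Fin N → EuclideanSpace ℂ (Fin n) → ℂ,
      (∀ j, DifferentiableOn ℂ (f j) (ball 0 1)) →
      (∀ j, ∀ z ∈ ball (0 : EuclideanSpace ℂ (Fin n)) 1, ‖f j z‖ ≤ M) →
      (∀ z ∈ ball (0 : EuclideanSpace ℂ (Fin n)) 1, δ ≤ ∑ j, ‖f j z‖ ^ 2) →
      (∀ l ∈ sphere (0 : EuclideanSpace ℂ (Fin n)) 1,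
        ∃ u : Fin (k l) → EuclideanSpace ℂ (Fin n) → ℂ, (∀ i, Gen (K l) (p l) (ω l) (u i)) ∧
        ∀ c : Fin (k l) → ℂ, NearlyOneDim f
          {z | z ∈ ball (0 : EuclideanSpace ℂ (Fin n)) 1 ∩ ball l (ρ l) ∧
            ∀ i, ‖u i z - c i‖ < ρ l} d M η) →
      SolvableOn f (ball 0 1) C' := by
  obtain ⟨η, hη, C, hC⟩ := SK.piece_poly (E := EuclideanSpace ℂ (Fin n)) N d M δ hδ
  refine ⟨η, hη, fun k ρ K p ω hρ hp hω0 hω => ?_⟩
  obtain ⟨C', hC'⟩ := gen_loc hn N M δ hδ k ρ K p (fun _ => C) ω hρ hp hω0 hω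
  refine ⟨C', fun f hf hfM hfδ hfl => hC' f hf hfM hfδ fun l hl => ?_⟩
  obtain ⟨u, hu, h⟩ := hfl l hl
  refine ⟨u, hu, fun c => hC f _ (fun j => (hf j).mono fun z hz => hz.1.1)
    (fun z hz => hfδ z hz.1.1) (h c)⟩

end Pool.Agent.MPca0fc2.UG
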