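import Mathlib
import Pool.Agent.Lib.MP_ca0fc2_an.CPLoc
import Pool.Agent.Lib.MP_ca0fc2_an.CPPol
import Pool.Agent.Lib.MP_ca0fc2_an.CPDomn

/-! The closed algebra generated by `Gens6 n`: what it contains, and closure under composition. -/

set_option autoImplicit false

open Metric Set MeasureTheory Filter Topology
open scoped InnerProductSpace ENNReal

namespace Pool.Agent.MPca0fc2.CP

open Pool.Agent.Lib.MP_ca0fc2_an
open Pool.Agent.MPca0fc2.PT
open Pool.Agent.MPca0fc2.SG (rate_id slow_mono)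
open Pool.Agent.MPca0fc2.LT (lineTame_mono)

variable {n k : ℕ}

/-- All the former generators are generators. -/
theorem gens4_sub_gens6 (hn : 1 ≤ n) : Gens4 n ⊆ Gens6 n := by
  rintro u ⟨K, p, ω, hp, hω, hu⟩
  obtain ⟨B, hB⟩ := UG.GradCarleson_unif (n := n) (A := K) hp (le_refl p)
  obtain ⟨K', hK'⟩ : ∃ K', K' = max (max B |K|) (max 1 n) := ⟨_, rfl⟩
  have h1 : B ≤ K' := by rw [hK']; exact (le_max_left _ _).trans (le_max_left _ _)
  have h2 : |K| ≤ K' := by rw [hK']; exact (le_max_right _ _).trans (le_max_left _ _)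
  have h3 : 1 ≤ K' := by rw [hK']; exact (le_max_left _ _).trans (le_max_right _ _)
  have h4 : (n : ℝ) ≤ K' := by rw [hK']; exact (le_max_right _ _).trans (le_max_right _ _)
  have h5 : K ≤ K' := (le_abs_self K).trans h2
  refine ⟨K', p, ω, hp, hω, ?_⟩
  rcases hu with (h | h | h) | ⟨ha, hb⟩
  · exact Or.inl (gen5_mult hn h3 h4 h2 h)
  · exact Or.inl (Or.inl ⟨n, id, u, hn, h4, sm_id h3, Or.inr (hB u h K' h1), fun _ _ => rfl⟩)
  · exact Or.inl (Or.inr (Or.inr (slow_mono h h5 fun _ => le_rfl)))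
  · exact Or.inr ⟨fun z hz => (ha z hz).trans h5, lineTame_mono h5 hb⟩

/-- All `PullCarleson` functions are generators. -/
theorem pull_gens6 {p K : ℝ} (hp : 1 ≤ p) {u : EuclideanSpace ℂ (Fin n) → ℂ}
    (hu : PullCarleson p K u) : u ∈ Gens6 n :=
  ⟨K, p, _, hp, rate_id, Or.inl (Or.inr (Or.inl hu))⟩

/-- All compositions of multipliers, or of functions with a Carleson gradient, and smooth maps are
generators. -/
theorem comp_gens6 {L K p : ℝ} (hp : 1 ≤ p) (hk : 1 ≤ k)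
    {Q : EuclideanSpace ℂ (Fin n) → EuclideanSpace ℂ (Fin k)} (hQ : SmoothMap L Q)
    {v : EuclideanSpace ℂ (Fin k) → ℂ} (hv : DAMultiplier K v ∨ GradCarleson p K v) :
    (fun z => v (Q z)) ∈ Gens6 n := by
  obtain ⟨B, hB⟩ := UG.GradCarleson_unif (n := k) (A := K) hp (le_refl p)
  obtain ⟨K', hK'⟩ : ∃ K', K' = max (max B |K|) (max L k) := ⟨_, rfl⟩
  have h1 : B ≤ K' := by rw [hK']; exact (le_max_left _ _).trans (le_max_left _ _)
  have h2 : |K| ≤ K' := by rw [hK']; exact (le_max_right _ _).trans (le_max_left _ _)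
  have h3 : L ≤ K' := by rw [hK']; exact (le_max_left _ _).trans (le_max_right _ _)
  have h4 : (k : ℝ) ≤ K' := by rw [hK']; exact (le_max_right _ _).trans (le_max_right _ _)
  refine ⟨K', p, _, hp, rate_id, Or.inl (Or.inl ⟨k, Q, v, hk, h4, sm_mono hQ h3, ?_,
    fun _ _ => rfl⟩)⟩
  rcases hv with h | h
  · exact Or.inl (UG.DAMultiplier_mono (e := EuclideanSpace.single (⟨0, hk⟩ : Fin k) (1 : ℂ))
      (by simp) h2 h)
  · exact Or.inr (hB v h K' h1)

/-- All functions `g ∘ q`, where `g` is a bounded holomorphic function on the disc, and `q` is a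
polynomial with `|q| < 1` on the ball, are generators. -/
theorem disc_poly_gens6 {K : ℝ} {g : ℂ → ℂ} (hg : DifferentiableOn ℂ g (ball 0 1))
    (hK : ∀ w ∈ ball (0 : ℂ) 1, ‖g w‖ ≤ K) (q : MvPolynomial (Fin n) ℂ)
    (hq : ∀ z ∈ ball (0 : EuclideanSpace ℂ (Fin n)) 1,
      ‖MvPolynomial.eval (fun j => z j) q‖ < 1) :
    (fun z : EuclideanSpace ℂ (Fin n) => g (MvPolynomial.eval (fun j => z j) q)) ∈ Gens6 n := by
  obtain ⟨L, Q, v, hQ, hv, h⟩ := disc_poly hg hK q hq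
  have h1 := comp_gens6 (p := 1) le_rfl (le_refl 1) hQ (Or.inl hv)
  have h2 : (fun z : EuclideanSpace ℂ (Fin n) => g (MvPolynomial.eval (fun j => z j) q)) =
      fun z => v (Q z) := funext h
  rw [h2]
  exact h1

/-- All functions `g ∘ q`, where `g` is a bounded holomorphic function on the disc, and `q` is
holomorphic near the closed ball with `|q| < 1` on the open ball, are generators. -/
theorem disc_gens6 {R K : ℝ} {g : ℂ → ℂ} {q : EuclideanSpace ℂ (Fin n) → ℂ}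
    (hg : DifferentiableOn ℂ g (ball 0 1)) (hK : ∀ w ∈ ball (0 : ℂ) 1, ‖g w‖ ≤ K) (hR : 1 < R)
    (hq : DifferentiableOn ℂ q (ball 0 R))
    (hq1 : ∀ z ∈ ball (0 : EuclideanSpace ℂ (Fin n)) 1, ‖q z‖ < 1) :
    (fun z => g (q z)) ∈ Gens6 n := by
  have hmaps : ∀ z ∈ ball (0 : EuclideanSpace ℂ (Fin n)) 1,
      (EuclideanSpace.single 0 (q z) : EuclideanSpace ℂ (Fin 1)) ∈ ball 0 1 := by
    intro z hz
    rw [mem_ball_zero_iff, PiLp.norm_single]
    exact hq1 z hz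
  have hQd : DifferentiableOn ℂ (fun z : EuclideanSpace ℂ (Fin n) =>
      (EuclideanSpace.single 0 (q z) : EuclideanSpace ℂ (Fin 1))) (ball 0 R) := by
    have e1 : (fun z : EuclideanSpace ℂ (Fin n) =>
        (EuclideanSpace.single 0 (q z) : EuclideanSpace ℂ (Fin 1))) = fun z =>
        q z • (EuclideanSpace.single 0 (1 : ℂ) : EuclideanSpace ℂ (Fin 1)) := by
      funext z
      ext i
      fin_cases i
      simp
    rw [e1]
    exact hq.smul_const _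
  obtain ⟨L, hL⟩ := smoothMap_of_extends hR hQd hmaps
  have he : ‖(EuclideanSpace.single (0 : Fin 1) (1 : ℂ))‖ = 1 := by
    rw [PiLp.norm_single, norm_one]
  have h1 := comp_gens6 (p := 1) le_rfl (le_refl 1) hL
    (Or.inl (Pool.Agent.MPca0fc2.CV.DAMultiplier_line hg hK he))
  have h2 : (fun z : EuclideanSpace ℂ (Fin n) => g (q z)) = fun z =>
      g ⟪(EuclideanSpace.single (0 : Fin 1) (1 : ℂ) : EuclideanSpace ℂ (Fin 1)),
        (EuclideanSpace.single 0 (q z) : EuclideanSpace ℂ (Fin 1))⟫_ℂ := by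
    funext z
    rw [EuclideanSpace.inner_single_left, map_one, one_mul]
    simp
  rw [h2]
  exact h1

/-- All bounded holomorphic functions on the domain `|z|² < 1 + c |1 - q(z)|` are generators, if `q`
is holomorphic near the closed ball and `|q| < 1` on the open ball. -/
theorem dom_gens6 {R c M : ℝ} {q : EuclideanSpace ℂ (Fin n) → ℂ} (hR : 1 < R)
    (hq : DifferentiableOn ℂ q (ball 0 R)) (hq1 : ∀ z ∈ ball (0 : EuclideanSpace ℂ (Fin n)) 1,
      ‖q z‖ < 1) (hc : 0 < c) (hc1 : c ≤ 1) {u : EuclideanSpace ℂ (Fin n) → ℂ}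
    (hu : DifferentiableOn ℂ u (peakDom R c q)) (huM : ∀ z ∈ peakDom R c q, ‖u z‖ ≤ M) :
    u ∈ Gens6 n := by
  obtain ⟨K', hK'⟩ := pull_dom (M := M) hR hq hq1 hc hc1
  exact pull_gens6 (by norm_num) (hK' u hu huM)

section

variable {E G H : Type*} [NormedAddCommGroup E] [InnerProductSpace ℂ E]
  [NormedAddCommGroup G] [InnerProductSpace ℂ G] [NormedAddCommGroup H] [InnerProductSpace ℂ H]

/-- The composition of smooth maps is a smooth map. -/
theorem smooth_comp {L L' : ℝ} {Q : E → G} {Q' : G → H} (hQ : SmoothMap L Q)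
    (hQ' : SmoothMap L' Q') : SmoothMap (6 * L' * L ^ 2) fun z => Q' (Q z) := by
  have h00 : ‖Q 0‖ < 1 := by
    have := hQ.2.2.1 0 (mem_ball_self one_pos)
    rwa [mem_ball_zero_iff] at this
  have hdist := sm_dist hQ' h00
  have hQ2 := hQ
  have hQ'2 := hQ'
  obtain ⟨hL, hd, hm, h0, h5, h6⟩ := hQ
  obtain ⟨hL', hd', hm', h0', h5', h6'⟩ := hQ'
  have hL0 : 0 < L := by linarith
  have hL'0 : 0 < L' := by linarith
  have hLL : 1 ≤ L ^ 2 := one_le_pow₀ hL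
  have hfd : ∀ z ∈ ball (0 : E) 1, fderiv ℂ (fun z => Q' (Q z)) z =
      (fderiv ℂ Q' (Q z)).comp (fderiv ℂ Q z) := by
    intro z hz
    have e1 : HasFDerivAt Q (fderiv ℂ Q z) z :=
      (hd.differentiableAt (isOpen_ball.mem_nhds hz)).hasFDerivAt
    have e2 : HasFDerivAt Q' (fderiv ℂ Q' (Q z)) (Q z) :=
      (hd'.differentiableAt (isOpen_ball.mem_nhds (hm z hz))).hasFDerivAt
    exact (e2.comp z e1).fderiv
  have hlip : ∀ z ∈ ball (0 : E) 1, ∀ w ∈ ball (0 : E) 1, ‖Q z - Q w‖ ≤ L * ‖z - w‖ := by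
    intro z hz w hw
    exact Convex.norm_image_sub_le_of_norm_fderiv_le (𝕜 := ℂ)
      (fun x hx => hd.differentiableAt (isOpen_ball.mem_nhds hx)) h5 (convex_ball 0 1) hw hz
  refine ⟨by nlinarith, hd'.comp hd hm, fun z hz => hm' _ (hm z hz), ?_, ?_, ?_⟩
  · have h1 : 1 / L ≤ 1 - ‖Q 0‖ := by linarith
    have h2 : 1 / L ≤ 1 - ‖Q 0‖ ^ 2 := by nlinarith [norm_nonneg (Q 0)]
    have h3 : ‖Q' (Q 0)‖ < 1 := by
      have := hm' _ (hm 0 (mem_ball_self one_pos))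
      rwa [mem_ball_zero_iff] at this
    have h4 : 1 / L ≤ 2 * L' * (1 - ‖Q' (Q 0)‖ ^ 2) := h2.trans hdist
    have h7 : 1 - ‖Q' (Q 0)‖ ^ 2 ≤ 2 * (1 - ‖Q' (Q 0)‖) := by
      nlinarith [norm_nonneg (Q' (Q 0))]
    have h8 : 1 / L ≤ 4 * L' * (1 - ‖Q' (Q 0)‖) := by
      calc 1 / L ≤ 2 * L' * (1 - ‖Q' (Q 0)‖ ^ 2) := h4
        _ ≤ 2 * L' * (2 * (1 - ‖Q' (Q 0)‖)) := by gcongr
        _ = _ := by ring
    have h9 : 1 / (4 * L' * L) ≤ 1 - ‖Q' (Q 0)‖ := by
      rw [div_le_iff₀ (by positivity)]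
      rw [div_le_iff₀ hL0] at h8
      linarith
    have h10 : 1 / (6 * L' * L ^ 2) ≤ 1 / (4 * L' * L) := by
      apply one_div_le_one_div_of_le (by positivity)
      nlinarith [mul_pos hL'0 hL0]
    linarith
  · intro z hz
    rw [hfd z hz]
    calc ‖(fderiv ℂ Q' (Q z)).comp (fderiv ℂ Q z)‖ ≤ ‖fderiv ℂ Q' (Q z)‖ * ‖fderiv ℂ Q z‖ :=
          ContinuousLinearMap.opNorm_comp_le _ _
      _ ≤ L' * L := mul_le_mul (h5' _ (hm z hz)) (h5 z hz) (norm_nonneg _) hL'0.le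
      _ ≤ 6 * L' * L ^ 2 := by nlinarith [mul_pos hL'0 hL0]
  · intro z hz w hw
    rw [hfd z hz, hfd w hw]
    have e1 : (fderiv ℂ Q' (Q z)).comp (fderiv ℂ Q z) - (fderiv ℂ Q' (Q w)).comp (fderiv ℂ Q w) =
        (fderiv ℂ Q' (Q z)).comp (fderiv ℂ Q z - fderiv ℂ Q w) +
          (fderiv ℂ Q' (Q z) - fderiv ℂ Q' (Q w)).comp (fderiv ℂ Q w) := by
      ext X
      simp
    rw [e1]
    have e2 : ‖(fderiv ℂ Q' (Q z)).comp (fderiv ℂ Q z - fderiv ℂ Q w)‖ ≤
        L' * (L * ‖z - w‖) :=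
      (ContinuousLinearMap.opNorm_comp_le _ _).trans
        (mul_le_mul (h5' _ (hm z hz)) (h6 z hz w hw) (norm_nonneg _) hL'0.le)
    have e3 : ‖(fderiv ℂ Q' (Q z) - fderiv ℂ Q' (Q w)).comp (fderiv ℂ Q w)‖ ≤
        L' * (L * ‖z - w‖) * L := by
      refine (ContinuousLinearMap.opNorm_comp_le _ _).trans
        (mul_le_mul ((h6' _ (hm z hz) _ (hm w hw)).trans ?_) (h5 w hw) (norm_nonneg _)
          (by positivity))
      exact mul_le_mul_of_nonneg_left (hlip z hz w hw) hL'0.le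
    refine (norm_add_le _ _).trans ((add_le_add e2 e3).trans ?_)
    have e4 : 0 ≤ L' * ‖z - w‖ := by positivity
    nlinarith [mul_nonneg e4 hL0.le]

end

/-- Compositions of multipliers with smooth maps, composed with a smooth map. -/
theorem compMult_comp {L K p : ℝ} {Q : EuclideanSpace ℂ (Fin n) → EuclideanSpace ℂ (Fin k)}
    (hQ : SmoothMap L Q) (hp : 1 ≤ p) {u : EuclideanSpace ℂ (Fin k) → ℂ} (hu : CompMult K p u) :
    ∃ K', CompMult K' p fun z => u (Q z) := by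
  obtain ⟨m, Q', v, hm, hmK, hQ', hv, huv⟩ := hu
  obtain ⟨B, hB⟩ := UG.GradCarleson_unif (n := m) (A := K) hp (le_refl p)
  obtain ⟨K', hK'⟩ : ∃ K', K' = max (max B |K|) (6 * K * L ^ 2) := ⟨_, rfl⟩
  have h1 : B ≤ K' := by rw [hK']; exact (le_max_left _ _).trans (le_max_left _ _)
  have h2 : |K| ≤ K' := by rw [hK']; exact (le_max_right _ _).trans (le_max_left _ _)
  have h3 : 6 * K * L ^ 2 ≤ K' := by rw [hK']; exact le_max_right _ _
  refine ⟨K', m, fun z => Q' (Q z), v, hm, hmK.trans ((le_abs_self K).trans h2),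
    sm_mono (smooth_comp hQ hQ') h3, ?_, fun z hz => huv _ (hQ.2.2.1 z hz)⟩
  rcases hv with h | h
  · exact Or.inl (UG.DAMultiplier_mono (e := EuclideanSpace.single (⟨0, hm⟩ : Fin m) (1 : ℂ))
      (by simp) h2 h)
  · exact Or.inr (hB v h K' h1)

/-- `PullCarleson` functions composed with a smooth map. -/
theorem pullCarleson_comp {L K p : ℝ} (hp : 1 ≤ p) :
    ∃ K' : ℝ, ∀ (Q : EuclideanSpace ℂ (Fin n) → EuclideanSpace ℂ (Fin k))
      (u : EuclideanSpace ℂ (Fin k) → ℂ), SmoothMap L Q → PullCarleson p K u →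
      PullCarleson p K' fun z => u (Q z) := by
  by_cases hL : 1 ≤ L
  swap
  · exact ⟨0, fun Q v hQ => absurd hQ.1 hL⟩
  have hL0 : 0 < L := by linarith
  obtain ⟨c, hc⟩ : ∃ c : ℝ, c = (243 * L ^ 3) ^ (p / 2) * (2 * L) ^ (p / 2 - 1 / 4) := ⟨_, rfl⟩
  have hc0 : 0 < c := by rw [hc]; positivity
  refine ⟨max (max K (6 * K * L ^ 2)) (c * K), fun Q u hQ hu => ?_⟩
  obtain ⟨hu1, hu2, m, Q', ν, hQ', hν1, hν2⟩ := hu
  refine ⟨hu1.comp hQ.2.1 fun z hz => hQ.2.2.1 z hz, fun z hz => (hu2 _ (hQ.2.2.1 z hz)).trans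
    ((le_max_left _ _).trans (le_max_left _ _)), m, fun z => Q' (Q z), ENNReal.ofReal c • ν,
    sm_mono (smooth_comp hQ hQ') ((le_max_right _ _).trans (le_max_left _ _)), ?_, ?_⟩
  · intro w hw
    rw [Measure.restrict_smul, lintegral_smul_measure]
    calc ENNReal.ofReal c • ∫⁻ ξ in ball (0 : EuclideanSpace ℂ (Fin m)) 1,
          ENNReal.ofReal (invKer w ξ) ∂ν ≤ ENNReal.ofReal c • ENNReal.ofReal K := by
          simp only [smul_eq_mul]
          gcongr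
          exact hν1 w hw
      _ = ENNReal.ofReal (c * K) := by rw [smul_eq_mul, ENNReal.ofReal_mul hc0.le]
      _ ≤ _ := ENNReal.ofReal_le_ofReal (le_max_right _ _)
  · intro z hz
    have hz' := mem_ball_zero_iff.1 hz
    have hQz := exa_lt hQ hz'
    have hQQz := exa_lt hQ' hQz
    obtain ⟨s, hs⟩ : ∃ s, s = 1 - ‖z‖ ^ 2 := ⟨_, rfl⟩
    obtain ⟨s', hs'⟩ : ∃ s', s' = 1 - ‖Q z‖ ^ 2 := ⟨_, rfl⟩
    obtain ⟨s'', hs''⟩ : ∃ s'', s'' = 1 - ‖Q' (Q z)‖ ^ 2 := ⟨_, rfl⟩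
    have hs0 : 0 < s := by rw [hs]; exact one_sub_pos hz'
    have hs'0 : 0 < s' := by rw [hs']; exact one_sub_pos hQz
    have hs''0 : 0 < s'' := by rw [hs'']; exact one_sub_pos hQQz
    have h1 := IG_comp hQ hu1 hz'
    have h2 := hν2 (Q z) (mem_ball_zero_iff.2 hQz)
    have h3 := sm_dist hQ hz'
    have h0 : 0 ≤ IG2 u (Q z) := gd_IG_nonneg hQz
    have h00 : 0 ≤ IG2 (fun z => u (Q z)) z := gd_IG_nonneg hz'
    rw [← hs, ← hs'] at h1 h3
    rw [← hs', ← hs''] at h2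
    obtain ⟨e, he⟩ : ∃ e, e = ∫ ξ in ball (0 : EuclideanSpace ℂ (Fin m)) 1,
      invKer (Q' (Q z)) ξ ^ 2 ∂ν := ⟨_, rfl⟩
    have he0 : 0 ≤ e := by rw [he]; exact integral_nonneg fun _ => sq_nonneg _
    rw [← he] at h2
    rw [Measure.restrict_smul, integral_smul_measure, ENNReal.toReal_ofReal hc0.le, smul_eq_mul,
      ← hs, ← hs'', ← he]
    have hr : s / s' ≤ 2 * L := by
      rw [div_le_iff₀ hs'0]; exact h3
    have hr0 : 0 < s / s' := by positivity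
    have hp2 : 0 ≤ p / 2 := by linarith
    have h4 : (s / s') ^ (p / 2) ≤ (s / s') ^ (1 / 4 : ℝ) * (2 * L) ^ (p / 2 - 1 / 4) := by
      have e1 : (s / s') ^ (p / 2) = (s / s') ^ (1 / 4 : ℝ) * (s / s') ^ (p / 2 - 1 / 4) := by
        rw [← Real.rpow_add hr0]
        congr 1
        ring
      rw [e1]
      have e2 : 0 ≤ p / 2 - 1 / 4 := by linarith
      gcongr
    have h5 : (s / s') ^ (1 / 4 : ℝ) * (s' / s'') ^ (1 / 4 : ℝ) = (s / s'') ^ (1 / 4 : ℝ) := by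
      rw [← Real.mul_rpow (by positivity) (by positivity)]
      congr 1
      field_simp
    have hig : invGrad2 (fun z => u (Q z)) z = IG2 (fun z => u (Q z)) z := CG.invGrad2_eq _ _
    have hig' : invGrad2 u (Q z) = IG2 u (Q z) := CG.invGrad2_eq _ _
    rw [hig'] at h2
    rw [hig]
    calc IG2 (fun z => u (Q z)) z ^ (p / 2)
        ≤ (243 * L ^ 3 * (s / s') * IG2 u (Q z)) ^ (p / 2) := by gcongr
      _ = (243 * L ^ 3) ^ (p / 2) * (s / s') ^ (p / 2) * IG2 u (Q z) ^ (p / 2) := by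
          rw [Real.mul_rpow (by positivity) h0, Real.mul_rpow (by positivity) (by positivity)]
      _ ≤ (243 * L ^ 3) ^ (p / 2) * ((s / s') ^ (1 / 4 : ℝ) * (2 * L) ^ (p / 2 - 1 / 4)) *
          ((s' / s'') ^ (1 / 4 : ℝ) * e) := by gcongr
      _ = ((s / s') ^ (1 / 4 : ℝ) * (s' / s'') ^ (1 / 4 : ℝ)) * (c * e) := by rw [hc]; ring
      _ = (s / s'') ^ (1 / 4 : ℝ) * (c * e) := by rw [h5]

/-- The generators which are closed under composition with smooth maps. -/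
def GensC (n : ℕ) : Set (EuclideanSpace ℂ (Fin n) → ℂ) :=
  {u | ∃ K p : ℝ, 1 ≤ p ∧ (CompMult K p u ∨ PullCarleson p K u)}

theorem gensC_sub : GensC n ⊆ Gens6 n := by
  rintro u ⟨K, p, hp, h | h⟩
  · exact ⟨K, p, _, hp, rate_id, Or.inl (Or.inl h)⟩
  · exact pull_gens6 hp h

theorem closedAlg_mono {S T : Set (EuclideanSpace ℂ (Fin n) → ℂ)} (h : S ⊆ T) :
    ClosedAlg S ⊆ ClosedAlg T := by
  rintro f ⟨hf, h1⟩
  refine ⟨hf, fun ε hε => ?_⟩
  obtain ⟨q, hq, h2⟩ := h1 ε hε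
  exact ⟨q, Algebra.adjoin_mono h hq, h2⟩

theorem gensC_comp {L : ℝ} {Q : EuclideanSpace ℂ (Fin n) → EuclideanSpace ℂ (Fin k)}
    (hQ : SmoothMap L Q) {u : EuclideanSpace ℂ (Fin k) → ℂ} (hu : u ∈ GensC k) :
    (fun z => u (Q z)) ∈ GensC n := by
  obtain ⟨K, p, hp, h | h⟩ := hu
  · obtain ⟨K', h'⟩ := compMult_comp hQ hp h
    exact ⟨K', p, hp, Or.inl h'⟩
  · obtain ⟨K', h'⟩ := pullCarleson_comp (n := n) (k := k) (L := L) (K := K) hp
    exact ⟨K', p, hp, Or.inr (h' Q u hQ h)⟩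

/-- The closed algebra generated by `GensC` is closed under composition with smooth maps. -/
theorem closedAlg_comp {L : ℝ} {Q : EuclideanSpace ℂ (Fin n) → EuclideanSpace ℂ (Fin k)}
    (hQ : SmoothMap L Q) {f : EuclideanSpace ℂ (Fin k) → ℂ} (hf : f ∈ ClosedAlg (GensC k)) :
    (fun z => f (Q z)) ∈ ClosedAlg (GensC n) := by
  obtain ⟨hf1, hf2⟩ := hf
  refine ⟨hf1.comp hQ.2.1 fun z hz => hQ.2.2.1 z hz, fun ε hε => ?_⟩
  obtain ⟨q, hq, h2⟩ := hf2 ε hε
  obtain ⟨φ, hφ⟩ : ∃ φ : (EuclideanSpace ℂ (Fin k) → ℂ) →ₐ[ℂ] (EuclideanSpace ℂ (Fin n) → ℂ),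
      ∀ g, φ g = fun z => g (Q z) :=
    ⟨{ toFun := fun g z => g (Q z)
       map_one' := rfl
       map_mul' := fun _ _ => rfl
       map_zero' := rfl
       map_add' := fun _ _ => rfl
       commutes' := fun _ => rfl }, fun _ => rfl⟩
  refine ⟨φ q, ?_, fun z hz => ?_⟩
  · have h3 : φ q ∈ (Algebra.adjoin ℂ (GensC k)).map φ := ⟨q, hq, rfl⟩
    rw [AlgHom.map_adjoin] at h3
    refine Algebra.adjoin_mono ?_ h3
    rintro _ ⟨u, hu, rfl⟩
    rw [hφ]
    exact gensC_comp hQ hu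
  · rw [hφ]
    exact h2 _ (hQ.2.2.1 z hz)

/-- Compositions of functions of the closed algebra and smooth maps belong to `Alg6`. -/
theorem closedAlg_comp6 {L : ℝ} {Q : EuclideanSpace ℂ (Fin n) → EuclideanSpace ℂ (Fin k)}
    (hQ : SmoothMap L Q) {f : EuclideanSpace ℂ (Fin k) → ℂ} (hf : f ∈ ClosedAlg (GensC k)) :
    (fun z => f (Q z)) ∈ Alg6 n :=
  closedAlg_mono gensC_sub (closedAlg_comp hQ hf)

/-- Finite products and sums, and the former algebra. -/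
theorem alg4_sub_alg6 (hn : 1 ≤ n) : Alg4 n ⊆ Alg6 n := closedAlg_mono (gens4_sub_gens6 hn)

end Pool.Agent.MPca0fc2.CP
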