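import Mathlib
import Pool.Agent.Lib.MP_ca0fc2_an.CPPeak

/-! The bounded holomorphic functions on the domain `|z|² < 1 + c |1 - z · z|`, which touches the
sphere along the real sphere. -/

set_option autoImplicit false

open Metric Set MeasureTheory Filter Topology
open scoped InnerProductSpace ENNReal

namespace Pool.Agent.MPca0fc2.CP

open Pool.Agent.Lib.MP_ca0fc2_an
open Pool.Agent.MPca0fc2.PT

variable {n : ℕ}

/-- the bilinear form `z · X` -/
def bil (z X : EuclideanSpace ℂ (Fin n)) : ℂ := ∑ i, z i * X i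

/-- the domain `|z|² < 1 + c |1 - z · z|` -/
def realDom (n : ℕ) (c : ℝ) : Set (EuclideanSpace ℂ (Fin n)) :=
  {z | ‖z‖ ^ 2 < 1 + c * ‖1 - ∑ i, z i ^ 2‖}

theorem bil_self (z : EuclideanSpace ℂ (Fin n)) : bil z z = ∑ i, z i ^ 2 := by
  unfold bil
  exact Finset.sum_congr rfl fun i _ => (pow_two _).symm

/-- the Cauchy-Schwarz inequality -/
theorem sum_mul_norm_le (a : Fin n → ℂ) (X : EuclideanSpace ℂ (Fin n)) {s : ℝ}
    (hs : ∑ i, ‖a i‖ ^ 2 ≤ s) : ‖∑ i, a i * X i‖ ≤ Real.sqrt s * ‖X‖ := by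
  calc ‖∑ i, a i * X i‖ ≤ ∑ i, ‖a i * X i‖ := norm_sum_le _ _
    _ = ∑ i, ‖a i‖ * ‖X i‖ := by simp only [norm_mul]
    _ ≤ Real.sqrt (∑ i, ‖a i‖ ^ 2) * Real.sqrt (∑ i, ‖X i‖ ^ 2) :=
        Real.sum_mul_le_sqrt_mul_sqrt _ _ _
    _ ≤ Real.sqrt s * ‖X‖ :=
        mul_le_mul (Real.sqrt_le_sqrt hs) (le_of_eq (EuclideanSpace.norm_eq X).symm)
          (Real.sqrt_nonneg _) (Real.sqrt_nonneg _)

theorem bil_le (z X : EuclideanSpace ℂ (Fin n)) : ‖bil z X‖ ≤ ‖z‖ * ‖X‖ := by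
  have h := sum_mul_norm_le (fun i => z i) X (s := ‖z‖ ^ 2)
    (by rw [EuclideanSpace.norm_sq_eq])
  rwa [Real.sqrt_sq (norm_nonneg _)] at h

theorem bil_add (z w X : EuclideanSpace ℂ (Fin n)) : bil (z + w) X = bil z X + bil w X := by
  unfold bil
  rw [← Finset.sum_add_distrib]
  exact Finset.sum_congr rfl fun i _ => by rw [PiLp.add_apply]; ring

theorem bil_comm (z w : EuclideanSpace ℂ (Fin n)) : bil z w = bil w z := by
  unfold bil
  exact Finset.sum_congr rfl fun i _ => mul_comm _ _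

theorem bil_smul (c : ℂ) (z w : EuclideanSpace ℂ (Fin n)) : bil (c • z) w = c * bil z w := by
  unfold bil
  rw [Finset.mul_sum]
  exact Finset.sum_congr rfl fun i _ => by rw [PiLp.smul_apply, smul_eq_mul]; ring

theorem bil_expand (z X : EuclideanSpace ℂ (Fin n)) (t : ℂ) :
    bil (z + t • X) (z + t • X) = bil z z + 2 * t * bil z X + t ^ 2 * bil X X := by
  unfold bil
  rw [Finset.mul_sum, Finset.mul_sum, ← Finset.sum_add_distrib, ← Finset.sum_add_distrib]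
  refine Finset.sum_congr rfl fun i _ => ?_
  rw [PiLp.add_apply, PiLp.smul_apply, smul_eq_mul]
  ring

/-- the bilinear form as a linear form in the second variable -/
noncomputable def bilL (z : EuclideanSpace ℂ (Fin n)) : EuclideanSpace ℂ (Fin n) →L[ℂ] ℂ :=
  LinearMap.mkContinuous
    { toFun := bil z
      map_add' := fun x y => by rw [bil_comm, bil_add, bil_comm x, bil_comm y]
      map_smul' := fun c x => by rw [bil_comm, bil_smul, bil_comm x]; rfl } ‖z‖ (bil_le z)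

theorem bilL_apply (z X : EuclideanSpace ℂ (Fin n)) : bilL z X = bil z X := rfl

theorem bilL_norm (z : EuclideanSpace ℂ (Fin n)) : ‖bilL z‖ ≤ ‖z‖ :=
  LinearMap.mkContinuous_norm_le _ (norm_nonneg _) _

theorem bil_deriv (z : EuclideanSpace ℂ (Fin n)) :
    HasFDerivAt (fun z : EuclideanSpace ℂ (Fin n) => bil z z) ((2 : ℂ) • bilL z) z := by
  rw [hasFDerivAt_iff_isLittleO_nhds_zero]
  have h1 : (fun h : EuclideanSpace ℂ (Fin n) => bil (z + h) (z + h) - bil z z -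
      ((2 : ℂ) • bilL z) h) = fun h => bil h h := by
    funext h
    have := bil_expand z h 1
    rw [one_smul] at this
    rw [this, smul_apply, bilL_apply, smul_eq_mul]
    ring
  rw [h1]
  refine Asymptotics.IsBigO.trans_isLittleO (g := fun h : EuclideanSpace ℂ (Fin n) => ‖h‖ ^ 2)
    (Asymptotics.isBigO_of_le _ fun h => ?_) ?_
  · rw [Real.norm_of_nonneg (sq_nonneg _), pow_two]
    exact bil_le h h
  · exact Asymptotics.isLittleO_norm_pow_id one_lt_two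

/-- the map `z ↦ z · z` into the disc -/
noncomputable def sqMap (z : EuclideanSpace ℂ (Fin n)) : EuclideanSpace ℂ (Fin 1) :=
  bil z z • EuclideanSpace.single 0 (1 : ℂ)

theorem sqMap_deriv (z : EuclideanSpace ℂ (Fin n)) :
    HasFDerivAt (sqMap (n := n)) (((2 : ℂ) • bilL z).smulRight (EuclideanSpace.single 0 (1 : ℂ))) z :=
  (bil_deriv z).smul_const _

theorem sqMap_smooth : SmoothMap 2 (sqMap (n := n)) := by
  have hn1 : ‖(EuclideanSpace.single 0 (1 : ℂ) : EuclideanSpace ℂ (Fin 1))‖ = 1 := by simp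
  refine ⟨by norm_num, fun z _ => (sqMap_deriv z).differentiableAt.differentiableWithinAt, ?_, ?_,
    ?_, ?_⟩
  · intro z hz
    rw [mem_ball_zero_iff] at hz ⊢
    rw [sqMap, norm_smul, hn1, mul_one]
    have := bil_le z z
    nlinarith [norm_nonneg z]
  · have : sqMap (0 : EuclideanSpace ℂ (Fin n)) = 0 := by
      unfold sqMap bil
      simp
    rw [this, norm_zero]
    norm_num
  · intro z hz
    rw [mem_ball_zero_iff] at hz
    rw [(sqMap_deriv z).fderiv, ContinuousLinearMap.norm_smulRight_apply, hn1, mul_one, norm_smul]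
    have := bilL_norm z
    simp only [Complex.norm_ofNat]
    linarith
  · intro z hz w hw
    rw [(sqMap_deriv z).fderiv, (sqMap_deriv w).fderiv]
    have h1 : ((2 : ℂ) • bilL z).smulRight (EuclideanSpace.single 0 (1 : ℂ)) -
        ((2 : ℂ) • bilL w).smulRight (EuclideanSpace.single (0 : Fin 1) (1 : ℂ)) =
        ((2 : ℂ) • bilL (z - w)).smulRight (EuclideanSpace.single 0 (1 : ℂ)) := by
      ext1 X
      simp only [sub_apply, ContinuousLinearMap.smulRight_apply, smul_apply, bilL_apply]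
      rw [← sub_smul, ← smul_sub]
      congr 2
      have := bil_add (z - w) w X
      rw [sub_add_cancel] at this
      rw [this]
      ring
    rw [h1, ContinuousLinearMap.norm_smulRight_apply, hn1, mul_one, norm_smul]
    have := bilL_norm (z - w)
    simp only [Complex.norm_ofNat]
    linarith

/-- the difference between the bilinear form and the inner product -/
theorem bil_inner {z : EuclideanSpace ℂ (Fin n)} (hz : ‖z‖ < 1) (X : EuclideanSpace ℂ (Fin n)) :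
    ‖bil z X‖ ≤ ‖⟪z, X⟫_ℂ‖ + Real.sqrt (2 * ‖1 - bil z z‖) * ‖X‖ := by
  have h1 : bil z X = ⟪z, X⟫_ℂ + ∑ i, (z i - (starRingEnd ℂ) (z i)) * X i := by
    have e1 : ⟪z, X⟫_ℂ = ∑ i, (starRingEnd ℂ) (z i) * X i := by
      rw [PiLp.inner_apply]
      exact Finset.sum_congr rfl fun i _ => by rw [RCLike.inner_apply, mul_comm]
    rw [e1, ← Finset.sum_add_distrib]
    unfold bil
    exact Finset.sum_congr rfl fun i _ => by ring
  have h2 : ∑ i, ‖z i - (starRingEnd ℂ) (z i)‖ ^ 2 ≤ 2 * ‖1 - bil z z‖ := by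
    have e1 : ∀ i, ‖z i - (starRingEnd ℂ) (z i)‖ ^ 2 = 4 * (z i).im ^ 2 := by
      intro i
      rw [Complex.sub_conj, norm_mul, Complex.norm_I, mul_one, Complex.norm_real,
        Real.norm_eq_abs, sq_abs]
      ring
    have e2 : (bil z z).re = ∑ i, ((z i).re ^ 2 - (z i).im ^ 2) := by
      unfold bil
      rw [Complex.re_sum]
      exact Finset.sum_congr rfl fun i _ => by rw [Complex.mul_re]; ring
    have e3 : ‖z‖ ^ 2 = ∑ i, ((z i).re ^ 2 + (z i).im ^ 2) := by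
      rw [EuclideanSpace.norm_sq_eq]
      refine Finset.sum_congr rfl fun i _ => ?_
      rw [← Complex.normSq_eq_norm_sq, Complex.normSq_apply]
      ring
    have e4 : (1 - bil z z).re ≤ ‖1 - bil z z‖ := Complex.re_le_norm _
    rw [Complex.sub_re, Complex.one_re, e2] at e4
    have e5 : ‖z‖ ^ 2 < 1 := by nlinarith [norm_nonneg z]
    rw [e3] at e5
    simp only [e1]
    rw [Finset.sum_add_distrib] at e5
    rw [Finset.sum_sub_distrib] at e4
    rw [← Finset.mul_sum]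
    linarith
  rw [h1]
  refine (norm_add_le _ _).trans (add_le_add le_rfl ?_)
  exact sum_mul_norm_le _ X h2

/-- discs in the domain -/
theorem real_room {c : ℝ} (hc : 0 < c) (hc1 : c ≤ 1) {z X : EuclideanSpace ℂ (Fin n)}
    (hz : ‖z‖ < 1) {t : ℂ} {τ : ℝ} (hτ : τ = 1 - ‖z‖ ^ 2 + c * ‖1 - bil z z‖)
    (h1 : ‖t‖ * ‖⟪z, X⟫_ℂ‖ ≤ τ / 10) (h2 : ‖t‖ * ‖X‖ ≤ Real.sqrt τ / 10) :
    z + t • X ∈ realDom n c := by
  obtain ⟨lam, hlam⟩ : ∃ l, l = ‖1 - bil z z‖ := ⟨_, rfl⟩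
  obtain ⟨a, ha⟩ : ∃ a, a = ‖t‖ * ‖⟪z, X⟫_ℂ‖ := ⟨_, rfl⟩
  obtain ⟨b, hb⟩ : ∃ b, b = ‖t‖ * ‖X‖ := ⟨_, rfl⟩
  rw [← hlam] at hτ
  rw [← ha] at h1
  rw [← hb] at h2
  have hl0 : 0 ≤ lam := by rw [hlam]; exact norm_nonneg _
  have ha0 : 0 ≤ a := by rw [ha]; positivity
  have hb0 : 0 ≤ b := by rw [hb]; positivity
  have hτ0 : 0 < τ := by
    rw [hτ]
    nlinarith [norm_nonneg z, mul_nonneg hc.le hl0]
  have hlτ : c * lam ≤ τ := by
    rw [hτ]
    nlinarith [norm_nonneg z]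
  have hb2 : b ^ 2 ≤ τ / 100 := by
    have e1 : b ^ 2 ≤ (Real.sqrt τ / 10) ^ 2 := pow_le_pow_left₀ hb0 h2 2
    rw [div_pow, Real.sq_sqrt hτ0.le] at e1
    linarith
  -- the norm
  have hn : ‖z + t • X‖ ^ 2 ≤ ‖z‖ ^ 2 + 2 * a + b ^ 2 := by
    have e1 := norm_add_sq (𝕜 := ℂ) z (t • X)
    have e2 : RCLike.re ⟪z, t • X⟫_ℂ ≤ a := by
      refine (RCLike.re_le_norm _).trans (le_of_eq ?_)
      rw [inner_smul_right, norm_mul, ha]
    have e3 : ‖t • X‖ = b := by rw [norm_smul, hb]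
    rw [e3] at e1
    linarith
  -- the quadratic form
  have hq : lam - (2 * (a + Real.sqrt (2 * lam) * b) + b ^ 2) ≤
      ‖1 - bil (z + t • X) (z + t • X)‖ := by
    rw [bil_expand]
    have e1 : 1 - (bil z z + 2 * t * bil z X + t ^ 2 * bil X X) =
        (1 - bil z z) - (2 * t * bil z X + t ^ 2 * bil X X) := by ring
    rw [e1]
    have e2 := norm_sub_norm_le (1 - bil z z) (2 * t * bil z X + t ^ 2 * bil X X)
    have e3 : ‖2 * t * bil z X + t ^ 2 * bil X X‖ ≤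
        2 * (a + Real.sqrt (2 * lam) * b) + b ^ 2 := by
      refine (norm_add_le _ _).trans (add_le_add ?_ ?_)
      · rw [norm_mul, norm_mul, Complex.norm_ofNat]
        have e4 := bil_inner hz X
        rw [← hlam] at e4
        calc 2 * ‖t‖ * ‖bil z X‖ ≤ 2 * ‖t‖ * (‖⟪z, X⟫_ℂ‖ + Real.sqrt (2 * lam) * ‖X‖) := by
              gcongr
          _ = _ := by rw [ha, hb]; ring
      · rw [norm_mul, norm_pow]
        calc ‖t‖ ^ 2 * ‖bil X X‖ ≤ ‖t‖ ^ 2 * (‖X‖ * ‖X‖) := by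
              gcongr
              exact bil_le X X
          _ = _ := by rw [hb]; ring
    rw [← hlam] at e2
    linarith
  have hsq : c * (Real.sqrt (2 * lam) * b) ≤ 15 / 100 * τ := by
    have e1 : (c * (Real.sqrt (2 * lam) * b)) ^ 2 ≤ (15 / 100 * τ) ^ 2 := by
      have e2 : (c * (Real.sqrt (2 * lam) * b)) ^ 2 = c * (c * lam) * (2 * b ^ 2) := by
        rw [mul_pow, mul_pow, Real.sq_sqrt (by positivity)]
        ring
      rw [e2]
      calc c * (c * lam) * (2 * b ^ 2) ≤ 1 * τ * (2 * (τ / 100)) := by gcongr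
        _ ≤ (15 / 100 * τ) ^ 2 := by nlinarith [sq_nonneg τ]
    have e3 : 0 ≤ c * (Real.sqrt (2 * lam) * b) := by positivity
    exact (pow_le_pow_iff_left₀ e3 (by positivity) two_ne_zero).1 e1
  show ‖z + t • X‖ ^ 2 < 1 + c * ‖1 - ∑ i, (z + t • X) i ^ 2‖
  rw [← bil_self]
  have hq' := mul_le_mul_of_nonneg_left hq hc.le
  have hca : c * a ≤ a := by nlinarith
  have hcb : c * b ^ 2 ≤ b ^ 2 := by nlinarith [sq_nonneg b]
  nlinarith

/-- the derivative of a bounded function on the domain -/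
theorem real_grad {c : ℝ} (hc : 0 < c) (hc1 : c ≤ 1) {M : ℝ} {u : EuclideanSpace ℂ (Fin n) → ℂ}
    (hu : DifferentiableOn ℂ u (realDom n c)) (huM : ∀ z ∈ realDom n c, ‖u z‖ ≤ M)
    {z : EuclideanSpace ℂ (Fin n)} (hz : ‖z‖ < 1) {τ : ℝ}
    (hτ : τ = 1 - ‖z‖ ^ 2 + c * ‖1 - bil z z‖) (X : EuclideanSpace ℂ (Fin n)) :
    ‖fderiv ℂ u z X‖ ≤ 10 * M * (‖⟪z, X⟫_ℂ‖ / τ + ‖X‖ / Real.sqrt τ) := by
  have hτ0 : 0 < τ := by
    rw [hτ]
    have : 0 ≤ c * ‖1 - bil z z‖ := by positivity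
    nlinarith [norm_nonneg z]
  have hs0 : 0 < Real.sqrt τ := Real.sqrt_pos.2 hτ0
  have hopen : IsOpen (realDom n c) := by
    have h1 : Continuous fun z : EuclideanSpace ℂ (Fin n) => 1 + c * ‖1 - ∑ i, z i ^ 2‖ := by
      fun_prop
    exact isOpen_lt (by fun_prop) h1
  by_cases hX : X = 0
  · rw [hX]; simp
  have hX0 : 0 < ‖X‖ := norm_pos_iff.2 hX
  obtain ⟨g, hg⟩ : ∃ g, g = ‖⟪z, X⟫_ℂ‖ / τ + ‖X‖ / Real.sqrt τ := ⟨_, rfl⟩
  have hg0 : 0 < g := by rw [hg]; positivity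
  obtain ⟨r, hr⟩ : ∃ r, r = 1 / (10 * g) := ⟨_, rfl⟩
  have hr0 : 0 < r := by rw [hr]; positivity
  have hin : ∀ t : ℂ, ‖t‖ ≤ r → z + t • X ∈ realDom n c := by
    intro t ht
    have h1 : ‖t‖ * g ≤ 1 / 10 := by
      calc ‖t‖ * g ≤ r * g := by gcongr
        _ = 1 / 10 := by rw [hr]; field_simp
    have h2 : ‖t‖ * (‖⟪z, X⟫_ℂ‖ / τ) ≤ 1 / 10 := by
      refine le_trans ?_ h1
      apply mul_le_mul_of_nonneg_left _ (norm_nonneg _)
      rw [hg]
      have : 0 ≤ ‖X‖ / Real.sqrt τ := by positivity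
      linarith
    have h3 : ‖t‖ * (‖X‖ / Real.sqrt τ) ≤ 1 / 10 := by
      refine le_trans ?_ h1
      apply mul_le_mul_of_nonneg_left _ (norm_nonneg _)
      rw [hg]
      have : 0 ≤ ‖⟪z, X⟫_ℂ‖ / τ := by positivity
      linarith
    apply real_room hc hc1 hz hτ
    · rw [← mul_div_assoc, div_le_iff₀ hτ0] at h2
      linarith
    · rw [← mul_div_assoc, div_le_iff₀ hs0] at h3
      linarith
  have hz' : z ∈ realDom n c := by
    have := hin 0 (by rw [norm_zero]; exact hr0.le)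
    rwa [zero_smul, add_zero] at this
  have hF : DifferentiableOn ℂ (fun t : ℂ => u (z + t • X)) (closedBall 0 r) := by
    refine hu.comp (by fun_prop) ?_
    intro t ht
    exact hin t (by simpa using ht)
  have hd : HasDerivAt (fun t : ℂ => u (z + t • X)) (fderiv ℂ u z X) 0 := by
    have h1 : HasFDerivAt u (fderiv ℂ u z) (z + (0 : ℂ) • X) := by
      rw [zero_smul, add_zero]
      exact (hu.differentiableAt (hopen.mem_nhds hz')).hasFDerivAt
    have h2 : HasDerivAt (fun t : ℂ => z + t • X) X 0 := by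
      have := ((hasDerivAt_id (0 : ℂ)).smul_const X).const_add z
      simpa using this
    exact h1.comp_hasDerivAt 0 h2
  have h4 := Complex.norm_deriv_le_of_forall_mem_sphere_norm_le (f := fun t : ℂ => u (z + t • X))
    (c := 0) (C := M) hr0 (hF.diffContOnCl_ball subset_rfl) (fun t ht => huM _ (hin t (by
      rw [mem_sphere_zero_iff_norm] at ht
      exact ht.le)))
  rw [hd.deriv] at h4
  refine h4.trans (le_of_eq ?_)
  rw [hr, ← hg]
  field_simp

/-- All bounded holomorphic functions on the domain `|z|² < 1 + c |1 - z · z|`, which touches the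
unit sphere along the real sphere. -/
theorem pull_real (n : ℕ) {c M : ℝ} (hc : 0 < c) (hc1 : c ≤ 1) :
    ∃ K' : ℝ, ∀ u : EuclideanSpace ℂ (Fin n) → ℂ, DifferentiableOn ℂ u (realDom n c) →
      (∀ z ∈ realDom n c, ‖u z‖ ≤ M) → PullCarleson 4 K' u := by
  obtain ⟨K', hK'⟩ := pull_peak n (L := 2) (K := max M (200 * M ^ 2 / c))
  refine ⟨K', fun u hu huM => ?_⟩
  have hsub : ball (0 : EuclideanSpace ℂ (Fin n)) 1 ⊆ realDom n c := by
    intro z hz
    rw [mem_ball_zero_iff] at hz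
    show ‖z‖ ^ 2 < 1 + c * ‖1 - ∑ i, z i ^ 2‖
    have : 0 ≤ c * ‖1 - ∑ i, z i ^ 2‖ := by positivity
    nlinarith [norm_nonneg z]
  refine hK' sqMap u sqMap_smooth (hu.mono hsub)
    (fun z hz => (huM z (hsub hz)).trans (le_max_left _ _)) ?_
  intro z hz
  have hz' := mem_ball_zero_iff.1 hz
  have hs := one_sub_pos hz'
  obtain ⟨τ, hτ⟩ : ∃ τ, τ = 1 - ‖z‖ ^ 2 + c * ‖1 - bil z z‖ := ⟨_, rfl⟩
  obtain ⟨s, hsd⟩ : ∃ s, s = 1 - ‖z‖ ^ 2 := ⟨_, rfl⟩
  have hl0 : 0 ≤ c * ‖1 - bil z z‖ := by positivity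
  have hsτ : s ≤ τ := by rw [hτ, hsd]; linarith
  rw [← hsd] at hs
  have hτ0 : 0 < τ := by linarith
  have hIG : IG2 u z ≤ 200 * M ^ 2 * (s / τ) := by
    apply IG_le_of_BB hz' (by positivity)
    intro X
    have h1 := real_grad hc hc1 hu huM hz' hτ X
    obtain ⟨a, ha⟩ : ∃ a, a = ‖⟪z, X⟫_ℂ‖ := ⟨_, rfl⟩
    obtain ⟨b, hb⟩ : ∃ b, b = ‖X‖ := ⟨_, rfl⟩
    rw [BB_sq hz', ← hsd, ← ha, ← hb]
    rw [← ha, ← hb] at h1
    have hsq : Real.sqrt τ ^ 2 = τ := Real.sq_sqrt hτ0.le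
    have h2 : ‖fderiv ℂ u z X‖ ^ 2 ≤ (10 * M * (a / τ + b / Real.sqrt τ)) ^ 2 :=
      pow_le_pow_left₀ (norm_nonneg _) h1 2
    have h3 : (a / τ + b / Real.sqrt τ) ^ 2 ≤ 2 * (a ^ 2 / τ ^ 2 + b ^ 2 / τ) := by
      have e1 : (a / τ + b / Real.sqrt τ) ^ 2 ≤ 2 * (a / τ) ^ 2 + 2 * (b / Real.sqrt τ) ^ 2 := by
        nlinarith [sq_nonneg (a / τ - b / Real.sqrt τ)]
      rw [div_pow, div_pow, hsq] at e1
      linarith
    have h4 : a ^ 2 / τ ^ 2 + b ^ 2 / τ ≤ (s / τ) * (b ^ 2 / s + a ^ 2 / s ^ 2) := by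
      have e1 : (s / τ) * (b ^ 2 / s + a ^ 2 / s ^ 2) = b ^ 2 / τ + a ^ 2 / (τ * s) := by
        field_simp
      rw [e1]
      have e2 : a ^ 2 / τ ^ 2 ≤ a ^ 2 / (τ * s) := by
        apply div_le_div_of_nonneg_left (sq_nonneg _) (by positivity)
        nlinarith
      linarith
    calc ‖fderiv ℂ u z X‖ ^ 2 ≤ 100 * M ^ 2 * (a / τ + b / Real.sqrt τ) ^ 2 := by
          refine h2.trans (le_of_eq ?_)
          ring
      _ ≤ 100 * M ^ 2 * (2 * (a ^ 2 / τ ^ 2 + b ^ 2 / τ)) := by gcongr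
      _ ≤ 100 * M ^ 2 * (2 * ((s / τ) * (b ^ 2 / s + a ^ 2 / s ^ 2))) := by gcongr
      _ = _ := by ring
  have hQ0 : (sqMap z) 0 = bil z z := by
    unfold sqMap
    simp
  rw [hQ0, ← hsd]
  have hct : c * ‖1 - bil z z‖ ≤ τ := by
    rw [hτ, ← hsd]; linarith
  have h5 : IG2 u z * ‖1 - bil z z‖ ≤ 200 * M ^ 2 / c * s := by
    calc IG2 u z * ‖1 - bil z z‖ ≤ 200 * M ^ 2 * (s / τ) * ‖1 - bil z z‖ := by gcongr
      _ ≤ 200 * M ^ 2 * (s / τ) * (τ / c) := by
          gcongr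
          rw [le_div_iff₀ hc]
          linarith
      _ = _ := by field_simp
  refine h5.trans ?_
  exact mul_le_mul_of_nonneg_right (le_max_right _ _) hs.le

end Pool.Agent.MPca0fc2.CP
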