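import Mathlib
import Pool.Agent.Lib.MP_ca0fc2_an.Mg.G008
import Pool.Agent.Lib.MP_ca0fc2_an.CPSP

/-! Holomorphic maps of balls which are smooth up to the boundary contract the Bergman metric by the
factor `√((1 - |z|²) / (1 - |Q(z)|²))`. -/

set_option autoImplicit false

open Metric Set Filter Topology
open scoped InnerProductSpace

namespace Pool.Agent.MPca0fc2.CP

open Pool.Agent.Lib.MP_ca0fc2_an
open Pool.Agent.MPca0fc2.PT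

variable {E : Type*} [NormedAddCommGroup E] [InnerProductSpace ℂ E]
variable {G : Type*} [NormedAddCommGroup G] [InnerProductSpace ℂ G]

/-- the distance to the boundary: `1 - |z|² ≤ 2 L (1 - |Q(z)|²)` -/
theorem sm_dist {L : ℝ} {Q : E → G} (hQ : SmoothMap L Q) {z : E} (hz : ‖z‖ < 1) :
    1 - ‖z‖ ^ 2 ≤ 2 * L * (1 - ‖Q z‖ ^ 2) := by
  obtain ⟨hL, hd, hm, h0, -, -⟩ := hQ
  have hL0 : 0 < L := by linarith
  have hQz : ‖Q z‖ < 1 := by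
    have := hm z (mem_ball_zero_iff.2 hz)
    rwa [mem_ball_zero_iff] at this
  have hq : ‖Q 0‖ < 1 := by
    have := hm 0 (mem_ball_self one_pos)
    rwa [mem_ball_zero_iff] at this
  have h1 := HH_schwarz hd hm (x := 0) (y := z) (by simp) hz
  have h2 : HH (0 : E) z = 1 - ‖z‖ ^ 2 := by simp [HH]
  rw [h2] at h1
  refine h1.trans ?_
  unfold HH
  have hq0 := norm_nonneg (Q 0)
  have hz0 := norm_nonneg (Q z)
  have h3 : 1 - ‖Q 0‖ ≤ ‖1 - ⟪Q 0, Q z⟫_ℂ‖ := by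
    have e1 := norm_sub_norm_le (1 : ℂ) ⟪Q 0, Q z⟫_ℂ
    rw [norm_one] at e1
    have e2 := norm_inner_le_norm (𝕜 := ℂ) (Q 0) (Q z)
    nlinarith
  have h4 : 0 < 1 - ‖Q 0‖ := by linarith
  have h5 : 0 < 1 - ‖Q z‖ ^ 2 := by nlinarith
  have h6 : (1 - ‖Q 0‖) ^ 2 ≤ ‖1 - ⟪Q 0, Q z⟫_ℂ‖ ^ 2 := pow_le_pow_left₀ h4.le h3 2
  have h7 : 1 ≤ L * (1 - ‖Q 0‖) := by
    have : 1 / L ≤ 1 - ‖Q 0‖ := by linarith
    rw [div_le_iff₀ hL0] at this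
    linarith
  have h8 : 0 < ‖1 - ⟪Q 0, Q z⟫_ℂ‖ := h4.trans_le h3
  rw [div_le_iff₀ (by positivity)]
  calc (1 - ‖Q 0‖ ^ 2) * (1 - ‖Q z‖ ^ 2) = (1 - ‖Q 0‖) * (1 + ‖Q 0‖) * (1 - ‖Q z‖ ^ 2) := by ring
    _ ≤ (1 - ‖Q 0‖) * 2 * (1 - ‖Q z‖ ^ 2) := by gcongr; linarith
    _ ≤ (L * (1 - ‖Q 0‖)) * ((1 - ‖Q 0‖) * 2 * (1 - ‖Q z‖ ^ 2)) :=
        le_mul_of_one_le_left (by positivity) h7
    _ = 2 * L * (1 - ‖Q z‖ ^ 2) * (1 - ‖Q 0‖) ^ 2 := by ring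
    _ ≤ 2 * L * (1 - ‖Q z‖ ^ 2) * ‖1 - ⟪Q 0, Q z⟫_ℂ‖ ^ 2 := by gcongr

/-- Taylor's formula -/
theorem tan_taylor {L : ℝ} {Q : E → G} (hQ : SmoothMap L Q) {z w : E} (hz : ‖z‖ < 1)
    (hw : ‖w‖ < 1) : ‖Q w - Q z - fderiv ℂ Q z (w - z)‖ ≤ L * ‖w - z‖ ^ 2 := by
  obtain ⟨hL, hd, -, -, -, hlip⟩ := hQ
  have hzb : z ∈ ball (0 : E) 1 := mem_ball_zero_iff.2 hz
  have hwb : w ∈ ball (0 : E) 1 := mem_ball_zero_iff.2 hw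
  have hseg : segment ℝ z w ⊆ ball (0 : E) 1 := (convex_ball _ _).segment_subset hzb hwb
  have hD : ∀ x ∈ segment ℝ z w, HasFDerivWithinAt (fun x => Q x - fderiv ℂ Q z x)
      ((fderiv ℂ Q x - fderiv ℂ Q z).restrictScalars ℝ) (segment ℝ z w) x := by
    intro x hx
    have h1 : HasFDerivAt Q (fderiv ℂ Q x) x :=
      (hd.differentiableAt (isOpen_ball.mem_nhds (hseg hx))).hasFDerivAt
    exact ((h1.sub (fderiv ℂ Q z).hasFDerivAt).restrictScalars ℝ).hasFDerivWithinAt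
  have hb : ∀ x ∈ segment ℝ z w, ‖((fderiv ℂ Q x - fderiv ℂ Q z).restrictScalars ℝ : E →L[ℝ] G)‖ ≤
      L * ‖w - z‖ := by
    intro x hx
    rw [ContinuousLinearMap.norm_restrictScalars]
    refine (hlip x (hseg hx) z hzb).trans ?_
    have h1 : ‖x - z‖ ≤ ‖w - z‖ := by
      obtain ⟨a, b, ha, hb, hab, rfl⟩ := hx
      have h2 : a • z + b • w - z = b • (w - z) := by
        have : a = 1 - b := by linarith
        rw [this]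
        module
      rw [h2, norm_smul, Real.norm_of_nonneg hb]
      have : b ≤ 1 := by linarith
      nlinarith [norm_nonneg (w - z)]
    gcongr
  have h1 := (convex_segment z w).norm_image_sub_le_of_norm_hasFDerivWithin_le hD hb
    (left_mem_segment ℝ z w) (right_mem_segment ℝ z w)
  have h2 : Q w - fderiv ℂ Q z w - (Q z - fderiv ℂ Q z z) = Q w - Q z - fderiv ℂ Q z (w - z) := by
    rw [map_sub]
    abel
  rw [h2] at h1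
  calc _ ≤ L * ‖w - z‖ * ‖w - z‖ := h1
    _ = L * ‖w - z‖ ^ 2 := by ring

/-- the tangential bound for a unit vector -/
theorem sm_tan_unit {L : ℝ} {Q : E → G} (hQ : SmoothMap L Q) {z : E} (hz : ‖z‖ < 1)
    (hz2 : 1 / 2 ≤ ‖z‖) {X : E} (hX : ‖X‖ = 1) (hzX : ⟪z, X⟫_ℂ = 0) :
    ‖⟪Q z, fderiv ℂ Q z X⟫_ℂ‖ ≤ 11 * L * Real.sqrt (1 - ‖Q z‖ ^ 2) := by
  have hQ' := hQ
  obtain ⟨hL, hd, hm, -, hder, -⟩ := hQ
  have hQz : ‖Q z‖ < 1 := by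
    have := hm z (mem_ball_zero_iff.2 hz)
    rwa [mem_ball_zero_iff] at this
  obtain ⟨t, ht⟩ : ∃ t, t = 1 - ‖Q z‖ ^ 2 := ⟨_, rfl⟩
  have ht0 : 0 < t := by rw [ht]; nlinarith [norm_nonneg (Q z)]
  have ht1 : t ≤ 1 := by rw [ht]; nlinarith [norm_nonneg (Q z)]
  rw [← ht]
  obtain ⟨σ, hσ⟩ : ∃ σ, σ = Real.sqrt t := ⟨_, rfl⟩
  have hσ0 : 0 < σ := by rw [hσ]; exact Real.sqrt_pos.2 ht0
  have hσ2 : σ ^ 2 = t := by rw [hσ]; exact Real.sq_sqrt ht0.le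
  have hσ1 : σ ≤ 1 := by nlinarith
  rw [← hσ]
  -- rotate the vector
  obtain ⟨c, hc⟩ : ∃ c, c = ⟪Q z, fderiv ℂ Q z X⟫_ℂ := ⟨_, rfl⟩
  rw [← hc]
  by_cases hc0 : c = 0
  · rw [hc0, norm_zero]; positivity
  obtain ⟨τ, hτ1, hτ2⟩ : ∃ τ : ℂ, ‖τ‖ = 1 ∧ τ * c = (‖c‖ : ℂ) := by
    refine ⟨(‖c‖ : ℂ) / c, ?_, ?_⟩
    · rw [norm_div, Complex.norm_real, norm_norm, div_self (norm_ne_zero_iff.2 hc0)]
    · rw [div_mul_cancel₀ _ hc0]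
  obtain ⟨k, hk⟩ : ∃ k, k = Real.sqrt (1 - σ ^ 2) := ⟨_, rfl⟩
  have hk2 : k ^ 2 = 1 - σ ^ 2 := by
    rw [hk]; exact Real.sq_sqrt (by nlinarith)
  have hk0 : 0 ≤ k := by rw [hk]; exact Real.sqrt_nonneg _
  have hk1 : k ≤ 1 := by nlinarith
  have hk3 : 1 - k ≤ σ ^ 2 := by nlinarith
  -- the second point
  obtain ⟨Y, hY⟩ : ∃ Y : E, Y = (((σ * ‖z‖ : ℝ) : ℂ) * τ) • X := ⟨_, rfl⟩
  obtain ⟨w, hw⟩ : ∃ w : E, w = ((k : ℝ) : ℂ) • z + Y := ⟨_, rfl⟩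
  have hYn : ‖Y‖ = σ * ‖z‖ := by
    rw [hY, norm_smul, norm_mul, hτ1, hX, Complex.norm_real, Real.norm_of_nonneg (by positivity)]
    ring
  have hzY : ⟪((k : ℝ) : ℂ) • z, Y⟫_ℂ = 0 := by
    rw [hY, inner_smul_left, inner_smul_right, hzX]
    ring
  have hwn : ‖w‖ ^ 2 = ‖z‖ ^ 2 := by
    have h1 := norm_add_sq_eq_norm_sq_add_norm_sq_of_inner_eq_zero (((k : ℝ) : ℂ) • z) Y hzY
    rw [hw, sq, h1, norm_smul, Complex.norm_real, Real.norm_of_nonneg hk0, hYn]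
    have : k * ‖z‖ * (k * ‖z‖) + σ * ‖z‖ * (σ * ‖z‖) = (k ^ 2 + σ ^ 2) * ‖z‖ ^ 2 := by ring
    rw [this, hk2]
    ring
  have hw1 : ‖w‖ < 1 := by
    have : ‖w‖ = ‖z‖ := by
      have := (pow_left_inj₀ (norm_nonneg w) (norm_nonneg z) two_ne_zero).1 hwn
      exact this
    rw [this]; exact hz
  have hQw : ‖Q w‖ < 1 := by
    have := hm w (mem_ball_zero_iff.2 hw1)
    rwa [mem_ball_zero_iff] at this
  have hwz : w - z = ((k - 1 : ℝ) : ℂ) • z + Y := by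
    rw [hw]
    push_cast
    module
  have hwzn : ‖w - z‖ ≤ 2 * σ := by
    rw [hwz]
    refine (norm_add_le _ _).trans ?_
    rw [norm_smul, Complex.norm_real, Real.norm_eq_abs, abs_of_nonpos (by linarith), hYn]
    nlinarith [norm_nonneg z]
  have htay := tan_taylor hQ' hz hw1
  obtain ⟨R, hR⟩ : ∃ R, R = Q w - Q z - fderiv ℂ Q z (w - z) := ⟨_, rfl⟩
  rw [← hR] at htay
  have hRn : ‖R‖ ≤ 4 * L * σ ^ 2 := by
    refine htay.trans ?_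
    have : ‖w - z‖ ^ 2 ≤ (2 * σ) ^ 2 := pow_le_pow_left₀ (norm_nonneg _) hwzn 2
    calc L * ‖w - z‖ ^ 2 ≤ L * (2 * σ) ^ 2 := by gcongr
      _ = _ := by ring
  have hQw2 : Q w = Q z + (fderiv ℂ Q z (w - z) + R) := by
    rw [hR]; abel
  -- the expansion
  have hexp : ‖Q z‖ ^ 2 + 2 * (⟪Q z, fderiv ℂ Q z (w - z) + R⟫_ℂ).re ≤ ‖Q w‖ ^ 2 := by
    rw [hQw2, norm_add_sq (𝕜 := ℂ)]
    have := sq_nonneg ‖fderiv ℂ Q z (w - z) + R‖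
    simp only [RCLike.re_to_complex]
    linarith
  have hinner : ⟪Q z, fderiv ℂ Q z (w - z) + R⟫_ℂ = ((σ * ‖z‖ * ‖c‖ : ℝ) : ℂ) +
      ((k - 1 : ℝ) : ℂ) * ⟪Q z, fderiv ℂ Q z z⟫_ℂ + ⟪Q z, R⟫_ℂ := by
    rw [inner_add_right, hwz, map_add, map_smul, hY, map_smul, inner_add_right, inner_smul_right,
      inner_smul_right, ← hc, mul_assoc, hτ2]
    push_cast
    ring
  have hre : σ * ‖z‖ * ‖c‖ - 5 * L * σ ^ 2 ≤ (⟪Q z, fderiv ℂ Q z (w - z) + R⟫_ℂ).re := by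
    rw [hinner]
    simp only [Complex.add_re, Complex.ofReal_re, Complex.re_ofReal_mul]
    have e1 : |(⟪Q z, fderiv ℂ Q z z⟫_ℂ).re| ≤ L := by
      refine (Complex.abs_re_le_norm _).trans ((norm_inner_le_norm _ _).trans ?_)
      have e2 := (fderiv ℂ Q z).le_opNorm z
      have e3 := hder z (mem_ball_zero_iff.2 hz)
      calc ‖Q z‖ * ‖fderiv ℂ Q z z‖ ≤ 1 * (L * 1) := by
            refine mul_le_mul hQz.le (e2.trans ?_) (norm_nonneg _) zero_le_one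
            exact mul_le_mul e3 hz.le (norm_nonneg _) (by linarith)
        _ = L := by ring
    have e4 : |(⟪Q z, R⟫_ℂ).re| ≤ 4 * L * σ ^ 2 := by
      refine (Complex.abs_re_le_norm _).trans ((norm_inner_le_norm _ _).trans ?_)
      calc ‖Q z‖ * ‖R‖ ≤ 1 * (4 * L * σ ^ 2) :=
            mul_le_mul hQz.le hRn (norm_nonneg _) zero_le_one
        _ = _ := by ring
    have e5 : |(k - 1) * (⟪Q z, fderiv ℂ Q z z⟫_ℂ).re| ≤ σ ^ 2 * L := by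
      rw [abs_mul]
      refine mul_le_mul ?_ e1 (abs_nonneg _) (by positivity)
      rw [abs_of_nonpos (by linarith)]
      linarith
    have e6 := (abs_le.1 e4).1
    have e7 := (abs_le.1 e5).1
    linarith
  have hfin : 2 * (σ * ‖z‖ * ‖c‖) ≤ t + 10 * L * σ ^ 2 := by
    have e1 : ‖Q w‖ ^ 2 ≤ 1 := by nlinarith [norm_nonneg (Q w)]
    rw [ht]
    linarith
  rw [← hσ2] at hfin
  have h8 : σ * ‖c‖ ≤ 2 * (σ * ‖z‖ * ‖c‖) := by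
    have : 0 ≤ σ * ‖c‖ := by positivity
    nlinarith
  have h9 : σ * ‖c‖ ≤ σ * ((1 + 10 * L) * σ) := by
    calc σ * ‖c‖ ≤ σ ^ 2 + 10 * L * σ ^ 2 := h8.trans hfin
      _ = _ := by ring
  have h10 : ‖c‖ ≤ (1 + 10 * L) * σ := le_of_mul_le_mul_left h9 hσ0
  refine h10.trans ?_
  gcongr
  linarith

/-- the tangential bound -/
theorem sm_tan {L : ℝ} {Q : E → G} (hQ : SmoothMap L Q) {z : E} (hz : ‖z‖ < 1)
    (hz2 : 1 / 2 ≤ ‖z‖) {X : E} (hzX : ⟪z, X⟫_ℂ = 0) :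
    ‖⟪Q z, fderiv ℂ Q z X⟫_ℂ‖ ≤ 11 * L * Real.sqrt (1 - ‖Q z‖ ^ 2) * ‖X‖ := by
  by_cases hX : X = 0
  · rw [hX, map_zero, inner_zero_right, norm_zero, norm_zero, mul_zero]
  have hn : ‖X‖ ≠ 0 := norm_ne_zero_iff.2 hX
  obtain ⟨V, hV⟩ : ∃ V : E, V = ((‖X‖⁻¹ : ℝ) : ℂ) • X := ⟨_, rfl⟩
  have hV1 : ‖V‖ = 1 := by
    rw [hV, norm_smul, Complex.norm_real, norm_inv, norm_norm, inv_mul_cancel₀ hn]
  have hXV : X = ((‖X‖ : ℝ) : ℂ) • V := by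
    rw [hV, smul_smul, ← Complex.ofReal_mul, mul_inv_cancel₀ hn, Complex.ofReal_one, one_smul]
  have h1 := sm_tan_unit hQ hz hz2 hV1 (by rw [hV, inner_smul_right, hzX, mul_zero])
  have h2 : ⟪Q z, fderiv ℂ Q z X⟫_ℂ = ((‖X‖ : ℝ) : ℂ) * ⟪Q z, fderiv ℂ Q z V⟫_ℂ := by
    conv_lhs => rw [hXV, map_smul, inner_smul_right]
  rw [h2, norm_mul, Complex.norm_real, norm_norm, mul_comm]
  gcongr

/-- the bound for the component of the derivative in the direction of the image -/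
theorem sm_normal {L : ℝ} {Q : E → G} (hQ : SmoothMap L Q) {z : E} (hz : ‖z‖ < 1)
    (hz2 : 1 / 2 ≤ ‖z‖) (X : E) :
    ‖⟪Q z, fderiv ℂ Q z X⟫_ℂ‖ ≤ 2 * L * ‖⟪z, X⟫_ℂ‖ +
      11 * L * Real.sqrt (1 - ‖Q z‖ ^ 2) * ‖X‖ := by
  have hQ' := hQ
  obtain ⟨hL, hd, hm, -, hder, -⟩ := hQ
  have hQz : ‖Q z‖ < 1 := by
    have := hm z (mem_ball_zero_iff.2 hz)
    rwa [mem_ball_zero_iff] at this
  have hz0 : 0 < ‖z‖ := by linarith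
  have hzz : ⟪z, z⟫_ℂ = ((‖z‖ ^ 2 : ℝ) : ℂ) := by
    rw [inner_self_eq_norm_sq_to_K]; norm_cast
  obtain ⟨a, ha⟩ : ∃ a : ℂ, a = ⟪z, X⟫_ℂ / ((‖z‖ ^ 2 : ℝ) : ℂ) := ⟨_, rfl⟩
  have hz2' : ((‖z‖ ^ 2 : ℝ) : ℂ) ≠ 0 := by
    exact_mod_cast (by positivity : (‖z‖ ^ 2 : ℝ) ≠ 0)
  obtain ⟨T, hT⟩ : ∃ T : E, T = X - a • z := ⟨_, rfl⟩
  have hzT : ⟪z, T⟫_ℂ = 0 := by
    rw [hT, inner_sub_right, inner_smul_right, hzz, ha, div_mul_cancel₀ _ hz2', sub_self]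
  have hXT : X = a • z + T := by rw [hT]; abel
  have hTn : ‖T‖ ≤ ‖X‖ := by
    have h1 : ⟪a • z, T⟫_ℂ = 0 := by rw [inner_smul_left, hzT, mul_zero]
    have h2 := norm_add_sq_eq_norm_sq_add_norm_sq_of_inner_eq_zero (a • z) T h1
    rw [← hXT] at h2
    have h3 : ‖T‖ ^ 2 ≤ ‖X‖ ^ 2 := by nlinarith [mul_self_nonneg ‖a • z‖]
    exact (pow_le_pow_iff_left₀ (norm_nonneg _) (norm_nonneg _) two_ne_zero).1 h3
  have han : ‖a‖ * ‖z‖ ≤ 2 * ‖⟪z, X⟫_ℂ‖ := by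
    rw [ha, norm_div, Complex.norm_real, Real.norm_of_nonneg (by positivity)]
    rw [div_mul_eq_mul_div, div_le_iff₀ (by positivity)]
    have h1 : ‖z‖ ≤ 2 * ‖z‖ ^ 2 := by nlinarith
    calc ‖⟪z, X⟫_ℂ‖ * ‖z‖ ≤ ‖⟪z, X⟫_ℂ‖ * (2 * ‖z‖ ^ 2) := by gcongr
      _ = _ := by ring
  have h4 : ⟪Q z, fderiv ℂ Q z X⟫_ℂ = a * ⟪Q z, fderiv ℂ Q z z⟫_ℂ + ⟪Q z, fderiv ℂ Q z T⟫_ℂ := by
    conv_lhs => rw [hXT, map_add, map_smul, inner_add_right, inner_smul_right]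
  have h5 : ‖⟪Q z, fderiv ℂ Q z z⟫_ℂ‖ ≤ L * ‖z‖ := by
    refine (norm_inner_le_norm _ _).trans ?_
    have e2 := (fderiv ℂ Q z).le_opNorm z
    have e3 := hder z (mem_ball_zero_iff.2 hz)
    calc ‖Q z‖ * ‖fderiv ℂ Q z z‖ ≤ 1 * (L * ‖z‖) := by
          refine mul_le_mul hQz.le (e2.trans ?_) (norm_nonneg _) zero_le_one
          exact mul_le_mul_of_nonneg_right e3 (norm_nonneg _)
      _ = L * ‖z‖ := by ring
  have h6 := sm_tan hQ' hz hz2 hzT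
  have hs0 := Real.sqrt_nonneg (1 - ‖Q z‖ ^ 2)
  rw [h4]
  refine (norm_add_le _ _).trans ?_
  rw [norm_mul]
  calc ‖a‖ * ‖⟪Q z, fderiv ℂ Q z z⟫_ℂ‖ + ‖⟪Q z, fderiv ℂ Q z T⟫_ℂ‖
      ≤ ‖a‖ * (L * ‖z‖) + 11 * L * Real.sqrt (1 - ‖Q z‖ ^ 2) * ‖T‖ := by gcongr
    _ = L * (‖a‖ * ‖z‖) + 11 * L * Real.sqrt (1 - ‖Q z‖ ^ 2) * ‖T‖ := by ring
    _ ≤ L * (2 * ‖⟪z, X⟫_ℂ‖) + 11 * L * Real.sqrt (1 - ‖Q z‖ ^ 2) * ‖X‖ := by gcongr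
    _ = _ := by ring

/-- Contraction of the Bergman metric. -/
theorem sm_BB {L : ℝ} {Q : E → G} (hQ : SmoothMap L Q) {z : E} (hz : ‖z‖ < 1) (X : E) :
    BB (Q z) (fderiv ℂ Q z X) ^ 2 ≤
      243 * L ^ 3 * ((1 - ‖z‖ ^ 2) / (1 - ‖Q z‖ ^ 2)) * BB z X ^ 2 := by
  have hQ' := hQ
  have hst := sm_dist hQ hz
  obtain ⟨hL, hd, hm, -, hder, -⟩ := hQ
  have hQz : ‖Q z‖ < 1 := by
    have := hm z (mem_ball_zero_iff.2 hz)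
    rwa [mem_ball_zero_iff] at this
  have hs0 : 0 < 1 - ‖z‖ ^ 2 := one_sub_pos hz
  have ht0 : 0 < 1 - ‖Q z‖ ^ 2 := one_sub_pos hQz
  have ht1 : 1 - ‖Q z‖ ^ 2 ≤ 1 := by nlinarith [norm_nonneg (Q z)]
  rcases lt_or_ge ‖z‖ (1 / 2) with hlt | hge
  · have h1 := BB_schwarz hd hm hz X
    have h2 : BB (Q z) (fderiv ℂ Q z X) ^ 2 ≤ BB z X ^ 2 :=
      pow_le_pow_left₀ (BB_nonneg _ _) h1 2
    refine h2.trans (le_mul_of_one_le_left (sq_nonneg _) ?_)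
    have h3 : 3 / 4 ≤ (1 - ‖z‖ ^ 2) / (1 - ‖Q z‖ ^ 2) := by
      rw [le_div_iff₀ ht0]
      nlinarith [norm_nonneg z]
    have h4 : 1 ≤ L ^ 3 := one_le_pow₀ hL
    nlinarith
  · obtain ⟨s, hs⟩ : ∃ s, s = 1 - ‖z‖ ^ 2 := ⟨_, rfl⟩
    obtain ⟨t, ht⟩ : ∃ t, t = 1 - ‖Q z‖ ^ 2 := ⟨_, rfl⟩
    have h1 := sm_normal hQ' hz hge X
    have h2 : ‖fderiv ℂ Q z X‖ ≤ L * ‖X‖ := by
      refine ((fderiv ℂ Q z).le_opNorm X).trans ?_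
      exact mul_le_mul_of_nonneg_right (hder z (mem_ball_zero_iff.2 hz)) (norm_nonneg _)
    rw [BB_sq hQz, BB_sq hz, ← hs, ← ht]
    rw [← ht] at h1
    rw [← hs] at hs0 hst
    rw [← ht] at ht0 ht1 hst
    obtain ⟨a, ha⟩ : ∃ a, a = ‖⟪z, X⟫_ℂ‖ := ⟨_, rfl⟩
    obtain ⟨b, hb⟩ : ∃ b, b = ‖X‖ := ⟨_, rfl⟩
    obtain ⟨c, hc⟩ : ∃ c, c = ‖⟪Q z, fderiv ℂ Q z X⟫_ℂ‖ := ⟨_, rfl⟩
    obtain ⟨d, hdd⟩ : ∃ d, d = ‖fderiv ℂ Q z X‖ := ⟨_, rfl⟩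
    rw [← ha, ← hb, ← hc] at h1
    rw [← hb, ← hdd] at h2
    rw [← ha, ← hb, ← hc, ← hdd]
    have ha0 : 0 ≤ a := by rw [ha]; exact norm_nonneg _
    have hb0 : 0 ≤ b := by rw [hb]; exact norm_nonneg _
    have hc0 : 0 ≤ c := by rw [hc]; exact norm_nonneg _
    have hd0 : 0 ≤ d := by rw [hdd]; exact norm_nonneg _
    have hsq : Real.sqrt t ^ 2 = t := Real.sq_sqrt ht0.le
    have hsq0 := Real.sqrt_nonneg t
    have e1 : c ^ 2 ≤ 8 * L ^ 2 * a ^ 2 + 242 * L ^ 2 * t * b ^ 2 := by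
      have e2 : c ^ 2 ≤ (2 * L * a + 11 * L * Real.sqrt t * b) ^ 2 := pow_le_pow_left₀ hc0 h1 2
      have e3 : (2 * L * a + 11 * L * Real.sqrt t * b) ^ 2 ≤
          2 * (2 * L * a) ^ 2 + 2 * (11 * L * Real.sqrt t * b) ^ 2 := by
        nlinarith [sq_nonneg (2 * L * a - 11 * L * Real.sqrt t * b)]
      have e4 : 2 * (2 * L * a) ^ 2 + 2 * (11 * L * Real.sqrt t * b) ^ 2 =
          8 * L ^ 2 * a ^ 2 + 242 * L ^ 2 * Real.sqrt t ^ 2 * b ^ 2 := by ring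
      rw [e4, hsq] at e3
      exact e2.trans e3
    have e5 : d ^ 2 ≤ L ^ 2 * b ^ 2 := by
      calc d ^ 2 ≤ (L * b) ^ 2 := pow_le_pow_left₀ hd0 h2 2
        _ = _ := by ring
    have hL0 : 0 < L := by linarith
    have e6 : d ^ 2 / t + c ^ 2 / t ^ 2 ≤ 243 * L ^ 2 * b ^ 2 / t + 8 * L ^ 2 * a ^ 2 / t ^ 2 := by
      calc d ^ 2 / t + c ^ 2 / t ^ 2 ≤ L ^ 2 * b ^ 2 / t +
            (8 * L ^ 2 * a ^ 2 + 242 * L ^ 2 * t * b ^ 2) / t ^ 2 := by gcongr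
        _ = _ := by field_simp; ring
    have e7 : 243 * L ^ 3 * (s / t) * (b ^ 2 / s + a ^ 2 / s ^ 2) =
        243 * L ^ 3 * b ^ 2 / t + 243 * L ^ 3 * a ^ 2 / (s * t) := by
      field_simp
    rw [e7]
    refine e6.trans (add_le_add ?_ ?_)
    · rw [div_le_div_iff_of_pos_right ht0]
      have : L ^ 2 ≤ L ^ 3 := pow_le_pow_right₀ hL (by norm_num)
      have hb2 := sq_nonneg b
      nlinarith
    · rw [div_le_div_iff₀ (by positivity) (by positivity)]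
      have f1 : 0 ≤ L ^ 2 * a ^ 2 * t := by positivity
      calc 8 * L ^ 2 * a ^ 2 * (s * t) = 8 * (L ^ 2 * a ^ 2 * t) * s := by ring
        _ ≤ 8 * (L ^ 2 * a ^ 2 * t) * (2 * L * t) := by gcongr
        _ = 16 * L ^ 3 * a ^ 2 * t ^ 2 := by ring
        _ ≤ 243 * L ^ 3 * a ^ 2 * t ^ 2 := by gcongr; norm_num

end Pool.Agent.MPca0fc2.CP
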