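import Mathlib
import Pool.Agent.Lib.MP_ca0fc2_an.CVBase
import Pool.Agent.Lib.MP_ca0fc2_an.CVSolve
import Pool.Agent.Lib.MP_ca0fc2_an.DAClosed
import Pool.Agent.Lib.MP_ca0fc2_an.DiscCor

/-!
# The cluster value theorem over the multiplier algebra
-/

set_option autoImplicit false

open Metric Set Filter Topology

namespace Pool.Agent.MPca0fc2.CV

open Pool.Agent.Lib.MP_ca0fc2_an

variable {n : ℕ}

theorem MultAlg_const (c : ℂ) : (fun _ => c) ∈ MultAlg n := by
  refine ⟨differentiableOn_const c, fun ε hε => ⟨algebraMap ℂ _ c, Subalgebra.algebraMap_mem _ c,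
    fun z _ => ?_⟩⟩
  rw [Pi.algebraMap_apply, Algebra.algebraMap_self, RingHom.id_apply, sub_self, norm_zero]
  exact hε.le

theorem MultAlg_sub_const {g : EuclideanSpace ℂ (Fin n) → ℂ} (hg : g ∈ MultAlg n) (c : ℂ) :
    (fun z => g z - c) ∈ MultAlg n := by
  refine ⟨hg.1.sub (differentiableOn_const c), fun ε hε => ?_⟩
  obtain ⟨q, hq, h⟩ := hg.2 ε hε
  refine ⟨q - algebraMap ℂ _ c, Subalgebra.sub_mem _ hq (Subalgebra.algebraMap_mem _ c),
    fun z hz => ?_⟩
  rw [Pi.sub_apply, Pi.algebraMap_apply, Algebra.algebraMap_self, RingHom.id_apply]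
  have h1 : g z - c - (q z - c) = g z - q z := by ring
  rw [h1]
  exact h z hz

/-- **The cluster value theorem over the multiplier algebra.** -/
theorem cluster_mult (hn : 2 ≤ n) (m : Hinf n →ₐ[ℂ] ℂ) (f : Hinf n) :
    ∃ U : Ultrafilter (ball (0 : EuclideanSpace ℂ (Fin n)) 1), Tendsto f.1 U (𝓝 (m f)) ∧
      ∀ a : Hinf n, (∃ g ∈ MultAlg n, ∀ z, a.1 z = g z) → Tendsto a.1 U (𝓝 (m a)) := by
  classical
  have key := cluster_gen (Hinf n) m
    (insert f {a : Hinf n | ∃ g ∈ MultAlg n, ∀ z, a.1 z = g z}) (by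
      intro s hs δ hδ hsum
      apply solve_finset s (fun a => m a)
      have hs' : ∀ a : Hinf n, ∃ g : EuclideanSpace ℂ (Fin n) → ℂ, g ∈ MultAlg n ∧
          (a ∈ s → a ≠ f → ∀ z, a.1 z = g z) := by
        intro a
        by_cases h : a ∈ s ∧ a ≠ f
        · rcases hs a h.1 with h1 | ⟨g, hg, h1⟩
          · exact absurd h1 h.2
          · exact ⟨g, hg, fun _ _ => h1⟩
        · exact ⟨fun _ => 0, MultAlg_const 0, fun h1 h2 => absurd ⟨h1, h2⟩ h⟩
      choose G hG hGeq using hs'
      obtain ⟨R, hR⟩ := ext_bdd f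
      obtain ⟨e, he⟩ : ∃ e : Fin s.card → Hinf n, e = fun j => (s.equivFin.symm j).1 := ⟨_, rfl⟩
      have hes : ∀ j, e j ∈ s := fun j => by rw [he]; exact (s.equivFin.symm j).2
      obtain ⟨c, hc⟩ : ∃ c : Fin s.card → Fin 2 → EuclideanSpace ℂ (Fin n) → ℂ, c = fun j i =>
        if e j = f then (if i = 0 then fun _ => -m f else fun _ => 1) else
          (if i = 0 then fun z => G (e j) z - m (e j) else fun _ => 0) := ⟨_, rfl⟩
      have hcA : ∀ j i, c j i ∈ MultAlg n := by
        intro j i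
        rw [hc]
        simp only
        split_ifs
        · exact MultAlg_const _
        · exact MultAlg_const _
        · exact MultAlg_sub_const (hG _) _
        · exact MultAlg_const _
      have hval : ∀ j, ∀ z ∈ ball (0 : EuclideanSpace ℂ (Fin n)) 1,
          ∑ i, c j i z * ext f z ^ (i : ℕ) = ext (e j) z - m (e j) := by
        intro j z hz
        rw [Fin.sum_univ_two, hc]
        by_cases h : e j = f
        · simp [h]
          ring
        · simp only [h, if_false, if_true, Fin.val_zero, pow_zero, mul_one, Fin.val_one, pow_one]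
          rw [← hGeq (e j) (hes j) h ⟨z, hz⟩, ext_eq (e j) ⟨z, hz⟩]
          simp
      obtain ⟨C, hC⟩ := DA.alg_closed discCorona hn s.card 2 δ R hδ (ext f) (ext_hol f) hR c hcA
        (by
          intro z hz
          have h1 := hsum ⟨z, hz⟩
          refine h1.trans (le_of_eq ?_)
          rw [← Finset.sum_attach, ← Equiv.sum_comp s.equivFin]
          refine Finset.sum_congr rfl fun a _ => ?_
          rw [hval _ z hz, he]
          simp only [Equiv.symm_apply_apply]
          rw [ext_eq a.1 ⟨z, hz⟩])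
      obtain ⟨h, h1, h2, h3⟩ := hC
      refine ⟨C, h, h1, h2, fun z hz => ?_⟩
      rw [← h3 z hz]
      refine Finset.sum_congr rfl fun j _ => ?_
      beta_reduce
      rw [hval j z hz, he])
  obtain ⟨U, hU⟩ := key
  exact ⟨U, hU f (mem_insert _ _), fun a ha => hU a (mem_insert_of_mem _ ha)⟩

end Pool.Agent.MPca0fc2.CV
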