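import Mathlib
import Pool.Agent.Lib.MP_ca0fc2_an.SLAug

/-!
Task CX AugA: the decay of the derivative of the one variable function `gg`.
PROOF. As in `aug_fn` of the Lib file `SLAug` (there `K = 1`), with `α ≤ e k / (8 K)` for `k ≤ k₁`
(`exists_alpha` for the sequence `e / K`), `gg_deriv_norm`, `norm_ZZ`. For `k = k₁ + n`: the left side is
`≤ 2 K α 2^(-nα)`, and `1 / e (k₁ + n) ≤ 1/(8 K α) + n/(8 K) = (1 + n α)/(8 K α)`, so
`e (k₁ + n) ≥ 8 K α / (1 + n α) ≥ 2 K α 2^(-nα)` because `1 + n α ≤ 4 * 2^(nα)`.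
-/

set_option autoImplicit false

open Metric Set MeasureTheory Filter Topology
open scoped ComplexOrder

namespace Pool.Agent.MPca0fc2.CX

open Pool.Agent.MPca0fc2.SD
open Pool.Agent.MPca0fc2.SL

/-- The decay of the derivative of the function `gg α k₁`. -/
theorem gg_decay {e : ℕ → ℝ} {ε K : ℝ} (hpos : ∀ k, 0 < e k)
    (hlip : ∀ k, |1 / e (k + 1) - 1 / e k| ≤ ε) (hK : 1 ≤ K) (hε : ε ≤ 1 / (8 * K)) (k₁ : ℕ) :
    ∃ α : ℝ, 0 < α ∧ α ≤ 1 / 8 ∧ ∀ (k : ℕ) (u : ℂ), 0 < u.re → (1 / 2) ^ k ≤ ‖u‖ →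
      K * ‖2 * (α * ZZ α k₁ u) / (u * (1 + ZZ α k₁ u) ^ 2)‖ * (1 / 2) ^ k ≤ e k := by
  have hK0 : 0 < K := by linarith
  obtain ⟨α, hα0, hα8, hαe⟩ := exists_alpha (e := fun k => e k / K)
    (fun k => div_pos (hpos k) hK0) k₁
  have hα1 : α ≤ 1 := by linarith
  have hαe' : ∀ k ≤ k₁, K * α ≤ e k / 8 := by
    intro k hk
    have h1 := hαe k hk
    have h2 : K * α ≤ K * (e k / K / 8) := by gcongr
    refine h2.trans (le_of_eq ?_)
    field_simp
  refine ⟨α, hα0, hα8, fun k u hu hlow => ?_⟩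
  have hu0 : u ≠ 0 := by intro h; rw [h] at hu; simp at hu
  have h1 := gg_deriv_norm hα0.le hα1 k₁ hu
  rw [norm_ZZ α k₁ hu0] at h1
  set G := ‖2 * (α * ZZ α k₁ u) / (u * (1 + ZZ α k₁ u) ^ 2)‖ with hG
  have hk := half_pow_pos k
  set x := ‖u‖ with hx
  have hx0 : 0 < x := hk.trans_le hlow
  have h2 : K * G * (1 / 2) ^ k ≤
      K * α * (min 1 (2 * (2 ^ k₁ * x) ^ α) * ((1 / 2) ^ k / x)) := by
    calc K * G * (1 / 2) ^ k ≤
          K * (α * min 1 (2 * (2 ^ k₁ * x) ^ α) / x) * (1 / 2) ^ k := by gcongr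
      _ = _ := by ring
  refine h2.trans ?_
  have hr1 : (1 / 2 : ℝ) ^ k / x ≤ 1 := by rw [div_le_one hx0]; exact hlow
  have hr0 : 0 ≤ (1 / 2 : ℝ) ^ k / x := by positivity
  rcases le_total k k₁ with hkk | hkk
  · have h3 : min 1 (2 * (2 ^ k₁ * x) ^ α) * ((1 / 2) ^ k / x) ≤ 1 * 1 :=
      mul_le_mul (min_le_left _ _) hr1 hr0 zero_le_one
    calc K * α * (min 1 (2 * (2 ^ k₁ * x) ^ α) * ((1 / 2) ^ k / x)) ≤ K * α * (1 * 1) := by
          gcongr
      _ ≤ e k / 8 := by rw [one_mul, mul_one]; exact hαe' k hkk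
      _ ≤ e k := by linarith [hpos k]
  · obtain ⟨n, rfl⟩ := Nat.exists_eq_add_of_le hkk
    -- the decay
    have h3 : (2 ^ k₁ * x) ^ α * ((1 / 2) ^ (k₁ + n) / x) ≤ ((2 : ℝ) ^ (n * α))⁻¹ := by
      set y := 2 ^ (k₁ + n) * x with hy
      have hy1 : 1 ≤ y := by
        rw [hy]
        have : (1 : ℝ) = 2 ^ (k₁ + n) * (1 / 2) ^ (k₁ + n) := by
          rw [← mul_pow]; norm_num
        rw [this]
        gcongr
      have hy0 : 0 < y := by linarith
      have e1 : (2 : ℝ) ^ k₁ * x = y * (2 ^ n)⁻¹ := by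
        rw [hy, pow_add]
        field_simp
      have e2 : (1 / 2 : ℝ) ^ (k₁ + n) / x = 1 / y := by
        rw [hy, one_div_pow, div_div]
      rw [e1, e2, Real.mul_rpow hy0.le (by positivity), Real.inv_rpow (by positivity),
        ← Real.rpow_natCast 2 n, ← Real.rpow_mul (by norm_num)]
      have h4 : y ^ α ≤ y := by
        calc y ^ α ≤ y ^ (1 : ℝ) := Real.rpow_le_rpow_of_exponent_le hy1 hα1
          _ = y := Real.rpow_one y
      have h5 : 0 < ((2 : ℝ) ^ ((n : ℝ) * α))⁻¹ := by positivity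
      calc y ^ α * ((2 : ℝ) ^ ((n : ℝ) * α))⁻¹ * (1 / y)
          = (y ^ α / y) * ((2 : ℝ) ^ ((n : ℝ) * α))⁻¹ := by ring
        _ ≤ 1 * ((2 : ℝ) ^ ((n : ℝ) * α))⁻¹ := by
          gcongr
          rw [div_le_one hy0]; exact h4
        _ = _ := one_mul _
    have h6 : K * α * (min 1 (2 * (2 ^ k₁ * x) ^ α) * ((1 / 2) ^ (k₁ + n) / x)) ≤
        2 * (K * α) * ((2 : ℝ) ^ (n * α))⁻¹ := by
      calc K * α * (min 1 (2 * (2 ^ k₁ * x) ^ α) * ((1 / 2) ^ (k₁ + n) / x)) ≤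
            K * α * ((2 * (2 ^ k₁ * x) ^ α) * ((1 / 2) ^ (k₁ + n) / x)) := by
              gcongr
              exact min_le_right _ _
        _ = 2 * (K * α) * ((2 ^ k₁ * x) ^ α * ((1 / 2) ^ (k₁ + n) / x)) := by ring
        _ ≤ _ := by gcongr
    refine h6.trans ?_
    have h7 := inv_growth hlip k₁ n
    have hek := hpos (k₁ + n)
    have hek1 := hpos k₁
    have h8 : 1 / e k₁ ≤ 1 / (8 * (K * α)) := by
      apply one_div_le_one_div_of_le (by positivity)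
      linarith [hαe' k₁ le_rfl]
    have h9 : 1 / e (k₁ + n) ≤ 1 / (8 * (K * α)) + n * (1 / (8 * K)) := by
      have : (n : ℝ) * ε ≤ n * (1 / (8 * K)) := by gcongr
      linarith
    have h10 : 1 / (8 * (K * α)) + n * (1 / (8 * K)) = (1 + n * α) / (8 * (K * α)) := by
      field_simp
    rw [h10, div_le_div_iff₀ hek (by positivity), one_mul] at h9
    have h11 : 1 + n * α ≤ 4 * (2 : ℝ) ^ ((n : ℝ) * α) := by
      have h12 : (n : ℝ) * α * Real.log 2 + 1 ≤ (2 : ℝ) ^ ((n : ℝ) * α) := by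
        rw [Real.rpow_def_of_pos (by norm_num), mul_comm (Real.log 2)]
        exact Real.add_one_le_exp _
      have h13 : 0.6931471803 < Real.log 2 := Real.log_two_gt_d9
      have h14 : 0 ≤ (n : ℝ) * α := by positivity
      nlinarith
    have h15 : 0 < (2 : ℝ) ^ ((n : ℝ) * α) := by positivity
    rw [← div_eq_mul_inv, div_le_iff₀ h15]
    nlinarith [mul_le_mul_of_nonneg_right h11 hek.le]

end Pool.Agent.MPca0fc2.CX
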