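import Mathlib
import Pool.Agent.Lib.MP_ca0fc2_an.CXAugA
import Pool.Agent.Lib.MP_ca0fc2_an.Mg.G083

/-!
Task CX AugB: the auxiliary datum at a boundary point.
PROOF. Let `u z = κ pr l (l - z)`, `κ = 2/|ρ 0|`: by `conv l z`: `2 Re pr l (l - z) ≥ ρ l - ρ z + c‖z-l‖² ≥ -ρ z ≥
|ρ 0| (1 - g z)` on `D` (convexity along the ray, see `g_comp`; here you need this explicit constant:
`ρ z ≤ (1 - g z) ρ 0` for `z ∈ D`, prove it again), so `Re u ≥ 1 - g z > 0` on `D` and `‖u‖ ≥ 1 - g z`. `u` is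
affine with the linear part bounded by `κ L` uniformly in `l` (`exists_L`). Let `K = R₁ κ L` (or `1`), `ε₀ = 1/(8 K)`,
`α` from `gg_decay`, `F₀ = gg α k₁ ∘ u`; the chain rule and `gg_deriv`. `‖gg‖ = 2 ‖Z‖/‖1+Z‖ ≤ 2`
(`one_add_facts`, `re_ZZ`). Lower bound: for `g z < RR k₁`: `g (rr k₁ z) ≤ rr k₁ RR k₁ ≤ 1 - 15/16 (1/2)^k₁`, so
`‖u‖ ≥ 15/16 (1/2)^k₁`, `‖Z‖ ≥ 15/16`, see `aug_fn` in `SLAug`. Limit: `‖u z‖ ≤ κ L ‖z - l‖`, `‖gg‖ ≤ 2 ‖Z‖ =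
2 (2^k₁ ‖u‖)^α`. (If `ρ l = 0` then `n ≥ 1` automatically.)
-/

set_option autoImplicit false

open Metric Set MeasureTheory Filter Topology
open scoped ComplexOrder

namespace Pool.Agent.MPca0fc2.CX

open Pool.Agent.MPca0fc2.SD
open Pool.Agent.MPca0fc2.SL

namespace Dm

variable {n : ℕ} (𝓓 : Dm n)

/-- the functional `∂ρ (l)` -/
noncomputable def augB_pr (l : En n) : En n →L[ℂ] ℂ :=
  ∑ j, (dz j (fun y => (𝓓.ρ y : ℂ)) l) • (EuclideanSpace.proj (𝕜 := ℂ) j)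

theorem augB_pr_apply (l v : En n) : 𝓓.augB_pr l v = 𝓓.pr l v := by
  simp [augB_pr, pr]

theorem augB_rho (z : En n) (hz : 𝓓.ρ z < 0) : 𝓓.ρ z ≤ (1 - 𝓓.g z) * 𝓓.ρ 0 := by
  have hg0 := 𝓓.g_nonneg z
  have hg1 : 𝓓.g z < 1 := (𝓓.g_lt_one z).2 hz
  rcases hg0.eq_or_lt with h | h
  · obtain ⟨R, hR, hRz⟩ := 𝓓.norm_le_g
    have h1 := hRz z
    rw [← h, mul_zero] at h1
    have h2 : z = 0 := norm_le_zero_iff.mp h1
    rw [← h, h2]; simp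
  · set t := 𝓓.g z with ht
    set z₁ : En n := ((t⁻¹ : ℝ) : ℂ) • z with hz₁
    have h1 : 𝓓.g z₁ = 1 := by
      rw [hz₁, 𝓓.g_smul _ (by positivity), ← ht]
      exact inv_mul_cancel₀ h.ne'
    have h2 : 𝓓.ρ z₁ ≤ 0 := (𝓓.g_le_one z₁).1 h1.le
    have h3 := 𝓓.convexOn.2 (mem_univ (0 : En n)) (mem_univ z₁)
      (show (0 : ℝ) ≤ 1 - t by linarith) h.le (by ring)
    have h4 : (1 - t) • (0 : En n) + t • z₁ = z := by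
      rw [smul_zero, zero_add, hz₁, ← Complex.coe_smul, smul_smul]
      rw [← Complex.ofReal_mul, mul_inv_cancel₀ h.ne']
      simp
    rw [h4, smul_eq_mul, smul_eq_mul] at h3
    nlinarith

/-- the affine function which peaks at `l` -/
noncomputable def augB_u (l z : En n) : ℂ := ((2 / (-𝓓.ρ 0) : ℝ) : ℂ) * 𝓓.pr l (l - z)

theorem augB_re {l z : En n} (hl : 𝓓.ρ l = 0) (hz : 𝓓.ρ z < 0) :
    1 - 𝓓.g z ≤ (𝓓.augB_u l z).re := by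
  have h0 : 𝓓.ρ 0 < 0 := 𝓓.unit 0 (by simp)
  have h1 := 𝓓.conv l z
  rw [𝓓.fderiv_pr, hl] at h1
  have h2 : 𝓓.pr l (l - z) = -𝓓.pr l (z - l) := by
    rw [← augB_pr_apply, ← augB_pr_apply, ← map_neg, neg_sub]
  have h3 := 𝓓.augB_rho z hz
  have h4 : 0 ≤ 𝓓.c * ‖z - l‖ ^ 2 := mul_nonneg 𝓓.cpos.le (sq_nonneg _)
  rw [augB_u, Complex.re_ofReal_mul, h2, Complex.neg_re, div_mul_eq_mul_div,
    le_div_iff₀ (by linarith)]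
  nlinarith

theorem augB_norm {l z : En n} (hl : 𝓓.ρ l = 0) (hz : 𝓓.ρ z < 0) :
    1 - 𝓓.g z ≤ ‖𝓓.augB_u l z‖ :=
  (𝓓.augB_re hl hz).trans (Complex.re_le_norm _)

theorem augB_u_deriv (l z : En n) :
    HasFDerivAt (𝓓.augB_u l) (-(((2 / (-𝓓.ρ 0) : ℝ) : ℂ) • 𝓓.augB_pr l)) z := by
  have h1 : HasFDerivAt (fun z : En n => 𝓓.augB_pr l (l - z))
      ((𝓓.augB_pr l).comp (-ContinuousLinearMap.id ℂ (En n))) z :=
    (𝓓.augB_pr l).hasFDerivAt.comp z ((hasFDerivAt_id z).const_sub l)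
  have h2 := h1.const_mul (((2 / (-𝓓.ρ 0) : ℝ) : ℂ))
  have e1 : 𝓓.augB_u l = fun z : En n => ((2 / (-𝓓.ρ 0) : ℝ) : ℂ) * 𝓓.augB_pr l (l - z) := by
    funext z
    rw [augB_u, augB_pr_apply]
  rw [e1]
  refine h2.congr_fderiv ?_
  ext v
  simp

theorem aug {R₁ : ℝ} (hR₁ : 1 ≤ R₁) : ∃ ε₀ : ℝ, 0 < ε₀ ∧ ∀ (e : ℕ → ℝ) (ε : ℝ) (l : En n) (k₁ : ℕ),
    (∀ k, 0 < e k) → (∀ k, |1 / e (k + 1) - 1 / e k| ≤ ε) → ε ≤ ε₀ → 𝓓.ρ l = 0 →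
    ∃ F₀ : En n → ℂ, DifferentiableOn ℂ F₀ 𝓓.D ∧
      (∀ (k : ℕ) (z : En n), 𝓓.g z ≤ rr k → R₁ * ‖fderiv ℂ F₀ z‖ * (1 / 2) ^ k ≤ e k) ∧
      (∀ z ∈ 𝓓.D, ‖F₀ z‖ ≤ 2) ∧
      (∀ z, 𝓓.g z < RR k₁ → 1 / 2 ≤ ‖F₀ ((rr k₁ : ℂ) • z)‖) ∧
      ∀ η : ℝ, 0 < η → ∃ r : ℝ, 0 < r ∧ ∀ z ∈ 𝓓.D, ‖z - l‖ < r → ‖F₀ z‖ ≤ η := by
  obtain ⟨R, hR, hRz⟩ := 𝓓.exists_R
  obtain ⟨L, hL1, hL⟩ := 𝓓.exists_L R
  have h0 : 𝓓.ρ 0 < 0 := 𝓓.unit 0 (by simp)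
  set κ : ℝ := 2 / (-𝓓.ρ 0) with hκ
  have hκ0 : 0 < κ := div_pos (by norm_num) (by linarith)
  have hL0 : 0 < L := by linarith
  set K : ℝ := max 1 (R₁ * (κ * L)) with hK
  have hK1 : 1 ≤ K := le_max_left _ _
  have hK2 : R₁ * (κ * L) ≤ K := le_max_right _ _
  refine ⟨1 / (8 * K), by positivity, fun e ε l k₁ hpos hlip hε hl => ?_⟩
  obtain ⟨α, hα0, hα8, hα⟩ := gg_decay hpos hlip hK1 hε k₁
  have hα1 : α ≤ 1 := by linarith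
  have hlR : ‖l‖ ≤ R := hRz l hl.le
  have hpr : ∀ v, ‖𝓓.pr l v‖ ≤ L * ‖v‖ := (hL l l hlR hlR).2.2.2.1
  have hprn : ‖𝓓.augB_pr l‖ ≤ L := by
    refine ContinuousLinearMap.opNorm_le_bound _ hL0.le fun v => ?_
    rw [augB_pr_apply]
    exact hpr v
  have hre : ∀ z, 𝓓.ρ z < 0 → 0 < (𝓓.augB_u l z).re := fun z hz =>
    lt_of_lt_of_le (by linarith [(𝓓.g_lt_one z).2 hz]) (𝓓.augB_re hl hz)
  have hder : ∀ z, 𝓓.ρ z < 0 → HasFDerivAt (fun z => gg α k₁ (𝓓.augB_u l z))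
      ((2 * (α * ZZ α k₁ (𝓓.augB_u l z)) /
        (𝓓.augB_u l z * (1 + ZZ α k₁ (𝓓.augB_u l z)) ^ 2)) •
        (-((κ : ℂ) • 𝓓.augB_pr l))) z := by
    intro z hz
    exact (gg_deriv hα0.le hα1 k₁ (hre z hz)).comp_hasFDerivAt z (𝓓.augB_u_deriv l z)
  refine ⟨fun z => gg α k₁ (𝓓.augB_u l z), ?_, ?_, ?_, ?_, ?_⟩
  · intro z hz
    exact (hder z hz).differentiableAt.differentiableWithinAt
  · intro k z hz
    have hz1 : 𝓓.ρ z < 0 := (𝓓.g_lt_one z).1 (hz.trans_lt (rr_lt_one k))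
    rw [(hder z hz1).fderiv, norm_smul]
    have hlow : (1 / 2 : ℝ) ^ k ≤ ‖𝓓.augB_u l z‖ := by
      refine le_trans ?_ (𝓓.augB_norm hl hz1)
      unfold rr at hz
      linarith
    have h1 := hα k (𝓓.augB_u l z) (hre z hz1) hlow
    refine le_trans ?_ h1
    set G := ‖2 * (α * ZZ α k₁ (𝓓.augB_u l z)) /
        (𝓓.augB_u l z * (1 + ZZ α k₁ (𝓓.augB_u l z)) ^ 2)‖ with hG
    have h2 : ‖-((κ : ℂ) • 𝓓.augB_pr l)‖ ≤ κ * L := by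
      rw [norm_neg, norm_smul, Complex.norm_real, Real.norm_of_nonneg hκ0.le]
      gcongr
    have hG0 : 0 ≤ G := norm_nonneg _
    calc R₁ * (G * ‖-((κ : ℂ) • 𝓓.augB_pr l)‖) * (1 / 2) ^ k
        ≤ R₁ * (G * (κ * L)) * (1 / 2) ^ k := by gcongr
      _ = (R₁ * (κ * L)) * G * (1 / 2) ^ k := by ring
      _ ≤ K * G * (1 / 2) ^ k := by gcongr
  · intro z hz
    have hf := one_add_facts (re_ZZ hα0.le hα1 k₁ (hre z hz))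
    show ‖gg α k₁ (𝓓.augB_u l z)‖ ≤ 2
    rw [norm_gg]
    have h1 : ‖ZZ α k₁ (𝓓.augB_u l z)‖ / ‖1 + ZZ α k₁ (𝓓.augB_u l z)‖ ≤ 1 := by
      rw [div_le_one (by linarith [hf.1])]
      exact hf.2.1
    linarith
  · intro z hz
    have hk := half_pow_pos k₁
    have hk1 := half_pow_le_one k₁
    set y : En n := (rr k₁ : ℂ) • z with hy
    have hn : 𝓓.g y ≤ 1 - 15 / 16 * (1 / 2) ^ k₁ := by
      rw [hy, 𝓓.g_smul _ (rr_nonneg _)]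
      calc rr k₁ * 𝓓.g z ≤ rr k₁ * RR k₁ := mul_le_mul_of_nonneg_left hz.le (rr_nonneg _)
        _ ≤ _ := by unfold rr RR; nlinarith
    have hn1 : 𝓓.g y < 1 := by linarith
    have hy1 : 𝓓.ρ y < 0 := (𝓓.g_lt_one y).1 hn1
    have hre1 := hre y hy1
    have hlow : 15 / 16 * (1 / 2) ^ k₁ ≤ ‖𝓓.augB_u l y‖ := by
      have := 𝓓.augB_norm hl hy1
      linarith
    have hne : 𝓓.augB_u l y ≠ 0 := by
      intro h; rw [h] at hre1; simp at hre1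
    have h1 : 15 / 16 ≤ ‖ZZ α k₁ (𝓓.augB_u l y)‖ := by
      rw [norm_ZZ _ _ hne]
      have h2 : (15 / 16 : ℝ) ≤ 2 ^ k₁ * ‖𝓓.augB_u l y‖ := by
        calc (15 / 16 : ℝ) = 2 ^ k₁ * (15 / 16 * (1 / 2) ^ k₁) := by
              rw [mul_left_comm, ← mul_pow]; norm_num
          _ ≤ _ := by gcongr
      calc (15 / 16 : ℝ) = (15 / 16 : ℝ) ^ (1 : ℝ) := (Real.rpow_one _).symm
        _ ≤ (15 / 16 : ℝ) ^ α :=
          Real.rpow_le_rpow_of_exponent_ge (by norm_num) (by norm_num) hα1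
        _ ≤ _ := Real.rpow_le_rpow (by norm_num) h2 hα0.le
    show 1 / 2 ≤ ‖gg α k₁ (𝓓.augB_u l y)‖
    rw [norm_gg]
    set Z := ZZ α k₁ (𝓓.augB_u l y) with hZ
    have h3 : ‖1 + Z‖ ≤ 1 + ‖Z‖ := by
      calc ‖1 + Z‖ ≤ ‖(1 : ℂ)‖ + ‖Z‖ := norm_add_le _ _
        _ = _ := by rw [norm_one]
    have h4 := (one_add_facts (re_ZZ hα0.le hα1 k₁ hre1)).1
    rw [← hZ] at h4
    have h5 : 1 / 4 ≤ ‖Z‖ / ‖1 + Z‖ := by
      rw [le_div_iff₀ (by linarith)]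
      linarith
    linarith
  · intro η hη
    refine ⟨(1 / 2) ^ k₁ * (η / 2) ^ (1 / α) / (κ * L), by positivity, fun z hz hzl => ?_⟩
    have hre1 := hre z hz
    have hne : 𝓓.augB_u l z ≠ 0 := by
      intro h; rw [h] at hre1; simp at hre1
    have hf := one_add_facts (re_ZZ hα0.le hα1 k₁ hre1)
    have h1 : ‖𝓓.augB_u l z‖ ≤ (1 / 2) ^ k₁ * (η / 2) ^ (1 / α) := by
      rw [augB_u, norm_mul, Complex.norm_real, ← hκ, Real.norm_of_nonneg hκ0.le]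
      rw [lt_div_iff₀ (by positivity)] at hzl
      calc κ * ‖𝓓.pr l (l - z)‖ ≤ κ * (L * ‖l - z‖) := by
            gcongr
            exact hpr _
        _ = ‖z - l‖ * (κ * L) := by rw [norm_sub_rev]; ring
        _ ≤ _ := hzl.le
    have h2 : ‖ZZ α k₁ (𝓓.augB_u l z)‖ ≤ η / 2 := by
      rw [norm_ZZ _ _ hne]
      have h3 : 2 ^ k₁ * ‖𝓓.augB_u l z‖ ≤ (η / 2) ^ (1 / α) := by
        calc 2 ^ k₁ * ‖𝓓.augB_u l z‖ ≤ 2 ^ k₁ * ((1 / 2) ^ k₁ * (η / 2) ^ (1 / α)) := by gcongr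
          _ = _ := by rw [← mul_assoc, ← mul_pow]; norm_num
      calc (2 ^ k₁ * ‖𝓓.augB_u l z‖) ^ α ≤ ((η / 2) ^ (1 / α)) ^ α :=
            Real.rpow_le_rpow (by positivity) h3 hα0.le
        _ = η / 2 := by
          rw [← Real.rpow_mul (by positivity), one_div_mul_cancel hα0.ne', Real.rpow_one]
    show ‖gg α k₁ (𝓓.augB_u l z)‖ ≤ η
    rw [norm_gg]
    have h4 : ‖ZZ α k₁ (𝓓.augB_u l z)‖ / ‖1 + ZZ α k₁ (𝓓.augB_u l z)‖ ≤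
        ‖ZZ α k₁ (𝓓.augB_u l z)‖ := div_le_self (norm_nonneg _) hf.1
    linarith

end Dm

end Pool.Agent.MPca0fc2.CX
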