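import Mathlib
import Pool.Agent.Lib.MP_ca0fc2_an.Mg.G083
import Pool.Agent.Lib.MP_ca0fc2_an.SGHDefs

/-!
Task CX FibA: characters, norm and position.
PROOFS. `char_norm_le`: if `‖m F‖ > C` then `G = (m F - F)⁻¹` is bounded holomorphic on `D`
(`‖m F - F z‖ ≥ ‖m F‖ - C > 0`), `(m F - F) G = 1` on `D`, and `m` gives `0 = 1` (`congr`, `one`, `mul`, `add`,
`smul`). `pt_mem`: suppose `ρ p > 0`, `p = pt m`. For `z ∈ D`: `ρ'(p) (z - p) ≤ ρ z - ρ p ≤ -ρ p` (`conv`). Let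
`ℓ z = 2 pr p (z - p)`, a polynomial of degree one, `Re ℓ ≤ -ρ p < 0` on `D`, `m ℓ = 0`. For `N` large
`F = 1 + ℓ / N` has `‖F‖² = 1 + 2 Re ℓ / N + ‖ℓ‖² / N² ≤ 1 - ρ p / N < 1` on `D` and `m F = 1`,
contradiction to `char_norm_le`. `char_boundary`: `l = pt m`, `ℓ z = 2 pr l (z - l)`, `Re ℓ ≤ ρ z - c ‖z-l‖² ≤
-c ‖z-l‖²` on `D`, `F = 1 + ℓ/N`, `‖F‖² ≤ 1 - c ‖z-l‖² / N` for `N` large, `m F = 1`, so `m f = m (f F^k)` and
`‖m f‖ ≤ sup ‖f F^k‖`, which tends to `0` for `k → ∞` (near `l` `‖f‖ ≤ η`, away `‖F‖ ≤ q < 1`).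
-/

set_option autoImplicit false

open Metric Set MeasureTheory Filter Topology
open scoped ComplexOrder

namespace Pool.Agent.MPca0fc2.CX

open Pool.Agent.Lib.MP_ca0fc2_an

variable {n : ℕ}

theorem fibA_const {D : Set (En n)} (c : ℂ) : IsHinf D (fun _ => c) :=
  ⟨differentiableOn_const c, ‖c‖, fun _ _ => le_rfl⟩

theorem fibA_add {D : Set (En n)} {f g : En n → ℂ} (hf : IsHinf D f) (hg : IsHinf D g) :
    IsHinf D (fun z => f z + g z) := by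
  obtain ⟨hf1, M, hM⟩ := hf
  obtain ⟨hg1, K, hK⟩ := hg
  exact ⟨hf1.add hg1, M + K, fun z hz => (norm_add_le _ _).trans (add_le_add (hM z hz) (hK z hz))⟩

theorem fibA_mul {D : Set (En n)} {f g : En n → ℂ} (hf : IsHinf D f) (hg : IsHinf D g) :
    IsHinf D (fun z => f z * g z) := by
  obtain ⟨hf1, M, hM⟩ := hf
  obtain ⟨hg1, K, hK⟩ := hg
  refine ⟨hf1.mul hg1, M * K, fun z hz => ?_⟩
  rw [norm_mul]
  exact mul_le_mul (hM z hz) (hK z hz) (norm_nonneg _) ((norm_nonneg _).trans (hM z hz))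

theorem fibA_pow {D : Set (En n)} {f : En n → ℂ} (hf : IsHinf D f) (k : ℕ) :
    IsHinf D (fun z => f z ^ k) := by
  induction k with
  | zero => simpa using fibA_const (D := D) 1
  | succ k ih =>
    have := fibA_mul ih hf
    simpa [pow_succ] using this

theorem fibA_sum {D : Set (En n)} {ι : Type} (s : Finset ι) (F : ι → En n → ℂ)
    (hF : ∀ j ∈ s, IsHinf D (F j)) : IsHinf D (fun z => ∑ j ∈ s, F j z) := by
  classical
  induction s using Finset.induction_on with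
  | empty => simpa using fibA_const (D := D) 0
  | insert a s ha ih =>
    have h1 := fibA_add (hF a (Finset.mem_insert_self a s))
      (ih fun j hj => hF j (Finset.mem_insert_of_mem hj))
    have h2 : (fun z => ∑ j ∈ insert a s, F j z) = fun z => F a z + ∑ j ∈ s, F j z := by
      funext z
      rw [Finset.sum_insert ha]
    rw [h2]
    exact h1

theorem fibA_m_const {D : Set (En n)} {m : (En n → ℂ) → ℂ} (hm : IsCharacter D m) (c : ℂ) :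
    m (fun _ => c) = c := by
  have h := hm.smul c (fun _ => 1) (fibA_const 1)
  rw [hm.one, mul_one] at h
  simpa using h

theorem fibA_m_pow {D : Set (En n)} {m : (En n → ℂ) → ℂ} (hm : IsCharacter D m) {f : En n → ℂ}
    (hf : IsHinf D f) (k : ℕ) : m (fun z => f z ^ k) = m f ^ k := by
  induction k with
  | zero => simpa using hm.one
  | succ k ih =>
    have h := hm.mul (fun z => f z ^ k) f (fibA_pow hf k) hf
    rw [ih] at h
    simpa [pow_succ] using h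

theorem fibA_m_sum {D : Set (En n)} {m : (En n → ℂ) → ℂ} (hm : IsCharacter D m) {ι : Type}
    (s : Finset ι) (F : ι → En n → ℂ) (hF : ∀ j ∈ s, IsHinf D (F j)) :
    m (fun z => ∑ j ∈ s, F j z) = ∑ j ∈ s, m (F j) := by
  classical
  induction s using Finset.induction_on with
  | empty => simpa using fibA_m_const hm 0
  | insert a s ha ih =>
    have h2 : (fun z => ∑ j ∈ insert a s, F j z) = fun z => F a z + ∑ j ∈ s, F j z := by
      funext z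
      rw [Finset.sum_insert ha]
    rw [h2, hm.add (F a) (fun z => ∑ j ∈ s, F j z) (hF a (Finset.mem_insert_self a s))
      (fibA_sum s F fun j hj => hF j (Finset.mem_insert_of_mem hj)),
      ih (fun j hj => hF j (Finset.mem_insert_of_mem hj)), Finset.sum_insert ha]

/-- Characters are bounded by the supremum norm. -/
theorem char_norm_le {D : Set (En n)} {m : (En n → ℂ) → ℂ} (hm : IsCharacter D m) {F : En n → ℂ}
    (hF : IsHinf D F) {C : ℝ} (hC : ∀ z ∈ D, ‖F z‖ ≤ C) : ‖m F‖ ≤ C := by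
  by_contra hlt
  push Not at hlt
  have hpos : 0 < ‖m F‖ - C := by linarith
  have hlow : ∀ z ∈ D, ‖m F‖ - C ≤ ‖m F + (-1) * F z‖ := by
    intro z hz
    have h1 : ‖m F‖ - ‖F z‖ ≤ ‖m F - F z‖ := norm_sub_norm_le _ _
    have h2 : m F + (-1) * F z = m F - F z := by ring
    rw [h2]
    linarith [hC z hz]
  have hne : ∀ z ∈ D, m F + (-1) * F z ≠ 0 := by
    intro z hz h0
    have := hlow z hz
    rw [h0, norm_zero] at this
    linarith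
  have hL : IsHinf D (fun z => (-1 : ℂ) * F z) := fibA_mul (fibA_const (-1)) hF
  have hK : IsHinf D (fun z => m F + (-1) * F z) := fibA_add (fibA_const (m F)) hL
  have hG : IsHinf D (fun z => (m F + (-1) * F z)⁻¹) := by
    refine ⟨hK.1.inv hne, (‖m F‖ - C)⁻¹, fun z hz => ?_⟩
    rw [norm_inv]
    exact inv_anti₀ hpos (hlow z hz)
  have e1 : m (fun z => (m F + (-1) * F z) * (m F + (-1) * F z)⁻¹) = 1 := by
    have e0 := hm.congr (fun z => (m F + (-1) * F z) * (m F + (-1) * F z)⁻¹) (fun _ => 1)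
      (fibA_mul hK hG) (fibA_const 1) fun z hz => mul_inv_cancel₀ (hne z hz)
    rw [e0, hm.one]
  have e2 := hm.mul _ _ hK hG
  have e3 : m (fun z => m F + (-1) * F z) = 0 := by
    have h1 := hm.add (fun _ => m F) (fun z => (-1 : ℂ) * F z) (fibA_const (m F)) hL
    rw [fibA_m_const hm, hm.smul (-1) F hF] at h1
    rw [h1]
    ring
  rw [e3, zero_mul] at e2
  rw [e2] at e1
  exact zero_ne_one e1

/-- the point below a character -/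
noncomputable def pt (m : (En n → ℂ) → ℂ) : En n := WithLp.toLp 2 fun j => m fun z => z j

namespace Dm

variable {n : ℕ} (𝓓 : Dm n)

/-- the supporting function at `p` -/
noncomputable def fibA_ell (p : En n) : En n → ℂ :=
  fun z => ∑ j, (2 * dz j (fun y => (𝓓.ρ y : ℂ)) p) * (z j + (-(p j)))

theorem fibA_ell_eq (p z : En n) : 𝓓.fibA_ell p z = 2 * 𝓓.pr p (z - p) := by
  unfold fibA_ell pr
  rw [Finset.mul_sum]
  refine Finset.sum_congr rfl fun j _ => ?_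
  rw [PiLp.sub_apply]
  ring

theorem fibA_coord (j : Fin n) : IsHinf 𝓓.D (fun z : En n => z j) := by
  obtain ⟨R, -, hR⟩ := 𝓓.exists_R
  refine ⟨?_, R, fun z hz => ?_⟩
  · exact (EuclideanSpace.proj (𝕜 := ℂ) j).differentiable.differentiableOn
  · exact (PiLp.norm_apply_le z j).trans (hR z (le_of_lt hz))

theorem fibA_lin (p : En n) (j : Fin n) : IsHinf 𝓓.D (fun z : En n => z j + (-(p j))) :=
  fibA_add (𝓓.fibA_coord j) (fibA_const _)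

theorem fibA_term (p : En n) (j : Fin n) :
    IsHinf 𝓓.D (fun z : En n => (2 * dz j (fun y => (𝓓.ρ y : ℂ)) p) * (z j + (-(p j)))) :=
  fibA_mul (fibA_const _) (𝓓.fibA_lin p j)

theorem fibA_ell_holo (p : En n) : IsHinf 𝓓.D (𝓓.fibA_ell p) :=
  fibA_sum Finset.univ _ fun j _ => 𝓓.fibA_term p j

theorem fibA_ell_m {m : (En n → ℂ) → ℂ} (hm : IsCharacter 𝓓.D m) :
    m (𝓓.fibA_ell (pt m)) = 0 := by
  have h := fibA_m_sum hm Finset.univ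
    (fun j (z : En n) => (2 * dz j (fun y => (𝓓.ρ y : ℂ)) (pt m)) * (z j + (-((pt m) j))))
    (fun j _ => 𝓓.fibA_term (pt m) j)
  have h2 : m (𝓓.fibA_ell (pt m)) = ∑ j : Fin n, m (fun z : En n =>
      (2 * dz j (fun y => (𝓓.ρ y : ℂ)) (pt m)) * (z j + (-((pt m) j)))) := h
  rw [h2]
  refine Finset.sum_eq_zero fun j _ => ?_
  rw [hm.smul _ _ (𝓓.fibA_lin (pt m) j),
    hm.add (fun z : En n => z j) (fun _ => -((pt m) j)) (𝓓.fibA_coord j) (fibA_const _),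
    fibA_m_const hm]
  have h3 : (pt m) j = m (fun z : En n => z j) := rfl
  rw [h3]
  ring

/-- the function `1 + ℓ / N` -/
noncomputable def fibA_F (p : En n) (N : ℝ) : En n → ℂ :=
  fun z => 1 + ((N⁻¹ : ℝ) : ℂ) * 𝓓.fibA_ell p z

theorem fibA_F_holo (p : En n) (N : ℝ) : IsHinf 𝓓.D (𝓓.fibA_F p N) :=
  fibA_add (fibA_const 1) (fibA_mul (fibA_const _) (𝓓.fibA_ell_holo p))

theorem fibA_F_m {m : (En n → ℂ) → ℂ} (hm : IsCharacter 𝓓.D m) (N : ℝ) :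
    m (𝓓.fibA_F (pt m) N) = 1 := by
  unfold fibA_F
  rw [hm.add (fun _ => 1) (fun z => ((N⁻¹ : ℝ) : ℂ) * 𝓓.fibA_ell (pt m) z) (fibA_const 1)
    (fibA_mul (fibA_const _) (𝓓.fibA_ell_holo _)), hm.one,
    hm.smul _ _ (𝓓.fibA_ell_holo _), 𝓓.fibA_ell_m hm]
  ring

theorem fibA_F_norm (p z : En n) (N : ℝ) : ‖𝓓.fibA_F p N z‖ ^ 2 =
    1 + 2 * (𝓓.fibA_ell p z).re * N⁻¹ + ‖𝓓.fibA_ell p z‖ ^ 2 * (N⁻¹) ^ 2 := by
  unfold fibA_F
  rw [← Complex.normSq_eq_norm_sq, ← Complex.normSq_eq_norm_sq, Complex.normSq_apply,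
    Complex.normSq_apply]
  simp only [Complex.add_re, Complex.one_re, Complex.add_im, Complex.one_im, Complex.re_ofReal_mul,
    Complex.im_ofReal_mul]
  ring

theorem fibA_ell_re (p z : En n) :
    (𝓓.fibA_ell p z).re ≤ 𝓓.ρ z - 𝓓.ρ p - 𝓓.c * ‖z - p‖ ^ 2 := by
  have h1 := 𝓓.conv p z
  rw [𝓓.fderiv_pr] at h1
  rw [fibA_ell_eq]
  have h2 : (2 * 𝓓.pr p (z - p)).re = 2 * (𝓓.pr p (z - p)).re := by
    simp
  rw [h2]
  linarith

theorem pt_mem {m : (En n → ℂ) → ℂ} (hm : IsCharacter 𝓓.D m) : 𝓓.ρ (pt m) ≤ 0 := by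
  by_contra hlt
  push Not at hlt
  obtain ⟨-, M, hM⟩ := 𝓓.fibA_ell_holo (pt m)
  set δ := 𝓓.ρ (pt m) with hδ
  set N : ℝ := M ^ 2 / δ + δ + 1 with hN
  have hN0 : 0 < N := by positivity
  have hNδ : δ * N⁻¹ ≤ 1 := by
    rw [mul_inv_le_iff₀ hN0]
    have : 0 ≤ M ^ 2 / δ := by positivity
    linarith
  have hkey : ∀ z ∈ 𝓓.D, ‖𝓓.fibA_F (pt m) N z‖ ≤ Real.sqrt (1 - δ * N⁻¹) := by
    intro z hz
    apply Real.le_sqrt_of_sq_le
    rw [𝓓.fibA_F_norm]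
    have h1 := 𝓓.fibA_ell_re (pt m) z
    have h2 : 𝓓.ρ z < 0 := hz
    have h3 : 0 ≤ 𝓓.c * ‖z - pt m‖ ^ 2 := mul_nonneg 𝓓.cpos.le (sq_nonneg _)
    have h4 : (𝓓.fibA_ell (pt m) z).re ≤ -δ := by linarith
    have h5 : ‖𝓓.fibA_ell (pt m) z‖ ^ 2 ≤ M ^ 2 :=
      pow_le_pow_left₀ (norm_nonneg _) (hM z hz) 2
    have hi : 0 < N⁻¹ := inv_pos.2 hN0
    have h6 : M ^ 2 * N⁻¹ ≤ δ := by
      rw [mul_inv_le_iff₀ hN0, hN]
      have e : δ * (M ^ 2 / δ + δ + 1) = M ^ 2 + δ * δ + δ := by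
        field_simp
      rw [e]
      nlinarith
    have h7 : 2 * (𝓓.fibA_ell (pt m) z).re * N⁻¹ ≤ 2 * (-δ) * N⁻¹ :=
      mul_le_mul_of_nonneg_right (by linarith) hi.le
    have h8 : ‖𝓓.fibA_ell (pt m) z‖ ^ 2 * (N⁻¹) ^ 2 ≤ δ * N⁻¹ := by
      calc ‖𝓓.fibA_ell (pt m) z‖ ^ 2 * (N⁻¹) ^ 2 ≤ M ^ 2 * (N⁻¹) ^ 2 :=
            mul_le_mul_of_nonneg_right h5 (by positivity)
        _ = M ^ 2 * N⁻¹ * N⁻¹ := by ring
        _ ≤ δ * N⁻¹ := mul_le_mul_of_nonneg_right h6 hi.le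
    linarith
  have h1 := char_norm_le hm (𝓓.fibA_F_holo (pt m) N) hkey
  rw [𝓓.fibA_F_m hm, norm_one] at h1
  have h2 : 0 < δ * N⁻¹ := mul_pos hlt (inv_pos.2 hN0)
  have h3 : Real.sqrt (1 - δ * N⁻¹) < 1 := by
    rw [Real.sqrt_lt' one_pos]
    linarith
  linarith

theorem char_boundary {m : (En n → ℂ) → ℂ} (hm : IsCharacter 𝓓.D m) (h : 𝓓.ρ (pt m) = 0)
    {f : En n → ℂ} (hf : IsHinf 𝓓.D f)
    (h0 : ∀ η : ℝ, 0 < η → ∃ r : ℝ, 0 < r ∧ ∀ z ∈ 𝓓.D, ‖z - pt m‖ < r → ‖f z‖ ≤ η) : m f = 0 := by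
  have hc := 𝓓.cpos
  obtain ⟨K, hK1, hKb⟩ : ∃ K : ℝ, 1 ≤ K ∧ ∀ z : En n, ‖𝓓.fibA_ell (pt m) z‖ ≤ K * ‖z - pt m‖ := by
    obtain ⟨L, hL1, hL⟩ := 𝓓.exists_L ‖pt m‖
    refine ⟨2 * L, by linarith, fun z => ?_⟩
    have h1 := (hL (pt m) (pt m) le_rfl le_rfl).2.2.2.1 (z - pt m)
    rw [fibA_ell_eq, norm_mul]
    have h2 : ‖(2 : ℂ)‖ = 2 := by simp
    rw [h2]
    nlinarith
  obtain ⟨M, hM1, hM⟩ : ∃ M : ℝ, 1 ≤ M ∧ ∀ z ∈ 𝓓.D, ‖f z‖ ≤ M := by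
    obtain ⟨-, M, hM⟩ := hf
    exact ⟨max M 1, le_max_right _ _, fun z hz => (hM z hz).trans (le_max_left _ _)⟩
  set N : ℝ := K ^ 2 / 𝓓.c + 1 with hN
  have hN0 : 0 < N := by positivity
  have hi : 0 < N⁻¹ := inv_pos.2 hN0
  have hKN : K ^ 2 * N⁻¹ ≤ 𝓓.c := by
    rw [mul_inv_le_iff₀ hN0, hN]
    have e : 𝓓.c * (K ^ 2 / 𝓓.c + 1) = K ^ 2 + 𝓓.c := by
      field_simp
    rw [e]
    linarith
  have hFsq : ∀ z ∈ 𝓓.D, ‖𝓓.fibA_F (pt m) N z‖ ^ 2 ≤ 1 - 𝓓.c * ‖z - pt m‖ ^ 2 * N⁻¹ := by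
    intro z hz
    rw [𝓓.fibA_F_norm]
    have h1 := 𝓓.fibA_ell_re (pt m) z
    have h2 : 𝓓.ρ z < 0 := hz
    have h4 : (𝓓.fibA_ell (pt m) z).re ≤ -(𝓓.c * ‖z - pt m‖ ^ 2) := by linarith
    have h5 : ‖𝓓.fibA_ell (pt m) z‖ ^ 2 ≤ (K * ‖z - pt m‖) ^ 2 :=
      pow_le_pow_left₀ (norm_nonneg _) (hKb z) 2
    have h7 : 2 * (𝓓.fibA_ell (pt m) z).re * N⁻¹ ≤ 2 * (-(𝓓.c * ‖z - pt m‖ ^ 2)) * N⁻¹ :=
      mul_le_mul_of_nonneg_right (by linarith) hi.le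
    have h8 : ‖𝓓.fibA_ell (pt m) z‖ ^ 2 * (N⁻¹) ^ 2 ≤ 𝓓.c * ‖z - pt m‖ ^ 2 * N⁻¹ := by
      calc ‖𝓓.fibA_ell (pt m) z‖ ^ 2 * (N⁻¹) ^ 2 ≤ (K * ‖z - pt m‖) ^ 2 * (N⁻¹) ^ 2 :=
            mul_le_mul_of_nonneg_right h5 (by positivity)
        _ = (K ^ 2 * N⁻¹) * (‖z - pt m‖ ^ 2 * N⁻¹) := by ring
        _ ≤ 𝓓.c * (‖z - pt m‖ ^ 2 * N⁻¹) :=
            mul_le_mul_of_nonneg_right hKN (by positivity)
        _ = 𝓓.c * ‖z - pt m‖ ^ 2 * N⁻¹ := by ring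
    linarith
  have hF1 : ∀ z ∈ 𝓓.D, ‖𝓓.fibA_F (pt m) N z‖ ≤ 1 := by
    intro z hz
    have h1 := hFsq z hz
    have h2 : 0 ≤ 𝓓.c * ‖z - pt m‖ ^ 2 * N⁻¹ := by positivity
    have h3 : ‖𝓓.fibA_F (pt m) N z‖ ^ 2 ≤ 1 ^ 2 := by
      rw [one_pow]
      linarith
    exact le_of_sq_le_sq h3 (by norm_num)
  have hmf : ∀ k : ℕ, m (fun z => f z * 𝓓.fibA_F (pt m) N z ^ k) = m f := by
    intro k
    rw [hm.mul f (fun z => 𝓓.fibA_F (pt m) N z ^ k) hf (fibA_pow (𝓓.fibA_F_holo _ _) k),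
      fibA_m_pow hm (𝓓.fibA_F_holo _ _), 𝓓.fibA_F_m hm, one_pow, mul_one]
  have hbd : ∀ η : ℝ, 0 < η → ‖m f‖ ≤ η := by
    intro η hη
    obtain ⟨r, hr, hrf⟩ := h0 η hη
    set q : ℝ := Real.sqrt (1 - 𝓓.c * r ^ 2 * N⁻¹) with hq
    have hq0 : 0 ≤ q := Real.sqrt_nonneg _
    have hq1 : q < 1 := by
      rw [hq, Real.sqrt_lt' one_pos]
      have : 0 < 𝓓.c * r ^ 2 * N⁻¹ := by positivity
      linarith
    obtain ⟨k, hk⟩ := exists_pow_lt_of_lt_one (show 0 < η / M by positivity) hq1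
    have hk' : M * q ^ k ≤ η := by
      rw [lt_div_iff₀ (by linarith)] at hk
      linarith
    rw [← hmf k]
    refine char_norm_le hm (fibA_mul hf (fibA_pow (𝓓.fibA_F_holo _ _) k)) fun z hz => ?_
    rw [norm_mul, norm_pow]
    by_cases hzr : ‖z - pt m‖ < r
    · have h1 := hrf z hz hzr
      have h2 : ‖𝓓.fibA_F (pt m) N z‖ ^ k ≤ 1 := pow_le_one₀ (norm_nonneg _) (hF1 z hz)
      calc ‖f z‖ * ‖𝓓.fibA_F (pt m) N z‖ ^ k ≤ η * 1 :=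
            mul_le_mul h1 h2 (by positivity) hη.le
        _ = η := mul_one η
    · push Not at hzr
      have h3 : ‖𝓓.fibA_F (pt m) N z‖ ≤ q := by
        apply Real.le_sqrt_of_sq_le
        refine (hFsq z hz).trans ?_
        have h4 : r ^ 2 ≤ ‖z - pt m‖ ^ 2 := pow_le_pow_left₀ hr.le hzr 2
        have h5 : 𝓓.c * r ^ 2 * N⁻¹ ≤ 𝓓.c * ‖z - pt m‖ ^ 2 * N⁻¹ :=
          mul_le_mul_of_nonneg_right (mul_le_mul_of_nonneg_left h4 hc.le) hi.le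
        linarith
      calc ‖f z‖ * ‖𝓓.fibA_F (pt m) N z‖ ^ k ≤ M * q ^ k :=
            mul_le_mul (hM z hz) (pow_le_pow_left₀ (norm_nonneg _) h3 k) (by positivity) (by linarith)
        _ ≤ η := hk'
  have : ‖m f‖ ≤ 0 := le_of_forall_pos_le_add fun ε hε => by
    rw [zero_add]
    exact hbd ε hε
  exact norm_le_zero_iff.1 this

end Dm

end Pool.Agent.MPca0fc2.CX
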