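import Mathlib
import Pool.Agent.Lib.MP_ca0fc2_an.Mg.G079
import Pool.Agent.Lib.MP_ca0fc2_an.Mg.G085
import Pool.Agent.Lib.MP_ca0fc2_an.Holo

/-!
Task CX KE: Gleason's problem for `H^∞` of the domain.
PROOF. `m = 2`, `N = m + n + 1`. By `repro` `f = P f` on `D`. With `a = A w z`, `b = A w p`: `b - a = pr w (z - p) =
∑_j dz j ρ w (z_j - p_j)`, `a^(-N) - b^(-N) = (b - a) ∑_{i<N} a^(-i-1) b^(i-N)`. So
`G_j z = kap⁻¹ ∫_D f(w) dz j ρ w (-ρ w)^m Om th w ∑_{i<N} a^(-i-1) b^(i-N)`. Holomorphic in `z`: as in `P_holo`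
(`differentiableAt_integral`). Bounded: `‖b‖ ≥ -ρ p / 2`. Terms with `i + 1 ≤ N - 1`:
`δ^m ‖a‖^(-(N-1)) ≤ C ‖a‖^(m-N+1) = C ‖a‖^(-n) ≤ C ‖a‖^(-(n+1)+1/2)` (`‖a‖` bounded), `int_near`. The term
`i = N - 1` is `kap⁻¹ ∫ f(w) s(w) δ^m Om a^(-N)` with `s w = dz j ρ w / A w p`, which is Lipschitz on `D`
(`exists_L`, `‖b‖ ≥ c`), so it is `s(z) f(z)` (`repro`) plus an integral bounded by
`C ∫ ‖w - z‖ δ^m ‖a‖^(-N) ≤ C ∫ ‖a‖^(1/2 + m - N) = C ∫ ‖a‖^(-(n+1)+1/2)` (`A_lower`: `‖w-z‖² ≤ C ‖a‖`).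
-/

set_option autoImplicit false

open Metric Set MeasureTheory Filter Topology
open scoped ComplexOrder

namespace Pool.Agent.MPca0fc2.CX

namespace Dm

variable {n : ℕ} (𝓓 : Dm n)

/-- the partial derivatives of the defining function -/
noncomputable def keD (j : Fin n) (w : En n) : ℂ := dz j (fun y => (𝓓.ρ y : ℂ)) w

/-- the geometric sum -/
noncomputable def keS (p z w : En n) : ℂ :=
  ∑ k ∈ Finset.range (2 + n + 1), 𝓓.A w z ^ k / 𝓓.A w p ^ (k + 1)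

/-- the kernel -/
noncomputable def keK (z w : En n) : ℂ := fp 2 𝓓.th z w * Om 𝓓.th w

theorem ke_lower {w z : En n} (hw : 𝓓.ρ w ≤ 0) : -𝓓.ρ z / 2 ≤ ‖𝓓.A w z‖ := by
  have h1 := 𝓓.re_A w z
  have h2 : 0 ≤ 𝓓.c * ‖w - z‖ ^ 2 := mul_nonneg 𝓓.cpos.le (by positivity)
  have h3 := Complex.re_le_norm (𝓓.A w z)
  linarith

theorem ke_ne {w z : En n} (hw : 𝓓.ρ w ≤ 0) (hz : 𝓓.ρ z < 0) : 𝓓.A w z ≠ 0 := by
  intro h
  have h1 := 𝓓.ke_lower (z := z) hw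
  rw [h, norm_zero] at h1
  linarith

theorem ke_contDiff : ContDiff ℝ 3 (fun y => (𝓓.ρ y : ℂ)) :=
  Complex.ofRealCLM.contDiff.comp 𝓓.sm

theorem ke_cont_D (j : Fin n) : Continuous (𝓓.keD j) := by
  have h : ContDiff ℝ ((2 : ℕ) : WithTop ℕ∞) (dz j (fun y => (𝓓.ρ y : ℂ))) := by
    refine contDiff_dz j ?_
    have := 𝓓.ke_contDiff
    norm_num
    exact this
  exact h.continuous

theorem ke_A_eq (w z : En n) : 𝓓.A w z = -(𝓓.ρ w : ℂ) + ∑ j, 𝓓.keD j w * (w j - z j) := by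
  rw [𝓓.A_eq, pr]
  rfl

theorem ke_cont_A (z : En n) : Continuous fun w => 𝓓.A w z := by
  have h1 : Continuous fun w => -(𝓓.ρ w : ℂ) := 𝓓.ke_contDiff.continuous.neg
  have h2 : Continuous fun w => ∑ j, 𝓓.keD j w * (w j - z j) :=
    continuous_finsetSum _ fun j _ => (𝓓.ke_cont_D j).mul (by fun_prop)
  exact (h1.add h2).congr fun w => (𝓓.ke_A_eq w z).symm

theorem ke_diff_A (w : En n) : Differentiable ℂ fun z => 𝓓.A w z := by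
  have h2 : Differentiable ℂ fun z : En n => -(𝓓.ρ w : ℂ) + ∑ j, 𝓓.keD j w * (w j - z j) := by
    fun_prop
  have e : (fun z => 𝓓.A w z) = fun z : En n => -(𝓓.ρ w : ℂ) + ∑ j, 𝓓.keD j w * (w j - z j) :=
    funext fun z => 𝓓.ke_A_eq w z
  rw [e]
  exact h2

theorem ke_diff_pow (w : En n) (k : ℕ) : Differentiable ℂ fun z => 𝓓.A w z ^ k := by
  have := 𝓓.ke_diff_A w
  fun_prop

theorem ke_sub (w z p : En n) :
    𝓓.A w p - 𝓓.A w z = ∑ j, (z j - p j) * 𝓓.keD j w := by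
  rw [𝓓.ke_A_eq, 𝓓.ke_A_eq, add_sub_add_left_eq_sub, ← Finset.sum_sub_distrib]
  exact Finset.sum_congr rfl fun j _ => by ring

theorem ke_key {w z p : En n} (hw : 𝓓.ρ w ≤ 0) (hz : 𝓓.ρ z < 0) (hp : 𝓓.ρ p < 0) :
    𝓓.keK z w - 𝓓.keK p w = (∑ j, (z j - p j) * 𝓓.keD j w) * 𝓓.keS p z w * 𝓓.keK z w := by
  have ha := 𝓓.ke_ne hw hz
  have hb := 𝓓.ke_ne hw hp
  rw [← 𝓓.ke_sub]
  have h1 : (𝓓.A w p - 𝓓.A w z) * 𝓓.keS p z w = 1 - (𝓓.A w z / 𝓓.A w p) ^ (2 + n + 1) := by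
    have h2 := geom_sum_mul (𝓓.A w z / 𝓓.A w p) (2 + n + 1)
    have h3 : 𝓓.keS p z w = (1 / 𝓓.A w p) *
        ∑ k ∈ Finset.range (2 + n + 1), (𝓓.A w z / 𝓓.A w p) ^ k := by
      rw [keS, Finset.mul_sum]
      refine Finset.sum_congr rfl fun k _ => ?_
      rw [div_pow, pow_succ]
      field_simp
    rw [h3]
    have h4 : (𝓓.A w p - 𝓓.A w z) * (1 / 𝓓.A w p *
        ∑ k ∈ Finset.range (2 + n + 1), (𝓓.A w z / 𝓓.A w p) ^ k) =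
        -((∑ k ∈ Finset.range (2 + n + 1), (𝓓.A w z / 𝓓.A w p) ^ k) *
          (𝓓.A w z / 𝓓.A w p - 1)) := by
      field_simp
      ring
    rw [h4, h2]
    ring
  rw [h1]
  have e1 : 𝓓.keK z w = ((((max (𝓓.th w 0).re 0) ^ 2 : ℝ) : ℂ) / (𝓓.A w z) ^ (2 + n + 1)) *
    Om 𝓓.th w := rfl
  have e2 : 𝓓.keK p w = ((((max (𝓓.th w 0).re 0) ^ 2 : ℝ) : ℂ) / (𝓓.A w p) ^ (2 + n + 1)) *
    Om 𝓓.th w := rfl
  rw [e1, e2, div_pow]
  have := pow_ne_zero (2 + n + 1) ha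
  have := pow_ne_zero (2 + n + 1) hb
  field_simp

/-- All constants. -/
structure KeC (p : En n) (f : En n → ℂ) where
  /-- bound of `f` -/
  M : ℝ
  /-- bound of the derivatives -/
  L : ℝ
  /-- radius -/
  R : ℝ
  /-- size of `A` -/
  Q : ℝ
  /-- lower bound of `A w p` -/
  c₀ : ℝ
  /-- constant of `A_lower` -/
  CA : ℝ
  /-- constant of `ker_bound` -/
  CK : ℝ
  /-- the integral -/
  CI : ℝ
  M0 : 0 ≤ M
  L0 : 0 ≤ L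
  R0 : 0 ≤ R
  Q0 : 0 ≤ Q
  c0 : 0 < c₀
  CA0 : 0 ≤ CA
  CK0 : 0 ≤ CK
  CI0 : 0 ≤ CI
  hM : ∀ w, 𝓓.ρ w < 0 → ‖f w‖ ≤ M
  hR : ∀ w, 𝓓.ρ w < 0 → ‖w‖ ≤ R
  hD : ∀ j w, 𝓓.ρ w < 0 → ‖𝓓.keD j w‖ ≤ L
  hDL : ∀ j w z, 𝓓.ρ w < 0 → 𝓓.ρ z < 0 → ‖𝓓.keD j w - 𝓓.keD j z‖ ≤ L * ‖w - z‖
  hAL : ∀ w z, 𝓓.ρ w < 0 → 𝓓.ρ z < 0 → ‖𝓓.A w p - 𝓓.A z p‖ ≤ Q * ‖w - z‖
  hQ : ∀ w z, 𝓓.ρ w < 0 → 𝓓.ρ z < 0 → ‖𝓓.A w z‖ ≤ Q
  hρ : ∀ w, 𝓓.ρ w < 0 → -𝓓.ρ w ≤ Q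
  hc : ∀ w, 𝓓.ρ w < 0 → c₀ ≤ ‖𝓓.A w p‖
  hA : ∀ w z, 𝓓.ρ w < 0 → 𝓓.ρ z < 0 → -𝓓.ρ w ≤ CA * ‖𝓓.A w z‖ ∧
    ‖w - z‖ ^ 2 ≤ CA * ‖𝓓.A w z‖
  hK : ∀ w z, 𝓓.ρ w < 0 → 𝓓.ρ z < 0 →
    ‖𝓓.keK z w‖ ≤ CK * ((-𝓓.ρ w) ^ 2 / ‖𝓓.A w z‖ ^ (2 + n + 1))
  hI : ∀ z, 𝓓.ρ z < 0 →
    IntegrableOn (fun w => ‖𝓓.A w z‖ ^ (-((n + 1 : ℝ) - 1 / 2))) 𝓓.D ∧
    ∫ w in 𝓓.D, ‖𝓓.A w z‖ ^ (-((n + 1 : ℝ) - 1 / 2)) ≤ CI

theorem exists_keC {p : En n} (hp : 𝓓.ρ p < 0) {f : En n → ℂ}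
    (hb : ∃ M : ℝ, ∀ w ∈ 𝓓.D, ‖f w‖ ≤ M) : Nonempty (𝓓.KeC p f) := by
  obtain ⟨M, hM⟩ := hb
  obtain ⟨R, hR1, hR⟩ := 𝓓.exists_R
  obtain ⟨L, hL1, hL⟩ := 𝓓.exists_L R
  obtain ⟨CA, hCA1, hCA⟩ := 𝓓.A_lower
  obtain ⟨CK, hCK0, hCK⟩ := 𝓓.ker_bound 2
  obtain ⟨CI, hCI0, hCI⟩ := 𝓓.int_near
  have hM' : ∀ w, 𝓓.ρ w < 0 → ‖f w‖ ≤ M := fun w hw => hM w hw
  have hM0 : 0 ≤ M := (norm_nonneg _).trans (hM' p hp)
  have h0 : 𝓓.ρ 0 < 0 := 𝓓.unit 0 (by simp)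
  have hth : ∀ (j : Fin n) w, 𝓓.keD j w = 𝓓.th w j.succ := fun j w => rfl
  refine ⟨{ M := M, L := L, R := R, Q := -𝓓.ρ 0 + L * (2 * R) + 2 * L, c₀ := -𝓓.ρ p / 2,
            CA := CA, CK := CK, CI := CI
            M0 := hM0, L0 := by linarith, R0 := by linarith, Q0 := by nlinarith
            c0 := by linarith, CA0 := by linarith, CK0 := hCK0.le, CI0 := hCI0.le
            hM := hM', hR := fun w hw => hR w hw.le
            hD := ?_, hDL := ?_, hAL := ?_, hQ := ?_, hρ := ?_, hc := ?_, hA := ?_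
            hK := ?_, hI := ?_ }⟩
  · intro j w hw
    rw [hth]
    exact (hL w w (hR w hw.le) (hR w hw.le)).1 _
  · intro j w z hw hz
    rw [hth, hth]
    exact (hL w z (hR w hw.le) (hR z hz.le)).2.2.2.2.2.1 _
  · intro w z hw hz
    obtain ⟨-, -, h3, h4, h5, -, -⟩ := hL w z (hR w hw.le) (hR z hz.le)
    obtain ⟨-, -, -, h4', -, -, -⟩ := hL z z (hR z hz.le) (hR z hz.le)
    have e : 𝓓.A w p - 𝓓.A z p = ((-(𝓓.ρ w - 𝓓.ρ z) : ℝ) : ℂ) +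
        ((𝓓.pr w (w - p) - 𝓓.pr z (w - p)) + 𝓓.pr z (w - z)) := by
      have e2 : 𝓓.pr z (w - z) = 𝓓.pr z (w - p) - 𝓓.pr z (z - p) := by
        simp only [pr, ← Finset.sum_sub_distrib]
        refine Finset.sum_congr rfl fun j _ => ?_
        simp only [PiLp.sub_apply]
        ring
      rw [𝓓.A_eq, 𝓓.A_eq, e2]
      push_cast
      ring
    rw [e]
    have hwp : ‖w - p‖ ≤ 2 * R := by
      have := norm_sub_le w p
      have := hR w hw.le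
      have := hR p hp.le
      linarith
    have hn := norm_nonneg (w - z)
    calc _ ≤ ‖((-(𝓓.ρ w - 𝓓.ρ z) : ℝ) : ℂ)‖ +
          (‖𝓓.pr w (w - p) - 𝓓.pr z (w - p)‖ + ‖𝓓.pr z (w - z)‖) :=
          (norm_add_le _ _).trans (add_le_add_right (norm_add_le _ _) _)
      _ ≤ L * ‖w - z‖ + (L * ‖w - z‖ * ‖w - p‖ + L * ‖w - z‖) := by
          refine add_le_add ?_ (add_le_add (h5 _) (h4' _))
          rw [Complex.norm_real, Real.norm_eq_abs, abs_neg]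
          exact h3
      _ ≤ L * ‖w - z‖ + (L * ‖w - z‖ * (2 * R) + L * ‖w - z‖) := by
          have := mul_le_mul_of_nonneg_left hwp (mul_nonneg (by linarith : 0 ≤ L) hn)
          linarith
      _ ≤ (-𝓓.ρ 0 + L * (2 * R) + 2 * L) * ‖w - z‖ := by
          have : 0 ≤ -𝓓.ρ 0 * ‖w - z‖ := mul_nonneg (by linarith) hn
          linarith
  · intro w z hw hz
    obtain ⟨-, -, -, h4, -, -, -⟩ := hL w z (hR w hw.le) (hR z hz.le)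
    rw [𝓓.A_eq]
    refine (norm_add_le _ _).trans ?_
    rw [norm_neg, Complex.norm_real, Real.norm_eq_abs, abs_of_neg hw]
    have h5 := 𝓓.min0 w
    have h6 := h4 (w - z)
    have hwz : ‖w - z‖ ≤ 2 * R := by
      have := norm_sub_le w z
      have := hR w hw.le
      have := hR z hz.le
      linarith
    have h7 := mul_le_mul_of_nonneg_left hwz (by linarith : 0 ≤ L)
    linarith
  · intro w hw
    have h5 := 𝓓.min0 w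
    have : 0 ≤ L * (2 * R) := by nlinarith
    linarith
  · intro w hw
    exact 𝓓.ke_lower hw.le
  · intro w z hw hz
    exact ⟨(hCA w z hw.le hz.le).1, (hCA w z hw.le hz.le).2.2.1⟩
  · intro w z hw hz
    exact hCK w z hw hz.le
  · intro z hz
    exact hCI z hz.le

variable {𝓓}

theorem KeC.bound_E {p : En n} {f : En n → ℂ} (c : 𝓓.KeC p f) (hp : 𝓓.ρ p < 0) :
    ∃ CE : ℝ, 0 ≤ CE ∧ ∀ j w z, 𝓓.ρ w < 0 → 𝓓.ρ z < 0 →
      ‖𝓓.keD j w * 𝓓.keS p z w - 𝓓.keD j z / 𝓓.A z p‖ ≤ CE * √‖𝓓.A w z‖ := by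
  set T₀ : ℝ := ∑ k ∈ Finset.range (2 + n), c.Q ^ k / c.c₀ ^ (k + 2) with hT₀
  have hT₀0 : 0 ≤ T₀ := Finset.sum_nonneg fun k _ =>
    div_nonneg (pow_nonneg c.Q0 _) (pow_nonneg c.c0.le _)
  have hL0 := c.L0
  have hQ0 := c.Q0
  have hc0 := c.c0
  refine ⟨(c.L / c.c₀ + c.L * c.Q / c.c₀ ^ 2) * √c.CA + c.L * T₀ * √c.Q, by positivity, ?_⟩
  intro j w z hw hz
  set a := 𝓓.A w z
  set b := 𝓓.A w p
  set b' := 𝓓.A z p
  have hb0 : b ≠ 0 := 𝓓.ke_ne hw.le hp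
  have hb0' : b' ≠ 0 := 𝓓.ke_ne hz.le hp
  have hbc : c.c₀ ≤ ‖b‖ := c.hc w hw
  have hbc' : c.c₀ ≤ ‖b'‖ := c.hc z hz
  set T := ∑ k ∈ Finset.range (2 + n), a ^ k / b ^ (k + 2) with hT
  have hTle : ‖T‖ ≤ T₀ := by
    refine (norm_sum_le _ _).trans (Finset.sum_le_sum fun k _ => ?_)
    rw [norm_div, norm_pow, norm_pow]
    have := c.hQ w z hw hz
    gcongr
  have hS : 𝓓.keS p z w = 1 / b + a * T := by
    rw [keS, Finset.sum_range_succ' , hT, Finset.mul_sum, add_comm]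
    congr 1
    · simp [b]
    · refine Finset.sum_congr rfl fun k _ => ?_
      rw [pow_succ]
      ring
  have e : 𝓓.keD j w * 𝓓.keS p z w - 𝓓.keD j z / b' =
      ((𝓓.keD j w - 𝓓.keD j z) / b + 𝓓.keD j z * (-(b - b')) / (b * b')) +
        𝓓.keD j w * a * T := by
    rw [hS]
    field_simp
    ring
  rw [e]
  have hn := norm_nonneg (w - z)
  have hwz : ‖w - z‖ ≤ √c.CA * √‖a‖ := by
    rw [← Real.sqrt_mul c.CA0]
    exact Real.le_sqrt_of_sq_le (c.hA w z hw hz).2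
  have haa : ‖a‖ ≤ √c.Q * √‖a‖ := by
    rw [← Real.sqrt_mul c.Q0]
    refine Real.le_sqrt_of_sq_le ?_
    rw [sq]
    exact mul_le_mul_of_nonneg_right (c.hQ w z hw hz) (norm_nonneg _)
  have t1 : ‖(𝓓.keD j w - 𝓓.keD j z) / b‖ ≤ c.L / c.c₀ * ‖w - z‖ := by
    rw [norm_div, div_mul_eq_mul_div]
    have := c.hDL j w z hw hz
    gcongr
  have t2 : ‖𝓓.keD j z * (-(b - b')) / (b * b')‖ ≤ c.L * c.Q / c.c₀ ^ 2 * ‖w - z‖ := by
    rw [norm_div, norm_mul, norm_mul, norm_neg]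
    have h1 := c.hD j z hz
    have h2 := c.hAL w z hw hz
    have h3 : c.c₀ ^ 2 ≤ ‖b‖ * ‖b'‖ := by
      rw [sq]
      exact mul_le_mul hbc hbc' hc0.le (norm_nonneg _)
    calc ‖𝓓.keD j z‖ * ‖b - b'‖ / (‖b‖ * ‖b'‖) ≤ c.L * (c.Q * ‖w - z‖) / c.c₀ ^ 2 := by
          gcongr
      _ = c.L * c.Q / c.c₀ ^ 2 * ‖w - z‖ := by ring
  have t3 : ‖𝓓.keD j w * a * T‖ ≤ c.L * T₀ * ‖a‖ := by
    rw [norm_mul, norm_mul]
    have h1 := c.hD j w hw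
    calc ‖𝓓.keD j w‖ * ‖a‖ * ‖T‖ ≤ c.L * ‖a‖ * T₀ := by gcongr
      _ = c.L * T₀ * ‖a‖ := by ring
  calc _ ≤ (‖(𝓓.keD j w - 𝓓.keD j z) / b‖ + ‖𝓓.keD j z * (-(b - b')) / (b * b')‖) +
        ‖𝓓.keD j w * a * T‖ :=
        (norm_add_le _ _).trans (add_le_add_left (norm_add_le _ _) _)
    _ ≤ (c.L / c.c₀ * ‖w - z‖ + c.L * c.Q / c.c₀ ^ 2 * ‖w - z‖) + c.L * T₀ * ‖a‖ :=
        add_le_add (add_le_add t1 t2) t3
    _ = (c.L / c.c₀ + c.L * c.Q / c.c₀ ^ 2) * ‖w - z‖ + c.L * T₀ * ‖a‖ := by ring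
    _ ≤ (c.L / c.c₀ + c.L * c.Q / c.c₀ ^ 2) * (√c.CA * √‖a‖) + c.L * T₀ * (√c.Q * √‖a‖) := by
        gcongr
    _ = _ := by ring

theorem KeC.bound_K {p : En n} {f : En n → ℂ} (c : 𝓓.KeC p f) {w z : En n} (hw : 𝓓.ρ w < 0)
    (hz : 𝓓.ρ z < 0) : √‖𝓓.A w z‖ * ‖𝓓.keK z w‖ ≤
      c.CK * c.CA ^ 2 * ‖𝓓.A w z‖ ^ (-((n + 1 : ℝ) - 1 / 2)) := by
  have ha : 0 < ‖𝓓.A w z‖ := norm_pos_iff.2 (𝓓.ke_ne hw.le hz)
  have h1 := c.hK w z hw hz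
  have h2 := (c.hA w z hw hz).1
  set x := ‖𝓓.A w z‖
  have hCK0 := c.CK0
  have hρ : 0 ≤ -𝓓.ρ w := by linarith
  have h3 : ‖𝓓.keK z w‖ ≤ c.CK * ((c.CA * x) ^ 2 / x ^ (2 + n + 1)) := by
    refine h1.trans ?_
    gcongr
  have h4 : √x * (x ^ 2 / x ^ (2 + n + 1)) = x ^ (-((n + 1 : ℝ) - 1 / 2)) := by
    have e1 : x ^ 2 / x ^ (2 + n + 1) = x ^ (-(n + 1 : ℝ)) := by
      rw [Real.rpow_neg ha.le, show (n + 1 : ℝ) = ((n + 1 : ℕ) : ℝ) by push_cast; ring,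
        Real.rpow_natCast, show 2 + n + 1 = 2 + (n + 1) by ring, pow_add]
      field_simp
    rw [e1, Real.sqrt_eq_rpow, ← Real.rpow_add ha]
    congr 1
    ring
  calc √x * ‖𝓓.keK z w‖ ≤ √x * (c.CK * ((c.CA * x) ^ 2 / x ^ (2 + n + 1))) := by gcongr
    _ = c.CK * c.CA ^ 2 * (√x * (x ^ 2 / x ^ (2 + n + 1))) := by ring
    _ = _ := by rw [h4]

/-- the integrand -/
noncomputable def keH (𝓓 : Dm n) (f : En n → ℂ) (p : En n) (j : Fin n) (z w : En n) : ℂ :=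
  f w * (𝓓.keD j w * 𝓓.keS p z w) * 𝓓.keK z w

theorem ke_contS {p z : En n} (hp : 𝓓.ρ p < 0) :
    ContinuousOn (fun w => 𝓓.keS p z w) 𝓓.D := by
  unfold keS
  refine continuousOn_finsetSum _ fun k _ => ?_
  refine ContinuousOn.div ((𝓓.ke_cont_A z).pow k).continuousOn
    ((𝓓.ke_cont_A p).pow (k + 1)).continuousOn fun w hw => ?_
  exact pow_ne_zero _ (𝓓.ke_ne (le_of_lt hw) hp)

theorem ke_contK {z : En n} (hz : 𝓓.ρ z < 0) : ContinuousOn (fun w => 𝓓.keK z w) 𝓓.D :=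
  𝓓.ker_cont 2 hz

theorem ke_contH {p z : En n} (hp : 𝓓.ρ p < 0) (hz : 𝓓.ρ z < 0) {f : En n → ℂ}
    (hf : ContinuousOn f 𝓓.D) (j : Fin n) : ContinuousOn (𝓓.keH f p j z) 𝓓.D :=
  (hf.mul ((𝓓.ke_cont_D j).continuousOn.mul (ke_contS hp))).mul (ke_contK hz)

theorem KeC.bound_H {p : En n} {f : En n → ℂ} (c : 𝓓.KeC p f) {c' : ℝ} (hc' : 0 < c') :
    ∃ B : ℝ, 0 ≤ B ∧ ∀ z w, 𝓓.ρ w < 0 → c' ≤ -𝓓.ρ z / 2 →
      (∀ j, ‖𝓓.keH f p j z w‖ ≤ B) ∧ ‖f w * 𝓓.keK z w‖ ≤ B := by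
  set T₀ : ℝ := ∑ k ∈ Finset.range (2 + n + 1), c.Q ^ k / c.c₀ ^ (k + 1) with hT₀
  have hT₀0 : 0 ≤ T₀ := Finset.sum_nonneg fun k _ =>
    div_nonneg (pow_nonneg c.Q0 _) (pow_nonneg c.c0.le _)
  have hL0 := c.L0
  have hQ0 := c.Q0
  have hM0 := c.M0
  have hCK0 := c.CK0
  have hc0 := c.c0
  set K₀ : ℝ := c.CK * (c.Q ^ 2 / c' ^ (2 + n + 1)) with hK₀
  have hK₀0 : 0 ≤ K₀ := by positivity
  refine ⟨c.M * (c.L * T₀) * K₀ + c.M * K₀, by positivity, fun z w hw hz => ?_⟩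
  have hz0 : 𝓓.ρ z < 0 := by linarith
  have hK : ‖𝓓.keK z w‖ ≤ K₀ := by
    refine (c.hK w z hw hz0).trans ?_
    have h1 := c.hρ w hw
    have h2 : c' ≤ ‖𝓓.A w z‖ := hz.trans (𝓓.ke_lower hw.le)
    have h3 : 0 ≤ -𝓓.ρ w := by linarith
    rw [hK₀]
    gcongr
  have hS : ‖𝓓.keS p z w‖ ≤ T₀ := by
    refine (norm_sum_le _ _).trans (Finset.sum_le_sum fun k _ => ?_)
    rw [norm_div, norm_pow, norm_pow]
    have := c.hQ w z hw hz0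
    have := c.hc w hw
    gcongr
  have hM := c.hM w hw
  have p1 : 0 ≤ c.M * (c.L * T₀) * K₀ := by positivity
  have p2 : 0 ≤ c.M * K₀ := by positivity
  constructor
  · intro j
    have hD := c.hD j w hw
    rw [keH, norm_mul, norm_mul, norm_mul]
    have : ‖f w‖ * (‖𝓓.keD j w‖ * ‖𝓓.keS p z w‖) * ‖𝓓.keK z w‖ ≤ c.M * (c.L * T₀) * K₀ := by
      gcongr
    linarith
  · rw [norm_mul]
    have : ‖f w‖ * ‖𝓓.keK z w‖ ≤ c.M * K₀ := by gcongr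
    linarith

theorem ke_vol : volume 𝓓.D < ⊤ := by
  obtain ⟨R, -, hR⟩ := 𝓓.exists_R
  refine lt_of_le_of_lt (measure_mono (t := closedBall 0 R) fun z hz => ?_)
    (isCompact_closedBall _ _).measure_lt_top
  rw [mem_closedBall_zero_iff]
  exact hR z (le_of_lt hz)

theorem KeC.integrable {p : En n} {f : En n → ℂ} (c : 𝓓.KeC p f) (hp : 𝓓.ρ p < 0)
    (hf : ContinuousOn f 𝓓.D) {z : En n} (hz : 𝓓.ρ z < 0) :
    (∀ j, IntegrableOn (𝓓.keH f p j z) 𝓓.D) ∧ IntegrableOn (fun w => f w * 𝓓.keK z w) 𝓓.D := by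
  obtain ⟨B, hB0, hB⟩ := c.bound_H (c' := -𝓓.ρ z / 2) (by linarith)
  have hDm := 𝓓.isOpen_D.measurableSet
  constructor
  · intro j
    refine Integrable.mono' (g := fun _ => B) (integrableOn_const ke_vol.ne)
      ((ke_contH hp hz hf j).aestronglyMeasurable hDm) ?_
    exact (ae_restrict_iff' hDm).2 (Eventually.of_forall fun w hw => (hB z w hw le_rfl).1 j)
  · refine Integrable.mono' (g := fun _ => B) (integrableOn_const ke_vol.ne)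
      ((hf.mul (ke_contK hz)).aestronglyMeasurable hDm) ?_
    exact (ae_restrict_iff' hDm).2 (Eventually.of_forall fun w hw => (hB z w hw le_rfl).2)

theorem KeC.differentiable {p : En n} {f : En n → ℂ} (c : 𝓓.KeC p f) (hp : 𝓓.ρ p < 0)
    (hf : ContinuousOn f 𝓓.D) (j : Fin n) :
    DifferentiableOn ℂ (fun z => ∫ w in 𝓓.D, 𝓓.keH f p j z w) 𝓓.D := by
  intro z₀ hz₀
  have hz₀' : 𝓓.ρ z₀ < 0 := hz₀
  refine DifferentiableAt.differentiableWithinAt ?_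
  have hopen : IsOpen {z : En n | 𝓓.ρ z < 𝓓.ρ z₀ / 2} :=
    isOpen_lt 𝓓.sm.continuous continuous_const
  obtain ⟨r, hr, hball⟩ := Metric.isOpen_iff.1 hopen z₀ (by
    simp only [mem_ofPred_eq]; linarith)
  obtain ⟨B, hB0, hB⟩ := c.bound_H (c' := -𝓓.ρ z₀ / 4) (by linarith)
  have hDm := 𝓓.isOpen_D.measurableSet
  have hneg : ∀ z ∈ ball z₀ r, 𝓓.ρ z < 0 := fun z hz => by
    have := hball hz
    simp only [mem_ofPred_eq] at this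
    linarith
  refine Pool.Agent.Lib.MP_ca0fc2_an.differentiableAt_integral hr (g := fun _ => B) ?_ ?_ ?_ ?_
  · refine (ae_restrict_iff' hDm).2 (Eventually.of_forall fun w hw => ?_)
    have hw' : 𝓓.ρ w < 0 := hw
    have hS : Differentiable ℂ fun z => 𝓓.keS p z w := by
      unfold keS
      simp only [div_eq_mul_inv]
      exact Differentiable.fun_sum fun k _ => (𝓓.ke_diff_pow w k).mul_const _
    have hK : DifferentiableOn ℂ (fun z => 𝓓.keK z w) (ball z₀ r) := by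
      have e : (fun z => 𝓓.keK z w) = fun z =>
          ((((max (𝓓.th w 0).re 0) ^ 2 : ℝ) : ℂ) / (𝓓.A w z) ^ (2 + n + 1)) * Om 𝓓.th w := rfl
      rw [e]
      simp only [div_eq_mul_inv]
      refine DifferentiableOn.mul_const (DifferentiableOn.const_mul ?_ _) _
      exact (𝓓.ke_diff_pow w (2 + n + 1)).differentiableOn.fun_inv
        fun z hz => pow_ne_zero _ (𝓓.ke_ne hw'.le (hneg z hz))
    unfold keH
    exact (((hS.const_mul _).const_mul _).differentiableOn).mul hK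
  · intro z hz
    exact (ke_contH hp (hneg z hz) hf j).aestronglyMeasurable hDm
  · exact integrableOn_const ke_vol.ne
  · refine (ae_restrict_iff' hDm).2 (Eventually.of_forall fun w hw z hz => ?_)
    have := hball hz
    simp only [mem_ofPred_eq] at this
    exact (hB z w hw (by linarith)).1 j

variable (𝓓)

/-- Gleason's problem for `H^∞` of the domain. -/
theorem gleason {p : En n} (hp : 𝓓.ρ p < 0) {f : En n → ℂ} (hf : DifferentiableOn ℂ f 𝓓.D)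
    (hb : ∃ M : ℝ, ∀ w ∈ 𝓓.D, ‖f w‖ ≤ M) :
    ∃ G : Fin n → En n → ℂ, (∀ j, DifferentiableOn ℂ (G j) 𝓓.D) ∧
      (∃ C : ℝ, ∀ j, ∀ z ∈ 𝓓.D, ‖G j z‖ ≤ C) ∧
      ∀ z ∈ 𝓓.D, f z - f p = ∑ j, (z j - p j) * G j z := by
  obtain ⟨c⟩ := 𝓓.exists_keC hp hb
  obtain ⟨CE, hCE0, hCE⟩ := c.bound_E hp
  have hfc := hf.continuousOn
  have hDm := 𝓓.isOpen_D.measurableSet
  have hP : ∀ z, 𝓓.ρ z < 0 → ((kap n 2 : ℝ) : ℂ)⁻¹ * ∫ w in 𝓓.D, f w * 𝓓.keK z w = f z :=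
    fun z hz => 𝓓.repro hz hf hb (le_refl 2)
  refine ⟨fun j z => ((kap n 2 : ℝ) : ℂ)⁻¹ * ∫ w in 𝓓.D, 𝓓.keH f p j z w, ?_, ?_, ?_⟩
  · intro j
    exact (c.differentiable hp hfc j).const_mul _
  · have hM0 := c.M0
    have hL0 := c.L0
    have hc0 := c.c0
    have hCK0 := c.CK0
    have hCI0 := c.CI0
    refine ⟨c.L / c.c₀ * c.M + ‖((kap n 2 : ℝ) : ℂ)⁻¹‖ *
      (c.M * (CE * (c.CK * c.CA ^ 2)) * c.CI), ?_⟩
    intro j z hz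
    have hz' : 𝓓.ρ z < 0 := hz
    obtain ⟨i1', i2⟩ := c.integrable hp hfc hz'
    have i1 := i1' j
    set s : ℂ := 𝓓.keD j z / 𝓓.A z p with hs
    have i3 : IntegrableOn (fun w => s * (f w * 𝓓.keK z w)) 𝓓.D := i2.const_mul s
    have e1 : ∫ w in 𝓓.D, 𝓓.keH f p j z w = s * (∫ w in 𝓓.D, f w * 𝓓.keK z w) +
        ∫ w in 𝓓.D, (𝓓.keH f p j z w - s * (f w * 𝓓.keK z w)) := by
      rw [integral_sub i1 i3, integral_const_mul]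
      ring
    have hb1 : ‖∫ w in 𝓓.D, (𝓓.keH f p j z w - s * (f w * 𝓓.keK z w))‖ ≤
        c.M * (CE * (c.CK * c.CA ^ 2)) * c.CI := by
      obtain ⟨hI1, hI2⟩ := c.hI z hz'
      calc _ ≤ ∫ w in 𝓓.D, c.M * (CE * (c.CK * c.CA ^ 2)) *
            ‖𝓓.A w z‖ ^ (-((n + 1 : ℝ) - 1 / 2)) := by
            refine norm_integral_le_of_norm_le (hI1.const_mul _) ?_
            refine (ae_restrict_iff' hDm).2 (Eventually.of_forall fun w hw => ?_)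
            have hw' : 𝓓.ρ w < 0 := hw
            have e2 : 𝓓.keH f p j z w - s * (f w * 𝓓.keK z w) =
                f w * (𝓓.keD j w * 𝓓.keS p z w - s) * 𝓓.keK z w := by
              rw [keH]; ring
            rw [e2, norm_mul, norm_mul]
            have h1 := hCE j w z hw' hz'
            have h2 := c.bound_K hw' hz'
            have h3 := c.hM w hw'
            have h4 : 0 ≤ √‖𝓓.A w z‖ := Real.sqrt_nonneg _
            calc ‖f w‖ * ‖𝓓.keD j w * 𝓓.keS p z w - s‖ * ‖𝓓.keK z w‖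
                ≤ c.M * (CE * √‖𝓓.A w z‖) * ‖𝓓.keK z w‖ := by gcongr
              _ = c.M * CE * (√‖𝓓.A w z‖ * ‖𝓓.keK z w‖) := by ring
              _ ≤ c.M * CE * (c.CK * c.CA ^ 2 * ‖𝓓.A w z‖ ^ (-((n + 1 : ℝ) - 1 / 2))) := by
                  gcongr
              _ = _ := by ring
        _ = c.M * (CE * (c.CK * c.CA ^ 2)) *
            ∫ w in 𝓓.D, ‖𝓓.A w z‖ ^ (-((n + 1 : ℝ) - 1 / 2)) := integral_const_mul _ _
        _ ≤ _ := by gcongr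
    have e3 : ((kap n 2 : ℝ) : ℂ)⁻¹ * ∫ w in 𝓓.D, 𝓓.keH f p j z w = s * f z +
        ((kap n 2 : ℝ) : ℂ)⁻¹ * ∫ w in 𝓓.D, (𝓓.keH f p j z w - s * (f w * 𝓓.keK z w)) := by
      rw [e1, ← hP z hz']
      ring
    show ‖((kap n 2 : ℝ) : ℂ)⁻¹ * ∫ w in 𝓓.D, 𝓓.keH f p j z w‖ ≤ _
    rw [e3]
    refine (norm_add_le _ _).trans ?_
    rw [norm_mul, norm_mul]
    refine add_le_add ?_ (mul_le_mul_of_nonneg_left hb1 (norm_nonneg _))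
    have h5 : ‖s‖ ≤ c.L / c.c₀ := by
      rw [hs, norm_div]
      have := c.hD j z hz'
      have := c.hc z hz'
      gcongr
    have h6 := c.hM z hz'
    gcongr
  · intro z hz
    have hz' : 𝓓.ρ z < 0 := hz
    have hi := (c.integrable hp hfc hz').1
    have e1 : ∑ j, (z j - p j) * (((kap n 2 : ℝ) : ℂ)⁻¹ * ∫ w in 𝓓.D, 𝓓.keH f p j z w) =
        ((kap n 2 : ℝ) : ℂ)⁻¹ * ∫ w in 𝓓.D, ∑ j, (z j - p j) * 𝓓.keH f p j z w := by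
      rw [integral_finsetSum _ fun j _ => (hi j).const_mul _, Finset.mul_sum]
      refine Finset.sum_congr rfl fun j _ => ?_
      rw [integral_const_mul]
      ring
    show f z - f p = ∑ j, (z j - p j) * (((kap n 2 : ℝ) : ℂ)⁻¹ * ∫ w in 𝓓.D, 𝓓.keH f p j z w)
    rw [e1]
    have e2 : ∫ w in 𝓓.D, ∑ j, (z j - p j) * 𝓓.keH f p j z w =
        ∫ w in 𝓓.D, (f w * 𝓓.keK z w - f w * 𝓓.keK p w) := by
      refine setIntegral_congr_fun hDm fun w hw => ?_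
      have hw' : 𝓓.ρ w < 0 := hw
      have h1 := 𝓓.ke_key hw'.le hz' hp
      simp only [keH]
      calc ∑ j, (z j - p j) * (f w * (𝓓.keD j w * 𝓓.keS p z w) * 𝓓.keK z w) =
            f w * ((∑ j, (z j - p j) * 𝓓.keD j w) * 𝓓.keS p z w * 𝓓.keK z w) := by
            rw [Finset.sum_mul, Finset.sum_mul, Finset.mul_sum]
            exact Finset.sum_congr rfl fun j _ => by ring
        _ = f w * 𝓓.keK z w - f w * 𝓓.keK p w := by rw [← h1]; ring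
    rw [e2, integral_sub (c.integrable hp hfc hz').2 (c.integrable hp hfc hp).2, mul_sub,
      hP z hz', hP p hp]

end Dm

end Pool.Agent.MPca0fc2.CX
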