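import Mathlib
import Pool.Agent.Lib.MP_ca0fc2_an.CXFibA
import Pool.Agent.Lib.MP_ca0fc2_an.CXKE

/-!
Task CX FibB: the fibres over interior points.
PROOF. `gleason` at `p = pt m`: `f = f p + ∑_j (z_j - p_j) G_j`, apply `m`: `m (z_j) = p_j`.
-/

set_option autoImplicit false

open Metric Set MeasureTheory Filter Topology
open scoped ComplexOrder

namespace Pool.Agent.MPca0fc2.CX

open Pool.Agent.Lib.MP_ca0fc2_an

/-- constants are in `H^∞` -/
theorem fibB_const {n : ℕ} (D : Set (En n)) (c : ℂ) : IsHinf D (fun _ => c) :=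
  ⟨differentiableOn_const c, ‖c‖, fun _ _ => le_rfl⟩

theorem fibB_add {n : ℕ} {D : Set (En n)} {F G : En n → ℂ} (hF : IsHinf D F) (hG : IsHinf D G) :
    IsHinf D (fun z => F z + G z) := by
  obtain ⟨hF1, M, hM⟩ := hF
  obtain ⟨hG1, K, hK⟩ := hG
  exact ⟨hF1.add hG1, M + K, fun z hz => (norm_add_le _ _).trans (add_le_add (hM z hz) (hK z hz))⟩

theorem fibB_mul {n : ℕ} {D : Set (En n)} {F G : En n → ℂ} (hF : IsHinf D F) (hG : IsHinf D G) :
    IsHinf D (fun z => F z * G z) := by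
  obtain ⟨hF1, M, hM⟩ := hF
  obtain ⟨hG1, K, hK⟩ := hG
  refine ⟨hF1.mul hG1, M * K, fun z hz => ?_⟩
  rw [norm_mul]
  exact mul_le_mul (hM z hz) (hK z hz) (norm_nonneg _) ((norm_nonneg _).trans (hM z hz))

theorem fibB_mconst {n : ℕ} {D : Set (En n)} {m : (En n → ℂ) → ℂ} (hm : IsCharacter D m) (c : ℂ) :
    m (fun _ => c) = c := by
  have h := hm.smul c (fun _ => 1) (fibB_const D 1)
  rw [hm.one, mul_one] at h
  simpa using h

theorem fibB_sum {n : ℕ} {D : Set (En n)} {m : (En n → ℂ) → ℂ} (hm : IsCharacter D m)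
    {ι : Type*} (s : Finset ι) {F : ι → En n → ℂ} (hF : ∀ i, IsHinf D (F i)) :
    IsHinf D (fun z => ∑ i ∈ s, F i z) ∧ m (fun z => ∑ i ∈ s, F i z) = ∑ i ∈ s, m (F i) := by
  classical
  induction s using Finset.induction_on with
  | empty =>
    simp only [Finset.sum_empty]
    exact ⟨fibB_const D 0, fibB_mconst hm 0⟩
  | insert a s ha ih =>
    simp only [Finset.sum_insert ha]
    exact ⟨fibB_add (hF a) ih.1, by rw [hm.add _ _ (hF a) ih.1, ih.2]⟩

namespace Dm

variable {n : ℕ} (𝓓 : Dm n)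

theorem fibB_coord (j : Fin n) : IsHinf 𝓓.D (fun z => z j) := by
  obtain ⟨R, -, hR⟩ := 𝓓.exists_R
  refine ⟨?_, R, fun z hz => ?_⟩
  · intro z _
    exact (differentiableAt_euclidean.1 differentiableAt_id j).differentiableWithinAt
  · exact (PiLp.norm_apply_le z j).trans (hR z (le_of_lt hz))

theorem char_interior {m : (En n → ℂ) → ℂ} (hm : IsCharacter 𝓓.D m) (h : 𝓓.ρ (pt m) < 0)
    {f : En n → ℂ} (hf : IsHinf 𝓓.D f) : m f = f (pt m) := by
  obtain ⟨G, hG1, ⟨C, hC⟩, hG2⟩ := 𝓓.gleason h hf.1 hf.2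
  set p := pt m with hp
  have hpj : ∀ j, m (fun z => z j) = p j := fun j => rfl
  have hGH : ∀ j, IsHinf 𝓓.D (G j) := fun j => ⟨hG1 j, C, hC j⟩
  have hcH : ∀ j, IsHinf 𝓓.D (fun z : En n => z j + -p j) := fun j =>
    fibB_add (𝓓.fibB_coord j) (fibB_const _ _)
  have hFH : ∀ j, IsHinf 𝓓.D (fun z : En n => (z j + -p j) * G j z) := fun j =>
    fibB_mul (hcH j) (hGH j)
  have hs := fibB_sum hm Finset.univ hFH
  have hcong : m f = m (fun z => f p + ∑ j, (z j + -p j) * G j z) := by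
    refine hm.congr _ _ hf (fibB_add (fibB_const _ _) hs.1) fun z hz => ?_
    have := hG2 z hz
    simp only [← sub_eq_add_neg]
    rw [← this]; ring
  rw [hcong, hm.add _ _ (fibB_const _ _) hs.1, fibB_mconst hm, hs.2]
  have hz : ∀ j, m (fun z : En n => (z j + -p j) * G j z) = 0 := by
    intro j
    rw [hm.mul _ _ (hcH j) (hGH j), hm.add _ _ (𝓓.fibB_coord j) (fibB_const _ _),
      fibB_mconst hm, hpj j]
    ring
  simp [hz]

end Dm

end Pool.Agent.MPca0fc2.CX
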