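import Mathlib
import Pool.Agent.Lib.MP_ca0fc2_an.CXKC
import Pool.Agent.Lib.MP_ca0fc2_an.Mg.G082

/-!
Task CX KD: the geometry of the domain.
PROOF. `g = 𝓓.g`; `c₁` from `g_comp` (`-ρ z ≤ C (1 - g z)`, `c₁ = 1/(2C)`); `q a b = c₁ (‖A a b‖ + ‖A b a‖)`;
`R₀` from `norm_le_g`; `Co` from `osc` (`‖A a b‖ ≤ q a b / c₁`). `Ker`: `ker1` with `m = 2`, `P_holo`.
`{w | 𝓓.g w < 1} = 𝓓.D` by `g_lt_one`.
-/

set_option autoImplicit false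

open Metric Set MeasureTheory Filter Topology
open scoped ComplexOrder

namespace Pool.Agent.MPca0fc2.CX

namespace Dm

variable {n : ℕ} (𝓓 : Dm n)

/-- The geometry of the domain. -/
theorem exists_geo (hn : 1 ≤ n) : ∃ (𝓖 : Geo (En n)) (P : (En n → ℂ) → En n → ℂ) (CK : ℝ),
    𝓖.g = 𝓓.g ∧ 𝓖.Ker P CK := by
  obtain ⟨C, hC1, hC⟩ := 𝓓.g_comp
  obtain ⟨R, hR1, hR⟩ := 𝓓.norm_le_g
  obtain ⟨Cosc, hCosc1, hCosc⟩ := 𝓓.osc
  have hC0 : 0 < C := by linarith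
  set c₁ : ℝ := 1 / (2 * C) with hc₁
  have hc₁0 : 0 < c₁ := by positivity
  have hcc : ∀ z, 𝓓.ρ z ≤ 0 → 2 * c₁ * (-𝓓.ρ z) ≤ 1 - 𝓓.g z := by
    intro z hz
    have h1 := (hC z hz).2
    have h2 : 2 * c₁ * (-𝓓.ρ z) = (-𝓓.ρ z) / C := by
      rw [hc₁]
      field_simp
    rw [h2, div_le_iff₀ hC0]
    linarith
  obtain ⟨CK, hCK0, hCK⟩ := 𝓓.ker1 (le_refl 2) hc₁0 hcc
  have hD : {w | 𝓓.g w < 1} = 𝓓.D := by
    ext w
    exact 𝓓.g_lt_one w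
  set Co : ℝ := Cosc * (1 / c₁) ^ (1 / 4 : ℝ) + 1 with hCo
  have hCo0 : 0 ≤ Cosc * (1 / c₁) ^ (1 / 4 : ℝ) :=
    mul_nonneg (by linarith) (Real.rpow_nonneg (by positivity) _)
  refine ⟨{ g := 𝓓.g
            q := fun a b => c₁ * (‖𝓓.A a b‖ + ‖𝓓.A b a‖)
            R₀ := R
            Co := Co
            R₀_ge := hR1
            Co_ge := by linarith
            g_nonneg := 𝓓.g_nonneg
            g_smul := fun t z ht => 𝓓.g_smul t ht z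
            g_add := 𝓓.g_add
            g_le := 𝓓.g_le
            norm_le := hR
            q_nonneg := fun a b => by positivity
            q_symm := fun a b => by rw [add_comm]
            osc := ?_ }, 𝓓.P 2, CK, rfl, ?_⟩
  · intro t G B ht ht1 hB hG hGB a b ha hb
    refine (hCosc t G B ht ht1 hB hG hGB a b ((𝓓.g_le_one a).1 ha) ((𝓓.g_le_one b).1 hb)).trans ?_
    have h1 : ‖𝓓.A a b‖ / t ≤ (1 / c₁) * (c₁ * (‖𝓓.A a b‖ + ‖𝓓.A b a‖) / t) := by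
      have h2 : (1 / c₁) * (c₁ * (‖𝓓.A a b‖ + ‖𝓓.A b a‖) / t) = (‖𝓓.A a b‖ + ‖𝓓.A b a‖) / t := by
        field_simp
      rw [h2]
      have := norm_nonneg (𝓓.A b a)
      gcongr
      linarith
    have hq0 : 0 ≤ c₁ * (‖𝓓.A a b‖ + ‖𝓓.A b a‖) / t := by positivity
    have h3 : (‖𝓓.A a b‖ / t) ^ (1 / 4 : ℝ) ≤
        (1 / c₁) ^ (1 / 4 : ℝ) * (c₁ * (‖𝓓.A a b‖ + ‖𝓓.A b a‖) / t) ^ (1 / 4 : ℝ) := by
      rw [← Real.mul_rpow (by positivity) hq0]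
      exact Real.rpow_le_rpow (by positivity) h1 (by norm_num)
    have hx0 : 0 ≤ (c₁ * (‖𝓓.A a b‖ + ‖𝓓.A b a‖) / t) ^ (1 / 4 : ℝ) := Real.rpow_nonneg hq0 _
    set x := (c₁ * (‖𝓓.A a b‖ + ‖𝓓.A b a‖) / t) ^ (1 / 4 : ℝ)
    calc Cosc * B * (‖𝓓.A a b‖ / t) ^ (1 / 4 : ℝ)
        ≤ Cosc * B * ((1 / c₁) ^ (1 / 4 : ℝ) * x) :=
          mul_le_mul_of_nonneg_left h3 (mul_nonneg (by linarith) hB)
      _ = (Cosc * (1 / c₁) ^ (1 / 4 : ℝ)) * (B * x) := by ring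
      _ ≤ Co * (B * x) := mul_le_mul_of_nonneg_right (by linarith) (mul_nonneg hB hx0)
      _ ≤ 24 * Co * B * x := by
          have : 0 ≤ Co * (B * x) := mul_nonneg (by linarith) (mul_nonneg hB hx0)
          nlinarith
  · refine ⟨hCK0, ?_, ?_⟩
    · intro t X z F Φ G G' MΦ ht ht1 hX h1 h2 hG hG' hF hFG hΦ hΦM hFΦ
      simp only [Geo.B] at hF hFG hΦ hΦM hFΦ
      rw [hD] at hF
      exact hCK t X z F Φ G G' MΦ ht ht1 hX h1 h2 hG hG' hF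
        (fun w hw => hFG w ((𝓓.g_lt_one w).2 hw))
        (hΦ.mono fun w hw => ⟨(𝓓.g_lt_one w).2 hw.1, hw.2⟩)
        (fun w hw h => hΦM w ((𝓓.g_lt_one w).2 hw) h)
        (fun w hw h => hFΦ w ((𝓓.g_lt_one w).2 hw) h)
    · intro F C' hF hC'
      simp only [Geo.B] at hF hC' ⊢
      rw [hD] at hF ⊢
      exact 𝓓.P_holo 2 (hF.aestronglyMeasurable 𝓓.isOpen_D.measurableSet)
        fun w hw => hC' w ((𝓓.g_lt_one w).2 hw)

end Dm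

end Pool.Agent.MPca0fc2.CX
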