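import Mathlib
import Pool.Agent.Lib.MP_ca0fc2_an.SDData
import Pool.Agent.Lib.MP_ca0fc2_an.Mg.G082

/-!
# Control of the gradient in the abstract geometry
-/

set_option autoImplicit false

open Metric Set Filter Topology

namespace Pool.Agent.MPca0fc2.CX.Geo

variable {E : Type*} [NormedAddCommGroup E] [InnerProductSpace ℂ E] (𝓖 : Geo E)

theorem g_zero : 𝓖.g 0 = 0 := by
  have := 𝓖.g_smul 0 0 le_rfl
  simpa using this

theorem mem_B {z : E} {r : ℝ} : z ∈ 𝓖.B r ↔ 𝓖.g z < r := Iff.rfl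

theorem g_smul' {t : ℝ} (ht : 0 ≤ t) (z : E) : 𝓖.g ((t : ℂ) • z) = t * 𝓖.g z := 𝓖.g_smul t z ht

theorem g_sub_le (a b : E) : 𝓖.g a ≤ 𝓖.g b + ‖a - b‖ := by
  have h1 := 𝓖.g_add (a - b) b
  rw [sub_add_cancel] at h1
  have h2 := 𝓖.g_le (a - b)
  linarith

theorem continuous_g : Continuous 𝓖.g := by
  rw [Metric.continuous_iff]
  intro b ε hε
  refine ⟨ε, hε, fun a ha => ?_⟩
  rw [dist_eq_norm] at ha
  rw [Real.dist_eq, abs_lt]
  have h1 := 𝓖.g_sub_le a b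
  have h2 := 𝓖.g_sub_le b a
  rw [norm_sub_rev] at h2
  constructor <;> linarith

theorem isOpen_B (r : ℝ) : IsOpen (𝓖.B r) := isOpen_lt 𝓖.continuous_g continuous_const

theorem B_mono {r s : ℝ} (h : r ≤ s) : 𝓖.B r ⊆ 𝓖.B s := fun _ hz => lt_of_lt_of_le hz h

theorem zero_mem_B {r : ℝ} (hr : 0 < r) : (0 : E) ∈ 𝓖.B r := by
  rw [mem_B, g_zero]; exact hr

theorem convex_le (r : ℝ) : Convex ℝ {z : E | 𝓖.g z ≤ r} := by
  intro x hx y hy a b ha hb hab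
  rw [mem_setOf_eq] at hx hy ⊢
  have e1 : ∀ (t : ℝ) (z : E), t • z = (t : ℂ) • z := fun t z =>
    (RCLike.real_smul_eq_coe_smul (K := ℂ) t z)
  calc 𝓖.g (a • x + b • y) ≤ 𝓖.g (a • x) + 𝓖.g (b • y) := 𝓖.g_add _ _
    _ = a * 𝓖.g x + b * 𝓖.g y := by rw [e1, e1, 𝓖.g_smul a x ha, 𝓖.g_smul b y hb]
    _ ≤ a * r + b * r := by gcongr
    _ = r := by rw [← add_mul, hab, one_mul]

theorem convex_B (r : ℝ) : Convex ℝ (𝓖.B r) := by
  intro x hx y hy a b ha hb hab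
  rw [mem_B] at hx hy ⊢
  have e1 : ∀ (t : ℝ) (z : E), t • z = (t : ℂ) • z := fun t z =>
    (RCLike.real_smul_eq_coe_smul (K := ℂ) t z)
  have h1 : a * 𝓖.g x + b * 𝓖.g y < r := by
    rcases eq_or_lt_of_le ha with h | h
    · have : b = 1 := by linarith
      rw [← h, this]; linarith
    · calc a * 𝓖.g x + b * 𝓖.g y < a * r + b * r :=
            add_lt_add_of_lt_of_le (mul_lt_mul_of_pos_left hx h)
              (mul_le_mul_of_nonneg_left hy.le hb)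
        _ = r := by rw [← add_mul, hab, one_mul]
  refine lt_of_le_of_lt ?_ h1
  calc 𝓖.g (a • x + b • y) ≤ 𝓖.g (a • x) + 𝓖.g (b • y) := 𝓖.g_add _ _
    _ = a * 𝓖.g x + b * 𝓖.g y := by rw [e1, e1, 𝓖.g_smul a x ha, 𝓖.g_smul b y hb]

theorem ball_subset_B (x : E) (r : ℝ) : ball x (r - 𝓖.g x) ⊆ 𝓖.B r := by
  intro w hw
  rw [mem_ball, dist_eq_norm] at hw
  rw [mem_B]
  have := 𝓖.g_sub_le w x
  linarith

end Pool.Agent.MPca0fc2.CX.Geo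

namespace Pool.Agent.MPca0fc2.CXP

open Pool.Agent.MPca0fc2.SD Pool.Agent.MPca0fc2.CX

variable {E : Type*} [NormedAddCommGroup E] [InnerProductSpace ℂ E]

/-- Control of the gradient at dyadic depths. -/
structure Grad (𝓖 : Geo E) (f : E → ℂ) (e : ℕ → ℝ) : Prop where
  hol : DifferentiableOn ℂ f (𝓖.B 1)
  grad : ∀ k : ℕ, ∀ z : E, 𝓖.g z ≤ rr k → 𝓖.R₀ * ‖fderiv ℂ f z‖ * (1 / 2) ^ k ≤ e k

variable {𝓖 : Geo E}

theorem Grad.radial {f : E → ℂ} {e : ℕ → ℝ} (hf : Grad 𝓖 f e) {k : ℕ} {s s' : ℝ} (hs : 0 ≤ s)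
    (hss : s ≤ s') {z : E} (hz : s' * 𝓖.g z ≤ rr k) :
    ‖f ((s' : ℂ) • z) - f ((s : ℂ) • z)‖ ≤ (s' - s) * 𝓖.g z * (e k / (1 / 2) ^ k) := by
  have hpos := half_pow_pos k
  have hR := 𝓖.R₀_ge
  have hsub : {w : E | 𝓖.g w ≤ rr k} ⊆ 𝓖.B 1 := fun w hw => lt_of_le_of_lt hw (rr_lt_one k)
  have h1 : ∀ x ∈ {w : E | 𝓖.g w ≤ rr k}, DifferentiableAt ℂ f x := fun x hx =>
    hf.hol.differentiableAt ((𝓖.isOpen_B 1).mem_nhds (hsub hx))
  have h2 : ∀ x ∈ {w : E | 𝓖.g w ≤ rr k}, ‖fderiv ℂ f x‖ ≤ e k / (1 / 2) ^ k / 𝓖.R₀ := by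
    intro x hx
    rw [le_div_iff₀ (by linarith), le_div_iff₀ hpos]
    have := hf.grad k x hx
    linarith
  have h3 : (s : ℂ) • z ∈ {w : E | 𝓖.g w ≤ rr k} := by
    rw [mem_setOf_eq, 𝓖.g_smul s z hs]
    exact (mul_le_mul_of_nonneg_right hss (𝓖.g_nonneg _)).trans hz
  have h4 : (s' : ℂ) • z ∈ {w : E | 𝓖.g w ≤ rr k} := by
    rw [mem_setOf_eq, 𝓖.g_smul s' z (hs.trans hss)]
    exact hz
  have h5 := (𝓖.convex_le (rr k)).norm_image_sub_le_of_norm_fderiv_le h1 h2 h3 h4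
  rw [← sub_smul, norm_smul, ← Complex.ofReal_sub, Complex.norm_real,
    Real.norm_of_nonneg (sub_nonneg.mpr hss)] at h5
  refine h5.trans ?_
  have h6 : 0 ≤ e k := by
    refine le_trans ?_ (hf.grad k 0 (by rw [𝓖.g_zero]; exact rr_nonneg k))
    positivity
  have h7 := 𝓖.norm_le z
  have h8 := sub_nonneg.mpr hss
  calc e k / (1 / 2) ^ k / 𝓖.R₀ * ((s' - s) * ‖z‖)
      ≤ e k / (1 / 2) ^ k / 𝓖.R₀ * ((s' - s) * (𝓖.R₀ * 𝓖.g z)) := by gcongr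
    _ = _ := by
      have : 𝓖.R₀ ≠ 0 := by linarith
      field_simp

theorem Grad.nonneg {f : E → ℂ} {e : ℕ → ℝ} (hf : Grad 𝓖 f e) (k : ℕ) : 0 ≤ e k := by
  have hR := 𝓖.R₀_ge
  refine le_trans ?_ (hf.grad k 0 (by rw [𝓖.g_zero]; exact rr_nonneg k))
  positivity

theorem diffOn_dil {f : E → ℂ} (hf : DifferentiableOn ℂ f (𝓖.B 1)) {r R : ℝ} (hr : 0 ≤ r)
    (h : r * R ≤ 1) :
    DifferentiableOn ℂ (fun z : E => f ((r : ℂ) • z)) (𝓖.B R) := by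
  apply hf.comp
  · exact (differentiable_id.const_smul _).differentiableOn
  · intro z hz
    rw [𝓖.mem_B] at hz ⊢
    rw [𝓖.g_smul r z hr]
    rcases eq_or_lt_of_le hr with h0 | h0
    · rw [← h0]; simp
    · calc r * 𝓖.g z < r * R := mul_lt_mul_of_pos_left hz h0
        _ ≤ 1 := h

/-- the oscillation of one dyadic block -/
theorem Grad.block {f : E → ℂ} {e : ℕ → ℝ} (hf : Grad 𝓖 f e) (he : Slow e) (j : ℕ) {a b : E}
    (ha : 𝓖.g a ≤ 1) (hb : 𝓖.g b ≤ 1) :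
    ‖(f ((rr (j + 1) : ℂ) • a) - f ((rr j : ℂ) • a)) -
      (f ((rr (j + 1) : ℂ) • b) - f ((rr j : ℂ) • b))‖ ≤
      88 * 𝓖.Co * (e j * hwt (𝓖.q a b) j) := by
  set t : ℝ := (1 / 2) ^ j with ht
  have ht0 : 0 < t := half_pow_pos j
  have ht1 : t ≤ 1 := half_pow_le_one j
  have hr1 : rr (j + 1) = 1 - t / 2 := by rw [rr_succ, rr, ← ht]; ring
  have hr0 : rr j = 1 - t := by rw [rr, ← ht]
  have hr2 : rr (j + 2) = 1 - t / 4 := by rw [rr_succ, hr1, pow_succ, ← ht]; ring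
  have hle1 : rr (j + 1) * (1 + t / 16) ≤ 1 := by rw [hr1]; nlinarith
  have hle0 : rr j * (1 + t / 16) ≤ 1 := by rw [hr0]; nlinarith
  have hCo := 𝓖.Co_ge
  have hG : DifferentiableOn ℂ (fun z : E => f ((rr (j + 1) : ℂ) • z) - f ((rr j : ℂ) • z))
      (𝓖.B (1 + t / 16)) :=
    (diffOn_dil hf.hol (rr_nonneg _) hle1).sub
      (diffOn_dil hf.hol (rr_nonneg _) hle0)
  have hGB : ∀ z : E, 𝓖.g z < 1 + t / 16 →
      ‖f ((rr (j + 1) : ℂ) • z) - f ((rr j : ℂ) • z)‖ ≤ 3 * e (j + 2) := by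
    intro z hz
    have h1 := hf.radial (k := j + 2) (rr_nonneg j) (s' := rr (j + 1))
      (by rw [hr0, hr1]; linarith) (z := z) (by
        rw [hr2]
        calc rr (j + 1) * 𝓖.g z ≤ rr (j + 1) * (1 + t / 16) :=
              mul_le_mul_of_nonneg_left hz.le (rr_nonneg _)
          _ ≤ _ := by rw [hr1]; nlinarith)
    refine h1.trans ?_
    have h2 : ((1 : ℝ) / 2) ^ (j + 2) = t / 4 := by rw [pow_add, ← ht]; ring
    rw [hr1, hr0, h2]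
    have h3 : 0 ≤ e (j + 2) := he.nonneg _
    have h4 : (1 - t / 2 - (1 - t)) * 𝓖.g z * (e (j + 2) / (t / 4)) = 2 * 𝓖.g z * e (j + 2) := by
      field_simp; ring
    rw [h4]
    apply mul_le_mul_of_nonneg_right _ h3
    linarith
  have h := 𝓖.osc t (fun z : E => f ((rr (j + 1) : ℂ) • z) - f ((rr j : ℂ) • z)) (3 * e (j + 2))
    ht0 ht1 (by have := he.nonneg (j + 2); positivity) hG hGB a b ha hb
  refine h.trans ?_
  have h1 : e (j + 2) ≤ (11 / 10) * ((11 / 10) * e j) :=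
    (he.up (j + 1)).trans (mul_le_mul_of_nonneg_left (he.up j) (by norm_num))
  have h2 : (𝓖.q a b / t) ^ (1 / 4 : ℝ) = hwt (𝓖.q a b) j := by rw [hwt, ht]
  rw [h2]
  have h3 := hwt_nonneg (𝓖.q_nonneg a b) j
  have h4 := he.nonneg j
  calc 24 * 𝓖.Co * (3 * e (j + 2)) * hwt (𝓖.q a b) j
      ≤ 24 * 𝓖.Co * (3 * ((11 / 10) * ((11 / 10) * e j))) * hwt (𝓖.q a b) j := by gcongr
    _ = 87.12 * 𝓖.Co * (e j * hwt (𝓖.q a b) j) := by ring
    _ ≤ _ := by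
      have := mul_nonneg h4 h3
      gcongr
      norm_num

/-- the oscillation of the dilates of `f` -/
theorem Grad.osc {f : E → ℂ} {e : ℕ → ℝ} (hf : Grad 𝓖 f e) (he : Slow e) (k : ℕ) {a b : E}
    (ha : 𝓖.g a ≤ 1) (hb : 𝓖.g b ≤ 1) :
    ‖f ((rr k : ℂ) • a) - f ((rr k : ℂ) • b)‖ ≤ 1672 * 𝓖.Co * (e k * hwt (𝓖.q a b) k) := by
  have hCo := 𝓖.Co_ge
  have htel : f ((rr k : ℂ) • a) - f ((rr k : ℂ) • b) = ∑ j ∈ Finset.range k,
      ((f ((rr (j + 1) : ℂ) • a) - f ((rr j : ℂ) • a)) -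
      (f ((rr (j + 1) : ℂ) • b) - f ((rr j : ℂ) • b))) := by
    rw [Finset.sum_sub_distrib, Finset.sum_range_sub (fun j => f ((rr j : ℂ) • a)),
      Finset.sum_range_sub (fun j => f ((rr j : ℂ) • b)), rr_zero]
    simp
  rw [htel]
  calc _ ≤ ∑ j ∈ Finset.range k, 88 * 𝓖.Co * (e j * hwt (𝓖.q a b) j) :=
        norm_sum_le_of_le _ fun j _ => hf.block he j ha hb
    _ = 88 * 𝓖.Co * ∑ j ∈ Finset.range k, e j * hwt (𝓖.q a b) j := by rw [Finset.mul_sum]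
    _ ≤ 88 * 𝓖.Co * (19 * (e k * hwt (𝓖.q a b) k)) :=
        mul_le_mul_of_nonneg_left (sum_slow he (𝓖.q_nonneg a b) k) (by linarith)
    _ = _ := by ring

end Pool.Agent.MPca0fc2.CXP
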