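import Mathlib

set_option autoImplicit false

open Metric Set Filter Topology
open scoped InnerProductSpace

namespace Pool.Agent.MPca0fc2.SL

section Algebra

variable {J : Type*} [Fintype J]

/-- the bilinear product -/
noncomputable def dot (f h : J → ℂ) : ℂ := ∑ j, f j * h j

theorem dot_add (f g h : J → ℂ) : dot f (g + h) = dot f g + dot f h := by
  simp only [dot, Pi.add_apply, mul_add, Finset.sum_add_distrib]

theorem dot_sub (f g h : J → ℂ) : dot f (g - h) = dot f g - dot f h := by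
  simp only [dot, Pi.sub_apply, mul_sub, Finset.sum_sub_distrib]

theorem sub_dot (f g h : J → ℂ) : dot (f - g) h = dot f h - dot g h := by
  simp only [dot, Pi.sub_apply, sub_mul, Finset.sum_sub_distrib]

theorem dot_smul (c : ℂ) (f h : J → ℂ) : dot f (c • h) = c * dot f h := by
  simp only [dot, Pi.smul_apply, smul_eq_mul, Finset.mul_sum]
  exact Finset.sum_congr rfl fun j _ => by ring

theorem norm_dot_le (f h : J → ℂ) : ‖dot f h‖ ≤ Fintype.card J * (‖f‖ * ‖h‖) := by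
  calc ‖dot f h‖ ≤ ∑ j : J, ‖f‖ * ‖h‖ := by
        apply norm_sum_le_of_le
        intro j _
        rw [norm_mul]
        exact mul_le_mul (norm_le_pi_norm f j) (norm_le_pi_norm h j) (norm_nonneg _)
          (norm_nonneg _)
    _ = _ := by rw [Finset.sum_const, Finset.card_univ, nsmul_eq_mul]

/-- the vector `U` -/
noncomputable def Uv (h m : J → ℂ) (η : ℂ) : J → ℂ := h - (1 - η) • m

/-- the new scalar -/
noncomputable def ηv (f' h m : J → ℂ) (η X : ℂ) : ℂ := dot f' (X • Uv h m η)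

/-- the new vector -/
noncomputable def hv (f' h m m' : J → ℂ) (η X : ℂ) : J → ℂ :=
  X • Uv h m η + (1 - ηv f' h m η X) • m'

theorem dot_hv {f' h m m' : J → ℂ} {η X : ℂ} (hm : dot f' m' = 1) :
    dot f' (hv f' h m m' η X) = 1 := by
  rw [hv, dot_add, dot_smul _ _ m', hm, ηv]; ring

theorem dot_Uv {f h m : J → ℂ} {η : ℂ} (hh : dot f h = 1) (hm : dot f m = 1) :
    dot f (Uv h m η) = η := by
  rw [Uv, dot_sub, dot_smul, hh, hm]; ring

theorem Uv_hv {f' h m m' : J → ℂ} {η X : ℂ} :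
    Uv (hv f' h m m' η X) m' (ηv f' h m η X) = X • Uv h m η := by
  rw [Uv, hv]; abel

theorem norm_Uv_le {h m : J → ℂ} {η : ℂ} {P B : ℝ} (hh : ‖h‖ ≤ P) (hη : ‖η‖ ≤ P)
    (hm : ‖m‖ ≤ B) (_hB : 0 ≤ B) : ‖Uv h m η‖ ≤ P + (1 + P) * B := by
  rw [Uv]
  refine (norm_sub_le _ _).trans ?_
  rw [norm_smul]
  have h1 : ‖1 - η‖ ≤ 1 + P := by
    refine (norm_sub_le _ _).trans ?_
    rw [norm_one]; linarith
  have h2 : 0 ≤ 1 + P := (norm_nonneg _).trans h1
  gcongr

/-- the increment of the frozen step -/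
theorem algA {f f' h m m' : J → ℂ} {η X : ℂ} {M P B X₀ δ : ℝ}
    (hf : ‖f‖ ≤ M) (hP : 0 ≤ P) (hB : 0 ≤ B) (hδ : 0 ≤ δ)
    (hh : ‖h‖ ≤ P) (hη : ‖η‖ ≤ P) (hm : ‖m‖ ≤ B) (hm' : ‖m'‖ ≤ B) (hX : ‖X‖ ≤ X₀)
    (hff : ‖f' - f‖ ≤ δ) (hmm : ‖m' - m‖ ≤ δ) (hXX : ‖X - 1‖ ≤ δ)
    (h1 : dot f h = 1) (h2 : dot f m = 1) :
    ‖ηv f' h m η X - η‖ ≤ Fintype.card J * ((X₀ + M) * (P + (1 + P) * B)) * δ ∧
    ‖hv f' h m m' η X - h‖ ≤ ((P + (1 + P) * B) + (1 + P) +
      Fintype.card J * ((X₀ + M) * (P + (1 + P) * B)) * B) * δ := by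
  have hU := norm_Uv_le hh hη hm hB
  set U := Uv h m η with hUdef
  set u₀ := P + (1 + P) * B with hu₀
  have hu0 : 0 ≤ u₀ := by positivity
  have hX0 : 0 ≤ X₀ := (norm_nonneg _).trans hX
  have hM0 : 0 ≤ M := (norm_nonneg _).trans hf
  have hdU : dot f U = η := dot_Uv h1 h2
  have hη1 : ‖1 - η‖ ≤ 1 + P := by
    refine (norm_sub_le _ _).trans ?_
    rw [norm_one]; linarith
  have ha : ‖ηv f' h m η X - η‖ ≤ Fintype.card J * ((X₀ + M) * u₀) * δ := by
    have e1 : ηv f' h m η X - η = dot (f' - f) (X • U) + (X - 1) * dot f U := by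
      rw [ηv, sub_dot, dot_smul _ f, hdU]; ring
    rw [e1]
    refine (norm_add_le _ _).trans ?_
    have h3 : ‖dot (f' - f) (X • U)‖ ≤ Fintype.card J * (δ * (X₀ * u₀)) := by
      refine (norm_dot_le _ _).trans ?_
      rw [norm_smul]
      gcongr
    have h4 : ‖(X - 1) * dot f U‖ ≤ δ * (Fintype.card J * (M * u₀)) := by
      rw [norm_mul]
      have := norm_dot_le f U
      have h5 : ‖dot f U‖ ≤ Fintype.card J * (M * u₀) := by
        refine this.trans ?_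
        gcongr
      exact mul_le_mul hXX h5 (norm_nonneg _) hδ
    calc _ ≤ Fintype.card J * (δ * (X₀ * u₀)) + δ * (Fintype.card J * (M * u₀)) :=
          add_le_add h3 h4
      _ = _ := by ring
  refine ⟨ha, ?_⟩
  have e1 : hv f' h m m' η X - h = (X - 1) • U + (1 - η) • (m' - m) -
      (ηv f' h m η X - η) • m' := by
    rw [hv, ← hUdef]
    have : h = U + (1 - η) • m := by rw [hUdef, Uv]; abel
    nth_rewrite 2 [this]
    module
  rw [e1]
  refine (norm_sub_le _ _).trans ?_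
  have h3 : ‖(X - 1) • U + (1 - η) • (m' - m)‖ ≤ δ * u₀ + (1 + P) * δ := by
    refine (norm_add_le _ _).trans ?_
    rw [norm_smul, norm_smul]
    gcongr
  have h4 : ‖(ηv f' h m η X - η) • m'‖ ≤ Fintype.card J * ((X₀ + M) * u₀) * δ * B := by
    rw [norm_smul]
    exact mul_le_mul ha hm' (norm_nonneg _) (by positivity)
  calc _ ≤ (δ * u₀ + (1 + P) * δ) + Fintype.card J * ((X₀ + M) * u₀) * δ * B :=
        add_le_add h3 h4
    _ = _ := by ring

/-- the dependence of the frozen step on the base -/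
theorem algB {f f' h m m' l l' : J → ℂ} {η X Y : ℂ} {M P B X₀ δ D : ℝ}
    (hf : ‖f‖ ≤ M) (hf' : ‖f'‖ ≤ M) (hP : 0 ≤ P) (hB : 0 ≤ B) (hδ : 0 ≤ δ) (hD : 0 ≤ D)
    (hh : ‖h‖ ≤ P) (hη : ‖η‖ ≤ P) (hm : ‖m‖ ≤ B) (hm' : ‖m'‖ ≤ B)
    (hl' : ‖l'‖ ≤ B) (hX : ‖X‖ ≤ X₀) (hY : ‖Y‖ ≤ X₀)
    (hff : ‖f' - f‖ ≤ δ) (hmm : ‖m' - m‖ ≤ δ) (hXX : ‖X - 1‖ ≤ δ) (hYY : ‖Y - 1‖ ≤ δ)
    (h1 : dot f h = 1) (h2 : dot f m = 1) (h3 : dot f l = 1)
    (hx : ‖m - l‖ ≤ D) (hx' : ‖m' - l'‖ ≤ D) (hxx : ‖(m' - l') - (m - l)‖ ≤ D * δ)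
    (hXY : ‖X - Y‖ ≤ D * δ) :
    ‖ηv f' h m η X - ηv f' h l η Y‖ ≤
      Fintype.card J * (M * (P + (1 + P) * B) + X₀ * (1 + P)) * (D * δ) ∧
    ‖hv f' h m m' η X - hv f' h l l' η Y‖ ≤ ((P + (1 + P) * B) + 2 * (1 + P) +
      Fintype.card J * ((X₀ + M) * (P + (1 + P) * B)) +
      Fintype.card J * (M * (P + (1 + P) * B) + X₀ * (1 + P)) * B) * (D * δ) := by
  have hU := norm_Uv_le hh hη hm hB
  obtain ⟨hA, -⟩ := algA hf hP hB hδ hh hη hm hm' hX hff hmm hXX h1 h2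
  set U := Uv h m η with hUdef
  set u₀ := P + (1 + P) * B with hu₀
  have hu0 : 0 ≤ u₀ := by positivity
  have hX0 : 0 ≤ X₀ := (norm_nonneg _).trans hX
  have hM0 : 0 ≤ M := (norm_nonneg _).trans hf
  have hη1 : ‖1 - η‖ ≤ 1 + P := by
    refine (norm_sub_le _ _).trans ?_
    rw [norm_one]; linarith
  have hUl : Uv h l η = U + (1 - η) • (m - l) := by
    rw [hUdef, Uv, Uv]; module
  have hfx : dot f (m - l) = 0 := by rw [dot_sub, h2, h3, sub_self]
  have ha : ‖ηv f' h m η X - ηv f' h l η Y‖ ≤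
      Fintype.card J * (M * u₀ + X₀ * (1 + P)) * (D * δ) := by
    have e1 : ηv f' h m η X - ηv f' h l η Y = (X - Y) * dot f' U -
        Y * ((1 - η) * dot (f' - f) (m - l)) := by
      rw [sub_dot, hfx, sub_zero, ηv, ηv, hUl, dot_smul, dot_smul, dot_add, dot_smul, ← hUdef]
      ring
    rw [e1]
    refine (norm_sub_le _ _).trans ?_
    have h4 : ‖(X - Y) * dot f' U‖ ≤ (D * δ) * (Fintype.card J * (M * u₀)) := by
      rw [norm_mul]
      have h5 : ‖dot f' U‖ ≤ Fintype.card J * (M * u₀) := by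
        refine (norm_dot_le f' U).trans ?_
        gcongr
      exact mul_le_mul hXY h5 (norm_nonneg _) (by positivity)
    have h5 : ‖Y * ((1 - η) * dot (f' - f) (m - l))‖ ≤
        X₀ * ((1 + P) * (Fintype.card J * (δ * D))) := by
      rw [norm_mul, norm_mul]
      have h6 : ‖dot (f' - f) (m - l)‖ ≤ Fintype.card J * (δ * D) := by
        refine (norm_dot_le _ _).trans ?_
        gcongr
      gcongr
    calc _ ≤ (D * δ) * (Fintype.card J * (M * u₀)) +
          X₀ * ((1 + P) * (Fintype.card J * (δ * D))) := add_le_add h4 h5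
      _ = _ := by ring
  refine ⟨ha, ?_⟩
  have e1 : hv f' h m m' η X - hv f' h l l' η Y = (X - Y) • U -
      ((Y - 1) * (1 - η)) • (m - l) + (1 - η) • ((m' - l') - (m - l)) -
      (ηv f' h m η X - η) • (m' - l') - (ηv f' h m η X - ηv f' h l η Y) • l' := by
    rw [hv, hv, hUl, ← hUdef]
    module
  rw [e1]
  have g1 : ‖(X - Y) • U‖ ≤ (D * δ) * u₀ := by
    rw [norm_smul]; gcongr
  have g2 : ‖((Y - 1) * (1 - η)) • (m - l)‖ ≤ δ * (1 + P) * D := by
    rw [norm_smul, norm_mul]; gcongr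
  have g3 : ‖(1 - η) • ((m' - l') - (m - l))‖ ≤ (1 + P) * (D * δ) := by
    rw [norm_smul]; gcongr
  have g4 : ‖(ηv f' h m η X - η) • (m' - l')‖ ≤
      Fintype.card J * ((X₀ + M) * u₀) * δ * D := by
    rw [norm_smul]; gcongr
  have g5 : ‖(ηv f' h m η X - ηv f' h l η Y) • l'‖ ≤
      Fintype.card J * (M * u₀ + X₀ * (1 + P)) * (D * δ) * B := by
    rw [norm_smul]; gcongr
  have t1 := norm_sub_le ((X - Y) • U - ((Y - 1) * (1 - η)) • (m - l) +
      (1 - η) • ((m' - l') - (m - l)) - (ηv f' h m η X - η) • (m' - l'))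
      ((ηv f' h m η X - ηv f' h l η Y) • l')
  have t2 := norm_sub_le ((X - Y) • U - ((Y - 1) * (1 - η)) • (m - l) +
      (1 - η) • ((m' - l') - (m - l))) ((ηv f' h m η X - η) • (m' - l'))
  have t3 := norm_add_le ((X - Y) • U - ((Y - 1) * (1 - η)) • (m - l))
      ((1 - η) • ((m' - l') - (m - l)))
  have t4 := norm_sub_le ((X - Y) • U) (((Y - 1) * (1 - η)) • (m - l))
  have t5 : (u₀ + 2 * (1 + P) + Fintype.card J * ((X₀ + M) * u₀) +
      Fintype.card J * (M * u₀ + X₀ * (1 + P)) * B) * (D * δ) =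
      (D * δ) * u₀ + δ * (1 + P) * D + (1 + P) * (D * δ) +
      Fintype.card J * ((X₀ + M) * u₀) * δ * D +
      Fintype.card J * (M * u₀ + X₀ * (1 + P)) * (D * δ) * B := by ring
  rw [t5]
  linarith

section Reg

variable {X : Type*} [TopologicalSpace X] {S : Set X}

theorem dot_contOn {a b : X → J → ℂ} (ha : ContinuousOn a S) (hb : ContinuousOn b S) :
    ContinuousOn (fun x => dot (a x) (b x)) S := by
  unfold dot
  apply continuousOn_finsetSum
  intro j _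
  exact (continuousOn_pi.mp ha j).mul (continuousOn_pi.mp hb j)

theorem Uv_contOn {h m : X → J → ℂ} {η : X → ℂ} (hh : ContinuousOn h S) (hm : ContinuousOn m S)
    (hη : ContinuousOn η S) : ContinuousOn (fun x => Uv (h x) (m x) (η x)) S := by
  unfold Uv
  exact hh.sub ((continuousOn_const.sub hη).smul hm)

theorem ηv_contOn {f' h m : X → J → ℂ} {η Y : X → ℂ} (hf : ContinuousOn f' S)
    (hh : ContinuousOn h S) (hm : ContinuousOn m S)
    (hη : ContinuousOn η S) (hY : ContinuousOn Y S) :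
    ContinuousOn (fun x => ηv (f' x) (h x) (m x) (η x) (Y x)) S :=
  dot_contOn hf (hY.smul (Uv_contOn hh hm hη))

theorem hv_contOn {f' h m m' : X → J → ℂ} {η Y : X → ℂ} (hf : ContinuousOn f' S)
    (hh : ContinuousOn h S) (hm : ContinuousOn m S) (hm' : ContinuousOn m' S)
    (hη : ContinuousOn η S) (hY : ContinuousOn Y S) :
    ContinuousOn (fun x => hv (f' x) (h x) (m x) (m' x) (η x) (Y x)) S := by
  unfold hv
  exact (hY.smul (Uv_contOn hh hm hη)).add
    ((continuousOn_const.sub (ηv_contOn hf hh hm hη hY)).smul hm')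

end Reg

section Dif

variable {X : Type*} [NormedAddCommGroup X] [NormedSpace ℂ X] {S : Set X}

theorem dot_diffOn {a b : X → J → ℂ} (ha : DifferentiableOn ℂ a S) (hb : DifferentiableOn ℂ b S) :
    DifferentiableOn ℂ (fun x => dot (a x) (b x)) S := by
  unfold dot
  apply DifferentiableOn.fun_sum
  intro j _
  exact (differentiableOn_pi.mp ha j).mul (differentiableOn_pi.mp hb j)

theorem Uv_diffOn {h m : X → J → ℂ} {η : X → ℂ} (hh : DifferentiableOn ℂ h S)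
    (hm : DifferentiableOn ℂ m S)
    (hη : DifferentiableOn ℂ η S) : DifferentiableOn ℂ (fun x => Uv (h x) (m x) (η x)) S := by
  unfold Uv
  exact hh.sub ((hη.const_sub 1).smul hm)

theorem ηv_diffOn {f' h m : X → J → ℂ} {η Y : X → ℂ} (hf : DifferentiableOn ℂ f' S)
    (hh : DifferentiableOn ℂ h S) (hm : DifferentiableOn ℂ m S)
    (hη : DifferentiableOn ℂ η S) (hY : DifferentiableOn ℂ Y S) :
    DifferentiableOn ℂ (fun x => ηv (f' x) (h x) (m x) (η x) (Y x)) S :=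
  dot_diffOn hf (hY.smul (Uv_diffOn hh hm hη))

theorem hv_diffOn {f' h m m' : X → J → ℂ} {η Y : X → ℂ} (hf : DifferentiableOn ℂ f' S)
    (hh : DifferentiableOn ℂ h S) (hm : DifferentiableOn ℂ m S) (hm' : DifferentiableOn ℂ m' S)
    (hη : DifferentiableOn ℂ η S) (hY : DifferentiableOn ℂ Y S) :
    DifferentiableOn ℂ (fun x => hv (f' x) (h x) (m x) (m' x) (η x) (Y x)) S := by
  unfold hv
  exact (hY.smul (Uv_diffOn hh hm hη)).add
    (((ηv_diffOn hf hh hm hη hY).const_sub 1).smul hm')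

end Dif

end Algebra

/-- exponentials -/
theorem exp_sub_one_le {z : ℂ} {r : ℝ} (hz : ‖z‖ ≤ r) :
    ‖Complex.exp z - 1‖ ≤ Real.exp r * ‖z‖ := by
  have h1 : ‖Complex.exp z - 1‖ ≤ ‖z‖ * Real.exp ‖z‖ := by
    have := Complex.norm_exp_sub_sum_le_norm_mul_exp z 1
    simpa using this
  calc _ ≤ ‖z‖ * Real.exp ‖z‖ := h1
    _ ≤ ‖z‖ * Real.exp r := by gcongr
    _ = _ := mul_comm _ _

theorem exp_sub_exp_le {z w : ℂ} {r : ℝ} (hz : ‖z‖ ≤ r) (hw : ‖w‖ ≤ r) :
    ‖Complex.exp z - Complex.exp w‖ ≤ Real.exp (3 * r) * ‖z - w‖ := by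
  have e1 : Complex.exp z - Complex.exp w = Complex.exp w * (Complex.exp (z - w) - 1) := by
    rw [mul_sub, ← Complex.exp_add]; ring_nf
  rw [e1, norm_mul]
  have h1 : ‖Complex.exp w‖ ≤ Real.exp r := by
    rw [Complex.norm_exp]
    exact Real.exp_le_exp.mpr ((Complex.re_le_norm w).trans hw)
  have h2 : ‖Complex.exp (z - w) - 1‖ ≤ Real.exp (2 * r) * ‖z - w‖ :=
    exp_sub_one_le ((norm_sub_le _ _).trans (by linarith))
  calc _ ≤ Real.exp r * (Real.exp (2 * r) * ‖z - w‖) :=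
        mul_le_mul h1 h2 (norm_nonneg _) (Real.exp_pos _).le
    _ = Real.exp (3 * r) * ‖z - w‖ := by rw [← mul_assoc, ← Real.exp_add]; ring_nf

end Pool.Agent.MPca0fc2.SL
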