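import Mathlib
import Pool.Agent.Lib.MP_ca0fc2_an.SLLev
import Pool.Agent.Lib.MP_ca0fc2_an.CXPData

/-!
# The data with their solutions on level cells, in the abstract geometry
-/

set_option autoImplicit false

open Metric Set Filter Topology
open scoped InnerProductSpace

namespace Pool.Agent.MPca0fc2.CXP

open Pool.Agent.MPca0fc2.SL Pool.Agent.MPca0fc2.CX

variable {J : Type*} [Fintype J] {I : Type*} [Fintype I]
variable {E : Type*} [NormedAddCommGroup E] [InnerProductSpace ℂ E]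
variable {W : Type*} [NormedAddCommGroup W] [InnerProductSpace ℂ W]

/-- the data with their solutions on level cells -/
structure Lev (𝓖 : Geo E) (f : J → E → ℂ) (u : E → W) (ρ M B Lc G : ℝ) (χ : I → W → ℝ) (c : I → W)
    (s : I → J → E → ℂ) : Prop where
  fhol : ∀ j, DifferentiableOn ℂ (f j) (𝓖.B 1)
  fbd : ∀ j, ∀ z ∈ 𝓖.B 1, ‖f j z‖ ≤ M
  uhol : DifferentiableOn ℂ u (𝓖.B 1)
  ubd : ∀ z ∈ 𝓖.B 1, ‖u z‖ ≤ M
  ρ0 : 0 < ρ
  ρM : ρ ≤ M
  B0 : 0 ≤ B
  L0 : 0 ≤ Lc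
  G0 : 0 ≤ G
  χ0 : ∀ i β, 0 ≤ χ i β
  χ1 : ∀ β, ‖β‖ ≤ G → ∑ i, χ i β = 1
  χlip : ∀ i β β', |χ i β - χ i β'| ≤ Lc * ‖β - β'‖
  supp : ∀ i β, χ i β ≠ 0 → ‖β - c i‖ < ρ / 2
  shol : ∀ i j, DifferentiableOn ℂ (s i j) {x | x ∈ 𝓖.B 1 ∧ ‖u x - c i‖ < 4 * ρ}
  sbd : ∀ i j, ∀ x ∈ 𝓖.B 1, ‖u x - c i‖ < 4 * ρ → ‖s i j x‖ ≤ B
  sone : ∀ i, ∀ x ∈ 𝓖.B 1, ‖u x - c i‖ < 4 * ρ → ∑ j, f j x * s i j x = 1

variable {𝓖 : Geo E}

namespace Lev

variable {f : J → E → ℂ} {u : E → W} {ρ M B Lc G : ℝ} {χ : I → W → ℝ} {c : I → W}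
  {s : I → J → E → ℂ}

theorem M0 (h : Lev 𝓖 f u ρ M B Lc G χ c s) : 0 < M := h.ρ0.trans_le h.ρM

theorem near (h : Lev 𝓖 f u ρ M B Lc G χ c s) {i : I} {β : W} {x : E} (hi : χ i β ≠ 0)
    (hx : ‖u x - β‖ < 3 * ρ) : ‖u x - c i‖ < 3.5 * ρ := by
  have h1 := h.supp i β hi
  have e1 : u x - c i = (u x - β) + (β - c i) := by abel
  rw [e1]
  refine (norm_add_le _ _).trans_lt ?_
  linarith

theorem norm_mv_le (h : Lev 𝓖 f u ρ M B Lc G χ c s) {β : W} {x : E} (hβ : ‖β‖ ≤ G)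
    (hx1 : x ∈ 𝓖.B 1) (hx : ‖u x - β‖ < 3 * ρ) : ‖mv χ s β x‖ ≤ B := by
  rw [pi_norm_le_iff_of_nonneg h.B0]
  intro j
  have hρ := h.ρ0
  calc ‖mv χ s β x j‖ ≤ ∑ i, χ i β * B := by
        apply norm_sum_le_of_le
        intro i _
        rw [norm_mul, Complex.norm_real, Real.norm_of_nonneg (h.χ0 i β)]
        by_cases hi : χ i β = 0
        · rw [hi, zero_mul, zero_mul]
        · apply mul_le_mul_of_nonneg_left _ (h.χ0 i β)
          have := h.near hi hx
          exact h.sbd i j x hx1 (by linarith)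
    _ = (∑ i, χ i β) * B := by rw [Finset.sum_mul]
    _ = B := by rw [h.χ1 β hβ, one_mul]

theorem dot_mv (h : Lev 𝓖 f u ρ M B Lc G χ c s) {β : W} {x : E} (hβ : ‖β‖ ≤ G)
    (hx1 : x ∈ 𝓖.B 1) (hx : ‖u x - β‖ < 3 * ρ) :
    dot (fun j => f j x) (mv χ s β x) = 1 := by
  have hρ := h.ρ0
  unfold dot mv
  simp only [Finset.mul_sum]
  rw [Finset.sum_comm]
  have h1 : ∀ i, ∑ j, f j x * ((χ i β : ℂ) * s i j x) = (χ i β : ℂ) := by
    intro i
    by_cases hi : χ i β = 0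
    · rw [hi]; simp
    · have := h.near hi hx
      have h2 := h.sone i x hx1 (by linarith)
      calc ∑ j, f j x * ((χ i β : ℂ) * s i j x) = (χ i β : ℂ) * ∑ j, f j x * s i j x := by
            rw [Finset.mul_sum]
            exact Finset.sum_congr rfl fun j _ => by ring
        _ = _ := by rw [h2, mul_one]
  simp only [h1]
  rw [← Complex.ofReal_sum, h.χ1 β hβ, Complex.ofReal_one]

/-- sums over the cells with a difference of coefficients -/
theorem diff_aux (h : Lev 𝓖 f u ρ M B Lc G χ c s) {β β' : W} {x : E}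
    (hx : ‖u x - β‖ < 3 * ρ) (hx' : ‖u x - β'‖ < 3 * ρ) {v : I → ℂ} {D : ℝ} (hD : 0 ≤ D)
    (hv : ∀ i, ‖u x - c i‖ < 3.5 * ρ → ‖v i‖ ≤ D) :
    ‖∑ i, ((χ i β : ℂ) - (χ i β' : ℂ)) * v i‖ ≤ Fintype.card I * (Lc * ‖β - β'‖ * D) := by
  calc ‖∑ i, ((χ i β : ℂ) - (χ i β' : ℂ)) * v i‖ ≤ ∑ i : I, Lc * ‖β - β'‖ * D := by
        apply norm_sum_le_of_le
        intro i _
        have hL := h.L0
        by_cases hi : χ i β = 0 ∧ χ i β' = 0
        · rw [hi.1, hi.2]
          simp only [Complex.ofReal_zero, sub_zero, zero_mul, norm_zero]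
          positivity
        · have hn : ‖u x - c i‖ < 3.5 * ρ := by
            by_cases hi1 : χ i β = 0
            · have hi2 : χ i β' ≠ 0 := fun h2 => hi ⟨hi1, h2⟩
              exact h.near hi2 hx'
            · exact h.near hi1 hx
          rw [norm_mul]
          have h1 : ‖(χ i β : ℂ) - (χ i β' : ℂ)‖ ≤ Lc * ‖β - β'‖ := by
            rw [← Complex.ofReal_sub, Complex.norm_real]
            exact h.χlip i β β'
          exact mul_le_mul h1 (hv i hn) (norm_nonneg _) (by positivity)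
    _ = _ := by rw [Finset.sum_const, Finset.card_univ, nsmul_eq_mul]

theorem mv_sub (h : Lev 𝓖 f u ρ M B Lc G χ c s) {β β' : W} {x : E} (hx1 : x ∈ 𝓖.B 1)
    (hx : ‖u x - β‖ < 3 * ρ) (hx' : ‖u x - β'‖ < 3 * ρ) :
    ‖mv χ s β x - mv χ s β' x‖ ≤ Fintype.card I * (Lc * ‖β - β'‖ * B) := by
  have hL := h.L0
  have hB := h.B0
  have hρ := h.ρ0
  rw [pi_norm_le_iff_of_nonneg (by positivity)]
  intro j
  have e1 : (mv χ s β x - mv χ s β' x) j = ∑ i, ((χ i β : ℂ) - (χ i β' : ℂ)) * s i j x := by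
    simp only [Pi.sub_apply, mv]
    rw [← Finset.sum_sub_distrib]
    exact Finset.sum_congr rfl fun i _ => by ring
  rw [e1]
  exact h.diff_aux hx hx' hB fun i hi => h.sbd i j x hx1 (by linarith)

/-- the local solutions vary slowly -/
theorem s_diff (h : Lev 𝓖 f u ρ M B Lc G χ c s) {x x' : E} (hx1 : x ∈ 𝓖.B 1)
    (hx1' : x' ∈ 𝓖.B 1) {i : I} (hx : ‖u x - c i‖ < 3.5 * ρ)
    (hx' : ‖u x' - c i‖ < 3.5 * ρ) (j : J) :
    ‖s i j x' - s i j x‖ ≤ 8 * M * B / ρ * (‖x' - x‖ / (1 - 𝓖.g x)) := by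
  have hρ := h.ρ0
  have hM := h.M0
  have hx2 : 0 < 1 - 𝓖.g x := by
    rw [𝓖.mem_B] at hx1; linarith
  set r := ρ * (1 - 𝓖.g x) / (4 * M) with hr
  have hr0 : 0 < r := by positivity
  have hr1 : r ≤ 1 - 𝓖.g x := by
    rw [hr, div_le_iff₀ (by positivity)]
    have := h.ρM
    nlinarith
  have hsub1 : ball x (1 - 𝓖.g x) ⊆ 𝓖.B 1 := 𝓖.ball_subset_B x 1
  have hsub : ball x r ⊆ 𝓖.B 1 := (ball_subset_ball hr1).trans hsub1
  have hu : ∀ w ∈ ball x r, ‖u w - c i‖ < 4 * ρ := by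
    intro w hw
    have h1 := schwarz_diff (G := u) (x := x) (y := w) hx2 hM.le (h.uhol.mono hsub1)
      (fun w hw => h.ubd w (hsub1 hw)) (h.ubd w (hsub hw))
    rw [mem_ball, dist_eq_norm] at hw
    have h2 : 2 * M / (1 - 𝓖.g x) * ‖w - x‖ < ρ / 2 := by
      calc 2 * M / (1 - 𝓖.g x) * ‖w - x‖ < 2 * M / (1 - 𝓖.g x) * r := by
            apply mul_lt_mul_of_pos_left hw; positivity
        _ = ρ / 2 := by rw [hr]; field_simp; ring
    have e1 : u w - c i = (u w - u x) + (u x - c i) := by abel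
    rw [e1]
    refine (norm_add_le _ _).trans_lt ?_
    linarith
  have hB := h.B0
  have h1 := schwarz_diff (G := s i j) (x := x) (y := x') hr0 hB
    ((h.shol i j).mono fun w hw => ⟨hsub hw, hu w hw⟩)
    (fun w hw => h.sbd i j w (hsub hw) (hu w hw)) (h.sbd i j x' hx1' (by linarith))
  refine h1.trans (le_of_eq ?_)
  rw [hr]
  field_simp
  ring

theorem mv_diff (h : Lev 𝓖 f u ρ M B Lc G χ c s) {β : W} {x x' : E} (hβ : ‖β‖ ≤ G)
    (hx1 : x ∈ 𝓖.B 1) (hx1' : x' ∈ 𝓖.B 1) (hx : ‖u x - β‖ < 3 * ρ)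
    (hx' : ‖u x' - β‖ < 3 * ρ) :
    ‖mv χ s β x' - mv χ s β x‖ ≤ 8 * M * B / ρ * (‖x' - x‖ / (1 - 𝓖.g x)) := by
  have hρ := h.ρ0
  have hM := h.M0
  have hB := h.B0
  have hx2 : 0 < 1 - 𝓖.g x := by
    rw [𝓖.mem_B] at hx1; linarith
  rw [pi_norm_le_iff_of_nonneg (by positivity)]
  intro j
  have e1 : (mv χ s β x' - mv χ s β x) j = ∑ i, (χ i β : ℂ) * (s i j x' - s i j x) := by
    simp only [Pi.sub_apply, mv]
    rw [← Finset.sum_sub_distrib]
    exact Finset.sum_congr rfl fun i _ => by ring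
  rw [e1]
  set D := 8 * M * B / ρ * (‖x' - x‖ / (1 - 𝓖.g x)) with hD
  calc _ ≤ ∑ i, χ i β * D := by
        apply norm_sum_le_of_le
        intro i _
        rw [norm_mul, Complex.norm_real, Real.norm_of_nonneg (h.χ0 i β)]
        by_cases hi : χ i β = 0
        · rw [hi, zero_mul, zero_mul]
        · apply mul_le_mul_of_nonneg_left _ (h.χ0 i β)
          exact h.s_diff hx1 hx1' (h.near hi hx) (h.near hi hx') j
    _ = (∑ i, χ i β) * D := by rw [Finset.sum_mul]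
    _ = D := by rw [h.χ1 β hβ, one_mul]

theorem mv_diff2 (h : Lev 𝓖 f u ρ M B Lc G χ c s) {β β' : W} {x x' : E}
    (hx1 : x ∈ 𝓖.B 1) (hx1' : x' ∈ 𝓖.B 1) (hx : ‖u x - β‖ < 3 * ρ)
    (hx' : ‖u x' - β‖ < 3 * ρ) (hy : ‖u x - β'‖ < 3 * ρ) (hy' : ‖u x' - β'‖ < 3 * ρ) :
    ‖(mv χ s β x' - mv χ s β' x') - (mv χ s β x - mv χ s β' x)‖ ≤
      Fintype.card I * (Lc * ‖β - β'‖ * (8 * M * B / ρ * (‖x' - x‖ / (1 - 𝓖.g x)))) := by
  have hρ := h.ρ0
  have hM := h.M0
  have hB := h.B0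
  have hL := h.L0
  have hx2 : 0 < 1 - 𝓖.g x := by
    rw [𝓖.mem_B] at hx1; linarith
  rw [pi_norm_le_iff_of_nonneg (by positivity)]
  intro j
  have e1 : ((mv χ s β x' - mv χ s β' x') - (mv χ s β x - mv χ s β' x)) j =
      ∑ i, ((χ i β : ℂ) - (χ i β' : ℂ)) * (s i j x' - s i j x) := by
    simp only [Pi.sub_apply, mv]
    rw [← Finset.sum_sub_distrib, ← Finset.sum_sub_distrib, ← Finset.sum_sub_distrib]
    exact Finset.sum_congr rfl fun i _ => by ring
  rw [e1]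
  calc ‖∑ i, ((χ i β : ℂ) - (χ i β' : ℂ)) * (s i j x' - s i j x)‖ ≤
        ∑ i : I, Lc * ‖β - β'‖ * (8 * M * B / ρ * (‖x' - x‖ / (1 - 𝓖.g x))) := by
        apply norm_sum_le_of_le
        intro i _
        by_cases hi : χ i β = 0 ∧ χ i β' = 0
        · rw [hi.1, hi.2]
          simp only [Complex.ofReal_zero, sub_zero, zero_mul, norm_zero]
          positivity
        · have hn : ‖u x - c i‖ < 3.5 * ρ ∧ ‖u x' - c i‖ < 3.5 * ρ := by
            by_cases hi1 : χ i β = 0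
            · have hi2 : χ i β' ≠ 0 := fun h2 => hi ⟨hi1, h2⟩
              exact ⟨h.near hi2 hy, h.near hi2 hy'⟩
            · exact ⟨h.near hi1 hx, h.near hi1 hx'⟩
          rw [norm_mul]
          have h1 : ‖(χ i β : ℂ) - (χ i β' : ℂ)‖ ≤ Lc * ‖β - β'‖ := by
            rw [← Complex.ofReal_sub, Complex.norm_real]
            exact h.χlip i β β'
          exact mul_le_mul h1 (h.s_diff hx1 hx1' hn.1 hn.2 j) (norm_nonneg _) (by positivity)
    _ = _ := by rw [Finset.sum_const, Finset.card_univ, nsmul_eq_mul]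

/-- holomorphy of the base solution for a frozen base -/
theorem mv_hol (h : Lev 𝓖 f u ρ M B Lc G χ c s) (β : W) (j : J) {S : Set E} {r : ℂ}
    (hS : ∀ w ∈ S, r • w ∈ 𝓖.B 1 ∧ ‖u (r • w) - β‖ < 3 * ρ) :
    DifferentiableOn ℂ (fun w => mv χ s β (r • w) j) S := by
  have hρ := h.ρ0
  unfold mv
  apply DifferentiableOn.fun_sum
  intro i _
  by_cases hi : χ i β = 0
  · rw [hi]
    simp only [Complex.ofReal_zero, zero_mul]
    exact differentiableOn_const _
  · apply DifferentiableOn.const_mul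
    apply (h.shol i j).comp
    · exact (differentiable_id.const_smul _).differentiableOn
    · intro w hw
      obtain ⟨h1, h2⟩ := hS w hw
      refine ⟨h1, ?_⟩
      have := h.near hi h2
      linarith

/-- continuity of the base solution along a continuous field -/
theorem mv_cont (h : Lev 𝓖 f u ρ M B Lc G χ c s) (j : J) {S : Set E} {r : ℂ} {b : E → W}
    (hb : ContinuousOn b S) (hS : ∀ w ∈ S, r • w ∈ 𝓖.B 1 ∧
      ‖u (r • w) - b w‖ < 3 * ρ) :
    ContinuousOn (fun w => mv χ s (b w) (r • w) j) S := by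
  have hρ := h.ρ0
  have hχc : ∀ i, Continuous (χ i) := by
    intro i
    have hl : LipschitzWith (Real.toNNReal Lc) (χ i) := by
      apply LipschitzWith.of_dist_le_mul
      intro x y
      rw [Real.dist_eq, dist_eq_norm, Real.coe_toNNReal _ h.L0]
      exact h.χlip i x y
    exact hl.continuous
  unfold mv
  apply continuousOn_finset_sum
  intro i _ w hw
  obtain ⟨h1, h2⟩ := hS w hw
  have hrc : ContinuousWithinAt (fun w : E => r • w) S w := by fun_prop
  by_cases hn : ‖u (r • w) - c i‖ < 4 * ρ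
  · apply ContinuousWithinAt.mul
    · exact (Complex.continuous_ofReal.comp (hχc i)).continuousAt.comp_continuousWithinAt
        (hb w hw)
    · have hopen : IsOpen {x | x ∈ 𝓖.B 1 ∧ ‖u x - c i‖ < 4 * ρ} := by
        have : {x | x ∈ 𝓖.B 1 ∧ ‖u x - c i‖ < 4 * ρ} =
            𝓖.B 1 ∩ (fun x => ‖u x - c i‖) ⁻¹' Iio (4 * ρ) := rfl
        rw [this]
        apply ContinuousOn.isOpen_inter_preimage _ (𝓖.isOpen_B 1) isOpen_Iio
        exact (h.uhol.continuousOn.sub continuousOn_const).norm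
      have hc : ContinuousAt (s i j) (r • w) :=
        ((h.shol i j).differentiableAt (hopen.mem_nhds ⟨h1, hn⟩)).continuousAt
      exact ContinuousAt.comp_continuousWithinAt (f := fun w : E => r • w) hc hrc
  · -- the coefficient vanishes nearby
    rw [not_lt] at hn
    have hz : ∀ᶠ w' in 𝓝[S] w, χ i (b w') = 0 := by
      have h3 : ContinuousWithinAt (fun w' => ‖b w' - c i‖) S w :=
        ((hb w hw).sub continuousWithinAt_const).norm
      have h4 : ρ / 2 < ‖b w - c i‖ := by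
        have e1 : u (r • w) - c i = (u (r • w) - b w) + (b w - c i) := by abel
        rw [e1] at hn
        have := norm_add_le (u (r • w) - b w) (b w - c i)
        linarith
      have h5 := h3.eventually (lt_mem_nhds h4)
      filter_upwards [h5] with w' hw'
      by_contra hne
      have := h.supp i (b w') hne
      linarith
    have h0 : χ i (b w) = 0 := hz.self_of_nhdsWithin hw
    have : ContinuousWithinAt (fun _ : E => (0 : ℂ)) S w := continuousWithinAt_const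
    refine this.congr_of_eventuallyEq ?_ ?_
    · filter_upwards [hz] with w' hw'
      rw [hw']; simp
    · rw [h0]; simp

end Lev

end Pool.Agent.MPca0fc2.CXP
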