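import Mathlib
import Pool.Agent.Lib.MP_ca0fc2_an.SLLev
import Pool.Agent.Lib.MP_ca0fc2_an.SLField

set_option autoImplicit false

open Metric Set Filter Topology
open scoped InnerProductSpace

namespace Pool.Agent.MPca0fc2.SL

open Pool.Agent.MPca0fc2.SD

variable {J : Type*} [Fintype J] {I : Type*} [Fintype I]
variable {E : Type*} [NormedAddCommGroup E] [InnerProductSpace ℂ E]
variable {W : Type*} [NormedAddCommGroup W] [InnerProductSpace ℂ W]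

/-- the data at level `k` -/
noncomputable def fv (f : J → E → ℂ) (k : ℕ) (w : E) : J → ℂ := fun j => f j ((rr k : ℂ) • w)

/-- the exponential factor -/
noncomputable def Xv (u : E → W) (C₁ : ℝ) (k : ℕ) (β : W) (w : E) : ℂ :=
  Complex.exp ((C₁ : ℂ) * ⟪β, u ((rr (k + 1) : ℂ) • w) - u ((rr k : ℂ) • w)⟫_ℂ)

/-- the frozen step: scalar -/
noncomputable def Nη (f : J → E → ℂ) (u : E → W) (χ : I → W → ℝ) (s : I → J → E → ℂ) (C₁ : ℝ)
    (k : ℕ) (H : J → E → ℂ) (η : E → ℂ) (β : W) (w : E) : ℂ :=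
  ηv (fv f (k + 1) w) (fun j => H j w) (mv χ s β ((rr k : ℂ) • w)) (η w) (Xv u C₁ k β w)

/-- the frozen step: vector -/
noncomputable def NH (f : J → E → ℂ) (u : E → W) (χ : I → W → ℝ) (s : I → J → E → ℂ) (C₁ : ℝ)
    (k : ℕ) (H : J → E → ℂ) (η : E → ℂ) (β : W) (w : E) : J → ℂ :=
  hv (fv f (k + 1) w) (fun j => H j w) (mv χ s β ((rr k : ℂ) • w))
    (mv χ s β ((rr (k + 1) : ℂ) • w)) (η w) (Xv u C₁ k β w)

/-- geometric estimate for the two consecutive points -/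
theorem consec {k : ℕ} {w : E} (hw : ‖w‖ < 1) :
    (rr k : ℂ) • (RR k : ℂ) • w ∈ ball (0 : E) 1 ∧ (rr (k + 1) : ℂ) • (RR k : ℂ) • w ∈ ball (0 : E) 1 ∧
    ‖(rr (k + 1) : ℂ) • (RR k : ℂ) • w - (rr k : ℂ) • (RR k : ℂ) • w‖ /
      (1 - ‖(rr k : ℂ) • (RR k : ℂ) • w‖) ≤ 1.1 * ((1 / 2) ^ k / (1 - ‖w‖ ^ 2)) := by
  have hRw : ‖(RR k : ℂ) • w‖ ≤ RR k := by
    rw [norm_smul, Complex.norm_real, Real.norm_of_nonneg (RR_pos k).le]
    nlinarith [RR_pos k, norm_nonneg w]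
  refine ⟨FC.mem_ball k k (by omega) hRw, FC.mem_ball k (k + 1) le_rfl hRw, ?_⟩
  have ht := half_pow_pos k
  have ht1 := half_pow_le_one k
  have hw0 := norm_nonneg w
  have hd : 0 < 1 - ‖w‖ ^ 2 := by nlinarith
  have h1 : ‖(rr k : ℂ) • (RR k : ℂ) • w‖ ≤ ‖w‖ := by
    rw [norm_smul, norm_smul, Complex.norm_real, Complex.norm_real,
      Real.norm_of_nonneg (rr_nonneg k), Real.norm_of_nonneg (RR_pos k).le, ← mul_assoc]
    have h2 := rr_mul_RR (j := k) (k := k) (by omega)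
    have h3 := rr_lt_one (k + 2)
    nlinarith
  have h2 : ‖(rr (k + 1) : ℂ) • (RR k : ℂ) • w - (rr k : ℂ) • (RR k : ℂ) • w‖ ≤
      (1 / 2) ^ k * 0.54 := by
    rw [← sub_smul, ← Complex.ofReal_sub, norm_smul, norm_smul, Complex.norm_real,
      Complex.norm_real, Real.norm_of_nonneg (RR_pos k).le]
    have h3 : rr (k + 1) - rr k = (1 / 2) ^ k / 2 := by rw [rr_succ]; ring
    rw [h3, Real.norm_of_nonneg (by positivity)]
    have h4 : RR k ≤ 17 / 16 := by unfold RR; linarith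
    have h5 : RR k * ‖w‖ ≤ 17 / 16 := by nlinarith [RR_pos k]
    nlinarith
  have h3 : (1 - ‖w‖ ^ 2) / 2 ≤ 1 - ‖(rr k : ℂ) • (RR k : ℂ) • w‖ := by nlinarith
  calc _ ≤ (1 / 2) ^ k * 0.54 / ((1 - ‖w‖ ^ 2) / 2) := by gcongr
    _ = 1.08 * ((1 / 2) ^ k / (1 - ‖w‖ ^ 2)) := by field_simp; norm_num
    _ ≤ _ := by gcongr; norm_num

/-- the estimates of the frozen step -/
theorem exists_CE (J I E W : Type*) [Fintype J] [Fintype I] [NormedAddCommGroup E]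
    [InnerProductSpace ℂ E] [NormedAddCommGroup W] [InnerProductSpace ℂ W]
    (ρ M B Lc G P C₁ : ℝ) (hC₁ : 0 ≤ C₁) (hP : 0 ≤ P) :
    ∃ CE : ℝ, 0 < CE ∧ ∀ (f : J → E → ℂ) (u : E → W) (χ : I → W → ℝ) (c : I → W) (s : I → J → E → ℂ),
      Lev f u ρ M B Lc G χ c s → ∀ (k : ℕ) (H : J → E → ℂ) (η : E → ℂ) (w : E) (β : W),
      ‖w‖ < 1 → ‖β‖ ≤ G →
      ‖u ((rr k : ℂ) • (RR k : ℂ) • w) - β‖ < 3 * ρ →
      ‖u ((rr (k + 1) : ℂ) • (RR k : ℂ) • w) - β‖ < 3 * ρ →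
      dot (fv f k ((RR k : ℂ) • w)) (fun j => H j ((RR k : ℂ) • w)) = 1 →
      ‖(fun j => H j ((RR k : ℂ) • w))‖ ≤ P → ‖η ((RR k : ℂ) • w)‖ ≤ P →
      ((1 - ‖w‖ ^ 2) * ‖Nη f u χ s C₁ k H η β ((RR k : ℂ) • w) - η ((RR k : ℂ) • w)‖ ≤
        CE * (1 / 2) ^ k ∧
      (1 - ‖w‖ ^ 2) * ‖NH f u χ s C₁ k H η β ((RR k : ℂ) • w) -
        (fun j => H j ((RR k : ℂ) • w))‖ ≤ CE * (1 / 2) ^ k) ∧
      ∀ β' : W, ‖β'‖ ≤ G → ‖u ((rr k : ℂ) • (RR k : ℂ) • w) - β'‖ < 3 * ρ →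
      ‖u ((rr (k + 1) : ℂ) • (RR k : ℂ) • w) - β'‖ < 3 * ρ →
      ((1 - ‖w‖ ^ 2) * ‖Nη f u χ s C₁ k H η β ((RR k : ℂ) • w) -
        Nη f u χ s C₁ k H η β' ((RR k : ℂ) • w)‖ ≤ CE * (‖β - β'‖ * (1 / 2) ^ k) ∧
      (1 - ‖w‖ ^ 2) * ‖NH f u χ s C₁ k H η β ((RR k : ℂ) • w) -
        NH f u χ s C₁ k H η β' ((RR k : ℂ) • w)‖ ≤ CE * (‖β - β'‖ * (1 / 2) ^ k)) := by
  obtain ⟨r₀, hr₀⟩ : ∃ r : ℝ, r = C₁ * (|G| * (2 * |M|)) := ⟨_, rfl⟩
  obtain ⟨X₀, hX₀⟩ : ∃ r : ℝ, r = Real.exp r₀ := ⟨_, rfl⟩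
  obtain ⟨Cδ, hCδ⟩ : ∃ r : ℝ, r = 8 * |M| * |B| / |ρ| * 1.1 + 2 * |M| * 1.1 +
    Real.exp (3 * r₀) * (C₁ * ((|G| + 1) * (2 * |M| * 1.1))) := ⟨_, rfl⟩
  obtain ⟨CD, hCD⟩ : ∃ r : ℝ, r = Fintype.card I * (|Lc| * (|B| + 1)) + 1 := ⟨_, rfl⟩
  obtain ⟨u₀, hu₀⟩ : ∃ r : ℝ, r = P + (1 + P) * |B| := ⟨_, rfl⟩
  obtain ⟨A1, hA1⟩ : ∃ r : ℝ, r = Fintype.card J * ((X₀ + |M|) * u₀) := ⟨_, rfl⟩
  obtain ⟨A2, hA2⟩ : ∃ r : ℝ, r = u₀ + (1 + P) + A1 * |B| := ⟨_, rfl⟩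
  obtain ⟨A3, hA3⟩ : ∃ r : ℝ, r = Fintype.card J * (|M| * u₀ + X₀ * (1 + P)) := ⟨_, rfl⟩
  obtain ⟨A4, hA4⟩ : ∃ r : ℝ, r = u₀ + 2 * (1 + P) + A1 + A3 * |B| := ⟨_, rfl⟩
  have hCδ0 : 0 ≤ Cδ := by rw [hCδ]; positivity
  have hCD0 : 0 ≤ CD := by rw [hCD]; positivity
  have hu0 : 0 ≤ u₀ := by rw [hu₀]; positivity
  have hX0 : 0 < X₀ := by rw [hX₀]; exact Real.exp_pos _
  have hA10 : 0 ≤ A1 := by rw [hA1]; positivity
  have hA20 : 0 ≤ A2 := by rw [hA2]; positivity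
  have hA30 : 0 ≤ A3 := by rw [hA3]; positivity
  have hA40 : 0 ≤ A4 := by rw [hA4]; positivity
  refine ⟨(A1 + A2) * Cδ + (A3 + A4) * (CD * Cδ) + 1, by positivity, ?_⟩
  intro f u χ c s h k H η w β hw hβ hx hx' hone hH hη
  have hρ := h.ρ0
  have hM := h.M0
  have hB := h.B0
  have hL := h.L0
  have hG := h.G0
  rw [abs_of_pos hM, abs_of_nonneg hG] at hr₀
  rw [abs_of_pos hM, abs_of_nonneg hB, abs_of_pos hρ, abs_of_nonneg hG] at hCδ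
  rw [abs_of_nonneg hL, abs_of_nonneg hB] at hCD
  rw [abs_of_nonneg hB] at hu₀
  rw [abs_of_pos hM] at hA1 hA3
  rw [abs_of_nonneg hB] at hA2 hA4
  obtain ⟨hm1, hm2, hcs⟩ := consec (k := k) hw
  set x := (rr k : ℂ) • (RR k : ℂ) • w with hxdef
  set x' := (rr (k + 1) : ℂ) • (RR k : ℂ) • w with hxdef'
  have ht0 : (0 : ℝ) < (1 / 2) ^ k := half_pow_pos k
  generalize ht : ((1 : ℝ) / 2) ^ k = t at hcs ht0 ⊢
  have hd : 0 < 1 - ‖w‖ ^ 2 := sub_pos.mpr (pow_lt_one₀ (norm_nonneg w) hw two_ne_zero)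
  obtain ⟨y, hy⟩ : ∃ y : ℝ, y = t / (1 - ‖w‖ ^ 2) := ⟨_, rfl⟩
  have hy0 : 0 < y := by rw [hy]; positivity
  rw [← hy] at hcs
  obtain ⟨δ, hδ⟩ : ∃ r : ℝ, r = Cδ * y := ⟨_, rfl⟩
  have hδ0 : 0 ≤ δ := by rw [hδ]; positivity
  have hdy : (1 - ‖w‖ ^ 2) * y = t := by rw [hy]; field_simp
  have hx2 : 0 < 1 - ‖x‖ := by rw [mem_ball_zero_iff] at hm1; linarith
  have hsub : ball x (1 - ‖x‖) ⊆ ball (0 : E) 1 := by
    intro w hw
    rw [mem_ball, dist_eq_norm] at hw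
    rw [mem_ball_zero_iff]
    have : ‖w‖ ≤ ‖w - x‖ + ‖x‖ := by
      calc ‖w‖ = ‖(w - x) + x‖ := by congr 1; abel
        _ ≤ _ := norm_add_le _ _
    linarith only [this, hw]
  -- differences of the data
  have hff : ‖fv f (k + 1) ((RR k : ℂ) • w) - fv f k ((RR k : ℂ) • w)‖ ≤ 2 * M * 1.1 * y := by
    rw [pi_norm_le_iff_of_nonneg (by positivity)]
    intro j
    have h1 := schwarz_diff (G := f j) (x := x) (y := x') hx2 hM.le ((h.fhol j).mono hsub)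
      (fun w hw => h.fbd j w (hsub hw)) (h.fbd j x' hm2)
    simp only [Pi.sub_apply, fv]
    calc _ ≤ 2 * M / (1 - ‖x‖) * ‖x' - x‖ := h1
      _ = 2 * M * (‖x' - x‖ / (1 - ‖x‖)) := by ring
      _ ≤ 2 * M * (1.1 * y) := by gcongr
      _ = _ := by ring
  have huu : ‖u x' - u x‖ ≤ 2 * M * 1.1 * y := by
    have h1 := schwarz_diff (G := u) (x := x) (y := x') hx2 hM.le (h.uhol.mono hsub)
      (fun w hw => h.ubd w (hsub hw)) (h.ubd x' hm2)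
    calc _ ≤ 2 * M / (1 - ‖x‖) * ‖x' - x‖ := h1
      _ = 2 * M * (‖x' - x‖ / (1 - ‖x‖)) := by ring
      _ ≤ 2 * M * (1.1 * y) := by gcongr
      _ = _ := by ring
  have huu2 : ‖u x' - u x‖ ≤ 2 * M := by
    refine (norm_sub_le _ _).trans ?_
    linarith [h.ubd x hm1, h.ubd x' hm2]
  have hfx : ‖fv f k ((RR k : ℂ) • w)‖ ≤ M := by
    rw [pi_norm_le_iff_of_nonneg hM.le]
    intro j; exact h.fbd j x hm1
  have hfx' : ‖fv f (k + 1) ((RR k : ℂ) • w)‖ ≤ M := by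
    rw [pi_norm_le_iff_of_nonneg hM.le]
    intro j; exact h.fbd j x' hm2
  -- exponents
  have hz : ∀ γ : W, ‖γ‖ ≤ G → ‖(C₁ : ℂ) * ⟪γ, u x' - u x⟫_ℂ‖ ≤ r₀ ∧
      ‖(C₁ : ℂ) * ⟪γ, u x' - u x⟫_ℂ‖ ≤ C₁ * (G * (2 * M * 1.1 * y)) := by
    intro γ hγ
    have h1 : ‖(C₁ : ℂ) * ⟪γ, u x' - u x⟫_ℂ‖ ≤ C₁ * (G * ‖u x' - u x‖) := by
      rw [norm_mul, Complex.norm_real, Real.norm_of_nonneg hC₁]
      apply mul_le_mul_of_nonneg_left _ hC₁
      refine (norm_inner_le_norm _ _).trans ?_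
      gcongr
    constructor
    · refine h1.trans ?_
      rw [hr₀]; gcongr
    · refine h1.trans ?_
      gcongr
  have hr00 : 0 ≤ r₀ := by rw [hr₀]; positivity
  have hX1 : ∀ γ : W, ‖γ‖ ≤ G → ‖Xv u C₁ k γ ((RR k : ℂ) • w)‖ ≤ X₀ ∧
      ‖Xv u C₁ k γ ((RR k : ℂ) • w) - 1‖ ≤ δ := by
    intro γ hγ
    obtain ⟨h1, h2⟩ := hz γ hγ
    constructor
    · rw [Xv, Complex.norm_exp, hX₀]
      apply Real.exp_le_exp.mpr
      exact (Complex.re_le_norm _).trans h1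
    · rw [Xv]
      refine (exp_sub_one_le h1).trans ?_
      rw [hδ]
      have h3 : Real.exp r₀ ≤ Real.exp (3 * r₀) := Real.exp_le_exp.mpr (by linarith)
      calc Real.exp r₀ * ‖(C₁ : ℂ) * ⟪γ, u x' - u x⟫_ℂ‖
          ≤ Real.exp (3 * r₀) * (C₁ * (G * (2 * M * 1.1 * y))) := by gcongr
        _ ≤ Real.exp (3 * r₀) * (C₁ * ((G + 1) * (2 * M * 1.1 * y))) := by
            gcongr; linarith
        _ = Real.exp (3 * r₀) * (C₁ * ((G + 1) * (2 * M * 1.1))) * y := by ring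
        _ ≤ Cδ * y := by
            apply mul_le_mul_of_nonneg_right _ hy0.le
            rw [hCδ]
            have : 0 ≤ 8 * M * B / ρ * 1.1 + 2 * M * 1.1 := by positivity
            linarith only [this]
  have hmd : ∀ γ : W, ‖γ‖ ≤ G → ‖u x - γ‖ < 3 * ρ → ‖u x' - γ‖ < 3 * ρ →
      ‖mv χ s γ x' - mv χ s γ x‖ ≤ δ := by
    intro γ hγ h1 h2
    refine (h.mv_diff hγ hm1 hm2 h1 h2).trans ?_
    rw [hδ]
    calc _ ≤ 8 * M * B / ρ * (1.1 * y) := by gcongr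
      _ = 8 * M * B / ρ * 1.1 * y := by ring
      _ ≤ Cδ * y := by
          apply mul_le_mul_of_nonneg_right _ hy0.le
          rw [hCδ]
          have : 0 ≤ 2 * M * 1.1 + Real.exp (3 * r₀) * (C₁ * ((G + 1) * (2 * M * 1.1))) := by
            positivity
          linarith only [this]
  have hffδ : ‖fv f (k + 1) ((RR k : ℂ) • w) - fv f k ((RR k : ℂ) • w)‖ ≤ δ := by
    refine hff.trans ?_
    rw [hδ]
    apply mul_le_mul_of_nonneg_right _ hy0.le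
    rw [hCδ]
    have : 0 ≤ 8 * M * B / ρ * 1.1 +
      Real.exp (3 * r₀) * (C₁ * ((G + 1) * (2 * M * 1.1))) := by positivity
    linarith only [this]
  have hdot : dot (fv f k ((RR k : ℂ) • w)) (mv χ s β x) = 1 := h.dot_mv hβ hm1 hx
  obtain ⟨hXa, hXb⟩ := hX1 β hβ
  obtain ⟨hA, hA'⟩ := algA (X₀ := X₀) hfx hP hB hδ0 hH hη (h.norm_mv_le hβ hm1 hx)
    (h.norm_mv_le hβ hm2 hx') hXa hffδ (hmd β hβ hx hx') hXb hone hdot
  rw [← hu₀, ← hA1] at hA hA'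
  rw [← hA2] at hA'
  refine ⟨⟨?_, ?_⟩, ?_⟩
  · calc _ ≤ (1 - ‖w‖ ^ 2) * (A1 * δ) := mul_le_mul_of_nonneg_left hA hd.le
      _ = A1 * Cδ * ((1 - ‖w‖ ^ 2) * y) := by rw [hδ]; ring
      _ = A1 * Cδ * t := by rw [hdy]
      _ ≤ _ := by
          apply mul_le_mul_of_nonneg_right _ ht0.le
          have : 0 ≤ A2 * Cδ + (A3 + A4) * (CD * Cδ) := by positivity
          linarith only [this]
  · calc _ ≤ (1 - ‖w‖ ^ 2) * (A2 * δ) := mul_le_mul_of_nonneg_left hA' hd.le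
      _ = A2 * Cδ * ((1 - ‖w‖ ^ 2) * y) := by rw [hδ]; ring
      _ = A2 * Cδ * t := by rw [hdy]
      _ ≤ _ := by
          apply mul_le_mul_of_nonneg_right _ ht0.le
          have : 0 ≤ A1 * Cδ + (A3 + A4) * (CD * Cδ) := by positivity
          linarith only [this]
  · intro β' hβ' hy1 hy2
    obtain ⟨hYa, hYb⟩ := hX1 β' hβ'
    have hdot' : dot (fv f k ((RR k : ℂ) • w)) (mv χ s β' x) = 1 := h.dot_mv hβ' hm1 hy1
    obtain ⟨D, hD⟩ : ∃ r : ℝ, r = CD * ‖β - β'‖ := ⟨_, rfl⟩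
    have hD0 : 0 ≤ D := by rw [hD]; positivity
    have hb0 := norm_nonneg (β - β')
    have hm3 : ∀ z, z ∈ ball (0 : E) 1 → ‖u z - β‖ < 3 * ρ → ‖u z - β'‖ < 3 * ρ →
        ‖mv χ s β z - mv χ s β' z‖ ≤ D := by
      intro z hz h1 h2
      refine (h.mv_sub hz h1 h2).trans ?_
      rw [hD]
      calc Fintype.card I * (Lc * ‖β - β'‖ * B) = (Fintype.card I * (Lc * B)) * ‖β - β'‖ := by
            ring
        _ ≤ CD * ‖β - β'‖ := by
            apply mul_le_mul_of_nonneg_right _ hb0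
            rw [hCD]
            have : (0 : ℝ) ≤ Fintype.card I * Lc + 1 := by positivity
            linarith only [this]
    have hm4 : ‖(mv χ s β x' - mv χ s β' x') - (mv χ s β x - mv χ s β' x)‖ ≤ D * δ := by
      refine (h.mv_diff2 hm1 hm2 hx hx' hy1 hy2).trans ?_
      calc Fintype.card I * (Lc * ‖β - β'‖ * (8 * M * B / ρ * (‖x' - x‖ / (1 - ‖x‖))))
          ≤ Fintype.card I * (Lc * ‖β - β'‖ * (8 * M * B / ρ * (1.1 * y))) := by gcongr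
        _ = (Fintype.card I * Lc * ‖β - β'‖) * (8 * M * B / ρ * 1.1 * y) := by ring
        _ ≤ (CD * ‖β - β'‖) * (Cδ * y) := by
            have g1 : Fintype.card I * Lc ≤ CD := by
              rw [hCD]
              have : (0 : ℝ) ≤ Fintype.card I * (Lc * B) + 1 := by positivity
              linarith only [this]
            have g2 : 8 * M * B / ρ * 1.1 ≤ Cδ := by
              rw [hCδ]
              have : 0 ≤ 2 * M * 1.1 + Real.exp (3 * r₀) * (C₁ * ((G + 1) * (2 * M * 1.1))) := by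
                positivity
              linarith only [this]
            gcongr
        _ = _ := by rw [hD, hδ]
    have hXY : ‖Xv u C₁ k β ((RR k : ℂ) • w) - Xv u C₁ k β' ((RR k : ℂ) • w)‖ ≤ D * δ := by
      rw [Xv, Xv]
      refine (exp_sub_exp_le (hz β hβ).1 (hz β' hβ').1).trans ?_
      have h1 : ‖(C₁ : ℂ) * ⟪β, u x' - u x⟫_ℂ - (C₁ : ℂ) * ⟪β', u x' - u x⟫_ℂ‖ ≤
          C₁ * (‖β - β'‖ * (2 * M * 1.1 * y)) := by
        rw [← mul_sub, ← inner_sub_left, norm_mul, Complex.norm_real, Real.norm_of_nonneg hC₁]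
        apply mul_le_mul_of_nonneg_left _ hC₁
        refine (norm_inner_le_norm _ _).trans ?_
        gcongr
      calc Real.exp (3 * r₀) * ‖(C₁ : ℂ) * ⟪β, u x' - u x⟫_ℂ - (C₁ : ℂ) * ⟪β', u x' - u x⟫_ℂ‖
          ≤ Real.exp (3 * r₀) * (C₁ * (‖β - β'‖ * (2 * M * 1.1 * y))) := by gcongr
        _ = ‖β - β'‖ * (Real.exp (3 * r₀) * (C₁ * (1 * (2 * M * 1.1))) * y) := by ring
        _ ≤ (CD * ‖β - β'‖) * (Cδ * y) := by
            have g1 : 1 ≤ CD := by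
              rw [hCD]
              have : (0 : ℝ) ≤ Fintype.card I * (Lc * (B + 1)) := by positivity
              linarith only [this]
            have g2 : Real.exp (3 * r₀) * (C₁ * (1 * (2 * M * 1.1))) ≤ Cδ := by
              have g3 : Real.exp (3 * r₀) * (C₁ * (1 * (2 * M * 1.1))) ≤
                  Real.exp (3 * r₀) * (C₁ * ((G + 1) * (2 * M * 1.1))) := by
                gcongr; linarith
              refine g3.trans ?_
              rw [hCδ]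
              have : 0 ≤ 8 * M * B / ρ * 1.1 + 2 * M * 1.1 := by positivity
              linarith only [this]
            have g4 : ‖β - β'‖ ≤ CD * ‖β - β'‖ := le_mul_of_one_le_left hb0 g1
            gcongr
        _ = _ := by rw [hD, hδ]
    obtain ⟨hB1, hB2⟩ := algB (X₀ := X₀) hfx hfx' hP hB hδ0 hD0 hH hη (h.norm_mv_le hβ hm1 hx)
      (h.norm_mv_le hβ hm2 hx') (h.norm_mv_le hβ' hm2 hy2) hXa hYa hffδ (hmd β hβ hx hx') hXb hYb
      hone hdot hdot' (hm3 x hm1 hx hy1) (hm3 x' hm2 hx' hy2) hm4 hXY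
    rw [← hu₀, ← hA3] at hB1
    rw [← hu₀, ← hA1, ← hA3, ← hA4] at hB2
    have e1 : D * δ = CD * Cδ * ‖β - β'‖ * y := by rw [hD, hδ]; ring
    constructor
    · calc _ ≤ (1 - ‖w‖ ^ 2) * (A3 * (D * δ)) := mul_le_mul_of_nonneg_left hB1 hd.le
        _ = A3 * (CD * Cδ) * (‖β - β'‖ * ((1 - ‖w‖ ^ 2) * y)) := by rw [e1]; ring
        _ = A3 * (CD * Cδ) * (‖β - β'‖ * t) := by rw [hdy]
        _ ≤ _ := by
            apply mul_le_mul_of_nonneg_right _ (by positivity)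
            have : 0 ≤ (A1 + A2) * Cδ + A4 * (CD * Cδ) := by positivity
            linarith only [this]
    · calc _ ≤ (1 - ‖w‖ ^ 2) * (A4 * (D * δ)) := mul_le_mul_of_nonneg_left hB2 hd.le
        _ = A4 * (CD * Cδ) * (‖β - β'‖ * ((1 - ‖w‖ ^ 2) * y)) := by rw [e1]; ring
        _ = A4 * (CD * Cδ) * (‖β - β'‖ * t) := by rw [hdy]
        _ ≤ _ := by
            apply mul_le_mul_of_nonneg_right _ (by positivity)
            have : 0 ≤ (A1 + A2) * Cδ + A3 * (CD * Cδ) := by positivity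
            linarith only [this]

end Pool.Agent.MPca0fc2.SL
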