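import Mathlib
import Pool.Agent.Lib.MP_ca0fc2_an.SLIncr

set_option autoImplicit false

open Metric Set Filter Topology
open scoped InnerProductSpace

namespace Pool.Agent.MPca0fc2.SL

open Pool.Agent.MPca0fc2.SD

variable {J : Type*} [Fintype J] {I : Type*} [Fintype I]
variable {E : Type*} [NormedAddCommGroup E] [InnerProductSpace ℂ E]
variable {W : Type*} [NormedAddCommGroup W] [InnerProductSpace ℂ W]

theorem RR_smul_mem {k : ℕ} {w : E} (hw : w ∈ ball (0 : E) 1) : (RR k : ℂ) • w ∈ ball (0 : E) (RR k) := by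
  rw [mem_ball_zero_iff] at hw ⊢
  rw [norm_smul, Complex.norm_real, Real.norm_of_nonneg (RR_pos k).le]
  nlinarith [RR_pos k]

theorem RR_smul_le {k : ℕ} {w : E} (hw : w ∈ ball (0 : E) 1) : ‖(RR k : ℂ) • w‖ ≤ RR k :=
  (mem_ball_zero_iff.mp (RR_smul_mem hw)).le

theorem u_cont {F : Type*} [NormedAddCommGroup F] [NormedSpace ℂ F] {u : E → F}
    (hu : DifferentiableOn ℂ u (ball 0 1)) {k l : ℕ} (hl : l ≤ k + 1) :
    DifferentiableOn ℂ (fun w : E => u ((rr l : ℂ) • (RR k : ℂ) • w)) (ball 0 1) := by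
  apply hu.comp
  · exact ((differentiable_id.const_smul (RR k : ℂ)).const_smul (rr l : ℂ)).differentiableOn
  · intro w hw
    exact FC.mem_ball k l hl (RR_smul_le hw)

theorem fv_diff {f : J → E → ℂ} (hf : ∀ j, DifferentiableOn ℂ (f j) (ball 0 1)) {k l : ℕ}
    (hl : l ≤ k + 1) :
    DifferentiableOn ℂ (fun w : E => fv f l ((RR k : ℂ) • w)) (ball 0 1) := by
  rw [differentiableOn_pi]
  intro j
  exact u_cont (hf j) hl

theorem H_diff {H : J → E → ℂ} {k : ℕ} (hH : ∀ j, DifferentiableOn ℂ (H j) (ball 0 (RR k))) :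
    DifferentiableOn ℂ (fun w : E => (fun j => H j ((RR k : ℂ) • w))) (ball 0 1) := by
  rw [differentiableOn_pi]
  intro j
  exact (hH j).comp (differentiable_id.const_smul (RR k : ℂ)).differentiableOn
    fun w hw => RR_smul_mem hw

theorem η_diff {η : E → ℂ} {k : ℕ} (hη : DifferentiableOn ℂ η (ball 0 (RR k))) :
    DifferentiableOn ℂ (fun w : E => η ((RR k : ℂ) • w)) (ball 0 1) :=
  hη.comp (differentiable_id.const_smul (RR k : ℂ)).differentiableOn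
    fun w hw => RR_smul_mem hw

/-- the region where the base `β` is near `u` at levels `k` and `k+1` -/
def Nr (u : E → W) (ρ : ℝ) (k : ℕ) (β : W) : Set E :=
  {w | w ∈ ball (0 : E) 1 ∧ ‖u ((rr k : ℂ) • (RR k : ℂ) • w) - β‖ < 3 * ρ ∧
    ‖u ((rr (k + 1) : ℂ) • (RR k : ℂ) • w) - β‖ < 3 * ρ}

section Frozen

variable {f : J → E → ℂ} {u : E → W} {ρ M B Lc G : ℝ} {χ : I → W → ℝ} {c : I → W}
  {s : I → J → E → ℂ}

theorem mv_diffR (h : Lev f u ρ M B Lc G χ c s) (β : W) {k l : ℕ} (hl : l ≤ k + 1) {S : Set E}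
    (hS : S ⊆ ball 0 1) (hSu : ∀ w ∈ S, ‖u ((rr l : ℂ) • (RR k : ℂ) • w) - β‖ < 3 * ρ) :
    DifferentiableOn ℂ (fun w : E => mv χ s β ((rr l : ℂ) • (RR k : ℂ) • w)) S := by
  rw [differentiableOn_pi]
  intro j
  have h1 := h.mv_hol β j (S := S) (r := (rr l : ℂ) * (RR k : ℂ)) (fun w hw => by
    rw [mul_smul]
    exact ⟨FC.mem_ball k l hl (RR_smul_le (hS hw)), hSu w hw⟩)
  refine h1.congr fun w _ => ?_
  simp only [mul_smul]

theorem Xv_diff (hu : DifferentiableOn ℂ u (ball 0 1)) (C₁ : ℝ) (k : ℕ) (β : W) :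
    DifferentiableOn ℂ (fun w : E => Xv u C₁ k β ((RR k : ℂ) • w)) (ball 0 1) := by
  unfold Xv
  apply DifferentiableOn.cexp
  apply DifferentiableOn.const_mul
  have h1 : DifferentiableOn ℂ (fun w : E => u ((rr (k + 1) : ℂ) • (RR k : ℂ) • w) -
      u ((rr k : ℂ) • (RR k : ℂ) • w)) (ball 0 1) :=
    (u_cont hu le_rfl).sub (u_cont hu (by omega))
  exact (innerSL ℂ β).differentiable.comp_differentiableOn h1

theorem Nη_diff (h : Lev f u ρ M B Lc G χ c s) (C₁ : ℝ) {k : ℕ} {H : J → E → ℂ} {η : E → ℂ}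
    (hH : ∀ j, DifferentiableOn ℂ (H j) (ball 0 (RR k)))
    (hη : DifferentiableOn ℂ η (ball 0 (RR k))) (β : W) :
    DifferentiableOn ℂ (fun w : E => Nη f u χ s C₁ k H η β ((RR k : ℂ) • w)) (Nr u ρ k β) := by
  have hS : Nr u ρ k β ⊆ ball 0 1 := fun w hw => hw.1
  exact ηv_diffOn ((fv_diff h.fhol le_rfl).mono hS) ((H_diff hH).mono hS)
    (mv_diffR h β (by omega) hS fun w hw => hw.2.1) ((η_diff hη).mono hS)
    ((Xv_diff h.uhol C₁ k β).mono hS)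

theorem NH_diff (h : Lev f u ρ M B Lc G χ c s) (C₁ : ℝ) {k : ℕ} {H : J → E → ℂ} {η : E → ℂ}
    (hH : ∀ j, DifferentiableOn ℂ (H j) (ball 0 (RR k)))
    (hη : DifferentiableOn ℂ η (ball 0 (RR k))) (β : W) :
    DifferentiableOn ℂ (fun w : E => NH f u χ s C₁ k H η β ((RR k : ℂ) • w)) (Nr u ρ k β) := by
  have hS : Nr u ρ k β ⊆ ball 0 1 := fun w hw => hw.1
  exact hv_diffOn ((fv_diff h.fhol le_rfl).mono hS) ((H_diff hH).mono hS)
    (mv_diffR h β (by omega) hS fun w hw => hw.2.1)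
    (mv_diffR h β le_rfl hS fun w hw => hw.2.2) ((η_diff hη).mono hS)
    ((Xv_diff h.uhol C₁ k β).mono hS)

theorem mv_contR (h : Lev f u ρ M B Lc G χ c s) {b : E → W} {k l : ℕ} (hl : l ≤ k + 1)
    (hb : ContinuousOn b (ball 0 1))
    (hn : ∀ w ∈ ball (0 : E) 1, ‖u ((rr l : ℂ) • (RR k : ℂ) • w) - b w‖ < 3 * ρ) :
    ContinuousOn (fun w : E => mv χ s (b w) ((rr l : ℂ) • (RR k : ℂ) • w)) (ball 0 1) := by
  rw [continuousOn_pi]
  intro j
  have h1 := h.mv_cont j (S := ball 0 1) (r := (rr l : ℂ) * (RR k : ℂ)) hb (fun w hw => by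
    rw [mul_smul]
    exact ⟨FC.mem_ball k l hl (RR_smul_le hw), hn w hw⟩)
  refine h1.congr fun w _ => ?_
  simp only [mul_smul]

theorem Xv_cont (hu : DifferentiableOn ℂ u (ball 0 1)) (C₁ : ℝ) (k : ℕ) {b : E → W}
    (hb : ContinuousOn b (ball 0 1)) :
    ContinuousOn (fun w : E => Xv u C₁ k (b w) ((RR k : ℂ) • w)) (ball 0 1) := by
  unfold Xv
  apply ContinuousOn.cexp
  apply ContinuousOn.mul continuousOn_const
  have h1 : ContinuousOn (fun w : E => u ((rr (k + 1) : ℂ) • (RR k : ℂ) • w) -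
      u ((rr k : ℂ) • (RR k : ℂ) • w)) (ball 0 1) :=
    ((u_cont hu le_rfl).sub (u_cont hu (by omega))).continuousOn
  exact hb.inner h1

theorem Nη_cont (h : Lev f u ρ M B Lc G χ c s) (C₁ : ℝ) {k : ℕ} {H : J → E → ℂ} {η : E → ℂ}
    (hH : ∀ j, DifferentiableOn ℂ (H j) (ball 0 (RR k)))
    (hη : DifferentiableOn ℂ η (ball 0 (RR k))) {b : E → W} (hb : ContinuousOn b (ball 0 1))
    (hn : ∀ w ∈ ball (0 : E) 1, w ∈ Nr u ρ k (b w)) :
    ContinuousOn (fun w : E => Nη f u χ s C₁ k H η (b w) ((RR k : ℂ) • w)) (ball 0 1) :=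
  ηv_contOn (fv_diff h.fhol le_rfl).continuousOn (H_diff hH).continuousOn
    (mv_contR h (by omega) hb fun w hw => (hn w hw).2.1) (η_diff hη).continuousOn
    (Xv_cont h.uhol C₁ k hb)

theorem NH_cont (h : Lev f u ρ M B Lc G χ c s) (C₁ : ℝ) {k : ℕ} {H : J → E → ℂ} {η : E → ℂ}
    (hH : ∀ j, DifferentiableOn ℂ (H j) (ball 0 (RR k)))
    (hη : DifferentiableOn ℂ η (ball 0 (RR k))) {b : E → W} (hb : ContinuousOn b (ball 0 1))
    (hn : ∀ w ∈ ball (0 : E) 1, w ∈ Nr u ρ k (b w)) :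
    ContinuousOn (fun w : E => NH f u χ s C₁ k H η (b w) ((RR k : ℂ) • w)) (ball 0 1) :=
  hv_contOn (fv_diff h.fhol le_rfl).continuousOn (H_diff hH).continuousOn
    (mv_contR h (by omega) hb fun w hw => (hn w hw).2.1)
    (mv_contR h le_rfl hb fun w hw => (hn w hw).2.2) (η_diff hη).continuousOn
    (Xv_cont h.uhol C₁ k hb)

/-- bounds of the frozen step -/
theorem N_bd (h : Lev f u ρ M B Lc G χ c s) {C₁ : ℝ} (hC₁ : 0 ≤ C₁) {k : ℕ} {H : J → E → ℂ}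
    {η : E → ℂ} {P : ℝ} (hP : 0 ≤ P) {β : W} (hβ : ‖β‖ ≤ G) {w : E} (hw : w ∈ Nr u ρ k β)
    (hH : ‖(fun j => H j ((RR k : ℂ) • w))‖ ≤ P) (hη : ‖η ((RR k : ℂ) • w)‖ ≤ P) :
    ‖Nη f u χ s C₁ k H η β ((RR k : ℂ) • w)‖ ≤ Fintype.card J * (M *
        (Real.exp (C₁ * (G * (2 * M))) * (P + (1 + P) * B))) ∧
    ‖NH f u χ s C₁ k H η β ((RR k : ℂ) • w)‖ ≤
      Real.exp (C₁ * (G * (2 * M))) * (P + (1 + P) * B) + (1 + Fintype.card J * (M *
        (Real.exp (C₁ * (G * (2 * M))) * (P + (1 + P) * B)))) * B := by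
  obtain ⟨hw1, hw2, hw3⟩ := hw
  have hm1 := FC.mem_ball k k (by omega) (RR_smul_le hw1 (k := k))
  have hm2 := FC.mem_ball k (k + 1) le_rfl (RR_smul_le hw1 (k := k))
  have hM := h.M0
  have hB := h.B0
  have hf : ‖fv f (k + 1) ((RR k : ℂ) • w)‖ ≤ M := by
    rw [pi_norm_le_iff_of_nonneg hM.le]
    intro j; exact h.fbd j _ hm2
  have hX : ‖Xv u C₁ k β ((RR k : ℂ) • w)‖ ≤ Real.exp (C₁ * (G * (2 * M))) := by
    rw [Xv, Complex.norm_exp]
    apply Real.exp_le_exp.mpr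
    refine (Complex.re_le_norm _).trans ?_
    rw [norm_mul, Complex.norm_real, Real.norm_of_nonneg hC₁]
    apply mul_le_mul_of_nonneg_left _ hC₁
    refine (norm_inner_le_norm _ _).trans ?_
    have : ‖u ((rr (k + 1) : ℂ) • (RR k : ℂ) • w) - u ((rr k : ℂ) • (RR k : ℂ) • w)‖ ≤ 2 * M := by
      refine (norm_sub_le _ _).trans ?_
      linarith [h.ubd _ hm1, h.ubd _ hm2]
    gcongr
    exact (norm_nonneg _).trans hβ
  have hU := norm_Uv_le hH hη (h.norm_mv_le hβ hm1 hw2) hB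
  have hXU : ‖Xv u C₁ k β ((RR k : ℂ) • w) • Uv (fun j => H j ((RR k : ℂ) • w))
      (mv χ s β ((rr k : ℂ) • (RR k : ℂ) • w)) (η ((RR k : ℂ) • w))‖ ≤
      Real.exp (C₁ * (G * (2 * M))) * (P + (1 + P) * B) := by
    rw [norm_smul]
    gcongr
  have h1 : ‖Nη f u χ s C₁ k H η β ((RR k : ℂ) • w)‖ ≤ Fintype.card J * (M *
        (Real.exp (C₁ * (G * (2 * M))) * (P + (1 + P) * B))) := by
    rw [Nη, ηv]
    refine (norm_dot_le _ _).trans ?_
    gcongr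
  refine ⟨h1, ?_⟩
  rw [NH, hv]
  refine (norm_add_le _ _).trans ?_
  apply add_le_add hXU
  rw [norm_smul]
  have h2 : ‖1 - ηv (fv f (k + 1) ((RR k : ℂ) • w)) (fun j => H j ((RR k : ℂ) • w))
      (mv χ s β ((rr k : ℂ) • (RR k : ℂ) • w)) (η ((RR k : ℂ) • w))
      (Xv u C₁ k β ((RR k : ℂ) • w))‖ ≤ 1 + Fintype.card J * (M *
        (Real.exp (C₁ * (G * (2 * M))) * (P + (1 + P) * B))) := by
    refine (norm_sub_le _ _).trans ?_
    rw [norm_one]
    exact add_le_add le_rfl h1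
  have h3 := h.norm_mv_le hβ hm2 hw3
  exact mul_le_mul h2 h3 (norm_nonneg _) ((norm_nonneg _).trans h2)

end Frozen

end Pool.Agent.MPca0fc2.SL
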