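import Mathlib
import Pool.Agent.Lib.MP_ca0fc2_an.SLReg

set_option autoImplicit false

open Metric Set Filter Topology
open scoped InnerProductSpace

namespace Pool.Agent.MPca0fc2.SL

open Pool.Agent.MPca0fc2.SD

/-- the properties of the smoothing operator that are used -/
structure Ker {E : Type*} [NormedAddCommGroup E] [InnerProductSpace ℂ E]
    (P : (E → ℂ) → E → ℂ) (CK : ℝ) : Prop where
  pos : 0 < CK
  k1 : ∀ (t X : ℝ) (z : E) (F Φ : E → ℂ) (G G' MΦ : ℝ), 0 < t → t ≤ 1 → 8 ≤ X →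
    1 - t / 8 ≤ ‖z‖ → ‖z‖ ≤ 1 - t / 40 → 0 ≤ G → 0 ≤ G' → ContinuousOn F (ball 0 1) →
    (∀ w ∈ ball (0 : E) 1, (1 - ‖w‖ ^ 2) * ‖F w‖ ≤ G * t) →
    DifferentiableOn ℂ Φ {w | w ∈ ball (0 : E) 1 ∧ ‖1 - ⟪w, z⟫_ℂ‖ < t * X} →
    (∀ w ∈ ball (0 : E) 1, ‖1 - ⟪w, z⟫_ℂ‖ < t * X → ‖Φ w‖ ≤ MΦ) →
    (∀ w ∈ ball (0 : E) 1, ‖1 - ⟪w, z⟫_ℂ‖ < t * X →
      (1 - ‖w‖ ^ 2) * ‖F w - Φ w‖ ≤ G' * √(t * (‖1 - ⟪w, z⟫_ℂ‖ + t))) →
    ‖P F z - Φ z‖ ≤ CK * (G' + G / √X)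
  k2 : ∀ (F : E → ℂ) (C : ℝ), ContinuousOn F (ball 0 1) → (∀ w ∈ ball (0 : E) 1, ‖F w‖ ≤ C) →
    DifferentiableOn ℂ (P F) (ball 0 1)

variable {J : Type*} [Fintype J] {I : Type*} [Fintype I]
variable {E : Type*} [NormedAddCommGroup E] [InnerProductSpace ℂ E]
variable {W : Type*} [NormedAddCommGroup W] [InnerProductSpace ℂ W]

/-- the conclusion of `exists_CE` -/
def IncrBd (f : J → E → ℂ) (u : E → W) (χ : I → W → ℝ) (s : I → J → E → ℂ)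
    (ρ G P C₁ CE : ℝ) : Prop :=
  ∀ (k : ℕ) (H : J → E → ℂ) (η : E → ℂ) (w : E) (β : W),
      ‖w‖ < 1 → ‖β‖ ≤ G →
      ‖u ((rr k : ℂ) • (RR k : ℂ) • w) - β‖ < 3 * ρ →
      ‖u ((rr (k + 1) : ℂ) • (RR k : ℂ) • w) - β‖ < 3 * ρ →
      dot (fv f k ((RR k : ℂ) • w)) (fun j => H j ((RR k : ℂ) • w)) = 1 →
      ‖(fun j => H j ((RR k : ℂ) • w))‖ ≤ P → ‖η ((RR k : ℂ) • w)‖ ≤ P →
      ((1 - ‖w‖ ^ 2) * ‖Nη f u χ s C₁ k H η β ((RR k : ℂ) • w) - η ((RR k : ℂ) • w)‖ ≤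
        CE * (1 / 2) ^ k ∧
      (1 - ‖w‖ ^ 2) * ‖NH f u χ s C₁ k H η β ((RR k : ℂ) • w) -
        (fun j => H j ((RR k : ℂ) • w))‖ ≤ CE * (1 / 2) ^ k) ∧
      ∀ β' : W, ‖β'‖ ≤ G → ‖u ((rr k : ℂ) • (RR k : ℂ) • w) - β'‖ < 3 * ρ →
      ‖u ((rr (k + 1) : ℂ) • (RR k : ℂ) • w) - β'‖ < 3 * ρ →
      ((1 - ‖w‖ ^ 2) * ‖Nη f u χ s C₁ k H η β ((RR k : ℂ) • w) -
        Nη f u χ s C₁ k H η β' ((RR k : ℂ) • w)‖ ≤ CE * (‖β - β'‖ * (1 / 2) ^ k) ∧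
      (1 - ‖w‖ ^ 2) * ‖NH f u χ s C₁ k H η β ((RR k : ℂ) • w) -
        NH f u χ s C₁ k H η β' ((RR k : ℂ) • w)‖ ≤ CE * (‖β - β'‖ * (1 / 2) ^ k))

/-- the hypotheses of the geometric part of the flow -/
structure GH (P : (E → ℂ) → E → ℂ) (u : E → W) (e : ℕ → ℝ)
    (ρ M ε CK CE θ : ℝ) (ks kb L K j₁ : ℕ) : Prop where
  hM : ∀ z ∈ ball (0 : E) 1, ‖u z‖ ≤ M
  fc : FC e ε ρ M ks kb L j₁
  osc : Osc u e
  log : ∀ k j, ks + j₁ ≤ j → j ≤ k + 1 → ∀ a b : E, ‖a‖ ≤ 1 → ‖b‖ ≤ 1 →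
    0 ≤ Real.log (‖1 - ⟪a, b⟫_ℂ‖ + (1 / 2) ^ k) + j * Real.log 2 →
    ‖u (((rr j * RR k : ℝ) : ℂ) • a) - u (((rr j * RR k : ℝ) : ℂ) • b)‖ ≤
    900 * (e j * (1 + (Real.log (‖1 - ⟪a, b⟫_ℂ‖ + (1 / 2) ^ k) + j * Real.log 2)))
  ker : Ker P CK
  CE0 : 0 < CE
  K1 : 1 ≤ K
  sK : ∀ j, kb ≤ j → K * e j ≤ ρ / 8
  tail : ∀ i k, k = kb + L + K + i → 1 / √(Real.exp (ρ / (1200 * e k)) - 1) ≤
    3 * e (kb + L + i) * Real.exp (-(a₀ / e (kb + L + i)) * ρ) *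
      Real.exp (-(K * Real.log 2) / 4)
  hθ : θ = 33 * CK * CE * ρ * Real.exp (-(K * Real.log 2) / 4)

namespace GH

variable {P : (E → ℂ) → E → ℂ} {u : E → W} {e : ℕ → ℝ}
  {ρ M ε CK CE θ : ℝ} {ks kb L K j₁ : ℕ}

theorem tele' (h : GH P u e ρ M ε CK CE θ ks kb L K j₁) {i k : ℕ} (hk : k = kb + L + K + i) {z : E}
    (hz : ‖z‖ ≤ RR k) {n : ℕ} (hn : n ≤ K) :
    ‖u ((rr (kb + L + i + 1 + n) : ℂ) • z) - u ((rr (kb + L + i + 1) : ℂ) • z)‖ ≤ ρ / 8 := by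
  refine (FC.tele h.osc hz (kb + L + i + 1) n (by omega)).trans ?_
  have hK : (0 : ℝ) < K := by have := h.K1; positivity
  have h1 : ∀ l ∈ Finset.range n, e (kb + L + i + 1 + l) ≤ ρ / (8 * K) := by
    intro l _
    have := h.sK (kb + L + i + 1 + l) (by omega)
    rw [le_div_iff₀ (by positivity)]
    linarith
  refine (Finset.sum_le_card_nsmul _ _ _ h1).trans ?_
  rw [Finset.card_range, nsmul_eq_mul]
  have hρ := h.fc.ρ0
  have hn' : (n : ℝ) ≤ K := by exact_mod_cast hn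
  calc (n : ℝ) * (ρ / (8 * K)) ≤ K * (ρ / (8 * K)) := by gcongr
    _ = ρ / 8 := by field_simp

theorem near (h : GH P u e ρ M ε CK CE θ ks kb L K j₁) {i k : ℕ} (hk : k = kb + L + K + i) {z : E}
    (hz : ‖z‖ ≤ RR k) :
    ‖u ((rr k : ℂ) • z) - bf ρ e u kb L i z‖ ≤ 1.125 * ρ ∧
    ‖u ((rr (k + 1) : ℂ) • z) - bf ρ e u kb L i z‖ ≤ 1.125 * ρ ∧
    ‖u ((rr (k + 1) : ℂ) • z) - u ((rr (kb + L + i + 1) : ℂ) • z)‖ ≤ ρ / 8 := by
  have hK1 := h.K1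
  have h1 := h.tele' hk hz (n := K - 1) (by omega)
  have h2 := h.tele' hk hz (n := K) le_rfl
  have e1 : kb + L + i + 1 + (K - 1) = k := by omega
  have e2 : kb + L + i + 1 + K = k + 1 := by omega
  rw [e1] at h1
  rw [e2] at h2
  have h3 := h.fc.sf_le h.osc (k := k) (i := i) (by omega) hz
  rw [sf_eq] at h3
  refine ⟨?_, ?_, h2⟩
  · have e3 : u ((rr k : ℂ) • z) - bf ρ e u kb L i z = (u ((rr k : ℂ) • z) -
        u ((rr (kb + L + i + 1) : ℂ) • z)) + (u ((rr (kb + L + i + 1) : ℂ) • z) -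
        bf ρ e u kb L i z) := by abel
    rw [e3]
    refine (norm_add_le _ _).trans ?_
    linarith
  · have e3 : u ((rr (k + 1) : ℂ) • z) - bf ρ e u kb L i z = (u ((rr (k + 1) : ℂ) • z) -
        u ((rr (kb + L + i + 1) : ℂ) • z)) + (u ((rr (kb + L + i + 1) : ℂ) • z) -
        bf ρ e u kb L i z) := by abel
    rw [e3]
    refine (norm_add_le _ _).trans ?_
    linarith

theorem mem_Nr (h : GH P u e ρ M ε CK CE θ ks kb L K j₁) {i k : ℕ} (hk : k = kb + L + K + i) {w : E}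
    (hw : w ∈ ball (0 : E) 1) : w ∈ Nr u ρ k (bf ρ e u kb L i ((RR k : ℂ) • w)) := by
  have hρ := h.fc.ρ0
  obtain ⟨h1, h2, -⟩ := h.near hk (RR_smul_le hw (k := k))
  exact ⟨hw, by linarith, by linarith⟩

/-- the size of the slab -/
theorem Xk_ge (h : GH P u e ρ M ε CK CE θ ks kb L K j₁) {k : ℕ} (hk : kb ≤ k) :
    8 ≤ Real.exp (ρ / (1200 * e k)) - 1 := by
  have hρ := h.fc.ρ0
  have he := h.fc.pos hk
  have hs := h.fc.small k hk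
  have h1 : 8 ≤ ρ / (1200 * e k) := by
    rw [le_div_iff₀ (by positivity)]; linarith
  have h2 := Real.add_one_le_exp (ρ / (1200 * e k))
  have h3 : (9 : ℝ) ≤ Real.exp (ρ / (1200 * e k)) := by linarith
  linarith

theorem slab (h : GH P u e ρ M ε CK CE θ ks kb L K j₁) {i k : ℕ} (hk : k = kb + L + K + i)
    {w x : E} (hw : w ∈ ball (0 : E) 1) (hx : ‖x‖ ≤ 1)
    (hwx : ‖1 - ⟪w, x⟫_ℂ‖ < (1 / 2) ^ k * (Real.exp (ρ / (1200 * e k)) - 1)) :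
    w ∈ Nr u ρ k (bf ρ e u kb L i ((RR k : ℂ) • x)) := by
  have hρ := h.fc.ρ0
  have he := h.fc.pos (j := k) (by omega)
  have hs := h.fc.small k (by omega)
  have ht := half_pow_pos k
  have hRx : ‖(RR k : ℂ) • x‖ ≤ RR k := by
    rw [norm_smul, Complex.norm_real, Real.norm_of_nonneg (RR_pos k).le]
    nlinarith [RR_pos k, norm_nonneg x]
  obtain ⟨h1, -, -⟩ := h.near hk hRx
  set q := ‖1 - ⟪w, x⟫_ℂ‖ + (1 / 2) ^ k with hq
  have hq0 : (1 / 2) ^ k ≤ q := by rw [hq]; linarith [norm_nonneg (1 - ⟪w, x⟫_ℂ)]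
  have hqpos : 0 < q := ht.trans_le hq0
  have hlk : Real.log ((1 / 2) ^ k) = -(k * Real.log 2) := by
    rw [Real.log_pow, one_div, Real.log_inv]; ring
  have hlog0 : 0 ≤ Real.log q + k * Real.log 2 := by
    have := Real.log_le_log ht hq0
    rw [hlk] at this
    linarith
  have hlog1 : Real.log q + k * Real.log 2 ≤ ρ / (1200 * e k) := by
    have h2 : q ≤ (1 / 2) ^ k * Real.exp (ρ / (1200 * e k)) := by rw [hq]; linarith
    have h3 := Real.log_le_log hqpos h2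
    rw [Real.log_mul ht.ne' (Real.exp_pos _).ne', Real.log_exp, hlk] at h3
    linarith
  have h2 := h.log k k (by have := h.fc.hkb; omega) (by omega) w x (mem_ball_zero_iff.mp hw).le hx
    hlog0
  have h3 : ‖u ((rr k : ℂ) • (RR k : ℂ) • w) - u ((rr k : ℂ) • (RR k : ℂ) • x)‖ ≤ 0.84 * ρ := by
    rw [smul_smul, smul_smul, ← Complex.ofReal_mul]
    refine h2.trans ?_
    rw [← hq]
    calc 900 * (e k * (1 + (Real.log q + k * Real.log 2)))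
        ≤ 900 * (e k * (1 + ρ / (1200 * e k))) := by gcongr
      _ = 900 * e k + 0.75 * ρ := by field_simp; ring
      _ ≤ _ := by linarith
  have h4 := h.osc.o1 k ((RR k : ℂ) • w) (RR_smul_le hw)
  refine ⟨hw, ?_, ?_⟩
  · have e3 : u ((rr k : ℂ) • (RR k : ℂ) • w) - bf ρ e u kb L i ((RR k : ℂ) • x) =
        (u ((rr k : ℂ) • (RR k : ℂ) • w) - u ((rr k : ℂ) • (RR k : ℂ) • x)) +
        (u ((rr k : ℂ) • (RR k : ℂ) • x) - bf ρ e u kb L i ((RR k : ℂ) • x)) := by abel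
    rw [e3]
    refine (norm_add_le _ _).trans_lt ?_
    linarith
  · have e3 : u ((rr (k + 1) : ℂ) • (RR k : ℂ) • w) - bf ρ e u kb L i ((RR k : ℂ) • x) =
        (u ((rr (k + 1) : ℂ) • (RR k : ℂ) • w) - u ((rr k : ℂ) • (RR k : ℂ) • w)) +
        ((u ((rr k : ℂ) • (RR k : ℂ) • w) - u ((rr k : ℂ) • (RR k : ℂ) • x)) +
        (u ((rr k : ℂ) • (RR k : ℂ) • x) - bf ρ e u kb L i ((RR k : ℂ) • x))) := by abel
    rw [e3]
    refine (norm_add_le _ _).trans_lt ?_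
    have h5 := norm_add_le (u ((rr k : ℂ) • (RR k : ℂ) • w) - u ((rr k : ℂ) • (RR k : ℂ) • x))
        (u ((rr k : ℂ) • (RR k : ℂ) • x) - bf ρ e u kb L i ((RR k : ℂ) • x))
    linarith

/-- the smoothed increment against the frozen one -/
theorem ker_step (h : GH P u e ρ M ε CK CE θ ks kb L K j₁) {i k : ℕ} (hk : k = kb + L + K + i)
    {Λ : W → E → ℂ} {g : E → ℂ} {MΦ : ℝ}
    (hg : DifferentiableOn ℂ (fun w : E => g ((RR k : ℂ) • w)) (ball 0 1))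
    (hd : ∀ β, DifferentiableOn ℂ (fun w : E => Λ β ((RR k : ℂ) • w)) (Nr u ρ k β))
    (hc : ContinuousOn (fun w : E => Λ (bf ρ e u kb L i ((RR k : ℂ) • w)) ((RR k : ℂ) • w))
      (ball 0 1))
    (hb : ∀ β, ‖β‖ ≤ M + ρ → ∀ w ∈ Nr u ρ k β,
      ‖Λ β ((RR k : ℂ) • w) - g ((RR k : ℂ) • w)‖ ≤ MΦ)
    (h1 : ∀ β, ‖β‖ ≤ M + ρ → ∀ w ∈ Nr u ρ k β,
      (1 - ‖w‖ ^ 2) * ‖Λ β ((RR k : ℂ) • w) - g ((RR k : ℂ) • w)‖ ≤ CE * (1 / 2) ^ k)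
    (h2 : ∀ β β', ‖β‖ ≤ M + ρ → ‖β'‖ ≤ M + ρ → ∀ w ∈ Nr u ρ k β, w ∈ Nr u ρ k β' →
      (1 - ‖w‖ ^ 2) * ‖Λ β ((RR k : ℂ) • w) - Λ β' ((RR k : ℂ) • w)‖ ≤
        CE * (‖β - β'‖ * (1 / 2) ^ k)) :
    DifferentiableOn ℂ (P (fun w => Λ (bf ρ e u kb L i ((RR k : ℂ) • w)) ((RR k : ℂ) • w) -
      g ((RR k : ℂ) • w))) (ball 0 1) ∧
    ∀ x : E, 1 - (1 / 2) ^ k / 8 ≤ ‖x‖ → ‖x‖ ≤ 1 - (1 / 2) ^ k / 40 →
      ‖P (fun w => Λ (bf ρ e u kb L i ((RR k : ℂ) • w)) ((RR k : ℂ) • w) -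
        g ((RR k : ℂ) • w)) x - (Λ (bf ρ e u kb L i ((RR k : ℂ) • x)) ((RR k : ℂ) • x) -
        g ((RR k : ℂ) • x))‖ ≤ θ * kf ρ e u kb L i ((RR k : ℂ) • x) := by
  have hρ := h.fc.ρ0
  have ht := half_pow_pos k
  have ht1 := half_pow_le_one k
  have hCE := h.CE0
  have hCK := h.ker.pos
  have hβ : ∀ z : E, ‖z‖ ≤ RR k → ‖bf ρ e u kb L i z‖ ≤ M + ρ := fun z hz =>
    h.fc.norm_bf_le h.osc h.hM (k := k) (by omega) hz
  have hFc : ContinuousOn (fun w => Λ (bf ρ e u kb L i ((RR k : ℂ) • w)) ((RR k : ℂ) • w) -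
      g ((RR k : ℂ) • w)) (ball (0 : E) 1) := hc.sub hg.continuousOn
  have hFb : ∀ w ∈ ball (0 : E) 1, ‖Λ (bf ρ e u kb L i ((RR k : ℂ) • w)) ((RR k : ℂ) • w) -
      g ((RR k : ℂ) • w)‖ ≤ MΦ := fun w hw => hb _ (hβ _ (RR_smul_le hw)) w (h.mem_Nr hk hw)
  refine ⟨h.ker.k2 _ MΦ hFc hFb, ?_⟩
  intro x hx1 hx2
  have hxb : x ∈ ball (0 : E) 1 := by rw [mem_ball_zero_iff]; linarith
  set X := Real.exp (ρ / (1200 * e k)) - 1 with hX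
  have hX8 : 8 ≤ X := h.Xk_ge (by omega)
  set β := bf ρ e u kb L i ((RR k : ℂ) • x) with hβdef
  have hβ' : ‖β‖ ≤ M + ρ := hβ _ (RR_smul_le hxb)
  set κ := kf ρ e u kb L i ((RR k : ℂ) • x) with hκ
  have hκ0 : 0 < κ := h.fc.kf_pos u i _
  set d := Real.exp (-(K * Real.log 2) / 4) with hd'
  have hd0 : 0 < d := Real.exp_pos _
  have hslab : ∀ w ∈ ball (0 : E) 1, ‖1 - ⟪w, x⟫_ℂ‖ < (1 / 2) ^ k * X → w ∈ Nr u ρ k β :=
    fun w hw hwx => h.slab hk hw (by linarith) hwx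
  have hj : kb + L + i ≤ k := by omega
  have main := h.ker.k1 ((1 / 2) ^ k) X x
    (fun w => Λ (bf ρ e u kb L i ((RR k : ℂ) • w)) ((RR k : ℂ) • w) - g ((RR k : ℂ) • w))
    (fun w => Λ β ((RR k : ℂ) • w) - g ((RR k : ℂ) • w)) CE (CE * (32 * ρ * κ * d)) MΦ
    ht ht1 hX8 hx1 hx2 hCE.le (by positivity) hFc
    (fun w hw => h1 _ (hβ _ (RR_smul_le hw)) w (h.mem_Nr hk hw))
    (((hd β).mono fun w hw => hslab w hw.1 hw.2).sub (hg.mono fun w hw => hw.1))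
    (fun w hw hwx => hb β hβ' w (hslab w hw hwx)) ?_
  · refine main.trans ?_
    have h3 : 1 / √X ≤ ρ * κ * d := by
      refine (h.tail i k hk).trans ?_
      rw [hκ, kf, kp]
      have he := h.fc.pos (j := kb + L + i) (by omega)
      have h4 : Real.exp (-(a₀ / e (kb + L + i)) * ρ) ≤
          Real.exp (-(a₀ / e (kb + L + i)) * (ρ - sf ρ e u kb L i ((RR k : ℂ) • x))) := by
        apply Real.exp_le_exp.mpr
        have h5 : 0 ≤ a₀ / e (kb + L + i) := by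
          have : (0 : ℝ) < a₀ := by norm_num [a₀]
          positivity
        have h6 : 0 ≤ sf ρ e u kb L i ((RR k : ℂ) • x) := ds_nonneg _ _ _ _ _ _
        nlinarith
      rw [← hd']
      calc 3 * e (kb + L + i) * Real.exp (-(a₀ / e (kb + L + i)) * ρ) * d
          ≤ 3 * e (kb + L + i) * Real.exp (-(a₀ / e (kb + L + i)) *
            (ρ - sf ρ e u kb L i ((RR k : ℂ) • x))) * d := by gcongr
        _ = _ := by field_simp
    have h4 : CE / √X ≤ CE * (ρ * κ * d) := by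
      rw [div_eq_mul_one_div]
      gcongr
    rw [h.hθ, ← hd']
    calc CK * (CE * (32 * ρ * κ * d) + CE / √X) ≤ CK * (CE * (32 * ρ * κ * d) +
          CE * (ρ * κ * d)) := by gcongr
      _ = _ := by ring
  · intro w hw hwx
    have hwN := h.mem_Nr hk hw
    have hwN' := hslab w hw hwx
    have e1 : Λ (bf ρ e u kb L i ((RR k : ℂ) • w)) ((RR k : ℂ) • w) - g ((RR k : ℂ) • w) -
        (Λ β ((RR k : ℂ) • w) - g ((RR k : ℂ) • w)) =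
        Λ (bf ρ e u kb L i ((RR k : ℂ) • w)) ((RR k : ℂ) • w) - Λ β ((RR k : ℂ) • w) := by ring
    rw [e1]
    refine (h2 _ β (hβ _ (RR_smul_le hw)) hβ' w hwN hwN').trans ?_
    have h3 := h.fc.pair h.osc h.hM h.log (k := k) (i := i) hj (mem_ball_zero_iff.mp hw).le
      (mem_ball_zero_iff.mp hxb).le
    rw [← hβdef, ← hκ] at h3
    set q := ‖1 - ⟪w, x⟫_ℂ‖ + (1 / 2) ^ k with hq
    have hq0 : (1 / 2) ^ k ≤ q := by rw [hq]; linarith [norm_nonneg (1 - ⟪w, x⟫_ℂ)]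
    have hqpos : 0 < q := ht.trans_le hq0
    have h4 : hx q (kb + L + i) = d * hx q k := by
      rw [hx, hx, hd', ← Real.exp_add]
      congr 1
      rw [hk]; push_cast; ring
    have h5 : hx q k * (1 / 2) ^ k ≤ √((1 / 2) ^ k * q) := by
      rw [hx_eq hqpos]
      have hr : 1 ≤ q / (1 / 2) ^ k := by rw [le_div_iff₀ ht]; linarith
      calc (q / (1 / 2) ^ k) ^ (1 / 4 : ℝ) * (1 / 2) ^ k
          ≤ (q / (1 / 2) ^ k) ^ (1 / 2 : ℝ) * (1 / 2) ^ k := by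
            apply mul_le_mul_of_nonneg_right _ ht.le
            exact Real.rpow_le_rpow_of_exponent_le hr (by norm_num)
        _ = √((1 / 2) ^ k * q) := by
            rw [← Real.sqrt_eq_rpow]
            rw [Real.sqrt_div hqpos.le, Real.sqrt_mul ht.le]
            have h6 : √((1 / 2) ^ k) * √((1 / 2) ^ k) = (1 / 2 : ℝ) ^ k :=
              Real.mul_self_sqrt ht.le
            have h7 : 0 < √((1 / 2 : ℝ) ^ k) := Real.sqrt_pos.mpr ht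
            rw [div_mul_eq_mul_div, div_eq_iff h7.ne', mul_comm (√((1 / 2) ^ k)) (√q), mul_assoc, h6]
    calc CE * (‖bf ρ e u kb L i ((RR k : ℂ) • w) - β‖ * (1 / 2) ^ k)
        ≤ CE * ((32 * ρ * (κ * hx q (kb + L + i))) * (1 / 2) ^ k) := by gcongr
      _ = CE * (32 * ρ * κ * d) * (hx q k * (1 / 2) ^ k) := by rw [h4]; ring
      _ ≤ _ := by gcongr

end GH

end Pool.Agent.MPca0fc2.SL
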