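import Mathlib
import Pool.Agent.Lib.MP_ca0fc2_an.SLStep

set_option autoImplicit false

open Metric Set Filter Topology
open scoped InnerProductSpace

namespace Pool.Agent.MPca0fc2.SL

variable {W : Type*} [NormedAddCommGroup W] [InnerProductSpace ℂ W]

/-- the gauge potential -/
noncomputable def gp (β υ : W) : ℝ := (‖υ‖ ^ 2 - ‖υ - β‖ ^ 2) / 2

theorem gp_eq (β υ : W) : gp β υ = (⟪β, υ⟫_ℂ).re - ‖β‖ ^ 2 / 2 := by
  have h := norm_sub_sq (𝕜 := ℂ) υ β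
  have h2 : RCLike.re ⟪υ, β⟫_ℂ = (⟪β, υ⟫_ℂ).re := by
    rw [← inner_conj_symm υ β]
    exact Complex.conj_re _
  rw [gp, h, h2]
  ring

theorem gp_sub (β υ υ' : W) : gp β υ' - gp β υ = (⟪β, υ' - υ⟫_ℂ).re := by
  rw [gp_eq, gp_eq, inner_sub_right, Complex.sub_re]; ring

omit [InnerProductSpace ℂ W] in
theorem gp_le (β υ : W) : gp β υ ≤ ‖υ‖ ^ 2 / 2 := by
  unfold gp; nlinarith [sq_nonneg ‖υ - β‖]

omit [InnerProductSpace ℂ W] in
theorem neg_gp_le (β υ : W) : -gp β υ ≤ ‖υ - β‖ ^ 2 / 2 := by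
  unfold gp; nlinarith [sq_nonneg ‖υ‖]

theorem gp_move {β υ v : W} {κ ρ : ℝ} (hκ : 0 ≤ κ) (hκ1 : κ ≤ 1 / 2) (hυ : ‖υ - v‖ ≤ ρ / 8) :
    κ * ‖v - β‖ * (3 / 4 * ‖v - β‖ - ρ / 8) ≤ gp (β + κ • (v - β)) υ - gp β υ := by
  set s := ‖v - β‖ with hs
  have hs0 : 0 ≤ s := norm_nonneg _
  have h1 : υ - (β + κ • (v - β)) = (υ - β) - (κ : ℂ) • (v - β) := by
    have : (κ : ℂ) • (v - β) = κ • (v - β) := by
      exact (RCLike.real_smul_eq_coe_smul (K := ℂ) κ (v - β)).symm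
    rw [this]; abel
  have h2 : ‖υ - (β + κ • (v - β))‖ ^ 2 = ‖υ - β‖ ^ 2 - 2 * (κ * (⟪υ - β, v - β⟫_ℂ).re) +
      κ ^ 2 * s ^ 2 := by
    rw [h1, norm_sub_sq (𝕜 := ℂ), inner_smul_right, norm_smul, Complex.norm_real, mul_pow,
      Real.norm_eq_abs, sq_abs]
    congr 2
    change 2 * ((κ : ℂ) * ⟪υ - β, v - β⟫_ℂ).re = _
    rw [Complex.re_ofReal_mul]
  have h3 : s ^ 2 - s * (ρ / 8) ≤ (⟪υ - β, v - β⟫_ℂ).re := by
    have e1 : υ - β = (υ - v) + (v - β) := by abel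
    rw [e1, inner_add_left, Complex.add_re]
    have h4 : (⟪v - β, v - β⟫_ℂ).re = s ^ 2 := by
      have := inner_self_eq_norm_sq_to_K (𝕜 := ℂ) (v - β)
      rw [this, ← hs]
      norm_cast
    have h5 : |(⟪υ - v, v - β⟫_ℂ).re| ≤ ρ / 8 * s := by
      refine (Complex.abs_re_le_norm _).trans ((norm_inner_le_norm _ _).trans ?_)
      rw [← hs]
      gcongr
    rw [h4]
    have := (abs_le.mp h5).1
    linarith
  have h4 : gp (β + κ • (v - β)) υ - gp β υ =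
      κ * (⟪υ - β, v - β⟫_ℂ).re - κ ^ 2 * s ^ 2 / 2 := by
    unfold gp; rw [h2]; ring
  rw [h4]
  have h5 : κ * (s ^ 2 - s * (ρ / 8)) ≤ κ * (⟪υ - β, v - β⟫_ℂ).re :=
    mul_le_mul_of_nonneg_left h3 hκ
  have h6 : κ ^ 2 * s ^ 2 ≤ 1 / 2 * κ * s ^ 2 := by
    have : κ ^ 2 ≤ 1 / 2 * κ := by nlinarith
    nlinarith [sq_nonneg s]
  nlinarith

/-- the growth of the potential in one step -/
theorem pot_num {κ κh s ρ S Γ Lm NM c₂ C₁ En UN U' g g' : ℝ} (hκ : 0 ≤ κ) (hs : 0 ≤ s)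
    (hρ : 0 < ρ) (hLm : 0 ≤ Lm) (hc₂ : c₂ = NM * Lm) (hNM : 0 ≤ NM)
    (hC₁ : C₁ = 8 * (c₂ + 1) / ρ) (hS0 : 0 ≤ S)
    (hcκ : c₂ * (κ * s) ≤ 1 / 2) (hEn : 0 ≤ En) (hEn1 : En ≤ ρ / 2) 
    (hU' : U' ≤ UN + En * κ + (1 + NM * U') * Lm * (κ * s))
    (hUN : UN * Real.exp (-(C₁ * g)) ≤ S) (hΓ : Real.exp (-(C₁ * g)) ≤ Γ)
    (hS : Γ * (1 + Lm) ≤ S) (hg : κ * s * (3 / 4 * s - ρ / 8) ≤ g' - g)
    (hκh : s < ρ / 2 → κ ≤ κh) (hκh0 : 0 ≤ κh) (hUN0 : 0 ≤ UN) :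
    U' * Real.exp (-(C₁ * g')) ≤ S * Real.exp ((C₁ * ρ ^ 2 + c₂ * ρ + ρ) * κh) := by
  set x := c₂ * (κ * s) with hx
  have hc0 : 0 ≤ c₂ := by rw [hc₂]; positivity
  have hC0 : 0 ≤ C₁ := by rw [hC₁]; positivity
  have hκs : 0 ≤ κ * s := by positivity
  have hx0 : 0 ≤ x := by positivity
  set A := En * κ + Lm * (κ * s) with hA
  have hA0 : 0 ≤ A := by positivity
  have h1 : U' * (1 - x) ≤ UN + A := by
    rw [hx, hc₂, hA]; nlinarith
  have h2 : 1 ≤ Real.exp (2 * x) * (1 - x) := by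
    have h3 := Real.add_one_le_exp (2 * x)
    have : (1 + 2 * x) * (1 - x) ≤ Real.exp (2 * x) * (1 - x) := by
      apply mul_le_mul_of_nonneg_right _ (by linarith)
      linarith
    nlinarith
  have h3 : U' ≤ Real.exp (2 * x) * (UN + A) := by
    rcases le_or_gt U' 0 with hU | hU
    · exact hU.trans (by positivity)
    · calc U' = U' * 1 := by ring
        _ ≤ U' * (Real.exp (2 * x) * (1 - x)) := by gcongr
        _ = Real.exp (2 * x) * (U' * (1 - x)) := by ring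
        _ ≤ _ := by gcongr
  have hEg := Real.exp_pos (-(C₁ * g))
  have hEg' := Real.exp_pos (-(C₁ * g'))
  have hΓ0 : 0 < Γ := hEg.trans_le hΓ
  have h4 : U' * Real.exp (-(C₁ * g')) ≤
      Real.exp (2 * x - C₁ * (g' - g)) * (S + A * Γ) := by
    calc U' * Real.exp (-(C₁ * g')) ≤ (Real.exp (2 * x) * (UN + A)) * Real.exp (-(C₁ * g')) := by
          gcongr
      _ = Real.exp (2 * x - C₁ * (g' - g)) * (UN * Real.exp (-(C₁ * g)) +
            A * Real.exp (-(C₁ * g))) := by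
          have e1 : Real.exp (-(C₁ * g')) = Real.exp (-(C₁ * (g' - g))) * Real.exp (-(C₁ * g)) := by
            rw [← Real.exp_add]; ring_nf
          have e2 : Real.exp (2 * x - C₁ * (g' - g)) =
              Real.exp (2 * x) * Real.exp (-(C₁ * (g' - g))) := by
            rw [← Real.exp_add]; ring_nf
          rw [e1, e2]; ring
      _ ≤ _ := by gcongr
  refine h4.trans ?_
  rcases le_or_gt (ρ / 2) s with hc | hc
  · -- far case
    have h5 : A * Γ ≤ κ * s * S := by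
      have : A ≤ κ * s * (1 + Lm) := by
        rw [hA]
        have : En * κ ≤ κ * s := by
          calc En * κ ≤ (ρ / 2) * κ := by gcongr
            _ ≤ s * κ := by gcongr
            _ = _ := mul_comm _ _
        nlinarith
      calc A * Γ ≤ κ * s * (1 + Lm) * Γ := by gcongr
        _ = κ * s * (Γ * (1 + Lm)) := by ring
        _ ≤ _ := by gcongr
    have h6 : 2 * (c₂ + 1) * (κ * s) ≤ C₁ * (g' - g) := by
      have h7 : κ * s * (ρ / 4) ≤ g' - g := by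
        refine le_trans ?_ hg
        apply mul_le_mul_of_nonneg_left _ hκs
        linarith
      calc 2 * (c₂ + 1) * (κ * s) = C₁ * (κ * s * (ρ / 4)) := by
            rw [hC₁]; field_simp; ring
        _ ≤ _ := by gcongr
    have h7 : 2 * x - C₁ * (g' - g) ≤ -(2 * (κ * s)) := by
      rw [hx]; linarith
    have h8 : 1 + κ * s ≤ Real.exp (κ * s) := by
      have := Real.add_one_le_exp (κ * s); linarith
    have h9 : 1 ≤ Real.exp ((C₁ * ρ ^ 2 + c₂ * ρ + ρ) * κh) := by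
      apply Real.one_le_exp; positivity
    calc Real.exp (2 * x - C₁ * (g' - g)) * (S + A * Γ)
        ≤ Real.exp (-(2 * (κ * s))) * (S + κ * s * S) := by gcongr
      _ = Real.exp (-(2 * (κ * s))) * (S * (1 + κ * s)) := by ring
      _ ≤ Real.exp (-(2 * (κ * s))) * (S * Real.exp (κ * s)) := by gcongr
      _ = S * Real.exp (-(κ * s)) := by
          have : Real.exp (-(κ * s)) = Real.exp (-(2 * (κ * s))) * Real.exp (κ * s) := by
            rw [← Real.exp_add]; ring_nf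
          rw [this]; ring
      _ ≤ S * 1 := by
          gcongr
          rw [Real.exp_le_one_iff]; linarith
      _ ≤ _ := by gcongr
  · -- near case
    have hk := hκh hc
    have h5 : A * Γ ≤ κ * ρ * S := by
      have : A ≤ κ * (ρ / 2) * (1 + Lm) := by
        rw [hA]
        have h6 : En * κ ≤ (ρ / 2) * κ := by gcongr
        have h7 : Lm * (κ * s) ≤ Lm * (κ * (ρ / 2)) := by gcongr
        nlinarith
      calc A * Γ ≤ κ * (ρ / 2) * (1 + Lm) * Γ := by gcongr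
        _ = κ * (ρ / 2) * (Γ * (1 + Lm)) := by ring
        _ ≤ κ * (ρ / 2) * S := by gcongr
        _ ≤ _ := by
          have : 0 ≤ κ * ρ * S := by positivity
          nlinarith
    have h6 : -(C₁ * (g' - g)) ≤ C₁ * ρ ^ 2 * κ := by
      have h7 : -(κ * ρ ^ 2) ≤ g' - g := by
        refine le_trans ?_ hg
        have h8 : κ * s * (ρ / 8) ≤ κ * (ρ / 2) * (ρ / 8) := by gcongr
        have h9 : 0 ≤ κ * s * (3 / 4 * s) := by positivity
        have h10 : 0 ≤ κ * ρ ^ 2 := by positivity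
        nlinarith
      nlinarith
    have h7 : 2 * x ≤ c₂ * ρ * κ := by
      rw [hx]
      calc 2 * (c₂ * (κ * s)) ≤ 2 * (c₂ * (κ * (ρ / 2))) := by gcongr
        _ = _ := by ring
    have h8 : 1 + κ * ρ ≤ Real.exp (κ * ρ) := by
      have := Real.add_one_le_exp (κ * ρ); linarith
    calc Real.exp (2 * x - C₁ * (g' - g)) * (S + A * Γ)
        ≤ Real.exp (c₂ * ρ * κ + C₁ * ρ ^ 2 * κ) * (S + κ * ρ * S) := by
          gcongr
          linarith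
      _ = Real.exp (c₂ * ρ * κ + C₁ * ρ ^ 2 * κ) * (S * (1 + κ * ρ)) := by ring
      _ ≤ Real.exp (c₂ * ρ * κ + C₁ * ρ ^ 2 * κ) * (S * Real.exp (κ * ρ)) := by gcongr
      _ = S * Real.exp ((C₁ * ρ ^ 2 + c₂ * ρ + ρ) * κ) := by
          rw [mul_left_comm, ← Real.exp_add]; ring_nf
      _ ≤ _ := by gcongr

section Alg

variable {J : Type*} [Fintype J]

/-- comparison of the new vector with the frozen one -/
theorem Uv_move {f' hn hN mn mN : J → ℂ} {ηn ηN : ℂ} {er B D N M : ℝ}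
    (hN' : N = Fintype.card J) (hf : ‖f'‖ ≤ M) (h1 : dot f' hn = 1) (hm : dot f' mn = 1)
    (hh : ‖hn - hN‖ ≤ er) (hη : ‖ηn - ηN‖ ≤ er) (hmN : ‖mN‖ ≤ B)
    (hD : ‖mn - mN‖ ≤ D) :
    ‖Uv hn mn ηn‖ ≤ ‖Uv hN mN ηN‖ + (1 + B) * er + (1 + N * M * ‖Uv hn mn ηn‖) * D := by
  have her : 0 ≤ er := (norm_nonneg _).trans hh
  have hM : 0 ≤ M := (norm_nonneg _).trans hf
  have hD0 : 0 ≤ D := (norm_nonneg _).trans hD
  have e1 : Uv hn mn ηn = Uv hN mN ηN + (hn - hN) + (ηn - ηN) • mN - (1 - ηn) • (mn - mN) := by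
    unfold Uv; module
  have h2 : dot f' (Uv hn mn ηn) = ηn := dot_Uv h1 hm
  have h3 : ‖ηn‖ ≤ N * M * ‖Uv hn mn ηn‖ := by
    rw [← h2, hN']
    refine (norm_dot_le _ _).trans ?_
    rw [h2, mul_assoc]
    gcongr
  have h4 : ‖1 - ηn‖ ≤ 1 + N * M * ‖Uv hn mn ηn‖ := by
    refine (norm_sub_le _ _).trans ?_
    rw [norm_one]; linarith
  have h5 : ‖(1 - ηn) • (mn - mN)‖ ≤ (1 + N * M * ‖Uv hn mn ηn‖) * D := by
    rw [norm_smul]
    have : 0 ≤ 1 + N * M * ‖Uv hn mn ηn‖ := (norm_nonneg _).trans h4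
    gcongr
  have h6 : ‖(ηn - ηN) • mN‖ ≤ er * B := by rw [norm_smul]; gcongr
  calc ‖Uv hn mn ηn‖ = ‖Uv hN mN ηN + (hn - hN) + (ηn - ηN) • mN - (1 - ηn) • (mn - mN)‖ := by
        rw [← e1]
    _ ≤ ‖Uv hN mN ηN‖ + er + er * B + (1 + N * M * ‖Uv hn mn ηn‖) * D := by
        refine (norm_sub_le _ _).trans ?_
        have g1 := norm_add_le (Uv hN mN ηN + (hn - hN)) ((ηn - ηN) • mN)
        have g2 := norm_add_le (Uv hN mN ηN) (hn - hN)
        linarith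
    _ = _ := by ring

/-- normalisation -/
theorem norm_div_sub {f' hn hN : J → ℂ} {er N M P₂ : ℝ} (hN' : N = Fintype.card J)
    (hf : ‖f'‖ ≤ M) (h1 : dot f' hN = 1) (hh : ‖hn - hN‖ ≤ er) (hP : ‖hN‖ ≤ P₂)
    (her : N * M * er ≤ 1 / 2) :
    ‖dot f' hn - 1‖ ≤ N * M * er ∧ ‖(dot f' hn)⁻¹ • hn - hN‖ ≤ (2 + 2 * (N * M * P₂)) * er := by
  have her0 : 0 ≤ er := (norm_nonneg _).trans hh
  have hM : 0 ≤ M := (norm_nonneg _).trans hf
  have hN0 : 0 ≤ N := by rw [hN']; positivity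
  have hP0 : 0 ≤ P₂ := (norm_nonneg _).trans hP
  have h2 : ‖dot f' hn - 1‖ ≤ N * M * er := by
    rw [← h1, ← dot_sub, hN']
    refine (norm_dot_le _ _).trans ?_
    rw [mul_assoc]; gcongr
  refine ⟨h2, ?_⟩
  set σ := dot f' hn with hσ
  have h3 : 1 / 2 ≤ ‖σ‖ := by
    have : ‖(1 : ℂ)‖ ≤ ‖σ‖ + ‖σ - 1‖ := by
      calc ‖(1 : ℂ)‖ = ‖σ - (σ - 1)‖ := by congr 1; ring
        _ ≤ _ := norm_sub_le _ _
    rw [norm_one] at this
    linarith
  have h0 : σ ≠ 0 := by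
    intro h; rw [h, norm_zero] at h3; norm_num at h3
  have h4 : ‖σ⁻¹‖ ≤ 2 := by
    rw [norm_inv]
    exact inv_le_of_inv_le₀ (by norm_num) (by linarith)
  have e1 : σ⁻¹ • hn - hN = σ⁻¹ • ((hn - hN) - (σ - 1) • hN) := by
    have : hN = σ⁻¹ • σ • hN := by rw [smul_smul, inv_mul_cancel₀ h0, one_smul]
    nth_rewrite 1 [this]
    rw [← smul_sub]
    congr 1
    module
  rw [e1, norm_smul]
  have h5 : ‖(hn - hN) - (σ - 1) • hN‖ ≤ er + N * M * er * P₂ := by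
    refine (norm_sub_le _ _).trans ?_
    rw [norm_smul]
    gcongr
  calc ‖σ⁻¹‖ * ‖(hn - hN) - (σ - 1) • hN‖ ≤ 2 * (er + N * M * er * P₂) := by gcongr
    _ = _ := by ring

/-- bounds from the vector `U` -/
theorem bd_of_Uv {f h m : J → ℂ} {η : ℂ} {Um B N M : ℝ} (hN' : N = Fintype.card J)
    (hf : ‖f‖ ≤ M) (h1 : dot f h = 1) (hm : dot f m = 1) (hmB : ‖m‖ ≤ B)
    (hU : ‖Uv h m η‖ ≤ Um) :
    ‖η‖ ≤ N * M * Um ∧ ‖h‖ ≤ Um + (1 + N * M * Um) * B := by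
  have hM : 0 ≤ M := (norm_nonneg _).trans hf
  have h2 : dot f (Uv h m η) = η := dot_Uv h1 hm
  have h3 : ‖η‖ ≤ N * M * Um := by
    rw [← h2, hN']
    refine (norm_dot_le _ _).trans ?_
    rw [mul_assoc]
    gcongr
  refine ⟨h3, ?_⟩
  have e1 : h = Uv h m η + (1 - η) • m := by unfold Uv; module
  have h4 : ‖1 - η‖ ≤ 1 + N * M * Um := by
    refine (norm_sub_le _ _).trans ?_
    rw [norm_one]; linarith
  have h5 : 0 ≤ 1 + N * M * Um := (norm_nonneg _).trans h4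
  rw [e1]
  refine (norm_add_le _ _).trans ?_
  rw [norm_smul]
  gcongr

end Alg

end Pool.Agent.MPca0fc2.SL
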