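import Mathlib
import Pool.Agent.Lib.MP_ca0fc2_an.SDInv
import Pool.Agent.Lib.MP_ca0fc2_an.SLKstep
import Pool.Agent.Lib.MP_ca0fc2_an.SLPot

set_option autoImplicit false

open Metric Set Filter Topology
open scoped InnerProductSpace

namespace Pool.Agent.MPca0fc2.SL

open Pool.Agent.MPca0fc2.SD

variable {J : Type*} [Fintype J] {I : Type*} [Fintype I]
variable {E : Type*} [NormedAddCommGroup E] [InnerProductSpace ℂ E]
variable {W : Type*} [NormedAddCommGroup W] [InnerProductSpace ℂ W]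

/-- the hypotheses of the flow -/
structure FH (P : (E → ℂ) → E → ℂ) (f : J → E → ℂ) (u : E → W) (χ : I → W → ℝ) (c : I → W)
    (s : I → J → E → ℂ) (e : ℕ → ℝ)
    (ρ M B Lc ε CK CE θ N Lm c₂ C₁ Γ P₂ Um Pm Smax : ℝ) (ks kb L K j₁ : ℕ) : Prop where
  gh : GH P u e ρ M ε CK CE θ ks kb L K j₁
  lev : Lev f u ρ M B Lc (M + ρ) χ c s
  inc : IncrBd f u χ s ρ (M + ρ) Pm C₁ CE
  hN : N = Fintype.card J
  hLm : Lm = Fintype.card I * (Lc * B)
  hc₂ : c₂ = N * M * Lm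
  hC₁ : C₁ = 8 * (c₂ + 1) / ρ
  cκ : ∀ j, kb ≤ j → c₂ * (3 * e j) ≤ 1 / 2
  hΓ : Γ = Real.exp (C₁ * ρ ^ 2)
  hP₂ : P₂ = Real.exp (C₁ * ((M + ρ) * (2 * M))) * (Pm + (1 + Pm) * B) + (1 + N * (M *
        (Real.exp (C₁ * ((M + ρ) * (2 * M))) * (Pm + (1 + Pm) * B)))) * B
  hEn : (1 + B) * ((2 + 2 * (N * M * P₂)) * θ) ≤ ρ / 2
  hσ : N * M * θ ≤ 1
  hUm : Smax * Real.exp (C₁ * M ^ 2) ≤ Um
  hPm1 : N * M * Um ≤ Pm
  hPm2 : Um + (1 + N * M * Um) * B ≤ Pm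
  Pm0 : 0 ≤ Pm

/-- the state of the flow -/
structure Stt (f : J → E → ℂ) (u : E → W) (χ : I → W → ℝ)
    (s : I → J → E → ℂ) (e : ℕ → ℝ) (ρ C₁ Pm S : ℝ) (kb L i k : ℕ) (H : J → E → ℂ)
    (η : E → ℂ) : Prop where
  Hhol : ∀ j, DifferentiableOn ℂ (H j) (ball 0 (RR k))
  ηhol : DifferentiableOn ℂ η (ball 0 (RR k))
  one : ∀ z ∈ ball (0 : E) (RR k), dot (fv f k z) (fun j => H j z) = 1
  pot : ∀ z ∈ ball (0 : E) (RR k), 1 ≤ ‖z‖ →
    ‖Uv (fun j => H j z) (mv χ s (bf ρ e u kb L i z) ((rr k : ℂ) • z)) (η z)‖ *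
      Real.exp (-(C₁ * gp (bf ρ e u kb L i z) (u ((rr k : ℂ) • z)))) ≤ S
  Hbd : ∀ z ∈ ball (0 : E) (RR k), ‖(fun j => H j z)‖ ≤ Pm
  ηbd : ∀ z ∈ ball (0 : E) (RR k), ‖η z‖ ≤ Pm

theorem RR_succ_lt (k : ℕ) : RR (k + 1) < RR k := by
  unfold RR; have := half_pow_pos k; rw [pow_succ]; linarith

theorem RR_smul_inv {k : ℕ} (z : E) : (RR k : ℂ) • ((RR k : ℂ)⁻¹ • z) = z := by
  rw [smul_smul, mul_inv_cancel₀ (by exact_mod_cast (RR_pos k).ne'), one_smul]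

theorem norm_RR_inv {k : ℕ} (z : E) : ‖(RR k : ℂ)⁻¹ • z‖ = ‖z‖ / RR k := by
  rw [norm_smul, norm_inv, Complex.norm_real, Real.norm_of_nonneg (RR_pos k).le]
  field_simp

theorem RR_inv_mem {k : ℕ} {z : E} (hz : z ∈ ball (0 : E) (RR k)) :
    (RR k : ℂ)⁻¹ • z ∈ ball (0 : E) 1 := by
  rw [mem_ball_zero_iff] at hz ⊢
  rw [norm_RR_inv, div_lt_one (RR_pos k)]; exact hz

theorem annulus {k : ℕ} {z : E} (h1 : 1 ≤ ‖z‖) (h2 : ‖z‖ < RR (k + 1)) :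
    1 - (1 / 2) ^ k / 8 ≤ ‖(RR k : ℂ)⁻¹ • z‖ ∧ ‖(RR k : ℂ)⁻¹ • z‖ ≤ 1 - (1 / 2) ^ k / 40 := by
  have ht := half_pow_pos k
  have ht1 := half_pow_le_one k
  rw [norm_RR_inv, le_div_iff₀ (RR_pos k), div_le_iff₀ (RR_pos k)]
  unfold RR at *
  rw [pow_succ] at h2
  constructor
  · nlinarith
  · nlinarith

theorem max_ball' [Nontrivial E] {G : E → ℂ} {k : ℕ} {C : ℝ}
    (hG : DifferentiableOn ℂ G (ball 0 (RR k)))
    (hC : ∀ z ∈ ball (0 : E) (RR k), 1 ≤ ‖z‖ → ‖G z‖ ≤ C) :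
    ∀ z ∈ ball (0 : E) (RR k), ‖G z‖ ≤ C := by
  intro z hz
  rcases le_or_gt 1 ‖z‖ with h1 | h1
  · exact hC z hz h1
  · refine max_ball (one_lt_RR k) hG ?_ h1.le
    intro w hw
    apply hC w _ hw.ge
    rw [mem_ball_zero_iff, hw]; exact one_lt_RR k

namespace FH

variable {P : (E → ℂ) → E → ℂ} {f : J → E → ℂ} {u : E → W} {χ : I → W → ℝ} {c : I → W}
    {s : I → J → E → ℂ} {e : ℕ → ℝ}
    {ρ M B Lc ε CK CE θ N Lm c₂ C₁ Γ P₂ Um Pm Smax : ℝ} {ks kb L K j₁ : ℕ}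

/-- the step before the normalisation -/
theorem pre (h : FH P f u χ c s e ρ M B Lc ε CK CE θ N Lm c₂ C₁ Γ P₂ Um Pm Smax ks kb L K j₁)
    {i k : ℕ} (hk : k = kb + L + K + i) {H : J → E → ℂ} {η : E → ℂ} {S : ℝ}
    (hs : Stt f u χ s e ρ C₁ Pm S kb L i k H η) :
    ∃ (Hn : J → E → ℂ) (ηn : E → ℂ), (∀ j, DifferentiableOn ℂ (Hn j) (ball 0 (RR k))) ∧
      DifferentiableOn ℂ ηn (ball 0 (RR k)) ∧
      ∀ z ∈ ball (0 : E) (RR (k + 1)), 1 ≤ ‖z‖ →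
        ‖(fun j => Hn j z) - NH f u χ s C₁ k H η (bf ρ e u kb L i z) z‖ ≤
          θ * kf ρ e u kb L i z ∧
        ‖ηn z - Nη f u χ s C₁ k H η (bf ρ e u kb L i z) z‖ ≤ θ * kf ρ e u kb L i z := by
  have hlev := h.lev
  have hρ := hlev.ρ0
  have hM := hlev.M0
  have hB := hlev.B0
  have hc₂0 : 0 ≤ c₂ := by
    have := hlev.L0
    rw [h.hc₂, h.hLm, h.hN]; positivity
  have hC₁0 : 0 ≤ C₁ := by rw [h.hC₁]; positivity
  have hPm := h.Pm0
  -- facts at a point of the ball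
  have hone : ∀ w ∈ ball (0 : E) 1, dot (fv f k ((RR k : ℂ) • w))
      (fun j => H j ((RR k : ℂ) • w)) = 1 := fun w hw => hs.one _ (RR_smul_mem hw)
  have hHb : ∀ w ∈ ball (0 : E) 1, ‖(fun j => H j ((RR k : ℂ) • w))‖ ≤ Pm :=
    fun w hw => hs.Hbd _ (RR_smul_mem hw)
  have hηb : ∀ w ∈ ball (0 : E) 1, ‖η ((RR k : ℂ) • w)‖ ≤ Pm :=
    fun w hw => hs.ηbd _ (RR_smul_mem hw)
  have hinc := fun (w : E) (β : W) (hβ : ‖β‖ ≤ M + ρ) (hw : w ∈ Nr u ρ k β) =>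
    h.inc k H η w β (mem_ball_zero_iff.mp hw.1) hβ hw.2.1 hw.2.2 (hone w hw.1) (hHb w hw.1)
      (hηb w hw.1)
  have hNb := fun (w : E) (β : W) (hβ : ‖β‖ ≤ M + ρ) (hw : w ∈ Nr u ρ k β) =>
    N_bd hlev hC₁0 hPm hβ hw (hHb w hw.1) (hηb w hw.1)
  have hbc : ContinuousOn (fun w : E => bf ρ e u kb L i ((RR k : ℂ) • w)) (ball 0 1) := by
    have h1 := FC.bf_cont (ρ := ρ) (e := e) (u := u) (kb := kb) (L := L) hlev.uhol (k := k) (i := i)
      (by omega)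
    apply h1.comp (by fun_prop)
    intro w hw
    rw [mem_closedBall_zero_iff]
    exact RR_smul_le hw
  have hn : ∀ w ∈ ball (0 : E) 1, w ∈ Nr u ρ k (bf ρ e u kb L i ((RR k : ℂ) • w)) :=
    fun w hw => h.gh.mem_Nr hk hw
  -- the vector part
  have hH : ∀ j, ∃ G : E → ℂ, DifferentiableOn ℂ G (ball 0 1) ∧ ∀ x : E,
      1 - (1 / 2) ^ k / 8 ≤ ‖x‖ → ‖x‖ ≤ 1 - (1 / 2) ^ k / 40 →
      ‖G x - (NH f u χ s C₁ k H η (bf ρ e u kb L i ((RR k : ℂ) • x)) ((RR k : ℂ) • x) j -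
        H j ((RR k : ℂ) • x))‖ ≤ θ * kf ρ e u kb L i ((RR k : ℂ) • x) := by
    intro j
    have h1 := h.gh.ker_step hk (Λ := fun β z => NH f u χ s C₁ k H η β z j) (g := H j)
      (MΦ := Real.exp (C₁ * ((M + ρ) * (2 * M))) * (Pm + (1 + Pm) * B) + (1 + Fintype.card J *
        (M * (Real.exp (C₁ * ((M + ρ) * (2 * M))) * (Pm + (1 + Pm) * B)))) * B + Pm)
      (η_diff (hs.Hhol j))
      (fun β => differentiableOn_pi.mp (NH_diff hlev C₁ hs.Hhol hs.ηhol β) j)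
      (continuousOn_pi.mp (NH_cont hlev C₁ hs.Hhol hs.ηhol hbc hn) j) ?_ ?_ ?_
    · exact ⟨_, h1.1, h1.2⟩
    · intro β hβ w hw
      refine (norm_sub_le _ _).trans (add_le_add ?_ ?_)
      · exact (norm_le_pi_norm _ j).trans (hNb w β hβ hw).2
      · exact (norm_le_pi_norm (fun j => H j ((RR k : ℂ) • w)) j).trans (hHb w hw.1)
    · intro β hβ w hw
      refine le_trans ?_ (hinc w β hβ hw).1.2
      have hw1 : 0 ≤ 1 - ‖w‖ ^ 2 := by
        have := mem_ball_zero_iff.mp hw.1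
        nlinarith only [norm_nonneg w, this]
      apply mul_le_mul_of_nonneg_left _ hw1
      exact norm_le_pi_norm (NH f u χ s C₁ k H η β ((RR k : ℂ) • w) -
        (fun j => H j ((RR k : ℂ) • w))) j
    · intro β β' hβ hβ' w hw hw'
      refine le_trans ?_ ((hinc w β hβ hw).2 β' hβ' hw'.2.1 hw'.2.2).2
      have hw1 : 0 ≤ 1 - ‖w‖ ^ 2 := by
        have := mem_ball_zero_iff.mp hw.1
        nlinarith only [norm_nonneg w, this]
      apply mul_le_mul_of_nonneg_left _ hw1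
      exact norm_le_pi_norm (NH f u χ s C₁ k H η β ((RR k : ℂ) • w) -
        NH f u χ s C₁ k H η β' ((RR k : ℂ) • w)) j
  have hη : ∃ G : E → ℂ, DifferentiableOn ℂ G (ball 0 1) ∧ ∀ x : E,
      1 - (1 / 2) ^ k / 8 ≤ ‖x‖ → ‖x‖ ≤ 1 - (1 / 2) ^ k / 40 →
      ‖G x - (Nη f u χ s C₁ k H η (bf ρ e u kb L i ((RR k : ℂ) • x)) ((RR k : ℂ) • x) -
        η ((RR k : ℂ) • x))‖ ≤ θ * kf ρ e u kb L i ((RR k : ℂ) • x) := by
    have h1 := h.gh.ker_step hk (Λ := fun β z => Nη f u χ s C₁ k H η β z) (g := η)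
      (MΦ := Fintype.card J * (M *
        (Real.exp (C₁ * ((M + ρ) * (2 * M))) * (Pm + (1 + Pm) * B))) + Pm)
      (η_diff hs.ηhol)
      (fun β => Nη_diff hlev C₁ hs.Hhol hs.ηhol β)
      (Nη_cont hlev C₁ hs.Hhol hs.ηhol hbc hn) ?_ ?_ ?_
    · exact ⟨_, h1.1, h1.2⟩
    · intro β hβ w hw
      exact (norm_sub_le _ _).trans (add_le_add (hNb w β hβ hw).1 (hηb w hw.1))
    · intro β hβ w hw
      exact (hinc w β hβ hw).1.1
    · intro β β' hβ hβ' w hw hw'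
      exact ((hinc w β hβ hw).2 β' hβ' hw'.2.1 hw'.2.2).1
  choose GH hG1 hG2 using hH
  obtain ⟨Gη, hg1, hg2⟩ := hη
  have hcomp : ∀ G : E → ℂ, DifferentiableOn ℂ G (ball 0 1) →
      DifferentiableOn ℂ (fun z => G ((RR k : ℂ)⁻¹ • z)) (ball 0 (RR k)) := by
    intro G hG
    apply hG.comp (differentiable_id.const_smul ((RR k : ℂ)⁻¹)).differentiableOn
    intro z hz
    exact RR_inv_mem hz
  refine ⟨fun j z => H j z + GH j ((RR k : ℂ)⁻¹ • z), fun z => η z + Gη ((RR k : ℂ)⁻¹ • z),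
    fun j => (hs.Hhol j).add (hcomp _ (hG1 j)), hs.ηhol.add (hcomp _ hg1), ?_⟩
  intro z hz hz1
  obtain ⟨ha1, ha2⟩ := annulus hz1 (mem_ball_zero_iff.mp hz)
  have hκ0 : 0 < kf ρ e u kb L i z := h.gh.fc.kf_pos u i z
  have hθ0 : 0 ≤ θ := by
    rw [h.gh.hθ]
    have := h.gh.ker.pos
    have := h.gh.CE0
    positivity
  constructor
  · rw [pi_norm_le_iff_of_nonneg (by positivity)]
    intro j
    have h1 := hG2 j _ ha1 ha2
    rw [RR_smul_inv] at h1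
    simp only [Pi.sub_apply]
    refine le_trans (le_of_eq ?_) h1
    congr 1
    ring
  · have h1 := hg2 _ ha1 ha2
    rw [RR_smul_inv] at h1
    refine le_trans (le_of_eq ?_) h1
    congr 1
    ring

/-- one step of the flow -/
theorem step [Nontrivial E]
    (h : FH P f u χ c s e ρ M B Lc ε CK CE θ N Lm c₂ C₁ Γ P₂ Um Pm Smax ks kb L K j₁)
    {i k : ℕ} (hk : k = kb + L + K + i) {H : J → E → ℂ} {η : E → ℂ} {S κh : ℝ}
    (hs : Stt f u χ s e ρ C₁ Pm S kb L i k H η) (hS : Γ * (1 + Lm) ≤ S)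
    (hκh : κh = 3 * e (kb + L + i) / ρ * Real.exp (-(a₀ / e (kb + L + i)) * (ρ / 2)))
    (hS' : S * Real.exp ((C₁ * ρ ^ 2 + c₂ * ρ + ρ) * κh) ≤ Smax) :
    ∃ (H' : J → E → ℂ) (η' : E → ℂ), Stt f u χ s e ρ C₁ Pm
      (S * Real.exp ((C₁ * ρ ^ 2 + c₂ * ρ + ρ) * κh)) kb L (i + 1) (k + 1) H' η' := by
  obtain ⟨Hn, ηn, hHn, hηn, hest⟩ := h.pre hk hs
  have hlev := h.lev
  have hρ := hlev.ρ0
  have hM := hlev.M0
  have hB := hlev.B0
  have hLc := hlev.L0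
  have hN0 : 0 ≤ N := by rw [h.hN]; positivity
  have hLm0 : 0 ≤ Lm := by rw [h.hLm]; positivity
  have hc₂0 : 0 ≤ c₂ := by rw [h.hc₂]; positivity
  have hC₁0 : 0 ≤ C₁ := by rw [h.hC₁]; positivity
  have hPm := h.Pm0
  have hθ0 : 0 ≤ θ := by
    rw [h.gh.hθ]
    have := h.gh.ker.pos
    have := h.gh.CE0
    positivity
  have hP₂0 : 0 ≤ P₂ := by rw [h.hP₂]; positivity
  have he0 : 0 < e (kb + L + i) := h.gh.fc.pos (by omega)
  have hes := h.gh.fc.small (kb + L + i) (by omega)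
  have ha0 : (0 : ℝ) < a₀ := by norm_num [a₀]
  have hκh0 : 0 ≤ κh := by rw [hκh]; positivity
  have hΓ0 : 0 < Γ := by rw [h.hΓ]; exact Real.exp_pos _
  have hS0 : 0 ≤ S := by
    refine le_trans ?_ hS
    positivity
  have hk' : k + 1 = kb + L + K + (i + 1) := by omega
  have hsub : ball (0 : E) (RR (k + 1)) ⊆ ball 0 (RR k) := ball_subset_ball (RR_succ_lt k).le
  -- facts at a point
  have hbb : ∀ z ∈ ball (0 : E) (RR (k + 1)), ‖z‖ ≤ RR k := fun z hz =>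
    (mem_ball_zero_iff.mp (hsub hz)).le
  have hβ : ∀ z ∈ ball (0 : E) (RR (k + 1)), ‖bf ρ e u kb L i z‖ ≤ M + ρ := fun z hz =>
    h.gh.fc.norm_bf_le h.gh.osc h.gh.hM (k := k) (by omega) (hbb z hz)
  have hβ' : ∀ z ∈ ball (0 : E) (RR (k + 1)), ‖bf ρ e u kb L (i + 1) z‖ ≤ M + ρ := fun z hz =>
    h.gh.fc.norm_bf_le h.gh.osc h.gh.hM (k := k + 1) (by omega) (mem_ball_zero_iff.mp hz).le
  have hm1 : ∀ z ∈ ball (0 : E) (RR (k + 1)), (rr k : ℂ) • z ∈ ball (0 : E) 1 := fun z hz =>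
    FC.mem_ball k k (by omega) (hbb z hz)
  have hm2 : ∀ z ∈ ball (0 : E) (RR (k + 1)), (rr (k + 1) : ℂ) • z ∈ ball (0 : E) 1 := fun z hz =>
    FC.mem_ball k (k + 1) le_rfl (hbb z hz)
  have hf' : ∀ z ∈ ball (0 : E) (RR (k + 1)), ‖fv f (k + 1) z‖ ≤ M := by
    intro z hz
    rw [pi_norm_le_iff_of_nonneg hM.le]
    intro j; exact hlev.fbd j _ (hm2 z hz)
  have hκle : ∀ z ∈ ball (0 : E) (RR (k + 1)), kf ρ e u kb L i z ≤ 3 * e (kb + L + i) / ρ :=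
    fun z hz => h.gh.fc.kf_le h.gh.osc (k := k) (by omega) (hbb z hz)
  have hκ2 : 3 * e (kb + L + i) / ρ ≤ 1 / 2 := by
    rw [div_le_iff₀ hρ]; linarith
  have hκ0 : ∀ z, 0 < kf ρ e u kb L i z := fun z => h.gh.fc.kf_pos u i z
  -- the frozen step at a point
  have hNone : ∀ z ∈ ball (0 : E) (RR (k + 1)),
      dot (fv f (k + 1) z) (NH f u χ s C₁ k H η (bf ρ e u kb L i z) z) = 1 := by
    intro z hz
    have h1 := (h.gh.near hk (hbb z hz)).2.1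
    exact dot_hv (hlev.dot_mv (hβ z hz) (hm2 z hz) (by linarith))
  have hNb : ∀ z ∈ ball (0 : E) (RR (k + 1)),
      ‖NH f u χ s C₁ k H η (bf ρ e u kb L i z) z‖ ≤ P₂ := by
    intro z hz
    have hx := RR_inv_mem (hsub hz)
    have h1 : (RR k : ℂ)⁻¹ • z ∈ Nr u ρ k (bf ρ e u kb L i z) := by
      have := h.gh.mem_Nr hk hx
      rwa [RR_smul_inv] at this
    have h2 := (N_bd hlev hC₁0 hPm (hβ z hz) h1 (H := H) (η := η)
      (by rw [RR_smul_inv]; exact hs.Hbd z (hsub hz))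
      (by rw [RR_smul_inv]; exact hs.ηbd z (hsub hz))).2
    rw [RR_smul_inv] at h2
    rw [h.hP₂, h.hN]
    exact h2
  -- the normalising factor
  set σ : E → ℂ := fun z => dot (fv f (k + 1) z) (fun j => Hn j z) with hσ
  have hfd : DifferentiableOn ℂ (fun z : E => fv f (k + 1) z) (ball 0 (RR (k + 1))) := by
    rw [differentiableOn_pi]
    intro j
    apply (hlev.fhol j).comp
    · exact (differentiable_id.const_smul (rr (k + 1) : ℂ)).differentiableOn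
    · intro z hz
      exact hm2 z hz
  have hHnd : DifferentiableOn ℂ (fun z : E => (fun j => Hn j z)) (ball 0 (RR (k + 1))) := by
    rw [differentiableOn_pi]
    intro j
    exact (hHn j).mono hsub
  have hσd : DifferentiableOn ℂ σ (ball 0 (RR (k + 1))) := dot_diffOn hfd hHnd
  have her : ∀ z ∈ ball (0 : E) (RR (k + 1)), N * M * (θ * kf ρ e u kb L i z) ≤ 1 / 2 := by
    intro z hz
    have h1 := hκle z hz
    have h2 := (hκ0 z).le
    have h3 : kf ρ e u kb L i z ≤ 1 / 2 := h1.trans hκ2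
    have h4 : 0 ≤ N * M * θ := by positivity
    calc N * M * (θ * kf ρ e u kb L i z) = (N * M * θ) * kf ρ e u kb L i z := by ring
      _ ≤ 1 * (1 / 2) := mul_le_mul h.hσ h3 h2 (by norm_num)
      _ = _ := by norm_num
  have hnd : ∀ z ∈ ball (0 : E) (RR (k + 1)), 1 ≤ ‖z‖ →
      ‖σ z - 1‖ ≤ N * M * (θ * kf ρ e u kb L i z) ∧
      ‖(σ z)⁻¹ • (fun j => Hn j z) - NH f u χ s C₁ k H η (bf ρ e u kb L i z) z‖ ≤
        (2 + 2 * (N * M * P₂)) * (θ * kf ρ e u kb L i z) := fun z hz hz1 =>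
    norm_div_sub h.hN (hf' z hz) (hNone z hz) (hest z hz hz1).1 (hNb z hz) (her z hz)
  have hσ1 : ∀ z ∈ ball (0 : E) (RR (k + 1)), ‖σ z - 1‖ ≤ 1 / 2 := by
    apply max_ball' (hσd.sub_const 1)
    intro z hz hz1
    exact (hnd z hz hz1).1.trans (her z hz)
  have hσ0 : ∀ z ∈ ball (0 : E) (RR (k + 1)), σ z ≠ 0 := by
    intro z hz h0
    have := hσ1 z hz
    rw [h0, zero_sub, norm_neg, norm_one] at this
    norm_num at this
  have hH'd : ∀ j, DifferentiableOn ℂ (fun z => (σ z)⁻¹ * Hn j z) (ball 0 (RR (k + 1))) :=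
    fun j => (hσd.inv hσ0).mul ((hHn j).mono hsub)
  have hvec : ∀ z, (fun j => (σ z)⁻¹ * Hn j z) = (σ z)⁻¹ • (fun j => Hn j z) := fun z => rfl
  have hone' : ∀ z ∈ ball (0 : E) (RR (k + 1)),
      dot (fv f (k + 1) z) (fun j => (σ z)⁻¹ * Hn j z) = 1 := by
    intro z hz
    rw [hvec, dot_smul]
    exact inv_mul_cancel₀ (hσ0 z hz)
  -- the potential
  have hmn : ∀ z ∈ ball (0 : E) (RR (k + 1)), ‖u ((rr (k + 1) : ℂ) • z) -
      bf ρ e u kb L (i + 1) z‖ < 3 * ρ := by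
    intro z hz
    have := (h.gh.near hk' (mem_ball_zero_iff.mp hz).le).1
    linarith
  have hpot : ∀ z ∈ ball (0 : E) (RR (k + 1)), 1 ≤ ‖z‖ →
      ‖Uv (fun j => (σ z)⁻¹ * Hn j z) (mv χ s (bf ρ e u kb L (i + 1) z)
        ((rr (k + 1) : ℂ) • z)) (ηn z)‖ * Real.exp (-(C₁ * gp (bf ρ e u kb L (i + 1) z)
        (u ((rr (k + 1) : ℂ) • z)))) ≤ S * Real.exp ((C₁ * ρ ^ 2 + c₂ * ρ + ρ) * κh) := by
    intro z hz hz1
    have hnear := h.gh.near hk (hbb z hz)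
    have hbs := bf_succ ρ e u kb L i z
    have hse := sf_eq ρ e u kb L i z
    have hsρ := h.gh.fc.sf_le h.gh.osc (k := k) (i := i) (by omega) (hbb z hz)
    have hs0 : 0 ≤ sf ρ e u kb L i z := by rw [hse]; exact norm_nonneg _
    set κ := kf ρ e u kb L i z with hκ
    have hκ0' : 0 < κ := hκ0 z
    set sd := sf ρ e u kb L i z with hsd
    have hκz := hκle z hz
    have hκs : κ * sd ≤ 3 * e (kb + L + i) := by
      calc κ * sd ≤ 3 * e (kb + L + i) / ρ * ρ := by gcongr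
        _ = _ := by field_simp
    have hDβ : ‖bf ρ e u kb L (i + 1) z - bf ρ e u kb L i z‖ = κ * sd := by
      rw [hbs, add_sub_cancel_left, norm_smul, Real.norm_of_nonneg hκ0'.le, ← hse]
    have hD : ‖mv χ s (bf ρ e u kb L (i + 1) z) ((rr (k + 1) : ℂ) • z) -
        mv χ s (bf ρ e u kb L i z) ((rr (k + 1) : ℂ) • z)‖ ≤ Lm * (κ * sd) := by
      refine (hlev.mv_sub (hm2 z hz) (hmn z hz) (by linarith [hnear.2.1])).trans ?_
      rw [hDβ, h.hLm]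
      apply le_of_eq; ring
    have hmove := Uv_move h.hN (hf' z hz) (hone' z hz)
      (hlev.dot_mv (hβ' z hz) (hm2 z hz) (hmn z hz)) (hN := NH f u χ s C₁ k H η
        (bf ρ e u kb L i z) z) (mN := mv χ s (bf ρ e u kb L i z) ((rr (k + 1) : ℂ) • z))
      (ηn := ηn z) (ηN := Nη f u χ s C₁ k H η (bf ρ e u kb L i z) z)
      (er := (2 + 2 * (N * M * P₂)) * (θ * κ)) (B := B)
      (by rw [hvec]; exact (hnd z hz hz1).2)
      (by
        refine (hest z hz hz1).2.trans ?_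
        have h1 : 0 ≤ N * M * P₂ := by positivity
        have h2 : 0 ≤ θ * κ := by positivity
        have h3 := mul_nonneg h1 h2
        nlinarith only [h1, h2, h3])
      (hlev.norm_mv_le (hβ z hz) (hm2 z hz) (by linarith [hnear.2.1])) hD
    rw [NH, Nη, Uv_hv, norm_smul] at hmove
    set U₀ := ‖Uv (fun j => H j z) (mv χ s (bf ρ e u kb L i z) ((rr k : ℂ) • z)) (η z)‖ with hU₀
    have hXn : ‖Xv u C₁ k (bf ρ e u kb L i z) z‖ = Real.exp (C₁ *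
        (gp (bf ρ e u kb L i z) (u ((rr (k + 1) : ℂ) • z)) -
        gp (bf ρ e u kb L i z) (u ((rr k : ℂ) • z)))) := by
      rw [Xv, Complex.norm_exp, gp_sub, Complex.re_ofReal_mul]
    have hpn := pot_num (κ := κ) (κh := κh) (s := sd) (ρ := ρ) (S := S) (Γ := Γ) (Lm := Lm)
      (NM := N * M) (c₂ := c₂) (C₁ := C₁) (En := (1 + B) * ((2 + 2 * (N * M * P₂)) * θ))
      (UN := ‖Xv u C₁ k (bf ρ e u kb L i z) z‖ * U₀)
      (U' := ‖Uv (fun j => (σ z)⁻¹ * Hn j z) (mv χ s (bf ρ e u kb L (i + 1) z)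
        ((rr (k + 1) : ℂ) • z)) (ηn z)‖)
      (g := gp (bf ρ e u kb L i z) (u ((rr (k + 1) : ℂ) • z)))
      (g' := gp (bf ρ e u kb L (i + 1) z) (u ((rr (k + 1) : ℂ) • z)))
      hκ0'.le hs0 hρ hLm0 h.hc₂ (by positivity) h.hC₁ hS0 ?_ (by positivity) h.hEn ?_ ?_ ?_ hS ?_
      ?_ hκh0 (by positivity)
    · exact hpn
    · calc c₂ * (κ * sd) ≤ c₂ * (3 * e (kb + L + i)) := by gcongr
        _ ≤ _ := h.cκ _ (by omega)
    · refine hmove.trans (le_of_eq ?_)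
      ring
    · have h1 := hs.pot z (hsub hz) hz1
      rw [← hU₀] at h1
      refine le_trans (le_of_eq ?_) h1
      rw [hXn, mul_assoc, mul_comm, mul_assoc, ← Real.exp_add]
      congr 2
      ring
    · rw [h.hΓ]
      apply Real.exp_le_exp.mpr
      have h1 := neg_gp_le (bf ρ e u kb L i z) (u ((rr (k + 1) : ℂ) • z))
      have h2 := hnear.2.1
      have h3 : ‖u ((rr (k + 1) : ℂ) • z) - bf ρ e u kb L i z‖ ^ 2 ≤ (1.125 * ρ) ^ 2 :=
        pow_le_pow_left₀ (norm_nonneg _) h2 2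
      have h4 : -gp (bf ρ e u kb L i z) (u ((rr (k + 1) : ℂ) • z)) ≤ ρ ^ 2 := by
        nlinarith only [h1, h3, sq_nonneg ρ]
      calc _ = C₁ * -gp (bf ρ e u kb L i z) (u ((rr (k + 1) : ℂ) • z)) := by ring
        _ ≤ _ := by gcongr
    · have h1 := gp_move (β := bf ρ e u kb L i z) (υ := u ((rr (k + 1) : ℂ) • z))
        (v := u ((rr (kb + L + i + 1) : ℂ) • z)) (ρ := ρ) hκ0'.le (hκz.trans hκ2) hnear.2.2
      rw [← hse, ← hbs] at h1
      exact h1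
    · intro hsm
      rw [hκh, hκ, kf, kp]
      have h5 : 0 ≤ a₀ / e (kb + L + i) := by positivity
      have h6 : Real.exp (-(a₀ / e (kb + L + i)) * (ρ - sf ρ e u kb L i z)) ≤
          Real.exp (-(a₀ / e (kb + L + i)) * (ρ / 2)) := by
        apply Real.exp_le_exp.mpr
        rw [← hsd]
        have h7 := mul_le_mul_of_nonneg_left (show ρ / 2 ≤ ρ - sd by linarith) h5
        linarith only [h7]
      gcongr
  -- the bounds
  have hUm : ∀ z ∈ ball (0 : E) (RR (k + 1)), 1 ≤ ‖z‖ →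
      ‖Uv (fun j => (σ z)⁻¹ * Hn j z) (mv χ s (bf ρ e u kb L (i + 1) z)
        ((rr (k + 1) : ℂ) • z)) (ηn z)‖ ≤ Um := by
    intro z hz hz1
    have h1 := hpot z hz hz1
    set U' := ‖Uv (fun j => (σ z)⁻¹ * Hn j z) (mv χ s (bf ρ e u kb L (i + 1) z)
        ((rr (k + 1) : ℂ) • z)) (ηn z)‖
    set g' := gp (bf ρ e u kb L (i + 1) z) (u ((rr (k + 1) : ℂ) • z)) with hg'
    have h2 : C₁ * g' ≤ C₁ * M ^ 2 := by
      apply mul_le_mul_of_nonneg_left _ hC₁0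
      have h3 := gp_le (bf ρ e u kb L (i + 1) z) (u ((rr (k + 1) : ℂ) • z))
      have h4 := hlev.ubd _ (hm2 z hz)
      have h5 : ‖u ((rr (k + 1) : ℂ) • z)‖ ^ 2 ≤ M ^ 2 := pow_le_pow_left₀ (norm_nonneg _) h4 2
      rw [← hg'] at h3
      nlinarith only [h3, h5, sq_nonneg M]
    refine le_trans ?_ h.hUm
    calc U' = U' * Real.exp (-(C₁ * g')) * Real.exp (C₁ * g') := by
          rw [mul_assoc, ← Real.exp_add, neg_add_cancel, Real.exp_zero, mul_one]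
      _ ≤ Smax * Real.exp (C₁ * M ^ 2) := by
          apply mul_le_mul (h1.trans hS') (Real.exp_le_exp.mpr h2) (Real.exp_pos _).le
          exact (mul_nonneg hS0 (Real.exp_pos _).le).trans hS'
  have hbd : ∀ z ∈ ball (0 : E) (RR (k + 1)), 1 ≤ ‖z‖ →
      ‖ηn z‖ ≤ Pm ∧ ‖(fun j => (σ z)⁻¹ * Hn j z)‖ ≤ Pm := by
    intro z hz hz1
    have h1 := bd_of_Uv h.hN (hf' z hz) (hone' z hz)
      (hlev.dot_mv (hβ' z hz) (hm2 z hz) (hmn z hz))
      (hlev.norm_mv_le (hβ' z hz) (hm2 z hz) (hmn z hz)) (hUm z hz hz1)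
    exact ⟨h1.1.trans h.hPm1, h1.2.trans h.hPm2⟩
  refine ⟨fun j z => (σ z)⁻¹ * Hn j z, ηn, hH'd, hηn.mono hsub, hone', hpot, ?_, ?_⟩
  · intro z hz
    rw [pi_norm_le_iff_of_nonneg hPm]
    intro j
    exact max_ball' (hH'd j) (fun w hw hw1 =>
      (norm_le_pi_norm (fun j => (σ w)⁻¹ * Hn j w) j).trans (hbd w hw hw1).2) z hz
  · exact max_ball' (hηn.mono hsub) (fun w hw hw1 => (hbd w hw hw1).1)

end FH

end Pool.Agent.MPca0fc2.SL
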