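import Mathlib
import Pool.Agent.Lib.MP_ca0fc2_an.Mg.G073
import Pool.Agent.Lib.MP_ca0fc2_an.CXPFlow

/-!
# The limit of the flow in the abstract geometry
-/

set_option autoImplicit false

open Metric Set Filter Topology
open scoped InnerProductSpace

namespace Pool.Agent.MPca0fc2.CXP

open Pool.Agent.MPca0fc2.SD Pool.Agent.MPca0fc2.SL Pool.Agent.MPca0fc2.CX

variable {J : Type*} [Fintype J] {I : Type*} [Fintype I]
variable {E : Type*} [NormedAddCommGroup E] [InnerProductSpace ℂ E]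
variable {W : Type*} [NormedAddCommGroup W] [InnerProductSpace ℂ W] {𝓖 : Geo E}

/-- dilated solutions give a solution -/
theorem dilation_limit [FiniteDimensional ℂ E] {f : J → E → ℂ}
    (hf : ∀ j, DifferentiableOn ℂ (f j) (𝓖.B 1)) {Pm : ℝ} (hPm : 0 ≤ Pm) (k₀ : ℕ)
    (h : ∀ i : ℕ, ∃ H : J → E → ℂ, (∀ j, DifferentiableOn ℂ (H j) (𝓖.B 1)) ∧
      (∀ z ∈ 𝓖.B 1, ‖(fun j => H j z)‖ ≤ Pm) ∧
      ∀ z ∈ 𝓖.B 1, dot (fv f (k₀ + i) z) (fun j => H j z) = 1) :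
    ∃ h : J → E → ℂ, (∀ j, DifferentiableOn ℂ (h j) (𝓖.B 1)) ∧
      (∀ j, ∀ z ∈ 𝓖.B 1, ‖h j z‖ ≤ Pm) ∧
      ∀ z ∈ 𝓖.B 1, ∑ j, f j z * h j z = 1 := by
  choose H hH1 hH2 hH3 using h
  set 𝒰 : Ultrafilter ℕ := Ultrafilter.of atTop with h𝒰
  have hle : (𝒰 : Filter ℕ) ≤ atTop := Ultrafilter.of_le _
  have key : ∀ j, ∃ g : E → ℂ, DifferentiableOn ℂ g (𝓖.B 1) ∧
      (∀ z ∈ 𝓖.B 1, ‖g z‖ ≤ Pm) ∧
      ∀ z ∈ 𝓖.B 1, Tendsto (fun i => H i j z) 𝒰 (𝓝 (g z)) := fun j =>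
    ultra_holo 𝒰 (G := fun i => H i j) (𝓖.isOpen_B 1) hPm (fun i => hH1 i j) (fun i z hz =>
      (norm_le_pi_norm (fun j => H i j z) j).trans (hH2 i z hz))
  choose g hg1 hg2 hg3 using key
  refine ⟨g, hg1, hg2, ?_⟩
  intro z hz
  have h1 : Tendsto (fun i => ∑ j, f j ((rr (k₀ + i) : ℂ) • z) * H i j z) 𝒰
      (𝓝 (∑ j, f j z * g j z)) := by
    apply tendsto_finsetSum
    intro j _
    apply Tendsto.mul _ (hg3 j z hz)
    have h2 : Tendsto (fun i : ℕ => (rr (k₀ + i) : ℂ) • z) atTop (𝓝 z) := by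
      have h3 : Tendsto (fun i : ℕ => ((rr (k₀ + i) : ℝ) : ℂ)) atTop (𝓝 ((1 : ℝ) : ℂ)) :=
        (Complex.continuous_ofReal.tendsto 1).comp (rr_tends k₀)
      have h4 := h3.smul_const z
      rwa [Complex.ofReal_one, one_smul] at h4
    have h5 : ContinuousAt (f j) z :=
      ((hf j).differentiableAt ((𝓖.isOpen_B 1).mem_nhds hz)).continuousAt
    exact (h5.tendsto.comp h2).mono_left hle
  have h2 : Tendsto (fun i => ∑ j, f j ((rr (k₀ + i) : ℂ) • z) * H i j z) 𝒰 (𝓝 1) := by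
    refine tendsto_const_nhds.congr fun i => ?_
    exact (hH3 i z hz).symm
  exact tendsto_nhds_unique h1 h2

namespace FH

variable {P : (E → ℂ) → E → ℂ} {f : J → E → ℂ} {u : E → W} {χ : I → W → ℝ} {c : I → W}
    {s : I → J → E → ℂ} {e : ℕ → ℝ}
    {ρ M B Lc ε CK CE θ N Lm c₂ C₁ Γ P₂ Um Pm Smax : ℝ} {ks kb L K j₁ : ℕ}

/-- the flow exists for all times -/
theorem flow [FiniteDimensional ℂ E] [Nontrivial E]
    (h : FH 𝓖 P f u χ c s e ρ M B Lc ε CK CE θ N Lm c₂ C₁ Γ P₂ Um Pm Smax ks kb L K j₁)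
    {Pi : ℝ} (hPi : Pi ≤ Pm) (hS : 3 * (Γ * (1 + Lm + Pi + B)) ≤ Smax)
    (hsum : ∀ n, (C₁ * ρ ^ 2 + c₂ * ρ + ρ) * ∑ i ∈ Finset.range n, SL.FH.kh ρ e (kb + L + i) ≤ 1)
    {H₀ : J → E → ℂ} (hH1 : ∀ j, DifferentiableOn ℂ (H₀ j) (𝓖.B (RR (kb + L + K))))
    (hH2 : ∀ z ∈ 𝓖.B (RR (kb + L + K)), ‖(fun j => H₀ j z)‖ ≤ Pi)
    (hH3 : ∀ z ∈ 𝓖.B (RR (kb + L + K)), dot (fv f (kb + L + K) z)
      (fun j => H₀ j z) = 1) :
    ∀ i, ∃ (H : J → E → ℂ) (η : E → ℂ), Stt 𝓖 f u χ s e ρ C₁ Pm (Γ * (1 + Lm + Pi + B) *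
      Real.exp ((C₁ * ρ ^ 2 + c₂ * ρ + ρ) * ∑ l ∈ Finset.range i, SL.FH.kh ρ e (kb + L + l))) kb L i
      (kb + L + K + i) H η := by
  have hlev := h.lev
  have hρ := hlev.ρ0
  have hM := hlev.M0
  have hB := hlev.B0
  have hLc := hlev.L0
  have hN0 : 0 ≤ N := by rw [h.hN]; positivity
  have hLm0 : 0 ≤ Lm := by rw [h.hLm]; positivity
  have hc₂0 : 0 ≤ c₂ := by rw [h.hc₂]; positivity
  have hC₁0 : 0 ≤ C₁ := by rw [h.hC₁]; positivity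
  have hΓ0 : 0 < Γ := by rw [h.hΓ]; exact Real.exp_pos _
  have hPi0 : 0 ≤ Pi := (norm_nonneg _).trans (hH2 0 (𝓖.zero_mem_B (RR_pos _)))
  have hkh0 : ∀ k, kb ≤ k → 0 ≤ SL.FH.kh ρ e k := by
    intro k hk
    have := h.gh.fc.pos hk
    unfold SL.FH.kh; positivity
  intro i
  induction i with
  | zero =>
    refine ⟨H₀, fun _ => 0, hH1, differentiableOn_const _, hH3, ?_, fun z hz =>
      (hH2 z hz).trans hPi, fun z _ => by rw [norm_zero]; exact h.Pm0⟩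
    intro z hz _
    have hzn : 𝓖.g z ≤ RR (kb + L + K) := le_of_lt hz
    obtain ⟨h1, -, -⟩ := h.gh.near (i := 0) (k := kb + L + K) (by omega) hzn
    have hβ : ‖bf ρ e u kb L 0 z‖ ≤ M + ρ :=
      h.gh.fc.norm_bf_le h.gh.osc h.gh.hM (k := kb + L + K) (by omega) hzn
    have hm := hlev.norm_mv_le hβ (FC.mem_ball (kb + L + K) (kb + L + K) (by omega) hzn)
      (by linarith)
    simp only [Finset.range_zero, Finset.sum_empty, mul_zero, Real.exp_zero, mul_one]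
    have h2 : ‖Uv (fun j => H₀ j z) (mv χ s (bf ρ e u kb L 0 z) ((rr (kb + L + K) : ℂ) • z)) 0‖ ≤
        Pi + B := by
      unfold Uv
      rw [sub_zero, one_smul]
      exact (norm_sub_le _ _).trans (add_le_add (hH2 z hz) hm)
    have h3 : Real.exp (-(C₁ * gp (bf ρ e u kb L 0 z) (u ((rr (kb + L + K) : ℂ) • z)))) ≤ Γ := by
      rw [h.hΓ]
      apply Real.exp_le_exp.mpr
      have h4 := neg_gp_le (bf ρ e u kb L 0 z) (u ((rr (kb + L + K) : ℂ) • z))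
      have h5 : ‖u ((rr (kb + L + K) : ℂ) • z) - bf ρ e u kb L 0 z‖ ^ 2 ≤ (1.125 * ρ) ^ 2 :=
        pow_le_pow_left₀ (norm_nonneg _) h1 2
      have h6 : -gp (bf ρ e u kb L 0 z) (u ((rr (kb + L + K) : ℂ) • z)) ≤ ρ ^ 2 := by nlinarith
      calc _ = C₁ * -gp (bf ρ e u kb L 0 z) (u ((rr (kb + L + K) : ℂ) • z)) := by ring
        _ ≤ _ := by gcongr
    calc _ ≤ (Pi + B) * Γ := mul_le_mul h2 h3 (Real.exp_pos _).le (by positivity)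
      _ ≤ _ := by nlinarith
  | succ i ih =>
    obtain ⟨H, η, hs⟩ := ih
    have hs0 : 0 ≤ ∑ l ∈ Finset.range i, SL.FH.kh ρ e (kb + L + l) :=
      Finset.sum_nonneg fun l _ => hkh0 _ (by omega)
    have hG : 0 ≤ Γ * (1 + Lm + Pi + B) := by positivity
    have hA : Γ * (1 + Lm) ≤ Γ * (1 + Lm + Pi + B) * Real.exp ((C₁ * ρ ^ 2 + c₂ * ρ + ρ) *
          ∑ l ∈ Finset.range i, SL.FH.kh ρ e (kb + L + l)) := by
      have h1 : 1 ≤ Real.exp ((C₁ * ρ ^ 2 + c₂ * ρ + ρ) *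
          ∑ l ∈ Finset.range i, SL.FH.kh ρ e (kb + L + l)) := by
        apply Real.one_le_exp; positivity
      calc Γ * (1 + Lm) ≤ Γ * (1 + Lm + Pi + B) * 1 := by nlinarith
        _ ≤ _ := by gcongr
    have e1 : Γ * (1 + Lm + Pi + B) * Real.exp ((C₁ * ρ ^ 2 + c₂ * ρ + ρ) *
          ∑ l ∈ Finset.range (i + 1), SL.FH.kh ρ e (kb + L + l)) =
          Γ * (1 + Lm + Pi + B) * Real.exp ((C₁ * ρ ^ 2 + c₂ * ρ + ρ) *
          ∑ l ∈ Finset.range i, SL.FH.kh ρ e (kb + L + l)) *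
          Real.exp ((C₁ * ρ ^ 2 + c₂ * ρ + ρ) * SL.FH.kh ρ e (kb + L + i)) := by
      rw [Finset.sum_range_succ, mul_add (C₁ * ρ ^ 2 + c₂ * ρ + ρ), Real.exp_add, ← mul_assoc]
    have hB' : Γ * (1 + Lm + Pi + B) * Real.exp ((C₁ * ρ ^ 2 + c₂ * ρ + ρ) *
          ∑ l ∈ Finset.range (i + 1), SL.FH.kh ρ e (kb + L + l)) ≤ Smax := by
      refine le_trans ?_ hS
      have h2 : Real.exp ((C₁ * ρ ^ 2 + c₂ * ρ + ρ) *
          ∑ l ∈ Finset.range (i + 1), SL.FH.kh ρ e (kb + L + l)) ≤ 3 := by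
        refine (Real.exp_le_exp.mpr (hsum (i + 1))).trans ?_
        have := Real.exp_one_lt_d9
        linarith
      calc _ ≤ Γ * (1 + Lm + Pi + B) * 3 := by gcongr
        _ = _ := by ring
    rw [e1] at hB' ⊢
    obtain ⟨H', η', hs'⟩ := h.step (i := i) rfl hs (κh := SL.FH.kh ρ e (kb + L + i)) hA rfl hB'
    exact ⟨H', η', hs'⟩

/-- the solution -/
theorem solve [FiniteDimensional ℂ E] [Nontrivial E]
    (h : FH 𝓖 P f u χ c s e ρ M B Lc ε CK CE θ N Lm c₂ C₁ Γ P₂ Um Pm Smax ks kb L K j₁)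
    {Pi : ℝ} (hPi : Pi ≤ Pm) (hS : 3 * (Γ * (1 + Lm + Pi + B)) ≤ Smax)
    (hsum : ∀ n, (C₁ * ρ ^ 2 + c₂ * ρ + ρ) * ∑ i ∈ Finset.range n, SL.FH.kh ρ e (kb + L + i) ≤ 1)
    {H₀ : J → E → ℂ} (hH1 : ∀ j, DifferentiableOn ℂ (H₀ j) (𝓖.B (RR (kb + L + K))))
    (hH2 : ∀ z ∈ 𝓖.B (RR (kb + L + K)), ‖(fun j => H₀ j z)‖ ≤ Pi)
    (hH3 : ∀ z ∈ 𝓖.B (RR (kb + L + K)), dot (fv f (kb + L + K) z)
      (fun j => H₀ j z) = 1) :
    ∃ g : J → E → ℂ, (∀ j, DifferentiableOn ℂ (g j) (𝓖.B 1)) ∧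
      (∀ j, ∀ z ∈ 𝓖.B 1, ‖g j z‖ ≤ Pm) ∧
      ∀ z ∈ 𝓖.B 1, ∑ j, f j z * g j z = 1 := by
  apply dilation_limit h.lev.fhol h.Pm0 (kb + L + K)
  intro i
  obtain ⟨H, η, hs⟩ := h.flow hPi hS hsum hH1 hH2 hH3 i
  have hsub : 𝓖.B 1 ⊆ 𝓖.B (RR (kb + L + K + i)) := 𝓖.B_mono (one_lt_RR _).le
  exact ⟨H, fun j => (hs.Hhol j).mono hsub, fun z hz => hs.Hbd z (hsub hz),
    fun z hz => hs.one z (hsub hz)⟩

end FH

end Pool.Agent.MPca0fc2.CXP
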