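import Mathlib
import Pool.Agent.Lib.MP_ca0fc2_an.CXPCore
import Pool.Agent.Lib.MP_ca0fc2_an.SLPart
import Pool.Agent.Lib.MP_ca0fc2_an.CXAugB
import Pool.Agent.Lib.MP_ca0fc2_an.Mg.G062

/-!
# The corona problem on a strongly convex domain with an extra datum at one boundary point
-/

set_option autoImplicit false

open Metric Set Filter Topology MeasureTheory
open scoped InnerProductSpace

namespace Pool.Agent.MPca0fc2.CXS

open Pool.Agent.MPca0fc2.SD Pool.Agent.MPca0fc2.SL Pool.Agent.MPca0fc2.CX Pool.Agent.MPca0fc2.CXP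
open Pool.Agent.Lib.MP_ca0fc2_an

section Grads

variable {E : Type*} [NormedAddCommGroup E] [InnerProductSpace ℂ E] {𝓖 : Geo E}

theorem mem_of_le {k : ℕ} {z : E} (hz : 𝓖.g z ≤ rr k) : z ∈ 𝓖.B 1 := lt_of_le_of_lt hz (rr_lt_one k)

theorem grad_add2 {f g : E → ℂ} {e e' : ℕ → ℝ} (hf : CXP.Grad 𝓖 f e) (hg : CXP.Grad 𝓖 g e') :
    CXP.Grad 𝓖 (fun z => f z + g z) (fun k => e k + e' k) := by
  refine ⟨hf.hol.add hg.hol, fun k z hz => ?_⟩
  have hz1 := mem_of_le hz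
  have h1 := hf.grad k z hz
  have h2 := hg.grad k z hz
  rw [fderiv_fun_add (hf.hol.differentiableAt ((𝓖.isOpen_B 1).mem_nhds hz1))
    (hg.hol.differentiableAt ((𝓖.isOpen_B 1).mem_nhds hz1))]
  have h3 := norm_add_le (fderiv ℂ f z) (fderiv ℂ g z)
  have h4 := half_pow_pos k
  have h5 := 𝓖.R₀_ge
  calc 𝓖.R₀ * ‖fderiv ℂ f z + fderiv ℂ g z‖ * (1 / 2) ^ k
      ≤ 𝓖.R₀ * (‖fderiv ℂ f z‖ + ‖fderiv ℂ g z‖) * (1 / 2) ^ k := by gcongr
    _ = 𝓖.R₀ * ‖fderiv ℂ f z‖ * (1 / 2) ^ k + 𝓖.R₀ * ‖fderiv ℂ g z‖ * (1 / 2) ^ k := by ring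
    _ ≤ _ := add_le_add h1 h2

theorem grad_cmul {f : E → ℂ} {e : ℕ → ℝ} (hf : CXP.Grad 𝓖 f e) {c : ℂ} (hc : ‖c‖ ≤ 1) :
    CXP.Grad 𝓖 (fun z => c * f z) e := by
  refine ⟨hf.hol.const_mul c, fun k z hz => ?_⟩
  have hz1 := mem_of_le hz
  have h1 := hf.grad k z hz
  rw [fderiv_const_mul (hf.hol.differentiableAt ((𝓖.isOpen_B 1).mem_nhds hz1)), norm_smul]
  have h4 := half_pow_pos k
  have h5 := norm_nonneg (fderiv ℂ f z)
  have h6 := 𝓖.R₀_ge
  calc 𝓖.R₀ * (‖c‖ * ‖fderiv ℂ f z‖) * (1 / 2) ^ k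
      ≤ 𝓖.R₀ * (1 * ‖fderiv ℂ f z‖) * (1 / 2) ^ k := by gcongr
    _ ≤ _ := by rw [one_mul]; exact h1

theorem grad_zero {e : ℕ → ℝ} (he : ∀ k, 0 ≤ e k) : CXP.Grad 𝓖 (fun _ : E => (0 : ℂ)) e := by
  refine ⟨differentiableOn_const _, fun k z _ => ?_⟩
  simp only [fderiv_fun_const, Pi.zero_apply, norm_zero, zero_mul, mul_zero]
  exact he k

theorem grad_sum {d : ℕ} {u : Fin d → E → ℂ} {e : ℕ → ℝ}
    (hu : ∀ i, CXP.Grad 𝓖 (u i) e) {c : Fin d → ℂ} (hc : ∀ i, ‖c i‖ ≤ 1) (s : Finset (Fin d)) :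
    CXP.Grad 𝓖 (fun z => ∑ i ∈ s, c i * u i z) (fun k => s.card * e k) := by
  classical
  induction s using Finset.induction with
  | empty =>
    simp only [Finset.sum_empty, Finset.card_empty, Nat.cast_zero, zero_mul]
    exact grad_zero fun k => le_rfl
  | insert a s ha ih =>
    simp only [Finset.sum_insert ha, Finset.card_insert_of_notMem ha]
    have h := grad_add2 (grad_cmul (hu a) (hc a)) ih
    refine ⟨h.hol, fun k z hz => (h.grad k z hz).trans (le_of_eq ?_)⟩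
    push_cast
    ring

theorem grad_mono {f : E → ℂ} {e e' : ℕ → ℝ} (hf : CXP.Grad 𝓖 f e) (h : ∀ k, e k ≤ e' k) :
    CXP.Grad 𝓖 f e' := ⟨hf.hol, fun k z hz => (hf.grad k z hz).trans (h k)⟩

variable {W : Type*} [NormedAddCommGroup W] [InnerProductSpace ℂ W]

/-- the map with the extra component -/
noncomputable def ua (u : E → W) (f₀ : E → ℂ) (z : E) : WithLp 2 (W × ℂ) :=
  WithLp.toLp 2 (u z, f₀ z)

theorem ua_diff {u : E → W} {f₀ : E → ℂ} {S : Set E} (hu : DifferentiableOn ℂ u S)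
    (hf : DifferentiableOn ℂ f₀ S) : DifferentiableOn ℂ (ua u f₀) S :=
  (WithLp.prodContinuousLinearEquiv 2 ℂ W ℂ).symm.differentiable.comp_differentiableOn
    (hu.prodMk hf)

theorem ua_norm_le (u : E → W) (f₀ : E → ℂ) (z : E) : ‖ua u f₀ z‖ ≤ ‖u z‖ + ‖f₀ z‖ := by
  apply le_of_sq_le_sq _ (by positivity)
  rw [WithLp.prod_norm_sq_eq_of_L2]
  have h1 : (ua u f₀ z).fst = u z := rfl
  have h2 : (ua u f₀ z).snd = f₀ z := rfl
  rw [h1, h2]
  have := mul_nonneg (norm_nonneg (u z)) (norm_nonneg (f₀ z))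
  nlinarith

theorem le_norm_sub_fst (u : E → W) (f₀ : E → ℂ) (z : E) (c : WithLp 2 (W × ℂ)) :
    ‖u z - c.fst‖ ≤ ‖ua u f₀ z - c‖ := by
  have h := WithLp.prod_norm_sq_eq_of_L2 (ua u f₀ z - c)
  have h1 : (ua u f₀ z - c).fst = u z - c.fst := rfl
  have h2 : (ua u f₀ z - c).snd = f₀ z - c.snd := rfl
  rw [h1, h2] at h
  apply le_of_sq_le_sq _ (norm_nonneg _)
  rw [h]; nlinarith [sq_nonneg ‖f₀ z - c.snd‖]

theorem ua_grad {u : E → W} {f₀ : E → ℂ} {e : ℕ → ℝ}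
    (hu : ∀ v : W, ‖v‖ ≤ 1 → CXP.Grad 𝓖 (fun z => ⟪v, u z⟫_ℂ) e) (hf : CXP.Grad 𝓖 f₀ e) :
    ∀ v : WithLp 2 (W × ℂ), ‖v‖ ≤ 1 →
      CXP.Grad 𝓖 (fun z => ⟪v, ua u f₀ z⟫_ℂ) (fun k => 2 * e k) := by
  intro v hv
  have h := WithLp.prod_norm_sq_eq_of_L2 v
  have hv1 : ‖v.fst‖ ≤ 1 := by
    apply le_of_sq_le_sq _ zero_le_one
    nlinarith [sq_nonneg ‖v.snd‖, norm_nonneg v]
  have hv2 : ‖v.snd‖ ≤ 1 := by
    apply le_of_sq_le_sq _ zero_le_one
    nlinarith [sq_nonneg ‖v.fst‖, norm_nonneg v]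
  have e1 : (fun z => ⟪v, ua u f₀ z⟫_ℂ) = fun z => ⟪v.fst, u z⟫_ℂ +
      (starRingEnd ℂ) v.snd * f₀ z := by
    funext z
    rw [WithLp.prod_inner_apply]
    simp only [ua]
    congr 1
    rw [RCLike.inner_apply, mul_comm]
    rfl
  rw [e1]
  refine grad_mono (grad_add2 (hu _ hv1) (grad_cmul hf (by rw [RCLike.norm_conj]; exact hv2))) ?_
  intro k
  linarith

end Grads

/-- The flow on a strongly convex domain, with the extra datum at one boundary point. -/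
theorem local_flow {n : ℕ} (hn : 1 ≤ n) (𝓓 : Dm n) (𝓖 : Geo (En n)) (hgg : 𝓖.g = 𝓓.g)
    {P : (En n → ℂ) → En n → ℂ} {CK : ℝ} (hker : 𝓖.Ker P CK) (W : Type*) [NormedAddCommGroup W]
    [InnerProductSpace ℂ W] [FiniteDimensional ℂ W] (N : ℕ) (M C ρ₀ ρ ε ε₀ : ℝ)
    (hM : 2 ≤ M) (hρ : 0 < ρ) (hρ₀ : 8 * ρ ≤ ρ₀) (hρM : ρ ≤ 1)
    (hε : 0 < ε) (hε1 : ε ≤ 1) (hεM : ε * (M + 2 + ρ) ≤ 1) (hεε : ε ≤ ε₀)
    (haug : ∀ (e : ℕ → ℝ) (ε : ℝ) (l : En n) (k₁ : ℕ),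
      (∀ k, 0 < e k) → (∀ k, |1 / e (k + 1) - 1 / e k| ≤ ε) → ε ≤ ε₀ → 𝓓.ρ l = 0 →
      ∃ F₀ : En n → ℂ, DifferentiableOn ℂ F₀ 𝓓.D ∧
        (∀ (k : ℕ) (z : En n), 𝓓.g z ≤ rr k → 𝓖.R₀ * ‖fderiv ℂ F₀ z‖ * (1 / 2) ^ k ≤ e k) ∧
        (∀ z ∈ 𝓓.D, ‖F₀ z‖ ≤ 2) ∧
        (∀ z, 𝓓.g z < RR k₁ → 1 / 2 ≤ ‖F₀ ((rr k₁ : ℂ) • z)‖) ∧
        ∀ η : ℝ, 0 < η → ∃ r : ℝ, 0 < r ∧ ∀ z ∈ 𝓓.D, ‖z - l‖ < r → ‖F₀ z‖ ≤ η)
    (e : ℕ → ℝ) (hpos : ∀ k, 0 < e k) (hslow : Slow e) (hlip : ∀ k, |1 / e (k + 1) - 1 / e k| ≤ ε)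
    (hsum : Summable fun k => Real.exp (-(a₀ * ρ / 2 / (3 * 𝓖.Co * (2 * e k)))))
    (f : Fin N → En n → ℂ) (u : En n → W)
    (hf : ∀ j, DifferentiableOn ℂ (f j) 𝓓.D) (hfM : ∀ j, ∀ z ∈ 𝓓.D, ‖f j z‖ ≤ M)
    (hu : DifferentiableOn ℂ u 𝓓.D) (huM : ∀ z ∈ 𝓓.D, ‖u z‖ ≤ M)
    (hug : ∀ v : W, ‖v‖ ≤ 1 → CXP.Grad 𝓖 (fun z => ⟪v, u z⟫_ℂ) e)
    (hloc : ∀ b ∈ 𝓓.D, SolvableOn f {z | z ∈ 𝓓.D ∧ ‖u z - u b‖ < ρ₀} C)
    {l : En n} (hl : 𝓓.ρ l = 0) :
    ∃ f₀ : En n → ℂ, IsHinf 𝓓.D f₀ ∧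
      (∀ η : ℝ, 0 < η → ∃ r : ℝ, 0 < r ∧ ∀ z ∈ 𝓓.D, ‖z - l‖ < r → ‖f₀ z‖ ≤ η) ∧
      ∃ C' : ℝ, SolvableOn (Fin.cons f₀ f : Fin (N + 1) → En n → ℂ) 𝓓.D C' := by
  classical
  have hDB : 𝓖.B 1 = 𝓓.D := by
    ext z
    rw [𝓖.mem_B, hgg, 𝓓.g_lt_one]
    rfl
  have hnt : Nontrivial (En n) := by
    have : Nonempty (Fin n) := ⟨⟨0, hn⟩⟩
    infer_instance
  have hCo := 𝓖.Co_ge
  have ha0 : (0 : ℝ) < a₀ := by norm_num [a₀]
  set B : ℝ := |C| with hB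
  have hB0 : 0 ≤ B := abs_nonneg _
  obtain ⟨m, Lc, c, χ, hLc, hχ0, hχ1, hχl, hχs⟩ := exists_part (WithLp 2 (W × ℂ)) (M + 2 + ρ) hρ
  have hpos' : ∀ k, 0 ≤ k → 0 < 3 * 𝓖.Co * (2 * e k) := fun k _ => by have := hpos k; positivity
  have hev := e_small (e := fun k => 3 * 𝓖.Co * (2 * e k)) (ks := 0) (c := a₀ * ρ / 2)
    (by positivity) hpos' hsum (δ := 1 / 100) (by norm_num)
  obtain ⟨ks, hks⟩ := eventually_atTop.mp hev
  have hse : SE (fun j => 3 * 𝓖.Co * (2 * e (ks + j))) ε := by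
    refine ⟨fun j => hpos' _ (Nat.zero_le _), fun j => hks _ (by omega), fun j => ?_⟩
    have h1 := hlip (ks + j)
    have h2 : 1 / (3 * 𝓖.Co * (2 * e (ks + (j + 1)))) - 1 / (3 * 𝓖.Co * (2 * e (ks + j))) =
        (1 / e (ks + j + 1) - 1 / e (ks + j)) / (6 * 𝓖.Co) := by
      have := hpos (ks + j)
      have := hpos (ks + j + 1)
      rw [← add_assoc]
      have hCo0 : 𝓖.Co ≠ 0 := by linarith
      field_simp
      ring
    rw [h2, abs_div, abs_of_pos (show 0 < 6 * 𝓖.Co by linarith), div_le_iff₀ (by linarith)]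
    refine h1.trans ?_
    nlinarith
  obtain ⟨k₁, Pm, hk₁, hcore⟩ := core (Option (Fin N)) (Fin m) (En n) (WithLp 2 (W × ℂ)) 𝓖 hker
    (M + 2) ρ B Lc ε hρ (by linarith) hB0 hLc hε hε1 hεM
    (e := fun k => 3 * 𝓖.Co * (2 * e k)) hse hsum
  obtain ⟨f₀, hf₀, hf₀g, hf₀b, hinit, hf₀r⟩ := haug e ε l k₁ hpos hlip hεε hl
  have hg : CXP.Grad 𝓖 f₀ e := ⟨by rw [hDB]; exact hf₀, fun k z hz => hf₀g k z (by rwa [← hgg])⟩
  refine ⟨f₀, ⟨hf₀, 2, hf₀b⟩, hf₀r, Pm, ?_⟩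
  -- the local solutions
  set R : Fin m → Set (En n) := fun i => {x | x ∈ 𝓖.B 1 ∧ ‖ua u f₀ x - c i‖ < 4 * ρ} with hR
  have hsol : ∀ i, ∃ s : Option (Fin N) → En n → ℂ, (∀ j, DifferentiableOn ℂ (s j) (R i)) ∧
      (∀ j, ∀ x ∈ R i, ‖s j x‖ ≤ B) ∧
      ∀ x ∈ R i, f₀ x * s none x + ∑ j, f j x * s (some j) x = 1 := by
    intro i
    by_cases hne : (R i).Nonempty
    · obtain ⟨b, hb'⟩ := hne
      obtain ⟨h, hh1, hh2, hh3⟩ := hloc b (by rw [← hDB]; exact hb'.1)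
      have hsub : R i ⊆ {z | z ∈ 𝓓.D ∧ ‖u z - u b‖ < ρ₀} := by
        intro x hx
        refine ⟨by rw [← hDB]; exact hx.1, ?_⟩
        have h1 := le_norm_sub_fst u f₀ x (c i)
        have h2 := le_norm_sub_fst u f₀ b (c i)
        have h3 := hx.2
        have h4 := hb'.2
        have e1 : u x - u b = (u x - (c i).fst) - (u b - (c i).fst) := by abel
        rw [e1]
        refine (norm_sub_le _ _).trans_lt ?_
        linarith
      refine ⟨fun o => o.elim (fun _ => 0) h, ?_, ?_, ?_⟩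
      · intro j
        cases j with
        | none => exact differentiableOn_const _
        | some j => exact (hh1 j).mono hsub
      · intro j x hx
        cases j with
        | none => simp only [Option.elim, norm_zero]; exact hB0
        | some j => exact (hh2 j x (hsub hx)).trans (le_abs_self C)
      · intro x hx
        simp only [Option.elim, mul_zero, zero_add]
        exact hh3 x (hsub hx)
    · rw [Set.not_nonempty_iff_eq_empty] at hne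
      refine ⟨fun _ _ => 0, ?_, ?_, ?_⟩
      · intro j; exact differentiableOn_const _
      · intro j x hx; rw [hne] at hx; exact hx.elim
      · intro x hx; rw [hne] at hx; exact hx.elim
  choose s hs1 hs2 hs3 using hsol
  set f' : Option (Fin N) → En n → ℂ := fun o => o.elim f₀ f with hf'
  have hlev : CXP.Lev 𝓖 f' (ua u f₀) ρ (M + 2) B Lc (M + 2 + ρ) χ c s := by
    refine ⟨?_, ?_, ua_diff (by rw [hDB]; exact hu) hg.hol, ?_, hρ, by linarith, hB0, hLc,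
      by linarith, hχ0, hχ1, hχl, hχs, hs1, ?_, ?_⟩
    · intro j
      cases j with
      | none => exact hg.hol
      | some j => rw [hDB]; exact hf j
    · intro j z hz
      rw [hDB] at hz
      cases j with
      | none => exact (hf₀b z hz).trans (by linarith)
      | some j => exact (hfM j z hz).trans (by linarith)
    · intro z hz
      rw [hDB] at hz
      exact (ua_norm_le u f₀ z).trans (add_le_add (huM z hz) (hf₀b z hz))
    · intro i j x hx hx'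
      exact hs2 i j x ⟨hx, hx'⟩
    · intro i x hx hx'
      rw [Fintype.sum_option]
      exact hs3 i x ⟨hx, hx'⟩
  have hosc : CXP.Osc 𝓖 (ua u f₀) (fun k => 3 * 𝓖.Co * (2 * e k)) := by
    refine CXP.Osc.of_grad (ua_diff (by rw [hDB]; exact hu) hg.hol) (ua_grad hug hg) ?_
    refine ⟨fun k => ?_, fun k => ?_, fun k => ?_⟩
    · have := hslow.nonneg k; positivity
    · have := hslow.up k; linarith
    · have := hslow.down k; linarith
  have hmem : ∀ z ∈ 𝓖.B (RR k₁), (rr k₁ : ℂ) • z ∈ 𝓖.B 1 := fun z hz =>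
    CXP.FC.mem_ball k₁ k₁ (by omega) (le_of_lt hz)
  have hinit' : ∀ z ∈ 𝓖.B (RR k₁), 1 / 2 ≤ ‖f₀ ((rr k₁ : ℂ) • z)‖ := fun z hz =>
    hinit z (by rw [← hgg]; exact hz)
  obtain ⟨g, hg1, hg2, hg3⟩ := hcore f' (ua u f₀) χ c s hlev hosc (by
    refine ⟨fun o => o.elim (fun z => (f₀ ((rr k₁ : ℂ) • z))⁻¹) (fun _ _ => 0), ?_, ?_, ?_⟩
    · intro j
      cases j with
      | none =>
        simp only [Option.elim]
        apply DifferentiableOn.inv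
        · apply hg.hol.comp
          · exact (differentiable_id.const_smul (rr k₁ : ℂ)).differentiableOn
          · exact hmem
        · intro z hz h0
          have := hinit' z hz
          rw [h0, norm_zero] at this
          norm_num at this
      | some j => exact differentiableOn_const _
    · intro z hz
      rw [pi_norm_le_iff_of_nonneg (by norm_num)]
      intro j
      cases j with
      | none =>
        simp only [Option.elim, norm_inv]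
        have h1 := hinit' z hz
        rw [inv_le_comm₀ (by linarith) (by norm_num)]
        linarith
      | some j => simp only [Option.elim, norm_zero]; norm_num
    · intro z hz
      rw [dot, Fintype.sum_option]
      simp only [Option.elim, mul_zero, Finset.sum_const_zero, add_zero, fv, hf']
      apply mul_inv_cancel₀
      intro h0
      have := hinit' z hz
      rw [h0, norm_zero] at this
      norm_num at this)
  rw [hDB] at hg1 hg2 hg3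
  refine ⟨Fin.cons (g none) fun j => g (some j), fun j => ?_, fun j z hz => ?_, fun z hz => ?_⟩
  · refine Fin.cases ?_ (fun j => ?_) j
    · rw [Fin.cons_zero]; exact hg1 none
    · rw [Fin.cons_succ]; exact hg1 (some j)
  · refine Fin.cases ?_ (fun j => ?_) j
    · rw [Fin.cons_zero]; exact hg2 none z hz
    · rw [Fin.cons_succ]; exact hg2 (some j) z hz
  · rw [Fin.sum_univ_succ]
    simp only [Fin.cons_zero, Fin.cons_succ]
    have h1 := hg3 z hz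
    rw [Fintype.sum_option] at h1
    exact h1

end Pool.Agent.MPca0fc2.CXS
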