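import Mathlib
import Pool.Agent.Lib.MP_ca0fc2_an.Mg.G059
import Pool.Agent.Lib.MP_ca0fc2_an.SDFin0

/-!
# Moduli, and the gradient of a bounded holomorphic function on a bounded open set
-/

set_option autoImplicit false

open Metric Set Filter Topology MeasureTheory

namespace Pool.Agent.MPca0fc2.CXS

open Pool.Agent.Lib.MP_ca0fc2_an
open Pool.Agent.MPca0fc2.SD

theorem rate_id : Rate (fun t => t) := by
  refine ⟨fun t ht => ht.1, fun c hc => ?_⟩
  refine Measure.integrableOn_of_bounded (M := 1 / c) (by simp) ?_ ?_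
  · have h1 : Measurable fun t : ℝ => Real.exp (-(c / t)) / t := by fun_prop
    exact h1.aestronglyMeasurable
  · rw [ae_restrict_iff' measurableSet_Ioo]
    refine Eventually.of_forall fun t ht => ?_
    have ht0 : 0 < t := ht.1
    rw [Real.norm_eq_abs, abs_of_pos (by positivity), div_le_iff₀ ht0, one_div_mul_eq_div,
      Real.exp_neg, inv_eq_one_div, div_le_iff₀ (Real.exp_pos _)]
    have h1 : c / t ≤ Real.exp (c / t) := by
      have := Real.add_one_le_exp (c / t)
      linarith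
    calc (1 : ℝ) = t / c * (c / t) := by field_simp
      _ ≤ t / c * Real.exp (c / t) := mul_le_mul_of_nonneg_left h1 (by positivity)

theorem rate_max {ω ω' : ℝ → ℝ} (h : Rate ω) (h' : Rate ω') : Rate fun t => max (ω t) (ω' t) := by
  refine ⟨fun t ht => lt_max_of_lt_left (h.1 t ht), fun c hc => ?_⟩
  have h1 : IntegrableOn ((fun t => Real.exp (-(c / ω t)) / t) ⊔
      fun t => Real.exp (-(c / ω' t)) / t) (Ioo 0 1) := (h.2 c hc).sup (h'.2 c hc)
  refine h1.congr_fun (fun t ht => ?_) measurableSet_Ioo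
  have ht0 : 0 < t := ht.1
  have a1 := h.1 t ht
  have a2 := h'.1 t ht
  show Real.exp (-(c / ω t)) / t ⊔ Real.exp (-(c / ω' t)) / t =
    Real.exp (-(c / max (ω t) (ω' t))) / t
  rcases le_total (ω t) (ω' t) with h2 | h2
  · rw [max_eq_right h2]
    apply sup_eq_right.mpr
    gcongr
  · rw [max_eq_left h2]
    apply sup_eq_left.mpr
    gcongr

/-- A common modulus. -/
theorem rate_common {ι : Type} [Fintype ι] {ω₀ : ι → ℝ → ℝ} (h : ∀ i, Rate (ω₀ i)) :
    ∃ ω : ℝ → ℝ, Rate ω ∧ ∀ i t, ω₀ i t ≤ ω t := by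
  classical
  have hω : ∀ s : Finset ι, ∃ ω : ℝ → ℝ, Rate ω ∧ ∀ i ∈ s, ∀ t, ω₀ i t ≤ ω t := by
    intro s
    induction s using Finset.induction_on with
    | empty => exact ⟨_, rate_id, fun i hi => absurd hi (Finset.notMem_empty i)⟩
    | insert a s _ ih =>
      obtain ⟨ω, h1, h2⟩ := ih
      refine ⟨fun t => max (ω₀ a t) (ω t), rate_max (h a) h1, fun i hi t => ?_⟩
      rcases Finset.mem_insert.mp hi with rfl | hi
      · exact le_max_left _ _
      · exact (h2 i hi t).trans (le_max_right _ _)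
  obtain ⟨ω, h1, h2⟩ := hω Finset.univ
  exact ⟨ω, h1, fun i => h2 i (Finset.mem_univ i)⟩

theorem rate_smul {ω : ℝ → ℝ} (h : Rate ω) {R : ℝ} (hR : 0 < R) : Rate fun t => R * ω t := by
  refine ⟨fun t ht => mul_pos hR (h.1 t ht), fun c hc => ?_⟩
  refine (h.2 (c / R) (by positivity)).congr_fun (fun t ht => ?_) measurableSet_Ioo
  have := h.1 t ht
  show Real.exp (-(c / R / ω t)) / t = Real.exp (-(c / (R * ω t))) / t
  rw [div_div]

/-- The maximum principle for the gradient. -/
theorem grad_maxD {E : Type*} [NormedAddCommGroup E] [NormedSpace ℂ E] [FiniteDimensional ℂ E]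
    [Nontrivial E] {D : Set E} (hDo : IsOpen D) (hDb : Bornology.IsBounded D)
    {f : E → ℂ} (hf : DifferentiableOn ℂ f D) {M : ℝ} (hM : ∀ z ∈ D, ‖f z‖ ≤ M) {t B : ℝ}
    (ht : 0 < t) (hB0 : 0 ≤ B) (hB : ∀ w ∈ D, infDist w Dᶜ = t → ‖fderiv ℂ f w‖ ≤ B) {z : E}
    (hz : t ≤ infDist z Dᶜ) : ‖fderiv ℂ f z‖ ≤ B := by
  have hmem : ∀ w : E, t ≤ infDist w Dᶜ → w ∈ D := by
    intro w hw
    by_contra h
    have h1 : infDist w Dᶜ = 0 := infDist_zero_of_mem h
    linarith
  obtain ⟨U, hU⟩ : ∃ U : Set E, U = {w | t < infDist w Dᶜ} := ⟨_, rfl⟩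
  have hUo : IsOpen U := by
    rw [hU]; exact isOpen_lt continuous_const (continuous_infDist_pt _)
  have hUD : U ⊆ D := by
    rw [hU]; exact fun w hw => hmem w (le_of_lt hw)
  have hcl : closure U ⊆ {w | t ≤ infDist w Dᶜ} := by
    refine closure_minimal ?_ (isClosed_le continuous_const (continuous_infDist_pt _))
    rw [hU]; exact fun w hw => (le_of_lt hw : t ≤ infDist w Dᶜ)
  rcases eq_or_lt_of_le hz with h | h
  · exact hB z (hmem z hz) h.symm
  apply ContinuousLinearMap.opNorm_le_bound _ hB0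
  intro v
  have h1 : DifferentiableOn ℂ (fun z : E => fderiv ℂ f z v) D :=
    differentiableOn_fderiv_apply hDo hf hM v
  have hd : DiffContOnCl ℂ (fun z : E => fderiv ℂ f z v) U := by
    apply DifferentiableOn.diffContOnCl
    exact h1.mono fun w hw => hmem w (hcl hw)
  refine Complex.norm_le_of_forall_mem_frontier_norm_le (hDb.subset hUD) hd (C := B * ‖v‖) ?_
    (subset_closure (by rw [hU]; exact h))
  intro w hw
  have h2 : t ≤ infDist w Dᶜ := hcl (frontier_subset_closure hw)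
  have h3 : ¬ t < infDist w Dᶜ := by
    intro h4
    rw [hUo.frontier_eq] at hw
    exact hw.2 (by rw [hU]; exact h4)
  refine (ContinuousLinearMap.le_opNorm _ _).trans ?_
  exact mul_le_mul_of_nonneg_right (hB w (hmem w h2) (le_antisymm (not_lt.mp h3) h2))
    (norm_nonneg _)

end Pool.Agent.MPca0fc2.CXS
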