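import Mathlib
import Pool.Agent.Lib.MP_ca0fc2_an.CXSFlow
import Pool.Agent.Lib.MP_ca0fc2_an.CXSRate
import Pool.Agent.Lib.MP_ca0fc2_an.SLSeq2
import Pool.Agent.Lib.MP_ca0fc2_an.CXKD
import Pool.Agent.Lib.MP_ca0fc2_an.CXFibB

/-!
# The corona problem on a strongly convex domain is local over the slow functions
-/

set_option autoImplicit false

open Metric Set Filter Topology MeasureTheory
open scoped InnerProductSpace

namespace Pool.Agent.MPca0fc2.CXS

open Pool.Agent.MPca0fc2.SD Pool.Agent.MPca0fc2.SL Pool.Agent.MPca0fc2.CX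
open Pool.Agent.Lib.MP_ca0fc2_an

variable {n : ℕ}

/-- The domain is bounded. -/
theorem bdd_D (𝓓 : Dm n) : Bornology.IsBounded 𝓓.D := by
  obtain ⟨R, hR, h⟩ := 𝓓.norm_le_g
  rw [isBounded_iff_forall_norm_le]
  refine ⟨R, fun z hz => ?_⟩
  have h1 : 𝓓.g z < 1 := (𝓓.g_lt_one z).mpr hz
  have h2 := h z
  nlinarith [𝓓.g_nonneg z]

theorem compl_nonempty (hn : 1 ≤ n) (𝓓 : Dm n) : (𝓓.Dᶜ).Nonempty := by
  have hnt : Nontrivial (En n) := by
    have : Nonempty (Fin n) := ⟨⟨0, hn⟩⟩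
    infer_instance
  rw [Set.nonempty_compl]
  intro h
  have h1 := bdd_D 𝓓
  rw [h] at h1
  exact NormedSpace.unbounded_univ ℂ (En n) h1

/-- The distance to the complement is at least `1 - g`. -/
theorem dist_ge (hn : 1 ≤ n) (𝓓 : Dm n) (z : En n) : 1 - 𝓓.g z ≤ infDist z 𝓓.Dᶜ := by
  rw [le_infDist (compl_nonempty hn 𝓓)]
  intro y hy
  have h1 : ¬ 𝓓.g y < 1 := by
    rw [𝓓.g_lt_one]; exact hy
  have h2 := 𝓓.g_add (y - z) z
  rw [sub_add_cancel] at h2
  have h3 := 𝓓.g_le (y - z)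
  rw [dist_comm, dist_eq_norm]
  linarith

/-- The gradient condition in terms of a sequence. -/
theorem grad_of_slow (hn : 1 ≤ n) (𝓓 : Dm n) (𝓖 : Geo (En n)) (hgg : 𝓖.g = 𝓓.g) {ω : ℝ → ℝ}
    {e : ℕ → ℝ} {A M : ℝ} (hA : 𝓖.R₀ * (2 * M) ≤ A)
    (hwe : ∀ k, min (wk (fun t => 𝓖.R₀ * ω t) k) A ≤ e k) {u : En n → ℂ}
    (hu : DifferentiableOn ℂ u 𝓓.D) (huM : ∀ z ∈ 𝓓.D, ‖u z‖ ≤ M)
    (huω : ∀ z ∈ 𝓓.D, infDist z 𝓓.Dᶜ < 1 →
      infDist z 𝓓.Dᶜ * ‖fderiv ℂ u z‖ ≤ ω (infDist z 𝓓.Dᶜ)) : CXP.Grad 𝓖 u e := by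
  have hnt : Nontrivial (En n) := by
    have : Nonempty (Fin n) := ⟨⟨0, hn⟩⟩
    infer_instance
  have hR := 𝓖.R₀_ge
  have hDo : IsOpen 𝓓.D := 𝓓.isOpen_D
  have hDB : 𝓖.B 1 = 𝓓.D := by
    ext z
    rw [𝓖.mem_B, hgg, 𝓓.g_lt_one]
    rfl
  have hM0 : 0 ≤ M := by
    have h0 : (0 : En n) ∈ 𝓓.D := 𝓓.unit 0 (by rw [norm_zero]; exact zero_le_one)
    exact (norm_nonneg _).trans (huM 0 h0)
  refine ⟨by rw [hDB]; exact hu, fun k z hz => ?_⟩
  refine le_trans (le_min ?_ ?_) (hwe k)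
  · unfold wk
    rw [mul_comm]
    apply mul_le_mul_of_nonneg_left _ (half_pow_pos k).le
    apply le_csInf (nonempty_wk _ k)
    rintro _ ⟨t, ht, rfl⟩
    have ht1 : t < 1 := ht.2.trans_le (half_pow_le_one k)
    have h1 : ‖fderiv ℂ u z‖ ≤ |ω t| / t := by
      refine grad_maxD hDo (bdd_D 𝓓) hu huM ht.1 (by have := ht.1; positivity) ?_ (z := z) ?_
      · intro w hw hwt
        have h1 := huω w hw (by rw [hwt]; exact ht1)
        rw [hwt] at h1
        rw [le_div_iff₀ ht.1, mul_comm]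
        exact h1.trans (le_abs_self _)
      · refine le_trans ?_ (dist_ge hn 𝓓 z)
        rw [hgg] at hz
        unfold rr at hz
        linarith [ht.2]
    simp only [abs_mul, abs_of_pos (show 0 < 𝓖.R₀ by linarith)]
    rw [mul_div_assoc]
    exact mul_le_mul_of_nonneg_left h1 (by linarith)
  · refine le_trans ?_ hA
    have hk := half_pow_pos k
    have hsub : ball z ((1 / 2) ^ k) ⊆ 𝓓.D := by
      rw [← hDB]
      refine Subset.trans (ball_subset_ball ?_) (𝓖.ball_subset_B z 1)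
      unfold rr at hz
      linarith
    have h2 : ‖fderiv ℂ u z‖ ≤ 2 * M / (1 / 2) ^ k := by
      apply ContinuousLinearMap.opNorm_le_bound _ (by positivity)
      intro v
      exact Pool.Agent.Lib.MP_ca0fc2_an.norm_fderiv_apply_le hk (hu.mono hsub)
        (fun w hw => huM w (hsub hw)) v
    rw [mul_assoc]
    apply mul_le_mul_of_nonneg_left _ (by linarith)
    rwa [le_div_iff₀ hk] at h2

/-- The corona problem on a strongly convex domain is local over the slow functions. -/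
theorem locOn_dm (hn : 1 ≤ n) (𝓓 : Dm n) : LocOn 𝓓.D (SlowOn 𝓓.D) := by
  intro N k f a C ρ₀ hf ha hρ₀ hloc
  by_contra hno
  obtain ⟨m, hm, hm0⟩ := exists_char_kill 𝓓.isOpen_D hf hno
  rcases lt_or_eq_of_le (𝓓.pt_mem hm) with hp | hp
  · -- the fibres over the interior points
    obtain ⟨h, -, -, h3⟩ := hloc (pt m) hp
    have h4 := h3 (pt m) ⟨hp, fun i => by rw [sub_self, norm_zero]; exact hρ₀⟩
    have h5 : ∀ j, f j (pt m) = 0 := fun j => by rw [← 𝓓.char_interior hm hp (hf j), hm0 j]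
    simp only [h5, zero_mul, Finset.sum_const_zero] at h4
    exact zero_ne_one h4
  -- the fibres over the boundary points
  obtain ⟨𝓖, P, CK, hgg, hker⟩ := 𝓓.exists_geo hn
  obtain ⟨ε₀, hε₀, haug⟩ := 𝓓.aug 𝓖.R₀_ge
  have hR := 𝓖.R₀_ge
  have hCo := 𝓖.Co_ge
  -- bounds
  have hfM : ∃ M : ℝ, 0 ≤ M ∧ ∀ j, ∀ z ∈ 𝓓.D, ‖f j z‖ ≤ M := by
    choose M hM using fun j => (hf j).2
    refine ⟨∑ j, |M j|, Finset.sum_nonneg fun j _ => abs_nonneg _, fun j z hz => ?_⟩
    refine (hM j z hz).trans ((le_abs_self _).trans ?_)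
    exact Finset.single_le_sum (f := fun j => |M j|) (fun j _ => abs_nonneg _) (Finset.mem_univ j)
  obtain ⟨M₁, hM₁0, hM₁⟩ := hfM
  have haM : ∃ M : ℝ, 0 ≤ M ∧ ∀ j, ∀ z ∈ 𝓓.D, ‖a j z‖ ≤ M := by
    choose M hM using fun j => (ha j).1.2
    refine ⟨∑ j, |M j|, Finset.sum_nonneg fun j _ => abs_nonneg _, fun j z hz => ?_⟩
    refine (hM j z hz).trans ((le_abs_self _).trans ?_)
    exact Finset.single_le_sum (f := fun j => |M j|) (fun j _ => abs_nonneg _) (Finset.mem_univ j)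
  obtain ⟨M₂, hM₂0, hM₂⟩ := haM
  choose ω₀ hω₀ haω using fun i => (ha i).2
  obtain ⟨ω, hω, hωω⟩ := rate_common hω₀
  obtain ⟨D', hD'⟩ : ∃ D' : ℝ, D' = k + 1 := ⟨_, rfl⟩
  have hD1 : 1 ≤ D' := by rw [hD']; have : (0 : ℝ) ≤ k := Nat.cast_nonneg _; linarith
  obtain ⟨M, hM⟩ : ∃ M, M = M₁ + D' * M₂ + 2 := ⟨_, rfl⟩
  have hDM : 0 ≤ D' * M₂ := by positivity
  have hM2 : 2 ≤ M := by rw [hM]; linarith
  obtain ⟨ρ, hρ⟩ : ∃ ρ : ℝ, ρ = min 1 (ρ₀ / 8) := ⟨_, rfl⟩
  have hρ0 : 0 < ρ := by rw [hρ]; positivity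
  have hρ1 : ρ ≤ 1 := by rw [hρ]; exact min_le_left _ _
  have hρ8 : 8 * ρ ≤ ρ₀ := by
    have : ρ ≤ ρ₀ / 8 := by rw [hρ]; exact min_le_right _ _
    linarith
  obtain ⟨A, hA⟩ : ∃ A, A = 𝓖.R₀ * (2 * M₂) + 1 := ⟨_, rfl⟩
  have hA0 : 0 < A := by rw [hA]; positivity
  obtain ⟨ε, hε⟩ : ∃ ε : ℝ, ε = min (min 1 ε₀) (min (1 / (20 * A)) (1 / (M + 3))) := ⟨_, rfl⟩
  have hM3 : 0 < M + 3 := by linarith
  have hεpos : 0 < ε := by rw [hε]; positivity
  have hε1 : ε ≤ 1 := by rw [hε]; exact (min_le_left _ _).trans (min_le_left _ _)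
  have hεε : ε ≤ ε₀ := by rw [hε]; exact (min_le_left _ _).trans (min_le_right _ _)
  have hεA : ε * A ≤ 1 / 20 := by
    have h1 : ε ≤ 1 / (20 * A) := by
      rw [hε]; exact (min_le_right _ _).trans (min_le_left _ _)
    calc ε * A ≤ 1 / (20 * A) * A := by gcongr
      _ = 1 / 20 := by field_simp
  have hεM : ε * (M + 2 + ρ) ≤ 1 := by
    have h1 : ε ≤ 1 / (M + 3) := by
      rw [hε]; exact (min_le_right _ _).trans (min_le_right _ _)
    calc ε * (M + 2 + ρ) ≤ 1 / (M + 3) * (M + 3) :=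
          mul_le_mul h1 (by linarith) (by linarith) (by positivity)
      _ = 1 := by field_simp
  have ha0 : (0 : ℝ) < a₀ := by norm_num [a₀]
  have hω' : Rate fun t => 𝓖.R₀ * ω t := rate_smul hω (by linarith)
  obtain ⟨e, he0, heS, hel, hes, hew, -⟩ := seq_of_omega hω'.1
    (c := a₀ * ρ / (24 * 𝓖.Co * D')) (by positivity) (hω'.2 _ (by positivity)) hA0 hεpos hεA
  have he0' : ∀ k, 0 < D' * e k := fun k => by have := he0 k; positivity
  have heS' : Slow fun k => D' * e k := by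
    refine ⟨fun k => (he0' k).le, fun k => ?_, fun k => ?_⟩
    · have := heS.up k; nlinarith
    · have := heS.down k; nlinarith
  have hel' : ∀ k, |1 / (D' * e (k + 1)) - 1 / (D' * e k)| ≤ ε := by
    intro k
    have h1 := hel k
    have h2 : 1 / (D' * e (k + 1)) - 1 / (D' * e k) = (1 / e (k + 1) - 1 / e k) / D' := by
      have := he0 k
      have := he0 (k + 1)
      field_simp
    rw [h2, abs_div, abs_of_pos (show 0 < D' by linarith), div_le_iff₀ (by linarith)]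
    nlinarith
  have hes' : Summable fun k => Real.exp (-(a₀ * ρ / 2 / (3 * 𝓖.Co * (2 * (D' * e k))))) := by
    refine hes.congr fun k => ?_
    congr 2
    have := he0 k
    have hCo0 : 0 < 𝓖.Co := by linarith
    field_simp
    norm_num
  have hflow := local_flow hn 𝓓 𝓖 hgg hker (EuclideanSpace ℂ (Fin k)) N M C
    ρ₀ ρ ε ε₀ hM2 hρ0 hρ8 hρ1 hεpos hε1 hεM hεε haug (fun k => D' * e k) he0' heS' hel' hes' f
    (fun z => WithLp.toLp 2 fun i => a i z) (fun j => (hf j).1)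
    (fun j z hz => (hM₁ j z hz).trans (by rw [hM]; linarith)) ?_ ?_ ?_ ?_ hp
  · -- the conclusion
    obtain ⟨f₀, hf₀, hf₀l, C', hC'⟩ := hflow
    have hall : ∀ j, IsHinf 𝓓.D ((Fin.cons f₀ f : Fin (N + 1) → En n → ℂ) j) := by
      intro j
      refine Fin.cases ?_ (fun j => ?_) j
      · rw [Fin.cons_zero]; exact hf₀
      · rw [Fin.cons_succ]; exact hf j
    refine char_solv hm hall hC' fun j => ?_
    refine Fin.cases ?_ (fun j => ?_) j
    · rw [Fin.cons_zero]; exact 𝓓.char_boundary hm hp hf₀ hf₀l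
    · rw [Fin.cons_succ]; exact hm0 j
  · have h1 : DifferentiableOn ℂ (fun z => (fun i => a i z)) 𝓓.D :=
      differentiableOn_pi.mpr fun i => (ha i).1.1
    exact (PiLp.continuousLinearEquiv 2 ℂ
      (fun _ : Fin k => ℂ)).symm.differentiable.comp_differentiableOn h1
  · intro z hz
    have h1 : ‖(WithLp.toLp 2 fun i => a i z : EuclideanSpace ℂ (Fin k))‖ ≤ D' * M₂ := by
      apply le_of_sq_le_sq _ hDM
      rw [EuclideanSpace.norm_sq_eq]
      calc ∑ i, ‖a i z‖ ^ 2 ≤ ∑ _i : Fin k, M₂ ^ 2 := by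
            apply Finset.sum_le_sum
            intro i _
            exact pow_le_pow_left₀ (norm_nonneg _) (hM₂ i z hz) 2
        _ = k * M₂ ^ 2 := by
            rw [Finset.sum_const, Finset.card_univ, Fintype.card_fin, nsmul_eq_mul]
        _ ≤ D' ^ 2 * M₂ ^ 2 := by
            apply mul_le_mul_of_nonneg_right _ (by positivity)
            rw [hD']
            have : (0 : ℝ) ≤ k := Nat.cast_nonneg _
            nlinarith
        _ = _ := by ring
    rw [hM]; linarith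
  · intro v hv
    have hg : ∀ i, CXP.Grad 𝓖 (a i) e := fun i =>
      grad_of_slow hn 𝓓 𝓖 hgg (A := A) (M := M₂) (by rw [hA]; linarith) hew (ha i).1.1 (hM₂ i)
        fun z hz hz1 => (haω i z hz hz1).trans (hωω i _)
    have hv' : ∀ i, ‖(starRingEnd ℂ) (v i)‖ ≤ 1 := by
      intro i
      rw [RCLike.norm_conj]
      exact (PiLp.norm_apply_le v i).trans hv
    have h1 := grad_sum hg hv' Finset.univ
    have h2 : (fun z => ⟪v, (WithLp.toLp 2 fun i => a i z : EuclideanSpace ℂ (Fin k))⟫_ℂ) =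
        fun z => ∑ i, (starRingEnd ℂ) (v i) * a i z := by
      funext z
      rw [PiLp.inner_apply]
      refine Finset.sum_congr rfl fun i _ => ?_
      rw [RCLike.inner_apply, mul_comm]
    rw [h2]
    refine grad_mono h1 fun k' => ?_
    rw [Finset.card_univ, Fintype.card_fin, hD']
    have := (he0 k').le
    nlinarith
  · intro b hb
    refine solv_sub (hloc b hb) ?_ le_rfl
    rintro z ⟨hz1, hz2⟩
    refine ⟨hz1, fun i => lt_of_le_of_lt ?_ hz2⟩
    exact PiLp.norm_apply_le ((WithLp.toLp 2 fun i => a i z : EuclideanSpace ℂ (Fin k)) -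
      (WithLp.toLp 2 fun i => a i b : EuclideanSpace ℂ (Fin k))) i

end Pool.Agent.MPca0fc2.CXS
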