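import Mathlib
import Pool.Agent.Lib.MP_ca0fc2_an.CXSMain

/-!
# Strongly convex domains: reduction to the normalized ones
-/

set_option autoImplicit false

open Metric Set Filter Topology MeasureTheory

namespace Pool.Agent.MPca0fc2.CXS

open Pool.Agent.MPca0fc2.CX
open Pool.Agent.Lib.MP_ca0fc2_an

variable {n : ℕ}

/-- The first order condition of strong convexity. -/
theorem strong_first {ρ : En n → ℝ} (hρ : Differentiable ℝ ρ) {c : ℝ}
    (hconv : StrongConvexOn univ c ρ) (w z : En n) :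
    ρ w + fderiv ℝ ρ w (z - w) + c / 2 * ‖z - w‖ ^ 2 ≤ ρ z := by
  have h1 : HasDerivAt (fun t : ℝ => ρ (w + t • (z - w))) (fderiv ℝ ρ w (z - w)) 0 := by
    have h2 : HasDerivAt (fun t : ℝ => w + t • (z - w)) (z - w) 0 := by
      have h3 := ((hasDerivAt_id (0 : ℝ)).smul_const (z - w)).const_add w
      simpa using h3
    have h4 : HasFDerivAt ρ (fderiv ℝ ρ w) (w + (0 : ℝ) • (z - w)) := by
      rw [zero_smul, add_zero]; exact (hρ w).hasFDerivAt
    exact h4.comp_hasDerivAt (0 : ℝ) h2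
  have h2 := h1.tendsto_slope_zero_right
  have h3 : Tendsto (fun t : ℝ => ρ z - ρ w - (1 - t) * (c / 2) * ‖z - w‖ ^ 2) (𝓝[>] 0)
      (𝓝 (ρ z - ρ w - (1 - 0) * (c / 2) * ‖z - w‖ ^ 2)) := by
    apply Tendsto.mono_left _ nhdsWithin_le_nhds
    apply Continuous.tendsto
    fun_prop
  have h4 : fderiv ℝ ρ w (z - w) ≤ ρ z - ρ w - (1 - 0) * (c / 2) * ‖z - w‖ ^ 2 := by
    refine le_of_tendsto_of_tendsto h2 h3 ?_
    have h5 : ∀ᶠ t : ℝ in 𝓝[>] 0, t < 1 :=
      (eventually_lt_nhds (show (0 : ℝ) < 1 by norm_num)).filter_mono nhdsWithin_le_nhds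
    filter_upwards [self_mem_nhdsWithin, h5] with t ht ht1
    rw [mem_Ioi] at ht
    have h6 := hconv.2 (mem_univ w) (mem_univ z) (show (0 : ℝ) ≤ 1 - t by linarith) ht.le
      (by ring)
    have h7 : (1 - t) • w + t • z = w + t • (z - w) := by
      rw [sub_smul, one_smul, smul_sub]; abel
    rw [h7] at h6
    simp only [smul_eq_mul, zero_add] at h6 ⊢
    rw [zero_smul, add_zero, inv_mul_le_iff₀ ht]
    rw [norm_sub_rev w z] at h6
    nlinarith
  linarith

/-- The normalization. -/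
theorem exists_dm {ρ : En n → ℝ} (hρ : ContDiff ℝ 3 ρ) {c : ℝ} (hc : 0 < c)
    (hconv : StrongConvexOn univ c ρ) (hne : ∃ z, ρ z < 0) :
    ∃ (𝓓 : Dm n) (p : En n) (s : ℝ), 0 < s ∧ s ≤ 1 ∧ ∀ z, 𝓓.ρ z = ρ (p + s • z) := by
  obtain ⟨w₀, hw₀⟩ := hne
  have hd : Differentiable ℝ ρ := hρ.differentiable (by norm_num)
  have hfirst := strong_first hd hconv
  obtain ⟨L, hL⟩ : ∃ L, L = ‖fderiv ℝ ρ w₀‖ := ⟨_, rfl⟩
  have hL0 : 0 ≤ L := by rw [hL]; exact norm_nonneg _
  obtain ⟨p, hpK, hp⟩ := (isCompact_closedBall w₀ (2 * L / c)).exists_isMinOn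
    (nonempty_closedBall.mpr (by positivity)) hρ.continuous.continuousOn
  have hpw : ρ p ≤ ρ w₀ := hp (mem_closedBall_self (by positivity))
  have hmin : ∀ z, ρ p ≤ ρ z := by
    intro z
    by_cases hz : z ∈ closedBall w₀ (2 * L / c)
    · exact hp hz
    · refine hpw.trans ?_
      rw [mem_closedBall, dist_eq_norm, not_le, div_lt_iff₀ hc] at hz
      have h1 := hfirst w₀ z
      have h2 : -(L * ‖z - w₀‖) ≤ fderiv ℝ ρ w₀ (z - w₀) := by
        have h3 := (fderiv ℝ ρ w₀).le_opNorm (z - w₀)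
        rw [← hL, Real.norm_eq_abs] at h3
        linarith [(abs_le.mp h3).1]
      nlinarith [norm_nonneg (z - w₀)]
  have hpD : p ∈ {z | ρ z < 0} := lt_of_le_of_lt hpw hw₀
  have hopen : IsOpen {z | ρ z < 0} := isOpen_lt hρ.continuous continuous_const
  obtain ⟨s, hs, hsD⟩ := (Metric.nhds_basis_closedBall.mem_iff).mp (hopen.mem_nhds hpD)
  obtain ⟨t, ht⟩ : ∃ t, t = min s 1 := ⟨_, rfl⟩
  have ht0 : 0 < t := by rw [ht]; positivity
  have ht1 : t ≤ 1 := by rw [ht]; exact min_le_right _ _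
  have hts : t ≤ s := by rw [ht]; exact min_le_left _ _
  have hder : ∀ w v : En n, fderiv ℝ (fun z => ρ (p + t • z)) w v =
      fderiv ℝ ρ (p + t • w) (t • v) := by
    intro w v
    have h2 : HasFDerivAt (fun z : En n => p + t • z) (t • ContinuousLinearMap.id ℝ (En n)) w :=
      ((hasFDerivAt_id w).const_smul t).const_add p
    have h3 := ((hd (p + t • w)).hasFDerivAt).comp w h2
    rw [show (fun z => ρ (p + t • z)) = ρ ∘ fun z => p + t • z from rfl, h3.fderiv]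
    simp
  refine ⟨⟨fun z => ρ (p + t • z), ?_, t ^ 2 * (c / 2), by positivity, ?_, ?_, ?_⟩, p, t, ht0, ht1,
    fun z => rfl⟩
  · exact hρ.comp (contDiff_const.add (contDiff_id.const_smul t))
  · intro w z
    rw [hder]
    have h1 := hfirst (p + t • w) (p + t • z)
    have h2 : p + t • z - (p + t • w) = t • (z - w) := by rw [smul_sub]; abel
    rw [h2, norm_smul, mul_pow, Real.norm_eq_abs, sq_abs] at h1
    linarith
  · intro z
    rw [smul_zero, add_zero]
    exact hmin _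
  · intro z hz
    apply hsD
    rw [mem_closedBall, dist_eq_norm, add_sub_cancel_left, norm_smul, Real.norm_of_nonneg ht0.le]
    nlinarith [norm_nonneg z]

theorem rate_scale {ω : ℝ → ℝ} (h : Rate ω) {s : ℝ} (hs : 0 < s) (hs1 : s ≤ 1) :
    Rate fun t => ω (s * t) := by
  have hmem : ∀ t ∈ Ioo (0 : ℝ) 1, s * t ∈ Ioo (0 : ℝ) 1 := by
    intro t ht
    refine ⟨mul_pos hs ht.1, ?_⟩
    have := ht.1
    have := ht.2
    nlinarith
  refine ⟨fun t ht => h.1 _ (hmem t ht), fun c hc => ?_⟩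
  have h1 : Integrable ((Ioo (0 : ℝ) 1).indicator fun t => Real.exp (-(c / ω t)) / t) :=
    (integrable_indicator_iff measurableSet_Ioo).mpr (h.2 c hc)
  have h2 := (h1.comp_mul_left' hs.ne').const_mul s
  refine h2.integrableOn.congr_fun (fun t ht => ?_) measurableSet_Ioo
  have ht0 : 0 < t := ht.1
  show s * (Ioo (0 : ℝ) 1).indicator (fun t => Real.exp (-(c / ω t)) / t) (s * t) =
    Real.exp (-(c / ω (s * t))) / t
  rw [indicator_of_mem (hmem t ht)]
  field_simp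

theorem dil_map {p : En n} {s : ℝ} :
    Differentiable ℂ fun z : En n => p + (s : ℂ) • z :=
  (differentiable_const p).add (differentiable_id.const_smul (s : ℂ))

/-- Slow functions after a dilation. -/
theorem slow_dil (hn : 1 ≤ n) {D D' : Set (En n)} (hDo : IsOpen D) (hDb : Bornology.IsBounded D)
    {p : En n} {s : ℝ} (hs : 0 < s)
    (hs1 : s ≤ 1) (hD : ∀ z, z ∈ D' ↔ p + (s : ℂ) • z ∈ D) {u : En n → ℂ} (hu : u ∈ SlowOn D) :
    (fun z => u (p + (s : ℂ) • z)) ∈ SlowOn D' := by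
  have hnt : Nontrivial (En n) := by
    have : Nonempty (Fin n) := ⟨⟨0, hn⟩⟩
    infer_instance
  obtain ⟨⟨hu1, M, huM⟩, ω, hω, hωu⟩ := hu
  have hsC : (s : ℂ) ≠ 0 := by exact_mod_cast hs.ne'
  -- the inverse map
  have hT : ∀ y : En n, p + (s : ℂ) • ((s : ℂ)⁻¹ • (y - p)) = y := by
    intro y
    rw [smul_smul, mul_inv_cancel₀ hsC, one_smul]; abel
  have hTmem : ∀ y : En n, y ∈ D ↔ (s : ℂ)⁻¹ • (y - p) ∈ D' := by
    intro y
    rw [hD, hT]
  have hne : (Dᶜ).Nonempty := by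
    rw [Set.nonempty_compl]
    intro h
    rw [h] at hDb
    exact NormedSpace.unbounded_univ ℂ (En n) hDb
  have hne' : (D'ᶜ).Nonempty := by
    obtain ⟨y, hy⟩ := hne
    exact ⟨(s : ℂ)⁻¹ • (y - p), fun h => hy ((hTmem y).mpr h)⟩
  have hdist : ∀ a b : En n, dist (p + (s : ℂ) • a) (p + (s : ℂ) • b) = s * dist a b := by
    intro a b
    rw [dist_eq_norm, dist_eq_norm, add_sub_add_left_eq_sub, ← smul_sub, norm_smul,
      Complex.norm_real, Real.norm_of_nonneg hs.le]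
  have hinf : ∀ z : En n, infDist (p + (s : ℂ) • z) Dᶜ = s * infDist z D'ᶜ := by
    intro z
    apply le_antisymm
    · rw [← div_le_iff₀' hs, le_infDist hne']
      intro y hy
      rw [div_le_iff₀' hs, ← hdist]
      exact infDist_le_dist_of_mem fun h => hy ((hD y).mpr h)
    · rw [le_infDist hne]
      intro y hy
      have h1 : dist (p + (s : ℂ) • z) y = s * dist z ((s : ℂ)⁻¹ • (y - p)) := by
        rw [← hdist, hT]
      rw [h1]
      exact mul_le_mul_of_nonneg_left (infDist_le_dist_of_mem fun h => hy ((hTmem y).mpr h)) hs.le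
  have hmaps : MapsTo (fun z : En n => p + (s : ℂ) • z) D' D := fun z hz => (hD z).mp hz
  refine ⟨⟨hu1.comp dil_map.differentiableOn hmaps, M, fun z hz => huM _ (hmaps hz)⟩,
    fun t => ω (s * t), rate_scale hω hs hs1, fun z hz hz1 => ?_⟩
  have h1 := hωu _ (hmaps hz) (by
    rw [hinf]
    have := infDist_nonneg (x := z) (s := D'ᶜ)
    nlinarith)
  have h2 : fderiv ℂ (fun z : En n => u (p + (s : ℂ) • z)) z =
      (s : ℂ) • fderiv ℂ u (p + (s : ℂ) • z) := by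
    have h3 : HasFDerivAt (fun z : En n => p + (s : ℂ) • z)
        ((s : ℂ) • ContinuousLinearMap.id ℂ (En n)) z :=
      ((hasFDerivAt_id z).const_smul (s : ℂ)).const_add p
    have h4 := (((hu1.differentiableAt (hDo.mem_nhds (hmaps hz))).hasFDerivAt)).comp z h3
    rw [show (fun z => u (p + (s : ℂ) • z)) = u ∘ fun z => p + (s : ℂ) • z from rfl, h4.fderiv]
    ext v
    simp
  rw [h2, norm_smul, Complex.norm_real, Real.norm_of_nonneg hs.le]
  rw [hinf] at h1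
  calc infDist z D'ᶜ * (s * ‖fderiv ℂ u (p + (s : ℂ) • z)‖) =
      s * infDist z D'ᶜ * ‖fderiv ℂ u (p + (s : ℂ) • z)‖ := by ring
    _ ≤ _ := h1

theorem solv_dil {D D' : Set (En n)} {p : En n} {s : ℝ} (hD : ∀ z ∈ D', p + (s : ℂ) • z ∈ D)
    {N : ℕ} {f : Fin N → En n → ℂ} {C : ℝ} (h : SolvableOn f D C) :
    SolvableOn (fun j z => f j (p + (s : ℂ) • z)) D' C := by
  obtain ⟨g, h1, h2, h3⟩ := h
  exact ⟨fun j z => g j (p + (s : ℂ) • z),
    fun j => (h1 j).comp dil_map.differentiableOn fun z hz => hD z hz,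
    fun j z hz => h2 j _ (hD z hz), fun z hz => h3 _ (hD z hz)⟩

/-- The corona problem on every strongly convex domain is local over the slow functions. -/
theorem locOn_convex (hn : 1 ≤ n) {ρ : En n → ℝ} (hρ : ContDiff ℝ 3 ρ) {c : ℝ} (hc : 0 < c)
    (hconv : StrongConvexOn univ c ρ) : LocOn {z | ρ z < 0} (SlowOn {z | ρ z < 0}) := by
  by_cases hne : ∃ z, ρ z < 0
  swap
  · intro N k f a C ε hf ha hε hloc
    push Not at hne
    refine ⟨0, fun _ _ => 0, fun j => differentiableOn_const _, fun j z hz => ?_, fun z hz => ?_⟩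
    · exact absurd hz (not_lt.mpr (hne z))
    · exact absurd hz (not_lt.mpr (hne z))
  obtain ⟨𝓓, p, s, hs, hs1, h⟩ := exists_dm hρ hc hconv hne
  obtain ⟨D, hDdef⟩ : ∃ D : Set (En n), D = {z | ρ z < 0} := ⟨_, rfl⟩
  rw [← hDdef]
  have hDo : IsOpen D := by
    rw [hDdef]; exact isOpen_lt hρ.continuous continuous_const
  have hsC : (s : ℂ) ≠ 0 := by exact_mod_cast hs.ne'
  have hsm : ∀ z : En n, s • z = (s : ℂ) • z := fun z =>
    RCLike.real_smul_eq_coe_smul (K := ℂ) s z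
  have hD : ∀ z, z ∈ 𝓓.D ↔ p + (s : ℂ) • z ∈ D := by
    intro z
    rw [hDdef, ← hsm]
    show 𝓓.ρ z < 0 ↔ ρ (p + s • z) < 0
    rw [h]
  have hT : ∀ y : En n, p + (s : ℂ) • (-((s : ℂ)⁻¹ • p) + ((s⁻¹ : ℝ) : ℂ) • y) = y := by
    intro y
    rw [smul_add, smul_neg, smul_smul, smul_smul, mul_inv_cancel₀ hsC, one_smul, Complex.ofReal_inv,
      mul_inv_cancel₀ hsC, one_smul]
    abel
  have hTmem : ∀ y ∈ D, -((s : ℂ)⁻¹ • p) + ((s⁻¹ : ℝ) : ℂ) • y ∈ 𝓓.D := by
    intro y hy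
    rw [hD, hT]; exact hy
  have hDb : Bornology.IsBounded D := by
    obtain ⟨R, hR⟩ := isBounded_iff_forall_norm_le.mp (bdd_D 𝓓)
    rw [isBounded_iff_forall_norm_le]
    refine ⟨‖p‖ + s * R, fun y hy => ?_⟩
    have h1 := hR _ (hTmem y hy)
    calc ‖y‖ = ‖p + (s : ℂ) • (-((s : ℂ)⁻¹ • p) + ((s⁻¹ : ℝ) : ℂ) • y)‖ := by rw [hT]
      _ ≤ ‖p‖ + ‖(s : ℂ) • (-((s : ℂ)⁻¹ • p) + ((s⁻¹ : ℝ) : ℂ) • y)‖ := norm_add_le _ _
      _ ≤ _ := by
        rw [norm_smul, Complex.norm_real, Real.norm_of_nonneg hs.le]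
        gcongr
  intro N k f a C ε hf ha hε hloc
  obtain ⟨C', hC'⟩ := locOn_dm hn 𝓓 N k (fun j z => f j (p + (s : ℂ) • z))
    (fun i z => a i (p + (s : ℂ) • z)) C ε
    (fun j => ⟨(hf j).1.comp dil_map.differentiableOn fun z hz => (hD z).mp hz,
      (hf j).2.choose, fun z hz => (hf j).2.choose_spec _ ((hD z).mp hz)⟩)
    (fun i => slow_dil hn hDo hDb hs hs1 hD (ha i)) hε
    (fun b hb => by
      refine solv_dil ?_ (hloc _ ((hD b).mp hb))
      intro z hz
      exact ⟨(hD z).mp hz.1, hz.2⟩)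
  have h1 := solv_dil (p := -((s : ℂ)⁻¹ • p)) (s := s⁻¹) (D' := D) (fun y hy => hTmem y hy) hC'
  refine ⟨C', ?_⟩
  simp only [hT] at h1
  exact h1

/-- Extension of the characters of `H^∞` of a strongly convex domain. -/
theorem convex_spec (hn : 1 ≤ n) {ρ : En n → ℝ} (hρ : ContDiff ℝ 3 ρ) {c : ℝ} (hc : 0 < c)
    (hconv : StrongConvexOn univ c ρ) {χ : (En n → ℂ) → ℂ} (hχ : IsCharacter {z | ρ z < 0} χ)
    {k : ℕ} {a : Fin k → En n → ℂ}
    (ha : ∀ i, a i ∈ HullOn {z | ρ z < 0} (SlowOn {z | ρ z < 0})) {ε : ℝ} (hε : 0 < ε) :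
    ∃ M, IsCharacter {z | ρ z < 0 ∧ ∀ i, ‖a i z - χ (a i)‖ < ε} M ∧
      ∀ f, IsHinf {z | ρ z < 0} f → M f = χ f := by
  have hDo : IsOpen {z : En n | ρ z < 0} := isOpen_lt hρ.continuous continuous_const
  exact char_extend hDo (locOn_hull hDo (fun u hu => hu.1.1) (locOn_convex hn hρ hc hconv))
    (fun a ha => ha.1) hχ ha hε

end Pool.Agent.MPca0fc2.CXS
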