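import Mathlib
import Pool.Agent.Lib.MP_ca0fc2_an.SPGel
import Pool.Agent.Lib.MP_ca0fc2_an.Mg.G062

/-! The corona problem for data which are locally, over the spectrum of an algebra, nearly functions
of one function. -/

set_option autoImplicit false

open Metric Set Filter Topology

namespace Pool.Agent.MPca0fc2.CXS

open Pool.Agent.Lib.MP_ca0fc2_an
open Pool.Agent.MPca0fc2.SP (holAlg resK resK_mem planar_corona)

variable {d : ℕ}

/-- `D` is a neighbourhood, in the domain `Δ`, of the character of the algebra `A` defined by `U`. -/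
def NhdOn (Δ : Set (EuclideanSpace ℂ (Fin d))) (A : Set (EuclideanSpace ℂ (Fin d) → ℂ))
    (U : Ultrafilter (EuclideanSpace ℂ (Fin d))) (D : Set (EuclideanSpace ℂ (Fin d))) : Prop :=
  D ⊆ Δ ∧ ∃ (k : ℕ) (a : Fin k → EuclideanSpace ℂ (Fin d) → ℂ) (c : Fin k → ℂ) (ε : ℝ), 0 < ε ∧
    (∀ i, a i ∈ A ∧ Tendsto (a i) U (𝓝 (c i))) ∧
    ∀ z ∈ Δ, (∀ i, ‖a i z - c i‖ < ε) → z ∈ D

/-- Near the character the functions `f_j` are nearly functions of one function. -/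
def OneOn {N : ℕ} (Δ : Set (EuclideanSpace ℂ (Fin d))) (A : Set (EuclideanSpace ℂ (Fin d) → ℂ))
    (U : Ultrafilter (EuclideanSpace ℂ (Fin d))) (f : Fin N → EuclideanSpace ℂ (Fin d) → ℂ) : Prop :=
  ∃ (D : Set (EuclideanSpace ℂ (Fin d))) (F : EuclideanSpace ℂ (Fin d) → ℂ) (R : ℝ),
    NhdOn Δ A U D ∧ DifferentiableOn ℂ F D ∧
    (∀ z ∈ D, ‖F z‖ ≤ R) ∧ ∀ ε : ℝ, 0 < ε → ∃ D' ⊆ D, NhdOn Δ A U D' ∧
      ∃ (V : Set ℂ) (g : Fin N → ℂ → ℂ), IsOpen V ∧ closure (F '' D') ⊆ V ∧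
        (∀ j, DifferentiableOn ℂ (g j) V) ∧ ∀ z ∈ D', ∀ j, ‖f j z - g j (F z)‖ ≤ ε

variable {Δ : Set (EuclideanSpace ℂ (Fin d))}






theorem nhd_all (Δ : Set (EuclideanSpace ℂ (Fin d))) (A : Set (EuclideanSpace ℂ (Fin d) → ℂ)) (U : Ultrafilter (EuclideanSpace ℂ (Fin d))) : NhdOn Δ A U Δ :=
  ⟨Subset.rfl, 0, fun i => i.elim0, fun i => i.elim0, 1, one_pos, fun i => i.elim0,
    fun _ hz _ => hz⟩

theorem nhd_inter {A : Set (EuclideanSpace ℂ (Fin d) → ℂ)} {U : Ultrafilter (EuclideanSpace ℂ (Fin d))} {D D' : Set (EuclideanSpace ℂ (Fin d))} (h : NhdOn Δ A U D)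
    (h' : NhdOn Δ A U D') : NhdOn Δ A U (D ∩ D') := by
  obtain ⟨h1, k, a, c, ε, hε, ha, hD⟩ := h
  obtain ⟨-, k', a', c', ε', hε', ha', hD'⟩ := h'
  refine ⟨inter_subset_left.trans h1, k + k', Fin.append a a', Fin.append c c', min ε ε',
    lt_min hε hε', ?_, ?_⟩
  · intro i
    refine Fin.addCases (fun i => ?_) (fun i => ?_) i
    · rw [Fin.append_left, Fin.append_left]
      exact ha i
    · rw [Fin.append_right, Fin.append_right]
      exact ha' i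
  · intro z hz h
    refine ⟨hD z hz fun i => ?_, hD' z hz fun i => ?_⟩
    · have := h (Fin.castAdd k' i)
      rw [Fin.append_left, Fin.append_left] at this
      exact this.trans_le (min_le_left _ _)
    · have := h (Fin.natAdd k i)
      rw [Fin.append_right, Fin.append_right] at this
      exact this.trans_le (min_le_right _ _)

theorem nhd_mono {A : Set (EuclideanSpace ℂ (Fin d) → ℂ)} {U : Ultrafilter (EuclideanSpace ℂ (Fin d))} {D D' : Set (EuclideanSpace ℂ (Fin d))} (h : NhdOn Δ A U D)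
    (hD : D ⊆ D') (hD' : D' ⊆ Δ) : NhdOn Δ A U D' := by
  obtain ⟨-, k, a, c, ε, hε, ha, h2⟩ := h
  exact ⟨hD', k, a, c, ε, hε, ha, fun z hz h3 => hD (h2 z hz h3)⟩

theorem nhd_mem {A : Set (EuclideanSpace ℂ (Fin d) → ℂ)} {U : Ultrafilter (EuclideanSpace ℂ (Fin d))} (hU : Δ ∈ U) {D : Set (EuclideanSpace ℂ (Fin d))}
    (h : NhdOn Δ A U D) : D ∈ U := by
  obtain ⟨-, k, a, c, ε, hε, ha, h2⟩ := h
  have h3 : ∀ i, ∀ᶠ z in (U : Filter (EuclideanSpace ℂ (Fin d))), ‖a i z - c i‖ < ε := by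
    intro i
    have h4 := ((ha i).2.sub_const (c i)).norm
    rw [sub_self, norm_zero] at h4
    exact h4.eventually (gt_mem_nhds hε)
  have h4 : ∀ᶠ z in (U : Filter (EuclideanSpace ℂ (Fin d))), ∀ i, ‖a i z - c i‖ < ε := eventually_all.mpr h3
  have h5 : ∀ᶠ z in (U : Filter (EuclideanSpace ℂ (Fin d))), z ∈ Δ := hU
  have h6 : ∀ᶠ z in (U : Filter (EuclideanSpace ℂ (Fin d))), z ∈ D := by
    filter_upwards [h4, h5] with z hz hz'
    exact h2 z hz' hz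
  exact h6

/-- From neighbourhoods to a cover by finitely many of them, with a Lebesgue number. -/
theorem cover_of_nhds (Δ : Set (EuclideanSpace ℂ (Fin d))) (A : Set (EuclideanSpace ℂ (Fin d) → ℂ)) (P : Set (EuclideanSpace ℂ (Fin d)) → Prop)
    (h : ∀ U : Ultrafilter (EuclideanSpace ℂ (Fin d)), Δ ∈ U → ∃ D, NhdOn Δ A U D ∧ P D) :
    ∃ (k : ℕ) (a : Fin k → EuclideanSpace ℂ (Fin d) → ℂ) (ε : ℝ) (Ds : Set (Set (EuclideanSpace ℂ (Fin d)))), (∀ i, a i ∈ A) ∧ 0 < ε ∧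
      Ds.Finite ∧ (∀ D ∈ Ds, P D) ∧
      ∀ b ∈ Δ, ∃ D ∈ Ds, ∀ z ∈ Δ, (∀ i, ‖a i z - a i b‖ < ε) → z ∈ D := by
  classical
  choose! D hD hP using h
  have hD2 : ∀ U : Ultrafilter (EuclideanSpace ℂ (Fin d)), Δ ∈ U → ∃ (k : ℕ) (a : Fin k → EuclideanSpace ℂ (Fin d) → ℂ) (c : Fin k → ℂ)
      (ε : ℝ), 0 < ε ∧ (∀ i, a i ∈ A ∧ Tendsto (a i) U (𝓝 (c i))) ∧
      ∀ z ∈ Δ, (∀ i, ‖a i z - c i‖ < ε) → z ∈ D U := fun U hU => (hD U hU).2
  choose! k a c ε hε ha hz using hD2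
  have hS : ∀ U : Ultrafilter (EuclideanSpace ℂ (Fin d)), Δ ∈ U →
      {z | z ∈ Δ ∧ ∀ i, ‖a U i z - c U i‖ < ε U / 2} ∈ U := by
    intro U hU
    exact nhd_mem (A := A) hU ⟨fun z hz => hz.1, k U, a U, c U, ε U / 2, half_pos (hε U hU),
      ha U hU, fun z hz h => ⟨hz, h⟩⟩
  have hc : IsCompact {U : Ultrafilter (EuclideanSpace ℂ (Fin d)) | Δ ∈ U} := (ultrafilter_isClosed_basic _).isCompact
  obtain ⟨t, ht, hcov⟩ := hc.elim_nhds_subcover
    (fun U => {W | {z | z ∈ Δ ∧ ∀ i, ‖a U i z - c U i‖ < ε U / 2} ∈ W})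
    (fun U hU => (ultrafilter_isOpen_basic _).mem_nhds (hS U hU))
  obtain ⟨ε', hε', hεle⟩ : ∃ ε' : ℝ, 0 < ε' ∧ ∀ U ∈ t, ε' ≤ ε U / 2 := by
    rcases t.eq_empty_or_nonempty with h0 | h0
    · exact ⟨1, one_pos, fun U hU => by rw [h0] at hU; simp at hU⟩
    · refine ⟨t.inf' h0 fun U => ε U / 2, ?_, fun U hU => Finset.inf'_le _ hU⟩
      rw [Finset.lt_inf'_iff]
      exact fun U hU => half_pos (hε U (ht U hU))
  obtain ⟨e⟩ : Nonempty ((Σ U : t, Fin (k U.1)) ≃ Fin (Fintype.card (Σ U : t, Fin (k U.1)))) :=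
    ⟨Fintype.equivFin _⟩
  obtain ⟨a', ha'⟩ : ∃ a' : (Σ U : t, Fin (k U.1)) → EuclideanSpace ℂ (Fin d) → ℂ, a' = fun x => a x.1.1 x.2 := ⟨_, rfl⟩
  refine ⟨_, fun i => a' (e.symm i), ε', D '' (t : Set (Ultrafilter (EuclideanSpace ℂ (Fin d)))),
    fun i => by rw [ha']; exact (ha _ (ht _ (e.symm i).1.2) _).1, hε',
    (Finset.finite_toSet t).image _, ?_, ?_⟩
  · rintro _ ⟨U, hU, rfl⟩
    exact hP U (ht U hU)
  · intro b hb
    have h1 : (pure b : Ultrafilter (EuclideanSpace ℂ (Fin d))) ∈ {U : Ultrafilter (EuclideanSpace ℂ (Fin d)) | Δ ∈ U} := by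
      rw [Set.mem_ofPred_eq, Ultrafilter.mem_pure]
      exact hb
    have h2 := hcov h1
    simp only [mem_iUnion, Set.mem_ofPred_eq, Ultrafilter.mem_pure] at h2
    obtain ⟨U, hU, -, hbU⟩ := h2
    refine ⟨D U, ⟨U, hU, rfl⟩, fun z hzb h3 => hz U (ht U hU) z hzb fun i => ?_⟩
    have h4 : ‖a U i z - a U i b‖ < ε' := by
      have h5 : ‖a' (e.symm (e ⟨⟨U, hU⟩, i⟩)) z - a' (e.symm (e ⟨⟨U, hU⟩, i⟩)) b‖ < ε' :=
        h3 (e ⟨⟨U, hU⟩, i⟩)
      rw [Equiv.symm_apply_apply, ha'] at h5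
      exact h5
    have h5 := hbU i
    have h6 := hεle U hU
    calc ‖a U i z - c U i‖ = ‖(a U i z - a U i b) + (a U i b - c U i)‖ := by congr 1; ring
      _ ≤ ‖a U i z - a U i b‖ + ‖a U i b - c U i‖ := norm_add_le _ _
      _ < ε U := by linarith







/-- the cluster set of `F` -/
def clus (Δ : Set (EuclideanSpace ℂ (Fin d))) (A : Set (EuclideanSpace ℂ (Fin d) → ℂ)) (U : Ultrafilter (EuclideanSpace ℂ (Fin d))) (D : Set (EuclideanSpace ℂ (Fin d))) (F : EuclideanSpace ℂ (Fin d) → ℂ) : Set ℂ :=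
  {w | ∀ D', NhdOn Δ A U D' → w ∈ closure (F '' (D' ∩ D))}

theorem clus_sub {A : Set (EuclideanSpace ℂ (Fin d) → ℂ)} {U : Ultrafilter (EuclideanSpace ℂ (Fin d))} {D : Set (EuclideanSpace ℂ (Fin d))} {F : EuclideanSpace ℂ (Fin d) → ℂ} {R : ℝ}
    (hFR : ∀ z ∈ D, ‖F z‖ ≤ R) : clus Δ A U D F ⊆ closedBall 0 R := by
  intro w hw
  have h := hw _ (nhd_all Δ A U)
  refine closure_minimal ?_ isClosed_closedBall h
  rintro _ ⟨z, hz, rfl⟩
  rw [mem_closedBall_zero_iff]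
  exact hFR z hz.2

theorem clus_closed (Δ : Set (EuclideanSpace ℂ (Fin d))) (A : Set (EuclideanSpace ℂ (Fin d) → ℂ)) (U : Ultrafilter (EuclideanSpace ℂ (Fin d))) (D : Set (EuclideanSpace ℂ (Fin d))) (F : EuclideanSpace ℂ (Fin d) → ℂ) :
    IsClosed (clus Δ A U D F) := by
  have h : clus Δ A U D F = ⋂ D' : {D' // NhdOn Δ A U D'}, closure (F '' (D'.1 ∩ D)) := by
    ext w
    simp [clus]
  rw [h]
  exact isClosed_iInter fun _ => isClosed_closure

/-- The images of small neighbourhoods are in a given neighbourhood of the cluster set. -/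
theorem clus_nhd {A : Set (EuclideanSpace ℂ (Fin d) → ℂ)} {U : Ultrafilter (EuclideanSpace ℂ (Fin d))} {D : Set (EuclideanSpace ℂ (Fin d))} (hD : NhdOn Δ A U D) {F : EuclideanSpace ℂ (Fin d) → ℂ}
    {R : ℝ} (hFR : ∀ z ∈ D, ‖F z‖ ≤ R) {V : Set ℂ} (hV : IsOpen V) (h : clus Δ A U D F ⊆ V) :
    ∃ D', NhdOn Δ A U D' ∧ D' ⊆ D ∧ ∀ z ∈ D', F z ∈ V := by
  by_contra hcon
  push Not at hcon
  have hne : ∀ D' : {D' // NhdOn Δ A U D'}, (closure (F '' (D'.1 ∩ D)) ∩ Vᶜ).Nonempty := by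
    rintro ⟨D', hD'⟩
    obtain ⟨z, hz, hzV⟩ := hcon (D' ∩ D) (nhd_inter hD' hD) inter_subset_right
    exact ⟨F z, subset_closure ⟨z, hz, rfl⟩, hzV⟩
  have : Nonempty {D' // NhdOn Δ A U D'} := ⟨⟨D, hD⟩⟩
  have h1 := IsCompact.nonempty_iInter_of_directed_nonempty_isCompact_isClosed
    (fun D' : {D' // NhdOn Δ A U D'} => closure (F '' (D'.1 ∩ D)) ∩ Vᶜ) (by
      rintro ⟨D₁, h₁⟩ ⟨D₂, h₂⟩
      refine ⟨⟨D₁ ∩ D₂, nhd_inter h₁ h₂⟩, ?_, ?_⟩
      · exact inter_subset_inter_left _ (closure_mono (image_mono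
          (inter_subset_inter_left _ inter_subset_left)))
      · exact inter_subset_inter_left _ (closure_mono (image_mono
          (inter_subset_inter_left _ inter_subset_right)))) hne (by
      rintro ⟨D', hD'⟩
      refine IsCompact.of_isClosed_subset (isCompact_closedBall 0 R)
        (isClosed_closure.inter hV.isClosed_compl) ?_
      refine inter_subset_left.trans (closure_minimal ?_ isClosed_closedBall)
      rintro _ ⟨z, hz, rfl⟩
      rw [mem_closedBall_zero_iff]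
      exact hFR z hz.2) (fun _ => isClosed_closure.inter hV.isClosed_compl)
  obtain ⟨w, hw⟩ := h1
  rw [mem_iInter] at hw
  have h2 : w ∈ clus Δ A U D F := fun D' hD' => (hw ⟨D', hD'⟩).1
  exact (hw ⟨D, hD⟩).2 (h h2)

/-- Passing to the closure. -/
theorem clos_bound {F : EuclideanSpace ℂ (Fin d) → ℂ} {S : Set (EuclideanSpace ℂ (Fin d))} {w : ℂ} (hw : w ∈ closure (F '' S)) {ψ : ℂ → ℂ}
    {V : Set ℂ} (hV : IsOpen V) (hwV : w ∈ V) (hψ : ContinuousOn ψ V) {b : ℝ}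
    (h : ∀ z ∈ S, ‖ψ (F z)‖ ≤ b) : ‖ψ w‖ ≤ b := by
  have h1 : ContinuousAt ψ w := hψ.continuousAt (hV.mem_nhds hwV)
  have h2 := (h1.continuousWithinAt (s := F '' S)).mem_closure hw (t := closedBall 0 b) (by
    rintro _ ⟨z, hz, rfl⟩
    rw [mem_closedBall_zero_iff]
    exact h z hz)
  rw [isClosed_closedBall.closure_eq, mem_closedBall_zero_iff] at h2
  exact h2

theorem one_fun {A : Set (EuclideanSpace ℂ (Fin d) → ℂ)} {U : Ultrafilter (EuclideanSpace ℂ (Fin d))} {N : ℕ} (f : Fin N → EuclideanSpace ℂ (Fin d) → ℂ)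
    (hf : ∀ j, DifferentiableOn ℂ (f j) (Δ)) {δ : ℝ} (hδ : 0 < δ)
    (hfδ : ∀ z ∈ Δ, δ ≤ ∑ j, ‖f j z‖ ^ 2) (h : OneOn Δ A U f) :
    ∃ D, NhdOn Δ A U D ∧ ∃ C, SolvableOn f D C := by
  classical
  obtain ⟨D, F, R, hD, hF, hFR, happ⟩ := h
  obtain ⟨K, hK⟩ : ∃ K : Set ℂ, K = clus Δ A U D F := ⟨_, rfl⟩
  have hKc : IsCompact K := by
    rw [hK]
    exact IsCompact.of_isClosed_subset (isCompact_closedBall 0 R) (clus_closed _ _ _ _ _)
      (clus_sub hFR)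
  have : CompactSpace K := isCompact_iff_compactSpace.mp hKc
  have hε : ∀ n : ℕ, (0 : ℝ) < 1 / (n + 1) := fun n => by positivity
  choose D' hD'D hD' V g hV hcl hg hfg using fun n : ℕ => happ (1 / (n + 1)) (hε n)
  have hKV : ∀ n, K ⊆ V n := by
    intro n w hw
    rw [hK] at hw
    refine hcl n (closure_mono (image_mono ?_) (hw _ (hD' n)))
    exact inter_subset_left
  obtain ⟨G, hG⟩ : ∃ G : ℕ → Fin N → C(K, ℂ), G = fun n j => resK K (g n j) (hKV n) (hg n j) :=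
    ⟨_, rfl⟩
  have hGv : ∀ n j (w : K), G n j w = g n j w := by
    intro n j w
    rw [hG]
    rfl
  have hGm : ∀ n j, G n j ∈ holAlg K := by
    intro n j
    rw [hG]
    exact resK_mem K _ (hV n) _ _
  have hGG : ∀ n m j, ‖G n j - G m j‖ ≤ 1 / (n + 1) + 1 / (m + 1) := by
    intro n m j
    rw [ContinuousMap.norm_le _ (by positivity)]
    intro w
    rw [ContinuousMap.sub_apply, hGv, hGv]
    have hw : (w : ℂ) ∈ closure (F '' ((D' n ∩ D' m) ∩ D)) := by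
      have h0 : (w : ℂ) ∈ clus Δ A U D F := hK ▸ w.2
      exact h0 _ (nhd_inter (hD' n) (hD' m))
    refine clos_bound hw (ψ := fun w => g n j w - g m j w) ((hV n).inter (hV m))
      ⟨hKV n w.2, hKV m w.2⟩ (((hg n j).continuousOn.mono inter_subset_left).sub
        ((hg m j).continuousOn.mono inter_subset_right)) ?_
    rintro z ⟨⟨hz1, hz2⟩, -⟩
    have h1 := hfg n z hz1 j
    have h2 := hfg m z hz2 j
    calc ‖g n j (F z) - g m j (F z)‖ = ‖(f j z - g m j (F z)) - (f j z - g n j (F z))‖ := by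
          congr 1; ring
      _ ≤ ‖f j z - g m j (F z)‖ + ‖f j z - g n j (F z)‖ := norm_sub_le _ _
      _ ≤ _ := by linarith
  have hlim0 : Tendsto (fun n : ℕ => (1 : ℝ) / (n + 1)) atTop (𝓝 0) :=
    tendsto_one_div_add_atTop_nhds_zero_nat
  have hcau : ∀ j, CauchySeq fun n => G n j := by
    intro j
    rw [Metric.cauchySeq_iff]
    intro ε hε
    obtain ⟨n₀, hn₀⟩ := eventually_atTop.mp (hlim0.eventually (gt_mem_nhds (half_pos hε)))
    refine ⟨n₀, fun m hm n hn => ?_⟩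
    rw [dist_eq_norm]
    exact (hGG m n j).trans_lt (by linarith [hn₀ m hm, hn₀ n hn])
  choose φ hφ using fun j => cauchySeq_tendsto_of_complete (hcau j)
  have hφm : ∀ j, φ j ∈ (holAlg K).topologicalClosure := by
    intro j
    exact mem_closure_of_tendsto (hφ j) (Eventually.of_forall fun n => hGm n j)
  have hGφ : ∀ n j, ‖G n j - φ j‖ ≤ 1 / (n + 1) := by
    intro n j
    have h1 : Tendsto (fun m => ‖G n j - G m j‖) atTop (𝓝 ‖G n j - φ j‖) :=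
      (tendsto_const_nhds.sub (hφ j)).norm
    have h2 : Tendsto (fun m : ℕ => (1 : ℝ) / (n + 1) + 1 / (m + 1)) atTop
        (𝓝 (1 / (n + 1) + 0)) := tendsto_const_nhds.add hlim0
    rw [add_zero] at h2
    exact le_of_tendsto_of_tendsto' h1 h2 fun m => hGG n m j
  have hz : ∀ w : K, ∃ j, φ j w ≠ 0 := by
    intro w
    by_contra hcon
    push Not at hcon
    have key : ∀ n : ℕ, δ ≤ N * (3 * (1 / (n + 1))) ^ 2 := by
      intro n
      have h1 : ∀ j, ‖g n j w‖ ≤ 1 / (n + 1) := by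
        intro j
        have h2 := ((G n j - φ j).norm_coe_le_norm w).trans (hGφ n j)
        rwa [ContinuousMap.sub_apply, hcon j, sub_zero, hGv] at h2
      have hw : (w : ℂ) ∈ closure (F '' (D' n ∩ D)) := by
        have h0 : (w : ℂ) ∈ clus Δ A U D F := hK ▸ w.2
        exact h0 _ (hD' n)
      have h2 : ∀ᶠ v in 𝓝 (w : ℂ), ∀ j, ‖g n j v - g n j w‖ < 1 / (n + 1) := by
        rw [eventually_all]
        intro j
        have h3 : ContinuousAt (g n j) w :=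
          (hg n j).continuousOn.continuousAt ((hV n).mem_nhds (hKV n w.2))
        have h4 := (h3.tendsto.sub_const (g n j w)).norm
        rw [sub_self, norm_zero] at h4
        exact h4.eventually (gt_mem_nhds (hε n))
      obtain ⟨v, hv, z, hz, rfl⟩ := mem_closure_iff_nhds.mp hw _ h2
      have h5 : ∀ j, ‖f j z‖ ≤ 3 * (1 / (n + 1)) := by
        intro j
        have h6 := hfg n z hz.1 j
        have h7 : ‖g n j (F z) - g n j w‖ < 1 / (n + 1) := hv j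
        have h8 := h1 j
        calc ‖f j z‖ = ‖(f j z - g n j (F z)) + (g n j (F z) - g n j w) + g n j w‖ := by
              congr 1; ring
          _ ≤ ‖f j z - g n j (F z)‖ + ‖g n j (F z) - g n j w‖ + ‖g n j w‖ := norm_add₃_le
          _ ≤ _ := by linarith
      have h6 := hfδ z (hD.1 hz.2)
      refine h6.trans ?_
      calc ∑ j, ‖f j z‖ ^ 2 ≤ ∑ _j : Fin N, (3 * (1 / ((n : ℝ) + 1))) ^ 2 :=
            Finset.sum_le_sum fun j _ => pow_le_pow_left₀ (norm_nonneg _) (h5 j) 2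
        _ = _ := by rw [Finset.sum_const, nsmul_eq_mul, Finset.card_univ, Fintype.card_fin]
    have h1 : Tendsto (fun n : ℕ => (N : ℝ) * (3 * (1 / ((n : ℝ) + 1))) ^ 2) atTop
        (𝓝 ((N : ℝ) * (3 * 0) ^ 2)) := ((hlim0.const_mul 3).pow 2).const_mul _
    have h2 := ge_of_tendsto' h1 key
    norm_num at h2
    linarith
  obtain ⟨ψ, hψ, hsum⟩ := planar_corona K φ hφm hz
  choose W H hW hKW hH hψH using hψ
  obtain ⟨B, hB0, hB⟩ : ∃ B : ℝ, 0 ≤ B ∧ ∀ j, ‖ψ j‖ ≤ B :=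
    ⟨∑ j, ‖ψ j‖, Finset.sum_nonneg fun j _ => norm_nonneg _, fun j =>
      Finset.single_le_sum (f := fun j => ‖ψ j‖) (fun j _ => norm_nonneg _) (Finset.mem_univ j)⟩
  obtain ⟨n, hn⟩ : ∃ n : ℕ, (N : ℝ) * (B + 1) * (1 / (n + 1)) < 1 / 8 := by
    have h1 : Tendsto (fun n : ℕ => (N : ℝ) * (B + 1) * (1 / ((n : ℝ) + 1))) atTop
        (𝓝 (N * (B + 1) * 0)) := hlim0.const_mul _
    rw [mul_zero] at h1
    exact (h1.eventually (gt_mem_nhds (by norm_num))).exists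
  obtain ⟨W₀, hW₀⟩ : ∃ W₀ : Set ℂ, W₀ = V n ∩ ⋂ j, W j := ⟨_, rfl⟩
  have hW₀o : IsOpen W₀ := by
    rw [hW₀]
    exact (hV n).inter (isOpen_iInter_of_finite hW)
  have hKW₀ : K ⊆ W₀ := by
    rw [hW₀]
    exact subset_inter (hKV n) (subset_iInter hKW)
  have hgc : ∀ j, ContinuousOn (g n j) W₀ := fun j => (hg n j).continuousOn.mono (by
    rw [hW₀]; exact inter_subset_left)
  have hHc : ∀ j, ContinuousOn (H j) W₀ := fun j => (hH j).continuousOn.mono (by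
    rw [hW₀]; exact inter_subset_right.trans (iInter_subset _ j))
  have hN0 : (0 : ℝ) ≤ N := Nat.cast_nonneg _
  obtain ⟨V₁, hV₁⟩ : ∃ V₁ : Set ℂ, V₁ =
      (W₀ ∩ (fun w => ‖∑ j, g n j w * H j w - 1‖) ⁻¹' Iio (3 / 8)) ∩
        ⋂ j, (W₀ ∩ (fun w => ‖H j w‖) ⁻¹' Iio (B + 1)) := ⟨_, rfl⟩
  have hV₁o : IsOpen V₁ := by
    rw [hV₁]
    refine IsOpen.inter ?_ (isOpen_iInter_of_finite fun j => ?_)
    · refine ContinuousOn.isOpen_inter_preimage ?_ hW₀o isOpen_Iio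
      exact ((continuousOn_finsetSum _ fun j _ => (hgc j).mul (hHc j)).sub
        continuousOn_const).norm
    · exact (hHc j).norm.isOpen_inter_preimage hW₀o isOpen_Iio
  have hKV₁ : K ⊆ V₁ := by
    intro w hw
    have hψw : ∀ j, ‖H j w‖ ≤ B := by
      intro j
      have h1 := ((ψ j).norm_coe_le_norm ⟨w, hw⟩).trans (hB j)
      rwa [hψH j ⟨w, hw⟩] at h1
    rw [hV₁]
    refine ⟨⟨hKW₀ hw, ?_⟩, ?_⟩
    · show ‖∑ j, g n j w * H j w - 1‖ < 3 / 8
      have h1 := hsum ⟨w, hw⟩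
      simp only [hψH] at h1
      have h2 : ‖∑ j, g n j w * H j w - ∑ j, φ j ⟨w, hw⟩ * H j w‖ ≤ N * (B * (1 / (n + 1))) := by
        rw [← Finset.sum_sub_distrib]
        refine (norm_sum_le _ _).trans ?_
        calc ∑ j, ‖g n j w * H j w - φ j ⟨w, hw⟩ * H j w‖ ≤
            ∑ _j : Fin N, (B * (1 / ((n : ℝ) + 1))) := by
              refine Finset.sum_le_sum fun j _ => ?_
              rw [← sub_mul, norm_mul, mul_comm]
              refine mul_le_mul (hψw j) ?_ (norm_nonneg _) hB0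
              have h3 := ((G n j - φ j).norm_coe_le_norm ⟨w, hw⟩).trans (hGφ n j)
              rwa [ContinuousMap.sub_apply, hGv] at h3
          _ = _ := by rw [Finset.sum_const, nsmul_eq_mul, Finset.card_univ, Fintype.card_fin]
      have h3 : (N : ℝ) * (B * (1 / (n + 1))) ≤ N * (B + 1) * (1 / (n + 1)) := by
        have := (hε n).le
        nlinarith [mul_nonneg hN0 this]
      calc ‖∑ j, g n j w * H j w - 1‖ = ‖(∑ j, g n j w * H j w - ∑ j, φ j ⟨w, hw⟩ * H j w) +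
            (∑ j, φ j ⟨w, hw⟩ * H j w - 1)‖ := by congr 1; ring
        _ ≤ _ := norm_add_le _ _
        _ < 3 / 8 := by linarith
    · rw [mem_iInter]
      intro j
      refine ⟨hKW₀ hw, ?_⟩
      show ‖H j w‖ < B + 1
      linarith [hψw j]
  obtain ⟨D₁, hD₁, hD₁D, hD₁V⟩ := clus_nhd hD hFR hV₁o (by rw [← hK]; exact hKV₁)
  obtain ⟨D₂, hD₂⟩ : ∃ D₂ : Set (EuclideanSpace ℂ (Fin d)), D₂ = D₁ ∩ D' n := ⟨_, rfl⟩
  have hD₂n : NhdOn Δ A U D₂ := by rw [hD₂]; exact nhd_inter hD₁ (hD' n)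
  have hD₂D : D₂ ⊆ D := by rw [hD₂]; exact inter_subset_left.trans hD₁D
  have hD₂V : ∀ z ∈ D₂, F z ∈ V₁ := fun z hz => hD₁V z (by rw [hD₂] at hz; exact hz.1)
  have hb : ∀ z ∈ D₂, ∀ j, ‖H j (F z)‖ ≤ B + 1 := by
    intro z hz j
    have h1 := hD₂V z hz
    rw [hV₁] at h1
    exact (mem_iInter.mp h1.2 j).2.le
  have hdH : ∀ j, DifferentiableOn ℂ (fun z => H j (F z)) D₂ := by
    intro j z hz
    have h1 := hD₂V z hz
    rw [hV₁] at h1
    have h2 : F z ∈ W j := by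
      have h3 := h1.1.1
      rw [hW₀] at h3
      exact mem_iInter.mp h3.2 j
    exact ((hH j).differentiableAt ((hW j).mem_nhds h2)).comp_differentiableWithinAt z
      ((hF z (hD₂D hz)).mono hD₂D)
  obtain ⟨s, hs⟩ : ∃ s : EuclideanSpace ℂ (Fin d) → ℂ, s = fun z => ∑ j, f j z * H j (F z) := ⟨_, rfl⟩
  have hs1 : ∀ z ∈ D₂, ‖s z - 1‖ ≤ 1 / 2 := by
    intro z hz
    have h1 := hD₂V z hz
    rw [hV₁] at h1
    have h2 : ‖∑ j, g n j (F z) * H j (F z) - 1‖ < 3 / 8 := h1.1.2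
    have h3 : ‖s z - ∑ j, g n j (F z) * H j (F z)‖ ≤ N * ((1 / (n + 1)) * (B + 1)) := by
      rw [hs]
      simp only
      rw [← Finset.sum_sub_distrib]
      refine (norm_sum_le _ _).trans ?_
      calc ∑ j, ‖f j z * H j (F z) - g n j (F z) * H j (F z)‖ ≤
          ∑ _j : Fin N, ((1 / ((n : ℝ) + 1)) * (B + 1)) := by
            refine Finset.sum_le_sum fun j _ => ?_
            rw [← sub_mul, norm_mul]
            exact mul_le_mul (hfg n z (by rw [hD₂] at hz; exact hz.2) j) (hb z hz j)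
              (norm_nonneg _) (hε n).le
        _ = _ := by rw [Finset.sum_const, nsmul_eq_mul, Finset.card_univ, Fintype.card_fin]
    calc ‖s z - 1‖ = ‖(s z - ∑ j, g n j (F z) * H j (F z)) +
          (∑ j, g n j (F z) * H j (F z) - 1)‖ := by congr 1; ring
      _ ≤ _ := norm_add_le _ _
      _ ≤ 1 / 2 := by nlinarith
  have hs2 : ∀ z ∈ D₂, 1 / 2 ≤ ‖s z‖ := by
    intro z hz
    have h1 := hs1 z hz
    have h2 := norm_sub_norm_le (1 : ℂ) (1 - s z)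
    rw [norm_one, sub_sub_cancel, norm_sub_rev] at h2
    linarith
  have hne : ∀ z ∈ D₂, s z ≠ 0 := fun z hz => norm_pos_iff.mp (by linarith [hs2 z hz])
  have hsd : DifferentiableOn ℂ s D₂ := by
    rw [hs]
    apply DifferentiableOn.fun_sum
    intro j _
    exact ((hf j).mono (hD₂D.trans hD.1)).mul (hdH j)
  refine ⟨D₂, hD₂n, 2 * (B + 1), fun j z => H j (F z) / s z, fun j => ?_, ?_, ?_⟩
  · simp only [div_eq_mul_inv]
    exact (hdH j).mul (hsd.inv hne)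
  · intro j z hz
    have h1 := hb z hz j
    have h2 := hs2 z hz
    rw [norm_div, div_le_iff₀ (by linarith)]
    nlinarith
  · intro z hz
    have h5 : ∑ j, f j z * (H j (F z) / s z) = s z / s z := by
      conv_rhs => rw [hs]
      simp only
      rw [Finset.sum_div]
      refine Finset.sum_congr rfl fun j _ => ?_
      rw [hs]
      ring
    rw [h5, div_self (hne z hz)]


/-- The corona problem is local over the spectrum of the algebra. -/
theorem spec_loc {Δ : Set (EuclideanSpace ℂ (Fin d))} {A : Set (EuclideanSpace ℂ (Fin d) → ℂ)} (hA : LocOn Δ A) {N : ℕ}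
    (f : Fin N → EuclideanSpace ℂ (Fin d) → ℂ) (hf : ∀ j, IsHinf Δ (f j))
    (h : ∀ U : Ultrafilter (EuclideanSpace ℂ (Fin d)), Δ ∈ U → ∃ D, NhdOn Δ A U D ∧ ∃ C, SolvableOn f D C) :
    ∃ C, SolvableOn f Δ C := by
  classical
  obtain ⟨k, a, ε, Ds, ha, hε, hfin, hP, hcov⟩ := cover_of_nhds Δ A
    (fun D => ∃ C, SolvableOn f D C) h
  choose! c hc using hP
  obtain ⟨C, hC⟩ : ∃ C : ℝ, ∀ D ∈ Ds, c D ≤ C := by
    obtain ⟨C, h⟩ := (hfin.image c).bddAbove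
    exact ⟨C, fun D hD => h (mem_image_of_mem _ hD)⟩
  refine hA N k f a C ε hf ha hε fun b hb => ?_
  obtain ⟨D, hD, hDb⟩ := hcov b hb
  exact solv_sub (hc D hD) (fun z hz => hDb z hz.1 hz.2) (hC D hD)

/-- Data which are near each character nearly functions of one function. -/
theorem spec_one {Δ : Set (EuclideanSpace ℂ (Fin d))} {A : Set (EuclideanSpace ℂ (Fin d) → ℂ)} (hA : LocOn Δ A) {N : ℕ}
    (f : Fin N → EuclideanSpace ℂ (Fin d) → ℂ) (hf : ∀ j, IsHinf Δ (f j)) {δ : ℝ}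
    (hδ : 0 < δ) (hfδ : ∀ z ∈ Δ, δ ≤ ∑ j, ‖f j z‖ ^ 2)
    (h : ∀ U : Ultrafilter (EuclideanSpace ℂ (Fin d)), Δ ∈ U → OneOn Δ A U f) :
    ∃ C, SolvableOn f Δ C :=
  spec_loc hA f hf fun U hU => one_fun f (fun j => (hf j).1) hδ hfδ (h U hU)
theorem ultra_lim {U : Ultrafilter (EuclideanSpace ℂ (Fin d))} (hU : Δ ∈ U)
    {a : EuclideanSpace ℂ (Fin d) → ℂ} {M : ℝ} (hM : ∀ z ∈ Δ, ‖a z‖ ≤ M) :
    ∃ c, Tendsto a U (𝓝 c) := by
  have h1 : closedBall (0 : ℂ) M ∈ U.map a := by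
    rw [Ultrafilter.mem_map]
    refine mem_of_superset hU fun z hz => ?_
    rw [mem_preimage, mem_closedBall_zero_iff]
    exact hM z hz
  obtain ⟨c, -, hc⟩ := (isCompact_closedBall (0 : ℂ) M).ultrafilter_le_nhds (U.map a)
    (le_principal_iff.mpr h1)
  exact ⟨c, hc⟩

theorem nhd_finset {A : Set (EuclideanSpace ℂ (Fin d) → ℂ)} {U : Ultrafilter (EuclideanSpace ℂ (Fin d))}
    {ι : Type*} (s : Finset ι) (D : ι → Set (EuclideanSpace ℂ (Fin d))) (h : ∀ i ∈ s, NhdOn Δ A U (D i)) :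
    NhdOn Δ A U (Δ ∩ ⋂ i ∈ s, D i) := by
  classical
  induction s using Finset.induction_on with
  | empty => simpa using nhd_all Δ A U
  | insert i s _ ih =>
    rw [Finset.set_biInter_insert]
    have h1 := ih fun j hj => h j (Finset.mem_insert_of_mem hj)
    have h2 := nhd_inter (h i (Finset.mem_insert_self i s)) h1
    refine nhd_mono h2 ?_ inter_subset_left
    rintro z ⟨hz1, hz2, hz3⟩
    exact ⟨hz2, hz1, hz3⟩

/-- An element of the algebra generated by `A` and `F` is nearly a polynomial in `F`. -/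
theorem adjoin_one {Δ : Set (EuclideanSpace ℂ (Fin d))} {A : Set (EuclideanSpace ℂ (Fin d) → ℂ)}
    (hA : ∀ a ∈ A, IsHinf Δ a)
    {U : Ultrafilter (EuclideanSpace ℂ (Fin d))} (hU : Δ ∈ U)
    {F : EuclideanSpace ℂ (Fin d) → ℂ} {R : ℝ}
    (hFR : ∀ z ∈ Δ, ‖F z‖ ≤ R)
    {q : EuclideanSpace ℂ (Fin d) → ℂ} (hq : q ∈ Algebra.adjoin ℂ (A ∪ {F})) :
    (∃ B : ℝ, 0 ≤ B ∧ ∀ z ∈ Δ, ‖q z‖ ≤ B) ∧
    ∀ ε : ℝ, 0 < ε → ∃ D, NhdOn Δ A U D ∧ ∃ P : Polynomial ℂ, ∀ z ∈ D,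
      ‖q z - P.eval (F z)‖ ≤ ε := by
  induction hq using Algebra.adjoin_induction with
  | mem a ha =>
    rcases ha with ha | ha
    · obtain ⟨M, hM⟩ := (hA a ha).2
      obtain ⟨c, hc⟩ := ultra_lim hU hM
      refine ⟨⟨max M 0, le_max_right _ _, fun z hz => (hM z hz).trans (le_max_left _ _)⟩,
        fun ε hε => ⟨{z | z ∈ Δ ∧ ‖a z - c‖ < ε}, ⟨fun z hz => hz.1, 1, fun _ => a,
          fun _ => c, ε, hε, fun _ => ⟨ha, hc⟩, fun z hz h => ⟨hz, h 0⟩⟩, Polynomial.C c,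
          fun z hz => ?_⟩⟩
      rw [Polynomial.eval_C]
      exact hz.2.le
    · rw [mem_singleton_iff] at ha
      subst ha
      refine ⟨⟨max R 0, le_max_right _ _, fun z hz => (hFR z hz).trans (le_max_left _ _)⟩,
        fun ε hε => ⟨Δ, nhd_all _ _ _, Polynomial.X, fun z _ => ?_⟩⟩
      rw [Polynomial.eval_X, sub_self, norm_zero]
      exact hε.le
  | algebraMap r =>
    refine ⟨⟨‖r‖, norm_nonneg r, fun z _ => le_rfl⟩, fun ε hε => ⟨Δ, nhd_all _ _ _,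
      Polynomial.C r, fun z _ => ?_⟩⟩
    rw [Polynomial.eval_C]
    have h1 : (algebraMap ℂ (EuclideanSpace ℂ (Fin d) → ℂ) r) z = r := rfl
    rw [h1, sub_self, norm_zero]
    exact hε.le
  | add x y _ _ hx hy =>
    obtain ⟨⟨B, hB0, hB⟩, h1⟩ := hx
    obtain ⟨⟨B', hB0', hB'⟩, h2⟩ := hy
    refine ⟨⟨B + B', add_nonneg hB0 hB0', fun z hz => (norm_add_le _ _).trans
      (add_le_add (hB z hz) (hB' z hz))⟩, fun ε hε => ?_⟩
    obtain ⟨D, hD, P, hP⟩ := h1 (ε / 2) (half_pos hε)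
    obtain ⟨D', hD', P', hP'⟩ := h2 (ε / 2) (half_pos hε)
    refine ⟨D ∩ D', nhd_inter hD hD', P + P', fun z hz => ?_⟩
    rw [Polynomial.eval_add, Pi.add_apply, add_sub_add_comm]
    refine (norm_add_le _ _).trans ?_
    linarith [hP z hz.1, hP' z hz.2]
  | mul x y _ _ hx hy =>
    obtain ⟨⟨B, hB0, hB⟩, h1⟩ := hx
    obtain ⟨⟨B', hB0', hB'⟩, h2⟩ := hy
    refine ⟨⟨B * B', mul_nonneg hB0 hB0', fun z hz => ?_⟩, fun ε hε => ?_⟩
    · rw [Pi.mul_apply, norm_mul]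
      exact mul_le_mul (hB z hz) (hB' z hz) (norm_nonneg _) hB0
    obtain ⟨ε', hε', hε1, hε2⟩ : ∃ ε' : ℝ, 0 < ε' ∧ ε' ≤ 1 ∧ (B + B' + 1) * ε' ≤ ε := by
      refine ⟨min 1 (ε / (B + B' + 1)), by positivity, min_le_left _ _, ?_⟩
      calc (B + B' + 1) * min 1 (ε / (B + B' + 1)) ≤ (B + B' + 1) * (ε / (B + B' + 1)) :=
            mul_le_mul_of_nonneg_left (min_le_right _ _) (by positivity)
        _ = ε := by field_simp
    obtain ⟨D, hD, P, hP⟩ := h1 ε' hε'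
    obtain ⟨D', hD', P', hP'⟩ := h2 ε' hε'
    refine ⟨D ∩ D', nhd_inter hD hD', P * P', fun z hz => ?_⟩
    have hzb : z ∈ Δ := hD.1 hz.1
    have h3 := hP z hz.1
    have h4 := hP' z hz.2
    have h5 := hB z hzb
    have h6 := hB' z hzb
    have h7 : ‖P'.eval (F z)‖ ≤ B' + 1 := by
      have h8 := norm_sub_norm_le (P'.eval (F z)) (y z)
      rw [norm_sub_rev] at h8
      linarith
    rw [Polynomial.eval_mul, Pi.mul_apply]
    have e : x z * y z - P.eval (F z) * P'.eval (F z) =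
        x z * (y z - P'.eval (F z)) + (x z - P.eval (F z)) * P'.eval (F z) := by ring
    rw [e]
    calc ‖x z * (y z - P'.eval (F z)) + (x z - P.eval (F z)) * P'.eval (F z)‖ ≤
        ‖x z‖ * ‖y z - P'.eval (F z)‖ + ‖x z - P.eval (F z)‖ * ‖P'.eval (F z)‖ := by
          refine (norm_add_le _ _).trans ?_
          rw [norm_mul, norm_mul]
      _ ≤ B * ε' + ε' * (B' + 1) := by
          refine add_le_add (mul_le_mul h5 h4 (norm_nonneg _) hB0)
            (mul_le_mul h3 h7 (norm_nonneg _) hε'.le)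
      _ = (B + B' + 1) * ε' := by ring
      _ ≤ ε := hε2


/-- The corona theorem for data in the closed algebra generated by `A` and one function. -/
theorem spec_alg {Δ : Set (EuclideanSpace ℂ (Fin d))} (hΔ : Δ.Nonempty)
    {A : Set (EuclideanSpace ℂ (Fin d) → ℂ)}
    (hA0 : ∀ a ∈ A, IsHinf Δ a) (hA : LocOn Δ A) {N : ℕ}
    (f : Fin N → EuclideanSpace ℂ (Fin d) → ℂ) (F : EuclideanSpace ℂ (Fin d) → ℂ)
    (hF : IsHinf Δ F) (hf0 : ∀ j, DifferentiableOn ℂ (f j) Δ)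
    (hf : ∀ j, ∀ ε > 0, ∃ q ∈ Algebra.adjoin ℂ (A ∪ {F}), ∀ z ∈ Δ, ‖f j z - q z‖ ≤ ε) {δ : ℝ}
    (hδ : 0 < δ) (hfδ : ∀ z ∈ Δ, δ ≤ ∑ j, ‖f j z‖ ^ 2) :
    ∃ C, SolvableOn f Δ C := by
  obtain ⟨z₀, hz₀⟩ := hΔ
  obtain ⟨hFd, R, hFR⟩ := hF
  have hpure : Δ ∈ (pure z₀ : Ultrafilter (EuclideanSpace ℂ (Fin d))) := by
    rw [Ultrafilter.mem_pure]
    exact hz₀
  refine spec_one hA f (fun j => ⟨hf0 j, ?_⟩) hδ hfδ fun U hU => ?_
  · obtain ⟨q, hq, h⟩ := hf j 1 one_pos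
    obtain ⟨⟨B, -, hB⟩, -⟩ := adjoin_one hA0 hpure hFR hq
    refine ⟨B + 1, fun z hz => ?_⟩
    have h1 : f j z = (f j z - q z) + q z := by ring
    rw [h1]
    refine (norm_add_le _ _).trans ?_
    linarith [h z hz, hB z hz]
  · refine ⟨Δ, F, R, nhd_all _ _ _, hFd, hFR, fun ε hε => ?_⟩
    have h1 : ∀ j, ∃ D, NhdOn Δ A U D ∧ ∃ P : Polynomial ℂ, ∀ z ∈ D,
        ‖f j z - P.eval (F z)‖ ≤ ε := by
      intro j
      obtain ⟨q, hq, h⟩ := hf j (ε / 2) (half_pos hε)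
      obtain ⟨-, h2⟩ := adjoin_one hA0 hU hFR hq
      obtain ⟨D, hD, P, hP⟩ := h2 (ε / 2) (half_pos hε)
      refine ⟨D, hD, P, fun z hz => ?_⟩
      have h3 := h z (hD.1 hz)
      have h4 := hP z hz
      calc ‖f j z - P.eval (F z)‖ = ‖(f j z - q z) + (q z - P.eval (F z))‖ := by congr 1; ring
        _ ≤ _ := norm_add_le _ _
        _ ≤ ε := by linarith
    choose D hD P hP using h1
    refine ⟨Δ ∩ ⋂ j ∈ Finset.univ, D j, inter_subset_left,
      nhd_finset Finset.univ D fun j _ => hD j, univ, fun j w => (P j).eval w, isOpen_univ,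
      subset_univ _, fun j => (P j).differentiable.differentiableOn, fun z hz j => hP j z ?_⟩
    have h2 := hz.2
    simp only [mem_iInter] at h2
    exact h2 j (Finset.mem_univ j)

end Pool.Agent.MPca0fc2.CXS
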