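import Mathlib
import Pool.Agent.Lib.MP_ca0fc2_an.CXSRate
import Pool.Agent.Lib.MP_ca0fc2_an.CXSOne
import Pool.Agent.Lib.MP_ca0fc2_an.CXSAff

/-! The functions which are continuous up to the boundary are nearly constant on the components of
the cells of slow functions, and the corona theorem for the data in the closed algebra generated by
the hull of the slow functions and one arbitrary function, on every strongly convex domain. -/

set_option autoImplicit false

open Metric Set Filter Topology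

namespace Pool.Agent.MPca0fc2.CXS

open Pool.Agent.Lib.MP_ca0fc2_an

variable {n : ℕ}

/-- The coordinates are slow. -/
theorem coord_slow {D : Set (EuclideanSpace ℂ (Fin n))} (hD : Bornology.IsBounded D) (i : Fin n) :
    (fun z => z i) ∈ SlowOn D := by
  obtain ⟨R, hR⟩ := isBounded_iff_forall_norm_le.mp hD
  refine ⟨⟨?_, R, fun z hz => (PiLp.norm_apply_le z i).trans (hR z hz)⟩, fun t => t, rate_id, ?_⟩
  · exact (EuclideanSpace.proj (𝕜 := ℂ) i : EuclideanSpace ℂ (Fin n) →L[ℂ] ℂ).differentiable.differentiableOn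
  · intro z _ _
    have h1 : fderiv ℂ (fun z : EuclideanSpace ℂ (Fin n) => z i) z =
        (EuclideanSpace.proj (𝕜 := ℂ) i : EuclideanSpace ℂ (Fin n) →L[ℂ] ℂ) :=
      (EuclideanSpace.proj (𝕜 := ℂ) i : EuclideanSpace ℂ (Fin n) →L[ℂ] ℂ).fderiv
    rw [h1]
    have h2 : ‖(EuclideanSpace.proj (𝕜 := ℂ) i : EuclideanSpace ℂ (Fin n) →L[ℂ] ℂ)‖ ≤ 1 := by
      refine ContinuousLinearMap.opNorm_le_bound _ zero_le_one fun v => ?_
      rw [one_mul]
      exact PiLp.norm_apply_le v i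
    calc infDist z Dᶜ * ‖(EuclideanSpace.proj (𝕜 := ℂ) i : EuclideanSpace ℂ (Fin n) →L[ℂ] ℂ)‖ ≤
        infDist z Dᶜ * 1 := mul_le_mul_of_nonneg_left h2 infDist_nonneg
      _ = infDist z Dᶜ := mul_one _

/-- The uniformly continuous functions are in the hull. -/
theorem cont_hull {D : Set (EuclideanSpace ℂ (Fin n))} (hD : Bornology.IsBounded D)
    {g : EuclideanSpace ℂ (Fin n) → ℂ} (hg : IsHinf D g) (hu : UniformContinuousOn g D) :
    g ∈ HullOn D (SlowOn D) := by
  refine ⟨hg, fun ε hε => ?_⟩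
  rw [Metric.uniformContinuousOn_iff] at hu
  obtain ⟨δ, hδ, h⟩ := hu ε hε
  refine ⟨n, fun i z => z i, δ / (2 * (n + 1)), by positivity, fun i => coord_slow hD i, ?_⟩
  intro c x z hz w hw
  have hz1 := connectedComponentIn_subset _ _ hz
  have hw1 := connectedComponentIn_subset _ _ hw
  have h1 : ∀ i, ‖(z - w) i‖ ≤ δ / (n + 1) := by
    intro i
    have e : (z - w) i = (z i - c i) - (w i - c i) := by
      rw [PiLp.sub_apply]; ring
    rw [e]
    refine (norm_sub_le _ _).trans ?_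
    have e2 : δ / ((n : ℝ) + 1) = δ / (2 * (n + 1)) + δ / (2 * (n + 1)) := by
      field_simp; ring
    rw [e2]
    exact add_le_add (hz1.2 i).le (hw1.2 i).le
  have h2 : ‖z - w‖ < δ := by
    have h3 : ‖z - w‖ ≤ ∑ i, ‖(z - w) i‖ := by
      rw [EuclideanSpace.norm_eq]
      have h4 : ∑ i, ‖(z - w) i‖ ^ 2 ≤ (∑ i, ‖(z - w) i‖) ^ 2 :=
        Finset.sum_sq_le_sq_sum_of_nonneg fun i _ => norm_nonneg _
      exact (Real.sqrt_le_sqrt h4).trans (Real.sqrt_sq (Finset.sum_nonneg fun i _ =>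
        norm_nonneg _)).le
    calc ‖z - w‖ ≤ ∑ i, ‖(z - w) i‖ := h3
      _ ≤ ∑ _i : Fin n, δ / ((n : ℝ) + 1) := Finset.sum_le_sum fun i _ => h1 i
      _ = n * (δ / (n + 1)) := by
        rw [Finset.sum_const, nsmul_eq_mul, Finset.card_univ, Fintype.card_fin]
      _ < δ := by
        rw [← mul_div_assoc, div_lt_iff₀ (by positivity)]
        nlinarith
  have h3 := h z hz1.1 w hw1.1 (by rw [dist_eq_norm]; exact h2)
  rw [dist_eq_norm] at h3
  exact h3.le

/-- The corona theorem on the strongly convex domains, for the data in the closed algebra generated by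
the hull of the slow functions and one arbitrary function. -/
theorem convex_alg (hn : 1 ≤ n) {ρ : EuclideanSpace ℂ (Fin n) → ℝ} (hρ : ContDiff ℝ 3 ρ) {c : ℝ}
    (hc : 0 < c) (hconv : StrongConvexOn univ c ρ) (hne : ∃ z, ρ z < 0) {N : ℕ}
    (f : Fin N → EuclideanSpace ℂ (Fin n) → ℂ) (F : EuclideanSpace ℂ (Fin n) → ℂ)
    (hF : IsHinf {z | ρ z < 0} F) (hf0 : ∀ j, DifferentiableOn ℂ (f j) {z | ρ z < 0})
    (hf : ∀ j, ∀ ε > 0, ∃ q ∈ Algebra.adjoin ℂ
      (HullOn {z | ρ z < 0} (SlowOn {z | ρ z < 0}) ∪ {F}), ∀ z, ρ z < 0 → ‖f j z - q z‖ ≤ ε)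
    {δ : ℝ} (hδ : 0 < δ) (hfδ : ∀ z, ρ z < 0 → δ ≤ ∑ j, ‖f j z‖ ^ 2) :
    ∃ C, SolvableOn f {z | ρ z < 0} C := by
  have hDo : IsOpen {z : EuclideanSpace ℂ (Fin n) | ρ z < 0} := isOpen_lt hρ.continuous
    continuous_const
  exact spec_alg hne (fun a ha => ha.1)
    (locOn_hull hDo (fun u hu => hu.1.1) (locOn_convex hn hρ hc hconv)) f F hF hf0 hf hδ hfδ

end Pool.Agent.MPca0fc2.CXS
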