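import Mathlib
import Pool.Agent.Lib.MP_ca0fc2_an.Gleason
import Pool.Agent.Lib.MP_ca0fc2_an.Mg.G129

set_option autoImplicit false

open Metric Set Filter Topology MeasureTheory
open scoped InnerProductSpace ComplexConjugate

namespace Pool.Agent.Lib.MP_ca0fc2_an

variable {E : Type*} [NormedAddCommGroup E] [InnerProductSpace ℂ E] {I : Type*}

/-- Composition of a character with a family of holomorphic self-maps of the ball. -/
def Char.comp (Φ : Char I E) (α : I → E → E) (hα : ∀ i, DifferentiableOn ℂ (α i) (ball 0 1))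
    (hαm : ∀ i, ∀ z ∈ ball (0 : E) 1, α i z ∈ ball (0 : E) 1) : Char I E where
  φ F := Φ.φ fun i z => F i (α i z)
  map_add hF hG := Φ.map_add (hF.comp (τ := id) hα hαm) (hG.comp (τ := id) hα hαm)
  map_mul hF hG := Φ.map_mul (hF.comp (τ := id) hα hαm) (hG.comp (τ := id) hα hαm)
  map_const c := Φ.map_const c
  bound hF _ hC hb := Φ.bound (hF.comp (τ := id) hα hαm) hC fun i z hz => hb i _ (hαm i z hz)

/-- Characters over interior points are point evaluations along the ultrafilter: centre. -/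
theorem Char.gleason_zero [FiniteDimensional ℂ E] (Φ : Char I E)
    (hΦ : ∀ w : E, Φ.φ (fun _ z => ⟪w, z⟫_ℂ) = 0) {F : I → E → ℂ} (hF : BH F) :
    Φ.φ F = Φ.φ (fun i _ => F i 0) := by
  obtain ⟨M, hM0, hM⟩ := hF.bdd'
  set b := stdOrthonormalBasis ℂ E with hb
  set G : Fin (Module.finrank ℂ E) → I → E → ℂ := fun k i z => leib (F i) (b k) z with hG
  have hGBH : ∀ k, BH (G k) := fun k =>
    ⟨fun i => leib_holo (hF.holo i) (hM i) (b k), 6 * M * ‖b k‖,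
      fun i z hz => leib_bound (hF.holo i) (hM i) hz (b k)⟩
  have hF0 : BH (fun (i : I) (_ : E) => F i 0) :=
    BH.constI ⟨M, fun i => hM i 0 (mem_ball_self one_pos)⟩
  have key : ∀ i, ∀ z ∈ ball (0 : E) 1, F i z - F i 0 = ∑ k, ⟪b k, z⟫_ℂ * G k i z := by
    intro i z hz
    rw [← leib_self (hF.holo i) (hM i) hz]
    have h1 := leib_sum (hF.holo i) (hM i) Finset.univ (fun k => ⟪b k, z⟫_ℂ) (fun k => b k) hz
    rw [b.sum_repr'] at h1
    exact h1
  have h1 : Φ.φ (fun i z => F i z - F i 0) = 0 := by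
    rw [Φ.congr (BH.sum (s := Finset.univ) fun k _ => (BH.inner (b k)).mul (hGBH k)) key,
      Φ.map_sum fun k _ => (BH.inner (b k)).mul (hGBH k)]
    apply Finset.sum_eq_zero
    intro k _
    rw [Φ.map_mul (BH.inner (b k)) (hGBH k), hΦ, zero_mul]
  rw [Φ.map_sub hF hF0] at h1
  exact sub_eq_zero.mp h1

/-- Characters over interior points are point evaluations along the ultrafilter. -/
theorem Char.gleason [FiniteDimensional ℂ E] (Φ : Char I E) {p : E} (hp : ‖p‖ < 1)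
    (hΦ : ∀ w : E, Φ.φ (fun _ z => ⟪w, z⟫_ℂ) = ⟪w, p⟫_ℂ) {F : I → E → ℂ} (hF : BH F) :
    Φ.φ F = Φ.φ (fun i _ => F i p) := by
  by_cases hp0 : p = 0
  · subst hp0
    exact Φ.gleason_zero (fun w => by rw [hΦ, inner_zero_right]) hF
  have hpn : 0 < ‖p‖ := norm_pos_iff.mpr hp0
  obtain ⟨e, he1, hpe'⟩ : ∃ e : E, ‖e‖ = 1 ∧ p = (‖p‖ : ℂ) • e := by
    refine ⟨((‖p‖ : ℂ))⁻¹ • p, ?_, ?_⟩
    · rw [norm_smul, norm_inv, Complex.norm_real, Real.norm_of_nonneg hpn.le]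
      field_simp
    · rw [smul_smul, mul_inv_cancel₀ (by exact_mod_cast hpn.ne'), one_smul]
  obtain ⟨ζ, hζ⟩ : ∃ ζ : ℂ, ζ = (‖p‖ : ℂ) := ⟨_, rfl⟩
  have hpe : p = ζ • e := by rw [hζ]; exact hpe'
  have hζ1 : ‖ζ‖ < 1 := by
    rw [hζ, Complex.norm_real, Real.norm_of_nonneg hpn.le]; exact hp
  have hζ1' : ‖-ζ‖ < 1 := by rwa [norm_neg]
  set Ψ : Char I E := Φ.comp (fun _ => mob e (-ζ)) (fun _ => mob_diff he1 hζ1')
    (fun _ z hz => mob_mem he1 hζ1' hz) with hΨ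
  have hx : Φ.φ (fun _ z => ⟪e, z⟫_ℂ) = ζ := by
    rw [hΦ, hpe, inner_smul_right, inner_self_one he1, mul_one]
  have hΨ0 : ∀ w : E, Ψ.φ (fun _ z => ⟪w, z⟫_ℂ) = 0 := by
    intro w
    change Φ.φ (fun _ z => ⟪w, mob e (-ζ) z⟫_ℂ) = 0
    have hm : BH fun (_ : I) (z : E) => ⟪w, mob e (-ζ) z⟫_ℂ :=
      (BH.inner (I := I) w).comp (τ := id) (T := fun _ => mob e (-ζ))
        (fun _ => mob_diff he1 hζ1') (fun _ z hz => mob_mem he1 hζ1' hz)
    have hden : BH fun (_ : I) (z : E) => 1 + conj (-ζ) * ⟪e, z⟫_ℂ :=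
      (BH.const 1).add ((BH.const _).mul (BH.inner e))
    have hp1 : BH fun (_ : I) (z : E) => (⟪e, z⟫_ℂ + -ζ) * ⟪w, e⟫_ℂ :=
      ((BH.inner e).add (BH.const _)).mul (BH.const _)
    have hp2 : BH fun (_ : I) (z : E) => (sq (-ζ) : ℂ) * (⟪w, z⟫_ℂ - ⟪e, z⟫_ℂ * ⟪w, e⟫_ℂ) :=
      (BH.const _).mul ((BH.inner w).sub ((BH.inner e).mul (BH.const _)))
    have h1 : Φ.φ (fun _ z => (1 + conj (-ζ) * ⟪e, z⟫_ℂ) * ⟪w, mob e (-ζ) z⟫_ℂ) =
        Φ.φ (fun _ z => (⟪e, z⟫_ℂ + -ζ) * ⟪w, e⟫_ℂ +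
          (sq (-ζ) : ℂ) * (⟪w, z⟫_ℂ - ⟪e, z⟫_ℂ * ⟪w, e⟫_ℂ)) := by
      apply Φ.congr (hp1.add hp2)
      intro i z hz
      have hd := den_ne hζ1' (norm_inner_lt he1 hz)
      rw [mob, inner_smul_right, ← mul_assoc, mul_inv_cancel₀ hd, one_mul, inner_add_right,
        inner_smul_right, inner_smul_right, prj_apply, inner_sub_right, inner_smul_right]
    have hwp : ⟪w, p⟫_ℂ = ζ * ⟪w, e⟫_ℂ := by rw [hpe, inner_smul_right]
    have h2 : Φ.φ (fun (_ : I) (z : E) => (1 : ℂ) + conj (-ζ) * ⟪e, z⟫_ℂ) =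
        1 + conj (-ζ) * ζ := by
      rw [Φ.map_add (BH.const 1) ((BH.const _).mul (BH.inner e)), Φ.map_const,
        Φ.map_mul (BH.const _) (BH.inner e), Φ.map_const, hx]
    have h3 : Φ.φ (fun (_ : I) (z : E) => (⟪e, z⟫_ℂ + -ζ) * ⟪w, e⟫_ℂ) = 0 := by
      rw [Φ.map_mul ((BH.inner e).add (BH.const _)) (BH.const _),
        Φ.map_add (BH.inner e) (BH.const _), Φ.map_const, Φ.map_const, hx]
      ring
    have h4 : Φ.φ (fun (_ : I) (z : E) => (sq (-ζ) : ℂ) * (⟪w, z⟫_ℂ - ⟪e, z⟫_ℂ * ⟪w, e⟫_ℂ)) =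
        0 := by
      rw [Φ.map_mul (BH.const _) ((BH.inner w).sub ((BH.inner e).mul (BH.const _))),
        Φ.map_sub (BH.inner w) ((BH.inner e).mul (BH.const _)),
        Φ.map_mul (BH.inner e) (BH.const _), Φ.map_const, Φ.map_const, hx, hΦ, hwp]
      ring
    rw [Φ.map_mul hden hm, Φ.map_add hp1 hp2, h2, h3, h4, add_zero] at h1
    have h5 : (1 : ℂ) + conj (-ζ) * ζ ≠ 0 := by
      apply den_ne hζ1'
      exact hζ1
    exact (mul_eq_zero.mp h1).resolve_left h5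
  -- transport
  have hFm : BH fun (i : I) (z : E) => F i (mob e ζ z) :=
    hF.comp (τ := id) (T := fun _ => mob e ζ) (fun _ => mob_diff he1 hζ1)
      (fun _ z hz => mob_mem he1 hζ1 hz)
  have h1 := Ψ.gleason_zero hΨ0 hFm
  have h2 : Ψ.φ (fun (i : I) (z : E) => F i (mob e ζ z)) = Φ.φ F := by
    change Φ.φ (fun i z => F i (mob e ζ (mob e (-ζ) z))) = Φ.φ F
    apply Φ.congr hF
    intro i z hz
    rw [mob_inv' he1 hζ1 hz]
  rw [h2] at h1
  rw [h1]
  change Φ.φ (fun i _ => F i (mob e ζ 0)) = _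
  rw [mob_zero, ← hpe]

/-- The one function cluster theorem: a function that is bounded below near a boundary point is
not killed by the characters over that point. -/
theorem Char.ne_zero_of_lower (hDC : DiscCorona) (Φ : Char I E) {ν : E} (hν : ‖ν‖ = 1)
    (hΦ : Φ.φ (fun _ z => ⟪ν, z⟫_ℂ) = 1) {g : I → E → ℂ} (hg : BH g) {κ δ : ℝ} (hκ : 0 < κ)
    (hδ : 0 < δ)
    (h : ∀ᶠ i in Φ.filt, ∀ z ∈ ball (0 : E) 1, ‖1 - ⟪ν, z⟫_ℂ‖ < κ → δ ≤ ‖g i z‖) :
    Φ.φ g ≠ 0 := by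
  classical
  intro hg0
  set J : Set I := {i | ∀ z ∈ ball (0 : E) 1, ‖1 - ⟪ν, z⟫_ℂ‖ < κ → δ ≤ ‖g i z‖} with hJ
  have hJ1 : Φ.φ (Char.ind J) = 1 := h
  set g' : I → E → ℂ := fun i z => g i z * Char.ind J i z + Char.ind Jᶜ i z with hg'
  have hg'BH : BH g' := (hg.mul (Char.BH_ind J)).add (Char.BH_ind Jᶜ)
  have hg'0 : Φ.φ g' = 0 := by
    rw [hg', Φ.map_add (hg.mul (Char.BH_ind J)) (Char.BH_ind Jᶜ), Φ.map_mul hg (Char.BH_ind J),
      hg0, Φ.ind_compl, hJ1]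
    ring
  set δ' : ℝ := min δ 1 with hδ'
  have hδ'0 : 0 < δ' := lt_min hδ one_pos
  have hlow : ∀ i, ∀ z ∈ ball (0 : E) 1, ‖1 - ⟪ν, z⟫_ℂ‖ < κ → δ' ≤ ‖g' i z‖ := by
    intro i z hz hzk
    simp only [hg']
    by_cases hi : i ∈ J
    · rw [Char.ind_mem hi, Char.ind_not_mem (by simpa using hi), mul_one, add_zero]
      exact (min_le_left _ _).trans (hi z hz hzk)
    · rw [Char.ind_not_mem hi, Char.ind_mem (by simpa using hi), mul_zero, zero_add, norm_one]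
      exact min_le_right _ _
  have hP : BH fun (_ : I) (z : E) => 1 - ⟪ν, z⟫_ℂ := (BH.const 1).sub (BH.inner ν)
  set a : Fin 2 → I → E → ℂ := ![fun _ z => 1 - ⟪ν, z⟫_ℂ, g'] with ha
  have haBH : ∀ k, BH (a k) := by
    intro k
    fin_cases k
    · exact hP
    · exact hg'BH
  obtain ⟨b, hb, hbs⟩ := unimod_of_tubes hDC (e := fun _ => ν) (fun _ => hν) haBH (r := 1 / 2) (C := 4 / κ + 1 / δ')
    (by norm_num) (by
    intro i ζ hζ
    have hζ1 : ‖ζ‖ < 1 := by simpa using hζ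
    have h1ζ : 1 - ‖ζ‖ ≤ ‖1 - ζ‖ := by
      have := norm_sub_norm_le (1 : ℂ) ζ
      rwa [norm_one] at this
    have hC1 : 4 / κ ≤ 4 / κ + 1 / δ' := by
      have : 0 < 1 / δ' := by positivity
      linarith
    have hC2 : 1 / δ' ≤ 4 / κ + 1 / δ' := by
      have : 0 < 4 / κ := by positivity
      linarith
    have hC0 : 0 ≤ 4 / κ + 1 / δ' := by positivity
    have htube : ∀ z ∈ ball (0 : E) 1, ⟪ν, z⟫_ℂ ∈ ball ζ (1 / 2 * (1 - ‖ζ‖)) →
        ‖1 - ζ‖ / 2 ≤ ‖1 - ⟪ν, z⟫_ℂ‖ ∧ ‖1 - ⟪ν, z⟫_ℂ‖ ≤ 3 / 2 * ‖1 - ζ‖ := by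
      intro z hz hzt
      rw [mem_ball, dist_eq_norm] at hzt
      have h1 : ‖1 - ζ‖ ≤ ‖1 - ⟪ν, z⟫_ℂ‖ + ‖⟪ν, z⟫_ℂ - ζ‖ := by
        calc ‖1 - ζ‖ = ‖(1 - ⟪ν, z⟫_ℂ) + (⟪ν, z⟫_ℂ - ζ)‖ := by congr 1; ring
          _ ≤ _ := norm_add_le _ _
      have h2 : ‖1 - ⟪ν, z⟫_ℂ‖ ≤ ‖1 - ζ‖ + ‖⟪ν, z⟫_ℂ - ζ‖ := by
        calc ‖1 - ⟪ν, z⟫_ℂ‖ = ‖(1 - ζ) - (⟪ν, z⟫_ℂ - ζ)‖ := by congr 1; ring
          _ ≤ _ := norm_sub_le _ _
      constructor <;> linarith
    by_cases hcase : κ / 2 ≤ ‖1 - ζ‖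
    · -- the first function is invertible on the tube
      have hne : ∀ z ∈ ball (0 : E) 1, ⟪ν, z⟫_ℂ ∈ ball ζ (1 / 2 * (1 - ‖ζ‖)) →
          κ / 4 ≤ ‖1 - ⟪ν, z⟫_ℂ‖ := by
        intro z hz hzt
        have := (htube z hz hzt).1
        linarith
      refine ⟨![fun z => (1 - ⟪ν, z⟫_ℂ)⁻¹, fun _ => 0], ?_, ?_, ?_⟩
      · intro k
        fin_cases k
        · refine DifferentiableOn.inv ?_ ?_
          · exact (hP.holo i).mono fun z hz => hz.1
          · intro z hz h0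
            have := hne z hz.1 hz.2
            rw [show 1 - ⟪ν, z⟫_ℂ = 0 from h0, norm_zero] at this
            linarith
        · exact differentiableOn_const _
      · intro k z hz hzt
        fin_cases k
        · have h1 := hne z hz hzt
          simp only [Fin.zero_eta, Matrix.cons_val_zero, norm_inv]
          refine le_trans ?_ hC1
          rw [inv_le_comm₀ (by linarith) (by positivity)]
          calc (4 / κ)⁻¹ = κ / 4 := by field_simp
            _ ≤ _ := h1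
        · simpa using hC0
      · intro z hz hzt
        have h1 := hne z hz hzt
        have h2 : (1 : ℂ) - ⟪ν, z⟫_ℂ ≠ 0 := by
          intro h0
          rw [h0, norm_zero] at h1
          linarith
        simp [ha, Fin.sum_univ_two, mul_inv_cancel₀ h2]
    · push Not at hcase
      have hne : ∀ z ∈ ball (0 : E) 1, ⟪ν, z⟫_ℂ ∈ ball ζ (1 / 2 * (1 - ‖ζ‖)) →
          δ' ≤ ‖g' i z‖ := by
        intro z hz hzt
        have := (htube z hz hzt).2
        exact hlow i z hz (by linarith)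
      refine ⟨![fun _ => 0, fun z => (g' i z)⁻¹], ?_, ?_, ?_⟩
      · intro k
        fin_cases k
        · exact differentiableOn_const _
        · refine DifferentiableOn.inv ?_ ?_
          · exact (hg'BH.holo i).mono fun z hz => hz.1
          · intro z hz h0
            have := hne z hz.1 hz.2
            rw [h0, norm_zero] at this
            linarith
      · intro k z hz hzt
        fin_cases k
        · simpa using hC0
        · have h1 := hne z hz hzt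
          simp only [Fin.mk_one, Matrix.cons_val_one, Matrix.cons_val_zero, norm_inv]
          refine le_trans ?_ hC2
          rw [one_div, inv_le_inv₀ (by linarith) hδ'0]
          exact h1
      · intro z hz hzt
        have h1 := hne z hz hzt
        have h2 : g' i z ≠ 0 := by
          intro h0
          rw [h0, norm_zero] at h1
          linarith
        simp [ha, Fin.sum_univ_two, mul_inv_cancel₀ h2])
  obtain ⟨k, hk⟩ := Φ.not_of_unimod haBH hb hbs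
  fin_cases k
  · apply hk
    change Φ.φ (fun _ z => 1 - ⟪ν, z⟫_ℂ) = 0
    rw [Φ.map_sub (BH.const 1) (BH.inner ν), Φ.map_const, hΦ, sub_self]
  · exact hk hg'0

end Pool.Agent.Lib.MP_ca0fc2_an
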