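import Pool.Agent.Lib.MP_ca0fc2_an.CubTorus

/-!
Fourier coefficients of holomorphic functions on tori.
-/

open MeasureTheory Complex Set Filter Topology

namespace Pool.Agent.Lib.MP_ca0fc2_an.Cubic

/-- One variable Fourier coefficient on the circle of radius r. -/
noncomputable def J1 (f : ℂ → ℂ) (r : ℝ) (n : ℤ) : ℂ :=
  ∫ x, f ((r : ℂ) * exp (x * I)) * exp (-((n : ℂ) * x) * I) ∂P1

theorem J1_eq (f : ℂ → ℂ) {r : ℝ} (hr : 0 < r) (n : ℤ) :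
    J1 f r n = (r : ℂ) ^ n * ((2 * Real.pi)⁻¹ * I⁻¹ * ∮ z in C(0, r), (z - 0)⁻¹ • (f z * z ^ (-n))) := by
  have hr' : (r : ℂ) ≠ 0 := by exact_mod_cast hr.ne'
  rw [J1, P1_integral, circleIntegral, Complex.real_smul]
  push_cast
  rw [← mul_assoc, ← intervalIntegral.integral_const_mul, ← intervalIntegral.integral_const_mul]
  congr 1
  ext x
  rw [deriv_circleMap, sub_zero, circleMap_zero, smul_eq_mul, smul_eq_mul]
  have h1 : (exp (x * I) : ℂ) ≠ 0 := exp_ne_zero _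
  have h2 : exp (-((n : ℂ) * x) * I) = (exp (x * I)) ^ (-n) := by
    rw [← Complex.exp_int_mul]
    congr 1; push_cast; ring
  rw [h2, mul_zpow]
  have h3 : (r : ℂ) ^ n * (r : ℂ) ^ (-n) = 1 := by
    rw [zpow_neg, mul_inv_cancel₀ (zpow_ne_zero _ hr')]
  have h4 : (r : ℂ) ^ n * ((2 * Real.pi : ℂ)⁻¹ * I⁻¹) * ((r : ℂ) * exp (x * I) * I * (((r : ℂ) * exp (x * I))⁻¹ *
      (f ((r : ℂ) * exp (x * I)) * ((r : ℂ) ^ (-n) * exp (x * I) ^ (-n))))) =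
      ((r : ℂ) ^ n * (r : ℂ) ^ (-n)) * (((r : ℂ) * exp (x * I)) * ((r : ℂ) * exp (x * I))⁻¹) * (I⁻¹ * I) *
      ((2 * Real.pi : ℂ)⁻¹ * (f ((r : ℂ) * exp (x * I)) * exp (x * I) ^ (-n))) := by ring
  rw [h4, h3, mul_inv_cancel₀ (mul_ne_zero hr' h1), inv_mul_cancel₀ I_ne_zero]
  ring

theorem J1_neg {f : ℂ → ℂ} {U : Set ℂ} (hU : IsOpen U) (hf : DifferentiableOn ℂ f U) {r : ℝ}
    (hr : 0 < r) (hrU : Metric.closedBall 0 r ⊆ U) {n : ℤ} (hn : n < 0) : J1 f r n = 0 := by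
  rw [J1_eq f hr]
  obtain ⟨m, hm⟩ : ∃ m : ℕ, -n = (m : ℤ) + 1 := ⟨(-n - 1).toNat, by omega⟩
  have h1 : (∮ z in C(0, r), (z - 0)⁻¹ • (f z * z ^ (-n))) = ∮ z in C(0, r), f z * z ^ m := by
    refine circleIntegral.integral_congr hr.le fun z hz => ?_
    have hz0 : z ≠ 0 := by
      rintro rfl
      rw [mem_sphere_zero_iff_norm, norm_zero] at hz
      exact hr.ne hz
    simp only [sub_zero, smul_eq_mul, hm]
    rw [zpow_add_one₀ hz0, zpow_natCast]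
    field_simp
  rw [h1, circleIntegral_eq_zero_of_differentiable_on_off_countable hr.le countable_empty]
  · simp
  · exact (hf.continuousOn.mono hrU).mul (continuousOn_id.pow m)
  · intro z hz
    have : z ∈ U := hrU (Metric.ball_subset_closedBall hz.1)
    exact ((hf.differentiableAt (hU.mem_nhds this)).mul (differentiableAt_id.pow m))

theorem J1_scale {f : ℂ → ℂ} {U : Set ℂ} (hU : IsOpen U) (hf : DifferentiableOn ℂ f U) {r R : ℝ}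
    (hr : 0 < r) (hrR : r ≤ R) (hrU : Metric.closedBall 0 R ⊆ U) (n : ℤ) :
    J1 f r n * (R : ℂ) ^ n = J1 f R n * (r : ℂ) ^ n := by
  rw [J1_eq f hr, J1_eq f (hr.trans_le hrR)]
  have key : (∮ z in C(0, R), (z - 0)⁻¹ • (f z * z ^ (-n))) =
      ∮ z in C(0, r), (z - 0)⁻¹ • (f z * z ^ (-n)) := by
    refine circleIntegral_sub_center_inv_smul_eq_of_differentiable_on_annulus_off_countable hr hrR
      countable_empty ?_ ?_
    · refine (hf.continuousOn.mono (sdiff_subset.trans hrU)).mul ?_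
      intro z hz
      have hz0 : z ≠ 0 := by
        rintro rfl
        exact hz.2 (Metric.mem_ball_self hr)
      exact (continuousAt_zpow₀ z (-n) (Or.inl hz0)).continuousWithinAt
    · intro z hz
      have hzU : z ∈ U := hrU (Metric.ball_subset_closedBall hz.1.1)
      have hz0 : z ≠ 0 := by
        rintro rfl
        exact hz.1.2 (Metric.mem_closedBall_self hr.le)
      exact (hf.differentiableAt (hU.mem_nhds hzU)).mul (differentiableAt_zpow.2 (Or.inl hz0))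
  rw [key]; ring

/-- Fourier coefficient on the torus of radii s. -/
noncomputable def J (h : ℂ × ℂ → ℂ) (s : ℝ × ℝ) (γ : ℤ × ℤ) : ℂ :=
  Av fun θ => h (Z s θ) * chi (-γ) θ

theorem J_iter1 {h : ℂ × ℂ → ℂ} (hh : HolN h) {s : ℝ × ℝ} (hs : s.1 ^ 2 + s.2 ^ 2 ≤ 1) (γ : ℤ × ℤ) :
    J h s γ = ∫ y, J1 (fun z => h (z, (s.2 : ℂ) * exp (y * I))) s.1 γ.1 * exp (-((γ.2 : ℂ) * y) * I) ∂P1 := by
  have hi : Integrable (fun θ => h (Z s θ) * chi (-γ) θ) (P1.prod P1) := integrable_of_continuous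
    ((hh.continuous_comp hs).mul (continuous_chi _))
  rw [J, Av, P2, integral_prod_symm _ hi]
  congr 1
  ext y
  rw [J1, ← integral_mul_const]
  congr 1
  ext x
  simp only [Z, chi]
  rw [mul_assoc, ← Complex.exp_add]
  congr 2
  simp only [Prod.fst_neg, Prod.snd_neg, Int.cast_neg]
  ring

theorem J_iter2 {h : ℂ × ℂ → ℂ} (hh : HolN h) {s : ℝ × ℝ} (hs : s.1 ^ 2 + s.2 ^ 2 ≤ 1) (γ : ℤ × ℤ) :
    J h s γ = ∫ x, J1 (fun z => h ((s.1 : ℂ) * exp (x * I), z)) s.2 γ.2 * exp (-((γ.1 : ℂ) * x) * I) ∂P1 := by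
  have hi : Integrable (fun θ => h (Z s θ) * chi (-γ) θ) (P1.prod P1) := integrable_of_continuous
    ((hh.continuous_comp hs).mul (continuous_chi _))
  rw [J, Av, P2, integral_prod _ hi]
  congr 1
  ext x
  rw [J1, ← integral_mul_const]
  congr 1
  ext y
  simp only [Z, chi]
  rw [mul_assoc, ← Complex.exp_add]
  congr 2
  simp only [Prod.fst_neg, Prod.snd_neg, Int.cast_neg]
  ring

theorem slice1 {h : ℂ × ℂ → ℂ} (hh : HolN h) {R : ℝ} {w : ℂ} (hs : R ^ 2 + ‖w‖ ^ 2 ≤ 1) :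
    ∃ U : Set ℂ, IsOpen U ∧ Metric.closedBall 0 R ⊆ U ∧ DifferentiableOn ℂ (fun z => h (z, w)) U := by
  obtain ⟨U, hU, hBU, hd⟩ := hh
  refine ⟨(fun z => (z, w)) ⁻¹' U, hU.preimage (by fun_prop), ?_, ?_⟩
  · intro z hz
    rw [mem_closedBall_zero_iff] at hz
    refine hBU ?_
    rw [Bc, mem_ofPred_eq]
    have : ‖z‖ ^ 2 ≤ R ^ 2 := by gcongr
    simp only
    linarith
  · exact hd.comp (by fun_prop) fun z hz => hz

theorem slice2 {h : ℂ × ℂ → ℂ} (hh : HolN h) {R : ℝ} {w : ℂ} (hs : ‖w‖ ^ 2 + R ^ 2 ≤ 1) :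
    ∃ U : Set ℂ, IsOpen U ∧ Metric.closedBall 0 R ⊆ U ∧ DifferentiableOn ℂ (fun z => h (w, z)) U := by
  obtain ⟨U, hU, hBU, hd⟩ := hh
  refine ⟨(fun z => (w, z)) ⁻¹' U, hU.preimage (by fun_prop), ?_, ?_⟩
  · intro z hz
    rw [mem_closedBall_zero_iff] at hz
    refine hBU ?_
    rw [Bc, mem_ofPred_eq]
    have : ‖z‖ ^ 2 ≤ R ^ 2 := by gcongr
    simp only
    linarith
  · exact hd.comp (by fun_prop) fun z hz => hz

theorem norm_mul_exp (r x : ℝ) : ‖(r : ℂ) * exp (x * I)‖ ^ 2 = r ^ 2 := by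
  rw [norm_mul, norm_exp_I, mul_one, Complex.norm_real, Real.norm_eq_abs, sq_abs]

theorem J_neg1 {h : ℂ × ℂ → ℂ} (hh : HolN h) {s : ℝ × ℝ} (hs : s.1 ^ 2 + s.2 ^ 2 ≤ 1) (h1 : 0 < s.1)
    {γ : ℤ × ℤ} (hγ : γ.1 < 0) : J h s γ = 0 := by
  rw [J_iter1 hh hs]
  have : ∀ y : ℝ, J1 (fun z => h (z, (s.2 : ℂ) * exp (y * I))) s.1 γ.1 = 0 := fun y => by
    obtain ⟨U, hU, hBU, hd⟩ := slice1 hh (R := s.1) (w := (s.2 : ℂ) * exp (y * I))
      (by rw [norm_mul_exp]; exact hs)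
    exact J1_neg hU hd h1 hBU hγ
  simp [this]

theorem J_scale1 {h : ℂ × ℂ → ℂ} (hh : HolN h) {r R t : ℝ} (hr : 0 < r) (hrR : r ≤ R)
    (hs : R ^ 2 + t ^ 2 ≤ 1) (γ : ℤ × ℤ) :
    J h (r, t) γ * (R : ℂ) ^ γ.1 = J h (R, t) γ * (r : ℂ) ^ γ.1 := by
  have hr2 : r ^ 2 ≤ R ^ 2 := by gcongr
  rw [J_iter1 hh (by simp only; linarith), J_iter1 hh (by simpa using hs), ← integral_mul_const,
    ← integral_mul_const]
  congr 1
  ext y
  obtain ⟨U, hU, hBU, hd⟩ := slice1 hh (R := R) (w := (t : ℂ) * exp (y * I))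
      (by rw [norm_mul_exp]; exact hs)
  have := J1_scale hU hd hr hrR hBU γ.1
  simp only
  linear_combination (exp (-((γ.2 : ℂ) * y) * I)) * this

theorem J_scale2 {h : ℂ × ℂ → ℂ} (hh : HolN h) {r R t : ℝ} (hr : 0 < r) (hrR : r ≤ R)
    (hs : t ^ 2 + R ^ 2 ≤ 1) (γ : ℤ × ℤ) :
    J h (t, r) γ * (R : ℂ) ^ γ.2 = J h (t, R) γ * (r : ℂ) ^ γ.2 := by
  have hr2 : r ^ 2 ≤ R ^ 2 := by gcongr
  rw [J_iter2 hh (by simp only; linarith), J_iter2 hh (by simpa using hs), ← integral_mul_const,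
    ← integral_mul_const]
  congr 1
  ext y
  obtain ⟨U, hU, hBU, hd⟩ := slice2 hh (R := R) (w := (t : ℂ) * exp (y * I))
      (by rw [norm_mul_exp]; exact hs)
  have := J1_scale hU hd hr hrR hBU γ.2
  simp only
  linear_combination (exp (-((γ.1 : ℂ) * y) * I)) * this

/-- Monomial in the radii. -/
noncomputable def mono (s : ℝ × ℝ) (γ : ℤ × ℤ) : ℝ := s.1 ^ γ.1 * s.2 ^ γ.2

theorem mono_pos {s : ℝ × ℝ} (h1 : 0 < s.1) (h2 : 0 < s.2) (γ : ℤ × ℤ) : 0 < mono s γ :=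
  mul_pos (zpow_pos h1 _) (zpow_pos h2 _)

theorem J_scale_le {h : ℂ × ℂ → ℂ} (hh : HolN h) {s t : ℝ × ℝ} (hs1 : 0 < s.1) (hs2 : 0 < s.2)
    (h1 : s.1 ≤ t.1) (h2 : s.2 ≤ t.2) (ht : t.1 ^ 2 + t.2 ^ 2 ≤ 1) (γ : ℤ × ℤ) :
    J h s γ * (mono t γ : ℂ) = J h t γ * (mono s γ : ℂ) := by
  have hq : s.1 ^ 2 ≤ t.1 ^ 2 := by gcongr
  have a1 := J_scale1 hh hs1 h1 ht γ
  have a2 := J_scale2 hh (t := s.1) hs2 h2 (by linarith) γ
  have e1 : J h s γ = J h (s.1, s.2) γ := rfl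
  have e2 : J h t γ = J h (t.1, t.2) γ := rfl
  rw [e1, e2, mono, mono]
  push_cast
  linear_combination (t.1 : ℂ) ^ γ.1 * a2 + (s.2 : ℂ) ^ γ.2 * a1

theorem J_scale {h : ℂ × ℂ → ℂ} (hh : HolN h) {s t : ℝ × ℝ} (hs1 : 0 < s.1) (hs2 : 0 < s.2)
    (ht1 : 0 < t.1) (ht2 : 0 < t.2) (hs : s.1 ^ 2 + s.2 ^ 2 ≤ 1) (ht : t.1 ^ 2 + t.2 ^ 2 ≤ 1)
    (γ : ℤ × ℤ) : J h s γ * (mono t γ : ℂ) = J h t γ * (mono s γ : ℂ) := by
  set σ : ℝ × ℝ := (min s.1 t.1, min s.2 t.2) with hσ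
  have p1 : 0 < σ.1 := lt_min hs1 ht1
  have p2 : 0 < σ.2 := lt_min hs2 ht2
  have a := J_scale_le hh p1 p2 (min_le_left _ _) (min_le_left _ _) hs γ
  have b := J_scale_le hh p1 p2 (min_le_right _ _) (min_le_right _ _) ht γ
  have hne : (mono σ γ : ℂ) ≠ 0 := by exact_mod_cast (mono_pos p1 p2 γ).ne'
  apply mul_left_cancel₀ hne
  linear_combination (mono s γ : ℂ) * b - (mono t γ : ℂ) * a

theorem norm_J_le {h : ℂ × ℂ → ℂ} {A : ℝ} (hA : ∀ z ∈ Bc, ‖h z‖ ≤ A) {s : ℝ × ℝ}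
    (hs : s.1 ^ 2 + s.2 ^ 2 ≤ 1) (γ : ℤ × ℤ) : ‖J h s γ‖ ≤ A := by
  rw [J, Av]
  have := norm_integral_le_of_norm_le_const (μ := P2) (C := A)
    (f := fun θ => h (Z s θ) * chi (-γ) θ) (Eventually.of_forall fun θ => by
      simpa [norm_mul, norm_chi] using hA _ (Z_mem hs θ))
  simpa using this

end Pool.Agent.Lib.MP_ca0fc2_an.Cubic
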