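import Pool.Agent.Lib.MP_ca0fc2_an.CubF

/-!
Estimates on one level.
-/

open MeasureTheory Complex Set Filter Topology

namespace Pool.Agent.Lib.MP_ca0fc2_an.Cubic

/-- Average of real functions. -/
noncomputable def AvR (g : ℝ × ℝ → ℝ) : ℝ := ∫ θ, g θ ∂P2

theorem AvR_cast (g : ℝ × ℝ → ℝ) : ((AvR g : ℝ) : ℂ) = Av fun θ => (g θ : ℂ) := integral_ofReal.symm

theorem norm_Av_le {f : ℝ × ℝ → ℂ} {g : ℝ × ℝ → ℝ} (hg : Continuous g) (h : ∀ θ, ‖f θ‖ ≤ g θ) :
    ‖Av f‖ ≤ AvR g :=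
  norm_integral_le_of_norm_le (integrable_of_continuous hg) (Eventually.of_forall h)

theorem AvR_mono {f g : ℝ × ℝ → ℝ} (hf : Continuous f) (hg : Continuous g) (h : ∀ θ, f θ ≤ g θ) :
    AvR f ≤ AvR g :=
  integral_mono (integrable_of_continuous hf) (integrable_of_continuous hg) h

theorem AvR_add {f g : ℝ × ℝ → ℝ} (hf : Continuous f) (hg : Continuous g) :
    AvR (fun θ => f θ + g θ) = AvR f + AvR g :=
  integral_add (integrable_of_continuous hf) (integrable_of_continuous hg)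

theorem AvR_const_mul (c : ℝ) (f : ℝ × ℝ → ℝ) : AvR (fun θ => c * f θ) = c * AvR f :=
  integral_const_mul c f

theorem AvR_sum {ι : Type*} (s : Finset ι) {f : ι → ℝ × ℝ → ℝ} (hf : ∀ i ∈ s, Continuous (f i)) :
    AvR (fun θ => ∑ i ∈ s, f i θ) = ∑ i ∈ s, AvR (f i) :=
  integral_finsetSum s fun i hi => integrable_of_continuous (hf i hi)

theorem pk_nonneg (k : KD) (α : ℕ → ℕ × ℕ) (j : ℕ) (θ : ℝ × ℝ) : 0 ≤ pk k α j θ :=
  Finset.prod_nonneg fun _ _ => Kr_nonneg k _ _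

theorem Kr_continuous (k : KD) (α : ℤ × ℤ) : Continuous (Kr k α) := by
  unfold Kr
  refine continuous_const.add (continuous_const.mul (continuous_finsetSum _ fun n _ => ?_))
  exact continuous_const.mul (Complex.continuous_re.comp (continuous_chi _))

theorem Rr_continuous (k : KD) (ε l : ℝ) (α : ℤ × ℤ) : Continuous (Rr k ε l α) := by
  unfold Rr
  refine continuous_const.sub (continuous_const.mul (continuous_finsetSum _ fun n _ => ?_))
  exact continuous_const.mul (Complex.continuous_re.comp (continuous_chi _))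

theorem pk_continuous (k : KD) (α : ℕ → ℕ × ℕ) (j : ℕ) : Continuous (pk k α j) := by
  unfold pk
  exact continuous_finsetProd _ fun i _ => Kr_continuous k _

theorem pk_succ (k : KD) (α : ℕ → ℕ × ℕ) (j : ℕ) (θ : ℝ × ℝ) :
    pk k α (j + 1) θ = pk k α j θ * Kr k (zc (α j)) θ := by
  rw [pk, pk, Finset.prod_range_succ]

theorem Gap.neg {g : ℝ × ℝ → ℂ} {α : ℕ × ℕ} (h : Gap g α) {n : ℤ} (hn : n ≠ 0) :
    Av (fun θ => g θ * chi (-(n • zc α)) θ) = 0 := by
  have := h (-n) (by omega)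
  rw [neg_smul] at this
  exact this

/-- Multiplication by the kernel does not change the mean. -/
theorem Av_Kr_gap (k : KD) {g : ℝ × ℝ → ℂ} (hg : Continuous g) {α : ℕ × ℕ} (h : Gap g α) :
    Av (fun θ => g θ * (Kr k (zc α) θ : ℂ)) = Av g := by
  rw [Av_Kr k hg]
  have : ∀ n ∈ Finset.range k.N, (k.κ n : ℂ) * (Av (fun θ => g θ * chi (((n + 1 : ℕ) : ℤ) • zc α) θ) +
      Av (fun θ => g θ * chi (-(((n + 1 : ℕ) : ℤ) • zc α)) θ)) = 0 := by
    intro n _
    rw [h _ (by omega), h.neg (by omega), add_zero, mul_zero]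
  rw [Finset.sum_eq_zero this, add_zero]

theorem Av_Rr_gap (k : KD) {g : ℝ × ℝ → ℂ} (hg : Continuous g) {α : ℕ × ℕ} (h : Gap g α) (ε l : ℝ) :
    Av (fun θ => g θ * (Rr k ε l (zc α) θ : ℂ)) = Av g := by
  rw [Av_Rr k hg]
  have : ∀ n ∈ Finset.range k.N, ((k.κ n * l ^ (n + 1) : ℝ) : ℂ) *
      (Av (fun θ => g θ * chi (((n + 1 : ℕ) : ℤ) • zc α) θ) +
      Av (fun θ => g θ * chi (-(((n + 1 : ℕ) : ℤ) • zc α)) θ)) = 0 := by
    intro n _
    rw [h _ (by omega), h.neg (by omega), add_zero, mul_zero]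
  rw [Finset.sum_eq_zero this, mul_zero, sub_zero]

/-- Shifted gap computations. -/
theorem shift_pos {g : ℝ × ℝ → ℂ} {α : ℕ × ℕ} (h : Gap g α) (n : ℕ) :
    Av (fun θ => g θ * chi (zc α) θ * chi (((n + 1 : ℕ) : ℤ) • zc α) θ) = 0 ∧
    Av (fun θ => g θ * chi (zc α) θ * chi (-(((n + 1 : ℕ) : ℤ) • zc α)) θ) = if n = 0 then Av g else 0 := by
  constructor
  · have e : (fun θ => g θ * chi (zc α) θ * chi (((n + 1 : ℕ) : ℤ) • zc α) θ) =
        fun θ => g θ * chi (((n + 2 : ℕ) : ℤ) • zc α) θ := by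
      ext θ
      rw [mul_assoc, ← chi_add]
      congr 2
      push_cast
      module
    rw [e]; exact h _ (by omega)
  · have e : (fun θ => g θ * chi (zc α) θ * chi (-(((n + 1 : ℕ) : ℤ) • zc α)) θ) =
        fun θ => g θ * chi (-((n : ℤ) • zc α)) θ := by
      ext θ
      rw [mul_assoc, ← chi_add]
      congr 2
      push_cast
      module
    rw [e]
    split_ifs with hn
    · subst hn; simp
    · exact h.neg (by omega)

theorem shift_neg {g : ℝ × ℝ → ℂ} {α : ℕ × ℕ} (h : Gap g α) (n : ℕ) :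
    Av (fun θ => g θ * chi (-zc α) θ * chi (((n + 1 : ℕ) : ℤ) • zc α) θ) = (if n = 0 then Av g else 0) ∧
    Av (fun θ => g θ * chi (-zc α) θ * chi (-(((n + 1 : ℕ) : ℤ) • zc α)) θ) = 0 := by
  constructor
  · have e : (fun θ => g θ * chi (-zc α) θ * chi (((n + 1 : ℕ) : ℤ) • zc α) θ) =
        fun θ => g θ * chi ((n : ℤ) • zc α) θ := by
      ext θ
      rw [mul_assoc, ← chi_add]
      congr 2
      push_cast
      module
    rw [e]
    split_ifs with hn
    · subst hn; simp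
    · exact h _ (by omega)
  · have e : (fun θ => g θ * chi (-zc α) θ * chi (-(((n + 1 : ℕ) : ℤ) • zc α)) θ) =
        fun θ => g θ * chi (-(((n + 2 : ℕ) : ℤ) • zc α)) θ := by
      ext θ
      rw [mul_assoc, ← chi_add]
      congr 2
      push_cast
      module
    rw [e]; exact h.neg (by omega)

theorem Av_Kr_pos (k : KD) {g : ℝ × ℝ → ℂ} (hg : Continuous g) {α : ℕ × ℕ} (h : Gap g α) :
    Av (fun θ => g θ * chi (zc α) θ * (Kr k (zc α) θ : ℂ)) = k.κ 0 * Av g := by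
  rw [Av_Kr k (cm hg (continuous_chi _))]
  have h0 : Av (fun θ => g θ * chi (zc α) θ) = 0 := by
    have := h 1 one_ne_zero
    simpa using this
  rw [h0, zero_add]
  have : ∀ n ∈ Finset.range k.N, (k.κ n : ℂ) *
      (Av (fun θ => g θ * chi (zc α) θ * chi (((n + 1 : ℕ) : ℤ) • zc α) θ) +
      Av (fun θ => g θ * chi (zc α) θ * chi (-(((n + 1 : ℕ) : ℤ) • zc α)) θ)) =
      if n = 0 then (k.κ 0 : ℂ) * Av g else 0 := by
    intro n _
    rw [(shift_pos h n).1, (shift_pos h n).2, zero_add]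
    split_ifs with hn
    · rw [hn]
    · rw [mul_zero]
  rw [Finset.sum_congr rfl this, Finset.sum_ite_eq' (Finset.range k.N) 0,
    if_pos (Finset.mem_range.2 k.hN)]

theorem Av_Kr_neg (k : KD) {g : ℝ × ℝ → ℂ} (hg : Continuous g) {α : ℕ × ℕ} (h : Gap g α) :
    Av (fun θ => g θ * chi (-zc α) θ * (Kr k (zc α) θ : ℂ)) = k.κ 0 * Av g := by
  rw [Av_Kr k (cm hg (continuous_chi _))]
  have h0 : Av (fun θ => g θ * chi (-zc α) θ) = 0 := by
    have := h (-1) (by norm_num)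
    simpa using this
  rw [h0, zero_add]
  have : ∀ n ∈ Finset.range k.N, (k.κ n : ℂ) *
      (Av (fun θ => g θ * chi (-zc α) θ * chi (((n + 1 : ℕ) : ℤ) • zc α) θ) +
      Av (fun θ => g θ * chi (-zc α) θ * chi (-(((n + 1 : ℕ) : ℤ) • zc α)) θ)) =
      if n = 0 then (k.κ 0 : ℂ) * Av g else 0 := by
    intro n _
    rw [(shift_neg h n).1, (shift_neg h n).2, add_zero]
    split_ifs with hn
    · rw [hn]
    · rw [mul_zero]
  rw [Finset.sum_congr rfl this, Finset.sum_ite_eq' (Finset.range k.N) 0,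
    if_pos (Finset.mem_range.2 k.hN)]

theorem Av_Rr_neg (k : KD) {g : ℝ × ℝ → ℂ} (hg : Continuous g) {α : ℕ × ℕ} (h : Gap g α) (ε l : ℝ) :
    Av (fun θ => g θ * chi (-zc α) θ * (Rr k ε l (zc α) θ : ℂ)) =
      -(((1 - ε) / (2 * ε) * (k.κ 0 * l) : ℝ) : ℂ) * Av g := by
  rw [Av_Rr k (cm hg (continuous_chi _))]
  have h0 : Av (fun θ => g θ * chi (-zc α) θ) = 0 := by
    have := h (-1) (by norm_num)
    simpa using this
  rw [h0, zero_sub]
  have : ∀ n ∈ Finset.range k.N, ((k.κ n * l ^ (n + 1) : ℝ) : ℂ) *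
      (Av (fun θ => g θ * chi (-zc α) θ * chi (((n + 1 : ℕ) : ℤ) • zc α) θ) +
      Av (fun θ => g θ * chi (-zc α) θ * chi (-(((n + 1 : ℕ) : ℤ) • zc α)) θ)) =
      if n = 0 then ((k.κ 0 * l : ℝ) : ℂ) * Av g else 0 := by
    intro n _
    rw [(shift_neg h n).1, (shift_neg h n).2, add_zero]
    split_ifs with hn
    · rw [hn]; simp
    · rw [mul_zero]
  rw [Finset.sum_congr rfl this, Finset.sum_ite_eq' (Finset.range k.N) 0,
    if_pos (Finset.mem_range.2 k.hN)]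
  push_cast; ring

/-- Moments of the densities. -/
theorem moments {k : KD} {ε η ν e : ℝ} {K : ℕ} {α : ℕ → ℕ × ℕ} {β : ℕ × ℕ}
    (hG : Good k ε η ν e K α β) : ∀ j ≤ K, Av (fun θ => (pk k α j θ : ℂ)) = 1 ∧
      ∀ i < j, Av (fun θ => (pk k α j θ : ℂ) * chi (zc (α i)) θ) = k.κ 0 ∧
        Av (fun θ => (pk k α j θ : ℂ) * chi (-zc (α i)) θ) = k.κ 0 := by
  intro j
  induction j with
  | zero =>
    intro _
    refine ⟨by simp [pk, Av], fun i hi => absurd hi (Nat.not_lt_zero _)⟩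
  | succ j ih =>
    intro hj
    obtain ⟨h0, h1⟩ := ih (by omega)
    have hc : Continuous fun θ => (pk k α j θ : ℂ) := TP_continuous (pk_mem k α j)
    have g0 := hG.gap0 j (by omega)
    have e : ∀ θ, (pk k α (j + 1) θ : ℂ) = (pk k α j θ : ℂ) * (Kr k (zc (α j)) θ : ℂ) := fun θ => by
      rw [pk_succ, ofReal_mul]
    refine ⟨?_, fun i hi => ?_⟩
    · simp only [e]
      rw [Av_Kr_gap k hc g0, h0]
    · have e1 : ∀ γ, (fun θ => (pk k α (j + 1) θ : ℂ) * chi γ θ) =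
          fun θ => (pk k α j θ : ℂ) * chi γ θ * (Kr k (zc (α j)) θ : ℂ) := by
        intro γ; ext θ; rw [e]; ring
      rw [e1, e1]
      rcases Nat.lt_succ_iff_lt_or_eq.1 hi with h | rfl
      · rw [Av_Kr_gap k (cm hc (continuous_chi _)) (hG.gap1 j (by omega) i h),
          Av_Kr_gap k (cm hc (continuous_chi _)) (hG.gap2 j (by omega) i h)]
        exact h1 i h
      · rw [Av_Kr_pos k hc g0, Av_Kr_neg k hc g0, h0, mul_one]
        exact ⟨rfl, rfl⟩

theorem norm_chi_sub_one_sq (γ : ℤ × ℤ) (θ : ℝ × ℝ) : ‖chi γ θ - 1‖ ^ 2 = 2 - 2 * (chi γ θ).re := by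
  have h := norm_chi γ θ
  have h2 : ‖chi γ θ‖ ^ 2 = 1 := by rw [h, one_pow]
  rw [← Complex.normSq_eq_norm_sq, Complex.normSq_apply] at h2 ⊢
  simp only [Complex.sub_re, Complex.sub_im, Complex.one_re, Complex.one_im]
  nlinarith

theorem conc {k : KD} {ε η ν e t : ℝ} (ht : 0 < t) (hκ : 1 - t ^ 2 / 2 ≤ k.κ 0) {K : ℕ}
    {α : ℕ → ℕ × ℕ} {β : ℕ × ℕ} (hG : Good k ε η ν e K α β) {j : ℕ} (hj : j ≤ K) {i : ℕ} (hi : i < j) :
    AvR (fun θ => ‖chi (zc (α i)) θ - 1‖ * pk k α j θ) ≤ t := by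
  obtain ⟨h0, h1⟩ := moments hG j hj
  obtain ⟨h2, h3⟩ := h1 i hi
  have hc := pk_continuous k α j
  have hcc : Continuous fun θ => (pk k α j θ : ℂ) := TP_continuous (pk_mem k α j)
  have hchi := continuous_chi (zc (α i))
  have hre : Continuous fun θ => (chi (zc (α i)) θ).re := Complex.continuous_re.comp hchi
  have p0 : AvR (pk k α j) = 1 := by
    have : ((AvR (pk k α j) : ℝ) : ℂ) = 1 := by rw [AvR_cast, h0]
    exact_mod_cast this
  have p1 : AvR (fun θ => (chi (zc (α i)) θ).re * pk k α j θ) = k.κ 0 := by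
    have : ((AvR (fun θ => (chi (zc (α i)) θ).re * pk k α j θ) : ℝ) : ℂ) = k.κ 0 := by
      rw [AvR_cast]
      have e : (fun θ => (((chi (zc (α i)) θ).re * pk k α j θ : ℝ) : ℂ)) =
          fun θ => (1 / 2 : ℂ) * ((pk k α j θ : ℂ) * chi (zc (α i)) θ + (pk k α j θ : ℂ) * chi (-zc (α i)) θ) := by
        ext θ
        rw [ofReal_mul, chi_re]; ring
      rw [e, Av_const_mul, Av_add (cm hcc (continuous_chi _)) (cm hcc (continuous_chi _)), h2, h3]
      ring
    exact_mod_cast this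
  have hpt : ∀ θ, ‖chi (zc (α i)) θ - 1‖ * pk k α j θ ≤
      (t / 2 + 1 / t) * pk k α j θ + (-(1 / t)) * ((chi (zc (α i)) θ).re * pk k α j θ) := by
    intro θ
    have hp := pk_nonneg k α j θ
    have h4 := norm_chi_sub_one_sq (zc (α i)) θ
    set y := ‖chi (zc (α i)) θ - 1‖ with hy
    have h5 : y ≤ t / 2 + 1 / t + (-(1 / t)) * (chi (zc (α i)) θ).re := by
      have h6 : (chi (zc (α i)) θ).re = 1 - y ^ 2 / 2 := by linarith
      rw [h6]
      have h7 : t / 2 + 1 / t + (-(1 / t)) * (1 - y ^ 2 / 2) - y = (t - y) ^ 2 / (2 * t) := by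
        field_simp
        ring
      have h8 : 0 ≤ (t - y) ^ 2 / (2 * t) := by positivity
      linarith
    calc y * pk k α j θ ≤ (t / 2 + 1 / t + (-(1 / t)) * (chi (zc (α i)) θ).re) * pk k α j θ := by gcongr
      _ = _ := by ring
  have hc1 : Continuous fun θ => ‖chi (zc (α i)) θ - 1‖ * pk k α j θ :=
    (hchi.sub continuous_const).norm.mul hc
  have hc2 : Continuous fun θ => (t / 2 + 1 / t) * pk k α j θ := continuous_const.mul hc
  have hc3 : Continuous fun θ => (-(1 / t)) * ((chi (zc (α i)) θ).re * pk k α j θ) :=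
    continuous_const.mul (hre.mul hc)
  have hc23 : Continuous fun θ => (t / 2 + 1 / t) * pk k α j θ +
      (-(1 / t)) * ((chi (zc (α i)) θ).re * pk k α j θ) := hc2.add hc3
  refine (AvR_mono hc1 hc23 hpt).trans ?_
  rw [AvR_add hc2 hc3, AvR_const_mul, AvR_const_mul, p0, p1, mul_one]
  have h9 : t / 2 + 1 / t + -(1 / t) * k.κ 0 ≤ t / 2 + 1 / t + -(1 / t) * (1 - t ^ 2 / 2) := by
    have : 0 < 1 / t := by positivity
    nlinarith
  have h10 : t / 2 + 1 / t + -(1 / t) * (1 - t ^ 2 / 2) = t := by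
    field_simp
    ring
  linarith

end Pool.Agent.Lib.MP_ca0fc2_an.Cubic
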