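import Mathlib

/-!
The deterministic part: vectors moving along a circle, and cut-offs by powers.
-/

open Complex Set Filter Topology

namespace Pool.Agent.Lib.MP_ca0fc2_an.Cubic

/-- Real vectors of the plane seen in the space of pairs of complex numbers. -/
noncomputable def V (c : ℂ) : EuclideanSpace ℂ (Fin 2) := !₂[(c.re : ℂ), (c.im : ℂ)]

theorem V_add (a b : ℂ) : V (a + b) = V a + V b := by
  ext i
  fin_cases i <;> simp [V]

theorem V_real_mul (r : ℝ) (a : ℂ) : V ((r : ℂ) * a) = (r : ℂ) • V a := by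
  ext i
  fin_cases i <;> simp [V]

theorem norm_sq_two (v : EuclideanSpace ℂ (Fin 2)) : ‖v‖ ^ 2 = ‖v 0‖ ^ 2 + ‖v 1‖ ^ 2 := by
  rw [EuclideanSpace.norm_sq_eq, Fin.sum_univ_two]

theorem norm_V (c : ℂ) : ‖V c‖ = ‖c‖ := by
  have h : ‖V c‖ ^ 2 = ‖c‖ ^ 2 := by
    rw [norm_sq_two, V]
    simp only [Matrix.cons_val_zero, Matrix.cons_val_one, Complex.norm_real, Real.norm_eq_abs, sq_abs]
    rw [← Complex.normSq_eq_norm_sq, Complex.normSq_apply]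
    ring
  exact (sq_eq_sq₀ (norm_nonneg _) (norm_nonneg _)).1 h

theorem norm_line (x w : ℂ) (μ : ℝ) :
    ‖V x + w • V (I * (μ : ℂ) * x)‖ ^ 2 = ‖x‖ ^ 2 + ‖w‖ ^ 2 * (μ ^ 2 * ‖x‖ ^ 2) := by
  rw [norm_sq_two]
  have e0 : (V x + w • V (I * (μ : ℂ) * x)) 0 = (x.re : ℂ) - w * ((μ * x.im : ℝ) : ℂ) := by
    simp [V]; ring
  have e1 : (V x + w • V (I * (μ : ℂ) * x)) 1 = (x.im : ℂ) + w * ((μ * x.re : ℝ) : ℂ) := by
    simp [V]
  rw [e0, e1, ← Complex.normSq_eq_norm_sq, ← Complex.normSq_eq_norm_sq, ← Complex.normSq_eq_norm_sq,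
    ← Complex.normSq_eq_norm_sq, Complex.normSq_apply, Complex.normSq_apply, Complex.normSq_apply,
    Complex.normSq_apply]
  simp only [Complex.sub_re, Complex.sub_im, Complex.add_re, Complex.add_im, Complex.mul_re,
    Complex.mul_im, Complex.ofReal_re, Complex.ofReal_im]
  ring

theorem norm_line_ge (x w : ℂ) (μ : ℝ) : ‖x‖ ≤ ‖V x + w • V (I * (μ : ℂ) * x)‖ := by
  have h := norm_line x w μ
  have h2 : 0 ≤ ‖w‖ ^ 2 * (μ ^ 2 * ‖x‖ ^ 2) := by positivity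
  have h3 : ‖x‖ ^ 2 ≤ ‖V x + w • V (I * (μ : ℂ) * x)‖ ^ 2 := by linarith
  exact (sq_le_sq₀ (norm_nonneg _) (norm_nonneg _)).1 h3

/-- Parameters of the path. -/
structure PD where
  x0 : ℂ
  ε : ℝ
  μ : ℝ

variable (P : PD)

/-- The points of the path. -/
noncomputable def PD.x (k : ℕ) : ℂ := P.x0 * (1 + (P.ε : ℂ) * P.μ * I) ^ k

/-- The directions. -/
noncomputable def PD.a (k : ℕ) : ℂ := I * (P.μ : ℂ) * P.x k

theorem PD.x_succ (k : ℕ) : P.x (k + 1) = P.x k + (P.ε : ℂ) * P.a k := by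
  rw [PD.x, PD.a, PD.x, pow_succ]; ring

theorem PD.V_succ (k : ℕ) : V (P.x (k + 1)) = V (P.x k) + (P.ε : ℂ) • V (P.a k) := by
  rw [P.x_succ, V_add, V_real_mul]

theorem PD.norm_x (k : ℕ) : ‖P.x k‖ ^ 2 = ‖P.x0‖ ^ 2 * (1 + P.ε ^ 2 * P.μ ^ 2) ^ k := by
  rw [PD.x, norm_mul, norm_pow, mul_pow, ← pow_mul, mul_comm k 2, pow_mul]
  congr 2
  rw [← Complex.normSq_eq_norm_sq, Complex.normSq_apply]
  simp
  ring

theorem PD.norm_x_ge (k : ℕ) : ‖P.x0‖ ≤ ‖P.x k‖ := by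
  have h := P.norm_x k
  have h1 : (1 : ℝ) ≤ (1 + P.ε ^ 2 * P.μ ^ 2) ^ k := one_le_pow₀ (by nlinarith [sq_nonneg (P.ε * P.μ)])
  have h2 : ‖P.x0‖ ^ 2 ≤ ‖P.x k‖ ^ 2 := by
    rw [h]; nlinarith [sq_nonneg ‖P.x0‖]
  exact (sq_le_sq₀ (norm_nonneg _) (norm_nonneg _)).1 h2

/-- Product of the cut-off factors. -/
noncomputable def bb (u : ℕ → ℂ) (k : ℕ) : ℂ := ∏ i ∈ Finset.range k, ((1 + u i) / 2)

/-- The cut-off of level k. -/
noncomputable def QQ (m : ℕ → ℕ) (u : ℕ → ℂ) (k : ℕ) : ℂ := bb u k ^ m k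

/-- The actual position. -/
noncomputable def XX (m : ℕ → ℕ) (u : ℕ → ℂ) (k : ℕ) : EuclideanSpace ℂ (Fin 2) :=
  V P.x0 + ∑ j ∈ Finset.range k, ((P.ε : ℂ) * u j * QQ m u j) • V (P.a j)

theorem XX_zero (m : ℕ → ℕ) (u : ℕ → ℂ) : XX P m u 0 = V P.x0 := by simp [XX]

theorem XX_succ (m : ℕ → ℕ) (u : ℕ → ℂ) (k : ℕ) :
    XX P m u (k + 1) = XX P m u k + ((P.ε : ℂ) * u k * QQ m u k) • V (P.a k) := by
  rw [XX, XX, Finset.sum_range_succ, add_assoc]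

theorem bb_succ (u : ℕ → ℂ) (k : ℕ) : bb u (k + 1) = bb u k * ((1 + u k) / 2) := by
  rw [bb, bb, Finset.prod_range_succ]

theorem par_id (u : ℂ) : ‖(1 + u) / 2‖ ^ 2 + ‖1 - (1 + u) / 2‖ ^ 2 = (1 + ‖u‖ ^ 2) / 2 := by
  rw [← Complex.normSq_eq_norm_sq, ← Complex.normSq_eq_norm_sq, ← Complex.normSq_eq_norm_sq,
    Complex.normSq_apply, Complex.normSq_apply, Complex.normSq_apply]
  simp
  ring

theorem norm_c_le {u : ℂ} (hu : ‖u‖ ≤ 1) : ‖(1 + u) / 2‖ ≤ 1 := by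
  have h := par_id u
  have h1 : ‖u‖ ^ 2 ≤ 1 := by
    have := norm_nonneg u
    nlinarith
  have h2 := sq_nonneg ‖1 - (1 + u) / 2‖
  have h3 := norm_nonneg ((1 + u) / 2)
  nlinarith

theorem norm_one_sub_c {u : ℂ} (hu : ‖u‖ ≤ 1) : ‖1 - (1 + u) / 2‖ ^ 2 ≤ 1 - ‖(1 + u) / 2‖ ^ 2 := by
  have h := par_id u
  have h1 : ‖u‖ ^ 2 ≤ 1 := by
    have := norm_nonneg u
    nlinarith
  linarith

theorem norm_bb_le {u : ℕ → ℂ} (hu : ∀ i, ‖u i‖ ≤ 1) (k : ℕ) : ‖bb u k‖ ≤ 1 := by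
  rw [bb, norm_prod]
  exact Finset.prod_le_one (fun i _ => norm_nonneg _) fun i _ => norm_c_le (hu i)

/-- Size of the deviation. -/
noncomputable def gg (u : ℕ → ℂ) (k : ℕ) : ℝ := Real.sqrt (1 - ‖bb u k‖ ^ 2)

theorem gg_sq {u : ℕ → ℂ} (hu : ∀ i, ‖u i‖ ≤ 1) (k : ℕ) : gg u k ^ 2 = 1 - ‖bb u k‖ ^ 2 := by
  rw [gg, Real.sq_sqrt]
  have := norm_bb_le hu k
  have := norm_nonneg (bb u k)
  nlinarith

theorem gg_mono {u : ℕ → ℂ} (hu : ∀ i, ‖u i‖ ≤ 1) (k : ℕ) : gg u k ≤ gg u (k + 1) := by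
  apply Real.sqrt_le_sqrt
  have h1 : ‖bb u (k + 1)‖ ≤ ‖bb u k‖ := by
    rw [bb_succ, norm_mul]
    exact mul_le_of_le_one_right (norm_nonneg _) (norm_c_le (hu k))
  have := norm_nonneg (bb u (k + 1))
  nlinarith

theorem c_le_gg {u : ℕ → ℂ} (hu : ∀ i, ‖u i‖ ≤ 1) (k : ℕ) : ‖1 - (1 + u k) / 2‖ ≤ gg u (k + 1) := by
  apply Real.le_sqrt_of_sq_le
  refine (norm_one_sub_c (hu k)).trans ?_
  have h1 : ‖bb u (k + 1)‖ ≤ ‖(1 + u k) / 2‖ := by
    rw [bb_succ, norm_mul]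
    exact mul_le_of_le_one_left (norm_nonneg _) (norm_bb_le hu k)
  have := norm_nonneg (bb u (k + 1))
  nlinarith

theorem bb_sub_one {u : ℕ → ℂ} (hu : ∀ i, ‖u i‖ ≤ 1) (k : ℕ) : ‖bb u k - 1‖ ≤ k * gg u k := by
  induction k with
  | zero => simp [bb]
  | succ k ih =>
    rw [bb_succ]
    have e : bb u k * ((1 + u k) / 2) - 1 = -(bb u k * (1 - (1 + u k) / 2)) + (bb u k - 1) := by ring
    rw [e]
    refine (norm_add_le _ _).trans ?_
    rw [norm_neg, norm_mul]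
    have h1 : ‖bb u k‖ * ‖1 - (1 + u k) / 2‖ ≤ 1 * gg u (k + 1) :=
      mul_le_mul (norm_bb_le hu k) (c_le_gg hu k) (norm_nonneg _) zero_le_one
    have h2 : (k : ℝ) * gg u k ≤ k * gg u (k + 1) := by
      gcongr; exact gg_mono hu k
    push_cast
    linarith

theorem norm_pow_sub_one_le {z : ℂ} (hz : ‖z‖ ≤ 1) (m : ℕ) : ‖z ^ m - 1‖ ≤ m * ‖z - 1‖ := by
  induction m with
  | zero => simp
  | succ m ih =>
    have e : z ^ (m + 1) - 1 = z ^ m * (z - 1) + (z ^ m - 1) := by ring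
    rw [e]
    refine (norm_add_le _ _).trans ?_
    have h1 : ‖z ^ m * (z - 1)‖ ≤ 1 * ‖z - 1‖ := by
      rw [norm_mul, norm_pow]
      gcongr
      exact pow_le_one₀ (norm_nonneg _) hz
    push_cast
    linarith

theorem exists_pow_M {η : ℝ} (hη : 0 < η) (D : ℝ) : ∃ M : ℕ, 0 ≤ D → ∀ g : ℝ, 0 ≤ g → g ^ 2 ≤ 1 →
    η ^ 2 < (1 - g ^ 2) ^ M → D * g ≤ η := by
  rcases lt_or_ge D 0 with hD | hD
  · exact ⟨0, fun h => absurd h (not_le.2 hD)⟩
  set y := (η / (D + 1)) ^ 2 with hy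
  have hy0 : 0 < y := by positivity
  obtain ⟨M, hM⟩ : ∃ M : ℕ, (max (1 - y) 0) ^ M < η ^ 2 :=
    exists_pow_lt_of_lt_one (by positivity) (max_lt (by linarith) one_pos)
  refine ⟨M, fun _ g hg hg1 hlt => ?_⟩
  by_contra hcon
  push Not at hcon
  have h1 : η / (D + 1) < g := by
    rw [div_lt_iff₀ (by linarith)]
    nlinarith
  have h2 : y < g ^ 2 := by
    rw [hy]; exact pow_lt_pow_left₀ h1 (by positivity) (by norm_num)
  have h3 : (1 - g ^ 2) ^ M ≤ (max (1 - y) 0) ^ M := by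
    apply pow_le_pow_left₀ (by linarith)
    exact le_max_of_le_left (by linarith)
  linarith

/-- Choice of the powers. -/
theorem exists_powers {η : ℝ} (hη : 0 < η) (K : ℕ) (ha : ∀ j ≤ K, |P.ε| * ‖P.a j‖ ≤ 1) :
    ∃ m : ℕ → ℕ, ∀ u : ℕ → ℂ, (∀ i, ‖u i‖ ≤ 1) → ∀ k ≤ K,
      ‖QQ m u k‖ ≤ η ∨ ‖XX P m u k - V (P.x k)‖ ≤ η := by
  choose f hf using fun D : ℝ => exists_pow_M hη D
  set Dm : ℕ → ℝ := fun n => Nat.rec 0 (fun k D => D + (2 + f D * k)) n with hDm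
  have D0 : Dm 0 = 0 := rfl
  have Ds : ∀ k, Dm (k + 1) = Dm k + (2 + f (Dm k) * k) := fun k => rfl
  have Dnn : ∀ k, 0 ≤ Dm k := fun k => by
    induction k with
    | zero => rw [D0]
    | succ k ih => rw [Ds]; positivity
  set m : ℕ → ℕ := fun k => f (Dm k) with hm
  refine ⟨m, fun u hu k hk => ?_⟩
  have key : ∀ k ≤ K, ‖XX P m u k - V (P.x k)‖ ≤ Dm k * gg u k := by
    intro k
    induction k with
    | zero => intro _; simp [XX, D0, PD.x]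
    | succ k ih =>
      intro hk
      have h1 := ih (by omega)
      have h2 := bb_sub_one hu k
      have h3 : ‖QQ m u k - 1‖ ≤ m k * (k * gg u k) :=
        (norm_pow_sub_one_le (norm_bb_le hu k) _).trans (by gcongr)
      have h4 : ‖u k - 1‖ ≤ 2 * gg u (k + 1) := by
        have := c_le_gg hu k
        have e : u k - 1 = -(2 * (1 - (1 + u k) / 2)) := by ring
        rw [e, norm_neg, norm_mul, RCLike.norm_ofNat]
        linarith
      have h5 : ‖u k * QQ m u k - 1‖ ≤ 2 * gg u (k + 1) + m k * (k * gg u k) := by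
        have e : u k * QQ m u k - 1 = (u k - 1) + u k * (QQ m u k - 1) := by ring
        rw [e]
        refine (norm_add_le _ _).trans (add_le_add h4 ?_)
        rw [norm_mul]
        calc ‖u k‖ * ‖QQ m u k - 1‖ ≤ 1 * ‖QQ m u k - 1‖ := by gcongr; exact hu k
          _ ≤ _ := by rw [one_mul]; exact h3
      have e : XX P m u (k + 1) - V (P.x (k + 1)) =
          (XX P m u k - V (P.x k)) + ((P.ε : ℂ) * (u k * QQ m u k - 1)) • V (P.a k) := by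
        rw [XX_succ, P.V_succ, mul_sub, sub_smul, mul_one, mul_assoc]
        abel
      rw [e, Ds]
      refine (norm_add_le _ _).trans ?_
      rw [norm_smul, norm_mul, norm_V, Complex.norm_real, Real.norm_eq_abs]
      have h6 : |P.ε| * ‖u k * QQ m u k - 1‖ * ‖P.a k‖ ≤ 2 * gg u (k + 1) + m k * (k * gg u k) := by
        calc _ = (|P.ε| * ‖P.a k‖) * ‖u k * QQ m u k - 1‖ := by ring
          _ ≤ 1 * (2 * gg u (k + 1) + m k * (k * gg u k)) := by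
            gcongr
            exact ha k (by omega)
          _ = _ := one_mul _
      have h7 := gg_mono hu k
      have h8 : Dm k * gg u k ≤ Dm k * gg u (k + 1) := mul_le_mul_of_nonneg_left h7 (Dnn k)
      have h9 : (m k : ℝ) * (k * gg u k) ≤ m k * (k * gg u (k + 1)) := by gcongr
      have h10 : (Dm k + (2 + (f (Dm k) : ℝ) * k)) * gg u (k + 1) =
          Dm k * gg u (k + 1) + (2 * gg u (k + 1) + m k * (k * gg u (k + 1))) := by
        simp only [hm]; ring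
      rw [h10]
      linarith
  rcases le_or_gt ‖QQ m u k‖ η with h | h
  · exact Or.inl h
  · right
    refine (key k hk).trans ?_
    have h1 := gg_sq hu k
    refine hf (Dm k) (Dnn k) (gg u k) (Real.sqrt_nonneg _) ?_ ?_
    · rw [h1]; nlinarith [sq_nonneg ‖bb u k‖]
    · rw [h1]
      have e : (1 - (1 - ‖bb u k‖ ^ 2)) ^ f (Dm k) = ‖QQ m u k‖ ^ 2 := by
        rw [QQ, norm_pow]
        simp only [hm]
        ring
      rw [e]
      exact pow_lt_pow_left₀ h hη.le (by norm_num)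

/-- Lower and upper bounds for the positions. -/
theorem XX_bounds {η R : ℝ} (hη : 0 < η) (hε : 0 < P.ε) {K : ℕ} {m : ℕ → ℕ} (ha : ∀ j ≤ K, ‖P.a j‖ ≤ 1)
    (hR : ∀ j ≤ K, ‖P.x j‖ ≤ R)
    (hm : ∀ u : ℕ → ℂ, (∀ i, ‖u i‖ ≤ 1) → ∀ k ≤ K,
      ‖QQ m u k‖ ≤ η ∨ ‖XX P m u k - V (P.x k)‖ ≤ η) {u : ℕ → ℂ} (hu : ∀ i, ‖u i‖ ≤ 1) :
    ∀ k ≤ K + 1, ‖P.x0‖ - P.ε - η - k * (P.ε * η) ≤ ‖XX P m u k‖ ∧
      ‖XX P m u k‖ ≤ R + P.ε + η + k * (P.ε * η) := by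
  intro k
  induction k with
  | zero =>
    intro _
    rw [XX_zero, norm_V]
    have := hR 0 (Nat.zero_le _)
    rw [PD.x, pow_zero, mul_one] at this
    push_cast
    constructor <;> nlinarith
  | succ k ih =>
    intro hk
    have hkK : k ≤ K := by omega
    obtain ⟨h1, h2⟩ := ih (by omega)
    have hu1 := hu k
    have ha1 := ha k hkK
    have hq0 := norm_nonneg (QQ m u k)
    rw [XX_succ]
    have hstep : ‖((P.ε : ℂ) * u k * QQ m u k) • V (P.a k)‖ ≤ P.ε * ‖QQ m u k‖ := by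
      rw [norm_smul, norm_mul, norm_mul, norm_V, Complex.norm_real, Real.norm_eq_abs, abs_of_pos hε]
      calc P.ε * ‖u k‖ * ‖QQ m u k‖ * ‖P.a k‖ ≤ P.ε * 1 * ‖QQ m u k‖ * 1 := by gcongr
        _ = _ := by ring
    have hQ1 : ‖QQ m u k‖ ≤ 1 := by
      rw [QQ, norm_pow]; exact pow_le_one₀ (norm_nonneg _) (norm_bb_le hu k)
    have t1 := norm_sub_norm_le (XX P m u k) (-(((P.ε : ℂ) * u k * QQ m u k) • V (P.a k)))
    rw [sub_neg_eq_add, norm_neg] at t1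
    have t2 := norm_add_le (XX P m u k) (((P.ε : ℂ) * u k * QQ m u k) • V (P.a k))
    have hkε : 0 ≤ (k : ℝ) * (P.ε * η) := by positivity
    rcases hm u hu k hkK with h | h
    · have h3 : P.ε * ‖QQ m u k‖ ≤ P.ε * η := by gcongr
      push_cast
      constructor <;> linarith
    · have h4 : P.ε * ‖QQ m u k‖ ≤ P.ε * 1 := by gcongr
      have h5 := norm_sub_norm_le (V (P.x k)) (XX P m u k)
      rw [norm_sub_rev, norm_V] at h5
      have h6 := norm_sub_norm_le (XX P m u k) (V (P.x k))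
      rw [norm_V] at h6
      have h7 := P.norm_x_ge k
      have h8 := hR k hkK
      have h9 : 0 < P.ε * η := by positivity
      push_cast
      constructor <;> nlinarith

/-- The shell estimate. -/
theorem shell {η R : ℝ} (hη : 0 < η) (hε : 0 < P.ε) {K : ℕ} {m : ℕ → ℕ} (ha : ∀ j ≤ K, ‖P.a j‖ ≤ 1)
    (hR : ∀ j ≤ K, ‖P.x j‖ ≤ R) (hK : ((K : ℝ) + 1) * P.ε ≤ 2)
    (hm : ∀ u : ℕ → ℂ, (∀ i, ‖u i‖ ≤ 1) → ∀ k ≤ K,
      ‖QQ m u k‖ ≤ η ∨ ‖XX P m u k - V (P.x k)‖ ≤ η) {u : ℕ → ℂ} (hu : ∀ i, ‖u i‖ ≤ 1)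
    {w : ℂ} (hw : ‖w‖ ≤ 1) {k : ℕ} (hk : k ≤ K) :
    ‖P.x0‖ - P.ε - 4 * η ≤ ‖XX P m u k + (w * QQ m u k) • V (P.a k)‖ ∧
      ‖XX P m u k + (w * QQ m u k) • V (P.a k)‖ ≤ R + P.ε + 4 * η + ‖P.a k‖ := by
  obtain ⟨h1, h2⟩ := XX_bounds P hη hε ha hR hm hu k (by omega)
  have hk1 : (k : ℝ) * (P.ε * η) ≤ 2 * η := by
    have : (k : ℝ) ≤ K := by exact_mod_cast hk
    have h3 : (k : ℝ) * P.ε ≤ 2 := by nlinarith
    nlinarith
  have hQ1 : ‖QQ m u k‖ ≤ 1 := by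
    rw [QQ, norm_pow]; exact pow_le_one₀ (norm_nonneg _) (norm_bb_le hu k)
  have hQ0 := norm_nonneg (QQ m u k)
  have ha0 := norm_nonneg (P.a k)
  have ha1 := ha k hk
  have hw0 := norm_nonneg w
  have hstep : ‖(w * QQ m u k) • V (P.a k)‖ ≤ ‖QQ m u k‖ * ‖P.a k‖ := by
    rw [norm_smul, norm_mul, norm_V]
    calc ‖w‖ * ‖QQ m u k‖ * ‖P.a k‖ ≤ 1 * ‖QQ m u k‖ * ‖P.a k‖ := by gcongr
      _ = _ := by ring
  have t1 := norm_sub_norm_le (XX P m u k) (-((w * QQ m u k) • V (P.a k)))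
  rw [sub_neg_eq_add, norm_neg] at t1
  have t2 := norm_add_le (XX P m u k) ((w * QQ m u k) • V (P.a k))
  constructor
  · rcases hm u hu k hk with h | h
    · have : ‖QQ m u k‖ * ‖P.a k‖ ≤ η * 1 := by gcongr
      linarith
    · have h3 := norm_line_ge (P.x k) (w * QQ m u k) P.μ
      have h4 := P.norm_x_ge k
      have e : V (P.x k) + (w * QQ m u k) • V (I * (P.μ : ℂ) * P.x k) =
          (XX P m u k + (w * QQ m u k) • V (P.a k)) - (XX P m u k - V (P.x k)) := by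
        rw [PD.a]; abel
      rw [e] at h3
      have h5 := norm_sub_le (XX P m u k + (w * QQ m u k) • V (P.a k)) (XX P m u k - V (P.x k))
      linarith
  · have : ‖QQ m u k‖ * ‖P.a k‖ ≤ 1 * ‖P.a k‖ := by gcongr
    linarith

end Pool.Agent.Lib.MP_ca0fc2_an.Cubic
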