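import Pool.Agent.Lib.MP_ca0fc2_an.CubLac
import Pool.Agent.Lib.MP_ca0fc2_an.CubShell

/-!
The corona data.
-/

open MeasureTheory Complex Set Filter Topology

namespace Pool.Agent.Lib.MP_ca0fc2_an.Cubic

variable (P : PD)

theorem bb_congr {u v : ℕ → ℂ} {k : ℕ} (h : ∀ i < k, u i = v i) : bb u k = bb v k :=
  Finset.prod_congr rfl fun i hi => by rw [h i (Finset.mem_range.1 hi)]

theorem QQ_congr (m : ℕ → ℕ) {u v : ℕ → ℂ} {k : ℕ} (h : ∀ i < k, u i = v i) :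
    QQ m u k = QQ m v k := by
  rw [QQ, QQ, bb_congr h]

theorem XX_congr (m : ℕ → ℕ) {u v : ℕ → ℂ} {k : ℕ} (h : ∀ i < k, u i = v i) :
    XX P m u k = XX P m v k := by
  rw [XX, XX]
  congr 1
  refine Finset.sum_congr rfl fun j hj => ?_
  rw [Finset.mem_range] at hj
  rw [h j hj, QQ_congr m fun i hi => h i (hi.trans hj)]

/-- Deviation from the path in terms of the deviations of the phases. -/
theorem dev_QQ (m : ℕ → ℕ) {u : ℕ → ℂ} (hu : ∀ i, ‖u i‖ ≤ 1) (k : ℕ) :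
    ‖QQ m u k - 1‖ ≤ m k * ∑ i ∈ Finset.range k, ‖u i - 1‖ := by
  have h1 : ∀ k, ‖bb u k - 1‖ ≤ ∑ i ∈ Finset.range k, ‖u i - 1‖ := by
    intro k
    induction k with
    | zero => simp [bb]
    | succ k ih =>
      rw [bb_succ, Finset.sum_range_succ]
      have e : bb u k * ((1 + u k) / 2) - 1 = bb u k * ((u k - 1) / 2) + (bb u k - 1) := by ring
      rw [e]
      refine (norm_add_le _ _).trans ?_
      rw [norm_mul, norm_div, RCLike.norm_ofNat]
      have h2 : ‖bb u k‖ * (‖u k - 1‖ / 2) ≤ 1 * (‖u k - 1‖ / 2) := by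
        gcongr; exact norm_bb_le hu k
      have h3 := norm_nonneg (u k - 1)
      linarith
  exact (norm_pow_sub_one_le (norm_bb_le hu k) _).trans (by gcongr; exact h1 k)

theorem dev_XX (m : ℕ → ℕ) {u : ℕ → ℂ} (hu : ∀ i, ‖u i‖ ≤ 1) (k : ℕ)
    (ha : ∀ j < k, |P.ε| * ‖P.a j‖ ≤ 1) :
    ‖XX P m u k - V (P.x k)‖ ≤ (∑ j ∈ Finset.range k, (1 + (m j : ℝ))) * ∑ i ∈ Finset.range k, ‖u i - 1‖ := by
  induction k with
  | zero => simp [XX, PD.x]
  | succ k ih =>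
    have h1 := ih fun j hj => ha j (by omega)
    have h3 := dev_QQ m hu k
    set S := ∑ i ∈ Finset.range k, ‖u i - 1‖ with hS
    have hS0 : 0 ≤ S := Finset.sum_nonneg fun _ _ => norm_nonneg _
    rw [Finset.sum_range_succ, Finset.sum_range_succ]
    set T := ∑ j ∈ Finset.range k, (1 + (m j : ℝ)) with hT
    have hT0 : 0 ≤ T := Finset.sum_nonneg fun _ _ => by positivity
    have hn := norm_nonneg (u k - 1)
    have h5 : ‖u k * QQ m u k - 1‖ ≤ ‖u k - 1‖ + m k * S := by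
      have e : u k * QQ m u k - 1 = (u k - 1) + u k * (QQ m u k - 1) := by ring
      rw [e]
      refine (norm_add_le _ _).trans (add_le_add le_rfl ?_)
      rw [norm_mul]
      calc ‖u k‖ * ‖QQ m u k - 1‖ ≤ 1 * ‖QQ m u k - 1‖ := by gcongr; exact hu k
        _ ≤ _ := by rw [one_mul]; exact h3
    have e : XX P m u (k + 1) - V (P.x (k + 1)) =
        (XX P m u k - V (P.x k)) + ((P.ε : ℂ) * (u k * QQ m u k - 1)) • V (P.a k) := by
      rw [XX_succ, P.V_succ, mul_sub, sub_smul, mul_one, mul_assoc]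
      abel
    rw [e]
    refine (norm_add_le _ _).trans ?_
    rw [norm_smul, norm_mul, norm_V, Complex.norm_real, Real.norm_eq_abs]
    have h6 : |P.ε| * ‖u k * QQ m u k - 1‖ * ‖P.a k‖ ≤ ‖u k - 1‖ + m k * S := by
      calc _ = (|P.ε| * ‖P.a k‖) * ‖u k * QQ m u k - 1‖ := by ring
        _ ≤ 1 * (‖u k - 1‖ + m k * S) := by
          gcongr
          exact ha k (by omega)
        _ = _ := one_mul _
    have hm0 : (0 : ℝ) ≤ m k := Nat.cast_nonneg _
    nlinarith [mul_nonneg hT0 hn, mul_nonneg hm0 hn]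

/-- The variables of the cut-offs. -/
noncomputable def uu (α : ℕ → ℕ × ℕ) (z : ℂ × ℂ) (i : ℕ) : ℂ := lam (α i) z / (P.ε : ℂ)

/-- The corona data. -/
noncomputable def FF (m : ℕ → ℕ) (α : ℕ → ℕ × ℕ) (K : ℕ) (z : ℂ × ℂ) : EuclideanSpace ℂ (Fin 2) :=
  XX P m (uu P α z) (K + 1)

/-- Bound for the cut-offs on the ball. -/
noncomputable def GG (m : ℕ → ℕ) (K : ℕ) : ℝ := ∑ j ∈ Finset.range (K + 1), ((1 / P.ε) ^ j) ^ m j

theorem tail_bound {m : ℕ → ℕ} {α : ℕ → ℕ × ℕ} {K : ℕ} (hε : 0 < P.ε) (hε1 : P.ε ≤ 1)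
    (hα : ∀ i < K + 1, Pos (α i)) (ha : ∀ j ≤ K, ‖P.a j‖ ≤ 1) {ν : ℝ} {z : ℂ × ℂ}
    (hz : z ∈ Bc) (k : ℕ) (hk : k ≤ K + 1) (hs : ∀ j, k ≤ j → j ≤ K → ‖lam (α j) z‖ < ν) (hν : 0 ≤ ν) :
    ‖FF P m α K z - XX P m (uu P α z) k‖ ≤ (K + 1) * (ν * GG P m K) := by
  have e : FF P m α K z - XX P m (uu P α z) k = ∑ j ∈ Finset.Ico k (K + 1),
      ((P.ε : ℂ) * uu P α z j * QQ m (uu P α z) j) • V (P.a j) := by
    rw [FF, XX, XX, add_sub_add_left_eq_sub, Finset.sum_Ico_eq_sub _ hk]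
  rw [e]
  have hGnn : ∀ j, 0 ≤ ((1 / P.ε) ^ j) ^ m j := fun j => by positivity
  have hb : ∀ j ≤ K + 1, ‖bb (uu P α z) j‖ ≤ (1 / P.ε) ^ j := by
    intro j hj
    rw [bb, norm_prod]
    have : ∀ i ∈ Finset.range j, ‖(1 + uu P α z i) / 2‖ ≤ 1 / P.ε := by
      intro i hi
      rw [Finset.mem_range] at hi
      have h1 : ‖uu P α z i‖ ≤ 1 / P.ε := by
        rw [uu, norm_div, Complex.norm_real, Real.norm_eq_abs, abs_of_pos hε]
        gcongr
        exact norm_lam_le (hα i (by omega)) hz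
      have h2 : (1 : ℝ) ≤ 1 / P.ε := by
        rw [le_div_iff₀ hε]; linarith
      rw [norm_div, RCLike.norm_ofNat]
      have h3 := norm_add_le (1 : ℂ) (uu P α z i)
      rw [norm_one] at h3
      linarith
    calc _ ≤ ∏ i ∈ Finset.range j, (1 / P.ε) := Finset.prod_le_prod (fun _ _ => norm_nonneg _) this
      _ = _ := by rw [Finset.prod_const, Finset.card_range]
  calc _ ≤ ∑ j ∈ Finset.Ico k (K + 1), ‖((P.ε : ℂ) * uu P α z j * QQ m (uu P α z) j) • V (P.a j)‖ :=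
        norm_sum_le _ _
    _ ≤ ∑ j ∈ Finset.Ico k (K + 1), ν * GG P m K := by
        refine Finset.sum_le_sum fun j hj => ?_
        rw [Finset.mem_Ico] at hj
        have hjK : j ≤ K := by omega
        have e1 : (P.ε : ℂ) * uu P α z j = lam (α j) z := by
          rw [uu, mul_div_cancel₀]
          exact_mod_cast hε.ne'
        rw [norm_smul, norm_mul, norm_V, e1]
        have h1 : ‖QQ m (uu P α z) j‖ ≤ GG P m K := by
          rw [QQ, norm_pow]
          calc ‖bb (uu P α z) j‖ ^ m j ≤ ((1 / P.ε) ^ j) ^ m j := by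
                gcongr; exact hb j (by omega)
            _ ≤ _ := Finset.single_le_sum (f := fun j => ((1 / P.ε) ^ j) ^ m j) (fun j _ => hGnn j)
                (Finset.mem_range.2 (by omega))
        have hG0 : 0 ≤ GG P m K := (norm_nonneg _).trans h1
        calc ‖lam (α j) z‖ * ‖QQ m (uu P α z) j‖ * ‖P.a j‖ ≤ ν * GG P m K * 1 := by
              gcongr
              · exact (hs j hj.1 hjK).le
              · exact ha j hjK
          _ = _ := mul_one _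
    _ = ((K + 1 - k : ℕ) : ℝ) * (ν * GG P m K) := by
        rw [Finset.sum_const, Nat.card_Ico, nsmul_eq_mul]
    _ ≤ _ := by
        have hG0 : 0 ≤ GG P m K := Finset.sum_nonneg fun j _ => hGnn j
        gcongr
        have : ((K + 1 - k : ℕ) : ℝ) ≤ ((K + 1 : ℕ) : ℝ) := by exact_mod_cast Nat.sub_le _ _
        simpa using this

/-- Truncation of the variables. -/
noncomputable def trunc (u : ℕ → ℂ) (k i : ℕ) : ℂ := if i < k then u i else 0

theorem trunc_norm {u : ℕ → ℂ} {k : ℕ} (h : ∀ i < k, ‖u i‖ ≤ 1) (i : ℕ) : ‖trunc u k i‖ ≤ 1 := by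
  rw [trunc]
  split_ifs with hi
  · exact h i hi
  · simp

theorem trunc_eq (u : ℕ → ℂ) (k : ℕ) : ∀ i < k, u i = trunc u k i := fun i hi => by
  rw [trunc, if_pos hi]

/-- Bounds for the data on the ball. -/
theorem FF_bounds {k : KD} {η η₁ ν e R : ℝ} {K : ℕ} {m : ℕ → ℕ} {α : ℕ → ℕ × ℕ} {β : ℕ × ℕ}
    (hG : Good k P.ε η₁ ν e (K + 1) α β) (hη : 0 < η) (hε : 0 < P.ε) (hε1 : P.ε ≤ 1)
    (ha : ∀ j ≤ K, ‖P.a j‖ ≤ 1)
    (hR : ∀ j ≤ K, ‖P.x j‖ ≤ R) (hK : ((K : ℝ) + 1) * P.ε ≤ 2)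
    (hm : ∀ u : ℕ → ℂ, (∀ i, ‖u i‖ ≤ 1) → ∀ k ≤ K,
      ‖QQ m u k‖ ≤ η ∨ ‖XX P m u k - V (P.x k)‖ ≤ η)
    (hν : 0 < ν) (hνη : (K + 1) * (ν * GG P m K) ≤ η) {A₀ : ℝ} (hA₀ : ∀ j ≤ K, ‖P.a j‖ ≤ A₀)
    {z : ℂ × ℂ} (hz : z ∈ Bc) :
    ‖P.x0‖ - P.ε - 5 * η ≤ ‖FF P m α K z‖ ∧ ‖FF P m α K z‖ ≤ R + P.ε + 5 * η + A₀ := by
  have hA0' : 0 ≤ A₀ := (norm_nonneg _).trans (hA₀ 0 (Nat.zero_le _))
  rcases (Finset.filter (fun j => ν ≤ ‖lam (α j) z‖) (Finset.range (K + 1))).eq_empty_or_nonempty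
    with hS | hS
  · have hs : ∀ j, 0 ≤ j → j ≤ K → ‖lam (α j) z‖ < ν := by
      intro j _ hj
      by_contra hcon
      push Not at hcon
      have : j ∈ Finset.filter (fun j => ν ≤ ‖lam (α j) z‖) (Finset.range (K + 1)) :=
        Finset.mem_filter.2 ⟨Finset.mem_range.2 (by omega), hcon⟩
      rw [hS] at this
      exact absurd this (Finset.notMem_empty _)
    have h := tail_bound P (m := m) hε hε1 hG.pos ha hz 0 (Nat.zero_le _) hs hν.le
    rw [XX_zero] at h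
    have h1 := norm_sub_norm_le (V P.x0) (FF P m α K z)
    have h2 := norm_sub_norm_le (FF P m α K z) (V P.x0)
    rw [norm_sub_rev, norm_V] at h1
    rw [norm_V] at h2
    have h3 : ‖P.x0‖ ≤ R := by
      have := hR 0 (Nat.zero_le _)
      rwa [PD.x, pow_zero, mul_one] at this
    constructor <;> linarith
  · set kk := (Finset.filter (fun j => ν ≤ ‖lam (α j) z‖) (Finset.range (K + 1))).max' hS with hkk
    have hmem := Finset.max'_mem _ hS
    rw [← hkk, Finset.mem_filter, Finset.mem_range] at hmem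
    obtain ⟨hkK, hkν⟩ := hmem
    have hs : ∀ j, kk + 1 ≤ j → j ≤ K → ‖lam (α j) z‖ < ν := by
      intro j hj1 hj
      by_contra hcon
      push Not at hcon
      have : j ∈ Finset.filter (fun j => ν ≤ ‖lam (α j) z‖) (Finset.range (K + 1)) :=
        Finset.mem_filter.2 ⟨Finset.mem_range.2 (by omega), hcon⟩
      have := Finset.le_max' _ _ this
      omega
    have h := tail_bound P (m := m) hε hε1 hG.pos ha hz (kk + 1) (by omega) hs hν.le
    have hu1 : ∀ i < kk, ‖uu P α z i‖ ≤ 1 := by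
      intro i hi
      have := (hG.loc kk hkK z hz hkν i hi).2
      rw [uu, norm_div, Complex.norm_real, Real.norm_eq_abs, abs_of_pos hε, div_le_one hε]
      exact this.le
    set v := trunc (uu P α z) kk with hv
    have hvu := trunc_eq (uu P α z) kk
    rw [← hv] at hvu
    have hv1 : ∀ i, ‖v i‖ ≤ 1 := trunc_norm hu1
    have e1 : (P.ε : ℂ) * uu P α z kk = lam (α kk) z := by
      rw [uu, mul_div_cancel₀]
      exact_mod_cast hε.ne'
    rw [XX_succ, e1, XX_congr P m hvu, QQ_congr m hvu] at h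
    obtain ⟨b1, b2⟩ := shell P hη hε ha hR hK hm hv1 (norm_lam_le (hG.pos kk hkK) hz) (show kk ≤ K by omega)
    set Y := XX P m v kk + (lam (α kk) z * QQ m v kk) • V (P.a kk) with hY
    have h1 := norm_sub_norm_le Y (FF P m α K z)
    have h2 := norm_sub_norm_le (FF P m α K z) Y
    rw [norm_sub_rev] at h1
    have h3 := hA₀ kk (by omega)
    constructor <;> linarith

/-- The data on the tori. -/
theorem FF_torus {k : KD} {η η₁ ν e : ℝ} {K : ℕ} {m : ℕ → ℕ} {α : ℕ → ℕ × ℕ} {β : ℕ × ℕ}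
    (hG : Good k P.ε η₁ ν e (K + 1) α β) (hε : 0 < P.ε) (hε1 : P.ε ≤ 1)
    (ha : ∀ j ≤ K, ‖P.a j‖ ≤ 1) (hη₁ : 0 < η₁)
    (hν : 0 < ν) (hν1 : ν ≤ 1) (hνη : (K + 1) * (ν * GG P m K) ≤ η) {j : ℕ} (hj : j ≤ K) (θ : ℝ × ℝ) :
    ‖FF P m α K (Z (sr (α j)) θ) - (V (P.x j) + chi (zc (α j)) θ • V (P.a j))‖ ≤
      (∑ i ∈ Finset.range (K + 1), (1 + (m i : ℝ))) *
        ∑ i ∈ Finset.range j, (‖chi (zc (α i)) θ - 1‖ + η₁) + η := by
  have hP := hG.pos j (by omega)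
  set z := Z (sr (α j)) θ with hz
  have hzB : z ∈ Bc := Z_mem (sr_sphere hP).le θ
  have hlam : lam (α j) z = chi (zc (α j)) θ := lam_Z_sr hP θ
  have hlam1 : ‖lam (α j) z‖ = 1 := by rw [hlam, norm_chi]
  have hs : ∀ i, j + 1 ≤ i → i ≤ K → ‖lam (α i) z‖ < ν := by
    intro i hi1 hi
    by_contra hcon
    push Not at hcon
    have := (hG.loc i (by omega) z hzB hcon j (by omega)).2
    rw [hlam1] at this
    linarith
  have h := tail_bound P (m := m) hε hε1 hG.pos ha hzB (j + 1) (by omega) hs hν.le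
  have hloc : ∀ i < j, P.ε * (1 - η₁) < ‖lam (α i) z‖ ∧ ‖lam (α i) z‖ < P.ε :=
    hG.loc j (by omega) z hzB (by rw [hlam1]; exact hν1)
  have hu1 : ∀ i < j, ‖uu P α z i‖ ≤ 1 := by
    intro i hi
    rw [uu, norm_div, Complex.norm_real, Real.norm_eq_abs, abs_of_pos hε, div_le_one hε]
    exact (hloc i hi).2.le
  have hdev : ∀ i < j, ‖uu P α z i - 1‖ ≤ ‖chi (zc (α i)) θ - 1‖ + η₁ := by
    intro i hi
    have h1 := hloc i hi
    have h2 : lam (α i) z = ((rat (α i) (sr (α j)) : ℝ) : ℂ) * chi (zc (α i)) θ := lam_Z _ _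
    have hr0 : 0 ≤ rat (α i) (sr (α j)) := rat_nonneg _ (sr_pos1 hP).le (sr_pos2 hP).le
    have h3 : ‖lam (α i) z‖ = rat (α i) (sr (α j)) := by
      rw [h2, norm_mul, norm_chi, mul_one, Complex.norm_real, Real.norm_eq_abs, abs_of_nonneg hr0]
    rw [h3] at h1
    have e : uu P α z i - 1 = (((rat (α i) (sr (α j)) / P.ε - 1 : ℝ)) : ℂ) * chi (zc (α i)) θ +
        (chi (zc (α i)) θ - 1) := by
      rw [uu, h2]; push_cast; ring
    rw [e]
    refine (norm_add_le _ _).trans ?_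
    rw [norm_mul, norm_chi, mul_one, Complex.norm_real, Real.norm_eq_abs, add_comm]
    gcongr
    rw [abs_le]
    constructor
    · have : 1 - η₁ ≤ rat (α i) (sr (α j)) / P.ε := by
        rw [le_div_iff₀ hε]; linarith [h1.1]
      linarith
    · have : rat (α i) (sr (α j)) / P.ε ≤ 1 := by
        rw [div_le_one hε]; exact h1.2.le
      linarith
  set v := trunc (uu P α z) j with hv
  have hvu := trunc_eq (uu P α z) j
  rw [← hv] at hvu
  have hv1 : ∀ i, ‖v i‖ ≤ 1 := trunc_norm hu1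
  have e1 : (P.ε : ℂ) * uu P α z j = chi (zc (α j)) θ := by
    rw [uu, mul_div_cancel₀, hlam]
    exact_mod_cast hε.ne'
  rw [XX_succ, e1, XX_congr P m hvu, QQ_congr m hvu] at h
  have haj : ∀ i < j, |P.ε| * ‖P.a i‖ ≤ 1 := fun i hi => by
    rw [abs_of_pos hε]
    calc P.ε * ‖P.a i‖ ≤ 1 * 1 := by
          gcongr
          exact ha i (by omega)
      _ = 1 := one_mul _
  have d1 := dev_XX P m hv1 j haj
  have d2 := dev_QQ m hv1 j
  have hSle : ∑ i ∈ Finset.range j, ‖v i - 1‖ ≤ ∑ i ∈ Finset.range j, (‖chi (zc (α i)) θ - 1‖ + η₁) := by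
    refine Finset.sum_le_sum fun i hi => ?_
    rw [Finset.mem_range] at hi
    rw [← hvu i hi]
    exact hdev i hi
  set S := ∑ i ∈ Finset.range j, (‖chi (zc (α i)) θ - 1‖ + η₁) with hS
  have hS0 : 0 ≤ S := Finset.sum_nonneg fun _ _ => by positivity
  have hC : (∑ i ∈ Finset.range j, (1 + (m i : ℝ))) + (1 + (m j : ℝ)) ≤
      ∑ i ∈ Finset.range (K + 1), (1 + (m i : ℝ)) := by
    rw [← Finset.sum_range_succ (fun i => (1 + (m i : ℝ)))]
    refine Finset.sum_le_sum_of_subset_of_nonneg ?_ fun _ _ _ => by positivity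
    intro i hi
    rw [Finset.mem_range] at hi ⊢
    omega
  have e2 : FF P m α K z - (V (P.x j) + chi (zc (α j)) θ • V (P.a j)) =
      (FF P m α K z - (XX P m v j + (chi (zc (α j)) θ * QQ m v j) • V (P.a j))) +
      (XX P m v j - V (P.x j)) + (chi (zc (α j)) θ * (QQ m v j - 1)) • V (P.a j) := by
    rw [mul_sub, sub_smul, mul_one]; abel
  rw [e2]
  refine (norm_add_le _ _).trans ((add_le_add_left (norm_add_le _ _) _).trans ?_)
  rw [norm_smul, norm_mul, norm_chi, one_mul, norm_V]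
  have t1 : (∑ i ∈ Finset.range j, (1 + (m i : ℝ))) * ∑ i ∈ Finset.range j, ‖v i - 1‖ ≤
      (∑ i ∈ Finset.range j, (1 + (m i : ℝ))) * S :=
    mul_le_mul_of_nonneg_left hSle (Finset.sum_nonneg fun _ _ => by positivity)
  have t2 : (m j : ℝ) * ∑ i ∈ Finset.range j, ‖v i - 1‖ ≤ (m j : ℝ) * S :=
    mul_le_mul_of_nonneg_left hSle (Nat.cast_nonneg _)
  have t3 : ‖QQ m v j - 1‖ * ‖P.a j‖ ≤ (m j : ℝ) * S * 1 := by
    gcongr
    · exact d2.trans t2
    · exact ha j hj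
  have t4 := mul_le_mul_of_nonneg_right hC hS0
  nlinarith

end Pool.Agent.Lib.MP_ca0fc2_an.Cubic
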