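import Pool.Agent.Lib.MP_ca0fc2_an.CubTP

/-!
Positive kernels, and the relation between the averages over consecutive tori.
-/

open MeasureTheory Complex Set Filter Topology

namespace Pool.Agent.Lib.MP_ca0fc2_an.Cubic

theorem fejer_id (x : ℝ) (N : ℕ) :
    ((N : ℝ) + 1) + 2 * ∑ n ∈ Finset.range N, ((N : ℝ) - n) * Real.cos ((n + 1 : ℕ) * x) =
      Complex.normSq (∑ j ∈ Finset.range (N + 1), exp ((j * x : ℝ) * I)) := by
  induction N with
  | zero => simp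
  | succ N ih =>
    rw [Finset.sum_range_succ (fun j : ℕ => exp ((j * x : ℝ) * I)), Complex.normSq_add, ← ih]
    have h1 : Complex.normSq (exp (((N + 1 : ℕ) * x : ℝ) * I)) = 1 := by
      rw [Complex.normSq_eq_norm_sq, Complex.norm_exp_ofReal_mul_I, one_pow]
    have h2 : ((∑ j ∈ Finset.range (N + 1), exp ((j * x : ℝ) * I)) *
        (starRingEnd ℂ) (exp (((N + 1 : ℕ) * x : ℝ) * I))).re =
        ∑ n ∈ Finset.range (N + 1), Real.cos ((n + 1 : ℕ) * x) := by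
      rw [Finset.sum_mul, Complex.re_sum]
      rw [← Finset.sum_range_reflect (fun n : ℕ => Real.cos ((n + 1 : ℕ) * x))]
      refine Finset.sum_congr rfl fun j hj => ?_
      rw [Finset.mem_range] at hj
      rw [← Complex.exp_conj, ← Complex.exp_add]
      have h3 : ((j * x : ℝ) : ℂ) * I + (starRingEnd ℂ) ((((N + 1 : ℕ) * x : ℝ) : ℂ) * I) =
          ((-(((N + 1 - 1 - j + 1 : ℕ) : ℝ) * x) : ℝ) : ℂ) * I := by
        have h4 : ((N + 1 - 1 - j + 1 : ℕ) : ℝ) = (N : ℝ) + 1 - j := by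
          have : N + 1 - 1 - j + 1 + j = N + 1 := by omega
          have := congrArg (Nat.cast : ℕ → ℝ) this
          push_cast at this ⊢
          linarith
        rw [h4, map_mul, Complex.conj_I, Complex.conj_ofReal]
        push_cast; ring
      rw [h3, Complex.exp_ofReal_mul_I_re, Real.cos_neg]
    rw [h1, h2, Finset.sum_range_succ (fun n : ℕ => Real.cos ((n + 1 : ℕ) * x)),
      Finset.sum_range_succ (fun n : ℕ => (((N + 1 : ℕ) : ℝ) - n) * Real.cos ((n + 1 : ℕ) * x))]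
    have h5 : ∑ n ∈ Finset.range N, (((N + 1 : ℕ) : ℝ) - n) * Real.cos ((n + 1 : ℕ) * x) =
        ∑ n ∈ Finset.range N, ((N : ℝ) - n) * Real.cos ((n + 1 : ℕ) * x) +
        ∑ n ∈ Finset.range N, Real.cos ((n + 1 : ℕ) * x) := by
      rw [← Finset.sum_add_distrib]
      refine Finset.sum_congr rfl fun n _ => ?_
      push_cast; ring
    rw [h5]
    push_cast
    ring

/-- Existence of positive kernels with first coefficient close to 1. -/
theorem kernel_exists {η : ℝ} (hη : 0 < η) : ∃ (N : ℕ) (κ : ℕ → ℝ), 1 ≤ N ∧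
    (∀ n ∈ Finset.range N, 0 ≤ κ n ∧ κ n ≤ 1) ∧ 1 - η ≤ κ 0 ∧
    ∀ x : ℝ, 0 ≤ 1 + 2 * ∑ n ∈ Finset.range N, κ n * Real.cos ((n + 1 : ℕ) * x) := by
  obtain ⟨M, hM⟩ := exists_nat_gt (1 / η)
  refine ⟨M + 1, fun n => (((M + 1 : ℕ) : ℝ) - n) / (M + 2), by omega, ?_, ?_, ?_⟩
  · intro n hn
    rw [Finset.mem_range] at hn
    have h2 : (n : ℝ) ≤ ((M + 1 : ℕ) : ℝ) := by exact_mod_cast hn.le
    have h3 : (0 : ℝ) ≤ n := n.cast_nonneg
    constructor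
    · apply div_nonneg
      · linarith
      · positivity
    · rw [div_le_one (by positivity)]; push_cast; linarith
  · have h1 : 1 / (M + 2 : ℝ) ≤ η := by
      rw [div_le_iff₀ (by positivity)]
      rw [div_lt_iff₀ hη] at hM
      nlinarith
    have : (((M + 1 : ℕ) : ℝ) - ((0 : ℕ) : ℝ)) / (M + 2) = 1 - 1 / (M + 2) := by
      push_cast; field_simp; ring
    simp only
    rw [this]; linarith
  · intro x
    have h := fejer_id x (M + 1)
    have h0 := Complex.normSq_nonneg (∑ j ∈ Finset.range (M + 1 + 1), exp ((j * x : ℝ) * I))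
    rw [← h] at h0
    have e : 1 + 2 * ∑ n ∈ Finset.range (M + 1), (((M + 1 : ℕ) : ℝ) - n) / (M + 2) *
        Real.cos ((n + 1 : ℕ) * x) =
        ((((M + 1 : ℕ) : ℝ) + 1) + 2 * ∑ n ∈ Finset.range (M + 1), (((M + 1 : ℕ) : ℝ) - n) *
          Real.cos ((n + 1 : ℕ) * x)) / (M + 2) := by
      rw [add_div, mul_div_assoc, Finset.sum_div]
      congr 1
      · push_cast; field_simp; ring
      · congr 1
        refine Finset.sum_congr rfl fun n _ => ?_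
        ring
    rw [e]
    exact div_nonneg h0 (by positivity)

/-- Data of a kernel. -/
structure KD where
  N : ℕ
  κ : ℕ → ℝ
  hN : 1 ≤ N
  h01 : ∀ n ∈ Finset.range N, 0 ≤ κ n ∧ κ n ≤ 1
  nonneg : ∀ x : ℝ, 0 ≤ 1 + 2 * ∑ n ∈ Finset.range N, κ n * Real.cos ((n + 1 : ℕ) * x)

variable (k : KD)

/-- The kernel in the direction α. -/
noncomputable def Kr (α : ℤ × ℤ) (θ : ℝ × ℝ) : ℝ :=
  1 + 2 * ∑ n ∈ Finset.range k.N, k.κ n * (chi (((n + 1 : ℕ) : ℤ) • α) θ).re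

noncomputable def Rr (ε l : ℝ) (α : ℤ × ℤ) (θ : ℝ × ℝ) : ℝ :=
  1 - (1 - ε) / ε * ∑ n ∈ Finset.range k.N, k.κ n * l ^ (n + 1) * (chi (((n + 1 : ℕ) : ℤ) • α) θ).re

theorem chi_re (γ : ℤ × ℤ) (θ : ℝ × ℝ) :
    ((chi γ θ).re : ℂ) = (chi γ θ + chi (-γ) θ) / 2 := by
  rw [chi_neg, Complex.add_conj]; push_cast; ring

theorem chi_re_smul (n : ℕ) (α : ℤ × ℤ) (θ : ℝ × ℝ) :
    (chi (((n + 1 : ℕ) : ℤ) • α) θ).re = Real.cos ((n + 1 : ℕ) * (α.1 * θ.1 + α.2 * θ.2)) := by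
  rw [chi]
  have : ((((((n + 1 : ℕ) : ℤ) • α).1 : ℤ) : ℂ) * θ.1 + (((((n + 1 : ℕ) : ℤ) • α).2 : ℤ) : ℂ) * θ.2) * I =
      (((n + 1 : ℕ) * (α.1 * θ.1 + α.2 * θ.2) : ℝ) : ℂ) * I := by
    simp only [Prod.smul_fst, Prod.smul_snd, smul_eq_mul]
    push_cast; ring
  rw [this, Complex.exp_ofReal_mul_I_re]

theorem Kr_nonneg (α : ℤ × ℤ) (θ : ℝ × ℝ) : 0 ≤ Kr k α θ := by
  rw [Kr]
  simp only [chi_re_smul]
  exact k.nonneg _

theorem Rr_bound {ε l : ℝ} (hε : 0 < ε) (hε1 : ε < 1) (hl : 0 ≤ l) (hlε : l ≤ ε) (α : ℤ × ℤ)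
    (θ : ℝ × ℝ) : 0 ≤ Rr k ε l α θ ∧ Rr k ε l α θ ≤ 2 := by
  have hl1 : l < 1 := lt_of_le_of_lt hlε hε1
  have h1 : |∑ n ∈ Finset.range k.N, k.κ n * l ^ (n + 1) * (chi (((n + 1 : ℕ) : ℤ) • α) θ).re| ≤
      ε / (1 - ε) := by
    calc _ ≤ ∑ n ∈ Finset.range k.N, |k.κ n * l ^ (n + 1) * (chi (((n + 1 : ℕ) : ℤ) • α) θ).re| :=
          Finset.abs_sum_le_sum_abs _ _
      _ ≤ ∑ n ∈ Finset.range k.N, l ^ (n + 1) := by
          refine Finset.sum_le_sum fun n hn => ?_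
          have h01 := k.h01 n hn
          rw [abs_mul, abs_mul, abs_of_nonneg h01.1, abs_of_nonneg (pow_nonneg hl _)]
          have h2 : |(chi (((n + 1 : ℕ) : ℤ) • α) θ).re| ≤ 1 := by
            rw [chi_re_smul]; exact Real.abs_cos_le_one _
          have h3 : 0 ≤ l ^ (n + 1) := pow_nonneg hl _
          calc k.κ n * l ^ (n + 1) * |(chi (((n + 1 : ℕ) : ℤ) • α) θ).re| ≤ 1 * l ^ (n + 1) * 1 := by
                gcongr
                exact h01.2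
            _ = l ^ (n + 1) := by ring
      _ = l * ∑ n ∈ Finset.range k.N, l ^ n := by
          rw [Finset.mul_sum]
          exact Finset.sum_congr rfl fun n _ => by ring
      _ ≤ l * (1 - l)⁻¹ := by
          gcongr
          rw [← tsum_geometric_of_lt_one hl hl1]
          exact (summable_geometric_of_lt_one hl hl1).sum_le_tsum _ fun n _ => pow_nonneg hl n
      _ ≤ ε / (1 - ε) := by
          rw [div_eq_mul_inv]
          gcongr
  have h2 : (1 - ε) / ε * (ε / (1 - ε)) = 1 := by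
    field_simp
    rw [div_self (by linarith)]
  have h3 : 0 < (1 - ε) / ε := div_pos (by linarith) hε
  rw [abs_le] at h1
  rw [Rr]
  constructor
  · have := mul_le_mul_of_nonneg_left h1.2 h3.le
    linarith
  · have := mul_le_mul_of_nonneg_left h1.1 h3.le
    linarith

theorem Kr_eq (α : ℤ × ℤ) (θ : ℝ × ℝ) : (Kr k α θ : ℂ) =
    1 + ∑ n ∈ Finset.range k.N, (k.κ n : ℂ) * (chi (((n + 1 : ℕ) : ℤ) • α) θ + chi (-(((n + 1 : ℕ) : ℤ) • α)) θ) := by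
  rw [Kr]
  push_cast
  congr 1
  rw [Finset.mul_sum]
  refine Finset.sum_congr rfl fun n _ => ?_
  have := chi_re (((n + 1 : ℕ) : ℤ) • α) θ
  push_cast at this
  rw [this]; ring

theorem Rr_eq (ε l : ℝ) (α : ℤ × ℤ) (θ : ℝ × ℝ) : (Rr k ε l α θ : ℂ) =
    1 - ((1 - ε) / (2 * ε) : ℝ) * ∑ n ∈ Finset.range k.N, ((k.κ n * l ^ (n + 1) : ℝ) : ℂ) *
      (chi (((n + 1 : ℕ) : ℤ) • α) θ + chi (-(((n + 1 : ℕ) : ℤ) • α)) θ) := by
  rw [Rr]
  push_cast
  congr 1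
  rw [Finset.mul_sum, Finset.mul_sum]
  refine Finset.sum_congr rfl fun n _ => ?_
  have := chi_re (((n + 1 : ℕ) : ℤ) • α) θ
  push_cast at this
  rw [this]; ring

theorem Kr_mem (α : ℤ × ℤ) : (fun θ => (Kr k α θ : ℂ)) ∈ TP := by
  have e : (fun θ => (Kr k α θ : ℂ)) = (fun _ => 1) + ∑ n ∈ Finset.range k.N, (k.κ n : ℂ) •
      (chi (((n + 1 : ℕ) : ℤ) • α) + chi (-(((n + 1 : ℕ) : ℤ) • α))) := by
    ext θ
    rw [Kr_eq]
    simp only [Pi.add_apply, Finset.sum_apply, Pi.smul_apply, smul_eq_mul]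
  rw [e]
  exact TP.add_mem one_mem (TP.sum_mem fun n _ => TP.smul_mem _ (TP.add_mem (chi_mem _) (chi_mem _)))

theorem Rr_mem (ε l : ℝ) (α : ℤ × ℤ) : (fun θ => (Rr k ε l α θ : ℂ)) ∈ TP := by
  have e : (fun θ => (Rr k ε l α θ : ℂ)) = (fun _ => 1) - (((1 - ε) / (2 * ε) : ℝ) : ℂ) •
      ∑ n ∈ Finset.range k.N, ((k.κ n * l ^ (n + 1) : ℝ) : ℂ) •
      (chi (((n + 1 : ℕ) : ℤ) • α) + chi (-(((n + 1 : ℕ) : ℤ) • α))) := by
    ext θ
    rw [Rr_eq]
    simp only [Pi.add_apply, Pi.sub_apply, Finset.sum_apply, Pi.smul_apply, smul_eq_mul]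
  rw [e]
  exact TP.sub_mem one_mem (TP.smul_mem _ (TP.sum_mem fun n _ => TP.smul_mem _
    (TP.add_mem (chi_mem _) (chi_mem _))))

/-- Average against the kernel of a general continuous function. -/
theorem Av_Kr {g : ℝ × ℝ → ℂ} (hg : Continuous g) (α : ℤ × ℤ) :
    Av (fun θ => g θ * (Kr k α θ : ℂ)) = Av g + ∑ n ∈ Finset.range k.N, (k.κ n : ℂ) *
      (Av (fun θ => g θ * chi (((n + 1 : ℕ) : ℤ) • α) θ) +
        Av (fun θ => g θ * chi (-(((n + 1 : ℕ) : ℤ) • α)) θ)) := by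
  have e : (fun θ => g θ * (Kr k α θ : ℂ)) = fun θ => g θ + ∑ n ∈ Finset.range k.N, (k.κ n : ℂ) *
      (g θ * chi (((n + 1 : ℕ) : ℤ) • α) θ + g θ * chi (-(((n + 1 : ℕ) : ℤ) • α)) θ) := by
    ext θ
    rw [Kr_eq, mul_add, mul_one, Finset.mul_sum]
    congr 1
    exact Finset.sum_congr rfl fun n _ => by ring
  have hc : ∀ γ, Continuous fun θ => g θ * chi γ θ := fun γ => cm hg (continuous_chi γ)
  have hc2 : ∀ n : ℕ, Continuous fun θ => (k.κ n : ℂ) *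
      (g θ * chi (((n + 1 : ℕ) : ℤ) • α) θ + g θ * chi (-(((n + 1 : ℕ) : ℤ) • α)) θ) := fun n =>
    continuous_const.mul ((hc _).add (hc _))
  rw [e, Av_add hg (continuous_finsetSum _ fun n _ => hc2 n), Av_sum _ fun n _ => hc2 n]
  congr 1
  refine Finset.sum_congr rfl fun n _ => ?_
  rw [Av_const_mul, Av_add (hc _) (hc _)]

theorem Av_Rr {g : ℝ × ℝ → ℂ} (hg : Continuous g) (ε l : ℝ) (α : ℤ × ℤ) :
    Av (fun θ => g θ * (Rr k ε l α θ : ℂ)) = Av g - (((1 - ε) / (2 * ε) : ℝ) : ℂ) *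
      ∑ n ∈ Finset.range k.N, ((k.κ n * l ^ (n + 1) : ℝ) : ℂ) *
      (Av (fun θ => g θ * chi (((n + 1 : ℕ) : ℤ) • α) θ) +
        Av (fun θ => g θ * chi (-(((n + 1 : ℕ) : ℤ) • α)) θ)) := by
  have e : (fun θ => g θ * (Rr k ε l α θ : ℂ)) = fun θ => g θ - (((1 - ε) / (2 * ε) : ℝ) : ℂ) *
      ∑ n ∈ Finset.range k.N, ((k.κ n * l ^ (n + 1) : ℝ) : ℂ) *
      (g θ * chi (((n + 1 : ℕ) : ℤ) • α) θ + g θ * chi (-(((n + 1 : ℕ) : ℤ) • α)) θ) := by
    ext θ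
    rw [Rr_eq, mul_sub, mul_one, Finset.mul_sum, Finset.mul_sum, Finset.mul_sum]
    congr 1
    exact Finset.sum_congr rfl fun n _ => by ring
  have hc : ∀ γ, Continuous fun θ => g θ * chi γ θ := fun γ => cm hg (continuous_chi γ)
  have hc2 : ∀ n : ℕ, Continuous fun θ => ((k.κ n * l ^ (n + 1) : ℝ) : ℂ) *
      (g θ * chi (((n + 1 : ℕ) : ℤ) • α) θ + g θ * chi (-(((n + 1 : ℕ) : ℤ) • α)) θ) := fun n =>
    continuous_const.mul ((hc _).add (hc _))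
  have hc3 := continuous_finsetSum (Finset.range k.N) fun n _ => hc2 n
  rw [e, Av_sub hg (cm continuous_const hc3), Av_const_mul, Av_sum _ fun n _ => hc2 n]
  congr 2
  refine Finset.sum_congr rfl fun n _ => ?_
  rw [Av_const_mul, Av_add (hc _) (hc _)]

/-- The relation between consecutive tori. -/
theorem level_rel {ε : ℝ} (hε : 0 < ε) (hε1 : ε ≤ 1 / 2) {s t : ℝ × ℝ} (hs1 : 0 < s.1) (hs2 : 0 < s.2)
    (hs : s.1 ^ 2 + s.2 ^ 2 ≤ 1) (ht1 : 0 < t.1) (ht2 : 0 < t.2) (ht : t.1 ^ 2 + t.2 ^ 2 ≤ 1)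
    {p : ℝ × ℝ → ℂ} (hp : p ∈ TP) {α : ℕ × ℕ} {e G : ℝ}
    (hl : mono t (zc α) / mono s (zc α) ≤ ε)
    (hgap : ∀ n : ℕ, 1 ≤ n → ∀ s : ℝ × ℝ, 0 < s.1 → s.1 ^ 2 + s.2 ^ 2 ≤ 1 → ∀ h : ℂ × ℂ → ℂ, HolN h →
      Av (fun θ => h (Z s θ) * (p θ * chi ((n : ℤ) • zc α) θ)) = 0)
    (hcore : ∀ β : ℤ × ℤ, ∀ A : ℝ, ∀ h : ℂ × ℂ → ℂ,
      HolN h → (∀ z ∈ Bc, ‖h z‖ ≤ A) →
      ‖Av (fun θ => h (Z t θ) * (p θ * chi (-β) θ)) -
        ((mono t β / mono s β : ℝ) : ℂ) * Av (fun θ => h (Z s θ) * (p θ * chi (-β) θ))‖ ≤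
        mono t β / mono s β * (A * e))
    {g : ℂ × ℂ → ℂ} (hg : HolN g) (hG : ∀ z ∈ Bc, ‖g z‖ ≤ G) (he : 0 ≤ e) :
    ‖Av (fun θ => g (Z s θ) * p θ) -
      (((1 - ε) / (1 + ε) : ℝ) : ℂ) * Av (fun θ => g (Z t θ) * (p θ * (Kr k (zc α) θ : ℂ))) -
      ((2 * ε / (1 + ε) : ℝ) : ℂ) * Av (fun θ => g (Z s θ) * (p θ *
        (Rr k ε (mono t (zc α) / mono s (zc α)) (zc α) θ : ℂ)))‖ ≤ 2 * (G * e) := by
  set l := mono t (zc α) / mono s (zc α) with hldef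
  have hl0 : 0 < l := div_pos (mono_pos ht1 ht2 _) (mono_pos hs1 hs2 _)
  have hG0 : 0 ≤ G := (norm_nonneg _).trans (hG _ (Z_mem hs 0))
  have cp := TP_continuous hp
  have cgs := hg.continuous_comp hs
  have cgt := hg.continuous_comp ht
  have e1 : (fun θ => g (Z t θ) * (p θ * (Kr k (zc α) θ : ℂ))) =
      fun θ => (g (Z t θ) * p θ) * (Kr k (zc α) θ : ℂ) := by ext θ; ring
  have e2 : (fun θ => g (Z s θ) * (p θ * (Rr k ε l (zc α) θ : ℂ))) =
      fun θ => (g (Z s θ) * p θ) * (Rr k ε l (zc α) θ : ℂ) := by ext θ; ring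
  rw [e1, e2, Av_Kr k (cm cgt cp), Av_Rr k (cm cgs cp)]
  have z1 : ∀ r : ℝ × ℝ, 0 < r.1 → r.1 ^ 2 + r.2 ^ 2 ≤ 1 → ∀ n : ℕ,
      Av (fun θ => g (Z r θ) * p θ * chi (((n + 1 : ℕ) : ℤ) • zc α) θ) = 0 := by
    intro r hr1 hr n
    have := hgap (n + 1) (by omega) r hr1 hr g hg
    rw [← this]
    congr 1; ext θ; ring
  simp only [z1 t ht1 ht, z1 s hs1 hs, zero_add]
  set a : (ℝ × ℝ) → ℕ → ℂ := fun r n => Av (fun θ => g (Z r θ) * p θ * chi (-(((n + 1 : ℕ) : ℤ) • zc α)) θ) with ha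
  have h0 : ‖Av (fun θ => g (Z t θ) * p θ) - Av (fun θ => g (Z s θ) * p θ)‖ ≤ G * e := by
    have := hcore 0 G g hg hG
    simp only [neg_zero, chi_zero, mul_one] at this
    have m1 : ∀ r : ℝ × ℝ, mono r 0 = 1 := fun r => by simp [mono]
    rw [m1, m1] at this
    simpa using this
  have hn : ∀ n : ℕ, ‖a t n - ((l ^ (n + 1) : ℝ) : ℂ) * a s n‖ ≤ l ^ (n + 1) * (G * e) := by
    intro n
    have := hcore (((n + 1 : ℕ) : ℤ) • zc α) G g hg hG
    rw [mono_smul, mono_smul, ← div_pow, ← hldef] at this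
    have e3 : ∀ r : ℝ × ℝ, (fun θ => g (Z r θ) * (p θ * chi (-(((n + 1 : ℕ) : ℤ) • zc α)) θ)) =
        fun θ => g (Z r θ) * p θ * chi (-(((n + 1 : ℕ) : ℤ) • zc α)) θ := by
      intro r; ext θ; ring
    rw [e3, e3] at this
    exact this
  have key : Av (fun θ => g (Z s θ) * p θ) - (((1 - ε) / (1 + ε) : ℝ) : ℂ) *
      (Av (fun θ => g (Z t θ) * p θ) + ∑ n ∈ Finset.range k.N, (k.κ n : ℂ) * a t n) -
      ((2 * ε / (1 + ε) : ℝ) : ℂ) * (Av (fun θ => g (Z s θ) * p θ) - (((1 - ε) / (2 * ε) : ℝ) : ℂ) *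
        ∑ n ∈ Finset.range k.N, ((k.κ n * l ^ (n + 1) : ℝ) : ℂ) * a s n) =
      -((((1 - ε) / (1 + ε) : ℝ) : ℂ) * ((Av (fun θ => g (Z t θ) * p θ) - Av (fun θ => g (Z s θ) * p θ)) +
        ∑ n ∈ Finset.range k.N, (k.κ n : ℂ) * (a t n - ((l ^ (n + 1) : ℝ) : ℂ) * a s n))) := by
    have e4 : ∑ n ∈ Finset.range k.N, (k.κ n : ℂ) * (a t n - ((l ^ (n + 1) : ℝ) : ℂ) * a s n) =
        ∑ n ∈ Finset.range k.N, (k.κ n : ℂ) * a t n -
        ∑ n ∈ Finset.range k.N, ((k.κ n * l ^ (n + 1) : ℝ) : ℂ) * a s n := by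
      rw [← Finset.sum_sub_distrib]
      refine Finset.sum_congr rfl fun n _ => ?_
      push_cast; ring
    rw [e4]
    have h1 : (1 + ε : ℂ) ≠ 0 := by
      have : (1 + ε : ℝ) ≠ 0 := by positivity
      exact_mod_cast this
    have h2 : (ε : ℂ) ≠ 0 := by exact_mod_cast hε.ne'
    push_cast
    field_simp
    ring
  have hgoal := key
  simp only [ha] at hgoal ⊢
  rw [hgoal, norm_neg, norm_mul, Complex.norm_real, Real.norm_eq_abs,
    abs_of_nonneg (div_nonneg (by linarith) (by linarith))]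
  have hS : ‖∑ n ∈ Finset.range k.N, (k.κ n : ℂ) * (a t n - ((l ^ (n + 1) : ℝ) : ℂ) * a s n)‖ ≤ G * e := by
    calc _ ≤ ∑ n ∈ Finset.range k.N, ‖(k.κ n : ℂ) * (a t n - ((l ^ (n + 1) : ℝ) : ℂ) * a s n)‖ :=
          norm_sum_le _ _
      _ ≤ ∑ n ∈ Finset.range k.N, l ^ (n + 1) * (G * e) := by
          refine Finset.sum_le_sum fun n hnn => ?_
          have h01 := k.h01 n hnn
          rw [norm_mul, Complex.norm_real, Real.norm_eq_abs, abs_of_nonneg h01.1]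
          calc k.κ n * _ ≤ 1 * (l ^ (n + 1) * (G * e)) := by
                gcongr
                · exact h01.2
                · exact hn n
            _ = _ := one_mul _
      _ = (l * ∑ n ∈ Finset.range k.N, l ^ n) * (G * e) := by
          rw [← Finset.sum_mul, Finset.mul_sum]
          congr 1
          exact Finset.sum_congr rfl fun n _ => by ring
      _ ≤ (l * (1 - l)⁻¹) * (G * e) := by
          gcongr
          rw [← tsum_geometric_of_lt_one hl0.le (by linarith)]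
          exact (summable_geometric_of_lt_one hl0.le (by linarith)).sum_le_tsum _
            fun n _ => pow_nonneg hl0.le n
      _ ≤ 1 * (G * e) := by
          gcongr
          rw [← div_eq_mul_inv, div_le_one (by linarith)]
          linarith
      _ = _ := one_mul _
  have hfrac : (1 - ε) / (1 + ε) ≤ 1 := by
    rw [div_le_one (by linarith)]; linarith
  have hfrac0 : 0 ≤ (1 - ε) / (1 + ε) := div_nonneg (by linarith) (by linarith)
  calc _ ≤ (1 - ε) / (1 + ε) * (G * e + G * e) := by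
        gcongr
        refine (norm_add_le _ _).trans (add_le_add h0 ?_)
        simpa only [ha] using hS
    _ ≤ 1 * (G * e + G * e) := by gcongr
    _ = _ := by ring

end Pool.Agent.Lib.MP_ca0fc2_an.Cubic
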