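import Pool.Agent.Lib.MP_ca0fc2_an.CubLam

/-!
Existence of very lacunary sequences of exponents.
-/

open MeasureTheory Complex Set Filter Topology

namespace Pool.Agent.Lib.MP_ca0fc2_an.Cubic

/-- The density of level j. -/
noncomputable def pk (k : KD) (α : ℕ → ℕ × ℕ) (j : ℕ) (θ : ℝ × ℝ) : ℝ :=
  ∏ i ∈ Finset.range j, Kr k (zc (α i)) θ

def Gap (g : ℝ × ℝ → ℂ) (α : ℕ × ℕ) : Prop :=
  ∀ n : ℤ, n ≠ 0 → Av (fun θ => g θ * chi (n • zc α) θ) = 0

def HGap (g : ℝ × ℝ → ℂ) (α : ℕ × ℕ) : Prop :=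
  ∀ n : ℕ, 1 ≤ n → ∀ s : ℝ × ℝ, 0 < s.1 → s.1 ^ 2 + s.2 ^ 2 ≤ 1 → ∀ h : ℂ × ℂ → ℂ, HolN h →
    Av (fun θ => h (Z s θ) * (g θ * chi ((n : ℤ) • zc α) θ)) = 0

def CE (g : ℝ × ℝ → ℂ) (e : ℝ) (s t : ℝ × ℝ) : Prop :=
  ∀ β : ℤ × ℤ, ∀ A : ℝ, ∀ h : ℂ × ℂ → ℂ, HolN h → (∀ z ∈ Bc, ‖h z‖ ≤ A) →
    ‖Av (fun θ => h (Z t θ) * (g θ * chi (-β) θ)) -
      ((mono t β / mono s β : ℝ) : ℂ) * Av (fun θ => h (Z s θ) * (g θ * chi (-β) θ))‖ ≤
      mono t β / mono s β * (A * e)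

structure Good (k : KD) (ε η ν e : ℝ) (K : ℕ) (α : ℕ → ℕ × ℕ) (β : ℕ × ℕ) : Prop where
  posβ : Pos β
  pos : ∀ i < K, Pos (α i)
  near : ∀ i < K, ε * (1 - η) < rat (α i) (sr β) ∧ rat (α i) (sr β) < ε
  loc : ∀ j < K, ∀ z ∈ Bc, ν ≤ ‖lam (α j) z‖ → ∀ i < j,
    ε * (1 - η) < ‖lam (α i) z‖ ∧ ‖lam (α i) z‖ < ε
  gap0 : ∀ j < K, Gap (fun θ => (pk k α j θ : ℂ)) (α j)
  gap1 : ∀ j < K, ∀ i < j, Gap (fun θ => (pk k α j θ : ℂ) * chi (zc (α i)) θ) (α j)
  gap2 : ∀ j < K, ∀ i < j, Gap (fun θ => (pk k α j θ : ℂ) * chi (-zc (α i)) θ) (α j)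
  hgap : ∀ j < K, HGap (fun θ => (pk k α j θ : ℂ)) (α j)
  ce : ∀ j, j + 1 < K → CE (fun θ => (pk k α j θ : ℂ)) e (sr (α j)) (sr (α (j + 1)))
  cel : ∀ j, j + 1 = K → CE (fun θ => (pk k α j θ : ℂ)) e (sr (α j)) (sr β)

theorem pk_mem (k : KD) (α : ℕ → ℕ × ℕ) (j : ℕ) : (fun θ => (pk k α j θ : ℂ)) ∈ TP := by
  induction j with
  | zero => simpa [pk] using one_mem
  | succ j ih =>
    have : (fun θ => (pk k α (j + 1) θ : ℂ)) =
        (fun θ => (pk k α j θ : ℂ)) * (fun θ => (Kr k (zc (α j)) θ : ℂ)) := by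
      ext θ
      simp only [pk, Finset.prod_range_succ, Pi.mul_apply, ofReal_mul]
    rw [this]
    exact TP_mul ih (Kr_mem k _)

theorem pk_congr (k : KD) {α α' : ℕ → ℕ × ℕ} {j : ℕ} (h : ∀ i < j, α i = α' i) :
    pk k α j = pk k α' j := by
  ext θ
  rw [pk, pk]
  exact Finset.prod_congr rfl fun i hi => by rw [h i (Finset.mem_range.1 hi)]

theorem good_exists (k : KD) {ε η ν e : ℝ} (hε : 0 < ε) (hε1 : ε < 1) (hη : 0 < η) (hη1 : η < 1)
    (hν : 0 < ν) (he : 0 < e) (K : ℕ) : ∃ α β, Good k ε η ν e K α β := by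
  induction K with
  | zero =>
    refine ⟨fun _ => (1, 1), (1, 1), ⟨⟨le_rfl, le_rfl⟩, ?_, ?_, ?_, ?_, ?_, ?_, ?_, ?_, ?_⟩⟩
    all_goals intros; omega
  | succ K ih =>
    obtain ⟨α, β, hG⟩ := ih
    -- the degree bounds
    obtain ⟨D0, hD0⟩ := gap (pk_mem k α K)
    obtain ⟨Dh, hDh⟩ := holgap (pk_mem k α K)
    have h1 : ∀ i : ℕ, ∃ D : ℕ, ∀ γ : ℕ × ℕ, D < γ.1 →
        Gap (fun θ => (pk k α K θ : ℂ) * chi (zc (α i)) θ) γ := fun i => by
      obtain ⟨D, hD⟩ := gap (TP_mul (pk_mem k α K) (chi_mem (zc (α i))))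
      exact ⟨D, fun γ hγ => hD γ hγ⟩
    have h2 : ∀ i : ℕ, ∃ D : ℕ, ∀ γ : ℕ × ℕ, D < γ.1 →
        Gap (fun θ => (pk k α K θ : ℂ) * chi (-zc (α i)) θ) γ := fun i => by
      obtain ⟨D, hD⟩ := gap (TP_mul (pk_mem k α K) (chi_mem (-zc (α i))))
      exact ⟨D, fun γ hγ => hD γ hγ⟩
    choose D1 hD1 using h1
    choose D2 hD2 using h2
    set D := D0 + Dh + ∑ i ∈ Finset.range K, (D1 i + D2 i) with hDdef
    have hsp1 := sr_pos1 hG.posβ
    have hsp2 := sr_pos2 hG.posβ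
    have hsph := sr_sphere hG.posβ
    have hcore := core hsp1 hsp2 hsph.le (pk_mem k α K) e he
    obtain ⟨W, hW, hWo, hβW⟩ := eventually_nhds_iff.1 hcore
    set a := ε * (1 - η) with ha
    have ha0 : 0 < a := mul_pos hε (by linarith)
    have haε : a < ε := by rw [ha]; nlinarith
    set U : Set (ℂ × ℂ) := {z | ∀ i < K, a < ‖lam (α i) z‖ ∧ ‖lam (α i) z‖ < ε} ∩
      (fun z : ℂ × ℂ => (‖z.1‖, ‖z.2‖)) ⁻¹' W with hU
    have hUo : IsOpen U := by
      refine IsOpen.inter ?_ (hWo.preimage (by fun_prop))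
      have : {z : ℂ × ℂ | ∀ i < K, a < ‖lam (α i) z‖ ∧ ‖lam (α i) z‖ < ε} =
          ⋂ i ∈ Finset.range K, {z | a < ‖lam (α i) z‖ ∧ ‖lam (α i) z‖ < ε} := by
        ext z; simp
      rw [this]
      refine isOpen_biInter_finset fun i _ => ?_
      have hc : Continuous fun z => ‖lam (α i) z‖ := (differentiable_lam _).continuous.norm
      exact (isOpen_lt continuous_const hc).inter (isOpen_lt hc continuous_const)
    have hTU : ∀ z : ℂ × ℂ, (‖z.1‖, ‖z.2‖) = sr β → z ∈ U := by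
      intro z hz
      refine ⟨fun i hi => ?_, ?_⟩
      · rw [norm_lam, hz]; exact hG.near i hi
      · rw [mem_preimage, hz]; exact hβW
    obtain ⟨n, hn1, hnD, hnU, β', hβ', hr1, hr2⟩ := lac_step hG.posβ hUo hTU
      (ν := min ν a) (a := a) (b := ε) (lt_min hν ha0) ha0 haε hε1 D
    have hα'K : Pos (n • β) := smul_pos hG.posβ hn1
    have hp' : Z (sr β') 0 ∈ Bc := Z_mem (sr_sphere hβ').le 0
    have hnZ : (‖(Z (sr β') 0).1‖, ‖(Z (sr β') 0).2‖) = sr β' := by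
      rw [norm_Z1, norm_Z2, abs_of_pos (sr_pos1 hβ'), abs_of_pos (sr_pos2 hβ')]
    have hZU : Z (sr β') 0 ∈ U := by
      refine hnU _ hp' ?_
      rw [norm_lam, hnZ]
      exact (min_le_right _ _).trans hr1.le
    set α' : ℕ → ℕ × ℕ := Function.update α K (n • β) with hα'
    have eK : α' K = n • β := Function.update_self _ _ _
    have elt : ∀ i, i < K → α' i = α i := fun i hi => Function.update_of_ne hi.ne _ _
    have epk : ∀ j, j ≤ K → pk k α' j = pk k α j := fun j hj =>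
      pk_congr k fun i hi => elt i (lt_of_lt_of_le hi hj)
    have hDle : ∀ {m : ℕ}, m ≤ D → m < (n • β).1 := fun h => lt_of_le_of_lt h hnD
    refine ⟨α', β', ⟨hβ', ?_, ?_, ?_, ?_, ?_, ?_, ?_, ?_, ?_⟩⟩
    · intro i hi
      rcases Nat.lt_succ_iff_lt_or_eq.1 hi with h | rfl
      · rw [elt i h]; exact hG.pos i h
      · rw [eK]; exact hα'K
    · intro i hi
      rcases Nat.lt_succ_iff_lt_or_eq.1 hi with h | rfl
      · rw [elt i h]
        have := hZU.1 i h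
        rw [norm_lam, hnZ] at this
        exact this
      · rw [eK]; exact ⟨hr1, hr2⟩
    · intro j hj z hz hzν i hi
      rcases Nat.lt_succ_iff_lt_or_eq.1 hj with h | rfl
      · rw [elt j h] at hzν
        rw [elt i (hi.trans h)]
        exact hG.loc j h z hz hzν i hi
      · rw [eK] at hzν
        rw [elt i hi]
        exact (hnU z hz ((min_le_left _ _).trans hzν)).1 i hi
    · intro j hj
      rcases Nat.lt_succ_iff_lt_or_eq.1 hj with h | rfl
      · rw [epk j h.le, elt j h]; exact hG.gap0 j h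
      · rw [epk j le_rfl, eK]
        exact hD0 _ (hDle (by omega))
    · intro j hj i hi
      rcases Nat.lt_succ_iff_lt_or_eq.1 hj with h | rfl
      · rw [epk j h.le, elt j h, elt i (hi.trans h)]; exact hG.gap1 j h i hi
      · rw [epk j le_rfl, eK, elt i hi]
        refine hD1 i _ (hDle ?_)
        have := Finset.single_le_sum (f := fun i => D1 i + D2 i) (fun _ _ => Nat.zero_le _)
          (Finset.mem_range.2 hi)
        omega
    · intro j hj i hi
      rcases Nat.lt_succ_iff_lt_or_eq.1 hj with h | rfl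
      · rw [epk j h.le, elt j h, elt i (hi.trans h)]; exact hG.gap2 j h i hi
      · rw [epk j le_rfl, eK, elt i hi]
        refine hD2 i _ (hDle ?_)
        have := Finset.single_le_sum (f := fun i => D1 i + D2 i) (fun _ _ => Nat.zero_le _)
          (Finset.mem_range.2 hi)
        omega
    · intro j hj
      rcases Nat.lt_succ_iff_lt_or_eq.1 hj with h | rfl
      · rw [epk j h.le, elt j h]; exact hG.hgap j h
      · rw [epk j le_rfl, eK]
        exact hDh _ (hDle (by omega))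
    · intro j hj
      have hjK : j < K := by omega
      rw [epk j hjK.le, elt j hjK]
      rcases Nat.lt_or_ge (j + 1) K with h | h
      · rw [elt (j + 1) h]; exact hG.ce j h
      · have : j + 1 = K := by omega
        rw [this, eK, sr_smul β hn1]
        exact hG.cel j this
    · intro j hj
      have hjK : j = K := by omega
      subst hjK
      rw [epk j le_rfl, eK, sr_smul β hn1]
      intro γ A h hh hA
      have hW' : sr β' ∈ W := by
        have := hZU.2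
        rw [mem_preimage, hnZ] at this
        exact this
      exact hW _ hW' (sr_sphere hβ').le γ A h hh hA

end Pool.Agent.Lib.MP_ca0fc2_an.Cubic
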