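import Pool.Agent.Lib.MP_ca0fc2_an.CubKer

/-!
Normalised monomials.
-/

open MeasureTheory Complex Set Filter Topology

namespace Pool.Agent.Lib.MP_ca0fc2_an.Cubic

/-- Radii of the torus where the monomial with exponents α is largest on the unit sphere. -/
noncomputable def sr (α : ℕ × ℕ) : ℝ × ℝ :=
  (Real.sqrt ((α.1 : ℝ) / (α.1 + α.2)), Real.sqrt ((α.2 : ℝ) / (α.1 + α.2)))

/-- Both exponents are positive. -/
def Pos (α : ℕ × ℕ) : Prop := 1 ≤ α.1 ∧ 1 ≤ α.2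

/-- The normalised monomial. -/
noncomputable def lam (α : ℕ × ℕ) (z : ℂ × ℂ) : ℂ :=
  (z.1 / ((sr α).1 : ℂ)) ^ α.1 * (z.2 / ((sr α).2 : ℂ)) ^ α.2

theorem Pos.cast {α : ℕ × ℕ} (h : Pos α) : (0 : ℝ) < α.1 ∧ (0 : ℝ) < α.2 :=
  ⟨by exact_mod_cast h.1, by exact_mod_cast h.2⟩

theorem sr_pos1 {α : ℕ × ℕ} (h : Pos α) : 0 < (sr α).1 := by
  obtain ⟨h1, h2⟩ := h.cast
  exact Real.sqrt_pos.2 (by positivity)

theorem sr_pos2 {α : ℕ × ℕ} (h : Pos α) : 0 < (sr α).2 := by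
  obtain ⟨h1, h2⟩ := h.cast
  exact Real.sqrt_pos.2 (by positivity)

theorem sr_sq1 {α : ℕ × ℕ} (h : Pos α) : (sr α).1 ^ 2 = (α.1 : ℝ) / (α.1 + α.2) := by
  obtain ⟨h1, h2⟩ := h.cast
  exact Real.sq_sqrt (by positivity)

theorem sr_sq2 {α : ℕ × ℕ} (h : Pos α) : (sr α).2 ^ 2 = (α.2 : ℝ) / (α.1 + α.2) := by
  obtain ⟨h1, h2⟩ := h.cast
  exact Real.sq_sqrt (by positivity)

theorem sr_sphere {α : ℕ × ℕ} (h : Pos α) : (sr α).1 ^ 2 + (sr α).2 ^ 2 = 1 := by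
  obtain ⟨h1, h2⟩ := h.cast
  rw [sr_sq1 h, sr_sq2 h]
  field_simp

theorem differentiable_lam (α : ℕ × ℕ) : Differentiable ℂ (lam α) := by
  unfold lam; fun_prop

theorem lam_Z {α : ℕ × ℕ} (s θ : ℝ × ℝ) :
    lam α (Z s θ) = ((mono s (zc α) / mono (sr α) (zc α) : ℝ) : ℂ) * chi (zc α) θ := by
  have h1 : chi (zc α) θ = exp (θ.1 * I) ^ α.1 * exp (θ.2 * I) ^ α.2 := by
    rw [chi, zc, ← Complex.exp_nat_mul, ← Complex.exp_nat_mul, ← Complex.exp_add]
    congr 1; push_cast; ring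
  rw [h1, lam, Z, mono, mono, zc]
  simp only [zpow_natCast]
  push_cast
  rw [div_pow, div_pow, mul_pow, mul_pow]
  ring

theorem lam_Z_sr {α : ℕ × ℕ} (h : Pos α) (θ : ℝ × ℝ) : lam α (Z (sr α) θ) = chi (zc α) θ := by
  rw [lam_Z, div_self (mono_pos (sr_pos1 h) (sr_pos2 h) _).ne', ofReal_one, one_mul]

/-- The modulus of the normalised monomial on the torus with radii s. -/
noncomputable def rat (α : ℕ × ℕ) (s : ℝ × ℝ) : ℝ := mono s (zc α) / mono (sr α) (zc α)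

theorem norm_lam (α : ℕ × ℕ) (z : ℂ × ℂ) : ‖lam α z‖ = rat α (‖z.1‖, ‖z.2‖) := by
  have a1 : |(sr α).1| = (sr α).1 := abs_of_nonneg (Real.sqrt_nonneg _)
  have a2 : |(sr α).2| = (sr α).2 := abs_of_nonneg (Real.sqrt_nonneg _)
  rw [lam, rat, mono, mono, zc]
  simp only [zpow_natCast, norm_mul, norm_pow, norm_div, Complex.norm_real, Real.norm_eq_abs, a1, a2]
  rw [div_pow, div_pow]
  ring

theorem rat_sr {α : ℕ × ℕ} (h : Pos α) : rat α (sr α) = 1 :=
  div_self (mono_pos (sr_pos1 h) (sr_pos2 h) _).ne'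

theorem rat_nonneg (α : ℕ × ℕ) {s : ℝ × ℝ} (h1 : 0 ≤ s.1) (h2 : 0 ≤ s.2) : 0 ≤ rat α s := by
  rw [rat, mono, mono, zc]
  simp only [zpow_natCast]
  have : 0 ≤ (sr α).1 := Real.sqrt_nonneg _
  have : 0 ≤ (sr α).2 := Real.sqrt_nonneg _
  positivity

theorem rat_sq {α : ℕ × ℕ} (h : Pos α) (s : ℝ × ℝ) :
    rat α s ^ 2 = (s.1 ^ 2 / (sr α).1 ^ 2) ^ α.1 * (s.2 ^ 2 / (sr α).2 ^ 2) ^ α.2 := by
  rw [rat, mono, mono, zc]
  simp only [zpow_natCast]
  have := (sr_pos1 h).ne'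
  have := (sr_pos2 h).ne'
  rw [div_pow (s.1 ^ 2), div_pow (s.2 ^ 2)]
  field_simp
  rw [← pow_mul, ← pow_mul, ← pow_mul, ← pow_mul, ← pow_mul, ← pow_mul, ← pow_mul, ← pow_mul]
  ring

theorem pow_le_exp {x : ℝ} (hx : 0 ≤ x) (n : ℕ) : x ^ n ≤ Real.exp (n * (x - 1)) := by
  rw [Real.exp_nat_mul]
  gcongr
  linarith [Real.add_one_le_exp (x - 1)]

theorem pow_lt_exp {x : ℝ} (hx : 0 ≤ x) (hx1 : x ≠ 1) {n : ℕ} (hn : 1 ≤ n) :
    x ^ n < Real.exp (n * (x - 1)) := by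
  rw [Real.exp_nat_mul]
  have h1 : x < Real.exp (x - 1) := by
    have := Real.add_one_lt_exp (x := x - 1) (sub_ne_zero.2 hx1)
    linarith
  exact pow_lt_pow_left₀ h1 hx (by omega)

theorem rat_le_one {α : ℕ × ℕ} (h : Pos α) {s : ℝ × ℝ} (h1 : 0 ≤ s.1) (h2 : 0 ≤ s.2)
    (hs : s.1 ^ 2 + s.2 ^ 2 ≤ 1) : rat α s ≤ 1 := by
  obtain ⟨c1, c2⟩ := h.cast
  have hsq : rat α s ^ 2 ≤ 1 := by
    rw [rat_sq h, sr_sq1 h, sr_sq2 h]
    calc _ ≤ Real.exp (α.1 * (s.1 ^ 2 / (α.1 / (α.1 + α.2)) - 1)) *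
          Real.exp (α.2 * (s.2 ^ 2 / (α.2 / (α.1 + α.2)) - 1)) := by
          gcongr
          · exact pow_le_exp (by positivity) _
          · exact pow_le_exp (by positivity) _
      _ = Real.exp ((α.1 + α.2) * (s.1 ^ 2 + s.2 ^ 2 - 1)) := by
          rw [← Real.exp_add]
          congr 1
          field_simp
          ring
      _ ≤ 1 := by
          rw [Real.exp_le_one_iff]
          have : (0 : ℝ) ≤ α.1 + α.2 := by positivity
          nlinarith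
  have h0 := rat_nonneg α h1 h2
  nlinarith

theorem rat_lt_one {α : ℕ × ℕ} (h : Pos α) {s : ℝ × ℝ} (h1 : 0 ≤ s.1) (h2 : 0 ≤ s.2)
    (hs : s.1 ^ 2 + s.2 ^ 2 ≤ 1) (hne : s ≠ sr α) : rat α s < 1 := by
  obtain ⟨c1, c2⟩ := h.cast
  have p1 := sr_pos1 h
  have p2 := sr_pos2 h
  have hd : s.1 ^ 2 / (sr α).1 ^ 2 ≠ 1 ∨ s.2 ^ 2 / (sr α).2 ^ 2 ≠ 1 := by
    by_contra hcon
    push Not at hcon
    obtain ⟨e1, e2⟩ := hcon
    rw [div_eq_one_iff_eq (by positivity)] at e1 e2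
    apply hne
    ext
    · exact (sq_eq_sq₀ h1 p1.le).1 e1
    · exact (sq_eq_sq₀ h2 p2.le).1 e2
  have hsq : rat α s ^ 2 < 1 := by
    rw [rat_sq h]
    calc _ < Real.exp (α.1 * (s.1 ^ 2 / (sr α).1 ^ 2 - 1)) *
          Real.exp (α.2 * (s.2 ^ 2 / (sr α).2 ^ 2 - 1)) := by
          have x1 : 0 ≤ s.1 ^ 2 / (sr α).1 ^ 2 := by positivity
          have x2 : 0 ≤ s.2 ^ 2 / (sr α).2 ^ 2 := by positivity
          rcases hd with hd | hd
          · exact mul_lt_mul_of_lt_of_le_of_nonneg_of_pos (pow_lt_exp x1 hd h.1) (pow_le_exp x2 _)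
              (by positivity) (Real.exp_pos _)
          · exact mul_lt_mul_of_le_of_lt_of_nonneg_of_pos (pow_le_exp x1 _) (pow_lt_exp x2 hd h.2)
              (by positivity) (Real.exp_pos _)
      _ = Real.exp ((α.1 + α.2) * (s.1 ^ 2 + s.2 ^ 2 - 1)) := by
          rw [← Real.exp_add, sr_sq1 h, sr_sq2 h]
          congr 1
          field_simp
          ring
      _ ≤ 1 := by
          rw [Real.exp_le_one_iff]
          have : (0 : ℝ) ≤ α.1 + α.2 := by positivity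
          nlinarith
  have h0 := rat_nonneg α h1 h2
  nlinarith

theorem norm_lam_le {α : ℕ × ℕ} (h : Pos α) {z : ℂ × ℂ} (hz : z ∈ Bc) : ‖lam α z‖ ≤ 1 := by
  rw [norm_lam]
  exact rat_le_one h (norm_nonneg _) (norm_nonneg _) hz

theorem smul_pos {β : ℕ × ℕ} (h : Pos β) {n : ℕ} (hn : 1 ≤ n) : Pos (n • β) := by
  constructor
  · simp only [Prod.smul_fst, smul_eq_mul]; exact Nat.mul_pos hn h.1
  · simp only [Prod.smul_snd, smul_eq_mul]; exact Nat.mul_pos hn h.2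

theorem sr_smul (β : ℕ × ℕ) {n : ℕ} (hn : 1 ≤ n) : sr (n • β) = sr β := by
  have hn' : (n : ℝ) ≠ 0 := by
    have : (0 : ℝ) < n := by exact_mod_cast hn
    exact this.ne'
  unfold sr
  simp only [Prod.smul_fst, Prod.smul_snd, smul_eq_mul, Nat.cast_mul]
  rw [← mul_add, mul_div_mul_left _ _ hn', mul_div_mul_left _ _ hn']

theorem lam_smul (β : ℕ × ℕ) {n : ℕ} (hn : 1 ≤ n) (z : ℂ × ℂ) : lam (n • β) z = lam β z ^ n := by
  rw [lam, sr_smul β hn, lam, mul_pow, ← pow_mul, ← pow_mul]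
  simp only [Prod.smul_fst, Prod.smul_snd, smul_eq_mul]
  rw [mul_comm n, mul_comm n]

theorem isCompact_Bc : IsCompact Bc := by
  apply Metric.isCompact_of_isClosed_isBounded
  · exact isClosed_le (by fun_prop) (by fun_prop)
  · refine Metric.isBounded_closedBall.subset (s := Bc) (t := Metric.closedBall 0 1) fun z hz => ?_
    rw [mem_closedBall_zero_iff, Prod.norm_def]
    have hz' : ‖z.1‖ ^ 2 + ‖z.2‖ ^ 2 ≤ 1 := hz
    have n1 := norm_nonneg z.1
    have n2 := norm_nonneg z.2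
    apply max_le <;> nlinarith

/-- Concentration of high powers, and the next torus. -/
theorem lac_step {β : ℕ × ℕ} (hβ : Pos β) {U : Set (ℂ × ℂ)} (hU : IsOpen U)
    (hTU : ∀ z : ℂ × ℂ, (‖z.1‖, ‖z.2‖) = sr β → z ∈ U) {ν a b : ℝ} (hν : 0 < ν) (ha : 0 < a)
    (hab : a < b) (hb : b < 1) (D : ℕ) :
    ∃ n : ℕ, 1 ≤ n ∧ D < (n • β).1 ∧ (∀ z ∈ Bc, ν ≤ ‖lam (n • β) z‖ → z ∈ U) ∧
      ∃ β' : ℕ × ℕ, Pos β' ∧ a < rat (n • β) (sr β') ∧ rat (n • β) (sr β') < b := by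
  -- choice of n
  have h1 : ∃ q : ℝ, 0 ≤ q ∧ q < 1 ∧ ∀ z ∈ Bc, z ∉ U → ‖lam β z‖ ≤ q := by
    rcases (Bc \ U).eq_empty_or_nonempty with he | hne
    · refine ⟨0, le_rfl, one_pos, fun z hz hzU => ?_⟩
      exact absurd (show z ∈ Bc \ U from ⟨hz, hzU⟩) (by rw [he]; exact notMem_empty z)
    · have hc : IsCompact (Bc \ U) := isCompact_Bc.diff hU
      obtain ⟨z₀, hz₀, hmax⟩ := hc.exists_isMaxOn hne
        ((differentiable_lam β).continuous.norm.continuousOn)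
      refine ⟨‖lam β z₀‖, norm_nonneg _, ?_, fun z hz hzU => hmax ⟨hz, hzU⟩⟩
      rw [norm_lam]
      refine rat_lt_one hβ (norm_nonneg _) (norm_nonneg _) hz₀.1 fun h => hz₀.2 (hTU z₀ h)
  obtain ⟨q, hq0, hq1, hq⟩ := h1
  obtain ⟨n₀, hn₀⟩ := exists_pow_lt_of_lt_one hν hq1
  set n := max (max n₀ 1) (D + 1) with hn
  have hn1 : 1 ≤ n := le_max_of_le_left (le_max_right _ _)
  have hn2 : n₀ ≤ n := le_max_of_le_left (le_max_left _ _)
  have hn3 : D + 1 ≤ n := le_max_right _ _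
  have hα : Pos (n • β) := smul_pos hβ hn1
  refine ⟨n, hn1, ?_, ?_, ?_⟩
  · simp only [Prod.smul_fst, smul_eq_mul]
    have := hβ.1
    nlinarith
  · intro z hz hzν
    by_contra hzU
    have h2 := hq z hz hzU
    rw [lam_smul β hn1, norm_pow] at hzν
    have h3 : ‖lam β z‖ ^ n ≤ q ^ n := by gcongr
    have h4 : q ^ n ≤ q ^ n₀ := pow_le_pow_of_le_one hq0 hq1.le hn2
    linarith
  · -- the function of t
    set α := n • β with hαdef
    set f : ℝ → ℝ := fun t => rat α (Real.sqrt t, Real.sqrt (1 - t)) with hf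
    have hfc : Continuous f := by
      simp only [hf, rat, mono, zc, zpow_natCast]
      fun_prop
    obtain ⟨c1, c2⟩ := hα.cast
    set τ : ℝ := (α.1 : ℝ) / (α.1 + α.2) with hτ
    have hτ1 : τ < 1 := by
      rw [hτ, div_lt_one (by positivity)]; linarith
    have hτ0 : 0 < τ := by positivity
    have hfτ : f τ = 1 := by
      have e : (Real.sqrt τ, Real.sqrt (1 - τ)) = sr α := by
        rw [sr, hτ]
        congr 2
        field_simp
        ring
      simp only [hf]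
      rw [e, rat_sr hα]
    have hf1 : f 1 = 0 := by
      simp only [hf, rat, mono, zc, zpow_natCast, sub_self, Real.sqrt_zero]
      rw [zero_pow (by have := hα.2; omega)]
      simp
    obtain ⟨t, ht, htv⟩ := intermediate_value_Icc' hτ1.le hfc.continuousOn
      (show (a + b) / 2 ∈ Icc (f 1) (f τ) by rw [hfτ, hf1]; constructor <;> linarith)
    have ht1 : t < 1 := by
      rcases ht.2.lt_or_eq with h | h
      · exact h
      · rw [h, hf1] at htv; linarith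
    have hopen : IsOpen (f ⁻¹' Ioo a b ∩ Ioo 0 1) := (isOpen_Ioo.preimage hfc).inter isOpen_Ioo
    have hmem : t ∈ f ⁻¹' Ioo a b ∩ Ioo 0 1 := by
      refine ⟨?_, lt_of_lt_of_le hτ0 ht.1, ht1⟩
      rw [mem_preimage, htv]
      constructor <;> linarith
    obtain ⟨r, hr⟩ := Rat.denseRange_cast.exists_mem_open hopen ⟨t, hmem⟩
    obtain ⟨hr1, hr2, hr3⟩ := hr
    have hr0 : 0 < r := by exact_mod_cast hr2
    have hr4 : r < 1 := by exact_mod_cast hr3
    have hnum : 0 < r.num := Rat.num_pos.2 hr0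
    have hden : (0 : ℤ) < r.den := by exact_mod_cast r.den_pos
    have hlt : r.num < r.den := by
      have h5 : (r.num : ℚ) < r.den := by
        have h6 : r * r.den = r.num := Rat.mul_den_eq_num r
        have h7 : (0 : ℚ) < r.den := by exact_mod_cast r.den_pos
        rw [← h6]
        nlinarith
      exact_mod_cast h5
    obtain ⟨p, hp⟩ : ∃ p : ℕ, r.num = p := ⟨r.num.toNat, by omega⟩
    have hplt : p < r.den := by
      rw [hp] at hlt; exact_mod_cast hlt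
    have hp1 : 1 ≤ p := by
      rw [hp] at hnum; exact_mod_cast hnum
    refine ⟨(p, r.den - p), ⟨hp1, by simp only; omega⟩, ?_⟩
    have e1 : (r : ℝ) = (p : ℝ) / r.den := by
      rw [Rat.cast_def, hp]; push_cast; rfl
    have hdr : (0 : ℝ) < r.den := by exact_mod_cast r.den_pos
    have e2 : sr (p, r.den - p) = (Real.sqrt r, Real.sqrt (1 - r)) := by
      rw [sr]
      simp only
      have e3 : ((r.den - p : ℕ) : ℝ) = r.den - p := by
        rw [Nat.cast_sub hplt.le]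
      rw [e3, e1]
      congr 2
      · congr 1; ring
      · field_simp
        ring
    rw [e2]
    exact hr1

end Pool.Agent.Lib.MP_ca0fc2_an.Cubic
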