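import Pool.Agent.Lib.MP_ca0fc2_an.CubEst

/-!
Estimates for solutions on one level and the recursion between levels.
-/

open MeasureTheory Complex Set Filter Topology

namespace Pool.Agent.Lib.MP_ca0fc2_an.Cubic

/-- Approximate solutions. -/
structure Sol (F : ℂ × ℂ → EuclideanSpace ℂ (Fin 2)) (h1 h2 : ℂ × ℂ → ℂ) (A ζ : ℝ) : Prop where
  hol1 : HolN h1
  hol2 : HolN h2
  A0 : 0 ≤ A
  bd : ∀ z ∈ Bc, ‖h1 z‖ ^ 2 + ‖h2 z‖ ^ 2 ≤ A ^ 2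
  eqn : ∀ z ∈ Bc, ‖F z 0 * h1 z + F z 1 * h2 z - 1‖ ≤ ζ

/-- Pairing of a real vector with the solution. -/
noncomputable def pr (h1 h2 : ℂ × ℂ → ℂ) (c : ℂ) (z : ℂ × ℂ) : ℂ := (c.re : ℂ) * h1 z + (c.im : ℂ) * h2 z

theorem pair_norm {a b x y : ℂ} {A : ℝ} (hA : 0 ≤ A) (h : ‖x‖ ^ 2 + ‖y‖ ^ 2 ≤ A ^ 2) :
    ‖a * x + b * y‖ ≤ Real.sqrt (‖a‖ ^ 2 + ‖b‖ ^ 2) * A := by
  have h1 : ‖a * x + b * y‖ ≤ ‖a‖ * ‖x‖ + ‖b‖ * ‖y‖ := by
    refine (norm_add_le _ _).trans ?_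
    rw [norm_mul, norm_mul]
  refine h1.trans ?_
  have h2 : ‖a‖ * ‖x‖ + ‖b‖ * ‖y‖ ≤ Real.sqrt ((‖a‖ ^ 2 + ‖b‖ ^ 2) * A ^ 2) := by
    apply Real.le_sqrt_of_sq_le
    have h3 : (‖a‖ * ‖x‖ + ‖b‖ * ‖y‖) ^ 2 ≤ (‖a‖ ^ 2 + ‖b‖ ^ 2) * (‖x‖ ^ 2 + ‖y‖ ^ 2) := by
      nlinarith [sq_nonneg (‖a‖ * ‖y‖ - ‖b‖ * ‖x‖)]
    refine h3.trans ?_
    gcongr
  rw [Real.sqrt_mul (by positivity), Real.sqrt_sq hA] at h2
  exact h2

theorem pr_norm {h1 h2 : ℂ × ℂ → ℂ} {F : ℂ × ℂ → EuclideanSpace ℂ (Fin 2)} {A ζ : ℝ}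
    (hS : Sol F h1 h2 A ζ) (c : ℂ) {z : ℂ × ℂ} (hz : z ∈ Bc) : ‖pr h1 h2 c z‖ ≤ ‖c‖ * A := by
  have := pair_norm (a := (c.re : ℂ)) (b := (c.im : ℂ)) hS.A0 (hS.bd z hz)
  have e : Real.sqrt (‖(c.re : ℂ)‖ ^ 2 + ‖(c.im : ℂ)‖ ^ 2) = ‖c‖ := by
    rw [Complex.norm_real, Complex.norm_real, Real.norm_eq_abs, Real.norm_eq_abs, sq_abs, sq_abs,
      Complex.norm_eq_sqrt_sq_add_sq]
  rw [e] at this
  exact this

theorem HolN.add {f g : ℂ × ℂ → ℂ} (hf : HolN f) (hg : HolN g) : HolN fun z => f z + g z := by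
  obtain ⟨U, hU, hBU, hd⟩ := hf
  obtain ⟨W, hW, hBW, hd'⟩ := hg
  exact ⟨U ∩ W, hU.inter hW, subset_inter hBU hBW,
    (hd.mono inter_subset_left).add (hd'.mono inter_subset_right)⟩

theorem HolN.const_mul {f : ℂ × ℂ → ℂ} (hf : HolN f) (c : ℂ) : HolN fun z => c * f z := by
  obtain ⟨U, hU, hBU, hd⟩ := hf
  exact ⟨U, hU, hBU, (differentiableOn_const c).mul hd⟩

theorem pr_hol {h1 h2 : ℂ × ℂ → ℂ} (H1 : HolN h1) (H2 : HolN h2) (c : ℂ) : HolN (pr h1 h2 c) :=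
  (H1.const_mul _).add (H2.const_mul _)

theorem pr_add (h1 h2 : ℂ × ℂ → ℂ) (c d : ℂ) (z : ℂ × ℂ) :
    pr h1 h2 (c + d) z = pr h1 h2 c z + pr h1 h2 d z := by
  simp only [pr, Complex.add_re, Complex.add_im, ofReal_add]; ring

theorem pr_real_mul (h1 h2 : ℂ × ℂ → ℂ) (r : ℝ) (c : ℂ) (z : ℂ × ℂ) :
    pr h1 h2 ((r : ℂ) * c) z = (r : ℂ) * pr h1 h2 c z := by
  simp only [pr, Complex.re_ofReal_mul, Complex.im_ofReal_mul, ofReal_mul]; ring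

variable (P : PD)

/-- The functional of level j. -/
noncomputable def LL (k : KD) (α : ℕ → ℕ × ℕ) (h1 h2 : ℂ × ℂ → ℂ) (j : ℕ) (c : ℂ) : ℂ :=
  Av fun θ => pr h1 h2 c (Z (sr (α j)) θ) * (pk k α j θ : ℂ)

/-- The functional of the escaping part. -/
noncomputable def RR (k : KD) (α : ℕ → ℕ × ℕ) (h1 h2 : ℂ × ℂ → ℂ) (ε l : ℝ) (j : ℕ) (c : ℂ) : ℂ :=
  Av fun θ => pr h1 h2 c (Z (sr (α j)) θ) * ((pk k α j θ : ℂ) * (Rr k ε l (zc (α j)) θ : ℂ))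

theorem pointwise {h1 h2 : ℂ × ℂ → ℂ} {F : ℂ × ℂ → EuclideanSpace ℂ (Fin 2)} {A ζ : ℝ}
    (hS : Sol F h1 h2 A ζ) {z : ℂ × ℂ} (hz : z ∈ Bc) {x a φ : ℂ} {E : ℝ}
    (hE : ‖F z - (V x + φ • V a)‖ ≤ E) :
    ‖pr h1 h2 x z + φ * pr h1 h2 a z - 1‖ ≤ ζ + E * A := by
  set w := F z - (V x + φ • V a) with hw
  have e : pr h1 h2 x z + φ * pr h1 h2 a z - 1 =
      (F z 0 * h1 z + F z 1 * h2 z - 1) - (w 0 * h1 z + w 1 * h2 z) := by
    have e0 : w 0 = F z 0 - ((x.re : ℂ) + φ * a.re) := by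
      rw [hw]; simp [V]
    have e1 : w 1 = F z 1 - ((x.im : ℂ) + φ * a.im) := by
      rw [hw]; simp [V]
    rw [e0, e1, pr, pr]; ring
  rw [e]
  refine (norm_sub_le _ _).trans (add_le_add (hS.eqn z hz) ?_)
  refine (pair_norm hS.A0 (hS.bd z hz)).trans ?_
  rw [← norm_sq_two, Real.sqrt_sq (norm_nonneg _)]
  exact mul_le_mul_of_nonneg_right hE hS.A0

section level

variable {P} {k : KD} {ε η₁ ν e A ζ e1 : ℝ} {K : ℕ} {α : ℕ → ℕ × ℕ} {β : ℕ × ℕ}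
  {h1 h2 : ℂ × ℂ → ℂ} {F : ℂ × ℂ → EuclideanSpace ℂ (Fin 2)} {x a : ℂ} {j : ℕ} {E : ℝ × ℝ → ℝ}

theorem fbound (hG : Good k ε η₁ ν e (K + 1) α β) (hj : j ≤ K) (hS : Sol F h1 h2 A ζ)
    (hEc : Continuous E) (hE : ∀ θ, ‖F (Z (sr (α j)) θ) - (V x + chi (zc (α j)) θ • V a)‖ ≤ E θ)
    (hE1 : AvR (fun θ => E θ * pk k α j θ) ≤ e1) {w : ℝ × ℝ → ℂ} {c : ℝ} (hc : 0 ≤ c)
    (hw : ∀ θ, ‖w θ‖ ≤ c) :
    ‖Av (fun θ => w θ * ((pr h1 h2 x (Z (sr (α j)) θ) + chi (zc (α j)) θ *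
      pr h1 h2 a (Z (sr (α j)) θ) - 1) * (pk k α j θ : ℂ)))‖ ≤ c * (ζ + A * e1) := by
  have hsph := (sr_sphere (hG.pos j (by omega))).le
  have hpc := pk_continuous k α j
  have p0 : AvR (pk k α j) = 1 := by
    have : ((AvR (pk k α j) : ℝ) : ℂ) = 1 := by
      rw [AvR_cast]; exact ((moments hG) j (by omega)).1
    exact_mod_cast this
  have hcont : Continuous fun θ => c * (ζ * pk k α j θ + A * (E θ * pk k α j θ)) :=
    continuous_const.mul ((continuous_const.mul hpc).add (continuous_const.mul (hEc.mul hpc)))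
  have hcA : Continuous fun θ => ζ * pk k α j θ := continuous_const.mul hpc
  have hcB : Continuous fun θ => A * (E θ * pk k α j θ) := continuous_const.mul (hEc.mul hpc)
  refine (norm_Av_le hcont fun θ => ?_).trans ?_
  · have hz := Z_mem hsph θ
    have h := pointwise hS hz (hE θ)
    have hp := pk_nonneg k α j θ
    have hcw := hw θ
    rw [norm_mul, norm_mul, Complex.norm_real, Real.norm_eq_abs, abs_of_nonneg hp]
    calc ‖w θ‖ * (‖pr h1 h2 x (Z (sr (α j)) θ) + chi (zc (α j)) θ *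
          pr h1 h2 a (Z (sr (α j)) θ) - 1‖ * pk k α j θ) ≤ c * ((ζ + E θ * A) * pk k α j θ) := by
          gcongr
      _ = _ := by ring
  · rw [AvR_const_mul, AvR_add hcA hcB, AvR_const_mul, AvR_const_mul, p0, mul_one]
    have := mul_le_mul_of_nonneg_left hE1 hS.A0
    gcongr

theorem est_x (hG : Good k ε η₁ ν e (K + 1) α β) (hj : j ≤ K) (hS : Sol F h1 h2 A ζ)
    (hEc : Continuous E) (hE : ∀ θ, ‖F (Z (sr (α j)) θ) - (V x + chi (zc (α j)) θ • V a)‖ ≤ E θ)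
    (hE1 : AvR (fun θ => E θ * pk k α j θ) ≤ e1) :
    ‖LL k α h1 h2 j x - 1‖ ≤ ζ + A * e1 := by
  have hPj := hG.pos j (by omega)
  have hsph := (sr_sphere hPj).le
  have hf := fbound hG hj hS hEc hE hE1 (w := fun _ => 1) zero_le_one (fun _ => by simp)
  have hcp : Continuous fun θ => (pk k α j θ : ℂ) := TP_continuous (pk_mem k α j)
  have hcx := (pr_hol hS.hol1 hS.hol2 x).continuous_comp hsph
  have hca := (pr_hol hS.hol1 hS.hol2 a).continuous_comp hsph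
  have hz : Av (fun θ => pr h1 h2 a (Z (sr (α j)) θ) * ((pk k α j θ : ℂ) * chi (zc (α j)) θ)) = 0 := by
    have := hG.hgap j (by omega) 1 le_rfl (sr (α j)) (sr_pos1 hPj) hsph _ (pr_hol hS.hol1 hS.hol2 a)
    simpa using this
  have e : (fun θ => (1 : ℂ) * ((pr h1 h2 x (Z (sr (α j)) θ) + chi (zc (α j)) θ *
      pr h1 h2 a (Z (sr (α j)) θ) - 1) * (pk k α j θ : ℂ))) =
      fun θ => (pr h1 h2 x (Z (sr (α j)) θ) * (pk k α j θ : ℂ) +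
        pr h1 h2 a (Z (sr (α j)) θ) * ((pk k α j θ : ℂ) * chi (zc (α j)) θ)) - (pk k α j θ : ℂ) := by
    ext θ; ring
  have c1 : Continuous fun θ => pr h1 h2 x (Z (sr (α j)) θ) * (pk k α j θ : ℂ) := cm hcx hcp
  have c2 : Continuous fun θ => pr h1 h2 a (Z (sr (α j)) θ) * ((pk k α j θ : ℂ) * chi (zc (α j)) θ) :=
    cm hca (cm hcp (continuous_chi _))
  have c3 : Continuous fun θ => pr h1 h2 x (Z (sr (α j)) θ) * (pk k α j θ : ℂ) +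
      pr h1 h2 a (Z (sr (α j)) θ) * ((pk k α j θ : ℂ) * chi (zc (α j)) θ) := c1.add c2
  rw [e, Av_sub c3 hcp, Av_add c1 c2, hz, ((moments hG) j (by omega)).1, add_zero, one_mul] at hf
  exact hf

theorem est_a (hG : Good k ε η₁ ν e (K + 1) α β) (hj : j ≤ K) (hS : Sol F h1 h2 A ζ)
    (hEc : Continuous E) (hE : ∀ θ, ‖F (Z (sr (α j)) θ) - (V x + chi (zc (α j)) θ • V a)‖ ≤ E θ)
    (hE1 : AvR (fun θ => E θ * pk k α j θ) ≤ e1) :
    ‖LL k α h1 h2 j a‖ ≤ ‖x‖ * A + (ζ + A * e1) := by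
  have hPj := hG.pos j (by omega)
  have hsph := (sr_sphere hPj).le
  have hf := fbound hG hj hS hEc hE hE1 (w := fun θ => chi (-zc (α j)) θ) zero_le_one
    (fun θ => (norm_chi _ θ).le)
  have hcp : Continuous fun θ => (pk k α j θ : ℂ) := TP_continuous (pk_mem k α j)
  have hcx := (pr_hol hS.hol1 hS.hol2 x).continuous_comp hsph
  have hca := (pr_hol hS.hol1 hS.hol2 a).continuous_comp hsph
  have hg := hG.gap0 j (by omega)
  have hz : Av (fun θ => (pk k α j θ : ℂ) * chi (-zc (α j)) θ) = 0 := by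
    have := hg (-1) (by norm_num)
    simpa using this
  have hcc : ∀ θ, chi (-zc (α j)) θ * chi (zc (α j)) θ = 1 := fun θ => by
    rw [← chi_add, neg_add_cancel, chi_zero]
  have e : (fun θ => chi (-zc (α j)) θ * ((pr h1 h2 x (Z (sr (α j)) θ) + chi (zc (α j)) θ *
      pr h1 h2 a (Z (sr (α j)) θ) - 1) * (pk k α j θ : ℂ))) =
      fun θ => (chi (-zc (α j)) θ * (pr h1 h2 x (Z (sr (α j)) θ) * (pk k α j θ : ℂ)) +
        pr h1 h2 a (Z (sr (α j)) θ) * (pk k α j θ : ℂ)) - (pk k α j θ : ℂ) * chi (-zc (α j)) θ := by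
    ext θ
    linear_combination (pr h1 h2 a (Z (sr (α j)) θ) * (pk k α j θ : ℂ)) * hcc θ
  have c1 : Continuous fun θ => chi (-zc (α j)) θ * (pr h1 h2 x (Z (sr (α j)) θ) * (pk k α j θ : ℂ)) :=
    cm (continuous_chi _) (cm hcx hcp)
  have c2 : Continuous fun θ => pr h1 h2 a (Z (sr (α j)) θ) * (pk k α j θ : ℂ) := cm hca hcp
  have c3 : Continuous fun θ => chi (-zc (α j)) θ * (pr h1 h2 x (Z (sr (α j)) θ) * (pk k α j θ : ℂ)) +
      pr h1 h2 a (Z (sr (α j)) θ) * (pk k α j θ : ℂ) := c1.add c2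
  rw [e, Av_sub c3 (cm hcp (continuous_chi _)), Av_add c1 c2, hz, sub_zero, one_mul] at hf
  have p0 : AvR (pk k α j) = 1 := by
    have : ((AvR (pk k α j) : ℝ) : ℂ) = 1 := by
      rw [AvR_cast]; exact ((moments hG) j (by omega)).1
    exact_mod_cast this
  have hx : ‖Av fun θ => chi (-zc (α j)) θ * (pr h1 h2 x (Z (sr (α j)) θ) * (pk k α j θ : ℂ))‖ ≤ ‖x‖ * A := by
    refine (norm_Av_le (g := fun θ => (‖x‖ * A) * pk k α j θ)
      (continuous_const.mul (pk_continuous k α j)) fun θ => ?_).trans ?_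
    · rw [norm_mul, norm_chi, one_mul, norm_mul, Complex.norm_real, Real.norm_eq_abs,
        abs_of_nonneg (pk_nonneg k α j θ)]
      exact mul_le_mul_of_nonneg_right (pr_norm hS x (Z_mem hsph θ)) (pk_nonneg k α j θ)
    · rw [AvR_const_mul, p0, mul_one]
  rw [LL]
  have := norm_sub_norm_le (Av fun θ => pr h1 h2 a (Z (sr (α j)) θ) * (pk k α j θ : ℂ))
    (-(Av fun θ => chi (-zc (α j)) θ * (pr h1 h2 x (Z (sr (α j)) θ) * (pk k α j θ : ℂ))))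
  rw [sub_neg_eq_add, norm_neg, add_comm (Av fun θ => pr h1 h2 a (Z (sr (α j)) θ) * (pk k α j θ : ℂ))] at this
  linarith

theorem est_R (hG : Good k ε η₁ ν e (K + 1) α β) (hj : j ≤ K) (hS : Sol F h1 h2 A ζ)
    (hEc : Continuous E) (hE : ∀ θ, ‖F (Z (sr (α j)) θ) - (V x + chi (zc (α j)) θ • V a)‖ ≤ E θ)
    (hE1 : AvR (fun θ => E θ * pk k α j θ) ≤ e1) (hε : 0 < ε) (hε1 : ε < 1) {l : ℝ} (hl : 0 ≤ l)
    (hlε : l ≤ ε) :
    -((1 - ε) / (2 * ε) * l) - ‖x‖ * A - 2 * (ζ + A * e1) ≤ (RR k α h1 h2 ε l j a).re := by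
  have hPj := hG.pos j (by omega)
  have hsph := (sr_sphere hPj).le
  set R : ℝ × ℝ → ℝ := Rr k ε l (zc (α j)) with hR
  have hRb : ∀ θ, 0 ≤ R θ ∧ R θ ≤ 2 := fun θ => Rr_bound k hε hε1 hl hlε _ θ
  have hRc : Continuous R := Rr_continuous k ε l _
  have hRcc : Continuous fun θ => (R θ : ℂ) := TP_continuous (Rr_mem k ε l _)
  have hf := fbound hG hj hS hEc hE hE1 (w := fun θ => chi (-zc (α j)) θ * (R θ : ℂ)) zero_le_two
    (fun θ => by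
      rw [norm_mul, norm_chi, one_mul, Complex.norm_real, Real.norm_eq_abs, abs_of_nonneg (hRb θ).1]
      exact (hRb θ).2)
  have hcp : Continuous fun θ => (pk k α j θ : ℂ) := TP_continuous (pk_mem k α j)
  have hcx := (pr_hol hS.hol1 hS.hol2 x).continuous_comp hsph
  have hca := (pr_hol hS.hol1 hS.hol2 a).continuous_comp hsph
  have hg := hG.gap0 j (by omega)
  have hcc : ∀ θ, chi (-zc (α j)) θ * chi (zc (α j)) θ = 1 := fun θ => by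
    rw [← chi_add, neg_add_cancel, chi_zero]
  have e : (fun θ => chi (-zc (α j)) θ * (R θ : ℂ) * ((pr h1 h2 x (Z (sr (α j)) θ) + chi (zc (α j)) θ *
      pr h1 h2 a (Z (sr (α j)) θ) - 1) * (pk k α j θ : ℂ))) =
      fun θ => (chi (-zc (α j)) θ * (pr h1 h2 x (Z (sr (α j)) θ) * ((pk k α j θ : ℂ) * (R θ : ℂ))) +
        pr h1 h2 a (Z (sr (α j)) θ) * ((pk k α j θ : ℂ) * (R θ : ℂ))) -
        (pk k α j θ : ℂ) * chi (-zc (α j)) θ * (R θ : ℂ) := by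
    ext θ
    linear_combination (pr h1 h2 a (Z (sr (α j)) θ) * ((pk k α j θ : ℂ) * (R θ : ℂ))) * hcc θ
  have c1 : Continuous fun θ => chi (-zc (α j)) θ * (pr h1 h2 x (Z (sr (α j)) θ) *
      ((pk k α j θ : ℂ) * (R θ : ℂ))) := cm (continuous_chi _) (cm hcx (cm hcp hRcc))
  have c2 : Continuous fun θ => pr h1 h2 a (Z (sr (α j)) θ) * ((pk k α j θ : ℂ) * (R θ : ℂ)) :=
    cm hca (cm hcp hRcc)
  have c3 : Continuous fun θ => chi (-zc (α j)) θ * (pr h1 h2 x (Z (sr (α j)) θ) *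
      ((pk k α j θ : ℂ) * (R θ : ℂ))) +
      pr h1 h2 a (Z (sr (α j)) θ) * ((pk k α j θ : ℂ) * (R θ : ℂ)) := c1.add c2
  have c4 : Continuous fun θ => (pk k α j θ : ℂ) * chi (-zc (α j)) θ * (R θ : ℂ) :=
    cm (cm hcp (continuous_chi _)) hRcc
  have hz := Av_Rr_neg k hcp hg ε l
  rw [((moments hG) j (by omega)).1, mul_one] at hz
  rw [e, Av_sub c3 c4, Av_add c1 c2, hz] at hf
  have p0 : AvR (fun θ => pk k α j θ * R θ) = 1 := by
    have : ((AvR (fun θ => pk k α j θ * R θ) : ℝ) : ℂ) = 1 := by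
      rw [AvR_cast]
      simp only [ofReal_mul]
      rw [Av_Rr_gap k hcp hg, ((moments hG) j (by omega)).1]
    exact_mod_cast this
  have hx : ‖Av fun θ => chi (-zc (α j)) θ * (pr h1 h2 x (Z (sr (α j)) θ) *
      ((pk k α j θ : ℂ) * (R θ : ℂ)))‖ ≤ ‖x‖ * A := by
    refine (norm_Av_le (g := fun θ => (‖x‖ * A) * (pk k α j θ * R θ))
      (continuous_const.mul ((pk_continuous k α j).mul hRc)) fun θ => ?_).trans ?_
    · have hpR : 0 ≤ pk k α j θ * R θ := mul_nonneg (pk_nonneg k α j θ) (hRb θ).1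
      rw [norm_mul, norm_chi, one_mul, norm_mul, ← ofReal_mul, Complex.norm_real, Real.norm_eq_abs,
        abs_of_nonneg hpR]
      exact mul_le_mul_of_nonneg_right (pr_norm hS x (Z_mem hsph θ)) hpR
    · rw [AvR_const_mul, p0, mul_one]
  have r1 := Complex.abs_re_le_norm (Av fun θ => chi (-zc (α j)) θ * (pr h1 h2 x (Z (sr (α j)) θ) *
      ((pk k α j θ : ℂ) * (R θ : ℂ))))
  have r2 := Complex.abs_re_le_norm ((Av fun θ => chi (-zc (α j)) θ * (pr h1 h2 x (Z (sr (α j)) θ) *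
      ((pk k α j θ : ℂ) * (R θ : ℂ)))) + (Av fun θ => pr h1 h2 a (Z (sr (α j)) θ) *
      ((pk k α j θ : ℂ) * (R θ : ℂ))) - -(((1 - ε) / (2 * ε) * (k.κ 0 * l) : ℝ) : ℂ))
  rw [sub_neg_eq_add, Complex.add_re, Complex.add_re, Complex.ofReal_re] at r2
  rw [sub_neg_eq_add] at hf
  rw [abs_le] at r1 r2
  have hκ := (k.h01 0 (Finset.mem_range.2 k.hN))
  have h3 : (1 - ε) / (2 * ε) * (k.κ 0 * l) ≤ (1 - ε) / (2 * ε) * l := by
    apply mul_le_mul_of_nonneg_left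
    · calc k.κ 0 * l ≤ 1 * l := by gcongr; exact hκ.2
        _ = l := one_mul _
    · exact div_nonneg (by linarith) (by linarith)
  rw [RR]
  linarith [r1.2, r2.1]

end level

/-- The recursion. -/
theorem recursion {k : KD} {η₁ ν e A ζ : ℝ} {K : ℕ} {α : ℕ → ℕ × ℕ} {β : ℕ × ℕ}
    {h1 h2 : ℂ × ℂ → ℂ} {F : ℂ × ℂ → EuclideanSpace ℂ (Fin 2)} {j : ℕ}
    (hG : Good k P.ε η₁ ν e (K + 1) α β) (hj : j < K) (hS : Sol F h1 h2 A ζ) (hε : 0 < P.ε)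
    (hε1 : P.ε ≤ 1 / 2) (he : 0 ≤ e) (hν1 : ν ≤ 1) (ha : ‖P.a j‖ ≤ 1) :
    ∃ l : ℝ, 0 ≤ l ∧ l ≤ P.ε ∧
      (1 - P.ε) / (1 + P.ε) / (1 + P.ε ^ 2 * P.μ ^ 2) * ((LL k α h1 h2 (j + 1) (P.a (j + 1))).re +
        P.ε * P.μ ^ 2 * (LL k α h1 h2 (j + 1) (P.x (j + 1))).re) +
        2 * P.ε / (1 + P.ε) * (RR k α h1 h2 P.ε l j (P.a j)).re - 2 * (A * e) ≤
      (LL k α h1 h2 j (P.a j)).re := by
  have hPj := hG.pos j (by omega)
  have hPj1 := hG.pos (j + 1) (by omega)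
  have hs := (sr_sphere hPj).le
  have ht := (sr_sphere hPj1).le
  set l := mono (sr (α (j + 1))) (zc (α j)) / mono (sr (α j)) (zc (α j)) with hl
  have hlr : l = rat (α j) (sr (α (j + 1))) := rfl
  have hzt : Z (sr (α (j + 1))) 0 ∈ Bc := Z_mem ht 0
  have hl0 : 0 ≤ l := by
    rw [hlr]; exact rat_nonneg _ (sr_pos1 hPj1).le (sr_pos2 hPj1).le
  have hlε : l ≤ P.ε := by
    have h := hG.loc (j + 1) (by omega) _ hzt (by
      rw [lam_Z_sr hPj1, norm_chi]; exact hν1) j (by omega)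
    have h3 : ‖lam (α j) (Z (sr (α (j + 1))) 0)‖ = l := by
      rw [lam_Z, norm_mul, norm_chi, mul_one, Complex.norm_real, Real.norm_eq_abs, abs_of_nonneg hl0]
    rw [h3] at h
    exact h.2.le
  refine ⟨l, hl0, hlε, ?_⟩
  have hrel := level_rel k hε hε1 (sr_pos1 hPj) (sr_pos2 hPj) hs (sr_pos1 hPj1) (sr_pos2 hPj1) ht
    (pk_mem k α j) (α := α j) (e := e) (G := ‖P.a j‖ * A) hlε (hG.hgap j (by omega))
    (hG.ce j (by omega)) (pr_hol hS.hol1 hS.hol2 (P.a j)) (fun z hz => pr_norm hS _ hz) he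
  have e1 : (fun θ => pr h1 h2 (P.a j) (Z (sr (α (j + 1))) θ) * ((pk k α j θ : ℂ) *
      (Kr k (zc (α j)) θ : ℂ))) = fun θ => pr h1 h2 (P.a j) (Z (sr (α (j + 1))) θ) *
      (pk k α (j + 1) θ : ℂ) := by
    ext θ; rw [pk_succ, ofReal_mul]
  rw [e1] at hrel
  change ‖LL k α h1 h2 j (P.a j) - _ * LL k α h1 h2 (j + 1) (P.a j) -
    _ * RR k α h1 h2 P.ε l j (P.a j)‖ ≤ _ at hrel
  -- the vector identity
  have hden : (0 : ℝ) < 1 + P.ε ^ 2 * P.μ ^ 2 := by positivity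
  have hvec : ((1 + P.ε ^ 2 * P.μ ^ 2 : ℝ) : ℂ) * P.a j = P.a (j + 1) + ((P.ε * P.μ ^ 2 : ℝ) : ℂ) * P.x (j + 1) := by
    rw [PD.a, PD.a, PD.x, PD.x, pow_succ]
    push_cast
    linear_combination (-(P.x0 * (1 + (P.ε : ℂ) * P.μ * I) ^ j * (P.ε : ℂ) * (P.μ : ℂ) ^ 2)) * I_sq
  have hLL : LL k α h1 h2 (j + 1) (P.a j) = ((1 / (1 + P.ε ^ 2 * P.μ ^ 2) : ℝ) : ℂ) *
      (LL k α h1 h2 (j + 1) (P.a (j + 1)) + ((P.ε * P.μ ^ 2 : ℝ) : ℂ) * LL k α h1 h2 (j + 1) (P.x (j + 1))) := by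
    have hne : ((1 + P.ε ^ 2 * P.μ ^ 2 : ℝ) : ℂ) ≠ 0 := by exact_mod_cast hden.ne'
    have e2 : ∀ z, pr h1 h2 (P.a j) z = ((1 / (1 + P.ε ^ 2 * P.μ ^ 2) : ℝ) : ℂ) *
        (pr h1 h2 (P.a (j + 1)) z + ((P.ε * P.μ ^ 2 : ℝ) : ℂ) * pr h1 h2 (P.x (j + 1)) z) := by
      intro z
      have h3 := congrArg (fun c => pr h1 h2 c z) hvec
      rw [pr_real_mul, pr_add, pr_real_mul] at h3
      rw [← h3, ← mul_assoc, ← ofReal_mul]
      have : 1 / (1 + P.ε ^ 2 * P.μ ^ 2) * (1 + P.ε ^ 2 * P.μ ^ 2) = 1 := by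
        rw [one_div, inv_mul_cancel₀ hden.ne']
      rw [this, ofReal_one, one_mul]
    have hcp : Continuous fun θ => (pk k α (j + 1) θ : ℂ) := TP_continuous (pk_mem k α (j + 1))
    have hca := (pr_hol hS.hol1 hS.hol2 (P.a (j + 1))).continuous_comp ht
    have hcx := (pr_hol hS.hol1 hS.hol2 (P.x (j + 1))).continuous_comp ht
    rw [LL, LL, LL, ← Av_const_mul, ← Av_add (cm hca hcp) (cm continuous_const (cm hcx hcp)), ← Av_const_mul]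
    congr 1
    ext θ
    rw [e2]; ring
  rw [hLL] at hrel
  have r := (Complex.abs_re_le_norm _).trans hrel
  rw [abs_le] at r
  have r1 := r.1
  simp only [Complex.sub_re, Complex.re_ofReal_mul, Complex.add_re] at r1
  have hAe : 2 * (‖P.a j‖ * A * e) ≤ 2 * (A * e) := by
    have : ‖P.a j‖ * (A * e) ≤ 1 * (A * e) := mul_le_mul_of_nonneg_right ha (mul_nonneg hS.A0 he)
    linarith
  have e5 : (1 - P.ε) / (1 + P.ε) / (1 + P.ε ^ 2 * P.μ ^ 2) = (1 - P.ε) / (1 + P.ε) * (1 / (1 + P.ε ^ 2 * P.μ ^ 2)) := by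
    rw [div_eq_mul_one_div ((1 - P.ε) / (1 + P.ε))]
  rw [e5]
  linarith

end Pool.Agent.Lib.MP_ca0fc2_an.Cubic
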