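import Pool.Agent.Lib.MP_ca0fc2_an.CubLevel

/-!
The lower bound on the ball of the space of pairs of complex numbers.
-/

open MeasureTheory Complex Set Filter Topology

namespace Pool.Agent.Lib.MP_ca0fc2_an.Cubic

theorem numeric {ε μ A q R e : ℝ} {K : ℕ} {Y : ℕ → ℝ} (hε : 0 < ε) (hεμ : ε * μ ^ 2 ≤ 1 / 100)
    (hμ : 100 ≤ μ ^ 2) (hq0 : 0 ≤ q) (hq : q ≤ 1 / 100) (hRA : 0 ≤ R * A) (he : 2 * (A * e) ≤ ε)
    (hK : 1 ≤ K * ε) (hY : ∀ j ≤ K, |Y j| ≤ R * A + q)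
    (hrec : ∀ j < K, (1 - ε) / (1 + ε) / (1 + ε ^ 2 * μ ^ 2) * (Y (j + 1) + ε * μ ^ 2 * (1 - q)) -
      ε - 2 * ε * (R * A + 2 * q) - 2 * (A * e) ≤ Y j) : μ ^ 2 / 10 ≤ R * A := by
  by_contra hcon
  push Not at hcon
  have hε1 : ε ≤ 1 / 10000 := by nlinarith
  set ϑ := (1 - ε) / (1 + ε) / (1 + ε ^ 2 * μ ^ 2) with hϑ
  set y := ε ^ 2 * μ ^ 2 with hy
  have hy0 : 0 ≤ y := by positivity
  have hy1 : y ≤ ε / 100 := by
    have : y = ε * (ε * μ ^ 2) := by rw [hy]; ring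
    rw [this]; nlinarith
  have a1 : 1 - 2 * ε ≤ (1 - ε) / (1 + ε) := by
    rw [le_div_iff₀ (by linarith)]; nlinarith
  have a2 : (1 - ε) / (1 + ε) ≤ 1 := by
    rw [div_le_one (by linarith)]; linarith
  have a3 : 1 - 2 * ε - y ≤ ϑ := by
    rw [hϑ, le_div_iff₀ (by linarith)]
    nlinarith
  have a4 : ϑ ≤ 1 := by
    rw [hϑ, div_le_one (by linarith)]; linarith
  have a5 : 99 / 100 ≤ ϑ := by linarith
  have step : ∀ j < K, ε * μ ^ 2 / 2 ≤ Y j - Y (j + 1) := by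
    intro j hj
    have h1 := hrec j hj
    have h2 := hY (j + 1) hj
    rw [abs_le] at h2
    have h3 : Y (j + 1) - (1 - ϑ) * (R * A + q) ≤ ϑ * Y (j + 1) := by nlinarith [h2.2]
    have h4 : (1 - ϑ) * (R * A + q) ≤ (201 / 100 * ε) * (R * A + q) := by
      apply mul_le_mul_of_nonneg_right _ (by linarith)
      linarith
    have hm0 : 0 ≤ ε * μ ^ 2 := by positivity
    have h5 : 98 / 100 * (ε * μ ^ 2) ≤ ϑ * (ε * μ ^ 2 * (1 - q)) := by
      have h6 : (98 / 100 : ℝ) ≤ ϑ * (1 - q) := by nlinarith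
      nlinarith
    have h7 : ε * (R * A) ≤ ε * (μ ^ 2 / 10) := by nlinarith
    have h8 : ε * q ≤ ε * (1 / 100) := by nlinarith
    have h9 : ε * 100 ≤ ε * μ ^ 2 := by nlinarith
    nlinarith
  have sum : ∀ j ≤ K, (j : ℝ) * (ε * μ ^ 2 / 2) ≤ Y 0 - Y j := by
    intro j
    induction j with
    | zero => intro _; simp
    | succ j ih =>
      intro hj
      have h1 := ih (by omega)
      have h2 := step j (by omega)
      push_cast
      linarith
  have h1 := sum K le_rfl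
  have h2 := hY 0 (Nat.zero_le _)
  have h3 := hY K le_rfl
  rw [abs_le] at h2 h3
  have h4 : μ ^ 2 / 2 ≤ K * (ε * μ ^ 2 / 2) := by nlinarith [sq_nonneg μ]
  linarith [h2.2, h3.1]

/-- Polynomial functions of two variables. -/
def IsPoly (f : ℂ × ℂ → ℂ) : Prop :=
  ∃ p : MvPolynomial (Fin 2) ℂ, ∀ z : ℂ × ℂ, MvPolynomial.eval ![z.1, z.2] p = f z

theorem IsPoly.add {f g : ℂ × ℂ → ℂ} (hf : IsPoly f) (hg : IsPoly g) : IsPoly fun z => f z + g z := by
  obtain ⟨p, hp⟩ := hf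
  obtain ⟨q, hq⟩ := hg
  exact ⟨p + q, fun z => by rw [map_add, hp, hq]⟩

theorem IsPoly.mul {f g : ℂ × ℂ → ℂ} (hf : IsPoly f) (hg : IsPoly g) : IsPoly fun z => f z * g z := by
  obtain ⟨p, hp⟩ := hf
  obtain ⟨q, hq⟩ := hg
  exact ⟨p * q, fun z => by rw [map_mul, hp, hq]⟩

theorem IsPoly.pow {f : ℂ × ℂ → ℂ} (hf : IsPoly f) (n : ℕ) : IsPoly fun z => f z ^ n := by
  obtain ⟨p, hp⟩ := hf
  exact ⟨p ^ n, fun z => by rw [map_pow, hp]⟩

theorem isPoly_const (c : ℂ) : IsPoly fun _ => c := ⟨MvPolynomial.C c, fun z => by simp⟩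

theorem isPoly_fst : IsPoly fun z => z.1 := ⟨MvPolynomial.X 0, fun z => by simp⟩

theorem isPoly_snd : IsPoly fun z => z.2 := ⟨MvPolynomial.X 1, fun z => by simp⟩

theorem isPoly_sum {ι : Type*} (s : Finset ι) {f : ι → ℂ × ℂ → ℂ} (hf : ∀ i, IsPoly (f i)) :
    IsPoly fun z => ∑ i ∈ s, f i z := by
  choose p hp using hf
  exact ⟨∑ i ∈ s, p i, fun z => by rw [map_sum]; exact Finset.sum_congr rfl fun i _ => hp i z⟩

theorem isPoly_prod {ι : Type*} (s : Finset ι) {f : ι → ℂ × ℂ → ℂ} (hf : ∀ i, IsPoly (f i)) :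
    IsPoly fun z => ∏ i ∈ s, f i z := by
  choose p hp using hf
  exact ⟨∏ i ∈ s, p i, fun z => by rw [map_prod]; exact Finset.prod_congr rfl fun i _ => hp i z⟩

theorem isPoly_lam (α : ℕ × ℕ) : IsPoly (lam α) := by
  have e : lam α = fun z => (z.1 * ((sr α).1 : ℂ)⁻¹) ^ α.1 * (z.2 * ((sr α).2 : ℂ)⁻¹) ^ α.2 := by
    ext z; rw [lam, div_eq_mul_inv, div_eq_mul_inv]
  rw [e]
  exact ((isPoly_fst.mul (isPoly_const _)).pow _).mul ((isPoly_snd.mul (isPoly_const _)).pow _)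

theorem isPoly_uu (P : PD) (α : ℕ → ℕ × ℕ) (i : ℕ) : IsPoly fun z => uu P α z i := by
  have e : (fun z => uu P α z i) = fun z => lam (α i) z * (P.ε : ℂ)⁻¹ := by
    ext z; rw [uu, div_eq_mul_inv]
  rw [e]
  exact (isPoly_lam _).mul (isPoly_const _)

theorem isPoly_QQ (P : PD) (m : ℕ → ℕ) (α : ℕ → ℕ × ℕ) (k : ℕ) : IsPoly fun z => QQ m (uu P α z) k := by
  have e : (fun z => QQ m (uu P α z) k) = fun z => (∏ i ∈ Finset.range k, ((1 + uu P α z i) * 2⁻¹)) ^ m k := by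
    ext z; rw [QQ, bb]; simp only [div_eq_mul_inv]
  rw [e]
  exact (isPoly_prod _ fun i => ((isPoly_const 1).add (isPoly_uu P α i)).mul (isPoly_const _)).pow _

theorem isPoly_FF (P : PD) (m : ℕ → ℕ) (α : ℕ → ℕ × ℕ) (K : ℕ) (i : Fin 2) :
    IsPoly fun z => FF P m α K z i := by
  have e : (fun z => FF P m α K z i) = fun z => V P.x0 i + ∑ j ∈ Finset.range (K + 1),
      ((P.ε : ℂ) * uu P α z j * QQ m (uu P α z) j) * V (P.a j) i := by
    ext z
    rw [FF, XX]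
    simp only [PiLp.add_apply, WithLp.ofLp_sum, Finset.sum_apply, PiLp.smul_apply, smul_eq_mul]
  rw [e]
  exact (isPoly_const _).add (isPoly_sum _ fun j =>
    (((isPoly_const _).mul (isPoly_uu P α j)).mul (isPoly_QQ P m α j)).mul (isPoly_const _))

theorem differentiable_eval (p : MvPolynomial (Fin 2) ℂ) :
    Differentiable ℂ fun z : ℂ × ℂ => MvPolynomial.eval ![z.1, z.2] p := by
  induction p using MvPolynomial.induction_on with
  | C a => simp
  | add p q hp hq =>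
    simp only [map_add]
    exact hp.add hq
  | mul_X p i hp =>
    simp only [map_mul, MvPolynomial.eval_X]
    refine hp.mul ?_
    fin_cases i
    · simp
    · simp

theorem IsPoly.differentiable {f : ℂ × ℂ → ℂ} (hf : IsPoly f) : Differentiable ℂ f := by
  obtain ⟨p, hp⟩ := hf
  have : f = fun z => MvPolynomial.eval ![z.1, z.2] p := by ext z; rw [hp]
  rw [this]
  exact differentiable_eval p

/-- The open ball. -/
def Bo : Set (ℂ × ℂ) := {z | ‖z.1‖ ^ 2 + ‖z.2‖ ^ 2 < 1}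

theorem isOpen_Bo : IsOpen Bo := isOpen_lt (by fun_prop) (by fun_prop)

/-- From exact solutions on the open ball to approximate solutions near the closed ball. -/
theorem dilate {F : ℂ × ℂ → EuclideanSpace ℂ (Fin 2)} (hF : Continuous F) {h1 h2 : ℂ × ℂ → ℂ}
    (H1 : DifferentiableOn ℂ h1 Bo) (H2 : DifferentiableOn ℂ h2 Bo) {A : ℝ} (hA : 0 ≤ A)
    (hb : ∀ z ∈ Bo, ‖h1 z‖ ^ 2 + ‖h2 z‖ ^ 2 ≤ A ^ 2)
    (he : ∀ z ∈ Bo, F z 0 * h1 z + F z 1 * h2 z = 1) {ω : ℝ} (hω : 0 < ω) :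
    ∃ g1 g2 : ℂ × ℂ → ℂ, Sol F g1 g2 A (ω * A) := by
  obtain ⟨d, hd, hu⟩ := Metric.uniformContinuousOn_iff.1
    (isCompact_Bc.uniformContinuousOn_of_continuous hF.continuousOn) ω hω
  set r : ℝ := max (1 - d / 2) (1 / 2) with hr
  have hr0 : 0 < r := lt_of_lt_of_le (by norm_num) (le_max_right _ _)
  have hr1 : r < 1 := max_lt (by linarith) (by norm_num)
  have hrd : 1 - r < d := by
    have := le_max_left (1 - d / 2) (1 / 2 : ℝ)
    rw [← hr] at this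
    linarith
  have hmem : ∀ z ∈ Bc, ((r : ℂ) * z.1, (r : ℂ) * z.2) ∈ Bo := by
    intro z hz
    have hz' : ‖z.1‖ ^ 2 + ‖z.2‖ ^ 2 ≤ 1 := hz
    rw [Bo, mem_ofPred_eq]
    simp only [norm_mul, Complex.norm_real, Real.norm_eq_abs, abs_of_pos hr0, mul_pow]
    have : r ^ 2 < 1 := by nlinarith
    nlinarith [sq_nonneg ‖z.1‖, sq_nonneg ‖z.2‖]
  set φ : ℂ × ℂ → ℂ × ℂ := fun z => ((r : ℂ) * z.1, (r : ℂ) * z.2) with hφ
  have hφd : Differentiable ℂ φ := by simp only [hφ]; fun_prop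
  have hU : IsOpen (φ ⁻¹' Bo) := isOpen_Bo.preimage hφd.continuous
  have hBU : Bc ⊆ φ ⁻¹' Bo := fun z hz => hmem z hz
  refine ⟨fun z => h1 (φ z), fun z => h2 (φ z), ⟨φ ⁻¹' Bo, hU, hBU, H1.comp hφd.differentiableOn fun z hz => hz⟩,
    ⟨φ ⁻¹' Bo, hU, hBU, H2.comp hφd.differentiableOn fun z hz => hz⟩, hA, fun z hz => hb _ (hmem z hz), ?_⟩
  intro z hz
  have h3 := he _ (hmem z hz)
  have hz' : ‖z.1‖ ^ 2 + ‖z.2‖ ^ 2 ≤ 1 := hz
  have hφB : φ z ∈ Bc := by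
    have := hmem z hz
    rw [Bo, mem_ofPred_eq] at this
    rw [Bc, mem_ofPred_eq]
    exact this.le
  have hdist : dist z (φ z) < d := by
    rw [Prod.dist_eq]
    have e1 : ∀ w : ℂ, ‖w‖ ≤ 1 → dist w ((r : ℂ) * w) ≤ 1 - r := by
      intro w hw
      rw [dist_eq_norm]
      have : w - (r : ℂ) * w = ((1 - r : ℝ) : ℂ) * w := by push_cast; ring
      rw [this, norm_mul, Complex.norm_real, Real.norm_eq_abs, abs_of_pos (by linarith)]
      nlinarith
    have n1 := norm_nonneg z.1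
    have n2 := norm_nonneg z.2
    refine lt_of_le_of_lt (max_le (e1 z.1 (by nlinarith)) (e1 z.2 (by nlinarith))) hrd
  have hFd := hu z hz (φ z) hφB hdist
  rw [dist_eq_norm] at hFd
  have e : F z 0 * h1 (φ z) + F z 1 * h2 (φ z) - 1 =
      (F z - F (φ z)) 0 * h1 (φ z) + (F z - F (φ z)) 1 * h2 (φ z) := by
    have h3' : F (φ z) 0 * h1 (φ z) + F (φ z) 1 * h2 (φ z) = 1 := h3
    simp only [PiLp.sub_apply]
    linear_combination h3'
  rw [e]
  refine (pair_norm hA (hb _ (hmem z hz))).trans ?_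
  rw [← norm_sq_two, Real.sqrt_sq (norm_nonneg _)]
  exact mul_le_mul_of_nonneg_right hFd.le hA

theorem nl_mu {δ : ℝ} (hδ : 0 < δ) (hδ1 : δ ≤ 1 / 20) : 100 ≤ 1 / (2 * δ) ^ 2 := by
  rw [le_div_iff₀ (by positivity)]
  nlinarith

theorem nl_eps {ε μ : ℝ} (h : ε * μ ^ 2 = 1 / 100) (hε : 0 < ε) (hμ : 100 ≤ μ ^ 2) : ε ≤ 1 / 10000 := by
  nlinarith

theorem nl_K {ε : ℝ} (hε : 0 < ε) (hε1 : ε ≤ 1 / 10000) :
    ∃ K : ℕ, 1 ≤ K * ε ∧ ((K : ℝ) + 1) * ε ≤ 2 := by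
  refine ⟨⌈1 / ε⌉₊, ?_, ?_⟩
  · have := Nat.le_ceil (1 / ε)
    rw [div_le_iff₀ hε] at this
    exact this
  · have := Nat.ceil_lt_add_one (show 0 ≤ 1 / ε by positivity)
    have h2 : (⌈1 / ε⌉₊ : ℝ) * ε < (1 / ε + 1) * ε := by gcongr
    have h3 : (1 / ε + 1) * ε = 1 + ε := by field_simp
    linarith [add_mul (⌈1 / ε⌉₊ : ℝ) 1 ε]

theorem nl_j {ε : ℝ} {j K : ℕ} (hε : 0 < ε) (hj : j ≤ K) (hK : ((K : ℝ) + 1) * ε ≤ 2) :
    (j : ℝ) * (ε / 100) ≤ 1 / 50 := by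
  have : (j : ℝ) ≤ K := by exact_mod_cast hj
  nlinarith

theorem nl_exp : Real.exp (1 / 50 : ℝ) ≤ 50 / 49 := by
  have h7 : (1 : ℝ) - 1 / 50 ≤ Real.exp (-(1 / 50)) := by
    have := Real.add_one_le_exp (-(1 / 50) : ℝ)
    linarith
  rw [Real.exp_neg] at h7
  have h8 : (0 : ℝ) < Real.exp (1 / 50) := Real.exp_pos _
  have h9 : (1 - 1 / 50 : ℝ) * Real.exp (1 / 50) ≤ 1 := by
    calc (1 - 1 / 50 : ℝ) * Real.exp (1 / 50) ≤ (Real.exp (1 / 50))⁻¹ * Real.exp (1 / 50) := by gcongr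
      _ = 1 := inv_mul_cancel₀ h8.ne'
  linarith

theorem nl_x {δ y : ℝ} (h : y ≤ 50 / 49) : (3 / 2 * δ) ^ 2 * y ≤ (38 / 25 * δ) ^ 2 := by
  have h1 : (3 / 2 * δ) ^ 2 * y ≤ (3 / 2 * δ) ^ 2 * (50 / 49) := by gcongr
  nlinarith [sq_nonneg δ]

theorem nl_cube {δ : ℝ} (hδ : 0 < δ) (hδ1 : δ ≤ 1 / 20) : δ ^ 3 ≤ δ / 400 ∧ δ ^ 2 ≤ δ / 20 ∧ δ ^ 3 < 1 := by
  have h1 : δ ^ 2 ≤ δ / 20 := by nlinarith
  have h2 : δ ^ 3 ≤ δ / 400 := by
    have : δ ^ 3 = δ * δ ^ 2 := by ring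
    rw [this]; nlinarith
  exact ⟨h2, h1, by linarith⟩

theorem nl_t {δ c : ℝ} (hδ : 0 < δ) (hδ1 : δ ≤ 1 / 20) (hc : 0 ≤ c) :
    δ ^ 3 / (20 * (c + 1)) < 1 ∧ c * (δ ^ 3 / (20 * (c + 1))) ≤ δ ^ 3 / 20 := by
  have h1 := (nl_cube hδ hδ1).2.2
  have h0 : 0 < δ ^ 3 := by positivity
  constructor
  · rw [div_lt_one (by positivity)]
    linarith
  · have h3 : c * (δ ^ 3 / (20 * (c + 1))) = δ ^ 3 / 20 * (c / (c + 1)) := by field_simp
    rw [h3]
    have h4 : c / (c + 1) ≤ 1 := by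
      rw [div_le_one (by positivity)]; linarith
    calc δ ^ 3 / 20 * (c / (c + 1)) ≤ δ ^ 3 / 20 * 1 := by gcongr
      _ = _ := mul_one _

theorem nl_nu {η G c : ℝ} (hη : 0 < η) (hG : 0 ≤ G) (hc : 0 < c) :
    c * (min 1 (η / (c * (G + 1))) * G) ≤ η := by
  have h1 : min 1 (η / (c * (G + 1))) ≤ η / (c * (G + 1)) := min_le_right _ _
  have h0 : 0 ≤ min 1 (η / (c * (G + 1))) := le_min zero_le_one (by positivity)
  have h2 : 0 < c * (G + 1) := by positivity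
  rw [le_div_iff₀ h2] at h1
  set ν := min 1 (η / (c * (G + 1)))
  have h4 : 0 ≤ ν * c := by positivity
  nlinarith

theorem nl_A {δ A : ℝ} (hδ : 0 < δ) (h : A < 1 / (64 * δ ^ 3)) : A * δ ^ 3 ≤ 1 / 64 := by
  rw [lt_div_iff₀ (by positivity)] at h
  linarith

theorem nl_q {D A e1 : ℝ} (hA : 0 ≤ A) (h : A * D ≤ 1 / 64) (he : e1 ≤ D / 5) :
    D / 5 * A + A * e1 ≤ 1 / 100 := by
  have : A * e1 ≤ A * (D / 5) := by gcongr
  linarith

theorem nl_fin {δ A : ℝ} (hδ : 0 < δ) (h : A * δ ^ 3 ≤ 1 / 64) (h1 : A < 1 / (64 * δ ^ 3))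
    (h2 : 1 / (40 * δ ^ 2) ≤ 38 / 25 * δ * A) : False := by
  rw [div_le_iff₀ (by positivity)] at h2
  have e : 38 / 25 * δ * A * (40 * δ ^ 2) = 304 / 5 * (A * δ ^ 3) := by ring
  rw [e] at h2
  linarith

/-- The main theorem on the ball of the space of pairs. -/
theorem main2 {δ : ℝ} (hδ : 0 < δ) (hδ1 : δ ≤ 1 / 20) :
    ∃ F : ℂ × ℂ → EuclideanSpace ℂ (Fin 2), (∀ i, IsPoly fun z => F z i) ∧
      (∀ z ∈ Bc, δ ≤ ‖F z‖ ∧ ‖F z‖ ≤ 1) ∧
      ∀ h1 h2 : ℂ × ℂ → ℂ, DifferentiableOn ℂ h1 Bo → DifferentiableOn ℂ h2 Bo →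
        (∀ z ∈ Bo, F z 0 * h1 z + F z 1 * h2 z = 1) → ∀ A : ℝ, 0 ≤ A →
        (∀ z ∈ Bo, ‖h1 z‖ ^ 2 + ‖h2 z‖ ^ 2 ≤ A ^ 2) → 1 / (64 * δ ^ 3) ≤ A := by
  -- parameters
  set P : PD := ⟨((3 / 2 * δ : ℝ) : ℂ), δ ^ 2 / 25, 1 / (2 * δ)⟩ with hP
  have eε : P.ε = δ ^ 2 / 25 := rfl
  have eμ : P.μ = 1 / (2 * δ) := rfl
  have ex0 : ‖P.x0‖ = 3 / 2 * δ := by
    have : P.x0 = ((3 / 2 * δ : ℝ) : ℂ) := rfl
    rw [this, Complex.norm_real, Real.norm_eq_abs, abs_of_pos (by positivity)]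
  have hε : 0 < P.ε := by rw [eε]; positivity
  have hεμ : P.ε * P.μ ^ 2 = 1 / 100 := by
    rw [eε, eμ]; field_simp; norm_num
  have hμ : 100 ≤ P.μ ^ 2 := by
    rw [eμ, div_pow, one_pow]
    exact nl_mu hδ hδ1
  have hε1 : P.ε ≤ 1 / 10000 := nl_eps hεμ hε hμ
  obtain ⟨K, hK1, hK2⟩ := nl_K hε hε1
  have hx : ∀ j ≤ K, ‖P.x j‖ ≤ 38 / 25 * δ := by
    intro j hj
    have h1 := P.norm_x j
    rw [ex0] at h1
    have h2 : P.ε ^ 2 * P.μ ^ 2 = P.ε / 100 := by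
      have : P.ε ^ 2 * P.μ ^ 2 = P.ε * (P.ε * P.μ ^ 2) := by ring
      rw [this, hεμ]; ring
    rw [h2] at h1
    have h3 : (1 + P.ε / 100) ^ j ≤ Real.exp (j * (P.ε / 100)) := by
      rw [Real.exp_nat_mul]
      gcongr
      linarith [Real.add_one_le_exp (P.ε / 100)]
    have h4 : (j : ℝ) * (P.ε / 100) ≤ 1 / 50 := nl_j hε hj hK2
    have h5 : Real.exp (j * (P.ε / 100)) ≤ Real.exp (1 / 50) := Real.exp_le_exp.2 h4
    have h10 : ‖P.x j‖ ^ 2 ≤ (38 / 25 * δ) ^ 2 := by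
      rw [h1]
      exact nl_x (h3.trans (h5.trans nl_exp))
    exact (sq_le_sq₀ (norm_nonneg _) (by positivity)).1 h10
  have ha : ∀ j ≤ K, ‖P.a j‖ ≤ 19 / 25 := by
    intro j hj
    rw [PD.a, norm_mul, norm_mul, Complex.norm_I, one_mul, Complex.norm_real, Real.norm_eq_abs, eμ,
      abs_of_pos (by positivity)]
    calc 1 / (2 * δ) * ‖P.x j‖ ≤ 1 / (2 * δ) * (38 / 25 * δ) := by
          gcongr
          exact hx j hj
      _ = 19 / 25 := by field_simp; norm_num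
  have ha1 : ∀ j ≤ K, ‖P.a j‖ ≤ 1 := fun j hj => (ha j hj).trans (by norm_num)
  -- tolerances
  set η : ℝ := δ ^ 3 / 10 with hη
  have hη0 : 0 < η := by positivity
  obtain ⟨m, hm⟩ := exists_powers P hη0 K fun j hj => by
    rw [abs_of_pos hε]
    calc P.ε * ‖P.a j‖ ≤ 1 * 1 := by
          gcongr
          · linarith
          · exact ha1 j hj
      _ = 1 := one_mul _
  set C : ℝ := ∑ i ∈ Finset.range (K + 1), (1 + (m i : ℝ)) with hC
  have hC0 : 0 ≤ C := Finset.sum_nonneg fun _ _ => by positivity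
  set t : ℝ := δ ^ 3 / (20 * (C * (K + 1) + 1)) with ht
  have ht0 : 0 < t := by positivity
  obtain ⟨ht1, hCt'⟩ := nl_t hδ hδ1 (show 0 ≤ C * (K + 1) by positivity)
  rw [← ht] at ht1 hCt'
  have hCt : C * ((K + 1) * t) ≤ δ ^ 3 / 20 := by
    rw [← mul_assoc]; exact hCt'
  obtain ⟨N, κ, hN, h01, hκ, hnn⟩ := kernel_exists (η := t ^ 2 / 2) (by positivity)
  set k : KD := ⟨N, κ, hN, h01, hnn⟩ with hk
  have hκ' : 1 - t ^ 2 / 2 ≤ k.κ 0 := hκ
  have hGG0 : 0 ≤ GG P m K := Finset.sum_nonneg fun j _ => by positivity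
  set ν : ℝ := min 1 (η / ((K + 1) * (GG P m K + 1))) with hν
  have hν0 : 0 < ν := lt_min one_pos (by positivity)
  have hν1 : ν ≤ 1 := min_le_left _ _
  have hνη : (K + 1) * (ν * GG P m K) ≤ η := nl_nu hη0 hGG0 (by positivity)
  set e : ℝ := P.ε * δ ^ 3 with hedef
  have he0 : 0 < e := by positivity
  obtain ⟨α, β, hG⟩ := good_exists k hε (by linarith : P.ε < 1) ht0 ht1 hν0 he0 (K + 1)
  refine ⟨FF P m α K, isPoly_FF P m α K, ?_, ?_⟩
  · intro z hz
    obtain ⟨b1, b2⟩ := FF_bounds P hG hη0 hε (by linarith) ha1 hx hK2 hm hν0 hνη ha hz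
    rw [ex0] at b1
    obtain ⟨h3, h4, -⟩ := nl_cube hδ hδ1
    rw [eε] at b1 b2
    constructor <;> linarith
  · intro h1 h2 H1 H2 hsol A hA hbd
    by_contra hcon
    push Not at hcon
    have hFc : Continuous (FF P m α K) :=
      (PiLp.continuous_toLp 2 (fun _ : Fin 2 => ℂ)).comp (continuous_pi fun i =>
        (isPoly_FF P m α K i).differentiable.continuous)
    obtain ⟨g1, g2, hS⟩ := dilate hFc H1 H2 hA hbd hsol (ω := δ ^ 3 / 5) (by positivity)
    have hδ3 : 0 < δ ^ 3 := by positivity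
    have hA1 : A * δ ^ 3 ≤ 1 / 64 := nl_A hδ hcon
    set e1 : ℝ := C * ((K + 1) * (t + t)) + η with he1
    set q : ℝ := δ ^ 3 / 5 * A + A * e1 with hq
    have he1b : e1 ≤ δ ^ 3 / 5 := by
      have h20 : C * ((K + 1) * (t + t)) = 2 * (C * ((K + 1) * t)) := by ring
      rw [he1, hη, h20]; linarith
    have he10 : 0 ≤ e1 := by positivity
    have hq0 : 0 ≤ q := by positivity
    have hq1 : q ≤ 1 / 100 := nl_q hA hA1 he1b
    -- the error functions
    have hlev : ∀ j ≤ K, ∃ E : ℝ × ℝ → ℝ, Continuous E ∧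
        (∀ θ, ‖FF P m α K (Z (sr (α j)) θ) - (V (P.x j) + chi (zc (α j)) θ • V (P.a j))‖ ≤ E θ) ∧
        AvR (fun θ => E θ * pk k α j θ) ≤ e1 := by
      intro j hj
      refine ⟨fun θ => C * ∑ i ∈ Finset.range j, (‖chi (zc (α i)) θ - 1‖ + t) + η, ?_, ?_, ?_⟩
      · refine (continuous_const.mul (continuous_finsetSum _ fun i _ => ?_)).add continuous_const
        exact ((continuous_chi _).sub continuous_const).norm.add continuous_const
      · intro θ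
        exact FF_torus P hG hε (by linarith) ha1 ht0 hν0 hν1 hνη hj θ
      · have hpc := pk_continuous k α j
        have p0 : AvR (pk k α j) = 1 := by
          have : ((AvR (pk k α j) : ℝ) : ℂ) = 1 := by
            rw [AvR_cast]; exact ((moments hG) j (by omega)).1
          exact_mod_cast this
        have hci : ∀ i, Continuous fun θ => ‖chi (zc (α i)) θ - 1‖ * pk k α j θ := fun i =>
          ((continuous_chi _).sub continuous_const).norm.mul hpc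
        have hci2 : ∀ i, Continuous fun θ => ‖chi (zc (α i)) θ - 1‖ * pk k α j θ + t * pk k α j θ :=
          fun i => (hci i).add (continuous_const.mul hpc)
        have ee : (fun θ => (C * ∑ i ∈ Finset.range j, (‖chi (zc (α i)) θ - 1‖ + t) + η) * pk k α j θ) =
            fun θ => C * (∑ i ∈ Finset.range j, (‖chi (zc (α i)) θ - 1‖ * pk k α j θ + t * pk k α j θ)) +
              η * pk k α j θ := by
          ext θ
          rw [add_mul, mul_assoc]
          congr 2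
          rw [Finset.sum_mul]
          exact Finset.sum_congr rfl fun i _ => by ring
        have hcs := continuous_finsetSum (Finset.range j) fun i _ => hci2 i
        have c1 : Continuous fun θ => C * (∑ i ∈ Finset.range j,
            (‖chi (zc (α i)) θ - 1‖ * pk k α j θ + t * pk k α j θ)) := continuous_const.mul hcs
        have c2 : Continuous fun θ => η * pk k α j θ := continuous_const.mul hpc
        have c3 : Continuous fun θ => t * pk k α j θ := continuous_const.mul hpc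
        rw [ee, AvR_add c1 c2, AvR_const_mul, AvR_const_mul, p0, mul_one,
          AvR_sum _ fun i _ => hci2 i, he1]
        have hsum : ∑ i ∈ Finset.range j, AvR (fun θ => ‖chi (zc (α i)) θ - 1‖ * pk k α j θ + t * pk k α j θ) ≤
            (K + 1) * (t + t) := by
          calc _ ≤ ∑ i ∈ Finset.range j, (t + t) := by
                refine Finset.sum_le_sum fun i hi => ?_
                rw [AvR_add (hci i) c3, AvR_const_mul, p0, mul_one]
                have := conc ht0 hκ' hG (j := j) (by omega) (Finset.mem_range.1 hi)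
                linarith
            _ = j * (t + t) := by rw [Finset.sum_const, Finset.card_range, nsmul_eq_mul]
            _ ≤ _ := by
                gcongr
                have : (j : ℝ) ≤ K := by exact_mod_cast hj
                linarith
        gcongr
    choose! E hEc hE hE1 using hlev
    have hX : ∀ j ≤ K, ‖LL k α g1 g2 j (P.x j) - 1‖ ≤ q := fun j hj =>
      est_x hG hj hS (hEc j hj) (hE j hj) (hE1 j hj)
    have hY : ∀ j ≤ K, |(LL k α g1 g2 j (P.a j)).re| ≤ 38 / 25 * δ * A + q := fun j hj => by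
      have h5 := est_a hG hj hS (hEc j hj) (hE j hj) (hE1 j hj)
      have h6 := Complex.abs_re_le_norm (LL k α g1 g2 j (P.a j))
      have h7 : ‖P.x j‖ * A ≤ 38 / 25 * δ * A := by gcongr; exact hx j hj
      rw [← hq] at h5
      linarith
    have hnum := numeric (ε := P.ε) (μ := P.μ) (A := A) (q := q) (R := 38 / 25 * δ) (e := e) (K := K)
      (Y := fun j => (LL k α g1 g2 j (P.a j)).re) hε hεμ.le hμ hq0 hq1 (by positivity) (by
        rw [hedef]
        have : 2 * (A * (P.ε * δ ^ 3)) = P.ε * (2 * (A * δ ^ 3)) := by ring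
        rw [this]
        have h21 : 2 * (A * δ ^ 3) ≤ 1 := by linarith
        calc P.ε * (2 * (A * δ ^ 3)) ≤ P.ε * 1 := by gcongr
          _ = P.ε := mul_one _) hK1 hY (by
        intro j hj
        obtain ⟨l, hl0, hl1, hrec⟩ := recursion P hG hj hS hε (by linarith) he0.le hν1 (ha1 j hj.le)
        have h5 := est_R hG hj.le hS (hEc j hj.le) (hE j hj.le) (hE1 j hj.le) hε (by linarith) hl0 hl1
        have h6 := hX (j + 1) hj
        have h7 := (Complex.abs_re_le_norm _).trans h6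
        rw [Complex.sub_re, Complex.one_re, abs_le] at h7
        rw [← hq] at h5
        have h8 : ‖P.x j‖ * A ≤ 38 / 25 * δ * A := by gcongr; exact hx j hj.le
        have hϑ0 : 0 ≤ (1 - P.ε) / (1 + P.ε) / (1 + P.ε ^ 2 * P.μ ^ 2) := by
          apply div_nonneg (div_nonneg (by linarith) (by linarith)) (by positivity)
        have h9 : P.ε * P.μ ^ 2 * (1 - q) ≤ P.ε * P.μ ^ 2 * (LL k α g1 g2 (j + 1) (P.x (j + 1))).re := by
          exact mul_le_mul_of_nonneg_left (by linarith [h7.1]) (by positivity)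
        have h10 : (1 - P.ε) / (1 + P.ε) / (1 + P.ε ^ 2 * P.μ ^ 2) * ((LL k α g1 g2 (j + 1) (P.a (j + 1))).re +
            P.ε * P.μ ^ 2 * (1 - q)) ≤
            (1 - P.ε) / (1 + P.ε) / (1 + P.ε ^ 2 * P.μ ^ 2) * ((LL k α g1 g2 (j + 1) (P.a (j + 1))).re +
            P.ε * P.μ ^ 2 * (LL k α g1 g2 (j + 1) (P.x (j + 1))).re) := by gcongr
        have hτ0 : 0 ≤ 2 * P.ε / (1 + P.ε) := by positivity
        have hτ1 : 2 * P.ε / (1 + P.ε) ≤ 2 * P.ε := by
          exact div_le_self (by positivity) (by linarith)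
        have h11 : 2 * P.ε / (1 + P.ε) * (-((1 - P.ε) / (2 * P.ε) * l) - 38 / 25 * δ * A - 2 * q) ≤
            2 * P.ε / (1 + P.ε) * (RR k α g1 g2 P.ε l j (P.a j)).re := by
          gcongr
          linarith
        have h12 : 2 * P.ε / (1 + P.ε) * ((1 - P.ε) / (2 * P.ε) * l) ≤ P.ε := by
          have e5 : 2 * P.ε / (1 + P.ε) * ((1 - P.ε) / (2 * P.ε) * l) = (1 - P.ε) / (1 + P.ε) * l := by
            field_simp
          rw [e5]
          calc (1 - P.ε) / (1 + P.ε) * l ≤ 1 * P.ε := by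
                gcongr
                rw [div_le_one (by positivity)]; linarith
            _ = P.ε := one_mul _
        have h13 : 2 * P.ε / (1 + P.ε) * (38 / 25 * δ * A + 2 * q) ≤ 2 * P.ε * (38 / 25 * δ * A + 2 * q) := by
          gcongr
        have h14 : 2 * P.ε / (1 + P.ε) * (-((1 - P.ε) / (2 * P.ε) * l) - 38 / 25 * δ * A - 2 * q) =
            -(2 * P.ε / (1 + P.ε) * ((1 - P.ε) / (2 * P.ε) * l)) -
            2 * P.ε / (1 + P.ε) * (38 / 25 * δ * A + 2 * q) := by ring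
        rw [h14] at h11
        linarith)
    have hfin : P.μ ^ 2 / 10 = 1 / (40 * δ ^ 2) := by rw [eμ]; field_simp; norm_num
    rw [hfin] at hnum
    exact nl_fin hδ hA1 hcon hnum

end Pool.Agent.Lib.MP_ca0fc2_an.Cubic
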