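import Pool.Agent.Lib.MP_ca0fc2_an.CubCauchy

/-!
Trigonometric polynomials on the 2-torus, spectral gaps and comparison of nearby tori.
-/

open MeasureTheory Complex Set Filter Topology

namespace Pool.Agent.Lib.MP_ca0fc2_an.Cubic

/-- Trigonometric polynomials. -/
noncomputable def TP : Submodule ℂ (ℝ × ℝ → ℂ) := Submodule.span ℂ (Set.range chi)

theorem chi_mem (γ : ℤ × ℤ) : chi γ ∈ TP := Submodule.subset_span ⟨γ, rfl⟩

theorem one_mem : (fun _ => 1 : ℝ × ℝ → ℂ) ∈ TP := by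
  have := chi_mem 0
  have e : chi 0 = fun _ => 1 := by ext θ; simp
  rwa [e] at this

theorem chi_mul (γ γ' : ℤ × ℤ) : chi γ * chi γ' = chi (γ + γ') := by
  ext θ; rw [chi_add]; rfl

theorem TP_mul {f g : ℝ × ℝ → ℂ} (hf : f ∈ TP) (hg : g ∈ TP) : f * g ∈ TP := by
  induction hf using Submodule.span_induction with
  | mem x hx =>
    obtain ⟨γ, rfl⟩ := hx
    induction hg using Submodule.span_induction with
    | mem y hy =>
      obtain ⟨γ', rfl⟩ := hy
      rw [chi_mul]; exact chi_mem _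
    | zero => rw [mul_zero]; exact TP.zero_mem
    | add x y _ _ hx hy => rw [mul_add]; exact TP.add_mem hx hy
    | smul c x _ hx => rw [mul_smul_comm]; exact TP.smul_mem c hx
  | zero => rw [zero_mul]; exact TP.zero_mem
  | add x y _ _ hx hy => rw [add_mul]; exact TP.add_mem hx hy
  | smul c x _ hx => rw [smul_mul_assoc]; exact TP.smul_mem c hx

theorem TP_continuous {f : ℝ × ℝ → ℂ} (hf : f ∈ TP) : Continuous f := by
  induction hf using Submodule.span_induction with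
  | mem x hx => obtain ⟨γ, rfl⟩ := hx; exact continuous_chi γ
  | zero => exact continuous_const
  | add x y _ _ hx hy => exact hx.add hy
  | smul c x _ hx => exact hx.const_smul c

theorem cm {f g : ℝ × ℝ → ℂ} (hf : Continuous f) (hg : Continuous g) :
    Continuous fun θ => f θ * g θ := hf.mul hg

theorem Av_add {f g : ℝ × ℝ → ℂ} (hf : Continuous f) (hg : Continuous g) :
    Av (fun θ => f θ + g θ) = Av f + Av g :=
  integral_add (integrable_of_continuous hf) (integrable_of_continuous hg)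

theorem Av_sub {f g : ℝ × ℝ → ℂ} (hf : Continuous f) (hg : Continuous g) :
    Av (fun θ => f θ - g θ) = Av f - Av g :=
  integral_sub (integrable_of_continuous hf) (integrable_of_continuous hg)

theorem Av_const_mul (c : ℂ) (f : ℝ × ℝ → ℂ) : Av (fun θ => c * f θ) = c * Av f :=
  integral_const_mul c f

theorem Av_sum {ι : Type*} (s : Finset ι) {f : ι → ℝ × ℝ → ℂ} (hf : ∀ i ∈ s, Continuous (f i)) :
    Av (fun θ => ∑ i ∈ s, f i θ) = ∑ i ∈ s, Av (f i) :=
  integral_finsetSum s fun i hi => integrable_of_continuous (hf i hi)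

theorem Av_conj (f : ℝ × ℝ → ℂ) : Av (fun θ => (starRingEnd ℂ) (f θ)) = (starRingEnd ℂ) (Av f) :=
  integral_conj

theorem Av_one : Av (fun _ => 1) = 1 := by simp [Av]

theorem holN_one : HolN fun _ => 1 := ⟨univ, isOpen_univ, subset_univ _, differentiableOn_const _⟩

theorem Av_chi_pos {γ : ℤ × ℤ} (hγ : 0 < γ.1) : Av (chi γ) = 0 := by
  have := J_neg1 holN_one (s := (1, 0)) (by norm_num) (by norm_num) (γ := -γ) (by simpa using hγ)
  rw [J] at this
  simpa using this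

theorem Av_chi {γ : ℤ × ℤ} (hγ : γ.1 ≠ 0) : Av (chi γ) = 0 := by
  rcases lt_or_gt_of_ne hγ with h | h
  · have h1 := Av_chi_pos (γ := -γ) (by simpa using h)
    have h2 : chi γ = fun θ => (starRingEnd ℂ) (chi (-γ) θ) := by
      ext θ; rw [← chi_neg, neg_neg]
    rw [h2, Av_conj, h1, map_zero]
  · exact Av_chi_pos h

/-- Cast of exponents. -/
def zc (α : ℕ × ℕ) : ℤ × ℤ := ((α.1 : ℤ), (α.2 : ℤ))

theorem gap {g : ℝ × ℝ → ℂ} (hg : g ∈ TP) : ∃ D : ℕ, ∀ α : ℕ × ℕ, D < α.1 → ∀ n : ℤ, n ≠ 0 →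
    Av (fun θ => g θ * chi (n • zc α) θ) = 0 := by
  induction hg using Submodule.span_induction with
  | mem x hx =>
    obtain ⟨γ, rfl⟩ := hx
    refine ⟨γ.1.natAbs, fun α hα n hn => ?_⟩
    have h1 : (fun θ => chi γ θ * chi (n • zc α) θ) = chi (γ + n • zc α) := by
      ext θ; rw [chi_add]
    rw [h1]
    apply Av_chi
    simp only [zc, Prod.fst_add, Prod.smul_fst, smul_eq_mul]
    intro h
    have h2 : γ.1 = -(n * α.1) := by linarith
    have h3 : γ.1.natAbs = n.natAbs * α.1 := by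
      rw [h2, Int.natAbs_neg, Int.natAbs_mul, Int.natAbs_natCast]
    have h4 : 1 ≤ n.natAbs := Int.natAbs_pos.2 hn
    nlinarith
  | zero => exact ⟨0, fun α _ n _ => by simp [Av]⟩
  | add x y hx hy ihx ihy =>
    obtain ⟨D1, h1⟩ := ihx
    obtain ⟨D2, h2⟩ := ihy
    refine ⟨max D1 D2, fun α hα n hn => ?_⟩
    simp only [Pi.add_apply, add_mul]
    rw [Av_add (cm (TP_continuous hx) (continuous_chi _)) (cm (TP_continuous hy) (continuous_chi _)),
      h1 α (lt_of_le_of_lt (le_max_left _ _) hα) n hn,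
      h2 α (lt_of_le_of_lt (le_max_right _ _) hα) n hn, add_zero]
  | smul c x hx ihx =>
    obtain ⟨D, h⟩ := ihx
    refine ⟨D, fun α hα n hn => ?_⟩
    simp only [Pi.smul_apply, smul_eq_mul, mul_assoc]
    rw [Av_const_mul, h α hα n hn, mul_zero]

theorem holgap {g : ℝ × ℝ → ℂ} (hg : g ∈ TP) : ∃ D : ℕ, ∀ α : ℕ × ℕ, D < α.1 → ∀ n : ℕ, 1 ≤ n →
    ∀ s : ℝ × ℝ, 0 < s.1 → s.1 ^ 2 + s.2 ^ 2 ≤ 1 → ∀ h : ℂ × ℂ → ℂ, HolN h →
    Av (fun θ => h (Z s θ) * (g θ * chi ((n : ℤ) • zc α) θ)) = 0 := by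
  induction hg using Submodule.span_induction with
  | mem x hx =>
    obtain ⟨γ, rfl⟩ := hx
    refine ⟨γ.1.natAbs, fun α hα n hn s hs1 hs h hh => ?_⟩
    have h1 : (fun θ => h (Z s θ) * (chi γ θ * chi ((n : ℤ) • zc α) θ)) =
        fun θ => h (Z s θ) * chi (-(-(γ + (n : ℤ) • zc α))) θ := by
      ext θ; rw [neg_neg, chi_add]
    rw [h1]
    refine J_neg1 hh hs hs1 ?_
    simp only [zc, Prod.fst_add, Prod.smul_fst, smul_eq_mul, Prod.fst_neg]
    have h2 : (α.1 : ℤ) ≤ n * α.1 := by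
      have : (1 : ℤ) ≤ n := by exact_mod_cast hn
      nlinarith [Int.natCast_nonneg α.1]
    have h3 : (γ.1.natAbs : ℤ) < α.1 := by exact_mod_cast hα
    have h4 : -(γ.1.natAbs : ℤ) ≤ γ.1 := by omega
    linarith
  | zero => exact ⟨0, fun α _ n _ s _ _ h _ => by simp [Av]⟩
  | add x y hx hy ihx ihy =>
    obtain ⟨D1, h1⟩ := ihx
    obtain ⟨D2, h2⟩ := ihy
    refine ⟨max D1 D2, fun α hα n hn s hs1 hs h hh => ?_⟩
    simp only [Pi.add_apply, add_mul, mul_add]
    rw [Av_add (cm (hh.continuous_comp hs) (cm (TP_continuous hx) (continuous_chi _)))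
      (cm (hh.continuous_comp hs) (cm (TP_continuous hy) (continuous_chi _))),
      h1 α (lt_of_le_of_lt (le_max_left _ _) hα) n hn s hs1 hs h hh,
      h2 α (lt_of_le_of_lt (le_max_right _ _) hα) n hn s hs1 hs h hh, add_zero]
  | smul c x hx ihx =>
    obtain ⟨D, h⟩ := ihx
    refine ⟨D, fun α hα n hn s hs1 hs h' hh => ?_⟩
    have e : (fun θ => h' (Z s θ) * ((c • x) θ * chi ((n : ℤ) • zc α) θ)) =
        fun θ => c * (h' (Z s θ) * (x θ * chi ((n : ℤ) • zc α) θ)) := by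
      ext θ; simp only [Pi.smul_apply, smul_eq_mul]; ring
    rw [e, Av_const_mul, h α hα n hn s hs1 hs h' hh, mul_zero]

theorem mono_add {s : ℝ × ℝ} (h1 : 0 < s.1) (h2 : 0 < s.2) (γ γ' : ℤ × ℤ) :
    mono s (γ + γ') = mono s γ * mono s γ' := by
  simp only [mono, Prod.fst_add, Prod.snd_add]
  rw [zpow_add₀ h1.ne', zpow_add₀ h2.ne']
  ring

theorem mono_neg (s : ℝ × ℝ) (γ : ℤ × ℤ) : mono s (-γ) = (mono s γ)⁻¹ := by
  simp only [mono, Prod.fst_neg, Prod.snd_neg, zpow_neg, mul_inv]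

theorem mono_smul (s : ℝ × ℝ) (n : ℕ) (γ : ℤ × ℤ) : mono s ((n : ℤ) • γ) = (mono s γ) ^ n := by
  simp only [mono, Prod.smul_fst, Prod.smul_snd, smul_eq_mul, mul_pow]
  rw [mul_comm (n : ℤ) γ.1, mul_comm (n : ℤ) γ.2, zpow_mul, zpow_mul, zpow_natCast, zpow_natCast]

/-- Comparison of the averages over two nearby tori. -/
theorem core {s : ℝ × ℝ} (hs1 : 0 < s.1) (hs2 : 0 < s.2) (hs : s.1 ^ 2 + s.2 ^ 2 ≤ 1)
    {g : ℝ × ℝ → ℂ} (hg : g ∈ TP) :
    ∀ e : ℝ, 0 < e → ∀ᶠ t in 𝓝 s, t.1 ^ 2 + t.2 ^ 2 ≤ 1 → ∀ α : ℤ × ℤ, ∀ A : ℝ, ∀ h : ℂ × ℂ → ℂ,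
      HolN h → (∀ z ∈ Bc, ‖h z‖ ≤ A) →
      ‖Av (fun θ => h (Z t θ) * (g θ * chi (-α) θ)) -
        ((mono t α / mono s α : ℝ) : ℂ) * Av (fun θ => h (Z s θ) * (g θ * chi (-α) θ))‖ ≤
        mono t α / mono s α * (A * e) := by
  have hpos : ∀ᶠ t in 𝓝 s, 0 < t.1 ∧ 0 < t.2 :=
    (continuous_fst.continuousAt.eventually (lt_mem_nhds hs1)).and
      (continuous_snd.continuousAt.eventually (lt_mem_nhds hs2))
  induction hg using Submodule.span_induction with
  | mem x hx =>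
    obtain ⟨γ, rfl⟩ := hx
    intro e he
    have hc : ContinuousAt (fun t : ℝ × ℝ => mono t (-γ) / mono s (-γ) - 1) s := by
      have h1 : ContinuousAt (fun t : ℝ × ℝ => mono t (-γ)) s := by
        unfold mono
        exact ((continuousAt_fst).zpow₀ _ (Or.inl hs1.ne')).mul
          ((continuousAt_snd).zpow₀ _ (Or.inl hs2.ne'))
      exact (h1.div_const _).sub continuousAt_const
    have h0 : mono s (-γ) / mono s (-γ) - 1 = 0 := by
      rw [div_self (mono_pos hs1 hs2 _).ne', sub_self]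
    have hev : ∀ᶠ t in 𝓝 s, |mono t (-γ) / mono s (-γ) - 1| < e := by
      have h00 : |mono s (-γ) / mono s (-γ) - 1| < e := by rw [h0, abs_zero]; exact he
      exact hc.abs.eventually (gt_mem_nhds h00)
    filter_upwards [hpos, hev] with t ht hte htb α A h hh hA
    have e1 : ∀ r : ℝ × ℝ, (fun θ => h (Z r θ) * (chi γ θ * chi (-α) θ)) =
        fun θ => h (Z r θ) * chi (-(α - γ)) θ := by
      intro r; ext θ; rw [← chi_add]; congr 2; abel
    rw [e1, e1]
    have e2 := J_scale hh ht.1 ht.2 hs1 hs2 htb hs (α - γ)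
    have e3 : α - γ = α + -γ := sub_eq_add_neg _ _
    have m1 := mono_pos hs1 hs2 α
    have m2 := mono_pos hs1 hs2 (-γ)
    have m3 := mono_pos ht.1 ht.2 α
    have m4 := mono_pos ht.1 ht.2 (-γ)
    rw [e3, mono_add ht.1 ht.2, mono_add hs1 hs2] at e2
    rw [e3]
    change ‖J h t (α + -γ) - ((mono t α / mono s α : ℝ) : ℂ) * J h s (α + -γ)‖ ≤ _
    have hJ := norm_J_le hA hs (α + -γ)
    have e4 : J h t (α + -γ) = ((mono t α / mono s α * (mono t (-γ) / mono s (-γ)) : ℝ) : ℂ) *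
        J h s (α + -γ) := by
      have c1 : (mono s α : ℂ) ≠ 0 := by exact_mod_cast m1.ne'
      have c2 : (mono s (-γ) : ℂ) ≠ 0 := by exact_mod_cast m2.ne'
      push_cast at e2 ⊢
      field_simp
      linear_combination e2
    have e5 : J h t (α + -γ) - ((mono t α / mono s α : ℝ) : ℂ) * J h s (α + -γ) =
        ((mono t α / mono s α * (mono t (-γ) / mono s (-γ) - 1) : ℝ) : ℂ) * J h s (α + -γ) := by
      rw [e4]; push_cast; ring
    rw [e5, norm_mul, Complex.norm_real, Real.norm_eq_abs, abs_mul, abs_of_pos (div_pos m3 m1),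
      mul_assoc]
    have hA0 : 0 ≤ A := (norm_nonneg _).trans hJ
    rw [mul_comm A e]
    gcongr
  | zero =>
    intro e he
    filter_upwards [hpos] with t ht htb α A h hh hA
    have hA0 : 0 ≤ A := (norm_nonneg _).trans (hA _ (Z_mem hs 0))
    have : 0 ≤ mono t α / mono s α * (A * e) :=
      mul_nonneg (div_pos (mono_pos ht.1 ht.2 _) (mono_pos hs1 hs2 _)).le (by positivity)
    simpa [Av] using this
  | add x y hx hy ihx ihy =>
    intro e he
    filter_upwards [ihx (e / 2) (by positivity), ihy (e / 2) (by positivity)] with t h1 h2 htb α A h hh hA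
    have a1 := h1 htb α A h hh hA
    have a2 := h2 htb α A h hh hA
    have c1 := TP_continuous hx
    have c2 := TP_continuous hy
    have e1 : ∀ r : ℝ × ℝ, r.1 ^ 2 + r.2 ^ 2 ≤ 1 →
        Av (fun θ => h (Z r θ) * ((x + y) θ * chi (-α) θ)) =
        Av (fun θ => h (Z r θ) * (x θ * chi (-α) θ)) + Av (fun θ => h (Z r θ) * (y θ * chi (-α) θ)) := by
      intro r hr
      rw [← Av_add (cm (hh.continuous_comp hr) (cm c1 (continuous_chi _)))
        (cm (hh.continuous_comp hr) (cm c2 (continuous_chi _)))]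
      congr 1; ext θ; simp only [Pi.add_apply]; ring
    rw [e1 t htb, e1 s hs]
    have e2 : ∀ a b c a' b' : ℂ, a + b - c * (a' + b') = (a - c * a') + (b - c * b') := by
      intros; ring
    rw [e2]
    refine (norm_add_le _ _).trans ((add_le_add a1 a2).trans (le_of_eq ?_))
    ring
  | smul c x hx ihx =>
    intro e he
    filter_upwards [ihx (e / (‖c‖ + 1)) (by positivity), hpos] with t h1 ht htb α A h hh hA
    have a1 := h1 htb α A h hh hA
    have hA0 : 0 ≤ A := (norm_nonneg _).trans (hA _ (Z_mem hs 0))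
    have e1 : ∀ r : ℝ × ℝ, Av (fun θ => h (Z r θ) * ((c • x) θ * chi (-α) θ)) =
        c * Av (fun θ => h (Z r θ) * (x θ * chi (-α) θ)) := by
      intro r
      rw [← Av_const_mul]
      congr 1; ext θ; simp only [Pi.smul_apply, smul_eq_mul]; ring
    rw [e1, e1]
    have e2 : ∀ a c' a' : ℂ, c * a - c' * (c * a') = c * (a - c' * a') := by intros; ring
    rw [e2, norm_mul]
    have hm : 0 ≤ mono t α / mono s α := (div_pos (mono_pos ht.1 ht.2 _) (mono_pos hs1 hs2 _)).le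
    calc ‖c‖ * _ ≤ ‖c‖ * (mono t α / mono s α * (A * (e / (‖c‖ + 1)))) := by gcongr
      _ = mono t α / mono s α * (A * e) * (‖c‖ / (‖c‖ + 1)) := by ring
      _ ≤ mono t α / mono s α * (A * e) * 1 := by
        gcongr
        rw [div_le_one (by positivity)]; linarith
      _ = _ := mul_one _

end Pool.Agent.Lib.MP_ca0fc2_an.Cubic
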