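import Mathlib

/-!
Averages over Reinhardt tori and Fourier coefficients of holomorphic functions of two variables.
-/

open MeasureTheory Complex Set Filter Topology

namespace Pool.Agent.Lib.MP_ca0fc2_an.Cubic

/-- The closed unit ball of the space of pairs of complex numbers. -/
def Bc : Set (ℂ × ℂ) := {z | ‖z.1‖ ^ 2 + ‖z.2‖ ^ 2 ≤ 1}

/-- Functions holomorphic near the closed ball. -/
def HolN (h : ℂ × ℂ → ℂ) : Prop := ∃ U : Set (ℂ × ℂ), IsOpen U ∧ Bc ⊆ U ∧ DifferentiableOn ℂ h U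

/-- The uniform probability measure on the interval from 0 to 2π. -/
noncomputable def P1 : Measure ℝ :=
  (ENNReal.ofReal (2 * Real.pi))⁻¹ • (volume.restrict (Ioc 0 (2 * Real.pi)))

noncomputable def P2 : Measure (ℝ × ℝ) := P1.prod P1

instance : IsProbabilityMeasure P1 := by
  constructor
  rw [P1, Measure.smul_apply, Measure.restrict_apply MeasurableSet.univ, univ_inter, Real.volume_Ioc,
    sub_zero, smul_eq_mul]
  refine ENNReal.inv_mul_cancel ?_ ENNReal.ofReal_ne_top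
  rw [Ne, ENNReal.ofReal_eq_zero, not_le]
  positivity

instance : IsProbabilityMeasure P2 := by
  unfold P2; infer_instance

theorem P1_integral {E : Type*} [NormedAddCommGroup E] [NormedSpace ℝ E] (f : ℝ → E) :
    ∫ x, f x ∂P1 = (2 * Real.pi)⁻¹ • ∫ x in (0 : ℝ)..(2 * Real.pi), f x := by
  rw [P1, integral_smul_measure, intervalIntegral.integral_of_le (by positivity)]
  congr 1
  rw [ENNReal.toReal_inv, ENNReal.toReal_ofReal (by positivity)]

/-- Point of the torus with radii s and angles θ. -/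
noncomputable def Z (s θ : ℝ × ℝ) : ℂ × ℂ := ((s.1 : ℂ) * exp (θ.1 * I), (s.2 : ℂ) * exp (θ.2 * I))

/-- Characters. -/
noncomputable def chi (γ : ℤ × ℤ) (θ : ℝ × ℝ) : ℂ := exp (((γ.1 : ℂ) * θ.1 + (γ.2 : ℂ) * θ.2) * I)

/-- Average over the torus. -/
noncomputable def Av (g : ℝ × ℝ → ℂ) : ℂ := ∫ θ, g θ ∂P2

theorem chi_add (γ γ' : ℤ × ℤ) (θ : ℝ × ℝ) : chi (γ + γ') θ = chi γ θ * chi γ' θ := by
  simp only [chi, ← Complex.exp_add, Prod.fst_add, Prod.snd_add, Int.cast_add]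
  congr 1; ring

@[simp] theorem chi_zero (θ : ℝ × ℝ) : chi 0 θ = 1 := by simp [chi]

theorem norm_chi (γ : ℤ × ℤ) (θ : ℝ × ℝ) : ‖chi γ θ‖ = 1 := by
  have : ((γ.1 : ℂ) * θ.1 + (γ.2 : ℂ) * θ.2) * I = ((γ.1 * θ.1 + γ.2 * θ.2 : ℝ) : ℂ) * I := by
    push_cast; ring
  rw [chi, this, Complex.norm_exp_ofReal_mul_I]

theorem continuous_chi (γ : ℤ × ℤ) : Continuous (chi γ) := by
  unfold chi; fun_prop

theorem chi_neg (γ : ℤ × ℤ) (θ : ℝ × ℝ) : chi (-γ) θ = (starRingEnd ℂ) (chi γ θ) := by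
  rw [chi, chi, ← Complex.exp_conj]
  congr 1
  simp only [Prod.fst_neg, Prod.snd_neg, Int.cast_neg, map_mul, map_add, Complex.conj_ofReal,
    Complex.conj_I, map_intCast]
  ring

theorem norm_exp_I (x : ℝ) : ‖exp (x * I)‖ = 1 := Complex.norm_exp_ofReal_mul_I x

theorem norm_Z1 (s θ : ℝ × ℝ) : ‖(Z s θ).1‖ = |s.1| := by
  simp only [Z, norm_mul, norm_exp_I, mul_one, Complex.norm_real, Real.norm_eq_abs]

theorem norm_Z2 (s θ : ℝ × ℝ) : ‖(Z s θ).2‖ = |s.2| := by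
  simp only [Z, norm_mul, norm_exp_I, mul_one, Complex.norm_real, Real.norm_eq_abs]

theorem Z_mem {s : ℝ × ℝ} (hs : s.1 ^ 2 + s.2 ^ 2 ≤ 1) (θ : ℝ × ℝ) : Z s θ ∈ Bc := by
  rw [Bc, mem_ofPred_eq, norm_Z1, norm_Z2, sq_abs, sq_abs]; exact hs

theorem continuous_Z (s : ℝ × ℝ) : Continuous (Z s) := by
  unfold Z; fun_prop

theorem HolN.continuous_comp {h : ℂ × ℂ → ℂ} (hh : HolN h) {s : ℝ × ℝ} (hs : s.1 ^ 2 + s.2 ^ 2 ≤ 1) :
    Continuous fun θ => h (Z s θ) := by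
  obtain ⟨U, hU, hBU, hd⟩ := hh
  exact hd.continuousOn.comp_continuous (continuous_Z s) fun θ => hBU (Z_mem hs θ)

theorem integrable_of_continuous {E : Type*} [NormedAddCommGroup E] {g : ℝ × ℝ → E}
    (hg : Continuous g) : Integrable g P2 := by
  have hP : P2 = P2.restrict (Icc (0, 0) (2 * Real.pi, 2 * Real.pi)) := by
    rw [P2, P1, Measure.prod_smul_left, Measure.prod_smul_right, Measure.prod_restrict]
    rw [Measure.restrict_smul, Measure.restrict_smul, Measure.restrict_restrict measurableSet_Icc]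
    congr 3
    ext x
    simp only [mem_prod, mem_Ioc, mem_inter_iff, mem_Icc, Prod.le_def]
    constructor
    · rintro ⟨⟨h1, h2⟩, h3, h4⟩; exact ⟨⟨⟨h1.le, h3.le⟩, h2, h4⟩, ⟨h1, h2⟩, h3, h4⟩
    · rintro ⟨_, h⟩; exact h
  rw [hP]
  exact hg.continuousOn.integrableOn_compact isCompact_Icc

end Pool.Agent.Lib.MP_ca0fc2_an.Cubic
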