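import Mathlib
import Pool.Agent.Lib.MP_ca0fc2_an.CGMain
import Pool.Agent.Lib.MP_ca0fc2_an.Mg.G010
import Pool.Agent.Lib.MP_ca0fc2_an.DACls
import Pool.Agent.Lib.MP_ca0fc2_an.DACut
import Pool.Agent.Lib.MP_ca0fc2_an.SkPoly

set_option autoImplicit false

open Metric Set MeasureTheory Filter Topology
open scoped InnerProductSpace ENNReal

namespace Pool.Agent.MPca0fc2.DA

open Pool.Agent.Lib.MP_ca0fc2_an
open Pool.Agent.MPca0fc2.PT

variable {E : Type*} [NormedAddCommGroup E] [InnerProductSpace ℂ E]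
variable [FiniteDimensional ℂ E] [MeasurableSpace E] [BorelSpace E]

/-- Data which are nearly polynomials in one arbitrary function, with coefficients which are
Lipschitz functions of multipliers and of functions whose invariant gradients satisfy a Carleson
condition. -/
theorem alg_main (hDC : DiscCorona) (μ : Measure E) [μ.IsAddHaarMeasure] {m : ℕ} (hm : 1 ≤ m)
    (hdim : Module.finrank ℂ E = m + 1) (N d : ℕ) (M δ : ℝ) (hδ : 0 < δ) :
    ∃ η : ℝ, 0 < η ∧ ∀ (k : E → ℕ) (ρ K p : E → ℝ), (∀ l, 0 < ρ l) → (∀ l, 1 ≤ K l) →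
    (∀ l, 1 ≤ p l) →
    ∃ C' : ℝ, ∀ f : Fin N → E → ℂ, (∀ j, DifferentiableOn ℂ (f j) (ball 0 1)) →
      (∀ j, ∀ z ∈ ball (0 : E) 1, ‖f j z‖ ≤ M) →
      (∀ z ∈ ball (0 : E) 1, δ ≤ ∑ j, ‖f j z‖ ^ 2) →
      (∀ l ∈ sphere (0 : E) 1, ∃ (F : E → ℂ) (u : Fin (k l) → E → ℂ)
        (ψ : Fin N → Fin d → (Fin (k l) → ℂ) → ℂ),
        DifferentiableOn ℂ F (ball 0 1 ∩ ball l (ρ l)) ∧
        (∀ i, DAMultiplier (K l) (u i) ∨
          (GradCarl μ m (p l) (K l) (u i) ∧ ∀ z ∈ ball (0 : E) 1, ‖u i z‖ ≤ K l)) ∧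
        (∀ j i x y, ‖ψ j i x - ψ j i y‖ ≤ K l * ‖x - y‖) ∧
        ∀ z ∈ ball (0 : E) 1 ∩ ball l (ρ l), ‖F z‖ ≤ 1 ∧
          (∀ j i, ‖ψ j i fun t => u t z‖ ≤ M) ∧
          ∀ j, ‖f j z - ∑ i, (ψ j i fun t => u t z) * F z ^ (i : ℕ)‖ ≤ η) →
      SolvableOn f (ball 0 1) C' := by
  obtain ⟨η₀, hη₀, C₀, hC₀⟩ := SK.piece_poly (E := E) N d M δ hδ
  obtain ⟨A₀, hA₀⟩ := DA_class (E := E) hdim
  refine ⟨η₀ / 2, by positivity, ?_⟩
  intro k ρ K p hρ hK hp
  have hcc := fun l => carl_class μ hdim (hp l)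
  choose B hB hBc using hcc
  have hd0 : (0 : ℝ) ≤ d := Nat.cast_nonneg d
  have hm0 : (0 : ℝ) ≤ m := Nat.cast_nonneg m
  have hK0 : ∀ l, 0 < K l := fun l => by linarith [hK l]
  obtain ⟨C', hC'⟩ := CG.cut_main (E := E) hDC hm hdim N M δ hδ k
    (fun l => η₀ / (4 * (d + 1) * K l ^ 2)) ρ (fun _ => C₀)
    (fun l => max (p l) (2 * (m + 7))) (fun l => max A₀ (B l * K l))
    (fun l => by have := hK0 l; positivity) hρ
    (fun l => lt_of_lt_of_le (by positivity) (le_max_right _ _))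
  refine ⟨C', fun f hf hfM hfδ h => hC' f hf hfM hfδ ?_⟩
  intro l hl
  obtain ⟨F, u, ψ, hF, hu, hψ, hz⟩ := h l hl
  have hKl := hK0 l
  obtain ⟨η₁, hη₁⟩ : ∃ η₁, η₁ = η₀ / (4 * (d + 1) * K l ^ 2) := ⟨_, rfl⟩
  have hη₁0 : 0 < η₁ := by rw [hη₁]; positivity
  have hc0 : 0 ≤ 1 / K l := by positivity
  have hc1 : 1 / K l ≤ 1 := by rw [div_le_one hKl]; exact hK l
  have hv : ∀ i, DifferentiableOn ℂ (fun z => (((1 / K l : ℝ)) : ℂ) * u i z) (ball 0 1) ∧
      (∀ z ∈ ball (0 : E) 1, ‖(((1 / K l : ℝ)) : ℂ) * u i z‖ ≤ 1) ∧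
      CarlesonGradient (max (p l) (2 * (m + 7))) (max A₀ (B l * K l))
        (fun z => (((1 / K l : ℝ)) : ℂ) * u i z) := by
    intro i
    rcases hu i with h1 | ⟨h1, h2⟩
    · have h3 := DAMultiplier_smul (c := 1 / K l) hc0 h1
      rw [one_div_mul_cancel hKl.ne'] at h3
      have h4 := fun z hz => DAMultiplier_bound zero_le_one h3 (z := z) hz
      exact ⟨h3.1, h4, cg_mono h3.1 h4 (by positivity) (le_max_right _ _) (le_max_left _ _)
        (hA₀ _ h3)⟩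
    · have h3 := gradCarl_smul μ (by linarith [hp l]) hc0 hc1 h1
      have h4 : ∀ z ∈ ball (0 : E) 1, ‖(((1 / K l : ℝ)) : ℂ) * u i z‖ ≤ 1 := by
        intro z hz
        rw [norm_mul, Complex.norm_real, Real.norm_eq_abs, abs_of_nonneg hc0,
          one_div_mul_eq_div, div_le_one hKl]
        exact h2 z hz
      exact ⟨h3.1, h4, cg_mono h3.1 h4 (by linarith [hp l]) (le_max_left _ _) (le_max_right _ _)
        (hBc l _ _ h3.1 (carl_of_gradCarl μ hKl.le h3))⟩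
  rw [← hη₁]
  refine cut_of_cells (fun i z => (((1 / K l : ℝ)) : ℂ) * u i z) (fun i => (hv i).1)
    (fun i => (hv i).2.1) (fun i => (hv i).2.2) ?_
  intro b hb
  have hsub : (ball (0 : E) 1 ∩ ball l (ρ l)) ∩ {z | ∀ i : Fin (k l), ‖(((1 / K l : ℝ)) : ℂ) *
      u i z - (((1 / K l : ℝ)) : ℂ) * u i b‖ < 2 * η₁} ⊆
      ball (0 : E) 1 ∩ ball l (ρ l) := inter_subset_left
  refine hC₀ f _ (fun j => (hf j).mono fun z hz' => (hsub hz').1)
    (fun z hz' => hfδ z (hsub hz').1) ⟨F, fun j i => ψ j i fun t => u t b, hF.mono hsub,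
    fun z hz' => (hz z (hsub hz')).1, fun j i => (hz b hb).2.1 j i, ?_⟩
  intro j z hz'
  have hzD := hsub hz'
  have h1 := (hz z hzD).2.2 j
  have hFz := (hz z hzD).1
  have h3 : ‖(fun t => u t z) - (fun t => u t b)‖ ≤ K l * (2 * η₁) := by
    rw [pi_norm_le_iff_of_nonneg (by positivity)]
    intro t
    have h4 := hz'.2 t
    rw [← mul_sub, norm_mul, Complex.norm_real, Real.norm_eq_abs,
      abs_of_nonneg hc0, one_div_mul_eq_div, div_lt_iff₀ hKl] at h4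
    simp only [Pi.sub_apply]
    linarith
  have h2 : ∀ i, ‖(ψ j i fun t => u t z) - ψ j i fun t => u t b‖ ≤ η₀ / (2 * (d + 1)) := by
    intro i
    refine (hψ j i _ _).trans ?_
    calc _ ≤ K l * (K l * (2 * η₁)) := by gcongr
      _ = _ := by rw [hη₁]; field_simp; norm_num
  have h4 : ‖∑ i, (ψ j i fun t => u t z) * F z ^ (i : ℕ) -
      ∑ i, (ψ j i fun t => u t b) * F z ^ (i : ℕ)‖ ≤ η₀ / 2 := by
    rw [← Finset.sum_sub_distrib]
    refine (norm_sum_le _ _).trans ?_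
    calc ∑ i : Fin d, ‖(ψ j i fun t => u t z) * F z ^ (i : ℕ) -
        (ψ j i fun t => u t b) * F z ^ (i : ℕ)‖ ≤
        ∑ _i : Fin d, η₀ / (2 * (d + 1)) := by
          apply Finset.sum_le_sum
          intro i _
          rw [← sub_mul, norm_mul, norm_pow]
          calc _ ≤ η₀ / (2 * (d + 1)) * 1 := by
                apply mul_le_mul (h2 i) (pow_le_one₀ (norm_nonneg _) hFz) (by positivity)
                  (by positivity)
            _ = _ := mul_one _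
      _ = d * (η₀ / (2 * (d + 1))) := by
          rw [Finset.sum_const, nsmul_eq_mul, Finset.card_univ, Fintype.card_fin]
      _ ≤ η₀ / 2 := by
          rw [mul_div_assoc', div_le_div_iff₀ (by positivity) (by positivity)]
          nlinarith
  calc ‖f j z - ∑ i, (ψ j i fun t => u t b) * F z ^ (i : ℕ)‖ =
      ‖(f j z - ∑ i, (ψ j i fun t => u t z) * F z ^ (i : ℕ)) +
        (∑ i, (ψ j i fun t => u t z) * F z ^ (i : ℕ) -
          ∑ i, (ψ j i fun t => u t b) * F z ^ (i : ℕ))‖ := by congr 1; ring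
    _ ≤ _ := norm_add_le _ _
    _ ≤ η₀ := by linarith

end Pool.Agent.MPca0fc2.DA
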