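import Mathlib
import Pool.Agent.Lib.MP_ca0fc2_an.DACut
import Pool.Agent.Lib.MP_ca0fc2_an.SkPoly
import Pool.Agent.Lib.MP_ca0fc2_an.CGMain
import Pool.Agent.Lib.MP_ca0fc2_an.DACls
import Pool.Agent.Lib.MP_ca0fc2_an.SLCor

set_option autoImplicit false

open Metric Set MeasureTheory Filter Topology
open scoped InnerProductSpace ENNReal

namespace Pool.Agent.MPca0fc2.DA

open Pool.Agent.Lib.MP_ca0fc2_an
open Pool.Agent.MPca0fc2.PT

variable {E : Type*} [NormedAddCommGroup E] [InnerProductSpace ℂ E]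
variable [FiniteDimensional ℂ E] [MeasurableSpace E] [BorelSpace E]

/-- Data which are nearly polynomials in one arbitrary function with coefficients which are
multipliers. -/
theorem mult_main (hDC : DiscCorona) {m : ℕ} (hm : 1 ≤ m) (hdim : Module.finrank ℂ E = m + 1)
    (N d : ℕ) (M δ : ℝ) (hδ : 0 < δ) :
    ∃ η : ℝ, 0 < η ∧ ∀ ρ K : E → ℝ, (∀ l, 0 < ρ l) → (∀ l, 0 < K l) →
    ∃ C' : ℝ, ∀ f : Fin N → E → ℂ, (∀ j, DifferentiableOn ℂ (f j) (ball 0 1)) →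
      (∀ j, ∀ z ∈ ball (0 : E) 1, ‖f j z‖ ≤ M) →
      (∀ z ∈ ball (0 : E) 1, δ ≤ ∑ j, ‖f j z‖ ^ 2) →
      (∀ l ∈ sphere (0 : E) 1, ∃ (F : E → ℂ) (g : Fin N → Fin d → E → ℂ),
        DifferentiableOn ℂ F (ball 0 1 ∩ ball l (ρ l)) ∧
        (∀ j k, DAMultiplier (K l) (g j k)) ∧
        ∀ z ∈ ball (0 : E) 1 ∩ ball l (ρ l), ‖F z‖ ≤ 1 ∧ (∀ j k, ‖g j k z‖ ≤ M) ∧
          ∀ j, ‖f j z - ∑ k, g j k z * F z ^ (k : ℕ)‖ ≤ η) →
      SolvableOn f (ball 0 1) C' := by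
  obtain ⟨η₀, hη₀, C₀, hC₀⟩ := SK.piece_poly (E := E) N d M δ hδ
  obtain ⟨A, hA⟩ := DA_class (E := E) hdim
  refine ⟨η₀ / 2, by positivity, ?_⟩
  intro ρ K hρ hK
  have hd0 : (0 : ℝ) ≤ d := Nat.cast_nonneg d
  have hm0 : (0 : ℝ) ≤ m := Nat.cast_nonneg m
  obtain ⟨C', hC'⟩ := CG.cut_main (E := E) hDC hm hdim N M δ hδ (fun _ => N * d)
    (fun l => η₀ / (4 * (d + 1) * K l)) ρ (fun _ => C₀) (fun _ => 2 * (m + 7)) (fun _ => A)
    (fun l => by have := hK l; positivity) hρ (fun l => by positivity)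
  refine ⟨C', fun f hf hfM hfδ h => hC' f hf hfM hfδ ?_⟩
  intro l hl
  obtain ⟨F, g, hF, hg, hz⟩ := h l hl
  have hKl := hK l
  obtain ⟨η₁, hη₁⟩ : ∃ η₁, η₁ = η₀ / (4 * (d + 1) * K l) := ⟨_, rfl⟩
  have hη₁0 : 0 < η₁ := by rw [hη₁]; positivity
  have hu : ∀ j k, DAMultiplier 1 fun z => (((1 / K l : ℝ)) : ℂ) * g j k z := by
    intro j k
    have := DAMultiplier_smul (c := 1 / K l) (by positivity) (hg j k)
    rwa [one_div_mul_cancel hKl.ne'] at this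
  rw [← hη₁]
  refine cut_of_cells (fun i z => (((1 / K l : ℝ)) : ℂ) *
    g (finProdFinEquiv.symm i).1 (finProdFinEquiv.symm i).2 z) (fun i => (hu _ _).1)
    (fun i z hz' => DAMultiplier_bound zero_le_one (hu _ _) hz') (fun i => hA _ (hu _ _)) ?_
  intro b hb
  have hsub : (ball (0 : E) 1 ∩ ball l (ρ l)) ∩ {z | ∀ i : Fin (N * d), ‖(((1 / K l : ℝ)) : ℂ) *
      g (finProdFinEquiv.symm i).1 (finProdFinEquiv.symm i).2 z - (((1 / K l : ℝ)) : ℂ) *
      g (finProdFinEquiv.symm i).1 (finProdFinEquiv.symm i).2 b‖ < 2 * η₁} ⊆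
      ball (0 : E) 1 ∩ ball l (ρ l) := inter_subset_left
  refine hC₀ f _ (fun j => (hf j).mono fun z hz' => (hsub hz').1)
    (fun z hz' => hfδ z (hsub hz').1) ⟨F, fun j k => g j k b, hF.mono hsub,
    fun z hz' => (hz z (hsub hz')).1, fun j k => (hz b hb).2.1 j k, ?_⟩
  intro j z hz'
  have hzD := hsub hz'
  have h1 := (hz z hzD).2.2 j
  have hFz := (hz z hzD).1
  have h2 : ∀ k, ‖g j k z - g j k b‖ ≤ η₀ / (2 * (d + 1)) := by
    intro k
    have h3 := hz'.2 (finProdFinEquiv (j, k))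
    simp only [Equiv.symm_apply_apply] at h3
    rw [← mul_sub, norm_mul, Complex.norm_real, Real.norm_eq_abs,
      abs_of_pos (by positivity : (0 : ℝ) < 1 / K l), one_div_mul_eq_div, div_lt_iff₀ hKl, hη₁] at h3
    refine h3.le.trans (le_of_eq ?_)
    field_simp
    norm_num
  have h4 : ‖∑ k, g j k z * F z ^ (k : ℕ) - ∑ k, g j k b * F z ^ (k : ℕ)‖ ≤ η₀ / 2 := by
    rw [← Finset.sum_sub_distrib]
    refine (norm_sum_le _ _).trans ?_
    calc ∑ k : Fin d, ‖g j k z * F z ^ (k : ℕ) - g j k b * F z ^ (k : ℕ)‖ ≤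
        ∑ _k : Fin d, η₀ / (2 * (d + 1)) := by
          apply Finset.sum_le_sum
          intro k _
          rw [← sub_mul, norm_mul, norm_pow]
          calc ‖g j k z - g j k b‖ * ‖F z‖ ^ (k : ℕ) ≤ η₀ / (2 * (d + 1)) * 1 := by
                apply mul_le_mul (h2 k) (pow_le_one₀ (norm_nonneg _) hFz) (by positivity)
                  (by positivity)
            _ = _ := mul_one _
      _ = d * (η₀ / (2 * (d + 1))) := by
          rw [Finset.sum_const, nsmul_eq_mul, Finset.card_univ, Fintype.card_fin]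
      _ ≤ η₀ / 2 := by
          rw [mul_div_assoc', div_le_div_iff₀ (by positivity) (by positivity)]
          nlinarith
  calc ‖f j z - ∑ k, g j k b * F z ^ (k : ℕ)‖ =
      ‖(f j z - ∑ k, g j k z * F z ^ (k : ℕ)) +
        (∑ k, g j k z * F z ^ (k : ℕ) - ∑ k, g j k b * F z ^ (k : ℕ))‖ := by congr 1; ring
    _ ≤ _ := norm_add_le _ _
    _ ≤ η₀ := by linarith

end Pool.Agent.MPca0fc2.DA
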