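import Mathlib

/-! A family of strictly pseudoconvex domains which are not simply connected, and their universal
coverings by the unit ball. -/

set_option autoImplicit false

open Complex Metric Set

namespace Pool.Agent.Lib.MP_ca0fc2_an

/-- The domain of the points `(x, y)` in `ℂ × ℂᵐ` with `x ≠ 0`, `|log |x|| < π / (2 b)` and
`∑ |y_j|² |x|^(c_j) < cos (b log |x|)`. For `b > 0` it is a bounded strictly pseudoconvex domain
with a real analytic boundary; its fundamental group is infinite cyclic. -/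
def annDom {m : ℕ} (b : ℝ) (c : Fin m → ℝ) : Set (EuclideanSpace ℂ (Fin (m + 1))) :=
  {w | w 0 ≠ 0 ∧ |Real.log ‖w 0‖| < Real.pi / (2 * b) ∧
    ∑ j : Fin m, ‖w j.succ‖ ^ 2 * ‖w 0‖ ^ c j < Real.cos (b * Real.log ‖w 0‖)}

/-- The universal covering of `annDom b c` by the unit ball: with
`λ = (i / b) log ((1 + z_0) / (1 - z_0))` it maps `z` to `(x, y)`, where `x = exp λ` and
`y_j = (1 - z_0²)^(-1/2) exp (- c_j λ / 2) z_j`. -/
noncomputable def annMap {m : ℕ} (b : ℝ) (c : Fin m → ℝ) (z : EuclideanSpace ℂ (Fin (m + 1))) :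
    EuclideanSpace ℂ (Fin (m + 1)) :=
  WithLp.toLp 2 (Fin.cons (exp (I / b * (log (1 + z 0) - log (1 - z 0))))
    (fun j => z j.succ * exp (-(log (1 + z 0) + log (1 - z 0)) / 2
      - c j * (I / b * (log (1 + z 0) - log (1 - z 0))) / 2)))

end Pool.Agent.Lib.MP_ca0fc2_an
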