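import Mathlib
import Pool.Agent.Lib.MP_ca0fc2_an.DODefs

/-! The covering of `annDom` by the unit ball. -/

set_option autoImplicit false

open Complex Metric Set
open scoped ComplexConjugate

namespace Pool.Agent.MPca0fc2.DO

open Pool.Agent.Lib.MP_ca0fc2_an

variable {m : ℕ}

/-- the local inverses of the covering; `l` is a logarithm of `w 0` -/
noncomputable def annSec (b : ℝ) (c : Fin m → ℝ) (l : ℂ) (w : EuclideanSpace ℂ (Fin (m + 1))) :
    EuclideanSpace ℂ (Fin (m + 1)) :=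
  WithLp.toLp 2 (Fin.cons (-I * (sin (b * l / 2) / cos (b * l / 2)))
    (fun j => w j.succ * exp (c j * l / 2) / cos (b * l / 2)))

theorem cos_re_pos {t : ℂ} (ht : |t.re| < Real.pi / 2) : 0 < (cos t).re := by
  have h1 : (cos t).re = Real.cos t.re * Real.cosh t.im := by
    rw [Complex.cos_eq]
    simp [Complex.cos_ofReal_re, Complex.sin_ofReal_re, Complex.cosh_ofReal_re,
      Complex.sinh_ofReal_re, Complex.cos_ofReal_im, Complex.sin_ofReal_im,
      Complex.cosh_ofReal_im, Complex.sinh_ofReal_im]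
  rw [h1]
  exact mul_pos (Real.cos_pos_of_mem_Ioo ⟨(abs_lt.mp ht).1, (abs_lt.mp ht).2⟩) (Real.cosh_pos _)

theorem norm_cos_sq (t : ℂ) : ‖cos t‖ ^ 2 - ‖sin t‖ ^ 2 = Real.cos (2 * t.re) := by
  have h1 : ((‖cos t‖ ^ 2 - ‖sin t‖ ^ 2 : ℝ) : ℂ) = ((Real.cos (2 * t.re) : ℝ) : ℂ) := by
    push_cast
    rw [← Complex.mul_conj', ← Complex.mul_conj', ← Complex.cos_conj, ← Complex.sin_conj,
      ← Complex.cos_add, Complex.add_conj]
    push_cast
    rfl
  exact_mod_cast h1

theorem norm_sec (b : ℝ) (c : Fin m → ℝ) {l : ℂ} {w : EuclideanSpace ℂ (Fin (m + 1))}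
    (hw : exp l = w 0) (hc : cos (b * l / 2) ≠ 0) :
    ‖annSec b c l w‖ < 1 ↔
      ∑ j : Fin m, ‖w j.succ‖ ^ 2 * ‖w 0‖ ^ c j < Real.cos (b * Real.log ‖w 0‖) := by
  have hc' : 0 < ‖cos (b * l / 2)‖ ^ 2 := by positivity
  have hn : ‖w 0‖ = Real.exp l.re := by rw [← hw, Complex.norm_exp]
  have hlog : Real.log ‖w 0‖ = l.re := by rw [hn, Real.log_exp]
  have h1 : ‖annSec b c l w‖ ^ 2 = (‖sin (b * l / 2)‖ ^ 2 +
      ∑ j : Fin m, ‖w j.succ‖ ^ 2 * ‖w 0‖ ^ c j) / ‖cos (b * l / 2)‖ ^ 2 := by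
    rw [EuclideanSpace.norm_sq_eq, Fin.sum_univ_succ, add_div, Finset.sum_div]
    congr 1
    · simp [annSec, div_pow]
    · refine Finset.sum_congr rfl fun j _ => ?_
      have h2 : ‖exp (c j * l / 2)‖ ^ 2 = ‖w 0‖ ^ c j := by
        rw [Complex.norm_exp, hn, ← Real.exp_mul, ← Real.exp_nat_mul]
        congr 1
        have : (c j * l / 2).re = c j * l.re / 2 := by
          rw [show (c j * l / 2 : ℂ) = ((c j / 2 : ℝ) : ℂ) * l by push_cast; ring,
            Complex.re_ofReal_mul]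
          ring
        rw [this]
        push_cast
        ring
      simp only [annSec, Fin.cons_succ]
      rw [norm_div, norm_mul, div_pow, mul_pow, h2]
  have h3 : ‖cos (b * l / 2)‖ ^ 2 - ‖sin (b * l / 2)‖ ^ 2 = Real.cos (b * Real.log ‖w 0‖) := by
    rw [norm_cos_sq, hlog]
    congr 1
    rw [show (b * l / 2 : ℂ) = ((b / 2 : ℝ) : ℂ) * l by push_cast; ring, Complex.re_ofReal_mul]
    ring
  rw [← sq_lt_one_iff₀ (norm_nonneg _), h1, div_lt_one hc', ← h3]
  constructor <;> intro h <;> linarith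

theorem one_add_re {ζ : ℂ} (h : ‖ζ‖ < 1) : 0 < (1 + ζ).re := by
  have h1 := (abs_le.mp (Complex.abs_re_le_norm ζ)).1
  simp only [Complex.add_re, Complex.one_re]
  linarith

theorem one_sub_re {ζ : ℂ} (h : ‖ζ‖ < 1) : 0 < (1 - ζ).re := by
  have h1 := (abs_le.mp (Complex.abs_re_le_norm ζ)).2
  simp only [Complex.sub_re, Complex.one_re]
  linarith

theorem log_im {x : ℂ} (h : 0 < x.re) : |(log x).im| < Real.pi / 2 := by
  rw [Complex.log_im]
  exact Complex.abs_arg_lt_pi_div_two_iff.mpr (Or.inl h)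

theorem ne_zero_of_re {x : ℂ} (h : 0 < x.re) : x ≠ 0 := by
  rintro rfl
  simp at h

/-- the imaginary part of `log ((1 + ζ)/(1 - ζ))` -/
theorem diff_im {ζ : ℂ} (h : ‖ζ‖ < 1) : |(log (1 + ζ) - log (1 - ζ)).im| < Real.pi / 2 := by
  have hA := log_im (one_add_re h)
  have hB := log_im (one_sub_re h)
  have h0 := ne_zero_of_re (one_add_re h)
  have h0' := ne_zero_of_re (one_sub_re h)
  have h1 : log (1 + ζ) - log (1 - ζ) = log (exp (log (1 + ζ) - log (1 - ζ))) := by
    rw [Complex.log_exp]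
    · rw [Complex.sub_im]
      linarith [(abs_lt.mp hA).1, (abs_lt.mp hB).2]
    · rw [Complex.sub_im]
      linarith [(abs_lt.mp hA).2, (abs_lt.mp hB).1]
  rw [h1]
  apply log_im
  rw [Complex.exp_sub, Complex.exp_log h0, Complex.exp_log h0', Complex.div_re]
  have h2 : ζ.re ^ 2 + ζ.im ^ 2 < 1 := by
    have h3 : ‖ζ‖ ^ 2 < 1 := by
      have := norm_nonneg ζ
      nlinarith
    rw [← Complex.normSq_eq_norm_sq, Complex.normSq_apply] at h3
    nlinarith
  have h3 : 0 < Complex.normSq (1 - ζ) := Complex.normSq_pos.mpr h0'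
  rw [← add_div]
  apply div_pos _ h3
  simp only [Complex.add_re, Complex.one_re, Complex.sub_re, Complex.add_im, Complex.one_im,
    Complex.sub_im]
  nlinarith

theorem re_lam {b : ℝ} (X : ℂ) : (I / b * X).re = -X.im / b := by
  rw [show (I / b * X : ℂ) = ((1 / b : ℝ) : ℂ) * (I * X) by push_cast; ring,
    Complex.re_ofReal_mul]
  simp
  ring

/-- `z` is the value of the local inverse at its image -/
theorem sec_map {b : ℝ} (hb : 0 < b) (c : Fin m → ℝ) {z : EuclideanSpace ℂ (Fin (m + 1))}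
    (hz : ‖z 0‖ < 1) :
    annSec b c (I / b * (log (1 + z 0) - log (1 - z 0))) (annMap b c z) = z ∧
      cos (b * (I / b * (log (1 + z 0) - log (1 - z 0))) / 2) ≠ 0 := by
  set ζ := z 0 with hζ
  have h0 := ne_zero_of_re (one_add_re hz)
  have h0' := ne_zero_of_re (one_sub_re hz)
  obtain ⟨A, hA⟩ : ∃ A, A = log (1 + ζ) := ⟨_, rfl⟩
  obtain ⟨B, hB⟩ : ∃ B, B = log (1 - ζ) := ⟨_, rfl⟩
  have hA' : exp A = 1 + ζ := by rw [hA, Complex.exp_log h0]
  have hB' : exp B = 1 - ζ := by rw [hB, Complex.exp_log h0']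
  rw [← hA, ← hB]
  have hb' : (b : ℂ) ≠ 0 := by exact_mod_cast hb.ne'
  have h1 : (b * (I / b * (A - B)) / 2 : ℂ) = ((A - B) / 2) * I := by
    field_simp
  have h2 : cos (b * (I / b * (A - B)) / 2) = exp (-(A + B) / 2) := by
    rw [h1, Complex.cos_mul_I, Complex.cosh]
    have h3 : exp ((A - B) / 2) = exp (-(A + B) / 2) * exp A := by
      rw [← Complex.exp_add]; congr 1; ring
    have h4 : exp (-((A - B) / 2)) = exp (-(A + B) / 2) * exp B := by
      rw [← Complex.exp_add]; congr 1; ring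
    rw [h3, h4, hA', hB']
    ring
  have h3 : sin (b * (I / b * (A - B)) / 2) = exp (-(A + B) / 2) * ζ * I := by
    rw [h1, Complex.sin_mul_I, Complex.sinh]
    have h3 : exp ((A - B) / 2) = exp (-(A + B) / 2) * exp A := by
      rw [← Complex.exp_add]; congr 1; ring
    have h4 : exp (-((A - B) / 2)) = exp (-(A + B) / 2) * exp B := by
      rw [← Complex.exp_add]; congr 1; ring
    rw [h3, h4, hA', hB']
    ring
  have h4 : exp (-(A + B) / 2) ≠ 0 := Complex.exp_ne_zero _
  refine ⟨?_, by rw [h2]; exact h4⟩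
  ext i
  refine Fin.cases ?_ (fun j => ?_) i
  · simp only [annSec, Fin.cons_zero]
    rw [h2, h3, ← hζ]
    field_simp
    rw [Complex.I_sq]
    ring
  · simp only [annSec, annMap, Fin.cons_succ]
    rw [h2, ← hζ, ← hA, ← hB]
    rw [mul_assoc, ← Complex.exp_add]
    rw [show -(A + B) / 2 - c j * (I / b * (A - B)) / 2 + c j * (I / b * (A - B)) / 2
      = -(A + B) / 2 by ring]
    field_simp

theorem map_mem {b : ℝ} (hb : 0 < b) (c : Fin m → ℝ) {z : EuclideanSpace ℂ (Fin (m + 1))}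
    (hz : z ∈ ball (0 : EuclideanSpace ℂ (Fin (m + 1))) 1) : annMap b c z ∈ annDom b c := by
  rw [mem_ball_zero_iff] at hz
  have hz0 : ‖z 0‖ < 1 := (PiLp.norm_apply_le z 0).trans_lt hz
  obtain ⟨h1, h2⟩ := sec_map hb c hz0
  have h3 : annMap b c z 0 = exp (I / b * (log (1 + z 0) - log (1 - z 0))) := by
    simp [annMap]
  have h4 : Real.log ‖annMap b c z 0‖ = -(log (1 + z 0) - log (1 - z 0)).im / b := by
    rw [h3, Complex.norm_exp, Real.log_exp, re_lam]
  refine ⟨by rw [h3]; exact Complex.exp_ne_zero _, ?_, ?_⟩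
  · rw [h4, abs_div, abs_neg, abs_of_pos hb, div_lt_div_iff₀ hb (by positivity)]
    have := diff_im hz0
    nlinarith
  · rw [← norm_sec b c h3.symm h2, h1]
    exact hz

theorem sec_mem {b : ℝ} (hb : 0 < b) (c : Fin m → ℝ) {l : ℂ}
    {w : EuclideanSpace ℂ (Fin (m + 1))} (hw : w ∈ annDom b c) (hl : exp l = w 0) :
    annSec b c l w ∈ ball (0 : EuclideanSpace ℂ (Fin (m + 1))) 1 ∧
      annMap b c (annSec b c l w) = w ∧ |(b * l / 2).re| < Real.pi / 4 := by
  obtain ⟨hw0, hw1, hw2⟩ := hw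
  have hb' : (b : ℂ) ≠ 0 := by exact_mod_cast hb.ne'
  have hre : |(b * l / 2).re| < Real.pi / 4 := by
    have h1 : (b * l / 2).re = b / 2 * l.re := by
      rw [show (b * l / 2 : ℂ) = ((b / 2 : ℝ) : ℂ) * l by push_cast; ring,
        Complex.re_ofReal_mul]
    have h2 : Real.log ‖w 0‖ = l.re := by rw [← hl, Complex.norm_exp, Real.log_exp]
    rw [h2] at hw1
    rw [h1, abs_mul, abs_of_pos (by positivity)]
    calc b / 2 * |l.re| < b / 2 * (Real.pi / (2 * b)) := by gcongr
      _ = Real.pi / 4 := by field_simp; norm_num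
  have hcpos : 0 < (cos (b * l / 2)).re :=
    cos_re_pos (hre.trans (by linarith [Real.pi_pos]))
  have hc0 : cos (b * l / 2) ≠ 0 := ne_zero_of_re hcpos
  have hmem : annSec b c l w ∈ ball (0 : EuclideanSpace ℂ (Fin (m + 1))) 1 := by
    rw [mem_ball_zero_iff, norm_sec b c hl hc0]
    exact hw2
  refine ⟨hmem, ?_, hre⟩
  obtain ⟨t, ht⟩ : ∃ t : ℂ, t = b * l / 2 := ⟨_, rfl⟩
  rw [← ht] at hre hcpos hc0
  have hz0 : annSec b c l w 0 = -I * (sin t / cos t) := by
    simp [annSec, ht]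
  have hzn : ‖-I * (sin t / cos t)‖ < 1 := by
    rw [← hz0]
    rw [mem_ball_zero_iff] at hmem
    exact (PiLp.norm_apply_le _ 0).trans_lt hmem
  obtain ⟨A, hA⟩ : ∃ A, A = log (1 + -I * (sin t / cos t)) := ⟨_, rfl⟩
  obtain ⟨B, hB⟩ : ∃ B, B = log (1 - -I * (sin t / cos t)) := ⟨_, rfl⟩
  have h0 := ne_zero_of_re (one_add_re hzn)
  have h0' := ne_zero_of_re (one_sub_re hzn)
  have hA' : exp A = exp (-(t * I)) / cos t := by
    rw [hA, Complex.exp_log h0, ← neg_mul, Complex.exp_mul_I, Complex.cos_neg, Complex.sin_neg]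
    field_simp
  have hB' : exp B = exp (t * I) / cos t := by
    rw [hB, Complex.exp_log h0', Complex.exp_mul_I]
    field_simp
    ring
  have hAi := log_im (one_add_re hzn)
  have hBi := log_im (one_sub_re hzn)
  rw [← hA] at hAi
  rw [← hB] at hBi
  have hdiff : A - B = -(2 * t * I) := by
    have h1 : A - B = log (exp (A - B)) := by
      rw [Complex.log_exp]
      · rw [Complex.sub_im]
        linarith [(abs_lt.mp hAi).1, (abs_lt.mp hBi).2]
      · rw [Complex.sub_im]
        linarith [(abs_lt.mp hAi).2, (abs_lt.mp hBi).1]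
    have h2 : (-(2 * t * I)).im = -(2 * t.re) := by simp
    have h3 : -(2 * t * I) = log (exp (-(2 * t * I))) := by
      rw [Complex.log_exp]
      · rw [h2]
        linarith [(abs_lt.mp hre).2, Real.pi_pos]
      · rw [h2]
        linarith [(abs_lt.mp hre).1, Real.pi_pos]
    rw [h1, h3]
    congr 1
    rw [Complex.exp_sub, hA', hB']
    rw [show -(2 * t * I) = -(t * I) - t * I by ring, Complex.exp_sub]
    field_simp
  have hsum : exp (-(A + B) / 2) = cos t := by
    have h1 : exp (-(A + B) / 2) ^ 2 = cos t ^ 2 := by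
      rw [← Complex.exp_nat_mul]
      rw [show ((2 : ℕ) : ℂ) * (-(A + B) / 2) = -(A + B) by push_cast; ring]
      rw [Complex.exp_neg, Complex.exp_add, hA', hB', div_mul_div_comm, ← Complex.exp_add]
      simp
      ring
    rcases sq_eq_sq_iff_eq_or_eq_neg.mp h1 with h2 | h2
    · exact h2
    · exfalso
      have h3 : 0 < (exp (-(A + B) / 2)).re := by
        rw [Complex.exp_re]
        apply mul_pos (Real.exp_pos _)
        apply Real.cos_pos_of_mem_Ioo
        have h4 : (-(A + B) / 2).im = -(A.im + B.im) / 2 := by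
          rw [show (-(A + B) / 2 : ℂ) = ((1 / 2 : ℝ) : ℂ) * (-(A + B)) by push_cast; ring,
            Complex.im_ofReal_mul]
          simp
          ring
        rw [h4]
        constructor
        · linarith [(abs_lt.mp hAi).2, (abs_lt.mp hBi).2]
        · linarith [(abs_lt.mp hAi).1, (abs_lt.mp hBi).1]
      rw [h2] at h3
      simp only [Complex.neg_re] at h3
      linarith
  have hlam : I / b * (A - B) = l := by
    rw [hdiff, ht]
    field_simp
    rw [Complex.I_sq]
    ring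
  ext i
  refine Fin.cases ?_ (fun j => ?_) i
  · simp only [annMap, Fin.cons_zero]
    rw [hz0, ← hA, ← hB, hlam, hl]
  · simp only [annMap, Fin.cons_succ]
    rw [hz0, ← hA, ← hB, hlam]
    rw [Complex.exp_sub, hsum]
    simp only [annSec, Fin.cons_succ]
    rw [← ht]
    have h5 : exp (c j * l / 2) ≠ 0 := Complex.exp_ne_zero _
    field_simp

end Pool.Agent.MPca0fc2.DO
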