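import Mathlib
import Pool.Agent.Lib.MP_ca0fc2_an.DOMap
import Pool.Agent.Lib.MP_ca0fc2_an.Defs
import Pool.Agent.Lib.MP_ca0fc2_an.Mg.G073

/-! Solutions on the ball descend to `annDom`: averages over the group of the covering. -/

set_option autoImplicit false

open Complex Metric Set Filter Topology

namespace Pool.Agent.MPca0fc2.DO

open Pool.Agent.Lib.MP_ca0fc2_an

variable {m : ℕ}

theorem isOpen_annDom (b : ℝ) (c : Fin m → ℝ) : IsOpen (annDom b c) := by
  have hU : IsOpen {w : EuclideanSpace ℂ (Fin (m + 1)) | w 0 ≠ 0} := by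
    have h1 : Continuous fun w : EuclideanSpace ℂ (Fin (m + 1)) => w 0 := by fun_prop
    exact isOpen_ne_fun h1 continuous_const
  have hlog : ContinuousOn (fun w : EuclideanSpace ℂ (Fin (m + 1)) => Real.log ‖w 0‖)
      {w | w 0 ≠ 0} := by
    apply ContinuousOn.log
    · fun_prop
    · intro w hw
      exact (norm_pos_iff.mpr hw).ne'
  have h1 : ContinuousOn (fun w : EuclideanSpace ℂ (Fin (m + 1)) =>
      (|Real.log ‖w 0‖|, Real.cos (b * Real.log ‖w 0‖) -
        ∑ j : Fin m, ‖w j.succ‖ ^ 2 * ‖w 0‖ ^ c j)) {w | w 0 ≠ 0} := by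
    apply ContinuousOn.prodMk hlog.abs
    apply ContinuousOn.sub
    · exact Real.continuous_cos.comp_continuousOn (continuousOn_const.mul hlog)
    · apply continuousOn_finsetSum
      intro j _
      apply ContinuousOn.mul (by fun_prop)
      apply ContinuousOn.rpow_const (by fun_prop)
      intro w hw
      exact Or.inl (norm_pos_iff.mpr hw).ne'
  have h2 := h1.isOpen_inter_preimage hU
    ((isOpen_Iio (a := Real.pi / (2 * b))).prod (isOpen_Ioi (a := (0 : ℝ))))
  convert h2 using 1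
  ext w
  simp only [annDom, mem_ofPred_eq, mem_inter_iff, mem_preimage, mem_prod, mem_Iio, mem_Ioi,
    sub_pos]

theorem coord_diff (i : Fin (m + 1)) {U : Set (EuclideanSpace ℂ (Fin (m + 1)))} :
    DifferentiableOn ℂ (fun z : EuclideanSpace ℂ (Fin (m + 1)) => z i) U :=
  (EuclideanSpace.proj (𝕜 := ℂ) i).differentiable.differentiableOn

theorem div_two {U : Set (EuclideanSpace ℂ (Fin (m + 1)))}
    {f : EuclideanSpace ℂ (Fin (m + 1)) → ℂ} (h : DifferentiableOn ℂ f U) :
    DifferentiableOn ℂ (fun z => f z / 2) U := by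
  simpa only [div_eq_mul_inv] using h.mul_const (2 : ℂ)⁻¹

theorem map_diff (b : ℝ) (c : Fin m → ℝ) : DifferentiableOn ℂ (annMap b c)
    (ball (0 : EuclideanSpace ℂ (Fin (m + 1))) 1) := by
  have h1 : DifferentiableOn ℂ (fun z : EuclideanSpace ℂ (Fin (m + 1)) => log (1 + z 0))
      (ball 0 1) := by
    apply DifferentiableOn.clog
    · exact (differentiableOn_const _).add (coord_diff 0)
    · intro z hz
      rw [mem_ball_zero_iff] at hz
      exact Or.inl (one_add_re ((PiLp.norm_apply_le z 0).trans_lt hz))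
  have h2 : DifferentiableOn ℂ (fun z : EuclideanSpace ℂ (Fin (m + 1)) => log (1 - z 0))
      (ball 0 1) := by
    apply DifferentiableOn.clog
    · exact (differentiableOn_const _).sub (coord_diff 0)
    · intro z hz
      rw [mem_ball_zero_iff] at hz
      exact Or.inl (one_sub_re ((PiLp.norm_apply_le z 0).trans_lt hz))
  rw [differentiableOn_euclidean]
  intro i
  refine Fin.cases ?_ (fun j => ?_) i
  · simp only [annMap, Fin.cons_zero]
    exact ((h1.fun_sub h2).const_mul (I / b)).cexp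
  · simp only [annMap, Fin.cons_succ]
    apply (coord_diff _).mul
    apply DifferentiableOn.cexp
    apply DifferentiableOn.sub
    · exact div_two (h1.fun_add h2).fun_neg
    · exact div_two (((h1.fun_sub h2).const_mul (I / b)).const_mul (c j : ℂ))

/-- the local inverse is holomorphic -/
theorem sec_diff {b : ℝ} (hb : 0 < b) (c : Fin m → ℝ) {U : Set (EuclideanSpace ℂ (Fin (m + 1)))}
    (hU : U ⊆ annDom b c) {l : EuclideanSpace ℂ (Fin (m + 1)) → ℂ} (hl : DifferentiableOn ℂ l U)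
    (hle : ∀ w ∈ U, exp (l w) = w 0) :
    DifferentiableOn ℂ (fun w => annSec b c (l w) w) U := by
  have hc : ∀ w ∈ U, cos (b * l w / 2) ≠ 0 := fun w hw => by
    have h1 := (sec_mem hb c (hU hw) (hle w hw)).2.2
    exact ne_zero_of_re (cos_re_pos (h1.trans (by linarith [Real.pi_pos])))
  have h1 : DifferentiableOn ℂ (fun w => (b * l w / 2 : ℂ)) U :=
    div_two (hl.const_mul (b : ℂ))
  have hinv : DifferentiableOn ℂ (fun w => (cos (b * l w / 2))⁻¹) U := h1.ccos.fun_inv hc
  rw [differentiableOn_euclidean]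
  intro i
  refine Fin.cases ?_ (fun j => ?_) i
  · simp only [annSec, Fin.cons_zero, div_eq_mul_inv]
    simp only [div_eq_mul_inv] at hinv h1
    exact ((h1.csin.mul hinv).const_mul _)
  · have h2 : DifferentiableOn ℂ (fun w => exp (c j * l w / 2)) U :=
      (div_two (hl.const_mul (c j : ℂ))).cexp
    simp only [annSec, Fin.cons_succ]
    simp only [div_eq_mul_inv] at hinv h2 ⊢
    exact ((coord_diff _).mul h2).mul hinv

theorem exp_shift (l : ℂ) (k : ℕ) : exp (l + 2 * Real.pi * I * k) = exp l := by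
  rw [Complex.exp_add, show (2 * Real.pi * I * k : ℂ) = k * (2 * Real.pi * I) by ring,
    Complex.exp_nat_mul_two_pi_mul_I, mul_one]

/-- the averages -/
noncomputable def avg (b : ℝ) (c : Fin m → ℝ) (H : EuclideanSpace ℂ (Fin (m + 1)) → ℂ) (M : ℕ)
    (l : ℂ) (w : EuclideanSpace ℂ (Fin (m + 1))) : ℂ :=
  (∑ k ∈ Finset.range (M + 1), H (annSec b c (l + 2 * Real.pi * I * k) w)) / ((M : ℂ) + 1)

theorem avg_norm {b : ℝ} (hb : 0 < b) (c : Fin m → ℝ) {H : EuclideanSpace ℂ (Fin (m + 1)) → ℂ}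
    {C : ℝ} (hH : ∀ z ∈ ball (0 : EuclideanSpace ℂ (Fin (m + 1))) 1, ‖H z‖ ≤ C) (M : ℕ) {l : ℂ}
    {w : EuclideanSpace ℂ (Fin (m + 1))} (hw : w ∈ annDom b c) (hl : exp l = w 0) :
    ‖avg b c H M l w‖ ≤ C := by
  have h0 : (0 : ℝ) < (M : ℝ) + 1 := by positivity
  have h1 : ‖((M : ℂ) + 1)‖ = (M : ℝ) + 1 := by
    rw [show ((M : ℂ) + 1) = (((M : ℝ) + 1 : ℝ) : ℂ) by push_cast; rfl, Complex.norm_real,
      Real.norm_of_nonneg h0.le]
  unfold avg
  rw [norm_div, h1, div_le_iff₀ h0]
  calc ‖∑ k ∈ Finset.range (M + 1), H (annSec b c (l + 2 * Real.pi * I * k) w)‖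
      ≤ ∑ k ∈ Finset.range (M + 1), C := by
        refine norm_sum_le_of_le _ fun k _ => hH _ ?_
        exact (sec_mem hb c hw (by rw [exp_shift, hl])).1
    _ = C * ((M : ℝ) + 1) := by
        rw [Finset.sum_const, Finset.card_range, nsmul_eq_mul]
        push_cast
        ring

theorem avg_shift {b : ℝ} (hb : 0 < b) (c : Fin m → ℝ) {H : EuclideanSpace ℂ (Fin (m + 1)) → ℂ}
    {C : ℝ} (hH : ∀ z ∈ ball (0 : EuclideanSpace ℂ (Fin (m + 1))) 1, ‖H z‖ ≤ C) (M : ℕ) {l : ℂ}
    {w : EuclideanSpace ℂ (Fin (m + 1))} (hw : w ∈ annDom b c) (hl : exp l = w 0) :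
    ‖avg b c H M (l + 2 * Real.pi * I) w - avg b c H M l w‖ ≤ 2 * C / ((M : ℝ) + 1) := by
  have h0 : (0 : ℝ) < (M : ℝ) + 1 := by positivity
  have h1 : ‖((M : ℂ) + 1)‖ = (M : ℝ) + 1 := by
    rw [show ((M : ℂ) + 1) = (((M : ℝ) + 1 : ℝ) : ℂ) by push_cast; rfl, Complex.norm_real,
      Real.norm_of_nonneg h0.le]
  unfold avg
  rw [← sub_div, norm_div, h1]
  have h2 : ∀ k : ℕ, H (annSec b c (l + 2 * Real.pi * I + 2 * Real.pi * I * k) w) =
      H (annSec b c (l + 2 * Real.pi * I * ((k + 1 : ℕ) : ℂ)) w) := by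
    intro k
    congr 2
    push_cast
    ring
  have h3 : (∑ k ∈ Finset.range (M + 1), H (annSec b c (l + 2 * Real.pi * I + 2 * Real.pi * I * k) w))
      - ∑ k ∈ Finset.range (M + 1), H (annSec b c (l + 2 * Real.pi * I * k) w) =
      H (annSec b c (l + 2 * Real.pi * I * ((M + 1 : ℕ) : ℂ)) w) -
        H (annSec b c (l + 2 * Real.pi * I * ((0 : ℕ) : ℂ)) w) := by
    rw [Finset.sum_congr rfl fun k _ => h2 k, ← Finset.sum_sub_distrib]
    exact Finset.sum_range_sub (fun k : ℕ => H (annSec b c (l + 2 * Real.pi * I * (k : ℂ)) w)) _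
  rw [h3]
  gcongr
  refine (norm_sub_le _ _).trans ?_
  have h4 := hH _ (sec_mem hb c hw (l := l + 2 * Real.pi * I * ((M + 1 : ℕ) : ℂ))
    (by rw [exp_shift, hl])).1
  have h5 := hH _ (sec_mem hb c hw (l := l + 2 * Real.pi * I * ((0 : ℕ) : ℂ))
    (by rw [exp_shift, hl])).1
  linarith

theorem log_branch {x : ℂ} (hx : x ≠ 0) :
    log (-x) + Real.pi * I = log x ∨ log (-x) + Real.pi * I = log x + 2 * Real.pi * I := by
  have h1 : exp (log (-x) + Real.pi * I) = exp (log x) := by
    rw [Complex.exp_add, Complex.exp_log (neg_ne_zero.mpr hx), Complex.exp_pi_mul_I,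
      Complex.exp_log hx]
    ring
  obtain ⟨k, hk⟩ := Complex.exp_eq_exp_iff_exists_int.mp h1
  have h2 : (log (-x)).im + Real.pi = (log x).im + k * (2 * Real.pi) := by
    have := congrArg Complex.im hk
    simpa using this
  have h3 := Complex.neg_pi_lt_log_im (-x)
  have h4 := Complex.log_im_le_pi (-x)
  have h5 := Complex.neg_pi_lt_log_im x
  have h6 := Complex.log_im_le_pi x
  have hp := Real.pi_pos
  have hk1 : (-1 : ℝ) < k := by
    by_contra hcon
    push Not at hcon
    nlinarith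
  have hk2 : (k : ℝ) < 2 := by
    by_contra hcon
    push Not at hcon
    nlinarith
  have hk1' : (-1 : ℤ) < k := by exact_mod_cast hk1
  have hk2' : k < 2 := by exact_mod_cast hk2
  have h7 : k = 0 ∨ k = 1 := by omega
  rcases h7 with rfl | rfl
  · left
    rw [hk]
    simp
  · right
    rw [hk]
    push_cast
    ring

end Pool.Agent.MPca0fc2.DO
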