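import Mathlib
import Pool.Agent.Lib.MP_ca0fc2_an.DODesc

/-! Solutions on the ball descend to `annDom`, with the same bound. -/

set_option autoImplicit false

open Complex Metric Set Filter Topology

namespace Pool.Agent.MPca0fc2.DO

open Pool.Agent.Lib.MP_ca0fc2_an

variable {m : ℕ}

theorem avg_diff {b : ℝ} (hb : 0 < b) (c : Fin m → ℝ) {H : EuclideanSpace ℂ (Fin (m + 1)) → ℂ}
    (hH : DifferentiableOn ℂ H (ball 0 1)) (M : ℕ)
    {U : Set (EuclideanSpace ℂ (Fin (m + 1)))} (hU : U ⊆ annDom b c)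
    {l : EuclideanSpace ℂ (Fin (m + 1)) → ℂ} (hl : DifferentiableOn ℂ l U)
    (hle : ∀ w ∈ U, exp (l w) = w 0) :
    DifferentiableOn ℂ (fun w => avg b c H M (l w) w) U := by
  have h1 : ∀ k : ℕ, DifferentiableOn ℂ
      (fun w => H (annSec b c (l w + 2 * Real.pi * I * k) w)) U := by
    intro k
    have h2 : DifferentiableOn ℂ (fun w => annSec b c (l w + 2 * Real.pi * I * k) w) U :=
      sec_diff hb c hU (hl.add_const _) fun w hw => by rw [exp_shift, hle w hw]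
    exact hH.comp h2 fun w hw => (sec_mem hb c (hU hw) (by rw [exp_shift, hle w hw])).1
  have h2 : DifferentiableOn ℂ (fun w => ∑ k ∈ Finset.range (M + 1),
      H (annSec b c (l w + 2 * Real.pi * I * k) w)) U :=
    DifferentiableOn.fun_sum fun k _ => h1 k
  simpa only [avg, div_eq_mul_inv] using h2.mul_const ((M : ℂ) + 1)⁻¹

theorem avg_sum {b : ℝ} (hb : 0 < b) (c : Fin m → ℝ) {N : ℕ}
    {f H : Fin N → EuclideanSpace ℂ (Fin (m + 1)) → ℂ}
    (h : ∀ z ∈ ball (0 : EuclideanSpace ℂ (Fin (m + 1))) 1,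
      ∑ j, f j (annMap b c z) * H j z = 1) (M : ℕ) {l : ℂ}
    {w : EuclideanSpace ℂ (Fin (m + 1))} (hw : w ∈ annDom b c) (hl : exp l = w 0) :
    ∑ j, f j w * avg b c (H j) M l w = 1 := by
  have h0 : ((M : ℂ) + 1) ≠ 0 := by
    exact_mod_cast Nat.succ_ne_zero M
  have h1 : ∀ k : ℕ, ∑ j, f j w * H j (annSec b c (l + 2 * Real.pi * I * k) w) = 1 := by
    intro k
    obtain ⟨h2, h3, -⟩ := sec_mem hb c hw (l := l + 2 * Real.pi * I * k)
      (by rw [exp_shift, hl])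
    have h4 := h _ h2
    rwa [h3] at h4
  unfold avg
  calc ∑ j, f j w * ((∑ k ∈ Finset.range (M + 1),
        H j (annSec b c (l + 2 * Real.pi * I * k) w)) / ((M : ℂ) + 1))
      = (∑ k ∈ Finset.range (M + 1), ∑ j,
          f j w * H j (annSec b c (l + 2 * Real.pi * I * k) w)) / ((M : ℂ) + 1) := by
        rw [Finset.sum_comm, Finset.sum_div]
        refine Finset.sum_congr rfl fun j _ => ?_
        rw [← Finset.mul_sum, mul_div_assoc]
    _ = (∑ k ∈ Finset.range (M + 1), (1 : ℂ)) / ((M : ℂ) + 1) := by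
        rw [Finset.sum_congr rfl fun k _ => h1 k]
    _ = 1 := by
        rw [Finset.sum_const, Finset.card_range, nsmul_eq_mul, mul_one]
        push_cast
        exact div_self h0

/-- the values where the principal logarithm is holomorphic -/
def U₁ (b : ℝ) (c : Fin m → ℝ) : Set (EuclideanSpace ℂ (Fin (m + 1))) :=
  annDom b c ∩ {w | w 0 ∈ slitPlane}

/-- the values where the other logarithm is holomorphic -/
def U₂ (b : ℝ) (c : Fin m → ℝ) : Set (EuclideanSpace ℂ (Fin (m + 1))) :=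
  annDom b c ∩ {w | -w 0 ∈ slitPlane}

theorem open₁ (b : ℝ) (c : Fin m → ℝ) : IsOpen (U₁ b c) := by
  have hc0 : Continuous fun w : EuclideanSpace ℂ (Fin (m + 1)) => w 0 := by fun_prop
  exact (isOpen_annDom b c).inter (isOpen_slitPlane.preimage hc0)

theorem open₂ (b : ℝ) (c : Fin m → ℝ) : IsOpen (U₂ b c) := by
  have hc0 : Continuous fun w : EuclideanSpace ℂ (Fin (m + 1)) => -w 0 := by fun_prop
  exact (isOpen_annDom b c).inter (isOpen_slitPlane.preimage hc0)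

theorem cov₁₂ {b : ℝ} {c : Fin m → ℝ} {w : EuclideanSpace ℂ (Fin (m + 1))}
    (hw : w ∈ annDom b c) : w ∈ U₁ b c ∨ w ∈ U₂ b c := by
  by_cases h1 : w 0 ∈ slitPlane
  · exact Or.inl ⟨hw, h1⟩
  · refine Or.inr ⟨hw, ?_⟩
    rw [mem_ofPred_eq, mem_slitPlane_iff]
    rw [mem_slitPlane_iff] at h1
    push Not at h1
    left
    have h2 : w 0 ≠ 0 := hw.1
    simp only [Complex.neg_re]
    rcases lt_or_eq_of_le h1.1 with h3 | h3
    · linarith
    · exact absurd (Complex.ext h3 (by simpa using h1.2)) h2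

theorem he₁ {b : ℝ} {c : Fin m → ℝ} {w : EuclideanSpace ℂ (Fin (m + 1))}
    (hw : w ∈ annDom b c) : exp (log (w 0)) = w 0 := Complex.exp_log hw.1

theorem he₂ {b : ℝ} {c : Fin m → ℝ} {w : EuclideanSpace ℂ (Fin (m + 1))}
    (hw : w ∈ annDom b c) : exp (log (-w 0) + Real.pi * I) = w 0 := by
  rw [Complex.exp_add, Complex.exp_log (neg_ne_zero.mpr hw.1), Complex.exp_pi_mul_I]
  ring

theorem small_lim (C : ℝ) (𝒰 : Ultrafilter ℕ) (hle : (𝒰 : Filter ℕ) ≤ atTop) :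
    Tendsto (fun M : ℕ => 2 * C / ((M : ℝ) + 1)) 𝒰 (𝓝 0) := by
  refine Tendsto.mono_left ?_ hle
  exact (tendsto_const_div_atTop_nhds_zero_nat (2 * C)).comp (tendsto_add_atTop_nat 1) |>.congr
    fun M => by simp

/-- the limit of the averages does not depend on the branch -/
theorem lim_branch {b : ℝ} (hb : 0 < b) (c : Fin m → ℝ)
    {H : EuclideanSpace ℂ (Fin (m + 1)) → ℂ} {C : ℝ}
    (hH : ∀ z ∈ ball (0 : EuclideanSpace ℂ (Fin (m + 1))) 1, ‖H z‖ ≤ C)
    (𝒰 : Ultrafilter ℕ) (hle : (𝒰 : Filter ℕ) ≤ atTop)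
    {w : EuclideanSpace ℂ (Fin (m + 1))} (hw : w ∈ annDom b c) {x y : ℂ}
    (hx : Tendsto (fun M => avg b c H M (log (w 0)) w) 𝒰 (𝓝 x))
    (hy : Tendsto (fun M => avg b c H M (log (-w 0) + Real.pi * I) w) 𝒰 (𝓝 y)) : x = y := by
  have h1 := hy.sub hx
  have hC : 0 ≤ C := (norm_nonneg _).trans (hH _ (sec_mem hb c hw (he₁ hw)).1)
  have h2 : Tendsto (fun M => avg b c H M (log (-w 0) + Real.pi * I) w -
      avg b c H M (log (w 0)) w) 𝒰 (𝓝 0) := by
    rw [tendsto_zero_iff_norm_tendsto_zero]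
    refine squeeze_zero (fun _ => norm_nonneg _) (fun M => ?_) (small_lim C 𝒰 hle)
    rcases log_branch hw.1 with h3 | h3
    · rw [h3, sub_self, norm_zero]
      positivity
    · rw [h3]
      exact avg_shift hb c hH M hw (he₁ hw)
  exact (sub_eq_zero.mp (tendsto_nhds_unique h1 h2)).symm

/-- the average of one function -/
theorem desc_one {b : ℝ} (hb : 0 < b) (c : Fin m → ℝ)
    {H : EuclideanSpace ℂ (Fin (m + 1)) → ℂ} {C : ℝ} (hC : 0 ≤ C)
    (hd : DifferentiableOn ℂ H (ball 0 1))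
    (hH : ∀ z ∈ ball (0 : EuclideanSpace ℂ (Fin (m + 1))) 1, ‖H z‖ ≤ C)
    (𝒰 : Ultrafilter ℕ) (hle : (𝒰 : Filter ℕ) ≤ atTop) :
    ∃ g : EuclideanSpace ℂ (Fin (m + 1)) → ℂ, DifferentiableOn ℂ g (annDom b c) ∧
      (∀ w ∈ annDom b c, ‖g w‖ ≤ C) ∧
      ∀ w ∈ annDom b c, Tendsto (fun M => avg b c H M (log (w 0)) w) 𝒰 (𝓝 (g w)) := by
  have h1 : ∀ w, ∃ y : ℂ, w ∈ annDom b c → ‖y‖ ≤ C ∧
      Tendsto (fun M => avg b c H M (log (w 0)) w) 𝒰 (𝓝 y) := by
    intro w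
    by_cases hw : w ∈ annDom b c
    · have hc : IsCompact (closedBall (0 : ℂ) C) := isCompact_closedBall 0 C
      obtain ⟨y, hy, hy2⟩ := hc.ultrafilter_le_nhds'
        (𝒰.map fun M => avg b c H M (log (w 0)) w) (by
          rw [Ultrafilter.mem_map]
          apply Filter.univ_mem'
          intro M
          exact mem_closedBall_zero_iff.mpr (avg_norm hb c hH M hw (he₁ hw)))
      exact ⟨y, fun _ => ⟨mem_closedBall_zero_iff.mp hy, hy2⟩⟩
    · exact ⟨0, fun h => absurd h hw⟩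
  choose g hg using h1
  have hl₁ : DifferentiableOn ℂ (fun w : EuclideanSpace ℂ (Fin (m + 1)) => log (w 0))
      (U₁ b c) := (coord_diff 0).clog fun w hw => hw.2
  have hl₂ : DifferentiableOn ℂ
      (fun w : EuclideanSpace ℂ (Fin (m + 1)) => log (-w 0) + Real.pi * I) (U₂ b c) :=
    ((coord_diff 0).fun_neg.clog fun w hw => hw.2).add_const _
  obtain ⟨g₁, hg₁, -, hg₁l⟩ := Pool.Agent.MPca0fc2.SL.ultra_holo 𝒰
    (G := fun M w => avg b c H M (log (w 0)) w) (open₁ b c) hC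
    (fun M => avg_diff hb c hd M inter_subset_left hl₁ fun w hw => he₁ hw.1)
    (fun M w hw => avg_norm hb c hH M hw.1 (he₁ hw.1))
  obtain ⟨g₂, hg₂, -, hg₂l⟩ := Pool.Agent.MPca0fc2.SL.ultra_holo 𝒰
    (G := fun M w => avg b c H M (log (-w 0) + Real.pi * I) w) (open₂ b c) hC
    (fun M => avg_diff hb c hd M inter_subset_left hl₂ fun w hw => he₂ hw.1)
    (fun M w hw => avg_norm hb c hH M hw.1 (he₂ hw.1))
  refine ⟨g, ?_, fun w hw => (hg w hw).1, fun w hw => (hg w hw).2⟩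
  intro w hw
  apply DifferentiableAt.differentiableWithinAt
  rcases cov₁₂ hw with h1 | h1
  · refine (hg₁.differentiableAt ((open₁ b c).mem_nhds h1)).congr_of_eventuallyEq ?_
    filter_upwards [(open₁ b c).mem_nhds h1] with v hv
    exact tendsto_nhds_unique (hg v hv.1).2 (hg₁l v hv)
  · refine (hg₂.differentiableAt ((open₂ b c).mem_nhds h1)).congr_of_eventuallyEq ?_
    filter_upwards [(open₂ b c).mem_nhds h1] with v hv
    exact lim_branch hb c hH 𝒰 hle hv.1 (hg v hv.1).2 (hg₂l v hv)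

/-- Solutions on the ball descend, with the same bound. -/
theorem descend {b : ℝ} (hb : 0 < b) (c : Fin m → ℝ) {N : ℕ}
    {f : Fin N → EuclideanSpace ℂ (Fin (m + 1)) → ℂ} {C : ℝ}
    (h : SolvableOn (fun j z => f j (annMap b c z)) (ball 0 1) C) :
    SolvableOn f (annDom b c) C := by
  obtain ⟨H, hH1, hH2, hH3⟩ := h
  have hC : Fin N → 0 ≤ C := fun j =>
    (norm_nonneg _).trans (hH2 j 0 (mem_ball_self one_pos))
  obtain ⟨𝒰, hle⟩ : ∃ 𝒰 : Ultrafilter ℕ, (𝒰 : Filter ℕ) ≤ atTop :=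
    ⟨Ultrafilter.of atTop, Ultrafilter.of_le _⟩
  have key := fun j => desc_one hb c (hC j) (hH1 j) (hH2 j) 𝒰 hle
  choose g hg1 hg2 hg3 using key
  refine ⟨g, hg1, hg2, fun w hw => ?_⟩
  have h2 : Tendsto (fun M => ∑ j, f j w * avg b c (H j) M (log (w 0)) w) 𝒰
      (𝓝 (∑ j, f j w * g j w)) :=
    tendsto_finsetSum _ fun j _ => (hg3 j w hw).const_mul _
  have h3 : Tendsto (fun M => ∑ j, f j w * avg b c (H j) M (log (w 0)) w) 𝒰 (𝓝 1) :=
    tendsto_const_nhds.congr fun M => (avg_sum hb c hH3 M hw (he₁ hw)).symm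
  exact tendsto_nhds_unique h2 h3

end Pool.Agent.MPca0fc2.DO
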