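import Mathlib
import Pool.Agent.Lib.MP_ca0fc2_an.SGMain

/-! The corona theorem for data in the closed algebra generated by an algebra with `LocAlg` and one
arbitrary function. -/

set_option autoImplicit false

open Metric Set Filter Topology MeasureTheory

namespace Pool.Agent.MPca0fc2.SG

open Pool.Agent.Lib.MP_ca0fc2_an
open Pool.Agent.MPca0fc2.SP

variable {n : ℕ}

/-- An element of the algebra generated by `A` and `F` is nearly a polynomial in `F`. -/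
theorem adjoin_one {A : Set (EuclideanSpace ℂ (Fin n) → ℂ)} (hA : LocAlg A)
    {U : Ultrafilter (EuclideanSpace ℂ (Fin n))} (hU : ball 0 1 ∈ U)
    {F : EuclideanSpace ℂ (Fin n) → ℂ} {R : ℝ}
    (hFR : ∀ z ∈ ball (0 : EuclideanSpace ℂ (Fin n)) 1, ‖F z‖ ≤ R)
    {q : EuclideanSpace ℂ (Fin n) → ℂ} (hq : q ∈ Algebra.adjoin ℂ (A ∪ {F})) :
    (∃ B : ℝ, 0 ≤ B ∧ ∀ z ∈ ball (0 : EuclideanSpace ℂ (Fin n)) 1, ‖q z‖ ≤ B) ∧
    ∀ ε : ℝ, 0 < ε → ∃ D, IsNhd (A) U D ∧ ∃ P : Polynomial ℂ, ∀ z ∈ D,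
      ‖q z - P.eval (F z)‖ ≤ ε := by
  induction hq using Algebra.adjoin_induction with
  | mem a ha =>
    rcases ha with ha | ha
    · obtain ⟨M, hM⟩ := hA.1 a ha
      obtain ⟨c, hc⟩ := ultra_lim hU hM
      refine ⟨⟨max M 0, le_max_right _ _, fun z hz => (hM z hz).trans (le_max_left _ _)⟩,
        fun ε hε => ⟨{z | z ∈ ball 0 1 ∧ ‖a z - c‖ < ε}, ⟨fun z hz => hz.1, 1, fun _ => a,
          fun _ => c, ε, hε, fun _ => ⟨ha, hc⟩, fun z hz h => ⟨hz, h 0⟩⟩, Polynomial.C c,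
          fun z hz => ?_⟩⟩
      rw [Polynomial.eval_C]
      exact hz.2.le
    · rw [mem_singleton_iff] at ha
      subst ha
      refine ⟨⟨max R 0, le_max_right _ _, fun z hz => (hFR z hz).trans (le_max_left _ _)⟩,
        fun ε hε => ⟨ball 0 1, nhd_ball _ _, Polynomial.X, fun z _ => ?_⟩⟩
      rw [Polynomial.eval_X, sub_self, norm_zero]
      exact hε.le
  | algebraMap r =>
    refine ⟨⟨‖r‖, norm_nonneg r, fun z _ => le_rfl⟩, fun ε hε => ⟨ball 0 1, nhd_ball _ _,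
      Polynomial.C r, fun z _ => ?_⟩⟩
    rw [Polynomial.eval_C]
    have h1 : (algebraMap ℂ (EuclideanSpace ℂ (Fin n) → ℂ) r) z = r := rfl
    rw [h1, sub_self, norm_zero]
    exact hε.le
  | add x y _ _ hx hy =>
    obtain ⟨⟨B, hB0, hB⟩, h1⟩ := hx
    obtain ⟨⟨B', hB0', hB'⟩, h2⟩ := hy
    refine ⟨⟨B + B', add_nonneg hB0 hB0', fun z hz => (norm_add_le _ _).trans
      (add_le_add (hB z hz) (hB' z hz))⟩, fun ε hε => ?_⟩
    obtain ⟨D, hD, P, hP⟩ := h1 (ε / 2) (half_pos hε)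
    obtain ⟨D', hD', P', hP'⟩ := h2 (ε / 2) (half_pos hε)
    refine ⟨D ∩ D', nhd_inter hD hD', P + P', fun z hz => ?_⟩
    rw [Polynomial.eval_add, Pi.add_apply, add_sub_add_comm]
    refine (norm_add_le _ _).trans ?_
    linarith [hP z hz.1, hP' z hz.2]
  | mul x y _ _ hx hy =>
    obtain ⟨⟨B, hB0, hB⟩, h1⟩ := hx
    obtain ⟨⟨B', hB0', hB'⟩, h2⟩ := hy
    refine ⟨⟨B * B', mul_nonneg hB0 hB0', fun z hz => ?_⟩, fun ε hε => ?_⟩
    · rw [Pi.mul_apply, norm_mul]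
      exact mul_le_mul (hB z hz) (hB' z hz) (norm_nonneg _) hB0
    obtain ⟨ε', hε', hε1, hε2⟩ : ∃ ε' : ℝ, 0 < ε' ∧ ε' ≤ 1 ∧ (B + B' + 1) * ε' ≤ ε := by
      refine ⟨min 1 (ε / (B + B' + 1)), by positivity, min_le_left _ _, ?_⟩
      calc (B + B' + 1) * min 1 (ε / (B + B' + 1)) ≤ (B + B' + 1) * (ε / (B + B' + 1)) :=
            mul_le_mul_of_nonneg_left (min_le_right _ _) (by positivity)
        _ = ε := by field_simp
    obtain ⟨D, hD, P, hP⟩ := h1 ε' hε'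
    obtain ⟨D', hD', P', hP'⟩ := h2 ε' hε'
    refine ⟨D ∩ D', nhd_inter hD hD', P * P', fun z hz => ?_⟩
    have hzb : z ∈ ball (0 : EuclideanSpace ℂ (Fin n)) 1 := hD.1 hz.1
    have h3 := hP z hz.1
    have h4 := hP' z hz.2
    have h5 := hB z hzb
    have h6 := hB' z hzb
    have h7 : ‖P'.eval (F z)‖ ≤ B' + 1 := by
      have h8 := norm_sub_norm_le (P'.eval (F z)) (y z)
      rw [norm_sub_rev] at h8
      linarith
    rw [Polynomial.eval_mul, Pi.mul_apply]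
    have e : x z * y z - P.eval (F z) * P'.eval (F z) =
        x z * (y z - P'.eval (F z)) + (x z - P.eval (F z)) * P'.eval (F z) := by ring
    rw [e]
    calc ‖x z * (y z - P'.eval (F z)) + (x z - P.eval (F z)) * P'.eval (F z)‖ ≤
        ‖x z‖ * ‖y z - P'.eval (F z)‖ + ‖x z - P.eval (F z)‖ * ‖P'.eval (F z)‖ := by
          refine (norm_add_le _ _).trans ?_
          rw [norm_mul, norm_mul]
      _ ≤ B * ε' + ε' * (B' + 1) := by
          refine add_le_add (mul_le_mul h5 h4 (norm_nonneg _) hB0)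
            (mul_le_mul h3 h7 (norm_nonneg _) hε'.le)
      _ = (B + B' + 1) * ε' := by ring
      _ ≤ ε := hε2

theorem spec_alg {A : Set (EuclideanSpace ℂ (Fin n) → ℂ)} (hA : LocAlg A) {N : ℕ}
    (f : Fin N → EuclideanSpace ℂ (Fin n) → ℂ) (F : EuclideanSpace ℂ (Fin n) → ℂ)
    (hF : DifferentiableOn ℂ F (ball 0 1)) {R : ℝ}
    (hFR : ∀ z ∈ ball (0 : EuclideanSpace ℂ (Fin n)) 1, ‖F z‖ ≤ R)
    (hf : ∀ j, f j ∈ ClosedAlg (A ∪ {F})) {δ : ℝ}
    (hδ : 0 < δ) (hfδ : ∀ z ∈ ball (0 : EuclideanSpace ℂ (Fin n)) 1, δ ≤ ∑ j, ‖f j z‖ ^ 2) :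
    ∃ C, SolvableOn f (ball 0 1) C := by
  have hpure : ball (0 : EuclideanSpace ℂ (Fin n)) 1 ∈
      (pure 0 : Ultrafilter (EuclideanSpace ℂ (Fin n))) := by
    rw [Ultrafilter.mem_pure]
    exact mem_ball_self one_pos
  refine spec_one hA f (fun j => (hf j).1) (fun j => ?_) hδ hfδ fun U hU => ?_
  · obtain ⟨q, hq, h⟩ := (hf j).2 1 one_pos
    obtain ⟨⟨B, -, hB⟩, -⟩ := adjoin_one hA hpure hFR hq
    refine ⟨B + 1, fun z hz => ?_⟩
    have h1 : f j z = (f j z - q z) + q z := by ring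
    rw [h1]
    refine (norm_add_le _ _).trans ?_
    linarith [h z hz, hB z hz]
  · refine ⟨ball 0 1, F, R, nhd_ball _ _, hF, hFR, fun ε hε => ?_⟩
    have h1 : ∀ j, ∃ D, IsNhd (A) U D ∧ ∃ P : Polynomial ℂ, ∀ z ∈ D,
        ‖f j z - P.eval (F z)‖ ≤ ε := by
      intro j
      obtain ⟨q, hq, h⟩ := (hf j).2 (ε / 2) (half_pos hε)
      obtain ⟨-, h2⟩ := adjoin_one hA hU hFR hq
      obtain ⟨D, hD, P, hP⟩ := h2 (ε / 2) (half_pos hε)
      refine ⟨D, hD, P, fun z hz => ?_⟩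
      have h3 := h z (hD.1 hz)
      have h4 := hP z hz
      calc ‖f j z - P.eval (F z)‖ = ‖(f j z - q z) + (q z - P.eval (F z))‖ := by congr 1; ring
        _ ≤ _ := norm_add_le _ _
        _ ≤ ε := by linarith
    choose D hD P hP using h1
    refine ⟨ball 0 1 ∩ ⋂ j ∈ Finset.univ, D j, inter_subset_left,
      nhd_finset Finset.univ D fun j _ => hD j, univ, fun j w => (P j).eval w, isOpen_univ,
      subset_univ _, fun j => (P j).differentiable.differentiableOn, fun z hz j => hP j z ?_⟩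
    have h2 := hz.2
    simp only [mem_iInter] at h2
    exact h2 j (Finset.mem_univ j)

end Pool.Agent.MPca0fc2.SG
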