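import Mathlib
import Pool.Agent.Lib.MP_ca0fc2_an.Holo

/-!
# The Banach algebra of bounded holomorphic functions on an open set
-/

set_option autoImplicit false

open Metric Set Filter Topology
open scoped BoundedContinuousFunction

namespace Pool.Agent.Lib.MP_ca0fc2_an

/-- The bounded holomorphic functions on the open set `D` in `ℂⁿ`, as functions on `D`. -/
def BddHol {n : ℕ} (D : Set (EuclideanSpace ℂ (Fin n))) : Set (D → ℂ) :=
  {f | (∃ g : EuclideanSpace ℂ (Fin n) → ℂ, DifferentiableOn ℂ g D ∧ ∀ z, f z = g z) ∧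
    ∃ M : ℝ, ∀ z, ‖f z‖ ≤ M}

section

variable {n : ℕ} {D : Set (EuclideanSpace ℂ (Fin n))}

theorem BddHol.mul {f g : D → ℂ} (hf : f ∈ BddHol D) (hg : g ∈ BddHol D) : f * g ∈ BddHol D := by
  obtain ⟨⟨F, hF, hF'⟩, M, hM⟩ := hf
  obtain ⟨⟨G, hG, hG'⟩, K, hK⟩ := hg
  refine ⟨⟨fun z => F z * G z, hF.mul hG, fun z => ?_⟩, M * K, fun z => ?_⟩
  · rw [Pi.mul_apply, hF', hG']
  · rw [Pi.mul_apply, norm_mul]
    exact mul_le_mul (hM z) (hK z) (norm_nonneg _) ((norm_nonneg _).trans (hM z))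

theorem BddHol.add {f g : D → ℂ} (hf : f ∈ BddHol D) (hg : g ∈ BddHol D) : f + g ∈ BddHol D := by
  obtain ⟨⟨F, hF, hF'⟩, M, hM⟩ := hf
  obtain ⟨⟨G, hG, hG'⟩, K, hK⟩ := hg
  refine ⟨⟨fun z => F z + G z, hF.add hG, fun z => ?_⟩, M + K, fun z => ?_⟩
  · rw [Pi.add_apply, hF', hG']
  · rw [Pi.add_apply]
    exact (norm_add_le _ _).trans (add_le_add (hM z) (hK z))

theorem BddHol.const (c : ℂ) : algebraMap ℂ (D → ℂ) c ∈ BddHol D :=
  ⟨⟨fun _ => c, differentiableOn_const c, fun _ => rfl⟩, ‖c‖, fun _ => le_rfl⟩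

theorem BddHol.restrict {D' : Set (EuclideanSpace ℂ (Fin n))} (h : D' ⊆ D) {f : D → ℂ}
    (hf : f ∈ BddHol D) : (fun z : D' => f ⟨z, h z.2⟩) ∈ BddHol D' := by
  obtain ⟨⟨g, hg, hfg⟩, M, hM⟩ := hf
  exact ⟨⟨g, hg.mono h, fun z => hfg _⟩, M, fun z => hM _⟩

end

/-- The algebra `H^∞(D)` of the bounded holomorphic functions on the open set `D` in `ℂⁿ`.
Its elements are functions on `D`. -/
def HinfOn {n : ℕ} (D : Set (EuclideanSpace ℂ (Fin n))) : Subalgebra ℂ (D → ℂ) where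
  carrier := BddHol D
  mul_mem' := BddHol.mul
  add_mem' := BddHol.add
  algebraMap_mem' := BddHol.const

/-- The restriction of functions `H^∞(D) → H^∞(D')` for `D' ⊆ D`. -/
def restrictTo {n : ℕ} {D D' : Set (EuclideanSpace ℂ (Fin n))} (h : D' ⊆ D) (f : HinfOn D) :
    HinfOn D' :=
  ⟨fun z => f.1 ⟨z, h z.2⟩, BddHol.restrict h f.2⟩

end Pool.Agent.Lib.MP_ca0fc2_an

namespace Pool.Agent.MPca0fc2.SG

open Pool.Agent.Lib.MP_ca0fc2_an

/-- A uniform limit of holomorphic functions is holomorphic. -/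
theorem unif_limit {E : Type*} [NormedAddCommGroup E] [NormedSpace ℂ E] {D : Set E}
    (hD : IsOpen D) {F : E → ℂ}
    (h : ∀ ε : ℝ, 0 < ε → ∃ g : E → ℂ, DifferentiableOn ℂ g D ∧ ∀ z ∈ D, ‖F z - g z‖ ≤ ε) :
    DifferentiableOn ℂ F D := by
  intro z₀ hz₀
  apply DifferentiableAt.differentiableWithinAt
  -- a bound near the point
  obtain ⟨g₁, hg₁, hF₁⟩ := h 1 one_pos
  obtain ⟨r, hr, hrD, hg₁b⟩ : ∃ r : ℝ, 0 < r ∧ ball z₀ r ⊆ D ∧
      ∀ z ∈ ball z₀ r, ‖g₁ z‖ ≤ ‖g₁ z₀‖ + 1 := by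
    have h1 : ContinuousAt g₁ z₀ := (hg₁.differentiableAt (hD.mem_nhds hz₀)).continuousAt
    have h2 : ∀ᶠ z in 𝓝 z₀, ‖g₁ z‖ < ‖g₁ z₀‖ + 1 :=
      h1.norm.eventually_lt_const (by linarith)
    obtain ⟨r, hr, h3⟩ := Metric.eventually_nhds_iff_ball.mp (h2.and (hD.mem_nhds hz₀))
    exact ⟨r, hr, fun z hz => (h3 z hz).2, fun z hz => (h3 z hz).1.le⟩
  obtain ⟨B, hB⟩ : ∃ B : ℝ, B = ‖g₁ z₀‖ + 3 := ⟨_, rfl⟩
  have hB0 : 0 < B := by
    have := norm_nonneg (g₁ z₀)
    linarith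
  have hFb : ∀ z ∈ ball z₀ r, ‖F z‖ ≤ ‖g₁ z₀‖ + 2 := by
    intro z hz
    have h1 := hF₁ z (hrD hz)
    have h2 := hg₁b z hz
    calc ‖F z‖ = ‖(F z - g₁ z) + g₁ z‖ := by congr 1; ring
      _ ≤ _ := norm_add_le _ _
      _ ≤ _ := by linarith
  choose g hg hFg using fun k : ℕ => h (1 / ((k : ℝ) + 1)) (by positivity)
  have hgb : ∀ k, ∀ z ∈ ball z₀ r, ‖g k z‖ ≤ B := by
    intro k z hz
    have h1 := hFg k z (hrD hz)
    have h2 := hFb z hz
    have h3 : 1 / ((k : ℝ) + 1) ≤ 1 := by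
      rw [div_le_one (by positivity)]
      have : (0 : ℝ) ≤ k := Nat.cast_nonneg k
      linarith
    calc ‖g k z‖ = ‖F z - (F z - g k z)‖ := by congr 1; ring
      _ ≤ _ := norm_sub_le _ _
      _ ≤ _ := by rw [hB]; linarith
  -- the derivatives converge
  obtain ⟨L, hL⟩ : ∃ L : E →L[ℂ] ℂ, Tendsto (fun k => fderiv ℂ (g k) z₀) atTop (𝓝 L) := by
    apply cauchySeq_tendsto_of_complete
    refine cauchySeq_of_le_tendsto_0 (fun k : ℕ => 4 / r * (1 / ((k : ℝ) + 1))) ?_ ?_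
    · intro a b K ha hb
      rw [dist_eq_norm]
      refine ContinuousLinearMap.opNorm_le_bound _ (by positivity) fun v => ?_
      have hda : DifferentiableAt ℂ (g a) z₀ := (hg a).differentiableAt (hD.mem_nhds hz₀)
      have hdb : DifferentiableAt ℂ (g b) z₀ := (hg b).differentiableAt (hD.mem_nhds hz₀)
      have h1 : fderiv ℂ (fun z => g a z - g b z) z₀ = fderiv ℂ (g a) z₀ - fderiv ℂ (g b) z₀ :=
        fderiv_fun_sub hda hdb
      rw [← h1]
      refine (norm_fderiv_apply_le (M := 2 * (1 / ((K : ℝ) + 1))) hr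
        (((hg a).mono hrD).sub ((hg b).mono hrD)) (fun z hz => ?_) v).trans (le_of_eq (by ring))
      have h2 := hFg a z (hrD hz)
      have h3 := hFg b z (hrD hz)
      have h4 : 1 / ((a : ℝ) + 1) ≤ 1 / ((K : ℝ) + 1) :=
        one_div_le_one_div_of_le (by positivity) (by exact_mod_cast Nat.succ_le_succ ha)
      have h5 : 1 / ((b : ℝ) + 1) ≤ 1 / ((K : ℝ) + 1) :=
        one_div_le_one_div_of_le (by positivity) (by exact_mod_cast Nat.succ_le_succ hb)
      calc ‖g a z - g b z‖ = ‖(F z - g b z) - (F z - g a z)‖ := by congr 1; ring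
        _ ≤ _ := norm_sub_le _ _
        _ ≤ _ := by linarith
    · have h1 : Tendsto (fun k : ℕ => 1 / ((k : ℝ) + 1)) atTop (𝓝 0) :=
        tendsto_one_div_add_atTop_nhds_zero_nat
      simpa using h1.const_mul (4 / r)
  have hlim : ∀ z ∈ D, Tendsto (fun k => g k z) atTop (𝓝 (F z)) := by
    intro z hz
    rw [tendsto_iff_norm_sub_tendsto_zero]
    refine squeeze_zero (fun _ => norm_nonneg _) (fun k => ?_)
      tendsto_one_div_add_atTop_nhds_zero_nat
    rw [norm_sub_rev]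
    exact hFg k z hz
  have hder : HasFDerivAt F L z₀ := by
    rw [hasFDerivAt_iff_isLittleO_nhds_zero]
    have hO : (fun v => F (z₀ + v) - F z₀ - L v) =O[𝓝 0] fun v : E => ‖v‖ ^ 2 := by
      refine Asymptotics.IsBigO.of_bound (4 * B / r ^ 2) ?_
      filter_upwards [ball_mem_nhds (0 : E) hr] with v hv
      rw [mem_ball_zero_iff] at hv
      have hmem : z₀ + v ∈ ball z₀ r := by
        simpa [mem_ball, dist_eq_norm] using hv
      have h1 : Tendsto (fun k => g k (z₀ + v) - g k z₀ - fderiv ℂ (g k) z₀ v) atTop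
          (𝓝 (F (z₀ + v) - F z₀ - L v)) := by
        refine ((hlim _ (hrD hmem)).sub (hlim _ hz₀)).sub ?_
        exact ((ContinuousLinearMap.apply ℂ ℂ v).continuous.tendsto L).comp hL
      rw [norm_pow, norm_norm]
      refine le_of_tendsto h1.norm (Eventually.of_forall fun k => ?_)
      exact taylor_two hr ((hg k).mono hrD) (hgb k) hv
    refine hO.trans_isLittleO ?_
    have h2 : (fun v : E => ‖v‖ ^ 2) =o[𝓝 0] fun v : E => ‖v‖ ^ 1 :=
      Asymptotics.isLittleO_norm_pow_norm_pow (by norm_num)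
    simp only [pow_one] at h2
    exact Asymptotics.isLittleO_norm_right.mp h2
  exact hder.differentiableAt

variable {n : ℕ}

/-- The bounded holomorphic functions on `D` as a subalgebra of the Banach algebra of bounded
continuous functions. -/
def HB (D : Set (EuclideanSpace ℂ (Fin n))) : Subalgebra ℂ (D →ᵇ ℂ) where
  carrier := {f | ∃ g : EuclideanSpace ℂ (Fin n) → ℂ, DifferentiableOn ℂ g D ∧ ∀ z : D, f z = g z}
  mul_mem' := by
    rintro f g ⟨F, hF, hF'⟩ ⟨G, hG, hG'⟩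
    refine ⟨fun z => F z * G z, hF.mul hG, fun z => ?_⟩
    rw [BoundedContinuousFunction.mul_apply, hF', hG']
  add_mem' := by
    rintro f g ⟨F, hF, hF'⟩ ⟨G, hG, hG'⟩
    refine ⟨fun z => F z + G z, hF.add hG, fun z => ?_⟩
    rw [BoundedContinuousFunction.add_apply, hF', hG']
  algebraMap_mem' := fun c => ⟨fun _ => c, differentiableOn_const c, fun _ => rfl⟩

theorem hb_closed {D : Set (EuclideanSpace ℂ (Fin n))} (hD : IsOpen D) :
    IsClosed (HB D : Set (D →ᵇ ℂ)) := by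
  classical
  rw [← isSeqClosed_iff_isClosed]
  intro f F hf hF
  obtain ⟨G, hG⟩ : ∃ G : EuclideanSpace ℂ (Fin n) → ℂ, ∀ z : D, G z = F z :=
    ⟨fun z => if h : z ∈ D then F ⟨z, h⟩ else 0, fun z => by simp [z.2]⟩
  refine ⟨G, unif_limit hD fun ε hε => ?_, fun z => (hG z).symm⟩
  obtain ⟨k, hk⟩ := ((tendsto_iff_dist_tendsto_zero.mp hF).eventually_lt_const hε).exists
  obtain ⟨g, hg, hfg⟩ := hf k
  refine ⟨g, hg, fun z hz => ?_⟩
  have h1 : dist (f k ⟨z, hz⟩) (F ⟨z, hz⟩) ≤ dist (f k) F :=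
    BoundedContinuousFunction.dist_coe_le_dist _
  rw [dist_eq_norm, norm_sub_rev, hfg ⟨z, hz⟩, ← hG ⟨z, hz⟩] at h1
  exact h1.trans hk.le

/-- From `H^∞(D)` to the Banach algebra. -/
noncomputable def toHB (D : Set (EuclideanSpace ℂ (Fin n))) : HinfOn D →ₐ[ℂ] HB D where
  toFun f := ⟨BoundedContinuousFunction.ofNormedAddCommGroup f.1 (by
      obtain ⟨⟨g, hg, hfg⟩, -⟩ := f.2
      have h1 : f.1 = D.domRestrict g := funext hfg
      rw [h1]
      exact hg.continuousOn.domRestrict) f.2.2.choose f.2.2.choose_spec,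
    f.2.1.choose, f.2.1.choose_spec.1, f.2.1.choose_spec.2⟩
  map_one' := by
    apply Subtype.ext
    ext z
    rfl
  map_mul' f g := by
    apply Subtype.ext
    ext z
    rfl
  map_zero' := by
    apply Subtype.ext
    ext z
    rfl
  map_add' f g := by
    apply Subtype.ext
    ext z
    rfl
  commutes' c := by
    apply Subtype.ext
    ext z
    rfl

/-- A proper family of elements of `H^∞(D)` is annihilated by a character. -/
theorem exists_char {D : Set (EuclideanSpace ℂ (Fin n))} (hD : IsOpen D) (S : Set (HinfOn D))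
    (hS : ∀ (N : ℕ) (g : Fin N → HinfOn D) (h : Fin N → HB D), (∀ j, g j ∈ S) →
      ∑ j, h j * toHB D (g j) ≠ 1) :
    ∃ M : HinfOn D →ₐ[ℂ] ℂ, ∀ g ∈ S, M g = 0 := by
  have : CompleteSpace (HB D) := (hb_closed hD).completeSpace_coe
  have hne : Ideal.span (toHB D '' S) ≠ ⊤ := by
    intro htop
    rw [Ideal.eq_top_iff_one, Ideal.span, Submodule.mem_span_set'] at htop
    obtain ⟨N, h, g, hsum⟩ := htop
    choose g' hg' hgg using fun i => (g i).2
    refine hS N g' h hg' ?_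
    rw [← hsum]
    exact Finset.sum_congr rfl fun i _ => by rw [hgg, smul_eq_mul]
  obtain ⟨J, hJ, hSJ⟩ := Ideal.exists_le_maximal _ hne
  refine ⟨(WeakDual.CharacterSpace.equivAlgHom J.toCharacterSpace).comp (toHB D),
    fun g hg => ?_⟩
  have h1 : toHB D g ∈ J := hSJ (Ideal.subset_span (mem_image_of_mem _ hg))
  exact J.toCharacterSpace_apply_eq_zero_of_mem h1

end Pool.Agent.MPca0fc2.SG
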