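import Mathlib
import Pool.Agent.Lib.MP_ca0fc2_an.SGMain
import Pool.Agent.Lib.MP_ca0fc2_an.SGHol

/-!
# Characters of `H^∞(B)` extend to the neighbourhoods of their restrictions to the algebra
-/

set_option autoImplicit false

open Metric Set Filter Topology MeasureTheory
open scoped BoundedContinuousFunction

namespace Pool.Agent.Lib.MP_ca0fc2_an

/-- `D` is an open subset of the unit ball which contains, for some finitely many elements `a_i` of
`H^∞(B)` which belong to `A` and some `ε > 0`, all the points `z` with `|a_i (z) - m (a_i)| < ε`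
for all `i`. -/
def IsCharNhd {n : ℕ} (A : Set (EuclideanSpace ℂ (Fin n) → ℂ))
    (m : HinfOn (ball (0 : EuclideanSpace ℂ (Fin n)) 1) →ₐ[ℂ] ℂ)
    (D : Set (EuclideanSpace ℂ (Fin n))) : Prop :=
  IsOpen D ∧ ∃ (k : ℕ) (a : Fin k → HinfOn (ball (0 : EuclideanSpace ℂ (Fin n)) 1)) (ε : ℝ),
    0 < ε ∧ (∀ i, ∃ g ∈ A, ∀ z, (a i).1 z = g z) ∧
    ∀ z : ball (0 : EuclideanSpace ℂ (Fin n)) 1, 
      (∀ i, ‖(a i).1 z - m (a i)‖ < ε) → (z : EuclideanSpace ℂ (Fin n)) ∈ D

end Pool.Agent.Lib.MP_ca0fc2_an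

namespace Pool.Agent.MPca0fc2.SG

open Pool.Agent.Lib.MP_ca0fc2_an
open Pool.Agent.MPca0fc2.SP

/-- The Bezout equation passes to larger families. -/
theorem solv_map {E : Type*} [NormedAddCommGroup E] [InnerProductSpace ℂ E] {N N' : ℕ}
    {f : Fin N → E → ℂ} {f' : Fin N' → E → ℂ} {D : Set E} (σ : Fin N → Fin N')
    (hσ : ∀ j, ∀ z ∈ D, f j z = f' (σ j) z) (h : ∃ C, SolvableOn f D C) :
    ∃ C, SolvableOn f' D C := by
  classical
  obtain ⟨C, h, h1, h2, h3⟩ := h
  refine ⟨∑ _j : Fin N, |C|, fun i z => ∑ j, if σ j = i then h j z else 0, fun i => ?_,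
    fun i z hz => ?_, fun z hz => ?_⟩
  · refine DifferentiableOn.fun_sum fun j _ => ?_
    by_cases hj : σ j = i
    · simpa [hj] using h1 j
    · simp [hj]
  · refine (norm_sum_le _ _).trans (Finset.sum_le_sum fun j _ => ?_)
    by_cases hj : σ j = i
    · simpa [hj] using (h2 j z hz).trans (le_abs_self C)
    · simp [hj]
  · rw [← h3 z hz]
    simp only [Finset.mul_sum]
    rw [Finset.sum_comm]
    refine Finset.sum_congr rfl fun j _ => ?_
    rw [Finset.sum_eq_single (σ j)]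
    · rw [if_pos rfl, hσ j z hz]
    · intro i _ hi
      rw [if_neg (Ne.symm hi), mul_zero]
    · intro hi
      exact absurd (Finset.mem_univ _) hi

variable {n : ℕ}

/-- The kernel of a character generates a proper ideal on every neighbourhood. -/
theorem not_solv {A : Set (EuclideanSpace ℂ (Fin n) → ℂ)} (hA : LocAlg A)
    (m : Hinf n →ₐ[ℂ] ℂ) {D : Set (EuclideanSpace ℂ (Fin n))} {k : ℕ} (a : Fin k → Hinf n) {ε : ℝ}
    (hε : 0 < ε) (haA : ∀ i, ∃ g ∈ A, ∀ z, (a i).1 z = g z) (hDb : D ⊆ ball 0 1)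
    (hD : ∀ z : ball (0 : EuclideanSpace ℂ (Fin n)) 1, (∀ i, ‖(a i).1 z - m (a i)‖ < ε) →
      (z : EuclideanSpace ℂ (Fin n)) ∈ D) (N : ℕ)
    (g : Fin N → Hinf n) (hg : ∀ j, m (g j) = 0) :
    ¬ ∃ C, SolvableOn (fun j z => CV.ext (g j) z) D C := by
  classical
  intro hsol
  obtain ⟨s, hs⟩ : ∃ s : Finset (Hinf n), s = Finset.univ.image g ∪ Finset.univ.image a := ⟨_, rfl⟩
  have hgs : ∀ j, g j ∈ s := fun j => by
    rw [hs, Finset.mem_union]
    exact Or.inl (Finset.mem_image_of_mem _ (Finset.mem_univ j))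
  have has : ∀ i, a i ∈ s := fun i => by
    rw [hs, Finset.mem_union]
    exact Or.inr (Finset.mem_image_of_mem _ (Finset.mem_univ i))
  choose b hbA hab using haA
  obtain ⟨h, hh⟩ := CV.solve_finset s (fun x => m x) (by
    refine spec_loc hA _ (fun j => (CV.ext_hol _).sub_const _) (fun j => ?_) fun U hU => ?_
    · obtain ⟨M, hM⟩ := CV.ext_bdd (s.equivFin.symm j).1
      exact ⟨M + ‖m (s.equivFin.symm j).1‖, fun z hz => (norm_sub_le _ _).trans
        (add_le_add (hM z hz) le_rfl)⟩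
    · have hc : ∀ i, ∃ c, Tendsto (b i) U (𝓝 c) := by
        intro i
        obtain ⟨M, hM⟩ := hA.1 (b i) (hbA i)
        exact ultra_lim hU hM
      choose c hc using hc
      by_cases hcm : ∀ i, c i = m (a i)
      · refine ⟨D, ⟨hDb, k, b, c, ε, hε, fun i => ⟨hbA i, hc i⟩, fun z hz hzb => ?_⟩, ?_⟩
        · refine hD ⟨z, hz⟩ fun i => ?_
          rw [hab i, ← hcm i]
          exact hzb i
        · refine solv_map (fun j => s.equivFin ⟨g j, hgs j⟩) (fun j z _ => ?_) hsol
          rw [Equiv.symm_apply_apply, hg j, sub_zero]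
      · push Not at hcm
        obtain ⟨i, hi⟩ := hcm
        obtain ⟨r, hr⟩ : ∃ r : ℝ, r = ‖c i - m (a i)‖ / 2 := ⟨_, rfl⟩
        have hr0 : 0 < r := by
          rw [hr]
          have := norm_pos_iff.mpr (sub_ne_zero.mpr hi)
          linarith
        refine ⟨{z | z ∈ ball 0 1 ∧ ‖b i z - c i‖ < r}, ⟨fun z hz => hz.1, 1, fun _ => b i,
          fun _ => c i, r, hr0, fun _ => ⟨hbA i, hc i⟩, fun z hz h => ⟨hz, h 0⟩⟩, ?_⟩
        have hlow : ∀ z, z ∈ ball (0 : EuclideanSpace ℂ (Fin n)) 1 → ‖b i z - c i‖ < r →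
            r ≤ ‖CV.ext (a i) z - m (a i)‖ := by
          intro z hz hzr
          rw [CV.ext_eq (a i) ⟨z, hz⟩, hab i]
          have h1 : c i - m (a i) = (b i z - m (a i)) - (b i z - c i) := by ring
          have h2 := norm_sub_le (b i z - m (a i)) (b i z - c i)
          rw [← h1] at h2
          have h3 : ‖c i - m (a i)‖ = 2 * r := by rw [hr]; ring
          change r ≤ ‖b i z - m (a i)‖
          linarith
        refine solv_map (N := 1) (f := fun _ z => CV.ext (a i) z - m (a i))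
          (fun _ => s.equivFin ⟨a i, has i⟩) (fun j z _ => ?_) ⟨1 / r,
            fun _ z => 1 / (CV.ext (a i) z - m (a i)), fun _ => ?_, fun _ z hz => ?_,
            fun z hz => ?_⟩
        · rw [Equiv.symm_apply_apply]
        · have h1 : DifferentiableOn ℂ (fun z => CV.ext (a i) z - m (a i))
              {z | z ∈ ball 0 1 ∧ ‖b i z - c i‖ < r} :=
            ((CV.ext_hol (a i)).sub_const _).mono fun z hz => hz.1
          simp only [one_div]
          refine h1.fun_inv fun z hz => ?_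
          have := hlow z hz.1 hz.2
          exact norm_pos_iff.mp (lt_of_lt_of_le hr0 this)
        · rw [norm_div, norm_one]
          exact one_div_le_one_div_of_le hr0 (hlow z hz.1 hz.2)
        · rw [Fin.sum_univ_one, mul_one_div_cancel]
          exact norm_pos_iff.mp (lt_of_lt_of_le hr0 (hlow z hz.1 hz.2)))
  have h5 := congrArg m hh
  rw [map_sum, map_one] at h5
  have h6 : ∀ x ∈ s, m ((x - algebraMap ℂ (Hinf n) (m x)) * h x) = 0 := by
    intro x _
    rw [map_mul, map_sub, AlgHom.commutes, Algebra.algebraMap_self, RingHom.id_apply, sub_self,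
      zero_mul]
  rw [Finset.sum_eq_zero h6] at h5
  exact zero_ne_one h5

/-- Every character of `H^∞(B)` extends to `H^∞(D)`, if `D` is a neighbourhood of its restriction to
`A`. -/
theorem char_ext {A : Set (EuclideanSpace ℂ (Fin n) → ℂ)} (hA : LocAlg A)
    (m : HinfOn (ball (0 : EuclideanSpace ℂ (Fin n)) 1) →ₐ[ℂ] ℂ)
    (D : Set (EuclideanSpace ℂ (Fin n))) (hDb : D ⊆ ball 0 1) (hD : IsCharNhd A m D) :
    ∃ M : HinfOn D →ₐ[ℂ] ℂ, ∀ g, M (restrictTo hDb g) = m g := by
  obtain ⟨hDo, k, a, ε, hε, haA, hDa⟩ := hD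
  obtain ⟨M, hM⟩ := exists_char hDo (restrictTo hDb '' {g | m g = 0}) (by
    intro N g h hgS hsum
    choose g' hg' hgg using hgS
    refine not_solv hA m a hε haA hDb hDa N g' hg' ?_
    choose H hH hHh using fun j => (h j).2
    refine ⟨∑ j, ‖(h j).1‖, H, hH, fun j z hz => ?_, fun z hz => ?_⟩
    · rw [← hHh j ⟨z, hz⟩]
      refine ((h j).1.norm_coe_le_norm ⟨z, hz⟩).trans ?_
      exact Finset.single_le_sum (f := fun j => ‖(h j).1‖) (fun _ _ => norm_nonneg _)
        (Finset.mem_univ j)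
    · have h1 : (∑ j, h j * toHB D (g j) : HB D).1 ⟨z, hz⟩ = (1 : HB D).1 ⟨z, hz⟩ := by
        rw [hsum]
      rw [AddSubmonoidClass.coe_finsetSum, BoundedContinuousFunction.coe_sum,
        Finset.sum_apply] at h1
      have h2 : (1 : HB D).1 ⟨z, hz⟩ = 1 := rfl
      rw [h2] at h1
      rw [← h1]
      refine Finset.sum_congr rfl fun j _ => ?_
      have h3 : (h j * toHB D (g j) : HB D).1 ⟨z, hz⟩ = (h j).1 ⟨z, hz⟩ * (g j).1 ⟨z, hz⟩ := rfl
      rw [h3, hHh j, ← hgg j, mul_comm]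
      congr 1
      exact CV.ext_eq (g' j) ⟨z, hDb hz⟩)
  refine ⟨M, fun g => ?_⟩
  have h1 : m (g - algebraMap ℂ _ (m g)) = 0 := by
    rw [map_sub, AlgHom.commutes, Algebra.algebraMap_self, RingHom.id_apply, sub_self]
  have h2 := hM _ (mem_image_of_mem _ h1)
  have h3 : restrictTo hDb (g - algebraMap ℂ _ (m g)) =
      restrictTo hDb g - algebraMap ℂ _ (m g) := rfl
  rw [h3, map_sub, AlgHom.commutes, sub_eq_zero] at h2
  rw [h2, Algebra.algebraMap_self, RingHom.id_apply]

end Pool.Agent.MPca0fc2.SG
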