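import Mathlib
import Pool.Agent.Lib.MP_ca0fc2_an.SGExt
import Pool.Agent.Lib.MP_ca0fc2_an.SGHDefs

/-!
# Characters of `H^∞(D)` as functionals on functions on `ℂⁿ`
-/

set_option autoImplicit false

open Metric Set Filter Topology

namespace Pool.Agent.MPca0fc2.SG

open Pool.Agent.Lib.MP_ca0fc2_an

variable {n : ℕ}

/-- The homomorphism of algebras given by a character. -/
theorem char_to_hom {D : Set (EuclideanSpace ℂ (Fin n))}
    {m : (EuclideanSpace ℂ (Fin n) → ℂ) → ℂ} (hm : IsCharacter D m) :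
    ∃ m' : HinfOn D →ₐ[ℂ] ℂ, ∀ (f : HinfOn D) (F : EuclideanSpace ℂ (Fin n) → ℂ), IsHinf D F →
      (∀ z : D, f.1 z = F z) → m' f = m F := by
  have hex : ∀ f : HinfOn D, ∃ F : EuclideanSpace ℂ (Fin n) → ℂ, IsHinf D F ∧
      ∀ z : D, f.1 z = F z := by
    intro f
    obtain ⟨⟨g, hg, hfg⟩, M, hM⟩ := f.2
    exact ⟨g, ⟨hg, M, fun z hz => by rw [← hfg ⟨z, hz⟩]; exact hM _⟩, hfg⟩
  choose e he hfe using hex
  have hc : ∀ (f : HinfOn D) (F : EuclideanSpace ℂ (Fin n) → ℂ), IsHinf D F →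
      (∀ z : D, f.1 z = F z) → m (e f) = m F := by
    intro f F hF hfF
    refine hm.congr _ _ (he f) hF fun z hz => ?_
    rw [← hfe f ⟨z, hz⟩, hfF ⟨z, hz⟩]
  have hadd : ∀ {F G : EuclideanSpace ℂ (Fin n) → ℂ}, IsHinf D F → IsHinf D G →
      IsHinf D fun z => F z + G z := by
    rintro F G ⟨h1, M, h2⟩ ⟨h3, K, h4⟩
    exact ⟨h1.add h3, M + K, fun z hz => (norm_add_le _ _).trans (add_le_add (h2 z hz) (h4 z hz))⟩
  have hmul : ∀ {F G : EuclideanSpace ℂ (Fin n) → ℂ}, IsHinf D F → IsHinf D G →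
      IsHinf D fun z => F z * G z := by
    rintro F G ⟨h1, M, h2⟩ ⟨h3, K, h4⟩
    refine ⟨h1.mul h3, M * K, fun z hz => ?_⟩
    rw [norm_mul]
    exact mul_le_mul (h2 z hz) (h4 z hz) (norm_nonneg _) ((norm_nonneg _).trans (h2 z hz))
  have hconst : ∀ c : ℂ, IsHinf D fun _ => c := fun c => ⟨differentiableOn_const c, ‖c‖,
    fun _ _ => le_rfl⟩
  have hone : m (e 1) = 1 := by
    rw [hc 1 (fun _ => 1) (hconst 1) fun _ => rfl, hm.one]
  have hmc : ∀ c : ℂ, m (fun _ => c) = c := by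
    intro c
    have h1 := hm.smul c (fun _ => 1) (hconst 1)
    rw [hm.one] at h1
    simpa using h1
  refine ⟨{ toFun := fun f => m (e f)
            map_one' := hone
            map_mul' := fun f g => ?_
            map_zero' := ?_
            map_add' := fun f g => ?_
            commutes' := fun c => ?_ }, hc⟩
  · rw [hc (f * g) (fun z => e f z * e g z) (hmul (he f) (he g)) fun z => ?_,
      hm.mul _ _ (he f) (he g)]
    rw [MulMemClass.coe_mul, Pi.mul_apply, hfe f, hfe g]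
  · change m (e 0) = 0
    rw [hc 0 (fun _ => 0) (hconst 0) fun _ => rfl, hmc]
  · change m (e (f + g)) = m (e f) + m (e g)
    rw [hc (f + g) (fun z => e f z + e g z) (hadd (he f) (he g)) fun z => ?_,
      hm.add _ _ (he f) (he g)]
    rw [AddMemClass.coe_add, Pi.add_apply, hfe f, hfe g]
  · rw [hc _ (fun _ => c) (hconst c) fun _ => rfl, hmc]
    rfl

open Classical in
/-- The character given by a homomorphism of algebras. -/
theorem hom_to_char {D : Set (EuclideanSpace ℂ (Fin n))} (M : HinfOn D →ₐ[ℂ] ℂ) :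
    ∃ m : (EuclideanSpace ℂ (Fin n) → ℂ) → ℂ, IsCharacter D m ∧
      ∀ (f : HinfOn D) (F : EuclideanSpace ℂ (Fin n) → ℂ), IsHinf D F →
      (∀ z : D, f.1 z = F z) → m F = M f := by
  have hb : ∀ {F : EuclideanSpace ℂ (Fin n) → ℂ}, IsHinf D F → (fun z : D => F z) ∈ BddHol D :=
    fun {F} h => ⟨⟨F, h.1, fun _ => rfl⟩, h.2.choose, fun z => h.2.choose_spec z z.2⟩
  obtain ⟨m, hmdef⟩ : ∃ m : (EuclideanSpace ℂ (Fin n) → ℂ) → ℂ, m = fun F =>
      if h : IsHinf D F then M ⟨fun z : D => F z, hb h⟩ else 0 := ⟨_, rfl⟩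
  have hval : ∀ (F : EuclideanSpace ℂ (Fin n) → ℂ) (h : IsHinf D F),
      m F = M ⟨fun z : D => F z, hb h⟩ := by
    intro F h
    rw [hmdef]
    exact dif_pos h
  have hadd : ∀ {F G : EuclideanSpace ℂ (Fin n) → ℂ}, IsHinf D F → IsHinf D G →
      IsHinf D fun z => F z + G z := by
    rintro F G ⟨h1, M, h2⟩ ⟨h3, K, h4⟩
    exact ⟨h1.add h3, M + K, fun z hz => (norm_add_le _ _).trans (add_le_add (h2 z hz) (h4 z hz))⟩
  have hmul : ∀ {F G : EuclideanSpace ℂ (Fin n) → ℂ}, IsHinf D F → IsHinf D G →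
      IsHinf D fun z => F z * G z := by
    rintro F G ⟨h1, M, h2⟩ ⟨h3, K, h4⟩
    refine ⟨h1.mul h3, M * K, fun z hz => ?_⟩
    rw [norm_mul]
    exact mul_le_mul (h2 z hz) (h4 z hz) (norm_nonneg _) ((norm_nonneg _).trans (h2 z hz))
  have hconst : ∀ c : ℂ, IsHinf D fun _ => c := fun c => ⟨differentiableOn_const c, ‖c‖,
    fun _ _ => le_rfl⟩
  refine ⟨m, ⟨fun f g hf hg hfg => ?_, ?_, fun c f hf => ?_, fun f g hf hg => ?_,
    fun f g hf hg => ?_⟩, fun f F hF hfF => ?_⟩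
  · rw [hval f hf, hval g hg]
    congr 1
    exact Subtype.ext (funext fun z => hfg z z.2)
  · rw [hval _ (hconst 1)]
    exact map_one M
  · rw [hval _ (hmul (hconst c) hf), hval f hf]
    have h1 := map_smul M c (⟨fun z : D => f z, hb hf⟩ : HinfOn D)
    rw [smul_eq_mul] at h1
    rw [← h1]
    rfl
  · rw [hval _ (hadd hf hg), hval f hf, hval g hg, ← map_add]
    rfl
  · rw [hval _ (hmul hf hg), hval f hf, hval g hg, ← map_mul]
    rfl
  · rw [hval F hF]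
    congr 1
    exact Subtype.ext (funext fun z => (hfF z).symm)

/-- Extension of characters. -/
theorem character_ext {A : Set (EuclideanSpace ℂ (Fin n) → ℂ)} (hA : LocAlg A)
    (hAd : ∀ a ∈ A, DifferentiableOn ℂ a (ball 0 1))
    {m : (EuclideanSpace ℂ (Fin n) → ℂ) → ℂ} (hm : IsCharacter (ball 0 1) m) {k : ℕ}
    {a : Fin k → EuclideanSpace ℂ (Fin n) → ℂ} (ha : ∀ i, a i ∈ A) {ε : ℝ} (hε : 0 < ε) :
    ∃ M, IsCharacter {z | z ∈ ball 0 1 ∧ ∀ i, ‖a i z - m (a i)‖ < ε} M ∧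
      ∀ f, IsHinf (ball 0 1) f → M f = m f := by
  obtain ⟨m', hm'⟩ := char_to_hom hm
  obtain ⟨D, hDdef⟩ : ∃ D : Set (EuclideanSpace ℂ (Fin n)),
    D = {z | z ∈ ball 0 1 ∧ ∀ i, ‖a i z - m (a i)‖ < ε} := ⟨_, rfl⟩
  rw [← hDdef]
  have hDb : D ⊆ ball 0 1 := by
    rw [hDdef]
    exact fun z hz => hz.1
  have haH : ∀ i, IsHinf (ball 0 1) (a i) := fun i => ⟨hAd _ (ha i), hA.1 _ (ha i)⟩
  obtain ⟨a', ha'⟩ : ∃ a' : Fin k → HinfOn (ball (0 : EuclideanSpace ℂ (Fin n)) 1),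
      ∀ i z, (a' i).1 z = a i z :=
    ⟨fun i => ⟨fun z => a i z, ⟨a i, (haH i).1, fun _ => rfl⟩, (haH i).2.choose,
      fun z => (haH i).2.choose_spec z z.2⟩, fun _ _ => rfl⟩
  have hma : ∀ i, m' (a' i) = m (a i) := fun i => hm' _ _ (haH i) (ha' i)
  have hopen : IsOpen D := by
    have h1 : D = ball 0 1 ∩ ⋂ i, (ball 0 1 ∩ (fun z => ‖a i z - m (a i)‖) ⁻¹' Iio ε) := by
      rw [hDdef]
      ext z
      simp only [mem_ofPred_eq, mem_inter_iff, mem_iInter, mem_preimage, mem_Iio]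
      exact ⟨fun h => ⟨h.1, fun i => ⟨h.1, h.2 i⟩⟩, fun h => ⟨h.1, fun i => (h.2 i).2⟩⟩
    rw [h1]
    refine isOpen_ball.inter (isOpen_iInter_of_finite fun i => ?_)
    exact (((haH i).1.continuousOn.sub continuousOn_const).norm).isOpen_inter_preimage isOpen_ball
      isOpen_Iio
  obtain ⟨M, hM⟩ := char_ext hA m' D hDb ⟨hopen, k, a', ε, hε, fun i => ⟨a i, ha i, ha' i⟩,
    fun z hz => by
      rw [hDdef]
      refine ⟨z.2, fun i => ?_⟩
      have h2 := hz i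
      rw [ha' i, hma i] at h2
      exact h2⟩
  obtain ⟨M', hM', hMM⟩ := hom_to_char M
  refine ⟨M', hM', fun f hf => ?_⟩
  obtain ⟨g, hg⟩ : ∃ g : HinfOn (ball (0 : EuclideanSpace ℂ (Fin n)) 1), ∀ z, g.1 z = f z :=
    ⟨⟨fun z => f z, ⟨f, hf.1, fun _ => rfl⟩, hf.2.choose, fun z => hf.2.choose_spec z z.2⟩,
      fun _ => rfl⟩
  rw [hMM (restrictTo hDb g) f ⟨hf.1.mono hDb, hf.2.choose, fun z hz =>
    hf.2.choose_spec z (hDb hz)⟩ fun z => hg ⟨z, hDb z.2⟩, hM g]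
  exact hm' g f hf hg

/-- Cluster values. -/
theorem character_cluster {A : Set (EuclideanSpace ℂ (Fin n) → ℂ)} (hA : LocAlg A)
    (hAd : ∀ a ∈ A, DifferentiableOn ℂ a (ball 0 1))
    {m : (EuclideanSpace ℂ (Fin n) → ℂ) → ℂ} (hm : IsCharacter (ball 0 1) m)
    {F : EuclideanSpace ℂ (Fin n) → ℂ} (hF : IsHinf (ball 0 1) F) :
    ∃ U : Ultrafilter (EuclideanSpace ℂ (Fin n)), ball 0 1 ∈ U ∧ Tendsto F U (𝓝 (m F)) ∧
      ∀ a ∈ A, Tendsto a U (𝓝 (m a)) := by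
  obtain ⟨m', hm'⟩ := char_to_hom hm
  have hmk : ∀ f, IsHinf (ball 0 1) f → ∃ g : HinfOn (ball (0 : EuclideanSpace ℂ (Fin n)) 1),
      ∀ z, g.1 z = f z := fun f hf =>
    ⟨⟨fun z => f z, ⟨f, hf.1, fun _ => rfl⟩, hf.2.choose, fun z => hf.2.choose_spec z z.2⟩,
      fun _ => rfl⟩
  obtain ⟨F', hF'⟩ := hmk F hF
  obtain ⟨U, hU1, hU2⟩ := cluster_value hA m' F'
  have ht : ∀ (f : EuclideanSpace ℂ (Fin n) → ℂ)
      (g : HinfOn (ball (0 : EuclideanSpace ℂ (Fin n)) 1)), IsHinf (ball 0 1) f →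
      (∀ z, g.1 z = f z) → Tendsto g.1 U (𝓝 (m' g)) →
      Tendsto f (U.map Subtype.val) (𝓝 (m f)) := by
    intro f g hf hgf h
    rw [hm' g f hf hgf] at h
    have h1 : g.1 = f ∘ Subtype.val := funext hgf
    rw [h1] at h
    rw [Ultrafilter.coe_map]
    exact tendsto_map'_iff.mpr h
  refine ⟨U.map Subtype.val, ?_, ht F F' hF hF' hU1, fun a ha => ?_⟩
  · rw [Ultrafilter.mem_map]
    exact univ_mem' fun z => z.2
  · have haH : IsHinf (ball 0 1) a := ⟨hAd a ha, hA.1 a ha⟩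
    obtain ⟨a', ha'⟩ := hmk a haH
    exact ht a a' haH ha' (hU2 a' ⟨a, ha, ha'⟩)

end Pool.Agent.MPca0fc2.SG
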