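import Mathlib
import Pool.Agent.Lib.MP_ca0fc2_an.CPMain

/-! The localization theorem for the cells of the generators `Gen6` and of finitely many lines. -/

set_option autoImplicit false

open Metric Set MeasureTheory Filter Topology
open scoped InnerProductSpace ComplexConjugate

namespace Pool.Agent.MPca0fc2.MG

open Pool.Agent.Lib.MP_ca0fc2_an
open Pool.Agent.MPca0fc2.CP
open Pool.Agent.MPca0fc2.LT (chi SolvF solvF_of solvF_to solvF_single solvF_inl solvF_drop solv_sub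
  solv_empty norm_le_coord coord_mult lineTame_var lineTame_mono chi_aut depth_fin)

variable {n : ℕ}

/-- Localization to the cells of the generators, cut by finitely many lines. -/
theorem T_lines (hn : 2 ≤ n) (N d m : ℕ) {M C₁ ρ₀ K p σ : ℝ} (ω : ℝ → ℝ) (hρ : 0 < ρ₀)
    (hσ0 : 0 < σ) (hp : 1 ≤ p) (hω : Rate ω) :
    ∃ C, ∀ (f : Fin N → EuclideanSpace ℂ (Fin n) → ℂ)
      (u : Fin d → EuclideanSpace ℂ (Fin n) → ℂ) (e₀ : Fin m → EuclideanSpace ℂ (Fin n))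
      (φ₀ ψ₀ : Fin m → EuclideanSpace ℂ (Fin n) → EuclideanSpace ℂ (Fin n)),
      (∀ j, DifferentiableOn ℂ (f j) (ball 0 1)) →
      (∀ j, ∀ z ∈ ball (0 : EuclideanSpace ℂ (Fin n)) 1, ‖f j z‖ ≤ M) →
      (∀ i, Gen6 K p ω (u i)) → (∀ k, ‖e₀ k‖ = 1 ∧ IsBallAut (φ₀ k) (ψ₀ k)) →
      (∀ c : Fin d → ℂ, ∀ b ∈ ball (0 : EuclideanSpace ℂ (Fin n)) 1,
        SolvableOn f {z | z ∈ ball 0 1 ∧ (∀ i, ‖u i z - c i‖ < ρ₀) ∧
          ∀ k, ‖chi (e₀ k) (φ₀ k) b z - chi (e₀ k) (φ₀ k) b b‖ ≤ σ} C₁) →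
      SolvableOn f (ball 0 1) C := by
  classical
  have hn0 : (0 : ℝ) < n := by
    have : 0 < n := by omega
    exact_mod_cast this
  obtain ⟨B, hB⟩ := Gen5_unif (n := n) (K := K) hp (le_refl p)
  obtain ⟨K₂, hK₂⟩ : ∃ K₂, K₂ = max (max B 1) n := ⟨_, rfl⟩
  have hK₂1 : 1 ≤ K₂ := by rw [hK₂]; exact (le_max_right _ _).trans (le_max_left _ _)
  have hBK : B ≤ K₂ := by rw [hK₂]; exact (le_max_left _ _).trans (le_max_left _ _)
  have hnK₂ : (n : ℝ) ≤ K₂ := by rw [hK₂]; exact le_max_right _ _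
  obtain ⟨K₁, hK₁⟩ : ∃ K₁, K₁ = max K 1 := ⟨_, rfl⟩
  have hK₁0 : 0 < K₁ := by rw [hK₁]; exact lt_max_of_lt_right one_pos
  have hKK : K ≤ K₁ := by rw [hK₁]; exact le_max_left _ _
  obtain ⟨σ₁, hσ₁, hvar⟩ := lineTame_var (E := EuclideanSpace ℂ (Fin n)) hK₁0 hρ
  obtain ⟨τ, hτ⟩ : ∃ τ, τ = min σ₁ σ := ⟨_, rfl⟩
  have hτ0 : 0 < τ := by rw [hτ]; exact lt_min hσ₁ hσ0
  have hτ1 : τ ≤ σ₁ := by rw [hτ]; exact min_le_left _ _
  have hτσ : τ ≤ σ := by rw [hτ]; exact min_le_right _ _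
  obtain ⟨C₂, hC₂1, hC₂⟩ := step_one hn N (d + m) (M := M) (C₁ := C₁) ω hρ hτ0 hp hω hK₂1 hnK₂
  have hC₂0 : 0 < C₂ := by linarith
  obtain ⟨X, hX⟩ : ∃ X : ℝ, X = Fintype.card (Fin (d + m) × Fin n) := ⟨_, rfl⟩
  have hX0 : 0 ≤ X := by rw [hX]; positivity
  obtain ⟨σ₂, hσ₂⟩ : ∃ σ₂ : ℝ, σ₂ = 1 / (2 * (X + 1) * C₂) := ⟨_, rfl⟩
  have hσ₂0 : 0 < σ₂ := by rw [hσ₂]; positivity
  have hσ₂1 : X * (σ₂ * C₂) ≤ 1 / 2 := by
    rw [hσ₂]
    have h1 : 1 / (2 * (X + 1) * C₂) * C₂ = 1 / (2 * (X + 1)) := by field_simp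
    rw [h1, mul_one_div, div_le_iff₀ (by positivity)]
    linarith
  obtain ⟨η₂, hη₂⟩ : ∃ η₂ : ℝ, η₂ = min (1 / 5) (σ₂ ^ 2 / 144) := ⟨_, rfl⟩
  have hη₂0 : 0 < η₂ := by rw [hη₂]; positivity
  have hη₂1 : η₂ < 1 / 4 := by
    have : η₂ ≤ 1 / 5 := by rw [hη₂]; exact min_le_left _ _
    linarith
  have hη₂2 : 144 * η₂ ≤ σ₂ ^ 2 := by
    have : η₂ ≤ σ₂ ^ 2 / 144 := by rw [hη₂]; exact min_le_right _ _
    linarith
  obtain ⟨C₁', hC₁'⟩ : ∃ C₁', C₁' = max C₁ 1 := ⟨_, rfl⟩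
  have hC₁'1 : 1 ≤ C₁' := by rw [hC₁']; exact le_max_right _ _
  have hCC : C₁ ≤ C₁' := by rw [hC₁']; exact le_max_left _ _
  obtain ⟨C', hC'⟩ := finite_depth (E := EuclideanSpace ℂ (Fin n)) discCorona N M
    (1 / ((N + 1) * C₁' ^ 2)) (by positivity) (fun _ => d + m) (fun _ => η₂) (fun _ => 3)
    (fun _ => 2 * C₂) (fun _ => hη₂0) (fun _ => by norm_num)
  refine ⟨C', fun f u e₀ φ₀ ψ₀ hf hfM hu he₀ hs => ?_⟩
  -- the lines
  obtain ⟨o, ho⟩ : ∃ o : EuclideanSpace ℂ (Fin n), o = EuclideanSpace.single ⟨0, by omega⟩ 1 :=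
    ⟨_, rfl⟩
  have ho1 : ‖o‖ = 1 := by rw [ho]; simp
  have hzero : Gen5 K₂ p ω (fun _ : EuclideanSpace ℂ (Fin n) => (0 : ℂ)) := by
    refine gen5_mult (by omega) (K := 1) hK₂1 hnK₂ (by rw [abs_one]; exact hK₂1) ?_
    exact CV.DAMultiplier_line (g := fun _ => 0) (differentiableOn_const _)
      (fun w _ => by simp) ho1
  have hline : ∀ x : Fin d ⊕ Fin m, ∃ (e : EuclideanSpace ℂ (Fin n))
      (φ ψ : EuclideanSpace ℂ (Fin n) → EuclideanSpace ℂ (Fin n))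
      (w : EuclideanSpace ℂ (Fin n) → ℂ), ‖e‖ = 1 ∧ IsBallAut φ ψ ∧ Gen5 K₂ p ω w ∧
      (∀ i, x = Sum.inl i → ∀ b ∈ ball (0 : EuclideanSpace ℂ (Fin n)) 1, ∀ c : ℂ, ∃ c' : ℂ,
        ∀ z ∈ ball (0 : EuclideanSpace ℂ (Fin n)) 1, ‖w z - c‖ < ρ₀ →
        ‖chi e φ b z - chi e φ b b‖ ≤ σ₁ → ‖u i z - c'‖ < ρ₀) ∧
      (∀ k, x = Sum.inr k → e = e₀ k ∧ φ = φ₀ k) := by
    rintro (i | k)
    · rcases hu i with h | ⟨h, h'⟩
      · refine ⟨o, id, id, u i, ho1, ⟨differentiableOn_id, differentiableOn_id, fun z hz => hz,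
          fun z hz => hz, fun z _ => rfl, fun z _ => rfl⟩, hB K₂ hBK ω ω (fun _ => le_rfl) _ h, ?_,
          (fun k hk => by cases hk)⟩
        rintro i' hi' b _ c
        cases hi'
        exact ⟨c, fun z _ h1 _ => h1⟩
      · obtain ⟨e, φ, ψ, he, hφ, h1⟩ := hvar (u i) (lineTame_mono hKK h')
        refine ⟨e, φ, ψ, fun _ => 0, he, hφ, hzero, ?_, (fun k hk => by cases hk)⟩
        rintro i' hi' b hb c
        cases hi'
        exact ⟨u i b, fun z hz _ h2 => h1 b hb z hz h2⟩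
    · refine ⟨e₀ k, φ₀ k, ψ₀ k, fun _ => 0, (he₀ k).1, (he₀ k).2, hzero,
        (fun i hi => by cases hi), ?_⟩
      intro k' hk'
      cases hk'
      exact ⟨rfl, rfl⟩
  choose e' φ' ψ' w' he' hφ' hw' hc hl using hline
  obtain ⟨e, hee⟩ : ∃ e : Fin (d + m) → EuclideanSpace ℂ (Fin n),
    e = fun x => e' (finSumFinEquiv.symm x) := ⟨_, rfl⟩
  obtain ⟨φ, hφφ⟩ : ∃ φ : Fin (d + m) → EuclideanSpace ℂ (Fin n) → EuclideanSpace ℂ (Fin n),
    φ = fun x => φ' (finSumFinEquiv.symm x) := ⟨_, rfl⟩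
  obtain ⟨ψ, hψψ⟩ : ∃ ψ : Fin (d + m) → EuclideanSpace ℂ (Fin n) → EuclideanSpace ℂ (Fin n),
    ψ = fun x => ψ' (finSumFinEquiv.symm x) := ⟨_, rfl⟩
  obtain ⟨w, hww⟩ : ∃ w : Fin (d + m) → EuclideanSpace ℂ (Fin n) → ℂ,
    w = fun x => w' (finSumFinEquiv.symm x) := ⟨_, rfl⟩
  have he : ∀ x, ‖e x‖ = 1 := fun x => by rw [hee]; exact he' _
  have hφ : ∀ x, IsBallAut (φ x) (ψ x) := fun x => by rw [hφφ, hψψ]; exact hφ' _
  have hw : ∀ x, Gen5 K₂ p ω (w x) := fun x => by rw [hww]; exact hw' _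
  -- solutions on the sets of points near the centres
  have hcells : ∀ b ∈ ball (0 : EuclideanSpace ℂ (Fin n)) 1, ∀ D' ⊆ ball (0 : EuclideanSpace ℂ
      (Fin n)) 1, (∀ z ∈ D', ∀ i, ‖chi (e i) (φ i) b z - chi (e i) (φ i) b b‖ ≤ σ₂) →
      SolvableOn f D' (2 * C₂) := by
    intro b hb D' hD' hnear
    have h1 := hC₂ f w (fun i => chi (e i) (φ i) b)
      (fun i z => ψ i (mob (e i) ⟪e i, φ i b⟫_ℂ z)) (fun i => chi (e i) (φ i) b b) hf hfM hw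
      (fun i => chi_aut (he i) (hφ i) hb)
      (fun i => (chi_aut (he i) (hφ i) hb).map b hb) ?_
    · refine solvF_drop h1 hD' (fun j => (hf j).mono hD') (σ := σ₂) ?_ hC₂0.le hσ₂0.le ?_
      · intro x z hz
        have h2 := hnear z hz x.1
        have h3 := PiLp.norm_apply_le (chi (e x.1) (φ x.1) b z - chi (e x.1) (φ x.1) b b) x.2
        rw [PiLp.sub_apply] at h3
        exact h3.trans h2
      · rw [← hX]
        exact hσ₂1
    · intro c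
      have h2 := fun i => hc (Sum.inl i) i rfl b hb (c (finSumFinEquiv (Sum.inl i)))
      choose c' hc' using h2
      refine solv_sub (hs c' b hb) ?_ le_rfl
      rintro z ⟨hz, hz1, hz2⟩
      refine ⟨hz, fun i => ?_, fun k => ?_⟩
      · have h3 := hz1 (finSumFinEquiv (Sum.inl i))
        have h4 := hz2 (finSumFinEquiv (Sum.inl i))
        simp only [hww, hee, hφφ, Equiv.symm_apply_apply] at h3 h4
        exact hc' i z hz h3 (h4.trans hτ1)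
      · have h4 := hz2 (finSumFinEquiv (Sum.inr k))
        simp only [hee, hφφ, Equiv.symm_apply_apply] at h4
        obtain ⟨h5, h6⟩ := hl (Sum.inr k) k rfl
        rw [h5, h6] at h4
        exact h4.trans hτσ
  refine hC' f hf hfM ?_ ?_
  · -- the lower bound
    intro z hz
    have h1 := SolvableOn.lower (hs (fun i => u i z) z hz) (z := z)
      ⟨hz, fun i => by simpa using hρ, fun k => by simpa using hσ0.le⟩
    have h2 : (1 : ℝ) ≤ (∑ j, ‖f j z‖) * C₁' :=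
      h1.trans (mul_le_mul_of_nonneg_left hCC (Finset.sum_nonneg fun _ _ => norm_nonneg _))
    have h6 : (∑ j, ‖f j z‖) ^ 2 ≤ N * ∑ j, ‖f j z‖ ^ 2 := by
      have := sq_sum_le_card_mul_sum_sq (s := (Finset.univ : Finset (Fin N)))
        (f := fun j => ‖f j z‖)
      simpa using this
    have hS0 : 0 ≤ ∑ j, ‖f j z‖ ^ 2 := Finset.sum_nonneg fun _ _ => sq_nonneg _
    rw [div_le_iff₀ (by positivity)]
    calc (1 : ℝ) ≤ ((∑ j, ‖f j z‖) * C₁') ^ 2 := by nlinarith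
      _ = (∑ j, ‖f j z‖) ^ 2 * C₁' ^ 2 := by ring
      _ ≤ (N * ∑ j, ‖f j z‖ ^ 2) * C₁' ^ 2 := by gcongr
      _ ≤ ((N + 1) * ∑ j, ‖f j z‖ ^ 2) * C₁' ^ 2 := by gcongr; linarith
      _ = _ := by ring
  · intro l _
    refine depth_fin e φ ψ (fun i => ⟨he i, hφ i⟩) _ fun D' hD' hcell => ?_
    rcases D'.eq_empty_or_nonempty with h0 | ⟨b, hb⟩
    · rw [h0]; exact solv_empty
    have hDb : D' ⊆ ball (0 : EuclideanSpace ℂ (Fin n)) 1 := hD'.trans inter_subset_left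
    refine hcells b (hDb hb) D' hDb fun z hz i => ?_
    obtain ⟨z₀, hz₀⟩ := hcell i
    exact (SK.cell_small (he i) hη₂0 hη₂1 hσ₂0 hη₂2 ((hφ i).map b (hDb hb)) ((hφ i).map z (hDb hz))
      (hz₀ hb) (hz₀ hz)).le

end Pool.Agent.MPca0fc2.MG
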