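import Mathlib
import Pool.Agent.Lib.MP_ca0fc2_an.Defs
import Pool.Agent.Lib.MP_ca0fc2_an.Mob

set_option autoImplicit false

open Metric Set Filter Topology
open scoped InnerProductSpace ComplexConjugate

namespace Pool.Agent.MPca0fc2.SV

open Pool.Agent.Lib.MP_ca0fc2_an

variable {E : Type*} [NormedAddCommGroup E] [InnerProductSpace ℂ E]

/-- the complex line through `l` and `p` -/
def ln (l p : E) : Set E := Set.range fun t : ℂ => l + t • (p - l)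

theorem ln_nonempty (l p : E) : (ln l p).Nonempty := range_nonempty _

/-- an automorphism that maps the line through `l` and `p` to the line through `0` and `e`, with
the constants that we need -/
structure LineAut (l p e : E) (φ ψ : E → E) (A κ : ℝ) : Prop where
  he : ‖e‖ = 1
  aut : IsBallAut φ ψ
  hA : 1 ≤ A
  hκ : 0 < κ
  ta : ∀ b ∈ ball (0 : E) 1, 1 - ‖⟪e, φ b⟫_ℂ‖ ^ 2 ≤
    A * ((1 - ‖b‖ ^ 2) + infDist b (ln l p) ^ 2)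
  dep : ∀ b ∈ ball (0 : E) 1, 1 - ‖b‖ ^ 2 ≤ A * (1 - ‖φ b‖ ^ 2)
  hol : DifferentiableOn ℂ ψ (ball 0 (1 + κ))
  lip : ∀ y ∈ ball (0 : E) (1 + κ), ∀ y' ∈ ball (0 : E) (1 + κ), ‖ψ y - ψ y'‖ ≤ A * ‖y - y'‖
  out : ∀ y ∈ ball (0 : E) (1 + κ), ∀ s : ℝ, 0 ≤ s → ‖y‖ ^ 2 < 1 + s → ‖ψ y‖ ^ 2 < 1 + A * s

/-- the identity for the norm of the image, wherever the map is defined -/
theorem mob_norm' {u : E} (hu : ‖u‖ = 1) {ζ : ℂ} (hζ : ‖ζ‖ < 1) {z : E}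
    (hd : 1 + conj ζ * ⟪u, z⟫_ℂ ≠ 0) :
    (1 - ‖mob u ζ z‖ ^ 2) * ‖1 + conj ζ * ⟪u, z⟫_ℂ‖ ^ 2 = (1 - ‖ζ‖ ^ 2) * (1 - ‖z‖ ^ 2) := by
  have hd' : 0 < ‖1 + conj ζ * ⟪u, z⟫_ℂ‖ := norm_pos_iff.mpr hd
  rw [norm_sq_dec hu (mob u ζ z), norm_sq_dec hu z, inner_mob hu, prj_mob hu, norm_div, norm_smul,
    norm_div, Complex.norm_real, Real.norm_of_nonneg (sq_pos hζ).le, div_pow, mul_pow, div_pow,
    sq_sq hζ]
  have hid := mobius_identity (-⟪u, z⟫_ℂ) ζ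
  simp only [mul_neg, sub_neg_eq_add, norm_neg] at hid
  have e1 : ‖⟪u, z⟫_ℂ + ζ‖ = ‖-⟪u, z⟫_ℂ - ζ‖ := by
    rw [← norm_neg]; congr 1; ring
  rw [e1]
  set d : ℝ := ‖1 + conj ζ * ⟪u, z⟫_ℂ‖ with hdd
  have e2 : (1 - (‖-⟪u, z⟫_ℂ - ζ‖ ^ 2 / d ^ 2 + (1 - ‖ζ‖ ^ 2) / d ^ 2 * ‖prj u z‖ ^ 2)) * d ^ 2 =
      d ^ 2 - ‖-⟪u, z⟫_ℂ - ζ‖ ^ 2 - (1 - ‖ζ‖ ^ 2) * ‖prj u z‖ ^ 2 := by
    field_simp
    ring
  rw [e2, hid]
  ring

/-- the denominator is bounded below -/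
theorem den_lower {u : E} (hu : ‖u‖ = 1) {ζ : ℂ} (hζ : ‖ζ‖ < 1) {y : E}
    (hy : ‖y‖ ≤ 1 + (1 - ‖ζ‖) / 2) : (1 - ‖ζ‖) / 2 ≤ ‖1 + conj ζ * ⟪u, y⟫_ℂ‖ := by
  have h1 : ‖conj ζ * ⟪u, y⟫_ℂ‖ ≤ ‖ζ‖ * (1 + (1 - ‖ζ‖) / 2) := by
    rw [norm_mul, RCLike.norm_conj]
    exact mul_le_mul_of_nonneg_left ((norm_inner_le hu y).trans hy) (norm_nonneg _)
  have h2 : 1 - ‖conj ζ * ⟪u, y⟫_ℂ‖ ≤ ‖1 + conj ζ * ⟪u, y⟫_ℂ‖ := by
    have := norm_sub_norm_le (1 : ℂ) (-(conj ζ * ⟪u, y⟫_ℂ))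
    rwa [norm_one, norm_neg, sub_neg_eq_add] at this
  nlinarith [norm_nonneg ζ]

/-- the numerator -/
noncomputable def num (u : E) (ζ : ℂ) (y : E) : E := (⟪u, y⟫_ℂ + ζ) • u + (sq ζ : ℂ) • prj u y

theorem mob_eq (u : E) (ζ : ℂ) (y : E) :
    mob u ζ y = (1 + conj ζ * ⟪u, y⟫_ℂ)⁻¹ • num u ζ y := rfl

theorem sq_le_one {ζ : ℂ} : Pool.Agent.Lib.MP_ca0fc2_an.sq ζ ≤ 1 := by
  rw [Pool.Agent.Lib.MP_ca0fc2_an.sq]
  apply Real.sqrt_le_one.2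
  linarith [sq_nonneg ‖ζ‖]

/-- the linear part of the numerator is a contraction -/
theorem lam_le {u : E} (hu : ‖u‖ = 1) {ζ : ℂ} (hζ : ‖ζ‖ < 1) (x : E) :
    ‖⟪u, x⟫_ℂ • u + (sq ζ : ℂ) • prj u x‖ ≤ ‖x‖ := by
  have h0 : (sq ζ : ℂ) • prj u x = prj u ((sq ζ : ℂ) • x) := by rw [map_smul]
  have h1 : ‖⟪u, x⟫_ℂ • u + (sq ζ : ℂ) • prj u x‖ ^ 2 ≤ ‖x‖ ^ 2 := by
    rw [h0, norm_smul_add_prj hu, norm_sq_dec hu x, map_smul, norm_smul, Complex.norm_real,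
      Real.norm_of_nonneg (sq_pos hζ).le, mul_pow]
    have h2 : Pool.Agent.Lib.MP_ca0fc2_an.sq ζ ^ 2 ≤ 1 := by
      have := sq_le_one (ζ := ζ)
      nlinarith [Pool.Agent.Lib.MP_ca0fc2_an.sq_pos hζ]
    nlinarith [sq_nonneg ‖prj u x‖]
  exact le_of_sq_le_sq h1 (norm_nonneg _)

theorem num_sub (u : E) (ζ : ℂ) (y y' : E) : num u ζ y - num u ζ y' =
    ⟪u, y - y'⟫_ℂ • u + (sq ζ : ℂ) • prj u (y - y') := by
  rw [num, num, inner_sub_right, map_sub, smul_sub]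
  module

theorem num_le {u : E} (hu : ‖u‖ = 1) {ζ : ℂ} (hζ : ‖ζ‖ < 1) {y : E} (hy : ‖y‖ ≤ 2) :
    ‖num u ζ y‖ ≤ 3 := by
  have h1 : num u ζ y = (⟪u, y⟫_ℂ • u + (sq ζ : ℂ) • prj u y) + ζ • u := by
    rw [num]; module
  rw [h1]
  calc _ ≤ ‖⟪u, y⟫_ℂ • u + (sq ζ : ℂ) • prj u y‖ + ‖ζ • u‖ := norm_add_le _ _
    _ ≤ 2 + 1 := by
      apply add_le_add ((lam_le hu hζ y).trans hy)
      rw [norm_smul, hu, mul_one]
      exact hζ.le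
    _ = 3 := by norm_num

/-- existence of the adapted automorphism -/
theorem exists_lineAut {l p : E} (hl : ‖l‖ = 1) (hp : ‖p‖ < 1) :
    ∃ (e : E) (φ ψ : E → E) (A κ : ℝ), LineAut l p e φ ψ A κ := by
  obtain ⟨u, ζ, hu, hζp, hpu⟩ : ∃ (u : E) (ζ : ℂ), ‖u‖ = 1 ∧ ‖ζ‖ = ‖p‖ ∧ p = ζ • u := by
    by_cases h0 : p = 0
    · exact ⟨l, 0, hl, by rw [h0, norm_zero, norm_zero], by rw [h0, zero_smul]⟩
    · have hn : ‖p‖ ≠ 0 := norm_ne_zero_iff.2 h0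
      refine ⟨((‖p‖ : ℂ)⁻¹) • p, (‖p‖ : ℂ), ?_, ?_, ?_⟩
      · rw [norm_smul, norm_inv, Complex.norm_real, norm_norm, inv_mul_cancel₀ hn]
      · rw [Complex.norm_real, norm_norm]
      · rw [smul_smul, mul_inv_cancel₀ (by exact_mod_cast hn), one_smul]
  have hζ : ‖ζ‖ < 1 := by rw [hζp]; exact hp
  have hζ' : ‖-ζ‖ < 1 := by rwa [norm_neg]
  obtain ⟨κ, hκ⟩ : ∃ κ, κ = (1 - ‖ζ‖) / 2 := ⟨_, rfl⟩
  have hκ0 : 0 < κ := by rw [hκ]; linarith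
  have hκ1 : κ ≤ 1 / 2 := by rw [hκ]; linarith [norm_nonneg ζ]
  have hinv : 1 ≤ 1 / κ := by rw [le_div_iff₀ hκ0]; linarith
  have hinv2 : 1 / κ ≤ 1 / κ ^ 2 := by
    apply one_div_le_one_div_of_le (by positivity)
    nlinarith
  have hden : ∀ y : E, ‖y‖ ≤ 1 + κ → κ ≤ ‖1 + conj ζ * ⟪u, y⟫_ℂ‖ := by
    intro y hy
    rw [hκ] at hy ⊢
    exact den_lower hu hζ hy
  have hden' : ∀ y : E, ‖y‖ ≤ 1 + κ → κ ≤ ‖1 + conj (-ζ) * ⟪u, y⟫_ℂ‖ := by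
    intro y hy
    have h1 := den_lower hu hζ' (y := y) (by rw [norm_neg, ← hκ]; exact hy)
    rwa [norm_neg, ← hκ] at h1
  have hne : ∀ y : E, ‖y‖ ≤ 1 + κ → 1 + conj ζ * ⟪u, y⟫_ℂ ≠ 0 := fun y hy =>
    norm_pos_iff.1 (hκ0.trans_le (hden y hy))
  have hne' : ∀ y : E, ‖y‖ ≤ 1 + κ → 1 + conj (-ζ) * ⟪u, y⟫_ℂ ≠ 0 := fun y hy =>
    norm_pos_iff.1 (hκ0.trans_le (hden' y hy))
  have hup : ⟪u, p⟫_ℂ = ζ := by rw [hpu, inner_smul_right, inner_self_one hu, mul_one]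
  have hpp : prj u p = 0 := by rw [hpu, map_smul, prj_self hu, smul_zero]
  have hnump : num u (-ζ) p = 0 := by
    rw [num, hup, hpp, smul_zero, add_zero, add_neg_cancel, zero_smul]
  obtain ⟨e, he⟩ : ∃ e, e = mob u (-ζ) l := ⟨_, rfl⟩
  have hl1 : ‖l‖ ≤ 1 + κ := by rw [hl]; linarith
  have hen : ‖e‖ = 1 := by
    have h1 := mob_norm' hu hζ' (hne' l hl1)
    rw [← he, hl] at h1
    have h2 : 0 < ‖1 + conj (-ζ) * ⟪u, l⟫_ℂ‖ ^ 2 := by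
      have := hne' l hl1
      positivity
    have h3 : 1 - ‖e‖ ^ 2 = 0 := by
      rcases mul_eq_zero.1 (h1.trans (by norm_num)) with h4 | h4
      · exact h4
      · exact absurd h4 h2.ne'
    nlinarith [norm_nonneg e]
  have hball : ∀ b ∈ ball (0 : E) 1, ‖b‖ ≤ 1 + κ := by
    intro b hb
    rw [mem_ball_zero_iff] at hb
    linarith
  -- the component orthogonal to the line
  have horth : ∀ b ∈ ball (0 : E) 1, κ * ‖prj e (mob u (-ζ) b)‖ ≤ infDist b (ln l p) := by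
    intro b hb
    rw [le_infDist (ln_nonempty l p)]
    rintro w ⟨t, rfl⟩
    obtain ⟨w, hw⟩ : ∃ w, w = l + t • (p - l) := ⟨_, rfl⟩
    have hb1 := hball b hb
    have e1 : num u (-ζ) b = (⟪u, b - w⟫_ℂ • u + (sq ζ : ℂ) • prj u (b - w)) +
        ((1 - t) * (1 + conj (-ζ) * ⟪u, l⟫_ℂ)) • e := by
      have e2 : num u (-ζ) b - num u (-ζ) w = ⟪u, b - w⟫_ℂ • u + (sq ζ : ℂ) • prj u (b - w) := by
        rw [num_sub, sq_neg]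
      have e3 : num u (-ζ) w = (1 - t) • num u (-ζ) l := by
        have e4 : num u (-ζ) w - num u (-ζ) p = (1 - t) • (num u (-ζ) l - num u (-ζ) p) := by
          rw [num_sub, num_sub]
          have e5 : w - p = (1 - t) • (l - p) := by rw [hw]; module
          rw [e5, inner_smul_right, map_smul]
          module
        rw [hnump, sub_zero, sub_zero] at e4
        exact e4
      have e6 : num u (-ζ) l = (1 + conj (-ζ) * ⟪u, l⟫_ℂ) • e := by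
        rw [he, mob_eq, smul_smul, mul_inv_cancel₀ (hne' l hl1), one_smul]
      rw [← e2, ← smul_smul, ← e6, ← e3]
      abel
    have e2 : prj e (mob u (-ζ) b) = (1 + conj (-ζ) * ⟪u, b⟫_ℂ)⁻¹ •
        prj e (⟪u, b - w⟫_ℂ • u + (sq ζ : ℂ) • prj u (b - w)) := by
      rw [mob_eq, e1, map_smul, map_add, map_smul, prj_self hen, smul_zero, add_zero]
    have e3 : ‖prj e (mob u (-ζ) b)‖ ≤ κ⁻¹ * ‖b - w‖ := by
      rw [e2, norm_smul, norm_inv]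
      apply mul_le_mul
      · exact inv_anti₀ hκ0 (hden' b hb1)
      · exact (norm_prj_le hen _).trans (lam_le hu hζ _)
      · exact norm_nonneg _
      · positivity
    show κ * ‖prj e (mob u (-ζ) b)‖ ≤ dist b (l + t • (p - l))
    rw [dist_eq_norm, ← hw]
    calc κ * ‖prj e (mob u (-ζ) b)‖ ≤ κ * (κ⁻¹ * ‖b - w‖) := by gcongr
      _ = ‖b - w‖ := by rw [← mul_assoc, mul_inv_cancel₀ hκ0.ne', one_mul]
  refine ⟨e, mob u (-ζ), mob u ζ, 7 / κ ^ 2, κ, hen, ?_, ?_, hκ0, ?_, ?_, ?_, ?_, ?_⟩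
  · refine ⟨mob_diff hu hζ', mob_diff hu hζ, fun z hz => mob_mem hu hζ' hz,
      fun z hz => mob_mem hu hζ hz, fun z hz => ?_, fun z hz => mob_inv hu hζ hz⟩
    have := mob_inv hu hζ' hz
    rwa [neg_neg] at this
  · rw [le_div_iff₀ (by positivity)]
    nlinarith
  · intro b hb
    have hb1 := hball b hb
    have h1 := mob_norm' hu hζ' (hne' b hb1)
    have h2 := hden' b hb1
    have h3 := horth b hb
    have h4 := norm_sq_dec hen (mob u (-ζ) b)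
    have hbn : 0 ≤ 1 - ‖b‖ ^ 2 := by
      rw [mem_ball_zero_iff] at hb
      nlinarith [norm_nonneg b]
    have h5 : (1 - ‖mob u (-ζ) b‖ ^ 2) * κ ^ 2 ≤ 1 - ‖b‖ ^ 2 := by
      have h6 : 0 ≤ 1 - ‖mob u (-ζ) b‖ ^ 2 := by
        have := mob_mem hu hζ' hb
        rw [mem_ball_zero_iff] at this
        nlinarith [norm_nonneg (mob u (-ζ) b)]
      calc (1 - ‖mob u (-ζ) b‖ ^ 2) * κ ^ 2 ≤
          (1 - ‖mob u (-ζ) b‖ ^ 2) * ‖1 + conj (-ζ) * ⟪u, b⟫_ℂ‖ ^ 2 := by gcongr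
        _ = (1 - ‖-ζ‖ ^ 2) * (1 - ‖b‖ ^ 2) := h1
        _ ≤ 1 * (1 - ‖b‖ ^ 2) := by
          apply mul_le_mul_of_nonneg_right _ hbn
          linarith [sq_nonneg ‖-ζ‖]
        _ = _ := one_mul _
    have h6 : (κ * ‖prj e (mob u (-ζ) b)‖) ^ 2 ≤ infDist b (ln l p) ^ 2 :=
      pow_le_pow_left₀ (by positivity) h3 2
    have h7 : (1 - ‖⟪e, mob u (-ζ) b⟫_ℂ‖ ^ 2) * κ ^ 2 ≤
        (1 - ‖b‖ ^ 2) + infDist b (ln l p) ^ 2 := by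
      have : 1 - ‖⟪e, mob u (-ζ) b⟫_ℂ‖ ^ 2 = (1 - ‖mob u (-ζ) b‖ ^ 2) +
          ‖prj e (mob u (-ζ) b)‖ ^ 2 := by linarith
      rw [this, add_mul]
      rw [mul_pow] at h6
      linarith
    have h8 : 0 ≤ (1 - ‖b‖ ^ 2) + infDist b (ln l p) ^ 2 := by positivity
    rw [div_mul_eq_mul_div, le_div_iff₀ (by positivity)]
    linarith
  · intro b hb
    have hb1 := hball b hb
    have h1 := mob_norm' hu hζ' (hne' b hb1)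
    have h2 := hden' b hb1
    have hbn : 0 ≤ 1 - ‖b‖ ^ 2 := by
      rw [mem_ball_zero_iff] at hb
      nlinarith [norm_nonneg b]
    have h6 : 0 ≤ 1 - ‖mob u (-ζ) b‖ ^ 2 := by
      have := mob_mem hu hζ' hb
      rw [mem_ball_zero_iff] at this
      nlinarith [norm_nonneg (mob u (-ζ) b)]
    have h7 : ‖1 + conj (-ζ) * ⟪u, b⟫_ℂ‖ ≤ 2 := by
      refine (norm_add_le _ _).trans ?_
      rw [norm_one, norm_mul, RCLike.norm_conj, norm_neg]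
      rw [mem_ball_zero_iff] at hb
      nlinarith [norm_nonneg ζ, norm_inner_le hu b, norm_nonneg ⟪u, b⟫_ℂ]
    have h8 : κ * (1 - ‖b‖ ^ 2) ≤ 4 * (1 - ‖mob u (-ζ) b‖ ^ 2) := by
      calc κ * (1 - ‖b‖ ^ 2) ≤ (1 - ‖-ζ‖ ^ 2) * (1 - ‖b‖ ^ 2) := by
            apply mul_le_mul_of_nonneg_right _ hbn
            rw [norm_neg, hκ]
            nlinarith [norm_nonneg ζ]
        _ = (1 - ‖mob u (-ζ) b‖ ^ 2) * ‖1 + conj (-ζ) * ⟪u, b⟫_ℂ‖ ^ 2 := h1.symm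
        _ ≤ (1 - ‖mob u (-ζ) b‖ ^ 2) * 2 ^ 2 := by gcongr
        _ = _ := by ring
    rw [div_mul_eq_mul_div, le_div_iff₀ (by positivity)]
    nlinarith
  · have hin : Differentiable ℂ fun z : E => ⟪u, z⟫_ℂ := (innerSL ℂ u).differentiable
    unfold mob
    refine DifferentiableOn.smul ?_ ?_
    · refine DifferentiableOn.inv ?_ ?_
      · exact ((hin.const_mul _).const_add _).differentiableOn
      · intro z hz
        rw [mem_ball_zero_iff] at hz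
        exact hne z hz.le
    · exact (((hin.add_const ζ).smul_const u).add
        ((prj u).differentiable.const_smul _)).differentiableOn
  · intro y hy y' hy'
    rw [mem_ball_zero_iff] at hy hy'
    have h1 := hden y hy.le
    have h2 := hden y' hy'.le
    have e1 : mob u ζ y - mob u ζ y' = (1 + conj ζ * ⟪u, y⟫_ℂ)⁻¹ • (num u ζ y - num u ζ y') +
        ((1 + conj ζ * ⟪u, y⟫_ℂ)⁻¹ - (1 + conj ζ * ⟪u, y'⟫_ℂ)⁻¹) • num u ζ y' := by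
      rw [mob_eq, mob_eq]
      module
    have e2 : ‖(1 + conj ζ * ⟪u, y⟫_ℂ)⁻¹ - (1 + conj ζ * ⟪u, y'⟫_ℂ)⁻¹‖ ≤ ‖y - y'‖ / κ ^ 2 := by
      rw [inv_sub_inv (hne y hy.le) (hne y' hy'.le), norm_div, norm_mul]
      have e3 : ‖(1 + conj ζ * ⟪u, y'⟫_ℂ) - (1 + conj ζ * ⟪u, y⟫_ℂ)‖ ≤ ‖y - y'‖ := by
        have e4 : (1 + conj ζ * ⟪u, y'⟫_ℂ) - (1 + conj ζ * ⟪u, y⟫_ℂ) =
            conj ζ * ⟪u, y' - y⟫_ℂ := by rw [inner_sub_right]; ring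
        rw [e4, norm_mul, RCLike.norm_conj, norm_sub_rev y y']
        have := norm_inner_le hu (y' - y)
        nlinarith [norm_nonneg ⟪u, y' - y⟫_ℂ, norm_nonneg ζ, norm_nonneg (y' - y)]
      calc _ ≤ ‖y - y'‖ / (κ * κ) := by gcongr
        _ = _ := by rw [pow_two]
    rw [e1]
    refine (norm_add_le _ _).trans ?_
    rw [norm_smul, norm_smul, norm_inv, num_sub]
    have e3 : (‖1 + conj ζ * ⟪u, y⟫_ℂ‖)⁻¹ ≤ 1 / κ := by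
      rw [← one_div]
      exact one_div_le_one_div_of_le hκ0 h1
    have e5 : (‖1 + conj ζ * ⟪u, y⟫_ℂ‖)⁻¹ *
        ‖⟪u, y - y'⟫_ℂ • u + (sq ζ : ℂ) • prj u (y - y')‖ ≤ (1 / κ ^ 2) * ‖y - y'‖ :=
      mul_le_mul (e3.trans hinv2) (lam_le hu hζ _) (norm_nonneg _) (by positivity)
    have e6 : ‖(1 + conj ζ * ⟪u, y⟫_ℂ)⁻¹ - (1 + conj ζ * ⟪u, y'⟫_ℂ)⁻¹‖ * ‖num u ζ y'‖ ≤
        (‖y - y'‖ / κ ^ 2) * 3 :=
      mul_le_mul e2 (num_le hu hζ (by linarith)) (norm_nonneg _) (by positivity)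
    calc _ ≤ (1 / κ ^ 2) * ‖y - y'‖ + (‖y - y'‖ / κ ^ 2) * 3 := add_le_add e5 e6
      _ = 4 / κ ^ 2 * ‖y - y'‖ := by ring
      _ ≤ 7 / κ ^ 2 * ‖y - y'‖ := by gcongr; norm_num
  · intro y hy s hs hys
    rw [mem_ball_zero_iff] at hy
    have h1 := mob_norm' hu hζ (hne y hy.le)
    have h2 := hden y hy.le
    have h3 : 0 < ‖1 + conj ζ * ⟪u, y⟫_ℂ‖ ^ 2 := by
      have := hne y hy.le
      positivity
    have h4 : κ ^ 2 ≤ ‖1 + conj ζ * ⟪u, y⟫_ℂ‖ ^ 2 := pow_le_pow_left₀ hκ0.le h2 2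
    have h5 : 0 < 1 - ‖ζ‖ ^ 2 := by nlinarith [norm_nonneg ζ]
    have h6 : (‖mob u ζ y‖ ^ 2 - 1) * ‖1 + conj ζ * ⟪u, y⟫_ℂ‖ ^ 2 <
        (7 / κ ^ 2 * s) * ‖1 + conj ζ * ⟪u, y⟫_ℂ‖ ^ 2 := by
      have h7 : (‖mob u ζ y‖ ^ 2 - 1) * ‖1 + conj ζ * ⟪u, y⟫_ℂ‖ ^ 2 =
          (1 - ‖ζ‖ ^ 2) * (‖y‖ ^ 2 - 1) := by linarith
      rw [h7]
      have h8 : (1 - ‖ζ‖ ^ 2) * (‖y‖ ^ 2 - 1) < (1 - ‖ζ‖ ^ 2) * s + 0 := by
        rw [add_zero]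
        exact mul_lt_mul_of_pos_left (by linarith) h5
      have h9 : (1 - ‖ζ‖ ^ 2) * s ≤ 1 * s := by
        apply mul_le_mul_of_nonneg_right _ hs
        linarith [sq_nonneg ‖ζ‖]
      have h10 : 7 * s ≤ (7 / κ ^ 2 * s) * ‖1 + conj ζ * ⟪u, y⟫_ℂ‖ ^ 2 := by
        calc 7 * s = (7 / κ ^ 2 * s) * κ ^ 2 := by field_simp
          _ ≤ _ := by gcongr
      linarith
    have h7 := lt_of_mul_lt_mul_right h6 h3.le
    linarith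

end Pool.Agent.MPca0fc2.SV
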