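import Mathlib
import Pool.Agent.Lib.MP_ca0fc2_an.SVAut

set_option autoImplicit false

open Metric Set Filter Topology
open scoped InnerProductSpace ComplexConjugate

namespace Pool.Agent.MPca0fc2.SV

open Pool.Agent.Lib.MP_ca0fc2_an

variable {E : Type*} [NormedAddCommGroup E] [InnerProductSpace ℂ E]

/-- the domain on which a datum is defined -/
def dom (r : E → ℝ) : Set E := {z | ‖z‖ ^ 2 < 1 + r z ^ 2}

/-- the point `z` is in the cell of relative size `μ` around `b` -/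
def near (e : E) (φ : E → E) (μ : ℝ) (b z : E) : Prop :=
  ‖⟪e, φ z - φ b⟫_ℂ‖ ≤ μ * (1 - ‖⟪e, φ b⟫_ℂ‖) ∧ ‖φ z - φ b‖ ^ 2 ≤ μ * (1 - ‖⟪e, φ b⟫_ℂ‖)

theorem ball_subset_dom (r : E → ℝ) : ball (0 : E) 1 ⊆ dom r := by
  intro z hz
  rw [mem_ball_zero_iff] at hz
  show ‖z‖ ^ 2 < 1 + r z ^ 2
  nlinarith [norm_nonneg z, sq_nonneg (r z)]

/-- the component in the direction of the centre -/
theorem cross_le {e : E} (he : ‖e‖ = 1) {q : ℝ} (hq0 : 0 ≤ q) (hq1 : q ≤ 1) {a w : E}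
    (ha : a ∈ ball (0 : E) 1)
    (h1 : ‖⟪e, w⟫_ℂ‖ ≤ q ^ 2 * (1 - ‖⟪e, a⟫_ℂ‖)) (h2 : ‖w‖ ^ 2 ≤ q ^ 2 * (1 - ‖⟪e, a⟫_ℂ‖)) :
    ‖⟪a, w⟫_ℂ‖ ≤ 3 * q * (1 - ‖⟪e, a⟫_ℂ‖) := by
  obtain ⟨t, ht⟩ : ∃ t, t = 1 - ‖⟪e, a⟫_ℂ‖ := ⟨_, rfl⟩
  have hlb : ‖⟪e, a⟫_ℂ‖ < 1 := norm_inner_lt he ha
  have ht0 : 0 < t := by rw [ht]; linarith
  rw [← ht] at h1 h2 ⊢
  have hb1 : ‖a‖ ^ 2 < 1 := by
    rw [mem_ball_zero_iff] at ha
    nlinarith [norm_nonneg a]
  have hdec := norm_sq_dec he a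
  have hlb' : ‖⟪e, a⟫_ℂ‖ = 1 - t := by rw [ht]; ring
  have hb' : ‖prj e a‖ ^ 2 ≤ 2 * t := by
    rw [hlb'] at hdec
    nlinarith
  have h3 : ⟪a, w⟫_ℂ = conj ⟪e, a⟫_ℂ * ⟪e, w⟫_ℂ + ⟪prj e a, w⟫_ℂ := by
    conv_lhs => rw [← dec_eq (e := e) a, inner_add_left, inner_smul_left]
  have h4 : ‖⟪prj e a, w⟫_ℂ‖ ≤ 2 * q * t := by
    refine (norm_inner_le_norm _ _).trans ?_
    apply le_of_sq_le_sq _ (by positivity)
    rw [mul_pow]
    calc ‖prj e a‖ ^ 2 * ‖w‖ ^ 2 ≤ (2 * t) * (q ^ 2 * t) := by gcongr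
      _ ≤ (2 * q * t) ^ 2 := by nlinarith [sq_nonneg (q * t)]
  calc ‖⟪a, w⟫_ℂ‖ ≤ ‖conj ⟪e, a⟫_ℂ * ⟪e, w⟫_ℂ‖ + ‖⟪prj e a, w⟫_ℂ‖ := by
        rw [h3]; exact norm_add_le _ _
    _ ≤ 1 * (q ^ 2 * t) + 2 * q * t := by
        rw [norm_mul, RCLike.norm_conj]
        gcongr
    _ ≤ 3 * q * t := by
        have : q ^ 2 * t ≤ q * t := by
          have : q ^ 2 ≤ q := by nlinarith
          gcongr
        linarith

/-- The variation of a datum on the cells of a line, around the points where the room in the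
domain is comparable with the size of the cells. -/
theorem cell_osc {l p e : E} {φ ψ : E → E} {A κ : ℝ} (hS : LineAut l p e φ ψ A κ)
    {L c θ : ℝ} (hL : 0 ≤ L) (hc : 0 < c) (hθ : 0 < θ) (hθ1 : θ ≤ 1) :
    ∃ μ : ℝ, 0 < μ ∧ μ ≤ 1 ∧ ∀ μ' : ℝ, 0 ≤ μ' → μ' ≤ μ → ∀ (r : E → ℝ) (F : E → ℂ) (M : ℝ),
      (∀ z w, |r z - r w| ≤ L * ‖z - w‖) → DifferentiableOn ℂ F (dom r) →
      (∀ z ∈ dom r, ‖F z‖ ≤ M) → ∀ b ∈ ball (0 : E) 1, ∀ z ∈ ball (0 : E) 1, near e φ μ' b z →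
      c * ((1 - ‖b‖ ^ 2) + infDist b (ln l p) ^ 2) ≤ r b ^ 2 + (1 - ‖b‖ ^ 2) →
      ‖F z - F b‖ ≤ M * θ := by
  have hA0 : 0 < A := one_pos.trans_le hS.hA
  have hκ0 := hS.hκ
  obtain ⟨R, hR⟩ : ∃ R, R = 2 / θ := ⟨_, rfl⟩
  have hR2 : 2 ≤ R := by
    rw [hR, le_div_iff₀ hθ]
    linarith
  have hR0 : 0 < R := by linarith
  obtain ⟨q, hq⟩ : ∃ q, q = min (min 1 (κ / (7 * R ^ 2)))
      (min (c / (56 * R ^ 2 * A ^ 2)) (c / (8 * (L ^ 2 * A ^ 3 * R ^ 2 + 1)))) := ⟨_, rfl⟩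
  have hq0 : 0 < q := by
    rw [hq]
    refine lt_min (lt_min one_pos (by positivity)) (lt_min (by positivity) (by positivity))
  have hq1 : q ≤ 1 := by rw [hq]; exact (min_le_left _ _).trans (min_le_left _ _)
  have hq2 : 7 * R ^ 2 * q ≤ κ := by
    have : q ≤ κ / (7 * R ^ 2) := by rw [hq]; exact (min_le_left _ _).trans (min_le_right _ _)
    rw [le_div_iff₀ (by positivity)] at this
    linarith
  have hq3 : 7 * R ^ 2 * q * A ^ 2 ≤ c / 8 := by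
    have : q ≤ c / (56 * R ^ 2 * A ^ 2) := by
      rw [hq]; exact (min_le_right _ _).trans (min_le_left _ _)
    rw [le_div_iff₀ (by positivity)] at this
    linarith
  have hq4 : L ^ 2 * A ^ 3 * R ^ 2 * q ≤ c / 8 := by
    have : q ≤ c / (8 * (L ^ 2 * A ^ 3 * R ^ 2 + 1)) := by
      rw [hq]; exact (min_le_right _ _).trans (min_le_right _ _)
    rw [le_div_iff₀ (by positivity)] at this
    linarith
  refine ⟨q ^ 2, by positivity, by nlinarith, ?_⟩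
  intro μ' hμ0 hμ r F M hr hF hFM b hb z hz hnear' hroom
  have hφb := hS.aut.map b hb
  have hφz := hS.aut.map z hz
  obtain ⟨t, ht⟩ : ∃ t, t = 1 - ‖⟪e, φ b⟫_ℂ‖ := ⟨_, rfl⟩
  have hlt : ‖⟪e, φ b⟫_ℂ‖ < 1 := norm_inner_lt hS.he hφb
  have ht0 : 0 < t := by rw [ht]; linarith
  have ht1 : t ≤ 1 := by rw [ht]; linarith [norm_nonneg ⟪e, φ b⟫_ℂ]
  have hnear : near e φ (q ^ 2) b z := by
    have : μ' * t ≤ q ^ 2 * t := by gcongr
    rw [ht] at this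
    exact ⟨hnear'.1.trans this, hnear'.2.trans this⟩
  have hM0 : 0 ≤ M := (norm_nonneg _).trans (hFM b (ball_subset_dom r hb))
  obtain ⟨T, hT⟩ : ∃ T, T = (1 - ‖b‖ ^ 2) + infDist b (ln l p) ^ 2 := ⟨_, rfl⟩
  have hb1 : 0 < 1 - ‖b‖ ^ 2 := by
    rw [mem_ball_zero_iff] at hb
    nlinarith [norm_nonneg b]
  have hT0 : 0 < T := by rw [hT]; positivity
  rw [← hT] at hroom
  have htT : t ≤ A * T := by
    have h1 := hS.ta b hb
    rw [← hT] at h1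
    have h2 : t ≤ 1 - ‖⟪e, φ b⟫_ℂ‖ ^ 2 := by
      rw [ht]
      nlinarith [norm_nonneg ⟪e, φ b⟫_ℂ]
    exact h2.trans h1
  obtain ⟨w, hw⟩ : ∃ w, w = φ z - φ b := ⟨_, rfl⟩
  have hn1 : ‖⟪e, w⟫_ℂ‖ ≤ q ^ 2 * (1 - ‖⟪e, φ b⟫_ℂ‖) := by rw [hw]; exact hnear.1
  have hn2 : ‖w‖ ^ 2 ≤ q ^ 2 * (1 - ‖⟪e, φ b⟫_ℂ‖) := by rw [hw]; exact hnear.2
  have hX := cross_le hS.he hq0.le hq1 hφb hn1 hn2
  rw [← ht] at hX hn2
  -- the points of the disc
  have hy : ∀ x : ℂ, ‖x‖ < R → ‖φ b + x • w‖ ^ 2 ≤ ‖φ b‖ ^ 2 + 7 * R ^ 2 * q * t := by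
    intro x hx
    have h1 := norm_add_sq (𝕜 := ℂ) (φ b) (x • w)
    rw [inner_smul_right] at h1
    have h2 : RCLike.re (x * ⟪φ b, w⟫_ℂ) ≤ R * (3 * q * t) := by
      refine (RCLike.re_le_norm _).trans ?_
      rw [norm_mul]
      exact mul_le_mul hx.le hX (norm_nonneg _) hR0.le
    have h3 : ‖x • w‖ ^ 2 ≤ R ^ 2 * (q ^ 2 * t) := by
      rw [norm_smul, mul_pow]
      exact mul_le_mul (pow_le_pow_left₀ (norm_nonneg _) hx.le 2) hn2 (by positivity)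
        (by positivity)
    have h4 : R * (3 * q * t) * 2 ≤ 3 * (R ^ 2 * q * t) := by
      have h5 : R * 2 ≤ R ^ 2 := by nlinarith
      have h6 : 0 ≤ 3 * q * t := by positivity
      nlinarith [mul_le_mul_of_nonneg_right h5 h6]
    have h7 : R ^ 2 * (q ^ 2 * t) ≤ R ^ 2 * q * t := by
      have : q ^ 2 ≤ q := by nlinarith
      calc R ^ 2 * (q ^ 2 * t) ≤ R ^ 2 * (q * t) := by gcongr
        _ = _ := by ring
    have h8 : 0 ≤ R ^ 2 * q * t := by positivity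
    linarith
  have hs0 : 0 ≤ 7 * R ^ 2 * q * t := by positivity
  have hsκ : 7 * R ^ 2 * q * t ≤ κ := by
    calc 7 * R ^ 2 * q * t ≤ κ * 1 := mul_le_mul hq2 ht1 ht0.le hκ0.le
      _ = κ := mul_one _
  have hsT : 7 * R ^ 2 * q * t ≤ 7 * R ^ 2 * q * A * T := by
    calc 7 * R ^ 2 * q * t ≤ 7 * R ^ 2 * q * (A * T) := by gcongr
      _ = _ := by ring
  have hφb1 : ‖φ b‖ ^ 2 < 1 := by
    rw [mem_ball_zero_iff] at hφb
    nlinarith [norm_nonneg (φ b)]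
  have hyκ : ∀ x : ℂ, ‖x‖ < R → φ b + x • w ∈ ball (0 : E) (1 + κ) := by
    intro x hx
    have h1 := hy x hx
    rw [mem_ball_zero_iff]
    have h2 : ‖φ b + x • w‖ ^ 2 < (1 + κ) ^ 2 := by nlinarith
    exact (pow_lt_pow_iff_left₀ (norm_nonneg _) (by positivity) two_ne_zero).1 h2
  have hmem : ∀ x : ℂ, ‖x‖ < R → ψ (φ b + x • w) ∈ dom r := by
    intro x hx
    have h1 := hy x hx
    have h2 := hyκ x hx
    rcases le_total (c / 2 * T) (1 - ‖b‖ ^ 2) with hcase | hcase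
    · -- deep points
      have h3 := hS.dep b hb
      have h4 : c / 2 * T ≤ A * (1 - ‖φ b‖ ^ 2) := hcase.trans h3
      have h5 : A * (7 * R ^ 2 * q * t) ≤ c / 8 * T := by
        calc A * (7 * R ^ 2 * q * t) ≤ A * (7 * R ^ 2 * q * A * T) := by gcongr
          _ = 7 * R ^ 2 * q * A ^ 2 * T := by ring
          _ ≤ c / 8 * T := by gcongr
      have h6 : A * (7 * R ^ 2 * q * t) < A * (1 - ‖φ b‖ ^ 2) := by
        have : 0 < c * T := by positivity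
        linarith
      have h7 := lt_of_mul_lt_mul_left h6 hA0.le
      have h8 := hS.out _ h2 0 le_rfl (by linarith)
      have h9 : ψ (φ b + x • w) ∈ ball (0 : E) 1 := by
        rw [mem_ball_zero_iff]
        nlinarith [norm_nonneg (ψ (φ b + x • w))]
      exact ball_subset_dom r h9
    · -- points with room
      have h3 : c / 2 * T ≤ r b ^ 2 := by linarith
      have h4 := hS.out _ h2 (7 * R ^ 2 * q * t) hs0 (by linarith)
      have h5 : A * (7 * R ^ 2 * q * t) ≤ c / 8 * T := by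
        calc A * (7 * R ^ 2 * q * t) ≤ A * (7 * R ^ 2 * q * A * T) := by gcongr
          _ = 7 * R ^ 2 * q * A ^ 2 * T := by ring
          _ ≤ c / 8 * T := by gcongr
      have hφbκ : φ b ∈ ball (0 : E) (1 + κ) := by
        have := hyκ 0 (by rw [norm_zero]; exact hR0)
        rwa [zero_smul, add_zero] at this
      have h6 : |r (ψ (φ b + x • w)) - r b| ≤ L * (A * (R * ‖w‖)) := by
        have e1 := hr (ψ (φ b + x • w)) b
        refine e1.trans (mul_le_mul_of_nonneg_left ?_ hL)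
        have e2 := hS.lip _ h2 _ hφbκ
        rw [hS.aut.left b hb, add_sub_cancel_left, norm_smul] at e2
        refine e2.trans (mul_le_mul_of_nonneg_left ?_ hA0.le)
        exact mul_le_mul_of_nonneg_right hx.le (norm_nonneg _)
      have h7 : (r (ψ (φ b + x • w)) - r b) ^ 2 ≤ c / 8 * T := by
        rw [← sq_abs]
        calc |r (ψ (φ b + x • w)) - r b| ^ 2 ≤ (L * (A * (R * ‖w‖))) ^ 2 :=
              pow_le_pow_left₀ (abs_nonneg _) h6 2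
          _ = L ^ 2 * A ^ 2 * R ^ 2 * ‖w‖ ^ 2 := by ring
          _ ≤ L ^ 2 * A ^ 2 * R ^ 2 * (q ^ 2 * (A * T)) := by
              apply mul_le_mul_of_nonneg_left _ (by positivity)
              exact hn2.trans (by gcongr)
          _ = (L ^ 2 * A ^ 3 * R ^ 2 * q) * q * T := by ring
          _ ≤ (L ^ 2 * A ^ 3 * R ^ 2 * q) * 1 * T := by gcongr
          _ ≤ c / 8 * T := by rw [mul_one]; gcongr
      have h8 : c / 8 * T ≤ r (ψ (φ b + x • w)) ^ 2 := by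
        by_contra hcon
        push Not at hcon
        have e1 : r b ^ 2 ≤ 2 * r (ψ (φ b + x • w)) ^ 2 +
            2 * (r (ψ (φ b + x • w)) - r b) ^ 2 := by
          nlinarith [sq_nonneg (2 * r (ψ (φ b + x • w)) - r b)]
        linarith
      show ‖ψ (φ b + x • w)‖ ^ 2 < 1 + r (ψ (φ b + x • w)) ^ 2
      linarith
  -- the function on the disc
  obtain ⟨g, hg⟩ : ∃ g : ℂ → ℂ, g = fun x => F (ψ (φ b + x • w)) := ⟨_, rfl⟩
  have hgd : DifferentiableOn ℂ g (ball 0 R) := by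
    rw [hg]
    refine hF.comp (t := dom r) (hS.hol.comp (t := ball 0 (1 + κ)) ?_ ?_) ?_
    · exact ((differentiable_id.smul_const w).const_add (φ b)).differentiableOn
    · intro x hx
      rw [mem_ball_zero_iff] at hx
      exact hyκ x hx
    · intro x hx
      rw [mem_ball_zero_iff] at hx
      exact hmem x hx
  have hgM : ∀ x ∈ ball (0 : ℂ) R, ‖g x‖ ≤ M := by
    intro x hx
    rw [mem_ball_zero_iff] at hx
    rw [hg]
    exact hFM _ (hmem x hx)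
  have h0R : (0 : ℂ) ∈ ball (0 : ℂ) R := mem_ball_self hR0
  have h1R : (1 : ℂ) ∈ ball (0 : ℂ) R := by
    rw [mem_ball_zero_iff, norm_one]
    linarith
  have h3 := Complex.dist_le_div_mul_dist_of_mapsTo_ball (R₂ := 2 * M) hgd (fun x hx => by
    rw [mem_closedBall, dist_eq_norm]
    exact (norm_sub_le _ _).trans (by linarith [hgM x hx, hgM 0 h0R])) h1R
  have e0 : g 0 = F b := by
    rw [hg]
    simp only [zero_smul, add_zero]
    rw [hS.aut.left b hb]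
  have e1 : g 1 = F z := by
    rw [hg, hw]
    simp only [one_smul]
    rw [add_sub_cancel, hS.aut.left z hz]
  rw [e0, e1, dist_eq_norm, dist_eq_norm, sub_zero, norm_one, mul_one] at h3
  refine h3.trans (le_of_eq ?_)
  rw [hR]
  field_simp

end Pool.Agent.MPca0fc2.SV
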