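import Mathlib
import Pool.Agent.Lib.MP_ca0fc2_an.SVCell

set_option autoImplicit false

open Metric Set Filter Topology
open scoped InnerProductSpace ComplexConjugate

namespace Pool.Agent.MPca0fc2.SV

open Pool.Agent.Lib.MP_ca0fc2_an

variable {E : Type*} [NormedAddCommGroup E] [InnerProductSpace ℂ E]

/-- two points of a cell are near each other -/
theorem near_of_cell {e : E} {φ : E → E} {η : ℝ} (hη0 : 0 ≤ η) (hη : η ≤ 1 / 2) {z₀ b z : E}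
    (hb : b ∈ lineCell e η φ z₀) (hz : z ∈ lineCell e η φ z₀) : near e φ (8 * η) b z := by
  obtain ⟨t, ht⟩ : ∃ t, t = 1 - ‖⟪e, φ z₀⟫_ℂ‖ := ⟨_, rfl⟩
  obtain ⟨hb1, hb2⟩ := hb
  obtain ⟨hz1, hz2⟩ := hz
  rw [← ht] at hb1 hb2 hz1 hz2
  have hηt : 0 < η * t := (norm_nonneg _).trans_lt hb1
  have ht0 : 0 < t := by
    by_contra hcon
    push Not at hcon
    nlinarith
  -- the size of the cell at the other centre
  have h1 : ‖⟪e, φ b⟫_ℂ‖ ≤ ‖⟪e, φ z₀⟫_ℂ‖ + η * t := by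
    have e1 : ⟪e, φ b⟫_ℂ = ⟪e, φ z₀⟫_ℂ + ⟪e, φ b - φ z₀⟫_ℂ := by
      rw [inner_sub_right]; ring
    rw [e1]
    exact (norm_add_le _ _).trans (by linarith)
  have h2 : η * t ≤ η * (2 * (1 - ‖⟪e, φ b⟫_ℂ‖)) := by
    apply mul_le_mul_of_nonneg_left _ hη0
    nlinarith
  have e1 : φ z - φ b = (φ z - φ z₀) - (φ b - φ z₀) := by abel
  constructor
  · have h3 : ‖⟪e, φ z - φ b⟫_ℂ‖ ≤ 2 * (η * t) := by
      rw [e1, inner_sub_right]
      exact (norm_sub_le _ _).trans (by linarith)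
    have h4 : 0 < η * (2 * (1 - ‖⟪e, φ b⟫_ℂ‖)) := hηt.trans_le h2
    linarith
  · have h3 : ‖φ z - φ b‖ ^ 2 ≤ 4 * (η * t) := by
      have h4 : ‖φ z - φ b‖ ≤ ‖φ z - φ z₀‖ + ‖φ b - φ z₀‖ := by
        rw [e1]; exact norm_sub_le _ _
      have h5 : ‖φ z - φ b‖ ^ 2 ≤ (‖φ z - φ z₀‖ + ‖φ b - φ z₀‖) ^ 2 :=
        pow_le_pow_left₀ (norm_nonneg _) h4 2
      nlinarith [sq_nonneg (‖φ z - φ z₀‖ - ‖φ b - φ z₀‖)]
    linarith

/-- Cutting by a list of lines. -/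
theorem depth_list {N : ℕ} {f : Fin N → E → ℂ} {C η : ℝ} (hη0 : 0 ≤ η) (hη1 : η ≤ 1 / 2)
    (e : E → E) (φ ψ : E → E → E) : ∀ (ps : List E), (∀ p ∈ ps, ‖e p‖ = 1 ∧ IsBallAut (φ p) (ψ p)) →
    ∀ D : Set E, (∀ D' ⊆ D, (∀ p ∈ ps, ∀ b ∈ D', ∀ z ∈ D', near (e p) (φ p) (8 * η) b z) →
      SolvableOn f D' C) → SolvableAtDepth f C η ps.length D := by
  intro ps
  induction ps with
  | nil =>
    intro _ D h
    exact h D subset_rfl (fun p hp => absurd hp List.not_mem_nil)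
  | cons p ps ih =>
    intro hp D h
    rw [List.length_cons]
    refine ⟨e p, φ p, ψ p, (hp p List.mem_cons_self).1, (hp p List.mem_cons_self).2, ?_⟩
    intro z₀ _
    refine ih (fun p' hp' => hp p' (List.mem_cons_of_mem _ hp')) _ ?_
    intro D' hD' hnear
    refine h D' (hD'.trans inter_subset_left) ?_
    intro p' hp' b hb z hz
    rcases List.mem_cons.1 hp' with h1 | h1
    · rw [h1]
      exact near_of_cell hη0 hη1 (hD' hb).2 (hD' hz).2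
    · exact hnear p' h1 b hb z hz

end Pool.Agent.MPca0fc2.SV
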