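import Mathlib
import Pool.Agent.Lib.MP_ca0fc2_an.Defs

set_option autoImplicit false

open Metric Set Filter Topology
open scoped InnerProductSpace ComplexConjugate

namespace Pool.Agent.MPca0fc2.SV

open Pool.Agent.Lib.MP_ca0fc2_an

variable {E : Type*} [NormedAddCommGroup E] [InnerProductSpace ℂ E]

/-- finitely many conditions on a small parameter -/
theorem fin_pos {ι : Type*} [Finite ι] {P : ι → ℝ → Prop}
    (mono : ∀ i κ κ', 0 < κ' → κ' ≤ κ → P i κ → P i κ') (h : ∀ i, ∃ κ, 0 < κ ∧ P i κ) :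
    ∃ κ : ℝ, 0 < κ ∧ κ ≤ 1 ∧ ∀ i, P i κ := by
  classical
  choose κ hκ hP using h
  rcases isEmpty_or_nonempty ι with hι | hι
  · exact ⟨1, one_pos, le_rfl, fun i => isEmptyElim i⟩
  · obtain ⟨i₀, hi₀⟩ := Finite.exists_min κ
    refine ⟨min (κ i₀) 1, lt_min (hκ i₀) one_pos, min_le_right _ _, fun i => ?_⟩
    exact mono i (κ i) _ (lt_min (hκ i₀) one_pos) ((min_le_left _ _).trans (hi₀ i)) (hP i)

/-- the inverse of one datum is a solution -/
theorem solvable_inv {N : ℕ} {F : Fin N → E → ℂ} {D : Set E} {C σ : ℝ} (j : Fin N)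
    (hf : DifferentiableOn ℂ (F j) D) (hσ : 0 < σ) (h : ∀ z ∈ D, σ ≤ ‖F j z‖)
    (hC : 1 / σ ≤ C) : SolvableOn F D C := by
  classical
  have hne : ∀ z ∈ D, F j z ≠ 0 := fun z hz h0 => by
    have := h z hz
    rw [h0, norm_zero] at this
    linarith
  have hC0 : 0 ≤ C := (by positivity : (0 : ℝ) ≤ 1 / σ).trans hC
  refine ⟨fun i => if i = j then fun z => (F j z)⁻¹ else fun _ => 0, ?_, ?_, ?_⟩
  · intro i
    by_cases hij : i = j
    · simp only [hij, if_true]
      exact hf.inv hne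
    · simp only [hij, if_false]
      exact differentiableOn_const _
  · intro i z hz
    by_cases hij : i = j
    · simp only [hij, if_true, norm_inv]
      rw [← one_div]
      exact (one_div_le_one_div_of_le hσ (h z hz)).trans hC
    · simp only [hij, if_false, norm_zero]
      exact hC0
  · intro z hz
    rw [Finset.sum_eq_single j]
    · simp only [if_true]
      exact mul_inv_cancel₀ (hne z hz)
    · intro i _ hij
      simp only [hij, if_false, mul_zero]
    · intro hj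
      exact absurd (Finset.mem_univ j) hj

/-- data which are nearly constant, with one exception -/
theorem solve_cell {N : ℕ} {f : Fin N → E → ℂ} {D : Set E} {δ ε : ℝ} (hδ : 0 < δ) (hε : 0 < ε)
    (hεδ : ε ^ 2 * (12 * (N + 1)) ≤ δ) (hf : ∀ j, DifferentiableOn ℂ (f j) D)
    (hfδ : ∀ z ∈ D, δ ≤ ∑ j, ‖f j z‖ ^ 2) {b : E} {j₀ : Fin N}
    (hosc : ∀ j, j ≠ j₀ → ∀ z ∈ D, ‖f j z - f j b‖ ≤ ε) :
    SolvableOn f D (max (1 / ε) (1 / (Real.sqrt δ / 2))) := by
  classical
  by_cases hcase : ∃ j, j ≠ j₀ ∧ 2 * ε ≤ ‖f j b‖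
  · obtain ⟨j, hj, hjb⟩ := hcase
    refine solvable_inv j (hf j) hε ?_ (le_max_left _ _)
    intro z hz
    have h1 := hosc j hj z hz
    have h2 : ‖f j b‖ ≤ ‖f j z‖ + ‖f j z - f j b‖ := by
      calc ‖f j b‖ = ‖f j z - (f j z - f j b)‖ := by congr 1; ring
        _ ≤ _ := norm_sub_le _ _
    linarith
  · push Not at hcase
    have hs0 : 0 < Real.sqrt δ := Real.sqrt_pos.2 hδ
    refine solvable_inv j₀ (hf j₀) (σ := Real.sqrt δ / 2) (by positivity) ?_ (le_max_right _ _)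
    intro z hz
    have h1 := hfδ z hz
    have h2 : ∀ j, j ≠ j₀ → ‖f j z‖ ^ 2 ≤ 9 * ε ^ 2 := by
      intro j hj
      have h3 := hosc j hj z hz
      have h4 := hcase j hj
      have h5 : ‖f j z‖ ≤ ‖f j z - f j b‖ + ‖f j b‖ := by
        calc ‖f j z‖ = ‖(f j z - f j b) + f j b‖ := by congr 1; ring
          _ ≤ _ := norm_add_le _ _
      have h6 : ‖f j z‖ ≤ 3 * ε := by linarith
      calc ‖f j z‖ ^ 2 ≤ (3 * ε) ^ 2 := pow_le_pow_left₀ (norm_nonneg _) h6 2
        _ = 9 * ε ^ 2 := by ring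
    rw [← Finset.add_sum_erase _ _ (Finset.mem_univ j₀)] at h1
    have h3 : ∑ j ∈ Finset.univ.erase j₀, ‖f j z‖ ^ 2 ≤ N * (9 * ε ^ 2) := by
      calc ∑ j ∈ Finset.univ.erase j₀, ‖f j z‖ ^ 2
          ≤ ∑ _j ∈ Finset.univ.erase j₀, 9 * ε ^ 2 :=
            Finset.sum_le_sum fun j hj => h2 j (Finset.ne_of_mem_erase hj)
        _ = (Finset.univ.erase j₀).card * (9 * ε ^ 2) := by
            rw [Finset.sum_const, nsmul_eq_mul]
        _ ≤ N * (9 * ε ^ 2) := by
            gcongr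
            calc (Finset.univ.erase j₀).card ≤ (Finset.univ : Finset (Fin N)).card :=
                  Finset.card_erase_le
              _ = N := by simp
    have h4 : (N : ℝ) * (9 * ε ^ 2) ≤ 3 / 4 * δ := by
      nlinarith [sq_nonneg ε, (Nat.cast_nonneg N : (0 : ℝ) ≤ N)]
    have h5 : (Real.sqrt δ / 2) ^ 2 ≤ ‖f j₀ z‖ ^ 2 := by
      rw [div_pow, Real.sq_sqrt hδ.le]
      linarith
    exact le_of_sq_le_sq h5 (norm_nonneg _)

/-- the empty set -/
theorem solvable_empty {N : ℕ} {f : Fin N → E → ℂ} {C : ℝ} : SolvableOn f (∅ : Set E) C :=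
  ⟨fun _ _ => 0, fun _ => differentiableOn_empty, fun _ _ hz => absurd hz (notMem_empty _),
    fun _ hz => absurd hz (notMem_empty _)⟩

end Pool.Agent.MPca0fc2.SV
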