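import Mathlib

set_option autoImplicit false

namespace Pool.Agent.Lib.MP_ca0fc2_an

variable {E : Type*} [NormedAddCommGroup E] [NormedSpace ℂ E]

/-- The functions `r` and `r'` are apart: on the unit sphere `r + r'` is bounded below by a
multiple of the distance to the union of finitely many complex lines `{p + t v : t ∈ ℂ}` which meet
the unit ball (`‖p‖ < 1`; a line with `v = 0` is a point). -/
def Apart (r r' : E → ℝ) : Prop :=
  ∃ (c : ℝ) (X : Finset (E × E)), 0 < c ∧ (∀ x ∈ X, ‖x.1‖ < 1) ∧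
    ∀ z : E, ‖z‖ = 1 → ∃ x ∈ X, ∃ t : ℂ, c * ‖z - (x.1 + t • x.2)‖ ≤ r z + r' z

end Pool.Agent.Lib.MP_ca0fc2_an
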