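import Mathlib
import Pool.Agent.Lib.MP_ca0fc2_an.SVAut
import Pool.Agent.Lib.MP_ca0fc2_an.SVBase
import Pool.Agent.Lib.MP_ca0fc2_an.SVDefs

set_option autoImplicit false

open Metric Set Filter Topology
open scoped InnerProductSpace ComplexConjugate

namespace Pool.Agent.MPca0fc2.SV

open Pool.Agent.Lib.MP_ca0fc2_an

variable {E : Type*} [NormedAddCommGroup E] [InnerProductSpace ℂ E]

theorem isClosed_line (a v : E) : IsClosed (Set.range fun t : ℂ => a + t • v) := by
  have h1 : (Set.range fun t : ℂ => a + t • v) =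
      (fun z => z - a) ⁻¹' (Submodule.span ℂ {v} : Set E) := by
    ext z
    simp only [mem_range, mem_preimage, SetLike.mem_coe, Submodule.mem_span_singleton]
    constructor
    · rintro ⟨t, rfl⟩
      exact ⟨t, by abel⟩
    · rintro ⟨t, ht⟩
      exact ⟨t, by rw [ht]; abel⟩
  rw [h1]
  exact (Submodule.closed_of_finiteDimensional _).preimage (continuous_id.sub continuous_const)

/-- the condition near a point of the sphere -/
def ApartAt (l : E) (s : Finset E) (κ : ℝ) (r r' : E → ℝ) : Prop :=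
  ∀ b ∈ ball (0 : E) 1, ‖b - l‖ < κ → ∃ p ∈ s, κ * infDist b (ln l p) ≤
    r b + r' b + (1 / κ) * (1 - ‖b‖)

theorem ApartAt.mono {l : E} {s s' : Finset E} {κ κ' : ℝ} {r r' : E → ℝ} (hκ' : 0 < κ')
    (hκ : κ' ≤ κ) (hs : s ⊆ s') (h : ApartAt l s κ r r') : ApartAt l s' κ' r r' := by
  intro b hb hbl
  obtain ⟨p, hp, h1⟩ := h b hb (hbl.trans_le hκ)
  refine ⟨p, hs hp, ?_⟩
  rw [mem_ball_zero_iff] at hb
  calc κ' * infDist b (ln l p) ≤ κ * infDist b (ln l p) :=
        mul_le_mul_of_nonneg_right hκ infDist_nonneg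
    _ ≤ r b + r' b + (1 / κ) * (1 - ‖b‖) := h1
    _ ≤ r b + r' b + (1 / κ') * (1 - ‖b‖) := by
      have : (1 / κ) * (1 - ‖b‖) ≤ (1 / κ') * (1 - ‖b‖) :=
        mul_le_mul_of_nonneg_right (one_div_le_one_div_of_le hκ' hκ) (by linarith)
      linarith

/-- localization of the condition at a point of the sphere -/
theorem apart_at {r r' : E → ℝ} (h : Apart r r') {L : ℝ} (hL : 0 ≤ L)
    (hr : ∀ z w, |r z - r w| ≤ L * ‖z - w‖) (hr' : ∀ z w, |r' z - r' w| ≤ L * ‖z - w‖)
    {l : E} (hl : ‖l‖ = 1) :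
    ∃ (s : Finset E) (κ : ℝ), 0 < κ ∧ (∀ p ∈ s, ‖p‖ < 1) ∧ ApartAt l s κ r r' := by
  classical
  obtain ⟨c, X, hc, hX, hcond⟩ := h
  obtain ⟨s, hs⟩ : ∃ s : Finset E, s = insert 0 (X.image Prod.fst) := ⟨_, rfl⟩
  -- the distance to the lines that do not pass through `l`
  obtain ⟨d, hd0, hd1, hd⟩ : ∃ d : ℝ, 0 < d ∧ d ≤ 1 ∧ ∀ x : X,
      (l ∉ (Set.range fun t : ℂ => x.1.1 + t • x.1.2)) →
        d ≤ infDist l (Set.range fun t : ℂ => x.1.1 + t • x.1.2) := by
    refine fin_pos (ι := X) (P := fun x d =>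
      (l ∉ (Set.range fun t : ℂ => x.1.1 + t • x.1.2)) →
        d ≤ infDist l (Set.range fun t : ℂ => x.1.1 + t • x.1.2)) ?_ ?_
    · intro x κ κ' _ h1 h2 h3
      exact h1.trans (h2 h3)
    · intro x
      by_cases hx : l ∈ (Set.range fun t : ℂ => x.1.1 + t • x.1.2)
      · exact ⟨1, one_pos, fun h => absurd hx h⟩
      · exact ⟨_, ((isClosed_line x.1.1 x.1.2).notMem_iff_infDist_pos (range_nonempty _)).1 hx,
          fun _ => le_rfl⟩
  obtain ⟨κ, hκ⟩ : ∃ κ, κ = min (min (d / 4) (c * (d / 2))) (min c (1 / (c + 2 * L))) := ⟨_, rfl⟩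
  have hκ0 : 0 < κ := by
    rw [hκ]
    exact lt_min (lt_min (by positivity) (by positivity)) (lt_min hc (by positivity))
  have hκd : κ ≤ d / 4 := by rw [hκ]; exact (min_le_left _ _).trans (min_le_left _ _)
  have hκcd : κ ≤ c * (d / 2) := by rw [hκ]; exact (min_le_left _ _).trans (min_le_right _ _)
  have hκc : κ ≤ c := by rw [hκ]; exact (min_le_right _ _).trans (min_le_left _ _)
  have hκL : κ ≤ 1 / (c + 2 * L) := by rw [hκ]; exact (min_le_right _ _).trans (min_le_right _ _)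
  have hinv : c + 2 * L ≤ 1 / κ := by
    rw [le_div_iff₀ hκ0]
    rw [le_div_iff₀ (by positivity)] at hκL
    linarith
  refine ⟨s, κ, hκ0, ?_, ?_⟩
  · intro p hp
    rw [hs, Finset.mem_insert, Finset.mem_image] at hp
    rcases hp with rfl | ⟨x, hx, rfl⟩
    · rw [norm_zero]; exact one_pos
    · exact hX x hx
  intro b hb hbl
  rw [mem_ball_zero_iff] at hb
  have hb1 : 1 - ‖b‖ ≤ ‖b - l‖ := by
    have := norm_sub_norm_le l b
    rwa [hl, norm_sub_rev] at this
  have hb2 : 1 / 2 ≤ ‖b‖ := by linarith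
  have hb0 : 0 < ‖b‖ := by linarith
  obtain ⟨z, hz⟩ : ∃ z : E, z = ((‖b‖ : ℂ)⁻¹) • b := ⟨_, rfl⟩
  have hz1 : ‖z‖ = 1 := by
    rw [hz, norm_smul, norm_inv, Complex.norm_real, norm_norm, inv_mul_cancel₀ hb0.ne']
  have hbz : ‖b - z‖ = 1 - ‖b‖ := by
    have e1 : b = (‖b‖ : ℂ) • z := by
      rw [hz, smul_smul, mul_inv_cancel₀ (by exact_mod_cast hb0.ne'), one_smul]
    have e2 : b - z = ((‖b‖ - 1 : ℝ) : ℂ) • z := by
      conv_lhs => rw [e1]
      push_cast
      module
    rw [e2, norm_smul, hz1, mul_one, Complex.norm_real, Real.norm_eq_abs, abs_of_nonpos (by linarith)]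
    ring
  obtain ⟨x, hx, t, hxt⟩ := hcond z hz1
  obtain ⟨w, hw⟩ : ∃ w, w = x.1 + t • x.2 := ⟨_, rfl⟩
  rw [← hw] at hxt
  have h1 : r z ≤ r b + L * (1 - ‖b‖) := by
    have := hr z b
    rw [norm_sub_rev, hbz] at this
    linarith [le_abs_self (r z - r b)]
  have h2 : r' z ≤ r' b + L * (1 - ‖b‖) := by
    have := hr' z b
    rw [norm_sub_rev, hbz] at this
    linarith [le_abs_self (r' z - r' b)]
  have hb3 : 0 ≤ 1 - ‖b‖ := by linarith
  by_cases hlx : l ∈ (Set.range fun t : ℂ => x.1 + t • x.2)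
  · -- the line passes through `l`
    obtain ⟨t₀, ht₀⟩ := hlx
    simp only at ht₀
    have ht₀0 : t₀ ≠ 0 := by
      rintro rfl
      rw [zero_smul, add_zero] at ht₀
      have := hX x hx
      rw [ht₀, hl] at this
      exact lt_irrefl _ this
    refine ⟨x.1, ?_, ?_⟩
    · rw [hs]
      exact Finset.mem_insert_of_mem (Finset.mem_image_of_mem _ hx)
    · have hmem : w ∈ ln l x.1 := by
        refine ⟨(t₀ - t) / t₀, ?_⟩
        show l + ((t₀ - t) / t₀) • (x.1 - l) = w
        have e1 : x.1 - l = (-t₀) • x.2 := by rw [← ht₀]; module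
        rw [e1, smul_smul, hw, ← ht₀]
        have e2 : (t₀ - t) / t₀ * -t₀ = t - t₀ := by
          field_simp
          ring
        rw [e2]
        module
      have h3 : infDist b (ln l x.1) ≤ (1 - ‖b‖) + ‖z - w‖ := by
        calc infDist b (ln l x.1) ≤ dist b w := infDist_le_dist_of_mem hmem
          _ ≤ dist b z + dist z w := dist_triangle _ _ _
          _ = _ := by rw [dist_eq_norm, dist_eq_norm, hbz]
      calc κ * infDist b (ln l x.1) ≤ c * infDist b (ln l x.1) :=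
            mul_le_mul_of_nonneg_right hκc infDist_nonneg
        _ ≤ c * ((1 - ‖b‖) + ‖z - w‖) := mul_le_mul_of_nonneg_left h3 hc.le
        _ ≤ r b + r' b + (c + 2 * L) * (1 - ‖b‖) := by linarith
        _ ≤ r b + r' b + 1 / κ * (1 - ‖b‖) := by
          have := mul_le_mul_of_nonneg_right hinv hb3
          linarith
  · -- the line does not pass through `l`
    refine ⟨0, by rw [hs]; exact Finset.mem_insert_self _ _, ?_⟩
    have h3 : d ≤ ‖l - w‖ := by
      have h4 := hd ⟨x, hx⟩ hlx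
      refine h4.trans ?_
      rw [← dist_eq_norm]
      exact infDist_le_dist_of_mem ⟨t, hw.symm⟩
    have h4 : d / 2 ≤ ‖z - w‖ := by
      have h5 : ‖l - w‖ ≤ ‖l - b‖ + ‖b - z‖ + ‖z - w‖ := by
        have e1 : l - w = (l - b) + (b - z) + (z - w) := by abel
        rw [e1]
        exact (norm_add_le _ _).trans (add_le_add (norm_add_le _ _) le_rfl)
      rw [hbz, norm_sub_rev l b] at h5
      linarith
    have h5 : infDist b (ln l 0) ≤ 1 := by
      have : l ∈ ln l 0 := ⟨0, by simp⟩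
      refine (infDist_le_dist_of_mem this).trans ?_
      rw [dist_eq_norm]
      linarith
    calc κ * infDist b (ln l 0) ≤ κ * 1 := mul_le_mul_of_nonneg_left h5 hκ0.le
      _ ≤ c * (d / 2) := by rw [mul_one]; exact hκcd
      _ ≤ c * ‖z - w‖ := mul_le_mul_of_nonneg_left h4 hc.le
      _ ≤ r z + r' z := hxt
      _ ≤ r b + r' b + (2 * L) * (1 - ‖b‖) := by linarith
      _ ≤ r b + r' b + 1 / κ * (1 - ‖b‖) := by
        have := mul_le_mul_of_nonneg_right (show 2 * L ≤ 1 / κ by linarith) hb3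
        linarith

end Pool.Agent.MPca0fc2.SV
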