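import Mathlib
import Pool.Agent.Lib.MP_ca0fc2_an.SVPair
import Pool.Agent.Lib.MP_ca0fc2_an.SVDepth
import Pool.Agent.Lib.MP_ca0fc2_an.Depth

set_option autoImplicit false

open Metric Set Filter Topology
open scoped InnerProductSpace ComplexConjugate

namespace Pool.Agent.MPca0fc2.SV

open Pool.Agent.Lib.MP_ca0fc2_an

variable {E : Type*} [NormedAddCommGroup E] [InnerProductSpace ℂ E]

/-- at most one of two data has little room at a point -/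
theorem room_pair {κ c₀ A B u d : ℝ} (hκ0 : 0 < κ) (hκ1 : κ ≤ 1) (hc₀ : c₀ = κ ^ 4 / 32)
    (hu0 : 0 ≤ u) (hd0 : 0 ≤ d) (hT : u + d ^ 2 ≤ 2)
    (hapart : κ * d ≤ A + B + (1 / κ) * u) (hTpos : 0 < u + d ^ 2)
    (h1 : A ^ 2 + u < c₀ * (u + d ^ 2)) (h2 : B ^ 2 + u < c₀ * (u + d ^ 2)) : False := by
  obtain ⟨T, hTe⟩ : ∃ T, T = u + d ^ 2 := ⟨_, rfl⟩
  rw [← hTe] at hT hTpos h1 h2
  have hκ4 : κ ^ 4 ≤ 1 := pow_le_one₀ hκ0.le hκ1
  have hc₀0 : 0 < c₀ := by rw [hc₀]; positivity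
  have hc₀1 : c₀ ≤ 1 / 32 := by rw [hc₀]; linarith
  have hu : u < c₀ * T := by nlinarith [sq_nonneg A]
  have hd2 : T / 2 < d ^ 2 := by nlinarith
  have hAc : A ^ 2 < c₀ * T := by linarith
  have hBc : B ^ 2 < c₀ * T := by linarith
  have h3 : (κ * d) ^ 2 ≤ (A + B + (1 / κ) * u) ^ 2 :=
    pow_le_pow_left₀ (by positivity) hapart 2
  have h4 : (A + B + (1 / κ) * u) ^ 2 ≤ 4 * A ^ 2 + 4 * B ^ 2 + 2 * ((1 / κ) * u) ^ 2 := by
    nlinarith [sq_nonneg (A - B), sq_nonneg (A + B - (1 / κ) * u)]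
  have h5 : ((1 / κ) * u) ^ 2 ≤ κ ^ 2 / 16 * (c₀ * T) := by
    have e1 : (1 / κ) * u ≤ (1 / κ) * (c₀ * T) := by gcongr
    have e2 : ((1 / κ) * u) ^ 2 ≤ ((1 / κ) * (c₀ * T)) ^ 2 := pow_le_pow_left₀ (by positivity) e1 2
    refine e2.trans ?_
    have e3 : ((1 / κ) * (c₀ * T)) ^ 2 = κ ^ 2 / 32 * T * (c₀ * T) := by
      rw [hc₀]
      field_simp
    rw [e3]
    apply mul_le_mul_of_nonneg_right _ (by positivity)
    nlinarith [sq_nonneg κ]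
  have h6 : κ ^ 2 * (T / 2) < (κ * d) ^ 2 := by
    rw [mul_pow]
    exact mul_lt_mul_of_pos_left hd2 (by positivity)
  have h7 : κ ^ 2 * (T / 2) < 8 * (c₀ * T) + κ ^ 2 / 8 * (c₀ * T) := by linarith
  have h8 : 8 * (c₀ * T) = κ ^ 2 * κ ^ 2 / 4 * T := by rw [hc₀]; ring
  have h9 : κ ^ 2 ≤ 1 := pow_le_one₀ hκ0.le hκ1
  have h10 : κ ^ 2 * κ ^ 2 / 4 * T ≤ κ ^ 2 / 4 * T := by
    have : κ ^ 2 * κ ^ 2 ≤ κ ^ 2 * 1 := mul_le_mul_of_nonneg_left h9 (sq_nonneg κ)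
    have : κ ^ 2 * κ ^ 2 / 4 ≤ κ ^ 2 / 4 := by linarith
    exact mul_le_mul_of_nonneg_right this hTpos.le
  have h11 : κ ^ 2 / 8 * (c₀ * T) ≤ κ ^ 2 / 8 * (1 * T) := by
    apply mul_le_mul_of_nonneg_left _ (by positivity)
    apply mul_le_mul_of_nonneg_right (by linarith) hTpos.le
  have h12 : 0 < κ ^ 2 * T := by positivity
  nlinarith

/-- The data can be solved on the pieces which are left after cutting by the lines through a
boundary point. -/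
theorem at_point {l : E} (hl : ‖l‖ = 1) {N : ℕ} {δ ε : ℝ} (hδ : 0 < δ) (hε : 0 < ε)
    (hεδ : ε ^ 2 * (12 * (N + 1)) ≤ δ) (M : ℝ) {L : ℝ} (hL : 0 ≤ L) (r : Fin N → E → ℝ)
    (hrL : ∀ j z w, |r j z - r j w| ≤ L * ‖z - w‖)
    (hap : ∀ i j, i ≠ j → Apart (r i) (r j)) :
    ∃ (k : ℕ) (η ρ : ℝ), 0 < η ∧ 0 < ρ ∧ ∀ f F : Fin N → E → ℂ,
      (∀ j, DifferentiableOn ℂ (f j) (ball 0 1)) →
      (∀ j, DifferentiableOn ℂ (F j) (dom (r j))) →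
      (∀ j, ∀ z ∈ dom (r j), ‖F j z‖ ≤ M) →
      (∀ j, ∀ z ∈ ball (0 : E) 1, ‖f j z - F j z‖ ≤ ε / 4) →
      (∀ z ∈ ball (0 : E) 1, δ ≤ ∑ j, ‖f j z‖ ^ 2) →
      SolvableAtDepth f (max (1 / ε) (1 / (Real.sqrt δ / 2))) η k (ball 0 1 ∩ ball l ρ) := by
  classical
  -- the separation constant and the lines
  have hloc : ∀ x : Fin N × Fin N, ∃ (s : Finset E) (κ : ℝ), 0 < κ ∧ (∀ p ∈ s, ‖p‖ < 1) ∧
      (x.1 ≠ x.2 → ApartAt l s κ (r x.1) (r x.2)) := by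
    intro x
    by_cases hx : x.1 ≠ x.2
    · obtain ⟨s, κ, h1, h2, h3⟩ := apart_at (hap x.1 x.2 hx) hL (hrL x.1) (hrL x.2) hl
      exact ⟨s, κ, h1, h2, fun _ => h3⟩
    · exact ⟨∅, 1, one_pos, fun p hp => absurd hp (Finset.notMem_empty p), fun h => absurd h hx⟩
  choose s' κ' hκ' hs' hat' using hloc
  obtain ⟨s, hs⟩ : ∃ s : Finset E, s = insert 0 (Finset.univ.biUnion s') := ⟨_, rfl⟩
  have hs1 : ∀ p ∈ s, ‖p‖ < 1 := by
    intro p hp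
    rw [hs, Finset.mem_insert, Finset.mem_biUnion] at hp
    rcases hp with rfl | ⟨x, _, hx⟩
    · rw [norm_zero]; exact one_pos
    · exact hs' x p hx
  have hsub : ∀ x, s' x ⊆ s := by
    intro x p hp
    rw [hs]
    exact Finset.mem_insert_of_mem (Finset.mem_biUnion.2 ⟨x, Finset.mem_univ _, hp⟩)
  obtain ⟨κ, hκ0, hκ1, hκ⟩ : ∃ κ : ℝ, 0 < κ ∧ κ ≤ 1 ∧ ∀ x : Fin N × Fin N,
      x.1 ≠ x.2 → ApartAt l s κ (r x.1) (r x.2) := by
    refine fin_pos (ι := Fin N × Fin N) (P := fun x κ =>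
      x.1 ≠ x.2 → ApartAt l s κ (r x.1) (r x.2)) ?_ ?_
    · intro x κ κ' hκ' h1 h2 h3
      exact (h2 h3).mono hκ' h1 (Finset.Subset.refl s)
    · intro x
      exact ⟨κ' x, hκ' x, fun h => (hat' x h).mono (hκ' x) le_rfl (hsub x)⟩
  -- the automorphisms
  have haut : ∀ p : E, ∃ (e : E) (φ ψ : E → E) (A κ : ℝ), ‖p‖ < 1 → LineAut l p e φ ψ A κ := by
    intro p
    by_cases hp : ‖p‖ < 1
    · obtain ⟨e, φ, ψ, A, κ, h⟩ := exists_lineAut hl hp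
      exact ⟨e, φ, ψ, A, κ, fun _ => h⟩
    · exact ⟨0, id, id, 0, 0, fun h => absurd h hp⟩
  choose e φ ψ A κA haut using haut
  -- the size of the cells
  obtain ⟨c₀, hc₀⟩ : ∃ c₀, c₀ = κ ^ 4 / 32 := ⟨_, rfl⟩
  have hc₀0 : 0 < c₀ := by rw [hc₀]; positivity
  obtain ⟨M', hM'⟩ : ∃ M', M' = max M 1 := ⟨_, rfl⟩
  have hM1 : 1 ≤ M' := by rw [hM']; exact le_max_right _ _
  have hMM : M ≤ M' := by rw [hM']; exact le_max_left _ _
  obtain ⟨θ, hθ⟩ : ∃ θ, θ = min 1 (ε / (2 * M')) := ⟨_, rfl⟩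
  have hθ0 : 0 < θ := by rw [hθ]; exact lt_min one_pos (by positivity)
  have hθ1 : θ ≤ 1 := by rw [hθ]; exact min_le_left _ _
  have hθε : M' * θ ≤ ε / 2 := by
    have : θ ≤ ε / (2 * M') := by rw [hθ]; exact min_le_right _ _
    calc M' * θ ≤ M' * (ε / (2 * M')) := by gcongr
      _ = ε / 2 := by field_simp
  obtain ⟨μ, hμ0, hμ1, hμ⟩ := fin_pos (ι := s) (P := fun p μ => ∀ μ' : ℝ, 0 ≤ μ' → μ' ≤ μ →
      ∀ (r : E → ℝ) (F : E → ℂ) (M : ℝ),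
      (∀ z w, |r z - r w| ≤ L * ‖z - w‖) → DifferentiableOn ℂ F (dom r) →
      (∀ z ∈ dom r, ‖F z‖ ≤ M) → ∀ b ∈ ball (0 : E) 1, ∀ z ∈ ball (0 : E) 1,
      near (e p.1) (φ p.1) μ' b z →
      c₀ * ((1 - ‖b‖ ^ 2) + infDist b (ln l p.1) ^ 2) ≤ r b ^ 2 + (1 - ‖b‖ ^ 2) →
      ‖F z - F b‖ ≤ M * θ) (by
    intro p κ κ' _ h1 h2 μ' h3 h4
    exact h2 μ' h3 (h4.trans h1)) (by
    intro p
    obtain ⟨μ, h1, _, h3⟩ := cell_osc (haut p.1 (hs1 p.1 p.2)) hL hc₀0 hθ0 hθ1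
    exact ⟨μ, h1, h3⟩)
  refine ⟨s.toList.length, μ / 8, κ, by positivity, hκ0, ?_⟩
  intro f F hf hF hFM hfF hfδ
  refine depth_list (by positivity) (by linarith) e φ ψ s.toList ?_ _ ?_
  · intro p hp
    have h1 := haut p (hs1 p (Finset.mem_toList.1 hp))
    exact ⟨h1.he, h1.aut⟩
  intro D hD hnear
  rcases D.eq_empty_or_nonempty with h0 | ⟨b, hb⟩
  · rw [h0]; exact solvable_empty
  obtain ⟨hb1, hbl⟩ := hD hb
  rw [mem_ball, dist_eq_norm] at hbl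
  have hDb : ∀ z ∈ D, z ∈ ball (0 : E) 1 := fun z hz => (hD hz).1
  -- there are data
  have hN : Nonempty (Fin N) := by
    by_contra hcon
    rw [not_nonempty_iff] at hcon
    have := hfδ b hb1
    rw [Finset.univ_eq_empty, Finset.sum_empty] at this
    linarith
  -- the nearest line
  obtain ⟨p, hp, hmin⟩ := s.exists_min_image (fun p => infDist b (ln l p))
    ⟨0, by rw [hs]; exact Finset.mem_insert_self _ _⟩
  have hb1' := hb1
  rw [mem_ball_zero_iff] at hb1'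
  have hu0 : 0 < 1 - ‖b‖ ^ 2 := by nlinarith [norm_nonneg b]
  have hd0 : 0 ≤ infDist b (ln l p) := infDist_nonneg
  have hd1 : infDist b (ln l p) ≤ 1 := by
    have : l ∈ ln l p := ⟨0, by simp⟩
    refine (infDist_le_dist_of_mem this).trans ?_
    rw [dist_eq_norm]
    linarith
  -- all the data but at most one have room
  obtain ⟨j₀, hj₀⟩ : ∃ j₀ : Fin N, ∀ j, j ≠ j₀ →
      c₀ * ((1 - ‖b‖ ^ 2) + infDist b (ln l p) ^ 2) ≤ r j b ^ 2 + (1 - ‖b‖ ^ 2) := by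
    by_cases hw : ∃ i, r i b ^ 2 + (1 - ‖b‖ ^ 2) <
        c₀ * ((1 - ‖b‖ ^ 2) + infDist b (ln l p) ^ 2)
    · obtain ⟨i, hi⟩ := hw
      refine ⟨i, fun j hj => ?_⟩
      by_contra hcon
      push Not at hcon
      obtain ⟨p', hp', h1⟩ := hκ (i, j) (Ne.symm hj) b hb1 hbl
      refine room_pair hκ0 hκ1 hc₀ hu0.le hd0 ?_ ?_ (by positivity) hi hcon
      · nlinarith [sq_nonneg ‖b‖]
      · calc κ * infDist b (ln l p) ≤ κ * infDist b (ln l p') :=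
              mul_le_mul_of_nonneg_left (hmin p' hp') hκ0.le
          _ ≤ r i b + r j b + (1 / κ) * (1 - ‖b‖) := h1
          _ ≤ r i b + r j b + (1 / κ) * (1 - ‖b‖ ^ 2) := by
            have : 1 - ‖b‖ ≤ 1 - ‖b‖ ^ 2 := by nlinarith [norm_nonneg b]
            have := mul_le_mul_of_nonneg_left this (show 0 ≤ 1 / κ by positivity)
            linarith
    · push Not at hw
      obtain ⟨i⟩ := hN
      exact ⟨i, fun j _ => hw j⟩
  refine solve_cell hδ hε hεδ (fun j => (hf j).mono fun z hz => hDb z hz)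
    (fun z hz => hfδ z (hDb z hz)) (b := b) (j₀ := j₀) ?_
  intro j hj z hz
  have hz1 := hDb z hz
  have h1 := hμ ⟨p, hp⟩ (8 * (μ / 8)) (by positivity) (by linarith) (r j) (F j) M' (hrL j) (hF j)
    (fun z hz => (hFM j z hz).trans hMM) b hb1 z hz1
    (hnear p (Finset.mem_toList.2 hp) b hb z hz) (hj₀ j hj)
  have h2 := hfF j z hz1
  have h3 := hfF j b hb1
  have h4 : ‖f j z - f j b‖ ≤ ‖f j z - F j z‖ + ‖F j z - F j b‖ + ‖f j b - F j b‖ := by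
    have e1 : f j z - f j b = (f j z - F j z) + (F j z - F j b) - (f j b - F j b) := by ring
    rw [e1]
    exact (norm_sub_le _ _).trans (add_le_add (norm_add_le _ _) le_rfl)
  linarith

/-- The corona theorem, with bounds, for data which are close to arbitrary bounded functions on
larger domains, if these domains touch the sphere pairwise at finitely many chains. -/
theorem sv_main (hDC : DiscCorona) [FiniteDimensional ℂ E] (N : ℕ) (δ : ℝ) (hδ : 0 < δ) :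
    ∃ η : ℝ, 0 < η ∧ ∀ (M L : ℝ) (r : Fin N → E → ℝ), (∀ j z w, |r j z - r j w| ≤ L * ‖z - w‖) → (∀ i j, i ≠ j → Apart (r i) (r j)) →
      ∃ C : ℝ, ∀ f F : Fin N → E → ℂ,
        (∀ j, DifferentiableOn ℂ (f j) (ball 0 1)) →
        (∀ j, DifferentiableOn ℂ (F j) (dom (r j))) →
        (∀ j, ∀ z ∈ ball (0 : E) 1, ‖f j z‖ ≤ M) →
        (∀ j, ∀ z ∈ dom (r j), ‖F j z‖ ≤ M) →
        (∀ j, ∀ z ∈ ball (0 : E) 1, ‖f j z - F j z‖ ≤ η) →
        (∀ z ∈ ball (0 : E) 1, δ ≤ ∑ j, ‖f j z‖ ^ 2) →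
        SolvableOn f (ball 0 1) C := by
  classical
  obtain ⟨ε, hε⟩ : ∃ ε, ε = Real.sqrt (δ / (12 * (N + 1))) := ⟨_, rfl⟩
  have hε0 : 0 < ε := by rw [hε]; exact Real.sqrt_pos.2 (by positivity)
  have hεδ : ε ^ 2 * (12 * (N + 1)) = δ := by
    rw [hε, Real.sq_sqrt (by positivity)]
    field_simp
  refine ⟨ε / 4, by positivity, fun M L r hrL hap => ?_⟩
  have hrL' : ∀ j z w, |r j z - r j w| ≤ max L 0 * ‖z - w‖ := fun j z w =>
    (hrL j z w).trans (mul_le_mul_of_nonneg_right (le_max_left _ _) (norm_nonneg _))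
  have key : ∀ l : E, ∃ (k : ℕ) (η ρ : ℝ), 0 < η ∧ 0 < ρ ∧ (‖l‖ = 1 → ∀ f F : Fin N → E → ℂ,
      (∀ j, DifferentiableOn ℂ (f j) (ball 0 1)) →
      (∀ j, DifferentiableOn ℂ (F j) (dom (r j))) →
      (∀ j, ∀ z ∈ dom (r j), ‖F j z‖ ≤ M) →
      (∀ j, ∀ z ∈ ball (0 : E) 1, ‖f j z - F j z‖ ≤ ε / 4) →
      (∀ z ∈ ball (0 : E) 1, δ ≤ ∑ j, ‖f j z‖ ^ 2) →
      SolvableAtDepth f (max (1 / ε) (1 / (Real.sqrt δ / 2))) η k (ball 0 1 ∩ ball l ρ)) := by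
    intro l
    by_cases hl : ‖l‖ = 1
    · obtain ⟨k, η, ρ, h1, h2, h3⟩ := at_point hl hδ hε0 hεδ.le M (le_max_right L 0) r hrL' hap
      exact ⟨k, η, ρ, h1, h2, fun _ => h3⟩
    · exact ⟨0, 1, 1, one_pos, one_pos, fun h => absurd h hl⟩
  choose k η ρ hη hρ hkey using key
  obtain ⟨C', hC'⟩ := finite_depth (E := E) hDC N M δ hδ k η ρ
    (fun _ => max (1 / ε) (1 / (Real.sqrt δ / 2))) hη hρ
  refine ⟨C', fun f F hf hF hfM hFM hfF hfδ => hC' f hf hfM hfδ ?_⟩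
  intro l hl
  rw [mem_sphere_zero_iff_norm] at hl
  exact hkey l hl f F hf hF hFM hfF hfδ

end Pool.Agent.MPca0fc2.SV
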