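import Mathlib
import Pool.Agent.Lib.MP_ca0fc2_an.SVMain

/-! After cutting by finitely many lines through a boundary point, all the functions `F i` but one
vary little. -/

set_option autoImplicit false

open Metric Set Filter Topology
open scoped InnerProductSpace ComplexConjugate

namespace Pool.Agent.MPca0fc2.MG

open Pool.Agent.Lib.MP_ca0fc2_an
open Pool.Agent.MPca0fc2.SV

variable {E : Type*} [NormedAddCommGroup E] [InnerProductSpace ℂ E]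

theorem room_lines {l : E} (hl : ‖l‖ = 1) {N : ℕ} {ε : ℝ} (hε : 0 < ε)
    (M : ℝ) {L : ℝ} (hL : 0 ≤ L) (r : Fin N → E → ℝ)
    (hrL : ∀ j z w, |r j z - r j w| ≤ L * ‖z - w‖)
    (hap : ∀ i j, i ≠ j → Apart (r i) (r j)) :
    ∃ (m : ℕ) (e : Fin m → E) (φ ψ : Fin m → E → E) (μ ρ : ℝ), 0 < μ ∧ 0 < ρ ∧
      (∀ k, ‖e k‖ = 1 ∧ IsBallAut (φ k) (ψ k)) ∧ ∀ F : Fin N → E → ℂ,
      (∀ j, DifferentiableOn ℂ (F j) (dom (r j))) →
      (∀ j, ∀ z ∈ dom (r j), ‖F j z‖ ≤ M) →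
      ∀ D ⊆ ball (0 : E) 1 ∩ ball l ρ,
        (∀ k, ∀ b ∈ D, ∀ z ∈ D, near (e k) (φ k) μ b z) →
      ∀ b ∈ D, ∀ i j, i ≠ j → (∀ z ∈ D, ‖F i z - F i b‖ ≤ ε) ∨ ∀ z ∈ D, ‖F j z - F j b‖ ≤ ε := by
  classical
  -- the separation constant and the lines
  have hloc : ∀ x : Fin N × Fin N, ∃ (s : Finset E) (κ : ℝ), 0 < κ ∧ (∀ p ∈ s, ‖p‖ < 1) ∧
      (x.1 ≠ x.2 → ApartAt l s κ (r x.1) (r x.2)) := by
    intro x
    by_cases hx : x.1 ≠ x.2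
    · obtain ⟨s, κ, h1, h2, h3⟩ := apart_at (hap x.1 x.2 hx) hL (hrL x.1) (hrL x.2) hl
      exact ⟨s, κ, h1, h2, fun _ => h3⟩
    · exact ⟨∅, 1, one_pos, fun p hp => absurd hp (Finset.notMem_empty p), fun h => absurd h hx⟩
  choose s' κ' hκ' hs' hat' using hloc
  obtain ⟨s, hs⟩ : ∃ s : Finset E, s = insert 0 (Finset.univ.biUnion s') := ⟨_, rfl⟩
  have hs1 : ∀ p ∈ s, ‖p‖ < 1 := by
    intro p hp
    rw [hs, Finset.mem_insert, Finset.mem_biUnion] at hp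
    rcases hp with rfl | ⟨x, _, hx⟩
    · rw [norm_zero]; exact one_pos
    · exact hs' x p hx
  have hsub : ∀ x, s' x ⊆ s := by
    intro x p hp
    rw [hs]
    exact Finset.mem_insert_of_mem (Finset.mem_biUnion.2 ⟨x, Finset.mem_univ _, hp⟩)
  obtain ⟨κ, hκ0, hκ1, hκ⟩ : ∃ κ : ℝ, 0 < κ ∧ κ ≤ 1 ∧ ∀ x : Fin N × Fin N,
      x.1 ≠ x.2 → ApartAt l s κ (r x.1) (r x.2) := by
    refine fin_pos (ι := Fin N × Fin N) (P := fun x κ =>
      x.1 ≠ x.2 → ApartAt l s κ (r x.1) (r x.2)) ?_ ?_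
    · intro x κ κ' hκ' h1 h2 h3
      exact (h2 h3).mono hκ' h1 (Finset.Subset.refl s)
    · intro x
      exact ⟨κ' x, hκ' x, fun h => (hat' x h).mono (hκ' x) le_rfl (hsub x)⟩
  -- the automorphisms
  have haut : ∀ p : s, ∃ (e : E) (φ ψ : E → E) (A κ : ℝ), LineAut l p.1 e φ ψ A κ :=
    fun p => exists_lineAut hl (hs1 p.1 p.2)
  choose e φ ψ A κA haut using haut
  -- the size of the cells
  obtain ⟨c₀, hc₀⟩ : ∃ c₀, c₀ = κ ^ 4 / 32 := ⟨_, rfl⟩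
  have hc₀0 : 0 < c₀ := by rw [hc₀]; positivity
  obtain ⟨M', hM'⟩ : ∃ M', M' = max M 1 := ⟨_, rfl⟩
  have hM1 : 1 ≤ M' := by rw [hM']; exact le_max_right _ _
  have hMM : M ≤ M' := by rw [hM']; exact le_max_left _ _
  obtain ⟨θ, hθ⟩ : ∃ θ, θ = min 1 (ε / M') := ⟨_, rfl⟩
  have hθ0 : 0 < θ := by rw [hθ]; exact lt_min one_pos (by positivity)
  have hθ1 : θ ≤ 1 := by rw [hθ]; exact min_le_left _ _
  have hθε : M' * θ ≤ ε := by
    have : θ ≤ ε / M' := by rw [hθ]; exact min_le_right _ _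
    calc M' * θ ≤ M' * (ε / M') := by gcongr
      _ = ε := by field_simp
  obtain ⟨μ, hμ0, hμ1, hμ⟩ := fin_pos (ι := s) (P := fun p μ => ∀ μ' : ℝ, 0 ≤ μ' → μ' ≤ μ →
      ∀ (r : E → ℝ) (F : E → ℂ) (M : ℝ),
      (∀ z w, |r z - r w| ≤ L * ‖z - w‖) → DifferentiableOn ℂ F (dom r) →
      (∀ z ∈ dom r, ‖F z‖ ≤ M) → ∀ b ∈ ball (0 : E) 1, ∀ z ∈ ball (0 : E) 1,
      near (e p) (φ p) μ' b z →
      c₀ * ((1 - ‖b‖ ^ 2) + infDist b (ln l p.1) ^ 2) ≤ r b ^ 2 + (1 - ‖b‖ ^ 2) →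
      ‖F z - F b‖ ≤ M * θ) (by
    intro p κ κ' _ h1 h2 μ' h3 h4
    exact h2 μ' h3 (h4.trans h1)) (by
    intro p
    obtain ⟨μ, h1, _, h3⟩ := cell_osc (haut p) hL hc₀0 hθ0 hθ1
    exact ⟨μ, h1, h3⟩)
  refine ⟨s.card, fun k => e (s.equivFin.symm k), fun k => φ (s.equivFin.symm k),
    fun k => ψ (s.equivFin.symm k), μ, κ, hμ0, hκ0,
    fun k => ⟨(haut _).he, (haut _).aut⟩, ?_⟩
  intro F hF hFM D hD hnear b hb
  obtain ⟨hb1, hbl⟩ := hD hb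
  rw [mem_ball, dist_eq_norm] at hbl
  have hDb : ∀ z ∈ D, z ∈ ball (0 : E) 1 := fun z hz => (hD hz).1
  -- the nearest line
  obtain ⟨p, hp, hmin⟩ := s.exists_min_image (fun p => infDist b (ln l p))
    ⟨0, by rw [hs]; exact Finset.mem_insert_self _ _⟩
  have hb1' := hb1
  rw [mem_ball_zero_iff] at hb1'
  have hu0 : 0 < 1 - ‖b‖ ^ 2 := by nlinarith [norm_nonneg b]
  have hd0 : 0 ≤ infDist b (ln l p) := infDist_nonneg
  have hd1 : infDist b (ln l p) ≤ 1 := by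
    have : l ∈ ln l p := ⟨0, by simp⟩
    refine (infDist_le_dist_of_mem this).trans ?_
    rw [dist_eq_norm]
    linarith
  -- a function with room varies little
  have hroom : ∀ j, c₀ * ((1 - ‖b‖ ^ 2) + infDist b (ln l p) ^ 2) ≤ r j b ^ 2 + (1 - ‖b‖ ^ 2) →
      ∀ z ∈ D, ‖F j z - F j b‖ ≤ ε := by
    intro j hj z hz
    have hn := hnear (s.equivFin ⟨p, hp⟩) b hb z hz
    simp only [Equiv.symm_apply_apply] at hn
    exact (hμ ⟨p, hp⟩ μ hμ0.le le_rfl (r j) (F j) M' (hrL j) (hF j)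
      (fun z hz => (hFM j z hz).trans hMM) b hb1 z (hDb z hz) hn hj).trans hθε
  intro i j hij
  by_cases hi : c₀ * ((1 - ‖b‖ ^ 2) + infDist b (ln l p) ^ 2) ≤ r i b ^ 2 + (1 - ‖b‖ ^ 2)
  · exact Or.inl (hroom i hi)
  right
  refine hroom j ?_
  by_contra hcon
  push Not at hi hcon
  obtain ⟨p', hp', h1⟩ := hκ (i, j) hij b hb1 hbl
  refine room_pair hκ0 hκ1 hc₀ hu0.le hd0 ?_ ?_ (by positivity) hi hcon
  · nlinarith [sq_nonneg ‖b‖]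
  · calc κ * infDist b (ln l p) ≤ κ * infDist b (ln l p') :=
        mul_le_mul_of_nonneg_left (hmin p' hp') hκ0.le
      _ ≤ r i b + r j b + (1 / κ) * (1 - ‖b‖) := h1
      _ ≤ r i b + r j b + (1 / κ) * (1 - ‖b‖ ^ 2) := by
        have : 1 - ‖b‖ ≤ 1 - ‖b‖ ^ 2 := by nlinarith [norm_nonneg b]
        have := mul_le_mul_of_nonneg_left this (show 0 ≤ 1 / κ by positivity)
        linarith

end Pool.Agent.MPca0fc2.MG
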