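import Mathlib
import Pool.Agent.Lib.MP_ca0fc2_an.MGLines
import Pool.Agent.Lib.MP_ca0fc2_an.MGRoom
import Pool.Agent.Lib.MP_ca0fc2_an.UGMain

/-! Localization near the boundary points, over the values of generators, and by lines. -/

set_option autoImplicit false

open Metric Set MeasureTheory Filter Topology
open scoped InnerProductSpace

namespace Pool.Agent.MPca0fc2.MG

open Pool.Agent.Lib.MP_ca0fc2_an
open Pool.Agent.MPca0fc2.UG
open Pool.Agent.MPca0fc2.CP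
open Pool.Agent.MPca0fc2.SV (near near_of_cell)
open Pool.Agent.MPca0fc2.LT (chi mem_cell_of_chi)

variable {n : ℕ}

/-- Localization near the boundary points, over the values of finitely many generators, and by
finitely many lines at each boundary point, with bounds. -/
theorem loc_lines (hn : 2 ≤ n) (N d : ℕ) (M δ : ℝ) (hδ : 0 < δ) {K p ρ₀ C₀ : ℝ} (ω : ℝ → ℝ)
    (hp : 1 ≤ p) (hω : Rate ω) (hρ₀ : 0 < ρ₀)
    (m : EuclideanSpace ℂ (Fin n) → ℕ) (ρ μ : EuclideanSpace ℂ (Fin n) → ℝ)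
    (hρ : ∀ l, 0 < ρ l) (hμ : ∀ l, 0 < μ l)
    (e : ∀ l : EuclideanSpace ℂ (Fin n), Fin (m l) → EuclideanSpace ℂ (Fin n))
    (φ ψ : ∀ l : EuclideanSpace ℂ (Fin n), Fin (m l) → EuclideanSpace ℂ (Fin n) →
      EuclideanSpace ℂ (Fin n)) (he : ∀ l k, ‖e l k‖ = 1 ∧ IsBallAut (φ l k) (ψ l k)) :
    ∃ C' : ℝ, ∀ (f : Fin N → EuclideanSpace ℂ (Fin n) → ℂ)
      (u : Fin d → EuclideanSpace ℂ (Fin n) → ℂ),
      (∀ j, DifferentiableOn ℂ (f j) (ball 0 1)) →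
      (∀ j, ∀ z ∈ ball (0 : EuclideanSpace ℂ (Fin n)) 1, ‖f j z‖ ≤ M) →
      (∀ z ∈ ball (0 : EuclideanSpace ℂ (Fin n)) 1, δ ≤ ∑ j, ‖f j z‖ ^ 2) →
      (∀ i, Gen6 K p ω (u i)) →
      (∀ l ∈ sphere (0 : EuclideanSpace ℂ (Fin n)) 1, ∀ c : Fin d → ℂ,
        ∀ D ⊆ {z | z ∈ ball (0 : EuclideanSpace ℂ (Fin n)) 1 ∩ ball l (ρ l) ∧
          ∀ i, ‖u i z - c i‖ < ρ₀},
          (∀ k, ∀ b ∈ D, ∀ z ∈ D, near (e l k) (φ l k) (μ l) b z) → SolvableOn f D C₀) →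
      SolvableOn f (ball 0 1) C' := by
  classical
  obtain ⟨T, r, hr, hr1, hT, hcov⟩ := cover ρ hρ
  obtain ⟨s, C₁, hs, hin⟩ := inner_cell (n := n) (N := N) (M := max M 1) (le_max_right _ _) hδ hr
  obtain ⟨ρ₁, hρ₁, hρT⟩ := finset_lb T ρ hρ
  obtain ⟨μ₁, hμ₁, hμT⟩ := finset_lb T μ hμ
  have hn0 : (0 : ℝ) < n := by
    have : 0 < n := by omega
    exact_mod_cast this
  obtain ⟨ρ₂, hρ₂⟩ : ∃ ρ₂ : ℝ, ρ₂ = min ρ₀ (min (ρ₁ / 2) s / (2 * n)) := ⟨_, rfl⟩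
  have hρ₂0 : 0 < ρ₂ := by rw [hρ₂]; positivity
  have hρ₂1 : ρ₂ ≤ ρ₀ := by rw [hρ₂]; exact min_le_left _ _
  have hρ₂2 : n * (2 * ρ₂) ≤ min (ρ₁ / 2) s := by
    have h1 : ρ₂ ≤ min (ρ₁ / 2) s / (2 * n) := by rw [hρ₂]; exact min_le_right _ _
    rw [le_div_iff₀ (by positivity)] at h1
    linarith
  -- the size of the cells along the lines
  obtain ⟨η, hη⟩ : ∃ η, η = min (1 / 2) (μ₁ / 8) := ⟨_, rfl⟩
  have hη0 : 0 < η := by rw [hη]; positivity
  have hη1 : η ≤ 1 / 2 := by rw [hη]; exact min_le_left _ _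
  have hημ : 8 * η ≤ μ₁ := by
    have : η ≤ μ₁ / 8 := by rw [hη]; exact min_le_right _ _
    linarith
  obtain ⟨σ, hσ⟩ : ∃ σ, σ = min (1 / 13) (η / 25) := ⟨_, rfl⟩
  have hσ0 : 0 < σ := by rw [hσ]; positivity
  have hσ1 : σ ≤ 1 / 13 := by rw [hσ]; exact min_le_left _ _
  have hση : 24 * σ < η := by
    have : σ ≤ η / 25 := by rw [hσ]; exact min_le_right _ _
    linarith
  -- the constants of the generators
  obtain ⟨B, hB⟩ := Gen5_unif (n := n) (K := K) hp (le_refl p)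
  obtain ⟨K₂, hK₂⟩ : ∃ K₂, K₂ = max (max B (max K 1)) n := ⟨_, rfl⟩
  have hK₂1 : 1 ≤ K₂ := by
    rw [hK₂]; exact ((le_max_right _ _).trans (le_max_right _ _)).trans (le_max_left _ _)
  have hK₂K : K ≤ K₂ := by
    rw [hK₂]; exact ((le_max_left _ _).trans (le_max_right _ _)).trans (le_max_left _ _)
  have hBK : B ≤ K₂ := by rw [hK₂]; exact (le_max_left _ _).trans (le_max_left _ _)
  have hnK₂ : (n : ℝ) ≤ K₂ := by rw [hK₂]; exact le_max_right _ _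
  -- the index sets
  obtain ⟨E₁⟩ : Nonempty ((Σ l : T, Fin (m l.1)) ≃ Fin (Fintype.card (Σ l : T, Fin (m l.1)))) :=
    ⟨Fintype.equivFin _⟩
  obtain ⟨C', hC'⟩ := T_lines hn N (d + n) (Fintype.card (Σ l : T, Fin (m l.1))) (M := M)
    (C₁ := max C₀ C₁) (ρ₀ := ρ₂) (K := K₂) (p := p) (σ := σ) ω hρ₂0 hσ0 hp hω
  refine ⟨C', fun f u hf hfM hfδ hu hloc => ?_⟩
  obtain ⟨v, hv⟩ : ∃ v : Fin (d + n) → EuclideanSpace ℂ (Fin n) → ℂ,
      v = fun x => Sum.elim u (fun i z => ⟪EuclideanSpace.single i (1 : ℂ), z⟫_ℂ)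
        (finSumFinEquiv.symm x) := ⟨_, rfl⟩
  have hv1 : ∀ i, v (finSumFinEquiv (Sum.inl i)) = u i := fun i => by
    rw [hv]; simp only [Equiv.symm_apply_apply, Sum.elim_inl]
  have hv2 : ∀ i, v (finSumFinEquiv (Sum.inr i)) =
      fun z => ⟪EuclideanSpace.single i (1 : ℂ), z⟫_ℂ := fun i => by
    rw [hv]; simp only [Equiv.symm_apply_apply, Sum.elim_inr]
  have hvG : ∀ x, Gen6 K₂ p ω (v x) := by
    intro x
    obtain ⟨y, rfl⟩ := finSumFinEquiv.surjective x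
    rcases y with i | i
    · rw [hv1]
      rcases hu i with h | ⟨h1, h2⟩
      · exact Or.inl (hB K₂ hBK ω ω (fun _ => le_rfl) _ h)
      · exact Or.inr ⟨fun z hz => (h1 z hz).trans hK₂K,
          Pool.Agent.MPca0fc2.LT.lineTame_mono hK₂K h2⟩
    · rw [hv2]
      left
      refine gen5_mult (by omega) (K := 1) hK₂1 hnK₂ (by rw [abs_one]; exact hK₂1) ?_
      exact CV.DAMultiplier_line (g := fun w => w) differentiableOn_id
        (fun w hw => (mem_ball_zero_iff.mp hw).le) (by simp)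
  refine hC' f v (fun x => e (E₁.symm x).1.1 (E₁.symm x).2) (fun x => φ (E₁.symm x).1.1
    (E₁.symm x).2) (fun x => ψ (E₁.symm x).1.1 (E₁.symm x).2) hf hfM hvG (fun x => he _ _)
    fun c b₀ hb₀ => ?_
  obtain ⟨D, hD⟩ : ∃ D : Set (EuclideanSpace ℂ (Fin n)), D =
    {z | z ∈ ball (0 : EuclideanSpace ℂ (Fin n)) 1 ∧ (∀ i, ‖v i z - c i‖ < ρ₂) ∧
      ∀ x, ‖chi (e (E₁.symm x).1.1 (E₁.symm x).2) (φ (E₁.symm x).1.1 (E₁.symm x).2) b₀ z -
        chi (e (E₁.symm x).1.1 (E₁.symm x).2) (φ (E₁.symm x).1.1 (E₁.symm x).2) b₀ b₀‖ ≤ σ} :=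
    ⟨_, rfl⟩
  rw [← hD]
  have hDball : ∀ z ∈ D, z ∈ ball (0 : EuclideanSpace ℂ (Fin n)) 1 := by
    intro z hz
    rw [hD] at hz
    exact hz.1
  have hDu : ∀ z ∈ D, ∀ i, ‖u i z - c (finSumFinEquiv (Sum.inl i))‖ < ρ₂ := by
    intro z hz i
    rw [hD] at hz
    have := hz.2.1 (finSumFinEquiv (Sum.inl i))
    rwa [hv1] at this
  have hDz : ∀ z ∈ D, ∀ i : Fin n, ‖z i - c (finSumFinEquiv (Sum.inr i))‖ < ρ₂ := by
    intro z hz i
    rw [hD] at hz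
    have := hz.2.1 (finSumFinEquiv (Sum.inr i))
    rw [hv2] at this
    simpa only [EuclideanSpace.inner_single_left, map_one, one_mul] using this
  have hDnear : ∀ l : T, ∀ k : Fin (m l.1), ∀ b ∈ D, ∀ z ∈ D,
      near (e l.1 k) (φ l.1 k) (μ l.1) b z := by
    intro l k b hb z hz
    have h1 := hDball b hb
    have h2 := hDball z hz
    rw [hD] at hb hz
    have hb3 := hb.2.2 (E₁ ⟨l, k⟩)
    have hz3 := hz.2.2 (E₁ ⟨l, k⟩)
    rw [Equiv.symm_apply_apply] at hb3 hz3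
    obtain ⟨he1, hφ1⟩ := he l.1 k
    have h3 := near_of_cell hη0.le hη1
      (mem_cell_of_chi he1 hσ1 hση (hφ1.map b₀ hb₀) (hφ1.map b h1) hb3)
      (mem_cell_of_chi he1 hσ1 hση (hφ1.map b₀ hb₀) (hφ1.map z h2) hz3)
    have h4 : 8 * η ≤ μ l.1 := hημ.trans (hμT l.1 l.2)
    have h5 := hφ1.map b h1
    have h6 : 0 ≤ 1 - ‖⟪e l.1 k, φ l.1 k b⟫_ℂ‖ := by
      have := norm_inner_lt he1 h5
      linarith
    exact ⟨h3.1.trans (mul_le_mul_of_nonneg_right h4 h6),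
      h3.2.trans (mul_le_mul_of_nonneg_right h4 h6)⟩
  rcases D.eq_empty_or_nonempty with h0 | ⟨b, hb⟩
  · rw [h0]
    exact Pool.Agent.MPca0fc2.LT.solv_empty
  have hDb : ∀ z ∈ D, ‖z - b‖ ≤ min (ρ₁ / 2) s := by
    intro z hz
    refine (norm_le_coord (z - b)).trans (le_trans (Finset.sum_le_sum (g := fun _ => 2 * ρ₂)
      fun i _ => ?_) ?_)
    · have h1 := hDz z hz i
      have h2 := hDz b hb i
      have h3 : (z - b) i = (z i - c (finSumFinEquiv (Sum.inr i))) -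
          (b i - c (finSumFinEquiv (Sum.inr i))) := by
        rw [PiLp.sub_apply]
        ring
      rw [h3]
      refine (norm_sub_le _ _).trans ?_
      linarith
    · rw [Finset.sum_const, Finset.card_univ, Fintype.card_fin, nsmul_eq_mul]
      exact hρ₂2
  have hb1 := hDball b hb
  by_cases hbr : ‖b‖ ≤ 1 - r
  · refine solv_mono (hin f hf (fun j z hz => (hfM j z hz).trans (le_max_left _ _)) hfδ D b
      hDball hbr fun z hz => (hDb z hz).trans (min_le_right _ _))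
      Subset.rfl (le_max_right _ _)
  · push Not at hbr
    obtain ⟨l, hl, hbl⟩ := hcov b (mem_ball_zero_iff.mp hb1) hbr
    refine solv_mono (hloc l (hT l hl) (fun i => c (finSumFinEquiv (Sum.inl i))) D ?_
      (hDnear ⟨l, hl⟩)) Subset.rfl (le_max_left _ _)
    intro z hz
    refine ⟨⟨hDball z hz, ?_⟩, fun i => (hDu z hz i).trans_le hρ₂1⟩
    rw [mem_ball, dist_eq_norm] at hbl ⊢
    have h1 := (hDb z hz).trans (min_le_left _ _)
    have h2 := hρT l hl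
    have h3 : z - l = (z - b) + (b - l) := by abel
    rw [h3]
    refine lt_of_le_of_lt (norm_add_le _ _) ?_
    linarith

end Pool.Agent.MPca0fc2.MG
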