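import Mathlib
import Pool.Agent.Lib.MP_ca0fc2_an.MGLoc
import Pool.Agent.Lib.MP_ca0fc2_an.CPLoc

/-! The corona theorem for data which are generators or functions on larger domains. -/

set_option autoImplicit false

open Metric Set MeasureTheory Filter Topology
open scoped InnerProductSpace

namespace Pool.Agent.MPca0fc2.MG

open Pool.Agent.Lib.MP_ca0fc2_an
open Pool.Agent.MPca0fc2.CP
open Pool.Agent.MPca0fc2.SV (near dom ball_subset_dom solve_cell solvable_empty)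

variable {n : ℕ}

/-- The corona theorem, with bounds, for data which are generators (for the indices `t`) or
bounded functions on larger domains which are apart (for the other indices). -/
theorem mg_main (hn : 2 ≤ n) (N : ℕ) (δ : ℝ) (hδ : 0 < δ) (t : Fin N → Prop) (M L K p : ℝ)
    (ω : ℝ → ℝ) (hp : 1 ≤ p) (hω : Rate ω) (r : Fin N → EuclideanSpace ℂ (Fin n) → ℝ)
    (hrL : ∀ j z w, |r j z - r j w| ≤ L * ‖z - w‖) (hap : ∀ i j, i ≠ j → Apart (r i) (r j)) :
    ∃ C : ℝ, ∀ f F u : Fin N → EuclideanSpace ℂ (Fin n) → ℂ,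
      (∀ j, DifferentiableOn ℂ (f j) (ball 0 1)) →
      (∀ j, ∀ z ∈ ball (0 : EuclideanSpace ℂ (Fin n)) 1, ‖f j z‖ ≤ M) →
      (∀ j, ¬ t j → DifferentiableOn ℂ (F j) (dom (r j)) ∧ (∀ z ∈ dom (r j), ‖F j z‖ ≤ M) ∧
        ∀ z ∈ ball (0 : EuclideanSpace ℂ (Fin n)) 1, f j z = F j z) →
      (∀ j, t j → Gen6 K p ω (u j) ∧
        ∃ c, ∀ z ∈ ball (0 : EuclideanSpace ℂ (Fin n)) 1, f j z = u j z - c) →
      (∀ z ∈ ball (0 : EuclideanSpace ℂ (Fin n)) 1, δ ≤ ∑ j, ‖f j z‖ ^ 2) →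
      SolvableOn f (ball 0 1) C := by
  classical
  obtain ⟨ε, hε⟩ : ∃ ε, ε = Real.sqrt (δ / (12 * (N + 1))) := ⟨_, rfl⟩
  have hε0 : 0 < ε := by rw [hε]; exact Real.sqrt_pos.2 (by positivity)
  have hεδ : ε ^ 2 * (12 * (N + 1)) = δ := by
    rw [hε, Real.sq_sqrt (by positivity)]
    field_simp
  have hrL' : ∀ j z w, |r j z - r j w| ≤ max L 0 * ‖z - w‖ := fun j z w =>
    (hrL j z w).trans (mul_le_mul_of_nonneg_right (le_max_left _ _) (norm_nonneg _))
  -- the lines at the boundary points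
  obtain ⟨o, ho⟩ : ∃ o : EuclideanSpace ℂ (Fin n), o = EuclideanSpace.single ⟨0, by omega⟩ 1 :=
    ⟨_, rfl⟩
  have ho1 : ‖o‖ = 1 := by rw [ho]; simp
  have hroom : ∀ l : EuclideanSpace ℂ (Fin n), ∃ (m : ℕ) (e : Fin m → EuclideanSpace ℂ (Fin n))
      (φ ψ : Fin m → EuclideanSpace ℂ (Fin n) → EuclideanSpace ℂ (Fin n)) (μ ρ : ℝ),
      0 < μ ∧ 0 < ρ ∧ (∀ k, ‖e k‖ = 1 ∧ IsBallAut (φ k) (ψ k)) ∧
      (‖l‖ = 1 → ∀ F : Fin N → EuclideanSpace ℂ (Fin n) → ℂ,
      (∀ j, DifferentiableOn ℂ (F j) (dom (r j))) →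
      (∀ j, ∀ z ∈ dom (r j), ‖F j z‖ ≤ max M 0) →
      ∀ D ⊆ ball (0 : EuclideanSpace ℂ (Fin n)) 1 ∩ ball l ρ,
        (∀ k, ∀ b ∈ D, ∀ z ∈ D, near (e k) (φ k) μ b z) →
      ∀ b ∈ D, ∀ i j, i ≠ j →
        (∀ z ∈ D, ‖F i z - F i b‖ ≤ ε) ∨ ∀ z ∈ D, ‖F j z - F j b‖ ≤ ε) := by
    intro l
    by_cases hl : ‖l‖ = 1
    · obtain ⟨m, e, φ, ψ, μ, ρ, h1, h2, h3, h4⟩ := room_lines hl hε0 (max M 0)
        (le_max_right L 0) r hrL' hap
      exact ⟨m, e, φ, ψ, μ, ρ, h1, h2, h3, fun _ => h4⟩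
    · exact ⟨0, fun _ => o, fun _ => id, fun _ => id, 1, 1, one_pos, one_pos,
        fun k => k.elim0, fun h => absurd h hl⟩
  choose m e φ ψ μ ρ hμ hρ he hroom using hroom
  obtain ⟨B, hB⟩ := Gen6_unif (n := n) (by omega) (K := K) hp (le_refl p)
  obtain ⟨K', hK'⟩ : ∃ K', K' = max B (max 1 n) := ⟨_, rfl⟩
  have hK'1 : 1 ≤ K' := by rw [hK']; exact (le_max_left _ _).trans (le_max_right _ _)
  have hnK' : (n : ℝ) ≤ K' := by rw [hK']; exact (le_max_right _ _).trans (le_max_right _ _)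
  have hBK : B ≤ K' := by rw [hK']; exact le_max_left _ _
  obtain ⟨C', hC'⟩ := loc_lines hn N N M δ hδ (K := K') (p := p) (ρ₀ := ε / 2)
    (C₀ := max (1 / ε) (1 / (Real.sqrt δ / 2))) ω hp hω (by positivity) m ρ μ hρ hμ e φ ψ he
  refine ⟨C', fun f F u hf hfM hF hu hfδ => ?_⟩
  have hzero : Gen6 K' p ω (fun _ : EuclideanSpace ℂ (Fin n) => (0 : ℂ)) := by
    refine Or.inl (gen5_mult (by omega) (K := 1) hK'1 hnK' (by rw [abs_one]; exact hK'1) ?_)
    exact CV.DAMultiplier_line (g := fun _ => 0) (differentiableOn_const _)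
      (fun w _ => by simp) ho1
  obtain ⟨u', hu'⟩ : ∃ u' : Fin N → EuclideanSpace ℂ (Fin n) → ℂ,
    u' = fun j => if t j then u j else fun _ => 0 := ⟨_, rfl⟩
  obtain ⟨F', hF'⟩ : ∃ F' : Fin N → EuclideanSpace ℂ (Fin n) → ℂ,
    F' = fun j => if t j then fun _ => 0 else F j := ⟨_, rfl⟩
  refine hC' f u' hf hfM hfδ (fun i => ?_) fun l hl c D hD hnear => ?_
  · rw [hu']
    by_cases hi : t i
    · simp only [hi, if_true]
      exact hB K' hBK ω ω (fun _ => le_rfl) _ (hu i hi).1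
    · simp only [hi, if_false]
      exact hzero
  rcases D.eq_empty_or_nonempty with h0 | ⟨b, hb⟩
  · rw [h0]; exact solvable_empty
  have hDb : ∀ z ∈ D, z ∈ ball (0 : EuclideanSpace ℂ (Fin n)) 1 := fun z hz => (hD hz).1.1
  -- the generators vary little
  have hgen : ∀ j, t j → ∀ z ∈ D, ‖f j z - f j b‖ ≤ ε := by
    intro j hj z hz
    obtain ⟨-, a, ha⟩ := hu j hj
    have h1 := (hD hz).2 j
    have h2 := (hD hb).2 j
    rw [hu'] at h1 h2
    simp only [hj, if_true] at h1 h2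
    rw [ha z (hDb z hz), ha b (hDb b hb)]
    have e1 : u j z - a - (u j b - a) = (u j z - c j) - (u j b - c j) := by ring
    rw [e1]
    refine (norm_sub_le _ _).trans ?_
    linarith
  -- at most one of the other functions does not
  have hoth : ∀ i j, i ≠ j → ¬ t i → ¬ t j →
      (∀ z ∈ D, ‖f i z - f i b‖ ≤ ε) ∨ ∀ z ∈ D, ‖f j z - f j b‖ ≤ ε := by
    intro i j hij hi hj
    have h1 := hroom l (mem_sphere_zero_iff_norm.mp hl) F' (fun j => ?_) (fun j z hz => ?_) D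
      (fun z hz => (hD hz).1) hnear b hb i j hij
    · rw [hF'] at h1
      simp only [hi, hj, if_false] at h1
      refine h1.imp (fun h z hz => ?_) (fun h z hz => ?_)
      · rw [(hF i hi).2.2 z (hDb z hz), (hF i hi).2.2 b (hDb b hb)]
        exact h z hz
      · rw [(hF j hj).2.2 z (hDb z hz), (hF j hj).2.2 b (hDb b hb)]
        exact h z hz
    · rw [hF']
      by_cases hj : t j
      · simp only [hj, if_true]
        exact differentiableOn_const _
      · simp only [hj, if_false]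
        exact (hF j hj).1
    · rw [hF']
      by_cases hj : t j
      · simp only [hj, if_true, norm_zero]
        exact le_max_right _ _
      · simp only [hj, if_false]
        exact ((hF j hj).2.1 z hz).trans (le_max_left _ _)
  -- the exceptional index
  obtain ⟨j₀, hj₀⟩ : ∃ j₀ : Fin N, ∀ j, j ≠ j₀ → ∀ z ∈ D, ‖f j z - f j b‖ ≤ ε := by
    by_cases hw : ∃ i, ¬ ∀ z ∈ D, ‖f i z - f i b‖ ≤ ε
    · obtain ⟨i, hi⟩ := hw
      refine ⟨i, fun j hj => ?_⟩
      by_cases htj : t j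
      · exact hgen j htj
      · exact (hoth i j (Ne.symm hj) (fun h => hi (hgen i h)) htj).resolve_left hi
    · push Not at hw
      have hN : Nonempty (Fin N) := by
        by_contra hcon
        rw [not_nonempty_iff] at hcon
        have := hfδ b (hDb b hb)
        rw [Finset.univ_eq_empty, Finset.sum_empty] at this
        linarith
      exact ⟨hN.some, fun j _ => hw j⟩
  exact solve_cell hδ hε0 hεδ.le (fun j => (hf j).mono fun z hz => hDb z hz)
    (fun z hz => hfδ z (hDb z hz)) (b := b) (j₀ := j₀) hj₀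

end Pool.Agent.MPca0fc2.MG
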