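import Mathlib
import Pool.Agent.Lib.MP_ca0fc2_an.SVMain

set_option autoImplicit false

open Metric Set Filter Topology
open scoped InnerProductSpace ComplexConjugate

namespace Pool.Agent.MPca0fc2.SV

open Pool.Agent.Lib.MP_ca0fc2_an

variable {E : Type*} [NormedAddCommGroup E] [InnerProductSpace ℂ E]

/-- characters and polynomials -/
theorem char_eval {I ι : Type*} (Φ : Char I E) {G : ι → I → E → ℂ} (hG : ∀ i, BH (G i))
    (P : MvPolynomial ι ℂ) : BH (fun x z => MvPolynomial.eval (fun i => G i x z) P) ∧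
      Φ.φ (fun x z => MvPolynomial.eval (fun i => G i x z) P) =
        MvPolynomial.eval (fun i => Φ.φ (G i)) P := by
  induction P using MvPolynomial.induction_on with
  | C a =>
    simp only [MvPolynomial.eval_C]
    exact ⟨BH.const a, Φ.map_const a⟩
  | add p q hp hq =>
    simp only [map_add]
    exact ⟨hp.1.add hq.1, by rw [Φ.map_add hp.1 hq.1, hp.2, hq.2]⟩
  | mul_X p i hp =>
    simp only [map_mul, MvPolynomial.eval_X]
    exact ⟨hp.1.mul (hG i), by rw [Φ.map_mul hp.1 (hG i), hp.2]⟩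

/-- Joint cluster values: the values of a character at the functions `F i` are approximated by
the values at points of the ball. -/
theorem cluster {I ι : Type*} (hDC : DiscCorona) [FiniteDimensional ℂ E] (Φ : Char I E)
    (r : ι → E → ℝ) (L M : ι → ℝ)
    (hrL : ∀ j z w, |r j z - r j w| ≤ L j * ‖z - w‖)
    (hap : ∀ i j, i ≠ j → Apart (r i) (r j)) (F : ι → I → E → ℂ)
    (hF : ∀ i x, DifferentiableOn ℂ (F i x) (dom (r i)))
    (hFM : ∀ i x, ∀ z ∈ dom (r i), ‖F i x z‖ ≤ M i) (J : Finset ι) {ε : ℝ} (hε : 0 < ε) :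
    ∃ x : I, ∃ z ∈ ball (0 : E) 1, ∀ i ∈ J, ‖F i x z - Φ.φ (F i)‖ < ε := by
  classical
  by_contra hcon
  push Not at hcon
  have hBF : ∀ i, BH (F i) := fun i => ⟨fun x => (hF i x).mono (ball_subset_dom (r i)), M i,
    fun x z hz => hFM i x z (ball_subset_dom (r i) hz)⟩
  obtain ⟨c, hc⟩ : ∃ c : ι → ℂ, c = fun i => Φ.φ (F i) := ⟨_, rfl⟩
  have hcon' : ∀ x : I, ∀ z ∈ ball (0 : E) 1, ε ^ 2 ≤ ∑ a : Fin J.card,
      ‖F (J.equivFin.symm a).1 x z - c (J.equivFin.symm a).1‖ ^ 2 := by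
    intro x z hz
    obtain ⟨i, hi, h1⟩ := hcon x z hz
    have h2 := Finset.single_le_sum (f := fun a : Fin J.card =>
      ‖F (J.equivFin.symm a).1 x z - c (J.equivFin.symm a).1‖ ^ 2)
      (fun _ _ => by positivity) (Finset.mem_univ (J.equivFin ⟨i, hi⟩))
    simp only [Equiv.symm_apply_apply] at h2
    refine le_trans ?_ h2
    rw [hc]
    exact pow_le_pow_left₀ hε.le h1 2
  obtain ⟨η', hη', hmain⟩ := sv_main hDC (E := E) J.card (ε ^ 2) (by positivity)
  obtain ⟨C, hC⟩ := hmain (∑ i ∈ J, (|M i| + ‖c i‖)) (∑ i ∈ J, |L i|)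
    (fun a => r (J.equivFin.symm a).1) (by
      intro a z w
      refine (hrL _ z w).trans (mul_le_mul_of_nonneg_right ?_ (norm_nonneg _))
      refine (le_abs_self _).trans ?_
      exact Finset.single_le_sum (f := fun i => |L i|) (fun _ _ => abs_nonneg _)
        (J.equivFin.symm a).2) (by
      intro a b hab
      apply hap
      intro h
      exact hab (J.equivFin.symm.injective (Subtype.ext h)))
  have hsol : ∀ x : I, SolvableOn (fun (a : Fin J.card) z =>
      F (J.equivFin.symm a).1 x z - c (J.equivFin.symm a).1) (ball 0 1) C := by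
    intro x
    have hMa : ∀ a : Fin J.card, |M (J.equivFin.symm a).1| + ‖c (J.equivFin.symm a).1‖ ≤
        ∑ i ∈ J, (|M i| + ‖c i‖) := fun a =>
      Finset.single_le_sum (f := fun i => |M i| + ‖c i‖) (fun _ _ => by positivity)
        (J.equivFin.symm a).2
    have hbd : ∀ a : Fin J.card, ∀ z ∈ dom (r (J.equivFin.symm a).1),
        ‖F (J.equivFin.symm a).1 x z - c (J.equivFin.symm a).1‖ ≤ ∑ i ∈ J, (|M i| + ‖c i‖) := by
      intro a z hz
      refine (norm_sub_le _ _).trans (le_trans ?_ (hMa a))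
      exact add_le_add ((hFM _ x z hz).trans (le_abs_self _)) le_rfl
    refine hC _ (fun (a : Fin J.card) z => F (J.equivFin.symm a).1 x z -
      c (J.equivFin.symm a).1) ?_ ?_ ?_ hbd ?_ (hcon' x)
    · intro a
      exact ((hF _ x).mono (ball_subset_dom _)).sub_const _
    · intro a
      exact (hF _ x).sub_const _
    · intro a z hz
      exact hbd a z (ball_subset_dom _ hz)
    · intro a z _
      rw [sub_self, norm_zero]
      exact hη'.le
  choose h hh hhC hsum using hsol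
  have hBh : ∀ a, BH (fun x => h x a) := fun a => ⟨fun x => hh x a, C, fun x z hz => hhC x a z hz⟩
  have hBFc : ∀ a : Fin J.card, BH (fun x z => F (J.equivFin.symm a).1 x z -
      c (J.equivFin.symm a).1) := fun a => (hBF _).sub (BH.const _)
  have h1 : Φ.φ (fun x z => ∑ a ∈ Finset.univ, (F (J.equivFin.symm a).1 x z -
      c (J.equivFin.symm a).1) * h x a z) = 0 := by
    rw [Char.map_sum Φ fun a _ => (hBFc a).mul (hBh a)]
    apply Finset.sum_eq_zero
    intro a _
    rw [Φ.map_mul (hBFc a) (hBh a), Char.map_sub Φ (hBF _) (BH.const _), Φ.map_const, hc, sub_self,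
      zero_mul]
  have h2 : Φ.φ (fun x z => ∑ a ∈ Finset.univ, (F (J.equivFin.symm a).1 x z -
      c (J.equivFin.symm a).1) * h x a z) = 1 := by
    rw [Char.congr Φ (BH.const (I := I) (E := E) 1) (fun x z hz => hsum x z hz), Φ.map_const]
  rw [h1] at h2
  exact zero_ne_one h2

/-- The corona theorem, with bounds, for data which are close to polynomials in arbitrary bounded
functions on larger domains, if these domains touch the sphere pairwise at finitely many
chains. -/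
theorem sv_alg (hDC : DiscCorona) [FiniteDimensional ℂ E] (N : ℕ) (δ : ℝ) (hδ : 0 < δ) :
    ∃ η : ℝ, 0 < η ∧ ∀ {ι : Type*} (r : ι → E → ℝ) (L M : ι → ℝ)
      (P : Fin N → MvPolynomial ι ℂ),
      (∀ i z w, |r i z - r i w| ≤ L i * ‖z - w‖) → (∀ i j, i ≠ j → Apart (r i) (r j)) →
      ∃ C : ℝ, ∀ (f : Fin N → E → ℂ) (F : ι → E → ℂ),
        (∀ j, DifferentiableOn ℂ (f j) (ball 0 1)) →
        (∀ i, DifferentiableOn ℂ (F i) (dom (r i))) →
        (∀ i, ∀ z ∈ dom (r i), ‖F i z‖ ≤ M i) →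
        (∀ j, ∀ z ∈ ball (0 : E) 1, ‖f j z - MvPolynomial.eval (fun i => F i z) (P j)‖ ≤ η) →
        (∀ z ∈ ball (0 : E) 1, δ ≤ ∑ j, ‖f j z‖ ^ 2) →
        SolvableOn f (ball 0 1) C := by
  classical
  obtain ⟨η, hη⟩ : ∃ η, η = Real.sqrt (δ / (9 * (N + 1))) := ⟨_, rfl⟩
  have hη0 : 0 < η := by rw [hη]; exact Real.sqrt_pos.2 (by positivity)
  have hηδ : η ^ 2 * (9 * (N + 1)) = δ := by
    rw [hη, Real.sq_sqrt (by positivity)]
    field_simp
  refine ⟨η, hη0, ?_⟩
  intro ι r L M P hrL hap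
  -- a bound for the polynomials
  have hPb : ∀ j, ∃ B : ℝ, ∀ y : ι → ℂ, (∀ i, ‖y i‖ ≤ M i) →
      ‖MvPolynomial.eval y (P j)‖ ≤ B := by
    intro j
    refine ⟨∑ d ∈ (P j).support, ‖(P j).coeff d‖ * ∏ i ∈ d.support, (M i) ^ d i, ?_⟩
    intro y hy
    rw [MvPolynomial.eval_eq]
    refine (norm_sum_le _ _).trans (Finset.sum_le_sum fun d _ => ?_)
    rw [norm_mul, norm_prod]
    apply mul_le_mul_of_nonneg_left _ (norm_nonneg _)
    apply Finset.prod_le_prod (fun _ _ => norm_nonneg _)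
    intro i _
    rw [norm_pow]
    exact pow_le_pow_left₀ (norm_nonneg _) (hy i) _
  choose B hB using hPb
  -- the family of all data
  set I := {x : (Fin N → E → ℂ) × (ι → E → ℂ) //
    (∀ j, DifferentiableOn ℂ (x.1 j) (ball 0 1)) ∧
    (∀ i, DifferentiableOn ℂ (x.2 i) (dom (r i))) ∧
    (∀ i, ∀ z ∈ dom (r i), ‖x.2 i z‖ ≤ M i) ∧
    (∀ j, ∀ z ∈ ball (0 : E) 1, ‖x.1 j z - MvPolynomial.eval (fun i => x.2 i z) (P j)‖ ≤ η) ∧
    (∀ z ∈ ball (0 : E) 1, δ ≤ ∑ j, ‖x.1 j z‖ ^ 2)} with hI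
  obtain ⟨f', hf'⟩ : ∃ f' : Fin N → I → E → ℂ, f' = fun j x => x.1.1 j := ⟨_, rfl⟩
  obtain ⟨F', hF'⟩ : ∃ F' : ι → I → E → ℂ, F' = fun i x => x.1.2 i := ⟨_, rfl⟩
  have hBf : ∀ j, BH (f' j) := by
    intro j
    refine ⟨fun x => ?_, η + B j, fun x z hz => ?_⟩
    · rw [hf']; exact x.2.1 j
    · rw [hf']
      have h1 := x.2.2.2.2.1 j z hz
      have h2 := hB j (fun i => x.1.2 i z) fun i => x.2.2.2.1 i z (ball_subset_dom _ hz)
      calc ‖x.1.1 j z‖ = ‖(x.1.1 j z - MvPolynomial.eval (fun i => x.1.2 i z) (P j)) +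
            MvPolynomial.eval (fun i => x.1.2 i z) (P j)‖ := by congr 1; ring
        _ ≤ _ := norm_add_le _ _
        _ ≤ _ := add_le_add h1 h2
  have hBF : ∀ i, BH (F' i) := by
    intro i
    refine ⟨fun x => ?_, M i, fun x z hz => ?_⟩
    · rw [hF']; exact (x.2.2.1 i).mono (ball_subset_dom _)
    · rw [hF']; exact x.2.2.2.1 i z (ball_subset_dom _ hz)
  obtain ⟨G, hG, hs⟩ := unimod_of_chars hBf (by
    intro Φ
    by_contra hcon
    push Not at hcon
    obtain ⟨c, hc⟩ : ∃ c : ι → ℂ, c = fun i => Φ.φ (F' i) := ⟨_, rfl⟩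
    -- the neighbourhood of the cluster value
    obtain ⟨W, hW⟩ : ∃ W : Set (ι → ℂ), W = {y | ∀ j, ‖MvPolynomial.eval y (P j) -
      MvPolynomial.eval c (P j)‖ < η} := ⟨_, rfl⟩
    have hWn : W ∈ 𝓝 c := by
      have h1 : W = ⋂ j, {y | ‖MvPolynomial.eval y (P j) - MvPolynomial.eval c (P j)‖ < η} := by
        rw [hW]
        ext y
        simp
      rw [h1]
      refine (isOpen_iInter_of_finite fun j => ?_).mem_nhds ?_
      · exact isOpen_lt (((MvPolynomial.continuous_eval (P j)).sub continuous_const).norm)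
          continuous_const
      · rw [mem_iInter]
        intro j
        show ‖MvPolynomial.eval c (P j) - MvPolynomial.eval c (P j)‖ < η
        rw [sub_self, norm_zero]
        exact hη0
    rw [nhds_pi, Filter.mem_pi] at hWn
    obtain ⟨J, hJ, t, ht, hJW⟩ := hWn
    obtain ⟨ε, hε0, hε⟩ : ∃ ε : ℝ, 0 < ε ∧ ∀ i ∈ J, ball (c i) ε ⊆ t i := by
      have h1 : ∀ i, ∃ ε : ℝ, 0 < ε ∧ ball (c i) ε ⊆ t i := fun i => Metric.mem_nhds_iff.1 (ht i)
      have : Finite J := hJ
      obtain ⟨ε, h2, _, h3⟩ := fin_pos (ι := J) (P := fun i ε => ball (c i.1) ε ⊆ t i.1)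
        (fun i κ κ' _ h4 h5 => (ball_subset_ball h4).trans h5) (fun i => h1 i.1)
      exact ⟨ε, h2, fun i hi => h3 ⟨i, hi⟩⟩
    obtain ⟨x, z, hz, hxz⟩ := cluster hDC Φ r L M hrL hap F'
      (fun i x => by rw [hF']; exact x.2.2.1 i) (fun i x z hz => by
        rw [hF']; exact x.2.2.2.1 i z hz) hJ.toFinset hε0
    have hy : (fun i => x.1.2 i z) ∈ W := by
      apply hJW
      intro i hi
      apply hε i hi
      rw [mem_ball, dist_eq_norm, hc]
      have := hxz i (hJ.mem_toFinset.2 hi)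
      rw [hF'] at this ⊢
      exact this
    rw [hW] at hy
    have h3 : ∀ j, ‖MvPolynomial.eval c (P j)‖ ≤ η := by
      intro j
      obtain ⟨h4, h5⟩ := char_eval Φ hBF (P j)
      have h6 : Φ.φ (fun x z => f' j x z - MvPolynomial.eval (fun i => F' i x z) (P j)) =
          - MvPolynomial.eval c (P j) := by
        rw [Char.map_sub Φ (hBf j) h4, hcon j, h5, hc, zero_sub]
      rw [← norm_neg, ← h6]
      refine Φ.bound ((hBf j).sub h4) hη0.le ?_
      intro x z hz
      rw [hf', hF']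
      exact x.2.2.2.2.1 j z hz
    have h4 : ∀ j, ‖x.1.1 j z‖ ≤ 3 * η := by
      intro j
      have e1 : x.1.1 j z = (x.1.1 j z - MvPolynomial.eval (fun i => x.1.2 i z) (P j)) +
          (MvPolynomial.eval (fun i => x.1.2 i z) (P j) - MvPolynomial.eval c (P j)) +
          MvPolynomial.eval c (P j) := by ring
      rw [e1]
      refine (norm_add_le _ _).trans ?_
      have e2 := norm_add_le (x.1.1 j z - MvPolynomial.eval (fun i => x.1.2 i z) (P j))
        (MvPolynomial.eval (fun i => x.1.2 i z) (P j) - MvPolynomial.eval c (P j))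
      have e3 := x.2.2.2.2.1 j z hz
      have e4 := (hy j).le
      have e5 := h3 j
      linarith
    have h5 := x.2.2.2.2.2 z hz
    have h6 : ∑ j, ‖x.1.1 j z‖ ^ 2 ≤ N * (9 * η ^ 2) := by
      calc ∑ j, ‖x.1.1 j z‖ ^ 2 ≤ ∑ _j : Fin N, 9 * η ^ 2 := by
            apply Finset.sum_le_sum
            intro j _
            calc ‖x.1.1 j z‖ ^ 2 ≤ (3 * η) ^ 2 := pow_le_pow_left₀ (norm_nonneg _) (h4 j) 2
              _ = _ := by ring
        _ = _ := by rw [Finset.sum_const, nsmul_eq_mul, Finset.card_univ, Fintype.card_fin]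
    have h7 : 0 < η ^ 2 := by positivity
    nlinarith)
  choose D hD using fun j => (hG j).bdd
  refine ⟨∑ j, |D j|, ?_⟩
  intro f F h1 h2 h3 h4 h5
  obtain ⟨x, hx⟩ : ∃ x : I, x = ⟨(f, F), h1, h2, h3, h4, h5⟩ := ⟨_, rfl⟩
  refine ⟨fun j => G j x, fun j => (hG j).holo _, ?_, ?_⟩
  · intro j z hz
    refine (hD j _ z hz).trans ((le_abs_self _).trans ?_)
    exact Finset.single_le_sum (f := fun j => |D j|) (fun k _ => abs_nonneg _) (Finset.mem_univ j)
  · intro z hz
    have h6 := hs x z hz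
    rw [hf', hx] at h6
    rw [hx]
    exact h6

end Pool.Agent.MPca0fc2.SV
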