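import Mathlib
import Pool.Agent.Lib.MP_ca0fc2_an.MGMain
import Pool.Agent.Lib.MP_ca0fc2_an.SVAlg

/-! The corona theorem for the closed algebra generated by `Gens6 n` and by arbitrary bounded
functions on larger domains which are apart. -/

set_option autoImplicit false

open Metric Set MeasureTheory Filter Topology
open scoped InnerProductSpace

namespace Pool.Agent.MPca0fc2.MG

open Pool.Agent.Lib.MP_ca0fc2_an
open Pool.Agent.MPca0fc2.CP
open Pool.Agent.MPca0fc2.UG (finset_bd)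
open Pool.Agent.MPca0fc2.SG (rate_max rate_id)
open Pool.Agent.MPca0fc2.SV (dom ball_subset_dom char_eval fin_pos)

variable {n : ℕ}

theorem rate_fin {κ : Type*} (T : Finset κ) (ω : κ → ℝ → ℝ) (h : ∀ k, Rate (ω k)) :
    ∃ ω' : ℝ → ℝ, Rate ω' ∧ ∀ k ∈ T, ∀ t, ω k t ≤ ω' t := by
  classical
  induction T using Finset.induction_on with
  | empty => exact ⟨fun t => t, rate_id, fun k hk => absurd hk (Finset.notMem_empty k)⟩
  | insert a T _ ih =>
    obtain ⟨ω', h1, h2⟩ := ih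
    refine ⟨fun t => max (ω a t) (ω' t), rate_max (h a) h1, fun k hk t => ?_⟩
    rcases Finset.mem_insert.mp hk with rfl | hk
    · exact le_max_left _ _
    · exact (h2 k hk t).trans (le_max_right _ _)

theorem gen6_bdd_unif (K : ℝ) {p : ℝ} (hp : 1 ≤ p) : ∃ A : ℝ, ∀ (ω : ℝ → ℝ)
    (u : EuclideanSpace ℂ (Fin n) → ℂ), Gen6 K p ω u → DifferentiableOn ℂ u (ball 0 1) ∧
      ∀ z ∈ ball (0 : EuclideanSpace ℂ (Fin n)) 1, ‖u z‖ ≤ A := by
  obtain ⟨q, A, -, h⟩ := gen5_dom (n := n) K hp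
  refine ⟨max A K, fun ω u hu => ⟨gens6_hol hp hu, fun z hz => ?_⟩⟩
  rcases hu with h1 | ⟨h1, -⟩
  · exact ((h ω u h1).2.1 z hz).trans (le_max_left _ _)
  · exact (h1 z hz).trans (le_max_right _ _)

/-- the constant function `1` is apart from every non-negative function -/
theorem apart_one {r : EuclideanSpace ℂ (Fin n) → ℝ} (hr : ∀ z, 0 ≤ r z) :
    Apart (fun _ : EuclideanSpace ℂ (Fin n) => (1 : ℝ)) r ∧ Apart r fun _ => 1 := by
  refine ⟨⟨1, {(0, 0)}, one_pos, ?_, ?_⟩, ⟨1, {(0, 0)}, one_pos, ?_, ?_⟩⟩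
  · intro x hx
    rw [Finset.mem_singleton] at hx
    rw [hx, norm_zero]
    exact one_pos
  · intro z hz
    refine ⟨(0, 0), Finset.mem_singleton_self _, 0, ?_⟩
    simp only [smul_zero, add_zero, sub_zero, hz]
    linarith [hr z]
  · intro x hx
    rw [Finset.mem_singleton] at hx
    rw [hx, norm_zero]
    exact one_pos
  · intro z hz
    refine ⟨(0, 0), Finset.mem_singleton_self _, 0, ?_⟩
    simp only [smul_zero, add_zero, sub_zero, hz]
    linarith [hr z]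

/-- Joint cluster values of the functions on larger domains and of the generators. -/
theorem cluster6 (hn : 2 ≤ n) {I ι κ : Type*} (Φ : Char I (EuclideanSpace ℂ (Fin n)))
    (r : ι → EuclideanSpace ℂ (Fin n) → ℝ) (L M : ι → ℝ) (hr0 : ∀ i z, 0 ≤ r i z)
    (hrL : ∀ j z w, |r j z - r j w| ≤ L j * ‖z - w‖)
    (hap : ∀ i j, i ≠ j → Apart (r i) (r j)) (K p : κ → ℝ) (ω : κ → ℝ → ℝ)
    (hp : ∀ k, 1 ≤ p k) (hω : ∀ k, Rate (ω k))
    (F : ι → I → EuclideanSpace ℂ (Fin n) → ℂ)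
    (hF : ∀ i x, DifferentiableOn ℂ (F i x) (dom (r i)))
    (hFM : ∀ i x, ∀ z ∈ dom (r i), ‖F i x z‖ ≤ M i)
    (u : κ → I → EuclideanSpace ℂ (Fin n) → ℂ) (hu : ∀ k x, Gen6 (K k) (p k) (ω k) (u k x))
    (J : Finset ι) (J' : Finset κ) {ε : ℝ} (hε : 0 < ε) :
    ∃ x : I, ∃ z ∈ ball (0 : EuclideanSpace ℂ (Fin n)) 1,
      (∀ i ∈ J, ‖F i x z - Φ.φ (F i)‖ < ε) ∧ ∀ k ∈ J', ‖u k x z - Φ.φ (u k)‖ < ε := by
  classical
  by_contra hcon
  push Not at hcon
  choose A hA using fun k => gen6_bdd_unif (n := n) (K k) (hp k)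
  have hBF : ∀ i, BH (F i) := fun i => ⟨fun x => (hF i x).mono (ball_subset_dom (r i)), M i,
    fun x z hz => hFM i x z (ball_subset_dom (r i) hz)⟩
  have hBu : ∀ k, BH (u k) := fun k => ⟨fun x => (hA k _ _ (hu k x)).1, A k,
    fun x z hz => (hA k _ _ (hu k x)).2 z hz⟩
  -- common constants
  obtain ⟨ω', hω', hωω⟩ := rate_fin J' ω hω
  obtain ⟨q₀, hq₀⟩ := finset_bd J' p
  obtain ⟨q, hq⟩ : ∃ q, q = max q₀ 1 := ⟨_, rfl⟩
  have hq1 : 1 ≤ q := by rw [hq]; exact le_max_right _ _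
  have hpq : ∀ k ∈ J', p k ≤ q := fun k hk => (hq₀ k hk).trans (by rw [hq]; exact le_max_left _ _)
  have hB : ∀ k, ∃ B : ℝ, k ∈ J' → ∀ B' ≥ B, ∀ v : EuclideanSpace ℂ (Fin n) → ℂ,
      Gen6 (K k) (p k) (ω k) v → Gen6 B' q ω' v := by
    intro k
    by_cases hk : k ∈ J'
    · obtain ⟨B, hB⟩ := Gen6_unif (n := n) (by omega) (K := K k) (hp k) (hpq k hk)
      exact ⟨B, fun _ B' hB' v hv => hB B' hB' (ω k) ω' (hωω k hk) v hv⟩
    · exact ⟨0, fun h => absurd h hk⟩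
  choose B hB using hB
  obtain ⟨B₀, hB₀⟩ := finset_bd J' B
  -- the index set
  obtain ⟨N, hN⟩ : ∃ N, N = Fintype.card (J ⊕ J') := ⟨_, rfl⟩
  obtain ⟨e⟩ : Nonempty ((J ⊕ J') ≃ Fin N) := by rw [hN]; exact ⟨Fintype.equivFin _⟩
  obtain ⟨c, hc⟩ : ∃ c : ι → ℂ, c = fun i => Φ.φ (F i) := ⟨_, rfl⟩
  obtain ⟨c', hc'⟩ : ∃ c' : κ → ℂ, c' = fun k => Φ.φ (u k) := ⟨_, rfl⟩
  obtain ⟨g, hg⟩ : ∃ g : (J ⊕ J') → I → EuclideanSpace ℂ (Fin n) → ℂ,
    g = Sum.elim (fun i x z => F i.1 x z - c i.1) (fun k x z => u k.1 x z - c' k.1) := ⟨_, rfl⟩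
  have hg1 : ∀ i, g (Sum.inl i) = fun x z => F i.1 x z - c i.1 := fun i => by rw [hg]; rfl
  have hg2 : ∀ k, g (Sum.inr k) = fun x z => u k.1 x z - c' k.1 := fun k => by rw [hg]; rfl
  have hBg : ∀ y, BH (g y) := by
    rintro (i | k)
    · rw [hg1]; exact (hBF _).sub (BH.const _)
    · rw [hg2]; exact (hBu _).sub (BH.const _)
  have hΦg : ∀ y, Φ.φ (g y) = 0 := by
    rintro (i | k)
    · rw [hg1, Char.map_sub Φ (hBF _) (BH.const _), Φ.map_const, hc, sub_self]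
    · rw [hg2, Char.map_sub Φ (hBu _) (BH.const _), Φ.map_const, hc', sub_self]
  have hcon' : ∀ x : I, ∀ z ∈ ball (0 : EuclideanSpace ℂ (Fin n)) 1, ε ^ 2 ≤
      ∑ a : Fin N, ‖g (e.symm a) x z‖ ^ 2 := by
    intro x z hz
    obtain ⟨y, hy⟩ : ∃ y : J ⊕ J', ε ≤ ‖g y x z‖ := by
      by_cases h1 : ∀ i ∈ J, ‖F i x z - Φ.φ (F i)‖ < ε
      · obtain ⟨k, hk, h2⟩ := hcon x z hz h1
        exact ⟨Sum.inr ⟨k, hk⟩, by rw [hg2, hc']; exact h2⟩
      · push Not at h1
        obtain ⟨i, hi, h2⟩ := h1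
        exact ⟨Sum.inl ⟨i, hi⟩, by rw [hg1, hc]; exact h2⟩
    have h2 := Finset.single_le_sum (f := fun a : Fin N => ‖g (e.symm a) x z‖ ^ 2)
      (fun _ _ => by positivity) (Finset.mem_univ (e y))
    simp only [Equiv.symm_apply_apply] at h2
    exact (pow_le_pow_left₀ hε.le hy 2).trans h2
  obtain ⟨D, hD⟩ : ∃ D, ∀ y x, ∀ z ∈ ball (0 : EuclideanSpace ℂ (Fin n)) 1, ‖g y x z‖ ≤ D := by
    choose D' hD' using fun y => (hBg y).bdd
    exact ⟨∑ y, |D' y|, fun y x z hz => (hD' y x z hz).trans ((le_abs_self _).trans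
      (Finset.single_le_sum (f := fun y => |D' y|) (fun _ _ => abs_nonneg _)
        (Finset.mem_univ y)))⟩
  obtain ⟨C, hC⟩ := mg_main hn N (ε ^ 2) (by positivity)
    (fun a => ∃ k, e.symm a = Sum.inr k) (max D (∑ i ∈ J, (|M i| + ‖c i‖)))
    (∑ i ∈ J, |L i|) (max B₀ 0) q ω' hq1 hω'
    (fun a => Sum.elim (fun i : J => r i.1) (fun _ _ => 1) (e.symm a)) (by
      intro a z w
      rcases e.symm a with i | k
      · refine (hrL _ z w).trans (mul_le_mul_of_nonneg_right ?_ (norm_nonneg _))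
        refine (le_abs_self _).trans ?_
        exact Finset.single_le_sum (f := fun i => |L i|) (fun _ _ => abs_nonneg _) i.2
      · simp only [Sum.elim_inr, sub_self, abs_zero]
        exact mul_nonneg (Finset.sum_nonneg fun _ _ => abs_nonneg _) (norm_nonneg _)) (by
      intro a b hab
      have hab' : e.symm a ≠ e.symm b := fun h => hab (e.symm.injective h)
      revert hab'
      rcases e.symm a with i | k
      · rcases e.symm b with i' | k'
        · intro hab'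
          apply hap
          intro h
          exact hab' (by rw [Subtype.ext h])
        · exact fun _ => (apart_one (hr0 i.1)).2
      · rcases e.symm b with i' | k'
        · exact fun _ => (apart_one (hr0 i'.1)).1
        · exact fun _ => (apart_one fun _ => zero_le_one).1)
  have hsol : ∀ x : I, SolvableOn (fun (a : Fin N) z => g (e.symm a) x z) (ball 0 1) C := by
    intro x
    refine hC _ (fun a z => g (e.symm a) x z) (fun a => Sum.elim (fun _ _ => 0)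
      (fun k : J' => u k.1 x) (e.symm a)) (fun a => (hBg _).holo x)
      (fun a z hz => (hD _ x z hz).trans (le_max_left _ _)) ?_ ?_ (hcon' x)
    · intro a ha
      rcases hea : e.symm a with i | k
      · simp only [Sum.elim_inl]
        refine ⟨?_, fun z hz => ?_, fun z _ => trivial⟩
        · rw [hg1]
          exact (hF _ x).sub_const _
        · rw [hg1]
          refine (norm_sub_le _ _).trans (le_trans (add_le_add ((hFM _ x z hz).trans
            (le_abs_self _)) le_rfl) ((Finset.single_le_sum (f := fun i => |M i| + ‖c i‖)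
            (fun _ _ => by positivity) i.2).trans (le_max_right _ _)))
      · exact absurd ⟨k, hea⟩ ha
    · rintro a ⟨k, hk⟩
      simp only [hk, Sum.elim_inr]
      refine ⟨hB k.1 k.2 _ ((hB₀ k.1 k.2).trans (le_max_left _ _)) _ (hu k.1 x), c' k.1,
        fun z _ => ?_⟩
      rw [hg2]
  choose h hh hhC hsum using hsol
  have hBh : ∀ a, BH (fun x => h x a) := fun a => ⟨fun x => hh x a, C, fun x z hz => hhC x a z hz⟩
  have h1 : Φ.φ (fun x z => ∑ a ∈ Finset.univ, g (e.symm a) x z * h x a z) = 0 := by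
    rw [Char.map_sum Φ fun a _ => (hBg (e.symm a)).mul (hBh a)]
    apply Finset.sum_eq_zero
    intro a _
    rw [Φ.map_mul (hBg _) (hBh a), hΦg, zero_mul]
  have h2 : Φ.φ (fun x z => ∑ a ∈ Finset.univ, g (e.symm a) x z * h x a z) = 1 := by
    rw [Char.congr Φ (BH.const (I := I) (E := EuclideanSpace ℂ (Fin n)) 1)
      (fun x z hz => hsum x z hz), Φ.map_const]
  rw [h1] at h2
  exact zero_ne_one h2

/-- The corona theorem, with bounds, for data which are close to polynomials in generators and in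
arbitrary bounded functions on larger domains which are apart. -/
theorem mg_alg (hn : 2 ≤ n) (N : ℕ) (δ : ℝ) (hδ : 0 < δ) :
    ∃ η : ℝ, 0 < η ∧ ∀ {ι κ : Type*} (r : ι → EuclideanSpace ℂ (Fin n) → ℝ) (L M : ι → ℝ)
      (K p : κ → ℝ) (ω : κ → ℝ → ℝ) (P : Fin N → MvPolynomial (ι ⊕ κ) ℂ),
      (∀ i z w, |r i z - r i w| ≤ L i * ‖z - w‖) → (∀ i j, i ≠ j → Apart (r i) (r j)) →
      (∀ k, 1 ≤ p k) → (∀ k, Rate (ω k)) →
      ∃ C : ℝ, ∀ (f : Fin N → EuclideanSpace ℂ (Fin n) → ℂ)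
        (F : ι → EuclideanSpace ℂ (Fin n) → ℂ) (u : κ → EuclideanSpace ℂ (Fin n) → ℂ),
        (∀ j, DifferentiableOn ℂ (f j) (ball 0 1)) →
        (∀ i, DifferentiableOn ℂ (F i) (dom (r i))) →
        (∀ i, ∀ z ∈ dom (r i), ‖F i z‖ ≤ M i) →
        (∀ k, Gen6 (K k) (p k) (ω k) (u k)) →
        (∀ j, ∀ z ∈ ball (0 : EuclideanSpace ℂ (Fin n)) 1,
          ‖f j z - MvPolynomial.eval (Sum.elim (fun i => F i z) fun k => u k z) (P j)‖ ≤ η) →
        (∀ z ∈ ball (0 : EuclideanSpace ℂ (Fin n)) 1, δ ≤ ∑ j, ‖f j z‖ ^ 2) →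
        SolvableOn f (ball 0 1) C := by
  classical
  obtain ⟨η, hη⟩ : ∃ η, η = Real.sqrt (δ / (9 * (N + 1))) := ⟨_, rfl⟩
  have hη0 : 0 < η := by rw [hη]; exact Real.sqrt_pos.2 (by positivity)
  have hηδ : η ^ 2 * (9 * (N + 1)) = δ := by
    rw [hη, Real.sq_sqrt (by positivity)]
    field_simp
  refine ⟨η, hη0, ?_⟩
  intro ι κ r₀ L M K p ω P hrL₀ hap₀ hp hω
  -- non-negative radii
  obtain ⟨r, hr⟩ : ∃ r : ι → EuclideanSpace ℂ (Fin n) → ℝ, r = fun i z => |r₀ i z| := ⟨_, rfl⟩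
  have hr0 : ∀ i z, 0 ≤ r i z := fun i z => by rw [hr]; exact abs_nonneg _
  have hrL : ∀ i z w, |r i z - r i w| ≤ L i * ‖z - w‖ := by
    intro i z w
    rw [hr]
    exact (abs_abs_sub_abs_le_abs_sub _ _).trans (hrL₀ i z w)
  have hap : ∀ i j, i ≠ j → Apart (r i) (r j) := by
    intro i j hij
    obtain ⟨c, X, h2, h3, h4⟩ := hap₀ i j hij
    refine ⟨c, X, h2, h3, fun z hz => ?_⟩
    obtain ⟨x, hx, t, ht⟩ := h4 z hz
    rw [hr]
    exact ⟨x, hx, t, ht.trans (add_le_add (le_abs_self _) (le_abs_self _))⟩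
  have hdom : ∀ i, dom (r₀ i) = dom (r i) := by
    intro i
    rw [hr]
    ext z
    simp only [dom, mem_setOf_eq, sq_abs]
  choose A hA using fun k => gen6_bdd_unif (n := n) (K k) (hp k)
  -- a bound for the polynomials
  have hPb : ∀ j, ∃ B : ℝ, ∀ y : ι ⊕ κ → ℂ, (∀ i, ‖y i‖ ≤ Sum.elim M A i) →
      ‖MvPolynomial.eval y (P j)‖ ≤ B := by
    intro j
    refine ⟨∑ d ∈ (P j).support, ‖(P j).coeff d‖ * ∏ i ∈ d.support, (Sum.elim M A i) ^ d i, ?_⟩
    intro y hy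
    rw [MvPolynomial.eval_eq]
    refine (norm_sum_le _ _).trans (Finset.sum_le_sum fun d _ => ?_)
    rw [norm_mul, norm_prod]
    apply mul_le_mul_of_nonneg_left _ (norm_nonneg _)
    apply Finset.prod_le_prod (fun _ _ => norm_nonneg _)
    intro i _
    rw [norm_pow]
    exact pow_le_pow_left₀ (norm_nonneg _) (hy i) _
  choose B hB using hPb
  -- the family of all data
  set I := {x : (Fin N → EuclideanSpace ℂ (Fin n) → ℂ) × (ι → EuclideanSpace ℂ (Fin n) → ℂ) ×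
      (κ → EuclideanSpace ℂ (Fin n) → ℂ) //
    (∀ j, DifferentiableOn ℂ (x.1 j) (ball 0 1)) ∧
    (∀ i, DifferentiableOn ℂ (x.2.1 i) (dom (r i))) ∧
    (∀ i, ∀ z ∈ dom (r i), ‖x.2.1 i z‖ ≤ M i) ∧
    (∀ k, Gen6 (K k) (p k) (ω k) (x.2.2 k)) ∧
    (∀ j, ∀ z ∈ ball (0 : EuclideanSpace ℂ (Fin n)) 1, ‖x.1 j z -
      MvPolynomial.eval (Sum.elim (fun i => x.2.1 i z) fun k => x.2.2 k z) (P j)‖ ≤ η) ∧
    (∀ z ∈ ball (0 : EuclideanSpace ℂ (Fin n)) 1, δ ≤ ∑ j, ‖x.1 j z‖ ^ 2)} with hI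
  obtain ⟨f', hf'⟩ : ∃ f' : Fin N → I → EuclideanSpace ℂ (Fin n) → ℂ,
    f' = fun j x => x.1.1 j := ⟨_, rfl⟩
  obtain ⟨F', hF'⟩ : ∃ F' : ι → I → EuclideanSpace ℂ (Fin n) → ℂ,
    F' = fun i x => x.1.2.1 i := ⟨_, rfl⟩
  obtain ⟨u', hu'⟩ : ∃ u' : κ → I → EuclideanSpace ℂ (Fin n) → ℂ,
    u' = fun k x => x.1.2.2 k := ⟨_, rfl⟩
  obtain ⟨G', hG'⟩ : ∃ G' : (ι ⊕ κ) → I → EuclideanSpace ℂ (Fin n) → ℂ,
    G' = Sum.elim F' u' := ⟨_, rfl⟩
  have hG'e : ∀ x z, (fun y => G' y x z) =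
      Sum.elim (fun i => x.1.2.1 i z) fun k => x.1.2.2 k z := by
    intro x z
    rw [hG', hF', hu']
    funext y
    rcases y with i | k <;> rfl
  have hBf : ∀ j, BH (f' j) := by
    intro j
    refine ⟨fun x => ?_, η + B j, fun x z hz => ?_⟩
    · rw [hf']; exact x.2.1 j
    · rw [hf']
      have h1 := x.2.2.2.2.2.1 j z hz
      have h2 := hB j (Sum.elim (fun i => x.1.2.1 i z) fun k => x.1.2.2 k z) (by
        rintro (i | k)
        · exact x.2.2.2.1 i z (ball_subset_dom _ hz)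
        · exact (hA k _ _ (x.2.2.2.2.1 k)).2 z hz)
      calc ‖x.1.1 j z‖ = ‖(x.1.1 j z - MvPolynomial.eval
            (Sum.elim (fun i => x.1.2.1 i z) fun k => x.1.2.2 k z) (P j)) +
            MvPolynomial.eval (Sum.elim (fun i => x.1.2.1 i z) fun k => x.1.2.2 k z) (P j)‖ := by
              congr 1; ring
        _ ≤ _ := norm_add_le _ _
        _ ≤ _ := add_le_add h1 h2
  have hBG : ∀ y, BH (G' y) := by
    rintro (i | k)
    · rw [hG', hF']
      exact ⟨fun x => (x.2.2.1 i).mono (ball_subset_dom _), M i,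
        fun x z hz => x.2.2.2.1 i z (ball_subset_dom _ hz)⟩
    · rw [hG', hu']
      exact ⟨fun x => (hA k _ _ (x.2.2.2.2.1 k)).1, A k,
        fun x z hz => (hA k _ _ (x.2.2.2.2.1 k)).2 z hz⟩
  obtain ⟨G, hG, hs⟩ := unimod_of_chars hBf (by
    intro Φ
    by_contra hcon
    push Not at hcon
    obtain ⟨c, hc⟩ : ∃ c : ι ⊕ κ → ℂ, c = fun y => Φ.φ (G' y) := ⟨_, rfl⟩
    -- the neighbourhood of the cluster value
    obtain ⟨W, hW⟩ : ∃ W : Set (ι ⊕ κ → ℂ), W = {y | ∀ j, ‖MvPolynomial.eval y (P j) -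
      MvPolynomial.eval c (P j)‖ < η} := ⟨_, rfl⟩
    have hWn : W ∈ 𝓝 c := by
      have h1 : W = ⋂ j, {y | ‖MvPolynomial.eval y (P j) - MvPolynomial.eval c (P j)‖ < η} := by
        rw [hW]
        ext y
        simp
      rw [h1]
      refine (isOpen_iInter_of_finite fun j => ?_).mem_nhds ?_
      · exact isOpen_lt (((MvPolynomial.continuous_eval (P j)).sub continuous_const).norm)
          continuous_const
      · rw [mem_iInter]
        intro j
        show ‖MvPolynomial.eval c (P j) - MvPolynomial.eval c (P j)‖ < η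
        rw [sub_self, norm_zero]
        exact hη0
    rw [nhds_pi, Filter.mem_pi] at hWn
    obtain ⟨J, hJ, t, ht, hJW⟩ := hWn
    obtain ⟨ε, hε0, hε⟩ : ∃ ε : ℝ, 0 < ε ∧ ∀ i ∈ J, ball (c i) ε ⊆ t i := by
      have h1 : ∀ i, ∃ ε : ℝ, 0 < ε ∧ ball (c i) ε ⊆ t i := fun i => Metric.mem_nhds_iff.1 (ht i)
      have : Finite J := hJ
      obtain ⟨ε, h2, _, h3⟩ := fin_pos (ι := J) (P := fun i ε => ball (c i.1) ε ⊆ t i.1)
        (fun i κ κ' _ h4 h5 => (ball_subset_ball h4).trans h5) (fun i => h1 i.1)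
      exact ⟨ε, h2, fun i hi => h3 ⟨i, hi⟩⟩
    obtain ⟨x, z, hz, hxF, hxu⟩ := cluster6 hn Φ r L M hr0 hrL hap K p ω hp hω F'
      (fun i x => by rw [hF']; exact x.2.2.1 i) (fun i x z hz => by
        rw [hF']; exact x.2.2.2.1 i z hz) u' (fun k x => by rw [hu']; exact x.2.2.2.2.1 k)
      (hJ.toFinset.preimage Sum.inl (Sum.inl_injective.injOn))
      (hJ.toFinset.preimage Sum.inr (Sum.inr_injective.injOn)) hε0
    have hy : (Sum.elim (fun i => x.1.2.1 i z) fun k => x.1.2.2 k z) ∈ W := by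
      apply hJW
      rintro (i | k) hi
      · apply hε _ hi
        rw [mem_ball, dist_eq_norm, hc, hG', Sum.elim_inl]
        have := hxF i (by rw [Finset.mem_preimage]; exact hJ.mem_toFinset.2 hi)
        simp only [Sum.elim_inl]
        rw [hF'] at this ⊢
        exact this
      · apply hε _ hi
        rw [mem_ball, dist_eq_norm, hc, hG', Sum.elim_inr]
        have := hxu k (by rw [Finset.mem_preimage]; exact hJ.mem_toFinset.2 hi)
        simp only [Sum.elim_inr]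
        rw [hu'] at this ⊢
        exact this
    rw [hW] at hy
    have h3 : ∀ j, ‖MvPolynomial.eval c (P j)‖ ≤ η := by
      intro j
      obtain ⟨h4, h5⟩ := char_eval Φ hBG (P j)
      have h6 : Φ.φ (fun x z => f' j x z - MvPolynomial.eval (fun i => G' i x z) (P j)) =
          - MvPolynomial.eval c (P j) := by
        rw [Char.map_sub Φ (hBf j) h4, hcon j, h5, hc, zero_sub]
      rw [← norm_neg, ← h6]
      refine Φ.bound ((hBf j).sub h4) hη0.le ?_
      intro x z hz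
      rw [hG'e, hf']
      exact x.2.2.2.2.2.1 j z hz
    have h4 : ∀ j, ‖x.1.1 j z‖ ≤ 3 * η := by
      intro j
      have e1 : x.1.1 j z = (x.1.1 j z - MvPolynomial.eval
          (Sum.elim (fun i => x.1.2.1 i z) fun k => x.1.2.2 k z) (P j)) +
          (MvPolynomial.eval (Sum.elim (fun i => x.1.2.1 i z) fun k => x.1.2.2 k z) (P j) -
            MvPolynomial.eval c (P j)) + MvPolynomial.eval c (P j) := by ring
      rw [e1]
      refine (norm_add_le _ _).trans ?_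
      have e2 := norm_add_le (x.1.1 j z - MvPolynomial.eval
          (Sum.elim (fun i => x.1.2.1 i z) fun k => x.1.2.2 k z) (P j))
        (MvPolynomial.eval (Sum.elim (fun i => x.1.2.1 i z) fun k => x.1.2.2 k z) (P j) -
          MvPolynomial.eval c (P j))
      have e3 := x.2.2.2.2.2.1 j z hz
      have e4 := (hy j).le
      have e5 := h3 j
      linarith
    have h5 := x.2.2.2.2.2.2 z hz
    have h6 : ∑ j, ‖x.1.1 j z‖ ^ 2 ≤ N * (9 * η ^ 2) := by
      calc ∑ j, ‖x.1.1 j z‖ ^ 2 ≤ ∑ _j : Fin N, 9 * η ^ 2 := by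
            apply Finset.sum_le_sum
            intro j _
            calc ‖x.1.1 j z‖ ^ 2 ≤ (3 * η) ^ 2 := pow_le_pow_left₀ (norm_nonneg _) (h4 j) 2
              _ = _ := by ring
        _ = _ := by rw [Finset.sum_const, nsmul_eq_mul, Finset.card_univ, Fintype.card_fin]
    have h7 : 0 < η ^ 2 := by positivity
    nlinarith)
  choose D hD using fun j => (hG j).bdd
  refine ⟨∑ j, |D j|, ?_⟩
  intro f F u h1 h2 h3 h4 h5 h6
  obtain ⟨x, hx⟩ : ∃ x : I, x = ⟨(f, F, u), h1, fun i => by rw [← hdom]; exact h2 i,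
    fun i z hz => h3 i z (by rw [hdom]; exact hz), h4, h5, h6⟩ := ⟨_, rfl⟩
  refine ⟨fun j => G j x, fun j => (hG j).holo _, ?_, ?_⟩
  · intro j z hz
    refine (hD j _ z hz).trans ((le_abs_self _).trans ?_)
    exact Finset.single_le_sum (f := fun j => |D j|) (fun k _ => abs_nonneg _) (Finset.mem_univ j)
  · intro z hz
    have h7 := hs x z hz
    rw [hf', hx] at h7
    rw [hx]
    exact h7

end Pool.Agent.MPca0fc2.MG
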