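import Mathlib
import Pool.Agent.Lib.MP_ca0fc2_an.Mg.G008
import Pool.Agent.Lib.MP_ca0fc2_an.LTDefs

/-! The tame functions: the generators of the tame algebra. -/

set_option autoImplicit false

open Metric Set MeasureTheory

namespace Pool.Agent.Lib.MP_ca0fc2_an

/-- The tame functions on the unit ball of `ℂⁿ`, with the constants `K`, `p` and `ω`: the invariant
gradient of `u` satisfies a Carleson condition, with the exponent `p`, after a smooth map of balls
(`PullCarleson`); or `u` is a slow function; or `u` is bounded by `K` and is tame with respect to a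
complex line. -/
def TameGen {n : ℕ} (K p : ℝ) (ω : ℝ → ℝ) (u : EuclideanSpace ℂ (Fin n) → ℂ) : Prop :=
  PullCarleson p K u ∨ Slow K ω u ∨
    ((∀ z ∈ ball (0 : EuclideanSpace ℂ (Fin n)) 1, ‖u z‖ ≤ K) ∧ LineTame K u)

/-- All tame functions. -/
def TameGens (n : ℕ) : Set (EuclideanSpace ℂ (Fin n) → ℂ) :=
  {u | ∃ (K p : ℝ) (ω : ℝ → ℝ), 1 ≤ p ∧ Rate ω ∧ TameGen K p ω u}

/-- The tame algebra: the closed subalgebra of `H^∞` of the unit ball generated by all tame
functions. -/
def TameAlg (n : ℕ) : Set (EuclideanSpace ℂ (Fin n) → ℂ) := ClosedAlg (TameGens n)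

end Pool.Agent.Lib.MP_ca0fc2_an
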