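import Mathlib
import Pool.Agent.Lib.MP_ca0fc2_an.TGDefs
import Pool.Agent.Lib.MP_ca0fc2_an.MGAlg
import Pool.Agent.Lib.MP_ca0fc2_an.CPGUnif

/-! The theorems for the tame algebra. -/

set_option autoImplicit false

open Metric Set MeasureTheory Filter Topology
open scoped InnerProductSpace

namespace Pool.Agent.MPca0fc2.TG

open Pool.Agent.Lib.MP_ca0fc2_an
open Pool.Agent.MPca0fc2.CP
open Pool.Agent.MPca0fc2.SG (LocAlg rate_id)

variable {n : ℕ}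

theorem gen6_of_tame {K p : ℝ} {ω : ℝ → ℝ} {u : EuclideanSpace ℂ (Fin n) → ℂ}
    (h : TameGen K p ω u) : Gen6 K p ω u := by
  rcases h with h | h | h
  · exact Or.inl (Or.inr (Or.inl h))
  · exact Or.inl (Or.inr (Or.inr h))
  · exact Or.inr h

theorem pull_congr {p K : ℝ} {u v : EuclideanSpace ℂ (Fin n) → ℂ} (h : PullCarleson p K v)
    (huv : ∀ z ∈ ball (0 : EuclideanSpace ℂ (Fin n)) 1, u z = v z) : PullCarleson p K u := by
  obtain ⟨h1, h2, k, Q, ν, hQ, hν, hg⟩ := h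
  refine ⟨h1.congr huv, fun z hz => by rw [huv z hz]; exact h2 z hz, k, Q, ν, hQ, hν,
    fun z hz => ?_⟩
  have h3 : u =ᶠ[𝓝 z] v := by
    filter_upwards [isOpen_ball.mem_nhds hz] with w hw
    exact huv w hw
  have h4 : invGrad2 u z = invGrad2 v z := by
    unfold invGrad2
    rw [h3.fderiv_eq]
  rw [h4]
  exact hg z hz

/-- compositions of multipliers and of functions with Carleson gradients with smooth maps are
tame -/
theorem pull_of_comp (K : ℝ) {p : ℝ} (hp : 1 ≤ p) {u : EuclideanSpace ℂ (Fin n) → ℂ}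
    (h : CompMult K p u) : ∃ p' K' : ℝ, 1 ≤ p' ∧ PullCarleson p' K' u := by
  obtain ⟨k, Q, v, -, -, hQ, hv, huv⟩ := h
  obtain ⟨p', K', hp', h1⟩ := comp_pull (n := n) (k := k) K hp
  exact ⟨p', K', hp', pull_congr (h1 Q v hQ hv) huv⟩

theorem gens6_eq : Gens6 n = TameGens n := by
  ext u
  constructor
  · rintro ⟨K, p, ω, hp, hω, (h | h | h) | h⟩
    · obtain ⟨p', K', hp', h1⟩ := pull_of_comp K hp h
      exact ⟨K', p', ω, hp', hω, Or.inl h1⟩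
    · exact ⟨K, p, ω, hp, hω, Or.inl h⟩
    · exact ⟨K, p, ω, hp, hω, Or.inr (Or.inl h)⟩
    · exact ⟨K, p, ω, hp, hω, Or.inr (Or.inr h)⟩
  · rintro ⟨K, p, ω, hp, hω, h⟩
    exact ⟨K, p, ω, hp, hω, gen6_of_tame h⟩

theorem alg6_eq : Alg6 n = TameAlg n := by
  unfold Alg6 TameAlg
  rw [gens6_eq]

/-- The corona problem is local with respect to the tame algebra. -/
theorem locTame (hn : 2 ≤ n) : LocAlg (TameAlg n) := by
  rw [← alg6_eq]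
  exact locAlg6 hn

/-- Localization to the cells of tame functions. -/
theorem tame_cells (hn : 2 ≤ n) (N d : ℕ) {M C₁ ρ₀ K p : ℝ} (ω : ℝ → ℝ) (hρ : 0 < ρ₀)
    (hp : 1 ≤ p) (hω : Rate ω) :
    ∃ C, ∀ (f : Fin N → EuclideanSpace ℂ (Fin n) → ℂ)
      (u : Fin d → EuclideanSpace ℂ (Fin n) → ℂ),
      (∀ j, DifferentiableOn ℂ (f j) (ball 0 1)) →
      (∀ j, ∀ z ∈ ball (0 : EuclideanSpace ℂ (Fin n)) 1, ‖f j z‖ ≤ M) →
      (∀ i, TameGen K p ω (u i)) →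
      (∀ c : Fin d → ℂ, SolvableOn f {z | z ∈ ball 0 1 ∧ ∀ i, ‖u i z - c i‖ < ρ₀} C₁) →
      SolvableOn f (ball 0 1) C := by
  obtain ⟨C, hC⟩ := T_gen6 hn N d (M := M) (C₁ := C₁) (K := K) ω hρ hp hω
  exact ⟨C, fun f u hf hfM hu hs => hC f u hf hfM (fun i => gen6_of_tame (hu i)) hs⟩

/-- Localization near the boundary points and over the values of finitely many tame functions,
with bounds. -/
theorem tame_loc (hn : 2 ≤ n) (N : ℕ) (M δ : ℝ) (hδ : 0 < δ)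
    (k : EuclideanSpace ℂ (Fin n) → ℕ) (ρ K p C : EuclideanSpace ℂ (Fin n) → ℝ)
    (ω : EuclideanSpace ℂ (Fin n) → ℝ → ℝ) (hρ : ∀ l, 0 < ρ l) (hp : ∀ l, 1 ≤ p l)
    (hω : ∀ l, Rate (ω l)) :
    ∃ C' : ℝ, ∀ f : Fin N → EuclideanSpace ℂ (Fin n) → ℂ,
      (∀ j, DifferentiableOn ℂ (f j) (ball 0 1)) →
      (∀ j, ∀ z ∈ ball (0 : EuclideanSpace ℂ (Fin n)) 1, ‖f j z‖ ≤ M) →
      (∀ z ∈ ball (0 : EuclideanSpace ℂ (Fin n)) 1, δ ≤ ∑ j, ‖f j z‖ ^ 2) →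
      (∀ l ∈ sphere (0 : EuclideanSpace ℂ (Fin n)) 1,
        ∃ u : Fin (k l) → EuclideanSpace ℂ (Fin n) → ℂ, (∀ i, TameGen (K l) (p l) (ω l) (u i)) ∧
        ∀ c : Fin (k l) → ℂ, SolvableOn f
          {z | z ∈ ball (0 : EuclideanSpace ℂ (Fin n)) 1 ∩ ball l (ρ l) ∧
            ∀ i, ‖u i z - c i‖ < ρ l} (C l)) →
      SolvableOn f (ball 0 1) C' := by
  obtain ⟨C', hC'⟩ := gen_loc6 hn N M δ hδ k ρ K p C ω hρ hp (fun l => (hω l).1)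
    (fun l => (hω l).2)
  refine ⟨C', fun f hf hfM hfδ h => hC' f hf hfM hfδ fun l hl => ?_⟩
  obtain ⟨u, hu, h1⟩ := h l hl
  exact ⟨u, fun i => gen6_of_tame (hu i), h1⟩

/-- The corona theorem for data which on each cell of tame functions are nearly polynomials in one
function. -/
theorem tame_poly (hn : 2 ≤ n) (N d : ℕ) (M δ : ℝ) (hδ : 0 < δ) :
    ∃ η : ℝ, 0 < η ∧ ∀ (k : EuclideanSpace ℂ (Fin n) → ℕ)
      (ρ K p : EuclideanSpace ℂ (Fin n) → ℝ) (ω : EuclideanSpace ℂ (Fin n) → ℝ → ℝ),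
    (∀ l, 0 < ρ l) → (∀ l, 1 ≤ p l) → (∀ l, Rate (ω l)) →
    ∃ C' : ℝ, ∀ f : Fin N → EuclideanSpace ℂ (Fin n) → ℂ,
      (∀ j, DifferentiableOn ℂ (f j) (ball 0 1)) →
      (∀ j, ∀ z ∈ ball (0 : EuclideanSpace ℂ (Fin n)) 1, ‖f j z‖ ≤ M) →
      (∀ z ∈ ball (0 : EuclideanSpace ℂ (Fin n)) 1, δ ≤ ∑ j, ‖f j z‖ ^ 2) →
      (∀ l ∈ sphere (0 : EuclideanSpace ℂ (Fin n)) 1,
        ∃ u : Fin (k l) → EuclideanSpace ℂ (Fin n) → ℂ, (∀ i, TameGen (K l) (p l) (ω l) (u i)) ∧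
        ∀ c : Fin (k l) → ℂ, NearlyOneDim f
          {z | z ∈ ball (0 : EuclideanSpace ℂ (Fin n)) 1 ∩ ball l (ρ l) ∧
            ∀ i, ‖u i z - c i‖ < ρ l} d M η) →
      SolvableOn f (ball 0 1) C' := by
  obtain ⟨η, hη, h⟩ := gen_poly6 hn N d M δ hδ
  refine ⟨η, hη, fun k ρ K p ω hρ hp hω => ?_⟩
  obtain ⟨C', hC'⟩ := h k ρ K p ω hρ hp (fun l => (hω l).1) (fun l => (hω l).2)
  refine ⟨C', fun f hf hfM hfδ h => hC' f hf hfM hfδ fun l hl => ?_⟩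
  obtain ⟨u, hu, h1⟩ := h l hl
  exact ⟨u, fun i => gen6_of_tame (hu i), h1⟩

end Pool.Agent.MPca0fc2.TG
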