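import Mathlib
import Pool.Agent.Lib.MP_ca0fc2_an.TGMain

/-! Localization to the connected components of the cells of tame functions. -/

set_option autoImplicit false

open Metric Set MeasureTheory Filter Topology
open scoped InnerProductSpace

namespace Pool.Agent.MPca0fc2.TG

open Pool.Agent.Lib.MP_ca0fc2_an
open Pool.Agent.MPca0fc2.CP

/-- The corona problem on an open set splits into the problems on its connected components. -/
theorem solv_components {E : Type*} [NormedAddCommGroup E] [InnerProductSpace ℂ E]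
    [LocallyConnectedSpace E] {N : ℕ} {f : Fin N → E → ℂ} {D : Set E} (hD : IsOpen D) {C : ℝ}
    (h : ∀ x ∈ D, SolvableOn f (connectedComponentIn D x) C) : SolvableOn f D C := by
  classical
  have h1 : ∀ W : Set E, ∃ g : Fin N → E → ℂ, SolvableOn f W C →
      (∀ j, DifferentiableOn ℂ (g j) W) ∧ (∀ j, ∀ z ∈ W, ‖g j z‖ ≤ C) ∧
        ∀ z ∈ W, ∑ j, f j z * g j z = 1 := by
    intro W
    by_cases hW : SolvableOn f W C
    · obtain ⟨g, hg⟩ := hW
      exact ⟨g, fun _ => hg⟩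
    · exact ⟨fun _ _ => 0, fun h => absurd h hW⟩
  choose g hg using h1
  refine ⟨fun j z => g (connectedComponentIn D z) j z, ?_, ?_, ?_⟩
  · intro j z hz
    have hopen : IsOpen (connectedComponentIn D z) := hD.connectedComponentIn
    have hzz : z ∈ connectedComponentIn D z := mem_connectedComponentIn hz
    have h2 := (hg _ (h z hz)).1 j
    have h3 : DifferentiableAt ℂ (g (connectedComponentIn D z) j) z :=
      h2.differentiableAt (hopen.mem_nhds hzz)
    refine DifferentiableAt.differentiableWithinAt (h3.congr_of_eventuallyEq ?_)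
    filter_upwards [hopen.mem_nhds hzz] with w hw
    rw [connectedComponentIn_eq hw]
  · intro j z hz
    exact (hg _ (h z hz)).2.1 j z (mem_connectedComponentIn hz)
  · intro z hz
    exact (hg _ (h z hz)).2.2 z (mem_connectedComponentIn hz)

variable {n : ℕ}

theorem tame_diff {K p : ℝ} {ω : ℝ → ℝ} (hp : 1 ≤ p) {u : EuclideanSpace ℂ (Fin n) → ℂ}
    (h : TameGen K p ω u) : DifferentiableOn ℂ u (ball 0 1) :=
  gens6_hol hp (gen6_of_tame h)

/-- The cells of tame functions are open. -/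
theorem cell_open {K p : ℝ} {ω : ℝ → ℝ} (hp : 1 ≤ p) {k : ℕ} {ρ : ℝ}
    {l : EuclideanSpace ℂ (Fin n)} {u : Fin k → EuclideanSpace ℂ (Fin n) → ℂ}
    (hu : ∀ i, TameGen K p ω (u i)) (c : Fin k → ℂ) :
    IsOpen {z | z ∈ ball (0 : EuclideanSpace ℂ (Fin n)) 1 ∩ ball l ρ ∧
      ∀ i, ‖u i z - c i‖ < ρ} := by
  have h1 : {z | z ∈ ball (0 : EuclideanSpace ℂ (Fin n)) 1 ∩ ball l ρ ∧
      ∀ i, ‖u i z - c i‖ < ρ} = ball l ρ ∩ ((ball (0 : EuclideanSpace ℂ (Fin n)) 1) ∩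
        ⋂ i, (ball (0 : EuclideanSpace ℂ (Fin n)) 1 ∩ {z | ‖u i z - c i‖ < ρ})) := by
    ext z
    simp only [mem_ofPred_eq, mem_inter_iff, mem_iInter]
    constructor
    · rintro ⟨⟨h2, h3⟩, h4⟩
      exact ⟨h3, h2, fun i => ⟨h2, h4 i⟩⟩
    · rintro ⟨h3, h2, h4⟩
      exact ⟨⟨h2, h3⟩, fun i => (h4 i).2⟩
  rw [h1]
  refine isOpen_ball.inter (isOpen_ball.inter (isOpen_iInter_of_finite fun i => ?_))
  have h2 : ContinuousOn (fun z => ‖u i z - c i‖) (ball (0 : EuclideanSpace ℂ (Fin n)) 1) :=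
    ((tame_diff hp (hu i)).continuousOn.sub continuousOn_const).norm
  exact h2.isOpen_inter_preimage isOpen_ball isOpen_Iio

/-- The corona theorem for data which on each connected component of each cell of tame functions
are nearly polynomials in one function. -/
theorem tame_components (hn : 2 ≤ n) (N d : ℕ) (M δ : ℝ) (hδ : 0 < δ) :
    ∃ η : ℝ, 0 < η ∧ ∀ (k : EuclideanSpace ℂ (Fin n) → ℕ)
      (ρ K p : EuclideanSpace ℂ (Fin n) → ℝ) (ω : EuclideanSpace ℂ (Fin n) → ℝ → ℝ),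
    (∀ l, 0 < ρ l) → (∀ l, 1 ≤ p l) → (∀ l, Rate (ω l)) →
    ∃ C' : ℝ, ∀ f : Fin N → EuclideanSpace ℂ (Fin n) → ℂ,
      (∀ j, DifferentiableOn ℂ (f j) (ball 0 1)) →
      (∀ j, ∀ z ∈ ball (0 : EuclideanSpace ℂ (Fin n)) 1, ‖f j z‖ ≤ M) →
      (∀ z ∈ ball (0 : EuclideanSpace ℂ (Fin n)) 1, δ ≤ ∑ j, ‖f j z‖ ^ 2) →
      (∀ l ∈ sphere (0 : EuclideanSpace ℂ (Fin n)) 1,
        ∃ u : Fin (k l) → EuclideanSpace ℂ (Fin n) → ℂ,
          (∀ i, TameGen (K l) (p l) (ω l) (u i)) ∧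
        ∀ c : Fin (k l) → ℂ, ∀ x : EuclideanSpace ℂ (Fin n), NearlyOneDim f
          (connectedComponentIn {z | z ∈ ball (0 : EuclideanSpace ℂ (Fin n)) 1 ∩ ball l (ρ l) ∧
            ∀ i, ‖u i z - c i‖ < ρ l} x) d M η) →
      SolvableOn f (ball 0 1) C' := by
  obtain ⟨η, hη, C, hC⟩ := SK.piece_poly (E := EuclideanSpace ℂ (Fin n)) N d M δ hδ
  refine ⟨η, hη, fun k ρ K p ω hρ hp hω => ?_⟩
  obtain ⟨C', hC'⟩ := tame_loc hn N M δ hδ k ρ K p (fun _ => C) ω hρ hp hω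
  refine ⟨C', fun f hf hfM hfδ hfl => hC' f hf hfM hfδ fun l hl => ?_⟩
  obtain ⟨u, hu, h⟩ := hfl l hl
  refine ⟨u, hu, fun c => solv_components (cell_open (hp l) hu c) fun x hx => ?_⟩
  have hsub := connectedComponentIn_subset {z | z ∈ ball (0 : EuclideanSpace ℂ (Fin n)) 1 ∩
    ball l (ρ l) ∧ ∀ i, ‖u i z - c i‖ < ρ l} x
  exact hC f _ (fun j => (hf j).mono fun z hz => (hsub hz).1.1)
    (fun z hz => hfδ z (hsub hz).1.1) (h c x)

end Pool.Agent.MPca0fc2.TG
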