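import Mathlib
import Pool.Agent.Lib.MP_ca0fc2_an.TGDefs
import Pool.Agent.Lib.MP_ca0fc2_an.SGHDefs

/-! The functions which are nearly constant on the connected components of the cells of tame
functions. -/

set_option autoImplicit false

open Metric Set

namespace Pool.Agent.Lib.MP_ca0fc2_an

/-- The cell of the functions `u i` with the centres `c i` and the radius `ρ`: all the points `z` of
the unit ball with `|u_i (z) - c_i| < ρ` for all `i`. -/
def cell {n k : ℕ} (u : Fin k → EuclideanSpace ℂ (Fin n) → ℂ) (c : Fin k → ℂ) (ρ : ℝ) :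
    Set (EuclideanSpace ℂ (Fin n)) :=
  {z | z ∈ ball 0 1 ∧ ∀ i, ‖u i z - c i‖ < ρ}

/-- The algebra of the functions `g` in `H^∞` of the unit ball of `ℂⁿ` with the following property:
for every `ε > 0` there are finitely many tame functions `u i` and `ρ > 0` such that `g` varies at
most by `ε` on each connected component of each cell of radius `ρ` of the functions `u i`. It
contains the tame algebra, and all the roots in `H^∞` of the ball of the monic polynomials whose
coefficients belong to it. -/
def TameComp (n : ℕ) : Set (EuclideanSpace ℂ (Fin n) → ℂ) :=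
  {g | IsHinf (ball 0 1) g ∧ ∀ ε : ℝ, 0 < ε →
    ∃ (k : ℕ) (u : Fin k → EuclideanSpace ℂ (Fin n) → ℂ) (ρ : ℝ), 0 < ρ ∧
      (∀ i, u i ∈ TameGens n) ∧ ∀ (c : Fin k → ℂ) (x : EuclideanSpace ℂ (Fin n)),
        ∀ z ∈ connectedComponentIn (cell u c ρ) x, ∀ w ∈ connectedComponentIn (cell u c ρ) x,
          ‖g z - g w‖ ≤ ε}

end Pool.Agent.Lib.MP_ca0fc2_an
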