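import Mathlib
import Pool.Agent.Lib.MP_ca0fc2_an.TKDefs
import Pool.Agent.Lib.MP_ca0fc2_an.TGComp
import Pool.Agent.Lib.MP_ca0fc2_an.SGChr
import Pool.Agent.Lib.MP_ca0fc2_an.SGAlg

/-! The corona problem is local over the algebra of the functions which are nearly constant on the
connected components of the cells of tame functions. -/

set_option autoImplicit false

open Metric Set Filter Topology

namespace Pool.Agent.MPca0fc2.TK

open Pool.Agent.Lib.MP_ca0fc2_an
open Pool.Agent.MPca0fc2.TG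
open Pool.Agent.MPca0fc2.CP (gens6_hol gens6_bounded gens6_cells)
open Pool.Agent.MPca0fc2.SG (LocAlg solv_mono)

variable {n : ℕ}

theorem tg_diff {u : EuclideanSpace ℂ (Fin n) → ℂ} (hu : u ∈ TameGens n) :
    DifferentiableOn ℂ u (ball 0 1) := by
  obtain ⟨K, p, ω, hp, hω, h⟩ := hu
  exact tame_diff hp h

/-- The cells are open. -/
theorem cell_isOpen {k : ℕ} {u : Fin k → EuclideanSpace ℂ (Fin n) → ℂ}
    (hu : ∀ i, DifferentiableOn ℂ (u i) (ball 0 1)) (c : Fin k → ℂ) (ρ : ℝ) :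
    IsOpen (cell u c ρ) := by
  have h1 : cell u c ρ = (ball (0 : EuclideanSpace ℂ (Fin n)) 1) ∩
        ⋂ i, (ball (0 : EuclideanSpace ℂ (Fin n)) 1 ∩ {z | ‖u i z - c i‖ < ρ}) := by
    ext z
    simp only [cell, mem_ofPred_eq, mem_inter_iff, mem_iInter]
    exact ⟨fun h => ⟨h.1, fun i => ⟨h.1, h.2 i⟩⟩, fun h => ⟨h.1, fun i => (h.2 i).2⟩⟩
  rw [h1]
  refine isOpen_ball.inter (isOpen_iInter_of_finite fun i => ?_)
  have h2 : ContinuousOn (fun z => ‖u i z - c i‖) (ball (0 : EuclideanSpace ℂ (Fin n)) 1) :=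
    ((hu i).continuousOn.sub continuousOn_const).norm
  exact h2.isOpen_inter_preimage isOpen_ball isOpen_Iio

/-- The tame algebra is contained in the larger algebra. -/
theorem tame_sub_comp (hn : 2 ≤ n) : TameAlg n ⊆ TameComp n := by
  intro a ha
  refine ⟨⟨ha.1, (locTame hn).1 a ha⟩, fun ε hε => ?_⟩
  rw [← alg6_eq] at ha
  obtain ⟨d, v, K, p, ρ, ω, hp, hω, hρ, hG, h⟩ := gens6_cells (by omega) (fun _ : Fin 1 => a)
    (fun _ => ha) hε
  refine ⟨d, v, ρ, hρ, fun i => ?_, fun c x z hz w hw => ?_⟩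
  · rw [← gens6_eq]
    exact ⟨K, p, ω, hp, hω, hG i⟩
  · have h1 := connectedComponentIn_subset _ _ hz
    have h2 := connectedComponentIn_subset _ _ hw
    refine (h z h1.1 w h2.1 (fun i => ?_) 0).le
    have h3 : v i z - v i w = (v i z - c i) - (v i w - c i) := by ring
    rw [h3]
    refine (norm_sub_le _ _).trans_lt ?_
    linarith [h1.2 i, h2.2 i]

/-- Finitely many functions of the algebra vary only a little on the components of the cells of
finitely many tame functions. -/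
theorem comp_common {k : ℕ} {a : Fin k → EuclideanSpace ℂ (Fin n) → ℂ}
    (ha : ∀ i, a i ∈ TameComp n) {ε : ℝ} (hε : 0 < ε) :
    ∃ (m : ℕ) (v : Fin m → EuclideanSpace ℂ (Fin n) → ℂ) (r : ℝ), 0 < r ∧
      (∀ j, v j ∈ TameGens n) ∧ ∀ (c : Fin m → ℂ) (x : EuclideanSpace ℂ (Fin n)),
        ∀ z ∈ connectedComponentIn (cell v c r) x, ∀ w ∈ connectedComponentIn (cell v c r) x,
          ∀ i, ‖a i z - a i w‖ ≤ ε := by
  classical
  have h1 := fun i => (ha i).2 ε hε
  choose d u ρ hρ hu hosc using h1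
  obtain ⟨r, hr, hrρ⟩ : ∃ r : ℝ, 0 < r ∧ ∀ i, r ≤ ρ i := by
    obtain ⟨r, hr⟩ : ∃ r : ℝ, 0 < r ∧ ∀ i ∈ (Finset.univ : Finset (Fin k)), r ≤ ρ i := by
      generalize (Finset.univ : Finset (Fin k)) = s
      induction s using Finset.induction_on with
      | empty => exact ⟨1, one_pos, fun i hi => absurd hi (Finset.notMem_empty i)⟩
      | insert a s _ ih =>
        obtain ⟨r, h1, h2⟩ := ih
        refine ⟨min r (ρ a), lt_min h1 (hρ a), fun i hi => ?_⟩
        rcases Finset.mem_insert.mp hi with rfl | hi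
        · exact min_le_right _ _
        · exact (min_le_left _ _).trans (h2 i hi)
    exact ⟨r, hr.1, fun i => hr.2 i (Finset.mem_univ i)⟩
  obtain ⟨e⟩ : Nonempty (Fin (Fintype.card (Σ i, Fin (d i))) ≃ Σ i, Fin (d i)) :=
    ⟨(Fintype.equivFin _).symm⟩
  refine ⟨_, fun j => u (e j).1 (e j).2, r, hr, fun j => hu _ _, fun c x z hz w hw i => ?_⟩
  have hsub : cell (fun j => u (e j).1 (e j).2) c r ⊆
      cell (u i) (fun l => c (e.symm ⟨i, l⟩)) (ρ i) := by
    rintro y ⟨hy, hy2⟩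
    refine ⟨hy, fun l => ?_⟩
    have h2 : ‖u (e (e.symm ⟨i, l⟩)).1 (e (e.symm ⟨i, l⟩)).2 y - c (e.symm ⟨i, l⟩)‖ < r :=
      hy2 (e.symm ⟨i, l⟩)
    have h3 : u (e (e.symm ⟨i, l⟩)).1 (e (e.symm ⟨i, l⟩)).2 = u i l := by
      have h4 : ∀ s : Σ i, Fin (d i), u (e (e.symm s)).1 (e (e.symm s)).2 = u s.1 s.2 :=
        fun s => by rw [Equiv.apply_symm_apply]
      exact h4 ⟨i, l⟩
    rw [h3] at h2
    exact h2.trans_le (hrρ i)
  exact hosc i _ x z (connectedComponentIn_mono x hsub hz) w (connectedComponentIn_mono x hsub hw)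

/-- The corona problem is local over the larger algebra. -/
theorem locComp (hn : 2 ≤ n) : LocAlg (TameComp n) := by
  classical
  refine ⟨fun a ha => ha.1.2, ?_⟩
  intro N k f a C ε hf hb ha hε h
  obtain ⟨m, v, r, hr, hvG, hosc⟩ := comp_common ha (half_pos hε)
  have hvA : ∀ j, v j ∈ TameAlg n := fun j => ⟨tg_diff (hvG j), fun η hη =>
    ⟨v j, Algebra.subset_adjoin (hvG j), fun z _ => by rw [sub_self, norm_zero]; exact hη.le⟩⟩
  refine (locTame hn).2 N _ f v C r hf hb hvA hr fun b hb => ?_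
  change SolvableOn f (cell v (fun j => v j b) r) C
  refine solv_components (cell_isOpen (fun j => tg_diff (hvG j)) _ _) fun x hx => ?_
  refine solv_mono (h x hx.1) (fun z hz => ?_) le_rfl
  have hz1 : z ∈ cell v (fun j => v j b) r := connectedComponentIn_subset _ _ hz
  exact ⟨hz1.1, fun i => (hosc _ x z hz x (mem_connectedComponentIn hx) i).trans_lt
    (by linarith)⟩

/-- A product of many factors which are not small. -/
theorem prod_lower {r : ℝ} (hr : 0 ≤ r) (y : ℂ) (s : Multiset ℂ) (h : ∀ a ∈ s, r ≤ ‖y - a‖) :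
    r ^ Multiset.card s ≤ ‖(s.map fun a => y - a).prod‖ := by
  induction s using Multiset.induction_on with
  | empty => simp
  | cons a s ih =>
    rw [Multiset.card_cons, Multiset.map_cons, Multiset.prod_cons, norm_mul, pow_succ']
    exact mul_le_mul (h a (Multiset.mem_cons_self a s))
      (ih fun b hb => h b (Multiset.mem_cons_of_mem hb)) (pow_nonneg hr _) (norm_nonneg _)

/-- On a connected set of diameter at least `D`, a monic polynomial of degree `d` is not small. -/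
theorem monic_lower {G : Set ℂ} (hG : IsPreconnected G) {y₁ y₂ : ℂ} (h1 : y₁ ∈ G) (h2 : y₂ ∈ G)
    {P : Polynomial ℂ} (hP : P.Monic) :
    ∃ y ∈ G, (‖y₁ - y₂‖ / (2 * (P.natDegree + 1))) ^ P.natDegree ≤ ‖P.eval y‖ := by
  classical
  obtain ⟨D, hD⟩ : ∃ D, D = ‖y₁ - y₂‖ := ⟨_, rfl⟩
  obtain ⟨d, hd⟩ : ∃ d, d = P.natDegree := ⟨_, rfl⟩
  rw [← hD, ← hd]
  rcases eq_or_ne D 0 with h0 | h0
  · rcases Nat.eq_zero_or_pos d with hd0 | hd0
    · refine ⟨y₁, h1, ?_⟩
      rw [hd0, pow_zero]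
      have hP1 : P = 1 := hP.natDegree_eq_zero.mp (by rw [← hd]; exact hd0)
      rw [hP1, Polynomial.eval_one, norm_one]
    · refine ⟨y₁, h1, ?_⟩
      rw [h0, zero_div, zero_pow hd0.ne']
      exact norm_nonneg _
  have hDp : 0 < D := lt_of_le_of_ne (by rw [hD]; exact norm_nonneg _) (Ne.symm h0)
  -- the coordinate
  obtain ⟨φ, hφ⟩ : ∃ φ : ℂ → ℝ, φ = fun y => (starRingEnd ℂ (y₂ - y₁) * (y - y₁)).re / D :=
    ⟨_, rfl⟩
  have hφc : Continuous φ := by
    rw [hφ]
    fun_prop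
  have hD2 : ‖y₂ - y₁‖ = D := by rw [hD, norm_sub_rev]
  have hφ1 : φ y₁ = 0 := by rw [hφ]; simp
  have hφ2 : φ y₂ = D := by
    rw [hφ]
    have h3 : (starRingEnd ℂ (y₂ - y₁) * (y₂ - y₁)) = ((‖y₂ - y₁‖ ^ 2 : ℝ) : ℂ) := by
      rw [mul_comm, Complex.mul_conj']
      push_cast
      rfl
    change (starRingEnd ℂ (y₂ - y₁) * (y₂ - y₁)).re / D = D
    rw [h3, Complex.ofReal_re, hD2]
    field_simp
  have hφl : ∀ a b, |φ a - φ b| ≤ ‖a - b‖ := by
    intro a b
    rw [hφ]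
    have h3 : (starRingEnd ℂ (y₂ - y₁) * (a - y₁)).re / D - (starRingEnd ℂ (y₂ - y₁) *
        (b - y₁)).re / D = (starRingEnd ℂ (y₂ - y₁) * (a - b)).re / D := by
      rw [← sub_div, ← Complex.sub_re]
      congr 2
      ring
    change |(starRingEnd ℂ (y₂ - y₁) * (a - y₁)).re / D - (starRingEnd ℂ (y₂ - y₁) *
        (b - y₁)).re / D| ≤ ‖a - b‖
    rw [h3, abs_div, abs_of_pos hDp, div_le_iff₀ hDp]
    refine (Complex.abs_re_le_norm _).trans ?_
    rw [norm_mul, RCLike.norm_conj, hD2, mul_comm]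
  -- the candidates
  obtain ⟨q, hq⟩ : ∃ q : ℝ, q = D / (2 * (d + 1)) := ⟨_, rfl⟩
  have hq0 : 0 < q := by rw [hq]; positivity
  have hqD : (2 * ((d : ℝ) + 1)) * q = D := by rw [hq]; field_simp
  have hcard : P.roots.toFinset.card < (Finset.range (d + 1)).card := by
    rw [Finset.card_range]
    have h3 := Multiset.toFinset_card_le P.roots
    have h4 := Polynomial.card_roots' P
    omega
  have hex : ∃ i ∈ Finset.range (d + 1), ∀ a ∈ P.roots.toFinset, q ≤ |(2 * (i : ℝ) + 1) * q - φ a| := by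
    by_contra hcon
    push Not at hcon
    choose! ρ hρ hρ2 using hcon
    obtain ⟨i, hi, j, hj, hij, he⟩ := Finset.exists_ne_map_eq_of_card_lt_of_maps_to hcard
      (fun i hi => hρ i hi)
    have h3 := hρ2 i hi
    have h4 := hρ2 j hj
    rw [← he] at h4
    have h5 : |(2 * (i : ℝ) + 1) * q - (2 * (j : ℝ) + 1) * q| < 2 * q := by
      have h6 : (2 * (i : ℝ) + 1) * q - (2 * (j : ℝ) + 1) * q =
        ((2 * (i : ℝ) + 1) * q - φ (ρ i)) - ((2 * (j : ℝ) + 1) * q - φ (ρ i)) := by ring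
      rw [h6]
      refine (abs_sub _ _).trans_lt ?_
      linarith
    have h6 : (1 : ℝ) ≤ |(i : ℝ) - j| := by
      have h7 : (i : ℤ) - j ≠ 0 := by
        intro h8
        apply hij
        omega
      have h8 : (1 : ℤ) ≤ |(i : ℤ) - j| := Int.one_le_abs h7
      have h9 : ((1 : ℤ) : ℝ) ≤ ((|(i : ℤ) - j| : ℤ) : ℝ) := by exact_mod_cast h8
      push_cast at h9
      exact h9
    have h7 : (2 * (i : ℝ) + 1) * q - (2 * (j : ℝ) + 1) * q = 2 * q * (i - j) := by ring
    rw [h7, abs_mul, abs_of_pos (by positivity)] at h5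
    nlinarith
  obtain ⟨i, hi, hia⟩ := hex
  rw [Finset.mem_range] at hi
  have hiD : (2 * (i : ℝ) + 1) * q ∈ Icc (φ y₁) (φ y₂) := by
    rw [hφ1, hφ2]
    refine ⟨by positivity, ?_⟩
    rw [← hqD]
    have h3 : (i : ℝ) ≤ d := by exact_mod_cast Nat.lt_succ_iff.mp hi
    nlinarith
  obtain ⟨y, hy, hyφ⟩ := hG.intermediate_value h1 h2 hφc.continuousOn hiD
  refine ⟨y, hy, ?_⟩
  have hroots : P.eval y = (P.roots.map fun a => y - a).prod := by
    have h3 := (IsAlgClosed.splits P).eval_eq_prod_roots (x := y)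
    rw [hP.leadingCoeff, one_mul] at h3
    exact h3
  have hcd : Multiset.card P.roots = d := by
    rw [hd]
    exact (IsAlgClosed.splits P).natDegree_eq_card_roots.symm
  rw [hroots, ← hcd]
  have h3 : D / (2 * ((Multiset.card P.roots : ℝ) + 1)) = q := by rw [hcd, hq]
  rw [h3]
  refine prod_lower hq0.le y _ fun a ha => ?_
  have h4 := hia a (by rwa [Multiset.mem_toFinset])
  rw [← hyφ] at h4
  exact h4.trans (hφl y a)

/-- The larger algebra contains all the bounded holomorphic roots of monic polynomials with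
coefficients in it. -/
theorem root_comp {d : ℕ} {g : EuclideanSpace ℂ (Fin n) → ℂ} (hg : IsHinf (ball 0 1) g)
    {a : Fin d → EuclideanSpace ℂ (Fin n) → ℂ} (ha : ∀ j, a j ∈ TameComp n)
    (h : ∀ z ∈ ball (0 : EuclideanSpace ℂ (Fin n)) 1,
      g z ^ d + ∑ j, a j z * g z ^ (j : ℕ) = 0) : g ∈ TameComp n := by
  refine ⟨hg, fun ε hε => ?_⟩
  obtain ⟨hgd, M₀, hM₀⟩ := hg
  obtain ⟨M, hM1, hM⟩ : ∃ M : ℝ, 1 ≤ M ∧ ∀ z ∈ ball (0 : EuclideanSpace ℂ (Fin n)) 1,
      ‖g z‖ ≤ M := ⟨max 1 M₀, le_max_left _ _, fun z hz => (hM₀ z hz).trans (le_max_right _ _)⟩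
  obtain ⟨τ, hτ, hτ2⟩ : ∃ τ : ℝ, 0 < τ ∧ d * (τ * M ^ d) < (ε / (2 * (d + 1))) ^ d := by
    have h1 : 0 < (ε / (2 * ((d : ℝ) + 1))) ^ d := by positivity
    refine ⟨(ε / (2 * (d + 1))) ^ d / (2 * (d + 1) * M ^ d), by positivity, ?_⟩
    have h2 : (d : ℝ) * ((ε / (2 * (d + 1))) ^ d / (2 * (d + 1) * M ^ d) * M ^ d) =
        (ε / (2 * (d + 1))) ^ d * (d / (2 * (d + 1))) := by
      field_simp
    rw [h2]
    have h3 : (d : ℝ) / (2 * (d + 1)) < 1 := by
      rw [div_lt_one (by positivity)]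
      have : (0 : ℝ) ≤ d := Nat.cast_nonneg d
      linarith
    nlinarith
  obtain ⟨m, v, r, hr, hv, hosc⟩ := comp_common ha hτ
  refine ⟨m, v, r, hr, hv, fun c x z hz w hw => ?_⟩
  by_contra hcon
  push Not at hcon
  obtain ⟨W, hW⟩ : ∃ W, W = connectedComponentIn (cell v c r) x := ⟨_, rfl⟩
  rw [← hW] at hz hw
  have hWb : W ⊆ ball 0 1 := by
    rw [hW]
    exact (connectedComponentIn_subset _ _).trans fun y hy => hy.1
  have hGc : IsPreconnected (g '' W) := by
    refine IsPreconnected.image ?_ g (hgd.continuousOn.mono hWb)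
    rw [hW]
    exact isPreconnected_connectedComponentIn
  obtain ⟨P, hP⟩ : ∃ P : Polynomial ℂ, P = Polynomial.X ^ d +
    ∑ j : Fin d, Polynomial.C (a j z) * Polynomial.X ^ (j : ℕ) := ⟨_, rfl⟩
  have hdeg : (∑ j : Fin d, Polynomial.C (a j z) * Polynomial.X ^ (j : ℕ)).degree < (d : WithBot ℕ) :=
    Polynomial.degree_sum_fin_lt fun j => a j z
  have hmonic : P.Monic := by
    rw [hP]
    exact Polynomial.monic_X_pow_add hdeg
  have hnat : P.natDegree = d := by
    rw [hP]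
    rw [Polynomial.natDegree_add_eq_left_of_degree_lt (by rwa [Polynomial.degree_X_pow]),
      Polynomial.natDegree_X_pow]
  obtain ⟨y, ⟨t, ht, hty⟩, hy⟩ := monic_lower hGc (mem_image_of_mem g hz) (mem_image_of_mem g hw)
    hmonic
  rw [hnat] at hy
  have h1 : P.eval y = ∑ j, (a j z - a j t) * g t ^ (j : ℕ) := by
    have h2 := h t (hWb ht)
    rw [hP, Polynomial.eval_add, Polynomial.eval_pow, Polynomial.eval_X, Polynomial.eval_finsetSum]
    simp only [Polynomial.eval_mul, Polynomial.eval_C, Polynomial.eval_pow, Polynomial.eval_X,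
      sub_mul, Finset.sum_sub_distrib]
    rw [← hty]
    linear_combination h2
  have h2 : ‖P.eval y‖ ≤ d * (τ * M ^ d) := by
    rw [h1]
    calc ‖∑ j, (a j z - a j t) * g t ^ (j : ℕ)‖ ≤ ∑ _j : Fin d, τ * M ^ d := by
          refine norm_sum_le_of_le _ fun j _ => ?_
          rw [norm_mul, norm_pow]
          have h3 : ‖a j z - a j t‖ ≤ τ := by
            rw [hW] at hz ht
            exact hosc c x z hz t ht j
          have h4 : ‖g t‖ ^ (j : ℕ) ≤ M ^ d :=
            (pow_le_pow_left₀ (norm_nonneg _) (hM t (hWb ht)) _).trans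
              (pow_le_pow_right₀ hM1 j.2.le)
          exact mul_le_mul h3 h4 (by positivity) hτ.le
      _ = d * (τ * M ^ d) := by simp
  have h3 : (ε / (2 * ((d : ℝ) + 1))) ^ d ≤ (‖g z - g w‖ / (2 * (d + 1))) ^ d := by
    gcongr
  linarith

end Pool.Agent.MPca0fc2.TK
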