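import Mathlib
import Pool.Agent.Lib.MP_ca0fc2_an.DODown
import Pool.Agent.Lib.MP_ca0fc2_an.TGMain
import Pool.Agent.Lib.MP_ca0fc2_an.SGChr
import Pool.Agent.Lib.MP_ca0fc2_an.SGAlg
import Pool.Agent.Lib.MP_ca0fc2_an.TKMain

/-! The corona problem on `annDom` is local over the functions with tame pullbacks. -/

set_option autoImplicit false

open Metric Set Filter Topology

namespace Pool.Agent.MPca0fc2.DO

open Pool.Agent.Lib.MP_ca0fc2_an

variable {m : ℕ}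

/-- the covering is surjective -/
theorem map_surj {b : ℝ} (hb : 0 < b) (c : Fin m → ℝ) {w : EuclideanSpace ℂ (Fin (m + 1))}
    (hw : w ∈ annDom b c) :
    ∃ z ∈ ball (0 : EuclideanSpace ℂ (Fin (m + 1))) 1, annMap b c z = w :=
  ⟨_, (sec_mem hb c hw (he₁ hw)).1, (sec_mem hb c hw (he₁ hw)).2.1⟩

/-- pullbacks -/
theorem pull_hinf (b : ℝ) (c : Fin m → ℝ)
    {D : Set (EuclideanSpace ℂ (Fin (m + 1)))} {f : EuclideanSpace ℂ (Fin (m + 1)) → ℂ}
    (hf : IsHinf D f) :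
    IsHinf {z | z ∈ ball (0 : EuclideanSpace ℂ (Fin (m + 1))) 1 ∧ annMap b c z ∈ D}
      (fun z => f (annMap b c z)) := by
  obtain ⟨h1, M, h2⟩ := hf
  refine ⟨?_, M, fun z hz => h2 _ hz.2⟩
  exact h1.comp ((map_diff b c).mono fun z hz => hz.1) fun z hz => hz.2

theorem pull_ball {b : ℝ} (hb : 0 < b) (c : Fin m → ℝ)
    {f : EuclideanSpace ℂ (Fin (m + 1)) → ℂ} (hf : IsHinf (annDom b c) f) :
    IsHinf (ball 0 1) (fun z => f (annMap b c z)) := by
  have h := pull_hinf b c hf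
  have e : {z | z ∈ ball (0 : EuclideanSpace ℂ (Fin (m + 1))) 1 ∧ annMap b c z ∈ annDom b c} =
      ball 0 1 := by
    ext z
    exact ⟨fun h => h.1, fun h => ⟨h, map_mem hb c h⟩⟩
  rwa [e] at h


/-- the kernel of a character generates a proper ideal on the ball -/
theorem not_solv {b : ℝ} (hb : 0 < b) (c : Fin m → ℝ)
    {χ : (EuclideanSpace ℂ (Fin (m + 1)) → ℂ) → ℂ} (hχ : IsCharacter (annDom b c) χ)
    {N : ℕ} {f : Fin N → EuclideanSpace ℂ (Fin (m + 1)) → ℂ}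
    (hf : ∀ j, IsHinf (annDom b c) (f j)) (hf0 : ∀ j, χ (f j) = 0) {C : ℝ} :
    ¬ SolvableOn (fun j z => f j (annMap b c z)) (ball 0 1) C := by
  intro h
  obtain ⟨g, hg1, hg2, hg3⟩ := descend hb c h
  have hg : ∀ j, IsHinf (annDom b c) (g j) := fun j => ⟨hg1 j, C, hg2 j⟩
  obtain ⟨m', hm'⟩ := SG.char_to_hom hχ
  have hex : ∀ F, IsHinf (annDom b c) F → ∃ g : HinfOn (annDom b c), ∀ z, g.1 z = F z :=
    fun F hF => ⟨⟨fun z => F z, ⟨F, hF.1, fun _ => rfl⟩, hF.2.choose,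
      fun z => hF.2.choose_spec z z.2⟩, fun _ => rfl⟩
  choose F hF using fun j => hex _ (hf j)
  choose G hG using fun j => hex _ (hg j)
  have h1 : ∑ j, F j * G j = 1 := by
    apply Subtype.ext
    funext z
    rw [AddSubmonoidClass.coe_finsetSum, Finset.sum_apply]
    have h2 : ((1 : HinfOn (annDom b c)).1 z) = 1 := rfl
    rw [h2, ← hg3 z z.2]
    refine Finset.sum_congr rfl fun j _ => ?_
    rw [MulMemClass.coe_mul, Pi.mul_apply, hF j, hG j]
  have h2 := congrArg m' h1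
  rw [map_sum, map_one, Finset.sum_eq_zero fun j _ => ?_] at h2
  · exact zero_ne_one h2
  · rw [map_mul, hm' _ _ (hf j) (hF j), hf0 j, zero_mul]

/-- Every character of `H^∞(annDom b c)` extends to `H^∞` of the ball. -/
theorem char_up {b : ℝ} (hb : 0 < b) (c : Fin m → ℝ)
    {χ : (EuclideanSpace ℂ (Fin (m + 1)) → ℂ) → ℂ} (hχ : IsCharacter (annDom b c) χ) :
    ∃ M, IsCharacter (ball 0 1) M ∧
      ∀ f, IsHinf (annDom b c) f → M (fun z => f (annMap b c z)) = χ f := by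
  obtain ⟨χ', hχ'⟩ := SG.char_to_hom hχ
  obtain ⟨M, hM⟩ := SG.exists_char isOpen_ball
    {g : HinfOn (ball (0 : EuclideanSpace ℂ (Fin (m + 1))) 1) |
      ∃ f, IsHinf (annDom b c) f ∧ χ f = 0 ∧ ∀ z, g.1 z = f (annMap b c z)} (by
    intro N g h hg hsum
    choose f hf hf0 hgf using hg
    choose H hH hHh using fun j => (h j).2
    refine not_solv hb c hχ hf hf0 (C := ∑ j, ‖(h j).1‖) ⟨H, hH, fun j z hz => ?_, fun z hz => ?_⟩
    · rw [← hHh j ⟨z, hz⟩]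
      refine ((h j).1.norm_coe_le_norm ⟨z, hz⟩).trans ?_
      exact Finset.single_le_sum (f := fun j => ‖(h j).1‖) (fun _ _ => norm_nonneg _)
        (Finset.mem_univ j)
    · have h1 : (∑ j, h j * SG.toHB (ball 0 1) (g j) : SG.HB (ball 0 1)).1 ⟨z, hz⟩ =
          (1 : SG.HB (ball 0 1)).1 ⟨z, hz⟩ := by
        rw [hsum]
      rw [AddSubmonoidClass.coe_finsetSum, BoundedContinuousFunction.coe_sum,
        Finset.sum_apply] at h1
      have h2 : (1 : SG.HB (ball 0 1)).1 ⟨z, hz⟩ = 1 := rfl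
      rw [h2] at h1
      rw [← h1]
      refine Finset.sum_congr rfl fun j _ => ?_
      have h3 : (h j * SG.toHB (ball 0 1) (g j) : SG.HB (ball 0 1)).1 ⟨z, hz⟩ =
        (h j).1 ⟨z, hz⟩ * (g j).1 ⟨z, hz⟩ := rfl
      rw [h3, hHh j, hgf j, mul_comm])
  obtain ⟨M', hM', hMM⟩ := SG.hom_to_char M
  refine ⟨M', hM', fun f hf => ?_⟩
  have hfc : IsHinf (annDom b c) fun w => f w - χ f := by
    obtain ⟨h1, K, h2⟩ := hf
    exact ⟨h1.sub_const _, K + ‖χ f‖, fun z hz => (norm_sub_le _ _).trans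
      (add_le_add (h2 z hz) le_rfl)⟩
  have hex : ∀ F, IsHinf (annDom b c) F → ∃ g : HinfOn (annDom b c), ∀ z, g.1 z = F z :=
    fun F hF => ⟨⟨fun z => F z, ⟨F, hF.1, fun _ => rfl⟩, hF.2.choose,
      fun z => hF.2.choose_spec z z.2⟩, fun _ => rfl⟩
  have hex' : ∀ F, IsHinf (ball (0 : EuclideanSpace ℂ (Fin (m + 1))) 1) F →
      ∃ g : HinfOn (ball (0 : EuclideanSpace ℂ (Fin (m + 1))) 1), ∀ z, g.1 z = F z :=
    fun F hF => ⟨⟨fun z => F z, ⟨F, hF.1, fun _ => rfl⟩, hF.2.choose,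
      fun z => hF.2.choose_spec z z.2⟩, fun _ => rfl⟩
  obtain ⟨F, hF⟩ := hex f hf
  have h0 : χ (fun w => f w - χ f) = 0 := by
    have h1 : ∀ z : annDom b c, (F - algebraMap ℂ _ (χ f) : HinfOn (annDom b c)).1 z =
        f z - χ f := by
      intro z
      rw [AddSubgroupClass.coe_sub, Pi.sub_apply, hF z]
      rfl
    rw [← hχ' _ _ hfc h1, map_sub, AlgHom.commutes, hχ' _ _ hf hF, Algebra.algebraMap_self,
      RingHom.id_apply, sub_self]
  obtain ⟨G, hG⟩ := hex' _ (pull_ball hb c hf)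
  have h2 : ∀ z : ball (0 : EuclideanSpace ℂ (Fin (m + 1))) 1,
      (G - algebraMap ℂ _ (χ f) : HinfOn (ball (0 : EuclideanSpace ℂ (Fin (m + 1))) 1)).1 z =
        f (annMap b c z) - χ f := by
    intro z
    rw [AddSubgroupClass.coe_sub, Pi.sub_apply, hG z]
    rfl
  have h3 := hM (G - algebraMap ℂ _ (χ f)) ⟨_, hfc, h0, h2⟩
  rw [map_sub, AlgHom.commutes, Algebra.algebraMap_self, RingHom.id_apply, sub_eq_zero] at h3
  rw [hMM G _ (pull_ball hb c hf) hG, h3]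

/-- The corona problem on `annDom b c` is local over the functions whose pullbacks are in `TameComp`,
the algebra of the functions which are nearly constant on the connected components of the cells of
tame functions. -/
theorem ann_spec (hm : 1 ≤ m) {b : ℝ} (hb : 0 < b) (c : Fin m → ℝ)
    {χ : (EuclideanSpace ℂ (Fin (m + 1)) → ℂ) → ℂ} (hχ : IsCharacter (annDom b c) χ) {k : ℕ}
    {a : Fin k → EuclideanSpace ℂ (Fin (m + 1)) → ℂ}
    (ha : ∀ i, IsHinf (annDom b c) (a i))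
    (ha' : ∀ i, (fun z => a i (annMap b c z)) ∈ TameComp (m + 1)) {ε : ℝ} (hε : 0 < ε) :
    ∃ M, IsCharacter {w | w ∈ annDom b c ∧ ∀ i, ‖a i w - χ (a i)‖ < ε} M ∧
      ∀ f, IsHinf (annDom b c) f → M f = χ f := by
  obtain ⟨μ, hμ, hμχ⟩ := char_up hb c hχ
  obtain ⟨M, hM, hMμ⟩ := SG.character_ext (TK.locComp (Nat.succ_le_succ hm)) (fun _ h => h.1.1) hμ
    ha' hε
  have e : {z | z ∈ ball (0 : EuclideanSpace ℂ (Fin (m + 1))) 1 ∧
      ∀ i, ‖a i (annMap b c z) - μ (fun z => a i (annMap b c z))‖ < ε} =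
      {z | z ∈ ball (0 : EuclideanSpace ℂ (Fin (m + 1))) 1 ∧
        annMap b c z ∈ {w | w ∈ annDom b c ∧ ∀ i, ‖a i w - χ (a i)‖ < ε}} := by
    ext z
    simp only [mem_ofPred_eq]
    refine ⟨fun h => ⟨h.1, map_mem hb c h.1, fun i => ?_⟩, fun h => ⟨h.1, fun i => ?_⟩⟩
    · rw [← hμχ _ (ha i)]
      exact h.2 i
    · rw [hμχ _ (ha i)]
      exact h.2.2 i
  rw [e] at hM
  refine ⟨fun F => M fun z => F (annMap b c z), ⟨fun f g hf hg hfg => ?_, hM.one,
    fun x f hf => ?_, fun f g hf hg => ?_, fun f g hf hg => ?_⟩, fun f hf => ?_⟩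
  · exact hM.congr _ _ (pull_hinf b c hf) (pull_hinf b c hg) fun z hz => hfg _ hz.2
  · exact hM.smul x _ (pull_hinf b c hf)
  · exact hM.add _ _ (pull_hinf b c hf) (pull_hinf b c hg)
  · exact hM.mul _ _ (pull_hinf b c hf) (pull_hinf b c hg)
  · exact (hMμ _ (pull_ball hb c hf)).trans (hμχ f hf)

/-- The corona theorem for data whose pullbacks are in the closed algebra generated by the tame
functions and one arbitrary function. -/
theorem ann_alg (hm : 1 ≤ m) {b : ℝ} (hb : 0 < b) (c : Fin m → ℝ) {N : ℕ}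
    (f : Fin N → EuclideanSpace ℂ (Fin (m + 1)) → ℂ)
    (G : EuclideanSpace ℂ (Fin (m + 1)) → ℂ) (hG : DifferentiableOn ℂ G (ball 0 1)) {R : ℝ}
    (hGR : ∀ z ∈ ball (0 : EuclideanSpace ℂ (Fin (m + 1))) 1, ‖G z‖ ≤ R)
    (hf : ∀ j, (fun z => f j (annMap b c z)) ∈ ClosedAlg (TameComp (m + 1) ∪ {G})) {δ : ℝ}
    (hδ : 0 < δ) (hfδ : ∀ w ∈ annDom b c, δ ≤ ∑ j, ‖f j w‖ ^ 2) :
    ∃ C, SolvableOn f (annDom b c) C := by
  obtain ⟨C, hC⟩ := SG.spec_alg (TK.locComp (Nat.succ_le_succ hm))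
    (fun j z => f j (annMap b c z)) G hG hGR hf hδ fun z hz => hfδ _ (map_mem hb c hz)
  exact ⟨C, descend hb c hC⟩

end Pool.Agent.MPca0fc2.DO
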