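import Mathlib
import Pool.Agent.Lib.MP_ca0fc2_an.LTDefs
import Pool.Agent.Lib.MP_ca0fc2_an.Mob

/-! The bounded holomorphic functions on an ellipsoid which contains the unit ball and touches the
sphere along a circle are tame with respect to a complex line. -/

set_option autoImplicit false

open Metric Set Filter Topology
open scoped InnerProductSpace ComplexConjugate

namespace Pool.Agent.MPca0fc2.LT

open Pool.Agent.Lib.MP_ca0fc2_an

variable {E : Type*} [NormedAddCommGroup E] [InnerProductSpace ℂ E]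

/-- the ellipsoid `|⟨e, z⟩|² + (1 - c) |z'|² < 1`, where `z'` is the part of `z` orthogonal to `e` -/
def ellipsoid (e : E) (c : ℝ) : Set E := {z | ‖⟪e, z⟫_ℂ‖ ^ 2 + (1 - c) * ‖prj e z‖ ^ 2 < 1}

theorem ellipsoid_room {e : E} (he : ‖e‖ = 1) {c : ℝ} (hc : 0 < c) (hc1 : c ≤ 1) {z w : E}
    (hz : z ∈ ball (0 : E) 1) (h1 : ‖⟪e, w⟫_ℂ‖ < c * (1 - ‖⟪e, z⟫_ℂ‖) / 12)
    (h2 : ‖w‖ ^ 2 < c ^ 2 * (1 - ‖⟪e, z⟫_ℂ‖) / 16) : z + w ∈ ellipsoid e c := by
  obtain ⟨a, ha⟩ : ∃ a, a = ‖⟪e, z⟫_ℂ‖ := ⟨_, rfl⟩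
  obtain ⟨b, hb⟩ : ∃ b, b = ‖prj e z‖ := ⟨_, rfl⟩
  obtain ⟨x, hx⟩ : ∃ x, x = ‖⟪e, w⟫_ℂ‖ := ⟨_, rfl⟩
  obtain ⟨y, hy⟩ : ∃ y, y = ‖prj e w‖ := ⟨_, rfl⟩
  rw [← ha, ← hx] at h1
  rw [← ha] at h2
  have ha0 : 0 ≤ a := by rw [ha]; exact norm_nonneg _
  have hb0 : 0 ≤ b := by rw [hb]; exact norm_nonneg _
  have hx0 : 0 ≤ x := by rw [hx]; exact norm_nonneg _
  have hy0 : 0 ≤ y := by rw [hy]; exact norm_nonneg _
  have ha1 : a < 1 := by rw [ha]; exact norm_inner_lt he hz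
  have hab : a ^ 2 + b ^ 2 < 1 := by
    have h3 := norm_sq_dec he z
    rw [← ha, ← hb] at h3
    rw [← h3]
    rw [mem_ball_zero_iff] at hz
    nlinarith [norm_nonneg z]
  have hyw : y ^ 2 < c ^ 2 * (1 - a) / 16 := by
    have h3 := norm_prj_le he w
    have h4 : y ^ 2 ≤ ‖w‖ ^ 2 := by
      rw [hy]
      exact pow_le_pow_left₀ (norm_nonneg _) h3 2
    linarith
  have h3 : ‖⟪e, z + w⟫_ℂ‖ ≤ a + x := by
    rw [inner_add_right, ha, hx]
    exact norm_add_le _ _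
  have h4 : ‖prj e (z + w)‖ ≤ b + y := by
    rw [map_add, hb, hy]
    exact norm_add_le _ _
  have h5 : ‖⟪e, z + w⟫_ℂ‖ ^ 2 ≤ (a + x) ^ 2 := pow_le_pow_left₀ (norm_nonneg _) h3 2
  have h6 : ‖prj e (z + w)‖ ^ 2 ≤ (b + y) ^ 2 := pow_le_pow_left₀ (norm_nonneg _) h4 2
  have h7 : (1 - c) * ‖prj e (z + w)‖ ^ 2 ≤ (1 - c) * (b + y) ^ 2 :=
    mul_le_mul_of_nonneg_left h6 (by linarith)
  have hx1 : x < 1 / 12 := by nlinarith
  have e1 : (a + x) ^ 2 ≤ a ^ 2 + 3 * x := by nlinarith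
  have e2 : (b + y) ^ 2 ≤ (1 + c / 2) * b ^ 2 + (1 + 2 / c) * y ^ 2 := by
    have h8 : 2 * b * y ≤ c / 2 * b ^ 2 + 2 / c * y ^ 2 := by
      have h9 : 0 ≤ (c / 2) * (b - 2 / c * y) ^ 2 := by positivity
      have h10 : (c / 2) * (b - 2 / c * y) ^ 2 = c / 2 * b ^ 2 - 2 * b * y + 2 / c * y ^ 2 := by
        field_simp
        ring
      linarith
    nlinarith
  have e3 : (1 - c) * (b + y) ^ 2 ≤ (1 - c / 2) * b ^ 2 + 3 / c * y ^ 2 := by
    have h8 : (1 - c) * (b + y) ^ 2 ≤ (1 - c) * ((1 + c / 2) * b ^ 2 + (1 + 2 / c) * y ^ 2) :=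
      mul_le_mul_of_nonneg_left e2 (by linarith)
    have h9 : (1 - c) * (1 + c / 2) ≤ 1 - c / 2 := by nlinarith
    have h10 : (1 - c) * (1 + 2 / c) ≤ 3 / c := by
      rw [le_div_iff₀ hc]
      have : (1 - c) * (1 + 2 / c) * c = (1 - c) * (c + 2) := by field_simp
      rw [this]
      nlinarith
    have h11 := mul_le_mul_of_nonneg_right h9 (sq_nonneg b)
    have h12 := mul_le_mul_of_nonneg_right h10 (sq_nonneg y)
    nlinarith
  have e4 : 3 / c * y ^ 2 < 3 * c * (1 - a) / 16 := by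
    rw [div_mul_eq_mul_div, div_lt_iff₀ hc]
    nlinarith
  have e5 : c / 2 * (1 - a) ≤ c / 2 * (1 - a ^ 2) := by
    apply mul_le_mul_of_nonneg_left _ (by positivity)
    nlinarith
  have e6 : (1 - c / 2) * b ^ 2 ≤ (1 - c / 2) * (1 - a ^ 2) := by
    apply mul_le_mul_of_nonneg_left _ (by linarith)
    linarith
  show ‖⟪e, z + w⟫_ℂ‖ ^ 2 + (1 - c) * ‖prj e (z + w)‖ ^ 2 < 1
  have e7 : 0 < c * (1 - a) := by
    apply mul_pos hc
    linarith
  nlinarith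

/-- The bounded functions on the ellipsoid are tame. -/
theorem lineTame_ellipsoid {e : E} (he : ‖e‖ = 1) {c M : ℝ} (hc : 0 < c) (hc1 : c ≤ 1)
    {g : E → ℂ} (hg : DifferentiableOn ℂ g (ellipsoid e c)) (hM : ∀ z ∈ ellipsoid e c, ‖g z‖ ≤ M)
    {φ ψ : E → E} (hφ : IsBallAut φ ψ) : LineTame (24 * M / c) fun z => g (φ z) := by
  have hroom0 : ∀ z ∈ ball (0 : E) 1, z ∈ ellipsoid e c := by
    intro z hz
    have h1 := norm_inner_lt he hz
    have h2 := ellipsoid_room he hc hc1 (w := 0) hz (by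
      rw [inner_zero_right, norm_zero]
      have : 0 < 1 - ‖⟪e, z⟫_ℂ‖ := by linarith
      positivity) (by
      rw [norm_zero, zero_pow two_ne_zero]
      have : 0 < 1 - ‖⟪e, z⟫_ℂ‖ := by linarith
      positivity)
    rwa [add_zero] at h2
  have hopen : IsOpen (ellipsoid e c) := by
    have h1 : Continuous fun z : E => ‖⟪e, z⟫_ℂ‖ ^ 2 + (1 - c) * ‖prj e z‖ ^ 2 := by
      have h2 : Continuous fun z : E => ⟪e, z⟫_ℂ := (innerSL ℂ e).continuous
      have h3 : Continuous fun z : E => prj e z := (prj e).continuous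
      fun_prop
    exact isOpen_lt h1 continuous_const
  have hM0 : 0 ≤ M := (norm_nonneg _).trans (hM 0 (hroom0 0 (mem_ball_self one_pos)))
  refine ⟨e, φ, ψ, g, he, hφ, hg.mono hroom0, fun z hz v => ?_, fun z _ => rfl⟩
  obtain ⟨t, ht⟩ : ∃ t, t = 1 - ‖⟪e, z⟫_ℂ‖ := ⟨_, rfl⟩
  have ht0 : 0 < t := by
    have := norm_inner_lt he hz
    rw [ht]; linarith
  rw [← ht]
  obtain ⟨Q, hQ⟩ : ∃ Q, Q = 12 * ‖⟪e, v⟫_ℂ‖ / (c * t) + 4 / c * (‖v‖ / Real.sqrt t) := ⟨_, rfl⟩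
  have hst : 0 < Real.sqrt t := Real.sqrt_pos.mpr ht0
  have hQ0 : 0 ≤ Q := by rw [hQ]; positivity
  have hQle : 2 * M * Q ≤ 24 * M / c * (‖⟪e, v⟫_ℂ‖ / t + ‖v‖ / Real.sqrt t) := by
    rw [hQ]
    have h1 : 0 ≤ ‖v‖ / Real.sqrt t := by positivity
    have h2 : 12 * ‖⟪e, v⟫_ℂ‖ / (c * t) = 12 / c * (‖⟪e, v⟫_ℂ‖ / t) := by
      field_simp
    rw [h2]
    have h3 : 4 / c * (‖v‖ / Real.sqrt t) ≤ 12 / c * (‖v‖ / Real.sqrt t) := by
      apply mul_le_mul_of_nonneg_right _ h1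
      gcongr
      norm_num
    calc 2 * M * (12 / c * (‖⟪e, v⟫_ℂ‖ / t) + 4 / c * (‖v‖ / Real.sqrt t))
        ≤ 2 * M * (12 / c * (‖⟪e, v⟫_ℂ‖ / t) + 12 / c * (‖v‖ / Real.sqrt t)) := by gcongr
      _ = _ := by ring
  refine le_trans ?_ hQle
  rcases hQ0.eq_or_lt with h0 | hQp
  · -- the vector is zero
    have h1 : ‖v‖ = 0 := by
      have h2 : 0 ≤ 12 * ‖⟪e, v⟫_ℂ‖ / (c * t) := by positivity
      have h3 : 4 / c * (‖v‖ / Real.sqrt t) ≤ 0 := by
        rw [h0, hQ]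
        linarith
      by_contra hne
      have h4 : 0 < ‖v‖ := lt_of_le_of_ne (norm_nonneg _) (Ne.symm hne)
      have h5 : 0 < 4 / c * (‖v‖ / Real.sqrt t) := by positivity
      linarith
    rw [norm_eq_zero.mp h1, map_zero, norm_zero]
    positivity
  · have hin : ∀ x ∈ ball (0 : ℂ) (1 / Q), z + x • v ∈ ellipsoid e c := by
      intro x hx
      rw [mem_ball_zero_iff, lt_div_iff₀ hQp] at hx
      have hxq1 : ‖x‖ * (12 * ‖⟪e, v⟫_ℂ‖ / (c * t)) < 1 := by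
        refine lt_of_le_of_lt ?_ hx
        apply mul_le_mul_of_nonneg_left _ (norm_nonneg _)
        rw [hQ]
        have : 0 ≤ 4 / c * (‖v‖ / Real.sqrt t) := by positivity
        linarith
      have hxq2 : ‖x‖ * (4 / c * (‖v‖ / Real.sqrt t)) < 1 := by
        refine lt_of_le_of_lt ?_ hx
        apply mul_le_mul_of_nonneg_left _ (norm_nonneg _)
        rw [hQ]
        have : 0 ≤ 12 * ‖⟪e, v⟫_ℂ‖ / (c * t) := by positivity
        linarith
      refine ellipsoid_room he hc hc1 hz ?_ ?_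
      · rw [← ht, inner_smul_right, norm_mul, lt_div_iff₀ (by norm_num)]
        have h1 : ‖x‖ * (12 * ‖⟪e, v⟫_ℂ‖ / (c * t)) * (c * t) < 1 * (c * t) :=
          mul_lt_mul_of_pos_right hxq1 (by positivity)
        have h2 : ‖x‖ * (12 * ‖⟪e, v⟫_ℂ‖ / (c * t)) * (c * t) = ‖x‖ * ‖⟪e, v⟫_ℂ‖ * 12 := by
          field_simp
        linarith
      · rw [← ht, norm_smul]
        have h1 : ‖x‖ * ‖v‖ < c * Real.sqrt t / 4 := by
          have h2 : ‖x‖ * (4 / c * (‖v‖ / Real.sqrt t)) * (c * Real.sqrt t / 4) <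
              1 * (c * Real.sqrt t / 4) := mul_lt_mul_of_pos_right hxq2 (by positivity)
          have h3 : ‖x‖ * (4 / c * (‖v‖ / Real.sqrt t)) * (c * Real.sqrt t / 4) = ‖x‖ * ‖v‖ := by
            field_simp
          linarith
        calc (‖x‖ * ‖v‖) ^ 2 < (c * Real.sqrt t / 4) ^ 2 :=
              pow_lt_pow_left₀ h1 (by positivity) two_ne_zero
          _ = c ^ 2 * (Real.sqrt t ^ 2) / 16 := by ring
          _ = c ^ 2 * t / 16 := by rw [Real.sq_sqrt ht0.le]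
    obtain ⟨G, hG⟩ : ∃ G : ℂ → ℂ, G = fun x => g (z + x • v) := ⟨_, rfl⟩
    have hGd : DifferentiableOn ℂ G (ball 0 (1 / Q)) := by
      rw [hG]
      exact hg.comp ((differentiable_id.smul_const v).const_add z).differentiableOn hin
    have hmaps : MapsTo G (ball 0 (1 / Q)) (closedBall (G 0) (2 * M)) := by
      intro x hx
      rw [mem_closedBall, dist_eq_norm, hG]
      simp only []
      refine (norm_sub_le _ _).trans ?_
      have h1 := hM _ (hin x hx)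
      have h2 := hM _ (hin 0 (mem_ball_self (by positivity)))
      linarith
    have hder := Complex.norm_deriv_le_div_of_mapsTo_ball hGd hmaps (by positivity)
    have hfd : deriv G 0 = fderiv ℂ g z v := by
      have h1 : HasFDerivAt g (fderiv ℂ g z) (z + (0 : ℂ) • v) := by
        rw [zero_smul, add_zero]
        exact (hg.differentiableAt (hopen.mem_nhds (hroom0 z hz))).hasFDerivAt
      have h2 : HasDerivAt (fun x : ℂ => z + x • v) v 0 := by
        simpa using ((hasDerivAt_id (0 : ℂ)).smul_const v).const_add z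
      have h3 := h1.comp_hasDerivAt (0 : ℂ) h2
      rw [hG]
      exact h3.deriv
    rw [← hfd]
    refine hder.trans (le_of_eq ?_)
    rw [div_div_eq_mul_div, div_one]

end Pool.Agent.MPca0fc2.LT
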