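import Mathlib
import Pool.Agent.Lib.MP_ca0fc2_an.Defs
import Pool.Agent.Lib.MP_ca0fc2_an.Mob

set_option autoImplicit false

open Metric Set Filter Topology
open scoped InnerProductSpace ComplexConjugate

namespace Pool.Agent.MPca0fc2.LC

open Pool.Agent.Lib.MP_ca0fc2_an

variable {E : Type*} [NormedAddCommGroup E] [InnerProductSpace ℂ E]

/-- an automorphism that moves the origin to a given point -/
theorem exists_aut {a : E} (ha : a ∈ ball (0 : E) 1) : ∃ φ ψ : E → E, IsBallAut φ ψ ∧ φ 0 = a ∧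
    ∀ z ∈ ball (0 : E) 1, (1 - ‖ψ z‖ ^ 2) * ‖1 - ⟪a, z⟫_ℂ‖ ^ 2 =
      (1 - ‖a‖ ^ 2) * (1 - ‖z‖ ^ 2) := by
  by_cases h0 : a = 0
  · refine ⟨id, id, ⟨differentiableOn_id, differentiableOn_id, fun _ h => h, fun _ h => h,
      fun _ _ => rfl, fun _ _ => rfl⟩, h0.symm, ?_⟩
    intro z _
    rw [h0, inner_zero_left, sub_zero, norm_one, norm_zero]
    simp
  · have hn : ‖a‖ ≠ 0 := norm_ne_zero_iff.2 h0
    obtain ⟨e, he'⟩ : ∃ e : E, e = ((‖a‖ : ℂ)⁻¹) • a := ⟨_, rfl⟩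
    have he : ‖e‖ = 1 := by
      rw [he', norm_smul, norm_inv, Complex.norm_real, norm_norm, inv_mul_cancel₀ hn]
    have hae : a = (‖a‖ : ℂ) • e := by
      rw [he', smul_smul, mul_inv_cancel₀ (by exact_mod_cast hn), one_smul]
    rw [mem_ball_zero_iff] at ha
    obtain ⟨ζ, hζ⟩ : ∃ ζ : ℂ, ζ = (‖a‖ : ℂ) := ⟨_, rfl⟩
    have hζn : ‖ζ‖ = ‖a‖ := by rw [hζ, Complex.norm_real, norm_norm]
    have hζ1 : ‖ζ‖ < 1 := by rw [hζn]; exact ha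
    have hζ1' : ‖-ζ‖ < 1 := by rwa [norm_neg]
    refine ⟨mob e ζ, mob e (-ζ), ⟨mob_diff he hζ1, mob_diff he hζ1', fun z hz => mob_mem he hζ1 hz,
      fun z hz => mob_mem he hζ1' hz, fun z hz => mob_inv he hζ1 hz,
      fun z hz => mob_inv' he hζ1 hz⟩, ?_, ?_⟩
    · rw [mob_zero, hζ, ← hae]
    · intro z hz
      have h1 := mob_norm he hζ1' hz
      have h2 : 1 + conj (-ζ) * ⟪e, z⟫_ℂ = 1 - ⟪a, z⟫_ℂ := by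
        have h3 : ⟪a, z⟫_ℂ = conj ζ * ⟪e, z⟫_ℂ := by
          conv_lhs => rw [hae]
          rw [inner_smul_left, hζ]
        rw [h3, map_neg]
        ring
      rw [h2, norm_neg, hζn] at h1
      exact h1

/-- Schwarz-Pick for bounded functions. -/
theorem osc_pick {G : E → ℂ} (hG : DifferentiableOn ℂ G (ball 0 1)) {M : ℝ}
    (hM : ∀ z ∈ ball (0 : E) 1, ‖G z‖ ≤ M) {a y : E} (ha : a ∈ ball (0 : E) 1)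
    (hy : y ∈ ball (0 : E) 1) {θ : ℝ} (hθ : 0 ≤ θ)
    (h : (1 - θ ^ 2) * ‖1 - ⟪a, y⟫_ℂ‖ ^ 2 ≤ (1 - ‖a‖ ^ 2) * (1 - ‖y‖ ^ 2)) :
    ‖G y - G a‖ ≤ 2 * M * θ := by
  obtain ⟨φ, ψ, hφ, hφ0, hψ⟩ := exists_aut ha
  have h0mem : (0 : E) ∈ ball (0 : E) 1 := mem_ball_self one_pos
  have hM0 : 0 ≤ M := (norm_nonneg _).trans (hM 0 h0mem)
  have hay : ‖⟪a, y⟫_ℂ‖ < 1 := by
    rw [mem_ball_zero_iff] at ha hy
    calc ‖⟪a, y⟫_ℂ‖ ≤ ‖a‖ * ‖y‖ := norm_inner_le_norm _ _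
      _ < 1 := by nlinarith [norm_nonneg a, norm_nonneg y]
  have hpos : 0 < ‖1 - ⟪a, y⟫_ℂ‖ ^ 2 := by
    have : 1 - ⟪a, y⟫_ℂ ≠ 0 := by
      intro h0
      have h1 : ⟪a, y⟫_ℂ = 1 := (sub_eq_zero.1 h0).symm
      rw [h1, norm_one] at hay
      exact lt_irrefl _ hay
    positivity
  have h1 : ‖ψ y‖ ≤ θ := by
    rw [← hψ y hy] at h
    have h2 : 1 - θ ^ 2 ≤ 1 - ‖ψ y‖ ^ 2 := le_of_mul_le_mul_right h hpos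
    exact (pow_le_pow_iff_left₀ (norm_nonneg _) hθ two_ne_zero).1 (by linarith)
  have hψy := hφ.map' y hy
  have hg : DifferentiableOn ℂ (fun x => G (φ x)) (ball 0 1) := hG.comp hφ.hol hφ.map
  have h3 := Complex.dist_le_div_mul_dist_of_mapsTo_ball (R₂ := 2 * M) hg (fun w hw => by
    rw [mem_closedBall, dist_eq_norm]
    exact (norm_sub_le _ _).trans (by
      linarith [hM _ (hφ.map w hw), hM _ (hφ.map 0 h0mem)])) hψy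
  rw [dist_eq_norm, dist_eq_norm, sub_zero, div_one, hφ.right y hy, hφ0] at h3
  exact h3.trans (mul_le_mul_of_nonneg_left h1 (by positivity))

/-- The form in which the Schwarz-Pick lemma is used. -/
theorem osc_bound {G : E → ℂ} (hG : DifferentiableOn ℂ G (ball 0 1)) {M : ℝ}
    (hM : ∀ z ∈ ball (0 : E) 1, ‖G z‖ ≤ M) {a y : E} (ha : a ∈ ball (0 : E) 1)
    (hy : y ∈ ball (0 : E) 1) {θ s : ℝ} (hθ : 0 ≤ θ) (hθ1 : θ ≤ 1) (hs : 0 ≤ s)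
    (hs1 : s ≤ 1 - ‖a‖ ^ 2) (h1 : ‖⟪a, y - a⟫_ℂ‖ ≤ θ * s / 3) (h2 : ‖y - a‖ ^ 2 ≤ θ ^ 2 * s / 9) :
    ‖G y - G a‖ ≤ 2 * M * θ := by
  apply osc_pick hG hM ha hy hθ
  obtain ⟨w, hw⟩ : ∃ w, w = y - a := ⟨_, rfl⟩
  obtain ⟨S, hS⟩ : ∃ S, S = 1 - ‖a‖ ^ 2 := ⟨_, rfl⟩
  have hyw : y = a + w := by rw [hw]; abel
  rw [← hw] at h1 h2
  rw [← hS] at hs1 ⊢
  have hS0 : 0 ≤ S := hs.trans hs1
  have e0 : ⟪a, y⟫_ℂ = ((‖a‖ ^ 2 : ℝ) : ℂ) + ⟪a, w⟫_ℂ := by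
    rw [hyw, inner_add_right, inner_self_eq_norm_sq_to_K]
    push_cast
    rfl
  have e1 : (1 : ℂ) - ⟪a, y⟫_ℂ = ((S : ℝ) : ℂ) - ⟪a, w⟫_ℂ := by
    rw [e0, hS]
    push_cast
    ring
  have e2 : ‖1 - ⟪a, y⟫_ℂ‖ ^ 2 = S ^ 2 - 2 * S * (⟪a, w⟫_ℂ).re + ‖⟪a, w⟫_ℂ‖ ^ 2 := by
    rw [e1, Complex.sq_norm, Complex.sq_norm, Complex.normSq_apply, Complex.normSq_apply]
    simp only [Complex.sub_re, Complex.sub_im, Complex.ofReal_re, Complex.ofReal_im]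
    ring
  have e3 : ‖y‖ ^ 2 = ‖a‖ ^ 2 + 2 * (⟪a, w⟫_ℂ).re + ‖w‖ ^ 2 := by
    rw [hyw]
    have := norm_add_sq (𝕜 := ℂ) a w
    simpa using this
  have e4 : ‖1 - ⟪a, y⟫_ℂ‖ ^ 2 - S * (1 - ‖y‖ ^ 2) = ‖⟪a, w⟫_ℂ‖ ^ 2 + S * ‖w‖ ^ 2 := by
    rw [e2, e3, hS]
    ring
  have h3 : S - ‖⟪a, w⟫_ℂ‖ ≤ ‖1 - ⟪a, y⟫_ℂ‖ := by
    rw [e1]
    have := norm_sub_norm_le ((S : ℝ) : ℂ) ⟪a, w⟫_ℂ
    rwa [Complex.norm_real, Real.norm_of_nonneg hS0] at this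
  have h4 : θ * s ≤ θ * S := mul_le_mul_of_nonneg_left hs1 hθ
  have h5 : θ * S ≤ S := by nlinarith
  have h6 : 2 / 3 * S ≤ ‖1 - ⟪a, y⟫_ℂ‖ := by linarith
  have h7 : (2 / 3 * S) ^ 2 ≤ ‖1 - ⟪a, y⟫_ℂ‖ ^ 2 := pow_le_pow_left₀ (by positivity) h6 2
  have h8 : ‖⟪a, w⟫_ℂ‖ ^ 2 ≤ (θ * S / 3) ^ 2 :=
    pow_le_pow_left₀ (norm_nonneg _) (h1.trans (by linarith)) 2
  have h9 : S * ‖w‖ ^ 2 ≤ S * (θ ^ 2 * S / 9) := by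
    apply mul_le_mul_of_nonneg_left _ hS0
    refine h2.trans ?_
    have : θ ^ 2 * s ≤ θ ^ 2 * S := mul_le_mul_of_nonneg_left hs1 (sq_nonneg _)
    linarith
  have h10 : θ ^ 2 * (2 / 3 * S) ^ 2 ≤ θ ^ 2 * ‖1 - ⟪a, y⟫_ℂ‖ ^ 2 :=
    mul_le_mul_of_nonneg_left h7 (sq_nonneg _)
  have h11 : 0 ≤ θ ^ 2 * S ^ 2 := by positivity
  nlinarith

end Pool.Agent.MPca0fc2.LC
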