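import Mathlib
import Pool.Agent.Lib.MP_ca0fc2_an.LCOsc

set_option autoImplicit false

open Metric Set Filter Topology
open scoped InnerProductSpace ComplexConjugate

namespace Pool.Agent.MPca0fc2.LC

open Pool.Agent.Lib.MP_ca0fc2_an

variable {E : Type*} [NormedAddCommGroup E] [InnerProductSpace ℂ E]

/-- a contraction preserves the inner products with a vector whose norm it preserves -/
theorem touch_inner {A : E →L[ℂ] E} (hA : ∀ v, ‖A v‖ ≤ ‖v‖) {l : E} (hl : ‖A l‖ = ‖l‖) (x : E) :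
    ⟪A l, A x⟫_ℂ = ⟪l, x⟫_ℂ := by
  obtain ⟨D, hD⟩ : ∃ D, D = ⟪A l, A x⟫_ℂ - ⟪l, x⟫_ℂ := ⟨_, rfl⟩
  by_contra hne
  have hD0 : D ≠ 0 := by rw [hD]; exact sub_ne_zero.2 hne
  have hDn : 0 < ‖D‖ ^ 2 := by positivity
  have key : ∀ τ : ℝ, 0 < τ → 2 * τ * ‖D‖ ^ 2 ≤ τ ^ 2 * ‖D‖ ^ 2 * ‖x‖ ^ 2 := by
    intro τ hτ
    obtain ⟨c, hc⟩ : ∃ c : ℂ, c = (τ : ℂ) * conj D := ⟨_, rfl⟩
    have h1 := hA (l + c • x)
    have h2 : ‖A (l + c • x)‖ ^ 2 ≤ ‖l + c • x‖ ^ 2 := pow_le_pow_left₀ (norm_nonneg _) h1 2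
    rw [map_add, map_smul] at h2
    have e1 := norm_add_sq (𝕜 := ℂ) (A l) (c • A x)
    have e2 := norm_add_sq (𝕜 := ℂ) l (c • x)
    simp only [inner_smul_right, norm_smul, RCLike.re_to_complex] at e1 e2
    rw [e1, e2, hl] at h2
    have e3 : (c * ⟪A l, A x⟫_ℂ).re - (c * ⟪l, x⟫_ℂ).re = τ * ‖D‖ ^ 2 := by
      rw [← Complex.sub_re, ← mul_sub, ← hD, hc, mul_assoc]
      have : conj D * D = ((‖D‖ ^ 2 : ℝ) : ℂ) := by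
        rw [Complex.conj_mul']
        push_cast
        rfl
      rw [this, ← Complex.ofReal_mul, Complex.ofReal_re]
    have e4 : ‖c‖ ^ 2 = τ ^ 2 * ‖D‖ ^ 2 := by
      rw [hc, norm_mul, Complex.norm_real, Real.norm_of_nonneg hτ.le, RCLike.norm_conj, mul_pow]
    have h3 : 0 ≤ (‖c‖ * ‖A x‖) ^ 2 := sq_nonneg _
    have h4 : (‖c‖ * ‖x‖) ^ 2 = τ ^ 2 * ‖D‖ ^ 2 * ‖x‖ ^ 2 := by rw [mul_pow, e4]
    linarith
  have h1 := key (1 / (‖x‖ ^ 2 + 1)) (by positivity)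
  have h2 : (1 / (‖x‖ ^ 2 + 1)) * ‖x‖ ^ 2 ≤ 1 := by
    rw [one_div_mul_eq_div, div_le_one (by positivity)]
    linarith
  have h3 : 0 < 1 / (‖x‖ ^ 2 + 1) * ‖D‖ ^ 2 := by positivity
  nlinarith

/-- the norm of the image -/
theorem touch_norm {A : E →L[ℂ] E} (hA : ∀ v, ‖A v‖ ≤ ‖v‖) {l : E} (hl1 : ‖l‖ = 1)
    (hl : ‖A l‖ = ‖l‖) (z : E) : ‖A z‖ ^ 2 = ‖⟪l, z⟫_ℂ‖ ^ 2 + ‖A (prj l z)‖ ^ 2 := by
  have h1 : A z = ⟪l, z⟫_ℂ • A l + A (prj l z) := by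
    conv_lhs => rw [← dec_eq (e := l) z, map_add, map_smul]
  have h2 : ⟪⟪l, z⟫_ℂ • A l, A (prj l z)⟫_ℂ = 0 := by
    rw [inner_smul_left, touch_inner hA hl, inner_prj hl1, mul_zero]
  rw [h1]
  have h3 := norm_add_sq (𝕜 := ℂ) (⟪l, z⟫_ℂ • A l) (A (prj l z))
  rw [h2] at h3
  rw [h3, norm_smul, hl, hl1, mul_one]
  simp

/-- the component in the direction of the image -/
theorem touch_cell {A : E →L[ℂ] E} (hA : ∀ v, ‖A v‖ ≤ ‖v‖) {l : E} (hl1 : ‖l‖ = 1)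
    (hl : ‖A l‖ = ‖l‖) {η : ℝ} (hη0 : 0 ≤ η) (hη1 : η ≤ 1) {b w : E} (hb : b ∈ ball (0 : E) 1)
    (h1 : ‖⟪l, w⟫_ℂ‖ ≤ η * (1 - ‖⟪l, b⟫_ℂ‖)) (h2 : ‖w‖ ^ 2 ≤ η * (1 - ‖⟪l, b⟫_ℂ‖)) :
    ‖⟪A b, A w⟫_ℂ‖ ≤ 3 * Real.sqrt η * (1 - ‖⟪l, b⟫_ℂ‖) := by
  obtain ⟨t, ht⟩ : ∃ t, t = 1 - ‖⟪l, b⟫_ℂ‖ := ⟨_, rfl⟩
  have hlb : ‖⟪l, b⟫_ℂ‖ < 1 := norm_inner_lt hl1 hb
  have ht0 : 0 < t := by rw [ht]; linarith
  have ht1 : t ≤ 1 := by rw [ht]; linarith [norm_nonneg ⟪l, b⟫_ℂ]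
  rw [← ht] at h1 h2 ⊢
  have hb1 : ‖b‖ ^ 2 < 1 := by
    rw [mem_ball_zero_iff] at hb
    nlinarith [norm_nonneg b]
  have hdec := norm_sq_dec hl1 b
  have hlb' : ‖⟪l, b⟫_ℂ‖ = 1 - t := by rw [ht]; ring
  have hb' : ‖prj l b‖ ^ 2 ≤ 2 * t := by
    rw [hlb'] at hdec
    nlinarith
  have h3 : ⟪A b, A w⟫_ℂ = conj ⟪l, b⟫_ℂ * ⟪l, w⟫_ℂ + ⟪A (prj l b), A w⟫_ℂ := by
    have e1 : A b = ⟪l, b⟫_ℂ • A l + A (prj l b) := by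
      conv_lhs => rw [← dec_eq (e := l) b, map_add, map_smul]
    rw [e1, inner_add_left, inner_smul_left, touch_inner hA hl]
  obtain ⟨q, hq⟩ : ∃ q, q = Real.sqrt η := ⟨_, rfl⟩
  have hq0 : 0 ≤ q := by rw [hq]; exact Real.sqrt_nonneg _
  have hq2 : q ^ 2 = η := by rw [hq]; exact Real.sq_sqrt hη0
  have hq1 : q ≤ 1 := by
    by_contra hcon
    push Not at hcon
    nlinarith
  rw [← hq]
  have h4 : ‖⟪A (prj l b), A w⟫_ℂ‖ ≤ 2 * q * t := by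
    have h5 : ‖⟪A (prj l b), A w⟫_ℂ‖ ≤ ‖prj l b‖ * ‖w‖ :=
      (norm_inner_le_norm _ _).trans (mul_le_mul (hA _) (hA _) (norm_nonneg _) (norm_nonneg _))
    refine h5.trans ?_
    apply le_of_sq_le_sq _ (by positivity)
    rw [mul_pow]
    calc ‖prj l b‖ ^ 2 * ‖w‖ ^ 2 ≤ (2 * t) * (η * t) := by gcongr
      _ ≤ (2 * q * t) ^ 2 := by rw [← hq2]; nlinarith [sq_nonneg (q * t)]
  calc ‖⟪A b, A w⟫_ℂ‖ ≤ ‖conj ⟪l, b⟫_ℂ * ⟪l, w⟫_ℂ‖ + ‖⟪A (prj l b), A w⟫_ℂ‖ := by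
        rw [h3]; exact norm_add_le _ _
    _ ≤ 1 * (η * t) + 2 * q * t := by
        rw [norm_mul, RCLike.norm_conj]
        gcongr
    _ ≤ 3 * q * t := by
        rw [← hq2]
        have : q ^ 2 * t ≤ q * t := by
          have : q ^ 2 ≤ q := by nlinarith
          gcongr
        linarith

/-- the variation on the cells of the line, if the image of the centre is deep -/
theorem touch_osc {A : E →L[ℂ] E} (hA : ∀ v, ‖A v‖ ≤ ‖v‖) {l : E} (hl1 : ‖l‖ = 1)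
    (hl : ‖A l‖ = ‖l‖) {κ θ η : ℝ} (hκ0 : 0 < κ) (hκ1 : κ ≤ 1) (hθ0 : 0 < θ) (hθ1 : θ ≤ 1)
    (hη : η = (θ * κ / 9) ^ 2) {G : E → ℂ} (hG : DifferentiableOn ℂ G (ball 0 1)) {M : ℝ}
    (hM : ∀ z ∈ ball (0 : E) 1, ‖G z‖ ≤ M) {b z : E} (hb : b ∈ ball (0 : E) 1)
    (hz : z ∈ ball (0 : E) 1) (hcell : z ∈ lineCell l η id b)
    (hdeep : ‖A (prj l b)‖ ^ 2 ≤ (1 - κ) * (1 - ‖⟪l, b⟫_ℂ‖ ^ 2)) :
    ‖G (A z) - G (A b)‖ ≤ 2 * M * θ := by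
  have hmem : ∀ z ∈ ball (0 : E) 1, A z ∈ ball (0 : E) 1 := by
    intro z hz
    rw [mem_ball_zero_iff] at hz ⊢
    exact (hA z).trans_lt hz
  have hlb : ‖⟪l, b⟫_ℂ‖ < 1 := norm_inner_lt hl1 hb
  obtain ⟨t, ht⟩ : ∃ t, t = 1 - ‖⟪l, b⟫_ℂ‖ := ⟨_, rfl⟩
  have ht0 : 0 < t := by rw [ht]; linarith
  have hη0 : 0 ≤ η := by rw [hη]; positivity
  have hθκ : θ * κ / 9 ≤ 1 / 9 := by
    have : θ * κ ≤ 1 * 1 := mul_le_mul hθ1 hκ1 hκ0.le zero_le_one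
    linarith
  have hθκ0 : 0 ≤ θ * κ / 9 := by positivity
  have hsq : Real.sqrt η = θ * κ / 9 := by rw [hη, Real.sqrt_sq hθκ0]
  have hη1 : η ≤ 1 := by rw [hη]; nlinarith
  have h1 : ‖⟪l, z - b⟫_ℂ‖ ≤ η * (1 - ‖⟪l, b⟫_ℂ‖) := hcell.1.le
  have h2 : ‖z - b‖ ^ 2 ≤ η * (1 - ‖⟪l, b⟫_ℂ‖) := hcell.2.le
  have h3 := touch_cell hA hl1 hl hη0 hη1 hb h1 h2
  rw [← ht] at h2 h3
  rw [hsq] at h3
  have hAzb : A z - A b = A (z - b) := by rw [map_sub]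
  refine osc_bound hG hM (hmem b hb) (hmem z hz) hθ0.le hθ1 (s := κ * t) (by positivity) ?_ ?_ ?_
  · rw [touch_norm hA hl1 hl b]
    have h4 : κ * t ≤ κ * (1 - ‖⟪l, b⟫_ℂ‖ ^ 2) := by
      apply mul_le_mul_of_nonneg_left _ hκ0.le
      rw [ht]
      nlinarith [norm_nonneg ⟪l, b⟫_ℂ]
    linarith
  · rw [hAzb]
    refine h3.trans (le_of_eq ?_)
    ring
  · rw [hAzb]
    have h4 : ‖A (z - b)‖ ^ 2 ≤ ‖z - b‖ ^ 2 := pow_le_pow_left₀ (norm_nonneg _) (hA _) 2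
    refine h4.trans (h2.trans ?_)
    rw [hη]
    have h5 : κ ^ 2 ≤ κ := by nlinarith
    calc (θ * κ / 9) ^ 2 * t = θ ^ 2 * κ ^ 2 * t / 81 := by ring
      _ ≤ θ ^ 2 * κ * t / 9 := by
        have h6 : θ ^ 2 * κ ^ 2 * t ≤ θ ^ 2 * κ * t := by gcongr
        have h7 : 0 ≤ θ ^ 2 * κ * t := by positivity
        linarith
      _ = _ := by ring

/-- the variation near a boundary point whose image is in the open ball -/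
theorem strict_osc {A : E →L[ℂ] E} (hA : ∀ v, ‖A v‖ ≤ ‖v‖) {l : E}
    (hl : ‖A l‖ < 1) {θ ρ : ℝ} (hθ0 : 0 < θ) (hθ1 : θ ≤ 1) (hρ0 : 0 < ρ)
    (hρ : ρ ≤ θ * (1 - ‖A l‖) / 12) {G : E → ℂ} (hG : DifferentiableOn ℂ G (ball 0 1)) {M : ℝ}
    (hM : ∀ z ∈ ball (0 : E) 1, ‖G z‖ ≤ M) {b z : E} (hb : b ∈ ball (0 : E) 1)
    (hz : z ∈ ball (0 : E) 1) (hbl : b ∈ ball l ρ) (hzl : z ∈ ball l ρ) :
    ‖G (A z) - G (A b)‖ ≤ 2 * M * θ := by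
  have hmem : ∀ z ∈ ball (0 : E) 1, A z ∈ ball (0 : E) 1 := by
    intro z hz
    rw [mem_ball_zero_iff] at hz ⊢
    exact (hA z).trans_lt hz
  obtain ⟨c, hc⟩ : ∃ c, c = (1 - ‖A l‖) / 2 := ⟨_, rfl⟩
  have hc0 : 0 < c := by rw [hc]; linarith
  have hc1 : c ≤ 1 := by rw [hc]; linarith [norm_nonneg (A l)]
  have hρc : ρ ≤ θ * c / 6 := by rw [hc]; linarith
  have hθc : θ * c ≤ c := by nlinarith
  rw [mem_ball, dist_eq_norm] at hbl hzl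
  have hw : ‖z - b‖ ≤ 2 * ρ := by
    calc ‖z - b‖ = ‖(z - l) - (b - l)‖ := by congr 1; abel
      _ ≤ ‖z - l‖ + ‖b - l‖ := norm_sub_le _ _
      _ ≤ 2 * ρ := by linarith
  have hAw : ‖A (z - b)‖ ≤ 2 * ρ := (hA _).trans hw
  have hAzb : A z - A b = A (z - b) := by rw [map_sub]
  have hAb : ‖A b‖ ≤ 1 - c := by
    have h1 : ‖A b‖ ≤ ‖A l‖ + ‖A (b - l)‖ := by
      calc ‖A b‖ = ‖A l + A (b - l)‖ := by rw [map_sub]; congr 1; abel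
        _ ≤ _ := norm_add_le _ _
    have h2 := hA (b - l)
    have h3 : ‖A l‖ = 1 - 2 * c := by rw [hc]; ring
    linarith
  have hAb1 : ‖A b‖ ≤ 1 := by linarith
  refine osc_bound hG hM (hmem b hb) (hmem z hz) hθ0.le hθ1 (s := c) hc0.le ?_ ?_ ?_
  · nlinarith [norm_nonneg (A b)]
  · rw [hAzb]
    calc ‖⟪A b, A (z - b)⟫_ℂ‖ ≤ ‖A b‖ * ‖A (z - b)‖ := norm_inner_le_norm _ _
      _ ≤ 1 * (2 * ρ) := by gcongr
      _ ≤ θ * c / 3 := by linarith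
  · rw [hAzb]
    calc ‖A (z - b)‖ ^ 2 ≤ (θ * c / 3) ^ 2 :=
          pow_le_pow_left₀ (norm_nonneg _) (by linarith) 2
      _ = θ ^ 2 * c ^ 2 / 9 := by ring
      _ ≤ θ ^ 2 * c / 9 := by
        have h5 : c ^ 2 ≤ c := by nlinarith
        have : θ ^ 2 * c ^ 2 ≤ θ ^ 2 * c := by gcongr
        linarith

/-- two contractions that are isometric at `l`, but not on a common plane -/
theorem pair_const [FiniteDimensional ℂ E] {A A' : E →L[ℂ] E} (hA : ∀ v, ‖A v‖ ≤ ‖v‖)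
    (hA' : ∀ v, ‖A' v‖ ≤ ‖v‖) {l : E} (hl1 : ‖l‖ = 1) (hl : ‖A l‖ = ‖l‖) (hl' : ‖A' l‖ = ‖l‖)
    (hline : ∃ e : E, ∀ v, ‖A v‖ = ‖v‖ → ‖A' v‖ = ‖v‖ → ∃ c : ℂ, v = c • e) :
    ∃ κ : ℝ, 0 < κ ∧ ∀ x : E, ⟪l, x⟫_ℂ = 0 → ‖A x‖ ^ 2 + ‖A' x‖ ^ 2 ≤ 2 * (1 - κ) * ‖x‖ ^ 2 := by
  obtain ⟨e, he⟩ := hline
  have hprop : ProperSpace E := FiniteDimensional.proper ℂ E
  have hzero : ∀ x : E, ⟪l, x⟫_ℂ = 0 → ‖A x‖ = ‖x‖ → ‖A' x‖ = ‖x‖ → x = 0 := by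
    intro x hx h1 h2
    obtain ⟨c, hc⟩ := he l hl hl'
    obtain ⟨d, hd⟩ := he x h1 h2
    have hc0 : c ≠ 0 := by
      rintro rfl
      rw [zero_smul] at hc
      rw [hc, norm_zero] at hl1
      exact zero_ne_one hl1
    have h3 : x = (d / c) • l := by
      rw [hd, hc, smul_smul, div_mul_cancel₀ _ hc0]
    rw [h3, inner_smul_right, inner_self_one hl1, mul_one] at hx
    rw [h3, hx, zero_smul]
  obtain ⟨K, hK⟩ : ∃ K : Set E, K = {x | ‖x‖ = 1 ∧ ⟪l, x⟫_ℂ = 0} := ⟨_, rfl⟩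
  have hKc : IsCompact K := by
    have h1 : K = sphere (0 : E) 1 ∩ {x | ⟪l, x⟫_ℂ = 0} := by
      rw [hK]
      ext x
      simp
    rw [h1]
    apply (isCompact_sphere (0 : E) 1).inter_right
    exact isClosed_eq ((innerSL ℂ l).continuous) continuous_const
  have hq : ContinuousOn (fun x : E => 2 - ‖A x‖ ^ 2 - ‖A' x‖ ^ 2) K := by
    have c1 : Continuous fun x : E => A x := A.continuous
    have c2 : Continuous fun x : E => A' x := A'.continuous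
    exact ((continuous_const.sub (c1.norm.pow 2)).sub (c2.norm.pow 2)).continuousOn
  have hpos : ∀ x ∈ K, 0 < 2 - ‖A x‖ ^ 2 - ‖A' x‖ ^ 2 := by
    intro x hx
    rw [hK] at hx
    have h1 := hA x
    have h2 := hA' x
    rw [hx.1] at h1 h2
    have h3 : ‖A x‖ ^ 2 ≤ 1 := by nlinarith [norm_nonneg (A x)]
    have h4 : ‖A' x‖ ^ 2 ≤ 1 := by nlinarith [norm_nonneg (A' x)]
    by_contra hcon
    push Not at hcon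
    have h5 : ‖A x‖ ^ 2 = 1 := by linarith
    have h6 : ‖A' x‖ ^ 2 = 1 := by linarith
    have h7 : ‖A x‖ = 1 := by nlinarith [norm_nonneg (A x)]
    have h8 : ‖A' x‖ = 1 := by nlinarith [norm_nonneg (A' x)]
    have h9 := hzero x hx.2 (by rw [h7, hx.1]) (by rw [h8, hx.1])
    have h10 := hx.1
    rw [h9, norm_zero] at h10
    exact zero_ne_one h10
  have hmin : ∃ κ : ℝ, 0 < κ ∧ ∀ x ∈ K, 2 * κ ≤ 2 - ‖A x‖ ^ 2 - ‖A' x‖ ^ 2 := by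
    rcases K.eq_empty_or_nonempty with hE | hne
    · exact ⟨1, one_pos, fun x hx => by rw [hE] at hx; exact absurd hx (notMem_empty x)⟩
    · obtain ⟨x₀, hx₀, hx₀m⟩ := hKc.exists_isMinOn hne hq
      refine ⟨(2 - ‖A x₀‖ ^ 2 - ‖A' x₀‖ ^ 2) / 2, by have := hpos x₀ hx₀; positivity, ?_⟩
      intro x hx
      have h1 : 2 - ‖A x₀‖ ^ 2 - ‖A' x₀‖ ^ 2 ≤ 2 - ‖A x‖ ^ 2 - ‖A' x‖ ^ 2 := hx₀m hx
      linarith
  obtain ⟨κ, hκ, hκm⟩ := hmin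
  refine ⟨κ, hκ, fun x hx => ?_⟩
  by_cases hx0 : x = 0
  · rw [hx0]; simp
  · have hxn : 0 < ‖x‖ := norm_pos_iff.2 hx0
    obtain ⟨y, hy⟩ : ∃ y : E, y = ((‖x‖ : ℂ)⁻¹) • x := ⟨_, rfl⟩
    have hyn : ‖y‖ = 1 := by
      rw [hy, norm_smul, norm_inv, Complex.norm_real, norm_norm, inv_mul_cancel₀ hxn.ne']
    have hxy : x = (‖x‖ : ℂ) • y := by
      rw [hy, smul_smul, mul_inv_cancel₀ (by exact_mod_cast hxn.ne'), one_smul]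
    have hyK : y ∈ K := by
      rw [hK]
      refine ⟨hyn, ?_⟩
      rw [hy, inner_smul_right, hx, mul_zero]
    have h1 := hκm y hyK
    have h2 : ‖A x‖ = ‖x‖ * ‖A y‖ := by
      conv_lhs => rw [hxy]
      rw [map_smul, norm_smul, Complex.norm_real, norm_norm]
    have h3 : ‖A' x‖ = ‖x‖ * ‖A' y‖ := by
      conv_lhs => rw [hxy]
      rw [map_smul, norm_smul, Complex.norm_real, norm_norm]
    rw [h2, h3, mul_pow, mul_pow]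
    nlinarith [sq_nonneg ‖x‖]

/-- at most one of the two contractions is shallow on a cell -/
theorem pair_deep {A A' : E →L[ℂ] E} {l : E} (hl1 : ‖l‖ = 1) {κ : ℝ}
    (hκ1 : κ ≤ 1)
    (hpair : ∀ x : E, ⟪l, x⟫_ℂ = 0 → ‖A x‖ ^ 2 + ‖A' x‖ ^ 2 ≤ 2 * (1 - κ) * ‖x‖ ^ 2)
    {b : E} (hb : b ∈ ball (0 : E) 1)
    (h1 : (1 - κ) * (1 - ‖⟪l, b⟫_ℂ‖ ^ 2) < ‖A (prj l b)‖ ^ 2) :
    ‖A' (prj l b)‖ ^ 2 ≤ (1 - κ) * (1 - ‖⟪l, b⟫_ℂ‖ ^ 2) := by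
  have h2 := hpair (prj l b) (inner_prj hl1 b)
  have hb1 : ‖b‖ ^ 2 < 1 := by
    rw [mem_ball_zero_iff] at hb
    nlinarith [norm_nonneg b]
  have hdec := norm_sq_dec hl1 b
  have h3 : ‖prj l b‖ ^ 2 ≤ 1 - ‖⟪l, b⟫_ℂ‖ ^ 2 := by linarith
  have h4 : (1 - κ) * ‖prj l b‖ ^ 2 ≤ (1 - κ) * (1 - ‖⟪l, b⟫_ℂ‖ ^ 2) :=
    mul_le_mul_of_nonneg_left h3 (by linarith)
  linarith

end Pool.Agent.MPca0fc2.LC
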