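import Mathlib
import Pool.Agent.Lib.MP_ca0fc2_an.LCCell
import Pool.Agent.Lib.MP_ca0fc2_an.SVAlg

/-!
# Examples of data which are apart
-/

set_option autoImplicit false

open Metric Set Filter Topology
open scoped InnerProductSpace ComplexConjugate

namespace Pool.Agent.MPca0fc2.SV

open Pool.Agent.Lib.MP_ca0fc2_an

variable {E : Type*} [NormedAddCommGroup E] [InnerProductSpace ℂ E]

/-- the function which belongs to the ellipsoid `‖A z‖ < 1` -/
noncomputable def rad (A : E →L[ℂ] E) (z : E) : ℝ := Real.sqrt (‖z‖ ^ 2 - ‖A z‖ ^ 2)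

theorem rad_sq {A : E →L[ℂ] E} (hA : ∀ v, ‖A v‖ ≤ ‖v‖) (z : E) :
    rad A z ^ 2 = ‖z‖ ^ 2 - ‖A z‖ ^ 2 := by
  rw [rad, Real.sq_sqrt]
  have := pow_le_pow_left₀ (norm_nonneg _) (hA z) 2
  linarith

theorem dom_rad {A : E →L[ℂ] E} (hA : ∀ v, ‖A v‖ ≤ ‖v‖) : dom (rad A) = {z | ‖A z‖ < 1} := by
  ext z
  show ‖z‖ ^ 2 < 1 + rad A z ^ 2 ↔ ‖A z‖ < 1
  rw [rad_sq hA]
  constructor
  · intro h
    nlinarith [norm_nonneg (A z)]
  · intro h
    nlinarith [norm_nonneg (A z)]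

/-- the function is a seminorm -/
theorem rad_add {A : E →L[ℂ] E} (hA : ∀ v, ‖A v‖ ≤ ‖v‖) (z w : E) :
    rad A (z + w) ≤ rad A z + rad A w := by
  obtain ⟨q, hq⟩ : ∃ q : ℝ, q = (⟪z, w⟫_ℂ).re - (⟪A z, A w⟫_ℂ).re := ⟨_, rfl⟩
  have h1 : ∀ t : ℝ, rad A (z + (t : ℂ) • w) ^ 2 =
      rad A w ^ 2 * (t * t) + 2 * q * t + rad A z ^ 2 := by
    intro t
    rw [rad_sq hA, rad_sq hA, rad_sq hA, map_add, map_smul]
    have e1 := norm_add_sq (𝕜 := ℂ) z ((t : ℂ) • w)
    have e2 := norm_add_sq (𝕜 := ℂ) (A z) ((t : ℂ) • A w)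
    simp only [inner_smul_right, norm_smul, RCLike.re_to_complex, Complex.norm_real,
      Complex.re_ofReal_mul, mul_pow, Real.norm_eq_abs, sq_abs] at e1 e2
    rw [e1, e2, hq]
    ring
  have h2 : discrim (rad A w ^ 2) (2 * q) (rad A z ^ 2) ≤ 0 := by
    apply discrim_le_zero
    intro t
    rw [← h1]
    positivity
  rw [discrim] at h2
  have h3 : q ≤ rad A z * rad A w := by
    have h4 : q ^ 2 ≤ (rad A z * rad A w) ^ 2 := by nlinarith
    exact le_trans (le_abs_self q) (abs_le_of_sq_le_sq h4 (mul_nonneg (Real.sqrt_nonneg _)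
      (Real.sqrt_nonneg _)))
  have h4 := h1 1
  rw [Complex.ofReal_one, one_smul] at h4
  have h5 : 0 ≤ rad A z := Real.sqrt_nonneg _
  have h6 : 0 ≤ rad A w := Real.sqrt_nonneg _
  apply le_of_sq_le_sq _ (by positivity)
  nlinarith

theorem rad_lip {A : E →L[ℂ] E} (hA : ∀ v, ‖A v‖ ≤ ‖v‖) (z w : E) :
    |rad A z - rad A w| ≤ 1 * ‖z - w‖ := by
  have h0 : ∀ x : E, rad A x ≤ ‖x‖ := by
    intro x
    apply le_of_sq_le_sq _ (norm_nonneg _)
    rw [rad_sq hA]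
    linarith [sq_nonneg ‖A x‖]
  have h1 := rad_add hA w (z - w)
  have h2 := rad_add hA z (w - z)
  rw [add_sub_cancel] at h1 h2
  have h3 := h0 (z - w)
  have h4 := h0 (w - z)
  rw [norm_sub_rev] at h4
  rw [one_mul, abs_le]
  constructor <;> linarith

/-- Two linear contractions whose common isometric vectors lie in one complex line. -/
theorem apart_rad [FiniteDimensional ℂ E] {A A' : E →L[ℂ] E} (hA : ∀ v, ‖A v‖ ≤ ‖v‖)
    (hA' : ∀ v, ‖A' v‖ ≤ ‖v‖)
    (hline : ∃ e : E, ∀ v, ‖A v‖ = ‖v‖ → ‖A' v‖ = ‖v‖ → ∃ c : ℂ, v = c • e) :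
    Apart (rad A) (rad A') := by
  have hprop : ProperSpace E := FiniteDimensional.proper ℂ E
  have hsum : ∀ z : E, ∀ c : ℝ, 0 ≤ c → c ^ 2 ≤ rad A z ^ 2 + rad A' z ^ 2 →
      c ≤ rad A z + rad A' z := by
    intro z c hc h
    have h5 : 0 ≤ rad A z := Real.sqrt_nonneg _
    have h6 : 0 ≤ rad A' z := Real.sqrt_nonneg _
    apply le_of_sq_le_sq _ (by positivity)
    nlinarith [mul_nonneg h5 h6]
  by_cases hl : ∃ l : E, ‖l‖ = 1 ∧ ‖A l‖ = ‖l‖ ∧ ‖A' l‖ = ‖l‖
  · obtain ⟨l, hl1, hl, hl'⟩ := hl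
    obtain ⟨κ, hκ, h⟩ := LC.pair_const hA hA' hl1 hl hl' hline
    refine ⟨Real.sqrt κ, {(0, l)}, Real.sqrt_pos.2 hκ, ?_, ?_⟩
    · intro x hx
      rw [Finset.mem_singleton] at hx
      rw [hx, norm_zero]
      exact one_pos
    · intro z _
      refine ⟨(0, l), Finset.mem_singleton_self _, ⟪l, z⟫_ℂ, ?_⟩
      have e1 : z - (((0 : E), l).1 + ⟪l, z⟫_ℂ • ((0 : E), l).2) = prj l z := by
        rw [prj_apply]
        simp
      rw [e1]
      apply hsum z _ (by positivity)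
      rw [mul_pow, Real.sq_sqrt hκ.le, rad_sq hA, rad_sq hA', LC.touch_norm hA hl1 hl,
        LC.touch_norm hA' hl1 hl', norm_sq_dec hl1 z]
      have h1 := h (prj l z) (inner_prj hl1 z)
      nlinarith [mul_nonneg hκ.le (sq_nonneg ‖prj l z‖)]
  · push Not at hl
    have hpos : ∀ x ∈ sphere (0 : E) 1, 0 < 2 - ‖A x‖ ^ 2 - ‖A' x‖ ^ 2 := by
      intro x hx
      rw [mem_sphere_zero_iff_norm] at hx
      have h1 := hA x
      have h2 := hA' x
      have h3 := hl x hx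
      rw [hx] at h1 h2 h3
      have h4 : ‖A x‖ ^ 2 ≤ 1 := by nlinarith [norm_nonneg (A x)]
      have h5 : ‖A' x‖ ^ 2 ≤ 1 := by nlinarith [norm_nonneg (A' x)]
      by_contra hcon
      push Not at hcon
      have h6 : ‖A x‖ ^ 2 = 1 := by linarith
      have h7 : ‖A' x‖ ^ 2 = 1 := by linarith
      have h8 : ‖A x‖ = 1 := by nlinarith [norm_nonneg (A x)]
      have h9 : ‖A' x‖ = 1 := by nlinarith [norm_nonneg (A' x)]
      exact h3 h8 h9
    obtain ⟨κ, hκ, hκm⟩ : ∃ κ : ℝ, 0 < κ ∧ ∀ x ∈ sphere (0 : E) 1,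
        κ ≤ 2 - ‖A x‖ ^ 2 - ‖A' x‖ ^ 2 := by
      rcases (sphere (0 : E) 1).eq_empty_or_nonempty with hE | hne
      · exact ⟨1, one_pos, fun x hx => by rw [hE] at hx; exact absurd hx (notMem_empty x)⟩
      · have hq : Continuous fun x : E => 2 - ‖A x‖ ^ 2 - ‖A' x‖ ^ 2 := by
          have c1 : Continuous fun x : E => A x := A.continuous
          have c2 : Continuous fun x : E => A' x := A'.continuous
          exact (continuous_const.sub (c1.norm.pow 2)).sub (c2.norm.pow 2)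
        obtain ⟨x₀, hx₀, hx₀m⟩ := (isCompact_sphere (0 : E) 1).exists_isMinOn hne hq.continuousOn
        exact ⟨_, hpos x₀ hx₀, fun x hx => hx₀m hx⟩
    refine ⟨Real.sqrt κ, {(0, 0)}, Real.sqrt_pos.2 hκ, ?_, ?_⟩
    · intro x hx
      rw [Finset.mem_singleton] at hx
      rw [hx, norm_zero]
      exact one_pos
    · intro z hz
      refine ⟨(0, 0), Finset.mem_singleton_self _, 0, ?_⟩
      simp only [smul_zero, add_zero, sub_zero, hz, mul_one]
      apply hsum z _ (by positivity)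
      rw [Real.sq_sqrt hκ.le, rad_sq hA, rad_sq hA', hz]
      have := hκm z (by rwa [mem_sphere_zero_iff_norm])
      linarith

/-- Arbitrarily many linear contractions `A i`, which are pairwise isometric at most on a complex
line, and one arbitrary function for each of them. -/
theorem contractions (hDC : DiscCorona) [FiniteDimensional ℂ E] (N : ℕ) (δ : ℝ) (hδ : 0 < δ) :
    ∃ η : ℝ, 0 < η ∧ ∀ {ι : Type*} (A : ι → E →L[ℂ] E) (M : ι → ℝ)
      (P : Fin N → MvPolynomial ι ℂ), (∀ i v, ‖A i v‖ ≤ ‖v‖) →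
      (∀ i j, i ≠ j → ∃ e : E, ∀ v, ‖A i v‖ = ‖v‖ → ‖A j v‖ = ‖v‖ → ∃ c : ℂ, v = c • e) →
      ∃ C : ℝ, ∀ (f : Fin N → E → ℂ) (G : ι → E → ℂ),
        (∀ j, DifferentiableOn ℂ (f j) (ball 0 1)) →
        (∀ i, DifferentiableOn ℂ (G i) (ball 0 1)) →
        (∀ i, ∀ z ∈ ball (0 : E) 1, ‖G i z‖ ≤ M i) →
        (∀ j, ∀ z ∈ ball (0 : E) 1,
          ‖f j z - MvPolynomial.eval (fun i => G i (A i z)) (P j)‖ ≤ η) →
        (∀ z ∈ ball (0 : E) 1, δ ≤ ∑ j, ‖f j z‖ ^ 2) →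
        SolvableOn f (ball 0 1) C := by
  obtain ⟨η, hη, h⟩ := sv_alg (E := E) hDC N δ hδ
  refine ⟨η, hη, fun {ι} A M P hA hline => ?_⟩
  obtain ⟨C, hC⟩ := h (fun i => rad (A i)) (fun _ => 1) M P (fun i => rad_lip (hA i))
    (fun i j hij => apart_rad (hA i) (hA j) (hline i j hij))
  refine ⟨C, fun f G hf hG hGM hfG hfδ => hC f (fun i z => G i (A i z)) hf ?_ ?_ hfG hfδ⟩
  · intro i
    rw [dom_rad (hA i)]
    refine (hG i).comp (A i).differentiable.differentiableOn fun z hz => ?_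
    rw [mem_ball_zero_iff]
    exact hz
  · intro i z hz
    rw [dom_rad (hA i)] at hz
    exact hGM i _ (by rw [mem_ball_zero_iff]; exact hz)

/-- Subspaces which pairwise meet in lines: one arbitrary function on each of them. -/
theorem subspaces (hDC : DiscCorona) [FiniteDimensional ℂ E] (N : ℕ) (δ : ℝ) (hδ : 0 < δ) :
    ∃ η : ℝ, 0 < η ∧ ∀ {ι : Type*} (V : ι → Submodule ℂ E) (M : ι → ℝ)
      (P : Fin N → MvPolynomial ι ℂ),
      (∀ i j, i ≠ j → Module.finrank ℂ (V i ⊓ V j : Submodule ℂ E) ≤ 1) →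
      ∃ C : ℝ, ∀ (f : Fin N → E → ℂ) (G : ι → E → ℂ),
        (∀ j, DifferentiableOn ℂ (f j) (ball 0 1)) →
        (∀ i, DifferentiableOn ℂ (G i) (ball 0 1)) →
        (∀ i, ∀ z ∈ ball (0 : E) 1, ‖G i z‖ ≤ M i) →
        (∀ j, ∀ z ∈ ball (0 : E) 1,
          ‖f j z - MvPolynomial.eval (fun i => G i ((V i).starProjection z)) (P j)‖ ≤ η) →
        (∀ z ∈ ball (0 : E) 1, δ ≤ ∑ j, ‖f j z‖ ^ 2) →
        SolvableOn f (ball 0 1) C := by
  obtain ⟨η, hη, h⟩ := contractions (E := E) hDC N δ hδ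
  refine ⟨η, hη, fun {ι} V M P hV => h (fun i => (V i).starProjection) M P ?_ ?_⟩
  · intro i v
    exact (V i).norm_starProjection_apply_le v
  · intro i j hij
    obtain ⟨e, he⟩ := finrank_le_one_iff.1 (hV i j hij)
    refine ⟨e, fun v h1 h2 => ?_⟩
    have h3 : v ∈ V i := ((V i).mem_iff_norm_starProjection v).2 h1
    have h4 : v ∈ V j := ((V j).mem_iff_norm_starProjection v).2 h2
    obtain ⟨c, hc⟩ := he ⟨v, h3, h4⟩
    exact ⟨c, by rw [← Submodule.coe_smul, hc]⟩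

/-- Functions on the domains `|z₁|² + (Re (a z₂))² < 1` for different directions of `a`. -/
theorem apart_tube {a b : ℂ} (hab : (a * conj b).im ≠ 0) :
    Apart (fun z : EuclideanSpace ℂ (Fin 2) => |(a * z 1).im|)
      (fun z : EuclideanSpace ℂ (Fin 2) => |(b * z 1).im|) := by
  obtain ⟨m, hm⟩ : ∃ m, m = ‖a‖ + ‖b‖ + 1 := ⟨_, rfl⟩
  have hm0 : 0 < m := by rw [hm]; positivity
  have hab0 : 0 < |(a * conj b).im| := abs_pos.2 hab
  refine ⟨|(a * conj b).im| / m, {(0, EuclideanSpace.single 0 1)}, by positivity, ?_, ?_⟩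
  · intro x hx
    rw [Finset.mem_singleton] at hx
    rw [hx, norm_zero]
    exact one_pos
  · intro z _
    refine ⟨(0, EuclideanSpace.single 0 1), Finset.mem_singleton_self _, z 0, ?_⟩
    have e1 : z - (((0 : EuclideanSpace ℂ (Fin 2)), (EuclideanSpace.single 0 1 :
        EuclideanSpace ℂ (Fin 2))).1 + z 0 • ((0 : EuclideanSpace ℂ (Fin 2)),
        (EuclideanSpace.single 0 1 : EuclideanSpace ℂ (Fin 2))).2) =
        EuclideanSpace.single 1 (z 1) := by
      ext i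
      fin_cases i <;> simp
    rw [e1, EuclideanSpace.norm_single]
    have e2 : ((a * z 1).im : ℂ) * b - ((b * z 1).im : ℂ) * a =
        ((a * conj b).im : ℂ) * conj (z 1) := by
      apply Complex.ext <;> simp [Complex.mul_re, Complex.mul_im] <;> ring
    have e3 : |(a * conj b).im| * ‖z 1‖ ≤ |(a * z 1).im| * ‖b‖ + |(b * z 1).im| * ‖a‖ := by
      have h1 := congrArg (fun x : ℂ => ‖x‖) e2
      simp only [norm_mul, RCLike.norm_conj, Complex.norm_real, Real.norm_eq_abs] at h1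
      rw [← h1]
      refine (norm_sub_le _ _).trans (le_of_eq ?_)
      simp only [norm_mul, Complex.norm_real, Real.norm_eq_abs]
    rw [div_mul_eq_mul_div, div_le_iff₀ hm0]
    refine e3.trans ?_
    have h2 : |(a * z 1).im| * ‖b‖ ≤ |(a * z 1).im| * m := by
      apply mul_le_mul_of_nonneg_left _ (abs_nonneg _)
      rw [hm]
      linarith [norm_nonneg a]
    have h3 : |(b * z 1).im| * ‖a‖ ≤ |(b * z 1).im| * m := by
      apply mul_le_mul_of_nonneg_left _ (abs_nonneg _)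
      rw [hm]
      linarith [norm_nonneg b]
    show _ ≤ (|(a * z 1).im| + |(b * z 1).im|) * m
    linarith

end Pool.Agent.MPca0fc2.SV
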