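import Mathlib
import Pool.Agent.Lib.MP_ca0fc2_an.TGMain

/-! The corona theorem for the closed algebra generated by the tame functions and by arbitrary
functions on larger domains which are apart. -/

set_option autoImplicit false

open Metric Set MeasureTheory Filter Topology
open scoped InnerProductSpace

namespace Pool.Agent.MPca0fc2.TG

open Pool.Agent.Lib.MP_ca0fc2_an
open Pool.Agent.MPca0fc2.CP
open Pool.Agent.MPca0fc2.SV (dom)

variable {n : ℕ}

theorem aeval_at {σ : Type*} (g : σ → EuclideanSpace ℂ (Fin n) → ℂ) (P : MvPolynomial σ ℂ)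
    (z : EuclideanSpace ℂ (Fin n)) :
    (MvPolynomial.aeval g P) z = MvPolynomial.eval (fun i => g i z) P := by
  induction P using MvPolynomial.induction_on with
  | C a => simp [MvPolynomial.aeval_C, MvPolynomial.eval_C, Pi.algebraMap_apply]
  | add p q hp hq => rw [map_add, map_add, Pi.add_apply, hp, hq]
  | mul_X p i hp =>
    rw [map_mul, map_mul, Pi.mul_apply, hp, MvPolynomial.aeval_X, MvPolynomial.eval_X]

/-- Q1 for the closed algebra generated by all the functions `F i` and by all tame functions. -/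
theorem closed_cor (hn : 2 ≤ n) {ι : Type} (r : ι → EuclideanSpace ℂ (Fin n) → ℝ) (L M : ι → ℝ)
    (hrL : ∀ i z w, |r i z - r i w| ≤ L i * ‖z - w‖) (hap : ∀ i j, i ≠ j → Apart (r i) (r j))
    (F : ι → EuclideanSpace ℂ (Fin n) → ℂ)
    (hF : ∀ i, DifferentiableOn ℂ (F i) {z | ‖z‖ ^ 2 < 1 + r i z ^ 2})
    (hFM : ∀ i z, ‖z‖ ^ 2 < 1 + r i z ^ 2 → ‖F i z‖ ≤ M i) {N : ℕ}
    (f : Fin N → EuclideanSpace ℂ (Fin n) → ℂ)
    (hf : ∀ j, f j ∈ ClosedAlg (Set.range F ∪ TameGens n)) {δ : ℝ} (hδ : 0 < δ)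
    (hfδ : ∀ z ∈ ball (0 : EuclideanSpace ℂ (Fin n)) 1, δ ≤ ∑ j, ‖f j z‖ ^ 2) :
    ∃ C, SolvableOn f (ball 0 1) C := by
  classical
  obtain ⟨η, hη, h⟩ := Pool.Agent.MPca0fc2.MG.mg_alg hn N δ hδ
  have hc : ∀ u : TameGens n, ∃ (K p : ℝ) (ω : ℝ → ℝ), 1 ≤ p ∧ Rate ω ∧ TameGen K p ω u.1 :=
    fun u => u.2
  choose K p ω hp hω hu using hc
  have hP : ∀ j, ∃ P : MvPolynomial (ι ⊕ TameGens n) ℂ,
      ∀ z ∈ ball (0 : EuclideanSpace ℂ (Fin n)) 1,
        ‖f j z - MvPolynomial.eval (Sum.elim (fun i => F i z)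
          fun u : TameGens n => u.1 z) P‖ ≤ η := by
    intro j
    obtain ⟨q, hq, hqf⟩ := (hf j).2 η hη
    have h1 : Set.range F ∪ TameGens n =
        Set.range (Sum.elim F fun u : TameGens n => u.1) := by
      rw [Set.Sum.elim_range, Subtype.range_val]
    rw [h1, Algebra.adjoin_range_eq_range_aeval] at hq
    obtain ⟨P, hP⟩ := hq
    refine ⟨P, fun z hz => ?_⟩
    have h2 := hqf z hz
    have h3 : q z = MvPolynomial.eval (Sum.elim (fun i => F i z)
        fun u : TameGens n => u.1 z) P := by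
      rw [← hP]
      change (MvPolynomial.aeval (Sum.elim F fun u : TameGens n => u.1) P) z = _
      rw [aeval_at]
      congr 2
      funext y
      rcases y with i | u <;> rfl
    rwa [h3] at h2
  choose P hP using hP
  obtain ⟨C, hC⟩ := h r L M K p ω P hrL hap hp hω
  exact ⟨C, hC f F (fun u => u.1) (fun j => (hf j).1) hF hFM (fun u => gen6_of_tame (hu u)) hP
    hfδ⟩

end Pool.Agent.MPca0fc2.TG
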