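import Mathlib
import Pool.Agent.Lib.MP_ca0fc2_an.TGCor
import Pool.Agent.Lib.MP_ca0fc2_an.CPIncl
import Pool.Agent.Lib.MP_ca0fc2_an.SVCor
import Pool.Agent.Lib.MP_ca0fc2_an.LTEll
import Pool.Agent.Lib.MP_ca0fc2_an.Mg.G024

/-! What the tame algebra contains, and the corona theorem for one arbitrary function on every
subspace. -/

set_option autoImplicit false

open Metric Set MeasureTheory Filter Topology
open scoped InnerProductSpace

namespace Pool.Agent.MPca0fc2.TG

open Pool.Agent.Lib.MP_ca0fc2_an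
open Pool.Agent.MPca0fc2.CP
open Pool.Agent.MPca0fc2.SG (rate_id)
open Pool.Agent.MPca0fc2.SV

variable {n k : ℕ}

/-- The functions `v ∘ Q`: `Q` is a smooth map of the ball into the unit ball of `ℂᵏ`, and `v` is a
multiplier of the Drury-Arveson space of the ball of `ℂᵏ`, or has a Carleson gradient. -/
theorem comp_tame {L K p : ℝ} (hp : 1 ≤ p) (hk : 1 ≤ k)
    {Q : EuclideanSpace ℂ (Fin n) → EuclideanSpace ℂ (Fin k)} (hQ : SmoothMap L Q)
    {v : EuclideanSpace ℂ (Fin k) → ℂ} (hv : DAMultiplier K v ∨ GradCarleson p K v) :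
    (fun z => v (Q z)) ∈ TameGens n := by
  rw [← gens6_eq]
  exact comp_gens6 hp hk hQ hv

/-- Every polynomial map of the ball into the ball is a smooth map. -/
theorem poly_tame {K p : ℝ} (hp : 1 ≤ p) (hk : 1 ≤ k) (q : Fin k → MvPolynomial (Fin n) ℂ)
    (hq : ∀ z ∈ ball (0 : EuclideanSpace ℂ (Fin n)) 1,
      WithLp.toLp 2 (fun i => MvPolynomial.eval (fun j => z j) (q i)) ∈
        ball (0 : EuclideanSpace ℂ (Fin k)) 1)
    {v : EuclideanSpace ℂ (Fin k) → ℂ} (hv : DAMultiplier K v ∨ GradCarleson p K v) :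
    (fun z : EuclideanSpace ℂ (Fin n) =>
      v (WithLp.toLp 2 (fun i => MvPolynomial.eval (fun j => z j) (q i)))) ∈ TameGens n := by
  obtain ⟨L, hL⟩ := smoothMap_poly q hq
  exact comp_tame hp hk hL hv

/-- The multipliers of the Drury-Arveson space. -/
theorem mult_tame (hn : 1 ≤ n) {K : ℝ} {v : EuclideanSpace ℂ (Fin n) → ℂ}
    (hv : DAMultiplier K v) : v ∈ TameGens n :=
  comp_tame (p := 1) le_rfl hn (sm_id (le_refl 1)) (Or.inl hv)

/-- The bounded functions of the analytic Besov spaces `B_p`. -/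
theorem besov_tame (hn : 1 ≤ n) {p A : ℝ} (hp : 1 ≤ p) {u : EuclideanSpace ℂ (Fin n) → ℂ}
    (hu : DifferentiableOn ℂ u (ball 0 1))
    (hb : ∀ z ∈ ball (0 : EuclideanSpace ℂ (Fin n)) 1, ‖u z‖ ≤ A)
    (h : ∫⁻ z in ball (0 : EuclideanSpace ℂ (Fin n)) 1,
      ENNReal.ofReal (invGrad2 u z ^ (p / 2) / (1 - ‖z‖ ^ 2) ^ (n + 1)) ≤ ENNReal.ofReal A) :
    u ∈ TameGens n :=
  comp_tame hp hn (sm_id (le_refl 1)) (Or.inr (DA.gradCarleson_of_besov hu hb h))

/-- The functions `g ∘ q`: `g` is in `H^∞` of the disc, `q` is a polynomial with `|q| < 1`. -/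
theorem disc_poly_tame {K : ℝ} {g : ℂ → ℂ} (hg : DifferentiableOn ℂ g (ball 0 1))
    (hK : ∀ w ∈ ball (0 : ℂ) 1, ‖g w‖ ≤ K) (q : MvPolynomial (Fin n) ℂ)
    (hq : ∀ z ∈ ball (0 : EuclideanSpace ℂ (Fin n)) 1,
      ‖MvPolynomial.eval (fun j => z j) q‖ < 1) :
    (fun z : EuclideanSpace ℂ (Fin n) => g (MvPolynomial.eval (fun j => z j) q)) ∈
      TameGens n := by
  rw [← gens6_eq]
  exact disc_poly_gens6 hg hK q hq

/-- The functions `g ∘ q`: `g` is in `H^∞` of the disc, `q` is holomorphic near the closed ball, with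
`|q| < 1` on the open ball. -/
theorem disc_tame {R K : ℝ} {g : ℂ → ℂ} {q : EuclideanSpace ℂ (Fin n) → ℂ}
    (hg : DifferentiableOn ℂ g (ball 0 1)) (hK : ∀ w ∈ ball (0 : ℂ) 1, ‖g w‖ ≤ K) (hR : 1 < R)
    (hq : DifferentiableOn ℂ q (ball 0 R))
    (hq1 : ∀ z ∈ ball (0 : EuclideanSpace ℂ (Fin n)) 1, ‖q z‖ < 1) :
    (fun z => g (q z)) ∈ TameGens n := by
  rw [← gens6_eq]
  exact disc_gens6 hg hK hR hq hq1

/-- The coordinates. -/
theorem coord_tame (i : Fin n) : (fun z : EuclideanSpace ℂ (Fin n) => z i) ∈ TameGens n := by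
  refine disc_tame (R := 2) (K := 1) (g := id) differentiableOn_id
    (fun w hw => (mem_ball_zero_iff.1 hw).le) (by norm_num) ?_ fun z hz => ?_
  · exact (EuclideanSpace.proj i : EuclideanSpace ℂ (Fin n) →L[ℂ] ℂ).differentiable.differentiableOn
  · exact lt_of_le_of_lt (PiLp.norm_apply_le z i) (mem_ball_zero_iff.1 hz)

/-- All bounded holomorphic functions on the domain `|z|² < 1 + c |1 - q(z)|`, `|z| < R`. -/
theorem dom_tame {R c M : ℝ} {q : EuclideanSpace ℂ (Fin n) → ℂ} (hR : 1 < R)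
    (hq : DifferentiableOn ℂ q (ball 0 R)) (hq1 : ∀ z ∈ ball (0 : EuclideanSpace ℂ (Fin n)) 1,
      ‖q z‖ < 1) (hc : 0 < c) (hc1 : c ≤ 1) {u : EuclideanSpace ℂ (Fin n) → ℂ}
    (hu : DifferentiableOn ℂ u (peakDom R c q)) (huM : ∀ z ∈ peakDom R c q, ‖u z‖ ≤ M) :
    u ∈ TameGens n := by
  rw [← gens6_eq]
  exact dom_gens6 hR hq hq1 hc hc1 hu huM

/-- All bounded holomorphic functions on the ellipsoid `|⟨e, z⟩|² + (1 - c) |z'|² < 1`, which contains
the ball and touches the sphere along a circle, composed with an automorphism of the ball. -/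
theorem ellipsoid_tame {e : EuclideanSpace ℂ (Fin n)} (he : ‖e‖ = 1) {c M : ℝ} (hc : 0 < c)
    (hc1 : c ≤ 1) {g : EuclideanSpace ℂ (Fin n) → ℂ}
    (hg : DifferentiableOn ℂ g (LT.ellipsoid e c)) (hM : ∀ z ∈ LT.ellipsoid e c, ‖g z‖ ≤ M)
    {φ ψ : EuclideanSpace ℂ (Fin n) → EuclideanSpace ℂ (Fin n)} (hφ : IsBallAut φ ψ) :
    (fun z => g (φ z)) ∈ TameGens n := by
  have h1 := LT.lineTame_ellipsoid he hc hc1 hg hM hφ
  have hsub : ball (0 : EuclideanSpace ℂ (Fin n)) 1 ⊆ LT.ellipsoid e c := by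
    intro z hz
    have h2 := LT.ellipsoid_room he hc hc1 (w := 0) hz (by
      rw [inner_zero_right, norm_zero]
      have := norm_inner_lt he hz
      have : 0 < 1 - ‖⟪e, z⟫_ℂ‖ := by linarith
      positivity) (by
      rw [norm_zero, zero_pow two_ne_zero]
      have := norm_inner_lt he hz
      have : 0 < 1 - ‖⟪e, z⟫_ℂ‖ := by linarith
      positivity)
    rwa [add_zero] at h2
  refine ⟨max M (24 * M / c), 1, _, le_rfl, rate_id, Or.inr (Or.inr ⟨fun z hz => ?_,
    LT.lineTame_mono (le_max_right _ _) h1⟩)⟩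
  exact (hM _ (hsub (hφ.map z hz))).trans (le_max_left _ _)

/-- The slow functions. -/
theorem slow_tame {K : ℝ} {ω : ℝ → ℝ} (hω : Rate ω) {u : EuclideanSpace ℂ (Fin n) → ℂ}
    (hu : DifferentiableOn ℂ u (ball 0 1))
    (hb : ∀ z ∈ ball (0 : EuclideanSpace ℂ (Fin n)) 1, ‖u z‖ ≤ K)
    (h : ∀ z ∈ ball (0 : EuclideanSpace ℂ (Fin n)) 1,
      (1 - ‖z‖) * ‖fderiv ℂ u z‖ ≤ ω (1 - ‖z‖)) : u ∈ TameGens n :=
  ⟨K, 1, ω, le_rfl, hω, Or.inr (Or.inl ⟨hu, hb, h⟩)⟩

/-- The moduli `o (1 / log log (1 / t))`. -/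
theorem rate_loglog {ω : ℝ → ℝ} (hm : Measurable ω) (h0 : ∀ t ∈ Ioo (0 : ℝ) 1, 0 < ω t)
    (h : Tendsto (fun t => ω t * Real.log (Real.log (1 / t))) (𝓝[>] 0) (𝓝 0)) : Rate ω := by
  refine ⟨h0, fun c hc => ?_⟩
  have hmeas : Measurable fun t : ℝ => Real.exp (-(c / ω t)) / t :=
    (Real.measurable_exp.comp (hm.const_div c).neg).div measurable_id
  have h1 : ∀ᶠ t in 𝓝[>] (0 : ℝ), ω t * Real.log (Real.log (1 / t)) < c / 2 :=
    h.eventually (gt_mem_nhds (by positivity))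
  obtain ⟨b, hb, hb1⟩ := (mem_nhdsGT_iff_exists_Ioo_subset).1 h1
  obtain ⟨a, ha⟩ : ∃ a, a = min b (1 / 4) := ⟨_, rfl⟩
  have hb0 : 0 < b := hb
  have ha0 : 0 < a := by rw [ha]; positivity
  have hab : a ≤ b := by rw [ha]; exact min_le_left _ _
  have ha4 : a ≤ 1 / 4 := by rw [ha]; exact min_le_right _ _
  have hlog : ∀ t : ℝ, 0 < t → t ≤ 1 / 4 → 1 < Real.log (1 / t) := by
    intro t ht ht4
    rw [Real.lt_log_iff_exp_lt (by positivity)]
    have := Real.exp_one_lt_d9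
    rw [lt_div_iff₀ ht]
    nlinarith
  have hint : IntegrableOn (fun t : ℝ => t⁻¹ / Real.log t ^ 2) (Ioc 0 a) := by
    refine intervalIntegral.integrableOn_deriv_of_nonneg (g := fun t => -(Real.log t)⁻¹) ?_ ?_ ?_
    · intro t ht
      rcases eq_or_lt_of_le ht.1 with h2 | h2
      · rw [← h2]
        apply ContinuousAt.continuousWithinAt
        rw [continuousAt_iff_punctured_nhds]
        have h3 := (tendsto_inv_atBot_zero.comp Real.tendsto_log_nhdsNE_zero).neg
        simpa using h3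
      · have h3 : Real.log t ≠ 0 := by
          have := Real.log_neg h2 (by linarith [ht.2])
          exact this.ne
        exact (((Real.continuousAt_log h2.ne').inv₀ h3).neg).continuousWithinAt
    · intro t ht
      have h3 : Real.log t ≠ 0 := (Real.log_neg ht.1 (by linarith [ht.2])).ne
      have h4 := ((Real.hasDerivAt_log ht.1.ne').inv h3).neg
      have h5 : t⁻¹ / Real.log t ^ 2 = -(-t⁻¹ / Real.log t ^ 2) := by ring
      rw [h5]
      exact h4
    · intro t ht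
      have : 0 < t := ht.1
      positivity
  have hI1 : IntegrableOn (fun t => Real.exp (-(c / ω t)) / t) (Ioo 0 a) := by
    refine Integrable.mono' (hint.mono_set Ioo_subset_Ioc_self) hmeas.aestronglyMeasurable ?_
    rw [ae_restrict_iff' measurableSet_Ioo]
    refine Eventually.of_forall fun t ht => ?_
    have ht0 : 0 < t := ht.1
    have hω := h0 t ⟨ht.1, by linarith [ht.2]⟩
    have h2 : ω t * Real.log (Real.log (1 / t)) < c / 2 := hb1 ⟨ht.1, ht.2.trans_le hab⟩
    have h3 := hlog t ht0 (by linarith [ht.2])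
    have h4 : 2 * Real.log (Real.log (1 / t)) ≤ c / ω t := by
      rw [le_div_iff₀ hω]
      linarith
    have h5 : Real.log (1 / t) = -Real.log t := by rw [one_div, Real.log_inv]
    have h6 : 0 < Real.log (1 / t) := by linarith
    have h7 : Real.exp (-(c / ω t)) ≤ (Real.log t ^ 2)⁻¹ := by
      calc Real.exp (-(c / ω t)) ≤ Real.exp (-(2 * Real.log (Real.log (1 / t)))) := by
            apply Real.exp_le_exp.2
            linarith
        _ = (Real.exp (Real.log (Real.log (1 / t))) ^ 2)⁻¹ := by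
            rw [Real.exp_neg, ← Real.exp_nat_mul]
            norm_num
        _ = _ := by rw [Real.exp_log h6, h5, neg_sq]
    rw [Real.norm_eq_abs, abs_of_pos (by positivity), div_eq_mul_inv, div_eq_mul_inv, mul_comm]
    exact mul_le_mul_of_nonneg_left h7 (by positivity)
  have hI2 : IntegrableOn (fun t => Real.exp (-(c / ω t)) / t) (Ico a 1) := by
    refine Measure.integrableOn_of_bounded (M := 1 / a) (by simp) hmeas.aestronglyMeasurable ?_
    rw [ae_restrict_iff' measurableSet_Ico]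
    refine Eventually.of_forall fun t ht => ?_
    have ht0 : 0 < t := ha0.trans_le ht.1
    have hω := h0 t ⟨ht0, ht.2⟩
    rw [Real.norm_eq_abs, abs_of_pos (by positivity)]
    have h2 : Real.exp (-(c / ω t)) ≤ 1 := by
      rw [Real.exp_le_one_iff]
      have : 0 < c / ω t := by positivity
      linarith
    have h3 := ht.1
    gcongr
  have h5 : Ioo (0 : ℝ) 1 = Ioo 0 a ∪ Ico a 1 := (Ioo_union_Ico_eq_Ioo ha0 (by linarith)).symm
  rw [h5]
  exact hI1.union hI2

/-- One arbitrary function on each of arbitrarily many complex subspaces which pairwise meet at most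
in lines, and all tame functions: Q1 for the closed algebra which they generate. -/
theorem subspaces_tame (hn : 2 ≤ n) {ι : Type} (V : ι → Submodule ℂ (EuclideanSpace ℂ (Fin n)))
    (hV : ∀ i j, i ≠ j → Module.finrank ℂ
      (V i ⊓ V j : Submodule ℂ (EuclideanSpace ℂ (Fin n))) ≤ 1)
    (G : ι → EuclideanSpace ℂ (Fin n) → ℂ) (M : ι → ℝ)
    (hG : ∀ i, DifferentiableOn ℂ (G i) (ball 0 1))
    (hGM : ∀ i, ∀ z ∈ ball (0 : EuclideanSpace ℂ (Fin n)) 1, ‖G i z‖ ≤ M i)
    {N : ℕ} (f : Fin N → EuclideanSpace ℂ (Fin n) → ℂ)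
    (hf : ∀ j, f j ∈ ClosedAlg
      (Set.range (fun i z => G i ((V i).starProjection z)) ∪ TameGens n)) {δ : ℝ} (hδ : 0 < δ)
    (hfδ : ∀ z ∈ ball (0 : EuclideanSpace ℂ (Fin n)) 1, δ ≤ ∑ j, ‖f j z‖ ^ 2) :
    ∃ C, SolvableOn f (ball 0 1) C := by
  have hA : ∀ i v, ‖(V i).starProjection v‖ ≤ ‖v‖ := fun i v =>
    (V i).norm_starProjection_apply_le v
  have hdom : ∀ i, {z : EuclideanSpace ℂ (Fin n) | ‖z‖ ^ 2 < 1 + rad (V i).starProjection z ^ 2} =
      {z | ‖(V i).starProjection z‖ < 1} := fun i => dom_rad (hA i)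
  refine closed_cor hn (fun i => rad (V i).starProjection) (fun _ => 1) M
    (fun i => rad_lip (hA i)) (fun i j hij => apart_rad (hA i) (hA j) ?_)
    (fun i z => G i ((V i).starProjection z)) (fun i => ?_) (fun i z hz => ?_) f hf hδ hfδ
  · obtain ⟨e, he⟩ := finrank_le_one_iff.1 (hV i j hij)
    refine ⟨e, fun v h1 h2 => ?_⟩
    have h3 : v ∈ V i := ((V i).mem_iff_norm_starProjection v).2 h1
    have h4 : v ∈ V j := ((V j).mem_iff_norm_starProjection v).2 h2
    obtain ⟨c, hc⟩ := he ⟨v, h3, h4⟩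
    exact ⟨c, by rw [← Submodule.coe_smul, hc]⟩
  · rw [hdom i]
    refine (hG i).comp (V i).starProjection.differentiable.differentiableOn fun z hz => ?_
    rw [mem_ball_zero_iff]
    exact hz
  · have hz' : z ∈ {z : EuclideanSpace ℂ (Fin n) |
        ‖z‖ ^ 2 < 1 + rad (V i).starProjection z ^ 2} := hz
    rw [hdom i] at hz'
    exact hGM i _ (by rw [mem_ball_zero_iff]; exact hz')

end Pool.Agent.MPca0fc2.TG
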