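import Mathlib
import Pool.Agent.Lib.MP_ca0fc2_an.DOMain
import Pool.Agent.Lib.MP_ca0fc2_an.TGIncl

/-! Functions on `annDom` with tame pullbacks. -/

set_option autoImplicit false

open Complex Metric Set Filter Topology
open scoped InnerProductSpace

namespace Pool.Agent.Lib.MP_ca0fc2_an

/-- The domain `x ≠ 0`, `|log |x|| < π / (2 b)`, `(1 - κ) ∑ |y_j|² |x|^(c_j) < cos (b log |x|)`. It
contains the domain `annDom b c` if `0 < κ ≤ 1`. -/
def annDomW {m : ℕ} (b : ℝ) (c : Fin m → ℝ) (κ : ℝ) : Set (EuclideanSpace ℂ (Fin (m + 1))) :=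
  {w | w 0 ≠ 0 ∧ |Real.log ‖w 0‖| < Real.pi / (2 * b) ∧
    (1 - κ) * ∑ j : Fin m, ‖w j.succ‖ ^ 2 * ‖w 0‖ ^ c j < Real.cos (b * Real.log ‖w 0‖)}

end Pool.Agent.Lib.MP_ca0fc2_an

namespace Pool.Agent.MPca0fc2.DO

open Pool.Agent.Lib.MP_ca0fc2_an

variable {m : ℕ}

/-- the map `(x, y) ↦ (x, s y)` -/
noncomputable def shr (s : ℝ) (w : EuclideanSpace ℂ (Fin (m + 1))) :
    EuclideanSpace ℂ (Fin (m + 1)) :=
  WithLp.toLp 2 (Fin.cons (w 0) (fun j => s * w j.succ))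

theorem shr_zero (s : ℝ) (w : EuclideanSpace ℂ (Fin (m + 1))) : shr s w 0 = w 0 := by
  simp [shr]

theorem shr_succ (s : ℝ) (w : EuclideanSpace ℂ (Fin (m + 1))) (j : Fin m) :
    shr s w j.succ = s * w j.succ := by
  simp [shr]

theorem shr_diff (s : ℝ) : Differentiable ℂ (shr (m := m) s) := by
  rw [← differentiableOn_univ, differentiableOn_euclidean]
  intro i
  refine Fin.cases ?_ (fun j => ?_) i
  · simp only [shr_zero]
    exact coord_diff 0
  · simp only [shr_succ]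
    exact (coord_diff _).const_mul _

theorem map_shr (b : ℝ) (c : Fin m → ℝ) (s : ℝ) (z : EuclideanSpace ℂ (Fin (m + 1))) :
    annMap b c (shr s z) = shr s (annMap b c z) := by
  ext i
  refine Fin.cases ?_ (fun j => ?_) i
  · simp [annMap, shr]
  · simp only [shr_succ]
    simp [annMap, shr_zero, shr_succ, mul_assoc]

theorem norm_shr_sq (s : ℝ) (z : EuclideanSpace ℂ (Fin (m + 1))) :
    ‖shr s z‖ ^ 2 = ‖z 0‖ ^ 2 + s ^ 2 * ∑ j : Fin m, ‖z j.succ‖ ^ 2 := by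
  rw [EuclideanSpace.norm_sq_eq, Fin.sum_univ_succ, shr_zero, Finset.mul_sum]
  congr 1
  refine Finset.sum_congr rfl fun j _ => ?_
  rw [shr_succ, norm_mul, mul_pow, Complex.norm_real, Real.norm_eq_abs, sq_abs]

theorem shr_mem {b : ℝ} {c : Fin m → ℝ} {κ : ℝ} (hκ : κ ≤ 1)
    {w : EuclideanSpace ℂ (Fin (m + 1))} :
    shr (Real.sqrt (1 - κ)) w ∈ annDom b c ↔ w ∈ annDomW b c κ := by
  have h1 : ∑ j : Fin m, ‖shr (Real.sqrt (1 - κ)) w j.succ‖ ^ 2 *
      ‖shr (Real.sqrt (1 - κ)) w 0‖ ^ c j = (1 - κ) * ∑ j : Fin m, ‖w j.succ‖ ^ 2 * ‖w 0‖ ^ c j := by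
    rw [Finset.mul_sum]
    refine Finset.sum_congr rfl fun j _ => ?_
    rw [shr_zero, shr_succ, norm_mul, mul_pow, Complex.norm_real, Real.norm_eq_abs, sq_abs,
      Real.sq_sqrt (by linarith), mul_assoc]
  unfold annDom annDomW
  rw [mem_ofPred_eq, mem_ofPred_eq, h1, shr_zero]

theorem map_diff' (b : ℝ) (c : Fin m → ℝ) {U : Set (EuclideanSpace ℂ (Fin (m + 1)))}
    (hU : ∀ z ∈ U, ‖z 0‖ < 1) : DifferentiableOn ℂ (annMap b c) U := by
  have h1 : DifferentiableOn ℂ (fun z : EuclideanSpace ℂ (Fin (m + 1)) => log (1 + z 0)) U := by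
    apply DifferentiableOn.clog
    · exact (differentiableOn_const _).add (coord_diff 0)
    · intro z hz
      exact Or.inl (one_add_re (hU z hz))
  have h2 : DifferentiableOn ℂ (fun z : EuclideanSpace ℂ (Fin (m + 1)) => log (1 - z 0)) U := by
    apply DifferentiableOn.clog
    · exact (differentiableOn_const _).sub (coord_diff 0)
    · intro z hz
      exact Or.inl (one_sub_re (hU z hz))
  rw [differentiableOn_euclidean]
  intro i
  refine Fin.cases ?_ (fun j => ?_) i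
  · simp only [annMap, Fin.cons_zero]
    exact ((h1.fun_sub h2).const_mul (I / b)).cexp
  · simp only [annMap, Fin.cons_succ]
    apply (coord_diff _).mul
    apply DifferentiableOn.cexp
    apply DifferentiableOn.sub
    · exact div_two (h1.fun_add h2).fun_neg
    · exact div_two (((h1.fun_sub h2).const_mul (I / b)).const_mul (c j : ℂ))

/-- The pullback of a bounded holomorphic function on the larger domain is tame. -/
theorem wide_tame {b : ℝ} (hb : 0 < b) (c : Fin m → ℝ) {κ M : ℝ} (hκ : 0 < κ) (hκ1 : κ ≤ 1)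
    {H : EuclideanSpace ℂ (Fin (m + 1)) → ℂ} (hH : DifferentiableOn ℂ H (annDomW b c κ))
    (hM : ∀ w ∈ annDomW b c κ, ‖H w‖ ≤ M) :
    (fun z => H (annMap b c z)) ∈ TameGens (m + 1) := by
  obtain ⟨e, he⟩ : ∃ e : EuclideanSpace ℂ (Fin (m + 1)), e = EuclideanSpace.single 0 1 := ⟨_, rfl⟩
  have he1 : ‖e‖ = 1 := by rw [he]; simp
  have hin : ∀ z : EuclideanSpace ℂ (Fin (m + 1)), ⟪e, z⟫_ℂ = z 0 := by
    intro z
    rw [he, EuclideanSpace.inner_single_left]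
    simp
  have hell : ∀ z ∈ LT.ellipsoid e κ, shr (Real.sqrt (1 - κ)) z ∈
      ball (0 : EuclideanSpace ℂ (Fin (m + 1))) 1 := by
    intro z hz
    have h1 : ‖z‖ ^ 2 = ‖z 0‖ ^ 2 + ∑ j : Fin m, ‖z j.succ‖ ^ 2 := by
      rw [EuclideanSpace.norm_sq_eq, Fin.sum_univ_succ]
    have h2 := norm_sq_dec he1 z
    rw [hin] at h2
    have h3 : ‖prj e z‖ ^ 2 = ∑ j : Fin m, ‖z j.succ‖ ^ 2 := by linarith
    have h4 : ‖z 0‖ ^ 2 + (1 - κ) * ∑ j : Fin m, ‖z j.succ‖ ^ 2 < 1 := by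
      have h5 : ‖⟪e, z⟫_ℂ‖ ^ 2 + (1 - κ) * ‖prj e z‖ ^ 2 < 1 := hz
      rwa [hin, h3] at h5
    have h5 := norm_shr_sq (Real.sqrt (1 - κ)) z
    rw [Real.sq_sqrt (by linarith)] at h5
    rw [mem_ball_zero_iff]
    have h6 : ‖shr (Real.sqrt (1 - κ)) z‖ ^ 2 < 1 := by rw [h5]; exact h4
    nlinarith [norm_nonneg (shr (Real.sqrt (1 - κ)) z)]
  have hmem : ∀ z ∈ LT.ellipsoid e κ, annMap b c z ∈ annDomW b c κ := by
    intro z hz
    rw [← shr_mem hκ1, ← map_shr]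
    exact map_mem hb c (hell z hz)
  have hz0 : ∀ z ∈ LT.ellipsoid e κ, ‖z 0‖ < 1 := by
    intro z hz
    have h1 := hell z hz
    rw [mem_ball_zero_iff] at h1
    have h2 := PiLp.norm_apply_le (shr (Real.sqrt (1 - κ)) z) 0
    rw [shr_zero] at h2
    exact h2.trans_lt h1
  exact TG.ellipsoid_tame he1 hκ hκ1 (g := fun z => H (annMap b c z))
    (hH.comp (map_diff' b c hz0) hmem) (fun z hz => hM _ (hmem z hz)) (φ := id) (ψ := id)
    ⟨differentiableOn_id, differentiableOn_id, fun z hz => hz, fun z hz => hz, fun z _ => rfl,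
      fun z _ => rfl⟩


/-- The domain is bounded. -/
theorem ann_bounded {b : ℝ} (hb : 0 < b) (c : Fin m → ℝ) :
    ∃ R : ℝ, 0 < R ∧ ∀ w ∈ annDom b c, ‖w‖ ≤ R := by
  obtain ⟨T, hT⟩ : ∃ T : ℝ, T = Real.pi / (2 * b) := ⟨_, rfl⟩
  have hT0 : 0 < T := by rw [hT]; positivity
  obtain ⟨R, hR⟩ : ∃ R : ℝ, R = Real.exp T ^ 2 + ∑ j : Fin m, Real.exp (|c j| * T) + 1 := ⟨_, rfl⟩
  have hs : 0 ≤ ∑ j : Fin m, Real.exp (|c j| * T) :=
    Finset.sum_nonneg fun j _ => (Real.exp_pos _).le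
  have hR1 : 1 ≤ R := by
    have := sq_nonneg (Real.exp T)
    linarith
  refine ⟨R, by linarith, fun w hw => ?_⟩
  obtain ⟨hw0, hw1, hw2⟩ := hw
  rw [← hT] at hw1
  have hn : 0 < ‖w 0‖ := norm_pos_iff.mpr hw0
  have hx : ‖w 0‖ ≤ Real.exp T := by
    rw [← Real.exp_log hn]
    exact Real.exp_le_exp.mpr (abs_lt.mp hw1).2.le
  have hy : ∀ j : Fin m, ‖w j.succ‖ ^ 2 ≤ Real.exp (|c j| * T) := by
    intro j
    have h1 : ‖w j.succ‖ ^ 2 * ‖w 0‖ ^ c j ≤ 1 := by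
      have h2 : ‖w j.succ‖ ^ 2 * ‖w 0‖ ^ c j ≤ ∑ j : Fin m, ‖w j.succ‖ ^ 2 * ‖w 0‖ ^ c j :=
        Finset.single_le_sum (f := fun j : Fin m => ‖w j.succ‖ ^ 2 * ‖w 0‖ ^ c j)
          (fun i _ => by positivity) (Finset.mem_univ j)
      exact (h2.trans hw2.le).trans (Real.cos_le_one _)
    have h3 : Real.exp (-(|c j| * T)) ≤ ‖w 0‖ ^ c j := by
      rw [Real.rpow_def_of_pos hn]
      apply Real.exp_le_exp.mpr
      have h4 : |Real.log ‖w 0‖ * c j| ≤ |c j| * T := by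
        rw [abs_mul, mul_comm]
        exact mul_le_mul_of_nonneg_left hw1.le (abs_nonneg _)
      exact (abs_le.mp h4).1
    have h5 : 0 < Real.exp (-(|c j| * T)) := Real.exp_pos _
    have h6 : ‖w j.succ‖ ^ 2 * Real.exp (-(|c j| * T)) ≤ 1 :=
      (mul_le_mul_of_nonneg_left h3 (sq_nonneg _)).trans h1
    rw [Real.exp_neg, ← div_eq_mul_inv, div_le_one (Real.exp_pos _)] at h6
    exact h6
  have h1 : ‖w‖ ^ 2 ≤ R := by
    rw [EuclideanSpace.norm_sq_eq, Fin.sum_univ_succ, hR]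
    have h2 : ‖w 0‖ ^ 2 ≤ Real.exp T ^ 2 := pow_le_pow_left₀ hn.le hx 2
    have h3 : ∑ j : Fin m, ‖w j.succ‖ ^ 2 ≤ ∑ j : Fin m, Real.exp (|c j| * T) :=
      Finset.sum_le_sum fun j _ => hy j
    linarith
  have h2 : ‖w‖ ^ 2 ≤ R ^ 2 := h1.trans (by nlinarith)
  exact le_of_sq_le_sq h2 (by linarith)

/-- The domain is connected. -/
theorem ann_connected {b : ℝ} (hb : 0 < b) (c : Fin m → ℝ) : IsConnected (annDom b c) := by
  have h1 : annMap b c '' ball (0 : EuclideanSpace ℂ (Fin (m + 1))) 1 = annDom b c := by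
    ext w
    constructor
    · rintro ⟨z, hz, rfl⟩
      exact map_mem hb c hz
    · intro hw
      obtain ⟨z, hz, hzw⟩ := map_surj hb c hw
      exact ⟨z, hz, hzw⟩
  rw [← h1]
  exact ((convex_ball _ _).isConnected ⟨0, mem_ball_self one_pos⟩).image _
    (map_diff b c).continuousOn

/-- The functions on the domain which are continuous up to the boundary have pullbacks in the tame
algebra. -/
theorem cont_tame {b : ℝ} (hb : 0 < b) (c : Fin m → ℝ)
    {f : EuclideanSpace ℂ (Fin (m + 1)) → ℂ} (hf : DifferentiableOn ℂ f (annDom b c))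
    (hfc : ContinuousOn f (closure (annDom b c))) :
    (fun z => f (annMap b c z)) ∈ TameAlg (m + 1) := by
  obtain ⟨R, hR, hRb⟩ := ann_bounded hb c
  have hcomp : IsCompact (closure (annDom b c)) := by
    apply Metric.isCompact_of_isClosed_isBounded isClosed_closure
    apply Bornology.IsBounded.closure
    exact (Metric.isBounded_closedBall (x := (0 : EuclideanSpace ℂ (Fin (m + 1)))) (r := R)).subset
      fun w hw => mem_closedBall_zero_iff.mpr (hRb w hw)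
  obtain ⟨M, hM⟩ := hcomp.exists_bound_of_continuousOn hfc
  have huc := hcomp.uniformContinuousOn_of_continuous hfc
  have hfH : IsHinf (annDom b c) f := ⟨hf, M, fun w hw => hM w (subset_closure hw)⟩
  refine ⟨(pull_ball hb c hfH).1, fun ε hε => ?_⟩
  obtain ⟨δ, hδ, h⟩ := Metric.uniformContinuousOn_iff_le.mp huc ε hε
  obtain ⟨κ, hκ, hκ1, hκδ⟩ : ∃ κ : ℝ, 0 < κ ∧ κ ≤ 1 ∧ κ * R ≤ δ :=
    ⟨min 1 (δ / R), lt_min one_pos (div_pos hδ hR), min_le_left _ _, by
      calc min 1 (δ / R) * R ≤ δ / R * R := mul_le_mul_of_nonneg_right (min_le_right _ _) hR.le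
        _ = δ := div_mul_cancel₀ _ hR.ne'⟩
  obtain ⟨s, hs⟩ : ∃ s : ℝ, s = Real.sqrt (1 - κ) := ⟨_, rfl⟩
  have hs0 : 0 ≤ s := by rw [hs]; exact Real.sqrt_nonneg _
  have hs2 : s ^ 2 = 1 - κ := by rw [hs, Real.sq_sqrt (by linarith)]
  have hs1 : s ≤ 1 := by nlinarith
  have hs3 : 1 - s ≤ κ := by nlinarith
  have hsub : annDom b c ⊆ annDomW b c κ := by
    rintro w ⟨h1, h2, h3⟩
    refine ⟨h1, h2, lt_of_le_of_lt ?_ h3⟩
    have h4 : 0 ≤ ∑ j : Fin m, ‖w j.succ‖ ^ 2 * ‖w 0‖ ^ c j :=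
      Finset.sum_nonneg fun j _ => by positivity
    nlinarith
  have hmem : ∀ w ∈ annDomW b c κ, shr s w ∈ annDom b c := fun w hw => by
    rw [hs]
    exact (shr_mem hκ1).mpr hw
  refine ⟨fun z => f (shr s (annMap b c z)), Algebra.subset_adjoin ?_, fun z hz => ?_⟩
  · exact wide_tame hb c hκ hκ1 (H := fun w => f (shr s w))
      (hf.comp (shr_diff s).differentiableOn hmem) (M := M)
      fun w hw => hM _ (subset_closure (hmem w hw))
  · have hw := map_mem hb c hz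
    obtain ⟨w, hww⟩ : ∃ w, w = annMap b c z := ⟨_, rfl⟩
    rw [← hww] at hw
    change ‖f (annMap b c z) - f (shr s (annMap b c z))‖ ≤ ε
    rw [← hww, ← dist_eq_norm]
    refine h _ (subset_closure hw) _ (subset_closure (hmem w (hsub hw))) ?_
    have h1 : ‖w - shr s w‖ ≤ (1 - s) * ‖w‖ := by
      have h2 : ‖w - shr s w‖ ^ 2 ≤ ((1 - s) * ‖w‖) ^ 2 := by
        rw [EuclideanSpace.norm_sq_eq, Fin.sum_univ_succ, mul_pow, EuclideanSpace.norm_sq_eq,
          Fin.sum_univ_succ, mul_add, Finset.mul_sum]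
        refine add_le_add ?_ (Finset.sum_le_sum fun j _ => ?_)
        · rw [PiLp.sub_apply, shr_zero, sub_self, norm_zero, zero_pow two_ne_zero]
          positivity
        · rw [PiLp.sub_apply, shr_succ]
          have h3 : w j.succ - s * w j.succ = ((1 - s : ℝ) : ℂ) * w j.succ := by
            push_cast
            ring
          rw [h3, norm_mul, mul_pow, Complex.norm_real, Real.norm_eq_abs, sq_abs]
      exact le_of_sq_le_sq h2 (mul_nonneg (by linarith) (norm_nonneg _))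
    rw [dist_eq_norm]
    calc ‖w - shr s w‖ ≤ (1 - s) * ‖w‖ := h1
      _ ≤ κ * R := mul_le_mul hs3 (hRb w hw) (norm_nonneg _) hκ.le
      _ ≤ δ := hκδ

/-- Tame functions belong to the larger algebra. -/
theorem gens_comp {n : ℕ} (hn : 2 ≤ n) {u : EuclideanSpace ℂ (Fin n) → ℂ}
    (hu : u ∈ TameGens n) : u ∈ TameComp n :=
  TK.tame_sub_comp hn ⟨TK.tg_diff hu, fun _ hη => ⟨u, Algebra.subset_adjoin hu,
    fun z _ => by rw [sub_self, norm_zero]; exact hη.le⟩⟩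

/-- The bounded holomorphic functions on the larger domain. -/
theorem wide_comp (hm : 1 ≤ m) {b : ℝ} (hb : 0 < b) (c : Fin m → ℝ) {κ M : ℝ} (hκ : 0 < κ)
    (hκ1 : κ ≤ 1) {H : EuclideanSpace ℂ (Fin (m + 1)) → ℂ}
    (hH : DifferentiableOn ℂ H (annDomW b c κ)) (hM : ∀ w ∈ annDomW b c κ, ‖H w‖ ≤ M) :
    (fun z => H (annMap b c z)) ∈ TameComp (m + 1) :=
  gens_comp (Nat.succ_le_succ hm) (wide_tame hb c hκ hκ1 hH hM)

/-- The algebra `A(D)`. -/
theorem cont_comp (hm : 1 ≤ m) {b : ℝ} (hb : 0 < b) (c : Fin m → ℝ)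
    {f : EuclideanSpace ℂ (Fin (m + 1)) → ℂ} (hf : DifferentiableOn ℂ f (annDom b c))
    (hfc : ContinuousOn f (closure (annDom b c))) :
    (fun z => f (annMap b c z)) ∈ TameComp (m + 1) :=
  TK.tame_sub_comp (Nat.succ_le_succ hm) (cont_tame hb c hf hfc)

end Pool.Agent.MPca0fc2.DO
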