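import Mathlib

set_option autoImplicit false

open Metric Set

namespace Pool.Agent.Lib.MP_ca0fc2_an

/-- The domain of all `(x, y)` with `|x|² + e^{α(x)} ‖y‖² < 1`. -/
def hartogs (α : ℂ → ℝ) (F : Type*) [NormedAddCommGroup F] : Set (ℂ × F) :=
  {p | ‖p.1‖ ^ 2 + Real.exp (α p.1) * ‖p.2‖ ^ 2 < 1}

namespace Hart

/-- The tube in the domain `hartogs α F` over the disc with centre `ζ` and radius
`r (1 - |ζ|)`. -/
def tube (α : ℂ → ℝ) (F : Type*) [NormedAddCommGroup F] (r : ℝ) (ζ : ℂ) : Set (ℂ × F) :=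
  {p | p ∈ hartogs α F ∧ p.1 ∈ ball ζ (r * (1 - ‖ζ‖))}

/-- The equation `∑ j, f j * h j = 1` has a solution `h` that is holomorphic on the open set `D`
and bounded by `C` there. -/
def Solvable {F : Type*} [NormedAddCommGroup F] [NormedSpace ℂ F] {N : ℕ}
    (f : Fin N → ℂ × F → ℂ) (D : Set (ℂ × F)) (C : ℝ) : Prop :=
  ∃ h : Fin N → ℂ × F → ℂ, (∀ j, DifferentiableOn ℂ (h j) D) ∧ (∀ j, ∀ z ∈ D, ‖h j z‖ ≤ C) ∧
    ∀ z ∈ D, ∑ j, f j z * h j z = 1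

end Hart

end Pool.Agent.Lib.MP_ca0fc2_an
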