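import Mathlib
import Pool.Agent.Lib.MP_ca0fc2_an.Division
import Pool.Agent.Lib.MP_ca0fc2_an.HartDefs

set_option autoImplicit false

open Metric Set MeasureTheory Filter Topology

namespace Pool.Agent.Lib.MP_ca0fc2_an

namespace Hart

variable {F : Type*} [NormedAddCommGroup F] [NormedSpace ℂ F]

/-- admissible weights -/
structure Wt (α : ℂ → ℝ) : Prop where
  smooth : ContDiffOn ℝ 1 α (ball 0 1)
  supp : ∀ ζ ∈ ball (0 : ℂ) 1, ∀ x ∈ ball (0 : ℂ) 1,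
    α ζ + fderiv ℝ α ζ (x - ζ) ≤ α x + ‖x - ζ‖ ^ 2

variable {α : ℂ → ℝ}

/-- the weighted square norm of the second coordinate -/
noncomputable def wt (α : ℂ → ℝ) (p : ℂ × F) : ℝ := Real.exp (α p.1) * ‖p.2‖ ^ 2

theorem wt_nonneg (α : ℂ → ℝ) (p : ℂ × F) : 0 ≤ wt α p := by unfold wt; positivity

theorem mem_hart {p : ℂ × F} : p ∈ hartogs α F ↔ ‖p.1‖ ^ 2 + Real.exp (α p.1) * ‖p.2‖ ^ 2 < 1 :=
  Iff.rfl

theorem mem_hart' {p : ℂ × F} : p ∈ hartogs α F ↔ wt α p < 1 - ‖p.1‖ ^ 2 := by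
  rw [mem_hart, wt]
  constructor <;> intro h <;> linarith

theorem fst_lt {p : ℂ × F} (hp : p ∈ hartogs α F) : ‖p.1‖ < 1 := by
  rw [mem_hart] at hp
  have : 0 ≤ Real.exp (α p.1) * ‖p.2‖ ^ 2 := by positivity
  nlinarith [norm_nonneg p.1]

theorem fst_mem {p : ℂ × F} (hp : p ∈ hartogs α F) : p.1 ∈ ball (0 : ℂ) 1 := by
  simpa using fst_lt hp

theorem isOpen_hart (hα : Wt α) : IsOpen (hartogs α F) := by
  have h1 : hartogs α F = (ball (0 : ℂ) 1 ×ˢ univ) ∩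
      (fun p : ℂ × F => ‖p.1‖ ^ 2 + Real.exp (α p.1) * ‖p.2‖ ^ 2) ⁻¹' Iio 1 := by
    ext p
    constructor
    · intro hp
      exact ⟨⟨fst_mem hp, mem_univ _⟩, hp⟩
    · intro hp
      exact hp.2
  rw [h1]
  apply ContinuousOn.isOpen_inter_preimage _ (isOpen_ball.prod isOpen_univ) isOpen_Iio
  have h2 : ContinuousOn (fun p : ℂ × F => α p.1) (ball (0 : ℂ) 1 ×ˢ univ) :=
    hα.smooth.continuousOn.comp continuousOn_fst fun p hp => hp.1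
  exact (continuousOn_fst.norm.pow 2).add (h2.rexp.mul (continuousOn_snd.norm.pow 2))

/-- the complex linear functional whose real part is the derivative of `α` -/
noncomputable def Ac (α : ℂ → ℝ) (ζ : ℂ) : ℂ :=
  (fderiv ℝ α ζ 1 : ℝ) - Complex.I * (fderiv ℝ α ζ Complex.I : ℝ)

theorem re_Ac (ζ v : ℂ) : (Ac α ζ * v).re = fderiv ℝ α ζ v := by
  have h1 : v = (v.re : ℝ) • (1 : ℂ) + (v.im : ℝ) • Complex.I := by
    simp only [Complex.real_smul, mul_one]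
    exact (Complex.re_add_im v).symm
  conv_rhs => rw [h1, map_add, map_smul, map_smul]
  simp only [Ac, smul_eq_mul]
  simp
  ring

/-- the multiplier -/
noncomputable def Gm (α : ℂ → ℝ) (ζ x : ℂ) : ℂ := Complex.exp (Ac α ζ * (x - ζ) / 2)

/-- the coefficient of the retraction -/
noncomputable def cg (α : ℂ → ℝ) (ζ x : ℂ) : ℂ := cf ζ x * Gm α ζ x

theorem cg_self {ζ : ℂ} (hζ : ‖ζ‖ < 1) : cg α ζ ζ = 1 := by
  rw [cg, cf_self hζ, Gm, sub_self, mul_zero, zero_div, Complex.exp_zero, mul_one]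

theorem norm_Gm_sq (ζ x : ℂ) : ‖Gm α ζ x‖ ^ 2 = Real.exp (fderiv ℝ α ζ (x - ζ)) := by
  rw [Gm, Complex.norm_exp, ← Real.exp_nat_mul]
  congr 1
  have : (Ac α ζ * (x - ζ) / 2).re = (Ac α ζ * (x - ζ)).re / 2 := by
    simp
  rw [this, re_Ac]
  push_cast
  ring

/-- the weight at the retracted point -/
theorem wt_retract (hα : Wt α) {ζ : ℂ} (hζ : ‖ζ‖ < 1) {p : ℂ × F} (hp : p ∈ hartogs α F) :
    wt α (ζ, cg α ζ p.1 • p.2) ≤ (1 - ‖ζ‖ ^ 2) ^ 2 / ‖1 - (starRingEnd ℂ) ζ * p.1‖ ^ 2 *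
      Real.exp (‖p.1 - ζ‖ ^ 2) * wt α p := by
  have hx := fst_lt hp
  have hs := hα.supp ζ (by simpa using hζ) p.1 (fst_mem hp)
  have h1 : ‖cg α ζ p.1‖ ^ 2 = (1 - ‖ζ‖ ^ 2) ^ 2 / ‖1 - (starRingEnd ℂ) ζ * p.1‖ ^ 2 *
      Real.exp (fderiv ℝ α ζ (p.1 - ζ)) := by
    rw [cg, norm_mul, mul_pow, norm_Gm_sq, norm_cf hζ, div_pow]
  have h2 : wt α (ζ, cg α ζ p.1 • p.2) = (1 - ‖ζ‖ ^ 2) ^ 2 / ‖1 - (starRingEnd ℂ) ζ * p.1‖ ^ 2 *
      Real.exp (α ζ + fderiv ℝ α ζ (p.1 - ζ)) * ‖p.2‖ ^ 2 := by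
    simp only [wt, norm_smul]
    rw [mul_pow, h1, Real.exp_add]
    ring
  have h3 : Real.exp (α ζ + fderiv ℝ α ζ (p.1 - ζ)) ≤
      Real.exp (‖p.1 - ζ‖ ^ 2) * Real.exp (α p.1) := by
    rw [← Real.exp_add]
    apply Real.exp_le_exp.mpr
    linarith
  rw [h2, wt]
  have h4 : 0 ≤ (1 - ‖ζ‖ ^ 2) ^ 2 / ‖1 - (starRingEnd ℂ) ζ * p.1‖ ^ 2 := by positivity
  calc (1 - ‖ζ‖ ^ 2) ^ 2 / ‖1 - (starRingEnd ℂ) ζ * p.1‖ ^ 2 *
      Real.exp (α ζ + fderiv ℝ α ζ (p.1 - ζ)) * ‖p.2‖ ^ 2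
      ≤ (1 - ‖ζ‖ ^ 2) ^ 2 / ‖1 - (starRingEnd ℂ) ζ * p.1‖ ^ 2 *
        (Real.exp (‖p.1 - ζ‖ ^ 2) * Real.exp (α p.1)) * ‖p.2‖ ^ 2 :=
        mul_le_mul_of_nonneg_right (mul_le_mul_of_nonneg_left h3 h4) (sq_nonneg _)
    _ = _ := by ring

theorem exp_mul_one_sub_le {u : ℝ} (h0 : 0 ≤ u) : (1 - u) * Real.exp u ≤ (1 + u) * Real.exp (-u) := by
  have hd : ∀ v : ℝ, HasDerivAt (fun v => (1 + v) * Real.exp (-v) - (1 - v) * Real.exp v)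
      (v * (Real.exp v - Real.exp (-v))) v := by
    intro v
    have h1 : HasDerivAt (fun v : ℝ => (1 + v) * Real.exp (-v))
        (1 * Real.exp (-v) + (1 + v) * (Real.exp (-v) * (-1))) v :=
      ((hasDerivAt_id v).const_add 1).mul ((hasDerivAt_neg v).exp)
    have h2 : HasDerivAt (fun v : ℝ => (1 - v) * Real.exp v)
        (-1 * Real.exp v + (1 - v) * Real.exp v) v :=
      ((hasDerivAt_id v).const_sub 1).mul (Real.hasDerivAt_exp v)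
    exact (h1.sub h2).congr_deriv (by ring)
  have hmono : MonotoneOn (fun v : ℝ => (1 + v) * Real.exp (-v) - (1 - v) * Real.exp v) (Ici 0) := by
    apply monotoneOn_of_deriv_nonneg (convex_Ici 0)
    · exact fun v _ => (hd v).continuousAt.continuousWithinAt
    · exact fun v _ => (hd v).differentiableAt.differentiableWithinAt
    · intro v hv
      rw [interior_Ici] at hv
      rw [(hd v).deriv]
      have hv' : 0 ≤ v := (mem_Ioi.mp hv).le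
      exact mul_nonneg hv' (sub_nonneg.mpr (Real.exp_le_exp.mpr (by linarith)))
  have h := hmono (mem_Ici.mpr le_rfl) (mem_Ici.mpr h0) h0
  simp only [add_zero, neg_zero, Real.exp_zero, sub_zero, mul_one, sub_self] at h
  linarith

theorem exp_sq_le {s : ℝ} (h0 : 0 ≤ s) (h4 : s ≤ 4) : (1 - s / 4) ^ 2 * (Real.exp s - 1) ≤ s := by
  have h := exp_mul_one_sub_le (u := s / 4) (by linarith)
  have e1 : Real.exp (s / 4) * Real.exp (s / 4) = Real.exp (s / 2) := by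
    rw [← Real.exp_add]
    congr 1
    ring
  have e2 : Real.exp (-(s / 4)) * Real.exp (s / 4) = 1 := by
    rw [← Real.exp_add]; simp
  have e3 : Real.exp (s / 2) * Real.exp (s / 2) = Real.exp s := by
    rw [← Real.exp_add, add_halves]
  have h1 : (1 - s / 4) * Real.exp (s / 2) ≤ 1 + s / 4 := by
    have := mul_le_mul_of_nonneg_right h (Real.exp_pos (s / 4)).le
    rw [mul_assoc, e1, mul_assoc, e2, mul_one] at this
    exact this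
  have h2 : 0 ≤ (1 - s / 4) * Real.exp (s / 2) := mul_nonneg (by linarith) (Real.exp_pos _).le
  have h3 : ((1 - s / 4) * Real.exp (s / 2)) ^ 2 ≤ (1 + s / 4) ^ 2 := pow_le_pow_left₀ h2 h1 2
  have e4 : ((1 - s / 4) * Real.exp (s / 2)) ^ 2 = (1 - s / 4) ^ 2 * Real.exp s := by
    rw [mul_pow, sq (Real.exp (s / 2)), e3]
  rw [e4] at h3
  nlinarith

theorem retract_mem' (hα : Wt α) {ζ : ℂ} (hζ : ‖ζ‖ < 1) {p : ℂ × F} (hp : p ∈ hartogs α F) :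
    (ζ, cg α ζ p.1 • p.2) ∈ hartogs α F := by
  have hx := fst_lt hp
  have hw := mem_hart'.mp hp
  rw [mem_hart']
  refine (wt_retract hα hζ hp).trans_lt ?_
  have hd : 0 < ‖1 - (starRingEnd ℂ) ζ * p.1‖ := norm_pos_iff.mpr (den_ne_zero hx hζ)
  have hid := mobius_identity p.1 ζ
  have hζ2 : 0 < 1 - ‖ζ‖ ^ 2 := by nlinarith [norm_nonneg ζ]
  have hx2 : 0 < 1 - ‖p.1‖ ^ 2 := by nlinarith [norm_nonneg p.1]
  have hsn := norm_sub_le p.1 ζ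
  have hs4 : ‖p.1 - ζ‖ ^ 2 ≤ 4 := by
    nlinarith [norm_nonneg (p.1 - ζ)]
  have he := exp_sq_le (sq_nonneg ‖p.1 - ζ‖) hs4
  have hexp : 0 < Real.exp (‖p.1 - ζ‖ ^ 2) := Real.exp_pos _
  have hexp1 : 0 ≤ Real.exp (‖p.1 - ζ‖ ^ 2) - 1 := by
    have := Real.add_one_le_exp (‖p.1 - ζ‖ ^ 2)
    nlinarith [sq_nonneg ‖p.1 - ζ‖]
  have h1 : (1 - ‖ζ‖ ^ 2) * Real.exp (‖p.1 - ζ‖ ^ 2) * wt α p <
      ‖1 - (starRingEnd ℂ) ζ * p.1‖ ^ 2 := by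
    have h2 : (1 - ‖ζ‖ ^ 2) * Real.exp (‖p.1 - ζ‖ ^ 2) * wt α p <
        (1 - ‖ζ‖ ^ 2) * Real.exp (‖p.1 - ζ‖ ^ 2) * (1 - ‖p.1‖ ^ 2) :=
      mul_lt_mul_of_pos_left hw (by positivity)
    refine h2.trans_le ?_
    rw [hid]
    have h3 : (1 - ‖ζ‖ ^ 2) * (1 - ‖p.1‖ ^ 2) ≤ (1 - ‖p.1 - ζ‖ ^ 2 / 4) ^ 2 := by
      have a1 : ‖p.1 - ζ‖ ^ 2 ≤ (‖p.1‖ + ‖ζ‖) ^ 2 := pow_le_pow_left₀ (norm_nonneg _) hsn 2
      have a2 : (1 - ‖ζ‖ ^ 2) * (1 - ‖p.1‖ ^ 2) ≤ (1 - (‖p.1‖ + ‖ζ‖) ^ 2 / 4) ^ 2 := by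
        nlinarith [sq_nonneg (‖p.1‖ - ‖ζ‖), sq_nonneg (‖p.1‖ ^ 2 - ‖ζ‖ ^ 2),
          mul_nonneg (norm_nonneg p.1) (norm_nonneg ζ), sq_nonneg (‖p.1‖ + ‖ζ‖),
          mul_nonneg (sq_nonneg (‖p.1‖ - ‖ζ‖)) hζ2.le, mul_nonneg (sq_nonneg (‖p.1‖ - ‖ζ‖)) hx2.le]
      refine a2.trans (pow_le_pow_left₀ ?_ ?_ 2)
      · nlinarith [norm_nonneg p.1, norm_nonneg ζ]
      · linarith
    have h4 := mul_le_mul_of_nonneg_right h3 hexp1
    nlinarith [sq_nonneg ‖p.1 - ζ‖]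
  calc (1 - ‖ζ‖ ^ 2) ^ 2 / ‖1 - (starRingEnd ℂ) ζ * p.1‖ ^ 2 *
      Real.exp (‖p.1 - ζ‖ ^ 2) * wt α p
      = (1 - ‖ζ‖ ^ 2) * ((1 - ‖ζ‖ ^ 2) * Real.exp (‖p.1 - ζ‖ ^ 2) * wt α p) /
        ‖1 - (starRingEnd ℂ) ζ * p.1‖ ^ 2 := by field_simp
    _ < 1 - ‖ζ‖ ^ 2 := by
      rw [div_lt_iff₀ (by positivity)]
      exact mul_lt_mul_of_pos_left h1 hζ2

theorem wt_retract_le (hα : Wt α) {ζ : ℂ} (hζ : ‖ζ‖ < 1) {p : ℂ × F}
    (hp : p ∈ hartogs α F) :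
    wt α (ζ, cg α ζ p.1 • p.2) ≤
      (1 - ‖ζ‖ ^ 2) ^ 2 * (55 * wt α p / ‖1 - (starRingEnd ℂ) ζ * p.1‖ ^ 2) := by
  have hx := fst_lt hp
  refine (wt_retract hα hζ hp).trans ?_
  have hs4 : ‖p.1 - ζ‖ ^ 2 ≤ 4 := by
    have := norm_sub_le p.1 ζ
    nlinarith [norm_nonneg (p.1 - ζ)]
  have he : Real.exp (‖p.1 - ζ‖ ^ 2) ≤ 55 := by
    have h1 := Real.exp_le_exp.mpr hs4
    have h2 := Real.exp_one_lt_d9
    have h3 : Real.exp 4 = Real.exp 1 ^ 4 := by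
      rw [← Real.exp_nat_mul]; norm_num
    have h4 : Real.exp 1 ^ 4 ≤ 2.7182818286 ^ 4 :=
      pow_le_pow_left₀ (Real.exp_pos 1).le h2.le 4
    rw [h3] at h1
    have h5 : (2.7182818286 : ℝ) ^ 4 ≤ 55 := by norm_num
    linarith
  have h4 : 0 ≤ (1 - ‖ζ‖ ^ 2) ^ 2 / ‖1 - (starRingEnd ℂ) ζ * p.1‖ ^ 2 := by positivity
  have h5 := wt_nonneg α p
  calc (1 - ‖ζ‖ ^ 2) ^ 2 / ‖1 - (starRingEnd ℂ) ζ * p.1‖ ^ 2 *
      Real.exp (‖p.1 - ζ‖ ^ 2) * wt α p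
      ≤ (1 - ‖ζ‖ ^ 2) ^ 2 / ‖1 - (starRingEnd ℂ) ζ * p.1‖ ^ 2 * 55 * wt α p :=
        mul_le_mul_of_nonneg_right (mul_le_mul_of_nonneg_left he h4) h5
    _ = _ := by ring

theorem continuousOn_Ac (hα : Wt α) : ContinuousOn (Ac α) (ball 0 1) := by
  have h := hα.smooth.continuousOn_fderiv_of_isOpen isOpen_ball le_rfl
  unfold Ac
  refine ContinuousOn.sub ?_ (continuousOn_const.mul ?_)
  · exact Complex.continuous_ofReal.comp_continuousOn (h.clm_apply continuousOn_const)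
  · exact Complex.continuous_ofReal.comp_continuousOn (h.clm_apply continuousOn_const)

theorem continuousOn_retract' (hα : Wt α) {p : ℂ × F} (hp : p ∈ hartogs α F) :
    ContinuousOn (fun ζ : ℂ => (ζ, cg α ζ p.1 • p.2)) (ball 0 1) := by
  have hx := fst_lt hp
  refine continuousOn_id.prodMk ?_
  refine ContinuousOn.smul ?_ continuousOn_const
  unfold cg cf Gm
  refine ContinuousOn.mul ?_ ?_
  · refine ContinuousOn.div ?_ ?_ ?_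
    · apply Continuous.continuousOn; fun_prop
    · apply Continuous.continuousOn
      exact continuous_const.sub ((Complex.continuous_conj).mul continuous_const)
    · intro ζ hζ
      exact den_ne_zero hx (by simpa using hζ)
  · exact (((continuousOn_Ac hα).mul (continuousOn_const.sub continuousOn_id)).div_const 2).cexp

theorem differentiableOn_cg (α : ℂ → ℝ) {ζ : ℂ} (hζ : ‖ζ‖ < 1) :
    DifferentiableOn ℂ (cg α ζ) (ball 0 1) := by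
  unfold cg Gm
  refine (differentiableOn_cf hζ).mul ?_
  apply Differentiable.differentiableOn
  fun_prop

end Hart

end Pool.Agent.Lib.MP_ca0fc2_an
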