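import Mathlib
import Pool.Agent.Lib.MP_ca0fc2_an.HartDom

set_option autoImplicit false

open Metric Set MeasureTheory Filter Topology

namespace Pool.Agent.Lib.MP_ca0fc2_an

namespace Hart

variable {F : Type*} [NormedAddCommGroup F] [NormedSpace ℂ F] {α : ℂ → ℝ}

theorem zero_mem_hart : (0 : ℂ × F) ∈ hartogs α F := by
  rw [mem_hart]
  simp

/-- `g` is continuously differentiable in the first variable, holomorphic in the second one, and
`gb` is its derivative with respect to the conjugate of the first variable. -/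
structure ZSmooth (α : ℂ → ℝ) (g gb : ℂ × F → ℂ) : Prop where
  cont : ContinuousOn g (hartogs α F)
  contb : ContinuousOn gb (hartogs α F)
  holo : ∀ p ∈ hartogs α F, DifferentiableAt ℂ (fun y => g (p.1, y)) p.2
  holob : ∀ p ∈ hartogs α F, DifferentiableAt ℂ (fun y => gb (p.1, y)) p.2
  smooth : ∀ y : F, ContDiffOn ℝ 1 (fun x => g (x, y)) {x | (x, y) ∈ hartogs α F}
  dbar_eq : ∀ p ∈ hartogs α F, dbar (fun x => g (x, p.2)) p.1 = gb p

theorem isOpen_slice (hα : Wt α) (y : F) : IsOpen {x : ℂ | (x, y) ∈ hartogs α F} :=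
  (isOpen_hart hα).preimage (by fun_prop : Continuous fun x : ℂ => (x, y))

/-- the data of the basic equation -/
structure Datum (α : ℂ → ℝ) (Om : ℂ × F → ℂ) (A : ℝ) : Prop where
  cont : ContinuousOn Om (hartogs α F)
  holo : ∀ p ∈ hartogs α F, DifferentiableAt ℂ (fun y => Om (p.1, y)) p.2
  bound : ∀ p ∈ hartogs α F, ‖Om p‖ * (1 - ‖p.1‖ ^ 2) ^ 2 ≤ A * wt α p

/-- the solution operator -/
noncomputable def sol (α : ℂ → ℝ) (Om : ℂ × F → ℂ) (p : ℂ × F) : ℂ :=
  (1 / Real.pi : ℂ) * ∫ ζ in ball (0 : ℂ) 1, Om (ζ, cg α ζ p.1 • p.2) / (p.1 - ζ)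

theorem Datum.bound_retract (hα : Wt α) {Om : ℂ × F → ℂ} {A : ℝ} (hA : 0 ≤ A)
    (hOm : Datum α Om A) {ζ : ℂ} (hζ : ‖ζ‖ < 1) {p : ℂ × F} (hp : p ∈ hartogs α F) :
    ‖Om (ζ, cg α ζ p.1 • p.2)‖ ≤ 55 * A * wt α p / ‖1 - (starRingEnd ℂ) ζ * p.1‖ ^ 2 := by
  have h := hOm.bound _ (retract_mem' hα hζ hp)
  have h2 := wt_retract_le hα hζ hp
  have hx := fst_lt hp
  have hd : 0 < ‖1 - (starRingEnd ℂ) ζ * p.1‖ := norm_pos_iff.mpr (den_ne_zero hx hζ)
  have hζ2 : 0 < 1 - ‖ζ‖ ^ 2 := by nlinarith [norm_nonneg ζ]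
  have h3 : ‖Om (ζ, cg α ζ p.1 • p.2)‖ * (1 - ‖ζ‖ ^ 2) ^ 2 ≤
      (55 * A * wt α p / ‖1 - (starRingEnd ℂ) ζ * p.1‖ ^ 2) * (1 - ‖ζ‖ ^ 2) ^ 2 := by
    refine h.trans ((mul_le_mul_of_nonneg_left h2 hA).trans (le_of_eq ?_))
    ring
  exact le_of_mul_le_mul_right h3 (by positivity)

theorem Datum.bound_retract' (hα : Wt α) {Om : ℂ × F → ℂ} {A : ℝ} (hA : 0 ≤ A)
    (hOm : Datum α Om A) {ζ : ℂ} (hζ : ‖ζ‖ < 1) {p : ℂ × F} (hp : p ∈ hartogs α F) :
    ‖Om (ζ, cg α ζ p.1 • p.2)‖ ≤ 55 * A / (1 - ‖p.1‖) ^ 2 := by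
  have hx := fst_lt hp
  refine (hOm.bound_retract hα hA hζ hp).trans ?_
  have hy : wt α p ≤ 1 := by
    have := mem_hart'.mp hp
    nlinarith [sq_nonneg ‖p.1‖]
  have h1 : (1 - ‖p.1‖) ^ 2 ≤ ‖1 - (starRingEnd ℂ) ζ * p.1‖ ^ 2 :=
    pow_le_pow_left₀ (by linarith) (one_sub_le hζ) 2
  have h2 : 0 < (1 - ‖p.1‖) ^ 2 := by
    have : 0 < 1 - ‖p.1‖ := by linarith
    positivity
  apply div_le_div₀ (by positivity) _ h2 h1
  nlinarith

theorem sol_bound (hα : Wt α) {Om : ℂ × F → ℂ} {A : ℝ} (hA : 0 ≤ A) (hOm : Datum α Om A)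
    {p : ℂ × F} (hp : p ∈ hartogs α F) : ‖sol α Om p‖ ≤ 4 * Real.pi * (55 * A) := by
  have hx := fst_lt hp
  have hk := kernel_bound hx (H := fun ζ => Om (ζ, cg α ζ p.1 • p.2)) (A := 2 * (55 * A))
    (by positivity) ?_
  · rw [sol, norm_mul]
    have : ‖(1 / Real.pi : ℂ)‖ = 1 / Real.pi := by
      rw [norm_div, norm_one, Complex.norm_real, Real.norm_of_nonneg Real.pi_pos.le]
    rw [this]
    calc 1 / Real.pi * ‖∫ ζ in ball (0 : ℂ) 1, Om (ζ, cg α ζ p.1 • p.2) / (p.1 - ζ)‖
        ≤ 1 / Real.pi * (2 * Real.pi ^ 2 * (2 * (55 * A))) :=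
          mul_le_mul_of_nonneg_left hk (by positivity)
      _ = 4 * Real.pi * (55 * A) := by field_simp; ring
  · intro ζ hζ
    have hζ' : ‖ζ‖ < 1 := by simpa using hζ
    refine (hOm.bound_retract hα hA hζ' hp).trans ?_
    have hd : 0 < ‖1 - (starRingEnd ℂ) ζ * p.1‖ := norm_pos_iff.mpr (den_ne_zero hx hζ')
    apply div_le_div_of_nonneg_right _ (by positivity)
    have hy := mem_hart'.mp hp
    have h3 : wt α p ≤ 2 * (1 - ‖p.1‖) := by nlinarith [norm_nonneg p.1]
    calc 55 * A * wt α p ≤ 55 * A * (2 * (1 - ‖p.1‖)) := mul_le_mul_of_nonneg_left h3 (by positivity)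
      _ = 2 * (55 * A) * (1 - ‖p.1‖) := by ring

theorem Datum.continuousOn_retract (hα : Wt α) {Om : ℂ × F → ℂ} {A : ℝ} (hOm : Datum α Om A) {p : ℂ × F}
    (hp : p ∈ hartogs α F) : ContinuousOn (fun ζ : ℂ => Om (ζ, cg α ζ p.1 • p.2)) (ball 0 1) := by
  refine hOm.cont.comp (continuousOn_retract' hα hp) ?_
  intro ζ hζ
  exact retract_mem' hα (by simpa using hζ) hp

theorem Datum.meas (hα : Wt α) {Om : ℂ × F → ℂ} {A : ℝ} (hOm : Datum α Om A) {p : ℂ × F}
    (hp : p ∈ hartogs α F) : AEStronglyMeasurable (fun ζ : ℂ => Om (ζ, cg α ζ p.1 • p.2))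
      (volume.restrict (ball (0 : ℂ) 1)) :=
  (hOm.continuousOn_retract hα hp).aestronglyMeasurable measurableSet_ball

theorem sol_holo_snd (hα : Wt α) {Om : ℂ × F → ℂ} {A : ℝ} (hA : 0 ≤ A) (hOm : Datum α Om A) {p : ℂ × F}
    (hp : p ∈ hartogs α F) : DifferentiableAt ℂ (fun y => sol α Om (p.1, y)) p.2 := by
  have hx := fst_lt hp
  obtain ⟨r, hr, hsub⟩ := Metric.isOpen_iff.mp (isOpen_hart hα (F := F)) p hp
  have hmem : ∀ y ∈ ball p.2 r, (p.1, y) ∈ hartogs α F := by
    intro y hy
    apply hsub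
    rw [mem_ball, Prod.dist_eq]
    simpa [hr] using hy
  unfold sol
  apply DifferentiableAt.const_mul
  refine differentiableAt_integral (r := r) hr
    (g := fun ζ => 55 * A / (1 - ‖p.1‖) ^ 2 * ‖p.1 - ζ‖⁻¹) ?_ ?_ ?_ ?_
  · refine (ae_restrict_iff' measurableSet_ball).mpr (Eventually.of_forall fun ζ hζ => ?_)
    have hζ' : ‖ζ‖ < 1 := by simpa using hζ
    intro y hy
    apply DifferentiableAt.differentiableWithinAt
    simp only [div_eq_mul_inv]
    apply DifferentiableAt.mul_const
    have h1 := hOm.holo _ (retract_mem' hα hζ' (hmem y hy))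
    exact DifferentiableAt.comp (g := fun y => Om (ζ, y)) (f := fun y => cg α ζ p.1 • y) y h1
      (differentiableAt_id.const_smul _)
  · intro y hy
    simp_rw [div_eq_mul_inv]
    refine (hOm.meas hα (hmem y hy)).mul ?_
    exact ((measurable_const.sub measurable_id).inv).aestronglyMeasurable
  · exact (integrableOn_inv_norm_sub p.1).const_mul _
  · refine (ae_restrict_iff' measurableSet_ball).mpr (Eventually.of_forall fun ζ hζ y hy => ?_)
    have hζ' : ‖ζ‖ < 1 := by simpa using hζ
    rw [norm_div, div_eq_mul_inv]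
    exact mul_le_mul_of_nonneg_right (hOm.bound_retract' hα hA hζ' (hmem y hy)) (by positivity)


/-- the bound in the division lemma -/
noncomputable def divC (k : ℕ) (C₀ C₁ C₂ C₃ : ℝ) : ℝ :=
  max C₃ 0 * C₁ + k * (C₀ * (4 * Real.pi * (55 * (max C₃ 0 * (2 * (C₁ * C₂))))))

/-- The division lemma: Koszul complex with one conjugate differential. -/
theorem division {ι : Type*} [Fintype ι] (hα : Wt α) {f g gb : ι → ℂ × F → ℂ} {E : ℂ × F → ℂ}
    {C₀ C₁ C₂ C₃ : ℝ}
    (hf : ∀ j, DifferentiableOn ℂ (f j) (hartogs α F)) (hfb : ∀ j, ∀ p ∈ hartogs α F, ‖f j p‖ ≤ C₀)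
    (hg : ∀ j, ZSmooth α (g j) (gb j)) (hgb : ∀ j, ∀ p ∈ hartogs α F, ‖g j p‖ ≤ C₁)
    (hgbb : ∀ j, ∀ p ∈ hartogs α F, ‖gb j p‖ * (1 - ‖p.1‖ ^ 2) ≤ C₂)
    (hsum : ∀ p ∈ hartogs α F, ∑ j, f j p * g j p = 1)
    (hE : DifferentiableOn ℂ E (hartogs α F))
    (hEb : ∀ p ∈ hartogs α F, ‖E p‖ * (1 - ‖p.1‖ ^ 2) ≤ C₃ * wt α p) :
    ∃ q : ι → ℂ × F → ℂ, (∀ j, DifferentiableOn ℂ (q j) (hartogs α F)) ∧
      (∀ j, ∀ p ∈ hartogs α F, ‖q j p‖ ≤ divC (Fintype.card ι) C₀ C₁ C₂ C₃) ∧
      ∀ p ∈ hartogs α F, ∑ j, f j p * q j p = E p := by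
  classical
  -- trivial case of no functions
  by_cases hι : IsEmpty ι
  · exact absurd (hsum 0 zero_mem_hart) (by simp)
  rw [not_isEmpty_iff] at hι
  obtain ⟨j₀⟩ := hι
  have h0mem : (0 : ℂ × F) ∈ hartogs α F := zero_mem_hart
  have hC₀ : 0 ≤ C₀ := (norm_nonneg _).trans (hfb j₀ 0 h0mem)
  have hC₁ : 0 ≤ C₁ := (norm_nonneg _).trans (hgb j₀ 0 h0mem)
  have hC₂ : 0 ≤ C₂ := by
    have := hgbb j₀ 0 h0mem
    simp at this
    exact (norm_nonneg _).trans this
  have hpos : ∀ p ∈ hartogs α F, 0 < 1 - ‖p.1‖ ^ 2 := fun p hp => by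
    have := fst_lt hp
    nlinarith [norm_nonneg p.1]
  have hC₃' : ∀ p ∈ hartogs α F, ‖E p‖ * (1 - ‖p.1‖ ^ 2) ≤ max C₃ 0 * wt α p := fun p hp =>
    (hEb p hp).trans (mul_le_mul_of_nonneg_right (le_max_left _ _) (wt_nonneg α p))
  set C₄ := max C₃ 0 with hC₄
  have hC₄0 : 0 ≤ C₄ := le_max_right _ _
  have hEbd : ∀ p ∈ hartogs α F, ‖E p‖ ≤ C₄ := by
    intro p hp
    have h1 := hC₃' p hp
    have h2 := mem_hart'.mp hp
    have h3 : ‖E p‖ * (1 - ‖p.1‖ ^ 2) ≤ C₄ * (1 - ‖p.1‖ ^ 2) :=
      h1.trans (mul_le_mul_of_nonneg_left h2.le hC₄0)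
    exact le_of_mul_le_mul_right h3 (hpos p hp)
  -- holomorphy in the second variable
  have hsnd : ∀ {φ : ℂ × F → ℂ}, DifferentiableOn ℂ φ (hartogs α F) → ∀ p ∈ hartogs α F,
      DifferentiableAt ℂ (fun y => φ (p.1, y)) p.2 := by
    intro φ hφ p hp
    have h1 : DifferentiableAt ℂ φ (p.1, p.2) := hφ.differentiableAt ((isOpen_hart hα).mem_nhds hp)
    exact DifferentiableAt.comp (g := φ) (f := fun y : F => (p.1, y)) p.2 h1
      ((differentiableAt_const _).prodMk differentiableAt_id)
  have hfst : ∀ {φ : ℂ × F → ℂ}, DifferentiableOn ℂ φ (hartogs α F) → ∀ y : F,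
      DifferentiableOn ℂ (fun x => φ (x, y)) {x | (x, y) ∈ hartogs α F} := by
    intro φ hφ y x hx
    have h1 : DifferentiableAt ℂ φ (x, y) := hφ.differentiableAt ((isOpen_hart hα).mem_nhds hx)
    exact (DifferentiableAt.comp (g := φ) (f := fun x : ℂ => (x, y)) x h1
      (differentiableAt_id.prodMk (differentiableAt_const _))).differentiableWithinAt
  -- the derivative of the sum
  have hsumb : ∀ p ∈ hartogs α F, ∑ j, f j p * gb j p = 0 := by
    intro p hp
    have hU := (isOpen_slice hα p.2).mem_nhds (show p.1 ∈ {x | (x, p.2) ∈ hartogs α F} from hp)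
    have hdiffg : ∀ j, DifferentiableAt ℝ (fun x => g j (x, p.2)) p.1 := fun j =>
      (((hg j).smooth p.2).contDiffAt hU).differentiableAt one_ne_zero
    have hdifff : ∀ j, DifferentiableAt ℂ (fun x => f j (x, p.2)) p.1 := fun j =>
      (hfst (hf j) p.2).differentiableAt hU
    have hprod : ∀ j, HasFDerivAt (fun x => f j (x, p.2) * g j (x, p.2))
        (f j (p.1, p.2) • fderiv ℝ (fun x => g j (x, p.2)) p.1 +
          g j (p.1, p.2) • fderiv ℝ (fun x => f j (x, p.2)) p.1) p.1 := fun j =>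
      ((hdifff j).restrictScalars ℝ).hasFDerivAt.mul (hdiffg j).hasFDerivAt
    have hS : HasFDerivAt (fun x => ∑ j, f j (x, p.2) * g j (x, p.2))
        (∑ j, (f j (p.1, p.2) • fderiv ℝ (fun x => g j (x, p.2)) p.1 +
          g j (p.1, p.2) • fderiv ℝ (fun x => f j (x, p.2)) p.1)) p.1 :=
      HasFDerivAt.fun_sum fun j _ => hprod j
    have hconst : (fun x => ∑ j, f j (x, p.2) * g j (x, p.2)) =ᶠ[𝓝 p.1] fun _ => 1 := by
      filter_upwards [hU] with x hx
      exact hsum (x, p.2) hx
    have hd0 : dbar (fun x => ∑ j, f j (x, p.2) * g j (x, p.2)) p.1 = 0 := by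
      rw [dbar_congr hconst]
      exact dbar_eq_zero_of_differentiableAt (differentiableAt_const _)
    rw [dbar, hS.fderiv] at hd0
    simp only [sum_apply, add_apply,
      smul_apply, smul_eq_mul] at hd0
    have hf0 : ∀ j, dbar (fun x => f j (x, p.2)) p.1 = 0 := fun j =>
      dbar_eq_zero_of_differentiableAt (hdifff j)
    have hgj : ∀ j, dbar (fun x => g j (x, p.2)) p.1 = gb j p := fun j => (hg j).dbar_eq p hp
    calc ∑ j, f j p * gb j p
        = ∑ j, (f j p * dbar (fun x => g j (x, p.2)) p.1 +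
            g j p * dbar (fun x => f j (x, p.2)) p.1) := by
          apply Finset.sum_congr rfl
          intro j _
          rw [hf0 j, hgj j]; ring
      _ = 0 := by
          rw [← hd0, Finset.mul_sum, ← Finset.sum_add_distrib, Finset.mul_sum]
          apply Finset.sum_congr rfl
          intro j _
          simp only [dbar]
          ring
  -- the forms
  set Om : ι → ι → ℂ × F → ℂ := fun j k p => E p * (g j p * gb k p - g k p * gb j p) with hOmdef
  set A : ℝ := C₄ * (2 * (C₁ * C₂)) with hAdef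
  have hA : 0 ≤ A := by positivity
  have hOm : ∀ j k, Datum α (Om j k) A := by
    intro j k
    refine ⟨?_, ?_, ?_⟩
    · exact hE.continuousOn.mul (((hg j).cont.mul (hg k).contb).sub ((hg k).cont.mul (hg j).contb))
    · intro p hp
      exact (hsnd hE p hp).mul ((((hg j).holo p hp).mul ((hg k).holob p hp)).sub
        (((hg k).holo p hp).mul ((hg j).holob p hp)))
    · intro p hp
      have h1 := hpos p hp
      have h2 : ‖g j p * gb k p - g k p * gb j p‖ * (1 - ‖p.1‖ ^ 2) ≤ 2 * (C₁ * C₂) := by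
        calc ‖g j p * gb k p - g k p * gb j p‖ * (1 - ‖p.1‖ ^ 2)
            ≤ (‖g j p‖ * ‖gb k p‖ + ‖g k p‖ * ‖gb j p‖) * (1 - ‖p.1‖ ^ 2) := by
              apply mul_le_mul_of_nonneg_right _ h1.le
              refine (norm_sub_le _ _).trans ?_
              rw [norm_mul, norm_mul]
          _ = ‖g j p‖ * (‖gb k p‖ * (1 - ‖p.1‖ ^ 2)) + ‖g k p‖ * (‖gb j p‖ * (1 - ‖p.1‖ ^ 2)) := by
              ring
          _ ≤ C₁ * C₂ + C₁ * C₂ := by
              have hk := hgbb k p hp
              have hj := hgbb j p hp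
              have hk0 : 0 ≤ ‖gb k p‖ * (1 - ‖p.1‖ ^ 2) := by positivity
              have hj0 : 0 ≤ ‖gb j p‖ * (1 - ‖p.1‖ ^ 2) := by positivity
              exact add_le_add (mul_le_mul (hgb j p hp) hk hk0 hC₁)
                (mul_le_mul (hgb k p hp) hj hj0 hC₁)
          _ = 2 * (C₁ * C₂) := by ring
      calc ‖Om j k p‖ * (1 - ‖p.1‖ ^ 2) ^ 2
          = (‖E p‖ * (1 - ‖p.1‖ ^ 2)) * (‖g j p * gb k p - g k p * gb j p‖ * (1 - ‖p.1‖ ^ 2)) := by
            simp only [hOmdef, norm_mul]; ring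
        _ ≤ (C₄ * wt α p) * (2 * (C₁ * C₂)) := by
            have := wt_nonneg α p
            apply mul_le_mul (hC₃' p hp) h2 (by positivity) (by positivity)
        _ = A * wt α p := by rw [hAdef]; ring
  set q : ι → ℂ × F → ℂ := fun j p => E p * g j p + ∑ k, f k p * sol α (Om j k) p with hqdef
  have hqb : ∀ j, ∀ p ∈ hartogs α F, ‖q j p‖ ≤ divC (Fintype.card ι) C₀ C₁ C₂ C₃ := by
    intro j p hp
    have hdc : divC (Fintype.card ι) C₀ C₁ C₂ C₃ =
        C₄ * C₁ + ∑ _k : ι, C₀ * (4 * Real.pi * (55 * A)) := by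
      rw [divC, Finset.sum_const, Finset.card_univ, nsmul_eq_mul]
    rw [hdc]
    refine (norm_add_le _ _).trans (add_le_add ?_ ?_)
    · rw [norm_mul]
      exact mul_le_mul (hEbd p hp) (hgb j p hp) (norm_nonneg _) hC₄0
    · refine (norm_sum_le _ _).trans (Finset.sum_le_sum fun k _ => ?_)
      rw [norm_mul]
      exact mul_le_mul (hfb k p hp) (sol_bound hα hA (hOm j k) hp) (norm_nonneg _) hC₀
  refine ⟨q, ?_, hqb, ?_⟩
  · intro j
    apply osgood (isOpen_hart hα)
    · -- holomorphy in the first variable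
      intro p hp
      set y := p.2 with hy
      set U : Set ℂ := {x | (x, y) ∈ hartogs α F} with hU
      have hUo : IsOpen U := isOpen_slice hα y
      have hUD : U ⊆ ball 0 1 := fun x hx => by simpa using fst_lt hx
      have hG : ContDiffOn ℝ 1 (fun x => E (x, y) * g j (x, y)) U := by
        refine ContDiffOn.mul ?_ ((hg j).smooth y)
        exact ((hfst hE y).contDiffOn (n := 1) hUo).restrict_scalars ℝ
      have hcorr := dbar_correction hUo hUD (G := fun x => E (x, y) * g j (x, y))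
        (K := fun ζ x => -∑ k, f k (x, y) * Om j k (ζ, cg α ζ x • y)) hG ?_ ?_ ?_ ?_
      · have hpU : p.1 ∈ U := hp
        have h1 := hcorr.differentiableAt (hUo.mem_nhds hpU)
        refine h1.congr_of_eventuallyEq ?_
        filter_upwards [hUo.mem_nhds hpU] with x hx
        simp only [hqdef, sol]
        have hintk : ∀ k, IntegrableOn (fun ζ => Om j k (ζ, cg α ζ x • y) / (x - ζ)) (ball 0 1) := by
          intro k
          refine Integrable.mono' ((integrableOn_inv_norm_sub x).const_mul (55 * A / (1 - ‖x‖) ^ 2)) ?_ ?_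
          · simp_rw [div_eq_mul_inv]
            refine ((hOm j k).meas hα (p := (x, y)) hx).mul ?_
            exact ((measurable_const.sub measurable_id).inv).aestronglyMeasurable
          · refine (ae_restrict_iff' measurableSet_ball).mpr (Eventually.of_forall fun ζ hζ => ?_)
            rw [norm_div, div_eq_mul_inv]
            exact mul_le_mul_of_nonneg_right
              ((hOm j k).bound_retract' hα hA (by simpa using hζ) (p := (x, y)) hx) (by positivity)
        have e1 : ∫ ζ in ball (0 : ℂ) 1, (-∑ k, f k (x, y) * Om j k (ζ, cg α ζ x • y)) / (x - ζ) =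
            -∑ k, f k (x, y) * ∫ ζ in ball (0 : ℂ) 1, Om j k (ζ, cg α ζ x • y) / (x - ζ) := by
          have e2 : ∀ ζ, (-∑ k, f k (x, y) * Om j k (ζ, cg α ζ x • y)) / (x - ζ) =
              -∑ k, f k (x, y) * (Om j k (ζ, cg α ζ x • y) / (x - ζ)) := by
            intro ζ
            rw [neg_div, Finset.sum_div]
            congr 1
            apply Finset.sum_congr rfl
            intro k _
            ring
          simp_rw [e2]
          rw [integral_neg, integral_finsetSum]
          · congr 1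
            apply Finset.sum_congr rfl
            intro k _
            rw [integral_const_mul]
          · intro k _
            exact (hintk k).const_mul _
        rw [e1, mul_neg, sub_neg_eq_add, Finset.mul_sum]
        congr 1
        apply Finset.sum_congr rfl
        intro k _
        ring
      · -- the derivative
        intro x hx
        have hx1 : ‖x‖ < 1 := fst_lt hx
        simp only [cg_self hx1, one_smul]
        have hUn := hUo.mem_nhds hx
        have hdiffg : DifferentiableAt ℝ (fun x => g j (x, y)) x :=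
          (((hg j).smooth y).contDiffAt hUn).differentiableAt one_ne_zero
        have hdiffE : DifferentiableAt ℂ (fun x => E (x, y)) x :=
          (hfst hE y).differentiableAt hUn
        have hprod : HasFDerivAt (fun x => E (x, y) * g j (x, y))
            (E (x, y) • fderiv ℝ (fun x => g j (x, y)) x +
              g j (x, y) • fderiv ℝ (fun x => E (x, y)) x) x :=
          (hdiffE.restrictScalars ℝ).hasFDerivAt.mul hdiffg.hasFDerivAt
        have hE0 : dbar (fun x => E (x, y)) x = 0 := dbar_eq_zero_of_differentiableAt hdiffE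
        have hgx : dbar (fun x => g j (x, y)) x = gb j (x, y) := (hg j).dbar_eq (x, y) hx
        have e1 : dbar (fun x => E (x, y) * g j (x, y)) x =
            E (x, y) * dbar (fun x => g j (x, y)) x + g j (x, y) * dbar (fun x => E (x, y)) x := by
          rw [dbar, hprod.fderiv]
          simp only [add_apply, smul_apply, smul_eq_mul,
            dbar]
          ring
        rw [e1, hE0, hgx, mul_zero, add_zero]
        have s1 := hsum (x, y) hx
        have s2 := hsumb (x, y) hx
        calc E (x, y) * gb j (x, y)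
            = E (x, y) * (gb j (x, y) * (∑ k, f k (x, y) * g k (x, y)) -
                g j (x, y) * ∑ k, f k (x, y) * gb k (x, y)) := by rw [s1, s2]; ring
          _ = -∑ k, f k (x, y) * Om j k (x, y) := by
              simp only [hOmdef]
              rw [Finset.mul_sum, Finset.mul_sum, ← Finset.sum_sub_distrib, Finset.mul_sum,
                ← Finset.sum_neg_distrib]
              apply Finset.sum_congr rfl
              intro k _
              ring
      · intro x hx
        apply AEStronglyMeasurable.neg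
        have h2 : (fun ζ => ∑ k, f k (x, y) * Om j k (ζ, cg α ζ x • y)) =
            ∑ k, fun ζ => f k (x, y) * Om j k (ζ, cg α ζ x • y) := by
          ext ζ; simp
        rw [h2]
        apply Finset.aestronglyMeasurable_sum
        intro k _
        exact ((hOm j k).meas hα (p := (x, y)) hx).const_mul _
      · intro ζ hζ
        have hζ' : ‖ζ‖ < 1 := by simpa using hζ
        apply DifferentiableOn.neg
        apply DifferentiableOn.fun_sum
        intro k _
        refine (hfst (hf k) y).mul ?_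
        intro x hx
        have h1 := (hOm j k).holo _ (retract_mem' hα hζ' (p := (x, y)) hx)
        have h2 : DifferentiableAt ℂ (fun x => cg α ζ x • y) x :=
          ((differentiableOn_cg α hζ').differentiableAt (isOpen_ball.mem_nhds (hUD hx))).smul_const y
        exact (DifferentiableAt.comp (g := fun y => Om j k (ζ, y)) (f := fun x => cg α ζ x • y) x
          h1 h2).differentiableWithinAt
      · intro x₀ hx₀
        have hx₀1 : ‖x₀‖ < 1 := fst_lt hx₀
        obtain ⟨r, hr, hsub⟩ := Metric.isOpen_iff.mp hUo x₀ hx₀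
        refine ⟨min r ((1 - ‖x₀‖) / 2), by
          apply lt_min hr; linarith, ∑ _k : ι, C₀ * (55 * A / ((1 - ‖x₀‖) / 2) ^ 2), ?_⟩
        intro x hx ζ hζ
        have hxU : x ∈ U := hsub (ball_subset_ball (min_le_left _ _) hx)
        have hxn : ‖x‖ < (1 + ‖x₀‖) / 2 := by
          have h1 : dist x x₀ < (1 - ‖x₀‖) / 2 := lt_of_lt_of_le (mem_ball.mp hx) (min_le_right _ _)
          rw [dist_eq_norm] at h1
          have h2 := norm_le_norm_add_norm_sub x₀ x
          rw [norm_sub_rev] at h2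
          linarith
        rw [norm_neg]
        refine (norm_sum_le _ _).trans (Finset.sum_le_sum fun k _ => ?_)
        rw [norm_mul]
        refine mul_le_mul (hfb k _ hxU) ?_ (norm_nonneg _) hC₀
        refine ((hOm j k).bound_retract' hα hA (by simpa using hζ) (p := (x, y)) hxU).trans ?_
        apply div_le_div_of_nonneg_left (by positivity)
        · have : 0 < (1 - ‖x₀‖) / 2 := by linarith
          positivity
        · apply pow_le_pow_left₀ (by linarith)
          simp only
          linarith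
    · intro p hp
      simp only [hqdef]
      apply DifferentiableAt.add
      · exact (hsnd hE p hp).mul ((hg j).holo p hp)
      · apply DifferentiableAt.fun_sum
        intro k _
        exact (hsnd (hf k) p hp).mul (sol_holo_snd hα hA (hOm j k) hp)
    · intro p hp
      obtain ⟨r, hr, hsub⟩ := Metric.isOpen_iff.mp (isOpen_hart hα (F := F)) p hp
      exact ⟨r, hr, _, fun p' hp' => hqb j p' (hsub hp')⟩
  · -- the identity
    intro p hp
    simp only [hqdef, mul_add, Finset.sum_add_distrib]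
    have h1 : ∑ j, f j p * (E p * g j p) = E p := by
      have : ∑ j, f j p * (E p * g j p) = E p * ∑ j, f j p * g j p := by
        rw [Finset.mul_sum]; apply Finset.sum_congr rfl; intro j _; ring
      rw [this, hsum p hp, mul_one]
    have hanti : ∀ j k, sol α (Om j k) p = -sol α (Om k j) p := by
      intro j k
      simp only [sol]
      rw [← mul_neg, ← integral_neg]
      congr 1
      apply integral_congr_ae
      refine Eventually.of_forall fun ζ => ?_
      simp only [hOmdef]
      ring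
    have h2 : ∑ j, f j p * ∑ k, f k p * sol α (Om j k) p = 0 := by
      have h3 : ∑ j, f j p * ∑ k, f k p * sol α (Om j k) p =
          ∑ j, ∑ k, f j p * f k p * sol α (Om j k) p := by
        apply Finset.sum_congr rfl; intro j _
        rw [Finset.mul_sum]; apply Finset.sum_congr rfl; intro k _; ring
      have h4 : ∑ j, ∑ k, f j p * f k p * sol α (Om j k) p =
          -∑ j, ∑ k, f j p * f k p * sol α (Om j k) p := by
        conv_lhs => rw [Finset.sum_comm]
        rw [← Finset.sum_neg_distrib]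
        apply Finset.sum_congr rfl; intro j _
        rw [← Finset.sum_neg_distrib]
        apply Finset.sum_congr rfl; intro k _
        rw [hanti k j]; ring
      rw [h3]
      exact self_eq_neg.mp h4
    rw [h1, h2, add_zero]

end Hart

end Pool.Agent.Lib.MP_ca0fc2_an
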