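import Mathlib
import Pool.Agent.Lib.MP_ca0fc2_an.HartDiv
import Pool.Agent.Lib.MP_ca0fc2_an.Glue

set_option autoImplicit false

open Metric Set MeasureTheory Filter Topology

namespace Pool.Agent.Lib.MP_ca0fc2_an

namespace Hart

variable {F : Type*} [NormedAddCommGroup F] [NormedSpace ℂ F] {α : ℂ → ℝ}

theorem isOpen_tube (hα : Wt α) {V : Set ℂ} (hV : IsOpen V) : IsOpen {p : ℂ × F | p ∈ hartogs α F ∧ p.1 ∈ V} :=
  (isOpen_hart hα).inter (hV.preimage continuous_fst)

theorem ZSmooth.term (hα : Wt α) {φ : ℂ → ℝ} {h : ℂ × F → ℂ} {K V : Set ℂ}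
    (hφ : ContDiffOn ℝ 1 φ (ball 0 1)) (hK : IsClosed K) (hV : IsOpen V) (hKV : K ⊆ V)
    (hsupp : ∀ x ∈ ball (0 : ℂ) 1, x ∉ K → φ x = 0)
    (hh : DifferentiableOn ℂ h {p | p ∈ hartogs α F ∧ p.1 ∈ V}) :
    ZSmooth α (fun p : ℂ × F => (φ p.1 : ℂ) * h p)
      (fun p => dbar (fun x => (φ x : ℂ)) p.1 * h p) := by
  have hφc : ContDiffOn ℝ 1 (fun x => (φ x : ℂ)) (ball 0 1) :=
    Complex.ofRealCLM.contDiff.comp_contDiffOn hφ
  have hD : ∀ p ∈ hartogs α F, p.1 ∈ ball (0 : ℂ) 1 := fun p hp => by simpa using fst_lt hp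
  have hnear : ∀ x ∈ ball (0 : ℂ) 1, x ∉ K → φ =ᶠ[𝓝 x] fun _ => 0 := by
    intro x hx hxK
    filter_upwards [isOpen_ball.mem_nhds hx, hK.isOpen_compl.mem_nhds hxK] with y hy hyK
    exact hsupp y hy hyK
  have hnearc : ∀ x ∈ ball (0 : ℂ) 1, x ∉ K → (fun x => (φ x : ℂ)) =ᶠ[𝓝 x] fun _ => 0 := by
    intro x hx hxK
    filter_upwards [hnear x hx hxK] with y hy
    rw [hy]; simp
  have hdb0 : ∀ x ∈ ball (0 : ℂ) 1, x ∉ K → dbar (fun x => (φ x : ℂ)) x = 0 := by
    intro x hx hxK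
    rw [dbar_congr (hnearc x hx hxK)]
    exact dbar_const_zero x
  have hdiffh : ∀ p ∈ hartogs α F, p.1 ∈ V → DifferentiableAt ℂ h p := fun p hp hpV =>
    hh.differentiableAt ((isOpen_tube hα hV).mem_nhds ⟨hp, hpV⟩)
  have hfstt : ∀ p : ℂ × F, Tendsto (Prod.fst : ℂ × F → ℂ) (𝓝 p) (𝓝 p.1) := fun p =>
    continuous_fst.tendsto p
  refine ⟨?_, ?_, ?_, ?_, ?_, ?_⟩
  · intro p hp
    apply ContinuousAt.continuousWithinAt
    by_cases hpV : p.1 ∈ V
    · have c1 : ContinuousAt (fun p : ℂ × F => (φ p.1 : ℂ)) p :=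
        ContinuousAt.comp (g := fun x => (φ x : ℂ)) (f := Prod.fst)
          (hφc.continuousOn.continuousAt (isOpen_ball.mem_nhds (hD p hp))) continuousAt_fst
      exact c1.mul (hdiffh p hp hpV).continuousAt
    · have hpK : p.1 ∉ K := fun hk => hpV (hKV hk)
      have : (fun p : ℂ × F => (φ p.1 : ℂ) * h p) =ᶠ[𝓝 p] fun _ => 0 := by
        filter_upwards [(hfstt p).eventually (hnearc p.1 (hD p hp) hpK)] with q hq
        rw [hq, zero_mul]
      exact continuousAt_const.congr this.symm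
  · intro p hp
    apply ContinuousAt.continuousWithinAt
    by_cases hpV : p.1 ∈ V
    · have c1 : ContinuousAt (fun p : ℂ × F => dbar (fun x => (φ x : ℂ)) p.1) p :=
        ContinuousAt.comp (g := dbar (fun x => (φ x : ℂ))) (f := Prod.fst)
          ((dbar_continuousOn isOpen_ball hφc).continuousAt (isOpen_ball.mem_nhds (hD p hp)))
          continuousAt_fst
      exact c1.mul (hdiffh p hp hpV).continuousAt
    · have hpK : p.1 ∉ K := fun hk => hpV (hKV hk)
      have : (fun p : ℂ × F => dbar (fun x => (φ x : ℂ)) p.1 * h p) =ᶠ[𝓝 p] fun _ => 0 := by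
        have h1 : ∀ᶠ x in 𝓝 p.1, dbar (fun x => (φ x : ℂ)) x = 0 := by
          filter_upwards [isOpen_ball.mem_nhds (hD p hp), hK.isOpen_compl.mem_nhds hpK]
            with y hy hyK
          exact hdb0 y hy hyK
        filter_upwards [(hfstt p).eventually h1] with q hq
        rw [hq, zero_mul]
      exact continuousAt_const.congr this.symm
  · intro p hp
    by_cases hpV : p.1 ∈ V
    · exact (diff_snd (hdiffh p hp hpV)).const_mul (φ p.1 : ℂ)
    · have hpK : p.1 ∉ K := fun hk => hpV (hKV hk)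
      have : φ p.1 = 0 := hsupp p.1 (hD p hp) hpK
      simp [this]
  · intro p hp
    by_cases hpV : p.1 ∈ V
    · exact (diff_snd (hdiffh p hp hpV)).const_mul (dbar (fun x => (φ x : ℂ)) p.1)
    · have hpK : p.1 ∉ K := fun hk => hpV (hKV hk)
      have := hdb0 p.1 (hD p hp) hpK
      simp [this]
  · intro y x hx
    apply ContDiffAt.contDiffWithinAt
    have hxD : x ∈ ball (0 : ℂ) 1 := hD (x, y) hx
    by_cases hxV : x ∈ V
    · have c1 : ContDiffAt ℝ 1 (fun x => (φ x : ℂ)) x := hφc.contDiffAt (isOpen_ball.mem_nhds hxD)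
      have hO : IsOpen {x : ℂ | (x, y) ∈ hartogs α F ∧ x ∈ V} := (isOpen_slice hα y).inter hV
      have c2 : DifferentiableOn ℂ (fun x => h (x, y)) {x : ℂ | (x, y) ∈ hartogs α F ∧ x ∈ V} := by
        intro x' hx'
        exact (diff_fst (p := (x', y)) (hdiffh (x', y) hx'.1 hx'.2)).differentiableWithinAt
      have c3 : ContDiffAt ℝ 1 (fun x => h (x, y)) x :=
        ((c2.contDiffOn (n := 1) hO).restrict_scalars ℝ).contDiffAt (hO.mem_nhds ⟨hx, hxV⟩)
      exact c1.mul c3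
    · have hxK : x ∉ K := fun hk => hxV (hKV hk)
      have : (fun x => (φ x : ℂ) * h (x, y)) =ᶠ[𝓝 x] fun _ => 0 := by
        filter_upwards [hnearc x hxD hxK] with q hq
        rw [hq, zero_mul]
      exact contDiffAt_const.congr_of_eventuallyEq this
  · intro p hp
    have hxD := hD p hp
    by_cases hpV : p.1 ∈ V
    · have d1 : DifferentiableAt ℝ (fun x => (φ x : ℂ)) p.1 :=
        (hφc.contDiffAt (isOpen_ball.mem_nhds hxD)).differentiableAt one_ne_zero
      have d2 : DifferentiableAt ℂ (fun x => h (x, p.2)) p.1 := diff_fst (hdiffh p hp hpV)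
      rw [dbar_mul d1 (d2.restrictScalars ℝ), dbar_eq_zero_of_differentiableAt d2, mul_zero,
        add_zero]
    · have hpK : p.1 ∉ K := fun hk => hpV (hKV hk)
      have : (fun x => (φ x : ℂ) * h (x, p.2)) =ᶠ[𝓝 p.1] fun _ => 0 := by
        filter_upwards [hnearc p.1 hxD hpK] with q hq
        rw [hq, zero_mul]
      rw [dbar_congr this, dbar_const_zero, hdb0 p.1 hxD hpK, zero_mul]

theorem ZSmooth.sum (hα : Wt α) {κ : Type*} {S : Finset κ} {g gb : κ → ℂ × F → ℂ}
    (h : ∀ i ∈ S, ZSmooth α (g i) (gb i)) :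
    ZSmooth α (fun p => ∑ i ∈ S, g i p) (fun p => ∑ i ∈ S, gb i p) := by
  refine ⟨?_, ?_, ?_, ?_, ?_, ?_⟩
  · exact continuousOn_finsetSum _ fun i hi => (h i hi).cont
  · exact continuousOn_finsetSum _ fun i hi => (h i hi).contb
  · intro p hp
    exact DifferentiableAt.fun_sum fun i hi => (h i hi).holo p hp
  · intro p hp
    exact DifferentiableAt.fun_sum fun i hi => (h i hi).holob p hp
  · intro y
    exact ContDiffOn.sum fun i hi => (h i hi).smooth y
  · intro p hp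
    have hU := (isOpen_slice hα p.2).mem_nhds (show p.1 ∈ {x | (x, p.2) ∈ hartogs α F} from hp)
    rw [dbar_sum (a := fun i x => g i (x, p.2))]
    · exact Finset.sum_congr rfl fun i hi => (h i hi).dbar_eq p hp
    · intro i hi
      exact (((h i hi).smooth p.2).contDiffAt hU).differentiableAt one_ne_zero

theorem ZSmooth.of_local (hα : Wt α) {g gb : ℂ × F → ℂ}
    (h : ∀ x₀ ∈ ball (0 : ℂ) 1, ∃ V : Set ℂ, IsOpen V ∧ x₀ ∈ V ∧ ∃ g' gb' : ℂ × F → ℂ,
      ZSmooth α g' gb' ∧ ∀ p ∈ hartogs α F, p.1 ∈ V → g p = g' p ∧ gb p = gb' p) :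
    ZSmooth α g gb := by
  have hD : ∀ p ∈ hartogs α F, p.1 ∈ ball (0 : ℂ) 1 := fun p hp => by simpa using fst_lt hp
  have hfstt : ∀ p : ℂ × F, Tendsto (Prod.fst : ℂ × F → ℂ) (𝓝 p) (𝓝 p.1) := fun p =>
    continuous_fst.tendsto p
  refine ⟨?_, ?_, ?_, ?_, ?_, ?_⟩
  · intro p hp
    obtain ⟨V, hV, hpV, g', gb', hz, he⟩ := h p.1 (hD p hp)
    apply ContinuousAt.continuousWithinAt
    refine ((hz.cont.continuousAt ((isOpen_hart hα).mem_nhds hp))).congr ?_
    filter_upwards [(isOpen_tube hα hV).mem_nhds ⟨hp, hpV⟩] with q hq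
    exact (he q hq.1 hq.2).1.symm
  · intro p hp
    obtain ⟨V, hV, hpV, g', gb', hz, he⟩ := h p.1 (hD p hp)
    apply ContinuousAt.continuousWithinAt
    refine ((hz.contb.continuousAt ((isOpen_hart hα).mem_nhds hp))).congr ?_
    filter_upwards [(isOpen_tube hα hV).mem_nhds ⟨hp, hpV⟩] with q hq
    exact (he q hq.1 hq.2).2.symm
  · intro p hp
    obtain ⟨V, hV, hpV, g', gb', hz, he⟩ := h p.1 (hD p hp)
    refine (hz.holo p hp).congr_of_eventuallyEq ?_
    have : Tendsto (fun y : F => (p.1, y)) (𝓝 p.2) (𝓝 p) := by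
      have : Continuous (fun y : F => (p.1, y)) := by fun_prop
      exact this.tendsto p.2
    filter_upwards [this.eventually ((isOpen_tube hα hV).mem_nhds ⟨hp, hpV⟩)] with y hy
    exact (he _ hy.1 hy.2).1
  · intro p hp
    obtain ⟨V, hV, hpV, g', gb', hz, he⟩ := h p.1 (hD p hp)
    refine (hz.holob p hp).congr_of_eventuallyEq ?_
    have : Tendsto (fun y : F => (p.1, y)) (𝓝 p.2) (𝓝 p) := by
      have : Continuous (fun y : F => (p.1, y)) := by fun_prop
      exact this.tendsto p.2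
    filter_upwards [this.eventually ((isOpen_tube hα hV).mem_nhds ⟨hp, hpV⟩)] with y hy
    exact (he _ hy.1 hy.2).2
  · intro y x hx
    obtain ⟨V, hV, hpV, g', gb', hz, he⟩ := h x (hD (x, y) hx)
    have hU := (isOpen_slice hα y).mem_nhds hx
    apply ContDiffAt.contDiffWithinAt
    refine ((hz.smooth y).contDiffAt hU).congr_of_eventuallyEq ?_
    filter_upwards [hU, hV.mem_nhds hpV] with x' hx' hxV'
    exact (he (x', y) hx' hxV').1
  · intro p hp
    obtain ⟨V, hV, hpV, g', gb', hz, he⟩ := h p.1 (hD p hp)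
    rw [(he p hp hpV).2, ← hz.dbar_eq p hp]
    apply dbar_congr
    have hU := (isOpen_slice hα p.2).mem_nhds (show p.1 ∈ {x | (x, p.2) ∈ hartogs α F} from hp)
    filter_upwards [hU, hV.mem_nhds hpV] with x' hx' hxV'
    exact (he (x', p.2) hx' hxV').1

theorem wt_smul (t : ℂ) (p : ℂ × F) : wt α (p.1, t • p.2) = ‖t‖ ^ 2 * wt α p := by
  simp only [wt, norm_smul]
  ring

/-- Schwarz lemma in the fibre direction. -/
theorem schwarz_fibre (hα : Wt α) {E : ℂ × F → ℂ} (hE : DifferentiableOn ℂ E (hartogs α F))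
    {M : ℝ} (hM : ∀ p ∈ hartogs α F, ‖E p‖ ≤ M) (h0 : ∀ p ∈ hartogs α F, E (p.1, 0) = 0)
    {p : ℂ × F} (hp : p ∈ hartogs α F) :
    ‖E p‖ ^ 2 * (1 - ‖p.1‖ ^ 2) ≤ M ^ 2 * wt α p := by
  have hM0 : 0 ≤ M := (norm_nonneg _).trans (hM p hp)
  have hx := fst_lt hp
  have hpos : 0 < 1 - ‖p.1‖ ^ 2 := by nlinarith [norm_nonneg p.1]
  by_cases hy : p.2 = 0
  · have : E p = 0 := by
      have := h0 p hp
      rw [← hy] at this
      exact this
    rw [this, norm_zero, zero_pow two_ne_zero, zero_mul]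
    exact mul_nonneg (sq_nonneg _) (wt_nonneg α p)
  have hyn : 0 < wt α p := by
    have h1 : 0 < ‖p.2‖ := norm_pos_iff.mpr hy
    unfold wt
    positivity
  have hys : 0 < Real.sqrt (wt α p) := Real.sqrt_pos.mpr hyn
  set R : ℝ := Real.sqrt (1 - ‖p.1‖ ^ 2) / Real.sqrt (wt α p) with hR
  have hsq : 0 < Real.sqrt (1 - ‖p.1‖ ^ 2) := Real.sqrt_pos.mpr hpos
  have hR0 : 0 < R := by positivity
  have hmem : ∀ t ∈ ball (0 : ℂ) R, (p.1, t • p.2) ∈ hartogs α F := by
    intro t ht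
    rw [mem_ball_zero_iff] at ht
    rw [mem_hart', wt_smul]
    have h1 : ‖t‖ * Real.sqrt (wt α p) < Real.sqrt (1 - ‖p.1‖ ^ 2) := by
      rw [hR, lt_div_iff₀ hys] at ht
      exact ht
    calc ‖t‖ ^ 2 * wt α p = (‖t‖ * Real.sqrt (wt α p)) ^ 2 := by
          rw [mul_pow, Real.sq_sqrt hyn.le]
      _ < (Real.sqrt (1 - ‖p.1‖ ^ 2)) ^ 2 := pow_lt_pow_left₀ h1 (by positivity) two_ne_zero
      _ = 1 - ‖p.1‖ ^ 2 := Real.sq_sqrt hpos.le
  have hd : DifferentiableOn ℂ (fun t : ℂ => E (p.1, t • p.2)) (ball 0 R) := by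
    intro t ht
    have h1 : DifferentiableAt ℂ E (p.1, t • p.2) :=
      hE.differentiableAt ((isOpen_hart hα).mem_nhds (hmem t ht))
    have h2 : DifferentiableAt ℂ (fun t : ℂ => (p.1, t • p.2)) t :=
      (differentiableAt_const _).prodMk (differentiableAt_id.smul_const _)
    exact (h1.comp t h2).differentiableWithinAt
  have hE0 : E (p.1, (0 : ℂ) • p.2) = 0 := by rw [zero_smul]; exact h0 p hp
  have hmaps : MapsTo (fun t : ℂ => E (p.1, t • p.2)) (ball 0 R)
      (closedBall ((fun t : ℂ => E (p.1, t • p.2)) 0) M) := by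
    intro t ht
    simp only [hE0, mem_closedBall, dist_zero_right]
    exact hM _ (hmem t ht)
  have h1R : (1 : ℂ) ∈ ball (0 : ℂ) R := by
    rw [mem_ball_zero_iff, norm_one, hR, one_lt_div hys]
    exact Real.sqrt_lt_sqrt hyn.le (mem_hart'.mp hp)
  have h := Complex.norm_dslope_le_div_of_mapsTo_ball hd hmaps h1R
  rw [dslope_of_ne _ one_ne_zero, slope_def_field, hE0] at h
  simp only [one_smul, sub_zero, div_one] at h
  have h2 : ‖E p‖ * Real.sqrt (1 - ‖p.1‖ ^ 2) ≤ M * Real.sqrt (wt α p) := by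
    have h3 : ‖E p‖ ≤ M * Real.sqrt (wt α p) / Real.sqrt (1 - ‖p.1‖ ^ 2) := by
      calc ‖E p‖ ≤ M / R := h
        _ = M * Real.sqrt (wt α p) / Real.sqrt (1 - ‖p.1‖ ^ 2) := by rw [hR]; field_simp
    rwa [le_div_iff₀ hsq] at h3
  calc ‖E p‖ ^ 2 * (1 - ‖p.1‖ ^ 2) = (‖E p‖ * Real.sqrt (1 - ‖p.1‖ ^ 2)) ^ 2 := by
        rw [mul_pow, Real.sq_sqrt hpos.le]
    _ ≤ (M * Real.sqrt (wt α p)) ^ 2 := pow_le_pow_left₀ (by positivity) h2 2
    _ = M ^ 2 * wt α p := by rw [mul_pow, Real.sq_sqrt hyn.le]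

/-- Localization: uniform solvability over the tubes implies solvability, provided that the
problem is solvable on the central disc. The bound of the solution depends only on the bounds of
the data. -/
theorem localization_unif {ι : Type*} [Fintype ι] (hα : Wt α) {C₀ r C CH : ℝ} (hr : 0 < r) :
    ∃ C' : ℝ, ∀ f : ι → ℂ × F → ℂ,
    (∀ j, DifferentiableOn ℂ (f j) (hartogs α F)) → (∀ j, ∀ p ∈ hartogs α F, ‖f j p‖ ≤ C₀) →
    (∀ ζ ∈ ball (0 : ℂ) 1, ∃ h : ι → ℂ × F → ℂ,
      (∀ j, DifferentiableOn ℂ (h j) {p | p ∈ hartogs α F ∧ p.1 ∈ ball ζ (r * (1 - ‖ζ‖))}) ∧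
      (∀ j, ∀ p ∈ hartogs α F, p.1 ∈ ball ζ (r * (1 - ‖ζ‖)) → ‖h j p‖ ≤ C) ∧
      ∀ p ∈ hartogs α F, p.1 ∈ ball ζ (r * (1 - ‖ζ‖)) → ∑ j, f j p * h j p = 1) →
    (∃ H : ι → ℂ → ℂ, (∀ j, DifferentiableOn ℂ (H j) (ball 0 1)) ∧
      (∀ j, ∀ ζ ∈ ball (0 : ℂ) 1, ‖H j ζ‖ ≤ CH) ∧
      ∀ ζ ∈ ball (0 : ℂ) 1, ∑ j, f j (ζ, 0) * H j ζ = 1) →
    ∃ h : ι → ℂ × F → ℂ, (∀ j, DifferentiableOn ℂ (h j) (hartogs α F)) ∧
      (∀ j, ∀ p ∈ hartogs α F, ‖h j p‖ ≤ C') ∧ ∀ p ∈ hartogs α F, ∑ j, f j p * h j p = 1 := by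
  classical
  have hD : ∀ p ∈ hartogs α F, p.1 ∈ ball (0 : ℂ) 1 := fun p hp => by simpa using fst_lt hp
  -- scale of the partition
  set η : ℝ := r / 2 with hη
  have hη0 : 0 < η := by positivity
  set b : ℝ := η / (8 * Real.exp 1) with hb
  have hb0 : 0 < b := by positivity
  have hbη : 8 * Real.exp 1 * b = η := by rw [hb]; field_simp
  obtain ⟨L', hL0, hL⟩ := bt_deriv_bound
  set C₂ : ℝ := 8 * (L' * (2 + 2 * Real.exp 1 / b) * C) with hC₂
  set M : ℝ := 1 + ∑ _j : ι, C₀ * CH with hM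
  refine ⟨divC (Fintype.card ι) C₀ C C₂ (M ^ 2) + CH * (1 + M), ?_⟩
  intro f hf hfb hloc hdisc
  -- choice of centres and of local solutions
  have hchoice : ∀ i : ℤ × ℤ × ℤ, ∃ (K V : Set ℂ) (h : ι → ℂ × F → ℂ), IsClosed K ∧ IsOpen V ∧
      K ⊆ V ∧ (∀ x ∈ ball (0 : ℂ) 1, x ∉ K → psi b i x = 0) ∧
      (∀ j, DifferentiableOn ℂ (h j) {p | p ∈ hartogs α F ∧ p.1 ∈ V}) ∧
      (∀ j, ∀ p ∈ hartogs α F, psi b i p.1 ≠ 0 → ‖h j p‖ ≤ C) ∧
      ∀ p ∈ hartogs α F, psi b i p.1 ≠ 0 → ∑ j, f j p * h j p = 1 := by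
    intro i
    by_cases hi : ∃ ζ ∈ ball (0 : ℂ) 1, psi b i ζ ≠ 0
    · obtain ⟨ζ, hζ, hζi⟩ := hi
      obtain ⟨h, h1, h2, h3⟩ := hloc ζ hζ
      have hζ1 : 0 < 1 - ‖ζ‖ := by
        have : ‖ζ‖ < 1 := by simpa using hζ
        linarith
      have hKV : closedBall ζ (η * (1 - ‖ζ‖)) ⊆ ball ζ (r * (1 - ‖ζ‖)) := by
        apply closedBall_subset_ball
        apply mul_lt_mul_of_pos_right _ hζ1
        rw [hη]; linarith
      have hsupp : ∀ x, psi b i x ≠ 0 → x ∈ closedBall ζ (η * (1 - ‖ζ‖)) := by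
        intro x hx
        have := psi_diam hb0 hζ hζi hx
        rw [hbη] at this
        rw [mem_closedBall, dist_eq_norm, norm_sub_rev]
        exact this
      refine ⟨closedBall ζ (η * (1 - ‖ζ‖)), ball ζ (r * (1 - ‖ζ‖)), h, isClosed_closedBall,
        isOpen_ball, hKV, ?_, h1, ?_, ?_⟩
      · intro x _ hx
        by_contra hne
        exact hx (hsupp x hne)
      · intro j p hp hne
        exact h2 j p hp (hKV (hsupp _ hne))
      · intro p hp hne
        exact h3 p hp (hKV (hsupp _ hne))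
    · push Not at hi
      refine ⟨∅, ∅, fun _ _ => 0, isClosed_empty, isOpen_empty, subset_rfl, ?_, ?_, ?_, ?_⟩
      · intro x hx _
        exact hi x hx
      · intro j
        exact differentiableOn_const _
      · intro j p hp hne
        exact absurd (hi p.1 (hD p hp)) hne
      · intro p hp hne
        exact absurd (hi p.1 (hD p hp)) hne
  choose K V h hK hV hKV hsupp hh hhb hhs using hchoice
  -- constants
  by_cases hι : IsEmpty ι
  · obtain ⟨H, -, -, hH⟩ := hdisc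
    exact absurd (hH 0 (by simp)) (by simp)
  rw [not_isEmpty_iff] at hι
  obtain ⟨j₀⟩ := hι
  have h0mem : (0 : ℂ × F) ∈ hartogs α F := zero_mem_hart
  have hC0 : 0 ≤ C := by
    have h1 := finsum_psi b 0
    have : ∃ i, psi b i 0 ≠ 0 := by
      by_contra hcon
      push Not at hcon
      simp [hcon] at h1
    obtain ⟨i, hi⟩ := this
    exact (norm_nonneg _).trans (hhb i j₀ 0 h0mem hi)
  -- the global smooth solutions
  set g : ι → ℂ × F → ℂ := fun j p => ∑ᶠ i, (psi b i p.1 : ℂ) * h i j p with hg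
  set gb : ι → ℂ × F → ℂ := fun j p => ∑ᶠ i, dbar (fun x => (psi b i x : ℂ)) p.1 * h i j p with hgb
  have hdb0 : ∀ i x, x ∈ ball (0 : ℂ) 1 → psi b i x = 0 →
      dbar (fun x => (psi b i x : ℂ)) x = 0 := by
    intro i x hx h0
    have hdiff : DifferentiableAt ℝ (psi b i) x :=
      ((psi_contDiffOn b i).contDiffAt (isOpen_ball.mem_nhds hx)).differentiableAt one_ne_zero
    rw [dbar_ofReal hdiff, psi_fderiv_zero h0]
    simp
  have hZ : ∀ j, ZSmooth α (g j) (gb j) := by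
    intro j
    apply ZSmooth.of_local hα
    intro x₀ hx₀
    obtain ⟨V₀, hV₀, hxV₀, hV₀D, S, hS⟩ := psi_locallyFinite hb0 hx₀
    refine ⟨V₀, hV₀, hxV₀, fun p => ∑ i ∈ S, (psi b i p.1 : ℂ) * h i j p,
      fun p => ∑ i ∈ S, dbar (fun x => (psi b i x : ℂ)) p.1 * h i j p, ?_, ?_⟩
    · apply ZSmooth.sum hα
      intro i _
      exact ZSmooth.term hα (psi_contDiffOn b i) (hK i) (hV i) (hKV i) (hsupp i) (hh i j)
    · intro p hp hpV
      constructor
      · apply finsum_eq_sum_of_support_subset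
        intro i hi
        by_contra hiS
        apply hi
        simp only
        rw [hS p.1 hpV i hiS, Complex.ofReal_zero, zero_mul]
      · apply finsum_eq_sum_of_support_subset
        intro i hi
        by_contra hiS
        apply hi
        simp only
        rw [hdb0 i p.1 (hD p hp) (hS p.1 hpV i hiS), zero_mul]
  have hgbound : ∀ j, ∀ p ∈ hartogs α F, ‖g j p‖ ≤ C := by
    intro j p hp
    simp only [hg]
    rw [finsum_eq_idx (b := b) (x := p.1) (fun i hi => by rw [hi, Complex.ofReal_zero, zero_mul])]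
    calc ‖∑ e, (psi b (idx b p.1 e) p.1 : ℂ) * h (idx b p.1 e) j p‖
        ≤ ∑ e, psi b (idx b p.1 e) p.1 * C := by
          refine (norm_sum_le _ _).trans (Finset.sum_le_sum fun e _ => ?_)
          rw [norm_mul, Complex.norm_real, Real.norm_of_nonneg (psi_nonneg _ _ _)]
          by_cases h0 : psi b (idx b p.1 e) p.1 = 0
          · simp [h0]
          · exact mul_le_mul_of_nonneg_left (hhb _ j p hp h0) (psi_nonneg _ _ _)
      _ = C := by rw [← Finset.sum_mul, sum_psi_idx, one_mul]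
  have hgbbound : ∀ j, ∀ p ∈ hartogs α F, ‖gb j p‖ * (1 - ‖p.1‖ ^ 2) ≤ C₂ := by
    intro j p hp
    have hpos := one_sub_sq_pos (hD p hp)
    simp only [hgb]
    rw [finsum_eq_idx (b := b) (x := p.1)
      (fun i hi => by rw [hdb0 i p.1 (hD p hp) hi, zero_mul])]
    rw [← le_div_iff₀ hpos]
    calc ‖∑ e, dbar (fun x => (psi b (idx b p.1 e) x : ℂ)) p.1 * h (idx b p.1 e) j p‖
        ≤ ∑ _e : Fin 2 × Fin 2 × Fin 2, L' * (2 + 2 * Real.exp 1 / b) / (1 - ‖p.1‖ ^ 2) * C := by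
          refine (norm_sum_le _ _).trans (Finset.sum_le_sum fun e _ => ?_)
          rw [norm_mul]
          by_cases h0 : psi b (idx b p.1 e) p.1 = 0
          · rw [hdb0 _ _ (hD p hp) h0, norm_zero, zero_mul]
            positivity
          · have hdiff : DifferentiableAt ℝ (psi b (idx b p.1 e)) p.1 :=
              ((psi_contDiffOn b _).contDiffAt
                (isOpen_ball.mem_nhds (hD p hp))).differentiableAt one_ne_zero
            exact mul_le_mul ((norm_dbar_ofReal_le hdiff).trans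
              (psi_fderiv_bound hb0 hL0 hL (hD p hp) h0)) (hhb _ j p hp h0) (norm_nonneg _)
              (by positivity)
      _ = C₂ / (1 - ‖p.1‖ ^ 2) := by
          simp only [Finset.sum_const, Finset.card_univ, Fintype.card_prod, Fintype.card_fin,
            nsmul_eq_mul, hC₂]
          push_cast
          ring
  have hsum : ∀ p ∈ hartogs α F, ∑ j, f j p * g j p = 1 := by
    intro p hp
    have e1 : ∀ j, g j p = ∑ e, (psi b (idx b p.1 e) p.1 : ℂ) * h (idx b p.1 e) j p := by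
      intro j
      simp only [hg]
      exact finsum_eq_idx (b := b) (x := p.1) (fun i hi => by rw [hi, Complex.ofReal_zero, zero_mul])
    simp_rw [e1, Finset.mul_sum]
    rw [Finset.sum_comm]
    have e2 : ∀ e, ∑ j, f j p * ((psi b (idx b p.1 e) p.1 : ℂ) * h (idx b p.1 e) j p) =
        (psi b (idx b p.1 e) p.1 : ℂ) := by
      intro e
      by_cases h0 : psi b (idx b p.1 e) p.1 = 0
      · simp [h0]
      · have := hhs (idx b p.1 e) p hp h0
        calc ∑ j, f j p * ((psi b (idx b p.1 e) p.1 : ℂ) * h (idx b p.1 e) j p)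
            = (psi b (idx b p.1 e) p.1 : ℂ) * ∑ j, f j p * h (idx b p.1 e) j p := by
              rw [Finset.mul_sum]; apply Finset.sum_congr rfl; intro j _; ring
          _ = _ := by rw [this, mul_one]
    simp_rw [e2]
    rw [← Complex.ofReal_sum, sum_psi_idx, Complex.ofReal_one]
  -- the central disc
  obtain ⟨H, hH, hCH, hHs⟩ := hdisc
  set E : ℂ × F → ℂ := fun p => 1 - ∑ j, f j p * H j p.1 with hE
  have hHd : ∀ j, DifferentiableOn ℂ (fun p : ℂ × F => H j p.1) (hartogs α F) := fun j =>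
    (hH j).comp differentiableOn_fst hD
  have hEd : DifferentiableOn ℂ E (hartogs α F) :=
    (differentiableOn_const _).sub (DifferentiableOn.fun_sum fun j _ => (hf j).mul (hHd j))
  have hEb : ∀ p ∈ hartogs α F, ‖E p‖ ≤ M := by
    intro p hp
    rw [hM]
    refine (norm_sub_le _ _).trans (add_le_add (by simp) ?_)
    refine (norm_sum_le _ _).trans (Finset.sum_le_sum fun j _ => ?_)
    rw [norm_mul]
    exact mul_le_mul (hfb j p hp) (hCH j p.1 (hD p hp)) (norm_nonneg _)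
      ((norm_nonneg _).trans (hfb j p hp))
  have hE0 : ∀ p ∈ hartogs α F, E (p.1, 0) = 0 := by
    intro p hp
    simp only [hE]
    rw [hHs p.1 (hD p hp), sub_self]
  obtain ⟨q, hq, hCq, hqs⟩ := division hα (E := fun p => E p ^ 2) (C₃ := M ^ 2) hf hfb hZ
    hgbound hgbbound hsum (hEd.pow 2) (by
      intro p hp
      simp only [norm_pow]
      exact schwarz_fibre hα hEd hEb hE0 hp)
  refine ⟨fun j p => q j p + H j p.1 * (1 + E p), ?_, ?_, ?_⟩
  · intro j
    exact (hq j).add ((hHd j).mul ((differentiableOn_const _).add hEd))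
  · intro j p hp
    refine (norm_add_le _ _).trans (add_le_add (hCq j p hp) ?_)
    rw [norm_mul]
    have hCH0 : 0 ≤ CH := (norm_nonneg _).trans (hCH j p.1 (hD p hp))
    refine mul_le_mul (hCH j p.1 (hD p hp)) ?_ (norm_nonneg _) hCH0
    refine (norm_add_le _ _).trans (add_le_add (by simp) (hEb p hp))
  · intro p hp
    have h1 : ∑ j, f j p * (q j p + H j p.1 * (1 + E p)) =
        ∑ j, f j p * q j p + (∑ j, f j p * H j p.1) * (1 + E p) := by
      rw [Finset.sum_mul, ← Finset.sum_add_distrib]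
      apply Finset.sum_congr rfl
      intro j _
      ring
    have h2 : ∑ j, f j p * H j p.1 = 1 - E p := by
      simp only [hE]; ring
    rw [h1, hqs p hp, h2]
    ring

end Hart

end Pool.Agent.Lib.MP_ca0fc2_an
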