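import Mathlib
import Pool.Agent.Lib.MP_ca0fc2_an.Defs

set_option autoImplicit false

open Metric Set
open scoped InnerProductSpace

namespace Pool.Agent.Lib.MP_ca0fc2_an

variable {E : Type*} [NormedAddCommGroup E] [InnerProductSpace ℂ E]

/-- For `‖p‖ < 1`, `‖e‖ = 1` and `e` orthogonal to `p`, this is the holomorphic map from the unit
ball onto the unit disc which inverts the parametrization `t ↦ p + √(1 - ‖p‖²) t e` of the part of
the complex line `p + ℂ e` in the ball. For `p = 0` it is the linear function `⟨z, e⟩`. -/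
noncomputable def lineCoord (p e z : E) : ℂ :=
  (Real.sqrt (1 - ‖p‖ ^ 2) : ℂ) * ⟪e, z⟫_ℂ / (1 - ⟪p, z⟫_ℂ)

/-- The points `p i` and the directions `e i` describe complex lines `p i + ℂ e i` which meet the
unit ball, in normal form. -/
def AreLines {m : ℕ} (p e : Fin m → E) : Prop :=
  ∀ i, ‖p i‖ < 1 ∧ ‖e i‖ = 1 ∧ ⟪p i, e i⟫_ℂ = 0

/-- The joint cell around `z₀`, of relative size `η`, for the complex lines `p i + ℂ e i`. -/
def jointCell {m : ℕ} (p e : Fin m → E) (η : ℝ) (z₀ : E) : Set E :=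
  {w | ∀ i, ‖lineCoord (p i) (e i) w - lineCoord (p i) (e i) z₀‖ <
      η * (1 - ‖lineCoord (p i) (e i) z₀‖) ∧
    ‖w - z₀‖ ^ 2 < η * (1 - ‖lineCoord (p i) (e i) z₀‖)}

/-- On each joint cell in `D` all but one of the functions oscillate little: the sum of the squares
of their oscillations is at most `c`. The exceptional function may depend on the cell. -/
def AllButOneTame {N m : ℕ} (f : Fin N → E → ℂ) (D : Set E) (p e : Fin m → E) (η c : ℝ) : Prop :=
  ∀ z₀ ∈ D, ∃ (j₀ : Fin N) (ε : Fin N → ℝ), ∑ j ∈ Finset.univ.erase j₀, ε j ^ 2 ≤ c ∧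
    ∀ j ≠ j₀, ∀ w ∈ D ∩ jointCell p e η z₀, ∀ w' ∈ D ∩ jointCell p e η z₀,
      ‖f j w - f j w'‖ ≤ ε j

end Pool.Agent.Lib.MP_ca0fc2_an
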