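import Mathlib
import Pool.Agent.Lib.MP_ca0fc2_an.Depth
import Pool.Agent.Lib.MP_ca0fc2_an.TameDefs

set_option autoImplicit false

open Metric Set
open scoped InnerProductSpace ComplexConjugate

namespace Pool.Agent.Lib.MP_ca0fc2_an

variable {E : Type*} [NormedAddCommGroup E] [InnerProductSpace ℂ E]

/-- Moebius maps are Lipschitz on the ball. -/
theorem mob_lip_ball {e : E} (he : ‖e‖ = 1) {ζ : ℂ} (hζ : ‖ζ‖ < 1) :
    ∃ A : ℝ, 0 < A ∧ ∀ z ∈ ball (0 : E) 1, ∀ w ∈ ball (0 : E) 1,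
      ‖mob e ζ z - mob e ζ w‖ ≤ A * ‖z - w‖ := by
  have hr : 0 < 1 - ‖ζ‖ := by linarith
  refine ⟨2 / (1 - ‖ζ‖) + 3 / (1 - ‖ζ‖) ^ 2, by positivity, ?_⟩
  intro z hz w hw
  have hzn := mem_ball_zero_iff.mp hz
  have hwn := mem_ball_zero_iff.mp hw
  have hd : ∀ x ∈ ball (0 : E) 1, 1 - ‖ζ‖ ≤ ‖1 + conj ζ * ⟪e, x⟫_ℂ‖ := by
    intro x hx
    have h1 := norm_inner_lt he hx
    have h2 : ‖conj ζ * ⟪e, x⟫_ℂ‖ ≤ ‖ζ‖ := by
      rw [norm_mul, RCLike.norm_conj]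
      nlinarith [norm_nonneg ζ, norm_nonneg ⟪e, x⟫_ℂ]
    have h3 : ‖(1 : ℂ)‖ - ‖conj ζ * ⟪e, x⟫_ℂ‖ ≤ ‖1 + conj ζ * ⟪e, x⟫_ℂ‖ := by
      have := norm_sub_norm_le (1 : ℂ) (-(conj ζ * ⟪e, x⟫_ℂ))
      rwa [norm_neg, sub_neg_eq_add] at this
    rw [norm_one] at h3
    linarith
  obtain ⟨L, hL⟩ : ∃ L : E → E, L = fun x => (⟪e, x⟫_ℂ + ζ) • e + (sq ζ : ℂ) • prj e x := ⟨_, rfl⟩
  have hsq : ‖(sq ζ : ℂ)‖ ≤ 1 := by
    rw [Complex.norm_real, Real.norm_of_nonneg (sq_pos hζ).le]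
    exact sq_le_one ζ
  have hLw : ‖L w‖ ≤ 3 := by
    rw [hL]
    refine (norm_add_le _ _).trans ?_
    rw [norm_smul, norm_smul, he, mul_one]
    have h1 := norm_add_le ⟪e, w⟫_ℂ ζ
    have h2 := norm_inner_lt he hw
    have h3 := norm_prj_le he w
    have h4 : ‖(sq ζ : ℂ)‖ * ‖prj e w‖ ≤ 1 * 1 :=
      mul_le_mul hsq (by linarith) (norm_nonneg _) zero_le_one
    linarith
  have hLzw : ‖L z - L w‖ ≤ 2 * ‖z - w‖ := by
    have h1 : L z - L w = ⟪e, z - w⟫_ℂ • e + (sq ζ : ℂ) • prj e (z - w) := by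
      simp only [hL]
      rw [inner_sub_right, map_sub]
      module
    rw [h1]
    refine (norm_add_le _ _).trans ?_
    rw [norm_smul, norm_smul, he, mul_one]
    have h2 := norm_inner_le he (z - w)
    have h3 := norm_prj_le he (z - w)
    have h4 : ‖(sq ζ : ℂ)‖ * ‖prj e (z - w)‖ ≤ 1 * ‖z - w‖ :=
      mul_le_mul hsq h3 (norm_nonneg _) zero_le_one
    linarith
  have h0 : mob e ζ z - mob e ζ w = (1 + conj ζ * ⟪e, z⟫_ℂ)⁻¹ • (L z - L w) +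
      ((1 + conj ζ * ⟪e, z⟫_ℂ)⁻¹ - (1 + conj ζ * ⟪e, w⟫_ℂ)⁻¹) • L w := by
    simp only [hL]
    rw [mob, mob]
    module
  have hdz := hd z hz
  have hdw := hd w hw
  have hdz0 : 0 < ‖1 + conj ζ * ⟪e, z⟫_ℂ‖ := by linarith
  have hdw0 : 0 < ‖1 + conj ζ * ⟪e, w⟫_ℂ‖ := by linarith
  have hinv : ‖(1 + conj ζ * ⟪e, z⟫_ℂ)⁻¹ - (1 + conj ζ * ⟪e, w⟫_ℂ)⁻¹‖ ≤
      ‖z - w‖ / (1 - ‖ζ‖) ^ 2 := by
    rw [inv_sub_inv (norm_pos_iff.mp hdz0) (norm_pos_iff.mp hdw0), norm_div, norm_mul]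
    have h1 : (1 + conj ζ * ⟪e, w⟫_ℂ) - (1 + conj ζ * ⟪e, z⟫_ℂ) = conj ζ * ⟪e, w - z⟫_ℂ := by
      rw [inner_sub_right]; ring
    rw [h1, norm_mul, RCLike.norm_conj]
    have h2 := norm_inner_le he (w - z)
    rw [norm_sub_rev w z] at h2
    have h3 : ‖ζ‖ * ‖⟪e, w - z⟫_ℂ‖ ≤ 1 * ‖z - w‖ :=
      mul_le_mul hζ.le h2 (norm_nonneg _) zero_le_one
    rw [one_mul] at h3
    apply div_le_div₀ (norm_nonneg _) h3 (by positivity)
    rw [pow_two]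
    exact mul_le_mul hdz hdw hr.le (norm_nonneg _)
  rw [h0]
  refine (norm_add_le _ _).trans ?_
  rw [norm_smul, norm_smul, norm_inv]
  have h5 : ‖1 + conj ζ * ⟪e, z⟫_ℂ‖⁻¹ * ‖L z - L w‖ ≤ (1 - ‖ζ‖)⁻¹ * (2 * ‖z - w‖) :=
    mul_le_mul (inv_anti₀ hr hdz) hLzw (norm_nonneg _) (by positivity)
  have h6 : ‖(1 + conj ζ * ⟪e, z⟫_ℂ)⁻¹ - (1 + conj ζ * ⟪e, w⟫_ℂ)⁻¹‖ * ‖L w‖ ≤
      ‖z - w‖ / (1 - ‖ζ‖) ^ 2 * 3 :=
    mul_le_mul hinv hLw (norm_nonneg _) (by positivity)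
  have h7 : (2 / (1 - ‖ζ‖) + 3 / (1 - ‖ζ‖) ^ 2) * ‖z - w‖ =
      (1 - ‖ζ‖)⁻¹ * (2 * ‖z - w‖) + ‖z - w‖ / (1 - ‖ζ‖) ^ 2 * 3 := by
    field_simp
  rw [h7]
  linarith

/-- Each complex line is mapped to a complex line through the origin by an automorphism. -/
theorem exists_line_aut {p e : E} (hp : ‖p‖ < 1) (hpe : ⟪p, e⟫_ℂ = 0) :
    ∃ (φ ψ : E → E) (A : ℝ), IsBallAut φ ψ ∧ 0 < A ∧
      (∀ z ∈ ball (0 : E) 1, ⟪e, φ z⟫_ℂ = lineCoord p e z) ∧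
      ∀ z ∈ ball (0 : E) 1, ∀ w ∈ ball (0 : E) 1, ‖z - w‖ ≤ A * ‖φ z - φ w‖ := by
  rcases eq_or_ne p 0 with rfl | hp0
  · refine ⟨id, id, 1, ⟨differentiableOn_id, differentiableOn_id, fun z hz => hz, fun z hz => hz,
      fun z _ => rfl, fun z _ => rfl⟩, one_pos, ?_, ?_⟩
    · intro z hz
      simp [lineCoord]
    · intro z hz w hw
      simp
  · obtain ⟨q, hq, hpq⟩ := exists_unit hp0
    have hs : ‖(-(‖p‖ : ℂ))‖ < 1 := by
      rw [norm_neg, Complex.norm_real, norm_norm]; exact hp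
    have hs' : ‖-(-(‖p‖ : ℂ))‖ < 1 := by rwa [norm_neg]
    obtain ⟨A, hA, hlip⟩ := mob_lip_ball hq hs'
    have hp1 : (‖p‖ : ℂ) ≠ 0 := by exact_mod_cast norm_ne_zero_iff.mpr hp0
    have hqe : ⟪q, e⟫_ℂ = 0 := by
      rw [hpq, inner_smul_left, Complex.conj_ofReal] at hpe
      exact (mul_eq_zero.mp hpe).resolve_left hp1
    have heq : ⟪e, q⟫_ℂ = 0 := by
      rw [← inner_conj_symm, hqe, map_zero]
    refine ⟨mob q (-(‖p‖ : ℂ)), mob q (-(-(‖p‖ : ℂ))), A,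
      ⟨mob_diff hq hs, mob_diff hq hs', fun z hz => mob_mem hq hs hz,
        fun z hz => mob_mem hq hs' hz, fun z hz => mob_inv hq hs hz,
        fun z hz => mob_inv' hq hs hz⟩, hA, ?_, ?_⟩
    · intro z hz
      have h1 : ⟪p, z⟫_ℂ = ‖p‖ * ⟪q, z⟫_ℂ := by
        conv_lhs => rw [hpq]
        rw [inner_smul_left, Complex.conj_ofReal]
      rw [lineCoord, h1, mob, inner_smul_right, inner_add_right, inner_smul_right,
        inner_smul_right, heq, prj_apply, inner_sub_right, inner_smul_right, heq, map_neg,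
        Complex.conj_ofReal, sq]
      simp only [norm_neg, Complex.norm_real, norm_norm, mul_zero, sub_zero, zero_add]
      rw [inv_mul_eq_div]
      congr 1
      ring
    · intro z hz w hw
      have h2 := hlip _ (mob_mem hq hs hz) _ (mob_mem hq hs hw)
      rwa [mob_inv hq hs hz, mob_inv hq hs hw] at h2

theorem solvableOn_of_lower {N : ℕ} {f : Fin N → E → ℂ} {D : Set E} (j : Fin N) {s : ℝ}
    (hs : 0 < s) (hf : DifferentiableOn ℂ (f j) D) (h : ∀ z ∈ D, s ≤ ‖f j z‖) :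
    SolvableOn f D (1 / s) := by
  classical
  have hne : ∀ z ∈ D, f j z ≠ 0 := fun z hz => norm_pos_iff.mp (hs.trans_le (h z hz))
  refine ⟨fun i z => if i = j then (f j z)⁻¹ else 0, ?_, ?_, ?_⟩
  · intro i
    by_cases hij : i = j
    · simp only [hij, if_true]
      exact hf.inv hne
    · simp only [hij, if_false]
      exact differentiableOn_const _
  · intro i z hz
    by_cases hij : i = j
    · simp only [hij, if_true]
      rw [norm_inv, one_div]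
      exact inv_anti₀ hs (h z hz)
    · simp only [hij, if_false, norm_zero]
      positivity
  · intro z hz
    simp only [mul_ite, mul_zero, Finset.sum_ite_eq', Finset.mem_univ, if_true]
    exact mul_inv_cancel₀ (hne z hz)

/-- The case distinction on a piece on which all but one of the functions oscillate little. -/
theorem solvableOn_of_tame (N : ℕ) {δ c : ℝ} (hc : c < δ) :
    ∃ C : ℝ, ∀ (f : Fin N → E → ℂ) (D : Set E), (∀ j, DifferentiableOn ℂ (f j) D) →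
      (∀ z ∈ D, δ ≤ ∑ j, ‖f j z‖ ^ 2) →
      ∀ (j₀ : Fin N) (ε : Fin N → ℝ), ∑ j ∈ Finset.univ.erase j₀, ε j ^ 2 ≤ c →
      (∀ j ≠ j₀, ∀ w ∈ D, ∀ w' ∈ D, ‖f j w - f j w'‖ ≤ ε j) → SolvableOn f D C := by
  classical
  obtain ⟨s, hs, hs1, hs2⟩ : ∃ s : ℝ, 0 < s ∧ s ≤ 1 ∧ s * (2 * N + |c|) ≤ (δ - c) / 2 := by
    have h1 : 0 < 2 * (N : ℝ) + |c| + 1 := by positivity
    refine ⟨min 1 ((δ - c) / 2 / (2 * N + |c| + 1)), lt_min one_pos (by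
      apply div_pos _ h1; linarith), min_le_left _ _, ?_⟩
    have h2 : min 1 ((δ - c) / 2 / (2 * N + |c| + 1)) ≤ (δ - c) / 2 / (2 * N + |c| + 1) :=
      min_le_right _ _
    have h3 : (0 : ℝ) ≤ 2 * N + |c| := by positivity
    calc min 1 ((δ - c) / 2 / (2 * N + |c| + 1)) * (2 * N + |c|)
        ≤ (δ - c) / 2 / (2 * N + |c| + 1) * (2 * N + |c|) := mul_le_mul_of_nonneg_right h2 h3
      _ ≤ (δ - c) / 2 / (2 * N + |c| + 1) * (2 * N + |c| + 1) := by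
        apply mul_le_mul_of_nonneg_left (by linarith)
        apply div_nonneg (by linarith) h1.le
      _ = (δ - c) / 2 := by field_simp
  have ht : 0 < Real.sqrt ((δ - c) / 2) := Real.sqrt_pos.mpr (by linarith)
  refine ⟨max (1 / s) (1 / Real.sqrt ((δ - c) / 2)), ?_⟩
  intro f D hf hb j₀ ε hε hosc
  have hup : ∀ {C : ℝ}, SolvableOn f D C → C ≤ max (1 / s) (1 / Real.sqrt ((δ - c) / 2)) →
      SolvableOn f D (max (1 / s) (1 / Real.sqrt ((δ - c) / 2))) := by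
    rintro C ⟨h, h1, h2, h3⟩ hC
    exact ⟨h, h1, fun j z hz => (h2 j z hz).trans hC, h3⟩
  by_cases hcase : ∃ j, j ≠ j₀ ∧ ∃ w ∈ D, ε j + s ≤ ‖f j w‖
  · obtain ⟨j, hj, w, hw, hle⟩ := hcase
    apply hup (solvableOn_of_lower j hs (hf j) ?_) (le_max_left _ _)
    intro z hz
    have h1 := hosc j hj w hw z hz
    have h2 := norm_sub_norm_le (f j w) (f j z)
    linarith
  · push Not at hcase
    apply hup (solvableOn_of_lower j₀ ht (hf j₀) ?_) (le_max_right _ _)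
    intro z hz
    have h1 := hb z hz
    rw [← Finset.add_sum_erase _ _ (Finset.mem_univ j₀)] at h1
    have h2 : ∑ j ∈ Finset.univ.erase j₀, ‖f j z‖ ^ 2 ≤
        ∑ j ∈ Finset.univ.erase j₀, (ε j ^ 2 + s * (1 + ε j ^ 2) + s ^ 2) := by
      apply Finset.sum_le_sum
      intro j hj
      have hj' := Finset.ne_of_mem_erase hj
      have h3 := hcase j hj' z hz
      have h4 : ‖f j z‖ ^ 2 ≤ (ε j + s) ^ 2 :=
        pow_le_pow_left₀ (norm_nonneg _) h3.le 2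
      nlinarith [sq_nonneg (ε j - 1)]
    have h5 : ∑ j ∈ Finset.univ.erase j₀, (ε j ^ 2 + s * (1 + ε j ^ 2) + s ^ 2) =
        (1 + s) * (∑ j ∈ Finset.univ.erase j₀, ε j ^ 2) +
          ((Finset.univ.erase j₀).card : ℝ) * (s + s ^ 2) := by
      rw [Finset.mul_sum, ← nsmul_eq_mul, ← Finset.sum_const, ← Finset.sum_add_distrib]
      apply Finset.sum_congr rfl
      intro j _
      ring
    have h6 : ((Finset.univ.erase j₀).card : ℝ) ≤ N := by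
      have := Finset.card_erase_le (s := (Finset.univ : Finset (Fin N))) (a := j₀)
      rw [Finset.card_univ, Fintype.card_fin] at this
      exact_mod_cast this
    have h7 : ((Finset.univ.erase j₀).card : ℝ) * (s + s ^ 2) ≤ N * (2 * s) := by
      apply mul_le_mul h6 (by nlinarith) (by positivity) (Nat.cast_nonneg _)
    have h8 : (1 + s) * (∑ j ∈ Finset.univ.erase j₀, ε j ^ 2) ≤ (1 + s) * c :=
      mul_le_mul_of_nonneg_left hε (by linarith)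
    have h9 : s * c ≤ s * |c| := mul_le_mul_of_nonneg_left (le_abs_self c) hs.le
    have h10 : (δ - c) / 2 ≤ ‖f j₀ z‖ ^ 2 := by nlinarith
    calc Real.sqrt ((δ - c) / 2) ≤ Real.sqrt (‖f j₀ z‖ ^ 2) := Real.sqrt_le_sqrt h10
      _ = ‖f j₀ z‖ := Real.sqrt_sq (norm_nonneg _)

theorem line_cell_sub {p e : E} {φ : E → E} {A η η' : ℝ} (hA : 0 < A) (hη : 0 < η)
    (hφ : ∀ z ∈ ball (0 : E) 1, ⟪e, φ z⟫_ℂ = lineCoord p e z)
    (hlip : ∀ z ∈ ball (0 : E) 1, ∀ w ∈ ball (0 : E) 1, ‖z - w‖ ≤ A * ‖φ z - φ w‖)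
    (hη0 : 0 < η') (hη1 : η' ≤ 1 / 2) (hη2 : 4 * η' ≤ η) (hη3 : 8 * A ^ 2 * η' ≤ η) {z₀ w₀ w : E}
    (hz₀ : z₀ ∈ ball (0 : E) 1) (hw₀ : w₀ ∈ ball (0 : E) 1) (hw : w ∈ ball (0 : E) 1)
    (h₀ : w₀ ∈ lineCell e η' φ z₀) (h : w ∈ lineCell e η' φ z₀) :
    ‖lineCoord p e w - lineCoord p e w₀‖ < η * (1 - ‖lineCoord p e w₀‖) ∧
      ‖w - w₀‖ ^ 2 < η * (1 - ‖lineCoord p e w₀‖) := by
  obtain ⟨h1, h2⟩ := h₀
  obtain ⟨h3, h4⟩ := h
  rw [inner_sub_right, hφ _ hw₀, hφ _ hz₀] at h1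
  rw [inner_sub_right, hφ _ hw, hφ _ hz₀] at h3
  rw [hφ _ hz₀] at h2 h4
  set x := lineCoord p e w
  set x₀ := lineCoord p e w₀
  set y := lineCoord p e z₀
  have hy : 0 < 1 - ‖y‖ := by
    by_contra hcon
    push Not at hcon
    have : ‖x₀ - y‖ < 0 := h1.trans_le (mul_nonpos_of_nonneg_of_nonpos hη0.le hcon)
    linarith [norm_nonneg (x₀ - y)]
  have h5 : ‖x - x₀‖ ≤ ‖x - y‖ + ‖x₀ - y‖ := by
    have := norm_sub_le (x - y) (x₀ - y)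
    rwa [sub_sub_sub_cancel_right] at this
  have h6 : ‖x₀‖ ≤ ‖x₀ - y‖ + ‖y‖ := by
    have := norm_add_le (x₀ - y) y
    rwa [sub_add_cancel] at this
  have h7 : (1 - ‖y‖) / 2 < 1 - ‖x₀‖ := by nlinarith
  constructor
  · nlinarith
  · have h8 : ‖φ w - φ w₀‖ ≤ ‖φ w - φ z₀‖ + ‖φ w₀ - φ z₀‖ := by
      have := norm_sub_le (φ w - φ z₀) (φ w₀ - φ z₀)
      rwa [sub_sub_sub_cancel_right] at this
    have h9 : ‖φ w - φ w₀‖ ^ 2 ≤ 2 * (‖φ w - φ z₀‖ ^ 2 + ‖φ w₀ - φ z₀‖ ^ 2) := by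
      have := pow_le_pow_left₀ (norm_nonneg _) h8 2
      nlinarith [sq_nonneg (‖φ w - φ z₀‖ - ‖φ w₀ - φ z₀‖)]
    have h10 : ‖w - w₀‖ ^ 2 ≤ A ^ 2 * ‖φ w - φ w₀‖ ^ 2 := by
      have := pow_le_pow_left₀ (norm_nonneg _) (hlip w hw w₀ hw₀) 2
      rwa [mul_pow] at this
    have hA2 : 0 < A ^ 2 := by positivity
    calc ‖w - w₀‖ ^ 2 ≤ A ^ 2 * ‖φ w - φ w₀‖ ^ 2 := h10
      _ ≤ A ^ 2 * (2 * (‖φ w - φ z₀‖ ^ 2 + ‖φ w₀ - φ z₀‖ ^ 2)) :=
        mul_le_mul_of_nonneg_left h9 hA2.le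
      _ < A ^ 2 * (2 * (η' * (1 - ‖y‖) + η' * (1 - ‖y‖))) := by
        apply mul_lt_mul_of_pos_left _ hA2
        linarith
      _ = 8 * A ^ 2 * η' * ((1 - ‖y‖) / 2) := by ring
      _ ≤ η * ((1 - ‖y‖) / 2) := mul_le_mul_of_nonneg_right hη3 (by linarith)
      _ < η * (1 - ‖x₀‖) := mul_lt_mul_of_pos_left h7 hη

theorem tame_depth {N m : ℕ} {f : Fin N → E → ℂ} {C η η' A : ℝ} {p e : Fin m → E}
    {φ ψ : Fin m → E → E} {D₀ : Set E} (hD₀ : D₀ ⊆ ball 0 1) (he : ∀ i, ‖e i‖ = 1)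
    (haut : ∀ i, IsBallAut (φ i) (ψ i)) (hA : 0 < A) (hη : 0 < η)
    (hφ : ∀ i, ∀ z ∈ ball (0 : E) 1, ⟪e i, φ i z⟫_ℂ = lineCoord (p i) (e i) z)
    (hlip : ∀ i, ∀ z ∈ ball (0 : E) 1, ∀ w ∈ ball (0 : E) 1, ‖z - w‖ ≤ A * ‖φ i z - φ i w‖)
    (hη0 : 0 < η') (hη1 : η' ≤ 1 / 2) (hη2 : 4 * η' ≤ η) (hη3 : 8 * A ^ 2 * η' ≤ η)
    (hbase : ∀ D ⊆ D₀, (∀ w₀ ∈ D, D ⊆ jointCell p e η w₀) → SolvableOn f D C) :
    ∀ q : ℕ, q ≤ m → ∀ D ⊆ D₀, (∀ i : Fin m, (i : ℕ) < m - q → ∀ w₀ ∈ D, ∀ w ∈ D,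
      ‖lineCoord (p i) (e i) w - lineCoord (p i) (e i) w₀‖ <
        η * (1 - ‖lineCoord (p i) (e i) w₀‖) ∧
      ‖w - w₀‖ ^ 2 < η * (1 - ‖lineCoord (p i) (e i) w₀‖)) → SolvableAtDepth f C η' q D := by
  intro q
  induction q with
  | zero =>
    intro _ D hD h
    exact hbase D hD fun w₀ hw₀ w hw i => h i (by omega) w₀ hw₀ w hw
  | succ q ih =>
    intro hq D hD h
    obtain ⟨i₀, hi₀⟩ : ∃ i : Fin m, (i : ℕ) = m - (q + 1) := ⟨⟨m - (q + 1), by omega⟩, rfl⟩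
    refine ⟨e i₀, φ i₀, ψ i₀, he i₀, haut i₀, ?_⟩
    intro z₀ hz₀
    apply ih (by omega) _ (inter_subset_left.trans hD)
    intro i hi w₀ hw₀ w hw
    rcases Nat.lt_or_ge (i : ℕ) (m - (q + 1)) with hlt | hge
    · exact h i hlt w₀ hw₀.1 w hw.1
    · have hii : i = i₀ := Fin.ext (by omega)
      subst hii
      exact line_cell_sub hA hη (hφ i) (hlip i) hη0 hη1 hη2 hη3 (hD₀ (hD hz₀))
        (hD₀ (hD hw₀.1)) (hD₀ (hD hw.1)) hw₀.2 hw.2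

/-- The corona theorem for data all but one of which are tame, locally. -/
theorem tame_thm (hDC : DiscCorona) [FiniteDimensional ℂ E] (N : ℕ) (M δ : ℝ) (hδ : 0 < δ)
    (m : E → ℕ) (p e : (l : E) → Fin (m l) → E) (η c : E → ℝ)
    (hp : ∀ l i, ‖p l i‖ < 1) (he : ∀ l i, ‖e l i‖ = 1) (hpe : ∀ l i, ⟪p l i, e l i⟫_ℂ = 0)
    (hη : ∀ l, 0 < η l) (hc : ∀ l, c l < δ) :
    ∃ C' : ℝ, ∀ f : Fin N → E → ℂ, (∀ j, DifferentiableOn ℂ (f j) (ball 0 1)) →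
      (∀ j, ∀ z ∈ ball (0 : E) 1, ‖f j z‖ ≤ M) →
      (∀ z ∈ ball (0 : E) 1, δ ≤ ∑ j, ‖f j z‖ ^ 2) →
      (∀ l ∈ sphere (0 : E) 1, AllButOneTame f (ball 0 1 ∩ ball l (η l)) (p l) (e l) (η l) (c l)) →
      SolvableOn f (ball 0 1) C' := by
  classical
  choose φ ψ A haut hA hφ hlip using fun l i => exists_line_aut (hp l i) (hpe l i)
  choose C hC using fun l => solvableOn_of_tame (E := E) N (hc l)
  obtain ⟨B, hB⟩ : ∃ B : E → ℝ, B = fun l => 1 + ∑ i, A l i := ⟨_, rfl⟩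
  have hB1 : ∀ l, 1 ≤ B l := by
    intro l
    rw [hB]
    have := Finset.sum_nonneg fun i (_ : i ∈ Finset.univ) => (hA l i).le
    simp only
    linarith
  have hAB : ∀ l i, A l i ≤ B l := by
    intro l i
    rw [hB]
    have := Finset.single_le_sum (fun i (_ : i ∈ Finset.univ) => (hA l i).le) (Finset.mem_univ i)
    simp only
    linarith
  obtain ⟨η', hη'⟩ : ∃ η' : E → ℝ, η' = fun l => min (1 / 2) (η l / (4 + 8 * B l ^ 2)) := ⟨_, rfl⟩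
  have hη'0 : ∀ l, 0 < η' l := by
    intro l
    rw [hη']
    exact lt_min (by norm_num) (div_pos (hη l) (by positivity))
  have hη'1 : ∀ l, η' l ≤ 1 / 2 := by
    intro l
    rw [hη']
    exact min_le_left _ _
  have hη'2 : ∀ l, (4 + 8 * B l ^ 2) * η' l ≤ η l := by
    intro l
    rw [hη']
    have h1 : min (1 / 2) (η l / (4 + 8 * B l ^ 2)) ≤ η l / (4 + 8 * B l ^ 2) := min_le_right _ _
    have h2 : (0 : ℝ) < 4 + 8 * B l ^ 2 := by positivity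
    calc (4 + 8 * B l ^ 2) * min (1 / 2) (η l / (4 + 8 * B l ^ 2))
        ≤ (4 + 8 * B l ^ 2) * (η l / (4 + 8 * B l ^ 2)) := mul_le_mul_of_nonneg_left h1 h2.le
      _ = η l := by field_simp
  obtain ⟨C', hC'⟩ := finite_depth hDC N M δ hδ m η' η C hη'0 hη
  refine ⟨C', ?_⟩
  intro f hf hM hb htame
  apply hC' f hf hM hb
  intro l hl
  have hball : ball (0 : E) 1 ∩ ball l (η l) ⊆ ball 0 1 := inter_subset_left
  refine tame_depth (A := B l) (η := η l) (p := p l) (e := e l) (φ := φ l) (ψ := ψ l) hball (he l)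
    (haut l) (by linarith [hB1 l]) (hη l) (hφ l) ?_ (hη'0 l) (hη'1 l) ?_ ?_ ?_ (m l) le_rfl _
    subset_rfl ?_
  · intro i z hz w hw
    exact (hlip l i z hz w hw).trans (mul_le_mul_of_nonneg_right (hAB l i) (norm_nonneg _))
  · nlinarith [hη'2 l, hη'0 l, sq_nonneg (B l)]
  · nlinarith [hη'2 l, hη'0 l, sq_nonneg (B l)]
  · intro D hD hcell
    rcases D.eq_empty_or_nonempty with rfl | ⟨w₀, hw₀⟩
    · refine ⟨fun _ _ => 0, fun j => differentiableOn_empty, ?_, ?_⟩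
      · intro j z hz; exact absurd hz (notMem_empty z)
      · intro z hz; exact absurd hz (notMem_empty z)
    · obtain ⟨j₀, ε, h1, h2⟩ := htame l hl w₀ (hD hw₀)
      refine hC l f D (fun j => (hf j).mono (hD.trans hball))
        (fun z hz => hb z (hball (hD hz))) j₀ ε h1 ?_
      intro j hj w hw w' hw'
      exact h2 j hj w ⟨hD hw, hcell w₀ hw₀ hw⟩ w' ⟨hD hw', hcell w₀ hw₀ hw'⟩
  · intro i hi
    omega

end Pool.Agent.Lib.MP_ca0fc2_an
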