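import Mathlib
import Pool.Agent.Lib.MP_ca0fc2_an.HartGlue
import Pool.Agent.Lib.MP_ca0fc2_an.Tame
import Pool.Agent.Lib.MP_ca0fc2_an.DiscCor

set_option autoImplicit false

open Metric Set MeasureTheory Filter Topology
open scoped InnerProductSpace

namespace Pool.Agent.Lib.MP_ca0fc2_an

namespace Hart

variable {F : Type*} [NormedAddCommGroup F] [NormedSpace ℂ F] {α : ℂ → ℝ} {L : ℝ}

/-- Weights `α` for which `α x + ‖x‖²` is convex are admissible. -/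
theorem Wt.of_convex (h1 : ContDiffOn ℝ 1 α (ball 0 1))
    (h3 : ConvexOn ℝ (ball (0 : ℂ) 1) fun x => α x + ‖x‖ ^ 2) : Wt α := by
  refine ⟨h1, ?_⟩
  intro ζ hζ x hx
  have hconv : ConvexOn ℝ (Icc (0 : ℝ) 1) fun t : ℝ => α (ζ + t • (x - ζ)) + ‖ζ + t • (x - ζ)‖ ^ 2 := by
    have hmem : ∀ t ∈ Icc (0 : ℝ) 1, ζ + t • (x - ζ) ∈ ball (0 : ℂ) 1 := by
      intro t ht
      have := (convex_ball (0 : ℂ) 1).add_smul_sub_mem hζ hx ht
      exact this
    refine ⟨convex_Icc 0 1, ?_⟩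
    intro s hs t ht a b ha hb hab
    have h := h3.2 (hmem s hs) (hmem t ht) ha hb hab
    have e : a • (ζ + s • (x - ζ)) + b • (ζ + t • (x - ζ)) = ζ + (a • s + b • t) • (x - ζ) := by
      have hb' : b = 1 - a := by linarith
      subst hb'
      simp only [smul_eq_mul, add_smul, smul_add, smul_smul, sub_smul, one_smul]
      module
    rw [e] at h
    exact h
  have hdα : HasFDerivAt α (fderiv ℝ α ζ) ζ :=
    ((h1.contDiffAt (isOpen_ball.mem_nhds hζ)).differentiableAt one_ne_zero).hasFDerivAt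
  have hline : HasDerivAt (fun t : ℝ => ζ + t • (x - ζ)) (x - ζ) 0 := by
    have := ((hasDerivAt_id (0 : ℝ)).smul_const (x - ζ)).const_add ζ
    simpa using this
  have hz0 : ζ + (0 : ℝ) • (x - ζ) = ζ := by simp
  have hd1 : HasDerivAt (fun t : ℝ => α (ζ + t • (x - ζ))) (fderiv ℝ α ζ (x - ζ)) 0 := by
    have hdα' : HasFDerivAt α (fderiv ℝ α ζ) (ζ + (0 : ℝ) • (x - ζ)) := by rw [hz0]; exact hdα
    exact hdα'.comp_hasDerivAt 0 hline
  have hd2 : HasDerivAt (fun t : ℝ => ‖ζ + t • (x - ζ)‖ ^ 2) (2 * ⟪ζ, x - ζ⟫_ℝ) 0 := by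
    have := hline.norm_sq
    rw [hz0] at this
    exact this
  have hsl := hconv.le_slope_of_hasDerivAt (left_mem_Icc.mpr zero_le_one)
    (right_mem_Icc.mpr zero_le_one) zero_lt_one (hd1.add hd2)
  rw [slope_def_field] at hsl
  simp only [zero_smul, add_zero, one_smul, sub_zero, div_one, add_sub_cancel] at hsl
  have e2 : ‖x‖ ^ 2 = ‖ζ‖ ^ 2 + 2 * ⟪ζ, x - ζ⟫_ℝ + ‖x - ζ‖ ^ 2 := by
    have := norm_add_sq_real ζ (x - ζ)
    rw [add_sub_cancel] at this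
    exact this
  linarith

/-- the basic estimate: continuity under rotations gives continuity under dilations -/
theorem radial_core {G : ℂ → ℂ} {M ε τ s : ℝ} (hτ : 0 < τ) (hs : 0 ≤ s)
    (hG : ∀ w : ℂ, w.re ≤ 0 → DifferentiableAt ℂ G w) (hM : ∀ w : ℂ, w.re ≤ 0 → ‖G w‖ ≤ M)
    (h0 : ∀ y : ℝ, |y| ≤ τ → ‖G (y * Complex.I) - G 0‖ ≤ ε)
    (h1 : ∀ y : ℝ, |y| ≤ τ → ‖G (-s + y * Complex.I) - G (-s)‖ ≤ ε) :
    ‖G (-s) - G 0‖ ≤ 2 * ε + M * s / τ := by
  obtain ⟨z, hz⟩ : ∃ z : ℂ, z = -s - τ * Complex.I := ⟨_, rfl⟩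
  obtain ⟨w, hw⟩ : ∃ w : ℂ, w = τ * Complex.I := ⟨_, rfl⟩
  have hzre : z.re = -s := by simp [hz]
  have hzim : z.im = -τ := by simp [hz]
  have hwre : w.re = 0 := by simp [hw]
  have hwim : w.im = τ := by simp [hw]
  have hrect := Complex.integral_boundary_rect_eq_zero_of_differentiableOn G z w (by
    intro u hu
    rw [Complex.mem_reProdIm, hzre, hwre, uIcc_of_le (by linarith)] at hu
    exact (hG u hu.1.2).differentiableWithinAt)
  rw [hzre, hzim, hwre, hwim] at hrect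
  set I1 : ℂ := ∫ y in (-τ)..τ, G (((0 : ℝ) : ℂ) + y * Complex.I) with hI1
  set I2 : ℂ := ∫ y in (-τ)..τ, G (((-s : ℝ) : ℂ) + y * Complex.I) with hI2
  have hre : ∀ (a b : ℝ), ((a : ℂ) + (b : ℂ) * Complex.I).re = a := by intro a b; simp
  have b1 : ‖∫ x in (-s)..0, G ((x : ℂ) + ((-τ : ℝ) : ℂ) * Complex.I)‖ ≤ M * |0 - -s| := by
    apply intervalIntegral.norm_integral_le_of_norm_le_const
    intro x hx
    rw [uIoc_of_le (by linarith)] at hx
    exact hM _ (by rw [hre]; exact hx.2)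
  have b2 : ‖∫ x in (-s)..0, G ((x : ℂ) + ((τ : ℝ) : ℂ) * Complex.I)‖ ≤ M * |0 - -s| := by
    apply intervalIntegral.norm_integral_le_of_norm_le_const
    intro x hx
    rw [uIoc_of_le (by linarith)] at hx
    exact hM _ (by rw [hre]; exact hx.2)
  have e0 : |0 - -s| = s := by rw [zero_sub, neg_neg, abs_of_nonneg hs]
  rw [e0] at b1 b2
  have b3 : ‖I1 - I2‖ ≤ 2 * (M * s) := by
    have h3 : Complex.I • (I1 - I2) =
        (∫ x in (-s)..0, G ((x : ℂ) + ((τ : ℝ) : ℂ) * Complex.I)) -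
          ∫ x in (-s)..0, G ((x : ℂ) + ((-τ : ℝ) : ℂ) * Complex.I) := by
      rw [smul_sub]
      linear_combination (norm := skip) hrect
      simp only [smul_eq_mul]
      ring
    have h4 : ‖I1 - I2‖ = ‖Complex.I • (I1 - I2)‖ := by
      rw [norm_smul, Complex.norm_I, one_mul]
    rw [h4, h3]
    refine (norm_sub_le _ _).trans ?_
    linarith
  have hcont : ∀ a : ℝ, a ≤ 0 → Continuous fun y : ℝ => G ((a : ℂ) + y * Complex.I) := by
    intro a ha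
    rw [continuous_iff_continuousAt]
    intro y
    have c1 : ContinuousAt G ((a : ℂ) + y * Complex.I) :=
      (hG _ (by rw [hre]; exact ha)).continuousAt
    exact ContinuousAt.comp (f := fun y : ℝ => (a : ℂ) + y * Complex.I) c1 (by fun_prop)
  have b4 : ∀ a : ℝ, a ≤ 0 → (∀ y : ℝ, |y| ≤ τ → ‖G ((a : ℂ) + y * Complex.I) - G a‖ ≤ ε) →
      ‖(∫ y in (-τ)..τ, G ((a : ℂ) + y * Complex.I)) - (2 * τ : ℂ) * G a‖ ≤ ε * (2 * τ) := by
    intro a ha hb
    have h5 : (∫ y in (-τ)..τ, (G ((a : ℂ) + y * Complex.I) - G a)) =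
        (∫ y in (-τ)..τ, G ((a : ℂ) + y * Complex.I)) - (2 * τ : ℂ) * G a := by
      rw [intervalIntegral.integral_sub ((hcont a ha).intervalIntegrable _ _)
        (continuous_const.intervalIntegrable _ _), intervalIntegral.integral_const]
      congr 1
      rw [Complex.real_smul]
      push_cast
      ring
    rw [← h5]
    have h6 := intervalIntegral.norm_integral_le_of_norm_le_const (a := -τ) (b := τ)
      (f := fun y : ℝ => G ((a : ℂ) + y * Complex.I) - G a) (C := ε) (by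
        intro y hy
        rw [uIoc_of_le (by linarith)] at hy
        exact hb y (abs_le.mpr ⟨hy.1.le, hy.2⟩))
    have e1 : |τ - -τ| = 2 * τ := by
      rw [sub_neg_eq_add, abs_of_pos (by linarith)]
      ring
    rw [e1] at h6
    exact h6
  have b5 := b4 0 le_rfl (by
    intro y hy
    have := h0 y hy
    simpa using this)
  have b6 := b4 (-s) (by linarith) (by
    intro y hy
    have := h1 y hy
    push_cast
    exact this)
  rw [← hI1] at b5
  rw [← hI2] at b6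
  have b7 : ‖(2 * τ : ℂ) * (G (-s) - G 0)‖ ≤ 2 * (M * s) + 2 * (ε * (2 * τ)) := by
    have e2 : (2 * τ : ℂ) * (G (-s) - G 0) = (I1 - (2 * τ : ℂ) * G ((0 : ℝ) : ℂ)) -
        (I2 - (2 * τ : ℂ) * G ((-s : ℝ) : ℂ)) - (I1 - I2) := by
      push_cast
      ring
    rw [e2]
    refine (norm_sub_le _ _).trans ?_
    have := norm_sub_le (I1 - (2 * τ : ℂ) * G ((0 : ℝ) : ℂ)) (I2 - (2 * τ : ℂ) * G ((-s : ℝ) : ℂ))
    linarith
  have e3 : ‖(2 * τ : ℂ) * (G (-s) - G 0)‖ = 2 * τ * ‖G (-s) - G 0‖ := by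
    rw [norm_mul]
    congr 1
    have : (2 * τ : ℂ) = ((2 * τ : ℝ) : ℂ) := by push_cast; ring
    rw [this, Complex.norm_real, Real.norm_of_nonneg (by linarith)]
  rw [e3] at b7
  have h7 : ‖G (-s) - G 0‖ ≤ (2 * (M * s) + 2 * (ε * (2 * τ))) / (2 * τ) := by
    rw [le_div_iff₀ (by linarith)]
    linarith
  refine h7.trans (le_of_eq ?_)
  field_simp
  ring

theorem smul_mem {p : ℂ × F} (hp : p ∈ hartogs α F) {c : ℂ} (hc : ‖c‖ ≤ 1) :
    (p.1, c • p.2) ∈ hartogs α F := by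
  rw [mem_hart', wt_smul]
  have h1 := mem_hart'.mp hp
  have h2 := wt_nonneg α p
  have h3 : ‖c‖ ^ 2 ≤ 1 := pow_le_one₀ (norm_nonneg _) hc
  simp only
  nlinarith

/-- Continuity under rotations of the second coordinate gives continuity under its dilations. -/
theorem radial (hα : Wt α) {f : ℂ × F → ℂ} {M ε τ s : ℝ}
    (hf : DifferentiableOn ℂ f (hartogs α F)) (hM : ∀ p ∈ hartogs α F, ‖f p‖ ≤ M) (hτ : 0 < τ)
    (hrot : ∀ θ : ℝ, |θ| ≤ τ → ∀ p ∈ hartogs α F,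
      ‖f (p.1, Complex.exp (θ * Complex.I) • p.2) - f p‖ ≤ ε)
    {p : ℂ × F} (hp : p ∈ hartogs α F) (hs : 0 ≤ s) :
    ‖f (p.1, Complex.exp (-s) • p.2) - f p‖ ≤ 2 * ε + M * s / τ := by
  have hexp : ∀ w : ℂ, w.re ≤ 0 → ‖Complex.exp w‖ ≤ 1 := by
    intro w hw
    rw [Complex.norm_exp]
    exact Real.exp_le_one_iff.mpr hw
  have h := radial_core (G := fun w => f (p.1, Complex.exp w • p.2)) (M := M) (ε := ε) (τ := τ)
    (s := s) hτ hs ?_ ?_ ?_ ?_
  · simpa using h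
  · intro w hw
    have h1 : DifferentiableAt ℂ f (p.1, Complex.exp w • p.2) :=
      hf.differentiableAt ((isOpen_hart hα).mem_nhds (smul_mem hp (hexp w hw)))
    have h2 : DifferentiableAt ℂ (fun w : ℂ => (p.1, Complex.exp w • p.2)) w :=
      (differentiableAt_const _).prodMk (Complex.differentiableAt_exp.smul_const _)
    exact h1.comp w h2
  · intro w hw
    exact hM _ (smul_mem hp (hexp w hw))
  · intro y hy
    have := hrot y hy p hp
    simpa using this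
  · intro y hy
    have h3 := hrot y hy (p.1, Complex.exp (-s) • p.2) (smul_mem hp (hexp _ (by simpa using hs)))
    simp only at h3 ⊢
    rw [smul_smul, ← Complex.exp_add] at h3
    rw [add_comm (-(s : ℂ))]
    exact h3

theorem horiz_mem
    (hlip : ∀ x ∈ ball (0 : ℂ) 1, ∀ x' ∈ ball (0 : ℂ) 1, |α x - α x'| ≤ L * ‖x - x'‖) (hL : 0 ≤ L) {ρ s : ℝ} (hρ0 : 0 < ρ) (hρ1 : ρ ≤ 1 / 2)
    (hρs : (L + 4) * ρ ≤ 2 * s) {p : ℂ × F} (hp : p ∈ hartogs α F) {ξ : ℂ}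
    (hξ : ‖ξ - p.1‖ < ρ * (1 - ‖p.1‖)) : (ξ, Complex.exp (-s) • p.2) ∈ hartogs α F := by
  have hx := fst_lt hp
  have hξn : ‖ξ‖ ≤ ‖p.1‖ + ρ * (1 - ‖p.1‖) := by
    have := norm_le_norm_add_norm_sub p.1 ξ
    rw [norm_sub_rev] at this
    linarith
  have hξ1 : ‖ξ‖ < 1 := by nlinarith
  have h1 := mem_hart'.mp hp
  have hw := wt_nonneg α p
  rw [mem_hart']
  have hlip := hlip ξ (by simpa using hξ1) p.1 (fst_mem hp)
  have h2 : α ξ ≤ α p.1 + L * ρ := by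
    have h3 : L * ‖ξ - p.1‖ ≤ L * ρ := by
      apply mul_le_mul_of_nonneg_left _ hL
      nlinarith [norm_nonneg p.1]
    have := (abs_le.mp hlip).2
    linarith
  have h4 : wt α (ξ, Complex.exp (-s) • p.2) ≤ Real.exp (-(4 * ρ)) * wt α p := by
    have e1 : ‖Complex.exp (-(s : ℂ))‖ = Real.exp (-s) := by
      rw [Complex.norm_exp]; simp
    simp only [wt, norm_smul, e1]
    rw [mul_pow, ← mul_assoc, ← mul_assoc]
    apply mul_le_mul_of_nonneg_right _ (sq_nonneg _)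
    rw [← Real.exp_nat_mul, ← Real.exp_add, ← Real.exp_add]
    apply Real.exp_le_exp.mpr
    push_cast
    linarith
  have h5 : Real.exp (-(4 * ρ)) ≤ (1 - ρ) ^ 2 := by
    have h6 : Real.exp (-(2 * ρ)) ≤ 1 - ρ := by
      have h7 := Real.add_one_le_exp (2 * ρ)
      have h8 : Real.exp (-(2 * ρ)) * Real.exp (2 * ρ) = 1 := by
        rw [← Real.exp_add]; simp
      have h9 : 0 < Real.exp (-(2 * ρ)) := Real.exp_pos _
      have h10 : Real.exp (-(2 * ρ)) * (2 * ρ + 1) ≤ 1 := by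
        exact (mul_le_mul_of_nonneg_left h7 h9.le).trans h8.le
      have h11 : 1 ≤ (1 - ρ) * (2 * ρ + 1) := by nlinarith
      by_contra hcon
      push Not at hcon
      have : (1 - ρ) * (2 * ρ + 1) < Real.exp (-(2 * ρ)) * (2 * ρ + 1) :=
        mul_lt_mul_of_pos_right hcon (by linarith)
      linarith
    have h12 : Real.exp (-(4 * ρ)) = Real.exp (-(2 * ρ)) ^ 2 := by
      rw [← Real.exp_nat_mul]; congr 1; push_cast; ring
    rw [h12]
    exact pow_le_pow_left₀ (Real.exp_pos _).le h6 2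
  have h6 : (1 - ρ) ^ 2 * (1 - ‖p.1‖ ^ 2) ≤ 1 - ‖ξ‖ ^ 2 := by
    have a1 : (1 - ρ) * (1 - ‖p.1‖) ≤ 1 - ‖ξ‖ := by linarith
    have a2 : (1 - ρ) * (1 + ‖p.1‖) ≤ 1 + ‖ξ‖ := by
      have := norm_le_norm_add_norm_sub ξ p.1
      nlinarith [norm_nonneg p.1]
    have a3 : 0 ≤ (1 - ρ) * (1 - ‖p.1‖) := mul_nonneg (by linarith) (by linarith)
    have a4 : 0 ≤ (1 - ρ) * (1 + ‖p.1‖) := mul_nonneg (by linarith) (by positivity)
    have := mul_le_mul a1 a2 a4 (by linarith)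
    nlinarith
  calc wt α (ξ, Complex.exp (-s) • p.2) ≤ Real.exp (-(4 * ρ)) * wt α p := h4
    _ < Real.exp (-(4 * ρ)) * (1 - ‖p.1‖ ^ 2) := mul_lt_mul_of_pos_left h1 (Real.exp_pos _)
    _ ≤ (1 - ρ) ^ 2 * (1 - ‖p.1‖ ^ 2) := by
      apply mul_le_mul_of_nonneg_right h5
      nlinarith [norm_nonneg p.1]
    _ ≤ 1 - ‖ξ‖ ^ 2 := h6

theorem horiz_osc (hα : Wt α)
    (hlip : ∀ x ∈ ball (0 : ℂ) 1, ∀ x' ∈ ball (0 : ℂ) 1, |α x - α x'| ≤ L * ‖x - x'‖) (hL : 0 ≤ L) {f : ℂ × F → ℂ} {M ρ s : ℝ}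
    (hf : DifferentiableOn ℂ f (hartogs α F)) (hM : ∀ p ∈ hartogs α F, ‖f p‖ ≤ M)
    (hρ0 : 0 < ρ) (hρ1 : ρ ≤ 1 / 2) (hρs : (L + 4) * ρ ≤ 2 * s) {p : ℂ × F}
    (hp : p ∈ hartogs α F) {ξ : ℂ} (hξ : ‖ξ - p.1‖ < ρ * (1 - ‖p.1‖)) :
    ‖f (ξ, Complex.exp (-s) • p.2) - f (p.1, Complex.exp (-s) • p.2)‖ ≤
      (2 * M + 1) / (ρ * (1 - ‖p.1‖)) * ‖ξ - p.1‖ := by
  have hx := fst_lt hp
  have hR : 0 < ρ * (1 - ‖p.1‖) := mul_pos hρ0 (by linarith)
  set g : ℂ → ℂ := fun ξ => f (ξ, Complex.exp (-s) • p.2) with hg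
  have hmem : ∀ ξ ∈ ball p.1 (ρ * (1 - ‖p.1‖)), (ξ, Complex.exp (-s) • p.2) ∈ hartogs α F := by
    intro ξ hξ
    rw [mem_ball, dist_eq_norm] at hξ
    exact horiz_mem hlip hL hρ0 hρ1 hρs hp hξ
  have hgd : DifferentiableOn ℂ g (ball p.1 (ρ * (1 - ‖p.1‖))) := by
    intro ξ hξ
    have h1 : DifferentiableAt ℂ f (ξ, Complex.exp (-s) • p.2) :=
      hf.differentiableAt ((isOpen_hart hα).mem_nhds (hmem ξ hξ))
    have h2 : DifferentiableAt ℂ (fun ξ : ℂ => (ξ, Complex.exp (-s) • p.2)) ξ :=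
      differentiableAt_id.prodMk (differentiableAt_const _)
    exact (h1.comp ξ h2).differentiableWithinAt
  have hmaps : MapsTo g (ball p.1 (ρ * (1 - ‖p.1‖))) (closedBall (g p.1) (2 * M + 1)) := by
    intro t ht
    rw [mem_closedBall, dist_eq_norm]
    have h1 := hM _ (hmem t ht)
    have h2 := hM _ (hmem p.1 (mem_ball_self hR))
    have h3 := norm_sub_le (g t) (g p.1)
    simp only [hg] at h3 ⊢
    linarith
  have h4 := Complex.dist_le_div_mul_dist_of_mapsTo_ball hgd hmaps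
    (z := ξ) (by rw [mem_ball, dist_eq_norm]; exact hξ)
  rw [dist_eq_norm, dist_eq_norm] at h4
  exact h4

theorem Solvable.of_approx {N : ℕ} {f g h : Fin N → ℂ × F → ℂ} {D : Set (ℂ × F)} {C e : ℝ}
    (hC : 0 ≤ C) (he : 0 ≤ e)
    (hf : ∀ j, DifferentiableOn ℂ (f j) D) (hh : ∀ j, DifferentiableOn ℂ (h j) D)
    (hhC : ∀ j, ∀ z ∈ D, ‖h j z‖ ≤ C) (hg : ∀ z ∈ D, ∑ j, g j z * h j z = 1)
    (hfg : ∀ j, ∀ z ∈ D, ‖f j z - g j z‖ ≤ e) (hsmall : N * (e * C) ≤ 1 / 2) :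
    Solvable f D (2 * C) := by
  have hS : ∀ z ∈ D, ‖∑ j, f j z * h j z - 1‖ ≤ 1 / 2 := by
    intro z hz
    rw [← hg z hz, ← Finset.sum_sub_distrib]
    refine le_trans ?_ hsmall
    calc ‖∑ j, (f j z * h j z - g j z * h j z)‖ ≤ ∑ _j : Fin N, e * C := by
          refine (norm_sum_le _ _).trans (Finset.sum_le_sum fun j _ => ?_)
          rw [← sub_mul, norm_mul]
          exact mul_le_mul (hfg j z hz) (hhC j z hz) (norm_nonneg _) he
      _ = N * (e * C) := by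
          rw [Finset.sum_const, Finset.card_univ, Fintype.card_fin, nsmul_eq_mul]
  have hS2 : ∀ z ∈ D, 1 / 2 ≤ ‖∑ j, f j z * h j z‖ := by
    intro z hz
    have h1 := hS z hz
    have h2 := norm_sub_norm_le (1 : ℂ) (1 - ∑ j, f j z * h j z)
    rw [norm_one, sub_sub_cancel, norm_sub_rev 1] at h2
    linarith
  have hS0 : ∀ z ∈ D, ∑ j, f j z * h j z ≠ 0 := by
    intro z hz h0
    have := hS2 z hz
    rw [h0, norm_zero] at this
    norm_num at this
  refine ⟨fun j z => h j z / ∑ i, f i z * h i z, ?_, ?_, ?_⟩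
  · intro j
    simp_rw [div_eq_mul_inv]
    have h1 : DifferentiableOn ℂ (fun z => ∑ i, f i z * h i z) D :=
      DifferentiableOn.fun_sum fun i _ => (hf i).mul (hh i)
    exact (hh j).mul (h1.inv hS0)
  · intro j z hz
    rw [norm_div, div_le_iff₀ (by have := hS2 z hz; linarith)]
    have h1 := hS2 z hz
    have h2 := hhC j z hz
    nlinarith
  · intro z hz
    have : ∀ j, f j z * (h j z / ∑ i, f i z * h i z) = (f j z * h j z) / ∑ i, f i z * h i z := by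
      intro j
      rw [mul_div_assoc]
    simp_rw [this]
    rw [← Finset.sum_div]
    exact div_self (hS0 z hz)

/-- Tube localization on Hartogs domains: if the equation is solvable on all tubes over discs of
relative radius `r`, with a uniform bound, then it is solvable. -/
theorem tube_localization {N : ℕ} (hα : Wt α) {M r C : ℝ} (hr : 0 < r) :
    ∃ C' : ℝ, ∀ f : Fin N → ℂ × F → ℂ, (∀ j, DifferentiableOn ℂ (f j) (hartogs α F)) →
      (∀ j, ∀ p ∈ hartogs α F, ‖f j p‖ ≤ M) →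
      (∀ ζ ∈ ball (0 : ℂ) 1, Solvable f (tube α F r ζ) C) → Solvable f (hartogs α F) C' := by
  -- lower bound on the central disc
  set d : ℝ := 1 / (N * C ^ 2 + 1) with hd
  have hd0 : 0 < d := by positivity
  obtain ⟨K, hK⟩ := discCorona N M d hd0
  obtain ⟨C', hC'⟩ := localization_unif (ι := Fin N) (F := F) hα (C₀ := M) (r := r) (C := C)
    (CH := K) hr
  refine ⟨C', ?_⟩
  intro f hf hM hloc
  have hmem0 : ∀ ζ ∈ ball (0 : ℂ) 1, (ζ, (0 : F)) ∈ hartogs α F := by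
    intro ζ hζ
    rw [mem_hart]
    have : ‖ζ‖ < 1 := by simpa using hζ
    simp only [norm_zero]
    nlinarith [norm_nonneg ζ]
  refine hC' f hf hM ?_ ?_
  · intro ζ hζ
    obtain ⟨h, h1, h2, h3⟩ := hloc ζ hζ
    exact ⟨h, h1, fun j p hp hpb => h2 j p ⟨hp, hpb⟩, fun p hp hpb => h3 p ⟨hp, hpb⟩⟩
  · apply hK
    · intro j
      refine (hf j).comp ?_ hmem0
      fun_prop
    · intro j ζ hζ
      exact hM j _ (hmem0 ζ hζ)
    · intro ζ hζ
      obtain ⟨h, h1, h2, h3⟩ := hloc ζ hζ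
      have hζ1 : ‖ζ‖ < 1 := by simpa using hζ
      have hin : (ζ, (0 : F)) ∈ tube α F r ζ :=
        ⟨hmem0 ζ hζ, mem_ball_self (mul_pos hr (by linarith))⟩
      have h4 := h3 _ hin
      have h5 : (1 : ℝ) ≤ (∑ j, ‖f j (ζ, 0)‖ ^ 2) * (N * C ^ 2) := by
        have h6 : (1 : ℝ) ≤ (∑ j, ‖f j (ζ, 0)‖ * ‖h j (ζ, 0)‖) ^ 2 := by
          have h7 : (1 : ℝ) ≤ ∑ j, ‖f j (ζ, 0)‖ * ‖h j (ζ, 0)‖ := by
            calc (1 : ℝ) = ‖∑ j, f j (ζ, 0) * h j (ζ, 0)‖ := by rw [h4, norm_one]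
              _ ≤ ∑ j, ‖f j (ζ, 0) * h j (ζ, 0)‖ := norm_sum_le _ _
              _ = _ := by simp_rw [norm_mul]
          nlinarith
        refine h6.trans ((Finset.sum_mul_sq_le_sq_mul_sq _ _ _).trans ?_)
        apply mul_le_mul_of_nonneg_left _ (by positivity)
        calc ∑ j, ‖h j (ζ, 0)‖ ^ 2 ≤ ∑ _j : Fin N, C ^ 2 :=
              Finset.sum_le_sum fun j _ => pow_le_pow_left₀ (norm_nonneg _) (h2 j _ hin) 2
          _ = N * C ^ 2 := by
              rw [Finset.sum_const, Finset.card_univ, Fintype.card_fin, nsmul_eq_mul]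
      rw [hd, div_le_iff₀ (by positivity)]
      have h6 : 0 ≤ ∑ j, ‖f j (ζ, 0)‖ ^ 2 := by positivity
      nlinarith

/-! ### Data that are continuous under rotations of the second coordinate -/

section Rot

variable {V : Type*} [NormedAddCommGroup V] [InnerProductSpace ℂ V]

theorem lip_inner {g : V → ℂ} {M q : ℝ} (hM0 : 0 ≤ M) (hg : DifferentiableOn ℂ g (ball 0 1))
    (hM : ∀ v ∈ ball (0 : V) 1, ‖g v‖ ≤ M) (hq : q < 1) {a b : V} (ha : ‖a‖ ≤ q) (hb : ‖b‖ ≤ q) :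
    ‖g b - g a‖ ≤ (2 * M + 1) / (1 - q) * ‖b - a‖ := by
  have hq1 : 0 < 1 - q := by linarith
  have ha1 : a ∈ ball (0 : V) 1 := by rw [mem_ball_zero_iff]; linarith
  have hb1 : b ∈ ball (0 : V) 1 := by rw [mem_ball_zero_iff]; linarith
  have htriv : ‖g b - g a‖ ≤ 2 * M := by
    have := norm_sub_le (g b) (g a)
    linarith [hM a ha1, hM b hb1]
  by_cases hab : 1 - q ≤ ‖b - a‖
  · refine htriv.trans ?_
    rw [div_mul_eq_mul_div, le_div_iff₀ hq1]
    nlinarith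
  push Not at hab
  rcases eq_or_ne b a with rfl | hne
  · simp
  have hpos : 0 < ‖b - a‖ := norm_pos_iff.mpr (sub_ne_zero.mpr hne)
  set R : ℝ := (1 - q) / ‖b - a‖ with hR
  have hR1 : 1 < R := by rw [hR, one_lt_div hpos]; exact hab
  set G : ℂ → ℂ := fun t => g (a + t • (b - a)) with hG
  have hmem : ∀ t ∈ ball (0 : ℂ) R, a + t • (b - a) ∈ ball (0 : V) 1 := by
    intro t ht
    rw [mem_ball_zero_iff] at ht ⊢
    refine (norm_add_le _ _).trans_lt ?_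
    rw [norm_smul]
    have h1 : ‖t‖ * ‖b - a‖ < 1 - q := by
      rw [hR, lt_div_iff₀ hpos] at ht
      exact ht
    linarith
  have hGd : DifferentiableOn ℂ G (ball 0 R) := by
    apply hg.comp
    · fun_prop
    · exact hmem
  have hmaps : MapsTo G (ball 0 R) (closedBall (G 0) (2 * M + 1)) := by
    intro t ht
    rw [mem_closedBall, dist_eq_norm]
    have h1 := hM _ (hmem t ht)
    have h2 := hM _ (hmem 0 (mem_ball_self (by linarith)))
    have h3 := norm_sub_le (G t) (G 0)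
    simp only [hG] at h3 ⊢
    linarith
  have h4 := Complex.dist_le_div_mul_dist_of_mapsTo_ball hGd hmaps
    (z := 1) (by rw [mem_ball_zero_iff, norm_one]; exact hR1)
  rw [dist_eq_norm, dist_eq_norm] at h4
  simp only [hG, one_smul, zero_smul, add_zero, sub_zero, norm_one, mul_one, add_sub_cancel] at h4
  refine h4.trans (le_of_eq ?_)
  rw [hR]
  field_simp

theorem fibre_solv [FiniteDimensional ℂ V] (N : ℕ) (M δ : ℝ) (hδ : 0 < δ) {η ε : ℝ} (hη : 0 < η)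
    (hε : N * ε ^ 2 < δ) :
    ∃ C : ℝ, ∀ g : Fin N → V → ℂ, (∀ j, DifferentiableOn ℂ (g j) (ball 0 1)) →
      (∀ j, ∀ z ∈ ball (0 : V) 1, ‖g j z‖ ≤ M) →
      (∀ z ∈ ball (0 : V) 1, δ ≤ ∑ j, ‖g j z‖ ^ 2) →
      (∀ j, ∀ v ∈ ball (0 : V) 1, ∀ v' ∈ ball (0 : V) 1, ‖v - v'‖ < 2 * η →
        ‖g j v - g j v'‖ ≤ ε) → SolvableOn g (ball 0 1) C := by
  obtain ⟨C, hC⟩ := tame_thm (E := V) discCorona N M δ hδ (fun _ => 0) (fun _ => Fin.elim0)
    (fun _ => Fin.elim0) (fun _ => η) (fun _ => N * ε ^ 2) (fun _ i => i.elim0)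
    (fun _ i => i.elim0) (fun _ i => i.elim0) (fun _ => hη) (fun _ => hε)
  refine ⟨C, fun g hg hM hb hosc => hC g hg hM hb ?_⟩
  intro l _ z₀ hz₀
  have hN : 0 < N := by
    rcases Nat.eq_zero_or_pos N with h | h
    · subst h
      have := hb z₀ hz₀.1
      simp at this
      linarith
    · exact h
  refine ⟨⟨0, hN⟩, fun _ => ε, ?_, ?_⟩
  · rw [Finset.sum_const, nsmul_eq_mul]
    apply mul_le_mul_of_nonneg_right _ (sq_nonneg _)
    have := Finset.card_erase_le (s := (Finset.univ : Finset (Fin N))) (a := ⟨0, hN⟩)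
    rw [Finset.card_univ, Fintype.card_fin] at this
    exact_mod_cast this
  · intro j _ w hw w' hw'
    apply hosc j w hw.1.1 w' hw'.1.1
    have h1 := hw.1.2
    have h2 := hw'.1.2
    rw [mem_ball, dist_eq_norm] at h1 h2
    have h3 := norm_sub_le (w - l) (w' - l)
    rw [sub_sub_sub_cancel_right] at h3
    linarith

/-- `f` is continuous under the rotations of the second coordinate, uniformly on `D`, with
modulus `τ`. -/
def RotCont (f : ℂ × F → ℂ) (D : Set (ℂ × F)) (τ : ℝ → ℝ) : Prop :=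
  ∀ ε > 0, ∀ θ : ℝ, |θ| ≤ τ ε → ∀ p ∈ D, ‖f (p.1, Complex.exp (θ * Complex.I) • p.2) - f p‖ ≤ ε

theorem fibre_mem {ζ : ℂ} (hζ : ‖ζ‖ < 1) {v : F} (hv : ‖v‖ < 1) :
    (ζ, ((Real.sqrt ((1 - ‖ζ‖ ^ 2) * Real.exp (-α ζ)) : ℝ) : ℂ) • v) ∈ hartogs α F := by
  have hpos : 0 < 1 - ‖ζ‖ ^ 2 := by nlinarith [norm_nonneg ζ]
  rw [mem_hart']
  simp only [wt, norm_smul, Complex.norm_real]
  rw [mul_pow, Real.norm_of_nonneg (Real.sqrt_nonneg _), Real.sq_sqrt (by positivity)]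
  have h1 : Real.exp (α ζ) * Real.exp (-α ζ) = 1 := by rw [← Real.exp_add]; simp
  calc Real.exp (α ζ) * ((1 - ‖ζ‖ ^ 2) * Real.exp (-α ζ) * ‖v‖ ^ 2)
      = (Real.exp (α ζ) * Real.exp (-α ζ)) * ((1 - ‖ζ‖ ^ 2) * ‖v‖ ^ 2) := by ring
    _ = (1 - ‖ζ‖ ^ 2) * ‖v‖ ^ 2 := by rw [h1, one_mul]
    _ < (1 - ‖ζ‖ ^ 2) * 1 := by
      apply mul_lt_mul_of_pos_left _ hpos
      nlinarith [norm_nonneg v]
    _ = 1 - ‖ζ‖ ^ 2 := mul_one _

theorem fibre_mem' {ζ : ℂ} (hζ : ‖ζ‖ < 1) {y : F} (hy : (ζ, y) ∈ hartogs α F) :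
    ‖y‖ < Real.sqrt ((1 - ‖ζ‖ ^ 2) * Real.exp (-α ζ)) := by
  have hpos : 0 < 1 - ‖ζ‖ ^ 2 := by nlinarith [norm_nonneg ζ]
  apply Real.lt_sqrt_of_sq_lt
  rw [mem_hart'] at hy
  simp only [wt] at hy
  have h1 : Real.exp (α ζ) * Real.exp (-α ζ) = 1 := by rw [← Real.exp_add]; simp
  calc ‖y‖ ^ 2 = (Real.exp (α ζ) * ‖y‖ ^ 2) * Real.exp (-α ζ) := by
        rw [mul_right_comm, h1, one_mul]
    _ < (1 - ‖ζ‖ ^ 2) * Real.exp (-α ζ) := mul_lt_mul_of_pos_right hy (Real.exp_pos _)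

theorem hart_rot [FiniteDimensional ℂ V] (hα : Wt α)
    (hlip : ∀ x ∈ ball (0 : ℂ) 1, ∀ x' ∈ ball (0 : ℂ) 1, |α x - α x'| ≤ L * ‖x - x'‖) (hL : 0 ≤ L) (N : ℕ) (M δ : ℝ)
    (hδ : 0 < δ) (τ : ℝ → ℝ) (hτ : ∀ ε > 0, 0 < τ ε) :
    ∃ C' : ℝ, ∀ f : Fin N → ℂ × V → ℂ, (∀ j, DifferentiableOn ℂ (f j) (hartogs α V)) →
      (∀ j, ∀ p ∈ hartogs α V, ‖f j p‖ ≤ M) →
      (∀ p ∈ hartogs α V, δ ≤ ∑ j, ‖f j p‖ ^ 2) →
      (∀ j, RotCont (f j) (hartogs α V) τ) → Solvable f (hartogs α V) C' := by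
  set M₀ : ℝ := max M 0 with hM₀
  have hM₀0 : 0 ≤ M₀ := le_max_right _ _
  -- parameters for the fibres
  set ε₁ : ℝ := Real.sqrt (δ / (N + 1)) with hε₁
  have hε₁0 : 0 < ε₁ := Real.sqrt_pos.mpr (by positivity)
  have hε₁1 : N * ε₁ ^ 2 < δ := by
    rw [hε₁, Real.sq_sqrt (by positivity), mul_div_assoc', div_lt_iff₀ (by positivity)]
    nlinarith
  set τ₁ : ℝ := τ (ε₁ / 16) with hτ₁
  have hτ₁0 : 0 < τ₁ := hτ _ (by positivity)
  set s₁ : ℝ := τ₁ * ε₁ / (8 * (M₀ + 1)) with hs₁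
  have hs₁0 : 0 < s₁ := by positivity
  have hs₁1 : M₀ * s₁ / τ₁ ≤ ε₁ / 8 := by
    rw [hs₁, div_le_iff₀ hτ₁0, mul_div_assoc', div_le_iff₀ (by positivity)]
    have : 0 ≤ τ₁ * ε₁ := by positivity
    nlinarith
  set q : ℝ := Real.exp (-s₁) with hq
  have hq1 : q < 1 := by
    rw [hq, Real.exp_lt_one_iff]
    linarith
  have hq0 : 0 < q := Real.exp_pos _
  set η₁ : ℝ := ε₁ * (1 - q) / (8 * (2 * M₀ + 1)) with hη₁
  have hη₁0 : 0 < η₁ := by
    have : 0 < 1 - q := by linarith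
    positivity
  obtain ⟨C₁, hC₁⟩ := fibre_solv (V := V) N M₀ δ hδ hη₁0 hε₁1
  set C : ℝ := max C₁ 0 with hC
  have hC0 : 0 ≤ C := le_max_right _ _
  -- parameters for the tubes
  set e₀ : ℝ := 1 / (2 * (N * C + 1)) with he₀
  have he₀0 : 0 < e₀ := by positivity
  have he₀1 : N * (e₀ * C) ≤ 1 / 2 := by
    rw [he₀]
    have : (N : ℝ) * (1 / (2 * (N * C + 1)) * C) = (N * C) / (2 * (N * C + 1)) := by ring
    rw [this, div_le_iff₀ (by positivity)]
    linarith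
  set τ₂ : ℝ := τ (e₀ / 8) with hτ₂
  have hτ₂0 : 0 < τ₂ := hτ _ (by positivity)
  set s : ℝ := τ₂ * e₀ / (4 * (M₀ + 1)) with hs
  have hs0 : 0 < s := by positivity
  have hs1 : M₀ * s / τ₂ ≤ e₀ / 4 := by
    rw [hs, div_le_iff₀ hτ₂0, mul_div_assoc', div_le_iff₀ (by positivity)]
    have : 0 ≤ τ₂ * e₀ := by positivity
    nlinarith
  set ρ : ℝ := min (1 / 2) (2 * s / (L + 4)) with hρ
  have hρ0 : 0 < ρ := lt_min (by norm_num) (by positivity)
  have hρ1 : ρ ≤ 1 / 2 := min_le_left _ _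
  have hρs : (L + 4) * ρ ≤ 2 * s := by
    have h1 : ρ ≤ 2 * s / (L + 4) := min_le_right _ _
    rw [le_div_iff₀ (by positivity)] at h1
    linarith
  set r : ℝ := min (ρ / 2) (ρ * e₀ / (8 * (2 * M₀ + 1))) with hr
  have hr0 : 0 < r := lt_min (by positivity) (by positivity)
  have hr1 : 2 * r ≤ ρ := by
    have : r ≤ ρ / 2 := min_le_left _ _
    linarith
  have hr2 : (2 * M₀ + 1) * (2 * r) ≤ ρ * (e₀ / 4) := by
    have h1 : r ≤ ρ * e₀ / (8 * (2 * M₀ + 1)) := min_le_right _ _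
    rw [le_div_iff₀ (by positivity)] at h1
    linarith
  obtain ⟨C', hC'⟩ := tube_localization (N := N) (F := V) hα (M := M₀) (C := 2 * C) hr0
  refine ⟨C', ?_⟩
  intro f hf hM hb hrot
  have hMf : ∀ j, ∀ p ∈ hartogs α V, ‖f j p‖ ≤ M₀ := fun j p hp =>
    (hM j p hp).trans (le_max_left _ _)
  apply hC' f hf hMf
  intro ζ hζ
  have hζ1 : ‖ζ‖ < 1 := by simpa using hζ
  -- the fibre over `ζ`
  obtain ⟨φ₀, hφ₀⟩ : ∃ φ₀ : ℝ, φ₀ = Real.sqrt ((1 - ‖ζ‖ ^ 2) * Real.exp (-α ζ)) := ⟨_, rfl⟩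
  have hφ₀0 : 0 < φ₀ := by
    rw [hφ₀]
    have : 0 < 1 - ‖ζ‖ ^ 2 := by nlinarith [norm_nonneg ζ]
    exact Real.sqrt_pos.mpr (by positivity)
  have hmem : ∀ v ∈ ball (0 : V) 1, (ζ, (φ₀ : ℂ) • v) ∈ hartogs α V := by
    intro v hv
    rw [hφ₀]
    exact fibre_mem hζ1 (by simpa using hv)
  have hsc : ∀ (x y : ℝ) (v : V), Complex.exp (-(x : ℂ)) • ((y : ℂ) • v) =
      (y : ℂ) • (Complex.exp (-(x : ℂ)) • v) := fun x y v => smul_comm _ _ _
  have hnexp : ∀ x : ℝ, ‖Complex.exp (-(x : ℂ))‖ = Real.exp (-x) := by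
    intro x
    rw [Complex.norm_exp]; simp
  obtain ⟨H, hH1, hH2, hH3⟩ := hC₁ (fun j v => f j (ζ, (φ₀ : ℂ) • v)) (by
      intro j
      refine (hf j).comp ?_ hmem
      fun_prop) (fun j v hv => hMf j _ (hmem v hv)) (fun v hv => hb _ (hmem v hv)) (by
      intro j v hv v' hv' hvv
      have hfv : DifferentiableOn ℂ (fun v => f j (ζ, (φ₀ : ℂ) • v)) (ball 0 1) := by
        refine (hf j).comp ?_ hmem
        fun_prop
      have r1 : ∀ v ∈ ball (0 : V) 1, ‖f j (ζ, (φ₀ : ℂ) • (Complex.exp (-(s₁ : ℂ)) • v)) -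
          f j (ζ, (φ₀ : ℂ) • v)‖ ≤ ε₁ / 4 := by
        intro v hv
        have h1 := radial hα (hf j) (hMf j) hτ₁0 (fun θ hθ p hp => hrot j (ε₁ / 16)
          (by positivity) θ hθ p hp) (hmem v hv) hs₁0.le
        simp only at h1
        rw [hsc] at h1
        linarith
      have n1 : ∀ v ∈ ball (0 : V) 1, ‖Complex.exp (-(s₁ : ℂ)) • v‖ ≤ q := by
        intro v hv
        rw [norm_smul, hnexp]
        have : ‖v‖ < 1 := by simpa using hv
        nlinarith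
      have r2 := lip_inner (g := fun v => f j (ζ, (φ₀ : ℂ) • v)) hM₀0 hfv
        (fun v hv => hMf j _ (hmem v hv)) hq1 (n1 v' hv') (n1 v hv)
      rw [← smul_sub, norm_smul, hnexp] at r2
      have r3 : (2 * M₀ + 1) / (1 - q) * (Real.exp (-s₁) * ‖v - v'‖) ≤ ε₁ / 4 := by
        have h1 : 0 < 1 - q := by linarith
        have h2 : Real.exp (-s₁) * ‖v - v'‖ ≤ 2 * η₁ := by
          have h3 : Real.exp (-s₁) ≤ 1 := by rw [← hq]; exact hq1.le
          nlinarith [norm_nonneg (v - v')]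
        calc (2 * M₀ + 1) / (1 - q) * (Real.exp (-s₁) * ‖v - v'‖)
            ≤ (2 * M₀ + 1) / (1 - q) * (2 * η₁) := by gcongr
          _ = ε₁ / 4 := by rw [hη₁]; field_simp; ring
      have r4 := r1 v hv
      have r5 := r1 v' hv'
      calc ‖f j (ζ, (φ₀ : ℂ) • v) - f j (ζ, (φ₀ : ℂ) • v')‖
          = ‖(f j (ζ, (φ₀ : ℂ) • (Complex.exp (-(s₁ : ℂ)) • v)) -
              f j (ζ, (φ₀ : ℂ) • (Complex.exp (-(s₁ : ℂ)) • v'))) -
            (f j (ζ, (φ₀ : ℂ) • (Complex.exp (-(s₁ : ℂ)) • v)) - f j (ζ, (φ₀ : ℂ) • v)) +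
            (f j (ζ, (φ₀ : ℂ) • (Complex.exp (-(s₁ : ℂ)) • v')) - f j (ζ, (φ₀ : ℂ) • v'))‖ := by
              congr 1; ring
        _ ≤ ε₁ / 4 + ε₁ / 4 + ε₁ / 4 := by
          refine (norm_add_le _ _).trans (add_le_add ((norm_sub_le _ _).trans (add_le_add ?_ r4)) r5)
          exact r2.trans r3
        _ ≤ ε₁ := by linarith)
  -- points of the tube
  have htube : ∀ p ∈ tube α V r ζ, (ζ, Complex.exp (-(s : ℂ)) • p.2) ∈ hartogs α V ∧
      ∀ j, ‖f j p - f j (ζ, Complex.exp (-(s : ℂ)) • p.2)‖ ≤ e₀ := by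
    rintro p ⟨hp, hpb⟩
    rw [mem_ball, dist_eq_norm] at hpb
    have hx := fst_lt hp
    have h1 : 1 - ‖ζ‖ ≤ 2 * (1 - ‖p.1‖) := by
      have h2 := norm_le_norm_add_norm_sub ζ p.1
      rw [norm_sub_rev] at h2
      have h3 : r ≤ 1 / 2 := by linarith
      have h4 : r * (1 - ‖ζ‖) ≤ 1 / 2 * (1 - ‖ζ‖) :=
        mul_le_mul_of_nonneg_right h3 (by linarith)
      linarith
    have h2 : ‖ζ - p.1‖ < 2 * r * (1 - ‖p.1‖) := by
      rw [norm_sub_rev]
      nlinarith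
    have h3 : ‖ζ - p.1‖ < ρ * (1 - ‖p.1‖) :=
      h2.trans_le (mul_le_mul_of_nonneg_right hr1 (by linarith))
    refine ⟨horiz_mem hlip hL hρ0 hρ1 hρs hp h3, fun j => ?_⟩
    have h4 := radial hα (hf j) (hMf j) hτ₂0 (fun θ hθ p hp => hrot j (e₀ / 8)
          (by positivity) θ hθ p hp) hp hs0.le
    have h5 := horiz_osc hα hlip hL (hf j) (hMf j) hρ0 hρ1 hρs hp h3
    have h6 : (2 * M₀ + 1) / (ρ * (1 - ‖p.1‖)) * ‖ζ - p.1‖ ≤ e₀ / 4 := by
      have h7 : 0 < 1 - ‖p.1‖ := by linarith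
      rw [div_mul_eq_mul_div, div_le_iff₀ (by positivity)]
      calc (2 * M₀ + 1) * ‖ζ - p.1‖ ≤ (2 * M₀ + 1) * (2 * r * (1 - ‖p.1‖)) :=
            mul_le_mul_of_nonneg_left h2.le (by positivity)
        _ = ((2 * M₀ + 1) * (2 * r)) * (1 - ‖p.1‖) := by ring
        _ ≤ (ρ * (e₀ / 4)) * (1 - ‖p.1‖) := mul_le_mul_of_nonneg_right hr2 h7.le
        _ = e₀ / 4 * (ρ * (1 - ‖p.1‖)) := by ring
    calc ‖f j p - f j (ζ, Complex.exp (-(s : ℂ)) • p.2)‖
        = ‖(f j (ζ, Complex.exp (-(s : ℂ)) • p.2) - f j (p.1, Complex.exp (-(s : ℂ)) • p.2)) +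
            (f j (p.1, Complex.exp (-(s : ℂ)) • p.2) - f j p)‖ := by
          rw [norm_sub_rev]; congr 1; ring
      _ ≤ e₀ / 4 + (2 * (e₀ / 8) + e₀ / 4) :=
          (norm_add_le _ _).trans (add_le_add (h5.trans h6) (h4.trans (by linarith)))
      _ ≤ e₀ := by linarith
  have hv : ∀ p ∈ tube α V r ζ, ((Real.exp (-s) / φ₀ : ℝ) : ℂ) • p.2 ∈ ball (0 : V) 1 := by
    intro p hp
    have h1 := fibre_mem' hζ1 (htube p hp).1
    rw [← hφ₀, norm_smul, hnexp] at h1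
    rw [mem_ball_zero_iff, norm_smul, Complex.norm_real, Real.norm_of_nonneg (by positivity),
      div_mul_eq_mul_div, div_lt_one hφ₀0]
    exact h1
  have hvv : ∀ p : ℂ × V, (φ₀ : ℂ) • (((Real.exp (-s) / φ₀ : ℝ) : ℂ) • p.2) =
      Complex.exp (-(s : ℂ)) • p.2 := by
    intro p
    rw [smul_smul]
    congr 1
    have hφc : (φ₀ : ℂ) ≠ 0 := by exact_mod_cast hφ₀0.ne'
    push_cast
    field_simp
  have hmono : ∀ j, DifferentiableOn ℂ (f j) (tube α V r ζ) := fun j =>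
    (hf j).mono fun p hp => hp.1
  refine Solvable.of_approx (g := fun j p => f j (ζ, Complex.exp (-(s : ℂ)) • p.2))
    (h := fun j p => H j (((Real.exp (-s) / φ₀ : ℝ) : ℂ) • p.2)) hC0 he₀0.le hmono ?_ ?_ ?_
    (fun j p hp => (htube p hp).2 j) he₀1
  · intro j
    refine (hH1 j).comp ?_ hv
    fun_prop
  · intro j p hp
    exact (hH2 j _ (hv p hp)).trans (le_max_left _ _)
  · intro p hp
    have := hH3 _ (hv p hp)
    simp only [hvv] at this
    exact this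

end Rot

/-! ### One arbitrary function -/

theorem solvable_of_lower {N : ℕ} {f : Fin N → ℂ × F → ℂ} {D : Set (ℂ × F)} (j : Fin N) {s : ℝ}
    (hs : 0 < s) (hf : DifferentiableOn ℂ (f j) D) (h : ∀ z ∈ D, s ≤ ‖f j z‖) :
    Solvable f D (1 / s) := by
  classical
  have hne : ∀ z ∈ D, f j z ≠ 0 := fun z hz => norm_pos_iff.mp (hs.trans_le (h z hz))
  refine ⟨fun i z => if i = j then (f j z)⁻¹ else 0, ?_, ?_, ?_⟩
  · intro i
    by_cases hij : i = j
    · simp only [hij, if_true]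
      exact hf.inv hne
    · simp only [hij, if_false]
      exact differentiableOn_const _
  · intro i z hz
    by_cases hij : i = j
    · simp only [hij, if_true]
      rw [norm_inv, one_div]
      exact inv_anti₀ hs (h z hz)
    · simp only [hij, if_false, norm_zero]
      positivity
  · intro z hz
    simp only [mul_ite, mul_zero, Finset.sum_ite_eq', Finset.mem_univ, if_true]
    exact mul_inv_cancel₀ (hne z hz)

/-- On the Hartogs domain, all but one of the data are functions of the first coordinate, the last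
one is an arbitrary bounded holomorphic function. -/
theorem hart_ridge (hα : Wt α) (N : ℕ) (M δ : ℝ) (hδ : 0 < δ) :
    ∃ C' : ℝ, ∀ (f : Fin N → ℂ × F → ℂ) (j₀ : Fin N),
      (∀ j, DifferentiableOn ℂ (f j) (hartogs α F)) →
      (∀ j, ∀ p ∈ hartogs α F, ‖f j p‖ ≤ M) →
      (∀ p ∈ hartogs α F, δ ≤ ∑ j, ‖f j p‖ ^ 2) →
      (∀ j ≠ j₀, ∀ p ∈ hartogs α F, f j p = f j (p.1, 0)) → Solvable f (hartogs α F) C' := by
  classical
  set M₀ : ℝ := max M 0 with hM₀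
  have hM₀0 : 0 ≤ M₀ := le_max_right _ _
  set s : ℝ := Real.sqrt (δ / (16 * (N + 1))) with hs
  have hs0 : 0 < s := Real.sqrt_pos.mpr (by positivity)
  have hs2 : s ^ 2 = δ / (16 * (N + 1)) := Real.sq_sqrt (by positivity)
  set r : ℝ := min (1 / 2) (s / (4 * (2 * M₀ + 1))) with hr
  have hr0 : 0 < r := lt_min (by norm_num) (by positivity)
  have hr1 : r ≤ 1 / 2 := min_le_left _ _
  have hr2 : (2 * M₀ + 1) * (4 * r) ≤ s := by
    have h1 : r ≤ s / (4 * (2 * M₀ + 1)) := min_le_right _ _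
    rw [le_div_iff₀ (by positivity)] at h1
    linarith
  set t : ℝ := Real.sqrt (δ / 4) with ht
  have ht0 : 0 < t := Real.sqrt_pos.mpr (by positivity)
  obtain ⟨C', hC'⟩ := tube_localization (N := N) (F := F) hα (M := M) (C := max (1 / s) (1 / t)) hr0
  refine ⟨C', ?_⟩
  intro f j₀ hf hM hb hridge
  have hMf : ∀ j, ∀ p ∈ hartogs α F, ‖f j p‖ ≤ M₀ := fun j p hp =>
    (hM j p hp).trans (le_max_left _ _)
  have hmem0 : ∀ ζ ∈ ball (0 : ℂ) 1, (ζ, (0 : F)) ∈ hartogs α F := by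
    intro ζ hζ
    rw [mem_hart]
    have : ‖ζ‖ < 1 := by simpa using hζ
    simp only [norm_zero]
    nlinarith [norm_nonneg ζ]
  apply hC' f hf hM
  intro ζ hζ
  have hζ1 : ‖ζ‖ < 1 := by simpa using hζ
  have hR : 0 < 1 - ‖ζ‖ := by linarith
  -- oscillation on the tube
  have hosc : ∀ j ≠ j₀, ∀ p ∈ tube α F r ζ, ‖f j p - f j (ζ, 0)‖ ≤ s := by
    rintro j hj p ⟨hp, hpb⟩
    rw [hridge j hj p hp]
    set g : ℂ → ℂ := fun x => f j (x, 0) with hg
    have hsub : ball ζ (1 / 2 * (1 - ‖ζ‖)) ⊆ ball (0 : ℂ) 1 := by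
      intro x hx
      rw [mem_ball, dist_eq_norm] at hx
      rw [mem_ball_zero_iff]
      have := norm_le_norm_add_norm_sub ζ x
      rw [norm_sub_rev] at this
      linarith
    have hgd : DifferentiableOn ℂ g (ball ζ (1 / 2 * (1 - ‖ζ‖))) := by
      refine (hf j).comp (by fun_prop) fun x hx => hmem0 x (hsub hx)
    have hmaps : MapsTo g (ball ζ (1 / 2 * (1 - ‖ζ‖))) (closedBall (g ζ) (2 * M₀ + 1)) := by
      intro x hx
      rw [mem_closedBall, dist_eq_norm]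
      have h1 := hMf j _ (hmem0 x (hsub hx))
      have h2 := hMf j _ (hmem0 ζ hζ)
      have h3 := norm_sub_le (g x) (g ζ)
      simp only [hg] at h3 ⊢
      linarith
    have hx : p.1 ∈ ball ζ (1 / 2 * (1 - ‖ζ‖)) :=
      ball_subset_ball (mul_le_mul_of_nonneg_right hr1 hR.le) hpb
    have h4 := Complex.dist_le_div_mul_dist_of_mapsTo_ball hgd hmaps hx
    rw [dist_eq_norm, dist_eq_norm] at h4
    rw [mem_ball, dist_eq_norm] at hpb
    refine h4.trans ?_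
    calc (2 * M₀ + 1) / (1 / 2 * (1 - ‖ζ‖)) * ‖p.1 - ζ‖
        ≤ (2 * M₀ + 1) / (1 / 2 * (1 - ‖ζ‖)) * (r * (1 - ‖ζ‖)) := by gcongr
      _ = (2 * M₀ + 1) * (2 * r) := by field_simp
      _ ≤ (2 * M₀ + 1) * (4 * r) := by
        apply mul_le_mul_of_nonneg_left (by linarith) (by positivity)
      _ ≤ s := hr2
  have hup : ∀ {C : ℝ}, Solvable f (tube α F r ζ) C → C ≤ max (1 / s) (1 / t) →
      Solvable f (tube α F r ζ) (max (1 / s) (1 / t)) := by
    rintro C ⟨h, h1, h2, h3⟩ hC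
    exact ⟨h, h1, fun j z hz => (h2 j z hz).trans hC, h3⟩
  have hmono : ∀ j, DifferentiableOn ℂ (f j) (tube α F r ζ) := fun j =>
    (hf j).mono fun p hp => hp.1
  by_cases hcase : ∃ j, j ≠ j₀ ∧ 2 * s ≤ ‖f j (ζ, 0)‖
  · obtain ⟨j, hj, hle⟩ := hcase
    apply hup (solvable_of_lower j hs0 (hmono j) ?_) (le_max_left _ _)
    intro p hp
    have h1 := hosc j hj p hp
    have h2 := norm_sub_norm_le (f j (ζ, 0)) (f j p)
    rw [norm_sub_rev] at h2
    linarith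
  · push Not at hcase
    apply hup (solvable_of_lower j₀ ht0 (hmono j₀) ?_) (le_max_right _ _)
    intro p hp
    have h1 := hb p hp.1
    rw [← Finset.add_sum_erase _ _ (Finset.mem_univ j₀)] at h1
    have h2 : ∑ j ∈ Finset.univ.erase j₀, ‖f j p‖ ^ 2 ≤ N * (9 * s ^ 2) := by
      calc ∑ j ∈ Finset.univ.erase j₀, ‖f j p‖ ^ 2
          ≤ ∑ _j ∈ Finset.univ.erase j₀, 9 * s ^ 2 := by
            apply Finset.sum_le_sum
            intro j hj
            have hj' := Finset.ne_of_mem_erase hj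
            have h3 := hosc j hj' p hp
            have h4 := hcase j hj'
            have h5 := norm_le_norm_add_norm_sub (f j (ζ, 0)) (f j p)
            rw [norm_sub_rev] at h5
            have h6 : ‖f j p‖ ≤ 3 * s := by linarith
            calc ‖f j p‖ ^ 2 ≤ (3 * s) ^ 2 := pow_le_pow_left₀ (norm_nonneg _) h6 2
              _ = 9 * s ^ 2 := by ring
        _ = ((Finset.univ.erase j₀).card : ℝ) * (9 * s ^ 2) := by
            rw [Finset.sum_const, nsmul_eq_mul]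
        _ ≤ N * (9 * s ^ 2) := by
            apply mul_le_mul_of_nonneg_right _ (by positivity)
            have := Finset.card_erase_le (s := (Finset.univ : Finset (Fin N))) (a := j₀)
            rw [Finset.card_univ, Fintype.card_fin] at this
            exact_mod_cast this
    have h3 : (N : ℝ) * (9 * s ^ 2) ≤ 3 / 4 * δ := by
      rw [hs2]
      have : (N : ℝ) * (9 * (δ / (16 * (N + 1)))) = 9 * δ * N / (16 * (N + 1)) := by ring
      rw [this, div_le_iff₀ (by positivity)]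
      nlinarith
    have h4 : δ / 4 ≤ ‖f j₀ p‖ ^ 2 := by linarith
    calc t = Real.sqrt (δ / 4) := ht
      _ ≤ Real.sqrt (‖f j₀ p‖ ^ 2) := Real.sqrt_le_sqrt h4
      _ = ‖f j₀ p‖ := Real.sqrt_sq (norm_nonneg _)

end Hart

end Pool.Agent.Lib.MP_ca0fc2_an
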