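import Mathlib
import Pool.Agent.Lib.MP_ca0fc2_an.Mg.G059

/-! Functions which are algebraic over a set of functions, and functions which satisfy an analytic
equation over it. -/

set_option autoImplicit false

open Metric Set

namespace Pool.Agent.Lib.MP_ca0fc2_an

section

variable {E : Type*} [NormedAddCommGroup E] [NormedSpace ℂ E]

/-- The bounded holomorphic functions `g` on the unit ball which are algebraic over `R`: they satisfy
an equation `a₀ + a₁ g + ... + aₘ gᵐ = 0` with coefficients in `R` which is nowhere degenerate: the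
sum `|a₀| + ... + |aₘ|` is bounded below on the ball. -/
def AlgOver (R : Set (E → ℂ)) : Set (E → ℂ) :=
  {g | DifferentiableOn ℂ g (ball 0 1) ∧ (∃ M : ℝ, ∀ z ∈ ball (0 : E) 1, ‖g z‖ ≤ M) ∧
    ∃ (m : ℕ) (a : Fin (m + 1) → E → ℂ) (c : ℝ), 0 < c ∧ (∀ k, a k ∈ R) ∧
      (∀ z ∈ ball (0 : E) 1, c ≤ ∑ k, ‖a k z‖) ∧
      ∀ z ∈ ball (0 : E) 1, ∑ k, a k z * g z ^ (k : ℕ) = 0}

/-- The bounded holomorphic functions `g` on the unit ball which satisfy an analytic equation over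
`R`: an equation `a₀ + a₁ g + a₂ g² + ... = 0` with coefficients in `R` such that
`∑ k, (sup |aₖ|) ρᵏ` converges for some `ρ > sup |g|`, and which is nowhere degenerate: the sum
`∑ k, |aₖ| ρᵏ` is bounded below on the ball. -/
def AnalyticOver (R : Set (E → ℂ)) : Set (E → ℂ) :=
  {g | DifferentiableOn ℂ g (ball 0 1) ∧
    ∃ (a : ℕ → E → ℂ) (A : ℕ → ℝ) (M ρ c : ℝ), M < ρ ∧ 0 < c ∧ (∀ k, a k ∈ R) ∧
      (∀ z ∈ ball (0 : E) 1, ‖g z‖ ≤ M) ∧ (∀ k, ∀ z ∈ ball (0 : E) 1, ‖a k z‖ ≤ A k) ∧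
      (Summable fun k => A k * ρ ^ k) ∧
      (∀ z ∈ ball (0 : E) 1, c ≤ ∑' k, ‖a k z‖ * ρ ^ k) ∧
      ∀ z ∈ ball (0 : E) 1, ∑' k, a k z * g z ^ k = 0}

/-- The bounded holomorphic functions `g` on the unit ball such that for every `ε > 0` there are
finitely many functions `aᵢ` in `S` and `ρ > 0` such that the oscillation of `g` is at most `ε` on
every connected subset of the ball on which the oscillation of each `aᵢ` is at most `ρ`. -/
def Hull (S : Set (E → ℂ)) : Set (E → ℂ) :=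
  {g | DifferentiableOn ℂ g (ball 0 1) ∧ (∃ M : ℝ, ∀ z ∈ ball (0 : E) 1, ‖g z‖ ≤ M) ∧
    ∀ ε : ℝ, 0 < ε → ∃ (k : ℕ) (a : Fin k → E → ℂ) (ρ : ℝ), 0 < ρ ∧ (∀ i, a i ∈ S) ∧
      ∀ C : Set E, C ⊆ ball 0 1 → IsPreconnected C →
        (∀ i, ∀ z ∈ C, ∀ w ∈ C, ‖a i z - a i w‖ ≤ ρ) → ∀ z ∈ C, ∀ w ∈ C, ‖g z - g w‖ ≤ ε}

end

/-- The smallest closed algebra of bounded holomorphic functions on the unit ball of `ℂⁿ` which
contains `S` and contains every bounded holomorphic function which satisfies an analytic equation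
over it. -/
def AnalyticClosure {n : ℕ} (S : Set (EuclideanSpace ℂ (Fin n) → ℂ)) :
    Set (EuclideanSpace ℂ (Fin n) → ℂ) :=
  ⋂₀ {T | S ⊆ T ∧ ClosedAlg T ⊆ T ∧ AnalyticOver T ⊆ T}

end Pool.Agent.Lib.MP_ca0fc2_an
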