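import Mathlib
import Pool.Agent.Lib.MP_ca0fc2_an.Mg.G063
import Pool.Agent.Lib.MP_ca0fc2_an.MGAlg

/-! Joint cluster values of functions which are algebraic over the closed algebra generated by the
tame functions and by bounded functions on larger domains. -/

set_option autoImplicit false

open Metric Set MeasureTheory Filter Topology
open scoped InnerProductSpace

namespace Pool.Agent.MPca0fc2.IN

open Pool.Agent.Lib.MP_ca0fc2_an
open Pool.Agent.MPca0fc2.CP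
open Pool.Agent.MPca0fc2.MG
open Pool.Agent.MPca0fc2.UG (finset_bd)
open Pool.Agent.MPca0fc2.SV (near dom ball_subset_dom solvable_empty)

variable {n : ℕ}

theorem solv_reindex {E : Type*} [NormedAddCommGroup E] [InnerProductSpace ℂ E]
    {Y : Type*} [Fintype Y] {N : ℕ} (e : Y ≃ Fin N) {v h : Y → E → ℂ} {D : Set E} {C : ℝ}
    (hd : ∀ y, DifferentiableOn ℂ (h y) D) (hb : ∀ y, ∀ z ∈ D, ‖h y z‖ ≤ C)
    (hs : ∀ z ∈ D, ∑ y, v y z * h y z = 1) : SolvableOn (fun (a : Fin N) z => v (e.symm a) z) D C :=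
  ⟨fun a => h (e.symm a), fun a => hd _, fun a z hz => hb _ z hz, fun z hz => by
    rw [← hs z hz]
    exact Equiv.sum_comp e.symm (fun y => v y z * h y z)⟩

theorem solv_single {E : Type*} [NormedAddCommGroup E] [InnerProductSpace ℂ E]
    {Y : Type*} [Fintype Y] {N : ℕ} (e : Y ≃ Fin N) {v : Y → E → ℂ} {D : Set E} {c C : ℝ}
    (hc : 0 < c) (hC : 1 / c ≤ C) (y₀ : Y) (hv : DifferentiableOn ℂ (v y₀) D)
    (hlow : ∀ z ∈ D, c ≤ ‖v y₀ z‖) : SolvableOn (fun (a : Fin N) z => v (e.symm a) z) D C := by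
  classical
  have hne : ∀ z ∈ D, v y₀ z ≠ 0 := by
    intro z hz h
    have := hlow z hz
    rw [h, norm_zero] at this
    linarith
  have hC0 : 0 ≤ C := le_trans (by positivity) hC
  refine solv_reindex e (h := fun y z => if y = y₀ then (v y₀ z)⁻¹ else 0) ?_ ?_ ?_
  · intro y
    by_cases hy : y = y₀
    · simp only [hy, if_true]
      exact hv.fun_inv hne
    · simp only [hy, if_false]
      exact differentiableOn_const _
  · intro y z hz
    by_cases hy : y = y₀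
    · simp only [hy, if_true]
      rw [norm_inv]
      refine le_trans ?_ hC
      rw [one_div]
      exact inv_anti₀ hc (hlow z hz)
    · simp only [hy, if_false, norm_zero]
      exact hC0
  · intro z hz
    rw [Finset.sum_eq_single y₀]
    · simp only [if_true]
      exact mul_inv_cancel₀ (hne z hz)
    · intro y _ hy
      simp only [hy, if_false, mul_zero]
    · intro h
      exact absurd (Finset.mem_univ _) h

/-- The solution near a boundary point: all the functions but one vary little. -/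
theorem local_solve {E : Type*} [NormedAddCommGroup E] [InnerProductSpace ℂ E]
    {Y : Type*} [Fintype Y] {N N' : ℕ} (e : (Y ⊕ Fin N) ≃ Fin N') {v : Y → E → ℂ}
    {w : Fin N → E → ℂ} {D : Set E} {ε₃ C C₁ : ℝ} (hε₃ : 0 < ε₃) (hC1 : 1 / ε₃ ≤ C)
    (hv : ∀ y, DifferentiableOn ℂ (v y) D) {b : E} (T : Y → Prop)
    (hT : ∀ y, T y → ∀ z ∈ D, ‖v y z - v y b‖ ≤ ε₃)
    (hvar : ∀ y y', y ≠ y' → (∀ z ∈ D, ‖v y z - v y b‖ ≤ ε₃) ∨ ∀ z ∈ D, ‖v y' z - v y' b‖ ≤ ε₃)
    (hC₁ : C₁ ≤ C)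
    (hloc : ∀ x : E → ℂ, DifferentiableOn ℂ x D →
      (∀ y, (∀ z ∈ D, v y z = x z) ∨ ∀ z ∈ D, ‖v y z‖ ≤ 3 * ε₃) →
      (∀ y, T y → ∀ z ∈ D, ‖v y z‖ ≤ 3 * ε₃) →
      ∃ (h₀ : E → ℂ) (h : Fin N → E → ℂ), DifferentiableOn ℂ h₀ D ∧
        (∀ j, DifferentiableOn ℂ (h j) D) ∧ (∀ z ∈ D, ‖h₀ z‖ ≤ C₁) ∧
        (∀ j, ∀ z ∈ D, ‖h j z‖ ≤ C₁) ∧ ∀ z ∈ D, x z * h₀ z + ∑ j, w j z * h j z = 1) :
    SolvableOn (fun (a : Fin N') z => Sum.elim v w (e.symm a) z) D C := by
  classical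
  have hC0 : 0 < C := lt_of_lt_of_le (by positivity) hC1
  -- a function which varies little and is not small solves the problem
  by_cases h1 : ∃ y, (∀ z ∈ D, ‖v y z - v y b‖ ≤ ε₃) ∧ 2 * ε₃ ≤ ‖v y b‖
  · obtain ⟨y, hy, hyb⟩ := h1
    refine solv_single e (v := Sum.elim v w) hε₃ hC1 (Sum.inl y) (hv y) fun z hz => ?_
    show ε₃ ≤ ‖v y z‖
    have h2 := hy z hz
    have h3 : ‖v y b‖ ≤ ‖v y z‖ + ‖v y z - v y b‖ := by
      calc ‖v y b‖ = ‖v y z - (v y z - v y b)‖ := by congr 1; ring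
        _ ≤ _ := norm_sub_le _ _
    linarith
  · push Not at h1
    have hsm : ∀ y, (∀ z ∈ D, ‖v y z - v y b‖ ≤ ε₃) → ∀ z ∈ D, ‖v y z‖ ≤ 3 * ε₃ := by
      intro y hy z hz
      have h2 := hy z hz
      have h3 := h1 y hy
      calc ‖v y z‖ = ‖(v y z - v y b) + v y b‖ := by rw [sub_add_cancel]
        _ ≤ _ := norm_add_le _ _
        _ ≤ _ := by linarith
    by_cases h2 : ∃ y₀, ¬ ∀ z ∈ D, ‖v y₀ z - v y₀ b‖ ≤ ε₃
    · obtain ⟨y₀, hy₀⟩ := h2
      obtain ⟨h₀, h, hd0, hd, hb0, hbb, hs⟩ := hloc (v y₀) (hv y₀) (by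
        intro y
        by_cases hy : y = y₀
        · exact Or.inl fun z _ => by rw [hy]
        · exact Or.inr (hsm y ((hvar y y₀ hy).resolve_right hy₀)))
        (fun y hy => hsm y (hT y hy))
      refine solv_reindex e (v := Sum.elim v w)
        (h := Sum.elim (fun y => if y = y₀ then h₀ else fun _ => 0) h) ?_ ?_ ?_
      · rintro (y | j)
        · simp only [Sum.elim_inl]
          by_cases hy : y = y₀
          · simp only [hy, if_true]; exact hd0
          · simp only [hy, if_false]; exact differentiableOn_const _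
        · exact hd j
      · rintro (y | j) z hz
        · simp only [Sum.elim_inl]
          by_cases hy : y = y₀
          · simp only [hy, if_true]; exact (hb0 z hz).trans hC₁
          · simp only [hy, if_false, norm_zero]; exact hC0.le
        · exact (hbb j z hz).trans hC₁
      · intro z hz
        rw [Fintype.sum_sum_type]
        simp only [Sum.elim_inl, Sum.elim_inr]
        rw [← hs z hz]
        congr 1
        rw [Finset.sum_eq_single y₀]
        · simp only [if_true]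
        · intro y _ hy
          simp only [hy, if_false, mul_zero]
        · intro h
          exact absurd (Finset.mem_univ _) h
    · push Not at h2
      obtain ⟨h₀, h, hd0, hd, hb0, hbb, hs⟩ := hloc (fun _ => 0) (differentiableOn_const _)
        (fun y => Or.inr (hsm y (h2 y))) (fun y _ => hsm y (h2 y))
      refine solv_reindex e (v := Sum.elim v w) (h := Sum.elim (fun _ _ => 0) h) ?_ ?_ ?_
      · rintro (y | j)
        · exact differentiableOn_const _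
        · exact hd j
      · rintro (y | j) z hz
        · simp only [Sum.elim_inl, norm_zero]; exact hC0.le
        · exact (hbb j z hz).trans hC₁
      · intro z hz
        rw [Fintype.sum_sum_type]
        simp only [Sum.elim_inl, Sum.elim_inr, mul_zero, Finset.sum_const_zero, zero_add]
        have := hs z hz
        simpa using this

/-- Joint cluster values of functions which are algebraic over the functions `F i` and the tame
functions `u k`. -/
theorem cluster_alg (hn : 2 ≤ n) {I ι κ : Type*} (Φ : Char I (EuclideanSpace ℂ (Fin n)))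
    (r : ι → EuclideanSpace ℂ (Fin n) → ℝ) (L M : ι → ℝ)
    (hrL : ∀ j z w, |r j z - r j w| ≤ L j * ‖z - w‖)
    (hap : ∀ i j, i ≠ j → Apart (r i) (r j)) (K p : κ → ℝ) (ω : κ → ℝ → ℝ)
    (hp : ∀ k, 1 ≤ p k) (hω : ∀ k, Rate (ω k))
    (F : ι → I → EuclideanSpace ℂ (Fin n) → ℂ)
    (hF : ∀ i x, DifferentiableOn ℂ (F i x) (dom (r i)))
    (hFM : ∀ i x, ∀ z ∈ dom (r i), ‖F i x z‖ ≤ M i)
    (u : κ → I → EuclideanSpace ℂ (Fin n) → ℂ) (hu : ∀ k x, Gen6 (K k) (p k) (ω k) (u k x))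
    {N : ℕ} (G : Fin N → I → EuclideanSpace ℂ (Fin n) → ℂ) (hG : ∀ j, BH (G j))
    (S : Fin N → Polynomial ℂ) (hS : ∀ j, S j ≠ 0)
    (hnear : ∀ j, ∀ θ : ℝ, 0 < θ → ∃ (J : Finset ι) (J' : Finset κ) (ε C : ℝ), 0 < ε ∧
      ∀ (t : I) (D : Set (EuclideanSpace ℂ (Fin n))) (x : EuclideanSpace ℂ (Fin n) → ℂ),
        D ⊆ ball 0 1 → DifferentiableOn ℂ x D →
        (∀ i ∈ J, (∀ z ∈ D, F i t z - Φ.φ (F i) = x z) ∨
          ∀ z ∈ D, ‖F i t z - Φ.φ (F i)‖ ≤ ε) →
        (∀ k ∈ J', ∀ z ∈ D, ‖u k t z - Φ.φ (u k)‖ ≤ ε) →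
        ∃ Ψ : EuclideanSpace ℂ (Fin n) → ℂ, DifferentiableOn ℂ Ψ D ∧ (∀ z ∈ D, ‖Ψ z‖ ≤ C) ∧
          ∀ z ∈ D, ‖(S j).eval (G j t z) - x z * Ψ z‖ ≤ θ)
    {ε : ℝ} (hε : 0 < ε) :
    ∃ t : I, ∃ z ∈ ball (0 : EuclideanSpace ℂ (Fin n)) 1, ∀ j, ‖G j t z - Φ.φ (G j)‖ < ε := by
  classical
  by_contra hcon
  push Not at hcon
  choose A hA using fun k => gen6_bdd_unif (n := n) (K k) (hp k)
  have hBF : ∀ i, BH (F i) := fun i => ⟨fun x => (hF i x).mono (ball_subset_dom (r i)), M i,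
    fun x z hz => hFM i x z (ball_subset_dom (r i) hz)⟩
  have hBu : ∀ k, BH (u k) := fun k => ⟨fun x => (hA k _ _ (hu k x)).1, A k,
    fun x z hz => (hA k _ _ (hu k x)).2 z hz⟩
  obtain ⟨g, hg⟩ : ∃ g : Fin N → ℂ, g = fun j => Φ.φ (G j) := ⟨_, rfl⟩
  have hlow : ∀ (t : I), ∀ z ∈ ball (0 : EuclideanSpace ℂ (Fin n)) 1,
      ε ^ 2 ≤ ∑ j, ‖G j t z - g j‖ ^ 2 := by
    intro t z hz
    obtain ⟨j, hj⟩ := hcon t z hz
    have h2 := Finset.single_le_sum (f := fun j => ‖G j t z - g j‖ ^ 2)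
      (fun _ _ => by positivity) (Finset.mem_univ j)
    refine le_trans (pow_le_pow_left₀ hε.le ?_ 2) h2
    rw [hg]
    exact hj
  obtain ⟨MG, hMG⟩ : ∃ MG : ℝ, ∀ j t, ∀ z ∈ ball (0 : EuclideanSpace ℂ (Fin n)) 1,
      ‖G j t z‖ ≤ MG := by
    choose D' hD' using fun j => (hG j).bdd
    exact ⟨∑ j, |D' j|, fun j x z hz => (hD' j x z hz).trans ((le_abs_self _).trans
      (Finset.single_le_sum (f := fun j => |D' j|) (fun _ _ => abs_nonneg _)
        (Finset.mem_univ j)))⟩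
  -- the local lemma
  obtain ⟨η, hη, hLL⟩ := local_alg (E := EuclideanSpace ℂ (Fin n)) S hS g MG (ε ^ 2)
    (by positivity)
  choose J J' ε₁ C₁ hε₁ hstep using fun j => hnear j η hη
  obtain ⟨JJ, hJJ⟩ : ∃ JJ : Finset ι, JJ = Finset.univ.biUnion J := ⟨_, rfl⟩
  obtain ⟨JJ', hJJ'⟩ : ∃ JJ' : Finset κ, JJ' = Finset.univ.biUnion J' := ⟨_, rfl⟩
  have hsub : ∀ j, J j ⊆ JJ := fun j => by
    rw [hJJ]; exact Finset.subset_biUnion_of_mem J (Finset.mem_univ j)
  have hsub' : ∀ j, J' j ⊆ JJ' := fun j => by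
    rw [hJJ']; exact Finset.subset_biUnion_of_mem J' (Finset.mem_univ j)
  obtain ⟨ε₂, hε₂, -, hε₂j⟩ := SV.fin_pos (ι := Fin N) (P := fun j a => a ≤ ε₁ j)
    (fun _ _ _ _ h1 h2 => h1.trans h2) (fun j => ⟨ε₁ j, hε₁ j, le_rfl⟩)
  obtain ⟨ε₃, hε₃⟩ : ∃ ε₃, ε₃ = ε₂ / 3 := ⟨_, rfl⟩
  have hε₃0 : 0 < ε₃ := by rw [hε₃]; positivity
  obtain ⟨Cm, hCm⟩ : ∃ Cm : ℝ, ∀ j, C₁ j ≤ Cm :=
    ⟨∑ j, |C₁ j|, fun j => (le_abs_self _).trans (Finset.single_le_sum (f := fun j => |C₁ j|)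
      (fun _ _ => abs_nonneg _) (Finset.mem_univ j))⟩
  obtain ⟨CL, hCL⟩ := hLL Cm
  -- common constants
  obtain ⟨ω', hω', hωω⟩ := rate_fin JJ' ω hω
  obtain ⟨q₀, hq₀⟩ := finset_bd JJ' p
  obtain ⟨q, hq⟩ : ∃ q, q = max q₀ 1 := ⟨_, rfl⟩
  have hq1 : 1 ≤ q := by rw [hq]; exact le_max_right _ _
  have hpq : ∀ k ∈ JJ', p k ≤ q := fun k hk => (hq₀ k hk).trans (by rw [hq]; exact le_max_left _ _)
  have hB : ∀ k, ∃ B : ℝ, k ∈ JJ' → ∀ B' ≥ B, ∀ v : EuclideanSpace ℂ (Fin n) → ℂ,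
      Gen6 (K k) (p k) (ω k) v → Gen6 B' q ω' v := by
    intro k
    by_cases hk : k ∈ JJ'
    · obtain ⟨B, hB⟩ := Gen6_unif (n := n) (by omega) (K := K k) (hp k) (hpq k hk)
      exact ⟨B, fun _ B' hB' v hv => hB B' hB' (ω k) ω' (hωω k hk) v hv⟩
    · exact ⟨0, fun h => absurd h hk⟩
  choose B hB using hB
  obtain ⟨B₀, hB₀⟩ := finset_bd JJ' B
  obtain ⟨L₀, hL₀⟩ := finset_bd JJ L
  obtain ⟨M₀, hM₀⟩ := finset_bd JJ M
  -- the lines at the boundary points
  obtain ⟨s, hs⟩ : ∃ s, s = Fintype.card JJ := ⟨_, rfl⟩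
  obtain ⟨eJ⟩ : Nonempty (Fin s ≃ JJ) := by rw [hs]; exact ⟨(Fintype.equivFin _).symm⟩
  obtain ⟨o, ho⟩ : ∃ o : EuclideanSpace ℂ (Fin n), o = EuclideanSpace.single ⟨0, by omega⟩ 1 :=
    ⟨_, rfl⟩
  have ho1 : ‖o‖ = 1 := by rw [ho]; simp
  have hroom : ∀ l : EuclideanSpace ℂ (Fin n), ∃ (m : ℕ) (e : Fin m → EuclideanSpace ℂ (Fin n))
      (φ ψ : Fin m → EuclideanSpace ℂ (Fin n) → EuclideanSpace ℂ (Fin n)) (μ ρ : ℝ),
      0 < μ ∧ 0 < ρ ∧ (∀ k, ‖e k‖ = 1 ∧ IsBallAut (φ k) (ψ k)) ∧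
      (‖l‖ = 1 → ∀ t : I, ∀ D ⊆ ball (0 : EuclideanSpace ℂ (Fin n)) 1 ∩ ball l ρ,
        (∀ k, ∀ b ∈ D, ∀ z ∈ D, near (e k) (φ k) μ b z) →
      ∀ b ∈ D, ∀ i j : JJ, i ≠ j →
        (∀ z ∈ D, ‖F i.1 t z - F i.1 t b‖ ≤ ε₃) ∨ ∀ z ∈ D, ‖F j.1 t z - F j.1 t b‖ ≤ ε₃) := by
    intro l
    by_cases hl : ‖l‖ = 1
    · obtain ⟨m, e, φ, ψ, μ, ρ, h1, h2, h3, h4⟩ := room_lines hl hε₃0 M₀
        (le_max_right L₀ 0) (fun a => r (eJ a).1)
        (fun a z w => (hrL _ z w).trans (mul_le_mul_of_nonneg_right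
          ((hL₀ _ (eJ a).2).trans (le_max_left _ _)) (norm_nonneg _)))
        (fun a b hab => hap _ _ fun h => hab (eJ.injective (Subtype.ext h)))
      refine ⟨m, e, φ, ψ, μ, ρ, h1, h2, h3, fun _ t D hD hnr b hb i j hij => ?_⟩
      have h5 := h4 (fun a => F (eJ a).1 t) (fun a => hF _ t)
        (fun a z hz => (hFM _ t z hz).trans (hM₀ _ (eJ a).2)) D hD hnr b hb (eJ.symm i)
        (eJ.symm j) (fun h => hij (eJ.symm.injective h))
      simpa only [Equiv.apply_symm_apply] using h5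
    · exact ⟨0, fun _ => o, fun _ => id, fun _ => id, 1, 1, one_pos, one_pos,
        fun k => k.elim0, fun h => absurd h hl⟩
  choose m e φ ψ μ ρ hμ hρ he hroom using hroom
  -- the data
  obtain ⟨N', hN'⟩ : ∃ N', N' = Fintype.card ((JJ ⊕ JJ') ⊕ Fin N) := ⟨_, rfl⟩
  obtain ⟨e'⟩ : Nonempty (((JJ ⊕ JJ') ⊕ Fin N) ≃ Fin N') := by
    rw [hN']; exact ⟨Fintype.equivFin _⟩
  obtain ⟨c, hc⟩ : ∃ c : ι → ℂ, c = fun i => Φ.φ (F i) := ⟨_, rfl⟩
  obtain ⟨c', hc'⟩ : ∃ c' : κ → ℂ, c' = fun k => Φ.φ (u k) := ⟨_, rfl⟩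
  obtain ⟨v, hv⟩ : ∃ v : (JJ ⊕ JJ') → I → EuclideanSpace ℂ (Fin n) → ℂ,
    v = Sum.elim (fun i x z => F i.1 x z - c i.1) (fun k x z => u k.1 x z - c' k.1) := ⟨_, rfl⟩
  have hv1 : ∀ i, v (Sum.inl i) = fun x z => F i.1 x z - c i.1 := fun i => by rw [hv]; rfl
  have hv2 : ∀ k, v (Sum.inr k) = fun x z => u k.1 x z - c' k.1 := fun k => by rw [hv]; rfl
  obtain ⟨w, hw⟩ : ∃ w : Fin N → I → EuclideanSpace ℂ (Fin n) → ℂ,
    w = fun j x z => G j x z - g j := ⟨_, rfl⟩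
  have hBv : ∀ y, BH (v y) := by
    rintro (i | k)
    · rw [hv1]; exact (hBF _).sub (BH.const _)
    · rw [hv2]; exact (hBu _).sub (BH.const _)
  have hBw : ∀ j, BH (w j) := fun j => by rw [hw]; exact (hG j).sub (BH.const _)
  have hΦv : ∀ y, Φ.φ (v y) = 0 := by
    rintro (i | k)
    · rw [hv1, Char.map_sub Φ (hBF _) (BH.const _), Φ.map_const, hc, sub_self]
    · rw [hv2, Char.map_sub Φ (hBu _) (BH.const _), Φ.map_const, hc', sub_self]
  have hΦw : ∀ j, Φ.φ (w j) = 0 := by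
    intro j
    rw [hw, Char.map_sub Φ (hG _) (BH.const _), Φ.map_const, hg, sub_self]
  obtain ⟨D', hD'⟩ : ∃ D', ∀ y x, ∀ z ∈ ball (0 : EuclideanSpace ℂ (Fin n)) 1,
      ‖Sum.elim v w y x z‖ ≤ D' := by
    have hBe : ∀ y, BH (Sum.elim v w y) := by
      rintro (y | j)
      · exact hBv y
      · exact hBw j
    choose D' hD' using fun y => (hBe y).bdd
    exact ⟨∑ y, |D' y|, fun y x z hz => (hD' y x z hz).trans ((le_abs_self _).trans
      (Finset.single_le_sum (f := fun y => |D' y|) (fun _ _ => abs_nonneg _)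
        (Finset.mem_univ y)))⟩
  obtain ⟨d, hd⟩ : ∃ d, d = Fintype.card JJ' := ⟨_, rfl⟩
  obtain ⟨eu⟩ : Nonempty (Fin d ≃ JJ') := by rw [hd]; exact ⟨(Fintype.equivFin _).symm⟩
  obtain ⟨C, hC⟩ := loc_lines hn N' d D' (ε ^ 2) (by positivity) (K := max B₀ 0) (p := q)
    (ρ₀ := ε₃ / 2) (C₀ := max (1 / ε₃) CL) ω' hq1 hω' (by positivity) m ρ μ hρ hμ e φ ψ he
  have hsol : ∀ t : I, SolvableOn (fun (a : Fin N') z => Sum.elim v w (e'.symm a) t z)
      (ball 0 1) C := by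
    intro t
    refine hC _ (fun a => u (eu a).1 t) (fun a => ?_) (fun a z hz => hD' _ t z hz) ?_
      (fun a => hB _ (eu a).2 _ ((hB₀ _ (eu a).2).trans (le_max_left _ _)) _ (hu _ t)) ?_
    · rcases e'.symm a with y | j
      · exact (hBv y).holo t
      · exact (hBw j).holo t
    · intro z hz
      have h1 : ∑ a : Fin N', ‖Sum.elim v w (e'.symm a) t z‖ ^ 2 =
          ∑ y, ‖Sum.elim v w y t z‖ ^ 2 :=
        Equiv.sum_comp e'.symm (fun y => ‖Sum.elim v w y t z‖ ^ 2)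
      rw [h1, Fintype.sum_sum_type]
      simp only [Sum.elim_inl, Sum.elim_inr]
      have h2 : 0 ≤ ∑ y, ‖v y t z‖ ^ 2 := Finset.sum_nonneg fun _ _ => by positivity
      have h3 := hlow t z hz
      rw [hw]
      linarith
    · intro l hl cc D hD hnr
      rcases D.eq_empty_or_nonempty with h0 | ⟨b, hb⟩
      · rw [h0]; exact solvable_empty
      have hDb : ∀ z ∈ D, z ∈ ball (0 : EuclideanSpace ℂ (Fin n)) 1 := fun z hz => (hD hz).1.1
      have hl1 : ‖l‖ = 1 := mem_sphere_zero_iff_norm.mp hl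
      have hT : ∀ k : JJ', ∀ z ∈ D, ‖v (Sum.inr k) t z - v (Sum.inr k) t b‖ ≤ ε₃ := by
        intro k z hz
        have h1 := (hD hz).2 (eu.symm k)
        have h2 := (hD hb).2 (eu.symm k)
        simp only [Equiv.apply_symm_apply] at h1 h2
        rw [hv2]
        beta_reduce
        have e1 : u k.1 t z - c' k.1 - (u k.1 t b - c' k.1) =
            (u k.1 t z - cc (eu.symm k)) - (u k.1 t b - cc (eu.symm k)) := by ring
        rw [e1]
        refine (norm_sub_le _ _).trans ?_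
        linarith
      have hFF : ∀ i j : JJ, i ≠ j →
          (∀ z ∈ D, ‖v (Sum.inl i) t z - v (Sum.inl i) t b‖ ≤ ε₃) ∨
            ∀ z ∈ D, ‖v (Sum.inl j) t z - v (Sum.inl j) t b‖ ≤ ε₃ := by
        intro i j hij
        rw [hv1, hv1]
        simp only [sub_sub_sub_cancel_right]
        exact hroom l hl1 t D (fun z hz => (hD hz).1) hnr b hb i j hij
      have hcomb := local_solve e' (v := fun y => v y t) (w := fun j => w j t) (D := D)
        (ε₃ := ε₃) (C := max (1 / ε₃) CL) (C₁ := CL) hε₃0 (le_max_left _ _)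
        (fun y => ((hBv y).holo t).mono hDb) (b := b)
        (fun y => ∃ k, y = Sum.inr k) (by rintro y ⟨k, rfl⟩; exact hT k) (by
          rintro (i | k) (j | k') hne
          · exact hFF i j fun h => hne (by rw [h])
          · exact Or.inr (hT k')
          · exact Or.inl (hT k)
          · exact Or.inl (hT k)) (le_max_right _ _) (by
          intro x hx h1 h2
          choose Ψ hΨd hΨb hΨ using fun j => hstep j t D x hDb hx (by
            intro i hi
            have h3 := h1 (Sum.inl ⟨i, hsub j hi⟩)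
            rw [hv1, hc] at h3
            refine h3.imp id fun h z hz => (h z hz).trans ?_
            rw [hε₃]
            linarith [hε₂j j]) (by
            intro k hk z hz
            have h3 := h2 (Sum.inr ⟨k, hsub' j hk⟩) ⟨_, rfl⟩ z hz
            rw [hv2, hc'] at h3
            refine h3.trans ?_
            rw [hε₃]
            linarith [hε₂j j])
          obtain ⟨h₀, h, hr⟩ := hCL D x (fun j => G j t) Ψ hx
            (fun j => ((hG j).holo t).mono hDb) hΨd (fun j z hz => hMG j t z (hDb z hz))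
            (fun j z hz => (hΨb j z hz).trans (hCm j)) hΨ (fun z hz => by
              have := hlow t z (hDb z hz)
              have h5 : 0 ≤ ‖x z‖ ^ 2 := by positivity
              linarith)
          refine ⟨h₀, h, ?_⟩
          rw [hw]
          exact hr)
      have hfun : (fun (a : Fin N') z => Sum.elim (fun y => v y t) (fun j => w j t)
          (e'.symm a) z) = fun (a : Fin N') z => Sum.elim v w (e'.symm a) t z := by
        funext a z
        rcases e'.symm a with y | j <;> rfl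
      rw [hfun] at hcomb
      exact hcomb
  choose h hh hhC hsum using hsol
  have hBh : ∀ a, BH (fun x => h x a) := fun a => ⟨fun x => hh x a, C, fun x z hz => hhC x a z hz⟩
  have hBe : ∀ y, BH (Sum.elim v w y) := by
    rintro (y | j)
    · exact hBv y
    · exact hBw j
  have hΦe : ∀ y, Φ.φ (Sum.elim v w y) = 0 := by
    rintro (y | j)
    · exact hΦv y
    · exact hΦw j
  have h1 : Φ.φ (fun x z => ∑ a ∈ Finset.univ, Sum.elim v w (e'.symm a) x z * h x a z) = 0 := by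
    rw [Char.map_sum Φ fun a _ => (hBe (e'.symm a)).mul (hBh a)]
    apply Finset.sum_eq_zero
    intro a _
    rw [Φ.map_mul (hBe _) (hBh a), hΦe, zero_mul]
  have h2 : Φ.φ (fun x z => ∑ a ∈ Finset.univ, Sum.elim v w (e'.symm a) x z * h x a z) = 1 := by
    rw [Char.congr Φ (BH.const (I := I) (E := EuclideanSpace ℂ (Fin n)) 1)
      (fun x z hz => hsum x z hz), Φ.map_const]
  rw [h1] at h2
  exact zero_ne_one h2

end Pool.Agent.MPca0fc2.IN
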