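import Mathlib
import Pool.Agent.Lib.MP_ca0fc2_an.INMain
import Pool.Agent.Lib.MP_ca0fc2_an.INDefs
import Pool.Agent.Lib.MP_ca0fc2_an.TGMain

/-! The functions which, up to small errors, are constant modulo `x` on the small cells. -/

set_option autoImplicit false

open Metric Set MeasureTheory Filter Topology

namespace Pool.Agent.MPca0fc2.IN

open Pool.Agent.Lib.MP_ca0fc2_an

variable {E : Type*} [NormedAddCommGroup E] [NormedSpace ℂ E] {I ι κ : Type*}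

/-- Up to small errors the family `q` is equal to the constant `c` modulo `x` on all sets on which
finitely many of the functions `F i` are equal to `cF i + x` or nearly equal to `cF i`, and finitely
many of the functions `u k` are nearly equal to `cu k`. -/
def NearAt (F : ι → I → E → ℂ) (cF : ι → ℂ) (u : κ → I → E → ℂ) (cu : κ → ℂ)
    (q : I → E → ℂ) (c : ℂ) : Prop :=
  ∀ θ : ℝ, 0 < θ → ∃ (J : Finset ι) (J' : Finset κ) (ε C : ℝ), 0 < ε ∧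
    ∀ (t : I) (D : Set E) (x : E → ℂ), D ⊆ ball 0 1 → DifferentiableOn ℂ x D →
      (∀ i ∈ J, (∀ z ∈ D, F i t z - cF i = x z) ∨ ∀ z ∈ D, ‖F i t z - cF i‖ ≤ ε) →
      (∀ k ∈ J', ∀ z ∈ D, ‖u k t z - cu k‖ ≤ ε) →
      ∃ Ψ : E → ℂ, DifferentiableOn ℂ Ψ D ∧ (∀ z ∈ D, ‖Ψ z‖ ≤ C) ∧
        ∀ z ∈ D, ‖q t z - c - x z * Ψ z‖ ≤ θ

variable {F : ι → I → E → ℂ} {cF : ι → ℂ} {u : κ → I → E → ℂ} {cu : κ → ℂ}

theorem NearAt.const (c : ℂ) : NearAt F cF u cu (fun _ _ => c) c := by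
  intro θ hθ
  refine ⟨∅, ∅, 1, 0, one_pos, fun t D x _ _ _ _ => ⟨fun _ => 0, differentiableOn_const _,
    fun z _ => by simp, fun z _ => ?_⟩⟩
  simp [hθ.le]

theorem NearAt.ofF (i : ι) : NearAt F cF u cu (F i) (cF i) := by
  classical
  intro θ hθ
  refine ⟨{i}, ∅, θ, 1, hθ, fun t D x _ _ h _ => ?_⟩
  rcases h i (Finset.mem_singleton_self i) with h1 | h1
  · refine ⟨fun _ => 1, differentiableOn_const _, fun z _ => by simp, fun z hz => ?_⟩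
    rw [h1 z hz, mul_one, sub_self, norm_zero]
    exact hθ.le
  · refine ⟨fun _ => 0, differentiableOn_const _, fun z _ => by simp, fun z hz => ?_⟩
    rw [mul_zero, sub_zero]
    exact h1 z hz

theorem NearAt.ofu (k : κ) : NearAt F cF u cu (u k) (cu k) := by
  classical
  intro θ hθ
  refine ⟨∅, {k}, θ, 1, hθ, fun t D x _ _ _ h => ?_⟩
  refine ⟨fun _ => 0, differentiableOn_const _, fun z _ => by simp, fun z hz => ?_⟩
  rw [mul_zero, sub_zero]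
  exact h k (Finset.mem_singleton_self k) z hz

/-- The conditions for two families of index sets at the same time. -/
theorem near_two {J₁ J₂ : Finset ι} {ε₁ ε₂ : ℝ} [DecidableEq ι] {t : I} {D : Set E} {x : E → ℂ}
    (h : ∀ i ∈ J₁ ∪ J₂, (∀ z ∈ D, F i t z - cF i = x z) ∨
      ∀ z ∈ D, ‖F i t z - cF i‖ ≤ min ε₁ ε₂) :
    (∀ i ∈ J₁, (∀ z ∈ D, F i t z - cF i = x z) ∨ ∀ z ∈ D, ‖F i t z - cF i‖ ≤ ε₁) ∧
      ∀ i ∈ J₂, (∀ z ∈ D, F i t z - cF i = x z) ∨ ∀ z ∈ D, ‖F i t z - cF i‖ ≤ ε₂ :=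
  ⟨fun i hi => (h i (Finset.mem_union_left _ hi)).imp id
    fun h1 z hz => (h1 z hz).trans (min_le_left _ _),
  fun i hi => (h i (Finset.mem_union_right _ hi)).imp id
    fun h1 z hz => (h1 z hz).trans (min_le_right _ _)⟩

theorem near_two' {J₁ J₂ : Finset κ} {ε₁ ε₂ : ℝ} [DecidableEq κ] {t : I} {D : Set E}
    (h : ∀ k ∈ J₁ ∪ J₂, ∀ z ∈ D, ‖u k t z - cu k‖ ≤ min ε₁ ε₂) :
    (∀ k ∈ J₁, ∀ z ∈ D, ‖u k t z - cu k‖ ≤ ε₁) ∧ ∀ k ∈ J₂, ∀ z ∈ D, ‖u k t z - cu k‖ ≤ ε₂ :=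
  ⟨fun k hk z hz => (h k (Finset.mem_union_left _ hk) z hz).trans (min_le_left _ _),
  fun k hk z hz => (h k (Finset.mem_union_right _ hk) z hz).trans (min_le_right _ _)⟩

theorem NearAt.add {q q' : I → E → ℂ} {c c' : ℂ} (h : NearAt F cF u cu q c)
    (h' : NearAt F cF u cu q' c') :
    NearAt F cF u cu (fun t z => q t z + q' t z) (c + c') := by
  classical
  intro θ hθ
  obtain ⟨J₁, J₁', ε₁, C₁, hε₁, h1⟩ := h (θ / 2) (by positivity)
  obtain ⟨J₂, J₂', ε₂, C₂, hε₂, h2⟩ := h' (θ / 2) (by positivity)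
  refine ⟨J₁ ∪ J₂, J₁' ∪ J₂', min ε₁ ε₂, C₁ + C₂, lt_min hε₁ hε₂, fun t D x hD hx hF hu => ?_⟩
  obtain ⟨Ψ₁, e1, e2, e3⟩ := h1 t D x hD hx (near_two hF).1 (near_two' hu).1
  obtain ⟨Ψ₂, f1, f2, f3⟩ := h2 t D x hD hx (near_two hF).2 (near_two' hu).2
  refine ⟨fun z => Ψ₁ z + Ψ₂ z, e1.add f1, fun z hz => (norm_add_le _ _).trans
    (add_le_add (e2 z hz) (f2 z hz)), fun z hz => ?_⟩
  have : q t z + q' t z - (c + c') - x z * (Ψ₁ z + Ψ₂ z) =
      (q t z - c - x z * Ψ₁ z) + (q' t z - c' - x z * Ψ₂ z) := by ring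
  rw [this]
  refine (norm_add_le _ _).trans ?_
  linarith [e3 z hz, f3 z hz]

theorem NearAt.mul {q q' : I → E → ℂ} {c c' : ℂ} (h : NearAt F cF u cu q c)
    (h' : NearAt F cF u cu q' c') (hq' : BH q') :
    NearAt F cF u cu (fun t z => q t z * q' t z) (c * c') := by
  classical
  intro θ hθ
  obtain ⟨B, hB0, hB⟩ := hq'.bdd'
  obtain ⟨J₁, J₁', ε₁, C₁, hε₁, h1⟩ := h (θ / (2 * B)) (by positivity)
  obtain ⟨J₂, J₂', ε₂, C₂, hε₂, h2⟩ := h' (θ / (2 * (‖c‖ + 1))) (by positivity)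
  refine ⟨J₁ ∪ J₂, J₁' ∪ J₂', min ε₁ ε₂, |C₁| * B + ‖c‖ * |C₂|, lt_min hε₁ hε₂,
    fun t D x hD hx hF hu => ?_⟩
  obtain ⟨Ψ₁, e1, e2, e3⟩ := h1 t D x hD hx (near_two hF).1 (near_two' hu).1
  obtain ⟨Ψ₂, f1, f2, f3⟩ := h2 t D x hD hx (near_two hF).2 (near_two' hu).2
  refine ⟨fun z => Ψ₁ z * q' t z + c * Ψ₂ z,
    (e1.mul ((hq'.holo t).mono hD)).add (f1.const_mul c), fun z hz => ?_, fun z hz => ?_⟩
  · refine (norm_add_le _ _).trans (add_le_add ?_ ?_)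
    · rw [norm_mul]
      exact mul_le_mul ((e2 z hz).trans (le_abs_self _)) (hB t z (hD hz)) (norm_nonneg _)
        (abs_nonneg _)
    · rw [norm_mul]
      exact mul_le_mul_of_nonneg_left ((f2 z hz).trans (le_abs_self _)) (norm_nonneg _)
  · have : q t z * q' t z - c * c' - x z * (Ψ₁ z * q' t z + c * Ψ₂ z) =
        (q t z - c - x z * Ψ₁ z) * q' t z + c * (q' t z - c' - x z * Ψ₂ z) := by ring
    rw [this]
    refine (norm_add_le _ _).trans ?_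
    rw [norm_mul, norm_mul]
    have g1 : ‖q t z - c - x z * Ψ₁ z‖ * ‖q' t z‖ ≤ θ / (2 * B) * B :=
      mul_le_mul (e3 z hz) (hB t z (hD hz)) (norm_nonneg _) (by positivity)
    have g2 : ‖c‖ * ‖q' t z - c' - x z * Ψ₂ z‖ ≤ ‖c‖ * (θ / (2 * (‖c‖ + 1))) :=
      mul_le_mul_of_nonneg_left (f3 z hz) (norm_nonneg _)
    have g3 : θ / (2 * B) * B = θ / 2 := by field_simp
    have g4 : ‖c‖ * (θ / (2 * (‖c‖ + 1))) ≤ θ / 2 := by
      have : (‖c‖ + 1) * (θ / (2 * (‖c‖ + 1))) = θ / 2 := by field_simp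
      rw [← this]
      apply mul_le_mul_of_nonneg_right _ (by positivity)
      linarith
    linarith

theorem NearAt.lim {q : I → E → ℂ} {c : ℂ}
    (h : ∀ θ : ℝ, 0 < θ → ∃ (q' : I → E → ℂ) (c' : ℂ), NearAt F cF u cu q' c' ∧ ‖c - c'‖ ≤ θ ∧
      ∀ t, ∀ z ∈ ball (0 : E) 1, ‖q t z - q' t z‖ ≤ θ) : NearAt F cF u cu q c := by
  intro θ hθ
  obtain ⟨q', c', h1, h2, h3⟩ := h (θ / 3) (by positivity)
  obtain ⟨J, J', ε, C, hε, h4⟩ := h1 (θ / 3) (by positivity)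
  refine ⟨J, J', ε, C, hε, fun t D x hD hx hF hu => ?_⟩
  obtain ⟨Ψ, e1, e2, e3⟩ := h4 t D x hD hx hF hu
  refine ⟨Ψ, e1, e2, fun z hz => ?_⟩
  have : q t z - c - x z * Ψ z =
      (q t z - q' t z) - (c - c') + (q' t z - c' - x z * Ψ z) := by ring
  rw [this]
  refine (norm_add_le _ _).trans ?_
  have := norm_sub_le (q t z - q' t z) (c - c')
  linarith [e3 z hz, h3 t z (hD hz)]

/-- A function which satisfies an equation with coefficients that are nearly constant modulo `x`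
satisfies nearly, modulo `x`, an equation with constant coefficients. -/
theorem near_poly {m : ℕ} {a : Fin (m + 1) → I → E → ℂ} {c : Fin (m + 1) → ℂ}
    (ha : ∀ k, NearAt F cF u cu (a k) (c k)) {G : I → E → ℂ} (hG : BH G)
    (hrel : ∀ t, ∀ z ∈ ball (0 : E) 1, ∑ k, a k t z * G t z ^ (k : ℕ) = 0)
    {θ : ℝ} (hθ : 0 < θ) :
    ∃ (J : Finset ι) (J' : Finset κ) (ε C : ℝ), 0 < ε ∧
    ∀ (t : I) (D : Set E) (x : E → ℂ), D ⊆ ball 0 1 → DifferentiableOn ℂ x D →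
      (∀ i ∈ J, (∀ z ∈ D, F i t z - cF i = x z) ∨ ∀ z ∈ D, ‖F i t z - cF i‖ ≤ ε) →
      (∀ k ∈ J', ∀ z ∈ D, ‖u k t z - cu k‖ ≤ ε) →
      ∃ Ψ : E → ℂ, DifferentiableOn ℂ Ψ D ∧ (∀ z ∈ D, ‖Ψ z‖ ≤ C) ∧
        ∀ z ∈ D, ‖∑ k, c k * G t z ^ (k : ℕ) - x z * Ψ z‖ ≤ θ := by
  classical
  obtain ⟨M, hM0, hM⟩ := hG.bdd'
  obtain ⟨A, hA⟩ : ∃ A : ℝ, A = ∑ k : Fin (m + 1), M ^ (k : ℕ) := ⟨_, rfl⟩
  have hA0 : 0 ≤ A := by rw [hA]; exact Finset.sum_nonneg fun _ _ => by positivity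
  choose J J' ε C hε h using fun k => ha k (θ / (A + 1)) (by positivity)
  obtain ⟨ε₀, hε₀, -, hε₀j⟩ := SV.fin_pos (ι := Fin (m + 1)) (P := fun j b => b ≤ ε j)
    (fun _ _ _ _ h1 h2 => h1.trans h2) (fun j => ⟨ε j, hε j, le_rfl⟩)
  refine ⟨Finset.univ.biUnion J, Finset.univ.biUnion J', ε₀, ∑ k, |C k| * M ^ (k : ℕ), hε₀,
    fun t D x hD hx hF hu => ?_⟩
  choose Ψ e1 e2 e3 using fun k => h k t D x hD hx
    (fun i hi => (hF i (Finset.mem_biUnion.2 ⟨k, Finset.mem_univ k, hi⟩)).imp id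
      fun h1 z hz => (h1 z hz).trans (hε₀j k))
    (fun i hi z hz => (hu i (Finset.mem_biUnion.2 ⟨k, Finset.mem_univ k, hi⟩) z hz).trans
      (hε₀j k))
  have hGM : ∀ z ∈ D, ∀ k : ℕ, ‖G t z ^ k‖ ≤ M ^ k := by
    intro z hz k
    rw [norm_pow]
    exact pow_le_pow_left₀ (norm_nonneg _) (hM t z (hD hz)) k
  refine ⟨fun z => -∑ k, Ψ k z * G t z ^ (k : ℕ), ?_, fun z hz => ?_, fun z hz => ?_⟩
  · exact (DifferentiableOn.fun_sum fun k _ =>
      (e1 k).mul (((hG.holo t).mono hD).pow _)).neg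
  · rw [norm_neg]
    refine (norm_sum_le _ _).trans (Finset.sum_le_sum fun k _ => ?_)
    rw [norm_mul]
    exact mul_le_mul ((e2 k z hz).trans (le_abs_self _)) (hGM z hz _) (norm_nonneg _)
      (abs_nonneg _)
  · have h1 : ∑ k, c k * G t z ^ (k : ℕ) - x z * (-∑ k, Ψ k z * G t z ^ (k : ℕ)) =
        -∑ k, (a k t z - c k - x z * Ψ k z) * G t z ^ (k : ℕ) := by
      have h2 := hrel t z (hD hz)
      have h3 : ∑ k, (a k t z - c k - x z * Ψ k z) * G t z ^ (k : ℕ) =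
          ∑ k, a k t z * G t z ^ (k : ℕ) - ∑ k, c k * G t z ^ (k : ℕ) -
            x z * ∑ k, Ψ k z * G t z ^ (k : ℕ) := by
        rw [Finset.mul_sum, ← Finset.sum_sub_distrib, ← Finset.sum_sub_distrib]
        exact Finset.sum_congr rfl fun k _ => by ring
      rw [h3, h2]
      ring
    rw [h1, norm_neg]
    calc ‖∑ k, (a k t z - c k - x z * Ψ k z) * G t z ^ (k : ℕ)‖ ≤
          ∑ k : Fin (m + 1), θ / (A + 1) * M ^ (k : ℕ) := by
          refine (norm_sum_le _ _).trans (Finset.sum_le_sum fun k _ => ?_)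
          rw [norm_mul]
          exact mul_le_mul (e3 k z hz) (hGM z hz _) (norm_nonneg _) (by positivity)
      _ = θ / (A + 1) * A := by rw [hA, Finset.mul_sum]
      _ ≤ θ := by
          rw [div_mul_eq_mul_div, div_le_iff₀ (by positivity)]
          nlinarith

end Pool.Agent.MPca0fc2.IN
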