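import Mathlib
import Pool.Agent.Lib.MP_ca0fc2_an.INNear

/-! The corona theorem for the closed algebra generated by the functions which are algebraic over the
closed algebra generated by the tame functions and by bounded functions on larger domains. -/

set_option autoImplicit false

open Metric Set MeasureTheory Filter Topology

namespace Pool.Agent.MPca0fc2.IN

open Pool.Agent.Lib.MP_ca0fc2_an
open Pool.Agent.MPca0fc2.CP
open Pool.Agent.MPca0fc2.MG
open Pool.Agent.MPca0fc2.SV (dom ball_subset_dom)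

variable {n : ℕ}

/-- one function as a constant family -/
abbrev cf (f : EuclideanSpace ℂ (Fin n) → ℂ) : Unit → EuclideanSpace ℂ (Fin n) → ℂ := fun _ => f

/-- The elements of the algebra generated by the tame functions and by the functions `F i`. -/
theorem near_adjoin {ι : Type*} (Φ : Char Unit (EuclideanSpace ℂ (Fin n)))
    {F : ι → EuclideanSpace ℂ (Fin n) → ℂ} (hBF : ∀ i, BH (cf (F i)))
    (hBu : ∀ k : TameGens n, BH (cf k.1)) {q : EuclideanSpace ℂ (Fin n) → ℂ}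
    (hq : q ∈ Algebra.adjoin ℂ (TameGens n ∪ Set.range F)) :
    BH (cf q) ∧ NearAt (fun i => cf (F i)) (fun i => Φ.φ (cf (F i)))
      (fun k : TameGens n => cf k.1) (fun k => Φ.φ (cf k.1)) (cf q) (Φ.φ (cf q)) := by
  induction hq using Algebra.adjoin_induction with
  | mem x hx =>
    rcases hx with hx | ⟨i, rfl⟩
    · exact ⟨hBu ⟨x, hx⟩, NearAt.ofu (F := fun i => cf (F i)) (cF := fun i => Φ.φ (cf (F i)))
        (u := fun k : TameGens n => cf k.1) (cu := fun k => Φ.φ (cf k.1)) ⟨x, hx⟩⟩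
    · exact ⟨hBF i, NearAt.ofF (F := fun i => cf (F i)) (cF := fun i => Φ.φ (cf (F i)))
        (u := fun k : TameGens n => cf k.1) (cu := fun k => Φ.φ (cf k.1)) i⟩
  | algebraMap c =>
    have h1 : (cf (algebraMap ℂ (EuclideanSpace ℂ (Fin n) → ℂ) c)) = fun _ _ => c := rfl
    rw [h1, Φ.map_const]
    exact ⟨BH.const c, NearAt.const c⟩
  | add x y _ _ hx hy =>
    have h1 : (cf (x + y)) = fun (t : Unit) z => cf x t z + cf y t z := rfl
    rw [h1, Φ.map_add hx.1 hy.1]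
    exact ⟨hx.1.add hy.1, hx.2.add hy.2⟩
  | mul x y _ _ hx hy =>
    have h1 : (cf (x * y)) = fun (t : Unit) z => cf x t z * cf y t z := rfl
    rw [h1, Φ.map_mul hx.1 hy.1]
    exact ⟨hx.1.mul hy.1, hx.2.mul hy.2 hy.1⟩

/-- The elements of a closed algebra whose generators are bounded are bounded. -/
theorem bh_closed {S : Set (EuclideanSpace ℂ (Fin n) → ℂ)}
    (hS : ∀ q ∈ Algebra.adjoin ℂ S, BH (cf q)) {a : EuclideanSpace ℂ (Fin n) → ℂ}
    (ha : a ∈ ClosedAlg S) : BH (cf a) := by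
  obtain ⟨h1, h2⟩ := ha
  obtain ⟨q, hq, h3⟩ := h2 1 one_pos
  obtain ⟨C, hC⟩ := (hS q hq).bdd
  refine ⟨fun _ => h1, 1 + C, fun t z hz => ?_⟩
  calc ‖a z‖ = ‖(a z - q z) + q z‖ := by rw [sub_add_cancel]
    _ ≤ ‖a z - q z‖ + ‖q z‖ := norm_add_le _ _
    _ ≤ 1 + C := add_le_add (h3 z hz) (hC t z hz)

/-- The elements of the closed algebra generated by the tame functions and by the functions
`F i`. -/
theorem near_closed {ι : Type*} (Φ : Char Unit (EuclideanSpace ℂ (Fin n)))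
    {F : ι → EuclideanSpace ℂ (Fin n) → ℂ} (hBF : ∀ i, BH (cf (F i)))
    (hBu : ∀ k : TameGens n, BH (cf k.1)) {a : EuclideanSpace ℂ (Fin n) → ℂ}
    (ha : a ∈ ClosedAlg (TameGens n ∪ Set.range F)) :
    NearAt (fun i => cf (F i)) (fun i => Φ.φ (cf (F i)))
      (fun k : TameGens n => cf k.1) (fun k => Φ.φ (cf k.1)) (cf a) (Φ.φ (cf a)) := by
  have hB : BH (cf a) := bh_closed (fun q hq => (near_adjoin Φ hBF hBu hq).1) ha
  refine NearAt.lim fun θ hθ => ?_
  obtain ⟨q, hq, h3⟩ := ha.2 θ hθ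
  obtain ⟨h4, h5⟩ := near_adjoin Φ hBF hBu hq
  refine ⟨cf q, Φ.φ (cf q), h5, ?_, fun _ z hz => h3 z hz⟩
  rw [← Char.map_sub Φ hB h4]
  exact Φ.bound (hB.sub h4) hθ.le fun _ z hz => h3 z hz

/-- The hypotheses on the functions `F i`. -/
structure Big {ι : Type*} (r : ι → EuclideanSpace ℂ (Fin n) → ℝ) (L M : ι → ℝ)
    (F : ι → EuclideanSpace ℂ (Fin n) → ℂ) : Prop where
  lip : ∀ i z w, |r i z - r i w| ≤ L i * ‖z - w‖
  apart : ∀ i j, i ≠ j → Apart (r i) (r j)
  diff : ∀ i, DifferentiableOn ℂ (F i) (dom (r i))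
  bdd : ∀ i, ∀ z ∈ dom (r i), ‖F i z‖ ≤ M i

theorem Big.bh {ι : Type*} {r : ι → EuclideanSpace ℂ (Fin n) → ℝ} {L M : ι → ℝ}
    {F : ι → EuclideanSpace ℂ (Fin n) → ℂ} (h : Big r L M F) (i : ι) : BH (cf (F i)) :=
  ⟨fun _ => (h.diff i).mono (ball_subset_dom _), M i,
    fun _ z hz => h.bdd i z (ball_subset_dom _ hz)⟩

theorem tame_bh (k : TameGens n) : BH (cf k.1) := by
  obtain ⟨u, K, p, ω, hp, -, hu⟩ := k
  obtain ⟨A, hA⟩ := gen6_bdd_unif (n := n) K hp
  have h1 := hA ω u (TG.gen6_of_tame hu)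
  exact ⟨fun _ => h1.1, A, fun _ z hz => h1.2 z hz⟩

/-- Joint cluster values of functions which satisfy equations modulo the functions `F i` and the tame
functions. -/
theorem cluster_unit (hn : 2 ≤ n) {ι : Type*} (Φ : Char Unit (EuclideanSpace ℂ (Fin n)))
    {r : ι → EuclideanSpace ℂ (Fin n) → ℝ} {L M : ι → ℝ}
    {F : ι → EuclideanSpace ℂ (Fin n) → ℂ} (hb : Big r L M F)
    {N : ℕ} (G : Fin N → EuclideanSpace ℂ (Fin n) → ℂ) (hG : ∀ j, BH (cf (G j)))
    (m : Fin N → ℕ) (a : ∀ j, Fin (m j + 1) → EuclideanSpace ℂ (Fin n) → ℂ)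
    (ha : ∀ j k, a j k ∈ ClosedAlg (TameGens n ∪ Set.range F))
    (hne : ∀ j, ∃ k, Φ.φ (cf (a j k)) ≠ 0)
    (hrel : ∀ j, ∀ z ∈ ball (0 : EuclideanSpace ℂ (Fin n)) 1,
      ∑ k, a j k z * G j z ^ (k : ℕ) = 0) {ε : ℝ} (hε : 0 < ε) :
    ∃ z ∈ ball (0 : EuclideanSpace ℂ (Fin n)) 1, ∀ j, ‖G j z - Φ.φ (cf (G j))‖ < ε := by
  classical
  choose K p ω hp hω hu using fun k : TameGens n => k.2
  obtain ⟨S, hS⟩ : ∃ S : Fin N → Polynomial ℂ, S = fun j =>
    ∑ k : Fin (m j + 1), Polynomial.C (Φ.φ (cf (a j k))) * Polynomial.X ^ (k : ℕ) := ⟨_, rfl⟩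
  have hSe : ∀ j y, (S j).eval y = ∑ k : Fin (m j + 1), Φ.φ (cf (a j k)) * y ^ (k : ℕ) := by
    intro j y
    rw [hS]
    simp [Polynomial.eval_finset_sum]
  have hS0 : ∀ j, S j ≠ 0 := by
    intro j h0
    obtain ⟨k, hk⟩ := hne j
    have h1 : (S j).coeff k = Φ.φ (cf (a j k)) := by
      rw [hS]
      simp only [Polynomial.finset_sum_coeff, Polynomial.coeff_C_mul, Polynomial.coeff_X_pow]
      rw [Finset.sum_eq_single k]
      · simp
      · intro k' _ hk'
        have : ¬ (k : ℕ) = (k' : ℕ) := fun h => hk' (Fin.ext h.symm)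
        simp [this]
      · intro h
        exact absurd (Finset.mem_univ _) h
    rw [h0, Polynomial.coeff_zero] at h1
    exact hk h1.symm
  obtain ⟨t, z, hz, h⟩ := cluster_alg hn Φ r L M hb.lip hb.apart K p ω hp hω
    (fun i => cf (F i)) (fun i _ => hb.diff i) (fun i _ => hb.bdd i)
    (fun k : TameGens n => cf k.1) (fun k _ => TG.gen6_of_tame (hu k))
    (fun j => cf (G j)) hG S hS0 (fun j θ hθ => by
      have h1 := near_poly (F := fun i => cf (F i)) (cF := fun i => Φ.φ (cf (F i)))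
        (u := fun k : TameGens n => cf k.1) (cu := fun k => Φ.φ (cf k.1))
        (a := fun k => cf (a j k)) (c := fun k => Φ.φ (cf (a j k)))
        (fun k => near_closed Φ hb.bh tame_bh (ha j k)) (hG j) (fun _ => hrel j) hθ
      simp only [← hSe] at h1
      exact h1) hε
  exact ⟨z, hz, h⟩

/-- Joint cluster values of functions of the closed algebra generated by the tame functions and by
the functions `F i`. -/
theorem cluster_closed (hn : 2 ≤ n) {ι : Type*} (Φ : Char Unit (EuclideanSpace ℂ (Fin n)))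
    {r : ι → EuclideanSpace ℂ (Fin n) → ℝ} {L M : ι → ℝ}
    {F : ι → EuclideanSpace ℂ (Fin n) → ℂ} (hb : Big r L M F)
    {N : ℕ} (G : Fin N → EuclideanSpace ℂ (Fin n) → ℂ)
    (hG : ∀ j, G j ∈ ClosedAlg (TameGens n ∪ Set.range F)) {ε : ℝ} (hε : 0 < ε) :
    ∃ z ∈ ball (0 : EuclideanSpace ℂ (Fin n)) 1, ∀ j, ‖G j z - Φ.φ (cf (G j))‖ < ε := by
  have hone : (fun _ => 1 : EuclideanSpace ℂ (Fin n) → ℂ) ∈
      ClosedAlg (TameGens n ∪ Set.range F) := by
    refine ⟨differentiableOn_const _, fun θ hθ => ⟨1, Subalgebra.one_mem _, fun z _ => ?_⟩⟩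
    simp [hθ.le]
  have hB : ∀ j, BH (cf (G j)) := fun j =>
    bh_closed (fun q hq => (near_adjoin Φ hb.bh tame_bh hq).1) (hG j)
  refine cluster_unit hn Φ hb G hB (fun _ => 1) (fun j => ![fun z => -G j z, fun _ => 1]) ?_ ?_ ?_ hε
  · intro j k
    fin_cases k
    · obtain ⟨h1, h2⟩ := hG j
      refine ⟨h1.neg, fun θ hθ => ?_⟩
      obtain ⟨q, hq, h3⟩ := h2 θ hθ
      refine ⟨-q, Subalgebra.neg_mem _ hq, fun z hz => ?_⟩
      have : -G j z - (-q) z = -(G j z - q z) := by simp; ring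
      simp only [Fin.zero_eta, Matrix.cons_val_zero]
      rw [this, norm_neg]
      exact h3 z hz
    · exact hone
  · intro j
    refine ⟨1, ?_⟩
    have h1 : cf ((![fun z => -G j z, fun _ => 1] : Fin 2 → EuclideanSpace ℂ (Fin n) → ℂ) 1) =
        fun _ _ => 1 := rfl
    rw [h1, Φ.map_const]
    exact one_ne_zero
  · intro j z _
    simp [Fin.sum_univ_two]

/-- Joint cluster values of functions which are algebraic over the closed algebra generated by the
tame functions and by the functions `F i`. -/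
theorem cluster_algOver (hn : 2 ≤ n) {ι : Type*} (Φ : Char Unit (EuclideanSpace ℂ (Fin n)))
    {r : ι → EuclideanSpace ℂ (Fin n) → ℝ} {L M : ι → ℝ}
    {F : ι → EuclideanSpace ℂ (Fin n) → ℂ} (hb : Big r L M F)
    {N : ℕ} (G : Fin N → EuclideanSpace ℂ (Fin n) → ℂ)
    (hG : ∀ j, G j ∈ AlgOver (ClosedAlg (TameGens n ∪ Set.range F))) {ε : ℝ} (hε : 0 < ε) :
    ∃ z ∈ ball (0 : EuclideanSpace ℂ (Fin n)) 1, ∀ j, ‖G j z - Φ.φ (cf (G j))‖ < ε := by
  choose h1 h2 m a c hc ha hlow hrel using hG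
  refine cluster_unit hn Φ hb G (fun j => ⟨fun _ => h1 j, (h2 j).choose,
    fun _ z hz => (h2 j).choose_spec z hz⟩) m a ha ?_ hrel hε
  intro j
  by_contra hcon
  push Not at hcon
  obtain ⟨z, hz, h3⟩ := cluster_closed hn Φ hb (a j) (ha j) (ε := c j / (m j + 2))
    (by have := hc j; positivity)
  have h4 := hlow j z hz
  have h5 : ∑ k, ‖a j k z‖ ≤ ∑ _k : Fin (m j + 1), c j / (m j + 2) := by
    refine Finset.sum_le_sum fun k _ => ?_
    have := h3 k
    rw [hcon k, sub_zero] at this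
    exact this.le
  have h6 : ∑ _k : Fin (m j + 1), c j / (m j + 2) = (m j + 1) * (c j / (m j + 2)) := by simp
  have h7 : (m j + 1 : ℝ) * (c j / (m j + 2)) < c j := by
    rw [mul_div_assoc', div_lt_iff₀ (by positivity)]
    have := hc j
    nlinarith
  linarith

end Pool.Agent.MPca0fc2.IN
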