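import Mathlib
import Pool.Agent.Lib.MP_ca0fc2_an.INMain

/-! Data which are solvable near the sphere, on the small cells, modulo the functions `F i`, are not
in the kernel of a character. -/

set_option autoImplicit false

open Metric Set MeasureTheory Filter Topology
open scoped InnerProductSpace

namespace Pool.Agent.MPca0fc2.IN

open Pool.Agent.Lib.MP_ca0fc2_an
open Pool.Agent.MPca0fc2.CP
open Pool.Agent.MPca0fc2.MG
open Pool.Agent.MPca0fc2.UG (finset_bd)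
open Pool.Agent.MPca0fc2.SV (near dom ball_subset_dom solvable_empty)

variable {n : ℕ}

/-- Data in the kernel of a character are not solvable on the small cells modulo the functions
`F i`. -/
theorem glue_core (hn : 2 ≤ n) {I ι κ : Type*} (Φ : Char I (EuclideanSpace ℂ (Fin n)))
    (r : ι → EuclideanSpace ℂ (Fin n) → ℝ) (L M : ι → ℝ)
    (hrL : ∀ j z w, |r j z - r j w| ≤ L j * ‖z - w‖)
    (hap : ∀ i j, i ≠ j → Apart (r i) (r j)) (K p : κ → ℝ) (ω : κ → ℝ → ℝ)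
    (hp : ∀ k, 1 ≤ p k) (hω : ∀ k, Rate (ω k))
    (F : ι → I → EuclideanSpace ℂ (Fin n) → ℂ)
    (hF : ∀ i x, DifferentiableOn ℂ (F i x) (dom (r i)))
    (hFM : ∀ i x, ∀ z ∈ dom (r i), ‖F i x z‖ ≤ M i)
    (u : κ → I → EuclideanSpace ℂ (Fin n) → ℂ) (hu : ∀ k x, Gen6 (K k) (p k) (ω k) (u k x))
    {N : ℕ} (w : Fin N → I → EuclideanSpace ℂ (Fin n) → ℂ) (hBw : ∀ j, BH (w j))
    (hΦw : ∀ j, Φ.φ (w j) = 0) {δ : ℝ} (hδ : 0 < δ)
    (hlow : ∀ t : I, ∀ z ∈ ball (0 : EuclideanSpace ℂ (Fin n)) 1, δ ≤ ∑ j, ‖w j t z‖ ^ 2)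
    (JJ : Finset ι) (JJ' : Finset κ) {ε₂ CL : ℝ} (hε₂ : 0 < ε₂)
    (hloc : ∀ (t : I) (D : Set (EuclideanSpace ℂ (Fin n))) (x : EuclideanSpace ℂ (Fin n) → ℂ),
      D ⊆ ball 0 1 → DifferentiableOn ℂ x D →
      (∀ i ∈ JJ, (∀ z ∈ D, F i t z - Φ.φ (F i) = x z) ∨
        ∀ z ∈ D, ‖F i t z - Φ.φ (F i)‖ ≤ ε₂) →
      (∀ k ∈ JJ', ∀ z ∈ D, ‖u k t z - Φ.φ (u k)‖ ≤ ε₂) →
      ∃ (h₀ : EuclideanSpace ℂ (Fin n) → ℂ) (h : Fin N → EuclideanSpace ℂ (Fin n) → ℂ),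
        DifferentiableOn ℂ h₀ D ∧ (∀ j, DifferentiableOn ℂ (h j) D) ∧
        (∀ z ∈ D, ‖h₀ z‖ ≤ CL) ∧ (∀ j, ∀ z ∈ D, ‖h j z‖ ≤ CL) ∧
        ∀ z ∈ D, x z * h₀ z + ∑ j, w j t z * h j z = 1) : False := by
  classical
  choose A hA using fun k => gen6_bdd_unif (n := n) (K k) (hp k)
  have hBF : ∀ i, BH (F i) := fun i => ⟨fun x => (hF i x).mono (ball_subset_dom (r i)), M i,
    fun x z hz => hFM i x z (ball_subset_dom (r i) hz)⟩
  have hBu : ∀ k, BH (u k) := fun k => ⟨fun x => (hA k _ _ (hu k x)).1, A k,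
    fun x z hz => (hA k _ _ (hu k x)).2 z hz⟩
  obtain ⟨ε₃, hε₃⟩ : ∃ ε₃, ε₃ = ε₂ / 3 := ⟨_, rfl⟩
  have hε₃0 : 0 < ε₃ := by rw [hε₃]; positivity
  -- common constants
  obtain ⟨ω', hω', hωω⟩ := rate_fin JJ' ω hω
  obtain ⟨q₀, hq₀⟩ := finset_bd JJ' p
  obtain ⟨q, hq⟩ : ∃ q, q = max q₀ 1 := ⟨_, rfl⟩
  have hq1 : 1 ≤ q := by rw [hq]; exact le_max_right _ _
  have hpq : ∀ k ∈ JJ', p k ≤ q := fun k hk => (hq₀ k hk).trans (by rw [hq]; exact le_max_left _ _)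
  have hB : ∀ k, ∃ B : ℝ, k ∈ JJ' → ∀ B' ≥ B, ∀ v : EuclideanSpace ℂ (Fin n) → ℂ,
      Gen6 (K k) (p k) (ω k) v → Gen6 B' q ω' v := by
    intro k
    by_cases hk : k ∈ JJ'
    · obtain ⟨B, hB⟩ := Gen6_unif (n := n) (by omega) (K := K k) (hp k) (hpq k hk)
      exact ⟨B, fun _ B' hB' v hv => hB B' hB' (ω k) ω' (hωω k hk) v hv⟩
    · exact ⟨0, fun h => absurd h hk⟩
  choose B hB using hB
  obtain ⟨B₀, hB₀⟩ := finset_bd JJ' B
  obtain ⟨L₀, hL₀⟩ := finset_bd JJ L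
  obtain ⟨M₀, hM₀⟩ := finset_bd JJ M
  -- the lines at the boundary points
  obtain ⟨s, hs⟩ : ∃ s, s = Fintype.card JJ := ⟨_, rfl⟩
  obtain ⟨eJ⟩ : Nonempty (Fin s ≃ JJ) := by rw [hs]; exact ⟨(Fintype.equivFin _).symm⟩
  obtain ⟨o, ho⟩ : ∃ o : EuclideanSpace ℂ (Fin n), o = EuclideanSpace.single ⟨0, by omega⟩ 1 :=
    ⟨_, rfl⟩
  have ho1 : ‖o‖ = 1 := by rw [ho]; simp
  have hroom : ∀ l : EuclideanSpace ℂ (Fin n), ∃ (m : ℕ) (e : Fin m → EuclideanSpace ℂ (Fin n))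
      (φ ψ : Fin m → EuclideanSpace ℂ (Fin n) → EuclideanSpace ℂ (Fin n)) (μ ρ : ℝ),
      0 < μ ∧ 0 < ρ ∧ (∀ k, ‖e k‖ = 1 ∧ IsBallAut (φ k) (ψ k)) ∧
      (‖l‖ = 1 → ∀ t : I, ∀ D ⊆ ball (0 : EuclideanSpace ℂ (Fin n)) 1 ∩ ball l ρ,
        (∀ k, ∀ b ∈ D, ∀ z ∈ D, near (e k) (φ k) μ b z) →
      ∀ b ∈ D, ∀ i j : JJ, i ≠ j →
        (∀ z ∈ D, ‖F i.1 t z - F i.1 t b‖ ≤ ε₃) ∨ ∀ z ∈ D, ‖F j.1 t z - F j.1 t b‖ ≤ ε₃) := by
    intro l
    by_cases hl : ‖l‖ = 1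
    · obtain ⟨m, e, φ, ψ, μ, ρ, h1, h2, h3, h4⟩ := room_lines hl hε₃0 M₀
        (le_max_right L₀ 0) (fun a => r (eJ a).1)
        (fun a z w => (hrL _ z w).trans (mul_le_mul_of_nonneg_right
          ((hL₀ _ (eJ a).2).trans (le_max_left _ _)) (norm_nonneg _)))
        (fun a b hab => hap _ _ fun h => hab (eJ.injective (Subtype.ext h)))
      refine ⟨m, e, φ, ψ, μ, ρ, h1, h2, h3, fun _ t D hD hnr b hb i j hij => ?_⟩
      have h5 := h4 (fun a => F (eJ a).1 t) (fun a => hF _ t)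
        (fun a z hz => (hFM _ t z hz).trans (hM₀ _ (eJ a).2)) D hD hnr b hb (eJ.symm i)
        (eJ.symm j) (fun h => hij (eJ.symm.injective h))
      simpa only [Equiv.apply_symm_apply] using h5
    · exact ⟨0, fun _ => o, fun _ => id, fun _ => id, 1, 1, one_pos, one_pos,
        fun k => k.elim0, fun h => absurd h hl⟩
  choose m e φ ψ μ ρ hμ hρ he hroom using hroom
  -- the data
  obtain ⟨N', hN'⟩ : ∃ N', N' = Fintype.card ((JJ ⊕ JJ') ⊕ Fin N) := ⟨_, rfl⟩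
  obtain ⟨e'⟩ : Nonempty (((JJ ⊕ JJ') ⊕ Fin N) ≃ Fin N') := by
    rw [hN']; exact ⟨Fintype.equivFin _⟩
  obtain ⟨c, hc⟩ : ∃ c : ι → ℂ, c = fun i => Φ.φ (F i) := ⟨_, rfl⟩
  obtain ⟨c', hc'⟩ : ∃ c' : κ → ℂ, c' = fun k => Φ.φ (u k) := ⟨_, rfl⟩
  obtain ⟨v, hv⟩ : ∃ v : (JJ ⊕ JJ') → I → EuclideanSpace ℂ (Fin n) → ℂ,
    v = Sum.elim (fun i x z => F i.1 x z - c i.1) (fun k x z => u k.1 x z - c' k.1) := ⟨_, rfl⟩
  have hv1 : ∀ i, v (Sum.inl i) = fun x z => F i.1 x z - c i.1 := fun i => by rw [hv]; rfl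
  have hv2 : ∀ k, v (Sum.inr k) = fun x z => u k.1 x z - c' k.1 := fun k => by rw [hv]; rfl
  have hBv : ∀ y, BH (v y) := by
    rintro (i | k)
    · rw [hv1]; exact (hBF _).sub (BH.const _)
    · rw [hv2]; exact (hBu _).sub (BH.const _)
  have hΦv : ∀ y, Φ.φ (v y) = 0 := by
    rintro (i | k)
    · rw [hv1, Char.map_sub Φ (hBF _) (BH.const _), Φ.map_const, hc, sub_self]
    · rw [hv2, Char.map_sub Φ (hBu _) (BH.const _), Φ.map_const, hc', sub_self]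
  obtain ⟨D', hD'⟩ : ∃ D', ∀ y x, ∀ z ∈ ball (0 : EuclideanSpace ℂ (Fin n)) 1,
      ‖Sum.elim v w y x z‖ ≤ D' := by
    have hBe : ∀ y, BH (Sum.elim v w y) := by
      rintro (y | j)
      · exact hBv y
      · exact hBw j
    choose D' hD' using fun y => (hBe y).bdd
    exact ⟨∑ y, |D' y|, fun y x z hz => (hD' y x z hz).trans ((le_abs_self _).trans
      (Finset.single_le_sum (f := fun y => |D' y|) (fun _ _ => abs_nonneg _)
        (Finset.mem_univ y)))⟩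
  obtain ⟨d, hd⟩ : ∃ d, d = Fintype.card JJ' := ⟨_, rfl⟩
  obtain ⟨eu⟩ : Nonempty (Fin d ≃ JJ') := by rw [hd]; exact ⟨(Fintype.equivFin _).symm⟩
  obtain ⟨C, hC⟩ := loc_lines hn N' d D' δ hδ (K := max B₀ 0) (p := q)
    (ρ₀ := ε₃ / 2) (C₀ := max (1 / ε₃) CL) ω' hq1 hω' (by positivity) m ρ μ hρ hμ e φ ψ he
  have hsol : ∀ t : I, SolvableOn (fun (a : Fin N') z => Sum.elim v w (e'.symm a) t z)
      (ball 0 1) C := by
    intro t
    refine hC _ (fun a => u (eu a).1 t) (fun a => ?_) (fun a z hz => hD' _ t z hz) ?_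
      (fun a => hB _ (eu a).2 _ ((hB₀ _ (eu a).2).trans (le_max_left _ _)) _ (hu _ t)) ?_
    · rcases e'.symm a with y | j
      · exact (hBv y).holo t
      · exact (hBw j).holo t
    · intro z hz
      have h1 : ∑ a : Fin N', ‖Sum.elim v w (e'.symm a) t z‖ ^ 2 =
          ∑ y, ‖Sum.elim v w y t z‖ ^ 2 :=
        Equiv.sum_comp e'.symm (fun y => ‖Sum.elim v w y t z‖ ^ 2)
      rw [h1, Fintype.sum_sum_type]
      simp only [Sum.elim_inl, Sum.elim_inr]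
      have h2 : 0 ≤ ∑ y, ‖v y t z‖ ^ 2 := Finset.sum_nonneg fun _ _ => by positivity
      have h3 := hlow t z hz
      linarith
    · intro l hl cc D hD hnr
      rcases D.eq_empty_or_nonempty with h0 | ⟨b, hb⟩
      · rw [h0]; exact solvable_empty
      have hDb : ∀ z ∈ D, z ∈ ball (0 : EuclideanSpace ℂ (Fin n)) 1 := fun z hz => (hD hz).1.1
      have hl1 : ‖l‖ = 1 := mem_sphere_zero_iff_norm.mp hl
      have hT : ∀ k : JJ', ∀ z ∈ D, ‖v (Sum.inr k) t z - v (Sum.inr k) t b‖ ≤ ε₃ := by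
        intro k z hz
        have h1 := (hD hz).2 (eu.symm k)
        have h2 := (hD hb).2 (eu.symm k)
        simp only [Equiv.apply_symm_apply] at h1 h2
        rw [hv2]
        beta_reduce
        have e1 : u k.1 t z - c' k.1 - (u k.1 t b - c' k.1) =
            (u k.1 t z - cc (eu.symm k)) - (u k.1 t b - cc (eu.symm k)) := by ring
        rw [e1]
        refine (norm_sub_le _ _).trans ?_
        linarith
      have hFF : ∀ i j : JJ, i ≠ j →
          (∀ z ∈ D, ‖v (Sum.inl i) t z - v (Sum.inl i) t b‖ ≤ ε₃) ∨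
            ∀ z ∈ D, ‖v (Sum.inl j) t z - v (Sum.inl j) t b‖ ≤ ε₃ := by
        intro i j hij
        rw [hv1, hv1]
        simp only [sub_sub_sub_cancel_right]
        exact hroom l hl1 t D (fun z hz => (hD hz).1) hnr b hb i j hij
      have hcomb := local_solve e' (v := fun y => v y t) (w := fun j => w j t) (D := D)
        (ε₃ := ε₃) (C := max (1 / ε₃) CL) (C₁ := CL) hε₃0 (le_max_left _ _)
        (fun y => ((hBv y).holo t).mono hDb) (b := b)
        (fun y => ∃ k, y = Sum.inr k) (by rintro y ⟨k, rfl⟩; exact hT k) (by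
          rintro (i | k) (j | k') hne
          · exact hFF i j fun h => hne (by rw [h])
          · exact Or.inr (hT k')
          · exact Or.inl (hT k)
          · exact Or.inl (hT k)) (le_max_right _ _) (by
          intro x hx h1 h2
          refine hloc t D x hDb hx (fun i hi => ?_) (fun k hk z hz => ?_)
          · have h3 := h1 (Sum.inl ⟨i, hi⟩)
            rw [hv1, hc] at h3
            refine h3.imp id fun h z hz => (h z hz).trans ?_
            rw [hε₃]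
            linarith
          · have h3 := h2 (Sum.inr ⟨k, hk⟩) ⟨_, rfl⟩ z hz
            rw [hv2, hc'] at h3
            refine h3.trans ?_
            rw [hε₃]
            linarith)
      have hfun : (fun (a : Fin N') z => Sum.elim (fun y => v y t) (fun j => w j t)
          (e'.symm a) z) = fun (a : Fin N') z => Sum.elim v w (e'.symm a) t z := by
        funext a z
        rcases e'.symm a with y | j <;> rfl
      rw [hfun] at hcomb
      exact hcomb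
  choose h hh hhC hsum using hsol
  have hBh : ∀ a, BH (fun x => h x a) := fun a => ⟨fun x => hh x a, C, fun x z hz => hhC x a z hz⟩
  have hBe : ∀ y, BH (Sum.elim v w y) := by
    rintro (y | j)
    · exact hBv y
    · exact hBw j
  have hΦe : ∀ y, Φ.φ (Sum.elim v w y) = 0 := by
    rintro (y | j)
    · exact hΦv y
    · exact hΦw j
  have h1 : Φ.φ (fun x z => ∑ a ∈ Finset.univ, Sum.elim v w (e'.symm a) x z * h x a z) = 0 := by
    rw [Char.map_sum Φ fun a _ => (hBe (e'.symm a)).mul (hBh a)]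
    apply Finset.sum_eq_zero
    intro a _
    rw [Φ.map_mul (hBe _) (hBh a), hΦe, zero_mul]
  have h2 : Φ.φ (fun x z => ∑ a ∈ Finset.univ, Sum.elim v w (e'.symm a) x z * h x a z) = 1 := by
    rw [Char.congr Φ (BH.const (I := I) (E := EuclideanSpace ℂ (Fin n)) 1)
      (fun x z hz => hsum x z hz), Φ.map_const]
  rw [h1] at h2
  exact zero_ne_one h2

end Pool.Agent.MPca0fc2.IN
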