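import Mathlib
import Pool.Agent.Lib.MP_ca0fc2_an.Mg.G049

/-! Families of bounded holomorphic functions on a family of sets `D`, modulo a function `x`. -/

set_option autoImplicit false

open Metric Set Filter Topology

namespace Pool.Agent.MPca0fc2.IN

open Pool.Agent.Lib.MP_ca0fc2_an

variable {E : Type*} [NormedAddCommGroup E] [NormedSpace ℂ E]

/-- a set and a function on it -/
abbrev Wd (E : Type*) := Set E × (E → ℂ)

/-- a family of functions -/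
abbrev Fam (E : Type*) := Wd E → E → ℂ

/-- the function `x` as a family -/
def xf : Fam E := fun w => w.2

/-- a global function as a family -/
def gl (f : E → ℂ) : Fam E := fun _ => f

/-- The filter consists of open-like data: the sets are subsets of the ball and the functions `x` are
holomorphic on them. -/
structure Good (𝓕 : Filter (Wd E)) : Prop where
  sub : ∀ᶠ w in 𝓕, w.1 ⊆ ball (0 : E) 1
  diff : ∀ᶠ w in 𝓕, DifferentiableOn ℂ w.2 w.1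

/-- Bounded families of holomorphic functions. -/
def BW (𝓕 : Filter (Wd E)) (q : Fam E) : Prop :=
  ∃ C : ℝ, ∀ᶠ w in 𝓕, DifferentiableOn ℂ (q w) w.1 ∧ ∀ z ∈ w.1, ‖q w z‖ ≤ C

/-- The family is at most `θ`, modulo `x`. -/
def NB (𝓕 : Filter (Wd E)) (q : Fam E) (θ : ℝ) : Prop :=
  ∃ Ψ : Fam E, BW 𝓕 Ψ ∧ ∀ᶠ w in 𝓕, ∀ z ∈ w.1, ‖q w z - w.2 z * Ψ w z‖ ≤ θ

/-- The spectral radius of the family modulo `x` is at most `ε`. -/
def Rad (𝓕 : Filter (Wd E)) (q : Fam E) (ε : ℝ) : Prop :=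
  ∃ C : ℝ, 0 ≤ C ∧ ∀ p : ℕ, NB 𝓕 (q ^ p) (C * ε ^ p)

variable {𝓕 : Filter (Wd E)} {q q' : Fam E} {θ θ' ε ε' : ℝ}

theorem BW.bdd' (h : BW 𝓕 q) : ∃ C : ℝ, 0 ≤ C ∧
    ∀ᶠ w in 𝓕, DifferentiableOn ℂ (q w) w.1 ∧ ∀ z ∈ w.1, ‖q w z‖ ≤ C := by
  obtain ⟨C, hC⟩ := h
  exact ⟨|C|, abs_nonneg _, hC.mono fun w hw => ⟨hw.1, fun z hz =>
    (hw.2 z hz).trans (le_abs_self _)⟩⟩

theorem BW.const (c : ℂ) : BW 𝓕 (fun _ _ => c : Fam E) :=
  ⟨‖c‖, Eventually.of_forall fun _ => ⟨differentiableOn_const _, fun _ _ => le_rfl⟩⟩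

theorem BW.one : BW 𝓕 (1 : Fam E) := BW.const 1

theorem BW.add (h : BW 𝓕 q) (h' : BW 𝓕 q') : BW 𝓕 (q + q') := by
  obtain ⟨C, hC⟩ := h
  obtain ⟨C', hC'⟩ := h'
  refine ⟨C + C', (hC.and hC').mono fun w hw => ⟨hw.1.1.add hw.2.1, fun z hz => ?_⟩⟩
  exact (norm_add_le _ _).trans (add_le_add (hw.1.2 z hz) (hw.2.2 z hz))

theorem BW.mul (h : BW 𝓕 q) (h' : BW 𝓕 q') : BW 𝓕 (q * q') := by
  obtain ⟨C, hC0, hC⟩ := h.bdd'
  obtain ⟨C', hC'⟩ := h'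
  refine ⟨C * C', (hC.and hC').mono fun w hw => ⟨hw.1.1.mul hw.2.1, fun z hz => ?_⟩⟩
  show ‖q w z * q' w z‖ ≤ _
  rw [norm_mul]
  exact mul_le_mul (hw.1.2 z hz) (hw.2.2 z hz) (norm_nonneg _) hC0

theorem BW.neg (h : BW 𝓕 q) : BW 𝓕 (-q) := by
  obtain ⟨C, hC⟩ := h
  refine ⟨C, hC.mono fun w hw => ⟨hw.1.neg, fun z hz => ?_⟩⟩
  show ‖-(q w z)‖ ≤ _
  rw [norm_neg]
  exact hw.2 z hz

theorem BW.sub (h : BW 𝓕 q) (h' : BW 𝓕 q') : BW 𝓕 (q - q') := by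
  rw [sub_eq_add_neg]
  exact h.add h'.neg

theorem BW.pow (h : BW 𝓕 q) (p : ℕ) : BW 𝓕 (q ^ p) := by
  induction p with
  | zero => rw [pow_zero]; exact BW.one
  | succ p ih => rw [pow_succ]; exact ih.mul h

theorem BW.sum {κ : Type*} {s : Finset κ} {q : κ → Fam E} (h : ∀ k ∈ s, BW 𝓕 (q k)) :
    BW 𝓕 (∑ k ∈ s, q k) := by
  classical
  induction s using Finset.induction_on with
  | empty => rw [Finset.sum_empty]; exact BW.const 0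
  | insert a s has ih =>
    rw [Finset.sum_insert has]
    exact (h a (Finset.mem_insert_self _ _)).add
      (ih fun k hk => h k (Finset.mem_insert_of_mem hk))

theorem BW.prod {κ : Type*} {s : Finset κ} {q : κ → Fam E} (h : ∀ k ∈ s, BW 𝓕 (q k)) :
    BW 𝓕 (∏ k ∈ s, q k) := by
  classical
  induction s using Finset.induction_on with
  | empty => rw [Finset.prod_empty]; exact BW.one
  | insert a s has ih =>
    rw [Finset.prod_insert has]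
    exact (h a (Finset.mem_insert_self _ _)).mul
      (ih fun k hk => h k (Finset.mem_insert_of_mem hk))

theorem BW.gl (hg : Good 𝓕) {f : E → ℂ} (hf : DifferentiableOn ℂ f (ball 0 1)) {M : ℝ}
    (hM : ∀ z ∈ ball (0 : E) 1, ‖f z‖ ≤ M) : BW 𝓕 (gl f) :=
  ⟨M, hg.sub.mono fun _ hw => ⟨hf.mono hw, fun z hz => hM z (hw hz)⟩⟩

theorem NB.mono (h : NB 𝓕 q θ) (hθ : θ ≤ θ') : NB 𝓕 q θ' := by
  obtain ⟨Ψ, h1, h2⟩ := h
  exact ⟨Ψ, h1, h2.mono fun w hw z hz => (hw z hz).trans hθ⟩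

theorem NB.of_bdd (h : ∀ᶠ w in 𝓕, ∀ z ∈ w.1, ‖q w z‖ ≤ θ) : NB 𝓕 q θ :=
  ⟨0, BW.const 0, h.mono fun w hw z hz => by
    show ‖q w z - w.2 z * 0‖ ≤ θ
    rw [mul_zero, sub_zero]
    exact hw z hz⟩

theorem NB.const (c : ℂ) : NB 𝓕 (fun _ _ => c : Fam E) ‖c‖ :=
  NB.of_bdd (Eventually.of_forall fun _ _ _ => le_rfl)

theorem NB.one : NB 𝓕 (1 : Fam E) 1 := by
  have := NB.const (𝓕 := 𝓕) (1 : ℂ)
  rw [norm_one] at this
  exact this

theorem NB.xmul {Ψ : Fam E} (h : BW 𝓕 Ψ) : NB 𝓕 (xf * Ψ) 0 :=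
  ⟨Ψ, h, Eventually.of_forall fun w z _ => by
    show ‖w.2 z * Ψ w z - w.2 z * Ψ w z‖ ≤ 0
    rw [sub_self, norm_zero]⟩

theorem NB.add (h : NB 𝓕 q θ) (h' : NB 𝓕 q' θ') : NB 𝓕 (q + q') (θ + θ') := by
  obtain ⟨Ψ, h1, h2⟩ := h
  obtain ⟨Ψ', h1', h2'⟩ := h'
  refine ⟨Ψ + Ψ', h1.add h1', (h2.and h2').mono fun w hw z hz => ?_⟩
  have e : (q + q') w z - w.2 z * (Ψ + Ψ') w z =
      (q w z - w.2 z * Ψ w z) + (q' w z - w.2 z * Ψ' w z) := by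
    simp only [Pi.add_apply]
    ring
  rw [e]
  exact (norm_add_le _ _).trans (add_le_add (hw.1 z hz) (hw.2 z hz))

theorem NB.neg (h : NB 𝓕 q θ) : NB 𝓕 (-q) θ := by
  obtain ⟨Ψ, h1, h2⟩ := h
  refine ⟨-Ψ, h1.neg, h2.mono fun w hw z hz => ?_⟩
  have e : (-q) w z - w.2 z * (-Ψ) w z = -(q w z - w.2 z * Ψ w z) := by
    simp only [Pi.neg_apply]
    ring
  rw [e, norm_neg]
  exact hw z hz

theorem NB.sub (h : NB 𝓕 q θ) (h' : NB 𝓕 q' θ') : NB 𝓕 (q - q') (θ + θ') := by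
  rw [sub_eq_add_neg]
  exact h.add h'.neg

theorem NB.sum {κ : Type*} {s : Finset κ} {q : κ → Fam E} {θ : κ → ℝ}
    (h : ∀ k ∈ s, NB 𝓕 (q k) (θ k)) : NB 𝓕 (∑ k ∈ s, q k) (∑ k ∈ s, θ k) := by
  classical
  induction s using Finset.induction_on with
  | empty =>
    rw [Finset.sum_empty, Finset.sum_empty]
    have := NB.const (𝓕 := 𝓕) (0 : ℂ)
    rw [norm_zero] at this
    exact this
  | insert a s has ih =>
    rw [Finset.sum_insert has, Finset.sum_insert has]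
    exact (h a (Finset.mem_insert_self _ _)).add
      (ih fun k hk => h k (Finset.mem_insert_of_mem hk))

theorem NB.mul (hg : Good 𝓕) (hq : BW 𝓕 q) (hq' : BW 𝓕 q') (h : NB 𝓕 q θ) (h' : NB 𝓕 q' θ')
    (hθ : 0 ≤ θ) : NB 𝓕 (q * q') (θ * θ') := by
  obtain ⟨Ψ, h1, h2⟩ := h
  obtain ⟨Ψ', h1', h2'⟩ := h'
  have h3 : BW 𝓕 (q - xf * Ψ) := by
    obtain ⟨C, hC⟩ := hq
    obtain ⟨C', hC'⟩ := h1
    exact ⟨θ, (((hC.and hC').and hg.diff).and h2).mono fun w hw =>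
      ⟨hw.1.1.1.1.sub (hw.1.2.mul hw.1.1.2.1), fun z hz => hw.2 z hz⟩⟩
  refine ⟨Ψ * q' + (q - xf * Ψ) * Ψ', (h1.mul hq').add (h3.mul h1'),
    (h2.and h2').mono fun w hw z hz => ?_⟩
  have e : (q * q') w z - w.2 z * (Ψ * q' + (q - xf * Ψ) * Ψ' : Fam E) w z =
      (q w z - w.2 z * Ψ w z) * (q' w z - w.2 z * Ψ' w z) := by
    simp only [Pi.add_apply, Pi.mul_apply, Pi.sub_apply, xf]
    ring
  rw [e, norm_mul]
  exact mul_le_mul (hw.1 z hz) (hw.2 z hz) (norm_nonneg _) hθ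

/-- Families which are arbitrarily small modulo `x`. -/
def N0 (𝓕 : Filter (Wd E)) (q : Fam E) : Prop := ∀ θ : ℝ, 0 < θ → NB 𝓕 q θ

theorem BW.nb (h : BW 𝓕 q) : ∃ θ : ℝ, 0 < θ ∧ NB 𝓕 q θ := by
  obtain ⟨C, hC0, hC⟩ := h.bdd'
  exact ⟨C + 1, by linarith, NB.of_bdd (hC.mono fun w hw z hz => (hw.2 z hz).trans (by linarith))⟩

theorem N0.add (h : N0 𝓕 q) (h' : N0 𝓕 q') : N0 𝓕 (q + q') := by
  intro θ hθ
  have := (h (θ / 2) (by positivity)).add (h' (θ / 2) (by positivity))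
  rwa [add_halves] at this

theorem N0.neg (h : N0 𝓕 q) : N0 𝓕 (-q) := fun θ hθ => (h θ hθ).neg

theorem N0.sub (h : N0 𝓕 q) (h' : N0 𝓕 q') : N0 𝓕 (q - q') := by
  rw [sub_eq_add_neg]
  exact h.add h'.neg

theorem N0.mul (hg : Good 𝓕) (hq : BW 𝓕 q) (hq' : BW 𝓕 q') (h : N0 𝓕 q) : N0 𝓕 (q * q') := by
  intro θ hθ
  obtain ⟨C, hC0, hC⟩ := hq'.nb
  have := (h (θ / C) (by positivity)).mul hg hq hq' hC (by positivity)
  rwa [div_mul_cancel₀ _ hC0.ne'] at this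

theorem N0.zero : N0 𝓕 (0 : Fam E) := by
  intro θ hθ
  have := NB.const (𝓕 := 𝓕) (0 : ℂ)
  rw [norm_zero] at this
  exact NB.mono (q := (0 : Fam E)) this hθ.le

theorem N0.xmul {Ψ : Fam E} (h : BW 𝓕 Ψ) : N0 𝓕 (xf * Ψ) := fun _ hθ => (NB.xmul h).mono hθ.le

theorem NB.of_N0 (h : NB 𝓕 q θ) (h' : N0 𝓕 (q' - q)) (hθ : θ < θ') : NB 𝓕 q' θ' := by
  have h1 := h.add (h' (θ' - θ) (by linarith))
  rw [add_sub_cancel, add_sub_cancel] at h1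
  exact h1

theorem Rad.mono (h : Rad 𝓕 q ε) (h0 : 0 ≤ ε) (hε : ε ≤ ε') : Rad 𝓕 q ε' := by
  obtain ⟨C, hC, h1⟩ := h
  refine ⟨C, hC, fun p => (h1 p).mono ?_⟩
  exact mul_le_mul_of_nonneg_left (pow_le_pow_left₀ h0 hε p) hC

theorem Rad.mul (hg : Good 𝓕) (hq : BW 𝓕 q) (hq' : BW 𝓕 q') (h : Rad 𝓕 q ε) (h' : Rad 𝓕 q' ε')
    (hε : 0 ≤ ε) : Rad 𝓕 (q * q') (ε * ε') := by
  obtain ⟨C, hC, h1⟩ := h
  obtain ⟨C', hC', h1'⟩ := h'
  refine ⟨C * C', by positivity, fun p => ?_⟩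
  have h2 := (h1 p).mul hg (hq.pow p) (hq'.pow p) (h1' p) (by positivity)
  rw [mul_pow q q' p, mul_pow ε ε' p]
  have e : C * C' * (ε ^ p * ε' ^ p) = C * ε ^ p * (C' * ε' ^ p) := by ring
  rw [e]
  exact h2

theorem NB.smul_nat (h : NB 𝓕 q θ) (k : ℕ) : NB 𝓕 (q * (k : Fam E)) (θ * k) := by
  obtain ⟨Ψ, h1, h2⟩ := h
  refine ⟨Ψ * (k : Fam E), h1.mul (BW.const (k : ℂ)), h2.mono fun w hw z hz => ?_⟩
  have e : (q * (k : Fam E)) w z - w.2 z * (Ψ * (k : Fam E)) w z =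
      (q w z - w.2 z * Ψ w z) * (k : ℂ) := by
    simp only [Pi.mul_apply, Pi.natCast_apply]
    ring
  rw [e, norm_mul, Complex.norm_natCast]
  exact mul_le_mul_of_nonneg_right (hw z hz) (Nat.cast_nonneg _)

theorem Rad.add (hg : Good 𝓕) (hq : BW 𝓕 q) (hq' : BW 𝓕 q') (h : Rad 𝓕 q ε) (h' : Rad 𝓕 q' ε')
    (hε : 0 ≤ ε) (hε' : 0 ≤ ε') : Rad 𝓕 (q + q') (ε + ε') := by
  obtain ⟨C, hC, h1⟩ := h
  obtain ⟨C', hC', h1'⟩ := h'
  refine ⟨C * C', by positivity, fun p => ?_⟩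
  rw [add_pow q q' p, add_pow ε ε' p, Finset.mul_sum]
  refine NB.sum fun m _ => ?_
  have h2 := ((h1 m).mul hg (hq.pow m) (hq'.pow (p - m)) (h1' (p - m)) (by positivity)).smul_nat
    (p.choose m)
  have e : C * C' * (ε ^ m * ε' ^ (p - m) * (p.choose m : ℝ)) =
      C * ε ^ m * (C' * ε' ^ (p - m)) * (p.choose m : ℝ) := by ring
  rw [e]
  exact h2

theorem Rad.of_NB (hg : Good 𝓕) (hq : BW 𝓕 q) (h : NB 𝓕 q ε) (hε : 0 ≤ ε) : Rad 𝓕 q ε := by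
  refine ⟨1, zero_le_one, fun p => ?_⟩
  rw [one_mul]
  induction p with
  | zero => rw [pow_zero, pow_zero]; exact NB.one
  | succ p ih =>
    rw [pow_succ, pow_succ]
    exact ih.mul hg (hq.pow p) hq h (by positivity)

theorem Rad.neg (h : Rad 𝓕 q ε) : Rad 𝓕 (-q) ε := by
  obtain ⟨C, hC, h1⟩ := h
  refine ⟨C, hC, fun p => ?_⟩
  rcases Nat.even_or_odd p with hp | hp
  · rw [hp.neg_pow]; exact h1 p
  · rw [hp.neg_pow]; exact (h1 p).neg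

/-- The spectral radius from one power. -/
theorem Rad.of_pow (hg : Good 𝓕) (hq : BW 𝓕 q) {K : ℕ} (hK : 1 ≤ K) (hε : 0 < ε)
    (h : Rad 𝓕 (q ^ K) (ε ^ K)) : Rad 𝓕 q ε := by
  obtain ⟨C, hC, h1⟩ := h
  choose B hB0 hB using fun r : ℕ => (hq.pow r).nb
  obtain ⟨S, hS⟩ : ∃ S : ℝ, S = ∑ r ∈ Finset.range K, B r / ε ^ r := ⟨_, rfl⟩
  have hS0 : ∀ r, 0 ≤ B r / ε ^ r := fun r => by
    have := hB0 r
    positivity
  have hS1 : 0 ≤ S := by rw [hS]; exact Finset.sum_nonneg fun r _ => hS0 r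
  refine ⟨C * S, by positivity, fun p => ?_⟩
  have hp : p = K * (p / K) + p % K := (Nat.div_add_mod p K).symm
  have hr : p % K < K := Nat.mod_lt _ (by omega)
  have h2 := (h1 (p / K)).mul hg ((hq.pow K).pow _) (hq.pow (p % K)) (hB (p % K)) (by positivity)
  have e1 : (q ^ K) ^ (p / K) * q ^ (p % K) = q ^ p := by
    rw [← pow_mul, ← pow_add, ← hp]
  rw [e1] at h2
  refine h2.mono ?_
  have h3 : B (p % K) / ε ^ (p % K) ≤ S := by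
    rw [hS]
    exact Finset.single_le_sum (f := fun r => B r / ε ^ r) (fun r _ => hS0 r)
      (Finset.mem_range.2 hr)
  have h4 : B (p % K) ≤ S * ε ^ (p % K) := by
    rwa [div_le_iff₀ (by positivity)] at h3
  have e2 : (ε ^ K) ^ (p / K) * ε ^ (p % K) = ε ^ p := by
    rw [← pow_mul, ← pow_add, ← hp]
  calc C * (ε ^ K) ^ (p / K) * B (p % K) ≤ C * (ε ^ K) ^ (p / K) * (S * ε ^ (p % K)) := by
        gcongr
    _ = C * S * ((ε ^ K) ^ (p / K) * ε ^ (p % K)) := by ring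
    _ = C * S * ε ^ p := by rw [e2]

/-- Powers of an idempotent. -/
theorem idem_pow (hg : Good 𝓕) {e : Fam E} (he : BW 𝓕 e) (h : N0 𝓕 (e * (1 - e))) (p : ℕ) :
    N0 𝓕 (e ^ (p + 1) - e) := by
  induction p with
  | zero => rw [zero_add, pow_one, sub_self]; exact N0.zero
  | succ p ih =>
    have e1 : e ^ (p + 1 + 1) - e = (e ^ (p + 1) - e) * e - e * (1 - e) := by ring
    rw [e1]
    exact (ih.mul hg ((he.pow _).sub he) he).sub h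

theorem idem_rad (hg : Good 𝓕) {e : Fam E} (he : BW 𝓕 e) (h : N0 𝓕 (e * (1 - e))) :
    Rad 𝓕 e 1 := by
  obtain ⟨B, hB0, hB⟩ := he.nb
  refine ⟨B + 2, by linarith, fun p => ?_⟩
  rw [one_pow, mul_one]
  rcases p with _ | p
  · rw [pow_zero]; exact NB.one.mono (by linarith)
  · exact hB.of_N0 (idem_pow hg he h p) (by linarith)

/-- The product of two idempotents. -/
theorem idem_mul (hg : Good 𝓕) {e e' : Fam E} (he : BW 𝓕 e) (he' : BW 𝓕 e')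
    (h : N0 𝓕 (e * (1 - e))) (h' : N0 𝓕 (e' * (1 - e'))) :
    N0 𝓕 (e * e' * (1 - e * e')) := by
  have e1 : e * e' * (1 - e * e') = (e * (1 - e)) * e' + (e' * (1 - e')) * (e * e) := by ring
  rw [e1]
  exact (h.mul hg (he.mul (BW.one.sub he)) he').add
    (h'.mul hg (he'.mul (BW.one.sub he')) (he.mul he))

theorem Rad.congr (hg : Good 𝓕) (hq : BW 𝓕 q) (hq' : BW 𝓕 q') (h : Rad 𝓕 q ε) (hε : 0 < ε)
    (h' : N0 𝓕 (q' - q)) : Rad 𝓕 q' ε := by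
  have hp : ∀ p : ℕ, N0 𝓕 (q' ^ p - q ^ p) := by
    intro p
    induction p with
    | zero => rw [pow_zero, pow_zero, sub_self]; exact N0.zero
    | succ p ih =>
      have e1 : q' ^ (p + 1) - q ^ (p + 1) = (q' ^ p - q ^ p) * q' + (q' - q) * q ^ p := by ring
      rw [e1]
      exact (ih.mul hg ((hq'.pow _).sub (hq.pow _)) hq').add
        (h'.mul hg (hq'.sub hq) (hq.pow _))
  obtain ⟨C, hC, h1⟩ := h
  refine ⟨C + 1, by linarith, fun p => (h1 p).of_N0 (hp p) ?_⟩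
  have : 0 < ε ^ p := by positivity
  nlinarith

end Pool.Agent.MPca0fc2.IN
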