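import Mathlib
import Pool.Agent.Lib.MP_ca0fc2_an.INAlg
import Pool.Agent.Lib.MP_ca0fc2_an.INGlue
import Pool.Agent.Lib.MP_ca0fc2_an.INIdem

/-! The functions which are locally constant modulo one of the functions `F i`, up to idempotents. -/

set_option autoImplicit false

open Metric Set MeasureTheory Filter Topology

namespace Pool.Agent.MPca0fc2.IN

open Pool.Agent.Lib.MP_ca0fc2_an
open Pool.Agent.MPca0fc2.CP
open Pool.Agent.MPca0fc2.MG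
open Pool.Agent.MPca0fc2.SV (dom ball_subset_dom)

variable {n : ℕ}

/-- a constant family -/
def cst {E : Type*} (c : ℂ) : Fam E := fun _ _ => c

section flt

variable {ι : Type*} (Φ : Char Unit (EuclideanSpace ℂ (Fin n)))
  (F : ι → EuclideanSpace ℂ (Fin n) → ℂ)

/-- The sets on which the functions of `J` and of `J'` are as near the centre. -/
def Wset (J : Finset ι) (J' : Finset (TameGens n)) (ε : ℝ) : Set (Wd (EuclideanSpace ℂ (Fin n))) :=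
  {w | w.1 ⊆ ball 0 1 ∧ DifferentiableOn ℂ w.2 w.1 ∧
    (∀ i ∈ J, (∀ z ∈ w.1, F i z - Φ.φ (cf (F i)) = w.2 z) ∨
      ∀ z ∈ w.1, ‖F i z - Φ.φ (cf (F i))‖ ≤ ε) ∧
    ∀ k ∈ J', ∀ z ∈ w.1, ‖k.1 z - Φ.φ (cf k.1)‖ ≤ ε}

theorem Wset_anti {J₁ J₂ : Finset ι} {J₁' J₂' : Finset (TameGens n)} {ε₁ ε₂ : ℝ} (h : J₁ ⊆ J₂)
    (h' : J₁' ⊆ J₂') (hε : ε₂ ≤ ε₁) : Wset Φ F J₂ J₂' ε₂ ⊆ Wset Φ F J₁ J₁' ε₁ := by
  rintro w ⟨h1, h2, h3, h4⟩
  exact ⟨h1, h2, fun i hi => (h3 i (h hi)).imp id fun h5 z hz => (h5 z hz).trans hε,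
    fun k hk z hz => (h4 k (h' hk) z hz).trans hε⟩

/-- the filter of the small cells -/
def flt : Filter (Wd (EuclideanSpace ℂ (Fin n))) where
  sets := {s | ∃ (J : Finset ι) (J' : Finset (TameGens n)) (ε : ℝ), 0 < ε ∧ Wset Φ F J J' ε ⊆ s}
  univ_sets := ⟨∅, ∅, 1, one_pos, subset_univ _⟩
  sets_of_superset := by
    rintro s t ⟨J, J', ε, h1, h2⟩ hst
    exact ⟨J, J', ε, h1, h2.trans hst⟩
  inter_sets := by
    classical
    rintro s t ⟨J₁, J₁', ε₁, h1, h2⟩ ⟨J₂, J₂', ε₂, h3, h4⟩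
    refine ⟨J₁ ∪ J₂, J₁' ∪ J₂', min ε₁ ε₂, lt_min h1 h3, subset_inter ?_ ?_⟩
    · exact (Wset_anti Φ F Finset.subset_union_left Finset.subset_union_left
        (min_le_left _ _)).trans h2
    · exact (Wset_anti Φ F Finset.subset_union_right Finset.subset_union_right
        (min_le_right _ _)).trans h4

theorem mem_flt {P : Wd (EuclideanSpace ℂ (Fin n)) → Prop} : (∀ᶠ w in flt Φ F, P w) ↔
    ∃ (J : Finset ι) (J' : Finset (TameGens n)) (ε : ℝ), 0 < ε ∧ ∀ w ∈ Wset Φ F J J' ε, P w :=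
  Iff.rfl

theorem flt_good : Good (flt Φ F) :=
  ⟨(mem_flt Φ F).2 ⟨∅, ∅, 1, one_pos, fun _ hw => hw.1⟩,
    (mem_flt Φ F).2 ⟨∅, ∅, 1, one_pos, fun _ hw => hw.2.1⟩⟩

/-- Functions which are nearly constant modulo `x`. -/
theorem n0_of_near {a : EuclideanSpace ℂ (Fin n) → ℂ} {c : ℂ}
    (h : NearAt (fun i => cf (F i)) (fun i => Φ.φ (cf (F i)))
      (fun k : TameGens n => cf k.1) (fun k => Φ.φ (cf k.1)) (cf a) c) :
    N0 (flt Φ F) (gl a - cst c) := by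
  classical
  intro θ hθ
  obtain ⟨J, J', ε, C, hε, h1⟩ := h θ hθ
  have h2 : ∀ w : Wd (EuclideanSpace ℂ (Fin n)), ∃ Ψ : EuclideanSpace ℂ (Fin n) → ℂ,
      w ∈ Wset Φ F J J' ε → DifferentiableOn ℂ Ψ w.1 ∧ (∀ z ∈ w.1, ‖Ψ z‖ ≤ C) ∧
        ∀ z ∈ w.1, ‖a z - c - w.2 z * Ψ z‖ ≤ θ := by
    intro w
    by_cases hw : w ∈ Wset Φ F J J' ε
    · obtain ⟨Ψ, hΨ⟩ := h1 () w.1 w.2 hw.1 hw.2.1 hw.2.2.1 hw.2.2.2
      exact ⟨Ψ, fun _ => hΨ⟩
    · exact ⟨fun _ => 0, fun h => absurd h hw⟩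
  choose Ψ hΨ using h2
  refine ⟨Ψ, ⟨C, (mem_flt Φ F).2 ⟨J, J', ε, hε, fun w hw => ⟨(hΨ w hw).1, (hΨ w hw).2.1⟩⟩⟩,
    (mem_flt Φ F).2 ⟨J, J', ε, hε, fun w hw z hz => ?_⟩⟩
  exact (hΨ w hw).2.2 z hz

end flt

section ideal

variable {E : Type*} [NormedAddCommGroup E] [NormedSpace ℂ E] (Φ : Char Unit E)
  (𝓕 : Filter (Wd E))

/-- The closed ideal generated by the kernel of the character. -/
def Ide (q : Fam E) : Prop := ∀ θ : ℝ, 0 < θ → ∃ (k : ℕ) (v : Fin k → E → ℂ) (h : Fin k → Fam E),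
  (∀ i, BH (fun _ : Unit => v i) ∧ Φ.φ (fun _ => v i) = 0) ∧ (∀ i, BW 𝓕 (h i)) ∧
    NB 𝓕 (q - ∑ i, gl (v i) * h i) θ

variable {Φ 𝓕} {q q' : Fam E}

theorem Ide.of_N0 (h : N0 𝓕 q) : Ide Φ 𝓕 q := fun θ hθ =>
  ⟨0, fun _ _ => 0, fun _ => 0, fun i => i.elim0, fun i => i.elim0, by
    simpa using h θ hθ⟩

theorem Ide.add (h : Ide Φ 𝓕 q) (h' : Ide Φ 𝓕 q') : Ide Φ 𝓕 (q + q') := by
  intro θ hθ
  obtain ⟨k, v, g, h1, h2, h3⟩ := h (θ / 2) (by positivity)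
  obtain ⟨k', v', g', h1', h2', h3'⟩ := h' (θ / 2) (by positivity)
  refine ⟨k + k', Fin.append v v', Fin.append g g', ?_, ?_, ?_⟩
  · intro i
    refine Fin.addCases (fun i => ?_) (fun i => ?_) i
    · simp only [Fin.append_left]; exact h1 i
    · simp only [Fin.append_right]; exact h1' i
  · intro i
    refine Fin.addCases (fun i => ?_) (fun i => ?_) i
    · simp only [Fin.append_left]; exact h2 i
    · simp only [Fin.append_right]; exact h2' i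
  · have h4 := h3.add h3'
    rw [add_halves] at h4
    have e : q + q' - ∑ i, gl (Fin.append v v' i) * Fin.append g g' i =
        (q - ∑ i, gl (v i) * g i) + (q' - ∑ i, gl (v' i) * g' i) := by
      rw [Fin.sum_univ_add]
      simp only [Fin.append_left, Fin.append_right]
      ring
    rw [e]
    exact h4

theorem bw_sum_gl (hg : Good 𝓕) {k : ℕ} {v : Fin k → E → ℂ} {h : Fin k → Fam E}
    (hv : ∀ i, BH (fun _ : Unit => v i)) (hh : ∀ i, BW 𝓕 (h i)) :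
    BW 𝓕 (∑ i, gl (v i) * h i) :=
  BW.sum fun i _ => by
    obtain ⟨C, hC⟩ := (hv i).bdd
    exact (BW.gl hg ((hv i).holo ()) (fun z hz => hC () z hz)).mul (hh i)

theorem Ide.mul (hg : Good 𝓕) (hq : BW 𝓕 q) (hq' : BW 𝓕 q') (h : Ide Φ 𝓕 q) :
    Ide Φ 𝓕 (q * q') := by
  intro θ hθ
  obtain ⟨B, hB0, hB⟩ := hq'.nb
  obtain ⟨k, v, g, h1, h2, h3⟩ := h (θ / B) (by positivity)
  refine ⟨k, v, fun i => g i * q', h1, fun i => (h2 i).mul hq', ?_⟩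
  have e : q * q' - ∑ i, gl (v i) * (g i * q') = (q - ∑ i, gl (v i) * g i) * q' := by
    rw [sub_mul, Finset.sum_mul]
    congr 1
    exact Finset.sum_congr rfl fun i _ => by ring
  rw [e]
  have h4 := h3.mul hg (hq.sub (bw_sum_gl hg (fun i => (h1 i).1) h2)) hq' hB (by positivity)
  rwa [div_mul_cancel₀ _ hB0.ne'] at h4

theorem Ide.of_gl (hg : Good 𝓕) {v : E → ℂ} (hv : BH (fun _ : Unit => v))
    (h0 : Φ.φ (fun _ => v) = 0) {h : Fam E} (hh : BW 𝓕 h) : Ide Φ 𝓕 (gl v * h) := by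
  intro θ hθ
  refine ⟨1, fun _ => v, fun _ => h, fun _ => ⟨hv, h0⟩, fun _ => hh, ?_⟩
  have e : gl v * h - ∑ _i : Fin 1, gl v * h = 0 := by simp
  rw [e]
  exact N0.zero θ hθ

theorem Ide.sum (hg : Good 𝓕) {κ : Type*} {s : Finset κ} {q : κ → Fam E}
    (h : ∀ k ∈ s, Ide Φ 𝓕 (q k)) : Ide Φ 𝓕 (∑ k ∈ s, q k) := by
  classical
  induction s using Finset.induction_on with
  | empty => rw [Finset.sum_empty]; exact Ide.of_N0 N0.zero
  | insert a s has ih =>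
    rw [Finset.sum_insert has]
    exact (h a (Finset.mem_insert_self _ _)).add
      (ih fun k hk => h k (Finset.mem_insert_of_mem hk))

theorem Ide.congr (h : Ide Φ 𝓕 q) (h' : N0 𝓕 (q' - q)) : Ide Φ 𝓕 q' := by
  have := h.add (Ide.of_N0 h')
  rwa [add_sub_cancel] at this

/-- An idempotent modulo `x` which is `1` at the character. -/
structure Idm (Φ : Char Unit E) (𝓕 : Filter (Wd E)) (e : Fam E) : Prop where
  bw : BW 𝓕 e
  idem : NB 𝓕 (e * (1 - e)) 0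
  ide : Ide Φ 𝓕 (1 - e)

theorem Idm.n0 {e : Fam E} (h : Idm Φ 𝓕 e) : N0 𝓕 (e * (1 - e)) :=
  fun _ hθ => h.idem.mono hθ.le

theorem Idm.rad (hg : Good 𝓕) {e : Fam E} (h : Idm Φ 𝓕 e) : Rad 𝓕 e 1 := idem_rad hg h.bw h.n0

theorem Idm.one : Idm Φ 𝓕 (1 : Fam E) := by
  refine ⟨BW.one, ?_, ?_⟩
  · rw [sub_self, mul_zero]
    have := NB.const (𝓕 := 𝓕) (0 : ℂ)
    rw [norm_zero] at this
    exact this
  · rw [sub_self]
    exact Ide.of_N0 N0.zero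

theorem Idm.mul (hg : Good 𝓕) {e e' : Fam E} (h : Idm Φ 𝓕 e) (h' : Idm Φ 𝓕 e') :
    Idm Φ 𝓕 (e * e') := by
  refine ⟨h.bw.mul h'.bw, ?_, ?_⟩
  · have e1 : e * e' * (1 - e * e') = (e * (1 - e)) * e' + (e' * (1 - e')) * (e * e) := by ring
    rw [e1]
    obtain ⟨B, hB0, hB⟩ := h'.bw.nb
    obtain ⟨B', hB'0, hB'⟩ := (h.bw.mul h.bw).nb
    have h1 := h.idem.mul hg (h.bw.mul (BW.one.sub h.bw)) h'.bw hB le_rfl
    have h2 := h'.idem.mul hg (h'.bw.mul (BW.one.sub h'.bw)) (h.bw.mul h.bw) hB' le_rfl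
    rw [zero_mul] at h1 h2
    have := h1.add h2
    rwa [add_zero] at this
  · have e1 : 1 - e * e' = (1 - e) + (1 - e') * e := by ring
    rw [e1]
    exact h.ide.add (h'.ide.mul hg (BW.one.sub h'.bw) h.bw)

theorem Idm.prod (hg : Good 𝓕) {κ : Type*} (s : Finset κ) {e : κ → Fam E}
    (h : ∀ k, Idm Φ 𝓕 (e k)) : Idm Φ 𝓕 (∏ k ∈ s, e k) := by
  classical
  induction s using Finset.induction_on with
  | empty => rw [Finset.prod_empty]; exact Idm.one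
  | insert a s has ih =>
    rw [Finset.prod_insert has]
    exact (h a).mul hg ih

end ideal

end Pool.Agent.MPca0fc2.IN
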