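import Mathlib
import Pool.Agent.Lib.MP_ca0fc2_an.INCls

/-! The algebra of the functions which are locally constant modulo one of the functions `F i`, after
multiplication by an idempotent. -/

set_option autoImplicit false

open Metric Set MeasureTheory Filter Topology

namespace Pool.Agent.MPca0fc2.IN

open Pool.Agent.Lib.MP_ca0fc2_an

variable {n : ℕ}

/-- The functions which are nearly constant modulo `x` after multiplication by an idempotent. -/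
def InT (Φ : Char Unit (EuclideanSpace ℂ (Fin n))) (𝓕 : Filter (Wd (EuclideanSpace ℂ (Fin n))))
    (G : EuclideanSpace ℂ (Fin n) → ℂ) : Prop :=
  BH (cf G) ∧ ∀ ε : ℝ, 0 < ε → ∃ e : Fam (EuclideanSpace ℂ (Fin n)), Idm Φ 𝓕 e ∧
    Rad 𝓕 (e * (gl G - cst (Φ.φ (cf G)))) ε

variable {Φ : Char Unit (EuclideanSpace ℂ (Fin n))} {𝓕 : Filter (Wd (EuclideanSpace ℂ (Fin n)))}
  {G G' : EuclideanSpace ℂ (Fin n) → ℂ}

theorem bw_gl (hg : Good 𝓕) (h : BH (cf G)) : BW 𝓕 (gl G) := by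
  obtain ⟨C, hC⟩ := h.bdd
  exact BW.gl hg (h.holo ()) (fun z hz => hC () z hz)

theorem nb_gl (hg : Good 𝓕) {C : ℝ} (hC : ∀ z ∈ ball (0 : EuclideanSpace ℂ (Fin n)) 1, ‖G z‖ ≤ C) :
    NB 𝓕 (gl G) C :=
  NB.of_bdd (hg.sub.mono fun _ hw z hz => hC z (hw hz))

theorem bw_cst (c : ℂ) : BW 𝓕 (cst c : Fam (EuclideanSpace ℂ (Fin n))) := BW.const c

theorem InT.of_n0 (hg : Good 𝓕) (hB : BH (cf G)) (h : N0 𝓕 (gl G - cst (Φ.φ (cf G)))) :
    InT Φ 𝓕 G := by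
  refine ⟨hB, fun ε hε => ⟨1, Idm.one, ?_⟩⟩
  rw [one_mul]
  exact Rad.of_NB hg ((bw_gl hg hB).sub (bw_cst _)) (h ε hε) hε.le

theorem InT.const (hg : Good 𝓕) (c : ℂ) : InT Φ 𝓕 (fun _ => c) := by
  refine InT.of_n0 hg (BH.const c) ?_
  have e : gl (fun _ => c) - cst (Φ.φ (cf fun _ => c)) = (0 : Fam (EuclideanSpace ℂ (Fin n))) := by
    have h1 : Φ.φ (cf fun _ => c) = c := Φ.map_const c
    rw [h1]
    funext w z
    simp [gl, cst]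
  rw [e]
  exact N0.zero

theorem InT.add (hg : Good 𝓕) (h : InT Φ 𝓕 G) (h' : InT Φ 𝓕 G') :
    InT Φ 𝓕 (fun z => G z + G' z) := by
  refine ⟨h.1.add h'.1, fun ε hε => ?_⟩
  obtain ⟨e, he, h1⟩ := h.2 (ε / 2) (by positivity)
  obtain ⟨e', he', h1'⟩ := h'.2 (ε / 2) (by positivity)
  refine ⟨e * e', he.mul hg he', ?_⟩
  have h2 : Φ.φ (cf fun z => G z + G' z) = Φ.φ (cf G) + Φ.φ (cf G') := Φ.map_add h.1 h'.1
  have e1 : e * e' * (gl (fun z => G z + G' z) - cst (Φ.φ (cf fun z => G z + G' z))) =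
      e' * (e * (gl G - cst (Φ.φ (cf G)))) + e * (e' * (gl G' - cst (Φ.φ (cf G')))) := by
    rw [h2]
    funext w z
    simp only [Pi.mul_apply, Pi.sub_apply, Pi.add_apply, gl, cst]
    ring
  rw [e1]
  have b1 := (bw_gl hg h.1).sub (bw_cst (𝓕 := 𝓕) (Φ.φ (cf G)))
  have b2 := (bw_gl hg h'.1).sub (bw_cst (𝓕 := 𝓕) (Φ.φ (cf G')))
  have h3 := (he'.rad hg).mul hg he'.bw (he.bw.mul b1) h1 zero_le_one
  have h4 := (he.rad hg).mul hg he.bw (he'.bw.mul b2) h1' zero_le_one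
  rw [one_mul] at h3 h4
  have h5 := h3.add hg (he'.bw.mul (he.bw.mul b1)) (he.bw.mul (he'.bw.mul b2)) h4
    (by positivity) (by positivity)
  rwa [add_halves] at h5

theorem InT.mul (hg : Good 𝓕) (h : InT Φ 𝓕 G) (h' : InT Φ 𝓕 G') :
    InT Φ 𝓕 (fun z => G z * G' z) := by
  refine ⟨h.1.mul h'.1, fun ε hε => ?_⟩
  obtain ⟨B, hB0, hB⟩ := h'.1.bdd'
  obtain ⟨e, he, h1⟩ := h.2 (ε / 2 / B) (by positivity)
  obtain ⟨A, hA⟩ : ∃ A : ℝ, A = ‖Φ.φ (cf G)‖ + 1 := ⟨_, rfl⟩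
  have hA0 : 0 < A := by rw [hA]; positivity
  obtain ⟨e', he', h1'⟩ := h'.2 (ε / 2 / A) (by positivity)
  refine ⟨e * e', he.mul hg he', ?_⟩
  have h2 : Φ.φ (cf fun z => G z * G' z) = Φ.φ (cf G) * Φ.φ (cf G') := Φ.map_mul h.1 h'.1
  have e1 : e * e' * (gl (fun z => G z * G' z) - cst (Φ.φ (cf fun z => G z * G' z))) =
      (e' * (e * (gl G - cst (Φ.φ (cf G))))) * gl G' +
        (e * (e' * (gl G' - cst (Φ.φ (cf G'))))) * cst (Φ.φ (cf G)) := by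
    rw [h2]
    funext w z
    simp only [Pi.mul_apply, Pi.sub_apply, Pi.add_apply, gl, cst]
    ring
  rw [e1]
  have b1 := (bw_gl hg h.1).sub (bw_cst (𝓕 := 𝓕) (Φ.φ (cf G)))
  have b2 := (bw_gl hg h'.1).sub (bw_cst (𝓕 := 𝓕) (Φ.φ (cf G')))
  have h3 := (he'.rad hg).mul hg he'.bw (he.bw.mul b1) h1 zero_le_one
  have h4 := (he.rad hg).mul hg he.bw (he'.bw.mul b2) h1' zero_le_one
  rw [one_mul] at h3 h4
  have r1 : Rad 𝓕 (gl G') B := Rad.of_NB hg (bw_gl hg h'.1) (nb_gl hg fun z hz => hB () z hz)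
    hB0.le
  have r2 : Rad 𝓕 (cst (Φ.φ (cf G)) : Fam (EuclideanSpace ℂ (Fin n))) A :=
    Rad.of_NB hg (bw_cst _) ((NB.const _).mono (by rw [hA]; linarith)) hA0.le
  have h3' := h3.mul hg (he'.bw.mul (he.bw.mul b1)) (bw_gl hg h'.1) r1 (by positivity)
  have h4' := h4.mul hg (he.bw.mul (he'.bw.mul b2)) (bw_cst _) r2 (by positivity)
  rw [div_mul_cancel₀ _ hB0.ne'] at h3'
  rw [div_mul_cancel₀ _ hA0.ne'] at h4'
  have h5 := h3'.add hg ((he'.bw.mul (he.bw.mul b1)).mul (bw_gl hg h'.1))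
    ((he.bw.mul (he'.bw.mul b2)).mul (bw_cst _)) h4' (by positivity) (by positivity)
  rwa [add_halves] at h5

theorem InT.lim (hg : Good 𝓕) (hB : DifferentiableOn ℂ G (ball 0 1))
    (h : ∀ ε : ℝ, 0 < ε → ∃ G', InT Φ 𝓕 G' ∧
      ∀ z ∈ ball (0 : EuclideanSpace ℂ (Fin n)) 1, ‖G z - G' z‖ ≤ ε) : InT Φ 𝓕 G := by
  have hBG : BH (cf G) := by
    obtain ⟨G', h1, h2⟩ := h 1 one_pos
    obtain ⟨C, hC⟩ := h1.1.bdd
    refine ⟨fun _ => hB, 1 + C, fun t z hz => ?_⟩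
    calc ‖G z‖ = ‖(G z - G' z) + G' z‖ := by rw [sub_add_cancel]
      _ ≤ ‖G z - G' z‖ + ‖G' z‖ := norm_add_le _ _
      _ ≤ 1 + C := add_le_add (h2 z hz) (hC t z hz)
  refine ⟨hBG, fun ε hε => ?_⟩
  obtain ⟨G', h1, h2⟩ := h (ε / 4) (by positivity)
  obtain ⟨e, he, h3⟩ := h1.2 (ε / 2) (by positivity)
  refine ⟨e, he, ?_⟩
  have h4 : ‖Φ.φ (cf G) - Φ.φ (cf G')‖ ≤ ε / 4 := by
    rw [← Char.map_sub Φ hBG h1.1]
    exact Φ.bound (hBG.sub h1.1) (by positivity) fun _ z hz => h2 z hz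
  have e1 : e * (gl G - cst (Φ.φ (cf G))) = e * (gl G' - cst (Φ.φ (cf G'))) +
      e * ((gl G - gl G') - cst (Φ.φ (cf G) - Φ.φ (cf G'))) := by
    funext w z
    simp only [Pi.mul_apply, Pi.sub_apply, Pi.add_apply, gl, cst]
    ring
  rw [e1]
  have b1 := (bw_gl hg h1.1).sub (bw_cst (𝓕 := 𝓕) (Φ.φ (cf G')))
  have b2 := ((bw_gl hg hBG).sub (bw_gl hg h1.1)).sub
    (bw_cst (𝓕 := 𝓕) (Φ.φ (cf G) - Φ.φ (cf G')))
  have h5 : NB 𝓕 ((gl G - gl G') - cst (Φ.φ (cf G) - Φ.φ (cf G'))) (ε / 2) := by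
    refine NB.of_bdd (hg.sub.mono fun w hw z hz => ?_)
    show ‖(G z - G' z) - (Φ.φ (cf G) - Φ.φ (cf G'))‖ ≤ ε / 2
    calc _ ≤ ‖G z - G' z‖ + ‖Φ.φ (cf G) - Φ.φ (cf G')‖ := norm_sub_le _ _
      _ ≤ ε / 4 + ε / 4 := add_le_add (h2 z (hw hz)) h4
      _ = ε / 2 := by ring
  have h6 := (he.rad hg).mul hg he.bw b2 (Rad.of_NB hg b2 h5 (by positivity)) zero_le_one
  rw [one_mul] at h6
  have h7 := h3.add hg (he.bw.mul b1) (he.bw.mul b2) h6 (by positivity) (by positivity)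
  rwa [add_halves] at h7

/-- The class is a closed algebra. -/
theorem inT_closedAlg (hg : Good 𝓕) {S : Set (EuclideanSpace ℂ (Fin n) → ℂ)}
    (hS : ∀ G ∈ S, InT Φ 𝓕 G) : ∀ G ∈ ClosedAlg S, InT Φ 𝓕 G := by
  rintro G ⟨h1, h2⟩
  refine InT.lim hg h1 fun ε hε => ?_
  obtain ⟨q, hq, h3⟩ := h2 ε hε
  refine ⟨q, ?_, h3⟩
  clear h3
  induction hq using Algebra.adjoin_induction with
  | mem x hx => exact hS x hx
  | algebraMap c => exact InT.const hg c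
  | add x y _ _ hx hy => exact hx.add hg hy
  | mul x y _ _ hx hy => exact hx.mul hg hy

end Pool.Agent.MPca0fc2.IN
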