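import Mathlib
import Pool.Agent.Lib.MP_ca0fc2_an.INTcl

/-! Joint cluster values of the functions in the class. -/

set_option autoImplicit false

open Metric Set MeasureTheory Filter Topology

namespace Pool.Agent.MPca0fc2.IN

open Pool.Agent.Lib.MP_ca0fc2_an
open Pool.Agent.MPca0fc2.CP
open Pool.Agent.MPca0fc2.MG
open Pool.Agent.MPca0fc2.UG (finset_bd)
open Pool.Agent.MPca0fc2.SV (dom ball_subset_dom)

variable {n : ℕ}

/-- If the functions of the class are away from their values then the product of idempotents is a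
multiple of `x`. -/
theorem prod_nb {Φ : Char Unit (EuclideanSpace ℂ (Fin n))}
    {𝓕 : Filter (Wd (EuclideanSpace ℂ (Fin n)))} (hg : Good 𝓕) {N : ℕ}
    {G : Fin N → EuclideanSpace ℂ (Fin n) → ℂ} (g : Fin N → ℂ) {ε : ℝ} (hε : 0 < ε)
    {e : Fin N → Fam (EuclideanSpace ℂ (Fin n))} (he : ∀ j, Idm Φ 𝓕 (e j))
    (hr : ∀ j, Rad 𝓕 (e j * (gl (G j) - cst (g j))) (ε / 16))
    (hfar : ∀ z ∈ ball (0 : EuclideanSpace ℂ (Fin n)) 1, ∃ j, ε ≤ ‖G j z - g j‖) :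
    NB 𝓕 (∏ j, e j) 0 := by
  classical
  choose C hC0 hC using hr
  obtain ⟨C₁, hC₁⟩ := finset_bd Finset.univ C
  obtain ⟨C₀, hC₀⟩ : ∃ C₀, C₀ = max C₁ 1 := ⟨_, rfl⟩
  have hC₀1 : 1 ≤ C₀ := by rw [hC₀]; exact le_max_right _ _
  have hCj : ∀ j, C j ≤ C₀ := fun j => (hC₁ j (Finset.mem_univ j)).trans
    (by rw [hC₀]; exact le_max_left _ _)
  obtain ⟨p₀, hp₀⟩ := pow_unbounded_of_one_lt (2 * C₀) (one_lt_two (α := ℝ))
  obtain ⟨p, hp⟩ : ∃ p, p = p₀ + 1 := ⟨_, rfl⟩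
  have hp2 : 2 * C₀ ≤ 2 ^ p := by
    rw [hp, pow_succ]
    have : (0 : ℝ) < 2 ^ p₀ := by positivity
    linarith
  have hp1 : p ≠ 0 := by omega
  have hsm : ∀ j, C j * (ε / 16) ^ p ≤ (ε / 8) ^ p / 2 := by
    intro j
    have h1 : (ε / 8) ^ p = 2 ^ p * (ε / 16) ^ p := by
      rw [← mul_pow]; congr 1; ring
    rw [h1]
    have h2 : 0 < (ε / 16) ^ p := by positivity
    have h3 := hCj j
    nlinarith
  choose Ψ hΨ hΨe using fun j => hC j p
  choose B hB0 hBe using fun j => (hΨ j).bdd'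
  obtain ⟨B₁, hB₁⟩ := finset_bd Finset.univ B
  obtain ⟨BΨ, hBΨ⟩ : ∃ BΨ, BΨ = max B₁ 1 := ⟨_, rfl⟩
  have hBΨ1 : 1 ≤ BΨ := by rw [hBΨ]; exact le_max_right _ _
  have hBj : ∀ j, B j ≤ BΨ := fun j => (hB₁ j (Finset.mem_univ j)).trans
    (by rw [hBΨ]; exact le_max_left _ _)
  obtain ⟨τ, hτ⟩ : ∃ τ, τ = (ε / 8) ^ p / 2 / BΨ := ⟨_, rfl⟩
  have hτ0 : 0 < τ := by rw [hτ]; positivity
  choose Be hBe0 hBee using fun j => (he j).bw.bdd'
  obtain ⟨B₂, hB₂⟩ := finset_bd Finset.univ Be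
  obtain ⟨BE, hBE⟩ : ∃ BE, BE = max B₂ 1 := ⟨_, rfl⟩
  have hBE1 : 1 ≤ BE := by rw [hBE]; exact le_max_right _ _
  have hBEj : ∀ j, Be j ≤ BE := fun j => (hB₂ j (Finset.mem_univ j)).trans
    (by rw [hBE]; exact le_max_left _ _)
  choose Θ hΘ hΘe using fun j => (he j).idem
  choose BT hBT0 hBTe using fun j => (hΘ j).bdd'
  obtain ⟨B₃, hB₃⟩ := finset_bd Finset.univ BT
  obtain ⟨BΘ, hBΘ⟩ : ∃ BΘ, BΘ = max B₃ 1 := ⟨_, rfl⟩
  have hBΘ1 : 1 ≤ BΘ := by rw [hBΘ]; exact le_max_right _ _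
  have hBΘj : ∀ j, BT j ≤ BΘ := fun j => (hB₃ j (Finset.mem_univ j)).trans
    (by rw [hBΘ]; exact le_max_left _ _)
  obtain ⟨P, hP⟩ : ∃ P : Wd (EuclideanSpace ℂ (Fin n)) → Prop, P = fun w =>
      ((w.1 ⊆ ball (0 : EuclideanSpace ℂ (Fin n)) 1 ∧
      DifferentiableOn ℂ w.2 w.1) ∧ ∀ j,
      ((∀ z ∈ w.1, ‖(e j w z * (G j z - g j)) ^ p - w.2 z * Ψ j w z‖ ≤
        C j * (ε / 16) ^ p) ∧ (∀ z ∈ w.1, ‖Ψ j w z‖ ≤ B j)) ∧
      ((DifferentiableOn ℂ (e j w) w.1 ∧ ∀ z ∈ w.1, ‖e j w z‖ ≤ Be j) ∧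
      ((∀ z ∈ w.1, ‖(e j * (1 - e j)) w z - w.2 z * Θ j w z‖ ≤ 0) ∧
        DifferentiableOn ℂ (Θ j w) w.1 ∧ ∀ z ∈ w.1, ‖Θ j w z‖ ≤ BT j))) := ⟨_, rfl⟩
  have hall : ∀ᶠ w in 𝓕, P w := by
    rw [hP]
    refine (hg.sub.and hg.diff).and (eventually_all.2 fun j => ?_)
    refine ((hΨe j).and ((hBe j).mono fun w hw => hw.2)).and
      ((hBee j).and ((hΘe j).and (hBTe j)))
  have hex : ∀ w : Wd (EuclideanSpace ℂ (Fin n)), ∃ h : EuclideanSpace ℂ (Fin n) → ℂ,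
      P w →
      DifferentiableOn ℂ h w.1 ∧ (∀ z ∈ w.1, ‖h z‖ ≤ BE ^ N / τ + 2 * (BE ^ N * BΘ)) ∧
        ∀ z ∈ w.1, w.2 z * h z = ∏ j, e j w z := by
    intro w
    by_cases hw : P w
    · rw [hP] at hw
      obtain ⟨⟨hw1, hw2⟩, hw3⟩ := hw
      obtain ⟨h, h1, h2, h3⟩ := prod_div (N := N) hBE1 hτ0 (by linarith : 0 ≤ BΘ) (D := w.1)
        (x := w.2) (e := fun j => e j w) (Θ := fun j => Θ j w) hw2 (fun j => (hw3 j).2.1.1)
        (fun j => (hw3 j).2.2.2.1) (fun j z hz => ((hw3 j).2.1.2 z hz).trans (hBEj j))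
        (fun j z hz => ((hw3 j).2.2.2.2 z hz).trans (hBΘj j)) (fun j z hz => by
          have := (hw3 j).2.2.1 z hz
          have h0 := norm_le_zero_iff.1 this
          exact sub_eq_zero.1 h0) (fun z hz hx => by
          obtain ⟨j, hj⟩ := hfar z (hw1 hz)
          refine ⟨j, ?_⟩
          have h1 := (hw3 j).1.1 z hz
          have h2 := (hw3 j).1.2 z hz
          have h4 : ‖e j w z * (G j z - g j)‖ ^ p ≤ (ε / 8) ^ p := by
            rw [← norm_pow]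
            calc _ = ‖((e j w z * (G j z - g j)) ^ p - w.2 z * Ψ j w z) + w.2 z * Ψ j w z‖ := by
                  rw [sub_add_cancel]
              _ ≤ C j * (ε / 16) ^ p + ‖w.2 z‖ * ‖Ψ j w z‖ := by
                  rw [← norm_mul]
                  exact (norm_add_le _ _).trans (add_le_add h1 le_rfl)
              _ ≤ (ε / 8) ^ p / 2 + τ * BΨ := by
                  refine add_le_add (hsm j) ?_
                  exact mul_le_mul hx.le (h2.trans (hBj j)) (norm_nonneg _) hτ0.le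
              _ = (ε / 8) ^ p := by
                  rw [hτ, div_mul_cancel₀ _ (by linarith : BΨ ≠ 0)]
                  ring
          have h5 : ‖e j w z * (G j z - g j)‖ ≤ ε / 8 :=
            le_of_pow_le_pow_left₀ hp1 (by positivity) h4
          rw [norm_mul] at h5
          have h6 := norm_nonneg (e j w z)
          by_contra hcon
          push Not at hcon
          nlinarith)
      exact ⟨h, fun _ => ⟨h1, h2, h3⟩⟩
    · exact ⟨fun _ => 0, fun h => absurd h hw⟩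
  choose h hh using hex
  refine ⟨h, ⟨BE ^ N / τ + 2 * (BE ^ N * BΘ), hall.mono fun w hw => ⟨(hh w hw).1, (hh w hw).2.1⟩⟩,
    hall.mono fun w hw z hz => ?_⟩
  rw [(hh w hw).2.2 z hz]
  have : (∏ j, e j) w z = ∏ j, e j w z := by
    simp only [Finset.prod_apply]
  rw [this, sub_self, norm_zero]

end Pool.Agent.MPca0fc2.IN
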