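import Mathlib
import Pool.Agent.Lib.MP_ca0fc2_an.INTcl

/-! The closure of the class under equations. -/

set_option autoImplicit false

open Metric Set MeasureTheory Filter Topology

namespace Pool.Agent.MPca0fc2.IN

open Pool.Agent.Lib.MP_ca0fc2_an

variable {n : ℕ}

theorem Rad.sum {𝓕 : Filter (Wd (EuclideanSpace ℂ (Fin n)))} (hg : Good 𝓕)
    {κ : Type*} {s : Finset κ} {q : κ → Fam (EuclideanSpace ℂ (Fin n))} {θ : κ → ℝ}
    (hθ : ∀ k ∈ s, 0 ≤ θ k) (hq : ∀ k ∈ s, BW 𝓕 (q k)) (h : ∀ k ∈ s, Rad 𝓕 (q k) (θ k)) :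
    Rad 𝓕 (∑ k ∈ s, q k) (∑ k ∈ s, θ k) := by
  classical
  induction s using Finset.induction_on with
  | empty =>
    rw [Finset.sum_empty, Finset.sum_empty]
    exact Rad.of_NB hg (BW.const 0) (NB.const (0 : ℂ) |>.mono (by rw [norm_zero])) le_rfl
  | insert a s has ih =>
    rw [Finset.sum_insert has, Finset.sum_insert has]
    exact (h a (Finset.mem_insert_self _ _)).add hg (hq a (Finset.mem_insert_self _ _))
      (BW.sum fun k hk => hq k (Finset.mem_insert_of_mem hk))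
      (ih (fun k hk => hθ k (Finset.mem_insert_of_mem hk))
        (fun k hk => hq k (Finset.mem_insert_of_mem hk))
        fun k hk => h k (Finset.mem_insert_of_mem hk))
      (hθ a (Finset.mem_insert_self _ _))
      (Finset.sum_nonneg fun k hk => hθ k (Finset.mem_insert_of_mem hk))

/-- If `(G - γ)ᴷ q` is a limit of combinations of functions `a - Φ(a)` with `a` in the class, and
`(G - γ)ᴷ` and `q` generate the algebra, then `G` is in the class. -/
theorem InT.core {𝓕 : Filter (Wd (EuclideanSpace ℂ (Fin n)))} (hg : Good 𝓕)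
    {Φ : Char Unit (EuclideanSpace ℂ (Fin n))}
    {G q R T : EuclideanSpace ℂ (Fin n) → ℂ} (hG : BH (cf G)) (hq : BH (cf q)) (hR : BH (cf R))
    (hT : BH (cf T)) {K : ℕ} (hK : 1 ≤ K)
    (hRT : ∀ z ∈ ball (0 : EuclideanSpace ℂ (Fin n)) 1,
      R z * (G z - Φ.φ (cf G)) ^ K + T z * q z = 1)
    (hS : ∀ η : ℝ, 0 < η → ∃ (m : ℕ) (a b : Fin m → EuclideanSpace ℂ (Fin n) → ℂ),
      (∀ k, InT Φ 𝓕 (a k)) ∧ (∀ k, BH (cf (b k))) ∧
      ∀ z ∈ ball (0 : EuclideanSpace ℂ (Fin n)) 1,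
        ‖(G z - Φ.φ (cf G)) ^ K * q z - ∑ k, (a k z - Φ.φ (cf (a k))) * b k z‖ ≤ η) :
    InT Φ 𝓕 G := by
  classical
  refine ⟨hG, fun ε hε => ?_⟩
  obtain ⟨γ, hγ⟩ : ∃ γ, γ = Φ.φ (cf G) := ⟨_, rfl⟩
  rw [← hγ] at hRT hS ⊢
  have hGγ : BH (cf fun z => G z - γ) := hG.sub (BH.const γ)
  have hw : BH (cf fun z => (G z - γ) ^ K) := hGγ.pow K
  obtain ⟨Bw, hBw0, hBw⟩ := hw.bdd'
  obtain ⟨BT, hBT0, hBT⟩ := hT.bdd'
  obtain ⟨Bq, hBq0, hBq⟩ := hq.bdd'
  obtain ⟨BR, hBR0, hBR⟩ := hR.bdd'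
  obtain ⟨b, hb⟩ : ∃ b, b = max (BT * Bq) 1 := ⟨_, rfl⟩
  have hb1 : 1 ≤ b := by rw [hb]; exact le_max_right _ _
  obtain ⟨ρ, hρ⟩ : ∃ ρ, ρ = min 1 (ε ^ K / (2 * Bw)) := ⟨_, rfl⟩
  have hρ0 : 0 < ρ := by rw [hρ]; exact lt_min one_pos (by positivity)
  have hρ1 : ρ ≤ 1 := by rw [hρ]; exact min_le_left _ _
  have hρ2 : ρ * Bw ≤ ε ^ K / 2 := by
    have h1 : ρ ≤ ε ^ K / (2 * Bw) := by rw [hρ]; exact min_le_right _ _
    calc ρ * Bw ≤ ε ^ K / (2 * Bw) * Bw := mul_le_mul_of_nonneg_right h1 hBw0.le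
      _ = ε ^ K / 2 := by field_simp
  obtain ⟨ε₁, hε₁, hlift⟩ := idem_lift hg hb1 hρ0 hρ1
  -- the size of the error
  obtain ⟨η, hη⟩ : ∃ η, η = min (ε₁ / (BT * BR)) (ε ^ K / (2 * BT)) / 2 := ⟨_, rfl⟩
  have hη0 : 0 < η := by
    rw [hη]
    have : 0 < min (ε₁ / (BT * BR)) (ε ^ K / (2 * BT)) := lt_min (by positivity) (by positivity)
    positivity
  have hη1 : 2 * η * (BT * BR) ≤ ε₁ := by
    have h1 : 2 * η ≤ ε₁ / (BT * BR) := by
      rw [hη]
      have := min_le_left (ε₁ / (BT * BR)) (ε ^ K / (2 * BT))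
      linarith
    calc _ ≤ ε₁ / (BT * BR) * (BT * BR) := mul_le_mul_of_nonneg_right h1 (by positivity)
      _ = ε₁ := by field_simp
  have hη2 : 2 * η * BT ≤ ε ^ K / 2 := by
    have h1 : 2 * η ≤ ε ^ K / (2 * BT) := by
      rw [hη]
      have := min_le_right (ε₁ / (BT * BR)) (ε ^ K / (2 * BT))
      linarith
    calc _ ≤ ε ^ K / (2 * BT) * BT := mul_le_mul_of_nonneg_right h1 hBT0.le
      _ = ε ^ K / 2 := by field_simp
  obtain ⟨m, a, c, ha, hc, hab⟩ := hS η hη0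
  choose Bc hBc0 hBc using fun k => (hc k).bdd'
  obtain ⟨SB, hSB⟩ : ∃ SB, SB = ∑ k, Bc k + 1 := ⟨_, rfl⟩
  have hSB0 : 0 < SB := by
    rw [hSB]
    have := Finset.sum_nonneg (s := Finset.univ) fun k _ => (hBc0 k).le
    linarith
  obtain ⟨ε', hε'⟩ : ∃ ε', ε' = η / SB := ⟨_, rfl⟩
  have hε'0 : 0 < ε' := by rw [hε']; positivity
  choose e he hr using fun k => (ha k).2 ε' hε'0
  obtain ⟨e₀, he₀⟩ : ∃ e₀ : Fam (EuclideanSpace ℂ (Fin n)), e₀ = ∏ k, e k := ⟨_, rfl⟩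
  have hI₀ : Idm Φ 𝓕 e₀ := by rw [he₀]; exact Idm.prod hg Finset.univ he
  have bG := bw_gl hg hG
  have bq := bw_gl hg hq
  have bR := bw_gl hg hR
  have bT := bw_gl hg hT
  have bγ : BW 𝓕 (gl (fun z => G z - γ)) := bw_gl hg hGγ
  have bw := bw_gl hg hw
  -- the function `S(G)`
  obtain ⟨σ, hσ⟩ : ∃ σ : Fam (EuclideanSpace ℂ (Fin n)),
    σ = e₀ * gl (fun z => (G z - γ) ^ K * q z) := ⟨_, rfl⟩
  have hSB : BH (cf fun z => (G z - γ) ^ K * q z) := hw.mul hq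
  have bS := bw_gl hg hSB
  have bσ : BW 𝓕 σ := by rw [hσ]; exact hI₀.bw.mul bS
  have hσr : Rad 𝓕 σ (2 * η) := by
    have e1 : σ = e₀ * (gl (fun z => (G z - γ) ^ K * q z) -
        ∑ k, gl (fun z => a k z - Φ.φ (cf (a k))) * gl (c k)) +
        ∑ k, ((∏ i ∈ Finset.univ.erase k, e i) *
          (e k * (gl (a k) - cst (Φ.φ (cf (a k)))))) * gl (c k) := by
      have e2 : ∀ k, ((∏ i ∈ Finset.univ.erase k, e i) *
          (e k * (gl (a k) - cst (Φ.φ (cf (a k)))))) * gl (c k) =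
          e₀ * (gl (fun z => a k z - Φ.φ (cf (a k))) * gl (c k)) := by
        intro k
        have e3 : gl (fun z => a k z - Φ.φ (cf (a k))) = gl (a k) - cst (Φ.φ (cf (a k))) := rfl
        rw [e3, he₀, ← Finset.prod_erase_mul Finset.univ e (Finset.mem_univ k)]
        ring
      rw [Finset.sum_congr rfl fun k _ => e2 k, ← Finset.mul_sum, hσ]
      ring
    rw [e1, two_mul]
    have bak : ∀ k, BW 𝓕 (gl (a k) - cst (Φ.φ (cf (a k)))) := fun k =>
      (bw_gl hg (ha k).1).sub (bw_cst _)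
    have bpe : ∀ k, BW 𝓕 (∏ i ∈ Finset.univ.erase k, e i) := fun k =>
      BW.prod fun i _ => (he i).bw
    have bk : ∀ k, BW 𝓕 (((∏ i ∈ Finset.univ.erase k, e i) *
          (e k * (gl (a k) - cst (Φ.φ (cf (a k)))))) * gl (c k)) := fun k =>
      ((bpe k).mul ((he k).bw.mul (bak k))).mul (bw_gl hg (hc k))
    have b5 : BW 𝓕 (gl (fun z => (G z - γ) ^ K * q z) -
        ∑ k, gl (fun z => a k z - Φ.φ (cf (a k))) * gl (c k)) :=
      bS.sub (BW.sum fun k _ => (bw_gl hg ((ha k).1.sub (BH.const _))).mul (bw_gl hg (hc k)))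
    refine Rad.add hg (hI₀.bw.mul b5) (BW.sum fun k _ => bk k) ?_ ?_ hη0.le hη0.le
    · have h1 : NB 𝓕 (gl (fun z => (G z - γ) ^ K * q z) -
          ∑ k, gl (fun z => a k z - Φ.φ (cf (a k))) * gl (c k)) η := by
        refine NB.of_bdd (hg.sub.mono fun w hw z hz => ?_)
        have e4 : (gl (fun z => (G z - γ) ^ K * q z) -
          ∑ k, gl (fun z => a k z - Φ.φ (cf (a k))) * gl (c k) :
            Fam (EuclideanSpace ℂ (Fin n))) w z =
          (G z - γ) ^ K * q z - ∑ k, (a k z - Φ.φ (cf (a k))) * c k z := by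
          simp only [Pi.sub_apply, Finset.sum_apply, Pi.mul_apply, gl]
        rw [e4]
        exact hab z (hw hz)
      have h2 := (hI₀.rad hg).mul hg hI₀.bw b5 (Rad.of_NB hg b5 h1 hη0.le) zero_le_one
      rwa [one_mul] at h2
    · have h3 : ∀ k ∈ Finset.univ, Rad 𝓕 (((∏ i ∈ Finset.univ.erase k, e i) *
          (e k * (gl (a k) - cst (Φ.φ (cf (a k)))))) * gl (c k)) (ε' * Bc k) := by
        intro k _
        have h4 := ((Idm.prod hg (Finset.univ.erase k) he).rad hg).mul hg (bpe k)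
          ((he k).bw.mul (bak k)) (hr k) zero_le_one
        rw [one_mul] at h4
        exact h4.mul hg ((bpe k).mul ((he k).bw.mul (bak k))) (bw_gl hg (hc k))
          (Rad.of_NB hg (bw_gl hg (hc k)) (nb_gl hg fun z hz => hBc k () z hz) (hBc0 k).le) hε'0.le
      have h5 := Rad.sum hg (fun k _ => mul_nonneg hε'0.le (hBc0 k).le) (fun k _ => bk k) h3
      refine h5.mono (Finset.sum_nonneg fun k _ => mul_nonneg hε'0.le (hBc0 k).le) ?_
      rw [← Finset.mul_sum, hε', div_mul_eq_mul_div, div_le_iff₀ hSB0]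
      have : ∑ k, Bc k ≤ SB := by linarith
      exact mul_le_mul_of_nonneg_left this hη0.le
  -- the approximate idempotent
  obtain ⟨t, ht⟩ : ∃ t : Fam (EuclideanSpace ℂ (Fin n)), t = gl T * gl q := ⟨_, rfl⟩
  have bt : BW 𝓕 t := by rw [ht]; exact bT.mul bq
  have hrt : Rad 𝓕 t b := by
    refine Rad.of_NB hg bt ?_ (by linarith)
    refine NB.of_bdd (hg.sub.mono fun w hw z hz => ?_)
    rw [ht]
    show ‖T z * q z‖ ≤ b
    rw [norm_mul, hb]
    exact (mul_le_mul (hBT () z (hw hz)) (hBq () z (hw hz)) (norm_nonneg _) hBT0.le).trans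
      (le_max_left _ _)
  have h1t : N0 𝓕 ((1 - t) - gl R * gl (fun z => (G z - γ) ^ K)) := by
    intro θ hθ
    refine NB.of_bdd (hg.sub.mono fun w hw z hz => ?_)
    rw [ht]
    show ‖(1 - T z * q z) - R z * (G z - γ) ^ K‖ ≤ θ
    have h1 := hRT z (hw hz)
    have h2 : (1 - T z * q z) - R z * (G z - γ) ^ K = 0 := by linear_combination -h1
    rw [h2, norm_zero]
    exact hθ.le
  obtain ⟨x₀, hx₀⟩ : ∃ x₀ : Fam (EuclideanSpace ℂ (Fin n)), x₀ = e₀ * t := ⟨_, rfl⟩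
  have bx₀ : BW 𝓕 x₀ := by rw [hx₀]; exact hI₀.bw.mul bt
  have hrx₀ : Rad 𝓕 x₀ b := by
    have := (hI₀.rad hg).mul hg hI₀.bw bt hrt zero_le_one
    rw [one_mul] at this
    rw [hx₀]
    exact this
  have hidx : Rad 𝓕 (x₀ * (1 - x₀)) ε₁ := by
    have h1 : Rad 𝓕 (gl T * gl R) (BT * BR) :=
      Rad.of_NB hg (bT.mul bR) (by
        refine NB.of_bdd (hg.sub.mono fun w hw z hz => ?_)
        show ‖T z * R z‖ ≤ BT * BR
        rw [norm_mul]
        exact mul_le_mul (hBT () z (hw hz)) (hBR () z (hw hz)) (norm_nonneg _) hBT0.le)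
        (by positivity)
    have h2 := hσr.mul hg bσ (bT.mul bR) h1 (by positivity)
    have h3 : Rad 𝓕 (σ * (gl T * gl R)) ε₁ := h2.mono (by positivity) hη1
    refine h3.congr hg (bσ.mul (bT.mul bR)) (bx₀.mul (BW.one.sub bx₀)) hε₁ ?_
    have e1 : x₀ * (1 - x₀) - σ * (gl T * gl R) =
        (e₀ * t) * ((1 - t) - gl R * gl (fun z => (G z - γ) ^ K)) + (e₀ * (1 - e₀)) * (t * t) := by
      have e2 : gl (fun z => (G z - γ) ^ K * q z) = gl (fun z => (G z - γ) ^ K) * gl q := rfl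
      rw [hx₀, hσ, e2, ht]
      ring
    rw [e1]
    refine N0.add ?_ (hI₀.n0.mul hg (hI₀.bw.mul (BW.one.sub hI₀.bw)) (bt.mul bt))
    rw [mul_comm]
    exact h1t.mul hg ((BW.one.sub bt).sub (bR.mul bw)) (hI₀.bw.mul bt)
  obtain ⟨e', U, be', bU, hid, hU, hre'⟩ := hlift x₀ bx₀ hrx₀ hidx
  have hIe : Idm Φ 𝓕 e' := by
    refine ⟨be', hid, ?_⟩
    have h1 : Ide Φ 𝓕 ((1 - x₀) * U) := by
      have h2 : Ide Φ 𝓕 (1 - x₀) := by
        have h3 : Ide Φ 𝓕 ((1 - e₀) + gl (fun z => (G z - γ) ^ K) * (e₀ * gl R)) := by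
          refine hI₀.ide.add (Ide.of_gl hg hw ?_ (hI₀.bw.mul bR))
          have h4 := Char.map_pow Φ (hG.sub (BH.const γ)) K
          have h5 := Char.map_sub Φ hG (BH.const γ)
          rw [Φ.map_const] at h5
          show Φ.φ (fun _ z => (G z - γ) ^ K) = 0
          have h6 : Φ.φ (fun _ z => (cf G () z - γ)) = 0 := by
            refine Eq.trans h5 ?_
            rw [hγ, sub_self]
          refine Eq.trans h4 ?_
          refine Eq.trans (congrArg (· ^ K) h6) ?_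
          exact zero_pow (by omega)
        refine h3.congr ?_
        have e1 : (1 - x₀) - ((1 - e₀) + gl (fun z => (G z - γ) ^ K) * (e₀ * gl R)) =
            ((1 - t) - gl R * gl (fun z => (G z - γ) ^ K)) * e₀ := by
          rw [hx₀]; ring
        rw [e1]
        exact h1t.mul hg ((BW.one.sub bt).sub (bR.mul bw)) hI₀.bw
      exact h2.mul hg (BW.one.sub bx₀) bU
    exact h1.congr fun θ hθ => hU.mono hθ.le
  refine ⟨e', hIe, ?_⟩
  -- the spectral radius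
  have e1 : gl G - cst γ = gl (fun z => G z - γ) := rfl
  rw [e1]
  refine Rad.of_pow hg (be'.mul bγ) hK hε ?_
  have h1 : Rad 𝓕 ((e' * (1 - x₀)) * gl (fun z => (G z - γ) ^ K) + (e' * σ) * gl T) (ε ^ K) := by
    have h2 : Rad 𝓕 ((e' * (1 - x₀)) * gl (fun z => (G z - γ) ^ K)) (ρ * Bw) :=
      hre'.mul hg (be'.mul (BW.one.sub bx₀)) bw
        (Rad.of_NB hg bw (nb_gl hg fun z hz => hBw () z hz) hBw0.le) hρ0.le
    have h3 : Rad 𝓕 ((e' * σ) * gl T) (2 * η * BT) := by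
      have h4 := (hIe.rad hg).mul hg be' bσ hσr zero_le_one
      rw [one_mul] at h4
      exact h4.mul hg (be'.mul bσ) bT
        (Rad.of_NB hg bT (nb_gl hg fun z hz => hBT () z hz) hBT0.le) (by positivity)
    have h5 := h2.add hg ((be'.mul (BW.one.sub bx₀)).mul bw) ((be'.mul bσ).mul bT) h3
      (by positivity) (by positivity)
    exact h5.mono (by positivity) (by linarith)
  refine h1.congr hg (((be'.mul (BW.one.sub bx₀)).mul bw).add ((be'.mul bσ).mul bT))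
    ((be'.mul bγ).pow K) (by positivity) ?_
  obtain ⟨K', rfl⟩ : ∃ K', K = K' + 1 := ⟨K - 1, by omega⟩
  have e2 : gl (fun z => (G z - γ) ^ (K' + 1)) = gl (fun z => G z - γ) ^ (K' + 1) := rfl
  have e3 : gl (fun z => (G z - γ) ^ (K' + 1) * q z) = gl (fun z => G z - γ) ^ (K' + 1) * gl q := rfl
  have e4 : (e' * gl (fun z => G z - γ)) ^ (K' + 1) -
      ((e' * (1 - x₀)) * gl (fun z => (G z - γ) ^ (K' + 1)) + (e' * σ) * gl T) =
      (e' ^ (K' + 1) - e') * gl (fun z => (G z - γ) ^ (K' + 1)) := by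
    rw [hx₀, hσ, ht, e2, e3]
    ring
  rw [e4]
  exact (idem_pow hg be' hIe.n0 K').mul hg ((be'.pow _).sub be') bw

end Pool.Agent.MPca0fc2.IN
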