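import Mathlib
import Pool.Agent.Lib.MP_ca0fc2_an.Mg.G065
import Pool.Agent.Lib.MP_ca0fc2_an.Mg.G064

/-! Joint cluster values of the functions in the class. -/

set_option autoImplicit false

open Metric Set MeasureTheory Filter Topology

namespace Pool.Agent.MPca0fc2.IND


open Pool.Agent.Lib.MP_ca0fc2_an (IsHinf)
open Pool.Agent.MPca0fc2.CXS (LocOn)

variable {n : ℕ} {Δ : Set (EuclideanSpace ℂ (Fin n))}

/-- Joint cluster values of the functions in the class. -/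
theorem cluster_T {A : Set (EuclideanSpace ℂ (Fin n) → ℂ)} (hA : LocOn Δ A)
    (hAH : ∀ a ∈ A, IsHinf Δ a) {F : EuclideanSpace ℂ (Fin n) → ℂ} (hF : IsHinf Δ F)
    (Φ : Char Δ Unit) {N : ℕ} (G : Fin N → EuclideanSpace ℂ (Fin n) → ℂ) (hG : ∀ j, InT Φ (flt Φ A F) (G j))
    {ε : ℝ} (hε : 0 < ε) :
    ∃ z ∈ Δ, ∀ j, ‖G j z - Φ.φ (cf (G j))‖ < ε := by
  classical
  by_contra hcon
  push Not at hcon
  have hg := flt_good Φ A F
  choose e he hr using fun j => (hG j).2 (ε / 16) (by positivity)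
  have h1 := prod_nb hg (fun j => Φ.φ (cf (G j))) hε he hr hcon
  have h2 : Ide Φ (flt Φ A F) (1 - ∏ j, e j) := (Idm.prod hg Finset.univ he).ide
  have h3 : Ide Φ (flt Φ A F) (1 : Fam (EuclideanSpace ℂ (Fin n))) := by
    refine h2.congr ?_
    rw [sub_sub_cancel]
    exact fun θ hθ => h1.mono hθ.le
  obtain ⟨k, v, h, hv, hh, Ψ, hΨ, hΨe⟩ := h3 (1 / 2) (by norm_num)
  obtain ⟨BΨ, hBΨ0, hBΨ⟩ := hΨ.bdd'
  choose Bh hBh0 hBh using fun i => (hh i).bdd'
  have hev : ∀ᶠ w in flt Φ A F, ((∀ z ∈ w.1, ‖(1 - ∑ i, gl (v i) * h i : Fam _) w z -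
      w.2 z * Ψ w z‖ ≤ 1 / 2) ∧ (DifferentiableOn ℂ (Ψ w) w.1 ∧ ∀ z ∈ w.1, ‖Ψ w z‖ ≤ BΨ)) ∧
      ∀ i, DifferentiableOn ℂ (h i w) w.1 ∧ ∀ z ∈ w.1, ‖h i w z‖ ≤ Bh i :=
    (hΨe.and hBΨ).and (eventually_all.2 hBh)
  obtain ⟨J', ε₂, hε₂, hW⟩ := (mem_flt Φ A F).1 hev
  have hBd : ∀ j, BH Δ (cf fun z => G j z - Φ.φ (cf (G j))) := fun j =>
    (hG j).1.sub (BH.const _)
  obtain ⟨w, hw⟩ : ∃ w : Fin (k + N) → EuclideanSpace ℂ (Fin n) → ℂ,
    w = Fin.append v (fun j z => G j z - Φ.φ (cf (G j))) := ⟨_, rfl⟩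
  obtain ⟨CL, hCL⟩ : ∃ CL, CL = 2 * BΨ + ∑ i, 2 * Bh i := ⟨_, rfl⟩
  have hs0 : ∀ i, 0 ≤ 2 * Bh i := fun i => by have := hBh0 i; positivity
  have hCL1 : 2 * BΨ ≤ CL := by
    rw [hCL]
    have := Finset.sum_nonneg (s := Finset.univ) fun i _ => hs0 i
    linarith
  have hCL2 : ∀ i, 2 * Bh i ≤ CL := by
    intro i
    rw [hCL]
    have := Finset.single_le_sum (f := fun i => 2 * Bh i) (fun i _ => hs0 i) (Finset.mem_univ i)
    linarith
  have hCL0 : 0 ≤ CL := le_trans (by positivity) hCL1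
  refine glue_core hA hAH hF Φ w ?_ ?_ J' (ε₂ := ε₂) (CL := CL) hε₂ ?_
  · intro i
    rw [hw]
    refine Fin.addCases (fun i => ?_) (fun i => ?_) i
    · rw [Fin.append_left]; exact (hv i).1
    · rw [Fin.append_right]; exact hBd i
  · intro i
    rw [hw]
    refine Fin.addCases (fun i => ?_) (fun i => ?_) i
    · rw [Fin.append_left]; exact (hv i).2
    · rw [Fin.append_right]
      have h4 := Char.map_sub Φ (hG i).1 (BH.const (Φ.φ (cf (G i))))
      rw [Φ.map_const, sub_self] at h4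
      exact h4
  · intro D hD hJ'
    obtain ⟨x, hxdef⟩ : ∃ x : EuclideanSpace ℂ (Fin n) → ℂ, x = fun z => F z - Φ.φ (cf F) :=
      ⟨_, rfl⟩
    have hx : DifferentiableOn ℂ x D := by
      rw [hxdef]; exact (hF.1.mono hD).sub_const _
    have hxz : ∀ z, F z - Φ.φ (cf F) = x z := fun z => by rw [hxdef]
    simp only [hxz]
    obtain ⟨⟨a1, a2⟩, a3⟩ := hW (D, x) ⟨hD, hx, fun z _ => hxz z, hJ'⟩
    dsimp only at a1 a2 a3
    obtain ⟨Λ, hΛ⟩ : ∃ Λ : EuclideanSpace ℂ (Fin n) → ℂ, Λ = fun z =>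
      ∑ i, v i z * h i (D, x) z + x z * Ψ (D, x) z := ⟨_, rfl⟩
    have hval : ∀ z, (1 - ∑ i, gl (v i) * h i : Fam (EuclideanSpace ℂ (Fin n))) (D, x) z -
        x z * Ψ (D, x) z = 1 - Λ z := by
      intro z
      have : (1 - ∑ i, gl (v i) * h i : Fam (EuclideanSpace ℂ (Fin n))) (D, x) z =
          1 - ∑ i, v i z * h i (D, x) z := by
        simp only [Pi.sub_apply, Pi.one_apply, Finset.sum_apply, Pi.mul_apply, gl]
      rw [this, hΛ]
      ring
    have hΛ2 : ∀ z ∈ D, 1 / 2 ≤ ‖Λ z‖ := by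
      intro z hz
      have h6 := a1 z hz
      rw [hval z] at h6
      have h7 : (1 : ℝ) ≤ ‖1 - Λ z‖ + ‖Λ z‖ := by
        calc (1 : ℝ) = ‖(1 - Λ z) + Λ z‖ := by rw [sub_add_cancel, norm_one]
          _ ≤ _ := norm_add_le _ _
      linarith
    have hΛ0 : ∀ z ∈ D, Λ z ≠ 0 := by
      intro z hz h0
      have := hΛ2 z hz
      rw [h0, norm_zero] at this
      norm_num at this
    have hv' : ∀ i, DifferentiableOn ℂ (v i) D := fun i => ((hv i).1.holo ()).mono hD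
    have hΛd : DifferentiableOn ℂ Λ D := by
      rw [hΛ]
      exact (DifferentiableOn.fun_sum fun i _ => (hv' i).mul (a3 i).1).add (hx.mul a2.1)
    have hdiv : ∀ (q : EuclideanSpace ℂ (Fin n) → ℂ) (B : ℝ), (∀ z ∈ D, ‖q z‖ ≤ B) →
        ∀ z ∈ D, ‖q z / Λ z‖ ≤ 2 * B := by
      intro q B hq z hz
      rw [norm_div, div_le_iff₀ (by have := hΛ2 z hz; linarith)]
      have h8 := hq z hz
      have h9 := hΛ2 z hz
      have h10 := norm_nonneg (q z)
      nlinarith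
    have hinv : DifferentiableOn ℂ (fun z => (Λ z)⁻¹) D := hΛd.inv hΛ0
    refine ⟨fun z => Ψ (D, x) z / Λ z,
      Fin.append (fun i z => h i (D, x) z / Λ z) (fun _ _ => 0), ?_, ?_, ?_, ?_, ?_⟩
    · simp only [div_eq_mul_inv]
      exact a2.1.mul hinv
    · intro i
      refine Fin.addCases (fun i => ?_) (fun i => ?_) i
      · rw [Fin.append_left]
        simp only [div_eq_mul_inv]
        exact (a3 i).1.mul hinv
      · rw [Fin.append_right]; exact differentiableOn_const _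
    · exact fun z hz => (hdiv _ BΨ a2.2 z hz).trans hCL1
    · intro i
      refine Fin.addCases (fun i => ?_) (fun i => ?_) i
      · intro z hz
        rw [Fin.append_left]
        exact (hdiv _ (Bh i) (a3 i).2 z hz).trans (hCL2 i)
      · intro z hz
        rw [Fin.append_right, norm_zero]
        exact hCL0
    · intro z hz
      rw [Fin.sum_univ_add, hw]
      simp only [Fin.append_left, Fin.append_right, mul_zero, Finset.sum_const_zero, add_zero]
      have h11 := hΛ0 z hz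
      have h12 : ∑ i, v i z * (h i (D, x) z / Λ z) = (∑ i, v i z * h i (D, x) z) / Λ z := by
        rw [Finset.sum_div]
        exact Finset.sum_congr rfl fun i _ => by ring
      rw [h12]
      have h13 : ∑ i, v i z * h i (D, x) z = Λ z - x z * Ψ (D, x) z := by
        rw [hΛ]; ring
      rw [h13]
      field_simp
      ring

end Pool.Agent.MPca0fc2.IND
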