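import Mathlib
import Pool.Agent.Lib.MP_ca0fc2_an.Mg.G059
import Pool.Agent.Lib.MP_ca0fc2_an.INCore
import Pool.Agent.Lib.MP_ca0fc2_an.INClT

/-! The closure of the class under analytic equations. -/

set_option autoImplicit false

open Metric Set MeasureTheory Filter Topology

namespace Pool.Agent.MPca0fc2.IN

open Pool.Agent.Lib.MP_ca0fc2_an

variable {n : ℕ}

theorem bh_comp {G : EuclideanSpace ℂ (Fin n) → ℂ} (hG : BH (cf G)) {M ρ : ℝ} (hM : M < ρ)
    (hGM : ∀ z ∈ ball (0 : EuclideanSpace ℂ (Fin n)) 1, ‖G z‖ ≤ M) {u : ℂ → ℂ}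
    (hu : DifferentiableOn ℂ u (ball 0 ρ)) : BH (cf fun z => u (G z)) := by
  have hsub : closedBall (0 : ℂ) M ⊆ ball 0 ρ := closedBall_subset_ball hM
  obtain ⟨B, hB⟩ := (isCompact_closedBall (0 : ℂ) M).exists_bound_of_continuousOn
    (hu.continuousOn.mono hsub)
  have hmem : ∀ z ∈ ball (0 : EuclideanSpace ℂ (Fin n)) 1, G z ∈ closedBall (0 : ℂ) M := fun z hz => by
    rw [mem_closedBall_zero_iff]; exact hGM z hz
  exact ⟨fun t => hu.comp (hG.holo t) fun z hz => hsub (hmem z hz), B, fun t z hz => hB _ (hmem z hz)⟩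

/-- The value of a character on a polynomial. -/
theorem map_poly (Φ : Char Unit (EuclideanSpace ℂ (Fin n))) {G : EuclideanSpace ℂ (Fin n) → ℂ}
    (hG : BH (cf G)) {a : ℕ → EuclideanSpace ℂ (Fin n) → ℂ} (ha : ∀ k, BH (cf (a k))) (m : ℕ) :
    BH (cf fun z => ∑ k ∈ Finset.range m, a k z * G z ^ k) ∧
    Φ.φ (cf fun z => ∑ k ∈ Finset.range m, a k z * G z ^ k) =
      ∑ k ∈ Finset.range m, Φ.φ (cf (a k)) * Φ.φ (cf G) ^ k := by
  have h1 : ∀ k ∈ Finset.range m, BH (fun (t : Unit) z => cf (a k) t z * cf G t z ^ k) :=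
    fun k _ => (ha k).mul (hG.pow k)
  refine ⟨BH.sum h1, ?_⟩
  refine Eq.trans (Char.map_sum Φ h1) ?_
  refine Finset.sum_congr rfl fun k _ => ?_
  refine Eq.trans (Φ.map_mul (ha k) (hG.pow k)) ?_
  exact congrArg (Φ.φ (cf (a k)) * ·) (Char.map_pow Φ hG k)

/-- A function which satisfies an analytic equation over the class is in the class. -/
theorem inT_analytic (hn : 2 ≤ n) {ι : Type*} (Φ : Char Unit (EuclideanSpace ℂ (Fin n)))
    {r : ι → EuclideanSpace ℂ (Fin n) → ℝ} {L M : ι → ℝ}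
    {F : ι → EuclideanSpace ℂ (Fin n) → ℂ} (hb : Big r L M F)
    {R : Set (EuclideanSpace ℂ (Fin n) → ℂ)} (hR : ∀ a ∈ R, InT Φ (flt Φ F) a) :
    ∀ g ∈ AnalyticOver R, InT Φ (flt Φ F) g := by
  rintro G ⟨hGd, a, A, M, ρ, c, hMρ, hc, haR, hGM, haA, hs, hlow, heq⟩
  have hg := flt_good Φ F
  have h0 : (0 : EuclideanSpace ℂ (Fin n)) ∈ ball (0 : EuclideanSpace ℂ (Fin n)) 1 :=
    mem_ball_self one_pos
  have hM0 : 0 ≤ M := (norm_nonneg _).trans (hGM 0 h0)
  have hρ0 : 0 < ρ := lt_of_le_of_lt hM0 hMρ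
  have hA0 : ∀ k, 0 ≤ A k := fun k => (norm_nonneg _).trans (haA k 0 h0)
  have haT : ∀ k, InT Φ (flt Φ F) (a k) := fun k => hR _ (haR k)
  have hG : BH (cf G) := ⟨fun _ => hGd, M, fun _ z hz => hGM z hz⟩
  obtain ⟨γ, hγ⟩ : ∃ γ, γ = Φ.φ (cf G) := ⟨_, rfl⟩
  have hγM : ‖γ‖ ≤ M := by rw [hγ]; exact Φ.bound hG hM0 fun _ z hz => hGM z hz
  obtain ⟨d, hd⟩ : ∃ d : ℕ → ℂ, d = fun k => Φ.φ (cf (a k)) := ⟨_, rfl⟩
  have hdk : ∀ k, d k = Φ.φ (cf (a k)) := fun k => by rw [hd]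
  have hdA : ∀ k, ‖d k‖ ≤ A k := fun k => by
    rw [hdk]; exact Φ.bound (haT k).1 (hA0 k) fun _ z hz => haA k z hz
  -- the tails
  have hterm0 : ∀ k, 0 ≤ A k * ρ ^ k := fun k => mul_nonneg (hA0 k) (by positivity)
  have htail : ∀ η : ℝ, 0 < η → ∃ m : ℕ, ∑' k, A (k + m) * ρ ^ (k + m) < η := by
    intro η hη
    have h1 := tendsto_sum_nat_add fun k => A k * ρ ^ k
    exact (h1.eventually_lt_const hη).exists
  have htb : ∀ (b : ℕ → ℂ) (y : ℂ), (∀ k, ‖b k‖ ≤ A k) → ‖y‖ ≤ ρ → (Summable fun k => b k * y ^ k) ∧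
      ∀ m, ‖(∑' k, b k * y ^ k) - ∑ k ∈ Finset.range m, b k * y ^ k‖ ≤
        ∑' k, A (k + m) * ρ ^ (k + m) := by
    intro b y hbk hy
    have h1 : ∀ k, ‖b k * y ^ k‖ ≤ A k * ρ ^ k := fun k => by
      rw [norm_mul, norm_pow]
      exact mul_le_mul (hbk k) (pow_le_pow_left₀ (norm_nonneg _) hy k) (by positivity) (hA0 k)
    have h2 : Summable fun k => b k * y ^ k := Summable.of_norm_bounded hs h1
    refine ⟨h2, fun m => ?_⟩
    rw [← h2.sum_add_tsum_nat_add m, add_sub_cancel_left]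
    exact tsum_of_norm_bounded ((summable_nat_add_iff m).2 hs).hasSum fun k => h1 (k + m)
  -- not all the values of the coefficients are zero
  have hne : ∃ k, d k ≠ 0 := by
    by_contra hcon
    push Not at hcon
    obtain ⟨m, hm⟩ := htail (c / 2) (by positivity)
    obtain ⟨P, hP⟩ : ∃ P : ℝ, P = ∑ k ∈ Finset.range m, ρ ^ k := ⟨_, rfl⟩
    have hP0 : 0 ≤ P := by rw [hP]; exact Finset.sum_nonneg fun k _ => by positivity
    obtain ⟨z, hz, hz1⟩ := cluster_T hn Φ hb (fun k : Fin m => a k) (fun k => haT k)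
      (ε := c / (4 * (P + 1))) (by positivity)
    have h2 := hlow z hz
    have hsz : Summable fun k => ‖a k z‖ * ρ ^ k := by
      refine Summable.of_nonneg_of_le (fun k => by positivity) (fun k => ?_) hs
      exact mul_le_mul_of_nonneg_right (haA k z hz) (by positivity)
    rw [← hsz.sum_add_tsum_nat_add m] at h2
    have h3 : ∑' k, ‖a (k + m) z‖ * ρ ^ (k + m) ≤ ∑' k, A (k + m) * ρ ^ (k + m) :=
      Summable.tsum_le_tsum (fun k => mul_le_mul_of_nonneg_right (haA (k + m) z hz) (by positivity))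
        ((summable_nat_add_iff m).2 hsz) ((summable_nat_add_iff m).2 hs)
    have h4 : ∑ k ∈ Finset.range m, ‖a k z‖ * ρ ^ k ≤ c / (4 * (P + 1)) * P := by
      have h8 : c / (4 * (P + 1)) * P = ∑ k ∈ Finset.range m, c / (4 * (P + 1)) * ρ ^ k := by
        rw [← Finset.mul_sum, ← hP]
      rw [h8]
      refine Finset.sum_le_sum fun k hk => ?_
      have h5 := hz1 ⟨k, Finset.mem_range.1 hk⟩
      dsimp only at h5
      rw [← hdk k, hcon k, sub_zero] at h5
      exact mul_le_mul_of_nonneg_right h5.le (by positivity)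
    have h6 : c / (4 * (P + 1)) * P ≤ c / 4 := by
      rw [div_mul_eq_mul_div, div_le_div_iff₀ (by positivity) (by norm_num)]
      nlinarith
    linarith
  obtain ⟨S, hS⟩ : ∃ S : ℂ → ℂ, S = fun y => ∑' k, d k * y ^ k := ⟨_, rfl⟩
  have hSd : DifferentiableOn ℂ S (ball 0 ρ) := by
    rw [hS]
    refine Complex.differentiableOn_tsum_of_summable_norm hs (fun k => ?_) isOpen_ball
      fun k y hy => ?_
    · exact ((differentiable_id.pow k).const_mul (d k)).differentiableOn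
    · rw [norm_mul, norm_pow]
      rw [mem_ball_zero_iff] at hy
      exact mul_le_mul (hdA k) (pow_le_pow_left₀ (norm_nonneg _) hy.le k) (by positivity) (hA0 k)
  have hSγ : S γ = 0 := by
    by_contra hcon
    have hpos : 0 < ‖S γ‖ := norm_pos_iff.2 hcon
    obtain ⟨m, hm⟩ := htail (‖S γ‖ / 4) (by positivity)
    have h1 := (htb d γ hdA (by linarith)).2 m
    obtain ⟨h2, h3⟩ := map_poly Φ hG (fun k => (haT k).1) m
    have h4 : ‖Φ.φ (cf fun z => ∑ k ∈ Finset.range m, a k z * G z ^ k)‖ ≤ ‖S γ‖ / 4 := by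
      refine Φ.bound h2 (by positivity) fun _ z hz => ?_
      have h5 := (htb (fun k => a k z) (G z) (fun k => haA k z hz)
        (by have := hGM z hz; linarith)).2 m
      rw [heq z hz, zero_sub, norm_neg] at h5
      exact h5.trans hm.le
    rw [h3, ← hγ] at h4
    simp only [← hdk] at h4
    have h6 : S γ = ∑' k, d k * γ ^ k := by rw [hS]
    rw [← h6] at h1
    have h7 : ‖S γ‖ ≤ ‖S γ - ∑ k ∈ Finset.range m, d k * γ ^ k‖ +
        ‖∑ k ∈ Finset.range m, d k * γ ^ k‖ := by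
      calc ‖S γ‖ = ‖(S γ - ∑ k ∈ Finset.range m, d k * γ ^ k) +
            ∑ k ∈ Finset.range m, d k * γ ^ k‖ := by rw [sub_add_cancel]
        _ ≤ _ := norm_add_le _ _
    linarith
  have hγU : γ ∈ ball (0 : ℂ) ρ := by rw [mem_ball_zero_iff]; linarith
  have hSne : ∃ y ∈ ball (0 : ℂ) ρ, S y ≠ 0 := by
    rw [hS]; exact series_ne hρ0 hdA hs hne
  obtain ⟨K, hK, q, hq, hq0, hfac⟩ := factor_one isOpen_ball
    (convex_ball (0 : ℂ) ρ).isPreconnected hγU hSd hSγ hSne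
  obtain ⟨R', T', hR', hT', hRT⟩ := bezout_one isOpen_ball hγU hq hq0 K
  have hmemU : ∀ z ∈ ball (0 : EuclideanSpace ℂ (Fin n)) 1, G z ∈ ball (0 : ℂ) ρ := fun z hz => by
    rw [mem_ball_zero_iff]; exact (hGM z hz).trans_lt hMρ
  refine InT.core hg hG (bh_comp hG hMρ hGM hq) (bh_comp hG hMρ hGM hR')
    (bh_comp hG hMρ hGM hT') hK (fun z hz => ?_) fun η hη => ?_
  · rw [← hγ]
    exact hRT _ (hmemU z hz)
  · obtain ⟨m, hm⟩ := htail (η / 2) (by positivity)
    refine ⟨m, fun k => a k, fun k z => -(G z ^ (k : ℕ)), fun k => haT k,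
      fun k => (hG.pow k).neg, fun z hz => ?_⟩
    rw [← hγ]
    have h1 : (G z - γ) ^ K * q (G z) = S (G z) := (hfac _ (hmemU z hz)).symm
    have h2 : ∑ k : Fin m, (a k z - Φ.φ (cf (a k))) * -(G z ^ (k : ℕ)) =
        ∑ k ∈ Finset.range m, d k * G z ^ k - ∑ k ∈ Finset.range m, a k z * G z ^ k := by
      rw [← Finset.sum_sub_distrib, ← Fin.sum_univ_eq_sum_range
        (fun k => d k * G z ^ k - a k z * G z ^ k) m]
      refine Finset.sum_congr rfl fun k _ => ?_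
      rw [hdk]
      ring
    rw [h1, h2]
    have hGρ : ‖G z‖ ≤ ρ := by have := hGM z hz; linarith
    have h3 := (htb d (G z) hdA hGρ).2 m
    have h4 := (htb (fun k => a k z) (G z) (fun k => haA k z hz) hGρ).2 m
    rw [heq z hz, zero_sub, norm_neg] at h4
    have h5 : S (G z) = ∑' k, d k * G z ^ k := by rw [hS]
    rw [← h5] at h3
    calc _ = ‖(S (G z) - ∑ k ∈ Finset.range m, d k * G z ^ k) +
          ∑ k ∈ Finset.range m, a k z * G z ^ k‖ := by congr 1; ring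
      _ ≤ _ + _ := norm_add_le _ _
      _ ≤ η / 2 + η / 2 := add_le_add (h3.trans hm.le) (h4.trans hm.le)
      _ = η := by ring

end Pool.Agent.MPca0fc2.IN
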