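import Mathlib
import Pool.Agent.Lib.MP_ca0fc2_an.INTcl
import Pool.Agent.Lib.MP_ca0fc2_an.SGChr
import Pool.Agent.Lib.MP_ca0fc2_an.SGAlg

/-! Functions with small oscillation on the connected components of the cells. -/

set_option autoImplicit false

open Metric Set MeasureTheory Filter Topology

namespace Pool.Agent.MPca0fc2.IN

open Pool.Agent.Lib.MP_ca0fc2_an

section comp

variable {E : Type*} [NormedAddCommGroup E] [InnerProductSpace ℂ E]

/-- A cell of finitely many holomorphic functions is open. -/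
theorem cell_open {k : ℕ} {a : Fin k → E → ℂ} (ha : ∀ i, DifferentiableOn ℂ (a i) (ball 0 1))
    (c : Fin k → ℂ) (ε : ℝ) : IsOpen {z | z ∈ ball (0 : E) 1 ∧ ∀ i, ‖a i z - c i‖ < ε} := by
  have h1 : {z | z ∈ ball (0 : E) 1 ∧ ∀ i, ‖a i z - c i‖ < ε} =
      ball 0 1 ∩ ⋂ i, (ball 0 1 ∩ (fun z => ‖a i z - c i‖) ⁻¹' Iio ε) := by
    ext z
    simp only [mem_setOf_eq, mem_inter_iff, mem_iInter, mem_preimage, mem_Iio]
    exact ⟨fun h => ⟨h.1, fun i => ⟨h.1, h.2 i⟩⟩, fun h => ⟨h.1, fun i => (h.2 i).2⟩⟩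
  rw [h1]
  refine isOpen_ball.inter (isOpen_iInter_of_finite fun i => ?_)
  exact (((ha i).continuousOn.sub continuousOn_const).norm).isOpen_inter_preimage isOpen_ball
    isOpen_Iio

/-- Solutions on the connected components of an open set. -/
theorem solv_comps {N : ℕ} {f : Fin N → E → ℂ} {D : Set E} (hD : IsOpen D) {C : ℝ}
    (h : ∀ z ∈ D, SolvableOn f (connectedComponentIn D z) C) : SolvableOn f D C := by
  classical
  have h' : ∀ z : E, ∃ g : Fin N → E → ℂ, z ∈ D →
      (∀ j, DifferentiableOn ℂ (g j) (connectedComponentIn D z)) ∧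
      (∀ j, ∀ w ∈ connectedComponentIn D z, ‖g j w‖ ≤ C) ∧
      ∀ w ∈ connectedComponentIn D z, ∑ j, f j w * g j w = 1 := by
    intro z
    by_cases hz : z ∈ D
    · obtain ⟨g, hg⟩ := h z hz
      exact ⟨g, fun _ => hg⟩
    · exact ⟨fun _ _ => 0, fun h => absurd h hz⟩
  choose g hg using h'
  -- one base point in each component
  obtain ⟨b, hb⟩ : ∃ b : E → E, ∀ z ∈ D, b z ∈ D ∧ z ∈ connectedComponentIn D (b z) ∧
      ∀ w ∈ connectedComponentIn D z, b w = b z := by
    let c : Set E → E := fun s => if hs : s.Nonempty then hs.choose else 0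
    refine ⟨fun z => c (connectedComponentIn D z), fun z hz => ?_⟩
    have hne : (connectedComponentIn D z).Nonempty := ⟨z, mem_connectedComponentIn hz⟩
    have hc : c (connectedComponentIn D z) ∈ connectedComponentIn D z := by
      show (if hs : (connectedComponentIn D z).Nonempty then hs.choose else 0) ∈ _
      rw [dif_pos hne]
      exact hne.choose_spec
    refine ⟨connectedComponentIn_subset D z hc, ?_, fun w hw => ?_⟩
    · rw [← connectedComponentIn_eq hc]
      exact mem_connectedComponentIn hz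
    · show c (connectedComponentIn D w) = c (connectedComponentIn D z)
      rw [connectedComponentIn_eq hw]
  have key : ∀ z ∈ D, ∀ w ∈ connectedComponentIn D z, b w = b z := fun z hz => (hb z hz).2.2
  refine ⟨fun j z => g (b z) j z, fun j z hz => ?_, fun j z hz => ?_, fun z hz => ?_⟩
  · obtain ⟨h1, h2, h3⟩ := hb z hz
    have hopen : IsOpen (connectedComponentIn D z) := hD.connectedComponentIn
    have hmem : z ∈ connectedComponentIn D z := mem_connectedComponentIn hz
    have heq : connectedComponentIn D z = connectedComponentIn D (b z) :=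
      (connectedComponentIn_eq h2).symm
    have h4 : DifferentiableAt ℂ (g (b z) j) z := by
      have h5 := (hg (b z) h1).1 j
      rw [← heq] at h5
      exact h5.differentiableAt (hopen.mem_nhds hmem)
    refine (h4.congr_of_eventuallyEq ?_).differentiableWithinAt
    filter_upwards [hopen.mem_nhds hmem] with w hw
    rw [h3 w hw]
  · obtain ⟨h1, h2, h3⟩ := hb z hz
    exact (hg (b z) h1).2.1 j z h2
  · obtain ⟨h1, h2, h3⟩ := hb z hz
    exact (hg (b z) h1).2.2 z h2

/-- If the corona problem is local with respect to `A` then it is local with respect to the hull of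
`A`. -/
theorem locAlg_hull {A : Set (E → ℂ)} (hAd : ∀ a ∈ A, DifferentiableOn ℂ a (ball 0 1))
    (hA : SG.LocAlg A) : SG.LocAlg (Hull A) := by
  classical
  refine ⟨fun a ha => ha.2.1, fun N k f a C ε hf hb ha hε h => ?_⟩
  choose k' s ρ hρ hs hosc using fun i => (ha i).2.2 (ε / 2) (by positivity)
  -- all the functions together
  obtain ⟨ρ₀, hρ₀, hρi⟩ : ∃ ρ₀ : ℝ, 0 < ρ₀ ∧ ∀ i, ρ₀ ≤ ρ i := by
    rcases Nat.eq_zero_or_pos k with hk | hk
    · subst hk
      exact ⟨1, one_pos, fun i => i.elim0⟩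
    · haveI : Nonempty (Fin k) := ⟨⟨0, hk⟩⟩
      refine ⟨Finset.univ.inf' Finset.univ_nonempty ρ, ?_, fun i =>
        Finset.inf'_le _ (Finset.mem_univ i)⟩
      rw [Finset.lt_inf'_iff]
      exact fun i _ => hρ i
  obtain ⟨m, ⟨e⟩⟩ : ∃ m, Nonempty (Fin m ≃ (Σ i : Fin k, Fin (k' i))) :=
    ⟨Fintype.card (Σ i : Fin k, Fin (k' i)), ⟨(Fintype.equivFin _).symm⟩⟩
  obtain ⟨t, ht⟩ : ∃ t : Fin m → E → ℂ, t = fun l => s (e l).1 (e l).2 := ⟨_, rfl⟩
  have htA : ∀ l, t l ∈ A := fun l => by rw [ht]; exact hs _ _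
  refine hA.2 N m f t C (ρ₀ / 2) hf hb htA (by positivity) fun b hb' => ?_
  obtain ⟨D, hD⟩ : ∃ D, D = {z | z ∈ ball (0 : E) 1 ∧ ∀ i, ‖t i z - t i b‖ < ρ₀ / 2} := ⟨_, rfl⟩
  rw [← hD]
  have hDo : IsOpen D := by
    rw [hD]; exact cell_open (fun i => hAd _ (htA i)) (fun i => t i b) _
  refine solv_comps hDo fun z hz => ?_
  have hz1 : z ∈ ball (0 : E) 1 := by rw [hD] at hz; exact hz.1
  refine SG.solv_mono (h z hz1) (fun w hw => ?_) le_rfl
  have hsub : connectedComponentIn D z ⊆ D := connectedComponentIn_subset D z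
  refine ⟨by have := hsub hw; rw [hD] at this; exact this.1, fun i => ?_⟩
  have h1 := hosc i (connectedComponentIn D z) (fun x hx => by
      have := hsub hx; rw [hD] at this; exact this.1) isPreconnected_connectedComponentIn
    (fun l x hx y hy => by
      have h2 := hsub hx
      have h3 := hsub hy
      rw [hD] at h2 h3
      have ht' : t (e.symm ⟨i, l⟩) = s i l := by
        rw [ht]
        show s (e (e.symm ⟨i, l⟩)).1 (e (e.symm ⟨i, l⟩)).2 = s i l
        rw [Equiv.apply_symm_apply]
      have h4 := h2.2 (e.symm ⟨i, l⟩)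
      have h5 := h3.2 (e.symm ⟨i, l⟩)
      rw [ht'] at h4 h5
      have h6 : s i l x - s i l y = (s i l x - s i l b) - (s i l y - s i l b) := by ring
      rw [h6]
      have h7 := norm_sub_le (s i l x - s i l b) (s i l y - s i l b)
      have h8 := hρi i
      linarith) w hw z (mem_connectedComponentIn hz)
  linarith

end comp

end Pool.Agent.MPca0fc2.IN
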