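import Mathlib
import Pool.Agent.Lib.MP_ca0fc2_an.INEq
import Pool.Agent.Lib.MP_ca0fc2_an.INHin

/-! The corona theorem for the analytic closure of the algebra generated by the tame functions and by
bounded functions on larger domains. -/

set_option autoImplicit false

open Metric Set MeasureTheory Filter Topology

namespace Pool.Agent.MPca0fc2.IN

open Pool.Agent.Lib.MP_ca0fc2_an
open Pool.Agent.MPca0fc2.CP
open Pool.Agent.MPca0fc2.MG
open Pool.Agent.MPca0fc2.SV (dom ball_subset_dom)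

variable {n : ℕ}

/-- The functions in the analytic closure are in the class. -/
theorem inT_closure (hn : 2 ≤ n) {ι : Type*} (Φ : Char Unit (EuclideanSpace ℂ (Fin n)))
    {r : ι → EuclideanSpace ℂ (Fin n) → ℝ} {L M : ι → ℝ}
    {F : ι → EuclideanSpace ℂ (Fin n) → ℂ} (hb : Big r L M F) :
    ∀ g ∈ AnalyticClosure (Hull (TameGens n) ∪ Set.range F), InT Φ (flt Φ F) g := by
  intro g hg
  have hgood := flt_good Φ F
  have h1 : {g | InT Φ (flt Φ F) g} ∈ {T : Set (EuclideanSpace ℂ (Fin n) → ℂ) |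
      (Hull (TameGens n) ∪ Set.range F) ⊆ T ∧ ClosedAlg T ⊆ T ∧ AnalyticOver T ⊆ T} := by
    refine ⟨?_, fun g hg => inT_closedAlg hgood (fun _ h => h) g hg,
      fun g hg => inT_analytic hn Φ hb (fun _ h => h) g hg⟩
    rintro x (hx | ⟨i, rfl⟩)
    · exact InT.of_hull Φ F hx
    · exact InT.of_n0 hgood (hb.bh i) (n0_of_near Φ F
        (NearAt.ofF (F := fun i => cf (F i)) (cF := fun i => Φ.φ (cf (F i)))
          (u := fun k : TameGens n => cf k.1) (cu := fun k => Φ.φ (cf k.1)) i))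
  exact hg _ h1

/-- The functions in the analytic closure are bounded and holomorphic. -/
theorem bh_closure {ι : Type*} {r : ι → EuclideanSpace ℂ (Fin n) → ℝ} {L M : ι → ℝ}
    {F : ι → EuclideanSpace ℂ (Fin n) → ℂ} (hb : Big r L M F) :
    ∀ g ∈ AnalyticClosure (Hull (TameGens n) ∪ Set.range F), BH (cf g) := by
  intro g hg
  have h1 : {g | BH (cf g)} ∈ {T : Set (EuclideanSpace ℂ (Fin n) → ℂ) |
      (Hull (TameGens n) ∪ Set.range F) ⊆ T ∧ ClosedAlg T ⊆ T ∧ AnalyticOver T ⊆ T} := by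
    refine ⟨?_, fun g hg => bh_closed (fun q hq => ?_) hg, ?_⟩
    · rintro x (hx | ⟨i, rfl⟩)
      · exact ⟨fun _ => hx.1, hx.2.1.choose, fun _ z hz => hx.2.1.choose_spec z hz⟩
      · exact hb.bh i
    · induction hq using Algebra.adjoin_induction with
      | mem x hx => exact hx
      | algebraMap c => exact BH.const c
      | add x y _ _ hx hy => exact hx.add hy
      | mul x y _ _ hx hy => exact hx.mul hy
    · rintro g ⟨h1, a, A, M, ρ, c, -, -, -, h2, -⟩
      exact ⟨fun _ => h1, M, fun _ z hz => h2 z hz⟩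
  exact hg _ h1

/-- The corona theorem for functions which are near functions of the analytic closure. -/
theorem q1_closure (hn : 2 ≤ n) {ι : Type*} {r : ι → EuclideanSpace ℂ (Fin n) → ℝ} {L M : ι → ℝ}
    {F : ι → EuclideanSpace ℂ (Fin n) → ℂ} (hb : Big r L M F) {N : ℕ}
    (f q : Fin N → EuclideanSpace ℂ (Fin n) → ℂ) {δ η : ℝ} (hη : 4 * N * η ^ 2 < δ)
    (hf : ∀ j, DifferentiableOn ℂ (f j) (ball 0 1))
    (hq : ∀ j, q j ∈ AnalyticClosure (Hull (TameGens n) ∪ Set.range F))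
    (hfq : ∀ j, ∀ z ∈ ball (0 : EuclideanSpace ℂ (Fin n)) 1, ‖f j z - q j z‖ ≤ η)
    (hδ : ∀ z ∈ ball (0 : EuclideanSpace ℂ (Fin n)) 1, δ ≤ ∑ j, ‖f j z‖ ^ 2) :
    ∃ C : ℝ, SolvableOn f (ball 0 1) C := by
  classical
  have hη0 : ∀ j : Fin N, 0 ≤ η := fun j =>
    (norm_nonneg _).trans (hfq j 0 (mem_ball_self one_pos))
  have hqB : ∀ j, BH (cf (q j)) := fun j => bh_closure hb _ (hq j)
  have hfB : ∀ j, BH (cf (f j)) := fun j => by
    obtain ⟨C, hC⟩ := (hqB j).bdd
    refine ⟨fun _ => hf j, η + C, fun t z hz => ?_⟩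
    calc ‖f j z‖ = ‖(f j z - q j z) + q j z‖ := by rw [sub_add_cancel]
      _ ≤ ‖f j z - q j z‖ + ‖q j z‖ := norm_add_le _ _
      _ ≤ η + C := add_le_add (hfq j z hz) (hC t z hz)
  obtain ⟨G, hG, hs⟩ := unimod_of_chars (F := fun j => cf (f j)) hfB (fun Φ => by
    by_contra hcon
    push Not at hcon
    -- a small number
    obtain ⟨ε, hε0, hε⟩ : ∃ ε : ℝ, 0 < ε ∧ N * (2 * η + ε) ^ 2 < δ := by
      have h1 : Filter.Tendsto (fun ε : ℝ => N * (2 * η + ε) ^ 2) (𝓝[>] 0)
          (𝓝 (N * (2 * η + 0) ^ 2)) := by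
        refine (Continuous.tendsto' (by fun_prop) _ _ rfl).mono_left nhdsWithin_le_nhds
      have h2 : N * (2 * η + 0) ^ 2 < δ := by
        have : N * (2 * η + 0) ^ 2 = 4 * N * η ^ 2 := by ring
        rw [this]; exact hη
      obtain ⟨ε, h3, h4⟩ := ((h1.eventually_lt_const h2).and self_mem_nhdsWithin).exists
      exact ⟨ε, h4, h3⟩
    obtain ⟨z, hz, hz1⟩ := cluster_T hn Φ hb q (fun j => inT_closure hn Φ hb _ (hq j)) hε0
    have h3 : ∀ j, ‖f j z‖ ≤ 2 * η + ε := by
      intro j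
      have h4 : ‖Φ.φ (cf (q j))‖ ≤ η := by
        have h5 : Φ.φ (cf (q j)) = -(Φ.φ (fun t z => cf (f j) t z - cf (q j) t z)) := by
          rw [Char.map_sub Φ (hfB j) (hqB j), hcon j]
          ring
        rw [h5, norm_neg]
        exact Φ.bound ((hfB j).sub (hqB j)) (hη0 j) fun _ z hz => hfq j z hz
      have h6 := (hz1 j).le
      have h7 := hfq j z hz
      calc ‖f j z‖ = ‖(f j z - q j z) + (q j z - Φ.φ (cf (q j))) + Φ.φ (cf (q j))‖ := by
            congr 1; ring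
        _ ≤ ‖f j z - q j z‖ + ‖q j z - Φ.φ (cf (q j))‖ + ‖Φ.φ (cf (q j))‖ := norm_add₃_le
        _ ≤ 2 * η + ε := by linarith
    have h4 : ∑ j, ‖f j z‖ ^ 2 ≤ ∑ _j : Fin N, (2 * η + ε) ^ 2 :=
      Finset.sum_le_sum fun j _ => pow_le_pow_left₀ (norm_nonneg _) (h3 j) 2
    rw [Finset.sum_const, Finset.card_univ, Fintype.card_fin, nsmul_eq_mul] at h4
    have h5 := hδ z hz
    linarith)
  choose B hB using fun j => (hG j).bdd
  refine ⟨∑ j, |B j|, fun j => G j (), fun j => (hG j).holo _, fun j z hz => ?_, hs ()⟩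
  refine (hB j _ z hz).trans ((le_abs_self _).trans ?_)
  exact Finset.single_le_sum (f := fun j => |B j|) (fun k _ => abs_nonneg _) (Finset.mem_univ j)

/-- Functions which are algebraic over a closed algebra satisfy an analytic equation over it. -/
theorem algOver_subset {R : Set (EuclideanSpace ℂ (Fin n) → ℂ)} (hR : ClosedAlg R ⊆ R)
    (hB : ∀ a ∈ R, BH (cf a)) : AlgOver R ⊆ AnalyticOver R := by
  classical
  rintro g ⟨h1, ⟨M, hM⟩, m, a, c, hc, ha, hlow, heq⟩
  have h0R : (fun _ => 0 : EuclideanSpace ℂ (Fin n) → ℂ) ∈ R := by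
    refine hR ⟨differentiableOn_const _, fun θ hθ => ⟨0, Subalgebra.zero_mem _, fun z _ => ?_⟩⟩
    simp [hθ.le]
  have h0 : (0 : EuclideanSpace ℂ (Fin n)) ∈ ball (0 : EuclideanSpace ℂ (Fin n)) 1 :=
    mem_ball_self one_pos
  choose A hA using fun k => (hB _ (ha k)).bdd
  have hM0 : 0 ≤ M := (norm_nonneg _).trans (hM 0 h0)
  obtain ⟨a', ha'⟩ : ∃ a' : ℕ → EuclideanSpace ℂ (Fin n) → ℂ, a' = fun k =>
    if h : k < m + 1 then a ⟨k, h⟩ else fun _ => 0 := ⟨_, rfl⟩
  obtain ⟨A', hA'⟩ : ∃ A' : ℕ → ℝ, A' = fun k => if h : k < m + 1 then A ⟨k, h⟩ else 0 := ⟨_, rfl⟩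
  have e1 : ∀ k : Fin (m + 1), a' k = a k := fun k => by
    rw [ha']; simp [k.2]
  have e2 : ∀ k ∉ Finset.range (m + 1), a' k = fun _ => 0 := fun k hk => by
    rw [ha']; simp only [Finset.mem_range] at hk; simp [hk]
  refine ⟨h1, a', A', M, M + 1, c, by linarith, hc, ?_, hM, ?_, ?_, ?_, ?_⟩
  · intro k
    by_cases hk : k < m + 1
    · have := e1 ⟨k, hk⟩
      simp only at this
      rw [this]; exact ha _
    · rw [e2 k (by simpa using hk)]; exact h0R
  · intro k z hz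
    rw [ha', hA']
    by_cases hk : k < m + 1
    · simp only [hk, dif_pos]; exact hA _ () z hz
    · simp [hk]
  · refine summable_of_ne_finset_zero (s := Finset.range (m + 1)) fun k hk => ?_
    rw [hA']
    simp only [Finset.mem_range] at hk
    simp [hk]
  · intro z hz
    rw [tsum_eq_sum (s := Finset.range (m + 1)) fun k hk => by rw [e2 k hk]; simp]
    rw [← Fin.sum_univ_eq_sum_range (fun k => ‖a' k z‖ * (M + 1) ^ k) (m + 1)]
    refine (hlow z hz).trans (Finset.sum_le_sum fun k _ => ?_)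
    rw [e1 k]
    have : 1 ≤ (M + 1) ^ (k : ℕ) := one_le_pow₀ (by linarith)
    have := norm_nonneg (a k z)
    nlinarith
  · intro z hz
    rw [tsum_eq_sum (s := Finset.range (m + 1)) fun k hk => by rw [e2 k hk]; simp]
    rw [← Fin.sum_univ_eq_sum_range (fun k => a' k z * g z ^ k) (m + 1), ← heq z hz]
    exact Finset.sum_congr rfl fun k _ => by rw [e1 k]

end Pool.Agent.MPca0fc2.IN
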