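import Mathlib
import Pool.Agent.Lib.MP_ca0fc2_an.INFin

/-! Examples of functions in the analytic closure. -/

set_option autoImplicit false

open Metric Set Filter Topology

namespace Pool.Agent.MPca0fc2.IN

open Pool.Agent.Lib.MP_ca0fc2_an

variable {n : ℕ} {S : Set (EuclideanSpace ℂ (Fin n) → ℂ)}

theorem closure_gen {g : EuclideanSpace ℂ (Fin n) → ℂ} (hg : g ∈ S) : g ∈ AnalyticClosure S :=
  fun _ hT => hT.1 hg

/-- The analytic closure is a closed algebra. -/
theorem closure_closed : ClosedAlg (AnalyticClosure S) ⊆ AnalyticClosure S := by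
  intro g hg T hT
  refine hT.2.1 ⟨hg.1, fun ε hε => ?_⟩
  obtain ⟨q, hq, h⟩ := hg.2 ε hε
  have h1 : AnalyticClosure S ⊆ T := fun a ha => ha T hT
  exact ⟨q, Algebra.adjoin_mono h1 hq, h⟩

/-- The analytic closure contains the functions which satisfy an analytic equation over it. -/
theorem closure_analytic : AnalyticOver (AnalyticClosure S) ⊆ AnalyticClosure S := by
  rintro g ⟨h1, a, A, M, ρ, c, h2, h3, h4, h5⟩ T hT
  exact hT.2.2 ⟨h1, a, A, M, ρ, c, h2, h3, fun k => h4 k T hT, h5⟩

/-- The members of the analytic closure of bounded holomorphic functions. -/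
theorem closure_bh (hS : ∀ g ∈ S, BH (cf g)) : ∀ g ∈ AnalyticClosure S, BH (cf g) := by
  intro g hg
  have h1 : {g | BH (cf g)} ∈ {T : Set (EuclideanSpace ℂ (Fin n) → ℂ) |
      S ⊆ T ∧ ClosedAlg T ⊆ T ∧ AnalyticOver T ⊆ T} := by
    refine ⟨hS, fun g hg => bh_closed (fun q hq => ?_) hg, ?_⟩
    · induction hq using Algebra.adjoin_induction with
      | mem x hx => exact hx
      | algebraMap c => exact BH.const c
      | add x y _ _ hx hy => exact hx.add hy
      | mul x y _ _ hx hy => exact hx.mul hy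
    · rintro g ⟨h1, a, A, M, ρ, c, -, -, -, h2, -⟩
      exact ⟨fun _ => h1, M, fun _ z hz => h2 z hz⟩
  exact hg _ h1

/-- It contains the functions which are algebraic over it. -/
theorem closure_alg (hS : ∀ g ∈ S, BH (cf g)) :
    AlgOver (AnalyticClosure S) ⊆ AnalyticClosure S :=
  (algOver_subset closure_closed (closure_bh hS)).trans closure_analytic

theorem closure_adjoin (hS : ∀ g ∈ S, BH (cf g)) {g : EuclideanSpace ℂ (Fin n) → ℂ}
    (hg : g ∈ Algebra.adjoin ℂ (AnalyticClosure S)) : g ∈ AnalyticClosure S := by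
  refine closure_closed ⟨?_, fun ε hε => ⟨g, hg, fun z _ => by rw [sub_self, norm_zero]; exact hε.le⟩⟩
  have h1 : BH (cf g) := by
    induction hg using Algebra.adjoin_induction with
    | mem x hx => exact closure_bh hS _ hx
    | algebraMap c => exact BH.const c
    | add x y _ _ hx hy => exact hx.add hy
    | mul x y _ _ hx hy => exact hx.mul hy
  exact h1.holo ()

theorem closure_const (hS : ∀ g ∈ S, BH (cf g)) (c : ℂ) :
    (fun _ => c : EuclideanSpace ℂ (Fin n) → ℂ) ∈ AnalyticClosure S :=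
  closure_adjoin hS (Subalgebra.algebraMap_mem _ c)

theorem closure_neg (hS : ∀ g ∈ S, BH (cf g)) {g : EuclideanSpace ℂ (Fin n) → ℂ}
    (hg : g ∈ AnalyticClosure S) : (fun z => -g z) ∈ AnalyticClosure S :=
  closure_adjoin hS (Subalgebra.neg_mem _ (Algebra.subset_adjoin hg))

/-- Roots: if `gᵐ` is in the analytic closure, so is `g`. -/
theorem closure_root (hS : ∀ g ∈ S, BH (cf g)) {g : EuclideanSpace ℂ (Fin n) → ℂ}
    (hg : DifferentiableOn ℂ g (ball 0 1)) {M : ℝ}
    (hM : ∀ z ∈ ball (0 : EuclideanSpace ℂ (Fin n)) 1, ‖g z‖ ≤ M) {m : ℕ} (hm : 1 ≤ m)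
    (h : (fun z => g z ^ m) ∈ AnalyticClosure S) : g ∈ AnalyticClosure S := by
  classical
  refine closure_alg hS ⟨hg, ⟨M, hM⟩, m,
    fun k => if (k : ℕ) = m then fun _ => 1 else if (k : ℕ) = 0 then fun z => -g z ^ m
      else fun _ => 0, 1, one_pos, ?_, ?_, ?_⟩
  · intro k
    dsimp only
    split_ifs
    · exact closure_const hS 1
    · exact closure_neg hS h
    · exact closure_const hS 0
  · intro z _
    have h1 := Finset.single_le_sum (f := fun k : Fin (m + 1) => ‖(if (k : ℕ) = m then fun _ => 1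
      else if (k : ℕ) = 0 then fun z => -g z ^ m else fun _ => 0 :
        EuclideanSpace ℂ (Fin n) → ℂ) z‖) (fun k _ => norm_nonneg _)
      (Finset.mem_univ (Fin.last m))
    refine le_trans ?_ h1
    simp
  · intro z _
    rw [Fin.sum_univ_castSucc]
    have h2 : ∀ k : Fin m, ((if ((k.castSucc : Fin (m + 1)) : ℕ) = m then fun _ => 1
      else if ((k.castSucc : Fin (m + 1)) : ℕ) = 0 then fun z => -g z ^ m else fun _ => 0 :
        EuclideanSpace ℂ (Fin n) → ℂ) z) * g z ^ ((k.castSucc : Fin (m + 1)) : ℕ) =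
        if (k : ℕ) = 0 then -g z ^ m else 0 := by
      intro k
      have hk : (k : ℕ) ≠ m := by have := k.2; omega
      simp only [Fin.val_castSucc, if_neg hk]
      split_ifs with h3
      · rw [h3, pow_zero, mul_one]
      · rw [zero_mul]
    rw [Finset.sum_congr rfl fun k _ => h2 k]
    rw [Finset.sum_eq_single (⟨0, by omega⟩ : Fin m)]
    · simp
    · intro k _ hk
      rw [if_neg]
      intro h4
      exact hk (Fin.ext h4)
    · intro h4
      exact absurd (Finset.mem_univ _) h4

/-- Quadratic equations. -/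
theorem closure_quad (hS : ∀ g ∈ S, BH (cf g)) {g a b : EuclideanSpace ℂ (Fin n) → ℂ}
    (hg : DifferentiableOn ℂ g (ball 0 1)) {M : ℝ}
    (hM : ∀ z ∈ ball (0 : EuclideanSpace ℂ (Fin n)) 1, ‖g z‖ ≤ M)
    (ha : a ∈ AnalyticClosure S) (hb : b ∈ AnalyticClosure S)
    (h : ∀ z ∈ ball (0 : EuclideanSpace ℂ (Fin n)) 1, g z ^ 2 + a z * g z + b z = 0) :
    g ∈ AnalyticClosure S := by
  refine closure_alg hS ⟨hg, ⟨M, hM⟩, 2, ![b, a, fun _ => 1], 1, one_pos, ?_, ?_, ?_⟩
  · intro k
    fin_cases k
    · exact hb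
    · exact ha
    · exact closure_const hS 1
  · intro z _
    rw [Fin.sum_univ_three]
    have h1 := norm_nonneg (b z)
    have h2 := norm_nonneg (a z)
    simp
    positivity
  · intro z hz
    rw [Fin.sum_univ_three]
    have := h z hz
    simp
    linear_combination this

/-- Two functions whose sum and whose product are in the analytic closure are in the analytic
closure. With one arbitrary function among the generators: the two functions may be arbitrary
bounded holomorphic functions with, for example, a product which is tame. -/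
theorem closure_pair (hS : ∀ g ∈ S, BH (cf g)) {F G : EuclideanSpace ℂ (Fin n) → ℂ}
    (hF : DifferentiableOn ℂ F (ball 0 1)) {M : ℝ}
    (hM : ∀ z ∈ ball (0 : EuclideanSpace ℂ (Fin n)) 1, ‖F z‖ ≤ M)
    (hadd : (fun z => F z + G z) ∈ AnalyticClosure S)
    (hmul : (fun z => F z * G z) ∈ AnalyticClosure S) : F ∈ AnalyticClosure S :=
  closure_quad hS hF hM (closure_neg hS hadd) hmul fun z _ => by ring

/-- Bounded quotients of functions without common zeros: `a₁ g = a₀` with `|a₀| + |a₁|` bounded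
below. -/
theorem closure_quot (hS : ∀ g ∈ S, BH (cf g)) {g a b : EuclideanSpace ℂ (Fin n) → ℂ}
    (hg : DifferentiableOn ℂ g (ball 0 1)) {M c : ℝ}
    (hM : ∀ z ∈ ball (0 : EuclideanSpace ℂ (Fin n)) 1, ‖g z‖ ≤ M)
    (ha : a ∈ AnalyticClosure S) (hb : b ∈ AnalyticClosure S) (hc : 0 < c)
    (hlow : ∀ z ∈ ball (0 : EuclideanSpace ℂ (Fin n)) 1, c ≤ ‖a z‖ + ‖b z‖)
    (h : ∀ z ∈ ball (0 : EuclideanSpace ℂ (Fin n)) 1, a z * g z = b z) :
    g ∈ AnalyticClosure S := by
  refine closure_alg hS ⟨hg, ⟨M, hM⟩, 1, ![fun z => -b z, a], c, hc, ?_, ?_, ?_⟩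
  · intro k
    fin_cases k
    · exact closure_neg hS hb
    · exact ha
  · intro z hz
    rw [Fin.sum_univ_two]
    have := hlow z hz
    simp
    linarith
  · intro z hz
    rw [Fin.sum_univ_two]
    have := h z hz
    simp
    linear_combination this

/-- Bounded logarithms. -/
theorem closure_log (hS : ∀ g ∈ S, BH (cf g)) {g : EuclideanSpace ℂ (Fin n) → ℂ}
    (hg : DifferentiableOn ℂ g (ball 0 1)) {M : ℝ} (hM0 : 0 ≤ M)
    (hM : ∀ z ∈ ball (0 : EuclideanSpace ℂ (Fin n)) 1, ‖g z‖ ≤ M)
    (h : (fun z => Complex.exp (g z)) ∈ AnalyticClosure S) : g ∈ AnalyticClosure S := by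
  classical
  obtain ⟨B, hB⟩ := (closure_bh hS _ h).bdd
  refine closure_analytic ⟨hg,
    fun k => if k = 0 then fun z => 1 - Complex.exp (g z) else fun _ => ((k.factorial : ℂ))⁻¹,
    fun k => if k = 0 then 1 + B else ((k.factorial : ℝ))⁻¹, M, M + 1, 1, by linarith, one_pos,
    ?_, hM, ?_, ?_, ?_, ?_⟩
  · intro k
    dsimp only
    split_ifs
    · exact closure_adjoin hS (Subalgebra.sub_mem _ (Subalgebra.one_mem _)
        (Algebra.subset_adjoin h))
    · exact closure_const hS _
  · intro k z hz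
    dsimp only
    split_ifs
    · calc ‖1 - Complex.exp (g z)‖ ≤ ‖(1 : ℂ)‖ + ‖Complex.exp (g z)‖ := norm_sub_le _ _
        _ ≤ 1 + B := by rw [norm_one]; exact add_le_add le_rfl (hB () z hz)
    · rw [norm_inv, Complex.norm_natCast]
  · have h1 : Summable fun k : ℕ => (M + 1) ^ k / (k.factorial : ℝ) :=
      Real.summable_pow_div_factorial (M + 1)
    refine (summable_nat_add_iff 1).1 (((summable_nat_add_iff 1).2 h1).congr fun k => ?_)
    beta_reduce
    rw [if_neg (Nat.succ_ne_zero k)]
    rw [div_eq_mul_inv, mul_comm]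
  · intro z hz
    have h1 : Summable fun k : ℕ => (M + 1) ^ k / (k.factorial : ℝ) :=
      Real.summable_pow_div_factorial (M + 1)
    have h2 : Summable fun k : ℕ => ‖(if k = 0 then fun z => 1 - Complex.exp (g z)
        else fun _ => ((k.factorial : ℂ))⁻¹ : EuclideanSpace ℂ (Fin n) → ℂ) z‖ * (M + 1) ^ k := by
      refine (summable_nat_add_iff 1).1 (((summable_nat_add_iff 1).2 h1).congr fun k => ?_)
      beta_reduce
      rw [if_neg (Nat.succ_ne_zero k), norm_inv, Complex.norm_natCast]
      rw [div_eq_mul_inv, mul_comm]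
    have h3 := h2.le_tsum 1 (fun k _ => by positivity)
    refine le_trans ?_ h3
    rw [if_neg one_ne_zero]
    simp
    linarith
  · intro z hz
    have h1 : HasSum (fun k : ℕ => g z ^ k / (k.factorial : ℂ)) (Complex.exp (g z)) := by
      have := NormedSpace.expSeries_div_hasSum_exp (𝔸 := ℂ) (g z)
      rw [← Complex.exp_eq_exp_ℂ] at this
      exact this
    have h2 : HasSum (fun k : ℕ => if k = 0 then Complex.exp (g z) else 0) (Complex.exp (g z)) :=
      hasSum_ite_eq 0 _
    have h3 := h1.sub h2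
    rw [sub_self] at h3
    refine (h3.congr_fun ?_).tsum_eq
    intro k
    beta_reduce
    by_cases hk : k = 0
    · subst hk
      simp
    · rw [if_neg hk, if_neg hk, sub_zero, div_eq_mul_inv, mul_comm]

end Pool.Agent.MPca0fc2.IN
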