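import Mathlib
import Pool.Agent.Lib.MP_ca0fc2_an.Mg.G059
import Pool.Agent.Lib.MP_ca0fc2_an.INHin

/-! The hull is closed under uniform limits and under analytic equations. -/

set_option autoImplicit false

open Metric Set MeasureTheory Filter Topology

namespace Pool.Agent.MPca0fc2.IN

open Pool.Agent.Lib.MP_ca0fc2_an

/-- Connected sets on which a holomorphic function is small are small. -/
theorem sep_conn {ρ M : ℝ} (hM : M < ρ) {S : ℂ → ℂ} (hS : DifferentiableOn ℂ S (ball 0 ρ))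
    (hne : ∃ y ∈ ball (0 : ℂ) ρ, S y ≠ 0) {ε : ℝ} (hε : 0 < ε) :
    ∃ η : ℝ, 0 < η ∧ ∀ Y : Set ℂ, IsPreconnected Y → Y ⊆ closedBall 0 M →
      (∀ y ∈ Y, ‖S y‖ ≤ η) → ∀ y ∈ Y, ∀ y' ∈ Y, ‖y - y'‖ ≤ ε := by
  classical
  have hsub : closedBall (0 : ℂ) M ⊆ ball 0 ρ := closedBall_subset_ball hM
  have hK : IsCompact (closedBall (0 : ℂ) M) := isCompact_closedBall 0 M
  have hA : AnalyticOnNhd ℂ S (ball 0 ρ) := hS.analyticOnNhd isOpen_ball
  -- a good circle around each point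
  have hr : ∀ y₀ : ℂ, ∃ r : ℝ, 0 < r ∧ 2 * r ≤ ε ∧
      ∀ y ∈ sphere y₀ r ∩ closedBall (0 : ℂ) M, S y ≠ 0 := by
    intro y₀
    by_contra hcon
    push Not at hcon
    have hz : ∀ k : ℕ, ∃ y ∈ closedBall (0 : ℂ) M, S y = 0 ∧ ‖y - y₀‖ = ε / (2 * (k + 1)) := by
      intro k
      have hk : (0 : ℝ) < ε / (2 * (k + 1)) := by positivity
      obtain ⟨y, hy, hy0⟩ := hcon (ε / (2 * (k + 1))) hk (by
        rw [mul_div_assoc', div_le_iff₀ (by positivity)]
        have : (0 : ℝ) ≤ k := Nat.cast_nonneg k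
        nlinarith)
      exact ⟨y, hy.2, hy0, by rw [← mem_sphere_iff_norm]; exact hy.1⟩
    choose y hy hy0 hyn using hz
    have hinj : Function.Injective y := by
      intro k l hkl
      have h1 := hyn k
      rw [hkl, hyn l] at h1
      have hk : (0 : ℝ) < 2 * (k + 1) := by positivity
      have hl : (0 : ℝ) < 2 * (l + 1) := by positivity
      rw [div_eq_div_iff hl.ne' hk.ne'] at h1
      have h2 : (2 * ((k : ℝ) + 1)) = 2 * (l + 1) := mul_left_cancel₀ hε.ne' h1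
      have h3 : (k : ℝ) = l := by linarith
      exact_mod_cast h3
    obtain ⟨x, hx, hacc⟩ := (infinite_range_of_injective hinj).exists_accPt_of_subset_isCompact hK
      (by rintro _ ⟨k, rfl⟩; exact hy k)
    have hfreq : ∃ᶠ w in 𝓝[≠] x, S w = 0 := by
      refine (accPt_iff_frequently_nhdsNE.1 hacc).mono ?_
      rintro _ ⟨k, rfl⟩
      exact hy0 k
    obtain ⟨w, hw, hw0⟩ := hne
    exact hw0 (hA.eqOn_zero_of_preconnected_of_frequently_eq_zero
      (convex_ball (0 : ℂ) ρ).isPreconnected (hsub hx) hfreq hw)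
  choose r hr0 hrε hrS using hr
  have hη : ∀ y₀ : ℂ, ∃ η : ℝ, 0 < η ∧ ∀ y ∈ sphere y₀ (r y₀) ∩ closedBall (0 : ℂ) M, η < ‖S y‖ := by
    intro y₀
    have hK' : IsCompact (sphere y₀ (r y₀) ∩ closedBall (0 : ℂ) M) :=
      (isCompact_sphere y₀ (r y₀)).inter_right isClosed_closedBall
    rcases eq_empty_or_nonempty (sphere y₀ (r y₀) ∩ closedBall (0 : ℂ) M) with h0 | h0
    · exact ⟨1, one_pos, fun y hy => by rw [h0] at hy; exact absurd hy (notMem_empty y)⟩
    · obtain ⟨y₁, hy₁, hmin⟩ := hK'.exists_isMinOn h0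
        ((hS.continuousOn.mono fun y hy => hsub hy.2).norm)
      have h1 : 0 < ‖S y₁‖ := norm_pos_iff.2 (hrS y₀ y₁ hy₁)
      refine ⟨‖S y₁‖ / 2, by positivity, fun y hy => ?_⟩
      have := hmin hy
      simp only [mem_setOf_eq] at this
      linarith
  choose η hη0 hηS using hη
  obtain ⟨t, ht, hcov⟩ := hK.elim_nhds_subcover (fun y₀ => ball y₀ (r y₀))
    fun y₀ _ => ball_mem_nhds y₀ (hr0 y₀)
  obtain ⟨η', hη', hηt⟩ : ∃ η' : ℝ, 0 < η' ∧ ∀ y₀ ∈ t, η' ≤ η y₀ := by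
    rcases t.eq_empty_or_nonempty with h0 | h0
    · exact ⟨1, one_pos, fun y hy => by rw [h0] at hy; exact absurd hy (Finset.notMem_empty y)⟩
    · refine ⟨t.inf' h0 η, ?_, fun y hy => Finset.inf'_le _ hy⟩
      rw [Finset.lt_inf'_iff]
      exact fun y _ => hη0 y
  refine ⟨η', hη', fun Y hY hYK hYS y hy y' hy' => ?_⟩
  obtain ⟨y₀, hy₀, hyy₀⟩ := mem_iUnion₂.1 (hcov (hYK hy))
  have hsubY : Y ⊆ ball y₀ (r y₀) := by
    refine hY.subset_left_of_subset_union isOpen_ball (isClosed_closedBall (x := y₀)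
      (ε := r y₀)).isOpen_compl ?_ ?_ ⟨y, hy, hyy₀⟩
    · rw [Set.disjoint_compl_right_iff_subset]
      exact ball_subset_closedBall
    · intro w hw
      by_cases h1 : w ∈ ball y₀ (r y₀)
      · exact Or.inl h1
      · refine Or.inr fun h2 => ?_
        have h3 : w ∈ sphere y₀ (r y₀) := by
          rw [mem_sphere]
          rw [mem_closedBall] at h2
          rw [mem_ball, not_lt] at h1
          exact le_antisymm h2 h1
        have h4 := hηS y₀ w ⟨h3, hYK hw⟩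
        have h5 := hYS w hw
        have h6 := hηt y₀ hy₀
        linarith
  have h1 := hsubY hy
  have h2 := hsubY hy'
  rw [mem_ball, dist_eq_norm] at h1 h2
  have h3 : y - y' = (y - y₀) - (y' - y₀) := by ring
  rw [h3]
  have h4 := norm_sub_le (y - y₀) (y' - y₀)
  have h5 := hrε y₀
  linarith

section hull

variable {E : Type*} [NormedAddCommGroup E] [NormedSpace ℂ E] {S T : Set (E → ℂ)}

/-- To be in the hull of `S` it suffices to be in the hull of a subset of the hull of `S`. -/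
theorem hull_le (hST : T ⊆ Hull S) : Hull T ⊆ Hull S := by
  classical
  rintro g ⟨h1, h2, h3⟩
  refine ⟨h1, h2, fun ε hε => ?_⟩
  obtain ⟨k, a, ρ, hρ, ha, hk⟩ := h3 ε hε
  choose k' s ρ' hρ' hs hosc using fun i => (hST (ha i)).2.2 ρ hρ
  obtain ⟨ρ₀, hρ₀, hρi⟩ : ∃ ρ₀ : ℝ, 0 < ρ₀ ∧ ∀ i, ρ₀ ≤ ρ' i := by
    rcases Nat.eq_zero_or_pos k with hk | hk
    · subst hk
      exact ⟨1, one_pos, fun i => i.elim0⟩
    · haveI : Nonempty (Fin k) := ⟨⟨0, hk⟩⟩
      refine ⟨Finset.univ.inf' Finset.univ_nonempty ρ', ?_, fun i =>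
        Finset.inf'_le _ (Finset.mem_univ i)⟩
      rw [Finset.lt_inf'_iff]
      exact fun i _ => hρ' i
  obtain ⟨m, ⟨e⟩⟩ : ∃ m, Nonempty (Fin m ≃ (Σ i : Fin k, Fin (k' i))) :=
    ⟨Fintype.card (Σ i : Fin k, Fin (k' i)), ⟨(Fintype.equivFin _).symm⟩⟩
  refine ⟨m, fun l => s (e l).1 (e l).2, ρ₀, hρ₀, fun l => hs _ _, fun C hC hCc h => ?_⟩
  refine hk C hC hCc fun i => ?_
  refine hosc i C hC hCc fun l z hz w hw => ?_
  have h4 := h (e.symm ⟨i, l⟩) z hz w hw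
  have h5 : s (e (e.symm ⟨i, l⟩)).1 (e (e.symm ⟨i, l⟩)).2 = s i l := by
    rw [Equiv.apply_symm_apply]
  dsimp only at h4
  rw [h5] at h4
  exact h4.trans (hρi i)

/-- The bounded holomorphic functions which are uniformly continuous functions of elements of `S`
are in the hull. -/
theorem hull_of_unif {g : E → ℂ} (hg : DifferentiableOn ℂ g (ball 0 1))
    (hM : ∃ M : ℝ, ∀ z ∈ ball (0 : E) 1, ‖g z‖ ≤ M)
    (h : ∀ ε : ℝ, 0 < ε → ∃ (k : ℕ) (a : Fin k → E → ℂ) (ρ : ℝ), 0 < ρ ∧ (∀ i, a i ∈ S) ∧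
      ∀ z ∈ ball (0 : E) 1, ∀ w ∈ ball (0 : E) 1, (∀ i, ‖a i z - a i w‖ ≤ ρ) →
        ‖g z - g w‖ ≤ ε) : g ∈ Hull S := by
  refine ⟨hg, hM, fun ε hε => ?_⟩
  obtain ⟨k, a, ρ, hρ, ha, hk⟩ := h ε hε
  exact ⟨k, a, ρ, hρ, ha, fun C hC _ h z hz w hw => hk z (hC hz) w (hC hw) fun i => h i z hz w hw⟩

/-- The limits of elements of the hull are in the hull. -/
theorem hull_lim {g : E → ℂ} (hg : DifferentiableOn ℂ g (ball 0 1))
    (h : ∀ ε : ℝ, 0 < ε → ∃ q ∈ Hull S, ∀ z ∈ ball (0 : E) 1, ‖g z - q z‖ ≤ ε) : g ∈ Hull S := by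
  refine ⟨hg, ?_, fun ε hε => ?_⟩
  · obtain ⟨q, hq, h1⟩ := h 1 one_pos
    obtain ⟨M, hM⟩ := hq.2.1
    refine ⟨1 + M, fun z hz => ?_⟩
    calc ‖g z‖ = ‖(g z - q z) + q z‖ := by rw [sub_add_cancel]
      _ ≤ _ := norm_add_le _ _
      _ ≤ 1 + M := add_le_add (h1 z hz) (hM z hz)
  · obtain ⟨q, hq, h1⟩ := h (ε / 3) (by positivity)
    obtain ⟨k, a, ρ, hρ, ha, hk⟩ := hq.2.2 (ε / 3) (by positivity)
    refine ⟨k, a, ρ, hρ, ha, fun C hC hCc h2 z hz w hw => ?_⟩
    have h3 := hk C hC hCc h2 z hz w hw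
    have h4 := h1 z (hC hz)
    have h5 := h1 w (hC hw)
    calc ‖g z - g w‖ = ‖(g z - q z) + (q z - q w) - (g w - q w)‖ := by congr 1; ring
      _ ≤ ‖(g z - q z) + (q z - q w)‖ + ‖g w - q w‖ := norm_sub_le _ _
      _ ≤ ‖g z - q z‖ + ‖q z - q w‖ + ‖g w - q w‖ := add_le_add (norm_add_le _ _) le_rfl
      _ ≤ ε := by linarith

/-- Uniformly continuous functions of two elements of the hull. -/
theorem hull_two {g a b : E → ℂ} (ha : a ∈ Hull S) (hb : b ∈ Hull S)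
    (hg : DifferentiableOn ℂ g (ball 0 1)) (hM : ∃ M : ℝ, ∀ z ∈ ball (0 : E) 1, ‖g z‖ ≤ M)
    (h : ∀ ε : ℝ, 0 < ε → ∃ ρ : ℝ, 0 < ρ ∧ ∀ z ∈ ball (0 : E) 1, ∀ w ∈ ball (0 : E) 1,
      ‖a z - a w‖ ≤ ρ → ‖b z - b w‖ ≤ ρ → ‖g z - g w‖ ≤ ε) : g ∈ Hull S := by
  have h1 : ({a, b} : Set (E → ℂ)) ⊆ Hull S := by
    rintro x (rfl | rfl)
    · exact ha
    · exact hb
  refine hull_le h1 (hull_of_unif hg hM fun ε hε => ?_)
  obtain ⟨ρ, hρ, h2⟩ := h ε hε
  refine ⟨2, ![a, b], ρ, hρ, fun i => ?_, fun z hz w hw h3 => h2 z hz w hw (h3 0) (h3 1)⟩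
  fin_cases i
  · exact Or.inl rfl
  · exact Or.inr rfl

theorem hull_const (c : ℂ) : (fun _ => c : E → ℂ) ∈ Hull S :=
  ⟨differentiableOn_const _, ⟨‖c‖, fun _ _ => le_rfl⟩, fun ε hε => ⟨0, fun _ _ => 0, 1, one_pos,
    fun i => i.elim0, fun C _ _ _ z _ w _ => by rw [sub_self, norm_zero]; exact hε.le⟩⟩

theorem hull_add {a b : E → ℂ} (ha : a ∈ Hull S) (hb : b ∈ Hull S) : a + b ∈ Hull S := by
  obtain ⟨A, hA⟩ := ha.2.1
  obtain ⟨B, hB⟩ := hb.2.1
  refine hull_two ha hb (ha.1.add hb.1) ⟨A + B, fun z hz => (norm_add_le _ _).trans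
    (add_le_add (hA z hz) (hB z hz))⟩ fun ε hε => ⟨ε / 2, by positivity, fun z _ w _ h1 h2 => ?_⟩
  calc ‖(a + b) z - (a + b) w‖ = ‖(a z - a w) + (b z - b w)‖ := by
        congr 1; simp only [Pi.add_apply]; ring
    _ ≤ _ := norm_add_le _ _
    _ ≤ ε := by linarith

theorem hull_mul {a b : E → ℂ} (ha : a ∈ Hull S) (hb : b ∈ Hull S) : a * b ∈ Hull S := by
  obtain ⟨A, hA⟩ := ha.2.1
  obtain ⟨B, hB⟩ := hb.2.1
  have hA' : ∀ z ∈ ball (0 : E) 1, ‖a z‖ ≤ |A| := fun z hz => (hA z hz).trans (le_abs_self _)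
  have hB' : ∀ z ∈ ball (0 : E) 1, ‖b z‖ ≤ |B| := fun z hz => (hB z hz).trans (le_abs_self _)
  refine hull_two ha hb (ha.1.mul hb.1) ⟨|A| * |B|, fun z hz => ?_⟩ fun ε hε =>
    ⟨ε / (|A| + |B| + 1), by positivity, fun z hz w hw h1 h2 => ?_⟩
  · rw [Pi.mul_apply, norm_mul]
    exact mul_le_mul (hA' z hz) (hB' z hz) (norm_nonneg _) (abs_nonneg _)
  · have e : (a * b) z - (a * b) w = a z * (b z - b w) + (a z - a w) * b w := by
      simp only [Pi.mul_apply]; ring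
    rw [e]
    calc ‖a z * (b z - b w) + (a z - a w) * b w‖ ≤ ‖a z‖ * ‖b z - b w‖ + ‖a z - a w‖ * ‖b w‖ := by
          rw [← norm_mul, ← norm_mul]; exact norm_add_le _ _
      _ ≤ |A| * (ε / (|A| + |B| + 1)) + (ε / (|A| + |B| + 1)) * |B| := by
          refine add_le_add (mul_le_mul (hA' z hz) h2 (norm_nonneg _) (abs_nonneg _))
            (mul_le_mul h1 (hB' w hw) (norm_nonneg _) (by positivity))
      _ = (|A| + |B|) / (|A| + |B| + 1) * ε := by ring
      _ ≤ 1 * ε := by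
          refine mul_le_mul_of_nonneg_right ?_ hε.le
          rw [div_le_one (by positivity)]
          linarith
      _ = ε := one_mul _

end hull

variable {n : ℕ} {S : Set (EuclideanSpace ℂ (Fin n) → ℂ)}

/-- The hull is a closed algebra. -/
theorem hull_closedAlg : ClosedAlg (Hull S) ⊆ Hull S := by
  rintro g ⟨h1, h2⟩
  refine hull_lim h1 fun ε hε => ?_
  obtain ⟨q, hq, h3⟩ := h2 ε hε
  refine ⟨q, ?_, h3⟩
  clear h3
  induction hq using Algebra.adjoin_induction with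
  | mem x hx => exact hx
  | algebraMap c => exact hull_const c
  | add x y _ _ hx hy => exact hull_add hx hy
  | mul x y _ _ hx hy => exact hull_mul hx hy

/-- The hull is closed under analytic equations. -/
theorem hull_analytic : AnalyticOver (Hull S) ⊆ Hull S := by
  classical
  rintro g ⟨hgd, a, A, M, ρ, c, hMρ, hc, haR, hgM, haA, hs, hlow, heq⟩
  refine hull_le (T := Set.range a) (by rintro _ ⟨k, rfl⟩; exact haR k)
    ⟨hgd, ⟨M, hgM⟩, fun ε hε => ?_⟩
  by_contra hcon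
  push Not at hcon
  have h0 : (0 : EuclideanSpace ℂ (Fin n)) ∈ ball (0 : EuclideanSpace ℂ (Fin n)) 1 :=
    mem_ball_self one_pos
  have hM0 : 0 ≤ M := (norm_nonneg _).trans (hgM 0 h0)
  have hρ0 : 0 < ρ := lt_of_le_of_lt hM0 hMρ
  have hA0 : ∀ k, 0 ≤ A k := fun k => (norm_nonneg _).trans (haA k 0 h0)
  have htail : ∀ η : ℝ, 0 < η → ∃ m : ℕ, ∑' k, A (k + m) * ρ ^ (k + m) < η := by
    intro η hη
    have h1 := tendsto_sum_nat_add fun k => A k * ρ ^ k
    exact (h1.eventually_lt_const hη).exists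
  -- bad connected sets
  choose C hC hCc hosc z hz w hw hzw using fun m : ℕ => hcon m (fun i => a i) (1 / (m + 1))
    (by positivity) (fun i => ⟨i, rfl⟩)
  obtain ⟨U, hU⟩ : ∃ U : Ultrafilter ℕ, (U : Filter ℕ) ≤ atTop :=
    ⟨Filter.hyperfilter ℕ, Nat.hyperfilter_le_atTop⟩
  have hzb : ∀ m, z m ∈ ball (0 : EuclideanSpace ℂ (Fin n)) 1 := fun m => hC m (hz m)
  have hlim : ∀ k, ∃ d ∈ closedBall (0 : ℂ) (A k), Tendsto (fun m => a k (z m)) U (𝓝 d) := by
    intro k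
    have h1 : closedBall (0 : ℂ) (A k) ∈ U.map fun m => a k (z m) := by
      rw [Ultrafilter.mem_map]
      refine Filter.univ_mem' fun m => ?_
      rw [mem_preimage, mem_closedBall_zero_iff]
      exact haA k _ (hzb m)
    exact (isCompact_closedBall (0 : ℂ) (A k)).ultrafilter_le_nhds (U.map _)
      (le_principal_iff.mpr h1)
  choose d hdA hd using hlim
  have hdA' : ∀ k, ‖d k‖ ≤ A k := fun k => by
    have := hdA k
    rwa [mem_closedBall_zero_iff] at this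
  have htb : ∀ (b : ℕ → ℂ) (y : ℂ), (∀ k, ‖b k‖ ≤ A k) → ‖y‖ ≤ ρ → (Summable fun k => b k * y ^ k) ∧
      ∀ m, ‖(∑' k, b k * y ^ k) - ∑ k ∈ Finset.range m, b k * y ^ k‖ ≤
        ∑' k, A (k + m) * ρ ^ (k + m) := by
    intro b y hbk hy
    have h1 : ∀ k, ‖b k * y ^ k‖ ≤ A k * ρ ^ k := fun k => by
      rw [norm_mul, norm_pow]
      exact mul_le_mul (hbk k) (pow_le_pow_left₀ (norm_nonneg _) hy k) (by positivity) (hA0 k)
    have h2 : Summable fun k => b k * y ^ k := Summable.of_norm_bounded hs h1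
    refine ⟨h2, fun m => ?_⟩
    rw [← h2.sum_add_tsum_nat_add m, add_sub_cancel_left]
    exact tsum_of_norm_bounded ((summable_nat_add_iff m).2 hs).hasSum fun k => h1 (k + m)
  have hne : ∃ k, d k ≠ 0 := by
    by_contra hd0
    push Not at hd0
    obtain ⟨p, hp⟩ := htail (c / 2) (by positivity)
    have h1 : Tendsto (fun m => ∑ k ∈ Finset.range p, ‖a k (z m)‖ * ρ ^ k) U
        (𝓝 (∑ k ∈ Finset.range p, ‖(0 : ℂ)‖ * ρ ^ k)) := by
      refine tendsto_finsetSum _ fun k _ => ?_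
      have h2 := (hd k).norm.mul_const (ρ ^ k)
      rwa [hd0 k] at h2
    have h3 : ∑ k ∈ Finset.range p, ‖(0 : ℂ)‖ * ρ ^ k < c / 2 := by
      simp only [norm_zero, zero_mul, Finset.sum_const_zero]
      positivity
    obtain ⟨m, hm⟩ := (h1.eventually_lt_const h3).exists
    have h4 := hlow _ (hzb m)
    have hsz : Summable fun k => ‖a k (z m)‖ * ρ ^ k := by
      refine Summable.of_nonneg_of_le (fun k => by positivity) (fun k => ?_) hs
      exact mul_le_mul_of_nonneg_right (haA k _ (hzb m)) (by positivity)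
    rw [← hsz.sum_add_tsum_nat_add p] at h4
    have h5 : ∑' k, ‖a (k + p) (z m)‖ * ρ ^ (k + p) ≤ ∑' k, A (k + p) * ρ ^ (k + p) :=
      Summable.tsum_le_tsum
        (fun k => mul_le_mul_of_nonneg_right (haA (k + p) _ (hzb m)) (by positivity))
        ((summable_nat_add_iff p).2 hsz) ((summable_nat_add_iff p).2 hs)
    linarith
  obtain ⟨P, hP⟩ : ∃ P : ℂ → ℂ, P = fun y => ∑' k, d k * y ^ k := ⟨_, rfl⟩
  have hPd : DifferentiableOn ℂ P (ball 0 ρ) := by
    rw [hP]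
    refine Complex.differentiableOn_tsum_of_summable_norm hs (fun k => ?_) isOpen_ball
      fun k y hy => ?_
    · exact ((differentiable_id.pow k).const_mul (d k)).differentiableOn
    · rw [norm_mul, norm_pow]
      rw [mem_ball_zero_iff] at hy
      exact mul_le_mul (hdA' k) (pow_le_pow_left₀ (norm_nonneg _) hy.le k) (by positivity) (hA0 k)
  obtain ⟨η, hη, hsep⟩ := sep_conn hMρ hPd (by rw [hP]; exact series_ne hρ0 hdA' hs hne) hε
  obtain ⟨p, hp⟩ := htail (η / 4) (by positivity)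
  have h1 : Tendsto (fun m : ℕ => ∑ k ∈ Finset.range p, (‖d k - a k (z m)‖ + 1 / ((m : ℝ) + 1)) *
      ρ ^ k) U (𝓝 (∑ k ∈ Finset.range p, (‖d k - d k‖ + 0) * ρ ^ k)) := by
    refine tendsto_finsetSum _ fun k _ => ?_
    refine Tendsto.mul_const _ (((tendsto_const_nhds.sub (hd k)).norm).add ?_)
    exact (tendsto_one_div_add_atTop_nhds_zero_nat (𝕜 := ℝ)).mono_left hU
  have h2 : ∑ k ∈ Finset.range p, (‖d k - d k‖ + 0) * ρ ^ k < η / 2 := by
    simp only [sub_self, norm_zero, zero_add, zero_mul, Finset.sum_const_zero]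
    positivity
  obtain ⟨m, hm, hmp⟩ := ((h1.eventually_lt_const h2).and (hU (eventually_ge_atTop p))).exists
  have hsmall : ∀ y ∈ g '' C m, ‖P y‖ ≤ η := by
    rintro _ ⟨x, hx, rfl⟩
    have hxb : x ∈ ball (0 : EuclideanSpace ℂ (Fin n)) 1 := hC m hx
    have hgρ : ‖g x‖ ≤ ρ := by have := hgM x hxb; linarith
    have h3 := (htb d (g x) hdA' hgρ).2 p
    have h4 := (htb (fun k => a k x) (g x) (fun k => haA k x hxb) hgρ).2 p
    rw [heq x hxb, zero_sub, norm_neg] at h4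
    have h5 : P (g x) = ∑' k, d k * g x ^ k := by rw [hP]
    rw [← h5] at h3
    have h6 : ‖∑ k ∈ Finset.range p, (d k - a k x) * g x ^ k‖ ≤
        ∑ k ∈ Finset.range p, (‖d k - a k (z m)‖ + 1 / ((m : ℝ) + 1)) * ρ ^ k := by
      refine (norm_sum_le _ _).trans (Finset.sum_le_sum fun k hk => ?_)
      have hkm : k < m := (Finset.mem_range.1 hk).trans_le hmp
      have h7 := hosc m ⟨k, hkm⟩ (z m) (hz m) x hx
      dsimp only at h7
      rw [norm_mul, norm_pow]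
      have h8 : ‖d k - a k x‖ ≤ ‖d k - a k (z m)‖ + 1 / ((m : ℝ) + 1) := by
        calc ‖d k - a k x‖ = ‖(d k - a k (z m)) + (a k (z m) - a k x)‖ := by congr 1; ring
          _ ≤ _ := norm_add_le _ _
          _ ≤ _ := add_le_add le_rfl h7
      exact mul_le_mul h8 (pow_le_pow_left₀ (norm_nonneg _) hgρ k) (by positivity) (by positivity)
    have h9 : P (g x) = (P (g x) - ∑ k ∈ Finset.range p, d k * g x ^ k) +
        ∑ k ∈ Finset.range p, (d k - a k x) * g x ^ k +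
        ∑ k ∈ Finset.range p, a k x * g x ^ k := by
      have : ∑ k ∈ Finset.range p, (d k - a k x) * g x ^ k =
          ∑ k ∈ Finset.range p, d k * g x ^ k - ∑ k ∈ Finset.range p, a k x * g x ^ k := by
        rw [← Finset.sum_sub_distrib]
        exact Finset.sum_congr rfl fun k _ => by ring
      rw [this]
      ring
    rw [h9]
    refine norm_add₃_le.trans ?_
    linarith
  have h3 := hsep (g '' C m) ((hCc m).image g (hgd.continuousOn.mono (hC m)))
    (by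
      rintro _ ⟨x, hx, rfl⟩
      rw [mem_closedBall_zero_iff]
      exact hgM x (hC m hx)) hsmall _ ⟨z m, hz m, rfl⟩ _ ⟨w m, hw m, rfl⟩
  linarith [hzw m]

/-- The hull of the hull, and the analytic closure of the hull, are the hull. -/
theorem closure_hull : AnalyticClosure (Hull S) ⊆ Hull S :=
  fun _ hg => hg _ ⟨subset_rfl, hull_closedAlg, hull_analytic⟩

end Pool.Agent.MPca0fc2.IN
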