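import Mathlib
import Pool.Agent.Lib.MP_ca0fc2_an.INHan

/-! The corona problem is local with respect to the hull of the tame functions. -/

set_option autoImplicit false

open Metric Set MeasureTheory Filter Topology

namespace Pool.Agent.MPca0fc2.IN

open Pool.Agent.Lib.MP_ca0fc2_an

theorem locAlg_mono {E : Type*} [NormedAddCommGroup E] [InnerProductSpace ℂ E] {A A' : Set (E → ℂ)}
    (h : A' ⊆ A) (hA : SG.LocAlg A) : SG.LocAlg A' :=
  ⟨fun a ha => hA.1 a (h ha), fun N k f a C ε hf hb ha hε hs =>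
    hA.2 N k f a C ε hf hb (fun i => h (ha i)) hε hs⟩

variable {n : ℕ}

theorem tame_subset : TameGens n ⊆ TameAlg n := fun u hu =>
  ⟨(tame_bh ⟨u, hu⟩).holo (), fun ε hε => ⟨u, Algebra.subset_adjoin hu, fun z _ => by
    rw [sub_self, norm_zero]; exact hε.le⟩⟩

/-- The corona problem is local with respect to the hull of the tame functions. -/
theorem loc_hull (hn : 2 ≤ n) : SG.LocAlg (Hull (TameGens n)) :=
  locAlg_hull (fun _ ha => (tame_bh ⟨_, ha⟩).holo ()) (locAlg_mono tame_subset (TG.locTame hn))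

/-- The tame algebra is contained in the hull. -/
theorem tameAlg_subset_hull : TameAlg n ⊆ Hull (TameGens n) := by
  intro g hg
  refine hull_closedAlg ⟨hg.1, fun ε hε => ?_⟩
  obtain ⟨q, hq, h⟩ := hg.2 ε hε
  exact ⟨q, Algebra.adjoin_mono (subset_hull fun u hu => tame_bh ⟨u, hu⟩) hq, h⟩

end Pool.Agent.MPca0fc2.IN
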