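import Mathlib
import Pool.Agent.Lib.MP_ca0fc2_an.TKDefs
import Pool.Agent.Lib.MP_ca0fc2_an.INSpec
import Pool.Agent.Lib.MP_ca0fc2_an.INEx

/-! The algebra `TameComp n` is the hull of the tame functions. -/

set_option autoImplicit false

open Metric Set MeasureTheory Filter Topology

namespace Pool.Agent.MPca0fc2.IN

open Pool.Agent.Lib.MP_ca0fc2_an

variable {n : ℕ}

/-- `TameComp n` is the hull of the tame functions. -/
theorem tameComp_eq : TameComp n = Hull (TameGens n) := by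
  ext g
  constructor
  · rintro ⟨⟨h1, h2⟩, h3⟩
    refine ⟨h1, h2, fun ε hε => ?_⟩
    obtain ⟨k, u, ρ, hρ, hu, h⟩ := h3 ε hε
    refine ⟨k, u, ρ / 2, by positivity, hu, fun C hC hCc hosc z hz w hw => ?_⟩
    have hsub : C ⊆ cell u (fun i => u i z) ρ := fun x hx =>
      ⟨hC hx, fun i => (hosc i x hx z hz).trans_lt (by linarith)⟩
    have h4 := hCc.subset_connectedComponentIn hz hsub
    exact h _ z z (h4 hz) w (h4 hw)
  · rintro ⟨h1, h2, h3⟩
    refine ⟨⟨h1, h2⟩, fun ε hε => ?_⟩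
    obtain ⟨k, u, ρ, hρ, hu, h⟩ := h3 ε hε
    refine ⟨k, u, ρ / 2, by positivity, hu, fun c x => ?_⟩
    have hsub : connectedComponentIn (cell u c (ρ / 2)) x ⊆ cell u c (ρ / 2) :=
      connectedComponentIn_subset _ x
    refine h _ (fun y hy => (hsub hy).1) isPreconnected_connectedComponentIn
      fun i z hz w hw => ?_
    have h4 := (hsub hz).2 i
    have h5 := (hsub hw).2 i
    have h6 : u i z - u i w = (u i z - c i) - (u i w - c i) := by ring
    rw [h6]
    have h7 := norm_sub_le (u i z - c i) (u i w - c i)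
    linarith

theorem comp_bh {g : EuclideanSpace ℂ (Fin n) → ℂ} (hg : g ∈ TameComp n) : BH (cf g) := by
  obtain ⟨⟨h1, M, h2⟩, -⟩ := hg
  exact ⟨fun _ => h1, M, fun _ z hz => h2 z hz⟩

theorem tame_sub_comp' : TameGens n ⊆ TameComp n := by
  rw [tameComp_eq]
  exact subset_hull fun u hu => tame_bh ⟨u, hu⟩

theorem comp_closedAlg : ClosedAlg (TameComp n) ⊆ TameComp n := by
  rw [tameComp_eq]
  exact hull_closedAlg

/-- `TameComp n` is its own hull. -/
theorem comp_hull : Hull (TameComp n) ⊆ TameComp n := by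
  have h1 : TameComp n ⊆ Hull (TameGens n) := by rw [tameComp_eq]
  have h2 := hull_le h1
  rwa [← tameComp_eq] at h2

/-- `TameComp n` contains the functions which satisfy an analytic equation over it. -/
theorem comp_analytic : AnalyticOver (TameComp n) ⊆ TameComp n := by
  rw [tameComp_eq]
  exact hull_analytic

/-- `TameComp n` contains the bounded holomorphic functions which are algebraic over it. -/
theorem comp_algOver : AlgOver (TameComp n) ⊆ TameComp n :=
  (algOver_subset comp_closedAlg fun _ ha => comp_bh ha).trans comp_analytic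

/-- `TameComp n` contains the bounded holomorphic functions which are uniformly continuous functions
of elements of it. -/
theorem comp_of_unif {g : EuclideanSpace ℂ (Fin n) → ℂ} (hg : DifferentiableOn ℂ g (ball 0 1))
    (hM : ∃ M : ℝ, ∀ z ∈ ball (0 : EuclideanSpace ℂ (Fin n)) 1, ‖g z‖ ≤ M)
    (h : ∀ ε : ℝ, 0 < ε → ∃ (k : ℕ) (a : Fin k → EuclideanSpace ℂ (Fin n) → ℂ) (ρ : ℝ), 0 < ρ ∧
      (∀ i, a i ∈ TameComp n) ∧ ∀ z ∈ ball (0 : EuclideanSpace ℂ (Fin n)) 1,
      ∀ w ∈ ball (0 : EuclideanSpace ℂ (Fin n)) 1, (∀ i, ‖a i z - a i w‖ ≤ ρ) →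
        ‖g z - g w‖ ≤ ε) : g ∈ TameComp n :=
  comp_hull (hull_of_unif hg hM h)

/-- `TameComp n` contains all the bounded holomorphic functions which belong to the C*-algebra
generated by `TameComp n`. -/
theorem comp_cstar {g : EuclideanSpace ℂ (Fin n) → ℂ} (hg : DifferentiableOn ℂ g (ball 0 1))
    (h : ∀ ε : ℝ, 0 < ε → ∃ (k : ℕ) (a : Fin k → EuclideanSpace ℂ (Fin n) → ℂ)
      (P : MvPolynomial (Fin k ⊕ Fin k) ℂ), (∀ i, a i ∈ TameComp n) ∧
      ∀ z ∈ ball (0 : EuclideanSpace ℂ (Fin n)) 1, ‖g z - MvPolynomial.eval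
        (Sum.elim (fun i => a i z) fun i => (starRingEnd ℂ) (a i z)) P‖ ≤ ε) :
    g ∈ TameComp n := by
  -- the polynomials are uniformly continuous functions of the functions `a i`
  have hunif : ∀ {k : ℕ} {a : Fin k → EuclideanSpace ℂ (Fin n) → ℂ} (_ : ∀ i, a i ∈ TameComp n)
      (P : MvPolynomial (Fin k ⊕ Fin k) ℂ),
      (∃ M : ℝ, ∀ z ∈ ball (0 : EuclideanSpace ℂ (Fin n)) 1, ‖MvPolynomial.eval
        (Sum.elim (fun i => a i z) fun i => (starRingEnd ℂ) (a i z)) P‖ ≤ M) ∧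
      ∀ ε : ℝ, 0 < ε → ∃ ρ : ℝ, 0 < ρ ∧ ∀ z ∈ ball (0 : EuclideanSpace ℂ (Fin n)) 1,
        ∀ w ∈ ball (0 : EuclideanSpace ℂ (Fin n)) 1, (∀ i, ‖a i z - a i w‖ ≤ ρ) →
          ‖MvPolynomial.eval (Sum.elim (fun i => a i z) fun i => (starRingEnd ℂ) (a i z)) P -
            MvPolynomial.eval (Sum.elim (fun i => a i w) fun i => (starRingEnd ℂ) (a i w)) P‖ ≤
              ε := by
    intro k a ha P
    choose B hB using fun i => (ha i).1.2
    obtain ⟨K, hK⟩ : ∃ K : Set (Fin k → ℂ), K = Set.univ.pi fun i => closedBall (0 : ℂ) (B i) :=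
      ⟨_, rfl⟩
    have hKc : IsCompact K := by
      rw [hK]; exact isCompact_univ_pi fun i => isCompact_closedBall 0 (B i)
    have hmem : ∀ z ∈ ball (0 : EuclideanSpace ℂ (Fin n)) 1, (fun i => a i z) ∈ K := by
      intro z hz
      rw [hK]
      intro i _
      rw [mem_closedBall_zero_iff]
      exact hB i z hz
    obtain ⟨Φ, hΦ⟩ : ∃ Φ : (Fin k → ℂ) → ℂ, Φ = fun y => MvPolynomial.eval
      (Sum.elim (fun i => y i) fun i => (starRingEnd ℂ) (y i)) P := ⟨_, rfl⟩
    have hΦc : Continuous Φ := by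
      rw [hΦ]
      refine (MvPolynomial.continuous_eval P).comp (continuous_pi fun i => ?_)
      rcases i with i | i
      · exact continuous_apply i
      · exact Complex.continuous_conj.comp (continuous_apply i)
    refine ⟨?_, fun ε hε => ?_⟩
    · obtain ⟨M, hM⟩ := hKc.exists_bound_of_continuousOn hΦc.continuousOn
      refine ⟨M, fun z hz => ?_⟩
      have := hM _ (hmem z hz)
      rw [hΦ] at this
      exact this
    · have h1 := hKc.uniformContinuousOn_of_continuous hΦc.continuousOn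
      rw [Metric.uniformContinuousOn_iff_le] at h1
      obtain ⟨ρ, hρ, h2⟩ := h1 ε hε
      refine ⟨ρ, hρ, fun z hz w hw h3 => ?_⟩
      have h4 := h2 _ (hmem z hz) _ (hmem w hw) (by
        rw [dist_pi_le_iff hρ.le]
        intro i
        rw [dist_eq_norm]
        exact h3 i)
      rw [dist_eq_norm, hΦ] at h4
      exact h4
  refine comp_of_unif hg ?_ fun ε hε => ?_
  · obtain ⟨k, a, P, ha, h1⟩ := h 1 one_pos
    obtain ⟨⟨M, hM⟩, -⟩ := hunif ha P
    refine ⟨1 + M, fun z hz => ?_⟩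
    have h2 := h1 z hz
    have h3 := hM z hz
    calc ‖g z‖ = ‖(g z - MvPolynomial.eval
          (Sum.elim (fun i => a i z) fun i => (starRingEnd ℂ) (a i z)) P) + MvPolynomial.eval
          (Sum.elim (fun i => a i z) fun i => (starRingEnd ℂ) (a i z)) P‖ := by
            rw [sub_add_cancel]
      _ ≤ _ := norm_add_le _ _
      _ ≤ 1 + M := add_le_add h2 h3
  · obtain ⟨k, a, P, ha, h1⟩ := h (ε / 3) (by positivity)
    obtain ⟨-, h2⟩ := hunif ha P
    obtain ⟨ρ, hρ, h3⟩ := h2 (ε / 3) (by positivity)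
    refine ⟨k, a, ρ, hρ, ha, fun z hz w hw h4 => ?_⟩
    have h5 := h3 z hz w hw h4
    have h6 := h1 z hz
    have h7 := h1 w hw
    obtain ⟨p, hp⟩ : ∃ p : EuclideanSpace ℂ (Fin n) → ℂ, p = fun z => MvPolynomial.eval
      (Sum.elim (fun i => a i z) fun i => (starRingEnd ℂ) (a i z)) P := ⟨_, rfl⟩
    have h8 : ‖p z - p w‖ ≤ ε / 3 := by rw [hp]; exact h5
    have h9 : ‖g z - p z‖ ≤ ε / 3 := by rw [hp]; exact h6
    have h10 : ‖g w - p w‖ ≤ ε / 3 := by rw [hp]; exact h7
    calc ‖g z - g w‖ = ‖(g z - p z) + (p z - p w) - (g w - p w)‖ := by congr 1; ring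
      _ ≤ ‖(g z - p z) + (p z - p w)‖ + ‖g w - p w‖ := norm_sub_le _ _
      _ ≤ ‖g z - p z‖ + ‖p z - p w‖ + ‖g w - p w‖ := add_le_add (norm_add_le _ _) le_rfl
      _ ≤ ε := by linarith

end Pool.Agent.MPca0fc2.IN
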