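import Mathlib
import Pool.Agent.Lib.MP_ca0fc2_an.Holo

open Metric Set Complex MeasureTheory
open scoped Real

namespace Pool.Agent.MPca0fc2.Lower

noncomputable section

variable {q : ℕ} {ρ ρ' : ℝ}

/-- the coefficient of `z ^ a` in the first variable -/
def coef (ρ : ℝ) (a : ℕ) (F : (Fin (q+1) → ℂ) → ℂ) (w : Fin q → ℂ) : ℂ :=
  (2 * π * I)⁻¹ * ∮ z in C(0, ρ), (z ^ (a+1))⁻¹ * F (Fin.cons z w)

/-- the point with first coordinate `z` -/
def cc (z : ℂ) (w : Fin q → ℂ) : Fin (q+1) → ℂ := Fin.cons z w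

lemma cc_zero (z : ℂ) (w : Fin q → ℂ) : cc z w 0 = z := rfl
lemma cc_succ (z : ℂ) (w : Fin q → ℂ) (j : Fin q) : cc z w j.succ = w j := by
  simp [cc]

lemma norm_cc_lt (h0 : 0 < ρ') {z : ℂ} {w : Fin q → ℂ} (hz : ‖z‖ < ρ') (hw : ‖w‖ < ρ') :
    ‖cc z w‖ < ρ' := by
  rw [pi_norm_lt_iff h0] at hw ⊢
  intro i
  refine Fin.cases ?_ (fun j => ?_) i
  · exact hz
  · rw [cc_succ]; exact hw j

lemma norm_cc_le (h0 : 0 ≤ ρ') {z : ℂ} {w : Fin q → ℂ} (hz : ‖z‖ ≤ ρ') (hw : ‖w‖ ≤ ρ') :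
    ‖cc z w‖ ≤ ρ' := by
  rw [pi_norm_le_iff_of_nonneg h0] at hw ⊢
  intro i
  refine Fin.cases ?_ (fun j => ?_) i
  · exact hz
  · rw [cc_succ]; exact hw j

lemma diff_cc (w : Fin q → ℂ) : Differentiable ℂ (fun z : ℂ => cc z w) := by
  rw [differentiable_pi]
  intro i
  refine Fin.cases ?_ (fun j => ?_) i
  · exact differentiable_id
  · simp only [cc_succ]; exact differentiable_const _

lemma diff_cc' (z : ℂ) : Differentiable ℂ (fun w : Fin q → ℂ => cc z w) := by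
  rw [differentiable_pi]
  intro i
  refine Fin.cases ?_ (fun j => ?_) i
  · exact differentiable_const _
  · simp only [cc_succ]; exact differentiable_apply j

lemma slice_diff {F : (Fin (q+1) → ℂ) → ℂ} (h0 : 0 < ρ')
    (hF : DifferentiableOn ℂ F (ball 0 ρ')) {w : Fin q → ℂ} (hw : w ∈ ball 0 ρ') :
    DifferentiableOn ℂ (fun z => F (cc z w)) (ball 0 ρ') := by
  refine hF.comp (diff_cc w).differentiableOn ?_
  intro z hz
  rw [mem_ball_zero_iff] at *
  exact norm_cc_lt h0 hz hw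

lemma integrable_term {G : ℂ → ℂ} (h0 : 0 < ρ) (h1 : ρ < ρ')
    (hG : DifferentiableOn ℂ G (ball 0 ρ')) (n : ℕ) :
    CircleIntegrable (fun z => (z ^ n)⁻¹ * G z) 0 ρ := by
  apply ContinuousOn.circleIntegrable h0.le
  have hsub : sphere (0:ℂ) ρ ⊆ ball 0 ρ' := by
    intro z hz
    rw [mem_sphere_zero_iff_norm] at hz
    rw [mem_ball_zero_iff, hz]
    exact h1
  refine ContinuousOn.mul ?_ (hG.continuousOn.mono hsub)
  refine ContinuousOn.inv₀ (continuousOn_id.pow n) ?_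
  intro z hz
  rw [mem_sphere_zero_iff_norm] at hz
  apply pow_ne_zero
  intro h
  have h' : z = 0 := h
  rw [h', norm_zero] at hz
  linarith

lemma coef_bound {F : (Fin (q+1) → ℂ) → ℂ} (h0 : 0 < ρ) (h1 : ρ < ρ') {B : ℝ}
    (hB : ∀ w ∈ ball (0 : Fin (q+1) → ℂ) ρ', ‖F w‖ ≤ B) (a : ℕ) {w : Fin q → ℂ}
    (hw : w ∈ ball 0 ρ') : ‖coef ρ a F w‖ ≤ (ρ ^ a)⁻¹ * B := by
  unfold coef
  have h2 : ∀ z ∈ sphere (0:ℂ) ρ, ‖(z ^ (a+1))⁻¹ * F (Fin.cons z w)‖ ≤ (ρ ^ (a+1))⁻¹ * B := by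
    intro z hz
    rw [mem_sphere_zero_iff_norm] at hz
    rw [norm_mul, norm_inv, norm_pow, hz]
    have : ‖F (Fin.cons z w)‖ ≤ B := by
      apply hB
      rw [mem_ball_zero_iff] at *
      exact norm_cc_lt (h0.trans h1) (by rw [hz]; exact h1) hw
    gcongr
  have h3 := circleIntegral.norm_two_pi_i_inv_smul_integral_le_of_norm_le_const h0.le h2
  rw [smul_eq_mul] at h3
  refine h3.trans (le_of_eq ?_)
  rw [pow_succ, mul_inv]
  field_simp

lemma coef_diff {F : (Fin (q+1) → ℂ) → ℂ} (h0 : 0 < ρ) (h1 : ρ < ρ')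
    (hF : DifferentiableOn ℂ F (ball 0 ρ')) (a : ℕ) :
    DifferentiableOn ℂ (coef ρ a F) (ball 0 ρ') := by
  have hρ' : 0 < ρ' := h0.trans h1
  intro w₀ hw₀
  apply DifferentiableAt.differentiableWithinAt
  unfold coef
  apply DifferentiableAt.const_mul
  rw [mem_ball_zero_iff] at hw₀
  -- intermediate radius
  obtain ⟨ρ₁, h2, h3⟩ : ∃ ρ₁, max ρ ‖w₀‖ < ρ₁ ∧ ρ₁ < ρ' := exists_between (max_lt h1 hw₀)
  have h4 : ρ < ρ₁ := lt_of_le_of_lt (le_max_left _ _) h2
  have h5 : ‖w₀‖ < ρ₁ := lt_of_le_of_lt (le_max_right _ _) h2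
  have hρ₁ : 0 < ρ₁ := h0.trans h4
  obtain ⟨M, hM⟩ : ∃ M, ∀ w ∈ closedBall (0 : Fin (q+1) → ℂ) ρ₁, ‖F w‖ ≤ M :=
    (isCompact_closedBall _ _).exists_bound_of_continuousOn
      (hF.continuousOn.mono (closedBall_subset_ball h3))
  have hmem : ∀ w ∈ ball w₀ (ρ₁ - ‖w₀‖), ∀ θ : ℝ,
      cc (circleMap 0 ρ θ) w ∈ closedBall (0 : Fin (q+1) → ℂ) ρ₁ := by
    intro w hw θ
    rw [mem_closedBall_zero_iff]
    apply norm_cc_le hρ₁.le
    · rw [norm_circleMap_zero, abs_of_pos h0]; exact h4.le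
    · rw [mem_ball, dist_eq_norm] at hw
      calc ‖w‖ = ‖(w - w₀) + w₀‖ := by simp
        _ ≤ ‖w - w₀‖ + ‖w₀‖ := norm_add_le _ _
        _ ≤ ρ₁ := by linarith
  have hcont : ∀ w ∈ ball w₀ (ρ₁ - ‖w₀‖), Continuous fun θ : ℝ =>
      deriv (circleMap 0 ρ) θ • ((circleMap 0 ρ θ ^ (a+1))⁻¹ * F (cc (circleMap 0 ρ θ) w)) := by
    intro w hw
    have c1 : Continuous fun θ : ℝ => deriv (circleMap 0 ρ) θ := by
      simp only [deriv_circleMap]
      fun_prop
    have c2 : Continuous fun θ : ℝ => (circleMap 0 ρ θ ^ (a+1))⁻¹ := by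
      refine Continuous.inv₀ (by fun_prop) ?_
      intro θ
      exact pow_ne_zero _ (circleMap_ne_center h0.ne')
    have c3 : Continuous fun θ : ℝ => F (cc (circleMap 0 ρ θ) w) := by
      have : ContinuousOn F (closedBall 0 ρ₁) :=
        hF.continuousOn.mono (closedBall_subset_ball h3)
      refine this.comp_continuous ?_ (hmem w hw)
      exact (diff_cc w).continuous.comp (continuous_circleMap _ _)
    exact c1.smul (c2.mul c3)
  have key := Pool.Agent.Lib.MP_ca0fc2_an.differentiableAt_integral (E := Fin q → ℂ)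
    (μ := volume.restrict (Ioc (0:ℝ) (2*π)))
    (G := fun w θ => deriv (circleMap 0 ρ) θ • ((circleMap 0 ρ θ ^ (a+1))⁻¹ *
      F (cc (circleMap 0 ρ θ) w))) (z₀ := w₀) (r := ρ₁ - ‖w₀‖) (by linarith)
    (g := fun _ => ρ * ((ρ ^ (a+1))⁻¹ * M)) ?_ ?_ ?_ ?_
  · have e : (fun w => ∮ z in C(0, ρ), (z ^ (a+1))⁻¹ * F (Fin.cons z w)) =
        fun w => ∫ θ in Ioc (0:ℝ) (2*π), deriv (circleMap 0 ρ) θ •
          ((circleMap 0 ρ θ ^ (a+1))⁻¹ * F (cc (circleMap 0 ρ θ) w)) := by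
      ext w
      rw [circleIntegral, intervalIntegral.integral_of_le (by positivity)]
      rfl
    rw [e]
    exact key
  · refine Filter.Eventually.of_forall fun θ => ?_
    have : DifferentiableOn ℂ (fun w => F (cc (circleMap 0 ρ θ) w)) (ball w₀ (ρ₁ - ‖w₀‖)) := by
      refine hF.comp (diff_cc' _).differentiableOn ?_
      intro w hw
      exact closedBall_subset_ball h3 (hmem w hw θ)
    exact (this.const_mul ((circleMap 0 ρ θ ^ (a+1))⁻¹)).const_smul (deriv (circleMap 0 ρ) θ)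
  · intro w hw
    exact (hcont w hw).aestronglyMeasurable
  · exact integrable_const _
  · refine Filter.Eventually.of_forall fun θ w hw => ?_
    rw [norm_smul, norm_mul, norm_inv, norm_pow, norm_circleMap_zero, deriv_circleMap, norm_mul,
      norm_circleMap_zero, norm_I, mul_one, abs_of_pos h0]
    have := hM _ (hmem w hw θ)
    gcongr

lemma coef_vanish {G : ℂ → ℂ} (h0 : 0 < ρ) (h1 : ρ < ρ')
    (hG : DifferentiableOn ℂ G (ball 0 ρ')) {a k : ℕ} (hk : a < k) :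
    ∮ z in C(0, ρ), (z ^ (a+1))⁻¹ * (z ^ k * G z) = 0 := by
  have h2 : ∮ z in C(0, ρ), (z ^ (a+1))⁻¹ * (z ^ k * G z) =
      ∮ z in C(0, ρ), z ^ (k - (a + 1)) * G z := by
    apply circleIntegral.integral_congr h0.le
    intro z hz
    rw [mem_sphere_zero_iff_norm] at hz
    have hz0 : z ≠ 0 := by
      intro h; rw [h, norm_zero] at hz; linarith
    have : z ^ k = z ^ (a+1) * z ^ (k - (a+1)) := by
      rw [← pow_add]; congr 1; omega
    simp only
    rw [this]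
    field_simp
  rw [h2]
  apply DiffContOnCl.circleIntegral_eq_zero h0.le
  apply DifferentiableOn.diffContOnCl
  have hcl : closure (ball (0:ℂ) ρ) ⊆ ball 0 ρ' :=
    closure_ball_subset_closedBall.trans (closedBall_subset_ball h1)
  exact ((differentiableOn_id.pow _).mul hG).mono hcl

/-- the circle integral with the kernel `z ^ (-a-1)` -/
def J (ρ : ℝ) (a : ℕ) (G : ℂ → ℂ) : ℂ := ∮ z in C(0, ρ), (z ^ (a+1))⁻¹ * G z

lemma J_add (h0 : 0 < ρ) (h1 : ρ < ρ') {G K : ℂ → ℂ} (hG : DifferentiableOn ℂ G (ball 0 ρ'))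
    (hK : DifferentiableOn ℂ K (ball 0 ρ')) (a : ℕ) :
    J ρ a (fun z => G z + K z) = J ρ a G + J ρ a K := by
  unfold J
  rw [← circleIntegral.integral_add (integrable_term h0 h1 hG _) (integrable_term h0 h1 hK _)]
  congr 1
  ext z
  ring

lemma J_smul (a : ℕ) (c : ℂ) (G : ℂ → ℂ) : J ρ a (fun z => c * G z) = c * J ρ a G := by
  unfold J
  rw [← circleIntegral.integral_const_mul]
  congr 1
  ext z
  ring

lemma J_sum (h0 : 0 < ρ) (h1 : ρ < ρ') {ι : Type*} (s : Finset ι)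
    {G : ι → ℂ → ℂ} (hG : ∀ j ∈ s, DifferentiableOn ℂ (G j) (ball 0 ρ')) (a : ℕ) :
    J ρ a (fun z => ∑ j ∈ s, G j z) = ∑ j ∈ s, J ρ a (G j) := by
  classical
  induction s using Finset.induction_on with
  | empty => simp [J, circleIntegral]
  | insert i s hi ih =>
    simp only [Finset.sum_insert hi]
    rw [J_add h0 h1 (hG i (Finset.mem_insert_self _ _))
      (DifferentiableOn.fun_sum fun j hj => hG j (Finset.mem_insert_of_mem hj)),
      ih fun j hj => hG j (Finset.mem_insert_of_mem hj)]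

lemma J_shift (h0 : 0 < ρ) (a m : ℕ) (G : ℂ → ℂ) :
    J ρ (a + m) (fun z => z ^ m * G z) = J ρ a G := by
  unfold J
  apply circleIntegral.integral_congr h0.le
  intro z hz
  rw [mem_sphere_zero_iff_norm] at hz
  have hz0 : z ≠ 0 := by
    intro h; rw [h, norm_zero] at hz; linarith
  have : z ^ (a + m + 1) = z ^ (a+1) * z ^ m := by
    rw [← pow_add]; congr 1; omega
  simp only
  rw [this]
  field_simp

lemma J_one_zero (h0 : 0 < ρ) : J ρ 0 (fun _ => 1) = 2 * π * I := by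
  unfold J
  have := circleIntegral.integral_sub_center_inv (0:ℂ) h0.ne'
  simpa using this

lemma J_one (h0 : 0 < ρ) {a : ℕ} (ha : 0 < a) : J ρ a (fun _ => 1) = 0 := by
  unfold J
  have h := circleIntegral.integral_sub_zpow_of_ne (n := -((a:ℤ)+1)) (by omega) 0 0 ρ
  refine (circleIntegral.integral_congr h0.le ?_).trans h
  intro z _
  simp only [sub_zero, mul_one]
  rw [zpow_neg]
  norm_cast

lemma coef_eq_J (a : ℕ) (F : (Fin (q+1) → ℂ) → ℂ) (w : Fin q → ℂ) :
    coef ρ a F w = (2 * π * I)⁻¹ * J ρ a (fun z => F (cc z w)) := rfl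

/-- relation between coefficients -/
lemma step (h0 : 0 < ρ) (h1 : ρ < ρ') {A B : (Fin (q+1) → ℂ) → ℂ}
    {g : Fin (q+1) → (Fin (q+1) → ℂ) → ℂ} {c : ℂ} {m k : ℕ}
    (hA : DifferentiableOn ℂ A (ball 0 ρ')) (hB : DifferentiableOn ℂ B (ball 0 ρ'))
    (hg : ∀ j, DifferentiableOn ℂ (g j) (ball 0 ρ'))
    (hrel : ∀ w ∈ ball (0 : Fin (q+1) → ℂ) ρ', A w = c + (∏ j, w j ^ m) * B w +
      ∑ j, w j ^ k * g j w) {a : ℕ} (ha : a < k) {w : Fin q → ℂ} (hw : w ∈ ball 0 ρ') :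
    coef ρ a A w = c * ((2 * π * I)⁻¹ * J ρ a (fun _ => 1)) + (∏ j, w j ^ m) *
      ((2 * π * I)⁻¹ * J ρ a (fun z => z ^ m * B (cc z w))) +
      ∑ j : Fin q, w j ^ k * coef ρ a (g j.succ) w := by
  have hρ' : 0 < ρ' := h0.trans h1
  have sA := slice_diff hρ' hA hw
  have sB := slice_diff hρ' hB hw
  have sg := fun j => slice_diff hρ' (hg j) hw
  have d1 : DifferentiableOn ℂ (fun _ : ℂ => c * 1) (ball 0 ρ') := differentiableOn_const _
  have d2 : DifferentiableOn ℂ (fun z : ℂ => (∏ j, w j ^ m) * (z ^ m * B (cc z w)))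
      (ball 0 ρ') := ((differentiableOn_id.pow m).mul sB).const_mul _
  have d3 : DifferentiableOn ℂ (fun z : ℂ => z ^ k * g 0 (cc z w)) (ball 0 ρ') :=
    (differentiableOn_id.pow k).mul (sg 0)
  have d4 : ∀ j : Fin q, DifferentiableOn ℂ (fun z : ℂ => w j ^ k * g j.succ (cc z w))
      (ball 0 ρ') := fun j => (sg j.succ).const_mul _
  have d5 : DifferentiableOn ℂ (fun z : ℂ => ∑ j : Fin q, w j ^ k * g j.succ (cc z w))
      (ball 0 ρ') := DifferentiableOn.fun_sum fun j _ => d4 j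
  have e1 : J ρ a (fun z => A (cc z w)) = J ρ a (fun z => (c * 1 + (∏ j, w j ^ m) *
      (z ^ m * B (cc z w))) + (z ^ k * g 0 (cc z w) +
      ∑ j : Fin q, w j ^ k * g j.succ (cc z w))) := by
    unfold J
    apply circleIntegral.integral_congr h0.le
    intro z hz
    rw [mem_sphere_zero_iff_norm] at hz
    have hmem : cc z w ∈ ball (0 : Fin (q+1) → ℂ) ρ' := by
      rw [mem_ball_zero_iff] at *
      exact norm_cc_lt hρ' (by rw [hz]; exact h1) hw
    simp only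
    rw [hrel _ hmem, Fin.prod_univ_succ, Fin.sum_univ_succ]
    simp only [cc_zero, cc_succ]
    ring
  rw [coef_eq_J, e1, J_add h0 h1 (d1.fun_add d2) (d3.fun_add d5), J_add h0 h1 d1 d2,
    J_add h0 h1 d3 d5, J_sum h0 h1 _ (fun j _ => d4 j), J_smul, J_smul]
  have e2 : J ρ a (fun z => z ^ k * g 0 (cc z w)) = 0 := coef_vanish h0 h1 (sg 0) ha
  rw [e2, zero_add]
  simp only [J_smul, coef_eq_J]
  rw [mul_add, mul_add, Finset.mul_sum]
  congr 1
  · ring
  · refine Finset.sum_congr rfl fun j _ => ?_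
    ring

lemma two_pi_I_ne : (2 * π * I : ℂ) ≠ 0 := by
  simp [Real.pi_ne_zero]

/-- the coefficient of order zero -/
lemma step_zero (h0 : 0 < ρ) (h1 : ρ < ρ') {A B : (Fin (q+1) → ℂ) → ℂ}
    {g : Fin (q+1) → (Fin (q+1) → ℂ) → ℂ} {c : ℂ} {m k : ℕ}
    (hA : DifferentiableOn ℂ A (ball 0 ρ')) (hB : DifferentiableOn ℂ B (ball 0 ρ'))
    (hg : ∀ j, DifferentiableOn ℂ (g j) (ball 0 ρ'))
    (hrel : ∀ w ∈ ball (0 : Fin (q+1) → ℂ) ρ', A w = c + (∏ j, w j ^ m) * B w +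
      ∑ j, w j ^ k * g j w) (hk : 0 < k) (hm : 0 < m) {w : Fin q → ℂ} (hw : w ∈ ball 0 ρ') :
    coef ρ 0 A w = c + ∑ j : Fin q, w j ^ k * coef ρ 0 (g j.succ) w := by
  rw [step h0 h1 hA hB hg hrel hk hw, J_one_zero h0, inv_mul_cancel₀ two_pi_I_ne]
  have : J ρ 0 (fun z => z ^ m * B (cc z w)) = 0 :=
    coef_vanish h0 h1 (slice_diff (h0.trans h1) hB hw) hm
  rw [this]
  ring

/-- the coefficient of positive order -/
lemma step_succ (h0 : 0 < ρ) (h1 : ρ < ρ') {A B : (Fin (q+1) → ℂ) → ℂ}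
    {g : Fin (q+1) → (Fin (q+1) → ℂ) → ℂ} {c : ℂ} {m k : ℕ}
    (hA : DifferentiableOn ℂ A (ball 0 ρ')) (hB : DifferentiableOn ℂ B (ball 0 ρ'))
    (hg : ∀ j, DifferentiableOn ℂ (g j) (ball 0 ρ'))
    (hrel : ∀ w ∈ ball (0 : Fin (q+1) → ℂ) ρ', A w = c + (∏ j, w j ^ m) * B w +
      ∑ j, w j ^ k * g j w) {b : ℕ} (hk : b + m < k) (hm : 0 < m) {w : Fin q → ℂ}
    (hw : w ∈ ball 0 ρ') :
    coef ρ (b + m) A w = (∏ j, w j ^ m) * coef ρ b B w +
      ∑ j : Fin q, w j ^ k * coef ρ (b + m) (g j.succ) w := by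
  rw [step h0 h1 hA hB hg hrel hk hw, J_one h0 (by omega : 0 < b + m), J_shift h0, coef_eq_J]
  ring

/-- the lower bound for a system -/
theorem system (h0 : 0 < ρ) (h1 : ρ < ρ') {m k N : ℕ} (hk : N * m < k) (hm : 0 < m) {ε : ℂ} :
    ∀ (q : ℕ) (H : ℕ → (Fin q → ℂ) → ℂ) (g : ℕ → Fin q → (Fin q → ℂ) → ℂ),
    (∀ i ≤ N, DifferentiableOn ℂ (H i) (ball 0 ρ')) →
    (∀ i ≤ N, ∀ j, DifferentiableOn ℂ (g i j) (ball 0 ρ')) →
    (∀ w ∈ ball (0 : Fin q → ℂ) ρ', ε * H 0 w = 1 + ∑ j, w j ^ k * g 0 j w) →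
    (∀ i, i + 1 ≤ N → ∀ w ∈ ball (0 : Fin q → ℂ) ρ', ε * H (i+1) w = (∏ j, w j ^ m) * H i w +
      ∑ j, w j ^ k * g (i+1) j w) →
    ∀ B : ℝ, (∀ w ∈ ball (0 : Fin q → ℂ) ρ', ‖H N w‖ ≤ B) →
    (‖ε‖ ^ (N+1))⁻¹ * ρ ^ (q * (N * m)) ≤ B := by
  intro q
  induction q with
  | zero =>
    intro H g _ _ hz hs B hB
    have hmem : (0 : Fin 0 → ℂ) ∈ ball (0 : Fin 0 → ℂ) ρ' := mem_ball_self (h0.trans h1)
    have e0 : ε * H 0 0 = 1 := by
      have := hz 0 hmem
      simpa using this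
    have hε : ε ≠ 0 := by
      intro h; rw [h, zero_mul] at e0; exact zero_ne_one e0
    have e1 : ∀ i ≤ N, H i 0 = (ε ^ (i+1))⁻¹ := by
      intro i
      induction i with
      | zero =>
        intro _
        rw [zero_add, pow_one]
        exact eq_inv_of_mul_eq_one_right e0
      | succ i ih =>
        intro hi
        have := hs i hi 0 hmem
        rw [ih (by omega)] at this
        simp only [Finset.univ_eq_empty, Finset.prod_empty, one_mul, Finset.sum_empty,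
          add_zero] at this
        rw [pow_succ ε (i+1), mul_inv, ← this]
        field_simp
    have := hB 0 hmem
    rw [e1 N le_rfl, norm_inv, norm_pow] at this
    simpa using this
  | succ q ih =>
    intro H g hH hg hz hs B hB
    have hρ : 0 < ρ' := h0.trans h1
    have c0 : ∀ (c : ℂ), DifferentiableOn ℂ (fun _ : Fin (q+1) → ℂ => c) (ball 0 ρ') :=
      fun c => differentiableOn_const c
    have hsm : ∀ (a : ℕ) (F : (Fin (q+1) → ℂ) → ℂ) (w : Fin q → ℂ),
        coef ρ a (fun w => ε * F w) w = ε * coef ρ a F w := by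
      intro a F w
      rw [coef_eq_J, coef_eq_J, J_smul]
      ring
    have key := ih (fun i => coef ρ (i * m) (H i)) (fun i j => coef ρ (i * m) (g i j.succ))
      (fun i hi => coef_diff h0 h1 (hH i hi) _)
      (fun i hi j => coef_diff h0 h1 (hg i hi _) _)
      (by
        intro w hw
        have := step_zero (A := fun w => ε * H 0 w) (B := fun _ => 0) (g := g 0) (c := 1)
          (m := m) (k := k) h0 h1 ((hH 0 (by omega)).const_mul _) (c0 0) (hg 0 (by omega))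
          (by
            intro w hw
            rw [hz w hw]
            ring) (by omega) hm hw
        rw [hsm] at this
        simpa using this)
      (by
        intro i hi w hw
        have him : i * m + m < k := by
          have : (i + 1) * m ≤ N * m := Nat.mul_le_mul_right _ hi
          have e : (i + 1) * m = i * m + m := by ring
          omega
        have := step_succ (A := fun w => ε * H (i+1) w) (B := H i) (g := g (i+1)) (c := 0)
          (m := m) (k := k) h0 h1 ((hH (i+1) hi).const_mul _) (hH i (by omega)) (hg (i+1) hi)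
          (by
            intro w hw
            rw [hs i hi w hw]
            ring) him hm hw
        rw [hsm] at this
        have e : (i + 1) * m = i * m + m := by ring
        rw [e]
        exact this)
      ((ρ ^ (N * m))⁻¹ * B)
      (by
        intro w hw
        exact coef_bound h0 h1 hB _ hw)
    have hpos : 0 < ρ ^ (N * m) := by positivity
    rw [Nat.succ_mul, pow_add ρ, ← mul_assoc]
    calc (‖ε‖ ^ (N+1))⁻¹ * ρ ^ (q * (N * m)) * ρ ^ (N * m) ≤
        ((ρ ^ (N * m))⁻¹ * B) * ρ ^ (N * m) := by gcongr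
      _ = B := by field_simp

/-- the lower bound for one equation -/
theorem single (h0 : 0 < ρ) (h1 : ρ < ρ') {m k N : ℕ} (hk : N * m < k) (hm : 0 < m) {ε : ℂ}
    (q : ℕ) (h : (Fin (q+1) → ℂ) → ℂ) (g : Fin (q+1) → (Fin (q+1) → ℂ) → ℂ)
    (hh : DifferentiableOn ℂ h (ball 0 ρ')) (hg : ∀ j, DifferentiableOn ℂ (g j) (ball 0 ρ'))
    (hz : ∀ w ∈ ball (0 : Fin (q+1) → ℂ) ρ',
      (ε - ∏ j, w j ^ m) * h w + ∑ j, w j ^ k * g j w = 1)
    (B : ℝ) (hB : ∀ w ∈ ball (0 : Fin (q+1) → ℂ) ρ', ‖h w‖ ≤ B) :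
    (‖ε‖ ^ (N+1))⁻¹ * ρ ^ ((q + 1) * (N * m)) ≤ B := by
  have hρ : 0 < ρ' := h0.trans h1
  have hsm : ∀ (a : ℕ) (F : (Fin (q+1) → ℂ) → ℂ) (w : Fin q → ℂ),
      coef ρ a (fun w => ε * F w) w = ε * coef ρ a F w := by
    intro a F w
    rw [coef_eq_J, coef_eq_J, J_smul]
    ring
  have hrel : ∀ w ∈ ball (0 : Fin (q+1) → ℂ) ρ', ε * h w = 1 + (∏ j, w j ^ m) * h w +
      ∑ j, w j ^ k * (- g j w) := by
    intro w hw
    have := hz w hw
    simp only [mul_neg, Finset.sum_neg_distrib]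
    linear_combination this
  have key := system h0 h1 hk hm (ε := ε) q (fun i => coef ρ (i * m) h)
    (fun i j => coef ρ (i * m) (fun w => - g j.succ w))
    (fun i _ => coef_diff h0 h1 hh _)
    (fun i _ j => coef_diff h0 h1 (hg _).fun_neg _)
    (by
      intro w hw
      have := step_zero (A := fun w => ε * h w) (B := h) (g := fun j w => - g j w) (c := 1)
        (m := m) (k := k) h0 h1 (hh.const_mul _) hh (fun j => (hg j).fun_neg)
        hrel (by omega) hm hw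
      rw [hsm] at this
      simpa using this)
    (by
      intro i hi w hw
      have him : i * m + m < k := by
        have : (i + 1) * m ≤ N * m := Nat.mul_le_mul_right _ hi
        have e : (i + 1) * m = i * m + m := by ring
        omega
      have := step_succ (A := fun w => ε * h w) (B := h) (g := fun j w => - g j w) (c := 1)
        (m := m) (k := k) h0 h1 (hh.const_mul _) hh (fun j => (hg j).fun_neg)
        hrel him hm hw
      rw [hsm] at this
      have e : (i + 1) * m = i * m + m := by ring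
      rw [e]
      exact this)
    ((ρ ^ (N * m))⁻¹ * B)
    (by
      intro w hw
      exact coef_bound h0 h1 hB _ hw)
  have hpos : 0 < ρ ^ (N * m) := by positivity
  rw [Nat.succ_mul, pow_add ρ, ← mul_assoc]
  calc (‖ε‖ ^ (N+1))⁻¹ * ρ ^ (q * (N * m)) * ρ ^ (N * m) ≤
      ((ρ ^ (N * m))⁻¹ * B) * ρ ^ (N * m) := by gcongr
    _ = B := by field_simp

end

end Pool.Agent.MPca0fc2.Lower
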