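import Mathlib
import Pool.Agent.Lib.MP_ca0fc2_an.Lower

open Metric Set Complex MeasureTheory
open scoped Real

namespace Pool.Agent.MPca0fc2.Lower

noncomputable section

/-- the affine embedding of the first `q` coordinates -/
def emb {n q : ℕ} (p : Fin n → ℂ) (R : ℝ) (w : Fin q → ℂ) (i : Fin n) : ℂ :=
  p i + R * (if h : (i : ℕ) < q then w ⟨i, h⟩ else 0)

lemma emb_sub {n q : ℕ} (hq : q ≤ n) {p : Fin n → ℂ} {R : ℝ} (hR : 0 < R) (w : Fin q → ℂ)
    (j : Fin q) : (R:ℂ)⁻¹ * (emb p R w (Fin.castLE hq j) - p (Fin.castLE hq j)) = w j := by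
  have hR' : (R:ℂ) ≠ 0 := ofReal_ne_zero.2 hR.ne'
  have : ((Fin.castLE hq j : Fin n) : ℕ) < q := j.2
  simp only [emb, this, dif_pos]
  rw [add_sub_cancel_left, ← mul_assoc, inv_mul_cancel₀ hR', one_mul]
  rfl

lemma emb_diff {n q : ℕ} (p : Fin n → ℂ) (R : ℝ) :
    Differentiable ℂ (fun w : Fin q → ℂ => emb p R w) := by
  rw [differentiable_pi]
  intro i
  unfold emb
  by_cases h : (i : ℕ) < q
  · simp only [h, dif_pos]
    exact ((differentiable_apply _).const_mul _).const_add _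
  · simp only [h, dif_neg, not_false_iff]
    exact differentiable_const _

lemma emb_mem {n q : ℕ} {p : Fin n → ℂ} {R r : ℝ} (hR : 0 < R) (hr : 0 < r) {w : Fin q → ℂ}
    (hw : w ∈ ball (0 : Fin q → ℂ) (r / R)) : emb p R w ∈ ball p r := by
  rw [mem_ball_zero_iff, pi_norm_lt_iff (by positivity)] at hw
  rw [mem_ball, dist_pi_lt_iff hr]
  intro i
  rw [dist_eq_norm]
  unfold emb
  rw [add_sub_cancel_left, norm_mul, norm_real, Real.norm_eq_abs, abs_of_pos hR]
  by_cases h : (i : ℕ) < q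
  · simp only [h, dif_pos]
    have := hw ⟨i, h⟩
    rw [lt_div_iff₀ hR] at this
    linarith
  · simp only [h, dif_neg, not_false_iff, norm_zero, mul_zero]
    exact hr

open MvPolynomial in
theorem lower_aux (n q' r : ℕ) (hq : q' + 1 ≤ n) (D U : Set (Fin n → ℂ))
    (hD : Bornology.IsBounded D) (hU : IsOpen U) (hne : U.Nonempty)
    (s : ℝ) (hs : s < ((q' + 1 : ℕ) + 1 : ℝ) / 2) :
    ∃ c : ℝ, 0 < c ∧ ∃ δ₀ : ℝ, 0 < δ₀ ∧ ∀ δ : ℝ, 0 < δ → δ < δ₀ →
      ∃ f : Fin ((q' + 1 + 1) + r) → MvPolynomial (Fin n) ℂ,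
        (∀ j, ∀ z ∈ D, ‖eval z (f j)‖ ≤ 1) ∧
        (∀ z ∈ D, δ < ∑ j, ‖eval z (f j)‖^2) ∧
        ∀ h : Fin ((q' + 1 + 1) + r) → (Fin n → ℂ) → ℂ, (∀ j, DifferentiableOn ℂ (h j) U) →
          (∀ z ∈ U, ∑ j, eval z (f j) * h j z = 1) →
          ∀ K : ℝ, (∀ j, ∀ z ∈ U, ‖h j z‖ ≤ K) → c * δ ^ (-s) ≤ K := by
  obtain ⟨p, hp⟩ := hne
  obtain ⟨r₁, hr₁, hball⟩ := Metric.isOpen_iff.1 hU p hp
  obtain ⟨R₀, hR₀⟩ := hD.subset_ball p
  set R : ℝ := max R₀ r₁ with hRdef
  have hR : 0 < R := lt_of_lt_of_le hr₁ (le_max_right _ _)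
  have hR' : (R:ℂ) ≠ 0 := ofReal_ne_zero.2 hR.ne'
  have hDR : ∀ z ∈ D, ∀ i, ‖z i - p i‖ ≤ R := by
    intro z hz i
    have h1 := hR₀ hz
    rw [mem_ball, dist_eq_norm] at h1
    have h2 : ‖(z - p) i‖ ≤ ‖z - p‖ := norm_le_pi_norm _ _
    calc ‖z i - p i‖ ≤ ‖z - p‖ := h2
      _ ≤ R₀ := h1.le
      _ ≤ R := le_max_left _ _
  set q := q' + 1 with hqdef
  -- choice of m
  obtain ⟨m, hm0, hm1⟩ : ∃ m : ℕ, 0 < m ∧ 2 * s * (m * q + 1) ≤ m * q * (q + 1) := by
    have hgap : 0 < ((q:ℝ) + 1) - 2 * s := by linarith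
    obtain ⟨m₀, hm₀⟩ := exists_nat_ge (2 * s / (((q:ℝ) + 1) - 2 * s))
    refine ⟨m₀ + 1, Nat.succ_pos _, ?_⟩
    rw [div_le_iff₀ hgap] at hm₀
    have hq1 : (1:ℝ) ≤ q := by rw [hqdef]; push_cast; linarith [Nat.cast_nonneg (α := ℝ) q']
    have h1 : (m₀:ℝ) * (((q:ℝ) + 1) - 2 * s) ≤
        ((m₀ + 1 : ℕ) : ℝ) * q * (((q:ℝ) + 1) - 2 * s) := by
      apply mul_le_mul_of_nonneg_right _ hgap.le
      push_cast
      nlinarith [Nat.cast_nonneg (α := ℝ) m₀]
    nlinarith
  set k : ℕ := q * m + 1 with hk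
  have hk0 : 2 * k ≠ 0 := by omega
  set ρ' : ℝ := r₁ / R with hρ'
  have hρ'0 : 0 < ρ' := by positivity
  set ρ : ℝ := ρ' / 2 with hρ
  have hρ0 : 0 < ρ := by positivity
  have hρ1 : ρ < ρ' := by rw [hρ]; linarith
  refine ⟨(2 ^ (q+1))⁻¹ * ρ ^ (q * (q * m)), by positivity, (1/2) ^ (2*k), by positivity, ?_⟩
  intro δ hδ hδ₀
  set x : ℝ := δ ^ (((2 * k : ℕ) : ℝ)⁻¹) with hx
  have hx0 : 0 < x := Real.rpow_pos_of_pos hδ _
  have hxk : x ^ (2 * k) = δ := Real.rpow_inv_natCast_pow hδ.le hk0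
  have hx1 : x < 1 / 2 := by
    by_contra hcon
    push Not at hcon
    have : (1/2 : ℝ) ^ (2*k) ≤ x ^ (2*k) := by gcongr
    rw [hxk] at this
    linarith
  set ε : ℝ := 2 * x ^ (q * m) with hε
  have hε0 : 0 < ε := by positivity
  have hxqm : x ^ (q * m) ≤ 1 / 2 := by
    have hqm : q * m ≠ 0 := by
      have : 0 < q * m := Nat.mul_pos (by omega) hm0
      omega
    calc x ^ (q * m) ≤ x := pow_le_of_le_one hx0.le (by linarith) hqm
      _ ≤ 1 / 2 := hx1.le
  -- the data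
  set P : Fin q → MvPolynomial (Fin n) ℂ := fun j =>
    C ((R:ℂ)⁻¹) * (X (Fin.castLE hq j) - C (p (Fin.castLE hq j))) with hP
  set L : MvPolynomial (Fin n) ℂ := C (1/2) * (C (ε:ℂ) - ∏ j, P j ^ m) with hL
  set f : Fin ((q + 1) + r) → MvPolynomial (Fin n) ℂ :=
    Fin.append (Fin.snoc (α := fun _ => MvPolynomial (Fin n) ℂ) (fun j => P j ^ k) L)
      (fun _ => 0) with hf
  have evP : ∀ z j, eval z (P j) = (R:ℂ)⁻¹ * (z (Fin.castLE hq j) - p (Fin.castLE hq j)) := by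
    intro z j
    simp [hP]
  have evL : ∀ z, eval z L = (1/2) * (ε - ∏ j, eval z (P j) ^ m) := by
    intro z
    simp [hL]
  have nP : ∀ z ∈ D, ∀ j, ‖eval z (P j)‖ ≤ 1 := by
    intro z hz j
    rw [evP, norm_mul, norm_inv, norm_real, Real.norm_eq_abs, abs_of_pos hR]
    rw [inv_mul_le_iff₀ hR, mul_one]
    exact hDR z hz _
  have f1 : ∀ j : Fin q, f (Fin.castAdd r j.castSucc) = P j ^ k := by
    intro j
    rw [hf, Fin.append_left, Fin.snoc_castSucc]
  have f2 : f (Fin.castAdd r (Fin.last q)) = L := by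
    rw [hf, Fin.append_left, Fin.snoc_last]
  have f3 : ∀ j : Fin r, f (Fin.natAdd (q+1) j) = 0 := by
    intro j
    rw [hf, Fin.append_right]
  have hsum : ∀ (T : Fin ((q+1)+r) → MvPolynomial (Fin n) ℂ → ℂ) (_ : ∀ i, T i 0 = 0),
      ∑ j, T j (f j) = ∑ j : Fin q, T (Fin.castAdd r j.castSucc) (P j ^ k) +
        T (Fin.castAdd r (Fin.last q)) L := by
    intro T hT
    rw [Fin.sum_univ_add, Fin.sum_univ_castSucc]
    simp only [f1, f2, f3, hT, Finset.sum_const_zero, add_zero]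
  have hsumR : ∀ z, ∑ j, ‖eval z (f j)‖^2 = ∑ j : Fin q, ‖eval z (P j)‖^(2*k) +
      ‖eval z L‖^2 := by
    intro z
    rw [Fin.sum_univ_add, Fin.sum_univ_castSucc]
    simp only [f1, f2, f3, map_zero, norm_zero, ne_eq, OfNat.ofNat_ne_zero, not_false_eq_true,
      zero_pow, Finset.sum_const_zero, add_zero, map_pow, norm_pow]
    congr 1
    refine Finset.sum_congr rfl fun j _ => ?_
    ring
  refine ⟨f, ?_, ?_, ?_⟩
  · -- bound by one
    intro j z hz
    refine Fin.addCases (fun i => ?_) (fun i => ?_) j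
    · refine Fin.lastCases ?_ (fun i => ?_) i
      · rw [f2, evL, norm_mul]
        have h1 : ‖∏ j, eval z (P j) ^ m‖ ≤ 1 := by
          rw [norm_prod]
          refine Finset.prod_le_one (fun _ _ => norm_nonneg _) fun j _ => ?_
          rw [norm_pow]
          exact pow_le_one₀ (norm_nonneg _) (nP z hz j)
        have h2 : ‖(ε:ℂ) - ∏ j, eval z (P j) ^ m‖ ≤ ε + 1 := by
          refine (norm_sub_le _ _).trans ?_
          rw [norm_real, Real.norm_eq_abs, abs_of_pos hε0]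
          linarith
        have h3 : ‖(1/2 : ℂ)‖ = 1/2 := by simp
        rw [h3]
        have : ε ≤ 1 := by rw [hε]; linarith
        linarith
      · rw [f1, map_pow, norm_pow]
        exact pow_le_one₀ (norm_nonneg _) (nP z hz i)
    · rw [f3]
      simp
  · -- lower bound
    intro z hz
    rw [hsumR]
    by_contra hcon
    push Not at hcon
    have h1 : ∀ j : Fin q, ‖eval z (P j)‖ ≤ x := by
      intro j
      have h2 : ‖eval z (P j)‖^(2*k) ≤ x ^ (2*k) := by
        rw [hxk]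
        refine le_trans ?_ hcon
        have h3 : ‖eval z (P j)‖^(2*k) ≤ ∑ j : Fin q, ‖eval z (P j)‖^(2*k) :=
          Finset.single_le_sum (f := fun j => ‖eval z (P j)‖^(2*k))
            (fun _ _ => by positivity) (Finset.mem_univ j)
        have : 0 ≤ ‖eval z L‖^2 := by positivity
        linarith
      exact le_of_pow_le_pow_left₀ hk0 hx0.le h2
    have h2 : ‖∏ j, eval z (P j) ^ m‖ ≤ x ^ (q * m) := by
      rw [norm_prod]
      calc ∏ j, ‖eval z (P j) ^ m‖ ≤ ∏ _j : Fin q, x ^ m := by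
            refine Finset.prod_le_prod (fun _ _ => norm_nonneg _) fun j _ => ?_
            rw [norm_pow]
            have := h1 j
            gcongr
        _ = x ^ (q * m) := by
            rw [Finset.prod_const, Finset.card_univ, Fintype.card_fin, ← pow_mul, mul_comm]
    have h3 : x ^ (q * m) / 2 ≤ ‖eval z L‖ := by
      rw [evL, norm_mul]
      have h4 : ε - x ^ (q * m) ≤ ‖(ε:ℂ) - ∏ j, eval z (P j) ^ m‖ := by
        have := norm_sub_norm_le (ε:ℂ) (∏ j, eval z (P j) ^ m)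
        rw [norm_real, Real.norm_eq_abs, abs_of_pos hε0] at this
        linarith
      have h3 : ‖(1/2 : ℂ)‖ = 1/2 := by simp
      rw [h3]
      have : ε - x ^ (q * m) = x ^ (q * m) := by rw [hε]; ring
      linarith
    have h4 : x ^ k < x ^ (q * m) / 2 := by
      rw [hk, pow_succ]
      have : 0 < x ^ (q * m) := by positivity
      nlinarith
    have h5 : x ^ (2 * k) < ‖eval z L‖^2 := by
      have : x ^ (2 * k) = (x ^ k)^2 := by ring
      rw [this]
      have h6 : x ^ k < ‖eval z L‖ := lt_of_lt_of_le h4 h3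
      gcongr
    rw [hxk] at h5
    have : 0 ≤ ∑ j : Fin q, ‖eval z (P j)‖^(2*k) := Finset.sum_nonneg fun _ _ => by positivity
    linarith
  · -- solutions are large
    intro h hh hsol K hK
    have hmaps : ∀ w ∈ ball (0 : Fin q → ℂ) ρ', emb p R w ∈ U := fun w hw =>
      hball (emb_mem hR hr₁ hw)
    have hcomp : ∀ j, DifferentiableOn ℂ (fun w : Fin q → ℂ => h j (emb p R w))
        (ball (0 : Fin q → ℂ) ρ') := fun j => (hh j).comp (emb_diff p R).differentiableOn hmaps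
    have key := single (N := q) hρ0 hρ1 (m := m) (k := k) (by omega) hm0 (ε := (ε:ℂ)) q'
      (fun w => (1/2) * h (Fin.castAdd r (Fin.last q)) (emb p R w))
      (fun j w => h (Fin.castAdd r j.castSucc) (emb p R w))
      ((hcomp _).const_mul _) (fun j => hcomp _)
      (by
        intro w hw
        have h1 := hsol _ (hmaps w hw)
        have h2 := hsum (fun j Q => eval (emb p R w) Q * h j (emb p R w)) (by simp)
        rw [h2, evL] at h1
        have h3 : ∀ j : Fin q, eval (emb p R w) (P j) = w j := by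
          intro j
          rw [evP]
          exact emb_sub hq hR w j
        simp only [map_pow, h3] at h1
        linear_combination h1)
      (K / 2)
      (by
        intro w hw
        rw [norm_mul]
        have h3 : ‖(1/2 : ℂ)‖ = 1/2 := by simp
        rw [h3]
        have := hK (Fin.castAdd r (Fin.last q)) _ (hmaps w hw)
        linarith)
    rw [norm_real, Real.norm_eq_abs, abs_of_pos hε0] at key
    have e1 : (ε ^ (q+1))⁻¹ = (2 ^ (q+1))⁻¹ * (x ^ (q * m * (q+1)))⁻¹ := by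
      rw [hε, mul_pow, mul_inv, ← pow_mul]
    have e2 : δ ^ (-s) ≤ (x ^ (q * m * (q+1)))⁻¹ := by
      rw [← hxk, ← Real.rpow_natCast x (2*k), ← Real.rpow_mul hx0.le, ← Real.rpow_natCast x,
        ← Real.rpow_neg hx0.le]
      apply Real.rpow_le_rpow_of_exponent_ge hx0 (by linarith)
      push_cast
      rw [hk]
      push_cast
      nlinarith [hm1]
    have hKpos : 0 ≤ K / 2 := le_trans (by positivity) key
    calc (2 ^ (q+1))⁻¹ * ρ ^ (q * (q * m)) * δ ^ (-s)
        ≤ (2 ^ (q+1))⁻¹ * ρ ^ (q * (q * m)) * (x ^ (q * m * (q+1)))⁻¹ := by gcongr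
      _ = (ε ^ (q+1))⁻¹ * ρ ^ (q * (q * m)) := by rw [e1]; ring
      _ ≤ K / 2 := key
      _ ≤ K := by linarith

end

end Pool.Agent.MPca0fc2.Lower
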