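import Mathlib
import Pool.Agent.Lib.MP_ca0fc2_an.LowerMain

/-! Corona constants: the Koszul lower bound on bounded domains of `ℂⁿ`. -/

set_option autoImplicit false

open Metric Set MvPolynomial

namespace Pool.Agent.MPca0fc2.Koszul

/-- For every bounded `D` and every non-empty open `U` in `ℂⁿ`, every `N ≥ 2` and every
`s < min n (N - 1) + 1` there is `c > 0` such that for `0 < δ ≤ c` there are polynomials
`p_1, …, p_N` with `δ² ≤ ∑ |p_j|² ≤ 1` on the closure of `D`, all of whose holomorphic solutions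
on `U` have size at least `c δ^(-s)`. -/
theorem koszul_low {n N : ℕ} (hn : 1 ≤ n) (hN : 2 ≤ N) {s : ℝ}
    (hs : s < ((min n (N - 1) : ℕ) : ℝ) + 1) (D U : Set (EuclideanSpace ℂ (Fin n)))
    (hD : Bornology.IsBounded D) (hU : IsOpen U) (hne : U.Nonempty) :
    ∃ c : ℝ, 0 < c ∧ ∀ δ : ℝ, 0 < δ → δ ≤ c →
      ∃ p : Fin N → MvPolynomial (Fin n) ℂ,
        (∀ z ∈ closure D, δ ^ 2 ≤ ∑ j, ‖eval (fun i => z i) (p j)‖ ^ 2 ∧
          ∑ j, ‖eval (fun i => z i) (p j)‖ ^ 2 ≤ 1) ∧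
        ∀ h : Fin N → EuclideanSpace ℂ (Fin n) → ℂ, (∀ j, DifferentiableOn ℂ (h j) U) →
          (∀ z ∈ U, ∑ j, eval (fun i => z i) (p j) * h j z = 1) →
          ∀ A : ℝ, 0 ≤ A → (∀ z ∈ U, ∑ j, ‖h j z‖ ^ 2 ≤ A ^ 2) → c * δ ^ (-s) ≤ A := by
  obtain ⟨q', hq'⟩ : ∃ q', min n (N - 1) = q' + 1 := ⟨min n (N - 1) - 1, by omega⟩
  have hqn : q' + 1 ≤ n := by omega
  obtain ⟨r, rfl⟩ : ∃ r, N = (q' + 1 + 1) + r := ⟨N - (q' + 1 + 1), by omega⟩
  rw [hq'] at hs
  set N : ℕ := (q' + 1 + 1) + r with hNdef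
  have hN0 : (0 : ℝ) < N := by rw [hNdef]; positivity
  set D' : Set (Fin n → ℂ) := (WithLp.ofLp (p := 2)) '' (closure D) with hD'
  set U' : Set (Fin n → ℂ) := (WithLp.toLp (V := Fin n → ℂ) 2) ⁻¹' U with hU'
  have hD'b : Bornology.IsBounded D' := by
    have h1 : IsCompact (closure D) := hD.isCompact_closure
    exact (h1.image (PiLp.continuous_ofLp 2 _)).isBounded
  have hU'o : IsOpen U' := hU.preimage (PiLp.continuous_toLp 2 _)
  have hU'n : U'.Nonempty := by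
    obtain ⟨x, hx⟩ := hne
    exact ⟨WithLp.ofLp x, hx⟩
  have hs2 : s / 2 < (((q' + 1 : ℕ) : ℝ) + 1) / 2 := by linarith
  obtain ⟨c, hc, δ₀, hδ₀, H⟩ := Lower.lower_aux n q' r hqn D' U' hD'b hU'o hU'n (s / 2) hs2
  have hc1 : 0 < c * (N : ℝ) ^ (-(s / 2)) := by positivity
  have hc2 : 0 < Real.sqrt (δ₀ / (2 * N)) := by positivity
  refine ⟨min (c * (N : ℝ) ^ (-(s / 2))) (Real.sqrt (δ₀ / (2 * N))), lt_min hc1 hc2, ?_⟩
  intro δ hδ hδc
  have hδ2 : δ ^ 2 ≤ δ₀ / (2 * N) := by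
    have h1 := hδc.trans (min_le_right _ _)
    have h2 := pow_le_pow_left₀ hδ.le h1 2
    rwa [Real.sq_sqrt (by positivity)] at h2
  have hδ3 : (N : ℝ) * δ ^ 2 < δ₀ := by
    rw [le_div_iff₀ (by positivity)] at hδ2
    nlinarith
  obtain ⟨f, hf1, hf2, hf3⟩ := H (N * δ ^ 2) (by positivity) hδ3
  have hsN : (0 : ℝ) < Real.sqrt N := Real.sqrt_pos.2 hN0
  have hsN2 : Real.sqrt N ^ 2 = N := Real.sq_sqrt hN0.le
  have hnorm : ‖(((Real.sqrt N)⁻¹ : ℝ) : ℂ)‖ = (Real.sqrt N)⁻¹ := by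
    rw [Complex.norm_real, Real.norm_eq_abs, abs_of_pos (by positivity)]
  have hev : ∀ (z : EuclideanSpace ℂ (Fin n)) (j : Fin N),
      ‖eval (fun i => z i) (C (((Real.sqrt N)⁻¹ : ℝ) : ℂ) * f j)‖ ^ 2 =
        ‖eval (WithLp.ofLp z) (f j)‖ ^ 2 / N := by
    intro z j
    rw [map_mul, eval_C, norm_mul, hnorm, mul_pow, inv_pow, hsN2]
    have : (fun i => z i) = WithLp.ofLp z := rfl
    rw [this]
    ring
  refine ⟨fun j => C (((Real.sqrt N)⁻¹ : ℝ) : ℂ) * f j, ?_, ?_⟩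
  · intro z hz
    have hzD : WithLp.ofLp z ∈ D' := ⟨z, hz, rfl⟩
    simp only [hev]
    rw [← Finset.sum_div]
    constructor
    · rw [le_div_iff₀ hN0]
      have := hf2 _ hzD
      linarith
    · rw [div_le_one hN0]
      calc ∑ j, ‖eval (WithLp.ofLp z) (f j)‖ ^ 2 ≤ ∑ _j : Fin N, (1 : ℝ) := by
            refine Finset.sum_le_sum fun j _ => ?_
            have h1 := hf1 j _ hzD
            nlinarith [norm_nonneg (eval (WithLp.ofLp z) (f j))]
        _ = N := by simp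
  · intro h hh hsol A hA hbd
    have key := hf3 (fun j x => (((Real.sqrt N)⁻¹ : ℝ) : ℂ) * h j (WithLp.toLp 2 x)) ?_ ?_
      ((Real.sqrt N)⁻¹ * A) ?_
    · have h1 : ((N : ℝ) * δ ^ 2) ^ (-(s / 2)) = (N : ℝ) ^ (-(s / 2)) * δ ^ (-s) := by
        rw [Real.mul_rpow hN0.le (by positivity)]
        congr 1
        rw [← Real.rpow_natCast δ 2, ← Real.rpow_mul hδ.le]
        congr 1
        push_cast
        ring
      rw [h1] at key
      have h2 : (Real.sqrt N)⁻¹ * A ≤ A := by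
        have h3 : (Real.sqrt N)⁻¹ ≤ 1 := by
          apply inv_le_one_of_one_le₀
          rw [Real.one_le_sqrt]
          exact_mod_cast (by omega : 1 ≤ N)
        nlinarith
      calc min (c * (N : ℝ) ^ (-(s / 2))) (Real.sqrt (δ₀ / (2 * N))) * δ ^ (-s)
          ≤ (c * (N : ℝ) ^ (-(s / 2))) * δ ^ (-s) :=
            mul_le_mul_of_nonneg_right (min_le_left _ _) (Real.rpow_pos_of_pos hδ _).le
        _ = c * ((N : ℝ) ^ (-(s / 2)) * δ ^ (-s)) := by ring
        _ ≤ _ := key.trans h2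
    · intro j
      have h1 : DifferentiableOn ℂ (fun x : Fin n → ℂ => h j (WithLp.toLp 2 x)) U' := by
        have h2 : Differentiable ℂ (fun x : Fin n → ℂ => (WithLp.toLp 2 x : EuclideanSpace ℂ (Fin n))) :=
          (EuclideanSpace.equiv (Fin n) ℂ).symm.differentiable
        exact (hh j).comp h2.differentiableOn fun x hx => hx
      exact h1.const_mul _
    · intro x hx
      have h1 := hsol (WithLp.toLp 2 x) hx
      rw [← h1]
      refine Finset.sum_congr rfl fun j _ => ?_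
      rw [map_mul, eval_C]
      have : (fun i => (WithLp.toLp 2 x : EuclideanSpace ℂ (Fin n)) i) = x := rfl
      rw [this]
      ring
    · intro j x hx
      have h1 := hbd (WithLp.toLp 2 x) hx
      have h2 : ‖h j (WithLp.toLp 2 x)‖ ^ 2 ≤ A ^ 2 :=
        (Finset.single_le_sum (f := fun j => ‖h j (WithLp.toLp 2 x)‖ ^ 2)
          (fun _ _ => by positivity) (Finset.mem_univ j)).trans h1
      have h3 : ‖h j (WithLp.toLp 2 x)‖ ≤ A := by
        have := abs_le_of_sq_le_sq' h2 hA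
        exact this.2
      rw [norm_mul, hnorm]
      exact mul_le_mul_of_nonneg_left h3 (by positivity)

end Pool.Agent.MPca0fc2.Koszul
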