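import Mathlib
import Pool.Agent.Lib.MP_ca0fc2_an.LTMain
import Pool.Agent.Lib.MP_ca0fc2_an.SGCell

/-! Localization with respect to finitely many functions of the closed algebra generated by
`Gens4 n`. -/

set_option autoImplicit false

open Metric Set Filter Topology MeasureTheory

namespace Pool.Agent.MPca0fc2.LT

open Pool.Agent.Lib.MP_ca0fc2_an
open Pool.Agent.MPca0fc2.PT
open Pool.Agent.MPca0fc2.DA
open Pool.Agent.MPca0fc2.SG (LocAlg rate_max rate_id adjoin_rep' closedAlg_bdd)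

variable {n : ℕ}

/-- The generators, with larger parameters. -/
theorem Gen4_unif (hn : 1 ≤ n) {p q K : ℝ} (hp : 1 ≤ p) (hpq : p ≤ q) :
    ∃ B : ℝ, ∀ B' ≥ B, ∀ (ω ω' : ℝ → ℝ), (∀ t, ω t ≤ ω' t) →
      ∀ u : EuclideanSpace ℂ (Fin n) → ℂ, Gen4 K p ω u → Gen4 B' q ω' u := by
  obtain ⟨B, hB⟩ := UG.Gen_unif hn (K := K) hp hpq
  refine ⟨max B |K|, fun B' hB' ω ω' hω u hu => ?_⟩
  have h1 : B ≤ B' := (le_max_left _ _).trans hB'
  have h2 : |K| ≤ B' := (le_max_right _ _).trans hB'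
  have h3 : K ≤ B' := (le_abs_self K).trans h2
  rcases hu with h | ⟨ha, hb⟩
  · exact Or.inl (hB B' h1 ω ω' hω u h)
  · exact Or.inr ⟨fun z hz => (ha z hz).trans h3, lineTame_mono h3 hb⟩

theorem gens4_bounded {u : EuclideanSpace ℂ (Fin n) → ℂ} (hu : u ∈ Gens4 n) :
    ∃ A : ℝ, 0 ≤ A ∧ ∀ z ∈ ball (0 : EuclideanSpace ℂ (Fin n)) 1, ‖u z‖ ≤ A := by
  obtain ⟨K, p, ω, hp, hω, h⟩ := hu
  rcases h with h | ⟨h, -⟩
  · exact SG.gens3_bounded ⟨K, p, ω, hp, hω, h⟩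
  · exact ⟨K, (norm_nonneg _).trans (h 0 (mem_ball_self one_pos)), h⟩

theorem gens4_hol {u : EuclideanSpace ℂ (Fin n) → ℂ} {K p : ℝ} {ω : ℝ → ℝ} (hu : Gen4 K p ω u) :
    DifferentiableOn ℂ u (ball 0 1) := by
  rcases hu with (h | h | h) | ⟨-, h⟩
  · exact h.1
  · exact h.1
  · exact h.1
  · exact lineTame_diff h

/-- Common parameters for a finite family. -/
theorem gens4_common (hn : 1 ≤ n) {ι : Type} [Fintype ι] (u : ι → EuclideanSpace ℂ (Fin n) → ℂ)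
    (hu : ∀ i, u i ∈ Gens4 n) : ∃ (K p : ℝ) (ω : ℝ → ℝ), 1 ≤ p ∧ Rate ω ∧
      ∀ i, Gen4 K p ω (u i) := by
  classical
  choose K₀ p₀ ω₀ hp₀ hω₀ h using hu
  obtain ⟨p, hp1, hpp⟩ : ∃ p : ℝ, 1 ≤ p ∧ ∀ u, p₀ u ≤ p := by
    obtain ⟨p, hp⟩ := (Finset.univ.image p₀).exists_le
    exact ⟨max 1 p, le_max_left _ _, fun u => (hp _ (Finset.mem_image_of_mem _
      (Finset.mem_univ u))).trans (le_max_right _ _)⟩
  choose B hB using fun i => Gen4_unif hn (K := K₀ i) (hp₀ i) (hpp i)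
  obtain ⟨K, hK⟩ : ∃ K : ℝ, ∀ u, B u ≤ K := by
    obtain ⟨K, hK⟩ := (Finset.univ.image B).exists_le
    exact ⟨K, fun u => hK _ (Finset.mem_image_of_mem _ (Finset.mem_univ u))⟩
  have hω : ∀ s : Finset ι, ∃ ω : ℝ → ℝ, Rate ω ∧ ∀ i ∈ s, ∀ t, ω₀ i t ≤ ω t := by
    intro s
    induction s using Finset.induction_on with
    | empty => exact ⟨_, rate_id, fun i hi => absurd hi (Finset.notMem_empty i)⟩
    | insert a s _ ih =>
      obtain ⟨ω, h1, h2⟩ := ih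
      refine ⟨fun t => max (ω₀ a t) (ω t), rate_max (hω₀ a) h1, fun i hi t => ?_⟩
      rcases Finset.mem_insert.mp hi with rfl | hi
      · exact le_max_left _ _
      · exact (h2 i hi t).trans (le_max_right _ _)
  obtain ⟨ω, h1, h2⟩ := hω Finset.univ
  exact ⟨K, p, ω, hp1, h1, fun i => hB i K (hK i) (ω₀ i) ω (h2 i (Finset.mem_univ i)) _ (h i)⟩

open Classical in
/-- The cells of finitely many functions of the algebra contain the cells of finitely many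
generators. -/
theorem gens4_cells (hn : 1 ≤ n) {k : ℕ} (a : Fin k → EuclideanSpace ℂ (Fin n) → ℂ)
    (ha : ∀ i, a i ∈ ClosedAlg (Gens4 n)) {ε : ℝ} (hε : 0 < ε) :
    ∃ (d : ℕ) (v : Fin d → EuclideanSpace ℂ (Fin n) → ℂ) (K p ρ : ℝ) (ω : ℝ → ℝ), 1 ≤ p ∧
      Rate ω ∧ 0 < ρ ∧ (∀ i, Gen4 K p ω (v i)) ∧
      ∀ z ∈ ball (0 : EuclideanSpace ℂ (Fin n)) 1, ∀ b ∈ ball (0 : EuclideanSpace ℂ (Fin n)) 1,
        (∀ i, ‖v i z - v i b‖ < 2 * ρ) → ∀ j, ‖a j z - a j b‖ < ε := by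
  have h1 : ∀ j, ∃ q ∈ Algebra.adjoin ℂ (Gens4 n),
      ∀ z ∈ ball (0 : EuclideanSpace ℂ (Fin n)) 1, ‖a j z - q z‖ ≤ ε / 4 :=
    fun j => (ha j).2 (ε / 4) (by positivity)
  choose q hq hqa using h1
  have hs : ∀ j, ∃ s : Finset (EuclideanSpace ℂ (Fin n) → ℂ), (∀ u ∈ s, u ∈ Gens4 n) ∧
      Rep s (q j) := fun j => adjoin_rep' (fun u hu => gens4_bounded hu) (hq j)
  choose s hs hrep using hs
  obtain ⟨t, ht⟩ : ∃ t : Finset (EuclideanSpace ℂ (Fin n) → ℂ),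
      t = Finset.univ.biUnion fun j => s j := ⟨_, rfl⟩
  have hst : ∀ j, s j ⊆ t := by
    intro j u hu
    rw [ht, Finset.mem_biUnion]
    exact ⟨j, Finset.mem_univ j, hu⟩
  have htG : ∀ u ∈ t, u ∈ Gens4 n := by
    intro u hu
    rw [ht, Finset.mem_biUnion] at hu
    obtain ⟨j, -, hu⟩ := hu
    exact hs j u hu
  have hrept : ∀ j, Rep t (q j) := fun j => (hrep j).mono (hst j)
  choose ψ L hL0 hL1 hL2 hL3 using hrept
  obtain ⟨K, p, ω, hp, hω, hG⟩ := gens4_common hn (fun u : t => u.1) fun u => htG u.1 u.2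
  obtain ⟨L', hL'0, hLL⟩ : ∃ L' : ℝ, 0 < L' ∧ ∀ j, L j ≤ L' := by
    obtain ⟨L', h⟩ := (Finset.univ.image L).exists_le
    exact ⟨max 1 L', lt_of_lt_of_le one_pos (le_max_left _ _), fun u => (h _
      (Finset.mem_image_of_mem _ (Finset.mem_univ u))).trans (le_max_right _ _)⟩
  obtain ⟨ρ, hρ⟩ : ∃ ρ : ℝ, ρ = ε / (8 * L') := ⟨_, rfl⟩
  have hρ0 : 0 < ρ := by rw [hρ]; positivity
  obtain ⟨e⟩ : Nonempty (t ≃ Fin t.card) := ⟨t.equivFin⟩
  refine ⟨t.card, fun i => (e.symm i).1, K, p, ρ, ω, hp, hω, hρ0, fun i => hG _, ?_⟩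
  intro z hz b hb' h j
  have hu : ∀ u : t, ‖u.1 z - u.1 b‖ ≤ 2 * ρ := by
    intro u
    have h2 : ‖(e.symm (e u)).1 z - (e.symm (e u)).1 b‖ < 2 * ρ := h (e u)
    rw [Equiv.symm_apply_apply] at h2
    exact h2.le
  have h2 : ‖q j z - q j b‖ ≤ ε / 4 := by
    rw [hL3 j z hz, hL3 j b hb']
    refine (hL1 j _ _).trans ?_
    calc L j * ‖(fun t_1 : t => t_1.1 z) - fun t_1 : t => t_1.1 b‖ ≤ L' * (2 * ρ) := by
          apply mul_le_mul (hLL j) _ (norm_nonneg _) hL'0.le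
          rw [pi_norm_le_iff_of_nonneg (by positivity)]
          exact hu
      _ = ε / 4 := by
          rw [hρ]
          field_simp
          ring
  have h3 := hqa j z hz
  have h4 := hqa j b hb'
  calc ‖a j z - a j b‖ = ‖(a j z - q j z) + (q j z - q j b) - (a j b - q j b)‖ := by
        congr 1; ring
    _ ≤ ‖a j z - q j z‖ + ‖q j z - q j b‖ + ‖a j b - q j b‖ :=
        (norm_sub_le _ _).trans (add_le_add (norm_add_le _ _) le_rfl)
    _ < ε := by linarith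

/-- The corona problem can be localized to the cells of finitely many functions of the algebra. -/
theorem locAlg4 (hn : 2 ≤ n) : LocAlg (ClosedAlg (Gens4 n)) := by
  refine ⟨fun a ha => closedAlg_bdd (fun u hu => gens4_bounded hu) ha, ?_⟩
  intro N k f a C ε hf hb ha hε h
  obtain ⟨d, v, K, p, ρ, ω, hp, hω, hρ, hG, h4⟩ := gens4_cells (by omega) a ha hε
  choose M hM using hb
  obtain ⟨C', hC'⟩ := T_gen4 hn N d (M := ∑ j, |M j|) (C₁ := C) (K := K) ω hρ hp hω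
  refine ⟨C', hC' f v hf (fun j z hz => ?_) hG fun c => ?_⟩
  · refine (hM j z hz).trans ((le_abs_self _).trans ?_)
    exact Finset.single_le_sum (f := fun j => |M j|) (fun j _ => abs_nonneg _) (Finset.mem_univ j)
  · rcases Set.eq_empty_or_nonempty {z | z ∈ ball (0 : EuclideanSpace ℂ (Fin n)) 1 ∧
      ∀ i, ‖v i z - c i‖ < ρ} with h0 | ⟨b, hb, hbc⟩
    · rw [h0]
      exact solv_empty
    · refine solv_sub (h b hb) ?_ le_rfl
      rintro z ⟨hz, hzc⟩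
      refine ⟨hz, h4 z hz b hb fun i => ?_⟩
      calc ‖v i z - v i b‖ = ‖(v i z - c i) - (v i b - c i)‖ := by congr 1; ring
        _ ≤ ‖v i z - c i‖ + ‖v i b - c i‖ := norm_sub_le _ _
        _ < 2 * ρ := by linarith [hzc i, hbc i]

end Pool.Agent.MPca0fc2.LT
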