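import Mathlib
import Pool.Agent.Lib.MP_ca0fc2_an.LTLoc
import Pool.Agent.Lib.MP_ca0fc2_an.UGMain

/-! Localization near the boundary points and over the values of the generators, with bounds. -/

set_option autoImplicit false

open Metric Set MeasureTheory Filter Topology
open scoped InnerProductSpace

namespace Pool.Agent.MPca0fc2.LT

open Pool.Agent.Lib.MP_ca0fc2_an
open Pool.Agent.MPca0fc2.UG

variable {n : ℕ}

/-- Localization near the boundary points and over the values of finitely many generators, with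
bounds. -/
theorem gen_loc4 (hn : 2 ≤ n) (N : ℕ) (M δ : ℝ) (hδ : 0 < δ)
    (k : EuclideanSpace ℂ (Fin n) → ℕ) (ρ K p C : EuclideanSpace ℂ (Fin n) → ℝ)
    (ω : EuclideanSpace ℂ (Fin n) → ℝ → ℝ) (hρ : ∀ l, 0 < ρ l) (hp : ∀ l, 1 ≤ p l)
    (hω0 : ∀ l, ∀ t ∈ Ioo (0 : ℝ) 1, 0 < ω l t)
    (hω : ∀ l, ∀ c > 0, IntegrableOn (fun t => Real.exp (-(c / ω l t)) / t) (Ioo 0 1)) :
    ∃ C' : ℝ, ∀ f : Fin N → EuclideanSpace ℂ (Fin n) → ℂ,
      (∀ j, DifferentiableOn ℂ (f j) (ball 0 1)) →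
      (∀ j, ∀ z ∈ ball (0 : EuclideanSpace ℂ (Fin n)) 1, ‖f j z‖ ≤ M) →
      (∀ z ∈ ball (0 : EuclideanSpace ℂ (Fin n)) 1, δ ≤ ∑ j, ‖f j z‖ ^ 2) →
      (∀ l ∈ sphere (0 : EuclideanSpace ℂ (Fin n)) 1,
        ∃ u : Fin (k l) → EuclideanSpace ℂ (Fin n) → ℂ, (∀ i, Gen4 (K l) (p l) (ω l) (u i)) ∧
        ∀ c : Fin (k l) → ℂ, SolvableOn f
          {z | z ∈ ball (0 : EuclideanSpace ℂ (Fin n)) 1 ∩ ball l (ρ l) ∧
            ∀ i, ‖u i z - c i‖ < ρ l} (C l)) →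
      SolvableOn f (ball 0 1) C' := by
  classical
  obtain ⟨T, r, hr, hr1, hT, hcov⟩ := cover ρ hρ
  obtain ⟨s, C₀, hs, hin⟩ := inner_cell (n := n) (N := N) (M := max M 1) (le_max_right _ _) hδ hr
  obtain ⟨ω', hω'0, hω', hωω⟩ := rate_finset T ω hω0 hω
  obtain ⟨q₀, hq₀⟩ := finset_bd T p
  obtain ⟨q, hq⟩ : ∃ q, q = max q₀ 1 := ⟨_, rfl⟩
  have hq1 : 1 ≤ q := by rw [hq]; exact le_max_right _ _
  have hpq : ∀ l ∈ T, p l ≤ q := fun l hl => (hq₀ l hl).trans (by rw [hq]; exact le_max_left _ _)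
  have hB : ∀ l, ∃ B : ℝ, l ∈ T → ∀ B' ≥ B, ∀ u : EuclideanSpace ℂ (Fin n) → ℂ,
      Gen4 (K l) (p l) (ω l) u → Gen4 B' q ω' u := by
    intro l
    by_cases hl : l ∈ T
    · obtain ⟨B, hB⟩ := Gen4_unif (n := n) (by omega) (K := K l) (hp l) (hpq l hl)
      exact ⟨B, fun _ B' hB' u hu => hB B' hB' (ω l) ω' (hωω l hl) u hu⟩
    · exact ⟨0, fun h => absurd h hl⟩
  choose B hB using hB
  obtain ⟨B₀, hB₀⟩ := finset_bd T B
  obtain ⟨K', hK'⟩ : ∃ K', K' = max B₀ 1 := ⟨_, rfl⟩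
  have hK'1 : 1 ≤ K' := by rw [hK']; exact le_max_right _ _
  have hBK : ∀ l ∈ T, B l ≤ K' := fun l hl => (hB₀ l hl).trans (by rw [hK']; exact le_max_left _ _)
  obtain ⟨C₁, hC₁⟩ := finset_bd T C
  obtain ⟨ρ₁, hρ₁, hρT⟩ := finset_lb T ρ hρ
  have hn0 : (0 : ℝ) < n := by
    have : 0 < n := by omega
    exact_mod_cast this
  obtain ⟨ρ₀, hρ₀⟩ : ∃ ρ₀ : ℝ, ρ₀ = min ρ₁ (min (ρ₁ / 2) s / (2 * n)) := ⟨_, rfl⟩
  have hρ₀0 : 0 < ρ₀ := by rw [hρ₀]; positivity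
  have hρ₀1 : ρ₀ ≤ ρ₁ := by rw [hρ₀]; exact min_le_left _ _
  have hρ₀2 : n * (2 * ρ₀) ≤ min (ρ₁ / 2) s := by
    have h1 : ρ₀ ≤ min (ρ₁ / 2) s / (2 * n) := by rw [hρ₀]; exact min_le_right _ _
    rw [le_div_iff₀ (by positivity)] at h1
    linarith
  -- the index set
  obtain ⟨e⟩ : Nonempty ((Fin n ⊕ Σ l : T, Fin (k l.1)) ≃
      Fin (Fintype.card (Fin n ⊕ Σ l : T, Fin (k l.1)))) := ⟨Fintype.equivFin _⟩
  obtain ⟨C', hC'⟩ := T_gen4 hn N (Fintype.card (Fin n ⊕ Σ l : T, Fin (k l.1))) (M := M)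
    (C₁ := max C₀ C₁) (ρ₀ := ρ₀) (K := K') (p := q) ω' hρ₀0 hq1 ⟨hω'0, hω'⟩
  refine ⟨C', fun f hf hfM hfδ hloc => ?_⟩
  have hloc' : ∀ l, ∃ u : Fin (k l) → EuclideanSpace ℂ (Fin n) → ℂ, l ∈ T →
      (∀ i, Gen4 (K l) (p l) (ω l) (u i)) ∧
        ∀ c : Fin (k l) → ℂ, SolvableOn f
          {z | z ∈ ball (0 : EuclideanSpace ℂ (Fin n)) 1 ∩ ball l (ρ l) ∧
            ∀ i, ‖u i z - c i‖ < ρ l} (C l) := by
    intro l
    by_cases hl : l ∈ T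
    · obtain ⟨u, hu⟩ := hloc l (hT l hl)
      exact ⟨u, fun _ => hu⟩
    · exact ⟨fun _ _ => 0, fun h => absurd h hl⟩
  choose u hu using hloc'
  obtain ⟨v, hv⟩ : ∃ v : (Fin n ⊕ Σ l : T, Fin (k l.1)) → EuclideanSpace ℂ (Fin n) → ℂ,
      v = Sum.elim (fun i z => ⟪EuclideanSpace.single i (1 : ℂ), z⟫_ℂ)
        (fun x z => u x.1.1 x.2 z) := ⟨_, rfl⟩
  have hvG : ∀ x, Gen4 K' q ω' (v x) := by
    rintro (i | ⟨l, i⟩)
    · rw [hv]
      left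
      left
      refine DAMultiplier_mono (e := EuclideanSpace.single i (1 : ℂ)) (by simp) (K := 1)
        (by rw [abs_one]; exact hK'1) ?_
      exact CV.DAMultiplier_line (g := fun w => w) differentiableOn_id
        (fun w hw => (mem_ball_zero_iff.mp hw).le) (by simp)
    · rw [hv]
      exact hB l.1 l.2 K' (hBK l.1 l.2) _ ((hu l.1 l.2).1 i)
  refine hC' f (fun i => v (e.symm i)) hf hfM (fun i => hvG _) fun c => ?_
  obtain ⟨D, hD⟩ : ∃ D : Set (EuclideanSpace ℂ (Fin n)), D =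
    {z | z ∈ ball (0 : EuclideanSpace ℂ (Fin n)) 1 ∧ ∀ i, ‖v (e.symm i) z - c i‖ < ρ₀} := ⟨_, rfl⟩
  rw [← hD]
  have hDmem : ∀ z ∈ D, z ∈ ball (0 : EuclideanSpace ℂ (Fin n)) 1 ∧
      ∀ x, ‖v x z - c (e x)‖ < ρ₀ := by
    intro z hz
    rw [hD] at hz
    refine ⟨hz.1, fun x => ?_⟩
    have := hz.2 (e x)
    rwa [Equiv.symm_apply_apply] at this
  rcases D.eq_empty_or_nonempty with h0 | ⟨b, hb⟩
  · rw [h0]
    exact ⟨fun _ _ => 0, fun _ => differentiableOn_empty, fun _ _ h => absurd h (notMem_empty _),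
      fun _ h => absurd h (notMem_empty _)⟩
  have hDb : ∀ z ∈ D, ‖z - b‖ ≤ min (ρ₁ / 2) s := by
    intro z hz
    refine (norm_le_coord (z - b)).trans (le_trans (Finset.sum_le_sum (g := fun _ => 2 * ρ₀)
      fun i _ => ?_) ?_)
    · have h1 := (hDmem z hz).2 (Sum.inl i)
      have h2 := (hDmem b hb).2 (Sum.inl i)
      rw [hv] at h1 h2
      simp only [Sum.elim_inl, EuclideanSpace.inner_single_left, map_one, one_mul] at h1 h2
      have h3 : (z - b) i = (z i - c (e (Sum.inl i))) - (b i - c (e (Sum.inl i))) := by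
        rw [PiLp.sub_apply]
        ring
      rw [h3]
      refine (norm_sub_le _ _).trans ?_
      linarith
    · rw [Finset.sum_const, Finset.card_univ, Fintype.card_fin, nsmul_eq_mul]
      exact hρ₀2
  have hb1 := (hDmem b hb).1
  by_cases hbr : ‖b‖ ≤ 1 - r
  · refine solv_mono (hin f hf (fun j z hz => (hfM j z hz).trans (le_max_left _ _)) hfδ D b
      (fun z hz => (hDmem z hz).1) hbr fun z hz => (hDb z hz).trans (min_le_right _ _))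
      Subset.rfl (le_max_left _ _)
  · push Not at hbr
    obtain ⟨l, hl, hbl⟩ := hcov b (mem_ball_zero_iff.mp hb1) hbr
    refine solv_mono ((hu l hl).2 fun i => c (e (Sum.inr ⟨⟨l, hl⟩, i⟩))) ?_
      ((hC₁ l hl).trans (le_max_right _ _))
    intro z hz
    refine ⟨⟨(hDmem z hz).1, ?_⟩, fun i => ?_⟩
    · rw [mem_ball, dist_eq_norm] at hbl ⊢
      have h1 := (hDb z hz).trans (min_le_left _ _)
      have h2 := hρT l hl
      have h3 : z - l = (z - b) + (b - l) := by abel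
      rw [h3]
      refine lt_of_le_of_lt (norm_add_le _ _) ?_
      linarith
    · have h1 := (hDmem z hz).2 (Sum.inr ⟨⟨l, hl⟩, i⟩)
      rw [hv] at h1
      exact h1.trans_le (hρ₀1.trans (hρT l hl))

/-- The unconditional theorem: data which on each cell are nearly polynomials in one function. -/
theorem gen_poly4 (hn : 2 ≤ n) (N d : ℕ) (M δ : ℝ) (hδ : 0 < δ) :
    ∃ η : ℝ, 0 < η ∧ ∀ (k : EuclideanSpace ℂ (Fin n) → ℕ)
      (ρ K p : EuclideanSpace ℂ (Fin n) → ℝ) (ω : EuclideanSpace ℂ (Fin n) → ℝ → ℝ),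
    (∀ l, 0 < ρ l) → (∀ l, 1 ≤ p l) → (∀ l, ∀ t ∈ Ioo (0 : ℝ) 1, 0 < ω l t) →
    (∀ l, ∀ c > 0, IntegrableOn (fun t => Real.exp (-(c / ω l t)) / t) (Ioo 0 1)) →
    ∃ C' : ℝ, ∀ f : Fin N → EuclideanSpace ℂ (Fin n) → ℂ,
      (∀ j, DifferentiableOn ℂ (f j) (ball 0 1)) →
      (∀ j, ∀ z ∈ ball (0 : EuclideanSpace ℂ (Fin n)) 1, ‖f j z‖ ≤ M) →
      (∀ z ∈ ball (0 : EuclideanSpace ℂ (Fin n)) 1, δ ≤ ∑ j, ‖f j z‖ ^ 2) →
      (∀ l ∈ sphere (0 : EuclideanSpace ℂ (Fin n)) 1,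
        ∃ u : Fin (k l) → EuclideanSpace ℂ (Fin n) → ℂ, (∀ i, Gen4 (K l) (p l) (ω l) (u i)) ∧
        ∀ c : Fin (k l) → ℂ, NearlyOneDim f
          {z | z ∈ ball (0 : EuclideanSpace ℂ (Fin n)) 1 ∩ ball l (ρ l) ∧
            ∀ i, ‖u i z - c i‖ < ρ l} d M η) →
      SolvableOn f (ball 0 1) C' := by
  obtain ⟨η, hη, C, hC⟩ := SK.piece_poly (E := EuclideanSpace ℂ (Fin n)) N d M δ hδ
  refine ⟨η, hη, fun k ρ K p ω hρ hp hω0 hω => ?_⟩
  obtain ⟨C', hC'⟩ := gen_loc4 hn N M δ hδ k ρ K p (fun _ => C) ω hρ hp hω0 hω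
  refine ⟨C', fun f hf hfM hfδ hfl => hC' f hf hfM hfδ fun l hl => ?_⟩
  obtain ⟨u, hu, h⟩ := hfl l hl
  refine ⟨u, hu, fun c => hC f _ (fun j => (hf j).mono fun z hz => hz.1.1)
    (fun z hz => hfδ z hz.1.1) (h c)⟩

end Pool.Agent.MPca0fc2.LT
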