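import Mathlib
import Pool.Agent.Lib.MP_ca0fc2_an.MXQTXp
import Pool.Agent.Lib.MP_ca0fc2_an.Mg.G023

set_option autoImplicit false

open Metric Set MeasureTheory Filter Topology

open scoped InnerProductSpace ENNReal

namespace Pool.Agent.MPca0fc2.MX.Q

open Pool.Agent.MPca0fc2.PT Pool.Agent.MPca0fc2.QT

variable {E : Type*} [NormedAddCommGroup E] [InnerProductSpace ℂ E]

variable [FiniteDimensional ℂ E] [MeasurableSpace E] [BorelSpace E]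

variable {ι : Type} [Fintype ι] {d N m : ℕ} {cc : ι → Fin d → ℂ} {χ : ι → (Fin d → ℂ) → ℝ}

variable {θ ϑ : ℝ} {P : ℕ} {c ρ C₀ p M A ρ₀ C₁ L : ℝ}

variable {ν : Ptl E} {f : Fin N → E → ℂ} {u : Fin d → E → ℂ} {s : ι → E → Fin N → ℂ}

omit [Fintype ι] in
/-- a point of the cell, for the dilated functions -/
theorem QTXc_cell (h : ParQ E m θ ϑ P c ρ C₀ p M A)
    {k l : ℕ} (hl : l ≤ k + 1) {w : E} (hw : ‖w‖ < RC θ k) (hρ₀ : 0 < ρ₀) {i : ι}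
    (hi : ∀ j, ‖uk (u j) θ l w - cc i j‖ < ρ₀ / 2) :
    (rt θ l : ℂ) • w ∈ {z | z ∈ ball (0 : E) 1 ∧ ∀ j, ‖u j z - cc i j‖ < ρ₀} :=
  ⟨rt_smul_mem h.θ0 h.θ1 hl hw, fun j => (hi j).trans (by linarith)⟩

theorem near_cell (h : ParQ E m θ ϑ P c ρ C₀ p M A) (hρρ : 64 * ρ ≤ ρ₀)
    (D : Dat ν f u s cc χ M A p C₀ ρ₀ C₁ L) {k l : ℕ} (hl : l = k ∨ l = k + 1) {w : E}
    (hw : ‖w‖ < RC θ k) {i : ι} (hi : ‖(fun j => bv ν u θ ϑ c ρ k j w) - cc i‖ ≤ ρ₀ / 8)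
    (j : Fin d) : ‖uk (u j) θ l w - cc i j‖ < ρ₀ / 2 := by
  have h1 : ‖bq ν (u j) θ ϑ c ρ k w - cc i j‖ ≤ ρ₀ / 8 :=
    (norm_le_pi_norm ((fun j => bv ν u θ ϑ c ρ k j w) - cc i) j).trans hi
  have h2 : ‖bq ν (u j) θ ϑ c ρ k w - uk (u j) θ l w‖ ≤ 4 * ρ := by
    rcases hl with rfl | rfl
    · have h3 := h.b_near (D.hu j) (hw.trans_le (RC_succ_le h.θ0 h.θ1 l))
      have := h.hρ
      linarith
    · exact h.b_near' (D.hu j) hw
  have := D.hρ₀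
  calc ‖uk (u j) θ l w - cc i j‖ = ‖(bq ν (u j) θ ϑ c ρ k w - cc i j) -
        (bq ν (u j) θ ϑ c ρ k w - uk (u j) θ l w)‖ := by congr 1; ring
    _ ≤ _ := norm_sub_le _ _
    _ < ρ₀ / 2 := by linarith

theorem near_cell' (h : ParQ E m θ ϑ P c ρ C₀ p M A) (hρρ : 64 * ρ ≤ ρ₀)
    (D : Dat ν f u s cc χ M A p C₀ ρ₀ C₁ L) {k : ℕ} {w : E}
    (hw : ‖w‖ < RC θ (k - 1)) {i : ι} (hi : ‖(fun j => bv ν u θ ϑ c ρ k j w) - cc i‖ ≤ ρ₀ / 8)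
    (j : Fin d) : ‖uk (u j) θ k w - cc i j‖ < ρ₀ / 2 := by
  have h1 : ‖bq ν (u j) θ ϑ c ρ k w - cc i j‖ ≤ ρ₀ / 8 :=
    (norm_le_pi_norm ((fun j => bv ν u θ ϑ c ρ k j w) - cc i) j).trans hi
  have h2 := h.b_near (D.hu j) hw
  have := D.hρ₀
  have := h.hρ
  calc ‖uk (u j) θ k w - cc i j‖ = ‖(bq ν (u j) θ ϑ c ρ k w - cc i j) -
        (bq ν (u j) θ ϑ c ρ k w - uk (u j) θ k w)‖ := by congr 1; ring
    _ ≤ _ := norm_sub_le _ _
    _ < ρ₀ / 2 := by linarith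

theorem sl_diff (h : ParQ E m θ ϑ P c ρ C₀ p M A) (D : Dat ν f u s cc χ M A p C₀ ρ₀ C₁ L)
    {k l : ℕ} (hl : l ≤ k + 1) {w : E} (hw : ‖w‖ < RC θ k) {i : ι}
    (hi : ∀ j, ‖uk (u j) θ l w - cc i j‖ < ρ₀ / 2) :
    ∀ᶠ x in 𝓝 w, DifferentiableAt ℂ (sl s θ l i) x := by
  have hcell := QTXc_cell (cc := cc) h hl hw D.hρ₀ hi
  have hO : IsOpen {z | z ∈ ball (0 : E) 1 ∧ ∀ j, ‖u j z - cc i j‖ < ρ₀} := by
    have e : {z | z ∈ ball (0 : E) 1 ∧ ∀ j, ‖u j z - cc i j‖ < ρ₀} =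
        ball (0 : E) 1 ∩ (fun z => (fun j => u j z : Fin d → ℂ)) ⁻¹'
          {y | ∀ j, ‖y j - cc i j‖ < ρ₀} := by
      ext z; simp
    rw [e]
    refine ContinuousOn.isOpen_inter_preimage ?_ isOpen_ball ?_
    · exact continuousOn_pi.mpr fun j => (D.hu j).diff.continuousOn
    · rw [show {y : Fin d → ℂ | ∀ j, ‖y j - cc i j‖ < ρ₀} =
        ⋂ j, {y : Fin d → ℂ | ‖y j - cc i j‖ < ρ₀} by ext y; simp]
      exact isOpen_iInter_of_finite fun j => isOpen_lt (by fun_prop) continuous_const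
  have hc : Continuous fun x : E => (rt θ l : ℂ) • x := by fun_prop
  filter_upwards [hc.continuousAt.preimage_mem_nhds (hO.mem_nhds hcell)] with x hx
  unfold sl
  exact ((D.hs i).differentiableAt (hO.mem_nhds hx)).comp x (by fun_prop)

theorem sl_bound (h : ParQ E m θ ϑ P c ρ C₀ p M A) (D : Dat ν f u s cc χ M A p C₀ ρ₀ C₁ L)
    {k l : ℕ} (hl : l ≤ k + 1) {w : E} (hw : ‖w‖ < RC θ k) {i : ι}
    (hi : ∀ j, ‖uk (u j) θ l w - cc i j‖ < ρ₀ / 2) : ‖sl s θ l i w‖ ≤ C₁ := by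
  have hcell := QTXc_cell (cc := cc) h hl hw D.hρ₀ hi
  exact D.hsb i _ hcell.1 hcell.2

theorem FF_diff (h : ParQ E m θ ϑ P c ρ C₀ p M A) (D : Dat ν f u s cc χ M A p C₀ ρ₀ C₁ L)
    {k l : ℕ} (hl : l ≤ k + 1) : DifferentiableOn ℂ (FF f θ l) (ball 0 (RC θ k)) := by
  unfold FF
  refine DifferentiableOn.fun_sum fun j _ => ?_
  exact (uk_diff h.θ0 h.θ1 (D.hf j) hl).smul_const _

theorem FF_norm (h : ParQ E m θ ϑ P c ρ C₀ p M A) (D : Dat ν f u s cc χ M A p C₀ ρ₀ C₁ L)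
    {k l : ℕ} (hl : l ≤ k + 1) {w : E} (hw : ‖w‖ < RC θ k) : ‖FF f θ l w‖ ≤ N * M := by
  unfold FF
  refine (norm_sum_le _ _).trans ?_
  calc ∑ j : Fin N, ‖uk (f j) θ l w • (ContinuousLinearMap.proj j : (Fin N → ℂ) →L[ℂ] ℂ)‖
      ≤ ∑ _j : Fin N, M := by
        refine Finset.sum_le_sum fun j _ => ?_
        rw [norm_smul]
        have h1 : ‖uk (f j) θ l w‖ ≤ M := D.hfM j _ (rt_smul_mem h.θ0 h.θ1 hl hw)
        have h2 := QTXc_proj j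
        have h3 := norm_nonneg (uk (f j) θ l w)
        nlinarith [norm_nonneg (ContinuousLinearMap.proj j : (Fin N → ℂ) →L[ℂ] ℂ)]
    _ = N * M := by simp

theorem FF_sub (h : ParQ E m θ ϑ P c ρ C₀ p M A) (D : Dat ν f u s cc χ M A p C₀ ρ₀ C₁ L)
    {k : ℕ} {w : E} (hw : ‖w‖ < RC θ k) :
    ‖FF f θ (k + 1) w - FF f θ k w‖ ≤ N * ρ * xk θ k w := by
  have hx := xk_pos h.θ0 h.θ1 hw
  have hρ := h.hρ
  unfold FF
  rw [← Finset.sum_sub_distrib]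
  refine (norm_sum_le _ _).trans ?_
  calc ∑ j : Fin N, ‖uk (f j) θ (k + 1) w • (ContinuousLinearMap.proj j : (Fin N → ℂ) →L[ℂ] ℂ) -
        uk (f j) θ k w • (ContinuousLinearMap.proj j : (Fin N → ℂ) →L[ℂ] ℂ)‖
      ≤ ∑ _j : Fin N, ρ * xk θ k w := by
        refine Finset.sum_le_sum fun j _ => ?_
        have e : uk (f j) θ (k + 1) w • (ContinuousLinearMap.proj j : (Fin N → ℂ) →L[ℂ] ℂ) -
            uk (f j) θ k w • (ContinuousLinearMap.proj j : (Fin N → ℂ) →L[ℂ] ℂ) =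
            (uk (f j) θ (k + 1) w - uk (f j) θ k w) •
              (ContinuousLinearMap.proj j : (Fin N → ℂ) →L[ℂ] ℂ) :=
          (sub_smul _ _ _).symm
        rw [e, norm_smul]
        have h1 := (h.step (D.hf j) (D.hfM j) hw).1
        have h2 := QTXc_proj j
        have h3 := norm_nonneg (uk (f j) θ (k + 1) w - uk (f j) θ k w)
        have h4 := norm_nonneg (ContinuousLinearMap.proj j : (Fin N → ℂ) →L[ℂ] ℂ)
        have h5 : ρ / 8 * xk θ k w ≤ ρ * xk θ k w := by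
          have : 0 < ρ * xk θ k w := by positivity
          linarith
        nlinarith
    _ = N * ρ * xk θ k w := by simp; ring

theorem sk_c2 (h : ParQ E m θ ϑ P c ρ C₀ p M A) (hρρ : 64 * ρ ≤ ρ₀)
    (D : Dat ν f u s cc χ M A p C₀ ρ₀ C₁ L) {k l : ℕ} (hl : l = k ∨ l = k + 1) {w : E}
    (hw : ‖w‖ < RC θ k) : ContDiffAt ℝ 2 (sk χ ν u θ ϑ c ρ s k l) w := by
  have hl' : l ≤ k + 1 := by omega
  refine sg_c2 D.hχ (fun j => ?_) fun i hi => ?_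
  · exact (h.b_c2 (D.hu j) k).contDiffAt (isOpen_ball.mem_nhds (by simpa using hw))
  · exact QTXc_hol_at (sl_diff h D hl' hw (near_cell h hρρ D hl hw hi))

theorem sk_norm (h : ParQ E m θ ϑ P c ρ C₀ p M A) (hρρ : 64 * ρ ≤ ρ₀)
    (D : Dat ν f u s cc χ M A p C₀ ρ₀ C₁ L) {k l : ℕ} (hl : l = k ∨ l = k + 1) {w : E}
    (hw : ‖w‖ < RC θ k) : ‖sk χ ν u θ ϑ c ρ s k l w‖ ≤ Fintype.card ι * C₁ := by
  have hl' : l ≤ k + 1 := by omega
  exact sg_norm D.hχ D.hC₁ fun i hi => sl_bound h D hl' hw (near_cell h hρρ D hl hw hi)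

theorem sk_F (h : ParQ E m θ ϑ P c ρ C₀ p M A) (hρρ : 64 * ρ ≤ ρ₀)
    (D : Dat ν f u s cc χ M A p C₀ ρ₀ C₁ L) {k l : ℕ} (hl : l = k ∨ l = k + 1) {w : E}
    (hw : ‖w‖ < RC θ k) : FF f θ l w (sk χ ν u θ ϑ c ρ s k l w) = 1 := by
  have hl' : l ≤ k + 1 := by omega
  have hb : ‖(fun j => bv ν u θ ϑ c ρ k j w)‖ ≤ 5 * M := by
    have := h.hM
    exact (pi_norm_le_iff_of_nonneg (by linarith)).mpr fun j => h.b_le (D.hu j) hw
  have hsum := D.hsum _ hb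
  unfold sk sg
  rw [map_sum]
  have h1 : ∀ i, FF f θ l w ((((χ i fun j => bv ν u θ ϑ c ρ k j w) : ℝ) : ℂ) • sl s θ l i w) =
      (((χ i fun j => bv ν u θ ϑ c ρ k j w) : ℝ) : ℂ) := by
    intro i
    rcases eq_or_ne (χ i fun j => bv ν u θ ϑ c ρ k j w) 0 with h0 | h0
    · rw [h0]; simp
    · have hi : ‖(fun j => bv ν u θ ϑ c ρ k j w) - cc i‖ ≤ ρ₀ / 8 := by
        by_contra hcon
        exact h0 (D.hχ.supp i _ (not_le.mp hcon).le)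
      have hcell := QTXc_cell (cc := cc) h hl' hw D.hρ₀ (near_cell h hρρ D hl hw hi)
      have h2 : FF f θ l w (sl s θ l i w) = 1 := by
        have h3 := D.hsf i _ hcell.1 hcell.2
        unfold FF sl
        rw [← h3, sum_apply]
        rfl
      rw [map_smul, h2, smul_eq_mul, mul_one]
  rw [Finset.sum_congr rfl fun i _ => h1 i, ← Complex.ofReal_sum, hsum, Complex.ofReal_one]

theorem sk_FD (h : ParQ E m θ ϑ P c ρ C₀ p M A) (hρρ : 64 * ρ ≤ ρ₀)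
    (D : Dat ν f u s cc χ M A p C₀ ρ₀ C₁ L) {k l : ℕ} (hl : l = k ∨ l = k + 1) {w : E}
    (hw : ‖w‖ < RC θ k) (v : E) : FF f θ l w (D01 (sk χ ν u θ ϑ c ρ s k l) w v) = 0 := by
  have hl' : l ≤ k + 1 := by omega
  have hwb : ball (0 : E) (RC θ k) ∈ 𝓝 w := isOpen_ball.mem_nhds (by simpa using hw)
  refine F_D01 ((FF_diff h D hl').differentiableAt hwb)
    ((sk_c2 h hρρ D hl hw).differentiableAt (by norm_num)) ?_ v
  filter_upwards [hwb] with x hx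
  exact sk_F h hρρ D hl (by simpa using hx)

end Pool.Agent.MPca0fc2.MX.Q
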