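import Mathlib
import Pool.Agent.Lib.MP_ca0fc2_an.MXQTBg
import Pool.Agent.Lib.MP_ca0fc2_an.MXQTSQ
import Pool.Agent.Lib.MP_ca0fc2_an.MXQTXc
import Pool.Agent.Lib.MP_ca0fc2_an.QTLoc

set_option autoImplicit false

open Metric Set MeasureTheory Filter Topology

open scoped InnerProductSpace ENNReal

namespace Pool.Agent.MPca0fc2.MX.Q

open Pool.Agent.MPca0fc2.PT Pool.Agent.MPca0fc2.QT

variable {E : Type*} [NormedAddCommGroup E] [InnerProductSpace ℂ E]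

variable [FiniteDimensional ℂ E] [MeasurableSpace E] [BorelSpace E]

variable {ι : Type} [Fintype ι] {d N m : ℕ} {cc : ι → Fin d → ℂ} {χ : ι → (Fin d → ℂ) → ℝ}

variable {θ ϑ : ℝ} {P : ℕ} {c ρ C₀ p M A ρ₀ C₁ L : ℝ}

/-- the gradients of the bases -/
theorem bv_grad (h : ParQ E m θ ϑ P c ρ C₀ p M A) (cc : ι → Fin d → ℂ)
    (χ : ι → (Fin d → ℂ) → ℝ) :
    ∃ C : ℝ, 0 < C ∧ ∀ (ν : Ptl E) (f : Fin N → E → ℂ) (u : Fin d → E → ℂ)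
      (s : ι → E → Fin N → ℂ), Dat ν f u s cc χ M A p C₀ ρ₀ C₁ L → ∀ (k : ℕ) (w : E),
      ‖w‖ < RC θ k → (∀ j, ContDiffAt ℝ 2 (bv ν u θ ϑ c ρ k j) w) ∧ ∀ v : E,
        0 ≤ xk θ k w ^ (-(4 / P : ℝ)) * SQ ν θ ϑ k w * gau (dl θ k w) w v ∧
        ∀ j, ‖fderiv ℝ (bv ν u θ ϑ c ρ k j) w v‖ ≤
            C * (xk θ k w ^ (-(4 / P : ℝ)) * SQ ν θ ϑ k w * gau (dl θ k w) w v) ∧
          ‖fderiv ℝ (bv ν u θ ϑ c ρ k j) w (Complex.I • v)‖ ≤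
            C * (xk θ k w ^ (-(4 / P : ℝ)) * SQ ν θ ϑ k w * gau (dl θ k w) w v) := by
  have hPm := h.hPm
  obtain ⟨C, hC, hb⟩ := bq_grad (E := E) h.h0 h.h1 h.hP (by omega) h.hC₀ h.hp h.hc h.hc1
  refine ⟨C, hC, ?_⟩
  intro ν f u s D k w hw
  refine ⟨fun j => (h.b_c2 (D.hu j) k).contDiffAt
    (isOpen_ball.mem_nhds (mem_ball_zero_iff.mpr hw)), fun v => ⟨?_, fun j => ⟨?_, ?_⟩⟩⟩
  · have h1 := xk_pos h.θ0 h.θ1 hw
    have h2 := SQ_nonneg (θ := θ) h.h0 ν k w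
    have h3 := gau_nonneg (dl_pos h.θ0 h.θ1 hw).le w v
    positivity
  · have h1 := hb ν (u j) M A ρ (D.hu j) h.hρ k w hw v
    refine h1.trans (le_of_eq (by ring))
  · have h1 := hb ν (u j) M A ρ (D.hu j) h.hρ k w hw (Complex.I • v)
    rw [gau_I] at h1
    refine h1.trans (le_of_eq (by ring))

theorem sk_D01 (h : ParQ E m θ ϑ P c ρ C₀ p M A) (hρρ : 64 * ρ ≤ ρ₀) (hL : 0 ≤ L)
    (hC₁ : 0 ≤ C₁) (cc : ι → Fin d → ℂ) (χ : ι → (Fin d → ℂ) → ℝ) :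
    ∃ G : ℝ, 0 < G ∧ ∀ (ν : Ptl E) (f : Fin N → E → ℂ) (u : Fin d → E → ℂ)
      (s : ι → E → Fin N → ℂ), Dat ν f u s cc χ M A p C₀ ρ₀ C₁ L → ∀ (k l : ℕ),
      (l = k ∨ l = k + 1) → ∀ w : E, ‖w‖ < RC θ k → ∀ v : E,
        ‖D01 (sk χ ν u θ ϑ c ρ s k l) w v‖ ≤
          G * (xk θ k w ^ (-(4 / P : ℝ)) * SQ ν θ ϑ k w * gau (dl θ k w) w v) := by
  obtain ⟨C, hC, hb⟩ := bv_grad (E := E) (N := N) (ρ₀ := ρ₀) (C₁ := C₁) (L := L) h cc χ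
  refine ⟨Fintype.card ι * L * C₁ * C + 1, by positivity, ?_⟩
  intro ν f u s D k l hl w hw v
  obtain ⟨hcd, hg⟩ := hb ν f u s D k w hw
  obtain ⟨h0, h1⟩ := hg v
  have h2 := sg_D01 (s := sl s θ l) D.hχ hC₁ hcd (fun i hi => ⟨sl_bound h D (by omega) hw
    (near_cell h hρρ D hl hw hi), sl_diff h D (by omega) hw (near_cell h hρρ D hl hw hi)⟩) v
    (mul_nonneg hC.le h0) h1
  refine h2.trans ?_
  have e : (Fintype.card ι : ℝ) * L * C₁ * (C * (xk θ k w ^ (-(4 / P : ℝ)) * SQ ν θ ϑ k w *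
      gau (dl θ k w) w v)) = (Fintype.card ι * L * C₁ * C) * (xk θ k w ^ (-(4 / P : ℝ)) *
      SQ ν θ ϑ k w * gau (dl θ k w) w v) := by ring
  rw [e]
  exact mul_le_mul_of_nonneg_right (by linarith) h0

theorem sk_data (h : ParQ E m θ ϑ P c ρ C₀ p M A) (hρρ : 64 * ρ ≤ ρ₀) (hL : 0 ≤ L)
    (hC₁ : 0 ≤ C₁) (cc : ι → Fin d → ℂ) (χ : ι → (Fin d → ℂ) → ℝ) :
    ∃ G : ℝ, 0 < G ∧ ∀ (ν : Ptl E) (f : Fin N → E → ℂ) (u : Fin d → E → ℂ)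
      (s : ι → E → Fin N → ℂ), Dat ν f u s cc χ M A p C₀ ρ₀ C₁ L → ∀ (k : ℕ),
      ∀ w : E, ‖w‖ < RC θ k →
        ‖sk χ ν u θ ϑ c ρ s k (k + 1) w - sk χ ν u θ ϑ c ρ s k k w‖ ≤ G * xk θ k w ∧ ∀ v : E,
        ‖D01 (sk χ ν u θ ϑ c ρ s k (k + 1)) w v - D01 (sk χ ν u θ ϑ c ρ s k k) w v‖ ≤
          G * xk θ k w * (xk θ k w ^ (-(4 / P : ℝ)) * SQ ν θ ϑ k w * gau (dl θ k w) w v) := by
  have hρ := h.hρ
  have hρ₀ : 0 < ρ₀ := by linarith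
  have hsm : 2000 * M / θ * (1 - θ) ≤ ρ₀ / 8 := by
    have := h.small
    linarith
  obtain ⟨C, hC, hb⟩ := bv_grad (E := E) (N := N) (ρ₀ := ρ₀) (C₁ := C₁) (L := L) h cc χ
  obtain ⟨K, hK, hlip⟩ := cell_lip (E := E) (Y := Fin N → ℂ) h.θ0 h.θ1 d h.hM hρ₀ hC₁ hsm
  refine ⟨Fintype.card ι * K + Fintype.card ι * L * K * C + 1, by positivity, ?_⟩
  intro ν f u s D k w hw
  have hx := xk_pos h.θ0 h.θ1 hw
  obtain ⟨hcd, hg⟩ := hb ν f u s D k w hw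
  have h2 := sg_data (s := sl s θ k) (s' := sl s θ (k + 1)) D.hχ (mul_nonneg hK.le hx.le) hcd
    (fun i hi => ⟨hlip u (cc i) (s i) (fun j => (D.hu j).diff) (fun j => (D.hu j).bd) (D.hs i)
      (D.hsb i) k w hw (near_cell h hρρ D (Or.inl rfl) hw hi),
      sl_diff h D (by omega) hw (near_cell h hρρ D (Or.inl rfl) hw hi),
      sl_diff h D (by omega) hw (near_cell h hρρ D (Or.inr rfl) hw hi)⟩)
  refine ⟨h2.1.trans ?_, fun v => ?_⟩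
  · have e : (Fintype.card ι : ℝ) * (K * xk θ k w) = (Fintype.card ι * K) * xk θ k w := by ring
    rw [e]
    apply mul_le_mul_of_nonneg_right _ hx.le
    have : 0 ≤ (Fintype.card ι : ℝ) * L * K * C := by positivity
    linarith
  · obtain ⟨h0, h1⟩ := hg v
    refine (h2.2 v _ (mul_nonneg hC.le h0) h1).trans ?_
    have e : (Fintype.card ι : ℝ) * L * (K * xk θ k w) * (C * (xk θ k w ^ (-(4 / P : ℝ)) *
        SQ ν θ ϑ k w * gau (dl θ k w) w v)) = (Fintype.card ι * L * K * C) * xk θ k w *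
        (xk θ k w ^ (-(4 / P : ℝ)) * SQ ν θ ϑ k w * gau (dl θ k w) w v) := by ring
    rw [e]
    apply mul_le_mul_of_nonneg_right _ h0
    apply mul_le_mul_of_nonneg_right _ hx.le
    have : 0 ≤ (Fintype.card ι : ℝ) * K := by positivity
    linarith

theorem sk_base (h : ParQ E m θ ϑ P c ρ C₀ p M A) (hρρ : 64 * ρ ≤ ρ₀) (hL : 0 ≤ L)
    (hC₁ : 0 ≤ C₁) (cc : ι → Fin d → ℂ) (χ : ι → (Fin d → ℂ) → ℝ) :
    ∃ G : ℝ, 0 < G ∧ ∀ (ν : Ptl E) (f : Fin N → E → ℂ) (u : Fin d → E → ℂ)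
      (s : ι → E → Fin N → ℂ), Dat ν f u s cc χ M A p C₀ ρ₀ C₁ L → ∀ (k : ℕ),
      ∀ w : E, ‖w‖ < RC θ k →
        ‖sk χ ν u θ ϑ c ρ s (k + 1) (k + 1) w - sk χ ν u θ ϑ c ρ s k (k + 1) w‖ ≤
          G * ∑ j, ‖bq ν (u j) θ ϑ c ρ (k + 1) w - bq ν (u j) θ ϑ c ρ k w‖ := by
  refine ⟨Fintype.card ι * L * C₁ + 1, by positivity, ?_⟩
  intro ν f u s D k w hw
  have h2 := sg_base (b := bv ν u θ ϑ c ρ k) (b' := bv ν u θ ϑ c ρ (k + 1))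
    (s := sl s θ (k + 1)) (w := w) D.hχ hC₁ (fun i hi => by
      rcases hi with hi | hi
      · exact sl_bound h D le_rfl hw (near_cell h hρρ D (Or.inr rfl) hw hi)
      · exact sl_bound h D le_rfl hw (near_cell' h hρρ D (k := k + 1) hw hi))
  refine h2.trans ?_
  apply mul_le_mul_of_nonneg_right (by linarith)
  exact Finset.sum_nonneg fun _ _ => norm_nonneg _

end Pool.Agent.MPca0fc2.MX.Q
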