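import Mathlib
import Pool.Agent.Lib.MP_ca0fc2_an.MXQTDesc
import Pool.Agent.Lib.MP_ca0fc2_an.MXQTX5
import Pool.Agent.Lib.MP_ca0fc2_an.MXQTXe
import Pool.Agent.Lib.MP_ca0fc2_an.QTX6

set_option autoImplicit false

open Metric Set MeasureTheory Filter Topology

open scoped InnerProductSpace ENNReal

namespace Pool.Agent.MPca0fc2.MX.Q

open Pool.Agent.MPca0fc2.PT Pool.Agent.MPca0fc2.QT

variable {E : Type*} [NormedAddCommGroup E] [InnerProductSpace ℂ E]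

variable [FiniteDimensional ℂ E] [MeasurableSpace E] [BorelSpace E]

variable {V : Type*} [NormedAddCommGroup V] [NormedSpace ℂ V]

variable {ι : Type} [Fintype ι] {d N m : ℕ}

variable {θ ϑ : ℝ} {P : ℕ} {c ρ C₀ p M A ρ₀ C₁ L : ℝ}

/-- the invariant of the recursion -/
structure Good (K : Car (Fin N → ℂ) V) (ν : Ptl E) (f : Fin N → E → ℂ) (u : Fin d → E → ℂ)
    (s : ι → E → Fin N → ℂ) (χ : ι → (Fin d → ℂ) → ℝ) (θ ϑ c ρ e : ℝ) (D : ℕ → ℝ) (k : ℕ)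
    (W : (r : ℕ) → E → E [⋀^Fin r]→L[ℝ] V) : Prop where
  c1 : ∀ r, ContDiffOn ℝ 1 (W r) (ball 0 (RA θ k))
  anti : ∀ r, ∀ w ∈ ball (0 : E) (RA θ k), Anti (W r w)
  eq : ∀ r, ∀ w ∈ ball (0 : E) (RA θ k), db (W r) w =
    UU K (sk χ ν u θ ϑ c ρ s k k) (r + 1) w -
      opc E V (r + 1) (K.c (FF f θ k w)) (W (r + 1) w)
  bd : ∀ r, Bd ν θ ϑ k (RA θ k) (D (r + 1)) (-e) (W (r + 1))

theorem sol_at (h : ParQ E m θ ϑ P c ρ C₀ p M A) (hρρ : 64 * ρ ≤ ρ₀) {ν : Ptl E}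
    {f : Fin N → E → ℂ} {u : Fin d → E → ℂ} {s : ι → E → Fin N → ℂ} {cc : ι → Fin d → ℂ}
    {χ : ι → (Fin d → ℂ) → ℝ}
    (D : Dat ν f u s cc χ M A p C₀ ρ₀ C₁ L) {k l : ℕ} (hl : l = k ∨ l = k + 1) {w : E}
    (hw : ‖w‖ < RC θ k) : SolAt (sk χ ν u θ ϑ c ρ s k l) (FF f θ l) w where
  c2 := sk_c2 h hρρ D hl hw
  hol := (FF_diff h D (k := k) (by omega)).differentiableAt
    (isOpen_ball.mem_nhds (mem_ball_zero_iff.mpr hw))
  one := sk_F h hρρ D hl hw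
  zero := sk_FD h hρρ D hl hw

theorem step_thm (μ : Measure E) [μ.IsAddHaarMeasure] (hm : 1 ≤ m)
    (hdim : Module.finrank ℂ E = m + 1) [FiniteDimensional ℂ V]
    (h : ParQ E m θ ϑ P c ρ C₀ p M A) (hρρ : 64 * ρ ≤ ρ₀) (hL : 0 ≤ L)
    (hC₁ : 0 ≤ C₁) (K : Car (Fin N → ℂ) V) (cc : ι → Fin d → ℂ) (χ : ι → (Fin d → ℂ) → ℝ)
    (κ : ℝ) :
    ∃ (D : ℕ → ℝ) (C : ℝ), 0 < C ∧ (∀ r, 0 ≤ D r) ∧ ∀ (ν : Ptl E) (f : Fin N → E → ℂ)
      (u : Fin d → E → ℂ) (s : ι → E → Fin N → ℂ), Dat ν f u s cc χ M A p C₀ ρ₀ C₁ L →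
      ∀ (k : ℕ) (W : (r : ℕ) → E → E [⋀^Fin r]→L[ℝ] V),
      Good K ν f u s χ θ ϑ c ρ (ee m P) D k W →
      ∃ W' : (r : ℕ) → E → E [⋀^Fin r]→L[ℝ] V,
        Good K ν f u s χ θ ϑ c ρ (ee m P) D (k + 1) W' ∧ ∀ z : E, ‖z‖ < 1 → ∀ v : Fin 0 → E,
          ‖W' 0 z v‖ ≤ ‖XQ μ m ν u θ ϑ c ρ κ k z‖ * ‖W 0 z v‖ +
            C * (∑ j, ‖bq ν (u j) θ ϑ c ρ (k + 1) z - bq ν (u j) θ ϑ c ρ k z‖ +
              SQ ν θ ϑ k z) := by
  obtain ⟨CU, hCU, hUd⟩ := Ud_bd (N := N) h hρρ hL hC₁ hdim K cc χ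
  obtain ⟨CV, hCV, hU1⟩ := U_bd (N := N) h hρρ hL hC₁ K cc χ
  obtain ⟨CJ, hCJ, hJ⟩ := J_bd (N := N) h hρρ hL hC₁ hdim K cc χ
  obtain ⟨C0, hC0, hJ0⟩ := J0_bd (N := N) h hρρ hL hC₁ K cc χ
  obtain ⟨CX, hCX, hX⟩ := XQ_est μ hm hdim h d κ
  have hθ0 := h.θ0
  have hθ1 := h.θ1
  have hM := h.hM
  have hρ := h.hρ
  have hPp := h.Ppos
  have hP42 := h.P42
  have hee := h.ee_nonneg
  have hee3 := h.ee_le
  have hs7 := h.s_le'
  have hmul := h.mul_ee
  have hs0 : (0 : ℝ) < 4 / P := by positivity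
  obtain ⟨γ, hγ⟩ : ∃ γ : ℝ, γ = 1 - 4 / P - ee m P := ⟨_, rfl⟩
  have hγ1 : γ ≤ 1 := by rw [hγ]; linarith
  have hγ2 : 1 / 2 + 2 * (m + 2) / P ≤ γ := by
    rw [hγ]
    unfold ee
    have e1 : (1 : ℝ) - 4 / P - (4 * (m + 1) + 3) / P - (1 / 2 + 2 * (m + 2) / P) =
        1 / 2 - (6 * m + 15) / P := by field_simp; ring
    have e2 : (6 * m + 15) / P ≤ (1 / 2 : ℝ) := by
      rw [div_le_iff₀ hPp]
      linarith
    linarith
  obtain ⟨CD, hCD, hdesc⟩ := descent (E := E) μ hm hdim K h.h0 h.h1 h.hP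
    (show 4 ≤ P by have := h.hPm; omega) (c₀ := θ * (1 - θ) / 2) (by
      have : 0 < 1 - θ := by linarith
      positivity) hγ2 hγ1 (MF := N * M) (by positivity)
  obtain ⟨nc, hnc⟩ : ∃ nc, nc = ‖K.c‖ := ⟨_, rfl⟩
  have hnc0 : 0 ≤ nc := by rw [hnc]; exact norm_nonneg K.c
  obtain ⟨CΨ, hCΨ⟩ : ∃ CΨ, CΨ = 4 * (CU + nc * (N * ρ)) + CX * (CV + nc * (N * M)) := ⟨_, rfl⟩
  have hCΨ0 : 0 ≤ CΨ := by rw [hCΨ]; positivity
  obtain ⟨D, hDanti, hD0, hD⟩ := exists_D m (q := ϑ) (a := CJ) (b := 4 * CD * CΨ) h.h0 h.h1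
    hCJ.le (by positivity)
  refine ⟨D, C0 + 2 * (CD * (CΨ * (1 + D 1))), by have := hD0 1; positivity, hD0, ?_⟩
  intro ν f u s Da k W hW
  obtain ⟨hXd, hX1⟩ := hX ν u Da.hu Da.carl k
  obtain ⟨X, hXX⟩ : ∃ X, X = XQ μ m ν u θ ϑ c ρ κ k := ⟨_, rfl⟩
  rw [← hXX] at hXd hX1
  have hAC := RA_lt_RC hθ0 k
  have hAC' := RA_lt_RC hθ0 (k + 1)
  have hA1 : RA θ (k + 1) ≤ RA θ k := by
    have := RA_succ hθ0 hθ1 k
    have : 0 < 1 - θ := by linarith
    have : 0 < θ * (1 - θ) / 2 * θ ^ k := by positivity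
    linarith
  have hone : 1 < RA θ (k + 1) := (one_lt_RB hθ0 _).trans (RB_lt_RA hθ0 _)
  have hAL := RA_lt_RL hθ0 k
  obtain ⟨σ, hσ⟩ : ∃ σ, σ = sk χ ν u θ ϑ c ρ s k k := ⟨_, rfl⟩
  obtain ⟨σ', hσ'⟩ : ∃ σ, σ = sk χ ν u θ ϑ c ρ s k (k + 1) := ⟨_, rfl⟩
  obtain ⟨σ'', hσ''⟩ : ∃ σ, σ = sk χ ν u θ ϑ c ρ s (k + 1) (k + 1) := ⟨_, rfl⟩
  have sol : ∀ w : E, ‖w‖ < RC θ k → SolAt σ (FF f θ k) w := fun w hw => by
    rw [hσ]; exact sol_at h hρρ Da (Or.inl rfl) hw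
  have sol' : ∀ w : E, ‖w‖ < RC θ k → SolAt σ' (FF f θ (k + 1)) w := fun w hw => by
    rw [hσ']; exact sol_at h hρρ Da (Or.inr rfl) hw
  have sol'' : ∀ w : E, ‖w‖ < RC θ (k + 1) → SolAt σ'' (FF f θ (k + 1)) w := fun w hw => by
    rw [hσ'']; exact sol_at h hρρ Da (Or.inl rfl) hw
  have hXat : ∀ w : E, ‖w‖ < RL θ k → DifferentiableAt ℂ X w := fun w hw =>
    hXd.differentiableAt (isOpen_ball.mem_nhds (mem_ball_zero_iff.mpr hw))
  have hX1c : ∀ w : E, ‖w‖ < RL θ k → ContDiffAt ℝ 1 X w := fun w hw =>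
    (PT.holo_c1 isOpen_ball hXd).contDiffAt (isOpen_ball.mem_nhds (mem_ball_zero_iff.mpr hw))
  have hWat : ∀ r, ∀ w : E, ‖w‖ < RA θ k → ContDiffAt ℝ 1 (W r) w := fun r w hw =>
    (hW.c1 r).contDiffAt (isOpen_ball.mem_nhds (mem_ball_zero_iff.mpr hw))
  have hFc : ∀ l ≤ k + 1, ∀ w : E, ‖w‖ < RC θ k → ContDiffAt ℝ 1 (fun w => K.c (FF f θ l w)) w := by
    intro l hl w hw
    have h2 : ContDiffAt ℝ 1 (FF f θ l) w := (holo_c1' isOpen_ball (FF_diff h Da (k := k)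
      hl)).contDiffAt (isOpen_ball.mem_nhds (mem_ball_zero_iff.mpr hw))
    exact ((K.c.restrictScalars ℝ).contDiff.contDiffAt).comp w h2
  -- the norms of the operators
  have hFn : ∀ l ≤ k + 1, ∀ w : E, ‖w‖ < RC θ k → ‖K.c (FF f θ l w)‖ ≤ nc * (N * M) := by
    intro l hl w hw
    rw [hnc]
    exact (K.c.le_opNorm _).trans (mul_le_mul_of_nonneg_left (FF_norm h Da hl hw) (norm_nonneg _))
  have hFd : ∀ w : E, ‖w‖ < RC θ k → ‖K.c (FF f θ (k + 1) w - FF f θ k w)‖ ≤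
      nc * (N * ρ) * xk θ k w ^ (1 : ℝ) := by
    intro w hw
    rw [hnc, Real.rpow_one]
    refine (K.c.le_opNorm _).trans ?_
    rw [mul_assoc]
    exact mul_le_mul_of_nonneg_left (FF_sub h Da hw) (norm_nonneg _)
  -- the data of the descent
  obtain ⟨Ψ, hΨ⟩ : ∃ Ψ, Ψ = Ps K σ σ' (FF f θ k) (FF f θ (k + 1)) X W := ⟨_, rfl⟩
  have hPbc : ∀ r, ∀ w : E, ‖w‖ < RA θ k →
      ContDiffAt ℝ 1 (Pb K σ σ' (FF f θ k) (FF f θ (k + 1)) W r) w := by
    intro r w hw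
    have hwC := hw.trans hAC
    have h1 : ContDiffAt ℝ 1 (fun w => K.c (FF f θ (k + 1) w - FF f θ k w)) w := by
      have := (hFc (k + 1) le_rfl w hwC).sub (hFc k (by omega) w hwC)
      simpa only [← map_sub] using this
    exact ((UU_c1 K (sol' w hwC).c2 r).sub (UU_c1 K (sol w hwC).c2 r)).sub
      (opc_c1 h1 (hWat r w hw))
  have hPtc : ∀ w : E, ‖w‖ < RA θ k → ContDiffAt ℝ 1 (Pt K σ (FF f θ k) W) w := by
    intro w hw
    have hwC := hw.trans hAC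
    exact (UU_c1 K (sol w hwC).c2 1).sub (opc_c1 (hFc k (by omega) w hwC) (hWat 1 w hw))
  have hPba : ∀ r, ∀ w : E, ‖w‖ < RA θ k →
      Anti (Pb K σ σ' (FF f θ k) (FF f θ (k + 1)) W r w) := fun r w hw =>
    ((Anti.UU K σ' w r).sub (Anti.UU K σ w r)).sub
      ((hW.anti r w (mem_ball_zero_iff.mpr hw)).opc _)
  have hPta : ∀ w : E, ‖w‖ < RA θ k → Anti (Pt K σ (FF f θ k) W w) := fun w hw =>
    (Anti.UU K σ w 1).sub ((hW.anti 1 w (mem_ball_zero_iff.mpr hw)).opc _)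
  have hPbb : ∀ r, Bd ν θ ϑ k (RA θ k) (4 * (CU + nc * (N * ρ) * D (r + 1))) γ
      (Pb K σ σ' (FF f θ k) (FF f θ (k + 1)) W (r + 1)) := by
    intro r
    have b1 := (hUd ν f u s Da k r).ball hAC.le
    rw [← hσ, ← hσ'] at b1
    have b2 := Bd.opc hθ0 hθ1 h.h0 hAC.le (hD0 (r + 1)) (hW.bd r)
      (G := fun w => K.c (FF f θ (k + 1) w - FF f θ k w)) (fun w hw => hFd w (hw.trans hAC))
    rw [show -ee m P + 1 = 1 - ee m P by ring] at b2
    have b3 := b1.sub b2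
    have b4 := Bd.exp hθ0 hθ1 h.h0 hAC.le (by have := hD0 (r + 1); positivity) b3
      (γ' := γ) (by rw [hγ]; linarith)
    refine Bd.mono hθ0 hθ1 h.h0 hAC.le b4 ?_
    apply mul_le_mul_of_nonneg_right _ (by have := hD0 (r + 1); positivity)
    calc (4 : ℝ) ^ (1 - ee m P - γ) ≤ (4 : ℝ) ^ (1 : ℝ) :=
          Real.rpow_le_rpow_of_exponent_le (by norm_num) (by rw [hγ]; linarith)
      _ = 4 := Real.rpow_one _
  have hB : ∀ r, Bd ν θ ϑ k (RA θ k) (CΨ * (1 + D (r + 1))) γ (Ψ (r + 1)) := by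
    intro r
    have hDr := hD0 (r + 1)
    rcases r with _ | r
    · have b1 := hPbb 0
      have b2 := (hU1 ν f u s Da k).ball hAC.le
      rw [← hσ] at b2
      have b3 := Bd.opc hθ0 hθ1 h.h0 hAC.le (hD0 1) (hW.bd 0)
        (G := fun w => K.c (FF f θ k w)) (a := nc * (N * M)) (t := 0)
        (fun w hw => by rw [Real.rpow_zero, mul_one]; exact hFn k (by omega) w (hw.trans hAC))
      rw [show -ee m P + 0 = -ee m P by ring] at b3
      have b4 := b2.sub b3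
      have b5 := Bd.smul hθ0 hθ1 h.h0 hAC.le (by have := hD0 1; positivity) b4
        (X := fun w => 1 - X w) (a := CX) (t := 1 - 4 / P)
        (fun w hw => by rw [norm_sub_rev]; exact hX1 w hw.le)
      rw [show -ee m P + (1 - 4 / P) = γ by rw [hγ]; ring] at b5
      have b6 := b1.add b5
      rw [hΨ]
      refine Bd.mono hθ0 hθ1 h.h0 hAC.le b6 ?_
      rw [hCΨ]
      have n1 : 0 ≤ nc * (N * ρ) := by positivity
      have n2 : 0 ≤ CX * (nc * (N * M)) := by positivity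
      have n3 : 0 ≤ CX * CV := by positivity
      simp only [zero_add] at hDr ⊢
      linarith only [mul_nonneg n1 hDr, mul_nonneg n2 hDr, mul_nonneg n3 hDr,
        mul_nonneg hCU.le hDr, n1, n2, n3, hCU.le, hDr]
    · have b1 := hPbb (r + 1)
      rw [hΨ]
      refine Bd.mono hθ0 hθ1 h.h0 hAC.le b1 ?_
      rw [hCΨ]
      have n1 : 0 ≤ nc * (N * ρ) := by positivity
      have n2 : 0 ≤ CX * (CV + nc * (N * M)) := by positivity
      linarith only [mul_nonneg n1 hDr, mul_nonneg n2 hDr, mul_nonneg hCU.le hDr, n1, n2,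
        hCU.le, hDr]
  obtain ⟨S, hS⟩ := hdesc ν A Da.carl k (RA θ k) (RA θ (k + 1)) (fun r => CΨ * (1 + D r))
    (FF f θ (k + 1)) Ψ hone.le (RA_succ hθ0 hθ1 k).le hAC.le
    (fun r r' hrr => by
      have := hDanti hrr
      simp only []
      gcongr)
    (fun r => by have := hD0 r; positivity)
    ((FF_diff h Da (k := k) le_rfl).mono (ball_subset_ball hAC.le))
    (fun w hw => FF_norm h Da (k := k) le_rfl ((mem_ball_zero_iff.mp hw).trans hAC))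
    (by
      intro r hr
      obtain ⟨r, rfl⟩ : ∃ r', r = r' + 1 := ⟨r - 1, by omega⟩
      refine ⟨?_, ?_, ?_, hB r⟩
      · intro w hw
        have hwA := mem_ball_zero_iff.mp hw
        apply ContDiffAt.contDiffWithinAt
        rw [hΨ]
        rcases r with _ | r
        · have hX2 : ContDiffAt ℝ 1 (fun w => 1 - X w) w :=
            contDiffAt_const.sub (hX1c w (hwA.trans hAL))
          exact (hPbc 1 w hwA).add (hX2.smul (hPtc w hwA))
        · exact hPbc (r + 2) w hwA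
      · intro w hw
        have hwA := mem_ball_zero_iff.mp hw
        rw [hΨ]
        rcases r with _ | r
        · exact (hPba 1 w hwA).add ((hPta w hwA).smul _)
        · exact hPba (r + 2) w hwA
      · intro w hw
        have hwA := mem_ball_zero_iff.mp hw
        have hwC := hwA.trans hAC
        rw [hΨ]
        refine Ps_closed K (sol w hwC) (sol' w hwC) (hXat w (hwA.trans hAL))
          (fun r => (hWat r w hwA).differentiableAt (by norm_num)) ?_ r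
        intro r
        have := hW.eq r w hw
        rw [← hσ] at this
        exact this)
  -- the new forms
  have hSat : ∀ r, ∀ w : E, ‖w‖ < RA θ (k + 1) → ContDiffAt ℝ 1 (S r) w := fun r w hw =>
    (hS r).1.contDiffAt (isOpen_ball.mem_nhds (mem_ball_zero_iff.mpr hw))
  have hfac : (ϑ : ℝ) ^ ((P : ℝ) * ee m P - 2) ≤ ϑ := by
    calc (ϑ : ℝ) ^ ((P : ℝ) * ee m P - 2) ≤ ϑ ^ (1 : ℝ) := by
          apply Real.rpow_le_rpow_of_exponent_ge h.h0 h.h1.le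
          rw [hmul]
          have : (0 : ℝ) ≤ m := Nat.cast_nonneg m
          linarith
      _ = ϑ := Real.rpow_one _
  have hP2 : 2 ≤ (P : ℝ) * ee m P := by
    rw [hmul]
    have : (0 : ℝ) ≤ m := Nat.cast_nonneg m
    linarith
  refine ⟨Wn K σ' σ'' X W S, ⟨?_, ?_, ?_, ?_⟩, ?_⟩
  · intro r w hw
    have hw1 := mem_ball_zero_iff.mp hw
    have hwA := hw1.trans_le hA1
    have hwC := hwA.trans hAC
    apply ContDiffAt.contDiffWithinAt
    have hJc := JJ_c1 K (sol' w hwC).c2 (sol'' w (hw1.trans hAC')).c2 r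
    rcases r with _ | r
    · exact (((hX1c w (hwA.trans hAL)).smul (hWat 0 w hwA)).add hJc).add (hSat 0 w hw1)
    · exact ((hWat _ w hwA).add hJc).add (hSat _ w hw1)
  · intro r w hw
    have hw1 := mem_ball_zero_iff.mp hw
    have hwA := hw1.trans_le hA1
    have a1 := hW.anti r w (mem_ball_zero_iff.mpr hwA)
    have a2 := Anti.JJ K σ' σ'' w r
    have a3 := (hS r).2.1 w hw
    rcases r with _ | r
    · exact ((a1.smul _).add a2).add a3
    · exact (a1.add a2).add a3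
  · intro r w hw
    have hw1 := mem_ball_zero_iff.mp hw
    have hwA := hw1.trans_le hA1
    have hwC := hwA.trans hAC
    have := Wn_eq K (σ := σ) (F := FF f θ k) (sol' w hwC) (sol'' w (hw1.trans hAC'))
      (hXat w (hwA.trans hAL)) (fun r => (hWat r w hwA).differentiableAt (by norm_num))
      (fun r => (hSat r w hw1).differentiableAt (by norm_num))
      (fun r => by
        have := hW.eq r w (mem_ball_zero_iff.mpr hwA)
        rw [← hσ] at this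
        exact this)
      (fun r => by
        have := (hS r).2.2.1 w hw
        rw [hΨ] at this
        exact this) r
    rw [this, hσ'']
  · intro r
    rcases le_or_gt r m with hr | hr
    · have c1 := Bd.level h.h0 h.h1 h.hP hP2 (by linarith) hAC'.le (hD0 (r + 1))
        ((hW.bd r).ball hA1)
      have c1' := Bd.mono hθ0 hθ1 h.h0 hAC'.le c1
        (mul_le_mul_of_nonneg_right hfac (hD0 (r + 1)))
      have c2 := (hJ ν f u s Da k r).ball hAC'.le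
      rw [← hσ', ← hσ''] at c2
      have hB0 : 0 ≤ CΨ * (1 + D (r + 2)) := by have := hD0 (r + 2); positivity
      have hCB : 0 ≤ CD * (CΨ * (1 + D (r + 2))) := by positivity
      have c3 := Bd.exp hθ0 hθ1 h.h0 (hA1.trans hAC.le) hCB ((hS (r + 1)).2.2.2)
        (γ' := -ee m P) (by linarith)
      have c3' := Bd.mono hθ0 hθ1 h.h0 (hA1.trans hAC.le) c3
        (B' := 4 * (CD * (CΨ * (1 + D (r + 2))))) (by
          apply mul_le_mul_of_nonneg_right _ hCB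
          calc (4 : ℝ) ^ (1 / 2 - -ee m P) ≤ (4 : ℝ) ^ (1 : ℝ) :=
                Real.rpow_le_rpow_of_exponent_le (by norm_num) (by linarith)
            _ = 4 := Real.rpow_one _)
      have c4 := Bd.level h.h0 h.h1 h.hP hP2 (by linarith) hAC'.le (by positivity) c3'
      have c4' := Bd.mono hθ0 hθ1 h.h0 hAC'.le c4
        (B' := 4 * (CD * (CΨ * (1 + D (r + 2))))) (by
          calc _ ≤ ϑ * (4 * (CD * (CΨ * (1 + D (r + 2))))) :=
                mul_le_mul_of_nonneg_right hfac (by positivity)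
            _ ≤ 1 * (4 * (CD * (CΨ * (1 + D (r + 2))))) :=
                mul_le_mul_of_nonneg_right h.h1.le (by positivity)
            _ = _ := one_mul _)
      have c5 := (c1'.add c2).add c4'
      refine Bd.mono hθ0 hθ1 h.h0 hAC'.le c5 ?_
      have := hD r hr
      linarith
    · apply (Bd.zero hθ0 hθ1 h.h0 hAC'.le (hD0 (r + 1))).congr
      intro w hw
      have hwA := hw.trans_le hA1
      apply Anti.eq_zero (by rw [hdim]; omega)
      exact ((hW.anti (r + 1) w (mem_ball_zero_iff.mpr hwA)).add (Anti.JJ K σ' σ'' w (r + 1))).add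
        ((hS (r + 1)).2.1 w (mem_ball_zero_iff.mpr hw))
  · intro z hz v
    have hz1 : ‖z‖ < RA θ (k + 1) := hz.trans hone
    have hzC : ‖z‖ < RC θ k := (hz1.trans_le hA1).trans hAC
    have d1 := hJ0 ν f u s Da k z (hz1.trans hAC') v
    rw [← hσ', ← hσ''] at d1
    have d2 := (hS 0).2.2.2 z hz1 v
    rw [Finset.univ_eq_empty, Finset.prod_empty, mul_one] at d2
    have hSQ := SQ_nonneg (θ := θ) h.h0 ν k z
    have hx := xk_pos hθ0 hθ1 hzC
    have hx4 := xk_le hθ0 hθ1 hzC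
    have d3 : xk θ k z ^ (1 / 2 : ℝ) ≤ 2 := by
      rw [← Real.sqrt_eq_rpow]
      calc Real.sqrt (xk θ k z) ≤ Real.sqrt 4 := Real.sqrt_le_sqrt hx4
        _ = 2 := by rw [show (4 : ℝ) = 2 ^ 2 by norm_num, Real.sqrt_sq (by norm_num)]
    have hD1 := hD0 1
    have d4 : ‖S 0 z v‖ ≤ 2 * (CD * (CΨ * (1 + D 1))) * SQ ν θ ϑ k z := by
      refine d2.trans ?_
      simp only [zero_add]
      calc CD * (CΨ * (1 + D 1)) * xk θ k z ^ (1 / 2 : ℝ) * SQ ν θ ϑ k z ≤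
          CD * (CΨ * (1 + D 1)) * 2 * SQ ν θ ϑ k z := by gcongr
        _ = _ := by ring
    have e1 : Wn K σ' σ'' X W S 0 z v = X z • W 0 z v + JJ K σ' σ'' 0 z v + S 0 z v := rfl
    rw [e1, ← hXX]
    have hsum : 0 ≤ ∑ j, ‖bq ν (u j) θ ϑ c ρ (k + 1) z - bq ν (u j) θ ϑ c ρ k z‖ := by positivity
    have n1 : 0 ≤ 2 * (CD * (CΨ * (1 + D 1))) := by positivity
    calc _ ≤ ‖X z • W 0 z v‖ + ‖JJ K σ' σ'' 0 z v‖ + ‖S 0 z v‖ := norm_add₃_le
      _ ≤ ‖X z‖ * ‖W 0 z v‖ + C0 * ∑ j, ‖bq ν (u j) θ ϑ c ρ (k + 1) z -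
          bq ν (u j) θ ϑ c ρ k z‖ + 2 * (CD * (CΨ * (1 + D 1))) * SQ ν θ ϑ k z := by
          rw [norm_smul]
          gcongr
      _ ≤ _ := by linarith only [mul_nonneg n1 hsum, mul_nonneg hC0.le hSQ]

end Pool.Agent.MPca0fc2.MX.Q
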