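import Mathlib
import Pool.Agent.Lib.MP_ca0fc2_an.MXQTX7
import Pool.Agent.Lib.MP_ca0fc2_an.Mg.G055
import Pool.Agent.Lib.MP_ca0fc2_an.QTLim
import Pool.Agent.Lib.MP_ca0fc2_an.Mg.G059

set_option autoImplicit false

open Metric Set MeasureTheory Filter Topology

open scoped InnerProductSpace ENNReal

namespace Pool.Agent.MPca0fc2.MX.Q

open Pool.Agent.MPca0fc2.PT Pool.Agent.MPca0fc2.QT

open Pool.Agent.Lib.MP_ca0fc2_an

variable {E : Type*} [NormedAddCommGroup E] [InnerProductSpace ℂ E]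

variable [FiniteDimensional ℂ E] [MeasurableSpace E] [BorelSpace E]

/-- the choice of the parameters -/
theorem exists_parQ (m : ℕ) {p ρ M C₀ : ℝ} (A : ℝ) (hp : 1 ≤ p) (hρ : 0 < ρ)
    (hρM : ρ ≤ M) (hM : 1 ≤ M) (hC₀ : 0 < C₀) :
    ∃ (θ ϑ : ℝ) (P : ℕ) (c : ℝ), ParQ E m θ ϑ P c ρ C₀ p M A := by
  obtain ⟨η, hη⟩ : ∃ η, η = min (1 / 2) (ρ / (8000 * M)) := ⟨_, rfl⟩
  have hη0 : 0 < η := by rw [hη]; positivity
  have hη1 : η ≤ 1 / 2 := by rw [hη]; exact min_le_left _ _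
  have hη2 : η ≤ ρ / (8000 * M) := by rw [hη]; exact min_le_right _ _
  obtain ⟨P, hP⟩ : ∃ P : ℕ, P = 12 * (m + 1) + 18 := ⟨_, rfl⟩
  have hP0 : P ≠ 0 := by omega
  have hPp : (0 : ℝ) < P := by positivity
  obtain ⟨ϑ, hϑ⟩ : ∃ ϑ : ℝ, ϑ = (1 - η) ^ (((P : ℕ) : ℝ)⁻¹) := ⟨_, rfl⟩
  have h1η : 0 < 1 - η := by linarith
  have hpow : ϑ ^ P = 1 - η := by
    rw [hϑ]; exact Real.rpow_inv_natCast_pow h1η.le hP0
  have hϑ0 : 0 < ϑ := by rw [hϑ]; exact Real.rpow_pos_of_pos h1η _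
  have hϑ1 : ϑ < 1 := by
    rw [hϑ]; exact Real.rpow_lt_one h1η.le (by linarith) (by positivity)
  have hθ0 : (0 : ℝ) < 1 - η := h1η
  have hθ1 : (1 : ℝ) - η < 1 := by linarith
  obtain ⟨c, hc0, hc1, hc⟩ := vq_close (E := E) hθ0 hθ1 hϑ0 hϑ1 hC₀ hp (half_pos hρ)
  refine ⟨1 - η, ϑ, P, c, ⟨hϑ0, hϑ1, hpow.symm, hP.ge, hC₀, hp, hc0, hc1, hρ, hρM, hM, ?_, ?_⟩⟩
  · have h2 : 2000 * M / (1 - η) * (1 - (1 - η)) = 2000 * M * η / (1 - η) := by ring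
    rw [h2, div_le_iff₀ h1η]
    have h3 : 2000 * M * η ≤ ρ / 4 := by
      calc 2000 * M * η ≤ 2000 * M * (ρ / (8000 * M)) := by gcongr
        _ = ρ / 4 := by field_simp; ring
    nlinarith
  · intro ν u hu k w hw
    exact hc ν u M A hu k w hw

/-- Localization: the data are arbitrary, and the invariant gradients of the functions `u_1, ..., u_d`
are dominated by the local potential of a Carleson measure. -/
theorem Q_gen {m : ℕ} (hm : 1 ≤ m) (hdim : Module.finrank ℂ E = m + 1) (N d : ℕ)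
    {M A p C₀ ρ₀ C₁ : ℝ} (hp : 1 ≤ p) (hρ₀ : 0 < ρ₀) (hC₀ : 0 < C₀) :
    ∃ C : ℝ, ∀ (f : Fin N → E → ℂ) (u : Fin d → E → ℂ) (ν : Ptl E),
      (∀ j, DifferentiableOn ℂ (f j) (ball 0 1)) → (∀ j, ∀ z ∈ ball (0 : E) 1, ‖f j z‖ ≤ M) →
      (∀ j, DifferentiableOn ℂ (u j) (ball 0 1)) → (∀ j, ∀ z ∈ ball (0 : E) 1, ‖u j z‖ ≤ M) →
      Carl ν A →
      (∀ j, ∀ y : E, ‖y‖ < 1 → ∀ X : E,
        ‖fderiv ℂ (u j) y X‖ ≤ C₀ * EE ν y ^ (1 / p) * gau (1 - ‖y‖ ^ 2) y X) →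
      (∀ c : Fin d → ℂ,
        SolvableOn f {z | z ∈ ball (0 : E) 1 ∧ ∀ j, ‖u j z - c j‖ < ρ₀} C₁) →
      SolvableOn f (ball 0 1) C := by
  obtain ⟨M₁, hM₁⟩ : ∃ M₁, M₁ = max M 1 := ⟨_, rfl⟩
  have hM1 : 1 ≤ M₁ := by rw [hM₁]; exact le_max_right _ _
  have hMM : M ≤ M₁ := by rw [hM₁]; exact le_max_left _ _
  obtain ⟨ρ, hρ⟩ : ∃ ρ, ρ = min ρ₀ 1 / 64 := ⟨_, rfl⟩
  have hρ0 : 0 < ρ := by rw [hρ]; positivity
  have hρ1 : ρ ≤ 1 / 64 := by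
    rw [hρ]
    have := min_le_right ρ₀ 1
    linarith
  have hρ2 : 64 * ρ ≤ ρ₀ := by
    rw [hρ]
    have := min_le_left ρ₀ 1
    linarith
  obtain ⟨θ, ϑ, P, c, hpar⟩ := exists_parQ (E := E) m A hp hρ0 (by linarith) hM1 hC₀
  obtain ⟨ι, hι, cc, χ, L, hL, k1, k2, k3, k4, k5, k6⟩ := exists_part d (5 * M₁) (ρ₀ / 8)
    (by positivity)
  obtain ⟨V, iV1, iV2, iV3, ⟨K⟩⟩ := exists_car N
  obtain ⟨C, hC, hlev⟩ := level_Q (V := V) (MeasureTheory.Measure.addHaar : Measure E) hm hdim hpar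
    hρ2 hL (abs_nonneg C₁) K cc χ
  refine ⟨C, ?_⟩
  intro f u ν hf hfM hu huM hcarl hgr hloc
  have hloc' := fun i => hloc (cc i)
  choose s hs hsb hsf using hloc'
  have Da : Dat ν f u (fun i z j => s i j z) cc χ M₁ A p C₀ ρ₀ |C₁| L := by
    refine ⟨abs_nonneg _, hρ₀, hcarl, ?_, hf, ?_, ?_, ?_, ?_, ?_, ?_⟩
    · intro j
      exact ⟨hp, hM1, hC₀, hu j, fun z hz => (huM j z hz).trans hMM, hcarl, hgr j⟩
    · intro j z hz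
      exact (hfM j z hz).trans hMM
    · intro i
      rw [differentiableOn_pi]
      exact fun j => hs i j
    · intro i z hz hz2
      rw [pi_norm_le_iff_of_nonneg (abs_nonneg _)]
      intro j
      exact (hsb i j z ⟨hz, hz2⟩).trans (le_abs_self _)
    · intro i z hz hz2
      exact hsf i z ⟨hz, hz2⟩
    · exact ⟨hL, k1, k2, k3, k5, k6⟩
    · exact k4
  exact limit_N hpar.θ0 hpar.θ1 hC hf (fun n => hlev ν f u _ Da n)

end Pool.Agent.MPca0fc2.MX.Q
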