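import Mathlib
import Pool.Agent.Lib.MP_ca0fc2_an.MXAdd
import Pool.Agent.Lib.MP_ca0fc2_an.MXBlockA
import Pool.Agent.Lib.MP_ca0fc2_an.MXQTX8

set_option autoImplicit false

open Metric Set MeasureTheory Filter Topology
open scoped InnerProductSpace ENNReal

namespace Pool.Agent.MPca0fc2.MX

open Pool.Agent.MPca0fc2.PT
open Pool.Agent.MPca0fc2.VL (Mod half_mem)
open Pool.Agent.Lib.MP_ca0fc2_an

/-- The solution on a truncated tent. -/
theorem block_sol (E : Type*) [NormedAddCommGroup E] [InnerProductSpace ℂ E]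
    [FiniteDimensional ℂ E] (hdim : 2 ≤ Module.finrank ℂ E) (N : ℕ) (M δ A p : ℝ) (hδ : 0 < δ)
    (hp : 4 ≤ p) :
    ∃ C Λ : ℝ, 0 ≤ C ∧ 1 ≤ Λ ∧ ∀ (F : Fin (N + 1) → E → ℂ) (ν : Ptl E) (r R : ℝ) (a : E),
      (∀ j, DifferentiableOn ℂ (F j) (ball 0 1)) →
      (∀ j, ∀ z ∈ ball (0 : E) 1, ‖F j z‖ ≤ M) →
      (∀ z ∈ ball (0 : E) 1, δ ≤ ∑ j, ‖F j z‖ ^ 2) →
      Carl ν A → 0 < r → r < 1 → ‖a‖ = 1 → 1 - r ≤ R →
      (∀ j : Fin N, ∀ y : E, ‖y‖ < r → 1 - ‖y‖ ≤ Λ * R → ∀ X : E,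
        ‖fderiv ℂ (F j.succ) y X‖ ≤ 3 * EE ν y ^ (1 / p) * gau (1 - ‖y‖ ^ 2) y X) →
      SolvableOn F {z | ‖z‖ < r ∧ ‖1 - ⟪a, z⟫_ℂ‖ < R} C := by
  classical
  rcases lt_or_ge M 0 with hM | hM
  · refine ⟨0, 1, le_rfl, le_rfl, ?_⟩
    intro F ν r R a hF hFM
    exact absurd ((norm_nonneg _).trans (hFM 0 0 (mem_ball_self one_pos))) (not_le.mpr hM)
  obtain ⟨m, hdim'⟩ : ∃ m, Module.finrank ℂ E = m + 1 := ⟨Module.finrank ℂ E - 1, by omega⟩
  have hm : 1 ≤ m := by omega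
  let _ : MeasurableSpace E := borel E
  have _ : BorelSpace E := ⟨rfl⟩
  obtain ⟨ρ, hρ⟩ : ∃ ρ : ℝ, ρ = min 1 (√(δ / (9 * N + 1))) := ⟨_, rfl⟩
  have hN0 : (0 : ℝ) < 9 * N + 1 := by positivity
  have hρ' : 0 < √(δ / (9 * N + 1)) := Real.sqrt_pos.mpr (by positivity)
  have hρ0 : 0 < ρ := by rw [hρ]; exact lt_min one_pos hρ'
  have hρ1 : ρ ≤ 1 := by rw [hρ]; exact min_le_left _ _
  have hρδ : (9 * N + 1) * ρ ^ 2 ≤ δ := by
    have h1 : ρ ^ 2 ≤ √(δ / (9 * N + 1)) ^ 2 := by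
      apply pow_le_pow_left₀ hρ0.le
      rw [hρ]; exact min_le_right _ _
    rw [Real.sq_sqrt (by positivity)] at h1
    calc (9 * N + 1) * ρ ^ 2 ≤ (9 * N + 1) * (δ / (9 * N + 1)) := by gcongr
      _ = δ := by field_simp
  obtain ⟨C₀, hC₀⟩ : ∃ C₀ : ℝ, C₀ = 6 + 4 * (10 ^ 7 * (2 * M + 1)) + 2 * M := ⟨_, rfl⟩
  have hC₀0 : 0 < C₀ := by rw [hC₀]; positivity
  obtain ⟨CQ, hCQ⟩ := Q.Q_gen (E := E) hm hdim' (N + 2) (N + 1) (M := M + 2) (A := A + 1 + 1)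
    (p := p) (C₀ := C₀) (ρ₀ := ρ / (4 * (M + 1))) (C₁ := 4 + 1 / ρ) (by linarith) (by positivity)
    hC₀0
  obtain ⟨lam, hlam⟩ : ∃ lam : ℝ, lam = 4 * (|CQ| + 1) := ⟨_, rfl⟩
  have hQ0 := abs_nonneg CQ
  have hlam4 : 4 ≤ lam := by rw [hlam]; linarith
  refine ⟨2 * |CQ|, lam + 1, by positivity, by linarith, ?_⟩
  intro F ν r R a hF hFM hFδ hν hr0 hr1 ha hrR hgr
  have hR0 : 0 < R := by linarith
  obtain ⟨R₁, hR₁⟩ : ∃ R₁, R₁ = lam * R := ⟨_, rfl⟩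
  have hR₁0 : 0 < R₁ := by rw [hR₁]; positivity
  have hmap : ∀ z ∈ ball (0 : E) 1, (r : ℂ) • z ∈ ball (0 : E) 1 := by
    intro z hz
    rw [mem_ball_zero_iff] at hz ⊢
    rw [norm_smul, Complex.norm_real, Real.norm_of_nonneg hr0.le]
    exact lt_of_le_of_lt (mul_le_of_le_one_left (norm_nonneg z) hr1.le) hz
  have hdil : Differentiable ℂ fun z : E => (r : ℂ) • z := differentiable_id.const_smul (r : ℂ)
  -- the dilated data
  obtain ⟨G, hG⟩ : ∃ G : Fin (N + 1) → E → ℂ, G = fun j z => F j ((r : ℂ) • z) := ⟨_, rfl⟩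
  have hGd : ∀ j, DifferentiableOn ℂ (G j) (ball 0 1) := by
    intro j
    rw [hG]
    exact (hF j).comp hdil.differentiableOn hmap
  have hGM : ∀ j, ∀ z ∈ ball (0 : E) 1, ‖G j z‖ ≤ M := by
    intro j z hz
    rw [hG]
    exact hFM j _ (hmap z hz)
  have hGδ : ∀ z ∈ ball (0 : E) 1, δ ≤ ∑ j, ‖G j z‖ ^ 2 := by
    intro z hz
    rw [hG]
    exact hFδ _ (hmap z hz)
  have hGg : ∀ j : Fin N, ∀ z : E, ‖z‖ < 1 → ∀ X : E, R₁ ≤ 1 - ‖z‖ ∨
      ‖fderiv ℂ (G j.succ) z X‖ ≤ 6 * EE ν z ^ (1 / p) * gau (1 - ‖z‖ ^ 2) z X := by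
    intro j z hz X
    by_cases hfar : R₁ ≤ 1 - ‖z‖
    · exact Or.inl hfar
    right
    push Not at hfar
    have hrz : ‖(r : ℂ) • z‖ = r * ‖z‖ := by
      rw [norm_smul, Complex.norm_real, Real.norm_of_nonneg hr0.le]
    have h1 : 1 - ‖(r : ℂ) • z‖ ≤ (lam + 1) * R := by
      rw [hrz]
      have : (1 - r) * ‖z‖ ≤ R :=
        (mul_le_of_le_one_right (by linarith only [hr1]) hz.le).trans hrR
      rw [hR₁] at hfar
      linarith only [this, hfar]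
    have h2 : ‖(r : ℂ) • z‖ < r := by
      rw [hrz]
      exact mul_lt_of_lt_one_right hr0 hz
    have h3 := hgr j _ h2 h1 ((r : ℂ) • X)
    have e1 : fderiv ℂ (G j.succ) z X = fderiv ℂ (F j.succ) ((r : ℂ) • z) ((r : ℂ) • X) := by
      rw [hG]
      have d1 : DifferentiableAt ℂ (F j.succ) ((r : ℂ) • z) :=
        (hF j.succ).differentiableAt (isOpen_ball.mem_nhds (hmap z (mem_ball_zero_iff.mpr hz)))
      have d2 : HasFDerivAt (fun z : E => (r : ℂ) • z) ((r : ℂ) • ContinuousLinearMap.id ℂ E) z :=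
        (hasFDerivAt_id z).const_smul (r : ℂ)
      have d3 := (d1.hasFDerivAt.comp z d2).fderiv
      have e : (F j.succ ∘ fun z : E => (r : ℂ) • z) = fun z => F j.succ ((r : ℂ) • z) := rfl
      rw [e] at d3
      rw [d3]
      simp
    rw [e1]
    calc _ ≤ 3 * EE ν ((r : ℂ) • z) ^ (1 / p) *
          gau (1 - ‖(r : ℂ) • z‖ ^ 2) ((r : ℂ) • z) ((r : ℂ) • X) := h3
      _ = 3 * (EE ν ((r : ℂ) • z) ^ (1 / p) *
          gau (1 - ‖(r : ℂ) • z‖ ^ 2) ((r : ℂ) • z) ((r : ℂ) • X)) := by ring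
      _ ≤ 3 * (2 * EE ν z ^ (1 / p) * gau (1 - ‖z‖ ^ 2) z X) := by
          exact mul_le_mul_of_nonneg_left (dil_pot hν hp hr0.le hr1.le hz X) (by norm_num)
      _ = _ := by ring
  -- the localization
  have hφd := phi_diff (E := E) ha hR₁0
  have hsol : SolvableOn (Fin.cons (fun z => 1 - phi a R₁ z) G : Fin (N + 2) → E → ℂ)
      (ball 0 1) CQ := by
    apply hCQ _ (Fin.cons (phi a R₁) (fun j : Fin N => fun z => phi a R₁ z * G j.succ z) :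
      Fin (N + 1) → E → ℂ) ((ν.add (rad E R₁)).add (dir (cen a R₁)))
    · intro j
      refine Fin.cases ?_ (fun i => ?_) j
      · rw [Fin.cons_zero]
        exact (differentiableOn_const _).sub hφd
      · rw [Fin.cons_succ]
        exact hGd i
    · intro j z hz
      refine Fin.cases ?_ (fun i => ?_) j
      · rw [Fin.cons_zero]
        have h1 := phi_le_one ha hR₁0 (mem_ball_zero_iff.mp hz)
        have h2 := norm_sub_le (1 : ℂ) (phi a R₁ z)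
        rw [norm_one] at h2
        linarith
      · rw [Fin.cons_succ]
        have := hGM i z hz
        linarith
    · intro j
      refine Fin.cases ?_ (fun i => ?_) j
      · rw [Fin.cons_zero]
        exact hφd
      · rw [Fin.cons_succ]
        exact hφd.mul (hGd _)
    · intro j z hz
      have h1 := phi_le_one ha hR₁0 (mem_ball_zero_iff.mp hz)
      refine Fin.cases ?_ (fun i => ?_) j
      · rw [Fin.cons_zero]
        linarith
      · rw [Fin.cons_succ]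
        have h2 := hGM i.succ z hz
        rw [norm_mul]
        exact (mul_le_of_le_one_left (norm_nonneg _) h1).trans (by linarith only [h2])
    · exact (hν.add (Carl.rad hR₁0)).add (Carl.dir (cen_mem ha hR₁0))
    · intro j y hy X
      have hE : EE ((ν.add (rad E R₁)).add (dir (cen a R₁))) y =
          EE ν y + EE (rad E R₁) y + PT.HH y (cen a R₁) ^ 2 := by
        rw [add_EE, add_EE, dir_EE]
      rw [hE]
      have hg0 : 0 ≤ gau (1 - ‖y‖ ^ 2) y X :=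
        PT.gau_nonneg (by nlinarith only [norm_nonneg y, hy]) y X
      refine Fin.cases ?_ (fun i => ?_) j
      · rw [Fin.cons_zero]
        refine (phi_grad ha hR₁0 hy hp X).trans ?_
        have h1 := EE_nonneg ν y
        have h2 := EE_nonneg (rad E R₁) y
        have h3 : (2 : ℝ) ≤ C₀ := by rw [hC₀]; linarith
        have h4 : PT.HH y (cen a R₁) ^ 2 ≤ EE ν y + EE (rad E R₁) y + PT.HH y (cen a R₁) ^ 2 := by
          linarith
        have hp0 : 0 < p := by linarith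
        gcongr
      · rw [Fin.cons_succ, hC₀]
        exact prod_grad (hGd i.succ) hM (hGM i.succ) ha hR₁0 hy hp (EE_nonneg ν y) X
          (hGg i y hy X)
    · intro c
      exact block_cells hM hρ0 hρ1 hρδ hGd hGM hGδ hφd c
  obtain ⟨h, h1, h2, h3⟩ := hsol
  -- division by `1 - (1 - phi) h₀`
  have hrc : (r : ℂ) ≠ 0 := by exact_mod_cast hr0.ne'
  obtain ⟨D, hD⟩ : ∃ D : Set E, D = {z | ‖z‖ < r ∧ ‖1 - ⟪a, z⟫_ℂ‖ < R} := ⟨_, rfl⟩
  rw [← hD]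
  have hDz : ∀ ζ ∈ D, ((r⁻¹ : ℝ) : ℂ) • ζ ∈ ball (0 : E) 1 ∧
      ‖(1 - phi a R₁ (((r⁻¹ : ℝ) : ℂ) • ζ)) * h 0 (((r⁻¹ : ℝ) : ℂ) • ζ)‖ ≤ 1 / 2 := by
    intro ζ hζ
    rw [hD] at hζ
    obtain ⟨g1, g2⟩ := hζ
    have hn : ‖((r⁻¹ : ℝ) : ℂ) • ζ‖ = r⁻¹ * ‖ζ‖ := by
      rw [norm_smul, Complex.norm_real, Real.norm_of_nonneg (by positivity)]
    have hb : ((r⁻¹ : ℝ) : ℂ) • ζ ∈ ball (0 : E) 1 := by
      rw [mem_ball_zero_iff, hn, inv_mul_lt_iff₀ hr0]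
      linarith
    refine ⟨hb, ?_⟩
    have h5 : ‖1 - ⟪a, ((r⁻¹ : ℝ) : ℂ) • ζ⟫_ℂ‖ ≤ 2 * R := by
      have e3 : 1 - ⟪a, ((r⁻¹ : ℝ) : ℂ) • ζ⟫_ℂ = (1 - ⟪a, ζ⟫_ℂ) -
          ((r⁻¹ - 1 : ℝ) : ℂ) * ⟪a, ζ⟫_ℂ := by
        rw [inner_smul_right]; push_cast; ring
      have h8 : ‖⟪a, ζ⟫_ℂ‖ ≤ r := by
        have := norm_inner_le_norm (𝕜 := ℂ) a ζ
        rw [ha, one_mul] at this
        linarith
      have h9 : 0 ≤ r⁻¹ - 1 := by
        have : 1 ≤ r⁻¹ := (one_le_inv₀ hr0).mpr hr1.le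
        linarith
      have h7 : (r⁻¹ - 1) * ‖⟪a, ζ⟫_ℂ‖ ≤ R := by
        calc _ ≤ (r⁻¹ - 1) * r := by gcongr
          _ = 1 - r := by field_simp
          _ ≤ R := hrR
      rw [e3]
      refine (norm_sub_le _ _).trans ?_
      rw [norm_mul, Complex.norm_real, Real.norm_of_nonneg h9]
      linarith
    have h6 : ‖1 - phi a R₁ (((r⁻¹ : ℝ) : ℂ) • ζ)‖ ≤ 2 / lam := by
      refine (one_sub_phi_le ha hR₁0 (mem_ball_zero_iff.mp hb)).trans ?_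
      rw [hR₁, div_le_div_iff₀ (by positivity) (by linarith)]
      nlinarith only [h5, hR0, hlam4]
    have h7 := (h2 0 _ hb).trans (le_abs_self CQ)
    rw [norm_mul]
    calc _ ≤ 2 / lam * |CQ| := by gcongr
      _ ≤ 1 / 2 := by
          rw [div_mul_eq_mul_div, div_le_div_iff₀ (by linarith) (by norm_num), hlam]
          linarith
  have hden : ∀ ζ ∈ D, 1 / 2 ≤ ‖1 - (1 - phi a R₁ (((r⁻¹ : ℝ) : ℂ) • ζ)) *
      h 0 (((r⁻¹ : ℝ) : ℂ) • ζ)‖ := by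
    intro ζ hζ
    have g1 := (hDz ζ hζ).2
    have g2 := norm_sub_norm_le (1 : ℂ) ((1 - phi a R₁ (((r⁻¹ : ℝ) : ℂ) • ζ)) *
      h 0 (((r⁻¹ : ℝ) : ℂ) • ζ))
    rw [norm_one] at g2
    linarith
  have hdi : MapsTo (fun ζ : E => ((r⁻¹ : ℝ) : ℂ) • ζ) D (ball 0 1) := fun ζ hζ => (hDz ζ hζ).1
  have hdd : DifferentiableOn ℂ (fun ζ : E => ((r⁻¹ : ℝ) : ℂ) • ζ) D :=
    (differentiable_id.const_smul ((r⁻¹ : ℝ) : ℂ)).differentiableOn
  refine ⟨fun j ζ => h j.succ (((r⁻¹ : ℝ) : ℂ) • ζ) *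
    (1 - (1 - phi a R₁ (((r⁻¹ : ℝ) : ℂ) • ζ)) * h 0 (((r⁻¹ : ℝ) : ℂ) • ζ))⁻¹, ?_, ?_, ?_⟩
  · intro j
    apply DifferentiableOn.mul
    · exact (h1 j.succ).comp hdd hdi
    apply DifferentiableOn.inv
    · apply (differentiableOn_const _).sub
      apply DifferentiableOn.mul
      · exact (differentiableOn_const _).sub (hφd.comp hdd hdi)
      · exact (h1 0).comp hdd hdi
    · intro ζ hζ
      have := hden ζ hζ
      exact norm_pos_iff.mp (by linarith)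
  · intro j ζ hζ
    have g1 := hden ζ hζ
    have g2 := (h2 j.succ _ (hDz ζ hζ).1).trans (le_abs_self CQ)
    simp only
    rw [norm_mul, norm_inv, ← div_eq_mul_inv, div_le_iff₀ (by linarith)]
    nlinarith only [g1, g2, hQ0]
  · intro ζ hζ
    have g1 := hden ζ hζ
    have g0 : (1 - (1 - phi a R₁ (((r⁻¹ : ℝ) : ℂ) • ζ)) * h 0 (((r⁻¹ : ℝ) : ℂ) • ζ)) ≠ 0 :=
      norm_pos_iff.mp (by linarith)
    have g2 := h3 _ (hDz ζ hζ).1
    rw [Fin.sum_univ_succ] at g2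
    simp only [Fin.cons_zero, Fin.cons_succ] at g2
    have g3 : ∀ j, G j (((r⁻¹ : ℝ) : ℂ) • ζ) = F j ζ := by
      intro j
      rw [hG]
      simp only
      rw [smul_smul, Complex.ofReal_inv, mul_inv_cancel₀ hrc, one_smul]
    simp only [g3] at g2
    simp only [← mul_assoc]
    rw [← Finset.sum_mul, mul_inv_eq_one₀ g0]
    linear_combination g2

end Pool.Agent.MPca0fc2.MX
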