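import Mathlib
import Pool.Agent.Lib.MP_ca0fc2_an.Mg.G059

set_option autoImplicit false

open Metric Set MeasureTheory
open scoped InnerProductSpace

namespace Pool.Agent.Lib.MP_ca0fc2_an

variable {E : Type*} [NormedAddCommGroup E] [InnerProductSpace ℂ E]

/-- `ω` is positive on `(0, 1]` and changes at most by the factor `(t / s)^(1/8)` between `s` and
`t`. -/
def Regular (ω : ℝ → ℝ) : Prop :=
  (∀ t ∈ Ioc (0 : ℝ) 1, 0 < ω t) ∧ ∀ s ∈ Ioc (0 : ℝ) 1, ∀ t ∈ Ioc (0 : ℝ) 1, s ≤ t →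
    ω s ≤ ω t * (t / s) ^ (1 / 8 : ℝ) ∧ ω t ≤ ω s * (t / s) ^ (1 / 8 : ℝ)

/-- The gradient of `g` is at most `ω (1 - |z|) / (1 - |z|)`, and in every block of scales without
an element of `S` (except the first scale of the block) the invariant gradient is dominated by
the local potential of a measure and a summable sequence, with bound `K`. -/
def SeamGrad [MeasurableSpace E] (p K : ℝ) (ω : ℝ → ℝ) (S : Set ℕ) (g : E → ℂ) : Prop :=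
  (∀ z ∈ ball (0 : E) 1, (1 - ‖z‖) * ‖fderiv ℂ g z‖ ≤ ω (1 - ‖z‖)) ∧
  ∀ a : ℕ, ∃ (ν : Measure E) (s : ℕ → ℝ),
    (∀ w ∈ ball (0 : E) 1,
      ∫⁻ ξ in ball (0 : E) 1, ENNReal.ofReal (invKer w ξ) ∂ν ≤ ENNReal.ofReal K) ∧
    (∀ k, 0 ≤ s k) ∧ (∀ n, ∑ k ∈ Finset.range n, s k ≤ K) ∧
    ∀ k, a ≤ k → (∀ l ∈ S, l ≤ a ∨ k < l) → ∀ z : E, (1 / 2) ^ (k + 1) < 1 - ‖z‖ →
      1 - ‖z‖ ≤ (1 / 2) ^ k →
      invGrad2 g z ^ (p / 2) ≤ ∫ ξ in ball (0 : E) 1, invKer z ξ ^ 2 ∂ν + s k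

end Pool.Agent.Lib.MP_ca0fc2_an
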