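import Mathlib
import Pool.Agent.Lib.MP_ca0fc2_an.CGCls
import Pool.Agent.Lib.MP_ca0fc2_an.MXDefs
import Pool.Agent.Lib.MP_ca0fc2_an.MXPre

set_option autoImplicit false
set_option linter.unusedSectionVars false

open Metric Set MeasureTheory Filter Topology
open scoped InnerProductSpace ENNReal

namespace Pool.Agent.MPca0fc2.MX

open Pool.Agent.MPca0fc2.PT
open Pool.Agent.MPca0fc2.SD (rr half_pow_pos half_pow_le_one)
open Pool.Agent.MPca0fc2.VL (Mod half_mem)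
open Pool.Agent.Lib.MP_ca0fc2_an

variable {E : Type*} [NormedAddCommGroup E] [InnerProductSpace ℂ E]
variable [FiniteDimensional ℂ E] [MeasurableSpace E] [BorelSpace E]

theorem SeamGrad.mono {p K K' : ℝ} {ω : ℝ → ℝ} {S : Set ℕ} {g : E → ℂ}
    (h : SeamGrad p K ω S g) (hK : K ≤ K') : SeamGrad p K' ω S g := by
  refine ⟨h.1, fun a => ?_⟩
  obtain ⟨ν, s, h1, h2, h3, h4⟩ := h.2 a
  exact ⟨ν, s, fun w hw => (h1 w hw).trans (ENNReal.ofReal_le_ofReal hK), h2,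
    fun n => (h3 n).trans hK, h4⟩

/-- change of the exponent -/
theorem SeamGrad.expo {p p' K : ℝ} {ω : ℝ → ℝ} {S : Set ℕ} {g : E → ℂ} (hp : 0 < p)
    (hpp : p ≤ p') (h : SeamGrad p K ω S g) :
    SeamGrad p' ((2 * max K 1) ^ (p' / p - 1) * K) ω S g := by
  refine ⟨h.1, fun a => ?_⟩
  obtain ⟨ν, s, h1, h2, h3, h4⟩ := h.2 a
  have hK1 : (1 : ℝ) ≤ max K 1 := le_max_right _ _
  have hq : 1 ≤ p' / p := by rwa [one_le_div hp]
  obtain ⟨T, hT⟩ : ∃ T, T = (2 * max K 1) ^ (p' / p - 1) := ⟨_, rfl⟩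
  have hT0 : 0 ≤ T := by rw [hT]; positivity
  rw [← hT]
  refine ⟨ENNReal.ofReal T • ν, fun k => T * s k, ?_, fun k => mul_nonneg hT0 (h2 k), ?_, ?_⟩
  · intro w hw
    rw [Measure.restrict_smul, lintegral_smul_measure, ENNReal.ofReal_mul hT0, smul_eq_mul]
    gcongr
    exact h1 w hw
  · intro n
    rw [← Finset.mul_sum]
    exact mul_le_mul_of_nonneg_left (h3 n) hT0
  · intro k hak hS z hz1 hz2
    have hk0 := half_pow_pos (k + 1)
    have hz' : ‖z‖ < 1 := by linarith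
    rw [Measure.restrict_smul, integral_smul_measure, ENNReal.toReal_ofReal hT0, smul_eq_mul]
    have hc := Pool.Agent.MPca0fc2.CG.carl_of h1
    obtain ⟨e, he⟩ : ∃ e, e = ∫ ξ in ball (0 : E) 1, invKer z ξ ^ 2 ∂ν := ⟨_, rfl⟩
    have h5 := h4 k hak hS z hz1 hz2
    rw [← he] at h5 ⊢
    have he0 : 0 ≤ e := by rw [he]; exact integral_nonneg fun _ => sq_nonneg _
    have heA : e ≤ max K 1 := by
      have h6 : e ≤ max K 0 := by rw [he]; exact PT.EE_le hc hz'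
      exact h6.trans (max_le_max le_rfl zero_le_one)
    have hsk : s k ≤ max K 1 := by
      have h6 := h3 (k + 1)
      have h7 := Finset.single_le_sum (f := s) (fun i _ => h2 i) (Finset.mem_range.mpr
        (Nat.lt_succ_self k))
      exact h7.trans (h6.trans (le_max_left _ _))
    have hsk0 := h2 k
    have hIG : 0 ≤ invGrad2 g z := gd_IG_nonneg hz'
    have h8 : invGrad2 g z ^ (p' / 2) = (invGrad2 g z ^ (p / 2)) ^ (p' / p) := by
      rw [← Real.rpow_mul hIG]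
      congr 1
      field_simp
    obtain ⟨x, hx⟩ : ∃ x, x = e + s k := ⟨_, rfl⟩
    have hx0 : 0 ≤ x := by rw [hx]; positivity
    have h6 : x ^ (p' / p) ≤ T * x := by
      rcases hx0.eq_or_lt with h0 | h0
      · rw [← h0, Real.zero_rpow (by linarith), mul_zero]
      · have h7 : x ^ (p' / p) = x ^ (p' / p - 1) * x := by
          rw [← Real.rpow_add_one h0.ne']
          congr 1; ring
        rw [h7, hT]
        have h9 : x ≤ 2 * max K 1 := by rw [hx]; linarith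
        have h10 : 0 ≤ p' / p - 1 := by linarith
        gcongr
    rw [h8]
    rw [← hx] at h5
    refine (Real.rpow_le_rpow (Real.rpow_nonneg hIG _) h5 (by linarith)).trans (h6.trans ?_)
    rw [hx, mul_add]

/-- subtraction of a constant -/
theorem SeamGrad.sub_const {p K : ℝ} {ω : ℝ → ℝ} {S : Set ℕ} {g : E → ℂ}
    (h : SeamGrad p K ω S g) (c : ℂ) : SeamGrad p K ω S (fun z => g z - c) := by
  have e : ∀ z, fderiv ℂ (fun z => g z - c) z = fderiv ℂ g z := fun z => fderiv_sub_const c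
  have e2 : ∀ z, invGrad2 (fun z => g z - c) z = invGrad2 g z := by
    intro z
    unfold invGrad2
    rw [e]
  refine ⟨fun z hz => by rw [e]; exact h.1 z hz, fun a => ?_⟩
  obtain ⟨ν, s, h1, h2, h3, h4⟩ := h.2 a
  exact ⟨ν, s, h1, h2, h3, fun k hk hS z hz1 hz2 => by rw [e2]; exact h4 k hk hS z hz1 hz2⟩

/-- the zero function -/
theorem SeamGrad.zero {p K : ℝ} {ω : ℝ → ℝ} (hω : Mod ω) {S : Set ℕ} (hp : 0 < p) (hK : 0 ≤ K) :
    SeamGrad p K ω S (fun _ : E => (0 : ℂ)) := by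
  have e2 : ∀ z, invGrad2 (fun _ : E => (0 : ℂ)) z = 0 := by
    intro z
    simp [invGrad2]
  refine ⟨fun z hz => ?_, fun a => ⟨0, fun _ => 0, ?_, fun _ => le_rfl, ?_, ?_⟩⟩
  · rw [mem_ball_zero_iff] at hz
    have h1 : 0 < ω (1 - ‖z‖) := hω.1 _ ⟨by linarith, by linarith [norm_nonneg z]⟩
    simp only [fderiv_fun_const, Pi.zero_apply, norm_zero, mul_zero]
    exact h1.le
  · intro w hw; simp
  · intro n; simpa using hK
  · intro k _ _ z _ _
    rw [e2, Real.zero_rpow (by positivity)]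
    simp

/-- affine functions -/
theorem SeamGrad.affine {p K τ : ℝ} {ω : ℝ → ℝ} (hω : Mod ω) {S : Set ℕ} (hp : 4 ≤ p)
    (hK : 2 * 2 ^ (p / 2) ≤ K) (hτ0 : 0 ≤ τ) (hτ1 : τ ≤ 1) (hτ : τ ≤ ω 1) {b : E}
    (hb : ‖b‖ ≤ 1) (c : ℂ) :
    SeamGrad p K ω S (fun z : E => (τ : ℂ) * ⟪b, z⟫_ℂ - c) := by
  apply SeamGrad.sub_const
  have e : ∀ z, fderiv ℂ (fun z : E => (τ : ℂ) * ⟪b, z⟫_ℂ) z = (τ : ℂ) • innerSL ℂ b := by
    intro z
    exact (((innerSL ℂ b).hasFDerivAt (x := z)).const_mul (τ : ℂ)).fderiv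
  have en : ‖(τ : ℂ) • innerSL ℂ b‖ ≤ τ := by
    rw [norm_smul, Complex.norm_real, Real.norm_of_nonneg hτ0, innerSL_apply_norm]
    exact mul_le_of_le_one_right hτ0 hb
  refine ⟨fun z hz => ?_, fun a => ⟨0, fun k => (2 * (1 / 2) ^ k) ^ (p / 2), ?_,
    fun k => by positivity, ?_, ?_⟩⟩
  · rw [mem_ball_zero_iff] at hz
    obtain ⟨t, ht⟩ : ∃ t, t = 1 - ‖z‖ := ⟨_, rfl⟩
    have ht0 : 0 < t := by rw [ht]; linarith
    have ht1 : t ≤ 1 := by rw [ht]; linarith [norm_nonneg z]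
    rw [e, ← ht]
    have h1 := (hω.2 t ⟨ht0, ht1⟩ 1 ⟨one_pos, le_rfl⟩ ht1).2
    have h2 : (1 / t) ^ (1 / 8 : ℝ) ≤ 1 / t := by
      have h4 : 1 ≤ 1 / t := by rw [le_div_iff₀ ht0]; linarith
      calc (1 / t) ^ (1 / 8 : ℝ) ≤ (1 / t) ^ (1 : ℝ) :=
            Real.rpow_le_rpow_of_exponent_le h4 (by norm_num)
        _ = 1 / t := Real.rpow_one _
    have h3 : 0 < ω t := hω.1 t ⟨ht0, ht1⟩
    have h4 : ω 1 ≤ ω t * (1 / t) := h1.trans (by gcongr)
    have h5 : t * ω 1 ≤ ω t := by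
      calc t * ω 1 ≤ t * (ω t * (1 / t)) := by gcongr
        _ = ω t := by field_simp
    calc t * ‖(τ : ℂ) • innerSL ℂ b‖ ≤ t * ω 1 := by
          gcongr
          exact en.trans hτ
      _ ≤ ω t := h5
  · intro w hw; simp
  · intro n
    have h1 : ∀ k ∈ Finset.range n, (2 * (1 / 2 : ℝ) ^ k) ^ (p / 2) ≤ 2 ^ (p / 2) * (1 / 2) ^ k := by
      intro k _
      rw [Real.mul_rpow (by norm_num) (by positivity)]
      gcongr
      calc ((1 / 2 : ℝ) ^ k) ^ (p / 2) ≤ ((1 / 2 : ℝ) ^ k) ^ (1 : ℝ) := by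
            apply Real.rpow_le_rpow_of_exponent_ge (by positivity) (half_pow_le_one k)
            linarith
        _ = (1 / 2) ^ k := Real.rpow_one _
    refine (Finset.sum_le_sum h1).trans ?_
    rw [← Finset.mul_sum]
    have h2 : ∑ k ∈ Finset.range n, (1 / 2 : ℝ) ^ k ≤ 2 := by
      have h3 := geom_sum_eq (show (1 / 2 : ℝ) ≠ 1 by norm_num) n
      rw [h3]
      have h4 := half_pow_pos n
      rw [div_le_iff_of_neg (by norm_num)]
      linarith
    have h5 : (0 : ℝ) ≤ 2 ^ (p / 2) := by positivity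
    nlinarith only [h2, h5, hK]
  · intro k _ _ z hz1 hz2
    have hk0 := half_pow_pos (k + 1)
    have hz' : ‖z‖ < 1 := by linarith
    have hn := norm_nonneg z
    have h3 : invGrad2 (fun z : E => (τ : ℂ) * ⟪b, z⟫_ℂ) z ≤ 2 * (1 / 2) ^ k := by
      unfold invGrad2
      rw [e]
      have h4 : 0 ≤ 1 - ‖z‖ ^ 2 := by nlinarith only [hn, hz']
      have h6 : ‖(τ : ℂ) • innerSL ℂ b‖ ^ 2 ≤ 1 := by
        exact pow_le_one₀ (norm_nonneg _) (en.trans hτ1)
      have h5 : ‖(τ : ℂ) • innerSL ℂ b‖ ^ 2 - ‖((τ : ℂ) • innerSL ℂ b) z‖ ^ 2 ≤ 1 := by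
        linarith only [h6, sq_nonneg ‖((τ : ℂ) • innerSL ℂ b) z‖]
      calc _ ≤ (1 - ‖z‖ ^ 2) * 1 := mul_le_mul_of_nonneg_left h5 h4
        _ ≤ 2 * (1 / 2) ^ k := by nlinarith only [hz2, sq_nonneg (‖z‖ - 1)]
    have h6 : 0 ≤ invGrad2 (fun z : E => (τ : ℂ) * ⟪b, z⟫_ℂ) z := gd_IG_nonneg hz'
    simp only [Measure.restrict_zero, integral_zero_measure, zero_add]
    exact Real.rpow_le_rpow h6 h3 (by linarith)

end Pool.Agent.MPca0fc2.MX
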