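import Mathlib
import Pool.Agent.Lib.MP_ca0fc2_an.MXDefs
import Pool.Agent.Lib.MP_ca0fc2_an.MXBase
import Pool.Agent.Lib.MP_ca0fc2_an.MXPre

set_option autoImplicit false

open Metric Set MeasureTheory Filter Topology
open scoped InnerProductSpace ENNReal

namespace Pool.Agent.MPca0fc2.MX

open Pool.Agent.MPca0fc2.PT
open Pool.Agent.MPca0fc2.VL (Mod half_mem)
open Pool.Agent.Lib.MP_ca0fc2_an

/-- the statement of `block_sol` -/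
def BlockStmt (E : Type*) [NormedAddCommGroup E] [InnerProductSpace ℂ E]
    (N : ℕ) (M δ A p : ℝ) : Prop :=
    ∃ C Λ : ℝ, 0 ≤ C ∧ 1 ≤ Λ ∧ ∀ (F : Fin (N + 1) → E → ℂ) (ν : Ptl E) (r R : ℝ) (a : E),
      (∀ j, DifferentiableOn ℂ (F j) (ball 0 1)) →
      (∀ j, ∀ z ∈ ball (0 : E) 1, ‖F j z‖ ≤ M) →
      (∀ z ∈ ball (0 : E) 1, δ ≤ ∑ j, ‖F j z‖ ^ 2) →
      Carl ν A → 0 < r → r < 1 → ‖a‖ = 1 → 1 - r ≤ R →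
      (∀ j : Fin N, ∀ y : E, ‖y‖ < r → 1 - ‖y‖ ≤ Λ * R → ∀ X : E,
        ‖fderiv ℂ (F j.succ) y X‖ ≤ 3 * EE ν y ^ (1 / p) * gau (1 - ‖y‖ ^ 2) y X) →
      SolvableOn F {z | ‖z‖ < r ∧ ‖1 - ⟪a, z⟫_ℂ‖ < R} C

/-- the statement of `VL.dil_limit` -/
def DilStmt (E : Type*) [NormedAddCommGroup E] [InnerProductSpace ℂ E] (N : ℕ) : Prop :=
  ∀ (F : Fin (N + 1) → E → ℂ) (C : ℝ), (∀ j, DifferentiableOn ℂ (F j) (ball 0 1)) → 0 ≤ C →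
    (∀ n : ℕ, ∃ h : Fin (N + 1) → E → ℂ, (∀ j, DifferentiableOn ℂ (h j) (ball 0 1)) ∧
      (∀ z ∈ ball (0 : E) 1, ‖fun j => h j z‖ ≤ C) ∧
      ∀ z ∈ ball (0 : E) 1, ∑ j, F j (((SD.rr (n + 1) : ℝ) : ℂ) • z) * h j z = 1) →
    SolvableOn F (ball 0 1) C

/-- the statement of `VL.scale_main` -/
def ScaleStmt (E : Type*) [NormedAddCommGroup E] [InnerProductSpace ℂ E]
    (N : ℕ) (M δ : ℝ) (ω : ℝ → ℝ) : Prop :=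
  ∀ (C : ℝ) (κ : ℕ → ℕ), StrictMono κ → (Summable fun b => ω ((1 / 2) ^ κ b)) →
    ∃ C' : ℝ, ∀ F : Fin (N + 1) → E → ℂ,
      (∀ j, DifferentiableOn ℂ (F j) (ball 0 1)) →
      (∀ j, ∀ z ∈ ball (0 : E) 1, ‖F j z‖ ≤ M) →
      (∀ z ∈ ball (0 : E) 1, δ ≤ ∑ j, ‖F j z‖ ^ 2) →
      (∀ j : Fin N, ∀ z ∈ ball (0 : E) 1,
        (1 - ‖z‖) * ‖fderiv ℂ (F j.succ) z‖ ≤ ω (1 - ‖z‖)) →
      (∀ b, ∀ a : E, ‖a‖ = 1 → SolvableOn F {z | z ∈ ball (0 : E) 1 ∧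
        ‖1 - ⟪z, a⟫_ℂ‖ < (1 / 2) ^ κ b / (ω ((1 / 2) ^ κ b)) ^ 2 ∧
          (1 / 2) ^ κ (b + 1) / 2 < 1 - ‖z‖} C) →
      SolvableOn F (ball 0 1) C'

/-- the statement of `main_seam` -/
def SeamStmt (E : Type*) [NormedAddCommGroup E] [InnerProductSpace ℂ E] [MeasurableSpace E] :
    Prop :=
  ∀ (N : ℕ) (M δ K p : ℝ), 0 < δ → 4 ≤ p → ∀ (ω : ℝ → ℝ), Mod ω → ∀ (S : Set ℕ),
    (Summable fun k : S => ω ((1 / 2) ^ (k : ℕ))) →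
    ∃ C' : ℝ, ∀ F : Fin (N + 1) → E → ℂ,
      (∀ j, DifferentiableOn ℂ (F j) (ball 0 1)) →
      (∀ j, ∀ z ∈ ball (0 : E) 1, ‖F j z‖ ≤ M) →
      (∀ z ∈ ball (0 : E) 1, δ ≤ ∑ j, ‖F j z‖ ^ 2) →
      (∀ j : Fin N, SeamGrad p K ω S (F j.succ)) → SolvableOn F (ball 0 1) C'

end Pool.Agent.MPca0fc2.MX
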