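import Mathlib
import Pool.Agent.Lib.MP_ca0fc2_an.MXCls
import Pool.Agent.Lib.MP_ca0fc2_an.MXStmt
import Pool.Agent.Lib.MP_ca0fc2_an.Depth

set_option autoImplicit false
set_option linter.unusedSectionVars false

open Metric Set MeasureTheory Filter Topology
open scoped InnerProductSpace ENNReal

namespace Pool.Agent.MPca0fc2.MX

open Pool.Agent.MPca0fc2.PT
open Pool.Agent.MPca0fc2.VL (Mod half_mem)
open Pool.Agent.Lib.MP_ca0fc2_an

variable {E : Type*} [NormedAddCommGroup E] [InnerProductSpace ℂ E]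
variable [FiniteDimensional ℂ E] [MeasurableSpace E] [BorelSpace E]

/-- localization of a character to the neighbourhood of its point -/
theorem char_near {I : Type*} (Φ : Char I E) {l : E} (hl : ‖l‖ = 1)
    (hΦl : ∀ w : E, Φ.φ (fun _ z => ⟪w, z⟫_ℂ) = ⟪w, l⟫_ℂ) {ρ : ℝ} (hρ : 0 < ρ) {F : I → E → ℂ}
    (hF : BH F) {C : ℝ} (hC : 0 ≤ C)
    (h : ∀ᶠ i in Φ.filt, ∀ z ∈ ball (0 : E) 1 ∩ ball l ρ, ‖F i z‖ ≤ C) : ‖Φ.φ F‖ ≤ C := by
  obtain ⟨κ, hκ⟩ : ∃ κ : ℝ, κ = min (1 / 2) (ρ ^ 2 / 8) := ⟨_, rfl⟩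
  have hκ0 : 0 < κ := by rw [hκ]; exact lt_min (by norm_num) (by positivity)
  have hκ1 : κ ≤ 1 / 2 := by rw [hκ]; exact min_le_left _ _
  have hκ2 : 8 * κ ≤ ρ ^ 2 := by
    have : κ ≤ ρ ^ 2 / 8 := by rw [hκ]; exact min_le_right _ _
    linarith
  have hBH1 : BH fun (_ : I) (z : E) => (1 : ℂ) + ⟪l, z⟫_ℂ := (BH.const 1).add (BH.inner l)
  have hBH : BH fun (_ : I) (z : E) => (1 / 2 : ℂ) * (1 + ⟪l, z⟫_ℂ) := (BH.const _).mul hBH1
  have hin : ⟪l, l⟫_ℂ = 1 := by
    rw [inner_self_eq_norm_sq_to_K, hl]; norm_num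
  have hnorm : ∀ z : E, ‖(1 / 2 : ℂ) * (1 + ⟪l, z⟫_ℂ)‖ = ‖1 + ⟪l, z⟫_ℂ‖ / 2 := by
    intro z
    rw [norm_mul]
    have : ‖(1 / 2 : ℂ)‖ = 1 / 2 := by norm_num
    rw [this]; ring
  have hin1 : ∀ z ∈ ball (0 : E) 1, ‖⟪l, z⟫_ℂ‖ ≤ 1 := by
    intro z hz
    rw [mem_ball_zero_iff] at hz
    have := norm_inner_le_norm (𝕜 := ℂ) l z
    rw [hl, one_mul] at this
    linarith
  apply Φ.bound_loc hF hBH _ _ hκ0 hC
  · filter_upwards [h] with i hi z hz hPz
    apply hi z ⟨hz, _⟩
    rw [hnorm] at hPz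
    obtain ⟨w, hw⟩ : ∃ w, w = ⟪l, z⟫_ℂ := ⟨_, rfl⟩
    rw [← hw] at hPz
    have hw1 : ‖w‖ ≤ 1 := by rw [hw]; exact hin1 z hz
    have e1 : ‖1 + w‖ ^ 2 = 1 + 2 * w.re + ‖w‖ ^ 2 := by
      rw [Complex.sq_norm, Complex.sq_norm, Complex.normSq_apply, Complex.normSq_apply]
      simp only [Complex.add_re, Complex.one_re, Complex.add_im, Complex.one_im, zero_add]
      ring
    have e2 : 1 - 4 * κ < w.re := by
      have h1 : 2 - 2 * κ < ‖1 + w‖ := by linarith
      have h2 : (2 - 2 * κ) ^ 2 < ‖1 + w‖ ^ 2 := by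
        apply pow_lt_pow_left₀ h1 (by linarith) two_ne_zero
      have h3 : ‖w‖ ^ 2 ≤ 1 := pow_le_one₀ (norm_nonneg _) hw1
      nlinarith only [h2, h3, e1, hκ0, hκ1]
    rw [mem_ball, dist_eq_norm]
    have e3 : ‖z - l‖ ^ 2 = ‖z‖ ^ 2 - 2 * w.re + ‖l‖ ^ 2 := by
      have := norm_sub_sq (𝕜 := ℂ) z l
      rw [hw]
      have e4 : RCLike.re ⟪z, l⟫_ℂ = (⟪l, z⟫_ℂ).re := by
        rw [← inner_conj_symm l z, Complex.conj_re]; rfl
      rw [e4] at this
      exact this
    have e5 : ‖z - l‖ ^ 2 < ρ ^ 2 := by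
      rw [mem_ball_zero_iff] at hz
      rw [e3, hl]
      have e6 : ‖z‖ ^ 2 ≤ 1 := pow_le_one₀ (norm_nonneg z) hz.le
      linarith only [e6, e2, hκ2]
    exact lt_of_pow_lt_pow_left₀ 2 hρ.le e5
  · have h1 := Φ.map_smul (1 / 2) hBH1
    have h2 := Φ.map_add (BH.const 1) (BH.inner (I := I) l)
    rw [h1, h2, Φ.map_const, hΦl, hin]
    norm_num
  · intro i z hz
    rw [hnorm]
    have h1 := norm_add_le (1 : ℂ) ⟪l, z⟫_ℂ
    rw [norm_one] at h1
    have := hin1 z hz
    linarith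

/-- an ultrafilter chooses one of finitely many values -/
theorem char_pigeon {I : Type*} (Φ : Char I E) {N : ℕ} (j : I → Fin N) :
    ∃ j₁, ∀ᶠ i in Φ.filt, j i = j₁ := by
  obtain ⟨j₁, hj₁⟩ := (Φ.ultra.map j).eq_pure_of_finite
  refine ⟨j₁, ?_⟩
  have h1 : ({j₁} : Set (Fin N)) ∈ Φ.ultra.map j := by rw [hj₁]; exact mem_pure.mpr rfl
  exact h1

/-- The local theorem with perturbations. -/
theorem seam_char_of (E : Type*) [NormedAddCommGroup E] [InnerProductSpace ℂ E]
    [FiniteDimensional ℂ E] [MeasurableSpace E] [BorelSpace E] (hdim : 2 ≤ Module.finrank ℂ E)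
    (HS : SeamStmt E) (N : ℕ) (δ : ℝ) (hδ : 0 < δ) :
    ∃ η : ℝ, 0 < η ∧ ∀ (M : ℝ) (ρ p K : E → ℝ) (ω : E → ℝ → ℝ) (S : E → Set ℕ),
      (∀ l, 0 < ρ l) → (∀ l, 0 < p l) → (∀ l, Mod (ω l)) →
      (∀ l, Summable fun k : S l => ω l ((1 / 2) ^ (k : ℕ))) →
      ∃ C' : ℝ, ∀ f : Fin N → E → ℂ, (∀ j, DifferentiableOn ℂ (f j) (ball 0 1)) →
        (∀ j, ∀ z ∈ ball (0 : E) 1, ‖f j z‖ ≤ M) →
        (∀ z ∈ ball (0 : E) 1, δ ≤ ∑ j, ‖f j z‖ ^ 2) →
        (∀ l ∈ sphere (0 : E) 1, ∃ (j₀ : Fin N) (g : Fin N → E → ℂ), ∀ j, j ≠ j₀ →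
          DifferentiableOn ℂ (g j) (ball 0 1) ∧ (∀ z ∈ ball (0 : E) 1, ‖g j z‖ ≤ K l) ∧
          SeamGrad (p l) (K l) (ω l) (S l) (g j) ∧
          ∀ z ∈ ball (0 : E) 1 ∩ ball l (ρ l), ‖f j z - g j z‖ ≤ η) →
        SolvableOn f (ball 0 1) C' := by
  classical
  obtain ⟨η, hη⟩ : ∃ η : ℝ, η = √(δ / (16 * (N + 1))) := ⟨_, rfl⟩
  have hη0 : 0 < η := by rw [hη]; exact Real.sqrt_pos.mpr (by positivity)
  have hη2 : 8 * N * η ^ 2 ≤ δ / 2 := by
    rw [hη, Real.sq_sqrt (by positivity)]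
    have h1 : 8 * (N : ℝ) * (δ / (16 * (N + 1))) = δ / 2 * (N / (N + 1)) := by
      field_simp; ring
    rw [h1]
    have h2 : (N : ℝ) / (N + 1) ≤ 1 := by
      rw [div_le_one (by positivity)]; linarith
    exact mul_le_of_le_one_right (by linarith only [hδ]) h2
  refine ⟨η, hη0, ?_⟩
  intro M ρ p K ω S hρ hp hω hsum
  set I := {f : Fin N → E → ℂ //
      (∀ j, DifferentiableOn ℂ (f j) (ball 0 1)) ∧ (∀ j, ∀ z ∈ ball (0 : E) 1, ‖f j z‖ ≤ M) ∧
      (∀ z ∈ ball (0 : E) 1, δ ≤ ∑ j, ‖f j z‖ ^ 2) ∧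
      (∀ l ∈ sphere (0 : E) 1, ∃ (j₀ : Fin N) (g : Fin N → E → ℂ), ∀ j, j ≠ j₀ →
          DifferentiableOn ℂ (g j) (ball 0 1) ∧ (∀ z ∈ ball (0 : E) 1, ‖g j z‖ ≤ K l) ∧
          SeamGrad (p l) (K l) (ω l) (S l) (g j) ∧
          ∀ z ∈ ball (0 : E) 1 ∩ ball l (ρ l), ‖f j z - g j z‖ ≤ η)} with hI
  set F : Fin N → I → E → ℂ := fun j i => i.1 j with hFdef
  have hF : ∀ j, BH (F j) := fun j => ⟨fun i => i.2.1 j, M, fun i z hz => i.2.2.1 j z hz⟩
  obtain ⟨G, hG, hs⟩ := unimod_of_chars hF (by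
    intro Φ
    obtain ⟨l, hl1, hΦl⟩ := Φ.exists_point
    rcases lt_or_eq_of_le hl1 with hl | hl
    · by_contra hcon
      push Not at hcon
      have hlm : l ∈ ball (0 : E) 1 := by rwa [mem_ball_zero_iff]
      have hlim := fun j => ((tendsto_of_interior Φ hl hΦl (hF j)).norm).pow 2
      simp only [hcon, norm_zero] at hlim
      have hlim' : Tendsto (fun i : I => ∑ j, ‖F j i l‖ ^ 2) Φ.filt
          (𝓝 (∑ _j : Fin N, (0 : ℝ) ^ 2)) := tendsto_finsetSum _ fun j _ => hlim j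
      have h1 : ∀ᶠ i in Φ.filt, δ ≤ ∑ j, ‖F j i l‖ ^ 2 :=
        Eventually.of_forall fun i => i.2.2.2.1 l hlm
      have h2 := ge_of_tendsto hlim' h1
      simp at h2
      linarith
    · by_contra hcon
      push Not at hcon
      have hlS : l ∈ sphere (0 : E) 1 := by rwa [mem_sphere_zero_iff_norm]
      have hch : ∀ i : I, ∃ (j₀ : Fin N) (g : Fin N → E → ℂ), ∀ j, j ≠ j₀ →
          DifferentiableOn ℂ (g j) (ball 0 1) ∧ (∀ z ∈ ball (0 : E) 1, ‖g j z‖ ≤ K l) ∧
          SeamGrad (p l) (K l) (ω l) (S l) (g j) ∧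
          ∀ z ∈ ball (0 : E) 1 ∩ ball l (ρ l), ‖i.1 j z - g j z‖ ≤ η := fun i => i.2.2.2.2 l hlS
      choose j₀ g hg using hch
      obtain ⟨j₁, hj₁⟩ := char_pigeon Φ j₀
      -- the approximating families
      obtain ⟨K₁, hK₁⟩ : ∃ K₁ : ℝ, K₁ = max (K l) 0 := ⟨_, rfl⟩
      have hK₁0 : 0 ≤ K₁ := by rw [hK₁]; exact le_max_right _ _
      obtain ⟨G, hG⟩ : ∃ G : Fin N → I → E → ℂ,
        G = fun j i z => if j ≠ j₁ ∧ j₀ i = j₁ then g i j z else 0 := ⟨_, rfl⟩
      have hGd : ∀ j, BH (G j) := by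
        intro j
        refine ⟨fun i => ?_, K₁, fun i z hz => ?_⟩
        · rw [hG]
          by_cases h : j ≠ j₁ ∧ j₀ i = j₁
          · simp only [if_pos h]
            exact (hg i j (by rw [h.2]; exact h.1)).1
          · simp only [if_neg h]
            exact differentiableOn_const _
        · rw [hG]
          by_cases h : j ≠ j₁ ∧ j₀ i = j₁
          · simp only [if_pos h]
            exact ((hg i j (by rw [h.2]; exact h.1)).2.1 z hz).trans
              (by rw [hK₁]; exact le_max_left _ _)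
          · simp only [if_neg h, norm_zero]
            exact hK₁0
      have hGη : ∀ j, ‖Φ.φ (G j)‖ ≤ η := by
        intro j
        by_cases hj : j = j₁
        · have h1 : Φ.φ (G j) = Φ.φ fun _ _ => (0 : ℂ) := by
            congr 1
            ext i z
            rw [hG]
            simp [hj]
          rw [h1, Φ.map_const, norm_zero]
          exact hη0.le
        · have h1 := Φ.map_sub (hF j) (hGd j)
          rw [hcon j, zero_sub] at h1
          have h2 : ‖Φ.φ (fun i z => F j i z - G j i z)‖ ≤ η := by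
            apply char_near Φ hl hΦl (hρ l) ((hF j).sub (hGd j)) hη0.le
            filter_upwards [hj₁] with i hi z hz
            rw [hG]
            simp only [if_pos (show j ≠ j₁ ∧ j₀ i = j₁ from ⟨hj, hi⟩)]
            exact (hg i j (by rw [hi]; exact hj)).2.2.2 z hz
          rw [h1, norm_neg] at h2
          exact h2
      obtain ⟨c, hc⟩ : ∃ c : Fin N → ℂ, c = fun j => Φ.φ (G j) := ⟨_, rfl⟩
      have hcη : ∀ j, ‖c j‖ ≤ η := fun j => by rw [hc]; exact hGη j
      -- the parameters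
      obtain ⟨nE, hnE⟩ : ∃ nE, nE = Module.finrank ℂ E := ⟨_, rfl⟩
      obtain ⟨b, hb⟩ : ∃ b : OrthonormalBasis (Fin (Module.finrank ℂ E)) ℂ E,
        b = stdOrthonormalBasis ℂ E := ⟨_, rfl⟩
      obtain ⟨p', hp'⟩ : ∃ p', p' = max (p l) 4 := ⟨_, rfl⟩
      have hp4 : 4 ≤ p' := by rw [hp']; exact le_max_right _ _
      have hpp : p l ≤ p' := by rw [hp']; exact le_max_left _ _
      obtain ⟨K', hK'⟩ : ∃ K', K' = max ((2 * max (K l) 1) ^ (p' / p l - 1) * K l)
        (2 * 2 ^ (p' / 2)) := ⟨_, rfl⟩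
      have hKK : (2 * max (K l) 1) ^ (p' / p l - 1) * K l ≤ K' := by rw [hK']; exact le_max_left _ _
      have hK2 : (2 : ℝ) * 2 ^ (p' / 2) ≤ K' := by rw [hK']; exact le_max_right _ _
      have hK'0 : 0 ≤ K' := le_trans (by positivity) hK2
      obtain ⟨τ, hτ⟩ : ∃ τ, τ = min 1 (ω l 1) := ⟨_, rfl⟩
      have hω1 : 0 < ω l 1 := (hω l).1 1 ⟨one_pos, le_rfl⟩
      have hτ0 : 0 < τ := by rw [hτ]; exact lt_min one_pos hω1
      have hτ1 : τ ≤ 1 := by rw [hτ]; exact min_le_left _ _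
      have hτ2 : τ ≤ ω l 1 := by rw [hτ]; exact min_le_right _ _
      obtain ⟨δ', hδ'⟩ : ∃ δ', δ' = min (δ / 4) (τ ^ 2 * ρ l ^ 2) := ⟨_, rfl⟩
      have hρl := hρ l
      have hδ'0 : 0 < δ' := by rw [hδ']; exact lt_min (by positivity) (by positivity)
      obtain ⟨M', hM'⟩ : ∃ M', M' = max M 0 + K₁ + η + 2 := ⟨_, rfl⟩
      obtain ⟨C, hC⟩ := HS (N + Module.finrank ℂ E) M' δ' K' p' hδ'0 hp4
        (ω l) (hω l) (S l) (hsum l)
      -- the new data
      obtain ⟨D, hD⟩ : ∃ D : Fin (N + Module.finrank ℂ E) → I → E → ℂ,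
        D = Fin.append (fun j i z => G j i z - c j)
          (fun k _ z => (τ : ℂ) * ⟪b k, z⟫_ℂ - (τ : ℂ) * ⟪b k, l⟫_ℂ) := ⟨_, rfl⟩
      have hDl : ∀ j i z, D (Fin.castAdd _ j) i z = G j i z - c j := by
        intro j i z
        rw [hD, Fin.append_left]
      have hDr : ∀ k i z, D (Fin.natAdd N k) i z = (τ : ℂ) * ⟪b k, z⟫_ℂ - (τ : ℂ) * ⟪b k, l⟫_ℂ := by
        intro k i z
        rw [hD, Fin.append_right]
      have hDBH : ∀ j, BH (D j) := by
        intro j
        refine Fin.addCases (fun j => ?_) (fun k => ?_) j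
        · have e : D (Fin.castAdd _ j) = fun i z => G j i z - c j := by
            ext i z; exact hDl j i z
          rw [e]
          exact (hGd j).sub (BH.const _)
        · have e : D (Fin.natAdd N k) = fun i z => (τ : ℂ) * ⟪b k, z⟫_ℂ - (τ : ℂ) * ⟪b k, l⟫_ℂ := by
            ext i z; exact hDr k i z
          rw [e]
          exact ((BH.const _).mul (BH.inner (b k))).sub (BH.const _)
      have hDΦ : ∀ j, Φ.φ (D j) = 0 := by
        intro j
        refine Fin.addCases (fun j => ?_) (fun k => ?_) j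
        · have e : D (Fin.castAdd _ j) = fun i z => G j i z - c j := by
            ext i z; exact hDl j i z
          rw [e, Φ.map_sub (hGd j) (BH.const _), Φ.map_const, hc, sub_self]
        · have e : D (Fin.natAdd N k) = fun i z => (τ : ℂ) * ⟪b k, z⟫_ℂ - (τ : ℂ) * ⟪b k, l⟫_ℂ := by
            ext i z; exact hDr k i z
          rw [e, Φ.map_sub ((BH.const _).mul (BH.inner (b k))) (BH.const _), Φ.map_const,
            Φ.map_smul _ (BH.inner (b k)), hΦl, sub_self]
      have hbn : ∀ k, ‖b k‖ ≤ 1 := fun k => (b.orthonormal.1 k).le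
      have hDM : ∀ j i, ∀ z ∈ ball (0 : E) 1, ‖D j i z‖ ≤ M' := by
        intro j i z hz
        refine Fin.addCases (fun j => ?_) (fun k => ?_) j
        · rw [hDl]
          have h1 : ‖G j i z‖ ≤ K₁ := by
            rw [hG]
            by_cases h : j ≠ j₁ ∧ j₀ i = j₁
            · simp only [if_pos h]
              exact ((hg i j (by rw [h.2]; exact h.1)).2.1 z hz).trans
                (by rw [hK₁]; exact le_max_left _ _)
            · simp only [if_neg h, norm_zero]
              exact hK₁0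
          have h2 := norm_sub_le (G j i z) (c j)
          have h3 := hcη j
          have h4 := le_max_right M 0
          rw [hM']
          linarith
        · rw [hDr]
          have h1 : ‖⟪b k, z⟫_ℂ‖ ≤ 1 := by
            rw [mem_ball_zero_iff] at hz
            exact (norm_inner_le_norm (𝕜 := ℂ) (b k) z).trans
              (mul_le_one₀ (hbn k) (norm_nonneg z) hz.le)
          have h2 : ‖⟪b k, l⟫_ℂ‖ ≤ 1 := by
            have := norm_inner_le_norm (𝕜 := ℂ) (b k) l
            rw [hl, mul_one] at this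
            exact this.trans (hbn k)
          have h3 := norm_sub_le ((τ : ℂ) * ⟪b k, z⟫_ℂ) ((τ : ℂ) * ⟪b k, l⟫_ℂ)
          rw [norm_mul, norm_mul, Complex.norm_real, Real.norm_of_nonneg hτ0.le] at h3
          have h4 := le_max_right M 0
          rw [hM']
          have h5 : τ * ‖⟪b k, z⟫_ℂ‖ ≤ 1 := mul_le_one₀ hτ1 (norm_nonneg _) h1
          have h6 : τ * ‖⟪b k, l⟫_ℂ‖ ≤ 1 := mul_le_one₀ hτ1 (norm_nonneg _) h2
          linarith only [h3, h4, h5, h6, hK₁0, hη0]
      have hDS : ∀ j i, SeamGrad p' K' (ω l) (S l) (D j i) := by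
        intro j i
        refine Fin.addCases (fun j => ?_) (fun k => ?_) j
        · have e : D (Fin.castAdd _ j) i = fun z => G j i z - c j := by
            ext z; exact hDl j i z
          rw [e]
          apply SeamGrad.sub_const
          rw [hG]
          by_cases h : j ≠ j₁ ∧ j₀ i = j₁
          · simp only [if_pos h]
            exact SeamGrad.mono (SeamGrad.expo (hp l) hpp (hg i j (by rw [h.2]; exact h.1)).2.2.1) hKK
          · simp only [if_neg h]
            exact SeamGrad.zero (hω l) (by linarith) hK'0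
        · have e : D (Fin.natAdd N k) i = fun z => (τ : ℂ) * ⟪b k, z⟫_ℂ - (τ : ℂ) * ⟪b k, l⟫_ℂ := by
            ext z; exact hDr k i z
          rw [e]
          exact SeamGrad.affine (hω l) hp4 hK2 hτ0.le hτ1 hτ2 (hbn k) _
      have hlow : ∀ i : I, j₀ i = j₁ → ∀ z ∈ ball (0 : E) 1,
          δ' ≤ ‖F j₁ i z‖ ^ 2 + ∑ j, ‖D j i z‖ ^ 2 := by
        intro i hi z hz
        rw [Fin.sum_univ_add]
        simp only [hDl, hDr]
        by_cases hzl : z ∈ ball l (ρ l)
        · have h1 : δ / 4 ≤ ‖F j₁ i z‖ ^ 2 + ∑ j, ‖G j i z - c j‖ ^ 2 := by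
            have h2 : δ ≤ ∑ j, ‖F j i z‖ ^ 2 := i.2.2.2.1 z hz
            rw [← Finset.add_sum_erase _ _ (Finset.mem_univ j₁)] at h2
            have h3 : ∑ j ∈ Finset.univ.erase j₁, ‖F j i z‖ ^ 2 ≤
                ∑ j ∈ Finset.univ.erase j₁, (2 * ‖G j i z - c j‖ ^ 2 + 8 * η ^ 2) := by
              apply Finset.sum_le_sum
              intro j hj
              have hjj := Finset.ne_of_mem_erase hj
              have h4 : ‖F j i z - G j i z‖ ≤ η := by
                rw [hG]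
                simp only [if_pos (show j ≠ j₁ ∧ j₀ i = j₁ from ⟨hjj, hi⟩)]
                exact (hg i j (by rw [hi]; exact hjj)).2.2.2 z ⟨hz, hzl⟩
              have h5 : ‖F j i z‖ ≤ ‖G j i z - c j‖ + 2 * η := by
                calc ‖F j i z‖ = ‖(F j i z - G j i z) + (G j i z - c j) + c j‖ := by
                      congr 1; ring
                  _ ≤ ‖F j i z - G j i z‖ + ‖G j i z - c j‖ + ‖c j‖ := norm_add₃_le
                  _ ≤ _ := by have := hcη j; linarith
              have h6 := norm_nonneg (F j i z)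
              have h7 := pow_le_pow_left₀ h6 h5 2
              nlinarith only [h7, sq_nonneg (‖G j i z - c j‖ - 2 * η)]
            have h4 : ∑ j ∈ Finset.univ.erase j₁, (2 * ‖G j i z - c j‖ ^ 2 + 8 * η ^ 2) ≤
                ∑ j, (2 * ‖G j i z - c j‖ ^ 2 + 8 * η ^ 2) := by
              apply Finset.sum_le_sum_of_subset_of_nonneg (Finset.subset_univ _)
              intro j _ _
              positivity
            have h5 : ∑ j, (2 * ‖G j i z - c j‖ ^ 2 + 8 * η ^ 2) =
                2 * ∑ j, ‖G j i z - c j‖ ^ 2 + 8 * N * η ^ 2 := by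
              rw [Finset.sum_add_distrib, ← Finset.mul_sum, Finset.sum_const, Finset.card_univ,
                Fintype.card_fin, nsmul_eq_mul]
              ring
            have h6 := sq_nonneg ‖F j₁ i z‖
            linarith
          have h2 : 0 ≤ ∑ k, ‖(τ : ℂ) * ⟪b k, z⟫_ℂ - (τ : ℂ) * ⟪b k, l⟫_ℂ‖ ^ 2 :=
            Finset.sum_nonneg fun _ _ => sq_nonneg _
          have h3 : δ' ≤ δ / 4 := by rw [hδ']; exact min_le_left _ _
          linarith
        · have h1 : ∑ k, ‖(τ : ℂ) * ⟪b k, z⟫_ℂ - (τ : ℂ) * ⟪b k, l⟫_ℂ‖ ^ 2 = τ ^ 2 * ‖z - l‖ ^ 2 := by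
            rw [← b.sum_sq_norm_inner_right (z - l), Finset.mul_sum]
            apply Finset.sum_congr rfl
            intro k _
            rw [← mul_sub, ← inner_sub_right, norm_mul, Complex.norm_real,
              Real.norm_of_nonneg hτ0.le, mul_pow]
          rw [h1]
          have h2 : ρ l ≤ ‖z - l‖ := by
            rw [mem_ball, dist_eq_norm, not_lt] at hzl
            exact hzl
          have h3 : ρ l ^ 2 ≤ ‖z - l‖ ^ 2 := pow_le_pow_left₀ hρl.le h2 2
          have h4 : δ' ≤ τ ^ 2 * ρ l ^ 2 := by rw [hδ']; exact min_le_right _ _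
          have h5 : τ ^ 2 * ρ l ^ 2 ≤ τ ^ 2 * ‖z - l‖ ^ 2 := by gcongr
          have h6 : 0 ≤ ∑ j, ‖G j i z - c j‖ ^ 2 := Finset.sum_nonneg fun _ _ => sq_nonneg _
          have h7 := sq_nonneg ‖F j₁ i z‖
          linarith
      have hsol : ∀ i : I, j₀ i = j₁ → ∃ h : Fin (N + Module.finrank ℂ E + 1) → E → ℂ,
          (∀ j, DifferentiableOn ℂ (h j) (ball 0 1)) ∧
          (∀ j, ∀ z ∈ ball (0 : E) 1, ‖h j z‖ ≤ C) ∧
          ∀ z ∈ ball (0 : E) 1, F j₁ i z * h 0 z + ∑ j, D j i z * h (Fin.succ j) z = 1 := by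
        intro i hi
        have k1 : ∀ j, DifferentiableOn ℂ
            ((Fin.cons (F j₁ i) (fun j => D j i) : Fin (N + Module.finrank ℂ E + 1) → E → ℂ) j)
            (ball 0 1) := by
          intro j
          refine Fin.cases ?_ (fun j => ?_) j
          · rw [Fin.cons_zero]
            exact (hF j₁).holo i
          · rw [Fin.cons_succ]
            exact (hDBH j).holo i
        have k2 : ∀ j, ∀ z ∈ ball (0 : E) 1,
            ‖(Fin.cons (F j₁ i) (fun j => D j i) : Fin (N + Module.finrank ℂ E + 1) → E → ℂ) j z‖ ≤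
              M' := by
          intro j z hz
          refine Fin.cases ?_ (fun j => ?_) j
          · rw [Fin.cons_zero]
            have h1 := i.2.2.1 j₁ z hz
            have h2 := le_max_left M 0
            rw [hM']
            exact h1.trans (by linarith)
          · rw [Fin.cons_succ]
            exact hDM j i z hz
        have k3 : ∀ z ∈ ball (0 : E) 1, δ' ≤ ∑ j,
            ‖(Fin.cons (F j₁ i) (fun j => D j i) : Fin (N + Module.finrank ℂ E + 1) → E → ℂ) j z‖ ^
              2 := by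
          intro z hz
          rw [Fin.sum_univ_succ]
          simp only [Fin.cons_zero, Fin.cons_succ]
          exact hlow i hi z hz
        have k4 : ∀ j : Fin (N + Module.finrank ℂ E), SeamGrad p' K' (ω l) (S l)
            ((Fin.cons (F j₁ i) (fun j => D j i) : Fin (N + Module.finrank ℂ E + 1) → E → ℂ)
              j.succ) := by
          intro j
          rw [Fin.cons_succ]
          exact hDS j i
        obtain ⟨h, h1, h2, h3⟩ := hC _ k1 k2 k3 k4
        refine ⟨h, h1, h2, fun z hz => ?_⟩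
        have h4 := h3 z hz
        rw [Fin.sum_univ_succ] at h4
        simpa only [Fin.cons_zero, Fin.cons_succ] using h4
      choose! h hh1 hh2 hh3 using hsol
      obtain ⟨J, hJ⟩ : ∃ J : Set I, J = {i | j₀ i = j₁} := ⟨_, rfl⟩
      obtain ⟨H, hH⟩ : ∃ H : Fin (N + Module.finrank ℂ E + 1) → I → E → ℂ,
        H = fun j i z => if j₀ i = j₁ then h i j z else 0 := ⟨_, rfl⟩
      have hHBH : ∀ j, BH (H j) := by
        intro j
        refine ⟨fun i => ?_, max C 0, fun i z hz => ?_⟩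
        · rw [hH]
          by_cases hi : j₀ i = j₁
          · simp only [if_pos hi]
            exact hh1 i hi j
          · simp only [if_neg hi]
            exact differentiableOn_const _
        · rw [hH]
          by_cases hi : j₀ i = j₁
          · simp only [if_pos hi]
            exact (hh2 i hi j z hz).trans (le_max_left _ _)
          · simp only [if_neg hi, norm_zero]
            exact le_max_right _ _
      have hid : ∀ i, ∀ z ∈ ball (0 : E) 1,
          F j₁ i z * H 0 i z + ∑ j, D j i z * H (Fin.succ j) i z = Char.ind J i z := by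
        intro i z hz
        rw [hH, hJ]
        by_cases hi : j₀ i = j₁
        · simp only [if_pos hi]
          rw [hh3 i hi z hz, Char.ind_mem (by exact hi)]
        · simp only [if_neg hi, mul_zero, Finset.sum_const_zero, add_zero]
          rw [Char.ind_not_mem (by exact hi)]
      have hBH1 : BH fun i z => F j₁ i z * H 0 i z := (hF j₁).mul (hHBH 0)
      have hBH2 : BH fun i z => ∑ j, D j i z * H (Fin.succ j) i z :=
        BH.sum fun j _ => (hDBH j).mul (hHBH _)
      have h1 := Φ.congr (G := Char.ind J) (hBH1.add hBH2) (fun i z hz => (hid i z hz).symm)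
      have h2 : Φ.φ (Char.ind J) = 1 := by
        rw [hJ]
        exact hj₁
      rw [h2, Φ.map_add hBH1 hBH2, Φ.map_mul (hF j₁) (hHBH 0), hcon j₁, zero_mul, zero_add,
        Φ.map_sum fun j _ => (hDBH j).mul (hHBH _)] at h1
      have h3 : ∑ j, Φ.φ (fun i z => D j i z * H (Fin.succ j) i z) = 0 := by
        apply Finset.sum_eq_zero
        intro j _
        rw [Φ.map_mul (hDBH j) (hHBH _), hDΦ, zero_mul]
      rw [h3] at h1
      exact one_ne_zero h1)
  choose B hB using fun j => (hG j).bdd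
  refine ⟨∑ j, |B j|, ?_⟩
  intro f h1 h2 h3 h4
  refine ⟨fun j => G j ⟨f, h1, h2, h3, h4⟩, fun j => (hG j).holo _, ?_, hs ⟨f, h1, h2, h3, h4⟩⟩
  intro j z hz
  refine (hB j _ z hz).trans ((le_abs_self _).trans ?_)
  exact Finset.single_le_sum (f := fun j => |B j|) (fun k _ => abs_nonneg _) (Finset.mem_univ j)

end Pool.Agent.MPca0fc2.MX
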