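import Mathlib
import Pool.Agent.Lib.MP_ca0fc2_an.MXDefs
import Pool.Agent.Lib.MP_ca0fc2_an.MXPre
import Pool.Agent.Lib.MP_ca0fc2_an.PTGrad

set_option autoImplicit false
set_option linter.unusedSectionVars false

open Metric Set MeasureTheory Filter Topology
open scoped InnerProductSpace ENNReal

namespace Pool.Agent.MPca0fc2.MX

open Pool.Agent.MPca0fc2.PT
open Pool.Agent.MPca0fc2.SD (half_pow_pos half_pow_le_one)
open Pool.Agent.MPca0fc2.VL (Mod half_mem)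
open Pool.Agent.MPca0fc2.QS (om_le)
open Pool.Agent.Lib.MP_ca0fc2_an

variable {E : Type*} [NormedAddCommGroup E] [InnerProductSpace ℂ E]
variable [FiniteDimensional ℂ E] [MeasurableSpace E] [BorelSpace E]

/-- Functions with Carleson gradients. -/
theorem seam_of_CG {p A M : ℝ} (hM : 0 ≤ M) {u : E → ℂ} (hu : DifferentiableOn ℂ u (ball 0 1))
    (huM : ∀ z ∈ ball (0 : E) 1, ‖u z‖ ≤ M) (h : CarlesonGradient p A u) :
    SeamGrad p (max A 0) (fun _ => 2 * M + 1) ∅ u := by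
  obtain ⟨ν, h1, h2⟩ := h
  refine ⟨fun z hz => ?_, fun a => ⟨ν, fun _ => 0, fun w hw => (h1 w hw).trans
    (ENNReal.ofReal_le_ofReal (le_max_left _ _)), fun _ => le_rfl, ?_, ?_⟩⟩
  · have := Pool.Agent.MPca0fc2.QS.grad_cauchy hu hM huM hz
    linarith
  · intro n
    simp
  · intro k _ _ z hz1 _
    have hk0 := half_pow_pos (k + 1)
    rw [add_zero]
    exact h2 z (mem_ball_zero_iff.mpr (by linarith))

/-- the invariant gradient is bounded by the anisotropic bound of the derivative -/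
theorem IG_le_of_gau {u : E → ℂ} {z : E} (hz : ‖z‖ < 1) {B : ℝ} (hB : 0 ≤ B)
    (h : ∀ X, ‖fderiv ℂ u z X‖ ≤ B * gau (1 - ‖z‖ ^ 2) z X) : invGrad2 u z ≤ 4 * B ^ 2 := by
  have hcomp : CompleteSpace E := FiniteDimensional.complete ℂ E
  obtain ⟨L, hL⟩ : ∃ L, L = fderiv ℂ u z := ⟨_, rfl⟩
  obtain ⟨a, ha⟩ : ∃ a : E, a = (InnerProductSpace.toDual ℂ E).symm L := ⟨_, rfl⟩
  have hLa : ∀ x, L x = ⟪a, x⟫_ℂ := by
    intro x
    rw [ha, InnerProductSpace.toDual_symm_apply]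
  have hLn : ‖L‖ = ‖a‖ := by rw [ha, LinearIsometryEquiv.norm_map]
  obtain ⟨t, ht⟩ : ∃ t, t = 1 - ‖z‖ ^ 2 := ⟨_, rfl⟩
  have ht0 : 0 < t := by rw [ht]; nlinarith [norm_nonneg z]
  have hst : 0 < Real.sqrt t := Real.sqrt_pos.mpr ht0
  obtain ⟨c, hc⟩ : ∃ c, c = ‖⟪z, a⟫_ℂ‖ := ⟨_, rfl⟩
  have hc' : ‖⟪a, z⟫_ℂ‖ = c := by rw [hc, norm_inner_symm]
  have hc0 : 0 ≤ c := by rw [hc]; exact norm_nonneg _
  obtain ⟨q, hq⟩ : ∃ q, q = ‖a‖ ^ 2 - c ^ 2 := ⟨_, rfl⟩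
  have hI : invGrad2 u z = t * q := by
    unfold invGrad2
    rw [← hL, hLn, hLa z, hc', ← ht, hq]
  obtain ⟨X, hX⟩ : ∃ X : E, X = a - ⟪z, a⟫_ℂ • z := ⟨_, rfl⟩
  have hzz : ⟪z, z⟫_ℂ = ((‖z‖ ^ 2 : ℝ) : ℂ) := by
    rw [inner_self_eq_norm_sq_to_K]; norm_cast
  have haa : ⟪a, a⟫_ℂ = ((‖a‖ ^ 2 : ℝ) : ℂ) := by
    rw [inner_self_eq_norm_sq_to_K]; norm_cast
  have hcc : ⟪a, z⟫_ℂ * ⟪z, a⟫_ℂ = ((c ^ 2 : ℝ) : ℂ) := by
    rw [← inner_conj_symm a z, mul_comm, Complex.mul_conj, Complex.normSq_eq_norm_sq, hc]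
  have hLX : L X = ((q : ℝ) : ℂ) := by
    rw [hLa, hX, inner_sub_right, inner_smul_right, haa]
    rw [show ⟪z, a⟫_ℂ * ⟪a, z⟫_ℂ = ((c ^ 2 : ℝ) : ℂ) by rw [mul_comm]; exact hcc, hq]
    push_cast
    ring
  have hzX : ‖⟪z, X⟫_ℂ‖ = t * c := by
    have e : ⟪z, X⟫_ℂ = (t : ℂ) * ⟪z, a⟫_ℂ := by
      rw [hX, inner_sub_right, inner_smul_right, hzz, ht]
      push_cast
      ring
    rw [e, norm_mul, Complex.norm_real, Real.norm_of_nonneg ht0.le, ← hc]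
  have hXn : ‖X‖ ^ 2 = q - t * c ^ 2 := by
    have e : ((‖X‖ ^ 2 : ℝ) : ℂ) = ((q - t * c ^ 2 : ℝ) : ℂ) := by
      have e1 : ((‖X‖ ^ 2 : ℝ) : ℂ) = ⟪X, X⟫_ℂ := by
        rw [inner_self_eq_norm_sq_to_K]; norm_cast
      rw [e1, hX, inner_sub_left, inner_sub_right, inner_sub_right, inner_smul_left,
        inner_smul_left, inner_smul_right, inner_smul_right, haa, hzz, inner_conj_symm]
      have e2 : ⟪z, a⟫_ℂ * ⟪a, z⟫_ℂ = ((c ^ 2 : ℝ) : ℂ) := by rw [mul_comm]; exact hcc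
      have e3 : ⟪a, z⟫_ℂ * (⟪z, a⟫_ℂ * ((‖z‖ ^ 2 : ℝ) : ℂ)) = ((c ^ 2 * ‖z‖ ^ 2 : ℝ) : ℂ) := by
        rw [← mul_assoc, hcc]; push_cast; ring
      rw [e2, e3, hcc, hq, ht]
      push_cast
      ring
    exact_mod_cast e
  have hq0 : t * c ^ 2 ≤ q := by
    have := sq_nonneg ‖X‖
    linarith
  have hq0' : 0 ≤ q := le_trans (by positivity) hq0
  have hXs : ‖X‖ ≤ Real.sqrt q := by
    apply Real.le_sqrt_of_sq_le
    rw [hXn]
    have : 0 ≤ t * c ^ 2 := by positivity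
    linarith
  have hcs : c ≤ Real.sqrt q / Real.sqrt t := by
    rw [le_div_iff₀ hst]
    have e1 : c * Real.sqrt t = Real.sqrt (t * c ^ 2) := by
      rw [Real.sqrt_mul ht0.le, Real.sqrt_sq hc0, mul_comm]
    rw [e1]
    exact Real.sqrt_le_sqrt hq0
  have hg : gau t z X ≤ 2 * (Real.sqrt q / Real.sqrt t) := by
    unfold gau
    rw [hzX]
    have e1 : t * c / t = c := by field_simp
    rw [e1]
    have e2 : ‖X‖ / Real.sqrt t ≤ Real.sqrt q / Real.sqrt t := by gcongr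
    linarith
  have h1 := h X
  rw [← hL, hLX, Complex.norm_real, Real.norm_of_nonneg hq0', ← ht] at h1
  have h2 : q ≤ B * (2 * (Real.sqrt q / Real.sqrt t)) := h1.trans (by gcongr)
  have h3 : q * Real.sqrt t ≤ 2 * B * Real.sqrt q := by
    have e1 : B * (2 * (Real.sqrt q / Real.sqrt t)) * Real.sqrt t = 2 * B * Real.sqrt q := by
      field_simp
    calc q * Real.sqrt t ≤ B * (2 * (Real.sqrt q / Real.sqrt t)) * Real.sqrt t := by gcongr
      _ = _ := e1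
  rw [hI]
  rcases hq0'.eq_or_lt with h0 | h0
  · rw [← h0, mul_zero]; positivity
  · have hsq : 0 < Real.sqrt q := Real.sqrt_pos.mpr h0
    have hqq : Real.sqrt q * Real.sqrt q = q := Real.mul_self_sqrt hq0'
    have htt : Real.sqrt t * Real.sqrt t = t := Real.mul_self_sqrt ht0.le
    have h4 : Real.sqrt q * Real.sqrt t ≤ 2 * B := by
      have h5 : Real.sqrt q * (Real.sqrt q * Real.sqrt t) ≤ Real.sqrt q * (2 * B) := by
        rw [← mul_assoc, hqq]; linarith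
      exact le_of_mul_le_mul_left h5 hsq
    have h5 : (Real.sqrt q * Real.sqrt t) ^ 2 ≤ (2 * B) ^ 2 :=
      pow_le_pow_left₀ (by positivity) h4 2
    calc t * q = (Real.sqrt q * Real.sqrt t) ^ 2 := by
          rw [mul_pow, pow_two, pow_two, hqq, htt]; ring
      _ ≤ (2 * B) ^ 2 := h5
      _ = 4 * B ^ 2 := by ring

/-- Functions with summable gradients on blocks. -/
theorem seam_of_sum {p K₀ : ℝ} {ω : ℝ → ℝ} (hω : Mod ω) {S : Set ℕ} (hp : 0 < p)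
    {g : E → ℂ} (hg : DifferentiableOn ℂ g (ball 0 1))
    (hgr : ∀ z ∈ ball (0 : E) 1, (1 - ‖z‖) * ‖fderiv ℂ g z‖ ≤ ω (1 - ‖z‖))
    (hsum : ∀ (a n : ℕ) (T : Finset ℕ), (∀ k ∈ T, k < n ∧ a ≤ k ∧ ∀ l ∈ S, l ≤ a ∨ k < l) →
      ∑ k ∈ T, ω ((1 / 2) ^ k) ^ p ≤ K₀) :
    SeamGrad p ((4 * 10 ^ 7) ^ p * K₀) ω S g := by
  classical
  refine ⟨hgr, fun a => ⟨0, fun k => if (a ≤ k ∧ ∀ l ∈ S, l ≤ a ∨ k < l) then
    (4 * 10 ^ 7) ^ p * ω ((1 / 2) ^ k) ^ p else 0, ?_, ?_, ?_, ?_⟩⟩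
  · intro w hw; simp
  · intro k
    have h1 := (hω.1 _ (half_mem k)).le
    simp only
    split_ifs
    · positivity
    · exact le_rfl
  · intro n
    rw [← Finset.sum_filter, ← Finset.mul_sum]
    apply mul_le_mul_of_nonneg_left _ (by positivity)
    apply hsum a n
    intro k hk
    rw [Finset.mem_filter, Finset.mem_range] at hk
    exact hk
  · intro k hak hS z hz1 hz2
    have hk0 := half_pow_pos (k + 1)
    have hz' : ‖z‖ < 1 := by linarith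
    have hn := norm_nonneg z
    have hcond : a ≤ k ∧ ∀ l ∈ S, l ≤ a ∨ k < l := ⟨hak, hS⟩
    simp only [Measure.restrict_zero, integral_zero_measure, zero_add, if_pos hcond]
    obtain ⟨t, ht⟩ : ∃ t, t = 1 - ‖z‖ ^ 2 := ⟨_, rfl⟩
    have ht1 : 1 - ‖z‖ ≤ t := by rw [ht]; nlinarith
    have ht2 : t ≤ 2 * (1 - ‖z‖) := by rw [ht]; nlinarith
    have htm : t ∈ Ioc (0 : ℝ) 1 := ⟨by linarith, by rw [ht]; nlinarith⟩
    have h2 := om_le hω (s := t) (t := (1 / 2) ^ k) (A := 2) htm (half_mem k) (by norm_num)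
      (by linarith)
      (by
        have e1 : (1 / 2 : ℝ) ^ (k + 1) = (1 / 2) ^ k / 2 := by rw [pow_succ]; ring
        linarith)
    have h3 : (2 : ℝ) ^ (1 / 8 : ℝ) ≤ 2 := by
      calc (2 : ℝ) ^ (1 / 8 : ℝ) ≤ (2 : ℝ) ^ (1 : ℝ) :=
            Real.rpow_le_rpow_of_exponent_le (by norm_num) (by norm_num)
        _ = 2 := Real.rpow_one _
    have hωk := hω.1 _ (half_mem k)
    have hωt := hω.1 t htm
    obtain ⟨B, hB⟩ : ∃ B, B = 10 ^ 7 * ω t := ⟨_, rfl⟩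
    have hB0 : 0 ≤ B := by rw [hB]; positivity
    have h4 := IG_le_of_gau hz' hB0 (fun X => by
      have := Pool.Agent.MPca0fc2.QS.gu_of hω hg hgr hz' X
      rw [hB, ht]
      exact this)
    have hIG : 0 ≤ invGrad2 g z := gd_IG_nonneg hz'
    have h5 : 2 * B ≤ 4 * 10 ^ 7 * ω ((1 / 2) ^ k) := by
      rw [hB]
      have : ω t ≤ ω ((1 / 2) ^ k) * 2 := h2.trans (by gcongr)
      linarith
    calc invGrad2 g z ^ (p / 2) ≤ ((2 * B) ^ 2) ^ (p / 2) := by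
          apply Real.rpow_le_rpow hIG _ (by positivity)
          linarith
      _ = (2 * B) ^ p := by
          rw [← Real.rpow_natCast, ← Real.rpow_mul (by positivity)]
          congr 1
          push_cast
          ring
      _ ≤ (4 * 10 ^ 7 * ω ((1 / 2) ^ k)) ^ p := Real.rpow_le_rpow (by positivity) h5 hp.le
      _ = (4 * 10 ^ 7) ^ p * ω ((1 / 2) ^ k) ^ p := Real.mul_rpow (by positivity) hωk.le

end Pool.Agent.MPca0fc2.MX
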