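import Mathlib
import Pool.Agent.Lib.MP_ca0fc2_an.CGCls
import Pool.Agent.Lib.MP_ca0fc2_an.MXAdd
import Pool.Agent.Lib.MP_ca0fc2_an.MXDefs
import Pool.Agent.Lib.MP_ca0fc2_an.MXMeas
import Pool.Agent.Lib.MP_ca0fc2_an.MXPre
import Pool.Agent.Lib.MP_ca0fc2_an.MXRad
import Pool.Agent.Lib.MP_ca0fc2_an.Mg.G008

set_option autoImplicit false
set_option linter.unusedSectionVars false

open Metric Set MeasureTheory Filter Topology
open scoped InnerProductSpace ENNReal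

namespace Pool.Agent.MPca0fc2.MX

open Pool.Agent.MPca0fc2.PT
open Pool.Agent.MPca0fc2.VL (Mod half_mem)
open Pool.Agent.Lib.MP_ca0fc2_an

section scales

variable {E : Type*} [NormedAddCommGroup E] [InnerProductSpace ℂ E]

/-- the radial potential of a scale is bounded from below on this scale -/
theorem rad_lower {k : ℕ} {y : E} (h1 : (1 / 2 : ℝ) ^ (k + 1) < 1 - ‖y‖)
    (h2 : 1 - ‖y‖ ≤ (1 / 2) ^ k) : 1 / 5 ≤ EE (rad E ((1 / 2) ^ k)) y := by
  rw [rad_EE]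
  have hk : (0 : ℝ) < (1 / 2) ^ k := by positivity
  have hn := norm_nonneg y
  have hk1 : (0 : ℝ) < (1 / 2) ^ (k + 1) := by positivity
  have hy1 : ‖y‖ < 1 := by linarith
  obtain ⟨x, hx⟩ : ∃ x, x = (1 - ‖y‖ ^ 2) / (1 / 2) ^ k := ⟨_, rfl⟩
  rw [← hx]
  have hx1 : 1 / 2 ≤ x := by
    rw [hx, le_div_iff₀ hk]
    rw [pow_succ] at h1
    nlinarith only [h1, hn, hy1]
  have hx2 : x ≤ 2 := by
    rw [hx, div_le_iff₀ hk]
    nlinarith only [h2, sq_nonneg (‖y‖ - 1)]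
  unfold ph
  rw [div_le_div_iff₀ (by norm_num) (by positivity)]
  have h3 : 1 / 4 ≤ x ^ 2 := by nlinarith only [hx1]
  have h4 : x ^ 2 ≤ 4 := by nlinarith only [hx1, hx2]
  nlinarith only [h3, h4]

/-- a sum of radial potentials -/
noncomputable def rsum (E : Type*) [NormedAddCommGroup E] [InnerProductSpace ℂ E] (n : ℕ)
    (c : ℕ → ℝ) (hc : ∀ k, 0 ≤ c k) : Ptl E :=
  Ptl.sum (Finset.range n) fun k => (rad E ((1 / 2) ^ k)).smul (c k) (hc k)

theorem Carl.rsum {n : ℕ} {c : ℕ → ℝ} (hc : ∀ k, 0 ≤ c k) :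
    Carl (MX.rsum E n c hc) (∑ k ∈ Finset.range n, c k) := by
  have h := Carl.sum (Finset.range n) (ν := fun k => (MX.rad E ((1 / 2) ^ k)).smul (c k) (hc k))
    (A := fun k => c k * 1) (fun k _ => Carl.smul (hc k) (Carl.rad (by positivity)))
  simp only [mul_one] at h
  exact h

theorem rsum_lower {n : ℕ} {c : ℕ → ℝ} (hc : ∀ k, 0 ≤ c k) {k : ℕ} (hk : k < n) {y : E}
    (h1 : (1 / 2 : ℝ) ^ (k + 1) < 1 - ‖y‖) (h2 : 1 - ‖y‖ ≤ (1 / 2) ^ k) :
    c k / 5 ≤ EE (rsum E n c hc) y := by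
  unfold rsum
  rw [sum_EE]
  have h3 := Finset.single_le_sum (f := fun k => EE ((rad E ((1 / 2) ^ k)).smul (c k) (hc k)) y)
    (fun i _ => EE_nonneg _ y) (Finset.mem_range.mpr hk)
  refine le_trans ?_ h3
  rw [smul_EE]
  have h4 := rad_lower h1 h2
  have h5 := hc k
  nlinarith only [h4, h5]

/-- the scale of a point -/
theorem exists_scale {y : E} (hy : ‖y‖ < 1) :
    ∃ k : ℕ, (1 / 2 : ℝ) ^ (k + 1) < 1 - ‖y‖ ∧ 1 - ‖y‖ ≤ (1 / 2) ^ k :=
  exists_nat_pow_near_of_lt_one (by linarith) (by linarith [norm_nonneg y]) (by norm_num)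
    (by norm_num)

end scales

section main

variable {E : Type*} [NormedAddCommGroup E] [InnerProductSpace ℂ E]
variable [FiniteDimensional ℂ E]

/-- the bound for the derivative -/
theorem grad_IG {u : E → ℂ} {p e : ℝ} (hp : 0 < p) {y : E} (hy : ‖y‖ < 1)
    (h : invGrad2 u y ^ (p / 2) ≤ e) (X : E) :
    ‖fderiv ℂ u y X‖ ≤ 3 * e ^ (1 / p) * gau (1 - ‖y‖ ^ 2) y X := by
  obtain ⟨v, hv, hvn⟩ := gg'_zero_surj hy X
  have h1 := gd_IG (u := u) hy v
  rw [hv] at h1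
  have h3 : 0 ≤ IG2 u y := gd_IG_nonneg hy
  have h4 : Real.sqrt (IG2 u y) ≤ e ^ (1 / p) := by
    have h5 : IG2 u y ^ (p / 2) ≤ e := h
    calc Real.sqrt (IG2 u y) =
          (IG2 u y ^ (p / 2)) ^ (1 / p) := by
          rw [← Real.rpow_mul h3, Real.sqrt_eq_rpow]
          congr 1
          field_simp
      _ ≤ _ := Real.rpow_le_rpow (Real.rpow_nonneg h3 _) h5 (by positivity)
  have h6 : 0 ≤ e ^ (1 / p) := (Real.sqrt_nonneg _).trans h4
  calc _ ≤ Real.sqrt (IG2 u y) * ‖v‖ := h1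
    _ ≤ e ^ (1 / p) * (3 * gau (1 - ‖y‖ ^ 2) y X) := by gcongr
    _ = _ := by ring

/-- the bound for the derivative in an exceptional scale -/
theorem grad_B {u : E → ℂ} (hu : DifferentiableOn ℂ u (ball 0 1)) {ω : ℝ → ℝ} (hω : Mod ω)
    (hgr : ∀ z ∈ ball (0 : E) 1, (1 - ‖z‖) * ‖fderiv ℂ u z‖ ≤ ω (1 - ‖z‖)) {p B e : ℝ} (hp : 0 < p)
    (hB : 0 ≤ B) {y : E} (hy : ‖y‖ < 1) (h : 10 ^ 7 * ω (1 - ‖y‖ ^ 2) ≤ B) (he : 5 * B ^ p / 5 ≤ e)
    (X : E) : ‖fderiv ℂ u y X‖ ≤ 3 * e ^ (1 / p) * gau (1 - ‖y‖ ^ 2) y X := by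
  have h1 := Pool.Agent.MPca0fc2.QS.gu_of hω hu hgr hy X
  have h2 : 0 ≤ gau (1 - ‖y‖ ^ 2) y X := PT.gau_nonneg (by nlinarith only [norm_nonneg y, hy]) y X
  have h3 : B ≤ e ^ (1 / p) := by
    have h4 : B ^ p ≤ e := by linarith
    calc B = (B ^ p) ^ (1 / p) := by
          rw [← Real.rpow_mul hB, mul_one_div_cancel hp.ne', Real.rpow_one]
      _ ≤ _ := Real.rpow_le_rpow (Real.rpow_nonneg hB _) h4 (by positivity)
  have h5 : 0 ≤ e ^ (1 / p) := hB.trans h3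
  calc _ ≤ 10 ^ 7 * ω (1 - ‖y‖ ^ 2) * gau (1 - ‖y‖ ^ 2) y X := h1
    _ ≤ (3 * e ^ (1 / p)) * gau (1 - ‖y‖ ^ 2) y X := by
        apply mul_le_mul_of_nonneg_right _ h2
        linarith

variable [MeasurableSpace E] [BorelSpace E]

/-- the potential of a block -/
theorem exists_pot {N : ℕ} {F : Fin N → E → ℂ} (hF : ∀ j, DifferentiableOn ℂ (F j) (ball 0 1))
    {ω : ℝ → ℝ} (hω : Mod ω) {p K : ℝ} {S : Set ℕ} (hp : 0 < p)
    (hS : ∀ j, SeamGrad p K ω S (F j)) (a n : ℕ) {B : ℕ → ℝ} (hB : ∀ k, 0 ≤ B k) :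
    ∃ P : Ptl E, Carl P (N * (max K 0 + 5 * K) + ∑ k ∈ Finset.range n, 5 * B k ^ p) ∧
      ∀ j, ∀ y : E, ‖y‖ < 1 → ∀ k, k < n → (1 / 2 : ℝ) ^ (k + 1) < 1 - ‖y‖ →
        1 - ‖y‖ ≤ (1 / 2) ^ k →
        ((a ≤ k ∧ ∀ l ∈ S, l ≤ a ∨ k < l) ∨ 10 ^ 7 * ω (1 - ‖y‖ ^ 2) ≤ B k) →
        ∀ X : E, ‖fderiv ℂ (F j) y X‖ ≤ 3 * EE P y ^ (1 / p) * gau (1 - ‖y‖ ^ 2) y X := by
  classical
  choose h0 h1 using hS
  have h2 := fun j => h1 j a
  choose ν s hν hs hsK hg using h2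
  have hc : ∀ j k, 0 ≤ 5 * s j k := fun j k => by have := hs j k; positivity
  have hB5 : ∀ k, 0 ≤ 5 * B k ^ p := fun k => by have := Real.rpow_nonneg (hB k) p; positivity
  have hK0 : N ≠ 0 → 0 ≤ K := by
    intro hN
    have := hsK ⟨0, Nat.pos_of_ne_zero hN⟩ 0
    simpa using this
  refine ⟨(Ptl.sum Finset.univ fun j => (ofM ((ν j).restrict (ball 0 1))).add
    (rsum E n (fun k => 5 * s j k) (hc j))).add (rsum E n (fun k => 5 * B k ^ p) hB5), ?_, ?_⟩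
  · apply Carl.add _ (Carl.rsum hB5)
    have e1 := Carl.sum (Finset.univ : Finset (Fin N))
      (ν := fun j => (ofM ((ν j).restrict (ball (0 : E) 1))).add
        (rsum E n (fun k => 5 * s j k) (hc j)))
      (A := fun _ => max K 0 + 5 * K) (fun j _ => by
        apply Carl.add (Carl.ofM (Pool.Agent.MPca0fc2.CG.carl_of (hν j)))
        refine (Carl.rsum (hc j)).mono ?_
        rw [← Finset.mul_sum]
        have := hsK j n
        linarith)
    refine e1.mono ?_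
    rw [Finset.sum_const, Finset.card_univ, Fintype.card_fin, nsmul_eq_mul]
  · intro j y hy k hk hy1 hy2 hcase X
    rcases hcase with ⟨hak, hS'⟩ | hB'
    · apply grad_IG hp hy _ X
      refine (hg j k hak hS' y hy1 hy2).trans ?_
      rw [add_EE, sum_EE]
      have e1 := Finset.single_le_sum (s := (Finset.univ : Finset (Fin N)))
        (f := fun j => EE ((ofM ((ν j).restrict (ball (0 : E) 1))).add
          (rsum E n (fun k => 5 * s j k) (hc j))) y)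
        (fun i _ => EE_nonneg _ y) (Finset.mem_univ j)
      have e2 := EE_nonneg (rsum E n (fun k => 5 * B k ^ p) hB5) y
      rw [add_EE] at e1
      have e3 := rsum_lower (hc j) hk hy1 hy2
      have e4 : (5 * s j k) / 5 = s j k := by ring
      rw [e4] at e3
      have e5 : EE (ofM ((ν j).restrict (ball (0 : E) 1))) y =
          ∫ ξ in ball (0 : E) 1, invKer y ξ ^ 2 ∂(ν j) := rfl
      rw [e5] at e1
      linarith
    · apply grad_B (hF j) hω (h0 j) hp (hB k) hy hB' _ X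
      rw [add_EE]
      have e1 := rsum_lower hB5 hk hy1 hy2
      have e2 := EE_nonneg (Ptl.sum Finset.univ fun j => (ofM ((ν j).restrict (ball (0 : E) 1))).add
        (rsum E n (fun k => 5 * s j k) (hc j))) y
      linarith

end main

end Pool.Agent.MPca0fc2.MX
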