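import Mathlib
import Pool.Agent.Lib.MP_ca0fc2_an.MXMain
import Pool.Agent.Lib.MP_ca0fc2_an.MXStmt

set_option autoImplicit false
set_option linter.unusedSectionVars false

open Metric Set MeasureTheory Filter Topology
open scoped InnerProductSpace ENNReal

namespace Pool.Agent.MPca0fc2.MX

open Pool.Agent.MPca0fc2.PT
open Pool.Agent.MPca0fc2.SD (rr half_pow_pos half_pow_le_one)
open Pool.Agent.MPca0fc2.VL (Mod half_mem)
open Pool.Agent.Lib.MP_ca0fc2_an

/-- The theorem for finite sets of seams. -/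
theorem main_fin_of {E : Type*} [NormedAddCommGroup E] [InnerProductSpace ℂ E]
    [FiniteDimensional ℂ E] [MeasurableSpace E] [BorelSpace E] (hdim : 2 ≤ Module.finrank ℂ E)
    (N : ℕ) (M δ K p : ℝ) (hδ : 0 < δ) (hp : 4 ≤ p) {ω : ℝ → ℝ} (hω : Mod ω) {S : Set ℕ}
    (hS : S.Finite) (HB : ∀ A, BlockStmt E N M δ A p) (HD : DilStmt E N) :
    ∃ C' : ℝ, ∀ F : Fin (N + 1) → E → ℂ,
      (∀ j, DifferentiableOn ℂ (F j) (ball 0 1)) →
      (∀ j, ∀ z ∈ ball (0 : E) 1, ‖F j z‖ ≤ M) →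
      (∀ z ∈ ball (0 : E) 1, δ ≤ ∑ j, ‖F j z‖ ^ 2) →
      (∀ j : Fin N, SeamGrad p K ω S (F j.succ)) → SolvableOn F (ball 0 1) C' := by
  classical
  obtain ⟨a, ha⟩ := hS.bddAbove
  have ha' : ∀ l ∈ S, l ≤ a := fun l hl => ha hl
  have hω1 : 0 < ω 1 := hω.1 1 ⟨one_pos, le_rfl⟩
  obtain ⟨B₀, hB₀⟩ : ∃ B₀ : ℝ, B₀ = 10 ^ 7 * (ω 1 * (2 ^ a : ℝ)) := ⟨_, rfl⟩
  have hB₀0 : 0 ≤ B₀ := by rw [hB₀]; positivity
  obtain ⟨A, hA⟩ : ∃ A : ℝ, A = N * (max K 0 + 5 * |K|) + a * (5 * B₀ ^ p) := ⟨_, rfl⟩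
  obtain ⟨C, Λ, hC, hΛ, hblock⟩ := HB A
  refine ⟨C, ?_⟩
  intro F hF hFM hFδ hFg
  -- a unit vector
  obtain ⟨x, hx⟩ : ∃ x : E, x ≠ 0 := by
    have : Nontrivial E := Module.nontrivial_of_finrank_pos (R := ℂ) (by omega)
    exact exists_ne 0
  obtain ⟨e, he⟩ : ∃ e : E, ‖e‖ = 1 := ⟨((‖x‖⁻¹ : ℝ) : ℂ) • x, by
    rw [norm_smul, Complex.norm_real, norm_inv, norm_norm, inv_mul_cancel₀ (norm_ne_zero_iff.mpr hx)]⟩
  have hsolve : ∀ n : ℕ, SolvableOn F {z | ‖z‖ < rr (n + 1) ∧ ‖1 - ⟪e, z⟫_ℂ‖ < 3} C := by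
    intro n
    obtain ⟨B, hB⟩ : ∃ B : ℕ → ℝ, B = fun k => if k < a then B₀ else 0 := ⟨_, rfl⟩
    have hBn : ∀ k, 0 ≤ B k := by
      intro k; rw [hB]; simp only; split_ifs
      · exact hB₀0
      · exact le_rfl
    obtain ⟨P, hP1, hP2⟩ := exists_pot (fun j : Fin N => hF j.succ) hω (by linarith) hFg a (n + 1)
      hBn
    have hr0 : 0 < rr (n + 1) := by
      unfold rr
      have : (1 / 2 : ℝ) ^ (n + 1) ≤ (1 / 2) ^ 1 :=
        pow_le_pow_of_le_one (by norm_num) (by norm_num) (by omega)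
      norm_num at this ⊢
      linarith
    have hr1 : rr (n + 1) < 1 := by
      unfold rr
      have := half_pow_pos (n + 1)
      linarith
    apply hblock F P (rr (n + 1)) 3 e hF hFM hFδ (hP1.mono _) hr0 hr1 he (by linarith)
    · intro j y hy _ X
      obtain ⟨k, hk1, hk2⟩ := exists_scale (y := y) (by linarith)
      have hkn : k < n + 1 := by
        by_contra hcon
        push Not at hcon
        have h1 : (1 / 2 : ℝ) ^ k ≤ (1 / 2) ^ (n + 1) :=
          pow_le_pow_of_le_one (by norm_num) (by norm_num) hcon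
        unfold rr at hy
        linarith
      apply hP2 j y (by linarith) k hkn hk1 hk2 _ X
      by_cases hka : a ≤ k
      · exact Or.inl ⟨hka, fun l hl => Or.inl (ha' l hl)⟩
      · right
        push Not at hka
        rw [hB]
        simp only [if_pos hka]
        rw [hB₀]
        have hn := norm_nonneg y
        have hp1 : (0 : ℝ) < (1 / 2) ^ (k + 1) := by positivity
        have ht : (1 / 2 : ℝ) ^ a ≤ 1 - ‖y‖ ^ 2 := by
          have h1 : (1 / 2 : ℝ) ^ a ≤ (1 / 2) ^ (k + 1) :=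
            pow_le_pow_of_le_one (by norm_num) (by norm_num) hka
          have hy1 : ‖y‖ < 1 := by linarith only [hk1, hp1]
          nlinarith only [h1, hk1, hn, hy1]
        have ht0 : 0 < 1 - ‖y‖ ^ 2 := lt_of_lt_of_le (by positivity) ht
        have ht1 : 1 - ‖y‖ ^ 2 ≤ 1 := by linarith only [sq_nonneg ‖y‖]
        have h2 := (hω.2 (1 - ‖y‖ ^ 2) ⟨ht0, ht1⟩ 1 ⟨one_pos, le_rfl⟩ ht1).1
        have h3 : (1 / (1 - ‖y‖ ^ 2)) ^ (1 / 8 : ℝ) ≤ 2 ^ a := by
          have h4 : 1 ≤ 1 / (1 - ‖y‖ ^ 2) := by rw [le_div_iff₀ ht0]; linarith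
          calc (1 / (1 - ‖y‖ ^ 2)) ^ (1 / 8 : ℝ) ≤ (1 / (1 - ‖y‖ ^ 2)) ^ (1 : ℝ) :=
                Real.rpow_le_rpow_of_exponent_le h4 (by norm_num)
            _ = 1 / (1 - ‖y‖ ^ 2) := Real.rpow_one _
            _ ≤ 1 / (1 / 2) ^ a := one_div_le_one_div_of_le (by positivity) ht
            _ = 2 ^ a := by rw [one_div_pow, one_div_one_div]
        gcongr
        exact h2.trans (by gcongr)
    · rw [hA]
      have h1 : (N : ℝ) * (max K 0 + 5 * K) ≤ N * (max K 0 + 5 * |K|) := by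
        gcongr
        exact le_abs_self K
      have h2 : ∑ k ∈ Finset.range (n + 1), 5 * B k ^ p ≤ a * (5 * B₀ ^ p) := by
        have h3 : ∀ k, 5 * B k ^ p = if k < a then 5 * B₀ ^ p else 0 := by
          intro k
          rw [hB]
          simp only
          split_ifs
          · rfl
          · rw [Real.zero_rpow (by linarith), mul_zero]
        simp only [h3]
        rw [← Finset.sum_filter, Finset.sum_const, nsmul_eq_mul]
        have h4 : ((Finset.range (n + 1)).filter fun k => k < a).card ≤ a := by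
          calc _ ≤ (Finset.range a).card := by
                apply Finset.card_le_card
                intro k hk
                rw [Finset.mem_filter] at hk
                exact Finset.mem_range.mpr hk.2
            _ = a := Finset.card_range a
        have h5 : 0 ≤ 5 * B₀ ^ p := by have := Real.rpow_nonneg hB₀0 p; positivity
        have h6 : ((((Finset.range (n + 1)).filter fun k => k < a).card : ℕ) : ℝ) ≤ a := by
          exact_mod_cast h4
        exact mul_le_mul_of_nonneg_right h6 h5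
      linarith
  apply HD F C hF hC
  intro n
  obtain ⟨h, h1, h2, h3⟩ := hsolve n
  have hr0 : 0 < rr (n + 1) := by
    unfold rr
    have : (1 / 2 : ℝ) ^ (n + 1) ≤ (1 / 2) ^ 1 :=
      pow_le_pow_of_le_one (by norm_num) (by norm_num) (by omega)
    norm_num at this ⊢
    linarith
  have hmap : ∀ z ∈ ball (0 : E) 1, ((rr (n + 1) : ℝ) : ℂ) • z ∈
      {z : E | ‖z‖ < rr (n + 1) ∧ ‖1 - ⟪e, z⟫_ℂ‖ < 3} := by
    intro z hz
    rw [mem_ball_zero_iff] at hz
    have h5 : ‖((rr (n + 1) : ℝ) : ℂ) • z‖ < rr (n + 1) := by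
      rw [norm_smul, Complex.norm_real, Real.norm_of_nonneg hr0.le]
      exact mul_lt_of_lt_one_right hr0 hz
    refine ⟨h5, ?_⟩
    have h6 := norm_sub_le (1 : ℂ) ⟪e, ((rr (n + 1) : ℝ) : ℂ) • z⟫_ℂ
    have h7 := norm_inner_le_norm (𝕜 := ℂ) e (((rr (n + 1) : ℝ) : ℂ) • z)
    rw [he, one_mul] at h7
    rw [norm_one] at h6
    have h8 : rr (n + 1) < 1 := by
      unfold rr
      have := half_pow_pos (n + 1)
      linarith
    linarith
  refine ⟨fun j z => h j (((rr (n + 1) : ℝ) : ℂ) • z), ?_, ?_, ?_⟩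
  · intro j
    exact (h1 j).comp (differentiable_id.const_smul ((rr (n + 1) : ℝ) : ℂ)).differentiableOn hmap
  · intro z hz
    rw [pi_norm_le_iff_of_nonneg hC]
    exact fun j => h2 j _ (hmap z hz)
  · intro z hz
    exact h3 _ (hmap z hz)

end Pool.Agent.MPca0fc2.MX
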