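import Mathlib
import Pool.Agent.Lib.MP_ca0fc2_an.MXMain
import Pool.Agent.Lib.MP_ca0fc2_an.MXStmt

set_option autoImplicit false
set_option linter.unusedSectionVars false

open Metric Set MeasureTheory Filter Topology
open scoped InnerProductSpace ENNReal

namespace Pool.Agent.MPca0fc2.MX

open Pool.Agent.MPca0fc2.PT
open Pool.Agent.MPca0fc2.SD (rr half_pow_pos half_pow_le_one)
open Pool.Agent.MPca0fc2.VL (Mod half_mem)
open Pool.Agent.MPca0fc2.QS (om_le)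
open Pool.Agent.Lib.MP_ca0fc2_an

/-- the enumeration of the seams -/
theorem exists_enum {S : Set ℕ} (hS : S.Infinite) :
    ∃ κ : ℕ → ℕ, StrictMono κ ∧ (∀ b, κ b ∈ S) ∧ ∀ l ∈ S, ∃ b, κ b = l := by
  classical
  have : Infinite S := hS.to_subtype
  refine ⟨Nat.orderEmbeddingOfSet S, (Nat.orderEmbeddingOfSet S).strictMono, ?_, ?_⟩
  · intro b
    exact (Nat.orderEmbeddingOfSet_range S).subset (mem_range_self b)
  · intro l hl
    exact (Nat.orderEmbeddingOfSet_range S).symm.subset hl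

theorem two_pow_half {k m : ℕ} (h : k < m) :
    (2 : ℝ) ^ (m - k - 1) * (1 / 2) ^ m = (1 / 2) ^ (k + 1) := by
  obtain ⟨i, rfl⟩ : ∃ i, m = i + (k + 1) := ⟨m - k - 1, by omega⟩
  have e : i + (k + 1) - k - 1 = i := by omega
  rw [e, pow_add, ← mul_assoc, ← mul_pow]
  norm_num

theorem mx_sq1 {y : ℝ} (h0 : 0 ≤ y) (h1 : y < 1) : 1 - y ≤ 1 - y ^ 2 := by
  nlinarith only [h0, h1]

theorem mx_sq2 (y : ℝ) : 1 - y ^ 2 ≤ 2 * (1 - y) := by
  nlinarith only [sq_nonneg (y - 1)]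

theorem mx_sq3 (y : ℝ) : 1 - y ^ 2 ≤ 1 := by
  linarith only [sq_nonneg y]

/-- numbers -/
theorem up_num {Λ p : ℝ} (hΛ : 1 ≤ Λ) (hp : 4 ≤ p) :
    ∃ ε : ℝ, 0 < ε ∧ ε ≤ 1 ∧ ∀ w : ℝ, 0 < w → w ≤ ε →
      ((⌊2 * Λ / w ^ 2⌋₊ + 1 : ℕ) : ℝ) *
        (5 * (10 ^ 7 * (w * (2 * Λ / w ^ 2) ^ (1 / 8 : ℝ))) ^ p) ≤ 1 := by
  obtain ⟨D, hD⟩ : ∃ D : ℝ, D = 20 * Λ * (10 ^ 7 * (2 * Λ) ^ (1 / 8 : ℝ)) ^ p := ⟨_, rfl⟩
  have hΛ0 : 0 < Λ := by linarith
  have hD0 : 0 < D := by rw [hD]; positivity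
  refine ⟨min 1 (1 / D), lt_min one_pos (by positivity), min_le_left _ _, ?_⟩
  intro w hw hwε
  have hw1 : w ≤ 1 := hwε.trans (min_le_left _ _)
  have hwD : w ≤ 1 / D := hwε.trans (min_le_right _ _)
  have hw2 : w ^ 2 ≤ 1 := pow_le_one₀ hw.le hw1
  obtain ⟨Q, hQ⟩ : ∃ Q, Q = 2 * Λ / w ^ 2 := ⟨_, rfl⟩
  rw [← hQ]
  have hQ2 : 2 ≤ Q := by
    rw [hQ, le_div_iff₀ (pow_pos (by assumption) 2)]
    linarith only [hw2, hΛ]
  have h1 : ((⌊Q⌋₊ + 1 : ℕ) : ℝ) ≤ 2 * Q := by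
    push_cast
    have := Nat.floor_le (show 0 ≤ Q by linarith)
    linarith
  have h2 : w * Q ^ (1 / 8 : ℝ) = (2 * Λ) ^ (1 / 8 : ℝ) * w ^ (3 / 4 : ℝ) := by
    rw [hQ, Real.div_rpow (by positivity) (by positivity), ← Real.rpow_natCast w 2,
      ← Real.rpow_mul hw.le]
    have e1 : w = w ^ (3 / 4 : ℝ) * w ^ (((2 : ℕ) : ℝ) * (1 / 8)) := by
      rw [← Real.rpow_add hw]
      norm_num
    have e2 : w ^ (((2 : ℕ) : ℝ) * (1 / 8)) ≠ 0 := (Real.rpow_pos_of_pos hw _).ne'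
    rw [mul_div_assoc', div_eq_iff e2]
    calc w * (2 * Λ) ^ (1 / 8 : ℝ) =
          (w ^ (3 / 4 : ℝ) * w ^ (((2 : ℕ) : ℝ) * (1 / 8))) * (2 * Λ) ^ (1 / 8 : ℝ) := by rw [← e1]
      _ = _ := by ring
  have h3 : (10 ^ 7 * (w * Q ^ (1 / 8 : ℝ))) ^ p ≤
      (10 ^ 7 * (2 * Λ) ^ (1 / 8 : ℝ)) ^ p * w ^ 3 := by
    rw [h2, ← mul_assoc, Real.mul_rpow (by positivity) (by positivity)]
    have e1 : (w ^ (3 / 4 : ℝ)) ^ p ≤ w ^ 3 := by
      rw [← Real.rpow_mul hw.le, ← Real.rpow_natCast w 3]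
      apply Real.rpow_le_rpow_of_exponent_ge hw hw1
      push_cast
      linarith
    gcongr
  have h4 : Q * w ^ 2 = 2 * Λ := by rw [hQ]; field_simp
  obtain ⟨T, hT⟩ : ∃ T, T = (10 ^ 7 * (2 * Λ) ^ (1 / 8 : ℝ)) ^ p := ⟨_, rfl⟩
  rw [← hT] at h3 hD
  have hT0 : 0 < T := by rw [hT]; positivity
  calc _ ≤ 2 * Q * (5 * (T * w ^ 3)) := by gcongr
    _ = 10 * T * (Q * w ^ 2) * w := by ring
    _ = 20 * Λ * T * w := by rw [h4]; ring
    _ = D * w := by rw [hD]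
    _ ≤ D * (1 / D) := by gcongr
    _ = 1 := by field_simp

/-- The theorem for infinite sets of seams. -/
theorem main_inf_of {E : Type*} [NormedAddCommGroup E] [InnerProductSpace ℂ E]
    [FiniteDimensional ℂ E] [MeasurableSpace E] [BorelSpace E] (hdim : 2 ≤ Module.finrank ℂ E)
    (N : ℕ) (M δ K p : ℝ) (hδ : 0 < δ) (hp : 4 ≤ p) {ω : ℝ → ℝ} (hω : Mod ω) {S : Set ℕ}
    (hS : S.Infinite) (hsum : Summable fun k : S => ω ((1 / 2) ^ (k : ℕ)))
    (HB : ∀ A, BlockStmt E N M δ A p) (HS : ScaleStmt E N M δ ω) :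
    ∃ C' : ℝ, ∀ F : Fin (N + 1) → E → ℂ,
      (∀ j, DifferentiableOn ℂ (F j) (ball 0 1)) →
      (∀ j, ∀ z ∈ ball (0 : E) 1, ‖F j z‖ ≤ M) →
      (∀ z ∈ ball (0 : E) 1, δ ≤ ∑ j, ‖F j z‖ ^ 2) →
      (∀ j : Fin N, SeamGrad p K ω S (F j.succ)) → SolvableOn F (ball 0 1) C' := by
  classical
  obtain ⟨κ, hκ, hκS, hκs⟩ := exists_enum hS
  have hsum' : Summable fun b => ω ((1 / 2) ^ κ b) := by
    have h := hsum.comp_injective (i := fun b => (⟨κ b, hκS b⟩ : S)) (by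
      intro b c hbc
      exact hκ.injective (congrArg Subtype.val hbc))
    exact h
  have hpos : ∀ k : ℕ, 0 < ω ((1 / 2) ^ k) := fun k => hω.1 _ (half_mem k)
  obtain ⟨Wt, hWt⟩ : ∃ Wt : ℝ, Wt = ∑' b, ω ((1 / 2) ^ κ b) := ⟨_, rfl⟩
  have hW : ∀ b, ω ((1 / 2) ^ κ b) ≤ Wt := fun b => by
    rw [hWt]; exact hsum'.le_tsum b fun j _ => (hpos _).le
  have hWt0 : 0 < Wt := (hpos _).trans_le (hW 0)
  obtain ⟨Be, hBe⟩ : ∃ Be : ℝ, Be = 10 ^ 7 * (2 * Wt) := ⟨_, rfl⟩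
  have hBe0 : 0 ≤ Be := by rw [hBe]; positivity
  obtain ⟨A, hA⟩ : ∃ A : ℝ, A = N * (max K 0 + 5 * |K|) + (5 * Be ^ p + 1) := ⟨_, rfl⟩
  obtain ⟨C, Λ, hC, hΛ, hblock⟩ := HB A
  obtain ⟨ε, hε0, hε1, hε⟩ := up_num hΛ hp
  obtain ⟨b₀, hb₀⟩ : ∃ b₀, ∀ b, b₀ ≤ b → ω ((1 / 2) ^ κ b) ≤ ε := by
    have h1 := hsum'.tendsto_atTop_zero
    have h2 := (h1.eventually (gt_mem_nhds hε0)).exists_forall_of_atTop
    obtain ⟨b₀, hb₀⟩ := h2
    exact ⟨b₀, fun b hb => (hb₀ b hb).le⟩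
  obtain ⟨κ', hκ'⟩ : ∃ κ' : ℕ → ℕ, κ' = fun b => κ (b + b₀) := ⟨_, rfl⟩
  have hκ'm : StrictMono κ' := by
    rw [hκ']
    exact fun b c hbc => hκ (by omega)
  have hsum'' : Summable fun b => ω ((1 / 2) ^ κ' b) := by
    rw [hκ']
    exact (summable_nat_add_iff (f := fun b => ω ((1 / 2) ^ κ b)) b₀).mpr hsum'
  obtain ⟨C', hC'⟩ := HS C κ' hκ'm hsum''
  refine ⟨C', ?_⟩
  intro F hF hFM hFδ hFg
  apply hC' F hF hFM hFδ (fun j => (hFg j).1)
  intro b a ha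
  obtain ⟨m, hm⟩ : ∃ m, m = κ' b := ⟨_, rfl⟩
  obtain ⟨m', hm'⟩ : ∃ m', m' = κ' (b + 1) := ⟨_, rfl⟩
  have hmm : m < m' := by rw [hm, hm']; exact hκ'm (Nat.lt_succ_self b)
  rw [← hm, ← hm']
  obtain ⟨w, hw⟩ : ∃ w, w = ω ((1 / 2) ^ m) := ⟨_, rfl⟩
  have hw0 : 0 < w := by rw [hw]; exact hpos m
  have hwε : w ≤ ε := by
    rw [hw, hm, hκ']
    exact hb₀ _ (by omega)
  rw [← hw]
  obtain ⟨R, hR⟩ : ∃ R : ℝ, R = (1 / 2) ^ m / w ^ 2 := ⟨_, rfl⟩
  rw [← hR]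
  have hm'0 := half_pow_pos m'
  have hm'1 := half_pow_le_one m'
  have hconj : ∀ z : E, ‖1 - ⟪a, z⟫_ℂ‖ = ‖1 - ⟪z, a⟫_ℂ‖ := by
    intro z
    have h6 : (starRingEnd ℂ) (1 - ⟪z, a⟫_ℂ) = 1 - ⟪a, z⟫_ℂ := by
      rw [map_sub, map_one, inner_conj_symm]
    rw [← h6, RCLike.norm_conj]
  rcases le_or_gt R ((1 / 2) ^ m' / 2) with h1 | h1
  · -- the tent is empty
    have hempty : {z : E | z ∈ ball (0 : E) 1 ∧ ‖1 - ⟪z, a⟫_ℂ‖ < R ∧
        (1 / 2) ^ m' / 2 < 1 - ‖z‖} = ∅ := by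
      rw [Set.eq_empty_iff_forall_notMem]
      rintro z ⟨-, h2, h3⟩
      have h4 : 1 - ‖z‖ ≤ ‖1 - ⟪z, a⟫_ℂ‖ := by
        have h5 := norm_sub_norm_le (1 : ℂ) ⟪z, a⟫_ℂ
        have h6 := norm_inner_le_norm (𝕜 := ℂ) z a
        rw [ha, mul_one] at h6
        rw [norm_one] at h5
        linarith
      linarith
    rw [hempty]
    refine ⟨fun _ _ => 0, fun j => differentiableOn_const _, ?_, ?_⟩
    · intro j z hz; exact hz.elim
    · intro z hz; exact hz.elim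
  obtain ⟨r, hr⟩ : ∃ r : ℝ, r = 1 - (1 / 2) ^ m' / 2 := ⟨_, rfl⟩
  have hr0 : 0 < r := by rw [hr]; linarith
  have hr1 : r < 1 := by rw [hr]; linarith
  have hset : {z : E | z ∈ ball (0 : E) 1 ∧ ‖1 - ⟪z, a⟫_ℂ‖ < R ∧
      (1 / 2) ^ m' / 2 < 1 - ‖z‖} = {z : E | ‖z‖ < r ∧ ‖1 - ⟪a, z⟫_ℂ‖ < R} := by
    ext z
    simp only [Set.mem_ofPred_eq, mem_ball_zero_iff]
    rw [hconj z]
    constructor
    · rintro ⟨h2, h3, h4⟩
      exact ⟨by rw [hr]; linarith, h3⟩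
    · rintro ⟨h2, h3⟩
      rw [hr] at h2
      exact ⟨by linarith, h3, by linarith⟩
  rw [hset]
  -- the exceptional scales
  obtain ⟨Q, hQ⟩ : ∃ Q, Q = 2 * Λ / w ^ 2 := ⟨_, rfl⟩
  obtain ⟨L, hL⟩ : ∃ L : ℕ, L = ⌊Q⌋₊ + 1 := ⟨_, rfl⟩
  obtain ⟨Bu, hBu⟩ : ∃ Bu : ℝ, Bu = 10 ^ 7 * (w * Q ^ (1 / 8 : ℝ)) := ⟨_, rfl⟩
  have hw1 : w ≤ 1 := hwε.trans hε1
  have hw2 : w ^ 2 ≤ 1 := pow_le_one₀ hw0.le hw1
  have hQ2 : 2 ≤ Q := by
    rw [hQ, le_div_iff₀ (pow_pos (by assumption) 2)]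
    linarith only [hw2, hΛ]
  have hBu0 : 0 ≤ Bu := by rw [hBu]; positivity
  have hup : (L : ℝ) * (5 * Bu ^ p) ≤ 1 := by
    rw [hL, hBu, hQ]
    exact hε w hw0 hwε
  obtain ⟨B, hB⟩ : ∃ B : ℕ → ℝ, B = fun k => if k = m' then Be else
    if k ∈ Finset.Ico (m - L) m then Bu else 0 := ⟨_, rfl⟩
  have hBn : ∀ k, 0 ≤ B k := by
    intro k; rw [hB]; simp only; split_ifs
    · exact hBe0
    · exact hBu0
    · exact le_rfl
  obtain ⟨P, hP1, hP2⟩ := exists_pot (fun j : Fin N => hF j.succ) hω (by linarith) hFg m (m' + 1)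
    hBn
  apply hblock F P r R a hF hFM hFδ (hP1.mono _) hr0 hr1 ha (by rw [hr]; linarith)
  · intro j y hy hyΛ X
    have hy1 : ‖y‖ < 1 := by linarith
    have hn := norm_nonneg y
    obtain ⟨k, hk1, hk2⟩ := exists_scale hy1
    have hkn : k < m' + 1 := by
      by_contra hcon
      push Not at hcon
      have h2 : (1 / 2 : ℝ) ^ k ≤ (1 / 2) ^ (m' + 1) :=
        pow_le_pow_of_le_one (by norm_num) (by norm_num) hcon
      have h3 : (1 / 2 : ℝ) ^ (m' + 1) = (1 / 2) ^ m' / 2 := by rw [pow_succ]; ring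
      rw [hr] at hy
      linarith
    apply hP2 j y hy1 k hkn hk1 hk2 _ X
    obtain ⟨t, ht⟩ : ∃ t, t = 1 - ‖y‖ ^ 2 := ⟨_, rfl⟩
    rw [← ht]
    have ht1 : 1 - ‖y‖ ≤ t := by rw [ht]; exact mx_sq1 hn hy1
    have ht2 : t ≤ 2 * (1 - ‖y‖) := by rw [ht]; exact mx_sq2 _
    have htm : t ∈ Ioc (0 : ℝ) 1 :=
      ⟨by linarith only [hy1, ht1], by rw [ht]; exact mx_sq3 _⟩
    rcases Nat.lt_or_ge k m with hkm | hkm
    · -- upper scales
      right
      have hkm' : k ≠ m' := by omega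
      have h2k : (1 / 2 : ℝ) ^ m ≤ (1 / 2) ^ (k + 1) :=
        pow_le_pow_of_le_one (by norm_num) (by norm_num) hkm
      have htQ : t ≤ Q * (1 / 2) ^ m := by
        have e1 : Λ * R * 2 = Q * (1 / 2) ^ m := by
          rw [hQ, hR]
          field_simp
        linarith
      have hmem : k ∈ Finset.Ico (m - L) m := by
        rw [Finset.mem_Ico]
        refine ⟨?_, hkm⟩
        have e1 : ((m - k - 1 : ℕ) : ℝ) < Q := by
          have e2 : ((m - k - 1 : ℕ) : ℝ) < 2 ^ (m - k - 1) := by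
            exact_mod_cast Nat.lt_two_pow_self
          have e3 : (2 : ℝ) ^ (m - k - 1) * (1 / 2) ^ m = (1 / 2) ^ (k + 1) := two_pow_half hkm
          have e6 : (2 : ℝ) ^ (m - k - 1) * (1 / 2) ^ m < Q * (1 / 2) ^ m := by
            rw [e3]
            linarith
          have e7 := lt_of_mul_lt_mul_right e6 (half_pow_pos m).le
          linarith
        have e8 : m - k - 1 ≤ ⌊Q⌋₊ := Nat.le_floor e1.le
        rw [hL]
        omega
      rw [hB]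
      simp only [if_neg hkm', if_pos hmem]
      rw [hBu, hw]
      have e9 := om_le hω (s := t) (t := (1 / 2) ^ m) (A := Q) htm (half_mem m) (by linarith) htQ
        (le_trans (by linarith only [h2k, hk1, ht1])
          (le_mul_of_one_le_left htm.1.le (by linarith only [hQ2])))
      gcongr
    rcases Nat.lt_or_ge k m' with hkm' | hkm'
    · -- the block
      left
      refine ⟨hkm, fun l hl => ?_⟩
      obtain ⟨c, hc⟩ := hκs l hl
      rcases Nat.lt_or_ge (b + b₀) c with hcb | hcb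
      · right
        have h2 : κ (b + 1 + b₀) ≤ κ c := hκ.monotone (by omega)
        have h3 : m' = κ (b + 1 + b₀) := by rw [hm', hκ']
        omega
      · left
        have h2 : κ c ≤ κ (b + b₀) := hκ.monotone hcb
        have h3 : m = κ (b + b₀) := by rw [hm, hκ']
        omega
    · -- the last scale
      right
      have hkm'' : k = m' := by omega
      rw [hB]
      simp only [if_pos hkm'']
      have h2 := om_le hω (s := t) (t := (1 / 2) ^ m') (A := 2) htm (half_mem m') (by norm_num)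
        (by rw [← hkm'']; linarith)
        (by
          rw [← hkm'']
          have e1 : (1 / 2 : ℝ) ^ (k + 1) = (1 / 2) ^ k / 2 := by rw [pow_succ]; ring
          linarith)
      have h3 : (2 : ℝ) ^ (1 / 8 : ℝ) ≤ 2 := by
        calc (2 : ℝ) ^ (1 / 8 : ℝ) ≤ (2 : ℝ) ^ (1 : ℝ) :=
              Real.rpow_le_rpow_of_exponent_le (by norm_num) (by norm_num)
          _ = 2 := Real.rpow_one _
      have h4 : ω ((1 / 2) ^ m') ≤ Wt := by
        rw [hm', hκ']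
        exact hW _
      have h5 := hpos m'
      rw [hBe]
      have h6 : ω t ≤ 2 * Wt := by
        calc ω t ≤ ω ((1 / 2) ^ m') * 2 ^ (1 / 8 : ℝ) := h2
          _ ≤ Wt * 2 := by gcongr
          _ = 2 * Wt := by ring
      gcongr
  · rw [hA]
    have h2 : (N : ℝ) * (max K 0 + 5 * K) ≤ N * (max K 0 + 5 * |K|) := by
      gcongr
      exact le_abs_self K
    have h3 : ∑ k ∈ Finset.range (m' + 1), 5 * B k ^ p ≤ 5 * Be ^ p + 1 := by
      have h4 : ∀ k, 5 * B k ^ p ≤ (if k = m' then 5 * Be ^ p else 0) +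
          if k ∈ Finset.Ico (m - L) m then 5 * Bu ^ p else 0 := by
        intro k
        have e1 := Real.rpow_nonneg hBe0 p
        have e2 := Real.rpow_nonneg hBu0 p
        rw [hB]
        simp only
        split_ifs
        · linarith
        · linarith
        · linarith
        · rw [Real.zero_rpow (by linarith)]; norm_num
      refine (Finset.sum_le_sum fun k _ => h4 k).trans ?_
      rw [Finset.sum_add_distrib, Finset.sum_ite_eq']
      rw [if_pos (Finset.mem_range.mpr (Nat.lt_succ_self m'))]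
      apply add_le_add le_rfl
      rw [← Finset.sum_filter, Finset.sum_const, nsmul_eq_mul]
      have h5 : ((Finset.range (m' + 1)).filter fun k => k ∈ Finset.Ico (m - L) m).card ≤ L := by
        calc _ ≤ (Finset.Ico (m - L) m).card := by
              apply Finset.card_le_card
              intro k hk
              rw [Finset.mem_filter] at hk
              exact hk.2
          _ = m - (m - L) := Nat.card_Ico _ _
          _ ≤ L := by omega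
      have h6 : ((((Finset.range (m' + 1)).filter fun k => k ∈ Finset.Ico (m - L) m).card : ℕ) : ℝ) ≤
          L := by exact_mod_cast h5
      have h7 : 0 ≤ 5 * Bu ^ p := by have := Real.rpow_nonneg hBu0 p; positivity
      exact (mul_le_mul_of_nonneg_right h6 h7).trans hup
    linarith

end Pool.Agent.MPca0fc2.MX
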