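import Mathlib
import Pool.Agent.Lib.MP_ca0fc2_an.SDOsc

set_option autoImplicit false

open Metric Set Filter Topology MeasureTheory
open scoped InnerProductSpace Pointwise

namespace Pool.Agent.MPca0fc2.VL

open Pool.Agent.MPca0fc2.SD

variable {E : Type*} [NormedAddCommGroup E] [InnerProductSpace ℂ E]

theorem inner_symm_norm (a b : E) : ‖1 - ⟪a, b⟫_ℂ‖ = ‖1 - ⟪b, a⟫_ℂ‖ := by
  have h : (starRingEnd ℂ) (1 - ⟪a, b⟫_ℂ) = 1 - ⟪b, a⟫_ℂ := by
    rw [map_sub, map_one, inner_conj_symm]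
  rw [← h, RCLike.norm_conj]

theorem one_sub_eq {a b : E} (hb : ‖b‖ = 1) : 1 - ⟪a, b⟫_ℂ = ⟪b - a, b⟫_ℂ := by
  rw [inner_sub_left, inner_self_eq_norm_sq_to_K, hb]; simp

theorem one_sub_le_dist {a b : E} (hb : ‖b‖ = 1) : ‖1 - ⟪a, b⟫_ℂ‖ ≤ ‖b - a‖ := by
  rw [one_sub_eq hb]
  have := norm_inner_le_norm (b - a) b (𝕜 := ℂ)
  rwa [hb, mul_one] at this

/-- separated nets of the unit sphere -/
theorem exists_net [FiniteDimensional ℂ E] {s : ℝ} (hs : 0 < s) :
    ∃ A : Finset E, (∀ a ∈ A, ‖a‖ = 1) ∧ (∀ a ∈ A, ∀ a' ∈ A, a ≠ a' → s ≤ ‖1 - ⟪a, a'⟫_ℂ‖) ∧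
      ∀ ζ : E, ‖ζ‖ = 1 → ∃ a ∈ A, ‖1 - ⟪ζ, a⟫_ℂ‖ < s := by
  have hp : ProperSpace E := FiniteDimensional.proper ℂ E
  set P : Set (Set E) := {S | S ⊆ sphere (0 : E) 1 ∧
    ∀ a ∈ S, ∀ a' ∈ S, a ≠ a' → s ≤ ‖1 - ⟪a, a'⟫_ℂ‖} with hP
  obtain ⟨S, hS⟩ := zorn_subset P (by
    intro c hc hch
    refine ⟨⋃₀ c, ⟨?_, ?_⟩, fun t ht => subset_sUnion_of_mem ht⟩
    · exact sUnion_subset fun t ht => (hc ht).1
    · rintro a ⟨t, ht, hat⟩ a' ⟨t', ht', hat'⟩ hne
      rcases hch.total ht ht' with h | h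
      · exact (hc ht').2 a (h hat) a' hat' hne
      · exact (hc ht).2 a hat a' (h hat') hne)
  have hfin : S.Finite := by
    obtain ⟨t, -, ht, hcov⟩ := (isCompact_sphere (0 : E) 1).finite_cover_balls
      (show (0 : ℝ) < s / 2 by positivity)
    have hex : ∀ a ∈ S, ∃ y ∈ t, a ∈ ball y (s / 2) := by
      intro a ha
      have := hcov (hS.prop.1 ha)
      simpa using this
    choose! y hy1 hy2 using hex
    refine Set.Finite.of_injOn (f := y) (t := t) (fun a ha => hy1 a ha) ?_ ht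
    intro a ha a' ha' hyy
    by_contra hne
    have h1 := hS.prop.2 a ha a' ha' hne
    have h2 := mem_ball.mp (hy2 a ha)
    have h3 := mem_ball.mp (hy2 a' ha')
    rw [show y a = y a' from hyy] at h2
    have h4 : ‖a' - a‖ < s := by
      rw [← dist_eq_norm]
      calc dist a' a ≤ dist a' (y a') + dist a (y a') := dist_triangle_right _ _ _
        _ < s := by linarith
    have h5 := one_sub_le_dist (a := a) (b := a') (by simpa using hS.prop.1 ha')
    linarith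
  refine ⟨hfin.toFinset, ?_, ?_, ?_⟩
  · intro a ha
    rw [Set.Finite.mem_toFinset] at ha
    simpa using hS.prop.1 ha
  · intro a ha a' ha' hne
    rw [Set.Finite.mem_toFinset] at ha ha'
    exact hS.prop.2 a ha a' ha' hne
  · intro ζ hζ
    by_contra hcon
    push Not at hcon
    have hcon' : ∀ a ∈ S, s ≤ ‖1 - ⟪ζ, a⟫_ℂ‖ := fun a ha =>
      hcon a (by rw [Set.Finite.mem_toFinset]; exact ha)
    have h1 : insert ζ S ∈ P := by
      refine ⟨insert_subset (by simpa using hζ) hS.prop.1, ?_⟩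
      rintro a (rfl | ha) a' (rfl | ha') hne
      · exact (hne rfl).elim
      · exact hcon' a' ha'
      · rw [inner_symm_norm]; exact hcon' a ha
      · exact hS.prop.2 a ha a' ha' hne
    have h2 := hS.le_of_ge h1 (subset_insert ζ S)
    have h3 : ζ ∈ S := h2 (mem_insert ζ S)
    have h4 := hcon' ζ h3
    rw [inner_self_eq_norm_sq_to_K, hζ] at h4
    simp at h4
    linarith

/-- bounded overlap -/
theorem exists_overlap (E : Type*) [NormedAddCommGroup E] [InnerProductSpace ℂ E]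
    [FiniteDimensional ℂ E] : ∃ N₀ : ℕ, ∀ (s : ℝ), 0 < s → ∀ T : Finset E,
      (∀ a ∈ T, ‖a‖ = 1) → (∀ a ∈ T, ∀ a' ∈ T, a ≠ a' → s ≤ ‖1 - ⟪a, a'⟫_ℂ‖) →
      (∀ a ∈ T, ∀ a' ∈ T, ‖1 - ⟪a, a'⟫_ℂ‖ ≤ 25 * s) → T.card ≤ N₀ := by
  let _ : MeasurableSpace E := borel E
  have _ : BorelSpace E := ⟨rfl⟩
  let _ : NormedSpace ℝ E := NormedSpace.restrictScalars ℝ ℂ E
  have _ : FiniteDimensional ℝ E := FiniteDimensional.trans ℝ ℂ E
  refine ⟨442 ^ Module.finrank ℝ E, ?_⟩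
  intro s hs T hT1 hT2 hT3
  rcases T.eq_empty_or_nonempty with rfl | ⟨a₁, ha₁⟩
  · simp
  have hss : 0 < √s := Real.sqrt_pos.mpr hs
  have hs2 : √s * √s = s := Real.mul_self_sqrt hs.le
  have hdist : ∀ a ∈ T, ∀ a' ∈ T, ‖a - a'‖ ≤ 7.1 * √s := by
    intro a ha a' ha'
    have h1 := norm_sub_sq_le_two (a := a') (b := a) (hT1 a' ha').le (hT1 a ha).le
    have h2 := hT3 a' ha' a ha
    apply le_of_sq_le_sq _ (by positivity)
    rw [mul_pow, Real.sq_sqrt hs.le]
    nlinarith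
  set B₀ : Set E := {x | ‖⟪x, a₁⟫_ℂ‖ < s / 17 ∧ ‖x‖ < √s / 17} with hB₀
  have hopen : IsOpen B₀ := by
    apply IsOpen.inter
    · exact isOpen_lt (Continuous.inner continuous_id continuous_const).norm continuous_const
    · exact isOpen_lt continuous_norm continuous_const
  set μ : Measure E := Measure.addHaar with hμ
  have hpos : 0 < μ B₀ := hopen.measure_pos μ ⟨0, by
    simp only [hB₀, Set.mem_ofPred_eq, inner_zero_left, norm_zero]
    constructor <;> positivity⟩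
  have hfin : μ B₀ < ⊤ := by
    apply (measure_mono (t := ball (0 : E) (√s / 17)) ?_).trans_lt measure_ball_lt_top
    intro x hx
    rw [mem_ball_zero_iff]
    exact hx.2
  have hdisj : (T : Set E).PairwiseDisjoint fun a => a +ᵥ B₀ := by
    intro a ha a' ha' hne
    rw [Function.onFun, Set.disjoint_left]
    rintro x ⟨y, hy, rfl⟩ ⟨y', hy', hyy⟩
    simp only [vadd_eq_add] at hyy
    have h1 := hT2 a ha a' ha' hne
    have e1 : a' - a = y - y' := by
      have : a' + y' = a + y := hyy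
      rw [sub_eq_sub_iff_add_eq_add, this, add_comm]
    have e2 : 1 - ⟪a, a'⟫_ℂ = ⟪y, a₁⟫_ℂ - ⟪y', a₁⟫_ℂ + ⟪y - y', a' - a₁⟫_ℂ := by
      rw [one_sub_eq (hT1 a' ha'), e1, inner_sub_right (y - y'), inner_sub_left y y' a₁]
      ring
    have h2 : ‖1 - ⟪a, a'⟫_ℂ‖ < s := by
      rw [e2]
      have h3 := hdist a' ha' a₁ ha₁
      have h4 : ‖y - y'‖ ≤ 2 * (√s / 17) := by
        refine (norm_sub_le _ _).trans ?_
        linarith [hy.2, hy'.2]
      have h5 : ‖⟪y - y', a' - a₁⟫_ℂ‖ ≤ 2 * (√s / 17) * (7.1 * √s) := by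
        refine (norm_inner_le_norm _ _).trans ?_
        gcongr
      calc _ ≤ ‖⟪y, a₁⟫_ℂ‖ + ‖⟪y', a₁⟫_ℂ‖ + ‖⟪y - y', a' - a₁⟫_ℂ‖ := by
            refine (norm_add_le _ _).trans ?_
            gcongr
            exact norm_sub_le _ _
        _ ≤ s / 17 + s / 17 + 2 * (√s / 17) * (7.1 * √s) := by
            have := hy.1.le
            have := hy'.1.le
            gcongr
        _ = (2 + 14.2) / 17 * s := by
            have : 2 * (√s / 17) * (7.1 * √s) = 14.2 / 17 * (√s * √s) := by ring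
            rw [this, hs2]; ring
        _ < s := by nlinarith
    linarith
  have hsub : (⋃ a ∈ T, a +ᵥ B₀) ⊆ a₁ +ᵥ ((442 : ℝ) • B₀) := by
    intro x hx
    simp only [mem_iUnion, exists_prop] at hx
    obtain ⟨a, ha, y, hy, rfl⟩ := hx
    refine ⟨(a - a₁) + y, ⟨(442 : ℝ)⁻¹ • ((a - a₁) + y), ?_, ?_⟩, ?_⟩
    · have h1 : ‖⟪(a - a₁) + y, a₁⟫_ℂ‖ < 26 * s := by
        have e1 : ⟪(a - a₁) + y, a₁⟫_ℂ = -(1 - ⟪a, a₁⟫_ℂ) + ⟪y, a₁⟫_ℂ := by
          rw [one_sub_eq (hT1 a₁ ha₁), inner_add_left, ← inner_neg_left, neg_sub]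
        rw [e1]
        refine (norm_add_le _ _).trans_lt ?_
        rw [norm_neg]
        have h2 := hT3 a ha a₁ ha₁
        have h3 := hy.1
        linarith
      have h2 : ‖(a - a₁) + y‖ < 26 * √s := by
        refine (norm_add_le _ _).trans_lt ?_
        have h3 := hdist a ha a₁ ha₁
        have h4 := hy.2
        linarith
      have e3 : ((442 : ℝ)⁻¹ • ((a - a₁) + y) : E) = ((442 : ℂ)⁻¹) • ((a - a₁) + y) := by
        rw [RCLike.real_smul_eq_coe_smul (K := ℂ)]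
        congr 1
        push_cast
        rfl
      constructor
      · rw [e3, inner_smul_left, norm_mul, RCLike.norm_conj]
        have : ‖((442 : ℂ)⁻¹)‖ = 442⁻¹ := by simp
        rw [this]
        linarith
      · rw [e3, norm_smul]
        have : ‖((442 : ℂ)⁻¹)‖ = 442⁻¹ := by simp
        rw [this]
        linarith
    · change (442 : ℝ) • ((442 : ℝ)⁻¹ • ((a - a₁) + y)) = _
      rw [smul_smul, mul_inv_cancel₀ (by norm_num), one_smul]
    · simp only [vadd_eq_add]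
      abel
  have hvol : (T.card : ENNReal) * μ B₀ ≤ (442 ^ Module.finrank ℝ E : ℕ) * μ B₀ := by
    calc (T.card : ENNReal) * μ B₀ = ∑ a ∈ T, μ (a +ᵥ B₀) := by
          simp only [measure_vadd, Finset.sum_const, nsmul_eq_mul]
      _ = μ (⋃ a ∈ T, a +ᵥ B₀) := by
          rw [measure_biUnion_finset hdisj fun a _ => (hopen.vadd a).measurableSet]
      _ ≤ μ (a₁ +ᵥ ((442 : ℝ) • B₀)) := measure_mono hsub
      _ = ENNReal.ofReal (|442 ^ Module.finrank ℝ E|) * μ B₀ := by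
          rw [measure_vadd, Measure.addHaar_smul]
      _ = _ := by
          congr 1
          rw [abs_of_pos (by positivity)]
          rw [ENNReal.ofReal_pow (by norm_num)]
          push_cast
          congr 1
          simp
  have h1 : (T.card : ENNReal) ≤ (442 ^ Module.finrank ℝ E : ℕ) :=
    (ENNReal.mul_le_mul_iff_left hpos.ne' hfin.ne).mp hvol
  exact_mod_cast h1

end Pool.Agent.MPca0fc2.VL
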