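import Mathlib
import Pool.Agent.Lib.MP_ca0fc2_an.VLNet

set_option autoImplicit false

open Metric Set Filter Topology MeasureTheory
open scoped InnerProductSpace

namespace Pool.Agent.MPca0fc2.VL

open Pool.Agent.MPca0fc2.SD

variable {E : Type*} [NormedAddCommGroup E] [InnerProductSpace ℂ E]

theorem norm_le_of_kor {a z : E} {s : ℝ} (hs : 0 < s) (ha : ‖a‖ = 1) (hz : ‖z‖ ≤ 1)
    (h : ‖1 - ⟪z, a⟫_ℂ‖ ≤ 4.1 * s) : ‖a - z‖ ≤ 2.87 * √s := by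
  have h1 := norm_sub_sq_le_two (a := z) (b := a) hz ha.le
  apply le_of_sq_le_sq _ (by positivity)
  rw [mul_pow, Real.sq_sqrt hs.le]
  nlinarith

theorem geo1 {a w z : E} {s : ℝ} (hs : 0 < s) (ha : ‖a‖ = 1) (hw : ‖w‖ ≤ 1) (hz : ‖z‖ ≤ 1)
    (hq : ‖1 - ⟪w, z⟫_ℂ‖ ≤ s) (h : ‖1 - ⟪z, a⟫_ℂ‖ ≤ 4.1 * s) :
    ‖⟪w - z, a⟫_ℂ‖ ≤ 7.1 * (√‖1 - ⟪w, z⟫_ℂ‖ * √s) := by
  set q := ‖1 - ⟪w, z⟫_ℂ‖ with hqd
  have hq0 : 0 ≤ q := norm_nonneg _
  have h1 := norm_le_of_kor hs ha hz h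
  have h2 : ‖w - z‖ ≤ 1.4143 * √q := by
    have h3 := norm_sub_sq_le_two (a := w) (b := z) hw hz
    rw [norm_sub_rev] at h3
    apply le_of_sq_le_sq _ (by positivity)
    rw [mul_pow, Real.sq_sqrt hq0]
    nlinarith
  have e1 : ⟪w - z, a⟫_ℂ = ⟪w - z, a - z⟫_ℂ + (-(1 - ⟪w, z⟫_ℂ) + ((1 - ‖z‖ ^ 2 : ℝ) : ℂ)) := by
    have hzz : ⟪z, z⟫_ℂ = ((‖z‖ ^ 2 : ℝ) : ℂ) := by
      rw [inner_self_eq_norm_sq_to_K]
      push_cast
      rfl
    rw [inner_sub_right (w - z), inner_sub_left w z z, hzz]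
    push_cast
    ring
  have h4 : ‖((1 - ‖z‖ ^ 2 : ℝ) : ℂ)‖ ≤ 2 * q := by
    rw [Complex.norm_real, Real.norm_of_nonneg (by nlinarith [norm_nonneg z])]
    have h5 := one_sub_norm_le (a := z) hw
    rw [inner_symm_norm] at h5
    nlinarith [norm_nonneg z]
  have h6 : ‖⟪w - z, a - z⟫_ℂ‖ ≤ (1.4143 * √q) * (2.87 * √s) := by
    refine (norm_inner_le_norm _ _).trans ?_
    gcongr
  have h7 : q ≤ √q * √s := by
    calc q = √q * √q := (Real.mul_self_sqrt hq0).symm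
      _ ≤ √q * √s := by gcongr
  have h8 : 0 ≤ √q * √s := by positivity
  rw [e1]
  calc _ ≤ ‖⟪w - z, a - z⟫_ℂ‖ + (‖-(1 - ⟪w, z⟫_ℂ)‖ + ‖((1 - ‖z‖ ^ 2 : ℝ) : ℂ)‖) :=
        (norm_add_le _ _).trans (add_le_add le_rfl (norm_add_le _ _))
    _ ≤ (1.4143 * √q) * (2.87 * √s) + (q + 2 * q) := by
        rw [norm_neg]
        gcongr
    _ ≤ _ := by nlinarith

theorem geo2 {a a' w : E} {s : ℝ} (hs : 0 < s) (ha : ‖a‖ = 1) (ha' : ‖a'‖ = 1) (hw : ‖w‖ ≤ 1)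
    (h : ‖1 - ⟪w, a⟫_ℂ‖ ≤ 4.1 * s) (h' : ‖1 - ⟪w, a'⟫_ℂ‖ ≤ 4.1 * s) :
    ‖1 - ⟪a, a'⟫_ℂ‖ ≤ 25 * s := by
  have h1 := norm_le_of_kor hs ha hw h
  have h2 := norm_le_of_kor hs ha' hw h'
  have e1 : 1 - ⟪a, a'⟫_ℂ = (1 - ⟪w, a'⟫_ℂ) + (⟪w - a, a' - a⟫_ℂ - (1 - ⟪w, a⟫_ℂ)) := by
    rw [one_sub_eq ha', one_sub_eq ha', one_sub_eq ha, inner_sub_right (w - a), inner_sub_left a' a,
      inner_sub_left a' w, inner_sub_left w a a', inner_sub_left w a a, inner_sub_left a w a]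
    ring
  have hs2 : √s * √s = s := Real.mul_self_sqrt hs.le
  have h3 : ‖⟪w - a, a' - a⟫_ℂ‖ ≤ (2.87 * √s) * (2.87 * √s + 2.87 * √s) := by
    refine (norm_inner_le_norm _ _).trans ?_
    have h4 : ‖a' - a‖ ≤ 2.87 * √s + 2.87 * √s := by
      have : a' - a = (a' - w) - (a - w) := by abel
      rw [this]
      exact (norm_sub_le _ _).trans (add_le_add h2 h1)
    rw [norm_sub_rev w a]
    gcongr
  rw [e1]
  calc _ ≤ ‖1 - ⟪w, a'⟫_ℂ‖ + (‖⟪w - a, a' - a⟫_ℂ‖ + ‖1 - ⟪w, a⟫_ℂ‖) :=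
        (norm_add_le _ _).trans (add_le_add le_rfl (norm_sub_le _ _))
    _ ≤ 4.1 * s + ((2.87 * √s) * (2.87 * √s + 2.87 * √s) + 4.1 * s) := by gcongr
    _ = 8.2 * s + 2 * 2.87 ^ 2 * (√s * √s) := by ring
    _ ≤ _ := by rw [hs2]; linarith

/-- the bumps -/
noncomputable def ph (s : ℝ) (a v : E) : ℝ := max 0 (1 - ‖1 - ⟪v, a⟫_ℂ‖ / (4 * s))

/-- the denominator -/
noncomputable def dn (s : ℝ) (A : Finset E) (v : E) : ℝ := max (1 / 4) (∑ a ∈ A, ph s a v)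

/-- the weights -/
noncomputable def th (s : ℝ) (A : Finset E) (a v : E) : ℝ := ph s a v / dn s A v

theorem ph_nonneg (s : ℝ) (a v : E) : 0 ≤ ph s a v := le_max_left _ _

theorem ph_ne {s : ℝ} (hs : 0 < s) {a v : E} (h : ph s a v ≠ 0) : ‖1 - ⟪v, a⟫_ℂ‖ < 4 * s := by
  by_contra hcon
  rw [not_lt] at hcon
  apply h
  apply max_eq_left
  have : 1 ≤ ‖1 - ⟪v, a⟫_ℂ‖ / (4 * s) := by
    rw [le_div_iff₀ (by positivity)]; linarith
  linarith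

theorem dn_pos (s : ℝ) (A : Finset E) (v : E) : 1 / 4 ≤ dn s A v := le_max_left _ _

theorem ph_cont (s : ℝ) (a : E) : Continuous (ph s a : E → ℝ) := by
  apply continuous_const.max
  apply continuous_const.sub
  apply Continuous.div_const
  exact (continuous_const.sub (Continuous.inner continuous_id continuous_const)).norm

theorem dn_cont (s : ℝ) (A : Finset E) : Continuous (dn s A : E → ℝ) :=
  continuous_const.max (continuous_finsetSum _ fun a _ => ph_cont s a)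

theorem th_cont (s : ℝ) (A : Finset E) (a : E) : Continuous (th s A a : E → ℝ) :=
  (ph_cont s a).div (dn_cont s A) fun v => by have := dn_pos s A v; linarith

theorem th_nonneg (s : ℝ) (A : Finset E) (a v : E) : 0 ≤ th s A a v :=
  div_nonneg (ph_nonneg _ _ _) (by have := dn_pos s A v; linarith)

theorem th_ne {s : ℝ} (hs : 0 < s) {A : Finset E} {a v : E} (h : th s A a v ≠ 0) :
    ‖1 - ⟪v, a⟫_ℂ‖ < 4 * s := by
  apply ph_ne hs
  intro h0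
  apply h
  rw [th, h0, zero_div]

theorem th_sum_le (s : ℝ) (A : Finset E) (v : E) : ∑ a ∈ A, th s A a v ≤ 1 := by
  have h := dn_pos s A v
  unfold th
  rw [← Finset.sum_div, div_le_one (by linarith)]
  exact le_max_right _ _

/-- the weights sum up to one near the sphere -/
theorem th_sum {s R : ℝ} (hs : 0 < s) (hs1 : s < 1) (hR : 1 ≤ R) (hR1 : R ≤ 17 / 16)
    (hRs : R ≤ 1 + s) {A : Finset E} (hA : ∀ ζ : E, ‖ζ‖ = 1 → ∃ a ∈ A, ‖1 - ⟪ζ, a⟫_ℂ‖ < s)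
    {w : E} (hw : ‖w‖ ≤ 1) (hw1 : 1 - ‖w‖ ≤ s) : ∑ a ∈ A, th s A a ((R : ℂ) • w) = 1 := by
  have hw0 : 0 < ‖w‖ := by linarith
  have hwc : (‖w‖ : ℂ) ≠ 0 := by exact_mod_cast hw0.ne'
  obtain ⟨a, ha, hζ⟩ := hA (((‖w‖⁻¹ : ℝ) : ℂ) • w) (by
    rw [norm_smul, Complex.norm_real, Real.norm_of_nonneg (by positivity),
      inv_mul_cancel₀ hw0.ne'])
  set ζ := ((‖w‖⁻¹ : ℝ) : ℂ) • w with hζd
  have e1 : (R : ℂ) • w = ((R * ‖w‖ : ℝ) : ℂ) • ζ := by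
    rw [hζd, smul_smul]
    congr 1
    push_cast
    field_simp
  have e2 : 1 - ⟪(R : ℂ) • w, a⟫_ℂ = ((1 - R * ‖w‖ : ℝ) : ℂ) +
      ((R * ‖w‖ : ℝ) : ℂ) * (1 - ⟪ζ, a⟫_ℂ) := by
    rw [e1, inner_smul_left, Complex.conj_ofReal]
    push_cast
    ring
  have h1 : |1 - R * ‖w‖| ≤ s := by
    rw [abs_le]
    constructor
    · nlinarith
    · nlinarith
  have h2 : ‖1 - ⟪(R : ℂ) • w, a⟫_ℂ‖ ≤ 2.1 * s := by
    rw [e2]
    refine (norm_add_le _ _).trans ?_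
    rw [Complex.norm_real, norm_mul, Complex.norm_real, Real.norm_eq_abs,
      Real.norm_of_nonneg (by positivity)]
    have h3 : R * ‖w‖ ≤ 17 / 16 := by nlinarith
    have h4 : R * ‖w‖ * ‖1 - ⟪ζ, a⟫_ℂ‖ ≤ 17 / 16 * s := by
      have : 0 ≤ R * ‖w‖ := by positivity
      gcongr
    linarith
  have h3 : 1 / 4 ≤ ph s a ((R : ℂ) • w) := by
    apply le_max_of_le_right
    have : ‖1 - ⟪(R : ℂ) • w, a⟫_ℂ‖ / (4 * s) ≤ 2.1 / 4 := by
      rw [div_le_iff₀ (by positivity)]; linarith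
    linarith
  have h4 : 1 / 4 ≤ ∑ a ∈ A, ph s a ((R : ℂ) • w) :=
    h3.trans (Finset.single_le_sum (f := fun a => ph s a ((R : ℂ) • w))
      (fun j _ => ph_nonneg _ _ _) ha)
  have h5 : dn s A ((R : ℂ) • w) = ∑ a ∈ A, ph s a ((R : ℂ) • w) := max_eq_right h4
  unfold th
  rw [← Finset.sum_div, h5, div_self (by linarith)]

theorem ker_shift {s R : ℝ} (hR : 1 ≤ R) (hR1 : R ≤ 1 + s / 128) {a z : E}
    (ha : ‖a‖ = 1) (hz : ‖z‖ ≤ 1) (h : ‖1 - ⟪(R : ℂ) • z, a⟫_ℂ‖ ≤ 4 * s) :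
    ‖1 - ⟪z, a⟫_ℂ‖ ≤ 4.1 * s := by
  have e1 : 1 - ⟪z, a⟫_ℂ = (1 - ⟪(R : ℂ) • z, a⟫_ℂ) + ((R - 1 : ℝ) : ℂ) * ⟪z, a⟫_ℂ := by
    rw [inner_smul_left, Complex.conj_ofReal]
    push_cast
    ring
  have h1 : ‖⟪z, a⟫_ℂ‖ ≤ 1 := by
    refine (norm_inner_le_norm _ _).trans ?_
    rw [ha, mul_one]; exact hz
  rw [e1]
  refine (norm_add_le _ _).trans ?_
  rw [norm_mul, Complex.norm_real, Real.norm_of_nonneg (by linarith)]
  have h2 : (R - 1) * ‖⟪z, a⟫_ℂ‖ ≤ (R - 1) * 1 := by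
    apply mul_le_mul_of_nonneg_left h1; linarith
  linarith

/-- one bump -/
theorem ph_lip {s R : ℝ} (hs : 0 < s) (hR : 1 ≤ R) (hR1 : R ≤ 1 + s / 128) (hR2 : R ≤ 17 / 16)
    {a w z : E} (ha : ‖a‖ = 1) (hw : ‖w‖ ≤ 1) (hz : ‖z‖ ≤ 1) (hq : ‖1 - ⟪w, z⟫_ℂ‖ ≤ s) :
    |ph s a ((R : ℂ) • w) - ph s a ((R : ℂ) • z)| ≤ 2 * √(‖1 - ⟪w, z⟫_ℂ‖ / s) := by
  set q := ‖1 - ⟪w, z⟫_ℂ‖ with hqd
  have hq0 : 0 ≤ q := norm_nonneg _
  by_cases hact : ‖1 - ⟪(R : ℂ) • w, a⟫_ℂ‖ < 4 * s ∨ ‖1 - ⟪(R : ℂ) • z, a⟫_ℂ‖ < 4 * s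
  · have h1 : ‖⟪w - z, a⟫_ℂ‖ ≤ 7.1 * (√q * √s) := by
      rcases hact with h | h
      · have h2 := geo1 hs ha hz hw (by rw [inner_symm_norm]; exact hq)
          (ker_shift hR hR1 ha hw h.le)
        rw [inner_symm_norm z w, ← hqd] at h2
        rw [← neg_sub z w, inner_neg_left, norm_neg]
        exact h2
      · exact geo1 hs ha hw hz hq (ker_shift hR hR1 ha hz h.le)
    have h2 : |ph s a ((R : ℂ) • w) - ph s a ((R : ℂ) • z)| ≤
        |‖1 - ⟪(R : ℂ) • z, a⟫_ℂ‖ / (4 * s) - ‖1 - ⟪(R : ℂ) • w, a⟫_ℂ‖ / (4 * s)| := by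
      unfold ph
      refine (abs_max_sub_max_le_max _ _ _ _).trans (max_le (by simp) (le_of_eq ?_))
      congr 1
      ring
    refine h2.trans ?_
    have h3 : |‖1 - ⟪(R : ℂ) • z, a⟫_ℂ‖ - ‖1 - ⟪(R : ℂ) • w, a⟫_ℂ‖| ≤ R * ‖⟪w - z, a⟫_ℂ‖ := by
      refine (abs_norm_sub_norm_le _ _).trans (le_of_eq ?_)
      have : (1 - ⟪(R : ℂ) • z, a⟫_ℂ) - (1 - ⟪(R : ℂ) • w, a⟫_ℂ) = (R : ℂ) * ⟪w - z, a⟫_ℂ := by
        rw [inner_smul_left, inner_smul_left, Complex.conj_ofReal, inner_sub_left]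
        ring
      rw [this, norm_mul, Complex.norm_real, Real.norm_of_nonneg (by linarith)]
    rw [← sub_div, abs_div, abs_of_pos (show 0 < 4 * s by positivity), div_le_iff₀ (by positivity)]
    refine h3.trans ?_
    have hss : 0 < √s := Real.sqrt_pos.mpr hs
    have hs2 : √s * √s = s := Real.mul_self_sqrt hs.le
    have e1 : 2 * √(q / s) * (4 * s) = 8 * (√q * √s) := by
      rw [Real.sqrt_div hq0]
      nth_rewrite 2 [← hs2]
      field_simp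
      ring
    rw [e1]
    calc R * ‖⟪w - z, a⟫_ℂ‖ ≤ 17 / 16 * (7.1 * (√q * √s)) := by gcongr
      _ ≤ _ := by
        have : 0 ≤ √q * √s := by positivity
        nlinarith
  · push Not at hact
    have h1 : ph s a ((R : ℂ) • w) = 0 := by
      by_contra h; exact absurd (ph_ne hs h) (not_lt.mpr hact.1)
    have h2 : ph s a ((R : ℂ) • z) = 0 := by
      by_contra h; exact absurd (ph_ne hs h) (not_lt.mpr hact.2)
    rw [h1, h2, sub_zero, abs_zero]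
    positivity

/-- the weights are Lipschitz -/
theorem exists_th_lip (E : Type*) [NormedAddCommGroup E] [InnerProductSpace ℂ E]
    [FiniteDimensional ℂ E] : ∃ L : ℝ, 0 ≤ L ∧ ∀ (s R : ℝ), 0 < s → 1 ≤ R → R ≤ 1 + s / 128 →
      R ≤ 17 / 16 → ∀ A : Finset E, (∀ a ∈ A, ‖a‖ = 1) →
      (∀ a ∈ A, ∀ a' ∈ A, a ≠ a' → s ≤ ‖1 - ⟪a, a'⟫_ℂ‖) → ∀ w z : E, ‖w‖ ≤ 1 → ‖z‖ ≤ 1 →
      ‖1 - ⟪w, z⟫_ℂ‖ ≤ s →
      ∑ a ∈ A, |th s A a ((R : ℂ) • w) - th s A a ((R : ℂ) • z)| ≤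
        L * √(‖1 - ⟪w, z⟫_ℂ‖ / s) := by
  classical
  obtain ⟨N₀, hN₀⟩ := exists_overlap E
  refine ⟨32 * N₀, by positivity, ?_⟩
  intro s R hs hR hR1 hR2 A hA1 hA2 w z hw hz hq
  set r := √(‖1 - ⟪w, z⟫_ℂ‖ / s) with hr
  have hr0 : 0 ≤ r := Real.sqrt_nonneg _
  have hcard : ∀ v : E, ‖v‖ ≤ 1 →
      (A.filter fun a => ph s a ((R : ℂ) • v) ≠ 0).card ≤ N₀ := by
    intro v hv
    apply hN₀ s hs
    · intro a ha
      exact hA1 a (Finset.mem_filter.mp ha).1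
    · intro a ha a' ha' hne
      exact hA2 a (Finset.mem_filter.mp ha).1 a' (Finset.mem_filter.mp ha').1 hne
    · intro a ha a' ha'
      rw [Finset.mem_filter] at ha ha'
      exact geo2 hs (hA1 a ha.1) (hA1 a' ha'.1) hv
        (ker_shift hR hR1 (hA1 a ha.1) hv (ph_ne hs ha.2).le)
        (ker_shift hR hR1 (hA1 a' ha'.1) hv (ph_ne hs ha'.2).le)
  have hsum : ∑ a ∈ A, |ph s a ((R : ℂ) • w) - ph s a ((R : ℂ) • z)| ≤ 4 * N₀ * r := by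
    set T := (A.filter fun a => ph s a ((R : ℂ) • w) ≠ 0) ∪
      (A.filter fun a => ph s a ((R : ℂ) • z) ≠ 0) with hT
    have h1 : ∑ a ∈ A, |ph s a ((R : ℂ) • w) - ph s a ((R : ℂ) • z)| =
        ∑ a ∈ T, |ph s a ((R : ℂ) • w) - ph s a ((R : ℂ) • z)| := by
      symm
      apply Finset.sum_subset
      · exact Finset.union_subset (Finset.filter_subset _ _) (Finset.filter_subset _ _)
      · intro a ha haT
        rw [hT, Finset.mem_union, Finset.mem_filter, Finset.mem_filter] at haT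
        push Not at haT
        rw [haT.1 ha, haT.2 ha, sub_zero, abs_zero]
    rw [h1]
    calc _ ≤ ∑ _a ∈ T, 2 * r := by
          apply Finset.sum_le_sum
          intro a ha
          apply ph_lip hs hR hR1 hR2 _ hw hz hq
          apply hA1
          rw [hT, Finset.mem_union, Finset.mem_filter, Finset.mem_filter] at ha
          rcases ha with h | h
          · exact h.1
          · exact h.1
      _ = T.card * (2 * r) := by rw [Finset.sum_const, nsmul_eq_mul]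
      _ ≤ (N₀ + N₀ : ℕ) * (2 * r) := by
          have : T.card ≤ N₀ + N₀ := (Finset.card_union_le _ _).trans
            (add_le_add (hcard w hw) (hcard z hz))
          gcongr
      _ = _ := by push_cast; ring
  have hdn : |dn s A ((R : ℂ) • z) - dn s A ((R : ℂ) • w)| ≤ 4 * N₀ * r := by
    refine le_trans ?_ hsum
    rw [abs_sub_comm]
    unfold dn
    refine (abs_max_sub_max_le_max _ _ _ _).trans (max_le ?_ ?_)
    · rw [sub_self, abs_zero]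
      exact Finset.sum_nonneg fun a _ => abs_nonneg _
    · rw [← Finset.sum_sub_distrib]
      exact Finset.abs_sum_le_sum_abs _ _
  have hw' := dn_pos s A ((R : ℂ) • w)
  have hz' := dn_pos s A ((R : ℂ) • z)
  set Dw := dn s A ((R : ℂ) • w) with hDw
  set Dz := dn s A ((R : ℂ) • z) with hDz
  have hone : ∀ a, |th s A a ((R : ℂ) • w) - th s A a ((R : ℂ) • z)| ≤
      4 * |ph s a ((R : ℂ) • w) - ph s a ((R : ℂ) • z)| +
      th s A a ((R : ℂ) • z) * (16 * N₀ * r) := by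
    intro a
    have e1 : th s A a ((R : ℂ) • w) - th s A a ((R : ℂ) • z) =
        (ph s a ((R : ℂ) • w) - ph s a ((R : ℂ) • z)) / Dw +
        th s A a ((R : ℂ) • z) * ((Dz - Dw) / Dw) := by
      unfold th
      rw [← hDw, ← hDz]
      have : Dw ≠ 0 := by linarith
      have : Dz ≠ 0 := by linarith
      field_simp
      ring
    rw [e1]
    refine (abs_add_le _ _).trans (add_le_add ?_ ?_)
    · rw [abs_div, abs_of_pos (show 0 < Dw by linarith), div_le_iff₀ (by linarith)]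
      nlinarith [abs_nonneg (ph s a ((R : ℂ) • w) - ph s a ((R : ℂ) • z))]
    · rw [abs_mul, abs_of_nonneg (th_nonneg _ _ _ _)]
      apply mul_le_mul_of_nonneg_left _ (th_nonneg _ _ _ _)
      rw [abs_div, abs_of_pos (show 0 < Dw by linarith), div_le_iff₀ (by linarith)]
      have h9 : (0 : ℝ) ≤ N₀ * r := by positivity
      nlinarith
  calc _ ≤ ∑ a ∈ A, (4 * |ph s a ((R : ℂ) • w) - ph s a ((R : ℂ) • z)| +
        th s A a ((R : ℂ) • z) * (16 * N₀ * r)) := Finset.sum_le_sum fun a _ => hone a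
    _ = 4 * ∑ a ∈ A, |ph s a ((R : ℂ) • w) - ph s a ((R : ℂ) • z)| +
        (∑ a ∈ A, th s A a ((R : ℂ) • z)) * (16 * N₀ * r) := by
        rw [Finset.sum_add_distrib, ← Finset.mul_sum, ← Finset.sum_mul]
    _ ≤ 4 * (4 * N₀ * r) + 1 * (16 * N₀ * r) := by
        have := th_sum_le s A ((R : ℂ) • z)
        gcongr
    _ = _ := by ring

end Pool.Agent.MPca0fc2.VL
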