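import Mathlib
import Pool.Agent.Lib.MP_ca0fc2_an.SLLev

set_option autoImplicit false

namespace Pool.Agent.MPca0fc2.SD
end Pool.Agent.MPca0fc2.SD

open Metric Set Filter Topology
open scoped InnerProductSpace

namespace Pool.Agent.MPca0fc2.VL

open Pool.Agent.MPca0fc2.SD
open Pool.Agent.MPca0fc2.SL

variable {J : Type*} [Fintype J] {I : Type*} [Fintype I]
variable {E : Type*} [NormedAddCommGroup E] [InnerProductSpace ℂ E]
variable {W : Type*} [NormedAddCommGroup W] [InnerProductSpace ℂ W]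

/-- solutions on a domain `D`, one for each cell and each parameter `γ`, that touch the solutions
of the level cells at the points where `u` equals `γ` -/
structure Cn (f : J → E → ℂ) (u : E → W) (ρ B L : ℝ) (c : I → W) (s : I → J → E → ℂ) (D : Set E)
    (N : I → W → E → J → ℂ) : Prop where
  hol : ∀ i γ j, ‖γ - c i‖ < ρ → DifferentiableOn ℂ (fun x => N i γ x j) D
  bd : ∀ i γ x, ‖N i γ x‖ ≤ B
  one : ∀ i γ x, ‖γ - c i‖ < ρ → x ∈ D → dot (fun j => f j x) (N i γ x) = 1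
  lip : ∀ i γ γ' x, ‖γ - c i‖ < ρ → ‖γ' - c i‖ < ρ → x ∈ D →
    ‖N i γ x - N i γ' x‖ ≤ L * ‖γ - γ'‖
  con : ∀ i γ x, ‖γ - c i‖ < ρ → x ∈ D → ‖u x - c i‖ < 4 * ρ →
    ‖N i γ x - (fun j => s i j x)‖ ≤ L * ‖u x - γ‖ ^ 2

/-- the mixture of the solutions -/
noncomputable def MM (χ : I → W → ℝ) (A : Finset E) (N : E → I → W → E → J → ℂ) (τ : E → ℝ)
    (β γ : W) (x : E) : J → ℂ :=
  ∑ i, ∑ a ∈ A, ((χ i β * τ a : ℝ) : ℂ) • N a i γ x

theorem dot_sum {ι : Type*} (S : Finset ι) (F : ι → J → ℂ) (g : J → ℂ) :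
    dot g (∑ i ∈ S, F i) = ∑ i ∈ S, dot g (F i) := by
  unfold dot
  rw [Finset.sum_comm]
  refine Finset.sum_congr rfl fun j _ => ?_
  rw [Finset.sum_apply, Finset.mul_sum]

section Mix

variable {f : J → E → ℂ} {u : E → W} {ρ M B L Lc G : ℝ} {χ : I → W → ℝ} {c : I → W}
  {s : I → J → E → ℂ} {A : Finset E} {Dm : E → Set E} {N : E → I → W → E → J → ℂ}

theorem cell_near (h : Lev f u ρ M B Lc G χ c s) {i : I} {β γ : W} (hi : χ i β ≠ 0)
    (hγ : ‖γ - β‖ ≤ ρ / 2) : ‖γ - c i‖ < ρ := by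
  have h1 := h.supp i β hi
  have e1 : γ - c i = (γ - β) + (β - c i) := by abel
  rw [e1]
  exact (norm_add_le _ _).trans_lt (by linarith)

theorem norm_MM_le (h : Lev f u ρ M B Lc G χ c s) (hC : ∀ a ∈ A, Cn f u ρ B L c s (Dm a) (N a))
    {τ : E → ℝ} (hτ0 : ∀ a, 0 ≤ τ a) (hτ1 : ∑ a ∈ A, τ a ≤ 1) {β : W} (hβ : ‖β‖ ≤ G)
    (γ : W) (x : E) : ‖MM χ A N τ β γ x‖ ≤ B := by
  have hB := h.B0
  calc ‖MM χ A N τ β γ x‖ ≤ ∑ i, ∑ a ∈ A, χ i β * τ a * B := by
        apply norm_sum_le_of_le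
        intro i _
        apply norm_sum_le_of_le
        intro a ha
        rw [norm_smul, Complex.norm_real,
          Real.norm_of_nonneg (mul_nonneg (h.χ0 i β) (hτ0 a))]
        exact mul_le_mul_of_nonneg_left ((hC a ha).bd i γ x) (mul_nonneg (h.χ0 i β) (hτ0 a))
    _ = (∑ i, χ i β) * (∑ a ∈ A, τ a) * B := by
        rw [Finset.sum_mul_sum, Finset.sum_mul]
        refine Finset.sum_congr rfl fun i _ => ?_
        rw [Finset.sum_mul]
    _ ≤ 1 * 1 * B := by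
        rw [h.χ1 β hβ]
        have : 0 ≤ ∑ a ∈ A, τ a := Finset.sum_nonneg fun a _ => hτ0 a
        gcongr
    _ = B := by ring

theorem MM_one (h : Lev f u ρ M B Lc G χ c s) (hC : ∀ a ∈ A, Cn f u ρ B L c s (Dm a) (N a))
    {τ : E → ℝ} (hτ1 : ∑ a ∈ A, τ a = 1) {β γ : W} (hβ : ‖β‖ ≤ G) (hγ : ‖γ - β‖ ≤ ρ / 2)
    {x : E} (hx : ∀ a ∈ A, τ a ≠ 0 → x ∈ Dm a) :
    dot (fun j => f j x) (MM χ A N τ β γ x) = 1 := by
  have h0 : ∀ i, ∀ a ∈ A, dot (fun j => f j x) (((χ i β * τ a : ℝ) : ℂ) • N a i γ x) =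
      ((χ i β * τ a : ℝ) : ℂ) := by
    intro i a ha
    rw [dot_smul]
    by_cases hi : χ i β = 0
    · rw [hi]; simp
    by_cases hτ : τ a = 0
    · rw [hτ]; simp
    rw [(hC a ha).one i γ x (cell_near h hi hγ) (hx a ha hτ), mul_one]
  unfold MM
  rw [dot_sum]
  calc _ = ∑ i, ∑ a ∈ A, ((χ i β * τ a : ℝ) : ℂ) := by
        refine Finset.sum_congr rfl fun i _ => ?_
        rw [dot_sum]
        exact Finset.sum_congr rfl fun a ha => h0 i a ha
    _ = (((∑ i, χ i β) * ∑ a ∈ A, τ a : ℝ) : ℂ) := by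
        rw [Finset.sum_mul_sum]
        push_cast
        rfl
    _ = 1 := by rw [h.χ1 β hβ, hτ1]; simp

theorem MM_hol (h : Lev f u ρ M B Lc G χ c s) (hC : ∀ a ∈ A, Cn f u ρ B L c s (Dm a) (N a))
    {τ : E → ℝ} {β γ : W} (hγ : ‖γ - β‖ ≤ ρ / 2) {S : Set E}
    (hS : ∀ a ∈ A, τ a ≠ 0 → S ⊆ Dm a) : DifferentiableOn ℂ (MM χ A N τ β γ) S := by
  rw [differentiableOn_pi]
  intro j
  have e1 : (fun x => MM χ A N τ β γ x j) =
      fun x => ∑ i, ∑ a ∈ A, ((χ i β * τ a : ℝ) : ℂ) * N a i γ x j := by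
    funext x
    unfold MM
    rw [Finset.sum_apply]
    refine Finset.sum_congr rfl fun i _ => ?_
    rw [Finset.sum_apply]
    rfl
  rw [e1]
  apply DifferentiableOn.fun_sum
  intro i _
  apply DifferentiableOn.fun_sum
  intro a ha
  by_cases hi : χ i β = 0
  · simp only [hi, zero_mul, Complex.ofReal_zero]
    exact differentiableOn_const _
  by_cases hτ : τ a = 0
  · simp only [hτ, mul_zero, Complex.ofReal_zero, zero_mul]
    exact differentiableOn_const _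
  exact (((hC a ha).hol i γ j (cell_near h hi hγ)).mono (hS a ha hτ)).const_mul _

theorem MM_sub (h : Lev f u ρ M B Lc G χ c s) (hL : 0 ≤ L)
    (hC : ∀ a ∈ A, Cn f u ρ B L c s (Dm a) (N a))
    {τ τ' : E → ℝ} (hτ0 : ∀ a, 0 ≤ τ a) (hτ0' : ∀ a, 0 ≤ τ' a) (hτ1 : ∑ a ∈ A, τ a ≤ 1)
    (hτ1' : ∑ a ∈ A, τ' a ≤ 1) {β β' γ γ' : W} (hβ' : ‖β'‖ ≤ G)
    (hγ : ‖γ - β‖ ≤ ρ / 2) (hγ' : ‖γ' - β'‖ ≤ ρ / 2) {x : E}
    (hx : ∀ a ∈ A, τ' a ≠ 0 → x ∈ Dm a) :
    ‖MM χ A N τ β γ x - MM χ A N τ' β' γ' x‖ ≤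
      (Fintype.card I * Lc * B) * ‖β - β'‖ + B * ∑ a ∈ A, |τ a - τ' a| + L * ‖γ - γ'‖ := by
  have hB := h.B0
  have hLc := h.L0
  have hterm : ∀ i, ∀ a ∈ A, ‖((χ i β * τ a : ℝ) : ℂ) • N a i γ x -
      ((χ i β' * τ' a : ℝ) : ℂ) • N a i γ' x‖ ≤
      (|χ i β - χ i β'| * τ a + χ i β' * |τ a - τ' a|) * B +
      χ i β' * τ' a * (L * ‖γ - γ'‖) := by
    intro i a ha
    have hcd : |χ i β * τ a - χ i β' * τ' a| ≤
        |χ i β - χ i β'| * τ a + χ i β' * |τ a - τ' a| := by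
      have e1 : χ i β * τ a - χ i β' * τ' a = (χ i β - χ i β') * τ a + χ i β' * (τ a - τ' a) := by
        ring
      rw [e1]
      refine (abs_add_le _ _).trans (le_of_eq ?_)
      rw [abs_mul, abs_mul, abs_of_nonneg (hτ0 a), abs_of_nonneg (h.χ0 i β')]
    have hc' : 0 ≤ χ i β' * τ' a := mul_nonneg (h.χ0 i β') (hτ0' a)
    have hb := (hC a ha).bd i γ x
    have hb' := (hC a ha).bd i γ' x
    by_cases hz : χ i β * τ a = 0
    · rw [hz, Complex.ofReal_zero, zero_smul, zero_sub, norm_neg, norm_smul, Complex.norm_real,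
        Real.norm_of_nonneg hc']
      rw [hz, zero_sub, abs_neg, abs_of_nonneg hc'] at hcd
      calc χ i β' * τ' a * ‖N a i γ' x‖ ≤
            (|χ i β - χ i β'| * τ a + χ i β' * |τ a - τ' a|) * B :=
            mul_le_mul hcd hb' (norm_nonneg _) (hc'.trans hcd)
        _ ≤ _ := by
            have : 0 ≤ χ i β' * τ' a * (L * ‖γ - γ'‖) := by positivity
            linarith
    by_cases hz' : χ i β' * τ' a = 0
    · rw [hz', Complex.ofReal_zero, zero_smul, sub_zero, norm_smul, Complex.norm_real,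
        Real.norm_eq_abs]
      rw [hz', sub_zero] at hcd
      calc |χ i β * τ a| * ‖N a i γ x‖ ≤
            (|χ i β - χ i β'| * τ a + χ i β' * |τ a - τ' a|) * B :=
            mul_le_mul hcd hb (norm_nonneg _) ((abs_nonneg _).trans hcd)
        _ ≤ _ := by
            rw [zero_mul]
            linarith
    have h1 : χ i β ≠ 0 := left_ne_zero_of_mul hz
    have h2 : χ i β' ≠ 0 := left_ne_zero_of_mul hz'
    have h3 : τ' a ≠ 0 := right_ne_zero_of_mul hz'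
    have hlip := (hC a ha).lip i γ γ' x (cell_near h h1 hγ) (cell_near h h2 hγ') (hx a ha h3)
    have e1 : ((χ i β * τ a : ℝ) : ℂ) • N a i γ x - ((χ i β' * τ' a : ℝ) : ℂ) • N a i γ' x =
        ((χ i β * τ a - χ i β' * τ' a : ℝ) : ℂ) • N a i γ x +
        ((χ i β' * τ' a : ℝ) : ℂ) • (N a i γ x - N a i γ' x) := by
      push_cast
      module
    rw [e1]
    refine (norm_add_le _ _).trans (add_le_add ?_ ?_)
    · rw [norm_smul, Complex.norm_real, Real.norm_eq_abs]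
      exact mul_le_mul hcd hb (norm_nonneg _) ((abs_nonneg _).trans hcd)
    · rw [norm_smul, Complex.norm_real, Real.norm_of_nonneg hc']
      exact mul_le_mul_of_nonneg_left hlip hc'
  have hsum : ∑ i, ∑ a ∈ A, ((|χ i β - χ i β'| * τ a + χ i β' * |τ a - τ' a|) * B +
      χ i β' * τ' a * (L * ‖γ - γ'‖)) =
      ((∑ i, |χ i β - χ i β'|) * (∑ a ∈ A, τ a) +
        (∑ i, χ i β') * (∑ a ∈ A, |τ a - τ' a|)) * B +
      (∑ i, χ i β') * (∑ a ∈ A, τ' a) * (L * ‖γ - γ'‖) := by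
    rw [Finset.sum_mul_sum, Finset.sum_mul_sum, Finset.sum_mul_sum, ← Finset.sum_add_distrib,
      Finset.sum_mul, Finset.sum_mul, ← Finset.sum_add_distrib]
    refine Finset.sum_congr rfl fun i _ => ?_
    rw [← Finset.sum_add_distrib, Finset.sum_mul, Finset.sum_mul, ← Finset.sum_add_distrib]
  have hχs : ∑ i, |χ i β - χ i β'| ≤ Fintype.card I * Lc * ‖β - β'‖ := by
    calc ∑ i, |χ i β - χ i β'| ≤ ∑ _i : I, Lc * ‖β - β'‖ :=
          Finset.sum_le_sum fun i _ => h.χlip i β β'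
      _ = _ := by rw [Finset.sum_const, Finset.card_univ, nsmul_eq_mul, mul_assoc]
  have hχs0 : 0 ≤ ∑ i, |χ i β - χ i β'| := Finset.sum_nonneg fun i _ => abs_nonneg _
  have hts0 : 0 ≤ ∑ a ∈ A, |τ a - τ' a| := Finset.sum_nonneg fun i _ => abs_nonneg _
  have hτs : 0 ≤ ∑ a ∈ A, τ a := Finset.sum_nonneg fun i _ => hτ0 i
  have hτs' : 0 ≤ ∑ a ∈ A, τ' a := Finset.sum_nonneg fun i _ => hτ0' i
  have e0 : MM χ A N τ β γ x - MM χ A N τ' β' γ' x =
      ∑ i, ∑ a ∈ A, (((χ i β * τ a : ℝ) : ℂ) • N a i γ x -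
        ((χ i β' * τ' a : ℝ) : ℂ) • N a i γ' x) := by
    unfold MM
    rw [← Finset.sum_sub_distrib]
    refine Finset.sum_congr rfl fun i _ => ?_
    rw [← Finset.sum_sub_distrib]
  rw [e0]
  refine (norm_sum_le_of_le _ fun i _ => norm_sum_le_of_le _ fun a ha => hterm i a ha).trans ?_
  rw [hsum, h.χ1 β' hβ']
  calc _ ≤ ((Fintype.card I * Lc * ‖β - β'‖) * 1 + 1 * ∑ a ∈ A, |τ a - τ' a|) * B +
        1 * 1 * (L * ‖γ - γ'‖) := by gcongr
    _ = _ := by ring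

theorem MM_con (h : Lev f u ρ M B Lc G χ c s)
    (hC : ∀ a ∈ A, Cn f u ρ B L c s (Dm a) (N a))
    {τ : E → ℝ} (hτ0 : ∀ a, 0 ≤ τ a) (hτ1 : ∑ a ∈ A, τ a = 1) {β γ : W} (hβ : ‖β‖ ≤ G)
    (hγ : ‖γ - β‖ ≤ ρ / 2) {x : E} (hx : ∀ a ∈ A, τ a ≠ 0 → x ∈ Dm a)
    (hu : ‖u x - β‖ < 3 * ρ) :
    ‖MM χ A N τ β γ x - mv χ s β x‖ ≤ L * ‖u x - γ‖ ^ 2 := by
  have hρ := h.ρ0
  have e1 : mv χ s β x = ∑ i, ∑ a ∈ A, ((χ i β * τ a : ℝ) : ℂ) • (fun j => s i j x) := by
    funext j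
    unfold mv
    rw [Finset.sum_apply]
    refine Finset.sum_congr rfl fun i _ => ?_
    rw [Finset.sum_apply]
    simp only [Pi.smul_apply, smul_eq_mul]
    rw [← Finset.sum_mul]
    congr 1
    rw [← Complex.ofReal_sum, ← Finset.mul_sum, hτ1, mul_one]
  have e2 : MM χ A N τ β γ x - mv χ s β x =
      ∑ i, ∑ a ∈ A, ((χ i β * τ a : ℝ) : ℂ) • (N a i γ x - (fun j => s i j x)) := by
    rw [e1]
    unfold MM
    rw [← Finset.sum_sub_distrib]
    refine Finset.sum_congr rfl fun i _ => ?_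
    rw [← Finset.sum_sub_distrib]
    exact Finset.sum_congr rfl fun a _ => (smul_sub _ _ _).symm
  rw [e2]
  have hterm : ∀ i, ∀ a ∈ A, ‖((χ i β * τ a : ℝ) : ℂ) • (N a i γ x - (fun j => s i j x))‖ ≤
      χ i β * τ a * (L * ‖u x - γ‖ ^ 2) := by
    intro i a ha
    have hc : 0 ≤ χ i β * τ a := mul_nonneg (h.χ0 i β) (hτ0 a)
    rw [norm_smul, Complex.norm_real, Real.norm_of_nonneg hc]
    by_cases hz : χ i β * τ a = 0
    · rw [hz, zero_mul, zero_mul]
    have h1 : χ i β ≠ 0 := left_ne_zero_of_mul hz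
    have h3 : τ a ≠ 0 := right_ne_zero_of_mul hz
    apply mul_le_mul_of_nonneg_left _ hc
    exact (hC a ha).con i γ x (cell_near h h1 hγ) (hx a ha h3)
      (by have := h.near h1 hu; linarith)
  refine (norm_sum_le_of_le _ fun i _ => norm_sum_le_of_le _ fun a ha => hterm i a ha).trans ?_
  have hsum : ∑ i, ∑ a ∈ A, χ i β * τ a * (L * ‖u x - γ‖ ^ 2) =
      (∑ i, χ i β) * (∑ a ∈ A, τ a) * (L * ‖u x - γ‖ ^ 2) := by
    rw [Finset.sum_mul_sum, Finset.sum_mul]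
    refine Finset.sum_congr rfl fun i _ => ?_
    rw [Finset.sum_mul]
  rw [hsum, h.χ1 β hβ, hτ1, one_mul, one_mul]

/-- products with a bounded factor are continuous where the coefficient vanishes -/
theorem cont_prod {X V : Type*} [TopologicalSpace X] [NormedAddCommGroup V] [NormedSpace ℂ V]
    {S : Set X} {b : X → ℝ} {F : X → V} {C : ℝ} (hb : ContinuousOn b S) (hF : ∀ x, ‖F x‖ ≤ C)
    (hc : ∀ x ∈ S, b x ≠ 0 → ContinuousWithinAt F S x) :
    ContinuousOn (fun x => (b x : ℂ) • F x) S := by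
  intro x hx
  have hbx : ContinuousWithinAt (fun x => (b x : ℂ)) S x :=
    (Complex.continuous_ofReal.comp_continuousOn hb) x hx
  by_cases h0 : b x = 0
  · have h1 : Tendsto (fun y => (b y : ℂ) • F y) (𝓝[S] x) (𝓝 0) := by
      rw [tendsto_zero_iff_norm_tendsto_zero]
      have h2 : Tendsto (fun y => |b y| * C) (𝓝[S] x) (𝓝 0) := by
        have h3 : Tendsto (fun y => |b y| * C) (𝓝[S] x) (𝓝 (|b x| * C)) :=
          ((hb x hx).abs).mul tendsto_const_nhds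
        rwa [h0, abs_zero, zero_mul] at h3
      refine squeeze_zero (fun y => norm_nonneg _) (fun y => ?_) h2
      rw [norm_smul, Complex.norm_real, Real.norm_eq_abs]
      exact mul_le_mul_of_nonneg_left (hF y) (abs_nonneg _)
    have h4 : (fun x => (b x : ℂ) • F x) x = 0 := by
      simp only [h0, Complex.ofReal_zero, zero_smul]
    change Tendsto _ _ (𝓝 ((fun x => (b x : ℂ) • F x) x))
    rw [h4]
    exact h1
  · exact hbx.smul (hc x hx h0)

theorem MM_cont (h : Lev f u ρ M B Lc G χ c s) (hDm : ∀ a ∈ A, IsOpen (Dm a))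
    (hC : ∀ a ∈ A, Cn f u ρ B L c s (Dm a) (N a)) {X : Type*} [TopologicalSpace X]
    {S : Set X} {τ : X → E → ℝ} {β γ : X → W} {y : X → E} (hτ : ∀ a ∈ A,
    ContinuousOn (fun x => τ x a) S) (hβ : ContinuousOn β S) (hγ : ContinuousOn γ S)
    (hy : ContinuousOn y S) (hn : ∀ x ∈ S, ‖γ x - β x‖ ≤ ρ / 2)
    (hx : ∀ x ∈ S, ∀ a ∈ A, τ x a ≠ 0 → y x ∈ Dm a) :
    ContinuousOn (fun x => MM χ A N (τ x) (β x) (γ x) (y x)) S := by
  have hχc : ∀ i, Continuous (χ i) := by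
    intro i
    have hl : LipschitzWith (Real.toNNReal Lc) (χ i) := by
      apply LipschitzWith.of_dist_le_mul
      intro x y
      rw [Real.dist_eq, dist_eq_norm, Real.coe_toNNReal _ h.L0]
      exact h.χlip i x y
    exact hl.continuous
  unfold MM
  apply continuousOn_finsetSum
  intro i _
  apply continuousOn_finsetSum
  intro a ha
  apply cont_prod (b := fun x => χ i (β x) * τ x a) (F := fun x => N a i (γ x) (y x))
    (((hχc i).comp_continuousOn hβ).mul (hτ a ha)) (fun x => (hC a ha).bd i _ _)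
  intro x hxS hne
  have h1 : χ i (β x) ≠ 0 := left_ne_zero_of_mul hne
  have h3 : τ x a ≠ 0 := right_ne_zero_of_mul hne
  have hγc := cell_near h h1 (hn x hxS)
  have hyD := hx x hxS a ha h3
  -- continuity in the last variable
  have hcx : ContinuousAt (fun z => N a i (γ x) z) (y x) := by
    rw [continuousAt_pi]
    intro j
    exact (((hC a ha).hol i (γ x) j hγc).differentiableAt
      ((hDm a ha).mem_nhds hyD)).continuousAt
  have hcy : Tendsto (fun x' => N a i (γ x) (y x')) (𝓝[S] x) (𝓝 (N a i (γ x) (y x))) :=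
    hcx.tendsto.comp (hy x hxS)
  have hγt : Tendsto γ (𝓝[S] x) (𝓝 (γ x)) := hγ x hxS
  have hev1 : ∀ᶠ x' in 𝓝[S] x, ‖γ x' - c i‖ < ρ := by
    have : Tendsto (fun x' => ‖γ x' - c i‖) (𝓝[S] x) (𝓝 ‖γ x - c i‖) :=
      (hγt.sub_const _).norm
    exact this.eventually_lt_const hγc
  have hev2 : ∀ᶠ x' in 𝓝[S] x, y x' ∈ Dm a := (hy x hxS).eventually ((hDm a ha).mem_nhds hyD)
  have hd : Tendsto (fun x' => N a i (γ x') (y x') - N a i (γ x) (y x')) (𝓝[S] x) (𝓝 0) := by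
    rw [tendsto_zero_iff_norm_tendsto_zero]
    have h4 : Tendsto (fun x' => L * ‖γ x' - γ x‖) (𝓝[S] x) (𝓝 0) := by
      have h5 : Tendsto (fun x' => L * ‖γ x' - γ x‖) (𝓝[S] x) (𝓝 (L * ‖γ x - γ x‖)) :=
        tendsto_const_nhds.mul (hγt.sub_const _).norm
      rwa [sub_self, norm_zero, mul_zero] at h5
    refine squeeze_zero' (Eventually.of_forall fun _ => norm_nonneg _) ?_ h4
    filter_upwards [hev1, hev2] with x' hx1 hx2
    exact (hC a ha).lip i (γ x') (γ x) (y x') hx1 hγc hx2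
  have := hd.add hcy
  simp only [sub_add_cancel, zero_add] at this
  exact this

end Mix

end Pool.Agent.MPca0fc2.VL
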