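import Mathlib
import Pool.Agent.Lib.MP_ca0fc2_an.VLMix

set_option autoImplicit false

open Metric Set Filter Topology
open scoped InnerProductSpace

namespace Pool.Agent.MPca0fc2.VL

open Pool.Agent.MPca0fc2.SD
open Pool.Agent.MPca0fc2.SL

variable {J : Type*} [Fintype J] {I : Type*} [Fintype I]
variable {E : Type*} [NormedAddCommGroup E] [InnerProductSpace ℂ E]
variable {W : Type*} [NormedAddCommGroup W] [InnerProductSpace ℂ W]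

/-- the ingredients of the solutions with contact -/
structure Pre (f : J → E → ℂ) (u : E → W) (ρ V : ℝ) (ci : W) (s : J → E → ℂ) (D : Set E)
    (y : W → E → ℂ) (v : W → E → J → ℂ) (m : J → E → ℂ) : Prop where
  mhol : ∀ j, DifferentiableOn ℂ (m j) D
  mbd : ∀ x ∈ D, ‖(fun j => m j x)‖ ≤ V
  mone : ∀ x ∈ D, dot (fun j => f j x) (fun j => m j x) = 1
  yhol : ∀ γ, ‖γ - ci‖ < ρ → DifferentiableOn ℂ (y γ) D
  vhol : ∀ γ, ‖γ - ci‖ < ρ → ∀ j, DifferentiableOn ℂ (fun x => v γ x j) D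
  ybd : ∀ γ, ‖γ - ci‖ < ρ → ∀ x ∈ D, ‖y γ x‖ ≤ V
  vbd : ∀ γ, ‖γ - ci‖ < ρ → ∀ x ∈ D, ‖v γ x‖ ≤ V
  ylip : ∀ γ γ', ‖γ - ci‖ < ρ → ‖γ' - ci‖ < ρ → ∀ x ∈ D, ‖y γ x - y γ' x‖ ≤ V * ‖γ - γ'‖
  vlip : ∀ γ γ', ‖γ - ci‖ < ρ → ‖γ' - ci‖ < ρ → ∀ x ∈ D, ‖v γ x - v γ' x‖ ≤ V * ‖γ - γ'‖
  y1 : ∀ γ, ‖γ - ci‖ < ρ → ∀ x ∈ D, ‖1 - y γ x‖ ≤ V * ‖u x - γ‖
  vdot : ∀ γ, ‖γ - ci‖ < ρ → ∀ x ∈ D, dot (fun j => f j x) (v γ x) = y γ x
  vs : ∀ γ, ‖γ - ci‖ < ρ → ∀ x ∈ D, ‖u x - ci‖ < 4 * ρ → v γ x = y γ x • (fun j => s j x)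
  sbd : ∀ x ∈ D, ‖u x - ci‖ < 4 * ρ → ‖(fun j => s j x)‖ ≤ V

/-- the solution with contact -/
noncomputable def NN (y : ℂ) (v m : J → ℂ) : J → ℂ := (2 - y) • v + (1 - y) ^ 2 • m

theorem NN_dot {f v m : J → ℂ} {y : ℂ} (hv : dot f v = y) (hm : dot f m = 1) :
    dot f (NN y v m) = 1 := by
  rw [NN, dot_add, dot_smul, dot_smul, hv, hm]; ring

theorem NN_bd {v m : J → ℂ} {y : ℂ} {V : ℝ} (hy : ‖y‖ ≤ V) (hv : ‖v‖ ≤ V) (hm : ‖m‖ ≤ V) :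
    ‖NN y v m‖ ≤ (2 + V) * V + (1 + V) ^ 2 * V := by
  have hV : 0 ≤ V := (norm_nonneg _).trans hy
  rw [NN]
  refine (norm_add_le _ _).trans ?_
  rw [norm_smul, norm_smul, norm_pow]
  have h1 : ‖2 - y‖ ≤ 2 + V := by
    refine (norm_sub_le _ _).trans ?_
    have : ‖(2 : ℂ)‖ = 2 := by simp
    rw [this]; linarith
  have h2 : ‖1 - y‖ ≤ 1 + V := by
    refine (norm_sub_le _ _).trans ?_
    rw [norm_one]; linarith
  gcongr

theorem NN_lip {v m v' : J → ℂ} {y y' : ℂ} {V d : ℝ} (hy : ‖y‖ ≤ V) (hy' : ‖y'‖ ≤ V)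
    (hv' : ‖v'‖ ≤ V) (hm : ‖m‖ ≤ V) (hyy : ‖y - y'‖ ≤ V * d)
    (hvv : ‖v - v'‖ ≤ V * d) :
    ‖NN y v m - NN y' v' m‖ ≤ ((2 + V) * V + V * V + (2 + 2 * V) * V * V) * d := by
  have hV : 0 ≤ V := (norm_nonneg _).trans hy
  have hVd : 0 ≤ V * d := (norm_nonneg _).trans hyy
  have e1 : NN y v m - NN y' v' m = (2 - y) • (v - v') - (y - y') • v' -
      ((y - y') * (2 - y - y')) • m := by
    rw [NN, NN]; module
  rw [e1]
  have h1 : ‖2 - y‖ ≤ 2 + V := by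
    refine (norm_sub_le _ _).trans ?_
    have : ‖(2 : ℂ)‖ = 2 := by simp
    rw [this]; linarith
  have h2 : ‖2 - y - y'‖ ≤ 2 + 2 * V := by
    refine (norm_sub_le _ _).trans ?_
    linarith
  have g1 : ‖(2 - y) • (v - v')‖ ≤ (2 + V) * (V * d) := by
    rw [norm_smul]; gcongr
  have g2 : ‖(y - y') • v'‖ ≤ (V * d) * V := by
    rw [norm_smul]; gcongr
  have g3 : ‖((y - y') * (2 - y - y')) • m‖ ≤ (V * d) * (2 + 2 * V) * V := by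
    rw [norm_smul, norm_mul]; gcongr
  refine (norm_sub_le _ _).trans ((add_le_add (norm_sub_le _ _) le_rfl).trans ?_)
  calc _ ≤ (2 + V) * (V * d) + (V * d) * V + (V * d) * (2 + 2 * V) * V :=
        add_le_add (add_le_add g1 g2) g3
    _ = _ := by ring

theorem NN_con {s m : J → ℂ} {y : ℂ} {V d : ℝ} (hm : ‖m‖ ≤ V) (hs : ‖s‖ ≤ V)
    (hy1 : ‖1 - y‖ ≤ V * d) : ‖NN y (y • s) m - s‖ ≤ 2 * V * V ^ 2 * d ^ 2 := by
  have hV : 0 ≤ V := (norm_nonneg _).trans hm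
  have e1 : NN y (y • s) m - s = ((1 - y) ^ 2) • (m - s) := by
    rw [NN]; module
  rw [e1, norm_smul, norm_pow]
  have h1 : ‖m - s‖ ≤ 2 * V := by
    refine (norm_sub_le _ _).trans ?_
    linarith
  calc ‖1 - y‖ ^ 2 * ‖m - s‖ ≤ (V * d) ^ 2 * (2 * V) := by gcongr
    _ = _ := by ring

open Classical in
/-- the solutions with contact, extended by zero -/
noncomputable def NX (ρ : ℝ) (c : I → W) (D : Set E) (y : I → W → E → ℂ)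
    (v : I → W → E → J → ℂ) (m : J → E → ℂ) (i : I) (γ : W) (x : E) : J → ℂ :=
  if x ∈ D ∧ ‖γ - c i‖ < ρ then NN (y i γ x) (v i γ x) (fun j => m j x) else 0

theorem Cn.of_pre {f : J → E → ℂ} {u : E → W} {ρ V B L : ℝ} {c : I → W} {s : I → J → E → ℂ}
    {D : Set E} {y : I → W → E → ℂ} {v : I → W → E → J → ℂ} {m : J → E → ℂ} (hV : 0 ≤ V)
    (h : ∀ i, Pre f u ρ V (c i) (s i) D (y i) (v i) m)
    (hB : (2 + V) * V + (1 + V) ^ 2 * V ≤ B)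
    (hL : (2 + V) * V + V * V + (2 + 2 * V) * V * V + 2 * V * V ^ 2 ≤ L) :
    Cn f u ρ B L c s D (NX ρ c D y v m) := by
  have hL1 : (2 + V) * V + V * V + (2 + 2 * V) * V * V ≤ L := by
    have : 0 ≤ 2 * V * V ^ 2 := by positivity
    linarith
  have hL2 : 2 * V * V ^ 2 ≤ L := by
    have : 0 ≤ (2 + V) * V + V * V + (2 + 2 * V) * V * V := by positivity
    linarith
  have e0 : ∀ i γ x, ‖γ - c i‖ < ρ → x ∈ D → NX ρ c D y v m i γ x =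
      NN (y i γ x) (v i γ x) (fun j => m j x) := by
    intro i γ x hγ hx
    rw [NX, if_pos ⟨hx, hγ⟩]
  refine ⟨?_, ?_, ?_, ?_, ?_⟩
  · intro i γ j hγ
    have h1 : DifferentiableOn ℂ (fun x => (2 - y i γ x) * v i γ x j +
        (1 - y i γ x) ^ 2 * m j x) D :=
      ((((h i).yhol γ hγ).const_sub 2).mul ((h i).vhol γ hγ j)).add
        (((((h i).yhol γ hγ).const_sub 1).pow 2).mul ((h i).mhol j))
    refine h1.congr fun x hx => ?_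
    rw [e0 i γ x hγ hx]
    rfl
  · intro i γ x
    by_cases hx : x ∈ D ∧ ‖γ - c i‖ < ρ
    · rw [e0 i γ x hx.2 hx.1]
      exact (NN_bd ((h i).ybd γ hx.2 x hx.1) ((h i).vbd γ hx.2 x hx.1)
        ((h i).mbd x hx.1)).trans hB
    · rw [NX, if_neg hx, norm_zero]
      refine le_trans ?_ hB
      positivity
  · intro i γ x hγ hx
    rw [e0 i γ x hγ hx]
    exact NN_dot ((h i).vdot γ hγ x hx) ((h i).mone x hx)
  · intro i γ γ' x hγ hγ' hx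
    rw [e0 i γ x hγ hx, e0 i γ' x hγ' hx]
    refine (NN_lip ((h i).ybd γ hγ x hx) ((h i).ybd γ' hγ' x hx) ((h i).vbd γ' hγ' x hx)
      ((h i).mbd x hx) ((h i).ylip γ γ' hγ hγ' x hx) ((h i).vlip γ γ' hγ hγ' x hx)).trans ?_
    exact mul_le_mul_of_nonneg_right hL1 (norm_nonneg _)
  · intro i γ x hγ hx hu
    rw [e0 i γ x hγ hx, (h i).vs γ hγ x hx hu]
    refine (NN_con ((h i).mbd x hx) ((h i).sbd x hx hu) ((h i).y1 γ hγ x hx)).trans ?_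
    exact mul_le_mul_of_nonneg_right hL2 (sq_nonneg _)

end Pool.Agent.MPca0fc2.VL
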