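import Mathlib
import Pool.Agent.Lib.MP_ca0fc2_an.VLRef

set_option autoImplicit false

open Metric Set Filter Topology
open scoped InnerProductSpace

namespace Pool.Agent.MPca0fc2.VL

open Pool.Agent.MPca0fc2.SD
open Pool.Agent.MPca0fc2.SL

variable {N : ℕ}
variable {E : Type*} [NormedAddCommGroup E] [InnerProductSpace ℂ E]

/-- vectors with three kinds of components -/
noncomputable def ev (a b₀ : ℂ) (b : Fin N → ℂ) : Option (Fin (N + 1)) → ℂ :=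
  fun o => o.elim a (Fin.cons b₀ b)

theorem ev_none (a b₀ : ℂ) (b : Fin N → ℂ) : ev a b₀ b none = a := rfl

theorem ev_zero (a b₀ : ℂ) (b : Fin N → ℂ) : ev a b₀ b (some 0) = b₀ := rfl

theorem ev_succ (a b₀ : ℂ) (b : Fin N → ℂ) (j : Fin N) : ev a b₀ b (some j.succ) = b j := by
  simp [ev]

theorem ev_norm {a b₀ : ℂ} {b : Fin N → ℂ} {V : ℝ} (hV : 0 ≤ V) (h1 : ‖a‖ ≤ V) (h2 : ‖b₀‖ ≤ V)
    (h3 : ∀ j, ‖b j‖ ≤ V) : ‖ev a b₀ b‖ ≤ V := by
  rw [pi_norm_le_iff_of_nonneg hV]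
  intro o
  cases o with
  | none => exact h1
  | some j =>
    refine Fin.cases ?_ (fun j => ?_) j
    · exact h2
    · rw [ev_succ]; exact h3 j

theorem ev_ext {g h : Option (Fin (N + 1)) → ℂ} (h1 : g none = h none)
    (h2 : g (some 0) = h (some 0)) (h3 : ∀ j : Fin N, g (some j.succ) = h (some j.succ)) :
    g = h := by
  funext o
  cases o with
  | none => exact h1
  | some j => exact Fin.cases h2 h3 j

theorem dotJ (q : ℂ) (F : Fin (N + 1) → ℂ) (h : Option (Fin (N + 1)) → ℂ) :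
    dot (fun o => o.elim q F) h = q * h none + (F 0 * h (some 0) +
      ∑ j : Fin N, F j.succ * h (some j.succ)) := by
  rw [dot, Fintype.sum_option, Fin.sum_univ_succ]
  rfl

theorem sum_bd (a : EuclideanSpace ℂ (Fin N)) {b : Fin N → ℂ} {C : ℝ} (hC : 0 ≤ C)
    (hb : ∀ j, ‖b j‖ ≤ C) : ‖∑ j, a j * b j‖ ≤ (N + 1) * C * ‖a‖ := by
  calc ‖∑ j, a j * b j‖ ≤ ∑ _j : Fin N, ‖a‖ * C := by
        apply norm_sum_le_of_le
        intro j _
        rw [norm_mul]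
        exact mul_le_mul (PiLp.norm_apply_le a j) (hb j) (norm_nonneg _) (norm_nonneg _)
    _ = N * (‖a‖ * C) := by rw [Finset.sum_const, Finset.card_univ, Fintype.card_fin, nsmul_eq_mul]
    _ ≤ _ := by
        have : 0 ≤ ‖a‖ * C := by positivity
        nlinarith

/-- the slow map -/
noncomputable def uu (F : Fin (N + 1) → E → ℂ) (z : E) : EuclideanSpace ℂ (Fin N) :=
  WithLp.toLp 2 fun j => F j.succ z

theorem uu_apply (F : Fin (N + 1) → E → ℂ) (z : E) (j : Fin N) : uu F z j = F j.succ z := rfl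

/-- the data with the extra datum -/
noncomputable def fj (q : E → ℂ) (F : Fin (N + 1) → E → ℂ) (o : Option (Fin (N + 1))) (z : E) : ℂ :=
  o.elim (q z) fun j => F j z

theorem dot_fj (q : E → ℂ) (F : Fin (N + 1) → E → ℂ) (x : E) (h : Option (Fin (N + 1)) → ℂ) :
    dot (fun o => fj q F o x) h = q x * h none + (F 0 x * h (some 0) +
      ∑ j : Fin N, F j.succ x * h (some j.succ)) := dotJ _ _ _

/-- a block solution without the extra component -/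
noncomputable def mj (m : Fin (N + 1) → E → ℂ) (o : Option (Fin (N + 1))) (z : E) : ℂ :=
  o.elim 0 fun j => m j z

/-- the denominators -/
noncomputable def den (m : Fin (N + 1) → E → ℂ) (γ : EuclideanSpace ℂ (Fin N)) (x : E) : ℂ :=
  1 - ∑ j, γ j * m j.succ x

theorem mj_facts {q : E → ℂ} {F m : Fin (N + 1) → E → ℂ} {D : Set E} {C V : ℝ} (hV : 0 ≤ V)
    (hCV : C ≤ V)
    (h1 : ∀ j, DifferentiableOn ℂ (m j) D) (h2 : ∀ j, ∀ x ∈ D, ‖m j x‖ ≤ C)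
    (h3 : ∀ x ∈ D, ∑ j, F j x * m j x = 1) :
    (∀ j, DifferentiableOn ℂ (mj m j) D) ∧ (∀ x ∈ D, ‖(fun j => mj m j x)‖ ≤ V) ∧
    ∀ x ∈ D, dot (fun j => fj q F j x) (fun j => mj m j x) = 1 := by
  refine ⟨?_, ?_, ?_⟩
  · intro o
    cases o with
    | none => exact differentiableOn_const _
    | some j => exact h1 j
  · intro x hx
    rw [pi_norm_le_iff_of_nonneg hV]
    intro o
    cases o with
    | none => simp only [mj, Option.elim, norm_zero]; exact hV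
    | some j => exact (h2 j x hx).trans hCV
  · intro x hx
    rw [dot_fj, ← h3 x hx, Fin.sum_univ_succ]
    simp only [mj, Option.elim, mul_zero, zero_add]

theorem pre_small {q : E → ℂ} {F m : Fin (N + 1) → E → ℂ} {D : Set E} {C V M c₀ ρ : ℝ}
    {c : EuclideanSpace ℂ (Fin N)} (hC : 0 ≤ C) (hM : 0 ≤ M) (hV : 0 ≤ V)
    (hc : ‖c‖ ≤ c₀) (hρ : ρ ≤ c₀ / 8) (hc₀ : 4 * (N + 1) * C * c₀ ≤ 1)
    (hF : ∀ j, DifferentiableOn ℂ (F j) D) (hFM : ∀ x ∈ D, ‖F 0 x‖ ≤ M)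
    (h1 : ∀ j, DifferentiableOn ℂ (m j) D) (h2 : ∀ j, ∀ x ∈ D, ‖m j x‖ ≤ C)
    (h3 : ∀ x ∈ D, ∑ j, F j x * m j x = 1)
    (hF0 : ∀ x ∈ D, ‖uu F x - c‖ < 4 * ρ → F 0 x ≠ 0 ∧ ‖(F 0 x)⁻¹‖ ≤ V)
    (v1 : 2 * C ≤ V) (v2 : 2 * M * C ≤ V) (v3 : 2 * (N + 1) * C ≤ V)
    (v4 : 4 * (N + 1) * C * C ≤ V) (v5 : 4 * (N + 1) * M * C * C ≤ V) :
    Pre (fj q F) (uu F) ρ V c
      (fun o x => ev 0 (F 0 x)⁻¹ (fun _ => 0) o) D
      (fun γ x => F 0 x * m 0 x / den m γ x)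
      (fun γ x => ev 0 (m 0 x / den m γ x) (fun _ => 0)) (mj m) := by
  obtain ⟨g1, g2, g3⟩ := mj_facts (q := q) (F := F) (m := m) (D := D) (C := C) hV
    (by linarith) h1 h2 h3
  have hn : (0 : ℝ) ≤ (N + 1) * C := by positivity
  have hden : ∀ γ : EuclideanSpace ℂ (Fin N), ‖γ - c‖ < ρ → ∀ x ∈ D, 1 / 2 ≤ ‖den m γ x‖ := by
    intro γ hγ x hx
    have h4 := sum_bd γ hC (b := fun j => m j.succ x) (fun j => h2 _ x hx)
    have h5 : ‖γ‖ ≤ 9 / 8 * c₀ := by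
      have : ‖γ‖ ≤ ‖γ - c‖ + ‖c‖ := by
        calc ‖γ‖ = ‖(γ - c) + c‖ := by congr 1; abel
          _ ≤ _ := norm_add_le _ _
      linarith
    have h6 : (N + 1) * C * ‖γ‖ ≤ 1 / 2 := by
      have : (N + 1) * C * ‖γ‖ ≤ (N + 1) * C * (9 / 8 * c₀) := mul_le_mul_of_nonneg_left h5 hn
      linarith
    have h7 : ‖(1 : ℂ)‖ - ‖∑ j, γ j * m j.succ x‖ ≤ ‖den m γ x‖ := norm_sub_norm_le _ _
    rw [norm_one] at h7
    linarith
  have hden0 : ∀ γ : EuclideanSpace ℂ (Fin N), ‖γ - c‖ < ρ → ∀ x ∈ D, den m γ x ≠ 0 := by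
    intro γ hγ x hx h0
    have := hden γ hγ x hx
    rw [h0, norm_zero] at this
    norm_num at this
  have hinv : ∀ γ : EuclideanSpace ℂ (Fin N), ‖γ - c‖ < ρ → ∀ x ∈ D, ‖(den m γ x)⁻¹‖ ≤ 2 := by
    intro γ hγ x hx
    rw [norm_inv]
    exact inv_le_of_inv_le₀ (by norm_num) (by have := hden γ hγ x hx; linarith)
  have hdd : ∀ γ, DifferentiableOn ℂ (den m γ) D := by
    intro γ
    unfold den
    apply DifferentiableOn.const_sub
    apply DifferentiableOn.fun_sum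
    intro j _
    exact (h1 _).const_mul _
  have hdinv : ∀ γ γ' : EuclideanSpace ℂ (Fin N), ‖γ - c‖ < ρ → ‖γ' - c‖ < ρ → ∀ x ∈ D,
      ‖(den m γ x)⁻¹ - (den m γ' x)⁻¹‖ ≤ 4 * ((N + 1) * C * ‖γ - γ'‖) := by
    intro γ γ' hγ hγ' x hx
    have e1 : (den m γ x)⁻¹ - (den m γ' x)⁻¹ =
        (den m γ x)⁻¹ * (den m γ' x)⁻¹ * ∑ j, (γ - γ') j * m j.succ x := by
      have e2 : ∑ j, (γ - γ') j * m j.succ x = den m γ' x - den m γ x := by
        unfold den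
        rw [sub_sub_sub_cancel_left, ← Finset.sum_sub_distrib]
        refine Finset.sum_congr rfl fun j _ => ?_
        rw [PiLp.sub_apply]; ring
      rw [e2]
      have := hden0 γ hγ x hx
      have := hden0 γ' hγ' x hx
      field_simp
    rw [e1, norm_mul, norm_mul]
    have h4 := hinv γ hγ x hx
    have h5 := hinv γ' hγ' x hx
    have h6 := sum_bd (γ - γ') hC (b := fun j => m j.succ x) (fun j => h2 _ x hx)
    calc _ ≤ 2 * 2 * ((N + 1) * C * ‖γ - γ'‖) := by gcongr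
      _ = _ := by ring
  refine ⟨g1, g2, g3, ?_, ?_, ?_, ?_, ?_, ?_, ?_, ?_, ?_, ?_⟩
  · intro γ hγ
    simp only [div_eq_mul_inv]
    exact ((hF 0).mul (h1 0)).mul ((hdd γ).inv (hden0 γ hγ))
  · intro γ hγ o
    cases o with
    | none => exact differentiableOn_const _
    | some j =>
      refine Fin.cases ?_ (fun j => ?_) j
      · simp only [ev_zero, div_eq_mul_inv]
        exact (h1 0).mul ((hdd γ).inv (hden0 γ hγ))
      · simp only [ev_succ]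
        exact differentiableOn_const _
  · intro γ hγ x hx
    rw [div_eq_mul_inv, norm_mul, norm_mul]
    have h4 := hFM x hx
    have h5 := h2 0 x hx
    have h6 := hinv γ hγ x hx
    calc _ ≤ M * C * 2 := by gcongr
      _ ≤ V := by linarith
  · intro γ hγ x hx
    apply ev_norm hV
    · rw [norm_zero]; exact hV
    · rw [div_eq_mul_inv, norm_mul]
      have h5 := h2 0 x hx
      have h6 := hinv γ hγ x hx
      calc _ ≤ C * 2 := by gcongr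
        _ ≤ V := by linarith
    · intro j; rw [norm_zero]; exact hV
  · intro γ γ' hγ hγ' x hx
    have e1 : F 0 x * m 0 x / den m γ x - F 0 x * m 0 x / den m γ' x =
        F 0 x * m 0 x * ((den m γ x)⁻¹ - (den m γ' x)⁻¹) := by ring
    rw [e1, norm_mul, norm_mul]
    have h4 := hFM x hx
    have h5 := h2 0 x hx
    have h6 := hdinv γ γ' hγ hγ' x hx
    calc _ ≤ M * C * (4 * ((N + 1) * C * ‖γ - γ'‖)) := by gcongr
      _ = (4 * (N + 1) * M * C * C) * ‖γ - γ'‖ := by ring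
      _ ≤ _ := by gcongr
  · intro γ γ' hγ hγ' x hx
    have e1 : ev (N := N) 0 (m 0 x / den m γ x) (fun _ => 0) - ev 0 (m 0 x / den m γ' x)
        (fun _ => 0) = ev 0 (m 0 x * ((den m γ x)⁻¹ - (den m γ' x)⁻¹)) (fun _ => 0) := by
      apply ev_ext
      · simp only [Pi.sub_apply, ev_none, sub_zero]
      · simp only [Pi.sub_apply, ev_zero]; ring
      · intro j; simp only [Pi.sub_apply, ev_succ, sub_zero]
    rw [e1]
    have h7 : 0 ≤ V * ‖γ - γ'‖ := by positivity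
    apply ev_norm h7
    · rw [norm_zero]; exact h7
    · rw [norm_mul]
      have h5 := h2 0 x hx
      have h6 := hdinv γ γ' hγ hγ' x hx
      calc _ ≤ C * (4 * ((N + 1) * C * ‖γ - γ'‖)) := by gcongr
        _ = (4 * (N + 1) * C * C) * ‖γ - γ'‖ := by ring
        _ ≤ _ := by gcongr
    · intro j; rw [norm_zero]; exact h7
  · intro γ hγ x hx
    have e1 : 1 - F 0 x * m 0 x / den m γ x = (den m γ x)⁻¹ *
        ∑ j, (uu F x - γ) j * m j.succ x := by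
      have e2 : ∑ j, (uu F x - γ) j * m j.succ x = den m γ x - F 0 x * m 0 x := by
        have h4 := h3 x hx
        rw [Fin.sum_univ_succ] at h4
        unfold den
        have e3 : ∑ j, (uu F x - γ) j * m j.succ x =
            ∑ j : Fin N, F j.succ x * m j.succ x - ∑ j, γ j * m j.succ x := by
          rw [← Finset.sum_sub_distrib]
          refine Finset.sum_congr rfl fun j _ => ?_
          rw [PiLp.sub_apply, uu_apply]; ring
        rw [e3, ← h4]; ring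
      rw [e2]
      have := hden0 γ hγ x hx
      field_simp
    rw [e1, norm_mul]
    have h5 := hinv γ hγ x hx
    have h6 := sum_bd (uu F x - γ) hC (b := fun j => m j.succ x) (fun j => h2 _ x hx)
    calc _ ≤ 2 * ((N + 1) * C * ‖uu F x - γ‖) := by gcongr
      _ = (2 * (N + 1) * C) * ‖uu F x - γ‖ := by ring
      _ ≤ _ := by gcongr
  · intro γ hγ x hx
    rw [dot_fj]
    simp only [ev_none, ev_zero, ev_succ, mul_zero, Finset.sum_const_zero, zero_add, add_zero]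
    ring
  · intro γ hγ x hx hu
    have h4 := (hF0 x hx hu).1
    apply ev_ext
    · simp only [ev_none, Pi.smul_apply, smul_zero]
    · simp only [ev_zero, Pi.smul_apply, smul_eq_mul]
      have := hden0 γ hγ x hx
      field_simp
    · intro j; simp only [ev_succ, Pi.smul_apply, smul_zero]
  · intro x hx hu
    apply ev_norm hV
    · rw [norm_zero]; exact hV
    · exact (hF0 x hx hu).2
    · intro j; rw [norm_zero]; exact hV

theorem inner_lower {c γ : EuclideanSpace ℂ (Fin N)} {c₀ r : ℝ} (hc : c₀ < ‖c‖) (hc₀ : 0 < c₀)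
    (hr : r ≤ c₀ / 2) (hγ : ‖γ - c‖ < r) : ‖c‖ * (c₀ / 2) ≤ ‖⟪c, γ⟫_ℂ‖ := by
  have e1 : ⟪c, γ⟫_ℂ = ((‖c‖ ^ 2 : ℝ) : ℂ) + ⟪c, γ - c⟫_ℂ := by
    rw [inner_sub_right, inner_self_eq_norm_sq_to_K]
    push_cast
    change _ = ((‖c‖ : ℂ)) ^ 2 + (⟪c, γ⟫_ℂ - ((‖c‖ : ℂ)) ^ 2)
    ring
  have h1 : ‖⟪c, γ - c⟫_ℂ‖ ≤ ‖c‖ * (c₀ / 2) := by
    refine (norm_inner_le_norm _ _).trans ?_
    have := norm_nonneg c
    apply mul_le_mul_of_nonneg_left _ this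
    linarith
  have h2 : ‖((‖c‖ ^ 2 : ℝ) : ℂ)‖ - ‖⟪c, γ - c⟫_ℂ‖ ≤ ‖⟪c, γ⟫_ℂ‖ := by
    rw [e1]
    have := norm_sub_norm_le (((‖c‖ ^ 2 : ℝ) : ℂ)) (-⟪c, γ - c⟫_ℂ)
    rw [norm_neg, sub_neg_eq_add] at this
    exact this
  rw [Complex.norm_real, Real.norm_of_nonneg (sq_nonneg _)] at h2
  have h3 : ‖c‖ * c₀ ≤ ‖c‖ ^ 2 := by nlinarith [norm_nonneg c]
  linarith

theorem pre_large {q : E → ℂ} {F m : Fin (N + 1) → E → ℂ} {D : Set E} {C V M c₀ ρ : ℝ}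
    {c : EuclideanSpace ℂ (Fin N)} (hM : 0 ≤ M) (hV : 0 ≤ V)
    (hc : c₀ < ‖c‖) (hc0 : 0 < c₀) (hρ0 : 0 < ρ) (hρ : ρ ≤ c₀ / 8)
    (hF : ∀ j, DifferentiableOn ℂ (F j) D) (huM : ∀ x ∈ D, ‖uu F x‖ ≤ M)
    (h1 : ∀ j, DifferentiableOn ℂ (m j) D) (h2 : ∀ j, ∀ x ∈ D, ‖m j x‖ ≤ C)
    (h3 : ∀ x ∈ D, ∑ j, F j x * m j x = 1)
    (v0 : C ≤ V) (v1 : 2 / c₀ ≤ V) (v2 : 2 * M / c₀ ≤ V) (v3 : 4 / c₀ ^ 2 ≤ V)
    (v4 : 4 * M / c₀ ^ 2 ≤ V) :
    Pre (fj q F) (uu F) ρ V c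
      (fun o x => ev 0 0 (fun j => (starRingEnd ℂ) (c j) / ⟪c, uu F x⟫_ℂ) o) D
      (fun γ x => ⟪c, uu F x⟫_ℂ / ⟪c, γ⟫_ℂ)
      (fun γ _ => ev 0 0 (fun j => (starRingEnd ℂ) (c j) / ⟪c, γ⟫_ℂ)) (mj m) := by
  obtain ⟨g1, g2, g3⟩ := mj_facts (q := q) (F := F) (m := m) (D := D) (C := C) hV v0 h1 h2 h3
  have hcp : 0 < ‖c‖ := hc0.trans hc
  have hlow : ∀ γ : EuclideanSpace ℂ (Fin N), ‖γ - c‖ < 4 * ρ → ‖c‖ * (c₀ / 2) ≤ ‖⟪c, γ⟫_ℂ‖ :=
    fun γ hγ => inner_lower hc hc0 (by linarith) hγ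
  have hlow0 : ∀ γ : EuclideanSpace ℂ (Fin N), ‖γ - c‖ < 4 * ρ → ⟪c, γ⟫_ℂ ≠ 0 := by
    intro γ hγ h0
    have := hlow γ hγ
    rw [h0, norm_zero] at this
    have : 0 < ‖c‖ * (c₀ / 2) := by positivity
    linarith
  have hinv : ∀ γ : EuclideanSpace ℂ (Fin N), ‖γ - c‖ < 4 * ρ →
      ‖(⟪c, γ⟫_ℂ)⁻¹‖ ≤ (‖c‖ * (c₀ / 2))⁻¹ := by
    intro γ hγ
    rw [norm_inv]
    exact inv_anti₀ (by positivity) (hlow γ hγ)
  have hcj : ∀ j, ‖(starRingEnd ℂ) (c j)‖ ≤ ‖c‖ := fun j => by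
    rw [RCLike.norm_conj]; exact PiLp.norm_apply_le c j
  have hcomp : ∀ γ : EuclideanSpace ℂ (Fin N), ‖γ - c‖ < 4 * ρ → ∀ j,
      ‖(starRingEnd ℂ) (c j) / ⟪c, γ⟫_ℂ‖ ≤ V := by
    intro γ hγ j
    rw [div_eq_mul_inv, norm_mul]
    calc _ ≤ ‖c‖ * (‖c‖ * (c₀ / 2))⁻¹ :=
          mul_le_mul (hcj j) (hinv γ hγ) (norm_nonneg _) (norm_nonneg _)
      _ = 2 / c₀ := by field_simp
      _ ≤ V := v1
  have hud : DifferentiableOn ℂ (uu F) D := by
    have h1 : DifferentiableOn ℂ (fun z => (fun i : Fin N => F i.succ z)) D :=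
      differentiableOn_pi.mpr fun i => hF i.succ
    exact (PiLp.continuousLinearEquiv 2 ℂ (fun _ : Fin N => ℂ)).symm.differentiable.comp_differentiableOn
      h1
  have hiu : DifferentiableOn ℂ (fun x => ⟪c, uu F x⟫_ℂ) D :=
    (innerSL ℂ c).differentiable.comp_differentiableOn hud
  have hdinv : ∀ γ γ' : EuclideanSpace ℂ (Fin N), ‖γ - c‖ < ρ → ‖γ' - c‖ < ρ →
      ‖(⟪c, γ⟫_ℂ)⁻¹ - (⟪c, γ'⟫_ℂ)⁻¹‖ ≤
        (‖c‖ * (c₀ / 2))⁻¹ * (‖c‖ * (c₀ / 2))⁻¹ * (‖c‖ * ‖γ - γ'‖) := by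
    intro γ γ' hγ hγ'
    have h4 : ‖γ - c‖ < 4 * ρ := by linarith
    have h4' : ‖γ' - c‖ < 4 * ρ := by linarith
    have e1 : (⟪c, γ⟫_ℂ)⁻¹ - (⟪c, γ'⟫_ℂ)⁻¹ = -((⟪c, γ⟫_ℂ)⁻¹ * (⟪c, γ'⟫_ℂ)⁻¹ * ⟪c, γ - γ'⟫_ℂ) := by
      rw [inner_sub_right]
      have := hlow0 γ h4
      have := hlow0 γ' h4'
      field_simp
      ring
    rw [e1, norm_neg, norm_mul, norm_mul]
    have h5 := hinv γ h4
    have h6 := hinv γ' h4'
    have h7 := norm_inner_le_norm c (γ - γ') (𝕜 := ℂ)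
    gcongr
  refine ⟨g1, g2, g3, ?_, ?_, ?_, ?_, ?_, ?_, ?_, ?_, ?_, ?_⟩
  · intro γ _
    simp only [div_eq_mul_inv]
    exact hiu.mul_const _
  · intro γ _ o
    exact differentiableOn_const _
  · intro γ hγ x hx
    rw [div_eq_mul_inv, norm_mul]
    have h4 := norm_inner_le_norm c (uu F x) (𝕜 := ℂ)
    have h5 := huM x hx
    calc _ ≤ (‖c‖ * M) * (‖c‖ * (c₀ / 2))⁻¹ := by
          apply mul_le_mul _ (hinv γ (by linarith)) (norm_nonneg _) (by positivity)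
          refine h4.trans ?_
          gcongr
      _ = 2 * M / c₀ := by field_simp
      _ ≤ V := v2
  · intro γ hγ x _
    apply ev_norm hV
    · rw [norm_zero]; exact hV
    · rw [norm_zero]; exact hV
    · exact hcomp γ (by linarith)
  · intro γ γ' hγ hγ' x hx
    have e1 : ⟪c, uu F x⟫_ℂ / ⟪c, γ⟫_ℂ - ⟪c, uu F x⟫_ℂ / ⟪c, γ'⟫_ℂ =
        ⟪c, uu F x⟫_ℂ * ((⟪c, γ⟫_ℂ)⁻¹ - (⟪c, γ'⟫_ℂ)⁻¹) := by ring
    rw [e1, norm_mul]
    have h4 := norm_inner_le_norm c (uu F x) (𝕜 := ℂ)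
    have h5 := huM x hx
    calc _ ≤ (‖c‖ * M) * ((‖c‖ * (c₀ / 2))⁻¹ * (‖c‖ * (c₀ / 2))⁻¹ * (‖c‖ * ‖γ - γ'‖)) := by
          apply mul_le_mul _ (hdinv γ γ' hγ hγ') (norm_nonneg _) (by positivity)
          refine h4.trans ?_
          gcongr
      _ = 4 * M / c₀ ^ 2 * ‖γ - γ'‖ := by field_simp; ring
      _ ≤ _ := by gcongr
  · intro γ γ' hγ hγ' x _
    have e1 : ev (N := N) 0 0 (fun j => (starRingEnd ℂ) (c j) / ⟪c, γ⟫_ℂ) -
        ev 0 0 (fun j => (starRingEnd ℂ) (c j) / ⟪c, γ'⟫_ℂ) =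
        ev 0 0 (fun j => (starRingEnd ℂ) (c j) * ((⟪c, γ⟫_ℂ)⁻¹ - (⟪c, γ'⟫_ℂ)⁻¹)) := by
      apply ev_ext
      · simp only [Pi.sub_apply, ev_none, sub_zero]
      · simp only [Pi.sub_apply, ev_zero, sub_zero]
      · intro j; simp only [Pi.sub_apply, ev_succ]; ring
    rw [e1]
    have h7 : 0 ≤ V * ‖γ - γ'‖ := by positivity
    apply ev_norm h7
    · rw [norm_zero]; exact h7
    · rw [norm_zero]; exact h7
    · intro j
      rw [norm_mul]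
      calc _ ≤ ‖c‖ * ((‖c‖ * (c₀ / 2))⁻¹ * (‖c‖ * (c₀ / 2))⁻¹ * (‖c‖ * ‖γ - γ'‖)) :=
            mul_le_mul (hcj j) (hdinv γ γ' hγ hγ') (norm_nonneg _) (norm_nonneg _)
        _ = 4 / c₀ ^ 2 * ‖γ - γ'‖ := by field_simp; ring
        _ ≤ _ := by gcongr
  · intro γ hγ x hx
    have e1 : 1 - ⟪c, uu F x⟫_ℂ / ⟪c, γ⟫_ℂ = -(⟪c, uu F x - γ⟫_ℂ * (⟪c, γ⟫_ℂ)⁻¹) := by
      rw [inner_sub_right]
      have := hlow0 γ (by linarith)
      field_simp
      ring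
    rw [e1, norm_neg, norm_mul]
    have h4 := norm_inner_le_norm c (uu F x - γ) (𝕜 := ℂ)
    calc _ ≤ (‖c‖ * ‖uu F x - γ‖) * (‖c‖ * (c₀ / 2))⁻¹ :=
          mul_le_mul h4 (hinv γ (by linarith)) (norm_nonneg _) (by positivity)
      _ = 2 / c₀ * ‖uu F x - γ‖ := by field_simp
      _ ≤ _ := by gcongr
  · intro γ hγ x _
    rw [dot_fj]
    simp only [ev_none, ev_zero, ev_succ, mul_zero, zero_add]
    have e1 : ⟪c, uu F x⟫_ℂ = ∑ j, (starRingEnd ℂ) (c j) * F j.succ x := by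
      rw [PiLp.inner_apply]
      refine Finset.sum_congr rfl fun j _ => ?_
      rw [RCLike.inner_apply, mul_comm]
      rfl
    rw [e1, Finset.sum_div]
    refine Finset.sum_congr rfl fun j _ => ?_
    ring
  · intro γ hγ x hx hu
    have h4 := hlow0 (uu F x) hu
    have h5 := hlow0 γ (by linarith)
    apply ev_ext
    · simp only [ev_none, Pi.smul_apply, smul_zero]
    · simp only [ev_zero, Pi.smul_apply, smul_zero]
    · intro j
      simp only [ev_succ, Pi.smul_apply, smul_eq_mul]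
      field_simp
  · intro x _ hu
    apply ev_norm hV
    · rw [norm_zero]; exact hV
    · rw [norm_zero]; exact hV
    · exact hcomp _ hu

end Pool.Agent.MPca0fc2.VL
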