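import Mathlib
import Pool.Agent.Lib.MP_ca0fc2_an.Defs
import Pool.Agent.Lib.MP_ca0fc2_an.SLOsc
import Pool.Agent.Lib.MP_ca0fc2_an.VLCells
import Pool.Agent.Lib.MP_ca0fc2_an.VLRef2

set_option autoImplicit false

open Metric Set Filter Topology
open scoped InnerProductSpace

namespace Pool.Agent.MPca0fc2.VL

open Pool.Agent.MPca0fc2.SD
open Pool.Agent.MPca0fc2.SL
open Pool.Agent.Lib.MP_ca0fc2_an

variable {E : Type*} [NormedAddCommGroup E] [InnerProductSpace ℂ E]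

/-- the smallness of the slab oscillation -/
theorem sm_of {ρ ε σ : ℝ} {κ : ℕ} (hρ : 0 < ρ) (hε : 0 < ε)
    (hσ : σ = (1 / 2) ^ κ / (64 * ε ^ 2)) (h : ε ≤ ρ ^ 2 / (4 * 28700 ^ 2)) (q : ℝ) (hq : 0 < q)
    (hq2 : q ≤ 2 * σ) : 28700 * (ε * hx q κ) ≤ ρ / 2 := by
  have hκ := half_pow_pos κ
  have hx0 := hx_pos q κ
  have h4 : hx q κ ^ 4 ≤ 1 / (32 * ε ^ 2) := by
    rw [hx_eq hq, ← Real.rpow_natCast, ← Real.rpow_mul (by positivity)]
    norm_num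
    rw [div_le_iff₀ (by positivity)]
    refine hq2.trans (le_of_eq ?_)
    rw [hσ]
    field_simp
    norm_num
  have h5 : (28700 * (ε * hx q κ)) ^ 4 ≤ (ρ / 2) ^ 4 := by
    have e1 : (28700 * (ε * hx q κ)) ^ 4 = 28700 ^ 4 * ε ^ 4 * hx q κ ^ 4 := by ring
    rw [e1]
    calc (28700 : ℝ) ^ 4 * ε ^ 4 * hx q κ ^ 4 ≤ 28700 ^ 4 * ε ^ 4 * (1 / (32 * ε ^ 2)) := by gcongr
      _ = 28700 ^ 4 * ε ^ 2 / 32 := by field_simp
      _ ≤ 28700 ^ 4 * (ρ ^ 2 / (4 * 28700 ^ 2)) ^ 2 / 32 := by gcongr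
      _ = (ρ / 2) ^ 4 / 32 := by ring
      _ ≤ (ρ / 2) ^ 4 := by
        have : 0 ≤ (ρ / 2) ^ 4 := by positivity
        linarith
  exact le_of_pow_le_pow_left₀ (by norm_num) (by positivity) h5

/-- the slab sizes tend to zero -/
theorem exp_small {e : ℕ → ℝ} (he : Slow e) (hpos : ∀ k, 0 < e k) :
    Tendsto (fun k => (1 / 2 : ℝ) ^ k / (e k) ^ 2) atTop (𝓝 0) := by
  have h1 : ∀ k, e 0 ≤ (11 / 10) ^ k * e k := by
    intro k
    induction k with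
    | zero => simp
    | succ k ih =>
      refine ih.trans ?_
      rw [pow_succ, mul_assoc]
      exact mul_le_mul_of_nonneg_left (he.down k) (by positivity)
  have h2 : ∀ k, (1 / 2 : ℝ) ^ k / (e k) ^ 2 ≤ (121 / 200) ^ k * (1 / (e 0) ^ 2) := by
    intro k
    have h0 := hpos 0
    have hk := hpos k
    rw [mul_one_div, div_le_div_iff₀ (by positivity) (by positivity)]
    have h3 : (e 0) ^ 2 ≤ ((11 / 10) ^ k * e k) ^ 2 := pow_le_pow_left₀ h0.le (h1 k) 2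
    calc (1 / 2 : ℝ) ^ k * e 0 ^ 2 ≤ (1 / 2) ^ k * ((11 / 10) ^ k * e k) ^ 2 := by gcongr
      _ = ((1 / 2) * (11 / 10) ^ 2) ^ k * e k ^ 2 := by
          rw [mul_pow, mul_pow (1 / 2 : ℝ), ← pow_mul, ← pow_mul, mul_comm 2 k]; ring
      _ = _ := by norm_num
  have h3 : Tendsto (fun k : ℕ => (121 / 200 : ℝ) ^ k * (1 / (e 0) ^ 2)) atTop (𝓝 0) := by
    have := (tendsto_pow_atTop_nhds_zero_of_lt_one (r := (121 / 200 : ℝ)) (by norm_num)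
      (by norm_num)).mul_const (1 / (e 0) ^ 2)
    rwa [zero_mul] at this
  exact squeeze_zero (fun k => by have := hpos k; positivity) h2 h3

/-- the geometric data of a block -/
theorem exists_geo (E : Type*) [NormedAddCommGroup E] [InnerProductSpace ℂ E]
    [FiniteDimensional ℂ E] : ∃ Lθ : ℝ, 0 ≤ Lθ ∧ ∀ (σ : ℝ) (κ : ℕ), 0 < σ → σ < 1 →
      8 * (1 / 2) ^ κ ≤ σ → ∃ A : Finset E, (∀ a ∈ A, ‖a‖ = 1) ∧
      (∀ k, κ ≤ k → ∀ w : E, ‖w‖ ≤ 1 → 1 - ‖w‖ ≤ σ → ∑ a ∈ A, th σ A a ((RR k : ℂ) • w) = 1) ∧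
      ∀ k, κ ≤ k → ∀ w z : E, ‖w‖ ≤ 1 → ‖z‖ ≤ 1 → ‖1 - ⟪w, z⟫_ℂ‖ ≤ σ →
        ∑ a ∈ A, |th σ A a ((RR k : ℂ) • w) - th σ A a ((RR k : ℂ) • z)| ≤
          Lθ * √(‖1 - ⟪w, z⟫_ℂ‖ / σ) := by
  obtain ⟨Lθ, h0, hL⟩ := exists_th_lip E
  refine ⟨Lθ, h0, ?_⟩
  intro σ κ hσ hσ1 h8
  obtain ⟨A, hA1, hA2, hA3⟩ := exists_net (E := E) hσ
  have hR : ∀ k, κ ≤ k → RR k ≤ 1 + σ / 128 := by
    intro k hk
    have : (1 / 2 : ℝ) ^ k ≤ (1 / 2) ^ κ := pow_le_pow_of_le_one (by norm_num) (by norm_num) hk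
    unfold RR; linarith
  have hR2 : ∀ k, RR k ≤ 17 / 16 := by
    intro k
    unfold RR; have := half_pow_le_one k; linarith
  refine ⟨A, hA1, ?_, ?_⟩
  · intro k hk w hw hw1
    exact th_sum hσ hσ1 (one_lt_RR k).le (hR2 k) (by have := hR k hk; linarith) hA3 hw hw1
  · intro k hk w z hw hz hwz
    exact hL σ (RR k) hσ (one_lt_RR k).le (hR k hk) (hR2 k) A hA1 hA2 w z hw hz hwz

theorem uu_norm_sq {N : ℕ} (F : Fin (N + 1) → E → ℂ) (z : E) :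
    ‖uu F z‖ ^ 2 = ∑ j : Fin N, ‖F j.succ z‖ ^ 2 := by
  rw [EuclideanSpace.norm_sq_eq]; rfl

theorem uu_norm_le {N : ℕ} {F : Fin (N + 1) → E → ℂ} {z : E} {M : ℝ}
    (h : ∀ j, ‖F j z‖ ≤ M) : ‖uu F z‖ ≤ (N + 1) * (|M| + 1) := by
  apply le_of_sq_le_sq _ (by positivity)
  rw [uu_norm_sq]
  calc ∑ j : Fin N, ‖F j.succ z‖ ^ 2 ≤ ∑ _i : Fin N, (|M| + 1) ^ 2 := by
        apply Finset.sum_le_sum
        intro i _
        apply pow_le_pow_left₀ (norm_nonneg _)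
        exact (h _).trans ((le_abs_self M).trans (by linarith))
    _ = N * (|M| + 1) ^ 2 := by
        rw [Finset.sum_const, Finset.card_univ, Fintype.card_fin, nsmul_eq_mul]
    _ ≤ (N + 1) ^ 2 * (|M| + 1) ^ 2 := by
        apply mul_le_mul_of_nonneg_right _ (by positivity)
        have : (0 : ℝ) ≤ N := Nat.cast_nonneg _
        nlinarith
    _ = _ := by ring

theorem uu_diff {N : ℕ} {F : Fin (N + 1) → E → ℂ} {D : Set E}
    (hF : ∀ j, DifferentiableOn ℂ (F j) D) : DifferentiableOn ℂ (uu F) D := by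
  have h1 : DifferentiableOn ℂ (fun z => (fun i : Fin N => F i.succ z)) D :=
    differentiableOn_pi.mpr fun i => hF i.succ
  exact (PiLp.continuousLinearEquiv 2 ℂ (fun _ : Fin N => ℂ)).symm.differentiable.comp_differentiableOn
    h1

/-- the solutions on the level cells -/
noncomputable def sl {N n : ℕ} (F : Fin (N + 1) → E → ℂ) (c₀ : ℝ)
    (c : Fin n → EuclideanSpace ℂ (Fin N)) (i : Fin n) : Option (Fin (N + 1)) → E → ℂ :=
  if ‖c i‖ ≤ c₀ then fun o x => ev 0 (F 0 x)⁻¹ (fun _ => 0) o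
  else fun o x => ev 0 0 (fun j => (starRingEnd ℂ) (c i j) / ⟪c i, uu F x⟫_ℂ) o

/-- the constants of the level cells -/
theorem exists_V (N : ℕ) (M C c₀ δ : ℝ) (hM : 0 ≤ M) (hC : 0 ≤ C) (hc₀ : 0 < c₀) (hδ : 0 < δ) :
    ∃ V : ℝ, 0 ≤ V ∧ 2 * C ≤ V ∧ 2 * M * C ≤ V ∧ 2 * (N + 1) * C ≤ V ∧ 4 * (N + 1) * C * C ≤ V ∧
      4 * (N + 1) * M * C * C ≤ V ∧ 2 / c₀ ≤ V ∧ 2 * M / c₀ ≤ V ∧ 4 / c₀ ^ 2 ≤ V ∧
      4 * M / c₀ ^ 2 ≤ V ∧ 2 / √δ ≤ V := by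
  have hN : (0 : ℝ) ≤ N := Nat.cast_nonneg _
  have h1 : 0 ≤ 2 * C := by positivity
  have h2 : 0 ≤ 2 * M * C := by positivity
  have h3 : 0 ≤ 2 * (N + 1) * C := by positivity
  have h4 : 0 ≤ 4 * (N + 1) * C * C := by positivity
  have h5 : 0 ≤ 4 * (N + 1) * M * C * C := by positivity
  have h6 : 0 ≤ 2 / c₀ := by positivity
  have h7 : 0 ≤ 2 * M / c₀ := by positivity
  have h8 : 0 ≤ 4 / c₀ ^ 2 := by positivity
  have h9 : 0 ≤ 4 * M / c₀ ^ 2 := by positivity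
  have h10 : 0 ≤ 2 / √δ := by positivity
  refine ⟨2 * C + 2 * M * C + 2 * (N + 1) * C + 4 * (N + 1) * C * C + 4 * (N + 1) * M * C * C +
    2 / c₀ + 2 * M / c₀ + 4 / c₀ ^ 2 + 4 * M / c₀ ^ 2 + 2 / √δ, ?_, ?_, ?_, ?_, ?_, ?_, ?_, ?_,
    ?_, ?_, ?_⟩ <;> linarith

/-- the lower bound of the first datum where the others are small -/
theorem F0_lower {N : ℕ} {F : Fin (N + 1) → E → ℂ} {x : E} {δ c₀ ρ : ℝ}
    {c : EuclideanSpace ℂ (Fin N)} (hδ : 0 < δ) (hc₀ : 0 < c₀) (hc₀δ : c₀ ^ 2 ≤ δ / 9)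
    (hc : ‖c‖ ≤ c₀) (hρ : ρ ≤ c₀ / 8) (hx : δ ≤ ∑ j, ‖F j x‖ ^ 2) (hu : ‖uu F x - c‖ < 4 * ρ) :
    F 0 x ≠ 0 ∧ ‖(F 0 x)⁻¹‖ ≤ 2 / √δ := by
  have h1 : ‖uu F x‖ ≤ 3 / 2 * c₀ := by
    have : ‖uu F x‖ ≤ ‖uu F x - c‖ + ‖c‖ := by
      calc ‖uu F x‖ = ‖(uu F x - c) + c‖ := by congr 1; abel
        _ ≤ _ := norm_add_le _ _
    linarith
  have h2 : ‖uu F x‖ ^ 2 ≤ (3 / 2 * c₀) ^ 2 := pow_le_pow_left₀ (norm_nonneg _) h1 2
  have h3 : ‖F 0 x‖ ^ 2 + ‖uu F x‖ ^ 2 = ∑ j, ‖F j x‖ ^ 2 := by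
    rw [uu_norm_sq, Fin.sum_univ_succ]
  have h4 : (√δ / 2) ^ 2 ≤ ‖F 0 x‖ ^ 2 := by
    rw [div_pow, Real.sq_sqrt hδ.le]
    nlinarith
  have hs : 0 < √δ := Real.sqrt_pos.mpr hδ
  have h5 : √δ / 2 ≤ ‖F 0 x‖ := le_of_pow_le_pow_left₀ (by norm_num) (norm_nonneg _) h4
  have h6 : 0 < ‖F 0 x‖ := lt_of_lt_of_le (by positivity) h5
  refine ⟨norm_pos_iff.mp h6, ?_⟩
  rw [norm_inv, inv_le_comm₀ h6 (by positivity), inv_div]
  exact h5

/-- the level structure -/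
theorem lev_of {N n : ℕ} {F : Fin (N + 1) → E → ℂ} {q : E → ℂ} {M M' δ c₀ ρ V B Lc : ℝ}
    {c : Fin n → EuclideanSpace ℂ (Fin N)} {χ : Fin n → EuclideanSpace ℂ (Fin N) → ℝ}
    (hδ : 0 < δ) (hc₀ : 0 < c₀) (hc₀δ : c₀ ^ 2 ≤ δ / 9) (hρ0 : 0 < ρ) (hρ : ρ ≤ c₀ / 8)
    (hM' : M' = (N + 1) * (|M| + 1) + 2) (hρM : ρ ≤ M') (hV : 0 ≤ V) (hV1 : 2 / c₀ ≤ V)
    (hV2 : 2 / √δ ≤ V) (hVB : V ≤ B) (hLc : 0 ≤ Lc) (hχ0 : ∀ i β, 0 ≤ χ i β)
    (hχ1 : ∀ β, ‖β‖ ≤ M' + ρ → ∑ i, χ i β = 1) (hχl : ∀ i β β', |χ i β - χ i β'| ≤ Lc * ‖β - β'‖)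
    (hχs : ∀ i β, χ i β ≠ 0 → ‖β - c i‖ < ρ / 2)
    (hF : ∀ j, DifferentiableOn ℂ (F j) (ball 0 1)) (hFM : ∀ j, ∀ z ∈ ball (0 : E) 1, ‖F j z‖ ≤ M)
    (hFδ : ∀ z ∈ ball (0 : E) 1, δ ≤ ∑ j, ‖F j z‖ ^ 2)
    (hq : DifferentiableOn ℂ q (ball 0 1)) (hq2 : ∀ z ∈ ball (0 : E) 1, ‖q z‖ ≤ 2) :
    Lev (fj q F) (uu F) ρ M' B Lc (M' + ρ) χ c (sl F c₀ c) := by
  have hn : (0 : ℝ) ≤ N := Nat.cast_nonneg _
  have hMM : |M| ≤ M' := by
    rw [hM']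
    nlinarith [abs_nonneg M]
  have h2M : 2 ≤ M' := by
    rw [hM']
    have : 0 ≤ ((N : ℝ) + 1) * (|M| + 1) := by positivity
    linarith
  refine ⟨?_, ?_, uu_diff hF, ?_, hρ0, hρM, hV.trans hVB, hLc, by linarith, hχ0, hχ1, hχl, hχs,
    ?_, ?_, ?_⟩
  · intro o
    cases o with
    | none => exact hq
    | some j => exact hF j
  · intro o z hz
    cases o with
    | none => exact (hq2 z hz).trans h2M
    | some j => exact (hFM j z hz).trans ((le_abs_self M).trans hMM)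
  · intro z hz
    refine (uu_norm_le fun j => hFM j z hz).trans ?_
    rw [hM']; linarith
  · intro i o
    unfold sl
    split_ifs with hi
    · cases o with
      | none => exact differentiableOn_const _
      | some j =>
        refine Fin.cases ?_ (fun j => ?_) j
        · simp only [ev_zero]
          exact ((hF 0).mono fun x hx => hx.1).inv fun x hx =>
            (F0_lower hδ hc₀ hc₀δ hi hρ (hFδ x hx.1) hx.2).1
        · simp only [ev_succ]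
          exact differentiableOn_const _
    · cases o with
      | none => exact differentiableOn_const _
      | some j =>
        refine Fin.cases ?_ (fun j => ?_) j
        · simp only [ev_zero]
          exact differentiableOn_const _
        · simp only [ev_succ, div_eq_mul_inv]
          apply DifferentiableOn.const_mul
          apply DifferentiableOn.inv
          · exact (innerSL ℂ (c i)).differentiable.comp_differentiableOn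
              ((uu_diff hF).mono fun x hx => hx.1)
          · intro x hx h0
            have h1 := inner_lower (not_le.mp hi) hc₀ (r := 4 * ρ) (by linarith) hx.2
            rw [h0, norm_zero] at h1
            have : 0 < ‖c i‖ * (c₀ / 2) := by
              have := hc₀.trans (not_le.mp hi)
              positivity
            linarith
  · intro i o x hx hu
    refine le_trans ?_ hVB
    unfold sl
    split_ifs with hi
    · refine (norm_le_pi_norm (ev 0 (F 0 x)⁻¹ fun _ => 0) o).trans ?_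
      apply ev_norm hV
      · rw [norm_zero]; exact hV
      · exact (F0_lower hδ hc₀ hc₀δ hi hρ (hFδ x hx) hu).2.trans hV2
      · intro j; rw [norm_zero]; exact hV
    · refine (norm_le_pi_norm (ev 0 0 fun j => (starRingEnd ℂ) (c i j) / ⟪c i, uu F x⟫_ℂ)
        o).trans ?_
      apply ev_norm hV
      · rw [norm_zero]; exact hV
      · rw [norm_zero]; exact hV
      · intro j
        have h1 := inner_lower (not_le.mp hi) hc₀ (r := 4 * ρ) (by linarith) hu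
        have hcp := hc₀.trans (not_le.mp hi)
        have h2 : 0 < ‖⟪c i, uu F x⟫_ℂ‖ := lt_of_lt_of_le (by positivity) h1
        rw [norm_div, RCLike.norm_conj, div_le_iff₀ h2]
        calc ‖c i j‖ ≤ ‖c i‖ := PiLp.norm_apply_le (c i) j
          _ = 2 / c₀ * (‖c i‖ * (c₀ / 2)) := by field_simp
          _ ≤ V * ‖⟪c i, uu F x⟫_ℂ‖ := by gcongr
  · intro i x hx hu
    have hd : ∑ j, fj q F j x * sl F c₀ c i j x =
        dot (fun o => fj q F o x) (fun o => sl F c₀ c i o x) := rfl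
    rw [hd, dot_fj]
    unfold sl
    split_ifs with hi
    · simp only [ev_none, ev_zero, ev_succ, mul_zero, Finset.sum_const_zero, zero_add, add_zero]
      exact mul_inv_cancel₀ (F0_lower hδ hc₀ hc₀δ hi hρ (hFδ x hx) hu).1
    · simp only [ev_none, ev_zero, ev_succ, mul_zero, zero_add]
      have h1 := inner_lower (not_le.mp hi) hc₀ (r := 4 * ρ) (by linarith) hu
      have hcp := hc₀.trans (not_le.mp hi)
      have h2 : 0 < ‖⟪c i, uu F x⟫_ℂ‖ := lt_of_lt_of_le (by positivity) h1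
      have e1 : ⟪c i, uu F x⟫_ℂ = ∑ j, (starRingEnd ℂ) (c i j) * F j.succ x := by
        rw [PiLp.inner_apply]
        refine Finset.sum_congr rfl fun j _ => ?_
        rw [RCLike.inner_apply, mul_comm]
        rfl
      have e2 : ∀ j : Fin N, F j.succ x * ((starRingEnd ℂ) (c i j) / ⟪c i, uu F x⟫_ℂ) =
          ((starRingEnd ℂ) (c i j) * F j.succ x) / ⟪c i, uu F x⟫_ℂ := fun j => by ring
      simp only [e2]
      rw [← Finset.sum_div, ← e1, div_self (norm_pos_iff.mp h2)]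

/-- the solutions with contact on the tents -/
theorem cells_of {N n : ℕ} {F : Fin (N + 1) → E → ℂ} {q : E → ℂ} {M M' C δ c₀ ρ V B L : ℝ}
    {c : Fin n → EuclideanSpace ℂ (Fin N)}
    (hδ : 0 < δ) (hc₀ : 0 < c₀) (hc₀δ : c₀ ^ 2 ≤ δ / 9) (hρ0 : 0 < ρ) (hρ : ρ ≤ c₀ / 8)
    (hM' : M' = (N + 1) * (|M| + 1) + 2) (hC : 0 ≤ C) (hcC : 4 * (N + 1) * C * c₀ ≤ 1)
    (hV : 0 ≤ V) (v1 : 2 * C ≤ V) (v2 : 2 * M' * C ≤ V) (v3 : 2 * (N + 1) * C ≤ V)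
    (v4 : 4 * (N + 1) * C * C ≤ V) (v5 : 4 * (N + 1) * M' * C * C ≤ V) (v6 : 2 / c₀ ≤ V)
    (v7 : 2 * M' / c₀ ≤ V) (v8 : 4 / c₀ ^ 2 ≤ V) (v9 : 4 * M' / c₀ ^ 2 ≤ V) (v10 : 2 / √δ ≤ V)
    (hB : (2 + V) * V + (1 + V) ^ 2 * V ≤ B)
    (hL : (2 + V) * V + V * V + (2 + 2 * V) * V * V + 2 * V * V ^ 2 ≤ L)
    {D : Set E} (hD : D ⊆ ball 0 1)
    (hF : ∀ j, DifferentiableOn ℂ (F j) (ball 0 1)) (hFM : ∀ j, ∀ z ∈ ball (0 : E) 1, ‖F j z‖ ≤ M)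
    (hFδ : ∀ z ∈ ball (0 : E) 1, δ ≤ ∑ j, ‖F j z‖ ^ 2) (hsol : SolvableOn F D C) :
    ∃ Nf : Fin n → EuclideanSpace ℂ (Fin N) → E → Option (Fin (N + 1)) → ℂ,
      Cn (fj q F) (uu F) ρ B L c (sl F c₀ c) D Nf := by
  classical
  obtain ⟨m, m1, m2, m3⟩ := hsol
  have hn : (0 : ℝ) ≤ N := Nat.cast_nonneg _
  have hMM : |M| ≤ M' := by
    rw [hM']
    nlinarith [abs_nonneg M]
  have hM'0 : 0 ≤ M' := (abs_nonneg M).trans hMM
  have hFD : ∀ j, DifferentiableOn ℂ (F j) D := fun j => (hF j).mono hD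
  refine ⟨NX ρ c D
    (fun i γ x => if ‖c i‖ ≤ c₀ then F 0 x * m 0 x / den m γ x else ⟪c i, uu F x⟫_ℂ / ⟪c i, γ⟫_ℂ)
    (fun i γ x => if ‖c i‖ ≤ c₀ then ev 0 (m 0 x / den m γ x) (fun _ => 0) else
      ev 0 0 (fun j => (starRingEnd ℂ) (c i j) / ⟪c i, γ⟫_ℂ)) (mj m), ?_⟩
  apply Cn.of_pre hV _ hB hL
  intro i
  by_cases hi : ‖c i‖ ≤ c₀
  · simp only [if_pos hi, sl]
    exact pre_small hC hM'0 hV hi hρ hcC hFD
      (fun x hx => (hFM 0 x (hD hx)).trans ((le_abs_self M).trans hMM)) m1 m2 m3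
      (fun x hx hu => by
        obtain ⟨h1, h2⟩ := F0_lower hδ hc₀ hc₀δ hi hρ (hFδ x (hD hx)) hu
        exact ⟨h1, h2.trans v10⟩) v1 v2 v3 v4 v5
  · simp only [if_neg hi, sl]
    exact pre_large hM'0 hV (not_le.mp hi) hc₀ hρ0 hρ hFD
      (fun x hx => (uu_norm_le fun j => hFM j x (hD hx)).trans (by rw [hM']; linarith)) m1 m2 m3
      (by linarith) v6 v7 v8 v9

end Pool.Agent.MPca0fc2.VL
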