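import Mathlib
import Pool.Agent.Lib.MP_ca0fc2_an.SLFlow

set_option autoImplicit false

open Metric Set Filter Topology
open scoped InnerProductSpace

namespace Pool.Agent.MPca0fc2.VL

open Pool.Agent.MPca0fc2.SD
open Pool.Agent.MPca0fc2.SL

variable {E : Type*} [NormedAddCommGroup E] [InnerProductSpace ℂ E]

/-- the first evaluation point -/
noncomputable def xp (k : ℕ) (w : E) : E := (rr k : ℂ) • (RR k : ℂ) • w

/-- the second evaluation point -/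
noncomputable def xq (k : ℕ) (w : E) : E := (rr (k + 1) : ℂ) • (RR k : ℂ) • w

/-- the points where the frozen functions are evaluated -/
def Nb (c₀ : ℝ) (k : ℕ) (w : E) : Set E := insert (xq k w) (ball (xp k w) (c₀ * (1 - ‖xp k w‖)))

/-- the points `z` where the smoothing is estimated -/
def Ann (k : ℕ) (z : E) : Prop := 1 - (1 / 2) ^ k / 8 ≤ ‖z‖ ∧ ‖z‖ ≤ 1 - (1 / 2) ^ k / 40

/-- the slab around `z` -/
def Slb (s : ℝ) (z : E) : Set E := {w | w ∈ ball (0 : E) 1 ∧ ‖1 - ⟪w, z⟫_ℂ‖ < s}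

/-- the size of the oscillation of the frozen parameters -/
noncomputable def dd (ε : ℝ) (κ k : ℕ) (w z : E) : ℝ :=
  ε * (hx (‖1 - ⟪w, z⟫_ℂ‖ + (1 / 2) ^ k) κ +
    √((‖1 - ⟪w, z⟫_ℂ‖ + (1 / 2) ^ k) / (1 / 2) ^ κ))

/-- Hypotheses on a frozen family `T v z x` (parameters frozen at `v`, base point `z`, evaluated
at `x`) on the scales between `κ` and `κ'`. -/
structure TH (T : E → E → E → ℂ) (κ κ' : ℕ) (s c₀ K ε : ℝ) : Prop where
  own : ∀ k, κ ≤ k → k < κ' → ∀ w ∈ ball (0 : E) 1,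
    DifferentiableOn ℂ (T ((RR k : ℂ) • w) ((RR k : ℂ) • w)) (ball (xp k w) (c₀ * (1 - ‖xp k w‖))) ∧
    ∀ y ∈ Nb c₀ k w, ‖T ((RR k : ℂ) • w) ((RR k : ℂ) • w) y‖ ≤ K
  cont : ∀ k, κ ≤ k → k < κ' →
    ContinuousOn (fun w : E => T ((RR k : ℂ) • w) ((RR k : ℂ) • w) (xp k w)) (ball 0 1) ∧
    ContinuousOn (fun w : E => T ((RR k : ℂ) • w) ((RR k : ℂ) • w) (xq k w)) (ball 0 1)
  fro : ∀ k, κ ≤ k → k < κ' → ∀ z ∈ ball (0 : E) 1, Ann k z →
    DifferentiableOn ℂ (fun w : E => T ((RR k : ℂ) • z) ((RR k : ℂ) • w) (xp k w)) (Slb s z) ∧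
    DifferentiableOn ℂ (fun w : E => T ((RR k : ℂ) • z) ((RR k : ℂ) • w) (xq k w)) (Slb s z)
  dif : ∀ k, κ ≤ k → k < κ' → ∀ z ∈ ball (0 : E) 1, Ann k z → ∀ w ∈ Slb s z,
    DifferentiableOn ℂ (T ((RR k : ℂ) • z) ((RR k : ℂ) • w)) (ball (xp k w) (c₀ * (1 - ‖xp k w‖))) ∧
    ∀ y ∈ Nb c₀ k w, ‖T ((RR k : ℂ) • w) ((RR k : ℂ) • w) y -
      T ((RR k : ℂ) • z) ((RR k : ℂ) • w) y‖ ≤ K * dd ε κ k w z

theorem xp_ball {k : ℕ} {w : E} (hw : w ∈ ball (0 : E) 1) : xp k w ∈ ball (0 : E) 1 :=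
  FC.mem_ball k k (by omega) (RR_smul_le hw)

theorem xq_ball {k : ℕ} {w : E} (hw : w ∈ ball (0 : E) 1) : xq k w ∈ ball (0 : E) 1 :=
  FC.mem_ball k (k + 1) le_rfl (RR_smul_le hw)

theorem xp_dist {k : ℕ} {w : E} (hw : w ∈ ball (0 : E) 1) :
    ‖xq k w - xp k w‖ / (1 - ‖xp k w‖) ≤ 1.1 * ((1 / 2) ^ k / (1 - ‖w‖ ^ 2)) :=
  (consec (mem_ball_zero_iff.mp hw)).2.2

theorem xp_pos {k : ℕ} {w : E} (hw : w ∈ ball (0 : E) 1) : 0 < 1 - ‖xp k w‖ := by
  have := mem_ball_zero_iff.mp (xp_ball (k := k) hw)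
  linarith

theorem xp_mem_Nb {c₀ : ℝ} (hc : 0 < c₀) {k : ℕ} {w : E} (hw : w ∈ ball (0 : E) 1) :
    xp k w ∈ Nb c₀ k w :=
  Or.inr (mem_ball_self (mul_pos hc (xp_pos hw)))

theorem xq_mem_Nb {c₀ : ℝ} {k : ℕ} {w : E} : xq k w ∈ Nb c₀ k w := Or.inl rfl

/-- the increment of a function that is bounded near the first point -/
theorem incr {c₀ C : ℝ} (hc : 0 < c₀) (hC : 0 ≤ C) {k : ℕ} {w : E} (hw : w ∈ ball (0 : E) 1)
    {G : E → ℂ} (hG : DifferentiableOn ℂ G (ball (xp k w) (c₀ * (1 - ‖xp k w‖))))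
    (hb : ∀ y ∈ Nb c₀ k w, ‖G y‖ ≤ C) :
    (1 - ‖w‖ ^ 2) * ‖G (xq k w) - G (xp k w)‖ ≤ 2.2 * C / c₀ * (1 / 2) ^ k := by
  have hx := xp_pos (k := k) hw
  have hw1 : 0 < 1 - ‖w‖ ^ 2 := by
    have := mem_ball_zero_iff.mp hw
    nlinarith [norm_nonneg w]
  have h1 := schwarz_diff (x := xp k w) (y := xq k w) (mul_pos hc hx) hC hG
    (fun y hy => hb y (Or.inr hy)) (hb _ (Or.inl rfl))
  have h2 := xp_dist (k := k) hw
  calc (1 - ‖w‖ ^ 2) * ‖G (xq k w) - G (xp k w)‖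
      ≤ (1 - ‖w‖ ^ 2) * (2 * C / (c₀ * (1 - ‖xp k w‖)) * ‖xq k w - xp k w‖) := by gcongr
    _ = (1 - ‖w‖ ^ 2) * (2 * C / c₀) * (‖xq k w - xp k w‖ / (1 - ‖xp k w‖)) := by
        field_simp
    _ ≤ (1 - ‖w‖ ^ 2) * (2 * C / c₀) * (1.1 * ((1 / 2) ^ k / (1 - ‖w‖ ^ 2))) := by gcongr
    _ = _ := by field_simp; ring

theorem dd_nonneg {ε : ℝ} (hε : 0 ≤ ε) (κ k : ℕ) (w z : E) : 0 ≤ dd ε κ k w z := by
  unfold dd
  have := (hx_pos (‖1 - ⟪w, z⟫_ℂ‖ + (1 / 2) ^ k) κ).le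
  positivity

/-- the oscillation against the weight of the kernel estimate -/
theorem dd_le {ε : ℝ} (hε : 0 ≤ ε) {κ i : ℕ} (w z : E) :
    dd ε κ (κ + i) w z * (1 / 2) ^ (κ + i) ≤ 2 * ε * (17 / 20) ^ i *
      √((1 / 2) ^ (κ + i) * (‖1 - ⟪w, z⟫_ℂ‖ + (1 / 2) ^ (κ + i))) := by
  set t : ℝ := (1 / 2) ^ (κ + i) with ht
  have ht0 : 0 < t := half_pow_pos _
  set q := ‖1 - ⟪w, z⟫_ℂ‖ + t with hq
  have hqt : t ≤ q := by rw [hq]; linarith [norm_nonneg (1 - ⟪w, z⟫_ℂ)]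
  have hq0 : 0 < q := ht0.trans_le hqt
  have hτ : (1 / 2 : ℝ) ^ κ = 2 ^ i * t := by
    rw [ht, pow_add, mul_left_comm, ← mul_pow]; norm_num
  have e1 : q / (1 / 2) ^ κ = (q / t) * (1 / 2) ^ i := by
    rw [hτ, one_div_pow]; field_simp
  have hr : 1 ≤ q / t := by rw [le_div_iff₀ ht0]; linarith
  have hh : ((1 : ℝ) / 2) ^ (1 / 4 : ℝ) ≤ 17 / 20 := by
    have h2 : (17 / 20 : ℝ) = ((17 / 20 : ℝ) ^ (4 : ℝ)) ^ (1 / 4 : ℝ) := by
      rw [← Real.rpow_mul (by norm_num)]; norm_num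
    rw [h2]
    apply Real.rpow_le_rpow (by norm_num) _ (by norm_num)
    rw [show (4 : ℝ) = ((4 : ℕ) : ℝ) by norm_num, Real.rpow_natCast]
    norm_num
  have h1 : hx q κ ≤ √(q / t) * (17 / 20) ^ i := by
    rw [hx_eq hq0, e1, Real.mul_rpow (by positivity) (by positivity)]
    have g1 : (q / t) ^ (1 / 4 : ℝ) ≤ √(q / t) := by
      rw [Real.sqrt_eq_rpow]
      exact Real.rpow_le_rpow_of_exponent_le hr (by norm_num)
    have g2 : (((1 : ℝ) / 2) ^ i) ^ (1 / 4 : ℝ) ≤ (17 / 20) ^ i := by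
      rw [← Real.rpow_natCast, ← Real.rpow_mul (by norm_num), mul_comm, Real.rpow_mul (by norm_num),
        Real.rpow_natCast]
      exact pow_le_pow_left₀ (by positivity) hh i
    exact mul_le_mul g1 g2 (by positivity) (Real.sqrt_nonneg _)
  have h2 : √(q / (1 / 2) ^ κ) ≤ √(q / t) * (17 / 20) ^ i := by
    rw [e1, Real.sqrt_mul (by positivity)]
    apply mul_le_mul_of_nonneg_left _ (Real.sqrt_nonneg _)
    rw [Real.sqrt_le_left (by positivity), ← pow_mul, mul_comm, pow_mul]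
    exact pow_le_pow_left₀ (by norm_num) (by norm_num) i
  have h3 : √(q / t) * t = √(t * q) := by
    rw [Real.sqrt_div hq0.le, Real.sqrt_mul ht0.le]
    have h6 : √t * √t = t := Real.mul_self_sqrt ht0.le
    have h7 : 0 < √t := Real.sqrt_pos.mpr ht0
    rw [div_mul_eq_mul_div, div_eq_iff h7.ne', mul_comm (√t) (√q), mul_assoc, h6]
  unfold dd
  rw [← ht, ← hq]
  calc ε * (hx q κ + √(q / (1 / 2) ^ κ)) * t
      ≤ ε * (√(q / t) * (17 / 20) ^ i + √(q / t) * (17 / 20) ^ i) * t := by gcongr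
    _ = 2 * ε * (17 / 20) ^ i * (√(q / t) * t) := by ring
    _ = _ := by rw [h3]

theorem sqrt_ratio {κ i : ℕ} {s ε : ℝ} (hs : 0 < s) (hsε : √((1 / 2) ^ κ / s) ≤ ε) :
    1 / √(s / (1 / 2) ^ (κ + i)) ≤ ε * (17 / 20) ^ i := by
  have e1 : s / (1 / 2 : ℝ) ^ (κ + i) = ((1 / 2) ^ κ / s * (1 / 2) ^ i)⁻¹ := by
    rw [pow_add]; field_simp
  rw [e1, Real.sqrt_inv, one_div, inv_inv, Real.sqrt_mul (by positivity)]
  apply mul_le_mul hsε _ (Real.sqrt_nonneg _) ((Real.sqrt_nonneg _).trans hsε)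
  rw [Real.sqrt_le_left (by positivity), ← pow_mul, mul_comm, pow_mul]
  exact pow_le_pow_left₀ (by norm_num) (by norm_num) i

theorem ann_of {k : ℕ} {z : E} (h1 : 1 ≤ ‖z‖) (h2 : ‖z‖ < RR (k + 1)) :
    Ann k ((RR k : ℂ)⁻¹ • z) := annulus h1 h2

/-- one scale -/
theorem one_scale {P : (E → ℂ) → E → ℂ} {CK : ℝ} (hker : Ker P CK) {T : E → E → E → ℂ}
    {κ κ' : ℕ} {s c₀ K ε : ℝ} (h : TH T κ κ' s c₀ K ε) (hc : 0 < c₀) (hK : 0 ≤ K) (hε : 0 ≤ ε)
    (hs8 : 8 * (1 / 2) ^ κ ≤ s) (hsε : √((1 / 2) ^ κ / s) ≤ ε) {i : ℕ} (hi : κ + i < κ') :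
    ∃ G : E → ℂ, DifferentiableOn ℂ G (ball 0 (RR (κ + i))) ∧
      ∀ z : E, 1 ≤ ‖z‖ → ‖z‖ < RR (κ + i + 1) →
      ‖G z - (T z z ((rr (κ + i + 1) : ℂ) • z) - T z z ((rr (κ + i) : ℂ) • z))‖ ≤
        CK * (7 * K / c₀ * ε * (17 / 20) ^ i) := by
  set k := κ + i with hk
  have hκk : κ ≤ k := by omega
  set t : ℝ := (1 / 2) ^ k with ht
  have ht0 : 0 < t := half_pow_pos k
  have ht1 : t ≤ 1 := half_pow_le_one k
  have hs0 : 0 < s := lt_of_lt_of_le (by positivity) hs8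
  set X := s / t with hX
  have hX8 : 8 ≤ X := by
    rw [hX, le_div_iff₀ ht0]
    have : t ≤ (1 / 2) ^ κ := pow_le_pow_of_le_one (by norm_num) (by norm_num) hκk
    linarith
  have htX : t * X = s := by rw [hX]; field_simp
  set F : E → ℂ := fun w => T ((RR k : ℂ) • w) ((RR k : ℂ) • w) (xq k w) -
    T ((RR k : ℂ) • w) ((RR k : ℂ) • w) (xp k w) with hF
  have hFc : ContinuousOn F (ball (0 : E) 1) := (h.cont k hκk hi).2.sub (h.cont k hκk hi).1
  have hFb : ∀ w ∈ ball (0 : E) 1, ‖F w‖ ≤ 2 * K := by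
    intro w hw
    have h1 := (h.own k hκk hi w hw).2
    refine (norm_sub_le _ _).trans ?_
    linarith [h1 _ xq_mem_Nb, h1 _ (xp_mem_Nb hc hw)]
  set G := 2.2 * K / c₀ with hG
  have hG0 : 0 ≤ G := by positivity
  set G' := 2.2 * K / c₀ * (2 * ε * (17 / 20) ^ i) with hG'
  have hG'0 : 0 ≤ G' := by positivity
  refine ⟨fun z => P F ((RR k : ℂ)⁻¹ • z), ?_, ?_⟩
  · apply (hker.k2 F (2 * K) hFc hFb).comp
      (differentiable_id.const_smul ((RR k : ℂ)⁻¹)).differentiableOn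
    intro z hz
    exact RR_inv_mem hz
  · intro z hz1 hz2
    have hann := ann_of hz1 hz2
    set z' := (RR k : ℂ)⁻¹ • z with hz'
    have hzz : (RR k : ℂ) • z' = z := RR_smul_inv z
    have hz'b : z' ∈ ball (0 : E) 1 := by
      rw [mem_ball_zero_iff]
      have := hann.2
      linarith [half_pow_pos k]
    have main := hker.k1 t X z' F (fun w => T ((RR k : ℂ) • z') ((RR k : ℂ) • w) (xq k w) -
      T ((RR k : ℂ) • z') ((RR k : ℂ) • w) (xp k w)) G G' (2 * K + 2 * (K * (ε * (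
        (2 + t) / (1 / 2) ^ κ + 2 + (2 + t) / (1 / 2) ^ κ + 1)))) ht0 ht1 hX8
      hann.1 hann.2 hG0 hG'0 hFc ?_ ?_ ?_ ?_
    · rw [hzz] at main
      have e1 : xq k z' = (rr (k + 1) : ℂ) • z := by rw [xq, hzz]
      have e2 : xp k z' = (rr k : ℂ) • z := by rw [xp, hzz]
      rw [e1, e2] at main
      refine main.trans ?_
      apply mul_le_mul_of_nonneg_left _ hker.pos.le
      have h5 := sqrt_ratio (i := i) hs0 hsε
      rw [← hk, ← ht, ← hX] at h5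
      calc G' + G / √X = 2.2 * K / c₀ * (2 * ε * (17 / 20) ^ i) + 2.2 * K / c₀ * (1 / √X) := by
            rw [hG', hG]; ring
        _ ≤ 2.2 * K / c₀ * (2 * ε * (17 / 20) ^ i) + 2.2 * K / c₀ * (ε * (17 / 20) ^ i) := by
            gcongr
        _ = 6.6 * (K / c₀ * ε * (17 / 20) ^ i) := by ring
        _ ≤ 7 * (K / c₀ * ε * (17 / 20) ^ i) := by gcongr; norm_num
        _ = _ := by ring
    · intro w hw
      exact incr hc hK hw (h.own k hκk hi w hw).1 (h.own k hκk hi w hw).2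
    · rw [htX]
      exact (h.fro k hκk hi z' hz'b hann).2.sub (h.fro k hκk hi z' hz'b hann).1
    · intro w hw hwz
      rw [htX] at hwz
      have h1 := (h.own k hκk hi w hw).2
      have h2 := (h.dif k hκk hi z' hz'b hann w ⟨hw, hwz⟩).2
      have hq : ‖1 - ⟪w, z'⟫_ℂ‖ ≤ 2 := by
        refine (norm_sub_le _ _).trans ?_
        have := norm_inner_le_norm w z' (𝕜 := ℂ)
        rw [norm_one]
        have h3 := mem_ball_zero_iff.mp hw
        have h4 := mem_ball_zero_iff.mp hz'b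
        nlinarith [norm_nonneg w, norm_nonneg z']
      have hd : dd ε κ k w z' ≤ ε * ((2 + t) / (1 / 2) ^ κ + 2 + (2 + t) / (1 / 2) ^ κ + 1) := by
        unfold dd
        apply mul_le_mul_of_nonneg_left _ hε
        have hq0 : 0 < ‖1 - ⟪w, z'⟫_ℂ‖ + (1 / 2) ^ k := by
          have := half_pow_pos k
          positivity
        have g0 : (‖1 - ⟪w, z'⟫_ℂ‖ + (1 / 2) ^ k) / (1 / 2) ^ κ ≤ (2 + t) / (1 / 2) ^ κ := by
          rw [← ht]; gcongr
        have g00 : 0 ≤ (‖1 - ⟪w, z'⟫_ℂ‖ + (1 / 2) ^ k) / (1 / 2) ^ κ := by positivity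
        have g1 : hx (‖1 - ⟪w, z'⟫_ℂ‖ + (1 / 2) ^ k) κ ≤ (2 + t) / (1 / 2) ^ κ + 2 := by
          rw [hx_eq hq0]
          refine le_trans ?_ (add_le_add g0 (show (1 : ℝ) ≤ 2 by norm_num))
          rcases le_total ((‖1 - ⟪w, z'⟫_ℂ‖ + (1 / 2) ^ k) / (1 / 2) ^ κ) 1 with h3 | h3
          · have := Real.rpow_le_one g00 h3 (show (0 : ℝ) ≤ 1 / 4 by norm_num)
            linarith
          · have := Real.rpow_le_rpow_of_exponent_le h3 (show (1 / 4 : ℝ) ≤ 1 by norm_num)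
            rw [Real.rpow_one] at this
            linarith
        have g2 : √((‖1 - ⟪w, z'⟫_ℂ‖ + (1 / 2) ^ k) / (1 / 2) ^ κ) ≤
            (2 + t) / (1 / 2) ^ κ + 1 := by
          rw [Real.sqrt_le_left (by positivity)]
          have h4 : 0 ≤ (2 + t) / (1 / 2) ^ κ := by positivity
          nlinarith
        linarith
      have h3 : ∀ y ∈ Nb c₀ k w, ‖T ((RR k : ℂ) • z') ((RR k : ℂ) • w) y‖ ≤ K + K * (ε * (
          (2 + t) / (1 / 2) ^ κ + 2 + (2 + t) / (1 / 2) ^ κ + 1)) := by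
        intro y hy
        have e1 : T ((RR k : ℂ) • z') ((RR k : ℂ) • w) y = T ((RR k : ℂ) • w) ((RR k : ℂ) • w) y -
            (T ((RR k : ℂ) • w) ((RR k : ℂ) • w) y - T ((RR k : ℂ) • z') ((RR k : ℂ) • w) y) := by
          ring
        rw [e1]
        refine (norm_sub_le _ _).trans (add_le_add (h1 y hy) ((h2 y hy).trans ?_))
        gcongr
      refine (norm_sub_le _ _).trans ?_
      linarith [h3 _ xq_mem_Nb, h3 _ (xp_mem_Nb hc hw)]
    · intro w hw hwz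
      rw [htX] at hwz
      obtain ⟨h1, h2⟩ := h.dif k hκk hi z' hz'b hann w ⟨hw, hwz⟩
      have h3 := (h.own k hκk hi w hw).1
      have h4 := incr hc (mul_nonneg hK (dd_nonneg hε κ k w z')) hw (h3.sub h1) h2
      have e1 : F w - (T ((RR k : ℂ) • z') ((RR k : ℂ) • w) (xq k w) -
          T ((RR k : ℂ) • z') ((RR k : ℂ) • w) (xp k w)) =
          (T ((RR k : ℂ) • w) ((RR k : ℂ) • w) (xq k w) -
            T ((RR k : ℂ) • z') ((RR k : ℂ) • w) (xq k w)) -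
          (T ((RR k : ℂ) • w) ((RR k : ℂ) • w) (xp k w) -
            T ((RR k : ℂ) • z') ((RR k : ℂ) • w) (xp k w)) := by
        simp only [hF]; ring
      rw [e1]
      refine h4.trans ?_
      have h5 := dd_le hε (κ := κ) (i := i) w z'
      rw [← hk, ← ht] at h5
      calc 2.2 * (K * dd ε κ k w z') / c₀ * (1 / 2) ^ k
          = 2.2 * K / c₀ * (dd ε κ k w z' * t) := by rw [← ht]; ring
        _ ≤ 2.2 * K / c₀ * (2 * ε * (17 / 20) ^ i * √(t * (‖1 - ⟪w, z'⟫_ℂ‖ + t))) := by gcongr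
        _ = _ := by rw [hG']; ring

/-- all scales of a block -/
theorem block_sum {P : (E → ℂ) → E → ℂ} {CK : ℝ} (hker : Ker P CK) {T : E → E → E → ℂ}
    {κ : ℕ} {s c₀ K ε : ℝ} (hc : 0 < c₀) (hK : 0 ≤ K) (hε : 0 ≤ ε)
    (hs8 : 8 * (1 / 2) ^ κ ≤ s) (hsε : √((1 / 2) ^ κ / s) ≤ ε) (n : ℕ)
    (h : TH T κ (κ + n) s c₀ K ε) :
    ∃ G : E → ℂ, DifferentiableOn ℂ G (ball 0 (RR (κ + n))) ∧
      ∀ z : E, 1 ≤ ‖z‖ → ‖z‖ < RR (κ + n) →
      ‖G z - (T z z ((rr (κ + n) : ℂ) • z) - T z z ((rr κ : ℂ) • z))‖ ≤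
        CK * (50 * K / c₀ * ε) := by
  have hone : ∀ i, i < n → ∃ G : E → ℂ, DifferentiableOn ℂ G (ball 0 (RR (κ + i))) ∧
      ∀ z : E, 1 ≤ ‖z‖ → ‖z‖ < RR (κ + i + 1) →
      ‖G z - (T z z ((rr (κ + i + 1) : ℂ) • z) - T z z ((rr (κ + i) : ℂ) • z))‖ ≤
        CK * (7 * K / c₀ * ε * (17 / 20) ^ i) := fun i hi =>
    one_scale hker h hc hK hε hs8 hsε (by omega)
  have hRR : ∀ i j : ℕ, i ≤ j → RR j ≤ RR i := by
    intro i j hij
    unfold RR
    have : ((1 : ℝ) / 2) ^ j ≤ (1 / 2) ^ i := pow_le_pow_of_le_one (by norm_num) (by norm_num) hij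
    linarith
  choose! G hG1 hG2 using hone
  refine ⟨fun z => ∑ i ∈ Finset.range n, G i z, ?_, ?_⟩
  · apply DifferentiableOn.fun_sum
    intro i hi
    have := Finset.mem_range.mp hi
    exact (hG1 i this).mono (ball_subset_ball (hRR _ _ (by omega)))
  · intro z hz1 hz2
    have e1 : T z z ((rr (κ + n) : ℂ) • z) - T z z ((rr κ : ℂ) • z) =
        ∑ i ∈ Finset.range n, (T z z ((rr (κ + i + 1) : ℂ) • z) - T z z ((rr (κ + i) : ℂ) • z)) := by
      have := Finset.sum_range_sub (fun i => T z z ((rr (κ + i) : ℂ) • z)) n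
      rw [add_zero] at this
      rw [← this]
      rfl
    rw [e1, ← Finset.sum_sub_distrib]
    have hCK := hker.pos.le
    calc ‖∑ i ∈ Finset.range n, (G i z - (T z z ((rr (κ + i + 1) : ℂ) • z) -
          T z z ((rr (κ + i) : ℂ) • z)))‖
        ≤ ∑ i ∈ Finset.range n, CK * (7 * K / c₀ * ε * (17 / 20) ^ i) := by
          apply norm_sum_le_of_le
          intro i hi
          have := Finset.mem_range.mp hi
          exact hG2 i this z hz1 (hz2.trans_le (hRR _ _ (by omega)))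
      _ = CK * (7 * K / c₀ * ε) * ∑ i ∈ Finset.range n, (17 / 20 : ℝ) ^ i := by
          rw [Finset.mul_sum]
          exact Finset.sum_congr rfl fun i _ => by ring
      _ ≤ CK * (7 * K / c₀ * ε) * (20 / 3) := by
          gcongr
          have : ∀ n : ℕ, ∑ i ∈ Finset.range n, (17 / 20 : ℝ) ^ i ≤
              20 / 3 - 20 / 3 * (17 / 20) ^ n := by
            intro n
            induction n with
            | zero => simp
            | succ n ih => rw [Finset.sum_range_succ, pow_succ]; linarith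
          have h2 : (0 : ℝ) ≤ (17 / 20) ^ n := by positivity
          linarith [this n]
      _ ≤ _ := by
          have : 0 ≤ CK * (K / c₀ * ε) := by positivity
          calc CK * (7 * K / c₀ * ε) * (20 / 3) = (CK * (K / c₀ * ε)) * (140 / 3) := by ring
            _ ≤ (CK * (K / c₀ * ε)) * 50 := by gcongr; norm_num
            _ = _ := by ring

end Pool.Agent.MPca0fc2.VL
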