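import Mathlib
import Pool.Agent.Lib.MP_ca0fc2_an.SLPot

set_option autoImplicit false

namespace Pool.Agent.MPca0fc2.SD
end Pool.Agent.MPca0fc2.SD

open Metric Set Filter Topology
open scoped InnerProductSpace

namespace Pool.Agent.MPca0fc2.VL

open Pool.Agent.MPca0fc2.SD
open Pool.Agent.MPca0fc2.SL

/-- the numerical inequality behind the potential -/
theorem pot_real {a A d D KD n₀ C₂ C₃ Λ : ℝ} (ha : 0 ≤ a) (haA : a ≤ A) (hd : 0 ≤ d)
    (hKD : 0 ≤ KD) (hn : 0 ≤ n₀) (hD : D ≤ KD * (a + d)) (hC₂ : 8 * ((n₀ + 1) * KD) ≤ C₂)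
    (hC₃ : (n₀ + 1) * KD ≤ C₃) (hΛ1 : 1 ≤ Λ) (hΛ : 2 * (KD * A) ≤ Λ) :
    Real.exp (-(C₂ / 2 * a)) * (1 + n₀ * D) + D / Λ ≤ Real.exp (C₃ * d) := by
  have hΛ0 : 0 < Λ := by linarith
  set x := C₂ / 2 * a with hx
  have hC₂0 : 0 ≤ C₂ := le_trans (by positivity) hC₂
  have hx0 : 0 ≤ x := by positivity
  have h1 : n₀ * (KD * a) ≤ x / 4 := by
    have : 8 * (n₀ * KD) ≤ C₂ := by nlinarith
    rw [hx]
    calc n₀ * (KD * a) = (8 * (n₀ * KD)) * a / 8 := by ring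
      _ ≤ C₂ * a / 8 := by gcongr
      _ = _ := by ring
  have h2 : KD * a ≤ x / 4 := by
    have : 8 * KD ≤ C₂ := by nlinarith [mul_nonneg hn hKD]
    rw [hx]
    calc KD * a = (8 * KD) * a / 8 := by ring
      _ ≤ C₂ * a / 8 := by gcongr
      _ = _ := by ring
  have hex : 0 < Real.exp (-x) := Real.exp_pos _
  have hex1 : Real.exp (-x) ≤ 1 := by rw [Real.exp_le_one_iff]; linarith
  have claim : Real.exp (-x) * (1 + x / 4) + KD * a / Λ ≤ 1 := by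
    rcases le_or_gt x 1 with hx1 | hx1
    · have h3 : Real.exp (-x) ≤ 1 - x / 2 := by
        have h4 : Real.exp (-x) ≤ 1 + (-x) + (-x) ^ 2 := by
          have := Real.abs_exp_sub_one_sub_id_le (x := -x) (by rw [abs_neg, abs_of_nonneg hx0]; exact hx1)
          have := (abs_le.mp this).2
          linarith
        have h5 : Real.exp (-x) * Real.exp x = 1 := by rw [← Real.exp_add]; simp
        have h6 : 1 + x + x ^ 2 / 2 ≤ Real.exp x := Real.quadratic_le_exp_of_nonneg hx0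
        -- (1 - x/2)(1 + x + x²/2) ≥ 1
        have h7 : 1 ≤ (1 - x / 2) * (1 + x + x ^ 2 / 2) := by nlinarith [mul_nonneg hx0 (mul_nonneg hx0 hx0)]
        have h8 : 0 ≤ 1 - x / 2 := by linarith
        have h9 : Real.exp (-x) * Real.exp x ≤ (1 - x / 2) * Real.exp x := by
          rw [h5]; exact h7.trans (mul_le_mul_of_nonneg_left h6 h8)
        exact le_of_mul_le_mul_right h9 (Real.exp_pos x)
      have h4 : KD * a / Λ ≤ x / 4 := (div_le_self (by positivity) hΛ1).trans h2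
      nlinarith
    · have h3 : Real.exp (-x) * (1 + x / 4) ≤ 1 / 2 := by
        have h4 : 1 + x / 4 ≤ Real.exp (x / 4) := by
          have := Real.add_one_le_exp (x / 4); linarith
        calc Real.exp (-x) * (1 + x / 4) ≤ Real.exp (-x) * Real.exp (x / 4) := by gcongr
          _ = Real.exp (-(3 / 4 * x)) := by rw [← Real.exp_add]; ring_nf
          _ ≤ Real.exp (-(3 / 4)) := Real.exp_le_exp.mpr (by linarith)
          _ ≤ 1 / 2 := by
            have h5 : (2 : ℝ) ≤ Real.exp (3 / 4) := by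
              have := Real.quadratic_le_exp_of_nonneg (x := 3 / 4) (by norm_num)
              linarith
            rw [Real.exp_neg]
            exact inv_le_of_inv_le₀ (by norm_num) (by linarith)
      have h4 : KD * a / Λ ≤ 1 / 2 := by
        rw [div_le_iff₀ hΛ0]
        have : KD * a ≤ KD * A := by gcongr
        linarith
      linarith
  rcases le_or_gt D 0 with hD0 | hD0
  · have h3 : n₀ * D ≤ 0 := mul_nonpos_of_nonneg_of_nonpos hn hD0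
    have h4 : D / Λ ≤ 0 := div_nonpos_of_nonpos_of_nonneg hD0 hΛ0.le
    have h5 : 1 ≤ Real.exp (C₃ * d) := Real.one_le_exp (by
      have : 0 ≤ C₃ := le_trans (by positivity) hC₃
      positivity)
    have h6 : Real.exp (-x) * (1 + n₀ * D) ≤ 1 := by
      calc Real.exp (-x) * (1 + n₀ * D) ≤ Real.exp (-x) * 1 := by gcongr; linarith
        _ ≤ 1 := by linarith
    linarith
  · have h3 : Real.exp (-x) * (1 + n₀ * D) ≤ Real.exp (-x) * (1 + x / 4) + n₀ * (KD * d) := by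
      have h4 : n₀ * D ≤ x / 4 + n₀ * (KD * d) := by
        calc n₀ * D ≤ n₀ * (KD * (a + d)) := by gcongr
          _ = n₀ * (KD * a) + n₀ * (KD * d) := by ring
          _ ≤ _ := by linarith
      have h5 : 0 ≤ n₀ * (KD * d) := by positivity
      calc Real.exp (-x) * (1 + n₀ * D) ≤ Real.exp (-x) * (1 + (x / 4 + n₀ * (KD * d))) := by
            gcongr
        _ = Real.exp (-x) * (1 + x / 4) + Real.exp (-x) * (n₀ * (KD * d)) := by ring
        _ ≤ Real.exp (-x) * (1 + x / 4) + 1 * (n₀ * (KD * d)) := by gcongr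
        _ = _ := by ring
    have h4 : D / Λ ≤ KD * a / Λ + KD * d := by
      have h5 : KD * d / Λ ≤ KD * d := div_le_self (by positivity) hΛ1
      calc D / Λ ≤ KD * (a + d) / Λ := by gcongr
        _ = KD * a / Λ + KD * d / Λ := by ring
        _ ≤ _ := by linarith
    have h5 : 1 + (n₀ + 1) * KD * d ≤ Real.exp (C₃ * d) := by
      have h6 := Real.add_one_le_exp (C₃ * d)
      have h7 : (n₀ + 1) * KD * d ≤ C₃ * d := by gcongr
      linarith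
    nlinarith

variable {W : Type*} [NormedAddCommGroup W] [InnerProductSpace ℂ W]

/-- the potential -/
noncomputable def Ph (C₁ C₂ : ℝ) (β υ : W) : ℝ := C₁ * gp β υ + C₂ / 2 * ‖υ‖ ^ 2

/-- the factor with two gauges -/
noncomputable def Xg (C₁ C₂ : ℝ) (β γ υ : W) : ℂ :=
  Complex.exp (⟪(C₁ : ℂ) • β + (C₂ : ℂ) • γ, υ - γ⟫_ℂ)

theorem norm_Xg (C₁ C₂ : ℝ) (β γ υ : W) :
    ‖Xg C₁ C₂ β γ υ‖ = Real.exp (Ph C₁ C₂ β υ - Ph C₁ C₂ β γ - C₂ / 2 * ‖υ - γ‖ ^ 2) := by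
  rw [Xg, Complex.norm_exp]
  congr 1
  have h1 := gp_sub β γ υ
  have h2 : ‖υ‖ ^ 2 = ‖γ‖ ^ 2 + 2 * (⟪γ, υ - γ⟫_ℂ).re + ‖υ - γ‖ ^ 2 := by
    have := norm_add_sq (𝕜 := ℂ) γ (υ - γ)
    rw [add_sub_cancel] at this
    exact this
  have h3 : (⟪(C₁ : ℂ) • β + (C₂ : ℂ) • γ, υ - γ⟫_ℂ).re =
      C₁ * (⟪β, υ - γ⟫_ℂ).re + C₂ * (⟪γ, υ - γ⟫_ℂ).re := by
    rw [inner_add_left, inner_smul_left, inner_smul_left, Complex.conj_ofReal,
      Complex.conj_ofReal, Complex.add_re, Complex.re_ofReal_mul, Complex.re_ofReal_mul]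
  rw [h3, ← h1]
  unfold Ph
  rw [h2]
  ring

theorem gauge_step {J : Type*} [Fintype J] {C₁ C₂ S : ℝ} {β γ υ : W} {U : J → ℂ}
    (h : ‖U‖ * Real.exp (-Ph C₁ C₂ β γ) ≤ S) :
    ‖Xg C₁ C₂ β γ υ • U‖ * Real.exp (-Ph C₁ C₂ β υ) ≤
      S * Real.exp (-(C₂ / 2 * ‖υ - γ‖ ^ 2)) := by
  rw [norm_smul, norm_Xg]
  calc Real.exp (Ph C₁ C₂ β υ - Ph C₁ C₂ β γ - C₂ / 2 * ‖υ - γ‖ ^ 2) * ‖U‖ *
        Real.exp (-Ph C₁ C₂ β υ) = (‖U‖ * Real.exp (-Ph C₁ C₂ β γ)) *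
        Real.exp (-(C₂ / 2 * ‖υ - γ‖ ^ 2)) := by
        have : Real.exp (Ph C₁ C₂ β υ - Ph C₁ C₂ β γ - C₂ / 2 * ‖υ - γ‖ ^ 2) =
            Real.exp (Ph C₁ C₂ β υ) * Real.exp (-Ph C₁ C₂ β γ) *
              Real.exp (-(C₂ / 2 * ‖υ - γ‖ ^ 2)) := by
          rw [← Real.exp_add, ← Real.exp_add]; ring_nf
        have h2 : Real.exp (Ph C₁ C₂ β υ) * Real.exp (-Ph C₁ C₂ β υ) = 1 := by
          rw [← Real.exp_add]; simp
        rw [this]
        linear_combination (‖U‖ * Real.exp (-Ph C₁ C₂ β γ) *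
          Real.exp (-(C₂ / 2 * ‖υ - γ‖ ^ 2))) * h2
    _ ≤ _ := by gcongr

/-- the growth of the potential in one block -/
theorem pot_step {J : Type*} [Fintype J] {f' U m' Mn Hn : J → ℂ} {ηn : ℂ} {β β' υ : W}
    {a A D KD n₀ C₁ C₂ Λ Γ S er B M N ρ : ℝ} (hN : N = Fintype.card J) (hn₀ : n₀ = N * M)
    (hf : ‖f'‖ ≤ M) (hU : ‖U‖ * Real.exp (-Ph C₁ C₂ β υ) ≤ S * Real.exp (-(C₂ / 2 * a)))
    (hH : ‖Hn - (U + (1 - dot f' U) • Mn)‖ ≤ er) (hη : ‖ηn - dot f' U‖ ≤ er)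
    (hm : ‖m'‖ ≤ B) (hMm : ‖Mn - m'‖ ≤ D) (ha : 0 ≤ a) (haA : a ≤ A) (hKD : 0 ≤ KD)
    (hD : D ≤ KD * (a + ‖β' - β‖)) (hgain : ρ / 4 * ‖β' - β‖ ≤ gp β' υ - gp β υ)
    (hC₁0 : 0 ≤ C₁) (hC₂ : 8 * ((n₀ + 1) * KD) ≤ C₂) (hC₁ : (n₀ + 1) * KD ≤ C₁ * (ρ / 4))
    (hΛ1 : 1 ≤ Λ) (hΛ : 2 * (KD * A) ≤ Λ) (hΓ : Real.exp (-Ph C₁ C₂ β υ) ≤ Γ)
    (hS : Λ * Γ ≤ S) :
    ‖Uv Hn m' ηn‖ * Real.exp (-Ph C₁ C₂ β' υ) ≤ S * (1 + (1 + B) * er) := by
  have her : 0 ≤ er := (norm_nonneg _).trans hH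
  have hM : 0 ≤ M := (norm_nonneg _).trans hf
  have hB : 0 ≤ B := (norm_nonneg _).trans hm
  have hD0 : 0 ≤ D := (norm_nonneg _).trans hMm
  have hN0 : 0 ≤ N := by rw [hN]; positivity
  have hn0 : 0 ≤ n₀ := by rw [hn₀]; positivity
  have hΛ0 : 0 < Λ := by linarith
  have hE0 : 0 < Real.exp (-Ph C₁ C₂ β υ) := Real.exp_pos _
  have hΓ0 : 0 < Γ := hE0.trans_le hΓ
  have hS0 : 0 < S := (mul_pos hΛ0 hΓ0).trans_le hS
  set d := ‖β' - β‖ with hd
  have hd0 : 0 ≤ d := norm_nonneg _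
  -- the norm of the new vector
  have h1 : ‖Uv Hn m' ηn‖ ≤ ‖U‖ * (1 + n₀ * D) + D + (1 + B) * er := by
    have e1 : Uv Hn m' ηn = U + (1 - dot f' U) • (Mn - m') +
        (Hn - (U + (1 - dot f' U) • Mn)) + (ηn - dot f' U) • m' := by
      unfold Uv; module
    have h2 : ‖1 - dot f' U‖ ≤ 1 + n₀ * ‖U‖ := by
      refine (norm_sub_le _ _).trans ?_
      rw [norm_one]
      have := norm_dot_le f' U
      have h3 : (Fintype.card J : ℝ) * (‖f'‖ * ‖U‖) ≤ n₀ * ‖U‖ := by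
        rw [hn₀, hN, mul_assoc]; gcongr
      linarith
    have h3 : ‖(1 - dot f' U) • (Mn - m')‖ ≤ (1 + n₀ * ‖U‖) * D := by
      rw [norm_smul]
      exact mul_le_mul h2 hMm (norm_nonneg _) (by positivity)
    have h4 : ‖(ηn - dot f' U) • m'‖ ≤ er * B := by rw [norm_smul]; gcongr
    rw [e1]
    have g1 := norm_add_le (U + (1 - dot f' U) • (Mn - m') + (Hn - (U + (1 - dot f' U) • Mn)))
      ((ηn - dot f' U) • m')
    have g2 := norm_add_le (U + (1 - dot f' U) • (Mn - m')) (Hn - (U + (1 - dot f' U) • Mn))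
    have g3 := norm_add_le U ((1 - dot f' U) • (Mn - m'))
    nlinarith
  -- the change of the potential
  have h2 : Real.exp (-Ph C₁ C₂ β' υ) ≤
      Real.exp (-Ph C₁ C₂ β υ) * Real.exp (-(C₁ * (ρ / 4) * d)) := by
    rw [← Real.exp_add]
    apply Real.exp_le_exp.mpr
    unfold Ph
    have : C₁ * (ρ / 4 * d) ≤ C₁ * (gp β' υ - gp β υ) := mul_le_mul_of_nonneg_left hgain hC₁0
    linarith
  have h3 := pot_real ha haA hd0 hKD hn0 hD hC₂ hC₁ hΛ1 hΛ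
  set x := Real.exp (-(C₂ / 2 * a)) with hx
  have hx0 : 0 < x := Real.exp_pos _
  have h4 : (‖U‖ * (1 + n₀ * D) + D + (1 + B) * er) * Real.exp (-Ph C₁ C₂ β υ) ≤
      S * (Real.exp (C₁ * (ρ / 4) * d) + (1 + B) * er) := by
    have hSΓ : Γ ≤ S / Λ := by rw [le_div_iff₀ hΛ0]; linarith
    have hSΓ' : Γ ≤ S := hSΓ.trans (div_le_self hS0.le hΛ1)
    calc (‖U‖ * (1 + n₀ * D) + D + (1 + B) * er) * Real.exp (-Ph C₁ C₂ β υ)
        = (‖U‖ * Real.exp (-Ph C₁ C₂ β υ)) * (1 + n₀ * D) +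
          D * Real.exp (-Ph C₁ C₂ β υ) + (1 + B) * er * Real.exp (-Ph C₁ C₂ β υ) := by ring
      _ ≤ (S * x) * (1 + n₀ * D) + D * (S / Λ) + (1 + B) * er * S := by
          gcongr
          · exact hΓ.trans hSΓ
          · exact hΓ.trans hSΓ'
      _ = S * (x * (1 + n₀ * D) + D / Λ) + S * ((1 + B) * er) := by ring
      _ ≤ S * Real.exp (C₁ * (ρ / 4) * d) + S * ((1 + B) * er) := by gcongr
      _ = _ := by ring
  have hU0 : 0 ≤ ‖U‖ * (1 + n₀ * D) + D + (1 + B) * er := by positivity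
  calc ‖Uv Hn m' ηn‖ * Real.exp (-Ph C₁ C₂ β' υ)
      ≤ (‖U‖ * (1 + n₀ * D) + D + (1 + B) * er) *
        (Real.exp (-Ph C₁ C₂ β υ) * Real.exp (-(C₁ * (ρ / 4) * d))) := by gcongr
    _ = ((‖U‖ * (1 + n₀ * D) + D + (1 + B) * er) * Real.exp (-Ph C₁ C₂ β υ)) *
        Real.exp (-(C₁ * (ρ / 4) * d)) := by ring
    _ ≤ (S * (Real.exp (C₁ * (ρ / 4) * d) + (1 + B) * er)) *
        Real.exp (-(C₁ * (ρ / 4) * d)) := by gcongr
    _ = S * (Real.exp (C₁ * (ρ / 4) * d) * Real.exp (-(C₁ * (ρ / 4) * d))) +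
        S * ((1 + B) * er) * Real.exp (-(C₁ * (ρ / 4) * d)) := by ring
    _ ≤ S * 1 + S * ((1 + B) * er) * 1 := by
        have g1 : Real.exp (C₁ * (ρ / 4) * d) * Real.exp (-(C₁ * (ρ / 4) * d)) = 1 := by
          rw [← Real.exp_add]; simp
        have g2 : Real.exp (-(C₁ * (ρ / 4) * d)) ≤ 1 := by
          rw [Real.exp_le_one_iff]
          have g3 : 0 ≤ C₁ * (ρ / 4) := le_trans (by positivity) hC₁
          have := mul_nonneg g3 hd0
          linarith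
        rw [g1]
        gcongr
    _ = _ := by ring

end Pool.Agent.MPca0fc2.VL
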