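import Mathlib
import Pool.Agent.Lib.MP_ca0fc2_an.VLBlock
import Pool.Agent.Lib.MP_ca0fc2_an.VLCells
import Pool.Agent.Lib.MP_ca0fc2_an.VLPot

set_option autoImplicit false

open Metric Set Filter Topology
open scoped InnerProductSpace

namespace Pool.Agent.MPca0fc2.VL

open Pool.Agent.MPca0fc2.SD
open Pool.Agent.MPca0fc2.SL

variable {J : Type*} [Fintype J] {I : Type*} [Fintype I]
variable {E : Type*} [NormedAddCommGroup E] [InnerProductSpace ℂ E]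
variable {W : Type*} [NormedAddCommGroup W] [InnerProductSpace ℂ W]

/-- bounds of the new scalar and of the new vector -/
theorem hv_bd {f h m Mn : J → ℂ} {η X : ℂ} {M P B X₀ : ℝ} (hf : ‖f‖ ≤ M) (hP : 0 ≤ P)
    (hB : 0 ≤ B) (hh : ‖h‖ ≤ P) (hη : ‖η‖ ≤ P) (hm : ‖m‖ ≤ B) (hMn : ‖Mn‖ ≤ B) (hX : ‖X‖ ≤ X₀) :
    ‖ηv f h m η X‖ ≤ Fintype.card J * M * (X₀ * (P + (1 + P) * B)) ∧
    ‖hv f h m Mn η X‖ ≤ X₀ * (P + (1 + P) * B) +
      (1 + Fintype.card J * M * (X₀ * (P + (1 + P) * B))) * B := by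
  have hM0 : 0 ≤ M := (norm_nonneg _).trans hf
  have hX0 : 0 ≤ X₀ := (norm_nonneg _).trans hX
  have hU := norm_Uv_le hh hη hm hB
  set u₀ := P + (1 + P) * B with hu₀
  have hu0 : 0 ≤ u₀ := by positivity
  have hXU : ‖X • Uv h m η‖ ≤ X₀ * u₀ := by rw [norm_smul]; gcongr
  have h1 : ‖ηv f h m η X‖ ≤ Fintype.card J * M * (X₀ * u₀) := by
    rw [ηv]
    refine (norm_dot_le _ _).trans ?_
    rw [mul_assoc]
    gcongr
  refine ⟨h1, ?_⟩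
  rw [hv]
  refine (norm_add_le _ _).trans (add_le_add hXU ?_)
  rw [norm_smul]
  have h2 : ‖1 - ηv f h m η X‖ ≤ 1 + Fintype.card J * M * (X₀ * u₀) := by
    refine (norm_sub_le _ _).trans ?_
    rw [norm_one]
    exact add_le_add le_rfl h1
  exact mul_le_mul h2 hMn (norm_nonneg _) ((norm_nonneg _).trans h2)

/-- dependence of the new scalar and of the new vector on the parameters -/
theorem hv_lip {f h m m' Mn Mn' : J → ℂ} {η X X' : ℂ} {M P B X₀ : ℝ} (hf : ‖f‖ ≤ M) (hP : 0 ≤ P)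
    (hB : 0 ≤ B) (hh : ‖h‖ ≤ P) (hη : ‖η‖ ≤ P) (hm : ‖m‖ ≤ B)
    (hMn' : ‖Mn'‖ ≤ B) (hX : ‖X‖ ≤ X₀) (hX' : ‖X'‖ ≤ X₀) :
    ‖ηv f h m η X - ηv f h m' η X'‖ ≤ Fintype.card J * M *
      ((P + (1 + P) * B) * ‖X - X'‖ + X₀ * (1 + P) * ‖m - m'‖) ∧
    ‖hv f h m Mn η X - hv f h m' Mn' η X'‖ ≤
      (1 + Fintype.card J * M * B) * ((P + (1 + P) * B) * ‖X - X'‖ + X₀ * (1 + P) * ‖m - m'‖) +
      (1 + Fintype.card J * M * (X₀ * (P + (1 + P) * B))) * ‖Mn - Mn'‖ := by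
  have hM0 : 0 ≤ M := (norm_nonneg _).trans hf
  have hX0 : 0 ≤ X₀ := (norm_nonneg _).trans hX
  have hU := norm_Uv_le hh hη hm hB
  set u₀ := P + (1 + P) * B with hu₀
  have hu0 : 0 ≤ u₀ := by positivity
  have hη1 : ‖1 - η‖ ≤ 1 + P := by
    refine (norm_sub_le _ _).trans ?_
    rw [norm_one]; linarith
  have e1 : X • Uv h m η - X' • Uv h m' η = (X - X') • Uv h m η - (X' * (1 - η)) • (m - m') := by
    unfold Uv; module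
  set d := u₀ * ‖X - X'‖ + X₀ * (1 + P) * ‖m - m'‖ with hd
  have hd0 : 0 ≤ d := by positivity
  have hXU : ‖X • Uv h m η - X' • Uv h m' η‖ ≤ d := by
    rw [e1]
    refine (norm_sub_le _ _).trans ?_
    rw [norm_smul, norm_smul, norm_mul]
    have g1 : ‖X - X'‖ * ‖Uv h m η‖ ≤ u₀ * ‖X - X'‖ := by rw [mul_comm]; gcongr
    have g2 : ‖X'‖ * ‖1 - η‖ * ‖m - m'‖ ≤ X₀ * (1 + P) * ‖m - m'‖ := by gcongr
    exact add_le_add g1 g2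
  have h1 : ‖ηv f h m η X - ηv f h m' η X'‖ ≤ Fintype.card J * M * d := by
    rw [ηv, ηv, ← dot_sub]
    refine (norm_dot_le _ _).trans ?_
    rw [mul_assoc]
    gcongr
  refine ⟨h1, ?_⟩
  have e2 : hv f h m Mn η X - hv f h m' Mn' η X' = (X • Uv h m η - X' • Uv h m' η) +
      (1 - ηv f h m η X) • (Mn - Mn') - (ηv f h m η X - ηv f h m' η X') • Mn' := by
    rw [hv, hv]; module
  rw [e2]
  have h2 : ‖1 - ηv f h m η X‖ ≤ 1 + Fintype.card J * M * (X₀ * u₀) := by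
    refine (norm_sub_le _ _).trans ?_
    rw [norm_one]
    have : ‖ηv f h m η X‖ ≤ Fintype.card J * M * (X₀ * u₀) := by
      rw [ηv]
      refine (norm_dot_le _ _).trans ?_
      rw [norm_smul, mul_assoc]
      gcongr
    exact add_le_add le_rfl this
  have g1 : ‖(1 - ηv f h m η X) • (Mn - Mn')‖ ≤
      (1 + Fintype.card J * M * (X₀ * u₀)) * ‖Mn - Mn'‖ := by
    rw [norm_smul]; gcongr
  have g2 : ‖(ηv f h m η X - ηv f h m' η X') • Mn'‖ ≤ Fintype.card J * M * d * B := by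
    rw [norm_smul]
    exact mul_le_mul h1 hMn' (norm_nonneg _) (by positivity)
  refine (norm_sub_le _ _).trans ?_
  refine (add_le_add (norm_add_le _ _) le_rfl).trans ?_
  calc _ ≤ d + (1 + Fintype.card J * M * (X₀ * u₀)) * ‖Mn - Mn'‖ +
        Fintype.card J * M * d * B := add_le_add (add_le_add hXU g1) g2
    _ = _ := by ring

/-- bounds of the factor -/
theorem Xg_arg {C₁ C₂ G M : ℝ} (hC₁ : 0 ≤ C₁) (hC₂ : 0 ≤ C₂) {β γ υ : W}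
    (hβ : ‖β‖ ≤ G) (hγ : ‖γ‖ ≤ M) (hυ : ‖υ‖ ≤ M) (hMG : M ≤ G) :
    ‖⟪(C₁ : ℂ) • β + (C₂ : ℂ) • γ, υ - γ⟫_ℂ‖ ≤ (C₁ + C₂) * G * (2 * M) := by
  have hG : 0 ≤ G := (norm_nonneg _).trans hβ
  refine (norm_inner_le_norm _ _).trans ?_
  have h1 : ‖(C₁ : ℂ) • β + (C₂ : ℂ) • γ‖ ≤ (C₁ + C₂) * G := by
    refine (norm_add_le _ _).trans ?_
    rw [norm_smul, norm_smul, Complex.norm_real, Complex.norm_real, Real.norm_of_nonneg hC₁,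
      Real.norm_of_nonneg hC₂, add_mul]
    have : ‖γ‖ ≤ G := hγ.trans hMG
    gcongr
  have h2 : ‖υ - γ‖ ≤ 2 * M := by
    refine (norm_sub_le _ _).trans ?_
    linarith
  exact mul_le_mul h1 h2 (norm_nonneg _) (by positivity)

theorem Xg_bd {C₁ C₂ G M : ℝ} (hC₁ : 0 ≤ C₁) (hC₂ : 0 ≤ C₂) {β γ υ : W}
    (hβ : ‖β‖ ≤ G) (hγ : ‖γ‖ ≤ M) (hυ : ‖υ‖ ≤ M) (hMG : M ≤ G) :
    ‖Xg C₁ C₂ β γ υ‖ ≤ Real.exp ((C₁ + C₂) * G * (2 * M)) := by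
  rw [Xg, Complex.norm_exp]
  exact Real.exp_le_exp.mpr ((Complex.re_le_norm _).trans (Xg_arg hC₁ hC₂ hβ hγ hυ hMG))

theorem Xg_lip {C₁ C₂ G M : ℝ} (hC₁ : 0 ≤ C₁) (hC₂ : 0 ≤ C₂) {β γ β' γ' υ : W}
    (hβ : ‖β‖ ≤ G) (hγ : ‖γ‖ ≤ M) (hβ' : ‖β'‖ ≤ G) (hγ' : ‖γ'‖ ≤ M) (hυ : ‖υ‖ ≤ M)
    (hMG : M ≤ G) :
    ‖Xg C₁ C₂ β γ υ - Xg C₁ C₂ β' γ' υ‖ ≤ Real.exp (3 * ((C₁ + C₂) * G * (2 * M))) *
      ((C₁ + C₂) * (2 * M + G) * (‖β - β'‖ + ‖γ - γ'‖)) := by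
  have hG : 0 ≤ G := (norm_nonneg _).trans hβ
  have hM : 0 ≤ M := (norm_nonneg _).trans hγ
  unfold Xg
  refine (exp_sub_exp_le (Xg_arg hC₁ hC₂ hβ hγ hυ hMG)
    (Xg_arg hC₁ hC₂ hβ' hγ' hυ hMG)).trans ?_
  apply mul_le_mul_of_nonneg_left _ (Real.exp_pos _).le
  have e1 : ⟪(C₁ : ℂ) • β + (C₂ : ℂ) • γ, υ - γ⟫_ℂ - ⟪(C₁ : ℂ) • β' + (C₂ : ℂ) • γ', υ - γ'⟫_ℂ =
      ⟪(C₁ : ℂ) • (β - β') + (C₂ : ℂ) • (γ - γ'), υ - γ⟫_ℂ -
      ⟪(C₁ : ℂ) • β' + (C₂ : ℂ) • γ', γ - γ'⟫_ℂ := by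
    have g1 : (C₁ : ℂ) • (β - β') + (C₂ : ℂ) • (γ - γ') =
        ((C₁ : ℂ) • β + (C₂ : ℂ) • γ) - ((C₁ : ℂ) • β' + (C₂ : ℂ) • γ') := by module
    rw [g1, inner_sub_left]
    have g2 : υ - γ' = (υ - γ) + (γ - γ') := by abel
    rw [g2, inner_add_right]
    ring
  rw [e1]
  refine (norm_sub_le _ _).trans ?_
  have h1 : ‖⟪(C₁ : ℂ) • (β - β') + (C₂ : ℂ) • (γ - γ'), υ - γ⟫_ℂ‖ ≤
      (C₁ + C₂) * (‖β - β'‖ + ‖γ - γ'‖) * (2 * M) := by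
    refine (norm_inner_le_norm _ _).trans ?_
    have g1 : ‖(C₁ : ℂ) • (β - β') + (C₂ : ℂ) • (γ - γ')‖ ≤
        (C₁ + C₂) * (‖β - β'‖ + ‖γ - γ'‖) := by
      refine (norm_add_le _ _).trans ?_
      rw [norm_smul, norm_smul, Complex.norm_real, Complex.norm_real, Real.norm_of_nonneg hC₁,
        Real.norm_of_nonneg hC₂]
      nlinarith [mul_nonneg hC₁ (norm_nonneg (γ - γ')), mul_nonneg hC₂ (norm_nonneg (β - β'))]
    have g2 : ‖υ - γ‖ ≤ 2 * M := by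
      refine (norm_sub_le _ _).trans ?_
      linarith
    exact mul_le_mul g1 g2 (norm_nonneg _) (by positivity)
  have h2 : ‖⟪(C₁ : ℂ) • β' + (C₂ : ℂ) • γ', γ - γ'⟫_ℂ‖ ≤
      (C₁ + C₂) * G * (‖β - β'‖ + ‖γ - γ'‖) := by
    refine (norm_inner_le_norm _ _).trans ?_
    have g1 : ‖(C₁ : ℂ) • β' + (C₂ : ℂ) • γ'‖ ≤ (C₁ + C₂) * G := by
      refine (norm_add_le _ _).trans ?_
      rw [norm_smul, norm_smul, Complex.norm_real, Complex.norm_real, Real.norm_of_nonneg hC₁,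
        Real.norm_of_nonneg hC₂, add_mul]
      have : ‖γ'‖ ≤ G := hγ'.trans hMG
      gcongr
    have g2 : ‖γ - γ'‖ ≤ ‖β - β'‖ + ‖γ - γ'‖ := by linarith [norm_nonneg (β - β')]
    exact mul_le_mul g1 g2 (norm_nonneg _) (by positivity)
  calc _ ≤ (C₁ + C₂) * (‖β - β'‖ + ‖γ - γ'‖) * (2 * M) +
        (C₁ + C₂) * G * (‖β - β'‖ + ‖γ - γ'‖) := add_le_add h1 h2
    _ = _ := by ring

/-- the tents -/
def Tn (σ : ℝ) (κ' : ℕ) (a : E) : Set E :=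
  {x | x ∈ ball (0 : E) 1 ∧ ‖1 - ⟪x, a⟫_ℂ‖ < 64 * σ ∧ (1 / 2) ^ κ' / 2 < 1 - ‖x‖}

theorem Tn_open (σ : ℝ) (κ' : ℕ) (a : E) : IsOpen (Tn σ κ' a : Set E) := by
  apply isOpen_ball.inter
  apply IsOpen.inter
  · exact isOpen_lt (continuous_const.sub (Continuous.inner continuous_id continuous_const)).norm
      continuous_const
  · exact isOpen_lt continuous_const (continuous_const.sub continuous_norm)

theorem Nb_ball {k : ℕ} {w y : E} (hw : w ∈ ball (0 : E) 1) (hy : y ∈ Nb (1 / 2) k w) :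
    y ∈ ball (0 : E) 1 := by
  rcases hy with h | h
  · rw [h]; exact xq_ball hw
  · rw [mem_ball, dist_eq_norm] at h
    have h1 := xp_pos (k := k) hw
    have h2 := xp_ball (k := k) hw
    rw [mem_ball_zero_iff] at h2 ⊢
    have : ‖y‖ ≤ ‖y - xp k w‖ + ‖xp k w‖ := by
      calc ‖y‖ = ‖(y - xp k w) + xp k w‖ := by congr 1; abel
        _ ≤ _ := norm_add_le _ _
    linarith

theorem geoT {σ : ℝ} {κ κ' k : ℕ} (hκ : κ ≤ k) (hk : k < κ') (h8 : 8 * (1 / 2) ^ κ ≤ σ) {a w y : E}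
    (ha : ‖a‖ = 1) (hw : w ∈ ball (0 : E) 1) (hwa : ‖1 - ⟪(RR k : ℂ) • w, a⟫_ℂ‖ ≤ 20 * σ)
    (hy : y ∈ Nb (1 / 2) k w) : y ∈ Tn σ κ' a := by
  have ht0 := half_pow_pos k
  have ht1 := half_pow_le_one k
  have htκ : (1 / 2 : ℝ) ^ k ≤ (1 / 2) ^ κ := pow_le_pow_of_le_one (by norm_num) (by norm_num) hκ
  have htκ' : 2 * (1 / 2 : ℝ) ^ κ' ≤ (1 / 2) ^ k := by
    have : (1 / 2 : ℝ) ^ κ' ≤ (1 / 2) ^ (k + 1) :=
      pow_le_pow_of_le_one (by norm_num) (by norm_num) hk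
    rw [pow_succ] at this
    linarith
  have hκ'0 := half_pow_pos κ'
  have hw1 := mem_ball_zero_iff.mp hw
  have hw0 := norm_nonneg w
  have hsc : ∀ l : ℕ, ‖1 - ⟪(rr l : ℂ) • (RR k : ℂ) • w, a⟫_ℂ‖ ≤ 20 * σ + (1 / 2) ^ l := by
    intro l
    have e1 : 1 - ⟪(rr l : ℂ) • (RR k : ℂ) • w, a⟫_ℂ =
        (rr l : ℂ) * (1 - ⟪(RR k : ℂ) • w, a⟫_ℂ) + (((1 / 2) ^ l : ℝ) : ℂ) := by
      rw [inner_smul_left, Complex.conj_ofReal]
      unfold rr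
      push_cast
      ring
    rw [e1]
    refine (norm_add_le _ _).trans ?_
    rw [norm_mul, Complex.norm_real, Complex.norm_real, Real.norm_of_nonneg (rr_nonneg l),
      Real.norm_of_nonneg (half_pow_pos l).le]
    have h1 := rr_lt_one l
    have h2 := rr_nonneg l
    have h3 : rr l * ‖1 - ⟪(RR k : ℂ) • w, a⟫_ℂ‖ ≤ 1 * (20 * σ) := by gcongr
    linarith
  refine ⟨Nb_ball hw hy, ?_, ?_⟩
  · rcases hy with h | h
    · rw [h, xq]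
      refine (hsc (k + 1)).trans_lt ?_
      rw [pow_succ]
      linarith
    · rw [mem_ball, dist_eq_norm] at h
      have h1 := hsc k
      have h2 := one_sub_norm_le (a := xp k w) ha.le
      have e1 : 1 - ⟪y, a⟫_ℂ = (1 - ⟪xp k w, a⟫_ℂ) - ⟪y - xp k w, a⟫_ℂ := by
        rw [inner_sub_left]; ring
      have h3 : ‖⟪y - xp k w, a⟫_ℂ‖ ≤ ‖y - xp k w‖ := by
        have := norm_inner_le_norm (y - xp k w) a (𝕜 := ℂ)
        rwa [ha, mul_one] at this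
      rw [e1]
      refine (norm_sub_le _ _).trans_lt ?_
      change ‖1 - ⟪xp k w, a⟫_ℂ‖ ≤ _ at h1
      linarith
  · have hn : ∀ l : ℕ, ‖(rr l : ℂ) • (RR k : ℂ) • w‖ ≤ rr l * RR k := by
      intro l
      rw [norm_smul, norm_smul, Complex.norm_real, Complex.norm_real,
        Real.norm_of_nonneg (RR_pos k).le, Real.norm_of_nonneg (rr_nonneg l)]
      have := RR_pos k
      have := rr_nonneg l
      calc rr l * (RR k * ‖w‖) ≤ rr l * (RR k * 1) := by gcongr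
        _ = _ := by ring
    rcases hy with h | h
    · rw [h, xq]
      have h1 := hn (k + 1)
      have h2 : rr (k + 1) * RR k ≤ 1 - 7 / 16 * (1 / 2) ^ k := by
        unfold rr RR
        rw [pow_succ]
        nlinarith
      linarith
    · rw [mem_ball, dist_eq_norm] at h
      have h1 := hn k
      have h2 : rr k * RR k ≤ 1 - 15 / 16 * (1 / 2) ^ k := by
        unfold rr RR
        nlinarith
      have h3 : ‖y‖ ≤ ‖y - xp k w‖ + ‖xp k w‖ := by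
        calc ‖y‖ = ‖(y - xp k w) + xp k w‖ := by congr 1; abel
          _ ≤ _ := norm_add_le _ _
      change ‖xp k w‖ ≤ _ at h1
      linarith

theorem geoS {σ : ℝ} {κ k : ℕ} (hκ : κ ≤ k) (h8 : 8 * (1 / 2) ^ κ ≤ σ) {a w z : E}
    (ha : ‖a‖ = 1) (hw : ‖w‖ ≤ 1) (hz : ‖z‖ ≤ 1) (hwz : ‖1 - ⟪w, z⟫_ℂ‖ < σ)
    (hza : ‖1 - ⟪(RR k : ℂ) • z, a⟫_ℂ‖ < 4 * σ) : ‖1 - ⟪(RR k : ℂ) • w, a⟫_ℂ‖ ≤ 20 * σ := by
  have hσ : 0 < σ := lt_of_lt_of_le (by positivity) h8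
  have htκ : (1 / 2 : ℝ) ^ k ≤ (1 / 2) ^ κ := pow_le_pow_of_le_one (by norm_num) (by norm_num) hκ
  have hR : RR k ≤ 1 + σ / 128 := by unfold RR; linarith
  have hR2 : RR k ≤ 17 / 16 := by
    unfold RR; have := half_pow_le_one k; linarith
  have h1 := geo1 hσ ha hw hz hwz.le (ker_shift (one_lt_RR k).le hR ha hz hza.le)
  have h2 : √‖1 - ⟪w, z⟫_ℂ‖ * √σ ≤ σ := by
    calc √‖1 - ⟪w, z⟫_ℂ‖ * √σ ≤ √σ * √σ := by gcongr
      _ = σ := Real.mul_self_sqrt hσ.le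
  have e1 : 1 - ⟪(RR k : ℂ) • w, a⟫_ℂ = (1 - ⟪(RR k : ℂ) • z, a⟫_ℂ) -
      (RR k : ℂ) * ⟪w - z, a⟫_ℂ := by
    rw [inner_smul_left, inner_smul_left, Complex.conj_ofReal, inner_sub_left]
    ring
  rw [e1]
  refine (norm_sub_le _ _).trans ?_
  rw [norm_mul, Complex.norm_real, Real.norm_of_nonneg (RR_pos k).le]
  have h3 : RR k * ‖⟪w - z, a⟫_ℂ‖ ≤ 17 / 16 * (7.1 * σ) := by
    have := RR_pos k
    have : ‖⟪w - z, a⟫_ℂ‖ ≤ 7.1 * σ := by linarith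
    gcongr
  linarith

end Pool.Agent.MPca0fc2.VL
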