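import Mathlib
import Pool.Agent.Lib.MP_ca0fc2_an.SLPot
import Pool.Agent.Lib.MP_ca0fc2_an.SLReg

set_option autoImplicit false

open Metric Set Filter Topology
open scoped InnerProductSpace

namespace Pool.Agent.MPca0fc2.VL

open Pool.Agent.MPca0fc2.SD
open Pool.Agent.MPca0fc2.SL

/-- the profile of the hysteresis -/
noncomputable def yy (ρ s : ℝ) : ℝ := min 1 (max 0 (ρ / s - 1))

theorem yy_nonneg (ρ s : ℝ) : 0 ≤ yy ρ s := le_min zero_le_one (le_max_left _ _)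

theorem yy_le_one (ρ s : ℝ) : yy ρ s ≤ 1 := min_le_left _ _

theorem yy_mul {ρ s : ℝ} (hρ : 0 < ρ) (hs : 0 ≤ s) : yy ρ s * s = min s (max 0 (ρ - s)) := by
  rcases eq_or_lt_of_le hs with h | h
  · rw [← h]; simp [hρ.le]
  · unfold yy
    rw [min_mul_of_nonneg _ _ hs, max_mul_of_nonneg _ _ hs, one_mul, zero_mul]
    congr 2
    field_simp

theorem yy_mul_le {ρ s : ℝ} (hρ : 0 < ρ) (hs : 0 ≤ s) : yy ρ s * s ≤ ρ / 2 := by
  rw [yy_mul hρ hs]
  rcases le_total s (ρ / 2) with h | h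
  · exact (min_le_left _ _).trans h
  · exact (min_le_right _ _).trans (max_le (by linarith) (by linarith))

variable {W : Type*} [NormedAddCommGroup W] [InnerProductSpace ℂ W]

/-- the radial contraction -/
noncomputable def yv (ρ : ℝ) (v : W) : W := (yy ρ ‖v‖ : ℂ) • v

theorem norm_yv (ρ : ℝ) (v : W) : ‖yv ρ v‖ = yy ρ ‖v‖ * ‖v‖ := by
  rw [yv, norm_smul, Complex.norm_real, Real.norm_of_nonneg (yy_nonneg _ _)]

theorem yv_lip {ρ : ℝ} (hρ : 0 < ρ) (v v' : W) : ‖yv ρ v - yv ρ v'‖ ≤ ‖v - v'‖ := by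
  apply le_of_sq_le_sq _ (norm_nonneg _)
  have h1 := norm_sub_sq (𝕜 := ℂ) v v'
  have h2 := norm_sub_sq (𝕜 := ℂ) (yv ρ v) (yv ρ v')
  have h3 : RCLike.re ⟪yv ρ v, yv ρ v'⟫_ℂ = yy ρ ‖v‖ * yy ρ ‖v'‖ * RCLike.re ⟪v, v'⟫_ℂ := by
    rw [yv, yv, inner_smul_left, inner_smul_right, Complex.conj_ofReal, ← mul_assoc,
      ← Complex.ofReal_mul]
    exact Complex.re_ofReal_mul _ _
  rw [h1, h2, h3, norm_yv, norm_yv]
  set s := ‖v‖ with hs
  set s' := ‖v'‖ with hs'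
  set a := yy ρ s with ha
  set a' := yy ρ s' with ha'
  have hs0 : 0 ≤ s := norm_nonneg _
  have hs0' : 0 ≤ s' := norm_nonneg _
  have ha0 : 0 ≤ a := yy_nonneg _ _
  have ha0' : 0 ≤ a' := yy_nonneg _ _
  have ha1 : a ≤ 1 := yy_le_one _ _
  have ha1' : a' ≤ 1 := yy_le_one _ _
  have hc : RCLike.re ⟪v, v'⟫_ℂ ≤ s * s' :=
    (RCLike.re_le_norm _).trans (norm_inner_le_norm _ _)
  have hy : |a * s - a' * s'| ≤ |s - s'| := by
    rw [ha, ha', yy_mul hρ hs0, yy_mul hρ hs0']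
    have e1 := abs_min_sub_min_le_max s (max 0 (ρ - s)) s' (max 0 (ρ - s'))
    refine e1.trans (max_le le_rfl ?_)
    have e2 := abs_max_sub_max_le_max 0 (ρ - s) 0 (ρ - s')
    refine e2.trans (max_le ?_ ?_)
    · simp
    · rw [show ρ - s - (ρ - s') = -(s - s') by ring, abs_neg]
  have hy2 : (a * s - a' * s') ^ 2 ≤ (s - s') ^ 2 := sq_le_sq.mpr hy
  have haa : a * a' ≤ 1 := mul_le_one₀ ha1 ha0' ha1'
  have haa0 : 0 ≤ a * a' := mul_nonneg ha0 ha0'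
  nlinarith

/-- the new base -/
noncomputable def hy (ρ : ℝ) (β υ : W) : W := υ - yv ρ (υ - β)

theorem hy_dist {ρ : ℝ} (hρ : 0 < ρ) (β υ : W) : ‖υ - hy ρ β υ‖ ≤ ρ / 2 := by
  rw [hy, sub_sub_cancel, norm_yv]
  exact yy_mul_le hρ (norm_nonneg _)

theorem hy_sub (ρ : ℝ) (β υ : W) : ‖hy ρ β υ - β‖ = ‖υ - β‖ - yy ρ ‖υ - β‖ * ‖υ - β‖ := by
  have e1 : hy ρ β υ - β = ((1 - yy ρ ‖υ - β‖ : ℝ) : ℂ) • (υ - β) := by
    rw [hy, yv]
    push_cast
    module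
  rw [e1, norm_smul, Complex.norm_real,
    Real.norm_of_nonneg (by have := yy_le_one ρ ‖υ - β‖; linarith)]
  ring

/-- the base does not move when it is near -/
theorem hy_far {ρ : ℝ} (hρ : 0 < ρ) (β υ : W) (h : ρ ≤ ‖υ - β‖) : ‖hy ρ β υ - β‖ = ‖υ - β‖ := by
  rw [hy_sub, yy_mul hρ (norm_nonneg _), max_eq_left (by linarith),
    min_eq_right (norm_nonneg _), sub_zero]

/-- the gain of the potential when the base moves -/
theorem hy_gain {ρ : ℝ} (hρ : 0 < ρ) (β υ : W) :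
    ρ / 4 * ‖hy ρ β υ - β‖ ≤ gp (hy ρ β υ) υ - gp β υ := by
  rw [hy_sub]
  have h1 : gp (hy ρ β υ) υ - gp β υ = (‖υ - β‖ ^ 2 - (yy ρ ‖υ - β‖ * ‖υ - β‖) ^ 2) / 2 := by
    unfold gp
    have : ‖υ - hy ρ β υ‖ = yy ρ ‖υ - β‖ * ‖υ - β‖ := by rw [hy, sub_sub_cancel, norm_yv]
    rw [this]; ring
  rw [h1]
  set s := ‖υ - β‖ with hs
  have hs0 : 0 ≤ s := norm_nonneg _
  have hy0 : 0 ≤ yy ρ s * s := mul_nonneg (yy_nonneg _ _) hs0
  have hy1 : yy ρ s * s ≤ s := by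
    have := yy_le_one ρ s
    nlinarith
  rcases le_or_gt s (ρ / 2) with h | h
  · have : yy ρ s * s = s := by
      rw [yy_mul hρ hs0, max_eq_right (by linarith), min_eq_left (by linarith)]
    rw [this]; simp
  · nlinarith

theorem hy_lip {ρ : ℝ} (hρ : 0 < ρ) (β β' υ υ' : W) :
    ‖hy ρ β υ - hy ρ β' υ'‖ ≤ ‖β - β'‖ + 2 * ‖υ - υ'‖ := by
  have h1 := yv_lip hρ (υ - β) (υ' - β')
  have e1 : hy ρ β υ - hy ρ β' υ' = (υ - υ') - (yv ρ (υ - β) - yv ρ (υ' - β')) := by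
    rw [hy, hy]; abel
  have e2 : υ - β - (υ' - β') = (υ - υ') - (β - β') := by abel
  rw [e1]
  refine (norm_sub_le _ _).trans ?_
  rw [e2] at h1
  have h2 := norm_sub_le (υ - υ') (β - β')
  linarith

theorem hy_cont {X : Type*} [TopologicalSpace X] {ρ : ℝ} (hρ : 0 < ρ) {b v : X → W} {S : Set X}
    (hb : ContinuousOn b S) (hv : ContinuousOn v S) : ContinuousOn (fun x => hy ρ (b x) (v x)) S := by
  have h1 : Continuous (yv ρ : W → W) := by
    have : LipschitzWith 1 (yv ρ : W → W) := LipschitzWith.of_dist_le_mul fun x y => by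
      rw [dist_eq_norm, dist_eq_norm, NNReal.coe_one, one_mul]
      exact yv_lip hρ x y
    exact this.continuous
  exact hv.sub (h1.comp_continuousOn (hv.sub hb))

variable {E : Type*} [NormedAddCommGroup E] [InnerProductSpace ℂ E]

/-- the base fields -/
noncomputable def bb (ρ : ℝ) (u : E → W) (κ : ℕ → ℕ) : ℕ → E → W
  | 0, z => u ((rr (κ 0) : ℂ) • z)
  | n + 1, z => hy ρ (bb ρ u κ n z) (u ((rr (κ (n + 1)) : ℂ) • z))

theorem bb_dist {ρ : ℝ} (hρ : 0 < ρ) (u : E → W) (κ : ℕ → ℕ) (n : ℕ) (z : E) :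
    ‖u ((rr (κ n) : ℂ) • z) - bb ρ u κ n z‖ ≤ ρ / 2 := by
  cases n with
  | zero => rw [bb, sub_self, norm_zero]; positivity
  | succ n => exact hy_dist hρ _ _

theorem bb_cont {ρ : ℝ} (hρ : 0 < ρ) {u : E → W} {κ : ℕ → ℕ} (hκ : Monotone κ)
    (hu : DifferentiableOn ℂ u (ball 0 1)) {k : ℕ} :
    ∀ n, κ n ≤ k + 1 → ContinuousOn (fun w : E => bb ρ u κ n ((RR k : ℂ) • w)) (ball 0 1) := by
  intro n
  induction n with
  | zero =>
    intro h
    simp only [bb]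
    exact (u_cont hu h).continuousOn
  | succ n ih =>
    intro h
    simp only [bb]
    exact hy_cont hρ (ih ((hκ (Nat.le_succ n)).trans h)) (u_cont hu h).continuousOn

theorem hx_succ (q : ℝ) (j : ℕ) : hx q j ≤ (19 / 22) * hx q (j + 1) := by
  have e1 : hx q (j + 1) = hx q j * Real.exp (Real.log 2 / 4) := by
    rw [hx, hx, ← Real.exp_add]
    congr 1
    push_cast; ring
  rw [e1]
  have h1 := exp_quarter_log_two.1
  have h2 := hx_pos q j
  nlinarith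

/-- the oscillation of the base fields -/
theorem bb_osc {ρ : ℝ} (hρ : 0 < ρ) {u : E → W} {e : ℕ → ℝ} (he : Slow e) (hu : Osc u e)
    {κ : ℕ → ℕ} (hκ : StrictMono κ) {k : ℕ} {a b : E} (ha : ‖a‖ ≤ 1) (hb : ‖b‖ ≤ 1) :
    ∀ n, κ n ≤ k + 1 → ‖bb ρ u κ n ((RR k : ℂ) • a) - bb ρ u κ n ((RR k : ℂ) • b)‖ ≤
      28000 * (e (κ n) * hx (‖1 - ⟪a, b⟫_ℂ‖ + (1 / 2) ^ k) (κ n)) := by
  set q := ‖1 - ⟪a, b⟫_ℂ‖ + (1 / 2) ^ k with hq
  have hmono : ∀ i j : ℕ, i ≤ j → e i * hx q i ≤ (19 / 20) ^ (j - i) * (e j * hx q j) := by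
    intro i j hij
    obtain ⟨d, rfl⟩ := Nat.exists_eq_add_of_le hij
    rw [Nat.add_sub_cancel_left]
    induction d with
    | zero => simp
    | succ d ih =>
      refine (ih (Nat.le_add_right i d)).trans ?_
      have h1 := he.down (i + d)
      have h2 := hx_succ q (i + d)
      have h3 := he.nonneg (i + d)
      have h4 := he.nonneg (i + d + 1)
      have h5 := hx_pos q (i + d)
      have h6 := hx_pos q (i + d + 1)
      have h7 : e (i + d) * hx q (i + d) ≤ (19 / 20) * (e (i + d + 1) * hx q (i + d + 1)) := by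
        calc e (i + d) * hx q (i + d) ≤ (11 / 10 * e (i + d + 1)) * (19 / 22 * hx q (i + d + 1)) := by
              gcongr
          _ = _ := by ring
      calc (19 / 20 : ℝ) ^ d * (e (i + d) * hx q (i + d))
          ≤ (19 / 20) ^ d * ((19 / 20) * (e (i + d + 1) * hx q (i + d + 1))) := by gcongr
        _ = _ := by rw [pow_succ]; ring
  have hγ : ∀ n, κ n ≤ k + 1 → ‖u ((rr (κ n) : ℂ) • (RR k : ℂ) • a) -
      u ((rr (κ n) : ℂ) • (RR k : ℂ) • b)‖ ≤ 700 * (e (κ n) * hx q (κ n)) := by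
    intro n hn
    have := hu.o2 k (κ n) hn a b ha hb
    simpa only [smul_smul, ← Complex.ofReal_mul] using this
  intro n
  induction n with
  | zero =>
    intro h
    simp only [bb]
    have h1 := hγ 0 h
    have h2 : 0 ≤ e (κ 0) * hx q (κ 0) := mul_nonneg (he.nonneg _) (hx_pos _ _).le
    linarith
  | succ n ih =>
    intro h
    simp only [bb]
    have h0 := ih ((hκ (Nat.lt_succ_self n)).le.trans h)
    have h1 := hγ (n + 1) h
    have h2 := hy_lip hρ (bb ρ u κ n ((RR k : ℂ) • a)) (bb ρ u κ n ((RR k : ℂ) • b))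
      (u ((rr (κ (n + 1)) : ℂ) • (RR k : ℂ) • a)) (u ((rr (κ (n + 1)) : ℂ) • (RR k : ℂ) • b))
    have hlt := hκ (Nat.lt_succ_self n)
    have h3 := hmono (κ n) (κ (n + 1)) hlt.le
    have h4 : 0 ≤ e (κ (n + 1)) * hx q (κ (n + 1)) := mul_nonneg (he.nonneg _) (hx_pos _ _).le
    have h5 : (19 / 20 : ℝ) ^ (κ (n + 1) - κ n) ≤ 19 / 20 := by
      have : 1 ≤ κ (n + 1) - κ n := by
        have : κ n < κ (n + 1) := hlt
        omega
      calc (19 / 20 : ℝ) ^ (κ (n + 1) - κ n) ≤ (19 / 20) ^ 1 :=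
            pow_le_pow_of_le_one (by norm_num) (by norm_num) this
        _ = _ := by norm_num
    have h6 : e (κ n) * hx q (κ n) ≤ 19 / 20 * (e (κ (n + 1)) * hx q (κ (n + 1))) := by
      refine h3.trans ?_
      gcongr
    linarith

end Pool.Agent.MPca0fc2.VL
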