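import Mathlib
import Pool.Agent.Lib.MP_ca0fc2_an.VLFam
import Pool.Agent.Lib.MP_ca0fc2_an.VLHyst
import Pool.Agent.Lib.MP_ca0fc2_an.VLMix

set_option autoImplicit false

open Metric Set Filter Topology
open scoped InnerProductSpace

namespace Pool.Agent.MPca0fc2.VL

open Pool.Agent.MPca0fc2.SD
open Pool.Agent.MPca0fc2.SL

variable {J : Type*} [Fintype J] {I : Type*} [Fintype I]
variable {E : Type*} [NormedAddCommGroup E] [InnerProductSpace ℂ E]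
variable {W : Type*} [NormedAddCommGroup W] [InnerProductSpace ℂ W]

/-- the hypotheses on one block -/
structure Blk (f : J → E → ℂ) (u : E → W) (χ : I → W → ℝ) (c : I → W) (s : I → J → E → ℂ)
    (e : ℕ → ℝ) (ρ M B L Lc Lθ σ : ℝ) (κs : ℕ → ℕ) (n : ℕ) (A : Finset E)
    (N : E → I → W → E → J → ℂ) : Prop where
  lev : Lev f u ρ M B Lc (M + ρ) χ c s
  slow : Slow e
  osc : Osc u e
  mono : StrictMono κs
  L0 : 0 ≤ L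
  Lθ0 : 0 ≤ Lθ
  e0 : 0 < e (κs n)
  σ8 : 8 * (1 / 2) ^ κs n ≤ σ
  σ1 : σ < 1
  σe : √((1 / 2) ^ κs n / σ) ≤ 8 * e (κs n)
  sm : ∀ q, 0 < q → q ≤ 2 * σ → 28700 * (e (κs n) * hx q (κs n)) ≤ ρ / 2
  unit : ∀ a ∈ A, ‖a‖ = 1
  ths : ∀ k, κs n ≤ k → ∀ w : E, ‖w‖ ≤ 1 → 1 - ‖w‖ ≤ σ →
    ∑ a ∈ A, th σ A a ((RR k : ℂ) • w) = 1
  thl : ∀ k, κs n ≤ k → ∀ w z : E, ‖w‖ ≤ 1 → ‖z‖ ≤ 1 → ‖1 - ⟪w, z⟫_ℂ‖ ≤ σ →
    ∑ a ∈ A, |th σ A a ((RR k : ℂ) • w) - th σ A a ((RR k : ℂ) • z)| ≤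
      Lθ * √(‖1 - ⟪w, z⟫_ℂ‖ / σ)
  cells : ∀ a ∈ A, Cn f u ρ B L c s (Tn σ (κs (n + 1)) a) (N a)

/-- the frozen scalar -/
noncomputable def Te (f : J → E → ℂ) (u : E → W) (χ : I → W → ℝ) (s : I → J → E → ℂ)
    (ρ C₁ C₂ : ℝ) (κs : ℕ → ℕ) (n : ℕ) (H : J → E → ℂ) (η : E → ℂ) (v z x : E) : ℂ :=
  ηv (fun j => f j x) (fun j => H j z) (mv χ s (bb ρ u κs n v) ((rr (κs n) : ℂ) • z)) (η z)
    (Xg C₁ C₂ (bb ρ u κs n v) (u ((rr (κs n) : ℂ) • v)) (u x))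

/-- the frozen vector -/
noncomputable def Tv (f : J → E → ℂ) (u : E → W) (χ : I → W → ℝ) (s : I → J → E → ℂ)
    (ρ C₁ C₂ σ : ℝ) (κs : ℕ → ℕ) (n : ℕ) (A : Finset E) (N : E → I → W → E → J → ℂ)
    (H : J → E → ℂ) (η : E → ℂ) (v z x : E) : J → ℂ :=
  hv (fun j => f j x) (fun j => H j z) (mv χ s (bb ρ u κs n v) ((rr (κs n) : ℂ) • z))
    (MM χ A N (fun a => th σ A a v) (bb ρ u κs n v) (u ((rr (κs n) : ℂ) • v)) x) (η z)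
    (Xg C₁ C₂ (bb ρ u κs n v) (u ((rr (κs n) : ℂ) • v)) (u x))

/-- the constant of a block -/
noncomputable def KT (nJ nI M ρ B L Lc Lθ P C₁ C₂ : ℝ) : ℝ :=
  (nJ * M * (Real.exp ((C₁ + C₂) * (M + ρ) * (2 * M)) * (P + (1 + P) * B)) +
    (Real.exp ((C₁ + C₂) * (M + ρ) * (2 * M)) * (P + (1 + P) * B) +
      (1 + nJ * M * (Real.exp ((C₁ + C₂) * (M + ρ) * (2 * M)) * (P + (1 + P) * B))) * B)) +
  ((nJ * M + (1 + nJ * M * B)) * ((P + (1 + P) * B) *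
      (Real.exp (3 * ((C₁ + C₂) * (M + ρ) * (2 * M))) * ((C₁ + C₂) * (2 * M + (M + ρ)))) +
      Real.exp ((C₁ + C₂) * (M + ρ) * (2 * M)) * (1 + P) * (nI * Lc * B)) +
    (1 + nJ * M * (Real.exp ((C₁ + C₂) * (M + ρ) * (2 * M)) * (P + (1 + P) * B))) *
      (nI * Lc * B + L)) * 28700 +
  (1 + nJ * M * (Real.exp ((C₁ + C₂) * (M + ρ) * (2 * M)) * (P + (1 + P) * B))) * (B * Lθ)

namespace Blk

variable {f : J → E → ℂ} {u : E → W} {χ : I → W → ℝ} {c : I → W} {s : I → J → E → ℂ}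
  {e : ℕ → ℝ} {ρ M B L Lc Lθ σ C₁ C₂ P : ℝ} {κs : ℕ → ℕ} {n : ℕ} {A : Finset E}
  {N : E → I → W → E → J → ℂ} {H : J → E → ℂ} {η : E → ℂ}

theorem σ0 (h : Blk f u χ c s e ρ M B L Lc Lθ σ κs n A N) : 0 < σ :=
  lt_of_lt_of_le (by positivity) h.σ8

theorem near (h : Blk f u χ c s e ρ M B L Lc Lθ σ κs n A N) (v : E) :
    ‖u ((rr (κs n) : ℂ) • v) - bb ρ u κs n v‖ ≤ ρ / 2 := bb_dist h.lev.ρ0 u κs n v

/-- facts at a point of the ball -/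
theorem pt (h : Blk f u χ c s e ρ M B L Lc Lθ σ κs n A N) {k : ℕ} (hk : κs n ≤ k) {w : E}
    (hw : w ∈ ball (0 : E) 1) :
    (rr (κs n) : ℂ) • (RR k : ℂ) • w ∈ ball (0 : E) 1 ∧
    ‖u ((rr (κs n) : ℂ) • (RR k : ℂ) • w)‖ ≤ M ∧
    ‖bb ρ u κs n ((RR k : ℂ) • w)‖ ≤ M + ρ := by
  have h1 : (rr (κs n) : ℂ) • (RR k : ℂ) • w ∈ ball (0 : E) 1 :=
    FC.mem_ball k (κs n) (by omega) (RR_smul_le hw)
  have h2 := h.lev.ubd _ h1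
  have h3 := h.near ((RR k : ℂ) • w)
  have hρ := h.lev.ρ0
  refine ⟨h1, h2, ?_⟩
  have e1 : bb ρ u κs n ((RR k : ℂ) • w) = u ((rr (κs n) : ℂ) • (RR k : ℂ) • w) -
      (u ((rr (κs n) : ℂ) • (RR k : ℂ) • w) - bb ρ u κs n ((RR k : ℂ) • w)) := by abel
  rw [e1]
  refine (norm_sub_le _ _).trans ?_
  linarith

/-- the oscillation of the parameters -/
theorem oscp (h : Blk f u χ c s e ρ M B L Lc Lθ σ κs n A N) {k : ℕ} (hk : κs n ≤ k) {w z : E}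
    (hw : ‖w‖ ≤ 1) (hz : ‖z‖ ≤ 1) :
    ‖bb ρ u κs n ((RR k : ℂ) • w) - bb ρ u κs n ((RR k : ℂ) • z)‖ +
      ‖u ((rr (κs n) : ℂ) • (RR k : ℂ) • w) - u ((rr (κs n) : ℂ) • (RR k : ℂ) • z)‖ ≤
      28700 * (e (κs n) * hx (‖1 - ⟪w, z⟫_ℂ‖ + (1 / 2) ^ k) (κs n)) := by
  have h1 := bb_osc h.lev.ρ0 h.slow h.osc h.mono (k := k) hw hz n (by omega)
  have h2 := h.osc.o2 k (κs n) (by omega) w z hw hz
  have e1 : ∀ x : E, ((rr (κs n) * RR k : ℝ) : ℂ) • x = (rr (κs n) : ℂ) • (RR k : ℂ) • x := by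
    intro x; rw [smul_smul, Complex.ofReal_mul]
  rw [e1, e1] at h2
  linarith

theorem slab (h : Blk f u χ c s e ρ M B L Lc Lθ σ κs n A N) {k : ℕ} (hk : κs n ≤ k) {w z : E}
    (hw : ‖w‖ ≤ 1) (hz : ‖z‖ ≤ 1) (hwz : ‖1 - ⟪w, z⟫_ℂ‖ < σ) :
    ‖bb ρ u κs n ((RR k : ℂ) • w) - bb ρ u κs n ((RR k : ℂ) • z)‖ +
      ‖u ((rr (κs n) : ℂ) • (RR k : ℂ) • w) - u ((rr (κs n) : ℂ) • (RR k : ℂ) • z)‖ ≤ ρ / 2 := by
  refine (h.oscp hk hw hz).trans (h.sm _ ?_ ?_)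
  · have := half_pow_pos k
    have := norm_nonneg (1 - ⟪w, z⟫_ℂ)
    linarith
  · have h1 : (1 / 2 : ℝ) ^ k ≤ (1 / 2) ^ κs n :=
      pow_le_pow_of_le_one (by norm_num) (by norm_num) hk
    have h2 := h.σ8
    have := half_pow_pos k
    linarith

/-- the frozen base is near -/
theorem fnear (h : Blk f u χ c s e ρ M B L Lc Lθ σ κs n A N) {k : ℕ} (hk : κs n ≤ k) {w z : E}
    (hw : ‖w‖ ≤ 1) (hz : ‖z‖ ≤ 1) (hwz : ‖1 - ⟪w, z⟫_ℂ‖ < σ) :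
    ‖u ((rr (κs n) : ℂ) • (RR k : ℂ) • w) - bb ρ u κs n ((RR k : ℂ) • z)‖ ≤ ρ := by
  have h1 := h.slab hk hw hz hwz
  have h2 := h.near ((RR k : ℂ) • z)
  have h3 := norm_nonneg (bb ρ u κs n ((RR k : ℂ) • w) - bb ρ u κs n ((RR k : ℂ) • z))
  have e1 : u ((rr (κs n) : ℂ) • (RR k : ℂ) • w) - bb ρ u κs n ((RR k : ℂ) • z) =
      (u ((rr (κs n) : ℂ) • (RR k : ℂ) • w) - u ((rr (κs n) : ℂ) • (RR k : ℂ) • z)) +
      (u ((rr (κs n) : ℂ) • (RR k : ℂ) • z) - bb ρ u κs n ((RR k : ℂ) • z)) := by abel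
  rw [e1]
  refine (norm_add_le _ _).trans ?_
  linarith

/-- the points of `Nb` are in the active tents: own parameters -/
theorem act (h : Blk f u χ c s e ρ M B L Lc Lθ σ κs n A N) {k : ℕ} (hk : κs n ≤ k)
    (hk' : k < κs (n + 1)) {w : E} (hw : w ∈ ball (0 : E) 1) {a : E} (ha : a ∈ A)
    (ht : th σ A a ((RR k : ℂ) • w) ≠ 0) {y : E} (hy : y ∈ Nb (1 / 2) k w) :
    y ∈ Tn σ (κs (n + 1)) a := by
  have hσ := h.σ0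
  exact geoT hk hk' h.σ8 (h.unit a ha) hw (by have := th_ne hσ ht; linarith) hy

/-- the points of `Nb` are in the active tents: frozen parameters -/
theorem actf (h : Blk f u χ c s e ρ M B L Lc Lθ σ κs n A N) {k : ℕ} (hk : κs n ≤ k)
    (hk' : k < κs (n + 1)) {w z : E} (hw : w ∈ ball (0 : E) 1) (hz : ‖z‖ ≤ 1)
    (hwz : ‖1 - ⟪w, z⟫_ℂ‖ < σ) {a : E} (ha : a ∈ A)
    (ht : th σ A a ((RR k : ℂ) • z) ≠ 0) {y : E} (hy : y ∈ Nb (1 / 2) k w) :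
    y ∈ Tn σ (κs (n + 1)) a := by
  have hσ := h.σ0
  exact geoT hk hk' h.σ8 (h.unit a ha) hw
    (geoS hk h.σ8 (h.unit a ha) (mem_ball_zero_iff.mp hw).le hz hwz (th_ne hσ ht)) hy

theorem f_bd (h : Blk f u χ c s e ρ M B L Lc Lθ σ κs n A N) {y : E} (hy : y ∈ ball (0 : E) 1) :
    ‖(fun j => f j y)‖ ≤ M := by
  rw [pi_norm_le_iff_of_nonneg h.lev.M0.le]
  exact fun j => h.lev.fbd j y hy

theorem MM_bd (h : Blk f u χ c s e ρ M B L Lc Lθ σ κs n A N) {k : ℕ} (hk : κs n ≤ k) {w : E}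
    (hw : w ∈ ball (0 : E) 1) (γ : W) (y : E) :
    ‖MM χ A N (fun a => th σ A a ((RR k : ℂ) • w)) (bb ρ u κs n ((RR k : ℂ) • w)) γ y‖ ≤ B :=
  norm_MM_le h.lev h.cells (fun a => th_nonneg _ _ _ _) (th_sum_le _ _ _) (h.pt hk hw).2.2 γ y

theorem X_bd (h : Blk f u χ c s e ρ M B L Lc Lθ σ κs n A N) (hC₁ : 0 ≤ C₁) (hC₂ : 0 ≤ C₂)
    {k : ℕ} (hk : κs n ≤ k) {w : E} (hw : w ∈ ball (0 : E) 1) {y : E} (hy : y ∈ ball (0 : E) 1) :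
    ‖Xg C₁ C₂ (bb ρ u κs n ((RR k : ℂ) • w)) (u ((rr (κs n) : ℂ) • (RR k : ℂ) • w)) (u y)‖ ≤
      Real.exp ((C₁ + C₂) * (M + ρ) * (2 * M)) := by
  obtain ⟨-, h2, h3⟩ := h.pt hk hw
  have hρ := h.lev.ρ0
  exact Xg_bd hC₁ hC₂ h3 h2 (h.lev.ubd y hy) (by linarith)

/-- holomorphy of the factor -/
theorem X_diff {β γ : W} {S : Set E} {g : E → W} (hg : DifferentiableOn ℂ g S) :
    DifferentiableOn ℂ (fun x => Xg C₁ C₂ β γ (g x)) S := by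
  unfold Xg
  apply DifferentiableOn.cexp
  exact (innerSL ℂ ((C₁ : ℂ) • β + (C₂ : ℂ) • γ)).differentiable.comp_differentiableOn
    (hg.sub_const γ)

theorem X_cont {X : Type*} [TopologicalSpace X] {S : Set X} {β γ υ : X → W}
    (hβ : ContinuousOn β S) (hγ : ContinuousOn γ S) (hυ : ContinuousOn υ S) :
    ContinuousOn (fun x => Xg C₁ C₂ (β x) (γ x) (υ x)) S := by
  unfold Xg
  apply ContinuousOn.cexp
  apply ContinuousOn.inner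
  · exact (hβ.const_smul (C₁ : ℂ)).add (hγ.const_smul (C₂ : ℂ))
  · exact hυ.sub hγ

theorem ball_sub {k : ℕ} {w : E} (hw : w ∈ ball (0 : E) 1) :
    ball (xp k w) (1 / 2 * (1 - ‖xp k w‖)) ⊆ ball (0 : E) 1 :=
  fun _ hy => Nb_ball hw (Or.inr hy)

theorem m_bd (h : Blk f u χ c s e ρ M B L Lc Lθ σ κs n A N) {k : ℕ} (hk : κs n ≤ k) {w : E}
    (hw : w ∈ ball (0 : E) 1) :
    ‖mv χ s (bb ρ u κs n ((RR k : ℂ) • w)) ((rr (κs n) : ℂ) • (RR k : ℂ) • w)‖ ≤ B := by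
  obtain ⟨h1, h2, h3⟩ := h.pt hk hw
  have hρ := h.lev.ρ0
  exact h.lev.norm_mv_le h3 h1 (by have := h.near ((RR k : ℂ) • w); linarith)

theorem m_bdf (h : Blk f u χ c s e ρ M B L Lc Lθ σ κs n A N) {k : ℕ} (hk : κs n ≤ k) {w z : E}
    (hw : w ∈ ball (0 : E) 1) (hz : z ∈ ball (0 : E) 1) (hwz : ‖1 - ⟪w, z⟫_ℂ‖ < σ) :
    ‖mv χ s (bb ρ u κs n ((RR k : ℂ) • z)) ((rr (κs n) : ℂ) • (RR k : ℂ) • w)‖ ≤ B := by
  obtain ⟨h1, -, -⟩ := h.pt hk hw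
  obtain ⟨-, -, h3⟩ := h.pt hk hz
  have hρ := h.lev.ρ0
  exact h.lev.norm_mv_le h3 h1 (by
    have := h.fnear hk (mem_ball_zero_iff.mp hw).le (mem_ball_zero_iff.mp hz).le hwz
    linarith)

/-- the state is bounded -/
structure St (P : ℝ) (κ : ℕ) (H : J → E → ℂ) (η : E → ℂ) : Prop where
  P0 : 0 ≤ P
  Hhol : ∀ j, DifferentiableOn ℂ (H j) (ball 0 (RR κ))
  ηhol : DifferentiableOn ℂ η (ball 0 (RR κ))
  Hbd : ∀ z ∈ ball (0 : E) (RR κ), ‖(fun j => H j z)‖ ≤ P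
  ηbd : ∀ z ∈ ball (0 : E) (RR κ), ‖η z‖ ≤ P

theorem RR_anti {i j : ℕ} (hij : i ≤ j) : RR j ≤ RR i := by
  unfold RR
  have : ((1 : ℝ) / 2) ^ j ≤ (1 / 2) ^ i := pow_le_pow_of_le_one (by norm_num) (by norm_num) hij
  linarith

theorem RR_mem {κ k : ℕ} (hk : κ ≤ k) {w : E} (hw : w ∈ ball (0 : E) 1) :
    (RR k : ℂ) • w ∈ ball (0 : E) (RR κ) :=
  ball_subset_ball (RR_anti hk) (RR_smul_mem hw)

theorem St.Hd {κ k : ℕ} (hS : St P κ H η) (hk : κ ≤ k) :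
    DifferentiableOn ℂ (fun w : E => (fun j => H j ((RR k : ℂ) • w))) (ball 0 1) := by
  rw [differentiableOn_pi]
  intro j
  exact (hS.Hhol j).comp (differentiable_id.const_smul (RR k : ℂ)).differentiableOn
    fun w hw => RR_mem hk hw

theorem St.ηd {κ k : ℕ} (hS : St P κ H η) (hk : κ ≤ k) :
    DifferentiableOn ℂ (fun w : E => η ((RR k : ℂ) • w)) (ball 0 1) :=
  hS.ηhol.comp (differentiable_id.const_smul (RR k : ℂ)).differentiableOn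
    fun w hw => RR_mem hk hw

theorem f_diff (h : Blk f u χ c s e ρ M B L Lc Lθ σ κs n A N) :
    DifferentiableOn ℂ (fun x : E => (fun j => f j x)) (ball 0 1) :=
  differentiableOn_pi.mpr fun j => h.lev.fhol j

end Blk

end Pool.Agent.MPca0fc2.VL
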