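import Mathlib
import Pool.Agent.Lib.MP_ca0fc2_an.VLTh

set_option autoImplicit false

open Metric Set Filter Topology
open scoped InnerProductSpace

namespace Pool.Agent.MPca0fc2.VL

open Pool.Agent.MPca0fc2.SD
open Pool.Agent.MPca0fc2.SL

variable {J : Type*} [Fintype J] {I : Type*} [Fintype I]
variable {E : Type*} [NormedAddCommGroup E] [InnerProductSpace ℂ E]
variable {W : Type*} [NormedAddCommGroup W] [InnerProductSpace ℂ W]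

theorem KT_facts {nJ nI M ρ B L Lc Lθ P C₁ C₂ : ℝ} (hnJ : 0 ≤ nJ) (hnI : 0 ≤ nI) (hM : 0 ≤ M)
    (hρ : 0 ≤ ρ) (hB : 0 ≤ B) (hL : 0 ≤ L) (hLc : 0 ≤ Lc) (hLθ : 0 ≤ Lθ) (hP : 0 ≤ P)
    (hC₁ : 0 ≤ C₁) (hC₂ : 0 ≤ C₂) {X₀ X₁ u₀ : ℝ}
    (hX₀ : X₀ = Real.exp ((C₁ + C₂) * (M + ρ) * (2 * M)))
    (hX₁ : X₁ = Real.exp (3 * ((C₁ + C₂) * (M + ρ) * (2 * M))) * ((C₁ + C₂) * (2 * M + (M + ρ))))
    (hu₀ : u₀ = P + (1 + P) * B) :
    0 ≤ KT nJ nI M ρ B L Lc Lθ P C₁ C₂ ∧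
    nJ * M * (X₀ * u₀) ≤ KT nJ nI M ρ B L Lc Lθ P C₁ C₂ ∧
    X₀ * u₀ + (1 + nJ * M * (X₀ * u₀)) * B ≤ KT nJ nI M ρ B L Lc Lθ P C₁ C₂ ∧
    (nJ * M * (u₀ * X₁ + X₀ * (1 + P) * (nI * Lc * B))) * 28700 ≤
      KT nJ nI M ρ B L Lc Lθ P C₁ C₂ ∧
    ((1 + nJ * M * B) * (u₀ * X₁ + X₀ * (1 + P) * (nI * Lc * B)) +
      (1 + nJ * M * (X₀ * u₀)) * (nI * Lc * B + L)) * 28700 ≤
      KT nJ nI M ρ B L Lc Lθ P C₁ C₂ ∧
    (1 + nJ * M * (X₀ * u₀)) * (B * Lθ) ≤ KT nJ nI M ρ B L Lc Lθ P C₁ C₂ := by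
  unfold KT
  rw [← hX₀, ← hX₁, ← hu₀]
  have hX₀0 : 0 ≤ X₀ := by rw [hX₀]; positivity
  have hX₁0 : 0 ≤ X₁ := by rw [hX₁]; positivity
  have hu₀0 : 0 ≤ u₀ := by rw [hu₀]; positivity
  have a1 : 0 ≤ nJ * M * (X₀ * u₀) := by positivity
  have a2 : 0 ≤ X₀ * u₀ + (1 + nJ * M * (X₀ * u₀)) * B := by positivity
  have a3 : 0 ≤ u₀ * X₁ + X₀ * (1 + P) * (nI * Lc * B) := by positivity
  have a4 : 0 ≤ nJ * M := by positivity
  have a5 : 0 ≤ 1 + nJ * M * B := by positivity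
  have a6 : 0 ≤ (1 + nJ * M * (X₀ * u₀)) * (nI * Lc * B + L) := by positivity
  have a7 : 0 ≤ (1 + nJ * M * (X₀ * u₀)) * (B * Lθ) := by positivity
  have a8 := mul_nonneg a4 a3
  have a9 := mul_nonneg a5 a3
  refine ⟨by positivity, ?_, ?_, ?_, ?_, ?_⟩ <;> nlinarith

theorem num_e {NM b₀ Δ x y D m₁ m₂ d u₀ X₁ X' KK Lm : ℝ} (hNM : 0 ≤ NM) (hu₀ : 0 ≤ u₀)
    (hX' : 0 ≤ X') (hb₀ : b₀ = u₀ * X₁ + X' * Lm) (hb₀0 : 0 ≤ b₀) (hx : 0 ≤ x) (hy : 0 ≤ y)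
    (hΔ : Δ ≤ 28700 * x) (h1 : m₁ ≤ X₁ * Δ) (h2 : m₂ ≤ Lm * Δ)
    (hd : d ≤ NM * (u₀ * m₁ + X' * m₂)) (hK : (NM * b₀) * 28700 ≤ KK) (hK0 : 0 ≤ KK)
    (hD : D = 8 * x + 8 * y) : d ≤ KK * D := by
  have h3 : u₀ * m₁ + X' * m₂ ≤ b₀ * Δ := by
    have g1 : u₀ * m₁ ≤ u₀ * (X₁ * Δ) := mul_le_mul_of_nonneg_left h1 hu₀
    have g2 : X' * m₂ ≤ X' * (Lm * Δ) := mul_le_mul_of_nonneg_left h2 hX'
    rw [hb₀]; linarith
  have h4 : b₀ * Δ ≤ b₀ * (28700 * x) := mul_le_mul_of_nonneg_left hΔ hb₀0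
  have h5 : NM * (u₀ * m₁ + X' * m₂) ≤ NM * (b₀ * (28700 * x)) :=
    mul_le_mul_of_nonneg_left (h3.trans h4) hNM
  have h6 : NM * b₀ * 28700 * x ≤ KK * x := mul_le_mul_of_nonneg_right hK hx
  have h7 := mul_nonneg hK0 hx
  have h8 := mul_nonneg hK0 hy
  rw [hD]
  linarith

theorem num_v {NB NX b₀ Δ x y D m₁ m₂ m₃ d u₀ X₁ X' KK Lm Lm' L B Lθ S : ℝ} (hNB : 0 ≤ NB)
    (hNX : 0 ≤ NX) (hu₀ : 0 ≤ u₀)
    (hX' : 0 ≤ X') (hb₀ : b₀ = u₀ * X₁ + X' * Lm) (hb₀0 : 0 ≤ b₀) (hx : 0 ≤ x) (hy : 0 ≤ y)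
    (hΔ : Δ ≤ 28700 * x) (h1 : m₁ ≤ X₁ * Δ) (h2 : m₂ ≤ Lm * Δ)
    (h3 : m₃ ≤ (Lm' + L) * Δ + B * S) (hL : 0 ≤ Lm' + L) (hB : 0 ≤ B) (hS : S ≤ Lθ * (8 * y))
    (hd : d ≤ NB * (u₀ * m₁ + X' * m₂) + NX * m₃)
    (hK : (NB * b₀ + NX * (Lm' + L)) * 28700 ≤ KK) (hK' : NX * (B * Lθ) ≤ KK) (hK0 : 0 ≤ KK)
    (hD : D = 8 * x + 8 * y) : d ≤ KK * D := by
  have h4 : u₀ * m₁ + X' * m₂ ≤ b₀ * Δ := by
    have g1 : u₀ * m₁ ≤ u₀ * (X₁ * Δ) := mul_le_mul_of_nonneg_left h1 hu₀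
    have g2 : X' * m₂ ≤ X' * (Lm * Δ) := mul_le_mul_of_nonneg_left h2 hX'
    rw [hb₀]; linarith
  have h5 : b₀ * Δ ≤ b₀ * (28700 * x) := mul_le_mul_of_nonneg_left hΔ hb₀0
  have h6 : NB * (u₀ * m₁ + X' * m₂) ≤ NB * (b₀ * (28700 * x)) :=
    mul_le_mul_of_nonneg_left (h4.trans h5) hNB
  have h7 : m₃ ≤ (Lm' + L) * (28700 * x) + B * (Lθ * (8 * y)) := by
    have g1 : (Lm' + L) * Δ ≤ (Lm' + L) * (28700 * x) := mul_le_mul_of_nonneg_left hΔ hL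
    have g2 : B * S ≤ B * (Lθ * (8 * y)) := mul_le_mul_of_nonneg_left hS hB
    linarith
  have h8 : NX * m₃ ≤ NX * ((Lm' + L) * (28700 * x) + B * (Lθ * (8 * y))) :=
    mul_le_mul_of_nonneg_left h7 hNX
  have h9 : (NB * b₀ + NX * (Lm' + L)) * 28700 * x ≤ KK * x := mul_le_mul_of_nonneg_right hK hx
  have h10 : NX * (B * Lθ) * (8 * y) ≤ KK * (8 * y) :=
    mul_le_mul_of_nonneg_right hK' (by linarith)
  have h11 := mul_nonneg hK0 hx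
  rw [hD]
  linarith

namespace Blk

variable {f : J → E → ℂ} {u : E → W} {χ : I → W → ℝ} {c : I → W} {s : I → J → E → ℂ}
  {e : ℕ → ℝ} {ρ M B L Lc Lθ σ C₁ C₂ P : ℝ} {κs : ℕ → ℕ} {n : ℕ} {A : Finset E}
  {N : E → I → W → E → J → ℂ} {H : J → E → ℂ} {η : E → ℂ}

theorem own_bd (h : Blk f u χ c s e ρ M B L Lc Lθ σ κs n A N) (hC₁ : 0 ≤ C₁) (hC₂ : 0 ≤ C₂)
    (hS : St P (κs n) H η) {k : ℕ} (hk : κs n ≤ k) {w : E}
    (hw : w ∈ ball (0 : E) 1) {y : E} (hy : y ∈ ball (0 : E) 1) :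
    ‖Te f u χ s ρ C₁ C₂ κs n H η ((RR k : ℂ) • w) ((RR k : ℂ) • w) y‖ ≤
      Fintype.card J * M * (Real.exp ((C₁ + C₂) * (M + ρ) * (2 * M)) * (P + (1 + P) * B)) ∧
    ‖Tv f u χ s ρ C₁ C₂ σ κs n A N H η ((RR k : ℂ) • w) ((RR k : ℂ) • w) y‖ ≤
      Real.exp ((C₁ + C₂) * (M + ρ) * (2 * M)) * (P + (1 + P) * B) +
      (1 + Fintype.card J * M *
        (Real.exp ((C₁ + C₂) * (M + ρ) * (2 * M)) * (P + (1 + P) * B))) * B :=
  hv_bd (h.f_bd hy) hS.P0 h.lev.B0 (hS.Hbd _ (RR_mem hk hw)) (hS.ηbd _ (RR_mem hk hw))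
    (h.m_bd hk hw) (h.MM_bd hk hw _ y) (h.X_bd hC₁ hC₂ hk hw hy)

theorem own_diff (h : Blk f u χ c s e ρ M B L Lc Lθ σ κs n A N) {k : ℕ} (hk : κs n ≤ k)
    (hk' : k < κs (n + 1)) {w : E} (hw : w ∈ ball (0 : E) 1) :
    DifferentiableOn ℂ (Te f u χ s ρ C₁ C₂ κs n H η ((RR k : ℂ) • w) ((RR k : ℂ) • w))
      (ball (xp k w) (1 / 2 * (1 - ‖xp k w‖))) ∧
    DifferentiableOn ℂ (Tv f u χ s ρ C₁ C₂ σ κs n A N H η ((RR k : ℂ) • w) ((RR k : ℂ) • w))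
      (ball (xp k w) (1 / 2 * (1 - ‖xp k w‖))) := by
  have hsub := ball_sub (k := k) hw
  constructor
  · exact ηv_diffOn (h.f_diff.mono hsub) (differentiableOn_const _) (differentiableOn_const _)
      (differentiableOn_const _) (X_diff (h.lev.uhol.mono hsub))
  · refine hv_diffOn (h.f_diff.mono hsub) (differentiableOn_const _) (differentiableOn_const _)
      ?_ (differentiableOn_const _) (X_diff (h.lev.uhol.mono hsub))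
    exact MM_hol h.lev h.cells (h.near _) fun a ha ht y hy => h.act hk hk' hw ha ht (Or.inr hy)

theorem fro_diff (h : Blk f u χ c s e ρ M B L Lc Lθ σ κs n A N) {k : ℕ} (hk : κs n ≤ k)
    (hk' : k < κs (n + 1)) {w z : E} (hw : w ∈ ball (0 : E) 1) (hz : ‖z‖ ≤ 1)
    (hwz : ‖1 - ⟪w, z⟫_ℂ‖ < σ) :
    DifferentiableOn ℂ (Te f u χ s ρ C₁ C₂ κs n H η ((RR k : ℂ) • z) ((RR k : ℂ) • w))
      (ball (xp k w) (1 / 2 * (1 - ‖xp k w‖))) ∧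
    DifferentiableOn ℂ (Tv f u χ s ρ C₁ C₂ σ κs n A N H η ((RR k : ℂ) • z) ((RR k : ℂ) • w))
      (ball (xp k w) (1 / 2 * (1 - ‖xp k w‖))) := by
  have hsub := ball_sub (k := k) hw
  constructor
  · exact ηv_diffOn (h.f_diff.mono hsub) (differentiableOn_const _) (differentiableOn_const _)
      (differentiableOn_const _) (X_diff (h.lev.uhol.mono hsub))
  · refine hv_diffOn (h.f_diff.mono hsub) (differentiableOn_const _) (differentiableOn_const _)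
      ?_ (differentiableOn_const _) (X_diff (h.lev.uhol.mono hsub))
    exact MM_hol h.lev h.cells (h.near _) fun a ha ht y hy =>
      h.actf hk hk' hw hz hwz ha ht (Or.inr hy)

/-- the points at the level `l` -/
theorem lv_mem {k l : ℕ} (hl : l = k ∨ l = k + 1) (w : E) :
    (rr l : ℂ) • (RR k : ℂ) • w ∈ Nb (1 / 2) k w ∨ 1 ≤ ‖xp k w‖ := by
  rcases hl with rfl | rfl
  · by_cases h : ‖xp l w‖ < 1
    · left
      right
      change xp l w ∈ _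
      exact mem_ball_self (by linarith)
    · right; linarith
  · left; left; rfl

theorem lv_mem' {k l : ℕ} (hl : l = k ∨ l = k + 1) {w : E} (hw : w ∈ ball (0 : E) 1) :
    (rr l : ℂ) • (RR k : ℂ) • w ∈ Nb (1 / 2) k w := by
  rcases lv_mem hl w with h | h
  · exact h
  · have := xp_pos (k := k) hw
    linarith

theorem own_cont (h : Blk f u χ c s e ρ M B L Lc Lθ σ κs n A N)
    (hS : St P (κs n) H η) {k l : ℕ} (hk : κs n ≤ k) (hk' : k < κs (n + 1))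
    (hl : l = k ∨ l = k + 1) :
    ContinuousOn (fun w : E => Te f u χ s ρ C₁ C₂ κs n H η ((RR k : ℂ) • w) ((RR k : ℂ) • w)
      ((rr l : ℂ) • (RR k : ℂ) • w)) (ball 0 1) ∧
    ContinuousOn (fun w : E => Tv f u χ s ρ C₁ C₂ σ κs n A N H η ((RR k : ℂ) • w)
      ((RR k : ℂ) • w) ((rr l : ℂ) • (RR k : ℂ) • w)) (ball 0 1) := by
  have hlk : l ≤ k + 1 := by rcases hl with rfl | rfl <;> omega
  have hρ := h.lev.ρ0
  have hb : ContinuousOn (fun w : E => bb ρ u κs n ((RR k : ℂ) • w)) (ball 0 1) :=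
    bb_cont hρ h.mono.monotone h.lev.uhol n (by omega)
  have hγ : ContinuousOn (fun w : E => u ((rr (κs n) : ℂ) • (RR k : ℂ) • w)) (ball 0 1) :=
    (u_cont h.lev.uhol (by omega)).continuousOn
  have hf : ContinuousOn (fun w : E => (fun j => f j ((rr l : ℂ) • (RR k : ℂ) • w))) (ball 0 1) :=
    (fv_diff h.lev.fhol hlk).continuousOn
  have hX : ContinuousOn (fun w : E => Xg C₁ C₂ (bb ρ u κs n ((RR k : ℂ) • w))
      (u ((rr (κs n) : ℂ) • (RR k : ℂ) • w)) (u ((rr l : ℂ) • (RR k : ℂ) • w))) (ball 0 1) :=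
    X_cont hb hγ (u_cont h.lev.uhol hlk).continuousOn
  have hm : ContinuousOn (fun w : E => mv χ s (bb ρ u κs n ((RR k : ℂ) • w))
      ((rr (κs n) : ℂ) • (RR k : ℂ) • w)) (ball 0 1) :=
    mv_contR h.lev (by omega) hb fun w _ => by
      have := h.near ((RR k : ℂ) • w)
      linarith
  have hH := (hS.Hd hk).continuousOn
  have hη := (hS.ηd hk).continuousOn
  constructor
  · exact ηv_contOn hf hH hm hη hX
  · refine hv_contOn hf hH hm ?_ hη hX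
    exact MM_cont (Dm := Tn σ (κs (n + 1))) h.lev (fun a _ => Tn_open _ _ _) h.cells
      (fun a _ => (th_cont σ A a).comp_continuousOn (by fun_prop)) hb hγ (by fun_prop)
      (fun w _ => h.near _) fun w hw a ha ht => h.act hk hk' hw ha ht (lv_mem' hl hw)

theorem fro_hol (h : Blk f u χ c s e ρ M B L Lc Lθ σ κs n A N)
    (hS : St P (κs n) H η) {k l : ℕ} (hk : κs n ≤ k) (hk' : k < κs (n + 1))
    (hl : l = k ∨ l = k + 1) {z : E} (hz : ‖z‖ ≤ 1) :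
    DifferentiableOn ℂ (fun w : E => Te f u χ s ρ C₁ C₂ κs n H η ((RR k : ℂ) • z)
      ((RR k : ℂ) • w) ((rr l : ℂ) • (RR k : ℂ) • w)) (Slb σ z) ∧
    DifferentiableOn ℂ (fun w : E => Tv f u χ s ρ C₁ C₂ σ κs n A N H η ((RR k : ℂ) • z)
      ((RR k : ℂ) • w) ((rr l : ℂ) • (RR k : ℂ) • w)) (Slb σ z) := by
  have hlk : l ≤ k + 1 := by rcases hl with rfl | rfl <;> omega
  have hρ := h.lev.ρ0
  have hsub : Slb σ z ⊆ ball (0 : E) 1 := fun w hw => hw.1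
  have hf : DifferentiableOn ℂ (fun w : E => (fun j => f j ((rr l : ℂ) • (RR k : ℂ) • w)))
      (Slb σ z) := (fv_diff h.lev.fhol hlk).mono hsub
  have hX : DifferentiableOn ℂ (fun w : E => Xg C₁ C₂ (bb ρ u κs n ((RR k : ℂ) • z))
      (u ((rr (κs n) : ℂ) • (RR k : ℂ) • z)) (u ((rr l : ℂ) • (RR k : ℂ) • w))) (Slb σ z) :=
    X_diff ((u_cont h.lev.uhol hlk).mono hsub)
  have hm : DifferentiableOn ℂ (fun w : E => mv χ s (bb ρ u κs n ((RR k : ℂ) • z))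
      ((rr (κs n) : ℂ) • (RR k : ℂ) • w)) (Slb σ z) :=
    mv_diffR h.lev _ (by omega) hsub fun w hw => by
      have := h.fnear hk (mem_ball_zero_iff.mp hw.1).le hz hw.2
      linarith
  have hH := (hS.Hd hk).mono hsub
  have hη := (hS.ηd hk).mono hsub
  constructor
  · exact ηv_diffOn hf hH hm hη hX
  · refine hv_diffOn hf hH hm ?_ hη hX
    have h1 := MM_hol (S := {x | ∀ a ∈ A, th σ A a ((RR k : ℂ) • z) ≠ 0 →
      x ∈ Tn σ (κs (n + 1)) a}) h.lev h.cells (τ := fun a => th σ A a ((RR k : ℂ) • z))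
      (h.near ((RR k : ℂ) • z)) fun a ha ht x hx => hx a ha ht
    apply h1.comp (f := fun w : E => (rr l : ℂ) • (RR k : ℂ) • w)
    · exact ((differentiable_id.const_smul (RR k : ℂ)).const_smul (rr l : ℂ)).differentiableOn
    · intro w hw a ha ht
      exact h.actf hk hk' hw.1 hz hw.2 ha ht (lv_mem' hl hw.1)

/-- the differences -/
theorem diff_bd (h : Blk f u χ c s e ρ M B L Lc Lθ σ κs n A N) (hC₁ : 0 ≤ C₁) (hC₂ : 0 ≤ C₂)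
    (hS : St P (κs n) H η) {k : ℕ} (hk : κs n ≤ k) (hk' : k < κs (n + 1)) {w z : E}
    (hw : w ∈ ball (0 : E) 1) (hz : z ∈ ball (0 : E) 1) (hwz : ‖1 - ⟪w, z⟫_ℂ‖ < σ)
    {y : E} (hy : y ∈ Nb (1 / 2) k w) :
    ‖Te f u χ s ρ C₁ C₂ κs n H η ((RR k : ℂ) • w) ((RR k : ℂ) • w) y -
      Te f u χ s ρ C₁ C₂ κs n H η ((RR k : ℂ) • z) ((RR k : ℂ) • w) y‖ ≤
      KT (Fintype.card J) (Fintype.card I) M ρ B L Lc Lθ P C₁ C₂ *
        dd (8 * e (κs n)) (κs n) k w z ∧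
    ‖Tv f u χ s ρ C₁ C₂ σ κs n A N H η ((RR k : ℂ) • w) ((RR k : ℂ) • w) y -
      Tv f u χ s ρ C₁ C₂ σ κs n A N H η ((RR k : ℂ) • z) ((RR k : ℂ) • w) y‖ ≤
      KT (Fintype.card J) (Fintype.card I) M ρ B L Lc Lθ P C₁ C₂ *
        dd (8 * e (κs n)) (κs n) k w z := by
  have hρ := h.lev.ρ0
  have hM := h.lev.M0
  have hB := h.lev.B0
  have hLc := h.lev.L0
  have hL := h.L0
  have hLθ := h.Lθ0
  have hP := hS.P0
  have hw1 := (mem_ball_zero_iff.mp hw).le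
  have hz1 := (mem_ball_zero_iff.mp hz).le
  have hyb := Nb_ball hw hy
  obtain ⟨hp1, hp2, hp3⟩ := h.pt hk hw
  obtain ⟨hq1, hq2, hq3⟩ := h.pt hk hz
  obtain ⟨X₀, hX₀⟩ : ∃ X₀, X₀ = Real.exp ((C₁ + C₂) * (M + ρ) * (2 * M)) := ⟨_, rfl⟩
  obtain ⟨X₁, hX₁⟩ : ∃ X₁, X₁ = Real.exp (3 * ((C₁ + C₂) * (M + ρ) * (2 * M))) *
    ((C₁ + C₂) * (2 * M + (M + ρ))) := ⟨_, rfl⟩
  obtain ⟨u₀, hu₀⟩ : ∃ u₀, u₀ = P + (1 + P) * B := ⟨_, rfl⟩
  have hX₀0 : 0 ≤ X₀ := by rw [hX₀]; positivity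
  have hX₁0 : 0 ≤ X₁ := by rw [hX₁]; positivity
  have hu₀0 : 0 ≤ u₀ := by rw [hu₀]; positivity
  obtain ⟨K0, -, -, K3, K4, K5⟩ := KT_facts (nJ := Fintype.card J) (nI := Fintype.card I)
    (Nat.cast_nonneg _) (Nat.cast_nonneg _) hM.le hρ.le hB hL hLc hLθ hP hC₁ hC₂ hX₀ hX₁ hu₀
  set KK := KT (Fintype.card J) (Fintype.card I) M ρ B L Lc Lθ P C₁ C₂ with hKK
  set β := bb ρ u κs n ((RR k : ℂ) • w) with hβ
  set β' := bb ρ u κs n ((RR k : ℂ) • z) with hβ'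
  set γ := u ((rr (κs n) : ℂ) • (RR k : ℂ) • w) with hγ
  set γ' := u ((rr (κs n) : ℂ) • (RR k : ℂ) • z) with hγ'
  set Δ := ‖β - β'‖ + ‖γ - γ'‖ with hΔ
  have hΔ0 : 0 ≤ Δ := by positivity
  have hΔβ : ‖β - β'‖ ≤ Δ := by rw [hΔ]; linarith [norm_nonneg (γ - γ')]
  have hΔγ : ‖γ - γ'‖ ≤ Δ := by rw [hΔ]; linarith [norm_nonneg (β - β')]
  set q := ‖1 - ⟪w, z⟫_ℂ‖ + (1 / 2) ^ k with hq
  have hq0 : 0 < q := by
    have := half_pow_pos k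
    have := norm_nonneg (1 - ⟪w, z⟫_ℂ)
    rw [hq]; linarith
  -- the parameters
  have hosc : Δ ≤ 28700 * (e (κs n) * hx q (κs n)) := h.oscp hk hw1 hz1
  set Sτ := ∑ a ∈ A, |th σ A a ((RR k : ℂ) • w) - th σ A a ((RR k : ℂ) • z)| with hSτ
  have hSτ0 : 0 ≤ Sτ := Finset.sum_nonneg fun a _ => abs_nonneg _
  have hτ : Sτ ≤ Lθ * (8 * e (κs n) * √(q / (1 / 2) ^ κs n)) := by
    refine (h.thl k hk w z hw1 hz1 hwz.le).trans ?_
    apply mul_le_mul_of_nonneg_left _ hLθ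
    have hσ := h.σ0
    have g1 : ‖1 - ⟪w, z⟫_ℂ‖ / σ ≤ ((1 / 2) ^ κs n / σ) * (q / (1 / 2) ^ κs n) := by
      have : ((1 / 2 : ℝ) ^ κs n / σ) * (q / (1 / 2) ^ κs n) = q / σ := by field_simp
      rw [this]
      have := half_pow_pos k
      gcongr
      rw [hq]; linarith
    calc √(‖1 - ⟪w, z⟫_ℂ‖ / σ) ≤ √(((1 / 2) ^ κs n / σ) * (q / (1 / 2) ^ κs n)) :=
          Real.sqrt_le_sqrt g1
      _ = √((1 / 2) ^ κs n / σ) * √(q / (1 / 2) ^ κs n) := Real.sqrt_mul (by positivity) _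
      _ ≤ _ := mul_le_mul_of_nonneg_right h.σe (Real.sqrt_nonneg _)
  -- the factor
  have hXd : ‖Xg C₁ C₂ β γ (u y) - Xg C₁ C₂ β' γ' (u y)‖ ≤ X₁ * Δ := by
    have := Xg_lip (G := M + ρ) hC₁ hC₂ hp3 hp2 hq3 hq2 (h.lev.ubd y hyb) (by linarith)
    rw [hX₁, mul_assoc]
    exact this
  -- the base solution
  have hnear := h.near ((RR k : ℂ) • w)
  have hfnear := h.fnear hk hw1 hz1 hwz
  have hmd : ‖mv χ s β ((rr (κs n) : ℂ) • (RR k : ℂ) • w) -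
      mv χ s β' ((rr (κs n) : ℂ) • (RR k : ℂ) • w)‖ ≤ (Fintype.card I * Lc * B) * Δ := by
    refine (h.lev.mv_sub hp1 (by rw [← hβ] at hnear; linarith)
      (by rw [← hβ'] at hfnear; linarith)).trans ?_
    calc Fintype.card I * (Lc * ‖β - β'‖ * B) = (Fintype.card I * Lc * B) * ‖β - β'‖ := by ring
      _ ≤ _ := by gcongr
  -- the mixture
  have hMd : ‖MM χ A N (fun a => th σ A a ((RR k : ℂ) • w)) β γ y -
      MM χ A N (fun a => th σ A a ((RR k : ℂ) • z)) β' γ' y‖ ≤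
      (Fintype.card I * Lc * B + L) * Δ + B * Sτ := by
    refine (MM_sub h.lev hL h.cells (fun a => th_nonneg _ _ _ _) (fun a => th_nonneg _ _ _ _)
      (th_sum_le _ _ _) (th_sum_le _ _ _) hq3 (h.near _) (h.near _) (fun a ha ht =>
      h.actf hk hk' hw hz1 hwz ha ht hy)).trans ?_
    have g1 : (Fintype.card I * Lc * B) * ‖β - β'‖ ≤ (Fintype.card I * Lc * B) * Δ := by gcongr
    have g2 : L * ‖γ - γ'‖ ≤ L * Δ := by gcongr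
    rw [← hSτ]
    linarith
  have hmain := hv_lip (f := fun j => f j y) (h := fun j => H j ((RR k : ℂ) • w))
    (m := mv χ s β ((rr (κs n) : ℂ) • (RR k : ℂ) • w))
    (m' := mv χ s β' ((rr (κs n) : ℂ) • (RR k : ℂ) • w))
    (Mn := MM χ A N (fun a => th σ A a ((RR k : ℂ) • w)) β γ y)
    (Mn' := MM χ A N (fun a => th σ A a ((RR k : ℂ) • z)) β' γ' y)
    (η := η ((RR k : ℂ) • w)) (X := Xg C₁ C₂ β γ (u y)) (X' := Xg C₁ C₂ β' γ' (u y))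
    (X₀ := X₀) (h.f_bd hyb) hP hB (hS.Hbd _ (RR_mem hk hw)) (hS.ηbd _ (RR_mem hk hw))
    (h.m_bd hk hw) (h.MM_bd hk hz γ' y)
    (by rw [hX₀]; exact h.X_bd hC₁ hC₂ hk hw hyb)
    (by rw [hX₀]; exact h.X_bd hC₁ hC₂ hk hz hyb)
  rw [← hu₀] at hmain
  obtain ⟨m1, m2⟩ := hmain
  have hb₀0 : 0 ≤ u₀ * X₁ + X₀ * (1 + P) * (Fintype.card I * Lc * B) := by positivity
  have he0 := h.e0.le
  have hhx := (hx_pos q (κs n)).le
  have hsq := Real.sqrt_nonneg (q / (1 / 2) ^ κs n)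
  have hdd : dd (8 * e (κs n)) (κs n) k w z =
      8 * (e (κs n) * hx q (κs n)) + 8 * (e (κs n) * √(q / (1 / 2) ^ κs n)) := by
    unfold dd; rw [← hq]; ring
  have hNM : (0 : ℝ) ≤ Fintype.card J * M := by positivity
  have t1 : 0 ≤ e (κs n) * hx q (κs n) := mul_nonneg he0 hhx
  have t2 : 0 ≤ e (κs n) * √(q / (1 / 2) ^ κs n) := mul_nonneg he0 hsq
  have hX'0 : 0 ≤ X₀ * (1 + P) := by positivity
  have hD0 : (0 : ℝ) ≤ 1 + Fintype.card J * M * (X₀ * u₀) := by positivity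
  have hE0 : (0 : ℝ) ≤ 1 + Fintype.card J * M * B := by positivity
  constructor
  · exact num_e hNM hu₀0 hX'0 rfl hb₀0 t1 t2 hosc hXd hmd m1 K3 K0 hdd
  · refine num_v hE0 hD0 hu₀0 hX'0 rfl hb₀0 t1 t2 hosc hXd hmd hMd (by positivity) hB ?_ m2 K4 K5
      K0 hdd
    refine hτ.trans (le_of_eq ?_)
    ring

/-- the frozen scalar satisfies the hypotheses of the smoothing -/
theorem TH_e (h : Blk f u χ c s e ρ M B L Lc Lθ σ κs n A N) (hC₁ : 0 ≤ C₁) (hC₂ : 0 ≤ C₂)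
    (hS : St P (κs n) H η) :
    TH (Te f u χ s ρ C₁ C₂ κs n H η) (κs n) (κs (n + 1)) σ (1 / 2)
      (KT (Fintype.card J) (Fintype.card I) M ρ B L Lc Lθ P C₁ C₂) (8 * e (κs n)) := by
  obtain ⟨-, K1, -, -, -, -⟩ := KT_facts (nJ := Fintype.card J) (nI := Fintype.card I)
    (Nat.cast_nonneg _) (Nat.cast_nonneg _) h.lev.M0.le h.lev.ρ0.le h.lev.B0 h.L0 h.lev.L0
    h.Lθ0 hS.P0 hC₁ hC₂ rfl rfl rfl
  refine ⟨fun k hk hk' w hw => ⟨(h.own_diff hk hk' hw).1, fun y hy =>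
    (h.own_bd hC₁ hC₂ hS hk hw (Nb_ball hw hy)).1.trans K1⟩, fun k hk hk' =>
    ⟨(h.own_cont hS hk hk' (Or.inl rfl)).1, (h.own_cont hS hk hk' (Or.inr rfl)).1⟩,
    fun k hk hk' z hz _ => ⟨(h.fro_hol hS hk hk' (Or.inl rfl) (mem_ball_zero_iff.mp hz).le).1,
      (h.fro_hol hS hk hk' (Or.inr rfl) (mem_ball_zero_iff.mp hz).le).1⟩,
    fun k hk hk' z hz _ w hw => ⟨(h.fro_diff hk hk' hw.1 (mem_ball_zero_iff.mp hz).le hw.2).1,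
      fun y hy => (h.diff_bd hC₁ hC₂ hS hk hk' hw.1 hz hw.2 hy).1⟩⟩

/-- the frozen vector satisfies the hypotheses of the smoothing -/
theorem TH_v (h : Blk f u χ c s e ρ M B L Lc Lθ σ κs n A N) (hC₁ : 0 ≤ C₁) (hC₂ : 0 ≤ C₂)
    (hS : St P (κs n) H η) (j : J) :
    TH (fun v z x => Tv f u χ s ρ C₁ C₂ σ κs n A N H η v z x j) (κs n) (κs (n + 1)) σ (1 / 2)
      (KT (Fintype.card J) (Fintype.card I) M ρ B L Lc Lθ P C₁ C₂) (8 * e (κs n)) := by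
  obtain ⟨-, -, K2, -, -, -⟩ := KT_facts (nJ := Fintype.card J) (nI := Fintype.card I)
    (Nat.cast_nonneg _) (Nat.cast_nonneg _) h.lev.M0.le h.lev.ρ0.le h.lev.B0 h.L0 h.lev.L0
    h.Lθ0 hS.P0 hC₁ hC₂ rfl rfl rfl
  refine ⟨fun k hk hk' w hw => ⟨differentiableOn_pi.mp (h.own_diff hk hk' hw).2 j, fun y hy =>
    (norm_le_pi_norm _ j).trans ((h.own_bd hC₁ hC₂ hS hk hw (Nb_ball hw hy)).2.trans K2)⟩,
    fun k hk hk' => ⟨continuousOn_pi.mp (h.own_cont hS hk hk' (Or.inl rfl)).2 j,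
      continuousOn_pi.mp (h.own_cont hS hk hk' (Or.inr rfl)).2 j⟩,
    fun k hk hk' z hz _ => ⟨differentiableOn_pi.mp
      (h.fro_hol hS hk hk' (Or.inl rfl) (mem_ball_zero_iff.mp hz).le).2 j,
      differentiableOn_pi.mp
        (h.fro_hol hS hk hk' (Or.inr rfl) (mem_ball_zero_iff.mp hz).le).2 j⟩,
    fun k hk hk' z hz _ w hw => ⟨differentiableOn_pi.mp
      (h.fro_diff hk hk' hw.1 (mem_ball_zero_iff.mp hz).le hw.2).2 j,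
      fun y hy => ?_⟩⟩
  refine le_trans ?_ (h.diff_bd hC₁ hC₂ hS hk hk' hw.1 hz hw.2 hy).2
  exact norm_le_pi_norm (Tv f u χ s ρ C₁ C₂ σ κs n A N H η ((RR k : ℂ) • w) ((RR k : ℂ) • w) y -
      Tv f u χ s ρ C₁ C₂ σ κs n A N H η ((RR k : ℂ) • z) ((RR k : ℂ) • w) y) j

end Blk

end Pool.Agent.MPca0fc2.VL
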