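import Mathlib
import Pool.Agent.Lib.MP_ca0fc2_an.VLTh2

set_option autoImplicit false

open Metric Set Filter Topology
open scoped InnerProductSpace

namespace Pool.Agent.MPca0fc2.VL

open Pool.Agent.MPca0fc2.SD
open Pool.Agent.MPca0fc2.SL

variable {J : Type*} [Fintype J] {I : Type*} [Fintype I]
variable {E : Type*} [NormedAddCommGroup E] [InnerProductSpace ℂ E]
variable {W : Type*} [NormedAddCommGroup W] [InnerProductSpace ℂ W]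

/-- the state of the flow -/
structure Sta (f : J → E → ℂ) (u : E → W) (χ : I → W → ℝ) (s : I → J → E → ℂ)
    (ρ C₁ C₂ P S : ℝ) (κs : ℕ → ℕ) (n : ℕ) (H : J → E → ℂ) (η : E → ℂ) : Prop where
  st : Blk.St P (κs n) H η
  one : ∀ z ∈ ball (0 : E) (RR (κs n)), dot (fv f (κs n) z) (fun j => H j z) = 1
  pot : ∀ z ∈ ball (0 : E) (RR (κs n)), 1 ≤ ‖z‖ →
    ‖Uv (fun j => H j z) (mv χ s (bb ρ u κs n z) ((rr (κs n) : ℂ) • z)) (η z)‖ *
      Real.exp (-Ph C₁ C₂ (bb ρ u κs n z) (u ((rr (κs n) : ℂ) • z))) ≤ S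

/-- the constants of the flow -/
structure Cst (NJ NI M ρ B L Lc Lθ P C₁ C₂ KD Λ Γ P₂ Um Smax CK : ℝ) : Prop where
  C₁0 : 0 ≤ C₁
  C₂0 : 0 ≤ C₂
  KD0 : 0 ≤ KD
  hKD1 : L ≤ KD
  hKD2 : NI * Lc * B ≤ KD
  hKD3 : 2 * B ≤ KD * (5 / 2 * ρ)
  hC₂ : 8 * ((NJ * M + 1) * KD) ≤ C₂
  hC₁ : (NJ * M + 1) * KD ≤ C₁ * (ρ / 4)
  hΛ1 : 1 ≤ Λ
  hΛ : 2 * (KD * (4 * M ^ 2)) ≤ Λ
  hΓ : Real.exp (C₁ * (2 * M + ρ) ^ 2) ≤ Γ
  hP₂ : P₂ = Real.exp ((C₁ + C₂) * (M + ρ) * (2 * M)) * (P + (1 + P) * B) +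
      (1 + NJ * M * (Real.exp ((C₁ + C₂) * (M + ρ) * (2 * M)) * (P + (1 + P) * B))) * B
  hUm : Smax * Real.exp ((C₁ + C₂) * M ^ 2) ≤ Um
  hP1 : NJ * M * Um ≤ P
  hP3 : Um + (1 + NJ * M * Um) * B ≤ P
  CK0 : 0 < CK

/-- the error of one block -/
noncomputable def er (NJ NI M ρ B L Lc Lθ P C₁ C₂ CK P₂ ε : ℝ) : ℝ :=
  (2 + 2 * (NJ * M * P₂)) * (CK * (50 * KT NJ NI M ρ B L Lc Lθ P C₁ C₂ / (1 / 2) * (8 * ε)))

namespace Blk

variable {f : J → E → ℂ} {u : E → W} {χ : I → W → ℝ} {c : I → W} {s : I → J → E → ℂ}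
  {e : ℕ → ℝ} {ρ M B L Lc Lθ σ C₁ C₂ P : ℝ} {κs : ℕ → ℕ} {n : ℕ} {A : Finset E}
  {N : E → I → W → E → J → ℂ} {H : J → E → ℂ} {η : E → ℂ}

theorem Xg_self (C₁ C₂ : ℝ) (β γ : W) : Xg C₁ C₂ β γ γ = 1 := by
  rw [Xg, sub_self, inner_zero_right, Complex.exp_zero]

/-- points of the annulus written with a scaling factor -/
theorem scaled {k κ' : ℕ} (hk : k ≤ κ') {z : E} (hz : z ∈ ball (0 : E) (RR κ')) :
    ∃ w ∈ ball (0 : E) 1, z = (RR k : ℂ) • w ∧ ‖w‖ = ‖z‖ / RR k := by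
  have h1 : z ∈ ball (0 : E) (RR k) := ball_subset_ball (RR_anti hk) hz
  exact ⟨(RR k : ℂ)⁻¹ • z, RR_inv_mem h1, (RR_smul_inv z).symm, norm_RR_inv z⟩

theorem sum_one (h : Blk f u χ c s e ρ M B L Lc Lθ σ κs n A N) {k κ' : ℕ} (hκ : κs n ≤ k)
    (hk : k ≤ κ') {z : E}
    (hz : z ∈ ball (0 : E) (RR κ')) (hz1 : 1 ≤ ‖z‖) : ∑ a ∈ A, th σ A a z = 1 := by
  obtain ⟨w, hw, rfl, hwn⟩ := scaled hk hz
  apply h.ths k hκ w (mem_ball_zero_iff.mp hw).le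
  rw [hwn]
  have h1 := RR_pos k
  have h2 : (1 / 2 : ℝ) ^ k ≤ (1 / 2) ^ κs n :=
    pow_le_pow_of_le_one (by norm_num) (by norm_num) hκ
  have h3 := h.σ8
  have h4 : 1 - (1 / 2 : ℝ) ^ k / 16 ≤ ‖(RR k : ℂ) • w‖ / RR k := by
    rw [le_div_iff₀ h1]
    refine le_trans ?_ hz1
    unfold RR
    nlinarith [half_pow_pos k]
  have h5 := half_pow_pos k
  linarith

/-- the value at the own point -/
theorem own_val (h : Blk f u χ c s e ρ M B L Lc Lθ σ κs n A N) {S : ℝ}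
    (hS : Sta f u χ s ρ C₁ C₂ P S κs n H η) {z : E} (hz : z ∈ ball (0 : E) (RR (κs (n + 1))))
    (hz1 : 1 ≤ ‖z‖) :
    Te f u χ s ρ C₁ C₂ κs n H η z z ((rr (κs n) : ℂ) • z) = η z ∧
    Tv f u χ s ρ C₁ C₂ σ κs n A N H η z z ((rr (κs n) : ℂ) • z) = fun j => H j z := by
  have hρ := h.lev.ρ0
  have hκ : κs n ≤ κs (n + 1) := (h.mono (Nat.lt_succ_self n)).le
  have hzb : z ∈ ball (0 : E) (RR (κs n)) := ball_subset_ball (RR_anti hκ) hz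
  have hsum := h.sum_one le_rfl hκ hz hz1
  obtain ⟨w, hw, hzw, -⟩ := scaled hκ hz
  obtain ⟨h1, h2, h3⟩ := h.pt le_rfl hw
  rw [← hzw] at h1 h2 h3
  have hnear := h.near z
  have hm : dot (fun j => f j ((rr (κs n) : ℂ) • z))
      (mv χ s (bb ρ u κs n z) ((rr (κs n) : ℂ) • z)) = 1 := h.lev.dot_mv h3 h1 (by linarith)
  have hH := hS.one z hzb
  have hη : Te f u χ s ρ C₁ C₂ κs n H η z z ((rr (κs n) : ℂ) • z) = η z := by
    rw [Te, ηv, Xg_self, one_smul]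
    exact dot_Uv hH hm
  refine ⟨hη, ?_⟩
  have hMM : MM χ A N (fun a => th σ A a z) (bb ρ u κs n z) (u ((rr (κs n) : ℂ) • z))
      ((rr (κs n) : ℂ) • z) = mv χ s (bb ρ u κs n z) ((rr (κs n) : ℂ) • z) := by
    have h4 := MM_con h.lev h.cells (τ := fun a => th σ A a z) (fun a => th_nonneg _ _ _ _) hsum
      h3 hnear (x := (rr (κs n) : ℂ) • z) (fun a ha ht => by
        rw [hzw] at ht ⊢
        exact h.act le_rfl (h.mono (Nat.lt_succ_self n)) hw ha ht (lv_mem' (Or.inl rfl) hw))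
      (by linarith)
    rw [sub_self, norm_zero] at h4
    have h5 : ‖MM χ A N (fun a => th σ A a z) (bb ρ u κs n z) (u ((rr (κs n) : ℂ) • z))
      ((rr (κs n) : ℂ) • z) - mv χ s (bb ρ u κs n z) ((rr (κs n) : ℂ) • z)‖ ≤ 0 := by
      simpa using h4
    exact sub_eq_zero.mp (norm_le_zero_iff.mp h5)
  rw [Te] at hη
  rw [Tv, hv, hη, hMM, Xg_self, one_smul, Uv]
  funext j
  simp only [Pi.add_apply, Pi.sub_apply, Pi.smul_apply]
  ring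

/-- the distance of the mixture from the new base solution -/
theorem dist_new {NJ NI KD Λ Γ P₂ Um Smax CK : ℝ}
    (h : Blk f u χ c s e ρ M B L Lc Lθ σ κs n A N)
    (hc : Cst NJ NI M ρ B L Lc Lθ P C₁ C₂ KD Λ Γ P₂ Um Smax CK) (hNI : NI = Fintype.card I)
    {z : E} (hz : z ∈ ball (0 : E) (RR (κs (n + 1)))) (hz1 : 1 ≤ ‖z‖) :
    ‖MM χ A N (fun a => th σ A a z) (bb ρ u κs n z) (u ((rr (κs n) : ℂ) • z))
        ((rr (κs (n + 1)) : ℂ) • z) -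
      mv χ s (bb ρ u κs (n + 1) z) ((rr (κs (n + 1)) : ℂ) • z)‖ ≤
      KD * (‖u ((rr (κs (n + 1)) : ℂ) • z) - u ((rr (κs n) : ℂ) • z)‖ ^ 2 +
        ‖bb ρ u κs (n + 1) z - bb ρ u κs n z‖) := by
  have hρ := h.lev.ρ0
  have hB := h.lev.B0
  have hLc := h.lev.L0
  have hκ : κs n < κs (n + 1) := h.mono (Nat.lt_succ_self n)
  obtain ⟨k, hk⟩ : ∃ k, κs (n + 1) = k + 1 := ⟨κs (n + 1) - 1, by omega⟩
  have hκk : κs n ≤ k := by omega
  obtain ⟨w, hw, hzw, -⟩ := scaled (k := k) (κ' := κs (n + 1)) (by omega) hz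
  obtain ⟨h1, h2, h3⟩ := h.pt hκk hw
  rw [← hzw] at h1 h2 h3
  have hx' : (rr (κs (n + 1)) : ℂ) • z ∈ ball (0 : E) 1 := by
    rw [hk, hzw]; exact xq_ball hw
  have hnear := h.near z
  have hnear' := bb_dist hρ u κs (n + 1) z
  have hbn : ‖bb ρ u κs (n + 1) z‖ ≤ M + ρ := by
    have e1 : bb ρ u κs (n + 1) z = u ((rr (κs (n + 1)) : ℂ) • z) -
      (u ((rr (κs (n + 1)) : ℂ) • z) - bb ρ u κs (n + 1) z) := by abel
    rw [e1]
    refine (norm_sub_le _ _).trans ?_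
    have := h.lev.ubd _ hx'
    linarith
  have hm' := h.lev.norm_mv_le hbn hx' (by linarith)
  set β := bb ρ u κs n z with hβ
  set β' := bb ρ u κs (n + 1) z with hβ'
  set γ := u ((rr (κs n) : ℂ) • z) with hγ
  set υ := u ((rr (κs (n + 1)) : ℂ) • z) with hυ
  have hd0 := norm_nonneg (β' - β)
  have ha0 := sq_nonneg ‖υ - γ‖
  have hKD0 := hc.KD0
  have hMb : ‖MM χ A N (fun a => th σ A a z) β γ ((rr (κs (n + 1)) : ℂ) • z)‖ ≤ B := by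
    exact norm_MM_le h.lev h.cells (fun a => th_nonneg _ _ _ _) (th_sum_le _ _ _) h3 γ _
  rcases lt_or_ge ‖υ - β‖ (3 * ρ) with hn | hn
  · have h4 := MM_con h.lev h.cells (τ := fun a => th σ A a z) (fun a => th_nonneg _ _ _ _)
      (h.sum_one (κ' := κs (n + 1)) hκk (by omega) hz hz1) h3 hnear
      (x := (rr (κs (n + 1)) : ℂ) • z) (fun a ha ht => by
        rw [hzw] at ht
        have hmem := h.act hκk (by omega) hw ha ht xq_mem_Nb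
        rw [hk] at hmem ⊢
        rw [hzw]
        exact hmem) hn
    have h5 := h.lev.mv_sub hx' (β := β) (β' := β') hn (by linarith)
    have e1 : MM χ A N (fun a => th σ A a z) β γ ((rr (κs (n + 1)) : ℂ) • z) -
        mv χ s β' ((rr (κs (n + 1)) : ℂ) • z) =
        (MM χ A N (fun a => th σ A a z) β γ ((rr (κs (n + 1)) : ℂ) • z) -
          mv χ s β ((rr (κs (n + 1)) : ℂ) • z)) +
        (mv χ s β ((rr (κs (n + 1)) : ℂ) • z) - mv χ s β' ((rr (κs (n + 1)) : ℂ) • z)) := by abel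
    rw [e1]
    refine (norm_add_le _ _).trans ?_
    rw [norm_sub_rev β β'] at h5
    have g1 : L * ‖υ - γ‖ ^ 2 ≤ KD * ‖υ - γ‖ ^ 2 := mul_le_mul_of_nonneg_right hc.hKD1 ha0
    have g2 : (Fintype.card I * Lc * B) * ‖β' - β‖ ≤ KD * ‖β' - β‖ := by
      rw [← hNI]; exact mul_le_mul_of_nonneg_right hc.hKD2 hd0
    have g3 : Fintype.card I * (Lc * ‖β' - β‖ * B) = (Fintype.card I * Lc * B) * ‖β' - β‖ := by
      ring
    rw [g3] at h5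
    linarith
  · have h4 : ‖β' - β‖ ≥ 5 / 2 * ρ := by
      have e1 : υ - β = (υ - β') + (β' - β) := by abel
      have := norm_add_le (υ - β') (β' - β)
      rw [← e1] at this
      linarith
    refine (norm_sub_le _ _).trans ?_
    have h5 := hc.hKD3
    have h6 : KD * (5 / 2 * ρ) ≤ KD * ‖β' - β‖ := mul_le_mul_of_nonneg_left h4 hKD0
    have h7 := mul_nonneg hKD0 ha0
    linarith

theorem Ph_low (hC₁ : 0 ≤ C₁) (hC₂ : 0 ≤ C₂) {β υ : W} {R : ℝ} (h : ‖υ - β‖ ≤ R) :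
    -Ph C₁ C₂ β υ ≤ C₁ * R ^ 2 := by
  have h1 := neg_gp_le β υ
  have h2 : ‖υ - β‖ ^ 2 ≤ R ^ 2 := pow_le_pow_left₀ (norm_nonneg _) h 2
  have h3 : C₁ * -gp β υ ≤ C₁ * R ^ 2 := by
    apply mul_le_mul_of_nonneg_left _ hC₁
    nlinarith [sq_nonneg ‖υ - β‖]
  have h4 : 0 ≤ C₂ / 2 * ‖υ‖ ^ 2 := by positivity
  unfold Ph
  linarith

theorem Ph_up (hC₁ : 0 ≤ C₁) (hC₂ : 0 ≤ C₂) {β υ : W} (h : ‖υ‖ ≤ M) :
    Ph C₁ C₂ β υ ≤ (C₁ + C₂) * M ^ 2 := by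
  have h1 := gp_le β υ
  have h2 : ‖υ‖ ^ 2 ≤ M ^ 2 := pow_le_pow_left₀ (norm_nonneg _) h 2
  have h3 : C₁ * gp β υ ≤ C₁ * M ^ 2 := by
    apply mul_le_mul_of_nonneg_left _ hC₁
    nlinarith [sq_nonneg ‖υ‖]
  have h4 : C₂ / 2 * ‖υ‖ ^ 2 ≤ C₂ * M ^ 2 := by nlinarith [sq_nonneg ‖υ‖]
  unfold Ph
  linarith

/-- one block of the flow -/
theorem step [Nontrivial E] {PP : (E → ℂ) → E → ℂ} {NJ NI KD Λ Γ P₂ Um Smax CK S ε : ℝ}
    (hker : Ker PP CK) (h : Blk f u χ c s e ρ M B L Lc Lθ σ κs n A N)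
    (hc : Cst NJ NI M ρ B L Lc Lθ P C₁ C₂ KD Λ Γ P₂ Um Smax CK) (hNJ : NJ = Fintype.card J)
    (hNI : NI = Fintype.card I) (hS : Sta f u χ s ρ C₁ C₂ P S κs n H η)
    (hε : ε = e (κs n)) (hΛS : Λ * Γ ≤ S)
    (her : NJ * M * er NJ NI M ρ B L Lc Lθ P C₁ C₂ CK P₂ ε ≤ 1 / 2)
    (hS' : S * (1 + (1 + B) * er NJ NI M ρ B L Lc Lθ P C₁ C₂ CK P₂ ε) ≤ Smax) :
    ∃ (H' : J → E → ℂ) (η' : E → ℂ), Sta f u χ s ρ C₁ C₂ P
      (S * (1 + (1 + B) * er NJ NI M ρ B L Lc Lθ P C₁ C₂ CK P₂ ε)) κs (n + 1) H' η' := by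
  have hρ := h.lev.ρ0
  have hM := h.lev.M0
  have hB := h.lev.B0
  have hP := hS.st.P0
  have hC₁0 := hc.C₁0
  have hC₂0 := hc.C₂0
  have hCK := hc.CK0
  have hNJ0 : 0 ≤ NJ := by rw [hNJ]; positivity
  have hκ : κs n < κs (n + 1) := h.mono (Nat.lt_succ_self n)
  obtain ⟨k, hk⟩ : ∃ k, κs (n + 1) = k + 1 := ⟨κs (n + 1) - 1, by omega⟩
  have hκk : κs n ≤ k := by omega
  obtain ⟨m, hm⟩ : ∃ m, κs (n + 1) = κs n + m := ⟨κs (n + 1) - κs n, by omega⟩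
  obtain ⟨KK0, -, -, -, -, -⟩ := KT_facts (nJ := Fintype.card J) (nI := Fintype.card I)
    (Nat.cast_nonneg _) (Nat.cast_nonneg _) hM.le hρ.le hB h.L0 h.lev.L0
    h.Lθ0 hP hC₁0 hC₂0 rfl rfl rfl
  set KK := KT (Fintype.card J) (Fintype.card I) M ρ B L Lc Lθ P C₁ C₂ with hKK
  have he0 := h.e0
  set er₀ := CK * (50 * KK / (1 / 2) * (8 * e (κs n))) with her₀
  have her₀0 : 0 ≤ er₀ := by positivity
  have hP₂0 : 0 ≤ P₂ := by rw [hc.hP₂]; positivity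
  have herd : er NJ NI M ρ B L Lc Lθ P C₁ C₂ CK P₂ ε = (2 + 2 * (NJ * M * P₂)) * er₀ := by
    rw [er, hε, her₀, hKK, hNJ, hNI]
  set er' := er NJ NI M ρ B L Lc Lθ P C₁ C₂ CK P₂ ε with her'
  have her'0 : 0 ≤ er' := by rw [herd]; positivity
  have her1 : er₀ ≤ er' := by
    rw [herd]
    have : 0 ≤ NJ * M * P₂ * er₀ := by positivity
    linarith
  have her2 : NJ * M * er₀ ≤ 1 / 2 :=
    (mul_le_mul_of_nonneg_left her1 (by positivity)).trans her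
  -- smoothing
  have hblk : ∀ T : E → E → E → ℂ, TH T (κs n) (κs (n + 1)) σ (1 / 2) KK (8 * e (κs n)) →
      ∃ G : E → ℂ, DifferentiableOn ℂ G (ball 0 (RR (κs (n + 1)))) ∧
      ∀ z : E, 1 ≤ ‖z‖ → ‖z‖ < RR (κs (n + 1)) →
      ‖G z - (T z z ((rr (κs (n + 1)) : ℂ) • z) - T z z ((rr (κs n) : ℂ) • z))‖ ≤ er₀ := by
    intro T hT
    rw [hm] at hT ⊢
    exact block_sum hker (by norm_num) KK0 (by positivity) h.σ8 h.σe m hT
  obtain ⟨Gη, hG1, hG2⟩ := hblk _ (h.TH_e hC₁0 hC₂0 hS.st)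
  choose GH hH1 hH2 using fun j => hblk _ (h.TH_v hC₁0 hC₂0 hS.st j)
  have hsub : ball (0 : E) (RR (κs (n + 1))) ⊆ ball 0 (RR (κs n)) :=
    ball_subset_ball (RR_anti hκ.le)
  obtain ⟨Hn, hHn⟩ : ∃ Hn : J → E → ℂ, Hn = fun j z => H j z + GH j z := ⟨_, rfl⟩
  obtain ⟨ηn, hηn⟩ : ∃ ηn : E → ℂ, ηn = fun z => η z + Gη z := ⟨_, rfl⟩
  have hHnd : ∀ j, DifferentiableOn ℂ (Hn j) (ball 0 (RR (κs (n + 1)))) := by
    intro j; rw [hHn]; exact ((hS.st.Hhol j).mono hsub).add (hH1 j)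
  have hηnd : DifferentiableOn ℂ ηn (ball 0 (RR (κs (n + 1)))) := by
    rw [hηn]; exact (hS.st.ηhol.mono hsub).add hG1
  -- facts at the points of the annulus
  have hx' : ∀ z ∈ ball (0 : E) (RR (κs (n + 1))), (rr (κs (n + 1)) : ℂ) • z ∈ ball (0 : E) 1 := by
    intro z hz
    exact FC.mem_ball (κs (n + 1)) (κs (n + 1)) (by omega) (mem_ball_zero_iff.mp hz).le
  have hest : ∀ z ∈ ball (0 : E) (RR (κs (n + 1))), 1 ≤ ‖z‖ →
      ‖(fun j => Hn j z) - Tv f u χ s ρ C₁ C₂ σ κs n A N H η z z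
        ((rr (κs (n + 1)) : ℂ) • z)‖ ≤ er₀ ∧
      ‖ηn z - Te f u χ s ρ C₁ C₂ κs n H η z z ((rr (κs (n + 1)) : ℂ) • z)‖ ≤ er₀ := by
    intro z hz hz1
    obtain ⟨v1, v2⟩ := h.own_val hS hz hz1
    have hzn := mem_ball_zero_iff.mp hz
    constructor
    · rw [pi_norm_le_iff_of_nonneg her₀0]
      intro j
      have h1 := hH2 j z hz1 hzn
      simp only [v2] at h1
      simp only [Pi.sub_apply, hHn]
      refine le_trans (le_of_eq ?_) h1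
      congr 1
      ring
    · have h1 := hG2 z hz1 hzn
      rw [v1] at h1
      simp only [hηn]
      refine le_trans (le_of_eq ?_) h1
      congr 1
      ring
  have hf' : ∀ z ∈ ball (0 : E) (RR (κs (n + 1))), ‖fv f (κs (n + 1)) z‖ ≤ M := fun z hz =>
    h.f_bd (hx' z hz)
  have hMone : ∀ z ∈ ball (0 : E) (RR (κs (n + 1))), 1 ≤ ‖z‖ →
      dot (fv f (κs (n + 1)) z) (MM χ A N (fun a => th σ A a z) (bb ρ u κs n z)
        (u ((rr (κs n) : ℂ) • z)) ((rr (κs (n + 1)) : ℂ) • z)) = 1 := by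
    intro z hz hz1
    obtain ⟨w, hw, hzw, -⟩ := scaled (k := k) (κ' := κs (n + 1)) (by omega) hz
    obtain ⟨-, -, h3⟩ := h.pt hκk hw
    rw [← hzw] at h3
    exact MM_one h.lev h.cells (τ := fun a => th σ A a z)
      (h.sum_one (κ' := κs (n + 1)) hκk (by omega) hz hz1) h3 (h.near z)
      (x := (rr (κs (n + 1)) : ℂ) • z) (fun a ha ht => by
        rw [hzw] at ht
        have hmem := h.act hκk (by omega) hw ha ht xq_mem_Nb
        rw [hk] at hmem ⊢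
        rw [hzw]
        exact hmem)
  have hTone : ∀ z ∈ ball (0 : E) (RR (κs (n + 1))), 1 ≤ ‖z‖ →
      dot (fv f (κs (n + 1)) z) (Tv f u χ s ρ C₁ C₂ σ κs n A N H η z z
        ((rr (κs (n + 1)) : ℂ) • z)) = 1 := fun z hz hz1 => dot_hv (hMone z hz hz1)
  have hTbd : ∀ z ∈ ball (0 : E) (RR (κs (n + 1))),
      ‖Tv f u χ s ρ C₁ C₂ σ κs n A N H η z z ((rr (κs (n + 1)) : ℂ) • z)‖ ≤ P₂ := by
    intro z hz
    obtain ⟨w, hw, hzw, -⟩ := scaled (k := k) (κ' := κs (n + 1)) (by omega) hz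
    have h1 := (h.own_bd hC₁0 hC₂0 hS.st hκk hw (hx' z hz)).2
    rw [← hzw] at h1
    rw [hc.hP₂, hNJ]
    exact h1
  -- the normalising factor
  obtain ⟨ς, hς⟩ : ∃ ς : E → ℂ, ς = fun z => dot (fv f (κs (n + 1)) z) (fun j => Hn j z) :=
    ⟨_, rfl⟩
  have hfd : DifferentiableOn ℂ (fun z : E => fv f (κs (n + 1)) z) (ball 0 (RR (κs (n + 1)))) := by
    rw [differentiableOn_pi]
    intro j
    apply (h.lev.fhol j).comp
    · exact (differentiable_id.const_smul (rr (κs (n + 1)) : ℂ)).differentiableOn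
    · intro z hz
      exact hx' z hz
  have hςd : DifferentiableOn ℂ ς (ball 0 (RR (κs (n + 1)))) := by
    rw [hς]; exact dot_diffOn hfd (differentiableOn_pi.mpr hHnd)
  have hnd : ∀ z ∈ ball (0 : E) (RR (κs (n + 1))), 1 ≤ ‖z‖ →
      ‖ς z - 1‖ ≤ NJ * M * er₀ ∧
      ‖(ς z)⁻¹ • (fun j => Hn j z) - Tv f u χ s ρ C₁ C₂ σ κs n A N H η z z
        ((rr (κs (n + 1)) : ℂ) • z)‖ ≤ (2 + 2 * (NJ * M * P₂)) * er₀ := fun z hz hz1 => by
    rw [hς]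
    exact norm_div_sub hNJ (hf' z hz) (hTone z hz hz1) (hest z hz hz1).1 (hTbd z hz) her2
  have hς1 : ∀ z ∈ ball (0 : E) (RR (κs (n + 1))), ‖ς z - 1‖ ≤ 1 / 2 := by
    apply max_ball' (hςd.sub_const 1)
    intro z hz hz1
    exact (hnd z hz hz1).1.trans her2
  have hς0 : ∀ z ∈ ball (0 : E) (RR (κs (n + 1))), ς z ≠ 0 := by
    intro z hz h0
    have := hς1 z hz
    rw [h0, zero_sub, norm_neg, norm_one] at this
    norm_num at this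
  have hH'd : ∀ j, DifferentiableOn ℂ (fun z => (ς z)⁻¹ * Hn j z) (ball 0 (RR (κs (n + 1)))) :=
    fun j => (hςd.inv hς0).mul (hHnd j)
  have hvec : ∀ z, (fun j => (ς z)⁻¹ * Hn j z) = (ς z)⁻¹ • (fun j => Hn j z) := fun z => rfl
  have hone' : ∀ z ∈ ball (0 : E) (RR (κs (n + 1))),
      dot (fv f (κs (n + 1)) z) (fun j => (ς z)⁻¹ * Hn j z) = 1 := by
    intro z hz
    rw [hvec, dot_smul]
    have : dot (fv f (κs (n + 1)) z) (fun j => Hn j z) = ς z := by rw [hς]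
    rw [this]
    exact inv_mul_cancel₀ (hς0 z hz)
  -- the new base
  have hn' : ∀ z, ‖u ((rr (κs (n + 1)) : ℂ) • z) - bb ρ u κs (n + 1) z‖ ≤ ρ / 2 := fun z =>
    bb_dist hρ u κs (n + 1) z
  have hbn : ∀ z ∈ ball (0 : E) (RR (κs (n + 1))), ‖bb ρ u κs (n + 1) z‖ ≤ M + ρ := by
    intro z hz
    have e1 : bb ρ u κs (n + 1) z = u ((rr (κs (n + 1)) : ℂ) • z) -
      (u ((rr (κs (n + 1)) : ℂ) • z) - bb ρ u κs (n + 1) z) := by abel
    rw [e1]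
    refine (norm_sub_le _ _).trans ?_
    have := h.lev.ubd _ (hx' z hz)
    have := hn' z
    linarith
  have hm'b : ∀ z ∈ ball (0 : E) (RR (κs (n + 1))),
      ‖mv χ s (bb ρ u κs (n + 1) z) ((rr (κs (n + 1)) : ℂ) • z)‖ ≤ B := fun z hz =>
    h.lev.norm_mv_le (hbn z hz) (hx' z hz) (by have := hn' z; linarith)
  have hm'1 : ∀ z ∈ ball (0 : E) (RR (κs (n + 1))), dot (fv f (κs (n + 1)) z)
      (mv χ s (bb ρ u κs (n + 1) z) ((rr (κs (n + 1)) : ℂ) • z)) = 1 := fun z hz =>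
    h.lev.dot_mv (hbn z hz) (hx' z hz) (by have := hn' z; linarith)
  -- the potential
  have hpot : ∀ z ∈ ball (0 : E) (RR (κs (n + 1))), 1 ≤ ‖z‖ →
      ‖Uv (fun j => (ς z)⁻¹ * Hn j z) (mv χ s (bb ρ u κs (n + 1) z)
        ((rr (κs (n + 1)) : ℂ) • z)) (ηn z)‖ *
        Real.exp (-Ph C₁ C₂ (bb ρ u κs (n + 1) z) (u ((rr (κs (n + 1)) : ℂ) • z))) ≤
        S * (1 + (1 + B) * er') := by
    intro z hz hz1
    have hpt := hS.pot z (hsub hz) hz1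
    obtain ⟨w, hw, hzw, -⟩ := scaled (k := k) (κ' := κs (n + 1)) (by omega) hz
    obtain ⟨h1, h2, h3⟩ := h.pt hκk hw
    rw [← hzw] at h1 h2 h3
    have hυ := h.lev.ubd _ (hx' z hz)
    have hgs := gauge_step (υ := u ((rr (κs (n + 1)) : ℂ) • z)) hpt
    have ha0 := sq_nonneg ‖u ((rr (κs (n + 1)) : ℂ) • z) - u ((rr (κs n) : ℂ) • z)‖
    refine pot_step (f' := fv f (κs (n + 1)) z) (A := 4 * M ^ 2) (KD := KD) (n₀ := NJ * M)
      (D := KD * (‖u ((rr (κs (n + 1)) : ℂ) • z) - u ((rr (κs n) : ℂ) • z)‖ ^ 2 +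
        ‖bb ρ u κs (n + 1) z - bb ρ u κs n z‖)) (M := M) (N := NJ) (ρ := ρ) (Λ := Λ) (Γ := Γ)
      hNJ rfl (hf' z hz) hgs (er := er') (Mn := MM χ A N (fun a => th σ A a z) (bb ρ u κs n z)
        (u ((rr (κs n) : ℂ) • z)) ((rr (κs (n + 1)) : ℂ) • z)) ?_ ?_ (hm'b z hz)
      (h.dist_new hc hNI hz hz1) ha0 ?_ hc.KD0 le_rfl (hy_gain hρ _ _) hC₁0 hc.hC₂ hc.hC₁ hc.hΛ1
      hc.hΛ ?_ hΛS
    · rw [hvec]
      refine ((hnd z hz hz1).2.trans (le_of_eq herd.symm))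
    · exact (hest z hz hz1).2.trans her1
    · have h4 : ‖u ((rr (κs (n + 1)) : ℂ) • z) - u ((rr (κs n) : ℂ) • z)‖ ≤ 2 * M := by
        refine (norm_sub_le _ _).trans ?_
        linarith
      have := pow_le_pow_left₀ (norm_nonneg _) h4 2
      nlinarith
    · refine le_trans (Real.exp_le_exp.mpr (Ph_low hC₁0 hC₂0 (R := 2 * M + ρ) ?_)) hc.hΓ
      refine (norm_sub_le _ _).trans ?_
      linarith
  have hS0 : 0 ≤ S := by
    refine le_trans ?_ hΛS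
    have g1 := hc.hΛ1
    have g2 := hc.hΓ
    have g3 := Real.exp_pos (C₁ * (2 * M + ρ) ^ 2)
    exact mul_nonneg (by linarith) (by linarith)
  -- the bounds
  have hUm : ∀ z ∈ ball (0 : E) (RR (κs (n + 1))), 1 ≤ ‖z‖ →
      ‖Uv (fun j => (ς z)⁻¹ * Hn j z) (mv χ s (bb ρ u κs (n + 1) z)
        ((rr (κs (n + 1)) : ℂ) • z)) (ηn z)‖ ≤ Um := by
    intro z hz hz1
    have h1 := hpot z hz hz1
    have h2 := Ph_up (M := M) hC₁0 hC₂0 (β := bb ρ u κs (n + 1) z) (h.lev.ubd _ (hx' z hz))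
    refine le_trans ?_ hc.hUm
    set U' := ‖Uv (fun j => (ς z)⁻¹ * Hn j z) (mv χ s (bb ρ u κs (n + 1) z)
        ((rr (κs (n + 1)) : ℂ) • z)) (ηn z)‖
    set p := Ph C₁ C₂ (bb ρ u κs (n + 1) z) (u ((rr (κs (n + 1)) : ℂ) • z))
    calc U' = U' * Real.exp (-p) * Real.exp p := by
          rw [mul_assoc, ← Real.exp_add, neg_add_cancel, Real.exp_zero, mul_one]
      _ ≤ Smax * Real.exp ((C₁ + C₂) * M ^ 2) := by
          apply mul_le_mul (h1.trans hS') (Real.exp_le_exp.mpr h2) (Real.exp_pos _).le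
          refine le_trans ?_ hS'
          positivity
  have hbd : ∀ z ∈ ball (0 : E) (RR (κs (n + 1))), 1 ≤ ‖z‖ →
      ‖ηn z‖ ≤ P ∧ ‖(fun j => (ς z)⁻¹ * Hn j z)‖ ≤ P := by
    intro z hz hz1
    have h1 := bd_of_Uv hNJ (hf' z hz) (hone' z hz) (hm'1 z hz) (hm'b z hz) (hUm z hz hz1)
    exact ⟨h1.1.trans hc.hP1, h1.2.trans hc.hP3⟩
  refine ⟨fun j z => (ς z)⁻¹ * Hn j z, ηn, ⟨hP, hH'd, hηnd, ?_, ?_⟩, hone', hpot⟩
  · intro z hz
    rw [pi_norm_le_iff_of_nonneg hP]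
    intro j
    exact max_ball' (hH'd j) (fun w hw hw1 =>
      (norm_le_pi_norm (fun j => (ς w)⁻¹ * Hn j w) j).trans (hbd w hw hw1).2) z hz
  · exact max_ball' hηnd (fun w hw hw1 => (hbd w hw hw1).1)

end Blk

end Pool.Agent.MPca0fc2.VL
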