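import Mathlib
import Pool.Agent.Lib.MP_ca0fc2_an.SLCore
import Pool.Agent.Lib.MP_ca0fc2_an.VLStep

set_option autoImplicit false

open Metric Set Filter Topology
open scoped InnerProductSpace

namespace Pool.Agent.MPca0fc2.VL

open Pool.Agent.MPca0fc2.SD
open Pool.Agent.MPca0fc2.SL

theorem er_lin (NJ NI M ρ B L Lc Lθ P C₁ C₂ CK P₂ ε : ℝ) :
    er NJ NI M ρ B L Lc Lθ P C₁ C₂ CK P₂ ε = er NJ NI M ρ B L Lc Lθ P C₁ C₂ CK P₂ 1 * ε := by
  unfold er; ring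

/-- dilated solutions on a sequence of levels give a solution -/
theorem dil_limit {J E : Type*} [Fintype J] [NormedAddCommGroup E] [InnerProductSpace ℂ E]
    [FiniteDimensional ℂ E] {f : J → E → ℂ}
    (hf : ∀ j, DifferentiableOn ℂ (f j) (ball 0 1)) {Pm : ℝ} (hPm : 0 ≤ Pm) {κs : ℕ → ℕ}
    (hκ : StrictMono κs)
    (h : ∀ n : ℕ, ∃ H : J → E → ℂ, (∀ j, DifferentiableOn ℂ (H j) (ball 0 1)) ∧
      (∀ z ∈ ball (0 : E) 1, ‖(fun j => H j z)‖ ≤ Pm) ∧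
      ∀ z ∈ ball (0 : E) 1, dot (fv f (κs n) z) (fun j => H j z) = 1) :
    ∃ h : J → E → ℂ, (∀ j, DifferentiableOn ℂ (h j) (ball 0 1)) ∧
      (∀ j, ∀ z ∈ ball (0 : E) 1, ‖h j z‖ ≤ Pm) ∧
      ∀ z ∈ ball (0 : E) 1, ∑ j, f j z * h j z = 1 := by
  apply dilation_limit hf hPm 1
  intro i
  obtain ⟨H, h1, h2, h3⟩ := h (i + 1)
  have hle : 1 + i ≤ κs (i + 1) := by
    have := hκ.le_apply (x := i + 1)
    omega
  have hpow : (1 / 2 : ℝ) ^ κs (i + 1) ≤ (1 / 2) ^ (1 + i) :=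
    pow_le_pow_of_le_one (by norm_num) (by norm_num) hle
  have hhalf : (1 / 2 : ℝ) ^ (1 + i) ≤ 1 / 2 := by
    rw [pow_add, pow_one]
    have := half_pow_le_one i
    linarith
  have hr1 : 0 < rr (κs (i + 1)) := by unfold rr; linarith
  have hr2 : rr (1 + i) ≤ rr (κs (i + 1)) := by unfold rr; linarith
  set r := rr (1 + i) / rr (κs (i + 1)) with hr
  have hr0 : 0 ≤ r := div_nonneg (rr_nonneg _) hr1.le
  have hrle : r ≤ 1 := by rw [hr, div_le_one hr1]; exact hr2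
  have hmem : ∀ z ∈ ball (0 : E) 1, (r : ℂ) • z ∈ ball (0 : E) 1 := by
    intro z hz
    rw [mem_ball_zero_iff] at hz ⊢
    rw [norm_smul, Complex.norm_real, Real.norm_of_nonneg hr0]
    nlinarith [norm_nonneg z]
  refine ⟨fun j z => H j ((r : ℂ) • z), fun j => ?_, fun z hz => h2 _ (hmem z hz), ?_⟩
  · exact (h1 j).comp (differentiable_id.const_smul (r : ℂ)).differentiableOn hmem
  · intro z hz
    have h4 := h3 _ (hmem z hz)
    have e1 : fv f (κs (i + 1)) ((r : ℂ) • z) = fv f (1 + i) z := by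
      funext j
      unfold fv
      rw [smul_smul, ← Complex.ofReal_mul, hr, mul_div_cancel₀ _ hr1.ne']
    rw [e1] at h4
    exact h4

/-- the flow over the blocks -/
theorem vcore (J I E W : Type*) [Fintype J] [Fintype I] [NormedAddCommGroup E]
    [InnerProductSpace ℂ E] [FiniteDimensional ℂ E] [Nontrivial E] [NormedAddCommGroup W]
    [InnerProductSpace ℂ W] {PP : (E → ℂ) → E → ℂ} {CK : ℝ} (hker : Ker PP CK)
    (M ρ B L Lc Lθ : ℝ) (hρ : 0 < ρ) (hM : 0 ≤ M) (hB : 0 ≤ B) (hL : 0 ≤ L) (hLc : 0 ≤ Lc)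
    (hLθ : 0 ≤ Lθ) {e : ℕ → ℝ} {κ : ℕ → ℕ} (hκ : StrictMono κ) (he0 : ∀ b, 0 ≤ e (κ b))
    (hsum : Summable fun b => e (κ b)) :
    ∃ (b₁ : ℕ) (Pm : ℝ), ∀ b₀, b₁ ≤ b₀ → ∀ (f : J → E → ℂ) (u : E → W) (χ : I → W → ℝ)
      (c : I → W) (s : I → J → E → ℂ),
      (∀ n, ∃ (σ : ℝ) (A : Finset E) (N : E → I → W → E → J → ℂ),
        Blk f u χ c s e ρ M B L Lc Lθ σ (fun i => κ (b₀ + i)) n A N) →
      (∃ H₀ : J → E → ℂ, (∀ j, DifferentiableOn ℂ (H₀ j) (ball 0 (RR (κ b₀)))) ∧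
        (∀ z ∈ ball (0 : E) (RR (κ b₀)), ‖(fun j => H₀ j z)‖ ≤ 2) ∧
        ∀ z ∈ ball (0 : E) (RR (κ b₀)), dot (fv f (κ b₀) z) (fun j => H₀ j z) = 1) →
      ∃ g : J → E → ℂ, (∀ j, DifferentiableOn ℂ (g j) (ball 0 1)) ∧
        (∀ j, ∀ z ∈ ball (0 : E) 1, ‖g j z‖ ≤ Pm) ∧
        ∀ z ∈ ball (0 : E) 1, ∑ j, f j z * g j z = 1 := by
  have hCK := hker.pos
  obtain ⟨NJ, hNJ⟩ : ∃ NJ : ℝ, NJ = (Fintype.card J : ℝ) := ⟨_, rfl⟩
  obtain ⟨NI, hNI⟩ : ∃ NI : ℝ, NI = (Fintype.card I : ℝ) := ⟨_, rfl⟩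
  have hNJ0 : 0 ≤ NJ := by rw [hNJ]; positivity
  have hNI0 : 0 ≤ NI := by rw [hNI]; positivity
  obtain ⟨KD, hKD⟩ : ∃ KD : ℝ, KD = L + NI * Lc * B + B / ρ := ⟨_, rfl⟩
  have hKD0 : 0 ≤ KD := by rw [hKD]; positivity
  obtain ⟨C₂, hC₂⟩ : ∃ C₂ : ℝ, C₂ = 8 * ((NJ * M + 1) * KD) := ⟨_, rfl⟩
  obtain ⟨C₁, hC₁⟩ : ∃ C₁ : ℝ, C₁ = 4 * ((NJ * M + 1) * KD) / ρ := ⟨_, rfl⟩
  have hC₂0 : 0 ≤ C₂ := by rw [hC₂]; positivity
  have hC₁0 : 0 ≤ C₁ := by rw [hC₁]; positivity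
  obtain ⟨Λ, hΛ⟩ : ∃ Λ : ℝ, Λ = max 1 (2 * (KD * (4 * M ^ 2))) := ⟨_, rfl⟩
  have hΛ1 : 1 ≤ Λ := by rw [hΛ]; exact le_max_left _ _
  obtain ⟨Γ, hΓ⟩ : ∃ Γ : ℝ, Γ = Real.exp (C₁ * (2 * M + ρ) ^ 2) := ⟨_, rfl⟩
  have hΓ0 : 0 < Γ := by rw [hΓ]; exact Real.exp_pos _
  obtain ⟨S₀, hS₀⟩ : ∃ S₀ : ℝ, S₀ = (Λ + (2 + B)) * Γ := ⟨_, rfl⟩
  have hS₀0 : 0 ≤ S₀ := by rw [hS₀]; positivity
  obtain ⟨Smax, hSmax⟩ : ∃ Smax : ℝ, Smax = 3 * S₀ := ⟨_, rfl⟩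
  have hSmax0 : 0 ≤ Smax := by rw [hSmax]; positivity
  obtain ⟨Um, hUm⟩ : ∃ Um : ℝ, Um = Smax * Real.exp ((C₁ + C₂) * M ^ 2) := ⟨_, rfl⟩
  have hUm0 : 0 ≤ Um := by rw [hUm]; positivity
  obtain ⟨P, hP⟩ : ∃ P : ℝ, P = NJ * M * Um + (Um + (1 + NJ * M * Um) * B) + 2 := ⟨_, rfl⟩
  have hP0 : 0 ≤ P := by rw [hP]; positivity
  obtain ⟨P₂, hP₂⟩ : ∃ P₂ : ℝ, P₂ = Real.exp ((C₁ + C₂) * (M + ρ) * (2 * M)) *
      (P + (1 + P) * B) +
      (1 + NJ * M * (Real.exp ((C₁ + C₂) * (M + ρ) * (2 * M)) * (P + (1 + P) * B))) * B :=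
    ⟨_, rfl⟩
  have hP₂0 : 0 ≤ P₂ := by rw [hP₂]; positivity
  have hc : Cst NJ NI M ρ B L Lc Lθ P C₁ C₂ KD Λ Γ P₂ Um Smax CK := by
    refine ⟨hC₁0, hC₂0, hKD0, ?_, ?_, ?_, hC₂.ge, ?_, hΛ1, ?_, hΓ.ge, hP₂, hUm.ge, ?_, ?_, hCK⟩
    · rw [hKD]
      have : 0 ≤ NI * Lc * B := by positivity
      have : 0 ≤ B / ρ := by positivity
      linarith
    · rw [hKD]
      have : 0 ≤ B / ρ := by positivity
      linarith
    · rw [hKD]
      have h1 : 0 ≤ NI * Lc * B := by positivity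
      have h2 : B / ρ * (5 / 2 * ρ) = 5 / 2 * B := by field_simp
      have h3 : 0 ≤ (L + NI * Lc * B) * (5 / 2 * ρ) := by positivity
      nlinarith
    · rw [hC₁]
      apply le_of_eq
      field_simp
    · rw [hΛ]; exact le_max_right _ _
    · rw [hP]
      have : 0 ≤ Um + (1 + NJ * M * Um) * B := by positivity
      linarith
    · rw [hP]
      have : 0 ≤ NJ * M * Um := by positivity
      linarith
  -- the error
  obtain ⟨KE, hKE⟩ : ∃ KE : ℝ, KE = er NJ NI M ρ B L Lc Lθ P C₁ C₂ CK P₂ 1 := ⟨_, rfl⟩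
  obtain ⟨KK0, -, -, -, -, -⟩ := KT_facts (nJ := NJ) (nI := NI)
    hNJ0 hNI0 hM hρ.le hB hL hLc hLθ hP0 hC₁0 hC₂0 rfl rfl rfl
  have hKE0 : 0 ≤ KE := by rw [hKE, er]; positivity
  have ht := exists_tail' (F := fun b => (1 + B) * KE * e (κ b)) (hsum.mul_left _)
    (fun b => by have := he0 b; positivity) (τ := 1) one_pos
  have hsm : ∀ᶠ b in atTop, NJ * M * KE * e (κ b) ≤ 1 / 2 := by
    have h1 := (hsum.mul_left (NJ * M * KE)).tendsto_atTop_zero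
    filter_upwards [h1.eventually_lt_const (show (0 : ℝ) < 1 / 2 by norm_num)] with b hb
    exact hb.le
  obtain ⟨b₁, hb₁⟩ := eventually_atTop.mp (ht.and hsm)
  refine ⟨b₁, P, ?_⟩
  intro b₀ hb₀ f u χ c s hblk hinit
  have htail := (hb₁ b₀ hb₀).1
  have hsmall : ∀ n, NJ * M * KE * e (κ (b₀ + n)) ≤ 1 / 2 := fun n => (hb₁ (b₀ + n) (by omega)).2
  obtain ⟨H₀, hH1, hH2, hH3⟩ := hinit
  have hκs : StrictMono fun i => κ (b₀ + i) := fun i j hij => hκ (by omega)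
  obtain ⟨σ₀, A₀, N₀, hB0⟩ := hblk 0
  have hlev := hB0.lev
  -- the products
  obtain ⟨Sn, hSn⟩ : ∃ Sn : ℕ → ℝ, Sn = fun n => S₀ * ∏ i ∈ Finset.range n,
      (1 + (1 + B) * (KE * e (κ (b₀ + i)))) := ⟨_, rfl⟩
  have hfac : ∀ i, 1 ≤ 1 + (1 + B) * (KE * e (κ (b₀ + i))) := by
    intro i
    have := he0 (b₀ + i)
    have : 0 ≤ (1 + B) * (KE * e (κ (b₀ + i))) := by positivity
    linarith
  have hSn1 : ∀ n, S₀ ≤ Sn n := by
    intro n
    rw [hSn]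
    have : (1 : ℝ) ≤ ∏ i ∈ Finset.range n, (1 + (1 + B) * (KE * e (κ (b₀ + i)))) :=
      Finset.one_le_prod fun i _ => hfac i
    simp only
    nlinarith
  have hSn2 : ∀ n, Sn n ≤ Smax := by
    intro n
    have h1 : ∏ i ∈ Finset.range n, (1 + (1 + B) * (KE * e (κ (b₀ + i)))) ≤
        Real.exp (∑ i ∈ Finset.range n, (1 + B) * KE * e (κ (b₀ + i))) := by
      rw [Real.exp_sum]
      apply Finset.prod_le_prod
      · intro i _; linarith [hfac i]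
      · intro i _
        have := Real.add_one_le_exp ((1 + B) * KE * e (κ (b₀ + i)))
        linarith
    have h2 : Real.exp (∑ i ∈ Finset.range n, (1 + B) * KE * e (κ (b₀ + i))) ≤ 3 := by
      refine (Real.exp_le_exp.mpr (htail n)).trans ?_
      have := Real.exp_one_lt_d9
      linarith
    rw [hSn, hSmax]
    simp only
    calc S₀ * _ ≤ S₀ * 3 := by gcongr; exact h1.trans h2
      _ = _ := by ring
  have hflow : ∀ n, ∃ (H : J → E → ℂ) (η : E → ℂ),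
      Sta f u χ s ρ C₁ C₂ P (Sn n) (fun i => κ (b₀ + i)) n H η := by
    intro n
    induction n with
    | zero =>
      refine ⟨H₀, fun _ => 0, ⟨hP0, hH1, differentiableOn_const _, fun z hz => ?_, fun z hz => ?_⟩,
        hH3, ?_⟩
      · refine (hH2 z hz).trans ?_
        rw [hP]
        have : 0 ≤ NJ * M * Um + (Um + (1 + NJ * M * Um) * B) := by positivity
        linarith
      · rw [norm_zero]; exact hP0
      · intro z hz hz1
        have hz' : z ∈ ball (0 : E) (RR (κ b₀)) := hz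
        have hx : (rr (κ b₀) : ℂ) • z ∈ ball (0 : E) 1 :=
          FC.mem_ball (κ b₀) (κ b₀) (by omega) (mem_ball_zero_iff.mp hz').le
        have hb : bb ρ u (fun i => κ (b₀ + i)) 0 z = u ((rr (κ b₀) : ℂ) • z) := rfl
        have hu := hlev.ubd _ hx
        have hm := hlev.norm_mv_le (β := u ((rr (κ b₀) : ℂ) • z)) (by linarith) hx
          (by rw [sub_self, norm_zero]; positivity)
        rw [hb]
        change ‖Uv (fun j => H₀ j z) (mv χ s (u ((rr (κ b₀) : ℂ) • z)) ((rr (κ b₀) : ℂ) • z)) 0‖ *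
          Real.exp (-Ph C₁ C₂ (u ((rr (κ b₀) : ℂ) • z)) (u ((rr (κ b₀) : ℂ) • z))) ≤ Sn 0
        have h2 : ‖Uv (fun j => H₀ j z) (mv χ s (u ((rr (κ b₀) : ℂ) • z))
            ((rr (κ b₀) : ℂ) • z)) 0‖ ≤ 2 + B := by
          unfold Uv
          rw [sub_zero, one_smul]
          exact (norm_sub_le _ _).trans (add_le_add (hH2 z hz') hm)
        have h3 : Real.exp (-Ph C₁ C₂ (u ((rr (κ b₀) : ℂ) • z)) (u ((rr (κ b₀) : ℂ) • z))) ≤
            Γ := by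
          rw [hΓ]
          apply Real.exp_le_exp.mpr
          apply Blk.Ph_low hC₁0 hC₂0
          rw [sub_self, norm_zero]; positivity
        calc _ ≤ (2 + B) * Γ := mul_le_mul h2 h3 (Real.exp_pos _).le (by positivity)
          _ ≤ S₀ := by
              rw [hS₀]
              have : 0 ≤ Λ * Γ := by positivity
              linarith
          _ ≤ Sn 0 := hSn1 0
    | succ n ih =>
      obtain ⟨H, η, hs⟩ := ih
      obtain ⟨σ, A, N, hBk⟩ := hblk n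
      have e1 : Sn (n + 1) = Sn n * (1 + (1 + B) *
          er NJ NI M ρ B L Lc Lθ P C₁ C₂ CK P₂ (e (κ (b₀ + n)))) := by
        rw [hSn, er_lin, ← hKE]
        simp only
        rw [Finset.prod_range_succ, mul_assoc]
      have hΛS : Λ * Γ ≤ Sn n := by
        refine le_trans ?_ (hSn1 n)
        rw [hS₀]
        have : 0 ≤ (2 + B) * Γ := by positivity
        linarith
      obtain ⟨H', η', hs'⟩ := hBk.step hker hc hNJ hNI hs (ε := e (κ (b₀ + n))) rfl hΛS (by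
        rw [er_lin, ← hKE]
        have := hsmall n
        linarith) (by rw [← e1]; exact hSn2 _)
      rw [← e1] at hs'
      exact ⟨H', η', hs'⟩
  apply dil_limit hlev.fhol hP0 hκs
  intro n
  obtain ⟨H, η, hs⟩ := hflow n
  have hsub : ball (0 : E) 1 ⊆ ball 0 (RR (κ (b₀ + n))) := ball_subset_ball (one_lt_RR _).le
  exact ⟨H, fun j => (hs.st.Hhol j).mono hsub, fun z hz => hs.st.Hbd z (hsub hz),
    fun z hz => hs.one z (hsub hz)⟩

end Pool.Agent.MPca0fc2.VL
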