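import Mathlib
import Pool.Agent.Lib.MP_ca0fc2_an.VLCore
import Pool.Agent.Lib.MP_ca0fc2_an.VLBuild
import Pool.Agent.Lib.MP_ca0fc2_an.SLMain

set_option autoImplicit false

open Metric Set Filter Topology MeasureTheory
open scoped InnerProductSpace

namespace Pool.Agent.MPca0fc2.VL

open Pool.Agent.MPca0fc2.SD
open Pool.Agent.MPca0fc2.SL
open Pool.Agent.Lib.MP_ca0fc2_an

theorem Slow.smul {e : ℕ → ℝ} (h : Slow e) {c : ℝ} (hc : 0 ≤ c) : Slow fun k => c * e k := by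
  refine ⟨fun k => ?_, fun k => ?_, fun k => ?_⟩
  · have := h.nonneg k; positivity
  · have := mul_le_mul_of_nonneg_left (h.up k) hc
    linarith
  · have := mul_le_mul_of_nonneg_left (h.down k) hc
    linarith

theorem uu_osc {E : Type*} [NormedAddCommGroup E] [InnerProductSpace ℂ E] {N : ℕ}
    {F : Fin (N + 1) → E → ℂ} {e₀ : ℕ → ℝ} (hs₀ : Slow e₀)
    (hF : ∀ j, DifferentiableOn ℂ (F j) (ball 0 1)) (hg : ∀ j : Fin N, Grad (F j.succ) e₀) :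
    Osc (uu F) (fun k => 3 * ((N + 1) * e₀ k)) := by
  have hn : (0 : ℝ) ≤ N := Nat.cast_nonneg _
  refine Osc.of_grad (uu_diff hF) ?_ (Slow.smul hs₀ (by linarith))
  intro v hv
  have hv' : ∀ i, ‖(starRingEnd ℂ) (v i)‖ ≤ 1 := by
    intro i
    rw [RCLike.norm_conj]
    exact (PiLp.norm_apply_le v i).trans hv
  have h1 := Grad.sum' hg hv' Finset.univ
  have h2 : (fun z => ⟪v, uu F z⟫_ℂ) =
      fun z => ∑ i, (starRingEnd ℂ) (v i) * F i.succ z := by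
    funext z
    rw [PiLp.inner_apply]
    refine Finset.sum_congr rfl fun i _ => ?_
    rw [RCLike.inner_apply, mul_comm]
    rfl
  rw [h2]
  refine Grad.mono' h1 fun k => ?_
  rw [Finset.card_univ, Fintype.card_fin]
  have := hs₀.nonneg k
  nlinarith

theorem vlocal (E : Type*) [NormedAddCommGroup E] [InnerProductSpace ℂ E]
    [FiniteDimensional ℂ E] (hdim : 2 ≤ Module.finrank ℂ E) (N : ℕ) (M δ C : ℝ) (hδ : 0 < δ)
    {e₀ : ℕ → ℝ} (hs₀ : Slow e₀) (hpos₀ : ∀ k, 0 < e₀ k) {κ : ℕ → ℕ} (hκ : StrictMono κ)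
    (hsum₀ : Summable fun b => e₀ (κ b)) :
    ∃ r C' : ℝ, 0 < r ∧ ∀ l : E, ‖l‖ = 1 → ∀ F : Fin (N + 1) → E → ℂ,
      (∀ j, DifferentiableOn ℂ (F j) (ball 0 1)) → (∀ j, ∀ z ∈ ball (0 : E) 1, ‖F j z‖ ≤ M) →
      (∀ z ∈ ball (0 : E) 1, δ ≤ ∑ j, ‖F j z‖ ^ 2) →
      (∀ j : Fin N, Grad (F j.succ) e₀) →
      (∀ b, ∀ a : E, ‖a‖ = 1 → SolvableOn F {z | z ∈ ball (0 : E) 1 ∧
        ‖1 - ⟪z, a⟫_ℂ‖ < (1 / 2) ^ κ b / (e₀ (κ b)) ^ 2 ∧ (1 / 2) ^ κ (b + 1) / 2 < 1 - ‖z‖} C) →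
      SolvableOn F (ball 0 1 ∩ ball l r) C' := by
  classical
  obtain ⟨m, hdim'⟩ : ∃ m, Module.finrank ℂ E = m + 1 := ⟨Module.finrank ℂ E - 1, by omega⟩
  have hm : 1 ≤ m := by omega
  let _ : MeasurableSpace E := borel E
  have _ : BorelSpace E := ⟨rfl⟩
  have hnt : Nontrivial E := Module.nontrivial_of_finrank_pos (R := ℂ) (by omega)
  obtain ⟨P, CK, hker⟩ := exists_ker E m hm hdim'
  have hn : (0 : ℝ) ≤ N := Nat.cast_nonneg _
  -- the sequence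
  obtain ⟨e, he⟩ : ∃ e : ℕ → ℝ, e = fun k => 3 * ((N + 1) * e₀ k) := ⟨_, rfl⟩
  have hs : Slow e := by
    rw [he]
    exact Slow.smul (Slow.smul hs₀ (by linarith)) (by norm_num)
  have hpos : ∀ k, 0 < e k := fun k => by have := hpos₀ k; rw [he]; positivity
  have hee : ∀ k, e₀ k ≤ e k := fun k => by
    have h1 := hpos₀ k
    rw [he]
    simp only
    have : 0 ≤ (N : ℝ) * e₀ k := by positivity
    linarith
  have hsum : Summable fun b => e (κ b) := by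
    have := (hsum₀.mul_left ((N : ℝ) + 1)).mul_left 3
    rw [he]
    exact this
  -- the constants
  obtain ⟨M', hM'⟩ : ∃ M' : ℝ, M' = (N + 1) * (|M| + 1) + 2 := ⟨_, rfl⟩
  have hM'0 : 2 ≤ M' := by
    rw [hM']
    have : 0 ≤ ((N : ℝ) + 1) * (|M| + 1) := by positivity
    linarith
  obtain ⟨C₁, hC₁⟩ : ∃ C₁ : ℝ, C₁ = |C| + 1 := ⟨_, rfl⟩
  have hC₁0 : 0 < C₁ := by rw [hC₁]; positivity
  have hCC : C ≤ C₁ := by rw [hC₁]; have := le_abs_self C; linarith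
  have hsδ : 0 < √δ := Real.sqrt_pos.mpr hδ
  obtain ⟨c₀, hc₀⟩ : ∃ c₀ : ℝ, c₀ = min (1 / (4 * (N + 1) * C₁)) (√δ / 3) := ⟨_, rfl⟩
  have hc₀0 : 0 < c₀ := by rw [hc₀]; positivity
  have hc₀δ : c₀ ^ 2 ≤ δ / 9 := by
    have h1 : c₀ ≤ √δ / 3 := by rw [hc₀]; exact min_le_right _ _
    calc c₀ ^ 2 ≤ (√δ / 3) ^ 2 := pow_le_pow_left₀ hc₀0.le h1 2
      _ = δ / 9 := by rw [div_pow, Real.sq_sqrt hδ.le]; norm_num
  have hcC : 4 * (N + 1) * C₁ * c₀ ≤ 1 := by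
    have h1 : c₀ ≤ 1 / (4 * (N + 1) * C₁) := by rw [hc₀]; exact min_le_left _ _
    calc 4 * (N + 1) * C₁ * c₀ ≤ 4 * (N + 1) * C₁ * (1 / (4 * (N + 1) * C₁)) := by gcongr
      _ = 1 := by field_simp
  obtain ⟨ρ, hρ⟩ : ∃ ρ : ℝ, ρ = min (c₀ / 8) 1 := ⟨_, rfl⟩
  have hρ0 : 0 < ρ := by rw [hρ]; positivity
  have hρc : ρ ≤ c₀ / 8 := by rw [hρ]; exact min_le_left _ _
  have hρ1 : ρ ≤ 1 := by rw [hρ]; exact min_le_right _ _
  obtain ⟨V, hV, v1, v2, v3, v4, v5, v6, v7, v8, v9, v10⟩ :=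
    exists_V N M' C₁ c₀ δ (by linarith) hC₁0.le hc₀0 hδ
  obtain ⟨B, hB⟩ : ∃ B : ℝ, B = (2 + V) * V + (1 + V) ^ 2 * V := ⟨_, rfl⟩
  obtain ⟨L, hL⟩ : ∃ L : ℝ, L = (2 + V) * V + V * V + (2 + 2 * V) * V * V + 2 * V * V ^ 2 :=
    ⟨_, rfl⟩
  have hVB : V ≤ B := by
    rw [hB]
    have : 0 ≤ (1 + V) ^ 2 * V := by positivity
    nlinarith
  have hL0 : 0 ≤ L := by rw [hL]; positivity
  obtain ⟨n, Lc, c, χ, hLc, hχ0, hχ1, hχl, hχs⟩ :=
    exists_part (EuclideanSpace ℂ (Fin N)) (M' + ρ) hρ0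
  obtain ⟨Lθ, hLθ, hgeo⟩ := exists_geo E
  obtain ⟨b₁, Pm, hcore⟩ := vcore (Option (Fin (N + 1))) (Fin n) E (EuclideanSpace ℂ (Fin N)) hker
    M' ρ B L Lc Lθ hρ0 (by linarith) (hV.trans hVB) hL0 hLc hLθ hκ (fun b => (hpos (κ b)).le) hsum
  -- the first block
  have ht1 : Tendsto (fun b => e (κ b)) atTop (𝓝 0) := hsum.tendsto_atTop_zero
  have ht2 : Tendsto (fun b => (1 / 2 : ℝ) ^ κ b / (e (κ b)) ^ 2) atTop (𝓝 0) :=
    (exp_small hs hpos).comp hκ.tendsto_atTop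
  have hev : ∀ᶠ b in atTop, e (κ b) ≤ 1 / 23 ∧ (1 / 2 : ℝ) ^ κ b / (e (κ b)) ^ 2 ≤ 1 ∧
      e (κ b) ≤ ρ ^ 2 / (4 * 28700 ^ 2) := by
    filter_upwards [ht1.eventually_lt_const (show (0 : ℝ) < 1 / 23 by norm_num),
      ht2.eventually_lt_const (show (0 : ℝ) < 1 by norm_num),
      ht1.eventually_lt_const (show (0 : ℝ) < ρ ^ 2 / (4 * 28700 ^ 2) by positivity)] with b h1 h2 h3
    exact ⟨h1.le, h2.le, h3.le⟩
  obtain ⟨b₂, hb₂⟩ := eventually_atTop.mp hev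
  obtain ⟨b₀, hb₀1, hb₀2⟩ : ∃ b₀, b₁ ≤ b₀ ∧ b₂ ≤ b₀ := ⟨max b₁ b₂, le_max_left _ _, le_max_right _ _⟩
  obtain ⟨F₀, hF₀, hF₀r⟩ := aug_fn (E := E) (e := fun _ => (1 / 100 : ℝ)) (ε := 1 / 8)
    (fun _ => by norm_num) (fun _ => by simp) le_rfl (κ b₀)
  obtain ⟨r, hr, hF₀r⟩ := hF₀r (1 / (2 * (|Pm| + 1))) (by positivity)
  refine ⟨r, 2 * Pm, hr, ?_⟩
  intro l hl F hF hFM hFδ hFg hsol
  obtain ⟨hg, hb, hinit, -⟩ := hF₀ l hl
  obtain ⟨q, hq⟩ : ∃ q : E → ℂ, q = F₀ l := ⟨_, rfl⟩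
  rw [← hq] at hg hb hinit
  have hqhol : DifferentiableOn ℂ q (ball 0 1) := hg.hol
  have hrr0 := rr_nonneg (κ b₀)
  have hmem : ∀ z ∈ ball (0 : E) (RR (κ b₀)), (rr (κ b₀) : ℂ) • z ∈ ball (0 : E) 1 := fun z hz =>
    FC.mem_ball (κ b₀) (κ b₀) (by omega) (mem_ball_zero_iff.mp hz).le
  have hlev : Lev (fj q F) (uu F) ρ M' B Lc (M' + ρ) χ c (sl F c₀ c) :=
    lev_of hδ hc₀0 hc₀δ hρ0 hρc hM' (by linarith) hV v6 v10 hVB hLc hχ0 hχ1 hχl hχs hF hFM hFδ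
      hqhol hb
  have hosc : Osc (uu F) e := by
    rw [he]
    exact uu_osc hs₀ hF hFg
  obtain ⟨g, hg1, hg2, hg3⟩ := hcore b₀ hb₀1 (fj q F) (uu F) χ c (sl F c₀ c) (by
    intro i
    obtain ⟨h1, h2, h3⟩ := hb₂ (b₀ + i) (by omega)
    have hei := hpos (κ (b₀ + i))
    obtain ⟨ε, hε⟩ : ∃ ε, ε = e (κ (b₀ + i)) := ⟨_, rfl⟩
    rw [← hε] at h1 h2 h3 hei
    have hκp := half_pow_pos (κ (b₀ + i))
    obtain ⟨σ, hσ⟩ : ∃ σ : ℝ, σ = (1 / 2) ^ κ (b₀ + i) / (64 * ε ^ 2) := ⟨_, rfl⟩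
    have hσ0 : 0 < σ := by rw [hσ]; positivity
    have hσ1 : σ < 1 := by
      have e1 : σ = (1 / 2) ^ κ (b₀ + i) / ε ^ 2 / 64 := by rw [hσ]; field_simp
      rw [e1]; linarith
    have hσ8 : 8 * (1 / 2) ^ κ (b₀ + i) ≤ σ := by
      rw [hσ, le_div_iff₀ (by positivity)]
      have h4 : ε ^ 2 ≤ (1 / 23) ^ 2 := pow_le_pow_left₀ hei.le h1 2
      have h5 : 8 * (64 * ε ^ 2) ≤ 1 := by linarith
      calc 8 * (1 / 2 : ℝ) ^ κ (b₀ + i) * (64 * ε ^ 2) = (8 * (64 * ε ^ 2)) *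
            (1 / 2) ^ κ (b₀ + i) := by ring
        _ ≤ 1 * (1 / 2) ^ κ (b₀ + i) := by gcongr
        _ = _ := one_mul _
    obtain ⟨A, hA1, hA2, hA3⟩ := hgeo σ (κ (b₀ + i)) hσ0 hσ1 hσ8
    have hcell : ∀ a ∈ A, ∃ Nf : Fin n → EuclideanSpace ℂ (Fin N) → E →
        Option (Fin (N + 1)) → ℂ,
        Cn (fj q F) (uu F) ρ B L c (sl F c₀ c) (Tn σ (κ (b₀ + (i + 1))) a) Nf := by
      intro a ha
      apply cells_of hδ hc₀0 hc₀δ hρ0 hρc hM' hC₁0.le hcC hV v1 v2 v3 v4 v5 v6 v7 v8 v9 v10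
        hB.ge hL.ge (fun x hx => hx.1) hF hFM hFδ
      obtain ⟨h, k1, k2, k3⟩ := hsol (b₀ + i) a (hA1 a ha)
      have hsub : Tn σ (κ (b₀ + (i + 1))) a ⊆ {z | z ∈ ball (0 : E) 1 ∧
          ‖1 - ⟪z, a⟫_ℂ‖ < (1 / 2) ^ κ (b₀ + i) / (e₀ (κ (b₀ + i))) ^ 2 ∧
          (1 / 2) ^ κ (b₀ + i + 1) / 2 < 1 - ‖z‖} := by
        intro x hx
        refine ⟨hx.1, hx.2.1.trans_le ?_, hx.2.2⟩
        have h5 := hpos₀ (κ (b₀ + i))
        have h6 := hee (κ (b₀ + i))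
        rw [← hε] at h6
        have e1 : 64 * σ = (1 / 2) ^ κ (b₀ + i) / ε ^ 2 := by rw [hσ]; field_simp
        rw [e1]
        gcongr
      exact ⟨h, fun j => (k1 j).mono hsub, fun j x hx => (k2 j x (hsub hx)).trans hCC,
        fun x hx => k3 x (hsub hx)⟩
    choose! Nf hNf using hcell
    refine ⟨σ, A, Nf, hlev, hs, hosc, fun x y hxy => hκ (by omega), hL0, hLθ, hpos _, hσ8, hσ1,
      ?_, ?_, hA1, hA2, hA3, hNf⟩
    · have e1 : (1 / 2 : ℝ) ^ κ (b₀ + i) / σ = (8 * ε) ^ 2 := by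
        rw [hσ]
        field_simp
        norm_num
      rw [e1, Real.sqrt_sq (by positivity), hε]
    · intro x hx hx2
      rw [← hε]
      exact sm_of hρ0 hei hσ h3 x hx hx2) (by
    refine ⟨fun o => o.elim (fun z => (q ((rr (κ b₀) : ℂ) • z))⁻¹) (fun _ _ => 0), ?_, ?_, ?_⟩
    · intro j
      cases j with
      | none =>
        simp only [Option.elim]
        apply DifferentiableOn.inv
        · apply hqhol.comp
          · exact (differentiable_id.const_smul (rr (κ b₀) : ℂ)).differentiableOn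
          · exact hmem
        · intro z hz h0
          have := hinit z (mem_ball_zero_iff.mp hz)
          rw [h0, norm_zero] at this
          norm_num at this
      | some j => exact differentiableOn_const _
    · intro z hz
      rw [pi_norm_le_iff_of_nonneg (by norm_num)]
      intro j
      cases j with
      | none =>
        simp only [Option.elim, norm_inv]
        have h1 := hinit z (mem_ball_zero_iff.mp hz)
        rw [inv_le_comm₀ (by linarith) (by norm_num)]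
        linarith
      | some j => simp only [Option.elim, norm_zero]; norm_num
    · intro z hz
      rw [dot, Fintype.sum_option]
      simp only [Option.elim, mul_zero, Finset.sum_const_zero, add_zero, fv, fj]
      apply mul_inv_cancel₀
      intro h0
      have := hinit z (mem_ball_zero_iff.mp hz)
      rw [h0, norm_zero] at this
      norm_num at this)
  -- the solution near `l`
  have hPm0 : 0 ≤ Pm := (norm_nonneg _).trans (hg2 none 0 (mem_ball_self one_pos))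
  have hsig : ∀ z ∈ ball (0 : E) 1 ∩ ball l r, ‖∑ j, F j z * g (some j) z - 1‖ ≤ 1 / 2 := by
    intro z hz
    have h1 := hg3 z hz.1
    rw [Fintype.sum_option] at h1
    simp only [fj, Option.elim] at h1
    have h2 : ∑ j, F j z * g (some j) z - 1 = -(q z * g none z) := by rw [← h1]; ring
    rw [h2, norm_neg, norm_mul]
    have h3 := hF₀r l hl z hz.1 hz.2
    rw [← hq] at h3
    have h4 := hg2 none z hz.1
    rw [abs_of_nonneg hPm0] at h3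
    calc ‖q z‖ * ‖g none z‖ ≤ 1 / (2 * (Pm + 1)) * Pm := by gcongr
      _ ≤ 1 / (2 * (Pm + 1)) * (Pm + 1) := by gcongr; linarith
      _ = 1 / 2 := by field_simp
  have hlow : ∀ z ∈ ball (0 : E) 1 ∩ ball l r, 1 / 2 ≤ ‖∑ j, F j z * g (some j) z‖ := by
    intro z hz
    have h1 := hsig z hz
    set σ := ∑ j, F j z * g (some j) z
    have : ‖(1 : ℂ)‖ ≤ ‖σ‖ + ‖σ - 1‖ := by
      calc ‖(1 : ℂ)‖ = ‖σ - (σ - 1)‖ := by congr 1; ring
        _ ≤ _ := norm_sub_le _ _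
    rw [norm_one] at this
    linarith
  have hne : ∀ z ∈ ball (0 : E) 1 ∩ ball l r, ∑ j, F j z * g (some j) z ≠ 0 := by
    intro z hz h0
    have := hlow z hz
    rw [h0, norm_zero] at this
    norm_num at this
  have hsub : ball (0 : E) 1 ∩ ball l r ⊆ ball 0 1 := inter_subset_left
  refine ⟨fun j z => g (some j) z / ∑ i, F i z * g (some i) z, ?_, ?_, ?_⟩
  · intro j
    simp only [div_eq_mul_inv]
    refine ((hg1 (some j)).mono hsub).mul (DifferentiableOn.inv ?_ hne)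
    apply DifferentiableOn.fun_sum
    intro i _
    exact ((hF i).mono hsub).mul ((hg1 (some i)).mono hsub)
  · intro j z hz
    rw [norm_div, div_le_iff₀ (by have := hlow z hz; linarith)]
    have h1 := hlow z hz
    have h2 := hg2 (some j) z hz.1
    nlinarith
  · intro z hz
    have h1 : ∀ j, F j z * (g (some j) z / ∑ i, F i z * g (some i) z) =
        (F j z * g (some j) z) / ∑ i, F i z * g (some i) z := fun j => by ring
    simp only [h1]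
    rw [← Finset.sum_div, div_self (hne z hz)]

end Pool.Agent.MPca0fc2.VL
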