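import Mathlib
import Pool.Agent.Lib.MP_ca0fc2_an.VLLoc
import Pool.Agent.Lib.MP_ca0fc2_an.MXPre

set_option autoImplicit false

open Metric Set Filter Topology MeasureTheory
open scoped InnerProductSpace

namespace Pool.Agent.MPca0fc2.VL

open Pool.Agent.MPca0fc2.SD
open Pool.Agent.MPca0fc2.SL
open Pool.Agent.Lib.MP_ca0fc2_an

/-- Localization to blocks of scales. -/
theorem scale_main {E : Type*} [NormedAddCommGroup E] [InnerProductSpace ℂ E]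
    [FiniteDimensional ℂ E] (hn : 2 ≤ Module.finrank ℂ E) (N : ℕ) (M δ C : ℝ) (hδ : 0 < δ)
    {ω : ℝ → ℝ} (hω : Mod ω) {κ : ℕ → ℕ} (hκ : StrictMono κ)
    (hsum : Summable fun b => ω ((1 / 2) ^ κ b)) :
    ∃ C' : ℝ, ∀ F : Fin (N + 1) → E → ℂ,
      (∀ j, DifferentiableOn ℂ (F j) (ball 0 1)) →
      (∀ j, ∀ z ∈ ball (0 : E) 1, ‖F j z‖ ≤ M) →
      (∀ z ∈ ball (0 : E) 1, δ ≤ ∑ j, ‖F j z‖ ^ 2) →
      (∀ j : Fin N, ∀ z ∈ ball (0 : E) 1,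
        (1 - ‖z‖) * ‖fderiv ℂ (F j.succ) z‖ ≤ ω (1 - ‖z‖)) →
      (∀ b, ∀ a : E, ‖a‖ = 1 → SolvableOn F {z | z ∈ ball (0 : E) 1 ∧
        ‖1 - ⟪z, a⟫_ℂ‖ < (1 / 2) ^ κ b / (ω ((1 / 2) ^ κ b)) ^ 2 ∧
          (1 / 2) ^ κ (b + 1) / 2 < 1 - ‖z‖} C) →
      SolvableOn F (ball 0 1) C' := by
  obtain ⟨r, C₁, hr, hloc⟩ := vlocal E hn N M δ C hδ hω.slow (fun k => hω.1 _ (half_mem k)) hκ hsum
  obtain ⟨C₂, hfd⟩ := finite_depth (E := E) discCorona (N + 1) M δ hδ (fun _ => 0) (fun _ => 1)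
    (fun _ => r) (fun _ => C₁) (fun _ => one_pos) (fun _ => hr)
  refine ⟨C₂, ?_⟩
  intro F hF hFM hFδ hFg hsol
  exact hfd F hF hFM hFδ fun l hl => hloc l (mem_sphere_zero_iff_norm.mp hl) F hF hFM hFδ
    (fun j => hω.grad (hF _) (hFg j)) hsol

end Pool.Agent.MPca0fc2.VL
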