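import Mathlib
import Pool.Agent.Lib.MP_ca0fc2_an.MXFin
import Pool.Agent.Lib.MP_ca0fc2_an.MXInf
import Pool.Agent.Lib.MP_ca0fc2_an.MXBlock
import Pool.Agent.Lib.MP_ca0fc2_an.VLMain

set_option autoImplicit false
set_option linter.unusedSectionVars false

open Metric Set MeasureTheory Filter Topology
open scoped InnerProductSpace ENNReal

namespace Pool.Agent.MPca0fc2.MX

open Pool.Agent.MPca0fc2.PT
open Pool.Agent.MPca0fc2.VL (Mod half_mem)
open Pool.Agent.Lib.MP_ca0fc2_an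

theorem dil_stmt (E : Type*) [NormedAddCommGroup E] [InnerProductSpace ℂ E]
    [FiniteDimensional ℂ E] (N : ℕ) : DilStmt E N := by
  intro F C hF hC h
  exact Pool.Agent.MPca0fc2.VL.dil_limit hF hC (κs := fun n => n + 1)
    (fun m n hmn => Nat.succ_lt_succ hmn) h

/-- One arbitrary function and functions with seams. -/
theorem main_seam {E : Type*} [NormedAddCommGroup E] [InnerProductSpace ℂ E]
    [FiniteDimensional ℂ E] [MeasurableSpace E] [BorelSpace E] (hdim : 2 ≤ Module.finrank ℂ E)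
    (N : ℕ) (M δ K p : ℝ) (hδ : 0 < δ) (hp : 4 ≤ p) {ω : ℝ → ℝ} (hω : Mod ω) {S : Set ℕ}
    (hsum : Summable fun k : S => ω ((1 / 2) ^ (k : ℕ))) :
    ∃ C' : ℝ, ∀ F : Fin (N + 1) → E → ℂ,
      (∀ j, DifferentiableOn ℂ (F j) (ball 0 1)) →
      (∀ j, ∀ z ∈ ball (0 : E) 1, ‖F j z‖ ≤ M) →
      (∀ z ∈ ball (0 : E) 1, δ ≤ ∑ j, ‖F j z‖ ^ 2) →
      (∀ j : Fin N, SeamGrad p K ω S (F j.succ)) → SolvableOn F (ball 0 1) C' := by
  rcases S.finite_or_infinite with hS | hS
  · exact main_fin_of hdim N M δ K p hδ hp hω hS (fun A => block_sol E hdim N M δ A p hδ hp)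
      (dil_stmt E N)
  · exact main_inf_of hdim N M δ K p hδ hp hω hS hsum
      (fun A => block_sol E hdim N M δ A p hδ hp) (fun C κ hκ hs =>
        Pool.Agent.MPca0fc2.VL.scale_main (E := E) hdim N M δ C hδ hω hκ hs)

theorem seam_stmt (E : Type*) [NormedAddCommGroup E] [InnerProductSpace ℂ E]
    [FiniteDimensional ℂ E] [MeasurableSpace E] [BorelSpace E] (hdim : 2 ≤ Module.finrank ℂ E) :
    SeamStmt E := fun N M δ K p hδ hp _ hω _ hs => main_seam hdim N M δ K p hδ hp hω hs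

end Pool.Agent.MPca0fc2.MX
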