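import Mathlib
import Pool.Agent.Lib.MP_ca0fc2_an.MXChar
import Pool.Agent.Lib.MP_ca0fc2_an.MXSeam

set_option autoImplicit false

open Metric Set MeasureTheory Filter Topology
open scoped InnerProductSpace ENNReal

namespace Pool.Agent.MPca0fc2.MX

open Pool.Agent.MPca0fc2.PT
open Pool.Agent.MPca0fc2.VL (Mod half_mem)
open Pool.Agent.Lib.MP_ca0fc2_an

/-- The local theorem with perturbations. -/
theorem seam_char (E : Type*) [NormedAddCommGroup E] [InnerProductSpace ℂ E]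
    [FiniteDimensional ℂ E] [MeasurableSpace E] [BorelSpace E] (hdim : 2 ≤ Module.finrank ℂ E)
    (N : ℕ) (δ : ℝ) (hδ : 0 < δ) :
    ∃ η : ℝ, 0 < η ∧ ∀ (M : ℝ) (ρ p K : E → ℝ) (ω : E → ℝ → ℝ) (S : E → Set ℕ),
      (∀ l, 0 < ρ l) → (∀ l, 0 < p l) → (∀ l, Mod (ω l)) →
      (∀ l, Summable fun k : S l => ω l ((1 / 2) ^ (k : ℕ))) →
      ∃ C' : ℝ, ∀ f : Fin N → E → ℂ, (∀ j, DifferentiableOn ℂ (f j) (ball 0 1)) →
        (∀ j, ∀ z ∈ ball (0 : E) 1, ‖f j z‖ ≤ M) →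
        (∀ z ∈ ball (0 : E) 1, δ ≤ ∑ j, ‖f j z‖ ^ 2) →
        (∀ l ∈ sphere (0 : E) 1, ∃ (j₀ : Fin N) (g : Fin N → E → ℂ), ∀ j, j ≠ j₀ →
          DifferentiableOn ℂ (g j) (ball 0 1) ∧ (∀ z ∈ ball (0 : E) 1, ‖g j z‖ ≤ K l) ∧
          SeamGrad (p l) (K l) (ω l) (S l) (g j) ∧
          ∀ z ∈ ball (0 : E) 1 ∩ ball l (ρ l), ‖f j z - g j z‖ ≤ η) →
        SolvableOn f (ball 0 1) C' :=
  seam_char_of E hdim (seam_stmt E hdim) N δ hδ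

end Pool.Agent.MPca0fc2.MX
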