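import Mathlib
import Pool.Agent.Lib.MP_ca0fc2_an.MXCor
import Pool.Agent.Lib.MP_ca0fc2_an.MXSeam

set_option autoImplicit false
set_option linter.unusedSectionVars false

open Metric Set MeasureTheory Filter Topology
open scoped InnerProductSpace ENNReal

namespace Pool.Agent.MPca0fc2.MX

open Pool.Agent.MPca0fc2.VL (Mod half_mem)
open Pool.Agent.Lib.MP_ca0fc2_an

/-- The earlier theorem on functions with bounded variation over blocks is a special case. -/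
theorem sparse_of_seam {E : Type*} [NormedAddCommGroup E] [InnerProductSpace ℂ E]
    [FiniteDimensional ℂ E] [MeasurableSpace E] [BorelSpace E]
    (hdim : 2 ≤ Module.finrank ℂ E) (N : ℕ) (M δ K : ℝ) (hδ : 0 < δ)
    {ω : ℝ → ℝ} (hω : Mod ω) {κ : ℕ → ℕ} (hκ : StrictMono κ)
    (hs : Summable fun b => ω ((1 / 2) ^ κ b))
    (hK : ∀ b, ∑ k ∈ Finset.Ico (κ b) (κ (b + 1)), ω ((1 / 2) ^ k) ≤ K) :
    ∃ C' : ℝ, ∀ F : Fin (N + 1) → E → ℂ,
      (∀ j, DifferentiableOn ℂ (F j) (ball 0 1)) →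
      (∀ j, ∀ z ∈ ball (0 : E) 1, ‖F j z‖ ≤ M) →
      (∀ z ∈ ball (0 : E) 1, δ ≤ ∑ j, ‖F j z‖ ^ 2) →
      (∀ j : Fin N, ∀ z ∈ ball (0 : E) 1,
        (1 - ‖z‖) * ‖fderiv ℂ (F j.succ) z‖ ≤ ω (1 - ‖z‖)) →
      SolvableOn F (ball 0 1) C' := by
  classical
  have hpos : ∀ k : ℕ, 0 < ω ((1 / 2) ^ k) := fun k => hω.1 _ (half_mem k)
  obtain ⟨K₀, hK₀⟩ : ∃ K₀ : ℝ, K₀ = |K| + ∑ k ∈ Finset.range (κ 0), ω ((1 / 2) ^ k) := ⟨_, rfl⟩
  have hs0 : 0 ≤ ∑ k ∈ Finset.range (κ 0), ω ((1 / 2) ^ k) :=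
    Finset.sum_nonneg fun k _ => (hpos k).le
  have hK₀0 : 0 ≤ K₀ := by rw [hK₀]; positivity
  have hsum : Summable fun k : range κ => ω ((1 / 2) ^ (k : ℕ)) := by
    have e := (Equiv.ofInjective κ hκ.injective).summable_iff
      (f := fun k : range κ => ω ((1 / 2) ^ (k : ℕ)))
    rw [← e]
    exact hs
  obtain ⟨C', hC'⟩ := main_seam (E := E) hdim N M δ ((4 * 10 ^ 7) ^ (4 : ℝ) *
    (max 1 K₀ ^ (3 : ℕ) * K₀)) 4 hδ le_rfl hω hsum
  refine ⟨C', fun F hF hFM hFδ hFg => hC' F hF hFM hFδ fun j => ?_⟩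
  apply seam_of_sum hω (by norm_num) (hF _) (hFg j)
  intro a n T hT
  have hsub : ∑ k ∈ T, ω ((1 / 2) ^ k) ≤ K₀ := by
    rcases Nat.lt_or_ge a (κ 0) with ha | ha
    · have h1 : T ⊆ Finset.range (κ 0) := by
        intro k hk
        rw [Finset.mem_range]
        rcases (hT k hk).2.2 (κ 0) (mem_range_self 0) with h | h
        · omega
        · exact h
      have h2 := Finset.sum_le_sum_of_subset_of_nonneg h1
        (f := fun k => ω ((1 / 2) ^ k)) (fun k _ _ => (hpos k).le)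
      have h3 := abs_nonneg K
      rw [hK₀]
      linarith
    · obtain ⟨b, hb1, hb2⟩ : ∃ b, κ b ≤ a ∧ a < κ (b + 1) := by
        have hex : ∃ c, a < κ c := ⟨a + 1, lt_of_lt_of_le (Nat.lt_succ_self a) (hκ.le_apply)⟩
        obtain ⟨c, hc⟩ : ∃ c, c = Nat.find hex := ⟨_, rfl⟩
        have hc1 : a < κ c := by rw [hc]; exact Nat.find_spec hex
        have hc0 : c ≠ 0 := by
          rintro rfl
          omega
        obtain ⟨b, rfl⟩ := Nat.exists_eq_succ_of_ne_zero hc0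
        refine ⟨b, ?_, hc1⟩
        by_contra hcon
        push Not at hcon
        have := Nat.find_min' hex hcon
        omega
      have h1 : T ⊆ Finset.Ico (κ b) (κ (b + 1)) := by
        intro k hk
        rw [Finset.mem_Ico]
        obtain ⟨-, hk1, hk2⟩ := hT k hk
        refine ⟨by omega, ?_⟩
        rcases hk2 (κ (b + 1)) (mem_range_self _) with h | h
        · omega
        · exact h
      have h2 := Finset.sum_le_sum_of_subset_of_nonneg h1
        (f := fun k => ω ((1 / 2) ^ k)) (fun k _ _ => (hpos k).le)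
      have h3 := hK b
      have h4 := le_abs_self K
      rw [hK₀]
      linarith
  have hle : ∀ k ∈ T, ω ((1 / 2) ^ k) ≤ K₀ := fun k hk =>
    (Finset.single_le_sum (f := fun k => ω ((1 / 2) ^ k)) (fun i _ => (hpos i).le) hk).trans hsub
  have hterm : ∀ k ∈ T, ω ((1 / 2) ^ k) ^ (4 : ℝ) ≤ max 1 K₀ ^ (3 : ℕ) *
      ω ((1 / 2) ^ k) := by
    intro k hk
    have h1 := hle k hk
    have h2 := (hpos k).le
    have h3 : ω ((1 / 2) ^ k) ≤ max 1 K₀ := h1.trans (le_max_right _ _)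
    have h4 : ω ((1 / 2) ^ k) ^ (4 : ℝ) = ω ((1 / 2) ^ k) ^ 3 * ω ((1 / 2) ^ k) := by
      rw [show (4 : ℝ) = ((4 : ℕ) : ℝ) by norm_num, Real.rpow_natCast]; ring
    rw [h4]
    gcongr
  refine (Finset.sum_le_sum hterm).trans ?_
  rw [← Finset.mul_sum]
  gcongr

end Pool.Agent.MPca0fc2.MX
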