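import Mathlib
import Pool.Agent.Lib.MP_ca0fc2_an.Defs

set_option autoImplicit false

open Metric Set MeasureTheory
open scoped InnerProductSpace

namespace Pool.Agent.Lib.MP_ca0fc2_an

variable {E : Type*} [NormedAddCommGroup E] [InnerProductSpace ℂ E]

/-- An admissible rate: a positive nondecreasing function on `(0, 1]` such that
`∫ exp (- c / ω (t)) dt / t` is finite for all `c > 0`. -/
structure IsRate (ω : ℝ → ℝ) : Prop where
  pos : ∀ t ∈ Ioc (0 : ℝ) 1, 0 < ω t
  mono : MonotoneOn ω (Ioc 0 1)
  int : ∀ c : ℝ, 0 < c → IntegrableOn (fun t => Real.exp (-(c / ω t)) / t) (Ioo 0 1)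

/-- The function `u` is holomorphic on the unit ball and bounded by one, and at the points of the
ball whose distance from a point of `S` is less than `η` it oscillates slowly in the radial
direction, with the rate `ω`: one has `(1 - |z|) |R u (z)| ≤ ω (1 - |z|)`, where
`R u (z) = ∑ z_i ∂u/∂z_i`. -/
structure IsSlowNear (ω : ℝ → ℝ) (η : ℝ) (S : Set E) (u : E → ℂ) : Prop where
  hol : DifferentiableOn ℂ u (ball 0 1)
  bdd : ∀ z ∈ ball (0 : E) 1, ‖u z‖ ≤ 1
  slow : ∀ s ∈ S, ∀ z ∈ ball (0 : E) 1 ∩ ball s η, (1 - ‖z‖) * ‖fderiv ℂ u z z‖ ≤ ω (1 - ‖z‖)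

/-- The cell of size `η` around `z₀`, with respect to the function `u`, in the coordinates given
by `φ`. -/
def slowCell (u : E → ℂ) (η : ℝ) (φ : E → E) (z₀ : E) : Set E :=
  {w | ‖u (φ w) - u (φ z₀)‖ < η ∧ ‖φ w - φ z₀‖ < η}

/-- Solvability after `k` successive subdivisions. `MixedSolvable f C η ω 0 D` says that the
equation `∑ j, f j * h j = 1` is solvable on `D` with the bound `C`. And
`MixedSolvable f C η ω (k + 1) D` says that, in suitable coordinates `φ`, there is either a complex
line through `0` such that all the pieces of `D` cut out by the cells of relative size `η` with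
respect to this line, or a function `u` which oscillates slowly near `D`, with the rate `ω`, such
that all the pieces of `D` cut out by the cells of size `η` with respect to `u`, satisfy
`MixedSolvable f C η ω k`. (The coordinates, and the line or the function, may depend on `D`, so at
the next step they may depend on the piece.) -/
def MixedSolvable {N : ℕ} (f : Fin N → E → ℂ) (C η : ℝ) (ω : ℝ → ℝ) : ℕ → Set E → Prop
  | 0, D => SolvableOn f D C
  | k + 1, D => ∃ φ ψ : E → E, IsBallAut φ ψ ∧
      ((∃ e : E, ‖e‖ = 1 ∧ ∀ z₀ ∈ D, MixedSolvable f C η ω k (D ∩ lineCell e η φ z₀)) ∨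
        ∃ u : E → ℂ, IsSlowNear ω η (φ '' D) u ∧
          ∀ z₀ ∈ D, MixedSolvable f C η ω k (D ∩ slowCell u η φ z₀))

end Pool.Agent.Lib.MP_ca0fc2_an
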