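import Mathlib
import Pool.Agent.Lib.MP_ca0fc2_an.SLKer

set_option autoImplicit false

open Metric Set MeasureTheory Filter Topology
open scoped InnerProductSpace ENNReal NNReal

namespace Pool.Agent.MPca0fc2.SL

open Pool.Agent.Lib.MP_ca0fc2_an Pool.Agent.MPca0fc2.SD

variable {E : Type*} [NormedAddCommGroup E] [InnerProductSpace ℂ E]
  [FiniteDimensional ℂ E] [MeasurableSpace E] [BorelSpace E]

/-- the integrable kernel -/
theorem kernel_low (μ : Measure E) [μ.IsAddHaarMeasure] (m : ℕ)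
    (hm : 1 ≤ m) (hdim : Module.finrank ℂ E = m + 1) :
    ∃ C : ℝ, 0 < C ∧ ∀ z : E, ‖z‖ ≤ 1 →
      IntegrableOn (fun w : E => (1 / ‖1 - ⟪w, z⟫_ℂ‖) ^ ((m + 1 : ℝ) + 1 / 2)) (ball 0 1) μ ∧
      ∫ w in ball (0 : E) 1, (1 / ‖1 - ⟪w, z⟫_ℂ‖) ^ ((m + 1 : ℝ) + 1 / 2) ∂μ ≤ C := by
  have hprop : ProperSpace E := FiniteDimensional.proper ℂ E
  have hfin : IsFiniteMeasure (μ.restrict (ball (0 : E) 1)) :=
    ⟨by rw [Measure.restrict_apply_univ]; exact measure_ball_lt_top⟩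
  set V : ℝ := 4 ^ (m + 2) * μ.real (ball 0 1) with hV
  have hV0 : 0 ≤ V := by rw [hV]; exact mul_nonneg (by positivity) measureReal_nonneg
  set p : ℝ := (m + 1 : ℝ) + 1 / 2 with hp
  have hp0 : 0 < p := by rw [hp]; positivity
  have hVge : μ.real (ball (0 : E) 1) ≤ V := by
    rw [hV]
    have h1 : (1 : ℝ) ≤ 4 ^ (m + 2) := one_le_pow₀ (by norm_num)
    have h2 : 0 ≤ μ.real (ball (0 : E) 1) := measureReal_nonneg
    nlinarith
  refine ⟨p * (V * (1 / p + 2)) + 1, by positivity, fun z hz => ?_⟩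
  have hpos : ∀ w ∈ ball (0 : E) 1, 0 < ‖1 - ⟪w, z⟫_ℂ‖ := by
    intro w hw
    rw [mem_ball_zero_iff] at hw
    have := one_sub_norm_le (a := w) hz
    linarith
  have hcont : ContinuousOn (fun w : E => 1 / ‖1 - ⟪w, z⟫_ℂ‖) (ball 0 1) := by
    apply ContinuousOn.div continuousOn_const (by fun_prop)
    intro w hw; exact (hpos w hw).ne'
  have hmeas : AEMeasurable (fun w : E => 1 / ‖1 - ⟪w, z⟫_ℂ‖) (μ.restrict (ball (0 : E) 1)) :=
    hcont.aemeasurable measurableSet_ball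
  have hcont2 : AEStronglyMeasurable (fun w : E => (1 / ‖1 - ⟪w, z⟫_ℂ‖) ^ p)
      (μ.restrict (ball (0 : E) 1)) := by
    apply ContinuousOn.aestronglyMeasurable _ measurableSet_ball
    exact hcont.rpow_const fun w _ => Or.inr hp0.le
  have hl : ∫⁻ w in ball (0 : E) 1, ENNReal.ofReal ((1 / ‖1 - ⟪w, z⟫_ℂ‖) ^ p) ∂μ ≤
      ENNReal.ofReal (p * (V * (1 / p + 2))) := by
    rw [lintegral_rpow_eq_lintegral_meas_lt_mul (μ.restrict (ball (0 : E) 1))
      (Eventually.of_forall fun w => by positivity) hmeas hp0, ENNReal.ofReal_mul hp0.le]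
    gcongr
    have hb1 : ∀ s ∈ Ioc (0 : ℝ) 1, (μ.restrict (ball (0 : E) 1))
        {w | s < 1 / ‖1 - ⟪w, z⟫_ℂ‖} * ENNReal.ofReal (s ^ (p - 1)) ≤
        ENNReal.ofReal (V * s ^ (p - 1)) := by
      intro s hs
      rw [ENNReal.ofReal_mul hV0]
      gcongr
      calc (μ.restrict (ball (0 : E) 1)) {w | s < 1 / ‖1 - ⟪w, z⟫_ℂ‖}
          ≤ (μ.restrict (ball (0 : E) 1)) univ := measure_mono (subset_univ _)
        _ = ENNReal.ofReal (μ.real (ball 0 1)) := by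
          rw [Measure.restrict_apply_univ, measureReal_def, ENNReal.ofReal_toReal]
          exact measure_ball_lt_top.ne
        _ ≤ _ := ENNReal.ofReal_le_ofReal hVge
    have hb2 : ∀ s ∈ Ioi (1 : ℝ), (μ.restrict (ball (0 : E) 1))
        {w | s < 1 / ‖1 - ⟪w, z⟫_ℂ‖} * ENNReal.ofReal (s ^ (p - 1)) ≤
        ENNReal.ofReal (V * s ^ (-(3 / 2) : ℝ)) := by
      intro s hs
      have hs1 : (1 : ℝ) < s := hs
      have hs0 : (0 : ℝ) < s := by linarith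
      have h1 : (μ.restrict (ball (0 : E) 1)) {w | s < 1 / ‖1 - ⟪w, z⟫_ℂ‖} ≤
          ENNReal.ofReal (V * (1 / s) ^ (m + 2)) := by
        calc (μ.restrict (ball (0 : E) 1)) {w | s < 1 / ‖1 - ⟪w, z⟫_ℂ‖}
            ≤ (μ.restrict (ball (0 : E) 1)) {w | ‖1 - ⟪w, z⟫_ℂ‖ < 1 / s} := by
              apply measure_mono
              intro w (hw : s < 1 / ‖1 - ⟪w, z⟫_ℂ‖)
              show ‖1 - ⟪w, z⟫_ℂ‖ < 1 / s
              have hn : 0 < ‖1 - ⟪w, z⟫_ℂ‖ := by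
                rcases eq_or_lt_of_le (norm_nonneg (1 - ⟪w, z⟫_ℂ)) with h | h
                · rw [← h, div_zero] at hw; linarith
                · exact h
              rw [lt_div_iff₀ hn] at hw
              rw [lt_div_iff₀ hs0]
              linarith
          _ = ENNReal.ofReal ((μ.restrict (ball (0 : E) 1)).real
              {w | ‖1 - ⟪w, z⟫_ℂ‖ < 1 / s}) := by
              rw [measureReal_def, ENNReal.ofReal_toReal (measure_ne_top _ _)]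
          _ ≤ _ := ENNReal.ofReal_le_ofReal (vol_est μ m hm hdim hz (by positivity))
      calc _ ≤ ENNReal.ofReal (V * (1 / s) ^ (m + 2)) * ENNReal.ofReal (s ^ (p - 1)) := by
            gcongr
        _ = ENNReal.ofReal (V * s ^ (-(3 / 2) : ℝ)) := by
            rw [← ENNReal.ofReal_mul (by positivity)]
            congr 1
            rw [mul_assoc]
            congr 1
            have e1 : (1 / s) ^ (m + 2) = s ^ (-(m + 2 : ℝ)) := by
              rw [Real.rpow_neg hs0.le, one_div, inv_pow]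
              congr 1
              exact_mod_cast (Real.rpow_natCast s (m + 2)).symm
            rw [e1, ← Real.rpow_add hs0]
            congr 1
            rw [hp]; ring
    have hsplit : Ioi (0 : ℝ) = Ioc 0 1 ∪ Ioi 1 := (Ioc_union_Ioi_eq_Ioi zero_le_one).symm
    have hdis : Disjoint (Ioc (0 : ℝ) 1) (Ioi 1) := by
      rw [Set.disjoint_left]
      intro x hx hx'
      exact absurd hx.2 (not_le.mpr hx')
    rw [hsplit, lintegral_union measurableSet_Ioi hdis]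
    have hI1 : ∫⁻ s in Ioc (0 : ℝ) 1, ENNReal.ofReal (V * s ^ (p - 1)) =
        ENNReal.ofReal (V * (1 / p)) := by
      rw [← ofReal_integral_eq_lintegral_ofReal]
      · congr 1
        rw [integral_const_mul, ← intervalIntegral.integral_of_le zero_le_one,
          integral_rpow (Or.inl (by rw [hp]; have : (0 : ℝ) ≤ m := Nat.cast_nonneg m; linarith))]
        congr 1
        rw [sub_add_cancel, Real.one_rpow, Real.zero_rpow hp0.ne', sub_zero]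
      · apply Integrable.const_mul
        have := intervalIntegral.intervalIntegrable_rpow' (a := 0) (b := 1)
          (r := p - 1) (by rw [hp]; have : (0 : ℝ) ≤ m := Nat.cast_nonneg m; linarith)
        rw [intervalIntegrable_iff_integrableOn_Ioc_of_le (by positivity)] at this
        exact this
      · refine (ae_restrict_iff' measurableSet_Ioc).mpr (Eventually.of_forall fun s hs => ?_)
        have := hs.1
        positivity
    have hI2 : ∫⁻ s in Ioi (1 : ℝ), ENNReal.ofReal (V * s ^ (-(3 / 2) : ℝ)) =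
        ENNReal.ofReal (V * 2) := by
      rw [← ofReal_integral_eq_lintegral_ofReal]
      · congr 1
        rw [integral_const_mul, integral_Ioi_rpow_of_lt (by norm_num) one_pos]
        congr 1
        rw [Real.one_rpow]; norm_num
      · apply Integrable.const_mul
        exact integrableOn_Ioi_rpow_of_lt (by norm_num) one_pos
      · refine (ae_restrict_iff' measurableSet_Ioi).mpr (Eventually.of_forall fun s hs => ?_)
        have : (1 : ℝ) < s := hs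
        have : 0 < s := by linarith
        positivity
    calc _ ≤ (∫⁻ s in Ioc (0 : ℝ) 1, ENNReal.ofReal (V * s ^ (p - 1))) +
          ∫⁻ s in Ioi (1 : ℝ), ENNReal.ofReal (V * s ^ (-(3 / 2) : ℝ)) :=
          add_le_add (setLIntegral_mono' measurableSet_Ioc hb1)
            (setLIntegral_mono' measurableSet_Ioi hb2)
      _ = ENNReal.ofReal (V * (1 / p)) + ENNReal.ofReal (V * 2) := by rw [hI1, hI2]
      _ = _ := by
          rw [← ENNReal.ofReal_add (by positivity) (by positivity)]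
          congr 1
          ring
  have hnn : 0 ≤ᵐ[μ.restrict (ball (0 : E) 1)] (fun w : E => (1 / ‖1 - ⟪w, z⟫_ℂ‖) ^ p) :=
    Eventually.of_forall fun w => by positivity
  have hint : IntegrableOn (fun w : E => (1 / ‖1 - ⟪w, z⟫_ℂ‖) ^ p) (ball 0 1) μ := by
    refine ⟨hcont2, ?_⟩
    rw [hasFiniteIntegral_iff_ofReal hnn]
    exact hl.trans_lt ENNReal.ofReal_lt_top
  refine ⟨hint, ?_⟩
  rw [integral_eq_lintegral_of_nonneg_ae hnn hcont2]
  have h1 := ENNReal.toReal_mono ENNReal.ofReal_ne_top hl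
  rw [ENNReal.toReal_ofReal (by positivity)] at h1
  linarith

/-- the weighted Bergman projection reproduces bounded holomorphic functions -/
theorem PP_repr (μ : Measure E) [μ.IsAddHaarMeasure] (m : ℕ)
    (hm : 1 ≤ m) (hdim : Module.finrank ℂ E = m + 1) {F : E → ℂ} {M : ℝ}
    (hF : DifferentiableOn ℂ F (ball 0 1)) (hM : ∀ z ∈ ball (0 : E) 1, ‖F z‖ ≤ M) {z : E}
    (hz : ‖z‖ < 1) : PP μ m F z = F z := by
  obtain ⟨CK, hCK0, hCK⟩ := PP_local μ m hm hdim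
  have hM0 : 0 ≤ M := (norm_nonneg _).trans (hM 0 (mem_ball_self one_pos))
  set t : ℝ := 1 - ‖z‖ with ht
  have ht0 : 0 < t := by rw [ht]; linarith
  have key : ∀ X : ℝ, 20 ≤ X → ‖PP μ m F z - F z‖ ≤ CK * (0 + (M / t) / Real.sqrt X) := by
    intro X hX
    apply hCK t X (M / t) 0 M z F F ht0 (by rw [ht]; linarith [norm_nonneg z]) hX
      (by rw [ht]; linarith [norm_nonneg z]) (by rw [ht]; linarith) (by positivity) le_rfl
    · exact hF.continuousOn.aestronglyMeasurable measurableSet_ball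
    · intro w hw
      have h1 : 0 ≤ 1 - ‖w‖ ^ 2 := by
        rw [mem_ball_zero_iff] at hw
        nlinarith [norm_nonneg w]
      rw [div_mul_cancel₀ _ ht0.ne']
      have h2 := hM w hw
      nlinarith [sq_nonneg ‖w‖, norm_nonneg (F w)]
    · exact hF.mono fun w hw => hw.1
    · exact fun w hw _ => hM w hw
    · intro w _ _
      simp
  have hlim : Tendsto (fun X : ℝ => CK * (0 + (M / t) / Real.sqrt X)) atTop (𝓝 0) := by
    have h1 : Tendsto (fun X : ℝ => (M / t) / Real.sqrt X) atTop (𝓝 0) :=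
      Tendsto.div_atTop tendsto_const_nhds Real.tendsto_sqrt_atTop
    have h2 := (h1.const_add 0).const_mul CK
    simpa using h2
  have h3 : ‖PP μ m F z - F z‖ ≤ 0 :=
    ge_of_tendsto hlim (by filter_upwards [eventually_ge_atTop 20] with X hX using key X hX)
  exact sub_eq_zero.mp (norm_le_zero_iff.mp h3)

/-- the cut-off around `l` of radius `r` -/
noncomputable def kc (r : ℝ) (l w : E) : ℝ := max 0 (min 1 (2 - r⁻¹ * ‖1 - ⟪l, w⟫_ℂ‖))

omit [FiniteDimensional ℂ E] [MeasurableSpace E] [BorelSpace E] in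
theorem kc_nonneg (r : ℝ) (l w : E) : 0 ≤ kc r l w := le_max_left _ _

omit [FiniteDimensional ℂ E] [MeasurableSpace E] [BorelSpace E] in
theorem kc_le_one (r : ℝ) (l w : E) : kc r l w ≤ 1 := max_le zero_le_one (min_le_left _ _)

omit [FiniteDimensional ℂ E] [MeasurableSpace E] [BorelSpace E] in
theorem kc_one {r : ℝ} (hr : 0 < r) {l w : E} (h : ‖1 - ⟪l, w⟫_ℂ‖ ≤ r) : kc r l w = 1 := by
  unfold kc
  have h1 : r⁻¹ * ‖1 - ⟪l, w⟫_ℂ‖ ≤ 1 := by
    rw [inv_mul_le_iff₀ hr, mul_one]; exact h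
  rw [min_eq_left (by linarith), max_eq_right zero_le_one]

omit [FiniteDimensional ℂ E] [MeasurableSpace E] [BorelSpace E] in
theorem kc_zero {r : ℝ} (hr : 0 < r) {l w : E} (h : 2 * r ≤ ‖1 - ⟪l, w⟫_ℂ‖) : kc r l w = 0 := by
  unfold kc
  have h1 : 2 ≤ r⁻¹ * ‖1 - ⟪l, w⟫_ℂ‖ := by
    rw [le_inv_mul_iff₀ hr]; linarith
  rw [max_eq_left]
  exact (min_le_right _ _).trans (by linarith)

omit [FiniteDimensional ℂ E] [MeasurableSpace E] [BorelSpace E] in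
theorem kc_cont (r : ℝ) (l : E) : Continuous (kc r l) := by
  unfold kc
  fun_prop

omit [FiniteDimensional ℂ E] [MeasurableSpace E] [BorelSpace E] in
theorem kc_lip {r : ℝ} (hr : 0 < r) {l : E} (hl : ‖l‖ = 1) (w z : E) :
    |kc r l w - kc r l z| ≤ r⁻¹ * ‖w - z‖ := by
  unfold kc
  have h1 : |‖1 - ⟪l, w⟫_ℂ‖ - ‖1 - ⟪l, z⟫_ℂ‖| ≤ ‖w - z‖ := by
    refine (abs_norm_sub_norm_le _ _).trans ?_
    have e1 : 1 - ⟪l, w⟫_ℂ - (1 - ⟪l, z⟫_ℂ) = -⟪l, w - z⟫_ℂ := by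
      rw [inner_sub_right]; ring
    rw [e1, norm_neg]
    calc _ ≤ ‖l‖ * ‖w - z‖ := norm_inner_le_norm _ _
      _ = _ := by rw [hl, one_mul]
  have h2 := abs_max_sub_max_le_max 0 (min 1 (2 - r⁻¹ * ‖1 - ⟪l, w⟫_ℂ‖)) 0
    (min 1 (2 - r⁻¹ * ‖1 - ⟪l, z⟫_ℂ‖))
  have h3 := abs_min_sub_min_le_max 1 (2 - r⁻¹ * ‖1 - ⟪l, w⟫_ℂ‖) 1 (2 - r⁻¹ * ‖1 - ⟪l, z⟫_ℂ‖)
  have hr' : 0 < r⁻¹ := inv_pos.mpr hr
  have h4 : |2 - r⁻¹ * ‖1 - ⟪l, w⟫_ℂ‖ - (2 - r⁻¹ * ‖1 - ⟪l, z⟫_ℂ‖)| ≤ r⁻¹ * ‖w - z‖ := by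
    rw [show 2 - r⁻¹ * ‖1 - ⟪l, w⟫_ℂ‖ - (2 - r⁻¹ * ‖1 - ⟪l, z⟫_ℂ‖) =
      -(r⁻¹ * (‖1 - ⟪l, w⟫_ℂ‖ - ‖1 - ⟪l, z⟫_ℂ‖)) by ring, abs_neg, abs_mul, abs_of_pos hr']
    gcongr
  have h0 : 0 ≤ r⁻¹ * ‖w - z‖ := by positivity
  refine h2.trans (max_le (by simpa using h0) ?_)
  exact h3.trans (max_le (by simpa using h0) h4)

theorem PP_integrable (μ : Measure E) [μ.IsAddHaarMeasure] (m : ℕ) {F : E → ℂ} {B : ℝ}
    (hF : AEStronglyMeasurable F (μ.restrict (ball 0 1))) (hB : ∀ w ∈ ball (0 : E) 1, ‖F w‖ ≤ B)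
    {z : E} (hz : ‖z‖ < 1) :
    IntegrableOn (fun w => F w * (((1 - ‖w‖ ^ 2) ^ 2 : ℝ) : ℂ) / (1 - ⟪w, z⟫_ℂ) ^ (m + 4))
      (ball 0 1) μ := by
  have hprop : ProperSpace E := FiniteDimensional.proper ℂ E
  have hB0 : 0 ≤ B := (norm_nonneg _).trans (hB 0 (mem_ball_self one_pos))
  set r : ℝ := 1 - ‖z‖ with hr
  have hr0 : 0 < r := by rw [hr]; linarith
  have hlow : ∀ w ∈ ball (0 : E) 1, r ≤ ‖1 - ⟪w, z⟫_ℂ‖ := by
    intro w hw
    rw [mem_ball_zero_iff] at hw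
    have h2 : ‖⟪w, z⟫_ℂ‖ ≤ ‖z‖ := by
      refine (norm_inner_le_norm w z).trans ?_
      nlinarith [norm_nonneg w, norm_nonneg z]
    calc r ≤ ‖(1 : ℂ)‖ - ‖⟪w, z⟫_ℂ‖ := by rw [norm_one]; linarith
      _ ≤ _ := norm_sub_norm_le _ _
  have hfin : IsFiniteMeasure (μ.restrict (ball (0 : E) 1)) :=
    ⟨by rw [Measure.restrict_apply_univ]; exact measure_ball_lt_top⟩
  refine Integrable.mono' (g := fun _ => B * 1 / r ^ (m + 4)) (integrable_const _) ?_ ?_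
  · have hc : ContinuousOn (fun w : E => (((1 - ‖w‖ ^ 2) ^ 2 : ℝ) : ℂ) /
        (1 - ⟪w, z⟫_ℂ) ^ (m + 4)) (ball 0 1) := by
      apply ContinuousOn.div
      · apply Continuous.continuousOn; fun_prop
      · apply Continuous.continuousOn; fun_prop
      · intro w hw
        apply pow_ne_zero
        rw [← norm_pos_iff]
        linarith [hlow w hw]
    have := hF.mul (hc.aestronglyMeasurable measurableSet_ball)
    refine this.congr (Eventually.of_forall fun w => ?_)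
    simp only [Pi.mul_apply, mul_div_assoc]
  · refine (ae_restrict_iff' measurableSet_ball).mpr (Eventually.of_forall fun w hw => ?_)
    have h1 := hlow w hw
    rw [norm_div, norm_mul, Complex.norm_real, norm_pow (1 - ⟪w, z⟫_ℂ)]
    have h2 : ‖(1 - ‖w‖ ^ 2) ^ 2‖ ≤ 1 := by
      rw [mem_ball_zero_iff] at hw
      rw [Real.norm_of_nonneg (by positivity)]
      have : 0 ≤ 1 - ‖w‖ ^ 2 := by nlinarith [norm_nonneg w]
      apply pow_le_one₀ this
      nlinarith [sq_nonneg ‖w‖]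
    have h3 := hB w hw
    gcongr

/-- Cutting off a bounded holomorphic function near a boundary point. -/
theorem cut_fn (μ : Measure E) [μ.IsAddHaarMeasure] (m : ℕ)
    (hm : 1 ≤ m) (hdim : Module.finrank ℂ E = m + 1) {r : ℝ} (hr : 0 < r) :
    ∃ C : ℝ, 0 < C ∧ ∀ (l : E) (F : E → ℂ) (M : ℝ), ‖l‖ = 1 →
      DifferentiableOn ℂ F (ball 0 1) → (∀ z ∈ ball (0 : E) 1, ‖F z‖ ≤ M) →
      ∃ g : E → ℂ, DifferentiableOn ℂ g (ball 0 1) ∧ (∀ z ∈ ball (0 : E) 1, ‖g z‖ ≤ C * M) ∧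
        (∀ z ∈ ball (0 : E) 1, ‖1 - ⟪l, z⟫_ℂ‖ < 2 * r →
          (1 - ‖z‖) * ‖fderiv ℂ g z‖ ≤ (1 - ‖z‖) * ‖fderiv ℂ F z‖ + C * M * Real.sqrt (1 - ‖z‖)) ∧
        (∀ z ∈ ball (0 : E) 1, 2 * r ≤ ‖1 - ⟪l, z⟫_ℂ‖ →
          (1 - ‖z‖) * ‖fderiv ℂ g z‖ ≤ C * M * Real.sqrt (1 - ‖z‖)) ∧
        (∀ z ∈ ball (0 : E) 1, ‖z - l‖ ≤ r / 2 → ‖g z - F z‖ ≤ C * M * ‖z - l‖) := by
  obtain ⟨C₁, hC₁0, hC₁⟩ := kernel_low μ m hm hdim
  obtain ⟨C₂, hC₂0, hC₂⟩ := kernel_int μ m hm hdim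
  have hcw := cw_pos μ
  have hprop : ProperSpace E := FiniteDimensional.proper ℂ E
  set c₁ : ℝ := (cw μ)⁻¹ * (4 * r⁻¹ * Real.sqrt 2 * C₁) with hc₁
  set c₂ : ℝ := (cw μ)⁻¹ * (4 * r⁻¹ * Real.sqrt 2 * ((m + 4) * (4 / 3) ^ (m + 5)) * 41 ^ (m + 3) * C₂)
    with hc₂
  set c₃ : ℝ := (m + 4) * (2 * r⁻¹) ^ (m + 5) with hc₃
  have hc₁0 : 0 < c₁ := by rw [hc₁]; positivity
  have hc₂0 : 0 < c₂ := by rw [hc₂]; positivity
  have hc₃0 : 0 < c₃ := by rw [hc₃]; positivity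
  refine ⟨1 + c₁ + 8 * c₂ + c₃ + r⁻¹ ^ (m + 4), by positivity, fun l F M hl hF hM => ?_⟩
  have hM0 : 0 ≤ M := (norm_nonneg _).trans (hM 0 (mem_ball_self one_pos))
  have hFm : AEStronglyMeasurable F (μ.restrict (ball 0 1)) :=
    hF.continuousOn.aestronglyMeasurable measurableSet_ball
  have hkm : ∀ a : ℝ, AEStronglyMeasurable (fun w => ((kc r l w - a : ℝ) : ℂ) * F w)
      (μ.restrict (ball 0 1)) := by
    intro a
    have h1 : Continuous (fun w => ((kc r l w - a : ℝ) : ℂ)) :=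
      Complex.continuous_ofReal.comp ((kc_cont r l).sub continuous_const)
    exact h1.aestronglyMeasurable.mul hFm
  have hkb : ∀ a : ℝ, 0 ≤ a → a ≤ 1 → ∀ w ∈ ball (0 : E) 1, ‖((kc r l w - a : ℝ) : ℂ) * F w‖ ≤ M := by
    intro a ha0 ha1 w hw
    rw [norm_mul, Complex.norm_real, Real.norm_eq_abs]
    have h1 : |kc r l w - a| ≤ 1 := by
      rw [abs_le]; constructor <;> linarith [kc_nonneg r l w, kc_le_one r l w]
    calc |kc r l w - a| * ‖F w‖ ≤ 1 * M := mul_le_mul h1 (hM w hw) (norm_nonneg _) zero_le_one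
      _ = M := one_mul M
  -- the difference formula
  have hlin : ∀ a : ℝ, 0 ≤ a → a ≤ 1 → ∀ z : E, ‖z‖ < 1 →
      PP μ m (fun w => (kc r l w : ℂ) * F w) z =
        PP μ m (fun w => ((kc r l w - a : ℝ) : ℂ) * F w) z + a * F z := by
    intro a ha0 ha1 z hz
    have h1 := PP_integrable μ m (hkm a) (hkb a ha0 ha1) hz
    have h2 := PP_integrable μ m hFm hM hz
    have h3 := PP_repr μ m hm hdim hF hM hz
    rw [← h3]
    have h4 : ∫ w in ball (0 : E) 1, (kc r l w : ℂ) * F w * (((1 - ‖w‖ ^ 2) ^ 2 : ℝ) : ℂ) /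
        (1 - ⟪w, z⟫_ℂ) ^ (m + 4) ∂μ =
        (∫ w in ball (0 : E) 1, ((kc r l w - a : ℝ) : ℂ) * F w * (((1 - ‖w‖ ^ 2) ^ 2 : ℝ) : ℂ) /
        (1 - ⟪w, z⟫_ℂ) ^ (m + 4) ∂μ) + (a : ℂ) * ∫ w in ball (0 : E) 1,
        F w * (((1 - ‖w‖ ^ 2) ^ 2 : ℝ) : ℂ) / (1 - ⟪w, z⟫_ℂ) ^ (m + 4) ∂μ := by
      rw [← integral_const_mul, ← integral_add h1 (h2.const_mul _)]
      apply setIntegral_congr_fun measurableSet_ball
      intro w _
      simp only
      push_cast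
      ring
    unfold PP
    rw [h4]
    ring
  have hW : ∀ {w z : E}, ‖w‖ < 1 → ‖z‖ ≤ 1 → (1 - ‖w‖ ^ 2) ^ 2 ≤ 4 * ‖1 - ⟪w, z⟫_ℂ‖ ^ 2 := by
    intro w z hw hz
    have h1 := one_sub_sq_le hw hz
    have h2 : 0 ≤ 1 - ‖w‖ ^ 2 := by nlinarith [norm_nonneg w]
    calc (1 - ‖w‖ ^ 2) ^ 2 ≤ (2 * ‖1 - ⟪w, z⟫_ℂ‖) ^ 2 := pow_le_pow_left₀ h2 h1 2
      _ = _ := by ring
  have hkd : ∀ {w z : E}, ‖w‖ < 1 → ‖z‖ < 1 →
      |kc r l w - kc r l z| ≤ r⁻¹ * Real.sqrt 2 * Real.sqrt ‖1 - ⟪w, z⟫_ℂ‖ := by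
    intro w z hw hz
    refine (kc_lip hr hl w z).trans ?_
    rw [mul_assoc, ← Real.sqrt_mul (by norm_num)]
    apply mul_le_mul_of_nonneg_left _ (inv_pos.mpr hr).le
    apply Real.le_sqrt_of_sq_le
    rw [norm_sub_rev]
    exact norm_sub_sq_le_two hw.le hz.le
  have hDpos : ∀ {w z : E}, ‖w‖ < 1 → ‖z‖ ≤ 1 → 0 < ‖1 - ⟪w, z⟫_ℂ‖ := by
    intro w z hw hz
    have := one_sub_norm_le (a := w) hz
    linarith
  -- first estimate
  have hQ1 : ∀ z : E, ‖z‖ < 1 →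
      ‖PP μ m (fun w => ((kc r l w - kc r l z : ℝ) : ℂ) * F w) z‖ ≤ c₁ * M := by
    intro z hz
    obtain ⟨hki, hkb'⟩ := hC₁ z hz.le
    unfold PP
    rw [norm_mul, norm_inv, Complex.norm_real, Real.norm_of_nonneg hcw.le, hc₁]
    rw [mul_assoc]
    apply mul_le_mul_of_nonneg_left _ (by positivity)
    have h1 : ‖∫ w in ball (0 : E) 1, ((kc r l w - kc r l z : ℝ) : ℂ) * F w *
        (((1 - ‖w‖ ^ 2) ^ 2 : ℝ) : ℂ) / (1 - ⟪w, z⟫_ℂ) ^ (m + 4) ∂μ‖ ≤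
        ∫ w in ball (0 : E) 1, (4 * r⁻¹ * Real.sqrt 2 * M) *
          (1 / ‖1 - ⟪w, z⟫_ℂ‖) ^ ((m + 1 : ℝ) + 1 / 2) ∂μ := by
      apply norm_integral_le_of_norm_le (hki.const_mul _)
      refine (ae_restrict_iff' measurableSet_ball).mpr (Eventually.of_forall fun w hw => ?_)
      have hw' := hw
      rw [mem_ball_zero_iff] at hw'
      rw [norm_div, norm_mul, norm_mul, Complex.norm_real, Complex.norm_real,
        norm_pow (1 - ⟪w, z⟫_ℂ), Real.norm_eq_abs,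
        Real.norm_of_nonneg (show 0 ≤ (1 - ‖w‖ ^ 2) ^ 2 by positivity)]
      have h2 := hkd hw' hz
      have h3 := hW hw' hz.le
      have h4 := hM w hw
      have hD := hDpos hw' hz.le
      set D := ‖1 - ⟪w, z⟫_ℂ‖ with hDdef
      have e1 : (1 / D) ^ ((m + 1 : ℝ) + 1 / 2) = Real.sqrt D / D ^ (m + 2) := by
        rw [one_div, Real.inv_rpow hD.le, Real.rpow_add hD,
          show ((m : ℝ) + 1) = ((m + 1 : ℕ) : ℝ) by push_cast; ring, Real.rpow_natCast,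
          ← Real.sqrt_eq_rpow]
        have h5 : Real.sqrt D * Real.sqrt D = D := Real.mul_self_sqrt hD.le
        have h6 : (Real.sqrt D)⁻¹ = Real.sqrt D / D := by
          rw [eq_div_iff hD.ne']
          nth_rewrite 2 [← h5]
          field_simp
        rw [mul_inv, h6, pow_succ D (m + 1)]
        field_simp
      rw [e1]
      calc |kc r l w - kc r l z| * ‖F w‖ * (1 - ‖w‖ ^ 2) ^ 2 / D ^ (m + 4)
          ≤ (r⁻¹ * Real.sqrt 2 * Real.sqrt D) * M * (4 * D ^ 2) / D ^ (m + 4) := by gcongr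
        _ = _ := by
          rw [show m + 4 = (m + 2) + 2 by ring, pow_add D (m + 2) 2]
          field_simp
    rw [integral_const_mul] at h1
    calc _ ≤ _ := h1
      _ ≤ 4 * r⁻¹ * Real.sqrt 2 * M * C₁ := by gcongr
      _ = _ := by ring
  -- second estimate
  have hQ2 : ∀ z₀ : E, ‖z₀‖ < 1 → ∀ z ∈ ball z₀ ((1 - ‖z₀‖) / 4),
      ‖PP μ m (fun w => ((kc r l w - kc r l z₀ : ℝ) : ℂ) * F w) z -
        PP μ m (fun w => ((kc r l w - kc r l z₀ : ℝ) : ℂ) * F w) z₀‖ ≤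
        c₂ * M * Real.sqrt (1 - ‖z₀‖) := by
    intro z₀ hz₀ z hz
    set t : ℝ := 1 - ‖z₀‖ with ht
    have ht0 : 0 < t := by rw [ht]; linarith
    have hzz : ‖z - z₀‖ < t / 4 := by rwa [mem_ball, dist_eq_norm] at hz
    have hz1 : ‖z‖ < 1 := by
      have := norm_le_insert' z z₀
      linarith
    obtain ⟨hki, hkb'⟩ := hC₂ z₀ hz₀.le t ht0
    have hkb'' : ∫ w in ball (0 : E) 1, kint m t w z₀ ∂μ ≤ C₂ := hkb'
    have ha0 := kc_nonneg r l z₀
    have ha1 := kc_le_one r l z₀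
    have i1 := PP_integrable μ m (hkm _) (hkb _ ha0 ha1) hz1
    have i2 := PP_integrable μ m (hkm _) (hkb _ ha0 ha1) hz₀
    unfold PP
    rw [← mul_sub, ← integral_sub i1 i2, norm_mul, norm_inv, Complex.norm_real,
      Real.norm_of_nonneg hcw.le, hc₂]
    have h1 : ‖∫ w in ball (0 : E) 1, (((kc r l w - kc r l z₀ : ℝ) : ℂ) * F w *
        (((1 - ‖w‖ ^ 2) ^ 2 : ℝ) : ℂ) / (1 - ⟪w, z⟫_ℂ) ^ (m + 4) -
        ((kc r l w - kc r l z₀ : ℝ) : ℂ) * F w *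
        (((1 - ‖w‖ ^ 2) ^ 2 : ℝ) : ℂ) / (1 - ⟪w, z₀⟫_ℂ) ^ (m + 4)) ∂μ‖ ≤
        ∫ w in ball (0 : E) 1, (4 * r⁻¹ * Real.sqrt 2 * ((m + 4) * (4 / 3) ^ (m + 5)) * 41 ^ (m + 3) *
          (M * Real.sqrt t)) * kint m t w z₀ ∂μ := by
      apply norm_integral_le_of_norm_le (hki.const_mul _)
      refine (ae_restrict_iff' measurableSet_ball).mpr (Eventually.of_forall fun w hw => ?_)
      show _ ≤ (4 * r⁻¹ * Real.sqrt 2 * ((m + 4) * (4 / 3) ^ (m + 5)) * 41 ^ (m + 3) *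
          (M * Real.sqrt t)) * kint m t w z₀
      have hw' := hw
      rw [mem_ball_zero_iff] at hw'
      have h2 := hkd hw' hz₀
      have h3 := hW hw' hz₀.le
      have h4 := hM w hw
      have hD := hDpos hw' hz₀.le
      have hDt : t ≤ ‖1 - ⟪w, z₀⟫_ℂ‖ := by
        have h5 : ‖⟪w, z₀⟫_ℂ‖ ≤ ‖z₀‖ := by
          refine (norm_inner_le_norm w z₀).trans ?_
          nlinarith [norm_nonneg w, norm_nonneg z₀]
        calc t ≤ ‖(1 : ℂ)‖ - ‖⟪w, z₀⟫_ℂ‖ := by rw [norm_one]; linarith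
          _ ≤ _ := norm_sub_norm_le _ _
      have hk := kint_ge m ht0 hw' (z := z₀) (by rw [ht]; linarith)
      set D := ‖1 - ⟪w, z₀⟫_ℂ‖ with hDdef
      have hdz : ‖⟪w, z⟫_ℂ - ⟪w, z₀⟫_ℂ‖ ≤ t / 4 := by
        rw [← inner_sub_right]
        calc ‖⟪w, z - z₀⟫_ℂ‖ ≤ ‖w‖ * ‖z - z₀‖ := norm_inner_le_norm _ _
          _ ≤ 1 * (t / 4) := by gcongr
          _ = _ := one_mul _
      have hD2 : 3 / 4 * D ≤ ‖1 - ⟪w, z⟫_ℂ‖ := by
        have h5 : ‖1 - ⟪w, z₀⟫_ℂ‖ ≤ ‖1 - ⟪w, z⟫_ℂ‖ + ‖⟪w, z⟫_ℂ - ⟪w, z₀⟫_ℂ‖ := by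
          calc _ = ‖(1 - ⟪w, z⟫_ℂ) + (⟪w, z⟫_ℂ - ⟪w, z₀⟫_ℂ)‖ := by congr 1; ring
            _ ≤ _ := norm_add_le _ _
        rw [← hDdef] at h5
        linarith
      have hks := kap_sub (m := m + 2) (a := ⟪w, z⟫_ℂ) (b := ⟪w, z₀⟫_ℂ) (q := 3 / 4 * D)
        (by positivity) hD2 (by rw [← hDdef]; linarith)
      have e1 : ((kc r l w - kc r l z₀ : ℝ) : ℂ) * F w *
        (((1 - ‖w‖ ^ 2) ^ 2 : ℝ) : ℂ) / (1 - ⟪w, z⟫_ℂ) ^ (m + 4) -
        ((kc r l w - kc r l z₀ : ℝ) : ℂ) * F w *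
        (((1 - ‖w‖ ^ 2) ^ 2 : ℝ) : ℂ) / (1 - ⟪w, z₀⟫_ℂ) ^ (m + 4) =
        ((kc r l w - kc r l z₀ : ℝ) : ℂ) * F w * (((1 - ‖w‖ ^ 2) ^ 2 : ℝ) : ℂ) *
          (kap (m + 2) ⟪w, z⟫_ℂ - kap (m + 2) ⟪w, z₀⟫_ℂ) := by
        unfold kap
        ring
      rw [e1, norm_mul, norm_mul, norm_mul, Complex.norm_real, Complex.norm_real,
        Real.norm_eq_abs, Real.norm_of_nonneg (show 0 ≤ (1 - ‖w‖ ^ 2) ^ 2 by positivity)]
      have hst : Real.sqrt t * Real.sqrt t = t := Real.mul_self_sqrt ht0.le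
      have hks2 : ‖kap (m + 2) ⟪w, z⟫_ℂ - kap (m + 2) ⟪w, z₀⟫_ℂ‖ ≤
          ((m + 4) * (4 / 3) ^ (m + 5)) * t / D ^ (m + 5) := by
        refine hks.trans ?_
        rw [mul_pow]
        have e2 : (((m + 2 : ℕ) : ℝ) + 2) * ‖⟪w, z⟫_ℂ - ⟪w, z₀⟫_ℂ‖ /
            ((3 / 4) ^ (m + 2 + 3) * D ^ (m + 2 + 3)) =
            ((m + 4) * (4 / 3) ^ (m + 5)) * ‖⟪w, z⟫_ℂ - ⟪w, z₀⟫_ℂ‖ / D ^ (m + 5) := by
          rw [show (3 / 4 : ℝ) = (4 / 3)⁻¹ by norm_num, inv_pow]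
          push_cast
          field_simp
          ring
        rw [e2]
        have h7 : ‖⟪w, z⟫_ℂ - ⟪w, z₀⟫_ℂ‖ ≤ t := by linarith
        gcongr
      calc |kc r l w - kc r l z₀| * ‖F w‖ * (1 - ‖w‖ ^ 2) ^ 2 *
            ‖kap (m + 2) ⟪w, z⟫_ℂ - kap (m + 2) ⟪w, z₀⟫_ℂ‖
          ≤ (r⁻¹ * Real.sqrt 2 * Real.sqrt D) * M * (4 * D ^ 2) *
            (((m + 4) * (4 / 3) ^ (m + 5)) * t / D ^ (m + 5)) := by gcongr
        _ = 4 * r⁻¹ * Real.sqrt 2 * ((m + 4) * (4 / 3) ^ (m + 5)) * M * Real.sqrt t *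
            (Real.sqrt t * Real.sqrt D / D ^ (m + 3)) := by
            rw [show m + 5 = (m + 3) + 2 by ring, pow_add D (m + 3) 2]
            nth_rewrite 1 [← hst]
            field_simp
        _ ≤ 4 * r⁻¹ * Real.sqrt 2 * ((m + 4) * (4 / 3) ^ (m + 5)) * M * Real.sqrt t *
            (Real.sqrt t * Real.sqrt (D + t) / D ^ (m + 3)) := by
            have : Real.sqrt D ≤ Real.sqrt (D + t) := Real.sqrt_le_sqrt (by linarith)
            gcongr
        _ ≤ 4 * r⁻¹ * Real.sqrt 2 * ((m + 4) * (4 / 3) ^ (m + 5)) * M * Real.sqrt t *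
            (41 ^ (m + 3) * kint m t w z₀) := by gcongr
        _ = _ := by ring
    rw [integral_const_mul] at h1
    calc _ ≤ (cw μ)⁻¹ * ((4 * r⁻¹ * Real.sqrt 2 * ((m + 4) * (4 / 3) ^ (m + 5)) * 41 ^ (m + 3) *
          (M * Real.sqrt t)) * C₂) := by
          gcongr
          refine h1.trans ?_
          gcongr
      _ = _ := by ring
  -- holomorphy
  have hGh : DifferentiableOn ℂ (PP μ m (fun w => (kc r l w : ℂ) * F w)) (ball 0 1) := by
    apply PP_holo μ m (B := M)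
    · have := hkm 0
      simpa using this
    · intro w hw
      have := hkb 0 le_rfl zero_le_one w hw
      simpa using this
  set cl : ℂ := -((cw μ : ℂ)⁻¹ * ∫ w in ball (0 : E) 1, ((kc r l w - 1 : ℝ) : ℂ) * F w *
    (((1 - ‖w‖ ^ 2) ^ 2 : ℝ) : ℂ) / (1 - ⟪w, l⟫_ℂ) ^ (m + 4) ∂μ) with hcl
  have hWint : IntegrableOn (fun w : E => (1 - ‖w‖ ^ 2) ^ 2) (ball 0 1) μ := by
    have hc : Continuous (fun w : E => (1 - ‖w‖ ^ 2) ^ 2) := by fun_prop
    exact (hc.continuousOn.integrableOn_compact (isCompact_closedBall 0 1)).mono_set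
      ball_subset_closedBall
  have hfar : ∀ w : E, kc r l w ≠ 1 → r < ‖1 - ⟪w, l⟫_ℂ‖ := by
    intro w hw
    by_contra hcon
    apply hw
    apply kc_one hr
    have : ‖1 - ⟪l, w⟫_ℂ‖ = ‖1 - ⟪w, l⟫_ℂ‖ := by
      rw [← RCLike.norm_conj (1 - ⟪l, w⟫_ℂ), map_sub, map_one, inner_conj_symm]
    rw [this]
    exact not_lt.mp hcon
  have hclb : ‖cl‖ ≤ r⁻¹ ^ (m + 4) * M := by
    rw [hcl, norm_neg, norm_mul, norm_inv, Complex.norm_real, Real.norm_of_nonneg hcw.le]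
    have h1 : ‖∫ w in ball (0 : E) 1, ((kc r l w - 1 : ℝ) : ℂ) * F w *
        (((1 - ‖w‖ ^ 2) ^ 2 : ℝ) : ℂ) / (1 - ⟪w, l⟫_ℂ) ^ (m + 4) ∂μ‖ ≤
        ∫ w in ball (0 : E) 1, (r⁻¹ ^ (m + 4) * M) * (1 - ‖w‖ ^ 2) ^ 2 ∂μ := by
      apply norm_integral_le_of_norm_le (hWint.const_mul _)
      refine (ae_restrict_iff' measurableSet_ball).mpr (Eventually.of_forall fun w hw => ?_)
      by_cases hk : kc r l w = 1
      · rw [hk]
        simp only [sub_self, Complex.ofReal_zero, zero_mul, zero_div, norm_zero]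
        positivity
      · have h2 := hfar w hk
        rw [norm_div, norm_mul, Complex.norm_real, norm_pow (1 - ⟪w, l⟫_ℂ),
          Real.norm_of_nonneg (show 0 ≤ (1 - ‖w‖ ^ 2) ^ 2 by positivity)]
        have h3 := hkb 1 zero_le_one le_rfl w hw
        have h4 : r ^ (m + 4) ≤ ‖1 - ⟪w, l⟫_ℂ‖ ^ (m + 4) :=
          pow_le_pow_left₀ hr.le h2.le _
        calc _ ≤ M * (1 - ‖w‖ ^ 2) ^ 2 / r ^ (m + 4) := by gcongr
          _ = _ := by
            rw [inv_pow]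
            field_simp
    rw [integral_const_mul] at h1
    calc _ ≤ (cw μ)⁻¹ * ((r⁻¹ ^ (m + 4) * M) * cw μ) := by
          gcongr
          exact h1
      _ = _ := by field_simp
  have hgr : ∀ z₀ : E, ‖z₀‖ < 1 →
      (1 - ‖z₀‖) * ‖fderiv ℂ (fun z => PP μ m (fun w => (kc r l w : ℂ) * F w) z + cl) z₀‖ ≤
      kc r l z₀ * ((1 - ‖z₀‖) * ‖fderiv ℂ F z₀‖) + 8 * c₂ * M * Real.sqrt (1 - ‖z₀‖) := by
    intro z₀ hz₀
    set t : ℝ := 1 - ‖z₀‖ with ht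
    have ht0 : 0 < t := by rw [ht]; linarith
    have ha0 := kc_nonneg r l z₀
    have ha1 := kc_le_one r l z₀
    set a := kc r l z₀ with ha
    set Q : E → ℂ := PP μ m (fun w => ((kc r l w - a : ℝ) : ℂ) * F w) with hQ
    have hzb : z₀ ∈ ball (0 : E) 1 := by rwa [mem_ball_zero_iff]
    have hnb : ball (0 : E) 1 ∈ 𝓝 z₀ := isOpen_ball.mem_nhds hzb
    have hQh : DifferentiableOn ℂ Q (ball 0 1) := PP_holo μ m (hkm a) (hkb a ha0 ha1)
    have hev : (fun z => PP μ m (fun w => (kc r l w : ℂ) * F w) z + cl) =ᶠ[𝓝 z₀]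
        fun z => (Q z + a * F z) + cl := by
      filter_upwards [hnb] with z hz
      rw [mem_ball_zero_iff] at hz
      rw [hlin a ha0 ha1 z hz]
    have hQd : DifferentiableAt ℂ Q z₀ := hQh.differentiableAt hnb
    have hFd : DifferentiableAt ℂ F z₀ := hF.differentiableAt hnb
    have hfd : fderiv ℂ (fun z => PP μ m (fun w => (kc r l w : ℂ) * F w) z + cl) z₀ =
        fderiv ℂ Q z₀ + (a : ℂ) • fderiv ℂ F z₀ := by
      rw [hev.fderiv_eq]
      have h1 : HasFDerivAt (fun z => (Q z + a * F z) + cl)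
          (fderiv ℂ Q z₀ + (a : ℂ) • fderiv ℂ F z₀) z₀ :=
        (hQd.hasFDerivAt.add (hFd.hasFDerivAt.const_mul (a : ℂ))).add_const cl
      exact h1.fderiv
    have hsub : ball z₀ (t / 4) ⊆ ball (0 : E) 1 := by
      intro z hz
      rw [mem_ball, dist_eq_norm] at hz
      rw [mem_ball_zero_iff]
      have := norm_le_insert' z z₀
      linarith
    have hQn : ‖fderiv ℂ Q z₀‖ ≤ 2 * (c₂ * M * Real.sqrt t) / (t / 4) := by
      have h1 : fderiv ℂ Q z₀ = fderiv ℂ (fun z => Q z - Q z₀) z₀ := by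
        rw [fderiv_sub_const]
      rw [h1]
      apply ContinuousLinearMap.opNorm_le_bound _ (by positivity)
      intro v
      apply norm_fderiv_apply_le (by positivity) ((hQh.mono hsub).sub_const _)
      intro z hz
      exact hQ2 z₀ hz₀ z hz
    rw [hfd]
    have hst : Real.sqrt t * Real.sqrt t = t := Real.mul_self_sqrt ht0.le
    calc t * ‖fderiv ℂ Q z₀ + (a : ℂ) • fderiv ℂ F z₀‖
        ≤ t * (‖fderiv ℂ Q z₀‖ + ‖(a : ℂ) • fderiv ℂ F z₀‖) := by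
          gcongr
          exact norm_add_le _ _
      _ ≤ t * (2 * (c₂ * M * Real.sqrt t) / (t / 4) + a * ‖fderiv ℂ F z₀‖) := by
          gcongr
          rw [norm_smul, Complex.norm_real, Real.norm_of_nonneg ha0]
      _ = _ := by
          field_simp
          ring
  refine ⟨fun z => PP μ m (fun w => (kc r l w : ℂ) * F w) z + cl, hGh.add_const _, ?_, ?_, ?_, ?_⟩
  · intro z hz
    rw [mem_ball_zero_iff] at hz
    have h1 := hlin (kc r l z) (kc_nonneg r l z) (kc_le_one r l z) z hz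
    have h2 := hQ1 z hz
    have h3 := hM z (by simpa using hz)
    simp only
    rw [h1]
    calc _ ≤ ‖PP μ m (fun w => ((kc r l w - kc r l z : ℝ) : ℂ) * F w) z‖ + ‖(kc r l z : ℂ) * F z‖ +
          ‖cl‖ := norm_add₃_le
      _ ≤ c₁ * M + 1 * M + r⁻¹ ^ (m + 4) * M := by
        gcongr
        rw [norm_mul, Complex.norm_real, Real.norm_of_nonneg (kc_nonneg r l z)]
        exact mul_le_mul (kc_le_one r l z) h3 (norm_nonneg _) zero_le_one
      _ ≤ _ := by nlinarith [mul_nonneg hc₂0.le hM0, mul_nonneg hc₃0.le hM0]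
  · intro z hz _
    rw [mem_ball_zero_iff] at hz
    refine (hgr z hz).trans ?_
    have h1 : 0 ≤ (1 - ‖z‖) * ‖fderiv ℂ F z‖ :=
      mul_nonneg (by linarith) (norm_nonneg _)
    have h2 := kc_le_one r l z
    have h3 : 0 ≤ M * Real.sqrt (1 - ‖z‖) := mul_nonneg hM0 (Real.sqrt_nonneg _)
    have h4 : (0 : ℝ) < r⁻¹ ^ (m + 4) := by positivity
    apply add_le_add
    · nlinarith
    · rw [mul_assoc (8 * c₂), mul_assoc (1 + c₁ + 8 * c₂ + c₃ + r⁻¹ ^ (m + 4))]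
      apply mul_le_mul_of_nonneg_right _ h3
      linarith
  · intro z hz hzl
    rw [mem_ball_zero_iff] at hz
    refine (hgr z hz).trans ?_
    rw [kc_zero hr hzl, zero_mul, zero_add]
    have h3 : 0 ≤ M * Real.sqrt (1 - ‖z‖) := mul_nonneg hM0 (Real.sqrt_nonneg _)
    have h4 : (0 : ℝ) < r⁻¹ ^ (m + 4) := by positivity
    rw [mul_assoc (8 * c₂), mul_assoc (1 + c₁ + 8 * c₂ + c₃ + r⁻¹ ^ (m + 4))]
    apply mul_le_mul_of_nonneg_right _ h3
    linarith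
  · intro z hz hzl
    rw [mem_ball_zero_iff] at hz
    have h1 := hlin 1 zero_le_one le_rfl z hz
    simp only
    rw [h1, Complex.ofReal_one, one_mul]
    have i1 := PP_integrable μ m (hkm 1) (hkb 1 zero_le_one le_rfl) hz
    have e0 : PP μ m (fun w => ((kc r l w - 1 : ℝ) : ℂ) * F w) z + F z + cl - F z =
        (cw μ : ℂ)⁻¹ * ((∫ w in ball (0 : E) 1, ((kc r l w - 1 : ℝ) : ℂ) * F w *
        (((1 - ‖w‖ ^ 2) ^ 2 : ℝ) : ℂ) / (1 - ⟪w, z⟫_ℂ) ^ (m + 4) ∂μ) -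
        ∫ w in ball (0 : E) 1, ((kc r l w - 1 : ℝ) : ℂ) * F w *
        (((1 - ‖w‖ ^ 2) ^ 2 : ℝ) : ℂ) / (1 - ⟪w, l⟫_ℂ) ^ (m + 4) ∂μ) := by
      rw [hcl]
      unfold PP
      ring
    have i2 : IntegrableOn (fun w => ((kc r l w - 1 : ℝ) : ℂ) * F w *
        (((1 - ‖w‖ ^ 2) ^ 2 : ℝ) : ℂ) / (1 - ⟪w, l⟫_ℂ) ^ (m + 4)) (ball 0 1) μ := by
      refine Integrable.mono' (hWint.const_mul (r⁻¹ ^ (m + 4) * M)) ?_ ?_
      · have hc : ContinuousOn (fun w : E => (((1 - ‖w‖ ^ 2) ^ 2 : ℝ) : ℂ) /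
            (1 - ⟪w, l⟫_ℂ) ^ (m + 4)) (ball 0 1) := by
          apply ContinuousOn.div
          · apply Continuous.continuousOn; fun_prop
          · apply Continuous.continuousOn; fun_prop
          · intro w hw
            apply pow_ne_zero
            rw [← norm_pos_iff]
            exact hDpos (by simpa using hw) hl.le
        have := (hkm 1).mul (hc.aestronglyMeasurable measurableSet_ball)
        refine this.congr (Eventually.of_forall fun w => ?_)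
        simp only [Pi.mul_apply, mul_div_assoc]
      · refine (ae_restrict_iff' measurableSet_ball).mpr (Eventually.of_forall fun w hw => ?_)
        by_cases hk : kc r l w = 1
        · rw [hk]
          simp only [sub_self, Complex.ofReal_zero, zero_mul, zero_div, norm_zero]
          positivity
        · have h2 := hfar w hk
          rw [norm_div, norm_mul, Complex.norm_real, norm_pow (1 - ⟪w, l⟫_ℂ),
            Real.norm_of_nonneg (show 0 ≤ (1 - ‖w‖ ^ 2) ^ 2 by positivity)]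
          have h3 := hkb 1 zero_le_one le_rfl w hw
          have h4 : r ^ (m + 4) ≤ ‖1 - ⟪w, l⟫_ℂ‖ ^ (m + 4) :=
            pow_le_pow_left₀ hr.le h2.le _
          calc _ ≤ M * (1 - ‖w‖ ^ 2) ^ 2 / r ^ (m + 4) := by gcongr
            _ = _ := by
              rw [inv_pow]
              field_simp
    rw [e0, ← integral_sub i1 i2, norm_mul, norm_inv, Complex.norm_real,
      Real.norm_of_nonneg hcw.le]
    have h1 : ‖∫ w in ball (0 : E) 1, (((kc r l w - 1 : ℝ) : ℂ) * F w *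
        (((1 - ‖w‖ ^ 2) ^ 2 : ℝ) : ℂ) / (1 - ⟪w, z⟫_ℂ) ^ (m + 4) -
        ((kc r l w - 1 : ℝ) : ℂ) * F w *
        (((1 - ‖w‖ ^ 2) ^ 2 : ℝ) : ℂ) / (1 - ⟪w, l⟫_ℂ) ^ (m + 4)) ∂μ‖ ≤
        ∫ w in ball (0 : E) 1, (c₃ * M * ‖z - l‖) * (1 - ‖w‖ ^ 2) ^ 2 ∂μ := by
      apply norm_integral_le_of_norm_le (hWint.const_mul _)
      refine (ae_restrict_iff' measurableSet_ball).mpr (Eventually.of_forall fun w hw => ?_)
      by_cases hk : kc r l w = 1
      · rw [hk]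
        simp only [sub_self, Complex.ofReal_zero, zero_mul, zero_div, norm_zero]
        positivity
      · have h2 := hfar w hk
        have hw' := hw
        rw [mem_ball_zero_iff] at hw'
        have hdz : ‖⟪w, z⟫_ℂ - ⟪w, l⟫_ℂ‖ ≤ ‖z - l‖ := by
          rw [← inner_sub_right]
          calc ‖⟪w, z - l⟫_ℂ‖ ≤ ‖w‖ * ‖z - l‖ := norm_inner_le_norm _ _
            _ ≤ 1 * ‖z - l‖ := by gcongr
            _ = _ := one_mul _
        have h5 : ‖1 - ⟪w, l⟫_ℂ‖ ≤ ‖1 - ⟪w, z⟫_ℂ‖ + ‖⟪w, z⟫_ℂ - ⟪w, l⟫_ℂ‖ := by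
          calc _ = ‖(1 - ⟪w, z⟫_ℂ) + (⟪w, z⟫_ℂ - ⟪w, l⟫_ℂ)‖ := by congr 1; ring
            _ ≤ _ := norm_add_le _ _
        have hks := kap_sub (m := m + 2) (a := ⟪w, z⟫_ℂ) (b := ⟪w, l⟫_ℂ) (q := r / 2)
          (by positivity) (by linarith) (by linarith)
        have e1 : ((kc r l w - 1 : ℝ) : ℂ) * F w *
          (((1 - ‖w‖ ^ 2) ^ 2 : ℝ) : ℂ) / (1 - ⟪w, z⟫_ℂ) ^ (m + 4) -
          ((kc r l w - 1 : ℝ) : ℂ) * F w *
          (((1 - ‖w‖ ^ 2) ^ 2 : ℝ) : ℂ) / (1 - ⟪w, l⟫_ℂ) ^ (m + 4) =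
          ((kc r l w - 1 : ℝ) : ℂ) * F w * (((1 - ‖w‖ ^ 2) ^ 2 : ℝ) : ℂ) *
            (kap (m + 2) ⟪w, z⟫_ℂ - kap (m + 2) ⟪w, l⟫_ℂ) := by
          unfold kap
          ring
        have h3 := hkb 1 zero_le_one le_rfl w hw
        rw [e1, norm_mul, norm_mul, Complex.norm_real,
          Real.norm_of_nonneg (show 0 ≤ (1 - ‖w‖ ^ 2) ^ 2 by positivity)]
        have hks2 : ‖kap (m + 2) ⟪w, z⟫_ℂ - kap (m + 2) ⟪w, l⟫_ℂ‖ ≤ c₃ * ‖z - l‖ := by
          refine hks.trans ?_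
          have e2 : (((m + 2 : ℕ) : ℝ) + 2) * ‖⟪w, z⟫_ℂ - ⟪w, l⟫_ℂ‖ / (r / 2) ^ (m + 2 + 3) =
              c₃ * ‖⟪w, z⟫_ℂ - ⟪w, l⟫_ℂ‖ := by
            rw [hc₃, show (2 * r⁻¹) = (r / 2)⁻¹ by field_simp, inv_pow]
            push_cast
            field_simp
            ring
          rw [e2]
          gcongr
        calc _ ≤ M * (1 - ‖w‖ ^ 2) ^ 2 * (c₃ * ‖z - l‖) := by gcongr
          _ = _ := by ring
    rw [integral_const_mul] at h1
    calc _ ≤ (cw μ)⁻¹ * ((c₃ * M * ‖z - l‖) * cw μ) := by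
          gcongr
          exact h1
      _ = c₃ * (M * ‖z - l‖) := by field_simp
      _ ≤ _ := by
        have h0 : 0 ≤ M * ‖z - l‖ := by positivity
        have h16 : (0 : ℝ) < r⁻¹ ^ (m + 4) := by positivity
        rw [mul_assoc (1 + c₁ + 8 * c₂ + c₃ + r⁻¹ ^ (m + 4)) M]
        apply mul_le_mul_of_nonneg_right _ h0
        linarith

/-- the summable correction -/
noncomputable def bb (k : ℕ) : ℝ := Real.exp (-(k * Real.log 2) / 8)

theorem bb_pos (k : ℕ) : 0 < bb k := Real.exp_pos _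

theorem half_sqrt_le (k : ℕ) {t : ℝ} (ht : (1 / 2 : ℝ) ^ k ≤ t) (ht1 : 0 < t) :
    Real.sqrt t / t * (1 / 2) ^ k ≤ bb k := by
  have hk := half_pow_pos k
  have hs : 0 < Real.sqrt t := Real.sqrt_pos.mpr ht1
  have h1 : Real.sqrt t / t = 1 / Real.sqrt t := by
    rw [div_eq_div_iff ht1.ne' hs.ne', Real.mul_self_sqrt ht1.le, one_mul]
  have h2 : Real.sqrt ((1 / 2) ^ k) ≤ Real.sqrt t := Real.sqrt_le_sqrt ht
  have hsk : 0 < Real.sqrt ((1 / 2 : ℝ) ^ k) := Real.sqrt_pos.mpr hk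
  rw [h1]
  calc 1 / Real.sqrt t * (1 / 2) ^ k ≤ 1 / Real.sqrt ((1 / 2) ^ k) * (1 / 2) ^ k := by gcongr
    _ = Real.sqrt ((1 / 2) ^ k) := by
        nth_rewrite 2 [← Real.mul_self_sqrt hk.le]
        field_simp
    _ ≤ bb k := by
        rw [bb, Real.sqrt_eq_rpow, ← Real.rpow_natCast, ← Real.rpow_mul (by norm_num),
          Real.rpow_def_of_pos (by norm_num)]
        apply Real.exp_le_exp.mpr
        rw [one_div, Real.log_inv]
        have := Real.log_two_gt_d9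
        have h3 : 0 ≤ (k : ℝ) * Real.log 2 := by positivity
        nlinarith

/-- A bounded holomorphic function that is slow near `ν` is, near `ν` and up to a small error,
a function that is slow on the whole ball. -/
theorem ext_slow (μ : Measure E) [μ.IsAddHaarMeasure] (m : ℕ)
    (hm : 1 ≤ m) (hdim : Module.finrank ℂ E = m + 1) {κ : ℝ} (hκ : 0 < κ) :
    ∃ C : ℝ, 0 < C ∧ ∃ κ' : ℝ, 0 < κ' ∧ ∀ (ν : E), ‖ν‖ = 1 → ∀ (e : ℕ → ℝ) (v : E → ℂ) (M : ℝ),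
      (∀ k, 0 ≤ e k) → DifferentiableOn ℂ v (ball 0 1) → (∀ z ∈ ball (0 : E) 1, ‖v z‖ ≤ M) →
      (∀ k, ∀ z ∈ ball (0 : E) 1 ∩ ball ν κ, ‖z‖ ≤ rr k →
        ‖fderiv ℂ v z‖ * (1 / 2) ^ k ≤ e k) →
      ∃ v' : E → ℂ, Grad v' (fun k => e k + C * M * bb k) ∧
        (∀ z ∈ ball (0 : E) 1, ‖v' z‖ ≤ C * M) ∧
        ∀ z ∈ ball (0 : E) 1 ∩ ball ν κ', ‖v' z - v z‖ ≤ C * M * ‖z - ν‖ := by
  set r : ℝ := κ ^ 2 / 4 with hr
  have hr0 : 0 < r := by positivity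
  obtain ⟨C, hC0, hC⟩ := cut_fn μ m hm hdim hr0
  refine ⟨C, hC0, r / 2, by positivity, fun ν hν e v M he hv hvM hvg => ?_⟩
  have hM0 : 0 ≤ M := (norm_nonneg _).trans (hvM 0 (mem_ball_self one_pos))
  obtain ⟨g, hg1, hg2, hg3, hg4, hg5⟩ := hC ν v M hν hv hvM
  refine ⟨g, ⟨hg1, fun k z hz => ?_⟩, hg2, fun z hz => ?_⟩
  · have hz1 : ‖z‖ < 1 := hz.trans_lt (rr_lt_one k)
    have hzb : z ∈ ball (0 : E) 1 := by rwa [mem_ball_zero_iff]
    set t : ℝ := 1 - ‖z‖ with ht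
    have ht0 : 0 < t := by rw [ht]; linarith
    have htk : (1 / 2 : ℝ) ^ k ≤ t := by rw [ht]; unfold rr at hz; linarith
    have hk := half_pow_pos k
    have hs := half_sqrt_le k htk ht0
    have hCM : 0 ≤ C * M := by positivity
    rcases lt_or_ge ‖1 - ⟪ν, z⟫_ℂ‖ (2 * r) with hcase | hcase
    · have h1 := hg3 z hzb hcase
      have hzν : z ∈ ball ν κ := by
        rw [mem_ball, dist_eq_norm]
        have h2 := norm_sub_sq_le_two (a := ν) (b := z) hν.le hz1.le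
        have h3 : ‖z - ν‖ ^ 2 < κ ^ 2 := by rw [hr] at hcase; linarith
        exact lt_of_pow_lt_pow_left₀ 2 hκ.le h3
      have h2 := hvg k z ⟨hzb, hzν⟩ hz
      rw [← ht] at h1
      have h3 : ‖fderiv ℂ g z‖ ≤ ‖fderiv ℂ v z‖ + C * M * (Real.sqrt t / t) := by
        have h4 : t * ‖fderiv ℂ g z‖ ≤ t * (‖fderiv ℂ v z‖ + C * M * (Real.sqrt t / t)) := by
          refine h1.trans (le_of_eq ?_)
          field_simp
        exact le_of_mul_le_mul_left h4 ht0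
      calc ‖fderiv ℂ g z‖ * (1 / 2) ^ k ≤
            (‖fderiv ℂ v z‖ + C * M * (Real.sqrt t / t)) * (1 / 2) ^ k := by gcongr
        _ = ‖fderiv ℂ v z‖ * (1 / 2) ^ k + C * M * (Real.sqrt t / t * (1 / 2) ^ k) := by ring
        _ ≤ e k + C * M * bb k := by gcongr
    · have h1 := hg4 z hzb hcase
      rw [← ht] at h1
      have h3 : ‖fderiv ℂ g z‖ ≤ C * M * (Real.sqrt t / t) := by
        have h4 : t * ‖fderiv ℂ g z‖ ≤ t * (C * M * (Real.sqrt t / t)) := by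
          refine h1.trans (le_of_eq ?_)
          field_simp
        exact le_of_mul_le_mul_left h4 ht0
      calc ‖fderiv ℂ g z‖ * (1 / 2) ^ k ≤ (C * M * (Real.sqrt t / t)) * (1 / 2) ^ k := by gcongr
        _ = C * M * (Real.sqrt t / t * (1 / 2) ^ k) := by ring
        _ ≤ C * M * bb k := by gcongr
        _ ≤ _ := by linarith [he k]
  · apply hg5 z hz.1
    have := hz.2
    rw [mem_ball, dist_eq_norm] at this
    exact this.le

end Pool.Agent.MPca0fc2.SL
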