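import Mathlib
import Pool.Agent.Lib.MP_ca0fc2_an.SLCut
import Pool.Agent.Lib.MP_ca0fc2_an.SLMain
import Pool.Agent.Lib.MP_ca0fc2_an.MixDefs
import Pool.Agent.Lib.MP_ca0fc2_an.SDFin

set_option autoImplicit false

open Metric Set MeasureTheory Filter Topology
open scoped InnerProductSpace

namespace Pool.Agent.MPca0fc2.MX

open Pool.Agent.MPca0fc2.SD Pool.Agent.MPca0fc2.SL Pool.Agent.Lib.MP_ca0fc2_an

/-- admissible sequences of bounds of the oscillation at depth `2⁻ᵏ` and below -/
structure Wt (w : ℕ → ℝ) : Prop where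
  pos : ∀ k, 0 < w k
  anti : Antitone w
  sum : ∀ c : ℝ, 0 < c → Summable fun k => Real.exp (-(c / w k))

namespace Wt

variable {w w' : ℕ → ℝ}

theorem le_zero (h : Wt w) (k : ℕ) : w k ≤ w 0 := h.anti (Nat.zero_le k)

theorem cmul (h : Wt w) {C : ℝ} (hC : 0 < C) : Wt fun k => C * w k := by
  refine ⟨fun k => mul_pos hC (h.pos k), fun i j hij => mul_le_mul_of_nonneg_left (h.anti hij) hC.le,
    fun c hc => ?_⟩
  refine (h.sum (c / C) (by positivity)).congr fun k => ?_
  rw [div_div]

theorem shift (h : Wt w) (m : ℕ) : Wt fun k => w (k - m) := by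
  refine ⟨fun k => h.pos _, fun i j hij => h.anti (by omega), fun c hc => ?_⟩
  rw [← summable_nat_add_iff m]
  simpa using h.sum c hc

theorem add (h : Wt w) (h' : Wt w') : Wt fun k => w k + w' k := by
  refine ⟨fun k => add_pos (h.pos k) (h'.pos k), fun i j hij => add_le_add (h.anti hij) (h'.anti hij),
    fun c hc => ?_⟩
  refine Summable.of_nonneg_of_le (fun k => (Real.exp_pos _).le) (fun k => ?_)
    ((h.sum (c / 2) (by positivity)).add (h'.sum (c / 2) (by positivity)))
  have h1 := h.pos k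
  have h2 := h'.pos k
  rcases le_total (w k) (w' k) with hle | hle
  · have h3 : Real.exp (-(c / (w k + w' k))) ≤ Real.exp (-(c / 2 / w' k)) := by
      apply Real.exp_le_exp.mpr
      rw [neg_le_neg_iff, div_div]
      apply div_le_div_of_nonneg_left hc.le (by positivity) (by linarith)
    have := Real.exp_pos (-(c / 2 / w k))
    linarith
  · have h3 : Real.exp (-(c / (w k + w' k))) ≤ Real.exp (-(c / 2 / w k)) := by
      apply Real.exp_le_exp.mpr
      rw [neg_le_neg_iff, div_div]
      apply div_le_div_of_nonneg_left hc.le (by positivity) (by linarith)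
    have := Real.exp_pos (-(c / 2 / w' k))
    linarith

theorem bb : Wt bb := by
  have hlog : 0 < Real.log 2 := Real.log_pos (by norm_num)
  refine ⟨bb_pos, ?_, fun c hc => ?_⟩
  · intro i j hij
    unfold SL.bb
    apply Real.exp_le_exp.mpr
    have : (i : ℝ) ≤ j := by exact_mod_cast hij
    have : (i : ℝ) * Real.log 2 ≤ j * Real.log 2 := by gcongr
    linarith
  · have h1 : Summable fun k : ℕ => (1 / c) * (Real.exp (-(Real.log 2) / 8)) ^ k := by
      apply Summable.mul_left
      apply summable_geometric_of_lt_one (Real.exp_pos _).le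
      rw [Real.exp_lt_one_iff]
      linarith
    refine Summable.of_nonneg_of_le (fun k => (Real.exp_pos _).le) (fun k => ?_) h1
    have h2 : SL.bb k = (Real.exp (-(Real.log 2) / 8)) ^ k := by
      rw [SL.bb, ← Real.exp_nat_mul]
      congr 1
      ring
    rw [← h2]
    have h3 := bb_pos k
    set x : ℝ := c / SL.bb k with hx
    have hx0 : 0 < x := by positivity
    have h4 : Real.exp (-x) ≤ 1 / x := by
      rw [Real.exp_neg, inv_eq_one_div]
      apply div_le_div_of_nonneg_left zero_le_one hx0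
      linarith [Real.add_one_le_exp x]
    refine h4.trans (le_of_eq ?_)
    rw [hx]
    field_simp

/-- slowly varying majorants -/
theorem exists_slow (h : Wt w) : ∃ e : ℕ → ℝ, Wt e ∧ Slow e ∧ ∀ k, w k ≤ e k := by
  obtain ⟨θ, hθ⟩ : ∃ θ : ℝ, θ = 10 / 11 := ⟨_, rfl⟩
  have hθ0 : 0 < θ := by rw [hθ]; norm_num
  have hθ1 : θ < 1 := by rw [hθ]; norm_num
  let e : ℕ → ℝ := fun k => Nat.rec (w 0) (fun n a => max (w (n + 1)) (θ * a)) k
  have he0 : e 0 = w 0 := rfl
  have hes : ∀ n, e (n + 1) = max (w (n + 1)) (θ * e n) := fun n => rfl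
  have hwe : ∀ k, w k ≤ e k := by
    intro k
    cases k with
    | zero => exact he0.ge
    | succ n => rw [hes]; exact le_max_left _ _
  have hpos : ∀ k, 0 < e k := fun k => (h.pos k).trans_le (hwe k)
  have hanti : ∀ k, e (k + 1) ≤ e k := by
    intro k
    rw [hes]
    apply max_le
    · exact (h.anti (Nat.le_succ k)).trans (hwe k)
    · nlinarith [hpos k]
  have hAnti : Antitone e := antitone_nat_of_succ_le hanti
  refine ⟨e, ⟨hpos, hAnti, fun c hc => ?_⟩, ⟨fun k => (hpos k).le, fun k => ?_, fun k => ?_⟩, hwe⟩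
  · set S : ℕ → ℝ := fun k => Real.exp (-(c / e k)) with hS
    set a : ℕ → ℝ := fun k => Real.exp (-(c / w k)) with ha
    have has : Summable a := h.sum c hc
    have hSnn : ∀ k, 0 ≤ S k := fun k => (Real.exp_pos _).le
    have hann : ∀ k, 0 ≤ a k := fun k => (Real.exp_pos _).le
    set q : ℝ := Real.exp (-(c / 10 / e 0)) with hq
    have hq0 : 0 < q := Real.exp_pos _
    have hq1 : q < 1 := by
      rw [hq, Real.exp_lt_one_iff]
      have := hpos 0
      have : 0 < c / 10 / e 0 := by positivity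
      linarith
    have hrec : ∀ k, S (k + 1) ≤ a (k + 1) + q * S k := by
      intro k
      have hk := hpos k
      have h1 : Real.exp (-(c / (θ * e k))) ≤ q * S k := by
        simp only [hq, hS]
        rw [← Real.exp_add]
        apply Real.exp_le_exp.mpr
        have h2 : c / (θ * e k) = c / e k + c / 10 / e k := by
          rw [hθ]; field_simp; norm_num
        have h3 : c / 10 / e 0 ≤ c / 10 / e k := by
          apply div_le_div_of_nonneg_left (by positivity) hk (hAnti (Nat.zero_le k))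
        rw [h2]
        linarith
      simp only [hS, ha]
      rw [hes]
      rcases le_total (w (k + 1)) (θ * e k) with hle | hle
      · rw [max_eq_right hle]
        have := hann (k + 1)
        simp only [ha] at this
        linarith
      · rw [max_eq_left hle]
        have := mul_nonneg hq0.le (hSnn k)
        simp only [hS] at this
        linarith
    have hpart : ∀ n, (1 - q) * ∑ k ∈ Finset.range (n + 1), S k + q * S n ≤
        ∑ k ∈ Finset.range (n + 1), a k := by
      intro n
      induction n with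
      | zero =>
        have : S 0 = a 0 := by simp only [hS, ha, he0]
        simp [this]
        linarith
      | succ n ih =>
        rw [Finset.sum_range_succ, Finset.sum_range_succ _ (n + 1)]
        have := hrec n
        linarith
    have h1q : 0 < 1 - q := by linarith
    apply summable_of_sum_range_le (c := (∑' k, a k) / (1 - q)) hSnn
    intro n
    rw [le_div_iff₀ h1q]
    cases n with
    | zero => simp; exact tsum_nonneg hann
    | succ n =>
      have h1 := hpart n
      have h2 := has.sum_le_tsum (Finset.range (n + 1)) (fun i _ => hann i)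
      have := mul_nonneg hq0.le (hSnn n)
      linarith
  · have := hanti k
    have := hpos k
    linarith
  · rw [hes]
    have h1 : θ * e k ≤ max (w (k + 1)) (θ * e k) := le_max_right _ _
    rw [hθ] at h1 ⊢
    linarith

/-- the sequence of a rate -/
theorem of_rate {ω : ℝ → ℝ} (hω : IsRate ω) : Wt fun k => ω ((1 / 2) ^ k) := by
  have hmem : ∀ k : ℕ, ((1 : ℝ) / 2) ^ k ∈ Ioc (0 : ℝ) 1 := fun k =>
    ⟨half_pow_pos k, half_pow_le_one k⟩
  refine ⟨fun k => hω.pos _ (hmem k), fun i j hij => hω.mono (hmem j) (hmem i)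
    (pow_le_pow_of_le_one (by norm_num) (by norm_num) hij), fun c hc => ?_⟩
  have hom := hω.int c hc
  rw [← summable_nat_add_iff 1]
  set a : ℕ → ℝ := fun k => Real.exp (-(c / ω ((1 / 2) ^ (k + 1)))) with ha
  have hann : ∀ k, 0 ≤ a k := fun k => (Real.exp_pos _).le
  have hpiece : ∀ k, a k ≤ 2 * ∫ t in Ioo ((1 / 2 : ℝ) ^ (k + 1)) ((1 / 2) ^ k),
      Real.exp (-(c / ω t)) / t := by
    intro k
    have hp := half_pow_pos k
    have hp1 := half_pow_pos (k + 1)
    have hple := half_pow_le_one k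
    have hsub : Ioo ((1 / 2 : ℝ) ^ (k + 1)) ((1 / 2) ^ k) ⊆ Ioo 0 1 :=
      Ioo_subset_Ioo hp1.le hple
    have hvol : volume.real (Ioo ((1 / 2 : ℝ) ^ (k + 1)) ((1 / 2) ^ k)) = (1 / 2) ^ k / 2 := by
      rw [Real.volume_real_Ioo_of_le]
      · rw [pow_succ]; ring
      · rw [pow_succ]; linarith
    have h1 : ∫ _t in Ioo ((1 / 2 : ℝ) ^ (k + 1)) ((1 / 2) ^ k), a k / (1 / 2) ^ k ≤
        ∫ t in Ioo ((1 / 2 : ℝ) ^ (k + 1)) ((1 / 2) ^ k), Real.exp (-(c / ω t)) / t := by
      apply setIntegral_mono_on _ (hom.mono_set hsub) measurableSet_Ioo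
      · intro t ht
        have ht0 : 0 < t := hp1.trans ht.1
        have htm : t ∈ Ioc (0 : ℝ) 1 := ⟨ht0, ht.2.le.trans hple⟩
        have hωt := hω.pos t htm
        have hω1 := hω.pos _ (hmem (k + 1))
        have h2 : ω ((1 / 2) ^ (k + 1)) ≤ ω t := hω.mono (hmem (k + 1)) htm ht.1.le
        have h3 : a k ≤ Real.exp (-(c / ω t)) := by
          simp only [ha]
          apply Real.exp_le_exp.mpr
          rw [neg_le_neg_iff]
          exact div_le_div_of_nonneg_left hc.le hω1 h2
        calc a k / (1 / 2) ^ k ≤ Real.exp (-(c / ω t)) / (1 / 2) ^ k := by gcongr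
          _ ≤ _ := by
            apply div_le_div_of_nonneg_left (Real.exp_pos _).le ht0 ht.2.le
      · exact (continuousOn_const.integrableOn_Icc).mono_set Ioo_subset_Icc_self
    rw [setIntegral_const, hvol, smul_eq_mul] at h1
    have h2 : (1 / 2 : ℝ) ^ k / 2 * (a k / (1 / 2) ^ k) = a k / 2 := by
      field_simp
    rw [h2] at h1
    linarith
  have hnn : ∀ s : Set ℝ, s ⊆ Ioo 0 1 → MeasurableSet s →
      0 ≤ ∫ t in s, Real.exp (-(c / ω t)) / t := by
    intro s hs hm
    apply setIntegral_nonneg hm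
    intro t ht
    have := (hs ht).1
    positivity
  have key : ∀ n, ∑ k ∈ Finset.range n,
      (∫ t in Ioo ((1 / 2 : ℝ) ^ (k + 1)) ((1 / 2) ^ k), Real.exp (-(c / ω t)) / t) +
      ∫ t in Ioo (0 : ℝ) ((1 / 2) ^ n), Real.exp (-(c / ω t)) / t ≤
      ∫ t in Ioo (0 : ℝ) 1, Real.exp (-(c / ω t)) / t := by
    intro n
    induction n with
    | zero => simp
    | succ n ih =>
      rw [Finset.sum_range_succ]
      have hp := half_pow_pos (n + 1)
      have hpn := half_pow_pos n
      have hpn1 := half_pow_le_one n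
      have hlt : ((1 : ℝ) / 2) ^ (n + 1) ≤ (1 / 2) ^ n := by rw [pow_succ]; linarith
      have hs1 : Ioo ((1 / 2 : ℝ) ^ (n + 1)) ((1 / 2) ^ n) ⊆ Ioo 0 1 :=
        Ioo_subset_Ioo hp.le hpn1
      have hs2 : Ioo (0 : ℝ) ((1 / 2) ^ (n + 1)) ⊆ Ioo 0 1 :=
        Ioo_subset_Ioo le_rfl (hlt.trans hpn1)
      have hd : Disjoint (Ioo ((1 / 2 : ℝ) ^ (n + 1)) ((1 / 2) ^ n))
          (Ioo (0 : ℝ) ((1 / 2) ^ (n + 1))) := by
        rw [Set.disjoint_left]
        intro x hx hx'
        exact lt_asymm hx.1 hx'.2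
      have h1 := setIntegral_union hd measurableSet_Ioo (hom.mono_set hs1) (hom.mono_set hs2)
      have h2 : ∫ t in Ioo ((1 / 2 : ℝ) ^ (n + 1)) ((1 / 2) ^ n) ∪
          Ioo (0 : ℝ) ((1 / 2) ^ (n + 1)), Real.exp (-(c / ω t)) / t ≤
          ∫ t in Ioo (0 : ℝ) ((1 / 2) ^ n), Real.exp (-(c / ω t)) / t := by
        apply setIntegral_mono_set (hom.mono_set (Ioo_subset_Ioo le_rfl hpn1))
        · refine (ae_restrict_iff' measurableSet_Ioo).mpr (Eventually.of_forall fun t ht => ?_)
          have := ht.1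
          simp only [Pi.zero_apply]
          positivity
        · apply LE.le.eventuallyLE
          apply union_subset
          · exact Ioo_subset_Ioo hp.le le_rfl
          · exact Ioo_subset_Ioo le_rfl hlt
      linarith
  apply summable_of_sum_range_le (c := 2 * ∫ t in Ioo (0 : ℝ) 1, Real.exp (-(c / ω t)) / t) hann
  intro n
  have h1 := key n
  have h2 := hnn (Ioo (0 : ℝ) ((1 / 2) ^ n))
    (Ioo_subset_Ioo le_rfl (half_pow_le_one n)) measurableSet_Ioo
  calc ∑ k ∈ Finset.range n, a k
      ≤ ∑ k ∈ Finset.range n,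
        2 * ∫ t in Ioo ((1 / 2 : ℝ) ^ (k + 1)) ((1 / 2) ^ k), Real.exp (-(c / ω t)) / t :=
        Finset.sum_le_sum fun k _ => hpiece k
    _ = 2 * ∑ k ∈ Finset.range n,
        ∫ t in Ioo ((1 / 2 : ℝ) ^ (k + 1)) ((1 / 2) ^ k), Real.exp (-(c / ω t)) / t := by
        rw [Finset.mul_sum]
    _ ≤ _ := by linarith

end Wt

/-- slowly varying sequences vary slowly over long distances -/
theorem Slow.le_pow {e : ℕ → ℝ} (he : Slow e) (j m : ℕ) : e j ≤ (11 / 10) ^ m * e (j + m) := by
  induction m with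
  | zero => simp
  | succ m ih =>
    have h1 := he.down (j + m)
    have h2 : (0 : ℝ) ≤ (11 / 10) ^ m := by positivity
    calc e j ≤ (11 / 10) ^ m * e (j + m) := ih
      _ ≤ (11 / 10) ^ m * ((11 / 10) * e (j + m + 1)) := by gcongr
      _ = (11 / 10) ^ (m + 1) * e (j + (m + 1)) := by rw [← add_assoc]; ring

/-- the dyadic scale of a number -/
theorem exists_scale {D : ℝ} (hD : 0 < D) (hD1 : D ≤ 1) :
    ∃ j : ℕ, (1 / 2 : ℝ) ^ (j + 1) < D ∧ D ≤ (1 / 2) ^ j :=
  exists_nat_pow_near_of_lt_one hD hD1 (by norm_num) (by norm_num)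

end Pool.Agent.MPca0fc2.MX
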