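import Mathlib
import Pool.Agent.Lib.MP_ca0fc2_an.MixSeq
import Pool.Agent.Lib.MP_ca0fc2_an.Mg.G130

set_option autoImplicit false

open Metric Set MeasureTheory Filter Topology
open scoped InnerProductSpace ComplexConjugate

namespace Pool.Agent.MPca0fc2.MX

open Pool.Agent.MPca0fc2.SD Pool.Agent.MPca0fc2.SL Pool.Agent.Lib.MP_ca0fc2_an

variable {E : Type*} [NormedAddCommGroup E] [InnerProductSpace ℂ E]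

/-- an automorphism that moves the origin to a given point -/
theorem exists_phi {a : E} (ha : a ∈ ball (0 : E) 1) : ∃ φ ψ : E → E, IsBallAut φ ψ ∧ φ 0 = a ∧
    ∀ z ∈ ball (0 : E) 1, (1 - ‖ψ z‖ ^ 2) * ‖1 - ⟪a, z⟫_ℂ‖ ^ 2 =
      (1 - ‖a‖ ^ 2) * (1 - ‖z‖ ^ 2) := by
  by_cases h0 : a = 0
  · refine ⟨id, id, ⟨differentiableOn_id, differentiableOn_id, fun _ h => h, fun _ h => h,
      fun _ _ => rfl, fun _ _ => rfl⟩, h0.symm, ?_⟩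
    intro z _
    rw [h0, inner_zero_left, sub_zero, norm_one, norm_zero]
    simp
  · obtain ⟨e, he, hae⟩ := exists_unit h0
    rw [mem_ball_zero_iff] at ha
    set ζ : ℂ := (‖a‖ : ℂ) with hζ
    have hζn : ‖ζ‖ = ‖a‖ := by rw [hζ, Complex.norm_real, norm_norm]
    have hζ1 : ‖ζ‖ < 1 := by rw [hζn]; exact ha
    have hζ1' : ‖-ζ‖ < 1 := by rwa [norm_neg]
    refine ⟨mob e ζ, mob e (-ζ), ⟨mob_diff he hζ1, mob_diff he hζ1', fun z hz => mob_mem he hζ1 hz,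
      fun z hz => mob_mem he hζ1' hz, fun z hz => mob_inv he hζ1 hz,
      fun z hz => mob_inv' he hζ1 hz⟩, ?_, ?_⟩
    · rw [mob_zero, ← hae]
    · intro z hz
      have h1 := mob_norm he hζ1' hz
      have h2 : 1 + conj (-ζ) * ⟪e, z⟫_ℂ = 1 - ⟪a, z⟫_ℂ := by
        conv_rhs => rw [hae]
        rw [inner_smul_left, map_neg]
        ring
      rw [h2, norm_neg, hζn] at h1
      exact h1

/-- the Schwarz-Pick lemma for self-maps of the ball -/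
theorem pick {V : E → E} (hV : DifferentiableOn ℂ V (ball 0 1))
    (hm : ∀ z ∈ ball (0 : E) 1, V z ∈ ball (0 : E) 1) {z w : E} (hz : z ∈ ball (0 : E) 1)
    (hw : w ∈ ball (0 : E) 1) :
    (1 - ‖w‖ ^ 2) * (1 - ‖z‖ ^ 2) * ‖1 - ⟪V w, V z⟫_ℂ‖ ^ 2 ≤
      (1 - ‖V w‖ ^ 2) * (1 - ‖V z‖ ^ 2) * ‖1 - ⟪w, z⟫_ℂ‖ ^ 2 := by
  obtain ⟨φ, ψ, hφ, hφ0, hψ⟩ := exists_phi hw
  obtain ⟨φ', ψ', hφ', hφ0', hψ'⟩ := exists_phi (hm w hw)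
  have h0mem : (0 : E) ∈ ball (0 : E) 1 := mem_ball_self one_pos
  have h1 : DifferentiableOn ℂ (fun x => ψ' (V (φ x))) (ball 0 1) :=
    hφ'.hol'.comp (hV.comp hφ.hol hφ.map) fun x hx => hm _ (hφ.map x hx)
  have h2 := schwarz_ball h1 (fun x hx => hφ'.map' _ (hm _ (hφ.map x hx)))
    (by
      show ψ' (V (φ 0)) = 0
      rw [hφ0, ← hφ0', hφ'.left 0 h0mem]) (hφ.map' z hz)
  rw [hφ.right z hz] at h2
  have h3 := hψ z hz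
  have h4 := hψ' (V z) (hm z hz)
  have hp : 0 ≤ ‖1 - ⟪w, z⟫_ℂ‖ ^ 2 := by positivity
  have hp' : 0 ≤ ‖1 - ⟪V w, V z⟫_ℂ‖ ^ 2 := by positivity
  have h5 : 1 - ‖ψ z‖ ^ 2 ≤ 1 - ‖ψ' (V z)‖ ^ 2 := by
    have := pow_le_pow_left₀ (norm_nonneg _) h2 2
    linarith
  rw [← h3, ← h4]
  calc (1 - ‖ψ z‖ ^ 2) * ‖1 - ⟪w, z⟫_ℂ‖ ^ 2 * ‖1 - ⟪V w, V z⟫_ℂ‖ ^ 2
      ≤ (1 - ‖ψ' (V z)‖ ^ 2) * ‖1 - ⟪w, z⟫_ℂ‖ ^ 2 * ‖1 - ⟪V w, V z⟫_ℂ‖ ^ 2 := by gcongr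
    _ = _ := by ring

/-- two points of the ball are at a bounded hyperbolic distance -/
def Nr2 (z w : E) : Prop := ‖1 - ⟪w, z⟫_ℂ‖ ^ 2 ≤ 2 * ((1 - ‖w‖ ^ 2) * (1 - ‖z‖ ^ 2))

theorem depth_pos {z : E} (hz : z ∈ ball (0 : E) 1) : 0 < 1 - ‖z‖ ^ 2 := by
  rw [mem_ball_zero_iff] at hz
  nlinarith [norm_nonneg z]

theorem Nr2.map {V : E → E} (hV : DifferentiableOn ℂ V (ball 0 1))
    (hm : ∀ z ∈ ball (0 : E) 1, V z ∈ ball (0 : E) 1) {z w : E} (hz : z ∈ ball (0 : E) 1)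
    (hw : w ∈ ball (0 : E) 1) (h : Nr2 z w) : Nr2 (V z) (V w) := by
  have h1 := pick hV hm hz hw
  have h2 := depth_pos hz
  have h3 := depth_pos hw
  have h4 := depth_pos (hm z hz)
  have h5 := depth_pos (hm w hw)
  unfold Nr2 at *
  have h6 : (1 - ‖w‖ ^ 2) * (1 - ‖z‖ ^ 2) * ‖1 - ⟪V w, V z⟫_ℂ‖ ^ 2 ≤
      (1 - ‖w‖ ^ 2) * (1 - ‖z‖ ^ 2) * (2 * ((1 - ‖V w‖ ^ 2) * (1 - ‖V z‖ ^ 2))) := by
    refine h1.trans ?_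
    calc (1 - ‖V w‖ ^ 2) * (1 - ‖V z‖ ^ 2) * ‖1 - ⟪w, z⟫_ℂ‖ ^ 2
        ≤ (1 - ‖V w‖ ^ 2) * (1 - ‖V z‖ ^ 2) * (2 * ((1 - ‖w‖ ^ 2) * (1 - ‖z‖ ^ 2))) := by gcongr
      _ = _ := by ring
  exact le_of_mul_le_mul_left h6 (by positivity)

theorem Nr2.symm {z w : E} (h : Nr2 z w) : Nr2 w z := by
  unfold Nr2 at *
  have h1 : ‖1 - ⟪z, w⟫_ℂ‖ = ‖1 - ⟪w, z⟫_ℂ‖ := by
    rw [← RCLike.norm_conj (1 - ⟪w, z⟫_ℂ), map_sub, map_one, inner_conj_symm]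
  rw [h1, mul_comm (1 - ‖z‖ ^ 2)]
  exact h

/-- nearby points have comparable depth -/
theorem Nr2.depth {z w : E} (hz : z ∈ ball (0 : E) 1) (hw : w ∈ ball (0 : E) 1) (h : Nr2 z w) :
    1 - ‖z‖ ^ 2 ≤ 8 * (1 - ‖w‖ ^ 2) := by
  have h1 := depth_pos hz
  rw [mem_ball_zero_iff] at hz hw
  unfold Nr2 at h
  have h2 : 1 - ‖z‖ ≤ ‖1 - ⟪w, z⟫_ℂ‖ := by
    have h3 := norm_sub_norm_le (1 : ℂ) ⟪w, z⟫_ℂ
    have h4 := norm_inner_le_norm (𝕜 := ℂ) w z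
    rw [norm_one] at h3
    nlinarith [norm_nonneg w, norm_nonneg z]
  have h3 : (1 - ‖z‖ ^ 2) / 2 ≤ ‖1 - ⟪w, z⟫_ℂ‖ := by
    nlinarith [norm_nonneg z]
  have h4 : ((1 - ‖z‖ ^ 2) / 2) ^ 2 ≤ ‖1 - ⟪w, z⟫_ℂ‖ ^ 2 := pow_le_pow_left₀ (by linarith) h3 2
  have h5 : (1 - ‖z‖ ^ 2) * (1 - ‖z‖ ^ 2) ≤ (1 - ‖z‖ ^ 2) * (8 * (1 - ‖w‖ ^ 2)) := by
    nlinarith
  exact le_of_mul_le_mul_left h5 h1

/-- the points of a small Euclidean ball are near -/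
theorem nr2_of_dist {z y : E} (hz : z ∈ ball (0 : E) 1) (h : ‖y - z‖ ≤ (1 - ‖z‖) / 8) :
    Nr2 z y := by
  rw [mem_ball_zero_iff] at hz
  unfold Nr2
  obtain ⟨d, hd⟩ : ∃ d, d = 1 - ‖z‖ := ⟨_, rfl⟩
  obtain ⟨D, hD⟩ : ∃ D, D = 1 - ‖z‖ ^ 2 := ⟨_, rfl⟩
  rw [← hd] at h
  have hd0 : 0 < d := by linarith
  have hDd : d ≤ D := by rw [hd, hD]; nlinarith [norm_nonneg z]
  have h1 : ‖1 - ⟪y, z⟫_ℂ‖ ≤ D + d / 8 := by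
    have e1 : 1 - ⟪y, z⟫_ℂ = ((D : ℝ) : ℂ) - ⟪y - z, z⟫_ℂ := by
      rw [inner_sub_left, inner_self_eq_norm_sq_to_K, hD]
      push_cast
      simp only [Complex.coe_algebraMap]
      ring
    rw [e1]
    refine (norm_sub_le _ _).trans ?_
    rw [Complex.norm_real, Real.norm_of_nonneg (by linarith)]
    have h2 := norm_inner_le_norm (𝕜 := ℂ) (y - z) z
    have h3 : ‖y - z‖ * ‖z‖ ≤ d / 8 * 1 :=
      mul_le_mul h hz.le (norm_nonneg _) (by positivity)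
    linarith
  have h2 : ‖y‖ ≤ ‖z‖ + d / 8 := by
    have := norm_le_insert' y z
    linarith
  have h3 : D - d / 4 ≤ 1 - ‖y‖ ^ 2 := by
    have h4 : ‖y‖ ^ 2 ≤ (‖z‖ + d / 8) ^ 2 := pow_le_pow_left₀ (norm_nonneg _) h2 2
    have h5 : ‖z‖ = 1 - d := by linarith
    rw [hD]
    rw [h5] at h4 ⊢
    nlinarith
  rw [← hD]
  have h4 : ‖1 - ⟪y, z⟫_ℂ‖ ^ 2 ≤ (D + d / 8) ^ 2 := pow_le_pow_left₀ (norm_nonneg _) h1 2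
  have h5 : (D - d / 4) * D ≤ (1 - ‖y‖ ^ 2) * D := mul_le_mul_of_nonneg_right h3 (by linarith)
  nlinarith

/-- the function `v` oscillates slowly near `ν` -/
def LocSlow (w : ℕ → ℝ) (κ : ℝ) (ν : E) (v : E → ℂ) : Prop :=
  ∀ k : ℕ, ∀ x ∈ ball (0 : E) 1, ∀ y ∈ ball (0 : E) 1, ‖x - ν‖ < κ → ‖y - ν‖ < κ → Nr2 x y →
    1 - ‖x‖ ^ 2 ≤ (1 / 2) ^ k → ‖v x - v y‖ ≤ w k

theorem LocSlow.mono {w w' : ℕ → ℝ} {κ κ' : ℝ} {ν : E} {v : E → ℂ} (h : LocSlow w κ ν v)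
    (hw : ∀ k, w k ≤ w' k) (hκ : κ' ≤ κ) : LocSlow w' κ' ν v := fun k x hx y hy h1 h2 h3 h4 =>
  (h k x hx y hy (h1.trans_le hκ) (h2.trans_le hκ) h3 h4).trans (hw k)

/-- change of coordinates -/
theorem LocSlow.comp {w : ℕ → ℝ} {κ κ' : ℝ} {ν ν' : E} {v : E → ℂ} (h : LocSlow w κ ν v)
    {S : E → E} (hS : DifferentiableOn ℂ S (ball 0 1))
    (hm : ∀ z ∈ ball (0 : E) 1, S z ∈ ball (0 : E) 1)
    (h1 : ∀ z ∈ ball (0 : E) 1, ‖z - ν'‖ < κ' → ‖S z - ν‖ < κ)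
    (h2 : ∀ z ∈ ball (0 : E) 1, ‖z - ν'‖ < κ' → 1 - ‖S z‖ ^ 2 ≤ 4 * (1 - ‖z‖ ^ 2)) :
    LocSlow (fun k => w (k - 2)) κ' ν' fun z => v (S z) := by
  intro k x hx y hy hxν hyν hxy hk
  refine h (k - 2) (S x) (hm x hx) (S y) (hm y hy) (h1 x hx hxν) (h1 y hy hyν)
    (hxy.map hS hm hx hy) ?_
  rcases le_or_gt 2 k with hk2 | hk2
  · obtain ⟨j, rfl⟩ : ∃ j, k = j + 2 := ⟨k - 2, by omega⟩
    have h3 := h2 x hx hxν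
    rw [Nat.add_sub_cancel]
    rw [pow_add] at hk
    linarith
  · have : k - 2 = 0 := by omega
    rw [this, pow_zero]
    nlinarith [sq_nonneg ‖S x‖]

end Pool.Agent.MPca0fc2.MX
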