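import Mathlib
import Pool.Agent.Lib.MP_ca0fc2_an.MixPick

set_option autoImplicit false

open Metric Set MeasureTheory Filter Topology
open scoped InnerProductSpace ComplexConjugate

namespace Pool.Agent.MPca0fc2.MX

open Pool.Agent.MPca0fc2.SD Pool.Agent.MPca0fc2.SL Pool.Agent.Lib.MP_ca0fc2_an

variable {E : Type*} [NormedAddCommGroup E] [InnerProductSpace ℂ E]

theorem le_of_half_pow {j k : ℕ} (h : (1 / 2 : ℝ) ^ k ≤ (1 / 2) ^ j) : j ≤ k := by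
  by_contra hcon
  push Not at hcon
  have := pow_lt_pow_right_of_lt_one₀ (show (0 : ℝ) < 1 / 2 by norm_num) (by norm_num) hcon
  linarith

/-- the gradient bound that follows from slow oscillation -/
theorem grad_of_locSlow {w e : ℕ → ℝ} (he : Slow e) (hwe : ∀ k, w k ≤ e k) {κ : ℝ} {ν : E}
    (hν : ‖ν‖ = 1) {v : E → ℂ} (hv : DifferentiableOn ℂ v (ball 0 1)) (h : LocSlow w κ ν v) :
    ∀ k, ∀ z ∈ ball (0 : E) 1 ∩ ball ν (κ / 2), ‖z‖ ≤ rr k →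
      ‖fderiv ℂ v z‖ * (1 / 2) ^ k ≤ 64 * e k := by
  rintro k z ⟨hz, hzν⟩ hzk
  have hz1 := mem_ball_zero_iff.mp hz
  rw [mem_ball, dist_eq_norm] at hzν
  obtain ⟨d, hd⟩ : ∃ d, d = 1 - ‖z‖ := ⟨_, rfl⟩
  have hd0 : 0 < d := by linarith
  have hD := depth_pos hz
  obtain ⟨j, hj1, hj2⟩ := exists_scale hD (by nlinarith [sq_nonneg ‖z‖])
  have hkd : (1 / 2 : ℝ) ^ k ≤ d := by unfold rr at hzk; linarith
  have hdD : d ≤ 1 - ‖z‖ ^ 2 := by rw [hd]; nlinarith [norm_nonneg z]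
  have hDd : 1 - ‖z‖ ^ 2 ≤ 2 * d := by rw [hd]; nlinarith [norm_nonneg z]
  have hjk : j ≤ k := le_of_half_pow (by linarith)
  obtain ⟨m, rfl⟩ : ∃ m, k = j + m := ⟨k - j, by omega⟩
  have hdν : d ≤ ‖z - ν‖ := by
    have := norm_sub_norm_le ν z
    rw [hν, norm_sub_rev] at this
    linarith
  have hsub : ball z (d / 8) ⊆ ball (0 : E) 1 := by
    intro y hy
    rw [mem_ball, dist_eq_norm] at hy
    rw [mem_ball_zero_iff]
    have := norm_le_insert' y z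
    linarith
  have hb : ∀ y ∈ ball z (d / 8), ‖v y - v z‖ ≤ e j := by
    intro y hy
    have hy1 := hsub hy
    rw [mem_ball, dist_eq_norm] at hy
    have hyν : ‖y - ν‖ < κ := by
      calc ‖y - ν‖ = ‖(y - z) + (z - ν)‖ := by congr 1; abel
        _ ≤ ‖y - z‖ + ‖z - ν‖ := norm_add_le _ _
        _ < κ := by linarith
    have h1 := h j z hz y hy1 (by linarith) hyν (nr2_of_dist hz (by rw [← hd]; exact hy.le)) hj2
    rw [norm_sub_rev]
    exact h1.trans (hwe j)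
  have h1 : ‖fderiv ℂ v z‖ ≤ 2 * e j / (d / 8) := by
    have hej := he.nonneg j
    apply ContinuousLinearMap.opNorm_le_bound _ (by positivity)
    intro u
    have h2 := norm_fderiv_apply_le (f := fun y => v y - v z) (by positivity : 0 < d / 8)
      ((hv.mono hsub).sub_const _) hb u
    rwa [fderiv_sub_const] at h2
  have hej := he.nonneg j
  have h2 : (1 / 2 : ℝ) ^ (j + 2) ≤ d := by
    rw [pow_add]
    rw [pow_succ] at hj1
    linarith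
  have h3 := Slow.le_pow he j m
  have h4 : ((11 : ℝ) / 10) ^ m * (1 / 2) ^ m ≤ 1 := by
    rw [← mul_pow]
    apply pow_le_one₀ <;> norm_num
  have h5 := he.nonneg (j + m)
  have hjp := half_pow_pos j
  have hmp := half_pow_pos m
  calc ‖fderiv ℂ v z‖ * (1 / 2) ^ (j + m) ≤ 2 * e j / (d / 8) * (1 / 2) ^ (j + m) := by gcongr
    _ = 16 * e j * ((1 / 2) ^ (j + m) / d) := by field_simp; ring
    _ ≤ 16 * e j * ((1 / 2) ^ (j + m) / (1 / 2) ^ (j + 2)) := by gcongr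
    _ = 64 * e j * (1 / 2) ^ m := by rw [pow_add, pow_add]; field_simp; ring
    _ ≤ 64 * ((11 / 10) ^ m * e (j + m)) * (1 / 2) ^ m := by gcongr
    _ = 64 * e (j + m) * ((11 / 10) ^ m * (1 / 2) ^ m) := by ring
    _ ≤ 64 * e (j + m) * 1 := by gcongr
    _ = _ := by ring

/-- slow oscillation that follows from the gradient bound -/
theorem locSlow_of_grad {e : ℕ → ℝ} (he : Slow e) (hanti : Antitone e) {v : E → ℂ}
    (hg : Grad v e) (κ : ℝ) (ν : E) : LocSlow (fun k => 6000 * e k) κ ν v := by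
  intro k x hx y hy _ _ hxy hk
  have hDx := depth_pos hx
  have hDy := depth_pos hy
  have h1 := hxy.depth hx hy
  have h2 := hxy.symm.depth hy hx
  obtain ⟨Dx, hDxe⟩ : ∃ D, D = 1 - ‖x‖ ^ 2 := ⟨_, rfl⟩
  obtain ⟨Dy, hDye⟩ : ∃ D, D = 1 - ‖y‖ ^ 2 := ⟨_, rfl⟩
  have hN : ‖1 - ⟪y, x⟫_ℂ‖ ^ 2 ≤ 2 * (Dy * Dx) := by rw [hDxe, hDye]; exact hxy
  rw [← hDxe, ← hDye] at h1 h2
  rw [← hDxe] at hDx hk
  rw [← hDye] at hDy
  obtain ⟨m, hm⟩ : ∃ m, m = min Dx Dy / 2 := ⟨_, rfl⟩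
  have hm0 : 0 < m := by rw [hm]; have := lt_min hDx hDy; positivity
  have hmx : 2 * m ≤ Dx := by rw [hm]; have := min_le_left Dx Dy; linarith
  have hmy : 2 * m ≤ Dy := by rw [hm]; have := min_le_right Dx Dy; linarith
  have hx1 : Dx ≤ 16 * m := by
    rw [hm]
    rcases le_total Dx Dy with hle | hle
    · rw [min_eq_left hle]; linarith
    · rw [min_eq_right hle]; linarith
  have hy1 : Dy ≤ 16 * m := by
    rw [hm]
    rcases le_total Dx Dy with hle | hle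
    · rw [min_eq_left hle]; linarith
    · rw [min_eq_right hle]; linarith
  have hxy' : Dy * Dx ≤ 32 * m ^ 2 := by
    rcases le_total Dx Dy with hle | hle
    · have h3 : Dx = 2 * m := by rw [hm, min_eq_left hle]; ring
      rw [h3]; nlinarith
    · have h3 : Dy = 2 * m := by rw [hm, min_eq_right hle]; ring
      rw [h3]; nlinarith
  have hDx1 : Dx ≤ 1 := by rw [hDxe]; nlinarith [sq_nonneg ‖x‖]
  obtain ⟨i, hi1, hi2⟩ := exists_scale hm0 (by linarith)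
  obtain ⟨j, hj⟩ : ∃ j, j = i + 1 := ⟨_, rfl⟩
  rw [← hj] at hi1
  obtain ⟨t, ht⟩ : ∃ t : ℝ, t = (1 / 2) ^ j := ⟨_, rfl⟩
  have ht0 : 0 < t := by rw [ht]; exact half_pow_pos j
  have htm : t < m := by rw [ht]; exact hi1
  have hmt : m ≤ 2 * t := by rw [ht, hj, pow_succ]; linarith
  have ht2 : t ≤ 1 / 2 := by
    rw [ht, hj, pow_succ]
    have := half_pow_le_one i
    linarith
  have hrr : rr j = 1 - t := by rw [rr, ht]
  have hrr0 : 1 / 2 ≤ rr j := by rw [hrr]; linarith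
  have hkj : k ≤ j := by
    apply le_of_half_pow
    rw [← ht]
    linarith
  have hx1' := mem_ball_zero_iff.mp hx
  have hy1' := mem_ball_zero_iff.mp hy
  have hxr : ‖x‖ ≤ rr j := by
    rw [hrr]
    have : Dx ≤ 2 * (1 - ‖x‖) := by rw [hDxe]; nlinarith [norm_nonneg x]
    linarith
  have hyr : ‖y‖ ≤ rr j := by
    rw [hrr]
    have : Dy ≤ 2 * (1 - ‖y‖) := by rw [hDye]; nlinarith [norm_nonneg y]
    linarith
  have hrrp : 0 < rr j := by linarith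
  have hsc : ∀ z : E, ‖z‖ ≤ rr j → ‖(((rr j)⁻¹ : ℝ) : ℂ) • z‖ ≤ 1 := by
    intro z hz
    rw [norm_smul, Complex.norm_real, Real.norm_of_nonneg (by positivity), inv_mul_le_iff₀ hrrp]
    linarith
  have hback : ∀ z : E, (rr j : ℂ) • ((((rr j)⁻¹ : ℝ) : ℂ) • z) = z := by
    intro z
    rw [smul_smul, ← Complex.ofReal_mul, mul_inv_cancel₀ hrrp.ne', Complex.ofReal_one, one_smul]
  have h3 := hg.osc he j (hsc x hxr) (hsc y hyr)
  rw [hback, hback] at h3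
  refine h3.trans ?_
  have h4 : ‖1 - ⟪(((rr j)⁻¹ : ℝ) : ℂ) • x, (((rr j)⁻¹ : ℝ) : ℂ) • y⟫_ℂ‖ ≤ 72 * t := by
    have e1 : (1 : ℂ) - ⟪(((rr j)⁻¹ : ℝ) : ℂ) • x, (((rr j)⁻¹ : ℝ) : ℂ) • y⟫_ℂ =
        (((rr j)⁻¹ ^ 2 : ℝ) : ℂ) * ((1 - ⟪x, y⟫_ℂ) - ((1 - rr j ^ 2 : ℝ) : ℂ)) := by
      rw [inner_smul_left, inner_smul_right, Complex.conj_ofReal]
      have : (rr j : ℂ) ≠ 0 := by exact_mod_cast hrrp.ne'
      push_cast
      field_simp
      ring
    rw [e1, norm_mul, Complex.norm_real, Real.norm_of_nonneg (by positivity)]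
    have h5 : ‖1 - ⟪x, y⟫_ℂ‖ ≤ 16 * t := by
      have h6 : ‖1 - ⟪x, y⟫_ℂ‖ = ‖1 - ⟪y, x⟫_ℂ‖ := by
        rw [← RCLike.norm_conj (1 - ⟪y, x⟫_ℂ), map_sub, map_one, inner_conj_symm]
      rw [h6]
      apply le_of_sq_le_sq _ (by positivity)
      nlinarith
    have h6 : 0 ≤ 1 - rr j ^ 2 := by rw [hrr]; nlinarith
    have h7 : 1 - rr j ^ 2 ≤ 2 * t := by rw [hrr]; nlinarith
    have h8 : (rr j)⁻¹ ^ 2 ≤ 4 := by
      have : (rr j)⁻¹ ≤ 2 := by
        rw [inv_le_comm₀ hrrp (by norm_num)]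
        linarith
      have h0 : 0 ≤ (rr j)⁻¹ := by positivity
      nlinarith
    have h9 : ‖(1 - ⟪x, y⟫_ℂ) - ((1 - rr j ^ 2 : ℝ) : ℂ)‖ ≤ 18 * t := by
      refine (norm_sub_le _ _).trans ?_
      rw [Complex.norm_real, Real.norm_of_nonneg h6]
      linarith
    calc (rr j)⁻¹ ^ 2 * ‖(1 - ⟪x, y⟫_ℂ) - ((1 - rr j ^ 2 : ℝ) : ℂ)‖ ≤ 4 * (18 * t) := by gcongr
      _ = 72 * t := by ring
  have h5 : hwt ‖1 - ⟪(((rr j)⁻¹ : ℝ) : ℂ) • x, (((rr j)⁻¹ : ℝ) : ℂ) • y⟫_ℂ‖ j ≤ 3 := by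
    unfold hwt
    rw [← ht]
    calc _ ≤ (81 : ℝ) ^ (1 / 4 : ℝ) := by
          apply Real.rpow_le_rpow (by positivity) _ (by norm_num)
          rw [div_le_iff₀ ht0]
          linarith
      _ = 3 := by
          rw [show (81 : ℝ) = 3 ^ (4 : ℝ) by norm_num, ← Real.rpow_mul (by norm_num)]
          norm_num
  have h6 := he.nonneg j
  have h7 := hanti hkj
  calc 1672 * (e j * hwt ‖1 - ⟪(((rr j)⁻¹ : ℝ) : ℂ) • x, (((rr j)⁻¹ : ℝ) : ℂ) • y⟫_ℂ‖ j)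
      ≤ 1672 * (e j * 3) := by gcongr
    _ ≤ 6000 * e k := by linarith

end Pool.Agent.MPca0fc2.MX
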