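import Mathlib
import Pool.Agent.Lib.MP_ca0fc2_an.MixOsc
import Pool.Agent.Lib.MP_ca0fc2_an.Solv
import Pool.Agent.Lib.MP_ca0fc2_an.SLAug

set_option autoImplicit false

open Metric Set MeasureTheory Filter Topology
open scoped InnerProductSpace ComplexConjugate

namespace Pool.Agent.MPca0fc2.MX

open Pool.Agent.MPca0fc2.SD Pool.Agent.MPca0fc2.SL Pool.Agent.Lib.MP_ca0fc2_an

universe u

variable {E : Type*} [NormedAddCommGroup E] [InnerProductSpace ℂ E]

/-- a family of functions that oscillate slowly near `ν` -/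
structure SlowFam {I : Type*} (Φ : Char I E) (ν : E) (v : I → E → ℂ) : Prop where
  bh : BH v
  one : ∀ i, ∀ z ∈ ball (0 : E) 1, ‖v i z‖ ≤ 1
  ex : ∃ (w : ℕ → ℝ) (κ : ℝ), Wt w ∧ 0 < κ ∧ ∀ᶠ i in Φ.filt, LocSlow w κ ν (v i)

/-- extension to globally slow functions -/
theorem SlowFam.ext {I : Type*} [FiniteDimensional ℂ E] (hn : 2 ≤ Module.finrank ℂ E)
    {Φ : Char I E} {ν : E} (hν : ‖ν‖ = 1) {v : I → E → ℂ} (h : SlowFam Φ ν v) :
    ∃ (g : I → E → ℂ) (W : ℕ → ℝ) (C κ : ℝ), (∀ i, DifferentiableOn ℂ (g i) (ball 0 1)) ∧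
      (∀ i, ∀ z ∈ ball (0 : E) 1, ‖g i z‖ ≤ C) ∧ Wt W ∧ 0 < C ∧ 0 < κ ∧
      ∀ᶠ i in Φ.filt, Grad (g i) W ∧
        ∀ z ∈ ball (0 : E) 1 ∩ ball ν κ, ‖g i z - v i z‖ ≤ C * ‖z - ν‖ := by
  classical
  obtain ⟨w, κ, hw, hκ, hev⟩ := h.ex
  obtain ⟨e, he, hes, hwe⟩ := hw.exists_slow
  obtain ⟨m, hdim⟩ : ∃ m, Module.finrank ℂ E = m + 1 := ⟨Module.finrank ℂ E - 1, by omega⟩
  have hm : 1 ≤ m := by omega
  let _ : MeasurableSpace E := borel E
  have _ : BorelSpace E := ⟨rfl⟩
  obtain ⟨C, hC, κ', hκ', hext⟩ := ext_slow (Measure.addHaar : Measure E) m hm hdim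
    (κ := κ / 2) (by positivity)
  have hW : Wt fun k => 64 * e k + C * bb k := (he.cmul (by norm_num)).add (Wt.bb.cmul hC)
  have hch : ∀ i, ∃ g : E → ℂ, DifferentiableOn ℂ g (ball 0 1) ∧
      (∀ z ∈ ball (0 : E) 1, ‖g z‖ ≤ C) ∧ (LocSlow w κ ν (v i) →
        Grad g (fun k => 64 * e k + C * bb k) ∧
        ∀ z ∈ ball (0 : E) 1 ∩ ball ν κ', ‖g z - v i z‖ ≤ C * ‖z - ν‖) := by
    intro i
    by_cases hi : LocSlow w κ ν (v i)
    · obtain ⟨g, hg1, hg2, hg3⟩ := hext ν hν (fun k => 64 * e k) (v i) 1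
        (fun k => by have := he.pos k; positivity) (h.bh.holo i) (h.one i)
        (grad_of_locSlow hes hwe hν (h.bh.holo i) hi)
      simp only [mul_one] at hg1 hg2 hg3
      exact ⟨g, hg1.hol, hg2, fun _ => ⟨hg1, hg3⟩⟩
    · exact ⟨fun _ => 0, differentiableOn_const _, fun z _ => by simp [hC.le],
        fun h' => absurd h' hi⟩
  choose g hg1 hg2 hg3 using hch
  refine ⟨g, _, C, κ', hg1, hg2, hW, hC, hκ', ?_⟩
  filter_upwards [hev] with i hi
  exact hg3 i hi

theorem wt_sum {d : ℕ} {g : Fin d → ℕ → ℝ} (hg : ∀ a, Wt (g a)) (s : Finset (Fin d)) :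
    Wt fun k => bb k + ∑ a ∈ s, g a k := by
  classical
  induction s using Finset.induction_on with
  | empty => simpa using Wt.bb
  | insert a s has ih =>
    have := ih.add (hg a)
    simp only [Finset.sum_insert has]
    refine (show (fun k => bb k + (g a k + ∑ a ∈ s, g a k)) =
      fun k => bb k + ∑ a ∈ s, g a k + g a k from ?_) ▸ this
    funext k
    ring

theorem grad_sum {d : ℕ} {g : Fin d → ℕ → ℝ} {v : Fin d → E → ℂ}
    (hv : ∀ a, Grad (v a) (g a)) {c : Fin d → ℂ} (hc : ∀ a, ‖c a‖ ≤ 1) (s : Finset (Fin d)) :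
    Grad (fun z => ∑ a ∈ s, c a * v a z) (fun k => bb k + ∑ a ∈ s, g a k) := by
  classical
  induction s using Finset.induction_on with
  | empty => simpa using Grad.zero' (E := E) fun k => (bb_pos k).le
  | insert a s has ih =>
    have h1 := Grad.add2 ih (Grad.cmul (hv a) (hc a))
    have e1 : (fun z => ∑ b ∈ insert a s, c b * v b z) =
        fun z => ∑ b ∈ s, c b * v b z + c a * v a z := by
      funext z
      rw [Finset.sum_insert has]
      ring
    rw [e1]
    refine Grad.mono' h1 fun k => ?_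
    rw [Finset.sum_insert has]
    linarith

/-- The base case: one boundary control and finitely many slow functions. -/
theorem slow_solv {I : Type u} (hDC : DiscCorona) [FiniteDimensional ℂ E]
    (hn : 2 ≤ Module.finrank ℂ E) (Φ : Char I E) {ν : E} (hν : ‖ν‖ = 1)
    (hΦ : ∀ w : E, Φ.φ (fun _ z => ⟪w, z⟫_ℂ) = ⟪w, ν⟫_ℂ) {d : ℕ} {v : Fin d → I → E → ℂ}
    {β : Fin d → ℂ} (hv : ∀ a, SlowFam Φ ν (v a)) (hβ : ∀ a, Φ.φ (v a) = β a) {N : ℕ}
    {f : Fin N → I → E → ℂ} (hf : ∀ j, BH (f j)) {κ C : ℝ} (hκ : 0 < κ)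
    (hsol : ∀ᶠ i in Φ.filt, SolvableOn (fun j => f j i)
      {z | z ∈ ball (0 : E) 1 ∧ ‖z - ν‖ < κ ∧ ∀ a, ‖v a i z - β a‖ < κ} C) :
    ∃ j, Φ.φ (f j) ≠ 0 := by
  classical
  have hover : Over Φ [(AutF.one I E, ν)] := by
    intro c hc
    rw [List.mem_singleton] at hc
    subst hc
    exact ⟨hν, hΦ⟩
  -- the extensions
  choose g W A κg hg1 hg2 hW hA hκg hev using fun a => (hv a).ext hn hν
  have hgBH : ∀ a, BH (g a) := fun a => ⟨hg1 a, A a, hg2 a⟩
  have hgβ : ∀ a, Φ.φ (g a) = β a := by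
    intro a
    have h1 : ∀ ε : ℝ, 0 < ε → ‖Φ.φ (g a) - β a‖ ≤ ε := by
      intro ε hε
      rw [← hβ a, ← Φ.map_sub (hgBH a) (hv a).bh]
      have hAa := hA a
      have hκa := hκg a
      apply bound_near Φ _ hover (κ := min (κg a) (ε / A a)) (by positivity)
        ((hgBH a).sub (hv a).bh) hε.le
      filter_upwards [hev a] with i hi z hz hctl
      have h2 : ‖z - ν‖ < min (κg a) (ε / A a) := hctl (AutF.one I E, ν) (by simp)
      have h3 := hi.2 z ⟨hz, by
        rw [mem_ball, dist_eq_norm]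
        exact h2.trans_le (min_le_left _ _)⟩
      refine h3.trans ?_
      have h4 := (h2.trans_le (min_le_right _ _)).le
      rw [le_div_iff₀ hAa] at h4
      linarith
    have h2 : ‖Φ.φ (g a) - β a‖ ≤ 0 := le_of_forall_pos_le_add fun ε hε => by simpa using h1 ε hε
    exact sub_eq_zero.mp (norm_le_zero_iff.mp h2)
  have hβ1 : ∀ a, ‖β a‖ ≤ A a := fun a => by
    rw [← hgβ a]
    exact Φ.bound (hgBH a) (hA a).le (hg2 a)
  -- the parameters
  choose Bf hBf0 hBf using fun j => (hf j).bdd'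
  obtain ⟨M, hM⟩ : ∃ M : ℝ, M = 2 + ∑ j, Bf j + 2 * ∑ a, A a := ⟨_, rfl⟩
  have hsB : 0 ≤ ∑ j, Bf j := Finset.sum_nonneg fun j _ => (hBf0 j).le
  have hsA : 0 ≤ ∑ a, A a := Finset.sum_nonneg fun a _ => (hA a).le
  have hM2 : 2 ≤ M := by rw [hM]; linarith
  have hBM : ∀ j, Bf j ≤ M := fun j => by
    have := Finset.single_le_sum (f := Bf) (fun j _ => (hBf0 j).le) (Finset.mem_univ j)
    rw [hM]; linarith
  have hAM : ∀ a, 2 * A a ≤ M := fun a => by
    have := Finset.single_le_sum (f := A) (fun a _ => (hA a).le) (Finset.mem_univ a)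
    rw [hM]; linarith
  obtain ⟨Wb, hWb⟩ : ∃ Wb : ℕ → ℝ, Wb = fun k => bb k + ∑ a, W a k := ⟨_, rfl⟩
  have hWt : Wt Wb := by rw [hWb]; exact wt_sum hW Finset.univ
  obtain ⟨ρ₀, hρ₀⟩ : ∃ ρ₀, ρ₀ = min (κ / 4) (1 / 2) := ⟨_, rfl⟩
  have hρ₀0 : 0 < ρ₀ := by rw [hρ₀]; positivity
  obtain ⟨ρ, hρ⟩ : ∃ ρ, ρ = ρ₀ / 8 := ⟨_, rfl⟩
  have hρ0 : 0 < ρ := by rw [hρ]; positivity
  have hρ1 : ρ ≤ 1 / 16 := by
    rw [hρ]
    have : ρ₀ ≤ 1 / 2 := by rw [hρ₀]; exact min_le_right _ _
    linarith
  obtain ⟨r₀, hr₀, hr₀κ, hr₀g, hr₀A⟩ : ∃ r₀ : ℝ, 0 < r₀ ∧ r₀ ≤ κ ∧ (∀ a, r₀ ≤ κg a) ∧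
      ∀ a, A a * r₀ ≤ κ / 8 := by
    have hpos : ∀ a, 0 < min (κg a) (κ / (8 * A a)) := fun a => by
      have := hA a
      have := hκg a
      positivity
    obtain ⟨r, hr, hr'⟩ : ∃ r : ℝ, 0 < r ∧ ∀ a, r ≤ min (κg a) (κ / (8 * A a)) := by
      rcases Nat.eq_zero_or_pos d with hd | hd
      · subst hd
        exact ⟨1, one_pos, fun a => a.elim0⟩
      · have hne : (Finset.univ : Finset (Fin d)).Nonempty := ⟨⟨0, hd⟩, Finset.mem_univ _⟩
        refine ⟨Finset.univ.inf' hne fun a => min (κg a) (κ / (8 * A a)), ?_, ?_⟩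
        · rw [Finset.lt_inf'_iff]
          exact fun a _ => hpos a
        · exact fun a => Finset.inf'_le _ (Finset.mem_univ a)
    refine ⟨min κ r, lt_min hκ hr, min_le_left _ _, fun a => ?_, fun a => ?_⟩
    · exact (min_le_right _ _).trans ((hr' a).trans (min_le_left _ _))
    · have h1 : min κ r ≤ κ / (8 * A a) :=
        (min_le_right _ _).trans ((hr' a).trans (min_le_right _ _))
      have hAa := hA a
      calc A a * min κ r ≤ A a * (κ / (8 * A a)) := by gcongr
        _ = κ / 8 := by field_simp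
  have ha0 : (0 : ℝ) < a₀ := by norm_num [a₀]
  have hW0 := hWt.pos 0
  obtain ⟨ε, hε⟩ : ∃ ε : ℝ, ε = min (1 / 8) (min (1 / (20 * Wb 0)) (1 / (M + 3))) := ⟨_, rfl⟩
  have hε0 : 0 < ε := by rw [hε]; positivity
  have hε8 : ε ≤ 1 / 8 := by rw [hε]; exact min_le_left _ _
  have hεA : ε * Wb 0 ≤ 1 / 20 := by
    have h1 : ε ≤ 1 / (20 * Wb 0) := by rw [hε]; exact (min_le_right _ _).trans (min_le_left _ _)
    calc ε * Wb 0 ≤ 1 / (20 * Wb 0) * Wb 0 := by gcongr
      _ = 1 / 20 := by field_simp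
  have hεM : ε * (M + 2 + ρ) ≤ 1 := by
    have h1 : ε ≤ 1 / (M + 3) := by rw [hε]; exact (min_le_right _ _).trans (min_le_right _ _)
    calc ε * (M + 2 + ρ) ≤ 1 / (M + 3) * (M + 3) :=
          mul_le_mul h1 (by linarith) (by positivity) (by positivity)
      _ = 1 := by field_simp
  obtain ⟨e, he0, heS, hel, hes, hew, -⟩ := seq_of_w hWt.pos (A := Wb 0) (c := a₀ * ρ / 24) (ε := ε)
    hW0 hWt.le_zero (by positivity) hε0 hεA (hWt.sum _ (by positivity))
  obtain ⟨C₁, hC₁⟩ : ∃ C₁ : ℝ, C₁ = max C (8 / κ) := ⟨_, rfl⟩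
  have hC₁0 : 0 < C₁ := by
    rw [hC₁]
    exact lt_of_lt_of_le (by positivity) (le_max_right _ _)
  obtain ⟨r, C', hr, hloc⟩ := local_slow E (EuclideanSpace ℂ (Fin d)) hn (N + d) M C₁ ρ₀ r₀ ρ ε hM2
    hρ0 (by rw [hρ]; linarith) hρ1 hr₀ hε0 (by linarith) hεM e he0 heS hel
    (hes.congr fun k => by congr 1; ring) (fun k₁ => aug_fn he0 hel hε8 k₁)
  -- the augmented data
  obtain ⟨F, hF⟩ : ∃ F : Fin (N + d) → I → E → ℂ, F = Fin.append f fun a i z => g a i z - β a :=
    ⟨_, rfl⟩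
  have hFl : ∀ j, F (Fin.castAdd d j) = f j := fun j => by rw [hF, Fin.append_left]
  have hFr : ∀ a, F (Fin.natAdd N a) = fun i z => g a i z - β a := fun a => by
    rw [hF, Fin.append_right]
  have hFBH : ∀ j, BH (F j) := by
    intro j
    refine Fin.addCases (fun j => ?_) (fun a => ?_) j
    · rw [hFl]; exact hf j
    · rw [hFr]; exact (hgBH a).sub (BH.const _)
  have hFM : ∀ j i, ∀ z ∈ ball (0 : E) 1, ‖F j i z‖ ≤ M := by
    intro j i z hz
    refine Fin.addCases (fun j => ?_) (fun a => ?_) j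
    · rw [hFl]; exact (hBf j i z hz).trans (hBM j)
    · rw [hFr]
      refine (norm_sub_le _ _).trans ?_
      linarith [hg2 a i z hz, hβ1 a, hAM a]
  have hevall : ∀ᶠ i in Φ.filt, ∀ a, Grad (g a i) (W a) ∧
      ∀ z ∈ ball (0 : E) 1 ∩ ball ν (κg a), ‖g a i z - v a i z‖ ≤ A a * ‖z - ν‖ :=
    eventually_all.mpr hev
  have hFsol : ∀ᶠ i in Φ.filt, SolvableOn (fun j => F j i) (ball 0 1 ∩ ball ν r) C' := by
    filter_upwards [hsol, hevall] with i hi1 hi2
    refine hloc ν hν (fun j => F j i) (fun z => WithLp.toLp 2 fun a => g a i z)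
      (fun j => (hFBH j).holo i) (fun j => hFM j i) ?_ ?_ ?_ ?_
    · have h1 : DifferentiableOn ℂ (fun z => (fun a => g a i z)) (ball (0 : E) 1) :=
        differentiableOn_pi.mpr fun a => hg1 a i
      exact (PiLp.continuousLinearEquiv 2 ℂ (fun _ : Fin d => ℂ)).symm.differentiable.comp_differentiableOn h1
    · intro z hz
      have h1 : ‖(WithLp.toLp 2 fun a => g a i z : EuclideanSpace ℂ (Fin d))‖ ≤ ∑ a, A a := by
        apply le_of_sq_le_sq _ hsA
        rw [EuclideanSpace.norm_sq_eq]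
        calc ∑ a, ‖g a i z‖ ^ 2 ≤ ∑ a, A a * A a := by
              apply Finset.sum_le_sum
              intro a _
              have := hg2 a i z hz
              nlinarith [norm_nonneg (g a i z)]
          _ ≤ ∑ a, A a * ∑ b, A b := by
              apply Finset.sum_le_sum
              intro a _
              apply mul_le_mul_of_nonneg_left _ (hA a).le
              exact Finset.single_le_sum (f := A) (fun b _ => (hA b).le) (Finset.mem_univ a)
          _ = _ := by rw [← Finset.sum_mul]; ring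
      linarith
    · intro x hx
      have hx' : ∀ a, ‖conj (x a)‖ ≤ 1 := by
        intro a
        rw [RCLike.norm_conj]
        exact (PiLp.norm_apply_le x a).trans hx
      have h1 := grad_sum (fun a => (hi2 a).1) hx' Finset.univ
      have h2 : (fun z => ⟪x, (WithLp.toLp 2 fun a => g a i z : EuclideanSpace ℂ (Fin d))⟫_ℂ) =
          fun z => ∑ a, conj (x a) * g a i z := by
        funext z
        rw [PiLp.inner_apply]
        refine Finset.sum_congr rfl fun a _ => ?_
        rw [RCLike.inner_apply, mul_comm]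
      rw [h2]
      refine Grad.mono' h1 fun k => ?_
      have := hew k
      rwa [hWb] at this
    · rintro b ⟨hb1, hb2⟩
      have hcl : ∀ z ∈ ball (0 : E) 1 ∩ ball ν r₀ ∩ {z | ‖(WithLp.toLp 2 fun a => g a i z :
          EuclideanSpace ℂ (Fin d)) - WithLp.toLp 2 fun a => g a i b‖ < ρ₀}, ∀ a,
          ‖g a i z - g a i b‖ < κ / 4 := by
        rintro z ⟨-, hz⟩ a
        have h1 := PiLp.norm_apply_le ((WithLp.toLp 2 fun a => g a i z :
          EuclideanSpace ℂ (Fin d)) - WithLp.toLp 2 fun a => g a i b) a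
        refine (lt_of_le_of_lt h1 hz).trans_le ?_
        rw [hρ₀]
        exact min_le_left _ _
      by_cases hcase : ∃ a, κ / 2 ≤ ‖g a i b - β a‖
      · obtain ⟨a, ha⟩ := hcase
        have hlow : ∀ z ∈ ball (0 : E) 1 ∩ ball ν r₀ ∩ {z | ‖(WithLp.toLp 2 fun a => g a i z :
            EuclideanSpace ℂ (Fin d)) - WithLp.toLp 2 fun a => g a i b‖ < ρ₀},
            κ / 4 ≤ ‖g a i z - β a‖ := by
          intro z hz
          have h1 := hcl z hz a
          have h2 : ‖g a i b - β a‖ ≤ ‖g a i z - g a i b‖ + ‖g a i z - β a‖ := by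
            calc ‖g a i b - β a‖ = ‖(g a i z - β a) - (g a i z - g a i b)‖ := by congr 1; ring
              _ ≤ ‖g a i z - β a‖ + ‖g a i z - g a i b‖ := norm_sub_le _ _
              _ = _ := add_comm _ _
          linarith
        have hne : ∀ z ∈ ball (0 : E) 1 ∩ ball ν r₀ ∩ {z | ‖(WithLp.toLp 2 fun a => g a i z :
            EuclideanSpace ℂ (Fin d)) - WithLp.toLp 2 fun a => g a i b‖ < ρ₀},
            g a i z - β a ≠ 0 := by
          intro z hz h0
          have := hlow z hz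
          rw [h0, norm_zero] at this
          linarith
        refine ⟨fun j => if j = Fin.natAdd N a then fun z => (g a i z - β a)⁻¹ else fun _ => 0,
          ?_, ?_, ?_⟩
        · intro j
          by_cases hj : j = Fin.natAdd N a
          · simp only [hj, if_true]
            exact (((hg1 a i).sub_const _).mono fun z hz => hz.1.1).inv hne
          · simp only [hj, if_false]
            exact differentiableOn_const _
        · intro j z hz
          by_cases hj : j = Fin.natAdd N a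
          · simp only [hj, if_true]
            rw [norm_inv]
            have h1 := hlow z hz
            refine le_trans ?_ (hC₁ ▸ le_max_right C (8 / κ))
            rw [inv_le_comm₀ (by linarith) (by positivity), inv_div]
            linarith
          · simp only [hj, if_false, norm_zero]
            exact hC₁0.le
        · intro z hz
          rw [Finset.sum_eq_single (Fin.natAdd N a)]
          · simp only [if_true]
            rw [hFr]
            exact mul_inv_cancel₀ (hne z hz)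
          · intro j _ hj
            simp only [hj, if_false, mul_zero]
          · intro h
            exact absurd (Finset.mem_univ _) h
      · push Not at hcase
        have hin : ∀ z ∈ ball (0 : E) 1 ∩ ball ν r₀ ∩ {z | ‖(WithLp.toLp 2 fun a => g a i z :
            EuclideanSpace ℂ (Fin d)) - WithLp.toLp 2 fun a => g a i b‖ < ρ₀},
            z ∈ {z | z ∈ ball (0 : E) 1 ∧ ‖z - ν‖ < κ ∧ ∀ a, ‖v a i z - β a‖ < κ} := by
          intro z hz
          have hzν : ‖z - ν‖ < r₀ := by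
            have := hz.1.2
            rwa [mem_ball, dist_eq_norm] at this
          refine ⟨hz.1.1, hzν.trans_le hr₀κ, fun a => ?_⟩
          have h1 := hcl z hz a
          have h2 := hcase a
          have h3 := (hi2 a).2 z ⟨hz.1.1, ball_subset_ball (hr₀g a) hz.1.2⟩
          have h4 := hr₀A a
          have h5 : A a * ‖z - ν‖ ≤ A a * r₀ := mul_le_mul_of_nonneg_left hzν.le (hA a).le
          calc ‖v a i z - β a‖ = ‖(g a i z - g a i b) + (g a i b - β a) -
                (g a i z - v a i z)‖ := by congr 1; ring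
            _ ≤ ‖g a i z - g a i b‖ + ‖g a i b - β a‖ + ‖g a i z - v a i z‖ :=
                (norm_sub_le _ _).trans (add_le_add (norm_add_le _ _) le_rfl)
            _ < κ := by linarith
        obtain ⟨h, hh1, hh2, hh3⟩ := hi1
        refine ⟨Fin.append h fun _ _ => 0, ?_, ?_, ?_⟩
        · intro j
          refine Fin.addCases (fun j => ?_) (fun a => ?_) j
          · rw [Fin.append_left]
            exact (hh1 j).mono hin
          · rw [Fin.append_right]
            exact differentiableOn_const _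
        · intro j z hz
          refine Fin.addCases (fun j => ?_) (fun a => ?_) j
          · rw [Fin.append_left]
            exact (hh2 j z (hin z hz)).trans (hC₁ ▸ le_max_left C (8 / κ))
          · rw [Fin.append_right, norm_zero]
            exact hC₁0.le
        · intro z hz
          rw [Fin.sum_univ_add]
          simp only [Fin.append_left, Fin.append_right, mul_zero, Finset.sum_const_zero, add_zero,
            hFl]
          exact hh3 z (hin z hz)
  obtain ⟨j, hj⟩ := Char.exists_ne_zero_of_solv hDC Φ hν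
    (by rw [hΦ, inner_self_one hν]) hFBH (κ := r ^ 2 / 2) (C := C') (by positivity) (by
      filter_upwards [hFsol] with i hi
      refine hi.mono ?_
      rintro z ⟨hz, hzk⟩
      refine ⟨hz, ?_⟩
      rw [mem_ball, dist_eq_norm]
      have h2 := norm_sub_sq_le hν (w := z) (by
        rw [mem_ball_zero_iff] at hz
        exact hz.le)
      have h3 : 1 - (⟪ν, z⟫_ℂ).re ≤ ‖1 - ⟪ν, z⟫_ℂ‖ := by
        have := Complex.re_le_norm (1 - ⟪ν, z⟫_ℂ)
        simpa using this
      have h4 : ‖z - ν‖ ^ 2 < r ^ 2 := by nlinarith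
      exact lt_of_pow_lt_pow_left₀ 2 hr.le h4)
  revert hj
  refine Fin.addCases (fun j => ?_) (fun a => ?_) j
  · intro hj
    rw [hFl] at hj
    exact ⟨j, hj⟩
  · intro hj
    rw [hFr] at hj
    exfalso
    apply hj
    rw [Φ.map_sub (hgBH a) (BH.const _), Φ.map_const, hgβ a, sub_self]

end Pool.Agent.MPca0fc2.MX
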