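import Mathlib
import Pool.Agent.Lib.MP_ca0fc2_an.MixBase

set_option autoImplicit false

open Metric Set MeasureTheory Filter Topology
open scoped InnerProductSpace ComplexConjugate

namespace Pool.Agent.MPca0fc2.MX

open Pool.Agent.MPca0fc2.SD Pool.Agent.MPca0fc2.SL Pool.Agent.Lib.MP_ca0fc2_an

universe u

variable {E : Type*} [NormedAddCommGroup E] [InnerProductSpace ℂ E]

/-- automorphisms do not increase the depth much at the points where they are tame -/
theorem depth_le_of_zero {T R : E → E} (h : IsBallAut T R) {z : E} (hz : z ∈ ball (0 : E) 1)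
    (hzR : ‖⟪R 0, z⟫_ℂ‖ ≤ 1 / 2) : 1 - ‖T z‖ ^ 2 ≤ 4 * (1 - ‖z‖ ^ 2) := by
  have h0mem : (0 : E) ∈ ball (0 : E) 1 := mem_ball_self one_pos
  have h1 := pick h.hol' h.map' (h.map z hz) h0mem
  rw [h.left z hz, inner_zero_left, sub_zero, norm_one, norm_zero] at h1
  have h2 : 1 / 2 ≤ ‖1 - ⟪R 0, z⟫_ℂ‖ := by
    have := norm_sub_norm_le (1 : ℂ) ⟪R 0, z⟫_ℂ
    rw [norm_one] at this
    linarith
  have h3 : (1 / 4 : ℝ) ≤ ‖1 - ⟪R 0, z⟫_ℂ‖ ^ 2 := by nlinarith
  have h4 := depth_pos (h.map z hz)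
  have h5 := depth_pos hz
  have h6 : (1 - ‖R 0‖ ^ 2) * (1 - ‖z‖ ^ 2) ≤ 1 * (1 - ‖z‖ ^ 2) := by
    apply mul_le_mul_of_nonneg_right _ h5.le
    nlinarith [sq_nonneg ‖R 0‖]
  nlinarith

/-- a control: a family of automorphisms, a boundary point, and slow functions with values -/
structure Ctrl (I : Type*) (E : Type*) [NormedAddCommGroup E] [InnerProductSpace ℂ E] where
  A : AutF I E
  ν : E
  vs : List ((I → E → ℂ) × ℂ)

/-- the controls are satisfied at the point `z` -/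
def CtlX {I : Type*} (L : List (Ctrl I E)) (κ : ℝ) (i : I) (z : E) : Prop :=
  ∀ c ∈ L, ‖c.A.fwd i z - c.ν‖ < κ ∧ ∀ p ∈ c.vs, ‖p.1 i (c.A.fwd i z) - p.2‖ < κ

theorem CtlX.mono {I : Type*} {L : List (Ctrl I E)} {κ κ' : ℝ} (h : κ ≤ κ') {i : I} {z : E}
    (hc : CtlX L κ i z) : CtlX L κ' i z := fun c hcL =>
  ⟨(hc c hcL).1.trans_le h, fun p hp => ((hc c hcL).2 p hp).trans_le h⟩

/-- the character lies over the control -/
structure OverC {I : Type*} (Φ : Char I E) (c : Ctrl I E) : Prop where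
  one : ‖c.ν‖ = 1
  pt : ∀ w : E, Φ.φ (fun i z => ⟪w, c.A.fwd i z⟫_ℂ) = ⟪w, c.ν⟫_ℂ
  slow : ∀ p ∈ c.vs, SlowFam Φ c.ν p.1
  val : ∀ p ∈ c.vs, Φ.φ (fun i z => p.1 i (c.A.fwd i z)) = p.2

def OverX {I : Type*} (Φ : Char I E) (L : List (Ctrl I E)) : Prop := ∀ c ∈ L, OverC Φ c

/-- the set where all the controls are satisfied -/
def ctlX {I : Type*} (L : List (Ctrl I E)) (κ : ℝ) (i : I) : Set E :=
  {z | z ∈ ball (0 : E) 1 ∧ CtlX L κ i z}

/-- transport of controls -/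
def mapC {I J : Type*} (τ : J → I) (S : AutF J E) (c : Ctrl I E) : Ctrl J E :=
  ⟨c.A.comp τ S, c.ν, c.vs.map fun p => (fun j => p.1 (τ j), p.2)⟩

theorem ctlX_map {I J : Type*} {τ : J → I} {S : AutF J E} {L : List (Ctrl I E)} {κ : ℝ}
    {j : J} {z : E} : CtlX (L.map (mapC τ S)) κ j z ↔ CtlX L κ (τ j) (S.fwd j z) := by
  constructor
  · intro h c hc
    obtain ⟨h1, h2⟩ := h (mapC τ S c) (List.mem_map_of_mem hc)
    refine ⟨h1, fun p hp => ?_⟩
    exact h2 (fun j => p.1 (τ j), p.2) (List.mem_map_of_mem hp)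
  · intro h c hc
    rw [List.mem_map] at hc
    obtain ⟨c, hc, rfl⟩ := hc
    obtain ⟨h1, h2⟩ := h c hc
    refine ⟨h1, fun p hp => ?_⟩
    change p ∈ c.vs.map _ at hp
    rw [List.mem_map] at hp
    obtain ⟨p, hp, rfl⟩ := hp
    exact h2 p hp

theorem SlowFam.of_filt {I : Type*} {Φ Φ' : Char I E} (h : Φ.filt = Φ'.filt) {ν : E}
    {v : I → E → ℂ} (hv : SlowFam Φ ν v) : SlowFam Φ' ν v := by
  refine ⟨hv.bh, hv.one, ?_⟩
  rw [← h]
  exact hv.ex

/-- Events on the old index set are events on the new one. -/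
theorem ev_tau {I J : Type*} {Φ : Char I E} {Ψ : Char J E} {τ : J → I} {S : AutF J E}
    (h : ∀ F : I → E → ℂ, BH F → Ψ.φ (fun p z => F (τ p) (S.fwd p z)) = Φ.φ F) {P : I → Prop}
    (hP : ∀ᶠ i in Φ.filt, P i) : ∀ᶠ p in Ψ.filt, P (τ p) := by
  have h1 : Φ.φ (Char.ind {i | P i}) = 1 := hP
  have h2 := h _ (Char.BH_ind {i | P i})
  rw [h1] at h2
  exact h2

/-- transport of slow families -/
theorem SlowFam.tau {I J : Type*} {Φ : Char I E} {Ψ : Char J E} {τ : J → I} {S : AutF J E}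
    (h : ∀ F : I → E → ℂ, BH F → Ψ.φ (fun p z => F (τ p) (S.fwd p z)) = Φ.φ F) {ν : E}
    {v : I → E → ℂ} (hv : SlowFam Φ ν v) : SlowFam Ψ ν fun p => v (τ p) := by
  obtain ⟨w, κ, hw, hκ, hev⟩ := hv.ex
  refine ⟨?_, fun p => hv.one (τ p), w, κ, hw, hκ, ev_tau h hev⟩
  obtain ⟨C, hC⟩ := hv.bh.bdd
  exact ⟨fun p => hv.bh.holo (τ p), C, fun p => hC (τ p)⟩

theorem OverX.map {I J : Type*} {Φ : Char I E} {Ψ : Char J E} {τ : J → I} {S : AutF J E}
    (h : ∀ F : I → E → ℂ, BH F → Ψ.φ (fun p z => F (τ p) (S.fwd p z)) = Φ.φ F)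
    {L : List (Ctrl I E)} (hL : OverX Φ L) : OverX Ψ (L.map (mapC τ S)) := by
  intro c hc
  rw [List.mem_map] at hc
  obtain ⟨c, hc, rfl⟩ := hc
  have hc' := hL c hc
  refine ⟨hc'.one, fun w => ?_, ?_, ?_⟩
  · have h1 := h _ (BH.innerAut w c.A)
    rw [hc'.pt w] at h1
    exact h1
  · intro p hp
    change p ∈ c.vs.map _ at hp
    rw [List.mem_map] at hp
    obtain ⟨p, hp, rfl⟩ := hp
    exact (hc'.slow p hp).tau h
  · intro p hp
    change p ∈ c.vs.map _ at hp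
    rw [List.mem_map] at hp
    obtain ⟨p, hp, rfl⟩ := hp
    have h1 := h _ ((hc'.slow p hp).bh.compAut id c.A)
    exact h1.trans (hc'.val p hp)

theorem ctlX_of_interior {I : Type*} [FiniteDimensional ℂ E] (Ψ : Char I E) {ν : E}
    (hν : ‖ν‖ < 1) (hΨ : ∀ w : E, Ψ.φ (fun _ z => ⟪w, z⟫_ℂ) = ⟪w, ν⟫_ℂ)
    {L : List (Ctrl I E)} (hL : OverX Ψ L) {κ : ℝ} (hκ : 0 < κ) :
    ∀ᶠ i in Ψ.filt, CtlX L κ i ν := by
  induction L with
  | nil => exact Eventually.of_forall fun i c hc => by simp at hc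
  | cons c L ih =>
    have h1 := ih fun c' hc' => hL c' (List.mem_cons_of_mem _ hc')
    have hc := hL c List.mem_cons_self
    have h2 := aut_of_interior Ψ hν hΨ c.A hc.pt hκ
    have h3 : ∀ vs : List ((I → E → ℂ) × ℂ), (∀ p ∈ vs, p ∈ c.vs) →
        ∀ᶠ i in Ψ.filt, ∀ p ∈ vs, ‖p.1 i (c.A.fwd i ν) - p.2‖ < κ := by
      intro vs
      induction vs with
      | nil => exact fun _ => Eventually.of_forall fun i p hp => by simp at hp
      | cons p vs ih' =>
        intro hvs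
        have h4 := ih' fun p' hp' => hvs p' (List.mem_cons_of_mem _ hp')
        have hp := hvs p List.mem_cons_self
        have h5 := tendsto_of_interior Ψ hν hΨ ((hc.slow p hp).bh.compAut id c.A)
        have h6 : Ψ.φ (fun i z => p.1 (id i) (c.A.fwd i z)) = p.2 := hc.val p hp
        rw [h6] at h5
        filter_upwards [h4, h5.eventually (ball_mem_nhds p.2 hκ)] with i hi1 hi2 p' hp'
        rcases List.mem_cons.mp hp' with rfl | hp'
        · change dist _ _ < κ at hi2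
          rw [dist_eq_norm] at hi2
          exact hi2
        · exact hi1 p' hp'
    filter_upwards [h1, h2, h3 c.vs fun _ h => h] with i h1 h2 h3 c' hc'
    rcases List.mem_cons.mp hc' with rfl | hc'
    · exact ⟨h2, h3⟩
    · exact h1 c' hc'

theorem mob_smul_inner {e : E} (he : ‖e‖ = 1) {ζ t : ℂ} (hζ : ‖ζ‖ < 1)
    (ht : t • e ∈ ball (0 : E) 1) (z : E) : ‖⟪mob e ζ (t • e), z⟫_ℂ‖ ≤ ‖⟪e, z⟫_ℂ‖ := by
  have h1 : mob e ζ (t • e) = ((1 + conj ζ * t)⁻¹ * (t + ζ)) • e := by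
    have h2 : ⟪e, t • e⟫_ℂ = t := by rw [inner_smul_right, inner_self_one he, mul_one]
    have h3 : prj e (t • e) = 0 := by rw [map_smul, prj_self he, smul_zero]
    simp only [mob, h2, h3, smul_zero, add_zero, smul_smul]
  have h2 := mob_mem he hζ ht
  rw [h1, mem_ball_zero_iff, norm_smul, he, mul_one] at h2
  rw [h1, inner_smul_left, norm_mul, RCLike.norm_conj]
  exact mul_le_of_le_one_left (norm_nonneg _) h2.le

/-- Cluster theorem for several boundary controls with slow functions. -/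
theorem mix_solv (hDC : DiscCorona) [FiniteDimensional ℂ E] (hn : 2 ≤ Module.finrank ℂ E) :
    ∀ (n : ℕ) {I : Type u} (Φ : Char I E) (L : List (Ctrl I E)), L.length = n + 1 → OverX Φ L →
    ∀ {N : ℕ} {f : Fin N → I → E → ℂ}, (∀ j, BH (f j)) → ∀ {κ C : ℝ}, 0 < κ →
    (∀ᶠ i in Φ.filt, SolvableOn (fun j => f j i) (ctlX L κ i) C) → ∃ j, Φ.φ (f j) ≠ 0 := by
  intro n
  induction n with
  | zero =>
    intro I Φ L hlen hL N f hf κ C hκ hsol
    obtain ⟨c, rfl⟩ : ∃ c, L = [c] := List.length_eq_one_iff.mp hlen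
    have hc := hL c (by simp)
    have hf' : ∀ j, BH fun i z => f j i (c.A.bwd i z) := fun j => (hf j).compAut id c.A.symm
    have hval : ∀ j, (Φ.comp c.A.fwd c.A.dfwd c.A.mfwd).φ (fun i z => f j i (c.A.bwd i z)) =
        Φ.φ (f j) := by
      intro j
      change Φ.φ (fun i z => f j i (c.A.bwd i (c.A.fwd i z))) = Φ.φ (f j)
      apply Φ.congr (hf j)
      intro i z hz
      rw [c.A.left i z hz]
    have h1 : ∀ w : E, (Φ.comp c.A.fwd c.A.dfwd c.A.mfwd).φ (fun _ z => ⟪w, z⟫_ℂ) =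
        ⟪w, c.ν⟫_ℂ := hc.pt
    obtain ⟨j, hj⟩ := slow_solv hDC hn (Φ.comp c.A.fwd c.A.dfwd c.A.mfwd) hc.one h1
      (d := c.vs.length) (v := fun a => (c.vs.get a).1) (β := fun a => (c.vs.get a).2)
      (fun a => (hc.slow _ (List.get_mem _ _)).of_filt (filt_comp _ _ _ _).symm)
      (fun a => hc.val _ (List.get_mem _ _)) hf' hκ (C := C) (by
      rw [filt_comp]
      filter_upwards [hsol] with i hi
      refine hi.comp (S := c.A.bwd i) ((c.A.dbwd i).mono fun z hz => hz.1) ?_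
      rintro z ⟨hz, hzk, hzv⟩
      refine ⟨c.A.mbwd i z hz, ?_⟩
      intro c' hc'
      rw [List.mem_singleton] at hc'
      subst hc'
      rw [c'.A.right i z hz]
      refine ⟨hzk, fun p hp => ?_⟩
      obtain ⟨a, rfl⟩ := List.get_of_mem hp
      exact hzv a)
    exact ⟨j, by rwa [hval] at hj⟩
  | succ n ih =>
    intro I Φ L hlen hL N f hf κ C hκ hsol
    obtain ⟨c₁, c₂, L', rfl⟩ : ∃ c₁ c₂ L', L = c₁ :: c₂ :: L' := by
      match L, hlen with
      | c₁ :: c₂ :: L', _ => exact ⟨c₁, c₂, L', rfl⟩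
    have hc₁ := hL c₁ (by simp)
    have hc₂ := hL c₂ (by simp)
    have h0mem : (0 : E) ∈ ball (0 : E) 1 := mem_ball_self one_pos
    have hdir : ∀ i, ∃ (e : E) (t : ℂ), ‖e‖ = 1 ∧ c₁.A.fwd i (c₂.A.bwd i 0) = t • e := by
      intro i
      by_cases h0 : c₁.A.fwd i (c₂.A.bwd i 0) = 0
      · exact ⟨c₁.ν, 0, hc₁.one, by rw [h0, zero_smul]⟩
      · obtain ⟨e, he, h⟩ := exists_unit h0
        exact ⟨e, _, he, h⟩
    choose e t he ht using hdir
    obtain ⟨Ψ, hΨx, hΨF⟩ := mstepA hDC Φ c₁.A he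
    obtain ⟨S, hS⟩ : ∃ S, S = c₁.A.symm.comp Prod.fst (AutF.mobF he) := ⟨_, rfl⟩
    rw [← hS] at hΨF
    have hSf : ∀ p z, S.fwd p z = c₁.A.bwd p.1 (mob (e p.1) p.2 z) := by
      intro p z; rw [hS]; rfl
    have hSb : ∀ p z, S.bwd p z = mob (e p.1) (-p.2) (c₁.A.fwd p.1 z) := by
      intro p z; rw [hS]; rfl
    obtain ⟨ν, hν1, hΨν⟩ := Ψ.exists_point
    have hf' : ∀ j, BH fun p z => f j p.1 (S.fwd p z) := fun j => (hf j).compAut Prod.fst S
    have hsol' := ev_fst hΨF hsol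
    have hfv := fun j => hΨF (f j) (hf j)
    simp_rw [← hfv]
    rcases lt_or_eq_of_le hν1 with hν | hν
    · -- interior case
      by_contra hcon
      push Not at hcon
      have hL2 := hL.map hΨF
      have hctl := ctlX_of_interior Ψ hν hΨν hL2 hκ
      have hνm : ν ∈ ball (0 : E) 1 := by rwa [mem_ball_zero_iff]
      have hlim := fun j => (tendsto_of_interior Ψ hν hΨν (hf' j)).norm
      simp only [hcon, norm_zero] at hlim
      have hlim' : Tendsto (fun p : I × ball (0 : ℂ) 1 => (∑ j, ‖f j p.1 (S.fwd p ν)‖) * C)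
          Ψ.filt (𝓝 ((∑ _j : Fin N, (0 : ℝ)) * C)) :=
        (tendsto_finsetSum _ fun j _ => hlim j).mul_const C
      rw [Finset.sum_const_zero, zero_mul] at hlim'
      have h1 : ∀ᶠ p in Ψ.filt, 1 ≤ (∑ j, ‖f j p.1 (S.fwd p ν)‖) * C := by
        filter_upwards [hctl, hsol'] with p hp1 hp2
        exact hp2.lower ⟨S.mfwd p ν hνm, ctlX_map.mp hp1⟩
      have h3 := ge_of_tendsto hlim' h1
      linarith
    · -- boundary case
      have hx0 : Tendsto (fun p : I × ball (0 : ℂ) 1 => ⟪e p.1, ν⟫_ℂ) Ψ.filt (𝓝 0) := by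
        have := Ψ.map_innerFam hΨν (e := fun p => e p.1) fun p => he p.1
        rwa [hΨx] at this
      have hsmall : ∀ᶠ p in Ψ.filt, ‖⟪e p.1, ν⟫_ℂ‖ < 1 / 4 := by
        have := hx0.norm
        rw [norm_zero] at this
        exact this.eventually_lt_const (by norm_num)
      have hin : ∀ p : I × ball (0 : ℂ) 1, ‖⟪e p.1, ν⟫_ℂ‖ < 1 / 4 → ∀ z : E, ‖z - ν‖ < 1 / 4 →
          ‖⟪e p.1, z⟫_ℂ‖ ≤ 1 / 2 := by
        intro p hp z hz
        have h1 : ⟪e p.1, z⟫_ℂ = ⟪e p.1, z - ν⟫_ℂ + ⟪e p.1, ν⟫_ℂ := by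
          rw [inner_sub_right]; ring
        rw [h1]
        have h2 := norm_inner_le (he p.1) (z - ν)
        refine (norm_add_le _ _).trans ?_
        linarith
      have hcc : ∀ c ∈ c₁ :: c₂ :: L', (c = c₁ ∨ c = c₂) → ∀ i, ∃ t' : ℂ,
          c₁.A.fwd i (c.A.bwd i 0) = t' • e i := by
        intro c _ hcc i
        rcases hcc with rfl | rfl
        · refine ⟨0, ?_⟩
          rw [c.A.right i 0 h0mem, zero_smul]
        · exact ⟨t i, ht i⟩
      have hfr : ∀ c ∈ c₁ :: c₂ :: L', (c = c₁ ∨ c = c₂) → ∀ κ : ℝ, 0 < κ → ∃ κ' : ℝ, 0 < κ' ∧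
          ∀ᶠ p in Ψ.filt, ∀ z ∈ ball (0 : E) 1, ‖z - ν‖ < κ' →
            ‖c.A.fwd p.1 (S.fwd p z) - c.ν‖ < κ := by
        intro c hcL hc κ hκ
        apply freeze Ψ hν hΨν (c.A.comp Prod.fst S) (ν' := c.ν) _ (ρ := 1 / 4) (by norm_num) _ hκ
        · intro w
          have h1 := hΨF _ (BH.innerAut w c.A)
          rw [(hL c hcL).pt w] at h1
          exact h1
        · filter_upwards [hsmall] with p hp z hz w hw hzν hwν
          change ‖c.A.fwd p.1 (S.fwd p z) - c.A.fwd p.1 (S.fwd p w)‖ ^ 2 ≤ _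
          rw [hSf, hSf]
          obtain ⟨t', ht'⟩ := hcc c hcL hc p.1
          exact aut_lip (c.A.comp id c₁.A.symm) p.1 (he p.1) (norm_coe_lt p.2) (t := t') ht' hz hw
            (hin p hp z hzν) (hin p hp w hwν)
      have hdep : ∀ c ∈ c₁ :: c₂ :: L', (c = c₁ ∨ c = c₂) → ∀ᶠ p in Ψ.filt,
          ∀ z ∈ ball (0 : E) 1, ‖z - ν‖ < 1 / 4 →
            1 - ‖c.A.fwd p.1 (S.fwd p z)‖ ^ 2 ≤ 4 * (1 - ‖z‖ ^ 2) := by
        intro c hcL hc
        filter_upwards [hsmall] with p hp z hz hzν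
        have hT : IsBallAut ((c.A.comp Prod.fst S).fwd p) ((c.A.comp Prod.fst S).bwd p) :=
          ⟨(c.A.comp Prod.fst S).dfwd p, (c.A.comp Prod.fst S).dbwd p,
            (c.A.comp Prod.fst S).mfwd p, (c.A.comp Prod.fst S).mbwd p,
            (c.A.comp Prod.fst S).left p, (c.A.comp Prod.fst S).right p⟩
        refine depth_le_of_zero hT hz ?_
        change ‖⟪S.bwd p (c.A.bwd p.1 0), z⟫_ℂ‖ ≤ 1 / 2
        rw [hSb]
        obtain ⟨t', ht'⟩ := hcc c hcL hc p.1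
        rw [ht']
        refine (mob_smul_inner (he p.1) (by rw [norm_neg]; exact norm_coe_lt p.2) ?_ z).trans
          (hin p hp z hzν)
        rw [← ht']
        exact c₁.A.mfwd _ _ (c.A.mbwd _ _ h0mem)
      -- the new slow functions
      have hslow : ∀ c ∈ c₁ :: c₂ :: L', (c = c₁ ∨ c = c₂) → ∀ p ∈ c.vs,
          SlowFam Ψ ν (fun q z => p.1 q.1 (c.A.fwd q.1 (S.fwd q z))) := by
        intro c hcL hc p hp
        have hsp := (hL c hcL).slow p hp
        have hbh : BH fun q z => p.1 (Prod.fst q) ((c.A.comp Prod.fst S).fwd q z) :=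
          hsp.bh.compAut Prod.fst (c.A.comp Prod.fst S)
        obtain ⟨w, κ₀, hw, hκ₀, hev⟩ := hsp.ex
        obtain ⟨κ', hκ', hfrc⟩ := hfr c hcL hc κ₀ hκ₀
        refine ⟨hbh, fun q z hz => hsp.one q.1 _ (c.A.mfwd _ _ (S.mfwd _ _ hz)),
          fun k => w (k - 2), min κ' (1 / 4), hw.shift 2, by positivity, ?_⟩
        filter_upwards [hfrc, hdep c hcL hc, ev_fst hΨF hev] with q hq1 hq2 hq3
        exact hq3.comp (S := fun z => c.A.fwd q.1 (S.fwd q z)) ((c.A.comp Prod.fst S).dfwd q)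
          ((c.A.comp Prod.fst S).mfwd q)
          (fun z hz hzν => hq1 z hz (hzν.trans_le (min_le_left _ _)))
          (fun z hz hzν => hq2 z hz (hzν.trans_le (min_le_right _ _)))
      have hval : ∀ c ∈ c₁ :: c₂ :: L', ∀ p ∈ c.vs,
          Ψ.φ (fun q z => p.1 q.1 (c.A.fwd q.1 (S.fwd q z))) = p.2 := by
        intro c hcL p hp
        have h1 := hΨF _ (((hL c hcL).slow p hp).bh.compAut id c.A)
        exact h1.trans ((hL c hcL).val p hp)
      obtain ⟨κ₁, hκ₁, hfr₁⟩ := hfr c₁ (by simp) (Or.inl rfl) κ hκ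
      obtain ⟨κ₂, hκ₂, hfr₂⟩ := hfr c₂ (by simp) (Or.inr rfl) κ hκ
      obtain ⟨tr, htr⟩ : ∃ tr : Ctrl I E → (I → E → ℂ) × ℂ →
          (I × ball (0 : ℂ) 1 → E → ℂ) × ℂ,
          tr = fun c p => (fun q z => p.1 q.1 (c.A.fwd q.1 (S.fwd q z)), p.2) := ⟨_, rfl⟩
      obtain ⟨c₀, hc₀⟩ : ∃ c₀ : Ctrl (I × ball (0 : ℂ) 1) E,
          c₀ = ⟨AutF.one _ E, ν, c₁.vs.map (tr c₁) ++ c₂.vs.map (tr c₂)⟩ := ⟨_, rfl⟩
      have hc₀vs : ∀ p ∈ c₀.vs, ∃ c ∈ c₁ :: c₂ :: L', (c = c₁ ∨ c = c₂) ∧ ∃ p' ∈ c.vs,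
          p = (fun q z => p'.1 q.1 (c.A.fwd q.1 (S.fwd q z)), p'.2) := by
        intro p hp
        rw [hc₀] at hp
        rcases List.mem_append.mp hp with hp | hp
        · rw [List.mem_map] at hp
          obtain ⟨p', hp', rfl⟩ := hp
          exact ⟨c₁, by simp, Or.inl rfl, p', hp', by rw [htr]⟩
        · rw [List.mem_map] at hp
          obtain ⟨p', hp', rfl⟩ := hp
          exact ⟨c₂, by simp, Or.inr rfl, p', hp', by rw [htr]⟩
      have hoc₀ : OverC Ψ c₀ := by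
        refine ⟨by rw [hc₀]; exact hν, by rw [hc₀]; exact hΨν, ?_, ?_⟩
        · intro p hp
          obtain ⟨c, hcL, hc, p', hp', rfl⟩ := hc₀vs p hp
          have := hslow c hcL hc p' hp'
          rw [hc₀]
          exact this
        · intro p hp
          obtain ⟨c, hcL, hc, p', hp', rfl⟩ := hc₀vs p hp
          rw [hc₀]
          exact hval c hcL p' hp'
      have hover : OverX Ψ (c₀ :: L'.map (mapC Prod.fst S)) := by
        intro c hc
        rcases List.mem_cons.mp hc with rfl | hc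
        · exact hoc₀
        · have hL' : OverX Φ L' := fun c' hc' => hL c' (by simp [hc'])
          exact hL'.map hΨF c hc
      refine ih Ψ (c₀ :: L'.map (mapC Prod.fst S)) ?_ hover hf'
        (κ := min κ (min κ₁ κ₂)) (C := C) (lt_min hκ (lt_min hκ₁ hκ₂)) ?_
      · simp only [List.length_cons, List.length_map] at hlen ⊢
        omega
      · filter_upwards [hfr₁, hfr₂, hsol'] with p h1 h2 h3
        refine h3.comp (S := S.fwd p) ((S.dfwd p).mono fun z hz => hz.1) ?_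
        rintro z ⟨hz, hctl⟩
        have hz0 := hctl c₀ (by simp)
        have hzν : ‖z - ν‖ < min κ (min κ₁ κ₂) := by
          have := hz0.1
          rw [hc₀] at this
          exact this
        have hzν1 : ‖z - ν‖ < κ₁ := hzν.trans_le ((min_le_right _ _).trans (min_le_left _ _))
        have hzν2 : ‖z - ν‖ < κ₂ := hzν.trans_le ((min_le_right _ _).trans (min_le_right _ _))
        have hzvs : ∀ p' ∈ c₀.vs, ‖p'.1 p z - p'.2‖ < κ := by
          intro p' hp'
          have := hz0.2 p' hp'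
          rw [hc₀] at this
          exact this.trans_le (min_le_left _ _)
        refine ⟨S.mfwd p z hz, ?_⟩
        intro c hc
        rcases List.mem_cons.mp hc with rfl | hc
        · refine ⟨h1 z hz hzν1, fun p' hp' => ?_⟩
          refine hzvs (fun q z => p'.1 q.1 (c.A.fwd q.1 (S.fwd q z)), p'.2) ?_
          rw [hc₀]
          refine List.mem_append_left _ ?_
          rw [List.mem_map]
          exact ⟨p', hp', by rw [htr]⟩
        rcases List.mem_cons.mp hc with rfl | hc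
        · refine ⟨h2 z hz hzν2, fun p' hp' => ?_⟩
          refine hzvs (fun q z => p'.1 q.1 (c.A.fwd q.1 (S.fwd q z)), p'.2) ?_
          rw [hc₀]
          refine List.mem_append_right _ ?_
          rw [List.mem_map]
          exact ⟨p', hp', by rw [htr]⟩
        · have h4 : CtlX (L'.map (mapC Prod.fst S)) (min κ (min κ₁ κ₂)) p z := fun c' hc' =>
            hctl c' (List.mem_cons_of_mem _ hc')
          exact (ctlX_map.mp h4).mono (min_le_left _ _) c hc

/-- control sets are not empty -/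
theorem ctlX_nonempty (hDC : DiscCorona) [FiniteDimensional ℂ E] (hn : 2 ≤ Module.finrank ℂ E)
    {I : Type u} (Φ : Char I E) (L : List (Ctrl I E)) (hne : L ≠ []) (hL : OverX Φ L) {κ : ℝ}
    (hκ : 0 < κ) : ∀ᶠ i in Φ.filt, (ctlX L κ i).Nonempty := by
  by_contra hcon
  have h1 := Φ.not_eventually hcon
  obtain ⟨n, hn'⟩ : ∃ n, L.length = n + 1 :=
    ⟨L.length - 1, by have := List.length_pos_iff.mpr hne; omega⟩
  obtain ⟨j, hj⟩ := mix_solv hDC hn n Φ L hn' hL (N := 1) (f := fun _ _ _ => 0)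
    (fun _ => BH.const 0) (κ := κ) (C := 0) hκ (by
    filter_upwards [h1] with i hi
    rw [not_nonempty_iff_eq_empty] at hi
    rw [hi]
    exact ⟨fun _ _ => 0, fun j => differentiableOn_const _, by simp, by simp⟩)
  exact hj (Φ.map_const 0)

end Pool.Agent.MPca0fc2.MX
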