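import Mathlib
import Pool.Agent.Lib.MP_ca0fc2_an.MixDefs
import Pool.Agent.Lib.MP_ca0fc2_an.SLCor

set_option autoImplicit false

open Metric Set Filter Topology MeasureTheory
open scoped InnerProductSpace

namespace Pool.Agent.MPca0fc2.MX

open Pool.Agent.MPca0fc2.SD Pool.Agent.MPca0fc2.SL Pool.Agent.Lib.MP_ca0fc2_an

variable {E : Type*} [NormedAddCommGroup E] [InnerProductSpace ℂ E]

/-- the radial derivative of a bounded holomorphic function controls the gradient -/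
theorem radial_at {g : E → ℂ} {M a : ℝ} (hg : DifferentiableOn ℂ g (ball 0 1))
    (hM : ∀ z ∈ ball (0 : E) 1, ‖g z‖ ≤ M) {z : E} (hz : z ∈ ball (0 : E) 1)
    (hR : (1 - ‖z‖) * ‖fderiv ℂ g z z‖ ≤ a) : (1 - ‖z‖) * ‖fderiv ℂ g z‖ ≤
      max (4 * a) (8 * M * Real.sqrt (1 - ‖z‖)) := by
  have hz1 : ‖z‖ < 1 := mem_ball_zero_iff.mp hz
  have hM0 : 0 ≤ M := (norm_nonneg _).trans (hM z hz)
  have ht : 0 < 1 - ‖z‖ := by linarith
  have hω0 : 0 ≤ a := le_trans (by positivity) hR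
  obtain ⟨s, hs⟩ : ∃ s, s = Real.sqrt (1 - ‖z‖) := ⟨_, rfl⟩
  have hs0 : 0 < s := by rw [hs]; exact Real.sqrt_pos.mpr ht
  have hs2 : s ^ 2 = 1 - ‖z‖ := by rw [hs]; exact Real.sq_sqrt ht.le
  have hmain : (1 - ‖z‖) * ‖fderiv ℂ g z‖ ≤ 2 * a + 4 * M * s := by
    rw [mul_comm, ← le_div_iff₀ ht]
    apply ContinuousLinearMap.opNorm_le_bound _ (by positivity)
    intro v
    rcases le_or_gt (1 / 2) ‖z‖ with h2 | h2
    · have hzn : 0 < ‖z‖ := by linarith
      set e : E := ((‖z‖ : ℂ))⁻¹ • z with he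
      have he1 : ‖e‖ = 1 := by
        rw [he, norm_smul, norm_inv, Complex.norm_real, Real.norm_of_nonneg hzn.le]
        field_simp
      have hze : z = (‖z‖ : ℂ) • e := by
        rw [he, smul_smul, mul_inv_cancel₀ (by exact_mod_cast hzn.ne'), one_smul]
      set α : ℂ := ⟪e, v⟫_ℂ * ((‖z‖ : ℂ))⁻¹ with hα
      have hv : v = α • z + prj e v := by
        conv_lhs => rw [← dec_eq (e := e) v]
        congr 1
        rw [hα, mul_smul, ← he]
      have hα' : ‖α‖ ≤ 2 * ‖v‖ := by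
        rw [hα, norm_mul, norm_inv, Complex.norm_real, Real.norm_of_nonneg hzn.le]
        have h3 := norm_inner_le he1 v
        have h4 : ‖z‖⁻¹ ≤ 2 := by
          rw [inv_le_comm₀ hzn (by norm_num)]; linarith
        calc ‖⟪e, v⟫_ℂ‖ * ‖z‖⁻¹ ≤ ‖v‖ * 2 := by gcongr
          _ = 2 * ‖v‖ := by ring
      have hT := norm_fderiv_tangential hg hM hz (u := prj e v) (by
        rw [hze, inner_smul_left, inner_prj he1, mul_zero])
      have h5 : s ≤ Real.sqrt (1 - ‖z‖ ^ 2) := by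
        rw [hs]; apply Real.sqrt_le_sqrt; nlinarith [norm_nonneg z]
      have h6 : ‖fderiv ℂ g z (prj e v)‖ * s ≤ 2 * M * ‖v‖ := by
        calc ‖fderiv ℂ g z (prj e v)‖ * s ≤ ‖fderiv ℂ g z (prj e v)‖ * Real.sqrt (1 - ‖z‖ ^ 2) :=
              by gcongr
          _ ≤ 2 * M * ‖prj e v‖ := hT
          _ ≤ 2 * M * ‖v‖ := by gcongr; exact norm_prj_le he1 v
      have h7 : ‖fderiv ℂ g z v‖ ≤ ‖α‖ * ‖fderiv ℂ g z z‖ + ‖fderiv ℂ g z (prj e v)‖ := by
        conv_lhs => rw [hv]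
        rw [map_add, map_smul, smul_eq_mul]
        exact (norm_add_le _ _).trans (by rw [norm_mul])
      have h8 := hR
      rw [div_mul_eq_mul_div, le_div_iff₀ ht]
      have h9 : ‖α‖ * ‖fderiv ℂ g z z‖ * (1 - ‖z‖) ≤ 2 * ‖v‖ * a := by
        calc ‖α‖ * ‖fderiv ℂ g z z‖ * (1 - ‖z‖) = ‖α‖ * ((1 - ‖z‖) * ‖fderiv ℂ g z z‖) := by ring
          _ ≤ 2 * ‖v‖ * a := by gcongr
      have h10 : ‖fderiv ℂ g z (prj e v)‖ * (1 - ‖z‖) ≤ 2 * M * ‖v‖ * s := by
        rw [← hs2]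
        calc ‖fderiv ℂ g z (prj e v)‖ * s ^ 2 = ‖fderiv ℂ g z (prj e v)‖ * s * s := by ring
          _ ≤ 2 * M * ‖v‖ * s := by gcongr
      have h11 : 0 ≤ M * ‖v‖ * s := by positivity
      calc ‖fderiv ℂ g z v‖ * (1 - ‖z‖) ≤
            (‖α‖ * ‖fderiv ℂ g z z‖ + ‖fderiv ℂ g z (prj e v)‖) * (1 - ‖z‖) := by gcongr
        _ ≤ 2 * ‖v‖ * a + 2 * M * ‖v‖ * s := by linarith
        _ ≤ _ := by linarith
    · have hsub : ball z (1 - ‖z‖) ⊆ ball (0 : E) 1 := by
        intro w hw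
        rw [mem_ball, dist_eq_norm] at hw
        rw [mem_ball_zero_iff]
        calc ‖w‖ = ‖z + (w - z)‖ := by congr 1; abel
          _ ≤ ‖z‖ + ‖w - z‖ := norm_add_le _ _
          _ < 1 := by linarith
      have h3 := norm_fderiv_apply_le ht (hg.mono hsub) (fun w hw => hM w (hsub hw)) v
      refine h3.trans ?_
      gcongr
      have h4 : 1 / 2 ≤ s := by
        rw [hs]; apply Real.le_sqrt_of_sq_le; nlinarith
      nlinarith
  rw [← hs]
  refine hmain.trans ?_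
  rcases le_total (2 * a) (4 * M * s) with h | h
  · exact le_trans (by linarith) (le_max_right _ _)
  · exact le_trans (by linarith) (le_max_left _ _)


theorem rate_max {ω : ℝ → ℝ} (hω : IsRate ω) {K : ℝ} (hK : 0 < K) :
    IsRate fun t => max (4 * ω t) (K * Real.sqrt t) := by
  refine ⟨fun t ht => ?_, ?_, fun c hc => ?_⟩
  · exact lt_max_of_lt_left (by have := hω.pos t ht; positivity)
  · intro s hs t ht hst
    have h1 := hω.mono hs ht hst
    have h2 : Real.sqrt s ≤ Real.sqrt t := Real.sqrt_le_sqrt hst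
    have h3 : K * Real.sqrt s ≤ K * Real.sqrt t := by gcongr
    exact max_le_max (by linarith) h3
  · exact integrableOn_max (fun t ht => hω.pos t ⟨ht.1, ht.2.le⟩) hc hK
      (hω.int (c / 4) (by positivity))

end Pool.Agent.MPca0fc2.MX
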