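import Mathlib
import Pool.Agent.Lib.MP_ca0fc2_an.MixOsc
import Pool.Agent.Lib.MP_ca0fc2_an.MixRad
import Pool.Agent.Lib.MP_ca0fc2_an.Solv
import Pool.Agent.Lib.MP_ca0fc2_an.SLAug
import Pool.Agent.Lib.MP_ca0fc2_an.SLCut

set_option autoImplicit false

open Metric Set MeasureTheory Filter Topology
open scoped InnerProductSpace ComplexConjugate

namespace Pool.Agent.MPca0fc2.MX

open Pool.Agent.MPca0fc2.SD Pool.Agent.MPca0fc2.SL Pool.Agent.Lib.MP_ca0fc2_an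

universe u

variable {E : Type*} [NormedAddCommGroup E] [InnerProductSpace ℂ E]

theorem slowNear_mono {ω : ℝ → ℝ} {η : ℝ} {S S' : Set E} {u : E → ℂ}
    (h : IsSlowNear ω η S u) (hS : S' ⊆ S) : IsSlowNear ω η S' u :=
  ⟨h.hol, h.bdd, fun s hs => h.slow s (hS hs)⟩

theorem mixed_mono {N : ℕ} {f : Fin N → E → ℂ} {C η : ℝ} {ω : ℝ → ℝ} :
    ∀ {k : ℕ} {D D' : Set E}, MixedSolvable f C η ω k D → D' ⊆ D →
    MixedSolvable f C η ω k D' := by
  intro k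
  induction k with
  | zero => intro D D' h hD; exact SolvableOn.mono h hD
  | succ k ih =>
    rintro D D' ⟨φ, ψ, hφ, h⟩ hD
    refine ⟨φ, ψ, hφ, ?_⟩
    rcases h with ⟨e, he, h⟩ | ⟨u, hu, h⟩
    · exact Or.inl ⟨e, he, fun z₀ hz₀ => ih (h z₀ (hD hz₀)) (inter_subset_inter_left _ hD)⟩
    · exact Or.inr ⟨u, slowNear_mono hu (image_mono hD),
        fun z₀ hz₀ => ih (h z₀ (hD hz₀)) (inter_subset_inter_left _ hD)⟩

theorem mixed_comp {N : ℕ} {f : Fin N → E → ℂ} {C η : ℝ} {ω : ℝ → ℝ} {S R : E → E}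
    (hS : IsBallAut S R) : ∀ {k : ℕ} {D : Set E}, MixedSolvable f C η ω k D →
    MixedSolvable (fun j z => f j (S z)) C η ω k {z | z ∈ ball (0 : E) 1 ∧ S z ∈ D} := by
  intro k
  induction k with
  | zero =>
    intro D h
    exact SolvableOn.comp h (hS.hol.mono fun z hz => hz.1) fun z hz => hz.2
  | succ k ih =>
    rintro D ⟨φ, ψ, hφ, h⟩
    refine ⟨fun z => φ (S z), fun z => R (ψ z), ?_, ?_⟩
    · exact ⟨hφ.hol.comp hS.hol hS.map, hS.hol'.comp hφ.hol' hφ.map',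
        fun z hz => hφ.map _ (hS.map z hz), fun z hz => hS.map' _ (hφ.map' z hz),
        fun z hz => by rw [hφ.left _ (hS.map z hz), hS.left z hz],
        fun z hz => by rw [hS.right _ (hφ.map' z hz), hφ.right z hz]⟩
    · rcases h with ⟨e, he, h⟩ | ⟨u, hu, h⟩
      · refine Or.inl ⟨e, he, ?_⟩
        rintro z₀ ⟨hz₀, hz₀D⟩
        refine mixed_mono (ih (h _ hz₀D)) ?_
        rintro z ⟨⟨hz, hzD⟩, hzc⟩
        exact ⟨hz, hzD, hzc⟩
      · refine Or.inr ⟨u, slowNear_mono hu ?_, ?_⟩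
        · rintro _ ⟨z, ⟨-, hzD⟩, rfl⟩
          exact ⟨S z, hzD, rfl⟩
        · rintro z₀ ⟨hz₀, hz₀D⟩
          refine mixed_mono (ih (h _ hz₀D)) ?_
          rintro z ⟨⟨hz, hzD⟩, hzc⟩
          exact ⟨hz, hzD, hzc⟩

theorem mixed_lower {N : ℕ} {f : Fin N → E → ℂ} {C η : ℝ} {ω : ℝ → ℝ} (hη : 0 < η) :
    ∀ {k : ℕ} {D : Set E}, D ⊆ ball (0 : E) 1 → MixedSolvable f C η ω k D →
    ∀ {z : E}, z ∈ D → 1 ≤ (∑ j, ‖f j z‖) * C := by
  intro k
  induction k with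
  | zero => intro D _ h z hz; exact SolvableOn.lower h hz
  | succ k ih =>
    rintro D hD ⟨φ, ψ, hφ, h⟩ z hz
    rcases h with ⟨e, he, h⟩ | ⟨u, hu, h⟩
    · refine ih (inter_subset_left.trans hD) (h z hz) ⟨hz, ?_⟩
      have h1 : 0 < 1 - ‖⟪e, φ z⟫_ℂ‖ := by
        have := norm_inner_lt he (hφ.map z (hD hz))
        linarith
      have h2 : 0 < η * (1 - ‖⟪e, φ z⟫_ℂ‖) := by positivity
      constructor <;> simpa using h2
    · refine ih (inter_subset_left.trans hD) (h z hz) ⟨hz, ?_⟩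
      constructor <;> simpa using hη

/-- the gradient bound for a slowly oscillating function, at the dyadic scales -/
theorem grad_of_rate {ω : ℝ → ℝ} (hω : IsRate ω) {e : ℕ → ℝ} (he : Slow e)
    (hωe : ∀ k, ω ((1 / 2) ^ k) ≤ e k) {v : E → ℂ} {z : E} (hz : z ∈ ball (0 : E) 1)
    (hv : (1 - ‖z‖) * ‖fderiv ℂ v z‖ ≤ ω (1 - ‖z‖)) (k : ℕ) (hk : ‖z‖ ≤ rr k) :
    ‖fderiv ℂ v z‖ * (1 / 2) ^ k ≤ 2 * e k := by
  have hz1 := mem_ball_zero_iff.mp hz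
  obtain ⟨t, ht⟩ : ∃ t, t = 1 - ‖z‖ := ⟨_, rfl⟩
  rw [← ht] at hv
  have ht0 : 0 < t := by linarith
  have ht1 : t ≤ 1 := by linarith [norm_nonneg z]
  obtain ⟨j, hj1, hj2⟩ := exists_scale ht0 ht1
  have hkt : (1 / 2 : ℝ) ^ k ≤ t := by unfold rr at hk; linarith
  have hjk : j ≤ k := le_of_half_pow (by linarith)
  obtain ⟨m, rfl⟩ : ∃ m, k = j + m := ⟨k - j, by omega⟩
  have hjp := half_pow_pos j
  have hmp := half_pow_pos m
  have h1 : ω t ≤ e j := (hω.mono ⟨ht0, ht1⟩ ⟨hjp, half_pow_le_one j⟩ hj2).trans (hωe j)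
  have h2 : ‖fderiv ℂ v z‖ ≤ e j / t := by
    rw [le_div_iff₀ ht0]
    linarith
  have hej := he.nonneg j
  have h3 := Slow.le_pow he j m
  have h4 : ((11 : ℝ) / 10) ^ m * (1 / 2) ^ m ≤ 1 := by
    rw [← mul_pow]
    apply pow_le_one₀ <;> norm_num
  have h5 := he.nonneg (j + m)
  rw [pow_succ] at hj1
  calc ‖fderiv ℂ v z‖ * (1 / 2) ^ (j + m) ≤ e j / t * (1 / 2) ^ (j + m) := by gcongr
    _ = e j * (1 / 2) ^ m * ((1 / 2) ^ j / t) := by rw [pow_add]; ring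
    _ ≤ e j * (1 / 2) ^ m * 2 := by
        gcongr
        rw [div_le_iff₀ ht0]
        linarith
    _ ≤ ((11 / 10) ^ m * e (j + m)) * (1 / 2) ^ m * 2 := by gcongr
    _ = 2 * e (j + m) * ((11 / 10) ^ m * (1 / 2) ^ m) := by ring
    _ ≤ 2 * e (j + m) * 1 := by gcongr
    _ = _ := by ring

/-- Near a boundary point, a slowly oscillating function can be replaced by a function which
oscillates slowly everywhere. -/
theorem exists_locSlow [FiniteDimensional ℂ E] (hn : 2 ≤ Module.finrank ℂ E) {ω : ℝ → ℝ}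
    (hω : IsRate ω) {κ : ℝ} (hκ : 0 < κ) : ∃ (w : ℕ → ℝ) (C κ' : ℝ), Wt w ∧ 1 ≤ C ∧ 0 < κ' ∧
      ∀ p : E, ‖p‖ = 1 → ∀ u : E → ℂ, DifferentiableOn ℂ u (ball 0 1) →
      (∀ z ∈ ball (0 : E) 1, ‖u z‖ ≤ 1) →
      (∀ z ∈ ball (0 : E) 1 ∩ ball p κ, (1 - ‖z‖) * ‖fderiv ℂ u z z‖ ≤ ω (1 - ‖z‖)) →
      ∃ v : E → ℂ, DifferentiableOn ℂ v (ball 0 1) ∧ (∀ z ∈ ball (0 : E) 1, ‖v z‖ ≤ 1) ∧
        LocSlow w κ' p v ∧ ∀ z ∈ ball (0 : E) 1 ∩ ball p κ', ‖C * v z - u z‖ ≤ C * ‖z - p‖ := by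
  have hω' := rate_max hω (show (0 : ℝ) < 8 by norm_num)
  obtain ⟨e, he, hes, hωe⟩ := (Wt.of_rate hω').exists_slow
  obtain ⟨m, hdim⟩ : ∃ m, Module.finrank ℂ E = m + 1 := ⟨Module.finrank ℂ E - 1, by omega⟩
  have hm : 1 ≤ m := by omega
  let _ : MeasurableSpace E := borel E
  have _ : BorelSpace E := ⟨rfl⟩
  obtain ⟨C, hC, κ', hκ', hext⟩ := ext_slow (Measure.addHaar : Measure E) m hm hdim hκ
  obtain ⟨e', he', hes', hee'⟩ := ((he.cmul (show (0 : ℝ) < 2 by norm_num)).add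
    (Wt.bb.cmul hC)).exists_slow
  have hC1 : 1 ≤ max C 1 := le_max_right _ _
  have hC0 : (0 : ℝ) < max C 1 := by positivity
  have hCC : C ≤ max C 1 := le_max_left _ _
  refine ⟨fun k => 6000 * e' k, max C 1, κ', he'.cmul (by norm_num), hC1, hκ', ?_⟩
  intro p hp u hu hu1 hus
  obtain ⟨g, hg1, hg2, hg3⟩ := hext p hp (fun k => 2 * e k) u 1
    (fun k => by have := he.pos k; positivity) hu hu1
    (fun k z hz hk => grad_of_rate hω' hes hωe hz.1 (by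
      have := radial_at hu hu1 hz.1 (hus z hz)
      rwa [mul_one] at this) k hk)
  simp only [mul_one] at hg1 hg2 hg3
  have hc : ‖(((max C 1)⁻¹ : ℝ) : ℂ)‖ ≤ 1 := by
    rw [Complex.norm_real, Real.norm_of_nonneg (by positivity)]
    exact inv_le_one_of_one_le₀ hC1
  have hgr : Grad (fun z => (((max C 1)⁻¹ : ℝ) : ℂ) * g z) e' :=
    Grad.mono' (Grad.cmul hg1 hc) fun k => hee' k
  refine ⟨fun z => (((max C 1)⁻¹ : ℝ) : ℂ) * g z, hgr.hol, ?_, ?_, ?_⟩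
  · intro z hz
    rw [norm_mul, Complex.norm_real, Real.norm_of_nonneg (by positivity), inv_mul_le_iff₀ hC0,
      mul_one]
    exact (hg2 z hz).trans hCC
  · exact locSlow_of_grad hes' he'.anti hgr κ' p
  · intro z hz
    have h1 : ((max C 1 : ℝ) : ℂ) * ((((max C 1)⁻¹ : ℝ) : ℂ) * g z) = g z := by
      rw [← mul_assoc, ← Complex.ofReal_mul, mul_inv_cancel₀ hC0.ne', Complex.ofReal_one, one_mul]
    rw [h1]
    refine (hg3 z hz).trans ?_
    exact mul_le_mul_of_nonneg_right hCC (norm_nonneg _)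

end Pool.Agent.MPca0fc2.MX
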