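import Mathlib
import Pool.Agent.Lib.MP_ca0fc2_an.MixCtl
import Pool.Agent.Lib.MP_ca0fc2_an.MixSol
import Pool.Agent.Lib.MP_ca0fc2_an.Depth

set_option autoImplicit false

open Metric Set MeasureTheory Filter Topology
open scoped InnerProductSpace ComplexConjugate

namespace Pool.Agent.MPca0fc2.MX

open Pool.Agent.MPca0fc2.SD Pool.Agent.MPca0fc2.SL Pool.Agent.Lib.MP_ca0fc2_an

universe u

variable {E : Type*} [NormedAddCommGroup E] [InnerProductSpace ℂ E]

theorem id_aut : IsBallAut (id : E → E) id :=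
  ⟨differentiableOn_id, differentiableOn_id, fun _ hz => hz, fun _ hz => hz, fun _ _ => rfl,
    fun _ _ => rfl⟩

/-- Mixed localization for families. -/
theorem mixed_thm (hDC : DiscCorona) [FiniteDimensional ℂ E] (hn : 2 ≤ Module.finrank ℂ E)
    {ω : ℝ → ℝ} (hω : IsRate ω) : ∀ (k : ℕ) {I : Type u}
    (Φ : Char I E) (L : List (Ctrl I E)), L ≠ [] → OverX Φ L →
    ∀ {N : ℕ} {f : Fin N → I → E → ℂ}, (∀ j, BH (f j)) → ∀ {κ C η : ℝ}, 0 < κ → 0 < η →
    (∀ᶠ i in Φ.filt, MixedSolvable (fun j => f j i) C η ω k (ctlX L κ i)) →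
    ∃ j, Φ.φ (f j) ≠ 0 := by
  intro k
  induction k with
  | zero =>
    intro I Φ L hne hL N f hf κ C η hκ _ hsol
    obtain ⟨n, hn'⟩ : ∃ n, L.length = n + 1 :=
      ⟨L.length - 1, by have := List.length_pos_iff.mpr hne; omega⟩
    exact mix_solv hDC hn n Φ L hn' hL hf hκ hsol
  | succ k ih =>
    intro I Φ L hne hL N f hf κ C η hκ hη hsol
    classical
    obtain ⟨c₀, hc₀⟩ := List.exists_mem_of_ne_nil L hne
    have he₀ := (hL c₀ hc₀).one
    by_cases hcase : ∀ᶠ i in Φ.filt, ∃ φ ψ : E → E, IsBallAut φ ψ ∧ ∃ e : E, ‖e‖ = 1 ∧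
        ∀ z₀ ∈ ctlX L κ i, MixedSolvable (fun j => f j i) C η ω k (ctlX L κ i ∩ lineCell e η φ z₀)
    · -- lines
      have hch : ∀ i, ∃ (e : E) (φ ψ : E → E), ‖e‖ = 1 ∧ IsBallAut φ ψ ∧
          ((∃ φ ψ : E → E, IsBallAut φ ψ ∧ ∃ e : E, ‖e‖ = 1 ∧ ∀ z₀ ∈ ctlX L κ i,
            MixedSolvable (fun j => f j i) C η ω k (ctlX L κ i ∩ lineCell e η φ z₀)) →
            ∀ z₀ ∈ ctlX L κ i,
              MixedSolvable (fun j => f j i) C η ω k (ctlX L κ i ∩ lineCell e η φ z₀)) := by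
        intro i
        by_cases h : ∃ φ ψ : E → E, IsBallAut φ ψ ∧ ∃ e : E, ‖e‖ = 1 ∧ ∀ z₀ ∈ ctlX L κ i,
            MixedSolvable (fun j => f j i) C η ω k (ctlX L κ i ∩ lineCell e η φ z₀)
        · obtain ⟨φ, ψ, hφ, e, he, h'⟩ := h
          exact ⟨e, φ, ψ, he, hφ, fun _ => h'⟩
        · exact ⟨c₀.ν, id, id, he₀, id_aut, fun h' => absurd h' h⟩
      choose e φ ψ he hφ hch using hch
      obtain ⟨B, hB⟩ : ∃ B : AutF I E, B = ⟨φ, ψ, fun i => (hφ i).hol, fun i => (hφ i).hol',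
        fun i => (hφ i).map, fun i => (hφ i).map', fun i => (hφ i).left, fun i => (hφ i).right⟩ :=
        ⟨_, rfl⟩
      have hBf : ∀ i, B.fwd i = φ i := fun i => by rw [hB]
      obtain ⟨Ψ, hΨx, hΨF⟩ := mstepA hDC Φ B he
      obtain ⟨S, hS⟩ : ∃ S, S = B.symm.comp Prod.fst (AutF.mobF he) := ⟨_, rfl⟩
      rw [← hS] at hΨF
      have hSf : ∀ p z, S.fwd p z = B.bwd p.1 (mob (e p.1) p.2 z) := by
        intro p z; rw [hS]; rfl
      have hSaut : ∀ p, IsBallAut (S.fwd p) (S.bwd p) := fun p =>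
        ⟨S.dfwd p, S.dbwd p, S.mfwd p, S.mbwd p, S.left p, S.right p⟩
      obtain ⟨ν, hν1, hΨν⟩ := Ψ.exists_point
      have hf' : ∀ j, BH fun p z => f j p.1 (S.fwd p z) := fun j => (hf j).compAut Prod.fst S
      have hsol' := ev_fst hΨF hsol
      have hcase' := ev_fst hΨF hcase
      have hfv := fun j => hΨF (f j) (hf j)
      simp_rw [← hfv]
      rcases lt_or_eq_of_le hν1 with hν | hν
      · -- interior case
        by_contra hcon
        push Not at hcon
        have hL2 := hL.map hΨF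
        have hctl := ctlX_of_interior Ψ hν hΨν hL2 hκ
        have hνm : ν ∈ ball (0 : E) 1 := by rwa [mem_ball_zero_iff]
        have hlim := fun j => (tendsto_of_interior Ψ hν hΨν (hf' j)).norm
        simp only [hcon, norm_zero] at hlim
        have hlim' : Tendsto (fun p : I × ball (0 : ℂ) 1 => (∑ j, ‖f j p.1 (S.fwd p ν)‖) * C)
            Ψ.filt (𝓝 ((∑ _j : Fin N, (0 : ℝ)) * C)) :=
          (tendsto_finsetSum _ fun j _ => hlim j).mul_const C
        rw [Finset.sum_const_zero, zero_mul] at hlim'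
        have h1 : ∀ᶠ p in Ψ.filt, 1 ≤ (∑ j, ‖f j p.1 (S.fwd p ν)‖) * C := by
          filter_upwards [hctl, hsol'] with p hp1 hp2
          exact mixed_lower hη (fun z hz => hz.1) hp2 ⟨S.mfwd p ν hνm, ctlX_map.mp hp1⟩
        have h3 := ge_of_tendsto hlim' h1
        linarith
      · -- boundary case
        have hx0 : Tendsto (fun p : I × ball (0 : ℂ) 1 => ⟪e p.1, ν⟫_ℂ) Ψ.filt (𝓝 0) := by
          have := Ψ.map_innerFam hΨν (e := fun p => e p.1) fun p => he p.1
          rwa [hΨx] at this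
        have hsmall : ∀ᶠ p in Ψ.filt, ‖⟪e p.1, ν⟫_ℂ‖ < 1 / 4 := by
          have := hx0.norm
          rw [norm_zero] at this
          exact this.eventually_lt_const (by norm_num)
        obtain ⟨c₁, hc₁⟩ : ∃ c₁ : Ctrl (I × ball (0 : ℂ) 1) E, c₁ = ⟨AutF.one _ E, ν, []⟩ :=
          ⟨_, rfl⟩
        have hoc₁ : OverC Ψ c₁ := by
          rw [hc₁]
          exact ⟨hν, hΨν, fun p hp => by simp at hp, fun p hp => by simp at hp⟩
        have hover : OverX Ψ (c₁ :: L.map (mapC Prod.fst S)) := by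
          intro c hc
          rcases List.mem_cons.mp hc with rfl | hc
          · exact hoc₁
          · exact hL.map hΨF c hc
        set κ' : ℝ := min κ (min (η / 1600) (1 / 8)) with hκ'
        have hκ'0 : 0 < κ' := by positivity
        have hκ'κ : κ' ≤ κ := min_le_left _ _
        have hκ'η : κ' ≤ η / 1600 := (min_le_right _ _).trans (min_le_left _ _)
        have hκ'8 : κ' ≤ 1 / 8 := (min_le_right _ _).trans (min_le_right _ _)
        have hnon := ctlX_nonempty hDC hn Ψ _ (by simp) hover hκ'0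
        refine ih Ψ (c₁ :: L.map (mapC Prod.fst S)) (by simp) hover hf' (κ := κ') (C := C)
          (η := η) hκ'0 hη ?_
        filter_upwards [hsmall, hnon, hcase'] with p hp1 hp2 hp3
        obtain ⟨z₀, hz₀⟩ := hp2
        have hsub : ∀ z ∈ ctlX (c₁ :: L.map (mapC Prod.fst S)) κ' p,
            S.fwd p z ∈ ctlX L κ p.1 := by
          rintro z ⟨hz, hzc⟩
          refine ⟨S.mfwd p z hz, ?_⟩
          have h1 : CtlX (L.map (mapC Prod.fst S)) κ' p z := fun c hc =>
            hzc c (List.mem_cons_of_mem _ hc)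
          exact (ctlX_map.mp h1).mono hκ'κ
        have h1 := hch p.1 hp3 _ (hsub z₀ hz₀)
        refine mixed_mono (mixed_comp (hSaut p) h1) ?_
        intro z hz
        refine ⟨hz.1, hsub z hz, ?_⟩
        -- the cell
        have hin : ∀ z : E, ‖z - ν‖ < κ' → ‖⟪e p.1, z⟫_ℂ‖ ≤ 1 / 2 := by
          intro z hz
          have h1 : ⟪e p.1, z⟫_ℂ = ⟪e p.1, z - ν⟫_ℂ + ⟪e p.1, ν⟫_ℂ := by
            rw [inner_sub_right]; ring
          rw [h1]
          have h2 := norm_inner_le (he p.1) (z - ν)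
          refine (norm_add_le _ _).trans ?_
          linarith
        have hzν' : ∀ z ∈ ctlX (c₁ :: L.map (mapC Prod.fst S)) κ' p, ‖z - ν‖ < κ' := by
          intro z hz
          have := (hz.2 c₁ (by simp)).1
          rw [hc₁] at this
          exact this
        have hzν : ‖z - ν‖ < κ' := hzν' z hz
        have hz₀ν : ‖z₀ - ν‖ < κ' := hzν' z₀ hz₀
        have hzz : ‖z₀ - z‖ < 2 * κ' := by
          calc ‖z₀ - z‖ = ‖(z₀ - ν) - (z - ν)‖ := by congr 1; abel
            _ ≤ ‖z₀ - ν‖ + ‖z - ν‖ := norm_sub_le _ _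
            _ < 2 * κ' := by linarith
        have hcm := close_mob (he p.1) (norm_coe_lt p.2) hz₀.1 hz.1 (hin z₀ hz₀ν) (hin z hzν)
          (η := η / 2) (by linarith) (by linarith)
        have hφS : ∀ z ∈ ball (0 : E) 1, φ p.1 (S.fwd p z) = mob (e p.1) p.2 z := by
          intro z hz
          rw [hSf, ← hBf, B.right p.1 _ (mob_mem (he p.1) (norm_coe_lt p.2) hz)]
        have hpos : 0 < 1 - ‖⟪e p.1, mob (e p.1) p.2 z₀⟫_ℂ‖ := by
          have := norm_inner_lt (he p.1) (mob_mem (he p.1) (norm_coe_lt p.2) hz₀.1)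
          linarith
        have hlt : η / 2 * (1 - ‖⟪e p.1, mob (e p.1) p.2 z₀⟫_ℂ‖) <
            η * (1 - ‖⟪e p.1, mob (e p.1) p.2 z₀⟫_ℂ‖) := by
          apply mul_lt_mul_of_pos_right _ hpos
          linarith
        constructor
        · rw [hφS z hz.1, hφS z₀ hz₀.1, ← neg_sub, inner_neg_right, norm_neg]
          exact hcm.1.trans_lt hlt
        · rw [hφS z hz.1, hφS z₀ hz₀.1, norm_sub_rev]
          exact hcm.2.trans_lt hlt
    · -- slow functions
      have hcase2 : ∀ᶠ i in Φ.filt, ∃ (u : E → ℂ) (φ ψ : E → E), IsBallAut φ ψ ∧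
          IsSlowNear ω η (φ '' ctlX L κ i) u ∧ ∀ z₀ ∈ ctlX L κ i,
            MixedSolvable (fun j => f j i) C η ω k (ctlX L κ i ∩ slowCell u η φ z₀) := by
        filter_upwards [Φ.not_eventually hcase, hsol] with i hi1 hi2
        obtain ⟨φ, ψ, hφ, h⟩ := hi2
        rcases h with ⟨e, he, h⟩ | ⟨u, hu, h⟩
        · exact absurd ⟨φ, ψ, hφ, e, he, h⟩ hi1
        · exact ⟨u, φ, ψ, hφ, hu, h⟩
      have hch : ∀ i, ∃ (u : E → ℂ) (φ ψ : E → E), IsBallAut φ ψ ∧
          DifferentiableOn ℂ u (ball 0 1) ∧ (∀ z ∈ ball (0 : E) 1, ‖u z‖ ≤ 1) ∧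
          ((∃ (u : E → ℂ) (φ ψ : E → E), IsBallAut φ ψ ∧
          IsSlowNear ω η (φ '' ctlX L κ i) u ∧ ∀ z₀ ∈ ctlX L κ i,
            MixedSolvable (fun j => f j i) C η ω k (ctlX L κ i ∩ slowCell u η φ z₀)) →
          IsSlowNear ω η (φ '' ctlX L κ i) u ∧ ∀ z₀ ∈ ctlX L κ i,
            MixedSolvable (fun j => f j i) C η ω k (ctlX L κ i ∩ slowCell u η φ z₀)) := by
        intro i
        by_cases h : ∃ (u : E → ℂ) (φ ψ : E → E), IsBallAut φ ψ ∧
          IsSlowNear ω η (φ '' ctlX L κ i) u ∧ ∀ z₀ ∈ ctlX L κ i,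
            MixedSolvable (fun j => f j i) C η ω k (ctlX L κ i ∩ slowCell u η φ z₀)
        · obtain ⟨u, φ, ψ, hφ, hu, h'⟩ := h
          exact ⟨u, φ, ψ, hφ, hu.hol, hu.bdd, fun _ => ⟨hu, h'⟩⟩
        · exact ⟨fun _ => 0, id, id, id_aut, differentiableOn_const _, by simp,
            fun h' => absurd h' h⟩
      choose u φ ψ hφ hu hu1 hch using hch
      obtain ⟨B, hB⟩ : ∃ B : AutF I E, B = ⟨φ, ψ, fun i => (hφ i).hol, fun i => (hφ i).hol',
        fun i => (hφ i).map, fun i => (hφ i).map', fun i => (hφ i).left, fun i => (hφ i).right⟩ :=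
        ⟨_, rfl⟩
      have hBf : ∀ i, B.fwd i = φ i := fun i => by rw [hB]
      obtain ⟨p, hp1, hp⟩ := (Φ.comp B.fwd B.dfwd B.mfwd).exists_point
      rcases lt_or_eq_of_le hp1 with hplt | hpeq
      · -- interior case
        by_contra hcon
        push Not at hcon
        have hpull : ∀ F : I → E → ℂ, BH F →
            (Φ.comp B.fwd B.dfwd B.mfwd).φ (fun i z => F (id i) (B.symm.fwd i z)) = Φ.φ F := by
          intro F hF
          change Φ.φ (fun i z => F i (B.bwd i (B.fwd i z))) = Φ.φ F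
          apply Φ.congr hF
          intro i z hz
          rw [B.left i z hz]
        have hf' : ∀ j, BH fun i z => f j (id i) (B.symm.fwd i z) :=
          fun j => (hf j).compAut id B.symm
        have hL2 := hL.map hpull
        have hctl := ctlX_of_interior _ hplt hp hL2 hκ
        have hpm : p ∈ ball (0 : E) 1 := by rwa [mem_ball_zero_iff]
        have hlim := fun j => (tendsto_of_interior _ hplt hp (hf' j)).norm
        simp only [fun j => hpull _ (hf j), hcon, norm_zero, filt_comp] at hlim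
        have hlim' : Tendsto (fun i : I => (∑ j, ‖f j (id i) (B.symm.fwd i p)‖) * C)
            Φ.filt (𝓝 ((∑ _j : Fin N, (0 : ℝ)) * C)) :=
          (tendsto_finsetSum _ fun j _ => hlim j).mul_const C
        rw [Finset.sum_const_zero, zero_mul] at hlim'
        rw [filt_comp] at hctl
        have h1 : ∀ᶠ i in Φ.filt, 1 ≤ (∑ j, ‖f j (id i) (B.symm.fwd i p)‖) * C := by
          filter_upwards [hctl, hsol] with i hi1 hi2
          exact mixed_lower hη (fun z hz => hz.1) hi2 ⟨B.symm.mfwd i p hpm, ctlX_map.mp hi1⟩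
        have h3 := ge_of_tendsto hlim' h1
        linarith
      · -- boundary case
        have hpt : ∀ w : E, Φ.φ (fun i z => ⟪w, B.fwd i z⟫_ℂ) = ⟪w, p⟫_ℂ := hp
        obtain ⟨w, Cv, κv, hw, hCv, hκv, hloc⟩ := exists_locSlow hn hω
          (show 0 < η / 2 by positivity)
        -- the functions are slow near `p`
        have hover0 : OverX Φ (⟨B, p, []⟩ :: L) := by
          intro c hc
          rcases List.mem_cons.mp hc with rfl | hc
          · exact ⟨hpeq, hpt, fun q hq => by simp at hq, fun q hq => by simp at hq⟩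
          · exact hL c hc
        have hnon0 := ctlX_nonempty hDC hn Φ _ (by simp) hover0
          (show 0 < min κ (η / 4) by positivity)
        have hev : ∀ᶠ i in Φ.filt, ∀ z ∈ ball (0 : E) 1 ∩ ball p (η / 2),
            (1 - ‖z‖) * ‖fderiv ℂ (u i) z z‖ ≤ ω (1 - ‖z‖) := by
          filter_upwards [hnon0, hcase2] with i hi1 hi2
          obtain ⟨z₀, hz₀, hctl⟩ := hi1
          have h1 : ‖φ i z₀ - p‖ < min κ (η / 4) := by
            have := (hctl ⟨B, p, []⟩ (by simp)).1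
            change ‖B.fwd i z₀ - p‖ < _ at this
            rwa [hBf] at this
          have h2 : z₀ ∈ ctlX L κ i := by
            refine ⟨hz₀, CtlX.mono (min_le_left κ (η / 4)) fun c hc => ?_⟩
            exact hctl c (List.mem_cons_of_mem _ hc)
          rintro z ⟨hz, hzp⟩
          refine (hch i hi2).1.slow (φ i z₀) (mem_image_of_mem _ h2) z ⟨hz, ?_⟩
          rw [mem_ball, dist_eq_norm] at hzp ⊢
          have h3 := min_le_right κ (η / 4)
          calc ‖z - φ i z₀‖ = ‖(z - p) - (φ i z₀ - p)‖ := by congr 1; abel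
            _ ≤ ‖z - p‖ + ‖φ i z₀ - p‖ := norm_sub_le _ _
            _ < η := by linarith
        have hchv : ∀ i, ∃ v : E → ℂ, DifferentiableOn ℂ v (ball 0 1) ∧
            (∀ z ∈ ball (0 : E) 1, ‖v z‖ ≤ 1) ∧ ((∀ z ∈ ball (0 : E) 1 ∩ ball p (η / 2),
              (1 - ‖z‖) * ‖fderiv ℂ (u i) z z‖ ≤ ω (1 - ‖z‖)) → LocSlow w κv p v ∧
            ∀ z ∈ ball (0 : E) 1 ∩ ball p κv, ‖Cv * v z - u i z‖ ≤ Cv * ‖z - p‖) := by
          intro i
          by_cases h : ∀ z ∈ ball (0 : E) 1 ∩ ball p (η / 2),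
              (1 - ‖z‖) * ‖fderiv ℂ (u i) z z‖ ≤ ω (1 - ‖z‖)
          · obtain ⟨v, hv1, hv2, hv3, hv4⟩ := hloc p hpeq (u i) (hu i) (hu1 i) h
            exact ⟨v, hv1, hv2, fun _ => ⟨hv3, hv4⟩⟩
          · exact ⟨fun _ => 0, differentiableOn_const _, by simp, fun h' => absurd h' h⟩
        choose v hv1 hv2 hv3 using hchv
        have hvBH : BH v := ⟨hv1, 1, hv2⟩
        obtain ⟨β, hβ⟩ : ∃ β, β = Φ.φ fun i z => v i (B.fwd i z) := ⟨_, rfl⟩
        obtain ⟨c₁, hc₁⟩ : ∃ c₁ : Ctrl I E, c₁ = ⟨B, p, [(v, β)]⟩ := ⟨_, rfl⟩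
        have hoc₁ : OverC Φ c₁ := by
          rw [hc₁]
          refine ⟨hpeq, hpt, fun q hq => ?_, fun q hq => ?_⟩
          · rw [List.mem_singleton] at hq
            subst hq
            refine ⟨hvBH, hv2, w, κv, hw, hκv, ?_⟩
            filter_upwards [hev] with i hi
            exact (hv3 i hi).1
          · rw [List.mem_singleton] at hq
            subst hq
            exact hβ.symm
        have hover : OverX Φ (c₁ :: L) := by
          intro c hc
          rcases List.mem_cons.mp hc with rfl | hc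
          · exact hoc₁
          · exact hL c hc
        obtain ⟨κ', hκ'⟩ : ∃ κ', κ' = min κ (min κv (η / (8 * Cv))) := ⟨_, rfl⟩
        have hCv0 : 0 < Cv := by linarith
        have hκ'0 : 0 < κ' := by rw [hκ']; positivity
        have hκ'κ : κ' ≤ κ := by rw [hκ']; exact min_le_left _ _
        have hκ'v : κ' ≤ κv := by rw [hκ']; exact (min_le_right _ _).trans (min_le_left _ _)
        have hκ'η : κ' * (8 * Cv) ≤ η := by
          have : κ' ≤ η / (8 * Cv) := by
            rw [hκ']; exact (min_le_right _ _).trans (min_le_right _ _)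
          rwa [le_div_iff₀ (by positivity)] at this
        have hnon := ctlX_nonempty hDC hn Φ _ (by simp) hover hκ'0
        refine ih Φ (c₁ :: L) (by simp) hover hf (κ := κ') (C := C) (η := η) hκ'0 hη ?_
        filter_upwards [hev, hnon, hcase2] with i hi1 hi2 hi3
        obtain ⟨z₀, hz₀⟩ := hi2
        have hsub : ∀ z ∈ ctlX (c₁ :: L) κ' i, z ∈ ctlX L κ i := by
          rintro z ⟨hz, hzc⟩
          exact ⟨hz, CtlX.mono hκ'κ fun c hc => hzc c (List.mem_cons_of_mem _ hc)⟩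
        have hnear : ∀ z ∈ ctlX (c₁ :: L) κ' i, ‖φ i z - p‖ < κ' ∧ ‖v i (φ i z) - β‖ < κ' := by
          intro z hz
          have h1 := hz.2 c₁ (by simp)
          rw [hc₁] at h1
          have h2 := h1.2 (v, β) (by simp)
          have h3 : ‖B.fwd i z - p‖ < κ' := h1.1
          change ‖v i (B.fwd i z) - β‖ < κ' at h2
          rw [hBf] at h2 h3
          exact ⟨h3, h2⟩
        refine mixed_mono ((hch i hi3).2 z₀ (hsub z₀ hz₀)) ?_
        intro z hz
        refine ⟨hsub z hz, ?_⟩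
        have hap : ∀ z ∈ ctlX (c₁ :: L) κ' i, ‖Cv * v i (φ i z) - u i (φ i z)‖ ≤ Cv * κ' := by
          intro z hz
          have h1 := (hnear z hz).1
          refine ((hv3 i hi1).2 (φ i z) ⟨(hφ i).map z hz.1, ?_⟩).trans ?_
          · rw [mem_ball, dist_eq_norm]
            exact h1.trans_le hκ'v
          · exact mul_le_mul_of_nonneg_left h1.le hCv0.le
        have h1 := hnear z hz
        have h2 := hnear z₀ hz₀
        constructor
        · have h3 : ‖(Cv : ℂ) * (v i (φ i z) - v i (φ i z₀))‖ ≤ Cv * (2 * κ') := by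
            rw [norm_mul, Complex.norm_real, Real.norm_of_nonneg hCv0.le]
            apply mul_le_mul_of_nonneg_left _ hCv0.le
            calc ‖v i (φ i z) - v i (φ i z₀)‖ = ‖(v i (φ i z) - β) - (v i (φ i z₀) - β)‖ := by
                  congr 1; ring
              _ ≤ ‖v i (φ i z) - β‖ + ‖v i (φ i z₀) - β‖ := norm_sub_le _ _
              _ ≤ 2 * κ' := by linarith
          have h4 := hap z hz
          have h5 := hap z₀ hz₀
          calc ‖u i (φ i z) - u i (φ i z₀)‖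
              = ‖(Cv : ℂ) * (v i (φ i z) - v i (φ i z₀)) - (Cv * v i (φ i z) - u i (φ i z)) +
                (Cv * v i (φ i z₀) - u i (φ i z₀))‖ := by congr 1; ring
            _ ≤ ‖(Cv : ℂ) * (v i (φ i z) - v i (φ i z₀))‖ + ‖Cv * v i (φ i z) - u i (φ i z)‖ +
                ‖Cv * v i (φ i z₀) - u i (φ i z₀)‖ :=
                (norm_add_le _ _).trans (add_le_add (norm_sub_le _ _) le_rfl)
            _ ≤ 4 * (Cv * κ') := by linarith
            _ < η := by nlinarith
        · calc ‖φ i z - φ i z₀‖ = ‖(φ i z - p) - (φ i z₀ - p)‖ := by congr 1; abel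
            _ ≤ ‖φ i z - p‖ + ‖φ i z₀ - p‖ := norm_sub_le _ _
            _ < 2 * κ' := by linarith
            _ ≤ η := by nlinarith

/-- Mixed localization, with uniform bounds. -/
theorem mixed_depth (hDC : DiscCorona) [FiniteDimensional ℂ E] (hn : 2 ≤ Module.finrank ℂ E)
    (N : ℕ) (M δ : ℝ) (hδ : 0 < δ) (k : E → ℕ) (η ρ C : E → ℝ) (ω : E → ℝ → ℝ)
    (hη : ∀ l, 0 < η l) (hρ : ∀ l, 0 < ρ l) (hω : ∀ l, IsRate (ω l)) :
    ∃ C' : ℝ, ∀ f : Fin N → E → ℂ, (∀ j, DifferentiableOn ℂ (f j) (ball 0 1)) →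
      (∀ j, ∀ z ∈ ball (0 : E) 1, ‖f j z‖ ≤ M) →
      (∀ z ∈ ball (0 : E) 1, δ ≤ ∑ j, ‖f j z‖ ^ 2) →
      (∀ l ∈ sphere (0 : E) 1,
        MixedSolvable f (C l) (η l) (ω l) (k l) (ball 0 1 ∩ ball l (ρ l))) →
      SolvableOn f (ball 0 1) C' := by
  classical
  obtain ⟨I, hI⟩ : ∃ I : Type _, I = {f : Fin N → E → ℂ //
      (∀ j, DifferentiableOn ℂ (f j) (ball 0 1)) ∧ (∀ j, ∀ z ∈ ball (0 : E) 1, ‖f j z‖ ≤ M) ∧
      (∀ z ∈ ball (0 : E) 1, δ ≤ ∑ j, ‖f j z‖ ^ 2) ∧
      (∀ l ∈ sphere (0 : E) 1,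
        MixedSolvable f (C l) (η l) (ω l) (k l) (ball 0 1 ∩ ball l (ρ l)))} := ⟨_, rfl⟩
  subst hI
  set I := {f : Fin N → E → ℂ //
      (∀ j, DifferentiableOn ℂ (f j) (ball 0 1)) ∧ (∀ j, ∀ z ∈ ball (0 : E) 1, ‖f j z‖ ≤ M) ∧
      (∀ z ∈ ball (0 : E) 1, δ ≤ ∑ j, ‖f j z‖ ^ 2) ∧
      (∀ l ∈ sphere (0 : E) 1,
        MixedSolvable f (C l) (η l) (ω l) (k l) (ball 0 1 ∩ ball l (ρ l)))}
  set F : Fin N → I → E → ℂ := fun j i => i.1 j with hFdef
  have hF : ∀ j, BH (F j) := fun j => ⟨fun i => i.2.1 j, M, fun i z hz => i.2.2.1 j z hz⟩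
  obtain ⟨G, hG, hs⟩ := unimod_of_chars hF (by
    intro Φ
    obtain ⟨l, hl1, hΦl⟩ := Φ.exists_point
    rcases lt_or_eq_of_le hl1 with hl | hl
    · by_contra hcon
      push Not at hcon
      have hlm : l ∈ ball (0 : E) 1 := by rwa [mem_ball_zero_iff]
      have hlim := fun j => ((tendsto_of_interior Φ hl hΦl (hF j)).norm).pow 2
      simp only [hcon, norm_zero] at hlim
      have hlim' : Tendsto (fun i : I => ∑ j, ‖F j i l‖ ^ 2) Φ.filt
          (𝓝 (∑ _j : Fin N, (0 : ℝ) ^ 2)) := tendsto_finsetSum _ fun j _ => hlim j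
      have h1 : ∀ᶠ i in Φ.filt, δ ≤ ∑ j, ‖F j i l‖ ^ 2 :=
        Eventually.of_forall fun i => i.2.2.2.1 l hlm
      have h2 := ge_of_tendsto hlim' h1
      simp at h2
      linarith
    · refine mixed_thm hDC hn (hω l) (k l) Φ [⟨AutF.one I E, l, []⟩] (by simp) ?_ hF (κ := ρ l)
        (C := C l) (η := η l) (hρ l) (hη l) (Eventually.of_forall fun i => ?_)
      · intro c hc
        rw [List.mem_singleton] at hc
        subst hc
        exact ⟨hl, hΦl, fun p hp => by simp at hp, fun p hp => by simp at hp⟩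
      · refine mixed_mono (i.2.2.2.2 l (by rwa [mem_sphere_zero_iff_norm])) ?_
        rintro z ⟨hz, hzc⟩
        refine ⟨hz, ?_⟩
        rw [mem_ball, dist_eq_norm]
        exact (hzc ⟨AutF.one I E, l, []⟩ (by simp)).1)
  choose B hB using fun j => (hG j).bdd
  refine ⟨∑ j, |B j|, ?_⟩
  intro f h1 h2 h3 h4
  refine ⟨fun j => G j ⟨f, h1, h2, h3, h4⟩, fun j => (hG j).holo _, ?_, hs ⟨f, h1, h2, h3, h4⟩⟩
  intro j z hz
  refine (hB j _ z hz).trans ((le_abs_self _).trans ?_)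
  exact Finset.single_le_sum (f := fun j => |B j|) (fun k _ => abs_nonneg _) (Finset.mem_univ j)

end Pool.Agent.MPca0fc2.MX
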