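import Mathlib
import Pool.Agent.Lib.MP_ca0fc2_an.PTX4
import Pool.Agent.Lib.MP_ca0fc2_an.PTQual
import Pool.Agent.Lib.MP_ca0fc2_an.SLCor

set_option autoImplicit false

open Metric Set MeasureTheory Filter Topology
open scoped InnerProductSpace ENNReal

namespace Pool.Agent.MPca0fc2.PT

open Pool.Agent.Lib.MP_ca0fc2_an

variable {E : Type*} [NormedAddCommGroup E] [InnerProductSpace ℂ E]
variable [FiniteDimensional ℂ E] [MeasurableSpace E] [BorelSpace E]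

/-- the choice of the parameters -/
theorem exists_par {p ρ M C₀ : ℝ} (A : ℝ) (hp : 1 ≤ p) (hρ : 0 < ρ)
    (hρM : ρ ≤ M) (hM : 1 ≤ M) (hC₀ : 0 < C₀) :
    ∃ ϑ c : ℝ, Par E ϑ c ρ C₀ p M A := by
  obtain ⟨η, hη⟩ : ∃ η, η = min (1 / 2) (ρ / (8000 * M)) := ⟨_, rfl⟩
  have hη0 : 0 < η := by rw [hη]; positivity
  have hη1 : η ≤ 1 / 2 := by rw [hη]; exact min_le_left _ _
  have hη2 : η ≤ ρ / (8000 * M) := by rw [hη]; exact min_le_right _ _
  obtain ⟨ϑ, hϑ⟩ : ∃ ϑ : ℝ, ϑ = (1 - η) ^ (((32 : ℕ) : ℝ)⁻¹) := ⟨_, rfl⟩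
  have h1η : 0 < 1 - η := by linarith
  have hpow : ϑ ^ 32 = 1 - η := by
    rw [hϑ]; exact Real.rpow_inv_natCast_pow h1η.le (by norm_num)
  have hϑ0 : 0 < ϑ := by rw [hϑ]; exact Real.rpow_pos_of_pos h1η _
  have hϑ1 : ϑ < 1 := by
    rw [hϑ]; exact Real.rpow_lt_one h1η.le (by linarith) (by positivity)
  obtain ⟨c, hc0, hc1, hc⟩ := v_close (E := E) hϑ0 hϑ1 hC₀ hp (half_pos hρ)
  refine ⟨ϑ, c, ⟨hϑ0, hϑ1, hC₀, hp, hc0, hc1, hρ, hρM, hM, ?_, ?_⟩⟩
  · rw [hpow]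
    have h2 : 2000 * M / (1 - η) * (1 - (1 - η)) = 2000 * M * η / (1 - η) := by ring
    rw [h2, div_le_iff₀ h1η]
    have h3 : 2000 * M * η ≤ ρ / 4 := by
      calc 2000 * M * η ≤ 2000 * M * (ρ / (8000 * M)) := by gcongr
        _ = ρ / 4 := by field_simp; ring
    nlinarith
  · intro ν u hu k w hw
    exact hc ν u M A hu k w hw

/-- The theorem on pairs: `f` is arbitrary, and the invariant gradient of `u` is dominated by the
local potential of a Carleson measure. -/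
theorem pair_gen {m : ℕ} (hm : 1 ≤ m)
    (hdim : Module.finrank ℂ E = m + 1) {p M A δ C₀ : ℝ} (hp : 1 ≤ p) (hδ : 0 < δ)
    (hC₀ : 0 < C₀) :
    ∃ C : ℝ, ∀ (f u : E → ℂ) (ν : Measure E),
      DifferentiableOn ℂ f (ball 0 1) → DifferentiableOn ℂ u (ball 0 1) →
      (∀ z ∈ ball (0 : E) 1, ‖f z‖ ≤ M) → (∀ z ∈ ball (0 : E) 1, ‖u z‖ ≤ M) →
      (∀ z ∈ ball (0 : E) 1, δ ≤ ‖f z‖ ∨ δ ≤ ‖u z‖) → Carl ν A →
      (∀ y : E, ‖y‖ < 1 → ∀ X : E,
        ‖fderiv ℂ u y X‖ ≤ C₀ * EE ν y ^ (1 / p) * gau (1 - ‖y‖ ^ 2) y X) →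
      ∃ a b : E → ℂ, DifferentiableOn ℂ a (ball 0 1) ∧ DifferentiableOn ℂ b (ball 0 1) ∧
        (∀ z ∈ ball (0 : E) 1, ‖a z‖ ≤ C ∧ ‖b z‖ ≤ C) ∧
        ∀ z ∈ ball (0 : E) 1, f z * a z + u z * b z = 1 := by
  -- normalization
  obtain ⟨M₁, hM₁⟩ : ∃ M₁, M₁ = max M 1 := ⟨_, rfl⟩
  have hM1 : 1 ≤ M₁ := by rw [hM₁]; exact le_max_right _ _
  have hMM : M ≤ M₁ := by rw [hM₁]; exact le_max_left _ _
  obtain ⟨δ₁, hδ₁⟩ : ∃ δ₁, δ₁ = min δ 1 := ⟨_, rfl⟩
  have hδ0 : 0 < δ₁ := by rw [hδ₁]; positivity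
  have hδ1 : δ₁ ≤ 1 := by rw [hδ₁]; exact min_le_right _ _
  have hδδ : δ₁ ≤ δ := by rw [hδ₁]; exact min_le_left _ _
  obtain ⟨ε, hε⟩ : ∃ ε, ε = δ₁ / 4 := ⟨_, rfl⟩
  have hε0 : 0 < ε := by rw [hε]; positivity
  obtain ⟨ρ, hρ⟩ : ∃ ρ, ρ = ε / 6 := ⟨_, rfl⟩
  have hρ0 : 0 < ρ := by rw [hρ]; positivity
  obtain ⟨ϑ, c, hpar⟩ := exists_par (E := E) A hp hρ0 (by rw [hρ, hε]; linarith) hM1 hC₀
  obtain ⟨χ, L, hχ⟩ := exists_bump hε0
  have hθ0 := hpar.θ0
  have hθ1 := hpar.θ1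
  obtain ⟨CW, hCW, hlev⟩ := level_thm (MeasureTheory.Measure.addHaar : Measure E) hm hdim hpar hχ
    (by rw [hρ]; linarith)
    (Cg := 1 / δ₁) (Dg := ρ / 8 / δ₁ ^ 2) (by positivity) (by positivity)
  have : Nontrivial E := by
    apply Module.nontrivial_of_finrank_pos (R := ℂ)
    rw [hdim]; omega
  refine ⟨1 / δ₁ + 2 / ε + M₁ * CW, ?_⟩
  intro f u ν hf hu hfM huM hc hcarl hgr
  have hfM' : ∀ z ∈ ball (0 : E) 1, ‖f z‖ ≤ M₁ := fun z hz => (hfM z hz).trans hMM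
  have huM' : ∀ z ∈ ball (0 : E) 1, ‖u z‖ ≤ M₁ := fun z hz => (huM z hz).trans hMM
  have hc' : ∀ z ∈ ball (0 : E) 1, ‖u z‖ < δ₁ → δ₁ ≤ ‖f z‖ := by
    intro z hz hlt
    rcases hc z hz with h | h
    · linarith
    · linarith
  have hHU' : HU ν u M₁ A p C₀ := ⟨hp, hM1, hC₀, hu, huM', hcarl, hgr⟩
  set θ : ℝ := ϑ ^ 32 with hθ
  have hCpos : 0 ≤ 1 / δ₁ + 2 / ε + M₁ * CW := by positivity
  apply limit_pair hθ0 hθ1 hCpos hf hu
  intro K
  -- qualitative solutions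
  have hK0 : 0 < θ ^ K := by positivity
  have hK1 : θ ^ K ≤ 1 := pow_le_one₀ hθ0.le hθ1.le
  obtain ⟨a, b, ha, hb, hab⟩ := qual (s := 1 - θ ^ K / 8) hf hu hfM huM hδ hc (by linarith)
    (by linarith)
  have hin : ∀ k ≤ K, ∀ w : E, ‖w‖ < RC θ (k - 1) →
      (rt θ k : ℂ) • w ∈ ball (0 : E) (1 - θ ^ K / 8) := by
    intro k hk w hw
    rw [mem_ball_zero_iff, norm_smul, Complex.norm_real, Real.norm_eq_abs,
      abs_of_nonneg (rt_nonneg hθ0 hθ1 k)]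
    rcases Nat.eq_zero_or_pos k with rfl | hk0
    · simp only [rt, pow_zero, sub_self, zero_mul]
      linarith
    · have e1 : k - 1 + 1 = k := by omega
      have h1 : rt θ k * ‖w‖ ≤ rt θ k * RC θ (k - 1) :=
        mul_le_mul_of_nonneg_left hw.le (rt_nonneg hθ0 hθ1 k)
      refine h1.trans_lt ?_
      unfold rt RC
      rw [e1]
      have h2 : θ ^ K ≤ θ ^ k := pow_le_pow_of_le_one hθ0.le hθ1.le hk
      have h3 : 0 < θ ^ k := by positivity
      nlinarith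
  have hball : ∀ k ≤ K, ∀ w : E, ‖w‖ < RC θ (k - 1) → (rt θ k : ℂ) • w ∈ ball (0 : E) 1 := by
    intro k hk w hw
    exact ball_subset_ball (by linarith) (hin k hk w hw)
  have hfne : ∀ k ≤ K, ∀ w : E, ‖w‖ < RC θ (k - 1) → ‖uk u θ k w‖ < 4 * ε →
      δ₁ ≤ ‖uk f θ k w‖ ∧ uk f θ k w ≠ 0 := by
    intro k hk w hw hlt
    have hlt' : ‖u ((rt θ k : ℂ) • w)‖ < δ₁ := by
      have : ‖uk u θ k w‖ < δ₁ := by rw [hε] at hlt; linarith
      exact this
    have h1 : δ₁ ≤ ‖uk f θ k w‖ := hc' _ (hball k hk w hw) hlt'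
    exact ⟨h1, fun h0 => by rw [h0, norm_zero] at h1; linarith⟩
  have hrel : ∀ k ≤ K, ∀ w : E, ‖w‖ < RC θ (k - 1) →
      uk f θ k w * a ((rt θ k : ℂ) • w) + uk u θ k w * b ((rt θ k : ℂ) • w) = 1 := by
    intro k hk w hw
    exact hab _ (hin k hk w hw)
  have hfam : Fam u θ ε K (fun k w => a ((rt θ k : ℂ) • w))
      (fun k w => -(b ((rt θ k : ℂ) • w) * (uk f θ k w)⁻¹)) (fun k w => (uk f θ k w)⁻¹)
      (1 / δ₁) (ρ / 8 / δ₁ ^ 2) := by
    refine ⟨?_, ?_, ?_, ?_, ?_⟩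
    · intro k hk
      exact ha.comp (by fun_prop) (fun w hw => hin k hk w (mem_ball_zero_iff.mp hw))
    · intro k hk w hw hlt
      obtain ⟨-, hne⟩ := hfne k hk w hw hlt
      have d1 : DifferentiableAt ℂ (fun w : E => b ((rt θ k : ℂ) • w)) w :=
        (hb.differentiableAt (isOpen_ball.mem_nhds (hin k hk w hw))).comp w (by fun_prop)
      have d2 : DifferentiableAt ℂ (uk f θ k) w :=
        (hf.differentiableAt (isOpen_ball.mem_nhds (hball k hk w hw))).comp w (by fun_prop)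
      exact (d1.mul (d2.inv hne)).neg
    · intro k hk w hw hlt
      obtain ⟨h1, -⟩ := hfne k hk w hw hlt
      rw [norm_inv, ← one_div]
      exact one_div_le_one_div_of_le hδ0 h1
    · intro k hk w hw hlt
      obtain ⟨-, hne⟩ := hfne k hk w hw hlt
      have h1 := hrel k hk w hw
      field_simp
      linear_combination h1
    · intro k hk w hw hlt hlt'
      have hwk : ‖w‖ < RC θ (k - 1) := hw.trans_le (RC_succ_le hθ0 hθ1 k)
      obtain ⟨h1, hne⟩ := hfne k hk.le w hwk hlt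
      obtain ⟨h1', hne'⟩ := hfne (k + 1) hk w (by simpa using hw) hlt'
      have h2 := (hpar.step hf hfM' hw).1
      have e : (uk f θ (k + 1) w)⁻¹ - (uk f θ k w)⁻¹ =
          -((uk f θ (k + 1) w - uk f θ k w) / (uk f θ k w * uk f θ (k + 1) w)) := by
        field_simp
        ring
      rw [e, norm_neg, norm_div, norm_mul]
      have hx := xk_pos hθ0 hθ1 hw
      have hpos : 0 < ‖uk f θ k w‖ * ‖uk f θ (k + 1) w‖ := by
        have := norm_pos_iff.mpr hne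
        have := norm_pos_iff.mpr hne'
        positivity
      rw [div_le_iff₀ hpos]
      calc _ ≤ ρ / 8 * xk θ k w := h2
        _ = ρ / 8 / δ₁ ^ 2 * xk θ k w * (δ₁ * δ₁) := by field_simp
        _ ≤ _ := by gcongr
  obtain ⟨𝒜, h𝒜1, h𝒜2⟩ := hlev ν u hHU' K _ _ _ hfam
  -- the solution at the level K
  have hone : ∀ w : E, ‖w‖ < 1 → ‖w‖ < RC θ (K - 1) := by
    intro w hw
    have := one_lt_RB hθ0 (K - 1)
    have := RB_lt_RA hθ0 (K - 1)
    have := RA_lt_RC hθ0 (K - 1)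
    linarith
  have hone' : ∀ w : E, ‖w‖ < 1 → ‖w‖ < RC θ K := by
    intro w hw
    have := one_lt_RB hθ0 K
    have := RB_lt_RA hθ0 K
    have := RA_lt_RC hθ0 K
    linarith
  have dF : ∀ f : E → ℂ, DifferentiableOn ℂ f (ball 0 1) →
      DifferentiableOn ℂ (uk f θ K) (ball 0 1) := by
    intro f hf
    exact hf.comp (by fun_prop) (fun w hw =>
      hball K le_rfl w (hone w (mem_ball_zero_iff.mp hw)))
  have dA : ∀ a : E → ℂ, DifferentiableOn ℂ a (ball 0 (1 - θ ^ K / 8)) →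
      DifferentiableOn ℂ (fun w => a ((rt θ K : ℂ) • w)) (ball 0 1) := by
    intro a ha
    exact ha.comp (by fun_prop) (fun w hw =>
      hin K le_rfl w (hone w (mem_ball_zero_iff.mp hw)))
  obtain ⟨H1, hH1⟩ : ∃ H1 : E → ℂ, H1 = fun w => a ((rt θ K : ℂ) • w) - uk u θ K w * 𝒜 w :=
    ⟨_, rfl⟩
  obtain ⟨H2, hH2⟩ : ∃ H2 : E → ℂ, H2 = fun w => b ((rt θ K : ℂ) • w) + uk f θ K w * 𝒜 w :=
    ⟨_, rfl⟩
  have dH1 : DifferentiableOn ℂ H1 (ball 0 1) := by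
    rw [hH1]; exact (dA a ha).sub ((dF u hu).mul h𝒜1)
  have dH2 : DifferentiableOn ℂ H2 (ball 0 1) := by
    rw [hH2]; exact (dA b hb).add ((dF f hf).mul h𝒜1)
  -- the bounds in the shell
  have hshell : ∀ z : E, 1 - θ ^ K ≤ ‖z‖ → ‖z‖ < 1 →
      ‖H1 z‖ ≤ 1 / δ₁ + 2 / ε + M₁ * CW ∧ ‖H2 z‖ ≤ 1 / δ₁ + 2 / ε + M₁ * CW := by
    intro z hz1 hz2
    have hW := h𝒜2 z hz1 hz2
    have hzK := hone z hz2
    have hbU : ‖bb ν u ϑ c ρ K z - uk u θ K z‖ ≤ ε / 2 :=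
      (hpar.b_near hHU' hzK).trans (by rw [hρ]; linarith)
    have hr := hrel K le_rfl z hzK
    have hFM : ‖uk f θ K z‖ ≤ M₁ := hfM' _ (hball K le_rfl z hzK)
    have hUM : ‖uk u θ K z‖ ≤ M₁ := huM' _ (hball K le_rfl z hzK)
    set β := bb ν u ϑ c ρ K z with hβ
    obtain ⟨W, hWdef⟩ : ∃ W, W = VQ χ (fun w => a ((rt θ K : ℂ) • w)) (uk u θ K)
      (fun w => -(b ((rt θ K : ℂ) • w) * (uk f θ K w)⁻¹)) (bb ν u ϑ c ρ K) z - 𝒜 z :=
      ⟨_, rfl⟩
    have hWn : ‖W‖ ≤ CW := by rw [hWdef]; exact hW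
    have hχ0 := hχ.nonneg β
    have hχ1 := hχ.le_one β
    -- `χ / f` and `(1 - χ) / u`
    have k1 : ∃ P Q : ℂ, H1 z = P + uk u θ K z * W ∧ H2 z = Q - uk f θ K z * W ∧
        ‖P‖ ≤ 1 / δ₁ ∧ ‖Q‖ ≤ 2 / ε := by
      have hA : 𝒜 z = (1 - ((χ β : ℝ) : ℂ)) * (a ((rt θ K : ℂ) • z) / uk u θ K z) +
          ((χ β : ℝ) : ℂ) * -(b ((rt θ K : ℂ) • z) * (uk f θ K z)⁻¹) - W := by
        rw [hWdef]; simp only [VQ]; ring
      rw [hH1, hH2]
      simp only []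
      rcases lt_or_ge ‖β‖ ε with h1 | h1
      · -- `χ = 1`
        have hx1 : χ β = 1 := hχ.one _ h1.le
        have hU4 : ‖uk u θ K z‖ < 4 * ε := by
          have := PC.U_le (U := uk u θ K) (β := bb ν u ϑ c ρ K) hbU (by linarith)
          linarith
        obtain ⟨hf1, hne⟩ := hfne K le_rfl z hzK hU4
        refine ⟨(uk f θ K z)⁻¹, 0, ?_, ?_, ?_, ?_⟩
        · rw [hA, hx1]
          push_cast
          field_simp
          linear_combination hr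
        · rw [hA, hx1]
          push_cast
          field_simp
          ring
        · rw [norm_inv, ← one_div]
          exact one_div_le_one_div_of_le hδ0 hf1
        · rw [norm_zero]; positivity
      · obtain ⟨hu1, hune⟩ := PC.U_ne (U := uk u θ K) (β := bb ν u ϑ c ρ K) hε0 hbU h1
        rcases le_or_gt (2 * ε) ‖β‖ with h3 | h3
        · have hx1 : χ β = 0 := hχ.zero _ h3
          refine ⟨0, (uk u θ K z)⁻¹, ?_, ?_, ?_, ?_⟩
          · rw [hA, hx1]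
            push_cast
            field_simp
            ring
          · rw [hA, hx1]
            push_cast
            field_simp
            linear_combination hr
          · rw [norm_zero]; positivity
          · rw [norm_inv]
            calc ‖uk u θ K z‖⁻¹ ≤ (ε / 2)⁻¹ := inv_anti₀ (by positivity) hu1
              _ = 2 / ε := by rw [inv_div]
        · have hU4 : ‖uk u θ K z‖ < 4 * ε := by
            have := PC.U_le (U := uk u θ K) (β := bb ν u ϑ c ρ K) hbU h3.le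
            linarith
          obtain ⟨hf1, hne⟩ := hfne K le_rfl z hzK hU4
          refine ⟨((χ β : ℝ) : ℂ) * (uk f θ K z)⁻¹,
            (((1 - χ β : ℝ)) : ℂ) * (uk u θ K z)⁻¹, ?_, ?_, ?_, ?_⟩
          · rw [hA]
            field_simp
            linear_combination ((χ β : ℝ) : ℂ) * hr
          · rw [hA]
            push_cast
            field_simp
            linear_combination (1 - ((χ β : ℝ) : ℂ)) * hr
          · rw [norm_mul, Complex.norm_real, Real.norm_eq_abs, abs_of_nonneg hχ0, norm_inv,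
              ← one_div]
            calc χ β * (1 / ‖uk f θ K z‖) ≤ 1 * (1 / δ₁) := by
                  apply mul_le_mul hχ1 (one_div_le_one_div_of_le hδ0 hf1) (by positivity)
                    zero_le_one
              _ = 1 / δ₁ := one_mul _
          · rw [norm_mul, Complex.norm_real, Real.norm_eq_abs, abs_of_nonneg (by linarith),
              norm_inv]
            calc (1 - χ β) * ‖uk u θ K z‖⁻¹ ≤ 1 * (ε / 2)⁻¹ := by
                  apply mul_le_mul (by linarith) (inv_anti₀ (by positivity) hu1) (by positivity)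
                    zero_le_one
              _ = 2 / ε := by rw [one_mul, inv_div]
    obtain ⟨P, Q, e1, e2, hP, hQ⟩ := k1
    have hp1 : 0 ≤ 1 / δ₁ := by positivity
    have hp2 : 0 ≤ 2 / ε := by positivity
    constructor
    · rw [e1]
      refine (norm_add_le _ _).trans ?_
      rw [norm_mul]
      have : ‖uk u θ K z‖ * ‖W‖ ≤ M₁ * CW := by gcongr
      linarith
    · rw [e2]
      refine (norm_sub_le _ _).trans ?_
      rw [norm_mul]
      have : ‖uk f θ K z‖ * ‖W‖ ≤ M₁ * CW := by gcongr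
      linarith
  refine ⟨H1, H2, dH1, dH2, ?_, ?_⟩
  · intro z hz
    rw [mem_ball_zero_iff] at hz
    exact ⟨max_shell (r := 1 - θ ^ K) (by linarith) dH1 (fun w h1 h2 => (hshell w h1 h2).1) hz,
      max_shell (r := 1 - θ ^ K) (by linarith) dH2 (fun w h1 h2 => (hshell w h1 h2).2) hz⟩
  · intro z hz
    have hr := hrel K le_rfl z (hone z (mem_ball_zero_iff.mp hz))
    rw [hH1, hH2]
    simp only []
    linear_combination hr

theorem pair_main (μ : Measure E) [μ.IsAddHaarMeasure] {m : ℕ} (hm : 1 ≤ m)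
    (hdim : Module.finrank ℂ E = m + 1) {p M A δ : ℝ} (hp : 1 ≤ p) (hδ : 0 < δ) :
    ∃ C : ℝ, ∀ f u : E → ℂ, DifferentiableOn ℂ f (ball 0 1) → DifferentiableOn ℂ u (ball 0 1) →
      (∀ z ∈ ball (0 : E) 1, ‖f z‖ ≤ M) → (∀ z ∈ ball (0 : E) 1, ‖u z‖ ≤ M) →
      (∀ z ∈ ball (0 : E) 1, δ ≤ ‖f z‖ ∨ δ ≤ ‖u z‖) → Carl (nu μ m p u) A →
      ∃ a b : E → ℂ, DifferentiableOn ℂ a (ball 0 1) ∧ DifferentiableOn ℂ b (ball 0 1) ∧
        (∀ z ∈ ball (0 : E) 1, ‖a z‖ ≤ C ∧ ‖b z‖ ≤ C) ∧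
        ∀ z ∈ ball (0 : E) 1, f z * a z + u z * b z = 1 := by
  obtain ⟨C₀, hC₀, hgr⟩ := grad_bound μ hdim hp
  obtain ⟨C, hC⟩ := pair_gen (E := E) hm hdim (M := M) (A := A) hp hδ hC₀
  exact ⟨C, fun f u hf hu hfM huM hc hcarl =>
    hC f u (nu μ m p u) hf hu hfM huM hc hcarl (hgr u A hu hcarl)⟩

end Pool.Agent.MPca0fc2.PT
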