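import Mathlib
import Pool.Agent.Lib.MP_ca0fc2_an.QSb
import Pool.Agent.Lib.MP_ca0fc2_an.QTCmp
import Pool.Agent.Lib.MP_ca0fc2_an.QTKop2
import Pool.Agent.Lib.MP_ca0fc2_an.VLMain
import Pool.Agent.Lib.MP_ca0fc2_an.MXPre
import Pool.Agent.Lib.MP_ca0fc2_an.SDFin

set_option autoImplicit false
set_option linter.unusedSectionVars false

open Metric Set MeasureTheory Filter Topology
open scoped InnerProductSpace ENNReal

namespace Pool.Agent.MPca0fc2.QS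

open Pool.Agent.MPca0fc2.PT
open Pool.Agent.MPca0fc2.QT
open Pool.Agent.MPca0fc2.VL (Mod half_mem)

variable {E : Type*} [NormedAddCommGroup E] [InnerProductSpace ℂ E]
variable {V : Type*} [NormedAddCommGroup V] [NormedSpace ℂ V]

/-- the depth function -/
noncomputable def de (k : ℕ) (w : E) : ℝ := dl (1 / 2 : ℝ) k w

/-- the size of a form on the ball of radius `R` -/
def BdS {q : ℕ} (ω : ℝ → ℝ) (k : ℕ) (R B : ℝ) (η : E → E [⋀^Fin q]→L[ℝ] V) : Prop :=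
  ∀ w : E, ‖w‖ < R → ∀ v : Fin q → E, ‖η w v‖ ≤ B * ω (de k w) * ∏ i, gau (de k w) w (v i)

/-- the elementary inequalities between the depths -/
theorem cs_real {t R s : ℝ} (ht0 : 0 < t) (ht1 : t ≤ 1) (hR1 : 1 ≤ R)
    (hR : R ≤ 1 + 3 * t / 4) (hs0 : 0 ≤ s) (hs : s < R) :
    t ≤ 4 * (1 - (1 - t) ^ 2 * s ^ 2) ∧ R ^ 2 - s ^ 2 ≤ 13 * (1 - (1 - t) ^ 2 * s ^ 2) ∧
      1 - (1 - t) ^ 2 * s ^ 2 ≤ (R ^ 2 - s ^ 2) + 7 * t := by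
  have hs2 : s ^ 2 ≤ R ^ 2 := by nlinarith
  have hR2 : R ^ 2 ≤ 1 + 33 * t / 16 := by nlinarith
  have h1t : 0 ≤ 1 - t := by linarith
  have hA : (1 - t) * s ≤ 1 - t / 4 := by
    have h1 : (1 - t) * s ≤ (1 - t) * (1 + 3 * t / 4) :=
      mul_le_mul_of_nonneg_left (by linarith) h1t
    nlinarith
  have hA0 : 0 ≤ (1 - t) * s := mul_nonneg h1t hs0
  have hA2 : ((1 - t) * s) ^ 2 ≤ (1 - t / 4) ^ 2 := by nlinarith
  have hA3 : (1 - t) ^ 2 * s ^ 2 = ((1 - t) * s) ^ 2 := by ring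
  have h4 : t ≤ 4 * (1 - (1 - t) ^ 2 * s ^ 2) := by
    rw [hA3]
    nlinarith
  refine ⟨h4, ?_, ?_⟩
  · have h5 : (1 - t) ^ 2 * s ^ 2 ≤ s ^ 2 := by
      have : (1 - t) ^ 2 ≤ 1 := by nlinarith
      nlinarith [sq_nonneg s]
    nlinarith
  · have h6 : s ^ 2 - (1 - t) ^ 2 * s ^ 2 ≤ 2 * t * s ^ 2 := by
      have : 1 - (1 - t) ^ 2 ≤ 2 * t := by nlinarith
      nlinarith [sq_nonneg s]
    have h7 : s ^ 2 ≤ 49 / 16 := by nlinarith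
    nlinarith

theorem RC_half (k : ℕ) : RC (1 / 2) k = 1 + 3 / 8 * (1 / 2) ^ k := by
  rw [RC, pow_succ]; ring

theorem de_facts {k : ℕ} {R : ℝ} (hR1 : 1 ≤ R) (hR : R ≤ RC (1 / 2) k) {w : E} (hw : ‖w‖ < R) :
    (1 / 2) ^ k ≤ 4 * de k w ∧ R ^ 2 - ‖w‖ ^ 2 ≤ 13 * de k w ∧
      de k w ≤ (R ^ 2 - ‖w‖ ^ 2) + 7 * (1 / 2) ^ k ∧ 0 < de k w ∧ de k w ≤ 1 ∧
      0 < R ^ 2 - ‖w‖ ^ 2 := by
  have ht0 : (0 : ℝ) < (1 / 2) ^ k := by positivity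
  have ht1 : ((1 : ℝ) / 2) ^ k ≤ 1 := pow_le_one₀ (by norm_num) (by norm_num)
  obtain ⟨g1, g2, g3⟩ := cs_real ht0 ht1 hR1 (by rw [RC_half] at hR; linarith) (norm_nonneg w) hw
  have e : de k w = 1 - (1 - (1 / 2) ^ k) ^ 2 * ‖w‖ ^ 2 := by rw [de, dl, rt]
  rw [← e] at g1 g2 g3
  refine ⟨g1, g2, g3, by linarith, ?_, by nlinarith [norm_nonneg w]⟩
  rw [e]
  have : 0 ≤ (1 - (1 / 2 : ℝ) ^ k) ^ 2 * ‖w‖ ^ 2 := by positivity
  linarith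

theorem D_facts {R : ℝ} {z w : E} (hz : ‖z‖ < R) (hw : ‖w‖ < R) :
    R ^ 2 - ‖w‖ ^ 2 ≤ 2 * ‖((R ^ 2 : ℝ) : ℂ) - ⟪w, z⟫_ℂ‖ ∧
    R ^ 2 - ‖z‖ ^ 2 ≤ 2 * ‖((R ^ 2 : ℝ) : ℂ) - ⟪w, z⟫_ℂ‖ := by
  have h1 := norm_sub_norm_le ((R ^ 2 : ℝ) : ℂ) ⟪w, z⟫_ℂ
  have h2 := norm_inner_le_norm (𝕜 := ℂ) w z
  rw [Complex.norm_real, Real.norm_eq_abs, abs_of_nonneg (sq_nonneg R)] at h1
  constructor <;> nlinarith [sq_nonneg (‖w‖ - ‖z‖), norm_nonneg w, norm_nonneg z]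

/-- powers of two quantities which are at least `1 / 2` -/
theorem cs_pow {x y A C : ℝ} (hx : 1 / 2 ≤ x) (hy : 1 / 2 ≤ y) (hC : 1 ≤ C) (hA0 : 0 ≤ A)
    (hA : A ≤ C * x ∨ A ≤ C * y) :
    A ^ (1 / 8 : ℝ) ≤ 32 * C * (x ^ 3 * y ^ (1 / 4 : ℝ)) := by
  have hx0 : 0 < x := by linarith
  have hy0 : 0 < y := by linarith
  have h1 : ∀ a : ℝ, 1 / 2 ≤ a → 1 / 2 ≤ a ^ (1 / 4 : ℝ) := by
    intro a ha
    calc (1 / 2 : ℝ) = (1 / 2) ^ (1 : ℝ) := (Real.rpow_one _).symm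
      _ ≤ (1 / 2) ^ (1 / 4 : ℝ) :=
          Real.rpow_le_rpow_of_exponent_ge (by norm_num) (by norm_num) (by norm_num)
      _ ≤ a ^ (1 / 4 : ℝ) := Real.rpow_le_rpow (by norm_num) ha (by norm_num)
  have hx3 : 1 / 8 ≤ x ^ 3 := by
    calc (1 / 8 : ℝ) = (1 / 2) ^ 3 := by norm_num
      _ ≤ x ^ 3 := pow_le_pow_left₀ (by norm_num) hx 3
  have key : ∀ a : ℝ, 1 / 2 ≤ a → (C * a) ^ (1 / 8 : ℝ) ≤ 2 * C * a ^ (1 / 4 : ℝ) := by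
    intro a ha
    have ha0 : 0 < a := by linarith
    rw [Real.mul_rpow (by linarith) ha0.le]
    have h2 : C ^ (1 / 8 : ℝ) ≤ C := by
      calc C ^ (1 / 8 : ℝ) ≤ C ^ (1 : ℝ) := Real.rpow_le_rpow_of_exponent_le hC (by norm_num)
        _ = C := Real.rpow_one _
    have h3 : a ^ (1 / 8 : ℝ) ≤ 2 * a ^ (1 / 4 : ℝ) := by
      rcases le_total 1 a with h | h
      · have : a ^ (1 / 8 : ℝ) ≤ a ^ (1 / 4 : ℝ) :=
          Real.rpow_le_rpow_of_exponent_le h (by norm_num)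
        have := h1 a ha
        linarith
      · have h4 : a ^ (1 / 8 : ℝ) ≤ 1 := Real.rpow_le_one ha0.le h (by norm_num)
        have := h1 a ha
        linarith
    have h5 : 0 ≤ a ^ (1 / 8 : ℝ) := by positivity
    calc C ^ (1 / 8 : ℝ) * a ^ (1 / 8 : ℝ) ≤ C * (2 * a ^ (1 / 4 : ℝ)) :=
          mul_le_mul h2 h3 h5 (by linarith)
      _ = _ := by ring
  have hy4 := h1 y hy
  rcases hA with hA | hA
  · have h2 : A ^ (1 / 8 : ℝ) ≤ 2 * C * x ^ (1 / 4 : ℝ) :=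
      (Real.rpow_le_rpow hA0 hA (by norm_num)).trans (key x hx)
    have h3 : x ^ (1 / 4 : ℝ) ≤ 8 * x ^ 3 := by
      rcases le_total 1 x with h | h
      · have : x ^ (1 / 4 : ℝ) ≤ x ^ (3 : ℝ) := Real.rpow_le_rpow_of_exponent_le h (by norm_num)
        have e : x ^ (3 : ℝ) = x ^ 3 := by rw [show (3 : ℝ) = ((3 : ℕ) : ℝ) by norm_num,
          Real.rpow_natCast]
        rw [e] at this
        have : 0 ≤ x ^ 3 := by positivity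
        linarith
      · have h4 : x ^ (1 / 4 : ℝ) ≤ 1 := Real.rpow_le_one hx0.le h (by norm_num)
        linarith
    calc A ^ (1 / 8 : ℝ) ≤ 2 * C * x ^ (1 / 4 : ℝ) := h2
      _ ≤ 2 * C * (8 * x ^ 3) := by gcongr
      _ = 32 * C * (x ^ 3 * (1 / 2)) := by ring
      _ ≤ _ := by gcongr
  · have h2 : A ^ (1 / 8 : ℝ) ≤ 2 * C * y ^ (1 / 4 : ℝ) :=
      (Real.rpow_le_rpow hA0 hA (by norm_num)).trans (key y hy)
    have h5 : 0 ≤ y ^ (1 / 4 : ℝ) := by positivity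
    calc A ^ (1 / 8 : ℝ) ≤ 2 * C * y ^ (1 / 4 : ℝ) := h2
      _ ≤ 32 * C * (1 / 8 * y ^ (1 / 4 : ℝ)) := by nlinarith [mul_nonneg (by linarith : (0 : ℝ) ≤ C) h5]
      _ ≤ _ := by gcongr

/-- the comparison of the weights -/
theorem om_compare {c₀ : ℝ} (hc₀ : 0 < c₀) :
    ∃ C : ℝ, 0 < C ∧ ∀ ω : ℝ → ℝ, Mod ω → ∀ (k : ℕ) (R : ℝ) (z w : E), 1 ≤ R →
      R ≤ RC (1 / 2) k → ‖z‖ + c₀ * (1 / 2) ^ k ≤ R → ‖w‖ < R →
      ω (de k w) ≤ C * ω (de k z) *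
        (‖((R ^ 2 : ℝ) : ℂ) - ⟪w, z⟫_ℂ‖ / (R ^ 2 - ‖w‖ ^ 2)) ^ 3 *
          (‖((R ^ 2 : ℝ) : ℂ) - ⟪w, z⟫_ℂ‖ / (R ^ 2 - ‖z‖ ^ 2)) ^ (1 / 4 : ℝ) := by
  obtain ⟨G, hG⟩ : ∃ G : ℝ, G = 13 * (2 * (1 + 7 / c₀)) + 13 * (2 * (1 + 7 / c₀)) + 1 := ⟨_, rfl⟩
  have hcc : 0 < 7 / c₀ := by positivity
  have hG1 : 1 ≤ G := by rw [hG]; linarith
  refine ⟨32 * G, by linarith, ?_⟩
  intro ω hω k R z w hR1 hR hz hw
  have ht0 : (0 : ℝ) < (1 / 2) ^ k := by positivity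
  have hzR : ‖z‖ < R := by
    have : 0 < c₀ * (1 / 2) ^ k := by positivity
    linarith
  obtain ⟨w1, w2, w3, w4, w5, w6⟩ := de_facts hR1 hR hw
  obtain ⟨z1, z2, z3, z4, z5, z6⟩ := de_facts hR1 hR hzR
  obtain ⟨d1, d2⟩ := D_facts hzR hw
  obtain ⟨D, hD⟩ : ∃ D, D = ‖((R ^ 2 : ℝ) : ℂ) - ⟪w, z⟫_ℂ‖ := ⟨_, rfl⟩
  rw [← hD] at d1 d2 ⊢
  obtain ⟨e, he⟩ : ∃ e, e = R ^ 2 - ‖w‖ ^ 2 := ⟨_, rfl⟩
  obtain ⟨d, hd⟩ : ∃ d, d = R ^ 2 - ‖z‖ ^ 2 := ⟨_, rfl⟩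
  rw [← he] at w2 w3 w6 d1 ⊢
  rw [← hd] at z2 z3 z6 d2 ⊢
  have hD0 : 0 < D := by linarith
  -- `t ≤ d / c₀`
  have htd : c₀ * (1 / 2) ^ k ≤ d := by
    rw [hd]
    have h1 : c₀ * (1 / 2) ^ k ≤ R - ‖z‖ := by linarith
    nlinarith [norm_nonneg z]
  have htd' : (1 / 2 : ℝ) ^ k ≤ d / c₀ := by rw [le_div_iff₀ hc₀]; linarith
  have hzd : de k z ≤ (1 + 7 / c₀) * d := by
    calc de k z ≤ d + 7 * (1 / 2) ^ k := z3
      _ ≤ d + 7 * (d / c₀) := by gcongr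
      _ = _ := by ring
  have hwD : de k w ≤ 2 * (1 + 7 / c₀) * D := by
    calc de k w ≤ e + 7 * (1 / 2) ^ k := w3
      _ ≤ 2 * D + 7 * (2 * D / c₀) := by
          have : d / c₀ ≤ 2 * D / c₀ := by gcongr
          linarith
      _ = _ := by ring
  have hzD : de k z ≤ 2 * (1 + 7 / c₀) * D := by
    calc de k z ≤ (1 + 7 / c₀) * d := hzd
      _ ≤ (1 + 7 / c₀) * (2 * D) := by gcongr
      _ = _ := by ring
  have hx : 1 / 2 ≤ D / e := by rw [le_div_iff₀ w6]; linarith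
  have hy : 1 / 2 ≤ D / d := by rw [le_div_iff₀ z6]; linarith
  have hG2 : 13 * (2 * (1 + 7 / c₀)) ≤ G := by rw [hG]; linarith
  have hωz := (hω.1 _ ⟨z4, z5⟩).le
  rcases le_total (de k w) (de k z) with h | h
  · -- the ratio is at most `C D / e`
    have h1 : de k z ≤ (G * (D / e)) * de k w := by
      have h2 : e ≤ 13 * de k w := w2
      calc de k z ≤ 2 * (1 + 7 / c₀) * D := hzD
        _ = 2 * (1 + 7 / c₀) * (D / e) * e := by field_simp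
        _ ≤ 2 * (1 + 7 / c₀) * (D / e) * (13 * de k w) := by gcongr
        _ = 13 * (2 * (1 + 7 / c₀)) * (D / e) * de k w := by ring
        _ ≤ _ := by gcongr
    have h3 : 1 ≤ G * (D / e) ∨ True := Or.inr trivial
    obtain ⟨A, hA⟩ : ∃ A, A = de k z / de k w := ⟨_, rfl⟩
    have hA1 : 1 ≤ A := by rw [hA, le_div_iff₀ w4]; linarith
    have h4 := om_le hω (s := de k w) (t := de k z) (A := A) ⟨w4, w5⟩ ⟨z4, z5⟩ hA1
      (by nlinarith) (by rw [hA, div_mul_cancel₀ _ w4.ne'])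
    have h5 : A ≤ G * (D / e) := by rw [hA, div_le_iff₀ w4]; exact h1
    have h6 := cs_pow hx hy hG1 (by linarith) (Or.inl h5)
    calc ω (de k w) ≤ ω (de k z) * A ^ (1 / 8 : ℝ) := h4
      _ ≤ ω (de k z) * (32 * G * ((D / e) ^ 3 * (D / d) ^ (1 / 4 : ℝ))) := by gcongr
      _ = _ := by ring
  · have h1 : de k w ≤ (G * (D / d)) * de k z := by
      have h2 : d ≤ 13 * de k z := z2
      calc de k w ≤ 2 * (1 + 7 / c₀) * D := hwD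
        _ = 2 * (1 + 7 / c₀) * (D / d) * d := by field_simp
        _ ≤ 2 * (1 + 7 / c₀) * (D / d) * (13 * de k z) := by gcongr
        _ = 13 * (2 * (1 + 7 / c₀)) * (D / d) * de k z := by ring
        _ ≤ _ := by gcongr
    obtain ⟨A, hA⟩ : ∃ A, A = de k w / de k z := ⟨_, rfl⟩
    have hA1 : 1 ≤ A := by rw [hA, le_div_iff₀ z4]; linarith
    have h4 := om_le hω (s := de k w) (t := de k z) (A := A) ⟨w4, w5⟩ ⟨z4, z5⟩ hA1
      (by rw [hA, div_mul_cancel₀ _ z4.ne']) (by nlinarith)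
    have h5 : A ≤ G * (D / d) := by rw [hA, div_le_iff₀ z4]; exact h1
    have h6 := cs_pow hx hy hG1 (by linarith) (Or.inr h5)
    calc ω (de k w) ≤ ω (de k z) * A ^ (1 / 8 : ℝ) := h4
      _ ≤ ω (de k z) * (32 * G * ((D / e) ^ 3 * (D / d) ^ (1 / 4 : ℝ))) := by gcongr
      _ = _ := by ring

variable [FiniteDimensional ℂ E] [MeasurableSpace E] [BorelSpace E]

/-- the weighted estimate of the Koppelman operator, output degree at least one -/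
theorem TRs (μ : Measure E) [μ.IsAddHaarMeasure] {m : ℕ} (hm : 1 ≤ m)
    (hdim : Module.finrank ℂ E = m + 1) [FiniteDimensional ℂ V] (q : ℕ) {c₀ : ℝ} (hc₀ : 0 < c₀) :
    ∃ C : ℝ, 0 < C ∧ ∀ ω : ℝ → ℝ, Mod ω → ∀ (k : ℕ) (R R' B : ℝ)
      (η : E → E [⋀^Fin (q + 2)]→L[ℝ] V), 1 ≤ R → R ≤ RC (1 / 2) k →
      R' + c₀ * (1 / 2) ^ k ≤ R → (∀ w ∈ ball (0 : E) R, Anti (η w)) → 0 ≤ B →
      BdS ω k R B η → BdS ω k R' (C * B) (TR μ m R η) := by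
  obtain ⟨CT, hCT, hT⟩ := TRg (V := V) μ hm hdim q
  obtain ⟨CS, hCS, hS⟩ := om_compare (E := E) hc₀
  obtain ⟨CG, hCG, hG⟩ := gau_compare (E := E) (θ := 1 / 2) (by norm_num) (by norm_num) hc₀
  refine ⟨CT * CS * CG ^ (q + 2) * CG ^ (q + 1), by positivity, ?_⟩
  intro ω hω k R R' B η hR1 hRC hR' ha hB hBd z hz v
  have hθk : 0 < c₀ * (1 / 2) ^ k := by positivity
  have hzR' : ‖z‖ + c₀ * (1 / 2) ^ k ≤ R := by linarith
  have hzR : ‖z‖ < R := by linarith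
  have hR0 : 0 < R := by linarith
  obtain ⟨z1, z2, z3, z4, z5, z6⟩ := de_facts hR1 hRC hzR
  have hωz := (hω.1 _ ⟨z4, z5⟩).le
  have key := hT R η z (B * CS * ω (de k z) * CG ^ (q + 2))
    hR0 ha hzR (by positivity) ?_ v
  · refine key.trans ?_
    have hprod : ∏ i, gau (R ^ 2 - ‖z‖ ^ 2) z (v i) ≤ CG ^ (q + 1) * ∏ i, gau (de k z) z (v i) := by
      have e : CG ^ (q + 1) * ∏ i, gau (de k z) z (v i) =
          ∏ i : Fin (q + 1), (CG * gau (de k z) z (v i)) := by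
        rw [Finset.prod_mul_distrib]
        simp
      rw [e]
      refine Finset.prod_le_prod (fun i _ => ?_) (fun i _ => (hG k R z (v i) hR1 hRC).2 hzR')
      exact kest_gau_nonneg z6.le z (v i)
    have hΦ : 0 ≤ CT * (B * CS * ω (de k z) * CG ^ (q + 2)) := by
      positivity
    calc _ ≤ CT * (B * CS * ω (de k z) * CG ^ (q + 2)) *
          (CG ^ (q + 1) * ∏ i, gau (de k z) z (v i)) := mul_le_mul_of_nonneg_left hprod hΦ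
      _ = _ := by ring
  · intro w hw x
    have hwR : ‖w‖ < R := mem_ball_zero_iff.mp hw
    obtain ⟨w1, w2, w3, w4, w5, w6⟩ := de_facts hR1 hRC hwR
    have a1 := hBd w hwR x
    have a2 := hS ω hω k R z w hR1 hRC hzR' hwR
    have hprod : ∏ i, gau (de k w) w (x i) ≤
        CG ^ (q + 2) * ∏ i, gau (R ^ 2 - ‖w‖ ^ 2) w (x i) := by
      have e : CG ^ (q + 2) * ∏ i, gau (R ^ 2 - ‖w‖ ^ 2) w (x i) =
          ∏ i : Fin (q + 2), (CG * gau (R ^ 2 - ‖w‖ ^ 2) w (x i)) := by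
        rw [Finset.prod_mul_distrib]
        simp
      rw [e]
      refine Finset.prod_le_prod (fun i _ => ?_) (fun i _ => (hG k R w (x i) hR1 hRC).1 hwR)
      exact kest_gau_nonneg w4.le w (x i)
    have hωw := (hω.1 _ ⟨w4, w5⟩).le
    have hG0 : 0 ≤ ∏ i, gau (de k w) w (x i) :=
      Finset.prod_nonneg fun i _ => kest_gau_nonneg w4.le w (x i)
    have hX := hωw.trans a2
    calc ‖η w x‖ ≤ B * ω (de k w) * ∏ i, gau (de k w) w (x i) := a1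
      _ ≤ B * (CS * ω (de k z) *
        (‖((R ^ 2 : ℝ) : ℂ) - ⟪w, z⟫_ℂ‖ / (R ^ 2 - ‖w‖ ^ 2)) ^ 3 *
          (‖((R ^ 2 : ℝ) : ℂ) - ⟪w, z⟫_ℂ‖ / (R ^ 2 - ‖z‖ ^ 2)) ^ (1 / 4 : ℝ)) *
            (CG ^ (q + 2) * ∏ i, gau (R ^ 2 - ‖w‖ ^ 2) w (x i)) := by
          apply mul_le_mul (mul_le_mul_of_nonneg_left a2 hB) hprod hG0
          exact mul_nonneg hB hX
      _ = _ := by ring

end Pool.Agent.MPca0fc2.QS
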