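import Mathlib
import Pool.Agent.Lib.MP_ca0fc2_an.QSa

set_option autoImplicit false
set_option linter.unusedSectionVars false

open Metric Set MeasureTheory Filter Topology
open scoped InnerProductSpace ENNReal

namespace Pool.Agent.MPca0fc2.QS

open Pool.Agent.MPca0fc2.PT
open Pool.Agent.MPca0fc2.QT

variable {E : Type*} [NormedAddCommGroup E] [InnerProductSpace ℂ E]
variable {V : Type*} [NormedAddCommGroup V] [NormedSpace ℂ V]

/-- the integral of the truncated radial factor -/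
theorem radial_t {t : ℝ} (ht : 0 < t) :
    ∫⁻ r in Icc (0 : ℝ) 1, (if 1 - r < t then ENNReal.ofReal ((1 / (1 - r)) ^ (1 / 2 : ℝ)) else 0) ≤
      ENNReal.ofReal (2 * Real.sqrt t) := by
  have h0 : IntervalIntegrable (fun r : ℝ => (1 - r) ^ (-(1 / 2) : ℝ)) volume (1 - t) 1 := by
    have h := (intervalIntegral.intervalIntegrable_rpow' (a := 0) (b := t)
      (r := (-(1 / 2) : ℝ)) (by norm_num)).comp_sub_left 1
    simpa using h.symm
  have h1 : ∫ r in (1 - t)..1, (1 - r) ^ (-(1 / 2) : ℝ) = 2 * Real.sqrt t := by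
    rw [intervalIntegral.integral_comp_sub_left (fun x : ℝ => x ^ (-(1 / 2) : ℝ)) 1, sub_self,
      sub_sub_cancel, integral_rpow (Or.inl (by norm_num)), Real.sqrt_eq_rpow]
    norm_num
    ring
  have h1t : 1 - t ≤ 1 := by linarith
  rw [intervalIntegral.integral_of_le h1t] at h1
  rw [intervalIntegrable_iff_integrableOn_Ioc_of_le h1t] at h0
  have h3 : ENNReal.ofReal (2 * Real.sqrt t) =
      ∫⁻ r in Ioc (1 - t) 1, ENNReal.ofReal ((1 - r) ^ (-(1 / 2) : ℝ)) := by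
    rw [← ofReal_integral_eq_lintegral_ofReal h0, h1]
    refine (ae_restrict_iff' measurableSet_Ioc).mpr (Eventually.of_forall fun r hr => ?_)
    have h2 : 0 ≤ 1 - r := by linarith [hr.2]
    exact Real.rpow_nonneg h2 _
  rw [h3, ← lintegral_indicator measurableSet_Icc, ← lintegral_indicator measurableSet_Ioc]
  refine lintegral_mono fun r => ?_
  by_cases hr : r ∈ Icc (0 : ℝ) 1
  · rw [indicator_of_mem hr]
    by_cases hrt : 1 - r < t
    · have hr' : r ∈ Ioc (1 - t) 1 := ⟨by linarith, hr.2⟩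
      rw [if_pos hrt, indicator_of_mem hr']
      apply ENNReal.ofReal_le_ofReal
      have h2 : 0 ≤ 1 - r := by linarith [hr.2]
      rw [Real.rpow_neg h2, one_div, Real.inv_rpow h2]
    · rw [if_neg hrt]
      exact bot_le
  · rw [indicator_of_notMem hr]
    exact bot_le

/-- the pointwise bound of the integrand, by scales -/
theorem ts_point {z ξ : E} (hz : ‖z‖ < 1) (hξ : ‖ξ‖ < 1) {r : ℝ} (hr : 0 ≤ r) (hr1 : r < 1)
    {η : E → E [⋀^Fin 1]→L[ℝ] V} {Φ : ℝ} (hΦ : 0 ≤ Φ) (m : ℕ) {c : ℕ → ℝ} (hc : ∀ k, 0 ≤ c k)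
    {K : ℕ} (hK : (1 / 2 : ℝ) ^ (K + 1) < (1 - ‖z‖ ^ 2) / 4)
    (hyp : ∀ w ∈ ball (0 : E) 1, ∀ k : ℕ, (1 / 2 : ℝ) ^ (k + 1) < ‖1 - ⟪w, z⟫_ℂ‖ / 2 →
      ‖1 - ⟪w, z⟫_ℂ‖ / 2 ≤ (1 / 2) ^ k → ∀ v : Fin 1 → E, ‖η w v‖ ≤
        Φ * c k * (‖1 - ⟪w, z⟫_ℂ‖ / (1 - ‖w‖ ^ 2)) ^ 3 * gau (1 - ‖w‖ ^ 2) w (v 0))
    (v : Fin 0 → E) :
    ‖(((1 - r ^ 2) ^ 0 * WW ξ) • (Pul m η z ((r : ℂ) • ξ)).curryLeft ξ) v‖ ≤
      (∑ k ∈ Finset.range (K + 1), if 1 - r < (1 - ‖z‖ ^ 2) * 2 ^ k then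
        6 * Φ * 2 ^ ((m + 2 : ℝ) + 1 / 2) * (c k * Real.sqrt (2 / ((1 - ‖z‖ ^ 2) * 2 ^ k)))
        else 0) *
        (1 / (‖1 - ⟪ξ, -((r : ℂ) • z)⟫_ℂ‖ + (1 - r))) ^ ((m + 2 : ℝ) + 1 / 2) := by
  set x : E := (r : ℂ) • ξ with hx
  have hxn : ‖x‖ = r * ‖ξ‖ := by
    rw [hx, norm_smul, Complex.norm_real, Real.norm_of_nonneg hr]
  have hxξ : ‖x‖ ≤ ‖ξ‖ := by rw [hxn]; nlinarith [norm_nonneg ξ]
  have hxr : ‖x‖ ≤ r := by rw [hxn]; nlinarith [norm_nonneg ξ]
  have hx1 : ‖x‖ < 1 := by linarith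
  have hne := one_add_ne hz hx1.le
  have hD : 0 < ‖1 + ⟪z, x⟫_ℂ‖ := norm_pos_iff.mpr hne
  have hw := gg_lt hz hx1
  have hwb : gg z x ∈ ball (0 : E) 1 := by rwa [mem_ball_zero_iff]
  have hz2 : 0 < 1 - ‖z‖ ^ 2 := by nlinarith [norm_nonneg z]
  have hx2 : 0 < 1 - ‖x‖ ^ 2 := by nlinarith [norm_nonneg x]
  have hw2 : 0 < 1 - ‖gg z x‖ ^ 2 := by nlinarith [norm_nonneg (gg z x)]
  have e1 : ‖1 - ⟪gg z x, z⟫_ℂ‖ = (1 - ‖z‖ ^ 2) / ‖1 + ⟪z, x⟫_ℂ‖ := by
    have h1 : 1 - ⟪gg z x, z⟫_ℂ = (starRingEnd ℂ) (1 - ⟪z, gg z x⟫_ℂ) := by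
      rw [map_sub, map_one, inner_conj_symm]
    rw [h1, inner_gg_self hz hx1.le, RCLike.norm_conj, norm_div, Complex.norm_real,
      Real.norm_of_nonneg hz2.le]
  have e2 := norm_gg hz hx1.le
  -- the scale
  have hY1 : ‖1 - ⟪gg z x, z⟫_ℂ‖ / 2 < 1 := by
    have h1 := norm_sub_le (1 : ℂ) ⟪gg z x, z⟫_ℂ
    have h2 := norm_inner_le_norm (𝕜 := ℂ) (gg z x) z
    have h3 : ‖gg z x‖ * ‖z‖ < 1 := by nlinarith [norm_nonneg z, norm_nonneg (gg z x)]
    rw [norm_one] at h1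
    linarith
  have hY2 : (1 - ‖z‖ ^ 2) / 4 ≤ ‖1 - ⟪gg z x, z⟫_ℂ‖ / 2 := by
    have h1 := norm_sub_norm_le (1 : ℂ) ⟪gg z x, z⟫_ℂ
    have h2 := norm_inner_le_norm (𝕜 := ℂ) (gg z x) z
    have h3 : ‖gg z x‖ * ‖z‖ ≤ ‖z‖ := by nlinarith [norm_nonneg z, norm_nonneg (gg z x)]
    rw [norm_one] at h1
    nlinarith [norm_nonneg z]
  have hY0 : 0 < ‖1 - ⟪gg z x, z⟫_ℂ‖ / 2 := by linarith
  obtain ⟨k, hk1, hk2⟩ := exists_nat_pow_near_of_lt_one hY0 hY1.le (y := (1 / 2 : ℝ)) (by norm_num)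
    (by norm_num)
  have hkK : k ∈ Finset.range (K + 1) := by
    rw [Finset.mem_range]
    have h1 : (1 / 2 : ℝ) ^ (K + 1) < (1 / 2) ^ k := by linarith
    exact (pow_lt_pow_iff_right_of_lt_one₀ (by norm_num) (by norm_num)).mp h1
  set D : ℝ := ‖1 + ⟪z, x⟫_ℂ‖ with hDdef
  set X : ℝ := 1 - ‖x‖ ^ 2 with hXdef
  set t : ℝ := (1 - ‖z‖ ^ 2) * 2 ^ k with ht
  have ht0 : 0 < t := by rw [ht]; positivity
  have h2k : (1 / 2 : ℝ) ^ k * 2 ^ k = 1 := by rw [← mul_pow]; norm_num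
  have hDt : D < t := by
    rw [e1, div_div, pow_succ, lt_div_iff₀ (by positivity)] at hk1
    have h3 : (0 : ℝ) < 2 ^ k := by positivity
    rw [ht]
    calc D = ((1 / 2 : ℝ) ^ k * (1 / 2) * (D * 2)) * 2 ^ k := by
          rw [show ((1 / 2 : ℝ) ^ k * (1 / 2) * (D * 2)) * 2 ^ k = ((1 / 2 : ℝ) ^ k * 2 ^ k) * D by
            ring, h2k, one_mul]
      _ < _ := by gcongr
  have hDt2 : t / 2 ≤ D := by
    rw [e1, div_div, div_le_iff₀ (by positivity)] at hk2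
    have h3 : (0 : ℝ) < 2 ^ k := by positivity
    rw [ht]
    calc (1 - ‖z‖ ^ 2) * 2 ^ k / 2 ≤ ((1 / 2 : ℝ) ^ k * (D * 2)) * 2 ^ k / 2 := by gcongr
      _ = ((1 / 2 : ℝ) ^ k * 2 ^ k) * D := by ring
      _ = D := by rw [h2k, one_mul]
  have e3 : ‖1 - ⟪gg z x, z⟫_ℂ‖ / (1 - ‖gg z x‖ ^ 2) = D / X := by
    rw [e1, e2]
    field_simp
  have hval : (((1 - r ^ 2) ^ 0 * WW ξ) • (Pul m η z x).curryLeft ξ) v =
      ((1 - r ^ 2) ^ 0 * WW ξ) • (((1 + ⟪z, x⟫_ℂ) ^ (m + 6))⁻¹ •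
        η (gg z x) (fun i => gg' z x (Matrix.vecCons ξ v i))) := rfl
  have hW0 : 0 ≤ WW ξ := by
    unfold WW
    positivity
  have hW : WW ξ ≤ X ^ 4 := by
    unfold WW
    have h1 : 0 ≤ 1 - ‖ξ‖ ^ 2 := by nlinarith [norm_nonneg ξ]
    have h2 : 1 - ‖ξ‖ ^ 2 ≤ X := by rw [hXdef]; nlinarith [norm_nonneg ξ, norm_nonneg x]
    exact pow_le_pow_left₀ h1 h2 4
  have hb := hyp (gg z x) hwb k hk1 hk2 (fun i => gg' z x (Matrix.vecCons ξ v i))
  rw [e3] at hb
  have hgau : gau (1 - ‖gg z x‖ ^ 2) (gg z x) (gg' z x ξ) ≤ 6 / X := by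
    refine (gau_gg hz hx1).trans ?_
    rw [div_le_div_iff_of_pos_right hx2]
    linarith
  have hck := hc k
  have hb2 : ‖η (gg z x) (fun i => gg' z x (Matrix.vecCons ξ v i))‖ ≤
      Φ * c k * (D / X) ^ 3 * (6 / X) := by
    refine hb.trans ?_
    simp only [Matrix.cons_val_zero]
    gcongr
  rw [hval, norm_smul, norm_smul, norm_inv, norm_pow, ← hDdef, pow_zero, one_mul,
    Real.norm_of_nonneg hW0]
  have hsq : Real.sqrt D * Real.sqrt D = D := Real.mul_self_sqrt hD.le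
  have hsD : 0 < Real.sqrt D := Real.sqrt_pos.mpr hD
  have step1 : WW ξ * ((D ^ (m + 6))⁻¹ *
      ‖η (gg z x) (fun i => gg' z x (Matrix.vecCons ξ v i))‖) ≤
      6 * Φ * (c k * Real.sqrt (2 / t)) * (1 / D) ^ ((m + 2 : ℝ) + 1 / 2) := by
    have hp : (1 / D) ^ ((m + 2 : ℝ) + 1 / 2) = (1 / D) ^ (m + 2) * Real.sqrt (1 / D) := by
      rw [Real.rpow_add (by positivity), ← Real.sqrt_eq_rpow]
      congr 1
      rw [← Real.rpow_natCast]
      congr 1
      push_cast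
      ring
    have h5 : Real.sqrt (1 / D) ≤ Real.sqrt (2 / t) := by
      apply Real.sqrt_le_sqrt
      rw [div_le_div_iff₀ hD ht0]
      linarith
    have h6 : 1 / D = Real.sqrt (1 / D) * Real.sqrt (1 / D) := by
      rw [Real.mul_self_sqrt (by positivity)]
    calc WW ξ * ((D ^ (m + 6))⁻¹ * ‖η (gg z x) (fun i => gg' z x (Matrix.vecCons ξ v i))‖)
        ≤ X ^ 4 * ((D ^ (m + 6))⁻¹ * (Φ * c k * (D / X) ^ 3 * (6 / X))) := by gcongr
      _ = 6 * Φ * c k * (1 / D) ^ (m + 2) * (1 / D) := by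
          rw [one_div_pow]
          field_simp
          ring
      _ = 6 * Φ * c k * (1 / D) ^ (m + 2) * (Real.sqrt (1 / D) * Real.sqrt (1 / D)) := by
          rw [← h6]
      _ ≤ 6 * Φ * c k * (1 / D) ^ (m + 2) * (Real.sqrt (2 / t) * Real.sqrt (1 / D)) := by gcongr
      _ = _ := by rw [hp]; ring
  refine step1.trans ?_
  have hD2 : ‖1 - ⟪ξ, -((r : ℂ) • z)⟫_ℂ‖ = D := by
    have h1 : 1 - ⟪ξ, -((r : ℂ) • z)⟫_ℂ = (starRingEnd ℂ) (1 + ⟪z, x⟫_ℂ) := by
      rw [map_add, map_one, inner_conj_symm, hx, inner_neg_right, inner_smul_right,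
        inner_smul_left, Complex.conj_ofReal]
      ring
    rw [h1, RCLike.norm_conj]
  rw [hD2]
  have hDr : 1 - r ≤ D := by
    have h1 : ‖⟪z, x⟫_ℂ‖ ≤ r := by
      refine (norm_inner_le_norm (𝕜 := ℂ) z x).trans ?_
      nlinarith [norm_nonneg z, norm_nonneg x]
    have h2 := norm_sub_norm_le (1 : ℂ) (-⟪z, x⟫_ℂ)
    rw [norm_neg, norm_one, sub_neg_eq_add] at h2
    linarith
  have h3 : 1 / D ≤ 2 * (1 / (D + (1 - r))) := by
    rw [mul_one_div, div_le_div_iff₀ hD (by linarith)]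
    linarith
  have hpos : 0 ≤ 1 / (D + (1 - r)) := by
    apply one_div_nonneg.mpr
    linarith
  have h4 : (1 / D) ^ ((m + 2 : ℝ) + 1 / 2) ≤
      2 ^ ((m + 2 : ℝ) + 1 / 2) * (1 / (D + (1 - r))) ^ ((m + 2 : ℝ) + 1 / 2) := by
    rw [← Real.mul_rpow (by norm_num) hpos]
    exact Real.rpow_le_rpow (by positivity) h3 (by positivity)
  have hsum : 6 * Φ * 2 ^ ((m + 2 : ℝ) + 1 / 2) * (c k * Real.sqrt (2 / t)) ≤
      ∑ k ∈ Finset.range (K + 1), if 1 - r < (1 - ‖z‖ ^ 2) * 2 ^ k then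
        6 * Φ * 2 ^ ((m + 2 : ℝ) + 1 / 2) * (c k * Real.sqrt (2 / ((1 - ‖z‖ ^ 2) * 2 ^ k)))
        else 0 := by
    have h5 := Finset.single_le_sum (f := fun k => if 1 - r < (1 - ‖z‖ ^ 2) * 2 ^ k then
        6 * Φ * 2 ^ ((m + 2 : ℝ) + 1 / 2) * (c k * Real.sqrt (2 / ((1 - ‖z‖ ^ 2) * 2 ^ k)))
        else 0) (fun i _ => by
          have := hc i
          split_ifs
          · positivity
          · exact le_rfl) hkK
    have h6 : 1 - r < (1 - ‖z‖ ^ 2) * 2 ^ k := by rw [← ht]; linarith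
    rw [if_pos h6] at h5
    exact h5
  have hA : 0 ≤ (1 / (D + (1 - r))) ^ ((m + 2 : ℝ) + 1 / 2) := by positivity
  calc 6 * Φ * (c k * Real.sqrt (2 / t)) * (1 / D) ^ ((m + 2 : ℝ) + 1 / 2)
      ≤ 6 * Φ * (c k * Real.sqrt (2 / t)) * (2 ^ ((m + 2 : ℝ) + 1 / 2) *
          (1 / (D + (1 - r))) ^ ((m + 2 : ℝ) + 1 / 2)) := by gcongr
    _ = (6 * Φ * 2 ^ ((m + 2 : ℝ) + 1 / 2) * (c k * Real.sqrt (2 / t))) *
          (1 / (D + (1 - r))) ^ ((m + 2 : ℝ) + 1 / 2) := by ring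
    _ ≤ _ := mul_le_mul_of_nonneg_right hsum hA

variable [FiniteDimensional ℂ E] [MeasurableSpace E] [BorelSpace E]

/-- the estimate of the operator on the unit ball, output degree `0`, by scales -/
theorem TT0 (μ : Measure E) [μ.IsAddHaarMeasure] {m : ℕ} (hm : 1 ≤ m)
    (hdim : Module.finrank ℂ E = m + 1) [FiniteDimensional ℂ V] :
    ∃ C : ℝ, 0 < C ∧ ∀ (η : E → E [⋀^Fin 1]→L[ℝ] V) (z : E) (Φ : ℝ) (c : ℕ → ℝ) (K : ℕ),
      ‖z‖ < 1 → 0 ≤ Φ → (∀ k, 0 ≤ c k) → (1 / 2 : ℝ) ^ (K + 1) < (1 - ‖z‖ ^ 2) / 4 →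
      (∀ w ∈ ball (0 : E) 1, ∀ k : ℕ, (1 / 2 : ℝ) ^ (k + 1) < ‖1 - ⟪w, z⟫_ℂ‖ / 2 →
        ‖1 - ⟪w, z⟫_ℂ‖ / 2 ≤ (1 / 2) ^ k → ∀ v : Fin 1 → E, ‖η w v‖ ≤
          Φ * c k * (‖1 - ⟪w, z⟫_ℂ‖ / (1 - ‖w‖ ^ 2)) ^ 3 * gau (1 - ‖w‖ ^ 2) w (v 0)) →
      ∀ v : Fin 0 → E, ‖TT μ m η z v‖ ≤ C * Φ * ∑ k ∈ Finset.range (K + 1), c k := by
  have hprop : ProperSpace E := FiniteDimensional.proper ℂ E
  have hVc : CompleteSpace V := FiniteDimensional.complete ℂ V
  have hcW := k4_cW_pos μ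
  set c₀ : ℝ := ((m + 2 : ℝ) + 1 / 2) * (4 ^ (m + 2) * μ.real (ball (0 : E) 1) * 2) with hc₀
  have hμ0 : 0 ≤ μ.real (ball (0 : E) 1) := measureReal_nonneg
  have hc₀0 : 0 ≤ c₀ := by positivity
  set p : ℝ := (m + 2 : ℝ) + 1 / 2 with hp
  refine ⟨2 / cW μ * (6 * 2 ^ p * c₀ * 4) + 1, by positivity, ?_⟩
  intro η z Φ c K hz hΦ hc hK hyp v
  have hz2 : 0 < 1 - ‖z‖ ^ 2 := by nlinarith [norm_nonneg z]
  set v' : Fin 0 → E := fun i => gg' (-z) z (v i) with hv'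
  set F : ℝ × E → E [⋀^Fin 0]→L[ℝ] V := fun p =>
    ((1 - p.1 ^ 2) ^ 0 * WW p.2) • (Pul m η z ((p.1 : ℂ) • p.2)).curryLeft p.2 with hF
  have hval : TT μ m η z v = (-(2 / cW μ) : ℝ) •
      (∫ p in Icc (0 : ℝ) 1 ×ˢ ball (0 : E) 1, F p ∂(volume.prod μ)) v' := rfl
  obtain ⟨t, ht⟩ : ∃ t : ℕ → ℝ, t = fun k => (1 - ‖z‖ ^ 2) * 2 ^ k := ⟨_, rfl⟩
  have ht0 : ∀ k, 0 < t k := fun k => by rw [ht]; positivity
  obtain ⟨g, hg⟩ : ∃ g : ℕ → ℝ, g = fun k => 6 * Φ * 2 ^ p * (c k * Real.sqrt (2 / t k)) := ⟨_, rfl⟩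
  have hg0 : ∀ k, 0 ≤ g k := fun k => by
    rw [hg]
    have := hc k
    positivity
  set S : ℝ := ∑ k ∈ Finset.range (K + 1), c k with hS
  have hS0 : 0 ≤ S := Finset.sum_nonneg fun k _ => hc k
  have hmain : ‖(∫ p in Icc (0 : ℝ) 1 ×ˢ ball (0 : E) 1, F p ∂(volume.prod μ)) v'‖ ≤
      6 * Φ * 2 ^ p * c₀ * 4 * S := by
    by_cases hint : Integrable F ((volume.prod μ).restrict (Icc (0 : ℝ) 1 ×ˢ ball (0 : E) 1))
    · have e1 : (∫ p in Icc (0 : ℝ) 1 ×ˢ ball (0 : E) 1, F p ∂(volume.prod μ)) v' =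
          ∫ p in Icc (0 : ℝ) 1 ×ˢ ball (0 : E) 1, F p v' ∂(volume.prod μ) :=
        ((ContinuousAlternatingMap.apply ℝ E V v').integral_comp_comm hint).symm
      rw [e1]
      have e2 := enorm_integral_le_lintegral_enorm
        (μ := (volume.prod μ).restrict (Icc (0 : ℝ) 1 ×ˢ ball (0 : E) 1)) (fun p => F p v')
      have e3 : ∫⁻ p in Icc (0 : ℝ) 1 ×ˢ ball (0 : E) 1, ‖F p v'‖ₑ ∂(volume.prod μ) ≤
          ENNReal.ofReal (6 * Φ * 2 ^ p * c₀ * 4 * S) := by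
        rw [← Measure.prod_restrict]
        refine (lintegral_prod_le _).trans ?_
        have hae : ∀ᵐ r ∂(volume.restrict (Icc (0 : ℝ) 1)),
            ∫⁻ ξ in ball (0 : E) 1, ‖F (r, ξ) v'‖ₑ ∂μ ≤
              ∑ k ∈ Finset.range (K + 1), ENNReal.ofReal (g k * c₀) *
                (if 1 - r < t k then ENNReal.ofReal ((1 / (1 - r)) ^ (1 / 2 : ℝ)) else 0) := by
          have h1 : ∀ᵐ r : ℝ ∂(volume.restrict (Icc (0 : ℝ) 1)), r ≠ 1 := by
            apply ae_restrict_of_ae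
            rw [ae_iff]
            simp
          have h2 : ∀ᵐ r : ℝ ∂(volume.restrict (Icc (0 : ℝ) 1)), r ∈ Icc (0 : ℝ) 1 :=
            ae_restrict_mem measurableSet_Icc
          filter_upwards [h1, h2] with r hr1 hr
          have hr1 : r < 1 := lt_of_le_of_ne hr.2 hr1
          have htr : 0 < 1 - r := by linarith
          have hz' : ‖-((r : ℂ) • z)‖ ≤ 1 := by
            rw [norm_neg, norm_smul, Complex.norm_real, Real.norm_of_nonneg hr.1]
            nlinarith [norm_nonneg z, hr.1, hr.2]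
          have hk := SD.kernel_lint μ m hm hdim hz' htr
          obtain ⟨G, hG⟩ : ∃ G : ℝ, G = ∑ k ∈ Finset.range (K + 1),
            if 1 - r < t k then g k else 0 := ⟨_, rfl⟩
          have hG0 : 0 ≤ G := by
            rw [hG]
            apply Finset.sum_nonneg
            intro k _
            split_ifs
            · exact hg0 k
            · exact le_rfl
          calc ∫⁻ ξ in ball (0 : E) 1, ‖F (r, ξ) v'‖ₑ ∂μ
              ≤ ∫⁻ ξ in ball (0 : E) 1, ENNReal.ofReal G *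
                  ENNReal.ofReal
                  ((1 / (‖1 - ⟪ξ, -((r : ℂ) • z)⟫_ℂ‖ + (1 - r))) ^ ((m + 2 : ℝ) + 1 / 2)) ∂μ := by
                refine setLIntegral_mono' measurableSet_ball fun ξ hξ => ?_
                rw [mem_ball_zero_iff] at hξ
                rw [← ENNReal.ofReal_mul hG0, ← ofReal_norm]
                apply ENNReal.ofReal_le_ofReal
                refine (ts_point hz hξ hr.1 hr1 hΦ m hc hK hyp v').trans (le_of_eq ?_)
                rw [hG, ht, hg, ht]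
            _ = ENNReal.ofReal G * ∫⁻ ξ in ball (0 : E) 1,
                  ENNReal.ofReal
                  ((1 / (‖1 - ⟪ξ, -((r : ℂ) • z)⟫_ℂ‖ + (1 - r))) ^ ((m + 2 : ℝ) + 1 / 2)) ∂μ :=
                lintegral_const_mul' _ _ ENNReal.ofReal_ne_top
            _ ≤ ENNReal.ofReal G *
                  ENNReal.ofReal (((m + 2 : ℝ) + 1 / 2) * (4 ^ (m + 2) *
                  μ.real (ball 0 1) * (2 * (1 / (1 - r)) ^ (1 / 2 : ℝ)))) := by gcongr
            _ = ENNReal.ofReal (∑ k ∈ Finset.range (K + 1), (g k * c₀) *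
                (if 1 - r < t k then (1 / (1 - r)) ^ (1 / 2 : ℝ) else 0)) := by
                rw [← ENNReal.ofReal_mul hG0]
                congr 1
                rw [hG, Finset.sum_mul]
                apply Finset.sum_congr rfl
                intro k _
                split_ifs
                · rw [hc₀]; ring
                · ring
            _ = _ := by
                rw [ENNReal.ofReal_sum_of_nonneg]
                · apply Finset.sum_congr rfl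
                  intro k _
                  have := hg0 k
                  rw [ENNReal.ofReal_mul (by positivity)]
                  congr 1
                  split_ifs
                  · rfl
                  · exact ENNReal.ofReal_zero
                · intro k _
                  have := hg0 k
                  split_ifs
                  · positivity
                  · rw [mul_zero]
        refine (lintegral_mono_ae hae).trans ?_
        have hmeas : ∀ k, Measurable fun r : ℝ =>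
            (if 1 - r < t k then ENNReal.ofReal ((1 / (1 - r)) ^ (1 / 2 : ℝ)) else 0) := by
          intro k
          apply Measurable.ite
          · exact measurableSet_lt (by fun_prop) measurable_const
          · fun_prop
          · exact measurable_const
        rw [lintegral_finset_sum _ (fun k _ => (hmeas k).const_mul _)]
        calc ∑ k ∈ Finset.range (K + 1), ∫⁻ r in Icc (0 : ℝ) 1, ENNReal.ofReal (g k * c₀) *
              (if 1 - r < t k then ENNReal.ofReal ((1 / (1 - r)) ^ (1 / 2 : ℝ)) else 0)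
            ≤ ∑ k ∈ Finset.range (K + 1), ENNReal.ofReal (6 * Φ * 2 ^ p * c₀ * 4 * c k) := by
              apply Finset.sum_le_sum
              intro k _
              have hgk := hg0 k
              have hck := hc k
              rw [lintegral_const_mul' _ _ ENNReal.ofReal_ne_top]
              refine (mul_le_mul_right (radial_t (ht0 k)) _).trans ?_
              rw [← ENNReal.ofReal_mul (by positivity)]
              apply ENNReal.ofReal_le_ofReal
              have e5 : Real.sqrt (2 / t k) * Real.sqrt (t k) = Real.sqrt 2 := by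
                rw [← Real.sqrt_mul (by have := ht0 k; positivity), div_mul_cancel₀ _ (ht0 k).ne']
              have e6 : Real.sqrt 2 ≤ 2 := by
                rw [Real.sqrt_le_left (by norm_num)]; norm_num
              have e7 : g k * c₀ * (2 * Real.sqrt (t k)) =
                  6 * Φ * 2 ^ p * c₀ * 2 * c k * (Real.sqrt (2 / t k) * Real.sqrt (t k)) := by
                rw [hg]; ring
              rw [e7, e5]
              calc 6 * Φ * 2 ^ p * c₀ * 2 * c k * Real.sqrt 2 ≤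
                    6 * Φ * 2 ^ p * c₀ * 2 * c k * 2 := by gcongr
                _ = _ := by ring
          _ = _ := by
              rw [← ENNReal.ofReal_sum_of_nonneg, ← Finset.mul_sum]
              intro k _
              have := hc k
              positivity
      have e4 := e2.trans e3
      rw [← ofReal_norm] at e4
      exact (ENNReal.ofReal_le_ofReal_iff (by positivity)).mp e4
    · rw [integral_undef hint]
      have h0 : ‖(0 : E [⋀^Fin 0]→L[ℝ] V) v'‖ = 0 := by simp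
      rw [h0]
      positivity
  rw [hval, norm_smul, norm_neg, Real.norm_of_nonneg (by positivity)]
  calc 2 / cW μ * ‖(∫ p in Icc (0 : ℝ) 1 ×ˢ ball (0 : E) 1, F p ∂(volume.prod μ)) v'‖
      ≤ 2 / cW μ * (6 * Φ * 2 ^ p * c₀ * 4 * S) := by gcongr
    _ = (2 / cW μ * (6 * 2 ^ p * c₀ * 4)) * Φ * S := by ring
    _ ≤ _ := by
        gcongr
        linarith

end Pool.Agent.MPca0fc2.QS
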