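import Mathlib
import Pool.Agent.Lib.MP_ca0fc2_an.Mob
import Pool.Agent.Lib.MP_ca0fc2_an.SLKer

set_option autoImplicit false

open Metric Set Filter Topology MeasureTheory
open scoped InnerProductSpace ComplexConjugate

namespace Pool.Agent.MPca0fc2.VP

open Pool.Agent.MPca0fc2.SD
open Pool.Agent.MPca0fc2.SL
open Pool.Agent.Lib.MP_ca0fc2_an

section Basic

variable {E : Type*} [NormedAddCommGroup E] [InnerProductSpace ℂ E]

/-- the automorphism that moves `0` to `x e`, for real `x` -/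
noncomputable def am (e : E) (x : ℝ) (w : E) : E := mob e (x : ℂ) w

/-- the denominator -/
noncomputable def dn (e : E) (x : ℝ) (w : E) : ℂ := 1 + (x : ℂ) * ⟪e, w⟫_ℂ

theorem norm_ofReal_lt {x : ℝ} (hx0 : 0 ≤ x) (hx : x < 1) : ‖(x : ℂ)‖ < 1 := by
  rw [Complex.norm_real, Real.norm_of_nonneg hx0]; exact hx

theorem am_eq (e : E) (x : ℝ) (w : E) :
    am e x w = (dn e x w)⁻¹ • ((⟪e, w⟫_ℂ + x) • e + ((√(1 - x ^ 2) : ℝ) : ℂ) • prj e w) := by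
  unfold am mob dn Pool.Agent.Lib.MP_ca0fc2_an.sq
  rw [Complex.conj_ofReal, Complex.norm_real, Real.norm_eq_abs, sq_abs]

theorem dn_ne {e : E} (he : ‖e‖ = 1) {x : ℝ} (hx0 : 0 ≤ x) (hx : x < 1) {w : E}
    (hw : w ∈ ball (0 : E) 1) : dn e x w ≠ 0 := by
  have := den_ne (norm_ofReal_lt hx0 hx) (norm_inner_lt he hw)
  rwa [Complex.conj_ofReal] at this

theorem am_mem {e : E} (he : ‖e‖ = 1) {x : ℝ} (hx0 : 0 ≤ x) (hx : x < 1) {w : E}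
    (hw : w ∈ ball (0 : E) 1) : am e x w ∈ ball (0 : E) 1 :=
  mob_mem he (norm_ofReal_lt hx0 hx) hw

theorem am_diff {e : E} (he : ‖e‖ = 1) {x : ℝ} (hx0 : 0 ≤ x) (hx : x < 1) :
    DifferentiableOn ℂ (am e x) (ball 0 1) := mob_diff he (norm_ofReal_lt hx0 hx)

theorem am_zero (e : E) (x : ℝ) : am e x 0 = (x : ℂ) • e := mob_zero _

theorem am_norm {e : E} (he : ‖e‖ = 1) {x : ℝ} (hx0 : 0 ≤ x) (hx : x < 1) {w : E}
    (hw : w ∈ ball (0 : E) 1) :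
    1 - ‖am e x w‖ ^ 2 = (1 - x ^ 2) * (1 - ‖w‖ ^ 2) / ‖dn e x w‖ ^ 2 := by
  have h := mob_norm he (norm_ofReal_lt hx0 hx) hw
  rw [Complex.conj_ofReal, Complex.norm_real, Real.norm_eq_abs, sq_abs] at h
  have hd : 0 < ‖dn e x w‖ := norm_pos_iff.mpr (dn_ne he hx0 hx hw)
  rw [eq_div_iff (by positivity)]
  exact h

theorem am_inner {e : E} (he : ‖e‖ = 1) {x : ℝ} (hx0 : 0 ≤ x) (hx : x < 1) {y y' : E}
    (hy : y ∈ ball (0 : E) 1) (hy' : y' ∈ ball (0 : E) 1) :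
    1 - ⟪am e x y, am e x y'⟫_ℂ =
      (1 - x ^ 2 : ℝ) * (1 - ⟪y, y'⟫_ℂ) / (conj (dn e x y) * dn e x y') := by
  have hd := dn_ne he hx0 hx hy
  have hd' := dn_ne he hx0 hx hy'
  have hdc : conj (dn e x y) ≠ 0 := (map_ne_zero _).mpr hd
  have hs : ((√(1 - x ^ 2) : ℝ) : ℂ) * ((√(1 - x ^ 2) : ℝ) : ℂ) = ((1 - x ^ 2 : ℝ) : ℂ) := by
    rw [← Complex.ofReal_mul, Real.mul_self_sqrt (by nlinarith)]
  have hyy : ⟪y, y'⟫_ℂ = conj ⟪e, y⟫_ℂ * ⟪e, y'⟫_ℂ + ⟪prj e y, prj e y'⟫_ℂ := by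
    conv_lhs => rw [← dec_eq (e := e) y, ← dec_eq (e := e) y']
    have h1 : ⟪e, prj e y'⟫_ℂ = 0 := inner_prj he y'
    have h2 : ⟪prj e y, e⟫_ℂ = 0 := by rw [← inner_conj_symm, inner_prj he, map_zero]
    rw [inner_add_left, inner_add_right, inner_add_right, inner_smul_left, inner_smul_right,
      inner_smul_left, inner_smul_right, inner_self_one he, h1, h2]
    ring
  have hmm : ⟪am e x y, am e x y'⟫_ℂ = (conj (dn e x y))⁻¹ * (dn e x y')⁻¹ *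
      ((conj ⟪e, y⟫_ℂ + x) * (⟪e, y'⟫_ℂ + x) + ((1 - x ^ 2 : ℝ) : ℂ) * ⟪prj e y, prj e y'⟫_ℂ) := by
    rw [am_eq, am_eq, inner_smul_left, inner_smul_right]
    have h1 : ⟪e, prj e y'⟫_ℂ = 0 := inner_prj he y'
    have h2 : ⟪prj e y, e⟫_ℂ = 0 := by rw [← inner_conj_symm, inner_prj he, map_zero]
    rw [inner_add_left, inner_add_right, inner_add_right, inner_smul_left, inner_smul_right,
      inner_smul_left, inner_smul_right, inner_self_one he, inner_smul_left, inner_smul_right,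
      inner_smul_left, inner_smul_right, h1, h2, map_inv₀, Complex.conj_ofReal, map_add,
      Complex.conj_ofReal, ← hs]
    ring
  rw [hmm, eq_div_iff (mul_ne_zero hdc hd'), hyy]
  have e1 : conj (dn e x y) = 1 + x * conj ⟪e, y⟫_ℂ := by
    rw [dn, map_add, map_one, map_mul, Complex.conj_ofReal]
  have e2 : (1 - (conj (dn e x y))⁻¹ * (dn e x y')⁻¹ *
      ((conj ⟪e, y⟫_ℂ + x) * (⟪e, y'⟫_ℂ + x) + ((1 - x ^ 2 : ℝ) : ℂ) * ⟪prj e y, prj e y'⟫_ℂ)) *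
      (conj (dn e x y) * dn e x y') = conj (dn e x y) * dn e x y' -
      ((conj ⟪e, y⟫_ℂ + x) * (⟪e, y'⟫_ℂ + x) + ((1 - x ^ 2 : ℝ) : ℂ) * ⟪prj e y, prj e y'⟫_ℂ) := by
    field_simp
  rw [e2, e1, dn]
  push_cast
  ring

/-- quasi-triangle inequality -/
theorem quasi_tri {a z v : E} (ha : ‖a‖ = 1) (hz : ‖z‖ ≤ 1) (hv : ‖v‖ ≤ 1) :
    ‖1 - ⟪z, v⟫_ℂ‖ ≤ 2 * (‖1 - ⟪a, z⟫_ℂ‖ + ‖1 - ⟪a, v⟫_ℂ‖) := by
  have hzv : ⟪z, v⟫_ℂ = conj ⟪a, z⟫_ℂ * ⟪a, v⟫_ℂ + ⟪prj a z, prj a v⟫_ℂ := by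
    conv_lhs => rw [← dec_eq (e := a) z, ← dec_eq (e := a) v]
    have h1 : ⟪a, prj a v⟫_ℂ = 0 := inner_prj ha v
    have h2 : ⟪prj a z, a⟫_ℂ = 0 := by rw [← inner_conj_symm, inner_prj ha, map_zero]
    rw [inner_add_left, inner_add_right, inner_add_right, inner_smul_left, inner_smul_right,
      inner_smul_left, inner_smul_right, inner_self_one ha, h1, h2]
    ring
  set p := ‖1 - ⟪a, z⟫_ℂ‖ with hp
  set q := ‖1 - ⟪a, v⟫_ℂ‖ with hq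
  have hp0 : 0 ≤ p := norm_nonneg _
  have hq0 : 0 ≤ q := norm_nonneg _
  have hprj : ∀ u : E, ‖u‖ ≤ 1 → ‖prj a u‖ ^ 2 ≤ 2 * ‖1 - ⟪a, u⟫_ℂ‖ := by
    intro u hu
    have h1 := norm_sq_dec ha u
    have h2 : 1 - ‖⟪a, u⟫_ℂ‖ ≤ ‖1 - ⟪a, u⟫_ℂ‖ := by
      have := norm_sub_norm_le (1 : ℂ) ⟪a, u⟫_ℂ
      rwa [norm_one] at this
    have h3 := norm_inner_le ha u
    have h4 : ‖u‖ ^ 2 ≤ 1 := by nlinarith [norm_nonneg u]
    have h5 := norm_nonneg ⟪a, u⟫_ℂ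
    nlinarith
  have h1 : ‖⟪prj a z, prj a v⟫_ℂ‖ ≤ p + q := by
    refine (norm_inner_le_norm _ _).trans ?_
    have h2 := hprj z hz
    have h3 := hprj v hv
    nlinarith [sq_nonneg (‖prj a z‖ - ‖prj a v‖)]
  have h2 : ‖1 - conj ⟪a, z⟫_ℂ * ⟪a, v⟫_ℂ‖ ≤ p + q := by
    have e1 : 1 - conj ⟪a, z⟫_ℂ * ⟪a, v⟫_ℂ = conj (1 - ⟪a, z⟫_ℂ) +
        conj ⟪a, z⟫_ℂ * (1 - ⟪a, v⟫_ℂ) := by
      rw [map_sub, map_one]; ring
    rw [e1]
    refine (norm_add_le _ _).trans ?_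
    rw [norm_mul, RCLike.norm_conj, RCLike.norm_conj]
    have h3 : ‖⟪a, z⟫_ℂ‖ ≤ 1 := (norm_inner_le ha z).trans hz
    nlinarith
  rw [hzv]
  calc _ = ‖(1 - conj ⟪a, z⟫_ℂ * ⟪a, v⟫_ℂ) - ⟪prj a z, prj a v⟫_ℂ‖ := by congr 1; ring
    _ ≤ ‖1 - conj ⟪a, z⟫_ℂ * ⟪a, v⟫_ℂ‖ + ‖⟪prj a z, prj a v⟫_ℂ‖ := norm_sub_le _ _
    _ ≤ _ := by linarith

/-- the linear part -/
noncomputable def TT (e : E) (s : ℂ) : E →ₗ[ℂ] E :=
  s • LinearMap.transvection (((1 - s) / s) • (innerSL ℂ e : E →ₗ[ℂ] ℂ)) e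

theorem TT_apply {e : E} {s : ℂ} (hs : s ≠ 0) (v : E) :
    TT e s v = ⟪e, v⟫_ℂ • e + s • prj e v := by
  rw [TT, LinearMap.smul_apply, LinearMap.transvection.apply, prj_apply]
  simp only [LinearMap.smul_apply, ContinuousLinearMap.coe_coe, innerSL_apply_apply, smul_eq_mul]
  rw [smul_add, smul_sub, smul_smul, smul_smul]
  have : s * ((1 - s) / s * ⟪e, v⟫_ℂ) = ⟪e, v⟫_ℂ - s * ⟪e, v⟫_ℂ := by
    field_simp
  rw [this, sub_smul]
  abel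

theorem TT_det [FiniteDimensional ℂ E] {e : E} (he : ‖e‖ = 1) {s : ℂ} (hs : s ≠ 0) (m : ℕ)
    (hdim : Module.finrank ℂ E = m + 1) : LinearMap.det (TT e s) = s ^ m := by
  rw [TT, LinearMap.det_smul, LinearMap.transvection.det, hdim]
  simp only [LinearMap.smul_apply, ContinuousLinearMap.coe_coe, innerSL_apply_apply, smul_eq_mul,
    inner_self_one he]
  field_simp
  ring

/-- the derivative of the automorphism -/
noncomputable def LL (e : E) (x : ℝ) (y : E) : E →ₗ[ℂ] E :=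
  (dn e x y)⁻¹ • (TT e ((√(1 - x ^ 2) : ℝ) : ℂ) ∘ₗ
    LinearMap.transvection ((-(x : ℂ)) • (innerSL ℂ e : E →ₗ[ℂ] ℂ))
      (TT e (((√(1 - x ^ 2) : ℝ) : ℂ)⁻¹) (am e x y)))

theorem sqrt_ne {x : ℝ} (hx0 : 0 ≤ x) (hx : x < 1) : ((√(1 - x ^ 2) : ℝ) : ℂ) ≠ 0 := by
  have : 0 < √(1 - x ^ 2) := Real.sqrt_pos.mpr (by nlinarith)
  exact_mod_cast this.ne'

theorem LL_apply {e : E} (he : ‖e‖ = 1) {x : ℝ} (hx0 : 0 ≤ x) (hx : x < 1) (y v : E) :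
    LL e x y v = (dn e x y)⁻¹ • (TT e ((√(1 - x ^ 2) : ℝ) : ℂ) v -
      ((x : ℂ) * ⟪e, v⟫_ℂ) • am e x y) := by
  have hs := sqrt_ne hx0 hx
  rw [LL, LinearMap.smul_apply, LinearMap.comp_apply, LinearMap.transvection.apply]
  congr 1
  have h1 : TT e ((√(1 - x ^ 2) : ℝ) : ℂ) (TT e (((√(1 - x ^ 2) : ℝ) : ℂ)⁻¹) (am e x y)) =
      am e x y := by
    rw [TT_apply hs, TT_apply (inv_ne_zero hs), inner_add_right, inner_smul_right,
      inner_smul_right, inner_prj he, inner_self_one he, mul_zero, add_zero, mul_one, map_add,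
      map_smul, map_smul, prj_self he, prj_prj he, smul_zero, zero_add, smul_smul,
      mul_inv_cancel₀ hs, one_smul, dec_eq]
  rw [LinearMap.smul_apply, ContinuousLinearMap.coe_coe, innerSL_apply_apply, map_add, map_smul,
    h1, smul_eq_mul, neg_mul, neg_smul, ← sub_eq_add_neg]

theorem LL_det [FiniteDimensional ℂ E] {e : E} (he : ‖e‖ = 1) {x : ℝ} (hx0 : 0 ≤ x) (hx : x < 1)
    {y : E} (hy : y ∈ ball (0 : E) 1) (m : ℕ) (hdim : Module.finrank ℂ E = m + 1) :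
    LinearMap.det (LL e x y) =
      ((√(1 - x ^ 2) : ℝ) : ℂ) ^ m * ((1 - x ^ 2 : ℝ) : ℂ) / (dn e x y) ^ (m + 2) := by
  have hs := sqrt_ne hx0 hx
  have hd := dn_ne he hx0 hx hy
  rw [LL, LinearMap.det_smul, LinearMap.det_comp, TT_det he hs m hdim, LinearMap.transvection.det,
    hdim, LinearMap.smul_apply, ContinuousLinearMap.coe_coe, innerSL_apply_apply,
    TT_apply (inv_ne_zero hs), inner_add_right, inner_smul_right, inner_smul_right,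
    inner_self_one he, inner_prj he, mul_zero, add_zero, mul_one]
  have h1 : ⟪e, am e x y⟫_ℂ = (⟪e, y⟫_ℂ + x) / dn e x y := by
    rw [am, inner_mob he, Complex.conj_ofReal]; rfl
  have h2 : 1 + -(x : ℂ) • ((⟪e, y⟫_ℂ + x) / dn e x y) = ((1 - x ^ 2 : ℝ) : ℂ) / dn e x y := by
    rw [eq_div_iff hd, smul_eq_mul, add_mul, one_mul, mul_assoc, div_mul_cancel₀ _ hd, dn]
    push_cast
    ring
  rw [h1, h2, inv_pow, pow_succ (dn e x y) (m + 1)]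
  field_simp

end Basic

end Pool.Agent.MPca0fc2.VP
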