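import Mathlib
import Pool.Agent.Lib.MP_ca0fc2_an.VP1

set_option autoImplicit false

open Metric Set Filter Topology MeasureTheory
open scoped InnerProductSpace ComplexConjugate

namespace Pool.Agent.MPca0fc2.VP

open Pool.Agent.MPca0fc2.SD
open Pool.Agent.MPca0fc2.SL
open Pool.Agent.Lib.MP_ca0fc2_an

variable {E : Type*} [NormedAddCommGroup E] [InnerProductSpace ℂ E] [FiniteDimensional ℂ E]

theorem am_fderiv {e : E} (he : ‖e‖ = 1) {x : ℝ} (hx0 : 0 ≤ x) (hx : x < 1) {y : E}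
    (hy : y ∈ ball (0 : E) 1) :
    HasFDerivAt (am e x) (LinearMap.toContinuousLinearMap (LL e x y)) y := by
  have hd := dn_ne he hx0 hx hy
  have hs := sqrt_ne hx0 hx
  have h1 : HasFDerivAt (fun w : E => dn e x w) ((x : ℂ) • (innerSL ℂ e)) y := by
    unfold dn
    exact ((innerSL ℂ e).hasFDerivAt.const_mul (x : ℂ)).const_add 1
  have h2 : HasFDerivAt (fun w : E => (dn e x w)⁻¹)
      ((ContinuousLinearMap.smulRight (1 : ℂ →L[ℂ] ℂ) (-(dn e x y ^ 2)⁻¹)).comp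
        ((x : ℂ) • (innerSL ℂ e))) y := (hasFDerivAt_inv hd).comp y h1
  have h3 : HasFDerivAt (fun w : E => (⟪e, w⟫_ℂ + (x : ℂ)) • e +
      ((√(1 - x ^ 2) : ℝ) : ℂ) • prj e w)
      ((innerSL ℂ e).smulRight e + ((√(1 - x ^ 2) : ℝ) : ℂ) • prj e) y := by
    apply HasFDerivAt.add
    · exact ((innerSL ℂ e).hasFDerivAt.add_const (x : ℂ)).smul_const e
    · exact (prj e).hasFDerivAt.const_smul _
  have h4 := h2.smul h3
  have h5 : am e x = fun w => (dn e x w)⁻¹ • ((⟪e, w⟫_ℂ + (x : ℂ)) • e +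
      ((√(1 - x ^ 2) : ℝ) : ℂ) • prj e w) := funext fun w => am_eq e x w
  rw [h5]
  refine h4.congr_fderiv ?_
  ext v
  rw [LinearMap.coe_toContinuousLinearMap', LL_apply he hx0 hx, TT_apply hs, am_eq]
  simp only [add_apply, smul_apply,
    ContinuousLinearMap.smulRight_apply, ContinuousLinearMap.comp_apply,
    one_apply_eq_self, innerSL_apply_apply, smul_eq_mul]
  have key : (x : ℂ) * ⟪e, v⟫_ℂ * -(dn e x y ^ 2)⁻¹ =
      -((dn e x y)⁻¹ * ((x : ℂ) * ⟪e, v⟫_ℂ) * (dn e x y)⁻¹) := by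
    field_simp
  rw [smul_sub, smul_smul, smul_smul, key, neg_smul, ← sub_eq_add_neg]

theorem am_image {e : E} (he : ‖e‖ = 1) {x : ℝ} (hx0 : 0 ≤ x) (hx : x < 1) :
    am e x '' ball (0 : E) 1 = ball (0 : E) 1 := by
  apply Subset.antisymm
  · rintro _ ⟨w, hw, rfl⟩
    exact am_mem he hx0 hx hw
  · intro v hv
    refine ⟨mob e (-(x : ℂ)) v, mob_mem he (by rw [norm_neg]; exact norm_ofReal_lt hx0 hx) hv, ?_⟩
    exact mob_inv' he (norm_ofReal_lt hx0 hx) hv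

theorem am_inj {e : E} (he : ‖e‖ = 1) {x : ℝ} (hx0 : 0 ≤ x) (hx : x < 1) :
    InjOn (am e x) (ball (0 : E) 1) := by
  intro w hw w' hw' h
  have h1 := mob_inv he (norm_ofReal_lt hx0 hx) hw
  have h2 := mob_inv he (norm_ofReal_lt hx0 hx) hw'
  unfold am at h
  rw [h, h2] at h1
  exact h1.symm

theorem am_det {e : E} (he : ‖e‖ = 1) {x : ℝ} (hx0 : 0 ≤ x) (hx : x < 1)
    {y : E} (hy : y ∈ ball (0 : E) 1) (m : ℕ) (hdim : Module.finrank ℂ E = m + 1) :
    ((LinearMap.toContinuousLinearMap (LL e x y)).restrictScalars ℝ).det =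
      (1 - x ^ 2) ^ (m + 2) / ‖dn e x y‖ ^ (2 * (m + 2)) := by
  have h0 : 0 ≤ 1 - x ^ 2 := by nlinarith
  have h1 : ((LinearMap.toContinuousLinearMap (LL e x y)).restrictScalars ℝ).det =
      LinearMap.det ((LL e x y).restrictScalars ℝ) := rfl
  rw [h1, LinearMap.det_restrictScalars, LL_det he hx0 hx hy m hdim, Algebra.norm_complex_apply,
    Complex.normSq_eq_norm_sq, norm_div, norm_mul, norm_pow, norm_pow, Complex.norm_real,
    Complex.norm_real, Real.norm_of_nonneg (Real.sqrt_nonneg _), Real.norm_of_nonneg h0, div_pow,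
    mul_pow, ← pow_mul, mul_comm m 2, pow_mul (√(1 - x ^ 2)), Real.sq_sqrt h0, ← pow_add, ← pow_mul,
    mul_comm (m + 2) 2]

variable [MeasurableSpace E] [BorelSpace E]

/-- change of variables -/
theorem am_integral (μ : Measure E) [μ.IsAddHaarMeasure] {e : E} (he : ‖e‖ = 1) {x : ℝ}
    (hx0 : 0 ≤ x) (hx : x < 1) (m : ℕ) (hdim : Module.finrank ℂ E = m + 1) (g : E → ℂ) :
    ∫ v in ball (0 : E) 1, g v ∂μ = ∫ w in ball (0 : E) 1,
      ((1 - x ^ 2) ^ (m + 2) / ‖dn e x w‖ ^ (2 * (m + 2)) : ℝ) • g (am e x w) ∂μ := by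
  have h1 : ∀ w ∈ ball (0 : E) 1, HasFDerivWithinAt (am e x)
      ((LinearMap.toContinuousLinearMap (LL e x w)).restrictScalars ℝ) (ball 0 1) w := fun w hw =>
    ((am_fderiv he hx0 hx hw).restrictScalars ℝ).hasFDerivWithinAt
  have h2 := integral_image_eq_integral_abs_det_fderiv_smul μ measurableSet_ball h1
    (am_inj he hx0 hx) g
  rw [am_image he hx0 hx] at h2
  rw [h2]
  apply setIntegral_congr_fun measurableSet_ball
  intro w hw
  simp only
  rw [am_det he hx0 hx hw m hdim, abs_of_nonneg]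
  have : 0 ≤ 1 - x ^ 2 := by nlinarith
  positivity

/-- the projection in the coordinates of the automorphism -/
theorem PP_am (μ : Measure E) [μ.IsAddHaarMeasure] {e : E} (he : ‖e‖ = 1) {x : ℝ}
    (hx0 : 0 ≤ x) (hx : x < 1) (m : ℕ) (hdim : Module.finrank ℂ E = m + 1) (F : E → ℂ) :
    PP μ m F ((x : ℂ) • e) = (cw μ : ℂ)⁻¹ * ∫ w in ball (0 : E) 1,
      F (am e x w) * (((1 - ‖w‖ ^ 2) ^ 2 : ℝ) : ℂ) / (dn e x w) ^ (m + 4) ∂μ := by
  unfold PP
  congr 1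
  rw [am_integral μ he hx0 hx m hdim]
  apply setIntegral_congr_fun measurableSet_ball
  intro w hw
  have hd := dn_ne he hx0 hx hw
  have hdc : conj (dn e x w) ≠ 0 := (map_ne_zero _).mpr hd
  have hn : ‖dn e x w‖ ≠ 0 := norm_ne_zero_iff.mpr hd
  have h0 : (1 - x ^ 2 : ℝ) ≠ 0 := by nlinarith
  have h0c : ((1 - x ^ 2 : ℝ) : ℂ) ≠ 0 := by exact_mod_cast h0
  have h1 : 1 - ⟪am e x w, (x : ℂ) • e⟫_ℂ = ((1 - x ^ 2 : ℝ) : ℂ) / conj (dn e x w) := by
    rw [← am_zero, am_inner he hx0 hx hw (mem_ball_self one_pos), inner_zero_right]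
    have : dn e x (0 : E) = 1 := by rw [dn, inner_zero_right, mul_zero, add_zero]
    rw [this]
    ring
  have h2 : ((‖dn e x w‖ : ℝ) : ℂ) ^ 2 = dn e x w * conj (dn e x w) := by
    rw [Complex.mul_conj']
  simp only
  rw [h1, am_norm he hx0 hx hw, Complex.real_smul]
  push_cast
  push_cast at h0c
  have h3 : ((‖dn e x w‖ : ℝ) : ℂ) ^ (2 * (m + 2)) =
      (dn e x w) ^ (m + 2) * (conj (dn e x w)) ^ (m + 2) := by
    rw [pow_mul, h2, mul_pow]
  rw [h3, h2]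
  have e1 : (dn e x w) ^ (m + 4) = (dn e x w) ^ (m + 2) * (dn e x w) ^ 2 := by rw [← pow_add]
  have e2 : (((1 - (x : ℂ) ^ 2)) / conj (dn e x w)) ^ (m + 4) =
      (1 - (x : ℂ) ^ 2) ^ (m + 2) * (1 - (x : ℂ) ^ 2) ^ 2 /
        ((conj (dn e x w)) ^ (m + 2) * (conj (dn e x w)) ^ 2) := by
    rw [div_pow, ← pow_add, ← pow_add]
  rw [e1, e2]
  field_simp

end Pool.Agent.MPca0fc2.VP
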