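import Mathlib
import Pool.Agent.Lib.MP_ca0fc2_an.SLKer

set_option autoImplicit false

open Metric Set Filter Topology MeasureTheory
open scoped InnerProductSpace ComplexConjugate

namespace Pool.Agent.MPca0fc2.VP

open Pool.Agent.MPca0fc2.SD
open Pool.Agent.MPca0fc2.SL

variable {E : Type*} [NormedAddCommGroup E] [InnerProductSpace ℂ E] [FiniteDimensional ℂ E]
  [MeasurableSpace E] [BorelSpace E]

/-- the weight -/
noncomputable def wt (w : E) : ℂ := (((1 - ‖w‖ ^ 2) ^ 2 : ℝ) : ℂ)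

omit [FiniteDimensional ℂ E] [MeasurableSpace E] [BorelSpace E] in
theorem norm_wt_le {w : E} (hw : w ∈ ball (0 : E) 1) : ‖wt w‖ ≤ 1 := by
  rw [mem_ball_zero_iff] at hw
  rw [wt, Complex.norm_real, Real.norm_of_nonneg (by positivity)]
  have : 0 ≤ 1 - ‖w‖ ^ 2 := by nlinarith [norm_nonneg w]
  apply pow_le_one₀ this
  nlinarith [sq_nonneg ‖w‖]

omit [FiniteDimensional ℂ E] [MeasurableSpace E] [BorelSpace E] in
theorem wt_smul {c : ℂ} (hc : ‖c‖ = 1) (w : E) : wt (c • w) = wt w := by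
  rw [wt, wt, norm_smul, hc, one_mul]

omit [FiniteDimensional ℂ E] [MeasurableSpace E] [BorelSpace E] in
theorem continuous_wt : Continuous (wt : E → ℂ) := by
  unfold wt
  fun_prop

/-- twice the conjugate derivative in a direction -/
noncomputable def dbr (β : E → ℂ) (y w : E) : ℂ :=
  fderiv ℝ β y w + Complex.I * fderiv ℝ β y (Complex.I • w)

/-- rotation invariance -/
theorem rot_inv (μ : Measure E) [μ.IsAddHaarMeasure] (β : E → ℂ) {u : ℂ} (hu : ‖u‖ = 1) :
    ∫ w in ball (0 : E) 1, β (u • w) * wt w ∂μ = ∫ w in ball (0 : E) 1, β w * wt w ∂μ := by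
  have hu0 : u ≠ 0 := by
    intro h; rw [h, norm_zero] at hu; exact zero_ne_one hu
  have h1 := (mp_smul μ hu).setIntegral_preimage_emb
    (Homeomorph.smulOfNeZero u hu0).measurableEmbedding (fun w => β w * wt w) (ball (0 : E) 1)
  have h2 : (fun y : E => u • y) ⁻¹' ball (0 : E) 1 = ball 0 1 := by
    ext w
    rw [mem_preimage, mem_ball_zero_iff, mem_ball_zero_iff, norm_smul, hu, one_mul]
  rw [h2] at h1
  rw [← h1]
  apply setIntegral_congr_fun measurableSet_ball
  intro w _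
  simp only
  rw [wt_smul hu]

theorem curve_deriv (μ : Measure E) [μ.IsAddHaarMeasure] {β : E → ℂ}
    (hβ : ContDiffOn ℝ 1 β (ball 0 1)) {c c' : ℝ → ℂ} {t₀ r : ℝ} {s : Set ℝ} (hs : s ∈ 𝓝 t₀)
    (hc : ∀ t ∈ s, HasDerivAt c (c' t) t) (hr1 : r < 1) (hcr : ∀ t ∈ s, ‖c t‖ ≤ r) {C' : ℝ}
    (hc' : ∀ t ∈ s, ‖c' t‖ ≤ C') :
    Integrable (fun w => fderiv ℝ β (c t₀ • w) (c' t₀ • w) * wt w) (μ.restrict (ball 0 1)) ∧
    HasDerivAt (fun t => ∫ w in ball (0 : E) 1, β (c t • w) * wt w ∂μ)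
      (∫ w in ball (0 : E) 1, fderiv ℝ β (c t₀ • w) (c' t₀ • w) * wt w ∂μ) t₀ := by
  have hprop : ProperSpace E := FiniteDimensional.proper ℂ E
  have hfin : IsFiniteMeasure (μ.restrict (ball (0 : E) 1)) :=
    ⟨by rw [Measure.restrict_apply_univ]; exact measure_ball_lt_top⟩
  have hts : t₀ ∈ s := mem_of_mem_nhds hs
  have hr0 : 0 ≤ r := (norm_nonneg _).trans (hcr t₀ hts)
  have hmem : ∀ t ∈ s, ∀ w ∈ ball (0 : E) 1, c t • w ∈ closedBall (0 : E) r := by
    intro t ht w hw
    rw [mem_ball_zero_iff] at hw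
    rw [mem_closedBall_zero_iff, norm_smul]
    have := hcr t ht
    nlinarith [norm_nonneg w, norm_nonneg (c t)]
  have hsub : closedBall (0 : E) r ⊆ ball 0 1 := closedBall_subset_ball hr1
  have hdc : ContinuousOn (fderiv ℝ β) (ball 0 1) :=
    hβ.continuousOn_fderiv_of_isOpen isOpen_ball le_rfl
  obtain ⟨Cf, hCf⟩ := (isCompact_closedBall (0 : E) r).exists_bound_of_continuousOn
    (hdc.mono hsub)
  obtain ⟨Cb, hCb⟩ := (isCompact_closedBall (0 : E) r).exists_bound_of_continuousOn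
    (hβ.continuousOn.mono hsub)
  have hCf0 : 0 ≤ Cf := (norm_nonneg _).trans (hCf 0 (mem_closedBall_self hr0))
  have hC'0 : 0 ≤ C' := (norm_nonneg _).trans (hc' t₀ hts)
  have hmaps : ∀ t ∈ s, MapsTo (fun w : E => c t • w) (ball 0 1) (ball 0 1) := fun t ht w hw =>
    hsub (hmem t ht w hw)
  refine hasDerivAt_integral_of_dominated_loc_of_deriv_le (𝕜 := ℝ)
    (μ := μ.restrict (ball 0 1)) (F := fun t w => β (c t • w) * wt w) (x₀ := t₀)
    (F' := fun t w => fderiv ℝ β (c t • w) (c' t • w) * wt w) (bound := fun _ => Cf * C') hs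
    ?_ ?_ ?_ ?_ (integrable_const _) ?_
  · filter_upwards [hs] with t ht
    apply ContinuousOn.aestronglyMeasurable _ measurableSet_ball
    apply ContinuousOn.mul _ continuous_wt.continuousOn
    exact hβ.continuousOn.comp (by fun_prop) (hmaps t ht)
  · refine Integrable.mono' (integrable_const Cb) ?_ ?_
    · apply ContinuousOn.aestronglyMeasurable _ measurableSet_ball
      apply ContinuousOn.mul _ continuous_wt.continuousOn
      exact hβ.continuousOn.comp (by fun_prop) (hmaps t₀ hts)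
    · refine (ae_restrict_iff' measurableSet_ball).mpr (Eventually.of_forall fun w hw => ?_)
      rw [norm_mul]
      have h1 := hCb _ (hmem t₀ hts w hw)
      have h2 := norm_wt_le hw
      have h3 : 0 ≤ Cb := (norm_nonneg _).trans h1
      calc _ ≤ Cb * 1 := by gcongr
        _ = Cb := mul_one _
  · apply ContinuousOn.aestronglyMeasurable _ measurableSet_ball
    apply ContinuousOn.mul _ continuous_wt.continuousOn
    apply ContinuousOn.clm_apply
    · exact hdc.comp (by fun_prop) (hmaps t₀ hts)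
    · fun_prop
  · refine (ae_restrict_iff' measurableSet_ball).mpr (Eventually.of_forall fun w hw => ?_)
    intro t ht
    rw [norm_mul]
    have h1 := hCf _ (hmem t ht w hw)
    have h2 := norm_wt_le hw
    have h3 := ContinuousLinearMap.le_opNorm (fderiv ℝ β (c t • w)) (c' t • w)
    have h4 : ‖c' t • w‖ ≤ C' := by
      rw [norm_smul]
      rw [mem_ball_zero_iff] at hw
      have := hc' t ht
      nlinarith [norm_nonneg w, norm_nonneg (c' t)]
    calc ‖fderiv ℝ β (c t • w) (c' t • w)‖ * ‖wt w‖ ≤ (Cf * C') * 1 := by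
          apply mul_le_mul _ h2 (norm_nonneg _) (by positivity)
          exact h3.trans (mul_le_mul h1 h4 (norm_nonneg _) hCf0)
      _ = _ := mul_one _
  · refine (ae_restrict_iff' measurableSet_ball).mpr (Eventually.of_forall fun w hw => ?_)
    intro t ht
    have h1 : HasFDerivAt β (fderiv ℝ β (c t • w)) (c t • w) :=
      ((hβ.differentiableOn one_ne_zero).differentiableAt
        (isOpen_ball.mem_nhds (hmaps t ht hw))).hasFDerivAt
    have h2 : HasDerivAt (fun t => c t • w) (c' t • w) t := (hc t ht).smul_const w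
    exact (h1.comp_hasDerivAt t h2).mul_const _

/-- The mean value of a function is close to the value at the center if the conjugate derivatives
are small. -/
theorem mean_est (μ : Measure E) [μ.IsAddHaarMeasure] {β : E → ℂ}
    (hβ : ContDiffOn ℝ 1 β (ball 0 1)) {Cβ : ℝ} (hb : ∀ w ∈ ball (0 : E) 1, ‖β w‖ ≤ Cβ)
    {B B' : ℝ → ℝ} (hB : ContinuousOn B (Icc 0 1)) (hB' : ∀ ρ ∈ Ioo (0 : ℝ) 1, HasDerivAt B (B' ρ) ρ)
    (hbd : ∀ ρ ∈ Ioo (0 : ℝ) 1, ∫ w in ball (0 : E) 1, ‖dbr β ((ρ : ℂ) • w) w * wt w‖ ∂μ ≤ B' ρ) :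
    ‖(∫ w in ball (0 : E) 1, β w * wt w ∂μ) - (cw μ : ℂ) * β 0‖ ≤ B 1 - B 0 := by
  have hprop : ProperSpace E := FiniteDimensional.proper ℂ E
  have hfin : IsFiniteMeasure (μ.restrict (ball (0 : E) 1)) :=
    ⟨by rw [Measure.restrict_apply_univ]; exact measure_ball_lt_top⟩
  obtain ⟨I₀, hI₀⟩ : ∃ I₀ : ℝ → ℂ, I₀ = fun ρ : ℝ => ∫ w in ball (0 : E) 1, β ((ρ : ℂ) • w) * wt w ∂μ :=
    ⟨_, rfl⟩
  have hCβ : 0 ≤ Cβ := (norm_nonneg _).trans (hb 0 (mem_ball_self one_pos))
  have hmaps : ∀ ρ ∈ Icc (0 : ℝ) 1, ∀ w ∈ ball (0 : E) 1, (ρ : ℂ) • w ∈ ball (0 : E) 1 := by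
    intro ρ hρ w hw
    rw [mem_ball_zero_iff] at hw ⊢
    rw [norm_smul, Complex.norm_real, Real.norm_of_nonneg hρ.1]
    nlinarith [norm_nonneg w, hρ.1, hρ.2]
  -- continuity
  have hcont : ContinuousOn I₀ (Icc 0 1) := by
    rw [hI₀]
    apply continuousOn_of_dominated (bound := fun _ => Cβ)
    · intro ρ hρ
      apply ContinuousOn.aestronglyMeasurable _ measurableSet_ball
      apply ContinuousOn.mul _ continuous_wt.continuousOn
      exact hβ.continuousOn.comp (by fun_prop) (hmaps ρ hρ)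
    · intro ρ hρ
      refine (ae_restrict_iff' measurableSet_ball).mpr (Eventually.of_forall fun w hw => ?_)
      rw [norm_mul]
      have h1 := hb _ (hmaps ρ hρ w hw)
      have h2 := norm_wt_le hw
      calc _ ≤ Cβ * 1 := by gcongr
        _ = Cβ := mul_one _
    · exact integrable_const _
    · refine (ae_restrict_iff' measurableSet_ball).mpr (Eventually.of_forall fun w hw => ?_)
      apply ContinuousOn.mul _ continuousOn_const
      apply hβ.continuousOn.comp
      · exact (Complex.continuous_ofReal.smul continuous_const).continuousOn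
      · intro ρ hρ
        exact hmaps ρ hρ w hw
  -- derivative
  have hder : ∀ ρ ∈ Ioo (0 : ℝ) 1, HasDerivAt I₀
      (∫ w in ball (0 : E) 1, dbr β ((ρ : ℂ) • w) w * wt w ∂μ) ρ := by
    intro ρ hρ
    obtain ⟨r, hr⟩ : ∃ r : ℝ, r = (1 + ρ) / 2 := ⟨_, rfl⟩
    have hr1 : r < 1 := by rw [hr]; linarith [hρ.2]
    have hρr : ρ < r := by rw [hr]; linarith [hρ.2]
    have h1 := curve_deriv μ hβ (c := fun t => (t : ℂ)) (c' := fun _ => 1) (t₀ := ρ) (r := r)
      (s := Ioo (-r) r) (Ioo_mem_nhds (by linarith [hρ.1]) hρr)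
      (fun t _ => Complex.ofRealCLM.hasDerivAt) hr1 (fun t ht => by
        rw [Complex.norm_real, Real.norm_eq_abs]
        exact (abs_lt.mpr ht).le) (C' := 1) (fun t _ => by simp)
    have h2 := curve_deriv μ hβ (c := fun t => (ρ : ℂ) * Complex.exp (t * Complex.I))
      (c' := fun t => (ρ : ℂ) * (Complex.exp (t * Complex.I) * Complex.I)) (t₀ := 0) (r := r)
      (s := univ) univ_mem
      (fun t _ => by
        have h3 : HasDerivAt (fun t : ℝ => (t : ℂ) * Complex.I) (1 * Complex.I) t :=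
          (Complex.ofRealCLM.hasDerivAt).mul_const _
        have h4 := (h3.cexp).const_mul (ρ : ℂ)
        rwa [one_mul] at h4) hr1 (fun t _ => by
        rw [norm_mul, Complex.norm_exp_ofReal_mul_I, mul_one, Complex.norm_real,
          Real.norm_of_nonneg hρ.1.le]
        exact hρr.le) (C' := 1) (fun t _ => by
        rw [norm_mul, norm_mul, Complex.norm_exp_ofReal_mul_I, Complex.norm_I, mul_one, mul_one,
          Complex.norm_real, Real.norm_of_nonneg hρ.1.le]
        exact hρ.2.le)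
    have h3 : (fun t : ℝ => ∫ w in ball (0 : E) 1,
        β (((ρ : ℂ) * Complex.exp (t * Complex.I)) • w) * wt w ∂μ) = fun _ => I₀ ρ := by
      funext t
      have := rot_inv μ (fun w => β ((ρ : ℂ) • w)) (Complex.norm_exp_ofReal_mul_I t)
      rw [hI₀]
      simp only
      rw [← this]
      simp only [smul_smul]
    have h4 : ∫ w in ball (0 : E) 1, fderiv ℝ β ((ρ : ℂ) • w) (((ρ : ℂ) * Complex.I) • w) * wt w ∂μ
        = 0 := by
      have h5 := h2.2
      rw [h3] at h5
      have h6 := h5.unique (hasDerivAt_const (0 : ℝ) (I₀ ρ))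
      simpa using h6
    have h5 : ∀ w : E, fderiv ℝ β ((ρ : ℂ) • w) (((ρ : ℂ) * Complex.I) • w) * wt w =
        (ρ : ℂ) * (fderiv ℝ β ((ρ : ℂ) • w) (Complex.I • w) * wt w) := by
      intro w
      have h6 : ((ρ : ℂ) * Complex.I) • w = ρ • (Complex.I • w) := by
        rw [mul_smul, RCLike.real_smul_eq_coe_smul (K := ℂ)]; rfl
      rw [h6, map_smul, Complex.real_smul, mul_assoc]
    have hρ0 : (ρ : ℂ) ≠ 0 := by exact_mod_cast hρ.1.ne'
    have h7 : ∫ w in ball (0 : E) 1, fderiv ℝ β ((ρ : ℂ) • w) (Complex.I • w) * wt w ∂μ = 0 := by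
      simp only [h5] at h4
      rw [integral_const_mul] at h4
      exact (mul_eq_zero.mp h4).resolve_left hρ0
    have hint : Integrable (fun w => fderiv ℝ β ((ρ : ℂ) • w) (Complex.I • w) * wt w)
        (μ.restrict (ball 0 1)) := by
      have h8 := h2.1
      simp only [Complex.ofReal_zero, zero_mul, Complex.exp_zero, mul_one, one_mul] at h8
      simp only [h5] at h8
      have h9 := h8.const_mul ((ρ : ℂ)⁻¹)
      refine h9.congr (Eventually.of_forall fun w => ?_)
      simp only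
      rw [← mul_assoc, inv_mul_cancel₀ hρ0, one_mul]
    have h8 := h1.2
    have h9 := h1.1
    simp only [one_smul] at h8 h9
    rw [hI₀]
    convert h8 using 1
    have e1 : ∀ w : E, dbr β ((ρ : ℂ) • w) w * wt w = fderiv ℝ β ((ρ : ℂ) • w) w * wt w +
        Complex.I * (fderiv ℝ β ((ρ : ℂ) • w) (Complex.I • w) * wt w) := by
      intro w; rw [dbr]; ring
    simp only [e1]
    rw [integral_add h9 (hint.const_mul _), integral_const_mul, h7, mul_zero, add_zero]
  -- the estimate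
  have hmain : ∀ a ∈ Ioo (0 : ℝ) 1, ‖I₀ 1 - I₀ a‖ ≤ B 1 - B a := by
    intro a ha
    have hsub : Icc a 1 ⊆ Icc 0 1 := Icc_subset_Icc ha.1.le le_rfl
    have h1 := image_norm_le_of_norm_deriv_right_le_deriv_boundary' (a := a) (b := 1)
      (f := fun ρ => I₀ ρ - I₀ a)
      (f' := fun ρ => ∫ w in ball (0 : E) 1, dbr β ((ρ : ℂ) • w) w * wt w ∂μ)
      (B := fun ρ => B ρ - B a) (B' := B') ((hcont.mono hsub).sub continuousOn_const)
      (fun x hx => ((hder x ⟨ha.1.trans_le hx.1, hx.2⟩).sub_const _).hasDerivWithinAt)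
      (by simp) ((hB.mono hsub).sub continuousOn_const)
      (fun x hx => ((hB' x ⟨ha.1.trans_le hx.1, hx.2⟩).sub_const _).hasDerivWithinAt)
      (fun x hx => (norm_integral_le_integral_norm _).trans (hbd x ⟨ha.1.trans_le hx.1, hx.2⟩))
      (right_mem_Icc.mpr ha.2.le)
    exact h1
  have hcl : (0 : ℝ) ∈ closure (Ioo (0 : ℝ) 1) := by
    rw [closure_Ioo zero_ne_one]
    exact left_mem_Icc.mpr zero_le_one
  have hne : (𝓝[Ioo (0 : ℝ) 1] 0).NeBot := mem_closure_iff_nhdsWithin_neBot.mp hcl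
  have hlim : ‖I₀ 1 - I₀ 0‖ ≤ B 1 - B 0 := by
    have h1 : Tendsto (fun a => ‖I₀ 1 - I₀ a‖) (𝓝[Ioo (0 : ℝ) 1] 0) (𝓝 ‖I₀ 1 - I₀ 0‖) := by
      apply Tendsto.norm
      apply Tendsto.sub tendsto_const_nhds
      exact (hcont 0 (left_mem_Icc.mpr zero_le_one)).mono_left
        (nhdsWithin_mono _ Ioo_subset_Icc_self)
    have h2 : Tendsto (fun a => B 1 - B a) (𝓝[Ioo (0 : ℝ) 1] 0) (𝓝 (B 1 - B 0)) := by
      apply Tendsto.sub tendsto_const_nhds
      exact (hB 0 (left_mem_Icc.mpr zero_le_one)).mono_left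
        (nhdsWithin_mono _ Ioo_subset_Icc_self)
    apply le_of_tendsto_of_tendsto h1 h2
    filter_upwards [self_mem_nhdsWithin] with a ha
    exact hmain a ha
  have e1 : I₀ 1 = ∫ w in ball (0 : E) 1, β w * wt w ∂μ := by
    rw [hI₀]; simp
  have e0 : I₀ 0 = (cw μ : ℂ) * β 0 := by
    rw [hI₀]
    simp only [Complex.ofReal_zero, zero_smul]
    rw [integral_const_mul, mul_comm]
    congr 1
    unfold wt cw
    rw [integral_complex_ofReal]
  rw [e1, e0] at hlim
  exact hlim

end Pool.Agent.MPca0fc2.VP
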