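import Mathlib
import Pool.Agent.Lib.MP_ca0fc2_an.VP2
import Pool.Agent.Lib.MP_ca0fc2_an.VP3
import Pool.Agent.Lib.MP_ca0fc2_an.Mg.G050

set_option autoImplicit false

open Metric Set Filter Topology MeasureTheory
open scoped InnerProductSpace ComplexConjugate

namespace Pool.Agent.MPca0fc2.VP

open Pool.Agent.MPca0fc2.SD
open Pool.Agent.MPca0fc2.SL
open Pool.Agent.Lib.MP_ca0fc2_an

section Dbr

variable {E : Type*} [NormedAddCommGroup E] [InnerProductSpace ℂ E]

theorem dbr_congr {f g : E → ℂ} {y : E} (h : f =ᶠ[𝓝 y] g) (w : E) : dbr f y w = dbr g y w := by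
  unfold dbr
  rw [h.fderiv_eq]

theorem dbr_hol {k : E → ℂ} {y : E} (hk : DifferentiableAt ℂ k y) (w : E) : dbr k y w = 0 := by
  have h1 : fderiv ℝ k y = (fderiv ℂ k y).restrictScalars ℝ := (hk.hasFDerivAt.restrictScalars ℝ).fderiv
  unfold dbr
  rw [h1]
  simp only [ContinuousLinearMap.coe_restrictScalars', map_smul, smul_eq_mul]
  linear_combination (fderiv ℂ k y w) * Complex.I_mul_I

theorem dbr_add {f g : E → ℂ} {y : E} (hf : DifferentiableAt ℝ f y) (hg : DifferentiableAt ℝ g y)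
    (w : E) : dbr (fun v => f v + g v) y w = dbr f y w + dbr g y w := by
  unfold dbr
  rw [fderiv_fun_add hf hg]
  simp only [add_apply]
  ring

theorem dbr_mul_hol {f k : E → ℂ} {y : E} (hf : DifferentiableAt ℝ f y)
    (hk : DifferentiableAt ℂ k y) (w : E) : dbr (fun v => f v * k v) y w = dbr f y w * k y := by
  have h1 : fderiv ℝ k y = (fderiv ℂ k y).restrictScalars ℝ := (hk.hasFDerivAt.restrictScalars ℝ).fderiv
  unfold dbr
  rw [fderiv_fun_mul hf (hk.restrictScalars ℝ), h1]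
  simp only [add_apply, smul_apply,
    ContinuousLinearMap.coe_restrictScalars', map_smul, smul_eq_mul]
  linear_combination (f y * fderiv ℂ k y w) * Complex.I_mul_I

theorem dbr_chi {χ : ℂ → ℝ} {g : E → ℂ} {y : E} (hχ : DifferentiableAt ℝ χ (g y))
    (hg : DifferentiableAt ℂ g y) (w : E) :
    ‖dbr (fun v => ((χ (g v) : ℝ) : ℂ)) y w‖ ≤ 2 * ‖fderiv ℝ χ (g y)‖ * ‖fderiv ℂ g y w‖ := by
  have h1 : HasFDerivAt g ((fderiv ℂ g y).restrictScalars ℝ) y := hg.hasFDerivAt.restrictScalars ℝ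
  have h2 : HasFDerivAt (fun v => ((χ (g v) : ℝ) : ℂ)) (Complex.ofRealCLM.comp
      ((fderiv ℝ χ (g y)).comp ((fderiv ℂ g y).restrictScalars ℝ))) y :=
    Complex.ofRealCLM.hasFDerivAt.comp y (hχ.hasFDerivAt.comp y h1)
  unfold dbr
  rw [h2.fderiv]
  simp only [ContinuousLinearMap.comp_apply, ContinuousLinearMap.coe_restrictScalars',
    Complex.ofRealCLM_apply, map_smul, smul_eq_mul]
  have h3 := (fderiv ℝ χ (g y)).le_opNorm (fderiv ℂ g y w)
  have h4 := (fderiv ℝ χ (g y)).le_opNorm (Complex.I * fderiv ℂ g y w)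
  rw [norm_mul, Complex.norm_I, one_mul] at h4
  refine (norm_add_le _ _).trans ?_
  rw [norm_mul, Complex.norm_I, one_mul, Complex.norm_real, Complex.norm_real]
  linarith

end Dbr

variable {E : Type*} [NormedAddCommGroup E] [InnerProductSpace ℂ E] [FiniteDimensional ℂ E]
  [MeasurableSpace E] [BorelSpace E]

omit [FiniteDimensional ℂ E] [MeasurableSpace E] [BorelSpace E] in
theorem norm_dn_le {e : E} (he : ‖e‖ = 1) {x : ℝ} (hx0 : 0 ≤ x) (hx : x < 1) {w : E}
    (hw : w ∈ ball (0 : E) 1) : ‖dn e x w‖ < 2 := by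
  have h1 := norm_inner_lt he hw
  rw [dn]
  refine (norm_add_le _ _).trans_lt ?_
  rw [norm_one, norm_mul, Complex.norm_real, Real.norm_of_nonneg hx0]
  nlinarith [norm_nonneg ⟪e, w⟫_ℂ]

omit [FiniteDimensional ℂ E] [MeasurableSpace E] [BorelSpace E] in
theorem le_norm_dn {e : E} (he : ‖e‖ = 1) {x : ℝ} (hx0 : 0 ≤ x) {w : E} :
    1 - x * ‖w‖ ≤ ‖dn e x w‖ := by
  have h1 := norm_inner_le he w
  have h2 := norm_sub_norm_le (1 : ℂ) (-((x : ℂ) * ⟪e, w⟫_ℂ))
  rw [norm_one, norm_neg, norm_mul, Complex.norm_real, Real.norm_of_nonneg hx0,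
    sub_neg_eq_add] at h2
  rw [dn]
  nlinarith

omit [FiniteDimensional ℂ E] [MeasurableSpace E] [BorelSpace E] in
theorem dn_diff (e : E) (x : ℝ) : Differentiable ℂ (dn e x : E → ℂ) := by
  unfold dn
  exact ((innerSL ℂ e).differentiable.const_mul _).const_add _

omit [MeasurableSpace E] [BorelSpace E] [FiniteDimensional ℂ E] in
theorem am_contDiffOn {e : E} (he : ‖e‖ = 1) {x : ℝ} (hx0 : 0 ≤ x) (hx : x < 1) :
    ContDiffOn ℝ 1 (am e x) (ball (0 : E) 1) := by
  have h1 : ContDiffOn ℂ 1 (fun w : E => (dn e x w)⁻¹ • ((⟪e, w⟫_ℂ + (x : ℂ)) • e +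
      ((√(1 - x ^ 2) : ℝ) : ℂ) • prj e w)) (ball 0 1) := by
    have hin : ContDiff ℂ 1 (fun w : E => ⟪e, w⟫_ℂ) := (innerSL ℂ e).contDiff
    have hdn : ContDiff ℂ 1 (dn e x : E → ℂ) := by
      unfold dn
      exact contDiff_const.add (contDiff_const.mul hin)
    apply ContDiffOn.smul
    · exact hdn.contDiffOn.inv fun w hw => dn_ne he hx0 hx hw
    · apply ContDiff.contDiffOn
      exact ((hin.add contDiff_const).smul contDiff_const).add
        (contDiff_const.smul (prj e).contDiff)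
  have h2 : am e x = fun w : E => (dn e x w)⁻¹ • ((⟪e, w⟫_ℂ + (x : ℂ)) • e +
      ((√(1 - x ^ 2) : ℝ) : ℂ) • prj e w) := funext fun w => am_eq e x w
  rw [h2]
  exact h1.restrict_scalars ℝ

/-- The main estimate: a function is close to its projection if the conjugate derivatives are
small on the shells. -/
theorem pp_est (μ : Measure E) [μ.IsAddHaarMeasure] (m : ℕ) (hm : 1 ≤ m)
    (hdim : Module.finrank ℂ E = m + 1) : ∃ C₁ : ℝ, 0 < C₁ ∧ ∀ (e : E) (x : ℝ) (F : E → ℂ) (A CF : ℝ)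
      (c : ℕ → ℝ) (K : ℕ), ‖e‖ = 1 → 0 ≤ x → x < 1 → 0 ≤ A → (∀ k, 0 ≤ c k) →
      (1 / 2) ^ (K + 1) < (1 - x ^ 2) / 4 → ContDiffOn ℝ 1 F (ball 0 1) →
      (∀ v ∈ ball (0 : E) 1, ‖F v‖ ≤ CF) →
      (∀ y ∈ ball (0 : E) 1, ∀ w ∈ ball (0 : E) 1, ∀ k : ℕ,
        (1 / 2) ^ (k + 1) < (1 - x ^ 2) / (2 * ‖dn e x y‖) →
        (1 - x ^ 2) / (2 * ‖dn e x y‖) ≤ (1 / 2) ^ k →
        ‖dbr (fun v => F (am e x v)) y w‖ ≤ A * c k * ‖dn e x y‖ / (1 - ‖y‖ ^ 2) ^ 2) →
      ‖F ((x : ℂ) • e) - PP μ m F ((x : ℂ) • e)‖ ≤ C₁ * A * ∑ k ∈ Finset.range (K + 1), c k := by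
  have hcw := cw_pos μ
  have hprop : ProperSpace E := FiniteDimensional.proper ℂ E
  have hfin : IsFiniteMeasure (μ.restrict (ball (0 : E) 1)) :=
    ⟨by rw [Measure.restrict_apply_univ]; exact measure_ball_lt_top⟩
  have hμB : 0 < μ.real (ball (0 : E) 1) := by
    rw [measureReal_def, ENNReal.toReal_pos_iff]
    exact ⟨isOpen_ball.measure_pos μ ⟨0, mem_ball_self one_pos⟩, measure_ball_lt_top⟩
  obtain ⟨Cv, hCv⟩ : ∃ Cv : ℝ, Cv = 2 ^ (m + 3) * (4 ^ (m + 2) * μ.real (ball (0 : E) 1)) := ⟨_, rfl⟩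
  have hCv0 : 0 < Cv := by rw [hCv]; positivity
  refine ⟨(cw μ)⁻¹ * (4 * Cv), by positivity, ?_⟩
  intro e x F A CF c K he hx0 hx hA hc hK hF hFb hdb
  obtain ⟨t, ht⟩ : ∃ t : ℝ, t = 1 - x ^ 2 := ⟨_, rfl⟩
  rw [← ht] at hK hdb
  have ht0 : 0 < t := by rw [ht]; nlinarith
  have hmap : MapsTo (am e x) (ball (0 : E) 1) (ball 0 1) := fun w hw => am_mem he hx0 hx hw
  have hdlow : ∀ w ∈ ball (0 : E) 1, 1 - x ≤ ‖dn e x w‖ := by
    intro w hw
    have h1 := le_norm_dn he hx0 (w := w)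
    rw [mem_ball_zero_iff] at hw
    nlinarith [norm_nonneg w]
  have hx1 : 0 < 1 - x := by linarith
  -- the function in the coordinates
  obtain ⟨β, hβ⟩ : ∃ β : E → ℂ, β = fun v => F (am e x v) * ((dn e x v) ^ (m + 4))⁻¹ := ⟨_, rfl⟩
  have hk : ∀ y ∈ ball (0 : E) 1, DifferentiableAt ℂ (fun v : E => ((dn e x v) ^ (m + 4))⁻¹) y := by
    intro y hy
    exact (((dn_diff e x) y).pow (m + 4)).inv (pow_ne_zero _ (dn_ne he hx0 hx hy))
  have hFam : ContDiffOn ℝ 1 (fun v => F (am e x v)) (ball (0 : E) 1) :=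
    hF.comp (am_contDiffOn he hx0 hx) hmap
  have hβC : ContDiffOn ℝ 1 β (ball 0 1) := by
    rw [hβ]
    apply hFam.mul
    apply hol_contDiffOn isOpen_ball
    intro y hy
    exact (hk y hy).differentiableWithinAt
  have hβb : ∀ w ∈ ball (0 : E) 1, ‖β w‖ ≤ CF * ((1 - x) ^ (m + 4))⁻¹ := by
    intro w hw
    rw [hβ]
    simp only
    rw [norm_mul, norm_inv, norm_pow]
    have h1 := hFb _ (hmap hw)
    have h2 := hdlow w hw
    have h3 : 0 ≤ CF := (norm_nonneg _).trans h1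
    gcongr
  have hβ0 : β 0 = F ((x : ℂ) • e) := by
    rw [hβ]
    simp only [am_zero]
    rw [dn, inner_zero_right, mul_zero, add_zero, one_pow, inv_one, mul_one]
  -- the majorant
  obtain ⟨τ, hτ⟩ : ∃ τ : ℕ → ℝ, τ = fun k => t * 2 ^ k := ⟨_, rfl⟩
  have hτ0 : ∀ k, 0 < τ k := fun k => by rw [hτ]; positivity
  obtain ⟨B, hB⟩ : ∃ B : ℝ → ℝ, B = fun ρ => ∑ k ∈ Finset.range (K + 1),
      Cv * A * c k * (4 / (1 + (1 - ρ) / τ k)) := ⟨_, rfl⟩
  obtain ⟨B', hB'⟩ : ∃ B' : ℝ → ℝ, B' = fun ρ => ∑ k ∈ Finset.range (K + 1),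
      Cv * A * c k * (4 * (1 / τ k) / (1 + (1 - ρ) / τ k) ^ 2) := ⟨_, rfl⟩
  have hden : ∀ k, ∀ ρ ≤ (1 : ℝ), 0 < 1 + (1 - ρ) / τ k := by
    intro k ρ hρ
    have := hτ0 k
    have h1 : 0 ≤ (1 - ρ) / τ k := div_nonneg (by linarith) this.le
    linarith
  have hBd : ∀ ρ ≤ (1 : ℝ), HasDerivAt B (B' ρ) ρ := by
    intro ρ hρ
    rw [hB, hB']
    apply HasDerivAt.fun_sum
    intro k _
    apply HasDerivAt.const_mul
    have h1 : HasDerivAt (fun ρ : ℝ => 1 + (1 - ρ) / τ k) (-1 / τ k) ρ := by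
      exact (((hasDerivAt_id ρ).const_sub 1).div_const (τ k)).const_add 1
    have h2 := (h1.inv (hden k ρ hρ).ne').const_mul 4
    have h3 : (fun ρ : ℝ => 4 / (1 + (1 - ρ) / τ k)) = fun ρ => 4 * (1 + (1 - ρ) / τ k)⁻¹ := by
      funext ρ; rw [div_eq_mul_inv]
    rw [h3]
    exact h2.congr_deriv (by ring)
  have hBc : ContinuousOn B (Icc 0 1) := fun ρ hρ =>
    (hBd ρ hρ.2).continuousAt.continuousWithinAt
  have hbd : ∀ ρ ∈ Ioo (0 : ℝ) 1, ∫ w in ball (0 : E) 1, ‖dbr β ((ρ : ℂ) • w) w * wt w‖ ∂μ ≤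
      B' ρ := by
    intro ρ hρ
    obtain ⟨S, hS⟩ : ∃ S : ℕ → Set E, S = fun k => {w | ‖dn e x ((ρ : ℂ) • w)‖ < τ k} := ⟨_, rfl⟩
    have hSo : ∀ k, MeasurableSet (S k) := by
      intro k
      rw [hS]
      apply IsOpen.measurableSet
      apply isOpen_lt _ continuous_const
      exact (((dn_diff e x).continuous).comp (continuous_const_smul (ρ : ℂ))).norm
    have hvol : ∀ k, (μ.restrict (ball 0 1)).real (S k) ≤
        4 ^ (m + 2) * μ.real (ball 0 1) * τ k ^ (m + 2) := by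
      intro k
      have h1 := vol_est μ m hm hdim (z := (-((ρ * x : ℝ) : ℂ)) • e) (τ := τ k) (by
        rw [norm_smul, norm_neg, Complex.norm_real, he, mul_one,
          Real.norm_of_nonneg (mul_nonneg hρ.1.le hx0)]
        nlinarith [hρ.1, hρ.2]) (hτ0 k)
      have h2 : {w : E | ‖1 - ⟪w, (-((ρ * x : ℝ) : ℂ)) • e⟫_ℂ‖ < τ k} = S k := by
        rw [hS]
        ext w
        simp only [Set.mem_ofPred_eq]
        have h3 : 1 - ⟪w, (-((ρ * x : ℝ) : ℂ)) • e⟫_ℂ = conj (dn e x ((ρ : ℂ) • w)) := by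
          rw [dn, inner_smul_right, inner_smul_right, map_add, map_mul, map_mul, map_one,
            Complex.conj_ofReal, Complex.conj_ofReal, inner_conj_symm]
          push_cast
          ring
        rw [h3, RCLike.norm_conj]
      rw [h2] at h1
      exact h1
    have hempty : ∀ k, τ k ≤ 1 - ρ → (μ.restrict (ball 0 1)).real (S k) = 0 := by
      intro k hk'
      rw [measureReal_restrict_apply (hSo k)]
      have : S k ∩ ball (0 : E) 1 = ∅ := by
        rw [Set.eq_empty_iff_forall_notMem]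
        rintro w ⟨hw1, hw2⟩
        rw [hS] at hw1
        have h1 : ‖dn e x ((ρ : ℂ) • w)‖ < τ k := hw1
        have h2 := le_norm_dn he hx0 (w := (ρ : ℂ) • w)
        rw [norm_smul, Complex.norm_real, Real.norm_of_nonneg hρ.1.le] at h2
        rw [mem_ball_zero_iff] at hw2
        have h3 : x * (ρ * ‖w‖) ≤ ρ := by
          have : ρ * ‖w‖ ≤ ρ := by nlinarith [hρ.1]
          have h4 : 0 ≤ ρ * ‖w‖ := mul_nonneg hρ.1.le (norm_nonneg _)
          nlinarith
        linarith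
      rw [this, measureReal_empty]
    obtain ⟨a, ha⟩ : ∃ a : ℕ → ℝ, a = fun k => A * c k * (2 / τ k) ^ (m + 3) := ⟨_, rfl⟩
    have ha0 : ∀ k, 0 ≤ a k := by
      intro k
      rw [ha]
      have := hτ0 k
      have := hc k
      positivity
    have hpt : ∀ w ∈ ball (0 : E) 1, ‖dbr β ((ρ : ℂ) • w) w * wt w‖ ≤
        ∑ k ∈ Finset.range (K + 1), (S k).indicator (fun _ => a k) w := by
      intro w hw
      obtain ⟨y, hy⟩ : ∃ y : E, y = (ρ : ℂ) • w := ⟨_, rfl⟩
      rw [← hy]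
      have hyw : ‖y‖ ≤ ‖w‖ := by
        rw [hy, norm_smul, Complex.norm_real, Real.norm_of_nonneg hρ.1.le]
        nlinarith [norm_nonneg w, hρ.2]
      have hw1 : ‖w‖ < 1 := mem_ball_zero_iff.mp hw
      have hyb : y ∈ ball (0 : E) 1 := mem_ball_zero_iff.mpr (hyw.trans_lt hw1)
      obtain ⟨Dd, hDd⟩ : ∃ Dd, Dd = ‖dn e x y‖ := ⟨_, rfl⟩
      have hD0 : 0 < Dd := by rw [hDd]; exact norm_pos_iff.mpr (dn_ne he hx0 hx hyb)
      have hD2 : Dd < 2 := by rw [hDd]; exact norm_dn_le he hx0 hx hyb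
      have hD1 : 1 - x ≤ Dd := by rw [hDd]; exact hdlow y hyb
      have hT0 : 0 < t / (2 * Dd) := by positivity
      have hT1 : t / (2 * Dd) ≤ 1 := by
        rw [div_le_one (by positivity), ht]
        nlinarith
      obtain ⟨k, hk1, hk2⟩ := exists_nat_pow_near_of_lt_one hT0 hT1 (y := (1 / 2 : ℝ))
        (by norm_num) (by norm_num)
      have hkK : k ∈ Finset.range (K + 1) := by
        rw [Finset.mem_range]
        by_contra hcon
        have h1 : (1 / 2 : ℝ) ^ k ≤ (1 / 2) ^ (K + 1) :=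
          pow_le_pow_of_le_one (by norm_num) (by norm_num) (by omega)
        have h2 : t / 4 < t / (2 * Dd) := by
          apply div_lt_div_of_pos_left ht0 (by positivity)
          linarith
        linarith
      have h2k : (1 / 2 : ℝ) ^ k * 2 ^ k = 1 := by rw [← mul_pow]; norm_num
      have hDlt : Dd < τ k := by
        rw [lt_div_iff₀ (by positivity)] at hk1
        rw [hτ]
        simp only
        rw [pow_succ] at hk1
        have h1 : (1 / 2 : ℝ) ^ k * (1 / 2) * (2 * Dd) * 2 ^ k < t * 2 ^ k := by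
          apply mul_lt_mul_of_pos_right hk1 (by positivity)
        have h2 : (1 / 2 : ℝ) ^ k * (1 / 2) * (2 * Dd) * 2 ^ k = ((1 / 2 : ℝ) ^ k * 2 ^ k) * Dd := by
          ring
        rw [h2, h2k, one_mul] at h1
        exact h1
      have hDge : τ k / 2 ≤ Dd := by
        rw [div_le_iff₀ (by positivity)] at hk2
        rw [hτ]
        simp only
        have h1 : t * 2 ^ k ≤ (1 / 2 : ℝ) ^ k * (2 * Dd) * 2 ^ k := by gcongr
        have h2 : (1 / 2 : ℝ) ^ k * (2 * Dd) * 2 ^ k = ((1 / 2 : ℝ) ^ k * 2 ^ k) * (2 * Dd) := by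
          ring
        rw [h2, h2k, one_mul] at h1
        linarith
      have hwS : w ∈ S k := by
        rw [hS]
        show ‖dn e x ((ρ : ℂ) • w)‖ < τ k
        rw [← hy, ← hDd]; exact hDlt
      have hle : a k ≤ ∑ k ∈ Finset.range (K + 1), (S k).indicator (fun _ => a k) w := by
        have h1 := Finset.single_le_sum (f := fun k => (S k).indicator (fun _ => a k) w)
          (fun j _ => Set.indicator_nonneg (fun _ _ => ha0 j) w) hkK
        simp only [Set.indicator_of_mem hwS] at h1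
        exact h1
      refine le_trans ?_ hle
      have hdβ : dbr β y w = dbr (fun v => F (am e x v)) y w * ((dn e x y) ^ (m + 4))⁻¹ := by
        rw [hβ]
        apply dbr_mul_hol _ (hk y hyb)
        exact (hFam.differentiableOn one_ne_zero).differentiableAt (isOpen_ball.mem_nhds hyb)
      rw [hdβ, norm_mul, norm_mul, norm_inv, norm_pow, ← hDd]
      have h3 := hdb y hyb w hw k (by rw [← hDd]; exact hk1) (by rw [← hDd]; exact hk2)
      rw [← hDd] at h3
      have hy1 : 0 < 1 - ‖y‖ ^ 2 := by nlinarith [norm_nonneg y]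
      have hwt : ‖wt w‖ ≤ (1 - ‖y‖ ^ 2) ^ 2 := by
        rw [wt, Complex.norm_real, Real.norm_of_nonneg (by positivity)]
        apply pow_le_pow_left₀
        · nlinarith [norm_nonneg w]
        · nlinarith [norm_nonneg w, norm_nonneg y]
      have hck := hc k
      have h4 : (Dd)⁻¹ ≤ 2 / τ k := by
        rw [inv_le_comm₀ hD0 (by have := hτ0 k; positivity), inv_div]
        exact hDge
      calc ‖dbr (fun v => F (am e x v)) y w‖ * (Dd ^ (m + 4))⁻¹ * ‖wt w‖
          ≤ (A * c k * Dd / (1 - ‖y‖ ^ 2) ^ 2) * (Dd ^ (m + 4))⁻¹ * (1 - ‖y‖ ^ 2) ^ 2 := by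
            gcongr
        _ = A * c k * (Dd * (Dd ^ (m + 4))⁻¹) * ((1 - ‖y‖ ^ 2) ^ 2 / (1 - ‖y‖ ^ 2) ^ 2) := by ring
        _ = A * c k * (Dd⁻¹) ^ (m + 3) := by
            have h5 : Dd * (Dd ^ (m + 4))⁻¹ = (Dd⁻¹) ^ (m + 3) := by
              rw [pow_succ Dd (m + 3), mul_inv, inv_pow, mul_comm (Dd ^ (m + 3))⁻¹, ← mul_assoc,
                mul_inv_cancel₀ hD0.ne', one_mul]
            rw [h5, div_self (pow_ne_zero 2 hy1.ne'), mul_one]
        _ ≤ A * c k * (2 / τ k) ^ (m + 3) := by gcongr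
        _ = a k := by rw [ha]
    have h1 : ∫ w in ball (0 : E) 1, ‖dbr β ((ρ : ℂ) • w) w * wt w‖ ∂μ ≤
        ∫ w in ball (0 : E) 1, ∑ k ∈ Finset.range (K + 1), (S k).indicator (fun _ => a k) w ∂μ := by
      apply integral_mono_of_nonneg
      · exact Eventually.of_forall fun w => norm_nonneg _
      · apply integrable_finsetSum
        intro k _
        exact (integrable_const (a k)).indicator (hSo k)
      · exact (ae_restrict_iff' measurableSet_ball).mpr (Eventually.of_forall hpt)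
    refine h1.trans ?_
    rw [integral_finsetSum _ (fun k _ => (integrable_const (a k)).indicator (hSo k)), hB']
    apply Finset.sum_le_sum
    intro k _
    rw [integral_indicator_const _ (hSo k), smul_eq_mul]
    have hτk := hτ0 k
    have hck := hc k
    have hd := hden k ρ hρ.2.le
    rcases le_or_gt (τ k) (1 - ρ) with h2 | h2
    · rw [hempty k h2, zero_mul]
      positivity
    · have h3 : Cv * A * c k * (1 / τ k) ≤
          Cv * A * c k * (4 * (1 / τ k) / (1 + (1 - ρ) / τ k) ^ 2) := by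
        have h4 : (1 + (1 - ρ) / τ k) ^ 2 ≤ 4 := by
          have h5 : (1 - ρ) / τ k ≤ 1 := by rw [div_le_one hτk]; exact h2.le
          have h6 : 1 + (1 - ρ) / τ k ≤ 2 := by linarith
          calc (1 + (1 - ρ) / τ k) ^ 2 ≤ 2 ^ 2 := pow_le_pow_left₀ hd.le h6 2
            _ = 4 := by norm_num
        have h5 : 1 / τ k ≤ 4 * (1 / τ k) / (1 + (1 - ρ) / τ k) ^ 2 := by
          rw [le_div_iff₀ (by positivity)]
          have : 0 < 1 / τ k := by positivity
          nlinarith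
        gcongr
      refine le_trans ?_ h3
      calc (μ.restrict (ball 0 1)).real (S k) * a k
          ≤ (4 ^ (m + 2) * μ.real (ball 0 1) * τ k ^ (m + 2)) * a k :=
            mul_le_mul_of_nonneg_right (hvol k) (ha0 k)
        _ = Cv * A * c k * (1 / τ k) := by
            have h6 : τ k ^ (m + 2) * (2 / τ k) ^ (m + 3) = 2 ^ (m + 3) * (1 / τ k) := by
              rw [div_pow, pow_succ (τ k) (m + 2)]
              field_simp
            rw [ha, hCv]
            calc _ = 4 ^ (m + 2) * μ.real (ball 0 1) * (A * c k) *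
                  (τ k ^ (m + 2) * (2 / τ k) ^ (m + 3)) := by ring
              _ = _ := by rw [h6]; ring
  -- conclusion
  have hme := mean_est μ hβC hβb hBc (fun ρ hρ => hBd ρ hρ.2.le) hbd
  have hPP : PP μ m F ((x : ℂ) • e) = (cw μ : ℂ)⁻¹ * ∫ w in ball (0 : E) 1, β w * wt w ∂μ := by
    rw [PP_am μ he hx0 hx m hdim]
    congr 1
    apply setIntegral_congr_fun measurableSet_ball
    intro w _
    rw [hβ]
    simp only [wt]
    ring
  have hcw0 : (cw μ : ℂ) ≠ 0 := by exact_mod_cast hcw.ne'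
  have e1 : F ((x : ℂ) • e) - PP μ m F ((x : ℂ) • e) = -((cw μ : ℂ)⁻¹ *
      ((∫ w in ball (0 : E) 1, β w * wt w ∂μ) - (cw μ : ℂ) * β 0)) := by
    rw [hPP, ← hβ0]
    field_simp
    ring
  rw [e1, norm_neg, norm_mul, norm_inv, Complex.norm_real, Real.norm_of_nonneg hcw.le]
  have hBB : B 1 - B 0 ≤ 4 * Cv * A * ∑ k ∈ Finset.range (K + 1), c k := by
    have h1 : B 1 = 4 * Cv * A * ∑ k ∈ Finset.range (K + 1), c k := by
      rw [hB, Finset.mul_sum]
      apply Finset.sum_congr rfl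
      intro k _
      rw [sub_self, zero_div, add_zero, div_one]
      ring
    have h2 : 0 ≤ B 0 := by
      rw [hB]
      apply Finset.sum_nonneg
      intro k _
      have := hc k
      have := hden k 0 zero_le_one
      positivity
    linarith
  calc _ ≤ (cw μ)⁻¹ * (4 * Cv * A * ∑ k ∈ Finset.range (K + 1), c k) := by
        gcongr
        exact hme.trans hBB
    _ = _ := by ring

end Pool.Agent.MPca0fc2.VP
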