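import Mathlib
import Pool.Agent.Lib.MP_ca0fc2_an.VP4
import Pool.Agent.Lib.MP_ca0fc2_an.VLMain
import Pool.Agent.Lib.MP_ca0fc2_an.MXPre
import Pool.Agent.Lib.MP_ca0fc2_an.SDFin

set_option autoImplicit false

open Metric Set Filter Topology MeasureTheory
open scoped InnerProductSpace ComplexConjugate

namespace Pool.Agent.MPca0fc2.VP

open Pool.Agent.MPca0fc2.SD
open Pool.Agent.MPca0fc2.SL
open Pool.Agent.MPca0fc2.VL (Mod half_mem)
open Pool.Agent.Lib.MP_ca0fc2_an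

variable {E : Type*} [NormedAddCommGroup E] [InnerProductSpace ℂ E]

theorem Mod.le_of_le {ω : ℝ → ℝ} (hω : Mod ω) {s t c : ℝ} (hs : 0 < s) (ht : t ≤ 1) (hst : s ≤ t)
    (hc : t ≤ c * s) : ω s ≤ c * ω t ∧ ω t ≤ c * ω s := by
  have ht0 : 0 < t := hs.trans_le hst
  have h1 := hω.2 s ⟨hs, hst.trans ht⟩ t ⟨ht0, ht⟩ hst
  have h2 : (t / s) ^ (1 / 8 : ℝ) ≤ c := by
    have h3 : (1 : ℝ) ≤ t / s := by rw [le_div_iff₀ hs]; linarith
    calc (t / s) ^ (1 / 8 : ℝ) ≤ (t / s) ^ (1 : ℝ) :=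
          Real.rpow_le_rpow_of_exponent_le h3 (by norm_num)
      _ = t / s := Real.rpow_one _
      _ ≤ c := by rw [div_le_iff₀ hs]; exact hc
  have h4 := hω.1 s ⟨hs, hst.trans ht⟩
  have h5 := hω.1 t ⟨ht0, ht⟩
  constructor
  · calc ω s ≤ _ := h1.1
      _ ≤ ω t * c := by gcongr
      _ = _ := mul_comm _ _
  · calc ω t ≤ _ := h1.2
      _ ≤ ω s * c := by gcongr
      _ = _ := mul_comm _ _

/-- geometry of the automorphism -/
theorem am_geo {e : E} (he : ‖e‖ = 1) {x : ℝ} (hx0 : 0 ≤ x) (hx : x < 1) {y y' : E}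
    (hy : y ∈ ball (0 : E) 1) (hyy : y' ∈ ball y ((1 - ‖y‖) / 2)) :
    y' ∈ ball (0 : E) 1 ∧ (1 - ‖am e x y‖ ^ 2) / 9 ≤ 1 - ‖am e x y'‖ ^ 2 ∧
      ‖1 - ⟪am e x y, am e x y'⟫_ℂ‖ ≤ 3 * (1 - ‖am e x y‖ ^ 2) := by
  rw [mem_ball_zero_iff] at hy
  rw [mem_ball, dist_eq_norm] at hyy
  have hy' : ‖y'‖ ≤ ‖y‖ + (1 - ‖y‖) / 2 := by
    have := norm_le_insert' y' y
    linarith
  have hyb : y ∈ ball (0 : E) 1 := mem_ball_zero_iff.mpr hy
  have hyb' : y' ∈ ball (0 : E) 1 := mem_ball_zero_iff.mpr (by linarith)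
  have hD := norm_pos_iff.mpr (dn_ne he hx0 hx hyb)
  have hD' := norm_pos_iff.mpr (dn_ne he hx0 hx hyb')
  have hDl : 1 - ‖y‖ ≤ ‖dn e x y‖ := by
    have := le_norm_dn he hx0 (w := y)
    nlinarith only [norm_nonneg y, this, hx, hx0]
  have hdd : ‖dn e x y' - dn e x y‖ ≤ ‖dn e x y‖ / 2 := by
    have e1 : dn e x y' - dn e x y = (x : ℂ) * ⟪e, y' - y⟫_ℂ := by
      rw [dn, dn, inner_sub_right]; ring
    rw [e1, norm_mul, Complex.norm_real, Real.norm_of_nonneg hx0]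
    have h1 := norm_inner_le he (y' - y)
    have h2 := norm_nonneg ⟪e, y' - y⟫_ℂ
    nlinarith only [h1, h2, hx, hx0, hyy, hDl]
  have hDu : ‖dn e x y'‖ ≤ 3 / 2 * ‖dn e x y‖ := by
    have := norm_le_insert' (dn e x y') (dn e x y)
    linarith
  have hDd : 1 / 2 * ‖dn e x y‖ ≤ ‖dn e x y'‖ := by
    have := norm_le_insert (dn e x y') (dn e x y)
    linarith
  obtain ⟨D, hDe⟩ : ∃ D, D = ‖dn e x y‖ := ⟨_, rfl⟩
  obtain ⟨D', hDe'⟩ : ∃ D', D' = ‖dn e x y'‖ := ⟨_, rfl⟩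
  have ht : 0 < 1 - x ^ 2 := by nlinarith only [hx0, hx]
  refine ⟨hyb', ?_, ?_⟩
  · rw [am_norm he hx0 hx hyb, am_norm he hx0 hx hyb', ← hDe, ← hDe']
    rw [← hDe] at hD hDu
    rw [← hDe'] at hDu hD'
    rw [div_div, div_le_div_iff₀ (by positivity) (by positivity)]
    have h1 : 1 - ‖y‖ ^ 2 ≤ 4 * (1 - ‖y'‖ ^ 2) := by
      nlinarith only [norm_nonneg y, norm_nonneg y', hy, hy']
    have h2 : D' ^ 2 ≤ (3 / 2 * D) ^ 2 := pow_le_pow_left₀ hD'.le hDu 2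
    have h3 : 0 ≤ 1 - ‖y‖ ^ 2 := by nlinarith only [norm_nonneg y, hy]
    calc (1 - x ^ 2) * (1 - ‖y‖ ^ 2) * D' ^ 2 ≤
          (1 - x ^ 2) * (4 * (1 - ‖y'‖ ^ 2)) * (3 / 2 * D) ^ 2 := by
            have h4 : 0 ≤ 1 - ‖y'‖ ^ 2 := by linarith
            gcongr
      _ = (1 - x ^ 2) * (1 - ‖y'‖ ^ 2) * (D ^ 2 * 9) := by ring
  · rw [am_inner he hx0 hx hyb hyb', norm_div, norm_mul, norm_mul, RCLike.norm_conj,
      Complex.norm_real, Real.norm_of_nonneg ht.le, am_norm he hx0 hx hyb, ← hDe, ← hDe']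
    rw [← hDe] at hD hDd
    rw [← hDe'] at hDd hD'
    have h1 : ‖1 - ⟪y, y'⟫_ℂ‖ ≤ 3 / 2 * (1 - ‖y‖ ^ 2) := by
      have e1 : 1 - ⟪y, y'⟫_ℂ = ((1 - ‖y‖ ^ 2 : ℝ) : ℂ) - ⟪y, y' - y⟫_ℂ := by
        rw [inner_sub_right, inner_self_eq_norm_sq_to_K]
        push_cast
        change _ = 1 - ((‖y‖ : ℂ)) ^ 2 - (⟪y, y'⟫_ℂ - ((‖y‖ : ℂ)) ^ 2)
        ring
      have h3 : 0 ≤ 1 - ‖y‖ ^ 2 := by nlinarith only [norm_nonneg y, hy]
      rw [e1]
      refine (norm_sub_le _ _).trans ?_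
      rw [Complex.norm_real, Real.norm_of_nonneg h3]
      have h4 := norm_inner_le_norm (𝕜 := ℂ) y (y' - y)
      have h5 : ‖y‖ * ‖y' - y‖ ≤ (1 - ‖y‖) / 2 := by
        nlinarith only [norm_nonneg y, norm_nonneg (y' - y), hy, hyy]
      nlinarith only [norm_nonneg y, h4, h5, hy]
    rw [div_le_iff₀ (by positivity)]
    have h2 : 0 ≤ 1 - ‖y‖ ^ 2 := by nlinarith only [norm_nonneg y, hy]
    calc (1 - x ^ 2) * ‖1 - ⟪y, y'⟫_ℂ‖ ≤ (1 - x ^ 2) * (3 / 2 * (1 - ‖y‖ ^ 2)) := by gcongr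
      _ = 3 * ((1 - x ^ 2) * (1 - ‖y‖ ^ 2) / D ^ 2) * (D * (1 / 2 * D)) := by
          field_simp
      _ ≤ 3 * ((1 - x ^ 2) * (1 - ‖y‖ ^ 2) / D ^ 2) * (D * D') := by gcongr

/-- the estimate of the composed function -/
theorem G_est {ω : ℝ → ℝ} (hω : Mod ω) {g : E → ℂ} (hg : DifferentiableOn ℂ g (ball 0 1))
    (hgr : ∀ z ∈ ball (0 : E) 1, (1 - ‖z‖) * ‖fderiv ℂ g z‖ ≤ ω (1 - ‖z‖))
    {e : E} (he : ‖e‖ = 1) {x r : ℝ} (hx0 : 0 ≤ x) (hx : x < 1) (hr0 : 0 ≤ r) (hr : r < 1)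
    (hrx : 1 - r ≤ 1 - x ^ 2) {y w : E} (hy : y ∈ ball (0 : E) 1) (hw : w ∈ ball (0 : E) 1) {k : ℕ}
    (hk1 : (1 / 2) ^ (k + 1) < (1 - x ^ 2) / (2 * ‖dn e x y‖))
    (hk2 : (1 - x ^ 2) / (2 * ‖dn e x y‖) ≤ (1 / 2) ^ k) :
    ‖fderiv ℂ (fun v => g ((r : ℂ) • am e x v)) y w‖ ≤
      10 ^ 10 * ω ((1 / 2) ^ k) * ‖dn e x y‖ / (1 - ‖y‖ ^ 2) ^ 2 := by
  have hslow := hω.slow
  have hgrad := hω.grad hg hgr
  obtain ⟨h, hh⟩ : ∃ h, h = 1 - ‖am e x y‖ ^ 2 := ⟨_, rfl⟩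
  have hvb := am_mem he hx0 hx hy
  have hv1 : ‖am e x y‖ < 1 := mem_ball_zero_iff.mp hvb
  have hh0 : 0 < h := by rw [hh]; nlinarith only [norm_nonneg (am e x y), hv1]
  have hh1 : h ≤ 1 := by rw [hh]; linarith only [sq_nonneg ‖am e x y‖]
  obtain ⟨H, hH⟩ : ∃ H, H = max h (1 - r) := ⟨_, rfl⟩
  have hHh : h ≤ H := by rw [hH]; exact le_max_left _ _
  have hHr : 1 - r ≤ H := by rw [hH]; exact le_max_right _ _
  have hH0 : 0 < H := hh0.trans_le hHh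
  have hH1 : H ≤ 1 := by rw [hH]; exact max_le hh1 (by linarith)
  obtain ⟨j, hj1, hj2⟩ := exists_nat_pow_near_of_lt_one (show 0 < H / 18 by positivity)
    (by linarith) (y := (1 / 2 : ℝ)) (by norm_num) (by norm_num)
  -- use the index j + 1
  have hjj : (1 / 2 : ℝ) ^ (j + 1) * 2 = (1 / 2) ^ j := by rw [pow_succ]; ring
  have hωj : ω ((1 / 2) ^ (j + 1)) ≤ 36 * ω H := by
    apply (Mod.le_of_le hω (half_pow_pos _) hH1 (by linarith) _).1
    linarith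
  have hbd : ∀ y' ∈ ball y ((1 - ‖y‖) / 2),
      ‖g ((r : ℂ) • am e x y') - g ((r : ℂ) • am e x y)‖ ≤ 2100 * 183 * (36 * ω H) := by
    intro y' hy'
    obtain ⟨g1, g2, g3⟩ := am_geo he hx0 hx hy hy'
    have hvb' := am_mem he hx0 hx g1
    have hv1' : ‖am e x y'‖ < 1 := mem_ball_zero_iff.mp hvb'
    rw [← hh] at g2 g3
    have hnr : ∀ u : E, ‖(r : ℂ) • u‖ = r * ‖u‖ := by
      intro u; rw [norm_smul, Complex.norm_real, Real.norm_of_nonneg hr0]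
    have hp : ∀ u : E, ‖u‖ < 1 → h / 9 ≤ 1 - ‖u‖ ^ 2 → ‖(r : ℂ) • u‖ ≤ rr (j + 1) := by
      intro u hu hu2
      rw [hnr, rr]
      have h1 : H / 18 ≤ 1 - r * ‖u‖ := by
        rw [hH]
        rcases max_cases h (1 - r) with ⟨h2, -⟩ | ⟨h2, -⟩
        · rw [h2]; nlinarith only [norm_nonneg u, hu, hu2, hr, hr0, hh0]
        · rw [h2]; nlinarith only [norm_nonneg u, hu, hr, hr0]
      linarith
    have h1 := osc_pt hslow hgrad (j := j + 1) (by omega) (A := 180) (by norm_num)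
      (p := (r : ℂ) • am e x y') (p' := (r : ℂ) • am e x y) (hp _ hv1' g2)
      (hp _ hv1 (by rw [← hh]; linarith)) (by
        have e1 : 1 - ⟪(r : ℂ) • am e x y', (r : ℂ) • am e x y⟫_ℂ =
            ((1 - r ^ 2 : ℝ) : ℂ) + ((r ^ 2 : ℝ) : ℂ) * (1 - ⟪am e x y', am e x y⟫_ℂ) := by
          rw [inner_smul_left, inner_smul_right, Complex.conj_ofReal]
          push_cast
          ring
        have h2 : ‖1 - ⟪am e x y', am e x y⟫_ℂ‖ ≤ 3 * h := by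
          have h3 : (starRingEnd ℂ) (1 - ⟪am e x y, am e x y'⟫_ℂ) = 1 - ⟪am e x y', am e x y⟫_ℂ := by
            rw [map_sub, map_one, inner_conj_symm]
          rw [← h3, RCLike.norm_conj]
          exact g3
        rw [e1]
        refine (norm_add_le _ _).trans ?_
        rw [norm_mul, Complex.norm_real, Complex.norm_real,
          Real.norm_of_nonneg (by nlinarith only [hr, hr0] : (0 : ℝ) ≤ 1 - r ^ 2),
          Real.norm_of_nonneg (sq_nonneg r)]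
        have h4 : r ^ 2 * ‖1 - ⟪am e x y', am e x y⟫_ℂ‖ ≤ 3 * h := by
          have : r ^ 2 ≤ 1 := by nlinarith only [hr, hr0]
          exact (mul_le_of_le_one_left (norm_nonneg _) this).trans h2
        have h5 : 1 - r ^ 2 ≤ 2 * (1 - r) := by nlinarith only [hr, hr0]
        linarith)
    calc _ ≤ _ := h1
      _ ≤ 2100 * (180 + 3) * (36 * ω H) := by gcongr
      _ = _ := by ring
  -- the derivative
  have hy1 : ‖y‖ < 1 := mem_ball_zero_iff.mp hy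
  have hrad : 0 < (1 - ‖y‖) / 2 := by linarith
  have hGd : DifferentiableOn ℂ (fun v => g ((r : ℂ) • am e x v)) (ball 0 1) := by
    refine hg.comp (f := fun v => (r : ℂ) • am e x v) ((am_diff he hx0 hx).const_smul (r : ℂ)) ?_
    intro v hv
    have := mem_ball_zero_iff.mp (am_mem he hx0 hx hv)
    rw [mem_ball_zero_iff, norm_smul, Complex.norm_real, Real.norm_of_nonneg hr0]
    nlinarith only [norm_nonneg (am e x v), this, hr, hr0]
  have hsub : ball y ((1 - ‖y‖) / 2) ⊆ ball (0 : E) 1 := fun y' hy' => (am_geo he hx0 hx hy hy').1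
  have hfd := norm_fderiv_apply_le (f := fun v => g ((r : ℂ) • am e x v) - g ((r : ℂ) • am e x y))
    hrad ((hGd.mono hsub).sub_const _) hbd w
  rw [fderiv_sub_const] at hfd
  have hw1 : ‖w‖ < 1 := mem_ball_zero_iff.mp hw
  have hωH := (hω.1 H ⟨hH0, hH1⟩).le
  -- comparison with the shell
  obtain ⟨D, hD⟩ : ∃ D, D = ‖dn e x y‖ := ⟨_, rfl⟩
  have hD0 : 0 < D := by rw [hD]; exact norm_pos_iff.mpr (dn_ne he hx0 hx hy)
  have hD2 : D < 2 := by rw [hD]; exact norm_dn_le he hx0 hx hy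
  have hDl : 1 - ‖y‖ ≤ D := by
    rw [hD]
    have := le_norm_dn he hx0 (w := y)
    nlinarith only [norm_nonneg y, this, hx, hx0]
  obtain ⟨t, ht⟩ : ∃ t, t = 1 - x ^ 2 := ⟨_, rfl⟩
  have ht0 : 0 < t := by rw [ht]; nlinarith only [hx, hx0]
  obtain ⟨Y, hY⟩ : ∃ Y, Y = 1 - ‖y‖ ^ 2 := ⟨_, rfl⟩
  have hY0 : 0 < Y := by rw [hY]; nlinarith only [norm_nonneg y, hy1]
  have hYy : Y ≤ 2 * (1 - ‖y‖) := by rw [hY]; nlinarith only [norm_nonneg y, hy1]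
  have hYD : Y ≤ 2 * D := by linarith
  have hhe : h = t * Y / D ^ 2 := by rw [hh, am_norm he hx0 hx hy, ht, hY, hD]
  rw [← hD, ← ht] at hk1 hk2
  rw [← ht] at hrx
  obtain ⟨κ, hκ⟩ : ∃ κ : ℝ, κ = (1 / 2) ^ k := ⟨_, rfl⟩
  have hκ0 : 0 < κ := by rw [hκ]; exact half_pow_pos k
  have hκ1 : κ ≤ 1 := by rw [hκ]; exact half_pow_le_one k
  rw [pow_succ, ← hκ, lt_div_iff₀ (by positivity)] at hk1
  rw [← hκ, div_le_iff₀ (by positivity)] at hk2
  have hωκ : 0 ≤ ω κ := (hω.1 κ ⟨hκ0, hκ1⟩).le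
  have hmain : ω H ≤ 8 * ω κ * D / Y := by
    rcases le_or_gt κ H with h1 | h1
    · have hHκ : H ≤ 4 * κ := by
        rw [hH]
        apply max_le
        · rw [hhe, div_le_iff₀ (by positivity)]
          calc t * Y ≤ (κ * (2 * D)) * (2 * D) := mul_le_mul hk2 hYD hY0.le (by positivity)
            _ = 4 * κ * D ^ 2 := by ring
        · calc 1 - r ≤ t := hrx
            _ ≤ κ * (2 * D) := hk2
            _ ≤ κ * (2 * 2) := by gcongr
            _ = 4 * κ := by ring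
      have h2 := (Mod.le_of_le hω hκ0 hH1 h1 hHκ).2
      have h3 : 1 ≤ 2 * D / Y := by rw [le_div_iff₀ hY0]; linarith
      calc ω H ≤ 4 * ω κ := h2
        _ ≤ 4 * ω κ * (2 * D / Y) := le_mul_of_one_le_right (by positivity) h3
        _ = _ := by ring
    · have h2 : κ ≤ (D / Y) * H := by
        calc κ ≤ (D / Y) * h := by
              rw [hhe]
              have : D / Y * (t * Y / D ^ 2) = t / D := by field_simp
              rw [this, le_div_iff₀ hD0]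
              linarith
          _ ≤ _ := by gcongr
      have h3 := (Mod.le_of_le hω hH0 hκ1 h1.le h2).1
      calc ω H ≤ D / Y * ω κ := h3
        _ = ω κ * D / Y := by ring
        _ ≤ 8 * ω κ * D / Y := by gcongr; linarith
  refine hfd.trans ?_
  rw [← hD, ← hY, ← hκ]
  have h1 : 1 / (1 - ‖y‖) ≤ 2 / Y := by
    rw [div_le_div_iff₀ (by linarith) hY0]
    linarith
  have h2 : 0 < 1 - ‖y‖ := by linarith
  calc 2 * (2100 * 183 * (36 * ω H)) / ((1 - ‖y‖) / 2) * ‖w‖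
      = (4 * (2100 * 183 * (36 * ω H))) * (1 / (1 - ‖y‖)) * ‖w‖ := by field_simp; ring
    _ ≤ (4 * (2100 * 183 * (36 * (8 * ω κ * D / Y)))) * (2 / Y) * 1 := by gcongr
    _ = (4 * (2100 * 183 * (36 * 8)) * 2) * (ω κ * D / Y ^ 2) := by field_simp
    _ ≤ 10 ^ 10 * (ω κ * D / Y ^ 2) := by
        apply mul_le_mul_of_nonneg_right (by norm_num) (by positivity)
    _ = _ := by ring

end Pool.Agent.MPca0fc2.VP
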