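import Mathlib
import Pool.Agent.Lib.MP_ca0fc2_an.QSc
import Pool.Agent.Lib.MP_ca0fc2_an.Mg.G023
import Pool.Agent.Lib.MP_ca0fc2_an.Mg.G015
import Pool.Agent.Lib.MP_ca0fc2_an.Mg.G022
import Pool.Agent.Lib.MP_ca0fc2_an.Mg.G051
import Pool.Agent.Lib.MP_ca0fc2_an.VP5
import Pool.Agent.Lib.MP_ca0fc2_an.QTBg
import Pool.Agent.Lib.MP_ca0fc2_an.QTSQ

set_option autoImplicit false
set_option linter.unusedSectionVars false

open Metric Set MeasureTheory Filter Topology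
open scoped InnerProductSpace ENNReal

namespace Pool.Agent.MPca0fc2.QS

open Pool.Agent.MPca0fc2.PT
open Pool.Agent.MPca0fc2.QT
open Pool.Agent.MPca0fc2.VL (Mod half_mem)

variable {E : Type*} [NormedAddCommGroup E] [InnerProductSpace ℂ E]
variable {V : Type*} [NormedAddCommGroup V] [NormedSpace ℂ V]

theorem RC_pos (k : ℕ) : 0 < RC (1 / 2) k := by rw [RC_half]; positivity

theorem one_lt_RC (k : ℕ) : 1 < RC (1 / 2) k := by
  rw [RC_half]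
  have : (0 : ℝ) < 3 / 8 * (1 / 2) ^ k := by positivity
  linarith

theorem rt_facts (k : ℕ) : 0 ≤ rt (1 / 2) k ∧ rt (1 / 2) k ≤ 1 := by
  have h1 : (0 : ℝ) < (1 / 2) ^ k := by positivity
  have h2 : ((1 : ℝ) / 2) ^ k ≤ 1 := pow_le_one₀ (by norm_num) (by norm_num)
  rw [rt]
  constructor <;> linarith

theorem de_eq {k : ℕ} (w : E) : 1 - ‖(rt (1 / 2) k : ℂ) • w‖ ^ 2 = de k w := by
  rw [norm_smul, Complex.norm_real, Real.norm_of_nonneg (rt_facts k).1, de, dl]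
  ring

theorem gau_I (d : ℝ) (w v : E) : gau d w (Complex.I • v) = gau d w v := by
  unfold gau
  rw [inner_smul_right, norm_mul, norm_smul, Complex.norm_I, one_mul, one_mul]

/-- the gradient of the dilated function -/
theorem uk_gr {ω : ℝ → ℝ} (hω : Mod ω) {u : E → ℂ} (hu : DifferentiableOn ℂ u (ball 0 1))
    (hgr : ∀ z ∈ ball (0 : E) 1, (1 - ‖z‖) * ‖fderiv ℂ u z‖ ≤ ω (1 - ‖z‖)) {k : ℕ} {w : E}
    (hw : ‖w‖ < RC (1 / 2) k) (v : E) :
    ‖fderiv ℝ (uk u (1 / 2) k) w v‖ ≤ 10 ^ 7 * ω (de k w) * gau (de k w) w v := by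
  have hrw := rt_smul_mem (E := E) (θ := 1 / 2) (by norm_num) (by norm_num) (Nat.le_succ k) hw
  have hrw' := mem_ball_zero_iff.mp hrw
  have h1 : HasFDerivAt u (fderiv ℂ u ((rt (1 / 2) k : ℂ) • w)) ((rt (1 / 2) k : ℂ) • w) :=
    (hu.differentiableAt (isOpen_ball.mem_nhds hrw)).hasFDerivAt
  have h2 : HasFDerivAt (fun x : E => (rt (1 / 2) k : ℂ) • x)
      ((rt (1 / 2) k : ℂ) • ContinuousLinearMap.id ℂ E) w :=
    ((rt (1 / 2) k : ℂ) • ContinuousLinearMap.id ℂ E).hasFDerivAt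
  have h3 : HasFDerivAt (uk u (1 / 2) k) ((fderiv ℂ u ((rt (1 / 2) k : ℂ) • w)).comp
      ((rt (1 / 2) k : ℂ) • ContinuousLinearMap.id ℂ E)) w := h1.comp w h2
  rw [(h3.restrictScalars ℝ).fderiv]
  have h4 := gu_of hω hu hgr hrw' ((rt (1 / 2) k : ℂ) • v)
  rw [de_eq] at h4
  obtain ⟨-, -, -, w4, w5, -⟩ := de_facts (one_lt_RC k).le le_rfl hw
  have h5 := gau_smul_le w4 (rt_facts k).1 (rt_facts k).2 w v
  have h6 := (hω.1 _ ⟨w4, w5⟩).le
  calc _ ≤ 10 ^ 7 * ω (de k w) * gau (de k w) ((rt (1 / 2) k : ℂ) • w) ((rt (1 / 2) k : ℂ) • v) := h4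
    _ ≤ _ := by gcongr

end Pool.Agent.MPca0fc2.QS
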