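import Mathlib
import Pool.Agent.Lib.MP_ca0fc2_an.QSe

set_option autoImplicit false
set_option linter.unusedSectionVars false

open Metric Set MeasureTheory Filter Topology
open scoped InnerProductSpace ENNReal

namespace Pool.Agent.MPca0fc2.QS

open Pool.Agent.MPca0fc2.PT
open Pool.Agent.MPca0fc2.QT
open Pool.Agent.MPca0fc2.VL (Mod half_mem)

variable {E : Type*} [NormedAddCommGroup E] [InnerProductSpace ℂ E]
variable {V : Type*} [NormedAddCommGroup V] [NormedSpace ℂ V]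
variable {ι : Type} [Fintype ι] {d N : ℕ}

/-- the data, with solutions on the cells of the functions `u` -/
structure Cel (f : Fin N → E → ℂ) (u : Fin d → E → ℂ) (s : ι → E → Fin N → ℂ)
    (cc : ι → Fin d → ℂ) (χ : ι → (Fin d → ℂ) → ℝ) (ω : ℝ → ℝ) (M ρ₀ C₁ L : ℝ) : Prop where
  hM : 0 ≤ M
  hC₁ : 0 ≤ C₁
  hρ₀ : 0 < ρ₀
  hω : Mod ω
  hu : ∀ j, DifferentiableOn ℂ (u j) (ball 0 1)
  huM : ∀ j, ∀ z ∈ ball (0 : E) 1, ‖u j z‖ ≤ M
  hug : ∀ j, ∀ z ∈ ball (0 : E) 1, (1 - ‖z‖) * ‖fderiv ℂ (u j) z‖ ≤ ω (1 - ‖z‖)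
  hf : ∀ j, DifferentiableOn ℂ (f j) (ball 0 1)
  hfM : ∀ j, ∀ z ∈ ball (0 : E) 1, ‖f j z‖ ≤ M
  hs : ∀ i, DifferentiableOn ℂ (s i) {z | z ∈ ball (0 : E) 1 ∧ ∀ j, ‖u j z - cc i j‖ < ρ₀}
  hsb : ∀ i, ∀ z ∈ ball (0 : E) 1, (∀ j, ‖u j z - cc i j‖ < ρ₀) → ‖s i z‖ ≤ C₁
  hsf : ∀ i, ∀ z ∈ ball (0 : E) 1, (∀ j, ‖u j z - cc i j‖ < ρ₀) → ∑ l, f l z * s i z l = 1
  hχ : PU' cc χ (ρ₀ / 2) L
  hsum : ∀ z : Fin d → ℂ, ‖z‖ ≤ M → ∑ i, χ i z = 1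

/-- the smooth solution -/
noncomputable def so (χ : ι → (Fin d → ℂ) → ℝ) (u : Fin d → E → ℂ) (s : ι → E → Fin N → ℂ)
    (k : ℕ) : E → Fin N → ℂ := sg χ (fun j => uk (u j) (1 / 2) k) (sl s (1 / 2) k)

variable {f : Fin N → E → ℂ} {u : Fin d → E → ℂ} {s : ι → E → Fin N → ℂ}
  {cc : ι → Fin d → ℂ} {χ : ι → (Fin d → ℂ) → ℝ} {ω : ℝ → ℝ} {M ρ₀ C₁ L : ℝ}

theorem Cel.mem (D : Cel f u s cc χ ω M ρ₀ C₁ L) {k : ℕ} {w : E} (hw : ‖w‖ < RC (1 / 2) k)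
    {i : ι} (hi : ‖(fun j => uk (u j) (1 / 2) k w) - cc i‖ ≤ ρ₀ / 2) :
    (rt (1 / 2) k : ℂ) • w ∈ {z | z ∈ ball (0 : E) 1 ∧ ∀ j, ‖u j z - cc i j‖ < ρ₀} := by
  refine ⟨rt_smul_mem (by norm_num) (by norm_num) (Nat.le_succ k) hw, fun j => ?_⟩
  have h1 : ‖uk (u j) (1 / 2) k w - cc i j‖ ≤ ρ₀ / 2 :=
    (norm_le_pi_norm ((fun j => uk (u j) (1 / 2) k w) - cc i) j).trans hi
  have := D.hρ₀
  calc ‖u j ((rt (1 / 2) k : ℂ) • w) - cc i j‖ ≤ ρ₀ / 2 := h1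
    _ < ρ₀ := by linarith

theorem Cel.open (D : Cel f u s cc χ ω M ρ₀ C₁ L) (i : ι) :
    IsOpen {z | z ∈ ball (0 : E) 1 ∧ ∀ j, ‖u j z - cc i j‖ < ρ₀} := by
  have e : {z | z ∈ ball (0 : E) 1 ∧ ∀ j, ‖u j z - cc i j‖ < ρ₀} =
      ball (0 : E) 1 ∩ (fun z => (fun j => u j z : Fin d → ℂ)) ⁻¹'
        {y | ∀ j, ‖y j - cc i j‖ < ρ₀} := by
    ext z; simp
  rw [e]
  refine ContinuousOn.isOpen_inter_preimage ?_ isOpen_ball ?_
  · exact continuousOn_pi.mpr fun j => (D.hu j).continuousOn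
  · rw [show {y : Fin d → ℂ | ∀ j, ‖y j - cc i j‖ < ρ₀} =
      ⋂ j, {y : Fin d → ℂ | ‖y j - cc i j‖ < ρ₀} by ext y; simp]
    exact isOpen_iInter_of_finite fun j => isOpen_lt (by fun_prop) continuous_const

theorem Cel.diff (D : Cel f u s cc χ ω M ρ₀ C₁ L) {k : ℕ} {w : E} (hw : ‖w‖ < RC (1 / 2) k)
    {i : ι} (hi : ‖(fun j => uk (u j) (1 / 2) k w) - cc i‖ ≤ ρ₀ / 2) :
    ∀ᶠ x in 𝓝 w, DifferentiableAt ℂ (sl s (1 / 2) k i) x := by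
  have hc : Continuous fun x : E => (rt (1 / 2) k : ℂ) • x := by fun_prop
  filter_upwards [hc.continuousAt.preimage_mem_nhds ((D.open i).mem_nhds (D.mem hw hi))] with x hx
  unfold sl
  exact ((D.hs i).differentiableAt ((D.open i).mem_nhds hx)).comp x (by fun_prop)

theorem Cel.bound (D : Cel f u s cc χ ω M ρ₀ C₁ L) {k : ℕ} {w : E} (hw : ‖w‖ < RC (1 / 2) k)
    {i : ι} (hi : ‖(fun j => uk (u j) (1 / 2) k w) - cc i‖ ≤ ρ₀ / 2) :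
    ‖sl s (1 / 2) k i w‖ ≤ C₁ := by
  have h := D.mem hw hi
  exact D.hsb i _ h.1 h.2

theorem Cel.Fd (D : Cel f u s cc χ ω M ρ₀ C₁ L) (k : ℕ) :
    DifferentiableOn ℂ (FF f (1 / 2) k) (ball 0 (RC (1 / 2) k)) := by
  unfold FF
  refine DifferentiableOn.fun_sum fun j _ => ?_
  exact (uk_diff (by norm_num) (by norm_num) (D.hf j) (Nat.le_succ k)).smul_const _

theorem Cel.Fn (D : Cel f u s cc χ ω M ρ₀ C₁ L) {k : ℕ} {w : E} (hw : ‖w‖ < RC (1 / 2) k) :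
    ‖FF f (1 / 2) k w‖ ≤ N * M := by
  unfold FF
  refine (norm_sum_le _ _).trans ?_
  calc ∑ j : Fin N, ‖uk (f j) (1 / 2) k w • (ContinuousLinearMap.proj j : (Fin N → ℂ) →L[ℂ] ℂ)‖
      ≤ ∑ _j : Fin N, M := by
        refine Finset.sum_le_sum fun j _ => ?_
        rw [norm_smul]
        have h1 : ‖uk (f j) (1 / 2) k w‖ ≤ M :=
          D.hfM j _ (rt_smul_mem (by norm_num) (by norm_num) (Nat.le_succ k) hw)
        have h2 : ‖(ContinuousLinearMap.proj j : (Fin N → ℂ) →L[ℂ] ℂ)‖ ≤ 1 := by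
          refine ContinuousLinearMap.opNorm_le_bound _ zero_le_one fun x => ?_
          rw [one_mul]
          exact norm_le_pi_norm x j
        have h3 := norm_nonneg (uk (f j) (1 / 2) k w)
        nlinarith [norm_nonneg (ContinuousLinearMap.proj j : (Fin N → ℂ) →L[ℂ] ℂ)]
    _ = N * M := by simp

variable [FiniteDimensional ℂ E]

theorem Cel.bc2 (D : Cel f u s cc χ ω M ρ₀ C₁ L) {k : ℕ} {w : E} (hw : ‖w‖ < RC (1 / 2) k)
    (j : Fin d) : ContDiffAt ℝ 2 (uk (u j) (1 / 2) k) w :=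
  (uk_c2 (by norm_num) (by norm_num) (D.hu j) (Nat.le_succ k)).contDiffAt
    (isOpen_ball.mem_nhds (by simpa using hw))

theorem Cel.c2 (D : Cel f u s cc χ ω M ρ₀ C₁ L) {k : ℕ} {w : E} (hw : ‖w‖ < RC (1 / 2) k) :
    ContDiffAt ℝ 2 (so χ u s k) w :=
  sg_c2 D.hχ (fun j => D.bc2 hw j) fun _ hi => QTXc_hol_at (D.diff hw hi)

theorem Cel.norm (D : Cel f u s cc χ ω M ρ₀ C₁ L) {k : ℕ} {w : E} (hw : ‖w‖ < RC (1 / 2) k) :
    ‖so χ u s k w‖ ≤ Fintype.card ι * C₁ :=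
  sg_norm D.hχ D.hC₁ fun _ hi => D.bound hw hi

theorem Cel.F (D : Cel f u s cc χ ω M ρ₀ C₁ L) {k : ℕ} {w : E} (hw : ‖w‖ < RC (1 / 2) k) :
    FF f (1 / 2) k w (so χ u s k w) = 1 := by
  have hb : ‖(fun j => uk (u j) (1 / 2) k w)‖ ≤ M :=
    (pi_norm_le_iff_of_nonneg D.hM).mpr fun j =>
      D.huM j _ (rt_smul_mem (by norm_num) (by norm_num) (Nat.le_succ k) hw)
  have hsum := D.hsum _ hb
  unfold so sg
  rw [map_sum]
  have h1 : ∀ i, FF f (1 / 2) k w ((((χ i fun j => uk (u j) (1 / 2) k w) : ℝ) : ℂ) •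
      sl s (1 / 2) k i w) = (((χ i fun j => uk (u j) (1 / 2) k w) : ℝ) : ℂ) := by
    intro i
    rcases eq_or_ne (χ i fun j => uk (u j) (1 / 2) k w) 0 with h0 | h0
    · rw [h0]; simp
    · have hi : ‖(fun j => uk (u j) (1 / 2) k w) - cc i‖ ≤ ρ₀ / 2 := by
        by_contra hcon
        exact h0 (D.hχ.supp i _ (not_le.mp hcon).le)
      have hcell := D.mem hw hi
      have h2 : FF f (1 / 2) k w (sl s (1 / 2) k i w) = 1 := by
        have h3 := D.hsf i _ hcell.1 hcell.2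
        unfold FF sl
        rw [← h3, sum_apply]
        rfl
      rw [map_smul, h2, smul_eq_mul, mul_one]
  rw [Finset.sum_congr rfl fun i _ => h1 i, ← Complex.ofReal_sum, hsum, Complex.ofReal_one]

theorem Cel.FD (D : Cel f u s cc χ ω M ρ₀ C₁ L) {k : ℕ} {w : E} (hw : ‖w‖ < RC (1 / 2) k)
    (v : E) : FF f (1 / 2) k w (D01 (so χ u s k) w v) = 0 := by
  have hwb : ball (0 : E) (RC (1 / 2) k) ∈ 𝓝 w := isOpen_ball.mem_nhds (by simpa using hw)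
  refine F_D01 ((D.Fd k).differentiableAt hwb) ((D.c2 hw).differentiableAt (by norm_num)) ?_ v
  filter_upwards [hwb] with x hx
  exact D.F (by simpa using hx)

theorem Cel.D01 (D : Cel f u s cc χ ω M ρ₀ C₁ L) {k : ℕ} {w : E} (hw : ‖w‖ < RC (1 / 2) k)
    (v : E) : ‖D01 (so χ u s k) w v‖ ≤
      Fintype.card ι * L * C₁ * (10 ^ 7 * ω (de k w) * gau (de k w) w v) := by
  obtain ⟨-, -, -, w4, w5, -⟩ := de_facts (one_lt_RC k).le le_rfl hw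
  have h6 := (D.hω.1 _ ⟨w4, w5⟩).le
  have h7 : 0 ≤ gau (de k w) w v := kest_gau_nonneg w4.le _ _
  refine sg_D01 D.hχ D.hC₁ (fun j => D.bc2 hw j) (fun i hi => ⟨D.bound hw hi, D.diff hw hi⟩) v
    (by positivity) fun j => ⟨uk_gr D.hω (D.hu j) (D.hug j) hw v, ?_⟩
  have h := uk_gr D.hω (D.hu j) (D.hug j) hw (Complex.I • v)
  rwa [gau_I] at h

/-- the forms of the Koszul complex -/
theorem UU_data (K : Car (Fin N → ℂ) V) (M C₁ L Λ : ℝ) (nι : ℕ) (hC₁ : 0 ≤ C₁) (hL : 0 ≤ L)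
    (hΛ : 0 ≤ Λ) (r : ℕ) (hr : 1 ≤ r) :
    ∃ B : ℝ, 0 < B ∧ ∀ (ι : Type) [Fintype ι], Fintype.card ι ≤ nι → ∀ (f : Fin N → E → ℂ)
      (u : Fin d → E → ℂ) (s : ι → E → Fin N → ℂ) (cc : ι → Fin d → ℂ)
      (χ : ι → (Fin d → ℂ) → ℝ) (ω : ℝ → ℝ) (ρ₀ : ℝ), Cel f u s cc χ ω M ρ₀ C₁ L →
      (∀ t ∈ Ioc (0 : ℝ) 1, ω t ≤ Λ) → ∀ (k : ℕ) (R : ℝ), 1 ≤ R → R ≤ RC (1 / 2) k →
      ContDiffOn ℝ 1 (UU K (so χ u s k) r) (ball 0 R) ∧
      (∀ w ∈ ball (0 : E) R, Anti (UU K (so χ u s k) r w)) ∧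
      (∀ w ∈ ball (0 : E) R, db (UU K (so χ u s k) r) w =
        opc E V (r + 1) (K.c (FF f (1 / 2) k w)) (UU K (so χ u s k) (r + 1) w)) ∧
      BdS ω k R B (UU K (so χ u s k) r) := by
  obtain ⟨C, hC, hU⟩ := UU_bound (E := E) K r
  obtain ⟨G, hG⟩ : ∃ G : ℝ, G = nι * L * C₁ * 10 ^ 7 := ⟨_, rfl⟩
  have hG0 : 0 ≤ G := by rw [hG]; positivity
  refine ⟨C * (nι * C₁) * G ^ r * Λ ^ (r - 1) + 1, by positivity, ?_⟩
  intro ι _ hι f u s cc χ ω ρ₀ D hωΛ k R hR1 hR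
  have hlt : ∀ w ∈ ball (0 : E) R, ‖w‖ < RC (1 / 2) k := fun w hw =>
    (mem_ball_zero_iff.mp hw).trans_le hR
  have hc2 : ∀ w ∈ ball (0 : E) R, ContDiffAt ℝ 2 (so χ u s k) w := fun w hw => D.c2 (hlt w hw)
  refine ⟨fun w hw => (UU_c1 K (hc2 w hw) r).contDiffWithinAt, fun w hw => Anti.UU K _ w r, ?_, ?_⟩
  · intro w hw
    rw [db_UU K (hc2 w hw) r, c_UU K (D.F (hlt w hw)) (D.FD (hlt w hw)) (r + 1)]
  · intro w hw v
    have hwb : w ∈ ball (0 : E) R := by rwa [mem_ball_zero_iff]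
    have hwR := hlt w hwb
    obtain ⟨-, -, -, w4, w5, -⟩ := de_facts (one_lt_RC k).le le_rfl hwR
    have hω0 := (D.hω.1 _ ⟨w4, w5⟩).le
    have hωL := hωΛ _ ⟨w4, w5⟩
    have hι' : (Fintype.card ι : ℝ) ≤ nι := by exact_mod_cast hι
    have h1 := hU (so χ u s k) w (fun x => G * ω (de k w) * gau (de k w) w x) (by
      intro x
      have h7 : 0 ≤ gau (de k w) w x := kest_gau_nonneg w4.le _ _
      refine (D.D01 hwR x).trans ?_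
      rw [hG]
      calc (Fintype.card ι : ℝ) * L * C₁ * (10 ^ 7 * ω (de k w) * gau (de k w) w x)
          ≤ nι * L * C₁ * (10 ^ 7 * ω (de k w) * gau (de k w) w x) := by gcongr
        _ = _ := by ring) v
    have hP0 : 0 ≤ ∏ i, gau (de k w) w (v i) :=
      Finset.prod_nonneg fun i _ => kest_gau_nonneg w4.le _ _
    have hσ : ‖so χ u s k w‖ ≤ nι * C₁ := (D.norm hwR).trans (by gcongr)
    have e1 : ∏ i, (G * ω (de k w) * gau (de k w) w (v i)) =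
        G ^ r * ω (de k w) ^ (r - 1) * ω (de k w) * ∏ i, gau (de k w) w (v i) := by
      have e2 : ω (de k w) ^ r = ω (de k w) ^ (r - 1) * ω (de k w) := by
        rw [← pow_succ]
        congr 1
        omega
      rw [Finset.prod_mul_distrib, Finset.prod_const, Finset.card_univ, Fintype.card_fin, mul_pow,
        e2, ← mul_assoc (G ^ r)]
    rw [e1] at h1
    have hωp : ω (de k w) ^ (r - 1) ≤ Λ ^ (r - 1) := pow_le_pow_left₀ hω0 hωL _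
    calc _ ≤ _ := h1
      _ ≤ C * (nι * C₁) * (G ^ r * Λ ^ (r - 1) * ω (de k w) * ∏ i, gau (de k w) w (v i)) := by
          gcongr
      _ = (C * (nι * C₁) * G ^ r * Λ ^ (r - 1)) * ω (de k w) * ∏ i, gau (de k w) w (v i) := by
          ring
      _ ≤ _ := by
          gcongr
          linarith

end Pool.Agent.MPca0fc2.QS
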