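import Mathlib
import Pool.Agent.Lib.MP_ca0fc2_an.QSc
import Pool.Agent.Lib.MP_ca0fc2_an.QTDesc
import Pool.Agent.Lib.MP_ca0fc2_an.Mg.G022
import Pool.Agent.Lib.MP_ca0fc2_an.Mg.G021

set_option autoImplicit false
set_option linter.unusedSectionVars false

open Metric Set MeasureTheory Filter Topology
open scoped InnerProductSpace ENNReal

namespace Pool.Agent.MPca0fc2.QS

open Pool.Agent.MPca0fc2.PT
open Pool.Agent.MPca0fc2.QT
open Pool.Agent.MPca0fc2.VL (Mod half_mem)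

variable {E : Type*} [NormedAddCommGroup E] [InnerProductSpace ℂ E]
variable {V : Type*} [NormedAddCommGroup V] [NormedSpace ℂ V]
variable {Y : Type*} [NormedAddCommGroup Y] [NormedSpace ℂ Y]

section alg

variable {ω : ℝ → ℝ} {k q : ℕ} {R B B' : ℝ} {η η' : E → E [⋀^Fin q]→L[ℝ] V}

theorem BdS.ball (h : BdS ω k R B η) {R' : ℝ} (hR : R' ≤ R) : BdS ω k R' B η :=
  fun w hw v => h w (lt_of_lt_of_le hw hR) v

theorem bds_rhs (hω : Mod ω) {w : E} (hw : ‖w‖ < RC (1 / 2) k) (v : Fin q → E) :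
    0 ≤ ω (de k w) * ∏ i, gau (de k w) w (v i) := by
  have h1 : (1 : ℝ) ≤ RC (1 / 2) k := by
    rw [RC_half]
    have : (0 : ℝ) < 3 / 8 * (1 / 2) ^ k := by positivity
    linarith
  obtain ⟨-, -, -, w4, w5, -⟩ := de_facts h1 le_rfl hw
  exact mul_nonneg (hω.1 _ ⟨w4, w5⟩).le (Finset.prod_nonneg fun i _ => kest_gau_nonneg w4.le _ _)

theorem BdS.mono (hω : Mod ω) (hR : R ≤ RC (1 / 2) k) (h : BdS ω k R B η) (hB : B ≤ B') :
    BdS ω k R B' η := by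
  intro w hw v
  have h2 := bds_rhs hω (lt_of_lt_of_le hw hR) v
  calc _ ≤ _ := h w hw v
    _ = B * (ω (de k w) * ∏ i, gau (de k w) w (v i)) := by ring
    _ ≤ B' * (ω (de k w) * ∏ i, gau (de k w) w (v i)) := mul_le_mul_of_nonneg_right hB h2
    _ = _ := by ring

theorem BdS.sub (h : BdS ω k R B η) (h' : BdS ω k R B' η') :
    BdS ω k R (B + B') (fun w => η w - η' w) := by
  intro w hw v
  calc ‖(η w - η' w) v‖ = ‖η w v - η' w v‖ := by rw [ContinuousAlternatingMap.sub_apply]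
    _ ≤ ‖η w v‖ + ‖η' w v‖ := norm_sub_le _ _
    _ ≤ B * ω (de k w) * ∏ i, gau (de k w) w (v i) +
        B' * ω (de k w) * ∏ i, gau (de k w) w (v i) := add_le_add (h w hw v) (h' w hw v)
    _ = _ := by ring

theorem BdS.zero (hω : Mod ω) (hR : R ≤ RC (1 / 2) k) (hB : 0 ≤ B) :
    BdS ω k R B (fun _ => (0 : E [⋀^Fin q]→L[ℝ] V)) := by
  intro w hw v
  have h2 := mul_nonneg hB (bds_rhs hω (lt_of_lt_of_le hw hR) v)
  have h4 : (0 : E [⋀^Fin q]→L[ℝ] V) v = 0 := rfl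
  simp only [h4, norm_zero]
  calc (0 : ℝ) ≤ B * (ω (de k w) * ∏ i, gau (de k w) w (v i)) := h2
    _ = _ := by ring

theorem BdS.opc (hω : Mod ω) (hR : R ≤ RC (1 / 2) k) (hB : 0 ≤ B) (h : BdS ω k R B η)
    {G : E → V →L[ℂ] V} {a : ℝ} (hG : ∀ w : E, ‖w‖ < R → ‖G w‖ ≤ a) :
    BdS ω k R (a * B) (fun w => opc E V q (G w) (η w)) := by
  intro w hw v
  have h2 := bds_rhs hω (lt_of_lt_of_le hw hR) v
  calc ‖(QT.opc E V q (G w) (η w)) v‖ = ‖G w (η w v)‖ := by rw [opc_apply]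
    _ ≤ ‖G w‖ * ‖η w v‖ := (G w).le_opNorm _
    _ ≤ ‖G w‖ * (B * (ω (de k w) * ∏ i, gau (de k w) w (v i))) := by
        refine mul_le_mul_of_nonneg_left ?_ (norm_nonneg _)
        refine (h w hw v).trans (le_of_eq ?_)
        ring
    _ ≤ a * (B * (ω (de k w) * ∏ i, gau (de k w) w (v i))) :=
        mul_le_mul_of_nonneg_right (hG w hw) (mul_nonneg hB h2)
    _ = _ := by ring

end alg

variable [FiniteDimensional ℂ E] [MeasurableSpace E] [BorelSpace E]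

/-- one step -/
theorem sdesc_step (μ : Measure E) [μ.IsAddHaarMeasure] {m : ℕ} (hm : 1 ≤ m)
    (hdim : Module.finrank ℂ E = m + 1) [FiniteDimensional ℂ V] [FiniteDimensional ℂ Y]
    (K : Car Y V) {δ : ℝ} (hδ : 0 < δ) {MF : ℝ} (hMF : 0 ≤ MF) (j : ℕ) (hj : j ≤ m) :
    ∃ C : ℝ, 0 < C ∧ ∀ ω : ℝ → ℝ, Mod ω → ∀ (k : ℕ) (R B : ℝ)
      (F : E → Y →L[ℂ] ℂ) (Ψ : (r : ℕ) → E → E [⋀^Fin r]→L[ℝ] V),
      1 ≤ R - 2 * j * (δ * (1 / 2) ^ k) → R ≤ RC (1 / 2) k → 0 ≤ B →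
      DifferentiableOn ℂ F (ball 0 R) → (∀ w ∈ ball (0 : E) R, ‖F w‖ ≤ MF) →
      (∀ r, 1 ≤ r → ContDiffOn ℝ 1 (Ψ r) (ball 0 R) ∧ (∀ w ∈ ball (0 : E) R, Anti (Ψ r w)) ∧
        (∀ w ∈ ball (0 : E) R, db (Ψ r) w = opc E V (r + 1) (K.c (F w)) (Ψ (r + 1) w)) ∧
        BdS ω k R B (Ψ r)) →
      ∃ S : (r : ℕ) → E → E [⋀^Fin r]→L[ℝ] V, ∀ r, m + 1 ≤ r + j →
        ContDiffOn ℝ 1 (S r) (ball 0 (R - 2 * j * (δ * (1 / 2) ^ k))) ∧
        (∀ w ∈ ball (0 : E) (R - 2 * j * (δ * (1 / 2) ^ k)), Anti (S r w)) ∧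
        (∀ w ∈ ball (0 : E) (R - 2 * j * (δ * (1 / 2) ^ k)), db (S r) w = Ψ (r + 1) w -
          opc E V (r + 1) (K.c (F w)) (S (r + 1) w)) ∧
        BdS ω k (R - 2 * j * (δ * (1 / 2) ^ k)) (C * B) (S r) := by
  induction j with
  | zero =>
    refine ⟨1, one_pos, ?_⟩
    intro ω hω k R B F Ψ hR1 hRC hB0 hF hFM hΨ
    refine ⟨fun r _ => 0, ?_⟩
    intro r hr
    simp only [Nat.cast_zero, mul_zero, zero_mul, sub_zero] at *
    refine ⟨contDiffOn_const, fun w _ => Anti.zero, fun w hw => ?_, ?_⟩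
    · have h2 : Ψ (r + 1) w = 0 := by
        refine Anti.eq_zero ?_ ((hΨ (r + 1) (by omega)).2.1 w hw)
        rw [hdim]
        omega
      rw [h2, kd_db_const, map_zero, sub_zero]
    · exact BdS.zero hω hRC (by rw [one_mul]; exact hB0)
  | succ j ih =>
    obtain ⟨Cj, hCj, hS⟩ := ih (by omega)
    obtain ⟨q, hq⟩ : ∃ q, q + 1 + j = m := ⟨m - 1 - j, by omega⟩
    obtain ⟨CT, hCT, hT⟩ := TRs (V := V) μ hm hdim q hδ
    have hKc : 0 ≤ ‖K.c‖ := K.c.opNorm_nonneg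
    set D : ℝ := 1 + ‖K.c‖ * MF * Cj with hD
    have hD0 : 0 < D := by positivity
    refine ⟨CT * D + Cj, by positivity, ?_⟩
    intro ω hω k R B F Ψ hR1 hRC hB0 hF hFM hΨ
    have ht : 0 < δ * (1 / 2) ^ k := by positivity
    set Rj : ℝ := R - 2 * j * (δ * (1 / 2) ^ k) with hRj
    have hRj0 : (0 : ℝ) ≤ 2 * j * (δ * (1 / 2) ^ k) := by positivity
    have hRs : R - 2 * ((j + 1 : ℕ) : ℝ) * (δ * (1 / 2) ^ k) = Rj - 2 * (δ * (1 / 2) ^ k) := by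
      rw [hRj]
      push_cast
      ring
    rw [hRs] at hR1
    simp only [hRs]
    have hRj1 : 1 ≤ Rj := by linarith
    have hRjR : Rj ≤ R := by rw [hRj]; linarith
    obtain ⟨S, hS'⟩ := hS ω hω k R B F Ψ (by rw [← hRj]; exact hRj1) hRC hB0 hF hFM hΨ
    rw [← hRj] at hS'
    have hsub : ball (0 : E) Rj ⊆ ball 0 R := ball_subset_ball hRjR
    -- the right side
    set η : E → E [⋀^Fin (q + 2)]→L[ℝ] V := fun w => Ψ (q + 2) w -
      opc E V (q + 2) (K.c (F w)) (S (q + 2) w) with hη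
    have hFc : ContDiffOn ℝ 1 F (ball 0 Rj) := (QTDesc_holF isOpen_ball hF).mono hsub
    obtain ⟨Ψ1, Ψ2, Ψ3, Ψ4⟩ := hΨ (q + 2) (by omega)
    obtain ⟨S1, S2, S3, S4⟩ := hS' (q + 2) (by omega)
    have hηc : ContDiffOn ℝ 1 η (ball 0 Rj) := (Ψ1.mono hsub).sub (QTDesc_opc K hFc S1)
    have hηa : ∀ w ∈ ball (0 : E) Rj, Anti (η w) := fun w hw =>
      (Ψ2 w (hsub hw)).sub ((S2 w hw).opc _)
    have hFd : ∀ w ∈ ball (0 : E) Rj, DifferentiableAt ℂ (fun w => K.c (F w)) w := fun w hw =>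
      K.c.differentiableAt.comp w ((hF w (hsub hw)).differentiableAt (isOpen_ball.mem_nhds (hsub hw)))
    have hSd : ∀ w ∈ ball (0 : E) Rj, DifferentiableAt ℝ (S (q + 2)) w := fun w hw =>
      (S1.contDiffAt (isOpen_ball.mem_nhds hw)).differentiableAt (by norm_num)
    have hΨd : ∀ w ∈ ball (0 : E) Rj, DifferentiableAt ℝ (Ψ (q + 2)) w := fun w hw =>
      (Ψ1.contDiffAt (isOpen_ball.mem_nhds (hsub hw))).differentiableAt (by norm_num)
    have hopd : ∀ w ∈ ball (0 : E) Rj,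
        DifferentiableAt ℝ (fun w => opc E V (q + 2) (K.c (F w)) (S (q + 2) w)) w := fun w hw =>
      ((QTDesc_opc K hFc S1).contDiffAt (isOpen_ball.mem_nhds hw)).differentiableAt (by norm_num)
    have hηd : ∀ w ∈ ball (0 : E) Rj, db η w = 0 := by
      intro w hw
      rw [hη, db_sub (hΨd w hw) (hopd w hw), db_opc_holo (hFd w hw) (hSd w hw), Ψ3 w (hsub hw),
        S3 w hw, map_sub, opcc_self, sub_zero, sub_self]
    have hηb : BdS ω k Rj (D * B) η := by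
      have a2 := BdS.opc hω (hRjR.trans hRC) (mul_nonneg hCj.le hB0) S4
        (G := fun w => K.c (F w)) (a := ‖K.c‖ * MF) (by
          intro w hw
          refine (K.c.le_opNorm _).trans (mul_le_mul_of_nonneg_left (hFM w ?_) hKc)
          exact hsub (mem_ball_zero_iff.mpr hw))
      refine BdS.mono hω (hRjR.trans hRC) ((Ψ4.ball hRjR).sub a2) (le_of_eq ?_)
      rw [hD]; ring
    -- the operator
    set Ro : ℝ := Rj - δ * (1 / 2) ^ k with hRo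
    have hRo1 : 1 ≤ Ro := by rw [hRo]; linarith
    have hRoj : Ro < Rj := by rw [hRo]; linarith
    have hclo : closedBall (0 : E) Ro ⊆ ball 0 Rj := closedBall_subset_ball hRoj
    have hbo : ball (0 : E) Ro ⊆ ball 0 Rj := ball_subset_ball hRoj.le
    obtain ⟨T1, T2, T3⟩ := TR_main μ hdim (by linarith : 0 < Ro) isOpen_ball hclo hηc hηa hηd
    have T4 := hT ω hω k Ro (Rj - 2 * (δ * (1 / 2) ^ k)) (D * B) η hRo1
      (hRoj.le.trans (hRjR.trans hRC)) (by rw [hRo]; linarith) (fun w hw => hηa w (hbo hw))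
      (mul_nonneg hD0.le hB0) (hηb.ball hRoj.le)
    have hRn : Rj - 2 * (δ * (1 / 2) ^ k) ≤ Ro := by rw [hRo]; linarith
    have hsn : ball (0 : E) (Rj - 2 * (δ * (1 / 2) ^ k)) ⊆ ball 0 Ro := ball_subset_ball hRn
    have hsn2 : ball (0 : E) (Rj - 2 * (δ * (1 / 2) ^ k)) ⊆ ball 0 Rj :=
      ball_subset_ball (by linarith)
    have hRnC : Rj - 2 * (δ * (1 / 2) ^ k) ≤ RC (1 / 2) k := by linarith
    refine ⟨Function.update S (q + 1) (TR μ m Ro η), ?_⟩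
    intro r hr
    have hrr : q + 1 ≤ r := by omega
    have e1 : Function.update S (q + 1) (TR μ m Ro η) (r + 1) = S (r + 1) :=
      Function.update_of_ne (by omega) _ _
    rcases Nat.eq_or_lt_of_le hrr with h | h
    · subst h
      have e0 : Function.update S (q + 1) (TR μ m Ro η) (q + 1) = TR μ m Ro η :=
        Function.update_self _ _ _
      rw [e0, e1]
      refine ⟨T1.mono hsn, fun w hw => T2 w (hsn hw), fun w hw => T3 w (hsn hw), ?_⟩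
      refine BdS.mono hω hRnC T4 ?_
      have h10 : 0 ≤ Cj * B := by positivity
      calc CT * (D * B) ≤ CT * (D * B) + Cj * B := le_add_of_nonneg_right h10
        _ = (CT * D + Cj) * B := by ring
    · have e0 : Function.update S (q + 1) (TR μ m Ro η) r = S r :=
        Function.update_of_ne (by omega) _ _
      rw [e0, e1]
      obtain ⟨U1, U2, U3, U4⟩ := hS' r (by omega)
      refine ⟨U1.mono hsn2, fun w hw => U2 w (hsn2 hw), fun w hw => U3 w (hsn2 hw), ?_⟩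
      refine BdS.mono hω hRnC (U4.ball (by linarith)) ?_
      have h10 : 0 ≤ CT * D * B := by positivity
      calc Cj * B ≤ CT * D * B + Cj * B := le_add_of_nonneg_left h10
        _ = (CT * D + Cj) * B := by ring

/-- Solution of the equations `∂̄ S_r = Ψ_{r+1} - F ⌟ S_{r+1}`, `r ≥ 1`, with estimates. -/
theorem sdesc (μ : Measure E) [μ.IsAddHaarMeasure] {m : ℕ} (hm : 1 ≤ m)
    (hdim : Module.finrank ℂ E = m + 1) [FiniteDimensional ℂ V] [FiniteDimensional ℂ Y]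
    (K : Car Y V) {MF : ℝ} (hMF : 0 ≤ MF) :
    ∃ C : ℝ, 0 < C ∧ ∀ ω : ℝ → ℝ, Mod ω → ∀ (k : ℕ) (B : ℝ)
      (F : E → Y →L[ℂ] ℂ) (Ψ : (r : ℕ) → E → E [⋀^Fin r]→L[ℝ] V), 0 ≤ B →
      DifferentiableOn ℂ F (ball 0 (RC (1 / 2) k)) →
      (∀ w ∈ ball (0 : E) (RC (1 / 2) k), ‖F w‖ ≤ MF) →
      (∀ r, 1 ≤ r → ContDiffOn ℝ 1 (Ψ r) (ball 0 (RC (1 / 2) k)) ∧
        (∀ w ∈ ball (0 : E) (RC (1 / 2) k), Anti (Ψ r w)) ∧
        (∀ w ∈ ball (0 : E) (RC (1 / 2) k),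
          db (Ψ r) w = opc E V (r + 1) (K.c (F w)) (Ψ (r + 1) w)) ∧
        BdS ω k (RC (1 / 2) k) B (Ψ r)) →
      ∃ S : (r : ℕ) → E → E [⋀^Fin r]→L[ℝ] V, ∀ r, 1 ≤ r →
        ContDiffOn ℝ 1 (S r) (ball 0 (1 + 1 / 8 * (1 / 2) ^ k)) ∧
        (∀ w ∈ ball (0 : E) (1 + 1 / 8 * (1 / 2) ^ k), Anti (S r w)) ∧
        (∀ w ∈ ball (0 : E) (1 + 1 / 8 * (1 / 2) ^ k), db (S r) w = Ψ (r + 1) w -
          opc E V (r + 1) (K.c (F w)) (S (r + 1) w)) ∧
        BdS ω k (1 + 1 / 8 * (1 / 2) ^ k) (C * B) (S r) := by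
  set δ : ℝ := 1 / (8 * m) with hδ
  have hm0 : (0 : ℝ) < m := by
    have : 0 < m := by omega
    exact_mod_cast this
  have hδ0 : 0 < δ := by positivity
  obtain ⟨C, hC, hS⟩ := sdesc_step μ hm hdim K hδ0 hMF m le_rfl
  refine ⟨C, hC, ?_⟩
  intro ω hω k B F Ψ hB hF hFM hΨ
  have e : RC (1 / 2) k - 2 * m * (δ * (1 / 2) ^ k) = 1 + 1 / 8 * (1 / 2) ^ k := by
    have h1 : 2 * m * (δ * (1 / 2) ^ k) = (m * δ) * (2 * (1 / 2) ^ k) := by ring
    have h2 : m * δ = 1 / 8 := by rw [hδ]; field_simp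
    rw [RC_half, h1, h2]
    ring
  have ht : (0 : ℝ) < (1 / 2) ^ k := by positivity
  obtain ⟨S, hS'⟩ := hS ω hω k (RC (1 / 2) k) B F Ψ (by rw [e]; linarith) le_rfl hB hF hFM hΨ
  rw [e] at hS'
  exact ⟨S, fun r hr => hS' r (by omega)⟩

end Pool.Agent.MPca0fc2.QS
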