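import Mathlib
import Pool.Agent.Lib.MP_ca0fc2_an.VP5

set_option autoImplicit false

open Metric Set Filter Topology MeasureTheory
open scoped InnerProductSpace ComplexConjugate

namespace Pool.Agent.MPca0fc2.VP

open Pool.Agent.MPca0fc2.SD
open Pool.Agent.MPca0fc2.SL
open Pool.Agent.MPca0fc2.VL (Mod half_mem)
open Pool.Agent.Lib.MP_ca0fc2_an

variable {E : Type*} [NormedAddCommGroup E] [InnerProductSpace ℂ E]

/-- a cut-off function in the plane -/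
theorem exists_chi {ρ : ℝ} (hρ : 0 < ρ) (M : ℝ) : ∃ (χ : ℂ → ℝ) (L : ℝ), ContDiff ℝ 1 χ ∧
    (∀ ζ, 0 ≤ χ ζ) ∧ (∀ ζ, χ ζ ≤ 1) ∧ (∀ ζ, ‖ζ‖ ≤ ρ → χ ζ = 1) ∧ (∀ ζ, 2 * ρ ≤ ‖ζ‖ → χ ζ = 0) ∧
    0 ≤ L ∧ ∀ ζ, ‖ζ‖ ≤ M → ‖fderiv ℝ χ ζ‖ ≤ L := by
  let b : ContDiffBump (0 : ℂ) := ⟨ρ, 2 * ρ, hρ, by linarith⟩
  have hb : ContDiff ℝ 1 (fun ζ => b ζ) := b.contDiff
  obtain ⟨L, hL⟩ := (isCompact_closedBall (0 : ℂ) M).exists_bound_of_continuousOn
    (hb.continuous_fderiv one_ne_zero).continuousOn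
  refine ⟨fun ζ => b ζ, |L|, hb, fun ζ => b.nonneg, fun ζ => b.le_one, ?_, ?_, abs_nonneg _, ?_⟩
  · intro ζ hζ
    exact b.one_of_mem_closedBall (by simpa using hζ)
  · intro ζ hζ
    exact b.zero_of_le_dist (by simpa using hζ)
  · intro ζ hζ
    exact (hL ζ (by simpa using hζ)).trans (le_abs_self L)

/-- the hypotheses on the pair -/
structure Pair (f g h₀ h₁ : E → ℂ) (χ : ℂ → ℝ) (ρ : ℝ) : Prop where
  fd : DifferentiableOn ℂ f (ball 0 1)
  gd : DifferentiableOn ℂ g (ball 0 1)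
  d0 : DifferentiableOn ℂ h₀ (ball 0 1)
  d1 : DifferentiableOn ℂ h₁ (ball 0 1)
  ρ0 : 0 < ρ
  low : ∀ z ∈ ball (0 : E) 1, 16 * ρ ^ 2 ≤ ‖f z‖ ^ 2 + ‖g z‖ ^ 2
  one : ∀ z ∈ ball (0 : E) 1, f z * h₀ z + g z * h₁ z = 1
  c : ContDiff ℝ 1 χ
  c0 : ∀ ζ, 0 ≤ χ ζ
  c1 : ∀ ζ, χ ζ ≤ 1
  cs : ∀ ζ, ‖ζ‖ ≤ ρ → χ ζ = 1
  cl : ∀ ζ, 2 * ρ ≤ ‖ζ‖ → χ ζ = 0

open Classical in
/-- the quotient of the difference of the smooth and the holomorphic solution -/
noncomputable def al (f g h₀ h₁ : E → ℂ) (χ : ℂ → ℝ) (ρ : ℝ) (v : E) : ℂ :=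
  if ‖g v‖ < ρ then h₁ v / f v else ((χ (g v) : ℂ) / f v - h₀ v) / g v

namespace Pair

variable {f g h₀ h₁ : E → ℂ} {χ : ℂ → ℝ} {ρ : ℝ}

theorem f_low (h : Pair f g h₀ h₁ χ ρ) {z : E} (hz : z ∈ ball (0 : E) 1) (hg : ‖g z‖ < 3 * ρ) :
    2 * ρ ≤ ‖f z‖ := by
  have h1 := h.low z hz
  have hρ := h.ρ0
  have h2 : ‖g z‖ ^ 2 ≤ (3 * ρ) ^ 2 := pow_le_pow_left₀ (norm_nonneg _) hg.le 2
  have h3 : (2 * ρ) ^ 2 ≤ ‖f z‖ ^ 2 := by nlinarith
  exact le_of_pow_le_pow_left₀ two_ne_zero (norm_nonneg _) h3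

theorem f_ne (h : Pair f g h₀ h₁ χ ρ) {z : E} (hz : z ∈ ball (0 : E) 1) (hg : ‖g z‖ < 3 * ρ) :
    f z ≠ 0 := by
  have h1 := h.f_low hz hg
  have hρ := h.ρ0
  exact norm_pos_iff.mp (by linarith)

/-- the local form -/
theorem al_loc (h : Pair f g h₀ h₁ χ ρ) {v₀ : E} (hv₀ : v₀ ∈ ball (0 : E) 1) :
    ∃ (U : Set E) (κ l : E → ℂ), IsOpen U ∧ v₀ ∈ U ∧ U ⊆ ball 0 1 ∧ DifferentiableOn ℂ κ U ∧
      DifferentiableOn ℂ l U ∧ (∀ v ∈ U, ‖κ v‖ ≤ 1 / ρ ^ 2) ∧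
      ∀ v ∈ U, al f g h₀ h₁ χ ρ v = (χ (g v) : ℂ) * κ v + l v := by
  have hρ := h.ρ0
  have hgc : ContinuousOn (fun v => ‖g v‖) (ball (0 : E) 1) := h.gd.continuousOn.norm
  rcases lt_or_ge ‖g v₀‖ ρ with h1 | h1
  · refine ⟨ball 0 1 ∩ (fun v => ‖g v‖) ⁻¹' Iio ρ, fun _ => 0, fun v => h₁ v / f v,
      hgc.isOpen_inter_preimage isOpen_ball isOpen_Iio, ⟨hv₀, h1⟩, inter_subset_left,
      differentiableOn_const _, ?_, ?_, ?_⟩
    · simp only [div_eq_mul_inv]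
      apply (h.d1.mono inter_subset_left).mul
      apply (h.fd.mono inter_subset_left).inv
      rintro v ⟨hv, hgv⟩
      have hgv' : ‖g v‖ < ρ := hgv
      exact h.f_ne hv (by linarith)
    · intro v _
      rw [norm_zero]; positivity
    · rintro v ⟨hv, hgv⟩
      have hgv' : ‖g v‖ < ρ := hgv
      rw [al, if_pos hgv', mul_zero, zero_add]
  · rcases lt_or_ge ‖g v₀‖ (3 * ρ) with h2 | h2
    · refine ⟨ball 0 1 ∩ (fun v => ‖g v‖) ⁻¹' Ioo (ρ / 2) (3 * ρ), fun v => (f v * g v)⁻¹,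
        fun v => -(h₀ v) / g v, hgc.isOpen_inter_preimage isOpen_ball isOpen_Ioo,
        ⟨hv₀, ⟨by linarith, h2⟩⟩, inter_subset_left, ?_, ?_, ?_, ?_⟩
      · apply ((h.fd.mono inter_subset_left).mul (h.gd.mono inter_subset_left)).inv
        rintro v ⟨hv, hgv⟩
        have hgv' : ρ / 2 < ‖g v‖ := hgv.1
        exact mul_ne_zero (h.f_ne hv hgv.2) (norm_pos_iff.mp (by linarith))
      · simp only [div_eq_mul_inv]
        apply (h.d0.mono inter_subset_left).neg.mul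
        apply (h.gd.mono inter_subset_left).inv
        rintro v ⟨hv, hgv⟩
        have hgv' : ρ / 2 < ‖g v‖ := hgv.1
        exact norm_pos_iff.mp (by linarith)
      · rintro v ⟨hv, hgv⟩
        have hgv' : ρ / 2 < ‖g v‖ := hgv.1
        have hfl := h.f_low hv hgv.2
        rw [norm_inv, norm_mul, one_div]
        apply inv_anti₀ (by positivity)
        calc ρ ^ 2 = (2 * ρ) * (ρ / 2) := by ring
          _ ≤ ‖f v‖ * ‖g v‖ := by gcongr
      · rintro v ⟨hv, hgv⟩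
        have hgv' : ρ / 2 < ‖g v‖ := hgv.1
        have hf0 := h.f_ne hv hgv.2
        have hg0 : g v ≠ 0 := norm_pos_iff.mp (by linarith)
        rw [al]
        split_ifs with h3
        · rw [h.cs _ h3.le, Complex.ofReal_one, one_mul, div_eq_iff hf0]
          have h4 := h.one v hv
          field_simp
          linear_combination h4
        · field_simp
          ring
    · refine ⟨ball 0 1 ∩ (fun v => ‖g v‖) ⁻¹' Ioi (2 * ρ), fun _ => 0,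
        fun v => -(h₀ v) / g v, hgc.isOpen_inter_preimage isOpen_ball isOpen_Ioi,
        ⟨hv₀, by show 2 * ρ < ‖g v₀‖; linarith⟩, inter_subset_left, differentiableOn_const _,
        ?_, ?_, ?_⟩
      · simp only [div_eq_mul_inv]
        apply (h.d0.mono inter_subset_left).neg.mul
        apply (h.gd.mono inter_subset_left).inv
        rintro v ⟨hv, hgv⟩
        have hgv' : 2 * ρ < ‖g v‖ := hgv
        exact norm_pos_iff.mp (by linarith)
      · intro v _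
        rw [norm_zero]; positivity
      · rintro v ⟨hv, hgv⟩
        have hgv' : 2 * ρ < ‖g v‖ := hgv
        rw [al, if_neg (by linarith), h.cl _ hgv'.le, Complex.ofReal_zero, zero_div, zero_sub,
          zero_mul, zero_add]

theorem al_contDiffOn [FiniteDimensional ℂ E] (h : Pair f g h₀ h₁ χ ρ) :
    ContDiffOn ℝ 1 (al f g h₀ h₁ χ ρ) (ball 0 1) := by
  intro v₀ hv₀
  obtain ⟨U, κ, l, hU, hvU, hUb, hκ, hl, -, hloc⟩ := h.al_loc hv₀
  apply ContDiffAt.contDiffWithinAt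
  have h1 : ContDiffOn ℝ 1 (fun v => (χ (g v) : ℂ) * κ v + l v) U := by
    apply ContDiffOn.add _ (hol_contDiffOn hU hl)
    apply ContDiffOn.mul _ (hol_contDiffOn hU hκ)
    have h2 : ContDiff ℝ 1 (fun ζ : ℂ => ((χ ζ : ℝ) : ℂ)) := Complex.ofRealCLM.contDiff.comp h.c
    exact h2.comp_contDiffOn (hol_contDiffOn hU (h.gd.mono hUb))
  have h2 := h1.contDiffAt (hU.mem_nhds hvU)
  apply h2.congr_of_eventuallyEq
  filter_upwards [hU.mem_nhds hvU] with v hv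
  exact hloc v hv

/-- the bound of the first component of the smooth solution -/
theorem u0_bd (h : Pair f g h₀ h₁ χ ρ) {v : E} (hv : v ∈ ball (0 : E) 1) :
    ‖al f g h₀ h₁ χ ρ v * g v + h₀ v‖ ≤ 1 / ρ := by
  have hρ := h.ρ0
  rw [al]
  split_ifs with h1
  · have hf := h.f_low hv (by linarith)
    have hf0 := h.f_ne hv (by linarith)
    have e1 : h₁ v / f v * g v + h₀ v = (f v)⁻¹ := by
      rw [div_mul_eq_mul_div, div_add' _ _ _ hf0, ← one_div]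
      congr 1
      linear_combination h.one v hv
    rw [e1, norm_inv, one_div]
    apply inv_anti₀ hρ
    linarith
  · have hg0 : g v ≠ 0 := norm_pos_iff.mp (by linarith)
    have e1 : ((χ (g v) : ℂ) / f v - h₀ v) / g v * g v + h₀ v = (χ (g v) : ℂ) / f v := by
      rw [div_mul_cancel₀ _ hg0]; ring
    rw [e1, norm_div, Complex.norm_real, Real.norm_of_nonneg (h.c0 _)]
    rcases lt_or_ge ‖g v‖ (2 * ρ) with h2 | h2
    · have hf := h.f_low hv (by linarith)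
      have h3 := h.c1 (g v)
      have h4 := h.c0 (g v)
      rw [div_le_div_iff₀ (by linarith) hρ]
      nlinarith
    · rw [h.cl _ h2, zero_div]; positivity

/-- the bound of the second component of the smooth solution -/
theorem u1_bd (h : Pair f g h₀ h₁ χ ρ) {v : E} (hv : v ∈ ball (0 : E) 1) :
    ‖h₁ v - al f g h₀ h₁ χ ρ v * f v‖ ≤ 1 / ρ := by
  have hρ := h.ρ0
  rw [al]
  split_ifs with h1
  · have hf0 := h.f_ne hv (by linarith)
    rw [div_mul_cancel₀ _ hf0, sub_self, norm_zero]; positivity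
  · have hg0 : g v ≠ 0 := norm_pos_iff.mp (by linarith)
    have e1 : h₁ v - ((χ (g v) : ℂ) / f v - h₀ v) / g v * f v =
        (1 - (χ (g v) : ℂ) / f v * f v) / g v := by
      rw [eq_div_iff hg0]
      have : ((χ (g v) : ℂ) / f v - h₀ v) / g v * g v = (χ (g v) : ℂ) / f v - h₀ v :=
        div_mul_cancel₀ _ hg0
      linear_combination h.one v hv - f v * this
    have h2 : (χ (g v) : ℂ) / f v * f v = (χ (g v) : ℂ) := by
      rcases lt_or_ge ‖g v‖ (2 * ρ) with h2 | h2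
      · exact div_mul_cancel₀ _ (h.f_ne hv (by linarith))
      · rw [h.cl _ h2]; simp
    rw [e1, h2, norm_div]
    have h3 : ‖(1 : ℂ) - (χ (g v) : ℂ)‖ ≤ 1 := by
      have : (1 : ℂ) - (χ (g v) : ℂ) = ((1 - χ (g v) : ℝ) : ℂ) := by push_cast; ring
      rw [this, Complex.norm_real, Real.norm_of_nonneg (by linarith [h.c1 (g v)])]
      linarith [h.c0 (g v)]
    rw [div_le_div_iff₀ (by linarith) hρ, one_mul]
    nlinarith

/-- the quotient is bounded -/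
theorem al_bd (h : Pair f g h₀ h₁ χ ρ) {Ch : ℝ} (hh₀ : ∀ z ∈ ball (0 : E) 1, ‖h₀ z‖ ≤ Ch)
    (hh₁ : ∀ z ∈ ball (0 : E) 1, ‖h₁ z‖ ≤ Ch) {v : E} (hv : v ∈ ball (0 : E) 1) :
    ‖al f g h₀ h₁ χ ρ v‖ ≤ (1 / ρ + Ch) / ρ := by
  have hρ := h.ρ0
  have hC : 0 ≤ Ch := (norm_nonneg _).trans (hh₀ v hv)
  rcases lt_or_ge ‖g v‖ ρ with h1 | h1
  · rw [al, if_pos h1, norm_div]
    have hf := h.f_low hv (by linarith)
    have h2 := hh₁ v hv
    apply div_le_div₀ (by positivity) _ hρ (by linarith)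
    have : 0 ≤ 1 / ρ := by positivity
    linarith
  · have h2 := h.u0_bd hv
    have h3 : al f g h₀ h₁ χ ρ v * g v = (al f g h₀ h₁ χ ρ v * g v + h₀ v) - h₀ v := by ring
    have h4 : ‖al f g h₀ h₁ χ ρ v‖ * ‖g v‖ ≤ 1 / ρ + Ch := by
      rw [← norm_mul, h3]
      exact (norm_sub_le _ _).trans (add_le_add h2 (hh₀ v hv))
    rw [le_div_iff₀ hρ]
    exact (mul_le_mul_of_nonneg_left h1 (norm_nonneg _)).trans h4

end Pair

/-- the weight that localizes -/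
noncomputable def ps (a : E) (R : ℝ) (v : E) : ℂ := ((R : ℂ) + (1 - ⟪a, v⟫_ℂ))⁻¹

theorem re_nonneg_of {a v : E} (ha : ‖a‖ = 1) (hv : ‖v‖ ≤ 1) : 0 ≤ (1 - ⟪a, v⟫_ℂ).re := by
  have h1 := Complex.re_le_norm ⟪a, v⟫_ℂ
  have h2 := norm_inner_le ha v
  rw [Complex.sub_re, Complex.one_re]
  linarith

theorem norm_add_ge {R : ℝ} (hR : 0 ≤ R) {ζ : ℂ} (hζ : 0 ≤ ζ.re) :
    R ≤ ‖(R : ℂ) + ζ‖ ∧ ‖ζ‖ ≤ ‖(R : ℂ) + ζ‖ := by
  constructor
  · have := Complex.re_le_norm ((R : ℂ) + ζ)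
    rw [Complex.add_re, Complex.ofReal_re] at this
    linarith
  · apply le_of_sq_le_sq _ (norm_nonneg _)
    rw [← Complex.normSq_eq_norm_sq, ← Complex.normSq_eq_norm_sq, Complex.normSq_apply,
      Complex.normSq_apply, Complex.add_re, Complex.add_im, Complex.ofReal_re, Complex.ofReal_im,
      zero_add]
    nlinarith

theorem ps_ne {a v : E} (ha : ‖a‖ = 1) (hv : ‖v‖ ≤ 1) {R : ℝ} (hR : 0 < R) :
    (R : ℂ) + (1 - ⟪a, v⟫_ℂ) ≠ 0 := by
  have := (norm_add_ge hR.le (re_nonneg_of ha hv)).1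
  exact norm_pos_iff.mp (by linarith)

theorem ps_diff {a : E} (ha : ‖a‖ = 1) {R : ℝ} (hR : 0 < R) :
    DifferentiableOn ℂ (ps a R) (ball (0 : E) 1) := by
  unfold ps
  apply DifferentiableOn.inv
  · apply Differentiable.differentiableOn
    exact ((differentiable_const _).sub (innerSL ℂ a).differentiable).const_add _
  · intro v hv
    exact ps_ne ha (mem_ball_zero_iff.mp hv).le hR

theorem ps_bd {a v : E} (ha : ‖a‖ = 1) (hv : ‖v‖ ≤ 1) {R : ℝ} (hR : 0 < R) :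
    ‖ps a R v‖ ≤ 1 / R := by
  rw [ps, norm_inv, one_div]
  exact inv_anti₀ hR (norm_add_ge hR.le (re_nonneg_of ha hv)).1

theorem ps_ratio {a z v : E} (ha : ‖a‖ = 1) (hz : ‖z‖ ≤ 1) (hv : ‖v‖ ≤ 1) {R κ : ℝ} (hR : 0 < R)
    (hκ : 0 < κ) (hzR : ‖1 - ⟪a, z⟫_ℂ‖ < R) (hzv : κ ≤ ‖1 - ⟪z, v⟫_ℂ‖) :
    ‖ps a R v‖ ≤ 8 * min 1 (R / κ) * ‖ps a R z‖ := by
  obtain ⟨h1, h2⟩ := norm_add_ge hR.le (re_nonneg_of ha hv)
  have h3 := quasi_tri ha hz hv
  have h4 : κ / 4 ≤ ‖(R : ℂ) + (1 - ⟪a, v⟫_ℂ)‖ := by linarith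
  have h5 : ‖(R : ℂ) + (1 - ⟪a, z⟫_ℂ)‖ ≤ 2 * R := by
    refine (norm_add_le _ _).trans ?_
    rw [Complex.norm_real, Real.norm_of_nonneg hR.le]
    linarith
  have h6 : 0 < ‖(R : ℂ) + (1 - ⟪a, z⟫_ℂ)‖ := norm_pos_iff.mpr (ps_ne ha hz hR)
  have h7 : 1 / (2 * R) ≤ ‖ps a R z‖ := by
    rw [ps, norm_inv, one_div]
    exact inv_anti₀ h6 h5
  have h8 : ‖ps a R v‖ ≤ min (1 / R) (4 / κ) := by
    apply le_min (ps_bd ha hv hR)
    rw [ps, norm_inv, inv_le_comm₀ (by linarith) (by positivity), inv_div]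
    exact h4
  refine h8.trans ?_
  have h9 : 8 * min 1 (R / κ) * (1 / (2 * R)) ≤ 8 * min 1 (R / κ) * ‖ps a R z‖ := by
    have : 0 ≤ min 1 (R / κ) := le_min zero_le_one (by positivity)
    gcongr
  refine le_trans ?_ h9
  rcases le_total 1 (R / κ) with h10 | h10
  · rw [min_eq_left h10]
    refine (min_le_left _ _).trans ?_
    rw [mul_one]
    calc 1 / R ≤ 4 * (1 / R) := by
          have : 0 < 1 / R := by positivity
          linarith
      _ = 8 * (1 / (2 * R)) := by field_simp; norm_num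
  · rw [min_eq_right h10]
    refine (min_le_right _ _).trans (le_of_eq ?_)
    field_simp
    norm_num

end Pool.Agent.MPca0fc2.VP
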