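import Mathlib
import Pool.Agent.Lib.MP_ca0fc2_an.QSd
import Pool.Agent.Lib.MP_ca0fc2_an.QSe
import Pool.Agent.Lib.MP_ca0fc2_an.QSg
import Pool.Agent.Lib.MP_ca0fc2_an.VP6

set_option autoImplicit false
set_option linter.unusedSectionVars false

open Metric Set MeasureTheory Filter Topology
open scoped InnerProductSpace ENNReal

namespace Pool.Agent.MPca0fc2.QS

open Pool.Agent.MPca0fc2.PT
open Pool.Agent.MPca0fc2.QT
open Pool.Agent.MPca0fc2.VL (Mod half_mem)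

variable {E : Type*} [NormedAddCommGroup E] [InnerProductSpace ℂ E]
variable {V : Type*} [NormedAddCommGroup V] [NormedSpace ℂ V]

/-- comparison of the weight with the scale -/
theorem om_scale {ω : ℝ → ℝ} (hω : Mod ω) {k j : ℕ} {z w : E} (hz : ‖z‖ < 1) (hw : ‖w‖ < 1)
    (hs : (1 / 2 : ℝ) ^ k ≤ 1 - ‖z‖ ^ 2) (h1 : (1 / 2 : ℝ) ^ (j + 1) < ‖1 - ⟪w, z⟫_ℂ‖ / 2)
    (h2 : ‖1 - ⟪w, z⟫_ℂ‖ / 2 ≤ (1 / 2) ^ j) :
    ω (de k w) ≤ 1024 * ω ((1 / 2) ^ j) * (‖1 - ⟪w, z⟫_ℂ‖ / (1 - ‖w‖ ^ 2)) ^ 3 := by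
  obtain ⟨w1, w2, w3, w4, w5, w6⟩ := de_facts le_rfl (one_lt_RC k).le hw
  obtain ⟨d1, d2⟩ := D_facts (R := 1) hz hw
  rw [one_pow, Complex.ofReal_one] at d1 d2
  rw [one_pow] at w2 w3 w6
  obtain ⟨D, hD⟩ : ∃ D, D = ‖1 - ⟪w, z⟫_ℂ‖ := ⟨_, rfl⟩
  obtain ⟨e, he⟩ : ∃ e, e = 1 - ‖w‖ ^ 2 := ⟨_, rfl⟩
  rw [← hD] at d1 d2 h1 h2 ⊢
  rw [← he] at w2 w3 w6 d1 ⊢
  have hjj : (1 / 2 : ℝ) ^ (j + 1) * 2 = (1 / 2) ^ j := by rw [pow_succ]; ring
  have hj0 : (0 : ℝ) < (1 / 2) ^ j := by positivity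
  have hjD : (1 / 2 : ℝ) ^ j < D := by linarith
  have hD0 : 0 < D := hj0.trans hjD
  have hx : 1 / 2 ≤ D / e := by rw [le_div_iff₀ w6]; linarith
  obtain ⟨hm0, hm1⟩ := half_mem j
  have hωj := (hω.1 _ (half_mem j)).le
  obtain ⟨A, hA, hA1, hA2, hA3⟩ : ∃ A : ℝ, 1 ≤ A ∧ de k w ≤ A * (1 / 2) ^ j ∧
      (1 / 2) ^ j ≤ A * de k w ∧ (A ≤ 32 * (D / e) ∨ A ≤ 32 * 1) := by
    rcases le_total (de k w) ((1 / 2) ^ j) with h | h
    · refine ⟨(1 / 2) ^ j / de k w, ?_, ?_, ?_, Or.inl ?_⟩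
      · rw [le_div_iff₀ w4]; linarith
      · have : 1 ≤ (1 / 2 : ℝ) ^ j / de k w := by rw [le_div_iff₀ w4]; linarith
        nlinarith
      · rw [div_mul_cancel₀ _ w4.ne']
      · rw [div_le_iff₀ w4]
        calc (1 / 2 : ℝ) ^ j ≤ D := hjD.le
          _ = (D / e) * e := by field_simp
          _ ≤ (D / e) * (13 * de k w) := by gcongr
          _ ≤ 32 * (D / e) * de k w := by
              have : 0 ≤ D / e * de k w := by positivity
              nlinarith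
    · refine ⟨de k w / (1 / 2) ^ j, ?_, ?_, ?_, Or.inr ?_⟩
      · rw [le_div_iff₀ hj0]; linarith
      · rw [div_mul_cancel₀ _ hj0.ne']
      · have : 1 ≤ de k w / (1 / 2 : ℝ) ^ j := by rw [le_div_iff₀ hj0]; linarith
        nlinarith
      · rw [div_le_iff₀ hj0]
        linarith
  have h4 := om_le hω (s := de k w) (t := (1 / 2) ^ j) (A := A) ⟨w4, w5⟩ ⟨hm0, hm1⟩ hA hA1 hA2
  have h5 := cs_pow (x := D / e) (y := 1) hx (by norm_num) (C := 32) (by norm_num) (by linarith) hA3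
  rw [Real.one_rpow, mul_one] at h5
  calc ω (de k w) ≤ ω ((1 / 2) ^ j) * A ^ (1 / 8 : ℝ) := h4
    _ ≤ ω ((1 / 2) ^ j) * (32 * 32 * (D / e) ^ 3) := by gcongr
    _ = _ := by ring

/-- the localizing weight is holomorphic near the closed ball -/
theorem ps_diff' {a : E} (ha : ‖a‖ = 1) {R' ε : ℝ} (hR : ε ≤ R') :
    DifferentiableOn ℂ (VP.ps a R') (ball (0 : E) (1 + ε)) := by
  unfold VP.ps
  apply DifferentiableOn.inv
  · apply Differentiable.differentiableOn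
    exact ((differentiable_const _).sub (innerSL ℂ a).differentiable).const_add _
  · intro v hv h0
    have h1 : ((R' : ℂ) + (1 - ⟪a, v⟫_ℂ)).re = 0 := by rw [h0]; rfl
    have h2 := Complex.re_le_norm ⟪a, v⟫_ℂ
    have h3 := norm_inner_le_norm (𝕜 := ℂ) a v
    rw [ha, one_mul] at h3
    have h4 := mem_ball_zero_iff.mp hv
    rw [Complex.add_re, Complex.sub_re, Complex.ofReal_re, Complex.one_re] at h1
    linarith

variable [FiniteDimensional ℂ E] [MeasurableSpace E] [BorelSpace E]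

/-- the last step: a solution of `∂̄ S = η` on the ball, bounded on a tent -/
theorem last_step (μ : Measure E) [μ.IsAddHaarMeasure] {m : ℕ} (hm : 1 ≤ m)
    (hdim : Module.finrank ℂ E = m + 1) [FiniteDimensional ℂ V] :
    ∃ C : ℝ, 0 < C ∧ ∀ ω : ℝ → ℝ, Mod ω → ∀ (k : ℕ) (R' B : ℝ) (a : E)
      (η : E → E [⋀^Fin 1]→L[ℝ] V), ‖a‖ = 1 → (1 / 2) ^ k ≤ R' → 0 ≤ B →
      ContDiffOn ℝ 1 η (ball 0 (1 + 1 / 8 * (1 / 2) ^ k)) →
      (∀ w ∈ ball (0 : E) (1 + 1 / 8 * (1 / 2) ^ k), Anti (η w)) →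
      (∀ w ∈ ball (0 : E) (1 + 1 / 8 * (1 / 2) ^ k), db η w = 0) →
      BdS ω k (1 + 1 / 8 * (1 / 2) ^ k) B η →
      ∃ S : E → E [⋀^Fin 0]→L[ℝ] V, ContDiffOn ℝ 1 S (ball 0 1) ∧
        (∀ z ∈ ball (0 : E) 1, db S z = η z) ∧
        ∀ z ∈ ball (0 : E) 1, (1 / 2) ^ k ≤ 1 - ‖z‖ ^ 2 → ‖1 - ⟪a, z⟫_ℂ‖ < R' →
          ∀ v : Fin 0 → E, ‖S z v‖ ≤ C * B *
            ∑ j ∈ Finset.range (k + 3), ω ((1 / 2) ^ j) * min 1 (R' * 2 ^ j) := by
  obtain ⟨CT, hCT, hT⟩ := TT0 (V := V) μ hm hdim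
  obtain ⟨CG, hCG, hG⟩ := gau_compare (E := E) (θ := 1 / 2) (by norm_num) (by norm_num) one_pos
  refine ⟨CT * (8 * 1024 * CG), by positivity, ?_⟩
  intro ω hω k R' B a η ha hkR hB hηc hηa hηd hηb
  have ht : (0 : ℝ) < (1 / 2) ^ k := by positivity
  have hR'0 : 0 < R' := by linarith
  obtain ⟨ψ, hψ⟩ : ∃ ψ : E → ℂ, ψ = VP.ps a R' := ⟨_, rfl⟩
  have hψd : DifferentiableOn ℂ ψ (ball (0 : E) (1 + 1 / 8 * (1 / 2) ^ k)) := by
    rw [hψ]; exact ps_diff' ha (by linarith)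
  have hcl : closedBall (0 : E) 1 ⊆ ball 0 (1 + 1 / 8 * (1 / 2) ^ k) :=
    closedBall_subset_ball (by linarith)
  have hbl : ball (0 : E) 1 ⊆ ball 0 (1 + 1 / 8 * (1 / 2) ^ k) := ball_subset_ball (by linarith)
  obtain ⟨η', hη'⟩ : ∃ η' : E → E [⋀^Fin 1]→L[ℝ] V, η' = fun w => ψ w • η w := ⟨_, rfl⟩
  have hη'c : ContDiffOn ℝ 1 η' (ball 0 (1 + 1 / 8 * (1 / 2) ^ k)) := by
    rw [hη']
    exact ((QTDesc_hol isOpen_ball hψd).restrict_scalars ℝ).smul hηc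
  have hη'a : ∀ w ∈ ball (0 : E) (1 + 1 / 8 * (1 / 2) ^ k), Anti (η' w) := by
    intro w hw
    rw [hη']
    exact (hηa w hw).smul _
  have hη'd : ∀ w ∈ ball (0 : E) (1 + 1 / 8 * (1 / 2) ^ k), db η' w = 0 := by
    intro w hw
    rw [hη', db_smul (hψd.differentiableAt (isOpen_ball.mem_nhds hw))
      ((hηc.contDiffAt (isOpen_ball.mem_nhds hw)).differentiableAt (by norm_num)), hηd w hw,
      smul_zero]
  have hTc := TT_c1 μ m isOpen_ball hcl hη'c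
  have hTd : ∀ z ∈ ball (0 : E) 1, db (QT.TT μ m η') z = η' z := fun z hz =>
    kop_one μ hdim isOpen_ball hcl hη'c hη'a hη'd (mem_ball_zero_iff.mp hz)
  obtain ⟨φ, hφ⟩ : ∃ φ : E → ℂ, φ = fun z => (R' : ℂ) + (1 - ⟪a, z⟫_ℂ) := ⟨_, rfl⟩
  have hφd : Differentiable ℂ φ := by
    rw [hφ]
    exact ((differentiable_const _).sub (innerSL ℂ a).differentiable).const_add _
  have hφψ : ∀ z ∈ ball (0 : E) 1, φ z * ψ z = 1 := by
    intro z hz
    rw [hφ, hψ]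
    exact mul_inv_cancel₀ (VP.ps_ne ha (mem_ball_zero_iff.mp hz).le hR'0)
  refine ⟨fun z => φ z • QT.TT μ m η' z, ?_, ?_, ?_⟩
  · exact ((QTDesc_hol isOpen_ball hφd.differentiableOn).restrict_scalars ℝ).smul hTc
  · intro z hz
    rw [db_smul hφd.differentiableAt
      ((hTc.contDiffAt (isOpen_ball.mem_nhds hz)).differentiableAt (by norm_num)), hTd z hz, hη',
      smul_smul, hφψ z hz, one_smul]
  · intro z hz hzs hza v
    have hz1 : ‖z‖ < 1 := mem_ball_zero_iff.mp hz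
    obtain ⟨c, hc⟩ : ∃ c : ℕ → ℝ, c = fun j => ω ((1 / 2) ^ j) * min 1 (R' * 2 ^ j) := ⟨_, rfl⟩
    have hc0 : ∀ j, 0 ≤ c j := by
      intro j
      rw [hc]
      have h1 := (hω.1 _ (half_mem j)).le
      have h2 : 0 ≤ min 1 (R' * 2 ^ j) := le_min zero_le_one (by positivity)
      positivity
    have hK : (1 / 2 : ℝ) ^ (k + 2 + 1) < (1 - ‖z‖ ^ 2) / 4 := by
      have h1 : (1 / 2 : ℝ) ^ (k + 2 + 1) = (1 / 2) ^ k / 8 := by
        rw [pow_succ, pow_add]; ring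
      rw [h1]; linarith
    have key := hT η' z (8 * 1024 * CG * B * ‖ψ z‖) c (k + 2) hz1 (by positivity) hc0 hK ?_ v
    · have e1 : c = fun j => ω ((1 / 2) ^ j) * min 1 (R' * 2 ^ j) := hc
      simp only [← congrFun e1]
      have e2 : ‖(φ z • QT.TT μ m η' z) v‖ = ‖φ z‖ * ‖QT.TT μ m η' z v‖ := by
        rw [ContinuousAlternatingMap.smul_apply, norm_smul]
      rw [e2]
      have e3 : ‖φ z‖ * ‖ψ z‖ = 1 := by rw [← norm_mul, hφψ z hz, norm_one]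
      calc ‖φ z‖ * ‖QT.TT μ m η' z v‖ ≤ ‖φ z‖ * (CT * (8 * 1024 * CG * B * ‖ψ z‖) *
            ∑ j ∈ Finset.range (k + 2 + 1), c j) := by gcongr
        _ = (‖φ z‖ * ‖ψ z‖) * (CT * (8 * 1024 * CG) * B * ∑ j ∈ Finset.range (k + 3), c j) := by
            ring
        _ = _ := by rw [e3, one_mul]
    · intro w hw j hj1 hj2 x
      have hw1 : ‖w‖ < 1 := mem_ball_zero_iff.mp hw
      have hwR : ‖w‖ < 1 + 1 / 8 * (1 / 2) ^ k := by linarith
      have a1 := hηb w hwR x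
      have a2 := om_scale hω hz1 hw1 hzs hj1 hj2
      have a3 := (hG k 1 w (x 0) le_rfl (one_lt_RC k).le).1 hw1
      rw [one_pow] at a3
      have hj0 : (0 : ℝ) < (1 / 2) ^ j := by positivity
      have hjj : (1 / 2 : ℝ) ^ (j + 1) * 2 = (1 / 2) ^ j := by rw [pow_succ]; ring
      have a4 : ‖ψ w‖ ≤ 8 * min 1 (R' * 2 ^ j) * ‖ψ z‖ := by
        rw [hψ]
        have h8 := VP.ps_ratio (κ := (1 / 2) ^ j) ha hz1.le hw1.le hR'0 hj0 hza (by
          have e1 : 1 - ⟪z, w⟫_ℂ = (starRingEnd ℂ) (1 - ⟪w, z⟫_ℂ) := by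
            rw [map_sub, map_one, inner_conj_symm]
          rw [e1, RCLike.norm_conj]
          linarith)
        have h9 : R' / (1 / 2) ^ j = R' * 2 ^ j := by
          rw [one_div, inv_pow, div_inv_eq_mul]
        rwa [h9] at h8
      rw [Fin.prod_univ_one] at a1
      obtain ⟨w1, w2, w3, w4, w5, w6⟩ := de_facts le_rfl (one_lt_RC k).le hw1
      have g0 : 0 ≤ gau (de k w) w (x 0) := kest_gau_nonneg w4.le _ _
      have hωw := (hω.1 _ ⟨w4, w5⟩).le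
      have e2 : ‖η' w x‖ = ‖ψ w‖ * ‖η w x‖ := by
        rw [hη']
        simp only [ContinuousAlternatingMap.smul_apply, norm_smul]
      have hmin : 0 ≤ min 1 (R' * 2 ^ j) := le_min zero_le_one (by positivity)
      rw [e2]
      have hX := hωw.trans a2
      calc ‖ψ w‖ * ‖η w x‖ ≤ (8 * min 1 (R' * 2 ^ j) * ‖ψ z‖) *
            (B * ω (de k w) * gau (de k w) w (x 0)) :=
            mul_le_mul a4 a1 (norm_nonneg _) (by positivity)
        _ ≤ (8 * min 1 (R' * 2 ^ j) * ‖ψ z‖) *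
            (B * (1024 * ω ((1 / 2) ^ j) * (‖1 - ⟪w, z⟫_ℂ‖ / (1 - ‖w‖ ^ 2)) ^ 3) *
              (CG * gau (1 - ‖w‖ ^ 2) w (x 0))) := by
            apply mul_le_mul_of_nonneg_left _ (by positivity)
            apply mul_le_mul (mul_le_mul_of_nonneg_left a2 hB) a3 g0 (mul_nonneg hB hX)
        _ = _ := by rw [hc]; ring

end Pool.Agent.MPca0fc2.QS
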