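import Mathlib
import Pool.Agent.Lib.MP_ca0fc2_an.QSi
import Pool.Agent.Lib.MP_ca0fc2_an.Gleason

set_option autoImplicit false
set_option linter.unusedSectionVars false

open Metric Set MeasureTheory Filter Topology
open scoped InnerProductSpace ENNReal

namespace Pool.Agent.MPca0fc2.QS

open Pool.Agent.MPca0fc2.PT
open Pool.Agent.MPca0fc2.QT
open Pool.Agent.MPca0fc2.VL (Mod half_mem)
open Pool.Agent.Lib.MP_ca0fc2_an

/-- truncation of a modulus -/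
theorem mod_min {ω : ℝ → ℝ} (hω : Mod ω) {Λ : ℝ} (hΛ : 0 < Λ) : Mod fun t => min (ω t) Λ := by
  refine ⟨fun t ht => lt_min (hω.1 t ht) hΛ, fun s hs t ht hst => ?_⟩
  obtain ⟨h1, h2⟩ := hω.2 s hs t ht hst
  have hq : 1 ≤ (t / s) ^ (1 / 8 : ℝ) := by
    apply Real.one_le_rpow _ (by norm_num)
    rw [le_div_iff₀ hs.1]
    linarith
  have hA : ∀ a b : ℝ, 0 ≤ b → a ≤ b * (t / s) ^ (1 / 8 : ℝ) →
      min a Λ ≤ min b Λ * (t / s) ^ (1 / 8 : ℝ) := by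
    intro a b hb hab
    rcases le_total b Λ with h | h
    · rw [min_eq_left h]
      exact (min_le_left _ _).trans hab
    · rw [min_eq_right h]
      refine (min_le_right _ _).trans ?_
      nlinarith
  exact ⟨hA _ _ (hω.1 t ht).le h1, hA _ _ (hω.1 s hs).le h2⟩

variable {E : Type*} [NormedAddCommGroup E] [InnerProductSpace ℂ E]

/-- The solution on a truncated tent, for `N + 1` data. -/
theorem data_block (E : Type*) [NormedAddCommGroup E] [InnerProductSpace ℂ E]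
    [FiniteDimensional ℂ E] (hdim : 2 ≤ Module.finrank ℂ E) (N : ℕ) (M δ : ℝ) (hδ : 0 < δ) :
    ∃ C₃ : ℝ, 0 ≤ C₃ ∧ ∀ (ω : ℝ → ℝ), Mod ω → ∀ F : Fin (N + 1) → E → ℂ,
      (∀ j, DifferentiableOn ℂ (F j) (ball 0 1)) →
      (∀ j, ∀ z ∈ ball (0 : E) 1, ‖F j z‖ ≤ M) →
      (∀ z ∈ ball (0 : E) 1, δ ≤ ∑ j, ‖F j z‖ ^ 2) →
      (∀ j : Fin N, ∀ z ∈ ball (0 : E) 1,
        (1 - ‖z‖) * ‖fderiv ℂ (F j.succ) z‖ ≤ ω (1 - ‖z‖)) →
      ∀ (k₁ : ℕ) (R : ℝ) (a : E), 1 ≤ k₁ → (1 / 2) ^ k₁ ≤ R → ‖a‖ = 1 →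
        SolvableOn F {z | z ∈ ball (0 : E) 1 ∧ ‖1 - ⟪z, a⟫_ℂ‖ < R ∧
          2 * (1 / 2) ^ k₁ < 1 - ‖z‖}
          (C₃ * (1 + ∑ k ∈ Finset.range (k₁ + 3), ω ((1 / 2) ^ k) * min 1 (R * 2 ^ k))) := by
  classical
  rcases lt_or_ge M 0 with hM | hM
  · refine ⟨0, le_rfl, ?_⟩
    intro ω hω F hF hFM
    exact absurd ((norm_nonneg _).trans (hFM 0 0 (mem_ball_self one_pos))) (not_le.mpr hM)
  obtain ⟨m, hdim'⟩ : ∃ m, Module.finrank ℂ E = m + 1 := ⟨Module.finrank ℂ E - 1, by omega⟩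
  have hm : 1 ≤ m := by omega
  let _ : MeasurableSpace E := borel E
  have _ : BorelSpace E := ⟨rfl⟩
  obtain ⟨ρ, hρ⟩ : ∃ ρ : ℝ, ρ = √(δ / (9 * N + 1)) := ⟨_, rfl⟩
  have hN0 : (0 : ℝ) < 9 * N + 1 := by positivity
  have hρ0 : 0 < ρ := by rw [hρ]; exact Real.sqrt_pos.mpr (by positivity)
  have hρδ : (9 * N + 1) * ρ ^ 2 ≤ δ := by
    rw [hρ, Real.sq_sqrt (by positivity)]
    exact le_of_eq (by field_simp)
  obtain ⟨ι, hι, cc, χ, L, hL0, hχc, hχ0, hχ1, hχs, hχr, hχL⟩ := exists_part N M (ρ / 2)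
    (by positivity)
  obtain ⟨C, hC, hmain⟩ := cell_dil (d := N) (N := N + 1) (Measure.addHaar : Measure E) hm hdim'
    M (1 / ρ) L (2 * M + 1) (Fintype.card ι) hM (by positivity) hL0 (by positivity)
  refine ⟨3 * C, by positivity, ?_⟩
  intro ω hω F hF hFM hFδ hFg k₁ R a hk₁ hsR ha
  obtain ⟨s, hs⟩ : ∃ s : ℝ, s = (1 / 2) ^ k₁ := ⟨_, rfl⟩
  have hs0 : 0 < s := by rw [hs]; positivity
  have hs1 : s ≤ 1 / 2 := by
    rw [hs]
    calc (1 / 2 : ℝ) ^ k₁ ≤ (1 / 2) ^ 1 := pow_le_pow_of_le_one (by norm_num) (by norm_num) hk₁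
      _ = 1 / 2 := pow_one _
  rw [← hs] at hsR
  have hR0 : 0 < R := hs0.trans_le hsR
  obtain ⟨r, hr⟩ : ∃ r : ℝ, r = 1 - s := ⟨_, rfl⟩
  have hr0 : 0 < r := by rw [hr]; linarith
  have hr1 : r < 1 := by rw [hr]; linarith
  have hrt : rt (1 / 2) k₁ = r := by rw [rt, hr, hs]
  obtain ⟨R', hR'⟩ : ∃ R' : ℝ, R' = 3 * R := ⟨_, rfl⟩
  have hR'0 : 0 < R' := by rw [hR']; positivity
  obtain ⟨ω', hω'⟩ : ∃ ω' : ℝ → ℝ, ω' = fun t => min (ω t) (2 * M + 1) := ⟨_, rfl⟩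
  have hω'm : Mod ω' := by rw [hω']; exact mod_min hω (by positivity)
  have hcell := fun i => data_cells hρ0 hρδ hF hFδ (cc i)
  choose sol h1 h2 h3 using hcell
  have hCel : Cel F (fun j : Fin N => F j.succ) sol cc χ ω' M ρ (1 / ρ) L := by
    refine ⟨hM, by positivity, hρ0, hω'm, fun j => hF _, fun j => hFM _, ?_, hF, hFM, h1, h2, h3,
      ⟨hL0, hχc, hχ0, hχ1, hχr, hχL⟩, hχs⟩
    intro j z hz
    rw [hω']
    refine le_min (hFg j z hz) ?_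
    have := grad_cauchy (hF j.succ) hM (hFM j.succ) hz
    linarith
  obtain ⟨h, hh1, hh2, hh3⟩ := hmain ι le_rfl F (fun j : Fin N => F j.succ) sol cc χ ω' ρ hCel
    (fun t _ => by rw [hω']; exact min_le_right _ _) k₁ R' a ha (by rw [← hs, hR']; linarith)
  obtain ⟨Q, hQ⟩ : ∃ Q : ℝ, Q = ∑ k ∈ Finset.range (k₁ + 3), ω ((1 / 2) ^ k) *
      min 1 (R * 2 ^ k) := ⟨_, rfl⟩
  have hQ0 : 0 ≤ Q := by
    rw [hQ]
    apply Finset.sum_nonneg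
    intro k _
    have h1 := (hω.1 _ (half_mem k)).le
    have h2 : 0 ≤ min 1 (R * 2 ^ k) := le_min zero_le_one (by positivity)
    positivity
  have hcs : ∑ k ∈ Finset.range (k₁ + 3), ω' ((1 / 2) ^ k) * min 1 (R' * 2 ^ k) ≤ 3 * Q := by
    rw [hQ, Finset.mul_sum]
    apply Finset.sum_le_sum
    intro k _
    have h1 := (hω.1 _ (half_mem k)).le
    have h2 : min 1 (R' * 2 ^ k) ≤ 3 * min 1 (R * 2 ^ k) := by
      rcases le_total 1 (R * 2 ^ k) with h3 | h3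
      · rw [min_eq_left h3]
        exact (min_le_left _ _).trans (by norm_num)
      · rw [min_eq_right h3]
        refine (min_le_right _ _).trans (le_of_eq ?_)
        rw [hR']; ring
    have h4 : ω' ((1 / 2) ^ k) ≤ ω ((1 / 2) ^ k) := by rw [hω']; exact min_le_left _ _
    have h5 : 0 ≤ min 1 (R' * 2 ^ k) := le_min zero_le_one (by positivity)
    calc _ ≤ ω ((1 / 2) ^ k) * (3 * min 1 (R * 2 ^ k)) := mul_le_mul h4 h2 h5 h1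
      _ = _ := by ring
  rw [← hQ]
  have hrc : (r : ℂ) ≠ 0 := by exact_mod_cast hr0.ne'
  obtain ⟨D, hD⟩ : ∃ D : Set E, D = {z | z ∈ ball (0 : E) 1 ∧ ‖1 - ⟪z, a⟫_ℂ‖ < R ∧
          2 * s < 1 - ‖z‖} := ⟨_, rfl⟩
  rw [← hs, ← hD]
  have hDz : ∀ ζ ∈ D, ((r⁻¹ : ℝ) : ℂ) • ζ ∈ ball (0 : E) 1 ∧
      s ≤ 1 - ‖((r⁻¹ : ℝ) : ℂ) • ζ‖ ^ 2 ∧ ‖1 - ⟪a, ((r⁻¹ : ℝ) : ℂ) • ζ⟫_ℂ‖ < R' := by
    intro ζ hζ
    rw [hD] at hζ
    obtain ⟨h1, h2, h3⟩ := hζ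
    have hn : ‖((r⁻¹ : ℝ) : ℂ) • ζ‖ = r⁻¹ * ‖ζ‖ := by
      rw [norm_smul, Complex.norm_real, Real.norm_of_nonneg (by positivity)]
    have h4 : r⁻¹ * ‖ζ‖ ≤ 1 - s := by
      rw [inv_mul_le_iff₀ hr0, hr]
      nlinarith
    have h4' : 0 ≤ r⁻¹ * ‖ζ‖ := by positivity
    refine ⟨?_, ?_, ?_⟩
    · rw [mem_ball_zero_iff, hn]; linarith
    · rw [hn]; nlinarith
    · have h5 : ‖1 - ⟪a, ζ⟫_ℂ‖ < R := by
        have h6 : (starRingEnd ℂ) (1 - ⟪ζ, a⟫_ℂ) = 1 - ⟪a, ζ⟫_ℂ := by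
          rw [map_sub, map_one, inner_conj_symm]
        rw [← h6, RCLike.norm_conj]; exact h2
      have e3 : 1 - ⟪a, ((r⁻¹ : ℝ) : ℂ) • ζ⟫_ℂ = (1 - ⟪a, ζ⟫_ℂ) -
          ((r⁻¹ - 1 : ℝ) : ℂ) * ⟪a, ζ⟫_ℂ := by
        rw [inner_smul_right]; push_cast; ring
      have h7 : (r⁻¹ - 1) * ‖⟪a, ζ⟫_ℂ‖ ≤ 2 * s := by
        have h8 : ‖⟪a, ζ⟫_ℂ‖ ≤ 1 := by
          have := norm_inner_le_norm (𝕜 := ℂ) a ζ
          rw [ha, one_mul] at this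
          exact this.trans (mem_ball_zero_iff.mp h1).le
        have h9 : 0 ≤ r⁻¹ - 1 := by
          have : 1 ≤ r⁻¹ := (one_le_inv₀ hr0).mpr hr1.le
          linarith
        have h10 : r⁻¹ - 1 ≤ 2 * s := by
          have : r⁻¹ ≤ 1 + 2 * s := by
            rw [inv_le_comm₀ hr0 (by linarith), inv_le_iff_one_le_mul₀ (by linarith), hr]
            nlinarith
          linarith
        calc _ ≤ (r⁻¹ - 1) * 1 := by gcongr
          _ ≤ _ := by linarith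
      rw [e3]
      refine (norm_sub_le _ _).trans_lt ?_
      rw [norm_mul, Complex.norm_real, Real.norm_of_nonneg (by
        have : 1 ≤ r⁻¹ := (one_le_inv₀ hr0).mpr hr1.le
        linarith), hR']
      linarith
  have hrr : ∀ ζ : E, (r : ℂ) • ((r⁻¹ : ℝ) : ℂ) • ζ = ζ := by
    intro ζ
    rw [smul_smul, Complex.ofReal_inv, mul_inv_cancel₀ hrc, one_smul]
  refine ⟨fun j ζ => h j (((r⁻¹ : ℝ) : ℂ) • ζ), ?_, ?_, ?_⟩
  · intro j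
    exact (hh1 j).comp (differentiable_id.const_smul ((r⁻¹ : ℝ) : ℂ)).differentiableOn
      fun ζ hζ => (hDz ζ hζ).1
  · intro j ζ hζ
    obtain ⟨g1, g2, g3⟩ := hDz ζ hζ
    rw [hs] at g2
    refine (hh3 j _ g1 g2 g3).trans ?_
    calc C * (1 + _) ≤ C * (1 + 3 * Q) := by gcongr
      _ ≤ C * (1 + 3 * Q) + C * 2 := le_add_of_nonneg_right (by positivity)
      _ = 3 * C * (1 + Q) := by ring
  · intro ζ hζ
    obtain ⟨g1, g2, g3⟩ := hDz ζ hζ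
    have h1 := hh2 _ g1
    rw [← h1]
    apply Finset.sum_congr rfl
    intro j _
    have e : uk (F j) (1 / 2) k₁ (((r⁻¹ : ℝ) : ℂ) • ζ) = F j ζ := by
      rw [uk, hrt, hrr]
    rw [e]

end Pool.Agent.MPca0fc2.QS
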