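import Mathlib
import Pool.Agent.Lib.MP_ca0fc2_an.VP6
import Pool.Agent.Lib.MP_ca0fc2_an.VLMain

set_option autoImplicit false

open Metric Set Filter Topology MeasureTheory
open scoped InnerProductSpace ComplexConjugate

namespace Pool.Agent.MPca0fc2.VP

open Pool.Agent.MPca0fc2.SD
open Pool.Agent.MPca0fc2.SL
open Pool.Agent.MPca0fc2.VL (Mod half_mem)
open Pool.Agent.Lib.MP_ca0fc2_an

variable {E : Type*} [NormedAddCommGroup E] [InnerProductSpace ℂ E]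

/-- solutions for dilated data, without bounds -/
theorem qual [FiniteDimensional ℂ E] {M δ r : ℝ} (hδ : 0 < δ) (hr0 : 0 ≤ r) (hr : r < 1)
    {F : Fin 2 → E → ℂ} (hF : ∀ j, DifferentiableOn ℂ (F j) (ball 0 1))
    (hFM : ∀ j, ∀ z ∈ ball (0 : E) 1, ‖F j z‖ ≤ M)
    (hFδ : ∀ z ∈ ball (0 : E) 1, δ ≤ ∑ j, ‖F j z‖ ^ 2) :
    ∃ (h : Fin 2 → E → ℂ) (C : ℝ), (∀ j, DifferentiableOn ℂ (h j) (ball 0 1)) ∧
      (∀ j, ∀ z ∈ ball (0 : E) 1, ‖h j z‖ ≤ C) ∧
      ∀ z ∈ ball (0 : E) 1, ∑ j, F j ((r : ℂ) • z) * h j z = 1 := by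
  classical
  have hmem : ∀ z : E, ‖z‖ ≤ 1 → (r : ℂ) • z ∈ ball (0 : E) 1 := by
    intro z hz
    rw [mem_ball_zero_iff, norm_smul, Complex.norm_real, Real.norm_of_nonneg hr0]
    nlinarith [norm_nonneg z]
  have hGd : ∀ j, DifferentiableOn ℂ (fun z => F j ((r : ℂ) • z)) (ball (0 : E) 1) := fun j =>
    (hF j).comp (differentiable_id.const_smul (r : ℂ)).differentiableOn
      fun z hz => hmem z (mem_ball_zero_iff.mp hz).le
  have hloc : ∀ l : E, ∃ ε C : ℝ, 0 < ε ∧ (‖l‖ = 1 →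
      SolvableOn (fun j z => F j ((r : ℂ) • z)) (ball 0 1 ∩ ball l ε) C) := by
    intro l
    by_cases hl : ‖l‖ = 1
    · have h1 := hFδ _ (hmem l hl.le)
      obtain ⟨j, hj⟩ : ∃ j, 0 < ‖F j ((r : ℂ) • l)‖ := by
        by_contra hcon
        push Not at hcon
        have h2 : ∀ j, ‖F j ((r : ℂ) • l)‖ = 0 := fun j => le_antisymm (hcon j) (norm_nonneg _)
        simp only [h2] at h1
        norm_num at h1
        linarith
      have hca : ContinuousAt (fun z => ‖F j ((r : ℂ) • z)‖) l := by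
        apply ContinuousAt.norm
        apply ContinuousAt.comp (f := fun z : E => (r : ℂ) • z)
        · exact (hF j).continuousOn.continuousAt (isOpen_ball.mem_nhds (hmem l hl.le))
        · exact (continuous_const_smul (r : ℂ)).continuousAt
      obtain ⟨c, hc⟩ : ∃ c, c = ‖F j ((r : ℂ) • l)‖ / 2 := ⟨_, rfl⟩
      have hc0 : 0 < c := by rw [hc]; linarith
      have hev := hca.eventually_const_lt (show c < ‖F j ((r : ℂ) • l)‖ by rw [hc]; linarith)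
      obtain ⟨ε, hε, hεs⟩ := Metric.eventually_nhds_iff_ball.mp hev
      refine ⟨ε, 1 / c, hε, fun _ => ?_⟩
      refine ⟨fun i => if i = j then fun z => (F j ((r : ℂ) • z))⁻¹ else fun _ => 0, ?_, ?_, ?_⟩
      · intro i
        by_cases hij : i = j
        · simp only [if_pos hij]
          apply ((hGd j).mono inter_subset_left).inv
          intro z hz
          have := hεs z hz.2
          exact norm_pos_iff.mp (hc0.trans this)
        · simp only [if_neg hij]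
          exact differentiableOn_const _
      · intro i z hz
        by_cases hij : i = j
        · simp only [if_pos hij]
          rw [norm_inv, one_div]
          exact inv_anti₀ hc0 (hεs z hz.2).le
        · simp only [if_neg hij, norm_zero]
          positivity
      · intro z hz
        have hne : F j ((r : ℂ) • z) ≠ 0 := norm_pos_iff.mp (hc0.trans (hεs z hz.2))
        rw [Finset.sum_eq_single j]
        · simp only [if_true]
          exact mul_inv_cancel₀ hne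
        · intro i _ hij
          simp only [if_neg hij, mul_zero]
        · intro h; exact absurd (Finset.mem_univ j) h
    · exact ⟨1, 0, one_pos, fun h => absurd h hl⟩
  choose ε C hε hC using hloc
  obtain ⟨C', hC'⟩ := finite_depth (E := E) discCorona 2 M δ hδ (fun _ => 0) (fun _ => 1)
    ε C (fun _ => one_pos) hε
  obtain ⟨h, h1, h2, h3⟩ := hC' (fun j z => F j ((r : ℂ) • z)) hGd
    (fun j z hz => hFM j _ (hmem z (mem_ball_zero_iff.mp hz).le))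
    (fun z hz => hFδ _ (hmem z (mem_ball_zero_iff.mp hz).le))
    (fun l hl => hC l (mem_sphere_zero_iff_norm.mp hl))
  exact ⟨h, C', h1, h2, h3⟩

/-- The solution on a truncated tent, for two data. -/
theorem pair_block (E : Type*) [NormedAddCommGroup E] [InnerProductSpace ℂ E]
    [FiniteDimensional ℂ E] (hdim : 2 ≤ Module.finrank ℂ E) (M δ : ℝ) (hδ : 0 < δ) :
    ∃ C₃ : ℝ, 0 ≤ C₃ ∧ ∀ (ω : ℝ → ℝ), Mod ω → ∀ F : Fin 2 → E → ℂ,
      (∀ j, DifferentiableOn ℂ (F j) (ball 0 1)) →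
      (∀ j, ∀ z ∈ ball (0 : E) 1, ‖F j z‖ ≤ M) →
      (∀ z ∈ ball (0 : E) 1, δ ≤ ∑ j, ‖F j z‖ ^ 2) →
      (∀ z ∈ ball (0 : E) 1, (1 - ‖z‖) * ‖fderiv ℂ (F 1) z‖ ≤ ω (1 - ‖z‖)) →
      ∀ (k₁ : ℕ) (R : ℝ) (a : E), 1 ≤ k₁ → (1 / 2) ^ k₁ ≤ R → ‖a‖ = 1 →
        SolvableOn F {z | z ∈ ball (0 : E) 1 ∧ ‖1 - ⟪z, a⟫_ℂ‖ < R ∧
          2 * (1 / 2) ^ k₁ < 1 - ‖z‖}
          (C₃ * (1 + ∑ k ∈ Finset.range (k₁ + 3), ω ((1 / 2) ^ k) * min 1 (R * 2 ^ k))) := by
  classical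
  obtain ⟨m, hdim'⟩ : ∃ m, Module.finrank ℂ E = m + 1 := ⟨Module.finrank ℂ E - 1, by omega⟩
  have hm : 1 ≤ m := by omega
  let _ : MeasurableSpace E := borel E
  have _ : BorelSpace E := ⟨rfl⟩
  obtain ⟨C₁, hC₁, hpp⟩ := pp_est (Measure.addHaar : Measure E) m hm hdim'
  obtain ⟨ρ, hρ⟩ : ∃ ρ : ℝ, ρ = √δ / 4 := ⟨_, rfl⟩
  have hsδ : 0 < √δ := Real.sqrt_pos.mpr hδ
  have hρ0 : 0 < ρ := by rw [hρ]; positivity
  have hρδ : 16 * ρ ^ 2 = δ := by rw [hρ, div_pow, Real.sq_sqrt hδ.le]; ring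
  obtain ⟨χ, L, hχc, hχ0, hχ1, hχs, hχl, hL0, hχL⟩ := exists_chi hρ0 M
  obtain ⟨A₀, hA₀⟩ : ∃ A₀ : ℝ, A₀ = 2 * L * 10 ^ 10 * (1 / ρ ^ 2) * 8 := ⟨_, rfl⟩
  have hA₀0 : 0 ≤ A₀ := by rw [hA₀]; positivity
  refine ⟨1 / ρ + (|M| + 1) * C₁ * A₀ * 3, by positivity, ?_⟩
  intro ω hω F hF hFM hFδ hFg k₁ R a hk₁ hsR ha
  obtain ⟨s, hs⟩ : ∃ s : ℝ, s = (1 / 2) ^ k₁ := ⟨_, rfl⟩
  have hs0 : 0 < s := by rw [hs]; exact half_pow_pos _
  have hs1 : s ≤ 1 / 2 := by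
    rw [hs]
    calc (1 / 2 : ℝ) ^ k₁ ≤ (1 / 2) ^ 1 := pow_le_pow_of_le_one (by norm_num) (by norm_num) hk₁
      _ = 1 / 2 := pow_one _
  rw [← hs] at hsR
  have hR0 : 0 < R := hs0.trans_le hsR
  obtain ⟨r, hr⟩ : ∃ r : ℝ, r = 1 - s := ⟨_, rfl⟩
  have hr0 : 0 < r := by rw [hr]; linarith
  have hr1 : r < 1 := by rw [hr]; linarith
  obtain ⟨R', hR'⟩ : ∃ R' : ℝ, R' = 3 * R := ⟨_, rfl⟩
  have hR'0 : 0 < R' := by rw [hR']; positivity
  obtain ⟨h, Ch, hh1, hh2, hh3⟩ := qual hδ hr0.le hr1 hF hFM hFδ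
  have hmem : ∀ z : E, ‖z‖ ≤ 1 → (r : ℂ) • z ∈ ball (0 : E) 1 := by
    intro z hz
    rw [mem_ball_zero_iff, norm_smul, Complex.norm_real, Real.norm_of_nonneg hr0.le]
    nlinarith [norm_nonneg z]
  obtain ⟨f, hf⟩ : ∃ f : E → ℂ, f = fun z => F 0 ((r : ℂ) • z) := ⟨_, rfl⟩
  obtain ⟨g, hg⟩ : ∃ g : E → ℂ, g = fun z => F 1 ((r : ℂ) • z) := ⟨_, rfl⟩
  have hdil : ∀ j, DifferentiableOn ℂ (fun z => F j ((r : ℂ) • z)) (ball (0 : E) 1) := fun j =>
    (hF j).comp (differentiable_id.const_smul (r : ℂ)).differentiableOn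
      fun z hz => hmem z (mem_ball_zero_iff.mp hz).le
  have hfM : ∀ z ∈ ball (0 : E) 1, ‖f z‖ ≤ M := fun z hz => by
    rw [hf]; exact hFM 0 _ (hmem z (mem_ball_zero_iff.mp hz).le)
  have hgM : ∀ z ∈ ball (0 : E) 1, ‖g z‖ ≤ M := fun z hz => by
    rw [hg]; exact hFM 1 _ (hmem z (mem_ball_zero_iff.mp hz).le)
  have hM0 : 0 ≤ M := (norm_nonneg _).trans (hfM 0 (mem_ball_self one_pos))
  have hP : Pair f g (h 0) (h 1) χ ρ := by
    refine ⟨by rw [hf]; exact hdil 0, by rw [hg]; exact hdil 1, hh1 0, hh1 1, hρ0, ?_, ?_, hχc,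
      hχ0, hχ1, hχs, hχl⟩
    · intro z hz
      have h1 := hFδ _ (hmem z (mem_ball_zero_iff.mp hz).le)
      rw [Fin.sum_univ_two] at h1
      rw [hρδ, hf, hg]
      exact h1
    · intro z hz
      have h1 := hh3 z hz
      rw [Fin.sum_univ_two] at h1
      rw [hf, hg]
      exact h1
  -- the function to be projected
  obtain ⟨α, hα⟩ : ∃ α : E → ℂ, α = al f g (h 0) (h 1) χ ρ := ⟨_, rfl⟩
  obtain ⟨Φ, hΦ⟩ : ∃ Φ : E → ℂ, Φ = fun v => α v * ps a R' v := ⟨_, rfl⟩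
  have hpsd := ps_diff (E := E) ha hR'0
  have hΦc : ContDiffOn ℝ 1 Φ (ball 0 1) := by
    rw [hΦ, hα]
    exact hP.al_contDiffOn.mul (hol_contDiffOn isOpen_ball hpsd)
  obtain ⟨CΦ, hCΦ⟩ : ∃ CΦ : ℝ, CΦ = (1 / ρ + Ch) / ρ * (1 / R') := ⟨_, rfl⟩
  have hΦb : ∀ v ∈ ball (0 : E) 1, ‖Φ v‖ ≤ CΦ := by
    intro v hv
    rw [hΦ, hα, hCΦ]
    simp only
    rw [norm_mul]
    have h1 := hP.al_bd (hh2 0) (hh2 1) hv
    have h2 := ps_bd ha (mem_ball_zero_iff.mp hv).le hR'0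
    exact mul_le_mul h1 h2 (norm_nonneg _) ((norm_nonneg _).trans h1)
  have hPd : DifferentiableOn ℂ (SL.PP (Measure.addHaar : Measure E) m Φ) (ball 0 1) :=
    PP_holo _ m (hΦc.continuousOn.aestronglyMeasurable measurableSet_ball) hΦb
  obtain ⟨p, hp⟩ : ∃ p : E → ℂ, p = fun z => ((R' : ℂ) + (1 - ⟪a, z⟫_ℂ)) *
      SL.PP (Measure.addHaar : Measure E) m Φ z := ⟨_, rfl⟩
  have hpd : DifferentiableOn ℂ p (ball 0 1) := by
    rw [hp]
    apply DifferentiableOn.mul _ hPd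
    apply Differentiable.differentiableOn
    exact ((differentiable_const _).sub (innerSL ℂ a).differentiable).const_add _
  obtain ⟨c, hc⟩ : ∃ c : ℕ → ℝ, c = fun k => ω ((1 / 2) ^ k) * min 1 (R' * 2 ^ k) := ⟨_, rfl⟩
  have hc0 : ∀ k, 0 ≤ c k := by
    intro k
    rw [hc]
    have h1 := (hω.1 _ (half_mem k)).le
    have h2 : 0 ≤ min 1 (R' * 2 ^ k) := le_min zero_le_one (by positivity)
    positivity
  have hcs : ∑ k ∈ Finset.range (k₁ + 3), c k ≤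
      3 * ∑ k ∈ Finset.range (k₁ + 3), ω ((1 / 2) ^ k) * min 1 (R * 2 ^ k) := by
    rw [Finset.mul_sum]
    apply Finset.sum_le_sum
    intro k _
    rw [hc]
    simp only
    have h1 := (hω.1 _ (half_mem k)).le
    have h2 : min 1 (R' * 2 ^ k) ≤ 3 * min 1 (R * 2 ^ k) := by
      rcases le_total 1 (R * 2 ^ k) with h3 | h3
      · rw [min_eq_left h3]
        exact (min_le_left _ _).trans (by norm_num)
      · rw [min_eq_right h3]
        refine (min_le_right _ _).trans (le_of_eq ?_)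
        rw [hR']; ring
    calc _ ≤ ω ((1 / 2) ^ k) * (3 * min 1 (R * 2 ^ k)) := by gcongr
      _ = _ := by ring
  -- the main estimate
  have hmain : ∀ z ∈ ball (0 : E) 1, s ≤ 1 - ‖z‖ ^ 2 → ‖1 - ⟪a, z⟫_ℂ‖ < R' →
      ‖α z - p z‖ ≤ C₁ * A₀ * ∑ k ∈ Finset.range (k₁ + 3), c k := by
    intro z hz hzs hza
    obtain ⟨e, he, hze⟩ := exists_unit m hdim' z
    obtain ⟨x, hx⟩ : ∃ x, x = ‖z‖ := ⟨_, rfl⟩
    have hz1 : ‖z‖ < 1 := mem_ball_zero_iff.mp hz
    rw [← hx] at hze hzs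
    have hx0 : 0 ≤ x := by rw [hx]; exact norm_nonneg z
    have hx1 : x < 1 := by rw [hx]; exact hz1
    have hz0 : am e x 0 = z := by rw [am_zero, ← hze]
    have hK : (1 / 2 : ℝ) ^ (k₁ + 2 + 1) < (1 - x ^ 2) / 4 := by
      have h1 : (1 / 2 : ℝ) ^ (k₁ + 2 + 1) = s / 8 := by
        rw [hs, pow_succ, pow_add]; ring
      rw [h1]; linarith
    have hps0 := norm_nonneg (ps a R' z)
    have h1 := hpp e x Φ (A₀ * ‖ps a R' z‖) CΦ c (k₁ + 2) he hx0 hx1 (by positivity) hc0 hK hΦc hΦb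
      (by
        intro y hy w hw k hk1 hk2
        have hv := am_mem he hx0 hx1 hy
        obtain ⟨U, κ, l, hU, hvU, hUb, hκ, hl, hκb, hloc⟩ := hP.al_loc hv
        have hamd : DifferentiableAt ℂ (am e x) y :=
          (am_diff he hx0 hx1).differentiableAt (isOpen_ball.mem_nhds hy)
        have hgam : DifferentiableAt ℂ (fun v => g (am e x v)) y :=
          (hP.gd.differentiableAt (isOpen_ball.mem_nhds hv)).comp y hamd
        have hκam : DifferentiableAt ℂ (fun v => κ (am e x v)) y :=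
          (hκ.differentiableAt (hU.mem_nhds hvU)).comp y hamd
        have hlam : DifferentiableAt ℂ (fun v => l (am e x v)) y :=
          (hl.differentiableAt (hU.mem_nhds hvU)).comp y hamd
        have hpam : DifferentiableAt ℂ (fun v => ps a R' (am e x v)) y :=
          (hpsd.differentiableAt (isOpen_ball.mem_nhds hv)).comp y hamd
        have hχd : Differentiable ℝ χ := hχc.differentiable one_ne_zero
        have hχam : DifferentiableAt ℝ (fun v => ((χ (g (am e x v)) : ℝ) : ℂ)) y :=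
          Complex.ofRealCLM.differentiableAt.comp y
            ((hχd _).comp y (hgam.restrictScalars ℝ))
        have e1 : (fun v => Φ (am e x v)) =ᶠ[𝓝 y] fun v =>
            ((χ (g (am e x v)) : ℝ) : ℂ) * (κ (am e x v) * ps a R' (am e x v)) +
              l (am e x v) * ps a R' (am e x v) := by
          have h2 : ∀ᶠ v in 𝓝 y, am e x v ∈ U :=
            hamd.continuousAt.eventually_mem (hU.mem_nhds hvU)
          filter_upwards [h2] with v hv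
          rw [hΦ, hα]
          simp only
          rw [hloc _ hv]
          ring
        have hkp : DifferentiableAt ℂ (fun v => κ (am e x v) * ps a R' (am e x v)) y :=
          hκam.mul hpam
        have hlp : DifferentiableAt ℂ (fun v => l (am e x v) * ps a R' (am e x v)) y :=
          hlam.mul hpam
        rw [dbr_congr e1, dbr_add, dbr_mul_hol hχam hkp, dbr_hol hlp,
          add_zero, norm_mul, norm_mul]
        · have h3 := dbr_chi (g := fun v => g (am e x v)) (hχd _) hgam w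
          have h4 := hχL (g (am e x y)) (hgM _ hv)
          have h5 : ‖fderiv ℂ (fun v => g (am e x v)) y w‖ ≤
              10 ^ 10 * ω ((1 / 2) ^ k) * ‖dn e x y‖ / (1 - ‖y‖ ^ 2) ^ 2 := by
            rw [hg]
            exact G_est hω (hF 1) hFg he hx0 hx1 hr0.le hr1 (by rw [hr]; linarith) hy hw hk1 hk2
          have h6 := hκb _ hvU
          have hκ0 := half_pow_pos k
          have h7 : ‖ps a R' (am e x y)‖ ≤ 8 * min 1 (R' * 2 ^ k) * ‖ps a R' z‖ := by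
            have h8 := ps_ratio (κ := (1 / 2) ^ k) ha hz1.le (mem_ball_zero_iff.mp hv).le hR'0 hκ0
              hza (by
                have hin : 1 - ⟪z, am e x y⟫_ℂ = ((1 - x ^ 2 : ℝ) : ℂ) / dn e x y := by
                  conv_lhs => rw [← hz0]
                  rw [am_inner he hx0 hx1 (mem_ball_self one_pos) hy, inner_zero_left]
                  have : dn e x (0 : E) = 1 := by rw [dn, inner_zero_right, mul_zero, add_zero]
                  rw [this, map_one, sub_zero, mul_one, one_mul]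
                rw [hin, norm_div, Complex.norm_real, Real.norm_of_nonneg (by nlinarith)]
                have hD0 : 0 < ‖dn e x y‖ := norm_pos_iff.mpr (dn_ne he hx0 hx1 hy)
                rw [pow_succ, lt_div_iff₀ (by positivity)] at hk1
                rw [le_div_iff₀ hD0]
                linarith)
            have h9 : R' / (1 / 2) ^ k = R' * 2 ^ k := by
              rw [one_div, inv_pow, div_inv_eq_mul]
            rwa [h9] at h8
          have hωk := (hω.1 _ (half_mem k)).le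
          have hy1 : 0 < 1 - ‖y‖ ^ 2 := by
            have := mem_ball_zero_iff.mp hy
            nlinarith [norm_nonneg y]
          have hfd0 := norm_nonneg (fderiv ℂ (fun v => g (am e x v)) y w)
          have hmin : 0 ≤ min 1 (R' * 2 ^ k) := le_min zero_le_one (by positivity)
          calc ‖dbr (fun v => ((χ (g (am e x v)) : ℝ) : ℂ)) y w‖ *
                (‖κ (am e x y)‖ * ‖ps a R' (am e x y)‖)
              ≤ (2 * L * (10 ^ 10 * ω ((1 / 2) ^ k) * ‖dn e x y‖ / (1 - ‖y‖ ^ 2) ^ 2)) *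
                ((1 / ρ ^ 2) * (8 * min 1 (R' * 2 ^ k) * ‖ps a R' z‖)) := by
                apply mul_le_mul _ (mul_le_mul h6 h7 (norm_nonneg _) (by positivity))
                  (by positivity) (by positivity)
                refine h3.trans ?_
                apply mul_le_mul _ h5 hfd0 (by positivity)
                linarith
            _ = A₀ * ‖ps a R' z‖ * c k * ‖dn e x y‖ / (1 - ‖y‖ ^ 2) ^ 2 := by
                rw [hA₀, hc]; ring
        · exact hχam.mul (hkp.restrictScalars ℝ)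
        · exact hlp.restrictScalars ℝ)
    rw [← hze] at h1
    have hpsz : (R' : ℂ) + (1 - ⟪a, z⟫_ℂ) ≠ 0 := ps_ne ha hz1.le hR'0
    have e2 : α z - p z = ((R' : ℂ) + (1 - ⟪a, z⟫_ℂ)) *
        (Φ z - SL.PP (Measure.addHaar : Measure E) m Φ z) := by
      have e3 : Φ z = α z * ps a R' z := by rw [hΦ]
      rw [hp]
      simp only
      rw [mul_sub, e3, ps, mul_comm (α z), mul_inv_cancel_left₀ hpsz]
    rw [e2, norm_mul]
    have h2 : ‖(R' : ℂ) + (1 - ⟪a, z⟫_ℂ)‖ * ‖ps a R' z‖ = 1 := by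
      rw [ps, norm_inv, mul_inv_cancel₀ (norm_ne_zero_iff.mpr hpsz)]
    calc _ ≤ ‖(R' : ℂ) + (1 - ⟪a, z⟫_ℂ)‖ *
          (C₁ * (A₀ * ‖ps a R' z‖) * ∑ k ∈ Finset.range (k₁ + 2 + 1), c k) := by gcongr
      _ = (‖(R' : ℂ) + (1 - ⟪a, z⟫_ℂ)‖ * ‖ps a R' z‖) *
          (C₁ * A₀ * ∑ k ∈ Finset.range (k₁ + 3), c k) := by ring
      _ = _ := by rw [h2, one_mul]
  -- the solution
  obtain ⟨Q, hQ⟩ : ∃ Q : ℝ, Q = ∑ k ∈ Finset.range (k₁ + 3), ω ((1 / 2) ^ k) *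
      min 1 (R * 2 ^ k) := ⟨_, rfl⟩
  have hQ0 : 0 ≤ Q := by
    rw [hQ]
    apply Finset.sum_nonneg
    intro k _
    have h1 := (hω.1 _ (half_mem k)).le
    have h2 : 0 ≤ min 1 (R * 2 ^ k) := le_min zero_le_one (by positivity)
    positivity
  rw [← hQ] at hcs ⊢
  have hrc : (r : ℂ) ≠ 0 := by exact_mod_cast hr0.ne'
  obtain ⟨D, hD⟩ : ∃ D : Set E, D = {z | z ∈ ball (0 : E) 1 ∧ ‖1 - ⟪z, a⟫_ℂ‖ < R ∧
          2 * s < 1 - ‖z‖} := ⟨_, rfl⟩
  rw [← hs, ← hD]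
  have hDz : ∀ ζ ∈ D, ((r⁻¹ : ℝ) : ℂ) • ζ ∈ ball (0 : E) 1 ∧
      s ≤ 1 - ‖((r⁻¹ : ℝ) : ℂ) • ζ‖ ^ 2 ∧ ‖1 - ⟪a, ((r⁻¹ : ℝ) : ℂ) • ζ⟫_ℂ‖ < R' := by
    intro ζ hζ
    rw [hD] at hζ
    obtain ⟨h1, h2, h3⟩ := hζ
    have hn : ‖((r⁻¹ : ℝ) : ℂ) • ζ‖ = r⁻¹ * ‖ζ‖ := by
      rw [norm_smul, Complex.norm_real, Real.norm_of_nonneg (by positivity)]
    have h4 : r⁻¹ * ‖ζ‖ ≤ 1 - s := by
      rw [inv_mul_le_iff₀ hr0, hr]
      nlinarith
    have h4' : 0 ≤ r⁻¹ * ‖ζ‖ := by positivity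
    refine ⟨?_, ?_, ?_⟩
    · rw [mem_ball_zero_iff, hn]; linarith
    · rw [hn]; nlinarith
    · have h5 : ‖1 - ⟪a, ζ⟫_ℂ‖ < R := by
        have h6 : (starRingEnd ℂ) (1 - ⟪ζ, a⟫_ℂ) = 1 - ⟪a, ζ⟫_ℂ := by
          rw [map_sub, map_one, inner_conj_symm]
        rw [← h6, RCLike.norm_conj]; exact h2
      have e3 : 1 - ⟪a, ((r⁻¹ : ℝ) : ℂ) • ζ⟫_ℂ = (1 - ⟪a, ζ⟫_ℂ) -
          ((r⁻¹ - 1 : ℝ) : ℂ) * ⟪a, ζ⟫_ℂ := by
        rw [inner_smul_right]; push_cast; ring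
      have h7 : (r⁻¹ - 1) * ‖⟪a, ζ⟫_ℂ‖ ≤ 2 * s := by
        have h8 : ‖⟪a, ζ⟫_ℂ‖ ≤ 1 := (norm_inner_le ha ζ).trans (mem_ball_zero_iff.mp h1).le
        have h9 : 0 ≤ r⁻¹ - 1 := by
          have : 1 ≤ r⁻¹ := (one_le_inv₀ hr0).mpr hr1.le
          linarith
        have h10 : r⁻¹ - 1 ≤ 2 * s := by
          have : r⁻¹ ≤ 1 + 2 * s := by
            rw [inv_le_comm₀ hr0 (by linarith), inv_le_iff_one_le_mul₀ (by linarith), hr]
            nlinarith
          linarith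
        calc _ ≤ (r⁻¹ - 1) * 1 := by gcongr
          _ ≤ _ := by linarith
      rw [e3]
      refine (norm_sub_le _ _).trans_lt ?_
      rw [norm_mul, Complex.norm_real, Real.norm_of_nonneg (by
        have : 1 ≤ r⁻¹ := (one_le_inv₀ hr0).mpr hr1.le
        linarith), hR']
      linarith
  have hDb : D ⊆ ball (0 : E) 1 := by
    intro ζ hζ
    rw [hD] at hζ
    exact hζ.1
  have hcompd : ∀ u : E → ℂ, DifferentiableOn ℂ u (ball 0 1) →
      DifferentiableOn ℂ (fun ζ => u (((r⁻¹ : ℝ) : ℂ) • ζ)) D := by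
    intro u hu
    exact hu.comp (differentiable_id.const_smul ((r⁻¹ : ℝ) : ℂ)).differentiableOn
      fun ζ hζ => (hDz ζ hζ).1
  have hbdp : ∀ ζ ∈ D, ‖α (((r⁻¹ : ℝ) : ℂ) • ζ) - p (((r⁻¹ : ℝ) : ℂ) • ζ)‖ ≤ C₁ * A₀ * (3 * Q) := by
    intro ζ hζ
    obtain ⟨h1, h2, h3⟩ := hDz ζ hζ
    refine (hmain _ h1 h2 h3).trans ?_
    gcongr
  have hfin : ∀ u v : ℂ, ‖u‖ ≤ 1 / ρ → ‖v‖ ≤ C₁ * A₀ * (3 * Q) → ∀ y : ℂ, ‖y‖ ≤ M →
      ‖u - v * y‖ ≤ (1 / ρ + (|M| + 1) * C₁ * A₀ * 3) * (1 + Q) := by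
    intro u v hu hv y hy
    refine (norm_sub_le _ _).trans ?_
    rw [norm_mul]
    have h1 : ‖v‖ * ‖y‖ ≤ C₁ * A₀ * (3 * Q) * (|M| + 1) := by
      apply mul_le_mul hv _ (norm_nonneg _) (by positivity)
      exact hy.trans ((le_abs_self M).trans (by linarith))
    have h2 : 0 ≤ 1 / ρ * Q := by positivity
    have h3 : 0 ≤ (|M| + 1) * C₁ * A₀ * 3 := by positivity
    calc ‖u‖ + ‖v‖ * ‖y‖ ≤ 1 / ρ + C₁ * A₀ * (3 * Q) * (|M| + 1) := add_le_add hu h1
      _ ≤ 1 / ρ + C₁ * A₀ * (3 * Q) * (|M| + 1) + 1 / ρ * Q + (|M| + 1) * C₁ * A₀ * 3 := by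
          linarith
      _ = _ := by ring
  refine ⟨fun j => if j = 0 then fun ζ => h 0 (((r⁻¹ : ℝ) : ℂ) • ζ) +
      p (((r⁻¹ : ℝ) : ℂ) • ζ) * F 1 ζ else fun ζ => h 1 (((r⁻¹ : ℝ) : ℂ) • ζ) -
      p (((r⁻¹ : ℝ) : ℂ) • ζ) * F 0 ζ, ?_, ?_, ?_⟩
  · intro j
    by_cases hj : j = 0
    · simp only [if_pos hj]
      exact (hcompd _ (hh1 0)).add ((hcompd _ hpd).mul ((hF 1).mono hDb))
    · simp only [if_neg hj]
      exact (hcompd _ (hh1 1)).sub ((hcompd _ hpd).mul ((hF 0).mono hDb))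
  · intro j ζ hζ
    obtain ⟨g1, g2, g3⟩ := hDz ζ hζ
    have hrr : (r : ℂ) • ((r⁻¹ : ℝ) : ℂ) • ζ = ζ := by
      rw [smul_smul, Complex.ofReal_inv, mul_inv_cancel₀ hrc, one_smul]
    have hgz : g (((r⁻¹ : ℝ) : ℂ) • ζ) = F 1 ζ := by rw [hg]; simp only [hrr]
    have hfz : f (((r⁻¹ : ℝ) : ℂ) • ζ) = F 0 ζ := by rw [hf]; simp only [hrr]
    by_cases hj : j = 0
    · simp only [if_pos hj]
      have h1 := hP.u0_bd g1
      rw [← hα, hgz] at h1
      have h2 := hfin _ _ h1 (hbdp ζ hζ) (F 1 ζ) (hFM 1 ζ (hDb hζ))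
      convert h2 using 2
      ring
    · simp only [if_neg hj]
      have h1 := hP.u1_bd g1
      rw [← hα, hfz] at h1
      have h3 := hbdp ζ hζ
      rw [← norm_neg] at h3
      have h2 := hfin _ _ h1 h3 (F 0 ζ) (hFM 0 ζ (hDb hζ))
      convert h2 using 2
      ring
  · intro ζ hζ
    obtain ⟨g1, g2, g3⟩ := hDz ζ hζ
    have hrr : (r : ℂ) • ((r⁻¹ : ℝ) : ℂ) • ζ = ζ := by
      rw [smul_smul, Complex.ofReal_inv, mul_inv_cancel₀ hrc, one_smul]
    have h1 := hh3 _ g1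
    rw [Fin.sum_univ_two, hrr] at h1
    rw [Fin.sum_univ_two]
    simp only [if_true, one_ne_zero, if_false]
    linear_combination h1

end Pool.Agent.MPca0fc2.VP
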