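import Mathlib
import Pool.Agent.Lib.MP_ca0fc2_an.VP7

set_option autoImplicit false

open Metric Set Filter Topology MeasureTheory
open scoped InnerProductSpace ComplexConjugate

namespace Pool.Agent.MPca0fc2.VP

open Pool.Agent.MPca0fc2.SD
open Pool.Agent.MPca0fc2.SL
open Pool.Agent.MPca0fc2.VL (Mod half_mem scale_main)
open Pool.Agent.Lib.MP_ca0fc2_an

theorem geo_sum (n : ℕ) : ∑ k ∈ Finset.range n, (4 / 5 : ℝ) ^ (n - k) ≤ 4 := by
  induction n with
  | zero => simp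
  | succ n ih =>
    have h1 : ∑ k ∈ Finset.range (n + 1), (4 / 5 : ℝ) ^ (n + 1 - k) =
        (4 / 5) * (∑ k ∈ Finset.range n, (4 / 5 : ℝ) ^ (n - k) + 1) := by
      rw [Finset.sum_range_succ, mul_add, Finset.mul_sum]
      congr 1
      · apply Finset.sum_congr rfl
        intro k hk
        rw [Finset.mem_range] at hk
        have : n + 1 - k = (n - k) + 1 := by omega
        rw [this, pow_succ, mul_comm]
      · have : n + 1 - n = 1 := by omega
        rw [this, pow_one, mul_one]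
    rw [h1]
    linarith

theorem slow_iter {e : ℕ → ℝ} (he : Slow e) (k i : ℕ) : e k ≤ (11 / 10) ^ i * e (k + i) := by
  induction i with
  | zero => simp
  | succ i ih =>
    refine ih.trans ?_
    rw [pow_succ, mul_assoc]
    exact mul_le_mul_of_nonneg_left (he.down (k + i)) (by positivity)

theorem slow_iter' {e : ℕ → ℝ} (he : Slow e) (k i : ℕ) : e (k + i) ≤ (11 / 10) ^ i * e k := by
  induction i with
  | zero => simp
  | succ i ih =>
    have h1 := he.up (k + i)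
    calc e (k + (i + 1)) ≤ (11 / 10) * e (k + i) := h1
      _ ≤ (11 / 10) * ((11 / 10) ^ i * e k) := by gcongr
      _ = _ := by rw [pow_succ]; ring

/-- the sum over the scales above a block -/
theorem upper_sum {e : ℕ → ℝ} (he : Slow e) (hpos : ∀ k, 0 < e k) (κ : ℕ) :
    ∑ k ∈ Finset.range κ, e k * min 1 ((1 / 2) ^ κ / (e κ) ^ 2 * 2 ^ k) ≤ 4 := by
  refine le_trans (Finset.sum_le_sum fun k hk => ?_) (geo_sum κ)
  rw [Finset.mem_range] at hk
  obtain ⟨i, hi⟩ : ∃ i, κ = k + i := ⟨κ - k, by omega⟩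
  have hik : κ - k = i := by omega
  rw [hik]
  have hκ := hpos κ
  have h1 := slow_iter he k i
  rw [← hi] at h1
  have h2 : (1 / 2 : ℝ) ^ κ / (e κ) ^ 2 * 2 ^ k = (1 / 2) ^ i / (e κ) ^ 2 := by
    rw [hi, pow_add]
    have : (1 / 2 : ℝ) ^ k * 2 ^ k = 1 := by rw [← mul_pow]; norm_num
    calc (1 / 2 : ℝ) ^ k * (1 / 2) ^ i / e (k + i) ^ 2 * 2 ^ k =
        ((1 / 2 : ℝ) ^ k * 2 ^ k) * ((1 / 2) ^ i / e (k + i) ^ 2) := by ring
      _ = _ := by rw [this, one_mul]
  rw [h2]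
  -- min 1 y ≤ √ y
  have h3 : min 1 ((1 / 2 : ℝ) ^ i / (e κ) ^ 2) ≤ √((1 / 2) ^ i) / e κ := by
    have h4 : √((1 / 2 : ℝ) ^ i / (e κ) ^ 2) = √((1 / 2) ^ i) / e κ := by
      rw [Real.sqrt_div (by positivity), Real.sqrt_sq hκ.le]
    rw [← h4]
    have hy : 0 ≤ (1 / 2 : ℝ) ^ i / (e κ) ^ 2 := by positivity
    rcases le_total 1 ((1 / 2 : ℝ) ^ i / (e κ) ^ 2) with h5 | h5
    · rw [min_eq_left h5]
      exact Real.one_le_sqrt.mpr h5
    · rw [min_eq_right h5]
      exact Real.le_sqrt_of_sq_le (by nlinarith)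
  have h5 : √((1 / 2 : ℝ) ^ i) ≤ (10 / 11 * (4 / 5)) ^ i := by
    rw [Real.sqrt_le_left (by positivity), ← pow_mul, mul_comm i 2, pow_mul]
    apply pow_le_pow_left₀ (by norm_num)
    norm_num
  calc e k * min 1 ((1 / 2 : ℝ) ^ i / (e κ) ^ 2) ≤
        ((11 / 10) ^ i * e κ) * (√((1 / 2) ^ i) / e κ) := by
        apply mul_le_mul h1 h3 (le_min zero_le_one (by positivity)) (by positivity)
    _ = (11 / 10) ^ i * √((1 / 2) ^ i) := by field_simp
    _ ≤ (11 / 10) ^ i * (10 / 11 * (4 / 5)) ^ i := by gcongr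
    _ = (4 / 5) ^ i := by rw [← mul_pow]; norm_num

/-- One arbitrary function and one function with bounded variation over the blocks. -/
theorem pair_main {E : Type*} [NormedAddCommGroup E] [InnerProductSpace ℂ E]
    [FiniteDimensional ℂ E] (hn : 2 ≤ Module.finrank ℂ E) (M δ K : ℝ) (hδ : 0 < δ)
    {ω : ℝ → ℝ} (hω : Mod ω) {κ : ℕ → ℕ} (hκ : StrictMono κ)
    (hsum : Summable fun b => ω ((1 / 2) ^ κ b))
    (hK : ∀ b, ∑ k ∈ Finset.Ico (κ b) (κ (b + 1)), ω ((1 / 2) ^ k) ≤ K) :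
    ∃ C' : ℝ, ∀ F : Fin 2 → E → ℂ,
      (∀ j, DifferentiableOn ℂ (F j) (ball 0 1)) →
      (∀ j, ∀ z ∈ ball (0 : E) 1, ‖F j z‖ ≤ M) →
      (∀ z ∈ ball (0 : E) 1, δ ≤ ∑ j, ‖F j z‖ ^ 2) →
      (∀ z ∈ ball (0 : E) 1, (1 - ‖z‖) * ‖fderiv ℂ (F 1) z‖ ≤ ω (1 - ‖z‖)) →
      SolvableOn F (ball 0 1) C' := by
  obtain ⟨C₃, hC₃, hblock⟩ := pair_block E hn M δ hδ
  obtain ⟨e, he⟩ : ∃ e : ℕ → ℝ, e = fun k => ω ((1 / 2) ^ k) := ⟨_, rfl⟩
  have hslow : Slow e := by rw [he]; exact hω.slow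
  have hpos : ∀ k, 0 < e k := fun k => by rw [he]; exact hω.1 _ (half_mem k)
  obtain ⟨Wt, hWt⟩ : ∃ Wt : ℝ, Wt = ∑' b, e (κ b) := ⟨_, rfl⟩
  have hsum' : Summable fun b => e (κ b) := by rw [he]; exact hsum
  have hW : ∀ b, e (κ b) ≤ Wt := fun b => by
    rw [hWt]; exact hsum'.le_tsum b fun j _ => (hpos _).le
  obtain ⟨Q, hQ⟩ : ∃ Q : ℝ, Q = 4 + K + 10 * Wt := ⟨_, rfl⟩
  obtain ⟨C', hC'⟩ := scale_main (E := E) hn 1 M δ (C₃ * (1 + Q)) hδ hω hκ hsum
  refine ⟨C', ?_⟩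
  intro F hF hFM hFδ hFg
  apply hC' F hF hFM hFδ
  · intro j
    have hj : j.succ = 1 := by
      rw [Fin.ext_iff]
      simp
    rw [hj]
    exact hFg
  · intro b a ha
    obtain ⟨R, hR⟩ : ∃ R : ℝ, R = (1 / 2) ^ κ b / (ω ((1 / 2) ^ κ b)) ^ 2 := ⟨_, rfl⟩
    rw [← hR]
    have hRe : R = (1 / 2) ^ κ b / (e (κ b)) ^ 2 := by rw [hR, he]
    have hs2 : 2 * (1 / 2 : ℝ) ^ (κ (b + 1) + 2) = (1 / 2) ^ κ (b + 1) / 2 := by
      rw [pow_add]; ring
    have hnonneg : ∀ k, 0 ≤ e k * min 1 (R * 2 ^ k) := by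
      intro k
      have h1 := hpos k
      have h2 := hpos (κ b)
      have h3 : 0 ≤ min 1 (R * 2 ^ k) := le_min zero_le_one (by rw [hRe]; positivity)
      positivity
    rcases le_or_gt R ((1 / 2) ^ κ (b + 1) / 2) with h1 | h1
    · -- the tent is empty
      have hempty : {z : E | z ∈ ball (0 : E) 1 ∧ ‖1 - ⟪z, a⟫_ℂ‖ < R ∧
          (1 / 2) ^ κ (b + 1) / 2 < 1 - ‖z‖} = ∅ := by
        rw [Set.eq_empty_iff_forall_notMem]
        rintro z ⟨-, h2, h3⟩
        have h4 : 1 - ‖z‖ ≤ ‖1 - ⟪z, a⟫_ℂ‖ := by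
          have h5 := norm_sub_norm_le (1 : ℂ) ⟪z, a⟫_ℂ
          have h6 := norm_inner_le_norm (𝕜 := ℂ) z a
          rw [ha, mul_one] at h6
          rw [norm_one] at h5
          linarith
        linarith
      rw [hempty]
      refine ⟨fun _ _ => 0, fun j => differentiableOn_const _, ?_, ?_⟩
      · intro j z hz; exact hz.elim
      · intro z hz; exact hz.elim
    · have h2 := hblock ω hω F hF hFM hFδ hFg (κ (b + 1) + 2) R a (by omega)
        (by
          have := half_pow_pos (κ (b + 1) + 2)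
          linarith) ha
      rw [hs2] at h2
      have h3 : ∑ k ∈ Finset.range (κ (b + 1) + 2 + 3), ω ((1 / 2) ^ k) * min 1 (R * 2 ^ k) ≤ Q := by
        have e1 : ∀ k, ω ((1 / 2) ^ k) * min 1 (R * 2 ^ k) = e k * min 1 (R * 2 ^ k) := fun k => by
          rw [he]
        simp only [e1]
        rw [← Finset.sum_range_add_sum_Ico _ (show κ (b + 1) ≤ κ (b + 1) + 2 + 3 by omega),
          ← Finset.sum_range_add_sum_Ico _ (hκ (Nat.lt_succ_self b)).le]
        have g1 : ∑ k ∈ Finset.range (κ b), e k * min 1 (R * 2 ^ k) ≤ 4 := by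
          rw [hRe]; exact upper_sum hslow hpos (κ b)
        have g2 : ∑ k ∈ Finset.Ico (κ b) (κ (b + 1)), e k * min 1 (R * 2 ^ k) ≤ K := by
          refine le_trans (Finset.sum_le_sum fun k _ => ?_) (hK b)
          have h4 := hpos k
          have h5 : e k = ω ((1 / 2) ^ k) := by rw [he]
          rw [← h5]
          exact mul_le_of_le_one_right h4.le (min_le_left _ _)
        have g3 : ∑ k ∈ Finset.Ico (κ (b + 1)) (κ (b + 1) + 2 + 3), e k * min 1 (R * 2 ^ k) ≤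
            10 * Wt := by
          have h4 : ∀ k ∈ Finset.Ico (κ (b + 1)) (κ (b + 1) + 2 + 3),
              e k * min 1 (R * 2 ^ k) ≤ 2 * Wt := by
            intro k hk
            rw [Finset.mem_Ico] at hk
            obtain ⟨i, hi⟩ : ∃ i, k = κ (b + 1) + i := ⟨k - κ (b + 1), by omega⟩
            have hi5 : i ≤ 5 := by omega
            have h5 := slow_iter' hslow (κ (b + 1)) i
            rw [← hi] at h5
            have h6 : (11 / 10 : ℝ) ^ i ≤ 2 := by
              calc (11 / 10 : ℝ) ^ i ≤ (11 / 10) ^ 5 := pow_le_pow_right₀ (by norm_num) hi5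
                _ ≤ 2 := by norm_num
            have h7 := hpos k
            have h8 := hpos (κ (b + 1))
            calc e k * min 1 (R * 2 ^ k) ≤ e k := mul_le_of_le_one_right h7.le (min_le_left _ _)
              _ ≤ (11 / 10) ^ i * e (κ (b + 1)) := h5
              _ ≤ 2 * Wt := mul_le_mul h6 (hW _) h8.le (by norm_num)
          calc _ ≤ ∑ _k ∈ Finset.Ico (κ (b + 1)) (κ (b + 1) + 2 + 3), 2 * Wt :=
                Finset.sum_le_sum h4
            _ = 10 * Wt := by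
                rw [Finset.sum_const, Nat.card_Ico, nsmul_eq_mul]
                have : κ (b + 1) + 2 + 3 - κ (b + 1) = 5 := by omega
                rw [this]
                push_cast
                ring
        rw [hQ]
        linarith
      obtain ⟨h, k1, k2, k3⟩ := h2
      refine ⟨h, k1, fun j z hz => (k2 j z hz).trans ?_, k3⟩
      gcongr

end Pool.Agent.MPca0fc2.VP
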