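import Mathlib
import Pool.Agent.Lib.MP_ca0fc2_an.QSj
import Pool.Agent.Lib.MP_ca0fc2_an.VP8

set_option autoImplicit false

open Metric Set Filter Topology MeasureTheory
open scoped InnerProductSpace ComplexConjugate

namespace Pool.Agent.MPca0fc2.QS

open Pool.Agent.MPca0fc2.SD
open Pool.Agent.MPca0fc2.SL
open Pool.Agent.MPca0fc2.VP
open Pool.Agent.MPca0fc2.VL (Mod half_mem scale_main)
open Pool.Agent.Lib.MP_ca0fc2_an

/-- One arbitrary function and `N` functions with bounded variation over the blocks. -/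
theorem sparse_main {E : Type*} [NormedAddCommGroup E] [InnerProductSpace ℂ E]
    [FiniteDimensional ℂ E] (hn : 2 ≤ Module.finrank ℂ E) (N : ℕ) (M δ K : ℝ) (hδ : 0 < δ)
    {ω : ℝ → ℝ} (hω : Mod ω) {κ : ℕ → ℕ} (hκ : StrictMono κ)
    (hsum : Summable fun b => ω ((1 / 2) ^ κ b))
    (hK : ∀ b, ∑ k ∈ Finset.Ico (κ b) (κ (b + 1)), ω ((1 / 2) ^ k) ≤ K) :
    ∃ C' : ℝ, ∀ F : Fin (N + 1) → E → ℂ,
      (∀ j, DifferentiableOn ℂ (F j) (ball 0 1)) →
      (∀ j, ∀ z ∈ ball (0 : E) 1, ‖F j z‖ ≤ M) →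
      (∀ z ∈ ball (0 : E) 1, δ ≤ ∑ j, ‖F j z‖ ^ 2) →
      (∀ j : Fin N, ∀ z ∈ ball (0 : E) 1,
        (1 - ‖z‖) * ‖fderiv ℂ (F j.succ) z‖ ≤ ω (1 - ‖z‖)) →
      SolvableOn F (ball 0 1) C' := by
  obtain ⟨C₃, hC₃, hblock⟩ := data_block E hn N M δ hδ
  obtain ⟨e, he⟩ : ∃ e : ℕ → ℝ, e = fun k => ω ((1 / 2) ^ k) := ⟨_, rfl⟩
  have hslow : Slow e := by rw [he]; exact hω.slow
  have hpos : ∀ k, 0 < e k := fun k => by rw [he]; exact hω.1 _ (half_mem k)
  obtain ⟨Wt, hWt⟩ : ∃ Wt : ℝ, Wt = ∑' b, e (κ b) := ⟨_, rfl⟩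
  have hsum' : Summable fun b => e (κ b) := by rw [he]; exact hsum
  have hW : ∀ b, e (κ b) ≤ Wt := fun b => by
    rw [hWt]; exact hsum'.le_tsum b fun j _ => (hpos _).le
  obtain ⟨Q, hQ⟩ : ∃ Q : ℝ, Q = 4 + K + 10 * Wt := ⟨_, rfl⟩
  obtain ⟨C', hC'⟩ := scale_main (E := E) hn N M δ (C₃ * (1 + Q)) hδ hω hκ hsum
  refine ⟨C', ?_⟩
  intro F hF hFM hFδ hFg
  apply hC' F hF hFM hFδ hFg
  intro b a ha
  obtain ⟨R, hR⟩ : ∃ R : ℝ, R = (1 / 2) ^ κ b / (ω ((1 / 2) ^ κ b)) ^ 2 := ⟨_, rfl⟩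
  rw [← hR]
  have hRe : R = (1 / 2) ^ κ b / (e (κ b)) ^ 2 := by rw [hR, he]
  have hs2 : 2 * (1 / 2 : ℝ) ^ (κ (b + 1) + 2) = (1 / 2) ^ κ (b + 1) / 2 := by
    rw [pow_add]; ring
  have hnonneg : ∀ k, 0 ≤ e k * min 1 (R * 2 ^ k) := by
    intro k
    have h1 := hpos k
    have h2 := hpos (κ b)
    have h3 : 0 ≤ min 1 (R * 2 ^ k) := le_min zero_le_one (by rw [hRe]; positivity)
    positivity
  rcases le_or_gt R ((1 / 2) ^ κ (b + 1) / 2) with h1 | h1
  · -- the tent is empty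
    have hempty : {z : E | z ∈ ball (0 : E) 1 ∧ ‖1 - ⟪z, a⟫_ℂ‖ < R ∧
        (1 / 2) ^ κ (b + 1) / 2 < 1 - ‖z‖} = ∅ := by
      rw [Set.eq_empty_iff_forall_notMem]
      rintro z ⟨-, h2, h3⟩
      have h4 : 1 - ‖z‖ ≤ ‖1 - ⟪z, a⟫_ℂ‖ := by
        have h5 := norm_sub_norm_le (1 : ℂ) ⟪z, a⟫_ℂ
        have h6 := norm_inner_le_norm (𝕜 := ℂ) z a
        rw [ha, mul_one] at h6
        rw [norm_one] at h5
        linarith
      linarith
    rw [hempty]
    refine ⟨fun _ _ => 0, fun j => differentiableOn_const _, ?_, ?_⟩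
    · intro j z hz; exact hz.elim
    · intro z hz; exact hz.elim
  · have h2 := hblock ω hω F hF hFM hFδ hFg (κ (b + 1) + 2) R a (by omega)
      (by
        have := half_pow_pos (κ (b + 1) + 2)
        linarith) ha
    rw [hs2] at h2
    have h3 : ∑ k ∈ Finset.range (κ (b + 1) + 2 + 3), ω ((1 / 2) ^ k) * min 1 (R * 2 ^ k) ≤ Q := by
      have e1 : ∀ k, ω ((1 / 2) ^ k) * min 1 (R * 2 ^ k) = e k * min 1 (R * 2 ^ k) := fun k => by
        rw [he]
      simp only [e1]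
      rw [← Finset.sum_range_add_sum_Ico _ (show κ (b + 1) ≤ κ (b + 1) + 2 + 3 by omega),
        ← Finset.sum_range_add_sum_Ico _ (hκ (Nat.lt_succ_self b)).le]
      have g1 : ∑ k ∈ Finset.range (κ b), e k * min 1 (R * 2 ^ k) ≤ 4 := by
        rw [hRe]; exact upper_sum hslow hpos (κ b)
      have g2 : ∑ k ∈ Finset.Ico (κ b) (κ (b + 1)), e k * min 1 (R * 2 ^ k) ≤ K := by
        refine le_trans (Finset.sum_le_sum fun k _ => ?_) (hK b)
        have h4 := hpos k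
        have h5 : e k = ω ((1 / 2) ^ k) := by rw [he]
        rw [← h5]
        exact mul_le_of_le_one_right h4.le (min_le_left _ _)
      have g3 : ∑ k ∈ Finset.Ico (κ (b + 1)) (κ (b + 1) + 2 + 3), e k * min 1 (R * 2 ^ k) ≤
          10 * Wt := by
        have h4 : ∀ k ∈ Finset.Ico (κ (b + 1)) (κ (b + 1) + 2 + 3),
            e k * min 1 (R * 2 ^ k) ≤ 2 * Wt := by
          intro k hk
          rw [Finset.mem_Ico] at hk
          obtain ⟨i, hi⟩ : ∃ i, k = κ (b + 1) + i := ⟨k - κ (b + 1), by omega⟩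
          have hi5 : i ≤ 5 := by omega
          have h5 := slow_iter' hslow (κ (b + 1)) i
          rw [← hi] at h5
          have h6 : (11 / 10 : ℝ) ^ i ≤ 2 := by
            calc (11 / 10 : ℝ) ^ i ≤ (11 / 10) ^ 5 := pow_le_pow_right₀ (by norm_num) hi5
              _ ≤ 2 := by norm_num
          have h7 := hpos k
          have h8 := hpos (κ (b + 1))
          calc e k * min 1 (R * 2 ^ k) ≤ e k := mul_le_of_le_one_right h7.le (min_le_left _ _)
            _ ≤ (11 / 10) ^ i * e (κ (b + 1)) := h5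
            _ ≤ 2 * Wt := mul_le_mul h6 (hW _) h8.le (by norm_num)
        calc _ ≤ ∑ _k ∈ Finset.Ico (κ (b + 1)) (κ (b + 1) + 2 + 3), 2 * Wt :=
              Finset.sum_le_sum h4
          _ = 10 * Wt := by
              rw [Finset.sum_const, Nat.card_Ico, nsmul_eq_mul]
              have : κ (b + 1) + 2 + 3 - κ (b + 1) = 5 := by omega
              rw [this]
              push_cast
              ring
      rw [hQ]
      linarith
    obtain ⟨h, k1, k2, k3⟩ := h2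
    refine ⟨h, k1, fun j z hz => (k2 j z hz).trans ?_, k3⟩
    gcongr

end Pool.Agent.MPca0fc2.QS
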