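import Mathlib
import Pool.Agent.Lib.MP_ca0fc2_an.VP8

set_option autoImplicit false

open Metric Set Filter Topology MeasureTheory
open scoped InnerProductSpace

namespace Pool.Agent.MPca0fc2.VP

open Pool.Agent.MPca0fc2.VL
open Pool.Agent.Lib.MP_ca0fc2_an

/-- the profile of a monomial -/
noncomputable def mu (x : ℝ) : ℝ := min (x ^ (1 / 8 : ℝ)) (x ^ (-(1 / 8) : ℝ))

theorem mu_pos {x : ℝ} (hx : 0 < x) : 0 < mu x :=
  lt_min (Real.rpow_pos_of_pos hx _) (Real.rpow_pos_of_pos hx _)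

theorem mu_le_one {x : ℝ} (hx : 0 < x) : mu x ≤ 1 := by
  rcases le_total x 1 with h | h
  · exact (min_le_left _ _).trans (Real.rpow_le_one hx.le h (by norm_num))
  · exact (min_le_right _ _).trans (Real.rpow_le_one_of_one_le_of_nonpos h (by norm_num))

theorem mu_scale {x s t : ℝ} (hx : 0 < x) (hs : 0 < s) (hst : s ≤ t) :
    mu (x * s) ≤ mu (x * t) * (t / s) ^ (1 / 8 : ℝ) ∧
      mu (x * t) ≤ mu (x * s) * (t / s) ^ (1 / 8 : ℝ) := by
  have ht : 0 < t := hs.trans_le hst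
  have hr : 1 ≤ t / s := (one_le_div hs).mpr hst
  have hr0 : 0 < t / s := by positivity
  have hR : 1 ≤ (t / s) ^ (1 / 8 : ℝ) := Real.one_le_rpow hr (by norm_num)
  have hR0 : 0 < (t / s) ^ (1 / 8 : ℝ) := by positivity
  have e1 : (x * t) ^ (1 / 8 : ℝ) = (x * s) ^ (1 / 8 : ℝ) * (t / s) ^ (1 / 8 : ℝ) := by
    rw [← Real.mul_rpow (by positivity) (by positivity)]
    congr 1; field_simp
  have e2 : (x * s) ^ (-(1 / 8) : ℝ) = (x * t) ^ (-(1 / 8) : ℝ) * (t / s) ^ (1 / 8 : ℝ) := by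
    rw [Real.rpow_neg (by positivity), Real.rpow_neg (by positivity), e1]
    have : 0 < (x * s) ^ (1 / 8 : ℝ) := by positivity
    field_simp
  have p1 : 0 < (x * s) ^ (1 / 8 : ℝ) := by positivity
  have p2 : 0 < (x * t) ^ (1 / 8 : ℝ) := by positivity
  have p3 : 0 < (x * s) ^ (-(1 / 8) : ℝ) := by positivity
  have p4 : 0 < (x * t) ^ (-(1 / 8) : ℝ) := by positivity
  constructor
  · unfold mu
    rw [min_mul_of_nonneg _ _ hR0.le]
    apply le_min
    · refine (min_le_left _ _).trans ?_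
      rw [e1]
      nlinarith
    · refine (min_le_right _ _).trans ?_
      rw [← e2]
  · unfold mu
    rw [min_mul_of_nonneg _ _ hR0.le]
    apply le_min
    · refine (min_le_left _ _).trans ?_
      rw [← e1]
    · refine (min_le_right _ _).trans ?_
      rw [e2]
      nlinarith

theorem mu_exp {x : ℝ} (hx : 0 < x) : x * Real.exp (-x) ≤ mu x * mu x := by
  have h1 : ∀ y : ℝ, 0 < y → y ^ (1 / 8 : ℝ) * y ^ (1 / 8 : ℝ) = y ^ (1 / 4 : ℝ) := by
    intro y hy
    rw [← Real.rpow_add hy]; norm_num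
  rcases le_total x 1 with h | h
  · have h2 : mu x = x ^ (1 / 8 : ℝ) := by
      unfold mu
      apply min_eq_left
      exact Real.rpow_le_rpow_of_exponent_ge hx h (by norm_num)
    rw [h2, h1 x hx]
    have h3 : Real.exp (-x) ≤ 1 := Real.exp_le_one_iff.mpr (by linarith)
    have h4 : x ≤ x ^ (1 / 4 : ℝ) := by
      have := Real.rpow_le_rpow_of_exponent_ge hx h (show (1 / 4 : ℝ) ≤ 1 by norm_num)
      rwa [Real.rpow_one] at this
    nlinarith
  · have h2 : mu x = x ^ (-(1 / 8) : ℝ) := by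
      unfold mu
      apply min_eq_right
      exact Real.rpow_le_rpow_of_exponent_le h (by norm_num)
    rw [h2, ← Real.rpow_add hx]
    have h3 : x ^ (-1 : ℝ) ≤ x ^ (-(1 / 8) + -(1 / 8) : ℝ) :=
      Real.rpow_le_rpow_of_exponent_le h (by norm_num)
    refine le_trans ?_ h3
    rw [Real.rpow_neg_one, Real.exp_neg]
    have h4 : x * x ≤ Real.exp x := by
      have h5 := Real.sum_le_exp_of_nonneg hx.le 4
      simp only [Finset.sum_range_succ, Finset.sum_range_zero] at h5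
      norm_num [Nat.factorial] at h5
      nlinarith [sq_nonneg (x - 2), sq_nonneg x, mul_pos hx hx]
    have h6 := Real.exp_pos x
    rw [← div_eq_mul_inv, div_le_iff₀ h6]
    have : x⁻¹ * (x * x) = x := by field_simp
    calc x = x⁻¹ * (x * x) := this.symm
      _ ≤ x⁻¹ * Real.exp x := by gcongr

/-- the sum of the profiles of a lacunary sequence -/
theorem mu_sum {x : ℕ → ℝ} (h0 : ∀ m, 0 < x m) (h4 : ∀ m, 2 * x m ≤ x (m + 1)) (n : ℕ) :
    ∑ m ∈ Finset.range n, mu (x m) ≤ 27 := by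
  have hq : (109 / 100 : ℝ) ≤ (2 : ℝ) ^ (1 / 8 : ℝ) := by
    have : ((109 / 100 : ℝ) ^ (8 : ℝ)) ^ (1 / 8 : ℝ) ≤ (2 : ℝ) ^ (1 / 8 : ℝ) := by
      apply Real.rpow_le_rpow (by positivity) _ (by norm_num)
      rw [show (8 : ℝ) = ((8 : ℕ) : ℝ) by norm_num, Real.rpow_natCast]; norm_num
    rwa [← Real.rpow_mul (by norm_num), show (8 : ℝ) * (1 / 8) = 1 by norm_num,
      Real.rpow_one] at this
  -- the potential
  obtain ⟨Φ, hΦ⟩ : ∃ Φ : ℝ → ℝ, Φ = fun y =>
      if y ≤ 1 then 13 * y ^ (1 / 8 : ℝ) else 26 - 12 * y ^ (-(1 / 8) : ℝ) := ⟨_, rfl⟩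
  have hstep : ∀ y z : ℝ, 0 < y → 2 * y ≤ z → Φ y + mu z ≤ Φ z := by
    intro y z hy hyz
    have hz : 0 < z := by linarith
    have h1 : (109 / 100 : ℝ) * y ^ (1 / 8 : ℝ) ≤ z ^ (1 / 8 : ℝ) := by
      calc (109 / 100 : ℝ) * y ^ (1 / 8 : ℝ) ≤ 2 ^ (1 / 8 : ℝ) * y ^ (1 / 8 : ℝ) := by gcongr
        _ = (2 * y) ^ (1 / 8 : ℝ) := by rw [Real.mul_rpow (by norm_num) hy.le]
        _ ≤ z ^ (1 / 8 : ℝ) := Real.rpow_le_rpow (by positivity) hyz (by norm_num)
    have hy8 : 0 < y ^ (1 / 8 : ℝ) := by positivity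
    have hz8 : 0 < z ^ (1 / 8 : ℝ) := by positivity
    have m1 : mu z ≤ z ^ (1 / 8 : ℝ) := min_le_left _ _
    have m2 : mu z ≤ (z ^ (1 / 8 : ℝ))⁻¹ := by
      rw [← Real.rpow_neg hz.le]; exact min_le_right _ _
    have hinv : (109 / 100 : ℝ) * (z ^ (1 / 8 : ℝ))⁻¹ ≤ (y ^ (1 / 8 : ℝ))⁻¹ := by
      rw [← div_eq_mul_inv, div_le_iff₀ hz8, ← div_eq_inv_mul, le_div_iff₀ hy8]
      exact h1
    simp only [hΦ]
    rw [Real.rpow_neg hz.le, Real.rpow_neg hy.le]
    split_ifs with hy1 hz1 hz1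
    · nlinarith
    · have h2 : y ^ (1 / 8 : ℝ) ≤ 1 := Real.rpow_le_one hy.le hy1 (by norm_num)
      have h3 : (z ^ (1 / 8 : ℝ))⁻¹ ≤ 1 := by
        rw [← Real.rpow_neg hz.le]
        exact Real.rpow_le_one_of_one_le_of_nonpos (by linarith [not_le.mp hz1]) (by norm_num)
      linarith
    · exfalso; linarith [not_le.mp hy1]
    · have : 0 < (z ^ (1 / 8 : ℝ))⁻¹ := by positivity
      linarith
  have hmain : ∀ n, ∑ m ∈ Finset.range (n + 1), mu (x m) ≤ 1 + Φ (x n) := by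
    intro n
    induction n with
    | zero =>
      rw [Finset.sum_range_one]
      have h1 := mu_le_one (h0 0)
      have h2 : 0 ≤ Φ (x 0) := by
        simp only [hΦ]
        split_ifs with hy1
        · have := h0 0
          positivity
        · have h3 : x 0 ^ (-(1 / 8) : ℝ) ≤ 1 :=
            Real.rpow_le_one_of_one_le_of_nonpos (by linarith [not_le.mp hy1]) (by norm_num)
          linarith
      linarith
    | succ n ih =>
      rw [Finset.sum_range_succ]
      have := hstep (x n) (x (n + 1)) (h0 n) (h4 n)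
      linarith
  rcases n with _ | n
  · simp
  · refine (hmain n).trans ?_
    have : Φ (x n) ≤ 26 := by
      simp only [hΦ]
      split_ifs with hy1
      · have h2 : x n ^ (1 / 8 : ℝ) ≤ 1 := Real.rpow_le_one (h0 n).le hy1 (by norm_num)
        linarith
      · have := h0 n
        have : 0 < x n ^ (-(1 / 8) : ℝ) := by positivity
        linarith
    linarith

/-- the dyadic sum of a profile -/
theorem mu_dyadic {x : ℝ} (hx : 0 < x) (S : Finset ℕ) :
    ∑ k ∈ S, mu (x * (1 / 2) ^ k) ≤ 27 := by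
  obtain ⟨n, hn⟩ : ∃ n, S ⊆ Finset.range n := Finset.exists_nat_subset_range S
  calc ∑ k ∈ S, mu (x * (1 / 2) ^ k) ≤ ∑ k ∈ Finset.range n, mu (x * (1 / 2) ^ k) :=
        Finset.sum_le_sum_of_subset_of_nonneg hn fun k _ _ => (mu_pos (by positivity)).le
    _ = ∑ k ∈ Finset.range n, mu (x * (1 / 2) ^ (n - 1 - k)) := by
        rw [← Finset.sum_range_reflect]
    _ = ∑ k ∈ Finset.range n, mu ((x * (1 / 2) ^ n * 2) * 2 ^ k) := by
        apply Finset.sum_congr rfl
        intro k hk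
        rw [Finset.mem_range] at hk
        congr 1
        have h1 : (1 / 2 : ℝ) ^ n * 2 = (1 / 2) ^ (n - 1) := by
          obtain ⟨j, rfl⟩ : ∃ j, n = j + 1 := ⟨n - 1, by omega⟩
          rw [Nat.add_sub_cancel, pow_succ]; ring
        have h2 : (1 / 2 : ℝ) ^ (n - 1) * 2 ^ k = (1 / 2) ^ (n - 1 - k) := by
          obtain ⟨j, hj⟩ : ∃ j, n - 1 = j + k := ⟨n - 1 - k, by omega⟩
          rw [hj, Nat.add_sub_cancel, pow_add, mul_assoc, ← mul_pow]
          norm_num
        rw [← h2, ← h1]; ring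
    _ ≤ 27 := by
        apply mu_sum
        · intro m; positivity
        · intro m; rw [pow_succ]; exact le_of_eq (by ring)

end Pool.Agent.MPca0fc2.VP
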