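import Mathlib
import Pool.Agent.Lib.MP_ca0fc2_an.VP9

set_option autoImplicit false

open Metric Set Filter Topology MeasureTheory
open scoped InnerProductSpace

namespace Pool.Agent.MPca0fc2.VP

open Pool.Agent.MPca0fc2.VL
open Pool.Agent.Lib.MP_ca0fc2_an

/-- the profile of a lacunary sequence -/
noncomputable def sm (d : ℕ → ℕ) (t : ℝ) : ℝ := ⨆ m, mu (d m * t)

section

variable {d : ℕ → ℕ}

theorem le_sm (h0 : ∀ m, 0 < d m) {t : ℝ} (ht : 0 < t) (m : ℕ) : mu (d m * t) ≤ sm d t := by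
  have hb : BddAbove (range fun m => mu (d m * t)) := by
    refine ⟨1, ?_⟩
    rintro _ ⟨m, rfl⟩
    have : (0 : ℝ) < d m := Nat.cast_pos.mpr (h0 m)
    exact mu_le_one (by positivity)
  exact le_ciSup hb m

theorem sm_le {t B : ℝ} (h : ∀ m, mu (d m * t) ≤ B) : sm d t ≤ B := ciSup_le h

theorem sm_pos (h0 : ∀ m, 0 < d m) {t : ℝ} (ht : 0 < t) : 0 < sm d t := by
  have : (0 : ℝ) < d 0 := Nat.cast_pos.mpr (h0 0)
  exact (mu_pos (by positivity)).trans_le (le_sm h0 ht 0)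

theorem sm_mod (h0 : ∀ m, 0 < d m) {A : ℝ} (hA : 0 < A) : Mod fun t => A * sm d t := by
  refine ⟨fun t ht => mul_pos hA (sm_pos h0 ht.1), fun s hs t ht hst => ?_⟩
  have hs0 : 0 < s := hs.1
  have ht0 : 0 < t := ht.1
  have hR0 : 0 < (t / s) ^ (1 / 8 : ℝ) := by positivity
  have hd : ∀ m, (0 : ℝ) < d m := fun m => Nat.cast_pos.mpr (h0 m)
  constructor
  · have : sm d s ≤ sm d t * (t / s) ^ (1 / 8 : ℝ) := by
      apply sm_le
      intro m
      refine (mu_scale (hd m) hs0 hst).1.trans ?_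
      have := le_sm h0 ht0 m
      gcongr
    calc A * sm d s ≤ A * (sm d t * (t / s) ^ (1 / 8 : ℝ)) := by gcongr
      _ = _ := by ring
  · have : sm d t ≤ sm d s * (t / s) ^ (1 / 8 : ℝ) := by
      apply sm_le
      intro m
      refine (mu_scale (hd m) hs0 hst).2.trans ?_
      have := le_sm h0 hs0 m
      gcongr
    calc A * sm d t ≤ A * (sm d s * (t / s) ^ (1 / 8 : ℝ)) := by gcongr
      _ = _ := by ring

theorem exp_sum (h0 : ∀ m, 0 < d m) (h4 : ∀ m, 4 * d m ≤ d (m + 1)) {t : ℝ} (ht : 0 < t) (n : ℕ) :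
    ∑ m ∈ Finset.range n, (d m * t) * Real.exp (-(d m * t)) ≤ 27 * sm d t := by
  have hd : ∀ m, (0 : ℝ) < d m := fun m => Nat.cast_pos.mpr (h0 m)
  have hs := sm_pos h0 ht
  calc ∑ m ∈ Finset.range n, (d m * t) * Real.exp (-(d m * t)) ≤
      ∑ m ∈ Finset.range n, mu (d m * t) * sm d t := by
        apply Finset.sum_le_sum
        intro m _
        have h1 : (0 : ℝ) < d m * t := mul_pos (hd m) ht
        refine (mu_exp h1).trans ?_
        have := le_sm h0 ht m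
        have := (mu_pos h1).le
        gcongr
    _ = (∑ m ∈ Finset.range n, mu (d m * t)) * sm d t := by rw [Finset.sum_mul]
    _ ≤ 27 * sm d t := by
        apply mul_le_mul_of_nonneg_right _ hs.le
        apply mu_sum
        · intro m; exact mul_pos (hd m) ht
        · intro m
          have h5 : (4 * d m : ℝ) ≤ d (m + 1) := by exact_mod_cast h4 m
          have := hd m
          nlinarith

/-- the separating scales -/
def kp (d : ℕ → ℕ) (b : ℕ) : ℕ := Nat.log 2 (Nat.sqrt (d b * d (b + 1)))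

theorem kp_bd (h0 : ∀ m, 0 < d m) (b : ℕ) :
    (4 : ℕ) ^ kp d b ≤ d b * d (b + 1) ∧ d b * d (b + 1) < 4 * 4 ^ kp d b := by
  obtain ⟨N, hN⟩ : ∃ N, N = d b * d (b + 1) := ⟨_, rfl⟩
  have hN0 : 0 < N := by rw [hN]; exact Nat.mul_pos (h0 _) (h0 _)
  unfold kp
  rw [← hN]
  have hr : Nat.sqrt N ≠ 0 := by
    have := Nat.sqrt_pos.mpr hN0
    omega
  have h1 := Nat.pow_log_le_self 2 hr
  have h2 := Nat.lt_pow_succ_log_self (by norm_num : 1 < 2) (Nat.sqrt N)
  have h3 := Nat.sqrt_le N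
  have h4 := Nat.lt_succ_sqrt N
  have e4 : ∀ k : ℕ, (4 : ℕ) ^ k = 2 ^ k * 2 ^ k := by
    intro k
    rw [← mul_pow]
    norm_num
  constructor
  · rw [e4]
    exact (Nat.mul_le_mul h1 h1).trans h3
  · have h5 : Nat.succ (Nat.sqrt N) ≤ 2 ^ (Nat.log 2 (Nat.sqrt N) + 1) := h2
    have h6 := Nat.mul_le_mul h5 h5
    have h7 : 2 ^ (Nat.log 2 (Nat.sqrt N) + 1) * 2 ^ (Nat.log 2 (Nat.sqrt N) + 1) =
        4 * 4 ^ Nat.log 2 (Nat.sqrt N) := by
      rw [e4, pow_succ]; ring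
    omega

theorem kp_mono (h0 : ∀ m, 0 < d m) (h4 : ∀ m, 4 * d m ≤ d (m + 1)) : StrictMono (kp d) := by
  apply strictMono_nat_of_lt_succ
  intro b
  have h1 := (kp_bd h0 b).1
  have h2 := (kp_bd h0 (b + 1)).2
  have h3 : 16 * (d b * d (b + 1)) ≤ d (b + 1) * d (b + 1 + 1) := by
    have := Nat.mul_le_mul (h4 b) (h4 (b + 1))
    calc 16 * (d b * d (b + 1)) = (4 * d b) * (4 * d (b + 1)) := by ring
      _ ≤ _ := this
  have h5 : 4 * 4 ^ kp d b < 4 ^ kp d (b + 1) := by omega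
  have h6 : 4 ^ (kp d b + 1) < 4 ^ kp d (b + 1) := by rw [pow_succ]; omega
  have := (Nat.pow_lt_pow_iff_right (by norm_num : 1 < 4)).mp h6
  omega

theorem kp_real (h0 : ∀ m, 0 < d m) (b : ℕ) :
    1 ≤ (d b * ((1 / 2 : ℝ) ^ kp d b)) * (d (b + 1) * ((1 / 2 : ℝ) ^ kp d b)) ∧
      (d b * ((1 / 2 : ℝ) ^ kp d b)) * (d (b + 1) * ((1 / 2 : ℝ) ^ kp d b)) ≤ 4 := by
  obtain ⟨h1, h2⟩ := kp_bd h0 b
  have h1' : (4 : ℝ) ^ kp d b ≤ d b * d (b + 1) := by exact_mod_cast h1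
  have h2' : (d b * d (b + 1) : ℝ) ≤ 4 * 4 ^ kp d b := by exact_mod_cast h2.le
  have e : (d b * ((1 / 2 : ℝ) ^ kp d b)) * (d (b + 1) * ((1 / 2 : ℝ) ^ kp d b)) =
      (d b * d (b + 1)) / 4 ^ kp d b := by
    have : (1 / 2 : ℝ) ^ kp d b * (1 / 2) ^ kp d b * 4 ^ kp d b = 1 := by
      rw [← mul_pow, ← mul_pow]; norm_num
    have h4 : (0 : ℝ) < 4 ^ kp d b := by positivity
    rw [eq_div_iff h4.ne']
    calc _ = (d b * d (b + 1) : ℝ) * ((1 / 2 : ℝ) ^ kp d b * (1 / 2) ^ kp d b * 4 ^ kp d b) := by ring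
      _ = _ := by rw [this, mul_one]
  rw [e]
  have h4 : (0 : ℝ) < 4 ^ kp d b := by positivity
  exact ⟨(one_le_div h4).mpr h1', (div_le_iff₀ h4).mpr h2'⟩

theorem d_mono (h4 : ∀ m, 4 * d m ≤ d (m + 1)) : Monotone d :=
  monotone_nat_of_le_succ fun m => by have := h4 m; omega

/-- comparison of the profile with the nearest frequency -/
theorem sm_block (h0 : ∀ m, 0 < d m) (h4 : ∀ m, 4 * d m ≤ d (m + 1)) (b : ℕ) {t : ℝ} (ht : 0 < t)
    (h1 : (d b * t) * (d (b + 1) * t) ≤ 4) (h2 : 1 ≤ (d (b + 1) * t) * (d (b + 2) * t)) :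
    sm d t ≤ 2 * mu (d (b + 1) * t) := by
  have hd : ∀ m, (0 : ℝ) < d m := fun m => Nat.cast_pos.mpr (h0 m)
  have hdm : ∀ {i j : ℕ}, i ≤ j → (d i : ℝ) ≤ d j := fun h => Nat.cast_le.mpr (d_mono h4 h)
  have hx := mu_pos (mul_pos (hd (b + 1)) ht)
  apply sm_le
  intro m
  have c4 : (4 : ℝ) ^ (1 / 8 : ℝ) ≤ 2 := by
    calc (4 : ℝ) ^ (1 / 8 : ℝ) ≤ 4 ^ (1 / 2 : ℝ) :=
          Real.rpow_le_rpow_of_exponent_le (by norm_num) (by norm_num)
      _ = 2 := by
          rw [← Real.sqrt_eq_rpow, show (4 : ℝ) = 2 ^ 2 by norm_num, Real.sqrt_sq (by norm_num)]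
  rcases lt_trichotomy m (b + 1) with h | h | h
  · have hy : (d m : ℝ) * t ≤ d b * t := by
      have := hdm (show m ≤ b by omega)
      gcongr
    have hyb : (0 : ℝ) < d b * t := mul_pos (hd b) ht
    have hz : (0 : ℝ) < d (b + 1) * t := mul_pos (hd _) ht
    have h3 : mu (d m * t) ≤ (d b * t) ^ (1 / 8 : ℝ) :=
      (min_le_left _ _).trans (Real.rpow_le_rpow (mul_pos (hd m) ht).le hy (by norm_num))
    refine h3.trans ?_
    unfold mu
    rw [mul_min_of_nonneg _ _ (by norm_num : (0 : ℝ) ≤ 2)]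
    apply le_min
    · have : (d b : ℝ) * t ≤ d (b + 1) * t := by
        have := hdm (show b ≤ b + 1 by omega)
        gcongr
      have h5 := Real.rpow_le_rpow hyb.le this (show (0 : ℝ) ≤ 1 / 8 by norm_num)
      have h6 : (0 : ℝ) < (d (b + 1) * t) ^ (1 / 8 : ℝ) := by positivity
      linarith
    · rw [Real.rpow_neg hz.le, ← div_eq_mul_inv, le_div_iff₀ (by positivity),
        ← Real.mul_rpow hyb.le hz.le]
      exact (Real.rpow_le_rpow (by positivity) h1 (by norm_num)).trans c4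
  · subst h
    linarith
  · have hz : (0 : ℝ) < d (b + 1) * t := mul_pos (hd _) ht
    have hw : (0 : ℝ) < d (b + 2) * t := mul_pos (hd _) ht
    have hm : (0 : ℝ) < d m * t := mul_pos (hd _) ht
    have hy : (d (b + 2) : ℝ) * t ≤ d m * t := by
      have := hdm (show b + 2 ≤ m by omega)
      gcongr
    have hzw : (d (b + 1) : ℝ) * t ≤ d (b + 2) * t := by
      have := hdm (show b + 1 ≤ b + 2 by omega)
      gcongr
    have h3 : mu (d m * t) ≤ (d (b + 2) * t) ^ (-(1 / 8) : ℝ) :=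
      (min_le_right _ _).trans (Real.rpow_le_rpow_of_nonpos hw hy (by norm_num))
    refine h3.trans ?_
    have h5 : (d (b + 2) * t) ^ (-(1 / 8) : ℝ) ≤ mu (d (b + 1) * t) := by
      unfold mu
      apply le_min
      · rw [Real.rpow_neg hw.le, ← one_div, div_le_iff₀ (by positivity),
          ← Real.mul_rpow hz.le hw.le]
        exact Real.one_le_rpow h2 (by norm_num)
      · exact Real.rpow_le_rpow_of_nonpos hz hzw (by norm_num)
    linarith

theorem sm_block_sum (h0 : ∀ m, 0 < d m) (h4 : ∀ m, 4 * d m ≤ d (m + 1)) (b : ℕ) :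
    ∑ k ∈ Finset.Ico (kp d b) (kp d (b + 1)), sm d ((1 / 2) ^ k) ≤ 54 := by
  have hd : ∀ m, (0 : ℝ) < d m := fun m => Nat.cast_pos.mpr (h0 m)
  calc ∑ k ∈ Finset.Ico (kp d b) (kp d (b + 1)), sm d ((1 / 2) ^ k) ≤
      ∑ k ∈ Finset.Ico (kp d b) (kp d (b + 1)), 2 * mu (d (b + 1) * (1 / 2) ^ k) := by
        apply Finset.sum_le_sum
        intro k hk
        rw [Finset.mem_Ico] at hk
        have h1 := (kp_real h0 b).2
        have h2 := (kp_real h0 (b + 1)).1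
        have g1 : (1 / 2 : ℝ) ^ k ≤ (1 / 2) ^ kp d b :=
          pow_le_pow_of_le_one (by norm_num) (by norm_num) hk.1
        have g2 : (1 / 2 : ℝ) ^ kp d (b + 1) ≤ (1 / 2) ^ k :=
          pow_le_pow_of_le_one (by norm_num) (by norm_num) hk.2.le
        have p0 : (0 : ℝ) < (1 / 2) ^ k := by positivity
        apply sm_block h0 h4 b p0
        · refine le_trans ?_ h1
          have := (hd b).le
          have := (hd (b + 1)).le
          gcongr
        · refine h2.trans ?_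
          have := (hd (b + 1)).le
          have := (hd (b + 1 + 1)).le
          gcongr
    _ = 2 * ∑ k ∈ Finset.Ico (kp d b) (kp d (b + 1)), mu (d (b + 1) * (1 / 2) ^ k) := by
        rw [Finset.mul_sum]
    _ ≤ 54 := by
        have := mu_dyadic (hd (b + 1)) (Finset.Ico (kp d b) (kp d (b + 1)))
        linarith

theorem sm_sep (h0 : ∀ m, 0 < d m) (h4 : ∀ m, 4 * d m ≤ d (m + 1)) (b : ℕ) :
    sm d ((1 / 2) ^ kp d b) ≤ 2 * ((d b : ℝ) / d (b + 1)) ^ (1 / 16 : ℝ) := by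
  have hd : ∀ m, (0 : ℝ) < d m := fun m => Nat.cast_pos.mpr (h0 m)
  have hdm : ∀ {i j : ℕ}, i ≤ j → (d i : ℝ) ≤ d j := fun h => Nat.cast_le.mpr (d_mono h4 h)
  obtain ⟨t, ht⟩ : ∃ t : ℝ, t = (1 / 2) ^ kp d b := ⟨_, rfl⟩
  have ht0 : 0 < t := by rw [ht]; positivity
  obtain ⟨h1, h2⟩ := kp_real h0 b
  rw [← ht] at h1 h2
  rw [← ht]
  obtain ⟨x, hx⟩ : ∃ x : ℝ, x = d b * t := ⟨_, rfl⟩
  obtain ⟨y, hy⟩ : ∃ y : ℝ, y = d (b + 1) * t := ⟨_, rfl⟩
  have hx0 : 0 < x := by rw [hx]; exact mul_pos (hd _) ht0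
  have hy0 : 0 < y := by rw [hy]; exact mul_pos (hd _) ht0
  have hxy : (d b : ℝ) / d (b + 1) = x / y := by
    rw [hx, hy]
    have := (hd (b + 1)).ne'
    field_simp
  rw [← hx, ← hy] at h1 h2
  rw [hxy]
  have e8 : ∀ u : ℝ, 0 < u → u ^ (1 / 8 : ℝ) = (u * u) ^ (1 / 16 : ℝ) := by
    intro u hu
    rw [Real.mul_rpow hu.le hu.le, ← Real.rpow_add hu]
    norm_num
  have c4 : (4 : ℝ) ^ (1 / 16 : ℝ) ≤ 2 := by
    calc (4 : ℝ) ^ (1 / 16 : ℝ) ≤ 4 ^ (1 / 2 : ℝ) :=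
          Real.rpow_le_rpow_of_exponent_le (by norm_num) (by norm_num)
      _ = 2 := by
          rw [← Real.sqrt_eq_rpow, show (4 : ℝ) = 2 ^ 2 by norm_num, Real.sqrt_sq (by norm_num)]
  have hq0 : 0 < (x / y) ^ (1 / 16 : ℝ) := by positivity
  apply sm_le
  intro m
  rcases le_or_gt m b with h | h
  · have h3 : mu (d m * t) ≤ x ^ (1 / 8 : ℝ) := by
      refine (min_le_left _ _).trans (Real.rpow_le_rpow (mul_pos (hd m) ht0).le ?_ (by norm_num))
      rw [hx]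
      have := hdm h
      gcongr
    refine h3.trans ?_
    rw [e8 x hx0]
    calc (x * x) ^ (1 / 16 : ℝ) ≤ (4 * (x / y)) ^ (1 / 16 : ℝ) := by
          apply Real.rpow_le_rpow (by positivity) _ (by norm_num)
          rw [mul_div_assoc', le_div_iff₀ hy0]
          nlinarith
      _ = 4 ^ (1 / 16 : ℝ) * (x / y) ^ (1 / 16 : ℝ) := by
          rw [Real.mul_rpow (by norm_num) (by positivity)]
      _ ≤ 2 * (x / y) ^ (1 / 16 : ℝ) := by gcongr
  · have h3 : mu (d m * t) ≤ y ^ (-(1 / 8) : ℝ) := by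
      refine (min_le_right _ _).trans (Real.rpow_le_rpow_of_nonpos hy0 ?_ (by norm_num))
      rw [hy]
      have := hdm (show b + 1 ≤ m by omega)
      gcongr
    refine h3.trans ?_
    rw [Real.rpow_neg hy0.le, e8 y hy0, ← Real.inv_rpow (by positivity)]
    have h5 : ((y * y)⁻¹) ^ (1 / 16 : ℝ) ≤ (x / y) ^ (1 / 16 : ℝ) := by
      apply Real.rpow_le_rpow (by positivity) _ (by norm_num)
      rw [← one_div, div_le_div_iff₀ (by positivity) hy0]
      nlinarith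
    linarith

end

end Pool.Agent.MPca0fc2.VP
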