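import Mathlib
import Pool.Agent.Lib.MP_ca0fc2_an.VP10

set_option autoImplicit false

open Metric Set Filter Topology MeasureTheory
open scoped InnerProductSpace

namespace Pool.Agent.MPca0fc2.VP

open Pool.Agent.MPca0fc2.VL
open Pool.Agent.Lib.MP_ca0fc2_an

/-- the coefficients of a bounded power series on the closed disc -/
theorem coef_le {d : ℕ → ℕ} (hd : StrictMono d) {p : ℕ → ℂ} {φ : ℂ → ℂ} {M : ℝ}
    (hs : ∀ ζ : ℂ, ‖ζ‖ = 1 → HasSum (fun m => p m * ζ ^ d m) (φ ζ))
    (hφ : ∀ ζ : ℂ, ‖ζ‖ = 1 → ‖φ ζ‖ ≤ M) (m : ℕ) : ‖p m‖ ≤ M := by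
  have hp : Summable fun k => ‖p k‖ := by
    have h1 := (hs 1 (by simp)).summable.norm
    simpa using h1
  -- the circle integral
  have h1 : HasSum (fun k => ∫ θ in (0 : ℝ)..2 * Real.pi,
      deriv (circleMap 0 1) θ • (p k * (circleMap 0 1 θ) ^ d k * (circleMap 0 1 θ) ^ (-((d m : ℤ) + 1))))
      (∫ θ in (0 : ℝ)..2 * Real.pi,
        deriv (circleMap 0 1) θ • (φ (circleMap 0 1 θ) * (circleMap 0 1 θ) ^ (-((d m : ℤ) + 1)))) := by
    apply intervalIntegral.hasSum_integral_of_dominated_convergence (fun k _ => ‖p k‖)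
    · intro k
      apply Continuous.aestronglyMeasurable
      have hc : Continuous fun θ => circleMap (0 : ℂ) 1 θ := continuous_circleMap 0 1
      have hne : ∀ θ, circleMap (0 : ℂ) 1 θ ≠ 0 := fun θ => by
        have := circleMap_ne_center (c := 0) one_ne_zero (θ := θ)
        exact this
      simp only [deriv_circleMap, smul_eq_mul]
      have hz : Continuous fun θ => (circleMap (0 : ℂ) 1 θ) ^ (-((d m : ℤ) + 1)) :=
        continuous_iff_continuousAt.mpr fun θ =>
          (hc.continuousAt).zpow₀ _ (Or.inl (hne θ))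
      fun_prop
    · intro k
      filter_upwards with θ _
      simp only [deriv_circleMap, norm_smul, norm_mul, norm_circleMap_zero, norm_pow, norm_zpow,
        Complex.norm_I]
      simp
    · filter_upwards with θ _
      exact hp
    · exact intervalIntegrable_const
    · filter_upwards with θ _
      have h2 := hs (circleMap 0 1 θ) (by simp)
      exact (h2.mul_right _).const_smul _
  have h3 : ∀ k, (∫ θ in (0 : ℝ)..2 * Real.pi,
      deriv (circleMap 0 1) θ • (p k * (circleMap 0 1 θ) ^ d k *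
        (circleMap 0 1 θ) ^ (-((d m : ℤ) + 1)))) = if k = m then 2 * Real.pi * Complex.I * p m else 0 := by
    intro k
    have hne : ∀ θ, circleMap (0 : ℂ) 1 θ ≠ 0 := fun θ =>
      circleMap_ne_center (c := 0) one_ne_zero (θ := θ)
    have h4 : (∫ θ in (0 : ℝ)..2 * Real.pi,
        deriv (circleMap 0 1) θ • (p k * (circleMap 0 1 θ) ^ d k *
          (circleMap 0 1 θ) ^ (-((d m : ℤ) + 1)))) =
        p k * ∮ ζ in C(0, 1), (ζ - 0) ^ ((d k : ℤ) - d m - 1) := by
      rw [circleIntegral, ← smul_eq_mul (p k), ← intervalIntegral.integral_smul]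
      apply intervalIntegral.integral_congr
      intro θ _
      simp only [smul_eq_mul, sub_zero]
      have : (circleMap (0 : ℂ) 1 θ) ^ ((d k : ℤ) - d m - 1) =
          (circleMap (0 : ℂ) 1 θ) ^ d k * (circleMap 0 1 θ) ^ (-((d m : ℤ) + 1)) := by
        rw [← zpow_natCast, ← zpow_add₀ (hne θ)]
        congr 1; ring
      rw [this]; ring
    rw [h4]
    split_ifs with h
    · subst h
      have : ((d k : ℤ) - d k - 1) = -1 := by ring
      rw [this]
      simp only [zpow_neg_one]
      rw [circleIntegral.integral_sub_center_inv _ one_ne_zero]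
      ring
    · rw [circleIntegral.integral_sub_zpow_of_ne, mul_zero]
      intro h5
      have h6 : (d k : ℤ) = d m := by linarith
      exact h (hd.injective (by exact_mod_cast h6))
  simp only [h3] at h1
  have h5 := h1.unique (hasSum_ite_eq m (2 * Real.pi * Complex.I * p m))
  have h6 : ‖∮ ζ in C(0, 1), φ ζ * ζ ^ (-((d m : ℤ) + 1))‖ ≤ 2 * Real.pi * 1 * M := by
    apply circleIntegral.norm_integral_le_of_norm_le_const zero_le_one
    intro ζ hζ
    rw [mem_sphere_zero_iff_norm] at hζ
    rw [norm_mul, norm_zpow, hζ, one_zpow, mul_one]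
    exact hφ ζ hζ
  rw [circleIntegral, h5, norm_mul, norm_mul, norm_mul, Complex.norm_I] at h6
  simp only [Complex.norm_ofNat, Complex.norm_real, Real.norm_eq_abs, abs_of_pos Real.pi_pos] at h6
  have hpi := Real.pi_pos
  nlinarith

end Pool.Agent.MPca0fc2.VP
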