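import Mathlib
import Pool.Agent.Lib.MP_ca0fc2_an.VP11
import Pool.Agent.Lib.MP_ca0fc2_an.Holo

set_option autoImplicit false

open Metric Set Filter Topology MeasureTheory
open scoped InnerProductSpace

namespace Pool.Agent.MPca0fc2.VP

open Pool.Agent.MPca0fc2.VL
open Pool.Agent.Lib.MP_ca0fc2_an

variable {E : Type*} [NormedAddCommGroup E] [InnerProductSpace ℂ E]

/-- `g` is the sum, on the unit ball, of homogeneous polynomials of the degrees `d m`. -/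
structure Gap (d : ℕ → ℕ) (P : ℕ → E → ℂ) (g : E → ℂ) : Prop where
  diff : ∀ m, Differentiable ℂ (P m)
  hom : ∀ (m : ℕ) (c : ℂ) (z : E), P m (c • z) = c ^ d m * P m z
  sum : ∀ z ∈ ball (0 : E) 1, HasSum (fun m => P m z) (g z)

variable {d : ℕ → ℕ} {P : ℕ → E → ℂ} {g : E → ℂ} {M : ℝ}

theorem Gap.bound (h : Gap d P g) (hd : StrictMono d) (hg : ∀ z ∈ ball (0 : E) 1, ‖g z‖ ≤ M)
    (m : ℕ) {z : E} (hz : ‖z‖ ≤ 1) : ‖P m z‖ ≤ M := by
  have h1 : ball (0 : E) 1 ⊆ {z | ‖P m z‖ ≤ M} := by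
    intro z hz
    have hζ : ∀ ζ : ℂ, ‖ζ‖ = 1 → ζ • z ∈ ball (0 : E) 1 := by
      intro ζ hζ
      rw [mem_ball_zero_iff] at hz ⊢
      rw [norm_smul, hζ, one_mul]; exact hz
    apply coef_le hd (p := fun k => P k z) (φ := fun ζ => g (ζ • z))
    · intro ζ h1
      have h2 := h.sum _ (hζ ζ h1)
      simp only [h.hom] at h2
      simpa [mul_comm] using h2
    · intro ζ h1
      exact hg _ (hζ ζ h1)
  have h2 : IsClosed {z | ‖P m z‖ ≤ M} :=
    isClosed_le (h.diff m).continuous.norm continuous_const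
  have h3 := closure_minimal h1 h2
  rw [closure_ball _ one_ne_zero] at h3
  exact h3 (by rwa [mem_closedBall_zero_iff])

theorem Gap.bound_pow (h : Gap d P g) (hd : StrictMono d) (h0 : ∀ m, 0 < d m)
    (hg : ∀ z ∈ ball (0 : E) 1, ‖g z‖ ≤ M) (m : ℕ) (z : E) : ‖P m z‖ ≤ M * ‖z‖ ^ d m := by
  rcases eq_or_ne z 0 with rfl | hz
  · have h1 := h.hom m 0 0
    rw [smul_zero, zero_pow (h0 m).ne', zero_mul] at h1
    rw [h1, norm_zero, norm_zero, zero_pow (h0 m).ne', mul_zero]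
  · have hz0 : 0 < ‖z‖ := norm_pos_iff.mpr hz
    have h1 : z = ((‖z‖ : ℝ) : ℂ) • ((((‖z‖ : ℝ) : ℂ)⁻¹) • z) := by
      rw [smul_smul, mul_inv_cancel₀ (Complex.ofReal_ne_zero.mpr hz0.ne'), one_smul]
    have h2 : ‖(((‖z‖ : ℝ) : ℂ)⁻¹) • z‖ ≤ 1 := by
      rw [norm_smul, norm_inv, Complex.norm_real, norm_norm, inv_mul_cancel₀ hz0.ne']
    have h3 := h.bound hd hg m h2
    rw [h1, h.hom, norm_mul, norm_pow, Complex.norm_real, norm_norm, ← h1, mul_comm]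
    gcongr

theorem pow_exp {x : ℝ} (hx : 0 ≤ x) {k : ℕ} (hk : 0 < k) :
    (x + 1 / k) ^ k ≤ Real.exp 1 * Real.exp (-(k * (1 - x))) := by
  have hk0 : (0 : ℝ) < k := Nat.cast_pos.mpr hk
  have h1 : x + 1 / k ≤ Real.exp (1 / k - (1 - x)) := by
    have := Real.add_one_le_exp (1 / (k : ℝ) - (1 - x))
    linarith
  calc (x + 1 / k) ^ k ≤ (Real.exp (1 / k - (1 - x))) ^ k :=
        pow_le_pow_left₀ (by positivity) h1 k
    _ = Real.exp 1 * Real.exp (-(k * (1 - x))) := by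
        rw [← Real.exp_nat_mul, ← Real.exp_add]
        congr 1
        field_simp
        ring

theorem Gap.fderiv_le (h : Gap d P g) (hd : StrictMono d) (h0 : ∀ m, 0 < d m) (hM : 0 ≤ M)
    (hg : ∀ z ∈ ball (0 : E) 1, ‖g z‖ ≤ M) (m : ℕ) (z : E) :
    ‖fderiv ℂ (P m) z‖ ≤ 2 * Real.exp 1 * M * (d m * Real.exp (-(d m * (1 - ‖z‖)))) := by
  have hk0 : (0 : ℝ) < d m := Nat.cast_pos.mpr (h0 m)
  apply ContinuousLinearMap.opNorm_le_bound _ (by positivity)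
  intro v
  have h1 := norm_fderiv_apply_le (f := P m) (z₀ := z) (r := 1 / d m)
    (M := M * (‖z‖ + 1 / d m) ^ d m) (by positivity) (h.diff m).differentiableOn ?_ v
  · refine h1.trans ?_
    apply mul_le_mul_of_nonneg_right _ (norm_nonneg _)
    have h2 := pow_exp (norm_nonneg z) (h0 m)
    calc 2 * (M * (‖z‖ + 1 / d m) ^ d m) / (1 / d m) = 2 * M * d m * (‖z‖ + 1 / d m) ^ d m := by
          field_simp
      _ ≤ 2 * M * d m * (Real.exp 1 * Real.exp (-(d m * (1 - ‖z‖)))) := by gcongr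
      _ = _ := by ring
  · intro w hw
    refine (h.bound_pow hd h0 hg m w).trans ?_
    have h2 : ‖w‖ ≤ ‖z‖ + 1 / d m := by
      rw [mem_ball, dist_eq_norm] at hw
      have := norm_sub_norm_le w z
      linarith
    gcongr

theorem exp_summable (h0 : ∀ m, 0 < d m) (h4 : ∀ m, 4 * d m ≤ d (m + 1)) {t : ℝ} (ht : 0 < t) :
    Summable (fun m => (d m : ℝ) * Real.exp (-(d m * t))) ∧
      ∑' m, (d m : ℝ) * Real.exp (-(d m * t)) ≤ 27 * sm d t / t := by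
  have h1 : ∀ n, ∑ m ∈ Finset.range n, (d m : ℝ) * Real.exp (-(d m * t)) ≤ 27 * sm d t / t := by
    intro n
    rw [le_div_iff₀ ht, Finset.sum_mul]
    refine le_trans (le_of_eq ?_) (exp_sum h0 h4 ht n)
    apply Finset.sum_congr rfl
    intro m _
    ring
  have h2 : ∀ m, 0 ≤ (d m : ℝ) * Real.exp (-(d m * t)) := fun m => by positivity
  have h3 := summable_of_sum_range_le h2 h1
  exact ⟨h3, h3.tsum_le_of_sum_range_le h1⟩

theorem Gap.hasFDerivAt (h : Gap d P g) (h0 : ∀ m, 0 < d m) (h4 : ∀ m, 4 * d m ≤ d (m + 1))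
    (hM : 0 ≤ M) (hg : ∀ z ∈ ball (0 : E) 1, ‖g z‖ ≤ M) {z : E} (hz : z ∈ ball (0 : E) 1) :
    HasFDerivAt g (∑' m, fderiv ℂ (P m) z) z := by
  have hd : StrictMono d := strictMono_nat_of_lt_succ fun m => by
    have := h4 m; have := h0 m; omega
  rw [mem_ball_zero_iff] at hz
  obtain ⟨r, hr1, hr2⟩ := exists_between hz
  have h1 : HasFDerivAt (fun y => ∑' m, P m y) (∑' m, fderiv ℂ (P m) z) z := by
    refine hasFDerivAt_tsum_of_isPreconnected (𝕜 := ℂ)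
      (u := fun m => 2 * Real.exp 1 * M * (d m * Real.exp (-(d m * (1 - r)))))
      (s := ball (0 : E) r) ?_ isOpen_ball ((convex_ball (0 : E) r).isPreconnected)
      (fun m x _ => (h.diff m x).hasFDerivAt) ?_ (x₀ := z) ?_ ?_ ?_
    · exact (exp_summable h0 h4 (by linarith)).1.mul_left _
    · intro m x hx
      rw [mem_ball_zero_iff] at hx
      refine (h.fderiv_le hd h0 hM hg m x).trans ?_
      have : (0 : ℝ) ≤ d m := Nat.cast_nonneg _
      gcongr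
    · rwa [mem_ball_zero_iff]
    · exact (h.sum z (by rwa [mem_ball_zero_iff])).summable
    · rwa [mem_ball_zero_iff]
  refine h1.congr_of_eventuallyEq ?_
  filter_upwards [isOpen_ball.mem_nhds (show z ∈ ball (0 : E) 1 by rwa [mem_ball_zero_iff])] with y hy
  exact ((h.sum y hy).tsum_eq).symm

theorem Gap.grad (h : Gap d P g) (h0 : ∀ m, 0 < d m) (h4 : ∀ m, 4 * d m ≤ d (m + 1))
    (hM : 0 ≤ M) (hg : ∀ z ∈ ball (0 : E) 1, ‖g z‖ ≤ M) {z : E} (hz : z ∈ ball (0 : E) 1) :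
    (1 - ‖z‖) * ‖fderiv ℂ g z‖ ≤ 54 * Real.exp 1 * M * sm d (1 - ‖z‖) := by
  have hd : StrictMono d := strictMono_nat_of_lt_succ fun m => by
    have := h4 m; have := h0 m; omega
  have h1 := (h.hasFDerivAt h0 h4 hM hg hz).fderiv
  rw [mem_ball_zero_iff] at hz
  have ht : 0 < 1 - ‖z‖ := by linarith
  obtain ⟨s1, s2⟩ := exp_summable h0 h4 ht
  have h2 : ‖∑' m, fderiv ℂ (P m) z‖ ≤
      2 * Real.exp 1 * M * ∑' m, (d m : ℝ) * Real.exp (-(d m * (1 - ‖z‖))) :=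
    tsum_of_norm_bounded (s1.hasSum.mul_left _) (fun m => h.fderiv_le hd h0 hM hg m z)
  rw [h1]
  calc (1 - ‖z‖) * ‖∑' m, fderiv ℂ (P m) z‖ ≤
      (1 - ‖z‖) * (2 * Real.exp 1 * M * (27 * sm d (1 - ‖z‖) / (1 - ‖z‖))) := by
        gcongr
        exact h2.trans (by gcongr)
    _ = _ := by field_simp; ring

/-- The corona theorem for pairs `f`, `g` on the ball, with `f` arbitrary and `g` a gap series. -/
theorem gap_main [FiniteDimensional ℂ E] (hn : 2 ≤ Module.finrank ℂ E) (M δ : ℝ) (hδ : 0 < δ)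
    (d : ℕ → ℕ) (h0 : ∀ m, 0 < d m) (h4 : ∀ m, 4 * d m ≤ d (m + 1))
    (hs : Summable fun m => ((d m : ℝ) / d (m + 1)) ^ (1 / 16 : ℝ)) :
    ∃ C : ℝ, ∀ (f g : E → ℂ) (P : ℕ → E → ℂ), Gap d P g →
      DifferentiableOn ℂ f (ball 0 1) →
      (∀ z ∈ ball (0 : E) 1, ‖f z‖ ≤ M) → (∀ z ∈ ball (0 : E) 1, ‖g z‖ ≤ M) →
      (∀ z ∈ ball (0 : E) 1, δ ≤ ‖f z‖ ^ 2 + ‖g z‖ ^ 2) →
      ∃ h k : E → ℂ, DifferentiableOn ℂ h (ball 0 1) ∧ DifferentiableOn ℂ k (ball 0 1) ∧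
        ∀ z ∈ ball (0 : E) 1, ‖h z‖ ≤ C ∧ ‖k z‖ ≤ C ∧ f z * h z + g z * k z = 1 := by
  obtain ⟨A, hA⟩ : ∃ A : ℝ, A = 54 * Real.exp 1 * |M| + 1 := ⟨_, rfl⟩
  have hA0 : 0 < A := by rw [hA]; positivity
  have hsum : Summable fun b => A * sm d ((1 / 2) ^ kp d b) := by
    apply Summable.mul_left
    apply Summable.of_nonneg_of_le (fun b => (sm_pos h0 (by positivity)).le) (sm_sep h0 h4)
    exact hs.mul_left _
  have hK : ∀ b, ∑ k ∈ Finset.Ico (kp d b) (kp d (b + 1)), A * sm d ((1 / 2) ^ k) ≤ A * 54 := by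
    intro b
    rw [← Finset.mul_sum]
    exact mul_le_mul_of_nonneg_left (sm_block_sum h0 h4 b) hA0.le
  obtain ⟨C, hC⟩ := pair_main hn M δ (A * 54) hδ (sm_mod h0 hA0) (kp_mono h0 h4) hsum hK
  refine ⟨C, fun f g P hP hf hfM hgM hfg => ?_⟩
  have hM : 0 ≤ M := (norm_nonneg _).trans (hfM 0 (by simp))
  have hgd : DifferentiableOn ℂ g (ball 0 1) := fun z hz =>
    (hP.hasFDerivAt h0 h4 hM hgM hz).differentiableAt.differentiableWithinAt
  obtain ⟨h, k1, k2, k3⟩ := hC ![f, g]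
    (Fin.forall_fin_two.mpr ⟨hf, hgd⟩)
    (Fin.forall_fin_two.mpr ⟨hfM, hgM⟩)
    (fun z hz => by simpa [Fin.sum_univ_two] using hfg z hz)
    (fun z hz => by
      have h1 := hP.grad h0 h4 hM hgM hz
      have hz1 : ‖z‖ < 1 := mem_ball_zero_iff.mp hz
      have h2 : 54 * Real.exp 1 * M * sm d (1 - ‖z‖) ≤ A * sm d (1 - ‖z‖) := by
        have := (sm_pos h0 (show 0 < 1 - ‖z‖ by linarith)).le
        apply mul_le_mul_of_nonneg_right _ this
        rw [hA, abs_of_nonneg hM]; linarith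
      simpa using h1.trans h2)
  refine ⟨h 0, h 1, k1 0, k1 1, fun z hz => ⟨k2 0 z hz, k2 1 z hz, ?_⟩⟩
  have := k3 z hz
  simpa [Fin.sum_univ_two] using this

end Pool.Agent.MPca0fc2.VP
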