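import Mathlib
import Pool.Agent.Lib.MP_ca0fc2_an.QSk
import Pool.Agent.Lib.MP_ca0fc2_an.VP12

set_option autoImplicit false

open Metric Set Filter Topology MeasureTheory
open scoped InnerProductSpace

namespace Pool.Agent.MPca0fc2.QS

open Pool.Agent.MPca0fc2.VL
open Pool.Agent.MPca0fc2.VP
open Pool.Agent.Lib.MP_ca0fc2_an

/-- The corona theorem on the ball for `N + 1` functions, one of them arbitrary and the others
gap series. -/
theorem gaps_main {E : Type*} [NormedAddCommGroup E] [InnerProductSpace ℂ E]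
    [FiniteDimensional ℂ E] (hn : 2 ≤ Module.finrank ℂ E) (N : ℕ) (M δ : ℝ) (hδ : 0 < δ)
    (d : ℕ → ℕ) (h0 : ∀ m, 0 < d m) (h4 : ∀ m, 4 * d m ≤ d (m + 1))
    (hs : Summable fun m => ((d m : ℝ) / d (m + 1)) ^ (1 / 16 : ℝ)) :
    ∃ C : ℝ, ∀ (f : Fin (N + 1) → E → ℂ) (P : Fin N → ℕ → E → ℂ),
      DifferentiableOn ℂ (f 0) (ball 0 1) → (∀ j : Fin N, Gap d (P j) (f j.succ)) →
      (∀ j, ∀ z ∈ ball (0 : E) 1, ‖f j z‖ ≤ M) →
      (∀ z ∈ ball (0 : E) 1, δ ≤ ∑ j, ‖f j z‖ ^ 2) →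
      SolvableOn f (ball 0 1) C := by
  obtain ⟨A, hA⟩ : ∃ A : ℝ, A = 54 * Real.exp 1 * |M| + 1 := ⟨_, rfl⟩
  have hA0 : 0 < A := by rw [hA]; positivity
  have hsum : Summable fun b => A * sm d ((1 / 2) ^ kp d b) := by
    apply Summable.mul_left
    apply Summable.of_nonneg_of_le (fun b => (sm_pos h0 (by positivity)).le) (sm_sep h0 h4)
    exact hs.mul_left _
  have hK : ∀ b, ∑ k ∈ Finset.Ico (kp d b) (kp d (b + 1)), A * sm d ((1 / 2) ^ k) ≤ A * 54 := by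
    intro b
    rw [← Finset.mul_sum]
    exact mul_le_mul_of_nonneg_left (sm_block_sum h0 h4 b) hA0.le
  obtain ⟨C, hC⟩ := sparse_main hn N M δ (A * 54) hδ (sm_mod h0 hA0) (kp_mono h0 h4) hsum hK
  refine ⟨C, fun f P hf hP hfM hfδ => ?_⟩
  have hM : 0 ≤ M := (norm_nonneg _).trans (hfM 0 0 (by simp))
  refine hC f ?_ hfM hfδ ?_
  · refine Fin.cases hf fun j => ?_
    exact fun z hz =>
      ((hP j).hasFDerivAt h0 h4 hM (hfM j.succ) hz).differentiableAt.differentiableWithinAt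
  · intro j z hz
    have h1 := (hP j).grad h0 h4 hM (hfM j.succ) hz
    have hz1 : ‖z‖ < 1 := mem_ball_zero_iff.mp hz
    have h2 : 54 * Real.exp 1 * M * sm d (1 - ‖z‖) ≤ A * sm d (1 - ‖z‖) := by
      have := (sm_pos h0 (show 0 < 1 - ‖z‖ by linarith)).le
      apply mul_le_mul_of_nonneg_right _ this
      rw [hA, abs_of_nonneg hM]; linarith
    exact h1.trans h2

end Pool.Agent.MPca0fc2.QS
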