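import Mathlib
import Pool.Agent.Lib.MP_ca0fc2_an.Mg.G082

/-!
# Strongly convex functions: from a neighbourhood of a point to the whole space
-/

set_option autoImplicit false

open Metric Set MeasureTheory Filter Topology

namespace Pool.Agent.MPca0fc2.SPX

open Pool.Agent.MPca0fc2.CX

/-! ### Powers of the positive part -/

theorem b_hasDerivAt_max (k : ℕ) (s : ℝ) :
    HasDerivAt (fun s : ℝ => (max 0 s) ^ (k + 2)) ((k + 2 : ℝ) * (max 0 s) ^ (k + 1)) s := by
  rcases lt_trichotomy s 0 with h | h | h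
  · have h1 : (fun s : ℝ => (max 0 s) ^ (k + 2)) =ᶠ[𝓝 s] fun _ => 0 := by
      filter_upwards [gt_mem_nhds h] with t ht
      rw [max_eq_left ht.le]
      simp
    rw [max_eq_left h.le]
    have h2 : ((k + 2 : ℝ) * (0 : ℝ) ^ (k + 1)) = 0 := by simp
    rw [h2]
    exact (hasDerivAt_const s (0 : ℝ)).congr_of_eventuallyEq h1
  · subst h
    have h2 : ((k + 2 : ℝ) * (max 0 (0 : ℝ)) ^ (k + 1)) = 0 := by simp
    rw [h2, hasDerivAt_iff_isLittleO_nhds_zero]
    simp only [zero_add, max_self, ne_eq, Nat.add_eq_zero_iff, OfNat.ofNat_ne_zero, and_false,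
      not_false_eq_true, zero_pow, sub_zero, smul_zero]
    have h3 : (fun h : ℝ => (max 0 h) ^ (k + 2)) =O[𝓝 0] fun h : ℝ => h ^ 2 := by
      refine Asymptotics.IsBigO.of_bound 1 ?_
      filter_upwards [Metric.ball_mem_nhds (0 : ℝ) one_pos] with t ht
      rw [mem_ball, dist_zero_right] at ht
      rw [one_mul, norm_pow, norm_pow]
      have h4 : ‖max 0 t‖ ≤ ‖t‖ := by
        rw [Real.norm_eq_abs, Real.norm_eq_abs, abs_of_nonneg (le_max_left 0 t)]
        exact max_le (abs_nonneg t) (le_abs_self t)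
      calc ‖max 0 t‖ ^ (k + 2) ≤ ‖t‖ ^ (k + 2) := pow_le_pow_left₀ (norm_nonneg _) h4 _
        _ ≤ ‖t‖ ^ 2 := pow_le_pow_of_le_one (norm_nonneg _) ht.le (by omega)
    exact h3.trans_isLittleO (Asymptotics.isLittleO_pow_id one_lt_two)
  · have h1 : (fun s : ℝ => (max 0 s) ^ (k + 2)) =ᶠ[𝓝 s] fun s => s ^ (k + 2) := by
      filter_upwards [lt_mem_nhds h] with t ht
      rw [max_eq_right ht.le]
    rw [max_eq_right h.le]
    have h2 := (hasDerivAt_pow (k + 2) s).congr_of_eventuallyEq h1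
    simpa using h2

theorem b_contDiff_max (k : ℕ) : ContDiff ℝ k (fun s : ℝ => (max 0 s) ^ (k + 1)) := by
  induction k with
  | zero =>
    rw [Nat.cast_zero, contDiff_zero]
    fun_prop
  | succ k ih =>
    rw [Nat.cast_succ, contDiff_succ_iff_deriv]
    refine ⟨fun s => (b_hasDerivAt_max k s).differentiableAt, ?_, ?_⟩
    · intro h
      exact absurd h (by exact_mod_cast WithTop.coe_ne_top)
    · have h1 : deriv (fun s : ℝ => (max 0 s) ^ (k + 1 + 1)) =
          fun s => (k + 2 : ℝ) * (max 0 s) ^ (k + 1) := funext fun s => (b_hasDerivAt_max k s).deriv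
      rw [h1]
      exact contDiff_const.mul ih

/-! ### Convexity from the second derivative along segments -/

/-- One variable. -/
theorem b_taylor {φ φ' φ'' : ℝ → ℝ} {m : ℝ} (h1 : ∀ t, HasDerivAt φ (φ' t) t)
    (h2 : ∀ t, HasDerivAt φ' (φ'' t) t) (h3 : ∀ t ∈ Icc (0 : ℝ) 1, m ≤ φ'' t) :
    φ 0 + φ' 0 + m / 2 ≤ φ 1 := by
  have hmono1 : MonotoneOn (fun t => φ' t - m * t) (Icc 0 1) := by
    refine monotoneOn_of_deriv_nonneg (convex_Icc 0 1) ?_ ?_ ?_
    · intro t _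
      exact ((h2 t).sub ((hasDerivAt_id t).const_mul m)).continuousAt.continuousWithinAt
    · intro t _
      exact ((h2 t).sub ((hasDerivAt_id t).const_mul m)).differentiableAt.differentiableWithinAt
    · intro t ht
      rw [interior_Icc] at ht
      have h4 := ((h2 t).sub ((hasDerivAt_id t).const_mul m)).deriv
      have h5 : deriv (fun t => φ' t - m * t) t = φ'' t - m * 1 := h4
      rw [h5]
      have := h3 t ⟨ht.1.le, ht.2.le⟩
      linarith
  have hd : ∀ t, HasDerivAt (fun t => φ t - φ' 0 * t - m / 2 * t ^ 2)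
      (φ' t - φ' 0 * 1 - m / 2 * (2 * t)) t := by
    intro t
    have h6 := (hasDerivAt_pow 2 t).const_mul (m / 2)
    have h7 : HasDerivAt (fun t => φ t - φ' 0 * t - m / 2 * t ^ 2) _ t :=
      ((h1 t).fun_sub ((hasDerivAt_id' t).const_mul (φ' 0))).fun_sub h6
    exact h7.congr_deriv (by simp)
  have hmono2 : MonotoneOn (fun t => φ t - φ' 0 * t - m / 2 * t ^ 2) (Icc 0 1) := by
    refine monotoneOn_of_deriv_nonneg (convex_Icc 0 1) ?_ ?_ ?_
    · intro t _
      exact (hd t).continuousAt.continuousWithinAt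
    · intro t _
      exact (hd t).differentiableAt.differentiableWithinAt
    · intro t ht
      rw [interior_Icc] at ht
      rw [(hd t).deriv]
      have h8 := hmono1 ⟨le_rfl, zero_le_one⟩ ⟨ht.1.le, ht.2.le⟩ ht.1.le
      simp only [mul_zero, sub_zero] at h8
      linarith
  have h9 := hmono2 ⟨le_rfl, zero_le_one⟩ ⟨zero_le_one, le_rfl⟩ zero_le_one
  simp only [mul_zero, sub_zero, mul_one, one_pow, ne_eq, OfNat.ofNat_ne_zero, not_false_eq_true,
    zero_pow] at h9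
  linarith

variable {E : Type*} [NormedAddCommGroup E] [NormedSpace ℝ E]

/-- The derivatives of a `C²` function along a line. -/
theorem b_line {F : E → ℝ} (hF : ContDiff ℝ 2 F) (x v : E) (t : ℝ) :
    HasDerivAt (fun t : ℝ => F (x + t • v)) (fderiv ℝ F (x + t • v) v) t ∧
    HasDerivAt (fun t : ℝ => fderiv ℝ F (x + t • v) v)
      (fderiv ℝ (fderiv ℝ F) (x + t • v) v v) t := by
  have hl : HasDerivAt (fun t : ℝ => x + t • v) v t := by
    simpa using ((hasDerivAt_id t).smul_const v).const_add x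
  have hF1 : Differentiable ℝ F := hF.differentiable (by norm_num)
  have hF2 : Differentiable ℝ (fderiv ℝ F) :=
    (hF.fderiv_right (m := 1) (by norm_num)).differentiable (by norm_num)
  refine ⟨(hF1 _).hasFDerivAt.comp_hasDerivAt t hl, ?_⟩
  have h1 := (hF2 (x + t • v)).hasFDerivAt.comp_hasDerivAt t hl
  exact h1.clm_apply (hasDerivAt_const t v) |>.congr_deriv (by simp)

/-- A `C²` function with second derivative at least `2 c` is strongly convex. -/
theorem b_conv_of_hess {F : E → ℝ} (hF : ContDiff ℝ 2 F) {c : ℝ}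
    (h : ∀ x v, 2 * c * ‖v‖ ^ 2 ≤ fderiv ℝ (fderiv ℝ F) x v v) (x y : E) :
    F x + fderiv ℝ F x (y - x) + c * ‖y - x‖ ^ 2 ≤ F y := by
  have h1 := b_taylor (φ := fun t => F (x + t • (y - x)))
    (φ' := fun t => fderiv ℝ F (x + t • (y - x)) (y - x))
    (φ'' := fun t => fderiv ℝ (fderiv ℝ F) (x + t • (y - x)) (y - x) (y - x))
    (m := 2 * c * ‖y - x‖ ^ 2) (fun t => (b_line hF x (y - x) t).1)
    (fun t => (b_line hF x (y - x) t).2) (fun t _ => h _ _)
  simp only [zero_smul, add_zero, one_smul, add_sub_cancel] at h1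
  linarith

/-- The first order inequality of strong convexity gives a lower bound of the second derivative. -/
theorem b_hess_of_conv {F r : E → ℝ} {U : Set E} (hU : IsOpen U) {c : ℝ}
    (hF : ContDiff ℝ 2 F) (hFr : ∀ x ∈ U, F x = r x)
    (h : ∀ x ∈ U, ∀ y ∈ U, r x + fderiv ℝ r x (y - x) + c * ‖y - x‖ ^ 2 ≤ r y)
    {z : E} (hz : z ∈ U) (v : E) : 2 * c * ‖v‖ ^ 2 ≤ fderiv ℝ (fderiv ℝ F) z v v := by
  have hfd : ∀ x ∈ U, fderiv ℝ F x = fderiv ℝ r x := by
    intro x hx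
    refine Filter.EventuallyEq.fderiv_eq ?_
    filter_upwards [hU.mem_nhds hx] with y hy
    exact hFr y hy
  have hd := (b_line hF z v 0).2
  simp only [zero_smul, add_zero] at hd
  have hslope : Tendsto (fun τ : ℝ => τ⁻¹ • (fderiv ℝ F (z + (0 + τ) • v) v -
      fderiv ℝ F (z + (0 : ℝ) • v) v)) (𝓝[>] 0) (𝓝 (fderiv ℝ (fderiv ℝ F) z v v)) :=
    hd.tendsto_slope_zero_right
  have hev : ∀ᶠ τ : ℝ in 𝓝[>] (0 : ℝ), z + τ • v ∈ U := by
    have h1 : Tendsto (fun τ : ℝ => z + τ • v) (𝓝 0) (𝓝 (z + (0 : ℝ) • v)) := by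
      apply Continuous.tendsto
      fun_prop
    rw [zero_smul, add_zero] at h1
    exact nhdsWithin_le_nhds (h1 (hU.mem_nhds hz))
  refine ge_of_tendsto hslope ?_
  filter_upwards [hev, self_mem_nhdsWithin] with τ hτ hτ0
  have hτp : (0 : ℝ) < τ := hτ0
  simp only [zero_add, zero_smul, add_zero, smul_eq_mul]
  rw [hfd _ hτ, hfd _ hz]
  have e1 := h z hz (z + τ • v) hτ
  have e2 := h (z + τ • v) hτ z hz
  have e3 : z + τ • v - z = τ • v := by abel
  have e4 : z - (z + τ • v) = -(τ • v) := by abel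
  rw [e3, map_smul, smul_eq_mul, norm_smul, Real.norm_eq_abs, mul_pow, sq_abs] at e1
  rw [e4, map_neg, map_smul, smul_eq_mul, norm_neg, norm_smul, Real.norm_eq_abs, mul_pow,
    sq_abs] at e2
  rw [inv_mul_eq_div, le_div_iff₀ hτp]
  have e5 : τ * (2 * c * ‖v‖ ^ 2 * τ) ≤
      τ * (fderiv ℝ r (z + τ • v) v - fderiv ℝ r z v) := by nlinarith
  exact le_of_mul_le_mul_left e5 hτp

/-! ### The penalty -/

variable {n : ℕ}

/-- `max (0, |x|² - e²) ^ 4` -/
noncomputable def pen (e : ℝ) (x : En n) : ℝ := (max 0 (‖x‖ ^ 2 - e ^ 2)) ^ 4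

theorem pen_contDiff (e : ℝ) : ContDiff ℝ 3 (pen (n := n) e) := by
  have h1 : ContDiff ℝ (3 : ℕ) (fun s : ℝ => (max 0 s) ^ (3 + 1)) := b_contDiff_max 3
  have h2 : ContDiff ℝ (3 : ℕ) (fun x : En n => ‖x‖ ^ 2 - e ^ 2) :=
    (contDiff_norm_sq ℂ).sub contDiff_const
  exact h1.comp h2

theorem pen_nonneg (e : ℝ) (x : En n) : 0 ≤ pen e x := by
  unfold pen
  positivity

theorem pen_eq_zero {e : ℝ} {x : En n} (hx : ‖x‖ ≤ e) : pen e x = 0 := by
  unfold pen
  have h1 : ‖x‖ ^ 2 ≤ e ^ 2 := pow_le_pow_left₀ (norm_nonneg _) hx 2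
  rw [max_eq_left (by linarith)]
  norm_num

theorem pen_ge {e s : ℝ} (he : 0 ≤ e) (hs : e ≤ s) {x : En n} (hx : s ≤ ‖x‖) :
    (s ^ 2 - e ^ 2) ^ 4 ≤ pen e x := by
  unfold pen
  have h1 : s ^ 2 ≤ ‖x‖ ^ 2 := pow_le_pow_left₀ (by linarith) hx 2
  have h2 : e ^ 2 ≤ s ^ 2 := pow_le_pow_left₀ he hs 2
  refine pow_le_pow_left₀ (by linarith) ?_ 4
  exact le_trans (by linarith) (le_max_right _ _)

/-- The second derivative of the penalty. -/
theorem pen_hess (e : ℝ) (x v : En n) :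
    8 * (max 0 (‖x‖ ^ 2 - e ^ 2)) ^ 3 * ‖v‖ ^ 2 ≤ fderiv ℝ (fderiv ℝ (pen e)) x v v := by
  -- the quadratic polynomial along the line
  set b : ℝ := 2 * (inner ℂ x v).re with hb
  have hq : ∀ t : ℝ, ‖x + t • v‖ ^ 2 - e ^ 2 = ‖x‖ ^ 2 - e ^ 2 + b * t + ‖v‖ ^ 2 * t ^ 2 := by
    intro t
    have h1 : x + t • v = x + (t : ℂ) • v := by rw [Complex.coe_smul]
    rw [h1, @norm_add_sq ℂ, inner_smul_right, norm_smul, mul_pow, Complex.norm_real,
      Real.norm_eq_abs, sq_abs, hb]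
    have h2 : RCLike.re ((t : ℂ) * inner ℂ x v) = t * (inner ℂ x v).re := by
      simp
    rw [h2]
    ring
  have hqd : ∀ t : ℝ, HasDerivAt (fun t : ℝ => ‖x + t • v‖ ^ 2 - e ^ 2) (b + 2 * ‖v‖ ^ 2 * t) t := by
    intro t
    have h1 : (fun t : ℝ => ‖x + t • v‖ ^ 2 - e ^ 2) =
        fun t => ‖x‖ ^ 2 - e ^ 2 + b * t + ‖v‖ ^ 2 * t ^ 2 := funext hq
    rw [h1]
    have h2 := (((hasDerivAt_id' t).const_mul b).const_add (‖x‖ ^ 2 - e ^ 2)).fun_add
      ((hasDerivAt_pow 2 t).const_mul (‖v‖ ^ 2))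
    exact h2.congr_deriv (by norm_num; ring)
  have hp1 : ∀ t : ℝ, HasDerivAt (fun t : ℝ => pen e (x + t • v))
      ((4 : ℝ) * (max 0 (‖x + t • v‖ ^ 2 - e ^ 2)) ^ 3 * (b + 2 * ‖v‖ ^ 2 * t)) t := by
    intro t
    have h1 := (b_hasDerivAt_max 2 (‖x + t • v‖ ^ 2 - e ^ 2)).comp t (hqd t)
    exact h1.congr_deriv (by norm_num)
  have hline : ∀ t : ℝ, fderiv ℝ (pen e) (x + t • v) v =
      (4 : ℝ) * (max 0 (‖x + t • v‖ ^ 2 - e ^ 2)) ^ 3 * (b + 2 * ‖v‖ ^ 2 * t) := fun t =>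
    ((b_line ((pen_contDiff e).of_le (by norm_num)) x v t).1).unique (hp1 t)
  have hp2 : HasDerivAt (fun t : ℝ => fderiv ℝ (pen e) (x + t • v) v)
      ((4 : ℝ) * (3 * (max 0 (‖x‖ ^ 2 - e ^ 2)) ^ 2 * b) * b +
        (4 : ℝ) * (max 0 (‖x‖ ^ 2 - e ^ 2)) ^ 3 * (2 * ‖v‖ ^ 2)) 0 := by
    have h0 : (fun t : ℝ => fderiv ℝ (pen e) (x + t • v) v) = fun t =>
      (4 : ℝ) * (max 0 (‖x + t • v‖ ^ 2 - e ^ 2)) ^ 3 * (b + 2 * ‖v‖ ^ 2 * t) := funext hline
    rw [h0]
    have h1 := ((b_hasDerivAt_max 1 (‖x + (0 : ℝ) • v‖ ^ 2 - e ^ 2)).comp (0 : ℝ) (hqd 0)).const_mul 4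
    have h2 := ((hasDerivAt_id' (0 : ℝ)).const_mul (2 * ‖v‖ ^ 2)).const_add b
    have h3 := h1.fun_mul h2
    refine (h3.congr_deriv ?_)
    simp only [Function.comp_apply, zero_smul, add_zero, mul_zero]
    norm_num
  have hval := (b_line ((pen_contDiff e).of_le (by norm_num)) x v 0).2.unique hp2
  simp only [zero_smul, add_zero] at hval
  rw [hval]
  have h5 : 0 ≤ (4 : ℝ) * (3 * (max 0 (‖x‖ ^ 2 - e ^ 2)) ^ 2 * b) * b := by
    have : (4 : ℝ) * (3 * (max 0 (‖x‖ ^ 2 - e ^ 2)) ^ 2 * b) * b =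
        12 * (max 0 (‖x‖ ^ 2 - e ^ 2)) ^ 2 * b ^ 2 := by ring
    rw [this]
    positivity
  linarith

theorem b_line_unique {F P G : En n → ℝ} {A : ℝ} (hF : ContDiff ℝ 2 F) (hP : ContDiff ℝ 2 P)
    (hG : G = fun x => F x + A * P x) (x v : En n) :
    fderiv ℝ (fderiv ℝ G) x v v =
      fderiv ℝ (fderiv ℝ F) x v v + A * fderiv ℝ (fderiv ℝ P) x v v := by
  have hG2 : ContDiff ℝ 2 G := by
    rw [hG]
    exact hF.add (contDiff_const.mul hP)
  have h1 : ∀ y, fderiv ℝ G y v = fderiv ℝ F y v + A * fderiv ℝ P y v := by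
    intro y
    have hF1 : DifferentiableAt ℝ F y := (hF.differentiable (by norm_num)) y
    have hP1 : DifferentiableAt ℝ P y := (hP.differentiable (by norm_num)) y
    have h2 : HasFDerivAt G (fderiv ℝ F y + A • fderiv ℝ P y) y := by
      rw [hG]
      exact hF1.hasFDerivAt.fun_add (hP1.hasFDerivAt.const_mul A)
    rw [h2.fderiv]
    simp
  have h2 := (b_line hG2 x v 0).2
  have h3 := (b_line hF x v 0).2.fun_add ((b_line hP x v 0).2.const_mul A)
  simp only [h1] at h2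
  have h4 := h2.unique h3
  simpa using h4

/-- A function which is strongly convex on a ball can be replaced by a strongly convex function
on the whole space, which is equal to it near the centre and whose sublevel set is small. -/
theorem b_exists_global {r : En n → ℝ} {s0 c : ℝ} (hr : ContDiffOn ℝ 3 r (ball 0 s0))
    (hconv : ∀ x ∈ ball (0 : En n) s0, ∀ y ∈ ball (0 : En n) s0,
      r x + fderiv ℝ r x (y - x) + c * ‖y - x‖ ^ 2 ≤ r y)
    {e e' : ℝ} (he : 0 < e) (hee : e < e') (hes : e' < s0) :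
    ∃ G : En n → ℝ, ContDiff ℝ 3 G ∧
      (∀ x y, G x + fderiv ℝ G x (y - x) + c * ‖y - x‖ ^ 2 ≤ G y) ∧
      (∀ x, ‖x‖ ≤ e → G x = r x) ∧ (∀ x, G x ≤ 0 → ‖x‖ < e') ∧
      (∀ x, ‖x‖ ≤ e' → r x ≤ G x) := by
  set s1 : ℝ := (e' + s0) / 2 with hs1
  set s2 : ℝ := (s1 + s0) / 2 with hs2
  have h01 : e' < s1 := by rw [hs1]; linarith
  have h12 : s1 < s2 := by rw [hs2, hs1]; linarith
  have h23 : s2 < s0 := by rw [hs2, hs1]; linarith
  let χ : ContDiffBump (0 : En n) := ⟨s1, s2, by linarith, h12⟩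
  have hχ1 : ∀ x : En n, ‖x‖ ≤ s1 → χ x = 1 := fun x hx =>
    χ.one_of_mem_closedBall (by rw [mem_closedBall, dist_zero_right]; exact hx)
  have hχ0 : ∀ x : En n, s2 ≤ ‖x‖ → χ x = 0 := fun x hx =>
    χ.zero_of_le_dist (by rw [dist_zero_right]; exact hx)
  set F : En n → ℝ := fun x => χ x * r x with hFdef
  have hF1 : ∀ x : En n, ‖x‖ ≤ s1 → F x = r x := fun x hx => by
    rw [hFdef]; simp only; rw [hχ1 x hx, one_mul]
  have hF3 : ContDiff ℝ 3 F := by
    rw [contDiff_iff_contDiffAt]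
    intro x
    by_cases hx : ‖x‖ < s0
    · refine (χ.contDiff.contDiffAt).mul (hr.contDiffAt (isOpen_ball.mem_nhds ?_))
      rw [mem_ball, dist_zero_right]; exact hx
    · push Not at hx
      have h1 : F =ᶠ[𝓝 x] fun _ => 0 := by
        have h2 : {y : En n | s2 < ‖y‖} ∈ 𝓝 x :=
          (isOpen_lt continuous_const continuous_norm).mem_nhds (by
            show s2 < ‖x‖
            linarith)
        filter_upwards [h2] with y hy
        have hy' : s2 < ‖y‖ := hy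
        rw [hFdef]; simp only; rw [hχ0 y hy'.le, zero_mul]
      exact contDiffAt_const.congr_of_eventuallyEq h1
  have hFc : HasCompactSupport F := χ.hasCompactSupport.mul_right
  have hF2 : ContDiff ℝ 2 F := hF3.of_le (by norm_num)
  obtain ⟨B, hB⟩ := hF3.continuous.bounded_above_of_compact_support hFc
  have hFd : ContDiff ℝ 1 (fderiv ℝ F) := hF2.fderiv_right (by norm_num)
  obtain ⟨K, hK⟩ := (hFd.continuous_fderiv (by norm_num)).bounded_above_of_compact_support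
    ((hFc.fderiv ℝ).fderiv ℝ)
  have hB0 : 0 ≤ B := (norm_nonneg _).trans (hB 0)
  have hK0 : 0 ≤ K := (norm_nonneg _).trans (hK 0)
  set d1 : ℝ := s1 ^ 2 - e ^ 2 with hd1
  set d2 : ℝ := e' ^ 2 - e ^ 2 with hd2
  have hd1p : 0 < d1 := by rw [hd1]; nlinarith
  have hd2p : 0 < d2 := by rw [hd2]; nlinarith
  set A : ℝ := (K + 2 * |c|) / (8 * d1 ^ 3) + (B + 1) / d2 ^ 4 with hA
  have hA0 : 0 ≤ A := by positivity
  have hA1 : K + 2 * |c| ≤ A * (8 * d1 ^ 3) := by
    have h1 : (K + 2 * |c|) / (8 * d1 ^ 3) ≤ A := by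
      rw [hA]
      have : 0 ≤ (B + 1) / d2 ^ 4 := by positivity
      linarith
    rwa [div_le_iff₀ (by positivity)] at h1
  have hA2 : B + 1 ≤ A * d2 ^ 4 := by
    have h1 : (B + 1) / d2 ^ 4 ≤ A := by
      rw [hA]
      have : 0 ≤ (K + 2 * |c|) / (8 * d1 ^ 3) := by positivity
      linarith
    rwa [div_le_iff₀ (by positivity)] at h1
  refine ⟨fun x => F x + A * pen e x, hF3.add (contDiff_const.mul (pen_contDiff e)), ?_, ?_, ?_, ?_⟩
  · have hG2 : ContDiff ℝ 2 fun x => F x + A * pen e x :=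
      (hF3.add (contDiff_const.mul (pen_contDiff e))).of_le (by norm_num)
    refine fun x y => b_conv_of_hess hG2 (c := c) (fun x v => ?_) x y
    rw [b_line_unique hF2 ((pen_contDiff e).of_le (by norm_num)) rfl x v]
    have hp := pen_hess e x v
    rcases lt_or_ge ‖x‖ s1 with hx | hx
    · have h1 := b_hess_of_conv (U := ball (0 : En n) s1) isOpen_ball (c := c) hF2
        (fun y hy => hF1 y (by rw [mem_ball, dist_zero_right] at hy; exact hy.le))
        (fun y hy w hw => hconv y (ball_subset_ball (by linarith) hy) w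
          (ball_subset_ball (by linarith) hw)) (z := x)
        (by rw [mem_ball, dist_zero_right]; exact hx) v
      have h2 : 0 ≤ fderiv ℝ (fderiv ℝ (pen e)) x v v := le_trans (by positivity) hp
      have := mul_nonneg hA0 h2
      linarith
    · have h1 : |fderiv ℝ (fderiv ℝ F) x v v| ≤ K * ‖v‖ * ‖v‖ := by
        have h2 := (fderiv ℝ (fderiv ℝ F) x).le_opNorm v
        have h3 := (fderiv ℝ (fderiv ℝ F) x v).le_opNorm v
        have h4 := mul_le_mul_of_nonneg_right (hK x) (norm_nonneg v)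
        have h5 := mul_le_mul_of_nonneg_right (h2.trans h4) (norm_nonneg v)
        rw [← Real.norm_eq_abs]
        exact h3.trans h5
      have h2 : d1 ^ 3 ≤ (max 0 (‖x‖ ^ 2 - e ^ 2)) ^ 3 := by
        refine pow_le_pow_left₀ hd1p.le ?_ 3
        have : s1 ^ 2 ≤ ‖x‖ ^ 2 := pow_le_pow_left₀ (by linarith) hx 2
        exact le_trans (by rw [hd1]; linarith) (le_max_right _ _)
      have h3 : 8 * d1 ^ 3 * ‖v‖ ^ 2 ≤ fderiv ℝ (fderiv ℝ (pen e)) x v v := by
        refine le_trans ?_ hp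
        exact mul_le_mul_of_nonneg_right (by linarith) (by positivity)
      have h4 := mul_le_mul_of_nonneg_left h3 hA0
      have h5 := mul_le_mul_of_nonneg_right hA1 (sq_nonneg ‖v‖)
      have h6 := (abs_le.mp h1).1
      have h7 : 2 * c * ‖v‖ ^ 2 ≤ 2 * |c| * ‖v‖ ^ 2 := by
        refine mul_le_mul_of_nonneg_right ?_ (sq_nonneg _)
        have := le_abs_self c
        linarith
      nlinarith
  · intro x hx
    simp only
    rw [hF1 x (by linarith), pen_eq_zero hx, mul_zero, add_zero]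
  · intro x hx
    by_contra h
    push Not at h
    have h1 := pen_ge he.le hee.le h
    have h2 := mul_le_mul_of_nonneg_left h1 hA0
    have h3 := (abs_le.mp (by simpa [Real.norm_eq_abs] using hB x : |F x| ≤ B)).1
    have h4 : F x + A * pen e x ≤ 0 := hx
    rw [← hd2] at h2
    linarith
  · intro x hx
    simp only
    rw [hF1 x (by linarith)]
    have := mul_nonneg hA0 (pen_nonneg e x)
    linarith

/-- A strongly convex function which takes negative values, as a structure `Dm`: after a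
translation and a dilation. -/
theorem b_exists_dm {G : En n → ℝ} (hG : ContDiff ℝ 3 G) {c : ℝ} (hc : 0 < c)
    (hconv : ∀ x y, G x + fderiv ℝ G x (y - x) + c * ‖y - x‖ ^ 2 ≤ G y) (hneg : ∃ x, G x < 0) :
    ∃ (x₀ : En n) (s : ℝ) (𝓓 : Dm n), 0 < s ∧ (∀ x, 𝓓.ρ x = G (x₀ + (s : ℂ) • x)) ∧
      𝓓.c = c * s ^ 2 := by
  -- the minimum
  obtain ⟨x₁, hx₁⟩ := hneg
  have hGc : Continuous G := hG.continuous
  have hlow : ∀ y, G x₁ - ‖fderiv ℝ G x₁‖ * ‖y - x₁‖ + c * ‖y - x₁‖ ^ 2 ≤ G y := by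
    intro y
    have h1 := hconv x₁ y
    have h2 := (fderiv ℝ G x₁).le_opNorm (y - x₁)
    rw [Real.norm_eq_abs] at h2
    have h3 := (abs_le.mp h2).1
    linarith
  obtain ⟨x₀, -, hmin⟩ := (isCompact_closedBall x₁ (‖fderiv ℝ G x₁‖ / c)).exists_isMinOn
    ⟨x₁, mem_closedBall_self (by positivity)⟩ hGc.continuousOn
  have hmin' : ∀ y, G x₀ ≤ G y := by
    intro y
    have h0 : G x₀ ≤ G x₁ := hmin (mem_closedBall_self (by positivity))
    by_cases hy : y ∈ closedBall x₁ (‖fderiv ℝ G x₁‖ / c)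
    · exact hmin hy
    · rw [mem_closedBall, dist_eq_norm, not_le, div_lt_iff₀ hc] at hy
      have h1 := hlow y
      have h2 : ‖fderiv ℝ G x₁‖ * ‖y - x₁‖ ≤ c * ‖y - x₁‖ ^ 2 := by
        have := mul_le_mul_of_nonneg_right hy.le (norm_nonneg (y - x₁))
        nlinarith
      linarith
  have hneg0 : G x₀ < 0 := lt_of_le_of_lt (hmin' x₁) hx₁
  -- the radius
  obtain ⟨s', hs', hball⟩ := Metric.isOpen_iff.mp (isOpen_lt hGc continuous_const :
    IsOpen {x | G x < 0}) x₀ hneg0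
  set s : ℝ := s' / 2 with hs
  have hsp : 0 < s := by rw [hs]; linarith
  have hl : ContDiff ℝ 3 (fun x : En n => x₀ + (s : ℂ) • x) :=
    contDiff_const.add (contDiff_const_smul (s : ℂ))
  have hfd : ∀ w v : En n, fderiv ℝ (fun x => G (x₀ + (s : ℂ) • x)) w v =
      s * fderiv ℝ G (x₀ + (s : ℂ) • w) v := by
    intro w v
    have h1 : HasFDerivAt (fun x : En n => x₀ + (s : ℂ) • x)
        (s • ContinuousLinearMap.id ℝ (En n)) w := by
      have h2 : (fun x : En n => x₀ + (s : ℂ) • x) = fun x => x₀ + s • x := by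
        funext x
        rw [Complex.coe_smul]
      rw [h2]
      exact ((hasFDerivAt_id w).const_smul s).const_add x₀
    have h2 : HasFDerivAt G (fderiv ℝ G (x₀ + (s : ℂ) • w)) (x₀ + (s : ℂ) • w) :=
      (hG.differentiable (by norm_num) _).hasFDerivAt
    have h3 := h2.comp w h1
    have h4 : fderiv ℝ (fun x => G (x₀ + (s : ℂ) • x)) w =
        (fderiv ℝ G (x₀ + (s : ℂ) • w)).comp (s • ContinuousLinearMap.id ℝ (En n)) := h3.fderiv
    rw [h4]
    simp
  refine ⟨x₀, s, ⟨fun x => G (x₀ + (s : ℂ) • x), hG.comp hl, c * s ^ 2, by positivity, ?_, ?_, ?_⟩,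
    hsp, fun x => rfl, rfl⟩
  · intro w z
    rw [hfd]
    have h1 := hconv (x₀ + (s : ℂ) • w) (x₀ + (s : ℂ) • z)
    have h2 : x₀ + (s : ℂ) • z - (x₀ + (s : ℂ) • w) = (s : ℝ) • (z - w) := by
      rw [add_sub_add_left_eq_sub, ← smul_sub, Complex.coe_smul]
    rw [h2, map_smul, smul_eq_mul, norm_smul, Real.norm_eq_abs, mul_pow, sq_abs] at h1
    linarith
  · intro z
    show G (x₀ + (s : ℂ) • (0 : En n)) ≤ G (x₀ + (s : ℂ) • z)
    rw [smul_zero, add_zero]
    exact hmin' _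
  · intro z hz
    refine hball ?_
    rw [mem_ball, dist_eq_norm, add_sub_cancel_left, norm_smul, Complex.norm_real,
      Real.norm_eq_abs, abs_of_pos hsp]
    have : s * ‖z‖ ≤ s * 1 := mul_le_mul_of_nonneg_left hz hsp.le
    rw [hs] at this ⊢
    linarith

/-- Strong convexity near a point where the second derivative is positive definite. -/
theorem b_local_conv {r : E → ℝ} {U : Set E} (hU : IsOpen U) (hr : ContDiffOn ℝ 2 r U) {p : E}
    (hp : p ∈ U) {c : ℝ} (h : ∀ v, 2 * c * ‖v‖ ^ 2 ≤ fderiv ℝ (fderiv ℝ r) p v v) {c' : ℝ}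
    (hc' : c' < c) : ∃ s : ℝ, 0 < s ∧ ball p s ⊆ U ∧ ∀ x ∈ ball p s, ∀ y ∈ ball p s,
      r x + fderiv ℝ r x (y - x) + c' * ‖y - x‖ ^ 2 ≤ r y := by
  have hd1 : ContDiffOn ℝ 1 (fderiv ℝ r) U := hr.fderiv_of_isOpen hU (by norm_num)
  have hd2 : ContinuousOn (fderiv ℝ (fderiv ℝ r)) U :=
    hd1.continuousOn_fderiv_of_isOpen hU (by norm_num)
  have hcont : ContinuousAt (fderiv ℝ (fderiv ℝ r)) p := hd2.continuousAt (hU.mem_nhds hp)
  obtain ⟨s₁, hs₁, hb₁⟩ := (Metric.continuousAt_iff (f := fderiv ℝ (fderiv ℝ r)) (a := p)).mp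
    hcont (2 * (c - c')) (by linarith)
  obtain ⟨s₂, hs₂, hb₂⟩ := Metric.isOpen_iff.mp hU p hp
  refine ⟨min s₁ s₂, lt_min hs₁ hs₂, (ball_subset_ball (min_le_right _ _)).trans hb₂, ?_⟩
  intro x hx y hy
  have hseg : ∀ t ∈ Icc (0 : ℝ) 1, x + t • (y - x) ∈ ball p (min s₁ s₂) := by
    intro t ht
    have := (convex_ball p (min s₁ s₂)).add_smul_sub_mem hx hy ht
    exact this
  have hhess : ∀ z ∈ ball p (min s₁ s₂), ∀ v, 2 * c' * ‖v‖ ^ 2 ≤ fderiv ℝ (fderiv ℝ r) z v v := by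
    intro z hz v
    have h1 : ‖fderiv ℝ (fderiv ℝ r) z - fderiv ℝ (fderiv ℝ r) p‖ < 2 * (c - c') := by
      have h0 := dist_eq_norm (fderiv ℝ (fderiv ℝ r) z) (fderiv ℝ (fderiv ℝ r) p)
      exact h0.symm.trans_lt (hb₁ (x := z) (lt_of_lt_of_le (mem_ball.mp hz) (min_le_left _ _)))
    have h2 : |(fderiv ℝ (fderiv ℝ r) z - fderiv ℝ (fderiv ℝ r) p) v v| ≤
        2 * (c - c') * ‖v‖ * ‖v‖ := by
      have h3 := ((fderiv ℝ (fderiv ℝ r) z - fderiv ℝ (fderiv ℝ r) p)).le_opNorm v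
      have h4 := ((fderiv ℝ (fderiv ℝ r) z - fderiv ℝ (fderiv ℝ r) p) v).le_opNorm v
      have h5 := mul_le_mul_of_nonneg_right h1.le (norm_nonneg v)
      have h6 := mul_le_mul_of_nonneg_right (h3.trans h5) (norm_nonneg v)
      rw [← Real.norm_eq_abs]
      exact h4.trans h6
    have h3 := (abs_le.mp h2).1
    have h4 := h v
    simp only [sub_apply] at h3
    nlinarith
  -- along the segment
  set l : ℝ → E := fun t => x + t • (y - x) with hl
  have hlc : Continuous l := by fun_prop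
  have hld : ∀ t, HasDerivAt l (y - x) t := fun t => by
    have h1 := ((hasDerivAt_id' t).smul_const (y - x)).const_add x
    rw [one_smul] at h1
    exact h1
  have hopen : IsOpen (l ⁻¹' U) := hU.preimage hlc
  have hd : ∀ t ∈ Icc (0 : ℝ) 1, HasDerivAt (fun t => r (l t)) (fderiv ℝ r (l t) (y - x)) t ∧
      HasDerivAt (fun t => fderiv ℝ r (l t) (y - x))
        (fderiv ℝ (fderiv ℝ r) (l t) (y - x) (y - x)) t := by
    intro t ht
    have htU : l t ∈ U := hb₂ (ball_subset_ball (min_le_right _ _) (hseg t ht))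
    have h1 : DifferentiableAt ℝ r (l t) :=
      (hr.differentiableOn (by norm_num)).differentiableAt (hU.mem_nhds htU)
    have h2 : DifferentiableAt ℝ (fderiv ℝ r) (l t) :=
      (hd1.differentiableOn (by norm_num)).differentiableAt (hU.mem_nhds htU)
    refine ⟨h1.hasFDerivAt.comp_hasDerivAt t (hld t), ?_⟩
    have h3 := h2.hasFDerivAt.comp_hasDerivAt t (hld t)
    exact (h3.clm_apply (hasDerivAt_const t (y - x))).congr_deriv (by simp)
  have hmono1 : MonotoneOn (fun t => fderiv ℝ r (l t) (y - x) - 2 * c' * ‖y - x‖ ^ 2 * t)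
      (Icc 0 1) := by
    refine monotoneOn_of_deriv_nonneg (convex_Icc 0 1) ?_ ?_ ?_
    · intro t ht
      exact ((hd t ht).2.sub ((hasDerivAt_id t).const_mul _)).continuousAt.continuousWithinAt
    · intro t ht
      rw [interior_Icc] at ht
      exact ((hd t ⟨ht.1.le, ht.2.le⟩).2.sub
        ((hasDerivAt_id t).const_mul _)).differentiableAt.differentiableWithinAt
    · intro t ht
      rw [interior_Icc] at ht
      have ht' : t ∈ Icc (0 : ℝ) 1 := ⟨ht.1.le, ht.2.le⟩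
      have h4 := ((hd t ht').2.fun_sub
        ((hasDerivAt_id' t).const_mul (2 * c' * ‖y - x‖ ^ 2))).deriv
      rw [h4]
      have := hhess (l t) (hseg t ht') (y - x)
      linarith
  have hd0 : ∀ t ∈ Icc (0 : ℝ) 1, HasDerivAt (fun t => r (l t) - fderiv ℝ r (l 0) (y - x) * t -
      c' * ‖y - x‖ ^ 2 * t ^ 2)
      (fderiv ℝ r (l t) (y - x) - fderiv ℝ r (l 0) (y - x) - 2 * c' * ‖y - x‖ ^ 2 * t) t := by
    intro t ht
    have h6 := (hasDerivAt_pow 2 t).const_mul (c' * ‖y - x‖ ^ 2)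
    have h7 : HasDerivAt (fun t => r (l t) - fderiv ℝ r (l 0) (y - x) * t -
      c' * ‖y - x‖ ^ 2 * t ^ 2) _ t := ((hd t ht).1.fun_sub
        ((hasDerivAt_id' t).const_mul (fderiv ℝ r (l 0) (y - x)))).fun_sub h6
    exact h7.congr_deriv (by simp; ring)
  have hmono2 : MonotoneOn (fun t => r (l t) - fderiv ℝ r (l 0) (y - x) * t -
      c' * ‖y - x‖ ^ 2 * t ^ 2) (Icc 0 1) := by
    refine monotoneOn_of_deriv_nonneg (convex_Icc 0 1) ?_ ?_ ?_
    · intro t ht
      exact (hd0 t ht).continuousAt.continuousWithinAt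
    · intro t ht
      rw [interior_Icc] at ht
      exact (hd0 t ⟨ht.1.le, ht.2.le⟩).differentiableAt.differentiableWithinAt
    · intro t ht
      rw [interior_Icc] at ht
      rw [(hd0 t ⟨ht.1.le, ht.2.le⟩).deriv]
      have h8 := hmono1 ⟨le_rfl, zero_le_one⟩ ⟨ht.1.le, ht.2.le⟩ ht.1.le
      simp only [mul_zero, sub_zero] at h8
      linarith
  have h9 := hmono2 ⟨le_rfl, zero_le_one⟩ ⟨zero_le_one, le_rfl⟩ zero_le_one
  have hl0 : l 0 = x := by rw [hl]; simp
  have hl1 : l 1 = y := by rw [hl]; simp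
  simp only [mul_zero, sub_zero, mul_one, one_pow, ne_eq, OfNat.ofNat_ne_zero, not_false_eq_true,
    zero_pow, hl0, hl1] at h9
  linarith

/-- The first order inequality gives strong convexity in the sense of Mathlib. -/
theorem b_strongConvexOn {G : En n → ℝ} {c : ℝ}
    (h : ∀ x y, G x + fderiv ℝ G x (y - x) + c * ‖y - x‖ ^ 2 ≤ G y) :
    StrongConvexOn univ (2 * c) G := by
  refine ⟨convex_univ, fun x _ y _ a b ha hb hab => ?_⟩
  simp only [smul_eq_mul]
  set z : En n := a • x + b • y with hz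
  have h1 := h z x
  have h2 := h z y
  have e1 : x - z = b • (x - y) := by
    have : a = 1 - b := by linarith
    rw [hz, this]
    module
  have e2 : y - z = -(a • (x - y)) := by
    have : b = 1 - a := by linarith
    rw [hz, this]
    module
  rw [e1, map_smul, smul_eq_mul, norm_smul, Real.norm_eq_abs, mul_pow, sq_abs] at h1
  rw [e2, map_neg, map_smul, smul_eq_mul, norm_neg, norm_smul, Real.norm_eq_abs, mul_pow,
    sq_abs] at h2
  have h3 := mul_le_mul_of_nonneg_left h1 ha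
  have h4 := mul_le_mul_of_nonneg_left h2 hb
  have hb' : b = 1 - a := by linarith
  have h5 : a * (G z + b * fderiv ℝ G z (x - y) + c * (b ^ 2 * ‖x - y‖ ^ 2)) +
      b * (G z + -(a * fderiv ℝ G z (x - y)) + c * (a ^ 2 * ‖x - y‖ ^ 2)) =
      G z + a * b * (2 * c / 2 * ‖x - y‖ ^ 2) := by
    rw [hb']
    ring
  have h6 : G z ≤ a * G x + b * G y - a * b * (2 * c / 2 * ‖x - y‖ ^ 2) := by linarith
  exact h6

/-- The form used with the theorem for strongly convex domains. -/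
theorem b_exists_global' {r : En n → ℝ} {s0 c : ℝ} (hr : ContDiffOn ℝ 3 r (ball 0 s0))
    (hconv : ∀ x ∈ ball (0 : En n) s0, ∀ y ∈ ball (0 : En n) s0,
      r x + fderiv ℝ r x (y - x) + c * ‖y - x‖ ^ 2 ≤ r y)
    {e e' : ℝ} (he : 0 < e) (hee : e < e') (hes : e' < s0) :
    ∃ G : En n → ℝ, ContDiff ℝ 3 G ∧ StrongConvexOn univ (2 * c) G ∧
      (∀ x, ‖x‖ ≤ e → G x = r x) ∧ (∀ x, G x ≤ 0 → ‖x‖ < e' ∧ r x ≤ 0) ∧
      (∀ x, G x < 0 → ‖x‖ < e' ∧ r x < 0) := by
  obtain ⟨G, h1, h2, h3, h4, h5⟩ := b_exists_global hr hconv he hee hes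
  refine ⟨G, h1, b_strongConvexOn h2, h3, fun x hx => ?_, fun x hx => ?_⟩
  · have h6 := h4 x hx
    exact ⟨h6, (h5 x h6.le).trans hx⟩
  · have h6 := h4 x hx.le
    exact ⟨h6, (h5 x h6.le).trans_lt hx⟩

end Pool.Agent.MPca0fc2.SPX
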