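import Mathlib
import Pool.Agent.Lib.MP_ca0fc2_an.SPXB
import Pool.Agent.Lib.MP_ca0fc2_an.Mg.G049
import Pool.Agent.Lib.MP_ca0fc2_an.Mg.G045

/-!
# Local holomorphic coordinates in which a strictly pseudoconvex domain is strongly convex
-/

set_option autoImplicit false

open Metric Set MeasureTheory Filter Topology

namespace Pool.Agent.MPca0fc2.SPX

open Pool.Agent.MPca0fc2.CX (En)
open Pool.Agent.Lib.MP_ca0fc2_an

/-- Holomorphic functions are smooth. -/
theorem a_hol_contDiffOn {E : Type*} [NormedAddCommGroup E] [NormedSpace ℂ E]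
    [FiniteDimensional ℂ E] (m : ℕ) : ∀ {f : E → ℂ} {U : Set E}, IsOpen U →
      DifferentiableOn ℂ f U → ContDiffOn ℂ m f U := by
  have hprop : ProperSpace E := FiniteDimensional.proper ℂ E
  induction m with
  | zero =>
    intro f U _ hf
    rw [Nat.cast_zero, contDiffOn_zero]
    exact hf.continuousOn
  | succ m ih =>
    intro f U hU hf
    rw [Nat.cast_succ, contDiffOn_succ_iff_fderiv_of_isOpen hU]
    refine ⟨hf, fun h => absurd h (by exact_mod_cast WithTop.coe_ne_top), ?_⟩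
    rw [contDiffOn_clm_apply]
    intro v
    refine ih hU ?_
    intro z₀ hz₀
    obtain ⟨ε, hε, hεU⟩ := Metric.isOpen_iff.mp hU z₀ hz₀
    have hcs : closedBall z₀ (ε / 2) ⊆ U :=
      Subset.trans (closedBall_subset_ball (by linarith)) hεU
    obtain ⟨M, hM⟩ := (isCompact_closedBall z₀ (ε / 2)).exists_bound_of_continuousOn
      (hf.continuousOn.mono hcs)
    have h1 := differentiableOn_fderiv_apply (isOpen_ball (x := z₀) (ε := ε / 2))
      (hf.mono (ball_subset_closedBall.trans hcs)) (M := M)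
      (fun z hz => hM z (ball_subset_closedBall hz)) v
    exact (h1.differentiableAt (isOpen_ball.mem_nhds
      (mem_ball_self (by positivity)))).differentiableWithinAt

/-- A lower bound of the second derivative from a lower bound of the function. -/
theorem a_second_deriv {φ φ' : ℝ → ℝ} {φ'' m : ℝ} (h1 : ∀ᶠ t in 𝓝 (0 : ℝ), HasDerivAt φ (φ' t) t)
    (h2 : HasDerivAt φ' φ'' 0) (h3 : ∀ᶠ t in 𝓝 (0 : ℝ), φ 0 + φ' 0 * t + m / 2 * t ^ 2 ≤ φ t) :
    m ≤ φ'' := by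
  by_contra hcon
  push Not at hcon
  obtain ⟨m', hm1, hm2⟩ := exists_between hcon
  -- the derivative of the difference is negative
  have hψ : HasDerivAt (fun t => φ' t - φ' 0 - m' * t) (φ'' - m') 0 := by
    have h4 : HasDerivAt (fun t => φ' t - φ' 0 - m' * t) _ 0 :=
      (h2.sub_const (φ' 0)).fun_sub ((hasDerivAt_id' (0 : ℝ)).const_mul m')
    exact h4.congr_deriv (by simp)
  have hslope := hψ.tendsto_slope_zero_right
  have hev : ∀ᶠ t : ℝ in 𝓝[>] (0 : ℝ), φ' t - φ' 0 - m' * t < 0 := by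
    have h5 := hslope.eventually_lt_const (show φ'' - m' < 0 by linarith)
    filter_upwards [h5, self_mem_nhdsWithin] with t ht ht0
    have ht0' : (0 : ℝ) < t := ht0
    simp only [zero_add, sub_self, mul_zero, sub_zero, smul_eq_mul] at ht
    by_contra h6
    push Not at h6
    have : 0 ≤ t⁻¹ * (φ' t - φ' 0 - m' * t) := mul_nonneg (by positivity) h6
    linarith
  rw [eventually_nhdsWithin_iff] at hev
  obtain ⟨δ, hδ, hb⟩ := Metric.eventually_nhds_iff.mp (hev.and (h1.and h3))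
  set τ : ℝ := δ / 2 with hτ
  have hτ0 : 0 < τ := by rw [hτ]; linarith
  have hin : ∀ t ∈ Icc (0 : ℝ) τ, dist t 0 < δ := by
    intro t ht
    rw [Real.dist_eq, sub_zero, abs_of_nonneg ht.1]
    have := ht.2
    rw [hτ] at this
    linarith
  have hd : ∀ t ∈ Icc (0 : ℝ) τ, HasDerivAt (fun t => φ t - φ' 0 * t - m' / 2 * t ^ 2)
      (φ' t - φ' 0 - m' * t) t := by
    intro t ht
    have h6 := (hasDerivAt_pow 2 t).const_mul (m' / 2)
    have h7 : HasDerivAt (fun t => φ t - φ' 0 * t - m' / 2 * t ^ 2) _ t :=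
      (((hb (hin t ht)).2.1).fun_sub ((hasDerivAt_id' t).const_mul (φ' 0))).fun_sub h6
    exact h7.congr_deriv (by simp; ring)
  have hanti : AntitoneOn (fun t => φ t - φ' 0 * t - m' / 2 * t ^ 2) (Icc 0 τ) := by
    refine antitoneOn_of_deriv_nonpos (convex_Icc 0 τ) ?_ ?_ ?_
    · intro t ht
      exact (hd t ht).continuousAt.continuousWithinAt
    · intro t ht
      rw [interior_Icc] at ht
      exact (hd t ⟨ht.1.le, ht.2.le⟩).differentiableAt.differentiableWithinAt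
    · intro t ht
      rw [interior_Icc] at ht
      have ht' : t ∈ Icc (0 : ℝ) τ := ⟨ht.1.le, ht.2.le⟩
      rw [(hd t ht').deriv]
      exact ((hb (hin t ht')).1 ht.1).le
  have h8 := hanti ⟨le_rfl, hτ0.le⟩ ⟨hτ0.le, le_rfl⟩ hτ0.le
  have h9 := (hb (hin τ ⟨hτ0.le, le_rfl⟩)).2.2
  simp only [mul_zero, sub_zero, ne_eq, OfNat.ofNat_ne_zero, not_false_eq_true, zero_pow] at h8
  have h10 : m' / 2 * τ ^ 2 < m / 2 * τ ^ 2 :=
    mul_lt_mul_of_pos_right (by linarith) (by positivity)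
  linarith

variable {n : ℕ}

/-- The local inverse, with bounds. -/
theorem a_local_inverse {Θ : En n → En n} {p : En n} {U : Set (En n)} (hU : IsOpen U) (hp : p ∈ U)
    (hΘ : ContDiffOn ℂ 3 Θ U) (hd : HasFDerivAt Θ (ContinuousLinearMap.id ℂ (En n)) p)
    (h0 : Θ p = 0) :
    ∃ (V : Set (En n)) (Ψ : En n → En n) (s₀ : ℝ), 0 < s₀ ∧ IsOpen V ∧ p ∈ V ∧ V ⊆ U ∧
      MapsTo Θ V (ball 0 s₀) ∧ MapsTo Ψ (ball 0 s₀) V ∧ (∀ z ∈ V, Ψ (Θ z) = z) ∧
      (∀ x ∈ ball (0 : En n) s₀, Θ (Ψ x) = x) ∧ ContDiffOn ℂ 3 Ψ (ball 0 s₀) ∧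
      (∀ x ∈ ball (0 : En n) s₀, ∀ y ∈ ball (0 : En n) s₀, ‖Ψ x - Ψ y‖ ≤ 2 * ‖x - y‖) ∧
      (∀ z ∈ V, ∀ w ∈ V, ‖Θ z - Θ w‖ ≤ 2 * ‖z - w‖) := by
  have hca : ContDiffAt ℂ 3 Θ p := hΘ.contDiffAt (hU.mem_nhds hp)
  have hd' : HasFDerivAt Θ ((ContinuousLinearEquiv.refl ℂ (En n) : En n ≃L[ℂ] En n) :
      En n →L[ℂ] En n) p := hd
  set e := hca.toOpenPartialHomeomorph Θ hd' (by norm_num) with he
  have hpe : p ∈ e.source := hca.mem_toOpenPartialHomeomorph_source hd' (by norm_num)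
  have h0e : (0 : En n) ∈ e.target := by
    have := hca.image_mem_toOpenPartialHomeomorph_target hd' (by norm_num)
    rwa [h0] at this
  have hsymm0 : e.symm 0 = p := by
    have h1 : e.symm (e p) = p := e.left_inv hpe
    have h2 : e p = 0 := h0
    rwa [h2] at h1
  -- strict differentiability
  have hstrict : HasStrictFDerivAt Θ (ContinuousLinearMap.id ℂ (En n)) p :=
    hca.hasStrictFDerivAt' hd (by norm_num)
  obtain ⟨ε, hε, hlip⟩ : ∃ ε : ℝ, 0 < ε ∧ ∀ z ∈ ball p ε, ∀ w ∈ ball p ε,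
      ‖Θ z - Θ w - (z - w)‖ ≤ 1 / 2 * ‖z - w‖ := by
    have h1 := hstrict.isLittleO.def (show (0 : ℝ) < 1 / 2 by norm_num)
    obtain ⟨ε, hε, hb⟩ := Metric.eventually_nhds_iff.mp h1
    refine ⟨ε, hε, fun z hz w hw => ?_⟩
    have h2 := hb (y := (z, w)) (by
      rw [Prod.dist_eq]
      exact max_lt hz hw)
    simpa using h2
  -- the inverse is smooth near 0
  have hinv : ContDiffAt ℂ 3 e.symm 0 := by
    refine e.contDiffAt_symm (f₀' := ContinuousLinearEquiv.refl ℂ (En n)) h0e ?_ ?_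
    · rw [hsymm0]
      exact hd
    · rw [hsymm0]
      exact hca
  have hev1 : ∀ᶠ y in 𝓝 (0 : En n), ContDiffAt ℂ 3 e.symm y := hinv.eventually (by simp)
  have hev2 : ∀ᶠ y in 𝓝 (0 : En n), y ∈ e.target := e.open_target.mem_nhds h0e
  have hev3 : ∀ᶠ y in 𝓝 (0 : En n), e.symm y ∈ U ∩ ball p ε := by
    refine hinv.continuousAt.eventually_mem ?_
    rw [hsymm0]
    exact (hU.inter isOpen_ball).mem_nhds ⟨hp, mem_ball_self hε⟩
  obtain ⟨s₀, hs₀, hb⟩ := Metric.eventually_nhds_iff_ball.mp (hev1.and (hev2.and hev3))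
  have hle : ∀ x : En n, e x = Θ x := fun x => rfl
  refine ⟨(e.source ∩ e ⁻¹' (ball 0 s₀)) ∩ (U ∩ ball p ε), e.symm, s₀, hs₀,
    (e.isOpen_inter_preimage isOpen_ball).inter (hU.inter isOpen_ball), ?_, ?_, ?_, ?_, ?_, ?_,
    ?_, ?_, ?_⟩
  · refine ⟨⟨hpe, ?_⟩, hp, mem_ball_self hε⟩
    show Θ p ∈ ball (0 : En n) s₀
    rw [h0]
    exact mem_ball_self hs₀
  · exact fun z hz => hz.2.1
  · exact fun z hz => hz.1.2
  · intro x hx
    refine ⟨⟨e.map_target (hb x hx).2.1, ?_⟩, (hb x hx).2.2⟩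
    show e (e.symm x) ∈ ball (0 : En n) s₀
    rwa [e.right_inv (hb x hx).2.1]
  · exact fun z hz => e.left_inv hz.1.1
  · exact fun x hx => e.right_inv (hb x hx).2.1
  · exact fun x hx => (hb x hx).1.contDiffWithinAt
  · intro x hx y hy
    have h1 := hlip _ (hb x hx).2.2.2 _ (hb y hy).2.2.2
    rw [← hle (e.symm x), ← hle (e.symm y), e.right_inv (hb x hx).2.1,
      e.right_inv (hb y hy).2.1] at h1
    have h2 : e.symm x - e.symm y = (x - y) - (x - y - (e.symm x - e.symm y)) := by abel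
    have h3 := norm_sub_le (x - y) (x - y - (e.symm x - e.symm y))
    rw [← h2] at h3
    linarith
  · intro z hz w hw
    have h1 := hlip _ hz.2.2 _ hw.2.2
    have h2 : Θ z - Θ w = (z - w) + (Θ z - Θ w - (z - w)) := by abel
    have h3 := norm_add_le (z - w) (Θ z - Θ w - (z - w))
    rw [← h2] at h3
    have h4 := norm_nonneg (z - w)
    linarith

/-- Coordinates near a boundary point in which the domain is strongly convex. -/
theorem a_chart {D U : Set (En n)} {ρ : En n → ℝ} {h : En n → En n → Fin n → ℂ} {c : ℝ}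
    (S : SupportData D U ρ h c) (hρ : ContDiffOn ℝ 3 ρ U) {p : En n} (hp : p ∈ U)
    (hp0 : ρ p = 0) :
    ∃ (V : Set (En n)) (Θ Ψ : En n → En n) (s₀ s₁ : ℝ), 0 < s₁ ∧ s₁ ≤ s₀ ∧ IsOpen V ∧ p ∈ V ∧
      V ⊆ U ∧ Θ p = 0 ∧ MapsTo Θ V (ball 0 s₀) ∧ MapsTo Ψ (ball 0 s₀) V ∧
      (∀ z ∈ V, Ψ (Θ z) = z) ∧ (∀ x ∈ ball (0 : En n) s₀, Θ (Ψ x) = x) ∧
      ContDiffOn ℂ 3 Ψ (ball 0 s₀) ∧ ContDiffOn ℂ 3 Θ V ∧
      (∀ x ∈ ball (0 : En n) s₀, ∀ y ∈ ball (0 : En n) s₀, ‖Ψ x - Ψ y‖ ≤ 2 * ‖x - y‖) ∧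
      (∀ z ∈ V, ∀ w ∈ V, ‖Θ z - Θ w‖ ≤ 2 * ‖z - w‖) ∧
      ContDiffOn ℝ 3 (fun x => ρ (Ψ x)) (ball 0 s₀) ∧
      ∀ x ∈ ball (0 : En n) s₁, ∀ y ∈ ball (0 : En n) s₁,
        ρ (Ψ x) + fderiv ℝ (fun x => ρ (Ψ x)) x (y - x) + c / 8 * ‖y - x‖ ^ 2 ≤ ρ (Ψ y) := by
  have hc0 : 0 < c := S.c0
  -- the linear form
  obtain ⟨lam, hlam⟩ : ∃ lam : En n →L[ℂ] ℂ, ∀ v, lam v = 2 * ∑ k, h p p k * v k := by
    refine ⟨∑ k, (2 * h p p k) • (EuclideanSpace.proj k : En n →L[ℂ] ℂ), fun v => ?_⟩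
    rw [sum_apply, Finset.mul_sum]
    exact Finset.sum_congr rfl fun k _ => by simp [mul_assoc]
  have hgrad : ∀ v, fderiv ℝ ρ p v = (lam v).re := by
    intro v
    rw [S.grad p hp v, hlam]
    simp
  obtain ⟨X, hX⟩ : ∃ X, lam X ≠ 0 := by
    by_contra hcon
    push Not at hcon
    refine S.nd p hp hp0 (ContinuousLinearMap.ext fun v => ?_)
    rw [hgrad, hcon]
    simp
  obtain ⟨e, he⟩ : ∃ e, lam e = 1 :=
    ⟨(lam X)⁻¹ • X, by rw [map_smul, smul_eq_mul, inv_mul_cancel₀ hX]⟩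
  obtain ⟨F, hF⟩ : ∃ F : En n → ℂ, F = fun z => 2 * ∑ k, h z p k * (z k - p k) := ⟨_, rfl⟩
  obtain ⟨Θ, hΘ⟩ : ∃ Θ : En n → En n, Θ = fun z => (z - p) + (F z - lam (z - p)) • e :=
    ⟨_, rfl⟩
  have hhk : ∀ k, DifferentiableOn ℂ (fun z => h z p k) U := differentiableOn_pi.mp (S.hol p hp)
  have hFc : ContDiffOn ℂ 3 F U := by
    rw [hF]
    refine contDiffOn_const.mul (ContDiffOn.sum fun k _ => ?_)
    refine ContDiffOn.mul (a_hol_contDiffOn 3 S.opn (hhk k)) ?_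
    have h1 : ContDiff ℂ 3 fun z : En n => z k :=
      (EuclideanSpace.proj k : En n →L[ℂ] ℂ).contDiff
    exact (h1.sub contDiff_const).contDiffOn
  have hFd : HasFDerivAt F lam p := by
    have h1 : ∀ k, HasFDerivAt (fun z : En n => h z p k * (z k - p k))
        (h p p k • (EuclideanSpace.proj k : En n →L[ℂ] ℂ)) p := by
      intro k
      have h2 : HasFDerivAt (fun z : En n => h z p k) (fderiv ℂ (fun z : En n => h z p k) p) p :=
        ((hhk k).differentiableAt (S.opn.mem_nhds hp)).hasFDerivAt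
      have h3 : HasFDerivAt (fun z : En n => z k - p k)
          (EuclideanSpace.proj k : En n →L[ℂ] ℂ) p :=
        ((EuclideanSpace.proj k : En n →L[ℂ] ℂ).hasFDerivAt).sub_const (p k)
      refine (h2.fun_mul h3).congr_fderiv ?_
      ext v
      simp
    have h2 := (HasFDerivAt.fun_sum (u := Finset.univ) fun k _ => h1 k).const_mul 2
    rw [hF]
    refine h2.congr_fderiv ?_
    ext v
    rw [hlam]
    simp
  have hlc : ContDiff ℂ 3 fun z : En n => lam (z - p) :=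
    lam.contDiff.comp (contDiff_id.sub contDiff_const)
  have hΘc : ContDiffOn ℂ 3 Θ U := by
    rw [hΘ]
    exact (contDiff_id.sub contDiff_const).contDiffOn.add
      ((hFc.sub hlc.contDiffOn).smul contDiffOn_const)
  have hF0 : F p = 0 := by
    rw [hF]
    simp
  have hΘ0 : Θ p = 0 := by
    rw [hΘ]
    simp [hF0]
  have hΘd : HasFDerivAt Θ (ContinuousLinearMap.id ℂ (En n)) p := by
    have h1 : HasFDerivAt (fun z : En n => z - p) (ContinuousLinearMap.id ℂ (En n)) p :=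
      (hasFDerivAt_id p).sub_const p
    have h2 : HasFDerivAt (fun z : En n => lam (z - p)) lam p := by
      have h3 : HasFDerivAt (fun z : En n => lam (z - p))
          (lam.comp (ContinuousLinearMap.id ℂ (En n))) p := lam.hasFDerivAt.comp p h1
      exact h3.congr_fderiv (by ext v; simp)
    have h3 := h1.fun_add ((hFd.fun_sub h2).smul_const e)
    rw [hΘ]
    refine h3.congr_fderiv ?_
    ext v
    simp
  have hΘl : ∀ z, lam (Θ z) = F z := by
    intro z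
    rw [hΘ]
    simp [map_add, map_smul, he]
  obtain ⟨V, Ψ, s₀, hs₀, hVo, hpV, hVU, hm1, hm2, hinv1, hinv2, hΨc, hΨL, hΘL⟩ :=
    a_local_inverse S.opn hp hΘc hΘd hΘ0
  have h00 : (0 : En n) ∈ ball (0 : En n) s₀ := mem_ball_self hs₀
  have hΨ0 : Ψ 0 = p := by
    rw [← hΘ0]
    exact hinv1 p hpV
  obtain ⟨σ, hσ⟩ : ∃ σ : En n → ℝ, σ = fun x => ρ (Ψ x) := ⟨_, rfl⟩
  have hσc : ContDiffOn ℝ 3 σ (ball 0 s₀) := by
    rw [hσ]
    exact hρ.comp (hΨc.restrict_scalars ℝ) fun x hx => hVU (hm2 hx)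
  have hσ0 : σ 0 = 0 := by
    rw [hσ]
    show ρ (Ψ 0) = 0
    rw [hΨ0, hp0]
  -- the lower bound
  have hlow : ∀ x ∈ ball (0 : En n) s₀, (lam x).re + c / 4 * ‖x‖ ^ 2 ≤ σ x := by
    intro x hx
    have h1 := S.pos (Ψ x) (hVU (hm2 hx)) p hp
    have h2 : ‖x‖ ≤ 2 * ‖p - Ψ x‖ := by
      have h3 := hΘL p hpV (Ψ x) (hm2 hx)
      rw [hΘ0, hinv2 x hx, zero_sub, norm_neg] at h3
      exact h3
    have h3 : ‖x‖ ^ 2 ≤ 4 * ‖p - Ψ x‖ ^ 2 := by
      have := pow_le_pow_left₀ (norm_nonneg x) h2 2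
      nlinarith
    have h4 : (lam x).re = - (2 * (∑ k, h (Ψ x) p k * (p k - Ψ x k)).re) := by
      have h5 := hΘl (Ψ x)
      rw [hinv2 x hx] at h5
      rw [h5, hF]
      have h6 : ∑ k, h (Ψ x) p k * (Ψ x k - p k) = - ∑ k, h (Ψ x) p k * (p k - Ψ x k) := by
        rw [← Finset.sum_neg_distrib]
        exact Finset.sum_congr rfl fun k _ => by ring
      show (2 * ∑ k, h (Ψ x) p k * (Ψ x k - p k)).re = _
      rw [h6]
      simp
    rw [h4, hσ]
    show _ ≤ ρ (Ψ x)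
    rw [hp0] at h1
    nlinarith
  have hσd : DifferentiableAt ℝ σ 0 :=
    (hσc.contDiffAt (isOpen_ball.mem_nhds h00)).differentiableAt (by norm_num)
  have hσ' : ∀ v, fderiv ℝ σ 0 v = (lam v).re := by
    have h1 : HasFDerivAt (fun x : En n => (lam x).re)
        (Complex.reCLM.comp (lam.restrictScalars ℝ)) 0 :=
      (Complex.reCLM.comp (lam.restrictScalars ℝ)).hasFDerivAt
    have h2 := hσd.hasFDerivAt.fun_sub h1
    have h3 : IsLocalMin (fun x : En n => σ x - (lam x).re) 0 := by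
      filter_upwards [isOpen_ball.mem_nhds h00] with x hx
      have h4 := hlow x hx
      have h5 : 0 ≤ c / 4 * ‖x‖ ^ 2 := by positivity
      simp only [hσ0, map_zero, Complex.zero_re, sub_zero]
      linarith
    have h4 := h3.hasFDerivAt_eq_zero h2
    intro v
    have h5 : (fderiv ℝ σ 0 - Complex.reCLM.comp (lam.restrictScalars ℝ)) v = 0 := by
      rw [h4]
      simp
    have h6 : fderiv ℝ σ 0 v - (lam v).re = 0 := h5
    linarith
  have hhess : ∀ v, 2 * (c / 4) * ‖v‖ ^ 2 ≤ fderiv ℝ (fderiv ℝ σ) 0 v v := by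
    intro v
    have hl : ∀ t : ℝ, HasDerivAt (fun t : ℝ => t • v) v t := by
      intro t
      simpa using (hasDerivAt_id t).smul_const v
    have hev : ∀ᶠ t in 𝓝 (0 : ℝ), t • v ∈ ball (0 : En n) s₀ := by
      have h1 : ContinuousAt (fun t : ℝ => t • v) 0 := (hl 0).continuousAt
      refine h1.eventually_mem ?_
      simp only [zero_smul]
      exact isOpen_ball.mem_nhds h00
    refine a_second_deriv (φ := fun t => σ (t • v)) (φ' := fun t => fderiv ℝ σ (t • v) v)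
      ?_ ?_ ?_
    · filter_upwards [hev] with t ht
      have h1 : DifferentiableAt ℝ σ (t • v) :=
        (hσc.contDiffAt (isOpen_ball.mem_nhds ht)).differentiableAt (by norm_num)
      exact h1.hasFDerivAt.comp_hasDerivAt t (hl t)
    · have h1 : ContDiffOn ℝ 2 (fderiv ℝ σ) (ball 0 s₀) :=
        hσc.fderiv_of_isOpen isOpen_ball (by norm_num)
      have h2 : DifferentiableAt ℝ (fderiv ℝ σ) ((0 : ℝ) • v) := by
        rw [zero_smul]
        exact (h1.contDiffAt (isOpen_ball.mem_nhds h00)).differentiableAt (by norm_num)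
      have h3 := h2.hasFDerivAt.comp_hasDerivAt (0 : ℝ) (hl 0)
      have h4 := h3.clm_apply (hasDerivAt_const (0 : ℝ) v)
      refine h4.congr_deriv ?_
      simp
    · filter_upwards [hev] with t ht
      have h1 := hlow _ ht
      have h2 : (lam (t • v)).re = (lam v).re * t := by
        have h3 : lam (t • v) = (t : ℂ) * lam v := by
          rw [← Complex.coe_smul, map_smul, smul_eq_mul]
        rw [h3]
        simp [mul_comm]
      rw [h2, norm_smul, mul_pow, Real.norm_eq_abs, sq_abs] at h1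
      simp only [zero_smul]
      rw [hσ0, hσ']
      nlinarith
  obtain ⟨s, hs, hsub, hconv⟩ := b_local_conv (E := En n) isOpen_ball (hσc.of_le (by norm_num))
    h00 hhess (show c / 8 < c / 4 by linarith)
  refine ⟨V, Θ, Ψ, s₀, min s s₀, lt_min hs hs₀, min_le_right _ _, hVo, hpV, hVU, hΘ0, hm1, hm2,
    hinv1, hinv2, hΨc, hΘc.mono hVU, hΨL, hΘL, ?_, ?_⟩
  · rw [← hσ]
    exact hσc
  · intro x hx y hy
    have h1 := hconv x (ball_subset_ball (min_le_left _ _) hx) y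
      (ball_subset_ball (min_le_left _ _) hy)
    rw [hσ] at h1
    exact h1

end Pool.Agent.MPca0fc2.SPX
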