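import Mathlib
import Pool.Agent.Lib.MP_ca0fc2_an.SPXA
import Pool.Agent.Lib.MP_ca0fc2_an.CXSAff

/-!
# Localization on strictly pseudoconvex domains: from the strongly convex domains, and the fibres over
the closure
-/

set_option autoImplicit false

open Metric Set MeasureTheory Filter Topology

namespace Pool.Agent.MPca0fc2.SPX

open Pool.Agent.MPca0fc2.CX (En)
open Pool.Agent.MPca0fc2.CXS
open Pool.Agent.Lib.MP_ca0fc2_an

variable {n : ℕ}

/-- Slow functions in a chart. -/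
theorem d_slow (hn : 1 ≤ n) {D D' V : Set (En n)} {Θ Ψ : En n → En n} {p : En n} {s₀ e' r₀ : ℝ}
    (hDo : IsOpen D) (hDb : Bornology.IsBounded D) (hD'o : IsOpen D')
    (hr₀ : ball p r₀ ⊆ V) (he' : 0 < e') (her : 4 * e' ≤ r₀) (hes : e' < s₀) (hpV : p ∈ V)
    (hΘ0 : Θ p = 0) (hm2 : MapsTo Ψ (ball 0 s₀) V)
    (hinv1 : ∀ z ∈ V, Ψ (Θ z) = z) (hinv2 : ∀ x ∈ ball (0 : En n) s₀, Θ (Ψ x) = x)
    (hΨc : ContDiffOn ℂ 3 Ψ (ball 0 s₀))
    (hΨL : ∀ x ∈ ball (0 : En n) s₀, ∀ y ∈ ball (0 : En n) s₀, ‖Ψ x - Ψ y‖ ≤ 2 * ‖x - y‖)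
    (hΘL : ∀ z ∈ V, ∀ w ∈ V, ‖Θ z - Θ w‖ ≤ 2 * ‖z - w‖)
    (hD' : D' ⊆ ball 0 e') (hmap : MapsTo Ψ D' D) {u : En n → ℂ} (hu : u ∈ SlowOn D) :
    (fun x => u (Ψ x)) ∈ SlowOn D' := by
  have hnt : Nontrivial (En n) := by
    have : Nonempty (Fin n) := ⟨⟨0, hn⟩⟩
    infer_instance
  have hD's : D' ⊆ ball (0 : En n) s₀ := hD'.trans (ball_subset_ball hes.le)
  have hΨd : ∀ x ∈ ball (0 : En n) s₀, DifferentiableAt ℂ Ψ x := fun x hx =>
    (hΨc.contDiffAt (isOpen_ball.mem_nhds hx)).differentiableAt (by norm_num)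
  obtain ⟨⟨hu1, M, huM⟩, ω, hω, hωu⟩ := hu
  have hne : (Dᶜ).Nonempty := by
    rw [Set.nonempty_compl]
    intro h
    rw [h] at hDb
    exact NormedSpace.unbounded_univ ℂ (En n) hDb
  obtain ⟨y₀, hy₀⟩ : ∃ y₀ : En n, ‖y₀‖ = e' := by
    obtain ⟨y, hy⟩ := exists_ne (0 : En n)
    refine ⟨((e' / ‖y‖ : ℝ) : ℂ) • y, ?_⟩
    have hy' : 0 < ‖y‖ := norm_pos_iff.mpr hy
    rw [norm_smul, Complex.norm_real, Real.norm_of_nonneg (by positivity)]
    field_simp
  have hy₀' : y₀ ∈ D'ᶜ := by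
    intro h
    have h1 := hD' h
    rw [mem_ball_zero_iff, hy₀] at h1
    exact lt_irrefl _ h1
  have hΨ0 : Ψ 0 = p := by
    rw [← hΘ0]
    exact hinv1 p hpV
  have hs₀ : 0 < s₀ := he'.trans hes
  -- comparison of the distances
  have hdist : ∀ x ∈ D', infDist x D'ᶜ / 2 ≤ infDist (Ψ x) Dᶜ := by
    intro x hx
    have hxs := hD's hx
    have hxe : ‖x‖ < e' := mem_ball_zero_iff.mp (hD' hx)
    rw [le_infDist hne]
    intro z hz
    by_cases hzr : z ∈ ball p r₀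
    · have hzV := hr₀ hzr
      have h1 : Θ z ∈ D'ᶜ := by
        intro h
        have h2 := hmap h
        rw [hinv1 z hzV] at h2
        exact hz h2
      have h2 := infDist_le_dist_of_mem (x := x) h1
      have h3 := hΘL _ (hm2 hxs) z hzV
      rw [hinv2 x hxs] at h3
      rw [dist_eq_norm] at h2 ⊢
      linarith
    · have h1 : r₀ ≤ dist z p := not_lt.mp hzr
      have h2 : dist (Ψ x) p ≤ 2 * e' := by
        have h3 := hΨL x hxs 0 (mem_ball_self hs₀)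
        rw [hΨ0, sub_zero] at h3
        rw [dist_eq_norm]
        linarith
      have h3 : dist z p ≤ dist (Ψ x) z + dist (Ψ x) p := by
        rw [dist_comm (Ψ x) z]
        exact dist_triangle z (Ψ x) p
      have h4 := infDist_le_dist_of_mem (x := x) hy₀'
      have h5 : dist x y₀ ≤ 2 * e' := by
        rw [dist_eq_norm]
        have := norm_sub_le x y₀
        linarith
      linarith
  have hmaps : MapsTo Ψ D' D := hmap
  refine ⟨⟨hu1.comp (fun x hx => (hΨd x (hD's hx)).differentiableWithinAt) hmaps, M,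
    fun x hx => huM _ (hmaps hx)⟩, fun t => 4 * ω (1 / 2 * t),
    rate_smul (rate_scale hω (by norm_num) (by norm_num)) (by norm_num), fun x hx hx1 => ?_⟩
  have hxs := hD's hx
  have hpos : 0 < infDist x D'ᶜ := by
    have h1 := (hD'o.isClosed_compl.notMem_iff_infDist_pos ⟨y₀, hy₀'⟩ (x := x)).mp
      (fun h => h hx)
    exact h1
  obtain ⟨t, ht⟩ : ∃ t, t = 1 / 2 * infDist x D'ᶜ := ⟨_, rfl⟩
  have ht0 : 0 < t := by rw [ht]; linarith
  have ht1 : t < 1 := by rw [ht]; linarith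
  have hω0 : 0 < ω t := hω.1 t ⟨ht0, ht1⟩
  have h1 : ‖fderiv ℂ u (Ψ x)‖ ≤ ω t / t := by
    refine grad_maxD hDo hDb hu1 huM ht0 (by positivity) ?_ ?_
    · intro w hw hwt
      have h2 := hωu w hw (by rw [hwt]; exact ht1)
      rw [hwt] at h2
      rw [le_div_iff₀ ht0]
      linarith
    · have := hdist x hx
      rw [ht]
      linarith
  have h2 : ‖fderiv ℂ Ψ x‖ ≤ 2 := by
    refine norm_fderiv_le_of_lip' ℂ (by norm_num) ?_
    filter_upwards [isOpen_ball.mem_nhds hxs] with y hy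
    exact hΨL y hy x hxs
  have h3 : fderiv ℂ (fun x => u (Ψ x)) x = (fderiv ℂ u (Ψ x)).comp (fderiv ℂ Ψ x) :=
    ((hu1.differentiableAt (hDo.mem_nhds (hmap hx))).hasFDerivAt.comp x
      (hΨd x hxs).hasFDerivAt).fderiv
  show infDist x D'ᶜ * ‖fderiv ℂ (fun x => u (Ψ x)) x‖ ≤ 4 * ω (1 / 2 * infDist x D'ᶜ)
  rw [h3, ← ht]
  have h4 : ‖(fderiv ℂ u (Ψ x)).comp (fderiv ℂ Ψ x)‖ ≤ ω t / t * 2 :=
    (ContinuousLinearMap.opNorm_comp_le _ _).trans
      (mul_le_mul h1 h2 (norm_nonneg _) (by positivity))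
  have h5 : infDist x D'ᶜ = 2 * t := by rw [ht]; ring
  rw [h5]
  calc 2 * t * ‖(fderiv ℂ u (Ψ x)).comp (fderiv ℂ Ψ x)‖ ≤ 2 * t * (ω t / t * 2) :=
        mul_le_mul_of_nonneg_left h4 (by positivity)
    _ = 4 * ω t := by field_simp; ring

/-- The Bezout equation in a chart. -/
theorem solv_comp {D D' : Set (En n)} {φ : En n → En n} (hφ : DifferentiableOn ℂ φ D')
    (hm : MapsTo φ D' D) {N : ℕ} {f : Fin N → En n → ℂ} {C : ℝ} (h : SolvableOn f D C) :
    SolvableOn (fun j z => f j (φ z)) D' C := by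
  obtain ⟨g, h1, h2, h3⟩ := h
  exact ⟨fun j z => g j (φ z), fun j => (h1 j).comp hφ hm, fun j z hz => h2 j _ (hm hz),
    fun z hz => h3 _ (hm hz)⟩

/-- The corona problem on a strictly pseudoconvex domain is local over the slow functions, if it is
local over the closure of the domain. -/
theorem locOn_of_fibre (hn : 1 ≤ n) {D U : Set (En n)} {ρ : En n → ℝ}
    {h : En n → En n → Fin n → ℂ} {c : ℝ} (S : SupportData D U ρ h c) (hρ : ContDiffOn ℝ 3 ρ U)
    (hfib : ∀ (N : ℕ) (f : Fin N → En n → ℂ), (∀ j, IsHinf D (f j)) →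
      (∀ p ∈ closure D, ∃ r : ℝ, 0 < r ∧ ∃ C₁, SolvableOn f (D ∩ ball p r) C₁) →
      ∃ C', SolvableOn f D C') : LocOn D (SlowOn D) := by
  have hDeq : D = U ∩ ρ ⁻¹' (Iio 0) := S.eq
  have hDo : IsOpen D := by
    rw [hDeq]
    exact S.dρ.continuousOn.isOpen_inter_preimage S.opn isOpen_Iio
  have hDK : D ⊆ {z | z ∈ U ∧ ρ z ≤ 0} := by
    intro z hz
    rw [hDeq] at hz
    exact ⟨hz.1, le_of_lt hz.2⟩
  have hDb : Bornology.IsBounded D := S.cpt.isBounded.subset hDK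
  have hcl : closure D ⊆ {z | z ∈ U ∧ ρ z ≤ 0} := closure_minimal hDK S.cpt.isClosed
  intro N k f a C ε hf ha hε hloc
  refine hfib N f hf fun p hp => ?_
  obtain ⟨hpU, hpρ⟩ := hcl hp
  rcases eq_or_lt_of_le hpρ with hp0 | hp0
  swap
  · -- interior points
    have hpD : p ∈ D := by
      rw [hDeq]
      exact ⟨hpU, hp0⟩
    have h1 : ∀ᶠ z in 𝓝 p, z ∈ D ∧ ∀ i, ‖a i z - a i p‖ < ε := by
      refine Filter.eventually_and.mpr ⟨hDo.mem_nhds hpD, eventually_all.mpr fun i => ?_⟩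
      have h2 : ContinuousAt (a i) p := (ha i).1.1.continuousOn.continuousAt (hDo.mem_nhds hpD)
      have h3 : ContinuousAt (fun z => ‖a i z - a i p‖) p := (h2.sub continuousAt_const).norm
      refine h3.eventually_lt_const ?_
      simpa using hε
    obtain ⟨r, hr, hb⟩ := Metric.eventually_nhds_iff_ball.mp h1
    exact ⟨r, hr, C, solv_sub (hloc p hpD) (fun z hz => hb z hz.2) le_rfl⟩
  -- boundary points
  obtain ⟨V, Θ, Ψ, s₀, s₁, hs₁, hs₁₀, hVo, hpV, hVU, hΘ0, hm1, hm2, hinv1, hinv2, hΨc, hΘc, hΨL,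
    hΘL, hσc, hconv⟩ := a_chart S hρ hpU hp0
  obtain ⟨r₀, hr₀, hr₀V⟩ := Metric.isOpen_iff.mp hVo p hpV
  obtain ⟨e', he'def⟩ : ∃ e', e' = min (r₀ / 4) (s₁ / 2) := ⟨_, rfl⟩
  have he' : 0 < e' := by rw [he'def]; exact lt_min (by linarith) (by linarith)
  have her : 4 * e' ≤ r₀ := by
    have : e' ≤ r₀ / 4 := by rw [he'def]; exact min_le_left _ _
    linarith
  have hes1 : e' < s₁ := by
    have : e' ≤ s₁ / 2 := by rw [he'def]; exact min_le_right _ _
    linarith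
  have hes : e' < s₀ := hes1.trans_le hs₁₀
  have hc0 : 0 < c := S.c0
  obtain ⟨G, hG3, hGconv, hG1, hG2, hG4⟩ := b_exists_global' (r := fun x => ρ (Ψ x)) (s0 := s₁)
    (c := c / 8) (hσc.mono (ball_subset_ball hs₁₀)) hconv (e := e' / 2) (e' := e')
    (by linarith) (by linarith) hes1
  obtain ⟨D', hD'def⟩ : ∃ D' : Set (En n), D' = {x | G x < 0} := ⟨_, rfl⟩
  have hD'o : IsOpen D' := by
    rw [hD'def]
    exact isOpen_lt hG3.continuous continuous_const
  have hD'e : D' ⊆ ball 0 e' := by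
    intro x hx
    rw [hD'def] at hx
    exact mem_ball_zero_iff.mpr (hG4 x hx).1
  have hmap : MapsTo Ψ D' D := by
    intro x hx
    have h1 : x ∈ ball (0 : En n) s₀ := ball_subset_ball hes.le (hD'e hx)
    rw [hD'def] at hx
    rw [hDeq]
    exact ⟨hVU (hm2 h1), (hG4 x hx).2⟩
  have hΨd : DifferentiableOn ℂ Ψ D' := by
    intro x hx
    have h1 : x ∈ ball (0 : En n) s₀ := ball_subset_ball hes.le (hD'e hx)
    exact ((hΨc.contDiffAt (isOpen_ball.mem_nhds h1)).differentiableAt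
      (by norm_num)).differentiableWithinAt
  have hloc' : LocOn D' (SlowOn D') := by
    rw [hD'def]
    exact locOn_convex hn hG3 (show (0 : ℝ) < 2 * (c / 8) by linarith) hGconv
  obtain ⟨C', hC'⟩ := hloc' N k (fun j x => f j (Ψ x)) (fun i x => a i (Ψ x)) C ε
    (fun j => ⟨(hf j).1.comp hΨd hmap, (hf j).2.choose,
      fun x hx => (hf j).2.choose_spec _ (hmap hx)⟩)
    (fun i => d_slow hn hDo hDb hD'o hr₀V he' her hes hpV hΘ0 hm2 hinv1 hinv2 hΨc hΨL hΘL hD'e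
      hmap (ha i)) hε
    (fun b hb => by
      refine solv_comp (hΨd.mono fun x hx => hx.1) (fun x hx => ?_) (hloc _ (hmap hb))
      exact ⟨hmap hx.1, hx.2⟩)
  have hr : 0 < min r₀ (e' / 4) := lt_min hr₀ (by linarith)
  refine ⟨min r₀ (e' / 4), hr, C', ?_⟩
  have hVb : ∀ z ∈ D ∩ ball p (min r₀ (e' / 4)), z ∈ V := fun z hz =>
    hr₀V (ball_subset_ball (min_le_left _ _) hz.2)
  have hΘm : MapsTo Θ (D ∩ ball p (min r₀ (e' / 4))) D' := by
    intro z hz
    have hzV := hVb z hz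
    have h1 : ‖Θ z‖ ≤ e' / 2 := by
      have h2 := hΘL z hzV p hpV
      rw [hΘ0, sub_zero] at h2
      have h3 : ‖z - p‖ < e' / 4 := by
        rw [← dist_eq_norm]
        exact lt_of_lt_of_le hz.2 (min_le_right _ _)
      linarith
    rw [hD'def]
    show G (Θ z) < 0
    rw [hG1 _ h1, hinv1 z hzV]
    have h2 := hz.1
    rw [hDeq] at h2
    exact h2.2
  have hΘd : DifferentiableOn ℂ Θ (D ∩ ball p (min r₀ (e' / 4))) := fun z hz =>
    ((hΘc.contDiffAt (hVo.mem_nhds (hVb z hz))).differentiableAt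
      (by norm_num)).differentiableWithinAt
  obtain ⟨g, g1, g2, g3⟩ := solv_comp hΘd hΘm hC'
  refine ⟨g, g1, g2, fun z hz => ?_⟩
  have h1 := g3 z hz
  simp only [hinv1 z (hVb z hz)] at h1
  exact h1

end Pool.Agent.MPca0fc2.SPX
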