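import Mathlib
import Pool.Agent.Lib.MP_ca0fc2_an.SPXD
import Pool.Agent.Lib.MP_ca0fc2_an.Mg.G066
import Pool.Agent.Lib.MP_ca0fc2_an.Mg.G060

/-!
# The corona problem on strictly pseudoconvex domains is local over the slow functions
-/

set_option autoImplicit false

open Metric Set MeasureTheory Filter Topology

namespace Pool.Agent.MPca0fc2.SPX

open Pool.Agent.Lib.MP_ca0fc2_an
open Pool.Agent.MPca0fc2.CXS

variable {n : ℕ} {D U : Set (EuclideanSpace ℂ (Fin n))} {ρ : EuclideanSpace ℂ (Fin n) → ℝ}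
  {h : EuclideanSpace ℂ (Fin n) → EuclideanSpace ℂ (Fin n) → Fin n → ℂ} {c : ℝ}

theorem spc_open (S : SupportData D U ρ h c) : IsOpen D := by
  rw [S.eq]
  have h1 : {z | z ∈ U ∧ ρ z < 0} = U ∩ ρ ⁻¹' Iio 0 := rfl
  rw [h1]
  exact S.dρ.continuousOn.isOpen_inter_preimage S.opn isOpen_Iio

theorem spc_bdd (S : SupportData D U ρ h c) : Bornology.IsBounded D := by
  refine S.cpt.isBounded.subset ?_
  rw [S.eq]
  exact fun z hz => ⟨hz.1, le_of_lt hz.2⟩

/-- The corona problem on every strictly pseudoconvex domain is local over the slow functions. -/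
theorem locOn_spc (hn : 2 ≤ n) (S : SupportData D U ρ h c) (hρ : ContDiffOn ℝ 3 ρ U) :
    LocOn D (SlowOn D) := by
  refine locOn_of_fibre (by omega) S hρ fun N f hf hp => ?_
  choose hfd M hM using hf
  exact FD.fibre_loc' hn S hfd (M := ∑ j, |M j|) (fun j z hz => (hM j z hz).trans
    ((le_abs_self _).trans (Finset.single_le_sum (f := fun j => |M j|)
      (fun j _ => abs_nonneg _) (Finset.mem_univ j)))) hp

/-- The corona problem on every strictly pseudoconvex domain is local over the hull of the slow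
functions. -/
theorem locOn_spc_hull (hn : 2 ≤ n) (S : SupportData D U ρ h c) (hρ : ContDiffOn ℝ 3 ρ U) :
    LocOn D (HullOn D (SlowOn D)) :=
  locOn_hull (spc_open S) (fun u hu => hu.1.1) (locOn_spc hn S hρ)

/-- Extension of the characters of `H^∞` of a strictly pseudoconvex domain. -/
theorem spc_spec (hn : 2 ≤ n) (S : SupportData D U ρ h c) (hρ : ContDiffOn ℝ 3 ρ U)
    {χ : (EuclideanSpace ℂ (Fin n) → ℂ) → ℂ} (hχ : IsCharacter D χ) {k : ℕ}
    {a : Fin k → EuclideanSpace ℂ (Fin n) → ℂ} (ha : ∀ i, a i ∈ HullOn D (SlowOn D)) {ε : ℝ}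
    (hε : 0 < ε) :
    ∃ M, IsCharacter {z | z ∈ D ∧ ∀ i, ‖a i z - χ (a i)‖ < ε} M ∧ ∀ f, IsHinf D f → M f = χ f :=
  char_extend (spc_open S) (locOn_spc_hull hn S hρ) (fun a ha => ha.1) hχ ha hε

/-- The corona theorem on the strictly pseudoconvex domains, for data which are near functions of the
analytic closure of the hull of the slow functions and one arbitrary function. -/
theorem spc_closure (hn : 2 ≤ n) (S : SupportData D U ρ h c) (hρ : ContDiffOn ℝ 3 ρ U) {N : ℕ}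
    (f q : Fin N → EuclideanSpace ℂ (Fin n) → ℂ) {F : EuclideanSpace ℂ (Fin n) → ℂ}
    (hF : IsHinf D F) {δ η : ℝ} (hη : 4 * N * η ^ 2 < δ) (hf : ∀ j, DifferentiableOn ℂ (f j) D)
    (hq : ∀ j, q j ∈ AnalyticClosureOn D (HullOn D (SlowOn D) ∪ {F}))
    (hfq : ∀ j, ∀ z ∈ D, ‖f j z - q j z‖ ≤ η) (hδ : ∀ z ∈ D, δ ≤ ∑ j, ‖f j z‖ ^ 2) :
    ∃ g : Fin N → EuclideanSpace ℂ (Fin n) → ℂ, (∀ j, IsHinf D (g j)) ∧
      ∀ z ∈ D, ∑ j, f j z * g j z = 1 := by
  rcases D.eq_empty_or_nonempty with h0 | hne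
  · subst h0
    exact ⟨fun _ _ => 0, fun _ => ⟨differentiableOn_const _, 0, fun z hz => absurd hz (by simp)⟩,
      fun z hz => absurd hz (by simp)⟩
  · obtain ⟨C, g, h1, h2, h3⟩ := IND.q1_closure (spc_open S) hne (locOn_spc hn S hρ)
      (fun a ha => ha.1) hF f q hη hf hq hfq hδ
    exact ⟨g, fun j => ⟨h1 j, C, h2 j⟩, h3⟩

end Pool.Agent.MPca0fc2.SPX
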