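import Mathlib
import Pool.Agent.Lib.MP_ca0fc2_an.SkCell
import Pool.Agent.Lib.MP_ca0fc2_an.SkPoly
import Pool.Agent.Lib.MP_ca0fc2_an.MixDepth
import Pool.Agent.Lib.MP_ca0fc2_an.DiscCor

set_option autoImplicit false

open Metric Set MeasureTheory Filter Topology
open scoped InnerProductSpace ComplexConjugate

namespace Pool.Agent.MPca0fc2.SK

open Pool.Agent.Lib.MP_ca0fc2_an

variable {E : Type*} [NormedAddCommGroup E] [InnerProductSpace ℂ E]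

theorem mixed_empty {N : ℕ} {f : Fin N → E → ℂ} {C η : ℝ} {ω : ℝ → ℝ} :
    ∀ {k : ℕ}, MixedSolvable f C η ω k ∅ := by
  intro k
  induction k with
  | zero => exact ⟨fun _ _ => 0, fun _ => differentiableOn_const _, fun _ z hz => absurd hz
      (notMem_empty z), fun z hz => absurd hz (notMem_empty z)⟩
  | succ k ih =>
    refine ⟨id, id, MX.id_aut, Or.inr ⟨fun _ => 0, ⟨differentiableOn_const _, fun z _ => by simp,
      ?_⟩, fun z hz => absurd hz (notMem_empty z)⟩⟩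
    intro s hs
    rw [image_empty] at hs
    exact absurd hs (notMem_empty s)

/-- Successive subdivisions along finitely many given lines. -/
theorem lines_step {N : ℕ} {f : Fin N → E → ℂ} {C η ε ρ : ℝ} {ω : ℝ → ℝ} {S S' : ℕ → E → E}
    {e : ℕ → E} (hS : ∀ i, GAut (S i) (S' i)) (he : ∀ i, ‖e i‖ = 1) (hη0 : 0 < η)
    (hη : η < 1 / 4) (hε : 0 < ε) (h : 144 * η ≤ ε ^ 2) (hρ : 16 * η ≤ ρ) {k : ℕ} :
    ∀ (q : ℕ) (D : Set E), D ⊆ ball 0 1 → (∀ D' ⊆ D, (∀ i < q, ∀ w ∈ D', ∀ w' ∈ D',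
      ‖mob (e i) (-⟪e i, S i w⟫_ℂ) (S i w') - mob (e i) (-⟪e i, S i w⟫_ℂ) (S i w)‖ < ε ∧
      w' ∈ lineCell (e i) ρ (S i) w) →
      MixedSolvable f C η ω k D') → MixedSolvable f C η ω (k + q) D := by
  intro q
  induction q with
  | zero =>
    intro D _ hD
    exact hD D subset_rfl fun i hi => absurd hi (by omega)
  | succ q ih =>
    intro D hDb hD
    refine ⟨S q, S' q, (hS q).aut, Or.inl ⟨e q, he q, fun z₀ hz₀ => ?_⟩⟩
    apply ih _ (inter_subset_left.trans hDb)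
    intro D' hD' hosc
    apply hD D' (hD'.trans inter_subset_left)
    intro i hi w hw w' hw'
    rcases Nat.lt_succ_iff_lt_or_eq.mp hi with hlt | rfl
    · exact hosc i hlt w hw w' hw'
    · exact ⟨cell_small (he i) hη0 hη hε h ((hS i).aut.map _ (hDb (hD' hw).1))
        ((hS i).aut.map _ (hDb (hD' hw').1)) (hD' hw).2 (hD' hw').2,
        cell_cell hη0 hη hρ (hD' hw).2 (hD' hw').2⟩

/-- Successive subdivisions with finitely many slow functions. -/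
theorem slow_step {N : ℕ} {f : Fin N → E → ℂ} {C η : ℝ} {ω : ℝ → ℝ} {T T' : E → E}
    {u : ℕ → E → ℂ} (hT : IsBallAut T T') {k : ℕ} :
    ∀ (q : ℕ) (D : Set E), (∀ i, IsSlowNear ω η (T '' D) (u i)) →
      (∀ D' ⊆ D, (∀ i < q, ∀ w ∈ D', ∀ w' ∈ D', ‖u i (T w) - u i (T w')‖ < 2 * η) →
      MixedSolvable f C η ω k D') → MixedSolvable f C η ω (k + q) D := by
  intro q
  induction q with
  | zero =>
    intro D _ hD
    exact hD D subset_rfl fun i hi => absurd hi (by omega)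
  | succ q ih =>
    intro D hu hD
    refine ⟨T, T', hT, Or.inr ⟨u q, hu q, fun z₀ hz₀ => ?_⟩⟩
    apply ih _ fun i => MX.slowNear_mono (hu i) (image_mono inter_subset_left)
    intro D' hD' hosc
    apply hD D' (hD'.trans inter_subset_left)
    intro i hi w hw w' hw'
    rcases Nat.lt_succ_iff_lt_or_eq.mp hi with hlt | rfl
    · exact hosc i hlt w hw w' hw'
    · have h1 := (hD' hw).2.1
      have h2 := (hD' hw').2.1
      calc ‖u i (T w) - u i (T w')‖ = ‖(u i (T w) - u i (T z₀)) - (u i (T w') - u i (T z₀))‖ := by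
            congr 1; ring
        _ ≤ ‖u i (T w) - u i (T z₀)‖ + ‖u i (T w') - u i (T z₀)‖ := norm_sub_le _ _
        _ < 2 * η := by linarith

/-- The rate after a change of scale. -/
theorem isRate_scale {ω : ℝ → ℝ} (hω : IsRate ω) {K : ℝ} (hK : 1 ≤ K) :
    IsRate fun t => ω (min 1 (K * t)) := by
  have hK0 : 0 < K := by linarith
  have hmem : ∀ t ∈ Ioc (0 : ℝ) 1, min 1 (K * t) ∈ Ioc (0 : ℝ) 1 := fun t ht =>
    ⟨lt_min one_pos (mul_pos hK0 ht.1), min_le_left _ _⟩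
  refine ⟨fun t ht => hω.pos _ (hmem t ht), ?_, ?_⟩
  · intro s hs t ht hst
    exact hω.mono (hmem s hs) (hmem t ht) (min_le_min_left _ (by gcongr))
  · intro c hc
    obtain ⟨F, hF⟩ : ∃ F : ℝ → ℝ, F = indicator (Ioo 0 1) fun t => Real.exp (-(c / ω t)) / t :=
      ⟨_, rfl⟩
    have h1 : IntegrableOn F (Ioi 0) := by
      rw [hF]
      exact ((hω.int c hc).integrable_indicator measurableSet_Ioo).integrableOn
    have h2 : IntegrableOn (fun t => K * F (K * t)) (Ioi 0) := by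
      have h3 := (integrableOn_Ioi_comp_mul_left_iff F 0 hK0).mpr (by rwa [mul_zero])
      exact Integrable.const_mul h3 K
    have hsub : Ioo (0 : ℝ) 1 ⊆ Ioo 0 (1 / K) ∪ Icc (1 / K) 1 := by
      intro t ht
      rcases lt_or_ge t (1 / K) with h | h
      · exact Or.inl ⟨ht.1, h⟩
      · exact Or.inr ⟨h, ht.2.le⟩
    refine IntegrableOn.mono_set ?_ hsub
    apply IntegrableOn.union
    · refine ((h2.mono_set (fun t ht => ht.1 : Ioo (0 : ℝ) (1 / K) ⊆ Ioi 0)).congr_fun ?_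
        measurableSet_Ioo)
      intro t ht
      have h3 : K * t < 1 := by
        have := ht.2
        rw [lt_div_iff₀ hK0] at this
        linarith
      have h4 : K * t ∈ Ioo (0 : ℝ) 1 := ⟨mul_pos hK0 ht.1, h3⟩
      have ht0 := ht.1
      simp only [hF, indicator_of_mem h4, min_eq_right h3.le]
      field_simp
    · have h3 : ContinuousOn (fun t : ℝ => Real.exp (-(c / ω 1)) / t) (Icc (1 / K) 1) := by
        apply continuousOn_const.div continuousOn_id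
        intro t ht
        have := ht.1
        have h4 : 0 < 1 / K := by positivity
        exact (h4.trans_le this).ne'
      refine (h3.integrableOn_compact isCompact_Icc).congr_fun ?_ measurableSet_Icc
      intro t ht
      have h4 : 1 ≤ K * t := by
        have := ht.1
        rw [div_le_iff₀ hK0] at this
        linarith
      simp only [min_eq_left h4]

/-- A line through two points of the ball, in coordinates. -/
theorem exists_line2 [Nontrivial E] {a b : E} (ha : a ∈ ball (0 : E) 1) : ∃ (S S' : E → E) (e : E), GAut S S' ∧ ‖e‖ = 1 ∧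
      (∃ s : ℂ, S a = s • e) ∧ ∃ s : ℂ, S b = s • e := by
  obtain ⟨S, S', hS, hSa, -⟩ := exists_gaut ha
  by_cases h0 : S b = 0
  · obtain ⟨e, he⟩ := exists_norm_eq E (zero_le_one : (0 : ℝ) ≤ 1)
    exact ⟨S, S', e, hS, he, ⟨0, by rw [hSa, zero_smul]⟩, ⟨0, by rw [h0, zero_smul]⟩⟩
  · obtain ⟨e, he, hbe⟩ := exists_unit h0
    exact ⟨S, S', e, hS, he, ⟨0, by rw [hSa, zero_smul]⟩, ⟨_, hbe⟩⟩

/-- the coordinates in which the projection of `z` on the line is the origin -/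
theorem base_gaut {S S' : E → E} {e : E} (hS : GAut S S') (he : ‖e‖ = 1) {z : E}
    (hz : z ∈ ball (0 : E) 1) :
    GAut (fun w => mob e (-⟪e, S z⟫_ℂ) (S w)) (fun w => S' (mob e (-(-⟪e, S z⟫_ℂ)) w)) := by
  have h1 : ‖-⟪e, S z⟫_ℂ‖ < 1 := by
    rw [norm_neg]; exact norm_inner_lt he (hS.aut.map z hz)
  exact hS.comp (GAut.mob he h1)

theorem base_line {S : E → E} {e : E} (he : ‖e‖ = 1) {z a : E} {s : ℂ} (hs : S a = s • e) :
    ∃ s' : ℂ, mob e (-⟪e, S z⟫_ℂ) (S a) = s' • e := by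
  rw [hs, mob_smul he]
  exact ⟨_, rfl⟩

theorem base_orth {S : E → E} {e : E} (he : ‖e‖ = 1) {z : E} : ⟪e, mob e (-⟪e, S z⟫_ℂ) (S z)⟫_ℂ = 0 := by
  rw [inner_mob he, add_neg_cancel, zero_div]

/-- The projection maximizes `sg`. -/
theorem sg_le_proj {S S' : E → E} {e : E} (hS : GAut S S') (he : ‖e‖ = 1) {z a : E}
    (hz : z ∈ ball (0 : E) 1) (ha : a ∈ ball (0 : E) 1) (hs : ∃ s : ℂ, S a = s • e) :
    sg z a ≤ 1 - ‖mob e (-⟪e, S z⟫_ℂ) (S z)‖ ^ 2 := by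
  obtain ⟨s, hs⟩ := hs
  obtain ⟨s', hs'⟩ := base_line (z := z) he hs
  have hW := base_gaut hS he hz
  have h1 := hW.sg hz ha
  rw [← h1, hs', sg]
  have h2 : ⟪mob e (-⟪e, S z⟫_ℂ) (S z), s' • e⟫_ℂ = 0 := by
    rw [inner_smul_right, ← inner_conj_symm, base_orth he, map_zero, mul_zero]
  rw [h2, sub_zero, norm_one, one_pow, div_one]
  have h3 := sq_lt_one (hW.aut.map z hz)
  nlinarith [sq_nonneg ‖s' • e‖]

/-- The local statement. -/
theorem skel_local [Nontrivial E] {N m K : ℕ} {f : Fin N → E → ℂ} {l : E} {ε η₁ r ρ C : ℝ}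
    {ω : ℝ → ℝ} (hω : IsRate ω) (hε : 0 < ε) (hε1 : ε ≤ 1 / 1600) (hεr : 400000 * ε ≤ r)
    (hη₁ : 0 < η₁) (hη₁1 : η₁ < 1 / 4) (hη₁ε : 144 * η₁ ≤ ε ^ 2) (hη₁ε' : η₁ ≤ ε)
    (hη₁ρ : 16 * η₁ ≤ ρ) {S S' : Fin m → E → E} {e : Fin m → E}
    (hSa : ∀ i, IsBallAut (S i) (S' i)) (he : ∀ i, ‖e i‖ = 1) {g : Fin K → E → ℂ}
    (hgd : ∀ k, DifferentiableOn ℂ (g k) (ball 0 1)) (hgM : ∀ k, ∀ z ∈ ball (0 : E) 1, ‖g k z‖ ≤ 1)
    (hgf : ∀ k, ∀ z ∈ ball (0 : E) 1 ∩ ball l r,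
      DecayBound ω (skeleton S e) (g k) z)
    (hsol : ∀ b ∈ ball (0 : E) 1 ∩ ball l r,
      SolvableOn f (ball 0 1 ∩ ball l r ∩ skelPiece S e g ρ b) C) :
    MixedSolvable f C η₁ (fun t => ω (min 1 (1280000 * t))) (0 + K + (m + 1) * (m + 1) + m)
      (ball 0 1 ∩ ball l (r / 2)) := by
  classical
  have hS : ∀ i, GAut (S i) (S' i) := fun i => gaut_of_aut (hSa i)
  -- the first lines
  have hS₁ : ∀ i : ℕ, ∃ (S₁ S₁' : E → E) (e₁ : E), GAut S₁ S₁' ∧ ‖e₁‖ = 1 ∧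
      ∀ h : i < m, S₁ = S ⟨i, h⟩ ∧ e₁ = e ⟨i, h⟩ := by
    intro i
    by_cases h : i < m
    · exact ⟨S ⟨i, h⟩, S' ⟨i, h⟩, e ⟨i, h⟩, hS _, he _, fun _ => ⟨rfl, rfl⟩⟩
    · obtain ⟨e₀, he₀⟩ := exists_norm_eq E (zero_le_one : (0 : ℝ) ≤ 1)
      exact ⟨_, _, e₀, GAut.id, he₀, fun h' => absurd h' h⟩
  choose S₁ S₁' e₁ hS₁g he₁ hS₁e using hS₁
  refine lines_step (S := S₁) (S' := S₁') (e := e₁) hS₁g he₁ hη₁ hη₁1 hε hη₁ε hη₁ρ m _
    inter_subset_left ?_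
  intro D₁ hD₁ hosc₁
  have hosc₁' : ∀ i, ∀ w ∈ D₁, ∀ w' ∈ D₁,
      ‖mob (e i) (-⟪e i, S i w⟫_ℂ) (S i w') - mob (e i) (-⟪e i, S i w⟫_ℂ) (S i w)‖ < ε ∧
      w' ∈ lineCell (e i) ρ (S i) w := by
    intro i w hw w' hw'
    have h1 := hosc₁ i i.2 w hw w' hw'
    rw [(hS₁e i i.2).1, (hS₁e i i.2).2] at h1
    exact h1
  rcases D₁.eq_empty_or_nonempty with rfl | ⟨z₀, hz₀⟩
  · exact mixed_empty
  have hz₀b : z₀ ∈ ball (0 : E) 1 := (hD₁ hz₀).1
  -- the coordinates `W i` and the points `a i`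
  obtain ⟨W, hW⟩ : ∃ W : Fin m → E → E, W = fun i w => mob (e i) (-⟪e i, S i z₀⟫_ℂ) (S i w) :=
    ⟨_, rfl⟩
  obtain ⟨W', hW'⟩ : ∃ W' : Fin m → E → E,
      W' = fun i w => S' i (mob (e i) (-(-⟪e i, S i z₀⟫_ℂ)) w) := ⟨_, rfl⟩
  have hWg : ∀ i, GAut (W i) (W' i) := fun i => by
    rw [hW, hW']; exact base_gaut (hS i) (he i) hz₀b
  obtain ⟨a, ha⟩ : ∃ a : Fin (m + 1) → E, a = Fin.cons 0 fun i => W' i 0 := ⟨_, rfl⟩
  have ha0 : a 0 = 0 := by rw [ha, Fin.cons_zero]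
  have has : ∀ i : Fin m, a i.succ = W' i 0 := fun i => by rw [ha, Fin.cons_succ]
  have hab : ∀ i, a i ∈ ball (0 : E) 1 := by
    intro i
    refine Fin.cases ?_ (fun i => ?_) i
    · rw [ha0]; exact zero_mem
    · rw [has]; exact (hWg i).aut.map' 0 zero_mem
  -- the second lines
  choose R R' d hR hd hRa hRb using fun q : Fin ((m + 1) * (m + 1)) =>
    exists_line2 (b := a (finProdFinEquiv.symm q).2) (hab (finProdFinEquiv.symm q).1)
  have hS₂ : ∀ i : ℕ, ∃ (S₂ S₂' : E → E) (e₂ : E), GAut S₂ S₂' ∧ ‖e₂‖ = 1 ∧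
      ∀ h : i < (m + 1) * (m + 1), S₂ = R ⟨i, h⟩ ∧ e₂ = d ⟨i, h⟩ := by
    intro i
    by_cases h : i < (m + 1) * (m + 1)
    · exact ⟨R ⟨i, h⟩, R' ⟨i, h⟩, d ⟨i, h⟩, hR _, hd _, fun _ => ⟨rfl, rfl⟩⟩
    · obtain ⟨e₀, he₀⟩ := exists_norm_eq E (zero_le_one : (0 : ℝ) ≤ 1)
      exact ⟨_, _, e₀, GAut.id, he₀, fun h' => absurd h' h⟩
  choose S₂ S₂' e₂ hS₂g he₂ hS₂e using hS₂
  refine lines_step (S := S₂) (S' := S₂') (e := e₂) hS₂g he₂ hη₁ hη₁1 hε hη₁ε hη₁ρ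
    ((m + 1) * (m + 1)) _ (fun z hz => (hD₁ hz).1) ?_
  intro D₂ hD₂ hosc₂
  have hosc₂' : ∀ i, ∀ w ∈ D₂, ∀ w' ∈ D₂,
      ‖mob (d i) (-⟪d i, R i w⟫_ℂ) (R i w') - mob (d i) (-⟪d i, R i w⟫_ℂ) (R i w)‖ < ε := by
    intro i w hw w' hw'
    have h1 := (hosc₂ i i.2 w hw w' hw').1
    rw [(hS₂e i i.2).1, (hS₂e i i.2).2] at h1
    exact h1
  rcases D₂.eq_empty_or_nonempty with rfl | ⟨z₁, hz₁⟩
  · exact mixed_empty
  have hz₁D₁ : z₁ ∈ D₁ := hD₂ hz₁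
  have hz₁b : z₁ ∈ ball (0 : E) 1 := (hD₁ hz₁D₁).1
  have hz₁l : ‖z₁ - l‖ < r / 2 := by
    have := (hD₁ hz₁D₁).2
    rwa [mem_ball, dist_eq_norm] at this
  -- the closest projection
  obtain ⟨V, hV⟩ : ∃ V : Fin ((m + 1) * (m + 1)) → ℝ,
      V = fun i => ‖mob (d i) (-⟪d i, R i z₁⟫_ℂ) (R i z₁)‖ := ⟨_, rfl⟩
  have hne : (Finset.univ : Finset (Fin ((m + 1) * (m + 1)))).Nonempty :=
    ⟨⟨0, by positivity⟩, Finset.mem_univ _⟩
  obtain ⟨q, -, hq⟩ := Finset.exists_min_image Finset.univ V hne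
  obtain ⟨T, hT⟩ : ∃ T : E → E, T = fun w => mob (d q) (-⟪d q, R q z₁⟫_ℂ) (R q w) := ⟨_, rfl⟩
  obtain ⟨T', hT'⟩ : ∃ T' : E → E, T' = fun w => R' q (mob (d q) (-(-⟪d q, R q z₁⟫_ℂ)) w) :=
    ⟨_, rfl⟩
  have hTg : GAut T T' := by rw [hT, hT']; exact base_gaut (hR q) (hd q) hz₁b
  obtain ⟨x, hx⟩ : ∃ x, x = T z₁ := ⟨_, rfl⟩
  have hxb : x ∈ ball (0 : E) 1 := by rw [hx]; exact hTg.aut.map z₁ hz₁b
  have hVq : V q = ‖x‖ := by rw [hV, hx, hT]
  obtain ⟨j, hj⟩ : ∃ j, j = (finProdFinEquiv.symm q).2 := ⟨_, rfl⟩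
  -- `x` is orthogonal to `T (a j)`
  have hxj : ⟪x, T (a j)⟫_ℂ = 0 := by
    obtain ⟨s, hs⟩ := hRb q
    rw [← hj] at hs
    obtain ⟨s', hs'⟩ := base_line (z := z₁) (hd q) hs
    rw [hx, hT]
    simp only
    rw [hs', inner_smul_right, ← inner_conj_symm, base_orth (hd q), map_zero, mul_zero]
  -- separation from the points `T (a i)`
  have hsep : ∀ i, 1 / 100 ≤ ‖1 - ⟪x, T (a i)⟫_ℂ‖ := by
    intro i
    have hyb : T (a j) + ((9 / 10 : ℂ)) • (T (a i) - T (a j)) ∈ ball (0 : E) 1 := by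
      have h1 := mem_ball_zero_iff.mp (hTg.aut.map _ (hab i))
      have h2 := mem_ball_zero_iff.mp (hTg.aut.map _ (hab j))
      rw [mem_ball_zero_iff]
      have h3 : T (a j) + ((9 / 10 : ℂ)) • (T (a i) - T (a j)) =
          ((9 / 10 : ℝ) : ℂ) • T (a i) + ((1 / 10 : ℝ) : ℂ) • T (a j) := by
        push_cast; module
      rw [h3]
      refine (norm_add_le _ _).trans_lt ?_
      rw [norm_smul, norm_smul, Complex.norm_real, Complex.norm_real,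
        Real.norm_of_nonneg (by norm_num), Real.norm_of_nonneg (by norm_num)]
      linarith
    refine sep_of_max (β := T (a j)) (y := T (a j) + ((9 / 10 : ℂ)) • (T (a i) - T (a j)))
      (mem_ball_zero_iff.mp hxb).le (mem_ball_zero_iff.mp (hTg.aut.map _ (hab i))).le
      (mem_ball_zero_iff.mp (hTg.aut.map _ (hab j))).le hxj rfl ?_
    -- the point on the line through `a i` and `a j`
    obtain ⟨y, hy⟩ : ∃ y, y = T (a j) + ((9 / 10 : ℂ)) • (T (a i) - T (a j)) := ⟨_, rfl⟩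
    rw [← hy] at hyb ⊢
    have hy'b : T' y ∈ ball (0 : E) 1 := hTg.aut.map' y hyb
    obtain ⟨q', hq'⟩ : ∃ q', q' = finProdFinEquiv (i, j) := ⟨_, rfl⟩
    have hq'1 : (finProdFinEquiv.symm q').1 = i := by rw [hq', Equiv.symm_apply_apply]
    have hq'2 : (finProdFinEquiv.symm q').2 = j := by rw [hq', Equiv.symm_apply_apply]
    have hline : ∃ s : ℂ, R q' (T' y) = s • d q' := by
      have hc := (hTg.symm.comp (hR q')).line (T (a j)) (hTg.aut.map _ (hab j)) (T (a i))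
        (hTg.aut.map _ (hab i)) (9 / 10) (by rw [← hy]; exact hyb)
      rw [← hy] at hc
      obtain ⟨s, hs⟩ := hc
      rw [hTg.aut.left _ (hab j), hTg.aut.left _ (hab i)] at hs
      obtain ⟨s₁, hs₁⟩ := hRa q'
      obtain ⟨s₂, hs₂⟩ := hRb q'
      rw [hq'1] at hs₁
      rw [hq'2] at hs₂
      exact ⟨s₂ + s * (s₁ - s₂), by rw [hs, hs₁, hs₂]; module⟩
    have h1 := sg_le_proj (hR q') (hd q') hz₁b hy'b hline
    have h2 : 1 - ‖mob (d q') (-⟪d q', R q' z₁⟫_ℂ) (R q' z₁)‖ ^ 2 ≤ 1 - ‖x‖ ^ 2 := by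
      have h3 := hq q' (Finset.mem_univ _)
      rw [hVq, hV] at h3
      have := pow_le_pow_left₀ (norm_nonneg _) h3 2
      linarith
    have h3 := hTg.sg hz₁b hy'b
    rw [hTg.aut.right y hyb, ← hx] at h3
    rw [← h3, SK.sg] at h1
    have h4 := h1.trans h2
    have h5 : 0 < ‖1 - ⟪x, y⟫_ℂ‖ ^ 2 := by
      have := norm_pos_iff.mpr (one_sub_ne hxb hyb)
      positivity
    rw [div_le_iff₀ h5] at h4
    exact le_of_mul_le_mul_left h4 (sq_lt_one hxb)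
  -- separation from the lines
  have hsepl : ∀ b ∈ skeleton S e ∩ ball (0 : E) 1,
      1 / 400 ≤ ‖1 - ⟪x, T b⟫_ℂ‖ := by
    rintro b ⟨⟨i, t, hb⟩, hbb⟩
    have hWa : W i (a i.succ) = 0 := by rw [has]; exact (hWg i).aut.right 0 zero_mem
    have hWb : ∃ s : ℂ, W i b = s • e i := by
      rw [hW]
      exact base_line (he i) hb
    have h1 : ‖⟪W i z₁, W i b⟫_ℂ‖ ≤ 1 / 2 := by
      obtain ⟨s, hs⟩ := hWb
      have h2 : ‖s‖ ≤ 1 := by
        have := mem_ball_zero_iff.mp ((hWg i).aut.map b hbb)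
        rw [hs, norm_smul, he i, mul_one] at this
        exact this.le
      have h3 : ⟪W i z₁, e i⟫_ℂ = ⟪W i z₁ - W i z₀, e i⟫_ℂ := by
        rw [inner_sub_left]
        have : ⟪W i z₀, e i⟫_ℂ = 0 := by
          rw [hW, ← inner_conj_symm]
          simp only
          rw [base_orth (he i), map_zero]
        rw [this, sub_zero]
      have h4 : ‖W i z₁ - W i z₀‖ < ε := by
        rw [hW]
        exact (hosc₁' i z₀ hz₀ z₁ hz₁D₁).1
      rw [hs, inner_smul_right, norm_mul, h3]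
      have h5 := norm_inner_le_norm (𝕜 := ℂ) (W i z₁ - W i z₀) (e i)
      rw [he i, mul_one] at h5
      calc ‖s‖ * ‖⟪W i z₁ - W i z₀, e i⟫_ℂ‖ ≤ 1 * ε := by
            apply mul_le_mul h2 (h5.trans h4.le) (norm_nonneg _) zero_le_one
        _ ≤ 1 / 2 := by linarith
    obtain ⟨t₀, ht₀⟩ : ∃ t₀, t₀ = T' 0 := ⟨_, rfl⟩
    have ht₀b : t₀ ∈ ball (0 : E) 1 := by rw [ht₀]; exact hTg.aut.map' 0 zero_mem
    have hTt₀ : T t₀ = 0 := by rw [ht₀]; exact hTg.aut.right 0 zero_mem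
    have h2 := sep_line hTg (hWg i) ht₀b (hab i.succ) hz₁b hbb hTt₀ hWa h1
    rw [← hx] at h2
    have h3 := hsep i.succ
    linarith
  -- points near the piece, in the coordinates given by `T`
  have hnear : ∀ s ∈ T '' D₂, ∀ z ∈ ball (0 : E) 1 ∩ ball s η₁, ‖z - x‖ < η₁ + ε := by
    rintro _ ⟨w, hw, rfl⟩ z ⟨-, hz⟩
    rw [mem_ball, dist_eq_norm] at hz
    have h1 : ‖T w - x‖ < ε := by
      rw [hx, hT]
      exact hosc₂' q z₁ hz₁ w hw
    calc ‖z - x‖ = ‖(z - T w) + (T w - x)‖ := by congr 1; abel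
      _ ≤ ‖z - T w‖ + ‖T w - x‖ := norm_add_le _ _
      _ < η₁ + ε := by linarith
  have hmove : ∀ z ∈ ball (0 : E) 1, ‖z - x‖ < η₁ + ε → ∀ y : E, ‖y‖ ≤ 1 → ∀ c : ℝ,
      c ≤ ‖1 - ⟪x, y⟫_ℂ‖ → c - 1 / 800 ≤ ‖1 - ⟪z, y⟫_ℂ‖ := by
    intro z _ hzx y hy c hc
    have h1 : 1 - ⟪x, y⟫_ℂ = (1 - ⟪z, y⟫_ℂ) + ⟪z - x, y⟫_ℂ := by rw [inner_sub_left]; ring
    have h2 := norm_inner_le_norm (𝕜 := ℂ) (z - x) y
    have h3 : ‖z - x‖ * ‖y‖ ≤ ‖z - x‖ * 1 := mul_le_mul_of_nonneg_left hy (norm_nonneg _)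
    rw [h1] at hc
    have h4 := norm_add_le (1 - ⟪z, y⟫_ℂ) ⟪z - x, y⟫_ℂ
    linarith
  -- they are close to `l`
  have hloc : ∀ z ∈ ball (0 : E) 1, ‖z - x‖ < η₁ + ε → T' z ∈ ball (0 : E) 1 ∩ ball l r := by
    intro z hz hzx
    refine ⟨hTg.aut.map' z hz, ?_⟩
    obtain ⟨o, ho⟩ : ∃ o, o = T 0 := ⟨_, rfl⟩
    have hob : o ∈ ball (0 : E) 1 := by rw [ho]; exact hTg.aut.map 0 zero_mem
    have hT'o : T' o = 0 := by rw [ho]; exact hTg.aut.left 0 zero_mem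
    have h1 : 1 / 100 ≤ ‖1 - ⟪x, o⟫_ℂ‖ := by
      have := hsep 0
      rwa [ha0, ← ho] at this
    have h2 := hmove z hz hzx o (mem_ball_zero_iff.mp hob).le _ h1
    have hsym : ∀ y : E, ‖1 - ⟪o, y⟫_ℂ‖ = ‖1 - ⟪y, o⟫_ℂ‖ := by
      intro y
      rw [← RCLike.norm_conj, map_sub, map_one, inner_conj_symm]
    have h3 := lip_away hTg.symm hob hT'o (c := 1 / 200) (by norm_num) (by norm_num) hz hxb
      (by rw [hsym]; linarith) (by rw [hsym]; linarith)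
    have hT'x : T' x = z₁ := by rw [hx]; exact hTg.aut.left z₁ hz₁b
    rw [hT'x] at h3
    norm_num at h3
    rw [mem_ball, dist_eq_norm]
    calc ‖T' z - l‖ = ‖(T' z - z₁) + (z₁ - l)‖ := by congr 1; abel
      _ ≤ ‖T' z - z₁‖ + ‖z₁ - l‖ := norm_add_le _ _
      _ < r := by linarith
  -- the slow functions
  obtain ⟨u, hu⟩ : ∃ u : ℕ → E → ℂ, u = fun i => if h : i < K then
      (fun z => g ⟨i, h⟩ (T' z)) else fun _ => 0 := ⟨_, rfl⟩
  have hslow : ∀ i, IsSlowNear (fun t => ω (min 1 (1280000 * t))) η₁ (T '' D₂) (u i) := by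
    have hzero : IsSlowNear (fun t => ω (min 1 (1280000 * t))) η₁ (T '' D₂) fun _ : E => (0 : ℂ) := by
      refine ⟨differentiableOn_const _, fun z _ => by simp, fun s _ z hz => ?_⟩
      simp only [fderiv_fun_const, Pi.zero_apply, _root_.zero_apply, norm_zero, mul_zero]
      have h1 := mem_ball_zero_iff.mp hz.1
      exact (hω.pos _ ⟨lt_min one_pos (by linarith), min_le_left _ _⟩).le
    intro i
    rw [hu]
    by_cases h : i < K
    · simp only [h, dite_true]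
      have hgi := hgd ⟨i, h⟩
      refine ⟨hgi.comp hTg.aut.hol' hTg.aut.map', fun z hz => hgM _ _ (hTg.aut.map' z hz), ?_⟩
      intro s hs z hz
      have hzx := hnear s hs z hz
      have hT'z := hloc z hz.1 hzx
      obtain ⟨φ, ψ, hφ, hφ0, b, hbF, hbd⟩ := hgf ⟨i, h⟩ _ hT'z
      have hgr := grad_inv hφ hTg hgi hφ0
      rw [hTg.aut.right z hz.1] at hgr
      have hbd2 : 1 - ‖ψ b‖ ^ 2 = sg (T' z) b := sg_of_aut hφ hφ0 hbF.2
      have h2 : sg (T' z) b = sg z (T b) := by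
        have := hTg.sg hT'z.1 hbF.2
        rw [hTg.aut.right z hz.1] at this
        exact this.symm
      have hTb := hTg.aut.map b hbF.2
      have h3 : 1 / 800 ≤ ‖1 - ⟪z, T b⟫_ℂ‖ := by
        have := hmove z hz.1 hzx (T b) (mem_ball_zero_iff.mp hTb).le _ (hsepl b hbF)
        linarith
      have hz1 := mem_ball_zero_iff.mp hz.1
      have h4 : sg z (T b) ≤ 1280000 * (1 - ‖z‖) := by
        have h5 : 0 < ‖1 - ⟪z, T b⟫_ℂ‖ ^ 2 := by positivity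
        rw [sg, div_le_iff₀ h5]
        have h6 : (1 / 800 : ℝ) ^ 2 ≤ ‖1 - ⟪z, T b⟫_ℂ‖ ^ 2 :=
          pow_le_pow_left₀ (by norm_num) h3 2
        have h7 : (1 - ‖z‖ ^ 2) * (1 - ‖T b‖ ^ 2) ≤ (2 * (1 - ‖z‖)) * 1 := by
          apply mul_le_mul
          · nlinarith [norm_nonneg z]
          · nlinarith [sq_nonneg ‖T b‖]
          · exact (sq_lt_one hTb).le
          · linarith
        calc (1 - ‖z‖ ^ 2) * (1 - ‖T b‖ ^ 2) ≤ 2 * (1 - ‖z‖) := by linarith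
          _ = 1280000 * (1 - ‖z‖) * (1 / 800) ^ 2 := by ring
          _ ≤ _ := mul_le_mul_of_nonneg_left h6 (by linarith)
      have hψb := sq_lt_one (hφ.map' b hbF.2)
      have h5 : ω (1 - ‖ψ b‖ ^ 2) ≤ ω (min 1 (1280000 * (1 - ‖z‖))) := by
        apply hω.mono ⟨hψb, by nlinarith [sq_nonneg ‖ψ b‖]⟩
          ⟨lt_min one_pos (by linarith), min_le_left _ _⟩
        apply le_min
        · nlinarith [sq_nonneg ‖ψ b‖]
        · rw [hbd2, h2]; exact h4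
      exact (hgr.trans hbd).trans h5
    · simp only [h, dite_false]
      exact hzero
  refine slow_step (T := T) (T' := T') (u := u) hTg.aut K _ hslow ?_
  intro D₃ hD₃ hosc₃
  rcases D₃.eq_empty_or_nonempty with rfl | ⟨b, hb⟩
  · exact mixed_empty
  have hD₃l : ∀ z ∈ D₃, z ∈ ball (0 : E) 1 ∩ ball l r := fun z hz =>
    ⟨(hD₁ (hD₂ (hD₃ hz))).1, ball_subset_ball (by linarith) (hD₁ (hD₂ (hD₃ hz))).2⟩
  refine SolvableOn.mono (hsol b (hD₃l b hb)) fun z hz => ⟨hD₃l z hz, fun i =>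
    (hosc₁' i b (hD₂ (hD₃ hb)) z (hD₂ (hD₃ hz))).2, fun k => ?_⟩
  have h1 := hosc₃ k k.2 z hz b hb
  rw [hu] at h1
  simp only [k.2, dite_true, Fin.eta] at h1
  rw [hTg.aut.left z (hD₃l z hz).1, hTg.aut.left b (hD₃l b hb).1] at h1
  linarith

/-- Localization to the pieces cut out by finitely many lines and by functions whose invariant
gradient decays away from these lines. -/
theorem skel_loc [FiniteDimensional ℂ E] (hn : 2 ≤ Module.finrank ℂ E) (N : ℕ) (M δ : ℝ)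
    (hδ : 0 < δ) (m K : E → ℕ) (r ρ C : E → ℝ) (ω : E → ℝ → ℝ) (hr : ∀ l, 0 < r l)
    (hρ : ∀ l, 0 < ρ l) (hω : ∀ l, IsRate (ω l)) : ∃ C' : ℝ, ∀ f : Fin N → E → ℂ,
      (∀ j, DifferentiableOn ℂ (f j) (ball 0 1)) →
      (∀ j, ∀ z ∈ ball (0 : E) 1, ‖f j z‖ ≤ M) →
      (∀ z ∈ ball (0 : E) 1, δ ≤ ∑ j, ‖f j z‖ ^ 2) →
      (∀ l ∈ sphere (0 : E) 1, ∃ (φ ψ : Fin (m l) → E → E) (e : Fin (m l) → E)
        (g : Fin (K l) → E → ℂ), (∀ i, ‖e i‖ = 1 ∧ IsBallAut (φ i) (ψ i)) ∧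
        (∀ k, DifferentiableOn ℂ (g k) (ball 0 1) ∧ (∀ z ∈ ball (0 : E) 1, ‖g k z‖ ≤ 1) ∧
          ∀ z ∈ ball (0 : E) 1 ∩ ball l (r l),
            DecayBound (ω l) (skeleton φ e) (g k) z) ∧
        ∀ b ∈ ball (0 : E) 1 ∩ ball l (r l),
          SolvableOn f (ball 0 1 ∩ ball l (r l) ∩ skelPiece φ e g (ρ l) b) (C l)) →
      SolvableOn f (ball 0 1) C' := by
  have _ : Nontrivial E := Module.nontrivial_of_finrank_pos (R := ℂ) (by omega)
  obtain ⟨ε, hε⟩ : ∃ ε : E → ℝ, ε = fun l => min (1 / 1600) (r l / 400000) := ⟨_, rfl⟩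
  have hε0 : ∀ l, 0 < ε l := fun l => by
    rw [hε]
    have := hr l
    exact lt_min (by norm_num) (by positivity)
  have hε1 : ∀ l, ε l ≤ 1 / 1600 := fun l => by rw [hε]; exact min_le_left _ _
  have hεr : ∀ l, 400000 * ε l ≤ r l := fun l => by
    have : ε l ≤ r l / 400000 := by rw [hε]; exact min_le_right _ _
    linarith
  obtain ⟨η₁, hη₁⟩ : ∃ η₁ : E → ℝ, η₁ = fun l => min (ε l ^ 2 / 144) (ρ l / 16) := ⟨_, rfl⟩
  have hη₁0 : ∀ l, 0 < η₁ l := fun l => by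
    rw [hη₁]
    have := hε0 l
    have := hρ l
    exact lt_min (by positivity) (by positivity)
  have hη₁a : ∀ l, 144 * η₁ l ≤ ε l ^ 2 := fun l => by
    have : η₁ l ≤ ε l ^ 2 / 144 := by rw [hη₁]; exact min_le_left _ _
    linarith
  have hη₁b : ∀ l, η₁ l ≤ ε l := fun l => by
    have h1 := hη₁a l
    have h2 := hε0 l
    have h3 := hε1 l
    nlinarith
  have hη₁c : ∀ l, 16 * η₁ l ≤ ρ l := fun l => by
    have : η₁ l ≤ ρ l / 16 := by rw [hη₁]; exact min_le_right _ _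
    linarith
  obtain ⟨C', hC'⟩ := MX.mixed_depth discCorona hn N M δ hδ
    (fun l => 0 + K l + (m l + 1) * (m l + 1) + m l) η₁ (fun l => r l / 2) C
    (fun l t => ω l (min 1 (1280000 * t))) hη₁0 (fun l => half_pos (hr l))
    (fun l => isRate_scale (hω l) (by norm_num))
  refine ⟨C', fun f hf hfM hfδ hfl => hC' f hf hfM hfδ fun l hl => ?_⟩
  obtain ⟨φ, ψ, e, g, hφ, hg, hsol⟩ := hfl l hl
  refine skel_local (hω l) (hε0 l) (hε1 l) (hεr l) (hη₁0 l) ?_ (hη₁a l) (hη₁b l) (hη₁c l)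
    (fun i => (hφ i).2) (fun i => (hφ i).1) (fun k => (hg k).1) (fun k => (hg k).2.1)
    (fun k => (hg k).2.2) hsol
  have h1 := hη₁b l
  have h2 := hε1 l
  linarith

/-- The corona theorem for data which are nearly one-dimensional on the pieces. -/
theorem skel_one_dim [FiniteDimensional ℂ E] (hn : 2 ≤ Module.finrank ℂ E) (N d : ℕ) (M δ : ℝ)
    (hδ : 0 < δ) : ∃ η : ℝ, 0 < η ∧ ∀ (m K : E → ℕ) (r ρ : E → ℝ) (ω : E → ℝ → ℝ),
    (∀ l, 0 < r l) → (∀ l, 0 < ρ l) → (∀ l, IsRate (ω l)) →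
    ∃ C' : ℝ, ∀ f : Fin N → E → ℂ, (∀ j, DifferentiableOn ℂ (f j) (ball 0 1)) →
      (∀ j, ∀ z ∈ ball (0 : E) 1, ‖f j z‖ ≤ M) →
      (∀ z ∈ ball (0 : E) 1, δ ≤ ∑ j, ‖f j z‖ ^ 2) →
      (∀ l ∈ sphere (0 : E) 1, ∃ (φ ψ : Fin (m l) → E → E) (e : Fin (m l) → E)
        (g : Fin (K l) → E → ℂ), (∀ i, ‖e i‖ = 1 ∧ IsBallAut (φ i) (ψ i)) ∧
        (∀ k, DifferentiableOn ℂ (g k) (ball 0 1) ∧ (∀ z ∈ ball (0 : E) 1, ‖g k z‖ ≤ 1) ∧
          ∀ z ∈ ball (0 : E) 1 ∩ ball l (r l),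
            DecayBound (ω l) (skeleton φ e) (g k) z) ∧
        ∀ b ∈ ball (0 : E) 1 ∩ ball l (r l),
          NearlyOneDim f (ball 0 1 ∩ ball l (r l) ∩ skelPiece φ e g (ρ l) b) d M η) →
      SolvableOn f (ball 0 1) C' := by
  obtain ⟨η, hη, C, hC⟩ := piece_poly (E := E) N d M δ hδ
  refine ⟨η, hη, fun m K r ρ ω hr hρ hω => ?_⟩
  obtain ⟨C', hC'⟩ := skel_loc hn N M δ hδ m K r ρ (fun _ => C) ω hr hρ hω
  refine ⟨C', fun f hf hfM hfδ hfl => hC' f hf hfM hfδ fun l hl => ?_⟩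
  obtain ⟨φ, ψ, e, g, hφ, hg, hdim⟩ := hfl l hl
  refine ⟨φ, ψ, e, g, hφ, hg, fun b hb => ?_⟩
  exact hC f _ (fun j => (hf j).mono fun z hz => hz.1.1) (fun z hz => hfδ z hz.1.1) (hdim b hb)

end Pool.Agent.MPca0fc2.SK
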