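import Mathlib
import Pool.Agent.Lib.MP_ca0fc2_an.SkMain
import Pool.Agent.Lib.MP_ca0fc2_an.SLCor

set_option autoImplicit false

open Metric Set MeasureTheory Filter Topology
open scoped InnerProductSpace ComplexConjugate

namespace Pool.Agent.MPca0fc2.SK

open Pool.Agent.Lib.MP_ca0fc2_an

variable {E : Type*} [NormedAddCommGroup E] [InnerProductSpace ℂ E]

theorem decay_const_mul {ω : ℝ → ℝ} {F : Set E} {g : E → ℂ} {z : E} {c : ℂ} (hc : ‖c‖ ≤ 1)
    (hg : DifferentiableOn ℂ g (ball 0 1)) (h : DecayBound ω F g z) :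
    DecayBound ω F (fun w => c * g w) z := by
  obtain ⟨φ, ψ, hφ, h0, a, ha, hb⟩ := h
  refine ⟨φ, ψ, hφ, h0, a, ha, ?_⟩
  have h1 : fderiv ℂ ((fun w => c * g w) ∘ φ) 0 = c • fderiv ℂ (g ∘ φ) 0 := by
    have : DifferentiableAt ℂ (g ∘ φ) 0 :=
      (hg.comp hφ.hol hφ.map).differentiableAt (isOpen_ball.mem_nhds zero_mem)
    exact fderiv_const_mul this _
  rw [h1, norm_smul]
  exact (mul_le_of_le_one_left (norm_nonneg _) hc).trans hb

/-- Data which are polynomials in one arbitrary function, the coefficients being functions whose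
invariant gradients decay away from finitely many complex lines. -/
theorem poly_decay [FiniteDimensional ℂ E] (hn : 2 ≤ Module.finrank ℂ E) (N d : ℕ) (M δ : ℝ)
    (hδ : 0 < δ) (hM : 1 ≤ M) : ∃ η : ℝ, 0 < η ∧ ∀ (m : E → ℕ) (r : E → ℝ) (ω : E → ℝ → ℝ),
    (∀ l, 0 < r l) → (∀ l, IsRate (ω l)) →
    ∃ C' : ℝ, ∀ f : Fin N → E → ℂ, (∀ j, DifferentiableOn ℂ (f j) (ball 0 1)) →
      (∀ j, ∀ z ∈ ball (0 : E) 1, ‖f j z‖ ≤ M) →
      (∀ z ∈ ball (0 : E) 1, δ ≤ ∑ j, ‖f j z‖ ^ 2) →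
      (∀ l ∈ sphere (0 : E) 1, ∃ (φ ψ : Fin (m l) → E → E) (e : Fin (m l) → E)
        (F : E → ℂ) (g : Fin N → Fin d → E → ℂ), (∀ i, ‖e i‖ = 1 ∧ IsBallAut (φ i) (ψ i)) ∧
        DifferentiableOn ℂ F (ball 0 1 ∩ ball l (r l)) ∧
        (∀ z ∈ ball (0 : E) 1 ∩ ball l (r l), ‖F z‖ ≤ 1) ∧
        (∀ j k, DifferentiableOn ℂ (g j k) (ball 0 1) ∧ (∀ z ∈ ball (0 : E) 1, ‖g j k z‖ ≤ M) ∧
          ∀ z ∈ ball (0 : E) 1 ∩ ball l (r l), DecayBound (ω l) (skeleton φ e) (g j k) z) ∧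
        ∀ j, ∀ z ∈ ball (0 : E) 1 ∩ ball l (r l),
          ‖f j z - ∑ k : Fin d, g j k z * F z ^ (k : ℕ)‖ ≤ η) →
      SolvableOn f (ball 0 1) C' := by
  obtain ⟨η, hη, h⟩ := skel_one_dim (E := E) hn N d M δ hδ
  have hd0 : (0 : ℝ) ≤ d := Nat.cast_nonneg _
  have hM0 : 0 < M := by linarith
  refine ⟨η / 2, by positivity, fun m r ω hr hω => ?_⟩
  obtain ⟨ρ, hρ⟩ : ∃ ρ : ℝ, ρ = η / (2 * (M * (d + 1))) := ⟨_, rfl⟩
  have hρ0 : 0 < ρ := by rw [hρ]; positivity
  have hρ1 : d * (M * ρ) ≤ η / 2 := by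
    rw [hρ, show (d : ℝ) * (M * (η / (2 * (M * (d + 1))))) = (d / (d + 1)) * (η / 2) by
      field_simp]
    have : (d : ℝ) / (d + 1) ≤ 1 := by rw [div_le_one (by positivity)]; linarith
    nlinarith
  obtain ⟨C', hC'⟩ := h m (fun _ => N * d) r (fun _ => ρ) ω hr (fun _ => hρ0) hω
  refine ⟨C', fun f hf hfM hfδ hfl => hC' f hf hfM hfδ fun l hl => ?_⟩
  obtain ⟨φ, ψ, e, F, g, hφ, hF, hF1, hg, hfg⟩ := hfl l hl
  obtain ⟨u, hu⟩ : ∃ u : Fin (N * d) → E → ℂ, u = fun q z =>
      (M : ℂ)⁻¹ * g (finProdFinEquiv.symm q).1 (finProdFinEquiv.symm q).2 z := ⟨_, rfl⟩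
  refine ⟨φ, ψ, e, u, hφ, fun q => ?_, fun b hb => ?_⟩
  · rw [hu]
    obtain ⟨h1, h2, h3⟩ := hg (finProdFinEquiv.symm q).1 (finProdFinEquiv.symm q).2
    refine ⟨h1.const_mul _, fun z hz => ?_, fun z hz => ?_⟩
    · rw [norm_mul, norm_inv, Complex.norm_real, Real.norm_of_nonneg hM0.le,
        inv_mul_le_iff₀ hM0, mul_one]
      exact h2 z hz
    · apply decay_const_mul _ h1 (h3 z hz)
      rw [norm_inv, Complex.norm_real, Real.norm_of_nonneg hM0.le]
      exact inv_le_one_of_one_le₀ hM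
  · refine ⟨F, fun j k => g j k b, hF.mono fun z hz => hz.1, fun z hz => hF1 z hz.1,
      fun j k => (hg j k).2.1 b hb.1, fun j z hz => ?_⟩
    have h1 := hfg j z hz.1
    have h2 : ‖(∑ k : Fin d, g j k z * F z ^ (k : ℕ)) - ∑ k : Fin d, g j k b * F z ^ (k : ℕ)‖ ≤
        d * (M * ρ) := by
      rw [← Finset.sum_sub_distrib]
      refine (norm_sum_le _ _).trans ?_
      calc ∑ k : Fin d, ‖g j k z * F z ^ (k : ℕ) - g j k b * F z ^ (k : ℕ)‖ ≤
            ∑ _k : Fin d, M * ρ := by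
            apply Finset.sum_le_sum
            intro k _
            have h3 := (hz.2.2 (finProdFinEquiv (j, k))).le
            rw [hu] at h3
            simp only [Equiv.symm_apply_apply] at h3
            rw [← mul_sub, norm_mul, norm_inv, Complex.norm_real, Real.norm_of_nonneg hM0.le,
              inv_mul_le_iff₀ hM0] at h3
            rw [← sub_mul, norm_mul, norm_pow]
            calc ‖g j k z - g j k b‖ * ‖F z‖ ^ (k : ℕ) ≤ (M * ρ) * 1 := by
                  apply mul_le_mul h3 (pow_le_one₀ (norm_nonneg _) (hF1 z hz.1)) (by positivity)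
                    (by positivity)
              _ = M * ρ := mul_one _
        _ = d * (M * ρ) := by rw [Finset.sum_const, nsmul_eq_mul, Finset.card_univ,
              Fintype.card_fin]
    calc ‖f j z - ∑ k : Fin d, g j k b * F z ^ (k : ℕ)‖ =
          ‖(f j z - ∑ k : Fin d, g j k z * F z ^ (k : ℕ)) +
            ((∑ k : Fin d, g j k z * F z ^ (k : ℕ)) - ∑ k : Fin d, g j k b * F z ^ (k : ℕ))‖ := by
          congr 1; ring
      _ ≤ η := by
          refine (norm_add_le _ _).trans ?_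
          linarith

theorem isRate_sqrt : IsRate Real.sqrt := by
  refine ⟨fun t ht => Real.sqrt_pos.mpr ht.1, fun s _ t _ h => Real.sqrt_le_sqrt h, ?_⟩
  intro c hc
  have := SL.integrableOn_exp_sqrt (c := c) (K := 1) hc one_pos
  simpa only [one_mul] using this

/-- A bounded holomorphic function of one linear coordinate: its invariant gradient decays away
from the corresponding complex line. -/
theorem ridge_decay {e : E} (he : ‖e‖ = 1) {G : ℂ → ℂ} (hG : DifferentiableOn ℂ G (ball 0 1))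
    (hG1 : ∀ x ∈ ball (0 : ℂ) 1, ‖G x‖ ≤ 1) {F : Set E} (hF : ∀ t : ℂ, t • e ∈ F) :
    ∀ z ∈ ball (0 : E) 1, DecayBound Real.sqrt F (fun w => G ⟪e, w⟫_ℂ) z := by
  intro z hz
  obtain ⟨x, hx⟩ : ∃ x, x = ⟪e, z⟫_ℂ := ⟨_, rfl⟩
  have hx1 : ‖x‖ < 1 := by rw [hx]; exact norm_inner_lt he hz
  have hζ : ‖-x‖ < 1 := by rwa [norm_neg]
  -- the coordinates in which the projection is the origin
  have hW : GAut (mob e (-x)) (mob e x) := by
    have := GAut.mob he hζ
    rwa [neg_neg] at this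
  obtain ⟨y, hy⟩ : ∃ y, y = mob e (-x) z := ⟨_, rfl⟩
  have hyb : y ∈ ball (0 : E) 1 := by rw [hy]; exact mob_mem he hζ hz
  have hye : ⟪e, y⟫_ℂ = 0 := by rw [hy, inner_mob he, ← hx, add_neg_cancel, zero_div]
  obtain ⟨d, s, hd, hs1, hyd, hsn, hde⟩ : ∃ (d : E) (s : ℝ), ‖d‖ = 1 ∧ ‖(s : ℂ)‖ < 1 ∧
      y = (s : ℂ) • d ∧ s = ‖y‖ ∧ (s = 0 ∨ ⟪e, d⟫_ℂ = 0) := by
    by_cases h0 : y = 0
    · exact ⟨e, 0, he, by simp, by rw [h0]; simp, by rw [h0, norm_zero], Or.inl rfl⟩
    · obtain ⟨d, hd, hyd⟩ := exists_unit h0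
      refine ⟨d, ‖y‖, hd, ?_, hyd, rfl, Or.inr ?_⟩
      · rw [Complex.norm_real, norm_norm]; exact mem_ball_zero_iff.mp hyb
      · rw [hyd, inner_smul_right] at hye
        exact (mul_eq_zero.mp hye).resolve_left (by exact_mod_cast norm_ne_zero_iff.mpr h0)
  have hV := (GAut.mob hd hs1).comp hW.symm
  refine ⟨_, _, hV.aut, ?_, x • e, ⟨hF x, smul_mem_ball' he (mem_ball_zero_iff.mpr hx1)⟩, ?_⟩
  · rw [mob_zero, ← hyd, hy]
    have := mob_inv he hζ hz
    rwa [neg_neg] at this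
  · -- the value of the distance
    have hxe : mob e (-x) (x • e) = 0 := by
      rw [mob_smul he, add_neg_cancel, zero_div, zero_smul]
    have hval : ‖mob d (-(s : ℂ)) (mob e (-x) (x • e))‖ = ‖y‖ := by
      rw [hxe, mob_zero, norm_smul, hd, mul_one, norm_neg, Complex.norm_real, hsn, norm_norm]
    rw [hval]
    -- the function in these coordinates
    obtain ⟨G', hG'⟩ : ∃ G' : ℂ → ℂ, G' = fun t => G ((t + x) / (1 + conj x * t)) := ⟨_, rfl⟩
    have hmap : ∀ t ∈ ball (0 : ℂ) 1, (t + x) / (1 + conj x * t) ∈ ball (0 : ℂ) 1 := by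
      intro t ht
      have h1 := mob_mem he hx1 (smul_mem_ball' he ht)
      have h2 := norm_inner_lt he h1
      rw [inner_mob he, inner_smul_right, inner_self_one he, mul_one] at h2
      exact mem_ball_zero_iff.mpr h2
    have hG'd : DifferentiableOn ℂ G' (ball 0 1) := by
      rw [hG']
      refine hG.comp ?_ hmap
      intro t ht
      refine DifferentiableAt.differentiableWithinAt ?_
      exact (differentiableAt_id.add_const _).div ((differentiableAt_id.const_mul _).const_add _)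
        (den_ne hx1 (mem_ball_zero_iff.mp ht))
    have hG'1 : ‖deriv G' 0‖ ≤ 1 := by
      have hmaps : MapsTo G' (ball 0 1) (closedBall 0 1) := by
        intro t ht
        rw [mem_closedBall_zero_iff, hG']
        exact hG1 _ (hmap t ht)
      -- Cauchy estimate on smaller discs
      apply le_of_forall_pos_le_add
      intro ε hε
      obtain ⟨q, hq0, hq1, hq2⟩ : ∃ q : ℝ, 0 < q ∧ q < 1 ∧ 1 / q ≤ 1 + ε := by
        refine ⟨1 / (1 + ε), by positivity, ?_, ?_⟩
        · rw [div_lt_one (by positivity)]; linarith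
        · rw [one_div_one_div]
      have h1 : DiffContOnCl ℂ G' (ball 0 q) := by
        apply DifferentiableOn.diffContOnCl
        rw [closure_ball _ hq0.ne']
        exact hG'd.mono (closedBall_subset_ball hq1)
      have h2 := Complex.norm_deriv_le_of_forall_mem_sphere_norm_le hq0 h1 (C := 1) (by
        intro t ht
        have := hmaps (sphere_subset_closedBall.trans (closedBall_subset_ball hq1) ht)
        rwa [mem_closedBall_zero_iff] at this)
      exact h2.trans hq2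
    have heq : ((fun w => G ⟪e, w⟫_ℂ) ∘ fun z => mob e x (mob d (s : ℂ) z)) =
        G' ∘ fun w => ⟪e, mob d (s : ℂ) w⟫_ℂ := by
      funext w
      simp only [Function.comp_apply, hG', inner_mob he]
    rw [heq]
    -- the inner function
    have hinner : HasFDerivAt (fun w => ⟪e, mob d (s : ℂ) w⟫_ℂ)
        ((Real.sqrt (1 - ‖y‖ ^ 2) : ℂ) • (innerSL ℂ e)) 0 := by
      have hsq : Lib.MP_ca0fc2_an.sq (s : ℂ) = Real.sqrt (1 - ‖y‖ ^ 2) := by
        rw [Lib.MP_ca0fc2_an.sq, Complex.norm_real, hsn, norm_norm]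
      rcases hde with h0 | h0
      · have h1 : ∀ w : E, mob d ((0 : ℝ) : ℂ) w = w := by
          intro w
          simp only [mob, Complex.ofReal_zero, map_zero, zero_mul, add_zero, inv_one, one_smul]
          have : Lib.MP_ca0fc2_an.sq (0 : ℂ) = 1 := by simp [Lib.MP_ca0fc2_an.sq]
          rw [this, Complex.ofReal_one, one_smul, dec_eq]
        rw [← hsn, h0]
        simp only [h1]
        norm_num
        exact (innerSL ℂ e).hasFDerivAt
      · have h1 : ∀ w : E, ⟪e, mob d (s : ℂ) w⟫_ℂ =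
            (Real.sqrt (1 - ‖y‖ ^ 2) : ℂ) * ⟪e, w⟫_ℂ * (1 + conj (s : ℂ) * ⟪d, w⟫_ℂ)⁻¹ := by
          intro w
          rw [mob, inner_smul_right, inner_add_right, inner_smul_right, inner_smul_right, h0,
            prj_apply, inner_sub_right, inner_smul_right, h0, hsq]
          ring
        simp_rw [h1]
        have h2 : HasFDerivAt (fun w => (Real.sqrt (1 - ‖y‖ ^ 2) : ℂ) * ⟪e, w⟫_ℂ)
            ((Real.sqrt (1 - ‖y‖ ^ 2) : ℂ) • (innerSL ℂ e)) 0 :=
          ((innerSL ℂ e).hasFDerivAt).const_mul _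
        have h3 : DifferentiableAt ℂ (fun w : E => (1 + conj (s : ℂ) * ⟪d, w⟫_ℂ)⁻¹) 0 := by
          apply DifferentiableAt.inv
          · exact (((innerSL ℂ d).differentiableAt).const_mul _).const_add _
          · simp
        have h4 := h2.mul h3.hasFDerivAt
        refine h4.congr_fderiv ?_
        ext v
        simp
    have hin0 : ⟪e, mob d (s : ℂ) 0⟫_ℂ = 0 := by rw [mob_zero, ← hyd, hye]
    have hG'0 : HasDerivAt G' (deriv G' 0) ⟪e, mob d (s : ℂ) 0⟫_ℂ := by
      rw [hin0]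
      exact (hG'd.differentiableAt (isOpen_ball.mem_nhds (mem_ball_self one_pos))).hasDerivAt
    have hcomp := hG'0.comp_hasFDerivAt (0 : E) hinner
    rw [hcomp.fderiv]
    rw [norm_smul, norm_smul, Complex.norm_real, Real.norm_of_nonneg (Real.sqrt_nonneg _),
      innerSL_apply_norm, he, mul_one]
    exact mul_le_of_le_one_left (Real.sqrt_nonneg _) hG'1

end Pool.Agent.MPca0fc2.SK
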