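import Mathlib
import Pool.Agent.Lib.MP_ca0fc2_an.MXAdd
import Pool.Agent.Lib.MP_ca0fc2_an.MXRad

set_option autoImplicit false

open Metric Set MeasureTheory Filter Topology
open scoped InnerProductSpace ENNReal

namespace Pool.Agent.MPca0fc2.MX

open Pool.Agent.MPca0fc2.PT

/-! ### the profile in the logarithmic variable -/

/-- the tangent of the profile -/
noncomputable def lT (x : ℝ) : ℝ := (1 - Real.exp (4 * x)) / (1 + Real.exp (4 * x))

/-- the profile in the logarithmic variable -/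
noncomputable def lH (x : ℝ) : ℝ := Real.exp (2 * x) / (1 + Real.exp (4 * x))

theorem lH_eq (x : ℝ) : lH x = ph (Real.exp x) := by
  unfold lH ph
  have h2 : Real.exp (2 * x) = Real.exp x ^ 2 := by rw [← Real.exp_nat_mul]; norm_num
  have h4 : Real.exp (4 * x) = Real.exp x ^ 4 := by rw [← Real.exp_nat_mul]; norm_num
  rw [h2, h4]

theorem lH_nonneg (x : ℝ) : 0 ≤ lH x := by unfold lH; positivity

theorem lH_le (x : ℝ) : lH x ≤ 1 := by rw [lH_eq]; exact ph_le _

theorem lT_abs (x : ℝ) : |lT x| ≤ 1 := by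
  have h := Real.exp_pos (4 * x)
  unfold lT
  rw [abs_div, abs_of_pos (show (0 : ℝ) < 1 + Real.exp (4 * x) by positivity),
    div_le_one (by positivity), abs_le]
  constructor <;> linarith

theorem lT_deriv (x : ℝ) : HasDerivAt lT (-2 * (1 - lT x ^ 2)) x := by
  have h0 : (1 : ℝ) + Real.exp (4 * x) ≠ 0 := by positivity
  have he : HasDerivAt (fun x : ℝ => Real.exp (4 * x)) (Real.exp (4 * x) * (4 * 1)) x :=
    (((hasDerivAt_id x).const_mul 4).exp)
  have h := (he.const_sub 1).div (he.const_add 1) h0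
  refine h.congr_deriv ?_
  unfold lT
  field_simp
  ring

theorem lH_deriv (x : ℝ) : HasDerivAt lH (2 * lH x * lT x) x := by
  have h0 : (1 : ℝ) + Real.exp (4 * x) ≠ 0 := by positivity
  have he : HasDerivAt (fun x : ℝ => Real.exp (4 * x)) (Real.exp (4 * x) * (4 * 1)) x :=
    (((hasDerivAt_id x).const_mul 4).exp)
  have he2 : HasDerivAt (fun x : ℝ => Real.exp (2 * x)) (Real.exp (2 * x) * (2 * 1)) x :=
    (((hasDerivAt_id x).const_mul 2).exp)
  have h := he2.div (he.const_add 1) h0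
  refine h.congr_deriv ?_
  unfold lH lT
  field_simp
  ring

theorem lH_deriv2 (x : ℝ) : HasDerivAt (fun x => 2 * lH x * lT x) (4 * lH x * (2 * lT x ^ 2 - 1)) x := by
  have h := ((lH_deriv x).const_mul 2).mul (lT_deriv x)
  refine h.congr_deriv ?_
  ring

/-- a multiple of a translate of the profile -/
noncomputable def lF (s : ℕ → ℝ) (j : ℕ) (x : ℝ) : ℝ := |s j| * lH (x + j * Real.log 2)

theorem lF_nonneg (s : ℕ → ℝ) (j : ℕ) (x : ℝ) : 0 ≤ lF s j x :=
  mul_nonneg (abs_nonneg _) (lH_nonneg _)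

theorem lF_le (s : ℕ → ℝ) (j : ℕ) (x : ℝ) : lF s j x ≤ |s j| := by
  unfold lF
  have h1 := lH_le (x + j * Real.log 2)
  have h2 := abs_nonneg (s j)
  nlinarith

theorem lF_deriv (s : ℕ → ℝ) (j : ℕ) (x : ℝ) : HasDerivAt (lF s j)
    (|s j| * (2 * lH (x + j * Real.log 2) * lT (x + j * Real.log 2))) x := by
  have h1 : HasDerivAt (fun x : ℝ => x + j * Real.log 2) 1 x := (hasDerivAt_id x).add_const _
  have h2 := ((lH_deriv (x + j * Real.log 2)).comp x h1).const_mul |s j|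
  refine h2.congr_deriv ?_
  ring

theorem lF_deriv2 (s : ℕ → ℝ) (j : ℕ) (x : ℝ) : HasDerivAt
    (fun x => |s j| * (2 * lH (x + j * Real.log 2) * lT (x + j * Real.log 2)))
    (|s j| * (4 * lH (x + j * Real.log 2) * (2 * lT (x + j * Real.log 2) ^ 2 - 1))) x := by
  have h1 : HasDerivAt (fun x : ℝ => x + j * Real.log 2) 1 x := (hasDerivAt_id x).add_const _
  have h2 := ((lH_deriv2 (x + j * Real.log 2)).comp x h1).const_mul |s j|
  refine h2.congr_deriv ?_
  ring

theorem lH_contDiff : ContDiff ℝ 2 lH := by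
  unfold lH
  refine ContDiff.div (by fun_prop) (by fun_prop) fun x => ?_
  positivity

theorem lF_contDiff (s : ℕ → ℝ) (j : ℕ) : ContDiff ℝ 2 (lF s j) :=
  contDiff_const.mul (lH_contDiff.comp (contDiff_id.add contDiff_const))

theorem lF_iter (s : ℕ → ℝ) (j : ℕ) (x : ℝ) (k : ℕ) (hk : k ≤ 2) :
    ‖iteratedFDeriv ℝ k (lF s j) x‖ ≤ 4 * |s j| := by
  have ha := abs_nonneg (s j)
  have h1 := lH_le (x + j * Real.log 2)
  have h0 := lH_nonneg (x + j * Real.log 2)
  have hT := lT_abs (x + j * Real.log 2)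
  have hd : deriv (lF s j) = fun x => |s j| * (2 * lH (x + j * Real.log 2) *
      lT (x + j * Real.log 2)) := by
    funext y
    exact (lF_deriv s j y).deriv
  rw [norm_iteratedFDeriv_eq_norm_iteratedDeriv]
  interval_cases k
  · rw [iteratedDeriv_zero, Real.norm_of_nonneg (lF_nonneg s j x)]
    have := lF_le s j x
    linarith
  · rw [iteratedDeriv_one, hd]
    simp only
    rw [Real.norm_eq_abs, abs_mul, abs_mul, abs_mul, abs_abs, abs_of_nonneg h0,
      abs_of_pos (show (0 : ℝ) < 2 by norm_num)]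
    have h3 : 2 * lH (x + j * Real.log 2) * |lT (x + j * Real.log 2)| ≤ 2 * 1 * 1 := by gcongr
    nlinarith
  · rw [iteratedDeriv_succ, iteratedDeriv_one, hd, (lF_deriv2 s j x).deriv]
    rw [Real.norm_eq_abs, abs_mul, abs_mul, abs_mul, abs_abs, abs_of_nonneg h0,
      abs_of_pos (show (0 : ℝ) < 4 by norm_num)]
    have h2 : |2 * lT (x + j * Real.log 2) ^ 2 - 1| ≤ 1 := by
      have h5 : lT (x + j * Real.log 2) ^ 2 ≤ 1 := by
        rw [← sq_abs]
        exact pow_le_one₀ (abs_nonneg _) hT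
      rw [abs_le]
      constructor <;> nlinarith [sq_nonneg (lT (x + j * Real.log 2))]
    have h3 : 4 * lH (x + j * Real.log 2) * |2 * lT (x + j * Real.log 2) ^ 2 - 1| ≤
      4 * 1 * 1 := by gcongr
    nlinarith

/-- the sum of the profiles -/
noncomputable def lS (s : ℕ → ℝ) (x : ℝ) : ℝ := ∑' j, lF s j x

theorem lS_nonneg (s : ℕ → ℝ) (x : ℝ) : 0 ≤ lS s x := tsum_nonneg fun j => lF_nonneg s j x

theorem lF_summable {s : ℕ → ℝ} (hs : Summable fun j => |s j|) (x : ℝ) :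
    Summable fun j => lF s j x :=
  Summable.of_nonneg_of_le (fun j => lF_nonneg s j x) (fun j => lF_le s j x) hs

theorem lS_contDiff {s : ℕ → ℝ} (hs : Summable fun j => |s j|) : ContDiff ℝ 2 (lS s) := by
  apply contDiff_tsum (v := fun _ j => 4 * |s j|) (fun j => lF_contDiff s j)
  · intro k _
    exact hs.mul_left 4
  · intro k j x hk
    exact lF_iter s j x k (by exact_mod_cast hk)

theorem lS_deriv {s : ℕ → ℝ} (hs : Summable fun j => |s j|) (x : ℝ) :
    ∃ D, HasDerivAt (lS s) D x ∧ |D| ≤ 2 * lS s x := by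
  have hb : ∀ j (y : ℝ), ‖|s j| * (2 * lH (y + j * Real.log 2) * lT (y + j * Real.log 2))‖ ≤
      2 * lF s j y := by
    intro j y
    rw [Real.norm_eq_abs, abs_mul, abs_mul, abs_mul, abs_abs,
      abs_of_nonneg (lH_nonneg (y + j * Real.log 2)), abs_of_pos (show (0 : ℝ) < 2 by norm_num)]
    unfold lF
    have h1 := lT_abs (y + j * Real.log 2)
    have h2 := lH_nonneg (y + j * Real.log 2)
    have h3 := abs_nonneg (s j)
    calc |s j| * (2 * lH (y + j * Real.log 2) * |lT (y + j * Real.log 2)|) ≤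
          |s j| * (2 * lH (y + j * Real.log 2) * 1) := by gcongr
      _ = _ := by ring
  have h := hasDerivAt_tsum (g := fun j y => lF s j y) (u := fun j => 2 * |s j|)
    (g' := fun j y => |s j| * (2 * lH (y + j * Real.log 2) * lT (y + j * Real.log 2)))
    (hs.mul_left 2) (fun j y => lF_deriv s j y)
    (fun j y => (hb j y).trans (by have := lF_le s j y; linarith)) (y₀ := x) (lF_summable hs x) x
  refine ⟨_, h, ?_⟩
  have h1 : Summable fun j => 2 * lF s j x := (lF_summable hs x).mul_left 2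
  have h2 := tsum_of_norm_bounded h1.hasSum (fun j => hb j x)
  rw [tsum_mul_left] at h2
  exact h2

variable {E : Type*} [NormedAddCommGroup E] [InnerProductSpace ℂ E]

/-- the radial potential with the values `s j` at the depth `2 ^ (-j)` -/
noncomputable def rads (E : Type*) [NormedAddCommGroup E] [InnerProductSpace ℂ E] (s : ℕ → ℝ) :
    Ptl E :=
  ⟨fun y => lS s (Real.log (1 - ‖y‖ ^ 2)), fun _ => 0, fun _ => lS_nonneg s _⟩

theorem rads_DD (s : ℕ → ℝ) (y : E) : DD (rads E s) y = 0 := rfl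

theorem lF_eq {s : ℕ → ℝ} {j : ℕ} {y : E} (hy : ‖y‖ < 1) :
    lF s j (Real.log (1 - ‖y‖ ^ 2)) = |s j| * EE (rad E ((1 / 2) ^ j)) y := by
  have ht : 0 < 1 - ‖y‖ ^ 2 := by nlinarith [norm_nonneg y]
  rw [lF, lH_eq, rad_EE]
  congr 2
  rw [Real.exp_add, Real.exp_log ht, Real.exp_nat_mul, Real.exp_log (by norm_num : (0 : ℝ) < 2),
    one_div, inv_pow, div_inv_eq_mul]

theorem rads_EE {s : ℕ → ℝ} {y : E} (hy : ‖y‖ < 1) :
    EE (rads E s) y = ∑' j, |s j| * EE (rad E ((1 / 2) ^ j)) y := by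
  change ∑' j, lF s j (Real.log (1 - ‖y‖ ^ 2)) = _
  exact tsum_congr fun j => lF_eq hy

theorem rads_sum {s : ℕ → ℝ} (hs : Summable fun j => |s j|) {y : E} (hy : ‖y‖ < 1) :
    Summable fun j => |s j| * EE (rad E ((1 / 2) ^ j)) y := by
  have h := lF_summable hs (Real.log (1 - ‖y‖ ^ 2))
  refine h.congr fun j => lF_eq hy

theorem rads_ge {s : ℕ → ℝ} (hs : Summable fun j => |s j|) {y : E} (hy : ‖y‖ < 1) {j : ℕ}
    (h1 : (1 / 2) ^ j ≤ 1 - ‖y‖ ^ 2) (h2 : 1 - ‖y‖ ^ 2 ≤ 2 * (1 / 2) ^ j) :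
    |s j| / 5 ≤ EE (rads E s) y := by
  rw [rads_EE hy]
  have h3 := (rads_sum hs hy).le_tsum j (fun i _ => mul_nonneg (abs_nonneg _) (EE_nonneg _ _))
  refine le_trans ?_ h3
  have h4 : (1 : ℝ) / 5 ≤ EE (rad E ((1 / 2) ^ j)) y := by
    rw [rad_EE]
    obtain ⟨x, hx⟩ : ∃ x, x = (1 - ‖y‖ ^ 2) / (1 / 2) ^ j := ⟨_, rfl⟩
    have hpos : (0 : ℝ) < (1 / 2) ^ j := by positivity
    have hx1 : 1 ≤ x := by rw [hx, le_div_iff₀ hpos]; linarith
    have hx2 : x ≤ 2 := by rw [hx, div_le_iff₀ hpos]; linarith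
    rw [← hx]
    unfold ph
    rw [div_le_div_iff₀ (by norm_num) (by positivity)]
    have e1 : 1 ≤ x ^ 2 := one_le_pow₀ hx1
    have e2 : x ^ 2 ≤ 4 := by nlinarith
    nlinarith
  have h5 := abs_nonneg (s j)
  calc |s j| / 5 = |s j| * (1 / 5) := by ring
    _ ≤ _ := by gcongr

theorem Carl.rads {s : ℕ → ℝ} (hs : Summable fun j => |s j|) :
    Carl (MX.rads E s) (∑' j, |s j|) where
  A0 := tsum_nonneg fun j => abs_nonneg _
  le := by
    intro y hy
    rw [rads_EE hy]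
    apply (rads_sum hs hy).tsum_le_tsum _ hs
    intro j
    have h1 := (Carl.rad (E := E) (c := (1 / 2) ^ j) (by positivity)).le y hy
    have h2 := abs_nonneg (s j)
    calc |s j| * EE (MX.rad E ((1 / 2) ^ j)) y ≤ |s j| * 1 := by gcongr
      _ = _ := mul_one _
  cmp := by
    intro x y hx hy
    rw [rads_EE hx, rads_EE hy, ← tsum_mul_right, ← tsum_mul_left]
    apply ((rads_sum hs hx).mul_right _).tsum_le_tsum _ ((rads_sum hs hy).mul_left _)
    intro j
    have h1 := (Carl.rad (E := E) (c := (1 / 2) ^ j) (by positivity)).cmp x y hx hy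
    have h2 := mul_le_mul_of_nonneg_left h1 (abs_nonneg (s j))
    linarith
  c2 := by
    have h3 : ContDiff ℝ 2 fun p : E => 1 - ‖p‖ ^ 2 := by
      have e : (fun p : E => 1 - ‖p‖ ^ 2) = fun p : E => 1 - Complex.reCLM ⟪p, p⟫_ℂ := by
        funext p
        have := inner_self_eq_norm_sq_to_K (𝕜 := ℂ) p
        rw [this]
        simp [← Complex.ofReal_pow]
      rw [e]
      exact contDiff_const.sub (Complex.reCLM.contDiff.comp (contDiff_id.inner ℂ contDiff_id))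
    have h4 : ContDiffOn ℝ 2 (fun y : E => Real.log (1 - ‖y‖ ^ 2)) (ball 0 1) := by
      apply h3.contDiffOn.log
      intro y hy
      rw [mem_ball_zero_iff] at hy
      nlinarith [norm_nonneg y]
    exact (lS_contDiff hs).comp_contDiffOn h4
  fd := by
    intro y hy x
    have ht0 : 0 < 1 - ‖y‖ ^ 2 := by nlinarith [norm_nonneg y]
    have h1 : HasFDerivAt (fun y : E => 1 - ‖y‖ ^ 2) (-((2 : ℝ) • Ed_R 1 y)) y :=
      (Ed_normSq y).const_sub 1
    have h1' := h1.log ht0.ne'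
    obtain ⟨D, hD, hD2⟩ := lS_deriv hs (Real.log (1 - ‖y‖ ^ 2))
    have h2 := HasDerivAt.comp_hasFDerivAt (f := fun x : E => Real.log (1 - ‖x‖ ^ 2)) y hD h1'
    have h2' : fderiv ℝ (EE (MX.rads E s)) y = _ := h2.fderiv
    have e1 : fderiv ℝ (EE (MX.rads E s)) y x = -(D * (1 - ‖y‖ ^ 2)⁻¹ * 2 * (⟪y, x⟫_ℂ).re) := by
      rw [h2']
      simp [Ed_R_apply]
      ring
    rw [e1, abs_neg, abs_mul, abs_mul, abs_mul, abs_of_pos (inv_pos.mpr ht0),
      abs_of_pos (show (0 : ℝ) < 2 by norm_num)]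
    have h4 : |(⟪y, x⟫_ℂ).re| ≤ ‖⟪y, x⟫_ℂ‖ := Complex.abs_re_le_norm _
    have h6 : ‖⟪y, x⟫_ℂ‖ / (1 - ‖y‖ ^ 2) ≤ gau (1 - ‖y‖ ^ 2) y x := by
      unfold gau
      have : 0 ≤ ‖x‖ / Real.sqrt (1 - ‖y‖ ^ 2) := by positivity
      linarith
    have h7 : 0 ≤ gau (1 - ‖y‖ ^ 2) y x := le_trans (by positivity) h6
    have h8 : EE (MX.rads E s) y = lS s (Real.log (1 - ‖y‖ ^ 2)) := rfl
    have h9 := lS_nonneg s (Real.log (1 - ‖y‖ ^ 2))
    rw [h8]
    calc |D| * (1 - ‖y‖ ^ 2)⁻¹ * 2 * |(⟪y, x⟫_ℂ).re|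
        ≤ (2 * lS s (Real.log (1 - ‖y‖ ^ 2))) * (1 - ‖y‖ ^ 2)⁻¹ * 2 * ‖⟪y, x⟫_ℂ‖ := by gcongr
      _ = 4 * lS s (Real.log (1 - ‖y‖ ^ 2)) * (‖⟪y, x⟫_ℂ‖ / (1 - ‖y‖ ^ 2)) := by ring
      _ ≤ 4 * lS s (Real.log (1 - ‖y‖ ^ 2)) * gau (1 - ‖y‖ ^ 2) y x := by gcongr
      _ ≤ _ := by nlinarith [mul_nonneg h9 h7]
  dd := differentiableOn_const _
  ds := by
    intro w r r' κ h1 h2 h3 h4
    rw [rads_DD, rads_DD, sub_zero, norm_zero]
    have hA : 0 ≤ ∑' j, |s j| := tsum_nonneg fun j => abs_nonneg _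
    have hw := norm_nonneg w
    have h5 : r * ‖w‖ ≤ r' * ‖w‖ := by gcongr
    have h6 : 0 < κ := by
      by_contra hcon
      push Not at hcon
      nlinarith
    have h7 : 0 ≤ r * ‖w‖ := by positivity
    have h8 : 0 ≤ 1 - r ^ 2 * ‖w‖ ^ 2 := by nlinarith
    have h9 : 0 ≤ r' - r := by linarith
    positivity
  path := by
    intro θ hθ0 hθ z j k hjk hzk hz
    simp only [rads_DD, Complex.zero_re, sub_zero, zero_add]
    have hin : ∀ i ∈ Finset.Ioc j k, ‖(rt θ i : ℂ) • z‖ < 1 := by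
      intro i hi
      have h1 := (ray_depth hθ0 hθ (Finset.mem_Ioc.mp hi).2 hzk hz).1
      have h2 : 0 < θ ^ i := by positivity
      nlinarith [norm_nonneg ((rt θ i : ℂ) • z)]
    have h1 : ∑ i ∈ Finset.Ioc j k, EE (MX.rads E s) ((rt θ i : ℂ) • z) =
        ∑' l, ∑ i ∈ Finset.Ioc j k, |s l| * EE (MX.rad E ((1 / 2) ^ l)) ((rt θ i : ℂ) • z) := by
      rw [Summable.tsum_finsetSum]
      · exact Finset.sum_congr rfl fun i hi => rads_EE (hin i hi)
      · intro i hi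
        exact rads_sum hs (hin i hi)
    rw [h1, ← tsum_mul_left]
    have h2 : ∀ l, pc θ * ∑ i ∈ Finset.Ioc j k,
        |s l| * EE (MX.rad E ((1 / 2) ^ l)) ((rt θ i : ℂ) • z) ≤ 3 * |s l| := by
      intro l
      have e1 := (Carl.rad (E := E) (c := (1 / 2) ^ l) (by positivity)).path θ hθ0 hθ z j k hjk
        hzk hz
      simp only [rad_DD, Complex.zero_re, sub_zero, zero_add, mul_one] at e1
      have e2 := mul_le_mul_of_nonneg_left e1 (abs_nonneg (s l))
      rw [← Finset.mul_sum]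
      linarith
    have h3 : Summable fun l => 3 * |s l| := hs.mul_left 3
    have h4 : Summable fun l => pc θ * ∑ i ∈ Finset.Ioc j k,
        |s l| * EE (MX.rad E ((1 / 2) ^ l)) ((rt θ i : ℂ) • z) := by
      refine Summable.of_nonneg_of_le (fun l => ?_) h2 h3
      exact mul_nonneg (pc_pos hθ).le (Finset.sum_nonneg fun i _ =>
        mul_nonneg (abs_nonneg _) (EE_nonneg _ _))
    refine (h4.tsum_le_tsum h2 h3).trans (le_of_eq ?_)
    rw [tsum_mul_left]

end Pool.Agent.MPca0fc2.MX
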