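import Mathlib
import Pool.Agent.Lib.MP_ca0fc2_an.Tame
import Pool.Agent.Lib.MP_ca0fc2_an.DiscCor

set_option autoImplicit false

open Metric Set
open scoped InnerProductSpace

namespace Pool.Agent.Lib.MP_ca0fc2_an

variable {E : Type*} [NormedAddCommGroup E] [InnerProductSpace ℂ E]

/-- `Ω` is fat around the cells: the dilation by the factor `1 / s` of the joint cell of size `η`
around its centre stays in `Ω`. For instance this holds if `Ω` is an intersection of sets of the form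
`{‖⟨z, e i⟩‖ < 1}`. -/
def FatFor {m : ℕ} (p e : Fin m → E) (Ω : Set E) : Prop :=
  ∀ s : ℝ, 0 < s → s < 1 → ∃ η : ℝ, 0 < η ∧ ∀ z₀ ∈ ball (0 : E) 1, ∀ w ∈ jointCell p e η z₀,
    ∀ t : ℂ, ‖t‖ ≤ 1 / s → z₀ + t • (w - z₀) ∈ Ω

theorem osc_of_fat {m : ℕ} {p e : Fin m → E} {Ω : Set E} {η s M : ℝ} {f : E → ℂ}
    (hs : 0 < s) (hs1 : s < 1) (hf : DifferentiableOn ℂ f Ω) (hM : ∀ z ∈ Ω, ‖f z‖ ≤ M)
    {z₀ w : E} (h : ∀ t : ℂ, ‖t‖ ≤ 1 / s → z₀ + t • (w - z₀) ∈ Ω) :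
    ‖f w - f z₀‖ ≤ (2 * M + 1) * s := by
  have h0 : z₀ ∈ Ω := by simpa using h 0 (by simp; positivity)
  have hM0 : 0 ≤ M := (norm_nonneg _).trans (hM _ h0)
  have hs' : 0 < 1 / s := by positivity
  set g : ℂ → ℂ := fun t => f (z₀ + t • (w - z₀)) with hg
  have hgd : DifferentiableOn ℂ g (ball 0 (1 / s)) := by
    apply hf.comp
    · fun_prop
    · intro t ht
      exact h t (mem_ball_zero_iff.mp ht).le
  have hmaps : MapsTo g (ball 0 (1 / s)) (ball (g 0) (2 * M + 1)) := by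
    intro t ht
    rw [mem_ball, dist_eq_norm]
    have h1 := hM _ (h t (mem_ball_zero_iff.mp ht).le)
    have h2 := hM _ (h 0 (by simp; positivity))
    have h3 := norm_sub_le (g t) (g 0)
    simp only [hg] at h3 ⊢
    linarith
  have h1s : (1 : ℂ) ∈ ball (0 : ℂ) (1 / s) := by
    rw [mem_ball_zero_iff, norm_one, lt_div_iff₀ hs]
    linarith
  have h4 := Complex.dist_le_div_mul_dist_of_mapsTo_ball hgd (hmaps.mono_right ball_subset_closedBall) h1s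
  rw [dist_eq_norm, dist_eq_norm] at h4
  simp only [hg, one_smul, zero_smul, add_zero, sub_zero, norm_one, mul_one] at h4
  rw [add_sub_cancel] at h4
  refine h4.trans (le_of_eq ?_)
  field_simp

/-- All but one of the data extend to bounded holomorphic functions on a set which is fat around
the joint cells of finitely many complex lines. -/
theorem corona_fat {n N m : ℕ} {δ : ℝ} (hδ : 0 < δ)
    {p e : Fin m → EuclideanSpace ℂ (Fin n)} (hp : ∀ i, ‖p i‖ < 1) (he : ∀ i, ‖e i‖ = 1)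
    (hpe : ∀ i, ⟪p i, e i⟫_ℂ = 0) {Ω : Set (EuclideanSpace ℂ (Fin n))}
    (hΩ : FatFor p e Ω) (j₀ : Fin N) (M : ℝ) (f : Fin N → EuclideanSpace ℂ (Fin n) → ℂ)
    (hf : ∀ j, DifferentiableOn ℂ (f j) (ball 0 1))
    (hM : ∀ j, ∀ z ∈ ball (0 : EuclideanSpace ℂ (Fin n)) 1, ‖f j z‖ ≤ M)
    (hb : ∀ z ∈ ball (0 : EuclideanSpace ℂ (Fin n)) 1, δ ≤ ∑ j, ‖f j z‖ ^ 2)
    (hfΩ : ∀ j ≠ j₀, DifferentiableOn ℂ (f j) Ω) (hMΩ : ∀ j ≠ j₀, ∀ z ∈ Ω, ‖f j z‖ ≤ M) :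
    ∃ C, SolvableOn f (ball 0 1) C := by
  obtain ⟨s, hs, hs1, hs2⟩ : ∃ s : ℝ, 0 < s ∧ s < 1 ∧ N * (2 * ((2 * M + 1) * s)) ^ 2 ≤ δ / 2 := by
    refine ⟨min (1 / 2) (δ / 2 / (N * (2 * (2 * M + 1)) ^ 2 + 1)),
      lt_min (by norm_num) (by positivity), (min_le_left _ _).trans_lt (by norm_num), ?_⟩
    set s := min (1 / 2) (δ / 2 / (N * (2 * (2 * M + 1)) ^ 2 + 1)) with hs
    have h0 : 0 ≤ s := (lt_min (by norm_num) (by positivity)).le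
    have h1 : s ≤ 1 := (min_le_left _ _).trans (by norm_num)
    have h2 : s ≤ δ / 2 / (N * (2 * (2 * M + 1)) ^ 2 + 1) := min_le_right _ _
    have h3 : (0 : ℝ) ≤ N * (2 * (2 * M + 1)) ^ 2 := by positivity
    rw [le_div_iff₀ (by positivity)] at h2
    calc (N : ℝ) * (2 * ((2 * M + 1) * s)) ^ 2 = N * (2 * (2 * M + 1)) ^ 2 * (s * s) := by ring
      _ ≤ N * (2 * (2 * M + 1)) ^ 2 * (s * 1) := by
        apply mul_le_mul_of_nonneg_left _ h3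
        exact mul_le_mul_of_nonneg_left h1 h0
      _ ≤ δ / 2 := by nlinarith
  obtain ⟨η, hη, hcell⟩ := hΩ s hs hs1
  obtain ⟨C', hC'⟩ := tame_thm discCorona N M δ hδ (fun _ => m) (fun _ => p) (fun _ => e)
    (fun _ => η) (fun _ => δ / 2) (fun _ => hp) (fun _ => he) (fun _ => hpe) (fun _ => hη)
    (fun _ => by linarith)
  refine ⟨C', hC' f hf hM hb ?_⟩
  intro l _ z₀ hz₀
  refine ⟨j₀, fun _ => 2 * ((2 * M + 1) * s), ?_, ?_⟩
  · rw [Finset.sum_const, nsmul_eq_mul]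
    refine le_trans (mul_le_mul_of_nonneg_right ?_ (sq_nonneg _)) hs2
    have := Finset.card_erase_le (s := (Finset.univ : Finset (Fin N))) (a := j₀)
    rw [Finset.card_univ, Fintype.card_fin] at this
    exact_mod_cast this
  · intro j hj w hw w' hw'
    have h1 := osc_of_fat (p := p) (e := e) (η := η) hs hs1 (hfΩ j hj) (hMΩ j hj)
      (hcell z₀ hz₀.1 w hw.2)
    have h2 := osc_of_fat (p := p) (e := e) (η := η) hs hs1 (hfΩ j hj) (hMΩ j hj)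
      (hcell z₀ hz₀.1 w' hw'.2)
    have h3 := norm_sub_le (f j w - f j z₀) (f j w' - f j z₀)
    rw [sub_sub_sub_cancel_right] at h3
    linarith

theorem lineCoord_zero (e z : E) : lineCoord 0 e z = ⟪e, z⟫_ℂ := by
  simp [lineCoord]

/-- Intersections of the tubes `{‖⟨z, e i⟩‖ < 1}` are fat. -/
theorem fat_tubes {m : ℕ} {e : Fin m → E} (he : ∀ i, ‖e i‖ = 1) :
    FatFor (fun _ => 0) e {z | ∀ i, ‖⟪e i, z⟫_ℂ‖ < 1} := by
  intro s hs hs1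
  refine ⟨s, hs, ?_⟩
  intro z₀ hz₀ w hw t ht i
  obtain ⟨h1, -⟩ := hw i
  rw [lineCoord_zero, lineCoord_zero, ← inner_sub_right] at h1
  rw [inner_add_right, inner_smul_right]
  have h2 := norm_inner_lt (he i) hz₀
  refine (norm_add_le _ _).trans_lt ?_
  rw [norm_mul]
  have h3 : ‖t‖ * ‖⟪e i, w - z₀⟫_ℂ‖ ≤ 1 / s * ‖⟪e i, w - z₀⟫_ℂ‖ :=
    mul_le_mul_of_nonneg_right ht (norm_nonneg _)
  have h4 : 1 / s * ‖⟪e i, w - z₀⟫_ℂ‖ < 1 / s * (s * (1 - ‖⟪e i, z₀⟫_ℂ‖)) :=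
    mul_lt_mul_of_pos_left h1 (by positivity)
  have h5 : 1 / s * (s * (1 - ‖⟪e i, z₀⟫_ℂ‖)) = 1 - ‖⟪e i, z₀⟫_ℂ‖ := by field_simp
  linarith

/-- All but one of the data are bounded holomorphic functions of finitely many linear
coordinates, on the polydisc (for instance of one linear coordinate). -/
theorem corona_tubes {n N m : ℕ} {δ : ℝ} (hδ : 0 < δ)
    {e : Fin m → EuclideanSpace ℂ (Fin n)} (he : ∀ i, ‖e i‖ = 1) (j₀ : Fin N) (M : ℝ)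
    (f : Fin N → EuclideanSpace ℂ (Fin n) → ℂ)
    (hf : ∀ j, DifferentiableOn ℂ (f j) (ball 0 1))
    (hM : ∀ j, ∀ z ∈ ball (0 : EuclideanSpace ℂ (Fin n)) 1, ‖f j z‖ ≤ M)
    (hb : ∀ z ∈ ball (0 : EuclideanSpace ℂ (Fin n)) 1, δ ≤ ∑ j, ‖f j z‖ ^ 2)
    (hfΩ : ∀ j ≠ j₀, DifferentiableOn ℂ (f j) {z | ∀ i, ‖⟪e i, z⟫_ℂ‖ < 1})
    (hMΩ : ∀ j ≠ j₀, ∀ z ∈ {z : EuclideanSpace ℂ (Fin n) | ∀ i, ‖⟪e i, z⟫_ℂ‖ < 1}, ‖f j z‖ ≤ M) :
    ∃ C, SolvableOn f (ball 0 1) C :=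
  corona_fat hδ (p := fun _ => 0) (by simp) he (by simp) (fat_tubes he) j₀ M f hf hM hb hfΩ hMΩ

end Pool.Agent.Lib.MP_ca0fc2_an
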