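import Mathlib
import Pool.Agent.Lib.MP_ca0fc2_an.HartMain

set_option autoImplicit false

open Metric Set
open scoped InnerProductSpace

namespace Pool.Agent.Lib.MP_ca0fc2_an

variable {E : Type*} [NormedAddCommGroup E] [InnerProductSpace ℂ E]

/-- `xe + c y` if `z = xe + y` with `y` orthogonal to the unit vector `e` -/
noncomputable def fib (e : E) (c : ℂ) (z : E) : E := ⟪e, z⟫_ℂ • e + c • (z - ⟪e, z⟫_ℂ • e)

theorem inner_compl {e : E} (he : ‖e‖ = 1) (z : E) : ⟪e, z - ⟪e, z⟫_ℂ • e⟫_ℂ = 0 := by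
  rw [inner_sub_right, inner_smul_right, inner_self_eq_norm_sq_to_K, he]
  simp

theorem norm_comb {e : E} (he : ‖e‖ = 1) (x : ℂ) {y : E} (hy : ⟪e, y⟫_ℂ = 0) :
    ‖x • e + y‖ ^ 2 = ‖x‖ ^ 2 + ‖y‖ ^ 2 := by
  have h := norm_add_sq_eq_norm_sq_add_norm_sq_of_inner_eq_zero (𝕜 := ℂ) (x • e) y
    (by rw [inner_smul_left, hy, mul_zero])
  rw [norm_smul, he, mul_one] at h
  linarith [sq ‖x • e + y‖, sq ‖x‖, sq ‖y‖]

theorem norm_fib {e : E} (he : ‖e‖ = 1) (c : ℂ) (z : E) :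
    ‖fib e c z‖ ^ 2 = ‖⟪e, z⟫_ℂ‖ ^ 2 + ‖c‖ ^ 2 * ‖z - ⟪e, z⟫_ℂ • e‖ ^ 2 := by
  rw [fib, norm_comb he _ (by rw [inner_smul_right, inner_compl he, mul_zero]), norm_smul, mul_pow]

theorem norm_sq_eq {e : E} (he : ‖e‖ = 1) (z : E) :
    ‖z‖ ^ 2 = ‖⟪e, z⟫_ℂ‖ ^ 2 + ‖z - ⟪e, z⟫_ℂ • e‖ ^ 2 := by
  have h := norm_fib he 1 z
  have e1 : fib e 1 z = z := by simp [fib]
  rw [e1] at h
  simpa using h

theorem fib_mem {e : E} (he : ‖e‖ = 1) {c : ℂ} (hc : ‖c‖ ≤ 1) {z : E} (hz : z ∈ ball (0 : E) 1) :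
    fib e c z ∈ ball (0 : E) 1 := by
  rw [mem_ball_zero_iff] at hz ⊢
  have h1 := norm_fib he c z
  have h2 := norm_sq_eq he z
  have h3 : ‖c‖ ^ 2 ≤ 1 := pow_le_one₀ (norm_nonneg _) hc
  have h4 : ‖fib e c z‖ ^ 2 ≤ ‖z‖ ^ 2 := by
    rw [h1, h2]
    nlinarith [sq_nonneg ‖z - ⟪e, z⟫_ℂ • e‖]
  have h5 := pow_le_pow_left₀ (norm_nonneg z) hz.le 2
  by_contra hcon
  push Not at hcon
  nlinarith [norm_nonneg z, norm_nonneg (fib e c z)]

theorem inner_fib {e : E} (he : ‖e‖ = 1) (c : ℂ) (z : E) : ⟪e, fib e c z⟫_ℂ = ⟪e, z⟫_ℂ := by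
  rw [fib, inner_add_right, inner_smul_right, inner_smul_right, inner_compl he,
    inner_self_eq_norm_sq_to_K, he]
  simp

theorem fib_fib {e : E} (he : ‖e‖ = 1) (c d : ℂ) (z : E) : fib e c (fib e d z) = fib e (c * d) z := by
  have h := inner_fib he d z
  unfold fib at h ⊢
  rw [h, add_sub_cancel_left, smul_smul]

/-- Continuity under the rotations about the line `ℂ e` gives continuity under the dilations in
the orthogonal directions. -/
theorem radial_ball {e : E} (he : ‖e‖ = 1) {g : E → ℂ} {M ε τ s : ℝ}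
    (hg : DifferentiableOn ℂ g (ball 0 1)) (hM : ∀ z ∈ ball (0 : E) 1, ‖g z‖ ≤ M) (hτ : 0 < τ)
    (hrot : ∀ θ : ℝ, |θ| ≤ τ → ∀ z ∈ ball (0 : E) 1,
      ‖g (fib e (Complex.exp (θ * Complex.I)) z) - g z‖ ≤ ε)
    {z : E} (hz : z ∈ ball (0 : E) 1) (hs : 0 ≤ s) :
    ‖g (fib e (Complex.exp (-s)) z) - g z‖ ≤ 2 * ε + M * s / τ := by
  have hexp : ∀ w : ℂ, w.re ≤ 0 → ‖Complex.exp w‖ ≤ 1 := by
    intro w hw
    rw [Complex.norm_exp]
    exact Real.exp_le_one_iff.mpr hw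
  have e1 : fib e 1 z = z := by simp [fib]
  have h := Hart.radial_core (G := fun w => g (fib e (Complex.exp w) z)) (M := M) (ε := ε) (τ := τ)
    (s := s) hτ hs ?_ ?_ ?_ ?_
  · simp only [Complex.exp_zero, e1] at h
    exact h
  · intro w hw
    have h1 : DifferentiableAt ℂ g (fib e (Complex.exp w) z) :=
      hg.differentiableAt (isOpen_ball.mem_nhds (fib_mem he (hexp w hw) hz))
    have h2 : DifferentiableAt ℂ (fun w : ℂ => fib e (Complex.exp w) z) w := by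
      unfold fib
      exact (differentiableAt_const _).add (Complex.differentiableAt_exp.smul_const _)
    exact h1.comp w h2
  · intro w hw
    exact hM _ (fib_mem he (hexp w hw) hz)
  · intro y hy
    have := hrot y hy z hz
    simp only [Complex.exp_zero, e1]
    exact this
  · intro y hy
    have h3 := hrot y hy (fib e (Complex.exp (-s)) z) (fib_mem he (hexp _ (by simpa using hs)) hz)
    rw [fib_fib he, ← Complex.exp_add, add_comm] at h3
    exact h3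

/-- points of a cell, contracted towards the line, are far from the boundary of the ball in terms
of the size of the cell -/
theorem seg_mem {e : E} (he : ‖e‖ = 1) {s σ R κ : ℝ} (hσ0 : 0 < σ) (hσ1 : σ ≤ 1)
    (hR : 1 ≤ R) (hκ : κ = (σ / R) ^ 2) (hσs : Real.exp (-s) ^ 2 + 6 * σ < 1)
    {w w' : E} (hw : w ∈ ball (0 : E) 1)
    (h1 : ‖⟪e, w'⟫_ℂ - ⟪e, w⟫_ℂ‖ ≤ κ * (1 - ‖⟪e, w⟫_ℂ‖))
    (h2 : ‖w' - w‖ ^ 2 ≤ κ * (1 - ‖⟪e, w⟫_ℂ‖)) {t : ℂ} (ht : ‖t‖ ≤ R) :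
    fib e (Complex.exp (-s)) w + t • (fib e (Complex.exp (-s)) w' - fib e (Complex.exp (-s)) w) ∈
      ball (0 : E) 1 := by
  set x := ⟪e, w⟫_ℂ with hx
  set x' := ⟪e, w'⟫_ℂ with hx'
  set y := w - x • e with hy
  set y' := w' - x' • e with hy'
  set c := Complex.exp (-s) with hc
  have hcn : ‖c‖ = Real.exp (-s) := by rw [hc, Complex.norm_exp]; simp
  have hye : ⟪e, y⟫_ℂ = 0 := inner_compl he w
  have hye' : ⟪e, y'⟫_ℂ = 0 := inner_compl he w'
  have hwn := norm_sq_eq he w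
  rw [← hx, ← hy] at hwn
  rw [mem_ball_zero_iff] at hw
  have hx1 : ‖x‖ < 1 := (norm_inner_lt he (by rwa [mem_ball_zero_iff]))
  have hκ0 : 0 < κ := by rw [hκ]; positivity
  -- the point
  have e1 : fib e c w + t • (fib e c w' - fib e c w) =
      (x + t * (x' - x)) • e + c • (y + t • (y' - y)) := by
    simp only [fib, ← hx, ← hx', ← hy, ← hy']
    module
  have hort : ⟪e, c • (y + t • (y' - y))⟫_ℂ = 0 := by
    have hsub : ⟪e, y' - y⟫_ℂ = 0 := (inner_sub_right e y' y).trans (by rw [hye', hye, sub_zero])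
    rw [inner_smul_right, inner_add_right, inner_smul_right, hsub, hye]
    simp
  have h3 : ‖fib e c w + t • (fib e c w' - fib e c w)‖ ^ 2 =
      ‖x + t * (x' - x)‖ ^ 2 + ‖c • (y + t • (y' - y))‖ ^ 2 := by
    rw [e1]; exact norm_comb he _ hort
  -- the differences
  have hdiff : ‖y' - y‖ ^ 2 ≤ κ * (1 - ‖x‖) := by
    refine le_trans ?_ h2
    have e2 : w' - w = (x' - x) • e + (y' - y) := by
      rw [hy, hy']; module
    have e3 : ‖w' - w‖ ^ 2 = ‖x' - x‖ ^ 2 + ‖y' - y‖ ^ 2 := by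
      rw [e2]
      exact norm_comb he _ ((inner_sub_right e y' y).trans (by rw [hye', hye, sub_zero]))
    rw [e3]
    nlinarith [sq_nonneg ‖x' - x‖]
  set q : ℝ := 1 - ‖x‖ ^ 2 with hq
  have hq0 : 0 < q := by nlinarith [norm_nonneg x]
  have hdq : 1 - ‖x‖ ≤ q := by nlinarith [norm_nonneg x]
  have hyn : ‖y‖ ≤ Real.sqrt q := by
    apply Real.le_sqrt_of_sq_le
    have : ‖w‖ ^ 2 < 1 := by nlinarith [norm_nonneg w]
    linarith
  have hRσ : R * (σ / R) = σ := by field_simp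
  have hdn : R * ‖y' - y‖ ≤ σ * Real.sqrt q := by
    have a1 : ‖y' - y‖ ≤ σ / R * Real.sqrt q := by
      apply le_of_sq_le_sq
      · rw [mul_pow, Real.sq_sqrt hq0.le, ← hκ]
        exact hdiff.trans (mul_le_mul_of_nonneg_left hdq hκ0.le)
      · positivity
    calc R * ‖y' - y‖ ≤ R * (σ / R * Real.sqrt q) := mul_le_mul_of_nonneg_left a1 (by linarith)
      _ = (R * (σ / R)) * Real.sqrt q := by ring
      _ = σ * Real.sqrt q := by rw [hRσ]
  have hdx : R * ‖x' - x‖ ≤ σ * q := by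
    have a1 : R * κ ≤ σ := by
      have : R * κ = σ * (σ / R) := by rw [hκ]; field_simp
      rw [this]
      have a2 : σ / R ≤ 1 := by
        rw [div_le_one (by linarith)]; linarith
      nlinarith
    calc R * ‖x' - x‖ ≤ R * (κ * (1 - ‖x‖)) := mul_le_mul_of_nonneg_left h1 (by linarith)
      _ ≤ R * (κ * q) := by
        apply mul_le_mul_of_nonneg_left _ (by linarith)
        exact mul_le_mul_of_nonneg_left hdq hκ0.le
      _ = (R * κ) * q := by ring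
      _ ≤ σ * q := mul_le_mul_of_nonneg_right a1 hq0.le
  -- norms
  have b1 : ‖x + t * (x' - x)‖ ≤ ‖x‖ + σ * q := by
    refine (norm_add_le _ _).trans ?_
    rw [norm_mul]
    have : ‖t‖ * ‖x' - x‖ ≤ R * ‖x' - x‖ := mul_le_mul_of_nonneg_right ht (norm_nonneg _)
    linarith
  have b2 : ‖y + t • (y' - y)‖ ≤ (1 + σ) * Real.sqrt q := by
    refine (norm_add_le _ _).trans ?_
    rw [norm_smul]
    have : ‖t‖ * ‖y' - y‖ ≤ R * ‖y' - y‖ := mul_le_mul_of_nonneg_right ht (norm_nonneg _)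
    linarith
  have b3 : ‖x + t * (x' - x)‖ ^ 2 ≤ (‖x‖ + σ * q) ^ 2 := pow_le_pow_left₀ (norm_nonneg _) b1 2
  have b4 : ‖c • (y + t • (y' - y))‖ ^ 2 ≤ Real.exp (-s) ^ 2 * ((1 + σ) ^ 2 * q) := by
    rw [norm_smul, mul_pow, hcn]
    apply mul_le_mul_of_nonneg_left _ (by positivity)
    have := pow_le_pow_left₀ (norm_nonneg _) b2 2
    rwa [mul_pow, Real.sq_sqrt hq0.le] at this
  have b5 : (‖x‖ + σ * q) ^ 2 ≤ 1 - q + 3 * σ * q := by
    have c1 : (‖x‖ + σ * q) ^ 2 = ‖x‖ ^ 2 + 2 * ‖x‖ * (σ * q) + (σ * q) ^ 2 := by ring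
    have c2 : 2 * ‖x‖ * (σ * q) ≤ 2 * (σ * q) := by
      have : 0 ≤ σ * q := by positivity
      nlinarith
    have c3 : (σ * q) ^ 2 ≤ σ * q := by
      have : σ * q ≤ 1 := by
        have : q ≤ 1 := by rw [hq]; nlinarith [sq_nonneg ‖x‖]
        nlinarith
      have h0 : 0 ≤ σ * q := by positivity
      nlinarith
    rw [c1]
    linarith
  have b6 : Real.exp (-s) ^ 2 * ((1 + σ) ^ 2 * q) ≤ (Real.exp (-s) ^ 2 + 3 * σ) * q := by
    have d1 : Real.exp (-s) ^ 2 < 1 := by linarith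
    have d2 : (1 + σ) ^ 2 ≤ 1 + 3 * σ := by nlinarith
    have d3 : 0 ≤ Real.exp (-s) ^ 2 := sq_nonneg _
    have d4 : Real.exp (-s) ^ 2 * (1 + σ) ^ 2 ≤ Real.exp (-s) ^ 2 + 3 * σ := by nlinarith
    calc Real.exp (-s) ^ 2 * ((1 + σ) ^ 2 * q) = (Real.exp (-s) ^ 2 * (1 + σ) ^ 2) * q := by ring
      _ ≤ _ := mul_le_mul_of_nonneg_right d4 hq0.le
  rw [mem_ball_zero_iff]
  have hfin : ‖fib e c w + t • (fib e c w' - fib e c w)‖ ^ 2 < 1 := by
    rw [h3]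
    nlinarith
  by_contra hcon
  push Not at hcon
  nlinarith

/-- `g` is holomorphic and bounded on the unit ball, and it is uniformly continuous under the
group of rotations about some complex line: in coordinates given by an automorphism of the ball,
`g` is uniformly continuous under the rotations of the orthogonal complement of `ℂ e`. -/
def RotAbout (g : E → ℂ) : Prop :=
  ∃ (e : E) (φ ψ : E → E) (M : ℝ), ‖e‖ = 1 ∧ IsBallAut φ ψ ∧ DifferentiableOn ℂ g (ball 0 1) ∧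
    (∀ z ∈ ball (0 : E) 1, ‖g z‖ ≤ M) ∧
    ∀ ε > 0, ∃ τ > 0, ∀ θ : ℝ, |θ| ≤ τ → ∀ z ∈ ball (0 : E) 1,
      ‖g (ψ (fib e (Complex.exp (θ * Complex.I)) z)) - g (ψ z)‖ ≤ ε

theorem osc_cell {e : E} (he : ‖e‖ = 1) {φ ψ : E → E} (haut : IsBallAut φ ψ) {g : E → ℂ} {M : ℝ}
    (hM0 : 0 ≤ M) (hg : DifferentiableOn ℂ g (ball 0 1)) (hM : ∀ z ∈ ball (0 : E) 1, ‖g z‖ ≤ M)
    (hrot : ∀ ε > 0, ∃ τ > 0, ∀ θ : ℝ, |θ| ≤ τ → ∀ z ∈ ball (0 : E) 1,
      ‖g (ψ (fib e (Complex.exp (θ * Complex.I)) z)) - g (ψ z)‖ ≤ ε) {ε : ℝ} (hε : 0 < ε) :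
    ∃ η₀ > 0, ∀ η, 0 < η → η ≤ η₀ → ∀ z₀ ∈ ball (0 : E) 1,
      ∀ w ∈ ball (0 : E) 1 ∩ lineCell e η φ z₀, ∀ w' ∈ ball (0 : E) 1 ∩ lineCell e η φ z₀,
        ‖g w - g w'‖ ≤ ε := by
  obtain ⟨τ, hτ, hrot⟩ := hrot (ε / 16) (by positivity)
  set G : E → ℂ := fun z => g (ψ z) with hG
  have hGd : DifferentiableOn ℂ G (ball 0 1) := hg.comp haut.hol' haut.map'
  have hGM : ∀ z ∈ ball (0 : E) 1, ‖G z‖ ≤ M := fun z hz => hM _ (haut.map' z hz)
  set s : ℝ := τ * ε / (8 * (M + 1)) with hs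
  have hs0 : 0 < s := by positivity
  have hs1 : M * s / τ ≤ ε / 8 := by
    rw [hs, div_le_iff₀ hτ, mul_div_assoc', div_le_iff₀ (by positivity)]
    have : 0 ≤ τ * ε := by positivity
    nlinarith
  have hrad : ∀ z ∈ ball (0 : E) 1, ‖G (fib e (Complex.exp (-s)) z) - G z‖ ≤ ε / 4 := by
    intro z hz
    have := radial_ball he hGd hGM hτ hrot hz hs0.le
    linarith
  set R : ℝ := 4 * (2 * M + 1) / ε + 2 with hR
  have hR0 : 0 < 4 * (2 * M + 1) / ε := by positivity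
  have hR2 : (2 * M + 1) / R ≤ ε / 4 := by
    rw [div_le_iff₀ (by linarith)]
    have : ε / 4 * (4 * (2 * M + 1) / ε + 2) = (2 * M + 1) + ε / 2 := by
      field_simp
      ring
    rw [hR, this]
    linarith
  have hexp1 : Real.exp (-s) < 1 := by rw [Real.exp_lt_one_iff]; linarith
  have hexp0 : 0 < Real.exp (-s) := Real.exp_pos _
  set σ : ℝ := (1 - Real.exp (-s) ^ 2) / 12 with hσ
  have hE : Real.exp (-s) ^ 2 < 1 := by nlinarith
  have hσ0 : 0 < σ := by rw [hσ]; linarith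
  have hσ1 : σ ≤ 1 := by rw [hσ]; nlinarith [sq_nonneg (Real.exp (-s))]
  have hσs : Real.exp (-s) ^ 2 + 6 * σ < 1 := by rw [hσ]; linarith
  set κ : ℝ := (σ / R) ^ 2 with hκ
  have hκ0 : 0 < κ := by
    have : 0 < R := by linarith
    positivity
  refine ⟨min (1 / 4) (κ / 8), lt_min (by norm_num) (by positivity), ?_⟩
  rintro η hη0 hη z₀ hz₀ w ⟨hw, hwc⟩ w' ⟨hw', hwc'⟩
  have hη1 : η ≤ 1 / 4 := hη.trans (min_le_left _ _)
  have hη2 : 8 * η ≤ κ := by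
    have := hη.trans (min_le_right _ _)
    linarith
  obtain ⟨v, hv⟩ : ∃ v, v = φ w := ⟨_, rfl⟩
  obtain ⟨v', hv'⟩ : ∃ v', v' = φ w' := ⟨_, rfl⟩
  have hvm : v ∈ ball (0 : E) 1 := by rw [hv]; exact haut.map w hw
  have hvm' : v' ∈ ball (0 : E) 1 := by rw [hv']; exact haut.map w' hw'
  obtain ⟨h1, h2⟩ := hwc
  obtain ⟨h3, h4⟩ := hwc'
  rw [← hv, inner_sub_right] at h1
  rw [← hv] at h2
  rw [← hv', inner_sub_right] at h3
  rw [← hv'] at h4
  obtain ⟨x₀, hx₀⟩ : ∃ x₀, x₀ = ⟪e, φ z₀⟫_ℂ := ⟨_, rfl⟩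
  rw [← hx₀] at h1 h2 h3 h4
  have hx₀1 : ‖x₀‖ < 1 := by
    rw [hx₀]; exact norm_inner_lt he (haut.map z₀ hz₀)
  have hd : 1 - ‖x₀‖ ≤ 2 * (1 - ‖⟪e, v⟫_ℂ‖) := by
    have a1 := norm_le_norm_add_norm_sub x₀ ⟪e, v⟫_ℂ
    rw [norm_sub_rev] at a1
    nlinarith
  have k1 : ‖⟪e, v'⟫_ℂ - ⟪e, v⟫_ℂ‖ ≤ κ * (1 - ‖⟪e, v⟫_ℂ‖) := by
    have a1 := norm_sub_le (⟪e, v'⟫_ℂ - x₀) (⟪e, v⟫_ℂ - x₀)
    rw [sub_sub_sub_cancel_right] at a1
    have a2 : 0 ≤ 1 - ‖⟪e, v⟫_ℂ‖ := by linarith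
    nlinarith
  have k2 : ‖v' - v‖ ^ 2 ≤ κ * (1 - ‖⟪e, v⟫_ℂ‖) := by
    have a1 := norm_sub_le (v' - φ z₀) (v - φ z₀)
    rw [sub_sub_sub_cancel_right] at a1
    have a2 : 0 ≤ 1 - ‖⟪e, v⟫_ℂ‖ := by linarith
    have a3 : ‖v' - v‖ ^ 2 ≤ 2 * (‖v' - φ z₀‖ ^ 2 + ‖v - φ z₀‖ ^ 2) := by
      have := pow_le_pow_left₀ (norm_nonneg _) a1 2
      nlinarith [sq_nonneg (‖v' - φ z₀‖ - ‖v - φ z₀‖)]
    nlinarith
  have hseg := fun (t : ℂ) (ht : ‖t‖ ≤ R) => seg_mem he hσ0 hσ1 (R := R) (by linarith) hκ hσs hvm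
    k1 k2 ht
  obtain ⟨a, ha⟩ : ∃ a, a = fib e (Complex.exp (-s)) v := ⟨_, rfl⟩
  obtain ⟨b, hb⟩ : ∃ b, b = fib e (Complex.exp (-s)) v' := ⟨_, rfl⟩
  simp only [← ha, ← hb] at hseg
  have hmid : ‖G b - G a‖ ≤ ε / 4 := by
    set H : ℂ → ℂ := fun t => G (a + t • (b - a)) with hH
    have hHd : DifferentiableOn ℂ H (ball 0 R) := by
      apply hGd.comp
      · fun_prop
      · intro t ht
        exact hseg t (mem_ball_zero_iff.mp ht).le
    have hmaps : MapsTo H (ball 0 R) (closedBall (H 0) (2 * M + 1)) := by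
      intro t ht
      rw [mem_closedBall, dist_eq_norm]
      have h1 := hGM _ (hseg t (mem_ball_zero_iff.mp ht).le)
      have h2 := hGM _ (hseg 0 (by simp; linarith))
      have h3 := norm_sub_le (H t) (H 0)
      simp only [hH] at h3 ⊢
      linarith
    have h4 := Complex.dist_le_div_mul_dist_of_mapsTo_ball hHd hmaps
      (z := 1) (by rw [mem_ball_zero_iff, norm_one]; linarith)
    rw [dist_eq_norm, dist_eq_norm] at h4
    simp only [hH, one_smul, zero_smul, add_zero, sub_zero, norm_one, mul_one, add_sub_cancel] at h4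
    exact h4.trans hR2
  have hra := hrad v hvm
  have hrb := hrad v' hvm'
  rw [← ha] at hra
  rw [← hb] at hrb
  have e1 : g w = G v := by simp only [hG, hv]; rw [haut.left w hw]
  have e2 : g w' = G v' := by simp only [hG, hv']; rw [haut.left w' hw']
  rw [e1, e2]
  calc ‖G v - G v'‖ = ‖(G b - G v') - (G b - G a) - (G a - G v)‖ := by congr 1; ring
    _ ≤ ‖G b - G v'‖ + ‖G b - G a‖ + ‖G a - G v‖ :=
      (norm_sub_le _ _).trans (add_le_add (norm_sub_le _ _) le_rfl)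
    _ ≤ ε := by linarith

/-- Solvability at depth by induction over a list of functions. -/
theorem depth_of_list {N : ℕ} {f : Fin N → E → ℂ} {C ε : ℝ} (hε : 0 < ε) (l : List (E → ℂ))
    (hl : ∀ g ∈ l, RotAbout g) :
    ∃ η₀ > 0, ∀ η, 0 < η → η ≤ η₀ → ∀ D ⊆ ball (0 : E) 1,
      (∀ D' ⊆ D, (∀ g ∈ l, ∀ w ∈ D', ∀ w' ∈ D', ‖g w - g w'‖ ≤ ε) → SolvableOn f D' C) →
      SolvableAtDepth f C η l.length D := by
  induction l with
  | nil =>
    refine ⟨1, one_pos, ?_⟩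
    intro η _ _ D _ h
    exact h D subset_rfl (by simp)
  | cons g l ih =>
    obtain ⟨η₁, hη₁, h1⟩ := ih (fun g hg => hl g (List.mem_cons_of_mem _ hg))
    obtain ⟨e, φ, ψ, M, he, haut, hg, hM, hrot⟩ := hl g (List.mem_cons_self ..)
    have hM' : ∀ z ∈ ball (0 : E) 1, ‖g z‖ ≤ max M 0 := fun z hz =>
      (hM z hz).trans (le_max_left _ _)
    obtain ⟨η₂, hη₂, h2⟩ := osc_cell he haut (le_max_right M 0) hg hM' hrot hε
    refine ⟨min η₁ η₂, lt_min hη₁ hη₂, ?_⟩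
    intro η hη0 hη D hD h
    refine ⟨e, φ, ψ, he, haut, ?_⟩
    intro z₀ hz₀
    apply h1 η hη0 (hη.trans (min_le_left _ _)) _ (inter_subset_left.trans hD)
    intro D' hD' hosc
    apply h D' (hD'.trans inter_subset_left)
    intro g' hg' w hw w' hw'
    rcases List.mem_cons.mp hg' with rfl | hg'
    · exact h2 η hη0 (hη.trans (min_le_right _ _)) z₀ (hD hz₀) w
        ⟨hD (hD' hw).1, (hD' hw).2⟩ w' ⟨hD (hD' hw').1, (hD' hw').2⟩
    · exact hosc g' hg' w hw w' hw'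

/-- `f` can be approximated, uniformly on the unit ball, by continuous functions (for instance
polynomials) of finitely many functions each of which is uniformly continuous under the rotations
about some complex line. -/
def RotGenerated (f : E → ℂ) : Prop :=
  ∀ ε > 0, ∃ (m : ℕ) (g : Fin m → E → ℂ) (P : (Fin m → ℂ) → ℂ), (∀ i, RotAbout (g i)) ∧
    Continuous P ∧ ∀ z ∈ ball (0 : E) 1, ‖f z - P fun i => g i z‖ ≤ ε

theorem RotGenerated.osc {f : E → ℂ} (hf : RotGenerated f) {ε : ℝ} (hε : 0 < ε) :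
    ∃ (l : List (E → ℂ)) (ε' : ℝ), (∀ g ∈ l, RotAbout g) ∧ 0 < ε' ∧ ∀ D ⊆ ball (0 : E) 1,
      (∀ g ∈ l, ∀ w ∈ D, ∀ w' ∈ D, ‖g w - g w'‖ ≤ ε') → ∀ w ∈ D, ∀ w' ∈ D, ‖f w - f w'‖ ≤ ε := by
  obtain ⟨m, g, P, hg, hP, hfP⟩ := hf (ε / 4) (by positivity)
  choose e φ ψ M he haut hgd hM hrot using hg
  set B : ℝ := ∑ i, |M i| with hB
  have hcomp : IsCompact (closedBall (0 : Fin m → ℂ) B) := isCompact_closedBall _ _
  have huc := hcomp.uniformContinuousOn_of_continuous hP.continuousOn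
  rw [Metric.uniformContinuousOn_iff] at huc
  obtain ⟨ε', hε', huc⟩ := huc (ε / 4) (by positivity)
  refine ⟨List.ofFn g, ε' / 2, ?_, by positivity, ?_⟩
  · intro g' hg'
    rw [List.mem_ofFn] at hg'
    obtain ⟨i, rfl⟩ := hg'
    exact ⟨e i, φ i, ψ i, M i, he i, haut i, hgd i, hM i, hrot i⟩
  · intro D hD hosc w hw w' hw'
    have hmem : ∀ z ∈ D, (fun i => g i z) ∈ closedBall (0 : Fin m → ℂ) B := by
      intro z hz
      rw [mem_closedBall, dist_zero_right, pi_norm_le_iff_of_nonneg (by positivity)]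
      intro i
      refine (hM i z (hD hz)).trans ((le_abs_self _).trans ?_)
      exact Finset.single_le_sum (f := fun i => |M i|) (fun k _ => abs_nonneg _) (Finset.mem_univ i)
    have hd : dist (fun i => g i w) (fun i => g i w') < ε' := by
      rw [dist_eq_norm]
      refine lt_of_le_of_lt ((pi_norm_le_iff_of_nonneg (r := ε' / 2) (by positivity)).mpr ?_)
        (by linarith)
      intro i
      exact hosc (g i) (List.mem_ofFn.mpr ⟨i, rfl⟩) w hw w' hw'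
    have h1 := huc _ (hmem w hw) _ (hmem w' hw') hd
    rw [dist_eq_norm] at h1
    have h2 := hfP w (hD hw)
    have h3 := hfP w' (hD hw')
    calc ‖f w - f w'‖ = ‖(f w - P fun i => g i w) - (f w' - P fun i => g i w') +
          ((P fun i => g i w) - P fun i => g i w')‖ := by congr 1; ring
      _ ≤ ‖f w - P fun i => g i w‖ + ‖f w' - P fun i => g i w'‖ +
          ‖(P fun i => g i w) - P fun i => g i w'‖ :=
        (norm_add_le _ _).trans (add_le_add (norm_sub_le _ _) le_rfl)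
      _ ≤ ε := by linarith

/-- The corona theorem on the ball for data all but one of which are generated by functions
that are uniformly continuous under the rotations about a complex line (the line may depend on
the function). -/
theorem corona_rot [FiniteDimensional ℂ E] {N : ℕ} {M δ : ℝ} (hδ : 0 < δ) (f : Fin N → E → ℂ)
    (j₀ : Fin N) (hf : ∀ j, DifferentiableOn ℂ (f j) (ball 0 1))
    (hM : ∀ j, ∀ z ∈ ball (0 : E) 1, ‖f j z‖ ≤ M)
    (hb : ∀ z ∈ ball (0 : E) 1, δ ≤ ∑ j, ‖f j z‖ ^ 2) (hrot : ∀ j ≠ j₀, RotGenerated (f j)) :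
    ∃ C, SolvableOn f (ball 0 1) C := by
  classical
  set ε : ℝ := Real.sqrt (δ / (N + 1)) with hε
  have hε0 : 0 < ε := Real.sqrt_pos.mpr (by positivity)
  have hε1 : N * ε ^ 2 < δ := by
    rw [hε, Real.sq_sqrt (by positivity), mul_div_assoc', div_lt_iff₀ (by positivity)]
    nlinarith
  obtain ⟨C, hC⟩ := solvableOn_of_tame (E := E) N hε1
  have hex : ∀ j, ∃ (l : List (E → ℂ)) (ε' : ℝ), (∀ g ∈ l, RotAbout g) ∧ 0 < ε' ∧
      (j ≠ j₀ → ∀ D ⊆ ball (0 : E) 1,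
      (∀ g ∈ l, ∀ w ∈ D, ∀ w' ∈ D, ‖g w - g w'‖ ≤ ε') →
        ∀ w ∈ D, ∀ w' ∈ D, ‖f j w - f j w'‖ ≤ ε) := by
    intro j
    by_cases hj : j = j₀
    · exact ⟨[], 1, by simp, one_pos, fun h => absurd hj h⟩
    · obtain ⟨l, ε', h1, h2, h3⟩ := (hrot j hj).osc hε0
      exact ⟨l, ε', h1, h2, fun _ => h3⟩
  choose l ε' hl hε' hosc using hex
  obtain ⟨ε₀, hε₀, hε₀'⟩ : ∃ ε₀ > 0, ∀ j, ε₀ ≤ ε' j := by
    have : Nonempty (Fin N) := ⟨j₀⟩
    refine ⟨Finset.univ.inf' Finset.univ_nonempty ε', ?_, ?_⟩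
    · rw [gt_iff_lt, Finset.lt_inf'_iff]
      exact fun j _ => hε' j
    · exact fun j => Finset.inf'_le _ (Finset.mem_univ j)
  set L : List (E → ℂ) := (List.finRange N).flatMap l with hL
  have hLmem : ∀ j, ∀ g ∈ l j, g ∈ L := by
    intro j g hg
    rw [hL, List.mem_flatMap]
    exact ⟨j, List.mem_finRange j, hg⟩
  obtain ⟨η₀, hη₀, hdepth⟩ := depth_of_list (f := f) (C := C) hε₀ L (by
    intro g hg
    rw [hL, List.mem_flatMap] at hg
    obtain ⟨j, _, hg⟩ := hg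
    exact hl j g hg)
  obtain ⟨C', hC'⟩ := finite_depth discCorona N M δ hδ (fun _ => L.length) (fun _ => η₀)
    (fun _ => 1) (fun _ => C) (fun _ => hη₀) (fun _ => one_pos) (E := E)
  refine ⟨C', hC' f hf hM hb ?_⟩
  intro p _
  apply hdepth η₀ hη₀ le_rfl _ inter_subset_left
  intro D' hD' hosc'
  have hD'' : D' ⊆ ball (0 : E) 1 := hD'.trans inter_subset_left
  refine hC f D' (fun j => (hf j).mono hD'') (fun z hz => hb z (hD'' hz)) j₀ (fun _ => ε) ?_ ?_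
  · rw [Finset.sum_const, nsmul_eq_mul]
    apply mul_le_mul_of_nonneg_right _ (sq_nonneg _)
    have := Finset.card_erase_le (s := (Finset.univ : Finset (Fin N))) (a := j₀)
    rw [Finset.card_univ, Fintype.card_fin] at this
    exact_mod_cast this
  · intro j hj w hw w' hw'
    apply hosc j hj D' hD'' _ w hw w' hw'
    intro g hg w hw w' hw'
    exact (hosc' g (hLmem j g hg) w hw w' hw').trans (hε₀' j)

end Pool.Agent.Lib.MP_ca0fc2_an
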