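import Mathlib
import Pool.Agent.Lib.MP_ca0fc2_an.DOEx

/-!
# The corona problem on the strictly pseudoconvex domains with fundamental group `ℤ` covered by the
ball

Let `m ≥ 1`, `b > 0` and `c` in `ℝᵐ`, and let `D` be the set of the points `(x, y)` of `ℂ × ℂᵐ` with
`x ≠ 0`, `|log |x|| < π / (2 b)` and `∑ |y_j|² |x|^(c_j) < cos (b log |x|)`. It is a bounded strictly
pseudoconvex domain with a real analytic boundary, its fundamental group is infinite cyclic, and its
universal covering is the unit ball `B` of `ℂ^(m + 1)`, by the explicit map `π = annMap b c`.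

Let `A_D` be the algebra of the functions `a` in `H^∞(D)` such that `a ∘ π` belongs to the algebra
`TameComp (m + 1)` of the functions in `H^∞(B)` which are nearly constant on the connected components
of the cells of tame functions. It contains all the functions in `H^∞(D)` which are continuous up to
the boundary, all the bounded holomorphic functions of the coordinate `x`, and all the bounded
holomorphic functions on the larger domain
`{(1 - κ) ∑ |y_j|² |x|^(c_j) < cos (b log |x|)}`, `κ > 0` (see the file `DOEx.lean`).

Every character `χ` of the algebra `H^∞(D)` extends to a character of `H^∞(D')`, where `D'` is the set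
of the points `w` in `D` with `|a_i (w) - χ (a_i)| < ε`, for finitely many `a_i` in `A_D` and some
`ε > 0`.

The definitions `annDom` and `annMap` are in the file `DODefs.lean` of the folder
`Pool/Agent/Lib/MP_ca0fc2_an`, `TameComp` and `cell` in its file `TKDefs.lean`, `IsHinf` and
`IsCharacter` in `SGHDefs.lean`, `TameGen` and `TameGens` in `TGDefs.lean`, `SmoothMap` and
`PullCarleson` in `CPDefs.lean`, `LineTame` in `LTDefs.lean`, `Slow` and `Rate` in `SGDefs.lean`,
`invGrad2` and `invKer` in `CGDefs.lean` and `IsBallAut` in `Defs.lean`.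
-/

set_option autoImplicit false

open Metric Set Filter Topology
open Pool.Agent.Lib.MP_ca0fc2_an

namespace Pool.Agent.MPca0fc2.VarAnnular

theorem annular_spec (m : ℕ) (hm : 1 ≤ m) (b : ℝ) (hb : 0 < b) (c : Fin m → ℝ)
    (χ : (EuclideanSpace ℂ (Fin (m + 1)) → ℂ) → ℂ) (hχ : IsCharacter (annDom b c) χ) (k : ℕ)
    (a : Fin k → EuclideanSpace ℂ (Fin (m + 1)) → ℂ) (ha : ∀ i, IsHinf (annDom b c) (a i))
    (hat : ∀ i, (fun z => a i (annMap b c z)) ∈ TameComp (m + 1)) (ε : ℝ) (hε : 0 < ε) :
    ∃ M, IsCharacter {w | w ∈ annDom b c ∧ ∀ i, ‖a i w - χ (a i)‖ < ε} M ∧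
      ∀ f, IsHinf (annDom b c) f → M f = χ f :=
  Pool.Agent.MPca0fc2.DO.ann_spec hm hb c hχ ha hat hε

end Pool.Agent.MPca0fc2.VarAnnular
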