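import Mathlib
import Pool.Agent.Lib.MP_ca0fc2_an.CXSInc

/-!
# The corona problem on strongly convex domains is local over the slow functions

Let `D` be a bounded strongly convex domain in `ℂⁿ` of class `C³`: `D` is the set of the points `z`
with `ρ (z) < 0`, where `ρ` is a strongly convex function of class `C³` on `ℂⁿ`.

The slow functions on `D` (`SlowOn D`) are the functions `u` in `H^∞(D)` such that
`δ |∇u (z)| ≤ ω (δ)`, `δ` the distance of `z` to the complement of `D`, for a modulus `ω` such that
`∫ exp (- c / ω (t)) dt / t` is finite for all `c > 0`. The algebra `A = HullOn D (SlowOn D)` consists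
of the functions `g` in `H^∞(D)` such that for each `ε > 0` there are slow functions `u_1, …, u_k` and
`r > 0` such that `g` varies at most by `ε` on each connected component of each cell
`{z ∈ D : |u_i (z) - c_i| < r for all i}`. It contains all the slow functions, and all the functions
in `H^∞(D)` which are continuous up to the boundary.

Every character `χ` of the algebra `H^∞(D)` extends to a character of `H^∞(D')`, where `D'` is the set
of the points `z` in `D` with `|a_i (z) - χ (a_i)| < ε`, for finitely many `a_i` in `A` and some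
`ε > 0`.

The definitions `SlowOn`, `cellOn` and `HullOn` are in the file `CXSDefs.lean` of the folder
`Pool/Agent/Lib/MP_ca0fc2_an`, `IsHinf` and `IsCharacter` in `SGHDefs.lean` and `Rate` in
`SGDefs.lean`.
-/

set_option autoImplicit false

open Metric Set Filter Topology
open Pool.Agent.Lib.MP_ca0fc2_an

namespace Pool.Agent.MPca0fc2.VarConvexDomains

theorem convexDomains (n : ℕ) (hn : 1 ≤ n) (ρ : EuclideanSpace ℂ (Fin n) → ℝ) (hρ : ContDiff ℝ 3 ρ)
    (c : ℝ) (hc : 0 < c) (hconv : StrongConvexOn univ c ρ)
    (χ : (EuclideanSpace ℂ (Fin n) → ℂ) → ℂ) (hχ : IsCharacter {z | ρ z < 0} χ) (k : ℕ)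
    (a : Fin k → EuclideanSpace ℂ (Fin n) → ℂ)
    (ha : ∀ i, a i ∈ HullOn {z | ρ z < 0} (SlowOn {z | ρ z < 0})) (ε : ℝ) (hε : 0 < ε) :
    ∃ M, IsCharacter {z | ρ z < 0 ∧ ∀ i, ‖a i z - χ (a i)‖ < ε} M ∧
      ∀ f, IsHinf {z | ρ z < 0} f → M f = χ f :=
  Pool.Agent.MPca0fc2.CXS.convex_spec hn hρ hc hconv hχ ha hε

end Pool.Agent.MPca0fc2.VarConvexDomains
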