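import Mathlib
import Pool.Agent.Lib.MP_ca0fc2_an.SVDefs
import Pool.Agent.Lib.MP_ca0fc2_an.TGMain

set_option autoImplicit false

open Metric Set

namespace Pool.Agent.Lib.MP_ca0fc2_an.VarSeveralAndTame

open Pool.Agent.Lib.MP_ca0fc2_an

/-- The corona theorem, with bounds, on the unit ball of `ℂⁿ`, `n ≥ 2`, for data which are uniformly
close to polynomials in arbitrarily many functions `F i` and in tame functions `u k`. The function
`F i` is an arbitrary bounded holomorphic function on the domain `{z : ‖z‖² < 1 + r i z²}`, which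
contains the ball, and for different `i` and `j` the Lipschitz functions `r i` and `r j` are apart:
these domains touch the sphere together only in finitely many circles, and they separate linearly
away from them. (With `r = 0` the domain is the ball: one of the functions may be arbitrary on the
ball.) The tame functions are the functions whose invariant gradients satisfy a Carleson condition
after a smooth map of balls, for example `v ∘ Q` with a multiplier `v` of the Drury-Arveson space of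
the unit ball of `ℂᵏ` and a smooth map `Q`, or `g ∘ q` with `g` in `H^∞` of the disc and a polynomial
`q`, and the slow functions, and the bounded functions which are tame with respect to a complex
line. -/
theorem result (n N : ℕ) (hn : 2 ≤ n) (δ : ℝ) (hδ : 0 < δ) :
    ∃ η : ℝ, 0 < η ∧ ∀ (ι κ : Type) (r : ι → EuclideanSpace ℂ (Fin n) → ℝ) (L M : ι → ℝ)
      (K p : κ → ℝ) (ω : κ → ℝ → ℝ) (P : Fin N → MvPolynomial (ι ⊕ κ) ℂ),
      (∀ i z w, |r i z - r i w| ≤ L i * ‖z - w‖) → (∀ i j, i ≠ j → Apart (r i) (r j)) →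
      (∀ k, 1 ≤ p k) → (∀ k, Rate (ω k)) →
      ∃ C : ℝ, ∀ (f : Fin N → EuclideanSpace ℂ (Fin n) → ℂ)
        (F : ι → EuclideanSpace ℂ (Fin n) → ℂ) (u : κ → EuclideanSpace ℂ (Fin n) → ℂ),
        (∀ j, DifferentiableOn ℂ (f j) (ball 0 1)) →
        (∀ i, DifferentiableOn ℂ (F i) {z | ‖z‖ ^ 2 < 1 + r i z ^ 2}) →
        (∀ i z, ‖z‖ ^ 2 < 1 + r i z ^ 2 → ‖F i z‖ ≤ M i) →
        (∀ k, TameGen (K k) (p k) (ω k) (u k)) →
        (∀ j, ∀ z ∈ ball (0 : EuclideanSpace ℂ (Fin n)) 1,
          ‖f j z - MvPolynomial.eval (Sum.elim (fun i => F i z) fun k => u k z) (P j)‖ ≤ η) →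
        (∀ z ∈ ball (0 : EuclideanSpace ℂ (Fin n)) 1, δ ≤ ∑ j, ‖f j z‖ ^ 2) →
        SolvableOn f (ball 0 1) C := by
  obtain ⟨η, hη, h⟩ := Pool.Agent.MPca0fc2.MG.mg_alg hn N δ hδ
  refine ⟨η, hη, fun ι κ r L M K p ω P hr hap hp hω => ?_⟩
  obtain ⟨C, hC⟩ := h r L M K p ω P hr hap hp hω
  exact ⟨C, fun f F u hf hF hFM hu hfF hfδ =>
    hC f F u hf hF hFM (fun k => Pool.Agent.MPca0fc2.TG.gen6_of_tame (hu k)) hfF hfδ⟩

end Pool.Agent.Lib.MP_ca0fc2_an.VarSeveralAndTame
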