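import Mathlib
import Pool.Agent.Lib.MP_ca0fc2_an.SLMain

set_option autoImplicit false

open Metric Set MeasureTheory
open Pool.Agent.Lib.MP_ca0fc2_an

namespace Pool.Agent.MPca0fc2.VarSlow

/-- Localization of the corona problem on the unit ball of `ℂⁿ`, `n ≥ 2`, with respect to slowly
oscillating maps. Given are numbers `n`, `N`, `M`, `δ > 0` and, for each boundary point `l`,
numbers `d l`, `r l > 0`, `0 < ρ l ≤ 1`, `C l` and a positive function `ω l` on the unit interval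
with `∫ exp (- c / ω l (t)) dt / t < ∞`, where `c = ρ l / (10 ^ 8 (d l + 1))`. Then there is a
constant `C'` such that the following holds. Let `f_1, ..., f_N` be holomorphic on the ball, with
`|f_j| ≤ M` and `∑ |f_j|² ≥ δ`. Assume that for each boundary point `l` there are holomorphic
functions `u_1, ..., u_d` on the ball (where `d = d l`) with `|u_i| ≤ M` and
`(1 - |z|) |∇ u_i (z)| ≤ ω l (1 - |z|)` such that, for each point `b` of the ball in `ball l (r l)`,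
the equation `∑ f_j h_j = 1` can be solved with the bound `C l` on the cell of all points `z` of
the ball in `ball l (r l)` with `|u_i (z) - u_i (b)| < ρ l` for all `i`. Then it can be solved on
the whole ball with the bound `C'`. -/
theorem result (n : ℕ) (hn : 2 ≤ n) (N : ℕ) (M δ : ℝ) (hδ : 0 < δ)
    (d : EuclideanSpace ℂ (Fin n) → ℕ) (r ρ C : EuclideanSpace ℂ (Fin n) → ℝ)
    (ω : EuclideanSpace ℂ (Fin n) → ℝ → ℝ) (hr : ∀ l, 0 < r l)
    (hρ : ∀ l, 0 < ρ l) (hρ1 : ∀ l, ρ l ≤ 1)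
    (hω0 : ∀ l, ∀ t ∈ Ioo (0 : ℝ) 1, 0 < ω l t)
    (hω : ∀ l, IntegrableOn (fun t => Real.exp (-(ρ l / (10 ^ 8 * (d l + 1)) / ω l t)) / t)
      (Ioo 0 1)) :
    ∃ C' : ℝ, ∀ f : Fin N → EuclideanSpace ℂ (Fin n) → ℂ,
      (∀ j, DifferentiableOn ℂ (f j) (ball 0 1)) →
      (∀ j, ∀ z ∈ ball (0 : EuclideanSpace ℂ (Fin n)) 1, ‖f j z‖ ≤ M) →
      (∀ z ∈ ball (0 : EuclideanSpace ℂ (Fin n)) 1, δ ≤ ∑ j, ‖f j z‖ ^ 2) →
      (∀ l ∈ sphere (0 : EuclideanSpace ℂ (Fin n)) 1,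
        ∃ u : Fin (d l) → EuclideanSpace ℂ (Fin n) → ℂ,
          (∀ i, DifferentiableOn ℂ (u i) (ball 0 1)) ∧
          (∀ i, ∀ z ∈ ball (0 : EuclideanSpace ℂ (Fin n)) 1, ‖u i z‖ ≤ M) ∧
          (∀ i, ∀ z ∈ ball (0 : EuclideanSpace ℂ (Fin n)) 1,
            (1 - ‖z‖) * ‖fderiv ℂ (u i) z‖ ≤ ω l (1 - ‖z‖)) ∧
          ∀ b ∈ ball (0 : EuclideanSpace ℂ (Fin n)) 1 ∩ ball l (r l),
            SolvableOn f {z | z ∈ ball (0 : EuclideanSpace ℂ (Fin n)) 1 ∩ ball l (r l) ∧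
              ∀ i, ‖u i z - u i b‖ < ρ l} (C l)) →
      SolvableOn f (ball 0 1) C' :=
  Pool.Agent.MPca0fc2.SL.slow_main (by rw [finrank_euclideanSpace_fin]; exact hn) N M δ hδ d r ρ C
    ω hr hρ hρ1 hω0 hω

end Pool.Agent.MPca0fc2.VarSlow
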