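import Mathlib
import Pool.Agent.Lib.MP_ca0fc2_an.TGComp
import Pool.Agent.Lib.MP_ca0fc2_an.CPIncl
import Pool.Agent.Lib.MP_ca0fc2_an.LTEll

set_option autoImplicit false

open Metric Set MeasureTheory
open Pool.Agent.Lib.MP_ca0fc2_an

namespace Pool.Agent.MPca0fc2.VarTameAlgebra

/-- The corona theorem on the unit ball of `ℂⁿ`, `n ≥ 2`, with bounds, for data which on each
connected component of each cell of finitely many tame functions are nearly polynomials in ONE
bounded holomorphic function `F`, which is arbitrary and may change from component to component.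
The tame functions (`TameGen`) are:
the bounded functions whose invariant gradients are dominated by potentials which are pulled back
by a smooth map of balls, such as all functions `v ∘ Q`, where `Q` is a holomorphic map of the ball
into the unit ball of `ℂᵏ`, smooth up to the boundary, for instance a polynomial map, and `v` is a
multiplier of the Drury-Arveson space of the unit ball of `ℂᵏ`, or a bounded function in an
analytic Besov space `B_p`, `p < ∞`; in particular all the functions `g ∘ q`, `g ∈ H^∞` of the disc,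
`q` a polynomial with `|q| < 1` on the ball; and all bounded functions on the domain
`|z| < R`, `|z|² < 1 + c |1 - q(z)|`, `R > 1`, `c > 0`;
the slowly oscillating functions;
and the bounded functions which are tame with respect to a complex line, such as all the
bounded functions on an ellipsoid `|z_1|² + a |z'|² < 1`, `0 ≤ a < 1`. The cells are
`{z : |z - l| < ρ, |u_i(z) - c_i| < ρ}`, for each boundary point `l` and all numbers `c_i`. The
permitted error `η` depends only on `N, d, M, δ`. -/
theorem result (n : ℕ) (hn : 2 ≤ n) (N d : ℕ) (M δ : ℝ) (hδ : 0 < δ) :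
    ∃ η : ℝ, 0 < η ∧ ∀ (k : EuclideanSpace ℂ (Fin n) → ℕ)
      (ρ K p : EuclideanSpace ℂ (Fin n) → ℝ) (ω : EuclideanSpace ℂ (Fin n) → ℝ → ℝ),
    (∀ l, 0 < ρ l) → (∀ l, 1 ≤ p l) → (∀ l, Rate (ω l)) →
    ∃ C' : ℝ, ∀ f : Fin N → EuclideanSpace ℂ (Fin n) → ℂ,
      (∀ j, DifferentiableOn ℂ (f j) (ball 0 1)) →
      (∀ j, ∀ z ∈ ball (0 : EuclideanSpace ℂ (Fin n)) 1, ‖f j z‖ ≤ M) →
      (∀ z ∈ ball (0 : EuclideanSpace ℂ (Fin n)) 1, δ ≤ ∑ j, ‖f j z‖ ^ 2) →
      (∀ l ∈ sphere (0 : EuclideanSpace ℂ (Fin n)) 1,
        ∃ u : Fin (k l) → EuclideanSpace ℂ (Fin n) → ℂ,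
          (∀ i, TameGen (K l) (p l) (ω l) (u i)) ∧
        ∀ c : Fin (k l) → ℂ, ∀ x : EuclideanSpace ℂ (Fin n), NearlyOneDim f
          (connectedComponentIn {z | z ∈ ball (0 : EuclideanSpace ℂ (Fin n)) 1 ∩ ball l (ρ l) ∧
            ∀ i, ‖u i z - c i‖ < ρ l} x) d M η) →
      SolvableOn f (ball 0 1) C' :=
  Pool.Agent.MPca0fc2.TG.tame_components hn N d M δ hδ

end Pool.Agent.MPca0fc2.VarTameAlgebra
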