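import Pool.Agent.Lib.MP_ca0fc2_an.TB.G4
import Pool.Agent.Lib.MP_ca0fc2_an.TB.J1
import Pool.Agent.Lib.MP_ca0fc2_an.LV.S5
import Pool.Agent.Lib.MP_ca0fc2_an.Defs

/-!
# Reduction of the corona problem of the ball to data with one singular boundary point

For the ball of `ℂⁿ`, and for each number `N` of functions, the following are equivalent: the corona
theorem holds on the ball; it holds on the ball with bounds which depend only on the lower bound of
the data; for data on the ball which are continuous up to the boundary except at one point `p`,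
there are bounded solutions near `p`; this is true for some point of the boundary of some strictly
pseudoconvex domain; the corona theorem holds on some strictly pseudoconvex domain.
-/

set_option autoImplicit false

open Metric Set
open Pool.Agent.Lib.MP_ca0fc2_an

namespace Pool.Agent.Lib.MP_ca0fc2_an.VarUniformBall

theorem result {n : ℕ} (hn : 1 ≤ n) (N : ℕ) :
    List.TFAE [
      -- (a) Q1 on the ball, for `N` functions
      ∀ f : Fin N → EuclideanSpace ℂ (Fin n) → ℂ, (∀ j, IsHinf (ball 0 1) (f j)) →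
        (∃ δ > 0, ∀ z ∈ ball (0 : EuclideanSpace ℂ (Fin n)) 1, δ ≤ ∑ j, ‖f j z‖ ^ 2) →
        ∃ h : Fin N → EuclideanSpace ℂ (Fin n) → ℂ, (∀ j, IsHinf (ball 0 1) (h j)) ∧
          ∀ z ∈ ball (0 : EuclideanSpace ℂ (Fin n)) 1, ∑ j, f j z * h j z = 1,
      -- (b) Q1 on the ball, for `N` functions, with uniform bounds
      ∀ δ > 0, ∃ A : ℝ, ∀ f : Fin N → EuclideanSpace ℂ (Fin n) → ℂ,
        (∀ j, DifferentiableOn ℂ (f j) (ball 0 1)) →
        (∀ z ∈ ball (0 : EuclideanSpace ℂ (Fin n)) 1,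
          δ ^ 2 ≤ ∑ j, ‖f j z‖ ^ 2 ∧ ∑ j, ‖f j z‖ ^ 2 ≤ 1) →
        ∃ h : Fin N → EuclideanSpace ℂ (Fin n) → ℂ, (∀ j, DifferentiableOn ℂ (h j) (ball 0 1)) ∧
          ∀ z ∈ ball (0 : EuclideanSpace ℂ (Fin n)) 1,
            ∑ j, f j z * h j z = 1 ∧ ∑ j, ‖h j z‖ ^ 2 ≤ A ^ 2,
      -- (c) local solutions on the ball for data with one singular boundary point
      ∀ p ∈ sphere (0 : EuclideanSpace ℂ (Fin n)) 1,
        ∀ f : Fin N → EuclideanSpace ℂ (Fin n) → ℂ, (∀ j, IsHinf (ball 0 1) (f j)) →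
        (∀ j, ContinuousOn (f j) (closedBall 0 1 \ {p})) →
        (∃ δ > 0, ∀ z ∈ ball (0 : EuclideanSpace ℂ (Fin n)) 1, δ ≤ ∑ j, ‖f j z‖ ^ 2) →
        ∃ r > 0, ∃ h : Fin N → EuclideanSpace ℂ (Fin n) → ℂ,
          (∀ j, IsHinf (ball 0 1 ∩ ball p r) (h j)) ∧
          ∀ z ∈ ball (0 : EuclideanSpace ℂ (Fin n)) 1 ∩ ball p r, ∑ j, f j z * h j z = 1,
      -- (d) the same for one point of one strictly pseudoconvex domain
      ∃ (D : Set (EuclideanSpace ℂ (Fin n))) (p : EuclideanSpace ℂ (Fin n)),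
        IsStrictlyPscDomain D ∧ p ∈ frontier D ∧
        ∀ f : Fin N → EuclideanSpace ℂ (Fin n) → ℂ, (∀ j, IsHinf D (f j)) →
        (∀ j, ContinuousOn (f j) (closure D \ {p})) →
        (∃ δ > 0, ∀ z ∈ D, δ ≤ ∑ j, ‖f j z‖ ^ 2) →
        ∃ r > 0, ∃ h : Fin N → EuclideanSpace ℂ (Fin n) → ℂ,
          (∀ j, IsHinf (D ∩ ball p r) (h j)) ∧
          ∀ z ∈ D ∩ ball p r, ∑ j, f j z * h j z = 1,
      -- (e) Q1 on one strictly pseudoconvex domain, for `N` functions
      ∃ D : Set (EuclideanSpace ℂ (Fin n)), IsStrictlyPscDomain D ∧ D.Nonempty ∧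
        ∀ f : Fin N → EuclideanSpace ℂ (Fin n) → ℂ, (∀ j, IsHinf D (f j)) →
        (∃ δ > 0, ∀ z ∈ D, δ ≤ ∑ j, ‖f j z‖ ^ 2) →
        ∃ h : Fin N → EuclideanSpace ℂ (Fin n) → ℂ, (∀ j, IsHinf D (h j)) ∧
          ∀ z ∈ D, ∑ j, f j z * h j z = 1] := by
  tfae_have 2 → 1 := by
    intro hb f hf hδ
    obtain ⟨δ, hδ, hfδ⟩ := hδ
    choose hfd M hM using hf
    set K : ℝ := 1 + ∑ j, |M j| with hK
    have hs0 : 0 ≤ ∑ j, |M j| := Finset.sum_nonneg fun j _ => abs_nonneg _
    have hK0 : 0 < K := by linarith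
    have hup : ∀ z ∈ ball (0 : EuclideanSpace ℂ (Fin n)) 1, ∑ j, ‖f j z‖ ^ 2 ≤ K ^ 2 := by
      intro z hz
      calc ∑ j, ‖f j z‖ ^ 2 ≤ ∑ j, |M j| ^ 2 := Finset.sum_le_sum fun j _ =>
            pow_le_pow_left₀ (norm_nonneg _) ((hM j z hz).trans (le_abs_self _)) 2
        _ ≤ (∑ j, |M j|) ^ 2 := Finset.sum_sq_le_sq_sum_of_nonneg fun j _ => abs_nonneg _
        _ ≤ K ^ 2 := pow_le_pow_left₀ hs0 (by linarith) 2
    have hng : ∀ j z, ‖((K : ℂ)⁻¹) * f j z‖ ^ 2 = ‖f j z‖ ^ 2 / K ^ 2 := by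
      intro j z
      rw [norm_mul, norm_inv, Complex.norm_real, Real.norm_of_nonneg hK0.le]
      field_simp
    obtain ⟨A, hA⟩ := hb (Real.sqrt (δ / K ^ 2)) (Real.sqrt_pos.2 (by positivity))
    obtain ⟨h, hh, hh1⟩ := hA (fun j z => (K : ℂ)⁻¹ * f j z) (fun j => (hfd j).const_mul _) (by
      intro z hz
      rw [Real.sq_sqrt (by positivity)]
      simp only [hng]
      rw [← Finset.sum_div]
      constructor
      · exact div_le_div_of_nonneg_right (hfδ z hz) (by positivity)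
      · rw [div_le_one (by positivity)]
        exact hup z hz)
    refine ⟨fun j z => (K : ℂ)⁻¹ * h j z, fun j => ⟨(hh j).const_mul _, K⁻¹ * |A|, ?_⟩, ?_⟩
    · intro z hz
      rw [norm_mul, norm_inv, Complex.norm_real, Real.norm_of_nonneg hK0.le]
      refine mul_le_mul_of_nonneg_left ?_ (by positivity)
      have h1 := (hh1 z hz).2
      have h2 : ‖h j z‖ ^ 2 ≤ A ^ 2 := (Finset.single_le_sum
        (f := fun j => ‖h j z‖ ^ 2) (fun _ _ => sq_nonneg _) (Finset.mem_univ j)).trans h1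
      rw [← sq_abs A] at h2
      exact (sq_le_sq₀ (norm_nonneg _) (abs_nonneg _)).mp h2
    · intro z hz
      rw [← (hh1 z hz).1]
      refine Finset.sum_congr rfl fun j _ => ?_
      ring
  tfae_have 1 → 3 := by
    intro ha p _ f hf _ hδ
    obtain ⟨h, hh, hh1⟩ := ha f hf hδ
    refine ⟨1, one_pos, h, fun j => ⟨(hh j).1.mono inter_subset_left, ?_⟩,
      fun z hz => hh1 z hz.1⟩
    obtain ⟨M, hM⟩ := (hh j).2
    exact ⟨M, fun z hz => hM z hz.1⟩
  tfae_have 3 → 4 := by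
    intro hc
    have hp : (EuclideanSpace.single ⟨0, hn⟩ 1 : EuclideanSpace ℂ (Fin n)) ∈
        sphere (0 : EuclideanSpace ℂ (Fin n)) 1 := by
      rw [mem_sphere_zero_iff_norm]
      simp
    refine ⟨ball 0 1, _, Pool.Agent.MPca0fc2.TB.isStrictlyPscDomain_ball,
      by rw [frontier_ball _ one_ne_zero]; exact hp, fun f hf hfc hδ => ?_⟩
    refine hc _ hp f hf (fun j => ?_) hδ
    have h1 := hfc j
    rwa [closure_ball _ one_ne_zero] at h1
  tfae_have 4 → 2 := by
    rintro ⟨D, p, hD, hp, hc⟩ δ hδ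
    obtain ⟨U, ρ, g, c, hs, -⟩ := Pool.Agent.MPca0fc2.LV.support_of_domain hD
    obtain ⟨A, hA⟩ := Pool.Agent.MPca0fc2.TB.uniform_ball_loc (N := N) hn hs hp
      (δ' := δ / 2) (δ := δ) (by positivity) (by linarith) (by
      intro F hF hFc hFb
      obtain ⟨r, hr, h, hh, hsol⟩ := hc (fun j z => F z j)
        (fun j => ⟨(EuclideanSpace.proj (𝕜 := ℂ) j).differentiable.comp_differentiableOn hF,
          1, fun z hz => (PiLp.norm_apply_le (F z) j).trans (hFb z hz).2⟩)
        (fun j => (EuclideanSpace.proj (𝕜 := ℂ) j).continuous.comp_continuousOn hFc)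
        ⟨(δ / 2) ^ 2, by positivity, fun z hz => by
          rw [← EuclideanSpace.norm_sq_eq]
          exact pow_le_pow_left₀ (by positivity) (hFb z hz).1 2⟩
      choose hd M hM using hh
      refine ⟨r, hr, ∑ j, |M j|, fun z => WithLp.toLp 2 fun j => h j z, ?_, fun z hz => ?_,
        fun z hz => hsol z hz⟩
      · intro z hz
        rw [differentiableWithinAt_euclidean]
        intro j
        exact hd j z hz
      · rw [EuclideanSpace.norm_eq]
        refine (Real.sqrt_le_sqrt (Finset.sum_le_sum fun j _ =>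
          pow_le_pow_left₀ (norm_nonneg _) ((hM j z hz).trans (le_abs_self _)) 2)).trans ?_
        rw [← Real.sqrt_sq (Finset.sum_nonneg fun j _ => abs_nonneg (M j))]
        apply Real.sqrt_le_sqrt
        exact Finset.sum_sq_le_sq_sum_of_nonneg fun j _ => abs_nonneg _)
    refine ⟨A, fun f hf hfb => ?_⟩
    have hfv : DifferentiableOn ℂ
        (fun z => (WithLp.toLp 2 fun j => f j z : EuclideanSpace ℂ (Fin N))) (ball 0 1) := by
      intro z hz
      rw [differentiableWithinAt_euclidean]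
      intro j
      exact hf j z hz
    obtain ⟨h, hh, hhA, hsol⟩ := hA _ hfv (fun z hz => by
      obtain ⟨h1, h2⟩ := hfb z hz
      have h3 : ‖(WithLp.toLp 2 fun j => f j z : EuclideanSpace ℂ (Fin N))‖ ^ 2 =
          ∑ j, ‖f j z‖ ^ 2 := by rw [EuclideanSpace.norm_sq_eq]
      rw [← h3] at h1 h2
      constructor
      · exact (sq_le_sq₀ hδ.le (norm_nonneg _)).mp h1
      · exact (sq_le_sq₀ (norm_nonneg _) zero_le_one).mp (by simpa using h2))
    refine ⟨fun j z => h z j,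
      fun j => (EuclideanSpace.proj (𝕜 := ℂ) j).differentiable.comp_differentiableOn hh,
      fun z hz => ⟨hsol z hz, ?_⟩⟩
    rw [← EuclideanSpace.norm_sq_eq]
    exact pow_le_pow_left₀ (norm_nonneg _) (hhA z hz) 2
  tfae_have 1 → 5 := fun ha => ⟨ball 0 1, Pool.Agent.MPca0fc2.TB.isStrictlyPscDomain_ball,
    ⟨0, mem_ball_self one_pos⟩, ha⟩
  tfae_have 5 → 4 := by
    rintro ⟨D, hD, hne, hQ⟩
    have hfr : (frontier D).Nonempty := by
      rw [Set.nonempty_iff_ne_empty]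
      intro h0
      have hn' : Nonempty (Fin n) := ⟨⟨0, hn⟩⟩
      rcases frontier_eq_empty_iff.mp h0 with h1 | h1
      · exact hne.ne_empty h1
      · have hDb := hD.1
        rw [h1] at hDb
        have : Nontrivial (EuclideanSpace ℂ (Fin n)) := inferInstance
        exact NormedSpace.unbounded_univ ℂ (EuclideanSpace ℂ (Fin n)) hDb
    obtain ⟨p, hp⟩ := hfr
    refine ⟨D, p, hD, hp, fun f hf _ hδ => ?_⟩
    obtain ⟨h, hh, hh1⟩ := hQ f hf hδ
    refine ⟨1, one_pos, h, fun j => ⟨(hh j).1.mono inter_subset_left, ?_⟩,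
      fun z hz => hh1 z hz.1⟩
    obtain ⟨M, hM⟩ := (hh j).2
    exact ⟨M, fun z hz => hM z hz.1⟩
  tfae_finish

end Pool.Agent.Lib.MP_ca0fc2_an.VarUniformBall
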